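import Pool.Agent.Strip051.G.I9000_9231.Gn
import Pool.Agent.Strip051.PB.Corns
import Pool.Agent.Strip051.PB.CornW

/-! # Certificates of the aligned corners (generated) -/

set_option linter.all false

namespace Pool.Agent.Strip051.G.I9000_9231.Tab.CG

open Pool.Agent.Strip051.PB

def A011E_000 :
    ∃ t, chk3 (onCell 0 67108864 0 1073741824 966367641 24778659 (corT true 1 c0B cA011E gB0q0 gB0q1 gB0q1 gB1q1 true false)) t 1 1 1 = true :=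
  ⟨(T.l 1), by decide +kernel⟩

def A011L_001 :
    ∃ t, chk3 (onCell 0 67108864 0 1073741824 966367641 24778659 (corT true 1 c0B cA011L gB0q0 gB0q1 gB1q1 gB2q1 false true)) t 1 1 1 = true :=
  ⟨(T.l 2), by decide +kernel⟩

def A011L_002 :
    ∃ t, chk3 (onCell 0 67108864 0 1073741824 966367641 24778659 (corT true 1 c0B cA011L gB0q0 gB0q1 gB2q1 gB3q1 true true)) t 1 1 1 = true :=
  ⟨(T.l 2), by decide +kernel⟩

def A011L_003 :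
    ∃ t, chk3 (onCell 0 67108864 0 1073741824 966367641 24778659 (corT true 1 c0B cA011L gB0q0 gB0q1 gB3q1 gB4q1 true true)) t 1 1 1 = true :=
  ⟨(T.l 2), by decide +kernel⟩

def A011R_020 :
    ∃ t, chk3 (onCell 0 67108864 0 1073741824 966367641 24778659 (corT true 1 c0B cA011R gB0q0 gB2q1 gB0q1 gB1q1 true false)) t 1 1 1 = true :=
  ⟨(T.b (T.b (T.b (T.b (T.a (T.l 0) (T.a (T.l 0) (T.l 0))) (T.l 1)) (T.l 1)) (T.l 1)) (T.l 1)), by decide +kernel⟩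

def A011R_030 :
    ∃ t, chk3 (onCell 0 67108864 0 1073741824 966367641 24778659 (corT true 1 c0B cA011R gB0q0 gB3q1 gB0q1 gB1q1 true false)) t 1 1 1 = true :=
  ⟨(T.b (T.b (T.a (T.b (T.l 0) (T.b (T.l 0) (T.b (T.l 0) (T.l 1)))) (T.b (T.a (T.b (T.l 0) (T.l 816)) (T.b (T.l 816) (T.l 816))) (T.b (T.a (T.b (T.l 816) (T.l 816)) (T.a (T.l 816) (T.l 816))) (T.b (T.a (T.l 816) (T.b (T.a (T.l 816) (T.l 816)) (T.l 1))) (T.l 1))))) (T.l 1)) (T.l 1)), by decide +kernel⟩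

def A011R_040 :
    ∃ t, chk3 (onCell 0 53687091 0 1073741824 966367641 24778659 (corX 1 c0B cA011R tA011R gB0q0 gB4q1 gB0q1 gB1q1 gB0q1 true false)) t 1 1 1 = true :=
  ⟨(T.b (T.a (T.l 3) (T.b (T.a (T.l 0) (T.b (T.l 0) (T.l 0))) (T.b (T.b (T.l 3) (T.l 3)) (T.l 1)))) (T.l 1)), by decide +kernel⟩

def A011R_120 :
    ∃ t, chk3 (onCell 0 67108864 0 1073741824 966367641 24778659 (corT true 1 c0B cA011R gB1q0 gB2q1 gB0q1 gB1q1 true false)) t 1 1 1 = true :=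
  ⟨(T.l 1), by decide +kernel⟩

def A011R_130 :
    ∃ t, chk3 (onCell 0 67108864 0 1073741824 966367641 24778659 (corT true 1 c0B cA011R gB1q0 gB3q1 gB0q1 gB1q1 true false)) t 1 1 1 = true :=
  ⟨(T.l 1), by decide +kernel⟩

def A011R_140 :
    ∃ t, chk3 (onCell 0 67108864 0 1073741824 966367641 24778659 (corT true 1 c0B cA011R gB1q0 gB4q1 gB0q1 gB1q1 true false)) t 1 1 1 = true :=
  ⟨(T.b (T.l 1) (T.l 1)), by decide +kernel⟩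

def A012E_000 :
    ∃ t, chk3 (onCell 0 33554432 0 1073741824 966367641 24778659 (corX 1 c0B cA012E tA012E gB0q0 gB0q1 gB0q2 gB1q2 gB0q2 true true)) t 1 1 1 = true :=
  ⟨(T.b (T.b (T.l 1) (T.b (T.l 1) (T.a (T.l 3) (T.l 67)))) (T.b (T.a (T.b (T.l 3) (T.l 3)) (T.a (T.l 3) (T.b (T.b (T.l 3) (T.a (T.l 819) (T.b (T.l 819) (T.a (T.l 819) (T.b (T.l 819) (T.l 816)))))) (T.b (T.a (T.l 819) (T.b (T.a (T.l 0) (T.l 0)) (T.l 2))) (T.l 2))))) (T.l 2))), by decide +kernel⟩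

def A012E_001 :
    ∃ t, chk3 (onCell 0 33554432 0 1073741824 966367641 24778659 (corT true 1 c0B cA012E gB0q0 gB0q1 gB1q2 gB2q2 true false)) t 1 1 1 = true :=
  ⟨(T.b (T.l 1) (T.b (T.b (T.l 1) (T.a (T.b (T.l 0) (T.l 0)) (T.b (T.b (T.l 0) (T.l 0)) (T.l 0)))) (T.b (T.a (T.l 0) (T.b (T.l 0) (T.l 0))) (T.a (T.l 0) (T.l 0))))), by decide +kernel⟩

def A012L_003 :
    ∃ t, chk3 (onCell 0 67108864 0 1073741824 966367641 24778659 (corT true 1 c0B cA012L gB0q0 gB0q1 gB3q2 gB4q2 false true)) t 1 1 1 = true :=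
  ⟨(T.l 2), by decide +kernel⟩

def A012R_020 :
    ∃ t, chk3 (onCell 0 67108864 0 1073741824 966367641 24778659 (corT true 1 c0B cA012R gB0q0 gB2q1 gB0q2 gB1q2 true true)) t 1 1 1 = true :=
  ⟨(T.b (T.l 2) (T.l 2)), by decide +kernel⟩

def A012R_021 :
    ∃ t, chk3 (onCell 0 67108864 0 1073741824 966367641 24778659 (corT true 1 c0B cA012R gB0q0 gB2q1 gB1q2 gB2q2 true false)) t 1 1 1 = true :=
  ⟨(T.a (T.b (T.l 0) (T.l 816)) (T.b (T.a (T.l 0) (T.l 0)) (T.a (T.l 880) (T.b (T.l 816) (T.b (T.l 816) (T.l 816)))))), by decide +kernel⟩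

def A012R_030 :
    ∃ t, chk3 (onCell 0 67108864 0 1073741824 966367641 24778659 (corT true 1 c0B cA012R gB0q0 gB3q1 gB0q2 gB1q2 true true)) t 1 1 1 = true :=
  ⟨(T.l 2), by decide +kernel⟩

def A012R_031 :
    ∃ t, chk3 (onCell 0 67108864 0 1073741824 966367641 24778659 (corT true 1 c0B cA012R gB0q0 gB3q1 gB1q2 gB2q2 true false)) t 1 1 1 = true :=
  ⟨(T.a (T.b (T.l 0) (T.l 816)) (T.b (T.a (T.l 0) (T.l 0)) (T.a (T.l 816) (T.b (T.l 816) (T.b (T.l 816) (T.l 816)))))), by decide +kernel⟩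

def A012R_040 :
    ∃ t, chk3 (onCell 0 67108864 0 1073741824 966367641 24778659 (corT true 1 c0B cA012R gB0q0 gB4q1 gB0q2 gB1q2 true true)) t 1 1 1 = true :=
  ⟨(T.l 2), by decide +kernel⟩

def A012R_041 :
    ∃ t, chk3 (onCell 0 67108864 0 1073741824 966367641 24778659 (corT true 1 c0B cA012R gB0q0 gB4q1 gB1q2 gB2q2 true false)) t 1 1 1 = true :=
  ⟨(T.a (T.b (T.l 0) (T.l 816)) (T.a (T.b (T.l 0) (T.l 816)) (T.b (T.b (T.b (T.l 816) (T.l 816)) (T.l 816)) (T.b (T.l 816) (T.b (T.l 816) (T.l 816)))))), by decide +kernel⟩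

def A012R_120 :
    ∃ t, chk3 (onCell 0 67108864 0 1073741824 966367641 24778659 (corT true 1 c0B cA012R gB1q0 gB2q1 gB0q2 gB1q2 true true)) t 1 1 1 = true :=
  ⟨(T.b (T.b (T.l 1) (T.b (T.a (T.l 1) (T.b (T.l 1) (T.a (T.l 1) (T.l 816)))) (T.b (T.a (T.a (T.l 816) (T.l 0)) (T.a (T.l 816) (T.l 816))) (T.a (T.a (T.l 816) (T.l 0)) (T.a (T.l 816) (T.l 816)))))) (T.b (T.b (T.a (T.a (T.l 816) (T.a (T.l 816) (T.l 816))) (T.a (T.b (T.l 816) (T.l 816)) (T.b (T.l 816) (T.l 816)))) (T.a (T.a (T.l 816) (T.a (T.l 816) (T.l 816))) (T.b (T.a (T.l 816) (T.l 816)) (T.a (T.l 816) (T.l 2))))) (T.a (T.a (T.l 816) (T.b (T.a (T.l 816) (T.l 2)) (T.l 2))) (T.l 2)))), by decide +kernel⟩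

def A012R_121 :
    ∃ t, chk3 (onCell 0 67108864 0 1073741824 966367641 24778659 (corT true 1 c0B cA012R gB1q0 gB2q1 gB1q2 gB2q2 true false)) t 1 1 1 = true :=
  ⟨(T.b (T.l 1) (T.b (T.a (T.a (T.l 1) (T.l 816)) (T.l 816)) (T.a (T.a (T.l 816) (T.l 816)) (T.b (T.l 816) (T.l 816))))), by decide +kernel⟩

def A012R_130 :
    ∃ t, chk3 (onCell 0 67108864 0 1073741824 966367641 24778659 (corT true 1 c0B cA012R gB1q0 gB3q1 gB0q2 gB1q2 true true)) t 1 1 1 = true :=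
  ⟨(T.b (T.b (T.a (T.l 1) (T.l 0)) (T.b (T.b (T.a (T.a (T.l 816) (T.l 0)) (T.a (T.l 816) (T.l 816))) (T.a (T.a (T.l 816) (T.l 0)) (T.a (T.l 816) (T.l 816)))) (T.a (T.a (T.l 816) (T.l 0)) (T.a (T.b (T.l 816) (T.l 816)) (T.b (T.l 816) (T.l 816)))))) (T.b (T.b (T.a (T.a (T.l 816) (T.a (T.l 816) (T.l 816))) (T.b (T.a (T.l 816) (T.l 816)) (T.a (T.l 816) (T.l 2)))) (T.a (T.a (T.l 816) (T.a (T.l 816) (T.l 2))) (T.l 2))) (T.a (T.l 2) (T.l 2)))), by decide +kernel⟩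

def A012R_131 :
    ∃ t, chk3 (onCell 0 67108864 0 1073741824 966367641 24778659 (corT true 1 c0B cA012R gB1q0 gB3q1 gB1q2 gB2q2 true false)) t 1 1 1 = true :=
  ⟨(T.b (T.a (T.l 1) (T.l 0)) (T.b (T.a (T.a (T.l 816) (T.l 816)) (T.l 816)) (T.a (T.a (T.l 816) (T.l 816)) (T.b (T.l 816) (T.l 816))))), by decide +kernel⟩

def A012R_140 :
    ∃ t, chk3 (onCell 0 67108864 0 1073741824 966367641 24778659 (corT true 1 c0B cA012R gB1q0 gB4q1 gB0q2 gB1q2 true true)) t 1 1 1 = true :=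
  ⟨(T.b (T.b (T.b (T.a (T.l 1) (T.l 0)) (T.a (T.a (T.l 0) (T.l 0)) (T.l 0))) (T.b (T.a (T.a (T.l 816) (T.l 0)) (T.a (T.l 816) (T.b (T.l 816) (T.l 816)))) (T.a (T.a (T.l 816) (T.l 0)) (T.b (T.a (T.l 816) (T.l 2)) (T.l 2))))) (T.b (T.b (T.a (T.a (T.l 816) (T.l 2)) (T.l 2)) (T.l 2)) (T.l 2))), by decide +kernel⟩

def A012R_141 :
    ∃ t, chk3 (onCell 0 67108864 0 1073741824 966367641 24778659 (corT true 1 c0B cA012R gB1q0 gB4q1 gB1q2 gB2q2 true false)) t 1 1 1 = true :=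
  ⟨(T.b (T.b (T.l 1) (T.a (T.a (T.l 816) (T.l 0)) (T.l 0))) (T.b (T.a (T.a (T.l 816) (T.l 816)) (T.l 816)) (T.a (T.a (T.l 816) (T.l 816)) (T.b (T.l 816) (T.l 816))))), by decide +kernel⟩

def A022E_000 :
    ∃ t, chk3 (onCell 0 53687091 0 1073741824 966367641 24778659 (corT true 1 c0B cA022E gB0q0 gB0q2 gB0q2 gB1q2 true true)) t 1 1 1 = true :=
  ⟨(T.l 2), by decide +kernel⟩

def A022E_001 :
    ∃ t, chk3 (onCell 0 53687091 0 1073741824 966367641 24778659 (corT true 1 c0B cA022E gB0q0 gB0q2 gB1q2 gB2q2 true false)) t 1 1 1 = true :=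
  ⟨(T.b (T.b (T.b (T.a (T.a (T.l 204) (T.a (T.l 204) (T.a (T.l 204) (T.l 204)))) (T.a (T.a (T.a (T.l 204) (T.b (T.l 204) (T.l 204))) (T.b (T.b (T.l 204) (T.l 204)) (T.l 204))) (T.a (T.b (T.b (T.l 204) (T.l 204)) (T.l 204)) (T.b (T.b (T.l 204) (T.l 204)) (T.l 204))))) (T.a (T.a (T.l 204) (T.a (T.l 204) (T.l 204))) (T.a (T.a (T.b (T.l 204) (T.l 204)) (T.b (T.l 204) (T.l 204))) (T.a (T.b (T.l 204) (T.l 204)) (T.b (T.l 204) (T.l 204)))))) (T.b (T.a (T.b (T.l 204) (T.l 204)) (T.a (T.a (T.l 204) (T.l 204)) (T.a (T.l 204) (T.l 204)))) (T.a (T.l 204) (T.a (T.b (T.l 204) (T.l 204)) (T.b (T.l 204) (T.l 204)))))) (T.a (T.b (T.l 256) (T.b (T.l 0) (T.l 0))) (T.b (T.b (T.a (T.l 204) (T.b (T.l 204) (T.l 204))) (T.b (T.l 204) (T.l 0))) (T.a (T.l 0) (T.b (T.l 0) (T.a (T.l 0) (T.l 0))))))), by decide +kernel⟩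

def A022E_010 :
    ∃ t, chk3 (onCell 0 67108864 0 1073741824 966367641 24778659 (corT true 1 c0B cA022E gB0q0 gB1q2 gB0q2 gB1q2 true true)) t 1 1 1 = true :=
  ⟨(T.l 2), by decide +kernel⟩

def A022E_011 :
    ∃ t, chk3 (onCell 0 67108864 0 1073741824 966367641 24778659 (corT true 1 c0B cA022E gB0q0 gB1q2 gB1q2 gB2q2 true false)) t 1 1 1 = true :=
  ⟨(T.a (T.b (T.b (T.l 204) (T.l 204)) (T.a (T.l 0) (T.b (T.l 0) (T.l 0)))) (T.b (T.a (T.l 204) (T.b (T.b (T.l 204) (T.l 204)) (T.l 204))) (T.b (T.a (T.l 0) (T.b (T.l 204) (T.l 0))) (T.a (T.a (T.l 0) (T.b (T.l 0) (T.l 0))) (T.b (T.l 0) (T.a (T.l 0) (T.l 0))))))), by decide +kernel⟩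

def A022E_110 :
    ∃ t, chk3 (onCell 0 67108864 0 1073741824 966367641 24778659 (corT true 1 c0B cA022E gB1q0 gB1q2 gB0q2 gB1q2 true true)) t 1 1 1 = true :=
  ⟨(T.l 2), by decide +kernel⟩

def A022E_111 :
    ∃ t, chk3 (onCell 0 67108864 0 1073741824 966367641 24778659 (corT true 1 c0B cA022E gB1q0 gB1q2 gB1q2 gB2q2 true false)) t 1 1 1 = true :=
  ⟨(T.b (T.a (T.b (T.l 204) (T.l 204)) (T.a (T.l 204) (T.b (T.b (T.l 204) (T.l 204)) (T.b (T.l 204) (T.l 0))))) (T.b (T.a (T.l 0) (T.a (T.b (T.l 0) (T.l 0)) (T.l 0))) (T.a (T.a (T.l 0) (T.a (T.l 0) (T.l 0))) (T.a (T.b (T.l 0) (T.l 0)) (T.l 0))))), by decide +kernel⟩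

def A022L_003 :
    ∃ t, chk3 (onCell 0 53687091 0 1073741824 966367641 24778659 (corX 1 c0B cA022L tA022L gB0q0 gB0q2 gB3q2 gB4q2 gB4q2 false true)) t 1 1 1 = true :=
  ⟨(T.b (T.b (T.b (T.b (T.a (T.a (T.l 207) (T.a (T.l 207) (T.b (T.l 204) (T.l 204)))) (T.a (T.a (T.l 204) (T.l 204)) (T.a (T.l 204) (T.l 204)))) (T.a (T.a (T.l 207) (T.a (T.l 207) (T.a (T.l 204) (T.l 204)))) (T.a (T.a (T.l 204) (T.l 204)) (T.a (T.l 204) (T.l 204))))) (T.a (T.a (T.l 207) (T.a (T.l 207) (T.a (T.l 207) (T.b (T.l 204) (T.l 204))))) (T.a (T.a (T.b (T.b (T.l 204) (T.l 204)) (T.b (T.l 204) (T.l 204))) (T.b (T.l 204) (T.l 204))) (T.a (T.b (T.l 204) (T.l 204)) (T.b (T.l 204) (T.l 204)))))) (T.b (T.a (T.a (T.l 207) (T.l 207)) (T.a (T.a (T.b (T.b (T.l 204) (T.l 220)) (T.b (T.l 204) (T.l 204))) (T.b (T.b (T.l 204) (T.l 204)) (T.b (T.l 204) (T.l 204)))) (T.a (T.b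 (T.b (T.l 204) (T.l 204)) (T.b (T.l 204) (T.l 204))) (T.b (T.b (T.l 204) (T.l 204)) (T.b (T.l 204) (T.l 204)))))) (T.a (T.a (T.l 207) (T.l 207)) (T.a (T.a (T.b (T.a (T.l 207) (T.l 204)) (T.l 207)) (T.b (T.a (T.l 204) (T.l 220)) (T.b (T.b (T.l 204) (T.l 204)) (T.b (T.l 204) (T.l 204))))) (T.b (T.a (T.b (T.l 204) (T.l 204)) (T.b (T.l 204) (T.l 204))) (T.a (T.b (T.l 220) (T.b (T.l 204) (T.l 204))) (T.b (T.l 204) (T.l 220)))))))) (T.b (T.a (T.a (T.b (T.l 207) (T.l 207)) (T.b (T.l 207) (T.l 207))) (T.b (T.a (T.l 207) (T.b (T.a (T.b (T.b (T.l 204) (T.l 204)) (T.a (T.l 207) (T.l 204))) (T.b (T.b (T.l 204) (T.l 204)) (T.a (T.l 204) (T.l 204)))) (T.a (T.l 207) (T.b (T.a (T.b (T.l 204) (T.l 204)) (T.b (T.l 204) (T.l 204))) (T.a (T.l 207) (T.b (T.l 204) (T.c (T.l 204) (T.l 204)))))))) (T.a (T.l 207) (T.l 207)))) (T.l 2))), by decide +kernel⟩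

def A022L_013 :
    ∃ t, chk3 (onCell 0 67108864 0 1073741824 966367641 24778659 (corT true 1 c0B cA022L gB0q0 gB1q2 gB3q2 gB4q2 false true)) t 1 1 1 = true :=
  ⟨(T.b (T.a (T.b (T.l 0) (T.l 0)) (T.b (T.a (T.l 204) (T.l 204)) (T.b (T.l 0) (T.l 0)))) (T.l 2)), by decide +kernel⟩

def A022L_113 :
    ∃ t, chk3 (onCell 0 67108864 0 1073741824 966367641 24778659 (corT true 1 c0B cA022L gB1q0 gB1q2 gB3q2 gB4q2 false true)) t 1 1 1 = true :=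
  ⟨(T.b (T.a (T.l 0) (T.b (T.a (T.l 0) (T.l 0)) (T.b (T.l 0) (T.l 2)))) (T.l 2)), by decide +kernel⟩

def A022R_040 :
    ∃ t, chk3 (onCell 0 67108864 0 1073741824 966367641 24778659 (corT true 1 c0B cA022R gB0q0 gB4q2 gB0q2 gB1q2 true true)) t 1 1 1 = true :=
  ⟨(T.l 2), by decide +kernel⟩

def A022R_041 :
    ∃ t, chk3 (onCell 0 67108864 0 1073741824 966367641 24778659 (corT true 1 c0B cA022R gB0q0 gB4q2 gB1q2 gB2q2 true false)) t 1 1 1 = true :=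
  ⟨(T.a (T.l 0) (T.b (T.b (T.l 0) (T.l 0)) (T.b (T.a (T.l 816) (T.b (T.l 816) (T.l 816))) (T.a (T.b (T.l 816) (T.l 816)) (T.b (T.l 816) (T.l 816)))))), by decide +kernel⟩

def A022R_140 :
    ∃ t, chk3 (onCell 0 67108864 0 1073741824 966367641 24778659 (corT true 1 c0B cA022R gB1q0 gB4q2 gB0q2 gB1q2 true true)) t 1 1 1 = true :=
  ⟨(T.l 2), by decide +kernel⟩

def A022R_141 :
    ∃ t, chk3 (onCell 0 67108864 0 1073741824 966367641 24778659 (corT true 1 c0B cA022R gB1q0 gB4q2 gB1q2 gB2q2 true false)) t 1 1 1 = true :=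
  ⟨(T.b (T.a (T.l 0) (T.b (T.l 0) (T.a (T.l 816) (T.b (T.l 816) (T.l 816))))) (T.a (T.b (T.l 816) (T.b (T.l 816) (T.a (T.l 816) (T.b (T.l 816) (T.l 816))))) (T.a (T.b (T.b (T.l 816) (T.l 816)) (T.l 816)) (T.b (T.l 0) (T.l 816))))), by decide +kernel⟩

def A101E_000 :
    ∃ t, chk3 (onCell 0 67108864 0 1073741824 966367641 24778659 (corT true 1 c0B cA101E gB0q1 gB0q0 gB0q1 gB1q1 true false)) t 1 1 1 = true :=
  ⟨(T.l 1), by decide +kernel⟩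

def A101E_010 :
    ∃ t, chk3 (onCell 0 67108864 0 1073741824 966367641 24778659 (corT true 1 c0B cA101E gB0q1 gB1q0 gB0q1 gB1q1 true false)) t 1 1 1 = true :=
  ⟨(T.l 1), by decide +kernel⟩

def A101R_001 :
    ∃ t, chk3 (onCell 0 67108864 0 1073741824 966367641 24778659 (corT true 1 c0B cA101R gB0q1 gB0q0 gB1q1 gB2q1 false true)) t 1 1 1 = true :=
  ⟨(T.l 2), by decide +kernel⟩

def A101R_002 :
    ∃ t, chk3 (onCell 0 67108864 0 1073741824 966367641 24778659 (corT true 1 c0B cA101R gB0q1 gB0q0 gB2q1 gB3q1 true true)) t 1 1 1 = true :=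
  ⟨(T.l 2), by decide +kernel⟩

def A101R_003 :
    ∃ t, chk3 (onCell 0 67108864 0 1073741824 966367641 24778659 (corT true 1 c0B cA101R gB0q1 gB0q0 gB3q1 gB4q1 true true)) t 1 1 1 = true :=
  ⟨(T.l 2), by decide +kernel⟩

def A101R_011 :
    ∃ t, chk3 (onCell 0 67108864 0 1073741824 966367641 24778659 (corT true 1 c0B cA101R gB0q1 gB1q0 gB1q1 gB2q1 false true)) t 1 1 1 = true :=
  ⟨(T.l 2), by decide +kernel⟩

def A101R_012 :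
    ∃ t, chk3 (onCell 0 67108864 0 1073741824 966367641 24778659 (corT true 1 c0B cA101R gB0q1 gB1q0 gB2q1 gB3q1 true true)) t 1 1 1 = true :=
  ⟨(T.l 2), by decide +kernel⟩

def A101R_013 :
    ∃ t, chk3 (onCell 0 67108864 0 1073741824 966367641 24778659 (corT true 1 c0B cA101R gB0q1 gB1q0 gB3q1 gB4q1 true true)) t 1 1 1 = true :=
  ⟨(T.l 2), by decide +kernel⟩

def A102E_000 :
    ∃ t, chk3 (onCell 0 33554432 0 1073741824 966367641 24778659 (corX 1 c0B cA102E tA102E gB0q1 gB0q0 gB0q2 gB1q2 gB0q2 true true)) t 1 1 1 = true :=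
  ⟨(T.b (T.b (T.l 2) (T.b (T.b (T.l 2) (T.a (T.l 3) (T.a (T.l 3) (T.a (T.l 3) (T.b (T.l 2) (T.a (T.l 0) (T.l 0))))))) (T.b (T.b (T.a (T.l 3) (T.a (T.l 3) (T.a (T.l 207) (T.a (T.l 207) (T.b (T.l 204) (T.l 207)))))) (T.a (T.l 3) (T.a (T.l 3) (T.l 3)))) (T.a (T.l 3) (T.a (T.l 3) (T.l 3)))))) (T.b (T.b (T.b (T.a (T.l 3) (T.b (T.l 3) (T.l 1))) (T.l 1)) (T.l 1)) (T.l 1))), by decide +kernel⟩

def A102E_001 :
    ∃ t, chk3 (onCell 0 33554432 0 1073741824 966367641 24778659 (corT true 1 c0B cA102E gB0q1 gB0q0 gB1q2 gB2q2 true false)) t 1 1 1 = true :=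
  ⟨(T.b (T.b (T.b (T.a (T.l 0) (T.l 0)) (T.a (T.l 0) (T.b (T.l 0) (T.l 0)))) (T.b (T.a (T.b (T.l 0) (T.l 0)) (T.b (T.l 0) (T.b (T.l 0) (T.l 0)))) (T.l 1))) (T.l 1)), by decide +kernel⟩

def A102E_010_1_2_1 :
    ∃ t, chk3 (onCell 0 67108864 0 1073741824 966367641 24778659 (corT true 1 c0B cA102E gB0q1 gB1q0 gB0q2 gB1q2 true true)) t 1 2 1 = true :=
  ⟨(T.l 2), by decide +kernel⟩

def A102E_010_1_12_1 :
    ∃ t, chk3 (onCell 0 67108864 0 1073741824 966367641 24778659 (corT true 1 c0B cA102E gB0q1 gB1q0 gB0q2 gB1q2 true true)) t 1 12 1 = true :=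
  ⟨(T.l 2), by decide +kernel⟩

def A102E_010_1_26_1 :
    ∃ t, chk3 (onCell 0 67108864 0 1073741824 966367641 24778659 (corT true 1 c0B cA102E gB0q1 gB1q0 gB0q2 gB1q2 true true)) t 1 26 1 = true :=
  ⟨(T.b (T.b (T.l 2) (T.b (T.b (T.b (T.l 2) (T.a (T.a (T.l 2) (T.l 2)) (T.a (T.l 2) (T.l 2)))) (T.a (T.a (T.l 0) (T.a (T.l 0) (T.l 0))) (T.a (T.a (T.l 0) (T.l 0)) (T.l 0)))) (T.b (T.a (T.a (T.l 0) (T.a (T.l 0) (T.l 0))) (T.a (T.a (T.l 0) (T.l 0)) (T.l 512))) (T.a (T.a (T.l 0) (T.a (T.l 0) (T.l 0))) (T.a (T.a (T.l 0) (T.l 0)) (T.a (T.l 0) (T.l 0))))))) (T.b (T.b (T.b (T.a (T.a (T.l 0) (T.a (T.l 0) (T.l 0))) (T.a (T.a (T.l 0) (T.l 0)) (T.a (T.l 0) (T.l 0)))) (T.a (T.a (T.l 0) (T.a (T.l 0) (T.l 8))) (T.a (T.a (T.l 0) (T.l 0)) (T.a (T.l 0) (T.l 0))))) (T.b (T.a (T.a (T.l 0) (T.a (T.l 0) (T.c (T.l 0) (T.l 816)))) (T.a (T.a (T.l 0) (T.l 0)) (T.a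 (T.l 0) (T.l 0)))) (T.a (T.a (T.l 0) (T.a (T.l 0) (T.c (T.l 0) (T.l 816)))) (T.a (T.a (T.l 0) (T.l 0)) (T.a (T.l 0) (T.l 0)))))) (T.b (T.b (T.a (T.a (T.l 0) (T.a (T.l 0) (T.c (T.l 0) (T.l 816)))) (T.a (T.a (T.l 0) (T.l 0)) (T.a (T.l 0) (T.l 0)))) (T.a (T.a (T.l 0) (T.a (T.l 0) (T.c (T.l 0) (T.l 816)))) (T.a (T.a (T.l 0) (T.l 0)) (T.a (T.l 0) (T.l 0))))) (T.a (T.a (T.l 0) (T.a (T.l 0) (T.c (T.l 0) (T.l 824)))) (T.a (T.a (T.l 0) (T.l 0)) (T.a (T.l 0) (T.l 0))))))), by decide +kernel⟩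

def A102E_010_1_54_1 :
    ∃ t, chk3 (onCell 0 67108864 0 1073741824 966367641 24778659 (corT true 1 c0B cA102E gB0q1 gB1q0 gB0q2 gB1q2 true true)) t 1 54 1 = true :=
  ⟨(T.b (T.b (T.b (T.a (T.a (T.l 0) (T.a (T.l 0) (T.a (T.l 0) (T.l 0)))) (T.a (T.a (T.l 128) (T.l 0)) (T.a (T.l 0) (T.l 0)))) (T.a (T.a (T.l 0) (T.a (T.l 0) (T.a (T.l 0) (T.l 0)))) (T.a (T.a (T.l 136) (T.l 0)) (T.a (T.l 0) (T.l 0))))) (T.a (T.a (T.a (T.l 0) (T.l 0)) (T.a (T.l 0) (T.a (T.l 0) (T.l 136)))) (T.a (T.a (T.c (T.l 0) (T.l 944)) (T.c (T.l 0) (T.l 0))) (T.a (T.l 0) (T.l 0))))) (T.b (T.a (T.a (T.c (T.l 0) (T.l 816)) (T.a (T.l 136) (T.a (T.l 136) (T.c (T.l 0) (T.l 944))))) (T.a (T.a (T.a (T.l 128) (T.l 128)) (T.c (T.l 0) (T.l 128))) (T.a (T.c (T.l 0) (T.l 0)) (T.c (T.l 0) (T.l 0))))) (T.a (T.a (T.c (T.l 0) (T.a (T.l 816) (T.l 816))) (T.a (T.c (T.l 0) (T.l 816))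 (T.a (T.c (T.l 0) (T.l 944)) (T.c (T.l 0) (T.c (T.l 944) (T.l 952)))))) (T.b (T.a (T.a (T.a (T.c (T.l 0) (T.l 816)) (T.l 128)) (T.c (T.l 128) (T.l 944))) (T.a (T.c (T.l 0) (T.l 0)) (T.c (T.l 0) (T.l 0)))) (T.a (T.a (T.a (T.c (T.l 0) (T.l 944)) (T.c (T.l 0) (T.l 944))) (T.a (T.c (T.l 0) (T.l 816)) (T.l 128))) (T.a (T.c (T.l 640) (T.l 128)) (T.c (T.l 0) (T.l 0)))))))), by decide +kernel⟩

def A102E_010_2_220_1 :
    ∃ t, chk3 (onCell 0 67108864 0 1073741824 966367641 24778659 (corT true 1 c0B cA102E gB0q1 gB1q0 gB0q2 gB1q2 true true)) t 2 220 1 = true :=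
  ⟨(T.b (T.a (T.c (T.l 0) (T.c (T.l 816) (T.a (T.l 816) (T.l 816)))) (T.a (T.c (T.l 0) (T.l 952)) (T.a (T.c (T.l 0) (T.l 952)) (T.c (T.l 128) (T.a (T.l 952) (T.l 944)))))) (T.a (T.c (T.l 0) (T.c (T.l 816) (T.c (T.l 816) (T.a (T.a (T.c (T.l 816) (T.a (T.c (T.l 816) (T.b (T.l 816) (T.b (T.l 816) (T.l 1)))) (T.l 824))) (T.l 824)) (T.l 952))))) (T.b (T.a (T.c (T.l 0) (T.l 952)) (T.a (T.c (T.l 0) (T.l 952)) (T.c (T.c (T.l 0) (T.l 944)) (T.a (T.c (T.l 944) (T.l 952)) (T.l 944))))) (T.b (T.a (T.c (T.l 0) (T.a (T.l 952) (T.l 952))) (T.b (T.a (T.c (T.l 816) (T.l 952)) (T.c (T.c (T.l 0) (T.l 944)) (T.a (T.c (T.l 944) (T.l 952)) (T.c (T.l 944) (T.l 944))))) (T.a (T.c (T.l 816) (T.c (T.l 944) (T.l 952))) (T.c (T.c (T.l 0) (T.l 944)) (T.a (T.c (T.l 944) (T.l 952)) (T.c (T.l 944) (T.l 944))))))) (T.a (T.c (T.l 0) (T.c (T.l 816) (T.l 952))) (T.b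 (T.a (T.c (T.l 816) (T.c (T.l 944) (T.l 952))) (T.c (T.c (T.l 0) (T.l 944)) (T.a (T.c (T.l 944) (T.c (T.l 944) (T.l 952))) (T.c (T.l 944) (T.l 944))))) (T.a (T.c (T.l 816) (T.c (T.l 944) (T.l 952))) (T.c (T.c (T.l 0) (T.l 944)) (T.a (T.c (T.l 944) (T.a (T.l 952) (T.l 944))) (T.c (T.l 944) (T.l 944))))))))))), by decide +kernel⟩

def A102E_010_3_220_1 :
    ∃ t, chk3 (onCell 0 67108864 0 1073741824 966367641 24778659 (corT true 1 c0B cA102E gB0q1 gB1q0 gB0q2 gB1q2 true true)) t 3 220 1 = true :=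
  ⟨(T.b (T.a (T.a (T.a (T.c (T.l 128) (T.c (T.l 944) (T.l 944))) (T.c (T.l 0) (T.l 944))) (T.a (T.c (T.l 0) (T.l 944)) (T.c (T.l 0) (T.l 944)))) (T.a (T.a (T.c (T.l 0) (T.l 944)) (T.c (T.l 0) (T.l 816))) (T.a (T.c (T.l 0) (T.l 816)) (T.c (T.l 0) (T.l 0))))) (T.a (T.b (T.b (T.a (T.a (T.c (T.l 128) (T.c (T.l 944) (T.l 944))) (T.c (T.l 128) (T.l 944))) (T.a (T.c (T.l 0) (T.l 944)) (T.c (T.l 0) (T.l 944)))) (T.a (T.a (T.c (T.l 128) (T.a (T.l 944) (T.l 944))) (T.c (T.l 128) (T.c (T.l 944) (T.l 944)))) (T.a (T.c (T.l 128) (T.l 944)) (T.c (T.l 0) (T.l 944))))) (T.a (T.b (T.b (T.a (T.c (T.l 128) (T.a (T.l 944) (T.l 944))) (T.c (T.l 128) (T.c (T.l 944) (T.l 944)))) (T.a (T.c (T.l 128) (T.a (T.l 944) (T.l 944))) (T.c (T.l 128) (T.c (T.l 944) (T.l 944))))) (T.b (T.a (T.c (T.c (T.l 0) (T.l 944)) (T.a (T.c (T.l 944) (T.l 944)) (T.l 944))) (T.c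 (T.l 128) (T.c (T.l 944) (T.l 944)))) (T.a (T.c (T.c (T.l 0) (T.l 944)) (T.a (T.c (T.l 944) (T.l 944)) (T.c (T.l 944) (T.l 944)))) (T.c (T.l 128) (T.a (T.l 944) (T.l 944)))))) (T.a (T.c (T.l 128) (T.c (T.l 944) (T.l 944))) (T.c (T.l 128) (T.c (T.l 944) (T.l 944)))))) (T.a (T.a (T.c (T.l 128) (T.l 944)) (T.c (T.l 128) (T.l 944))) (T.a (T.c (T.l 128) (T.l 944)) (T.c (T.l 0) (T.l 128)))))), by decide +kernel⟩

def A102E_010_2_221_1 :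
    ∃ t, chk3 (onCell 0 67108864 0 1073741824 966367641 24778659 (corT true 1 c0B cA102E gB0q1 gB1q0 gB0q2 gB1q2 true true)) t 2 221 1 = true :=
  ⟨(T.a (T.l 1) (T.b (T.b (T.b (T.a (T.c (T.l 0) (T.c (T.l 944) (T.l 952))) (T.b (T.a (T.c (T.l 816) (T.c (T.l 944) (T.l 952))) (T.b (T.a (T.c (T.l 128) (T.c (T.l 944) (T.a (T.l 952) (T.l 944)))) (T.c (T.l 816) (T.c (T.l 944) (T.l 944)))) (T.a (T.c (T.l 128) (T.c (T.l 944) (T.a (T.l 952) (T.l 952)))) (T.c (T.l 944) (T.c (T.l 944) (T.c (T.l 944) (T.l 944))))))) (T.a (T.c (T.l 816) (T.c (T.l 944) (T.l 952))) (T.b (T.a (T.c (T.l 128) (T.c (T.l 944) (T.a (T.c (T.l 944) (T.l 952)) (T.l 952)))) (T.c (T.l 944) (T.c (T.l 944) (T.c (T.l 944) (T.l 944))))) (T.a (T.c (T.l 128) (T.c (T.l 944) (T.c (T.l 944) (T.a (T.l 952) (T.l 944))))) (T.c (T.l 944) (T.c (T.l 944) (T.c (T.l 944) (T.l 944))))))))) (T.a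 (T.l 1) (T.a (T.l 1) (T.b (T.b (T.a (T.c (T.l 128) (T.c (T.l 944) (T.c (T.l 944) (T.a (T.c (T.l 944) (T.l 952)) (T.l 952))))) (T.c (T.l 944) (T.c (T.l 944) (T.a (T.l 944) (T.l 944))))) (T.a (T.l 1) (T.c (T.l 944) (T.c (T.l 944) (T.a (T.l 1) (T.l 944)))))) (T.l 1))))) (T.l 1)) (T.l 1))), by decide +kernel⟩

def A102E_010_6_884_1 :
    ∃ t, chk3 (onCell 0 67108864 0 1073741824 966367641 24778659 (corT true 1 c0B cA102E gB0q1 gB1q0 gB0q2 gB1q2 true true)) t 6 884 1 = true :=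
  ⟨(T.a (T.b (T.b (T.a (T.c (T.c (T.l 0) (T.l 944)) (T.a (T.c (T.l 944) (T.l 944)) (T.c (T.l 944) (T.l 944)))) (T.c (T.c (T.l 0) (T.l 944)) (T.a (T.l 944) (T.l 944)))) (T.a (T.c (T.c (T.l 0) (T.l 944)) (T.a (T.c (T.l 944) (T.l 944)) (T.c (T.l 944) (T.l 944)))) (T.c (T.c (T.l 0) (T.l 944)) (T.a (T.c (T.l 944) (T.l 944)) (T.l 944))))) (T.b (T.a (T.b (T.a (T.c (T.l 944) (T.c (T.l 944) (T.c (T.l 944) (T.l 944)))) (T.c (T.l 944) (T.c (T.l 944) (T.l 944)))) (T.a (T.c (T.l 944) (T.c (T.l 944) (T.c (T.l 944) (T.l 944)))) (T.c (T.l 944) (T.c (T.l 944) (T.l 944))))) (T.c (T.c (T.l 0) (T.l 944)) (T.a (T.c (T.l 944) (T.l 944)) (T.c (T.l 944) (T.l 944))))) (T.a (T.b (T.a (T.c (T.l 944) (T.c (T.l 944) (T.a (T.l 1) (T.l 944)))) (T.c (T.l 944) (T.c (T.l 944) (T.c (T.l 944) (T.l 944))))) (T.l 1)) (T.b (T.a (T.c (T.l 944) (T.c (T.l 944) (T.l 944)))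 (T.c (T.l 944) (T.c (T.l 944) (T.l 944)))) (T.a (T.c (T.l 944) (T.c (T.l 944) (T.l 944))) (T.c (T.l 944) (T.c (T.l 944) (T.l 944)))))))) (T.b (T.b (T.a (T.c (T.l 128) (T.c (T.l 944) (T.l 944))) (T.c (T.l 128) (T.c (T.l 944) (T.l 944)))) (T.a (T.c (T.c (T.l 0) (T.l 944)) (T.a (T.l 944) (T.l 944))) (T.c (T.c (T.l 0) (T.l 944)) (T.c (T.l 944) (T.l 944))))) (T.b (T.a (T.c (T.c (T.l 0) (T.l 944)) (T.a (T.c (T.l 944) (T.l 944)) (T.l 944))) (T.c (T.c (T.l 0) (T.l 944)) (T.c (T.l 944) (T.l 944)))) (T.a (T.c (T.c (T.l 0) (T.l 944)) (T.a (T.c (T.l 944) (T.l 944)) (T.c (T.l 944) (T.l 944)))) (T.c (T.c (T.l 0) (T.l 944)) (T.a (T.l 944) (T.l 944))))))), by decide +kernel⟩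

def A102E_010_6_885_1 :
    ∃ t, chk3 (onCell 0 67108864 0 1073741824 966367641 24778659 (corT true 1 c0B cA102E gB0q1 gB1q0 gB0q2 gB1q2 true true)) t 6 885 1 = true :=
  ⟨(T.a (T.a (T.l 1) (T.a (T.l 1) (T.b (T.c (T.l 944) (T.c (T.l 944) (T.c (T.l 944) (T.l 944)))) (T.l 1)))) (T.b (T.b (T.a (T.b (T.a (T.c (T.l 944) (T.c (T.l 944) (T.l 944))) (T.c (T.l 944) (T.c (T.l 944) (T.l 944)))) (T.a (T.c (T.l 944) (T.c (T.l 944) (T.l 944))) (T.c (T.l 944) (T.c (T.l 944) (T.l 944))))) (T.c (T.c (T.l 128) (T.l 944)) (T.a (T.c (T.l 944) (T.l 944)) (T.c (T.l 944) (T.l 944))))) (T.a (T.a (T.l 1) (T.c (T.l 944) (T.c (T.l 944) (T.l 944)))) (T.b (T.a (T.c (T.l 944) (T.c (T.l 944) (T.l 944))) (T.c (T.l 944) (T.c (T.l 944) (T.l 944)))) (T.a (T.l 1) (T.c (T.l 944) (T.c (T.l 944) (T.l 944))))))) (T.l 1))), by decide +kernel⟩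

def A102E_010_7_884_1 :
    ∃ t, chk3 (onCell 0 67108864 0 1073741824 966367641 24778659 (corT true 1 c0B cA102E gB0q1 gB1q0 gB0q2 gB1q2 true true)) t 7 884 1 = true :=
  ⟨(T.a (T.a (T.c (T.c (T.l 128) (T.l 944)) (T.c (T.l 944) (T.l 944))) (T.c (T.c (T.l 0) (T.l 944)) (T.c (T.l 944) (T.l 944)))) (T.a (T.c (T.c (T.l 0) (T.l 944)) (T.c (T.l 944) (T.l 944))) (T.c (T.l 640) (T.c (T.l 944) (T.l 944))))), by decide +kernel⟩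

def A102E_010_14_885_1 :
    ∃ t, chk3 (onCell 0 67108864 0 1073741824 966367641 24778659 (corT true 1 c0B cA102E gB0q1 gB1q0 gB0q2 gB1q2 true true)) t 14 885 1 = true :=
  ⟨(T.b (T.b (T.a (T.c (T.c (T.l 128) (T.l 944)) (T.a (T.c (T.l 944) (T.l 944)) (T.l 944))) (T.c (T.c (T.l 128) (T.l 944)) (T.c (T.l 944) (T.l 944)))) (T.a (T.b (T.c (T.c (T.l 128) (T.l 944)) (T.a (T.c (T.l 944) (T.l 944)) (T.c (T.l 944) (T.l 944)))) (T.a (T.c (T.l 944) (T.c (T.l 944) (T.l 944))) (T.c (T.l 944) (T.c (T.l 944) (T.l 944))))) (T.c (T.c (T.l 128) (T.l 944)) (T.a (T.c (T.l 944) (T.l 944)) (T.c (T.l 944) (T.l 944)))))) (T.b (T.a (T.b (T.a (T.c (T.l 944) (T.c (T.l 944) (T.l 944))) (T.c (T.l 944) (T.c (T.l 944) (T.l 944)))) (T.a (T.l 1) (T.c (T.l 944) (T.c (T.l 944) (T.l 944))))) (T.b (T.a (T.c (T.l 944) (T.c (T.l 944) (T.l 944))) (T.c (T.l 944) (T.c (T.l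 944) (T.l 944)))) (T.a (T.c (T.l 944) (T.c (T.l 944) (T.l 944))) (T.c (T.l 944) (T.c (T.l 944) (T.l 944)))))) (T.a (T.l 1) (T.b (T.a (T.a (T.l 1) (T.c (T.l 944) (T.c (T.l 944) (T.l 944)))) (T.c (T.c (T.l 816) (T.l 944)) (T.c (T.l 944) (T.l 944)))) (T.a (T.l 1) (T.a (T.l 1) (T.c (T.l 944) (T.c (T.l 944) (T.l 944))))))))), by decide +kernel⟩

def A102E_010_15_885_1 :
    ∃ t, chk3 (onCell 0 67108864 0 1073741824 966367641 24778659 (corT true 1 c0B cA102E gB0q1 gB1q0 gB0q2 gB1q2 true true)) t 15 885 1 = true :=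
  ⟨(T.b (T.b (T.a (T.c (T.c (T.l 0) (T.l 944)) (T.c (T.l 944) (T.l 944))) (T.c (T.c (T.l 0) (T.l 128)) (T.c (T.l 944) (T.l 944)))) (T.a (T.c (T.c (T.l 128) (T.l 944)) (T.a (T.l 944) (T.l 944))) (T.c (T.c (T.l 0) (T.l 128)) (T.c (T.l 944) (T.l 944))))) (T.a (T.b (T.c (T.a (T.l 944) (T.l 128)) (T.a (T.c (T.l 944) (T.l 944)) (T.c (T.l 944) (T.l 944)))) (T.b (T.a (T.c (T.c (T.l 816) (T.l 944)) (T.c (T.l 944) (T.l 944))) (T.c (T.c (T.l 816) (T.l 944)) (T.c (T.l 944) (T.l 944)))) (T.a (T.c (T.c (T.l 816) (T.l 944)) (T.c (T.l 944) (T.l 944))) (T.c (T.c (T.l 816) (T.l 944)) (T.c (T.l 944) (T.l 944)))))) (T.c (T.a (T.c (T.l 0) (T.l 944)) (T.c (T.l 0) (T.l 944))) (T.a (T.c (T.l 944) (T.l 944)) (T.c (T.l 944) (T.l 944)))))), by decide +kernel⟩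

def A102E_010_3_443_1 :
    ∃ t, chk3 (onCell 0 67108864 0 1073741824 966367641 24778659 (corT true 1 c0B cA102E gB0q1 gB1q0 gB0q2 gB1q2 true true)) t 3 443 1 = true :=
  ⟨(T.a (T.l 1) (T.a (T.l 1) (T.b (T.b (T.a (T.b (T.b (T.a (T.a (T.l 1) (T.a (T.l 1) (T.c (T.l 944) (T.c (T.l 944) (T.l 944))))) (T.b (T.a (T.c (T.l 944) (T.c (T.l 944) (T.l 944))) (T.c (T.l 944) (T.c (T.l 944) (T.l 944)))) (T.a (T.l 1) (T.c (T.c (T.l 816) (T.l 944)) (T.c (T.l 944) (T.l 944)))))) (T.l 1)) (T.l 1)) (T.b (T.b (T.a (T.c (T.c (T.l 816) (T.l 944)) (T.c (T.l 944) (T.l 944))) (T.c (T.c (T.l 0) (T.l 944)) (T.c (T.l 944) (T.l 944)))) (T.a (T.b (T.a (T.c (T.c (T.l 816) (T.l 944)) (T.c (T.l 944) (T.l 944))) (T.c (T.c (T.l 816) (T.l 944)) (T.c (T.l 944) (T.l 944)))) (T.a (T.l 1) (T.b (T.c (T.c (T.l 816) (T.l 944)) (T.c (T.l 944) (T.l 944))) (T.l 1)))) (T.c (T.c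 (T.l 0) (T.l 944)) (T.c (T.l 944) (T.l 944))))) (T.a (T.l 1) (T.b (T.b (T.a (T.a (T.l 1) (T.b (T.c (T.l 944) (T.c (T.l 944) (T.l 944))) (T.l 1))) (T.c (T.c (T.l 816) (T.l 944)) (T.c (T.l 944) (T.l 944)))) (T.a (T.l 1) (T.a (T.l 1) (T.a (T.l 1) (T.c (T.l 944) (T.c (T.l 944) (T.l 944))))))) (T.l 1))))) (T.l 1)) (T.l 1)))), by decide +kernel⟩

def A102E_010_1_111_1 :
    ∃ t, chk3 (onCell 0 67108864 0 1073741824 966367641 24778659 (corT true 1 c0B cA102E gB0q1 gB1q0 gB0q2 gB1q2 true true)) t 1 111 1 = true :=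
  ⟨(T.l 1), by decide +kernel⟩

def A102E_010_1_7_1 :
    ∃ t, chk3 (onCell 0 67108864 0 1073741824 966367641 24778659 (corT true 1 c0B cA102E gB0q1 gB1q0 gB0q2 gB1q2 true true)) t 1 7 1 = true :=
  ⟨(T.l 1), by decide +kernel⟩

theorem A102E_010_7_885_1 :
    ∃ t, chk3 (onCell 0 67108864 0 1073741824 966367641 24778659 (corT true 1 c0B cA102E gB0q1 gB1q0 gB0q2 gB1q2 true true)) t 7 885 1 = true :=
  ex3_a A102E_010_14_885_1 A102E_010_15_885_1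
theorem A102E_010_7_442_1 :
    ∃ t, chk3 (onCell 0 67108864 0 1073741824 966367641 24778659 (corT true 1 c0B cA102E gB0q1 gB1q0 gB0q2 gB1q2 true true)) t 7 442 1 = true :=
  ex3_b A102E_010_7_884_1 A102E_010_7_885_1
theorem A102E_010_6_442_1 :
    ∃ t, chk3 (onCell 0 67108864 0 1073741824 966367641 24778659 (corT true 1 c0B cA102E gB0q1 gB1q0 gB0q2 gB1q2 true true)) t 6 442 1 = true :=
  ex3_b A102E_010_6_884_1 A102E_010_6_885_1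
theorem A102E_010_3_442_1 :
    ∃ t, chk3 (onCell 0 67108864 0 1073741824 966367641 24778659 (corT true 1 c0B cA102E gB0q1 gB1q0 gB0q2 gB1q2 true true)) t 3 442 1 = true :=
  ex3_a A102E_010_6_442_1 A102E_010_7_442_1
theorem A102E_010_3_221_1 :
    ∃ t, chk3 (onCell 0 67108864 0 1073741824 966367641 24778659 (corT true 1 c0B cA102E gB0q1 gB1q0 gB0q2 gB1q2 true true)) t 3 221 1 = true :=
  ex3_b A102E_010_3_442_1 A102E_010_3_443_1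
theorem A102E_010_1_221_1 :
    ∃ t, chk3 (onCell 0 67108864 0 1073741824 966367641 24778659 (corT true 1 c0B cA102E gB0q1 gB1q0 gB0q2 gB1q2 true true)) t 1 221 1 = true :=
  ex3_a A102E_010_2_221_1 A102E_010_3_221_1
theorem A102E_010_1_220_1 :
    ∃ t, chk3 (onCell 0 67108864 0 1073741824 966367641 24778659 (corT true 1 c0B cA102E gB0q1 gB1q0 gB0q2 gB1q2 true true)) t 1 220 1 = true :=
  ex3_a A102E_010_2_220_1 A102E_010_3_220_1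
theorem A102E_010_1_110_1 :
    ∃ t, chk3 (onCell 0 67108864 0 1073741824 966367641 24778659 (corT true 1 c0B cA102E gB0q1 gB1q0 gB0q2 gB1q2 true true)) t 1 110 1 = true :=
  ex3_b A102E_010_1_220_1 A102E_010_1_221_1
theorem A102E_010_1_55_1 :
    ∃ t, chk3 (onCell 0 67108864 0 1073741824 966367641 24778659 (corT true 1 c0B cA102E gB0q1 gB1q0 gB0q2 gB1q2 true true)) t 1 55 1 = true :=
  ex3_b A102E_010_1_110_1 A102E_010_1_111_1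
theorem A102E_010_1_27_1 :
    ∃ t, chk3 (onCell 0 67108864 0 1073741824 966367641 24778659 (corT true 1 c0B cA102E gB0q1 gB1q0 gB0q2 gB1q2 true true)) t 1 27 1 = true :=
  ex3_b A102E_010_1_54_1 A102E_010_1_55_1
theorem A102E_010_1_13_1 :
    ∃ t, chk3 (onCell 0 67108864 0 1073741824 966367641 24778659 (corT true 1 c0B cA102E gB0q1 gB1q0 gB0q2 gB1q2 true true)) t 1 13 1 = true :=
  ex3_b A102E_010_1_26_1 A102E_010_1_27_1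
theorem A102E_010_1_6_1 :
    ∃ t, chk3 (onCell 0 67108864 0 1073741824 966367641 24778659 (corT true 1 c0B cA102E gB0q1 gB1q0 gB0q2 gB1q2 true true)) t 1 6 1 = true :=
  ex3_b A102E_010_1_12_1 A102E_010_1_13_1
theorem A102E_010_1_3_1 :
    ∃ t, chk3 (onCell 0 67108864 0 1073741824 966367641 24778659 (corT true 1 c0B cA102E gB0q1 gB1q0 gB0q2 gB1q2 true true)) t 1 3 1 = true :=
  ex3_b A102E_010_1_6_1 A102E_010_1_7_1
theorem A102E_010 :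
    ∃ t, chk3 (onCell 0 67108864 0 1073741824 966367641 24778659 (corT true 1 c0B cA102E gB0q1 gB1q0 gB0q2 gB1q2 true true)) t 1 1 1 = true :=
  ex3_b A102E_010_1_2_1 A102E_010_1_3_1

def A102E_011_1_2_1 :
    ∃ t, chk3 (onCell 0 67108864 0 1073741824 966367641 24778659 (corT true 1 c0B cA102E gB0q1 gB1q0 gB1q2 gB2q2 true false)) t 1 2 1 = true :=
  ⟨(T.b (T.a (T.a (T.l 0) (T.b (T.l 0) (T.l 0))) (T.a (T.l 0) (T.l 0))) (T.b (T.a (T.a (T.l 0) (T.l 0)) (T.a (T.l 0) (T.l 0))) (T.b (T.a (T.a (T.l 0) (T.l 0)) (T.a (T.l 0) (T.l 0))) (T.a (T.a (T.l 0) (T.l 0)) (T.a (T.l 0) (T.l 0)))))), by decide +kernel⟩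

def A102E_011_1_12_1 :
    ∃ t, chk3 (onCell 0 67108864 0 1073741824 966367641 24778659 (corT true 1 c0B cA102E gB0q1 gB1q0 gB1q2 gB2q2 true false)) t 1 12 1 = true :=
  ⟨(T.b (T.b (T.a (T.a (T.l 0) (T.a (T.l 0) (T.l 0))) (T.a (T.l 0) (T.l 0))) (T.b (T.a (T.a (T.l 0) (T.a (T.l 0) (T.l 0))) (T.a (T.l 0) (T.l 0))) (T.a (T.a (T.l 0) (T.a (T.l 0) (T.l 0))) (T.a (T.l 0) (T.l 0))))) (T.b (T.b (T.b (T.a (T.a (T.l 0) (T.a (T.l 0) (T.l 0))) (T.a (T.l 0) (T.l 0))) (T.a (T.a (T.l 0) (T.a (T.l 0) (T.l 0))) (T.a (T.l 0) (T.l 0)))) (T.b (T.b (T.a (T.a (T.l 0) (T.a (T.l 0) (T.l 0))) (T.a (T.l 0) (T.l 0))) (T.a (T.a (T.l 0) (T.a (T.l 0) (T.l 0))) (T.a (T.l 0) (T.l 0)))) (T.b (T.a (T.a (T.l 0) (T.a (T.l 0) (T.l 0))) (T.a (T.l 0) (T.l 0))) (T.a (T.a (T.l 0) (T.a (T.l 0) (T.l 0))) (T.a (T.l 0) (T.l 0)))))) (T.b (T.b (T.b (T.a (T.a (T.l 0) (T.a (T.l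 0) (T.l 0))) (T.a (T.l 0) (T.l 0))) (T.a (T.a (T.l 0) (T.a (T.l 0) (T.l 0))) (T.a (T.l 0) (T.l 0)))) (T.b (T.a (T.a (T.l 0) (T.a (T.l 0) (T.l 0))) (T.a (T.l 0) (T.l 0))) (T.a (T.a (T.l 0) (T.a (T.l 0) (T.l 0))) (T.a (T.l 0) (T.l 0))))) (T.b (T.b (T.a (T.a (T.l 0) (T.a (T.l 0) (T.l 0))) (T.a (T.l 0) (T.l 0))) (T.a (T.a (T.l 0) (T.a (T.l 0) (T.l 0))) (T.a (T.l 0) (T.l 0)))) (T.b (T.a (T.a (T.l 0) (T.a (T.l 0) (T.l 0))) (T.a (T.l 0) (T.l 0))) (T.a (T.a (T.l 0) (T.a (T.l 0) (T.l 0))) (T.a (T.l 0) (T.l 0)))))))), by decide +kernel⟩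

def A102E_011_1_13_1 :
    ∃ t, chk3 (onCell 0 67108864 0 1073741824 966367641 24778659 (corT true 1 c0B cA102E gB0q1 gB1q0 gB1q2 gB2q2 true false)) t 1 13 1 = true :=
  ⟨(T.b (T.b (T.b (T.b (T.b (T.a (T.a (T.l 0) (T.a (T.l 0) (T.l 0))) (T.a (T.a (T.l 0) (T.l 0)) (T.l 0))) (T.a (T.a (T.l 0) (T.a (T.l 0) (T.l 0))) (T.a (T.a (T.l 0) (T.l 0)) (T.l 0)))) (T.b (T.a (T.a (T.l 0) (T.a (T.l 0) (T.l 0))) (T.a (T.a (T.l 0) (T.l 0)) (T.l 0))) (T.a (T.a (T.l 0) (T.a (T.l 0) (T.l 0))) (T.a (T.a (T.l 0) (T.l 0)) (T.l 0))))) (T.b (T.b (T.a (T.a (T.l 0) (T.a (T.l 0) (T.l 0))) (T.a (T.a (T.l 0) (T.l 0)) (T.l 0))) (T.a (T.a (T.l 0) (T.a (T.l 0) (T.l 0))) (T.a (T.a (T.l 0) (T.l 0)) (T.l 0)))) (T.l 1))) (T.l 1)) (T.l 1)), by decide +kernel⟩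

def A102E_011_1_7_1 :
    ∃ t, chk3 (onCell 0 67108864 0 1073741824 966367641 24778659 (corT true 1 c0B cA102E gB0q1 gB1q0 gB1q2 gB2q2 true false)) t 1 7 1 = true :=
  ⟨(T.l 1), by decide +kernel⟩

theorem A102E_011_1_6_1 :
    ∃ t, chk3 (onCell 0 67108864 0 1073741824 966367641 24778659 (corT true 1 c0B cA102E gB0q1 gB1q0 gB1q2 gB2q2 true false)) t 1 6 1 = true :=
  ex3_b A102E_011_1_12_1 A102E_011_1_13_1
theorem A102E_011_1_3_1 :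
    ∃ t, chk3 (onCell 0 67108864 0 1073741824 966367641 24778659 (corT true 1 c0B cA102E gB0q1 gB1q0 gB1q2 gB2q2 true false)) t 1 3 1 = true :=
  ex3_b A102E_011_1_6_1 A102E_011_1_7_1
theorem A102E_011 :
    ∃ t, chk3 (onCell 0 67108864 0 1073741824 966367641 24778659 (corT true 1 c0B cA102E gB0q1 gB1q0 gB1q2 gB2q2 true false)) t 1 1 1 = true :=
  ex3_b A102E_011_1_2_1 A102E_011_1_3_1

def A102R_003 :
    ∃ t, chk3 (onCell 0 67108864 0 1073741824 966367641 24778659 (corT true 1 c0B cA102R gB0q1 gB0q0 gB3q2 gB4q2 false true)) t 1 1 1 = true :=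
  ⟨(T.l 2), by decide +kernel⟩

def A102R_013 :
    ∃ t, chk3 (onCell 0 67108864 0 1073741824 966367641 24778659 (corT true 1 c0B cA102R gB0q1 gB1q0 gB3q2 gB4q2 false true)) t 1 1 1 = true :=
  ⟨(T.l 2), by decide +kernel⟩

def A202E_000 :
    ∃ t, chk3 (onCell 0 53687091 0 1073741824 966367641 24778659 (corT true 1 c0B cA202E gB0q2 gB0q0 gB0q2 gB1q2 true true)) t 1 1 1 = true :=
  ⟨(T.l 2), by decide +kernel⟩

def A202E_001 :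
    ∃ t, chk3 (onCell 0 53687091 0 1073741824 966367641 24778659 (corT true 1 c0B cA202E gB0q2 gB0q0 gB1q2 gB2q2 true false)) t 1 1 1 = true :=
  ⟨(T.b (T.a (T.b (T.b (T.l 0) (T.l 0)) (T.b (T.l 816) (T.l 816))) (T.b (T.a (T.l 0) (T.b (T.a (T.l 0) (T.l 0)) (T.l 0))) (T.b (T.b (T.l 0) (T.l 816)) (T.a (T.l 816) (T.b (T.l 816) (T.l 816)))))) (T.b (T.b (T.a (T.l 816) (T.a (T.b (T.l 816) (T.l 816)) (T.b (T.l 816) (T.l 816)))) (T.a (T.b (T.l 816) (T.l 816)) (T.a (T.a (T.l 816) (T.l 816)) (T.a (T.l 816) (T.l 816))))) (T.b (T.a (T.a (T.l 816) (T.a (T.l 816) (T.l 816))) (T.a (T.a (T.b (T.l 816) (T.l 816)) (T.b (T.l 816) (T.l 816))) (T.a (T.b (T.l 816) (T.l 816)) (T.b (T.l 816) (T.l 816))))) (T.a (T.a (T.l 816) (T.a (T.l 816) (T.a (T.l 816) (T.l 816)))) (T.a (T.a (T.a (T.l 816) (T.b (T.l 816) (T.l 816))) (T.b (T.l 816) (T.b (T.l 816) (T.l 816))))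 (T.a (T.b (T.l 816) (T.b (T.l 816) (T.l 816))) (T.b (T.l 816) (T.b (T.l 816) (T.l 816))))))))), by decide +kernel⟩

def A202E_010 :
    ∃ t, chk3 (onCell 0 53687091 0 1073741824 966367641 24778659 (corT true 1 c0B cA202E gB0q2 gB1q0 gB0q2 gB1q2 true true)) t 1 1 1 = true :=
  ⟨(T.l 2), by decide +kernel⟩

def A202E_011 :
    ∃ t, chk3 (onCell 0 53687091 0 1073741824 966367641 24778659 (corT true 1 c0B cA202E gB0q2 gB1q0 gB1q2 gB2q2 true false)) t 1 1 1 = true :=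
  ⟨(T.b (T.a (T.l 0) (T.b (T.a (T.b (T.l 0) (T.l 0)) (T.l 0)) (T.b (T.b (T.l 0) (T.l 0)) (T.a (T.l 816) (T.l 0))))) (T.b (T.b (T.a (T.l 816) (T.a (T.l 820) (T.l 816))) (T.a (T.b (T.l 816) (T.l 816)) (T.a (T.b (T.l 816) (T.l 816)) (T.b (T.l 816) (T.l 816))))) (T.a (T.a (T.l 816) (T.a (T.l 816) (T.b (T.l 816) (T.a (T.l 816) (T.l 816))))) (T.a (T.b (T.a (T.l 816) (T.l 816)) (T.a (T.a (T.l 816) (T.b (T.l 816) (T.l 816))) (T.b (T.l 816) (T.b (T.l 816) (T.l 816))))) (T.b (T.a (T.l 816) (T.l 816)) (T.a (T.b (T.l 816) (T.b (T.l 816) (T.l 816))) (T.b (T.l 816) (T.b (T.l 816) (T.l 816))))))))), by decide +kernel⟩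

def A202E_110 :
    ∃ t, chk3 (onCell 0 67108864 0 1073741824 966367641 24778659 (corT true 1 c0B cA202E gB1q2 gB1q0 gB0q2 gB1q2 true true)) t 1 1 1 = true :=
  ⟨(T.l 2), by decide +kernel⟩

def A202E_111 :
    ∃ t, chk3 (onCell 0 67108864 0 1073741824 966367641 24778659 (corT true 1 c0B cA202E gB1q2 gB1q0 gB1q2 gB2q2 true false)) t 1 1 1 = true :=
  ⟨(T.b (T.b (T.a (T.a (T.l 0) (T.a (T.l 0) (T.l 0))) (T.a (T.b (T.l 0) (T.l 0)) (T.l 0))) (T.a (T.l 0) (T.a (T.b (T.l 0) (T.l 0)) (T.l 0)))) (T.a (T.a (T.l 816) (T.l 816)) (T.a (T.b (T.l 816) (T.l 816)) (T.b (T.b (T.l 0) (T.l 816)) (T.a (T.l 816) (T.l 816)))))), by decide +kernel⟩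

def A202R_003_1_2_1 :
    ∃ t, chk3 (onCell 0 53687091 0 1073741824 966367641 24778659 (corX 1 c0B cA202R tA202R gB0q2 gB0q0 gB3q2 gB4q2 gB4q2 false true)) t 1 2 1 = true :=
  ⟨(T.b (T.l 2) (T.a (T.a (T.b (T.l 819) (T.l 819)) (T.b (T.l 819) (T.l 819))) (T.b (T.a (T.l 883) (T.b (T.l 2) (T.l 819))) (T.a (T.l 883) (T.b (T.a (T.l 819) (T.b (T.a (T.l 819) (T.b (T.c (T.l 816) (T.l 816)) (T.l 816))) (T.a (T.b (T.l 816) (T.l 816)) (T.b (T.l 816) (T.l 816))))) (T.a (T.b (T.a (T.l 819) (T.l 816)) (T.b (T.l 816) (T.l 816))) (T.b (T.a (T.l 816) (T.l 816)) (T.b (T.l 816) (T.l 816))))))))), by decide +kernel⟩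

def A202R_003_1_3_1 :
    ∃ t, chk3 (onCell 0 53687091 0 1073741824 966367641 24778659 (corX 1 c0B cA202R tA202R gB0q2 gB0q0 gB3q2 gB4q2 gB4q2 false true)) t 1 3 1 = true :=
  ⟨(T.b (T.b (T.a (T.a (T.l 819) (T.l 819)) (T.a (T.a (T.b (T.l 819) (T.a (T.l 819) (T.l 816))) (T.b (T.b (T.b (T.l 816) (T.l 816)) (T.b (T.l 816) (T.l 816))) (T.a (T.l 816) (T.b (T.l 816) (T.l 816))))) (T.b (T.a (T.b (T.b (T.l 816) (T.l 816)) (T.b (T.l 816) (T.l 816))) (T.b (T.b (T.l 816) (T.l 816)) (T.l 816))) (T.a (T.b (T.l 816) (T.l 816)) (T.b (T.l 816) (T.l 816)))))) (T.b (T.a (T.a (T.l 819) (T.l 819)) (T.a (T.a (T.b (T.l 816) (T.l 816)) (T.b (T.l 816) (T.l 816))) (T.a (T.b (T.l 816) (T.l 816)) (T.b (T.l 816) (T.l 816))))) (T.a (T.a (T.l 819) (T.l 819)) (T.a (T.a (T.a (T.l 816) (T.l 816)) (T.b (T.l 816) (T.l 816))) (T.a (T.b (T.l 816) (T.l 816)) (T.b (T.l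 816) (T.l 816))))))) (T.b (T.b (T.a (T.a (T.l 819) (T.a (T.l 819) (T.b (T.l 816) (T.l 816)))) (T.a (T.a (T.b (T.l 816) (T.l 816)) (T.l 816)) (T.a (T.l 816) (T.l 816)))) (T.a (T.a (T.l 819) (T.a (T.l 819) (T.b (T.l 816) (T.l 816)))) (T.a (T.a (T.b (T.l 816) (T.l 816)) (T.l 816)) (T.a (T.l 816) (T.l 816))))) (T.b (T.a (T.a (T.l 819) (T.a (T.l 819) (T.a (T.l 816) (T.l 816)))) (T.a (T.a (T.l 816) (T.l 816)) (T.a (T.l 816) (T.l 816)))) (T.a (T.a (T.l 819) (T.a (T.l 819) (T.b (T.l 816) (T.l 816)))) (T.a (T.a (T.l 816) (T.l 816)) (T.a (T.l 816) (T.l 816))))))), by decide +kernel⟩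

theorem A202R_003 :
    ∃ t, chk3 (onCell 0 53687091 0 1073741824 966367641 24778659 (corX 1 c0B cA202R tA202R gB0q2 gB0q0 gB3q2 gB4q2 gB4q2 false true)) t 1 1 1 = true :=
  ex3_b A202R_003_1_2_1 A202R_003_1_3_1

def A202R_013 :
    ∃ t, chk3 (onCell 0 67108864 0 1073741824 966367641 24778659 (corT true 1 c0B cA202R gB0q2 gB1q0 gB3q2 gB4q2 false true)) t 1 1 1 = true :=
  ⟨(T.b (T.b (T.l 2) (T.l 2)) (T.b (T.b (T.b (T.a (T.l 0) (T.a (T.l 0) (T.l 0))) (T.b (T.a (T.l 0) (T.a (T.l 0) (T.l 0))) (T.a (T.a (T.l 816) (T.l 816)) (T.a (T.l 0) (T.l 0))))) (T.b (T.a (T.a (T.l 816) (T.b (T.l 816) (T.l 816))) (T.a (T.l 0) (T.l 0))) (T.a (T.a (T.l 816) (T.a (T.l 816) (T.l 816))) (T.a (T.l 0) (T.l 0))))) (T.b (T.b (T.a (T.a (T.l 816) (T.a (T.l 816) (T.l 816))) (T.a (T.b (T.l 816) (T.l 816)) (T.b (T.l 816) (T.l 816)))) (T.a (T.a (T.l 816) (T.a (T.l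 816) (T.l 816))) (T.a (T.a (T.l 816) (T.l 816)) (T.b (T.l 816) (T.l 816))))) (T.b (T.a (T.a (T.l 816) (T.a (T.b (T.l 816) (T.l 816)) (T.l 816))) (T.a (T.a (T.l 816) (T.l 816)) (T.a (T.l 816) (T.l 816)))) (T.a (T.a (T.l 816) (T.a (T.a (T.l 816) (T.l 816)) (T.b (T.l 816) (T.l 816)))) (T.a (T.a (T.b (T.l 816) (T.l 816)) (T.l 816)) (T.a (T.b (T.l 816) (T.l 816)) (T.b (T.l 816) (T.l 816))))))))), by decide +kernel⟩

def A202R_113 :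
    ∃ t, chk3 (onCell 0 67108864 0 1073741824 966367641 24778659 (corT true 1 c0B cA202R gB1q2 gB1q0 gB3q2 gB4q2 false true)) t 1 1 1 = true :=
  ⟨(T.b (T.l 2) (T.a (T.l 0) (T.b (T.b (T.l 2) (T.l 0)) (T.a (T.l 0) (T.l 0))))), by decide +kernel⟩

def B011E_000 :
    ∃ t, chk3 (onCell 0 67108864 0 1073741824 966367641 24778659 (corT true 1 c0B cB011E gB0q0 gB0q1 gB0q1 gB1q1 true false)) t 1 1 1 = true :=
  ⟨(T.l 1), by decide +kernel⟩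

def B011E_100 :
    ∃ t, chk3 (onCell 0 67108864 0 1073741824 966367641 24778659 (corT true 1 c0B cB011E gB1q0 gB0q1 gB0q1 gB1q1 true false)) t 1 1 1 = true :=
  ⟨(T.l 1), by decide +kernel⟩

def B011L_020 :
    ∃ t, chk3 (onCell 0 67108864 0 1073741824 966367641 24778659 (corT true 1 c0B cB011L gB0q0 gB2q1 gB0q1 gB1q1 true false)) t 1 1 1 = true :=
  ⟨(T.l 1), by decide +kernel⟩

def B011L_030 :
    ∃ t, chk3 (onCell 0 67108864 0 1073741824 966367641 24778659 (corT true 1 c0B cB011L gB0q0 gB3q1 gB0q1 gB1q1 true false)) t 1 1 1 = true :=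
  ⟨(T.l 1), by decide +kernel⟩

def B011L_040 :
    ∃ t, chk3 (onCell 0 67108864 0 1073741824 966367641 24778659 (corT true 1 c0B cB011L gB0q0 gB4q1 gB0q1 gB1q1 true false)) t 1 1 1 = true :=
  ⟨(T.l 1), by decide +kernel⟩

def B011L_120 :
    ∃ t, chk3 (onCell 0 67108864 0 1073741824 966367641 24778659 (corT true 1 c0B cB011L gB1q0 gB2q1 gB0q1 gB1q1 true false)) t 1 1 1 = true :=
  ⟨(T.l 1), by decide +kernel⟩

def B011L_130 :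
    ∃ t, chk3 (onCell 0 67108864 0 1073741824 966367641 24778659 (corT true 1 c0B cB011L gB1q0 gB3q1 gB0q1 gB1q1 true false)) t 1 1 1 = true :=
  ⟨(T.l 1), by decide +kernel⟩

def B011L_140 :
    ∃ t, chk3 (onCell 0 67108864 0 1073741824 966367641 24778659 (corT true 1 c0B cB011L gB1q0 gB4q1 gB0q1 gB1q1 true false)) t 1 1 1 = true :=
  ⟨(T.l 1), by decide +kernel⟩

def B011R_001 :
    ∃ t, chk3 (onCell 0 53687091 0 1073741824 966367641 24778659 (corT true 1 c0B cB011R gB0q0 gB0q1 gB1q1 gB2q1 false true)) t 1 1 1 = true :=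
  ⟨(T.b (T.b (T.b (T.b (T.a (T.l 0) (T.a (T.l 0) (T.l 0))) (T.l 2)) (T.l 2)) (T.l 2)) (T.l 2)), by decide +kernel⟩

def B011R_002 :
    ∃ t, chk3 (onCell 0 53687091 0 1073741824 966367641 24778659 (corT true 1 c0B cB011R gB0q0 gB0q1 gB2q1 gB3q1 true true)) t 1 1 1 = true :=
  ⟨(T.b (T.b (T.b (T.a (T.l 0) (T.a (T.l 0) (T.b (T.l 0) (T.l 0)))) (T.a (T.b (T.l 0) (T.b (T.l 0) (T.l 2))) (T.a (T.b (T.l 816) (T.b (T.l 816) (T.l 2))) (T.b (T.l 816) (T.b (T.b (T.l 816) (T.l 2)) (T.l 2)))))) (T.l 2)) (T.l 2)), by decide +kernel⟩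

def B011R_003 :
    ∃ t, chk3 (onCell 0 53687091 0 1073741824 966367641 24778659 (corX 1 c0B cB011R tB011R gB0q0 gB0q1 gB3q1 gB4q1 gB4q1 true true)) t 1 1 1 = true :=
  ⟨(T.b (T.b (T.b (T.l 1) (T.a (T.l 3) (T.a (T.l 819) (T.a (T.l 819) (T.b (T.l 1) (T.l 816)))))) (T.b (T.b (T.l 3) (T.l 3)) (T.l 2))) (T.l 2)), by decide +kernel⟩

def B011R_101 :
    ∃ t, chk3 (onCell 0 67108864 0 1073741824 966367641 24778659 (corT true 1 c0B cB011R gB1q0 gB0q1 gB1q1 gB2q1 false true)) t 1 1 1 = true :=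
  ⟨(T.l 2), by decide +kernel⟩

def B011R_102 :
    ∃ t, chk3 (onCell 0 67108864 0 1073741824 966367641 24778659 (corT true 1 c0B cB011R gB1q0 gB0q1 gB2q1 gB3q1 true true)) t 1 1 1 = true :=
  ⟨(T.l 2), by decide +kernel⟩

def B011R_103 :
    ∃ t, chk3 (onCell 0 67108864 0 1073741824 966367641 24778659 (corT true 1 c0B cB011R gB1q0 gB0q1 gB3q1 gB4q1 true true)) t 1 1 1 = true :=
  ⟨(T.b (T.l 2) (T.l 2)), by decide +kernel⟩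

def B012E_000 :
    ∃ t, chk3 (onCell 0 33554432 0 1073741824 966367641 24778659 (corX 1 c0B cB012E tB012E gB0q0 gB0q2 gB0q1 gB1q1 gB0q1 true false)) t 1 1 1 = true :=
  ⟨(T.b (T.b (T.l 1) (T.b (T.l 1) (T.b (T.l 1) (T.b (T.l 1) (T.b (T.l 1) (T.a (T.b (T.l 1) (T.a (T.a (T.c (T.l 207) (T.l 207)) (T.l 207)) (T.c (T.l 207) (T.l 207)))) (T.a (T.l 207) (T.l 207)))))))) (T.a (T.a (T.b (T.a (T.b (T.a (T.a (T.l 207) (T.l 207)) (T.b (T.l 207) (T.l 207))) (T.a (T.a (T.l 207) (T.l 207)) (T.l 207))) (T.b (T.a (T.l 207) (T.l 207)) (T.b (T.l 207) (T.l 207)))) (T.a (T.a (T.a (T.b (T.l 207) (T.l 207)) (T.l 207)) (T.b (T.l 207) (T.l 207))) (T.a (T.l 207) (T.l 207)))) (T.b (T.b (T.a (T.b (T.l 207) (T.l 207)) (T.b (T.l 207) (T.l 207))) (T.a (T.l 207) (T.l 207))) (T.a (T.b (T.l 207) (T.l 207)) (T.l 207)))) (T.b (T.a (T.b (T.a (T.l 207) (T.l 207)) (T.b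 (T.l 207) (T.l 207))) (T.b (T.b (T.l 207) (T.a (T.l 207) (T.b (T.l 207) (T.a (T.l 207) (T.b (T.l 207) (T.l 204)))))) (T.a (T.b (T.l 207) (T.a (T.l 207) (T.b (T.l 204) (T.l 204)))) (T.b (T.b (T.a (T.b (T.l 207) (T.l 204)) (T.l 204)) (T.a (T.l 204) (T.l 204))) (T.a (T.b (T.l 204) (T.l 204)) (T.b (T.l 204) (T.l 204))))))) (T.a (T.a (T.b (T.l 207) (T.a (T.l 207) (T.b (T.l 207) (T.l 204)))) (T.b (T.b (T.l 207) (T.a (T.l 207) (T.l 204))) (T.b (T.a (T.l 204) (T.l 204)) (T.a (T.l 204) (T.l 204))))) (T.b (T.a (T.b (T.a (T.l 460) (T.l 204)) (T.a (T.l 204) (T.l 204))) (T.b (T.a (T.l 204) (T.l 204)) (T.b (T.l 204) (T.l 204)))) (T.a (T.b (T.b (T.l 204) (T.l 204)) (T.b (T.l 204) (T.l 204))) (T.b (T.b (T.l 204) (T.l 204)) (T.l 204)))))))), by decide +kernel⟩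

def B012E_010 :
    ∃ t, chk3 (onCell 0 67108864 0 1073741824 966367641 24778659 (corT true 1 c0B cB012E gB0q0 gB1q2 gB0q1 gB1q1 true false)) t 1 1 1 = true :=
  ⟨(T.b (T.l 1) (T.a (T.b (T.b (T.l 1) (T.a (T.l 0) (T.l 64))) (T.b (T.l 0) (T.l 0))) (T.b (T.b (T.b (T.l 1) (T.a (T.l 1) (T.b (T.l 1) (T.a (T.l 1) (T.b (T.l 1) (T.b (T.l 1) (T.b (T.l 1) (T.a (T.l 880) (T.c (T.l 880) (T.l 816)))))))))) (T.a (T.a (T.b (T.l 816) (T.l 816)) (T.a (T.b (T.l 816) (T.l 816)) (T.b (T.l 880) (T.l 816)))) (T.b (T.a (T.a (T.b (T.l 816) (T.l 816)) (T.b (T.a (T.l 816) (T.b (T.l 816) (T.l 816))) (T.l 816))) (T.b (T.a (T.b (T.c (T.l 880) (T.l 816)) (T.l 880)) (T.b (T.a (T.l 880) (T.l 880)) (T.c (T.l 816) (T.l 816)))) (T.a (T.l 816) (T.b (T.l 816) (T.l 816))))) (T.a (T.b (T.l 816) (T.l 816)) (T.b (T.l 880) (T.l 816)))))) (T.a (T.a (T.b (T.l 0) (T.l 0)) (T.b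 (T.l 0) (T.l 0))) (T.b (T.a (T.b (T.l 816) (T.l 816)) (T.b (T.l 816) (T.l 816))) (T.a (T.l 0) (T.l 816))))))), by decide +kernel⟩

def B012E_100_1_4_1 :
    ∃ t, chk3 (onCell 0 67108864 0 1073741824 966367641 24778659 (corT true 1 c0B cB012E gB1q0 gB0q2 gB0q1 gB1q1 true false)) t 1 4 1 = true :=
  ⟨(T.l 1), by decide +kernel⟩

def B012E_100_1_80_1 :
    ∃ t, chk3 (onCell 0 67108864 0 1073741824 966367641 24778659 (corT true 1 c0B cB012E gB1q0 gB0q2 gB0q1 gB1q1 true false)) t 1 80 1 = true :=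
  ⟨(T.l 1), by decide +kernel⟩

def B012E_100_2_162_1 :
    ∃ t, chk3 (onCell 0 67108864 0 1073741824 966367641 24778659 (corT true 1 c0B cB012E gB1q0 gB0q2 gB0q1 gB1q1 true false)) t 2 162 1 = true :=
  ⟨(T.a (T.l 1) (T.b (T.l 1) (T.b (T.l 1) (T.b (T.a (T.l 1) (T.a (T.l 1) (T.b (T.l 1) (T.b (T.a (T.l 1) (T.c (T.l 236) (T.c (T.l 236) (T.a (T.l 1) (T.l 236))))) (T.a (T.c (T.l 32) (T.c (T.l 236) (T.c (T.l 236) (T.a (T.c (T.l 236) (T.l 748)) (T.l 748))))) (T.c (T.l 236) (T.c (T.l 236) (T.a (T.l 236) (T.l 236))))))))) (T.a (T.c (T.l 0) (T.c (T.l 236) (T.l 748))) (T.b (T.a (T.c (T.l 204) (T.c (T.l 236) (T.l 748))) (T.b (T.a (T.c (T.l 32) (T.c (T.l 236) (T.a (T.c (T.l 236) (T.l 748)) (T.l 748)))) (T.c (T.l 236) (T.c (T.l 236) (T.c (T.l 236) (T.l 236))))) (T.a (T.c (T.l 32) (T.c (T.l 236) (T.a (T.c (T.l 236) (T.l 748)) (T.l 748)))) (T.c (T.l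 236) (T.c (T.l 236) (T.c (T.l 236) (T.l 236))))))) (T.a (T.c (T.l 204) (T.c (T.l 236) (T.l 748))) (T.b (T.a (T.c (T.l 32) (T.c (T.l 236) (T.a (T.l 748) (T.l 748)))) (T.c (T.l 204) (T.c (T.l 236) (T.l 236)))) (T.c (T.c (T.l 0) (T.l 236)) (T.a (T.c (T.l 236) (T.a (T.l 748) (T.l 236))) (T.c (T.l 236) (T.l 236)))))))))))), by decide +kernel⟩

def B012E_100_3_324_1 :
    ∃ t, chk3 (onCell 0 67108864 0 1073741824 966367641 24778659 (corT true 1 c0B cB012E gB1q0 gB0q2 gB0q1 gB1q1 true false)) t 3 324 1 = true :=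
  ⟨(T.a (T.l 1) (T.a (T.l 1) (T.b (T.l 1) (T.b (T.l 1) (T.a (T.b (T.l 1) (T.b (T.l 1) (T.a (T.a (T.l 1) (T.a (T.l 1) (T.c (T.l 236) (T.c (T.l 236) (T.l 236))))) (T.b (T.a (T.l 1) (T.c (T.c (T.l 204) (T.l 236)) (T.c (T.l 236) (T.l 236)))) (T.a (T.c (T.l 236) (T.c (T.l 236) (T.l 236))) (T.c (T.l 236) (T.c (T.l 236) (T.l 236)))))))) (T.b (T.a (T.l 1) (T.b (T.l 1) (T.b (T.a (T.l 1) (T.a (T.l 1) (T.a (T.l 1) (T.c (T.l 236) (T.c (T.l 236) (T.l 236)))))) (T.a (T.a (T.l 1) (T.b (T.l 1) (T.c (T.l 236) (T.c (T.l 236) (T.l 236))))) (T.c (T.c (T.l 204) (T.l 236)) (T.c (T.l 236) (T.l 236))))))) (T.b (T.a (T.b (T.a (T.l 1) (T.b (T.l 1) (T.c (T.c (T.l 204) (T.l 236)) (T.c (T.l 236) (T.l 236))))) (T.a (T.c (T.c (T.l 204) (T.l 236)) (T.c (T.l 236) (T.l 236))) (T.c (T.c (T.l 204) (T.l 236)) (T.c (T.l 236) (T.l 236))))) (T.c (T.c (T.l 0) (T.l 236)) (T.c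 (T.l 236) (T.l 236)))) (T.a (T.c (T.c (T.l 204) (T.l 236)) (T.c (T.l 236) (T.l 236))) (T.c (T.c (T.l 0) (T.l 236)) (T.c (T.l 236) (T.l 236))))))))))), by decide +kernel⟩

def B012E_100_6_650_1 :
    ∃ t, chk3 (onCell 0 67108864 0 1073741824 966367641 24778659 (corT true 1 c0B cB012E gB1q0 gB0q2 gB0q1 gB1q1 true false)) t 6 650 1 = true :=
  ⟨(T.a (T.a (T.l 1) (T.a (T.l 1) (T.b (T.l 1) (T.c (T.l 236) (T.c (T.l 236) (T.a (T.l 236) (T.l 236))))))) (T.b (T.l 1) (T.b (T.a (T.a (T.l 1) (T.c (T.l 236) (T.c (T.l 236) (T.l 236)))) (T.b (T.a (T.l 1) (T.c (T.l 236) (T.c (T.l 236) (T.l 236)))) (T.a (T.c (T.l 236) (T.c (T.l 236) (T.l 236))) (T.c (T.l 236) (T.c (T.l 236) (T.l 236)))))) (T.a (T.b (T.a (T.c (T.l 236) (T.c (T.l 236) (T.l 236))) (T.c (T.l 236) (T.c (T.l 236) (T.l 236)))) (T.a (T.c (T.l 236) (T.c (T.l 236) (T.l 236))) (T.c (T.l 236)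 (T.c (T.l 236) (T.l 236))))) (T.c (T.c (T.l 236) (T.l 236)) (T.c (T.l 236) (T.a (T.l 236) (T.l 236)))))))), by decide +kernel⟩

def B012E_100_6_651_1 :
    ∃ t, chk3 (onCell 0 67108864 0 1073741824 966367641 24778659 (corT true 1 c0B cB012E gB1q0 gB0q2 gB0q1 gB1q1 true false)) t 6 651 1 = true :=
  ⟨(T.a (T.b (T.b (T.a (T.b (T.l 1) (T.a (T.c (T.l 236) (T.c (T.l 236) (T.a (T.l 1) (T.l 236)))) (T.c (T.l 236) (T.c (T.l 236) (T.l 236))))) (T.b (T.a (T.c (T.l 236) (T.c (T.l 236) (T.l 236))) (T.c (T.l 236) (T.c (T.l 236) (T.l 236)))) (T.a (T.c (T.l 236) (T.c (T.l 236) (T.l 236))) (T.c (T.l 236) (T.c (T.l 236) (T.l 236)))))) (T.a (T.b (T.a (T.c (T.l 236) (T.c (T.l 236) (T.c (T.l 236) (T.l 236)))) (T.c (T.l 236) (T.c (T.l 236) (T.l 236)))) (T.a (T.c (T.l 236) (T.c (T.l 236) (T.c (T.l 236) (T.l 236)))) (T.c (T.l 236) (T.c (T.l 236) (T.l 236)))))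 (T.c (T.c (T.l 0) (T.l 236)) (T.a (T.c (T.l 236) (T.l 236)) (T.c (T.l 236) (T.l 236)))))) (T.b (T.a (T.c (T.c (T.l 0) (T.l 236)) (T.a (T.c (T.l 236) (T.l 236)) (T.c (T.l 236) (T.l 236)))) (T.c (T.c (T.l 0) (T.l 236)) (T.a (T.c (T.l 236) (T.l 236)) (T.l 236)))) (T.a (T.c (T.c (T.l 0) (T.l 236)) (T.a (T.c (T.l 236) (T.l 236)) (T.c (T.l 236) (T.l 236)))) (T.c (T.l 32) (T.a (T.l 236) (T.l 236)))))) (T.b (T.b (T.a (T.c (T.c (T.l 204) (T.l 236)) (T.c (T.l 236) (T.a (T.l 236) (T.l 236)))) (T.c (T.c (T.l 204) (T.l 236)) (T.c (T.l 236) (T.l 236)))) (T.a (T.c (T.c (T.l 204) (T.l 236)) (T.a (T.l 236) (T.l 236))) (T.c (T.l 32) (T.c (T.l 236) (T.l 236))))) (T.b (T.a (T.c (T.l 32) (T.c (T.l 236) (T.l 236))) (T.c (T.l 32) (T.c (T.l 236) (T.l 236)))) (T.a (T.c (T.l 32) (T.c (T.l 236) (T.l 236))) (T.c (T.l 32) (T.l 236)))))), by decide +kernel⟩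

def B012E_100_7_650_1 :
    ∃ t, chk3 (onCell 0 67108864 0 1073741824 966367641 24778659 (corT true 1 c0B cB012E gB1q0 gB0q2 gB0q1 gB1q1 true false)) t 7 650 1 = true :=
  ⟨(T.a (T.b (T.b (T.a (T.l 1) (T.b (T.a (T.l 1) (T.a (T.l 1) (T.c (T.l 236) (T.c (T.l 236) (T.l 236))))) (T.a (T.a (T.l 1) (T.c (T.l 236) (T.c (T.l 236) (T.l 236)))) (T.c (T.c (T.l 204) (T.l 236)) (T.c (T.l 236) (T.l 236)))))) (T.a (T.b (T.a (T.l 1) (T.c (T.l 236) (T.c (T.l 236) (T.l 236)))) (T.a (T.c (T.l 236) (T.c (T.l 236) (T.l 236))) (T.c (T.l 236) (T.c (T.l 236) (T.l 236))))) (T.b (T.a (T.c (T.l 236) (T.c (T.l 236) (T.l 236))) (T.c (T.l 236) (T.c (T.l 236) (T.l 236)))) (T.c (T.c (T.l 32) (T.l 236)) (T.c (T.a (T.l 236) (T.l 236)) (T.a (T.l 236) (T.l 236))))))) (T.b (T.a (T.c (T.c (T.l 236) (T.l 236)) (T.a (T.c (T.l 236) (T.l 236)) (T.c (T.l 236) (T.l 236))))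 (T.c (T.c (T.l 32) (T.l 236)) (T.c (T.l 236) (T.l 236)))) (T.a (T.c (T.c (T.l 204) (T.l 236)) (T.c (T.l 236) (T.l 236))) (T.c (T.c (T.l 0) (T.l 236)) (T.c (T.l 236) (T.l 236)))))) (T.b (T.a (T.b (T.b (T.a (T.c (T.c (T.l 204) (T.l 236)) (T.c (T.l 236) (T.l 236))) (T.c (T.c (T.l 204) (T.l 236)) (T.c (T.l 236) (T.l 236)))) (T.a (T.c (T.c (T.l 204) (T.l 236)) (T.c (T.l 236) (T.l 236))) (T.c (T.l 236) (T.c (T.l 236) (T.l 236))))) (T.c (T.c (T.l 32) (T.l 236)) (T.c (T.a (T.l 236) (T.l 236)) (T.a (T.l 236) (T.l 236))))) (T.c (T.a (T.c (T.l 204) (T.l 236)) (T.l 32)) (T.c (T.a (T.l 236) (T.l 236)) (T.a (T.l 236) (T.l 236))))) (T.a (T.c (T.c (T.l 0) (T.l 236)) (T.c (T.l 236) (T.l 236))) (T.c (T.c (T.l 0) (T.l 236)) (T.c (T.l 236) (T.l 236)))))), by decide +kernel⟩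

def B012E_100_7_651_1 :
    ∃ t, chk3 (onCell 0 67108864 0 1073741824 966367641 24778659 (corT true 1 c0B cB012E gB1q0 gB0q2 gB0q1 gB1q1 true false)) t 7 651 1 = true :=
  ⟨(T.a (T.a (T.c (T.c (T.l 204) (T.l 236)) (T.c (T.l 236) (T.l 236))) (T.c (T.l 32) (T.c (T.l 236) (T.l 236)))) (T.a (T.c (T.l 32) (T.l 236)) (T.c (T.l 32) (T.l 236)))), by decide +kernel⟩

def B012E_100_2_163_1 :
    ∃ t, chk3 (onCell 0 67108864 0 1073741824 966367641 24778659 (corT true 1 c0B cB012E gB1q0 gB0q2 gB0q1 gB1q1 true false)) t 2 163 1 = true :=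
  ⟨(T.b (T.a (T.c (T.l 0) (T.c (T.l 204) (T.a (T.c (T.l 204) (T.a (T.c (T.l 204) (T.l 716)) (T.l 716))) (T.l 748)))) (T.b (T.b (T.a (T.c (T.l 0) (T.c (T.l 204) (T.l 748))) (T.b (T.a (T.c (T.l 204) (T.c (T.l 236) (T.l 748))) (T.c (T.c (T.l 0) (T.l 236)) (T.a (T.c (T.l 236) (T.c (T.l 236) (T.l 748))) (T.c (T.l 236) (T.l 236))))) (T.a (T.c (T.l 204) (T.c (T.l 236) (T.l 748))) (T.c (T.c (T.l 0) (T.l 236)) (T.a (T.c (T.l 236) (T.l 748)) (T.c (T.l 236) (T.l 236))))))) (T.a (T.c (T.l 0) (T.l 748)) (T.b (T.a (T.c (T.l 204) (T.l 748)) (T.c (T.c (T.l 0) (T.l 236)) (T.a (T.c (T.l 236) (T.l 748)) (T.c (T.l 236) (T.l 236))))) (T.a (T.c (T.l 204) (T.l 748)) (T.c (T.l 32) (T.a (T.c (T.l 236) (T.l 748)) (T.l 236))))))) (T.a (T.c (T.l 0) (T.l 748)) (T.a (T.c (T.l 204) (T.l 748)) (T.c (T.l 32) (T.a (T.c (T.l 236) (T.l 748)) (T.l 236))))))) (T.a (T.c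 (T.l 0) (T.c (T.l 204) (T.l 716))) (T.a (T.c (T.l 0) (T.l 748)) (T.a (T.c (T.l 204) (T.l 748)) (T.c (T.l 32) (T.a (T.l 748) (T.l 236))))))), by decide +kernel⟩

def B012E_100_3_163_1 :
    ∃ t, chk3 (onCell 0 67108864 0 1073741824 966367641 24778659 (corT true 1 c0B cB012E gB1q0 gB0q2 gB0q1 gB1q1 true false)) t 3 163 1 = true :=
  ⟨(T.b (T.a (T.b (T.a (T.b (T.b (T.a (T.c (T.l 32) (T.a (T.c (T.l 236) (T.l 236)) (T.l 236))) (T.c (T.l 32) (T.c (T.l 236) (T.l 236)))) (T.a (T.c (T.l 32) (T.a (T.l 236) (T.l 236))) (T.c (T.l 32) (T.c (T.l 236) (T.l 236))))) (T.b (T.a (T.c (T.l 32) (T.a (T.l 236) (T.l 236))) (T.c (T.l 32) (T.c (T.l 236) (T.l 236)))) (T.a (T.c (T.l 32) (T.c (T.l 236) (T.l 236))) (T.c (T.l 32) (T.l 236))))) (T.a (T.c (T.l 32) (T.c (T.l 236) (T.l 236))) (T.c (T.l 32) (T.l 236)))) (T.b (T.a (T.a (T.c (T.l 32) (T.c (T.l 236) (T.l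 236))) (T.c (T.l 0) (T.l 236))) (T.a (T.c (T.l 0) (T.l 236)) (T.c (T.l 0) (T.l 236)))) (T.a (T.a (T.c (T.l 0) (T.c (T.l 236) (T.l 236))) (T.c (T.l 0) (T.l 236))) (T.a (T.c (T.l 0) (T.l 236)) (T.c (T.l 0) (T.l 236)))))) (T.a (T.a (T.c (T.l 32) (T.l 236)) (T.c (T.l 0) (T.l 236))) (T.a (T.c (T.l 0) (T.l 236)) (T.c (T.l 0) (T.l 204))))) (T.a (T.a (T.a (T.c (T.l 0) (T.l 236)) (T.c (T.l 0) (T.l 236))) (T.a (T.c (T.l 0) (T.l 236)) (T.c (T.l 0) (T.l 204)))) (T.a (T.c (T.l 32) (T.l 32)) (T.c (T.l 0) (T.l 32))))), by decide +kernel⟩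

def B012E_100_1_41_1 :
    ∃ t, chk3 (onCell 0 67108864 0 1073741824 966367641 24778659 (corT true 1 c0B cB012E gB1q0 gB0q2 gB0q1 gB1q1 true false)) t 1 41 1 = true :=
  ⟨(T.b (T.b (T.a (T.a (T.c (T.l 0) (T.a (T.l 204) (T.l 204))) (T.a (T.c (T.l 0) (T.l 204)) (T.a (T.l 748) (T.c (T.l 0) (T.l 748))))) (T.a (T.a (T.a (T.c (T.l 0) (T.l 236)) (T.c (T.l 0) (T.l 204))) (T.c (T.l 32) (T.l 236))) (T.a (T.c (T.l 0) (T.l 0)) (T.l 32)))) (T.a (T.a (T.c (T.l 0) (T.l 204)) (T.a (T.l 512) (T.a (T.l 716) (T.c (T.l 0) (T.l 716))))) (T.a (T.a (T.c (T.l 0) (T.l 748)) (T.l 32)) (T.a (T.l 0) (T.l 0))))) (T.b (T.a (T.a (T.a (T.l 0) (T.l 0)) (T.a (T.l 0) (T.a (T.l 204) (T.l 512)))) (T.a (T.a (T.c (T.l 0) (T.l 204)) (T.l 0)) (T.a (T.l 0) (T.l 0)))) (T.a (T.a (T.l 0) (T.a (T.l 0) (T.a (T.l 204) (T.l 512)))) (T.a (T.a (T.l 512) (T.l 0)) (T.a (T.l 0) (T.l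 0)))))), by decide +kernel⟩

def B012E_100_1_21_1 :
    ∃ t, chk3 (onCell 0 67108864 0 1073741824 966367641 24778659 (corT true 1 c0B cB012E gB1q0 gB0q2 gB0q1 gB1q1 true false)) t 1 21 1 = true :=
  ⟨(T.b (T.b (T.b (T.a (T.a (T.l 0) (T.a (T.l 0) (T.a (T.l 204) (T.l 0)))) (T.a (T.a (T.l 0) (T.l 0)) (T.l 0))) (T.a (T.a (T.l 0) (T.a (T.l 0) (T.c (T.l 0) (T.l 716)))) (T.a (T.a (T.l 0) (T.l 0)) (T.l 0)))) (T.b (T.a (T.a (T.l 0) (T.a (T.l 0) (T.c (T.l 0) (T.l 716)))) (T.a (T.a (T.l 0) (T.l 0)) (T.l 0))) (T.a (T.a (T.l 0) (T.a (T.l 0) (T.c (T.l 0) (T.l 204)))) (T.a (T.a (T.l 0) (T.l 0)) (T.l 0))))) (T.b (T.b (T.a (T.a (T.l 0) (T.a (T.l 0) (T.l 512))) (T.a (T.a (T.l 0) (T.l 0)) (T.l 0))) (T.a (T.a (T.l 0) (T.a (T.l 0) (T.l 0))) (T.a (T.a (T.l 0) (T.l 0)) (T.l 0)))) (T.b (T.a (T.a (T.l 0) (T.a (T.l 0) (T.l 0))) (T.a (T.a (T.l 0) (T.l 0)) (T.l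 0))) (T.b (T.a (T.a (T.l 0) (T.a (T.l 0) (T.l 0))) (T.a (T.a (T.l 0) (T.l 0)) (T.l 0))) (T.a (T.a (T.l 0) (T.a (T.l 0) (T.l 0))) (T.a (T.a (T.l 0) (T.l 0)) (T.l 0))))))), by decide +kernel⟩

def B012E_100_1_11_1 :
    ∃ t, chk3 (onCell 0 67108864 0 1073741824 966367641 24778659 (corT true 1 c0B cB012E gB1q0 gB0q2 gB0q1 gB1q1 true false)) t 1 11 1 = true :=
  ⟨(T.b (T.b (T.b (T.b (T.b (T.a (T.a (T.l 0) (T.a (T.l 0) (T.l 0))) (T.a (T.l 0) (T.l 0))) (T.a (T.a (T.l 0) (T.a (T.l 0) (T.l 0))) (T.a (T.l 0) (T.l 0)))) (T.b (T.a (T.a (T.l 0) (T.a (T.l 0) (T.l 0))) (T.a (T.l 0) (T.l 0))) (T.a (T.a (T.l 0) (T.a (T.l 0) (T.l 0))) (T.a (T.l 0) (T.l 0))))) (T.b (T.a (T.a (T.l 0) (T.a (T.l 0) (T.l 0))) (T.a (T.l 0) (T.l 0))) (T.a (T.a (T.l 0) (T.a (T.l 0) (T.l 0))) (T.a (T.l 0) (T.l 0))))) (T.b (T.a (T.a (T.l 0) (T.a (T.l 0) (T.l 0))) (T.a (T.a (T.l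 0) (T.l 0)) (T.l 0))) (T.a (T.a (T.l 0) (T.a (T.l 204) (T.l 0))) (T.a (T.l 0) (T.l 0))))) (T.b (T.a (T.a (T.l 0) (T.a (T.l 204) (T.l 0))) (T.a (T.a (T.l 0) (T.l 0)) (T.l 0))) (T.a (T.a (T.l 0) (T.a (T.l 204) (T.l 0))) (T.a (T.a (T.l 0) (T.l 0)) (T.l 0))))), by decide +kernel⟩

def B012E_100_1_3_1 :
    ∃ t, chk3 (onCell 0 67108864 0 1073741824 966367641 24778659 (corT true 1 c0B cB012E gB1q0 gB0q2 gB0q1 gB1q1 true false)) t 1 3 1 = true :=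
  ⟨(T.b (T.b (T.b (T.a (T.a (T.l 0) (T.a (T.l 204) (T.l 0))) (T.a (T.b (T.l 0) (T.l 0)) (T.l 0))) (T.a (T.a (T.l 0) (T.a (T.l 204) (T.l 0))) (T.a (T.b (T.l 0) (T.l 0)) (T.l 0)))) (T.b (T.a (T.a (T.l 0) (T.a (T.l 204) (T.l 0))) (T.a (T.b (T.l 0) (T.l 0)) (T.l 0))) (T.a (T.a (T.l 204) (T.a (T.l 204) (T.l 0))) (T.a (T.l 0) (T.l 0))))) (T.b (T.a (T.a (T.l 204) (T.a (T.l 204) (T.l 256))) (T.a (T.a (T.l 0) (T.l 0)) (T.b (T.l 0) (T.l 0)))) (T.a (T.a (T.l 204) (T.a (T.b (T.l 204) (T.l 0)) (T.l 0))) (T.a (T.a (T.l 0) (T.l 0)) (T.b (T.l 0) (T.l 0)))))), by decide +kernel⟩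

theorem B012E_100_1_163_1 :
    ∃ t, chk3 (onCell 0 67108864 0 1073741824 966367641 24778659 (corT true 1 c0B cB012E gB1q0 gB0q2 gB0q1 gB1q1 true false)) t 1 163 1 = true :=
  ex3_a B012E_100_2_163_1 B012E_100_3_163_1
theorem B012E_100_7_325_1 :
    ∃ t, chk3 (onCell 0 67108864 0 1073741824 966367641 24778659 (corT true 1 c0B cB012E gB1q0 gB0q2 gB0q1 gB1q1 true false)) t 7 325 1 = true :=
  ex3_b B012E_100_7_650_1 B012E_100_7_651_1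
theorem B012E_100_6_325_1 :
    ∃ t, chk3 (onCell 0 67108864 0 1073741824 966367641 24778659 (corT true 1 c0B cB012E gB1q0 gB0q2 gB0q1 gB1q1 true false)) t 6 325 1 = true :=
  ex3_b B012E_100_6_650_1 B012E_100_6_651_1
theorem B012E_100_3_325_1 :
    ∃ t, chk3 (onCell 0 67108864 0 1073741824 966367641 24778659 (corT true 1 c0B cB012E gB1q0 gB0q2 gB0q1 gB1q1 true false)) t 3 325 1 = true :=
  ex3_a B012E_100_6_325_1 B012E_100_7_325_1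
theorem B012E_100_3_162_1 :
    ∃ t, chk3 (onCell 0 67108864 0 1073741824 966367641 24778659 (corT true 1 c0B cB012E gB1q0 gB0q2 gB0q1 gB1q1 true false)) t 3 162 1 = true :=
  ex3_b B012E_100_3_324_1 B012E_100_3_325_1
theorem B012E_100_1_162_1 :
    ∃ t, chk3 (onCell 0 67108864 0 1073741824 966367641 24778659 (corT true 1 c0B cB012E gB1q0 gB0q2 gB0q1 gB1q1 true false)) t 1 162 1 = true :=
  ex3_a B012E_100_2_162_1 B012E_100_3_162_1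
theorem B012E_100_1_81_1 :
    ∃ t, chk3 (onCell 0 67108864 0 1073741824 966367641 24778659 (corT true 1 c0B cB012E gB1q0 gB0q2 gB0q1 gB1q1 true false)) t 1 81 1 = true :=
  ex3_b B012E_100_1_162_1 B012E_100_1_163_1
theorem B012E_100_1_40_1 :
    ∃ t, chk3 (onCell 0 67108864 0 1073741824 966367641 24778659 (corT true 1 c0B cB012E gB1q0 gB0q2 gB0q1 gB1q1 true false)) t 1 40 1 = true :=
  ex3_b B012E_100_1_80_1 B012E_100_1_81_1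
theorem B012E_100_1_20_1 :
    ∃ t, chk3 (onCell 0 67108864 0 1073741824 966367641 24778659 (corT true 1 c0B cB012E gB1q0 gB0q2 gB0q1 gB1q1 true false)) t 1 20 1 = true :=
  ex3_b B012E_100_1_40_1 B012E_100_1_41_1
theorem B012E_100_1_10_1 :
    ∃ t, chk3 (onCell 0 67108864 0 1073741824 966367641 24778659 (corT true 1 c0B cB012E gB1q0 gB0q2 gB0q1 gB1q1 true false)) t 1 10 1 = true :=
  ex3_b B012E_100_1_20_1 B012E_100_1_21_1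
theorem B012E_100_1_5_1 :
    ∃ t, chk3 (onCell 0 67108864 0 1073741824 966367641 24778659 (corT true 1 c0B cB012E gB1q0 gB0q2 gB0q1 gB1q1 true false)) t 1 5 1 = true :=
  ex3_b B012E_100_1_10_1 B012E_100_1_11_1
theorem B012E_100_1_2_1 :
    ∃ t, chk3 (onCell 0 67108864 0 1073741824 966367641 24778659 (corT true 1 c0B cB012E gB1q0 gB0q2 gB0q1 gB1q1 true false)) t 1 2 1 = true :=
  ex3_b B012E_100_1_4_1 B012E_100_1_5_1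
theorem B012E_100 :
    ∃ t, chk3 (onCell 0 67108864 0 1073741824 966367641 24778659 (corT true 1 c0B cB012E gB1q0 gB0q2 gB0q1 gB1q1 true false)) t 1 1 1 = true :=
  ex3_b B012E_100_1_2_1 B012E_100_1_3_1

def B012E_110_1_4_1 :
    ∃ t, chk3 (onCell 0 67108864 0 1073741824 966367641 24778659 (corT true 1 c0B cB012E gB1q0 gB1q2 gB0q1 gB1q1 true false)) t 1 4 1 = true :=
  ⟨(T.l 1), by decide +kernel⟩

def B012E_110_1_10_1 :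
    ∃ t, chk3 (onCell 0 67108864 0 1073741824 966367641 24778659 (corT true 1 c0B cB012E gB1q0 gB1q2 gB0q1 gB1q1 true false)) t 1 10 1 = true :=
  ⟨(T.b (T.l 1) (T.b (T.l 1) (T.b (T.b (T.l 1) (T.b (T.a (T.a (T.l 0) (T.a (T.l 0) (T.l 0))) (T.a (T.a (T.l 0) (T.l 0)) (T.l 0))) (T.a (T.a (T.l 0) (T.a (T.l 0) (T.l 0))) (T.a (T.a (T.l 0) (T.l 0)) (T.l 0))))) (T.b (T.b (T.a (T.a (T.l 0) (T.a (T.l 0) (T.l 0))) (T.a (T.a (T.l 0) (T.l 0)) (T.l 0))) (T.a (T.a (T.l 0) (T.a (T.l 0) (T.l 0))) (T.a (T.a (T.l 0) (T.l 0)) (T.l 0)))) (T.b (T.a (T.a (T.l 0) (T.a (T.l 0) (T.l 0))) (T.a (T.l 0) (T.l 0))) (T.a (T.a (T.l 0) (T.a (T.l 0) (T.l 0))) (T.a (T.l 0) (T.l 0)))))))), by decide +kernel⟩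

def B012E_110_1_11_1 :
    ∃ t, chk3 (onCell 0 67108864 0 1073741824 966367641 24778659 (corT true 1 c0B cB012E gB1q0 gB1q2 gB0q1 gB1q1 true false)) t 1 11 1 = true :=
  ⟨(T.b (T.b (T.b (T.b (T.b (T.a (T.a (T.l 0) (T.a (T.l 0) (T.l 0))) (T.a (T.l 0) (T.l 0))) (T.a (T.a (T.l 0) (T.a (T.l 0) (T.l 0))) (T.a (T.l 0) (T.l 0)))) (T.b (T.a (T.a (T.l 0) (T.a (T.l 0) (T.l 0))) (T.a (T.l 0) (T.l 0))) (T.a (T.a (T.l 0) (T.a (T.l 0) (T.l 0))) (T.a (T.l 0) (T.l 0))))) (T.b (T.b (T.a (T.a (T.l 0) (T.a (T.l 0) (T.l 0))) (T.a (T.l 0) (T.l 0))) (T.a (T.a (T.l 0) (T.a (T.l 0) (T.l 0))) (T.a (T.l 0) (T.l 0)))) (T.b (T.a (T.a (T.l 0) (T.a (T.l 0) (T.l 0))) (T.a (T.l 0) (T.l 0))) (T.a (T.a (T.l 0) (T.a (T.l 0) (T.l 0))) (T.a (T.l 0) (T.l 0)))))) (T.b (T.b (T.b (T.a (T.a (T.l 0) (T.a (T.l 0) (T.l 0))) (T.a (T.l 0) (T.l 0))) (T.a (T.a (T.l 0) (T.a (T.l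 0) (T.l 0))) (T.a (T.l 0) (T.l 0)))) (T.b (T.a (T.a (T.l 0) (T.a (T.l 0) (T.l 0))) (T.a (T.l 0) (T.l 0))) (T.a (T.a (T.l 0) (T.a (T.l 0) (T.l 0))) (T.a (T.l 0) (T.l 0))))) (T.a (T.a (T.l 0) (T.a (T.l 0) (T.l 0))) (T.a (T.l 0) (T.l 0))))) (T.b (T.a (T.a (T.l 0) (T.a (T.l 0) (T.l 0))) (T.a (T.l 0) (T.l 0))) (T.a (T.a (T.l 0) (T.a (T.l 0) (T.l 0))) (T.a (T.l 0) (T.l 0))))), by decide +kernel⟩

def B012E_110_1_3_1 :
    ∃ t, chk3 (onCell 0 67108864 0 1073741824 966367641 24778659 (corT true 1 c0B cB012E gB1q0 gB1q2 gB0q1 gB1q1 true false)) t 1 3 1 = true :=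
  ⟨(T.b (T.b (T.b (T.a (T.a (T.l 0) (T.a (T.l 0) (T.l 0))) (T.a (T.l 0) (T.l 0))) (T.a (T.a (T.l 0) (T.b (T.l 0) (T.l 0))) (T.a (T.l 0) (T.l 0)))) (T.a (T.a (T.l 0) (T.b (T.l 0) (T.l 0))) (T.a (T.l 0) (T.l 0)))) (T.a (T.a (T.l 0) (T.b (T.l 0) (T.l 0))) (T.a (T.l 0) (T.l 0)))), by decide +kernel⟩

theorem B012E_110_1_5_1 :
    ∃ t, chk3 (onCell 0 67108864 0 1073741824 966367641 24778659 (corT true 1 c0B cB012E gB1q0 gB1q2 gB0q1 gB1q1 true false)) t 1 5 1 = true :=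
  ex3_b B012E_110_1_10_1 B012E_110_1_11_1
theorem B012E_110_1_2_1 :
    ∃ t, chk3 (onCell 0 67108864 0 1073741824 966367641 24778659 (corT true 1 c0B cB012E gB1q0 gB1q2 gB0q1 gB1q1 true false)) t 1 2 1 = true :=
  ex3_b B012E_110_1_4_1 B012E_110_1_5_1
theorem B012E_110 :
    ∃ t, chk3 (onCell 0 67108864 0 1073741824 966367641 24778659 (corT true 1 c0B cB012E gB1q0 gB1q2 gB0q1 gB1q1 true false)) t 1 1 1 = true :=
  ex3_b B012E_110_1_2_1 B012E_110_1_3_1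

def B012L_040 :
    ∃ t, chk3 (onCell 0 67108864 0 1073741824 966367641 24778659 (corT true 1 c0B cB012L gB0q0 gB4q2 gB0q1 gB1q1 true false)) t 1 1 1 = true :=
  ⟨(T.l 1), by decide +kernel⟩

def B012L_140 :
    ∃ t, chk3 (onCell 0 67108864 0 1073741824 966367641 24778659 (corT true 1 c0B cB012L gB1q0 gB4q2 gB0q1 gB1q1 true false)) t 1 1 1 = true :=
  ⟨(T.l 1), by decide +kernel⟩

def B012R_001 :
    ∃ t, chk3 (onCell 0 67108864 0 1073741824 966367641 24778659 (corT true 1 c0B cB012R gB0q0 gB0q2 gB1q1 gB2q1 false true)) t 1 1 1 = true :=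
  ⟨(T.b (T.a (T.b (T.l 0) (T.l 816)) (T.b (T.a (T.l 0) (T.l 0)) (T.b (T.a (T.l 816) (T.b (T.l 816) (T.l 816))) (T.a (T.a (T.l 816) (T.b (T.l 816) (T.l 816))) (T.b (T.l 816) (T.l 816)))))) (T.b (T.b (T.b (T.a (T.l 816) (T.a (T.a (T.l 816) (T.l 816)) (T.l 820))) (T.a (T.a (T.l 816) (T.a (T.l 816) (T.l 816))) (T.a (T.a (T.l 816) (T.l 816)) (T.b (T.l 816) (T.l 816))))) (T.b (T.a (T.a (T.l 816) (T.a (T.l 816) (T.l 816))) (T.a (T.a (T.l 816) (T.l 816)) (T.a (T.l 816) (T.l 816)))) (T.a (T.a (T.l 816) (T.a (T.l 816) (T.b (T.l 816) (T.l 816)))) (T.a (T.a (T.l 816) (T.l 816)) (T.a (T.l 816) (T.l 816)))))) (T.b (T.b (T.a (T.a (T.l 816) (T.a (T.l 816) (T.a (T.l 816) (T.l 816)))) (T.a (T.a (T.b (T.l 816) (T.l 816)) (T.b (T.l 816) (T.l 816))) (T.a (T.l 816) (T.l 820)))) (T.a (T.a (T.l 816) (T.a (T.a (T.l 816) (T.l 816)) (T.a (T.l 816) (T.l 816))))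 (T.a (T.a (T.b (T.l 816) (T.l 816)) (T.b (T.l 816) (T.l 816))) (T.a (T.b (T.l 816) (T.l 816)) (T.b (T.l 816) (T.l 816)))))) (T.a (T.a (T.a (T.l 816) (T.l 816)) (T.a (T.a (T.a (T.l 816) (T.b (T.l 816) (T.l 816))) (T.b (T.l 816) (T.a (T.l 816) (T.l 816)))) (T.a (T.b (T.l 816) (T.b (T.l 816) (T.l 816))) (T.b (T.l 816) (T.b (T.l 816) (T.l 816)))))) (T.a (T.a (T.a (T.b (T.l 816) (T.l 816)) (T.b (T.l 816) (T.l 816))) (T.a (T.b (T.l 816) (T.l 816)) (T.b (T.l 816) (T.l 816)))) (T.a (T.b (T.a (T.l 816) (T.l 816)) (T.a (T.b (T.l 816) (T.l 816)) (T.b (T.l 816) (T.l 816)))) (T.b (T.a (T.l 816) (T.l 816)) (T.a (T.b (T.l 816) (T.l 816)) (T.b (T.l 816) (T.l 816)))))))))), by decide +kernel⟩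

def B012R_002 :
    ∃ t, chk3 (onCell 0 67108864 0 1073741824 966367641 24778659 (corT true 1 c0B cB012R gB0q0 gB0q2 gB2q1 gB3q1 true true)) t 1 1 1 = true :=
  ⟨(T.b (T.b (T.l 1) (T.l 1)) (T.l 1)), by decide +kernel⟩

def B012R_003 :
    ∃ t, chk3 (onCell 0 67108864 0 1073741824 966367641 24778659 (corT true 1 c0B cB012R gB0q0 gB0q2 gB3q1 gB4q1 true true)) t 1 1 1 = true :=
  ⟨(T.b (T.l 1) (T.l 1)), by decide +kernel⟩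

def B012R_011 :
    ∃ t, chk3 (onCell 0 67108864 0 1073741824 966367641 24778659 (corT true 1 c0B cB012R gB0q0 gB1q2 gB1q1 gB2q1 false true)) t 1 1 1 = true :=
  ⟨(T.a (T.l 0) (T.a (T.l 64) (T.b (T.l 0) (T.b (T.l 816) (T.l 816))))), by decide +kernel⟩

def B012R_012 :
    ∃ t, chk3 (onCell 0 67108864 0 1073741824 966367641 24778659 (corT true 1 c0B cB012R gB0q0 gB1q2 gB2q1 gB3q1 true true)) t 1 1 1 = true :=
  ⟨(T.b (T.l 1) (T.l 1)), by decide +kernel⟩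

def B012R_013 :
    ∃ t, chk3 (onCell 0 67108864 0 1073741824 966367641 24778659 (corT true 1 c0B cB012R gB0q0 gB1q2 gB3q1 gB4q1 true true)) t 1 1 1 = true :=
  ⟨(T.l 1), by decide +kernel⟩

def B012R_101 :
    ∃ t, chk3 (onCell 0 67108864 0 1073741824 966367641 24778659 (corT true 1 c0B cB012R gB1q0 gB0q2 gB1q1 gB2q1 false true)) t 1 1 1 = true :=
  ⟨(T.b (T.b (T.l 2) (T.b (T.a (T.l 2) (T.a (T.l 2) (T.l 816))) (T.b (T.a (T.a (T.l 816) (T.l 0)) (T.a (T.l 816) (T.l 816))) (T.a (T.a (T.l 816) (T.l 0)) (T.a (T.l 816) (T.l 816)))))) (T.b (T.b (T.b (T.a (T.a (T.l 816) (T.l 816)) (T.a (T.l 816) (T.l 816))) (T.a (T.a (T.l 816) (T.l 816)) (T.a (T.l 816) (T.l 816)))) (T.b (T.a (T.a (T.l 816) (T.l 816)) (T.a (T.l 816) (T.l 816))) (T.a (T.a (T.l 816) (T.l 0)) (T.a (T.l 816) (T.l 816))))) (T.b (T.a (T.a (T.l 816) (T.a (T.l 816) (T.l 816))) (T.a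 (T.l 816) (T.l 816))) (T.a (T.a (T.l 816) (T.a (T.l 816) (T.l 816))) (T.a (T.l 816) (T.l 816)))))), by decide +kernel⟩

def B012R_102 :
    ∃ t, chk3 (onCell 0 67108864 0 1073741824 966367641 24778659 (corT true 1 c0B cB012R gB1q0 gB0q2 gB2q1 gB3q1 true true)) t 1 1 1 = true :=
  ⟨(T.b (T.b (T.a (T.l 2) (T.l 0)) (T.b (T.b (T.a (T.a (T.l 816) (T.l 0)) (T.l 816)) (T.a (T.a (T.l 816) (T.l 0)) (T.a (T.l 816) (T.l 816)))) (T.b (T.a (T.a (T.l 816) (T.l 0)) (T.a (T.l 816) (T.l 816))) (T.a (T.l 1) (T.l 1))))) (T.b (T.l 1) (T.l 1))), by decide +kernel⟩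

def B012R_103 :
    ∃ t, chk3 (onCell 0 67108864 0 1073741824 966367641 24778659 (corT true 1 c0B cB012R gB1q0 gB0q2 gB3q1 gB4q1 true true)) t 1 1 1 = true :=
  ⟨(T.b (T.b (T.b (T.a (T.l 2) (T.b (T.l 2) (T.l 0))) (T.a (T.a (T.l 0) (T.l 0)) (T.l 0))) (T.b (T.b (T.a (T.a (T.l 816) (T.l 0)) (T.l 816)) (T.a (T.a (T.l 816) (T.l 1)) (T.l 1))) (T.l 1))) (T.l 1)), by decide +kernel⟩

def B012R_111 :
    ∃ t, chk3 (onCell 0 67108864 0 1073741824 966367641 24778659 (corT true 1 c0B cB012R gB1q0 gB1q2 gB1q1 gB2q1 false true)) t 1 1 1 = true :=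
  ⟨(T.b (T.l 2) (T.b (T.a (T.a (T.l 2) (T.l 816)) (T.l 816)) (T.a (T.a (T.l 816) (T.l 816)) (T.b (T.l 816) (T.l 816))))), by decide +kernel⟩

def B012R_112 :
    ∃ t, chk3 (onCell 0 67108864 0 1073741824 966367641 24778659 (corT true 1 c0B cB012R gB1q0 gB1q2 gB2q1 gB3q1 true true)) t 1 1 1 = true :=
  ⟨(T.b (T.a (T.l 2) (T.l 0)) (T.b (T.a (T.a (T.l 816) (T.l 816)) (T.l 816)) (T.a (T.a (T.l 816) (T.l 816)) (T.l 1)))), by decide +kernel⟩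

def B012R_113 :
    ∃ t, chk3 (onCell 0 67108864 0 1073741824 966367641 24778659 (corT true 1 c0B cB012R gB1q0 gB1q2 gB3q1 gB4q1 true true)) t 1 1 1 = true :=
  ⟨(T.b (T.b (T.l 2) (T.a (T.a (T.l 816) (T.l 0)) (T.l 0))) (T.b (T.a (T.a (T.l 816) (T.l 816)) (T.l 816)) (T.a (T.l 1) (T.l 1)))), by decide +kernel⟩

def B022E_000 :
    ∃ t, chk3 (onCell 0 53687091 0 1073741824 966367641 24778659 (corT true 1 c0B cB022E gB0q0 gB0q2 gB0q2 gB1q2 true true)) t 1 1 1 = true :=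
  ⟨(T.l 2), by decide +kernel⟩

def B022E_001 :
    ∃ t, chk3 (onCell 0 53687091 0 1073741824 966367641 24778659 (corT true 1 c0B cB022E gB0q0 gB0q2 gB1q2 gB2q2 true false)) t 1 1 1 = true :=
  ⟨(T.b (T.a (T.a (T.b (T.b (T.l 204) (T.l 204)) (T.b (T.l 204) (T.l 204))) (T.a (T.b (T.l 204) (T.l 204)) (T.b (T.b (T.l 204) (T.l 204)) (T.l 204)))) (T.a (T.a (T.b (T.b (T.l 204) (T.l 204)) (T.l 204)) (T.b (T.c (T.l 204) (T.l 204)) (T.l 204))) (T.b (T.a (T.b (T.l 204) (T.l 204)) (T.c (T.l 204) (T.l 220))) (T.a (T.l 204) (T.l 204))))) (T.b (T.a (T.a (T.a (T.b (T.l 204) (T.l 204)) (T.l 204)) (T.a (T.l 204) (T.b (T.l 204) (T.l 204)))) (T.a (T.a (T.l 204) (T.l 204)) (T.b (T.l 204) (T.l 204)))) (T.a (T.a (T.c (T.c (T.b (T.l 204) (T.b (T.l 204) (T.l 204))) (T.l 204)) (T.l 204)) (T.a (T.b (T.l 204) (T.l 204)) (T.a (T.b (T.l 204) (T.l 204)) (T.l 204))))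 (T.a (T.a (T.b (T.l 204) (T.l 204)) (T.b (T.l 204) (T.l 204))) (T.a (T.b (T.l 204) (T.l 204)) (T.b (T.l 204) (T.l 204))))))), by decide +kernel⟩

def B022E_010 :
    ∃ t, chk3 (onCell 0 67108864 0 1073741824 966367641 24778659 (corT true 1 c0B cB022E gB0q0 gB1q2 gB0q2 gB1q2 true true)) t 1 1 1 = true :=
  ⟨(T.l 2), by decide +kernel⟩

def B022E_011 :
    ∃ t, chk3 (onCell 0 67108864 0 1073741824 966367641 24778659 (corT true 1 c0B cB022E gB0q0 gB1q2 gB1q2 gB2q2 true false)) t 1 1 1 = true :=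
  ⟨(T.a (T.b (T.b (T.a (T.l 204) (T.l 204)) (T.l 204)) (T.b (T.l 0) (T.l 0))) (T.b (T.b (T.a (T.l 204) (T.b (T.b (T.l 204) (T.l 204)) (T.l 204))) (T.b (T.l 220) (T.l 204))) (T.b (T.a (T.l 0) (T.b (T.l 204) (T.l 0))) (T.a (T.a (T.l 0) (T.b (T.l 0) (T.l 0))) (T.b (T.l 0) (T.b (T.l 0) (T.l 0))))))), by decide +kernel⟩

def B022E_100 :
    ∃ t, chk3 (onCell 0 44739242 0 1073741824 966367641 24778659 (corT true 1 c0B cB022E gB1q0 gB0q2 gB0q2 gB1q2 true true)) t 1 1 1 = true :=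
  ⟨(T.l 2), by decide +kernel⟩

def B022E_101 :
    ∃ t, chk3 (onCell 0 44739242 0 1073741824 966367641 24778659 (corT true 1 c0B cB022E gB1q0 gB0q2 gB1q2 gB2q2 true false)) t 1 1 1 = true :=
  ⟨(T.b (T.a (T.a (T.b (T.l 204) (T.l 204)) (T.a (T.l 204) (T.b (T.l 204) (T.l 204)))) (T.a (T.b (T.a (T.l 204) (T.b (T.l 204) (T.l 204))) (T.l 204)) (T.b (T.b (T.a (T.l 204) (T.l 204)) (T.l 204)) (T.l 204)))) (T.b (T.a (T.a (T.l 204) (T.l 204)) (T.a (T.l 204) (T.b (T.l 204) (T.l 204)))) (T.a (T.a (T.l 204) (T.l 204)) (T.a (T.b (T.l 204) (T.l 0)) (T.b (T.l 0) (T.l 0)))))), by decide +kernel⟩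

def B022E_110 :
    ∃ t, chk3 (onCell 0 67108864 0 1073741824 966367641 24778659 (corT true 1 c0B cB022E gB1q0 gB1q2 gB0q2 gB1q2 true true)) t 1 1 1 = true :=
  ⟨(T.l 2), by decide +kernel⟩

def B022E_111 :
    ∃ t, chk3 (onCell 0 67108864 0 1073741824 966367641 24778659 (corT true 1 c0B cB022E gB1q0 gB1q2 gB1q2 gB2q2 true false)) t 1 1 1 = true :=
  ⟨(T.b (T.a (T.a (T.l 204) (T.b (T.l 204) (T.l 204))) (T.a (T.b (T.l 204) (T.l 204)) (T.b (T.b (T.b (T.l 204) (T.l 204)) (T.l 204)) (T.b (T.l 204) (T.l 204))))) (T.b (T.a (T.l 0) (T.a (T.b (T.l 0) (T.l 0)) (T.b (T.l 0) (T.l 0)))) (T.a (T.a (T.l 0) (T.a (T.l 0) (T.l 0))) (T.a (T.b (T.l 0) (T.l 0)) (T.l 0))))), by decide +kernel⟩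

def B022L_040 :
    ∃ t, chk3 (onCell 0 53687091 0 1073741824 966367641 24778659 (corX 1 c0B cB022L tB022L gB0q0 gB4q2 gB0q2 gB1q2 gB0q2 true true)) t 1 1 1 = true :=
  ⟨(T.b (T.b (T.l 2) (T.b (T.l 2) (T.a (T.l 3) (T.b (T.b (T.a (T.b (T.l 2) (T.l 0)) (T.l 2)) (T.a (T.b (T.l 0) (T.l 0)) (T.l 0))) (T.b (T.a (T.b (T.l 0) (T.l 0)) (T.l 0)) (T.a (T.b (T.l 0) (T.l 0)) (T.b (T.l 0) (T.l 0)))))))) (T.b (T.a (T.l 3) (T.b (T.a (T.l 3) (T.b (T.a (T.l 0) (T.b (T.l 0) (T.l 0))) (T.a (T.l 3) (T.b (T.l 0) (T.l 0))))) (T.b (T.l 3) (T.l 1)))) (T.l 1))), by decide +kernel⟩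

def B022L_041 :
    ∃ t, chk3 (onCell 0 53687091 0 1073741824 966367641 24778659 (corT true 1 c0B cB022L gB0q0 gB4q2 gB1q2 gB2q2 true false)) t 1 1 1 = true :=
  ⟨(T.b (T.b (T.l 0) (T.b (T.l 0) (T.l 0))) (T.l 1)), by decide +kernel⟩

def B022L_140 :
    ∃ t, chk3 (onCell 0 67108864 0 1073741824 966367641 24778659 (corT true 1 c0B cB022L gB1q0 gB4q2 gB0q2 gB1q2 true true)) t 1 1 1 = true :=
  ⟨(T.b (T.b (T.b (T.l 2) (T.b (T.l 2) (T.b (T.a (T.a (T.l 0) (T.l 2)) (T.l 2)) (T.a (T.a (T.l 0) (T.a (T.l 204) (T.l 0))) (T.a (T.l 0) (T.l 0)))))) (T.b (T.b (T.b (T.a (T.a (T.l 0) (T.a (T.l 204) (T.l 0))) (T.a (T.l 0) (T.l 0))) (T.a (T.a (T.l 0) (T.a (T.l 204) (T.l 0))) (T.a (T.l 0) (T.l 0)))) (T.b (T.a (T.a (T.l 204) (T.l 204)) (T.a (T.l 0) (T.l 0))) (T.b (T.a (T.a (T.l 204) (T.l 204)) (T.a (T.l 0) (T.l 0))) (T.a (T.a (T.l 204) (T.l 204)) (T.a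 (T.l 0) (T.l 0)))))) (T.b (T.b (T.a (T.a (T.l 0) (T.l 0)) (T.a (T.l 0) (T.l 0))) (T.a (T.l 0) (T.a (T.l 0) (T.l 0)))) (T.a (T.l 0) (T.a (T.l 0) (T.l 0)))))) (T.b (T.l 1) (T.l 1))), by decide +kernel⟩

def B022L_141 :
    ∃ t, chk3 (onCell 0 67108864 0 1073741824 966367641 24778659 (corT true 1 c0B cB022L gB1q0 gB4q2 gB1q2 gB2q2 true false)) t 1 1 1 = true :=
  ⟨(T.b (T.a (T.l 0) (T.b (T.b (T.l 0) (T.l 0)) (T.b (T.l 204) (T.l 1)))) (T.l 1)), by decide +kernel⟩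

end Pool.Agent.Strip051.G.I9000_9231.Tab.CG
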