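import Pool.Agent.Strip051.G.I9000_9231.DgP

/-! # The corner (1, 1, 2): certificates of the degenerate charts (generated) -/

set_option linter.all false

namespace Pool.Agent.Strip051.G.I9000_9231.Tab.DG

open Pool.Agent.Strip051.PB Pool.Agent.Strip051.PB.Dg Pool.Agent.StripNear Pool.Agent.Strip051.LC

theorem cFA3 : ∃ t, chk3 (onCell 0 164382475 0 1073741824 966367641 24778659 (fdAx true pF (ndUR ndF3) (dgSC pF) (thUp (ndUR ndF3) (dgSC pF)))) t 1 1 1 = true :=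
  ⟨(T.b (T.l 2) (T.a (T.a (T.b (T.b (T.b (T.l 2) (T.b (T.l 2) (T.c (T.a (T.c (T.l 64) (T.l 64)) (T.c (T.a (T.l 96) (T.l 96)) (T.l 64))) (T.c (T.a (T.l 64) (T.l 64)) (T.a (T.a (T.l 1088) (T.l 0)) (T.l 64)))))) (T.c (T.a (T.l 1088) (T.l 17472)) (T.a (T.a (T.l 1088) (T.l 1088)) (T.l 17472)))) (T.c (T.a (T.l 349520) (T.l 349520)) (T.a (T.l 349520) (T.l 349520)))) (T.a (T.b (T.b (T.b (T.l 2) (T.b (T.l 2) (T.c (T.c (T.a (T.l 96) (T.a (T.l 96) (T.l 96))) (T.l 64)) (T.l 96)))) (T.c (T.l 16480) (T.l 17472))) (T.b (T.l 279616) (T.c (T.a (T.l 357712) (T.c (T.a (T.l 357712) (T.l 357712)) (T.l 357712))) (T.a (T.l 349520) (T.c (T.l 357712) (T.l 357712)))))) (T.a (T.b (T.b (T.b (T.l 2) (T.b (T.l 2) (T.b (T.l 2) (T.a (T.c (T.a (T.l 96) (T.l 96)) (T.l 64)) (T.c (T.a (T.l 96) (T.l 96)) (T.l 96)))))) (T.a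 (T.c (T.l 16480) (T.l 279616)) (T.c (T.a (T.l 16448) (T.l 16448)) (T.l 279616)))) (T.a (T.b (T.l 287808) (T.c (T.b (T.l 286784) (T.b (T.a (T.l 286720) (T.l 286784)) (T.a (T.b (T.l 286784) (T.c (T.a (T.l 357712) (T.l 357712)) (T.a (T.l 357712) (T.l 357712)))) (T.b (T.c (T.l 286720) (T.l 286720)) (T.a (T.c (T.a (T.b (T.l 286720) (T.l 357712)) (T.l 357712)) (T.a (T.l 357712) (T.l 357712))) (T.c (T.l 357712) (T.l 357712))))))) (T.b (T.l 287808) (T.b (T.a (T.l 286720) (T.a (T.l 286720) (T.l 286784))) (T.a (T.c (T.a (T.l 357712) (T.l 357712)) (T.a (T.l 357712) (T.c (T.l 357712) (T.a (T.l 357712) (T.l 357712))))) (T.b (T.c (T.a (T.l 286720) (T.l 286720)) (T.a (T.l 286720) (T.a (T.l 286720) (T.l 278528)))) (T.a (T.b (T.c (T.l 286720) (T.a (T.l 286720) (T.l 286720))) (T.c (T.a (T.l 357712) (T.l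 357712)) (T.a (T.b (T.l 286720) (T.l 357712)) (T.l 357712)))) (T.c (T.l 357712) (T.l 357712))))))))) (T.b (T.a (T.l 279616) (T.l 287808)) (T.b (T.c (T.a (T.l 287808) (T.l 286784)) (T.a (T.l 287808) (T.c (T.l 286720) (T.l 286720)))) (T.b (T.a (T.c (T.a (T.l 286720) (T.l 286784)) (T.a (T.b (T.l 286720) (T.l 286720)) (T.l 286784))) (T.c (T.l 286784) (T.l 287808))) (T.c (T.a (T.c (T.l 357712) (T.l 357712)) (T.c (T.l 357712) (T.l 357712))) (T.a (T.c (T.l 357712) (T.l 357712)) (T.c (T.l 357712) (T.l 357712))))))))) (T.b (T.b (T.b (T.l 2) (T.b (T.l 2) (T.b (T.l 2) (T.a (T.c (T.a (T.l 96) (T.l 96)) (T.l 96)) (T.c (T.a (T.l 96) (T.l 96)) (T.l 96)))))) (T.a (T.c (T.a (T.l 16480) (T.l 16480)) (T.l 279616)) (T.c (T.a (T.l 16480) (T.l 16480)) (T.l 279648)))) (T.a (T.b (T.c (T.l 287808) (T.a (T.l 279616)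 (T.l 287808))) (T.b (T.a (T.c (T.a (T.l 286784) (T.l 286784)) (T.b (T.l 286720) (T.l 278528))) (T.c (T.l 279616) (T.l 279616))) (T.c (T.a (T.c (T.a (T.l 357712) (T.l 357712)) (T.l 357712)) (T.c (T.a (T.l 357712) (T.l 357712)) (T.l 357712))) (T.a (T.c (T.l 357712) (T.l 357712)) (T.c (T.l 357712) (T.l 357712)))))) (T.b (T.c (T.a (T.l 279616) (T.l 287808)) (T.b (T.l 278592) (T.a (T.l 286720) (T.l 278528)))) (T.c (T.b (T.l 287808) (T.c (T.b (T.l 287808) (T.a (T.l 357712) (T.l 357712))) (T.a (T.l 357712) (T.l 357712)))) (T.b (T.a (T.l 279616) (T.l 279616)) (T.a (T.c (T.l 357712) (T.l 357712)) (T.c (T.l 357712) (T.l 357712))))))))))) (T.c (T.b (T.b (T.b (T.l 2) (T.a (T.b (T.l 2) (T.a (T.b (T.l 2) (T.a (T.a (T.a (T.l 96) (T.l 96)) (T.a (T.l 96) (T.l 96))) (T.a (T.a (T.l 96) (T.l 96)) (T.c (T.a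 (T.l 96) (T.l 96)) (T.l 96))))) (T.b (T.l 2) (T.a (T.b (T.l 2) (T.a (T.a (T.l 96) (T.c (T.l 0) (T.l 0))) (T.a (T.c (T.l 0) (T.l 0)) (T.c (T.a (T.l 0) (T.l 0)) (T.l 0))))) (T.b (T.l 2) (T.a (T.a (T.c (T.a (T.l 0) (T.l 0)) (T.l 0)) (T.c (T.a (T.l 0) (T.l 0)) (T.l 0))) (T.c (T.b (T.l 2) (T.a (T.l 0) (T.a (T.l 0) (T.l 0)))) (T.a (T.l 0) (T.l 0))))))))) (T.a (T.b (T.l 2) (T.b (T.l 2) (T.a (T.b (T.l 2) (T.a (T.a (T.c (T.a (T.l 0) (T.l 0)) (T.l 0)) (T.c (T.a (T.l 0) (T.l 0)) (T.l 0))) (T.a (T.c (T.a (T.l 0) (T.l 0)) (T.l 0)) (T.c (T.a (T.l 0) (T.l 0)) (T.l 0))))) (T.a (T.a (T.b (T.l 2) (T.c (T.a (T.l 0) (T.l 0)) (T.l 0))) (T.l 2)) (T.l 2))))) (T.l 2)))) (T.a (T.a (T.a (T.a (T.a (T.l 16480) (T.l 278624)) (T.c (T.a (T.l 16480) (T.l 16480)) (T.l 16480))) (T.a (T.c (T.a (T.l 16480) (T.l 16480)) (T.l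 16480)) (T.b (T.a (T.l 96) (T.l 96)) (T.l 16448)))) (T.a (T.a (T.b (T.a (T.l 96) (T.c (T.a (T.l 96) (T.l 96)) (T.l 96))) (T.l 16480)) (T.b (T.c (T.b (T.a (T.a (T.l 0) (T.l 0)) (T.a (T.l 0) (T.l 0))) (T.a (T.l 0) (T.l 0))) (T.b (T.a (T.l 0) (T.l 0)) (T.l 0))) (T.a (T.l 16448) (T.l 16480)))) (T.a (T.b (T.c (T.b (T.a (T.a (T.l 0) (T.l 0)) (T.a (T.l 0) (T.l 0))) (T.a (T.l 0) (T.l 0))) (T.a (T.a (T.l 0) (T.l 0)) (T.a (T.l 0) (T.l 0)))) (T.a (T.l 16480) (T.a (T.l 96) (T.l 96)))) (T.b (T.c (T.a (T.b (T.a (T.l 0) (T.l 0)) (T.l 0)) (T.b (T.a (T.l 0) (T.l 0)) (T.l 0))) (T.a (T.a (T.l 0) (T.l 0)) (T.a (T.l 0) (T.l 0)))) (T.c (T.a (T.l 0) (T.l 0)) (T.a (T.l 0) (T.l 0))))))) (T.a (T.a (T.a (T.b (T.c (T.a (T.b (T.a (T.l 0) (T.l 0)) (T.l 0)) (T.b (T.a (T.l 0) (T.l 0)) (T.l 0))) (T.a (T.a (T.l 0) (T.l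 0)) (T.a (T.l 0) (T.l 0)))) (T.c (T.a (T.l 0) (T.a (T.l 0) (T.l 0))) (T.a (T.l 0) (T.l 0)))) (T.b (T.c (T.a (T.b (T.a (T.l 0) (T.a (T.l 0) (T.l 0))) (T.l 0)) (T.b (T.c (T.a (T.l 0) (T.l 0)) (T.l 0)) (T.l 0))) (T.a (T.a (T.l 0) (T.l 0)) (T.b (T.l 0) (T.l 0)))) (T.c (T.a (T.a (T.l 0) (T.l 0)) (T.a (T.l 0) (T.l 0))) (T.a (T.l 0) (T.l 0))))) (T.a (T.b (T.c (T.a (T.b (T.c (T.a (T.l 0) (T.l 0)) (T.l 0)) (T.l 0)) (T.b (T.c (T.a (T.l 0) (T.l 0)) (T.l 0)) (T.l 0))) (T.a (T.b (T.l 0) (T.l 0)) (T.b (T.l 0) (T.l 0)))) (T.c (T.a (T.a (T.l 0) (T.l 0)) (T.a (T.l 0) (T.l 0))) (T.a (T.l 0) (T.l 0)))) (T.b (T.c (T.a (T.b (T.c (T.a (T.l 0) (T.l 0)) (T.l 0)) (T.l 0)) (T.b (T.c (T.a (T.l 0) (T.l 0)) (T.l 0)) (T.l 0))) (T.a (T.b (T.l 0) (T.l 0)) (T.b (T.l 0) (T.l 0)))) (T.c (T.a (T.a (T.l 0) (T.l 0)) (T.a (T.l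 0) (T.l 0))) (T.a (T.a (T.l 0) (T.l 0)) (T.a (T.l 0) (T.l 0))))))) (T.a (T.a (T.b (T.c (T.a (T.b (T.c (T.a (T.l 0) (T.l 0)) (T.l 0)) (T.l 0)) (T.b (T.c (T.a (T.l 0) (T.l 0)) (T.l 0)) (T.l 0))) (T.a (T.b (T.l 0) (T.l 0)) (T.b (T.l 0) (T.l 0)))) (T.a (T.c (T.a (T.l 0) (T.l 0)) (T.a (T.l 0) (T.l 0))) (T.b (T.a (T.l 0) (T.l 0)) (T.a (T.l 0) (T.l 0))))) (T.b (T.c (T.a (T.b (T.c (T.a (T.l 0) (T.l 0)) (T.l 0)) (T.l 0)) (T.b (T.c (T.a (T.l 0) (T.l 0)) (T.l 0)) (T.l 0))) (T.a (T.b (T.l 0) (T.l 0)) (T.b (T.l 0) (T.l 0)))) (T.c (T.a (T.b (T.l 0) (T.l 0)) (T.a (T.l 0) (T.l 0))) (T.a (T.a (T.l 0) (T.l 0)) (T.a (T.l 0) (T.l 0)))))) (T.a (T.b (T.c (T.a (T.b (T.c (T.a (T.l 0) (T.l 0)) (T.l 0)) (T.l 0)) (T.b (T.c (T.a (T.l 0) (T.l 0)) (T.l 0)) (T.l 0))) (T.a (T.b (T.l 0) (T.l 0)) (T.b (T.l 0) (T.l 0))))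 (T.c (T.a (T.b (T.l 0) (T.l 0)) (T.b (T.l 0) (T.l 0))) (T.a (T.a (T.l 0) (T.l 0)) (T.a (T.l 0) (T.l 0))))) (T.b (T.c (T.a (T.b (T.c (T.a (T.l 0) (T.l 0)) (T.l 0)) (T.l 0)) (T.b (T.c (T.a (T.l 0) (T.l 0)) (T.l 0)) (T.l 0))) (T.a (T.b (T.l 0) (T.l 0)) (T.b (T.l 0) (T.l 0)))) (T.c (T.b (T.a (T.l 0) (T.l 0)) (T.a (T.l 0) (T.l 0))) (T.a (T.a (T.l 0) (T.l 0)) (T.a (T.l 0) (T.l 0)))))))))) (T.b (T.b (T.a (T.a (T.a (T.a (T.l 278592) (T.l 278592)) (T.l 287808)) (T.a (T.a (T.l 278592) (T.l 286784)) (T.a (T.l 286816) (T.a (T.l 24640) (T.a (T.l 24640) (T.l 24640)))))) (T.c (T.a (T.a (T.a (T.a (T.l 0) (T.l 0)) (T.a (T.a (T.l 0) (T.l 0)) (T.a (T.l 0) (T.l 96)))) (T.a (T.a (T.b (T.l 0) (T.l 0)) (T.l 96)) (T.a (T.b (T.l 0) (T.l 0)) (T.b (T.l 0) (T.l 0))))) (T.a (T.a (T.a (T.b (T.l 0) (T.l 0)) (T.b (T.l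 0) (T.l 0))) (T.b (T.a (T.l 0) (T.l 0)) (T.a (T.l 0) (T.l 0)))) (T.a (T.b (T.a (T.l 0) (T.l 0)) (T.a (T.l 0) (T.l 0))) (T.b (T.a (T.l 0) (T.l 0)) (T.l 16448))))) (T.a (T.a (T.a (T.a (T.l 0) (T.l 0)) (T.a (T.a (T.l 0) (T.l 0)) (T.b (T.l 0) (T.l 0)))) (T.a (T.a (T.b (T.l 0) (T.l 0)) (T.l 96)) (T.a (T.b (T.l 0) (T.l 0)) (T.b (T.l 0) (T.l 0))))) (T.a (T.a (T.a (T.b (T.l 0) (T.l 0)) (T.b (T.l 0) (T.l 0))) (T.a (T.b (T.l 0) (T.l 0)) (T.b (T.l 0) (T.l 0)))) (T.a (T.a (T.a (T.l 0) (T.l 0)) (T.a (T.l 0) (T.l 0))) (T.b (T.a (T.l 0) (T.l 0)) (T.l 16448))))))) (T.a (T.a (T.a (T.a (T.l 278592) (T.l 278592)) (T.a (T.l 279616) (T.l 279616))) (T.a (T.a (T.a (T.l 278592) (T.l 278592)) (T.a (T.l 278592) (T.l 286784))) (T.a (T.a (T.l 286784) (T.a (T.l 286784) (T.l 286784))) (T.a (T.b (T.l 24576) (T.c (T.a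 (T.l 0) (T.l 0)) (T.l 0))) (T.b (T.a (T.l 0) (T.l 0)) (T.c (T.l 0) (T.l 0))))))) (T.b (T.c (T.a (T.a (T.a (T.a (T.l 0) (T.l 0)) (T.l 16448)) (T.a (T.l 96) (T.a (T.l 0) (T.l 0)))) (T.a (T.a (T.a (T.l 0) (T.l 0)) (T.a (T.l 0) (T.l 0))) (T.l 287808))) (T.a (T.a (T.a (T.a (T.l 0) (T.l 0)) (T.l 96)) (T.a (T.a (T.l 64) (T.l 96)) (T.a (T.a (T.l 0) (T.l 0)) (T.a (T.l 0) (T.l 0))))) (T.a (T.a (T.a (T.l 0) (T.l 0)) (T.a (T.l 0) (T.l 0))) (T.l 287808)))) (T.c (T.a (T.a (T.a (T.l 16448) (T.l 16448)) (T.a (T.l 16480) (T.a (T.l 96) (T.a (T.l 0) (T.l 0))))) (T.a (T.a (T.a (T.l 0) (T.l 16384)) (T.l 278592)) (T.l 287808))) (T.a (T.a (T.a (T.l 17472) (T.l 17504)) (T.a (T.a (T.l 96) (T.a (T.l 0) (T.l 0))) (T.a (T.a (T.l 0) (T.l 0)) (T.a (T.l 0) (T.l 0))))) (T.a (T.a (T.a (T.a (T.l 0) (T.l 0)) (T.l 16384))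 (T.l 278592)) (T.a (T.l 278592) (T.l 4)))))))) (T.b (T.a (T.a (T.a (T.a (T.l 287808) (T.l 287808)) (T.a (T.l 287808) (T.l 287808))) (T.a (T.a (T.a (T.l 287808) (T.a (T.l 287808) (T.l 287808))) (T.a (T.a (T.l 287808) (T.l 287808)) (T.a (T.l 287808) (T.c (T.l 286784) (T.b (T.l 16384) (T.l 24576)))))) (T.a (T.b (T.a (T.a (T.l 24576) (T.l 24576)) (T.c (T.a (T.l 24576) (T.a (T.l 0) (T.l 0))) (T.b (T.l 0) (T.a (T.l 0) (T.l 0))))) (T.a (T.c (T.b (T.a (T.l 24576) (T.l 0)) (T.a (T.a (T.l 24576) (T.l 0)) (T.l 16384))) (T.a (T.b (T.l 24576) (T.a (T.l 0) (T.l 0))) (T.b (T.l 0) (T.l 16384)))) (T.l 279616))) (T.b (T.a (T.b (T.a (T.l 0) (T.l 0)) (T.l 16448)) (T.l 17472)) (T.l 279616))))) (T.a (T.a (T.a (T.l 284016) (T.a (T.l 279616) (T.l 279648))) (T.a (T.b (T.a (T.a (T.l 17504) (T.l 17504)) (T.c (T.l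 16480) (T.a (T.l 96) (T.a (T.l 0) (T.l 0))))) (T.a (T.c (T.l 17504) (T.a (T.l 96) (T.b (T.l 0) (T.a (T.l 0) (T.l 0))))) (T.b (T.c (T.a (T.l 0) (T.l 0)) (T.a (T.l 0) (T.l 0))) (T.l 279616)))) (T.b (T.a (T.c (T.a (T.l 0) (T.l 0)) (T.b (T.l 0) (T.a (T.l 0) (T.l 0)))) (T.b (T.a (T.l 0) (T.l 0)) (T.l 16448))) (T.l 279616)))) (T.a (T.a (T.l 357712) (T.l 357712)) (T.l 4)))) (T.a (T.a (T.a (T.a (T.c (T.b (T.l 287808) (T.a (T.l 357712) (T.l 357712))) (T.a (T.l 357712) (T.l 357712))) (T.c (T.a (T.a (T.l 357712) (T.l 357712)) (T.l 357712)) (T.a (T.l 357712) (T.l 357712)))) (T.a (T.a (T.c (T.l 357712) (T.l 357712)) (T.c (T.a (T.l 357712) (T.l 357712)) (T.l 357712))) (T.c (T.b (T.l 287808) (T.a (T.a (T.l 357712) (T.l 357712)) (T.l 357712))) (T.a (T.l 357712) (T.a (T.l 357712) (T.l 357712)))))) (T.a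 (T.a (T.a (T.b (T.l 287808) (T.c (T.l 357712) (T.l 357712))) (T.b (T.a (T.l 287808) (T.l 287808)) (T.c (T.b (T.a (T.l 286720) (T.a (T.l 286720) (T.b (T.l 24576) (T.l 286720)))) (T.a (T.b (T.a (T.l 286720) (T.l 286720)) (T.a (T.c (T.l 357712) (T.l 357712)) (T.c (T.a (T.l 357712) (T.l 357712)) (T.a (T.l 357712) (T.l 357712))))) (T.b (T.a (T.b (T.l 24576) (T.c (T.l 24576) (T.l 24576))) (T.l 286784)) (T.l 357712)))) (T.b (T.a (T.l 286784) (T.a (T.l 286720) (T.b (T.l 24576) (T.l 286720)))) (T.a (T.a (T.c (T.l 357712) (T.l 357712)) (T.b (T.l 286720) (T.c (T.a (T.l 357712) (T.l 357712)) (T.a (T.l 357712) (T.l 357712))))) (T.b (T.a (T.b (T.l 286720) (T.c (T.l 24576) (T.l 24576))) (T.l 286784)) (T.l 357712))))))) (T.b (T.a (T.a (T.c (T.l 286720) (T.l 286720)) (T.b (T.l 286720) (T.c (T.a (T.l 24576)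 (T.b (T.l 24576) (T.l 16384))) (T.a (T.l 24576) (T.b (T.l 24576) (T.l 16384)))))) (T.b (T.c (T.a (T.a (T.l 24576) (T.l 24576)) (T.a (T.l 24576) (T.l 16384))) (T.a (T.a (T.l 24576) (T.l 24576)) (T.a (T.l 24576) (T.l 16384)))) (T.l 287808))) (T.a (T.b (T.a (T.c (T.c (T.a (T.a (T.l 24576) (T.l 24576)) (T.a (T.l 24576) (T.l 16384))) (T.a (T.a (T.l 24576) (T.l 24576)) (T.a (T.l 24576) (T.l 16384)))) (T.c (T.a (T.a (T.l 24576) (T.l 24576)) (T.a (T.l 24576) (T.l 16384))) (T.a (T.a (T.l 24576) (T.l 24576)) (T.a (T.l 24576) (T.l 16384))))) (T.l 287808)) (T.l 357712)) (T.l 349520)))) (T.a (T.a (T.l 357712) (T.l 349520)) (T.l 349520)))) (T.a (T.b (T.b (T.a (T.a (T.l 279648) (T.a (T.l 279616) (T.c (T.l 17472) (T.a (T.l 64) (T.l 96))))) (T.a (T.a (T.c (T.l 16480) (T.a (T.a (T.l 96) (T.l 0)) (T.l 64)))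 (T.l 279616)) (T.l 283712))) (T.a (T.a (T.l 284016) (T.a (T.l 279648) (T.a (T.l 279648) (T.l 279616)))) (T.a (T.l 349520) (T.l 349520)))) (T.b (T.a (T.a (T.a (T.l 349520) (T.l 349520)) (T.a (T.a (T.l 279648) (T.l 279648)) (T.l 349520))) (T.a (T.l 349520) (T.l 4))) (T.c (T.a (T.a (T.l 349552) (T.l 349520)) (T.a (T.l 349520) (T.l 4))) (T.a (T.a (T.a (T.l 349520) (T.l 349552)) (T.l 349520)) (T.l 357712))))) (T.l 4)))))) (T.b (T.b (T.b (T.l 2) (T.a (T.b (T.l 2) (T.a (T.b (T.l 2) (T.a (T.a (T.l 96) (T.l 96)) (T.a (T.l 96) (T.a (T.l 0) (T.l 0))))) (T.b (T.l 2) (T.a (T.b (T.l 2) (T.a (T.a (T.l 0) (T.l 0)) (T.a (T.l 0) (T.l 0)))) (T.b (T.l 2) (T.a (T.a (T.l 0) (T.l 0)) (T.a (T.l 0) (T.l 0)))))))) (T.a (T.b (T.l 2) (T.b (T.l 2) (T.a (T.b (T.l 2) (T.a (T.a (T.l 0) (T.l 0)) (T.a (T.l 0) (T.l 0))))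 (T.a (T.a (T.l 0) (T.l 2)) (T.l 2))))) (T.l 2)))) (T.a (T.a (T.a (T.a (T.a (T.l 278592) (T.l 279616)) (T.a (T.l 279616) (T.l 279616))) (T.a (T.a (T.l 279648) (T.l 279648)) (T.a (T.l 279648) (T.l 279616)))) (T.a (T.a (T.b (T.a (T.l 64) (T.a (T.l 64) (T.l 96))) (T.l 278592)) (T.b (T.a (T.b (T.l 0) (T.l 0)) (T.b (T.l 0) (T.l 0))) (T.a (T.l 16384) (T.l 16384)))) (T.a (T.b (T.c (T.a (T.l 0) (T.l 0)) (T.a (T.l 0) (T.l 0))) (T.a (T.l 16480) (T.a (T.l 0) (T.l 0)))) (T.b (T.c (T.a (T.l 0) (T.l 0)) (T.a (T.l 0) (T.l 0))) (T.a (T.a (T.l 0) (T.l 0)) (T.a (T.l 0) (T.l 0))))))) (T.a (T.a (T.a (T.b (T.a (T.b (T.l 0) (T.l 0)) (T.c (T.l 0) (T.l 0))) (T.a (T.a (T.l 0) (T.l 0)) (T.b (T.l 0) (T.l 0)))) (T.b (T.c (T.a (T.l 0) (T.l 0)) (T.a (T.l 0) (T.l 0))) (T.a (T.b (T.l 0) (T.l 0)) (T.b (T.l 0) (T.l 0)))))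 (T.a (T.b (T.c (T.a (T.l 0) (T.l 0)) (T.a (T.l 0) (T.l 0))) (T.a (T.c (T.l 0) (T.l 0)) (T.c (T.l 0) (T.a (T.l 0) (T.l 0))))) (T.b (T.c (T.a (T.l 0) (T.a (T.l 0) (T.l 0))) (T.a (T.l 0) (T.l 0))) (T.c (T.a (T.a (T.l 0) (T.l 0)) (T.a (T.l 0) (T.l 0))) (T.a (T.a (T.l 0) (T.l 0)) (T.a (T.l 0) (T.l 0))))))) (T.a (T.a (T.b (T.c (T.a (T.a (T.l 0) (T.l 0)) (T.a (T.l 0) (T.l 0))) (T.a (T.l 0) (T.l 0))) (T.a (T.c (T.a (T.l 0) (T.l 0)) (T.a (T.l 0) (T.l 0))) (T.b (T.a (T.l 0) (T.l 0)) (T.a (T.l 0) (T.l 0))))) (T.b (T.c (T.a (T.a (T.l 0) (T.l 0)) (T.a (T.l 0) (T.l 0))) (T.a (T.l 0) (T.l 0))) (T.c (T.a (T.a (T.l 0) (T.l 0)) (T.a (T.l 0) (T.l 0))) (T.b (T.a (T.l 0) (T.l 0)) (T.a (T.l 0) (T.l 0)))))) (T.a (T.b (T.c (T.a (T.a (T.l 0) (T.l 0)) (T.a (T.l 0) (T.l 0))) (T.a (T.l 0) (T.l 0))) (T.c (T.a (T.a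 (T.l 0) (T.l 0)) (T.a (T.l 0) (T.l 0))) (T.a (T.a (T.l 0) (T.l 0)) (T.a (T.l 0) (T.l 0))))) (T.b (T.a (T.c (T.a (T.l 0) (T.l 0)) (T.l 0)) (T.c (T.a (T.l 0) (T.l 0)) (T.a (T.l 0) (T.l 0)))) (T.c (T.a (T.a (T.l 0) (T.l 0)) (T.a (T.l 0) (T.l 0))) (T.a (T.a (T.l 0) (T.l 0)) (T.a (T.l 0) (T.l 0)))))))))) (T.b (T.b (T.a (T.a (T.a (T.a (T.l 286784) (T.l 278592)) (T.a (T.l 278592) (T.l 278592))) (T.a (T.a (T.l 286784) (T.a (T.l 278528) (T.l 278528))) (T.a (T.a (T.l 278592) (T.l 286784)) (T.a (T.c (T.l 16384) (T.l 24576)) (T.b (T.l 0) (T.a (T.l 0) (T.l 0))))))) (T.c (T.a (T.a (T.a (T.a (T.l 0) (T.l 96)) (T.a (T.a (T.l 0) (T.l 0)) (T.b (T.l 0) (T.l 0)))) (T.a (T.b (T.a (T.l 0) (T.l 0)) (T.a (T.l 0) (T.l 0))) (T.b (T.a (T.l 0) (T.l 0)) (T.a (T.l 0) (T.l 0))))) (T.a (T.a (T.a (T.b (T.l 0) (T.l 0))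 (T.b (T.l 0) (T.l 0))) (T.a (T.b (T.l 0) (T.l 0)) (T.b (T.l 0) (T.l 0)))) (T.a (T.a (T.a (T.l 0) (T.l 0)) (T.a (T.l 0) (T.l 0))) (T.b (T.a (T.l 0) (T.l 0)) (T.l 16448))))) (T.a (T.a (T.a (T.a (T.l 0) (T.a (T.l 0) (T.l 0))) (T.a (T.b (T.l 0) (T.l 0)) (T.b (T.l 0) (T.a (T.l 0) (T.l 0))))) (T.a (T.b (T.a (T.l 0) (T.l 0)) (T.a (T.a (T.l 0) (T.l 0)) (T.a (T.l 0) (T.l 0)))) (T.b (T.a (T.l 0) (T.l 0)) (T.a (T.a (T.l 0) (T.l 0)) (T.a (T.l 0) (T.l 0)))))) (T.a (T.a (T.a (T.b (T.l 0) (T.a (T.l 0) (T.l 0))) (T.b (T.l 0) (T.l 0))) (T.a (T.b (T.l 0) (T.l 0)) (T.b (T.l 0) (T.l 0)))) (T.a (T.a (T.b (T.l 0) (T.l 0)) (T.a (T.l 0) (T.l 0))) (T.b (T.a (T.l 0) (T.l 0)) (T.l 278592))))))) (T.a (T.a (T.a (T.a (T.l 279616) (T.l 279616)) (T.a (T.l 279616) (T.l 279616))) (T.a (T.a (T.a (T.l 278592) (T.l 286784))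 (T.a (T.l 286784) (T.a (T.l 278592) (T.l 286784)))) (T.a (T.a (T.a (T.l 286784) (T.l 286784)) (T.c (T.l 24576) (T.a (T.l 24576) (T.l 24576)))) (T.a (T.b (T.a (T.l 0) (T.l 0)) (T.c (T.l 0) (T.l 0))) (T.b (T.a (T.l 0) (T.l 0)) (T.a (T.l 0) (T.l 64))))))) (T.b (T.c (T.a (T.a (T.a (T.a (T.l 0) (T.l 0)) (T.a (T.l 64) (T.l 64))) (T.a (T.a (T.l 96) (T.a (T.l 0) (T.l 0))) (T.a (T.a (T.l 0) (T.l 0)) (T.a (T.l 0) (T.l 0))))) (T.a (T.a (T.a (T.a (T.l 0) (T.l 0)) (T.l 0)) (T.a (T.l 0) (T.l 0))) (T.a (T.l 278592) (T.l 278592)))) (T.a (T.a (T.a (T.a (T.l 0) (T.l 64)) (T.a (T.l 64) (T.a (T.l 0) (T.l 96)))) (T.a (T.a (T.a (T.l 64) (T.l 96)) (T.b (T.l 0) (T.a (T.l 0) (T.l 0)))) (T.a (T.b (T.l 0) (T.a (T.l 0) (T.l 0))) (T.a (T.l 0) (T.l 0))))) (T.a (T.a (T.a (T.a (T.l 0) (T.l 0)) (T.a (T.l 0) (T.l 0))) (T.a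 (T.l 0) (T.l 0))) (T.a (T.l 278592) (T.l 278592))))) (T.c (T.a (T.a (T.a (T.l 17472) (T.a (T.l 64) (T.l 64))) (T.a (T.a (T.a (T.l 64) (T.l 96)) (T.b (T.a (T.l 0) (T.l 0)) (T.a (T.l 0) (T.l 0)))) (T.a (T.c (T.l 0) (T.a (T.l 0) (T.l 0))) (T.a (T.l 0) (T.l 0))))) (T.a (T.a (T.a (T.a (T.l 0) (T.l 0)) (T.l 16448)) (T.l 279616)) (T.a (T.l 278592) (T.l 4)))) (T.a (T.a (T.a (T.a (T.l 64) (T.l 64)) (T.a (T.l 1088) (T.l 1120))) (T.a (T.a (T.a (T.a (T.l 96) (T.l 96)) (T.b (T.l 0) (T.a (T.l 0) (T.l 0)))) (T.b (T.a (T.l 0) (T.l 0)) (T.a (T.l 0) (T.l 0)))) (T.a (T.a (T.b (T.l 0) (T.l 0)) (T.a (T.l 0) (T.l 0))) (T.a (T.a (T.l 0) (T.l 0)) (T.a (T.l 0) (T.l 0)))))) (T.a (T.a (T.a (T.a (T.l 0) (T.l 0)) (T.l 16448)) (T.l 279616)) (T.a (T.l 279616) (T.l 4)))))))) (T.b (T.a (T.a (T.a (T.a (T.a (T.l 279616)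 (T.l 279616)) (T.l 287808)) (T.a (T.a (T.l 279616) (T.l 279616)) (T.a (T.l 287808) (T.l 287808)))) (T.a (T.a (T.a (T.l 287808) (T.a (T.l 287808) (T.l 287808))) (T.a (T.c (T.l 287808) (T.a (T.l 286784) (T.l 286784))) (T.b (T.a (T.l 286720) (T.l 286720)) (T.a (T.c (T.l 286720) (T.l 286720)) (T.b (T.c (T.l 24576) (T.l 24576)) (T.c (T.a (T.l 24576) (T.l 0)) (T.a (T.l 24576) (T.l 0)))))))) (T.a (T.a (T.b (T.c (T.l 24576) (T.a (T.l 24576) (T.a (T.l 0) (T.l 0)))) (T.c (T.a (T.b (T.l 24576) (T.a (T.l 0) (T.l 0))) (T.b (T.l 0) (T.l 0))) (T.a (T.b (T.l 0) (T.a (T.l 0) (T.l 0))) (T.b (T.l 0) (T.l 0))))) (T.b (T.c (T.a (T.a (T.l 0) (T.l 0)) (T.l 0)) (T.a (T.a (T.l 0) (T.l 0)) (T.l 0))) (T.l 279616))) (T.b (T.a (T.b (T.a (T.l 0) (T.l 0)) (T.l 16448)) (T.l 279616)) (T.l 279616))))) (T.a (T.c (T.a (T.a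 (T.l 279648) (T.a (T.l 279648) (T.a (T.l 17504) (T.b (T.l 96) (T.l 1120))))) (T.a (T.b (T.a (T.a (T.l 96) (T.b (T.l 0) (T.a (T.l 0) (T.l 0)))) (T.b (T.a (T.l 0) (T.l 0)) (T.a (T.l 0) (T.l 0)))) (T.a (T.b (T.a (T.a (T.l 0) (T.l 0)) (T.a (T.l 0) (T.l 0))) (T.a (T.c (T.l 0) (T.l 0)) (T.a (T.l 0) (T.l 0)))) (T.b (T.a (T.a (T.l 0) (T.l 0)) (T.l 0)) (T.l 17472)))) (T.b (T.a (T.a (T.b (T.l 0) (T.l 0)) (T.a (T.l 0) (T.l 0))) (T.b (T.l 0) (T.l 64))) (T.l 279616)))) (T.a (T.a (T.a (T.l 279616) (T.l 279648)) (T.a (T.a (T.l 17504) (T.c (T.l 1120) (T.c (T.l 1120) (T.b (T.l 64) (T.l 1120))))) (T.b (T.a (T.l 1120) (T.b (T.l 96) (T.c (T.l 0) (T.a (T.l 0) (T.l 0))))) (T.b (T.a (T.c (T.l 96) (T.a (T.l 96) (T.l 96))) (T.c (T.a (T.l 0) (T.l 0)) (T.b (T.l 0) (T.a (T.l 0) (T.l 0))))) (T.a (T.c (T.l 96) (T.b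 (T.a (T.l 0) (T.l 0)) (T.a (T.a (T.l 0) (T.l 0)) (T.l 0)))) (T.c (T.a (T.l 0) (T.l 0)) (T.b (T.a (T.l 0) (T.l 0)) (T.a (T.l 0) (T.l 0))))))))) (T.a (T.b (T.a (T.b (T.a (T.a (T.l 0) (T.l 0)) (T.a (T.l 0) (T.l 0))) (T.a (T.c (T.l 0) (T.a (T.l 0) (T.l 0))) (T.c (T.l 0) (T.l 0)))) (T.a (T.b (T.a (T.l 0) (T.l 0)) (T.a (T.l 0) (T.l 0))) (T.b (T.a (T.l 0) (T.l 0)) (T.a (T.l 0) (T.l 0))))) (T.a (T.b (T.a (T.c (T.a (T.l 0) (T.l 0)) (T.a (T.l 0) (T.l 0))) (T.c (T.l 0) (T.a (T.l 0) (T.l 0)))) (T.a (T.c (T.a (T.l 0) (T.l 0)) (T.b (T.l 0) (T.a (T.l 0) (T.l 0)))) (T.b (T.a (T.l 0) (T.l 0)) (T.l 64)))) (T.b (T.a (T.b (T.l 0) (T.l 0)) (T.a (T.l 0) (T.l 0))) (T.l 17472)))) (T.b (T.a (T.a (T.b (T.l 0) (T.l 0)) (T.b (T.l 0) (T.l 0))) (T.b (T.a (T.l 0) (T.l 0)) (T.l 64))) (T.l 279616))))) (T.a (T.a (T.a (T.l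 279616) (T.l 283712)) (T.l 357712)) (T.l 4)))) (T.a (T.a (T.a (T.a (T.a (T.a (T.l 357712) (T.l 357712)) (T.a (T.l 357712) (T.l 357712))) (T.a (T.a (T.l 357712) (T.l 357712)) (T.a (T.l 357712) (T.l 357712)))) (T.a (T.a (T.c (T.l 357712) (T.l 357712)) (T.c (T.l 357712) (T.l 357712))) (T.a (T.c (T.l 357712) (T.a (T.l 357712) (T.l 357712))) (T.b (T.l 287808) (T.c (T.l 357712) (T.a (T.l 357712) (T.l 357712))))))) (T.a (T.a (T.a (T.c (T.a (T.l 357712) (T.l 357712)) (T.c (T.l 357712) (T.l 357712))) (T.b (T.a (T.c (T.l 286720) (T.l 286720)) (T.c (T.l 286720) (T.l 286720))) (T.c (T.b (T.a (T.l 286784) (T.b (T.l 286720) (T.a (T.l 286720) (T.c (T.l 24576) (T.a (T.l 24576) (T.l 24576)))))) (T.a (T.c (T.a (T.l 357712) (T.b (T.l 286720) (T.a (T.l 357712) (T.b (T.l 286720) (T.l 357712))))) (T.a (T.a (T.l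 357712) (T.l 357712)) (T.b (T.l 286720) (T.c (T.a (T.l 357712) (T.a (T.l 357712) (T.l 357712))) (T.a (T.a (T.l 357712) (T.l 357712)) (T.a (T.l 357712) (T.l 357712))))))) (T.b (T.a (T.b (T.c (T.l 24576) (T.l 24576)) (T.c (T.a (T.l 24576) (T.l 16384)) (T.a (T.l 24576) (T.l 16384)))) (T.l 286784)) (T.l 357712)))) (T.a (T.b (T.a (T.l 286720) (T.l 286720)) (T.c (T.b (T.a (T.l 286720) (T.l 286720)) (T.a (T.a (T.l 357712) (T.l 357712)) (T.c (T.b (T.a (T.l 286720) (T.l 286720)) (T.a (T.l 357712) (T.l 349520))) (T.b (T.a (T.l 286720) (T.l 286720)) (T.a (T.a (T.l 357712) (T.l 357712)) (T.l 349520)))))) (T.b (T.a (T.l 286720) (T.l 286720)) (T.a (T.b (T.l 286720) (T.a (T.l 357712) (T.c (T.l 357712) (T.a (T.l 357712) (T.l 357712))))) (T.c (T.a (T.b (T.l 286720) (T.a (T.l 357712) (T.l 357712))) (T.b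 (T.a (T.l 24576) (T.l 24576)) (T.l 349520))) (T.a (T.b (T.l 286720) (T.a (T.l 357712) (T.l 357712))) (T.b (T.a (T.l 24576) (T.l 24576)) (T.l 349520)))))))) (T.b (T.b (T.l 286720) (T.a (T.l 286720) (T.b (T.c (T.l 24576) (T.l 24576)) (T.c (T.a (T.l 24576) (T.l 16384)) (T.a (T.l 24576) (T.l 16384)))))) (T.b (T.a (T.c (T.a (T.l 286720) (T.b (T.l 24576) (T.l 16384))) (T.c (T.a (T.l 24576) (T.a (T.l 24576) (T.l 24576))) (T.a (T.a (T.l 24576) (T.l 24576)) (T.b (T.l 24576) (T.l 16384))))) (T.l 286784)) (T.l 357712))))))) (T.a (T.b (T.c (T.a (T.a (T.l 286720) (T.l 286720)) (T.b (T.l 24576) (T.c (T.a (T.l 24576) (T.a (T.l 24576) (T.l 24576))) (T.a (T.a (T.l 24576) (T.l 24576)) (T.b (T.l 0) (T.l 0)))))) (T.a (T.a (T.l 286720) (T.c (T.l 286720) (T.l 286720))) (T.b (T.l 286720) (T.c (T.a (T.a (T.l 24576)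 (T.l 24576)) (T.b (T.l 0) (T.l 0))) (T.a (T.b (T.l 24576) (T.a (T.l 0) (T.l 0))) (T.b (T.l 0) (T.l 0))))))) (T.b (T.a (T.c (T.c (T.a (T.a (T.l 24576) (T.b (T.l 24576) (T.l 16384))) (T.b (T.l 24576) (T.l 16384))) (T.a (T.b (T.l 24576) (T.a (T.l 24576) (T.l 16384))) (T.b (T.a (T.l 24576) (T.l 16384)) (T.l 16384)))) (T.c (T.a (T.b (T.l 24576) (T.a (T.l 24576) (T.l 16384))) (T.b (T.a (T.l 24576) (T.l 16384)) (T.l 16384))) (T.a (T.b (T.a (T.l 24576) (T.l 24576)) (T.b (T.a (T.l 24576) (T.l 16384)) (T.l 16384))) (T.b (T.a (T.l 24576) (T.l 16384)) (T.l 16384))))) (T.l 287808)) (T.l 357712))) (T.b (T.b (T.a (T.c (T.a (T.l 24576) (T.b (T.l 0) (T.l 0))) (T.c (T.a (T.l 0) (T.l 0)) (T.a (T.l 0) (T.l 0)))) (T.b (T.c (T.a (T.l 0) (T.l 0)) (T.a (T.l 0) (T.l 0))) (T.l 278528))) (T.l 287808)) (T.l 349520))))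 (T.a (T.a (T.a (T.l 357712) (T.l 349520)) (T.l 349520)) (T.a (T.l 349520) (T.l 349552))))) (T.a (T.b (T.b (T.a (T.a (T.a (T.l 279616) (T.a (T.l 17504) (T.l 17504))) (T.a (T.c (T.l 1120) (T.a (T.a (T.l 1120) (T.l 1120)) (T.c (T.l 96) (T.a (T.a (T.l 96) (T.l 96)) (T.c (T.l 96) (T.b (T.l 0) (T.a (T.l 0) (T.l 0)))))))) (T.c (T.a (T.a (T.l 96) (T.l 96)) (T.c (T.l 96) (T.a (T.l 0) (T.l 0)))) (T.a (T.c (T.a (T.l 96) (T.b (T.l 0) (T.l 0))) (T.b (T.a (T.a (T.l 0) (T.l 0)) (T.a (T.l 0) (T.l 0))) (T.a (T.a (T.l 0) (T.l 0)) (T.a (T.l 0) (T.l 0))))) (T.c (T.a (T.a (T.l 0) (T.l 0)) (T.a (T.l 0) (T.l 0))) (T.a (T.b (T.l 0) (T.l 0)) (T.b (T.l 0) (T.l 0)))))))) (T.a (T.a (T.a (T.b (T.c (T.a (T.l 0) (T.l 0)) (T.c (T.l 0) (T.a (T.l 0) (T.l 0)))) (T.l 1088)) (T.l 17472)) (T.l 279616)) (T.l 283712))) (T.a (T.a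 (T.a (T.l 279648) (T.c (T.l 17504) (T.a (T.l 1120) (T.a (T.l 1120) (T.l 1120))))) (T.a (T.c (T.a (T.l 1088) (T.a (T.l 1120) (T.l 1120))) (T.a (T.c (T.l 1120) (T.a (T.l 1120) (T.c (T.l 96) (T.b (T.l 96) (T.c (T.l 96) (T.a (T.l 96) (T.a (T.l 0) (T.l 0)))))))) (T.c (T.a (T.a (T.l 96) (T.l 96)) (T.b (T.l 96) (T.a (T.l 0) (T.l 0)))) (T.b (T.a (T.c (T.l 96) (T.b (T.l 0) (T.a (T.l 0) (T.l 0)))) (T.c (T.l 0) (T.a (T.l 0) (T.l 0)))) (T.a (T.c (T.a (T.l 0) (T.l 0)) (T.a (T.b (T.l 0) (T.l 0)) (T.a (T.l 0) (T.l 0)))) (T.c (T.a (T.l 0) (T.l 0)) (T.a (T.l 0) (T.l 0)))))))) (T.a (T.b (T.c (T.a (T.l 96) (T.b (T.l 0) (T.l 0))) (T.c (T.a (T.a (T.l 0) (T.l 0)) (T.l 0)) (T.a (T.c (T.l 0) (T.l 0)) (T.a (T.l 0) (T.l 0))))) (T.l 17472)) (T.l 279616)))) (T.a (T.l 349552) (T.l 349520)))) (T.b (T.c (T.a (T.a (T.a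 (T.l 279616) (T.l 279648)) (T.a (T.a (T.a (T.l 17504) (T.l 17504)) (T.b (T.a (T.l 96) (T.l 64)) (T.l 17472))) (T.l 279616))) (T.l 357712)) (T.a (T.a (T.a (T.l 279648) (T.a (T.a (T.l 17504) (T.l 17504)) (T.c (T.l 1120) (T.a (T.l 1120) (T.b (T.l 1120) (T.c (T.l 96) (T.a (T.l 96) (T.b (T.l 96) (T.c (T.l 96) (T.a (T.b (T.l 96) (T.a (T.l 0) (T.l 0))) (T.b (T.l 0) (T.l 0)))))))))))) (T.a (T.a (T.c (T.b (T.a (T.l 96) (T.a (T.l 96) (T.l 96))) (T.a (T.a (T.l 96) (T.l 96)) (T.l 1088))) (T.b (T.a (T.c (T.l 96) (T.a (T.l 96) (T.b (T.l 96) (T.a (T.l 96) (T.b (T.l 0) (T.l 0)))))) (T.c (T.a (T.b (T.l 0) (T.l 0)) (T.a (T.l 0) (T.l 0))) (T.a (T.b (T.a (T.l 0) (T.l 0)) (T.a (T.l 0) (T.l 0))) (T.b (T.l 0) (T.l 0))))) (T.a (T.c (T.b (T.a (T.l 96) (T.l 96)) (T.a (T.l 96) (T.l 64))) (T.a (T.b (T.a (T.l 96) (T.b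 (T.l 0) (T.l 0))) (T.b (T.c (T.l 0) (T.a (T.l 0) (T.l 0))) (T.l 64))) (T.b (T.c (T.l 0) (T.a (T.l 0) (T.l 0))) (T.l 64)))) (T.l 1088)))) (T.b (T.a (T.b (T.c (T.a (T.l 0) (T.l 0)) (T.a (T.b (T.l 0) (T.l 0)) (T.l 64))) (T.l 1088)) (T.l 1088)) (T.l 17472))) (T.l 279616))) (T.a (T.l 349520) (T.l 4)))) (T.c (T.a (T.a (T.a (T.l 349520) (T.a (T.l 349552) (T.a (T.l 349552) (T.l 349552)))) (T.l 349552)) (T.l 357712)) (T.a (T.a (T.a (T.l 349552) (T.a (T.c (T.a (T.l 349520) (T.l 349552)) (T.a (T.l 349552) (T.b (T.l 1120) (T.c (T.a (T.l 349552) (T.l 349552)) (T.b (T.a (T.l 1120) (T.a (T.l 1120) (T.b (T.l 96) (T.l 96)))) (T.a (T.a (T.l 349552) (T.l 349552)) (T.l 349552))))))) (T.c (T.b (T.a (T.l 1120) (T.a (T.l 1120) (T.l 1120))) (T.a (T.l 349552) (T.l 349520))) (T.b (T.a (T.c (T.l 1120) (T.a (T.a (T.l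 1120) (T.l 1120)) (T.b (T.l 96) (T.b (T.a (T.l 96) (T.b (T.l 96) (T.l 64))) (T.l 96))))) (T.b (T.c (T.a (T.l 96) (T.l 96)) (T.a (T.c (T.a (T.l 96) (T.l 96)) (T.a (T.b (T.l 96) (T.a (T.l 96) (T.l 96))) (T.b (T.a (T.l 96) (T.l 0)) (T.l 64)))) (T.b (T.a (T.c (T.l 0) (T.a (T.l 0) (T.l 0))) (T.l 64)) (T.l 64)))) (T.l 1088))) (T.a (T.b (T.a (T.c (T.l 1120) (T.b (T.a (T.l 96) (T.l 96)) (T.l 1120))) (T.l 1120)) (T.l 349552)) (T.l 349520)))))) (T.a (T.l 349552) (T.l 349520))) (T.l 357744))))) (T.l 4))))))))), by decide +kernel⟩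

end Pool.Agent.Strip051.G.I9000_9231.Tab.DG
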