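import Pool.Agent.Strip051.G.I9000_9231.DgP

/-! # The corner (1, 1, 2): certificates of the degenerate charts (generated) -/

set_option linter.all false

namespace Pool.Agent.Strip051.G.I9000_9231.Tab.DG

open Pool.Agent.Strip051.PB Pool.Agent.Strip051.PB.Dg Pool.Agent.StripNear Pool.Agent.Strip051.LC

theorem cFB2 : ∃ t, chk3 (onCell 0 164382475 0 2684354560 966367641 24778659 (fdB true false pF (ndUR ndF2))) t 1 1 1 = true :=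
  ⟨(T.b (T.b (T.b (T.b (T.b (T.l 2) (T.a (T.c (T.b (T.a (T.l 0) (T.l 2)) (T.l 0)) (T.a (T.l 0) (T.l 0))) (T.c (T.l 0) (T.a (T.l 0) (T.l 0))))) (T.b (T.a (T.a (T.l 4) (T.l 8224)) (T.b (T.c (T.l 0) (T.l 0)) (T.l 32))) (T.l 4))) (T.l 4)) (T.l 4)) (T.a (T.l 4) (T.l 4))), by decide +kernel⟩
theorem cFB3 : ∃ t, chk3 (onCell 0 164382475 0 2684354560 966367641 24778659 (fdB true false pF (ndUR ndF3))) t 1 1 1 = true :=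
  ⟨(T.b (T.b (T.a (T.b (T.l 2) (T.b (T.l 2) (T.b (T.l 2) (T.b (T.l 2) (T.b (T.a (T.b (T.l 2) (T.c (T.c (T.a (T.l 0) (T.l 0)) (T.a (T.l 0) (T.l 0))) (T.a (T.c (T.l 0) (T.c (T.l 0) (T.a (T.a (T.l 0) (T.l 0)) (T.l 0)))) (T.l 0)))) (T.l 2)) (T.a (T.b (T.a (T.b (T.l 544) (T.l 544)) (T.b (T.c (T.c (T.a (T.b (T.l 0) (T.l 32)) (T.b (T.l 0) (T.l 32))) (T.a (T.l 0) (T.l 0))) (T.c (T.l 0) (T.l 0))) (T.l 544))) (T.l 544)) (T.b (T.c (T.c (T.a (T.b (T.a (T.l 0) (T.l 0)) (T.a (T.l 32) (T.b (T.l 0) (T.l 32)))) (T.c (T.a (T.l 0) (T.l 0)) (T.l 0))) (T.a (T.c (T.a (T.l 0) (T.l 0)) (T.l 0)) (T.l 0))) (T.c (T.a (T.l 0) (T.l 0)) (T.l 0))) (T.a (T.l 32) (T.b (T.c (T.c (T.c (T.a (T.l 32) (T.l 32)) (T.l 32)) (T.l 32)) (T.l 0)) (T.l 32)))))))))) (T.b (T.l 2) (T.b (T.l 2) (T.b (T.l 2) (T.b (T.l 2) (T.b (T.l 2) (T.a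 (T.b (T.l 2) (T.a (T.b (T.c (T.a (T.b (T.l 0) (T.l 32)) (T.a (T.l 0) (T.l 0))) (T.a (T.l 0) (T.l 0))) (T.c (T.l 32) (T.l 32))) (T.c (T.a (T.c (T.a (T.l 0) (T.l 0)) (T.l 0)) (T.c (T.a (T.l 0) (T.l 0)) (T.l 0))) (T.a (T.l 0) (T.l 0))))) (T.a (T.b (T.l 2) (T.b (T.l 2) (T.a (T.c (T.a (T.l 0) (T.l 0)) (T.l 0)) (T.c (T.a (T.l 0) (T.l 2)) (T.l 0))))) (T.l 2))))))))) (T.a (T.a (T.b (T.b (T.b (T.a (T.l 544) (T.l 544)) (T.l 552)) (T.l 680)) (T.l 4)) (T.b (T.b (T.b (T.b (T.a (T.l 544) (T.l 544)) (T.l 544)) (T.l 174760)) (T.a (T.l 680) (T.l 174760))) (T.l 4))) (T.b (T.c (T.c (T.c (T.c (T.a (T.b (T.b (T.b (T.a (T.l 544) (T.a (T.l 32) (T.l 32))) (T.l 8736)) (T.l 139944)) (T.a (T.l 8872) (T.l 8872))) (T.b (T.b (T.b (T.b (T.a (T.a (T.l 32) (T.b (T.b (T.a (T.l 0) (T.l 0)) (T.l 32)) (T.l 32))) (T.b (T.a (T.b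 (T.l 0) (T.l 32)) (T.a (T.l 0) (T.l 0))) (T.l 32))) (T.l 544)) (T.l 8736)) (T.l 139944)) (T.a (T.l 139944) (T.l 8872)))) (T.a (T.b (T.b (T.b (T.a (T.l 544) (T.a (T.l 32) (T.l 32))) (T.l 8736)) (T.l 139944)) (T.a (T.l 8872) (T.l 8872))) (T.b (T.b (T.b (T.b (T.a (T.a (T.l 32) (T.b (T.a (T.l 32) (T.l 0)) (T.l 32))) (T.b (T.a (T.a (T.l 0) (T.l 0)) (T.l 0)) (T.l 32))) (T.l 544)) (T.l 8736)) (T.l 139944)) (T.a (T.l 139944) (T.l 139944))))) (T.c (T.a (T.b (T.b (T.b (T.a (T.l 544) (T.a (T.l 32) (T.l 32))) (T.l 8736)) (T.l 139944)) (T.a (T.l 8872) (T.l 8872))) (T.b (T.b (T.b (T.b (T.a (T.a (T.l 32) (T.b (T.a (T.l 0) (T.l 0)) (T.l 32))) (T.b (T.a (T.l 0) (T.l 0)) (T.l 32))) (T.l 544)) (T.l 8736)) (T.l 139944)) (T.a (T.l 139944) (T.l 139944)))) (T.a (T.b (T.b (T.b (T.a (T.l 544) (T.a (T.l 32) (T.l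 32))) (T.l 8736)) (T.l 139944)) (T.a (T.l 8872) (T.l 139944))) (T.b (T.b (T.b (T.b (T.a (T.a (T.l 32) (T.b (T.l 0) (T.l 32))) (T.b (T.a (T.l 0) (T.l 0)) (T.l 32))) (T.l 544)) (T.l 8736)) (T.l 139944)) (T.a (T.l 139944) (T.l 139944)))))) (T.c (T.c (T.a (T.b (T.b (T.b (T.a (T.l 544) (T.a (T.l 32) (T.l 32))) (T.l 8736)) (T.l 139944)) (T.a (T.l 8872) (T.l 139944))) (T.b (T.b (T.b (T.b (T.a (T.a (T.l 32) (T.b (T.l 0) (T.l 32))) (T.b (T.a (T.l 0) (T.l 0)) (T.l 32))) (T.l 544)) (T.l 8736)) (T.l 139944)) (T.a (T.l 139944) (T.l 139944)))) (T.a (T.b (T.b (T.b (T.a (T.l 544) (T.a (T.l 32) (T.l 32))) (T.l 8736)) (T.l 139944)) (T.a (T.l 8872) (T.l 139944))) (T.b (T.b (T.b (T.b (T.a (T.a (T.l 32) (T.b (T.l 0) (T.l 32))) (T.b (T.a (T.l 0) (T.l 0)) (T.l 32))) (T.l 544)) (T.l 139808)) (T.l 139944)) (T.a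 (T.l 139944) (T.l 139944))))) (T.c (T.a (T.b (T.b (T.b (T.a (T.l 544) (T.a (T.l 32) (T.l 32))) (T.l 139808)) (T.l 139944)) (T.a (T.l 8872) (T.l 139944))) (T.b (T.b (T.b (T.b (T.a (T.a (T.l 32) (T.a (T.l 32) (T.l 0))) (T.b (T.a (T.l 0) (T.l 0)) (T.l 32))) (T.l 8736)) (T.l 139808)) (T.l 139944)) (T.a (T.l 139944) (T.l 139944)))) (T.a (T.b (T.b (T.b (T.a (T.l 544) (T.a (T.l 32) (T.l 32))) (T.l 139808)) (T.l 139944)) (T.a (T.l 139944) (T.l 139944))) (T.b (T.b (T.b (T.b (T.a (T.a (T.l 32) (T.a (T.l 0) (T.l 0))) (T.a (T.l 0) (T.l 0))) (T.l 8736)) (T.l 139808)) (T.a (T.l 552) (T.l 552))) (T.a (T.l 141992) (T.l 139944))))))) (T.c (T.c (T.c (T.a (T.b (T.b (T.b (T.a (T.l 544) (T.a (T.l 32) (T.l 32))) (T.l 139808)) (T.l 139944)) (T.a (T.l 139944) (T.l 139944))) (T.b (T.b (T.b (T.b (T.a (T.a (T.l 32)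 (T.a (T.l 0) (T.l 0))) (T.a (T.l 0) (T.l 0))) (T.l 8736)) (T.l 139816)) (T.a (T.l 552) (T.l 552))) (T.a (T.l 141992) (T.l 141992)))) (T.a (T.b (T.b (T.b (T.a (T.l 544) (T.a (T.l 32) (T.l 32))) (T.l 139808)) (T.l 139944)) (T.a (T.l 139944) (T.l 139944))) (T.b (T.b (T.b (T.b (T.a (T.a (T.l 0) (T.l 0)) (T.a (T.l 0) (T.l 0))) (T.l 8736)) (T.l 139816)) (T.a (T.l 680) (T.l 552))) (T.a (T.l 174760) (T.l 141992))))) (T.c (T.a (T.b (T.b (T.b (T.a (T.l 544) (T.l 544)) (T.l 139808)) (T.l 139944)) (T.a (T.l 139944) (T.l 139944))) (T.b (T.b (T.b (T.b (T.a (T.a (T.l 0) (T.l 0)) (T.a (T.l 0) (T.l 0))) (T.l 8736)) (T.l 139816)) (T.a (T.l 680) (T.l 8744))) (T.a (T.l 174760) (T.l 141992)))) (T.a (T.b (T.b (T.b (T.a (T.l 544) (T.l 544)) (T.l 139808)) (T.l 141992)) (T.a (T.l 139944) (T.l 139944))) (T.b (T.b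 (T.b (T.b (T.a (T.a (T.l 0) (T.l 0)) (T.a (T.l 0) (T.l 0))) (T.l 8736)) (T.l 139816)) (T.a (T.l 8872) (T.l 8744))) (T.a (T.l 174760) (T.l 174760)))))) (T.c (T.c (T.a (T.b (T.b (T.b (T.a (T.l 544) (T.l 544)) (T.l 139808)) (T.l 141992)) (T.a (T.l 139944) (T.l 139944))) (T.b (T.b (T.b (T.b (T.a (T.a (T.l 0) (T.l 0)) (T.a (T.l 0) (T.l 0))) (T.l 8736)) (T.a (T.l 544) (T.l 544))) (T.a (T.l 8872) (T.l 8744))) (T.a (T.l 174760) (T.l 174760)))) (T.a (T.b (T.b (T.b (T.a (T.l 544) (T.l 544)) (T.l 139816)) (T.l 141992)) (T.a (T.l 139944) (T.l 141992))) (T.b (T.b (T.b (T.b (T.a (T.a (T.l 0) (T.l 0)) (T.a (T.l 0) (T.l 0))) (T.l 139808)) (T.a (T.l 544) (T.l 544))) (T.a (T.l 8872) (T.l 8744))) (T.a (T.l 174760) (T.l 174760))))) (T.c (T.a (T.b (T.b (T.b (T.a (T.l 544) (T.l 544)) (T.l 139816)) (T.l 174760))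 (T.a (T.l 139944) (T.l 141992))) (T.b (T.b (T.b (T.b (T.a (T.a (T.l 0) (T.l 0)) (T.a (T.l 0) (T.l 0))) (T.l 139808)) (T.a (T.l 544) (T.l 544))) (T.a (T.l 8872) (T.l 8744))) (T.a (T.l 174760) (T.l 174760)))) (T.a (T.b (T.b (T.b (T.a (T.l 544) (T.l 544)) (T.l 139816)) (T.l 174760)) (T.a (T.l 139944) (T.l 141992))) (T.b (T.b (T.b (T.b (T.a (T.a (T.l 0) (T.l 0)) (T.a (T.l 0) (T.l 0))) (T.l 139808)) (T.a (T.l 544) (T.l 544))) (T.a (T.l 8872) (T.l 139816))) (T.a (T.l 174760) (T.l 174760)))))))) (T.l 4)))) (T.b (T.l 4) (T.l 4))), by decide +kernel⟩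
theorem cFB4 : ∃ t, chk3 (onCell 0 164382475 0 2684354560 966367641 24778659 (fdB true true pF (dgSC pF))) t 1 1 1 = true :=
  ⟨(T.b (T.b (T.l 2) (T.a (T.a (T.l 349520) (T.b (T.l 2) (T.l 349520))) (T.b (T.l 2) (T.a (T.a (T.l 349520) (T.a (T.l 349520) (T.l 349520))) (T.a (T.a (T.l 349520) (T.l 349520)) (T.a (T.l 349520) (T.l 6))))))) (T.b (T.a (T.b (T.b (T.a (T.l 174760) (T.a (T.l 174760) (T.l 348880))) (T.l 4)) (T.l 4)) (T.a (T.b (T.b (T.a (T.l 348880) (T.l 349520)) (T.l 4)) (T.l 4)) (T.l 6))) (T.a (T.l 4) (T.l 4)))), by decide +kernel⟩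
theorem cFP2 : ∃ t, chk3 (onCell 0 164382475 0 1073741824 966367641 24778659 (fdP true false pF (ndUR ndF2))) t 1 1 1 = true :=
  ⟨(T.b (T.b (T.b (T.b (T.l 8224) (T.a (T.c (T.b (T.l 8192) (T.a (T.l 0) (T.l 0))) (T.l 0)) (T.l 8224))) (T.b (T.a (T.c (T.a (T.l 2) (T.l 0)) (T.l 0)) (T.c (T.l 0) (T.a (T.l 0) (T.l 0)))) (T.l 2))) (T.l 2)) (T.l 2)), by decide +kernel⟩
theorem cFP3 : ∃ t, chk3 (onCell 0 164382475 0 1073741824 966367641 24778659 (fdP true false pF (ndUR ndF3))) t 1 1 1 = true :=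
  ⟨(T.a (T.a (T.b (T.l 139808) (T.b (T.b (T.b (T.l 544) (T.b (T.l 544) (T.c (T.c (T.a (T.b (T.c (T.a (T.b (T.l 0) (T.a (T.l 2) (T.b (T.l 0) (T.l 2)))) (T.b (T.l 0) (T.c (T.a (T.b (T.l 0) (T.l 2)) (T.b (T.l 0) (T.l 2))) (T.a (T.b (T.l 0) (T.l 2)) (T.l 0))))) (T.a (T.b (T.l 0) (T.a (T.l 2) (T.b (T.l 0) (T.l 2)))) (T.b (T.l 0) (T.a (T.l 0) (T.l 0))))) (T.l 2)) (T.b (T.c (T.a (T.b (T.l 0) (T.a (T.a (T.l 0) (T.l 0)) (T.l 0))) (T.l 0)) (T.a (T.l 0) (T.l 0))) (T.l 2))) (T.a (T.b (T.a (T.b (T.l 0) (T.a (T.l 2) (T.b (T.l 0) (T.l 2)))) (T.c (T.a (T.l 0) (T.l 0)) (T.l 0))) (T.l 2)) (T.b (T.a (T.l 0) (T.l 0)) (T.l 2)))) (T.a (T.b (T.c (T.a (T.b (T.l 0) (T.a (T.l 2) (T.a (T.l 2) (T.l 0)))) (T.a (T.l 0) (T.l 0))) (T.a (T.b (T.l 0) (T.a (T.l 2) (T.a (T.l 2) (T.l 0)))) (T.l 0))) (T.l 2)) (T.b (T.c (T.l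 0) (T.l 0)) (T.l 2)))))) (T.l 2)) (T.l 2))) (T.b (T.l 139808) (T.b (T.b (T.b (T.l 8224) (T.b (T.l 32) (T.c (T.c (T.a (T.b (T.a (T.l 0) (T.l 0)) (T.a (T.a (T.l 2) (T.a (T.l 2) (T.a (T.l 2) (T.b (T.b (T.c (T.l 0) (T.l 0)) (T.l 2)) (T.l 2))))) (T.b (T.c (T.c (T.a (T.b (T.l 0) (T.l 2)) (T.b (T.l 0) (T.l 2))) (T.a (T.b (T.l 0) (T.l 2)) (T.b (T.l 0) (T.l 2)))) (T.c (T.a (T.b (T.l 0) (T.l 2)) (T.l 0)) (T.l 0))) (T.l 2)))) (T.b (T.l 0) (T.c (T.a (T.b (T.c (T.a (T.b (T.l 0) (T.l 2)) (T.l 0)) (T.l 0)) (T.l 2)) (T.b (T.l 0) (T.l 2))) (T.a (T.b (T.l 0) (T.l 2)) (T.b (T.l 0) (T.l 2)))))) (T.a (T.b (T.l 0) (T.a (T.b (T.a (T.l 2) (T.a (T.l 2) (T.l 0))) (T.l 2)) (T.b (T.l 0) (T.l 2)))) (T.b (T.l 0) (T.a (T.b (T.l 0) (T.l 2)) (T.b (T.l 0) (T.l 2)))))) (T.a (T.b (T.l 0) (T.a (T.b (T.a (T.l 2) (T.l 0)) (T.l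 2)) (T.b (T.l 0) (T.l 2)))) (T.c (T.b (T.l 0) (T.a (T.l 0) (T.l 0))) (T.l 0)))))) (T.l 2)) (T.l 2)))) (T.b (T.a (T.a (T.l 139808) (T.l 174624)) (T.b (T.l 139264) (T.l 174760))) (T.c (T.b (T.b (T.a (T.b (T.l 139808) (T.b (T.l 139808) (T.a (T.b (T.l 32) (T.a (T.b (T.a (T.l 0) (T.l 0)) (T.l 2)) (T.c (T.c (T.a (T.b (T.l 0) (T.b (T.l 0) (T.l 2))) (T.l 0)) (T.l 0)) (T.l 0)))) (T.b (T.l 32) (T.a (T.c (T.a (T.a (T.l 0) (T.l 0)) (T.l 0)) (T.l 0)) (T.c (T.a (T.l 0) (T.l 0)) (T.l 0))))))) (T.b (T.l 139296) (T.b (T.l 139808) (T.a (T.b (T.l 32) (T.a (T.c (T.a (T.l 0) (T.l 0)) (T.l 0)) (T.a (T.l 0) (T.l 0)))) (T.a (T.l 32) (T.l 32)))))) (T.a (T.l 2) (T.b (T.b (T.a (T.a (T.l 2) (T.b (T.b (T.c (T.c (T.a (T.b (T.l 0) (T.l 2)) (T.a (T.l 0) (T.l 0))) (T.l 0)) (T.l 0)) (T.l 2)) (T.l 2))) (T.b (T.a (T.b (T.c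 (T.a (T.a (T.l 0) (T.l 0)) (T.l 0)) (T.l 0)) (T.l 2)) (T.b (T.c (T.a (T.l 0) (T.l 0)) (T.l 0)) (T.l 2))) (T.l 2))) (T.l 2)) (T.l 2)))) (T.l 2)) (T.b (T.b (T.a (T.b (T.l 139808) (T.b (T.l 139808) (T.a (T.a (T.l 0) (T.l 0)) (T.a (T.l 0) (T.l 0))))) (T.b (T.l 139808) (T.b (T.l 139808) (T.a (T.a (T.l 0) (T.l 0)) (T.a (T.l 0) (T.l 0)))))) (T.a (T.l 2) (T.b (T.b (T.a (T.a (T.l 2) (T.b (T.a (T.l 0) (T.l 0)) (T.l 2))) (T.b (T.a (T.a (T.l 0) (T.l 0)) (T.a (T.l 0) (T.l 0))) (T.l 2))) (T.l 2)) (T.l 2)))) (T.l 2))))), by decide +kernel⟩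
theorem cFP4 : ∃ t, chk3 (onCell 0 164382475 0 1073741824 966367641 24778659 (fdP true true pF (dgSC pF))) t 1 1 1 = true :=
  ⟨(T.a (T.a (T.l 349520) (T.l 349520)) (T.b (T.l 349520) (T.a (T.l 349520) (T.l 349520)))), by decide +kernel⟩
theorem cFC1 : ∃ t, chk3 (onCell 0 164382475 0 1073741824 966367641 24778659 (fdU pF ndF1 (thLo (ndUL pF ndF1) (ndUR ndF2)) cvF1 (ndUR ndF2))) t 1 1 1 = true :=
  ⟨(T.b (T.b (T.b (T.b (T.a (T.b (T.b (T.c (T.a (T.l 0) (T.l 0)) (T.l 0)) (T.l 8224)) (T.l 8224)) (T.b (T.b (T.a (T.c (T.l 0) (T.l 0)) (T.c (T.l 0) (T.l 0))) (T.l 8224)) (T.l 8224))) (T.l 1)) (T.l 1)) (T.l 1)) (T.l 1)), by decide +kernel⟩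

end Pool.Agent.Strip051.G.I9000_9231.Tab.DG
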