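import Pool.Agent.Strip051.G.I9000_9231.DgP

/-! # The corner (1, 1, 2): certificates of the degenerate charts (generated) -/

set_option linter.all false

namespace Pool.Agent.Strip051.G.I9000_9231.Tab.DG

open Pool.Agent.Strip051.PB Pool.Agent.Strip051.PB.Dg Pool.Agent.StripNear Pool.Agent.Strip051.LC

theorem cNC1 : ∃ t, chk3 (onCell 0 164382475 0 1073741824 966367641 24778659 (fdCW pN qN ndN1 (thLo (ndUL pN ndN1) (ndUR ndN2)) (tuLo (ndUL pN ndN1) (ndUR ndN2) (suL qN ndN1) (suR ndN2)) cvN1 cFsDD1 (ndUR ndN2))) t 1 1 1 = true :=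
  ⟨(T.b (T.b (T.b (T.b (T.a (T.b (T.b (T.b (T.a (T.b (T.c (T.a (T.l 0) (T.l 0)) (T.c (T.l 0) (T.c (T.l 0) (T.a (T.l 0) (T.l 0))))) (T.l 8224)) (T.b (T.c (T.l 0) (T.c (T.l 0) (T.c (T.l 0) (T.a (T.l 0) (T.l 0))))) (T.l 8224))) (T.l 8224)) (T.l 8224)) (T.l 8224)) (T.b (T.b (T.a (T.b (T.c (T.l 0) (T.c (T.l 0) (T.c (T.l 0) (T.b (T.a (T.a (T.l 0) (T.l 0)) (T.a (T.l 0) (T.l 0))) (T.l 32))))) (T.l 8224)) (T.b (T.c (T.a (T.l 0) (T.l 0)) (T.b (T.c (T.a (T.l 0) (T.l 0)) (T.a (T.c (T.l 0) (T.a (T.l 0) (T.l 0))) (T.c (T.l 0) (T.a (T.l 0) (T.l 0))))) (T.l 8224))) (T.l 8224))) (T.a (T.l 8224) (T.l 8224))) (T.l 8224))) (T.l 1)) (T.l 1)) (T.l 1)) (T.l 1)), by decide +kernel⟩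

end Pool.Agent.Strip051.G.I9000_9231.Tab.DG
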