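import Pool.Agent.Strip051.PB.Cuts
import Pool.Agent.Strip051.PB.WinF

/-! # Tables I9000_9231 (generated) -/

namespace Pool.Agent.Strip051.G.I9000_9231.Tab

open Pool.Agent.Strip051.PB

noncomputable def c1g : Fn1 := ⟨_, _, fun h1 => (enc_sqrtg (enc_sub (enc_pnc _ 1) (enc_scaleT 3 4 (enc_sq h1))))⟩
noncomputable def kcg_3 : Fn2 := ⟨_, _, fun h1 h2 => (enc_subr 237 260 h2)⟩
noncomputable def kcg_6 : Fn2 := ⟨_, _, fun h1 h2 => (enc_add h1 (enc_rat _ 31 100))⟩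
noncomputable def kcg_9 : Fn2 := ⟨_, _, fun h1 h2 => (enc_add h1 (enc_rat _ 9 20))⟩
noncomputable def kcg_12 : Fn2 := ⟨_, _, fun h1 h2 => (enc_add h1 (enc_rat _ 93 200))⟩
noncomputable def kcg_13 : Fn2 := ⟨_, _, fun h1 h2 => (enc_scaleT 45198779 7000000 h1)⟩
noncomputable def kcg_18 : Fn2 := ⟨_, _, fun h1 h2 => (enc_scaleT 270728379 3500000 h1)⟩
noncomputable def kcg_27 : Fn2 := ⟨_, _, fun h1 h2 => (enc_subr 34641 400 (enc_scaleT 3 200 (kcg_3.enc h1 h2)))⟩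
noncomputable def kcg_35 : Fn2 := ⟨_, _, fun h1 h2 => (enc_scaleT 6342621 2500000 h1)⟩
noncomputable def kcg_40 : Fn2 := ⟨_, _, fun h1 h2 => (enc_scaleT 31588223 1500000 h1)⟩
noncomputable def kcg_49 : Fn2 := ⟨_, _, fun h1 h2 => (enc_subr 118511 2000 (enc_scaleT 150111 40 (kcg_3.enc h1 h2)))⟩
noncomputable def kcg_57 : Fn2 := ⟨_, _, fun h1 h2 => (enc_add h1 (enc_rat _ 107 254))⟩
noncomputable def kcg_58 : Fn2 := ⟨_, _, fun h1 h2 => (enc_scaleT 3068750657 3650000000 h1)⟩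
noncomputable def kcg_62 : Fn2 := ⟨_, _, fun h1 h2 => (enc_scaleT 14138962451 365000000 h1)⟩
noncomputable def kcg_71 : Fn2 := ⟨_, _, fun h1 h2 => (enc_subr 34641 400 (enc_neg (enc_scaleT 128687 50 (kcg_3.enc h1 h2))))⟩
noncomputable def kcg_78 : Fn2 := ⟨_, _, fun h1 h2 => (enc_add h1 (enc_rat _ 61 182))⟩
noncomputable def kcg_79 : Fn2 := ⟨_, _, fun h1 h2 => (enc_scaleT 3902874748591 995000000000 h1)⟩
noncomputable def kcg_82 : Fn2 := ⟨_, _, fun h1 h2 => (enc_scaleT 2860641813757 99500000000 h1)⟩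
noncomputable def kcg_91 : Fn2 := ⟨_, _, fun h1 h2 => (enc_subr 1377 200 (enc_scaleT 24379 25 (kcg_3.enc h1 h2)))⟩
noncomputable def kcg_96 : Fn2 := ⟨_, _, fun h1 h2 => (enc_scaleT 75842039 17890625 h1)⟩
noncomputable def kcg_99 : Fn2 := ⟨_, _, fun h1 h2 => (enc_scaleT 6321215173 114500000 h1)⟩
noncomputable def kcg_109 : Fn2 := ⟨_, _, fun h1 h2 => (enc_add (enc_scaleT 7 200 (kcg_3.enc h1 h2)) (enc_rat _ 21939 2000))⟩
noncomputable def kcg_119 : Fn2 := ⟨_, _, fun h1 h2 => (enc_add h1 (enc_rat _ 6 25))⟩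
noncomputable def kcg_122 : Fn2 := ⟨_, _, fun h1 h2 => (enc_add h1 (enc_rat _ 7 25))⟩
noncomputable def kcg_123 : Fn2 := ⟨_, _, fun h1 h2 => (enc_scaleT 145363 40000 h1)⟩
noncomputable def kcg_126 : Fn2 := ⟨_, _, fun h1 h2 => (enc_scaleT 44167 800 h1)⟩
noncomputable def kcg_135 : Fn2 := ⟨_, _, fun h1 h2 => (enc_add (enc_scaleT 1 40 (kcg_3.enc h1 h2)) (enc_rat _ 21939 2000))⟩
noncomputable def kcg_140 : Fn2 := ⟨_, _, fun h1 h2 => (enc_scaleT 286621 100000 h1)⟩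
noncomputable def kcg_143 : Fn2 := ⟨_, _, fun h1 h2 => (enc_scaleT 110419 2000 h1)⟩
noncomputable def kcg_157 : Fn2 := ⟨_, _, fun h1 h2 => (enc_add h1 (enc_rat _ 4 25))⟩
noncomputable def kcg_158 : Fn2 := ⟨_, _, fun h1 h2 => (enc_scaleT 242743 100000 h1)⟩
noncomputable def kcg_162 : Fn2 := ⟨_, _, fun h1 h2 => (enc_scaleT 364823 10000 h1)⟩
noncomputable def kcg_171 : Fn2 := ⟨_, _, fun h1 h2 => (enc_scaleT 23409 100 (kcg_3.enc h1 h2))⟩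
noncomputable def kcg_181 : Fn2 := ⟨_, _, fun h1 h2 => (enc_scaleT 246079 100000 h1)⟩
noncomputable def kcg_185 : Fn2 := ⟨_, _, fun h1 h2 => (enc_scaleT 186121 10000 h1)⟩
noncomputable def kcg_197 : Fn2 := ⟨_, _, fun h1 h2 => (enc_subr 417 1000 (enc_neg (enc_scaleT 45459 100 (kcg_3.enc h1 h2))))⟩
noncomputable def kcg_202 : Fn2 := ⟨_, _, fun h1 h2 => (enc_scaleT 49883 20000 h1)⟩
noncomputable def kcg_205 : Fn2 := ⟨_, _, fun h1 h2 => (enc_mul (enc_norm (kcg_3.enc h1 h2)) (enc_scaleT 549793 10000 h1))⟩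
noncomputable def kcg_212 : Fn2 := ⟨_, _, fun h1 h2 => (enc_sub (enc_rat _ 31 100) h1)⟩
noncomputable def kcg_213 : Fn2 := ⟨_, _, fun h1 h2 => (enc_sub (enc_rat _ 9 20) h1)⟩
noncomputable def kcg_214 : Fn2 := ⟨_, _, fun h1 h2 => (enc_sub (enc_rat _ 93 200) h1)⟩
noncomputable def kcg_235 : Fn2 := ⟨_, _, fun h1 h2 => (enc_sub (enc_rat _ 107 254) h1)⟩
noncomputable def kcg_246 : Fn2 := ⟨_, _, fun h1 h2 => (enc_sub (enc_rat _ 61 182) h1)⟩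
noncomputable def kcg_269 : Fn2 := ⟨_, _, fun h1 h2 => (enc_sub (enc_rat _ 6 25) h1)⟩
noncomputable def kcg_270 : Fn2 := ⟨_, _, fun h1 h2 => (enc_sub (enc_rat _ 7 25) h1)⟩
noncomputable def kcg_290 : Fn2 := ⟨_, _, fun h1 h2 => (enc_sub (enc_rat _ 4 25) h1)⟩
noncomputable def kcg : Fn2 := ⟨_, _, fun h1 h2 => (enc_norm (enc_case h1 (enc_case (kcg_6.enc h1 h2) (enc_case (kcg_9.enc h1 h2) (enc_case (kcg_12.enc h1 h2) (enc_add (enc_add (enc_subr 5946141193 1400000000 (enc_neg (kcg_13.enc h1 h2))) (enc_mul (enc_norm (kcg_3.enc h1 h2)) (enc_norm (enc_add (kcg_18.enc h1 h2) (enc_rat _ 1202213569 35000000))))) (enc_mul (enc_norm (kcg_27.enc h1 h2)) (enc_norm (enc_mul (enc_norm (enc_add h1 (enc_rat _ 1 2))) (enc_norm (enc_sub (enc_neg (enc_rat _ 93 200)) h1)))))) (enc_add (enc_add (enc_subr 18941257 7812500 (enc_neg (kcg_35.enc h1 h2))) (enc_mul (enc_norm (kcg_3.enc h1 h2))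 (enc_norm (enc_add (kcg_40.enc h1 h2) (enc_rat _ 204327733 25000000))))) (enc_mul (enc_norm (kcg_49.enc h1 h2)) (enc_norm (enc_mul (enc_norm (kcg_12.enc h1 h2)) (enc_norm (enc_sub (enc_neg (enc_rat _ 9 20)) h1))))))) (enc_case (kcg_57.enc h1 h2) (enc_add (enc_add (enc_subr 13205261911 14600000000 (kcg_58.enc h1 h2)) (enc_mul (enc_norm (kcg_3.enc h1 h2)) (enc_norm (enc_add (kcg_62.enc h1 h2) (enc_rat _ 4709446069 292000000))))) (enc_mul (enc_norm (kcg_71.enc h1 h2)) (enc_norm (enc_mul (enc_norm (kcg_9.enc h1 h2)) (enc_norm (enc_sub (enc_neg (enc_rat _ 107 254)) h1)))))) (enc_case (kcg_78.enc h1 h2) (enc_add (enc_add (enc_add (kcg_79.enc h1 h2) (enc_rat _ 783543811181 1990000000000)) (enc_mul (enc_norm (kcg_3.enc h1 h2)) (enc_norm (enc_add (kcg_82.enc h1 h2) (enc_rat _ 2372326403387 199000000000))))) (enc_mul (enc_norm (kcg_91.enc h1 h2)) (enc_norm (enc_mul (enc_norm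 (kcg_57.enc h1 h2)) (enc_norm (enc_sub (enc_neg (enc_rat _ 61 182)) h1)))))) (enc_add (enc_add (enc_add (kcg_96.enc h1 h2) (enc_rat _ 57237806751 114500000000)) (enc_mul (enc_norm (kcg_3.enc h1 h2)) (enc_norm (enc_subr 92849724669 5725000000 (enc_neg (kcg_99.enc h1 h2)))))) (enc_mul (enc_norm (kcg_109.enc h1 h2)) (enc_norm (enc_mul (enc_norm (kcg_78.enc h1 h2)) (enc_norm (enc_sub (enc_neg (enc_rat _ 31 100)) h1))))))))) (enc_case (kcg_119.enc h1 h2) (enc_case (kcg_122.enc h1 h2) (enc_add (enc_add (enc_add (kcg_123.enc h1 h2) (enc_rat _ 312303 1000000)) (enc_mul (enc_norm (kcg_3.enc h1 h2)) (enc_norm (enc_subr 8109399 500000 (enc_neg (kcg_126.enc h1 h2)))))) (enc_mul (enc_norm (kcg_135.enc h1 h2)) (enc_norm (enc_mul (enc_norm (kcg_6.enc h1 h2)) (enc_norm (enc_sub (enc_neg (enc_rat _ 7 25)) h1)))))) (enc_add (enc_add (enc_add (kcg_140.enc h1 h2) (enc_rat _ 60813 625000))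 (enc_mul (enc_norm (kcg_3.enc h1 h2)) (enc_norm (enc_subr 253422 15625 (enc_neg (kcg_143.enc h1 h2)))))) (enc_scaleT 21939 2000 (enc_mul (enc_norm (kcg_122.enc h1 h2)) (enc_norm (enc_sub (enc_neg (enc_rat _ 6 25)) h1)))))) (enc_case (kcg_157.enc h1 h2) (enc_sub (enc_add (enc_subr 1251 156250 (kcg_158.enc h1 h2)) (enc_mul (enc_norm (kcg_3.enc h1 h2)) (enc_norm (enc_subr 36639 3125 (enc_neg (kcg_162.enc h1 h2)))))) (enc_mul (enc_norm (kcg_171.enc h1 h2)) (enc_norm (enc_mul (enc_norm (kcg_119.enc h1 h2)) (enc_norm (enc_sub (enc_neg (enc_rat _ 4 25)) h1)))))) (enc_case (enc_add h1 (enc_rat _ 2 25)) (enc_add (enc_add (enc_subr 417 156250 (kcg_181.enc h1 h2)) (enc_mul (enc_norm (kcg_3.enc h1 h2)) (enc_norm (enc_subr 45459 15625 (kcg_185.enc h1 h2))))) (enc_mul (enc_norm (kcg_197.enc h1 h2)) (enc_norm (enc_mul (enc_norm (kcg_157.enc h1 h2)) (enc_norm (enc_sub (enc_neg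 (enc_rat _ 2 25)) h1)))))) (enc_add (kcg_202.enc h1 h2) (kcg_205.enc h1 h2)))))) (enc_neg (enc_case (kcg_212.enc h1 h2) (enc_case (kcg_213.enc h1 h2) (enc_case (kcg_214.enc h1 h2) (enc_add (enc_add (enc_subr 5946141193 1400000000 (kcg_13.enc h1 h2)) (enc_mul (enc_norm (kcg_3.enc h1 h2)) (enc_norm (enc_sub (enc_rat _ 1202213569 35000000) (kcg_18.enc h1 h2))))) (enc_mul (enc_norm (kcg_27.enc h1 h2)) (enc_norm (enc_mul (enc_norm (enc_sub (enc_rat _ 1 2) h1)) (enc_norm (enc_subr 93 200 h1)))))) (enc_add (enc_add (enc_subr 18941257 7812500 (kcg_35.enc h1 h2)) (enc_mul (enc_norm (kcg_3.enc h1 h2)) (enc_norm (enc_sub (enc_rat _ 204327733 25000000) (kcg_40.enc h1 h2))))) (enc_mul (enc_norm (kcg_49.enc h1 h2)) (enc_norm (enc_mul (enc_norm (kcg_214.enc h1 h2)) (enc_norm (enc_subr 9 20 h1))))))) (enc_case (kcg_235.enc h1 h2) (enc_add (enc_add (enc_subr 13205261911 14600000000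 (enc_neg (kcg_58.enc h1 h2))) (enc_mul (enc_norm (kcg_3.enc h1 h2)) (enc_norm (enc_sub (enc_rat _ 4709446069 292000000) (kcg_62.enc h1 h2))))) (enc_mul (enc_norm (kcg_71.enc h1 h2)) (enc_norm (enc_mul (enc_norm (kcg_213.enc h1 h2)) (enc_norm (enc_subr 107 254 h1)))))) (enc_case (kcg_246.enc h1 h2) (enc_add (enc_add (enc_sub (enc_rat _ 783543811181 1990000000000) (kcg_79.enc h1 h2)) (enc_mul (enc_norm (kcg_3.enc h1 h2)) (enc_norm (enc_sub (enc_rat _ 2372326403387 199000000000) (kcg_82.enc h1 h2))))) (enc_mul (enc_norm (kcg_91.enc h1 h2)) (enc_norm (enc_mul (enc_norm (kcg_235.enc h1 h2)) (enc_norm (enc_subr 61 182 h1)))))) (enc_add (enc_add (enc_sub (enc_rat _ 57237806751 114500000000) (kcg_96.enc h1 h2)) (enc_mul (enc_norm (kcg_3.enc h1 h2)) (enc_norm (enc_subr 92849724669 5725000000 (kcg_99.enc h1 h2))))) (enc_mul (enc_norm (kcg_109.enc h1 h2)) (enc_norm (enc_mul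 (enc_norm (kcg_246.enc h1 h2)) (enc_norm (enc_subr 31 100 h1))))))))) (enc_case (kcg_269.enc h1 h2) (enc_case (kcg_270.enc h1 h2) (enc_add (enc_add (enc_sub (enc_rat _ 312303 1000000) (kcg_123.enc h1 h2)) (enc_mul (enc_norm (kcg_3.enc h1 h2)) (enc_norm (enc_subr 8109399 500000 (kcg_126.enc h1 h2))))) (enc_mul (enc_norm (kcg_135.enc h1 h2)) (enc_norm (enc_mul (enc_norm (kcg_212.enc h1 h2)) (enc_norm (enc_subr 7 25 h1)))))) (enc_add (enc_add (enc_sub (enc_rat _ 60813 625000) (kcg_140.enc h1 h2)) (enc_mul (enc_norm (kcg_3.enc h1 h2)) (enc_norm (enc_subr 253422 15625 (kcg_143.enc h1 h2))))) (enc_scaleT 21939 2000 (enc_mul (enc_norm (kcg_270.enc h1 h2)) (enc_norm (enc_subr 6 25 h1)))))) (enc_case (kcg_290.enc h1 h2) (enc_sub (enc_add (enc_subr 1251 156250 (enc_neg (kcg_158.enc h1 h2))) (enc_mul (enc_norm (kcg_3.enc h1 h2)) (enc_norm (enc_subr 36639 3125 (kcg_162.enc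 h1 h2))))) (enc_mul (enc_norm (kcg_171.enc h1 h2)) (enc_norm (enc_mul (enc_norm (kcg_269.enc h1 h2)) (enc_norm (enc_subr 4 25 h1)))))) (enc_case (enc_sub (enc_rat _ 2 25) h1) (enc_add (enc_add (enc_subr 417 156250 (enc_neg (kcg_181.enc h1 h2))) (enc_mul (enc_norm (kcg_3.enc h1 h2)) (enc_norm (enc_subr 45459 15625 (enc_neg (kcg_185.enc h1 h2)))))) (enc_mul (enc_norm (kcg_197.enc h1 h2)) (enc_norm (enc_mul (enc_norm (kcg_290.enc h1 h2)) (enc_norm (enc_subr 2 25 h1)))))) (enc_sub (enc_neg (kcg_202.enc h1 h2)) (kcg_205.enc h1 h2)))))))))⟩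
noncomputable def kf0q0_9 : Fn2 := ⟨_, _, fun h1 h2 => (enc_scaleT 3 2 h1)⟩
noncomputable def kf0q0_12 : Fn2 := ⟨_, _, fun h1 h2 => (enc_add (enc_pnc _ 1) (c1g.enc h1))⟩
noncomputable def kf0q0 : Fn2 := ⟨_, _, fun h1 h2 => (enc_norm (enc_add (enc_mul (enc_norm (enc_mul (enc_norm (enc_sub (c1g.enc h1) (kf0q0_9.enc h1 h2))) (enc_norm (kf0q0_12.enc h1 h2)))) (enc_inv (enc_sub (kf0q0_12.enc h1 h2) (kf0q0_9.enc h1 h2)))) (enc_mul h1 (kcg.enc (enc_norm (enc_sub (enc_scaleT 3 4 h1) (enc_half (c1g.enc h1)))) h2))))⟩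
noncomputable def txg_4 : Fn3 := ⟨_, _, fun h1 h2 h3 => (enc_subr 237 260 h3)⟩
noncomputable def txg_6 : Fn3 := ⟨_, _, fun h1 h2 h3 => (enc_add h1 (enc_half h2))⟩
noncomputable def txg_26 : Fn3 := ⟨_, _, fun h1 h2 h3 => (enc_add h1 (enc_rat _ 1 4))⟩
noncomputable def txg_29 : Fn3 := ⟨_, _, fun h1 h2 h3 => (enc_add h1 (enc_rat _ 39 100))⟩
noncomputable def txg_32 : Fn3 := ⟨_, _, fun h1 h2 h3 => (enc_add h1 (enc_rat _ 9 20))⟩
noncomputable def txg_35 : Fn3 := ⟨_, _, fun h1 h2 h3 => (enc_add h1 (enc_rat _ 47 100))⟩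
noncomputable def txg_80 : Fn3 := ⟨_, _, fun h1 h2 h3 => (enc_add h1 (enc_rat _ 21 50))⟩
noncomputable def txg_121 : Fn3 := ⟨_, _, fun h1 h2 h3 => (enc_add h1 (enc_rat _ 33 100))⟩
noncomputable def txg_124 : Fn3 := ⟨_, _, fun h1 h2 h3 => (enc_add h1 (enc_rat _ 9 25))⟩
noncomputable def txg_165 : Fn3 := ⟨_, _, fun h1 h2 h3 => (enc_add h1 (enc_rat _ 3 10))⟩
noncomputable def txg_206 : Fn3 := ⟨_, _, fun h1 h2 h3 => (enc_subr 1 10 h1)⟩
noncomputable def txg_209 : Fn3 := ⟨_, _, fun h1 h2 h3 => (enc_add h1 (enc_rat _ 3 20))⟩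
noncomputable def txg_212 : Fn3 := ⟨_, _, fun h1 h2 h3 => (enc_add h1 (enc_rat _ 1 5))⟩
noncomputable def txg_247 : Fn3 := ⟨_, _, fun h1 h2 h3 => (enc_add h1 (enc_rat _ 1 10))⟩
noncomputable def txg_282 : Fn3 := ⟨_, _, fun h1 h2 h3 => (enc_subr 1 5 h1)⟩
noncomputable def txg_283 : Fn3 := ⟨_, _, fun h1 h2 h3 => (enc_subr 3 20 h1)⟩
noncomputable def txg_320 : Fn3 := ⟨_, _, fun h1 h2 h3 => (enc_subr 1 4 h1)⟩
noncomputable def txg_339 : Fn3 := ⟨_, _, fun h1 h2 h3 => (enc_subr 3 10 h1)⟩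
noncomputable def txg_370 : Fn3 := ⟨_, _, fun h1 h2 h3 => (enc_sq (enc_norm (txg_4.enc h1 h2 h3)))⟩
noncomputable def txg_391 : Fn3 := ⟨_, _, fun h1 h2 h3 => (enc_subr 107 254 h1)⟩
noncomputable def txg_393 : Fn3 := ⟨_, _, fun h1 h2 h3 => (enc_subr 91 200 h1)⟩
noncomputable def txg_395 : Fn3 := ⟨_, _, fun h1 h2 h3 => (enc_subr 11 25 h1)⟩
noncomputable def txg_446 : Fn3 := ⟨_, _, fun h1 h2 h3 => (enc_subr 47 100 h1)⟩
noncomputable def txg : Fn3 := ⟨_, _, fun h1 h2 h3 => (enc_case (enc_subr 61 182 h1) (enc_case (txg_26.enc h1 h2 h3) (enc_case (txg_29.enc h1 h2 h3) (enc_case (txg_32.enc h1 h2 h3) (enc_case (txg_35.enc h1 h2 h3) (enc_add (enc_add (enc_add (enc_scaleT 35239 100000 h1) (enc_rat _ 35239 200000)) (enc_mul (enc_norm (txg_4.enc h1 h2 h3)) (enc_norm (enc_subr 657 8000 (enc_neg (enc_scaleT 657 4000 h1)))))) (enc_mul (enc_norm (enc_subr 1449 500 (enc_neg (enc_scaleT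 9111 200 (txg_4.enc h1 h2 h3))))) (enc_norm (enc_mul (enc_norm (enc_add h1 (enc_rat _ 1 2))) (enc_norm (enc_sub (enc_neg (enc_rat _ 47 100)) h1)))))) (enc_add (enc_add (enc_add (enc_scaleT 45359 100000 h1) (enc_rat _ 223759 1000000)) (enc_mul (enc_norm (txg_4.enc h1 h2 h3)) (enc_norm (enc_add (enc_scaleT 2339 2000 h1) (enc_rat _ 43579 80000))))) (enc_mul (enc_norm (enc_subr 713 1000 (enc_scaleT 329 200 (txg_4.enc h1 h2 h3)))) (enc_norm (enc_mul (enc_norm (txg_35.enc h1 h2 h3)) (enc_norm (enc_sub (enc_neg (enc_rat _ 9 20)) h1))))))) (enc_case (txg_80.enc h1 h2 h3) (enc_add (enc_add (enc_add (enc_scaleT 5139 12500 h1) (enc_rat _ 81859 400000)) (enc_mul (enc_norm (txg_4.enc h1 h2 h3)) (enc_norm (enc_subr 16337 200000 (enc_neg (enc_scaleT 4451 20000 h1)))))) (enc_mul (enc_norm (enc_add (enc_scaleT 9061 200 (txg_4.enc h1 h2 h3)) (enc_rat _ 1891 1000))) (enc_norm (enc_mul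 (enc_norm (txg_32.enc h1 h2 h3)) (enc_norm (enc_sub (enc_neg (enc_rat _ 21 50)) h1)))))) (enc_add (enc_add (enc_add (enc_scaleT 68937 200000 h1) (enc_rat _ 220931 1250000)) (enc_mul (enc_norm (txg_4.enc h1 h2 h3)) (enc_norm (enc_subr 1217071 1000000 (enc_neg (enc_scaleT 58517 20000 h1)))))) (enc_mul (enc_norm (enc_add (enc_scaleT 8961 200 (txg_4.enc h1 h2 h3)) (enc_rat _ 647 2000))) (enc_norm (enc_mul (enc_norm (txg_80.enc h1 h2 h3)) (enc_norm (enc_sub (enc_neg (enc_rat _ 39 100)) h1)))))))) (enc_case (txg_121.enc h1 h2 h3) (enc_case (txg_124.enc h1 h2 h3) (enc_add (enc_add (enc_add (enc_scaleT 65613 200000 h1) (enc_rat _ 170263 1000000)) (enc_mul (enc_norm (txg_4.enc h1 h2 h3)) (enc_norm (enc_subr 2134819 1000000 (enc_neg (enc_scaleT 105581 20000 h1)))))) (enc_mul (enc_norm (enc_add (enc_scaleT 6727 200 (txg_4.enc h1 h2 h3)) (enc_rat _ 461 2000))) (enc_norm (enc_mul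 (enc_norm (txg_29.enc h1 h2 h3)) (enc_norm (enc_sub (enc_neg (enc_rat _ 9 25)) h1)))))) (enc_add (enc_add (enc_add (enc_scaleT 62847 200000 h1) (enc_rat _ 826421 5000000)) (enc_mul (enc_norm (txg_4.enc h1 h2 h3)) (enc_norm (enc_subr 1955053 1000000 (enc_neg (enc_scaleT 47797 10000 h1)))))) (enc_mul (enc_norm (enc_sub (enc_rat _ 461 2000) (enc_scaleT 1257 25 (txg_4.enc h1 h2 h3)))) (enc_norm (enc_mul (enc_norm (txg_124.enc h1 h2 h3)) (enc_norm (enc_sub (enc_neg (enc_rat _ 33 100)) h1))))))) (enc_case (txg_165.enc h1 h2 h3) (enc_add (enc_add (enc_add (enc_scaleT 77379 200000 h1) (enc_rat _ 94631 500000)) (enc_mul (enc_norm (txg_4.enc h1 h2 h3)) (enc_norm (enc_add (enc_scaleT 33823 20000 h1) (enc_rat _ 72131 400000))))) (enc_mul (enc_norm (enc_subr 1061 400 (enc_neg (enc_scaleT 33083 200 (txg_4.enc h1 h2 h3))))) (enc_norm (enc_mul (enc_norm (txg_121.enc h1 h2 h3))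 (enc_norm (enc_sub (enc_neg (enc_rat _ 3 10)) h1)))))) (enc_add (enc_add (enc_add (enc_scaleT 110889 200000 h1) (enc_rat _ 239527 1000000)) (enc_mul (enc_norm (txg_4.enc h1 h2 h3)) (enc_norm (enc_add (enc_scaleT 133037 20000 h1) (enc_rat _ 133483 80000))))) (enc_mul (enc_norm (enc_subr 3519 2000 (enc_scaleT 7 200 (txg_4.enc h1 h2 h3)))) (enc_norm (enc_mul (enc_norm (txg_165.enc h1 h2 h3)) (enc_norm (enc_sub (enc_neg (enc_rat _ 1 4)) h1))))))))) (enc_case (txg_206.enc h1 h2 h3) (enc_case (txg_209.enc h1 h2 h3) (enc_case (txg_212.enc h1 h2 h3) (enc_add (enc_add (enc_add (enc_scaleT 128479 200000 h1) (enc_rat _ 523029 2000000)) (enc_mul (enc_norm (txg_4.enc h1 h2 h3)) (enc_norm (enc_add (enc_scaleT 7557 1250 h1) (enc_rat _ 60679 40000))))) (enc_mul (enc_norm (enc_add (enc_scaleT 1209 100 (txg_4.enc h1 h2 h3)) (enc_rat _ 1 2000))) (enc_norm (enc_mul (enc_norm (txg_26.enc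 h1 h2 h3)) (enc_norm (enc_sub (enc_neg (enc_rat _ 1 5)) h1)))))) (enc_add (enc_add (enc_add (enc_scaleT 123579 200000 h1) (enc_rat _ 513229 2000000)) (enc_mul (enc_norm (txg_4.enc h1 h2 h3)) (enc_norm (enc_add (enc_scaleT 95517 20000 h1) (enc_rat _ 50521 40000))))) (enc_mul (enc_norm (enc_add (enc_scaleT 2661 200 (txg_4.enc h1 h2 h3)) (enc_rat _ 979 2000))) (enc_norm (enc_mul (enc_norm (txg_212.enc h1 h2 h3)) (enc_norm (enc_sub (enc_neg (enc_rat _ 3 20)) h1))))))) (enc_case (txg_247.enc h1 h2 h3) (enc_add (enc_add (enc_add (enc_scaleT 101239 200000 h1) (enc_rat _ 479719 2000000)) (enc_mul (enc_norm (txg_4.enc h1 h2 h3)) (enc_norm (enc_add (enc_scaleT 32731 10000 h1) (enc_rat _ 83009 80000))))) (enc_mul (enc_norm (enc_add (enc_scaleT 67 4 (txg_4.enc h1 h2 h3)) (enc_rat _ 3489 2000))) (enc_norm (enc_mul (enc_norm (txg_209.enc h1 h2 h3)) (enc_norm (enc_sub (enc_neg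 (enc_rat _ 1 10)) h1)))))) (enc_add (enc_add (enc_add (enc_scaleT 7187 100000 h1) (enc_rat _ 196427 1000000)) (enc_mul (enc_norm (txg_4.enc h1 h2 h3)) (enc_norm (enc_add (enc_scaleT 867 1250 h1) (enc_rat _ 62373 80000))))) (enc_mul (enc_norm (enc_add (enc_scaleT 871 100 (txg_4.enc h1 h2 h3)) (enc_rat _ 3471 2000))) (enc_norm (enc_mul (enc_norm (txg_247.enc h1 h2 h3)) (enc_norm (enc_sub (enc_rat _ 1 10) h1)))))))) (enc_case (txg_282.enc h1 h2 h3) (enc_case (txg_283.enc h1 h2 h3) (enc_add (enc_add (enc_sub (enc_rat _ 468589 2000000) (enc_scaleT 61361 200000 h1)) (enc_mul (enc_norm (txg_4.enc h1 h2 h3)) (enc_norm (enc_sub (enc_rat _ 79791 80000) (enc_scaleT 29673 20000 h1))))) (enc_mul (enc_norm (enc_add (enc_scaleT 1741 200 (txg_4.enc h1 h2 h3)) (enc_rat _ 1263 2000))) (enc_norm (enc_mul (enc_norm (txg_206.enc h1 h2 h3)) (enc_norm (enc_sub (enc_rat _ 3 20) h1))))))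 (enc_add (enc_add (enc_sub (enc_rat _ 243767 1000000) (enc_scaleT 73991 200000 h1)) (enc_mul (enc_norm (txg_4.enc h1 h2 h3)) (enc_norm (enc_sub (enc_rat _ 91641 80000) (enc_scaleT 49423 20000 h1))))) (enc_mul (enc_norm (enc_add (enc_scaleT 2209 200 (txg_4.enc h1 h2 h3)) (enc_rat _ 1263 2000))) (enc_norm (enc_mul (enc_norm (txg_283.enc h1 h2 h3)) (enc_norm (enc_sub (enc_rat _ 1 5) h1))))))) (enc_case (txg_320.enc h1 h2 h3) (enc_add (enc_add (enc_sub (enc_rat _ 255427 1000000) (enc_scaleT 85651 200000 h1)) (enc_mul (enc_norm (txg_4.enc h1 h2 h3)) (enc_norm (enc_sub (enc_rat _ 109309 80000) (enc_scaleT 17877 5000 h1))))) (enc_mul (enc_norm (enc_add (enc_scaleT 276 25 (txg_4.enc h1 h2 h3)) (enc_rat _ 1069 2000))) (enc_norm (enc_mul (enc_norm (txg_282.enc h1 h2 h3)) (enc_norm (enc_sub (enc_rat _ 1 4) h1)))))) (enc_case (txg_339.enc h1 h2 h3) (enc_add (enc_add (enc_sub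 (enc_rat _ 1048433 4000000) (enc_scaleT 22749 50000 h1)) (enc_mul (enc_norm (txg_4.enc h1 h2 h3)) (enc_norm (enc_sub (enc_rat _ 65687 40000) (enc_scaleT 93573 20000 h1))))) (enc_mul (enc_norm (enc_scaleT 441 40 (txg_4.enc h1 h2 h3))) (enc_norm (enc_mul (enc_norm (txg_320.enc h1 h2 h3)) (enc_norm (enc_sub (enc_rat _ 3 10) h1)))))) (enc_add (enc_add (enc_add (enc_sub (enc_rat _ 272863758361 1040000000000) (enc_scaleT 47408312787 104000000000 h1)) (enc_mul (enc_norm (txg_4.enc h1 h2 h3)) (enc_norm (enc_sub (enc_rat _ 652390381 650000000) (enc_scaleT 165771127 65000000 h1))))) (enc_mul (txg_370.enc h1 h2 h3) (enc_norm (enc_sub (enc_rat _ 85694721 25000000) (enc_scaleT 28564907 2500000 h1))))) (enc_mul (enc_norm (enc_add (enc_mul (enc_norm (enc_subr 381 5 (enc_scaleT 32493 100 (txg_4.enc h1 h2 h3)))) (enc_norm (txg_4.enc h1 h2 h3))) (enc_rat _ 247 10000))) (enc_norm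 (enc_mul (enc_norm (txg_339.enc h1 h2 h3)) (enc_norm (enc_sub (enc_rat _ 61 182) h1))))))))))) (enc_case (txg_391.enc h1 h2 h3) (enc_sub (enc_mul (enc_norm (enc_sub (enc_pnc _ 1) h2)) (enc_norm (enc_subn 1 (enc_nat 2 h2)))) (enc_mul (enc_norm (enc_nat 2 (enc_sub (enc_scaleT 4 3 (txg_6.enc h1 h2 h3)) h3))) (enc_norm (enc_mul (enc_norm (enc_subn 1 (enc_add (enc_scaleT 2 3 (txg_6.enc h1 h2 h3)) h2))) (kcg.enc h1 h3))))) (enc_case (txg_393.enc h1 h2 h3) (enc_case (txg_395.enc h1 h2 h3) (enc_add (enc_add (enc_add (enc_sub (enc_rat _ 1025360737249 2806700000000) (enc_scaleT 81465194731 112268000000 h1)) (enc_mul (enc_norm (txg_4.enc h1 h2 h3)) (enc_norm (enc_sub (enc_rat _ 153594722053 175418750000) (enc_scaleT 100906997219 56134000000 h1))))) (enc_mul (txg_370.enc h1 h2 h3) (enc_norm (enc_sub (enc_rat _ 125435277 297500000) (enc_scaleT 11403207 11900000 h1))))) (enc_mul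 (enc_norm (enc_add (enc_mul (enc_norm (enc_sub (enc_rat _ 22969 1000) (enc_scaleT 5113 100 (txg_4.enc h1 h2 h3)))) (enc_norm (txg_4.enc h1 h2 h3))) (enc_rat _ 22339 10000))) (enc_norm (enc_mul (enc_norm (txg_391.enc h1 h2 h3)) (enc_norm (enc_sub (enc_rat _ 11 25) h1)))))) (enc_add (enc_add (enc_sub (enc_rat _ 3615193 9375000) (enc_scaleT 1157633 1500000 h1)) (enc_mul (enc_norm (txg_4.enc h1 h2 h3)) (enc_norm (enc_sub (enc_rat _ 10131729 10000000) (enc_scaleT 21103 10000 h1))))) (enc_mul (enc_norm (enc_sub (enc_rat _ 71 250) (enc_scaleT 157 20 (txg_4.enc h1 h2 h3)))) (enc_norm (enc_mul (enc_norm (txg_395.enc h1 h2 h3)) (enc_norm (enc_sub (enc_rat _ 91 200) h1))))))) (enc_case (txg_446.enc h1 h2 h3) (enc_add (enc_add (enc_sub (enc_rat _ 58378987 150000000) (enc_scaleT 1169411 1500000 h1)) (enc_mul (enc_norm (txg_4.enc h1 h2 h3)) (enc_norm (enc_sub (enc_rat _ 26999431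 30000000) (enc_scaleT 279229 150000 h1))))) (enc_mul (enc_norm (enc_sub (enc_rat _ 479 2000) (enc_scaleT 1747 200 (txg_4.enc h1 h2 h3)))) (enc_norm (enc_mul (enc_norm (txg_393.enc h1 h2 h3)) (enc_norm (enc_sub (enc_rat _ 47 100) h1)))))) (enc_add (enc_add (enc_sub (enc_rat _ 37963 100000) (enc_scaleT 37963 50000 h1)) (enc_mul (enc_norm (txg_4.enc h1 h2 h3)) (enc_norm (enc_sub (enc_rat _ 16709 40000) (enc_scaleT 16709 20000 h1))))) (enc_mul (enc_norm (enc_subr 399 500 (enc_neg (enc_scaleT 5967 200 (txg_4.enc h1 h2 h3))))) (enc_norm (enc_mul (enc_norm (txg_446.enc h1 h2 h3)) (enc_norm (enc_sub (enc_rat _ 1 2) h1))))))))))⟩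
noncomputable def l0q0 : Fn2 := ⟨_, _, fun h1 h2 => (enc_norm (txg.enc (enc_norm (enc_sub (enc_scaleT 3 4 h1) (enc_half (c1g.enc h1)))) (c1g.enc h1) h2))⟩
noncomputable def kc0q0_3 : Fn2 := ⟨_, _, fun h1 h2 => (enc_subr 237 260 h2)⟩
noncomputable def kc0q0_8 : Fn2 := ⟨_, _, fun h1 h2 => (enc_sub (enc_scaleT 3 4 h1) (enc_half (c1g.enc h1)))⟩
noncomputable def kc0q0_20 : Fn2 := ⟨_, _, fun h1 h2 => (enc_scaleT 1135 167 (kc0q0_8.enc h1 h2))⟩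
noncomputable def kc0q0_38 : Fn2 := ⟨_, _, fun h1 h2 => (enc_subr 573 10000 (enc_scaleT 521 167 (kc0q0_8.enc h1 h2)))⟩
noncomputable def kc0q0 : Fn2 := ⟨_, _, fun h1 h2 => (enc_norm (enc_case (enc_add (kc0q0_8.enc h1 h2) (enc_rat _ 167 1000)) (enc_case (enc_add (kc0q0_8.enc h1 h2) (enc_rat _ 333 1000)) (enc_add (enc_subr 10963 3340 (enc_neg (enc_scaleT 10963 1670 (kc0q0_8.enc h1 h2)))) (enc_mul (enc_norm (kc0q0_3.enc h1 h2)) (enc_norm (enc_add (kc0q0_20.enc h1 h2) (enc_rat _ 1135 334))))) (enc_add (enc_subr 47459 830000 (enc_scaleT 259 83 (kc0q0_8.enc h1 h2))) (enc_mul (enc_norm (kc0q0_3.enc h1 h2)) (enc_norm (enc_add (enc_scaleT 564 83 (kc0q0_8.enc h1 h2)) (enc_rat _ 282017 83000)))))) (enc_case (kc0q0_8.enc h1 h2) (enc_add (kc0q0_38.enc h1 h2) (enc_mul (enc_norm (kc0q0_3.enc h1 h2)) (enc_norm (enc_add (enc_scaleT 1134 167 (kc0q0_8.enc h1 h2)) (enc_rat _ 3397 1000)))))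 (enc_case (enc_subr 167 1000 (kc0q0_8.enc h1 h2)) (enc_add (kc0q0_38.enc h1 h2) (enc_mul (enc_norm (kc0q0_3.enc h1 h2)) (enc_norm (enc_add (kc0q0_20.enc h1 h2) (enc_rat _ 3397 1000))))) (enc_add (enc_subr 8785090631377 153030000000000 (enc_scaleT 477515578631 153030000000 (kc0q0_8.enc h1 h2))) (enc_mul (enc_norm (kc0q0_3.enc h1 h2)) (enc_norm (enc_add (enc_scaleT 86701265469 12752500000 (kc0q0_8.enc h1 h2)) (enc_rat _ 43315218666677 12752500000000)))))))))⟩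
noncomputable def kf0q1_10 : Fn2 := ⟨_, _, fun h1 h2 => (enc_scaleT 3 2 h1)⟩
noncomputable def kf0q1 : Fn2 := ⟨_, _, fun h1 h2 => (enc_norm (enc_add (enc_mul (enc_norm (enc_mul (enc_norm (enc_add (enc_pnc _ 1) (enc_nat 2 (c1g.enc h1)))) (enc_norm (enc_sub (kf0q1_10.enc h1 h2) (c1g.enc h1))))) (enc_inv (enc_nat 2 (enc_sub (enc_add (enc_pnc _ 1) (kf0q1_10.enc h1 h2)) (c1g.enc h1))))) (enc_mul (enc_norm (enc_subn 1 h1)) (kcg.enc (enc_norm (enc_sub (enc_scaleT 3 4 h1) (enc_half (c1g.enc h1)))) h2))))⟩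
noncomputable def l0q1 : Fn2 := ⟨_, _, fun h1 h2 => (enc_norm (txg.enc (enc_norm (enc_sub (enc_scaleT 3 4 h1) (enc_half (c1g.enc h1)))) (c1g.enc h1) h2))⟩
noncomputable def gsg : Fn1 := ⟨_, _, fun h1 => (enc_sqrt (enc_sub (enc_pnc _ 1) (enc_scaleT 3 4 (enc_sq h1))))⟩
noncomputable def gug : Fn1 := ⟨_, _, fun h1 => (enc_norm (enc_add (enc_scaleT 3 4 h1) (enc_scaleT 3 2 (enc_sub (enc_pnc _ 1) (gsg.enc h1)))))⟩
noncomputable def kc0q1_3 : Fn2 := ⟨_, _, fun h1 h2 => (enc_subr 237 260 h2)⟩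
noncomputable def kc0q1_9 : Fn2 := ⟨_, _, fun h1 h2 => (enc_sub (enc_scaleT 3 4 h1) (enc_half (c1g.enc h1)))⟩
noncomputable def kc0q1_50 : Fn2 := ⟨_, _, fun h1 h2 => (enc_scaleT 1135 167 (kc0q1_9.enc h1 h2))⟩
noncomputable def kc0q1_69 : Fn2 := ⟨_, _, fun h1 h2 => (enc_subr 573 10000 (enc_scaleT 521 167 (kc0q1_9.enc h1 h2)))⟩
noncomputable def kc0q1 : Fn2 := ⟨_, _, fun h1 h2 => (enc_norm (enc_case (enc_subr 61 182 (kc0q1_9.enc h1 h2)) (enc_case (enc_add (kc0q1_9.enc h1 h2) (enc_rat _ 167 1000)) (enc_case (enc_add (kc0q1_9.enc h1 h2) (enc_rat _ 333 1000)) (enc_add (enc_subr 10963 3340 (enc_neg (enc_scaleT 10963 1670 (kc0q1_9.enc h1 h2)))) (enc_mul (enc_norm (kc0q1_3.enc h1 h2)) (enc_norm (enc_add (kc0q1_50.enc h1 h2) (enc_rat _ 1135 334))))) (enc_add (enc_subr 47459 830000 (enc_scaleT 259 83 (kc0q1_9.enc h1 h2))) (enc_mul (enc_norm (kc0q1_3.enc h1 h2)) (enc_norm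 (enc_add (enc_scaleT 564 83 (kc0q1_9.enc h1 h2)) (enc_rat _ 282017 83000)))))) (enc_case (kc0q1_9.enc h1 h2) (enc_add (kc0q1_69.enc h1 h2) (enc_mul (enc_norm (kc0q1_3.enc h1 h2)) (enc_norm (enc_add (enc_scaleT 1134 167 (kc0q1_9.enc h1 h2)) (enc_rat _ 3397 1000))))) (enc_case (enc_subr 167 1000 (kc0q1_9.enc h1 h2)) (enc_add (kc0q1_69.enc h1 h2) (enc_mul (enc_norm (kc0q1_3.enc h1 h2)) (enc_norm (enc_add (kc0q1_50.enc h1 h2) (enc_rat _ 3397 1000))))) (enc_add (enc_subr 8785090631377 153030000000000 (enc_scaleT 477515578631 153030000000 (kc0q1_9.enc h1 h2))) (enc_mul (enc_norm (kc0q1_3.enc h1 h2)) (enc_norm (enc_add (enc_scaleT 86701265469 12752500000 (kc0q1_9.enc h1 h2)) (enc_rat _ 43315218666677 12752500000000)))))))) (enc_case (enc_subr 107 254 (kc0q1_9.enc h1 h2)) (enc_sub (enc_add (enc_add (enc_rat _ 3 4) (enc_scaleT 3 2 h1)) (enc_scaleT 3 4 (enc_mul (enc_norm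 (enc_mul h1 (enc_inv (c1g.enc h1)))) (gug.enc h1)))) (enc_mul (kcg.enc (enc_norm (kc0q1_9.enc h1 h2)) h2) (enc_norm (enc_add (gug.enc h1) (enc_nat 2 (c1g.enc h1)))))) (enc_add (enc_sub (enc_rat _ 870812229797 200000000000) (enc_scaleT 870812229797 100000000000 (kc0q1_9.enc h1 h2))) (enc_mul (enc_norm (kc0q1_3.enc h1 h2)) (enc_norm (enc_subr 602469436537 200000000000 (enc_scaleT 602469436537 100000000000 (kc0q1_9.enc h1 h2)))))))))⟩
noncomputable def yag : Fn1 := ⟨_, _, fun h1 => (enc_sqrt (enc_scaleT 4 3 (enc_sub (enc_pnc _ 1) (enc_sq h1))))⟩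
noncomputable def kfc02 : Fn2 := ⟨_, _, fun h1 h2 => (enc_norm (enc_add h1 (enc_mul (enc_norm (enc_subn 1 (yag.enc h1))) (kcg.enc (enc_neg h1) h2))))⟩
noncomputable def lc02_7 : Fn2 := ⟨_, _, fun h1 h2 => (enc_scaleT 3 4 (yag.enc h1))⟩
noncomputable def lc02_8 : Fn2 := ⟨_, _, fun h1 h2 => (enc_half h1)⟩
noncomputable def lc02 : Fn2 := ⟨_, _, fun h1 h2 => (enc_norm (enc_sub (txg.enc (enc_neg h1) (enc_norm (enc_add (lc02_7.enc h1 h2) (lc02_8.enc h1 h2))) h2) (txg.enc h1 (enc_norm (enc_sub (lc02_7.enc h1 h2) (lc02_8.enc h1 h2))) h2)))⟩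
noncomputable def kcc02 : Fn2 := ⟨_, _, fun h1 h2 => (enc_pnc _ 0)⟩
noncomputable def swg : Fn1 := ⟨_, _, fun h1 => (enc_sqrt (enc_sub (enc_pnc _ 1) (enc_scaleT 3 4 (enc_sq (enc_norm (enc_subn 1 h1))))))⟩
noncomputable def cv1m : Fn1 := ⟨_, _, fun h1 => (enc_norm (enc_add (enc_scaleT 11 20 (c1g.enc h1)) (enc_scaleT 9 20 (enc_add (swg.enc h1) (enc_rat _ 1 2)))))⟩
noncomputable def bf1q0_3 : Fn2 := ⟨_, _, fun h1 h2 => (enc_subr 237 260 h2)⟩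
noncomputable def bf1q0 : Fn2 := ⟨_, _, fun h1 h2 => (enc_norm (enc_case (enc_subr 7 250 h1) (enc_add (enc_sub (enc_pnc _ 1) (enc_scaleT 533 280 h1)) (enc_mul (enc_norm (bf1q0_3.enc h1 h2)) (enc_scaleT 507 20 h1))) (enc_add (enc_sub (enc_rat _ 2403241 2360000) (enc_scaleT 24147 9440 h1)) (enc_mul (enc_norm (bf1q0_3.enc h1 h2)) (enc_norm (enc_sub (enc_rat _ 1518923 1180000) (enc_scaleT 97337 4720 h1)))))))⟩
noncomputable def kf1q0 : Fn2 := ⟨_, _, fun h1 h2 => (enc_norm (enc_mul (cv1m.enc h1) (bf1q0.enc h1 h2)))⟩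
noncomputable def bx1q0_3 : Fn2 := ⟨_, _, fun h1 h2 => (enc_subr 237 260 h2)⟩
noncomputable def bx1q0_36 : Fn2 := ⟨_, _, fun h1 h2 => (enc_scaleT 311 2800 h1)⟩
noncomputable def bx1q0_51 : Fn2 := ⟨_, _, fun h1 h2 => (enc_scaleT 621 5600 h1)⟩
noncomputable def bx1q0_54 : Fn2 := ⟨_, _, fun h1 h2 => (enc_scaleT 11 28 h1)⟩
noncomputable def bx1q0_58 : Fn2 := ⟨_, _, fun h1 h2 => (enc_mul (enc_norm (bx1q0_3.enc h1 h2)) (enc_norm (enc_sub (enc_rat _ 823 2800) (bx1q0_54.enc h1 h2))))⟩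
noncomputable def bx1q0 : Fn2 := ⟨_, _, fun h1 h2 => (enc_norm (enc_case (enc_subr 11 50 h1) (enc_case (enc_subr 3 25 h1) (enc_case (enc_subr 7 250 h1) (enc_add (enc_scaleT 209 350 h1) (enc_mul (enc_norm (bx1q0_3.enc h1 h2)) (enc_scaleT 183 140 h1))) (enc_add (enc_add (enc_scaleT 607 1150 h1) (enc_rat _ 279 143750)) (enc_mul (enc_norm (bx1q0_3.enc h1 h2)) (enc_norm (enc_subr 1567 57500 (enc_scaleT 1049 460 h1)))))) (enc_case (enc_subr 41 250 h1) (enc_add (enc_add (enc_scaleT 489 4400 h1) (enc_rat _ 28569 550000)) (enc_mul (enc_norm (bx1q0_3.enc h1 h2)) (enc_norm (enc_sub (enc_rat _ 16117 55000) (enc_scaleT 171 440 h1))))) (enc_add (enc_add (bx1q0_36.enc h1 h2) (enc_rat _ 2273 43750)) (enc_mul (enc_norm (bx1q0_3.enc h1 h2)) (enc_norm (enc_sub (enc_rat _ 513 1750) (enc_scaleT 109 280 h1))))))) (enc_case (enc_subr 97 250 h1) (enc_case (enc_subr 69 250 h1) (enc_add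 (enc_add (bx1q0_51.enc h1 h2) (enc_rat _ 72791 1400000)) (bx1q0_58.enc h1 h2)) (enc_add (enc_add (bx1q0_36.enc h1 h2) (enc_rat _ 36361 700000)) (bx1q0_58.enc h1 h2))) (enc_case (enc_subr 111 250 h1) (enc_add (enc_add (bx1q0_51.enc h1 h2) (enc_rat _ 72819 1400000)) (enc_mul (enc_norm (bx1q0_3.enc h1 h2)) (enc_norm (enc_sub (enc_rat _ 41247 140000) (enc_scaleT 221 560 h1))))) (enc_add (enc_add (bx1q0_36.enc h1 h2) (enc_rat _ 18177 350000)) (enc_mul (enc_norm (bx1q0_3.enc h1 h2)) (enc_norm (enc_sub (enc_rat _ 2571 8750) (bx1q0_54.enc h1 h2)))))))))⟩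
noncomputable def l1q0 : Fn2 := ⟨_, _, fun h1 h2 => (enc_norm (enc_mul (cv1m.enc h1) (bx1q0.enc h1 h2)))⟩
noncomputable def bd1q0 : Fn2 := ⟨_, _, fun h1 h2 => (enc_norm (enc_sub (enc_neg (enc_scaleT 42347 5000 h1)) (enc_mul (enc_norm (enc_subr 237 260 h2)) (enc_scaleT 41743 500 h1))))⟩
noncomputable def kc1q0 : Fn2 := ⟨_, _, fun h1 h2 => (enc_norm (enc_mul (cv1m.enc h1) (bd1q0.enc h1 h2)))⟩
noncomputable def bf1q1 : Fn2 := ⟨_, _, fun h1 h2 => (enc_norm (enc_add (enc_add (enc_scaleT 32477 50000 h1) (enc_rat _ 2137 50000)) (enc_mul (enc_norm (enc_subr 237 260 h2)) (enc_norm (enc_subr 65721 10000 (enc_scaleT 35577 5000 h1))))))⟩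
noncomputable def kf1q1 : Fn2 := ⟨_, _, fun h1 h2 => (enc_norm (enc_mul (cv1m.enc h1) (bf1q1.enc h1 h2)))⟩
noncomputable def bx1q1_3 : Fn2 := ⟨_, _, fun h1 h2 => (enc_subr 237 260 h2)⟩
noncomputable def bx1q1 : Fn2 := ⟨_, _, fun h1 h2 => (enc_norm (enc_case (enc_subr 15 16 h1) (enc_add (enc_add (enc_scaleT 4857 43750 h1) (enc_rat _ 36373 700000)) (enc_mul (enc_norm (bx1q1_3.enc h1 h2)) (enc_norm (enc_sub (enc_rat _ 10309 35000) (enc_scaleT 69 175 h1))))) (enc_add (enc_add (enc_scaleT 693 6250 h1) (enc_rat _ 5209 100000)) (enc_mul (enc_norm (bx1q1_3.enc h1 h2)) (enc_norm (enc_sub (enc_rat _ 1477 5000) (enc_scaleT 247 625 h1)))))))⟩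
noncomputable def l1q1 : Fn2 := ⟨_, _, fun h1 h2 => (enc_norm (enc_mul (cv1m.enc h1) (bx1q1.enc h1 h2)))⟩
noncomputable def bd1q1 : Fn2 := ⟨_, _, fun h1 h2 => (enc_norm (enc_add (enc_subr 3611 625 (enc_scaleT 15429 5000 h1)) (enc_mul (enc_norm (enc_subr 237 260 h2)) (enc_norm (enc_subr 191851 500 (enc_scaleT 341959 500 h1))))))⟩
noncomputable def kc1q1 : Fn2 := ⟨_, _, fun h1 h2 => (enc_norm (enc_mul (cv1m.enc h1) (bd1q1.enc h1 h2)))⟩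
noncomputable def xc12a : Fn1 := ⟨_, _, fun h1 => (enc_norm (enc_add (enc_scaleT 11 20 h1) (enc_scaleT 9 20 (enc_subr 1 2 (swg.enc (yag.enc h1))))))⟩
noncomputable def bf1q2_3 : Fn2 := ⟨_, _, fun h1 h2 => (enc_subr 237 260 h2)⟩
noncomputable def bf1q2_15 : Fn2 := ⟨_, _, fun h1 h2 => (enc_add (enc_sub (enc_rat _ 69883 20000) (enc_scaleT 49883 20000 h1)) (enc_mul (enc_norm (bf1q2_3.enc h1 h2)) (enc_norm (enc_sub (enc_rat _ 549793 10000) (enc_scaleT 549793 10000 h1)))))⟩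
noncomputable def bf1q2 : Fn2 := ⟨_, _, fun h1 h2 => (enc_norm (enc_case (enc_subr 577 500 h1) (bf1q2_15.enc h1 h2) (enc_case (enc_subr 231 200 h1) (bf1q2_15.enc h1 h2) (enc_add (enc_sub (enc_rat _ 16073013 4600000) (enc_scaleT 3441907 1380000 h1)) (enc_mul (enc_norm (bf1q2_3.enc h1 h2)) (enc_norm (enc_sub (enc_rat _ 5058111 92000) (enc_scaleT 37935817 690000 h1))))))))⟩
noncomputable def kfc12a : Fn2 := ⟨_, _, fun h1 h2 => (enc_norm (enc_mul (enc_norm (enc_add (enc_scaleT 11 20 h1) (enc_scaleT 9 20 (enc_subr 1 2 (swg.enc (yag.enc h1)))))) (bf1q2.enc (yag.enc h1) h2)))⟩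
noncomputable def bx1q2_3 : Fn2 := ⟨_, _, fun h1 h2 => (enc_subr 237 260 h2)⟩
noncomputable def bx1q2 : Fn2 := ⟨_, _, fun h1 h2 => (enc_norm (enc_case (enc_subr 577 500 h1) (enc_case (enc_subr 17 16 h1) (enc_add (enc_sub (enc_rat _ 2044 3125) (enc_scaleT 2044 3125 h1)) (enc_mul (enc_norm (bx1q2_3.enc h1 h2)) (enc_norm (enc_sub (enc_rat _ 5636 625) (enc_scaleT 5636 625 h1))))) (enc_add (enc_sub (enc_rat _ 10554823 9150000) (enc_scaleT 5143 4575 h1)) (enc_mul (enc_norm (bx1q2_3.enc h1 h2)) (enc_norm (enc_sub (enc_rat _ 1029382 114375) (enc_scaleT 8236 915 h1)))))) (enc_case (enc_subr 231 200 h1) (enc_sub (enc_neg (enc_rat _ 7187 50000)) (enc_scaleT 867 625 (bx1q2_3.enc h1 h2))) (enc_add (enc_subr 1033177 575000 (enc_scaleT 24689 17250 h1)) (enc_mul (enc_norm (bx1q2_3.enc h1 h2)) (enc_norm (enc_subr 798089 115000 (enc_scaleT 8293 1725 h1))))))))⟩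
noncomputable def lc12a : Fn2 := ⟨_, _, fun h1 h2 => (enc_norm (enc_mul (enc_norm (enc_add (enc_scaleT 11 20 h1) (enc_scaleT 9 20 (enc_subr 1 2 (swg.enc (yag.enc h1)))))) (bx1q2.enc (yag.enc h1) h2)))⟩
noncomputable def bd1q2 : Fn2 := ⟨_, _, fun h1 h2 => (enc_norm (enc_case (enc_subr 577 500 h1) (enc_pnc _ 0) (enc_case (enc_subr 231 200 h1) (enc_pnc _ 0) (enc_add (enc_subr 1166319 115000 (enc_scaleT 5049 575 h1)) (enc_mul (enc_norm (enc_subr 237 260 h2)) (enc_norm (enc_sub (enc_rat _ 7834519 23000) (enc_scaleT 101747 345 h1))))))))⟩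
noncomputable def kcc12a : Fn2 := ⟨_, _, fun h1 h2 => (enc_norm (enc_mul (enc_norm (enc_add (enc_scaleT 11 20 h1) (enc_scaleT 9 20 (enc_subr 1 2 (swg.enc (yag.enc h1)))))) (bd1q2.enc (yag.enc h1) h2)))⟩
noncomputable def xc12b : Fn1 := ⟨_, _, fun h1 => (enc_norm (enc_scaleT 9 20 (enc_subr 1 2 (swg.enc h1))))⟩
noncomputable def kfc12b : Fn2 := ⟨_, _, fun h1 h2 => (enc_norm (enc_mul (enc_norm (enc_scaleT 9 20 (enc_subr 1 2 (swg.enc h1)))) (bf1q2.enc h1 h2)))⟩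
noncomputable def lc12b : Fn2 := ⟨_, _, fun h1 h2 => (enc_norm (enc_mul (enc_norm (enc_scaleT 9 20 (enc_subr 1 2 (swg.enc h1)))) (bx1q2.enc h1 h2)))⟩
noncomputable def kcc12b : Fn2 := ⟨_, _, fun h1 h2 => (enc_norm (enc_mul (enc_norm (enc_scaleT 9 20 (enc_subr 1 2 (swg.enc h1)))) (bd1q2.enc h1 h2)))⟩
noncomputable def cv1r : Fn1 := ⟨_, _, fun h1 => (enc_norm (enc_scaleT 9 20 (enc_subr 1 2 (swg.enc h1))))⟩
noncomputable def c3g : Fn1 := ⟨_, _, fun h1 => (enc_sqrtg (enc_sub (enc_pnc _ 3) (enc_scaleT 3 4 (enc_sq h1))))⟩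
noncomputable def kf1q3_4 : Fn2 := ⟨_, _, fun h1 h2 => (enc_subr 237 260 h2)⟩
noncomputable def kf1q3 : Fn2 := ⟨_, _, fun h1 h2 => (enc_norm (enc_mul (cv1r.enc h1) (enc_norm (enc_case (enc_subr 31 16 h1) (enc_add (enc_subr 457393 87500 (enc_scaleT 887 350 h1)) (enc_mul (enc_norm (kf1q3_4.enc h1 h2)) (enc_norm (enc_sub (enc_rat _ 29302209 70000) (enc_scaleT 197168 875 h1))))) (enc_case (enc_subr 243 125 h1) (enc_add (enc_subr 6798321 1300000 (enc_scaleT 824 325 h1)) (enc_mul (enc_norm (kf1q3_4.enc h1 h2)) (enc_norm (enc_sub (enc_rat _ 54415421 130000) (enc_scaleT 14646 65 h1))))) (enc_add (enc_subr 14739 25000 (enc_scaleT 96290000 135666257 (c3g.enc h1))) (enc_mul (enc_norm (kf1q3_4.enc h1 h2)) (enc_norm (enc_sub (enc_rat _ 3897 2500) (enc_scaleT 21006700000 406998771 (c3g.enc h1)))))))))))⟩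
noncomputable def l1q3_4 : Fn2 := ⟨_, _, fun h1 h2 => (enc_subr 237 260 h2)⟩
noncomputable def l1q3 : Fn2 := ⟨_, _, fun h1 h2 => (enc_norm (enc_mul (cv1r.enc h1) (enc_norm (enc_case (enc_subr 31 16 h1) (enc_case (enc_subr 47 25 h1) (enc_add (enc_subr 853281 475000 (enc_scaleT 6797 4750 h1)) (enc_mul (enc_norm (l1q3_4.enc h1 h2)) (enc_norm (enc_subr 329971 47500 (enc_scaleT 9143 1900 h1))))) (enc_add (enc_subr 1032929 575000 (enc_scaleT 4114 2875 h1)) (enc_mul (enc_norm (l1q3_4.enc h1 h2)) (enc_norm (enc_sub (enc_rat _ 576999 28750) (enc_scaleT 5496 575 h1)))))) (enc_case (enc_subr 243 125 h1) (enc_add (enc_subr 2338721 1300000 (enc_scaleT 931 650 h1)) (enc_mul (enc_norm (l1q3_4.enc h1 h2)) (enc_norm (enc_sub (enc_rat _ 1860013 32500) (enc_scaleT 1868 65 h1))))) (enc_case (enc_sub (enc_rat _ 288811357 1000000000) (c3g.enc h1)) (enc_add (enc_add (enc_scaleT 18770000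 59093707 (c3g.enc h1)) (enc_rat _ 2529549050453 2954685350000)) (enc_mul (enc_norm (l1q3_4.enc h1 h2)) (enc_norm (enc_sub (enc_rat _ 5891251432297 590937070000) (enc_scaleT 1249500000 59093707 (c3g.enc h1)))))) (enc_add (enc_add (enc_scaleT 91710000 288811357 (c3g.enc h1)) (enc_rat _ 42807 50000)) (enc_mul (enc_norm (l1q3_4.enc h1 h2)) (enc_norm (enc_add (enc_scaleT 1673400000 288811357 (c3g.enc h1)) (enc_rat _ 5473 2500)))))))))))⟩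
noncomputable def kc1q3_4 : Fn2 := ⟨_, _, fun h1 h2 => (enc_subr 237 260 h2)⟩
noncomputable def kc1q3 : Fn2 := ⟨_, _, fun h1 h2 => (enc_norm (enc_mul (cv1r.enc h1) (enc_norm (enc_case (enc_subr 243 125 h1) (enc_add (enc_subr 1876311 185000 (enc_scaleT 3249 370 h1)) (enc_mul (enc_norm (kc1q3_4.enc h1 h2)) (enc_norm (enc_sub (enc_rat _ 6301743 18500) (enc_scaleT 130945 444 h1))))) (enc_add (enc_subr 39 1250 (enc_scaleT 2319800000 135666257 (c3g.enc h1))) (enc_mul (enc_norm (kc1q3_4.enc h1 h2)) (enc_norm (enc_sub (enc_rat _ 298 125) (enc_scaleT 235076000000 406998771 (c3g.enc h1))))))))))⟩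
noncomputable def cv2m : Fn1 := ⟨_, _, fun h1 => (enc_norm (enc_add (enc_scaleT 9 10 (enc_add (swg.enc h1) (enc_rat _ 1 2))) (enc_scaleT 1 10 (c3g.enc h1))))⟩
noncomputable def esg : Fn1 := ⟨_, _, fun h1 => (enc_norm (enc_subn 1 (enc_add (enc_half h1) (gsg.enc h1))))⟩
noncomputable def kf2q0_4 : Fn2 := ⟨_, _, fun h1 h2 => (enc_subr 237 260 h2)⟩
noncomputable def kf2q0_44 : Fn2 := ⟨_, _, fun h1 h2 => (enc_sub (enc_pnc _ 1) h1)⟩
noncomputable def kf2q0_45 : Fn2 := ⟨_, _, fun h1 h2 => (gsg.enc (enc_norm (kf2q0_44.enc h1 h2)))⟩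
noncomputable def kf2q0_48 : Fn2 := ⟨_, _, fun h1 h2 => (enc_sub (enc_scaleT 3 4 (kf2q0_44.enc h1 h2)) (enc_half (kf2q0_45.enc h1 h2)))⟩
noncomputable def kf2q0_49 : Fn2 := ⟨_, _, fun h1 h2 => (esg.enc (enc_norm (kf2q0_44.enc h1 h2)))⟩
noncomputable def kf2q0_50 : Fn2 := ⟨_, _, fun h1 h2 => (kcg.enc (enc_norm (kf2q0_48.enc h1 h2)) h2)⟩
noncomputable def kf2q0_58 : Fn2 := ⟨_, _, fun h1 h2 => (enc_sub (kf2q0_48.enc h1 h2) (enc_sub (enc_rat _ 1 4) (enc_scaleT 3 8 (enc_mul (enc_norm (kf2q0_44.enc h1 h2)) (enc_inv (kf2q0_45.enc h1 h2))))))⟩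
noncomputable def kf2q0_67 : Fn2 := ⟨_, _, fun h1 h2 => (enc_mul (cv1m.enc h1) (bf1q0.enc h1 h2))⟩
noncomputable def kf2q0 : Fn2 := ⟨_, _, fun h1 h2 => (enc_norm (enc_case (enc_subr 7 125 h1) (enc_mul (cv2m.enc h1) (enc_norm (enc_case (enc_subr 7 250 h1) (enc_add (enc_sub (enc_rat _ 4543 5000) (enc_scaleT 1217 280 h1)) (enc_mul (enc_norm (kf2q0_4.enc h1 h2)) (enc_norm (enc_subr 147 10000 (enc_neg (enc_scaleT 111 35 h1)))))) (enc_add (enc_sub (enc_rat _ 4542931283 5000000000) (enc_scaleT 608431283 140000000 h1)) (enc_mul (enc_norm (kf2q0_4.enc h1 h2)) (enc_norm (enc_subr 1834859 125000000 (enc_neg (enc_scaleT 11102641 3500000 h1))))))))) (enc_case (enc_subr 3 25 h1) (enc_add (kf2q0_67.enc h1 h2) (enc_mul (enc_norm (enc_mul (enc_norm (enc_sub (enc_wB0 (enc_mul h1 (enc_norm (enc_sub (enc_mul (enc_norm (kf2q0_58.enc h1 h2)) (enc_inv (kf2q0_49.enc h1 h2))) (kf2q0_50.enc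 h1 h2)))) (kf2q0_44.enc h1 h2) (kf2q0_45.enc h1 h2) (kf2q0_49.enc h1 h2) h1 (kf2q0_58.enc h1 h2) (kf2q0_50.enc h1 h2) rfl rfl rfl rfl) (kf2q0_67.enc h1 h2))) (enc_norm (enc_sub (cv2m.enc h1) (cv1m.enc h1))))) (enc_inv (enc_sub (enc_add (swg.enc h1) (enc_rat _ 1 2)) (cv1m.enc h1))))) (enc_mul (cv2m.enc h1) (enc_norm (enc_add (enc_sub (enc_rat _ 3473642207 3800000000) (enc_scaleT 5646254207 1900000000 h1)) (enc_mul (enc_norm (kf2q0_4.enc h1 h2)) (enc_norm (enc_sub (enc_rat _ 402895693 152000000) (enc_scaleT 969916493 76000000 h1))))))))))⟩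
noncomputable def qsg : Fn1 := ⟨_, _, fun h1 => (enc_norm (enc_mul (enc_norm (enc_sub (enc_pnc _ 1) (gsg.enc h1))) (enc_norm (enc_subn 1 (enc_nat 2 (gsg.enc h1))))))⟩
noncomputable def l2q0_4 : Fn2 := ⟨_, _, fun h1 h2 => (enc_subr 237 260 h2)⟩
noncomputable def l2q0_28 : Fn2 := ⟨_, _, fun h1 h2 => (enc_sq (enc_norm (l2q0_4.enc h1 h2)))⟩
noncomputable def l2q0_78 : Fn2 := ⟨_, _, fun h1 h2 => (enc_sub (enc_pnc _ 1) h1)⟩
noncomputable def l2q0_93 : Fn2 := ⟨_, _, fun h1 h2 => (enc_mul (cv1m.enc h1) (bx1q0.enc h1 h2))⟩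
noncomputable def l2q0 : Fn2 := ⟨_, _, fun h1 h2 => (enc_norm (enc_case (enc_subr 7 125 h1) (enc_mul (cv2m.enc h1) (enc_norm (enc_case (enc_subr 7 250 h1) (enc_add (enc_add (enc_scaleT 1899 2800 h1) (enc_rat _ 5281 100000)) (enc_mul (enc_norm (l2q0_4.enc h1 h2)) (enc_norm (enc_add (enc_scaleT 247 140 h1) (enc_rat _ 307 2500))))) (enc_add (enc_add (enc_add (enc_scaleT 47494451 70000000 h1) (enc_rat _ 132005549 2500000000)) (enc_mul (enc_norm (l2q0_4.enc h1 h2)) (enc_norm (enc_sub (enc_rat _ 108681431 500000000) (enc_scaleT 22581431 14000000 h1))))) (enc_mul (l2q0_28.enc h1 h2) (enc_norm (enc_subr 1191 100000 (enc_scaleT 1191 2800 h1)))))))) (enc_case (enc_subr 3 25 h1) (enc_add (l2q0_93.enc h1 h2) (enc_mul (enc_norm (enc_mul (enc_norm (enc_sub (enc_sub (qsg.enc (enc_norm (l2q0_78.enc h1 h2))) (enc_mul (enc_norm (enc_nat 2 (enc_sub (l2q0_78.enc h1 h2) h2))) (enc_norm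 (enc_mul (esg.enc (enc_norm (l2q0_78.enc h1 h2))) (kcg.enc (enc_norm (enc_sub (enc_scaleT 3 4 (l2q0_78.enc h1 h2)) (enc_half (gsg.enc (enc_norm (l2q0_78.enc h1 h2)))))) h2))))) (l2q0_93.enc h1 h2))) (enc_norm (enc_sub (cv2m.enc h1) (cv1m.enc h1))))) (enc_inv (enc_sub (enc_add (swg.enc h1) (enc_rat _ 1 2)) (cv1m.enc h1))))) (enc_mul (cv2m.enc h1) (enc_norm (enc_case (enc_subr 41 250 h1) (enc_add (enc_add (enc_sub (enc_rat _ 150825939 1250000000) (enc_scaleT 309779 5000000 h1)) (enc_mul (enc_norm (l2q0_4.enc h1 h2)) (enc_norm (enc_sub (enc_rat _ 4444298283 11000000000) (enc_scaleT 126587763 44000000 h1))))) (enc_mul (l2q0_28.enc h1 h2) (enc_norm (enc_subr 1474811 687500 (enc_scaleT 35971 2750 h1))))) (enc_case (enc_subr 111 250 h1) (enc_add (enc_sub (enc_rat _ 422297 3500000) (enc_scaleT 867 14000 h1)) (enc_mul (enc_norm (l2q0_4.enc h1 h2)) (enc_norm (enc_subr 77547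 175000 (enc_scaleT 801 350 h1))))) (enc_add (enc_sub (enc_rat _ 16753 100000) (enc_scaleT 67 400 h1)) (enc_mul (enc_norm (l2q0_4.enc h1 h2)) (enc_norm (enc_sub (enc_rat _ 36039 35000) (enc_scaleT 36 35 h1))))))))))))⟩
noncomputable def kc2q0_4 : Fn2 := ⟨_, _, fun h1 h2 => (enc_subr 237 260 h2)⟩
noncomputable def kc2q0_30 : Fn2 := ⟨_, _, fun h1 h2 => (enc_sub (enc_pnc _ 1) h1)⟩
noncomputable def kc2q0_31 : Fn2 := ⟨_, _, fun h1 h2 => (gsg.enc (enc_norm (kc2q0_30.enc h1 h2)))⟩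
noncomputable def kc2q0_35 : Fn2 := ⟨_, _, fun h1 h2 => (esg.enc (enc_norm (kc2q0_30.enc h1 h2)))⟩
noncomputable def kc2q0_39 : Fn2 := ⟨_, _, fun h1 h2 => (gug.enc (enc_norm (kc2q0_30.enc h1 h2)))⟩
noncomputable def kc2q0_41 : Fn2 := ⟨_, _, fun h1 h2 => (enc_mul (enc_norm (kc2q0_30.enc h1 h2)) (enc_inv (kc2q0_31.enc h1 h2)))⟩
noncomputable def kc2q0_42 : Fn2 := ⟨_, _, fun h1 h2 => (enc_scaleT 3 4 (kc2q0_41.enc h1 h2))⟩
noncomputable def kc2q0_72 : Fn2 := ⟨_, _, fun h1 h2 => (enc_mul (cv1m.enc h1) (bd1q0.enc h1 h2))⟩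
noncomputable def kc2q0 : Fn2 := ⟨_, _, fun h1 h2 => (enc_norm (enc_case (enc_subr 7 125 h1) (enc_mul (cv2m.enc h1) (enc_norm (enc_add (enc_subr 2731 10000 (enc_neg (enc_scaleT 6901934743 560000000 h1))) (enc_mul (enc_norm (kc2q0_4.enc h1 h2)) (enc_norm (enc_subr 293 200 (enc_scaleT 527878773 3500000 h1))))))) (enc_case (enc_subr 3 25 h1) (enc_add (kc2q0_72.enc h1 h2) (enc_mul (enc_norm (enc_mul (enc_norm (enc_sub (enc_add (enc_sub (enc_neg (enc_add (enc_add (enc_rat _ 3 4) (enc_scaleT 3 2 (kc2q0_30.enc h1 h2))) (enc_scaleT 3 4 (enc_mul (enc_norm (kc2q0_41.enc h1 h2)) (kc2q0_39.enc h1 h2))))) (enc_wT (enc_mul (enc_norm (enc_sub (enc_mul (enc_norm (enc_mul (enc_norm (kc2q0_42.enc h1 h2)) (enc_norm (enc_subn 3 (enc_nat 4 (kc2q0_31.enc h1 h2)))))) (kc2q0_35.enc h1 h2)) (enc_mul (qsg.enc (enc_norm (kc2q0_30.enc h1 h2))) (enc_norm (enc_sub (enc_rat _ 1 2) (kc2q0_42.enc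 h1 h2)))))) (enc_inv (enc_mul (enc_nat 2 (kc2q0_35.enc h1 h2)) (kc2q0_35.enc h1 h2)))) (kc2q0_30.enc h1 h2) (kc2q0_31.enc h1 h2) (kc2q0_35.enc h1 h2) rfl rfl rfl rfl)) (enc_mul (kcg.enc (enc_norm (enc_sub (enc_scaleT 3 4 (kc2q0_30.enc h1 h2)) (enc_half (kc2q0_31.enc h1 h2)))) h2) (enc_norm (enc_add (enc_pnc _ 1) (enc_add (kc2q0_39.enc h1 h2) (enc_nat 2 (kc2q0_31.enc h1 h2))))))) (kc2q0_72.enc h1 h2))) (enc_norm (enc_sub (cv2m.enc h1) (cv1m.enc h1))))) (enc_inv (enc_sub (enc_add (swg.enc h1) (enc_rat _ 1 2)) (cv1m.enc h1))))) (enc_mul (cv2m.enc h1) (enc_norm (enc_add (enc_subr 2283701101 1900000000 (enc_scaleT 1141801101 950000000 h1)) (enc_mul (enc_norm (kc2q0_4.enc h1 h2)) (enc_norm (enc_subr 924389937 152000000 (enc_scaleT 462157937 76000000 h1))))))))))⟩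
noncomputable def bf2q1 : Fn2 := ⟨_, _, fun h1 h2 => (enc_norm (enc_add (enc_subr 16303 50000 (enc_scaleT 66303 50000 h1)) (enc_mul (enc_norm (enc_subr 237 260 h2)) (enc_norm (enc_subr 32533 5000 (enc_scaleT 32533 5000 h1))))))⟩
noncomputable def kf2q1 : Fn2 := ⟨_, _, fun h1 h2 => (enc_norm (enc_mul (cv2m.enc h1) (bf2q1.enc h1 h2)))⟩
noncomputable def bx2q1 : Fn2 := ⟨_, _, fun h1 h2 => (enc_norm (enc_add (enc_sub (enc_rat _ 4189 25000) (enc_scaleT 4189 25000 h1)) (enc_mul (enc_norm (enc_subr 237 260 h2)) (enc_norm (enc_sub (enc_rat _ 2577 2500) (enc_scaleT 2577 2500 h1))))))⟩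
noncomputable def l2q1 : Fn2 := ⟨_, _, fun h1 h2 => (enc_norm (enc_mul (cv2m.enc h1) (bx2q1.enc h1 h2)))⟩
noncomputable def bd2q1 : Fn2 := ⟨_, _, fun h1 h2 => (enc_norm (enc_add (enc_subr 601 500 (enc_scaleT 601 500 h1)) (enc_mul (enc_norm (enc_subr 237 260 h2)) (enc_norm (enc_subr 3041 500 (enc_scaleT 3041 500 h1))))))⟩
noncomputable def kc2q1 : Fn2 := ⟨_, _, fun h1 h2 => (enc_norm (enc_mul (cv2m.enc h1) (bd2q1.enc h1 h2)))⟩
noncomputable def cv2p : Fn1 := ⟨_, _, fun h1 => (enc_norm (enc_add (enc_scaleT 9 10 (enc_subr 1 2 (swg.enc h1))) (enc_scaleT 1 10 (c3g.enc h1))))⟩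
noncomputable def bf2q2 : Fn2 := ⟨_, _, fun h1 h2 => (enc_norm (enc_add (enc_sub (enc_rat _ 105803 50000) (enc_scaleT 30861 25000 h1)) (enc_mul (enc_norm (enc_subr 237 260 h2)) (enc_norm (enc_sub (enc_rat _ 365007 10000) (enc_scaleT 183699 5000 h1))))))⟩
noncomputable def kf2q2 : Fn2 := ⟨_, _, fun h1 h2 => (enc_norm (enc_mul (cv2p.enc h1) (bf2q2.enc h1 h2)))⟩
noncomputable def bx2q2_3 : Fn2 := ⟨_, _, fun h1 h2 => (enc_subr 237 260 h2)⟩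
noncomputable def bx2q2 : Fn2 := ⟨_, _, fun h1 h2 => (enc_norm (enc_case (enc_subr 127 100 h1) (enc_case (enc_subr 231 200 h1) (enc_add (enc_subr 322251 1550000 (enc_scaleT 4301 15500 h1)) (enc_mul (enc_norm (bx2q2_3.enc h1 h2)) (enc_norm (enc_sub (enc_rat _ 616941 155000) (enc_scaleT 4957 1550 h1))))) (enc_case (enc_subr 1213 1000 h1) (enc_add (enc_subr 695487 1450000 (enc_scaleT 1487 2900 h1)) (enc_mul (enc_norm (bx2q2_3.enc h1 h2)) (enc_norm (enc_sub (enc_rat _ 3603 2320) (enc_scaleT 159 145 h1))))) (enc_add (enc_subr 1146357 1900000 (enc_scaleT 292 475 h1)) (enc_mul (enc_norm (bx2q2_3.enc h1 h2)) (enc_norm (enc_sub (enc_rat _ 881539 570000) (enc_scaleT 311 285 h1))))))) (enc_case (enc_subr 277 200 h1) (enc_case (enc_subr 166 125 h1) (enc_add (enc_subr 16997 25000 (enc_scaleT 27 40 h1)) (enc_mul (enc_norm (bx2q2_3.enc h1 h2)) (enc_norm (enc_sub (enc_rat _ 447923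 290000) (enc_scaleT 158 145 h1))))) (enc_add (enc_subr 1089179 1425000 (enc_scaleT 421 570 h1)) (enc_mul (enc_norm (bx2q2_3.enc h1 h2)) (enc_norm (enc_sub (enc_rat _ 175787 114000) (enc_scaleT 62 57 h1)))))) (enc_case (enc_subr 1443 1000 h1) (enc_add (enc_subr 5553809 5800000 (enc_scaleT 5093 5800 h1)) (enc_mul (enc_norm (bx2q2_3.enc h1 h2)) (enc_norm (enc_sub (enc_rat _ 44657 29000) (enc_scaleT 63 58 h1))))) (enc_add (enc_subr 963983 950000 (enc_scaleT 5231 5700 h1)) (enc_mul (enc_norm (bx2q2_3.enc h1 h2)) (enc_norm (enc_sub (enc_rat _ 292033 190000) (enc_scaleT 103 95 h1)))))))))⟩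
noncomputable def l2q2 : Fn2 := ⟨_, _, fun h1 h2 => (enc_norm (enc_mul (cv2p.enc h1) (bx2q2.enc h1 h2)))⟩
noncomputable def bd2q2 : Fn2 := ⟨_, _, fun h1 h2 => (enc_norm (enc_add (enc_subr 7451 1250 (enc_scaleT 29133 5000 h1)) (enc_mul (enc_norm (enc_subr 237 260 h2)) (enc_norm (enc_subr 101631 1000 (enc_scaleT 181 2 h1))))))⟩
noncomputable def kc2q2 : Fn2 := ⟨_, _, fun h1 h2 => (enc_norm (enc_mul (cv2p.enc h1) (bd2q2.enc h1 h2)))⟩
noncomputable def ycg : Fn1 := ⟨_, _, fun h1 => (enc_sqrtg (enc_scaleT 4 3 (enc_sub (enc_pnc _ 3) (enc_sq h1))))⟩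
noncomputable def xc23 : Fn1 := ⟨_, _, fun h1 => (enc_norm (enc_add (enc_scaleT 9 10 (enc_subr 1 2 (swg.enc (ycg.enc h1)))) (enc_scaleT 1 10 h1)))⟩
noncomputable def kfc23_6 : Fn2 := ⟨_, _, fun h1 h2 => (enc_subr 1 2 (swg.enc (ycg.enc h1)))⟩
noncomputable def kfc23_9 : Fn2 := ⟨_, _, fun h1 h2 => (enc_add (enc_scaleT 9 10 (kfc23_6.enc h1 h2)) (enc_scaleT 1 10 h1))⟩
noncomputable def kfc23_11 : Fn2 := ⟨_, _, fun h1 h2 => (enc_subr 237 260 h2)⟩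
noncomputable def kfc23_47 : Fn2 := ⟨_, _, fun h1 h2 => (enc_subn 1 (ycg.enc h1))⟩
noncomputable def kfc23_48 : Fn2 := ⟨_, _, fun h1 h2 => (gsg.enc (enc_norm (kfc23_47.enc h1 h2)))⟩
noncomputable def kfc23_49 : Fn2 := ⟨_, _, fun h1 h2 => (enc_scaleT 3 4 (kfc23_47.enc h1 h2))⟩
noncomputable def kfc23_50 : Fn2 := ⟨_, _, fun h1 h2 => (enc_half (kfc23_48.enc h1 h2))⟩
noncomputable def kfc23_52 : Fn2 := ⟨_, _, fun h1 h2 => (esg.enc (enc_norm (kfc23_47.enc h1 h2)))⟩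
noncomputable def kfc23_53 : Fn2 := ⟨_, _, fun h1 h2 => (kcg.enc (enc_norm (enc_sub (kfc23_49.enc h1 h2) (kfc23_50.enc h1 h2))) h2)⟩
noncomputable def kfc23_55 : Fn2 := ⟨_, _, fun h1 h2 => (enc_subn 2 (ycg.enc h1))⟩
noncomputable def kfc23_62 : Fn2 := ⟨_, _, fun h1 h2 => (enc_sub (enc_sub (kfc23_50.enc h1 h2) (kfc23_49.enc h1 h2)) (enc_sub (enc_rat _ 1 4) (enc_scaleT 3 8 (enc_mul (enc_norm (kfc23_47.enc h1 h2)) (enc_inv (kfc23_48.enc h1 h2))))))⟩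
noncomputable def kfc23_68 : Fn2 := ⟨_, _, fun h1 h2 => (cv1r.enc (ycg.enc h1))⟩
noncomputable def kfc23_82 : Fn2 := ⟨_, _, fun h1 h2 => (enc_subr 243 125 (ycg.enc h1))⟩
noncomputable def kfc23_105 : Fn2 := ⟨_, _, fun h1 h2 => (enc_mul (kfc23_68.enc h1 h2) (enc_norm (enc_case (enc_subr 31 16 (ycg.enc h1)) (enc_add (enc_subr 457393 87500 (enc_scaleT 887 350 (ycg.enc h1))) (enc_mul (enc_norm (kfc23_11.enc h1 h2)) (enc_norm (enc_sub (enc_rat _ 29302209 70000) (enc_scaleT 197168 875 (ycg.enc h1)))))) (enc_case (kfc23_82.enc h1 h2) (enc_add (enc_subr 6798321 1300000 (enc_scaleT 824 325 (ycg.enc h1))) (enc_mul (enc_norm (kfc23_11.enc h1 h2)) (enc_norm (enc_sub (enc_rat _ 54415421 130000) (enc_scaleT 14646 65 (ycg.enc h1)))))) (enc_add (enc_subr 14739 25000 (enc_scaleT 96290000 135666257 h1)) (enc_mul (enc_norm (kfc23_11.enc h1 h2)) (enc_norm (enc_sub (enc_rat _ 3897 2500)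 (enc_scaleT 21006700000 406998771 h1)))))))))⟩
noncomputable def kfc23 : Fn2 := ⟨_, _, fun h1 h2 => (enc_norm (enc_case (enc_subr 47 25 (ycg.enc h1)) (enc_mul (enc_norm (kfc23_9.enc h1 h2)) (enc_norm (enc_add (enc_subr 28087110831 7600000000 (enc_scaleT 7548706277 3800000000 (ycg.enc h1))) (enc_mul (enc_norm (kfc23_11.enc h1 h2)) (enc_norm (enc_subr 5111681959 47500000 (enc_scaleT 1400172653 23750000 (ycg.enc h1)))))))) (enc_case (kfc23_82.enc h1 h2) (enc_add (kfc23_105.enc h1 h2) (enc_mul (enc_norm (enc_mul (enc_norm (enc_sub (enc_wB3 (enc_mul (enc_norm (kfc23_55.enc h1 h2)) (enc_norm (enc_add (enc_mul (enc_norm (kfc23_62.enc h1 h2)) (enc_inv (kfc23_52.enc h1 h2))) (kfc23_53.enc h1 h2)))) (kfc23_47.enc h1 h2) (kfc23_48.enc h1 h2) (kfc23_52.enc h1 h2) (kfc23_55.enc h1 h2) (kfc23_62.enc h1 h2) (kfc23_53.enc h1 h2) (ycg.enc h1) rfl rfl rfl rfl rfl) (kfc23_105.enc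 h1 h2))) (enc_norm (enc_sub (kfc23_9.enc h1 h2) (kfc23_68.enc h1 h2))))) (enc_inv (enc_sub (kfc23_6.enc h1 h2) (kfc23_68.enc h1 h2))))) (enc_mul (enc_norm (kfc23_9.enc h1 h2)) (enc_norm (enc_case (enc_sub (enc_rat _ 288811357 1000000000) h1) (enc_add (enc_subr 98275611296553509 147734267500000000 (enc_scaleT 471133874 295468535 h1)) (enc_mul (enc_norm (kfc23_11.enc h1 h2)) (enc_norm (enc_subr 64391826020685103 1846678343750000 (enc_scaleT 5757112928 59093707 h1))))) (enc_sub (enc_sub (enc_rat _ 1 2) (enc_scaleT 704700000 288811357 h1)) (enc_mul (enc_norm (kfc23_11.enc h1 h2)) (enc_scaleT 6732000000 288811357 h1)))))))))⟩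
noncomputable def lc23_6 : Fn2 := ⟨_, _, fun h1 h2 => (enc_subr 1 2 (swg.enc (ycg.enc h1)))⟩
noncomputable def lc23_9 : Fn2 := ⟨_, _, fun h1 h2 => (enc_add (enc_scaleT 9 10 (lc23_6.enc h1 h2)) (enc_scaleT 1 10 h1))⟩
noncomputable def lc23_11 : Fn2 := ⟨_, _, fun h1 h2 => (enc_subr 237 260 h2)⟩
noncomputable def lc23_38 : Fn2 := ⟨_, _, fun h1 h2 => (enc_sq (enc_norm (lc23_11.enc h1 h2)))⟩
noncomputable def lc23_44 : Fn2 := ⟨_, _, fun h1 h2 => (enc_sub (enc_rat _ 288811357 1000000000) h1)⟩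
noncomputable def lc23_71 : Fn2 := ⟨_, _, fun h1 h2 => (enc_subn 1 (ycg.enc h1))⟩
noncomputable def lc23_84 : Fn2 := ⟨_, _, fun h1 h2 => (cv1r.enc (ycg.enc h1))⟩
noncomputable def lc23_88 : Fn2 := ⟨_, _, fun h1 h2 => (enc_subr 47 25 (ycg.enc h1))⟩
noncomputable def lc23_111 : Fn2 := ⟨_, _, fun h1 h2 => (enc_subr 243 125 (ycg.enc h1))⟩
noncomputable def lc23_142 : Fn2 := ⟨_, _, fun h1 h2 => (enc_mul (lc23_84.enc h1 h2) (enc_norm (enc_case (enc_subr 31 16 (ycg.enc h1)) (enc_case (lc23_88.enc h1 h2) (enc_add (enc_subr 853281 475000 (enc_scaleT 6797 4750 (ycg.enc h1))) (enc_mul (enc_norm (lc23_11.enc h1 h2)) (enc_norm (enc_subr 329971 47500 (enc_scaleT 9143 1900 (ycg.enc h1)))))) (enc_add (enc_subr 1032929 575000 (enc_scaleT 4114 2875 (ycg.enc h1))) (enc_mul (enc_norm (lc23_11.enc h1 h2)) (enc_norm (enc_sub (enc_rat _ 576999 28750) (enc_scaleT 5496 575 (ycg.enc h1)))))))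 (enc_case (lc23_111.enc h1 h2) (enc_add (enc_subr 2338721 1300000 (enc_scaleT 931 650 (ycg.enc h1))) (enc_mul (enc_norm (lc23_11.enc h1 h2)) (enc_norm (enc_sub (enc_rat _ 1860013 32500) (enc_scaleT 1868 65 (ycg.enc h1)))))) (enc_case (lc23_44.enc h1 h2) (enc_add (enc_add (enc_scaleT 18770000 59093707 h1) (enc_rat _ 2529549050453 2954685350000)) (enc_mul (enc_norm (lc23_11.enc h1 h2)) (enc_norm (enc_sub (enc_rat _ 5891251432297 590937070000) (enc_scaleT 1249500000 59093707 h1))))) (enc_add (enc_add (enc_scaleT 91710000 288811357 h1) (enc_rat _ 42807 50000)) (enc_mul (enc_norm (lc23_11.enc h1 h2)) (enc_norm (enc_add (enc_scaleT 1673400000 288811357 h1) (enc_rat _ 5473 2500))))))))))⟩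
noncomputable def lc23 : Fn2 := ⟨_, _, fun h1 h2 => (enc_norm (enc_case (lc23_88.enc h1 h2) (enc_mul (enc_norm (lc23_9.enc h1 h2)) (enc_norm (enc_case (enc_subr 913 500 (ycg.enc h1)) (enc_add (enc_subr 8269341 8150000 (enc_scaleT 7479 8150 (ycg.enc h1))) (enc_mul (enc_norm (lc23_11.enc h1 h2)) (enc_norm (enc_sub (enc_rat _ 2507191 1630000) (enc_scaleT 3537 3260 (ycg.enc h1)))))) (enc_add (enc_add (enc_subr 137004241409 135000000000 (enc_scaleT 247800593 270000000 (ycg.enc h1))) (enc_mul (enc_norm (lc23_11.enc h1 h2)) (enc_norm (enc_subr 1150946530837 27000000000 (enc_scaleT 1247519749 54000000 (ycg.enc h1)))))) (enc_mul (lc23_38.enc h1 h2) (enc_norm (enc_sub (enc_rat _ 3020206739 27000000) (enc_scaleT 3308003 54000 (ycg.enc h1))))))))) (enc_case (lc23_111.enc h1 h2) (enc_add (lc23_142.enc h1 h2) (enc_mul (enc_norm (enc_mul (enc_norm (enc_sub (enc_sub (qsg.enc (enc_norm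 (lc23_71.enc h1 h2))) (enc_mul (enc_norm (enc_nat 2 (enc_sub (lc23_71.enc h1 h2) h2))) (enc_norm (enc_mul (esg.enc (enc_norm (lc23_71.enc h1 h2))) (kcg.enc (enc_norm (enc_sub (enc_scaleT 3 4 (lc23_71.enc h1 h2)) (enc_half (gsg.enc (enc_norm (lc23_71.enc h1 h2)))))) h2))))) (lc23_142.enc h1 h2))) (enc_norm (enc_sub (lc23_9.enc h1 h2) (lc23_84.enc h1 h2))))) (enc_inv (enc_sub (lc23_6.enc h1 h2) (lc23_84.enc h1 h2))))) (enc_mul (enc_norm (lc23_9.enc h1 h2)) (enc_norm (enc_case (lc23_44.enc h1 h2) (enc_add (enc_add (enc_sub (enc_rat _ 462844931071488393 590937070000000000) (enc_scaleT 48326749 590937070 h1)) (enc_mul (enc_norm (lc23_11.enc h1 h2)) (enc_norm (enc_add (enc_scaleT 159412007 59093707 h1) (enc_rat _ 31750957831036501 59093707000000000))))) (enc_mul (lc23_38.enc h1 h2) (enc_norm (enc_subr 6341430965649 29546853500000 (enc_scaleT 43914000 59093707 h1)))))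 (enc_add (enc_add (enc_scaleT 157025000 288811357 h1) (enc_rat _ 120519 200000)) (enc_mul (enc_norm (lc23_11.enc h1 h2)) (enc_norm (enc_add (enc_scaleT 610550000 288811357 h1) (enc_rat _ 14117 20000)))))))))))⟩
noncomputable def kcc23_6 : Fn2 := ⟨_, _, fun h1 h2 => (enc_subr 1 2 (swg.enc (ycg.enc h1)))⟩
noncomputable def kcc23_9 : Fn2 := ⟨_, _, fun h1 h2 => (enc_add (enc_scaleT 9 10 (kcc23_6.enc h1 h2)) (enc_scaleT 1 10 h1))⟩
noncomputable def kcc23_11 : Fn2 := ⟨_, _, fun h1 h2 => (enc_subr 237 260 h2)⟩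
noncomputable def kcc23_33 : Fn2 := ⟨_, _, fun h1 h2 => (enc_subn 1 (ycg.enc h1))⟩
noncomputable def kcc23_34 : Fn2 := ⟨_, _, fun h1 h2 => (gsg.enc (enc_norm (kcc23_33.enc h1 h2)))⟩
noncomputable def kcc23_38 : Fn2 := ⟨_, _, fun h1 h2 => (esg.enc (enc_norm (kcc23_33.enc h1 h2)))⟩
noncomputable def kcc23_43 : Fn2 := ⟨_, _, fun h1 h2 => (gug.enc (enc_norm (kcc23_33.enc h1 h2)))⟩
noncomputable def kcc23_45 : Fn2 := ⟨_, _, fun h1 h2 => (enc_mul (enc_norm (kcc23_33.enc h1 h2)) (enc_inv (kcc23_34.enc h1 h2)))⟩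
noncomputable def kcc23_46 : Fn2 := ⟨_, _, fun h1 h2 => (enc_scaleT 3 4 (kcc23_45.enc h1 h2))⟩
noncomputable def kcc23_72 : Fn2 := ⟨_, _, fun h1 h2 => (cv1r.enc (ycg.enc h1))⟩
noncomputable def kcc23_74 : Fn2 := ⟨_, _, fun h1 h2 => (enc_subr 243 125 (ycg.enc h1))⟩
noncomputable def kcc23_96 : Fn2 := ⟨_, _, fun h1 h2 => (enc_mul (kcc23_72.enc h1 h2) (enc_norm (enc_case (kcc23_74.enc h1 h2) (enc_add (enc_subr 1876311 185000 (enc_scaleT 3249 370 (ycg.enc h1))) (enc_mul (enc_norm (kcc23_11.enc h1 h2)) (enc_norm (enc_sub (enc_rat _ 6301743 18500) (enc_scaleT 130945 444 (ycg.enc h1)))))) (enc_add (enc_subr 39 1250 (enc_scaleT 2319800000 135666257 h1)) (enc_mul (enc_norm (kcc23_11.enc h1 h2)) (enc_norm (enc_sub (enc_rat _ 298 125) (enc_scaleT 235076000000 406998771 h1))))))))⟩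
noncomputable def kcc23 : Fn2 := ⟨_, _, fun h1 h2 => (enc_norm (enc_case (enc_subr 47 25 (ycg.enc h1)) (enc_mul (enc_norm (kcc23_9.enc h1 h2)) (enc_norm (enc_add (enc_subr 9060498839 1520000000 (enc_scaleT 4428243613 760000000 (ycg.enc h1))) (enc_mul (enc_norm (kcc23_11.enc h1 h2)) (enc_norm (enc_subr 4065279651 40000000 (enc_scaleT 1810013217 20000000 (ycg.enc h1)))))))) (enc_case (kcc23_74.enc h1 h2) (enc_add (kcc23_96.enc h1 h2) (enc_mul (enc_norm (enc_mul (enc_norm (enc_sub (enc_add (enc_sub (enc_add (enc_add (enc_rat _ 3 4) (enc_scaleT 3 2 (kcc23_33.enc h1 h2))) (enc_scaleT 3 4 (enc_mul (enc_norm (kcc23_45.enc h1 h2)) (kcc23_43.enc h1 h2)))) (enc_wT (enc_mul (enc_norm (enc_sub (enc_mul (enc_norm (enc_mul (enc_norm (kcc23_46.enc h1 h2)) (enc_norm (enc_subn 3 (enc_nat 4 (kcc23_34.enc h1 h2)))))) (kcc23_38.enc h1 h2)) (enc_mul (qsg.enc (enc_norm (kcc23_33.enc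 h1 h2))) (enc_norm (enc_sub (enc_rat _ 1 2) (kcc23_46.enc h1 h2)))))) (enc_inv (enc_mul (enc_nat 2 (kcc23_38.enc h1 h2)) (kcc23_38.enc h1 h2)))) (kcc23_33.enc h1 h2) (kcc23_34.enc h1 h2) (kcc23_38.enc h1 h2) rfl rfl rfl rfl)) (enc_mul (kcg.enc (enc_norm (enc_sub (enc_scaleT 3 4 (kcc23_33.enc h1 h2)) (enc_half (kcc23_34.enc h1 h2)))) h2) (enc_norm (enc_sub (enc_pnc _ 1) (enc_add (kcc23_43.enc h1 h2) (enc_nat 2 (kcc23_34.enc h1 h2))))))) (kcc23_96.enc h1 h2))) (enc_norm (enc_sub (kcc23_9.enc h1 h2) (kcc23_72.enc h1 h2))))) (enc_inv (enc_sub (kcc23_6.enc h1 h2) (kcc23_72.enc h1 h2))))) (enc_mul (enc_norm (kcc23_9.enc h1 h2)) (enc_norm (enc_add (enc_add (enc_scaleT 4587218624431 339843973785 h1) (enc_rat _ 5661 1670)) (enc_mul (enc_norm (kcc23_11.enc h1 h2)) (enc_norm (enc_add (enc_scaleT 9318062021243 67968794757 h1) (enc_rat _ 111 167))))))))))⟩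
noncomputable def cv3m : Fn1 := ⟨_, _, fun h1 => (enc_norm (enc_add (enc_scaleT 2 5 (enc_add (swg.enc h1) (enc_rat _ 1 2))) (enc_scaleT 3 5 (c3g.enc h1))))⟩
noncomputable def bf3q0 : Fn2 := ⟨_, _, fun h1 h2 => (enc_norm (enc_add (enc_sub (enc_rat _ 39521 100000) (enc_scaleT 78321 50000 h1)) (enc_mul (enc_norm (enc_subr 237 260 h2)) (enc_norm (enc_add (enc_scaleT 8797 5000 h1) (enc_rat _ 10487 10000))))))⟩
noncomputable def kf3q0 : Fn2 := ⟨_, _, fun h1 h2 => (enc_norm (enc_mul (cv3m.enc h1) (bf3q0.enc h1 h2)))⟩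
noncomputable def bx3q0_3 : Fn2 := ⟨_, _, fun h1 h2 => (enc_subr 237 260 h2)⟩
noncomputable def bx3q0 : Fn2 := ⟨_, _, fun h1 h2 => (enc_norm (enc_case (enc_subr 83 250 h1) (enc_add (enc_sub (enc_rat _ 23219 100000) (enc_scaleT 7591 33200 h1)) (enc_mul (enc_norm (bx3q0_3.enc h1 h2)) (enc_norm (enc_sub (enc_rat _ 9333 10000) (enc_scaleT 1089 830 h1))))) (enc_add (enc_sub (enc_rat _ 975179 4200000) (enc_scaleT 3841 16800 h1)) (enc_mul (enc_norm (bx3q0_3.enc h1 h2)) (enc_norm (enc_sub (enc_rat _ 195983 210000) (enc_scaleT 551 420 h1)))))))⟩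
noncomputable def l3q0 : Fn2 := ⟨_, _, fun h1 h2 => (enc_norm (enc_mul (cv3m.enc h1) (bx3q0.enc h1 h2)))⟩
noncomputable def bd3q0 : Fn2 := ⟨_, _, fun h1 h2 => (enc_norm (enc_add (enc_sub (enc_rat _ 26989 10000) (enc_scaleT 2699 1000 h1)) (enc_mul (enc_norm (enc_subr 237 260 h2)) (enc_norm (enc_subr 183 40 (enc_scaleT 572 125 h1))))))⟩
noncomputable def kc3q0 : Fn2 := ⟨_, _, fun h1 h2 => (enc_norm (enc_mul (cv3m.enc h1) (bd3q0.enc h1 h2)))⟩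
noncomputable def bf3q1 : Fn2 := ⟨_, _, fun h1 h2 => (enc_norm (enc_add (enc_subr 1671 6250 (enc_scaleT 7921 6250 h1)) (enc_mul (enc_norm (enc_subr 237 260 h2)) (enc_norm (enc_subr 297 250 (enc_scaleT 297 250 h1))))))⟩
noncomputable def kf3q1 : Fn2 := ⟨_, _, fun h1 h2 => (enc_norm (enc_mul (cv3m.enc h1) (bf3q1.enc h1 h2)))⟩
noncomputable def bx3q1 : Fn2 := ⟨_, _, fun h1 h2 => (enc_norm (enc_add (enc_sub (enc_rat _ 11787 50000) (enc_scaleT 11787 50000 h1)) (enc_mul (enc_norm (enc_subr 237 260 h2)) (enc_norm (enc_sub (enc_rat _ 2773 5000) (enc_scaleT 2773 5000 h1))))))⟩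
noncomputable def l3q1 : Fn2 := ⟨_, _, fun h1 h2 => (enc_norm (enc_mul (cv3m.enc h1) (bx3q1.enc h1 h2)))⟩
noncomputable def bd3q1 : Fn2 := ⟨_, _, fun h1 h2 => (enc_norm (enc_add (enc_sub (enc_rat _ 6747 2500) (enc_scaleT 6747 2500 h1)) (enc_mul (enc_norm (enc_subr 237 260 h2)) (enc_norm (enc_subr 2287 500 (enc_scaleT 2287 500 h1))))))⟩
noncomputable def kc3q1 : Fn2 := ⟨_, _, fun h1 h2 => (enc_norm (enc_mul (cv3m.enc h1) (bd3q1.enc h1 h2)))⟩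
noncomputable def cv3p : Fn1 := ⟨_, _, fun h1 => (enc_norm (enc_add (enc_scaleT 2 5 (enc_subr 1 2 (swg.enc h1))) (enc_scaleT 3 5 (c3g.enc h1))))⟩
noncomputable def bf3q2 : Fn2 := ⟨_, _, fun h1 h2 => (enc_norm (enc_add (enc_subr 21751 50000 (enc_scaleT 55267 50000 h1)) (enc_mul (enc_norm (enc_subr 237 260 h2)) (enc_norm (enc_subr 284723 5000 (enc_scaleT 282477 5000 h1))))))⟩
noncomputable def kf3q2 : Fn2 := ⟨_, _, fun h1 h2 => (enc_norm (enc_mul (cv3p.enc h1) (bf3q2.enc h1 h2)))⟩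
noncomputable def bx3q2_3 : Fn2 := ⟨_, _, fun h1 h2 => (enc_subr 237 260 h2)⟩
noncomputable def bx3q2 : Fn2 := ⟨_, _, fun h1 h2 => (enc_norm (enc_case (enc_subr 166 125 h1) (enc_add (enc_subr 1067131 2050000 (enc_scaleT 813 1640 h1)) (enc_mul (enc_norm (bx3q2_3.enc h1 h2)) (enc_norm (enc_sub (enc_rat _ 359871 51250) (enc_scaleT 5467 820 h1))))) (enc_case (enc_subr 1443 1000 h1) (enc_add (enc_subr 3052989 5750000 (enc_scaleT 5791 11500 h1)) (enc_mul (enc_norm (bx3q2_3.enc h1 h2)) (enc_norm (enc_subr 795011 71875 (enc_scaleT 3996 575 h1))))) (enc_add (enc_subr 1746513 1900000 (enc_scaleT 367 475 h1)) (enc_mul (enc_norm (bx3q2_3.enc h1 h2)) (enc_norm (enc_subr 525729 47500 (enc_scaleT 1982 285 h1))))))))⟩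
noncomputable def l3q2 : Fn2 := ⟨_, _, fun h1 h2 => (enc_norm (enc_mul (cv3p.enc h1) (bx3q2.enc h1 h2)))⟩
noncomputable def bd3q2 : Fn2 := ⟨_, _, fun h1 h2 => (enc_norm (enc_add (enc_sub (enc_rat _ 97727 10000) (enc_scaleT 21677 5000 h1)) (enc_mul (enc_norm (enc_subr 237 260 h2)) (enc_norm (enc_sub (enc_rat _ 192859 1000) (enc_scaleT 19419 125 h1))))))⟩
noncomputable def kc3q2 : Fn2 := ⟨_, _, fun h1 h2 => (enc_norm (enc_mul (cv3p.enc h1) (bd3q2.enc h1 h2)))⟩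
noncomputable def xc33 : Fn1 := ⟨_, _, fun h1 => (enc_norm (enc_add (enc_scaleT 2 5 (enc_subr 1 2 (swg.enc (ycg.enc h1)))) (enc_scaleT 3 5 h1)))⟩
noncomputable def kfc33_11 : Fn2 := ⟨_, _, fun h1 h2 => (enc_subr 237 260 h2)⟩
noncomputable def kfc33 : Fn2 := ⟨_, _, fun h1 h2 => (enc_norm (enc_mul (enc_norm (enc_add (enc_scaleT 2 5 (enc_subr 1 2 (swg.enc (ycg.enc h1)))) (enc_scaleT 3 5 h1))) (enc_norm (enc_case (enc_subr 243 125 (ycg.enc h1)) (enc_case (enc_subr 31 16 (ycg.enc h1)) (enc_add (enc_subr 472263 140000 (enc_scaleT 39461 21875 (ycg.enc h1))) (enc_mul (enc_norm (kfc33_11.enc h1 h2)) (enc_norm (enc_subr 14786157 70000 (enc_scaleT 98246 875 (ycg.enc h1)))))) (enc_add (enc_subr 4383147 1300000 (enc_scaleT 586 325 (ycg.enc h1))) (enc_mul (enc_norm (kfc33_11.enc h1 h2)) (enc_norm (enc_subr 27458943 130000 (enc_scaleT 7298 65 (ycg.enc h1))))))) (enc_case (enc_sub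 (enc_rat _ 288811357 1000000000) h1) (enc_add (enc_sub (enc_rat _ 2720694436737 5909370700000) (enc_scaleT 47460000 59093707 h1)) (enc_mul (enc_norm (kfc33_11.enc h1 h2)) (enc_norm (enc_subr 27978302496969 1181874140000 (enc_scaleT 4459850000 59093707 h1))))) (enc_sub (enc_sub (enc_rat _ 1 2) (enc_scaleT 271550000 288811357 h1)) (enc_mul (enc_norm (kfc33_11.enc h1 h2)) (enc_scaleT 1876000000 288811357 h1))))))))⟩
noncomputable def lc33_11 : Fn2 := ⟨_, _, fun h1 h2 => (enc_subr 237 260 h2)⟩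
noncomputable def lc33 : Fn2 := ⟨_, _, fun h1 h2 => (enc_norm (enc_mul (enc_norm (enc_add (enc_scaleT 2 5 (enc_subr 1 2 (swg.enc (ycg.enc h1)))) (enc_scaleT 3 5 h1))) (enc_norm (enc_case (enc_subr 243 125 (ycg.enc h1)) (enc_case (enc_subr 31 16 (ycg.enc h1)) (enc_add (enc_subr 643437 700000 (enc_scaleT 16901 21875 (ycg.enc h1))) (enc_mul (enc_norm (lc33_11.enc h1 h2)) (enc_norm (enc_subr 38741 3500 (enc_scaleT 30428 4375 (ycg.enc h1)))))) (enc_add (enc_subr 47767 52000 (enc_scaleT 251 325 (ycg.enc h1))) (enc_mul (enc_norm (lc33_11.enc h1 h2)) (enc_norm (enc_subr 359667 32500 (enc_scaleT 452 65 (ycg.enc h1))))))) (enc_case (enc_sub (enc_rat _ 288811357 1000000000) h1) (enc_add (enc_sub (enc_rat _ 7674336550021 11818741400000) (enc_scaleT 9665000 59093707 h1)) (enc_mul (enc_norm (lc33_11.enc h1 h2)) (enc_norm (enc_subr 2103311257653 1181874140000 (enc_scaleT 614350000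 59093707 h1))))) (enc_add (enc_sub (enc_rat _ 120519 200000) (enc_scaleT 495000 288811357 h1)) (enc_mul (enc_norm (lc33_11.enc h1 h2)) (enc_norm (enc_add (enc_scaleT 517050000 288811357 h1) (enc_rat _ 14117 20000))))))))))⟩
noncomputable def kcc33_11 : Fn2 := ⟨_, _, fun h1 h2 => (enc_subr 237 260 h2)⟩
noncomputable def kcc33 : Fn2 := ⟨_, _, fun h1 h2 => (enc_norm (enc_mul (enc_norm (enc_add (enc_scaleT 2 5 (enc_subr 1 2 (swg.enc (ycg.enc h1)))) (enc_scaleT 3 5 h1))) (enc_norm (enc_case (enc_subr 47 25 (ycg.enc h1)) (enc_add (enc_sub (enc_rat _ 928387 95000) (enc_scaleT 8237 1900 (ycg.enc h1))) (enc_mul (enc_norm (kcc33_11.enc h1 h2)) (enc_norm (enc_sub (enc_rat _ 3664339 19000) (enc_scaleT 29517 190 (ycg.enc h1)))))) (enc_case (enc_subr 243 125 (ycg.enc h1)) (enc_add (enc_sub (enc_rat _ 781901 80000) (enc_scaleT 555 128 (ycg.enc h1))) (enc_mul (enc_norm (kcc33_11.enc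 h1 h2)) (enc_norm (enc_sub (enc_rat _ 771373 4000) (enc_scaleT 4971 32 (ycg.enc h1)))))) (enc_add (enc_sub (enc_rat _ 5661 1670) (enc_scaleT 341535100000 67968794757 h1)) (enc_mul (enc_norm (kcc33_11.enc h1 h2)) (enc_norm (enc_sub (enc_rat _ 111 167) (enc_scaleT 18338215000000 67968794757 h1))))))))))⟩
noncomputable def kf4q0 : Fn2 := ⟨_, _, fun h1 h2 => (enc_norm (enc_sub (enc_mul h1 (kcg.enc (enc_half h1) h2)) (enc_mul (enc_norm (enc_mul (enc_sq h1) (enc_norm (enc_add (c3g.enc h1) (enc_rat _ 3 2))))) (enc_inv (enc_mul (enc_norm (enc_sub (enc_pnc _ 1) h1)) (enc_norm (enc_add (enc_pnc _ 1) h1)))))))⟩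
noncomputable def l4q0_6 : Fn2 := ⟨_, _, fun h1 h2 => (enc_half h1)⟩
noncomputable def l4q0_7 : Fn2 := ⟨_, _, fun h1 h2 => (enc_half (c3g.enc h1))⟩
noncomputable def l4q0_8 : Fn2 := ⟨_, _, fun h1 h2 => (enc_scaleT 1 4 h1)⟩
noncomputable def l4q0 : Fn2 := ⟨_, _, fun h1 h2 => (enc_norm (enc_add (txg.enc (l4q0_6.enc h1 h2) (enc_norm (enc_sub (l4q0_7.enc h1 h2) (l4q0_8.enc h1 h2))) h2) (txg.enc (enc_neg (l4q0_6.enc h1 h2)) (enc_norm (enc_add (l4q0_7.enc h1 h2) (l4q0_8.enc h1 h2))) h2)))⟩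
noncomputable def kc4q0_3 : Fn2 := ⟨_, _, fun h1 h2 => (enc_subr 237 260 h2)⟩
noncomputable def kc4q0_6 : Fn2 := ⟨_, _, fun h1 h2 => (enc_half h1)⟩
noncomputable def kc4q0 : Fn2 := ⟨_, _, fun h1 h2 => (enc_norm (enc_case (enc_subr 167 1000 (kc4q0_6.enc h1 h2)) (enc_add (enc_sub (enc_rat _ 2201 400) (enc_scaleT 20017 3340 h1)) (enc_mul (enc_norm (kc4q0_3.enc h1 h2)) (enc_norm (enc_subr 216533 1000 (enc_neg (enc_scaleT 18185 334 h1)))))) (enc_case (enc_subr 333 1000 (kc4q0_6.enc h1 h2)) (enc_add (enc_sub (enc_rat _ 9134127 1660000) (enc_scaleT 19897 3320 h1)) (enc_mul (enc_norm (kc4q0_3.enc h1 h2)) (enc_norm (enc_subr 35944329 166000 (enc_neg (enc_scaleT 18077 332 h1)))))) (enc_add (enc_sub (enc_rat _ 15111 3340) (enc_scaleT 15111 3340 h1)) (enc_mul (enc_norm (kc4q0_3.enc h1 h2)) (enc_norm (enc_subr 252795 334 (enc_scaleT 252795 334 h1))))))))⟩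
noncomputable def kf4q1 : Fn2 := ⟨_, _, fun h1 h2 => (enc_norm (enc_add (enc_mul (enc_norm (enc_mul h1 (enc_norm (enc_add (c3g.enc h1) (enc_rat _ 3 2))))) (enc_inv (enc_add (enc_pnc _ 1) h1))) (enc_mul (enc_norm (enc_subn 1 h1)) (kcg.enc (enc_half h1) h2))))⟩
noncomputable def l4q1_7 : Fn2 := ⟨_, _, fun h1 h2 => (enc_half h1)⟩
noncomputable def l4q1_8 : Fn2 := ⟨_, _, fun h1 h2 => (enc_half (c3g.enc h1))⟩
noncomputable def l4q1_9 : Fn2 := ⟨_, _, fun h1 h2 => (enc_scaleT 1 4 h1)⟩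
noncomputable def l4q1 : Fn2 := ⟨_, _, fun h1 h2 => (enc_norm (enc_add (txg.enc (l4q1_7.enc h1 h2) (enc_norm (enc_sub (l4q1_8.enc h1 h2) (l4q1_9.enc h1 h2))) h2) (txg.enc (enc_neg (l4q1_7.enc h1 h2)) (enc_norm (enc_add (l4q1_8.enc h1 h2) (l4q1_9.enc h1 h2))) h2)))⟩
noncomputable def kc4q1_3 : Fn2 := ⟨_, _, fun h1 h2 => (enc_subr 237 260 h2)⟩
noncomputable def kc4q1_7 : Fn2 := ⟨_, _, fun h1 h2 => (enc_half h1)⟩
noncomputable def kc4q1 : Fn2 := ⟨_, _, fun h1 h2 => (enc_norm (enc_case (enc_subr 167 1000 (kc4q1_7.enc h1 h2)) (enc_add (enc_sub (enc_rat _ 2201 400) (enc_scaleT 20017 3340 h1)) (enc_mul (enc_norm (kc4q1_3.enc h1 h2)) (enc_norm (enc_subr 216533 1000 (enc_neg (enc_scaleT 18185 334 h1)))))) (enc_case (enc_subr 333 1000 (kc4q1_7.enc h1 h2)) (enc_add (enc_sub (enc_rat _ 9134127 1660000) (enc_scaleT 19897 3320 h1)) (enc_mul (enc_norm (kc4q1_3.enc h1 h2)) (enc_norm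 (enc_subr 35944329 166000 (enc_neg (enc_scaleT 18077 332 h1)))))) (enc_add (enc_sub (enc_rat _ 15111 3340) (enc_scaleT 15111 3340 h1)) (enc_mul (enc_norm (kc4q1_3.enc h1 h2)) (enc_norm (enc_subr 252795 334 (enc_scaleT 252795 334 h1))))))))⟩
noncomputable def kf4q2 : Fn2 := ⟨_, _, fun h1 h2 => (enc_norm (enc_add (enc_mul (enc_norm (enc_mul (enc_norm (enc_sub (enc_nat 2 (c3g.enc h1)) h1)) (enc_norm (enc_sub (enc_add (c3g.enc h1) (enc_pnc _ 3)) (enc_scaleT 3 2 h1))))) (enc_inv (enc_nat 4 (enc_sub (enc_pnc _ 2) h1)))) (enc_mul (enc_norm (enc_subn 1 h1)) (kcg.enc (enc_norm (enc_sub (enc_scaleT 1 4 h1) (enc_half (c3g.enc h1)))) h2))))⟩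
noncomputable def l4q2_7 : Fn2 := ⟨_, _, fun h1 h2 => (enc_half (c3g.enc h1))⟩
noncomputable def l4q2_8 : Fn2 := ⟨_, _, fun h1 h2 => (enc_scaleT 1 4 h1)⟩
noncomputable def l4q2_9 : Fn2 := ⟨_, _, fun h1 h2 => (enc_sub (l4q2_7.enc h1 h2) (l4q2_8.enc h1 h2))⟩
noncomputable def l4q2_12 : Fn2 := ⟨_, _, fun h1 h2 => (enc_add (enc_scaleT 1 4 (c3g.enc h1)) (enc_scaleT 3 8 h1))⟩
noncomputable def l4q2_14 : Fn2 := ⟨_, _, fun h1 h2 => (enc_half (l4q2_9.enc h1 h2))⟩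
noncomputable def l4q2 : Fn2 := ⟨_, _, fun h1 h2 => (enc_norm (enc_sub (enc_nat 2 (txg.enc (enc_norm (enc_sub (l4q2_8.enc h1 h2) (l4q2_7.enc h1 h2))) (enc_norm (enc_add (l4q2_12.enc h1 h2) (l4q2_14.enc h1 h2))) h2)) (txg.enc (enc_norm (l4q2_9.enc h1 h2)) (enc_norm (enc_sub (l4q2_12.enc h1 h2) (l4q2_14.enc h1 h2))) h2)))⟩
noncomputable def kc4q2_3 : Fn2 := ⟨_, _, fun h1 h2 => (enc_subr 237 260 h2)⟩
noncomputable def kc4q2_9 : Fn2 := ⟨_, _, fun h1 h2 => (enc_sub (enc_half (c3g.enc h1)) (enc_scaleT 1 4 h1))⟩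
noncomputable def kc4q2_26 : Fn2 := ⟨_, _, fun h1 h2 => (enc_neg (enc_scaleT 2268 415 (kc4q2_9.enc h1 h2)))⟩
noncomputable def kc4q2_43 : Fn2 := ⟨_, _, fun h1 h2 => (enc_mul (enc_norm (kc4q2_3.enc h1 h2)) (enc_norm (enc_add (enc_scaleT 47831 167 (kc4q2_9.enc h1 h2)) (enc_rat _ 47799 500))))⟩
noncomputable def kc4q2 : Fn2 := ⟨_, _, fun h1 h2 => (enc_norm (enc_case (kc4q2_9.enc h1 h2) (enc_case (enc_add (kc4q2_9.enc h1 h2) (enc_rat _ 333 1000)) (enc_add (enc_add (enc_scaleT 5661 835 (kc4q2_9.enc h1 h2)) (enc_rat _ 5661 1670)) (enc_mul (enc_norm (kc4q2_3.enc h1 h2)) (enc_norm (enc_add (enc_scaleT 222 167 (kc4q2_9.enc h1 h2)) (enc_rat _ 111 167))))) (enc_case (enc_add (kc4q2_9.enc h1 h2) (enc_rat _ 167 1000)) (enc_add (enc_subr 285381 415000 (kc4q2_26.enc h1 h2)) (enc_mul (enc_norm (kc4q2_3.enc h1 h2)) (enc_norm (enc_add (enc_scaleT 47545 166 (kc4q2_9.enc h1 h2)) (enc_rat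 _ 15869337 166000))))) (enc_add (enc_subr 6877 10000 (enc_neg (enc_scaleT 9127 1670 (kc4q2_9.enc h1 h2)))) (kc4q2_43.enc h1 h2)))) (enc_case (enc_subr 167 1000 (kc4q2_9.enc h1 h2)) (enc_add (enc_subr 6877 10000 (enc_neg (enc_scaleT 4564 835 (kc4q2_9.enc h1 h2)))) (kc4q2_43.enc h1 h2)) (enc_case (enc_subr 333 1000 (kc4q2_9.enc h1 h2)) (enc_add (enc_subr 570903 830000 (kc4q2_26.enc h1 h2)) (enc_mul (enc_norm (kc4q2_3.enc h1 h2)) (enc_norm (enc_add (enc_scaleT 23772 83 (kc4q2_9.enc h1 h2)) (enc_rat _ 7934683 83000))))) (enc_add (enc_subr 25077 3340 (enc_scaleT 25077 1670 (kc4q2_9.enc h1 h2))) (enc_mul (enc_norm (kc4q2_3.enc h1 h2)) (enc_norm (enc_sub (enc_rat _ 190973 334) (enc_scaleT 190973 167 (kc4q2_9.enc h1 h2))))))))))⟩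
noncomputable def kfc43 : Fn2 := ⟨_, _, fun h1 h2 => (enc_norm (enc_sub (enc_mul (enc_norm (enc_subn 2 (ycg.enc h1))) (kcg.enc (enc_norm (enc_sub (enc_scaleT 1 4 (ycg.enc h1)) (enc_half h1))) h2)) (enc_mul (enc_norm (enc_mul (enc_norm (enc_sub (enc_nat 2 h1) (ycg.enc h1))) (enc_norm (enc_sub (enc_add h1 (enc_pnc _ 3)) (enc_scaleT 3 2 (ycg.enc h1)))))) (enc_inv (enc_nat 4 (enc_subn 1 (ycg.enc h1)))))))⟩
noncomputable def lc43_7 : Fn2 := ⟨_, _, fun h1 h2 => (enc_half h1)⟩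
noncomputable def lc43_8 : Fn2 := ⟨_, _, fun h1 h2 => (enc_scaleT 1 4 (ycg.enc h1))⟩
noncomputable def lc43_9 : Fn2 := ⟨_, _, fun h1 h2 => (enc_sub (lc43_7.enc h1 h2) (lc43_8.enc h1 h2))⟩
noncomputable def lc43_12 : Fn2 := ⟨_, _, fun h1 h2 => (enc_add (enc_scaleT 1 4 h1) (enc_scaleT 3 8 (ycg.enc h1)))⟩
noncomputable def lc43_14 : Fn2 := ⟨_, _, fun h1 h2 => (enc_half (lc43_9.enc h1 h2))⟩
noncomputable def lc43 : Fn2 := ⟨_, _, fun h1 h2 => (enc_norm (enc_sub (enc_nat 2 (txg.enc (enc_norm (enc_sub (lc43_8.enc h1 h2) (lc43_7.enc h1 h2))) (enc_norm (enc_add (lc43_12.enc h1 h2) (lc43_14.enc h1 h2))) h2)) (txg.enc (enc_norm (lc43_9.enc h1 h2)) (enc_norm (enc_sub (lc43_12.enc h1 h2) (lc43_14.enc h1 h2))) h2)))⟩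
noncomputable def kcc43_4 : Fn2 := ⟨_, _, fun h1 h2 => (enc_subr 237 260 h2)⟩
noncomputable def kcc43_9 : Fn2 := ⟨_, _, fun h1 h2 => (enc_sub (enc_half h1) (enc_scaleT 1 4 (ycg.enc h1)))⟩
noncomputable def kcc43_26 : Fn2 := ⟨_, _, fun h1 h2 => (enc_neg (enc_scaleT 2268 415 (kcc43_9.enc h1 h2)))⟩
noncomputable def kcc43_43 : Fn2 := ⟨_, _, fun h1 h2 => (enc_mul (enc_norm (kcc43_4.enc h1 h2)) (enc_norm (enc_add (enc_scaleT 47831 167 (kcc43_9.enc h1 h2)) (enc_rat _ 47799 500))))⟩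
noncomputable def kcc43 : Fn2 := ⟨_, _, fun h1 h2 => (enc_norm (enc_case (kcc43_9.enc h1 h2) (enc_case (enc_add (kcc43_9.enc h1 h2) (enc_rat _ 333 1000)) (enc_add (enc_add (enc_scaleT 5661 835 (kcc43_9.enc h1 h2)) (enc_rat _ 5661 1670)) (enc_mul (enc_norm (kcc43_4.enc h1 h2)) (enc_norm (enc_add (enc_scaleT 222 167 (kcc43_9.enc h1 h2)) (enc_rat _ 111 167))))) (enc_case (enc_add (kcc43_9.enc h1 h2) (enc_rat _ 167 1000)) (enc_add (enc_subr 285381 415000 (kcc43_26.enc h1 h2)) (enc_mul (enc_norm (kcc43_4.enc h1 h2)) (enc_norm (enc_add (enc_scaleT 47545 166 (kcc43_9.enc h1 h2)) (enc_rat _ 15869337 166000))))) (enc_add (enc_subr 6877 10000 (enc_neg (enc_scaleT 9127 1670 (kcc43_9.enc h1 h2)))) (kcc43_43.enc h1 h2)))) (enc_case (enc_subr 167 1000 (kcc43_9.enc h1 h2)) (enc_add (enc_subr 6877 10000 (enc_neg (enc_scaleT 4564 835 (kcc43_9.enc h1 h2)))) (kcc43_43.enc h1 h2))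 (enc_case (enc_subr 333 1000 (kcc43_9.enc h1 h2)) (enc_add (enc_subr 570903 830000 (kcc43_26.enc h1 h2)) (enc_mul (enc_norm (kcc43_4.enc h1 h2)) (enc_norm (enc_add (enc_scaleT 23772 83 (kcc43_9.enc h1 h2)) (enc_rat _ 7934683 83000))))) (enc_add (enc_subr 25077 3340 (enc_scaleT 25077 1670 (kcc43_9.enc h1 h2))) (enc_mul (enc_norm (kcc43_4.enc h1 h2)) (enc_norm (enc_sub (enc_rat _ 190973 334) (enc_scaleT 190973 167 (kcc43_9.enc h1 h2))))))))))⟩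
noncomputable def lm3m : Fn2 := ⟨_, _, fun h1 h2 => (enc_lam (enc_norm (enc_sub h1 (cv3m.enc h2))) (enc_sub (c3g.enc h2) (cv3m.enc h2)))⟩
noncomputable def lm2m : Fn2 := ⟨_, _, fun h1 h2 => (enc_lam (enc_norm (enc_sub h1 (cv2m.enc h2))) (enc_sub (cv3m.enc h2) (cv2m.enc h2)))⟩
noncomputable def bf2q0_3 : Fn2 := ⟨_, _, fun h1 h2 => (enc_subr 237 260 h2)⟩
noncomputable def bf2q0 : Fn2 := ⟨_, _, fun h1 h2 => (enc_norm (enc_case (enc_subr 11 125 h1) (enc_case (enc_subr 7 250 h1) (enc_add (enc_sub (enc_rat _ 4543 5000) (enc_scaleT 1217 280 h1)) (enc_mul (enc_norm (bf2q0_3.enc h1 h2)) (enc_norm (enc_subr 147 10000 (enc_neg (enc_scaleT 111 35 h1)))))) (enc_add (enc_sub (enc_rat _ 4542931283 5000000000) (enc_scaleT 608431283 140000000 h1)) (enc_mul (enc_norm (bf2q0_3.enc h1 h2)) (enc_norm (enc_subr 1834859 125000000 (enc_neg (enc_scaleT 11102641 3500000 h1))))))) (enc_add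 (enc_sub (enc_rat _ 3473642207 3800000000) (enc_scaleT 5646254207 1900000000 h1)) (enc_mul (enc_norm (bf2q0_3.enc h1 h2)) (enc_norm (enc_sub (enc_rat _ 402895693 152000000) (enc_scaleT 969916493 76000000 h1)))))))⟩
noncomputable def lm1m : Fn2 := ⟨_, _, fun h1 h2 => (enc_lam (enc_norm (enc_sub h1 (cv1m.enc h2))) (enc_sub (cv2m.enc h2) (cv1m.enc h2)))⟩
noncomputable def lm0m : Fn2 := ⟨_, _, fun h1 h2 => (enc_lam (enc_norm (enc_sub h1 (c1g.enc h2))) (enc_sub (cv1m.enc h2) (c1g.enc h2)))⟩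
noncomputable def rkbq0_35 : Fn3 := ⟨_, _, fun h1 h2 h3 => (enc_add (enc_mul h1 (bf2q0.enc h2 h3)) (enc_mul (enc_norm (enc_mul (enc_norm (enc_sub (enc_pnc _ 1) (lm1m.enc h1 h2))) (cv1m.enc h2))) (enc_norm (enc_sub (bf1q0.enc h2 h3) (bf2q0.enc h2 h3)))))⟩
noncomputable def rkbq0_37 : Fn3 := ⟨_, _, fun h1 h2 h3 => (enc_sub (enc_pnc _ 1) h2)⟩
noncomputable def rkbq0_38 : Fn3 := ⟨_, _, fun h1 h2 h3 => (gsg.enc (enc_norm (rkbq0_37.enc h1 h2 h3)))⟩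
noncomputable def rkbq0_41 : Fn3 := ⟨_, _, fun h1 h2 h3 => (enc_sub (enc_scaleT 3 4 (rkbq0_37.enc h1 h2 h3)) (enc_half (rkbq0_38.enc h1 h2 h3)))⟩
noncomputable def rkbq0_42 : Fn3 := ⟨_, _, fun h1 h2 h3 => (esg.enc (enc_norm (rkbq0_37.enc h1 h2 h3)))⟩
noncomputable def rkbq0_43 : Fn3 := ⟨_, _, fun h1 h2 h3 => (kcg.enc (enc_norm (rkbq0_41.enc h1 h2 h3)) h3)⟩
noncomputable def rkbq0_51 : Fn3 := ⟨_, _, fun h1 h2 h3 => (enc_sub (rkbq0_41.enc h1 h2 h3) (enc_sub (enc_rat _ 1 4) (enc_scaleT 3 8 (enc_mul (enc_norm (rkbq0_37.enc h1 h2 h3)) (enc_inv (rkbq0_38.enc h1 h2 h3))))))⟩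
noncomputable def rkbq0_62 : Fn3 := ⟨_, _, fun h1 h2 h3 => (enc_sub h1 (cv1m.enc h2))⟩
noncomputable def rkbq0 : Fn3 := ⟨_, _, fun h1 h2 h3 => (enc_case (rkbq0_62.enc h1 h2 h3) (enc_add (enc_mul h1 (bf1q0.enc h2 h3)) (enc_mul (enc_norm (enc_sub (enc_pnc _ 1) (lm0m.enc h1 h2))) (enc_norm (enc_sub (kf0q0.enc h2 h3) (enc_mul (c1g.enc h2) (bf1q0.enc h2 h3)))))) (enc_case (enc_sub h1 (cv2m.enc h2)) (enc_case (enc_subr 7 125 h2) (rkbq0_35.enc h1 h2 h3) (enc_case (enc_subr 3 25 h2) (enc_add (kf1q0.enc h2 h3) (enc_mul (enc_norm (enc_mul (enc_norm (rkbq0_62.enc h1 h2 h3)) (enc_inv (enc_sub (enc_add (swg.enc h2) (enc_rat _ 1 2)) (cv1m.enc h2))))) (enc_norm (enc_sub (enc_wB0 (enc_mul h2 (enc_norm (enc_sub (enc_mul (enc_norm (rkbq0_51.enc h1 h2 h3)) (enc_inv (rkbq0_42.enc h1 h2 h3))) (rkbq0_43.enc h1 h2 h3)))) (rkbq0_37.enc h1 h2 h3) (rkbq0_38.enc h1 h2 h3) (rkbq0_42.enc h1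 h2 h3) h2 (rkbq0_51.enc h1 h2 h3) (rkbq0_43.enc h1 h2 h3) rfl rfl rfl rfl) (kf1q0.enc h2 h3))))) (rkbq0_35.enc h1 h2 h3))) (enc_case (enc_sub h1 (cv3m.enc h2)) (enc_add (enc_mul h1 (bf3q0.enc h2 h3)) (enc_mul (enc_norm (enc_sub (enc_pnc _ 1) (lm2m.enc h1 h2))) (enc_norm (enc_sub (kf2q0.enc h2 h3) (enc_mul (cv2m.enc h2) (bf3q0.enc h2 h3)))))) (enc_add (kf3q0.enc h2 h3) (enc_mul (lm3m.enc h1 h2) (enc_norm (enc_sub (kf4q0.enc h2 h3) (kf3q0.enc h2 h3))))))))⟩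
noncomputable def rsbq0 : Fn3 := ⟨_, _, fun h1 h2 h3 => (enc_case h1 (enc_neg (rkbq0.enc (enc_neg h1) h2 h3)) (rkbq0.enc h1 h2 h3))⟩
noncomputable def rkbq1 : Fn3 := ⟨_, _, fun h1 h2 h3 => (enc_case (enc_sub h1 (cv1m.enc h2)) (enc_add (enc_mul h1 (bf1q1.enc h2 h3)) (enc_mul (enc_norm (enc_sub (enc_pnc _ 1) (lm0m.enc h1 h2))) (enc_norm (enc_sub (kf0q1.enc h2 h3) (enc_mul (c1g.enc h2) (bf1q1.enc h2 h3)))))) (enc_case (enc_sub h1 (cv2m.enc h2)) (enc_add (enc_mul h1 (bf2q1.enc h2 h3)) (enc_mul (enc_norm (enc_mul (enc_norm (enc_sub (enc_pnc _ 1) (lm1m.enc h1 h2))) (cv1m.enc h2))) (enc_norm (enc_sub (bf1q1.enc h2 h3) (bf2q1.enc h2 h3))))) (enc_case (enc_sub h1 (cv3m.enc h2)) (enc_add (enc_mul h1 (bf3q1.enc h2 h3)) (enc_mul (enc_norm (enc_mul (enc_norm (enc_sub (enc_pnc _ 1) (lm2m.enc h1 h2))) (cv2m.enc h2))) (enc_norm (enc_sub (bf2q1.enc h2 h3) (bf3q1.enc h2 h3))))) (enc_add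 (kf3q1.enc h2 h3) (enc_mul (lm3m.enc h1 h2) (enc_norm (enc_sub (kf4q1.enc h2 h3) (kf3q1.enc h2 h3))))))))⟩
noncomputable def rsbq1 : Fn3 := ⟨_, _, fun h1 h2 h3 => (enc_case h1 (enc_neg (rkbq1.enc (enc_neg h1) h2 h3)) (rkbq1.enc h1 h2 h3))⟩
noncomputable def cv1p : Fn1 := ⟨_, _, fun h1 => (enc_norm (enc_add (enc_scaleT 11 20 (c1g.enc h1)) (enc_scaleT 9 20 (enc_subr 1 2 (swg.enc h1)))))⟩
noncomputable def lm3p : Fn2 := ⟨_, _, fun h1 h2 => (enc_lam (enc_norm (enc_sub h1 (cv3p.enc h2))) (enc_sub (c3g.enc h2) (cv3p.enc h2)))⟩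
noncomputable def lm2p : Fn2 := ⟨_, _, fun h1 h2 => (enc_lam (enc_norm (enc_sub h1 (cv2p.enc h2))) (enc_sub (cv3p.enc h2) (cv2p.enc h2)))⟩
noncomputable def lm1p : Fn2 := ⟨_, _, fun h1 h2 => (enc_lam (enc_norm (enc_sub h1 (cv1p.enc h2))) (enc_sub (cv2p.enc h2) (cv1p.enc h2)))⟩
noncomputable def kf0q2 : Fn2 := ⟨_, _, fun h1 h2 => (enc_norm (enc_add (c1g.enc h1) (enc_mul (enc_norm (enc_subn 1 h1)) (kcg.enc (enc_neg (c1g.enc h1)) h2))))⟩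
noncomputable def lm0p : Fn2 := ⟨_, _, fun h1 h2 => (enc_lam (enc_norm (enc_sub h1 (c1g.enc h2))) (enc_sub (cv1p.enc h2) (c1g.enc h2)))⟩
noncomputable def n0b : Fn2 := ⟨_, _, fun h1 h2 => (enc_norm (enc_sub (enc_pnc _ 1) (enc_mul (enc_norm (enc_subn 1 h1)) (enc_norm (enc_add (enc_scaleT 549793 10000 (enc_subr 237 260 h2)) (enc_rat _ 49883 20000))))))⟩
noncomputable def rkbq2_40 : Fn3 := ⟨_, _, fun h1 h2 h3 => (enc_mul h1 (bf1q2.enc h2 h3))⟩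
noncomputable def rkbq2_42 : Fn3 := ⟨_, _, fun h1 h2 h3 => (enc_sub (enc_pnc _ 1) (lm0p.enc h1 h2))⟩
noncomputable def rkbq2 : Fn3 := ⟨_, _, fun h1 h2 h3 => (enc_case (enc_sub h1 (cv1p.enc h2)) (enc_case (enc_subr 1151 1000 h2) (enc_add (rkbq2_40.enc h1 h2 h3) (enc_mul (enc_norm (rkbq2_42.enc h1 h2 h3)) (enc_norm (enc_sub (kf0q2.enc h2 h3) (enc_mul (c1g.enc h2) (bf1q2.enc h2 h3)))))) (enc_case (enc_subr 2887 2500 h2) (enc_add (rkbq2_40.enc h1 h2 h3) (enc_mul (enc_norm (rkbq2_42.enc h1 h2 h3)) (enc_norm (enc_mul (c1g.enc h2) (enc_norm (enc_sub (n0b.enc h2 h3) (bf1q2.enc h2 h3))))))) (rkbq2_40.enc h1 h2 h3))) (enc_case (enc_sub h1 (cv2p.enc h2)) (enc_add (enc_mul h1 (bf2q2.enc h2 h3)) (enc_mul (enc_norm (enc_mul (enc_norm (enc_sub (enc_pnc _ 1) (lm1p.enc h1 h2))) (cv1p.enc h2))) (enc_norm (enc_sub (bf1q2.enc h2 h3) (bf2q2.enc h2 h3))))) (enc_case (enc_sub h1 (cv3p.enc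 h2)) (enc_add (enc_mul h1 (bf3q2.enc h2 h3)) (enc_mul (enc_norm (enc_mul (enc_norm (enc_sub (enc_pnc _ 1) (lm2p.enc h1 h2))) (cv2p.enc h2))) (enc_norm (enc_sub (bf2q2.enc h2 h3) (bf3q2.enc h2 h3))))) (enc_add (kf3q2.enc h2 h3) (enc_mul (lm3p.enc h1 h2) (enc_norm (enc_sub (kf4q2.enc h2 h3) (kf3q2.enc h2 h3))))))))⟩
noncomputable def rsbq2 : Fn3 := ⟨_, _, fun h1 h2 h3 => (enc_case h1 (enc_neg (rkbq2.enc (enc_neg h1) h2 h3)) (rkbq2.enc h1 h2 h3))⟩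
noncomputable def cv2r : Fn1 := ⟨_, _, fun h1 => (enc_norm (enc_add (enc_scaleT 9 10 (enc_subr 1 2 (swg.enc h1))) (enc_scaleT 1 10 (c3g.enc h1))))⟩
noncomputable def cv3r : Fn1 := ⟨_, _, fun h1 => (enc_norm (enc_add (enc_scaleT 2 5 (enc_subr 1 2 (swg.enc h1))) (enc_scaleT 3 5 (c3g.enc h1))))⟩
noncomputable def kf3q3_4 : Fn2 := ⟨_, _, fun h1 h2 => (enc_subr 237 260 h2)⟩
noncomputable def kf3q3 : Fn2 := ⟨_, _, fun h1 h2 => (enc_norm (enc_mul (cv3r.enc h1) (enc_norm (enc_case (enc_subr 243 125 h1) (enc_case (enc_subr 31 16 h1) (enc_add (enc_subr 472263 140000 (enc_scaleT 39461 21875 h1)) (enc_mul (enc_norm (kf3q3_4.enc h1 h2)) (enc_norm (enc_subr 14786157 70000 (enc_scaleT 98246 875 h1))))) (enc_add (enc_subr 4383147 1300000 (enc_scaleT 586 325 h1)) (enc_mul (enc_norm (kf3q3_4.enc h1 h2)) (enc_norm (enc_subr 27458943 130000 (enc_scaleT 7298 65 h1)))))) (enc_case (enc_sub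 (enc_rat _ 288811357 1000000000) (c3g.enc h1)) (enc_add (enc_sub (enc_rat _ 2720694436737 5909370700000) (enc_scaleT 47460000 59093707 (c3g.enc h1))) (enc_mul (enc_norm (kf3q3_4.enc h1 h2)) (enc_norm (enc_subr 27978302496969 1181874140000 (enc_scaleT 4459850000 59093707 (c3g.enc h1)))))) (enc_sub (enc_sub (enc_rat _ 1 2) (enc_scaleT 271550000 288811357 (c3g.enc h1))) (enc_mul (enc_norm (kf3q3_4.enc h1 h2)) (enc_scaleT 1876000000 288811357 (c3g.enc h1)))))))))⟩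
noncomputable def kf4q3 : Fn2 := ⟨_, _, fun h1 h2 => (enc_norm (enc_sub (enc_mul (enc_norm (enc_subn 2 h1)) (kcg.enc (enc_norm (enc_sub (enc_scaleT 1 4 h1) (enc_half (c3g.enc h1)))) h2)) (enc_mul (enc_norm (enc_mul (enc_norm (enc_sub (enc_nat 2 (c3g.enc h1)) h1)) (enc_norm (enc_sub (enc_add (c3g.enc h1) (enc_pnc _ 3)) (enc_scaleT 3 2 h1))))) (enc_inv (enc_nat 4 (enc_subn 1 h1))))))⟩
noncomputable def lm3r : Fn2 := ⟨_, _, fun h1 h2 => (enc_lam (enc_norm (enc_sub h1 (cv3r.enc h2))) (enc_sub (c3g.enc h2) (cv3r.enc h2)))⟩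
noncomputable def bf3q3_3 : Fn2 := ⟨_, _, fun h1 h2 => (enc_subr 237 260 h2)⟩
noncomputable def bf3q3 : Fn2 := ⟨_, _, fun h1 h2 => (enc_norm (enc_case (enc_subr 243 125 h1) (enc_case (enc_subr 31 16 h1) (enc_add (enc_subr 472263 140000 (enc_scaleT 39461 21875 h1)) (enc_mul (enc_norm (bf3q3_3.enc h1 h2)) (enc_norm (enc_subr 14786157 70000 (enc_scaleT 98246 875 h1))))) (enc_add (enc_subr 4383147 1300000 (enc_scaleT 586 325 h1)) (enc_mul (enc_norm (bf3q3_3.enc h1 h2)) (enc_norm (enc_subr 27458943 130000 (enc_scaleT 7298 65 h1)))))) (enc_case (enc_sub (enc_rat _ 288811357 1000000000) (c3g.enc h1)) (enc_add (enc_sub (enc_rat _ 2720694436737 5909370700000) (enc_scaleT 47460000 59093707 (c3g.enc h1))) (enc_mul (enc_norm (bf3q3_3.enc h1 h2)) (enc_norm (enc_subr 27978302496969 1181874140000 (enc_scaleT 4459850000 59093707 (c3g.enc h1)))))) (enc_sub (enc_sub (enc_rat _ 1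 2) (enc_scaleT 271550000 288811357 (c3g.enc h1))) (enc_mul (enc_norm (bf3q3_3.enc h1 h2)) (enc_scaleT 1876000000 288811357 (c3g.enc h1)))))))⟩
noncomputable def lm2r : Fn2 := ⟨_, _, fun h1 h2 => (enc_lam (enc_norm (enc_sub h1 (cv2r.enc h2))) (enc_sub (cv3r.enc h2) (cv2r.enc h2)))⟩
noncomputable def kf2q3_4 : Fn2 := ⟨_, _, fun h1 h2 => (enc_subr 237 260 h2)⟩
noncomputable def kf2q3_42 : Fn2 := ⟨_, _, fun h1 h2 => (enc_subn 1 h1)⟩
noncomputable def kf2q3_43 : Fn2 := ⟨_, _, fun h1 h2 => (gsg.enc (enc_norm (kf2q3_42.enc h1 h2)))⟩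
noncomputable def kf2q3_44 : Fn2 := ⟨_, _, fun h1 h2 => (enc_scaleT 3 4 (kf2q3_42.enc h1 h2))⟩
noncomputable def kf2q3_45 : Fn2 := ⟨_, _, fun h1 h2 => (enc_half (kf2q3_43.enc h1 h2))⟩
noncomputable def kf2q3_47 : Fn2 := ⟨_, _, fun h1 h2 => (esg.enc (enc_norm (kf2q3_42.enc h1 h2)))⟩
noncomputable def kf2q3_48 : Fn2 := ⟨_, _, fun h1 h2 => (kcg.enc (enc_norm (enc_sub (kf2q3_44.enc h1 h2) (kf2q3_45.enc h1 h2))) h2)⟩
noncomputable def kf2q3_50 : Fn2 := ⟨_, _, fun h1 h2 => (enc_subn 2 h1)⟩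
noncomputable def kf2q3_57 : Fn2 := ⟨_, _, fun h1 h2 => (enc_sub (enc_sub (kf2q3_45.enc h1 h2) (kf2q3_44.enc h1 h2)) (enc_sub (enc_rat _ 1 4) (enc_scaleT 3 8 (enc_mul (enc_norm (kf2q3_42.enc h1 h2)) (enc_inv (kf2q3_43.enc h1 h2))))))⟩
noncomputable def kf2q3_77 : Fn2 := ⟨_, _, fun h1 h2 => (enc_subr 243 125 h1)⟩
noncomputable def kf2q3_100 : Fn2 := ⟨_, _, fun h1 h2 => (enc_mul (cv1r.enc h1) (enc_norm (enc_case (enc_subr 31 16 h1) (enc_add (enc_subr 457393 87500 (enc_scaleT 887 350 h1)) (enc_mul (enc_norm (kf2q3_4.enc h1 h2)) (enc_norm (enc_sub (enc_rat _ 29302209 70000) (enc_scaleT 197168 875 h1))))) (enc_case (kf2q3_77.enc h1 h2) (enc_add (enc_subr 6798321 1300000 (enc_scaleT 824 325 h1)) (enc_mul (enc_norm (kf2q3_4.enc h1 h2)) (enc_norm (enc_sub (enc_rat _ 54415421 130000) (enc_scaleT 14646 65 h1))))) (enc_add (enc_subr 14739 25000 (enc_scaleT 96290000 135666257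 (c3g.enc h1))) (enc_mul (enc_norm (kf2q3_4.enc h1 h2)) (enc_norm (enc_sub (enc_rat _ 3897 2500) (enc_scaleT 21006700000 406998771 (c3g.enc h1))))))))))⟩
noncomputable def kf2q3 : Fn2 := ⟨_, _, fun h1 h2 => (enc_norm (enc_case (enc_subr 47 25 h1) (enc_mul (cv2r.enc h1) (enc_norm (enc_add (enc_subr 28087110831 7600000000 (enc_scaleT 7548706277 3800000000 h1)) (enc_mul (enc_norm (kf2q3_4.enc h1 h2)) (enc_norm (enc_subr 5111681959 47500000 (enc_scaleT 1400172653 23750000 h1))))))) (enc_case (kf2q3_77.enc h1 h2) (enc_add (kf2q3_100.enc h1 h2) (enc_mul (enc_norm (enc_mul (enc_norm (enc_sub (enc_wB3 (enc_mul (enc_norm (kf2q3_50.enc h1 h2)) (enc_norm (enc_add (enc_mul (enc_norm (kf2q3_57.enc h1 h2)) (enc_inv (kf2q3_47.enc h1 h2))) (kf2q3_48.enc h1 h2)))) (kf2q3_42.enc h1 h2) (kf2q3_43.enc h1 h2) (kf2q3_47.enc h1 h2) (kf2q3_50.enc h1 h2) (kf2q3_57.enc h1 h2) (kf2q3_48.enc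 h1 h2) h1 rfl rfl rfl rfl rfl) (kf2q3_100.enc h1 h2))) (enc_norm (enc_sub (cv2r.enc h1) (cv1r.enc h1))))) (enc_inv (enc_sub (enc_subr 1 2 (swg.enc h1)) (cv1r.enc h1))))) (enc_mul (cv2r.enc h1) (enc_norm (enc_case (enc_sub (enc_rat _ 288811357 1000000000) (c3g.enc h1)) (enc_add (enc_subr 98275611296553509 147734267500000000 (enc_scaleT 471133874 295468535 (c3g.enc h1))) (enc_mul (enc_norm (kf2q3_4.enc h1 h2)) (enc_norm (enc_subr 64391826020685103 1846678343750000 (enc_scaleT 5757112928 59093707 (c3g.enc h1)))))) (enc_sub (enc_sub (enc_rat _ 1 2) (enc_scaleT 704700000 288811357 (c3g.enc h1))) (enc_mul (enc_norm (kf2q3_4.enc h1 h2)) (enc_scaleT 6732000000 288811357 (c3g.enc h1))))))))))⟩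
noncomputable def bf2q3_3 : Fn2 := ⟨_, _, fun h1 h2 => (enc_subr 237 260 h2)⟩
noncomputable def bf2q3 : Fn2 := ⟨_, _, fun h1 h2 => (enc_norm (enc_case (enc_subr 239 125 h1) (enc_add (enc_subr 28087110831 7600000000 (enc_scaleT 7548706277 3800000000 h1)) (enc_mul (enc_norm (bf2q3_3.enc h1 h2)) (enc_norm (enc_subr 5111681959 47500000 (enc_scaleT 1400172653 23750000 h1))))) (enc_case (enc_sub (enc_rat _ 288811357 1000000000) (c3g.enc h1)) (enc_add (enc_subr 98275611296553509 147734267500000000 (enc_scaleT 471133874 295468535 (c3g.enc h1))) (enc_mul (enc_norm (bf2q3_3.enc h1 h2)) (enc_norm (enc_subr 64391826020685103 1846678343750000 (enc_scaleT 5757112928 59093707 (c3g.enc h1)))))) (enc_sub (enc_sub (enc_rat _ 1 2) (enc_scaleT 704700000 288811357 (c3g.enc h1))) (enc_mul (enc_norm (bf2q3_3.enc h1 h2)) (enc_scaleT 6732000000 288811357 (c3g.enc h1)))))))⟩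
noncomputable def lm1r : Fn2 := ⟨_, _, fun h1 h2 => (enc_lam (enc_norm (enc_sub h1 (cv1r.enc h2))) (enc_sub (cv2r.enc h2) (cv1r.enc h2)))⟩
noncomputable def bf1q3_3 : Fn2 := ⟨_, _, fun h1 h2 => (enc_subr 237 260 h2)⟩
noncomputable def bf1q3 : Fn2 := ⟨_, _, fun h1 h2 => (enc_norm (enc_case (enc_subr 31 16 h1) (enc_add (enc_subr 457393 87500 (enc_scaleT 887 350 h1)) (enc_mul (enc_norm (bf1q3_3.enc h1 h2)) (enc_norm (enc_sub (enc_rat _ 29302209 70000) (enc_scaleT 197168 875 h1))))) (enc_case (enc_subr 243 125 h1) (enc_add (enc_subr 6798321 1300000 (enc_scaleT 824 325 h1)) (enc_mul (enc_norm (bf1q3_3.enc h1 h2)) (enc_norm (enc_sub (enc_rat _ 54415421 130000) (enc_scaleT 14646 65 h1))))) (enc_add (enc_subr 14739 25000 (enc_scaleT 96290000 135666257 (c3g.enc h1))) (enc_mul (enc_norm (bf1q3_3.enc h1 h2)) (enc_norm (enc_sub (enc_rat _ 3897 2500) (enc_scaleT 21006700000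 406998771 (c3g.enc h1)))))))))⟩
noncomputable def rkbq3_35 : Fn3 := ⟨_, _, fun h1 h2 h3 => (enc_add (enc_mul h1 (bf2q3.enc h2 h3)) (enc_mul (enc_norm (enc_mul (enc_norm (enc_sub (enc_pnc _ 1) (lm1r.enc h1 h2))) (cv1r.enc h2))) (enc_norm (enc_sub (bf1q3.enc h2 h3) (bf2q3.enc h2 h3)))))⟩
noncomputable def rkbq3_36 : Fn3 := ⟨_, _, fun h1 h2 h3 => (enc_subn 1 h2)⟩
noncomputable def rkbq3_37 : Fn3 := ⟨_, _, fun h1 h2 h3 => (gsg.enc (enc_norm (rkbq3_36.enc h1 h2 h3)))⟩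
noncomputable def rkbq3_38 : Fn3 := ⟨_, _, fun h1 h2 h3 => (enc_scaleT 3 4 (rkbq3_36.enc h1 h2 h3))⟩
noncomputable def rkbq3_39 : Fn3 := ⟨_, _, fun h1 h2 h3 => (enc_half (rkbq3_37.enc h1 h2 h3))⟩
noncomputable def rkbq3_41 : Fn3 := ⟨_, _, fun h1 h2 h3 => (esg.enc (enc_norm (rkbq3_36.enc h1 h2 h3)))⟩
noncomputable def rkbq3_42 : Fn3 := ⟨_, _, fun h1 h2 h3 => (kcg.enc (enc_norm (enc_sub (rkbq3_38.enc h1 h2 h3) (rkbq3_39.enc h1 h2 h3))) h3)⟩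
noncomputable def rkbq3_44 : Fn3 := ⟨_, _, fun h1 h2 h3 => (enc_subn 2 h2)⟩
noncomputable def rkbq3_51 : Fn3 := ⟨_, _, fun h1 h2 h3 => (enc_sub (enc_sub (rkbq3_39.enc h1 h2 h3) (rkbq3_38.enc h1 h2 h3)) (enc_sub (enc_rat _ 1 4) (enc_scaleT 3 8 (enc_mul (enc_norm (rkbq3_36.enc h1 h2 h3)) (enc_inv (rkbq3_37.enc h1 h2 h3))))))⟩
noncomputable def rkbq3_62 : Fn3 := ⟨_, _, fun h1 h2 h3 => (enc_sub h1 (cv1r.enc h2))⟩
noncomputable def rkbq3 : Fn3 := ⟨_, _, fun h1 h2 h3 => (enc_case (rkbq3_62.enc h1 h2 h3) (enc_mul h1 (bf1q3.enc h2 h3)) (enc_case (enc_sub h1 (cv2r.enc h2)) (enc_case (enc_subr 47 25 h2) (rkbq3_35.enc h1 h2 h3) (enc_case (enc_subr 243 125 h2) (enc_add (kf1q3.enc h2 h3) (enc_mul (enc_norm (enc_mul (enc_norm (rkbq3_62.enc h1 h2 h3)) (enc_inv (enc_sub (enc_subr 1 2 (swg.enc h2)) (cv1r.enc h2))))) (enc_norm (enc_sub (enc_wB3 (enc_mul (enc_norm (rkbq3_44.enc h1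 h2 h3)) (enc_norm (enc_add (enc_mul (enc_norm (rkbq3_51.enc h1 h2 h3)) (enc_inv (rkbq3_41.enc h1 h2 h3))) (rkbq3_42.enc h1 h2 h3)))) (rkbq3_36.enc h1 h2 h3) (rkbq3_37.enc h1 h2 h3) (rkbq3_41.enc h1 h2 h3) (rkbq3_44.enc h1 h2 h3) (rkbq3_51.enc h1 h2 h3) (rkbq3_42.enc h1 h2 h3) h2 rfl rfl rfl rfl rfl) (kf1q3.enc h2 h3))))) (rkbq3_35.enc h1 h2 h3))) (enc_case (enc_sub h1 (cv3r.enc h2)) (enc_add (enc_mul h1 (bf3q3.enc h2 h3)) (enc_mul (enc_norm (enc_sub (enc_pnc _ 1) (lm2r.enc h1 h2))) (enc_norm (enc_sub (kf2q3.enc h2 h3) (enc_mul (cv2r.enc h2) (bf3q3.enc h2 h3)))))) (enc_add (kf3q3.enc h2 h3) (enc_mul (lm3r.enc h1 h2) (enc_norm (enc_sub (kf4q3.enc h2 h3) (kf3q3.enc h2 h3))))))))⟩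
noncomputable def rsbq3 : Fn3 := ⟨_, _, fun h1 h2 h3 => (enc_case h1 (enc_neg (rkbq3.enc (enc_neg h1) h2 h3)) (rkbq3.enc h1 h2 h3))⟩
noncomputable def bx2q0_3 : Fn2 := ⟨_, _, fun h1 h2 => (enc_subr 237 260 h2)⟩
noncomputable def bx2q0_27 : Fn2 := ⟨_, _, fun h1 h2 => (enc_sq (enc_norm (bx2q0_3.enc h1 h2)))⟩
noncomputable def bx2q0 : Fn2 := ⟨_, _, fun h1 h2 => (enc_norm (enc_case (enc_subr 11 125 h1) (enc_case (enc_subr 7 250 h1) (enc_add (enc_add (enc_scaleT 1899 2800 h1) (enc_rat _ 5281 100000)) (enc_mul (enc_norm (bx2q0_3.enc h1 h2)) (enc_norm (enc_add (enc_scaleT 247 140 h1) (enc_rat _ 307 2500))))) (enc_add (enc_add (enc_add (enc_scaleT 47494451 70000000 h1) (enc_rat _ 132005549 2500000000)) (enc_mul (enc_norm (bx2q0_3.enc h1 h2)) (enc_norm (enc_sub (enc_rat _ 108681431 500000000) (enc_scaleT 22581431 14000000 h1))))) (enc_mul (bx2q0_27.enc h1 h2) (enc_norm (enc_subr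 1191 100000 (enc_scaleT 1191 2800 h1)))))) (enc_case (enc_subr 41 250 h1) (enc_add (enc_add (enc_sub (enc_rat _ 150825939 1250000000) (enc_scaleT 309779 5000000 h1)) (enc_mul (enc_norm (bx2q0_3.enc h1 h2)) (enc_norm (enc_sub (enc_rat _ 4444298283 11000000000) (enc_scaleT 126587763 44000000 h1))))) (enc_mul (bx2q0_27.enc h1 h2) (enc_norm (enc_subr 1474811 687500 (enc_scaleT 35971 2750 h1))))) (enc_case (enc_subr 111 250 h1) (enc_add (enc_sub (enc_rat _ 422297 3500000) (enc_scaleT 867 14000 h1)) (enc_mul (enc_norm (bx2q0_3.enc h1 h2)) (enc_norm (enc_subr 77547 175000 (enc_scaleT 801 350 h1))))) (enc_add (enc_sub (enc_rat _ 16753 100000) (enc_scaleT 67 400 h1)) (enc_mul (enc_norm (bx2q0_3.enc h1 h2)) (enc_norm (enc_sub (enc_rat _ 36039 35000) (enc_scaleT 36 35 h1)))))))))⟩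
noncomputable def rxq0_35 : Fn3 := ⟨_, _, fun h1 h2 h3 => (enc_add (enc_mul h1 (bx2q0.enc h2 h3)) (enc_mul (enc_norm (enc_mul (enc_norm (enc_sub (enc_pnc _ 1) (lm1m.enc h1 h2))) (cv1m.enc h2))) (enc_norm (enc_sub (bx1q0.enc h2 h3) (bx2q0.enc h2 h3)))))⟩
noncomputable def rxq0_37 : Fn3 := ⟨_, _, fun h1 h2 h3 => (enc_sub (enc_pnc _ 1) h2)⟩
noncomputable def rxq0_54 : Fn3 := ⟨_, _, fun h1 h2 h3 => (enc_sub h1 (cv1m.enc h2))⟩
noncomputable def rxq0 : Fn3 := ⟨_, _, fun h1 h2 h3 => (enc_case (rxq0_54.enc h1 h2 h3) (enc_add (enc_mul h1 (bx1q0.enc h2 h3)) (enc_mul (enc_norm (enc_sub (enc_pnc _ 1) (lm0m.enc h1 h2))) (enc_norm (enc_sub (l0q0.enc h2 h3) (enc_mul (c1g.enc h2) (bx1q0.enc h2 h3)))))) (enc_case (enc_sub h1 (cv2m.enc h2)) (enc_case (enc_subr 7 125 h2) (rxq0_35.enc h1 h2 h3) (enc_case (enc_subr 3 25 h2) (enc_add (l1q0.enc h2 h3) (enc_mul (enc_norm (enc_mul (enc_norm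 (rxq0_54.enc h1 h2 h3)) (enc_inv (enc_sub (enc_add (swg.enc h2) (enc_rat _ 1 2)) (cv1m.enc h2))))) (enc_norm (enc_sub (enc_sub (qsg.enc (enc_norm (rxq0_37.enc h1 h2 h3))) (enc_mul (enc_norm (enc_nat 2 (enc_sub (rxq0_37.enc h1 h2 h3) h3))) (enc_norm (enc_mul (esg.enc (enc_norm (rxq0_37.enc h1 h2 h3))) (kcg.enc (enc_norm (enc_sub (enc_scaleT 3 4 (rxq0_37.enc h1 h2 h3)) (enc_half (gsg.enc (enc_norm (rxq0_37.enc h1 h2 h3)))))) h3))))) (l1q0.enc h2 h3))))) (rxq0_35.enc h1 h2 h3))) (enc_case (enc_sub h1 (cv3m.enc h2)) (enc_add (enc_mul h1 (bx3q0.enc h2 h3)) (enc_mul (enc_norm (enc_sub (enc_pnc _ 1) (lm2m.enc h1 h2))) (enc_norm (enc_sub (l2q0.enc h2 h3) (enc_mul (cv2m.enc h2) (bx3q0.enc h2 h3)))))) (enc_add (l3q0.enc h2 h3) (enc_mul (lm3m.enc h1 h2) (enc_norm (enc_sub (l4q0.enc h2 h3) (l3q0.enc h2 h3))))))))⟩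
noncomputable def rlq0 : Fn3 := ⟨_, _, fun h1 h2 h3 => (enc_case h1 (enc_neg (rxq0.enc (enc_neg h1) h2 h3)) (rxq0.enc h1 h2 h3))⟩
noncomputable def rxq1 : Fn3 := ⟨_, _, fun h1 h2 h3 => (enc_case (enc_sub h1 (cv1m.enc h2)) (enc_add (enc_mul h1 (bx1q1.enc h2 h3)) (enc_mul (enc_norm (enc_sub (enc_pnc _ 1) (lm0m.enc h1 h2))) (enc_norm (enc_sub (l0q1.enc h2 h3) (enc_mul (c1g.enc h2) (bx1q1.enc h2 h3)))))) (enc_case (enc_sub h1 (cv2m.enc h2)) (enc_add (enc_mul h1 (bx2q1.enc h2 h3)) (enc_mul (enc_norm (enc_mul (enc_norm (enc_sub (enc_pnc _ 1) (lm1m.enc h1 h2))) (cv1m.enc h2))) (enc_norm (enc_sub (bx1q1.enc h2 h3) (bx2q1.enc h2 h3))))) (enc_case (enc_sub h1 (cv3m.enc h2)) (enc_add (enc_mul h1 (bx3q1.enc h2 h3)) (enc_mul (enc_norm (enc_mul (enc_norm (enc_sub (enc_pnc _ 1) (lm2m.enc h1 h2))) (cv2m.enc h2))) (enc_norm (enc_sub (bx2q1.enc h2 h3) (bx3q1.enc h2 h3))))) (enc_add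 (l3q1.enc h2 h3) (enc_mul (lm3m.enc h1 h2) (enc_norm (enc_sub (l4q1.enc h2 h3) (l3q1.enc h2 h3))))))))⟩
noncomputable def rlq1 : Fn3 := ⟨_, _, fun h1 h2 h3 => (enc_case h1 (enc_neg (rxq1.enc (enc_neg h1) h2 h3)) (rxq1.enc h1 h2 h3))⟩
noncomputable def l0q2_7 : Fn2 := ⟨_, _, fun h1 h2 => (enc_scaleT 3 4 h1)⟩
noncomputable def l0q2_8 : Fn2 := ⟨_, _, fun h1 h2 => (enc_half (c1g.enc h1))⟩
noncomputable def l0q2 : Fn2 := ⟨_, _, fun h1 h2 => (enc_norm (enc_sub (txg.enc (enc_neg (c1g.enc h1)) (enc_norm (enc_add (l0q2_7.enc h1 h2) (l0q2_8.enc h1 h2))) h2) (txg.enc (c1g.enc h1) (enc_norm (enc_sub (l0q2_7.enc h1 h2) (l0q2_8.enc h1 h2))) h2)))⟩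
noncomputable def n0x : Fn2 := ⟨_, _, fun h1 h2 => (enc_norm (enc_subr 7187 50000 (enc_neg (enc_scaleT 867 625 (enc_subr 237 260 h2)))))⟩
noncomputable def rxq2_40 : Fn3 := ⟨_, _, fun h1 h2 h3 => (enc_mul h1 (bx1q2.enc h2 h3))⟩
noncomputable def rxq2_42 : Fn3 := ⟨_, _, fun h1 h2 h3 => (enc_sub (enc_pnc _ 1) (lm0p.enc h1 h2))⟩
noncomputable def rxq2 : Fn3 := ⟨_, _, fun h1 h2 h3 => (enc_case (enc_sub h1 (cv1p.enc h2)) (enc_case (enc_subr 1149 1000 h2) (enc_add (rxq2_40.enc h1 h2 h3) (enc_mul (enc_norm (rxq2_42.enc h1 h2 h3)) (enc_norm (enc_sub (l0q2.enc h2 h3) (enc_mul (c1g.enc h2) (bx1q2.enc h2 h3)))))) (enc_case (enc_subr 2887 2500 h2) (enc_add (rxq2_40.enc h1 h2 h3) (enc_mul (enc_norm (rxq2_42.enc h1 h2 h3)) (enc_norm (enc_mul (c1g.enc h2) (enc_norm (enc_sub (n0x.enc h2 h3) (bx1q2.enc h2 h3))))))) (rxq2_40.enc h1 h2 h3))) (enc_case (enc_sub h1 (cv2p.enc h2)) (enc_add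 (enc_mul h1 (bx2q2.enc h2 h3)) (enc_mul (enc_norm (enc_mul (enc_norm (enc_sub (enc_pnc _ 1) (lm1p.enc h1 h2))) (cv1p.enc h2))) (enc_norm (enc_sub (bx1q2.enc h2 h3) (bx2q2.enc h2 h3))))) (enc_case (enc_sub h1 (cv3p.enc h2)) (enc_add (enc_mul h1 (bx3q2.enc h2 h3)) (enc_mul (enc_norm (enc_mul (enc_norm (enc_sub (enc_pnc _ 1) (lm2p.enc h1 h2))) (cv2p.enc h2))) (enc_norm (enc_sub (bx2q2.enc h2 h3) (bx3q2.enc h2 h3))))) (enc_add (l3q2.enc h2 h3) (enc_mul (lm3p.enc h1 h2) (enc_norm (enc_sub (l4q2.enc h2 h3) (l3q2.enc h2 h3))))))))⟩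
noncomputable def rlq2 : Fn3 := ⟨_, _, fun h1 h2 h3 => (enc_case h1 (enc_neg (rxq2.enc (enc_neg h1) h2 h3)) (rxq2.enc h1 h2 h3))⟩
noncomputable def l3q3_4 : Fn2 := ⟨_, _, fun h1 h2 => (enc_subr 237 260 h2)⟩
noncomputable def l3q3 : Fn2 := ⟨_, _, fun h1 h2 => (enc_norm (enc_mul (cv3r.enc h1) (enc_norm (enc_case (enc_subr 243 125 h1) (enc_case (enc_subr 31 16 h1) (enc_add (enc_subr 643437 700000 (enc_scaleT 16901 21875 h1)) (enc_mul (enc_norm (l3q3_4.enc h1 h2)) (enc_norm (enc_subr 38741 3500 (enc_scaleT 30428 4375 h1))))) (enc_add (enc_subr 47767 52000 (enc_scaleT 251 325 h1)) (enc_mul (enc_norm (l3q3_4.enc h1 h2)) (enc_norm (enc_subr 359667 32500 (enc_scaleT 452 65 h1)))))) (enc_case (enc_sub (enc_rat _ 288811357 1000000000) (c3g.enc h1)) (enc_add (enc_sub (enc_rat _ 7674336550021 11818741400000) (enc_scaleT 9665000 59093707 (c3g.enc h1))) (enc_mul (enc_norm (l3q3_4.enc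 h1 h2)) (enc_norm (enc_subr 2103311257653 1181874140000 (enc_scaleT 614350000 59093707 (c3g.enc h1)))))) (enc_add (enc_sub (enc_rat _ 120519 200000) (enc_scaleT 495000 288811357 (c3g.enc h1))) (enc_mul (enc_norm (l3q3_4.enc h1 h2)) (enc_norm (enc_add (enc_scaleT 517050000 288811357 (c3g.enc h1)) (enc_rat _ 14117 20000))))))))))⟩
noncomputable def l4q3_7 : Fn2 := ⟨_, _, fun h1 h2 => (enc_half (c3g.enc h1))⟩
noncomputable def l4q3_8 : Fn2 := ⟨_, _, fun h1 h2 => (enc_scaleT 1 4 h1)⟩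
noncomputable def l4q3_9 : Fn2 := ⟨_, _, fun h1 h2 => (enc_sub (l4q3_7.enc h1 h2) (l4q3_8.enc h1 h2))⟩
noncomputable def l4q3_12 : Fn2 := ⟨_, _, fun h1 h2 => (enc_add (enc_scaleT 1 4 (c3g.enc h1)) (enc_scaleT 3 8 h1))⟩
noncomputable def l4q3_14 : Fn2 := ⟨_, _, fun h1 h2 => (enc_half (l4q3_9.enc h1 h2))⟩
noncomputable def l4q3 : Fn2 := ⟨_, _, fun h1 h2 => (enc_norm (enc_sub (enc_nat 2 (txg.enc (enc_norm (enc_sub (l4q3_8.enc h1 h2) (l4q3_7.enc h1 h2))) (enc_norm (enc_add (l4q3_12.enc h1 h2) (l4q3_14.enc h1 h2))) h2)) (txg.enc (enc_norm (l4q3_9.enc h1 h2)) (enc_norm (enc_sub (l4q3_12.enc h1 h2) (l4q3_14.enc h1 h2))) h2)))⟩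
noncomputable def bx3q3_3 : Fn2 := ⟨_, _, fun h1 h2 => (enc_subr 237 260 h2)⟩
noncomputable def bx3q3 : Fn2 := ⟨_, _, fun h1 h2 => (enc_norm (enc_case (enc_subr 243 125 h1) (enc_case (enc_subr 31 16 h1) (enc_add (enc_subr 643437 700000 (enc_scaleT 16901 21875 h1)) (enc_mul (enc_norm (bx3q3_3.enc h1 h2)) (enc_norm (enc_subr 38741 3500 (enc_scaleT 30428 4375 h1))))) (enc_add (enc_subr 47767 52000 (enc_scaleT 251 325 h1)) (enc_mul (enc_norm (bx3q3_3.enc h1 h2)) (enc_norm (enc_subr 359667 32500 (enc_scaleT 452 65 h1)))))) (enc_case (enc_sub (enc_rat _ 288811357 1000000000) (c3g.enc h1)) (enc_add (enc_sub (enc_rat _ 7674336550021 11818741400000) (enc_scaleT 9665000 59093707 (c3g.enc h1))) (enc_mul (enc_norm (bx3q3_3.enc h1 h2)) (enc_norm (enc_subr 2103311257653 1181874140000 (enc_scaleT 614350000 59093707 (c3g.enc h1)))))) (enc_add (enc_sub (enc_rat _ 120519 200000)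 (enc_scaleT 495000 288811357 (c3g.enc h1))) (enc_mul (enc_norm (bx3q3_3.enc h1 h2)) (enc_norm (enc_add (enc_scaleT 517050000 288811357 (c3g.enc h1)) (enc_rat _ 14117 20000))))))))⟩
noncomputable def l2q3_4 : Fn2 := ⟨_, _, fun h1 h2 => (enc_subr 237 260 h2)⟩
noncomputable def l2q3_31 : Fn2 := ⟨_, _, fun h1 h2 => (enc_sq (enc_norm (l2q3_4.enc h1 h2)))⟩
noncomputable def l2q3_38 : Fn2 := ⟨_, _, fun h1 h2 => (enc_sub (enc_rat _ 288811357 1000000000) (c3g.enc h1))⟩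
noncomputable def l2q3_65 : Fn2 := ⟨_, _, fun h1 h2 => (enc_subn 1 h1)⟩
noncomputable def l2q3_82 : Fn2 := ⟨_, _, fun h1 h2 => (enc_subr 47 25 h1)⟩
noncomputable def l2q3_105 : Fn2 := ⟨_, _, fun h1 h2 => (enc_subr 243 125 h1)⟩
noncomputable def l2q3_136 : Fn2 := ⟨_, _, fun h1 h2 => (enc_mul (cv1r.enc h1) (enc_norm (enc_case (enc_subr 31 16 h1) (enc_case (l2q3_82.enc h1 h2) (enc_add (enc_subr 853281 475000 (enc_scaleT 6797 4750 h1)) (enc_mul (enc_norm (l2q3_4.enc h1 h2)) (enc_norm (enc_subr 329971 47500 (enc_scaleT 9143 1900 h1))))) (enc_add (enc_subr 1032929 575000 (enc_scaleT 4114 2875 h1)) (enc_mul (enc_norm (l2q3_4.enc h1 h2)) (enc_norm (enc_sub (enc_rat _ 576999 28750) (enc_scaleT 5496 575 h1)))))) (enc_case (l2q3_105.enc h1 h2) (enc_add (enc_subr 2338721 1300000 (enc_scaleT 931 650 h1)) (enc_mul (enc_norm (l2q3_4.enc h1 h2)) (enc_norm (enc_sub (enc_rat _ 1860013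 32500) (enc_scaleT 1868 65 h1))))) (enc_case (l2q3_38.enc h1 h2) (enc_add (enc_add (enc_scaleT 18770000 59093707 (c3g.enc h1)) (enc_rat _ 2529549050453 2954685350000)) (enc_mul (enc_norm (l2q3_4.enc h1 h2)) (enc_norm (enc_sub (enc_rat _ 5891251432297 590937070000) (enc_scaleT 1249500000 59093707 (c3g.enc h1)))))) (enc_add (enc_add (enc_scaleT 91710000 288811357 (c3g.enc h1)) (enc_rat _ 42807 50000)) (enc_mul (enc_norm (l2q3_4.enc h1 h2)) (enc_norm (enc_add (enc_scaleT 1673400000 288811357 (c3g.enc h1)) (enc_rat _ 5473 2500))))))))))⟩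
noncomputable def l2q3 : Fn2 := ⟨_, _, fun h1 h2 => (enc_norm (enc_case (l2q3_82.enc h1 h2) (enc_mul (cv2r.enc h1) (enc_norm (enc_case (enc_subr 913 500 h1) (enc_add (enc_subr 8269341 8150000 (enc_scaleT 7479 8150 h1)) (enc_mul (enc_norm (l2q3_4.enc h1 h2)) (enc_norm (enc_sub (enc_rat _ 2507191 1630000) (enc_scaleT 3537 3260 h1))))) (enc_add (enc_add (enc_subr 137004241409 135000000000 (enc_scaleT 247800593 270000000 h1)) (enc_mul (enc_norm (l2q3_4.enc h1 h2)) (enc_norm (enc_subr 1150946530837 27000000000 (enc_scaleT 1247519749 54000000 h1))))) (enc_mul (l2q3_31.enc h1 h2) (enc_norm (enc_sub (enc_rat _ 3020206739 27000000) (enc_scaleT 3308003 54000 h1)))))))) (enc_case (l2q3_105.enc h1 h2) (enc_add (l2q3_136.enc h1 h2) (enc_mul (enc_norm (enc_mul (enc_norm (enc_sub (enc_sub (qsg.enc (enc_norm (l2q3_65.enc h1 h2))) (enc_mul (enc_norm (enc_nat 2 (enc_sub (l2q3_65.enc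 h1 h2) h2))) (enc_norm (enc_mul (esg.enc (enc_norm (l2q3_65.enc h1 h2))) (kcg.enc (enc_norm (enc_sub (enc_scaleT 3 4 (l2q3_65.enc h1 h2)) (enc_half (gsg.enc (enc_norm (l2q3_65.enc h1 h2)))))) h2))))) (l2q3_136.enc h1 h2))) (enc_norm (enc_sub (cv2r.enc h1) (cv1r.enc h1))))) (enc_inv (enc_sub (enc_subr 1 2 (swg.enc h1)) (cv1r.enc h1))))) (enc_mul (cv2r.enc h1) (enc_norm (enc_case (l2q3_38.enc h1 h2) (enc_add (enc_add (enc_sub (enc_rat _ 462844931071488393 590937070000000000) (enc_scaleT 48326749 590937070 (c3g.enc h1))) (enc_mul (enc_norm (l2q3_4.enc h1 h2)) (enc_norm (enc_add (enc_scaleT 159412007 59093707 (c3g.enc h1)) (enc_rat _ 31750957831036501 59093707000000000))))) (enc_mul (l2q3_31.enc h1 h2) (enc_norm (enc_subr 6341430965649 29546853500000 (enc_scaleT 43914000 59093707 (c3g.enc h1)))))) (enc_add (enc_add (enc_scaleT 157025000 288811357 (c3g.enc h1)) (enc_rat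 _ 120519 200000)) (enc_mul (enc_norm (l2q3_4.enc h1 h2)) (enc_norm (enc_add (enc_scaleT 610550000 288811357 (c3g.enc h1)) (enc_rat _ 14117 20000)))))))))))⟩
noncomputable def bx2q3_3 : Fn2 := ⟨_, _, fun h1 h2 => (enc_subr 237 260 h2)⟩
noncomputable def bx2q3_30 : Fn2 := ⟨_, _, fun h1 h2 => (enc_sq (enc_norm (bx2q3_3.enc h1 h2)))⟩
noncomputable def bx2q3 : Fn2 := ⟨_, _, fun h1 h2 => (enc_norm (enc_case (enc_subr 239 125 h1) (enc_case (enc_subr 913 500 h1) (enc_add (enc_subr 8269341 8150000 (enc_scaleT 7479 8150 h1)) (enc_mul (enc_norm (bx2q3_3.enc h1 h2)) (enc_norm (enc_sub (enc_rat _ 2507191 1630000) (enc_scaleT 3537 3260 h1))))) (enc_add (enc_add (enc_subr 137004241409 135000000000 (enc_scaleT 247800593 270000000 h1)) (enc_mul (enc_norm (bx2q3_3.enc h1 h2)) (enc_norm (enc_subr 1150946530837 27000000000 (enc_scaleT 1247519749 54000000 h1))))) (enc_mul (bx2q3_30.enc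 h1 h2) (enc_norm (enc_sub (enc_rat _ 3020206739 27000000) (enc_scaleT 3308003 54000 h1)))))) (enc_case (enc_sub (enc_rat _ 288811357 1000000000) (c3g.enc h1)) (enc_add (enc_add (enc_sub (enc_rat _ 462844931071488393 590937070000000000) (enc_scaleT 48326749 590937070 (c3g.enc h1))) (enc_mul (enc_norm (bx2q3_3.enc h1 h2)) (enc_norm (enc_add (enc_scaleT 159412007 59093707 (c3g.enc h1)) (enc_rat _ 31750957831036501 59093707000000000))))) (enc_mul (bx2q3_30.enc h1 h2) (enc_norm (enc_subr 6341430965649 29546853500000 (enc_scaleT 43914000 59093707 (c3g.enc h1)))))) (enc_add (enc_add (enc_scaleT 157025000 288811357 (c3g.enc h1)) (enc_rat _ 120519 200000)) (enc_mul (enc_norm (bx2q3_3.enc h1 h2)) (enc_norm (enc_add (enc_scaleT 610550000 288811357 (c3g.enc h1)) (enc_rat _ 14117 20000))))))))⟩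
noncomputable def bx1q3_3 : Fn2 := ⟨_, _, fun h1 h2 => (enc_subr 237 260 h2)⟩
noncomputable def bx1q3 : Fn2 := ⟨_, _, fun h1 h2 => (enc_norm (enc_case (enc_subr 31 16 h1) (enc_case (enc_subr 47 25 h1) (enc_add (enc_subr 853281 475000 (enc_scaleT 6797 4750 h1)) (enc_mul (enc_norm (bx1q3_3.enc h1 h2)) (enc_norm (enc_subr 329971 47500 (enc_scaleT 9143 1900 h1))))) (enc_add (enc_subr 1032929 575000 (enc_scaleT 4114 2875 h1)) (enc_mul (enc_norm (bx1q3_3.enc h1 h2)) (enc_norm (enc_sub (enc_rat _ 576999 28750) (enc_scaleT 5496 575 h1)))))) (enc_case (enc_subr 243 125 h1) (enc_add (enc_subr 2338721 1300000 (enc_scaleT 931 650 h1)) (enc_mul (enc_norm (bx1q3_3.enc h1 h2)) (enc_norm (enc_sub (enc_rat _ 1860013 32500) (enc_scaleT 1868 65 h1))))) (enc_case (enc_sub (enc_rat _ 288811357 1000000000) (c3g.enc h1)) (enc_add (enc_add (enc_scaleT 18770000 59093707 (c3g.enc h1)) (enc_rat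 _ 2529549050453 2954685350000)) (enc_mul (enc_norm (bx1q3_3.enc h1 h2)) (enc_norm (enc_sub (enc_rat _ 5891251432297 590937070000) (enc_scaleT 1249500000 59093707 (c3g.enc h1)))))) (enc_add (enc_add (enc_scaleT 91710000 288811357 (c3g.enc h1)) (enc_rat _ 42807 50000)) (enc_mul (enc_norm (bx1q3_3.enc h1 h2)) (enc_norm (enc_add (enc_scaleT 1673400000 288811357 (c3g.enc h1)) (enc_rat _ 5473 2500)))))))))⟩
noncomputable def rxq3_35 : Fn3 := ⟨_, _, fun h1 h2 h3 => (enc_add (enc_mul h1 (bx2q3.enc h2 h3)) (enc_mul (enc_norm (enc_mul (enc_norm (enc_sub (enc_pnc _ 1) (lm1r.enc h1 h2))) (cv1r.enc h2))) (enc_norm (enc_sub (bx1q3.enc h2 h3) (bx2q3.enc h2 h3)))))⟩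
noncomputable def rxq3_36 : Fn3 := ⟨_, _, fun h1 h2 h3 => (enc_subn 1 h2)⟩
noncomputable def rxq3_54 : Fn3 := ⟨_, _, fun h1 h2 h3 => (enc_sub h1 (cv1r.enc h2))⟩
noncomputable def rxq3 : Fn3 := ⟨_, _, fun h1 h2 h3 => (enc_case (rxq3_54.enc h1 h2 h3) (enc_mul h1 (bx1q3.enc h2 h3)) (enc_case (enc_sub h1 (cv2r.enc h2)) (enc_case (enc_subr 47 25 h2) (rxq3_35.enc h1 h2 h3) (enc_case (enc_subr 243 125 h2) (enc_add (l1q3.enc h2 h3) (enc_mul (enc_norm (enc_mul (enc_norm (rxq3_54.enc h1 h2 h3)) (enc_inv (enc_sub (enc_subr 1 2 (swg.enc h2)) (cv1r.enc h2))))) (enc_norm (enc_sub (enc_sub (qsg.enc (enc_norm (rxq3_36.enc h1 h2 h3))) (enc_mul (enc_norm (enc_nat 2 (enc_sub (rxq3_36.enc h1 h2 h3) h3))) (enc_norm (enc_mul (esg.enc (enc_norm (rxq3_36.enc h1 h2 h3))) (kcg.enc (enc_norm (enc_sub (enc_scaleT 3 4 (rxq3_36.enc h1 h2 h3)) (enc_half (gsg.enc (enc_norm (rxq3_36.enc h1 h2 h3))))))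 h3))))) (l1q3.enc h2 h3))))) (rxq3_35.enc h1 h2 h3))) (enc_case (enc_sub h1 (cv3r.enc h2)) (enc_add (enc_mul h1 (bx3q3.enc h2 h3)) (enc_mul (enc_norm (enc_sub (enc_pnc _ 1) (lm2r.enc h1 h2))) (enc_norm (enc_sub (l2q3.enc h2 h3) (enc_mul (cv2r.enc h2) (bx3q3.enc h2 h3)))))) (enc_add (l3q3.enc h2 h3) (enc_mul (lm3r.enc h1 h2) (enc_norm (enc_sub (l4q3.enc h2 h3) (l3q3.enc h2 h3))))))))⟩
noncomputable def rlq3 : Fn3 := ⟨_, _, fun h1 h2 h3 => (enc_case h1 (enc_neg (rxq3.enc (enc_neg h1) h2 h3)) (rxq3.enc h1 h2 h3))⟩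
noncomputable def bd2q0_3 : Fn2 := ⟨_, _, fun h1 h2 => (enc_subr 237 260 h2)⟩
noncomputable def bd2q0 : Fn2 := ⟨_, _, fun h1 h2 => (enc_norm (enc_case (enc_subr 11 125 h1) (enc_add (enc_subr 2731 10000 (enc_neg (enc_scaleT 6901934743 560000000 h1))) (enc_mul (enc_norm (bd2q0_3.enc h1 h2)) (enc_norm (enc_subr 293 200 (enc_scaleT 527878773 3500000 h1))))) (enc_add (enc_subr 2283701101 1900000000 (enc_scaleT 1141801101 950000000 h1)) (enc_mul (enc_norm (bd2q0_3.enc h1 h2)) (enc_norm (enc_subr 924389937 152000000 (enc_scaleT 462157937 76000000 h1)))))))⟩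
noncomputable def rcq0_35 : Fn3 := ⟨_, _, fun h1 h2 h3 => (enc_add (enc_mul h1 (bd2q0.enc h2 h3)) (enc_mul (enc_norm (enc_mul (enc_norm (enc_sub (enc_pnc _ 1) (lm1m.enc h1 h2))) (cv1m.enc h2))) (enc_norm (enc_sub (bd1q0.enc h2 h3) (bd2q0.enc h2 h3)))))⟩
noncomputable def rcq0_37 : Fn3 := ⟨_, _, fun h1 h2 h3 => (enc_sub (enc_pnc _ 1) h2)⟩
noncomputable def rcq0_38 : Fn3 := ⟨_, _, fun h1 h2 h3 => (gsg.enc (enc_norm (rcq0_37.enc h1 h2 h3)))⟩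
noncomputable def rcq0_42 : Fn3 := ⟨_, _, fun h1 h2 h3 => (esg.enc (enc_norm (rcq0_37.enc h1 h2 h3)))⟩
noncomputable def rcq0_46 : Fn3 := ⟨_, _, fun h1 h2 h3 => (gug.enc (enc_norm (rcq0_37.enc h1 h2 h3)))⟩
noncomputable def rcq0_48 : Fn3 := ⟨_, _, fun h1 h2 h3 => (enc_mul (enc_norm (rcq0_37.enc h1 h2 h3)) (enc_inv (rcq0_38.enc h1 h2 h3)))⟩
noncomputable def rcq0_49 : Fn3 := ⟨_, _, fun h1 h2 h3 => (enc_scaleT 3 4 (rcq0_48.enc h1 h2 h3))⟩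
noncomputable def rcq0_80 : Fn3 := ⟨_, _, fun h1 h2 h3 => (enc_sub h1 (cv1m.enc h2))⟩
noncomputable def rcq0 : Fn3 := ⟨_, _, fun h1 h2 h3 => (enc_case (rcq0_80.enc h1 h2 h3) (enc_add (enc_mul h1 (bd1q0.enc h2 h3)) (enc_mul (enc_norm (enc_sub (enc_pnc _ 1) (lm0m.enc h1 h2))) (enc_norm (enc_sub (kc0q0.enc h2 h3) (enc_mul (c1g.enc h2) (bd1q0.enc h2 h3)))))) (enc_case (enc_sub h1 (cv2m.enc h2)) (enc_case (enc_subr 7 125 h2) (rcq0_35.enc h1 h2 h3) (enc_case (enc_subr 3 25 h2) (enc_add (kc1q0.enc h2 h3) (enc_mul (enc_norm (enc_mul (enc_norm (rcq0_80.enc h1 h2 h3)) (enc_inv (enc_sub (enc_add (swg.enc h2) (enc_rat _ 1 2)) (cv1m.enc h2))))) (enc_norm (enc_sub (enc_add (enc_sub (enc_neg (enc_add (enc_add (enc_rat _ 3 4) (enc_scaleT 3 2 (rcq0_37.enc h1 h2 h3))) (enc_scaleT 3 4 (enc_mul (enc_norm (rcq0_48.enc h1 h2 h3)) (rcq0_46.enc h1 h2 h3))))) (enc_wT (enc_mul (enc_norm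 (enc_sub (enc_mul (enc_norm (enc_mul (enc_norm (rcq0_49.enc h1 h2 h3)) (enc_norm (enc_subn 3 (enc_nat 4 (rcq0_38.enc h1 h2 h3)))))) (rcq0_42.enc h1 h2 h3)) (enc_mul (qsg.enc (enc_norm (rcq0_37.enc h1 h2 h3))) (enc_norm (enc_sub (enc_rat _ 1 2) (rcq0_49.enc h1 h2 h3)))))) (enc_inv (enc_mul (enc_nat 2 (rcq0_42.enc h1 h2 h3)) (rcq0_42.enc h1 h2 h3)))) (rcq0_37.enc h1 h2 h3) (rcq0_38.enc h1 h2 h3) (rcq0_42.enc h1 h2 h3) rfl rfl rfl rfl)) (enc_mul (kcg.enc (enc_norm (enc_sub (enc_scaleT 3 4 (rcq0_37.enc h1 h2 h3)) (enc_half (rcq0_38.enc h1 h2 h3)))) h3) (enc_norm (enc_add (enc_pnc _ 1) (enc_add (rcq0_46.enc h1 h2 h3) (enc_nat 2 (rcq0_38.enc h1 h2 h3))))))) (kc1q0.enc h2 h3))))) (rcq0_35.enc h1 h2 h3))) (enc_case (enc_sub h1 (cv3m.enc h2)) (enc_add (enc_mul h1 (bd3q0.enc h2 h3)) (enc_mul (enc_norm (enc_sub (enc_pnc _ 1) (lm2m.enc h1 h2))) (enc_norm (enc_sub (kc2q0.enc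 h2 h3) (enc_mul (cv2m.enc h2) (bd3q0.enc h2 h3)))))) (enc_add (kc3q0.enc h2 h3) (enc_mul (lm3m.enc h1 h2) (enc_norm (enc_sub (kc4q0.enc h2 h3) (kc3q0.enc h2 h3))))))))⟩
noncomputable def pd0 : Fn3 := ⟨_, _, fun h1 h2 h3 => (enc_case h1 (enc_neg (rcq0.enc (enc_neg h1) h2 h3)) (rcq0.enc h1 h2 h3))⟩
noncomputable def rcq1 : Fn3 := ⟨_, _, fun h1 h2 h3 => (enc_case (enc_sub h1 (cv1m.enc h2)) (enc_add (enc_mul h1 (bd1q1.enc h2 h3)) (enc_mul (enc_norm (enc_sub (enc_pnc _ 1) (lm0m.enc h1 h2))) (enc_norm (enc_sub (kc0q1.enc h2 h3) (enc_mul (c1g.enc h2) (bd1q1.enc h2 h3)))))) (enc_case (enc_sub h1 (cv2m.enc h2)) (enc_add (enc_mul h1 (bd2q1.enc h2 h3)) (enc_mul (enc_norm (enc_mul (enc_norm (enc_sub (enc_pnc _ 1) (lm1m.enc h1 h2))) (cv1m.enc h2))) (enc_norm (enc_sub (bd1q1.enc h2 h3) (bd2q1.enc h2 h3))))) (enc_case (enc_sub h1 (cv3m.enc h2)) (enc_add (enc_mul h1 (bd3q1.enc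 h2 h3)) (enc_mul (enc_norm (enc_mul (enc_norm (enc_sub (enc_pnc _ 1) (lm2m.enc h1 h2))) (cv2m.enc h2))) (enc_norm (enc_sub (bd2q1.enc h2 h3) (bd3q1.enc h2 h3))))) (enc_add (kc3q1.enc h2 h3) (enc_mul (lm3m.enc h1 h2) (enc_norm (enc_sub (kc4q1.enc h2 h3) (kc3q1.enc h2 h3))))))))⟩
noncomputable def pd1 : Fn3 := ⟨_, _, fun h1 h2 h3 => (enc_case h1 (enc_neg (rcq1.enc (enc_neg h1) h2 h3)) (rcq1.enc h1 h2 h3))⟩
noncomputable def kc0q2 : Fn2 := ⟨_, _, fun h1 h2 => (enc_pnc _ 0)⟩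
noncomputable def n0d : Fn2 := ⟨_, _, fun h1 h2 => (enc_pnc _ 0)⟩
noncomputable def rcq2_40 : Fn3 := ⟨_, _, fun h1 h2 h3 => (enc_mul h1 (bd1q2.enc h2 h3))⟩
noncomputable def rcq2_42 : Fn3 := ⟨_, _, fun h1 h2 h3 => (enc_sub (enc_pnc _ 1) (lm0p.enc h1 h2))⟩
noncomputable def rcq2 : Fn3 := ⟨_, _, fun h1 h2 h3 => (enc_case (enc_sub h1 (cv1p.enc h2)) (enc_case (enc_subr 1149 1000 h2) (enc_add (rcq2_40.enc h1 h2 h3) (enc_mul (enc_norm (rcq2_42.enc h1 h2 h3)) (enc_norm (enc_sub (kc0q2.enc h2 h3) (enc_mul (c1g.enc h2) (bd1q2.enc h2 h3)))))) (enc_case (enc_subr 2887 2500 h2) (enc_add (rcq2_40.enc h1 h2 h3) (enc_mul (enc_norm (rcq2_42.enc h1 h2 h3)) (enc_norm (enc_mul (c1g.enc h2) (enc_norm (enc_sub (n0d.enc h2 h3) (bd1q2.enc h2 h3))))))) (rcq2_40.enc h1 h2 h3))) (enc_case (enc_sub h1 (cv2p.enc h2)) (enc_add (enc_mul h1 (bd2q2.enc h2 h3)) (enc_mul (enc_norm (enc_mul (enc_norm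 (enc_sub (enc_pnc _ 1) (lm1p.enc h1 h2))) (cv1p.enc h2))) (enc_norm (enc_sub (bd1q2.enc h2 h3) (bd2q2.enc h2 h3))))) (enc_case (enc_sub h1 (cv3p.enc h2)) (enc_add (enc_mul h1 (bd3q2.enc h2 h3)) (enc_mul (enc_norm (enc_mul (enc_norm (enc_sub (enc_pnc _ 1) (lm2p.enc h1 h2))) (cv2p.enc h2))) (enc_norm (enc_sub (bd2q2.enc h2 h3) (bd3q2.enc h2 h3))))) (enc_add (kc3q2.enc h2 h3) (enc_mul (lm3p.enc h1 h2) (enc_norm (enc_sub (kc4q2.enc h2 h3) (kc3q2.enc h2 h3))))))))⟩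
noncomputable def pd2 : Fn3 := ⟨_, _, fun h1 h2 h3 => (enc_case h1 (enc_neg (rcq2.enc (enc_neg h1) h2 h3)) (rcq2.enc h1 h2 h3))⟩
noncomputable def kc3q3_4 : Fn2 := ⟨_, _, fun h1 h2 => (enc_subr 237 260 h2)⟩
noncomputable def kc3q3 : Fn2 := ⟨_, _, fun h1 h2 => (enc_norm (enc_mul (cv3r.enc h1) (enc_norm (enc_case (enc_subr 47 25 h1) (enc_add (enc_sub (enc_rat _ 928387 95000) (enc_scaleT 8237 1900 h1)) (enc_mul (enc_norm (kc3q3_4.enc h1 h2)) (enc_norm (enc_sub (enc_rat _ 3664339 19000) (enc_scaleT 29517 190 h1))))) (enc_case (enc_subr 243 125 h1) (enc_add (enc_sub (enc_rat _ 781901 80000) (enc_scaleT 555 128 h1)) (enc_mul (enc_norm (kc3q3_4.enc h1 h2)) (enc_norm (enc_sub (enc_rat _ 771373 4000) (enc_scaleT 4971 32 h1))))) (enc_add (enc_sub (enc_rat _ 5661 1670) (enc_scaleT 341535100000 67968794757 (c3g.enc h1))) (enc_mul (enc_norm (kc3q3_4.enc h1 h2)) (enc_norm (enc_sub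 (enc_rat _ 111 167) (enc_scaleT 18338215000000 67968794757 (c3g.enc h1)))))))))))⟩
noncomputable def kc4q3_3 : Fn2 := ⟨_, _, fun h1 h2 => (enc_subr 237 260 h2)⟩
noncomputable def kc4q3_9 : Fn2 := ⟨_, _, fun h1 h2 => (enc_sub (enc_half (c3g.enc h1)) (enc_scaleT 1 4 h1))⟩
noncomputable def kc4q3_26 : Fn2 := ⟨_, _, fun h1 h2 => (enc_neg (enc_scaleT 2268 415 (kc4q3_9.enc h1 h2)))⟩
noncomputable def kc4q3_43 : Fn2 := ⟨_, _, fun h1 h2 => (enc_mul (enc_norm (kc4q3_3.enc h1 h2)) (enc_norm (enc_add (enc_scaleT 47831 167 (kc4q3_9.enc h1 h2)) (enc_rat _ 47799 500))))⟩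
noncomputable def kc4q3 : Fn2 := ⟨_, _, fun h1 h2 => (enc_norm (enc_case (kc4q3_9.enc h1 h2) (enc_case (enc_add (kc4q3_9.enc h1 h2) (enc_rat _ 333 1000)) (enc_add (enc_add (enc_scaleT 5661 835 (kc4q3_9.enc h1 h2)) (enc_rat _ 5661 1670)) (enc_mul (enc_norm (kc4q3_3.enc h1 h2)) (enc_norm (enc_add (enc_scaleT 222 167 (kc4q3_9.enc h1 h2)) (enc_rat _ 111 167))))) (enc_case (enc_add (kc4q3_9.enc h1 h2) (enc_rat _ 167 1000)) (enc_add (enc_subr 285381 415000 (kc4q3_26.enc h1 h2)) (enc_mul (enc_norm (kc4q3_3.enc h1 h2)) (enc_norm (enc_add (enc_scaleT 47545 166 (kc4q3_9.enc h1 h2)) (enc_rat _ 15869337 166000))))) (enc_add (enc_subr 6877 10000 (enc_neg (enc_scaleT 9127 1670 (kc4q3_9.enc h1 h2)))) (kc4q3_43.enc h1 h2)))) (enc_case (enc_subr 167 1000 (kc4q3_9.enc h1 h2)) (enc_add (enc_subr 6877 10000 (enc_neg (enc_scaleT 4564 835 (kc4q3_9.enc h1 h2)))) (kc4q3_43.enc h1 h2))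 (enc_case (enc_subr 333 1000 (kc4q3_9.enc h1 h2)) (enc_add (enc_subr 570903 830000 (kc4q3_26.enc h1 h2)) (enc_mul (enc_norm (kc4q3_3.enc h1 h2)) (enc_norm (enc_add (enc_scaleT 23772 83 (kc4q3_9.enc h1 h2)) (enc_rat _ 7934683 83000))))) (enc_add (enc_subr 25077 3340 (enc_scaleT 25077 1670 (kc4q3_9.enc h1 h2))) (enc_mul (enc_norm (kc4q3_3.enc h1 h2)) (enc_norm (enc_sub (enc_rat _ 190973 334) (enc_scaleT 190973 167 (kc4q3_9.enc h1 h2))))))))))⟩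
noncomputable def bd3q3_3 : Fn2 := ⟨_, _, fun h1 h2 => (enc_subr 237 260 h2)⟩
noncomputable def bd3q3 : Fn2 := ⟨_, _, fun h1 h2 => (enc_norm (enc_case (enc_subr 47 25 h1) (enc_add (enc_sub (enc_rat _ 928387 95000) (enc_scaleT 8237 1900 h1)) (enc_mul (enc_norm (bd3q3_3.enc h1 h2)) (enc_norm (enc_sub (enc_rat _ 3664339 19000) (enc_scaleT 29517 190 h1))))) (enc_case (enc_subr 243 125 h1) (enc_add (enc_sub (enc_rat _ 781901 80000) (enc_scaleT 555 128 h1)) (enc_mul (enc_norm (bd3q3_3.enc h1 h2)) (enc_norm (enc_sub (enc_rat _ 771373 4000) (enc_scaleT 4971 32 h1))))) (enc_add (enc_sub (enc_rat _ 5661 1670) (enc_scaleT 341535100000 67968794757 (c3g.enc h1))) (enc_mul (enc_norm (bd3q3_3.enc h1 h2)) (enc_norm (enc_sub (enc_rat _ 111 167) (enc_scaleT 18338215000000 67968794757 (c3g.enc h1)))))))))⟩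
noncomputable def kc2q3_4 : Fn2 := ⟨_, _, fun h1 h2 => (enc_subr 237 260 h2)⟩
noncomputable def kc2q3_27 : Fn2 := ⟨_, _, fun h1 h2 => (enc_subn 1 h1)⟩
noncomputable def kc2q3_28 : Fn2 := ⟨_, _, fun h1 h2 => (gsg.enc (enc_norm (kc2q3_27.enc h1 h2)))⟩
noncomputable def kc2q3_32 : Fn2 := ⟨_, _, fun h1 h2 => (esg.enc (enc_norm (kc2q3_27.enc h1 h2)))⟩
noncomputable def kc2q3_37 : Fn2 := ⟨_, _, fun h1 h2 => (gug.enc (enc_norm (kc2q3_27.enc h1 h2)))⟩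
noncomputable def kc2q3_39 : Fn2 := ⟨_, _, fun h1 h2 => (enc_mul (enc_norm (kc2q3_27.enc h1 h2)) (enc_inv (kc2q3_28.enc h1 h2)))⟩
noncomputable def kc2q3_40 : Fn2 := ⟨_, _, fun h1 h2 => (enc_scaleT 3 4 (kc2q3_39.enc h1 h2))⟩
noncomputable def kc2q3_69 : Fn2 := ⟨_, _, fun h1 h2 => (enc_subr 243 125 h1)⟩
noncomputable def kc2q3_91 : Fn2 := ⟨_, _, fun h1 h2 => (enc_mul (cv1r.enc h1) (enc_norm (enc_case (kc2q3_69.enc h1 h2) (enc_add (enc_subr 1876311 185000 (enc_scaleT 3249 370 h1)) (enc_mul (enc_norm (kc2q3_4.enc h1 h2)) (enc_norm (enc_sub (enc_rat _ 6301743 18500) (enc_scaleT 130945 444 h1))))) (enc_add (enc_subr 39 1250 (enc_scaleT 2319800000 135666257 (c3g.enc h1))) (enc_mul (enc_norm (kc2q3_4.enc h1 h2)) (enc_norm (enc_sub (enc_rat _ 298 125) (enc_scaleT 235076000000 406998771 (c3g.enc h1)))))))))⟩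
noncomputable def kc2q3 : Fn2 := ⟨_, _, fun h1 h2 => (enc_norm (enc_case (enc_subr 47 25 h1) (enc_mul (cv2r.enc h1) (enc_norm (enc_add (enc_subr 9060498839 1520000000 (enc_scaleT 4428243613 760000000 h1)) (enc_mul (enc_norm (kc2q3_4.enc h1 h2)) (enc_norm (enc_subr 4065279651 40000000 (enc_scaleT 1810013217 20000000 h1))))))) (enc_case (kc2q3_69.enc h1 h2) (enc_add (kc2q3_91.enc h1 h2) (enc_mul (enc_norm (enc_mul (enc_norm (enc_sub (enc_add (enc_sub (enc_add (enc_add (enc_rat _ 3 4) (enc_scaleT 3 2 (kc2q3_27.enc h1 h2))) (enc_scaleT 3 4 (enc_mul (enc_norm (kc2q3_39.enc h1 h2)) (kc2q3_37.enc h1 h2)))) (enc_wT (enc_mul (enc_norm (enc_sub (enc_mul (enc_norm (enc_mul (enc_norm (kc2q3_40.enc h1 h2)) (enc_norm (enc_subn 3 (enc_nat 4 (kc2q3_28.enc h1 h2)))))) (kc2q3_32.enc h1 h2)) (enc_mul (qsg.enc (enc_norm (kc2q3_27.enc h1 h2))) (enc_norm (enc_sub (enc_rat _ 1 2) (kc2q3_40.enc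 h1 h2)))))) (enc_inv (enc_mul (enc_nat 2 (kc2q3_32.enc h1 h2)) (kc2q3_32.enc h1 h2)))) (kc2q3_27.enc h1 h2) (kc2q3_28.enc h1 h2) (kc2q3_32.enc h1 h2) rfl rfl rfl rfl)) (enc_mul (kcg.enc (enc_norm (enc_sub (enc_scaleT 3 4 (kc2q3_27.enc h1 h2)) (enc_half (kc2q3_28.enc h1 h2)))) h2) (enc_norm (enc_sub (enc_pnc _ 1) (enc_add (kc2q3_37.enc h1 h2) (enc_nat 2 (kc2q3_28.enc h1 h2))))))) (kc2q3_91.enc h1 h2))) (enc_norm (enc_sub (cv2r.enc h1) (cv1r.enc h1))))) (enc_inv (enc_sub (enc_subr 1 2 (swg.enc h1)) (cv1r.enc h1))))) (enc_mul (cv2r.enc h1) (enc_norm (enc_add (enc_add (enc_scaleT 4587218624431 339843973785 (c3g.enc h1)) (enc_rat _ 5661 1670)) (enc_mul (enc_norm (kc2q3_4.enc h1 h2)) (enc_norm (enc_add (enc_scaleT 9318062021243 67968794757 (c3g.enc h1)) (enc_rat _ 111 167))))))))))⟩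
noncomputable def bd2q3_3 : Fn2 := ⟨_, _, fun h1 h2 => (enc_subr 237 260 h2)⟩
noncomputable def bd2q3 : Fn2 := ⟨_, _, fun h1 h2 => (enc_norm (enc_case (enc_subr 239 125 h1) (enc_add (enc_subr 9060498839 1520000000 (enc_scaleT 4428243613 760000000 h1)) (enc_mul (enc_norm (bd2q3_3.enc h1 h2)) (enc_norm (enc_subr 4065279651 40000000 (enc_scaleT 1810013217 20000000 h1))))) (enc_add (enc_add (enc_scaleT 4587218624431 339843973785 (c3g.enc h1)) (enc_rat _ 5661 1670)) (enc_mul (enc_norm (bd2q3_3.enc h1 h2)) (enc_norm (enc_add (enc_scaleT 9318062021243 67968794757 (c3g.enc h1)) (enc_rat _ 111 167)))))))⟩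
noncomputable def bd1q3_3 : Fn2 := ⟨_, _, fun h1 h2 => (enc_subr 237 260 h2)⟩
noncomputable def bd1q3 : Fn2 := ⟨_, _, fun h1 h2 => (enc_norm (enc_case (enc_subr 243 125 h1) (enc_add (enc_subr 1876311 185000 (enc_scaleT 3249 370 h1)) (enc_mul (enc_norm (bd1q3_3.enc h1 h2)) (enc_norm (enc_sub (enc_rat _ 6301743 18500) (enc_scaleT 130945 444 h1))))) (enc_add (enc_subr 39 1250 (enc_scaleT 2319800000 135666257 (c3g.enc h1))) (enc_mul (enc_norm (bd1q3_3.enc h1 h2)) (enc_norm (enc_sub (enc_rat _ 298 125) (enc_scaleT 235076000000 406998771 (c3g.enc h1))))))))⟩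
noncomputable def rcq3_35 : Fn3 := ⟨_, _, fun h1 h2 h3 => (enc_add (enc_mul h1 (bd2q3.enc h2 h3)) (enc_mul (enc_norm (enc_mul (enc_norm (enc_sub (enc_pnc _ 1) (lm1r.enc h1 h2))) (cv1r.enc h2))) (enc_norm (enc_sub (bd1q3.enc h2 h3) (bd2q3.enc h2 h3)))))⟩
noncomputable def rcq3_36 : Fn3 := ⟨_, _, fun h1 h2 h3 => (enc_subn 1 h2)⟩
noncomputable def rcq3_37 : Fn3 := ⟨_, _, fun h1 h2 h3 => (gsg.enc (enc_norm (rcq3_36.enc h1 h2 h3)))⟩
noncomputable def rcq3_41 : Fn3 := ⟨_, _, fun h1 h2 h3 => (esg.enc (enc_norm (rcq3_36.enc h1 h2 h3)))⟩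
noncomputable def rcq3_46 : Fn3 := ⟨_, _, fun h1 h2 h3 => (gug.enc (enc_norm (rcq3_36.enc h1 h2 h3)))⟩
noncomputable def rcq3_48 : Fn3 := ⟨_, _, fun h1 h2 h3 => (enc_mul (enc_norm (rcq3_36.enc h1 h2 h3)) (enc_inv (rcq3_37.enc h1 h2 h3)))⟩
noncomputable def rcq3_49 : Fn3 := ⟨_, _, fun h1 h2 h3 => (enc_scaleT 3 4 (rcq3_48.enc h1 h2 h3))⟩
noncomputable def rcq3_80 : Fn3 := ⟨_, _, fun h1 h2 h3 => (enc_sub h1 (cv1r.enc h2))⟩
noncomputable def rcq3 : Fn3 := ⟨_, _, fun h1 h2 h3 => (enc_case (rcq3_80.enc h1 h2 h3) (enc_mul h1 (bd1q3.enc h2 h3)) (enc_case (enc_sub h1 (cv2r.enc h2)) (enc_case (enc_subr 47 25 h2) (rcq3_35.enc h1 h2 h3) (enc_case (enc_subr 243 125 h2) (enc_add (kc1q3.enc h2 h3) (enc_mul (enc_norm (enc_mul (enc_norm (rcq3_80.enc h1 h2 h3)) (enc_inv (enc_sub (enc_subr 1 2 (swg.enc h2)) (cv1r.enc h2))))) (enc_norm (enc_sub (enc_add (enc_sub (enc_add (enc_add (enc_rat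 _ 3 4) (enc_scaleT 3 2 (rcq3_36.enc h1 h2 h3))) (enc_scaleT 3 4 (enc_mul (enc_norm (rcq3_48.enc h1 h2 h3)) (rcq3_46.enc h1 h2 h3)))) (enc_wT (enc_mul (enc_norm (enc_sub (enc_mul (enc_norm (enc_mul (enc_norm (rcq3_49.enc h1 h2 h3)) (enc_norm (enc_subn 3 (enc_nat 4 (rcq3_37.enc h1 h2 h3)))))) (rcq3_41.enc h1 h2 h3)) (enc_mul (qsg.enc (enc_norm (rcq3_36.enc h1 h2 h3))) (enc_norm (enc_sub (enc_rat _ 1 2) (rcq3_49.enc h1 h2 h3)))))) (enc_inv (enc_mul (enc_nat 2 (rcq3_41.enc h1 h2 h3)) (rcq3_41.enc h1 h2 h3)))) (rcq3_36.enc h1 h2 h3) (rcq3_37.enc h1 h2 h3) (rcq3_41.enc h1 h2 h3) rfl rfl rfl rfl)) (enc_mul (kcg.enc (enc_norm (enc_sub (enc_scaleT 3 4 (rcq3_36.enc h1 h2 h3)) (enc_half (rcq3_37.enc h1 h2 h3)))) h3) (enc_norm (enc_sub (enc_pnc _ 1) (enc_add (rcq3_46.enc h1 h2 h3) (enc_nat 2 (rcq3_37.enc h1 h2 h3))))))) (kc1q3.enc h2 h3))))) (rcq3_35.enc h1 h2 h3))) (enc_case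 (enc_sub h1 (cv3r.enc h2)) (enc_add (enc_mul h1 (bd3q3.enc h2 h3)) (enc_mul (enc_norm (enc_sub (enc_pnc _ 1) (lm2r.enc h1 h2))) (enc_norm (enc_sub (kc2q3.enc h2 h3) (enc_mul (cv2r.enc h2) (bd3q3.enc h2 h3)))))) (enc_add (kc3q3.enc h2 h3) (enc_mul (lm3r.enc h1 h2) (enc_norm (enc_sub (kc4q3.enc h2 h3) (kc3q3.enc h2 h3))))))))⟩
noncomputable def pd3 : Fn3 := ⟨_, _, fun h1 h2 h3 => (enc_case h1 (enc_neg (rcq3.enc (enc_neg h1) h2 h3)) (rcq3.enc h1 h2 h3))⟩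
noncomputable def mug3 : Fn1 := ⟨_, _, fun h1 => (enc_inv (enc_add (enc_nat 2 (gsg.enc h1)) (enc_pnc _ 3)))⟩
noncomputable def eng : Fn1 := ⟨_, _, fun h1 => (enc_norm (enc_add (enc_pnc _ 1) (enc_mul (mug3.enc h1) (gug.enc h1))))⟩
noncomputable def mog : Fn1 := ⟨_, _, fun h1 => (enc_norm (enc_scaleT 1 20 (enc_mul (mug3.enc h1) (esg.enc h1))))⟩
noncomputable def kf1q2 : Fn2 := ⟨_, _, fun h1 h2 => (enc_norm (enc_mul (cv1p.enc h1) (bf1q2.enc h1 h2)))⟩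
noncomputable def l1q2 : Fn2 := ⟨_, _, fun h1 h2 => (enc_norm (enc_mul (cv1p.enc h1) (bx1q2.enc h1 h2)))⟩
noncomputable def kc1q2 : Fn2 := ⟨_, _, fun h1 h2 => (enc_norm (enc_mul (cv1p.enc h1) (bd1q2.enc h1 h2)))⟩

noncomputable def ndB0q0 : Node := ⟨idf, c1g, kf0q0, l0q0⟩
noncomputable def cd0q0 : Fn2 := kc0q0
noncomputable def ndB0q1 : Node := ⟨idf, c1g, kf0q1, l0q1⟩
noncomputable def cd0q1 : Fn2 := kc0q1
noncomputable def ndB0q2 : Node := ⟨yag, idf, kfc02, lc02⟩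
noncomputable def cd0q2 : Fn2 := kcc02
noncomputable def ndB1q0 : Node := ⟨idf, cv1m, kf1q0, l1q0⟩
noncomputable def cd1q0 : Fn2 := kc1q0
noncomputable def ndB1q1 : Node := ⟨idf, cv1m, kf1q1, l1q1⟩
noncomputable def cd1q1 : Fn2 := kc1q1
noncomputable def ndB1q2a : Node := ⟨yag, xc12a, kfc12a, lc12a⟩
noncomputable def cd1q2a : Fn2 := kcc12a
noncomputable def ndB1q2b : Node := ⟨idf, xc12b, kfc12b, lc12b⟩
noncomputable def cd1q2b : Fn2 := kcc12b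
noncomputable def ndB1q3 : Node := ⟨idf, cv1r, kf1q3, l1q3⟩
noncomputable def cd1q3 : Fn2 := kc1q3
noncomputable def ndB2q0 : Node := ⟨idf, cv2m, kf2q0, l2q0⟩
noncomputable def cd2q0 : Fn2 := kc2q0
noncomputable def ndB2q1 : Node := ⟨idf, cv2m, kf2q1, l2q1⟩
noncomputable def cd2q1 : Fn2 := kc2q1
noncomputable def ndB2q2 : Node := ⟨idf, cv2p, kf2q2, l2q2⟩
noncomputable def cd2q2 : Fn2 := kc2q2
noncomputable def ndB2q3 : Node := ⟨ycg, xc23, kfc23, lc23⟩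
noncomputable def cd2q3 : Fn2 := kcc23
noncomputable def ndB3q0 : Node := ⟨idf, cv3m, kf3q0, l3q0⟩
noncomputable def cd3q0 : Fn2 := kc3q0
noncomputable def ndB3q1 : Node := ⟨idf, cv3m, kf3q1, l3q1⟩
noncomputable def cd3q1 : Fn2 := kc3q1
noncomputable def ndB3q2 : Node := ⟨idf, cv3p, kf3q2, l3q2⟩
noncomputable def cd3q2 : Fn2 := kc3q2
noncomputable def ndB3q3 : Node := ⟨ycg, xc33, kfc33, lc33⟩
noncomputable def cd3q3 : Fn2 := kcc33
noncomputable def ndB4q0 : Node := ⟨idf, c3g, kf4q0, l4q0⟩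
noncomputable def cd4q0 : Fn2 := kc4q0
noncomputable def ndB4q1 : Node := ⟨idf, c3g, kf4q1, l4q1⟩
noncomputable def cd4q1 : Fn2 := kc4q1
noncomputable def ndB4q2 : Node := ⟨idf, c3g, kf4q2, l4q2⟩
noncomputable def cd4q2 : Fn2 := kc4q2
noncomputable def ndB4q3 : Node := ⟨ycg, idf, kfc43, lc43⟩
noncomputable def cd4q3 : Fn2 := kcc43
noncomputable def pcB0 : Piece := ⟨rsbq0, rlq0⟩
noncomputable def pcB1 : Piece := ⟨rsbq1, rlq1⟩
noncomputable def pcB2 : Piece := ⟨rsbq2, rlq2⟩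
noncomputable def pcB3 : Piece := ⟨rsbq3, rlq3⟩
noncomputable def ndB1q2 : Node := ⟨idf, cv1p, kf1q2, l1q2⟩
noncomputable def cd1q2 : Fn2 := kc1q2
end Pool.Agent.Strip051.G.I9000_9231.Tab
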