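import Pool.Agent.Strip051.G.I9000_9231.MolD

/-! # The tight charts of a table: certificates (generated) -/

set_option linter.all false
set_option maxRecDepth 100000

namespace Pool.Agent.Strip051.G.I9000_9231.Tab.Mo

open Pool.Agent.Strip051.PB Pool.Agent.Strip051.PB.Mol Pool.Agent.Strip051.PB.T
open Pool.Agent.Strip051.G.I9000_9231.Tab

noncomputable def f0Ap : ℕ → ℕ → ℕ → ℕ → Bool :=
  onCell 0 92274688 0 1572864 966367641 24778659 (c0_Ap.row false 46137344)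

theorem h0_0Ap : ∃ t, chk3 f0Ap t 1 1 1 = true :=
  ⟨(a (a (a (c (l 7) (l 16)) (c (l 16) (l 16))) (a (c (a (l 16) (l 16)) (a (l 16) (c (l 16) (l 16)))) (c (a (c (l 8) (c (l 8) (l 8))) (c (l 10) (l 10))) (a (c (c (l 8) (l 8)) (c (l 8) (l 8))) (c (l 10) (c (l 10) (l 10))))))) (a (c (a (a (c (l 10) (l 10)) (c (l 2) (l 2))) (c (a (l 2) (l 2)) (a (l 2) (c (l 2) (l 2))))) (a (a (c (c (l 10) (l 10)) (c (l 10) (l 10))) (c (l 2) (c (l 2) (l 2)))) (c (a (c (l 2) (l 2)) (c (l 2) (l 2))) (a (c (l 2) (l 2)) (c (l 2) (a (l 2) (l 2))))))) (c (a (c (a (c (l 2) (l 2)) (c (l 2) (l 2))) (a (c (l 2) (l 2)) (c (l 2) (a (l 2) (l 2))))) (c (a (c (l 2) (l 2)) (c (a (l 2) (l 2)) (a (l 2) (l 2)))) (a (c (a (l 2) (l 2)) (a (l 2) (l 2))) (c (a (l 2) (l 5)) (l 5))))) (a (c (a (c (l 2) (a (l 2) (l 2))) (c (a (l 2) (l 2)) (a (l 2) (c (l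 2) (l 5))))) (a (c (a (l 2) (l 2)) (a (l 2) (l 5))) (l 5))) (c (a (c (a (c (l 2) (l 5)) (l 5)) (l 5)) (l 5)) (l 5)))))), by decide +kernel⟩

theorem ct_0Ap : ∃ t, chk3 f0Ap t 1 1 1 = true := h0_0Ap

noncomputable def f0Apk1 : ℕ → ℕ → ℕ → ℕ → Bool :=
  onCell 0 92274688 0 2097152 966367641 24778659 (c0_Apk1.row false 46137344)

theorem h0_0Apk1 : ∃ t, chk3 f0Apk1 t 1 1 1 = true :=
  ⟨(a (a (a (c (l 7) (l 8)) (c (l 8) (l 8))) (a (c (l 8) (l 8)) (c (l 10) (l 10)))) (a (c (a (l 10) (l 2)) (a (c (l 10) (l 10)) (c (l 2) (l 2)))) (c (a (c (l 2) (l 2)) (c (l 2) (a (l 2) (l 2)))) (a (c (a (l 2) (l 2)) (a (l 2) (l 5))) (c (a (l 2) (l 5)) (l 5)))))), by decide +kernel⟩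

theorem ct_0Apk1 : ∃ t, chk3 f0Apk1 t 1 1 1 = true := h0_0Apk1

noncomputable def f0Am : ℕ → ℕ → ℕ → ℕ → Bool :=
  onCell 0 92274688 0 2097152 966367641 24778659 (c0_Am.row true 46137344)

theorem h0_0Am : ∃ t, chk3 f0Am t 1 1 1 = true :=
  ⟨(a (a (a (c (l 7) (l 8)) (c (l 8) (l 8))) (a (c (l 8) (c (l 8) (l 8))) (c (c (l 10) (l 10)) (a (l 8) (c (l 10) (l 10)))))) (a (c (a (a (c (l 10) (l 10)) (c (l 2) (l 2))) (c (a (l 2) (l 2)) (a (l 2) (l 2)))) (a (a (c (l 10) (c (l 10) (l 10))) (c (l 2) (l 2))) (c (a (l 2) (l 2)) (a (l 2) (c (l 2) (l 2)))))) (c (a (c (a (l 2) (l 2)) (a (l 2) (c (l 2) (l 2)))) (c (a (c (l 2) (l 2)) (c (l 2) (l 2))) (a (c (l 2) (l 2)) (c (l 2) (l 5))))) (a (c (a (c (l 2) (l 2)) (c (l 2) (l 2))) (a (c (l 2) (l 2)) (l 5))) (c (a (c (l 2) (l 5)) (l 5)) (l 5)))))), by decide +kernel⟩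

theorem ct_0Am : ∃ t, chk3 f0Am t 1 1 1 = true := h0_0Am

noncomputable def f0Bp : ℕ → ℕ → ℕ → ℕ → Bool :=
  onCell 0 92274688 0 2097152 966367641 24778659 (c0_Bp.row false 46137344)

theorem h0_0Bp : ∃ t, chk3 f0Bp t 2 1 1 = true :=
  ⟨(a (c (a (l 7) (c (l 16) (l 16))) (a (l 16) (c (l 8) (l 16)))) (c (a (a (c (l 8) (l 8)) (c (l 8) (l 8))) (a (c (l 8) (l 8)) (c (l 10) (l 10)))) (a (a (c (l 8) (l 8)) (c (l 8) (l 8))) (a (c (l 8) (l 8)) (c (c (l 10) (l 10)) (c (l 10) (l 10))))))), by decide +kernel⟩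

theorem h1_0Bp : ∃ t, chk3 f0Bp t 6 1 1 = true :=
  ⟨(c (a (a (c (c (l 10) (l 10)) (c (l 10) (l 10))) (c (l 2) (c (l 2) (l 2)))) (c (a (c (l 2) (l 2)) (c (l 2) (l 2))) (a (c (l 2) (l 2)) (c (a (l 2) (l 2)) (a (l 2) (l 2)))))) (a (a (c (a (l 10) (l 2)) (a (c (l 10) (l 10)) (l 2))) (c (c (l 2) (l 2)) (c (l 2) (a (l 2) (l 2))))) (c (a (c (l 2) (a (l 2) (l 2))) (c (a (l 2) (l 2)) (a (l 2) (l 2)))) (a (c (a (l 2) (l 2)) (a (l 2) (l 2))) (c (a (l 2) (c (l 2) (l 2))) (a (l 2) (c (l 2) (l 2)))))))), by decide +kernel⟩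

theorem h2_0Bp : ∃ t, chk3 f0Bp t 7 1 1 = true :=
  ⟨(c (a (c (a (c (a (l 2) (l 2)) (a (l 2) (l 2))) (c (a (l 2) (l 2)) (a (l 2) (l 2)))) (a (c (a (l 2) (l 2)) (a (l 2) (l 2))) (c (a (l 2) (c (l 2) (l 2))) (a (c (l 2) (l 2)) (c (l 2) (l 2)))))) (c (a (c (a (c (l 2) (l 2)) (c (l 2) (l 2))) (a (c (l 2) (l 2)) (c (l 2) (l 2)))) (c (a (c (l 2) (l 2)) (b (c (l 2) (l 2)) (c (l 2) (l 2)))) (a (b (c (l 2) (l 2)) (c (l 2) (l 2))) (c (a (l 2) (l 5)) (l 5))))) (a (c (a (c (l 2) (l 2)) (c (l 2) (a (l 2) (l 2)))) (a (c (l 2) (a (l 2) (l 2))) (c (a (l 2) (l 5)) (l 5)))) (c (a (c (a (l 2) (l 5)) (l 5)) (l 5)) (l 5))))) (a (c (a (c (a (l 2) (c (l 2) (l 2))) (a (c (l 2) (l 2)) (c (l 2) (l 2)))) (c (a (c (l 2) (l 2)) (c (l 2) (l 2))) (a (c (l 2) (l 2)) (c (a (l 2) (l 5)) (l 5))))) (a (c (a (c (l 2) (l 2)) (c (l 2) (l 2))) (a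 (c (l 2) (l 2)) (l 5))) (l 5))) (c (a (c (a (c (a (l 2) (l 5)) (l 5)) (l 5)) (l 5)) (l 5)) (l 5)))), by decide +kernel⟩

theorem h3_0Bp : ∃ t, chk3 f0Bp t 3 1 1 = true := ex3_a h1_0Bp h2_0Bp

theorem h4_0Bp : ∃ t, chk3 f0Bp t 1 1 1 = true := ex3_a h0_0Bp h3_0Bp

theorem ct_0Bp : ∃ t, chk3 f0Bp t 1 1 1 = true := h4_0Bp

noncomputable def f0Bpk1 : ℕ → ℕ → ℕ → ℕ → Bool :=
  onCell 0 92274688 0 2097152 966367641 24778659 (c0_Bpk1.row false 46137344)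

theorem h0_0Bpk1 : ∃ t, chk3 f0Bpk1 t 1 1 1 = true :=
  ⟨(a (a (a (c (l 7) (l 8)) (c (l 8) (l 8))) (c (a (c (l 8) (l 8)) (c (l 10) (l 10))) (a (c (l 8) (l 8)) (c (l 10) (l 10))))) (a (c (a (a (l 10) (l 2)) (c (l 2) (a (l 2) (l 2)))) (a (a (c (l 10) (l 10)) (c (l 2) (l 2))) (c (a (l 2) (l 2)) (a (l 2) (l 2))))) (c (a (c (a (l 2) (l 2)) (a (l 2) (l 2))) (c (a (l 2) (c (l 2) (l 2))) (a (c (l 2) (l 2)) (c (l 2) (l 5))))) (a (c (a (l 2) (c (l 2) (l 2))) (a (c (l 2) (l 2)) (l 5))) (c (a (c (l 2) (l 5)) (l 5)) (l 5)))))), by decide +kernel⟩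

theorem ct_0Bpk1 : ∃ t, chk3 f0Bpk1 t 1 1 1 = true := h0_0Bpk1

noncomputable def f0Bm : ℕ → ℕ → ℕ → ℕ → Bool :=
  onCell 0 92274688 0 2097152 966367641 24778659 (c0_Bm.row true 46137344)

theorem h0_0Bm : ∃ t, chk3 f0Bm t 2 1 1 = true :=
  ⟨(a (c (a (l 7) (c (l 16) (l 16))) (a (l 16) (c (l 16) (l 16)))) (c (a (a (l 16) (c (l 16) (l 16))) (a (c (a (l 16) (c (l 16) (l 16))) (a (l 16) (c (l 16) (l 16)))) (c (a (c (l 8) (l 8)) (c (l 10) (l 10))) (a (c (c (l 8) (l 8)) (c (l 8) (l 8))) (c (l 10) (l 10)))))) (a (a (l 16) (c (l 16) (l 16))) (a (c (a (l 16) (c (l 16) (l 16))) (a (l 16) (c (l 16) (l 16)))) (c (a (c (c (l 8) (l 8)) (c (l 8) (l 8))) (c (l 10) (l 10))) (a (c (c (l 8) (l 8)) (c (l 8) (l 8))) (c (l 10) (c (l 10) (l 10))))))))), by decide +kernel⟩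

theorem h1_0Bm : ∃ t, chk3 f0Bm t 6 1 1 = true :=
  ⟨(c (a (a (c (a (c (l 10) (l 10)) (l 2)) (a (c (l 10) (l 10)) (l 2))) (c (c (l 2) (l 2)) (c (l 2) (l 2)))) (c (a (c (l 2) (l 2)) (c (l 2) (a (l 2) (l 2)))) (a (c (l 2) (a (l 2) (l 2))) (c (a (l 2) (l 2)) (a (l 2) (l 2)))))) (a (a (c (a (c (l 10) (l 10)) (c (l 2) (l 2))) (a (c (l 10) (l 10)) (c (l 2) (l 2)))) (c (c (a (l 2) (l 2)) (a (l 2) (l 2))) (c (a (l 2) (l 2)) (a (l 2) (l 2))))) (c (a (c (a (l 2) (l 2)) (a (l 2) (l 2))) (c (a (l 2) (l 2)) (a (l 2) (l 2)))) (a (c (a (l 2) (l 2)) (a (l 2) (l 2))) (c (a (l 2) (l 2)) (a (l 2) (c (l 2) (l 2)))))))), by decide +kernel⟩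

theorem h2_0Bm : ∃ t, chk3 f0Bm t 7 1 1 = true :=
  ⟨(c (a (c (a (c (a (l 2) (l 2)) (a (l 2) (l 2))) (c (a (l 2) (l 2)) (a (l 2) (l 2)))) (a (c (a (l 2) (l 2)) (a (l 2) (l 2))) (c (a (l 2) (l 2)) (a (l 2) (c (l 2) (l 2)))))) (c (a (c (a (l 2) (l 2)) (a (l 2) (l 2))) (c (a (l 2) (c (l 2) (l 2))) (a (c (l 2) (l 2)) (c (l 2) (l 5))))) (a (c (a (c (l 2) (l 2)) (c (l 2) (l 2))) (a (c (l 2) (l 2)) (c (l 2) (l 5)))) (c (a (c (l 2) (l 5)) (l 5)) (l 5))))) (a (c (a (c (a (l 2) (l 2)) (a (l 2) (c (l 2) (l 2)))) (c (a (c (l 2) (l 2)) (c (l 2) (l 2))) (a (c (l 2) (l 2)) (c (l 2) (l 5))))) (a (c (a (c (l 2) (l 2)) (c (l 2) (l 2))) (a (c (l 2) (l 2)) (l 5))) (l 5))) (c (a (c (a (c (l 2) (l 5)) (l 5)) (l 5)) (l 5)) (l 5)))), by decide +kernel⟩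

theorem h3_0Bm : ∃ t, chk3 f0Bm t 3 1 1 = true := ex3_a h1_0Bm h2_0Bm

theorem h4_0Bm : ∃ t, chk3 f0Bm t 1 1 1 = true := ex3_a h0_0Bm h3_0Bm

theorem ct_0Bm : ∃ t, chk3 f0Bm t 1 1 1 = true := h4_0Bm

end Pool.Agent.Strip051.G.I9000_9231.Tab.Mo
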