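import Pool.Agent.Strip051.G.I9000_9231.MolD

/-! # The tight charts of a table: certificates (generated) -/

set_option linter.all false
set_option maxRecDepth 100000

namespace Pool.Agent.Strip051.G.I9000_9231.Tab.Mo

open Pool.Agent.Strip051.PB Pool.Agent.Strip051.PB.Mol Pool.Agent.Strip051.PB.T
open Pool.Agent.Strip051.G.I9000_9231.Tab

noncomputable def f2Ap : ℕ → ℕ → ℕ → ℕ → Bool :=
  onCell 0 92274688 0 1572864 966367641 24778659 (c2_Ap.row false 46137344)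

theorem h0_2Ap : ∃ t, chk3 f2Ap t 2 1 1 = true :=
  ⟨(a (c (a (l 7) (c (l 16) (l 16))) (a (l 16) (c (l 16) (l 16)))) (c (a (a (l 16) (c (l 8) (l 8))) (c (a (l 8) (l 10)) (a (l 8) (l 10)))) (a (a (l 16) (c (l 8) (l 8))) (a (c (l 8) (l 8)) (c (l 10) (l 10)))))), by decide +kernel⟩

theorem h1_2Ap : ∃ t, chk3 f2Ap t 6 1 1 = true :=
  ⟨(c (a (a (c (l 10) (l 10)) (c (l 2) (l 2))) (c (a (l 2) (l 2)) (a (l 2) (l 2)))) (a (c (a (l 10) (l 2)) (a (l 10) (l 2))) (c (a (l 2) (l 2)) (a (l 2) (c (a (l 2) (l 2)) (a (l 2) (b (l 2) (b (l 2) (c (c (l 2) (a (l 2) (l 2))) (a (c (l 2) (c (l 2) (a (l 2) (c (l 2) (a (l 2) (c (l 2) (b (l 2) (l 9)))))))) (b (c (l 2) (a (l 2) (l 9))) (c (a (c (l 2) (l 2)) (c (a (l 2) (l 9)) (l 9))) (a (c (a (c (l 2) (a (l 2) (l 9))) (l 9)) (l 9)) (l 9)))))))))))))), by decide +kernel⟩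

theorem h2_2Ap : ∃ t, chk3 f2Ap t 7 1 2 = true :=
  ⟨(a (c (a (l 2) (c (l 2) (l 2))) (a (c (l 2) (l 2)) (c (l 2) (c (l 2) (a (l 2) (a (l 2) (l 2))))))) (c (a (c (l 2) (c (l 2) (a (l 2) (l 2)))) (c (a (l 2) (c (l 2) (a (l 2) (c (l 2) (b (l 2) (l 9)))))) (b (a (l 2) (l 2)) (a (c (l 2) (a (l 2) (b (l 2) (l 9)))) (b (c (l 2) (l 5)) (l 9)))))) (a (c (a (c (l 2) (l 2)) (c (a (l 2) (c (l 2) (b (l 2) (l 2)))) (b (l 2) (a (c (l 2) (a (l 2) (l 9))) (l 9))))) (b (a (l 2) (l 2)) (a (c (a (l 2) (c (l 2) (a (l 2) (l 9)))) (a (c (a (l 2) (l 2)) (b (l 2) (l 9))) (l 9))) (l 9)))) (b (c (a (l 2) (l 5)) (l 5)) (l 9))))), by decide +kernel⟩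

theorem h3_2Ap : ∃ t, chk3 f2Ap t 14 1 6 = true :=
  ⟨(a (c (l 2) (a (l 2) (c (l 2) (a (l 2) (c (l 2) (b (l 2) (a (l 2) (b (l 2) (b (l 2) (l 9)))))))))) (c (a (c (l 2) (c (l 2) (a (l 2) (c (l 2) (b (l 2) (a (l 2) (b (l 2) (l 9)))))))) (b (l 2) (c (a (c (l 2) (l 2)) (b (l 2) (c (a (l 2) (l 9)) (l 9)))) (a (b (l 2) (c (a (l 2) (l 9)) (l 9))) (l 9))))) (a (b (l 2) (c (a (c (l 2) (c (l 2) (a (l 2) (b (l 2) (l 9))))) (c (a (c (l 2) (b (l 2) (l 9))) (l 9)) (l 9))) (a (c (a (b (l 2) (c (l 2) (l 9))) (l 9)) (l 9)) (l 5)))) (b (c (l 2) (l 5)) (l 9))))), by decide +kernel⟩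

theorem h4_2Ap : ∃ t, chk3 f2Ap t 14 1 7 = true :=
  ⟨(a (c (a (c (l 2) (b (l 2) (a (l 2) (b (l 2) (b (l 2) (c (c (l 2) (a (l 2) (a (l 2) (l 9)))) (a (c (l 2) (a (l 2) (l 9))) (l 9)))))))) (b (c (l 2) (l 2)) (c (a (b (l 2) (b (l 2) (c (c (l 2) (a (l 2) (l 2))) (a (c (l 2) (a (l 2) (l 9))) (l 9))))) (c (a (b (l 2) (b (l 2) (l 9))) (l 9)) (l 9))) (b (a (c (l 2) (l 9)) (l 5)) (l 9))))) (a (b (c (l 2) (l 2)) (c (a (b (l 2) (b (c (l 2) (l 2)) (c (a (l 2) (b (l 2) (c (a (l 2) (l 9)) (l 9)))) (a (c (a (l 2) (l 9)) (l 9)) (l 9))))) (b (c (l 2) (l 9)) (l 9))) (b (a (c (l 2) (l 9)) (l 5)) (l 9)))) (l 5))) (l 5)), by decide +kernel⟩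

theorem h5_2Ap : ∃ t, chk3 f2Ap t 15 1 3 = true :=
  ⟨(c (a (c (b (a (c (l 2) (l 5)) (l 5)) (l 9)) (l 5)) (l 5)) (l 5)), by decide +kernel⟩

theorem h6_2Ap : ∃ t, chk3 f2Ap t 14 1 3 = true := ex3_c h3_2Ap h4_2Ap

theorem h7_2Ap : ∃ t, chk3 f2Ap t 7 1 3 = true := ex3_a h6_2Ap h5_2Ap

theorem h8_2Ap : ∃ t, chk3 f2Ap t 7 1 1 = true := ex3_c h2_2Ap h7_2Ap

theorem h9_2Ap : ∃ t, chk3 f2Ap t 3 1 1 = true := ex3_a h1_2Ap h8_2Ap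

theorem h10_2Ap : ∃ t, chk3 f2Ap t 1 1 1 = true := ex3_a h0_2Ap h9_2Ap

theorem ct_2Ap : ∃ t, chk3 f2Ap t 1 1 1 = true := h10_2Ap

noncomputable def f2Apk1 : ℕ → ℕ → ℕ → ℕ → Bool :=
  onCell 0 92274688 0 2097152 966367641 24778659 (c2_Apk1.row false 46137344)

theorem h0_2Apk1 : ∃ t, chk3 f2Apk1 t 2 1 1 = true :=
  ⟨(a (c (a (l 7) (l 8)) (a (l 8) (c (l 8) (l 8)))) (c (a (c (l 8) (l 8)) (c (l 10) (l 10))) (a (c (l 8) (l 8)) (c (l 10) (l 10))))), by decide +kernel⟩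

theorem h1_2Apk1 : ∃ t, chk3 f2Apk1 t 6 1 1 = true :=
  ⟨(c (a (c (l 10) (l 10)) (c (l 2) (l 2))) (a (c (l 10) (l 10)) (c (a (l 2) (l 2)) (a (l 2) (c (a (l 2) (l 2)) (a (l 2) (b (l 2) (b (l 2) (c (c (l 2) (a (l 2) (l 2))) (a (c (l 2) (c (l 2) (a (l 2) (l 2)))) (b (c (l 2) (a (l 2) (l 9))) (c (a (l 2) (l 9)) (l 9))))))))))))), by decide +kernel⟩

theorem h2_2Apk1 : ∃ t, chk3 f2Apk1 t 7 1 2 = true :=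
  ⟨(a (c (c (l 2) (a (l 2) (l 2))) (a (c (l 2) (l 2)) (c (l 2) (c (l 2) (a (l 2) (c (l 2) (a (l 2) (b (l 2) (l 2))))))))) (c (a (c (l 2) (c (l 2) (a (l 2) (l 2)))) (c (a (c (l 2) (l 2)) (c (a (l 2) (l 2)) (a (b (l 2) (l 2)) (b (l 2) (l 9))))) (b (a (l 2) (l 2)) (a (c (a (l 2) (c (l 2) (l 2))) (a (c (l 2) (a (l 2) (l 9))) (l 9))) (l 9))))) (a (c (a (c (l 2) (a (l 2) (l 2))) (c (a (l 2) (c (l 2) (b (l 2) (a (l 2) (l 9))))) (b (l 2) (a (c (l 2) (a (l 2) (l 9))) (l 9))))) (b (a (l 2) (l 2)) (a (c (a (l 2) (b (l 2) (c (a (l 2) (l 9)) (l 9)))) (a (c (c (l 2) (a (l 2) (l 9))) (l 9)) (l 9))) (l 9)))) (b (c (a (l 2) (l 5)) (l 5)) (l 9))))), by decide +kernel⟩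

theorem h3_2Apk1 : ∃ t, chk3 f2Apk1 t 7 1 3 = true :=
  ⟨(a (c (a (c (l 2) (a (l 2) (c (l 2) (a (l 2) (b (l 2) (c (l 2) (a (l 2) (b (l 2) (l 9))))))))) (c (a (c (l 2) (c (l 2) (a (l 2) (b (l 2) (c (l 2) (a (l 2) (b (l 2) (l 9)))))))) (b (l 2) (c (a (c (l 2) (c (l 2) (a (l 2) (l 2)))) (c (a (l 2) (l 9)) (l 9))) (a (c (a (c (l 2) (b (l 2) (l 9))) (l 9)) (l 9)) (l 9))))) (a (b (l 2) (c (a (c (l 2) (a (l 2) (b (l 2) (l 9)))) (b (l 2) (l 9))) (b (a (l 2) (l 5)) (l 9)))) (b (c (l 2) (l 5)) (l 9))))) (a (c (a (c (a (l 2) (l 2)) (b (l 2) (a (l 2) (b (l 2) (b (l 2) (c (c (l 2) (a (l 2) (l 9))) (l 9))))))) (b (c (l 2) (l 2)) (c (a (b (l 2) (b (l 2) (c (c (l 2) (a (l 2) (l 9))) (b (a (l 2) (l 9)) (l 9))))) (b (l 2) (l 9))) (b (a (c (l 2) (l 9)) (l 5)) (l 9))))) (a (b (c (l 2) (l 2)) (c (a (b (l 2) (b (l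 2) (c (a (l 2) (l 9)) (l 9)))) (b (c (l 2) (l 9)) (l 9))) (l 9))) (l 5))) (l 5))) (c (a (c (b (a (c (l 2) (l 5)) (l 5)) (l 9)) (l 5)) (l 5)) (l 5))), by decide +kernel⟩

theorem h4_2Apk1 : ∃ t, chk3 f2Apk1 t 7 1 1 = true := ex3_c h2_2Apk1 h3_2Apk1

theorem h5_2Apk1 : ∃ t, chk3 f2Apk1 t 3 1 1 = true := ex3_a h1_2Apk1 h4_2Apk1

theorem h6_2Apk1 : ∃ t, chk3 f2Apk1 t 1 1 1 = true := ex3_a h0_2Apk1 h5_2Apk1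

theorem ct_2Apk1 : ∃ t, chk3 f2Apk1 t 1 1 1 = true := h6_2Apk1

noncomputable def f2Am : ℕ → ℕ → ℕ → ℕ → Bool :=
  onCell 0 92274688 0 2097152 966367641 24778659 (c2_Am.row true 46137344)

theorem h0_2Am : ∃ t, chk3 f2Am t 1 1 1 = true :=
  ⟨(a (a (c (a (l 7) (c (l 8) (l 8))) (a (l 16) (c (l 8) (l 8)))) (c (a (c (l 8) (l 8)) (c (a (l 8) (l 10)) (a (l 8) (l 10)))) (a (c (l 8) (a (l 8) (l 8))) (c (a (l 8) (l 10)) (a (l 8) (l 10)))))) (a (c (a (c (a (l 10) (l 2)) (a (l 10) (l 2))) (c (a (l 2) (l 2)) (a (l 2) (l 2)))) (a (c (a (c (l 10) (l 10)) (l 2)) (a (c (l 10) (l 10)) (l 2))) (c (a (l 2) (c (l 2) (l 2))) (a (c (l 2) (l 2)) (c (l 2) (l 2)))))) (c (a (c (a (c (l 2) (l 2)) (c (l 2) (l 2))) (a (c (l 2) (l 2)) (c (l 2) (l 2)))) (c (a (c (l 2) (l 2)) (c (a (l 2) (l 2)) (a (l 2) (l 2)))) (a (c (a (l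 2) (l 2)) (a (l 2) (l 2))) (c (a (l 2) (l 5)) (l 5))))) (a (c (a (c (l 2) (l 2)) (c (a (l 2) (l 2)) (a (l 2) (l 2)))) (a (c (a (l 2) (l 2)) (a (l 2) (l 5))) (l 5))) (c (a (c (a (l 2) (l 5)) (l 5)) (l 5)) (l 5)))))), by decide +kernel⟩

theorem ct_2Am : ∃ t, chk3 f2Am t 1 1 1 = true := h0_2Am

noncomputable def f2Bp : ℕ → ℕ → ℕ → ℕ → Bool :=
  onCell 0 92274688 0 2097152 966367641 24778659 (c2_Bp.row false 46137344)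

theorem h0_2Bp : ∃ t, chk3 f2Bp t 2 1 1 = true :=
  ⟨(a (c (a (l 7) (a (l 16) (c (l 8) (l 8)))) (a (c (l 16) (l 16)) (c (l 16) (l 16)))) (c (a (a (c (l 8) (l 8)) (c (l 8) (l 8))) (c (a (l 8) (l 10)) (a (l 8) (c (l 10) (l 10))))) (a (a (c (l 8) (l 8)) (c (l 8) (l 8))) (a (c (l 8) (l 8)) (c (c (l 10) (l 10)) (c (l 10) (l 10))))))), by decide +kernel⟩

theorem h1_2Bp : ∃ t, chk3 f2Bp t 6 1 1 = true :=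
  ⟨(c (a (c (a (c (l 10) (l 10)) (c (l 2) (l 2))) (a (c (l 10) (l 10)) (c (l 2) (l 2)))) (c (a (c (l 2) (l 2)) (c (l 2) (l 2))) (a (c (l 2) (l 2)) (c (a (l 2) (l 2)) (a (l 2) (l 2)))))) (a (a (c (a (l 10) (l 2)) (a (c (l 10) (l 10)) (l 2))) (c (c (l 2) (l 2)) (c (l 2) (a (l 2) (l 2))))) (c (a (c (l 2) (a (l 2) (l 2))) (c (a (l 2) (l 2)) (a (l 2) (l 2)))) (a (c (a (l 2) (l 2)) (a (l 2) (l 2))) (c (a (l 2) (l 2)) (a (l 2) (l 2))))))), by decide +kernel⟩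

theorem h2_2Bp : ∃ t, chk3 f2Bp t 7 1 1 = true :=
  ⟨(c (a (c (c (a (a (l 2) (l 2)) (a (l 2) (l 2))) (a (a (l 2) (l 2)) (a (l 2) (l 2)))) (a (c (a (l 2) (l 2)) (a (l 2) (l 2))) (c (a (l 2) (l 2)) (a (l 2) (c (l 2) (l 2)))))) (c (a (c (a (l 2) (l 2)) (a (l 2) (c (l 2) (l 2)))) (c (a (c (l 2) (l 2)) (c (a (l 2) (l 2)) (a (l 2) (b (l 2) (c (l 2) (l 2)))))) (a (c (l 2) (a (l 2) (l 2))) (c (a (b (l 2) (l 2)) (l 5)) (l 5))))) (a (c (a (c (l 2) (l 2)) (c (l 2) (a (l 2) (l 2)))) (a (c (l 2) (l 2)) (c (a (l 2) (l 5)) (l 5)))) (c (a (c (a (l 2) (l 5)) (l 5)) (l 5)) (l 5))))) (a (c (a (c (a (l 2) (l 2)) (a (l 2) (l 2))) (c (a (c (l 2) (l 2)) (c (l 2) (l 2))) (a (c (l 2) (l 2)) (c (l 2) (l 5))))) (a (c (a (l 2) (c (l 2) (l 2))) (a (c (l 2) (l 2)) (l 5))) (l 5))) (c (a (c (a (c (a (l 2) (l 5)) (l 5)) (l 5))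 (l 5)) (l 5)) (l 5)))), by decide +kernel⟩

theorem h3_2Bp : ∃ t, chk3 f2Bp t 3 1 1 = true := ex3_a h1_2Bp h2_2Bp

theorem h4_2Bp : ∃ t, chk3 f2Bp t 1 1 1 = true := ex3_a h0_2Bp h3_2Bp

theorem ct_2Bp : ∃ t, chk3 f2Bp t 1 1 1 = true := h4_2Bp

noncomputable def f2Bpk1 : ℕ → ℕ → ℕ → ℕ → Bool :=
  onCell 0 92274688 0 2097152 966367641 24778659 (c2_Bpk1.row false 46137344)

theorem h0_2Bpk1 : ∃ t, chk3 f2Bpk1 t 1 1 1 = true :=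
  ⟨(a (a (c (a (l 7) (c (l 8) (l 8))) (a (l 16) (c (l 8) (l 8)))) (c (a (c (l 8) (l 8)) (c (l 10) (l 10))) (a (c (l 8) (l 8)) (c (l 10) (a (l 8) (l 10)))))) (a (c (a (a (c (l 10) (l 10)) (c (l 2) (l 2))) (c (a (l 2) (l 2)) (a (l 2) (l 2)))) (a (a (c (l 10) (l 10)) (c (l 2) (l 2))) (c (a (l 2) (l 2)) (a (l 2) (l 2))))) (c (a (c (a (l 2) (l 2)) (a (l 2) (c (l 2) (l 2)))) (c (a (c (l 2) (l 2)) (c (a (l 2) (c (l 2) (l 2))) (a (c (l 2) (l 2)) (c (l 2) (l 5))))) (a (c (a (l 2) (c (l 2) (l 2))) (a (l 2) (c (l 2) (l 5)))) (c (a (c (l 2) (l 5)) (l 5)) (l 5))))) (a (c (a (c (l 2) (l 2)) (c (a (l 2) (l 2)) (a (l 2) (c (l 2) (l 5))))) (a (c (a (l 2) (l 2)) (a (l 2) (l 5))) (l 5))) (c (a (c (a (c (l 2) (l 5)) (l 5)) (l 5)) (l 5)) (l 5)))))), by decide +kernel⟩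

theorem ct_2Bpk1 : ∃ t, chk3 f2Bpk1 t 1 1 1 = true := h0_2Bpk1

noncomputable def f2Bm : ℕ → ℕ → ℕ → ℕ → Bool :=
  onCell 0 92274688 0 2097152 966367641 24778659 (c2_Bm.row true 46137344)

theorem h0_2Bm : ∃ t, chk3 f2Bm t 2 1 1 = true :=
  ⟨(a (c (a (l 7) (c (l 16) (l 16))) (a (l 16) (c (l 16) (l 16)))) (c (a (a (c (l 16) (l 16)) (c (c (l 8) (l 8)) (c (l 8) (l 8)))) (c (a (c (l 8) (l 8)) (c (l 10) (l 10))) (a (c (l 8) (l 8)) (c (l 10) (l 10))))) (a (a (c (l 16) (l 16)) (c (c (l 8) (l 8)) (c (l 16) (l 16)))) (a (c (c (l 8) (l 8)) (c (l 8) (a (l 8) (l 8)))) (c (c (l 10) (l 10)) (c (l 10) (a (l 8) (l 10)))))))), by decide +kernel⟩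

theorem h1_2Bm : ∃ t, chk3 f2Bm t 6 1 1 = true :=
  ⟨(c (a (a (c (c (l 10) (l 10)) (c (l 10) (l 10))) (c (c (l 2) (l 2)) (c (l 2) (l 2)))) (c (a (c (l 2) (l 2)) (c (l 2) (l 2))) (a (c (l 2) (l 2)) (c (l 2) (l 2))))) (a (a (c (c (l 10) (l 10)) (c (l 10) (a (l 10) (l 2)))) (c (c (l 2) (l 2)) (c (l 2) (l 2)))) (c (a (c (l 2) (l 2)) (c (a (l 2) (l 2)) (a (l 2) (l 2)))) (a (c (l 2) (a (l 2) (l 2))) (c (a (l 2) (l 2)) (a (l 2) (c (l 2) (l 2)))))))), by decide +kernel⟩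

theorem h2_2Bm : ∃ t, chk3 f2Bm t 7 1 1 = true :=
  ⟨(c (a (c (a (c (l 2) (l 2)) (c (a (l 2) (l 2)) (a (l 2) (l 2)))) (a (c (a (l 2) (l 2)) (a (l 2) (l 2))) (c (a (l 2) (l 2)) (a (l 2) (c (l 2) (l 2)))))) (c (a (c (a (l 2) (l 2)) (a (l 2) (c (l 2) (l 2)))) (c (a (c (l 2) (l 2)) (c (l 2) (l 2))) (a (c (l 2) (l 2)) (c (l 2) (l 5))))) (a (c (a (c (l 2) (l 2)) (c (l 2) (l 2))) (a (c (l 2) (l 2)) (c (l 2) (l 5)))) (c (a (c (l 2) (l 5)) (l 5)) (l 5))))) (a (c (a (c (a (l 2) (l 2)) (a (l 2) (c (l 2) (l 2)))) (c (a (c (l 2) (l 2)) (c (l 2) (l 2))) (a (c (l 2) (l 2)) (c (l 2) (l 5))))) (a (c (a (c (l 2) (l 2)) (c (l 2) (l 2))) (a (c (l 2) (l 2)) (l 5))) (l 5))) (c (a (c (a (c (l 2) (l 5)) (l 5)) (l 5)) (l 5)) (l 5)))), by decide +kernel⟩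

theorem h3_2Bm : ∃ t, chk3 f2Bm t 3 1 1 = true := ex3_a h1_2Bm h2_2Bm

theorem h4_2Bm : ∃ t, chk3 f2Bm t 1 1 1 = true := ex3_a h0_2Bm h3_2Bm

theorem ct_2Bm : ∃ t, chk3 f2Bm t 1 1 1 = true := h4_2Bm

end Pool.Agent.Strip051.G.I9000_9231.Tab.Mo
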