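import Pool.Agent.Strip051.PB.StripC
import Pool.Agent.Strip051.G.I9000_9231.Fact

/-! # Facts about the strips of a table (generated) -/

set_option linter.all false
set_option maxRecDepth 4000

namespace Pool.Agent.Strip051.G.I9000_9231.Tab.St

open Pool.Agent.Strip051.PB Pool.Agent.StripNear Pool.Agent.Strip051.LC
open Pool.Agent.Strip051.G.I9000_9231.Tab

noncomputable def sl1 : Fn1 := ⟨_, _, fun h1 => (enc_norm (enc_add (enc_scaleT 541355433 7000000 (enc_subr 237 260 h1)) (enc_rat _ 1079602217 14000000)))⟩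
noncomputable def sv1 : Fn1 := ⟨_, _, fun h1 => (enc_norm (enc_add (enc_scaleT 2404183013 70000000 (enc_subr 237 260 h1)) (enc_rat _ 22242972557 1400000000)))⟩
noncomputable def sw1 : Fn1 := ⟨_, _, fun h1 => (enc_norm (enc_sub (enc_rat _ 34641 400) (enc_scaleT 3 200 (enc_subr 237 260 h1))))⟩
noncomputable def sl2 : Fn1 := ⟨_, _, fun h1 => (enc_norm (enc_sub (enc_rat _ 516817341 10000000) (enc_scaleT 10238190929 3000000 (enc_subr 237 260 h1))))⟩
noncomputable def sv2 : Fn1 := ⟨_, _, fun h1 => (enc_norm (enc_sub (enc_rat _ 9974732479 1000000000) (enc_scaleT 77709505943 100000000 (enc_subr 237 260 h1))))⟩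
noncomputable def sw2 : Fn1 := ⟨_, _, fun h1 => (enc_norm (enc_sub (enc_rat _ 118511 2000) (enc_scaleT 150111 40 (enc_subr 237 260 h1))))⟩
noncomputable def sl3 : Fn1 := ⟨_, _, fun h1 => (enc_norm (enc_add (enc_scaleT 105741929046277 46355000000 (enc_subr 237 260 h1)) (enc_rat _ 35366099514689 463550000000)))⟩
noncomputable def sv3 : Fn1 := ⟨_, _, fun h1 => (enc_norm (enc_add (enc_scaleT 18691234476763 37084000000 (enc_subr 237 260 h1)) (enc_rat _ 28763277474803 1854200000000)))⟩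
noncomputable def sw3 : Fn1 := ⟨_, _, fun h1 => (enc_norm (enc_add (enc_scaleT 128687 50 (enc_subr 237 260 h1)) (enc_rat _ 34641 400)))⟩
noncomputable def sl4 : Fn1 := ⟨_, _, fun h1 => (enc_norm (enc_sub (enc_rat _ 104993250119466187 11499215000000000) (enc_scaleT 815162010198410351 1149921500000000 (enc_subr 237 260 h1))))⟩
noncomputable def sv4 : Fn1 := ⟨_, _, fun h1 => (enc_norm (enc_sub (enc_rat _ 31412267338318817 22998430000000000) (enc_scaleT 289235272426056441 2299843000000000 (enc_subr 237 260 h1))))⟩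
noncomputable def sw4 : Fn1 := ⟨_, _, fun h1 => (enc_norm (enc_sub (enc_rat _ 1377 200) (enc_scaleT 24379 25 (enc_subr 237 260 h1))))⟩
noncomputable def sl5 : Fn1 := ⟨_, _, fun h1 => (enc_norm (enc_subr 295698114889 104195000000 (enc_neg (enc_scaleT 20552352181 372125000 (enc_subr 237 260 h1)))))⟩
noncomputable def sv5 : Fn1 := ⟨_, _, fun h1 => (enc_norm (enc_subr 6666912861909 10419500000000 (enc_neg (enc_scaleT 150914633759 9303125000 (enc_subr 237 260 h1)))))⟩
noncomputable def sw5 : Fn1 := ⟨_, _, fun h1 => (enc_norm (enc_subr 21939 2000 (enc_neg (enc_scaleT 7 200 (enc_subr 237 260 h1)))))⟩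
noncomputable def sl6 : Fn1 := ⟨_, _, fun h1 => (enc_norm (enc_subr 283793 100000 (enc_neg (enc_scaleT 110447 2000 (enc_subr 237 260 h1)))))⟩
noncomputable def sv6 : Fn1 := ⟨_, _, fun h1 => (enc_norm (enc_subr 199953 312500 (enc_neg (enc_scaleT 2027621 125000 (enc_subr 237 260 h1)))))⟩
noncomputable def sw6 : Fn1 := ⟨_, _, fun h1 => (enc_norm (enc_subr 21939 2000 (enc_neg (enc_scaleT 1 40 (enc_subr 237 260 h1)))))⟩
noncomputable def sl7 : Fn1 := ⟨_, _, fun h1 => (enc_norm (enc_subr 283793 100000 (enc_neg (enc_scaleT 110419 2000 (enc_subr 237 260 h1)))))⟩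
noncomputable def sv7 : Fn1 := ⟨_, _, fun h1 => (enc_norm (enc_subr 199953 312500 (enc_neg (enc_scaleT 253422 15625 (enc_subr 237 260 h1)))))⟩
noncomputable def sw7 : Fn1 := ⟨_, _, fun h1 => (enc_neg (enc_rat _ 21939 2000))⟩
noncomputable def sl8 : Fn1 := ⟨_, _, fun h1 => (enc_norm (enc_add (enc_scaleT 571537 10000 (enc_subr 237 260 h1)) (enc_rat _ 242743 100000)))⟩
noncomputable def sv8 : Fn1 := ⟨_, _, fun h1 => (enc_norm (enc_subr 1251 156250 (enc_neg (enc_scaleT 42741 15625 (enc_subr 237 260 h1)))))⟩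
noncomputable def sw8 : Fn1 := ⟨_, _, fun h1 => (enc_norm (enc_scaleT 23409 100 (enc_subr 237 260 h1)))⟩
noncomputable def sl9 : Fn1 := ⟨_, _, fun h1 => (enc_norm (enc_add (enc_scaleT 1277137 10000 (enc_subr 237 260 h1)) (enc_rat _ 256087 100000)))⟩
noncomputable def sv9 : Fn1 := ⟨_, _, fun h1 => (enc_norm (enc_add (enc_scaleT 45459 15625 (enc_subr 237 260 h1)) (enc_rat _ 417 156250)))⟩
noncomputable def sw9 : Fn1 := ⟨_, _, fun h1 => (enc_norm (enc_add (enc_scaleT 45459 100 (enc_subr 237 260 h1)) (enc_rat _ 417 1000)))⟩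
noncomputable def sl10 : Fn1 := ⟨_, _, fun h1 => (enc_norm (enc_add (enc_scaleT 549793 10000 (enc_subr 237 260 h1)) (enc_rat _ 49883 20000)))⟩
noncomputable def sv10 : Fn1 := ⟨_, _, fun h1 => (enc_pnc _ 0)⟩
noncomputable def sl11 : Fn1 := ⟨_, _, fun h1 => (enc_norm (enc_add (enc_scaleT 1277137 10000 (enc_subr 237 260 h1)) (enc_rat _ 256087 100000)))⟩
noncomputable def sv11 : Fn1 := ⟨_, _, fun h1 => (enc_norm (enc_subr 417 156250 (enc_neg (enc_scaleT 45459 15625 (enc_subr 237 260 h1)))))⟩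
noncomputable def sw11 : Fn1 := ⟨_, _, fun h1 => (enc_norm (enc_subr 417 1000 (enc_neg (enc_scaleT 45459 100 (enc_subr 237 260 h1)))))⟩
noncomputable def sl12 : Fn1 := ⟨_, _, fun h1 => (enc_norm (enc_add (enc_scaleT 571537 10000 (enc_subr 237 260 h1)) (enc_rat _ 242743 100000)))⟩
noncomputable def sv12 : Fn1 := ⟨_, _, fun h1 => (enc_norm (enc_add (enc_scaleT 42741 15625 (enc_subr 237 260 h1)) (enc_rat _ 1251 156250)))⟩
noncomputable def sw12 : Fn1 := ⟨_, _, fun h1 => (enc_norm (enc_neg (enc_scaleT 23409 100 (enc_subr 237 260 h1))))⟩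
noncomputable def sl13 : Fn1 := ⟨_, _, fun h1 => (enc_norm (enc_subr 283793 100000 (enc_neg (enc_scaleT 110419 2000 (enc_subr 237 260 h1)))))⟩
noncomputable def sv13 : Fn1 := ⟨_, _, fun h1 => (enc_norm (enc_add (enc_scaleT 253422 15625 (enc_subr 237 260 h1)) (enc_rat _ 199953 312500)))⟩
noncomputable def sw13 : Fn1 := ⟨_, _, fun h1 => (enc_rat _ 21939 2000)⟩
noncomputable def sl14 : Fn1 := ⟨_, _, fun h1 => (enc_norm (enc_subr 283793 100000 (enc_neg (enc_scaleT 110447 2000 (enc_subr 237 260 h1)))))⟩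
noncomputable def sv14 : Fn1 := ⟨_, _, fun h1 => (enc_norm (enc_add (enc_scaleT 2027621 125000 (enc_subr 237 260 h1)) (enc_rat _ 199953 312500)))⟩
noncomputable def sw14 : Fn1 := ⟨_, _, fun h1 => (enc_norm (enc_add (enc_scaleT 1 40 (enc_subr 237 260 h1)) (enc_rat _ 21939 2000)))⟩
noncomputable def sl15 : Fn1 := ⟨_, _, fun h1 => (enc_norm (enc_subr 295698114889 104195000000 (enc_neg (enc_scaleT 20552352181 372125000 (enc_subr 237 260 h1)))))⟩
noncomputable def sv15 : Fn1 := ⟨_, _, fun h1 => (enc_norm (enc_add (enc_scaleT 150914633759 9303125000 (enc_subr 237 260 h1)) (enc_rat _ 6666912861909 10419500000000)))⟩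
noncomputable def sw15 : Fn1 := ⟨_, _, fun h1 => (enc_norm (enc_add (enc_scaleT 7 200 (enc_subr 237 260 h1)) (enc_rat _ 21939 2000)))⟩
noncomputable def sl16 : Fn1 := ⟨_, _, fun h1 => (enc_norm (enc_sub (enc_rat _ 104993250119466187 11499215000000000) (enc_scaleT 815162010198410351 1149921500000000 (enc_subr 237 260 h1))))⟩
noncomputable def sv16 : Fn1 := ⟨_, _, fun h1 => (enc_norm (enc_subr 31412267338318817 22998430000000000 (enc_scaleT 289235272426056441 2299843000000000 (enc_subr 237 260 h1))))⟩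
noncomputable def sw16 : Fn1 := ⟨_, _, fun h1 => (enc_norm (enc_subr 1377 200 (enc_scaleT 24379 25 (enc_subr 237 260 h1))))⟩
noncomputable def sl17 : Fn1 := ⟨_, _, fun h1 => (enc_norm (enc_add (enc_scaleT 105741929046277 46355000000 (enc_subr 237 260 h1)) (enc_rat _ 35366099514689 463550000000)))⟩
noncomputable def sv17 : Fn1 := ⟨_, _, fun h1 => (enc_norm (enc_subr 28763277474803 1854200000000 (enc_neg (enc_scaleT 18691234476763 37084000000 (enc_subr 237 260 h1)))))⟩
noncomputable def sw17 : Fn1 := ⟨_, _, fun h1 => (enc_norm (enc_subr 34641 400 (enc_neg (enc_scaleT 128687 50 (enc_subr 237 260 h1)))))⟩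
noncomputable def sl18 : Fn1 := ⟨_, _, fun h1 => (enc_norm (enc_sub (enc_rat _ 516817341 10000000) (enc_scaleT 10238190929 3000000 (enc_subr 237 260 h1))))⟩
noncomputable def sv18 : Fn1 := ⟨_, _, fun h1 => (enc_norm (enc_subr 9974732479 1000000000 (enc_scaleT 77709505943 100000000 (enc_subr 237 260 h1))))⟩
noncomputable def sw18 : Fn1 := ⟨_, _, fun h1 => (enc_norm (enc_subr 118511 2000 (enc_scaleT 150111 40 (enc_subr 237 260 h1))))⟩
noncomputable def sl19 : Fn1 := ⟨_, _, fun h1 => (enc_norm (enc_add (enc_scaleT 541355433 7000000 (enc_subr 237 260 h1)) (enc_rat _ 1079602217 14000000)))⟩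
noncomputable def sv19 : Fn1 := ⟨_, _, fun h1 => (enc_norm (enc_subr 22242972557 1400000000 (enc_neg (enc_scaleT 2404183013 70000000 (enc_subr 237 260 h1)))))⟩
noncomputable def sw19 : Fn1 := ⟨_, _, fun h1 => (enc_norm (enc_subr 34641 400 (enc_scaleT 3 200 (enc_subr 237 260 h1))))⟩
noncomputable def sl38 : Fn1 := ⟨_, _, fun h1 => (enc_norm (enc_add (enc_scaleT 440241 10000 (enc_subr 237 260 h1)) (enc_rat _ 63269 20000)))⟩
noncomputable def sv38 : Fn1 := ⟨_, _, fun h1 => (enc_norm (enc_add (enc_scaleT 106233 10000 (enc_subr 237 260 h1)) (enc_rat _ 34289 40000)))⟩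
noncomputable def sw38 : Fn1 := ⟨_, _, fun h1 => (enc_norm (enc_add (enc_scaleT 9111 200 (enc_subr 237 260 h1)) (enc_rat _ 1449 500)))⟩
noncomputable def sl39 : Fn1 := ⟨_, _, fun h1 => (enc_norm (enc_sub (enc_rat _ 22191 20000) (enc_scaleT 3439 10000 (enc_subr 237 260 h1))))⟩
noncomputable def sv39 : Fn1 := ⟨_, _, fun h1 => (enc_norm (enc_add (enc_scaleT 9841 50000 (enc_subr 237 260 h1)) (enc_rat _ 749117 2000000)))⟩
noncomputable def sw39 : Fn1 := ⟨_, _, fun h1 => (enc_norm (enc_sub (enc_rat _ 713 1000) (enc_scaleT 329 200 (enc_subr 237 260 h1))))⟩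
noncomputable def sl40 : Fn1 := ⟨_, _, fun h1 => (enc_norm (enc_subr 24681 20000 (enc_neg (enc_scaleT 396379 10000 (enc_subr 237 260 h1)))))⟩
noncomputable def sv40 : Fn1 := ⟨_, _, fun h1 => (enc_norm (enc_subr 305503 2000000 (enc_neg (enc_scaleT 864433 100000 (enc_subr 237 260 h1)))))⟩
noncomputable def sw40 : Fn1 := ⟨_, _, fun h1 => (enc_norm (enc_subr 1891 1000 (enc_neg (enc_scaleT 9061 200 (enc_subr 237 260 h1)))))⟩
noncomputable def sl41 : Fn1 := ⟨_, _, fun h1 => (enc_norm (enc_sub (enc_rat _ 1653 20000) (enc_scaleT 392179 10000 (enc_subr 237 260 h1))))⟩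
noncomputable def sv41 : Fn1 := ⟨_, _, fun h1 => (enc_norm (enc_sub (enc_rat _ 247511 2000000) (enc_scaleT 855613 100000 (enc_subr 237 260 h1))))⟩
noncomputable def sw41 : Fn1 := ⟨_, _, fun h1 => (enc_norm (enc_subr 647 2000 (enc_neg (enc_scaleT 8961 200 (enc_subr 237 260 h1)))))⟩
noncomputable def sl42 : Fn1 := ⟨_, _, fun h1 => (enc_norm (enc_sub (enc_rat _ 15519 100000) (enc_scaleT 305053 10000 (enc_subr 237 260 h1))))⟩
noncomputable def sv42 : Fn1 := ⟨_, _, fun h1 => (enc_norm (enc_sub (enc_rat _ 21547 156250) (enc_scaleT 6857173 1000000 (enc_subr 237 260 h1))))⟩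
noncomputable def sw42 : Fn1 := ⟨_, _, fun h1 => (enc_norm (enc_subr 461 2000 (enc_neg (enc_scaleT 6727 200 (enc_subr 237 260 h1)))))⟩
noncomputable def sl43 : Fn1 := ⟨_, _, fun h1 => (enc_norm (enc_add (enc_scaleT 59827 2000 (enc_subr 237 260 h1)) (enc_rat _ 15519 100000)))⟩
noncomputable def sv43 : Fn1 := ⟨_, _, fun h1 => (enc_norm (enc_add (enc_scaleT 4018211 1000000 (enc_subr 237 260 h1)) (enc_rat _ 21547 156250)))⟩
noncomputable def sw43 : Fn1 := ⟨_, _, fun h1 => (enc_norm (enc_subr 461 2000 (enc_scaleT 1257 25 (enc_subr 237 260 h1))))⟩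
noncomputable def sl44 : Fn1 := ⟨_, _, fun h1 => (enc_norm (enc_add (enc_scaleT 529513 5000 (enc_subr 237 260 h1)) (enc_rat _ 205797 100000)))⟩
noncomputable def sv44 : Fn1 := ⟨_, _, fun h1 => (enc_norm (enc_add (enc_scaleT 1324513 80000 (enc_subr 237 260 h1)) (enc_rat _ 903719 2000000)))⟩
noncomputable def sw44 : Fn1 := ⟨_, _, fun h1 => (enc_norm (enc_add (enc_scaleT 33083 200 (enc_subr 237 260 h1)) (enc_rat _ 1061 400)))⟩
noncomputable def sl45 : Fn1 := ⟨_, _, fun h1 => (enc_norm (enc_add (enc_scaleT 33163 5000 (enc_subr 237 260 h1)) (enc_rat _ 152217 100000)))⟩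
noncomputable def sv45 : Fn1 := ⟨_, _, fun h1 => (enc_norm (enc_add (enc_scaleT 133273 80000 (enc_subr 237 260 h1)) (enc_rat _ 742979 2000000)))⟩
noncomputable def sw45 : Fn1 := ⟨_, _, fun h1 => (enc_norm (enc_sub (enc_rat _ 3519 2000) (enc_scaleT 7 200 (enc_subr 237 260 h1))))⟩
noncomputable def sl46 : Fn1 := ⟨_, _, fun h1 => (enc_norm (enc_add (enc_scaleT 6051 10000 (enc_subr 237 260 h1)) (enc_rat _ 64217 100000)))⟩
noncomputable def sv46 : Fn1 := ⟨_, _, fun h1 => (enc_norm (enc_add (enc_scaleT 36499 40000 (enc_subr 237 260 h1)) (enc_rat _ 522979 2000000)))⟩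
noncomputable def sw46 : Fn1 := ⟨_, _, fun h1 => (enc_norm (enc_subr 1 2000 (enc_neg (enc_scaleT 1209 100 (enc_subr 237 260 h1)))))⟩
noncomputable def sl47 : Fn1 := ⟨_, _, fun h1 => (enc_norm (enc_add (enc_scaleT 1191 10000 (enc_subr 237 260 h1)) (enc_rat _ 44657 100000)))⟩
noncomputable def sv47 : Fn1 := ⟨_, _, fun h1 => (enc_norm (enc_add (enc_scaleT 6911 8000 (enc_subr 237 260 h1)) (enc_rat _ 483859 2000000)))⟩
noncomputable def sw47 : Fn1 := ⟨_, _, fun h1 => (enc_norm (enc_subr 979 2000 (enc_neg (enc_scaleT 2661 200 (enc_subr 237 260 h1)))))⟩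
noncomputable def sl48 : Fn1 := ⟨_, _, fun h1 => (enc_norm (enc_sub (enc_rat _ 7007 100000) (enc_scaleT 1143 1250 (enc_subr 237 260 h1))))⟩
noncomputable def sv48 : Fn1 := ⟨_, _, fun h1 => (enc_norm (enc_add (enc_scaleT 62909 80000 (enc_subr 237 260 h1)) (enc_rat _ 53423 250000)))⟩
noncomputable def sw48 : Fn1 := ⟨_, _, fun h1 => (enc_norm (enc_subr 3489 2000 (enc_neg (enc_scaleT 67 4 (enc_subr 237 260 h1)))))⟩
noncomputable def sl49 : Fn1 := ⟨_, _, fun h1 => (enc_norm (enc_add (enc_scaleT 867 1250 (enc_subr 237 260 h1)) (enc_rat _ 7187 100000)))⟩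
noncomputable def sv49 : Fn1 := ⟨_, _, fun h1 => (enc_norm (enc_add (enc_scaleT 69341 80000 (enc_subr 237 260 h1)) (enc_rat _ 106891 500000)))⟩
noncomputable def sw49 : Fn1 := ⟨_, _, fun h1 => (enc_norm (enc_subr 3471 2000 (enc_neg (enc_scaleT 871 100 (enc_subr 237 260 h1)))))⟩
noncomputable def sl50 : Fn1 := ⟨_, _, fun h1 => (enc_norm (enc_subr 14893 100000 (enc_scaleT 3463 5000 (enc_subr 237 260 h1))))⟩
noncomputable def sv50 : Fn1 := ⟨_, _, fun h1 => (enc_norm (enc_add (enc_scaleT 13869 16000 (enc_subr 237 260 h1)) (enc_rat _ 112411 500000)))⟩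
noncomputable def sw50 : Fn1 := ⟨_, _, fun h1 => (enc_norm (enc_subr 1263 2000 (enc_neg (enc_scaleT 1741 200 (enc_subr 237 260 h1)))))⟩
noncomputable def sl51 : Fn1 := ⟨_, _, fun h1 => (enc_norm (enc_subr 14893 100000 (enc_scaleT 6973 5000 (enc_subr 237 260 h1))))⟩
noncomputable def sv51 : Fn1 := ⟨_, _, fun h1 => (enc_norm (enc_add (enc_scaleT 65133 80000 (enc_subr 237 260 h1)) (enc_rat _ 112411 500000)))⟩
noncomputable def sw51 : Fn1 := ⟨_, _, fun h1 => (enc_norm (enc_subr 1263 2000 (enc_neg (enc_scaleT 2209 200 (enc_subr 237 260 h1)))))⟩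
noncomputable def sl52 : Fn1 := ⟨_, _, fun h1 => (enc_norm (enc_subr 18773 100000 (enc_scaleT 6963 5000 (enc_subr 237 260 h1))))⟩
noncomputable def sv52 : Fn1 := ⟨_, _, fun h1 => (enc_norm (enc_add (enc_scaleT 65149 80000 (enc_subr 237 260 h1)) (enc_rat _ 114351 500000)))⟩
noncomputable def sw52 : Fn1 := ⟨_, _, fun h1 => (enc_norm (enc_subr 1069 2000 (enc_neg (enc_scaleT 276 25 (enc_subr 237 260 h1)))))⟩
noncomputable def sl53 : Fn1 := ⟨_, _, fun h1 => (enc_norm (enc_subr 22749 50000 (enc_scaleT 13851 10000 (enc_subr 237 260 h1))))⟩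
noncomputable def sv53 : Fn1 := ⟨_, _, fun h1 => (enc_norm (enc_add (enc_scaleT 8153 10000 (enc_subr 237 260 h1)) (enc_rat _ 1048433 4000000)))⟩
noncomputable def sw53 : Fn1 := ⟨_, _, fun h1 => (enc_norm (enc_neg (enc_scaleT 441 40 (enc_subr 237 260 h1))))⟩
noncomputable def sl54_2 : Fn1 := ⟨_, _, fun h1 => (enc_subr 237 260 h1)⟩
noncomputable def sl54 : Fn1 := ⟨_, _, fun h1 => (enc_norm (enc_add (enc_subr 320436909509 728000000000 (enc_neg (enc_scaleT 23182197889 455000000 (sl54_2.enc h1)))) (enc_scaleT 44352978463 227500000 (enc_sq (enc_norm (sl54_2.enc h1))))))⟩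
noncomputable def sv54_2 : Fn1 := ⟨_, _, fun h1 => (enc_subr 237 260 h1)⟩
noncomputable def sv54 : Fn1 := ⟨_, _, fun h1 => (enc_norm (enc_sub (enc_add (enc_scaleT 39428232667 4550000000 (sv54_2.enc h1)) (enc_rat _ 1891965908527 7280000000000)) (enc_scaleT 66529517889 2275000000 (enc_sq (enc_norm (sv54_2.enc h1))))))⟩
noncomputable def sw54_2 : Fn1 := ⟨_, _, fun h1 => (enc_subr 237 260 h1)⟩
noncomputable def sw54 : Fn1 := ⟨_, _, fun h1 => (enc_norm (enc_sub (enc_subr 247 10000 (enc_scaleT 381 5 (sw54_2.enc h1))) (enc_scaleT 32493 100 (enc_sq (enc_norm (sw54_2.enc h1))))))⟩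
noncomputable def sl56_2 : Fn1 := ⟨_, _, fun h1 => (enc_subr 237 260 h1)⟩
noncomputable def sl56 : Fn1 := ⟨_, _, fun h1 => (enc_norm (enc_sub (enc_add (enc_scaleT 1009551358021 56134000000 (sl56_2.enc h1)) (enc_rat _ 134534885357 112268000000)) (enc_scaleT 68000140149 1511300000 (enc_sq (enc_norm (sl56_2.enc h1))))))⟩
noncomputable def sv56_2 : Fn1 := ⟨_, _, fun h1 => (enc_subr 237 260 h1)⟩
noncomputable def sv56 : Fn1 := ⟨_, _, fun h1 => (enc_norm (enc_add (enc_subr 136789995351 2806700000000 (enc_neg (enc_scaleT 148308424893 43854687500 (sv56_2.enc h1)))) (enc_scaleT 374001339679 37782500000 (enc_sq (enc_norm (sv56_2.enc h1))))))⟩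
noncomputable def sw56_2 : Fn1 := ⟨_, _, fun h1 => (enc_subr 237 260 h1)⟩
noncomputable def sw56 : Fn1 := ⟨_, _, fun h1 => (enc_norm (enc_add (enc_subr 22339 10000 (enc_neg (enc_scaleT 22969 1000 (sw56_2.enc h1)))) (enc_scaleT 5113 100 (enc_sq (enc_norm (sw56_2.enc h1))))))⟩
noncomputable def sl57 : Fn1 := ⟨_, _, fun h1 => (enc_norm (enc_subr 776363 1500000 (enc_neg (enc_scaleT 182721 20000 (enc_subr 237 260 h1)))))⟩
noncomputable def sv57 : Fn1 := ⟨_, _, fun h1 => (enc_norm (enc_add (enc_scaleT 25847429 10000000 (enc_subr 237 260 h1)) (enc_rat _ 6164321 18750000)))⟩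
noncomputable def sw57 : Fn1 := ⟨_, _, fun h1 => (enc_norm (enc_subr 71 250 (enc_scaleT 157 20 (enc_subr 237 260 h1))))⟩
noncomputable def sl58 : Fn1 := ⟨_, _, fun h1 => (enc_norm (enc_subr 3348419 6000000 (enc_neg (enc_scaleT 5964841 600000 (enc_subr 237 260 h1)))))⟩
noncomputable def sv58 : Fn1 := ⟨_, _, fun h1 => (enc_norm (enc_add (enc_scaleT 166077647 60000000 (enc_subr 237 260 h1)) (enc_rat _ 202785703 600000000)))⟩
noncomputable def sw58 : Fn1 := ⟨_, _, fun h1 => (enc_norm (enc_subr 479 2000 (enc_scaleT 1747 200 (enc_subr 237 260 h1))))⟩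
noncomputable def sl59 : Fn1 := ⟨_, _, fun h1 => (enc_norm (enc_subr 38333 25000 (enc_neg (enc_scaleT 148877 5000 (enc_subr 237 260 h1)))))⟩
noncomputable def sv59 : Fn1 := ⟨_, _, fun h1 => (enc_norm (enc_add (enc_scaleT 148579 20000 (enc_subr 237 260 h1)) (enc_rat _ 14179 25000)))⟩
noncomputable def sw59 : Fn1 := ⟨_, _, fun h1 => (enc_norm (enc_add (enc_scaleT 5967 200 (enc_subr 237 260 h1)) (enc_rat _ 399 500)))⟩
noncomputable def skf0 : Fn2 := ⟨_, _, fun h1 h2 => (enc_norm (enc_add (bf1q0.enc h1 h2) (enc_mul (enc_norm (enc_sub (enc_mul (c1g.enc h1) (bf1q0.enc h1 h2)) (kf0q0.enc h1 h2))) (enc_inv (enc_sub (cv1m.enc h1) (c1g.enc h1))))))⟩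
noncomputable def sxf0 : Fn2 := ⟨_, _, fun h1 h2 => (enc_norm (enc_mul (enc_norm (enc_sub (l1q0.enc h1 h2) (l0q0.enc h1 h2))) (enc_inv (enc_sub (cv1m.enc h1) (c1g.enc h1)))))⟩
noncomputable def skl0 : Fn2 := ⟨_, _, fun h1 h2 => (enc_norm (enc_add (bf3q0.enc h1 h2) (enc_mul (enc_norm (enc_sub (kf4q0.enc h1 h2) (enc_mul (c3g.enc h1) (bf3q0.enc h1 h2)))) (enc_inv (enc_sub (c3g.enc h1) (cv3m.enc h1))))))⟩
noncomputable def sxl0 : Fn2 := ⟨_, _, fun h1 h2 => (enc_norm (enc_mul (enc_norm (enc_sub (l4q0.enc h1 h2) (l3q0.enc h1 h2))) (enc_inv (enc_sub (c3g.enc h1) (cv3m.enc h1)))))⟩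
noncomputable def skf1 : Fn2 := ⟨_, _, fun h1 h2 => (enc_norm (enc_add (bf1q1.enc h1 h2) (enc_mul (enc_norm (enc_sub (enc_mul (c1g.enc h1) (bf1q1.enc h1 h2)) (kf0q1.enc h1 h2))) (enc_inv (enc_sub (cv1m.enc h1) (c1g.enc h1))))))⟩
noncomputable def sxf1 : Fn2 := ⟨_, _, fun h1 h2 => (enc_norm (enc_mul (enc_norm (enc_sub (l1q1.enc h1 h2) (l0q1.enc h1 h2))) (enc_inv (enc_sub (cv1m.enc h1) (c1g.enc h1)))))⟩
noncomputable def skl1 : Fn2 := ⟨_, _, fun h1 h2 => (enc_norm (enc_add (bf3q1.enc h1 h2) (enc_mul (enc_norm (enc_sub (kf4q1.enc h1 h2) (enc_mul (c3g.enc h1) (bf3q1.enc h1 h2)))) (enc_inv (enc_sub (c3g.enc h1) (cv3m.enc h1))))))⟩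
noncomputable def sxl1 : Fn2 := ⟨_, _, fun h1 h2 => (enc_norm (enc_mul (enc_norm (enc_sub (l4q1.enc h1 h2) (l3q1.enc h1 h2))) (enc_inv (enc_sub (c3g.enc h1) (cv3m.enc h1)))))⟩
noncomputable def skf2 : Fn2 := ⟨_, _, fun h1 h2 => (enc_norm (enc_add (bf1q2.enc h1 h2) (enc_mul (enc_norm (enc_add (enc_mul (c1g.enc h1) (enc_norm (enc_subn 1 (bf1q2.enc h1 h2)))) (enc_mul (enc_norm (enc_subn 1 h1)) (kcg.enc (c1g.enc h1) h2)))) (enc_inv (enc_sub (cv1p.enc h1) (c1g.enc h1))))))⟩
noncomputable def sxf2 : Fn2 := ⟨_, _, fun h1 h2 => (enc_norm (enc_mul (enc_norm (enc_sub (l1q2.enc h1 h2) (l0q2.enc h1 h2))) (enc_inv (enc_sub (cv1p.enc h1) (c1g.enc h1)))))⟩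
noncomputable def skl2 : Fn2 := ⟨_, _, fun h1 h2 => (enc_norm (enc_add (bf3q2.enc h1 h2) (enc_mul (enc_norm (enc_sub (kf4q2.enc h1 h2) (enc_mul (c3g.enc h1) (bf3q2.enc h1 h2)))) (enc_inv (enc_sub (c3g.enc h1) (cv3p.enc h1))))))⟩
noncomputable def sxl2 : Fn2 := ⟨_, _, fun h1 h2 => (enc_norm (enc_mul (enc_norm (enc_sub (l4q2.enc h1 h2) (l3q2.enc h1 h2))) (enc_inv (enc_sub (c3g.enc h1) (cv3p.enc h1)))))⟩
noncomputable def skl3 : Fn2 := ⟨_, _, fun h1 h2 => (enc_norm (enc_add (bf3q3.enc h1 h2) (enc_mul (enc_norm (enc_sub (kf4q3.enc h1 h2) (enc_mul (c3g.enc h1) (bf3q3.enc h1 h2)))) (enc_inv (enc_sub (c3g.enc h1) (cv3r.enc h1))))))⟩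
noncomputable def sxl3 : Fn2 := ⟨_, _, fun h1 h2 => (enc_norm (enc_mul (enc_norm (enc_sub (l4q3.enc h1 h2) (l3q3.enc h1 h2))) (enc_inv (enc_sub (c3g.enc h1) (cv3r.enc h1)))))⟩
noncomputable def rhk : Fn2 := ⟨_, _, fun h1 h2 => (enc_norm (enc_mul (enc_norm (enc_sub (bf1q2.enc h1 h2) (n0b.enc h1 h2))) (enc_norm (enc_mul (cv1p.enc h1) (enc_inv (enc_sub (cv1p.enc h1) (c1g.enc h1)))))))⟩
noncomputable def rhx : Fn2 := ⟨_, _, fun h1 h2 => (enc_norm (enc_mul (enc_norm (enc_sub (bx1q2.enc h1 h2) (n0x.enc h1 h2))) (enc_norm (enc_mul (cv1p.enc h1) (enc_inv (enc_sub (cv1p.enc h1) (c1g.enc h1)))))))⟩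
noncomputable def sbk : Fn1 := ⟨_, _, fun h1 => (enc_norm (enc_sub (enc_rat _ 1 69000) (enc_scaleT 1 6900 (enc_subr 237 260 h1))))⟩
noncomputable def sbx : Fn1 := ⟨_, _, fun h1 => (enc_norm (enc_add (enc_scaleT 8293 1725 (enc_subr 237 260 h1)) (enc_rat _ 24689 17250)))⟩
noncomputable def k0c : Fn1 := ⟨_, _, fun h1 => (enc_norm (enc_add (enc_scaleT 549793 10000 (enc_subr 237 260 h1)) (enc_rat _ 49883 20000)))⟩
noncomputable def m0c : Fn1 := ⟨_, _, fun h1 => (enc_norm (enc_subr 7187 50000 (enc_neg (enc_scaleT 867 625 (enc_subr 237 260 h1)))))⟩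
noncomputable def sl81 : Fn1 := ⟨_, _, fun h1 => (enc_norm (enc_subr 3107 10000 (enc_neg (enc_scaleT 1221 2000 (enc_subr 237 260 h1)))))⟩
noncomputable def sv81 : Fn1 := ⟨_, _, fun h1 => (enc_norm (enc_subr 2623 80000 (enc_neg (enc_scaleT 7849 80000 (enc_subr 237 260 h1)))))⟩
noncomputable def sw81 : Fn1 := ⟨_, _, fun h1 => (enc_norm (enc_subr 267 500 (enc_scaleT 21 20 (enc_subr 237 260 h1))))⟩
noncomputable def sl82 : Fn1 := ⟨_, _, fun h1 => (enc_norm (enc_subr 1539 10000 (enc_neg (enc_scaleT 253 2000 (enc_subr 237 260 h1)))))⟩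
noncomputable def sv82 : Fn1 := ⟨_, _, fun h1 => (enc_norm (enc_subr 6843 400000 (enc_neg (enc_scaleT 3977 80000 (enc_subr 237 260 h1)))))⟩
noncomputable def sw82 : Fn1 := ⟨_, _, fun h1 => (enc_norm (enc_subr 71 500 (enc_scaleT 113 50 (enc_subr 237 260 h1))))⟩
noncomputable def sl83 : Fn1 := ⟨_, _, fun h1 => (enc_norm (enc_add (enc_scaleT 1609 1000 (enc_subr 237 260 h1)) (enc_rat _ 1113 5000)))⟩
noncomputable def sv83 : Fn1 := ⟨_, _, fun h1 => (enc_norm (enc_add (enc_scaleT 1609 20000 (enc_subr 237 260 h1)) (enc_rat _ 1113 100000)))⟩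
noncomputable def sw83 : Fn1 := ⟨_, _, fun h1 => (enc_norm (enc_add (enc_scaleT 1609 200 (enc_subr 237 260 h1)) (enc_rat _ 1113 1000)))⟩
noncomputable def sl84 : Fn1 := ⟨_, _, fun h1 => (enc_pnc _ 0)⟩
noncomputable def sv84 : Fn1 := ⟨_, _, fun h1 => (enc_pnc _ 0)⟩
noncomputable def sl85 : Fn1 := ⟨_, _, fun h1 => (enc_norm (enc_add (enc_scaleT 1609 1000 (enc_subr 237 260 h1)) (enc_rat _ 1113 5000)))⟩
noncomputable def sv85 : Fn1 := ⟨_, _, fun h1 => (enc_norm (enc_subr 1113 100000 (enc_neg (enc_scaleT 1609 20000 (enc_subr 237 260 h1)))))⟩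
noncomputable def sw85 : Fn1 := ⟨_, _, fun h1 => (enc_norm (enc_subr 1113 1000 (enc_neg (enc_scaleT 1609 200 (enc_subr 237 260 h1)))))⟩
noncomputable def sl86 : Fn1 := ⟨_, _, fun h1 => (enc_norm (enc_subr 1539 10000 (enc_neg (enc_scaleT 253 2000 (enc_subr 237 260 h1)))))⟩
noncomputable def sv86 : Fn1 := ⟨_, _, fun h1 => (enc_norm (enc_add (enc_scaleT 3977 80000 (enc_subr 237 260 h1)) (enc_rat _ 6843 400000)))⟩
noncomputable def sw86 : Fn1 := ⟨_, _, fun h1 => (enc_norm (enc_sub (enc_rat _ 71 500) (enc_scaleT 113 50 (enc_subr 237 260 h1))))⟩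
noncomputable def sl87 : Fn1 := ⟨_, _, fun h1 => (enc_norm (enc_subr 3107 10000 (enc_neg (enc_scaleT 1221 2000 (enc_subr 237 260 h1)))))⟩
noncomputable def sv87 : Fn1 := ⟨_, _, fun h1 => (enc_norm (enc_add (enc_scaleT 7849 80000 (enc_subr 237 260 h1)) (enc_rat _ 2623 80000)))⟩
noncomputable def sw87 : Fn1 := ⟨_, _, fun h1 => (enc_norm (enc_sub (enc_rat _ 267 500) (enc_scaleT 21 20 (enc_subr 237 260 h1))))⟩
noncomputable def kqf : Fn2 := ⟨_, _, fun h1 h2 => (enc_norm (enc_mul (enc_norm (enc_subn 1 h1)) (enc_norm (enc_case (enc_subr 2 25 (c1g.enc h1)) (enc_add (enc_scaleT 549793 10000 (enc_subr 237 260 h2)) (enc_rat _ 49883 20000)) (enc_mul (kcg.enc (c1g.enc h1) h2) (enc_inv (c1g.enc h1)))))))⟩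
noncomputable def skm : Fn2 := ⟨_, _, fun h1 h2 => (enc_norm (enc_sub (enc_mul (enc_norm (enc_mul (cv1p.enc h1) (enc_inv (enc_sub (cv1p.enc h1) (c1g.enc h1))))) (enc_norm (enc_add (enc_subn 1 (bf1q2.enc h1 h2)) (kqf.enc h1 h2)))) (kqf.enc h1 h2)))⟩
noncomputable def dt1 : DT := .quad sw1 sl1 sv1
noncomputable def dt2 : DT := .quad sw2 sl2 sv2
noncomputable def dt3 : DT := .quad sw3 sl3 sv3
noncomputable def dt4 : DT := .quad sw4 sl4 sv4
noncomputable def dt5 : DT := .quad sw5 sl5 sv5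
noncomputable def dt6 : DT := .quad sw6 sl6 sv6
noncomputable def dt7 : DT := .quad sw7 sl7 sv7
noncomputable def dt8 : DT := .quad sw8 sl8 sv8
noncomputable def dt9 : DT := .quad sw9 sl9 sv9
noncomputable def dt10 : DT := .lin sl10 sv10
noncomputable def dt11 : DT := .quad sw11 sl11 sv11
noncomputable def dt12 : DT := .quad sw12 sl12 sv12
noncomputable def dt13 : DT := .quad sw13 sl13 sv13
noncomputable def dt14 : DT := .quad sw14 sl14 sv14
noncomputable def dt15 : DT := .quad sw15 sl15 sv15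
noncomputable def dt16 : DT := .quad sw16 sl16 sv16
noncomputable def dt17 : DT := .quad sw17 sl17 sv17
noncomputable def dt18 : DT := .quad sw18 sl18 sv18
noncomputable def dt19 : DT := .quad sw19 sl19 sv19
noncomputable def dt20 : DT := .node ((Cn.rt 93 200).ng) dt1 dt2
noncomputable def dt21 : DT := .node ((Cn.rt 107 254).ng) dt3 dt4
noncomputable def dt22 : DT := .node ((Cn.rt 9 20).ng) dt20 dt21
noncomputable def dt23 : DT := .node ((Cn.rt 31 100).ng) dt5 dt6
noncomputable def dt24 : DT := .node ((Cn.rt 4 25).ng) dt8 dt9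
noncomputable def dt25 : DT := .node ((Cn.rt 6 25).ng) dt7 dt24
noncomputable def dt26 : DT := .node ((Cn.rt 7 25).ng) dt23 dt25
noncomputable def dt27 : DT := .node ((Cn.rt 61 182).ng) dt22 dt26
noncomputable def dt28 : DT := .node (Cn.rt 2 25) dt10 dt11
noncomputable def dt29 : DT := .node (Cn.rt 7 25) dt13 dt14
noncomputable def dt30 : DT := .node (Cn.rt 6 25) dt12 dt29
noncomputable def dt31 : DT := .node (Cn.rt 4 25) dt28 dt30
noncomputable def dt32 : DT := .node (Cn.rt 61 182) dt15 dt16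
noncomputable def dt33 : DT := .node (Cn.rt 93 200) dt18 dt19
noncomputable def dt34 : DT := .node (Cn.rt 9 20) dt17 dt33
noncomputable def dt35 : DT := .node (Cn.rt 107 254) dt32 dt34
noncomputable def dt36 : DT := .node (Cn.rt 31 100) dt31 dt35
noncomputable def dt37 : DT := .node ((Cn.rt 2 25).ng) dt27 dt36
noncomputable def dt38 : DT := .quad sw38 sl38 sv38
noncomputable def dt39 : DT := .quad sw39 sl39 sv39
noncomputable def dt40 : DT := .quad sw40 sl40 sv40
noncomputable def dt41 : DT := .quad sw41 sl41 sv41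
noncomputable def dt42 : DT := .quad sw42 sl42 sv42
noncomputable def dt43 : DT := .quad sw43 sl43 sv43
noncomputable def dt44 : DT := .quad sw44 sl44 sv44
noncomputable def dt45 : DT := .quad sw45 sl45 sv45
noncomputable def dt46 : DT := .quad sw46 sl46 sv46
noncomputable def dt47 : DT := .quad sw47 sl47 sv47
noncomputable def dt48 : DT := .quad sw48 sl48 sv48
noncomputable def dt49 : DT := .quad sw49 sl49 sv49
noncomputable def dt50 : DT := .quad sw50 sl50 sv50
noncomputable def dt51 : DT := .quad sw51 sl51 sv51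
noncomputable def dt52 : DT := .quad sw52 sl52 sv52
noncomputable def dt53 : DT := .quad sw53 sl53 sv53
noncomputable def dt54 : DT := .quad sw54 sl54 sv54
noncomputable def dt55 : DT := .clo
noncomputable def dt56 : DT := .quad sw56 sl56 sv56
noncomputable def dt57 : DT := .quad sw57 sl57 sv57
noncomputable def dt58 : DT := .quad sw58 sl58 sv58
noncomputable def dt59 : DT := .quad sw59 sl59 sv59
noncomputable def dt60 : DT := .node ((Cn.rt 47 100).ng) dt38 dt39
noncomputable def dt61 : DT := .node ((Cn.rt 39 100).ng) dt41 dt42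
noncomputable def dt62 : DT := .node ((Cn.rt 21 50).ng) dt40 dt61
noncomputable def dt63 : DT := .node ((Cn.rt 9 20).ng) dt60 dt62
noncomputable def dt64 : DT := .node ((Cn.rt 3 10).ng) dt44 dt45
noncomputable def dt65 : DT := .node ((Cn.rt 33 100).ng) dt43 dt64
noncomputable def dt66 : DT := .node ((Cn.rt 3 20).ng) dt47 dt48
noncomputable def dt67 : DT := .node ((Cn.rt 1 5).ng) dt46 dt66
noncomputable def dt68 : DT := .node ((Cn.rt 1 4).ng) dt65 dt67
noncomputable def dt69 : DT := .node ((Cn.rt 9 25).ng) dt63 dt68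
noncomputable def dt70 : DT := .node (Cn.rt 1 10) dt49 dt50
noncomputable def dt71 : DT := .node (Cn.rt 1 4) dt52 dt53
noncomputable def dt72 : DT := .node (Cn.rt 1 5) dt51 dt71
noncomputable def dt73 : DT := .node (Cn.rt 3 20) dt70 dt72
noncomputable def dt74 : DT := .node (Cn.rt 107 254) dt55 dt56
noncomputable def dt75 : DT := .node (Cn.rt 61 182) dt54 dt74
noncomputable def dt76 : DT := .node (Cn.rt 47 100) dt58 dt59
noncomputable def dt77 : DT := .node (Cn.rt 91 200) dt57 dt76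
noncomputable def dt78 : DT := .node (Cn.rt 11 25) dt75 dt77
noncomputable def dt79 : DT := .node (Cn.rt 3 10) dt73 dt78
noncomputable def dt80 : DT := .node ((Cn.rt 1 10).ng) dt69 dt79
noncomputable def dt81 : DT := .quad sw81 sl81 sv81
noncomputable def dt82 : DT := .quad sw82 sl82 sv82
noncomputable def dt83 : DT := .quad sw83 sl83 sv83
noncomputable def dt84 : DT := .lin sl84 sv84
noncomputable def dt85 : DT := .quad sw85 sl85 sv85
noncomputable def dt86 : DT := .quad sw86 sl86 sv86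
noncomputable def dt87 : DT := .quad sw87 sl87 sv87
noncomputable def dt88 : DT := .node ((Cn.rt 3 20).ng) dt82 dt83
noncomputable def dt89 : DT := .node ((Cn.rt 1 5).ng) dt81 dt88
noncomputable def dt90 : DT := .node (Cn.rt 1 10) dt84 dt85
noncomputable def dt91 : DT := .node (Cn.rt 1 5) dt86 dt87
noncomputable def dt92 : DT := .node (Cn.rt 3 20) dt90 dt91
noncomputable def dt93 : DT := .node ((Cn.rt 1 10).ng) dt89 dt92
noncomputable def dd : SDat := ⟨dt37, kcg, dt80, Kh.T⟩
noncomputable def gf0 : Sg := ⟨cv1m, skf0, sxf0⟩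
noncomputable def gf1 : Sg := ⟨cv1m, skf1, sxf1⟩
noncomputable def gf2 : Sg := ⟨cv1p, skf2, sxf2⟩
noncomputable def gf3 : Sg := ⟨cv1r, skf2, sxf2⟩
noncomputable def gl0 : Sg := ⟨cv3m, skl0, sxl0⟩
noncomputable def gl1 : Sg := ⟨cv3m, skl1, sxl1⟩
noncomputable def gl2 : Sg := ⟨cv3p, skl2, sxl2⟩
noncomputable def gl3 : Sg := ⟨cv3r, skl3, sxl3⟩
noncomputable def vv : Vt := ⟨(Cn.rt 2 25), (Cn.rt 577 500), (Cn.rt 231 200), (Cn.rt 3 2), k0c, m0c, sbk, sbx, rhk, rhx, bf1q2, bx1q2, (Cn.rt 1 4), (Cn.rt 577 500), skm, dt93⟩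
noncomputable def ff (q : ℕ) : Sg := match q with
  | 0 => gf0
  | 1 => gf1
  | 2 => gf2
  | _ => gf3
noncomputable def fl (q : ℕ) : Sg := match q with
  | 0 => gl0
  | 1 => gl1
  | 2 => gl2
  | _ => gl3
noncomputable def tt : STab 4 := ⟨dd, 0, 3, ff, fl, vv⟩
theorem kcl0 {p x : ℝ} (h1 : -1 / 2 ≤ p) (h2 : p ≤ -93 / 200) : kcg.v p x = (22242972557 / 1400000000 + (x - 237 / 260) * (2404183013 / 70000000)) + (1079602217 / 14000000 + (x - 237 / 260) * (541355433 / 7000000)) * p + (34641 / 400 + (x - 237 / 260) * (-3 / 200)) * p ^ 2 := by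
  simp only [kcg, kcg_3, kcg_6, kcg_9, kcg_12, kcg_13, kcg_18, kcg_27, kcg_35, kcg_40, kcg_49, kcg_57, kcg_58, kcg_62, kcg_71, kcg_78, kcg_79, kcg_82, kcg_91, kcg_96, kcg_99, kcg_109, kcg_119, kcg_122, kcg_123, kcg_126, kcg_135, kcg_140, kcg_143, kcg_157, kcg_158, kcg_162, kcg_171, kcg_181, kcg_185, kcg_197, kcg_202, kcg_205, kcg_212, kcg_213, kcg_214, kcg_235, kcg_246, kcg_269, kcg_270, kcg_290]
  rcases eq_or_lt_of_le h1 with h | h1
  · subst h
    ((try push_cast); (repeat first | rw [if_pos (by linarith)] | rw [if_neg (by linarith)] | erw [if_pos (by linarith)] | erw [if_neg (by linarith)]); (try push_cast); (try ring1))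
  rcases eq_or_lt_of_le h2 with h | h2
  · subst h
    ((try push_cast); (repeat first | rw [if_pos (by linarith)] | rw [if_neg (by linarith)] | erw [if_pos (by linarith)] | erw [if_neg (by linarith)]); (try push_cast); (try ring1))
  · ((try push_cast); (repeat first | rw [if_pos (by linarith)] | rw [if_neg (by linarith)] | erw [if_pos (by linarith)] | erw [if_neg (by linarith)]); (try push_cast); (try ring1))
theorem kcl1 {p x : ℝ} (h1 : -93 / 200 ≤ p) (h2 : p ≤ -9 / 20) : kcg.v p x = (9974732479 / 1000000000 + (x - 237 / 260) * (-77709505943 / 100000000)) + (516817341 / 10000000 + (x - 237 / 260) * (-10238190929 / 3000000)) * p + (118511 / 2000 + (x - 237 / 260) * (-150111 / 40)) * p ^ 2 := by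
  simp only [kcg, kcg_3, kcg_6, kcg_9, kcg_12, kcg_13, kcg_18, kcg_27, kcg_35, kcg_40, kcg_49, kcg_57, kcg_58, kcg_62, kcg_71, kcg_78, kcg_79, kcg_82, kcg_91, kcg_96, kcg_99, kcg_109, kcg_119, kcg_122, kcg_123, kcg_126, kcg_135, kcg_140, kcg_143, kcg_157, kcg_158, kcg_162, kcg_171, kcg_181, kcg_185, kcg_197, kcg_202, kcg_205, kcg_212, kcg_213, kcg_214, kcg_235, kcg_246, kcg_269, kcg_270, kcg_290]
  rcases eq_or_lt_of_le h1 with h | h1
  · subst h
    ((try push_cast); (repeat first | rw [if_pos (by linarith)] | rw [if_neg (by linarith)] | erw [if_pos (by linarith)] | erw [if_neg (by linarith)]); (try push_cast); (try ring1))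
  rcases eq_or_lt_of_le h2 with h | h2
  · subst h
    ((try push_cast); (repeat first | rw [if_pos (by linarith)] | rw [if_neg (by linarith)] | erw [if_pos (by linarith)] | erw [if_neg (by linarith)]); (try push_cast); (try ring1))
  · ((try push_cast); (repeat first | rw [if_pos (by linarith)] | rw [if_neg (by linarith)] | erw [if_pos (by linarith)] | erw [if_neg (by linarith)]); (try push_cast); (try ring1))
theorem kcl2 {p x : ℝ} (h1 : -9 / 20 ≤ p) (h2 : p ≤ -107 / 254) : kcg.v p x = (28763277474803 / 1854200000000 + (x - 237 / 260) * (18691234476763 / 37084000000)) + (35366099514689 / 463550000000 + (x - 237 / 260) * (105741929046277 / 46355000000)) * p + (34641 / 400 + (x - 237 / 260) * (128687 / 50)) * p ^ 2 := by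
  simp only [kcg, kcg_3, kcg_6, kcg_9, kcg_12, kcg_13, kcg_18, kcg_27, kcg_35, kcg_40, kcg_49, kcg_57, kcg_58, kcg_62, kcg_71, kcg_78, kcg_79, kcg_82, kcg_91, kcg_96, kcg_99, kcg_109, kcg_119, kcg_122, kcg_123, kcg_126, kcg_135, kcg_140, kcg_143, kcg_157, kcg_158, kcg_162, kcg_171, kcg_181, kcg_185, kcg_197, kcg_202, kcg_205, kcg_212, kcg_213, kcg_214, kcg_235, kcg_246, kcg_269, kcg_270, kcg_290]
  rcases eq_or_lt_of_le h1 with h | h1
  · subst h
    ((try push_cast); (repeat first | rw [if_pos (by linarith)] | rw [if_neg (by linarith)] | erw [if_pos (by linarith)] | erw [if_neg (by linarith)]); (try push_cast); (try ring1))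
  rcases eq_or_lt_of_le h2 with h | h2
  · subst h
    ((try push_cast); (repeat first | rw [if_pos (by linarith)] | rw [if_neg (by linarith)] | erw [if_pos (by linarith)] | erw [if_neg (by linarith)]); (try push_cast); (try ring1))
  · ((try push_cast); (repeat first | rw [if_pos (by linarith)] | rw [if_neg (by linarith)] | erw [if_pos (by linarith)] | erw [if_neg (by linarith)]); (try push_cast); (try ring1))
theorem kcl3 {p x : ℝ} (h1 : -107 / 254 ≤ p) (h2 : p ≤ -61 / 182) : kcg.v p x = (31412267338318817 / 22998430000000000 + (x - 237 / 260) * (-289235272426056441 / 2299843000000000)) + (104993250119466187 / 11499215000000000 + (x - 237 / 260) * (-815162010198410351 / 1149921500000000)) * p + (1377 / 200 + (x - 237 / 260) * (-24379 / 25)) * p ^ 2 := by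
  simp only [kcg, kcg_3, kcg_6, kcg_9, kcg_12, kcg_13, kcg_18, kcg_27, kcg_35, kcg_40, kcg_49, kcg_57, kcg_58, kcg_62, kcg_71, kcg_78, kcg_79, kcg_82, kcg_91, kcg_96, kcg_99, kcg_109, kcg_119, kcg_122, kcg_123, kcg_126, kcg_135, kcg_140, kcg_143, kcg_157, kcg_158, kcg_162, kcg_171, kcg_181, kcg_185, kcg_197, kcg_202, kcg_205, kcg_212, kcg_213, kcg_214, kcg_235, kcg_246, kcg_269, kcg_270, kcg_290]
  rcases eq_or_lt_of_le h1 with h | h1
  · subst h
    ((try push_cast); (repeat first | rw [if_pos (by linarith)] | rw [if_neg (by linarith)] | erw [if_pos (by linarith)] | erw [if_neg (by linarith)]); (try push_cast); (try ring1))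
  rcases eq_or_lt_of_le h2 with h | h2
  · subst h
    ((try push_cast); (repeat first | rw [if_pos (by linarith)] | rw [if_neg (by linarith)] | erw [if_pos (by linarith)] | erw [if_neg (by linarith)]); (try push_cast); (try ring1))
  · ((try push_cast); (repeat first | rw [if_pos (by linarith)] | rw [if_neg (by linarith)] | erw [if_pos (by linarith)] | erw [if_neg (by linarith)]); (try push_cast); (try ring1))
theorem kcl4 {p x : ℝ} (h1 : -61 / 182 ≤ p) (h2 : p ≤ -31 / 100) : kcg.v p x = (-6666912861909 / 10419500000000 + (x - 237 / 260) * (-150914633759 / 9303125000)) + (-295698114889 / 104195000000 + (x - 237 / 260) * (-20552352181 / 372125000)) * p + (-21939 / 2000 + (x - 237 / 260) * (-7 / 200)) * p ^ 2 := by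
  simp only [kcg, kcg_3, kcg_6, kcg_9, kcg_12, kcg_13, kcg_18, kcg_27, kcg_35, kcg_40, kcg_49, kcg_57, kcg_58, kcg_62, kcg_71, kcg_78, kcg_79, kcg_82, kcg_91, kcg_96, kcg_99, kcg_109, kcg_119, kcg_122, kcg_123, kcg_126, kcg_135, kcg_140, kcg_143, kcg_157, kcg_158, kcg_162, kcg_171, kcg_181, kcg_185, kcg_197, kcg_202, kcg_205, kcg_212, kcg_213, kcg_214, kcg_235, kcg_246, kcg_269, kcg_270, kcg_290]
  rcases eq_or_lt_of_le h1 with h | h1
  · subst h
    ((try push_cast); (repeat first | rw [if_pos (by linarith)] | rw [if_neg (by linarith)] | erw [if_pos (by linarith)] | erw [if_neg (by linarith)]); (try push_cast); (try ring1))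
  rcases eq_or_lt_of_le h2 with h | h2
  · subst h
    ((try push_cast); (repeat first | rw [if_pos (by linarith)] | rw [if_neg (by linarith)] | erw [if_pos (by linarith)] | erw [if_neg (by linarith)]); (try push_cast); (try ring1))
  · ((try push_cast); (repeat first | rw [if_pos (by linarith)] | rw [if_neg (by linarith)] | erw [if_pos (by linarith)] | erw [if_neg (by linarith)]); (try push_cast); (try ring1))
theorem kcl5 {p x : ℝ} (h1 : -31 / 100 ≤ p) (h2 : p ≤ -7 / 25) : kcg.v p x = (-199953 / 312500 + (x - 237 / 260) * (-2027621 / 125000)) + (-283793 / 100000 + (x - 237 / 260) * (-110447 / 2000)) * p + (-21939 / 2000 + (x - 237 / 260) * (-1 / 40)) * p ^ 2 := by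
  simp only [kcg, kcg_3, kcg_6, kcg_9, kcg_12, kcg_13, kcg_18, kcg_27, kcg_35, kcg_40, kcg_49, kcg_57, kcg_58, kcg_62, kcg_71, kcg_78, kcg_79, kcg_82, kcg_91, kcg_96, kcg_99, kcg_109, kcg_119, kcg_122, kcg_123, kcg_126, kcg_135, kcg_140, kcg_143, kcg_157, kcg_158, kcg_162, kcg_171, kcg_181, kcg_185, kcg_197, kcg_202, kcg_205, kcg_212, kcg_213, kcg_214, kcg_235, kcg_246, kcg_269, kcg_270, kcg_290]
  rcases eq_or_lt_of_le h1 with h | h1
  · subst h
    ((try push_cast); (repeat first | rw [if_pos (by linarith)] | rw [if_neg (by linarith)] | erw [if_pos (by linarith)] | erw [if_neg (by linarith)]); (try push_cast); (try ring1))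
  rcases eq_or_lt_of_le h2 with h | h2
  · subst h
    ((try push_cast); (repeat first | rw [if_pos (by linarith)] | rw [if_neg (by linarith)] | erw [if_pos (by linarith)] | erw [if_neg (by linarith)]); (try push_cast); (try ring1))
  · ((try push_cast); (repeat first | rw [if_pos (by linarith)] | rw [if_neg (by linarith)] | erw [if_pos (by linarith)] | erw [if_neg (by linarith)]); (try push_cast); (try ring1))
theorem kcl6 {p x : ℝ} (h1 : -7 / 25 ≤ p) (h2 : p ≤ -6 / 25) : kcg.v p x = (-199953 / 312500 + (x - 237 / 260) * (-253422 / 15625)) + (-283793 / 100000 + (x - 237 / 260) * (-110419 / 2000)) * p + (-21939 / 2000) * p ^ 2 := by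
  simp only [kcg, kcg_3, kcg_6, kcg_9, kcg_12, kcg_13, kcg_18, kcg_27, kcg_35, kcg_40, kcg_49, kcg_57, kcg_58, kcg_62, kcg_71, kcg_78, kcg_79, kcg_82, kcg_91, kcg_96, kcg_99, kcg_109, kcg_119, kcg_122, kcg_123, kcg_126, kcg_135, kcg_140, kcg_143, kcg_157, kcg_158, kcg_162, kcg_171, kcg_181, kcg_185, kcg_197, kcg_202, kcg_205, kcg_212, kcg_213, kcg_214, kcg_235, kcg_246, kcg_269, kcg_270, kcg_290]
  rcases eq_or_lt_of_le h1 with h | h1
  · subst h
    ((try push_cast); (repeat first | rw [if_pos (by linarith)] | rw [if_neg (by linarith)] | erw [if_pos (by linarith)] | erw [if_neg (by linarith)]); (try push_cast); (try ring1))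
  rcases eq_or_lt_of_le h2 with h | h2
  · subst h
    ((try push_cast); (repeat first | rw [if_pos (by linarith)] | rw [if_neg (by linarith)] | erw [if_pos (by linarith)] | erw [if_neg (by linarith)]); (try push_cast); (try ring1))
  · ((try push_cast); (repeat first | rw [if_pos (by linarith)] | rw [if_neg (by linarith)] | erw [if_pos (by linarith)] | erw [if_neg (by linarith)]); (try push_cast); (try ring1))
theorem kcl7 {p x : ℝ} (h1 : -6 / 25 ≤ p) (h2 : p ≤ -4 / 25) : kcg.v p x = (-1251 / 156250 + (x - 237 / 260) * (-42741 / 15625)) + (242743 / 100000 + (x - 237 / 260) * (571537 / 10000)) * p + (0 + (x - 237 / 260) * (23409 / 100)) * p ^ 2 := by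
  simp only [kcg, kcg_3, kcg_6, kcg_9, kcg_12, kcg_13, kcg_18, kcg_27, kcg_35, kcg_40, kcg_49, kcg_57, kcg_58, kcg_62, kcg_71, kcg_78, kcg_79, kcg_82, kcg_91, kcg_96, kcg_99, kcg_109, kcg_119, kcg_122, kcg_123, kcg_126, kcg_135, kcg_140, kcg_143, kcg_157, kcg_158, kcg_162, kcg_171, kcg_181, kcg_185, kcg_197, kcg_202, kcg_205, kcg_212, kcg_213, kcg_214, kcg_235, kcg_246, kcg_269, kcg_270, kcg_290]
  rcases eq_or_lt_of_le h1 with h | h1
  · subst h
    ((try push_cast); (repeat first | rw [if_pos (by linarith)] | rw [if_neg (by linarith)] | erw [if_pos (by linarith)] | erw [if_neg (by linarith)]); (try push_cast); (try ring1))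
  rcases eq_or_lt_of_le h2 with h | h2
  · subst h
    ((try push_cast); (repeat first | rw [if_pos (by linarith)] | rw [if_neg (by linarith)] | erw [if_pos (by linarith)] | erw [if_neg (by linarith)]); (try push_cast); (try ring1))
  · ((try push_cast); (repeat first | rw [if_pos (by linarith)] | rw [if_neg (by linarith)] | erw [if_pos (by linarith)] | erw [if_neg (by linarith)]); (try push_cast); (try ring1))
theorem kcl8 {p x : ℝ} (h1 : -4 / 25 ≤ p) (h2 : p ≤ -2 / 25) : kcg.v p x = (417 / 156250 + (x - 237 / 260) * (45459 / 15625)) + (256087 / 100000 + (x - 237 / 260) * (1277137 / 10000)) * p + (417 / 1000 + (x - 237 / 260) * (45459 / 100)) * p ^ 2 := by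
  simp only [kcg, kcg_3, kcg_6, kcg_9, kcg_12, kcg_13, kcg_18, kcg_27, kcg_35, kcg_40, kcg_49, kcg_57, kcg_58, kcg_62, kcg_71, kcg_78, kcg_79, kcg_82, kcg_91, kcg_96, kcg_99, kcg_109, kcg_119, kcg_122, kcg_123, kcg_126, kcg_135, kcg_140, kcg_143, kcg_157, kcg_158, kcg_162, kcg_171, kcg_181, kcg_185, kcg_197, kcg_202, kcg_205, kcg_212, kcg_213, kcg_214, kcg_235, kcg_246, kcg_269, kcg_270, kcg_290]
  rcases eq_or_lt_of_le h1 with h | h1
  · subst h
    ((try push_cast); (repeat first | rw [if_pos (by linarith)] | rw [if_neg (by linarith)] | erw [if_pos (by linarith)] | erw [if_neg (by linarith)]); (try push_cast); (try ring1))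
  rcases eq_or_lt_of_le h2 with h | h2
  · subst h
    ((try push_cast); (repeat first | rw [if_pos (by linarith)] | rw [if_neg (by linarith)] | erw [if_pos (by linarith)] | erw [if_neg (by linarith)]); (try push_cast); (try ring1))
  · ((try push_cast); (repeat first | rw [if_pos (by linarith)] | rw [if_neg (by linarith)] | erw [if_pos (by linarith)] | erw [if_neg (by linarith)]); (try push_cast); (try ring1))
theorem kcl9 {p x : ℝ} (h1 : -2 / 25 ≤ p) (h2 : p ≤ 2 / 25) : kcg.v p x = (0) + (49883 / 20000 + (x - 237 / 260) * (549793 / 10000)) * p := by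
  simp only [kcg, kcg_3, kcg_6, kcg_9, kcg_12, kcg_13, kcg_18, kcg_27, kcg_35, kcg_40, kcg_49, kcg_57, kcg_58, kcg_62, kcg_71, kcg_78, kcg_79, kcg_82, kcg_91, kcg_96, kcg_99, kcg_109, kcg_119, kcg_122, kcg_123, kcg_126, kcg_135, kcg_140, kcg_143, kcg_157, kcg_158, kcg_162, kcg_171, kcg_181, kcg_185, kcg_197, kcg_202, kcg_205, kcg_212, kcg_213, kcg_214, kcg_235, kcg_246, kcg_269, kcg_270, kcg_290]
  rcases eq_or_lt_of_le h1 with h | h1
  · subst h
    ((try push_cast); (repeat first | rw [if_pos (by linarith)] | rw [if_neg (by linarith)] | erw [if_pos (by linarith)] | erw [if_neg (by linarith)]); (try push_cast); (try ring1))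
  rcases eq_or_lt_of_le h2 with h | h2
  · subst h
    ((try push_cast); (repeat first | rw [if_pos (by linarith)] | rw [if_neg (by linarith)] | erw [if_pos (by linarith)] | erw [if_neg (by linarith)]); (try push_cast); (try ring1))
  rcases lt_trichotomy p 0 with h | h | h
  · ((try push_cast); (repeat first | rw [if_pos (by linarith)] | rw [if_neg (by linarith)] | erw [if_pos (by linarith)] | erw [if_neg (by linarith)]); (try push_cast); (try ring1))
  · subst h
    ((try push_cast); (repeat first | rw [if_pos (by linarith)] | rw [if_neg (by linarith)] | erw [if_pos (by linarith)] | erw [if_neg (by linarith)]); (try push_cast); (try ring1))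
  · ((try push_cast); (repeat first | rw [if_pos (by linarith)] | rw [if_neg (by linarith)] | erw [if_pos (by linarith)] | erw [if_neg (by linarith)]); (try push_cast); (try ring1))
theorem kcl10 {p x : ℝ} (h1 : 2 / 25 ≤ p) (h2 : p ≤ 4 / 25) : kcg.v p x = (-417 / 156250 + (x - 237 / 260) * (-45459 / 15625)) + (256087 / 100000 + (x - 237 / 260) * (1277137 / 10000)) * p + (-417 / 1000 + (x - 237 / 260) * (-45459 / 100)) * p ^ 2 := by
  simp only [kcg, kcg_3, kcg_6, kcg_9, kcg_12, kcg_13, kcg_18, kcg_27, kcg_35, kcg_40, kcg_49, kcg_57, kcg_58, kcg_62, kcg_71, kcg_78, kcg_79, kcg_82, kcg_91, kcg_96, kcg_99, kcg_109, kcg_119, kcg_122, kcg_123, kcg_126, kcg_135, kcg_140, kcg_143, kcg_157, kcg_158, kcg_162, kcg_171, kcg_181, kcg_185, kcg_197, kcg_202, kcg_205, kcg_212, kcg_213, kcg_214, kcg_235, kcg_246, kcg_269, kcg_270, kcg_290]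
  rcases eq_or_lt_of_le h1 with h | h1
  · subst h
    ((try push_cast); (repeat first | rw [if_pos (by linarith)] | rw [if_neg (by linarith)] | erw [if_pos (by linarith)] | erw [if_neg (by linarith)]); (try push_cast); (try ring1))
  rcases eq_or_lt_of_le h2 with h | h2
  · subst h
    ((try push_cast); (repeat first | rw [if_pos (by linarith)] | rw [if_neg (by linarith)] | erw [if_pos (by linarith)] | erw [if_neg (by linarith)]); (try push_cast); (try ring1))
  · ((try push_cast); (repeat first | rw [if_pos (by linarith)] | rw [if_neg (by linarith)] | erw [if_pos (by linarith)] | erw [if_neg (by linarith)]); (try push_cast); (try ring1))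
theorem kcl11 {p x : ℝ} (h1 : 4 / 25 ≤ p) (h2 : p ≤ 6 / 25) : kcg.v p x = (1251 / 156250 + (x - 237 / 260) * (42741 / 15625)) + (242743 / 100000 + (x - 237 / 260) * (571537 / 10000)) * p + (0 + (x - 237 / 260) * (-23409 / 100)) * p ^ 2 := by
  simp only [kcg, kcg_3, kcg_6, kcg_9, kcg_12, kcg_13, kcg_18, kcg_27, kcg_35, kcg_40, kcg_49, kcg_57, kcg_58, kcg_62, kcg_71, kcg_78, kcg_79, kcg_82, kcg_91, kcg_96, kcg_99, kcg_109, kcg_119, kcg_122, kcg_123, kcg_126, kcg_135, kcg_140, kcg_143, kcg_157, kcg_158, kcg_162, kcg_171, kcg_181, kcg_185, kcg_197, kcg_202, kcg_205, kcg_212, kcg_213, kcg_214, kcg_235, kcg_246, kcg_269, kcg_270, kcg_290]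
  rcases eq_or_lt_of_le h1 with h | h1
  · subst h
    ((try push_cast); (repeat first | rw [if_pos (by linarith)] | rw [if_neg (by linarith)] | erw [if_pos (by linarith)] | erw [if_neg (by linarith)]); (try push_cast); (try ring1))
  rcases eq_or_lt_of_le h2 with h | h2
  · subst h
    ((try push_cast); (repeat first | rw [if_pos (by linarith)] | rw [if_neg (by linarith)] | erw [if_pos (by linarith)] | erw [if_neg (by linarith)]); (try push_cast); (try ring1))
  · ((try push_cast); (repeat first | rw [if_pos (by linarith)] | rw [if_neg (by linarith)] | erw [if_pos (by linarith)] | erw [if_neg (by linarith)]); (try push_cast); (try ring1))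
theorem kcl12 {p x : ℝ} (h1 : 6 / 25 ≤ p) (h2 : p ≤ 7 / 25) : kcg.v p x = (199953 / 312500 + (x - 237 / 260) * (253422 / 15625)) + (-283793 / 100000 + (x - 237 / 260) * (-110419 / 2000)) * p + (21939 / 2000) * p ^ 2 := by
  simp only [kcg, kcg_3, kcg_6, kcg_9, kcg_12, kcg_13, kcg_18, kcg_27, kcg_35, kcg_40, kcg_49, kcg_57, kcg_58, kcg_62, kcg_71, kcg_78, kcg_79, kcg_82, kcg_91, kcg_96, kcg_99, kcg_109, kcg_119, kcg_122, kcg_123, kcg_126, kcg_135, kcg_140, kcg_143, kcg_157, kcg_158, kcg_162, kcg_171, kcg_181, kcg_185, kcg_197, kcg_202, kcg_205, kcg_212, kcg_213, kcg_214, kcg_235, kcg_246, kcg_269, kcg_270, kcg_290]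
  rcases eq_or_lt_of_le h1 with h | h1
  · subst h
    ((try push_cast); (repeat first | rw [if_pos (by linarith)] | rw [if_neg (by linarith)] | erw [if_pos (by linarith)] | erw [if_neg (by linarith)]); (try push_cast); (try ring1))
  rcases eq_or_lt_of_le h2 with h | h2
  · subst h
    ((try push_cast); (repeat first | rw [if_pos (by linarith)] | rw [if_neg (by linarith)] | erw [if_pos (by linarith)] | erw [if_neg (by linarith)]); (try push_cast); (try ring1))
  · ((try push_cast); (repeat first | rw [if_pos (by linarith)] | rw [if_neg (by linarith)] | erw [if_pos (by linarith)] | erw [if_neg (by linarith)]); (try push_cast); (try ring1))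
theorem kcl13 {p x : ℝ} (h1 : 7 / 25 ≤ p) (h2 : p ≤ 31 / 100) : kcg.v p x = (199953 / 312500 + (x - 237 / 260) * (2027621 / 125000)) + (-283793 / 100000 + (x - 237 / 260) * (-110447 / 2000)) * p + (21939 / 2000 + (x - 237 / 260) * (1 / 40)) * p ^ 2 := by
  simp only [kcg, kcg_3, kcg_6, kcg_9, kcg_12, kcg_13, kcg_18, kcg_27, kcg_35, kcg_40, kcg_49, kcg_57, kcg_58, kcg_62, kcg_71, kcg_78, kcg_79, kcg_82, kcg_91, kcg_96, kcg_99, kcg_109, kcg_119, kcg_122, kcg_123, kcg_126, kcg_135, kcg_140, kcg_143, kcg_157, kcg_158, kcg_162, kcg_171, kcg_181, kcg_185, kcg_197, kcg_202, kcg_205, kcg_212, kcg_213, kcg_214, kcg_235, kcg_246, kcg_269, kcg_270, kcg_290]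
  rcases eq_or_lt_of_le h1 with h | h1
  · subst h
    ((try push_cast); (repeat first | rw [if_pos (by linarith)] | rw [if_neg (by linarith)] | erw [if_pos (by linarith)] | erw [if_neg (by linarith)]); (try push_cast); (try ring1))
  rcases eq_or_lt_of_le h2 with h | h2
  · subst h
    ((try push_cast); (repeat first | rw [if_pos (by linarith)] | rw [if_neg (by linarith)] | erw [if_pos (by linarith)] | erw [if_neg (by linarith)]); (try push_cast); (try ring1))
  · ((try push_cast); (repeat first | rw [if_pos (by linarith)] | rw [if_neg (by linarith)] | erw [if_pos (by linarith)] | erw [if_neg (by linarith)]); (try push_cast); (try ring1))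
theorem kcl14 {p x : ℝ} (h1 : 31 / 100 ≤ p) (h2 : p ≤ 61 / 182) : kcg.v p x = (6666912861909 / 10419500000000 + (x - 237 / 260) * (150914633759 / 9303125000)) + (-295698114889 / 104195000000 + (x - 237 / 260) * (-20552352181 / 372125000)) * p + (21939 / 2000 + (x - 237 / 260) * (7 / 200)) * p ^ 2 := by
  simp only [kcg, kcg_3, kcg_6, kcg_9, kcg_12, kcg_13, kcg_18, kcg_27, kcg_35, kcg_40, kcg_49, kcg_57, kcg_58, kcg_62, kcg_71, kcg_78, kcg_79, kcg_82, kcg_91, kcg_96, kcg_99, kcg_109, kcg_119, kcg_122, kcg_123, kcg_126, kcg_135, kcg_140, kcg_143, kcg_157, kcg_158, kcg_162, kcg_171, kcg_181, kcg_185, kcg_197, kcg_202, kcg_205, kcg_212, kcg_213, kcg_214, kcg_235, kcg_246, kcg_269, kcg_270, kcg_290]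
  rcases eq_or_lt_of_le h1 with h | h1
  · subst h
    ((try push_cast); (repeat first | rw [if_pos (by linarith)] | rw [if_neg (by linarith)] | erw [if_pos (by linarith)] | erw [if_neg (by linarith)]); (try push_cast); (try ring1))
  rcases eq_or_lt_of_le h2 with h | h2
  · subst h
    ((try push_cast); (repeat first | rw [if_pos (by linarith)] | rw [if_neg (by linarith)] | erw [if_pos (by linarith)] | erw [if_neg (by linarith)]); (try push_cast); (try ring1))
  · ((try push_cast); (repeat first | rw [if_pos (by linarith)] | rw [if_neg (by linarith)] | erw [if_pos (by linarith)] | erw [if_neg (by linarith)]); (try push_cast); (try ring1))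
theorem kcl15 {p x : ℝ} (h1 : 61 / 182 ≤ p) (h2 : p ≤ 107 / 254) : kcg.v p x = (-31412267338318817 / 22998430000000000 + (x - 237 / 260) * (289235272426056441 / 2299843000000000)) + (104993250119466187 / 11499215000000000 + (x - 237 / 260) * (-815162010198410351 / 1149921500000000)) * p + (-1377 / 200 + (x - 237 / 260) * (24379 / 25)) * p ^ 2 := by
  simp only [kcg, kcg_3, kcg_6, kcg_9, kcg_12, kcg_13, kcg_18, kcg_27, kcg_35, kcg_40, kcg_49, kcg_57, kcg_58, kcg_62, kcg_71, kcg_78, kcg_79, kcg_82, kcg_91, kcg_96, kcg_99, kcg_109, kcg_119, kcg_122, kcg_123, kcg_126, kcg_135, kcg_140, kcg_143, kcg_157, kcg_158, kcg_162, kcg_171, kcg_181, kcg_185, kcg_197, kcg_202, kcg_205, kcg_212, kcg_213, kcg_214, kcg_235, kcg_246, kcg_269, kcg_270, kcg_290]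
  rcases eq_or_lt_of_le h1 with h | h1
  · subst h
    ((try push_cast); (repeat first | rw [if_pos (by linarith)] | rw [if_neg (by linarith)] | erw [if_pos (by linarith)] | erw [if_neg (by linarith)]); (try push_cast); (try ring1))
  rcases eq_or_lt_of_le h2 with h | h2
  · subst h
    ((try push_cast); (repeat first | rw [if_pos (by linarith)] | rw [if_neg (by linarith)] | erw [if_pos (by linarith)] | erw [if_neg (by linarith)]); (try push_cast); (try ring1))
  · ((try push_cast); (repeat first | rw [if_pos (by linarith)] | rw [if_neg (by linarith)] | erw [if_pos (by linarith)] | erw [if_neg (by linarith)]); (try push_cast); (try ring1))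
theorem kcl16 {p x : ℝ} (h1 : 107 / 254 ≤ p) (h2 : p ≤ 9 / 20) : kcg.v p x = (-28763277474803 / 1854200000000 + (x - 237 / 260) * (-18691234476763 / 37084000000)) + (35366099514689 / 463550000000 + (x - 237 / 260) * (105741929046277 / 46355000000)) * p + (-34641 / 400 + (x - 237 / 260) * (-128687 / 50)) * p ^ 2 := by
  simp only [kcg, kcg_3, kcg_6, kcg_9, kcg_12, kcg_13, kcg_18, kcg_27, kcg_35, kcg_40, kcg_49, kcg_57, kcg_58, kcg_62, kcg_71, kcg_78, kcg_79, kcg_82, kcg_91, kcg_96, kcg_99, kcg_109, kcg_119, kcg_122, kcg_123, kcg_126, kcg_135, kcg_140, kcg_143, kcg_157, kcg_158, kcg_162, kcg_171, kcg_181, kcg_185, kcg_197, kcg_202, kcg_205, kcg_212, kcg_213, kcg_214, kcg_235, kcg_246, kcg_269, kcg_270, kcg_290]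
  rcases eq_or_lt_of_le h1 with h | h1
  · subst h
    ((try push_cast); (repeat first | rw [if_pos (by linarith)] | rw [if_neg (by linarith)] | erw [if_pos (by linarith)] | erw [if_neg (by linarith)]); (try push_cast); (try ring1))
  rcases eq_or_lt_of_le h2 with h | h2
  · subst h
    ((try push_cast); (repeat first | rw [if_pos (by linarith)] | rw [if_neg (by linarith)] | erw [if_pos (by linarith)] | erw [if_neg (by linarith)]); (try push_cast); (try ring1))
  · ((try push_cast); (repeat first | rw [if_pos (by linarith)] | rw [if_neg (by linarith)] | erw [if_pos (by linarith)] | erw [if_neg (by linarith)]); (try push_cast); (try ring1))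
theorem kcl17 {p x : ℝ} (h1 : 9 / 20 ≤ p) (h2 : p ≤ 93 / 200) : kcg.v p x = (-9974732479 / 1000000000 + (x - 237 / 260) * (77709505943 / 100000000)) + (516817341 / 10000000 + (x - 237 / 260) * (-10238190929 / 3000000)) * p + (-118511 / 2000 + (x - 237 / 260) * (150111 / 40)) * p ^ 2 := by
  simp only [kcg, kcg_3, kcg_6, kcg_9, kcg_12, kcg_13, kcg_18, kcg_27, kcg_35, kcg_40, kcg_49, kcg_57, kcg_58, kcg_62, kcg_71, kcg_78, kcg_79, kcg_82, kcg_91, kcg_96, kcg_99, kcg_109, kcg_119, kcg_122, kcg_123, kcg_126, kcg_135, kcg_140, kcg_143, kcg_157, kcg_158, kcg_162, kcg_171, kcg_181, kcg_185, kcg_197, kcg_202, kcg_205, kcg_212, kcg_213, kcg_214, kcg_235, kcg_246, kcg_269, kcg_270, kcg_290]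
  rcases eq_or_lt_of_le h1 with h | h1
  · subst h
    ((try push_cast); (repeat first | rw [if_pos (by linarith)] | rw [if_neg (by linarith)] | erw [if_pos (by linarith)] | erw [if_neg (by linarith)]); (try push_cast); (try ring1))
  rcases eq_or_lt_of_le h2 with h | h2
  · subst h
    ((try push_cast); (repeat first | rw [if_pos (by linarith)] | rw [if_neg (by linarith)] | erw [if_pos (by linarith)] | erw [if_neg (by linarith)]); (try push_cast); (try ring1))
  · ((try push_cast); (repeat first | rw [if_pos (by linarith)] | rw [if_neg (by linarith)] | erw [if_pos (by linarith)] | erw [if_neg (by linarith)]); (try push_cast); (try ring1))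
theorem kcl18 {p x : ℝ} (h1 : 93 / 200 ≤ p) (h2 : p ≤ 1 / 2) : kcg.v p x = (-22242972557 / 1400000000 + (x - 237 / 260) * (-2404183013 / 70000000)) + (1079602217 / 14000000 + (x - 237 / 260) * (541355433 / 7000000)) * p + (-34641 / 400 + (x - 237 / 260) * (3 / 200)) * p ^ 2 := by
  simp only [kcg, kcg_3, kcg_6, kcg_9, kcg_12, kcg_13, kcg_18, kcg_27, kcg_35, kcg_40, kcg_49, kcg_57, kcg_58, kcg_62, kcg_71, kcg_78, kcg_79, kcg_82, kcg_91, kcg_96, kcg_99, kcg_109, kcg_119, kcg_122, kcg_123, kcg_126, kcg_135, kcg_140, kcg_143, kcg_157, kcg_158, kcg_162, kcg_171, kcg_181, kcg_185, kcg_197, kcg_202, kcg_205, kcg_212, kcg_213, kcg_214, kcg_235, kcg_246, kcg_269, kcg_270, kcg_290]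
  rcases eq_or_lt_of_le h1 with h | h1
  · subst h
    ((try push_cast); (repeat first | rw [if_pos (by linarith)] | rw [if_neg (by linarith)] | erw [if_pos (by linarith)] | erw [if_neg (by linarith)]); (try push_cast); (try ring1))
  rcases eq_or_lt_of_le h2 with h | h2
  · subst h
    ((try push_cast); (repeat first | rw [if_pos (by linarith)] | rw [if_neg (by linarith)] | erw [if_pos (by linarith)] | erw [if_neg (by linarith)]); (try push_cast); (try ring1))
  · ((try push_cast); (repeat first | rw [if_pos (by linarith)] | rw [if_neg (by linarith)] | erw [if_pos (by linarith)] | erw [if_neg (by linarith)]); (try push_cast); (try ring1))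
theorem kvh0 {p x : ℝ} (h2 : p ≤ -93 / 200) : dt37.kv p x = (22242972557 / 1400000000 + (x - 237 / 260) * (2404183013 / 70000000)) + (1079602217 / 14000000 + (x - 237 / 260) * (541355433 / 7000000)) * p + (34641 / 400 + (x - 237 / 260) * (-3 / 200)) * p ^ 2 := by
  refine (DT.kv_le (by simp only [Cn.rt_v, Cn.ng_v]; push_cast; linarith)).trans ?_
  refine (DT.kv_le (by simp only [Cn.rt_v, Cn.ng_v]; push_cast; linarith)).trans ?_
  refine (DT.kv_le (by simp only [Cn.rt_v, Cn.ng_v]; push_cast; linarith)).trans ?_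
  refine (DT.kv_le (by simp only [Cn.rt_v, Cn.ng_v]; push_cast; linarith)).trans ?_
  simp only [dt1, DT.kv, sw1, sl1, sv1]
  ((try push_cast); ring1)
theorem kvh1 {p x : ℝ} (h1 : -93 / 200 < p) (h2 : p ≤ -9 / 20) : dt37.kv p x = (9974732479 / 1000000000 + (x - 237 / 260) * (-77709505943 / 100000000)) + (516817341 / 10000000 + (x - 237 / 260) * (-10238190929 / 3000000)) * p + (118511 / 2000 + (x - 237 / 260) * (-150111 / 40)) * p ^ 2 := by
  refine (DT.kv_le (by simp only [Cn.rt_v, Cn.ng_v]; push_cast; linarith)).trans ?_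
  refine (DT.kv_le (by simp only [Cn.rt_v, Cn.ng_v]; push_cast; linarith)).trans ?_
  refine (DT.kv_le (by simp only [Cn.rt_v, Cn.ng_v]; push_cast; linarith)).trans ?_
  refine (DT.kv_gt (by simp only [Cn.rt_v, Cn.ng_v]; push_cast; linarith)).trans ?_
  simp only [dt2, DT.kv, sw2, sl2, sv2]
  ((try push_cast); ring1)
theorem kvh2 {p x : ℝ} (h1 : -9 / 20 < p) (h2 : p ≤ -107 / 254) : dt37.kv p x = (28763277474803 / 1854200000000 + (x - 237 / 260) * (18691234476763 / 37084000000)) + (35366099514689 / 463550000000 + (x - 237 / 260) * (105741929046277 / 46355000000)) * p + (34641 / 400 + (x - 237 / 260) * (128687 / 50)) * p ^ 2 := by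
  refine (DT.kv_le (by simp only [Cn.rt_v, Cn.ng_v]; push_cast; linarith)).trans ?_
  refine (DT.kv_le (by simp only [Cn.rt_v, Cn.ng_v]; push_cast; linarith)).trans ?_
  refine (DT.kv_gt (by simp only [Cn.rt_v, Cn.ng_v]; push_cast; linarith)).trans ?_
  refine (DT.kv_le (by simp only [Cn.rt_v, Cn.ng_v]; push_cast; linarith)).trans ?_
  simp only [dt3, DT.kv, sw3, sl3, sv3]
  ((try push_cast); ring1)
theorem kvh3 {p x : ℝ} (h1 : -107 / 254 < p) (h2 : p ≤ -61 / 182) : dt37.kv p x = (31412267338318817 / 22998430000000000 + (x - 237 / 260) * (-289235272426056441 / 2299843000000000)) + (104993250119466187 / 11499215000000000 + (x - 237 / 260) * (-815162010198410351 / 1149921500000000)) * p + (1377 / 200 + (x - 237 / 260) * (-24379 / 25)) * p ^ 2 := by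
  refine (DT.kv_le (by simp only [Cn.rt_v, Cn.ng_v]; push_cast; linarith)).trans ?_
  refine (DT.kv_le (by simp only [Cn.rt_v, Cn.ng_v]; push_cast; linarith)).trans ?_
  refine (DT.kv_gt (by simp only [Cn.rt_v, Cn.ng_v]; push_cast; linarith)).trans ?_
  refine (DT.kv_gt (by simp only [Cn.rt_v, Cn.ng_v]; push_cast; linarith)).trans ?_
  simp only [dt4, DT.kv, sw4, sl4, sv4]
  ((try push_cast); ring1)
theorem kvh4 {p x : ℝ} (h1 : -61 / 182 < p) (h2 : p ≤ -31 / 100) : dt37.kv p x = (-6666912861909 / 10419500000000 + (x - 237 / 260) * (-150914633759 / 9303125000)) + (-295698114889 / 104195000000 + (x - 237 / 260) * (-20552352181 / 372125000)) * p + (-21939 / 2000 + (x - 237 / 260) * (-7 / 200)) * p ^ 2 := by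
  refine (DT.kv_le (by simp only [Cn.rt_v, Cn.ng_v]; push_cast; linarith)).trans ?_
  refine (DT.kv_gt (by simp only [Cn.rt_v, Cn.ng_v]; push_cast; linarith)).trans ?_
  refine (DT.kv_le (by simp only [Cn.rt_v, Cn.ng_v]; push_cast; linarith)).trans ?_
  refine (DT.kv_le (by simp only [Cn.rt_v, Cn.ng_v]; push_cast; linarith)).trans ?_
  simp only [dt5, DT.kv, sw5, sl5, sv5]
  ((try push_cast); ring1)
theorem kvh5 {p x : ℝ} (h1 : -31 / 100 < p) (h2 : p ≤ -7 / 25) : dt37.kv p x = (-199953 / 312500 + (x - 237 / 260) * (-2027621 / 125000)) + (-283793 / 100000 + (x - 237 / 260) * (-110447 / 2000)) * p + (-21939 / 2000 + (x - 237 / 260) * (-1 / 40)) * p ^ 2 := by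
  refine (DT.kv_le (by simp only [Cn.rt_v, Cn.ng_v]; push_cast; linarith)).trans ?_
  refine (DT.kv_gt (by simp only [Cn.rt_v, Cn.ng_v]; push_cast; linarith)).trans ?_
  refine (DT.kv_le (by simp only [Cn.rt_v, Cn.ng_v]; push_cast; linarith)).trans ?_
  refine (DT.kv_gt (by simp only [Cn.rt_v, Cn.ng_v]; push_cast; linarith)).trans ?_
  simp only [dt6, DT.kv, sw6, sl6, sv6]
  ((try push_cast); ring1)
theorem kvh6 {p x : ℝ} (h1 : -7 / 25 < p) (h2 : p ≤ -6 / 25) : dt37.kv p x = (-199953 / 312500 + (x - 237 / 260) * (-253422 / 15625)) + (-283793 / 100000 + (x - 237 / 260) * (-110419 / 2000)) * p + (-21939 / 2000) * p ^ 2 := by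
  refine (DT.kv_le (by simp only [Cn.rt_v, Cn.ng_v]; push_cast; linarith)).trans ?_
  refine (DT.kv_gt (by simp only [Cn.rt_v, Cn.ng_v]; push_cast; linarith)).trans ?_
  refine (DT.kv_gt (by simp only [Cn.rt_v, Cn.ng_v]; push_cast; linarith)).trans ?_
  refine (DT.kv_le (by simp only [Cn.rt_v, Cn.ng_v]; push_cast; linarith)).trans ?_
  simp only [dt7, DT.kv, sw7, sl7, sv7]
  ((try push_cast); ring1)
theorem kvh7 {p x : ℝ} (h1 : -6 / 25 < p) (h2 : p ≤ -4 / 25) : dt37.kv p x = (-1251 / 156250 + (x - 237 / 260) * (-42741 / 15625)) + (242743 / 100000 + (x - 237 / 260) * (571537 / 10000)) * p + (0 + (x - 237 / 260) * (23409 / 100)) * p ^ 2 := by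
  refine (DT.kv_le (by simp only [Cn.rt_v, Cn.ng_v]; push_cast; linarith)).trans ?_
  refine (DT.kv_gt (by simp only [Cn.rt_v, Cn.ng_v]; push_cast; linarith)).trans ?_
  refine (DT.kv_gt (by simp only [Cn.rt_v, Cn.ng_v]; push_cast; linarith)).trans ?_
  refine (DT.kv_gt (by simp only [Cn.rt_v, Cn.ng_v]; push_cast; linarith)).trans ?_
  refine (DT.kv_le (by simp only [Cn.rt_v, Cn.ng_v]; push_cast; linarith)).trans ?_
  simp only [dt8, DT.kv, sw8, sl8, sv8]
  ((try push_cast); ring1)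
theorem kvh8 {p x : ℝ} (h1 : -4 / 25 < p) (h2 : p ≤ -2 / 25) : dt37.kv p x = (417 / 156250 + (x - 237 / 260) * (45459 / 15625)) + (256087 / 100000 + (x - 237 / 260) * (1277137 / 10000)) * p + (417 / 1000 + (x - 237 / 260) * (45459 / 100)) * p ^ 2 := by
  refine (DT.kv_le (by simp only [Cn.rt_v, Cn.ng_v]; push_cast; linarith)).trans ?_
  refine (DT.kv_gt (by simp only [Cn.rt_v, Cn.ng_v]; push_cast; linarith)).trans ?_
  refine (DT.kv_gt (by simp only [Cn.rt_v, Cn.ng_v]; push_cast; linarith)).trans ?_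
  refine (DT.kv_gt (by simp only [Cn.rt_v, Cn.ng_v]; push_cast; linarith)).trans ?_
  refine (DT.kv_gt (by simp only [Cn.rt_v, Cn.ng_v]; push_cast; linarith)).trans ?_
  simp only [dt9, DT.kv, sw9, sl9, sv9]
  ((try push_cast); ring1)
theorem kvh9 {p x : ℝ} (h1 : -2 / 25 < p) (h2 : p ≤ 2 / 25) : dt37.kv p x = (0) + (49883 / 20000 + (x - 237 / 260) * (549793 / 10000)) * p := by
  refine (DT.kv_gt (by simp only [Cn.rt_v, Cn.ng_v]; push_cast; linarith)).trans ?_
  refine (DT.kv_le (by simp only [Cn.rt_v, Cn.ng_v]; push_cast; linarith)).trans ?_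
  refine (DT.kv_le (by simp only [Cn.rt_v, Cn.ng_v]; push_cast; linarith)).trans ?_
  refine (DT.kv_le (by simp only [Cn.rt_v, Cn.ng_v]; push_cast; linarith)).trans ?_
  simp only [dt10, DT.kv, sl10, sv10]
  ((try push_cast); ring1)
theorem kvh10 {p x : ℝ} (h1 : 2 / 25 < p) (h2 : p ≤ 4 / 25) : dt37.kv p x = (-417 / 156250 + (x - 237 / 260) * (-45459 / 15625)) + (256087 / 100000 + (x - 237 / 260) * (1277137 / 10000)) * p + (-417 / 1000 + (x - 237 / 260) * (-45459 / 100)) * p ^ 2 := by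
  refine (DT.kv_gt (by simp only [Cn.rt_v, Cn.ng_v]; push_cast; linarith)).trans ?_
  refine (DT.kv_le (by simp only [Cn.rt_v, Cn.ng_v]; push_cast; linarith)).trans ?_
  refine (DT.kv_le (by simp only [Cn.rt_v, Cn.ng_v]; push_cast; linarith)).trans ?_
  refine (DT.kv_gt (by simp only [Cn.rt_v, Cn.ng_v]; push_cast; linarith)).trans ?_
  simp only [dt11, DT.kv, sw11, sl11, sv11]
  ((try push_cast); ring1)
theorem kvh11 {p x : ℝ} (h1 : 4 / 25 < p) (h2 : p ≤ 6 / 25) : dt37.kv p x = (1251 / 156250 + (x - 237 / 260) * (42741 / 15625)) + (242743 / 100000 + (x - 237 / 260) * (571537 / 10000)) * p + (0 + (x - 237 / 260) * (-23409 / 100)) * p ^ 2 := by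
  refine (DT.kv_gt (by simp only [Cn.rt_v, Cn.ng_v]; push_cast; linarith)).trans ?_
  refine (DT.kv_le (by simp only [Cn.rt_v, Cn.ng_v]; push_cast; linarith)).trans ?_
  refine (DT.kv_gt (by simp only [Cn.rt_v, Cn.ng_v]; push_cast; linarith)).trans ?_
  refine (DT.kv_le (by simp only [Cn.rt_v, Cn.ng_v]; push_cast; linarith)).trans ?_
  simp only [dt12, DT.kv, sw12, sl12, sv12]
  ((try push_cast); ring1)
theorem kvh12 {p x : ℝ} (h1 : 6 / 25 < p) (h2 : p ≤ 7 / 25) : dt37.kv p x = (199953 / 312500 + (x - 237 / 260) * (253422 / 15625)) + (-283793 / 100000 + (x - 237 / 260) * (-110419 / 2000)) * p + (21939 / 2000) * p ^ 2 := by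
  refine (DT.kv_gt (by simp only [Cn.rt_v, Cn.ng_v]; push_cast; linarith)).trans ?_
  refine (DT.kv_le (by simp only [Cn.rt_v, Cn.ng_v]; push_cast; linarith)).trans ?_
  refine (DT.kv_gt (by simp only [Cn.rt_v, Cn.ng_v]; push_cast; linarith)).trans ?_
  refine (DT.kv_gt (by simp only [Cn.rt_v, Cn.ng_v]; push_cast; linarith)).trans ?_
  refine (DT.kv_le (by simp only [Cn.rt_v, Cn.ng_v]; push_cast; linarith)).trans ?_
  simp only [dt13, DT.kv, sw13, sl13, sv13]
  ((try push_cast); ring1)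
theorem kvh13 {p x : ℝ} (h1 : 7 / 25 < p) (h2 : p ≤ 31 / 100) : dt37.kv p x = (199953 / 312500 + (x - 237 / 260) * (2027621 / 125000)) + (-283793 / 100000 + (x - 237 / 260) * (-110447 / 2000)) * p + (21939 / 2000 + (x - 237 / 260) * (1 / 40)) * p ^ 2 := by
  refine (DT.kv_gt (by simp only [Cn.rt_v, Cn.ng_v]; push_cast; linarith)).trans ?_
  refine (DT.kv_le (by simp only [Cn.rt_v, Cn.ng_v]; push_cast; linarith)).trans ?_
  refine (DT.kv_gt (by simp only [Cn.rt_v, Cn.ng_v]; push_cast; linarith)).trans ?_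
  refine (DT.kv_gt (by simp only [Cn.rt_v, Cn.ng_v]; push_cast; linarith)).trans ?_
  refine (DT.kv_gt (by simp only [Cn.rt_v, Cn.ng_v]; push_cast; linarith)).trans ?_
  simp only [dt14, DT.kv, sw14, sl14, sv14]
  ((try push_cast); ring1)
theorem kvh14 {p x : ℝ} (h1 : 31 / 100 < p) (h2 : p ≤ 61 / 182) : dt37.kv p x = (6666912861909 / 10419500000000 + (x - 237 / 260) * (150914633759 / 9303125000)) + (-295698114889 / 104195000000 + (x - 237 / 260) * (-20552352181 / 372125000)) * p + (21939 / 2000 + (x - 237 / 260) * (7 / 200)) * p ^ 2 := by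
  refine (DT.kv_gt (by simp only [Cn.rt_v, Cn.ng_v]; push_cast; linarith)).trans ?_
  refine (DT.kv_gt (by simp only [Cn.rt_v, Cn.ng_v]; push_cast; linarith)).trans ?_
  refine (DT.kv_le (by simp only [Cn.rt_v, Cn.ng_v]; push_cast; linarith)).trans ?_
  refine (DT.kv_le (by simp only [Cn.rt_v, Cn.ng_v]; push_cast; linarith)).trans ?_
  simp only [dt15, DT.kv, sw15, sl15, sv15]
  ((try push_cast); ring1)
theorem kvh15 {p x : ℝ} (h1 : 61 / 182 < p) (h2 : p ≤ 107 / 254) : dt37.kv p x = (-31412267338318817 / 22998430000000000 + (x - 237 / 260) * (289235272426056441 / 2299843000000000)) + (104993250119466187 / 11499215000000000 + (x - 237 / 260) * (-815162010198410351 / 1149921500000000)) * p + (-1377 / 200 + (x - 237 / 260) * (24379 / 25)) * p ^ 2 := by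
  refine (DT.kv_gt (by simp only [Cn.rt_v, Cn.ng_v]; push_cast; linarith)).trans ?_
  refine (DT.kv_gt (by simp only [Cn.rt_v, Cn.ng_v]; push_cast; linarith)).trans ?_
  refine (DT.kv_le (by simp only [Cn.rt_v, Cn.ng_v]; push_cast; linarith)).trans ?_
  refine (DT.kv_gt (by simp only [Cn.rt_v, Cn.ng_v]; push_cast; linarith)).trans ?_
  simp only [dt16, DT.kv, sw16, sl16, sv16]
  ((try push_cast); ring1)
theorem kvh16 {p x : ℝ} (h1 : 107 / 254 < p) (h2 : p ≤ 9 / 20) : dt37.kv p x = (-28763277474803 / 1854200000000 + (x - 237 / 260) * (-18691234476763 / 37084000000)) + (35366099514689 / 463550000000 + (x - 237 / 260) * (105741929046277 / 46355000000)) * p + (-34641 / 400 + (x - 237 / 260) * (-128687 / 50)) * p ^ 2 := by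
  refine (DT.kv_gt (by simp only [Cn.rt_v, Cn.ng_v]; push_cast; linarith)).trans ?_
  refine (DT.kv_gt (by simp only [Cn.rt_v, Cn.ng_v]; push_cast; linarith)).trans ?_
  refine (DT.kv_gt (by simp only [Cn.rt_v, Cn.ng_v]; push_cast; linarith)).trans ?_
  refine (DT.kv_le (by simp only [Cn.rt_v, Cn.ng_v]; push_cast; linarith)).trans ?_
  simp only [dt17, DT.kv, sw17, sl17, sv17]
  ((try push_cast); ring1)
theorem kvh17 {p x : ℝ} (h1 : 9 / 20 < p) (h2 : p ≤ 93 / 200) : dt37.kv p x = (-9974732479 / 1000000000 + (x - 237 / 260) * (77709505943 / 100000000)) + (516817341 / 10000000 + (x - 237 / 260) * (-10238190929 / 3000000)) * p + (-118511 / 2000 + (x - 237 / 260) * (150111 / 40)) * p ^ 2 := by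
  refine (DT.kv_gt (by simp only [Cn.rt_v, Cn.ng_v]; push_cast; linarith)).trans ?_
  refine (DT.kv_gt (by simp only [Cn.rt_v, Cn.ng_v]; push_cast; linarith)).trans ?_
  refine (DT.kv_gt (by simp only [Cn.rt_v, Cn.ng_v]; push_cast; linarith)).trans ?_
  refine (DT.kv_gt (by simp only [Cn.rt_v, Cn.ng_v]; push_cast; linarith)).trans ?_
  refine (DT.kv_le (by simp only [Cn.rt_v, Cn.ng_v]; push_cast; linarith)).trans ?_
  simp only [dt18, DT.kv, sw18, sl18, sv18]
  ((try push_cast); ring1)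
theorem kvh18 {p x : ℝ} (h1 : 93 / 200 < p) (h2 : p ≤ 1 / 2) : dt37.kv p x = (-22242972557 / 1400000000 + (x - 237 / 260) * (-2404183013 / 70000000)) + (1079602217 / 14000000 + (x - 237 / 260) * (541355433 / 7000000)) * p + (-34641 / 400 + (x - 237 / 260) * (3 / 200)) * p ^ 2 := by
  refine (DT.kv_gt (by simp only [Cn.rt_v, Cn.ng_v]; push_cast; linarith)).trans ?_
  refine (DT.kv_gt (by simp only [Cn.rt_v, Cn.ng_v]; push_cast; linarith)).trans ?_
  refine (DT.kv_gt (by simp only [Cn.rt_v, Cn.ng_v]; push_cast; linarith)).trans ?_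
  refine (DT.kv_gt (by simp only [Cn.rt_v, Cn.ng_v]; push_cast; linarith)).trans ?_
  refine (DT.kv_gt (by simp only [Cn.rt_v, Cn.ng_v]; push_cast; linarith)).trans ?_
  simp only [dt19, DT.kv, sw19, sl19, sv19]
  ((try push_cast); ring1)
theorem kvl0 {p x : ℝ} (h1 : -1 / 2 ≤ p) (h2 : p ≤ -93 / 200) : dt37.kv p x = (22242972557 / 1400000000 + (x - 237 / 260) * (2404183013 / 70000000)) + (1079602217 / 14000000 + (x - 237 / 260) * (541355433 / 7000000)) * p + (34641 / 400 + (x - 237 / 260) * (-3 / 200)) * p ^ 2 := by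
  exact kvh0 h2
theorem kvl1 {p x : ℝ} (h1 : -93 / 200 ≤ p) (h2 : p ≤ -9 / 20) : dt37.kv p x = (9974732479 / 1000000000 + (x - 237 / 260) * (-77709505943 / 100000000)) + (516817341 / 10000000 + (x - 237 / 260) * (-10238190929 / 3000000)) * p + (118511 / 2000 + (x - 237 / 260) * (-150111 / 40)) * p ^ 2 := by
  rcases eq_or_lt_of_le h1 with h | h1
  · subst h
    rw [kvh0 (by norm_num)]
    ring1
  · exact kvh1 h1 h2
theorem kvl2 {p x : ℝ} (h1 : -9 / 20 ≤ p) (h2 : p ≤ -107 / 254) : dt37.kv p x = (28763277474803 / 1854200000000 + (x - 237 / 260) * (18691234476763 / 37084000000)) + (35366099514689 / 463550000000 + (x - 237 / 260) * (105741929046277 / 46355000000)) * p + (34641 / 400 + (x - 237 / 260) * (128687 / 50)) * p ^ 2 := by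
  rcases eq_or_lt_of_le h1 with h | h1
  · subst h
    rw [kvh1 (by norm_num) (by norm_num)]
    ring1
  · exact kvh2 h1 h2
theorem kvl3 {p x : ℝ} (h1 : -107 / 254 ≤ p) (h2 : p ≤ -61 / 182) : dt37.kv p x = (31412267338318817 / 22998430000000000 + (x - 237 / 260) * (-289235272426056441 / 2299843000000000)) + (104993250119466187 / 11499215000000000 + (x - 237 / 260) * (-815162010198410351 / 1149921500000000)) * p + (1377 / 200 + (x - 237 / 260) * (-24379 / 25)) * p ^ 2 := by
  rcases eq_or_lt_of_le h1 with h | h1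
  · subst h
    rw [kvh2 (by norm_num) (by norm_num)]
    ring1
  · exact kvh3 h1 h2
theorem kvl4 {p x : ℝ} (h1 : -61 / 182 ≤ p) (h2 : p ≤ -31 / 100) : dt37.kv p x = (-6666912861909 / 10419500000000 + (x - 237 / 260) * (-150914633759 / 9303125000)) + (-295698114889 / 104195000000 + (x - 237 / 260) * (-20552352181 / 372125000)) * p + (-21939 / 2000 + (x - 237 / 260) * (-7 / 200)) * p ^ 2 := by
  rcases eq_or_lt_of_le h1 with h | h1
  · subst h
    rw [kvh3 (by norm_num) (by norm_num)]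
    ring1
  · exact kvh4 h1 h2
theorem kvl5 {p x : ℝ} (h1 : -31 / 100 ≤ p) (h2 : p ≤ -7 / 25) : dt37.kv p x = (-199953 / 312500 + (x - 237 / 260) * (-2027621 / 125000)) + (-283793 / 100000 + (x - 237 / 260) * (-110447 / 2000)) * p + (-21939 / 2000 + (x - 237 / 260) * (-1 / 40)) * p ^ 2 := by
  rcases eq_or_lt_of_le h1 with h | h1
  · subst h
    rw [kvh4 (by norm_num) (by norm_num)]
    ring1
  · exact kvh5 h1 h2
theorem kvl6 {p x : ℝ} (h1 : -7 / 25 ≤ p) (h2 : p ≤ -6 / 25) : dt37.kv p x = (-199953 / 312500 + (x - 237 / 260) * (-253422 / 15625)) + (-283793 / 100000 + (x - 237 / 260) * (-110419 / 2000)) * p + (-21939 / 2000) * p ^ 2 := by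
  rcases eq_or_lt_of_le h1 with h | h1
  · subst h
    rw [kvh5 (by norm_num) (by norm_num)]
    ring1
  · exact kvh6 h1 h2
theorem kvl7 {p x : ℝ} (h1 : -6 / 25 ≤ p) (h2 : p ≤ -4 / 25) : dt37.kv p x = (-1251 / 156250 + (x - 237 / 260) * (-42741 / 15625)) + (242743 / 100000 + (x - 237 / 260) * (571537 / 10000)) * p + (0 + (x - 237 / 260) * (23409 / 100)) * p ^ 2 := by
  rcases eq_or_lt_of_le h1 with h | h1
  · subst h
    rw [kvh6 (by norm_num) (by norm_num)]
    ring1
  · exact kvh7 h1 h2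
theorem kvl8 {p x : ℝ} (h1 : -4 / 25 ≤ p) (h2 : p ≤ -2 / 25) : dt37.kv p x = (417 / 156250 + (x - 237 / 260) * (45459 / 15625)) + (256087 / 100000 + (x - 237 / 260) * (1277137 / 10000)) * p + (417 / 1000 + (x - 237 / 260) * (45459 / 100)) * p ^ 2 := by
  rcases eq_or_lt_of_le h1 with h | h1
  · subst h
    rw [kvh7 (by norm_num) (by norm_num)]
    ring1
  · exact kvh8 h1 h2
theorem kvl9 {p x : ℝ} (h1 : -2 / 25 ≤ p) (h2 : p ≤ 2 / 25) : dt37.kv p x = (0) + (49883 / 20000 + (x - 237 / 260) * (549793 / 10000)) * p := by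
  rcases eq_or_lt_of_le h1 with h | h1
  · subst h
    rw [kvh8 (by norm_num) (by norm_num)]
    ring1
  · exact kvh9 h1 h2
theorem kvl10 {p x : ℝ} (h1 : 2 / 25 ≤ p) (h2 : p ≤ 4 / 25) : dt37.kv p x = (-417 / 156250 + (x - 237 / 260) * (-45459 / 15625)) + (256087 / 100000 + (x - 237 / 260) * (1277137 / 10000)) * p + (-417 / 1000 + (x - 237 / 260) * (-45459 / 100)) * p ^ 2 := by
  rcases eq_or_lt_of_le h1 with h | h1
  · subst h
    rw [kvh9 (by norm_num) (by norm_num)]
    ring1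
  · exact kvh10 h1 h2
theorem kvl11 {p x : ℝ} (h1 : 4 / 25 ≤ p) (h2 : p ≤ 6 / 25) : dt37.kv p x = (1251 / 156250 + (x - 237 / 260) * (42741 / 15625)) + (242743 / 100000 + (x - 237 / 260) * (571537 / 10000)) * p + (0 + (x - 237 / 260) * (-23409 / 100)) * p ^ 2 := by
  rcases eq_or_lt_of_le h1 with h | h1
  · subst h
    rw [kvh10 (by norm_num) (by norm_num)]
    ring1
  · exact kvh11 h1 h2
theorem kvl12 {p x : ℝ} (h1 : 6 / 25 ≤ p) (h2 : p ≤ 7 / 25) : dt37.kv p x = (199953 / 312500 + (x - 237 / 260) * (253422 / 15625)) + (-283793 / 100000 + (x - 237 / 260) * (-110419 / 2000)) * p + (21939 / 2000) * p ^ 2 := by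
  rcases eq_or_lt_of_le h1 with h | h1
  · subst h
    rw [kvh11 (by norm_num) (by norm_num)]
    ring1
  · exact kvh12 h1 h2
theorem kvl13 {p x : ℝ} (h1 : 7 / 25 ≤ p) (h2 : p ≤ 31 / 100) : dt37.kv p x = (199953 / 312500 + (x - 237 / 260) * (2027621 / 125000)) + (-283793 / 100000 + (x - 237 / 260) * (-110447 / 2000)) * p + (21939 / 2000 + (x - 237 / 260) * (1 / 40)) * p ^ 2 := by
  rcases eq_or_lt_of_le h1 with h | h1
  · subst h
    rw [kvh12 (by norm_num) (by norm_num)]
    ring1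
  · exact kvh13 h1 h2
theorem kvl14 {p x : ℝ} (h1 : 31 / 100 ≤ p) (h2 : p ≤ 61 / 182) : dt37.kv p x = (6666912861909 / 10419500000000 + (x - 237 / 260) * (150914633759 / 9303125000)) + (-295698114889 / 104195000000 + (x - 237 / 260) * (-20552352181 / 372125000)) * p + (21939 / 2000 + (x - 237 / 260) * (7 / 200)) * p ^ 2 := by
  rcases eq_or_lt_of_le h1 with h | h1
  · subst h
    rw [kvh13 (by norm_num) (by norm_num)]
    ring1
  · exact kvh14 h1 h2
theorem kvl15 {p x : ℝ} (h1 : 61 / 182 ≤ p) (h2 : p ≤ 107 / 254) : dt37.kv p x = (-31412267338318817 / 22998430000000000 + (x - 237 / 260) * (289235272426056441 / 2299843000000000)) + (104993250119466187 / 11499215000000000 + (x - 237 / 260) * (-815162010198410351 / 1149921500000000)) * p + (-1377 / 200 + (x - 237 / 260) * (24379 / 25)) * p ^ 2 := by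
  rcases eq_or_lt_of_le h1 with h | h1
  · subst h
    rw [kvh14 (by norm_num) (by norm_num)]
    ring1
  · exact kvh15 h1 h2
theorem kvl16 {p x : ℝ} (h1 : 107 / 254 ≤ p) (h2 : p ≤ 9 / 20) : dt37.kv p x = (-28763277474803 / 1854200000000 + (x - 237 / 260) * (-18691234476763 / 37084000000)) + (35366099514689 / 463550000000 + (x - 237 / 260) * (105741929046277 / 46355000000)) * p + (-34641 / 400 + (x - 237 / 260) * (-128687 / 50)) * p ^ 2 := by
  rcases eq_or_lt_of_le h1 with h | h1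
  · subst h
    rw [kvh15 (by norm_num) (by norm_num)]
    ring1
  · exact kvh16 h1 h2
theorem kvl17 {p x : ℝ} (h1 : 9 / 20 ≤ p) (h2 : p ≤ 93 / 200) : dt37.kv p x = (-9974732479 / 1000000000 + (x - 237 / 260) * (77709505943 / 100000000)) + (516817341 / 10000000 + (x - 237 / 260) * (-10238190929 / 3000000)) * p + (-118511 / 2000 + (x - 237 / 260) * (150111 / 40)) * p ^ 2 := by
  rcases eq_or_lt_of_le h1 with h | h1
  · subst h
    rw [kvh16 (by norm_num) (by norm_num)]
    ring1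
  · exact kvh17 h1 h2
theorem kvl18 {p x : ℝ} (h1 : 93 / 200 ≤ p) (h2 : p ≤ 1 / 2) : dt37.kv p x = (-22242972557 / 1400000000 + (x - 237 / 260) * (-2404183013 / 70000000)) + (1079602217 / 14000000 + (x - 237 / 260) * (541355433 / 7000000)) * p + (-34641 / 400 + (x - 237 / 260) * (3 / 200)) * p ^ 2 := by
  rcases eq_or_lt_of_le h1 with h | h1
  · subst h
    rw [kvh17 (by norm_num) (by norm_num)]
    ring1
  · exact kvh18 h1 h2
theorem kfe {x p : ℝ} (h : |p| ≤ 1 / 2) : kcg.v p x = dt37.kv p x := by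
  obtain ⟨h1, h2⟩ := abs_le.1 h
  rcases le_total p (-93 / 200) with g0 | g1000
  · rw [kcl0 (by linarith) g0, kvl0 (by linarith) g0]
  rcases le_total p (-9 / 20) with g1 | g1001
  · rw [kcl1 g1000 g1, kvl1 g1000 g1]
  rcases le_total p (-107 / 254) with g2 | g1002
  · rw [kcl2 g1001 g2, kvl2 g1001 g2]
  rcases le_total p (-61 / 182) with g3 | g1003
  · rw [kcl3 g1002 g3, kvl3 g1002 g3]
  rcases le_total p (-31 / 100) with g4 | g1004
  · rw [kcl4 g1003 g4, kvl4 g1003 g4]
  rcases le_total p (-7 / 25) with g5 | g1005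
  · rw [kcl5 g1004 g5, kvl5 g1004 g5]
  rcases le_total p (-6 / 25) with g6 | g1006
  · rw [kcl6 g1005 g6, kvl6 g1005 g6]
  rcases le_total p (-4 / 25) with g7 | g1007
  · rw [kcl7 g1006 g7, kvl7 g1006 g7]
  rcases le_total p (-2 / 25) with g8 | g1008
  · rw [kcl8 g1007 g8, kvl8 g1007 g8]
  rcases le_total p (2 / 25) with g9 | g1009
  · rw [kcl9 g1008 g9, kvl9 g1008 g9]
  rcases le_total p (4 / 25) with g10 | g1010
  · rw [kcl10 g1009 g10, kvl10 g1009 g10]
  rcases le_total p (6 / 25) with g11 | g1011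
  · rw [kcl11 g1010 g11, kvl11 g1010 g11]
  rcases le_total p (7 / 25) with g12 | g1012
  · rw [kcl12 g1011 g12, kvl12 g1011 g12]
  rcases le_total p (31 / 100) with g13 | g1013
  · rw [kcl13 g1012 g13, kvl13 g1012 g13]
  rcases le_total p (61 / 182) with g14 | g1014
  · rw [kcl14 g1013 g14, kvl14 g1013 g14]
  rcases le_total p (107 / 254) with g15 | g1015
  · rw [kcl15 g1014 g15, kvl15 g1014 g15]
  rcases le_total p (9 / 20) with g16 | g1016
  · rw [kcl16 g1015 g16, kvl16 g1015 g16]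
  rcases le_total p (93 / 200) with g17 | g1017
  · rw [kcl17 g1016 g17, kvl17 g1016 g17]
  · rw [kcl18 g1017 (by linarith), kvl18 g1017 (by linarith)]
theorem odd {x p : ℝ} (h : |p| ≤ 1 / 2) : kcg.v (-p) x = -kcg.v p x := by
  obtain ⟨h1, h2⟩ := abs_le.1 h
  rcases le_total p (-93 / 200) with g0 | g1000
  · rw [kcl0 (by linarith) g0, kcl18 (p := -p) (by linarith) (by linarith)]; ring
  rcases le_total p (-9 / 20) with g1 | g1001
  · rw [kcl1 g1000 g1, kcl17 (p := -p) (by linarith) (by linarith)]; ring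
  rcases le_total p (-107 / 254) with g2 | g1002
  · rw [kcl2 g1001 g2, kcl16 (p := -p) (by linarith) (by linarith)]; ring
  rcases le_total p (-61 / 182) with g3 | g1003
  · rw [kcl3 g1002 g3, kcl15 (p := -p) (by linarith) (by linarith)]; ring
  rcases le_total p (-31 / 100) with g4 | g1004
  · rw [kcl4 g1003 g4, kcl14 (p := -p) (by linarith) (by linarith)]; ring
  rcases le_total p (-7 / 25) with g5 | g1005
  · rw [kcl5 g1004 g5, kcl13 (p := -p) (by linarith) (by linarith)]; ring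
  rcases le_total p (-6 / 25) with g6 | g1006
  · rw [kcl6 g1005 g6, kcl12 (p := -p) (by linarith) (by linarith)]; ring
  rcases le_total p (-4 / 25) with g7 | g1007
  · rw [kcl7 g1006 g7, kcl11 (p := -p) (by linarith) (by linarith)]; ring
  rcases le_total p (-2 / 25) with g8 | g1008
  · rw [kcl8 g1007 g8, kcl10 (p := -p) (by linarith) (by linarith)]; ring
  rcases le_total p (2 / 25) with g9 | g1009
  · rw [kcl9 g1008 g9, kcl9 (p := -p) (by linarith) (by linarith)]; ring
  rcases le_total p (4 / 25) with g10 | g1010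
  · rw [kcl10 g1009 g10, kcl8 (p := -p) (by linarith) (by linarith)]; ring
  rcases le_total p (6 / 25) with g11 | g1011
  · rw [kcl11 g1010 g11, kcl7 (p := -p) (by linarith) (by linarith)]; ring
  rcases le_total p (7 / 25) with g12 | g1012
  · rw [kcl12 g1011 g12, kcl6 (p := -p) (by linarith) (by linarith)]; ring
  rcases le_total p (31 / 100) with g13 | g1013
  · rw [kcl13 g1012 g13, kcl5 (p := -p) (by linarith) (by linarith)]; ring
  rcases le_total p (61 / 182) with g14 | g1014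
  · rw [kcl14 g1013 g14, kcl4 (p := -p) (by linarith) (by linarith)]; ring
  rcases le_total p (107 / 254) with g15 | g1015
  · rw [kcl15 g1014 g15, kcl3 (p := -p) (by linarith) (by linarith)]; ring
  rcases le_total p (9 / 20) with g16 | g1016
  · rw [kcl16 g1015 g16, kcl2 (p := -p) (by linarith) (by linarith)]; ring
  rcases le_total p (93 / 200) with g17 | g1017
  · rw [kcl17 g1016 g17, kcl1 (p := -p) (by linarith) (by linarith)]; ring
  · rw [kcl18 g1017 (by linarith), kcl0 (p := -p) (by linarith) (by linarith)]; ring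
theorem ctA : cT (61 / 182) = 59 / 91 := by
  unfold cT
  rw [show (3 / 4 * (1 - (61 / 182 : ℝ) ^ 2)) = (297 / 364) ^ 2 by norm_num, Real.sqrt_sq (by norm_num)]
  norm_num
theorem ctB : cT (107 / 254) = 73 / 127 := by
  unfold cT
  rw [show (3 / 4 * (1 - (107 / 254 : ℝ) ^ 2)) = (399 / 508) ^ 2 by norm_num, Real.sqrt_sq (by norm_num)]
  norm_num
theorem kgA {x : ℝ} : kcg.v (61 / 182) x = (460469581 / 500000000 + (x - 237 / 260) * (-28564907 / 12500000)) := by
  rw [kcl14 (by norm_num) (by norm_num)]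
  ring
theorem kgB {x : ℝ} : kcg.v (107 / 254) x = (50345829 / 40000000 + (x - 237 / 260) * (3801069 / 20000000)) := by
  rw [kcl15 (by norm_num) (by norm_num)]
  ring
theorem ka_dt1 (x : ℝ) : dt1.kv (-1 / 2) x = (-203751899 / 200000000 + (x - 237 / 260) * (-10816309 / 2500000)) := by
  simp only [dt1, DT.kv, sw1, sl1, sv1]
  ((try push_cast); ring1)
theorem kb_dt1 (x : ℝ) : dt1.kv (-93 / 200) x = (-124475339 / 100000000 + (x - 237 / 260) * (-161923981 / 100000000)) := by
  simp only [dt1, DT.kv, sw1, sl1, sv1]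
  ((try push_cast); ring1)
theorem ka_dt2 (x : ℝ) : dt2.kv (-93 / 200) x = (-124475339 / 100000000 + (x - 237 / 260) * (-161923981 / 100000000)) := by
  simp only [dt2, DT.kv, sw2, sl2, sv2]
  ((try push_cast); ring1)
theorem kb_dt2 (x : ℝ) : dt2.kv (-9 / 20) x = (-320702279 / 250000000 + (x - 237 / 260) * (-65167879 / 50000000)) := by
  simp only [dt2, DT.kv, sw2, sl2, sv2]
  ((try push_cast); ring1)
theorem ka_dt20 (x : ℝ) : dt20.kv (-1 / 2) x = (-203751899 / 200000000 + (x - 237 / 260) * (-10816309 / 2500000)) :=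
  (DT.kv_le (by simp only [Cn.rt_v, Cn.ng_v]; norm_num)).trans (ka_dt1 x)
theorem kb_dt20 (x : ℝ) : dt20.kv (-9 / 20) x = (-320702279 / 250000000 + (x - 237 / 260) * (-65167879 / 50000000)) :=
  (DT.kv_gt (by simp only [Cn.rt_v, Cn.ng_v]; norm_num)).trans (kb_dt2 x)
theorem ka_dt3 (x : ℝ) : dt3.kv (-9 / 20) x = (-320702279 / 250000000 + (x - 237 / 260) * (-65167879 / 50000000)) := by
  simp only [dt3, DT.kv, sw3, sl3, sv3]
  ((try push_cast); ring1)
theorem kb_dt3 (x : ℝ) : dt3.kv (-107 / 254) x = (-50345829 / 40000000 + (x - 237 / 260) * (-3801069 / 20000000)) := by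
  simp only [dt3, DT.kv, sw3, sl3, sv3]
  ((try push_cast); ring1)
theorem ka_dt4 (x : ℝ) : dt4.kv (-107 / 254) x = (-50345829 / 40000000 + (x - 237 / 260) * (-3801069 / 20000000)) := by
  simp only [dt4, DT.kv, sw4, sl4, sv4]
  ((try push_cast); ring1)
theorem kb_dt4 (x : ℝ) : dt4.kv (-61 / 182) x = (-460469581 / 500000000 + (x - 237 / 260) * (28564907 / 12500000)) := by
  simp only [dt4, DT.kv, sw4, sl4, sv4]
  ((try push_cast); ring1)
theorem ka_dt21 (x : ℝ) : dt21.kv (-9 / 20) x = (-320702279 / 250000000 + (x - 237 / 260) * (-65167879 / 50000000)) :=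
  (DT.kv_le (by simp only [Cn.rt_v, Cn.ng_v]; norm_num)).trans (ka_dt3 x)
theorem kb_dt21 (x : ℝ) : dt21.kv (-61 / 182) x = (-460469581 / 500000000 + (x - 237 / 260) * (28564907 / 12500000)) :=
  (DT.kv_gt (by simp only [Cn.rt_v, Cn.ng_v]; norm_num)).trans (kb_dt4 x)
theorem ka_dt22 (x : ℝ) : dt22.kv (-1 / 2) x = (-203751899 / 200000000 + (x - 237 / 260) * (-10816309 / 2500000)) :=
  (DT.kv_le (by simp only [Cn.rt_v, Cn.ng_v]; norm_num)).trans (ka_dt20 x)
theorem kb_dt22 (x : ℝ) : dt22.kv (-61 / 182) x = (-460469581 / 500000000 + (x - 237 / 260) * (28564907 / 12500000)) :=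
  (DT.kv_gt (by simp only [Cn.rt_v, Cn.ng_v]; norm_num)).trans (kb_dt21 x)
theorem ka_dt5 (x : ℝ) : dt5.kv (-61 / 182) x = (-460469581 / 500000000 + (x - 237 / 260) * (28564907 / 12500000)) := by
  simp only [dt5, DT.kv, sw5, sl5, sv5]
  ((try push_cast); ring1)
theorem kb_dt5 (x : ℝ) : dt5.kv (-31 / 100) x = (-3257041 / 4000000 + (x - 237 / 260) * (1791829 / 2000000)) := by
  simp only [dt5, DT.kv, sw5, sl5, sv5]
  ((try push_cast); ring1)
theorem ka_dt6 (x : ℝ) : dt6.kv (-31 / 100) x = (-3257041 / 4000000 + (x - 237 / 260) * (1791829 / 2000000)) := by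
  simp only [dt6, DT.kv, sw6, sl6, sv6]
  ((try push_cast); ring1)
theorem kb_dt6 (x : ℝ) : dt6.kv (-7 / 25) x = (-352619 / 500000 + (x - 237 / 260) * (-190087 / 250000)) := by
  simp only [dt6, DT.kv, sw6, sl6, sv6]
  ((try push_cast); ring1)
theorem ka_dt23 (x : ℝ) : dt23.kv (-61 / 182) x = (-460469581 / 500000000 + (x - 237 / 260) * (28564907 / 12500000)) :=
  (DT.kv_le (by simp only [Cn.rt_v, Cn.ng_v]; norm_num)).trans (ka_dt5 x)
theorem kb_dt23 (x : ℝ) : dt23.kv (-7 / 25) x = (-352619 / 500000 + (x - 237 / 260) * (-190087 / 250000)) :=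
  (DT.kv_gt (by simp only [Cn.rt_v, Cn.ng_v]; norm_num)).trans (kb_dt6 x)
theorem ka_dt7 (x : ℝ) : dt7.kv (-7 / 25) x = (-352619 / 500000 + (x - 237 / 260) * (-190087 / 250000)) := by
  simp only [dt7, DT.kv, sw7, sl7, sv7]
  ((try push_cast); ring1)
theorem kb_dt7 (x : ℝ) : dt7.kv (-6 / 25) x = (-738237 / 1250000 + (x - 237 / 260) * (-371091 / 125000)) := by
  simp only [dt7, DT.kv, sw7, sl7, sv7]
  ((try push_cast); ring1)
theorem ka_dt8 (x : ℝ) : dt8.kv (-6 / 25) x = (-738237 / 1250000 + (x - 237 / 260) * (-371091 / 125000)) := by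
  simp only [dt8, DT.kv, sw8, sl8, sv8]
  ((try push_cast); ring1)
theorem kb_dt8 (x : ℝ) : dt8.kv (-4 / 25) x = (-247747 / 625000 + (x - 237 / 260) * (-367957 / 62500)) := by
  simp only [dt8, DT.kv, sw8, sl8, sv8]
  ((try push_cast); ring1)
theorem ka_dt9 (x : ℝ) : dt9.kv (-4 / 25) x = (-247747 / 625000 + (x - 237 / 260) * (-367957 / 62500)) := by
  simp only [dt9, DT.kv, sw9, sl9, sv9]
  ((try push_cast); ring1)
theorem kb_dt9 (x : ℝ) : dt9.kv (-2 / 25) x = (-49883 / 250000 + (x - 237 / 260) * (-549793 / 125000)) := by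
  simp only [dt9, DT.kv, sw9, sl9, sv9]
  ((try push_cast); ring1)
theorem ka_dt24 (x : ℝ) : dt24.kv (-6 / 25) x = (-738237 / 1250000 + (x - 237 / 260) * (-371091 / 125000)) :=
  (DT.kv_le (by simp only [Cn.rt_v, Cn.ng_v]; norm_num)).trans (ka_dt8 x)
theorem kb_dt24 (x : ℝ) : dt24.kv (-2 / 25) x = (-49883 / 250000 + (x - 237 / 260) * (-549793 / 125000)) :=
  (DT.kv_gt (by simp only [Cn.rt_v, Cn.ng_v]; norm_num)).trans (kb_dt9 x)
theorem ka_dt25 (x : ℝ) : dt25.kv (-7 / 25) x = (-352619 / 500000 + (x - 237 / 260) * (-190087 / 250000)) :=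
  (DT.kv_le (by simp only [Cn.rt_v, Cn.ng_v]; norm_num)).trans (ka_dt7 x)
theorem kb_dt25 (x : ℝ) : dt25.kv (-2 / 25) x = (-49883 / 250000 + (x - 237 / 260) * (-549793 / 125000)) :=
  (DT.kv_gt (by simp only [Cn.rt_v, Cn.ng_v]; norm_num)).trans (kb_dt24 x)
theorem ka_dt26 (x : ℝ) : dt26.kv (-61 / 182) x = (-460469581 / 500000000 + (x - 237 / 260) * (28564907 / 12500000)) :=
  (DT.kv_le (by simp only [Cn.rt_v, Cn.ng_v]; norm_num)).trans (ka_dt23 x)
theorem kb_dt26 (x : ℝ) : dt26.kv (-2 / 25) x = (-49883 / 250000 + (x - 237 / 260) * (-549793 / 125000)) :=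
  (DT.kv_gt (by simp only [Cn.rt_v, Cn.ng_v]; norm_num)).trans (kb_dt25 x)
theorem ka_dt27 (x : ℝ) : dt27.kv (-1 / 2) x = (-203751899 / 200000000 + (x - 237 / 260) * (-10816309 / 2500000)) :=
  (DT.kv_le (by simp only [Cn.rt_v, Cn.ng_v]; norm_num)).trans (ka_dt22 x)
theorem kb_dt27 (x : ℝ) : dt27.kv (-2 / 25) x = (-49883 / 250000 + (x - 237 / 260) * (-549793 / 125000)) :=
  (DT.kv_gt (by simp only [Cn.rt_v, Cn.ng_v]; norm_num)).trans (kb_dt26 x)
theorem ka_dt10 (x : ℝ) : dt10.kv (-2 / 25) x = (-49883 / 250000 + (x - 237 / 260) * (-549793 / 125000)) := by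
  simp only [dt10, DT.kv, sl10, sv10]
  ((try push_cast); ring1)
theorem kb_dt10 (x : ℝ) : dt10.kv (2 / 25) x = (49883 / 250000 + (x - 237 / 260) * (549793 / 125000)) := by
  simp only [dt10, DT.kv, sl10, sv10]
  ((try push_cast); ring1)
theorem ka_dt11 (x : ℝ) : dt11.kv (2 / 25) x = (49883 / 250000 + (x - 237 / 260) * (549793 / 125000)) := by
  simp only [dt11, DT.kv, sw11, sl11, sv11]
  ((try push_cast); ring1)
theorem kb_dt11 (x : ℝ) : dt11.kv (4 / 25) x = (247747 / 625000 + (x - 237 / 260) * (367957 / 62500)) := by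
  simp only [dt11, DT.kv, sw11, sl11, sv11]
  ((try push_cast); ring1)
theorem ka_dt28 (x : ℝ) : dt28.kv (-2 / 25) x = (-49883 / 250000 + (x - 237 / 260) * (-549793 / 125000)) :=
  (DT.kv_le (by simp only [Cn.rt_v, Cn.ng_v]; norm_num)).trans (ka_dt10 x)
theorem kb_dt28 (x : ℝ) : dt28.kv (4 / 25) x = (247747 / 625000 + (x - 237 / 260) * (367957 / 62500)) :=
  (DT.kv_gt (by simp only [Cn.rt_v, Cn.ng_v]; norm_num)).trans (kb_dt11 x)
theorem ka_dt12 (x : ℝ) : dt12.kv (4 / 25) x = (247747 / 625000 + (x - 237 / 260) * (367957 / 62500)) := by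
  simp only [dt12, DT.kv, sw12, sl12, sv12]
  ((try push_cast); ring1)
theorem kb_dt12 (x : ℝ) : dt12.kv (6 / 25) x = (738237 / 1250000 + (x - 237 / 260) * (371091 / 125000)) := by
  simp only [dt12, DT.kv, sw12, sl12, sv12]
  ((try push_cast); ring1)
theorem ka_dt13 (x : ℝ) : dt13.kv (6 / 25) x = (738237 / 1250000 + (x - 237 / 260) * (371091 / 125000)) := by
  simp only [dt13, DT.kv, sw13, sl13, sv13]
  ((try push_cast); ring1)
theorem kb_dt13 (x : ℝ) : dt13.kv (7 / 25) x = (352619 / 500000 + (x - 237 / 260) * (190087 / 250000)) := by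
  simp only [dt13, DT.kv, sw13, sl13, sv13]
  ((try push_cast); ring1)
theorem ka_dt14 (x : ℝ) : dt14.kv (7 / 25) x = (352619 / 500000 + (x - 237 / 260) * (190087 / 250000)) := by
  simp only [dt14, DT.kv, sw14, sl14, sv14]
  ((try push_cast); ring1)
theorem kb_dt14 (x : ℝ) : dt14.kv (31 / 100) x = (3257041 / 4000000 + (x - 237 / 260) * (-1791829 / 2000000)) := by
  simp only [dt14, DT.kv, sw14, sl14, sv14]
  ((try push_cast); ring1)
theorem ka_dt29 (x : ℝ) : dt29.kv (6 / 25) x = (738237 / 1250000 + (x - 237 / 260) * (371091 / 125000)) :=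
  (DT.kv_le (by simp only [Cn.rt_v, Cn.ng_v]; norm_num)).trans (ka_dt13 x)
theorem kb_dt29 (x : ℝ) : dt29.kv (31 / 100) x = (3257041 / 4000000 + (x - 237 / 260) * (-1791829 / 2000000)) :=
  (DT.kv_gt (by simp only [Cn.rt_v, Cn.ng_v]; norm_num)).trans (kb_dt14 x)
theorem ka_dt30 (x : ℝ) : dt30.kv (4 / 25) x = (247747 / 625000 + (x - 237 / 260) * (367957 / 62500)) :=
  (DT.kv_le (by simp only [Cn.rt_v, Cn.ng_v]; norm_num)).trans (ka_dt12 x)
theorem kb_dt30 (x : ℝ) : dt30.kv (31 / 100) x = (3257041 / 4000000 + (x - 237 / 260) * (-1791829 / 2000000)) :=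
  (DT.kv_gt (by simp only [Cn.rt_v, Cn.ng_v]; norm_num)).trans (kb_dt29 x)
theorem ka_dt31 (x : ℝ) : dt31.kv (-2 / 25) x = (-49883 / 250000 + (x - 237 / 260) * (-549793 / 125000)) :=
  (DT.kv_le (by simp only [Cn.rt_v, Cn.ng_v]; norm_num)).trans (ka_dt28 x)
theorem kb_dt31 (x : ℝ) : dt31.kv (31 / 100) x = (3257041 / 4000000 + (x - 237 / 260) * (-1791829 / 2000000)) :=
  (DT.kv_gt (by simp only [Cn.rt_v, Cn.ng_v]; norm_num)).trans (kb_dt30 x)
theorem ka_dt15 (x : ℝ) : dt15.kv (31 / 100) x = (3257041 / 4000000 + (x - 237 / 260) * (-1791829 / 2000000)) := by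
  simp only [dt15, DT.kv, sw15, sl15, sv15]
  ((try push_cast); ring1)
theorem kb_dt15 (x : ℝ) : dt15.kv (61 / 182) x = (460469581 / 500000000 + (x - 237 / 260) * (-28564907 / 12500000)) := by
  simp only [dt15, DT.kv, sw15, sl15, sv15]
  ((try push_cast); ring1)
theorem ka_dt16 (x : ℝ) : dt16.kv (61 / 182) x = (460469581 / 500000000 + (x - 237 / 260) * (-28564907 / 12500000)) := by
  simp only [dt16, DT.kv, sw16, sl16, sv16]
  ((try push_cast); ring1)
theorem kb_dt16 (x : ℝ) : dt16.kv (107 / 254) x = (50345829 / 40000000 + (x - 237 / 260) * (3801069 / 20000000)) := by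
  simp only [dt16, DT.kv, sw16, sl16, sv16]
  ((try push_cast); ring1)
theorem ka_dt32 (x : ℝ) : dt32.kv (31 / 100) x = (3257041 / 4000000 + (x - 237 / 260) * (-1791829 / 2000000)) :=
  (DT.kv_le (by simp only [Cn.rt_v, Cn.ng_v]; norm_num)).trans (ka_dt15 x)
theorem kb_dt32 (x : ℝ) : dt32.kv (107 / 254) x = (50345829 / 40000000 + (x - 237 / 260) * (3801069 / 20000000)) :=
  (DT.kv_gt (by simp only [Cn.rt_v, Cn.ng_v]; norm_num)).trans (kb_dt16 x)
theorem ka_dt17 (x : ℝ) : dt17.kv (107 / 254) x = (50345829 / 40000000 + (x - 237 / 260) * (3801069 / 20000000)) := by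
  simp only [dt17, DT.kv, sw17, sl17, sv17]
  ((try push_cast); ring1)
theorem kb_dt17 (x : ℝ) : dt17.kv (9 / 20) x = (320702279 / 250000000 + (x - 237 / 260) * (65167879 / 50000000)) := by
  simp only [dt17, DT.kv, sw17, sl17, sv17]
  ((try push_cast); ring1)
theorem ka_dt18 (x : ℝ) : dt18.kv (9 / 20) x = (320702279 / 250000000 + (x - 237 / 260) * (65167879 / 50000000)) := by
  simp only [dt18, DT.kv, sw18, sl18, sv18]
  ((try push_cast); ring1)
theorem kb_dt18 (x : ℝ) : dt18.kv (93 / 200) x = (124475339 / 100000000 + (x - 237 / 260) * (161923981 / 100000000)) := by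
  simp only [dt18, DT.kv, sw18, sl18, sv18]
  ((try push_cast); ring1)
theorem ka_dt19 (x : ℝ) : dt19.kv (93 / 200) x = (124475339 / 100000000 + (x - 237 / 260) * (161923981 / 100000000)) := by
  simp only [dt19, DT.kv, sw19, sl19, sv19]
  ((try push_cast); ring1)
theorem kb_dt19 (x : ℝ) : dt19.kv (1 / 2) x = (203751899 / 200000000 + (x - 237 / 260) * (10816309 / 2500000)) := by
  simp only [dt19, DT.kv, sw19, sl19, sv19]
  ((try push_cast); ring1)
theorem ka_dt33 (x : ℝ) : dt33.kv (9 / 20) x = (320702279 / 250000000 + (x - 237 / 260) * (65167879 / 50000000)) :=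
  (DT.kv_le (by simp only [Cn.rt_v, Cn.ng_v]; norm_num)).trans (ka_dt18 x)
theorem kb_dt33 (x : ℝ) : dt33.kv (1 / 2) x = (203751899 / 200000000 + (x - 237 / 260) * (10816309 / 2500000)) :=
  (DT.kv_gt (by simp only [Cn.rt_v, Cn.ng_v]; norm_num)).trans (kb_dt19 x)
theorem ka_dt34 (x : ℝ) : dt34.kv (107 / 254) x = (50345829 / 40000000 + (x - 237 / 260) * (3801069 / 20000000)) :=
  (DT.kv_le (by simp only [Cn.rt_v, Cn.ng_v]; norm_num)).trans (ka_dt17 x)
theorem kb_dt34 (x : ℝ) : dt34.kv (1 / 2) x = (203751899 / 200000000 + (x - 237 / 260) * (10816309 / 2500000)) :=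
  (DT.kv_gt (by simp only [Cn.rt_v, Cn.ng_v]; norm_num)).trans (kb_dt33 x)
theorem ka_dt35 (x : ℝ) : dt35.kv (31 / 100) x = (3257041 / 4000000 + (x - 237 / 260) * (-1791829 / 2000000)) :=
  (DT.kv_le (by simp only [Cn.rt_v, Cn.ng_v]; norm_num)).trans (ka_dt32 x)
theorem kb_dt35 (x : ℝ) : dt35.kv (1 / 2) x = (203751899 / 200000000 + (x - 237 / 260) * (10816309 / 2500000)) :=
  (DT.kv_gt (by simp only [Cn.rt_v, Cn.ng_v]; norm_num)).trans (kb_dt34 x)
theorem ka_dt36 (x : ℝ) : dt36.kv (-2 / 25) x = (-49883 / 250000 + (x - 237 / 260) * (-549793 / 125000)) :=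
  (DT.kv_le (by simp only [Cn.rt_v, Cn.ng_v]; norm_num)).trans (ka_dt31 x)
theorem kb_dt36 (x : ℝ) : dt36.kv (1 / 2) x = (203751899 / 200000000 + (x - 237 / 260) * (10816309 / 2500000)) :=
  (DT.kv_gt (by simp only [Cn.rt_v, Cn.ng_v]; norm_num)).trans (kb_dt35 x)
theorem ka_dt37 (x : ℝ) : dt37.kv (-1 / 2) x = (-203751899 / 200000000 + (x - 237 / 260) * (-10816309 / 2500000)) :=
  (DT.kv_le (by simp only [Cn.rt_v, Cn.ng_v]; norm_num)).trans (ka_dt27 x)
theorem kb_dt37 (x : ℝ) : dt37.kv (1 / 2) x = (203751899 / 200000000 + (x - 237 / 260) * (10816309 / 2500000)) :=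
  (DT.kv_gt (by simp only [Cn.rt_v, Cn.ng_v]; norm_num)).trans (kb_dt36 x)
theorem ko_dt1 (x : ℝ) : dt1.KOk x := trivial
theorem ko_dt2 (x : ℝ) : dt2.KOk x := trivial
theorem ko_dt20 (x : ℝ) : dt20.KOk x :=
  DT.kOk_node (v := -93 / 200) (by simp only [Cn.rt_v, Cn.ng_v]; norm_num) (kb_dt1 x) (ka_dt2 x) (by ring1) (ko_dt1 x) (ko_dt2 x)
theorem ko_dt3 (x : ℝ) : dt3.KOk x := trivial
theorem ko_dt4 (x : ℝ) : dt4.KOk x := trivial
theorem ko_dt21 (x : ℝ) : dt21.KOk x :=
  DT.kOk_node (v := -107 / 254) (by simp only [Cn.rt_v, Cn.ng_v]; norm_num) (kb_dt3 x) (ka_dt4 x) (by ring1) (ko_dt3 x) (ko_dt4 x)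
theorem ko_dt22 (x : ℝ) : dt22.KOk x :=
  DT.kOk_node (v := -9 / 20) (by simp only [Cn.rt_v, Cn.ng_v]; norm_num) (kb_dt20 x) (ka_dt21 x) (by ring1) (ko_dt20 x) (ko_dt21 x)
theorem ko_dt5 (x : ℝ) : dt5.KOk x := trivial
theorem ko_dt6 (x : ℝ) : dt6.KOk x := trivial
theorem ko_dt23 (x : ℝ) : dt23.KOk x :=
  DT.kOk_node (v := -31 / 100) (by simp only [Cn.rt_v, Cn.ng_v]; norm_num) (kb_dt5 x) (ka_dt6 x) (by ring1) (ko_dt5 x) (ko_dt6 x)
theorem ko_dt7 (x : ℝ) : dt7.KOk x := trivial
theorem ko_dt8 (x : ℝ) : dt8.KOk x := trivial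
theorem ko_dt9 (x : ℝ) : dt9.KOk x := trivial
theorem ko_dt24 (x : ℝ) : dt24.KOk x :=
  DT.kOk_node (v := -4 / 25) (by simp only [Cn.rt_v, Cn.ng_v]; norm_num) (kb_dt8 x) (ka_dt9 x) (by ring1) (ko_dt8 x) (ko_dt9 x)
theorem ko_dt25 (x : ℝ) : dt25.KOk x :=
  DT.kOk_node (v := -6 / 25) (by simp only [Cn.rt_v, Cn.ng_v]; norm_num) (kb_dt7 x) (ka_dt24 x) (by ring1) (ko_dt7 x) (ko_dt24 x)
theorem ko_dt26 (x : ℝ) : dt26.KOk x :=
  DT.kOk_node (v := -7 / 25) (by simp only [Cn.rt_v, Cn.ng_v]; norm_num) (kb_dt23 x) (ka_dt25 x) (by ring1) (ko_dt23 x) (ko_dt25 x)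
theorem ko_dt27 (x : ℝ) : dt27.KOk x :=
  DT.kOk_node (v := -61 / 182) (by simp only [Cn.rt_v, Cn.ng_v]; norm_num) (kb_dt22 x) (ka_dt26 x) (by ring1) (ko_dt22 x) (ko_dt26 x)
theorem ko_dt10 (x : ℝ) : dt10.KOk x := trivial
theorem ko_dt11 (x : ℝ) : dt11.KOk x := trivial
theorem ko_dt28 (x : ℝ) : dt28.KOk x :=
  DT.kOk_node (v := 2 / 25) (by simp only [Cn.rt_v, Cn.ng_v]; norm_num) (kb_dt10 x) (ka_dt11 x) (by ring1) (ko_dt10 x) (ko_dt11 x)
theorem ko_dt12 (x : ℝ) : dt12.KOk x := trivial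
theorem ko_dt13 (x : ℝ) : dt13.KOk x := trivial
theorem ko_dt14 (x : ℝ) : dt14.KOk x := trivial
theorem ko_dt29 (x : ℝ) : dt29.KOk x :=
  DT.kOk_node (v := 7 / 25) (by simp only [Cn.rt_v, Cn.ng_v]; norm_num) (kb_dt13 x) (ka_dt14 x) (by ring1) (ko_dt13 x) (ko_dt14 x)
theorem ko_dt30 (x : ℝ) : dt30.KOk x :=
  DT.kOk_node (v := 6 / 25) (by simp only [Cn.rt_v, Cn.ng_v]; norm_num) (kb_dt12 x) (ka_dt29 x) (by ring1) (ko_dt12 x) (ko_dt29 x)
theorem ko_dt31 (x : ℝ) : dt31.KOk x :=
  DT.kOk_node (v := 4 / 25) (by simp only [Cn.rt_v, Cn.ng_v]; norm_num) (kb_dt28 x) (ka_dt30 x) (by ring1) (ko_dt28 x) (ko_dt30 x)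
theorem ko_dt15 (x : ℝ) : dt15.KOk x := trivial
theorem ko_dt16 (x : ℝ) : dt16.KOk x := trivial
theorem ko_dt32 (x : ℝ) : dt32.KOk x :=
  DT.kOk_node (v := 61 / 182) (by simp only [Cn.rt_v, Cn.ng_v]; norm_num) (kb_dt15 x) (ka_dt16 x) (by ring1) (ko_dt15 x) (ko_dt16 x)
theorem ko_dt17 (x : ℝ) : dt17.KOk x := trivial
theorem ko_dt18 (x : ℝ) : dt18.KOk x := trivial
theorem ko_dt19 (x : ℝ) : dt19.KOk x := trivial
theorem ko_dt33 (x : ℝ) : dt33.KOk x :=
  DT.kOk_node (v := 93 / 200) (by simp only [Cn.rt_v, Cn.ng_v]; norm_num) (kb_dt18 x) (ka_dt19 x) (by ring1) (ko_dt18 x) (ko_dt19 x)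
theorem ko_dt34 (x : ℝ) : dt34.KOk x :=
  DT.kOk_node (v := 9 / 20) (by simp only [Cn.rt_v, Cn.ng_v]; norm_num) (kb_dt17 x) (ka_dt33 x) (by ring1) (ko_dt17 x) (ko_dt33 x)
theorem ko_dt35 (x : ℝ) : dt35.KOk x :=
  DT.kOk_node (v := 107 / 254) (by simp only [Cn.rt_v, Cn.ng_v]; norm_num) (kb_dt32 x) (ka_dt34 x) (by ring1) (ko_dt32 x) (ko_dt34 x)
theorem ko_dt36 (x : ℝ) : dt36.KOk x :=
  DT.kOk_node (v := 31 / 100) (by simp only [Cn.rt_v, Cn.ng_v]; norm_num) (kb_dt31 x) (ka_dt35 x) (by ring1) (ko_dt31 x) (ko_dt35 x)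
theorem ko_dt37 (x : ℝ) : dt37.KOk x :=
  DT.kOk_node (v := -2 / 25) (by simp only [Cn.rt_v, Cn.ng_v]; norm_num) (kb_dt27 x) (ka_dt36 x) (by ring1) (ko_dt27 x) (ko_dt36 x)
theorem txl0 {p c x : ℝ} (h1 : -1 / 2 ≤ p) (h2 : p ≤ -47 / 100) : txg.v p c x = dt80.val (fun p x => kcg.v p x) p c x := by
  symm
  refine (DT.val_le (by simp only [Cn.rt_v, Cn.ng_v]; push_cast; linarith)).trans ?_
  refine (DT.val_le (by simp only [Cn.rt_v, Cn.ng_v]; push_cast; linarith)).trans ?_
  refine (DT.val_le (by simp only [Cn.rt_v, Cn.ng_v]; push_cast; linarith)).trans ?_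
  refine (DT.val_le (by simp only [Cn.rt_v, Cn.ng_v]; push_cast; linarith)).trans ?_
  simp only [dt38, DT.val, cloR, sw38, sl38, sv38, txg, txg_4, txg_6, txg_26, txg_29, txg_32, txg_35, txg_80, txg_121, txg_124, txg_165, txg_206, txg_209, txg_212, txg_247, txg_282, txg_283, txg_320, txg_339, txg_370, txg_391, txg_393, txg_395, txg_446]
  rcases eq_or_lt_of_le h1 with h | h1
  · subst h
    ((try push_cast); (repeat first | rw [if_pos (by linarith)] | rw [if_neg (by linarith)] | erw [if_pos (by linarith)] | erw [if_neg (by linarith)]); (try push_cast); (try ring1))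
  rcases eq_or_lt_of_le h2 with h | h2
  · subst h
    ((try push_cast); (repeat first | rw [if_pos (by linarith)] | rw [if_neg (by linarith)] | erw [if_pos (by linarith)] | erw [if_neg (by linarith)]); (try push_cast); (try ring1))
  · ((try push_cast); (repeat first | rw [if_pos (by linarith)] | rw [if_neg (by linarith)] | erw [if_pos (by linarith)] | erw [if_neg (by linarith)]); (try push_cast); (try ring1))
theorem txl1 {p c x : ℝ} (h1 : -47 / 100 < p) (h2 : p ≤ -9 / 20) : txg.v p c x = dt80.val (fun p x => kcg.v p x) p c x := by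
  symm
  refine (DT.val_le (by simp only [Cn.rt_v, Cn.ng_v]; push_cast; linarith)).trans ?_
  refine (DT.val_le (by simp only [Cn.rt_v, Cn.ng_v]; push_cast; linarith)).trans ?_
  refine (DT.val_le (by simp only [Cn.rt_v, Cn.ng_v]; push_cast; linarith)).trans ?_
  refine (DT.val_gt (by simp only [Cn.rt_v, Cn.ng_v]; push_cast; linarith)).trans ?_
  simp only [dt39, DT.val, cloR, sw39, sl39, sv39, txg, txg_4, txg_6, txg_26, txg_29, txg_32, txg_35, txg_80, txg_121, txg_124, txg_165, txg_206, txg_209, txg_212, txg_247, txg_282, txg_283, txg_320, txg_339, txg_370, txg_391, txg_393, txg_395, txg_446]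
  rcases eq_or_lt_of_le h2 with h | h2
  · subst h
    ((try push_cast); (repeat first | rw [if_pos (by linarith)] | rw [if_neg (by linarith)] | erw [if_pos (by linarith)] | erw [if_neg (by linarith)]); (try push_cast); (try ring1))
  · ((try push_cast); (repeat first | rw [if_pos (by linarith)] | rw [if_neg (by linarith)] | erw [if_pos (by linarith)] | erw [if_neg (by linarith)]); (try push_cast); (try ring1))
theorem txl2 {p c x : ℝ} (h1 : -9 / 20 < p) (h2 : p ≤ -21 / 50) : txg.v p c x = dt80.val (fun p x => kcg.v p x) p c x := by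
  symm
  refine (DT.val_le (by simp only [Cn.rt_v, Cn.ng_v]; push_cast; linarith)).trans ?_
  refine (DT.val_le (by simp only [Cn.rt_v, Cn.ng_v]; push_cast; linarith)).trans ?_
  refine (DT.val_gt (by simp only [Cn.rt_v, Cn.ng_v]; push_cast; linarith)).trans ?_
  refine (DT.val_le (by simp only [Cn.rt_v, Cn.ng_v]; push_cast; linarith)).trans ?_
  simp only [dt40, DT.val, cloR, sw40, sl40, sv40, txg, txg_4, txg_6, txg_26, txg_29, txg_32, txg_35, txg_80, txg_121, txg_124, txg_165, txg_206, txg_209, txg_212, txg_247, txg_282, txg_283, txg_320, txg_339, txg_370, txg_391, txg_393, txg_395, txg_446]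
  rcases eq_or_lt_of_le h2 with h | h2
  · subst h
    ((try push_cast); (repeat first | rw [if_pos (by linarith)] | rw [if_neg (by linarith)] | erw [if_pos (by linarith)] | erw [if_neg (by linarith)]); (try push_cast); (try ring1))
  · ((try push_cast); (repeat first | rw [if_pos (by linarith)] | rw [if_neg (by linarith)] | erw [if_pos (by linarith)] | erw [if_neg (by linarith)]); (try push_cast); (try ring1))
theorem txl3 {p c x : ℝ} (h1 : -21 / 50 < p) (h2 : p ≤ -39 / 100) : txg.v p c x = dt80.val (fun p x => kcg.v p x) p c x := by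
  symm
  refine (DT.val_le (by simp only [Cn.rt_v, Cn.ng_v]; push_cast; linarith)).trans ?_
  refine (DT.val_le (by simp only [Cn.rt_v, Cn.ng_v]; push_cast; linarith)).trans ?_
  refine (DT.val_gt (by simp only [Cn.rt_v, Cn.ng_v]; push_cast; linarith)).trans ?_
  refine (DT.val_gt (by simp only [Cn.rt_v, Cn.ng_v]; push_cast; linarith)).trans ?_
  refine (DT.val_le (by simp only [Cn.rt_v, Cn.ng_v]; push_cast; linarith)).trans ?_
  simp only [dt41, DT.val, cloR, sw41, sl41, sv41, txg, txg_4, txg_6, txg_26, txg_29, txg_32, txg_35, txg_80, txg_121, txg_124, txg_165, txg_206, txg_209, txg_212, txg_247, txg_282, txg_283, txg_320, txg_339, txg_370, txg_391, txg_393, txg_395, txg_446]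
  rcases eq_or_lt_of_le h2 with h | h2
  · subst h
    ((try push_cast); (repeat first | rw [if_pos (by linarith)] | rw [if_neg (by linarith)] | erw [if_pos (by linarith)] | erw [if_neg (by linarith)]); (try push_cast); (try ring1))
  · ((try push_cast); (repeat first | rw [if_pos (by linarith)] | rw [if_neg (by linarith)] | erw [if_pos (by linarith)] | erw [if_neg (by linarith)]); (try push_cast); (try ring1))
theorem txl4 {p c x : ℝ} (h1 : -39 / 100 < p) (h2 : p ≤ -9 / 25) : txg.v p c x = dt80.val (fun p x => kcg.v p x) p c x := by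
  symm
  refine (DT.val_le (by simp only [Cn.rt_v, Cn.ng_v]; push_cast; linarith)).trans ?_
  refine (DT.val_le (by simp only [Cn.rt_v, Cn.ng_v]; push_cast; linarith)).trans ?_
  refine (DT.val_gt (by simp only [Cn.rt_v, Cn.ng_v]; push_cast; linarith)).trans ?_
  refine (DT.val_gt (by simp only [Cn.rt_v, Cn.ng_v]; push_cast; linarith)).trans ?_
  refine (DT.val_gt (by simp only [Cn.rt_v, Cn.ng_v]; push_cast; linarith)).trans ?_
  simp only [dt42, DT.val, cloR, sw42, sl42, sv42, txg, txg_4, txg_6, txg_26, txg_29, txg_32, txg_35, txg_80, txg_121, txg_124, txg_165, txg_206, txg_209, txg_212, txg_247, txg_282, txg_283, txg_320, txg_339, txg_370, txg_391, txg_393, txg_395, txg_446]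
  rcases eq_or_lt_of_le h2 with h | h2
  · subst h
    ((try push_cast); (repeat first | rw [if_pos (by linarith)] | rw [if_neg (by linarith)] | erw [if_pos (by linarith)] | erw [if_neg (by linarith)]); (try push_cast); (try ring1))
  · ((try push_cast); (repeat first | rw [if_pos (by linarith)] | rw [if_neg (by linarith)] | erw [if_pos (by linarith)] | erw [if_neg (by linarith)]); (try push_cast); (try ring1))
theorem txl5 {p c x : ℝ} (h1 : -9 / 25 < p) (h2 : p ≤ -33 / 100) : txg.v p c x = dt80.val (fun p x => kcg.v p x) p c x := by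
  symm
  refine (DT.val_le (by simp only [Cn.rt_v, Cn.ng_v]; push_cast; linarith)).trans ?_
  refine (DT.val_gt (by simp only [Cn.rt_v, Cn.ng_v]; push_cast; linarith)).trans ?_
  refine (DT.val_le (by simp only [Cn.rt_v, Cn.ng_v]; push_cast; linarith)).trans ?_
  refine (DT.val_le (by simp only [Cn.rt_v, Cn.ng_v]; push_cast; linarith)).trans ?_
  simp only [dt43, DT.val, cloR, sw43, sl43, sv43, txg, txg_4, txg_6, txg_26, txg_29, txg_32, txg_35, txg_80, txg_121, txg_124, txg_165, txg_206, txg_209, txg_212, txg_247, txg_282, txg_283, txg_320, txg_339, txg_370, txg_391, txg_393, txg_395, txg_446]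
  rcases eq_or_lt_of_le h2 with h | h2
  · subst h
    ((try push_cast); (repeat first | rw [if_pos (by linarith)] | rw [if_neg (by linarith)] | erw [if_pos (by linarith)] | erw [if_neg (by linarith)]); (try push_cast); (try ring1))
  · ((try push_cast); (repeat first | rw [if_pos (by linarith)] | rw [if_neg (by linarith)] | erw [if_pos (by linarith)] | erw [if_neg (by linarith)]); (try push_cast); (try ring1))
theorem txl6 {p c x : ℝ} (h1 : -33 / 100 < p) (h2 : p ≤ -3 / 10) : txg.v p c x = dt80.val (fun p x => kcg.v p x) p c x := by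
  symm
  refine (DT.val_le (by simp only [Cn.rt_v, Cn.ng_v]; push_cast; linarith)).trans ?_
  refine (DT.val_gt (by simp only [Cn.rt_v, Cn.ng_v]; push_cast; linarith)).trans ?_
  refine (DT.val_le (by simp only [Cn.rt_v, Cn.ng_v]; push_cast; linarith)).trans ?_
  refine (DT.val_gt (by simp only [Cn.rt_v, Cn.ng_v]; push_cast; linarith)).trans ?_
  refine (DT.val_le (by simp only [Cn.rt_v, Cn.ng_v]; push_cast; linarith)).trans ?_
  simp only [dt44, DT.val, cloR, sw44, sl44, sv44, txg, txg_4, txg_6, txg_26, txg_29, txg_32, txg_35, txg_80, txg_121, txg_124, txg_165, txg_206, txg_209, txg_212, txg_247, txg_282, txg_283, txg_320, txg_339, txg_370, txg_391, txg_393, txg_395, txg_446]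
  rcases eq_or_lt_of_le h2 with h | h2
  · subst h
    ((try push_cast); (repeat first | rw [if_pos (by linarith)] | rw [if_neg (by linarith)] | erw [if_pos (by linarith)] | erw [if_neg (by linarith)]); (try push_cast); (try ring1))
  · ((try push_cast); (repeat first | rw [if_pos (by linarith)] | rw [if_neg (by linarith)] | erw [if_pos (by linarith)] | erw [if_neg (by linarith)]); (try push_cast); (try ring1))
theorem txl7 {p c x : ℝ} (h1 : -3 / 10 < p) (h2 : p ≤ -1 / 4) : txg.v p c x = dt80.val (fun p x => kcg.v p x) p c x := by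
  symm
  refine (DT.val_le (by simp only [Cn.rt_v, Cn.ng_v]; push_cast; linarith)).trans ?_
  refine (DT.val_gt (by simp only [Cn.rt_v, Cn.ng_v]; push_cast; linarith)).trans ?_
  refine (DT.val_le (by simp only [Cn.rt_v, Cn.ng_v]; push_cast; linarith)).trans ?_
  refine (DT.val_gt (by simp only [Cn.rt_v, Cn.ng_v]; push_cast; linarith)).trans ?_
  refine (DT.val_gt (by simp only [Cn.rt_v, Cn.ng_v]; push_cast; linarith)).trans ?_
  simp only [dt45, DT.val, cloR, sw45, sl45, sv45, txg, txg_4, txg_6, txg_26, txg_29, txg_32, txg_35, txg_80, txg_121, txg_124, txg_165, txg_206, txg_209, txg_212, txg_247, txg_282, txg_283, txg_320, txg_339, txg_370, txg_391, txg_393, txg_395, txg_446]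
  rcases eq_or_lt_of_le h2 with h | h2
  · subst h
    ((try push_cast); (repeat first | rw [if_pos (by linarith)] | rw [if_neg (by linarith)] | erw [if_pos (by linarith)] | erw [if_neg (by linarith)]); (try push_cast); (try ring1))
  · ((try push_cast); (repeat first | rw [if_pos (by linarith)] | rw [if_neg (by linarith)] | erw [if_pos (by linarith)] | erw [if_neg (by linarith)]); (try push_cast); (try ring1))
theorem txl8 {p c x : ℝ} (h1 : -1 / 4 < p) (h2 : p ≤ -1 / 5) : txg.v p c x = dt80.val (fun p x => kcg.v p x) p c x := by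
  symm
  refine (DT.val_le (by simp only [Cn.rt_v, Cn.ng_v]; push_cast; linarith)).trans ?_
  refine (DT.val_gt (by simp only [Cn.rt_v, Cn.ng_v]; push_cast; linarith)).trans ?_
  refine (DT.val_gt (by simp only [Cn.rt_v, Cn.ng_v]; push_cast; linarith)).trans ?_
  refine (DT.val_le (by simp only [Cn.rt_v, Cn.ng_v]; push_cast; linarith)).trans ?_
  simp only [dt46, DT.val, cloR, sw46, sl46, sv46, txg, txg_4, txg_6, txg_26, txg_29, txg_32, txg_35, txg_80, txg_121, txg_124, txg_165, txg_206, txg_209, txg_212, txg_247, txg_282, txg_283, txg_320, txg_339, txg_370, txg_391, txg_393, txg_395, txg_446]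
  rcases eq_or_lt_of_le h2 with h | h2
  · subst h
    ((try push_cast); (repeat first | rw [if_pos (by linarith)] | rw [if_neg (by linarith)] | erw [if_pos (by linarith)] | erw [if_neg (by linarith)]); (try push_cast); (try ring1))
  · ((try push_cast); (repeat first | rw [if_pos (by linarith)] | rw [if_neg (by linarith)] | erw [if_pos (by linarith)] | erw [if_neg (by linarith)]); (try push_cast); (try ring1))
theorem txl9 {p c x : ℝ} (h1 : -1 / 5 < p) (h2 : p ≤ -3 / 20) : txg.v p c x = dt80.val (fun p x => kcg.v p x) p c x := by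
  symm
  refine (DT.val_le (by simp only [Cn.rt_v, Cn.ng_v]; push_cast; linarith)).trans ?_
  refine (DT.val_gt (by simp only [Cn.rt_v, Cn.ng_v]; push_cast; linarith)).trans ?_
  refine (DT.val_gt (by simp only [Cn.rt_v, Cn.ng_v]; push_cast; linarith)).trans ?_
  refine (DT.val_gt (by simp only [Cn.rt_v, Cn.ng_v]; push_cast; linarith)).trans ?_
  refine (DT.val_le (by simp only [Cn.rt_v, Cn.ng_v]; push_cast; linarith)).trans ?_
  simp only [dt47, DT.val, cloR, sw47, sl47, sv47, txg, txg_4, txg_6, txg_26, txg_29, txg_32, txg_35, txg_80, txg_121, txg_124, txg_165, txg_206, txg_209, txg_212, txg_247, txg_282, txg_283, txg_320, txg_339, txg_370, txg_391, txg_393, txg_395, txg_446]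
  rcases eq_or_lt_of_le h2 with h | h2
  · subst h
    ((try push_cast); (repeat first | rw [if_pos (by linarith)] | rw [if_neg (by linarith)] | erw [if_pos (by linarith)] | erw [if_neg (by linarith)]); (try push_cast); (try ring1))
  · ((try push_cast); (repeat first | rw [if_pos (by linarith)] | rw [if_neg (by linarith)] | erw [if_pos (by linarith)] | erw [if_neg (by linarith)]); (try push_cast); (try ring1))
theorem txl10 {p c x : ℝ} (h1 : -3 / 20 < p) (h2 : p ≤ -1 / 10) : txg.v p c x = dt80.val (fun p x => kcg.v p x) p c x := by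
  symm
  refine (DT.val_le (by simp only [Cn.rt_v, Cn.ng_v]; push_cast; linarith)).trans ?_
  refine (DT.val_gt (by simp only [Cn.rt_v, Cn.ng_v]; push_cast; linarith)).trans ?_
  refine (DT.val_gt (by simp only [Cn.rt_v, Cn.ng_v]; push_cast; linarith)).trans ?_
  refine (DT.val_gt (by simp only [Cn.rt_v, Cn.ng_v]; push_cast; linarith)).trans ?_
  refine (DT.val_gt (by simp only [Cn.rt_v, Cn.ng_v]; push_cast; linarith)).trans ?_
  simp only [dt48, DT.val, cloR, sw48, sl48, sv48, txg, txg_4, txg_6, txg_26, txg_29, txg_32, txg_35, txg_80, txg_121, txg_124, txg_165, txg_206, txg_209, txg_212, txg_247, txg_282, txg_283, txg_320, txg_339, txg_370, txg_391, txg_393, txg_395, txg_446]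
  rcases eq_or_lt_of_le h2 with h | h2
  · subst h
    ((try push_cast); (repeat first | rw [if_pos (by linarith)] | rw [if_neg (by linarith)] | erw [if_pos (by linarith)] | erw [if_neg (by linarith)]); (try push_cast); (try ring1))
  · ((try push_cast); (repeat first | rw [if_pos (by linarith)] | rw [if_neg (by linarith)] | erw [if_pos (by linarith)] | erw [if_neg (by linarith)]); (try push_cast); (try ring1))
theorem txl11 {p c x : ℝ} (h1 : -1 / 10 < p) (h2 : p ≤ 1 / 10) : txg.v p c x = dt80.val (fun p x => kcg.v p x) p c x := by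
  symm
  refine (DT.val_gt (by simp only [Cn.rt_v, Cn.ng_v]; push_cast; linarith)).trans ?_
  refine (DT.val_le (by simp only [Cn.rt_v, Cn.ng_v]; push_cast; linarith)).trans ?_
  refine (DT.val_le (by simp only [Cn.rt_v, Cn.ng_v]; push_cast; linarith)).trans ?_
  refine (DT.val_le (by simp only [Cn.rt_v, Cn.ng_v]; push_cast; linarith)).trans ?_
  simp only [dt49, DT.val, cloR, sw49, sl49, sv49, txg, txg_4, txg_6, txg_26, txg_29, txg_32, txg_35, txg_80, txg_121, txg_124, txg_165, txg_206, txg_209, txg_212, txg_247, txg_282, txg_283, txg_320, txg_339, txg_370, txg_391, txg_393, txg_395, txg_446]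
  rcases eq_or_lt_of_le h2 with h | h2
  · subst h
    ((try push_cast); (repeat first | rw [if_pos (by linarith)] | rw [if_neg (by linarith)] | erw [if_pos (by linarith)] | erw [if_neg (by linarith)]); (try push_cast); (try ring1))
  · ((try push_cast); (repeat first | rw [if_pos (by linarith)] | rw [if_neg (by linarith)] | erw [if_pos (by linarith)] | erw [if_neg (by linarith)]); (try push_cast); (try ring1))
theorem txl12 {p c x : ℝ} (h1 : 1 / 10 < p) (h2 : p ≤ 3 / 20) : txg.v p c x = dt80.val (fun p x => kcg.v p x) p c x := by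
  symm
  refine (DT.val_gt (by simp only [Cn.rt_v, Cn.ng_v]; push_cast; linarith)).trans ?_
  refine (DT.val_le (by simp only [Cn.rt_v, Cn.ng_v]; push_cast; linarith)).trans ?_
  refine (DT.val_le (by simp only [Cn.rt_v, Cn.ng_v]; push_cast; linarith)).trans ?_
  refine (DT.val_gt (by simp only [Cn.rt_v, Cn.ng_v]; push_cast; linarith)).trans ?_
  simp only [dt50, DT.val, cloR, sw50, sl50, sv50, txg, txg_4, txg_6, txg_26, txg_29, txg_32, txg_35, txg_80, txg_121, txg_124, txg_165, txg_206, txg_209, txg_212, txg_247, txg_282, txg_283, txg_320, txg_339, txg_370, txg_391, txg_393, txg_395, txg_446]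
  rcases eq_or_lt_of_le h2 with h | h2
  · subst h
    ((try push_cast); (repeat first | rw [if_pos (by linarith)] | rw [if_neg (by linarith)] | erw [if_pos (by linarith)] | erw [if_neg (by linarith)]); (try push_cast); (try ring1))
  · ((try push_cast); (repeat first | rw [if_pos (by linarith)] | rw [if_neg (by linarith)] | erw [if_pos (by linarith)] | erw [if_neg (by linarith)]); (try push_cast); (try ring1))
theorem txl13 {p c x : ℝ} (h1 : 3 / 20 < p) (h2 : p ≤ 1 / 5) : txg.v p c x = dt80.val (fun p x => kcg.v p x) p c x := by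
  symm
  refine (DT.val_gt (by simp only [Cn.rt_v, Cn.ng_v]; push_cast; linarith)).trans ?_
  refine (DT.val_le (by simp only [Cn.rt_v, Cn.ng_v]; push_cast; linarith)).trans ?_
  refine (DT.val_gt (by simp only [Cn.rt_v, Cn.ng_v]; push_cast; linarith)).trans ?_
  refine (DT.val_le (by simp only [Cn.rt_v, Cn.ng_v]; push_cast; linarith)).trans ?_
  simp only [dt51, DT.val, cloR, sw51, sl51, sv51, txg, txg_4, txg_6, txg_26, txg_29, txg_32, txg_35, txg_80, txg_121, txg_124, txg_165, txg_206, txg_209, txg_212, txg_247, txg_282, txg_283, txg_320, txg_339, txg_370, txg_391, txg_393, txg_395, txg_446]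
  rcases eq_or_lt_of_le h2 with h | h2
  · subst h
    ((try push_cast); (repeat first | rw [if_pos (by linarith)] | rw [if_neg (by linarith)] | erw [if_pos (by linarith)] | erw [if_neg (by linarith)]); (try push_cast); (try ring1))
  · ((try push_cast); (repeat first | rw [if_pos (by linarith)] | rw [if_neg (by linarith)] | erw [if_pos (by linarith)] | erw [if_neg (by linarith)]); (try push_cast); (try ring1))
theorem txl14 {p c x : ℝ} (h1 : 1 / 5 < p) (h2 : p ≤ 1 / 4) : txg.v p c x = dt80.val (fun p x => kcg.v p x) p c x := by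
  symm
  refine (DT.val_gt (by simp only [Cn.rt_v, Cn.ng_v]; push_cast; linarith)).trans ?_
  refine (DT.val_le (by simp only [Cn.rt_v, Cn.ng_v]; push_cast; linarith)).trans ?_
  refine (DT.val_gt (by simp only [Cn.rt_v, Cn.ng_v]; push_cast; linarith)).trans ?_
  refine (DT.val_gt (by simp only [Cn.rt_v, Cn.ng_v]; push_cast; linarith)).trans ?_
  refine (DT.val_le (by simp only [Cn.rt_v, Cn.ng_v]; push_cast; linarith)).trans ?_
  simp only [dt52, DT.val, cloR, sw52, sl52, sv52, txg, txg_4, txg_6, txg_26, txg_29, txg_32, txg_35, txg_80, txg_121, txg_124, txg_165, txg_206, txg_209, txg_212, txg_247, txg_282, txg_283, txg_320, txg_339, txg_370, txg_391, txg_393, txg_395, txg_446]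
  rcases eq_or_lt_of_le h2 with h | h2
  · subst h
    ((try push_cast); (repeat first | rw [if_pos (by linarith)] | rw [if_neg (by linarith)] | erw [if_pos (by linarith)] | erw [if_neg (by linarith)]); (try push_cast); (try ring1))
  · ((try push_cast); (repeat first | rw [if_pos (by linarith)] | rw [if_neg (by linarith)] | erw [if_pos (by linarith)] | erw [if_neg (by linarith)]); (try push_cast); (try ring1))
theorem txl15 {p c x : ℝ} (h1 : 1 / 4 < p) (h2 : p ≤ 3 / 10) : txg.v p c x = dt80.val (fun p x => kcg.v p x) p c x := by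
  symm
  refine (DT.val_gt (by simp only [Cn.rt_v, Cn.ng_v]; push_cast; linarith)).trans ?_
  refine (DT.val_le (by simp only [Cn.rt_v, Cn.ng_v]; push_cast; linarith)).trans ?_
  refine (DT.val_gt (by simp only [Cn.rt_v, Cn.ng_v]; push_cast; linarith)).trans ?_
  refine (DT.val_gt (by simp only [Cn.rt_v, Cn.ng_v]; push_cast; linarith)).trans ?_
  refine (DT.val_gt (by simp only [Cn.rt_v, Cn.ng_v]; push_cast; linarith)).trans ?_
  simp only [dt53, DT.val, cloR, sw53, sl53, sv53, txg, txg_4, txg_6, txg_26, txg_29, txg_32, txg_35, txg_80, txg_121, txg_124, txg_165, txg_206, txg_209, txg_212, txg_247, txg_282, txg_283, txg_320, txg_339, txg_370, txg_391, txg_393, txg_395, txg_446]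
  rcases eq_or_lt_of_le h2 with h | h2
  · subst h
    ((try push_cast); (repeat first | rw [if_pos (by linarith)] | rw [if_neg (by linarith)] | erw [if_pos (by linarith)] | erw [if_neg (by linarith)]); (try push_cast); (try ring1))
  · ((try push_cast); (repeat first | rw [if_pos (by linarith)] | rw [if_neg (by linarith)] | erw [if_pos (by linarith)] | erw [if_neg (by linarith)]); (try push_cast); (try ring1))
theorem txl16 {p c x : ℝ} (h1 : 3 / 10 < p) (h2 : p ≤ 61 / 182) : txg.v p c x = dt80.val (fun p x => kcg.v p x) p c x := by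
  symm
  refine (DT.val_gt (by simp only [Cn.rt_v, Cn.ng_v]; push_cast; linarith)).trans ?_
  refine (DT.val_gt (by simp only [Cn.rt_v, Cn.ng_v]; push_cast; linarith)).trans ?_
  refine (DT.val_le (by simp only [Cn.rt_v, Cn.ng_v]; push_cast; linarith)).trans ?_
  refine (DT.val_le (by simp only [Cn.rt_v, Cn.ng_v]; push_cast; linarith)).trans ?_
  simp only [dt54, DT.val, cloR, sw54, sw54_2, sl54, sl54_2, sv54, sv54_2, txg, txg_4, txg_6, txg_26, txg_29, txg_32, txg_35, txg_80, txg_121, txg_124, txg_165, txg_206, txg_209, txg_212, txg_247, txg_282, txg_283, txg_320, txg_339, txg_370, txg_391, txg_393, txg_395, txg_446]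
  rcases eq_or_lt_of_le h2 with h | h2
  · subst h
    ((try push_cast); (repeat first | rw [if_pos (by linarith)] | rw [if_neg (by linarith)] | erw [if_pos (by linarith)] | erw [if_neg (by linarith)]); (try push_cast); (try ring1))
  · ((try push_cast); (repeat first | rw [if_pos (by linarith)] | rw [if_neg (by linarith)] | erw [if_pos (by linarith)] | erw [if_neg (by linarith)]); (try push_cast); (try ring1))
theorem txl17 {p c x : ℝ} (h1 : 61 / 182 < p) (h2 : p ≤ 107 / 254) : txg.v p c x = dt80.val (fun p x => kcg.v p x) p c x := by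
  symm
  refine (DT.val_gt (by simp only [Cn.rt_v, Cn.ng_v]; push_cast; linarith)).trans ?_
  refine (DT.val_gt (by simp only [Cn.rt_v, Cn.ng_v]; push_cast; linarith)).trans ?_
  refine (DT.val_le (by simp only [Cn.rt_v, Cn.ng_v]; push_cast; linarith)).trans ?_
  refine (DT.val_gt (by simp only [Cn.rt_v, Cn.ng_v]; push_cast; linarith)).trans ?_
  refine (DT.val_le (by simp only [Cn.rt_v, Cn.ng_v]; push_cast; linarith)).trans ?_
  simp only [dt55, DT.val, cloR, txg, txg_4, txg_6, txg_26, txg_29, txg_32, txg_35, txg_80, txg_121, txg_124, txg_165, txg_206, txg_209, txg_212, txg_247, txg_282, txg_283, txg_320, txg_339, txg_370, txg_391, txg_393, txg_395, txg_446]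
  rcases eq_or_lt_of_le h2 with h | h2
  · subst h
    ((try push_cast); (repeat first | rw [if_pos (by linarith)] | rw [if_neg (by linarith)] | erw [if_pos (by linarith)] | erw [if_neg (by linarith)]); (try push_cast); (try ring1))
  · ((try push_cast); (repeat first | rw [if_pos (by linarith)] | rw [if_neg (by linarith)] | erw [if_pos (by linarith)] | erw [if_neg (by linarith)]); (try push_cast); (try ring1))
theorem txl18 {p c x : ℝ} (h1 : 107 / 254 < p) (h2 : p ≤ 11 / 25) : txg.v p c x = dt80.val (fun p x => kcg.v p x) p c x := by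
  symm
  refine (DT.val_gt (by simp only [Cn.rt_v, Cn.ng_v]; push_cast; linarith)).trans ?_
  refine (DT.val_gt (by simp only [Cn.rt_v, Cn.ng_v]; push_cast; linarith)).trans ?_
  refine (DT.val_le (by simp only [Cn.rt_v, Cn.ng_v]; push_cast; linarith)).trans ?_
  refine (DT.val_gt (by simp only [Cn.rt_v, Cn.ng_v]; push_cast; linarith)).trans ?_
  refine (DT.val_gt (by simp only [Cn.rt_v, Cn.ng_v]; push_cast; linarith)).trans ?_
  simp only [dt56, DT.val, cloR, sw56, sw56_2, sl56, sl56_2, sv56, sv56_2, txg, txg_4, txg_6, txg_26, txg_29, txg_32, txg_35, txg_80, txg_121, txg_124, txg_165, txg_206, txg_209, txg_212, txg_247, txg_282, txg_283, txg_320, txg_339, txg_370, txg_391, txg_393, txg_395, txg_446]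
  rcases eq_or_lt_of_le h2 with h | h2
  · subst h
    ((try push_cast); (repeat first | rw [if_pos (by linarith)] | rw [if_neg (by linarith)] | erw [if_pos (by linarith)] | erw [if_neg (by linarith)]); (try push_cast); (try ring1))
  · ((try push_cast); (repeat first | rw [if_pos (by linarith)] | rw [if_neg (by linarith)] | erw [if_pos (by linarith)] | erw [if_neg (by linarith)]); (try push_cast); (try ring1))
theorem txl19 {p c x : ℝ} (h1 : 11 / 25 < p) (h2 : p ≤ 91 / 200) : txg.v p c x = dt80.val (fun p x => kcg.v p x) p c x := by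
  symm
  refine (DT.val_gt (by simp only [Cn.rt_v, Cn.ng_v]; push_cast; linarith)).trans ?_
  refine (DT.val_gt (by simp only [Cn.rt_v, Cn.ng_v]; push_cast; linarith)).trans ?_
  refine (DT.val_gt (by simp only [Cn.rt_v, Cn.ng_v]; push_cast; linarith)).trans ?_
  refine (DT.val_le (by simp only [Cn.rt_v, Cn.ng_v]; push_cast; linarith)).trans ?_
  simp only [dt57, DT.val, cloR, sw57, sl57, sv57, txg, txg_4, txg_6, txg_26, txg_29, txg_32, txg_35, txg_80, txg_121, txg_124, txg_165, txg_206, txg_209, txg_212, txg_247, txg_282, txg_283, txg_320, txg_339, txg_370, txg_391, txg_393, txg_395, txg_446]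
  rcases eq_or_lt_of_le h2 with h | h2
  · subst h
    ((try push_cast); (repeat first | rw [if_pos (by linarith)] | rw [if_neg (by linarith)] | erw [if_pos (by linarith)] | erw [if_neg (by linarith)]); (try push_cast); (try ring1))
  · ((try push_cast); (repeat first | rw [if_pos (by linarith)] | rw [if_neg (by linarith)] | erw [if_pos (by linarith)] | erw [if_neg (by linarith)]); (try push_cast); (try ring1))
theorem txl20 {p c x : ℝ} (h1 : 91 / 200 < p) (h2 : p ≤ 47 / 100) : txg.v p c x = dt80.val (fun p x => kcg.v p x) p c x := by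
  symm
  refine (DT.val_gt (by simp only [Cn.rt_v, Cn.ng_v]; push_cast; linarith)).trans ?_
  refine (DT.val_gt (by simp only [Cn.rt_v, Cn.ng_v]; push_cast; linarith)).trans ?_
  refine (DT.val_gt (by simp only [Cn.rt_v, Cn.ng_v]; push_cast; linarith)).trans ?_
  refine (DT.val_gt (by simp only [Cn.rt_v, Cn.ng_v]; push_cast; linarith)).trans ?_
  refine (DT.val_le (by simp only [Cn.rt_v, Cn.ng_v]; push_cast; linarith)).trans ?_
  simp only [dt58, DT.val, cloR, sw58, sl58, sv58, txg, txg_4, txg_6, txg_26, txg_29, txg_32, txg_35, txg_80, txg_121, txg_124, txg_165, txg_206, txg_209, txg_212, txg_247, txg_282, txg_283, txg_320, txg_339, txg_370, txg_391, txg_393, txg_395, txg_446]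
  rcases eq_or_lt_of_le h2 with h | h2
  · subst h
    ((try push_cast); (repeat first | rw [if_pos (by linarith)] | rw [if_neg (by linarith)] | erw [if_pos (by linarith)] | erw [if_neg (by linarith)]); (try push_cast); (try ring1))
  · ((try push_cast); (repeat first | rw [if_pos (by linarith)] | rw [if_neg (by linarith)] | erw [if_pos (by linarith)] | erw [if_neg (by linarith)]); (try push_cast); (try ring1))
theorem txl21 {p c x : ℝ} (h1 : 47 / 100 < p) (h2 : p ≤ 1 / 2) : txg.v p c x = dt80.val (fun p x => kcg.v p x) p c x := by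
  symm
  refine (DT.val_gt (by simp only [Cn.rt_v, Cn.ng_v]; push_cast; linarith)).trans ?_
  refine (DT.val_gt (by simp only [Cn.rt_v, Cn.ng_v]; push_cast; linarith)).trans ?_
  refine (DT.val_gt (by simp only [Cn.rt_v, Cn.ng_v]; push_cast; linarith)).trans ?_
  refine (DT.val_gt (by simp only [Cn.rt_v, Cn.ng_v]; push_cast; linarith)).trans ?_
  refine (DT.val_gt (by simp only [Cn.rt_v, Cn.ng_v]; push_cast; linarith)).trans ?_
  simp only [dt59, DT.val, cloR, sw59, sl59, sv59, txg, txg_4, txg_6, txg_26, txg_29, txg_32, txg_35, txg_80, txg_121, txg_124, txg_165, txg_206, txg_209, txg_212, txg_247, txg_282, txg_283, txg_320, txg_339, txg_370, txg_391, txg_393, txg_395, txg_446]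
  rcases eq_or_lt_of_le h2 with h | h2
  · subst h
    ((try push_cast); (repeat first | rw [if_pos (by linarith)] | rw [if_neg (by linarith)] | erw [if_pos (by linarith)] | erw [if_neg (by linarith)]); (try push_cast); (try ring1))
  · ((try push_cast); (repeat first | rw [if_pos (by linarith)] | rw [if_neg (by linarith)] | erw [if_pos (by linarith)] | erw [if_neg (by linarith)]); (try push_cast); (try ring1))
theorem txe {x : ℝ} (p c : ℝ) (h : |p| ≤ 1 / 2) : txg.v p c x = dt80.val (fun p x => kcg.v p x) p c x := by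
  obtain ⟨h1, h2⟩ := abs_le.1 h
  rcases le_or_gt p (-47 / 100) with g0 | g1000
  · exact txl0 (by linarith) g0
  rcases le_or_gt p (-9 / 20) with g1 | g1001
  · exact txl1 g1000 g1
  rcases le_or_gt p (-21 / 50) with g2 | g1002
  · exact txl2 g1001 g2
  rcases le_or_gt p (-39 / 100) with g3 | g1003
  · exact txl3 g1002 g3
  rcases le_or_gt p (-9 / 25) with g4 | g1004
  · exact txl4 g1003 g4
  rcases le_or_gt p (-33 / 100) with g5 | g1005
  · exact txl5 g1004 g5
  rcases le_or_gt p (-3 / 10) with g6 | g1006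
  · exact txl6 g1005 g6
  rcases le_or_gt p (-1 / 4) with g7 | g1007
  · exact txl7 g1006 g7
  rcases le_or_gt p (-1 / 5) with g8 | g1008
  · exact txl8 g1007 g8
  rcases le_or_gt p (-3 / 20) with g9 | g1009
  · exact txl9 g1008 g9
  rcases le_or_gt p (-1 / 10) with g10 | g1010
  · exact txl10 g1009 g10
  rcases le_or_gt p (1 / 10) with g11 | g1011
  · exact txl11 g1010 g11
  rcases le_or_gt p (3 / 20) with g12 | g1012
  · exact txl12 g1011 g12
  rcases le_or_gt p (1 / 5) with g13 | g1013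
  · exact txl13 g1012 g13
  rcases le_or_gt p (1 / 4) with g14 | g1014
  · exact txl14 g1013 g14
  rcases le_or_gt p (3 / 10) with g15 | g1015
  · exact txl15 g1014 g15
  rcases le_or_gt p (61 / 182) with g16 | g1016
  · exact txl16 g1015 g16
  rcases le_or_gt p (107 / 254) with g17 | g1017
  · exact txl17 g1016 g17
  rcases le_or_gt p (11 / 25) with g18 | g1018
  · exact txl18 g1017 g18
  rcases le_or_gt p (91 / 200) with g19 | g1019
  · exact txl19 g1018 g19
  rcases le_or_gt p (47 / 100) with g20 | g1020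
  · exact txl20 g1019 g20
  · exact txl21 g1020 (by linarith)
theorem ta_dt38 (x : ℝ) : dt38.val (fun p x => kcg.v p x) (-1 / 2) (cT (-1 / 2)) x = (0) := by
  simp only [dt38, DT.val, sw38, sl38, sv38]
  ((try push_cast); ring1)
theorem tb_dt38 (x : ℝ) : dt38.val (fun p x => kcg.v p x) (-47 / 100) (cT (-47 / 100)) x = (105717 / 10000000 + (x - 237 / 260) * (-1971 / 400000)) := by
  simp only [dt38, DT.val, sw38, sl38, sv38]
  ((try push_cast); ring1)
theorem ta_dt39 (x : ℝ) : dt39.val (fun p x => kcg.v p x) (-47 / 100) (cT (-47 / 100)) x = (105717 / 10000000 + (x - 237 / 260) * (-1971 / 400000)) := by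
  simp only [dt39, DT.val, sw39, sl39, sv39]
  ((try push_cast); ring1)
theorem tb_dt39 (x : ℝ) : dt39.val (fun p x => kcg.v p x) (-9 / 20) (cT (-9 / 20)) x = (39287 / 2000000 + (x - 237 / 260) * (1477 / 80000)) := by
  simp only [dt39, DT.val, sw39, sl39, sv39]
  ((try push_cast); ring1)
theorem ta_dt60 (x : ℝ) : dt60.val (fun p x => kcg.v p x) (-1 / 2) (cT (-1 / 2)) x = (0) :=
  (DT.val_le (by simp only [Cn.rt_v, Cn.ng_v]; norm_num)).trans (ta_dt38 x)
theorem tb_dt60 (x : ℝ) : dt60.val (fun p x => kcg.v p x) (-9 / 20) (cT (-9 / 20)) x = (39287 / 2000000 + (x - 237 / 260) * (1477 / 80000)) :=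
  (DT.val_gt (by simp only [Cn.rt_v, Cn.ng_v]; norm_num)).trans (tb_dt39 x)
theorem ta_dt40 (x : ℝ) : dt40.val (fun p x => kcg.v p x) (-9 / 20) (cT (-9 / 20)) x = (39287 / 2000000 + (x - 237 / 260) * (1477 / 80000)) := by
  simp only [dt40, DT.val, sw40, sl40, sv40]
  ((try push_cast); ring1)
theorem tb_dt40 (x : ℝ) : dt40.val (fun p x => kcg.v p x) (-21 / 50) (cT (-21 / 50)) x = (319771 / 10000000 + (x - 237 / 260) * (5893 / 500000)) := by
  simp only [dt40, DT.val, sw40, sl40, sv40]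
  ((try push_cast); ring1)
theorem ta_dt41 (x : ℝ) : dt41.val (fun p x => kcg.v p x) (-21 / 50) (cT (-21 / 50)) x = (319771 / 10000000 + (x - 237 / 260) * (5893 / 500000)) := by
  simp only [dt41, DT.val, sw41, sl41, sv41]
  ((try push_cast); ring1)
theorem tb_dt41 (x : ℝ) : dt41.val (fun p x => kcg.v p x) (-39 / 100) (cT (-39 / 100)) x = (846353 / 20000000 + (x - 237 / 260) * (-151979 / 2000000)) := by
  simp only [dt41, DT.val, sw41, sl41, sv41]
  ((try push_cast); ring1)
theorem ta_dt42 (x : ℝ) : dt42.val (fun p x => kcg.v p x) (-39 / 100) (cT (-39 / 100)) x = (846353 / 20000000 + (x - 237 / 260) * (-151979 / 2000000)) := by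
  simp only [dt42, DT.val, sw42, sl42, sv42]
  ((try push_cast); ring1)
theorem tb_dt42 (x : ℝ) : dt42.val (fun p x => kcg.v p x) (-9 / 25) (cT (-9 / 25)) x = (130399 / 2500000 + (x - 237 / 260) * (-234361 / 1000000)) := by
  simp only [dt42, DT.val, sw42, sl42, sv42]
  ((try push_cast); ring1)
theorem ta_dt61 (x : ℝ) : dt61.val (fun p x => kcg.v p x) (-21 / 50) (cT (-21 / 50)) x = (319771 / 10000000 + (x - 237 / 260) * (5893 / 500000)) :=
  (DT.val_le (by simp only [Cn.rt_v, Cn.ng_v]; norm_num)).trans (ta_dt41 x)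
theorem tb_dt61 (x : ℝ) : dt61.val (fun p x => kcg.v p x) (-9 / 25) (cT (-9 / 25)) x = (130399 / 2500000 + (x - 237 / 260) * (-234361 / 1000000)) :=
  (DT.val_gt (by simp only [Cn.rt_v, Cn.ng_v]; norm_num)).trans (tb_dt42 x)
theorem ta_dt62 (x : ℝ) : dt62.val (fun p x => kcg.v p x) (-9 / 20) (cT (-9 / 20)) x = (39287 / 2000000 + (x - 237 / 260) * (1477 / 80000)) :=
  (DT.val_le (by simp only [Cn.rt_v, Cn.ng_v]; norm_num)).trans (ta_dt40 x)
theorem tb_dt62 (x : ℝ) : dt62.val (fun p x => kcg.v p x) (-9 / 25) (cT (-9 / 25)) x = (130399 / 2500000 + (x - 237 / 260) * (-234361 / 1000000)) :=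
  (DT.val_gt (by simp only [Cn.rt_v, Cn.ng_v]; norm_num)).trans (tb_dt61 x)
theorem ta_dt63 (x : ℝ) : dt63.val (fun p x => kcg.v p x) (-1 / 2) (cT (-1 / 2)) x = (0) :=
  (DT.val_le (by simp only [Cn.rt_v, Cn.ng_v]; norm_num)).trans (ta_dt60 x)
theorem tb_dt63 (x : ℝ) : dt63.val (fun p x => kcg.v p x) (-9 / 25) (cT (-9 / 25)) x = (130399 / 2500000 + (x - 237 / 260) * (-234361 / 1000000)) :=
  (DT.val_gt (by simp only [Cn.rt_v, Cn.ng_v]; norm_num)).trans (tb_dt62 x)
theorem ta_dt43 (x : ℝ) : dt43.val (fun p x => kcg.v p x) (-9 / 25) (cT (-9 / 25)) x = (130399 / 2500000 + (x - 237 / 260) * (-234361 / 1000000)) := by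
  simp only [dt43, DT.val, sw43, sl43, sv43]
  ((try push_cast); ring1)
theorem tb_dt43 (x : ℝ) : dt43.val (fun p x => kcg.v p x) (-33 / 100) (cT (-33 / 100)) x = (1231733 / 20000000 + (x - 237 / 260) * (-47219 / 125000)) := by
  simp only [dt43, DT.val, sw43, sl43, sv43]
  ((try push_cast); ring1)
theorem ta_dt44 (x : ℝ) : dt44.val (fun p x => kcg.v p x) (-33 / 100) (cT (-33 / 100)) x = (1231733 / 20000000 + (x - 237 / 260) * (-47219 / 125000)) := by
  simp only [dt44, DT.val, sw44, sl44, sv44]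
  ((try push_cast); ring1)
theorem tb_dt44 (x : ℝ) : dt44.val (fun p x => kcg.v p x) (-3 / 10) (cT (-3 / 10)) x = (146387 / 2000000 + (x - 237 / 260) * (-130807 / 400000)) := by
  simp only [dt44, DT.val, sw44, sl44, sv44]
  ((try push_cast); ring1)
theorem ta_dt45 (x : ℝ) : dt45.val (fun p x => kcg.v p x) (-3 / 10) (cT (-3 / 10)) x = (146387 / 2000000 + (x - 237 / 260) * (-130807 / 400000)) := by
  simp only [dt45, DT.val, sw45, sl45, sv45]
  ((try push_cast); ring1)
theorem tb_dt45 (x : ℝ) : dt45.val (fun p x => kcg.v p x) (-1 / 4) (cT (-1 / 4)) x = (403663 / 4000000 + (x - 237 / 260) * (223 / 40000)) := by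
  simp only [dt45, DT.val, sw45, sl45, sv45]
  ((try push_cast); ring1)
theorem ta_dt64 (x : ℝ) : dt64.val (fun p x => kcg.v p x) (-33 / 100) (cT (-33 / 100)) x = (1231733 / 20000000 + (x - 237 / 260) * (-47219 / 125000)) :=
  (DT.val_le (by simp only [Cn.rt_v, Cn.ng_v]; norm_num)).trans (ta_dt44 x)
theorem tb_dt64 (x : ℝ) : dt64.val (fun p x => kcg.v p x) (-1 / 4) (cT (-1 / 4)) x = (403663 / 4000000 + (x - 237 / 260) * (223 / 40000)) :=
  (DT.val_gt (by simp only [Cn.rt_v, Cn.ng_v]; norm_num)).trans (tb_dt45 x)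
theorem ta_dt65 (x : ℝ) : dt65.val (fun p x => kcg.v p x) (-9 / 25) (cT (-9 / 25)) x = (130399 / 2500000 + (x - 237 / 260) * (-234361 / 1000000)) :=
  (DT.val_le (by simp only [Cn.rt_v, Cn.ng_v]; norm_num)).trans (ta_dt43 x)
theorem tb_dt65 (x : ℝ) : dt65.val (fun p x => kcg.v p x) (-1 / 4) (cT (-1 / 4)) x = (403663 / 4000000 + (x - 237 / 260) * (223 / 40000)) :=
  (DT.val_gt (by simp only [Cn.rt_v, Cn.ng_v]; norm_num)).trans (tb_dt64 x)
theorem ta_dt46 (x : ℝ) : dt46.val (fun p x => kcg.v p x) (-1 / 4) (cT (-1 / 4)) x = (403663 / 4000000 + (x - 237 / 260) * (223 / 40000)) := by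
  simp only [dt46, DT.val, sw46, sl46, sv46]
  ((try push_cast); ring1)
theorem tb_dt46 (x : ℝ) : dt46.val (fun p x => kcg.v p x) (-1 / 5) (cT (-1 / 5)) x = (266071 / 2000000 + (x - 237 / 260) * (61571 / 200000)) := by
  simp only [dt46, DT.val, sw46, sl46, sv46]
  ((try push_cast); ring1)
theorem ta_dt47 (x : ℝ) : dt47.val (fun p x => kcg.v p x) (-1 / 5) (cT (-1 / 5)) x = (266071 / 2000000 + (x - 237 / 260) * (61571 / 200000)) := by
  simp only [dt47, DT.val, sw47, sl47, sv47]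
  ((try push_cast); ring1)
theorem tb_dt47 (x : ℝ) : dt47.val (fun p x => kcg.v p x) (-3 / 20) (cT (-3 / 20)) x = (655721 / 4000000 + (x - 237 / 260) * (218659 / 400000)) := by
  simp only [dt47, DT.val, sw47, sl47, sv47]
  ((try push_cast); ring1)
theorem ta_dt48 (x : ℝ) : dt48.val (fun p x => kcg.v p x) (-3 / 20) (cT (-3 / 20)) x = (655721 / 4000000 + (x - 237 / 260) * (218659 / 400000)) := by
  simp only [dt48, DT.val, sw48, sl48, sv48]
  ((try push_cast); ring1)
theorem tb_dt48 (x : ℝ) : dt48.val (fun p x => kcg.v p x) (-1 / 10) (cT (-1 / 10)) x = (4731 / 25000 + (x - 237 / 260) * (284121 / 400000)) := by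
  simp only [dt48, DT.val, sw48, sl48, sv48]
  ((try push_cast); ring1)
theorem ta_dt66 (x : ℝ) : dt66.val (fun p x => kcg.v p x) (-1 / 5) (cT (-1 / 5)) x = (266071 / 2000000 + (x - 237 / 260) * (61571 / 200000)) :=
  (DT.val_le (by simp only [Cn.rt_v, Cn.ng_v]; norm_num)).trans (ta_dt47 x)
theorem tb_dt66 (x : ℝ) : dt66.val (fun p x => kcg.v p x) (-1 / 10) (cT (-1 / 10)) x = (4731 / 25000 + (x - 237 / 260) * (284121 / 400000)) :=
  (DT.val_gt (by simp only [Cn.rt_v, Cn.ng_v]; norm_num)).trans (tb_dt48 x)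
theorem ta_dt67 (x : ℝ) : dt67.val (fun p x => kcg.v p x) (-1 / 4) (cT (-1 / 4)) x = (403663 / 4000000 + (x - 237 / 260) * (223 / 40000)) :=
  (DT.val_le (by simp only [Cn.rt_v, Cn.ng_v]; norm_num)).trans (ta_dt46 x)
theorem tb_dt67 (x : ℝ) : dt67.val (fun p x => kcg.v p x) (-1 / 10) (cT (-1 / 10)) x = (4731 / 25000 + (x - 237 / 260) * (284121 / 400000)) :=
  (DT.val_gt (by simp only [Cn.rt_v, Cn.ng_v]; norm_num)).trans (tb_dt66 x)
theorem ta_dt68 (x : ℝ) : dt68.val (fun p x => kcg.v p x) (-9 / 25) (cT (-9 / 25)) x = (130399 / 2500000 + (x - 237 / 260) * (-234361 / 1000000)) :=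
  (DT.val_le (by simp only [Cn.rt_v, Cn.ng_v]; norm_num)).trans (ta_dt65 x)
theorem tb_dt68 (x : ℝ) : dt68.val (fun p x => kcg.v p x) (-1 / 10) (cT (-1 / 10)) x = (4731 / 25000 + (x - 237 / 260) * (284121 / 400000)) :=
  (DT.val_gt (by simp only [Cn.rt_v, Cn.ng_v]; norm_num)).trans (tb_dt67 x)
theorem ta_dt69 (x : ℝ) : dt69.val (fun p x => kcg.v p x) (-1 / 2) (cT (-1 / 2)) x = (0) :=
  (DT.val_le (by simp only [Cn.rt_v, Cn.ng_v]; norm_num)).trans (ta_dt63 x)
theorem tb_dt69 (x : ℝ) : dt69.val (fun p x => kcg.v p x) (-1 / 10) (cT (-1 / 10)) x = (4731 / 25000 + (x - 237 / 260) * (284121 / 400000)) :=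
  (DT.val_gt (by simp only [Cn.rt_v, Cn.ng_v]; norm_num)).trans (tb_dt68 x)
theorem ta_dt49 (x : ℝ) : dt49.val (fun p x => kcg.v p x) (-1 / 10) (cT (-1 / 10)) x = (4731 / 25000 + (x - 237 / 260) * (284121 / 400000)) := by
  simp only [dt49, DT.val, sw49, sl49, sv49]
  ((try push_cast); ring1)
theorem tb_dt49 (x : ℝ) : dt49.val (fun p x => kcg.v p x) (1 / 10) (cT (1 / 10)) x = (101807 / 500000 + (x - 237 / 260) * (339609 / 400000)) := by
  simp only [dt49, DT.val, sw49, sl49, sv49]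
  ((try push_cast); ring1)
theorem ta_dt50 (x : ℝ) : dt50.val (fun p x => kcg.v p x) (1 / 10) (cT (1 / 10)) x = (101807 / 500000 + (x - 237 / 260) * (339609 / 400000)) := by
  simp only [dt50, DT.val, sw50, sl50, sv50]
  ((try push_cast); ring1)
theorem tb_dt50 (x : ℝ) : dt50.val (fun p x => kcg.v p x) (3 / 20) (cT (3 / 20)) x = (150619 / 800000 + (x - 237 / 260) * (19371 / 25000)) := by
  simp only [dt50, DT.val, sw50, sl50, sv50]
  ((try push_cast); ring1)
theorem ta_dt70 (x : ℝ) : dt70.val (fun p x => kcg.v p x) (-1 / 10) (cT (-1 / 10)) x = (4731 / 25000 + (x - 237 / 260) * (284121 / 400000)) :=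
  (DT.val_le (by simp only [Cn.rt_v, Cn.ng_v]; norm_num)).trans (ta_dt49 x)
theorem tb_dt70 (x : ℝ) : dt70.val (fun p x => kcg.v p x) (3 / 20) (cT (3 / 20)) x = (150619 / 800000 + (x - 237 / 260) * (19371 / 25000)) :=
  (DT.val_gt (by simp only [Cn.rt_v, Cn.ng_v]; norm_num)).trans (tb_dt50 x)
theorem ta_dt51 (x : ℝ) : dt51.val (fun p x => kcg.v p x) (3 / 20) (cT (3 / 20)) x = (150619 / 800000 + (x - 237 / 260) * (19371 / 25000)) := by
  simp only [dt51, DT.val, sw51, sl51, sv51]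
  ((try push_cast); ring1)
theorem tb_dt51 (x : ℝ) : dt51.val (fun p x => kcg.v p x) (1 / 5) (cT (1 / 5)) x = (10611 / 62500 + (x - 237 / 260) * (260513 / 400000)) := by
  simp only [dt51, DT.val, sw51, sl51, sv51]
  ((try push_cast); ring1)
theorem ta_dt52 (x : ℝ) : dt52.val (fun p x => kcg.v p x) (1 / 5) (cT (1 / 5)) x = (10611 / 62500 + (x - 237 / 260) * (260513 / 400000)) := by
  simp only [dt52, DT.val, sw52, sl52, sv52]
  ((try push_cast); ring1)
theorem tb_dt52 (x : ℝ) : dt52.val (fun p x => kcg.v p x) (1 / 4) (cT (1 / 4)) x = (593453 / 4000000 + (x - 237 / 260) * (37801 / 80000)) := by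
  simp only [dt52, DT.val, sw52, sl52, sv52]
  ((try push_cast); ring1)
theorem ta_dt53 (x : ℝ) : dt53.val (fun p x => kcg.v p x) (1 / 4) (cT (1 / 4)) x = (593453 / 4000000 + (x - 237 / 260) * (37801 / 80000)) := by
  simp only [dt53, DT.val, sw53, sl53, sv53]
  ((try push_cast); ring1)
theorem tb_dt53 (x : ℝ) : dt53.val (fun p x => kcg.v p x) (3 / 10) (cT (3 / 10)) x = (502457 / 4000000 + (x - 237 / 260) * (11929 / 50000)) := by
  simp only [dt53, DT.val, sw53, sl53, sv53]
  ((try push_cast); ring1)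
theorem ta_dt71 (x : ℝ) : dt71.val (fun p x => kcg.v p x) (1 / 5) (cT (1 / 5)) x = (10611 / 62500 + (x - 237 / 260) * (260513 / 400000)) :=
  (DT.val_le (by simp only [Cn.rt_v, Cn.ng_v]; norm_num)).trans (ta_dt52 x)
theorem tb_dt71 (x : ℝ) : dt71.val (fun p x => kcg.v p x) (3 / 10) (cT (3 / 10)) x = (502457 / 4000000 + (x - 237 / 260) * (11929 / 50000)) :=
  (DT.val_gt (by simp only [Cn.rt_v, Cn.ng_v]; norm_num)).trans (tb_dt53 x)
theorem ta_dt72 (x : ℝ) : dt72.val (fun p x => kcg.v p x) (3 / 20) (cT (3 / 20)) x = (150619 / 800000 + (x - 237 / 260) * (19371 / 25000)) :=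
  (DT.val_le (by simp only [Cn.rt_v, Cn.ng_v]; norm_num)).trans (ta_dt51 x)
theorem tb_dt72 (x : ℝ) : dt72.val (fun p x => kcg.v p x) (3 / 10) (cT (3 / 10)) x = (502457 / 4000000 + (x - 237 / 260) * (11929 / 50000)) :=
  (DT.val_gt (by simp only [Cn.rt_v, Cn.ng_v]; norm_num)).trans (tb_dt71 x)
theorem ta_dt73 (x : ℝ) : dt73.val (fun p x => kcg.v p x) (-1 / 10) (cT (-1 / 10)) x = (4731 / 25000 + (x - 237 / 260) * (284121 / 400000)) :=
  (DT.val_le (by simp only [Cn.rt_v, Cn.ng_v]; norm_num)).trans (ta_dt70 x)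
theorem tb_dt73 (x : ℝ) : dt73.val (fun p x => kcg.v p x) (3 / 10) (cT (3 / 10)) x = (502457 / 4000000 + (x - 237 / 260) * (11929 / 50000)) :=
  (DT.val_gt (by simp only [Cn.rt_v, Cn.ng_v]; norm_num)).trans (tb_dt72 x)
theorem ta_dt54 (x : ℝ) : dt54.val (fun p x => kcg.v p x) (3 / 10) (cT (3 / 10)) x = (502457 / 4000000 + (x - 237 / 260) * (11929 / 50000)) := by
  simp only [dt54, DT.val, sw54, sw54_2, sl54, sl54_2, sv54, sv54_2]
  ((try push_cast); ring1)
theorem tb_dt54 (x : ℝ) : dt54.val (fun p x => kcg.v p x) (61 / 182) (59 / 91) x = (81023957897 / 739375000000 + (x - 237 / 260) * (1100916367 / 7393750000) + (x - 237 / 260) ^ 2 * (-4080701 / 10156250)) := by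
  simp only [dt54, DT.val, sw54, sw54_2, sl54, sl54_2, sv54, sv54_2]
  ((try push_cast); ring1)
theorem ta_dt55 (x : ℝ) : dt55.val (fun p x => kcg.v p x) (61 / 182) (59 / 91) x = (81023957897 / 739375000000 + (x - 237 / 260) * (1100916367 / 7393750000) + (x - 237 / 260) ^ 2 * (-4080701 / 10156250)) := by
  simp only [dt55, DT.val, cloR, kgA]
  ring1
theorem tb_dt55 (x : ℝ) : dt55.val (fun p x => kcg.v p x) (107 / 254) (73 / 127) x = (2501307726813 / 41935400000000 + (x - 237 / 260) * (2481073979463 / 20967700000000) + (x - 237 / 260) ^ 2 * (11403207 / 635000000)) := by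
  simp only [dt55, DT.val, cloR, kgB]
  ring1
theorem ta_dt56 (x : ℝ) : dt56.val (fun p x => kcg.v p x) (107 / 254) (73 / 127) x = (2501307726813 / 41935400000000 + (x - 237 / 260) * (2481073979463 / 20967700000000) + (x - 237 / 260) ^ 2 * (11403207 / 635000000)) := by
  simp only [dt56, DT.val, sw56, sw56_2, sl56, sl56_2, sv56, sv56_2]
  ((try push_cast); ring1)
theorem tb_dt56 (x : ℝ) : dt56.val (fun p x => kcg.v p x) (11 / 25) (cT (11 / 25)) x = (575603 / 12500000 + (x - 237 / 260) * (846409 / 10000000)) := by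
  simp only [dt56, DT.val, sw56, sw56_2, sl56, sl56_2, sv56, sv56_2]
  ((try push_cast); ring1)
theorem ta_dt74 (x : ℝ) : dt74.val (fun p x => kcg.v p x) (61 / 182) (59 / 91) x = (81023957897 / 739375000000 + (x - 237 / 260) * (1100916367 / 7393750000) + (x - 237 / 260) ^ 2 * (-4080701 / 10156250)) :=
  (DT.val_le (by simp only [Cn.rt_v, Cn.ng_v]; norm_num)).trans (ta_dt55 x)
theorem tb_dt74 (x : ℝ) : dt74.val (fun p x => kcg.v p x) (11 / 25) (cT (11 / 25)) x = (575603 / 12500000 + (x - 237 / 260) * (846409 / 10000000)) :=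
  (DT.val_gt (by simp only [Cn.rt_v, Cn.ng_v]; norm_num)).trans (tb_dt56 x)
theorem ta_dt75 (x : ℝ) : dt75.val (fun p x => kcg.v p x) (3 / 10) (cT (3 / 10)) x = (502457 / 4000000 + (x - 237 / 260) * (11929 / 50000)) :=
  (DT.val_le (by simp only [Cn.rt_v, Cn.ng_v]; norm_num)).trans (ta_dt54 x)
theorem tb_dt75 (x : ℝ) : dt75.val (fun p x => kcg.v p x) (11 / 25) (cT (11 / 25)) x = (575603 / 12500000 + (x - 237 / 260) * (846409 / 10000000)) :=
  (DT.val_gt (by simp only [Cn.rt_v, Cn.ng_v]; norm_num)).trans (tb_dt74 x)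
theorem ta_dt57 (x : ℝ) : dt57.val (fun p x => kcg.v p x) (11 / 25) (cT (11 / 25)) x = (575603 / 12500000 + (x - 237 / 260) * (846409 / 10000000)) := by
  simp only [dt57, DT.val, sw57, sl57, sv57]
  ((try push_cast); ring1)
theorem tb_dt57 (x : ℝ) : dt57.val (fun p x => kcg.v p x) (91 / 200) (cT (91 / 200)) x = (3447191 / 100000000 + (x - 237 / 260) * (66233 / 1250000)) := by
  simp only [dt57, DT.val, sw57, sl57, sv57]
  ((try push_cast); ring1)
theorem ta_dt58 (x : ℝ) : dt58.val (fun p x => kcg.v p x) (91 / 200) (cT (91 / 200)) x = (3447191 / 100000000 + (x - 237 / 260) * (66233 / 1250000)) := by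
  simp only [dt58, DT.val, sw58, sl58, sv58]
  ((try push_cast); ring1)
theorem tb_dt58 (x : ℝ) : dt58.val (fun p x => kcg.v p x) (47 / 100) (cT (47 / 100)) x = (113889 / 5000000 + (x - 237 / 260) * (50127 / 2000000)) := by
  simp only [dt58, DT.val, sw58, sl58, sv58]
  ((try push_cast); ring1)
theorem ta_dt59 (x : ℝ) : dt59.val (fun p x => kcg.v p x) (47 / 100) (cT (47 / 100)) x = (113889 / 5000000 + (x - 237 / 260) * (50127 / 2000000)) := by
  simp only [dt59, DT.val, sw59, sl59, sv59]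
  ((try push_cast); ring1)
theorem tb_dt59 (x : ℝ) : dt59.val (fun p x => kcg.v p x) (1 / 2) (cT (1 / 2)) x = (0) := by
  simp only [dt59, DT.val, sw59, sl59, sv59]
  ((try push_cast); ring1)
theorem ta_dt76 (x : ℝ) : dt76.val (fun p x => kcg.v p x) (91 / 200) (cT (91 / 200)) x = (3447191 / 100000000 + (x - 237 / 260) * (66233 / 1250000)) :=
  (DT.val_le (by simp only [Cn.rt_v, Cn.ng_v]; norm_num)).trans (ta_dt58 x)
theorem tb_dt76 (x : ℝ) : dt76.val (fun p x => kcg.v p x) (1 / 2) (cT (1 / 2)) x = (0) :=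
  (DT.val_gt (by simp only [Cn.rt_v, Cn.ng_v]; norm_num)).trans (tb_dt59 x)
theorem ta_dt77 (x : ℝ) : dt77.val (fun p x => kcg.v p x) (11 / 25) (cT (11 / 25)) x = (575603 / 12500000 + (x - 237 / 260) * (846409 / 10000000)) :=
  (DT.val_le (by simp only [Cn.rt_v, Cn.ng_v]; norm_num)).trans (ta_dt57 x)
theorem tb_dt77 (x : ℝ) : dt77.val (fun p x => kcg.v p x) (1 / 2) (cT (1 / 2)) x = (0) :=
  (DT.val_gt (by simp only [Cn.rt_v, Cn.ng_v]; norm_num)).trans (tb_dt76 x)
theorem ta_dt78 (x : ℝ) : dt78.val (fun p x => kcg.v p x) (3 / 10) (cT (3 / 10)) x = (502457 / 4000000 + (x - 237 / 260) * (11929 / 50000)) :=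
  (DT.val_le (by simp only [Cn.rt_v, Cn.ng_v]; norm_num)).trans (ta_dt75 x)
theorem tb_dt78 (x : ℝ) : dt78.val (fun p x => kcg.v p x) (1 / 2) (cT (1 / 2)) x = (0) :=
  (DT.val_gt (by simp only [Cn.rt_v, Cn.ng_v]; norm_num)).trans (tb_dt77 x)
theorem ta_dt79 (x : ℝ) : dt79.val (fun p x => kcg.v p x) (-1 / 10) (cT (-1 / 10)) x = (4731 / 25000 + (x - 237 / 260) * (284121 / 400000)) :=
  (DT.val_le (by simp only [Cn.rt_v, Cn.ng_v]; norm_num)).trans (ta_dt73 x)
theorem tb_dt79 (x : ℝ) : dt79.val (fun p x => kcg.v p x) (1 / 2) (cT (1 / 2)) x = (0) :=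
  (DT.val_gt (by simp only [Cn.rt_v, Cn.ng_v]; norm_num)).trans (tb_dt78 x)
theorem ta_dt80 (x : ℝ) : dt80.val (fun p x => kcg.v p x) (-1 / 2) (cT (-1 / 2)) x = (0) :=
  (DT.val_le (by simp only [Cn.rt_v, Cn.ng_v]; norm_num)).trans (ta_dt69 x)
theorem tb_dt80 (x : ℝ) : dt80.val (fun p x => kcg.v p x) (1 / 2) (cT (1 / 2)) x = (0) :=
  (DT.val_gt (by simp only [Cn.rt_v, Cn.ng_v]; norm_num)).trans (tb_dt79 x)
theorem to_dt38 (x : ℝ) : dt38.Ok (fun p x => kcg.v p x) x := trivial
theorem to_dt39 (x : ℝ) : dt39.Ok (fun p x => kcg.v p x) x := trivial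
theorem to_dt60 (x : ℝ) : dt60.Ok (fun p x => kcg.v p x) x :=
  DT.ok_node (v := -47 / 100) (by simp only [Cn.rt_v, Cn.ng_v]; norm_num) (by rw [abs_le]; constructor <;> norm_num) rfl (tb_dt38 x) (ta_dt39 x) (by ring1) (to_dt38 x) (to_dt39 x)
theorem to_dt40 (x : ℝ) : dt40.Ok (fun p x => kcg.v p x) x := trivial
theorem to_dt41 (x : ℝ) : dt41.Ok (fun p x => kcg.v p x) x := trivial
theorem to_dt42 (x : ℝ) : dt42.Ok (fun p x => kcg.v p x) x := trivial
theorem to_dt61 (x : ℝ) : dt61.Ok (fun p x => kcg.v p x) x :=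
  DT.ok_node (v := -39 / 100) (by simp only [Cn.rt_v, Cn.ng_v]; norm_num) (by rw [abs_le]; constructor <;> norm_num) rfl (tb_dt41 x) (ta_dt42 x) (by ring1) (to_dt41 x) (to_dt42 x)
theorem to_dt62 (x : ℝ) : dt62.Ok (fun p x => kcg.v p x) x :=
  DT.ok_node (v := -21 / 50) (by simp only [Cn.rt_v, Cn.ng_v]; norm_num) (by rw [abs_le]; constructor <;> norm_num) rfl (tb_dt40 x) (ta_dt61 x) (by ring1) (to_dt40 x) (to_dt61 x)
theorem to_dt63 (x : ℝ) : dt63.Ok (fun p x => kcg.v p x) x :=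
  DT.ok_node (v := -9 / 20) (by simp only [Cn.rt_v, Cn.ng_v]; norm_num) (by rw [abs_le]; constructor <;> norm_num) rfl (tb_dt60 x) (ta_dt62 x) (by ring1) (to_dt60 x) (to_dt62 x)
theorem to_dt43 (x : ℝ) : dt43.Ok (fun p x => kcg.v p x) x := trivial
theorem to_dt44 (x : ℝ) : dt44.Ok (fun p x => kcg.v p x) x := trivial
theorem to_dt45 (x : ℝ) : dt45.Ok (fun p x => kcg.v p x) x := trivial
theorem to_dt64 (x : ℝ) : dt64.Ok (fun p x => kcg.v p x) x :=
  DT.ok_node (v := -3 / 10) (by simp only [Cn.rt_v, Cn.ng_v]; norm_num) (by rw [abs_le]; constructor <;> norm_num) rfl (tb_dt44 x) (ta_dt45 x) (by ring1) (to_dt44 x) (to_dt45 x)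
theorem to_dt65 (x : ℝ) : dt65.Ok (fun p x => kcg.v p x) x :=
  DT.ok_node (v := -33 / 100) (by simp only [Cn.rt_v, Cn.ng_v]; norm_num) (by rw [abs_le]; constructor <;> norm_num) rfl (tb_dt43 x) (ta_dt64 x) (by ring1) (to_dt43 x) (to_dt64 x)
theorem to_dt46 (x : ℝ) : dt46.Ok (fun p x => kcg.v p x) x := trivial
theorem to_dt47 (x : ℝ) : dt47.Ok (fun p x => kcg.v p x) x := trivial
theorem to_dt48 (x : ℝ) : dt48.Ok (fun p x => kcg.v p x) x := trivial
theorem to_dt66 (x : ℝ) : dt66.Ok (fun p x => kcg.v p x) x :=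
  DT.ok_node (v := -3 / 20) (by simp only [Cn.rt_v, Cn.ng_v]; norm_num) (by rw [abs_le]; constructor <;> norm_num) rfl (tb_dt47 x) (ta_dt48 x) (by ring1) (to_dt47 x) (to_dt48 x)
theorem to_dt67 (x : ℝ) : dt67.Ok (fun p x => kcg.v p x) x :=
  DT.ok_node (v := -1 / 5) (by simp only [Cn.rt_v, Cn.ng_v]; norm_num) (by rw [abs_le]; constructor <;> norm_num) rfl (tb_dt46 x) (ta_dt66 x) (by ring1) (to_dt46 x) (to_dt66 x)
theorem to_dt68 (x : ℝ) : dt68.Ok (fun p x => kcg.v p x) x :=
  DT.ok_node (v := -1 / 4) (by simp only [Cn.rt_v, Cn.ng_v]; norm_num) (by rw [abs_le]; constructor <;> norm_num) rfl (tb_dt65 x) (ta_dt67 x) (by ring1) (to_dt65 x) (to_dt67 x)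
theorem to_dt69 (x : ℝ) : dt69.Ok (fun p x => kcg.v p x) x :=
  DT.ok_node (v := -9 / 25) (by simp only [Cn.rt_v, Cn.ng_v]; norm_num) (by rw [abs_le]; constructor <;> norm_num) rfl (tb_dt63 x) (ta_dt68 x) (by ring1) (to_dt63 x) (to_dt68 x)
theorem to_dt49 (x : ℝ) : dt49.Ok (fun p x => kcg.v p x) x := trivial
theorem to_dt50 (x : ℝ) : dt50.Ok (fun p x => kcg.v p x) x := trivial
theorem to_dt70 (x : ℝ) : dt70.Ok (fun p x => kcg.v p x) x :=
  DT.ok_node (v := 1 / 10) (by simp only [Cn.rt_v, Cn.ng_v]; norm_num) (by rw [abs_le]; constructor <;> norm_num) rfl (tb_dt49 x) (ta_dt50 x) (by ring1) (to_dt49 x) (to_dt50 x)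
theorem to_dt51 (x : ℝ) : dt51.Ok (fun p x => kcg.v p x) x := trivial
theorem to_dt52 (x : ℝ) : dt52.Ok (fun p x => kcg.v p x) x := trivial
theorem to_dt53 (x : ℝ) : dt53.Ok (fun p x => kcg.v p x) x := trivial
theorem to_dt71 (x : ℝ) : dt71.Ok (fun p x => kcg.v p x) x :=
  DT.ok_node (v := 1 / 4) (by simp only [Cn.rt_v, Cn.ng_v]; norm_num) (by rw [abs_le]; constructor <;> norm_num) rfl (tb_dt52 x) (ta_dt53 x) (by ring1) (to_dt52 x) (to_dt53 x)
theorem to_dt72 (x : ℝ) : dt72.Ok (fun p x => kcg.v p x) x :=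
  DT.ok_node (v := 1 / 5) (by simp only [Cn.rt_v, Cn.ng_v]; norm_num) (by rw [abs_le]; constructor <;> norm_num) rfl (tb_dt51 x) (ta_dt71 x) (by ring1) (to_dt51 x) (to_dt71 x)
theorem to_dt73 (x : ℝ) : dt73.Ok (fun p x => kcg.v p x) x :=
  DT.ok_node (v := 3 / 20) (by simp only [Cn.rt_v, Cn.ng_v]; norm_num) (by rw [abs_le]; constructor <;> norm_num) rfl (tb_dt70 x) (ta_dt72 x) (by ring1) (to_dt70 x) (to_dt72 x)
theorem to_dt54 (x : ℝ) : dt54.Ok (fun p x => kcg.v p x) x := trivial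
theorem to_dt55 (x : ℝ) : dt55.Ok (fun p x => kcg.v p x) x := trivial
theorem to_dt56 (x : ℝ) : dt56.Ok (fun p x => kcg.v p x) x := trivial
theorem to_dt74 (x : ℝ) : dt74.Ok (fun p x => kcg.v p x) x :=
  DT.ok_node (v := 107 / 254) (by simp only [Cn.rt_v, Cn.ng_v]; norm_num) (by rw [abs_le]; constructor <;> norm_num) ctB (tb_dt55 x) (ta_dt56 x) (by ring1) (to_dt55 x) (to_dt56 x)
theorem to_dt75 (x : ℝ) : dt75.Ok (fun p x => kcg.v p x) x :=
  DT.ok_node (v := 61 / 182) (by simp only [Cn.rt_v, Cn.ng_v]; norm_num) (by rw [abs_le]; constructor <;> norm_num) ctA (tb_dt54 x) (ta_dt74 x) (by ring1) (to_dt54 x) (to_dt74 x)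
theorem to_dt57 (x : ℝ) : dt57.Ok (fun p x => kcg.v p x) x := trivial
theorem to_dt58 (x : ℝ) : dt58.Ok (fun p x => kcg.v p x) x := trivial
theorem to_dt59 (x : ℝ) : dt59.Ok (fun p x => kcg.v p x) x := trivial
theorem to_dt76 (x : ℝ) : dt76.Ok (fun p x => kcg.v p x) x :=
  DT.ok_node (v := 47 / 100) (by simp only [Cn.rt_v, Cn.ng_v]; norm_num) (by rw [abs_le]; constructor <;> norm_num) rfl (tb_dt58 x) (ta_dt59 x) (by ring1) (to_dt58 x) (to_dt59 x)
theorem to_dt77 (x : ℝ) : dt77.Ok (fun p x => kcg.v p x) x :=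
  DT.ok_node (v := 91 / 200) (by simp only [Cn.rt_v, Cn.ng_v]; norm_num) (by rw [abs_le]; constructor <;> norm_num) rfl (tb_dt57 x) (ta_dt76 x) (by ring1) (to_dt57 x) (to_dt76 x)
theorem to_dt78 (x : ℝ) : dt78.Ok (fun p x => kcg.v p x) x :=
  DT.ok_node (v := 11 / 25) (by simp only [Cn.rt_v, Cn.ng_v]; norm_num) (by rw [abs_le]; constructor <;> norm_num) rfl (tb_dt75 x) (ta_dt77 x) (by ring1) (to_dt75 x) (to_dt77 x)
theorem to_dt79 (x : ℝ) : dt79.Ok (fun p x => kcg.v p x) x :=
  DT.ok_node (v := 3 / 10) (by simp only [Cn.rt_v, Cn.ng_v]; norm_num) (by rw [abs_le]; constructor <;> norm_num) rfl (tb_dt73 x) (ta_dt78 x) (by ring1) (to_dt73 x) (to_dt78 x)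
theorem to_dt80 (x : ℝ) : dt80.Ok (fun p x => kcg.v p x) x :=
  DT.ok_node (v := -1 / 10) (by simp only [Cn.rt_v, Cn.ng_v]; norm_num) (by rw [abs_le]; constructor <;> norm_num) rfl (tb_dt69 x) (ta_dt79 x) (by ring1) (to_dt69 x) (to_dt79 x)
theorem dok (x : ℝ) : dd.Ok x := ⟨ko_dt37 x, fun p h => kfe h, to_dt80 x⟩
theorem K0_ (x : ℝ) : ∀ q y, OnC (0 : Fin 5) q y → TightK (tyO q) q (fun p => dd.kf.v p x) (c1n y) y (tK 0 q y x) := by
  refine K0_of (R := fun q y => tK 0 q y x) (kc := fun p => kcg.v p x) ?_ ?_ ?_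
  · intro y h
    show tK 0 0 y x = _
    ·
      rw [← (atB00 h).K]
      show kf0q0.v y x = _
      simp only [kf0q0, kf0q0_9, kf0q0_12, c1g_v]
      ((try push_cast); (try simp only [mul_inv]); (try ring_nf))
  · intro y h
    show tK 0 1 y x = _
    ·
      rw [← (atB01 h).K]
      show kf0q1.v y x = _
      simp only [kf0q1, kf0q1_10, c1g_v]
      ((try push_cast); (try simp only [mul_inv]); (try ring_nf))
  · intro y h
    show tK 0 2 y x = _
    ·
      have ey := yag_v h.1.nonneg (h.2 rfl)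
      rw [← (atB02 h).K]
      show kfc02.v (c1n y) x = _
      simp only [kfc02, c1g_v, ey]
      ((try push_cast); (try simp only [mul_inv]); (try ring_nf))
theorem L0_ (x : ℝ) : ∀ q y, OnC (0 : Fin 5) q y → TightL (tyO q) (fun p c => dd.TX.val dd.kf.v p c x) (c1n y) y (tL 0 q y x) := by
  refine L0_of (R := fun q y => tL 0 q y x) (tx := fun p c => txg.v p c x) txe ?_ ?_ ?_
  · intro y h
    show tL 0 0 y x = _
    ·
      rw [← (atB00 h).L]
      show l0q0.v y x = _
      simp only [l0q0, c1g_v]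
      ((try push_cast); (try simp only [mul_inv]); (try ring_nf))
  · intro y h
    show tL 0 1 y x = _
    ·
      rw [← (atB01 h).L]
      show l0q1.v y x = _
      simp only [l0q1, c1g_v]
      ((try push_cast); (try simp only [mul_inv]); (try ring_nf))
  · intro y h
    show tL 0 2 y x = _
    ·
      have ey := yag_v h.1.nonneg (h.2 rfl)
      rw [← (atB02 h).L]
      show lc02.v (c1n y) x = _
      simp only [lc02, lc02_7, lc02_8, c1g_v, ey]
      ((try push_cast); (try simp only [mul_inv]); (try ring_nf))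
theorem Kn_ (x : ℝ) : ∀ q y, InQ q y → TightK (tyN q) q (fun p => dd.kf.v p x) (c3n y) y (tK (Fin.last 4) q y x) := by
  refine Kn_of (R := fun q y => tK 4 q y x) (kc := fun p => kcg.v p x) ?_ ?_ ?_ ?_
  · intro y h
    show tK 4 0 y x = _
    ·
      rw [← (atB40 (onc h (by decide))).K]
      show kf4q0.v y x = _
      simp only [kf4q0, c3g_v]
      ((try push_cast); (try simp only [mul_inv]); (try ring_nf))
  · intro y h
    show tK 4 1 y x = _
    ·
      rw [← (atB41 (onc h (by decide))).K]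
      show kf4q1.v y x = _
      simp only [kf4q1, c3g_v]
      ((try push_cast); (try simp only [mul_inv]); (try ring_nf))
  · intro y h
    show tK 4 2 y x = _
    ·
      rw [← (atB42 (onc h (by decide))).K]
      show kf4q2.v y x = _
      simp only [kf4q2, c3g_v]
      ((try push_cast); (try simp only [mul_inv]); (try ring_nf))
  · intro y h
    show tK 4 3 y x = _
    ·
      have ey := ycg_v h.nonneg h.le_two
      rw [← (atB43 (onc h (by decide))).K]
      show kfc43.v (c3n y) x = _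
      simp only [kfc43, c3g_v, ey]
      ((try push_cast); (try simp only [mul_inv]); (try ring_nf))
theorem Ln_ (x : ℝ) : ∀ q y, InQ q y → TightL (tyN q) (fun p c => dd.TX.val dd.kf.v p c x) (c3n y) y (tL (Fin.last 4) q y x) := by
  refine Ln_of (R := fun q y => tL 4 q y x) (tx := fun p c => txg.v p c x) txe ?_ ?_ ?_ ?_
  · intro y h
    show tL 4 0 y x = _
    ·
      rw [← (atB40 (onc h (by decide))).L]
      show l4q0.v y x = _
      simp only [l4q0, l4q0_6, l4q0_7, l4q0_8, c3g_v]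
      ((try push_cast); (try simp only [mul_inv]); (try ring_nf))
  · intro y h
    show tL 4 1 y x = _
    ·
      rw [← (atB41 (onc h (by decide))).L]
      show l4q1.v y x = _
      simp only [l4q1, l4q1_7, l4q1_8, l4q1_9, c3g_v]
      ((try push_cast); (try simp only [mul_inv]); (try ring_nf))
  · intro y h
    show tL 4 2 y x = _
    ·
      rw [← (atB42 (onc h (by decide))).L]
      show l4q2.v y x = _
      simp only [l4q2, l4q2_7, l4q2_8, l4q2_9, l4q2_12, l4q2_14, c3g_v]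
      ((try push_cast); (try simp only [mul_inv]); (try ring_nf))
  · intro y h
    show tL 4 3 y x = _
    ·
      have ey := ycg_v h.nonneg h.le_two
      rw [← (atB43 (onc h (by decide))).L]
      show lc43.v (c3n y) x = _
      simp only [lc43, lc43_7, lc43_8, lc43_9, lc43_12, lc43_14, c3g_v, ey]
      ((try push_cast); (try simp only [mul_inv]); (try ring_nf))
theorem f0_ : ∀ q y, InQ q y → (ff q).f.v y = crv PP 1 q y
  | 0, y, _ => ecv1q0.symm
  | 1, y, _ => ecv1q1.symm
  | 2, y, _ => ecv1q2.symm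
  | 3, y, h => (ecv1q3 h.1).symm
theorem fn_ : ∀ q y, InQ q y → (fl q).f.v y = crv PP 3 q y
  | 0, y, _ => ecv3q0.symm
  | 1, y, _ => ecv3q1.symm
  | 2, y, _ => ecv3q2.symm
  | 3, y, h => (ecv3q3 h.1).symm
theorem yK00 {y x : ℝ} (h : OnC (0 : Fin 5) 0 y) : tK 0 0 y x = kf0q0.v y x := (atB00 h).K.symm
theorem yK10 {y x : ℝ} (h : InQ 0 y) : tK 1 0 y x = kf1q0.v y x := (atB10 (onc h (by decide))).K.symm
theorem yK01 {y x : ℝ} (h : OnC (0 : Fin 5) 1 y) : tK 0 1 y x = kf0q1.v y x := (atB01 h).K.symm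
theorem yK11 {y x : ℝ} (h : InQ 1 y) : tK 1 1 y x = kf1q1.v y x := (atB11 (onc h (by decide))).K.symm
theorem yK02 {y x : ℝ} (h : OnC (0 : Fin 5) 2 y) : tK 0 2 y x = kf0q2.v y x := by
  rw [← (atB02 h).K]
  show kfc02.v (c1n y) x = _
  have ey := yag_v h.1.nonneg (h.2 rfl)
  simp only [kfc02, kf0q2, ey, c1g_v, c3g_v, swg_v]
  ((try push_cast); (try ring_nf))
theorem yK12 {y x : ℝ} (h : InQ 2 y) : tK 1 2 y x = kf1q2.v y x := (atB12 (onc h (by decide))).K.symm
theorem yK40 {y x : ℝ} (h : InQ 0 y) : tK 4 0 y x = kf4q0.v y x := (atB40 (onc h (by decide))).K.symm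
theorem yK30 {y x : ℝ} (h : InQ 0 y) : tK 3 0 y x = kf3q0.v y x := (atB30 (onc h (by decide))).K.symm
theorem yK41 {y x : ℝ} (h : InQ 1 y) : tK 4 1 y x = kf4q1.v y x := (atB41 (onc h (by decide))).K.symm
theorem yK31 {y x : ℝ} (h : InQ 1 y) : tK 3 1 y x = kf3q1.v y x := (atB31 (onc h (by decide))).K.symm
theorem yK42 {y x : ℝ} (h : InQ 2 y) : tK 4 2 y x = kf4q2.v y x := (atB42 (onc h (by decide))).K.symm
theorem yK32 {y x : ℝ} (h : InQ 2 y) : tK 3 2 y x = kf3q2.v y x := (atB32 (onc h (by decide))).K.symm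
theorem yK43 {y x : ℝ} (h : InQ 3 y) : tK 4 3 y x = kf4q3.v y x := by
  rw [← (atB43 (onc h (by decide))).K]
  show kfc43.v (c3n y) x = _
  have ey := ycg_v h.nonneg h.le_two
  simp only [kfc43, kf4q3, ey, c1g_v, c3g_v, swg_v]
  ((try push_cast); (try ring_nf))
theorem yK33 {y x : ℝ} (h : InQ 3 y) : tK 3 3 y x = kf3q3.v y x := by
  rw [← (atB33 (onc h (by decide))).K]
  show kfc33.v (c3n y) x = _
  have ey := ycg_v h.nonneg h.le_two
  simp only [kfc33, kfc33_11, kf3q3, kf3q3_4, cv3r, ey, c1g_v, c3g_v, swg_v]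
  ((try push_cast); (try ring_nf))
theorem yL00 {y x : ℝ} (h : OnC (0 : Fin 5) 0 y) : tL 0 0 y x = l0q0.v y x := (atB00 h).L.symm
theorem yL10 {y x : ℝ} (h : InQ 0 y) : tL 1 0 y x = l1q0.v y x := (atB10 (onc h (by decide))).L.symm
theorem yL01 {y x : ℝ} (h : OnC (0 : Fin 5) 1 y) : tL 0 1 y x = l0q1.v y x := (atB01 h).L.symm
theorem yL11 {y x : ℝ} (h : InQ 1 y) : tL 1 1 y x = l1q1.v y x := (atB11 (onc h (by decide))).L.symm
theorem yL02 {y x : ℝ} (h : OnC (0 : Fin 5) 2 y) : tL 0 2 y x = l0q2.v y x := by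
  rw [← (atB02 h).L]
  show lc02.v (c1n y) x = _
  have ey := yag_v h.1.nonneg (h.2 rfl)
  simp only [lc02, lc02_7, lc02_8, l0q2, l0q2_7, l0q2_8, ey, c1g_v, c3g_v, swg_v]
  ((try push_cast); (try ring_nf))
theorem yL12 {y x : ℝ} (h : InQ 2 y) : tL 1 2 y x = l1q2.v y x := (atB12 (onc h (by decide))).L.symm
theorem yL40 {y x : ℝ} (h : InQ 0 y) : tL 4 0 y x = l4q0.v y x := (atB40 (onc h (by decide))).L.symm
theorem yL30 {y x : ℝ} (h : InQ 0 y) : tL 3 0 y x = l3q0.v y x := (atB30 (onc h (by decide))).L.symm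
theorem yL41 {y x : ℝ} (h : InQ 1 y) : tL 4 1 y x = l4q1.v y x := (atB41 (onc h (by decide))).L.symm
theorem yL31 {y x : ℝ} (h : InQ 1 y) : tL 3 1 y x = l3q1.v y x := (atB31 (onc h (by decide))).L.symm
theorem yL42 {y x : ℝ} (h : InQ 2 y) : tL 4 2 y x = l4q2.v y x := (atB42 (onc h (by decide))).L.symm
theorem yL32 {y x : ℝ} (h : InQ 2 y) : tL 3 2 y x = l3q2.v y x := (atB32 (onc h (by decide))).L.symm
theorem yL43 {y x : ℝ} (h : InQ 3 y) : tL 4 3 y x = l4q3.v y x := by
  rw [← (atB43 (onc h (by decide))).L]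
  show lc43.v (c3n y) x = _
  have ey := ycg_v h.nonneg h.le_two
  simp only [lc43, lc43_7, lc43_8, lc43_9, lc43_12, lc43_14, l4q3, l4q3_7, l4q3_8, l4q3_9, l4q3_12, l4q3_14, ey, c1g_v, c3g_v, swg_v]
  ((try push_cast); (try ring_nf))
theorem yL33 {y x : ℝ} (h : InQ 3 y) : tL 3 3 y x = l3q3.v y x := by
  rw [← (atB33 (onc h (by decide))).L]
  show lc33.v (c3n y) x = _
  have ey := ycg_v h.nonneg h.le_two
  simp only [lc33, lc33_11, l3q3, l3q3_4, cv3r, ey, c1g_v, c3g_v, swg_v]
  ((try push_cast); (try ring_nf))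
theorem sK0_ (x : ℝ) : ∀ q y, OnC (0 : Fin 5) q y → c1n y < crv PP 1 q y →
    (ff q).SK.v y x * (crv PP 1 q y - c1n y) = tK 1 q y x - tK 0 q y x := by
  intro q y h hlt
  rcases onC_q h with rfl | rfl | rfl
  · rw [yK10 h.1, yK00 h]
    rw [ecv1q0, ← c1g_v] at hlt ⊢
    have hd : 0 < cv1m.v y - c1g.v y := sub_pos.2 hlt
    have hi := inv_mul_cancel₀ hd.ne'
    show skf0.v y x * _ = _
    simp only [skf0, kf1q0]
    (try push_cast)
    linear_combination (c1g.v y * bf1q0.v y x - kf0q0.v y x) * hi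
  · rw [yK11 h.1, yK01 h]
    rw [ecv1q1, ← c1g_v] at hlt ⊢
    have hd : 0 < cv1m.v y - c1g.v y := sub_pos.2 hlt
    have hi := inv_mul_cancel₀ hd.ne'
    show skf1.v y x * _ = _
    simp only [skf1, kf1q1]
    (try push_cast)
    linear_combination (c1g.v y * bf1q1.v y x - kf0q1.v y x) * hi
  · rw [yK12 h.1, yK02 h]
    rw [ecv1q2, ← c1g_v] at hlt ⊢
    have hd : 0 < cv1p.v y - c1g.v y := sub_pos.2 hlt
    have hi := inv_mul_cancel₀ hd.ne'
    have hb : |c1g.v y| ≤ 1 / 2 := by rw [c1g_v]; exact bnd_O h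
    have eo := odd (x := x) hb
    show skf2.v y x * _ = _
    simp only [skf2, kf1q2, kf0q2, eo]
    (try push_cast)
    linear_combination (c1g.v y * (bf1q2.v y x - 1) + (y - 1) * kcg.v (c1g.v y) x) * hi
theorem sX0_ (x : ℝ) : ∀ q y, OnC (0 : Fin 5) q y → c1n y < crv PP 1 q y →
    (ff q).SX.v y x * (crv PP 1 q y - c1n y) = tL 1 q y x - tL 0 q y x := by
  intro q y h hlt
  rcases onC_q h with rfl | rfl | rfl
  · rw [yL10 h.1, yL00 h]
    rw [ecv1q0, ← c1g_v] at hlt ⊢
    have hd : 0 < cv1m.v y - c1g.v y := sub_pos.2 hlt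
    have hi := inv_mul_cancel₀ hd.ne'
    show sxf0.v y x * _ = _
    simp only [sxf0]
    (try push_cast)
    linear_combination (l1q0.v y x - l0q0.v y x) * hi
  · rw [yL11 h.1, yL01 h]
    rw [ecv1q1, ← c1g_v] at hlt ⊢
    have hd : 0 < cv1m.v y - c1g.v y := sub_pos.2 hlt
    have hi := inv_mul_cancel₀ hd.ne'
    show sxf1.v y x * _ = _
    simp only [sxf1]
    (try push_cast)
    linear_combination (l1q1.v y x - l0q1.v y x) * hi
  · rw [yL12 h.1, yL02 h]
    rw [ecv1q2, ← c1g_v] at hlt ⊢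
    have hd : 0 < cv1p.v y - c1g.v y := sub_pos.2 hlt
    have hi := inv_mul_cancel₀ hd.ne'
    show sxf2.v y x * _ = _
    simp only [sxf2]
    (try push_cast)
    linear_combination (l1q2.v y x - l0q2.v y x) * hi
theorem sKn_ (x : ℝ) : ∀ q y, InQ q y → crv PP 3 q y < c3n y →
    (fl q).SK.v y x * (c3n y - crv PP 3 q y) = tK 4 q y x - tK 3 q y x := by
  intro q y h hlt
  match q, h with
  | 0, h =>
    rw [yK40 h, yK30 h]
    rw [ecv3q0, ← c3g_v] at hlt ⊢
    have hd : 0 < c3g.v y - cv3m.v y := sub_pos.2 hlt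
    have hi := inv_mul_cancel₀ hd.ne'
    show skl0.v y x * _ = _
    simp only [skl0, kf3q0]
    (try push_cast)
    linear_combination (kf4q0.v y x - c3g.v y * bf3q0.v y x) * hi
  | 1, h =>
    rw [yK41 h, yK31 h]
    rw [ecv3q1, ← c3g_v] at hlt ⊢
    have hd : 0 < c3g.v y - cv3m.v y := sub_pos.2 hlt
    have hi := inv_mul_cancel₀ hd.ne'
    show skl1.v y x * _ = _
    simp only [skl1, kf3q1]
    (try push_cast)
    linear_combination (kf4q1.v y x - c3g.v y * bf3q1.v y x) * hi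
  | 2, h =>
    rw [yK42 h, yK32 h]
    rw [ecv3q2, ← c3g_v] at hlt ⊢
    have hd : 0 < c3g.v y - cv3p.v y := sub_pos.2 hlt
    have hi := inv_mul_cancel₀ hd.ne'
    show skl2.v y x * _ = _
    simp only [skl2, kf3q2]
    (try push_cast)
    linear_combination (kf4q2.v y x - c3g.v y * bf3q2.v y x) * hi
  | 3, h =>
    rw [yK43 h, yK33 h]
    rw [ecv3q3 h.1, ← c3g_v] at hlt ⊢
    have hd : 0 < c3g.v y - cv3r.v y := sub_pos.2 hlt
    have hi := inv_mul_cancel₀ hd.ne'
    have hB : kf3q3.v y x = cv3r.v y * bf3q3.v y x := by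
      simp only [kf3q3, kf3q3_4, bf3q3, bf3q3_3]
    show skl3.v y x * _ = _
    simp only [skl3, hB]
    (try push_cast)
    linear_combination (kf4q3.v y x - c3g.v y * bf3q3.v y x) * hi
theorem sXn_ (x : ℝ) : ∀ q y, InQ q y → crv PP 3 q y < c3n y →
    (fl q).SX.v y x * (c3n y - crv PP 3 q y) = tL 4 q y x - tL 3 q y x := by
  intro q y h hlt
  match q, h with
  | 0, h =>
    rw [yL40 h, yL30 h]
    rw [ecv3q0, ← c3g_v] at hlt ⊢
    have hd : 0 < c3g.v y - cv3m.v y := sub_pos.2 hlt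
    have hi := inv_mul_cancel₀ hd.ne'
    show sxl0.v y x * _ = _
    simp only [sxl0]
    (try push_cast)
    linear_combination (l4q0.v y x - l3q0.v y x) * hi
  | 1, h =>
    rw [yL41 h, yL31 h]
    rw [ecv3q1, ← c3g_v] at hlt ⊢
    have hd : 0 < c3g.v y - cv3m.v y := sub_pos.2 hlt
    have hi := inv_mul_cancel₀ hd.ne'
    show sxl1.v y x * _ = _
    simp only [sxl1]
    (try push_cast)
    linear_combination (l4q1.v y x - l3q1.v y x) * hi
  | 2, h =>
    rw [yL42 h, yL32 h]
    rw [ecv3q2, ← c3g_v] at hlt ⊢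
    have hd : 0 < c3g.v y - cv3p.v y := sub_pos.2 hlt
    have hi := inv_mul_cancel₀ hd.ne'
    show sxl2.v y x * _ = _
    simp only [sxl2]
    (try push_cast)
    linear_combination (l4q2.v y x - l3q2.v y x) * hi
  | 3, h =>
    rw [yL43 h, yL33 h]
    rw [ecv3q3 h.1, ← c3g_v] at hlt ⊢
    have hd : 0 < c3g.v y - cv3r.v y := sub_pos.2 hlt
    have hi := inv_mul_cancel₀ hd.ne'
    show sxl3.v y x * _ = _
    simp only [sxl3]
    (try push_cast)
    linear_combination (l4q3.v y x - l3q3.v y x) * hi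
theorem kn_ (x : ℝ) : ∀ X, |X| ≤ vv.k1.v → kcg.v (-X) x = -(k0c.v x * X) := by
  intro X h
  have h : |X| ≤ 2 / 25 := by
    refine h.trans_eq ?_
    show (Cn.rt 2 25).v = _
    rw [Cn.rt_v]
    norm_num
  obtain ⟨h1, h2⟩ := abs_le.1 h
  rw [kcl9 (p := -X) (by linarith) (by linarith)]
  simp only [k0c]
  push_cast
  ring
theorem tvm {p c x : ℝ} (h1 : -1 / 10 ≤ p) (h2 : p ≤ 1 / 10) : dt80.val (fun p x => kcg.v p x) p c x = (106891 / 500000 + (x - 237 / 260) * (69341 / 80000)) + (7187 / 100000 + (x - 237 / 260) * (867 / 1250)) * p + (-3471 / 2000 + (x - 237 / 260) * (-871 / 100)) * p ^ 2 := by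
  rcases eq_or_lt_of_le h1 with h | h1
  · subst h
    refine (DT.val_le (by simp only [Cn.rt_v, Cn.ng_v]; push_cast; linarith)).trans ?_
    refine (DT.val_gt (by simp only [Cn.rt_v, Cn.ng_v]; push_cast; linarith)).trans ?_
    refine (DT.val_gt (by simp only [Cn.rt_v, Cn.ng_v]; push_cast; linarith)).trans ?_
    refine (DT.val_gt (by simp only [Cn.rt_v, Cn.ng_v]; push_cast; linarith)).trans ?_
    refine (DT.val_gt (by simp only [Cn.rt_v, Cn.ng_v]; push_cast; linarith)).trans ?_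
    simp only [dt48, DT.val, sw48, sl48, sv48]
    ((try push_cast); ring1)
  ·
    refine (DT.val_gt (by simp only [Cn.rt_v, Cn.ng_v]; push_cast; linarith)).trans ?_
    refine (DT.val_le (by simp only [Cn.rt_v, Cn.ng_v]; push_cast; linarith)).trans ?_
    refine (DT.val_le (by simp only [Cn.rt_v, Cn.ng_v]; push_cast; linarith)).trans ?_
    refine (DT.val_le (by simp only [Cn.rt_v, Cn.ng_v]; push_cast; linarith)).trans ?_
    simp only [dt49, DT.val, sw49, sl49, sv49]
    ((try push_cast); ring1)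
theorem tn_ (x : ℝ) : ∀ X, |X| ≤ vv.k1.v → dd.tF x (-X) - dd.tF x X = m0c.v x * X := by
  intro X h
  have h : |X| ≤ 2 / 25 := by
    refine h.trans_eq ?_
    show (Cn.rt 2 25).v = _
    rw [Cn.rt_v]
    norm_num
  obtain ⟨h1, h2⟩ := abs_le.1 h
  show dt80.val (fun p x => kcg.v p x) (-X) (cT (-X)) x - dt80.val (fun p x => kcg.v p x) X (cT X) x = _
  rw [tvm (by linarith) (by linarith), tvm (by linarith) (by linarith)]
  simp only [m0c]
  push_cast
  ring
theorem vK_ (x : ℝ) : ∀ y, InQ 2 y → tK 1 2 y x = crv PP 1 2 y * bf1q2.v y x := by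
  intro y h
  rw [yK12 h, ecv1q2]
  simp only [kf1q2]
theorem vX_ (x : ℝ) : ∀ y, InQ 2 y → tL 1 2 y x = crv PP 1 2 y * bx1q2.v y x := by
  intro y h
  rw [yL12 h, ecv1q2]
  simp only [l1q2]
theorem n0_rK (y x : ℝ) : n0b.v y x = (1 - (y - 1) * k0c.v x) := by
  simp only [n0b, k0c]
  all_goals (try push_cast)
  all_goals (try ring)
theorem rK_ (x : ℝ) : ∀ y, OnC (0 : Fin 5) 2 y → c1n y < crv PP 1 2 y →
    rhk.v y x * (crv PP 1 2 y - c1n y) = crv PP 1 2 y * (bf1q2.v y x - (1 - (y - 1) * k0c.v x)) := by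
  intro y h hlt
  rw [ecv1q2, ← c1g_v] at hlt ⊢
  have hd : 0 < cv1p.v y - c1g.v y := sub_pos.2 hlt
  have hi := inv_mul_cancel₀ hd.ne'
  rw [← n0_rK]
  simp only [rhk]
  linear_combination ((bf1q2.v y x - n0b.v y x) * cv1p.v y) * hi
theorem n0_rX (y x : ℝ) : n0x.v y x = m0c.v x := by
  simp only [n0x, m0c]
  all_goals (try push_cast)
  all_goals (try ring)
theorem rX_ (x : ℝ) : ∀ y, OnC (0 : Fin 5) 2 y → c1n y < crv PP 1 2 y →
    rhx.v y x * (crv PP 1 2 y - c1n y) = crv PP 1 2 y * (bx1q2.v y x - m0c.v x) := by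
  intro y h hlt
  rw [ecv1q2, ← c1g_v] at hlt ⊢
  have hd : 0 < cv1p.v y - c1g.v y := sub_pos.2 hlt
  have hi := inv_mul_cancel₀ hd.ne'
  rw [← n0_rX]
  simp only [rhx]
  linear_combination ((bx1q2.v y x - n0x.v y x) * cv1p.v y) * hi
theorem flat_ (x : ℝ) : ∀ y, InQ 2 y → vv.ya.v ≤ y → y ≤ vv.yb.v → bf1q2.v y x = 1 - (y - 1) * k0c.v x ∧ bx1q2.v y x = m0c.v x := by
  intro y h h1 h2
  have ea : vv.ya.v = 577 / 500 := by
    show (Cn.rt 577 500).v = _
    rw [Cn.rt_v]
    norm_num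
  have eb : vv.yb.v = 231 / 200 := by
    show (Cn.rt 231 200).v = _
    rw [Cn.rt_v]
    norm_num
  rw [ea] at h1
  rw [eb] at h2
  constructor
  · simp only [bf1q2, bf1q2_3, bf1q2_15, k0c]
    rcases eq_or_lt_of_le h1 with g | h1
    · subst g
      ((try push_cast); (repeat first | rw [if_pos (by linarith)] | rw [if_neg (by linarith)] | erw [if_pos (by linarith)] | erw [if_neg (by linarith)]); (try push_cast); (try ring1))
    rcases eq_or_lt_of_le h2 with g | h2
    · subst g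
      ((try push_cast); (repeat first | rw [if_pos (by linarith)] | rw [if_neg (by linarith)] | erw [if_pos (by linarith)] | erw [if_neg (by linarith)]); (try push_cast); (try ring1))
    · ((try push_cast); (repeat first | rw [if_pos (by linarith)] | rw [if_neg (by linarith)] | erw [if_pos (by linarith)] | erw [if_neg (by linarith)]); (try push_cast); (try ring1))
  · simp only [bx1q2, bx1q2_3, m0c]
    rcases eq_or_lt_of_le h1 with g | h1
    · subst g
      ((try push_cast); (repeat first | rw [if_pos (by linarith)] | rw [if_neg (by linarith)] | erw [if_pos (by linarith)] | erw [if_neg (by linarith)]); (try push_cast); (try ring1))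
    rcases eq_or_lt_of_le h2 with g | h2
    · subst g
      ((try push_cast); (repeat first | rw [if_pos (by linarith)] | rw [if_neg (by linarith)] | erw [if_pos (by linarith)] | erw [if_neg (by linarith)]); (try push_cast); (try ring1))
    · ((try push_cast); (repeat first | rw [if_pos (by linarith)] | rw [if_neg (by linarith)] | erw [if_pos (by linarith)] | erw [if_neg (by linarith)]); (try push_cast); (try ring1))
theorem abk_ (x : ℝ) : ∀ y, InQ 2 y → vv.yb.v ≤ y → y ≤ vv.yk.v → bf1q2.v y x = 1 - (y - 1) * k0c.v x + sbk.v x * (y - vv.yb.v) ∧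
    bx1q2.v y x = m0c.v x + sbx.v x * (y - vv.yb.v) := by
  intro y h h1 h2
  have eb : vv.yb.v = 231 / 200 := by
    show (Cn.rt 231 200).v = _
    rw [Cn.rt_v]
    norm_num
  have ek : vv.yk.v = 3 / 2 := by
    show (Cn.rt 3 2).v = _
    rw [Cn.rt_v]
    norm_num
  rw [eb] at h1 ⊢
  rw [ek] at h2
  constructor
  · simp only [bf1q2, bf1q2_3, bf1q2_15, k0c, sbk]
    rcases eq_or_lt_of_le h1 with g | h1
    · subst g
      ((try push_cast); (repeat first | rw [if_pos (by linarith)] | rw [if_neg (by linarith)] | erw [if_pos (by linarith)] | erw [if_neg (by linarith)]); (try push_cast); (try ring1))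
    rcases eq_or_lt_of_le h2 with g | h2
    · subst g
      ((try push_cast); (repeat first | rw [if_pos (by linarith)] | rw [if_neg (by linarith)] | erw [if_pos (by linarith)] | erw [if_neg (by linarith)]); (try push_cast); (try ring1))
    · ((try push_cast); (repeat first | rw [if_pos (by linarith)] | rw [if_neg (by linarith)] | erw [if_pos (by linarith)] | erw [if_neg (by linarith)]); (try push_cast); (try ring1))
  · simp only [bx1q2, bx1q2_3, m0c, sbx]
    rcases eq_or_lt_of_le h1 with g | h1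
    · subst g
      ((try push_cast); (repeat first | rw [if_pos (by linarith)] | rw [if_neg (by linarith)] | erw [if_pos (by linarith)] | erw [if_neg (by linarith)]); (try push_cast); (try ring1))
    rcases eq_or_lt_of_le h2 with g | h2
    · subst g
      ((try push_cast); (repeat first | rw [if_pos (by linarith)] | rw [if_neg (by linarith)] | erw [if_pos (by linarith)] | erw [if_neg (by linarith)]); (try push_cast); (try ring1))
    · ((try push_cast); (repeat first | rw [if_pos (by linarith)] | rw [if_neg (by linarith)] | erw [if_pos (by linarith)] | erw [if_neg (by linarith)]); (try push_cast); (try ring1))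
theorem ka_dt81 (x : ℝ) : dt81.kv (-1 / 4) x = (921 / 80000 + (x - 237 / 260) * (9611 / 80000)) := by
  simp only [dt81, DT.kv, sw81, sl81, sv81]
  ((try push_cast); ring1)
theorem kb_dt81 (x : ℝ) : dt81.kv (-1 / 5) x = (3197 / 400000 + (x - 237 / 260) * (5279 / 80000)) := by
  simp only [dt81, DT.kv, sw81, sl81, sv81]
  ((try push_cast); ring1)
theorem ka_dt82 (x : ℝ) : dt82.kv (-1 / 5) x = (3197 / 400000 + (x - 237 / 260) * (5279 / 80000)) := by
  simp only [dt82, DT.kv, sw82, sl82, sv82]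
  ((try push_cast); ring1)
theorem kb_dt82 (x : ℝ) : dt82.kv (-3 / 20) x = (1113 / 400000 + (x - 237 / 260) * (1609 / 80000)) := by
  simp only [dt82, DT.kv, sw82, sl82, sv82]
  ((try push_cast); ring1)
theorem ka_dt83 (x : ℝ) : dt83.kv (-3 / 20) x = (1113 / 400000 + (x - 237 / 260) * (1609 / 80000)) := by
  simp only [dt83, DT.kv, sw83, sl83, sv83]
  ((try push_cast); ring1)
theorem kb_dt83 (x : ℝ) : dt83.kv (-1 / 10) x = (0) := by
  simp only [dt83, DT.kv, sw83, sl83, sv83]
  ((try push_cast); ring1)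
theorem ka_dt88 (x : ℝ) : dt88.kv (-1 / 5) x = (3197 / 400000 + (x - 237 / 260) * (5279 / 80000)) :=
  (DT.kv_le (by simp only [Cn.rt_v, Cn.ng_v]; norm_num)).trans (ka_dt82 x)
theorem kb_dt88 (x : ℝ) : dt88.kv (-1 / 10) x = (0) :=
  (DT.kv_gt (by simp only [Cn.rt_v, Cn.ng_v]; norm_num)).trans (kb_dt83 x)
theorem ka_dt89 (x : ℝ) : dt89.kv (-1 / 4) x = (921 / 80000 + (x - 237 / 260) * (9611 / 80000)) :=
  (DT.kv_le (by simp only [Cn.rt_v, Cn.ng_v]; norm_num)).trans (ka_dt81 x)
theorem kb_dt89 (x : ℝ) : dt89.kv (-1 / 10) x = (0) :=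
  (DT.kv_gt (by simp only [Cn.rt_v, Cn.ng_v]; norm_num)).trans (kb_dt88 x)
theorem ka_dt84 (x : ℝ) : dt84.kv (-1 / 10) x = (0) := by
  simp only [dt84, DT.kv, sl84, sv84]
  ((try push_cast); ring1)
theorem kb_dt84 (x : ℝ) : dt84.kv (1 / 10) x = (0) := by
  simp only [dt84, DT.kv, sl84, sv84]
  ((try push_cast); ring1)
theorem ka_dt85 (x : ℝ) : dt85.kv (1 / 10) x = (0) := by
  simp only [dt85, DT.kv, sw85, sl85, sv85]
  ((try push_cast); ring1)
theorem kb_dt85 (x : ℝ) : dt85.kv (3 / 20) x = (-1113 / 400000 + (x - 237 / 260) * (-1609 / 80000)) := by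
  simp only [dt85, DT.kv, sw85, sl85, sv85]
  ((try push_cast); ring1)
theorem ka_dt90 (x : ℝ) : dt90.kv (-1 / 10) x = (0) :=
  (DT.kv_le (by simp only [Cn.rt_v, Cn.ng_v]; norm_num)).trans (ka_dt84 x)
theorem kb_dt90 (x : ℝ) : dt90.kv (3 / 20) x = (-1113 / 400000 + (x - 237 / 260) * (-1609 / 80000)) :=
  (DT.kv_gt (by simp only [Cn.rt_v, Cn.ng_v]; norm_num)).trans (kb_dt85 x)
theorem ka_dt86 (x : ℝ) : dt86.kv (3 / 20) x = (-1113 / 400000 + (x - 237 / 260) * (-1609 / 80000)) := by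
  simp only [dt86, DT.kv, sw86, sl86, sv86]
  ((try push_cast); ring1)
theorem kb_dt86 (x : ℝ) : dt86.kv (1 / 5) x = (-3197 / 400000 + (x - 237 / 260) * (-5279 / 80000)) := by
  simp only [dt86, DT.kv, sw86, sl86, sv86]
  ((try push_cast); ring1)
theorem ka_dt87 (x : ℝ) : dt87.kv (1 / 5) x = (-3197 / 400000 + (x - 237 / 260) * (-5279 / 80000)) := by
  simp only [dt87, DT.kv, sw87, sl87, sv87]
  ((try push_cast); ring1)
theorem kb_dt87 (x : ℝ) : dt87.kv (1 / 4) x = (-921 / 80000 + (x - 237 / 260) * (-9611 / 80000)) := by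
  simp only [dt87, DT.kv, sw87, sl87, sv87]
  ((try push_cast); ring1)
theorem ka_dt91 (x : ℝ) : dt91.kv (3 / 20) x = (-1113 / 400000 + (x - 237 / 260) * (-1609 / 80000)) :=
  (DT.kv_le (by simp only [Cn.rt_v, Cn.ng_v]; norm_num)).trans (ka_dt86 x)
theorem kb_dt91 (x : ℝ) : dt91.kv (1 / 4) x = (-921 / 80000 + (x - 237 / 260) * (-9611 / 80000)) :=
  (DT.kv_gt (by simp only [Cn.rt_v, Cn.ng_v]; norm_num)).trans (kb_dt87 x)
theorem ka_dt92 (x : ℝ) : dt92.kv (-1 / 10) x = (0) :=
  (DT.kv_le (by simp only [Cn.rt_v, Cn.ng_v]; norm_num)).trans (ka_dt90 x)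
theorem kb_dt92 (x : ℝ) : dt92.kv (1 / 4) x = (-921 / 80000 + (x - 237 / 260) * (-9611 / 80000)) :=
  (DT.kv_gt (by simp only [Cn.rt_v, Cn.ng_v]; norm_num)).trans (kb_dt91 x)
theorem ka_dt93 (x : ℝ) : dt93.kv (-1 / 4) x = (921 / 80000 + (x - 237 / 260) * (9611 / 80000)) :=
  (DT.kv_le (by simp only [Cn.rt_v, Cn.ng_v]; norm_num)).trans (ka_dt89 x)
theorem kb_dt93 (x : ℝ) : dt93.kv (1 / 4) x = (-921 / 80000 + (x - 237 / 260) * (-9611 / 80000)) :=
  (DT.kv_gt (by simp only [Cn.rt_v, Cn.ng_v]; norm_num)).trans (kb_dt92 x)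
theorem ko_dt81 (x : ℝ) : dt81.KOk x := trivial
theorem ko_dt82 (x : ℝ) : dt82.KOk x := trivial
theorem ko_dt83 (x : ℝ) : dt83.KOk x := trivial
theorem ko_dt88 (x : ℝ) : dt88.KOk x :=
  DT.kOk_node (v := -3 / 20) (by simp only [Cn.rt_v, Cn.ng_v]; norm_num) (kb_dt82 x) (ka_dt83 x) (by ring1) (ko_dt82 x) (ko_dt83 x)
theorem ko_dt89 (x : ℝ) : dt89.KOk x :=
  DT.kOk_node (v := -1 / 5) (by simp only [Cn.rt_v, Cn.ng_v]; norm_num) (kb_dt81 x) (ka_dt88 x) (by ring1) (ko_dt81 x) (ko_dt88 x)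
theorem ko_dt84 (x : ℝ) : dt84.KOk x := trivial
theorem ko_dt85 (x : ℝ) : dt85.KOk x := trivial
theorem ko_dt90 (x : ℝ) : dt90.KOk x :=
  DT.kOk_node (v := 1 / 10) (by simp only [Cn.rt_v, Cn.ng_v]; norm_num) (kb_dt84 x) (ka_dt85 x) (by ring1) (ko_dt84 x) (ko_dt85 x)
theorem ko_dt86 (x : ℝ) : dt86.KOk x := trivial
theorem ko_dt87 (x : ℝ) : dt87.KOk x := trivial
theorem ko_dt91 (x : ℝ) : dt91.KOk x :=
  DT.kOk_node (v := 1 / 5) (by simp only [Cn.rt_v, Cn.ng_v]; norm_num) (kb_dt86 x) (ka_dt87 x) (by ring1) (ko_dt86 x) (ko_dt87 x)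
theorem ko_dt92 (x : ℝ) : dt92.KOk x :=
  DT.kOk_node (v := 3 / 20) (by simp only [Cn.rt_v, Cn.ng_v]; norm_num) (kb_dt90 x) (ka_dt91 x) (by ring1) (ko_dt90 x) (ko_dt91 x)
theorem ko_dt93 (x : ℝ) : dt93.KOk x :=
  DT.kOk_node (v := -1 / 10) (by simp only [Cn.rt_v, Cn.ng_v]; norm_num) (kb_dt89 x) (ka_dt92 x) (by ring1) (ko_dt89 x) (ko_dt92 x)
theorem phl0 {p x : ℝ} (h2 : p ≤ -1 / 5) : dt93.kv p x = (-2623 / 80000 + (x - 237 / 260) * (-7849 / 80000)) + (-3107 / 10000 + (x - 237 / 260) * (-1221 / 2000)) * p + (-267 / 500 + (x - 237 / 260) * (21 / 20)) * p ^ 2 := by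
  refine (DT.kv_le (by simp only [Cn.rt_v, Cn.ng_v]; push_cast; linarith)).trans ?_
  refine (DT.kv_le (by simp only [Cn.rt_v, Cn.ng_v]; push_cast; linarith)).trans ?_
  simp only [dt81, DT.kv, sw81, sl81, sv81]
  ((try push_cast); ring1)
theorem phl1 {p x : ℝ} (h1 : -1 / 5 < p) (h2 : p ≤ -3 / 20) : dt93.kv p x = (-6843 / 400000 + (x - 237 / 260) * (-3977 / 80000)) + (-1539 / 10000 + (x - 237 / 260) * (-253 / 2000)) * p + (-71 / 500 + (x - 237 / 260) * (113 / 50)) * p ^ 2 := by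
  refine (DT.kv_le (by simp only [Cn.rt_v, Cn.ng_v]; push_cast; linarith)).trans ?_
  refine (DT.kv_gt (by simp only [Cn.rt_v, Cn.ng_v]; push_cast; linarith)).trans ?_
  refine (DT.kv_le (by simp only [Cn.rt_v, Cn.ng_v]; push_cast; linarith)).trans ?_
  simp only [dt82, DT.kv, sw82, sl82, sv82]
  ((try push_cast); ring1)
theorem phl2 {p x : ℝ} (h1 : -3 / 20 < p) (h2 : p ≤ -1 / 10) : dt93.kv p x = (1113 / 100000 + (x - 237 / 260) * (1609 / 20000)) + (1113 / 5000 + (x - 237 / 260) * (1609 / 1000)) * p + (1113 / 1000 + (x - 237 / 260) * (1609 / 200)) * p ^ 2 := by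
  refine (DT.kv_le (by simp only [Cn.rt_v, Cn.ng_v]; push_cast; linarith)).trans ?_
  refine (DT.kv_gt (by simp only [Cn.rt_v, Cn.ng_v]; push_cast; linarith)).trans ?_
  refine (DT.kv_gt (by simp only [Cn.rt_v, Cn.ng_v]; push_cast; linarith)).trans ?_
  simp only [dt83, DT.kv, sw83, sl83, sv83]
  ((try push_cast); ring1)
theorem phl3 {p x : ℝ} (h1 : -1 / 10 < p) (h2 : p ≤ 1 / 10) : dt93.kv p x = (0) + (0) * p := by
  refine (DT.kv_gt (by simp only [Cn.rt_v, Cn.ng_v]; push_cast; linarith)).trans ?_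
  refine (DT.kv_le (by simp only [Cn.rt_v, Cn.ng_v]; push_cast; linarith)).trans ?_
  refine (DT.kv_le (by simp only [Cn.rt_v, Cn.ng_v]; push_cast; linarith)).trans ?_
  simp only [dt84, DT.kv, sl84, sv84]
  ((try push_cast); ring1)
theorem phl4 {p x : ℝ} (h1 : 1 / 10 < p) (h2 : p ≤ 3 / 20) : dt93.kv p x = (-1113 / 100000 + (x - 237 / 260) * (-1609 / 20000)) + (1113 / 5000 + (x - 237 / 260) * (1609 / 1000)) * p + (-1113 / 1000 + (x - 237 / 260) * (-1609 / 200)) * p ^ 2 := by
  refine (DT.kv_gt (by simp only [Cn.rt_v, Cn.ng_v]; push_cast; linarith)).trans ?_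
  refine (DT.kv_le (by simp only [Cn.rt_v, Cn.ng_v]; push_cast; linarith)).trans ?_
  refine (DT.kv_gt (by simp only [Cn.rt_v, Cn.ng_v]; push_cast; linarith)).trans ?_
  simp only [dt85, DT.kv, sw85, sl85, sv85]
  ((try push_cast); ring1)
theorem phl5 {p x : ℝ} (h1 : 3 / 20 < p) (h2 : p ≤ 1 / 5) : dt93.kv p x = (6843 / 400000 + (x - 237 / 260) * (3977 / 80000)) + (-1539 / 10000 + (x - 237 / 260) * (-253 / 2000)) * p + (71 / 500 + (x - 237 / 260) * (-113 / 50)) * p ^ 2 := by
  refine (DT.kv_gt (by simp only [Cn.rt_v, Cn.ng_v]; push_cast; linarith)).trans ?_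
  refine (DT.kv_gt (by simp only [Cn.rt_v, Cn.ng_v]; push_cast; linarith)).trans ?_
  refine (DT.kv_le (by simp only [Cn.rt_v, Cn.ng_v]; push_cast; linarith)).trans ?_
  simp only [dt86, DT.kv, sw86, sl86, sv86]
  ((try push_cast); ring1)
theorem phl6 {p x : ℝ} (h1 : 1 / 5 < p) (h2 : p ≤ 1 / 4) : dt93.kv p x = (2623 / 80000 + (x - 237 / 260) * (7849 / 80000)) + (-3107 / 10000 + (x - 237 / 260) * (-1221 / 2000)) * p + (267 / 500 + (x - 237 / 260) * (-21 / 20)) * p ^ 2 := by
  refine (DT.kv_gt (by simp only [Cn.rt_v, Cn.ng_v]; push_cast; linarith)).trans ?_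
  refine (DT.kv_gt (by simp only [Cn.rt_v, Cn.ng_v]; push_cast; linarith)).trans ?_
  refine (DT.kv_gt (by simp only [Cn.rt_v, Cn.ng_v]; push_cast; linarith)).trans ?_
  simp only [dt87, DT.kv, sw87, sl87, sv87]
  ((try push_cast); ring1)
theorem tvc8 {p x : ℝ} (h1 : -1 / 4 ≤ p) (h2 : p ≤ -1 / 5) : dt80.val (fun p x => kcg.v p x) p (cT p) x = (522979 / 2000000 + (x - 237 / 260) * (36499 / 40000)) + (64217 / 100000 + (x - 237 / 260) * (6051 / 10000)) * p + (-1 / 2000 + (x - 237 / 260) * (-1209 / 100)) * p ^ 2 := by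
  rcases eq_or_lt_of_le h1 with h | h1
  · subst h
    refine (DT.val_le (by simp only [Cn.rt_v, Cn.ng_v]; push_cast; linarith)).trans ?_
    refine (DT.val_gt (by simp only [Cn.rt_v, Cn.ng_v]; push_cast; linarith)).trans ?_
    refine (DT.val_le (by simp only [Cn.rt_v, Cn.ng_v]; push_cast; linarith)).trans ?_
    refine (DT.val_gt (by simp only [Cn.rt_v, Cn.ng_v]; push_cast; linarith)).trans ?_
    refine (DT.val_gt (by simp only [Cn.rt_v, Cn.ng_v]; push_cast; linarith)).trans ?_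
    simp only [dt45, DT.val, sw45, sl45, sv45]
    ((try push_cast); ring1)
  ·
    refine (DT.val_le (by simp only [Cn.rt_v, Cn.ng_v]; push_cast; linarith)).trans ?_
    refine (DT.val_gt (by simp only [Cn.rt_v, Cn.ng_v]; push_cast; linarith)).trans ?_
    refine (DT.val_gt (by simp only [Cn.rt_v, Cn.ng_v]; push_cast; linarith)).trans ?_
    refine (DT.val_le (by simp only [Cn.rt_v, Cn.ng_v]; push_cast; linarith)).trans ?_
    simp only [dt46, DT.val, sw46, sl46, sv46]
    ((try push_cast); ring1)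
theorem tvc9 {p x : ℝ} (h1 : -1 / 5 ≤ p) (h2 : p ≤ -3 / 20) : dt80.val (fun p x => kcg.v p x) p (cT p) x = (483859 / 2000000 + (x - 237 / 260) * (6911 / 8000)) + (44657 / 100000 + (x - 237 / 260) * (1191 / 10000)) * p + (-979 / 2000 + (x - 237 / 260) * (-2661 / 200)) * p ^ 2 := by
  rcases eq_or_lt_of_le h1 with h | h1
  · subst h
    refine (DT.val_le (by simp only [Cn.rt_v, Cn.ng_v]; push_cast; linarith)).trans ?_
    refine (DT.val_gt (by simp only [Cn.rt_v, Cn.ng_v]; push_cast; linarith)).trans ?_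
    refine (DT.val_gt (by simp only [Cn.rt_v, Cn.ng_v]; push_cast; linarith)).trans ?_
    refine (DT.val_le (by simp only [Cn.rt_v, Cn.ng_v]; push_cast; linarith)).trans ?_
    simp only [dt46, DT.val, sw46, sl46, sv46]
    ((try push_cast); ring1)
  ·
    refine (DT.val_le (by simp only [Cn.rt_v, Cn.ng_v]; push_cast; linarith)).trans ?_
    refine (DT.val_gt (by simp only [Cn.rt_v, Cn.ng_v]; push_cast; linarith)).trans ?_
    refine (DT.val_gt (by simp only [Cn.rt_v, Cn.ng_v]; push_cast; linarith)).trans ?_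
    refine (DT.val_gt (by simp only [Cn.rt_v, Cn.ng_v]; push_cast; linarith)).trans ?_
    refine (DT.val_le (by simp only [Cn.rt_v, Cn.ng_v]; push_cast; linarith)).trans ?_
    simp only [dt47, DT.val, sw47, sl47, sv47]
    ((try push_cast); ring1)
theorem tvc10 {p x : ℝ} (h1 : -3 / 20 ≤ p) (h2 : p ≤ -1 / 10) : dt80.val (fun p x => kcg.v p x) p (cT p) x = (53423 / 250000 + (x - 237 / 260) * (62909 / 80000)) + (7007 / 100000 + (x - 237 / 260) * (-1143 / 1250)) * p + (-3489 / 2000 + (x - 237 / 260) * (-67 / 4)) * p ^ 2 := by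
  rcases eq_or_lt_of_le h1 with h | h1
  · subst h
    refine (DT.val_le (by simp only [Cn.rt_v, Cn.ng_v]; push_cast; linarith)).trans ?_
    refine (DT.val_gt (by simp only [Cn.rt_v, Cn.ng_v]; push_cast; linarith)).trans ?_
    refine (DT.val_gt (by simp only [Cn.rt_v, Cn.ng_v]; push_cast; linarith)).trans ?_
    refine (DT.val_gt (by simp only [Cn.rt_v, Cn.ng_v]; push_cast; linarith)).trans ?_
    refine (DT.val_le (by simp only [Cn.rt_v, Cn.ng_v]; push_cast; linarith)).trans ?_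
    simp only [dt47, DT.val, sw47, sl47, sv47]
    ((try push_cast); ring1)
  ·
    refine (DT.val_le (by simp only [Cn.rt_v, Cn.ng_v]; push_cast; linarith)).trans ?_
    refine (DT.val_gt (by simp only [Cn.rt_v, Cn.ng_v]; push_cast; linarith)).trans ?_
    refine (DT.val_gt (by simp only [Cn.rt_v, Cn.ng_v]; push_cast; linarith)).trans ?_
    refine (DT.val_gt (by simp only [Cn.rt_v, Cn.ng_v]; push_cast; linarith)).trans ?_
    refine (DT.val_gt (by simp only [Cn.rt_v, Cn.ng_v]; push_cast; linarith)).trans ?_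
    simp only [dt48, DT.val, sw48, sl48, sv48]
    ((try push_cast); ring1)
theorem tvc11 {p x : ℝ} (h1 : -1 / 10 ≤ p) (h2 : p ≤ 1 / 10) : dt80.val (fun p x => kcg.v p x) p (cT p) x = (106891 / 500000 + (x - 237 / 260) * (69341 / 80000)) + (7187 / 100000 + (x - 237 / 260) * (867 / 1250)) * p + (-3471 / 2000 + (x - 237 / 260) * (-871 / 100)) * p ^ 2 := by
  rcases eq_or_lt_of_le h1 with h | h1
  · subst h
    refine (DT.val_le (by simp only [Cn.rt_v, Cn.ng_v]; push_cast; linarith)).trans ?_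
    refine (DT.val_gt (by simp only [Cn.rt_v, Cn.ng_v]; push_cast; linarith)).trans ?_
    refine (DT.val_gt (by simp only [Cn.rt_v, Cn.ng_v]; push_cast; linarith)).trans ?_
    refine (DT.val_gt (by simp only [Cn.rt_v, Cn.ng_v]; push_cast; linarith)).trans ?_
    refine (DT.val_gt (by simp only [Cn.rt_v, Cn.ng_v]; push_cast; linarith)).trans ?_
    simp only [dt48, DT.val, sw48, sl48, sv48]
    ((try push_cast); ring1)
  ·
    refine (DT.val_gt (by simp only [Cn.rt_v, Cn.ng_v]; push_cast; linarith)).trans ?_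
    refine (DT.val_le (by simp only [Cn.rt_v, Cn.ng_v]; push_cast; linarith)).trans ?_
    refine (DT.val_le (by simp only [Cn.rt_v, Cn.ng_v]; push_cast; linarith)).trans ?_
    refine (DT.val_le (by simp only [Cn.rt_v, Cn.ng_v]; push_cast; linarith)).trans ?_
    simp only [dt49, DT.val, sw49, sl49, sv49]
    ((try push_cast); ring1)
theorem tvc12 {p x : ℝ} (h1 : 1 / 10 ≤ p) (h2 : p ≤ 3 / 20) : dt80.val (fun p x => kcg.v p x) p (cT p) x = (112411 / 500000 + (x - 237 / 260) * (13869 / 16000)) + (-14893 / 100000 + (x - 237 / 260) * (3463 / 5000)) * p + (-1263 / 2000 + (x - 237 / 260) * (-1741 / 200)) * p ^ 2 := by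
  rcases eq_or_lt_of_le h1 with h | h1
  · subst h
    refine (DT.val_gt (by simp only [Cn.rt_v, Cn.ng_v]; push_cast; linarith)).trans ?_
    refine (DT.val_le (by simp only [Cn.rt_v, Cn.ng_v]; push_cast; linarith)).trans ?_
    refine (DT.val_le (by simp only [Cn.rt_v, Cn.ng_v]; push_cast; linarith)).trans ?_
    refine (DT.val_le (by simp only [Cn.rt_v, Cn.ng_v]; push_cast; linarith)).trans ?_
    simp only [dt49, DT.val, sw49, sl49, sv49]
    ((try push_cast); ring1)
  ·
    refine (DT.val_gt (by simp only [Cn.rt_v, Cn.ng_v]; push_cast; linarith)).trans ?_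
    refine (DT.val_le (by simp only [Cn.rt_v, Cn.ng_v]; push_cast; linarith)).trans ?_
    refine (DT.val_le (by simp only [Cn.rt_v, Cn.ng_v]; push_cast; linarith)).trans ?_
    refine (DT.val_gt (by simp only [Cn.rt_v, Cn.ng_v]; push_cast; linarith)).trans ?_
    simp only [dt50, DT.val, sw50, sl50, sv50]
    ((try push_cast); ring1)
theorem tvc13 {p x : ℝ} (h1 : 3 / 20 ≤ p) (h2 : p ≤ 1 / 5) : dt80.val (fun p x => kcg.v p x) p (cT p) x = (112411 / 500000 + (x - 237 / 260) * (65133 / 80000)) + (-14893 / 100000 + (x - 237 / 260) * (6973 / 5000)) * p + (-1263 / 2000 + (x - 237 / 260) * (-2209 / 200)) * p ^ 2 := by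
  rcases eq_or_lt_of_le h1 with h | h1
  · subst h
    refine (DT.val_gt (by simp only [Cn.rt_v, Cn.ng_v]; push_cast; linarith)).trans ?_
    refine (DT.val_le (by simp only [Cn.rt_v, Cn.ng_v]; push_cast; linarith)).trans ?_
    refine (DT.val_le (by simp only [Cn.rt_v, Cn.ng_v]; push_cast; linarith)).trans ?_
    refine (DT.val_gt (by simp only [Cn.rt_v, Cn.ng_v]; push_cast; linarith)).trans ?_
    simp only [dt50, DT.val, sw50, sl50, sv50]
    ((try push_cast); ring1)
  ·
    refine (DT.val_gt (by simp only [Cn.rt_v, Cn.ng_v]; push_cast; linarith)).trans ?_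
    refine (DT.val_le (by simp only [Cn.rt_v, Cn.ng_v]; push_cast; linarith)).trans ?_
    refine (DT.val_gt (by simp only [Cn.rt_v, Cn.ng_v]; push_cast; linarith)).trans ?_
    refine (DT.val_le (by simp only [Cn.rt_v, Cn.ng_v]; push_cast; linarith)).trans ?_
    simp only [dt51, DT.val, sw51, sl51, sv51]
    ((try push_cast); ring1)
theorem tvc14 {p x : ℝ} (h1 : 1 / 5 ≤ p) (h2 : p ≤ 1 / 4) : dt80.val (fun p x => kcg.v p x) p (cT p) x = (114351 / 500000 + (x - 237 / 260) * (65149 / 80000)) + (-18773 / 100000 + (x - 237 / 260) * (6963 / 5000)) * p + (-1069 / 2000 + (x - 237 / 260) * (-276 / 25)) * p ^ 2 := by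
  rcases eq_or_lt_of_le h1 with h | h1
  · subst h
    refine (DT.val_gt (by simp only [Cn.rt_v, Cn.ng_v]; push_cast; linarith)).trans ?_
    refine (DT.val_le (by simp only [Cn.rt_v, Cn.ng_v]; push_cast; linarith)).trans ?_
    refine (DT.val_gt (by simp only [Cn.rt_v, Cn.ng_v]; push_cast; linarith)).trans ?_
    refine (DT.val_le (by simp only [Cn.rt_v, Cn.ng_v]; push_cast; linarith)).trans ?_
    simp only [dt51, DT.val, sw51, sl51, sv51]
    ((try push_cast); ring1)
  ·
    refine (DT.val_gt (by simp only [Cn.rt_v, Cn.ng_v]; push_cast; linarith)).trans ?_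
    refine (DT.val_le (by simp only [Cn.rt_v, Cn.ng_v]; push_cast; linarith)).trans ?_
    refine (DT.val_gt (by simp only [Cn.rt_v, Cn.ng_v]; push_cast; linarith)).trans ?_
    refine (DT.val_gt (by simp only [Cn.rt_v, Cn.ng_v]; push_cast; linarith)).trans ?_
    refine (DT.val_le (by simp only [Cn.rt_v, Cn.ng_v]; push_cast; linarith)).trans ?_
    simp only [dt52, DT.val, sw52, sl52, sv52]
    ((try push_cast); ring1)
theorem ph_ (x : ℝ) : ∀ u, |u| ≤ vv.k2.v → dd.tF x (-u) - dd.tF x u = m0c.v x * u + dt93.kv u x := by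
  intro u h
  have h : |u| ≤ 1 / 4 := by
    refine h.trans_eq ?_
    show (Cn.rt 1 4).v = _
    rw [Cn.rt_v]
    norm_num
  obtain ⟨h1, h2⟩ := abs_le.1 h
  show dt80.val (fun p x => kcg.v p x) (-u) (cT (-u)) x - dt80.val (fun p x => kcg.v p x) u (cT u) x = _
  rcases le_or_gt u (-1 / 5) with g0 | g1000
  ·
    rw [tvc14 (p := -u) (by linarith) (by linarith), tvc8 (p := u) (by linarith) (by linarith), phl0 g0]
    simp only [m0c]
    push_cast
    ring
  rcases le_or_gt u (-3 / 20) with g1 | g1001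
  ·
    rw [tvc13 (p := -u) (by linarith) (by linarith), tvc9 (p := u) (by linarith) (by linarith), phl1 g1000 g1]
    simp only [m0c]
    push_cast
    ring
  rcases le_or_gt u (-1 / 10) with g2 | g1002
  ·
    rw [tvc12 (p := -u) (by linarith) (by linarith), tvc10 (p := u) (by linarith) (by linarith), phl2 g1001 g2]
    simp only [m0c]
    push_cast
    ring
  rcases le_or_gt u (1 / 10) with g3 | g1003
  ·
    rw [tvc11 (p := -u) (by linarith) (by linarith), tvc11 (p := u) (by linarith) (by linarith), phl3 g1002 g3]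
    simp only [m0c]
    push_cast
    ring
  rcases le_or_gt u (3 / 20) with g4 | g1004
  ·
    rw [tvc10 (p := -u) (by linarith) (by linarith), tvc12 (p := u) (by linarith) (by linarith), phl4 g1003 g4]
    simp only [m0c]
    push_cast
    ring
  rcases le_or_gt u (1 / 5) with g5 | g1005
  ·
    rw [tvc9 (p := -u) (by linarith) (by linarith), tvc13 (p := u) (by linarith) (by linarith), phl5 g1004 g5]
    simp only [m0c]
    push_cast
    ring
  ·
    rw [tvc8 (p := -u) (by linarith) (by linarith), tvc14 (p := u) (by linarith) (by linarith), phl6 g1005 (by linarith)]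
    simp only [m0c]
    push_cast
    ring
theorem kqf_ {y : ℝ} (x : ℝ) (h : OnC (0 : Fin 5) 2 y) : kqf.v y x * c1g.v y = (y - 1) * kcg.v (c1g.v y) x := by
  have h0 : 0 ≤ c1g.v y := by rw [c1g_v]; exact c1n_nn y
  simp only [kqf]
  (try push_cast)
  split_ifs with hh
  · rw [kcl9 (p := c1g.v y) (by linarith) (by linarith)]
    ring
  · have hc : c1g.v y ≠ 0 := by
      intro e
      rw [e] at hh
      exact hh (by norm_num)
    have hi := inv_mul_cancel₀ hc
    linear_combination ((y - 1) * kcg.v (c1g.v y) x) * hi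
theorem sM_ (x : ℝ) : ∀ y, OnC (0 : Fin 5) 2 y → c1n y < crv PP 1 2 y →
    (1 + skm.v y x) * (crv PP 1 2 y - c1n y) = tK 1 2 y x - tK 0 2 y x := by
  intro y h hlt
  rw [yK12 h.1, yK02 h]
  rw [ecv1q2, ← c1g_v] at hlt ⊢
  have hd : 0 < cv1p.v y - c1g.v y := sub_pos.2 hlt
  have hi := inv_mul_cancel₀ hd.ne'
  have hb : |c1g.v y| ≤ 1 / 2 := by rw [c1g_v]; exact bnd_O h
  have eo := odd (x := x) hb
  have hk := kqf_ x h
  simp only [skm, kf1q2, kf0q2, eo]
  (try push_cast)
  linear_combination (cv1p.v y * ((bf1q2.v y x - 1) + kqf.v y x)) * hi + hk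
theorem ok (x : ℝ) : tt.Ok PP tK tL x where
  i0 := rfl
  il := rfl
  rl := by
    show 1 < PP.ρ 3
    have e : PP.ρ 3 = 8 / 5 := rfl
    rw [e]
    norm_num
  ok := dok x
  kh := rfl
  odd := fun p h => odd h
  K0 := K0_ x
  L0 := L0_ x
  Kn := Kn_ x
  Ln := Ln_ x
  f0 := f0_
  fn := fn_
  sK0 := sK0_ x
  sX0 := sX0_ x
  sKn := sKn_ x
  sXn := sXn_ x
  k1 := by
    show 0 ≤ (Cn.rt 2 25).v ∧ (Cn.rt 2 25).v ≤ 1 / 2
    rw [Cn.rt_v]
    constructor <;> norm_num
  kn := kn_ x
  tn := tn_ x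
  vK := vK_ x
  vX := vX_ x
  rK := rK_ x
  rX := rX_ x
  yb := by
    show 0 ≤ (Cn.rt 231 200).v ∧ 1 ≤ 3 / 4 * (Cn.rt 231 200).v ^ 2
    rw [Cn.rt_v]
    constructor <;> norm_num
  flat := flat_ x
  abk := abk_ x
  phk := ko_dt93 x
  ph := ph_ x
  sM := sM_ x
  yz := by
    show (Cn.rt 577 500).v ≤ (Cn.rt 577 500).v ∧ 0 ≤ (Cn.rt 577 500).v ∧ 1 ≤ 3 / 4 * (Cn.rt 577 500).v ^ 2 + (Cn.rt 2 25).v ^ 2
    simp only [Cn.rt_v]
    refine ⟨?_, ?_, ?_⟩ <;> norm_num
theorem okx {x : ℝ} (hx : ((966367641 : ℕ) : ℝ) / S ≤ x) (hx' : x ≤ (((966367641 : ℕ) : ℝ) + (24778659 : ℕ)) / S) : tt.Ok PP tK tL x := ok x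

end Pool.Agent.Strip051.G.I9000_9231.Tab.St
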