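import Pool.Agent.Strip051.G.I9000_9231.StH
import Pool.Agent.Strip051.G.I9000_9231.StF

/-! # Unit strips 1 (generated) -/

set_option linter.all false
set_option maxRecDepth 100000

namespace Pool.Agent.Strip051.G.I9000_9231.Tab.St.C

open Pool.Agent.Strip051.PB Pool.Agent.Strip051.PB.T Pool.Agent.StripNear Pool.Agent.Strip051.LC
open Pool.Agent.Strip051.G.I9000_9231.Tab Pool.Agent.Strip051.G.I9000_9231.Tab.St

noncomputable def cut_A00pp_022_s3 : Cut := Cut.of [[⟨3, 0, 0, 2845415833⟩], [⟨0, 0, 0, 53687091⟩, ⟨1, 1, 0, 53687091⟩, ⟨2, 1, 0, 53687091⟩]]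

noncomputable def xt_A00pp_022_s3 : Ext := strExt dd true true true .u0 .u2 .s2 .pp 0 2 2 rfl rfl gl2 vv ndB0q0 ndB0q2

noncomputable def f_A00pp_022_s3 : ℕ → ℕ → ℕ → ℕ → Bool := onCell 0 536870912 0 536870912 966367641 24778659
    (rowF 0 true true true .pp 0 2 2 (qsf 0 536870912 0 536870912 2) ndB0q0 ndB0q2 pcB2 cut_A00pp_022_s3 xt_A00pp_022_s3)

def k0_A00pp_022_s3 : ∃ t, chk3 f_A00pp_022_s3 t 4 2 1 = true :=
  ⟨(a (l 6) (b (l 6) (b (l 6) (b (l 6) (b (a (l 6) (a (a (l 6) (c (l 16514488) (l 16447400))) (c (a (l 16531592) (l 16529312)) (a (l 16444264) (l 16442152))))) (a (a (l 6) (a (l 6) (c (l 16482760) (l 16480792)))) (c (a (a (l 16501912) (l 16519592)) (c (l 16547264) (l 16527648))) (a (c (l 16493880) (l 16452552)) (c (l 16488704) (l 16448112)))))))))), by decide +kernel⟩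

def k1_A00pp_022_s3 : ∃ t, chk3 f_A00pp_022_s3 t 5 4 1 = true :=
  ⟨(b (l 6) (b (l 6) (a (l 6) (a (l 6) (a (l 6) (c (c (l 16513120) (l 16450008)) (c (l 16383936) (l 16320424)))))))), by decide +kernel⟩

def k2_A00pp_022_s3 : ∃ t, chk3 f_A00pp_022_s3 t 10 5 1 = true :=
  ⟨(b (b (l 6) (a (l 6) (c (a (c (l 16489664) (b (l 6) (l 16524808))) (c (b (l 16558872) (l 16576712)) (b (l 16503992) (l 16526840)))) (a (c (l 16456984) (l 16397704)) (c (l 16481584) (l 16424528)))))) (b (b (a (a (l 6) (c (a (l 16488608) (l 16487312)) (c (l 16495864) (l 16442584)))) (c (a (a (l 16486712) (l 16486848)) (c (l 16510744) (l 16549768))) (a (c (l 16497552) (l 16446312)) (c (l 16502832) (l 16453976))))) (a (a (a (c (l 16510240) (l 16498208)) (c (l 16508104) (l 16497392))) (c (a (l 16506704) (l 16506016)) (c (l 16521744) (l 16473728)))) (c (a (c (l 16610912) (l 16568776)) (c (l 16570728) (l 16572784))) (a (c (l 16524688) (l 16478784)) (c (l 16531064) (l 16487632)))))) (a (c (a (c (b (l 16546360) (l 16598664)) (b (l 16589464) (l 16567040)))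 (c (b (l 16627944) (l 16612552)) (b (l 16504816) (b (l 16520472) (l 16530824))))) (c (a (b (l 16546784) (l 16529312)) (b (l 16547648) (a (l 16572640) (l 16574608)))) (a (b (l 16502304) (l 16479520)) (b (l 16504872) (a (l 16534600) (l 16537560)))))) (a (c (c (b (l 16607128) (c (l 16653312) (l 16595536))) (b (l 16538408) (b (l 16607488) (l 16576536)))) (b (c (l 16509904) (l 16511256)) (c (a (l 16577384) (l 16580944)) (a (l 16541440) (l 16546200))))) (a (c (b (c (l 16546064) (l 16594384)) (b (l 531953423) (l 531704847))) (b (l 531256079) (a (l 531374607) (l 531290639)))) (c (c (b (l 16632024) (l 16608616)) (b (l 16597688) (l 16621112))) (b (l 531092495) (a (l 531207951) (l 531127055))))))))), by decide +kernel⟩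

def k3_A00pp_022_s3 : ∃ t, chk3 f_A00pp_022_s3 t 11 5 1 = true :=
  ⟨(a (b (c (c (a (b (l 16449640) (b (l 16561512) (l 16580168))) (b (l 16454544) (b (l 16567616) (l 16587040)))) (b (a (l 16473208) (l 16501232)) (a (b (l 16508768) (l 16532528)) (b (l 16517160) (l 16541784))))) (b (a (c (l 16410104) (l 16344464)) (c (l 16419408) (l 16377064))) (a (c (b (l 16453584) (l 16482704)) (b (l 16396176) (l 16430856))) (a (l 530780175) (l 530379279))))) (a (a (b (c (b (l 532707087) (l 531913231)) (b (l 16486024) (l 530880271))) (c (b (l 531395343) (c (l 16611936) (l 16625720))) (b (l 530935055) (l 531411215)))) (c (b (b (l 532591887) (l 532601103)) (c (c (l 533270031) (l 532847375)) (l 532193551))) (b (b (l 16513080) (l 530731279)) (b (l 530784527) (l 530857231))))) (a (c (b (b (l 532485391) (l 532493327)) (c (l 532421391) (l 532075791))) (b (b (l 16520080) (l 530589455)) (b (l 530641679) (l 530714383)))) (b (c (c (l 532850959) (l 531916303)) (l 530702863)) (c (c (l 532866575) (l 531967247)) (b (l 530505743) (l 530578959)))))))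 (b (c (c (b (a (l 532739599) (l 532579343)) (a (l 532729103) (l 532567567))) (b (a (l 531743503) (l 531553295)) (a (l 531746575) (l 531554063)))) (b (a (c (l 530432527) (l 529347855)) (a (l 529983503) (l 529868047))) (a (b (l 530313743) (l 530197775)) (b (l 529938447) (l 529954319))))) (b (a (c (c (a (l 532763151) (l 532678159)) (l 531761167)) (a (l 530303503) (l 530176015))) (c (c (l 532556047) (l 531564815)) (a (l 530052111) (l 529931535)))) (c (a (b (a (l 532311823) (l 532217615)) (c (l 532744207) (l 531831055))) (b (c (l 532559631) (l 531592207)) (c (l 532578831) (l 531633167)))) (a (b (a (l 530373391) (l 530244623)) (a (l 530447119) (l 530318863))) (b (a (l 530118671) (l 529996047)) (a (l 530193679) (l 530071567)))))))), by decide +kernel⟩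

def k4_A00pp_022_s3 : ∃ t, chk3 f_A00pp_022_s3 t 12 4 1 = true :=
  ⟨(b (b (l 6) (a (l 6) (b (l 6) (a (l 6) (a (l 6) (c (l 16447624) (l 16308888))))))) (a (a (b (l 6) (a (c (l 531813391) (l 529758479)) (c (l 531867919) (l 529651471)))) (b (b (l 6) (c (c (l 16500328) (l 16436048)) (a (l 16328912) (l 16339096)))) (a (c (l 531791119) (l 529548047)) (c (l 531716879) (l 529448719))))) (c (b (a (c (l 531859215) (a (l 16433448) (l 16441800))) (c (l 531727119) (a (l 16450560) (l 16459656)))) (a (b (l 531607311) (l 531613711)) (c (l 532028943) (l 530910223)))) (a (a (b (l 529363215) (l 529353231)) (b (l 529136399) (l 529262095))) (b (b (a (l 16335560) (l 16347488)) (l 529133583)) (c (l 529736207) (l 528781327))))))), by decide +kernel⟩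

def k5_A00pp_022_s3 : ∃ t, chk3 f_A00pp_022_s3 t 12 5 1 = true :=
  ⟨(a (b (c (a (b (b (l 531909647) (l 531908111)) (c (l 532416527) (l 531374095))) (c (b (l 532290063) (l 532276495)) (b (l 531210255) (l 531206671)))) (b (a (a (l 529756431) (l 529648399)) (c (l 530078223) (l 528899599))) (a (a (l 529773839) (l 529664015)) (a (l 529558031) (l 529456399))))) (b (c (a (c (l 532401423) (l 531379727)) (c (l 532257039) (l 531206415))) (a (a (l 529814543) (l 529700879)) (a (l 529590543) (l 529484303)))) (b (a (c (l 531908879) (l 529817615)) (c (l 531745039) (l 529589007))) (a (c (l 531671567) (l 529893647)) (c (l 531507983) (l 529665039)))))) (b (c (a (b (a (l 531650319) (l 531583503)) (a (l 531641103) (l 531574287))) (b (a (l 531520271) (l 531457295)) (a (l 531511567) (l 531453455)))) (a (b (a (l 529349391) (l 529258255)) (a (l 529359119) (l 529266959))) (b (a (l 529172495) (l 529087503)) (a (l 529180431) (l 529100303))))) (c (b (a (c (l 532123407) (l 531046159)) (a (l 531491087) (l 531430415))) (a (b (l 531589391)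 (l 531619855)) (b (a (l 531479311) (l 531411471)) (a (l 531506959) (l 531431951))))) (b (a (b (l 529326351) (l 529341967)) (a (l 529193487) (l 529108751))) (a (b (l 529371919) (l 529445391)) (b (a (l 529218063) (l 529122831)) (a (l 529287183) (l 529182223)))))))), by decide +kernel⟩

def k6_A00pp_022_s3 : ∃ t, chk3 f_A00pp_022_s3 t 13 2 1 = true :=
  ⟨(a (b (b (b (b (l 6) (a (l 6) (a (l 6) (c (l 16422240) (l 16277552))))) (c (c (a (l 16477728) (l 531682319)) (a (a (l 16407424) (l 16416464)) (a (l 16425944) (l 16435896)))) (b (a (a (l 6) (l 16293216)) (a (l 16305728) (l 16318864))) (a (a (l 16320808) (l 16333168)) (l 528636431))))) (c (b (a (c (l 531593231) (c (l 16488024) (l 16459544))) (c (l 531729167) (l 530592015))) (a (c (l 531902223) (l 530764559)) (b (l 531198479) (l 531214607)))) (b (b (a (a (l 16359832) (l 16372584)) (l 528509711)) (a (l 528953359) (l 528511247))) (a (c (l 529569551) (l 528323599)) (b (l 528779791) (l 528780303)))))) (a (b (b (c (a (l 531392783) (l 531326479)) (b (l 528954383) (l 528958479)))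 (c (l 531090703) (l 528969999))) (c (b (a (l 531375887) (l 531312911)) (c (l 531864847) (l 530764815))) (b (a (l 529032207) (l 528944143)) (a (b (l 529052431) (l 529067279)) (l 528965135))))) (b (b (c (l 531230735) (l 528783631)) (c (l 531234063) (l 528798991))) (b (c (l 531221263) (l 528815887)) (b (c (l 531201807) (l 528825871)) (l 4)))))) (b (a (a (b (b (b (l 6) (c (l 16431064) (l 16290896))) (c (l 530755087) (l 528371983))) (b (c (l 531067919) (l 528389391)) (c (l 531110671) (l 528659727)))) (b (l 2) (b (l 2) (c (l 531049231) (l 528584463))))) (l 2)) (a (b (b (c (l 531109391) (l 528625167)) (c (l 531116815) (l 528640527))) (b (c (l 531106575) (l 528656911)) (c (b (l 531088143) (l 4)) (l 528675087)))) (b (a (b (b (l 2) (l 529802767)) (c (l 531033871) (l 528530703))) (l 2)) (b (c (l 531000591) (l 528244239)) (l 4)))))), by decide +kernel⟩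

def k7_A00pp_022_s3 : ∃ t, chk3 f_A00pp_022_s3 t 7 2 1 = true :=
  ⟨(b (l 2) (b (l 2) (b (l 2) (l 4)))), by decide +kernel⟩

def k8_A00pp_022_s3 : ∃ t, chk3 f_A00pp_022_s3 t 8 24 1 = true :=
  ⟨(b (l 6) (a (l 6) (a (l 6) (a (b (l 6) (c (c (l 16447584) (l 16494232)) (l 16471600))) (c (c (b (l 16483360) (l 16491216)) (l 16472760)) (b (l 16472504) (l 16475216))))))), by decide +kernel⟩

def k9_A00pp_022_s3 : ∃ t, chk3 f_A00pp_022_s3 t 8 50 1 = true :=
  ⟨(a (l 6) (a (b (a (l 6) (a (l 6) (b (l 6) (c (l 16431784) (l 16520744))))) (c (a (a (c (c (l 16430896) (l 16440736)) (l 16413896)) (c (l 16426120) (l 16425608))) (a (c (l 16437424) (l 16437312)) (c (l 16427744) (l 16490936)))) (c (a (a (l 16476640) (l 16488776)) (a (l 16500888) (l 16512960))) (a (l 16483512) (l 16487616))))) (c (c (a (b (b (l 16475048) (l 16479536)) (a (l 16438968) (l 16450096))) (b (b (l 16497424) (l 16501720)) (c (l 16460960) (l 16513960)))) (a (b (l 16501008) (a (l 16502528) (l 16514016))) (b (l 16524032) (l 16488992)))) (c (a (b (l 16525592)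 (l 16488904)) (b (l 16549384) (l 16512336))) (a (b (l 16467160) (l 16512280)) (l 16535056)))))), by decide +kernel⟩

def k10_A00pp_022_s3 : ∃ t, chk3 f_A00pp_022_s3 t 8 102 1 = true :=
  ⟨(a (a (l 6) (a (l 6) (c (c (a (c (l 16420272) (l 16428832)) (b (l 16432704) (l 16417352))) (a (l 16431488) (l 16442888))) (c (a (l 16439112) (l 16450952)) (a (l 16478856) (l 16491136)))))) (a (c (a (c (a (b (l 16443792) (l 16428320)) (a (l 16433848) (l 16439384))) (a (l 16443840) (l 16455280))) (c (a (l 16458176) (l 16458744)) (a (l 16466720) (l 16457152)))) (a (a (c (l 16483768) (l 16503408)) (c (l 16495608) (l 16515656))) (c (a (l 16507424) (l 16519192)) (a (l 16527864) (l 16540008))))) (c (c (a (a (l 16469760) (l 16480672)) (a (l 16470464) (l 16522984))) (a (a (l 16510464) (l 16521736)) (a (l 16532856) (l 16543800)))) (a (c (a (l 16530920) (l 16542560)) (l 16516176)) (c (l 16517792) (l 16539920)))))), by decide +kernel⟩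

def k11_A00pp_022_s3 : ∃ t, chk3 f_A00pp_022_s3 t 8 103 1 = true :=
  ⟨(a (a (b (l 6) (b (l 6) (a (l 6) (a (l 6) (a (l 6) (c (l 16397888) (l 16447960))))))) (a (a (b (l 6) (c (c (c (l 16414592) (l 16421720)) (l 16411712)) (a (l 16442160) (l 16458448)))) (c (c (c (b (l 16418696) (l 16425000)) (l 16429384)) (a (l 16417232) (l 16422760))) (c (a (l 16433080) (l 16438832)) (b (l 16471680) (l 16475304))))) (c (c (a (a (l 16412616) (l 16417968)) (b (l 16423096) (l 16428976))) (a (a (l 16428304) (l 16433864)) (b (l 16460672) (l 16444752)))) (c (a (a (l 16444592) (l 16450352)) (b (l 16477896) (l 16482096))) (a (l 16485440) (l 16497392)))))) (a (c (a (c (a (b (l 16433952) (l 16439712)) (b (l 16444832) (l 16450472))) (a (b (l 16471904) (l 16455856)) (l 16475048))) (c (a (b (l 16476688) (l 16461240)) (a (l 16466576) (l 16471976))) (a (l 16486216) (l 16486864)))) (a (c (a (l 16481056) (l 16503080)) (a (l 16509344) (l 16521256))) (a (c (l 16514592) (l 16533136)) (c (l 16526064) (l 16544944))))) (c (a (c (a (l 16490552) (l 16490760))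 (a (l 16518944) (l 16529976))) (c (a (l 16501328) (l 16532688)) (a (l 16540896) (l 16551640)))) (a (a (c (l 16537504) (l 16556728)) (c (l 16548880) (l 16568456))) (c (b (l 16564176) (l 16525384)) (l 16543936)))))), by decide +kernel⟩

def k12_A00pp_022_s3 : ∃ t, chk3 f_A00pp_022_s3 t 9 24 1 = true :=
  ⟨(a (a (a (b (l 6) (c (c (b (l 16505592) (l 16513080)) (l 16495600)) (b (l 16496768) (l 16499088)))) (b (c (b (l 6) (l 16452256)) (l 16516816)) (c (c (b (l 16526936) (l 16534064)) (l 16475520)) (b (l 16519888) (l 16521832))))) (c (b (c (a (l 16454216) (l 16474048)) (a (l 16487688) (l 16507672))) (a (c (b (l 16547336) (l 16554112)) (l 16496192)) (c (l 16527920) (l 16515496)))) (b (a (l 16509056) (l 16502824)) (a (b (l 16524184) (l 16533928)) (b (l 16518568) (l 16528728)))))) (a (c (b (c (a (l 16492656) (l 16509992)) (l 16555664)) (a (c (l 16545864) (l 16533280)) (c (l 16562560) (l 16549464)))) (b (c (l 16535656) (b (l 16555848) (l 16484512))) (a (b (l 16514632) (l 16525192)) (b (l 16512392) (l 16544336))))) (c (c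 (b (a (l 16526328) (l 16541848)) (a (l 16578272) (l 16593184))) (b (l 16587152) (b (l 16599720) (l 16607848)))) (b (c (b (l 16505560) (l 16516456)) (a (l 16559648) (l 16559336))) (c (a (l 16532512) (l 16574352)) (a (l 16543408) (l 16543880))))))), by decide +kernel⟩

def k13_A00pp_022_s3 : ∃ t, chk3 f_A00pp_022_s3 t 18 25 1 = true :=
  ⟨(a (c (b (c (a (b (l 16479120) (a (l 16524312) (l 16534648))) (b (l 16541680) (l 16507824))) (a (b (l 16546304) (l 16510872)) (b (l 16567608) (l 16531800)))) (c (a (b (a (l 16533352) (l 16543496)) (a (l 16542864) (l 16552816))) (b (a (l 16553440) (l 16563152)) (a (l 16562568) (l 16572096)))) (a (b (l 16517904) (a (l 16562184) (l 16572520))) (b (l 16538448) (l 16545600))))) (c (b (a (l 16532728) (l 16554544)) (a (b (l 16540056) (l 16545664)) (b (l 16519344) (l 16566496)))) (b (a (l 16558736) (l 16539328)) (a (b (l 16521040) (l 16566576)) (b (l 16542968) (l 16588104)))))) (b (c (c (a (b (l 16561368) (l 16527152)) (b (l 16579992) (l 16545416))) (a (l 16548656) (l 16567264))) (a (b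 (l 16543400) (l 16568824)) (b (l 16538616) (l 16569208)))) (b (c (a (c (l 16535344) (l 16557840)) (c (l 16553256) (l 16575896))) (a (c (l 16539176) (l 16549584)) (c (l 16557392) (l 16545504)))) (c (a (c (a (l 16581392) (l 16590432)) (l 16564616)) (c (l 16572040) (l 16582304))) (a (c (l 16585936) (l 16559344)) (c (l 16603784) (l 16597632))))))), by decide +kernel⟩

def k14_A00pp_022_s3 : ∃ t, chk3 f_A00pp_022_s3 t 19 25 1 = true :=
  ⟨(a (c (c (b (b (a (l 16555488) (l 16571680)) (a (l 16562504) (l 16578352))) (a (b (l 16569984) (l 16577920)) (b (l 16585488) (l 16603560)))) (b (a (l 16584360) (l 16599888)) (a (c (l 16590024) (l 16600976)) (b (l 16607472) (l 16613176))))) (c (b (a (l 16595960) (l 16594584)) (a (a (l 16613736) (l 16613072)) (a (l 16612824) (l 16612864)))) (b (a (l 16568752) (a (l 16567832) (l 16567680))) (a (c (l 16596304) (l 16605640)) (b (l 16584720) (l 16595744)))))) (b (c (a (c (b (l 16586904) (l 16593248)) (l 16614248)) (c (b (l 16601344) (l 16607360)) (l 16619824))) (a (c (l 16594360) (a (l 16567792)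 (l 16568160))) (b (c (l 16547992) (l 16604912)) (c (l 16600040) (l 16617288))))) (a (c (b (c (l 16600040) (l 16621344)) (c (l 16617768) (l 16626696))) (b (c (l 16608672) (l 16585592)) (c (l 16617944) (l 16618008)))) (c (c (c (l 532536079) (l 16643064)) (l 532976655)) (b (c (l 16609912) (l 16608424)) (c (l 16640552) (l 532232207))))))), by decide +kernel⟩

def k15_A00pp_022_s3 : ∃ t, chk3 f_A00pp_022_s3 t 64 26 1 = true :=
  ⟨(b (b (b (l 6) (a (l 6) (c (c (l 16411392) (l 16412528)) (a (l 16417592) (l 16423136))))) (c (a (c (c (l 16399408) (l 16404336)) (c (l 16409376) (l 16414512))) (c (c (l 16408792) (l 16413984)) (a (l 16424680) (l 16403520)))) (a (c (c (l 16419752) (l 16425096)) (a (l 16430544) (l 16415120))) (c (b (l 16409184) (l 16414856)) (b (l 16421000) (l 16431192)))))) (c (c (b (a (b (l 16412744) (l 16420168)) (c (l 16423504) (l 16428040))) (a (c (l 16429624) (l 16433288)) (b (l 16447280) (l 16454704)))) (c (a (b (l 16422992) (l 16437040)) (b (l 16432672) (l 16446488))) (a (b (l 16427456) (l 16440864))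 (b (l 16416424) (l 16450576))))) (a (b (c (a (l 16410784) (l 16415928)) (b (l 16420144) (l 16425544))) (c (a (l 16444240) (l 16428304)) (a (l 16431264) (l 16436584)))) (b (c (c (l 16421240) (l 16426152)) (c (l 16436408) (l 16441512))) (c (c (l 16433776) (l 16438032)) (c (l 16447616) (l 16457280))))))), by decide +kernel⟩

def k16_A00pp_022_s3 : ∃ t, chk3 f_A00pp_022_s3 t 65 26 1 = true :=
  ⟨(b (c (c (b (a (c (l 16404376) (l 16410488)) (c (b (l 16410960) (l 16417744)) (l 16431184))) (a (c (b (l 16414824) (l 16421952)) (l 16434296)) (c (b (l 16424640) (l 16431656)) (b (l 16430456) (l 16437128))))) (b (a (a (l 16396304) (l 16401552)) (b (l 16406568) (l 16412424))) (a (b (l 16408048) (l 16414312)) (b (a (l 16436784) (l 16442000)) (a (l 16442960) (l 16448112)))))) (b (c (a (a (l 16409152) (l 16414656)) (b (l 16420408) (l 16430744))) (a (a (l 16422496) (l 16438736)) (b (l 16434776) (l 16449560)))) (b (a (c (l 16425160) (l 16442728)) (c (l 16435992) (l 16454040))) (a (c (l 16430704) (l 16447528)) (c (c (l 16454192) (l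 16460104)) (l 16458688)))))) (c (c (b (a (c (b (l 16429192) (l 16436544)) (b (l 16434112) (l 16441144))) (c (b (l 16438792) (l 16446040)) (b (l 16443920) (l 16450848)))) (a (c (b (l 16443984) (l 16451440)) (b (l 16448272) (l 16455440))) (a (b (l 16453224) (l 16460448)) (b (l 16458000) (l 16465176))))) (b (a (c (l 16421528) (b (l 16444264) (l 16450632))) (c (b (l 16449160) (l 16455744)) (b (l 16454496) (l 16460744)))) (a (c (b (l 16452656) (l 16459520)) (b (l 16457128) (l 16463680))) (c (b (l 16462440) (l 16469192)) (b (l 16467112) (l 16473552)))))) (b (c (a (c (b (l 16449488) (l 16455520)) (l 16441936)) (c (b (l 16459944) (l 16465848)) (b (l 16465488) (l 16471040)))) (a (b (l 16452512) (l 16457672)) (c (l 16463248) (b (l 16476904) (l 16481728))))) (c (a (c (l 16449080) (b (l 16466336) (l 16472264))) (c (b (l 16471880) (l 16478008)) (b (l 16476736) (l 16482544)))) (a (c (b (l 16471072) (l 16476680)) (l 16468048)) (c (b (l 16481680) (l 16487168)) (b (l 16486728) (l 16491880)))))))), by decide +kernel⟩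

def k17_A00pp_022_s3 : ∃ t, chk3 f_A00pp_022_s3 t 33 52 2 = true :=
  ⟨(a (c (b (a (c (b (l 16421136) (l 16427808)) (b (l 16427888) (l 16434192))) (a (c (l 16432136) (l 16438856)) (b (l 16437512) (l 16443856)))) (a (c (b (l 16434592) (l 16441504)) (b (l 16440616) (l 16447176))) (a (b (l 16445208) (l 16451856)) (b (l 16450320) (l 16456912))))) (c (b (a (l 16416760) (l 16427416)) (a (b (l 16446760) (l 16452960)) (b (l 16457224) (l 16463304)))) (b (a (l 16423584) (l 16434448)) (a (b (l 16453024) (l 16458856)) (l 16450800))))) (c (b (a (b (l 16424424) (c (l 16448280) (l 16455048))) (b (l 16434992) (c (l 16458640) (l 16465592)))) (a (b (c (l 16454848) (l 16461240)) (c (l 16461536) (l 16467568))) (b (c (l 16465096) (l 16471656)) (b (l 16452168) (l 16455392))))) (c (b (a (l 16438144) (l 16448920)) (a (b (l 16467768) (l 16473712)) (l 16465528))) (b (a (l 16445376) (l 16456344)) (a (b (l 16474416) (l 16479984)) (l 16472160)))))), by decide +kernel⟩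

def k18_A00pp_022_s3 : ∃ t, chk3 f_A00pp_022_s3 t 33 53 2 = true :=
  ⟨(a (c (b (a (a (b (l 16448704) (l 16455712)) (b (l 16453656) (l 16460608))) (b (c (l 16458392) (l 16463896)) (c (l 16465424) (l 16470592)))) (a (b (c (l 16462904) (l 16467576)) (c (l 16470152) (l 16474520))) (c (b (l 16472552) (l 16479688)) (b (l 16477384) (l 16484216))))) (b (a (b (c (l 16459288) (l 16464832)) (c (l 16465760) (l 16470952))) (b (c (l 16469512) (l 16475232)) (c (l 16475856) (l 16481232)))) (a (c (b (l 16472336) (l 16478968)) (b (l 16477192) (l 16483512))) (c (b (l 16482320) (l 16488832)) (b (l 16487344) (l 16493536)))))) (b (c (c (a (b (l 16468344) (l 16475272)) (b (l 16478360) (l 16485176))) (a (b (l 16474016) (l 16480592)) (b (l 16484192) (l 16490656)))) (a (b (c (l 16479800) (l 16485696)) (c (l 16486024) (l 16491560))) (b (c (l 16490136) (l 16496192)) (c (l 16496232) (l 16501920))))) (c (c (a (b (l 16482280) (l 16489320)) (b (l 16492080) (l 16499008))) (a (b (l 16487272) (l 16493992)) (b (l 16497216) (l 16503816)))) (a (b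 (c (l 16492360) (l 16497544)) (c (l 16498752) (l 16503608))) (b (c (l 16502448) (l 16507776)) (c (l 16508712) (l 16513712))))))), by decide +kernel⟩

def k19_A00pp_022_s3 : ∃ t, chk3 f_A00pp_022_s3 t 33 26 3 = true :=
  ⟨(b (a (b (c (a (b (l 16431600) (l 16441800)) (b (l 16442856) (l 16458152))) (a (b (l 16446440) (l 16461072)) (b (l 16458144) (l 16472616)))) (c (a (c (l 16446392) (b (l 16465904) (l 16470984))) (b (l 16463120) (l 16468256))) (a (c (l 16464376) (l 16470920)) (c (l 16475584) (b (l 16490760) (l 16494904)))))) (b (c (a (b (l 16454160) (l 16469304)) (b (l 16465480) (l 16480480))) (a (b (l 16469856) (l 16484176)) (b (l 16481576) (l 16495728)))) (c (a (b (l 16474136) (c (l 16486368) (l 16492872))) (c (l 16484152) (l 16491024))) (a (c (l 16486800) (l 16493744)) (c (l 16498024) (l 16505152)))))) (a (b (c (a (c (b (l 16470472) (l 16476248)) (b (l 16476232) (l 16481640))) (b (c (l 16481072) (l 16487016)) (c (l 16486704) (l 16492280)))) (a (c (b (l 16482088) (l 16487136)) (b (l 16488056) (l 16492728))) (c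 (b (l 16493072) (l 16497960)) (b (l 16499232) (l 16503744))))) (c (a (c (b (l 16482144) (l 16488144)) (b (l 16487192) (l 16492864))) (c (b (l 16492472) (l 16498336)) (b (l 16497696) (l 16503224)))) (a (c (b (l 16492336) (l 16497672)) (c (l 16488304) (l 16490864))) (c (c (l 16493824) (l 16496424)) (a (l 16497664) (l 16503048)))))) (b (c (a (c (b (l 16491704) (l 16497200)) (b (l 16497824) (l 16502944))) (b (b (l 16493736) (l 16496280)) (b (l 16498856) (l 16501480)))) (a (b (b (l 16495616) (l 16497848)) (b (l 16500120) (l 16502440))) (b (b (l 16506728) (l 16508880)) (b (l 16511072) (l 16513312))))) (c (a (c (b (l 16502832) (l 16508560)) (b (l 16508216) (l 16513600))) (c (b (l 16513208) (l 16518800)) (c (l 16509528) (l 16512224)))) (a (c (c (l 16504392) (l 16507072)) (a (l 16508440) (l 16513816))) (c (a (l 16513672) (l 16518968)) (a (l 16519192) (l 16524552)))))))), by decide +kernel⟩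

def k20_A00pp_022_s3 : ∃ t, chk3 f_A00pp_022_s3 t 34 26 2 = true :=
  ⟨(b (a (b (c (a (c (l 16444968) (l 16452280)) (c (l 16455464) (l 16462944))) (a (b (l 16460920) (l 16476608)) (b (l 16471888) (l 16476968)))) (c (a (b (l 16463008) (b (l 16462456) (l 16465624))) (b (l 16473408) (l 16479560))) (a (b (l 16481968) (l 16487464)) (b (l 16492672) (l 16498032))))) (b (c (a (b (l 16466888) (l 16472664)) (b (l 16477520) (l 16483176))) (a (b (l 16503824) (l 16487792)) (a (l 16493464) (l 16498888)))) (c (a (b (l 16483816) (l 16489848)) (b (l 16488960) (l 16505352))) (a (b (l 16492872) (l 16508584)) (b (l 16503528) (l 16508624)))))) (a (b (c (c (a (b (l 16488432) (l 16495136)) (b (l 16498528) (l 16505120))) (a (b (l 16494408) (l 16500752)) (b (l 16504640) (l 16510856)))) (a (b (l 16493104) (c (l 16506472) (l 16512296))) (c (l 16503312) (l 16509456)))) (c (c (a (b (l 16501928) (l 16508744)) (b (l 16511800) (l 16518504))) (a (b (l 16507192) (l 16513672)) (b (l 16517176) (l 16523544)))) (a (b (c (l 16512552) (l 16518016))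 (c (l 16518696) (l 16523816))) (b (b (l 16513504) (l 16516408)) (b (l 16519328) (l 16522264)))))) (b (c (a (b (l 16496008) (c (l 16515104) (l 16520960))) (b (l 16511392) (l 16517552))) (a (b (l 16513960) (l 16519472)) (b (l 16524336) (l 16529712)))) (c (a (c (a (l 16522520) (l 16527424)) (l 16519800)) (b (l 16523816) (l 16530120))) (a (b (b (l 16513200) (l 16526520)) (b (l 16529376) (l 16532248))) (c (l 16535208) (l 16540824))))))), by decide +kernel⟩

def k21_A00pp_022_s3 : ∃ t, chk3 f_A00pp_022_s3 t 34 26 3 = true :=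
  ⟨(b (a (b (c (a (b (l 16476808) (l 16481176)) (a (l 16487416) (l 16493032))) (a (b (l 16514248) (l 16517752)) (b (l 16525920) (l 16529256)))) (c (a (b (l 16496192) (l 16500888)) (c (l 16505896) (l 16502600))) (a (b (l 16521432) (l 16525288)) (c (l 16509920) (l 16517376))))) (b (c (a (a (l 16498632) (l 16504232)) (l 16533576)) (a (b (l 16537536) (l 16540704)) (l 16540096))) (c (a (b (l 16507712) (l 16512104)) (b (l 16539616) (l 16543856))) (a (c (l 16521048) (l 16549616)) (b (l 16555272) (l 16558624)))))) (a (b (c (c (a (b (l 16513024) (l 16518232)) (l 16515720)) (a (b (l 16519464) (l 16524280)) (l 16522096))) (a (b (l 16529336) (b (l 16521992) (l 16524152))) (b (l 16540336) (l 16544392)))) (c (a (c (b (l 16523584) (l 16529032)) (b (l 16529256) (l 16534344))) (b (b (l 16525072) (l 16527608)) (b (l 16530168) (l 16532752)))) (a (c (c (l 16525488) (l 16528312)) (a (l 16529904) (l 16535248))) (c (b (l 16545632) (l 16550200)) (c (l 16541776) (l 16544704)))))) (b (c (a (b (l 16527136) (l 16531856)) (b (l 16548248) (l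 16552816))) (a (b (l 16551288) (l 16555176)) (b (l 16562160) (l 16565880)))) (c (c (a (b (l 16544256) (l 16549416)) (l 16546544)) (a (b (l 16550168) (l 16554952)) (l 16552368))) (a (c (b (l 16556184) (l 16560584)) (l 16564304)) (c (l 16568776) (l 16574808))))))), by decide +kernel⟩

def k22_A00pp_022_s3 : ∃ t, chk3 f_A00pp_022_s3 t 35 26 2 = true :=
  ⟨(a (b (b (c (a (b (l 16509080) (l 16493640)) (c (l 16518296) (l 16526368))) (a (l 16527968) (l 16538752))) (c (a (b (l 16499304) (l 16505088)) (b (l 16509584) (l 16515248))) (a (a (l 16513976) (l 16519240)) (a (l 16524488) (l 16529720))))) (c (c (a (b (l 16521400) (l 16534032)) (b (l 16520824) (l 16543704))) (a (b (l 16527672) (l 16539536)) (b (l 16527216) (l 16549312)))) (a (b (b (l 16524184) (l 16539912)) (b (l 16545272) (l 16550704))) (c (b (l 16533728) (l 16555024)) (b (l 16561328) (l 16550360)))))) (b (b (c (a (l 16522176) (l 16542864)) (a (l 16549440) (l 16559992))) (c (a (a (l 16520016) (l 16525048)) (b (l 16550792) (l 16556216))) (a (l 16553280) (l 16568840))))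 (a (b (c (b (l 16530976) (l 16536768)) (b (l 16565672) (l 16570624))) (a (c (l 16553720) (l 16575816)) (c (l 16558504) (l 16580736)))) (b (a (c (l 16551704) (l 16575720)) (c (l 16546064) (l 16580736))) (a (c (l 16563264) (l 16585632)) (c (l 16567992) (l 16590520))))))), by decide +kernel⟩

def k23_A00pp_022_s3 : ∃ t, chk3 f_A00pp_022_s3 t 35 26 3 = true :=
  ⟨(b (b (a (a (c (l 16544696) (l 16562008)) (c (l 16555800) (l 16573448))) (a (c (l 16566824) (l 16584824)) (c (l 16577744) (l 16596112)))) (a (c (a (b (l 16550504) (l 16554584)) (b (l 16561360) (l 16565288))) (a (c (l 16564096) (l 16571968)) (c (l 16575096) (l 16583120)))) (a (c (l 16574080) (l 16569216)) (c (l 16584736) (l 16559248))))) (a (a (b (c (c (l 16536704) (l 16564416)) (c (l 16571272) (l 16578248))) (c (b (l 16567776) (l 16572440)) (c (l 16579112) (l 16585240)))) (c (c (b (l 16568072) (l 16577256)) (b (l 16574944) (l 16583288))) (c (b (l 16581928) (l 16589424)) (b (l 16589040) (l 16595664))))) (a (b (c (b (l 16579888) (l 16583976)) (c (l 16592584)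 (l 16599840))) (a (c (l 16587848) (l 16600304)) (c (l 16592896) (l 16605496)))) (b (c (c (l 16588768) (l 16595944)) (l 16585976)) (a (c (l 16597944) (l 16610688)) (c (l 16602984) (l 16615888))))))), by decide +kernel⟩

def k24_A00pp_022_s3 : ∃ t, chk3 f_A00pp_022_s3 t 32 54 2 = true :=
  ⟨(a (c (a (b (c (l 16444984) (l 16448104)) (b (l 16457888) (l 16465496))) (b (b (l 16462136) (l 16469600)) (a (l 16447208) (l 16451584)))) (c (a (b (l 16451288) (l 16465712)) (b (l 16460528) (l 16474744))) (a (b (l 16454536) (l 16468456)) (b (l 16443064) (l 16456776))))) (c (b (a (a (b (l 16458464) (l 16465840)) (b (l 16463056) (l 16470384))) (c (b (l 16468088) (l 16475464)) (b (l 16472000) (l 16479112)))) (a (c (b (l 16473896) (l 16481424)) (b (l 16477112) (l 16484408))) (b (a (l 16482272) (l 16486840)) (a (l 16489608) (l 16494120))))) (c (b (a (b (l 16466424) (l 16473384)) (b (l 16475992) (l 16482840))) (a (b (l 16480392) (l 16487448)) (b (l 16489736) (l 16496696)))) (b (a (b (l 16470304) (l 16476992)) (b (l 16480064) (l 16486640)))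 (a (l 16471424) (b (l 16493288) (l 16500000))))))), by decide +kernel⟩

def k25_A00pp_022_s3 : ∃ t, chk3 f_A00pp_022_s3 t 33 54 2 = true :=
  ⟨(a (b (c (c (a (b (l 16477416) (l 16484688)) (b (l 16486848) (l 16494024))) (a (b (l 16481488) (l 16488496)) (b (l 16491080) (l 16497984)))) (a (c (b (l 16485656) (l 16492392)) (b (l 16489896) (l 16496360))) (c (b (l 16495400) (l 16502024)) (b (l 16499800) (l 16506136))))) (c (c (a (b (l 16491984) (l 16499304)) (b (l 16501224) (l 16508448))) (a (b (l 16495544) (l 16502632)) (b (l 16504928) (l 16511912)))) (a (c (b (l 16499184) (l 16506032)) (b (l 16502896) (l 16509504))) (c (b (l 16508704) (l 16515448)) (b (l 16512552) (l 16519048)))))) (b (c (a (b (c (l 16496376) (l 16500744)) (c (l 16503448) (l 16507536))) (b (c (l 16505960) (l 16510456)) (c (l 16512928) (l 16517136)))) (a (b (c (l 16505200) (l 16509744)) (c (l 16511704) (l 16515960))) (b (c (l 16515040) (l 16519720)) (c (l 16521432) (l 16525808))))) (b (a (c (c (l 16510544) (l 16514368)) (c (l 16518272) (l 16522256)))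 (c (c (l 16519928) (l 16523864)) (c (l 16527880) (l 16531976)))) (c (c (a (l 16517672) (l 16526952)) (a (l 16521256) (l 16530640))) (c (a (l 16524904) (l 16534392)) (a (l 16528632) (l 16538224))))))), by decide +kernel⟩

def k26_A00pp_022_s3 : ∃ t, chk3 f_A00pp_022_s3 t 17 108 2 = true :=
  ⟨(a (c (a (a (b (c (l 16515584) (l 16520200)) (c (l 16522456) (l 16526768))) (b (c (l 16525232) (l 16529952)) (c (l 16531992) (l 16536400)))) (a (a (b (l 16534848) (l 16541368)) (b (l 16539688) (l 16546152))) (a (b (l 16544528) (l 16550928)) (b (l 16549344) (l 16555696))))) (a (a (b (c (l 16524904) (l 16529696)) (b (l 16521376) (l 16524448))) (b (b (l 16525224) (l 16528192)) (b (l 16531184) (l 16534200)))) (a (a (b (l 16544608) (l 16550496)) (b (l 16549544) (l 16555360))) (a (b (l 16554464) (l 16560216)) (b (l 16559368) (l 16565056)))))) (c (a (a (a (b (l 16554152) (l 16560440)) (b (l 16558944) (l 16565176))) (c (l 16556248) (l 16561144))) (a (b (l 16565056) (l 16571072)) (b (l 16574384) (l 16580280)))) (a (a (a (b (l 16564256)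 (l 16569872)) (a (l 16560216) (l 16562632))) (c (l 16566136) (l 16571216))) (a (c (l 16575672) (l 16591344)) (c (l 16574640) (l 16600912)))))), by decide +kernel⟩

def k27_A00pp_022_s3 : ∃ t, chk3 f_A00pp_022_s3 t 17 109 2 = true :=
  ⟨(a (a (c (b (a (c (l 16529344) (l 16533384)) (c (l 16538784) (l 16542904))) (a (c (l 16536272) (l 16540048)) (c (l 16545600) (l 16549456)))) (b (a (c (l 16537496) (l 16541696)) (c (l 16547112) (l 16551392))) (a (c (l 16543896) (l 16547816)) (a (l 16542512) (l 16547272))))) (c (b (a (c (l 16548208) (l 16552408)) (b (l 16547640) (l 16550856))) (a (c (l 16554928) (l 16558848)) (b (l 16554088) (l 16557336)))) (a (a (c (l 16546904) (l 16551104)) (c (l 16551656) (l 16555896))) (a (c (l 16556400) (l 16560664)) (c (l 16561120) (l 16565416)))))) (c (b (a (a (b (l 16557048) (l 16560216)) (b (l 16566384) (l 16569488))) (a (a (l 16585336) (l 16589904)) (l 16586224))) (a (a (b (l 16563392) (l 16566576)) (b (l 16572608) (l 16575736))) (a (b (l 16581720) (l 16584792)) (a (l 16600480) (l 16604920)))))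 (a (a (a (b (l 16575576) (l 16581352)) (b (l 16580312) (l 16586032))) (a (b (l 16585040) (l 16590688)) (b (l 16589752) (l 16595328)))) (a (b (l 16596784) (l 16602256)) (c (l 16606464) (l 16611056)))))), by decide +kernel⟩

def k28_A00pp_022_s3 : ∃ t, chk3 f_A00pp_022_s3 t 16 55 4 = true :=
  ⟨(c (a (a (a (b (l 16475888) (l 16491472)) (b (l 16484240) (l 16478688))) (a (b (b (l 16488984) (l 16496568)) (b (l 16504184) (l 16511840))) (a (b (l 16499296) (l 16514400)) (b (l 16503696) (l 16518704))))) (b (b (a (a (l 16506664) (l 16515696)) (a (l 16524832) (l 16539256))) (a (a (l 16514048) (l 16522984)) (a (l 16532024) (a (l 16538840) (l 16543392))))) (a (a (b (l 16521472) (l 16528944)) (b (l 16530320) (l 16537688))) (a (a (b (l 16537008) (l 16544312)) (b (l 16541496) (l 16548752))) (a (b (l 16546000) (l 16553208)) (c (l 16553368) (l 16554824))))))) (a (a (a (b (l 16478080) (l 16493296)) (b (l 16486680) (l 16480752))) (a (b (b (l 16491744) (l 16499128)) (l 16494576)) (a (b (l 16502104) (l 16516824)) (b (l 16506584) (l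 16521208))))) (b (b (a (a (l 16509768) (l 16518944)) (a (l 16528184) (l 16542704))) (a (a (l 16516952) (l 16526024)) (a (l 16535160) (a (l 16542040) (l 16546640))))) (b (a (a (l 16524192) (l 16533160)) (a (l 16547440) (a (l 16549000) (l 16553552)))) (a (a (l 16531480) (l 16540352)) (a (a (l 16547048) (l 16551536)) (a (l 16556024) (l 16560520)))))))), by decide +kernel⟩

def k29_A00pp_022_s3 : ∃ t, chk3 f_A00pp_022_s3 t 16 55 5 = true :=
  ⟨(a (a (a (b (a (l 16479240) (l 16483696)) (a (l 16493920) (l 16498288))) (b (a (l 16467216) (l 16471736)) (a (l 16481720) (l 16486144)))) (a (b (b (l 16480272) (l 16487344)) (a (l 16495848) (l 16500328))) (c (a (b (l 16504968) (l 16519296)) (b (l 16509544) (l 16523776))) (b (b (l 16506792) (l 16513656)) (l 16513624))))) (a (c (a (a (b (l 16514136) (l 16528264)) (b (l 16518744) (l 16532776))) (b (b (l 16522248) (l 16529120)) (b (l 16536064) (l 16543072)))) (a (a (b (l 16517232) (l 16530968)) (b (l 16521912) (l 16535552))) (b (b (l 16525624) (l 16532280)) (b (l 16539024) (l 16545856)))))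 (b (c (a (b (l 16531600) (l 16538368)) (b (l 16546224) (a (l 16545312) (l 16549952)))) (a (c (l 16527024) (l 16528728)) (a (l 16534936) (l 16539640)))) (c (b (a (l 16550448) (a (l 16552072) (l 16556648))) (a (a (l 16549848) (l 16554376)) (a (l 16558904) (l 16563432)))) (a (a (l 16538840) (l 16543440)) (b (l 16547024) (l 16553632))))))), by decide +kernel⟩

def k30_A00pp_022_s3 : ∃ t, chk3 f_A00pp_022_s3 t 17 110 2 = true :=
  ⟨(b (a (c (a (a (a (a (l 16541512) (l 16543832)) (a (l 16546144) (l 16548464))) (a (a (l 16550776) (l 16553096)) (a (l 16555408) (l 16557728)))) (a (a (a (l 16560040) (l 16562344)) (a (l 16564656) (l 16566960))) (c (l 16570872) (l 16574584)))) (a (a (a (a (l 16548656) (l 16551008)) (l 16544056)) (a (l 16548760) (l 16553456))) (a (c (l 16558592) (l 16562392)) (a (l 16567472) (l 16572112))))) (c (a (a (a (l 16569104) (l 16584152)) (b (l 16578880) (l 16582040))) (a (b (l 16587880) (l 16590976)) (b (l 16596752) (l 16599792)))) (a (a (b (l 16577576) (l 16580512)) (b (l 16586792) (l 16589664)))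 (a (b (l 16595928) (l 16598736)) (l 16616840))))) (a (c (a (a (a (c (l 16547952) (l 16551240)) (c (l 16552520) (l 16555832))) (a (c (l 16557080) (l 16560432)) (c (l 16561648) (l 16565024)))) (a (c (a (l 16566208) (l 16570760)) (l 16561416)) (a (l 16566528) (l 16571072)))) (a (a (a (c (l 16554584) (l 16558000)) (l 16550448)) (c (l 16555672) (l 16559176))) (a (c (l 16564896) (l 16568448)) (c (l 16574064) (l 16577656))))) (a (a (a (c (l 16575592) (l 16582696)) (c (l 16580096) (l 16587240))) (a (c (l 16584576) (l 16591760)) (c (l 16589032) (l 16606752)))) (a (a (c (l 16603944) (l 16611240)) (b (l 16610496) (l 16613480))) (a (a (l 531057679) (l 531084047)) (a (l 531110927) (l 531137807))))))), by decide +kernel⟩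

def k31_A00pp_022_s3 : ∃ t, chk3 f_A00pp_022_s3 t 17 111 2 = true :=
  ⟨(a (a (c (c (a (a (b (l 16555024) (l 16562136)) (b (l 16559536) (l 16566608))) (a (b (l 16564056) (l 16571072)) (b (l 16568568) (l 16575544)))) (a (a (b (l 16558096) (l 16565016)) (b (l 16562640) (l 16569512))) (b (a (l 16567184) (l 16571728)) (l 16565768)))) (a (a (b (l 16552336) (l 16558960)) (b (l 16556928) (l 16563496))) (a (b (l 16561512) (l 16568024)) (b (l 16566088) (l 16572544))))) (c (b (a (a (c (l 16573080) (l 16576256)) (l 16568688)) (c (l 16573832) (l 16577048))) (a (a (l 16570992) (c (l 16584456) (l 16587440))) (c (l 16580632) (l 16583632)))) (a (a (b (l 16570656) (l 16577040)) (b (l 16575200) (l 16581536))) (a (b (l 16579736) (l 16586000)) (b (l 16584248) (l 16590456)))))) (a (a (a (b (c (l 16582136) (l 16588744)) (c (l 16588752) (l 16594888))) (b (c (l 16586592) (l 16593224)) (c (l 16593144) (l 16599304)))) (a (b (c (l 16591016) (l 16597680)) (c (l 16597512) (l 16603696))) (b (c (l 16595408) (l 16602120)) (c (l 16601856) (l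 16608072))))) (a (a (b (c (l 16599784) (l 16606544)) (c (l 16606176) (l 16612424))) (b (c (l 16604120) (l 16610936)) (c (l 16610456) (l 16616752)))) (a (c (b (l 16608424) (l 16614704)) (c (l 16616512) (l 16619880))) (c (b (l 16612696) (l 16618920)) (c (l 16620808) (l 16634696))))))), by decide +kernel⟩

def k32_A00pp_022_s3 : ∃ t, chk3 f_A00pp_022_s3 t 32 54 3 = true :=
  ⟨(a (a (b (c (a (l 16436112) (l 16441040)) (a (l 16442896) (l 16448112))) (c (a (l 16449304) (l 16454128)) (a (l 16455016) (l 16460120)))) (b (c (c (l 16446648) (l 16450312)) (c (l 16459288) (l 16468336))) (c (c (l 16459848) (l 16462976)) (c (l 16466168) (l 16469424))))) (a (b (c (c (l 16461736) (b (l 16478296) (l 16484424))) (c (l 16474840) (l 16478888))) (c (c (l 16474720) (l 16478088)) (c (l 16486760) (l 16490256)))) (b (c (c (b (l 16484216) (l 16490512)) (b (l 16488456) (l 16494472))) (c (b (l 16492776) (l 16498504)) (c (l 16498816) (l 16490472)))) (c (c (b (l 16496904) (l 16503376)) (l 16493216)) (c (a (l 16504816) (l 16509856)) (a (l 16508472)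 (l 16513600))))))), by decide +kernel⟩

def k33_A00pp_022_s3 : ∃ t, chk3 f_A00pp_022_s3 t 33 54 3 = true :=
  ⟨(a (a (b (c (c (b (l 16494232) (l 16500408)) (b (l 16498640) (l 16504536))) (c (c (l 16494368) (l 16496560)) (c (l 16498776) (l 16501016)))) (c (a (b (l 16506128) (l 16512392)) (b (l 16511064) (l 16517272))) (c (c (l 16505952) (l 16507872)) (a (l 16497744) (l 16513328))))) (b (b (c (c (l 16504288) (l 16508864)) (a (l 16513264) (l 16508016))) (c (c (l 16510336) (l 16514616)) (a (l 16508120) (l 16513280)))) (c (c (b (l 16516480) (l 16522728)) (c (l 16512016) (l 16513968))) (c (a (l 16514424) (l 16519440)) (b (l 16518232) (l 16523696)))))) (b (c (a (c (b (l 16514376) (l 16520296)) (c (l 16510272) (l 16512576))) (c (c (l 16515728) (l 16518056)) (a (l 16519040) (l 16524120)))) (a (c (a (l 16513488) (l 16518640)) (b (l 16518320) (l 16523312))) (c (a (l 16523792) (l 16528928)) (b (l 16528824) (l 16533656))))) (a (c (c (c (l 16517896) (l 16519880)) (a (l 16520408) (l 16525352))) (c (b (l 16524168) (l 16529752))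 (b (l 16528456) (l 16533768)))) (c (c (a (l 16526208) (l 16531088)) (b (l 16529912) (l 16535624))) (c (b (l 16534240) (l 16539672)) (b (l 16538648) (l 16543800))))))), by decide +kernel⟩

def k34_A00pp_022_s3 : ∃ t, chk3 f_A00pp_022_s3 t 17 54 3 = true :=
  ⟨(b (a (c (a (a (c (a (l 16524408) (l 16529416)) (a (l 16529184) (l 16534248))) (c (a (l 16534416) (l 16539400)) (a (l 16539304) (l 16544344)))) (a (a (b (l 16554736) (l 16559968)) (c (l 16559832) (l 16564864))) (a (c (l 16564784) (l 16569856)) (c (l 16569712) (l 16574824))))) (c (a (a (a (l 16534056) (l 16539176)) (a (l 16544280) (l 16549368))) (a (c (l 16555696) (l 16558264)) (l 16577528))) (a (a (b (l 16539280) (l 16543952)) (a (l 16549344) (l 16554488))) (a (a (l 16559608) (l 16554224)) (c (l 16560504) (l 16584136)))))) (c (a (a (b (l 16577216) (l 16582104)) (a (l 16587032) (l 16591944))) (a (a (l 16596840) (l 16601736)) (a (l 16606616) (l 16611480)))) (a (a (c (l 16587520) (l 16592880)) (c (l 16597496) (l 16602944))) (a (c (l 16607456) (l 16613008)) (c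 (l 16617408) (l 16623088)))))) (a (a (b (a (a (c (l 16535176) (l 16544000)) (c (l 16540112) (l 16549024))) (a (c (l 16545024) (l 16554032)) (c (l 16549936) (l 16559024)))) (a (a (c (l 16540928) (l 16549176)) (c (l 16545784) (l 16554120))) (a (c (l 16550632) (l 16559048)) (c (l 16555464) (l 16563960))))) (a (a (c (b (l 16554824) (l 16560280)) (c (l 16564176) (l 16568688))) (c (c (l 16560208) (l 16564592)) (c (l 16569064) (l 16573616)))) (a (c (c (l 16565008) (l 16569432)) (c (l 16573936) (l 16578520))) (c (c (l 16569792) (l 16574248)) (c (l 16578784) (l 16583392)))))) (c (a (a (a (b (l 16584696) (l 16589864)) (b (l 16589512) (l 16594592))) (c (l 16596920) (l 16601488))) (a (c (l 16606352) (l 16611016)) (c (l 16615744) (l 16620504)))) (a (a (a (c (l 16573120) (l 16577768)) (b (l 16599032) (l 16603464))) (c (l 16606136) (l 16610872))) (a (c (l 16615752) (l 16620568)) (c (l 16625352) (l 16630280))))))), by decide +kernel⟩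

def k35_A00pp_022_s3 : ∃ t, chk3 f_A00pp_022_s3 t 16 55 3 = true :=
  ⟨(c (a (a (a (b (a (l 16483808) (l 16467560)) (a (l 16497696) (l 16481360))) (b (a (l 16472304) (l 16477072)) (a (l 16486008) (l 16490680)))) (a (b (a (l 16487088) (l 16497120)) (a (l 16495360) (l 16510536))) (c (b (l 16502776) (l 16516256)) (b (l 16505872) (l 16518936))))) (a (b (c (a (a (l 16520392) (l 16525144)) (b (l 16529064) (l 16535512))) (c (a (l 16514720) (l 16524344)) (a (l 16516368) (l 16526056)))) (a (a (b (l 16531792) (l 16538456)) (b (l 16536512) (l 16543128))) (a (b (l 16541224) (l 16547792)) (c (l 16537200) (l 16540216))))) (b (a (a (b (l 16527552) (l 16533792)) (b (l 16532368) (l 16538536))) (a (b (l 16537176) (l 16543288)) (b (l 16541984) (l 16548032)))) (a (a (b (l 16540144) (l 16546608)) (b (l 16544832) (l 16551240))) (a (b (l 16549512) (l 16555856)) (b (l 16554192) (l 16560472))))))) (a (a (a (b (a (l 16467608) (l 16472608)) (a (l 16501648) (l 16485584))) (b (a (l 16477624) (l 16482632)) (a (l 16490496) (l 16495416)))) (a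 (b (a (l 16498128) (l 16503136)) (a (l 16500328) (l 16515720))) (c (b (l 16509024) (l 16521680)) (b (a (l 16520208) (l 16525240)) (l 16524464))))) (a (b (c (c (a (l 16518024) (l 16527792)) (a (l 16519704) (l 16529536))) (c (a (l 16521392) (l 16531296)) (a (l 16523104) (l 16533080)))) (a (a (b (l 16537728) (l 16544000)) (b (l 16542600) (l 16548824))) (a (b (l 16547448) (l 16553624)) (c (l 16543280) (l 16546408))))) (a (a (b (b (l 16534880) (l 16540656)) (b (l 16546584) (l 16542168))) (b (b (l 16539800) (l 16545504)) (b (l 16551360) (l 16557376)))) (a (b (b (l 16544712) (l 16550344)) (b (l 16556128) (l 16562072))) (b (b (l 16549616) (l 16555176)) (b (l 16560888) (l 16566752)))))))), by decide +kernel⟩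

def k36_A00pp_022_s3 : ∃ t, chk3 f_A00pp_022_s3 t 34 55 3 = true :=
  ⟨(a (a (c (a (b (b (l 16546784) (l 16552760)) (b (l 16558856) (l 16565072))) (b (b (l 16551576) (l 16557480)) (b (l 16563512) (l 16569656)))) (a (b (b (l 16554504) (l 16559984)) (b (l 16565616) (l 16571408))) (b (b (l 16559368) (l 16564776)) (b (l 16570336) (l 16576056))))) (c (a (b (b (l 16556352) (l 16562192)) (b (l 16568152) (l 16574232))) (b (b (l 16561112) (l 16566880)) (b (l 16572776) (l 16578792)))) (a (b (b (l 16564224) (l 16569552)) (b (l 16575032) (l 16580672))) (b (b (l 16569056) (l 16574304)) (b (l 16579712) (l 16585272)))))) (a (a (b (c (b (l 16565864) (l 16571560)) (b (l 16573864) (l 16579032))) (b (c (l 16577384) (l 16584360)) (c (l 16583328) (l 16589848)))) (b (c (b (l 16570592) (l 16576216)) (b (l 16578648) (l 16583736))) (b (c (l 16581968) (l 16588984)) (c (l 16587848) (l 16594392))))) (b (a (c (b (l 16575304) (l 16580856)) (b (l 16583416) (l 16588416))) (c (b (l 16579992) (l 16585472)) (b (l 16588152) (l 16593072)))) (a (b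 (c (l 16586536) (l 16593584)) (c (l 16592336) (l 16598904))) (c (b (l 16591072) (l 16596808)) (b (l 16598152) (l 16603392))))))), by decide +kernel⟩

def k37_A00pp_022_s3 : ∃ t, chk3 f_A00pp_022_s3 t 35 55 3 = true :=
  ⟨(a (a (b (a (c (c (l 16585424) (l 16589312)) (b (l 16582376) (l 16587216))) (c (c (l 16590032) (l 16593944)) (b (l 16608056) (l 16612808)))) (a (c (b (l 16595600) (l 16601256)) (b (l 16602696) (l 16607856))) (c (b (l 16600104) (l 16605688)) (b (l 16617720) (l 16622800))))) (b (a (c (c (l 16594624) (l 16598560)) (b (l 16612760) (l 16617424))) (c (c (l 16599208) (l 16592688)) (b (l 16617456) (l 16622032)))) (a (c (b (l 16604600) (l 16610112)) (b (l 16622256) (l 16627248))) (c (b (l 16598592) (l 16614520)) (b (l 16626776) (l 16631680)))))) (c (b (a (a (c (l 16593288) (l 16597288)) (b (l 16618320) (l 16623336))) (c (l 16625624) (l 16629720))) (a (a (b (l 16603064) (l 16608424)) (b (l 16628488) (l 16633776))) (a (b (l 16632928) (l 16638136)) (b (l 16637360) (l 16642480))))) (a (a (b (b (l 16622152)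 (l 16626640)) (b (l 16631296) (l 16636112))) (b (b (l 16626840) (l 16631240)) (b (l 16635808) (l 16640536)))) (b (c (l 16633896) (l 16627648)) (a (b (l 16640320) (l 16644960)) (b (l 16644824) (l 16649376))))))), by decide +kernel⟩

def k38_A00pp_022_s3 : ∃ t, chk3 f_A00pp_022_s3 t 36 26 1 = true :=
  ⟨(b (c (b (a (c (a (l 16552840) (l 16562608)) (b (l 16531424) (l 16556552))) (c (a (l 16572168) (l 16581512)) (b (l 16551288) (l 16555248)))) (a (c (a (l 16563296) (l 16572864)) (a (l 16579008) (l 16588936))) (a (c (l 16582232) (l 16598624)) (c (l 16591384) (l 16608040))))) (b (a (c (b (l 16550216) (l 16553432)) (l 16581256)) (c (l 16572248) (l 16591888))) (c (a (b (l 16577752) (l 16570760)) (c (l 16616160) (l 16582920))) (a (a (l 16570176) (l 16580864)) (l 16606736))))) (a (a (c (b (a (c (l 16550864) (l 16585712)) (c (l 16555608) (l 16590632))) (a (c (l 16572680) (l 16595368)) (c (l 16587808) (l 16600176)))) (b (c (l 16581680) (l 16596648)) (a (c (l 16608000) (l 16621080)) (c (l 16612992) (l 16626256))))) (c (b (c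 (b (l 16580848) (l 16586320)) (l 16576944)) (a (c (l 16592400) (l 16604952)) (c (l 16596944) (l 16609656)))) (b (c (l 16591776) (l 16586144)) (c (l 16599424) (l 16612960))))) (c (c (a (b (l 16592768) (b (l 16600912) (l 16606408))) (b (l 16601728) (c (l 16609208) (l 16615688)))) (a (b (l 16607400) (c (l 16613328) (l 16619912))) (b (l 16616624) (l 16604656)))) (a (c (b (l 16580608) (l 16609024)) (b (l 16596280) (l 16622880))) (b (c (l 16590096) (l 16606032)) (c (l 16618304) (l 16611448))))))), by decide +kernel⟩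

def k39_A00pp_022_s3 : ∃ t, chk3 f_A00pp_022_s3 t 72 27 1 = true :=
  ⟨(b (a (c (b (a (c (l 16584192) (l 16605320)) (c (l 16599208) (l 16610016))) (a (c (l 531131151) (l 16615608)) (c (l 16610792) (l 16620152)))) (c (a (b (l 16616344) (l 16625160)) (b (l 16621200) (l 16629840))) (a (b (l 16627752) (l 16614072)) (b (l 16632776) (l 16639872))))) (c (b (a (c (l 16603696) (l 16614664)) (c (l 16608136) (l 16619264))) (a (c (l 16615160) (l 16624664)) (b (l 531737103) (l 531697679)))) (b (a (c (l 16626024) (l 16637776)) (b (l 16613904) (l 16617560))) (a (c (l 16634504) (l 16644696)) (c (l 16639144) (l 16628512)))))) (c (a (b (a (c (b (l 16615296) (l 16621328)) (l 531472399)) (c (l 531112463) (l 531398159))) (a (c (c (l 16623600) (l 16621688)) (c (l 16625072) (l 16639000))) (c (l 531038735) (l 531306767)))) (b (a (c (l 531164175) (l 531459599)) (c (l 531216399) (l 531522319))) (a (c (l 531089679) (l 531367183)) (c (l 531141391) (l 531428879))))) (c (a (b (c (l 16634640) (l 16638848)) (a (b (l 16641768) (l 16646816)) (l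 531852815))) (b (c (l 16643560) (l 16647904)) (a (l 531923215) (l 531995151)))) (b (a (b (l 16622296) (l 16626376)) (a (l 16641760) (l 16635864))) (a (a (b (l 16649328) (l 16653784)) (l 532140303)) (b (l 16639584) (l 16654296))))))), by decide +kernel⟩

def k40_A00pp_022_s3 : ∃ t, chk3 f_A00pp_022_s3 t 73 27 1 = true :=
  ⟨(b (c (a (b (c (c (l 16611952) (l 16617528)) (c (l 16623200) (l 16628968))) (a (b (l 531795983) (l 531756559)) (b (l 531855119) (l 531815951)))) (b (a (c (l 16621184) (l 16632712)) (c (l 16625416) (l 16637056))) (a (c (l 16632248) (l 16642288)) (c (l 16636392) (l 16646528))))) (a (b (c (c (l 16634840) (l 16640816)) (l 16628992)) (a (c (l 16643720) (l 16633232)) (c (l 16648240) (l 16637888)))) (a (b (l 531942159) (l 531895055)) (b (l 532289807) (l 532176911))))) (c (a (b (a (c (l 531269647) (l 531585807)) (c (l 531323919) (l 531919119))) (a (c (l 531194127) (l 531491855)) (c (l 531247887) (l 531555855)))) (b (a (c (l 531378959) (l 531984911)) (b (l 531895567) (l 531854351))) (a (c (l 531302415)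 (l 531889423)) (c (l 531357711) (l 531955727))))) (a (b (a (c (l 16641896) (l 16640432)) (c (l 16635784) (l 16644920))) (a (c (l 532068367) (l 532387087)) (c (l 532143119) (l 16663032)))) (b (a (c (l 16640104) (l 16649352)) (l 532059151)) (a (c (l 532219151) (l 16667312)) (l 531934991)))))), by decide +kernel⟩

def k41_A00pp_022_s3 : ∃ t, chk3 f_A00pp_022_s3 t 37 26 1 = true :=
  ⟨(b (b (c (c (a (a (l 16590616) (l 16599472)) (a (l 16608056) (l 16616360))) (a (l 16582384) (l 16589216))) (a (c (l 16591304) (l 16610776)) (c (l 16608768) (l 16607552)))) (c (b (a (a (l 16564464) (l 16573248)) (c (l 16577168) (l 16594704))) (a (c (l 16586160) (l 16581680)) (a (l 16586056) (l 16594128)))) (a (c (l 16607696) (l 16615344)) (c (l 16614288) (l 16638192))))) (a (c (c (a (b (l 16610456) (l 531705615)) (b (l 16618936) (l 16608288))) (a (b (l 16625552) (l 16613384)) (b (l 16634160) (l 16621808)))) (a (b (c (l 16599224) (l 16615376)) (c (l 16606264) (l 16620584))) (b (c (l 16607984) (l 16624272)) (c (l 16614816) (l 16629272)))))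 (b (a (c (c (l 16627144) (l 16600504)) (l 532506895)) (c (c (l 16635080) (l 16608424)) (l 532780559))) (a (c (c (l 16616312) (l 16629896)) (c (l 16622968) (l 16636168))) (c (c (l 16624056) (l 16637632)) (l 532685327)))))), by decide +kernel⟩

def k42_A00pp_022_s3 : ∃ t, chk3 f_A00pp_022_s3 t 37 27 1 = true :=
  ⟨(a (a (b (c (b (a (l 531549199) (l 531875599)) (c (l 531584271) (l 531966735))) (b (c (l 16634648) (l 16647240)) (c (l 532362255) (l 16653400)))) (b (c (a (c (l 531757327) (l 16649880)) (l 531726863)) (a (l 532141327) (l 532222991))) (c (a (b (l 531873039) (l 531829263)) (l 531644175)) (a (l 532019215) (l 532103439))))) (a (b (c (b (l 531933199) (l 531862543)) (b (l 532523535) (l 532416015))) (c (b (l 531786511) (l 531705103)) (b (l 532303887) (l 532186639)))) (c (b (b (l 531990543) (l 531920655)) (b (l 531845903) (l 531765775))) (b (b (l 532331535) (l 532493839)) (b (l 532384015) (l 532269071)))))) (b (b (a (c (c (l 532126479) (l 16638584)) (c (l 16650960) (l 16642768))) (c (c (l 532228623) (l 16646136))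 (l 532587791))) (a (c (c (l 532066319) (l 532486927)) (c (l 16658336) (l 16669488))) (c (c (l 532169999) (l 532608015)) (l 532487695)))) (a (c (b (a (l 531904783) (l 531962895)) (b (l 531607055) (l 531566607))) (b (c (l 532555279) (l 16675720)) (a (l 532350223) (l 532430095)))) (c (b (c (l 532107023) (l 532529167)) (b (l 531723535) (l 531684367))) (b (l 532250127) (a (l 532508175) (l 532584207))))))), by decide +kernel⟩

def k43_A00pp_022_s3 : ∃ t, chk3 f_A00pp_022_s3 t 19 26 1 = true :=
  ⟨(a (b (a (c (b (a (l 532004623) (l 532103439)) (a (l 531937551) (l 532036623))) (a (b (l 16616264) (l 532713231)) (b (l 16615968) (l 532601359)))) (c (a (b (l 532197391) (l 532399119)) (b (l 532289807) (l 532491535))) (a (b (l 532484623) (l 532496655)) (b (l 532383503) (l 532395023))))) (a (c (a (b (l 531875087) (l 531816463)) (b (l 531974671) (l 532185359))) (a (b (l 532722703) (l 532728335)) (b (l 532609295) (l 532613135)))) (c (c (b (l 531986447) (l 532071439)) (a (l 532568335) (l 532665359))) (a (b (l 532503823) (l 532506383))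 (b (l 532401423) (l 532402703)))))) (b (c (a (b (a (l 532381711) (l 532472847)) (a (l 532314895) (l 532406031))) (b (c (l 532585231) (l 16644856)) (l 532272399))) (a (b (a (l 532283663) (l 532453647)) (a (l 532294671) (l 532195599))) (b (c (l 16650008) (l 531987215)) (a (l 532366351) (l 532269839))))) (c (a (b (a (l 532521743) (l 532344591)) (a (l 532464655) (l 532556303))) (b (l 532210959) (l 532154639))) (a (b (a (l 532300303) (l 532468751)) (a (l 532300559) (l 532468239))) (b (a (l 532370191) (l 532272911)) (a (l 532368655) (l 532270351))))))), by decide +kernel⟩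

def k44_A00pp_022_s3 : ∃ t, chk3 f_A00pp_022_s3 t 19 27 1 = true :=
  ⟨(a (a (b (a (c (b (l 531755023) (l 531689999)) (b (l 532725007) (l 532627471))) (c (b (l 532124943) (l 532060943)) (a (l 532649487) (l 532592399)))) (a (c (b (l 531620879) (c (l 532142863) (l 532566799))) (b (l 532527631) (l 532424719))) (c (b (l 531993359) (l 531921679)) (a (l 532577551) (l 532604943))))) (b (c (a (b (l 532219919) (l 532156431)) (b (l 532312847) (l 532249615))) (a (a (l 532538127) (l 532485391)) (a (l 532432655) (l 532380431)))) (a (c (b (l 532089359) (l 532018447)) (c (l 533022991) (l 532561935))) (c (b (l 532183055) (l 532112399)) (l 532280079))))) (a (c (b (a (b (l 532405263) (l 532342287)) (l 531928847)) (a (b (l 532275983) (l 532205839)) (l 531796751))) (b (a (a (l 532328463) (l 532276751)) (a (l 532225551) (l 532174607))) (a (l 532173839) (l 532203023)))) (b (c (b (l 532096015) (l 532034063)) (a (b (l 532367119) (l 532366607)) (b (l 532267791) (l 532265999)))) (c (b (l 531968527) (l 531899407)) (a (l 532099599) (l 531997199)))))),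 by decide +kernel⟩

def k45_A00pp_022_s3 : ∃ t, chk3 f_A00pp_022_s3 t 20 12 1 = true :=
  ⟨(b (a (c (b (c (a (l 16556520) (l 16654232)) (c (l 16635944) (l 16577912))) (a (a (l 532629519) (l 532840207)) (c (l 16620536) (l 16604664)))) (c (b (b (l 16589208) (l 16558896)) (a (l 16575160) (l 16576840))) (b (a (l 16560072) (l 16561816)) (a (l 16545376) (l 531964431))))) (c (b (c (c (l 16624760) (l 16652328)) (a (l 16587184) (l 16588864))) (a (c (l 16632072) (l 16606304)) (c (l 16654456) (l 532879887)))) (b (c (c (l 16564656) (l 16590688)) (a (l 16564536) (l 16568192))) (a (c (l 532552463) (l 531775503)) (c (l 532385295) (l 531590671)))))) (a (c (b (a (b (l 532552207) (l 532473103)) (c (l 532906255) (l 532663567))) (a (b (l 532396047) (l 532321551)) (c (l 532761103) (l 532664079)))) (b (a (b (a (l 16577792) (l 16578880)) (c (l 16601784) (l 16619752))) (b (c (l 16635472) (l 16610032)) (c (l 16604376) (l 16623176)))) (a (b (c (l 16612040) (l 532274703)) (b (l 531562767) (l 531570959))) (b (c (l 16635976) (l 532080911))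 (b (l 531378959) (l 531386895)))))) (c (a (b (b (l 532860431) (l 532590607)) (c (l 532931087) (l 532512783))) (b (c (l 533337359) (l 532362767)) (b (l 532176655) (l 532433423)))) (c (b (a (l 532059663) (b (l 16642384) (l 532439055))) (a (b (l 532620047) (l 532630287)) (b (l 532454159) (l 532464911)))) (b (a (b (l 16614016) (l 531862031)) (b (l 16618904) (l 531677711))) (a (b (l 531891983) (l 531918095)) (b (l 531707663) (l 531733775)))))))), by decide +kernel⟩

def k46_A00pp_022_s3 : ∃ t, chk3 f_A00pp_022_s3 t 21 12 1 = true :=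
  ⟨(b (a (c (b (c (a (l 16661480) (l 16621456)) (a (l 16591232) (l 532818191))) (c (a (l 533477135) (l 533345039)) (a (l 533000207) (l 532853775)))) (b (c (a (l 16603568) (l 532001039)) (a (l 16572744) (l 16578152))) (c (a (l 532220943) (l 532059407)) (a (l 531409679) (l 531232271))))) (c (c (b (a (l 533466127) (l 533331727)) (a (l 533347087) (l 533079823))) (b (a (l 532671247) (l 532524559)) (a (l 532708111) (l 532562703)))) (b (c (a (l 531840271) (l 531681039)) (a (l 16594864) (l 530802959))) (c (a (l 531899663) (l 531741711)) (a (l 531058191) (l 530886927)))))) (a (c (c (b (a (l 533206543) (l 533076751)) (a (l 533184527) (l 533058063))) (b (a (l 532484623) (l 532339983)) (a (b (l 533026319) (l 533022735)) (b (l 532883215) (l 532881167))))) (b (c (a (b (l 16647000) (l 532276239)) (l 532106767)) (a (b (l 16624640) (l 531497743)) (l 531305231))) (a (b (c (l 532292111) (l 531527951)) (c (l 532303119) (l 531554319))) (b (c (l 532133135) (l 531352335)) (c (l 532145167) (l 531379215)))))) (c (b (c (a (l 532947215)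 (l 532816655)) (a (l 532733455) (l 532590095))) (c (a (c (l 533645583) (l 533290767)) (c (l 533522959) (l 533161487))) (a (b (l 532742159) (l 532741647)) (b (l 532601615) (l 532603663))))) (b (c (a (l 531949071) (l 531792655)) (a (l 531132431) (l 530962447))) (a (c (b (l 531976975) (l 531990287)) (b (l 531180303) (l 531208207))) (b (c (l 531822607) (l 531011855)) (c (l 531837711) (l 530772239)))))))), by decide +kernel⟩

def k47_A00pp_022_s3 : ∃ t, chk3 f_A00pp_022_s3 t 20 13 1 = true :=
  ⟨(b (c (a (b (a (b (l 532250127) (l 532451343)) (b (l 532694543) (l 532627727))) (a (b (l 532390159) (l 532334351)) (a (l 532495631) (l 532563215)))) (b (a (c (l 532797967) (l 532488719)) (b (l 532413967) (l 532384783))) (a (b (l 532481295) (l 532694799)) (b (l 532341519) (l 532551951))))) (a (b (a (c (a (l 532756751) (l 532668175)) (b (l 532055823) (l 532074255))) (b (a (l 531980047) (l 531888911)) (a (l 531987983) (l 531896591)))) (a (b (a (l 532177167) (l 532082447)) (a (l 532173327) (l 532077583))) (b (a (l 531989263) (l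 531897103)) (a (l 531983375) (l 532158735))))) (c (b (a (b (l 532635151) (l 532632847)) (b (l 532469775) (l 532467215))) (a (b (l 532621839) (l 532601359)) (b (l 532454927) (l 532432399)))) (b (a (b (l 531940111) (l 531957263)) (b (l 531755791) (l 531772431))) (a (b (l 531967759) (l 531971599)) (b (l 531782159) (l 531784463))))))) (b (a (c (a (b (l 532276239) (l 532483343)) (a (l 532648719) (l 532729359))) (c (a (a (l 532710671) (l 532886543)) (l 531943951)) (a (a (l 532426255) (l 532324111)) (a (l 532223247) (l 532123919))))) (a (c (a (l 532653327) (l 532578319)) (c (l 532034831) (a (l 532025871) (l 531929359)))) (c (a (l 532504335) (l 532431375)) (c (l 531862031) (a (l 531834127) (l 531740431)))))) (a (a (c (b (l 532150287) (l 532082191)) (a (l 531761935) (b (l 532065807) (l 532332047)))) (c (c (l 532574735) (l 532697615)) (a (b (l 532236559) (l 532232975)) (b (l 532140047) (l 532135439))))) (a (c (b (l 532542479) (l 532498447)) (a (l 531505167) (l 531410703))) (a (c (l 532672783) (l 531317775)) (c (l 532327695)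 (l 531225871))))))), by decide +kernel⟩

def k48_A00pp_022_s3 : ∃ t, chk3 f_A00pp_022_s3 t 21 13 1 = true :=
  ⟨(b (b (a (c (a (b (l 532278799) (l 532249871)) (c (l 532740367) (a (l 532898575) (l 532829455)))) (a (b (c (l 532308495) (l 531576591)) (c (l 532306191) (l 531592975))) (b (c (l 532151311) (l 531401999)) (c (l 532149775) (l 531418639))))) (c (a (b (a (l 532318223) (l 532253711)) (a (l 532291855) (l 532228879))) (b (a (l 532189711) (l 532394255)) (a (l 532166671) (l 532104719)))) (a (b (c (l 531997967) (l 531231759)) (c (l 531997711) (l 531249167))) (b (c (l 531847439) (l 530797071)) (c (l 531849231) (l 530816015)))))) (a (c (a (b (l 532205839) (l 532144911)) (b (l 532074767) (l 532279055))) (a (b (c (l 532293391) (l 531601935)) (c (l 532268303) (l 531602703))) (b (c (l 532136463) (l 531427343)) (c (l 532109327) (l 531426319))))) (c (b (a (a (l 532248079) (l 532185615)) (b (l 532107279) (l 532078863))) (a (l 531880975) (l 532024335))) (b (a (c (l 531984655) (l 531257871)) (c (l 531837711) (l 530825487)))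 (a (c (l 531955471) (l 530987023)) (c (l 531806735) (l 530821647))))))) (b (a (c (a (b (l 532352527) (l 532294671)) (b (l 532214799) (l 531885071))) (a (b (a (l 531700751) (l 531614479)) (a (l 531688719) (l 531601423))) (b (c (l 532081423) (l 531423759)) (a (l 531515151) (l 530893583))))) (c (a (c (l 532618767) (l 532008975)) (c (l 532763663) (l 532408079))) (c (a (b (l 531925007) (l 531895311)) (l 531489295)) (a (b (l 530982671) (a (l 531289871) (l 531204111))) (b (l 530815503) (l 530809103)))))) (a (c (a (a (l 532252175) (l 532177679)) (a (l 532104207) (l 532031759))) (c (a (l 531916559) (l 531748367)) (a (a (l 531647503) (l 531554575)) (a (l 531462927) (l 531104271))))) (b (a (a (c (l 532257807) (l 531599375)) (c (l 532188687) (a (l 531536911) (l 531227151)))) (l 4)) (l 4))))), by decide +kernel⟩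

def k49_A00pp_022_s3 : ∃ t, chk3 f_A00pp_022_s3 t 22 12 1 = true :=
  ⟨(b (b (a (c (a (c (l 533203215) (l 532384015)) (c (l 533086223) (l 532253199))) (a (c (l 531527439) (l 530636047)) (b (l 530915343) (l 530951695)))) (c (a (c (l 532983055) (l 532134927)) (l 532464655)) (a (b (l 530772495) (l 530808847)) (l 530656783)))) (a (c (a (c (l 533214991) (l 532418319)) (c (l 533093903) (l 532284431))) (a (c (l 531585551) (l 530718735)) (c (l 531438607) (l 530558223)))) (c (a (c (l 532988687) (l 532164623)) (c (l 532898063) (l 532057615))) (a (b (l 530843151) (l 530874895)) (c (l 531179023) (l 530264335)))))) (a (c (b (a (c (l 532684047) (l 532446223)) (c (l 532555279) (l 532306447))) (a (c (c (l 533398031) (l 533030671)) (b (l 532460303) (l 532464911))) (b (c (l 533084175) (l 532316431)) (c (l 533079567) (l 532323343))))) (b (a (c (l 531637007) (l 530526223)) (c (l 531485711) (l 530363407))) (a (c (b (l 531669007) (l 531685903)) (b (l 530845455) (l 530607375))) (b (c (l 531514895) (l 530412303)) (c (l 531533583) (l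 530443791)))))) (c (b (a (c (l 532446479) (l 532184079)) (c (l 532892943) (l 532077327))) (a (a (c (l 532991759) (l 532221199)) (c (l 532942095) (l 532164111))) (c (l 532875279) (l 532085263)))) (c (b (a (l 531080463) (l 531224847)) (a (a (l 531148303) (l 531351567)) (b (l 531251983) (l 531266575)))) (b (a (l 530211343) (l 530337807)) (a (a (l 530310927) (l 530237711)) (b (l 530385935) (l 530414863)))))))), by decide +kernel⟩

def k50_A00pp_022_s3 : ∃ t, chk3 f_A00pp_022_s3 t 23 12 1 = true :=
  ⟨(b (a (c (b (c (l 532762383) (l 531872783)) (c (a (l 532811535) (l 532728335)) (l 531904783))) (b (a (l 530526479) (l 530399759)) (a (l 530865423) (b (l 530454287) (l 530487567))))) (c (a (b (l 532187663) (l 532074511)) (c (l 532566287) (l 531649551))) (a (b (l 530276111) (l 530349327)) (b (l 530155791) (b (l 530212879) (l 530247695)))))) (c (a (b (c (a (l 532806927) (l 532724239)) (a (l 531975183) (l 531876623))) (b (c (l 532753423) (l 531932943)) (c (l 532741647) (l 531934223)))) (b (c (a (l 532644623) (l 532568079))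 (a (l 531781391) (l 531420943))) (b (c (a (l 532633871) (l 532558095)) (a (l 531790095) (l 531698959))) (a (c (l 532622607) (l 531791887)) (l 531860751))))) (a (c (b (b (l 530767887) (l 530788879)) (b (l 530806799) (l 530821903))) (b (b (l 529846543) (l 529881615)) (b (l 529913871) (a (l 530278415) (l 530146319))))) (b (b (a (l 530397455) (l 530145807)) (a (c (l 530888463) (l 529954831)) (c (l 530780431) (a (l 529860367) (l 529798415))))) (b (a (b (l 530445839) (l 530458127)) (b (c (l 530795279) (l 529854735)) (l 530342159))) (a (a (l 530504463) (l 530445839)) (c (l 530816015) (l 529893903)))))))), by decide +kernel⟩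

def k51_A00pp_022_s3 : ∃ t, chk3 f_A00pp_022_s3 t 22 52 1 = true :=
  ⟨(a (c (c (a (b (l 533197071) (l 532904719)) (b (l 533070351) (l 532786447))) (b (a (l 532463887) (l 532325903)) (a (l 532454159) (l 532323087)))) (b (a (c (l 531698447) (l 530566671)) (c (l 531548943) (a (l 530780943) (l 530699791)))) (a (c (l 531703823) (a (l 530963471) (l 530883599))) (c (a (l 531595535) (l 531522575)) (b (l 530490639) (l 530501135)))))) (c (a (b (a (c (l 532972559) (l 532220943)) (c (l 532920335) (l 532161807))) (a (c (l 532951055) (l 532213007)) (c (l 532902415) (l 531888399)))) (c (b (l 532853519) (l 532834575)) (b (l 532082959) (a (l 532103439) (l 532051727))))) (a (b (a (c (l 531436303) (l 530620175)) (c (l 531369999) (l 530546191))) (a (c (b (l 531441167) (l 531444239)) (b (l 530636559) (l 530647055))) (a (c (l 531394831) (l 530050831)) (b (l 530957327) (l 530695951))))) (c (b (l 531009807) (a (l 531048463) (l 531256847))) (a (b (l 530475791) (a (l 530516239) (l 530481423))) (b (l 530406671) (l 529892879))))))), by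 decide +kernel⟩

def k52_A00pp_022_s3 : ∃ t, chk3 f_A00pp_022_s3 t 22 53 1 = true :=
  ⟨(b (c (c (a (a (l 532859151) (b (l 533032719) (l 533000207))) (a (a (l 532670735) (b (l 532884239) (l 532872719))) (c (l 532992783) (l 532360719)))) (a (a (l 532426767) (b (l 532312079) (l 532290319))) (a (a (b (l 532216079) (l 532212495)) (b (l 532149007) (l 532144143))) (a (b (l 532096783) (l 532091151)) (b (l 532045071) (l 4)))))) (a (a (c (l 531695375) (b (l 530933263) (l 530935055))) (b (a (l 531209487) (l 530599183)) (a (l 531206671) (c (l 531518991) (l 530743567))))) (b (a (a (c (l 531454223) (l 530661903)) (a (c (l 531398671) (l 530602767)) (l 530702351))) (a (b (c (l 531320591) (l 529974799)) (l 530923023)) (c (l 531260943) (c (l 530651919) (l 530236431))))) (a (a (c (l 531457551) (l 530672143)) (c (l 531115791) (a (l 530611471) (l 530575887)))) (a (c (l 531322639) (l 530523407)) (l 4)))))) (a (c (a (l 531904271) (l 532057615)) (a (a (l 531337743) (l 531262991)) (a (l 531189775) (l 531117839)))) (a (a (c (l 532511759)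 (l 531047439)) (a (a (c (l 532477967) (l 531003919)) (l 4)) (l 4))) (l 4)))), by decide +kernel⟩

def k53_A00pp_022_s3 : ∃ t, chk3 f_A00pp_022_s3 t 22 27 1 = true :=
  ⟨(b (a (a (c (b (l 531828751) (l 531756047)) (c (l 531341583) (b (l 530653711) (l 530645519)))) (a (b (c (l 532544527) (l 531166223)) (l 4)) (l 4))) (l 4)) (l 4)), by decide +kernel⟩

def k54_A00pp_022_s3 : ∃ t, chk3 f_A00pp_022_s3 t 23 13 1 = true :=
  ⟨(b (b (a (c (a (c (l 532759055) (l 531979279)) (c (l 532677135) (l 531881743))) (c (a (l 530896399) (l 530782223)) (b (a (l 530304783) (l 530172943)) (a (l 529791247) (l 529659919))))) (a (a (b (c (l 532224783) (l 530524175)) (l 4)) (l 4)) (l 4))) (l 4)) (l 4)), by decide +kernel⟩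

def k55_A00pp_022_s3 : ∃ t, chk3 f_A00pp_022_s3 t 16 112 2 = true :=
  ⟨(c (a (a (b (a (l 16504008) (l 16491224)) (a (l 16511824) (l 16498968))) (a (c (l 16507688) (l 16509640)) (a (c (l 16529664) (l 16531752)) (b (l 16531176) (l 16538736))))) (a (a (a (b (l 16535480) (l 16542992)) (b (l 16539808) (l 16547280))) (a (b (l 16544168) (l 16551592)) (b (l 16548544) (l 16555920)))) (a (a (a (b (l 16551840) (l 16559176)) (b (l 16554040) (l 16561352))) (a (b (l 16556248) (l 16563536)) (b (l 16558456) (l 16565720)))) (a (a (b (l 16560672) (l 16567912)) (b (l 16562888) (l 16570104))) (a (b (l 16565104) (l 16572296)) (b (l 16567320) (l 16574488))))))) (a (a (c (a (l 16510216) (l 16497752)) (a (l 16511784) (l 16499576))) (a (a (l 16510448) (l 16514840)) (c (l 16525600) (l 16527832)))) (a (a (a (b (l 16540248) (l 16547448)) (b (l 16544728) (l 16551880))) (a (b (l 16549208) (l 16556320)) (b (l 16553704) (l 16560760)))) (a (a (c (l 16549920) (l 16552520)) (c (l 16554376) (l 16557016))) (a (b (l 16556696) (l 16563608)) (b (l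 16561192) (l 16568048))))))), by decide +kernel⟩

def k56_A00pp_022_s3 : ∃ t, chk3 f_A00pp_022_s3 t 16 113 2 = true :=
  ⟨(c (a (a (b (a (l 16519688) (l 16506760)) (a (l 16527592) (l 16514600))) (a (b (l 16520200) (l 16527968)) (a (c (l 16545120) (l 16546928)) (b (l 16546352) (l 16554024))))) (c (a (a (b (l 16551656) (l 16559344)) (b (l 16560120) (l 16567720))) (a (a (b (l 16566528) (l 16574056)) (b (l 16570824) (l 16578304))) (a (b (l 16575136) (l 16582568)) (c (l 16582592) (l 16583736))))) (a (a (b (l 16553728) (l 16561280)) (b (l 16562320) (l 16569784))) (a (a (l 16562016) (b (l 16573136) (l 16580488))) (b (a (l 16577480) (l 16581832)) (l 16576456)))))) (a (a (c (a (l 16525520) (l 16512912)) (a (l 16526808) (l 16514432))) (a (a (l 16520096) (l 16534896)) (c (l 16540440) (l 16542368)))) (a (a (a (b (l 16554728) (l 16562088)) (b (l 16559112) (l 16566432))) (a (b (l 16563504) (l 16570784)) (c (l 16559920) (l 16562168)))) (a (a (b (l 16551336) (l 16558520)) (b (l 16566216) (l 16573360))) (a (b (l 16570608) (l 16577704))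 (b (l 16575000) (l 16582048))))))), by decide +kernel⟩

def k57_A00pp_022_s3 : ∃ t, chk3 f_A00pp_022_s3 t 34 112 2 = true :=
  ⟨(a (c (a (a (a (b (l 16569536) (l 16576688)) (b (l 16571752) (l 16578880))) (a (b (l 16573968) (l 16581072)) (b (l 16576192) (l 16583272)))) (a (a (b (l 16578408) (l 16585464)) (b (l 16580624) (l 16587656))) (a (b (l 16582832) (l 16589840)) (b (l 16585048) (l 16592032))))) (a (a (b (l 16565672) (l 16572480)) (b (l 16570152) (l 16576904))) (c (a (b (l 16583688) (l 16590472)) (b (l 16588144) (l 16594872))) (a (b (l 16586544) (l 16593152)) (l 16589040))))) (b (c (a (a (c (l 16586984) (l 16589752)) (a (l 16591672) (l 16593872))) (a (a (l 16596072) (l 16598264)) (a (l 16600456) (l 16602640)))) (a (a (c (l 16592584) (l 16595464)) (c (l 16597008) (l 16599896))) (a (c (l 16601416) (l 16604312)) (l 16602000)))) (c (a (a (c (l 16594024) (l 16596616)) (a (l 16598584) (l 16590272))) (a (a (l 16592448) (l 16594616)) (a (l 16596784) (l 16598944)))) (c (a (a (l 16599256) (l 16603624)) (a (l 16607976)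 (l 16612304))) (a (l 16598896) (l 16607600)))))), by decide +kernel⟩

def k58_A00pp_022_s3 : ∃ t, chk3 f_A00pp_022_s3 t 34 113 2 = true :=
  ⟨(b (c (a (a (a (a (l 16583896) (l 16586072)) (c (l 16588136) (l 16590536))) (a (c (l 16592472) (l 16594888)) (c (l 16596800) (l 16599224)))) (a (a (a (l 16590760) (l 16592920)) (a (l 16595080) (l 16597232))) (a (a (l 16599376) (l 16601520)) (a (l 16603664) (l 16605800))))) (a (a (a (l 16579384) (l 16583752)) (a (c (l 16597352) (l 16599864)) (c (l 16601696) (l 16604208)))) (a (c (a (l 16606024) (l 16610336)) (l 16605464)) (c (l 16611528) (l 16614048))))) (c (a (a (a (c (l 16591136) (l 16593392)) (c (l 16595432) (l 16597696))) (a (c (l 16599728) (l 16602000)) (c (l 16604008) (l 16606288)))) (a (a (a (l 16597864) (l 16600000)) (a (l 16602136) (l 16604264))) (a (c (l 16616808) (l 16619072)) (c (l 16621048) (l 16623304))))) (a (a (a (l 16586376) (l 16590696)) (c (a (l 16604312) (l 16608608)) (l 16603592))) (a (c (l 16609776) (l 16612144)) (c (a (l 16621384) (l 16625600)) (l 16620608)))))),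 by decide +kernel⟩

def k59_A00pp_022_s3 : ∃ t, chk3 f_A00pp_022_s3 t 35 56 2 = true :=
  ⟨(b (a (c (c (a (a (b (l 16604520) (l 16611368)) (b (l 16608856) (l 16615656))) (a (b (l 16613168) (l 16619920)) (b (l 16617456) (l 16624152)))) (a (a (b (l 16607320) (l 16613968)) (b (l 16611664) (l 16618256))) (b (l 16612896) (l 16619400)))) (b (a (c (l 16607104) (l 16604768)) (c (l 16610520) (l 16613440))) (a (c (l 16613520) (l 16616224)) (c (l 16622056) (l 16624760))))) (a (a (b (c (l 16617872) (l 16618408)) (c (l 16624408) (l 16624504))) (b (c (l 16616864) (l 16622672)) (c (l 16628584) (l 16628704)))) (a (b (c (l 16621056) (l 16626912)) (c (l 16632720) (l 16632872))) (b (c (l 16625208) (l 16631128)) (c (l 16636824) (l 16637016)))))) (a (c (b (a (c (a (l 16618280) (l 16622520)) (l 16617576)) (c (l 16623592) (l 16626000))) (a (a (c (l 16625264) (l 16627512)) (a (l 16619040) (l 16621128))) (a (a (l 16623208) (l 16625280)) (a (l 16627344) (l 16629408))))) (c (a (b (l 16620040) (a (l 16629800) (l 16633976))) (b (l 16628456)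 (a (l 16638128) (l 16642248)))) (a (b (l 16622544) (l 16628976)) (b (l 16630952) (l 16637264))))) (a (c (a (b (l 16631024) (a (l 16631456) (l 16633496))) (b (l 16635144) (a (l 16635528) (l 16637552)))) (b (c (l 16636768) (l 16639280)) (a (c (l 16646352) (l 16648656)) (l 530876431)))) (a (b (c (l 16639224) (l 530974735)) (a (l 530809871) (l 530834959))) (b (c (l 16643272) (l 16643024)) (a (l 530860559) (l 530886159))))))), by decide +kernel⟩

def k60_A00pp_022_s3 : ∃ t, chk3 f_A00pp_022_s3 t 16 57 4 = true :=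
  ⟨(a (c (a (b (a (l 16518088) (l 16531112)) (a (l 16534296) (l 16552472))) (a (b (l 16544288) (l 16560296)) (a (b (l 16560800) (l 16576720)) (b (l 16564856) (l 16580712))))) (a (b (a (l 16519088) (l 16527088)) (a (l 16535120) (l 16553496))) (a (b (l 16545704) (l 16561512)) (a (b (l 16562352) (l 16578064)) (b (l 16566496) (l 16582136)))))) (a (a (b (a (b (l 16565904) (l 16573672)) (b (l 16570064) (l 16577800))) (a (b (l 16581512) (l 16589424)) (c (l 16578280) (l 16579848)))) (b (a (c (l 16566688) (l 16568544)) (b (l 16562720) (l 16570368))) (a (c (l 16582336) (l 16583968)) (b (l 16583344) (l 16591152))))) (b (a (a (b (l 16566928) (l 16574544)) (b (c (l 16585864) (l 16587912)) (l 16583968))) (a (b (l 16580632) (l 16588160)) (b (l 16584872) (c (l 16601848) (l 16603848))))) (a (a (b (l 16587472) (l 16595248)) (b (l 16591616) (l 16599352))) (a (b (l 16595768) (l 16603456)) (a (b (l 16609368) (l 16617032)) (b (l 16611440) (l 16619088)))))))), by decide +kernel⟩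

def k61_A00pp_022_s3 : ∃ t, chk3 f_A00pp_022_s3 t 17 114 4 = true :=
  ⟨(a (a (a (a (a (b (l 16598544) (l 16605992)) (b (l 16600672) (l 16608096))) (a (b (l 16592312) (l 16599712)) (b (l 16594440) (l 16601808)))) (a (a (b (l 16596568) (l 16603912)) (b (l 16598688) (l 16606016))) (a (b (l 16600808) (l 16608120)) (b (l 16602928) (l 16610216))))) (b (a (a (b (l 16604304) (l 16607904)) (b (l 16608536) (l 16612112))) (a (b (l 16612744) (l 16616304)) (b (l 16616944) (l 16620480)))) (a (a (b (l 16611536) (l 16615176)) (b (l 16615720) (l 16619344))) (a (b (l 16619888) (l 16623488)) (b (l 16624040) (l 16627616)))))) (a (b (a (a (b (l 16621120) (l 16624632)) (b (l 16625272) (l 16628760))) (a (b (l 16629400) (l 16632864)) (b (l 16633488) (l 16636928)))) (a (a (b (l 16628168) (l 16631728)) (b (l 16632272) (l 16635808))) (a (b (l 16636344) (l 16639856)) (b (l 16640392) (l 16643880))))) (a (a (b (b (l 16637552) (l 16640968)) (b (l 16644400) (l 16647864))) (b (b (l 16641576) (l 16644968)) (b (l 16648376) (l 16651816)))) (a (b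 (c (l 16656720) (l 16658768)) (b (l 16652320) (l 16655728))) (b (a (l 16650208) (l 16652168)) (b (l 16656216) (l 16659600))))))), by decide +kernel⟩

def k62_A00pp_022_s3 : ∃ t, chk3 f_A00pp_022_s3 t 17 115 4 = true :=
  ⟨(a (a (a (a (a (b (l 16613520) (l 16621144)) (b (l 16615600) (l 16623200))) (a (b (l 16607192) (l 16614768)) (b (l 16609272) (l 16616832)))) (a (a (b (l 16611352) (l 16618888)) (b (l 16613432) (l 16620936))) (a (b (l 16615512) (l 16622992)) (b (l 16617584) (l 16625048))))) (b (a (a (b (l 16618848) (l 16622536)) (b (l 16622992) (l 16626664))) (a (b (l 16627120) (l 16630768)) (b (l 16631224) (l 16634848)))) (a (a (b (l 16626248) (l 16629992)) (b (l 16630352) (l 16634072))) (a (c (l 16645896) (l 16647656)) (a (l 16644568) (l 16646584)))))) (a (b (a (a (c (l 16649312) (l 16648504)) (a (l 16645384) (l 16647400))) (b (c (l 16649744) (l 16651544)) (a (l 16652192) (l 16656160)))) (a (a (c (c (l 16653584) (l 16654424)) (l 16655704)) (c (l 16652776) (l 16654448))) (a (c (l 16656760) (l 16658400)) (c (l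 16660704) (l 16662328))))) (a (a (b (c (l 16657480) (l 16664464)) (c (l 16664616) (l 16666224))) (b (c (l 16661400) (l 16668368)) (c (l 16668496) (l 16670080)))) (b (a (c (l 16665280) (l 16672240)) (c (l 16669112) (l 16676072))) (a (c (l 16672328) (l 16673896)) (c (l 16676112) (l 16677672))))))), by decide +kernel⟩

def k63_A00pp_022_s3 : ∃ t, chk3 f_A00pp_022_s3 t 16 57 5 = true :=
  ⟨(a (b (a (c (a (l 16541088) (l 16528344)) (a (l 16542144) (l 16529624))) (a (a (l 16535296) (l 16550016)) (b (l 16552608) (l 16560200)))) (a (c (a (l 16535960) (l 16544072)) (a (l 16557808) (l 16545152))) (a (a (l 16550824) (l 16565480)) (b (l 16567880) (l 16575640))))) (a (b (a (a (b (l 16569536) (l 16577064)) (b (l 16573840) (l 16581336))) (a (b (l 16578144) (l 16585600)) (c (l 16574696) (l 16576680)))) (a (a (b (l 16584688) (l 16592408)) (b (l 16588920) (l 16596600))) (a (c (l 16585640) (l 16576856)) (c (l 16589824) (l 16591584))))) (b (a (a (c (l 16578960) (l 16580992)) (b (l 16580592) (l 16577432))) (a (b (l 16584896) (l 16592184))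 (b (l 16589192) (l 16596432)))) (a (a (c (l 16594008) (l 16595816)) (b (l 16584864) (l 16592392))) (a (b (l 16599568) (l 16607056)) (b (l 16603776) (l 16611216))))))), by decide +kernel⟩

def k64_A00pp_022_s3 : ∃ t, chk3 f_A00pp_022_s3 t 17 114 5 = true :=
  ⟨(a (b (a (a (a (l 16593472) (c (l 16607120) (l 16609352))) (c (a (l 16611376) (l 16615616)) (l 16610488))) (c (a (a (l 16619848) (l 16624056)) (a (l 16628240) (l 16632408))) (a (l 16618928) (a (l 16630440) (l 16634592))))) (a (a (a (l 16600672) (l 16604896)) (c (l 16615400) (l 16617504))) (a (a (c (l 16626904) (l 16629000)) (c (l 16631064) (l 16633144))) (a (c (l 16635200) (l 16637264)) (a (l 16628816) (l 16630864)))))) (a (a (a (b (a (l 16626112) (l 16628168)) (a (l 16632904) (l 16634936))) (b (a (l 16630224) (l 16632272)) (a (l 16636960) (l 16638984)))) (a (b (a (l 16634320) (l 16636360)) (a (l 16641000) (l 16643008))) (b (a (l 16638384) (l 16640416)) (a (l 16645008) (l 16647000))))) (a (a (b (a (l 16642432) (l 16644440)) (a (l 16648992) (l 16650968))) (b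 (l 530831631) (l 530787343))) (a (b (l 530883855) (l 530838799)) (b (l 16665864) (l 530891791)))))), by decide +kernel⟩

def k65_A00pp_022_s3 : ∃ t, chk3 f_A00pp_022_s3 t 17 115 5 = true :=
  ⟨(a (c (a (a (b (l 16614312) (l 16621752)) (a (a (l 16623208) (l 16625272)) (b (l 16629944) (l 16637272)))) (a (a (c (l 16631992) (l 16632944)) (b (l 16638184) (l 16645408))) (a (b (l 16642264) (l 16649448)) (b (l 16646328) (l 16653456))))) (a (a (b (l 16616304) (l 16623632)) (b (l 16624632) (l 16631872))) (a (a (b (l 16636056) (l 16643224)) (b (l 16640144) (l 16647264))) (a (b (l 16644208) (l 16651272)) (b (l 16648240) (l 16655248)))))) (b (a (a (a (b (l 16639080) (l 16642552)) (b (l 16643088) (l 16646536))) (a (b (l 16647072) (l 16650496)) (b (l 16651032) (l 16654424)))) (a (a (l 530693903) (l 530743567)) (a (l 530794511) (l 530846735)))) (a (a (a (b (l 16646064) (l 16649600)) (b (l 16650016) (l 16653528))) (a (b (l 16653952) (l 16657432)) (b (l 16657848) (l 16661304)))) (a (a (a (l 16667720) (l 16669640)) (l 530700815))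 (a (l 530750991) (l 530802447)))))), by decide +kernel⟩

def k66_A00pp_022_s3 : ∃ t, chk3 f_A00pp_022_s3 t 8 112 6 = true :=
  ⟨(a (a (a (c (a (l 16513400) (l 16501432)) (a (l 16515048) (l 16503336))) (a (a (l 16509264) (l 16524352)) (c (l 16530104) (l 16532432)))) (b (a (a (c (l 16546256) (l 16548832)) (c (l 16555424) (l 16558136))) (a (a (l 16563664) (l 16557760)) (a (l 16562320) (l 16566872)))) (a (a (l 16543896) (c (l 16562256) (l 16564800))) (a (b (l 16560456) (l 16563808)) (a (l 16568904) (l 16573392)))))) (a (b (a (a (c (l 16572216) (l 16575144)) (a (l 16580440) (l 16584928))) (a (c (l 16595384) (l 16593136)) (c (l 16598976) (l 16601992)))) (a (a (a (l 16577864) (l 16582328)) (c (l 16592848) (l 16595632))) (a (c (l 16601648) (l 16604448)) (c (l 16610352) (l 16613160))))) (a (a (a (b (l 16607048) (l 16612976)) (b (l 16611408) (l 16617264))) (a (b (l 16615760) (l 16621536)) (b (l 16620088) (l 16625792)))) (a (a (b (l 16624400) (l 16630032)) (b (l 16639192) (l 16644744))) (a (b (l 16643472) (l 16648952)) (b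 (l 16647744) (l 16653144))))))), by decide +kernel⟩

def k67_A00pp_022_s3 : ∃ t, chk3 f_A00pp_022_s3 t 8 113 6 = true :=
  ⟨(a (a (a (c (a (l 16528128) (l 16516000)) (a (l 16529488) (l 16517600))) (a (a (l 16523552) (l 16528072)) (c (l 16544336) (l 16546352)))) (a (a (b (l 16550848) (l 16557904)) (a (b (l 16568120) (l 16575112)) (c (l 16564464) (l 16556312)))) (a (a (c (l 16568912) (l 16571304)) (b (l 16560648) (l 16567504))) (a (b (l 16575600) (l 16571920)) (b (l 16580040) (l 16586800)))))) (a (b (a (a (a (l 16584456) (l 16588856)) (c (l 16599360) (l 16601976))) (a (c (l 16608032) (l 16610656)) (c (l 16616616) (l 16619224)))) (a (a (a (l 16591168) (l 16595504)) (a (l 16599824) (l 16604120))) (a (c (l 16614552) (l 16617008)) (c (l 16623000) (l 16625440))))) (c (a (a (b (l 16625096) (l 16631352)) (b (l 16633504) (l 16639624))) (a (a (l 16648000) (l 16652112)) (b (l 16655328) (l 16661160)))) (a (a (a (l 16633872) (l 16638056)) (b (l 16641336) (l 16647264))) (a (b (l 16649680) (l 16655448)) (b (l 16657952) (l 16663568))))))),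 by decide +kernel⟩

def k68_A00pp_022_s3 : ∃ t, chk3 f_A00pp_022_s3 t 16 56 7 = true :=
  ⟨(a (a (b (c (a (l 16516736) (l 16526256)) (a (l 16518464) (l 16528248))) (c (a (l 16530872) (l 16540208)) (a (l 16532296) (l 16541880)))) (a (a (b (l 16513504) (l 16527168)) (b (l 16518312) (l 16531896))) (a (b (l 16533608) (l 16536608)) (b (l 16538400) (l 16551800))))) (a (b (a (a (l 16543168) (b (l 16555176) (l 16561656))) (a (b (l 16559928) (l 16566360)) (c (l 16545504) (l 16548256)))) (a (c (l 16557696) (l 16559960)) (a (a (l 16554136) (l 16556448)) (b (l 16577560) (l 16584208))))) (b (a (a (c (l 16560632) (l 16552960)) (b (l 16553040) (l 16580304))) (a (b (l 16568160) (l 16563912)) (b (l 16572768) (l 16578944)))) (a (a (c (l 16563256) (l 16565736)) (c (l 16578264) (l 16570304))) (a (b (l 16570296) (l 16576808)) (b (l 16574784) (l 16581248))))))), by decide +kernel⟩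

def k69_A00pp_022_s3 : ∃ t, chk3 f_A00pp_022_s3 t 17 56 7 = true :=
  ⟨(a (a (a (a (b (b (l 16577360) (l 16583464)) (b (l 16589720) (l 16585648))) (b (b (l 16581928) (l 16587960)) (b (l 16594144) (l 16600496)))) (a (b (b (l 16586472) (l 16592432)) (b (l 16598552) (l 16604824))) (b (b (l 16590992) (l 16596880)) (b (l 16602920) (l 16609128))))) (a (a (b (b (l 16595488) (l 16601296)) (b (l 16607264) (l 16613400))) (b (b (l 16599960) (l 16605688)) (b (l 16611584) (l 16617640)))) (a (b (b (l 16604392) (l 16610048)) (b (l 16615864) (l 16621848))) (b (b (l 16608800) (l 16614376)) (b (l 16620112) (l 16626016)))))) (a (a (a (b (b (l 16613184) (l 16618672)) (b (l 16634816) (l 16640648))) (b (b (l 16628040) (l 16633448)) (b (l 16639024) (l 16644776)))) (a (b (b (l 16632400) (l 16637728)) (b (l 16643224) (l 16648888))) (b (b (l 16636752) (l 16641992)) (b (l 16647408) (l 16652984))))) (a (b (a (b (l 16641096) (l 16646256)) (b (l 16645432) (l 16650504))) (a (b (l 16651576) (l 16657080)) (b (l 16655744) (l 16661152)))) (b (a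 (b (l 16649768) (l 16654744)) (b (l 16654088) (l 16658984))) (a (b (l 16659896) (l 16665224)) (b (l 16664048) (l 16669280))))))), by decide +kernel⟩

def k70_A00pp_022_s3 : ∃ t, chk3 f_A00pp_022_s3 t 16 57 6 = true :=
  ⟨(a (a (b (c (a (l 16543224) (l 16530936)) (a (l 16544336) (l 16553256))) (c (a (l 16558704) (l 16546264)) (a (l 16559624) (l 16568368)))) (a (a (b (l 16538240) (l 16553344)) (b (l 16542680) (l 16557704))) (a (b (l 16557608) (l 16572552)) (b (l 16562048) (l 16576920))))) (a (b (a (b (l 16565064) (l 16572336)) (a (b (l 16582208) (l 16589416)) (b (l 16586640) (l 16593808)))) (a (b (l 16579712) (l 16587200)) (c (a (l 16599568) (l 16582896)) (l 16603528)))) (b (a (a (c (l 16583072) (l 16574704)) (c (l 16587424) (l 16589584))) (a (b (l 16578848) (l 16585880)) (b (l 16593680) (l 16590184)))) (a (a (c (l 16597664) (l 16589064)) (c (l 16601936) (l 16593376))) (a (b (l 16593032) (l 16600304)) (b (l 16597296) (l 16604528))))))), by decide +kernel⟩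

def k71_A00pp_022_s3 : ∃ t, chk3 f_A00pp_022_s3 t 17 57 6 = true :=
  ⟨(b (a (a (a (a (b (l 16598000) (l 16604944)) (b (l 16602288) (l 16609192))) (a (b (l 16606552) (l 16613400)) (b (l 16610784) (l 16617584)))) (c (a (b (l 16621192) (l 16627960)) (b (l 16629520) (a (l 16639368) (l 16643440)))) (a (a (l 16629968) (l 16634120)) (a (l 16638240) (b (l 16639096) (l 16645560)))))) (c (a (a (a (b (l 16640928) (l 16647488)) (b (l 16645016) (l 16651512))) (b (l 16651120) (l 16657504))) (a (b (l 16659168) (l 16665424)) (b (l 16667128) (l 16673240)))) (a (a (b (l 16645224) (l 16651592)) (b (l 16653336) (l 16659560))) (a (b (l 16661368) (l 16667448)) (b (l 16669336) (l 16675256)))))) (a (b (a (a (a (l 16612016) (l 16616216)) (a (l 16620384) (l 16624512))) (c (a (a (l 16638064) (l 16642136)) (a (l 16646184) (l 16650192))) (a (a (l 16640120) (l 16644176)) (l 16650192)))) (a (a (a (l 16619200) (l 16623360)) (a (l 16627480) (l 16631568))) (a (c (a (l 16645128) (l 16649144)) (l 16649080)) (c (l 16655112) (l 16656992))))) (b (a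 (a (c (l 16656160) (l 16658112)) (a (l 16663024) (l 530839311))) (a (a (l 530891279) (l 530944783)) (a (l 531000335) (l 531057935)))) (a (a (c (l 16662960) (l 16664776)) (a (l 530746895) (l 530796047))) (a (a (l 530846991) (l 530899471)) (a (l 530953999) (l 531010575))))))), by decide +kernel⟩

def k72_A00pp_022_s3 : ∃ t, chk3 f_A00pp_022_s3 t 8 57 7 = true :=
  ⟨(a (a (a (a (b (l 16535576) (l 16550568)) (b (a (l 16511064) (l 16536680)) (l 16570128))) (a (a (b (l 16541328) (l 16555984)) (b (l 16545968) (l 16560536))) (a (b (l 16550600) (l 16565080)) (b (l 16555216) (l 16569616))))) (b (a (a (c (l 16571608) (l 16584080)) (c (l 16591128) (l 16593248))) (a (a (b (l 16595504) (l 16602368)) (c (l 16581304) (l 16583544))) (a (c (l 16596192) (l 16587984)) (b (l 16587856) (l 16594592))))) (a (a (b (l 16572760) (l 16580024)) (c (l 16605368) (l 16607248))) (a (b (l 16611568) (l 16618680)) (a (c (l 16599656) (l 16622656)) (c (l 16624904) (l 16626968))))))) (a (a (a (a (b (b (l 16592208) (l 16598904)) (b (l 16605728) (l 16612696)))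 (b (b (l 16596512) (l 16603168)) (b (l 16609952) (l 16616872)))) (a (b (b (l 16611272) (l 16617864)) (b (l 16614120) (l 16621000))) (b (b (l 16615496) (l 16622032)) (b (l 16628720) (l 16646040))))) (a (a (b (b (l 16619696) (l 16626160)) (b (l 16643272) (l 16650056))) (b (b (l 16623864) (l 16630256)) (b (l 16647296) (l 16654016)))) (a (b (b (l 16627992) (l 16644800)) (b (l 16651280) (l 16657936))) (b (b (l 16642576) (l 16648816)) (b (l 16655232) (l 16661808)))))) (a (a (b (a (b (l 16646640) (l 16652808)) (b (l 16650688) (l 16656776))) (a (b (l 16659144) (l 16665656)) (b (l 16663040) (l 16669472)))) (b (a (b (l 16654720) (l 16660736)) (b (l 16658744) (l 16664672))) (a (b (l 16666920) (l 16673272)) (b (l 16670776) (l 16677056))))) (a (b (a (b (l 16662752) (l 16668600)) (b (l 16666744) (l 16672504))) (a (b (l 16674624) (l 531049231)) (b (l 16678448) (l 531105295)))) (b (a (b (l 16670728) (l 16676408)) (b (l 16674696) (l 16680296))) (a (b (l 16682264) (l 531164175)) (b (l 16686064) (l 531226127)))))))), by decide +kernel⟩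

def k73_A00pp_022_s3 : ∃ t, chk3 f_A00pp_022_s3 t 16 58 4 = true :=
  ⟨(b (b (a (a (a (l 16546928) (l 16554656)) (a (l 16572992) (a (l 16589424) (l 16593408)))) (a (a (c (l 16598736) (l 16600136)) (b (l 16595032) (l 16599008))) (a (c (l 16604344) (l 16605952)) (a (l 16611240) (c (l 16624960) (l 16626656)))))) (a (a (a (l 16555168) (l 16562864)) (a (l 16581152) (b (l 16576520) (l 16580592)))) (a (a (c (l 16606840) (l 16608152)) (c (l 16604312) (l 16605744))) (a (a (l 16611056) (l 16615088)) (c (a (l 16628824) (l 16632848)) (l 16627184)))))) (b (a (a (a (l 16563464) (l 16571128)) (a (l 16589384) (b (l 16584688) (l 16588808)))) (a (a (c (l 16615024) (l 16616256)) (c (l 16612440) (l 16613792))) (a (a (l 16619096) (l 16623096)) (c (l 16633592) (l 16635104))))) (a (a (a (l 16571832) (l 16579472)) (a (l 16597696) (b (l 16592944) (l 16597104)))) (c (a (a (l 16623288) (l 16620664)) (a (l 16633792) (a (l 16644960) (l 16648912)))) (a (a (l 16624456) (l 16621936)) (a (l 16635160) (l 16643128))))))), by decide +kernel⟩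

def k74_A00pp_022_s3 : ∃ t, chk3 f_A00pp_022_s3 t 16 58 5 = true :=
  ⟨(b (a (a (b (a (l 16569376) (l 16556528)) (a (l 16577496) (l 16564600))) (a (a (l 16577176) (l 16581288)) (b (l 16583496) (l 16591448)))) (a (a (a (b (l 16600208) (l 16608112)) (c (l 16586616) (l 16609040))) (a (c (l 16601216) (l 16592240)) (c (l 16605328) (l 16606896)))) (a (a (b (l 16616848) (l 16603640)) (b (l 16600024) (l 16607752))) (a (b (l 16614640) (l 16622344)) (b (l 16618768) (l 16626432)))))) (a (a (b (a (l 16585696) (l 16572752)) (a (l 16593976) (l 16581000))) (a (b (l 16580856) (l 16589056)) (b (l 16599496) (l 16607640)))) (a (a (a (b (l 16616112) (l 16624216)) (c (l 16613152) (l 16614440))) (a (c (l 16617200) (l 16618552)) (b (l 16628400) (l 16636416)))) (a (a (b (l 16611520) (l 16619504)) (b (l 16626080) (l 16634032))) (a (b (l 16630144) (l 16638064)) (b (l 16634200) (l 16642080))))))), by decide +kernel⟩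

def k75_A00pp_022_s3 : ∃ t, chk3 f_A00pp_022_s3 t 16 58 3 = true :=
  ⟨(a (b (a (c (c (a (l 16574560) (l 16561984)) (a (l 16575328) (l 16562960))) (a (l 16576528) (l 16585440))) (a (a (c (l 16568872) (l 16571152)) (c (l 16573152) (l 16575608))) (a (c (l 16587928) (l 16601040)) (b (l 16589760) (l 16597432))))) (a (c (b (a (l 16587024) (l 16595432)) (a (l 16595224) (l 16582600))) (b (a (l 16588440) (l 16597232)) (a (l 16596544) (l 16605264)))) (a (a (c (l 16584872) (l 16607856)) (c (l 16610056) (l 16612232))) (a (c (l 16614272) (l 16616600)) (b (l 16605224) (l 16623632)))))) (b (a (c (a (c (l 16608400) (l 16609872)) (c (c (l 16605992) (l 16606784)) (l 16618472))) (a (b (l 16587424) (l 16615904)) (c (l 16620112) (l 16621776)))) (c (a (a (c (l 16612704) (l 16603896)) (c (l 16616888) (l 16629096))) (a (b (l 16607696) (l 16615200)) (b (l 16611872) (l 16619344)))) (a (b (l 16625920) (l 16633288)) (a (c (l 16635088) (l 16636912)) (c (l 16639288) (l 16641136)))))) (a (b (a (c (l 16610320) (l 16623552)) (c (a (l 16627128)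 (l 16631328)) (l 16632232))) (a (c (l 16618264) (l 16631344)) (c (l 16637104) (l 16639936)))) (b (c (a (b (l 16625176) (l 16629048)) (a (l 16622832) (l 16626936))) (a (l 16640784) (c (l 16648344) (l 16650032)))) (a (a (b (l 16621880) (l 16625776)) (c (l 16626488) (l 16650512))) (a (c (l 16630584) (l 16654680)) (c (l 16634656) (l 16658800)))))))), by decide +kernel⟩

def k76_A00pp_022_s3 : ∃ t, chk3 f_A00pp_022_s3 t 16 118 1 = true :=
  ⟨(a (b (a (a (a (l 14) (c (l 16582712) (l 16585208))) (a (c (l 16586608) (l 16589448)) (c (l 16601008) (l 16593688)))) (c (a (c (l 16606064) (l 16597304)) (c (b (l 16601272) (l 16605440)) (l 16615848))) (a (a (l 16597936) (l 16602176)) (c (l 16607456) (l 16630608))))) (a (a (l 14) (a (c (l 16594928) (l 16597512)) (c (l 16609312) (l 16601728)))) (c (c (a (a (l 16622968) (l 16626832)) (b (l 16609600) (l 16613768))) (a (l 16616008) (c (l 16634040) (l 16634984)))) (a (a (l 16605944) (l 16610160)) (c (l 16625952) (l 16638464)))))) (b (a (c (a (a (c (l 16630200) (l 16632384)) (b (l 16622720)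 (l 16626824))) (a (c (l 16627576) (l 16640464)) (c (l 16631512) (l 16644496)))) (a (c (l 16636744) (l 16639184)) (c (l 16645040) (l 16647696)))) (c (c (a (c (l 16642032) (l 16643312)) (a (c (l 16653152) (l 16654488)) (c (l 16657080) (l 16658440)))) (a (a (l 16627552) (l 16642056)) (a (l 16646056) (l 16650040)))) (a (a (b (l 16629680) (l 16654536)) (c (l 16634336) (l 16658192))) (a (c (l 16638408) (l 16662320)) (c (l 16663416) (l 16666408)))))) (a (c (a (a (c (l 16638504) (l 16640528)) (b (l 16630928) (l 16635024))) (a (c (l 16635840) (l 16648552)) (c (l 16639760) (l 16631592)))) (a (c (l 16644704) (l 16646960)) (c (c (l 16652328) (l 16653536)) (l 16655392)))) (c (c (a (c (l 16650288) (l 16651480)) (a (c (l 16661376) (l 16662616)) (c (l 16665272) (l 16666536)))) (a (a (l 16646072) (l 16650064)) (a (l 16654040) (l 16657992)))) (a (a (c (l 16659056) (l 16661648)) (c (l 16642144) (l 16665784))) (a (c (l 16667160) (l 16669888)) (c (l 16671160) (l 16673944)))))))), by decide +kernel⟩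

def k77_A00pp_022_s3 : ∃ t, chk3 f_A00pp_022_s3 t 16 119 1 = true :=
  ⟨(a (a (a (l 14) (a (l 14) (b (c (l 16617600) (l 16609688)) (l 14)))) (c (c (a (a (b (l 16631320) (l 16639696)) (c (l 16628552) (l 16639720))) (a (c (l 16632392) (l 16633128)) (b (l 16642928) (l 16651280)))) (a (a (l 16636792) (l 16640768)) (a (c (l 16623400) (l 16645144)) (b (l 16644656) (l 16652800))))) (a (a (c (l 16638128) (l 16639528)) (c (l 16642240) (l 16643776))) (a (c (l 16646344) (l 16648008)) (c (l 16653064) (l 16652224)))))) (b (a (c (a (a (b (l 16635176) (l 16639296)) (c (l 16640232) (l 16652648))) (a (c (l 16644128) (l 16656632)) (c (l 16648032) (l 16639648)))) (a (c (l 16652616) (l 16654664)) (c (c (l 16660232) (l 16661336)) (l 16663016)))) (c (c (c (a (a (l 16661880) (l 16665760)) (b (l 16659016) (l 16663152))) (a (l 16659664) (a (l 16670768) (l 16674664)))) (a (a (l 16654104) (l 16658072)) (c (l 16673880) (l 16675072)))) (a (a (c (l 16645888) (l 16669216)) (c (l 16670896) (l 16673320))) (a (c (l 16674904) (l 16677392)) (c (l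 16678880) (l 16681416)))))) (a (c (a (a (b (l 16643408) (l 16647536)) (c (l 16648560) (l 16660760))) (a (c (l 16652448) (l 16643760)) (c (l 16656336) (l 16658208)))) (a (c (l 16660520) (l 16662336)) (c (c (l 16668144) (l 16669120)) (l 16673240)))) (c (c (a (a (c (l 16670232) (l 16671176)) (c (l 16674088) (l 16675072))) (a (a (l 16666992) (l 16668928)) (c (l 16681800) (l 16682824)))) (a (c (l 16674112) (l 16675120)) (a (l 16680504) (l 16684408)))) (a (a (c (l 16674664) (l 16676768)) (c (l 16678664) (l 16680832))) (a (c (l 16682640) (l 16684864)) (c (l 16686592) (l 16688856)))))))), by decide +kernel⟩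

def k78_A00pp_022_s3 : ∃ t, chk3 f_A00pp_022_s3 t 68 58 1 = true :=
  ⟨(c (b (b (c (c (a (b (l 16618632) (l 16622520)) (a (l 16637160) (l 16641224))) (a (l 16627536) (b (l 16628528) (l 16632328)))) (a (c (l 16629288) (l 16631072)) (c (a (l 16640640) (l 16644696)) (l 16639224)))) (c (a (a (c (l 16636872) (l 16638496)) (a (l 16630216) (l 16632232))) (a (c (l 16644920) (l 16646560)) (a (l 16638264) (l 16645512)))) (a (c (l 16636936) (l 16638624)) (a (c (l 16648224) (l 16649928)) (c (l 16652240) (l 16653936)))))) (b (a (a (c (c (l 16644816) (l 16646352)) (l 16638232)) (a (c (l 16638088) (l 16651728)) (c (l 16640088) (l 16653736)))) (a (a (c (l 16642080) (l 16655728)) (c (l 16644072) (l 16657720))) (b (c (l 16645096) (l 16658776)) (c (l 16649008) (l 16662616))))) (c (a (a (c (l 16652864) (l 16654328)) (c (l 16656816) (l 16658288))) (a (a (l 16650024) (l 16657240)) (a (l 16659208) (l 16661176)))) (c (a (a (l 16655816) (l 16659784)) (b (l 16663744) (l 16657184))) (a (a (l 16657328) (l 16661320)) (l 16667248)))))) (a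 (c (a (b (b (l 16626512) (l 16633944)) (b (l 16641496) (l 16649176))) (b (b (l 16630624) (l 16638016)) (b (l 16645528) (l 16663664)))) (a (b (b (l 16619792) (l 16648000)) (b (l 16655360) (l 16662872))) (b (b (l 16623928) (l 16652096)) (b (l 16659424) (l 16666896))))) (c (b (a (b (l 16634704) (l 16642056)) (b (l 16638752) (l 16646056))) (a (b (l 16649536) (l 16667632)) (b (l 16663984) (l 16671552)))) (b (a (b (l 16648992) (l 16656144)) (b (l 16653016) (l 16660136))) (a (b (l 16663432) (l 16670872)) (b (l 16667384) (l 16674784))))))), by decide +kernel⟩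

def k79_A00pp_022_s3 : ∃ t, chk3 f_A00pp_022_s3 t 68 59 1 = true :=
  ⟨(a (b (c (c (a (a (b (l 16650216) (l 16658344)) (b (l 16652176) (l 16660288))) (a (b (l 16654144) (l 16662232)) (b (l 16656096) (l 16669424)))) (b (c (a (l 16663784) (l 16667720)) (l 16667200)) (c (l 16673712) (l 16675056)))) (a (a (b (l 530226703) (l 530190863)) (b (l 530250255) (l 530214671))) (a (b (l 530273551) (l 530238735)) (b (l 530297103) (l 530262799))))) (a (c (c (a (b (l 16666504) (l 16679952)) (b (l 16668432) (l 16681872))) (b (l 16680344) (l 16688296))) (a (b (l 530145551) (l 530090511)) (b (l 530169871) (l 530115343)))) (b (c (c (b (l 16669296) (l 16673368)) (l 16684224)) (c (l 16686728) (l 16689320))) (a (b (l 529976079) (l 530216975)) (b (l 529997327) (l 530238223)))))) (b (c (b (a (a (c (l 16663296) (l 16660896)) (c (l 16665256) (l 16662848))) (c (b (l 16660928) (l 16664936)) (l 16676256))) (a (c (b (l 16665064) (l 16669104)) (l 16680216)) (b (c (l 16668944) (l 16682120)) (c (l 16672960) (l 16686032))))) (a (a (b (l 530320399)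 (l 530286863)) (b (l 530343951) (l 530310927))) (b (c (l 16679200) (l 16682248)) (c (l 16686816) (l 16689656))))) (a (b (a (c (c (l 16679464) (l 16676632)) (l 530243855)) (b (l 529685519) (l 530064911))) (a (b (l 530018575) (l 530259727)) (b (l 530039823) (l 530281231)))) (b (b (c (a (l 530189839) (l 530208015)) (l 530316303)) (a (l 530086415) (l 529839631))) (a (b (l 530329871) (l 530302991)) (b (l 530083343) (l 530325007))))))), by decide +kernel⟩

def k80_A00pp_022_s3 : ∃ t, chk3 f_A00pp_022_s3 t 69 58 1 = true :=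
  ⟨(c (a (b (a (b (b (c (l 16633752) (l 16647768)) (c (l 16637544) (l 16651464))) (b (c (l 16641360) (l 16655192)) (c (l 16645200) (l 16658944)))) (b (b (c (l 16637808) (l 16651784)) (c (l 16641576) (l 16644968))) (b (c (l 16645368) (l 16659160)) (c (l 16649184) (l 16662896))))) (c (b (a (a (l 16655272) (l 16657248)) (b (l 16658280) (l 16662152))) (a (a (l 16663136) (l 16665096)) (b (l 16666056) (l 16669992)))) (c (a (b (l 16663848) (l 16671584)) (b (l 16667768) (l 16675472))) (b (l 16667408) (b (l 16662624) (l 16666472)))))) (b (a (b (a (c (l 16647960) (l 16646112)) (c (l 16649968) (l 16648096))) (b (c (l 16654608) (l 16652616)) (c (l 16658400) (l 16656328)))) (b (c (c (l 16652168) (l 16659040)) (b (l 16649240) (l 16652864))) (b (c (l 16658584) (l 16656520)) (c (l 16662360) (l 16660208))))) (a (b (b (c (l 16662232) (l 16660064)) (c (l 16666080) (l 16663840))) (a (b (l 530414607) (l 530398223)) (l 530157839))) (b (a (c (l 530657551) (l 16670088)) (c (l 530409487) (l 16672000))) (a (l 530178319) (l 530198799))))))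 (a (b (b (c (c (a (l 16652320) (l 16656288)) (l 16656144)) (a (l 16656992) (l 16660904))) (a (c (l 16660504) (l 16664064)) (c (l 16664416) (l 16667936)))) (a (b (c (l 16667896) (l 16671280)) (c (l 16675432) (l 16678640))) (b (c (l 16671776) (l 16675112)) (c (l 16679264) (l 16682432))))) (b (a (b (c (l 16661112) (l 16664760)) (c (l 16668288) (l 16671736))) (a (b (l 530655759) (l 530623503)) (b (l 530677775) (l 530645007)))) (a (a (b (l 530552335) (l 530528783)) (b (l 530574095) (l 530550799))) (a (b (l 530595855) (l 530572815)) (b (l 530617359) (l 530594575))))))), by decide +kernel⟩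

def k81_A00pp_022_s3 : ∃ t, chk3 f_A00pp_022_s3 t 69 59 1 = true :=
  ⟨(a (b (a (c (b (b (c (l 16664824) (l 16678168)) (c (l 16674056) (l 16682064))) (a (l 529989903) (l 530008847))) (b (c (l 16683040) (l 16686072)) (c (l 16690624) (l 16693440)))) (c (b (a (c (l 530239759) (l 16672512)) (l 530085135)) (a (l 530028047) (l 530047503))) (b (c (l 16686840) (l 16689824)) (c (l 530338319) (l 16697160))))) (a (a (b (c (l 529946895) (l 530342671)) (b (l 530105103) (l 530347023))) (b (c (l 529965839) (l 530367247)) (b (l 530127119) (l 530369295)))) (b (c (a (l 529985039) (l 530004495)) (a (l 530391823) (l 530416399))) (c (a (l 529936911) (l 529956367)) (l 530086927))))) (b (a (c (b (a (l 530104847) (l 530124815)) (a (l 530067215) (l 530087183))) (b (c (l 530414607) (l 16693512)) (c (l 530383631) (l 530597391)))) (c (b (a (l 530145295) (l 530165775)) (a (l 530107663) (l 530128143))) (b (c (l 530458383) (l 530670095)) (c (l 530428175) (l 530645007))))) (a (b (c (a (l 530024463) (l 530044431)) (c (l 530344719) (l 530561295)))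 (c (a (l 529976335) (l 529996303)) (l 530136591))) (b (c (a (l 530064655) (l 530085391)) (l 530499343)) (c (a (l 530016527) (l 530037263)) (l 530722319)))))), by decide +kernel⟩

def k82_A00pp_022_s3 : ∃ t, chk3 f_A00pp_022_s3 t 35 58 2 = true :=
  ⟨(a (a (b (c (a (b (c (l 16656168) (l 16657760)) (c (l 16663672) (l 16665168))) (b (c (l 16660136) (l 16661704)) (a (l 530510863) (l 530532367)))) (a (b (b (l 16653168) (l 16656768)) (b (l 16660400) (l 16664064))) (b (b (l 16657072) (l 16660648)) (b (l 16664248) (l 16667888))))) (a (b (a (c (l 530430479) (l 16673912)) (l 530274831)) (a (l 530219535) (l 530240783))) (b (a (l 530296335) (l 530317839)) (a (l 530262031) (l 530283791))))) (b (a (b (a (c (l 530593039) (l 16667000)) (c (l 530614799) (l 530797839))) (a (c (l 530553871) (l 530737423)) (c (l 530575887) (l 530760207)))) (b (a (c (l 530636815) (l 530820879)) (c (l 530659087) (l 530844431))) (a (c (l 530597903) (l 530782991)) (l 530443791)))) (a (b (a (l 530339855) (l 530361871)) (a (l 530305807) (l 530327823)))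 (b (a (l 530384399) (l 530406927)) (a (l 530350095) (l 530372623)))))) (a (b (a (b (a (c (l 530681615) (l 530867983)) (c (l 530704143) (l 530891791))) (a (l 530466575) (c (l 530664975) (l 16688824)))) (b (a (c (l 530726927) (l 530916111)) (l 530575631)) (a (l 530512911) (l 530536463)))) (a (b (a (l 530429711) (l 530452495)) (a (l 530395663) (l 530418447))) (b (a (l 530475791) (l 530499087)) (a (l 530441743) (l 530465039))))) (b (a (b (a (l 530599695) (l 530623759)) (a (l 530560015) (l 530584079))) (b (a (l 530647823) (l 530672399)) (a (l 530608143) (l 530632207)))) (a (b (a (l 530522639) (l 530546447)) (a (l 530488591) (l 530512399))) (b (a (l 530570511) (l 530594575)) (a (l 530536463) (l 530560527))))))), by decide +kernel⟩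

def k83_A00pp_022_s3 : ∃ t, chk3 f_A00pp_022_s3 t 35 58 3 = true :=
  ⟨(a (a (b (a (a (b (l 530700047) (l 530667023)) (b (l 530722831) (l 530689039))) (a (b (l 530745871) (l 530711567)) (b (l 530769167) (l 530734351)))) (a (b (a (l 530638607) (l 530660367)) (a (l 530616335) (l 530637839))) (b (a (l 530682383) (l 530704655)) (a (l 530659599) (l 530681615))))) (b (a (b (a (l 530792975) (l 530817295)) (a (l 530757647) (l 530781199))) (b (a (l 530841871) (l 530866703)) (a (l 530805263) (l 530829583)))) (a (b (a (l 530727439) (l 530750479)) (a (l 530703887) (l 530726415))) (b (a (l 530773775) (l 530797839)) (a (l 530749455) (l 530773007)))))) (a (b (a (b (a (l 530892303) (l 530918415)) (a (l 530854415) (l 530880015))) (b (c (l 530856719) (l 531061263)) (c (l 530817551) (l 531021839)))) (a (b (a (l 530822159) (l 530846991)) (a (l 530796815) (l 530821135))) (b (c (l 530782735) (l 530988815)) (a (l 530846223) (l 530871567))))) (b (a (b (c (l 530910223) (l 531118607)) (c (l 530870031) (l 531077647))) (b (c (l 530965775)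 (l 531179023)) (l 531029775))) (a (b (c (l 530834447) (l 531043343)) (l 530642191)) (b (l 530993679) (l 530965775)))))), by decide +kernel⟩

def k84_A00pp_022_s3 : ∃ t, chk3 f_A00pp_022_s3 t 35 59 1 = true :=
  ⟨(a (a (b (a (c (b (a (l 530186511) (l 530207759)) (a (l 530148879) (l 530170127))) (b (c (l 530502159) (l 530714895)) (l 530581263))) (c (b (a (l 530229007) (l 530250767)) (a (l 530191631) (l 530213391))) (b (l 530651919) (l 530894863)))) (a (b (c (a (l 530106127) (l 530127375)) (l 530814479)) (c (a (l 530057999) (l 530079247)) (l 530770191))) (b (c (a (l 530148879) (l 530170639)) (l 530861071)) (c (b (l 530123791) (l 530098447)) (l 530818063))))) (b (a (c (b (a (l 530272783) (l 530295055)) (a (l 530235407) (l 530257679))) (b (l 530696207) (l 530940175))) (c (b (a (l 530317583) (l 530340367)) (a (l 530280207) (l 530302991))) (b (l 531010063) (l 530985487)))) (a (b (c (a (l 530192655) (l 530214927)) (l 530907663)) (c (b (l 530167823) (l 530142735)) (l 530866191))) (b (c (b (l 530259983) (l 530237199)) (l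 530953999)) (c (b (l 530213391) (l 530188047)) (l 530913807)))))) (a (b (a (c (b (a (l 530363151) (l 530386447)) (a (l 530326287) (l 530349583))) (b (l 531057167) (l 531031823))) (c (b (a (l 530409743) (l 530433295)) (b (l 530394383) (l 530374671))) (b (l 531106319) (l 531080207)))) (a (b (c (b (l 530306319) (l 530283791)) (l 531000079)) (c (l 530247183) (l 530961423))) (b (c (b (l 530353679) (l 530331151)) (l 531047439)) (c (l 530294799) (l 531008783))))) (b (a (c (b (a (l 530456847) (l 530480911)) (b (l 530441999) (l 530422543))) (b (l 531158031) (l 531131151))) (c (b (b (l 530524943) (l 530508303)) (b (l 530490383) (l 530471183))) (b (l 531212559) (l 531184911)))) (a (b (c (l 530390799) (l 531097359)) (c (l 530343695) (l 531056911))) (c (b (b (l 530450447) (l 530428431)) (b (l 530405135) (l 530380559))) (b (l 531150351) (l 531108623))))))), by decide +kernel⟩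

def k85_A00pp_022_s3 : ∃ t, chk3 f_A00pp_022_s3 t 72 28 1 = true :=
  ⟨(b (a (c (b (a (b (c (l 16629328) (l 16635312)) (a (l 530998287) (l 531024911))) (c (b (l 16633400) (l 16639656)) (l 531213327))) (a (b (a (l 530955279) (l 530981647)) (a (l 530912015) (l 530938127))) (b (a (l 531008271) (l 531035151)) (a (l 530964495) (l 530990863))))) (b (a (c (b (l 16651992) (l 16657320)) (b (l 16658416) (l 16663216))) (b (l 531638031) (l 531578895))) (a (b (c (l 16662776) (l 16668184)) (c (l 16668384) (l 16673336))) (b (l 531520271) (l 531462159))))) (b (c (a (c (l 531011855) (l 531272975)) (c (l 531063055) (l 531333647))) (a (c (l 531811599) (l 532091407)) (c (l 531882255) (l 532172047)))) (c (a (b (l 531075599) (l 531031055)) (b (l 531398927) (l 531085583))) (a (b (l 531861263) (l 531802383)) (c (l 531769615) (l 532043279)))))) (a (c (b (a (b (a (l 530868495) (l 530894351)) (a (l 530824975) (l 530850575))) (b (a (l 530920463) (l 530946575)) (a (l 530876431) (l 530902287)))) (a (b (a (l 530781711) (l 530806799)) (a (l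 530738703) (l 530763791))) (b (a (l 530832399) (l 530857999)) (a (l 530789135) (l 530814479))))) (b (a (b (c (l 16674144) (l 16678664)) (l 531148303)) (b (l 531405327) (l 531349775))) (a (b (l 531229711) (l 531179279)) (b (l 531296015) (l 531512847))))) (c (b (a (c (b (l 531137551) (l 531095567)) (l 531081487)) (b (l 531040271) (l 530994959))) (a (b (l 530896911) (l 530852879)) (b (l 530949647) (l 530905103)))) (b (a (b (l 531744527) (l 531687951)) (b (l 531816975) (l 531759375))) (a (b (l 531633167) (l 531580687)) (b (l 531703311) (l 531649807))))))), by decide +kernel⟩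

def k86_A00pp_022_s3 : ∃ t, chk3 f_A00pp_022_s3 t 73 28 1 = true :=
  ⟨(b (c (a (b (a (c (l 531115023) (l 531395343)) (c (l 531168015) (l 531458319))) (a (c (l 531032591) (l 531297551)) (c (l 531084815) (l 531359247)))) (b (a (c (l 531221775) (l 531522575)) (c (l 531276559) (l 531856655))) (a (c (l 531137807) (l 531422479)) (c (l 531191823) (l 531486735))))) (a (b (a (c (l 531954191) (l 532254479)) (c (l 532027663) (l 532338703))) (a (c (l 531840015) (l 532123663)) (c (l 531911951) (l 532206095)))) (b (a (c (l 532102415) (l 532424463)) (l 531807503)) (a (c (l 531985423) (l 532290063)) (l 531680015))))) (c (a (b (a (b (l 531363855) (l 531049487)) (b (l 531419919) (l 531373327))) (a (b (l 531003663) (l 530958351)) (b (l 531326991) (l 531012623)))) (b (a (b (l 531477263) (l 531429903)) (c (l 531104015) (l 531384079))) (a (b (l 531382799) (l 531336207)) (b (l 531439887) (l 531392271))))) (a (b (a (b (l 531890959) (l 531832335)) (b (l 531966479) (l 531906575))) (a (b (l 531775247) (l 531720463)) (b (l 531848463) (l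 531792655)))) (b (a (b (l 532043535) (l 531982863)) (l 531554319)) (a (b (l 531923471) (l 531866383)) (b (l 532000015) (l 531941647))))))), by decide +kernel⟩

def k87_A00pp_022_s3 : ∃ t, chk3 f_A00pp_022_s3 t 36 58 1 = true :=
  ⟨(a (a (b (c (a (b (a (l 530696975) (l 530721807)) (a (l 530656783) (l 530681359))) (b (a (l 530746639) (l 530771727)) (b (l 530728207) (l 530708495)))) (a (b (l 531132175) (l 531357967)) (b (l 531464719) (l 531420943)))) (c (a (b (a (l 530618895) (l 530643215)) (a (l 530584591) (l 530609167))) (b (b (l 530689295) (l 530670863)) (b (l 530653711) (l 530637839)))) (a (b (l 531320847) (l 531292175)) (b (l 531383055) (l 531353871))))) (b (c (a (b (l 530809871) (l 530768399)) (b (l 530861327) (l 530819343))) (a (b (l 531531535) (l 531486735)) (b (l 531599631) (l 531553807)))) (c (b (a (l 530729743) (l 530780175)) (a (l 530695183) (l 530745615))) (b (a (l 531448079) (l 531514383)) (a (l 531418639) (l 531484431)))))) (c (a (b (a (b (l 530914063) (l 530871311)) (b (l 530967567) (l 530924303)))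 (b (a (l 530831631) (l 530884111)) (a (l 530796815) (l 530849039)))) (b (a (b (l 531022095) (l 530978063)) (b (l 531345935) (l 531301135))) (b (a (l 530937359) (l 531259663)) (a (l 530902031) (l 530955535))))) (b (a (a (b (l 531669007) (l 531622159)) (b (l 531739919) (l 531691791))) (b (a (l 531812367) (l 531886095)) (a (l 531762959) (l 531835407)))) (a (b (a (l 531581967) (l 531650575)) (a (l 531551503) (l 531619855))) (b (l 531084303) (l 531186959)))))), by decide +kernel⟩

def k88_A00pp_022_s3 : ∃ t, chk3 f_A00pp_022_s3 t 36 59 1 = true :=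
  ⟨(a (a (c (b (a (b (l 530565391) (l 530529807)) (b (l 530614543) (l 530579215))) (a (b (l 530488847) (l 530442767)) (b (l 530538767) (l 530492943)))) (b (a (b (l 531270159) (l 531242511)) (b (l 531332111) (l 531304207))) (a (b (l 531207183) (l 531164687)) (b (l 531269135) (l 531226127))))) (b (c (a (b (l 530664463) (l 530629391)) (b (l 530715151) (l 530680079))) (a (l 531383823) (l 531450383))) (c (a (b (l 530588943) (l 530811919)) (c (l 530499599) (l 530738447))) (a (l 531314191) (l 531381263))))) (b (a (c (a (b (l 530766607) (l 531000335)) (l 530533647)) (a (l 531517967) (l 531586831))) (c (a (l 530855183) (l 531177743)) (a (l 531656719) (l 531727887)))) (a (c (a (a (l 530657039) (l 530683407)) (a (l 530710031) (l 530736655))) (a (l 531449871) (l 531519503))) (c (a (b (l 531067151) (l 531022607)) (l 530831375)) (b (l 531376911) (l 531067919)))))), by decide +kernel⟩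

def k89_A00pp_022_s3 : ∃ t, chk3 f_A00pp_022_s3 t 37 28 1 = true :=
  ⟨(a (b (c (a (b (a (b (l 531783951) (l 531737615)) (b (l 531846159) (l 531799567))) (a (c (l 531246607) (l 531820815)) (b (l 531752207) (l 531704079)))) (b (a (l 531348751) (l 531679503)) (a (l 531253519) (l 531317007)))) (a (b (a (l 531891215) (l 531976463)) (a (l 531762191) (l 531845903))) (b (a (l 532062735) (l 532147983)) (a (l 531931663) (l 532018959))))) (c (a (b (a (c (l 531158031) (l 531448335)) (c (l 531213071) (l 531782159))) (a (c (l 531067407) (l 531344911)) (c (l 531121423) (l 531408655)))) (b (a (l 531154959) (l 531217679)) (a (c (l 531176207) (l 531742223)) (b (l 531678735) (l 531628047))))) (a (b (a (l 531634191) (l 531716111)) (b (l 531312143) (l 531251471))) (b (b (l 531875087) (l 531809039)) (b (l 531744015) (l 531680527)))))) (b (b (a (c (b (l 531524879) (l 531481359)) (a (l 532232207) (l 532314895))) (c (a (l 531862543) (l 531921423)) (a (l 532395791) (l 532474383)))) (a (c (b (l 531436047) (l 531388687)) (a (l 532106767)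 (l 532193295))) (c (a (l 531774991) (l 531835919)) (a (l 532277519) (l 532359695))))) (a (c (b (a (l 531549711) (l 531346191)) (b (l 531235855) (l 530915599))) (b (b (l 532050703) (l 531982863)) (b (l 531915023) (l 531848463)))) (b (c (b (l 531467535) (l 531418383)) (a (l 532151311) (l 532238351))) (c (b (l 531366415) (l 531312911)) (a (l 532014351) (l 532105231))))))), by decide +kernel⟩

def k90_A00pp_022_s3 : ∃ t, chk3 f_A00pp_022_s3 t 37 29 1 = true :=
  ⟨(b (a (b (a (c (b (a (l 531402511) (l 531459855)) (a (l 531356943) (l 531413519))) (b (l 531462415) (l 531409423))) (c (b (a (l 531518479) (l 531578127)) (a (l 531471119) (l 531529487))) (b (l 531619599) (l 531831567)))) (c (a (b (a (l 531314703) (l 531370511)) (a (l 531278607) (l 531333647))) (b (a (l 531427087) (l 531484431)) (a (l 531389711) (l 531446543)))) (a (b (l 531632143) (l 531599119)) (b (l 531782415) (l 531747087))))) (c (b (a (b (c (l 531244559) (l 531827983)) (a (l 531589135) (l 531650063))) (b (l 531259151) (c (l 531310607) (l 531909903))))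 (b (a (l 530901007) (c (l 531262479) (l 531857423))) (a (c (l 531111951) (l 531687439)) (c (l 531220751) (l 531815183))))) (b (a (b (l 531783951) (l 531723023)) (c (l 532014351) (l 532370703))) (b (a (l 531938063) (l 531831311)) (a (l 531899407) (l 531787791)))))) (a (a (b (c (a (l 531232527) (l 531288079)) (l 531030799)) (c (a (l 531155471) (l 531211535)) (a (l 531735823) (l 531810063)))) (b (c (a (l 531344399) (l 531401487)) (l 531448079)) (c (a (l 531268623) (l 531326479)) (l 531386383)))) (c (a (b (c (l 531063823) (l 531646479)) (c (l 530986255) (l 531575823))) (b (c (l 531441423) (l 531774479)) (l 530997007))) (a (b (l 531601423) (l 531541775)) (c (l 531553807) (l 531914255)))))), by decide +kernel⟩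

def k91_A00pp_022_s3 : ∃ t, chk3 f_A00pp_022_s3 t 19 28 1 = true :=
  ⟨(b (a (c (a (a (b (c (l 532071951) (l 532482319)) (a (l 531895567) (l 531953167))) (b (l 531846159) (l 531497743))) (a (b (l 531943695) (l 531864847)) (b (l 532306447) (l 532228111)))) (a (a (b (l 532318479) (l 532208655)) (a (l 532236815) (l 532436495))) (a (c (l 532834063) (l 532861967)) (l 532427023)))) (a (c (a (c (l 532407311) (l 532587535)) (l 531649551)) (a (l 532318223) (l 532210959))) (a (b (l 531723791) (l 531634959)) (b (c (l 532410639) (l 532266767)) (l 531917583))))) (a (c (a (a (b (b (l 531590159) (l 531544079)) (a (l 531439375) (l 531503119))) (b (a (l 531922959) (l 532245519)) (a (l 531832079) (l 531888399)))) (a (b (l 531781647) (l 531694351)) (b (l 532145423) (l 532058383)))) (a (a (b (a (l 532322063) (l 532401935)) (b (l 532002831) (l 532207119))) (b (l 532243471) (a (l 532362767) (l 532704271)))) (a (a (l 532284431) (l 532611087)) (l 532428559)))) (c (a (c (a (l 532253711) (l 532344079)) (b (l 532238095) (l 532146703)))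 (a (l 531848975) (l 531942671))) (a (b (l 532004111) (l 532280847)) (a (l 532114703) (l 532007183)))))), by decide +kernel⟩

def k92_A00pp_022_s3 : ∃ t, chk3 f_A00pp_022_s3 t 19 29 1 = true :=
  ⟨(a (b (a (c (b (a (b (l 531123215) (l 531336207)) (a (b (l 532027663) (l 531974927)) (c (l 531871503) (l 532256783)))) (a (b (c (l 531646223) (l 531994127)) (b (l 531781903) (l 531763215))) (b (a (l 531918095) (l 531452687)) (b (a (l 531877135) (l 531943183)) (a (l 531857423) (l 531645455)))))) (b (a (c (l 531912719) (l 532293903)) (a (b (l 532541199) (l 532475663)) (l 532053007))) (a (b (l 532001039) (c (l 532040975) (l 532411151))) (b (a (l 532404751) (l 532235279)) (b (b (l 532138511) (l 532122895)) (l 531823119)))))) (a (a (b (b (l 531465743) (l 531145487)) (c (b (l 531773967) (b (l 531469071) (c (l 531791631) (l 532172815)))) (b (l 532570639) (b (l 532260367) (l 531962639))))) (b (l 531493135) (b (l 531415055) (c (l 531505423) (l 532305167))))) (b (b (l 531598095) (l 531546895)) (b (l 531494671) (b (l 531454991) (l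 4)))))) (b (a (a (c (l 531190799) (l 531919887)) (c (l 531314703) (l 532085007))) (a (a (a (a (l 531239695) (l 4)) (l 4)) (l 4)) (l 4))) (l 4))) (b (b (c (a (c (l 531633679) (l 532051471)) (a (l 531984911) (l 532079631))) (a (l 532290575) (l 532069135))) (a (b (a (l 531600399) (l 4)) (l 4)) (l 4))) (l 4))), by decide +kernel⟩

def k93_A00pp_022_s3 : ∃ t, chk3 f_A00pp_022_s3 t 32 30 1 = true :=
  ⟨(b (b (a (l 14) (a (a (l 14) (a (l 14) (b (c (l 16642976) (l 16634848)) (l 14)))) (b (c (c (c (l 16646952) (l 16658048)) (l 16658992)) (c (l 16660304) (l 16661680))) (a (l 14) (b (c (l 16656072) (l 16647952)) (c (l 16660256) (l 16651896))))))) (l 14)) (l 14)), by decide +kernel⟩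

def k94_A00pp_022_s3 : ∃ t, chk3 f_A00pp_022_s3 t 33 120 1 = true :=
  ⟨(b (a (c (a (a (c (l 16653064) (l 16664944)) (c (l 16656936) (l 16647928))) (a (c (l 16660816) (l 16662368)) (c (c (l 16674776) (l 16675576)) (l 16666312)))) (c (a (a (l 16666400) (l 16670448)) (c (l 16676072) (l 16676920))) (a (l 16670000) (c (l 16677784) (l 16678664))))) (a (c (c (c (b (l 16667968) (l 16672184)) (l 16681400)) (c (l 16682256) (l 16683136))) (a (a (l 16682392) (l 529855247)) (a (l 529878287) (l 529901583)))) (a (a (a (l 529507599) (l 529517327)) (a (l 529527055) (l 529537039))) (a (a (l 529815311) (l 529825551)) (a (l 529835535) (l 529845775)))))) (a (c (c (a (a (l 16661512) (l 16665384)) (c (l 16681352) (l 16682000))) (a (c (l 16674824) (l 16675440)) (c (l 16682672) (l 16683352)))) (a (a (c (l 16674360) (l 16675632)) (c (l 16678392) (l 16679744))) (a (c (l 16682400) (l 16683824)) (b (l 16685184) (l 16689080))))) (a (a (a (a (l 529633807) (l 529642767)) (a (l 529651727) (l 529660943))) (a (a (l 529670159) (l 529679375)) (a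 (l 529688847) (l 529698319)))) (b (a (a (l 529730319) (l 529750031)) (a (l 529769999) (l 529790479))) (a (a (l 529694479) (l 529713935)) (a (l 529733903) (l 529754383))))))), by decide +kernel⟩

def k95_A00pp_022_s3 : ∃ t, chk3 f_A00pp_022_s3 t 33 121 1 = true :=
  ⟨(a (a (b (c (c (c (l 16682232) (l 16682696)) (c (l 16683168) (l 16683656))) (a (c (l 16682392) (l 16683400)) (c (l 16686408) (l 16687488)))) (a (l 14) (a (a (l 14) (l 529382671)) (a (l 529390607) (l 529398287))))) (a (a (a (b (l 529489935) (l 529406479)) (b (l 529498127) (l 529414671))) (a (b (l 529506319) (l 529422863)) (b (l 529514767) (l 529431055)))) (a (a (b (l 529523215) (l 529439503)) (b (l 529531663) (l 529447951))) (a (b (l 529540367) (l 529456399)) (b (l 529549071) (l 529465103)))))) (a (a (a (a (b (l 529558031) (l 529474063)) (b (l 529566735) (l 529482767))) (a (b (l 529575951) (l 529491727)) (b (l 529584911) (l 529500943)))) (a (a (b (l 529594127) (l 529509903)) (b (l 529603599) (l 529519375))) (a (b (l 529612815) (l 529528591)) (b (l 529622287)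 (l 529538063))))) (a (a (a (b (l 529632015) (l 529547535)) (b (l 529641743) (l 529557263))) (a (b (l 529651471) (l 529566991)) (b (l 529661199) (l 529576719)))) (a (a (b (l 529671183) (l 529586703)) (b (l 529681423) (l 529596687))) (a (b (l 529691407) (l 529606671)) (b (l 529701647) (l 529616911))))))), by decide +kernel⟩

def k96_A00pp_022_s3 : ∃ t, chk3 f_A00pp_022_s3 t 33 61 1 = true :=
  ⟨(b (a (a (l 14) (b (a (a (l 14) (b (c (l 16699448) (l 16695552)) (l 14))) (a (c (c (l 16708496) (l 16709112)) (l 529424655)) (a (a (l 529633551) (l 529637647)) (l 529375759)))) (a (l 14) (a (l 14) (c (a (l 529481487) (l 529488143)) (l 529340943)))))) (a (a (a (b (a (l 529384463) (l 529393167)) (b (l 529318415) (l 529270031))) (a (b (l 529670671) (l 529844751)) (b (l 529679631) (l 529585167)))) (a (a (b (l 529688591) (l 529594383)) (b (l 529697807) (l 529603343))) (a (b (l 529707023) (l 529612559)) (b (l 529716495) (l 529622031))))) (a (a (b (b (l 529485071) (l 529438991)) (b (l 529391631) (l 529343247))) (b (l 529481231) (l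 529386511))) (a (b (l 529500943) (l 529406223)) (b (b (l 529544207) (l 529497871)) (l 529426191)))))) (a (l 14) (b (a (a (a (l 14) (a (l 14) (l 529486863))) (a (a (l 529495823) (l 529505039)) (a (l 529514255) (l 529523471)))) (a (a (a (l 529532943) (l 529542415)) (a (l 529551887) (l 529561615))) (a (l 529307407) (l 529327375)))) (a (l 14) (a (a (a (l 529430799) (l 529440271)) (l 529186063)) (a (l 529205519) (l 529225487))))))), by decide +kernel⟩

def k97_A00pp_022_s3 : ∃ t, chk3 f_A00pp_022_s3 t 68 30 1 = true :=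
  ⟨(b (a (b (a (a (a (b (l 529856271) (l 529788175)) (b (l 529866767) (l 529798671))) (a (b (l 529877263) (l 529809423)) (b (l 529887759) (l 529819919)))) (b (a (b (l 530187535) (l 530156047)) (b (l 530209039) (l 530177551))) (a (b (l 529853711) (l 529817871)) (b (l 530144015) (l 529839631))))) (a (b (a (b (l 529736975) (l 529696783)) (b (l 529758223) (l 529717775))) (a (b (l 529654287) (l 529609999)) (b (l 529675279) (l 529630991)))) (b (a (b (l 529779727) (l 529739279)) (b (l 529801743) (l 529761295))) (a (b (l 529696783) (l 529652495)) (l 529696271))))) (b (a (b (a (b (l 530230543) (l 530199311)) (b (l 530252303) (l 530221327))) (a (b (l 530165775) (l 530130191)) (b (l 530188047) (l 530152719)))) (b (a (b (l 530274319) (l 530243343)) (b (l 530296335) (l 530265615))) (c (a (l 530017295) (l 530035727)) (l 530119695)))) (a (b (a (b (l 529824015) (l 529783567)) (b (l 529846543) (l 529806095))) (a (l 529718543) (l 530009615))) (b (a (l 529580815) (l 529872399)) (a (l 530032655) (l 530055951)))))) (a (b (a (a (b (a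 (l 529536783) (l 529547023)) (l 529446415)) (b (b (l 529585679) (l 529539087)) (l 529467151))) (b (a (b (l 529606927) (l 529560335)) (l 529605135)) (a (l 529488143) (l 529509647)))) (a (b (a (l 529347599) (l 529368079)) (a (l 529245711) (l 529266447))) (b (a (l 529389071) (l 529410319)) (a (l 529287439) (l 529308687))))) (b (a (b (a (l 529627151) (l 529649679)) (a (b (l 529555983) (l 529775375)) (l 529553679))) (b (a (l 529672463) (l 529695759)) (a (l 529576207) (l 529599247)))) (a (b (a (l 529431823) (l 529453839)) (a (l 529330447) (l 529352463))) (b (a (l 529476367) (l 529498895)) (a (l 529374991) (l 529397519))))))), by decide +kernel⟩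

def k98_A00pp_022_s3 : ∃ t, chk3 f_A00pp_022_s3 t 69 30 1 = true :=
  ⟨(b (b (b (a (a (a (a (l 530029583) (l 529772559)) (a (l 529783823) (l 529795087))) (c (b (l 529906703) (l 529878543)) (l 530565135))) (a (c (b (l 529946383) (l 529918223)) (l 530616591)) (c (b (l 529987087) (l 529958927)) (l 530666767)))) (c (a (a (b (l 529810447) (l 529779471)) (b (l 529849103) (l 529818383))) (a (b (l 529888783) (l 529858319)) (l 529914383))) (a (a (l 530441999) (l 530495503)) (a (l 530548239) (l 530599951))))) (a (a (a (b (l 529895439) (l 530079503)) (b (l 529918735) (l 530103311))) (a (b (l 529673743) (l 530127119)) (b (l 529965839) (l 530150927)))) (a (b (c (l 529809679) (l 530466831)) (c (l 529740815) (l 530369807))) (b (c (l 529850639) (l 530519823)) (c (l 529782031) (l 530423311)))))) (a (b (c (a (a (l 529535503) (l 529554959)) (b (l 529625103) (l 529542671))) (a (a (l 529811983) (l 529840655)) (b (l 529939471) (l 529827599)))) (a (b (a (l 529521935) (c (l 529692431) (l 529940239))) (a (l 529420559) (l 529444111)))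 (b (c (a (l 529712399) (l 529732623)) (l 529711631)) (a (l 529467663) (l 529491727))))) (b (a (a (b (l 530084623) (l 529988623)) (b (l 530108943) (l 530013711))) (c (a (l 529657103) (l 529678095)) (b (l 530050831) (l 529942031)))) (a (b (c (a (l 529753103) (l 529774351)) (l 529771535)) (a (l 529516303) (l 529809423))) (a (b (b (l 529694991) (l 529643791)) (l 529834511)) (a (b (l 529687567) (l 529583375)) (b (l 529967887) (l 4)))))))), by decide +kernel⟩

def k99_A00pp_022_s3 : ∃ t, chk3 f_A00pp_022_s3 t 35 30 1 = true :=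
  ⟨(b (a (a (b (a (b (c (l 530014991) (l 530715919)) (c (l 529956367) (l 530650639))) (b (c (b (l 530071823) (l 530043919)) (l 530765327)) (c (l 529999375) (l 530701327)))) (a (b (c (l 529892623) (l 530571791)) (a (l 530269199) (l 530293007))) (b (c (l 529935631) (l 530624015)) (c (l 529867535) (l 530528783))))) (b (b (a (c (b (l 530116111) (l 530087951)) (l 530814735)) (c (l 530147343) (l 530864143))) (a (c (l 530043663) (l 530752527)) (c (l 530088975) (l 530803727)))) (b (a (c (l 529979919) (l 530676751)) (c (l 530025487) (l 530729743))) (a (c (l 529912079) (l 530582031)) (l 529890319))))) (b (a (b (a (c (l 530193935) (l 530913551)) (c (l 530241807) (l 530962447))) (a (c (l 530135567) (l 530855183)) (c (l 530183183) (l 530906127)))) (b (a (c (l 530290703) (l 531010831)) (c (l 530340623) (l 531060495))) (a (c (l 530232335) (l 530956815)) (c (l 530282511) (l 531006735))))) (a (b (a (c (l 530072079) (l 530783247)) (c (l 530119695) (l 530836751))) (a (l 529941007) (l 529723919))) (b (a (c (l 530168591) (l 530890511))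 (c (l 530218767) (l 530943759))) (a (c (l 530101519) (l 530800143)) (c (l 530151439) (l 530856207))))))) (a (b (a (a (c (b (l 529749775) (l 529668623)) (l 530317839)) (c (b (l 529793295) (l 529712399)) (l 530370831))) (a (b (l 529483791) (l 529658383)) (c (l 529844495) (l 530478863)))) (b (a (a (a (l 529717263) (l 529741583)) (a (l 530034191) (l 530058767))) (a (l 529558799) (l 4))) (l 4))) (b (b (a (a (l 530121231) (l 530172943)) (a (l 530493711) (l 530546959))) (a (a (l 530296335) (l 4)) (l 4))) (l 4)))), by decide +kernel⟩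

def k100_A00pp_022_s3 : ∃ t, chk3 f_A00pp_022_s3 t 8 31 1 = true :=
  ⟨(b (b (a (b (a (l 14) (a (l 14) (a (l 14) (a (l 14) (a (a (l 14) (l 529370383)) (l 529116687)))))) (l 14)) (a (b (a (a (a (a (l 529137167) (l 529157903)) (a (a (l 529442319) (l 529453071)) (c (l 529380623) (l 529561359)))) (a (a (l 529222415) (l 529244687)) (a (c (l 529435919) (l 529639695)) (c (l 529455119) (l 529666319))))) (b (a (a (a (l 529609487) (l 529632783)) (a (l 529656847) (l 4))) (l 4)) (l 4))) (a (a (a (a (l 14) (l 529041167)) (a (l 529062671) (l 529084175))) (a (a (l 529106191) (l 529128719)) (l 4))) (l 4))) (l 4))) (a (l 14) (l 4))) (a (l 14) (l 4))), by decide +kernel⟩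

def k101_A00pp_022_s3 : ∃ t, chk3 f_A00pp_022_s3 t 9 15 1 = true :=
  ⟨(a (b (b (b (a (a (a (a (b (c (l 530391055) (l 531114511)) (c (b (l 530348559) (l 530318607)) (l 530787087))) (b (c (l 530441487) (l 531175695)) (a (c (l 530640655) (l 531101455)) (l 530895887)))) (b (c (a (l 530760975) (l 530812687)) (l 530738191)) (a (l 530403087) (l 530463247)))) (a (c (b (c (l 530497807) (l 530749967)) (l 530298383)) (b (l 531144975) (l 531356687))) (c (b (a (l 530972943) (l 531027983)) (l 530944783)) (b (l 531288335) (l 531501071))))) (b (a (a (c (a (l 531084047) (l 531140879)) (l 531436559)) (l 4)) (l 4)) (l 4))) (a (b (a (a (a (c (b (l 530286607) (l 530253583)) (l 530457871)) (c (c (l 530212623) (l 530434063)) (c (l 530663951) (l 531170575)))) (c (l 530130703) (l 531151375))) (a (c (l 530774031) (l 531291663)) (l 4))) (a (b (a (a (l 530440207) (c (a (l 530527759) (l 530285071)) (l 530994959))) (c (a (l 530323727) (l 4)) (l 530826767))) (a (a (l 530666767) (l 4)) (l 4))) (l 4))) (l 4))) (l 4)) (l 4)) (l 4)), by decide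 +kernel⟩

def k102_A00pp_022_s3 : ∃ t, chk3 f_A00pp_022_s3 t 5 7 1 = true :=
  ⟨(b (a (b (b (a (a (a (c (b (l 532010255) (l 531934735)) (b (a (l 532164111) (l 532331023)) (a (l 532165135) (l 532062223)))) (c (b (l 532460303) (l 532117263)) (b (a (l 532230671) (l 532131599)) (c (l 532422159) (l 531929615))))) (a (c (a (l 532481295) (l 532399375)) (b (a (l 532034063) (l 532206095)) (a (l 532029967) (l 531932431)))) (c (b (l 532297999) (l 532257807)) (b (c (l 532331279) (l 531790863)) (b (l 531521039) (l 4)))))) (a (a (b (c (l 532141583) (c (l 532153871) (l 531598863))) (l 4)) (l 4)) (l 4))) (a (b (a (a (c (l 532123407) (l 531845903)) (c (l 532306959) (l 531640335))) (a (c (l 532389135) (a (l 532026895) (l 4))) (l 4))) (a (a (c (l 532039439) (l 531848719)) (l 4)) (l 4))) (l 4))) (l 4)) (l 4)) (l 4)), by decide +kernel⟩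

def k103_A00pp_022_s3 : ∃ t, chk3 f_A00pp_022_s3 t 3 3 1 = true :=
  ⟨(a (b (b (a (b (b (a (a (c (l 531707407) (l 529980943)) (c (a (l 531855119) (l 531777295)) (a (l 529811727) (l 529702159)))) (a (c (l 531664143) (l 529542159)) (c (a (l 531553295) (l 531481103)) (a (l 529385743) (l 529283855))))) (a (a (c (a (l 532040719) (l 531960591)) (a (l 530115343) (l 530002703))) (c (a (l 531882767) (l 531806991)) (a (l 529892879) (l 529785615)))) (a (c (l 531697423) (l 529629711)) (l 4)))) (a (b (a (c (a (c (l 532494351) (l 531600399)) (l 531974159)) (a (c (l 530664463) (l 529688847)) (l 530070799))) (a (c (l 531898127) (l 529963279)) (l 4))) (b (b (a (a (c (c (l 532487183) (l 531609615)) (c (l 530690831) (l 529733391))) (l 4)) (l 4)) (l 4)) (l 4))) (l 4))) (l 4)) (l 4)) (l 4)) (l 4)), by decide +kernel⟩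

theorem t104_A00pp_022_s3 : ∃ t, chk3 f_A00pp_022_s3 t 34 30 1 = true := ex3_a k97_A00pp_022_s3 k98_A00pp_022_s3

theorem t105_A00pp_022_s3 : ∃ t, chk3 f_A00pp_022_s3 t 17 30 1 = true := ex3_a t104_A00pp_022_s3 k99_A00pp_022_s3

theorem t106_A00pp_022_s3 : ∃ t, chk3 f_A00pp_022_s3 t 33 60 1 = true := ex3_b k94_A00pp_022_s3 k95_A00pp_022_s3

theorem t107_A00pp_022_s3 : ∃ t, chk3 f_A00pp_022_s3 t 33 30 1 = true := ex3_b t106_A00pp_022_s3 k96_A00pp_022_s3

theorem t108_A00pp_022_s3 : ∃ t, chk3 f_A00pp_022_s3 t 16 30 1 = true := ex3_a k93_A00pp_022_s3 t107_A00pp_022_s3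

theorem t109_A00pp_022_s3 : ∃ t, chk3 f_A00pp_022_s3 t 8 30 1 = true := ex3_a t108_A00pp_022_s3 t105_A00pp_022_s3

theorem t110_A00pp_022_s3 : ∃ t, chk3 f_A00pp_022_s3 t 8 15 1 = true := ex3_b t109_A00pp_022_s3 k100_A00pp_022_s3

theorem t111_A00pp_022_s3 : ∃ t, chk3 f_A00pp_022_s3 t 4 15 1 = true := ex3_a t110_A00pp_022_s3 k101_A00pp_022_s3

theorem t112_A00pp_022_s3 : ∃ t, chk3 f_A00pp_022_s3 t 19 14 1 = true := ex3_b k91_A00pp_022_s3 k92_A00pp_022_s3

theorem t113_A00pp_022_s3 : ∃ t, chk3 f_A00pp_022_s3 t 37 14 1 = true := ex3_b k89_A00pp_022_s3 k90_A00pp_022_s3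

theorem t114_A00pp_022_s3 : ∃ t, chk3 f_A00pp_022_s3 t 36 29 1 = true := ex3_b k87_A00pp_022_s3 k88_A00pp_022_s3

theorem t115_A00pp_022_s3 : ∃ t, chk3 f_A00pp_022_s3 t 36 28 1 = true := ex3_a k85_A00pp_022_s3 k86_A00pp_022_s3

theorem t116_A00pp_022_s3 : ∃ t, chk3 f_A00pp_022_s3 t 36 14 1 = true := ex3_b t115_A00pp_022_s3 t114_A00pp_022_s3

theorem t117_A00pp_022_s3 : ∃ t, chk3 f_A00pp_022_s3 t 18 14 1 = true := ex3_a t116_A00pp_022_s3 t113_A00pp_022_s3

theorem t118_A00pp_022_s3 : ∃ t, chk3 f_A00pp_022_s3 t 9 14 1 = true := ex3_a t117_A00pp_022_s3 t112_A00pp_022_s3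

theorem t119_A00pp_022_s3 : ∃ t, chk3 f_A00pp_022_s3 t 35 58 1 = true := ex3_c k82_A00pp_022_s3 k83_A00pp_022_s3

theorem t120_A00pp_022_s3 : ∃ t, chk3 f_A00pp_022_s3 t 35 29 1 = true := ex3_b t119_A00pp_022_s3 k84_A00pp_022_s3

theorem t121_A00pp_022_s3 : ∃ t, chk3 f_A00pp_022_s3 t 69 29 1 = true := ex3_b k80_A00pp_022_s3 k81_A00pp_022_s3

theorem t122_A00pp_022_s3 : ∃ t, chk3 f_A00pp_022_s3 t 68 29 1 = true := ex3_b k78_A00pp_022_s3 k79_A00pp_022_s3

theorem t123_A00pp_022_s3 : ∃ t, chk3 f_A00pp_022_s3 t 34 29 1 = true := ex3_a t122_A00pp_022_s3 t121_A00pp_022_s3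

theorem t124_A00pp_022_s3 : ∃ t, chk3 f_A00pp_022_s3 t 17 29 1 = true := ex3_a t123_A00pp_022_s3 t120_A00pp_022_s3

theorem t125_A00pp_022_s3 : ∃ t, chk3 f_A00pp_022_s3 t 16 59 1 = true := ex3_b k76_A00pp_022_s3 k77_A00pp_022_s3

theorem t126_A00pp_022_s3 : ∃ t, chk3 f_A00pp_022_s3 t 16 58 2 = true := ex3_c k73_A00pp_022_s3 k74_A00pp_022_s3

theorem t127_A00pp_022_s3 : ∃ t, chk3 f_A00pp_022_s3 t 16 58 1 = true := ex3_c t126_A00pp_022_s3 k75_A00pp_022_s3

theorem t128_A00pp_022_s3 : ∃ t, chk3 f_A00pp_022_s3 t 16 29 1 = true := ex3_b t127_A00pp_022_s3 t125_A00pp_022_s3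

theorem t129_A00pp_022_s3 : ∃ t, chk3 f_A00pp_022_s3 t 8 29 1 = true := ex3_a t128_A00pp_022_s3 t124_A00pp_022_s3

theorem t130_A00pp_022_s3 : ∃ t, chk3 f_A00pp_022_s3 t 8 57 6 = true := ex3_a k70_A00pp_022_s3 k71_A00pp_022_s3

theorem t131_A00pp_022_s3 : ∃ t, chk3 f_A00pp_022_s3 t 8 57 3 = true := ex3_c t130_A00pp_022_s3 k72_A00pp_022_s3

theorem t132_A00pp_022_s3 : ∃ t, chk3 f_A00pp_022_s3 t 8 56 7 = true := ex3_a k68_A00pp_022_s3 k69_A00pp_022_s3

theorem t133_A00pp_022_s3 : ∃ t, chk3 f_A00pp_022_s3 t 8 56 6 = true := ex3_b k66_A00pp_022_s3 k67_A00pp_022_s3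

theorem t134_A00pp_022_s3 : ∃ t, chk3 f_A00pp_022_s3 t 8 56 3 = true := ex3_c t133_A00pp_022_s3 t132_A00pp_022_s3

theorem t135_A00pp_022_s3 : ∃ t, chk3 f_A00pp_022_s3 t 8 28 3 = true := ex3_b t134_A00pp_022_s3 t131_A00pp_022_s3

theorem t136_A00pp_022_s3 : ∃ t, chk3 f_A00pp_022_s3 t 17 57 5 = true := ex3_b k64_A00pp_022_s3 k65_A00pp_022_s3

theorem t137_A00pp_022_s3 : ∃ t, chk3 f_A00pp_022_s3 t 8 57 5 = true := ex3_a k63_A00pp_022_s3 t136_A00pp_022_s3

theorem t138_A00pp_022_s3 : ∃ t, chk3 f_A00pp_022_s3 t 17 57 4 = true := ex3_b k61_A00pp_022_s3 k62_A00pp_022_s3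

theorem t139_A00pp_022_s3 : ∃ t, chk3 f_A00pp_022_s3 t 8 57 4 = true := ex3_a k60_A00pp_022_s3 t138_A00pp_022_s3

theorem t140_A00pp_022_s3 : ∃ t, chk3 f_A00pp_022_s3 t 8 57 2 = true := ex3_c t139_A00pp_022_s3 t137_A00pp_022_s3

theorem t141_A00pp_022_s3 : ∃ t, chk3 f_A00pp_022_s3 t 34 56 2 = true := ex3_b k57_A00pp_022_s3 k58_A00pp_022_s3

theorem t142_A00pp_022_s3 : ∃ t, chk3 f_A00pp_022_s3 t 17 56 2 = true := ex3_a t141_A00pp_022_s3 k59_A00pp_022_s3

theorem t143_A00pp_022_s3 : ∃ t, chk3 f_A00pp_022_s3 t 16 56 2 = true := ex3_b k55_A00pp_022_s3 k56_A00pp_022_s3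

theorem t144_A00pp_022_s3 : ∃ t, chk3 f_A00pp_022_s3 t 8 56 2 = true := ex3_a t143_A00pp_022_s3 t142_A00pp_022_s3

theorem t145_A00pp_022_s3 : ∃ t, chk3 f_A00pp_022_s3 t 8 28 2 = true := ex3_b t144_A00pp_022_s3 t140_A00pp_022_s3

theorem t146_A00pp_022_s3 : ∃ t, chk3 f_A00pp_022_s3 t 8 28 1 = true := ex3_c t145_A00pp_022_s3 t135_A00pp_022_s3

theorem t147_A00pp_022_s3 : ∃ t, chk3 f_A00pp_022_s3 t 8 14 1 = true := ex3_b t146_A00pp_022_s3 t129_A00pp_022_s3

theorem t148_A00pp_022_s3 : ∃ t, chk3 f_A00pp_022_s3 t 4 14 1 = true := ex3_a t147_A00pp_022_s3 t118_A00pp_022_s3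

theorem t149_A00pp_022_s3 : ∃ t, chk3 f_A00pp_022_s3 t 4 7 1 = true := ex3_b t148_A00pp_022_s3 t111_A00pp_022_s3

theorem t150_A00pp_022_s3 : ∃ t, chk3 f_A00pp_022_s3 t 2 7 1 = true := ex3_a t149_A00pp_022_s3 k102_A00pp_022_s3

theorem t151_A00pp_022_s3 : ∃ t, chk3 f_A00pp_022_s3 t 22 26 1 = true := ex3_b k51_A00pp_022_s3 k52_A00pp_022_s3

theorem t152_A00pp_022_s3 : ∃ t, chk3 f_A00pp_022_s3 t 22 13 1 = true := ex3_b t151_A00pp_022_s3 k53_A00pp_022_s3

theorem t153_A00pp_022_s3 : ∃ t, chk3 f_A00pp_022_s3 t 11 13 1 = true := ex3_a t152_A00pp_022_s3 k54_A00pp_022_s3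

theorem t154_A00pp_022_s3 : ∃ t, chk3 f_A00pp_022_s3 t 11 12 1 = true := ex3_a k49_A00pp_022_s3 k50_A00pp_022_s3

theorem t155_A00pp_022_s3 : ∃ t, chk3 f_A00pp_022_s3 t 11 6 1 = true := ex3_b t154_A00pp_022_s3 t153_A00pp_022_s3

theorem t156_A00pp_022_s3 : ∃ t, chk3 f_A00pp_022_s3 t 10 13 1 = true := ex3_a k47_A00pp_022_s3 k48_A00pp_022_s3

theorem t157_A00pp_022_s3 : ∃ t, chk3 f_A00pp_022_s3 t 10 12 1 = true := ex3_a k45_A00pp_022_s3 k46_A00pp_022_s3

theorem t158_A00pp_022_s3 : ∃ t, chk3 f_A00pp_022_s3 t 10 6 1 = true := ex3_b t157_A00pp_022_s3 t156_A00pp_022_s3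

theorem t159_A00pp_022_s3 : ∃ t, chk3 f_A00pp_022_s3 t 5 6 1 = true := ex3_a t158_A00pp_022_s3 t155_A00pp_022_s3

theorem t160_A00pp_022_s3 : ∃ t, chk3 f_A00pp_022_s3 t 19 13 1 = true := ex3_b k43_A00pp_022_s3 k44_A00pp_022_s3

theorem t161_A00pp_022_s3 : ∃ t, chk3 f_A00pp_022_s3 t 37 13 1 = true := ex3_b k41_A00pp_022_s3 k42_A00pp_022_s3

theorem t162_A00pp_022_s3 : ∃ t, chk3 f_A00pp_022_s3 t 36 27 1 = true := ex3_a k39_A00pp_022_s3 k40_A00pp_022_s3

theorem t163_A00pp_022_s3 : ∃ t, chk3 f_A00pp_022_s3 t 36 13 1 = true := ex3_b k38_A00pp_022_s3 t162_A00pp_022_s3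

theorem t164_A00pp_022_s3 : ∃ t, chk3 f_A00pp_022_s3 t 18 13 1 = true := ex3_a t163_A00pp_022_s3 t161_A00pp_022_s3

theorem t165_A00pp_022_s3 : ∃ t, chk3 f_A00pp_022_s3 t 9 13 1 = true := ex3_a t164_A00pp_022_s3 t160_A00pp_022_s3

theorem t166_A00pp_022_s3 : ∃ t, chk3 f_A00pp_022_s3 t 17 55 3 = true := ex3_a k36_A00pp_022_s3 k37_A00pp_022_s3

theorem t167_A00pp_022_s3 : ∃ t, chk3 f_A00pp_022_s3 t 8 55 3 = true := ex3_a k35_A00pp_022_s3 t166_A00pp_022_s3

theorem t168_A00pp_022_s3 : ∃ t, chk3 f_A00pp_022_s3 t 16 54 3 = true := ex3_a k32_A00pp_022_s3 k33_A00pp_022_s3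

theorem t169_A00pp_022_s3 : ∃ t, chk3 f_A00pp_022_s3 t 8 54 3 = true := ex3_a t168_A00pp_022_s3 k34_A00pp_022_s3

theorem t170_A00pp_022_s3 : ∃ t, chk3 f_A00pp_022_s3 t 8 27 3 = true := ex3_b t169_A00pp_022_s3 t167_A00pp_022_s3

theorem t171_A00pp_022_s3 : ∃ t, chk3 f_A00pp_022_s3 t 17 55 2 = true := ex3_b k30_A00pp_022_s3 k31_A00pp_022_s3

theorem t172_A00pp_022_s3 : ∃ t, chk3 f_A00pp_022_s3 t 16 55 2 = true := ex3_c k28_A00pp_022_s3 k29_A00pp_022_s3

theorem t173_A00pp_022_s3 : ∃ t, chk3 f_A00pp_022_s3 t 8 55 2 = true := ex3_a t172_A00pp_022_s3 t171_A00pp_022_s3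

theorem t174_A00pp_022_s3 : ∃ t, chk3 f_A00pp_022_s3 t 17 54 2 = true := ex3_b k26_A00pp_022_s3 k27_A00pp_022_s3

theorem t175_A00pp_022_s3 : ∃ t, chk3 f_A00pp_022_s3 t 16 54 2 = true := ex3_a k24_A00pp_022_s3 k25_A00pp_022_s3

theorem t176_A00pp_022_s3 : ∃ t, chk3 f_A00pp_022_s3 t 8 54 2 = true := ex3_a t175_A00pp_022_s3 t174_A00pp_022_s3

theorem t177_A00pp_022_s3 : ∃ t, chk3 f_A00pp_022_s3 t 8 27 2 = true := ex3_b t176_A00pp_022_s3 t173_A00pp_022_s3

theorem t178_A00pp_022_s3 : ∃ t, chk3 f_A00pp_022_s3 t 8 27 1 = true := ex3_c t177_A00pp_022_s3 t170_A00pp_022_s3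

theorem t179_A00pp_022_s3 : ∃ t, chk3 f_A00pp_022_s3 t 35 26 1 = true := ex3_c k22_A00pp_022_s3 k23_A00pp_022_s3

theorem t180_A00pp_022_s3 : ∃ t, chk3 f_A00pp_022_s3 t 34 26 1 = true := ex3_c k20_A00pp_022_s3 k21_A00pp_022_s3

theorem t181_A00pp_022_s3 : ∃ t, chk3 f_A00pp_022_s3 t 17 26 1 = true := ex3_a t180_A00pp_022_s3 t179_A00pp_022_s3

theorem t182_A00pp_022_s3 : ∃ t, chk3 f_A00pp_022_s3 t 33 26 2 = true := ex3_b k17_A00pp_022_s3 k18_A00pp_022_s3

theorem t183_A00pp_022_s3 : ∃ t, chk3 f_A00pp_022_s3 t 33 26 1 = true := ex3_c t182_A00pp_022_s3 k19_A00pp_022_s3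

theorem t184_A00pp_022_s3 : ∃ t, chk3 f_A00pp_022_s3 t 32 26 1 = true := ex3_a k15_A00pp_022_s3 k16_A00pp_022_s3

theorem t185_A00pp_022_s3 : ∃ t, chk3 f_A00pp_022_s3 t 16 26 1 = true := ex3_a t184_A00pp_022_s3 t183_A00pp_022_s3

theorem t186_A00pp_022_s3 : ∃ t, chk3 f_A00pp_022_s3 t 8 26 1 = true := ex3_a t185_A00pp_022_s3 t181_A00pp_022_s3

theorem t187_A00pp_022_s3 : ∃ t, chk3 f_A00pp_022_s3 t 8 13 1 = true := ex3_b t186_A00pp_022_s3 t178_A00pp_022_s3

theorem t188_A00pp_022_s3 : ∃ t, chk3 f_A00pp_022_s3 t 4 13 1 = true := ex3_a t187_A00pp_022_s3 t165_A00pp_022_s3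

theorem t189_A00pp_022_s3 : ∃ t, chk3 f_A00pp_022_s3 t 9 25 1 = true := ex3_a k13_A00pp_022_s3 k14_A00pp_022_s3

theorem t190_A00pp_022_s3 : ∃ t, chk3 f_A00pp_022_s3 t 9 12 1 = true := ex3_b k12_A00pp_022_s3 t189_A00pp_022_s3

theorem t191_A00pp_022_s3 : ∃ t, chk3 f_A00pp_022_s3 t 8 51 1 = true := ex3_b k10_A00pp_022_s3 k11_A00pp_022_s3

theorem t192_A00pp_022_s3 : ∃ t, chk3 f_A00pp_022_s3 t 8 25 1 = true := ex3_b k9_A00pp_022_s3 t191_A00pp_022_s3

theorem t193_A00pp_022_s3 : ∃ t, chk3 f_A00pp_022_s3 t 8 12 1 = true := ex3_b k8_A00pp_022_s3 t192_A00pp_022_s3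

theorem t194_A00pp_022_s3 : ∃ t, chk3 f_A00pp_022_s3 t 4 12 1 = true := ex3_a t193_A00pp_022_s3 t190_A00pp_022_s3

theorem t195_A00pp_022_s3 : ∃ t, chk3 f_A00pp_022_s3 t 4 6 1 = true := ex3_b t194_A00pp_022_s3 t188_A00pp_022_s3

theorem t196_A00pp_022_s3 : ∃ t, chk3 f_A00pp_022_s3 t 2 6 1 = true := ex3_a t195_A00pp_022_s3 t159_A00pp_022_s3

theorem t197_A00pp_022_s3 : ∃ t, chk3 f_A00pp_022_s3 t 2 3 1 = true := ex3_b t196_A00pp_022_s3 t150_A00pp_022_s3

theorem t198_A00pp_022_s3 : ∃ t, chk3 f_A00pp_022_s3 t 1 3 1 = true := ex3_a t197_A00pp_022_s3 k103_A00pp_022_s3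

theorem t199_A00pp_022_s3 : ∃ t, chk3 f_A00pp_022_s3 t 12 2 1 = true := ex3_b k4_A00pp_022_s3 k5_A00pp_022_s3

theorem t200_A00pp_022_s3 : ∃ t, chk3 f_A00pp_022_s3 t 6 2 1 = true := ex3_a t199_A00pp_022_s3 k6_A00pp_022_s3

theorem t201_A00pp_022_s3 : ∃ t, chk3 f_A00pp_022_s3 t 3 2 1 = true := ex3_a t200_A00pp_022_s3 k7_A00pp_022_s3

theorem t202_A00pp_022_s3 : ∃ t, chk3 f_A00pp_022_s3 t 5 5 1 = true := ex3_a k2_A00pp_022_s3 k3_A00pp_022_s3

theorem t203_A00pp_022_s3 : ∃ t, chk3 f_A00pp_022_s3 t 5 2 1 = true := ex3_b k1_A00pp_022_s3 t202_A00pp_022_s3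

theorem t204_A00pp_022_s3 : ∃ t, chk3 f_A00pp_022_s3 t 2 2 1 = true := ex3_a k0_A00pp_022_s3 t203_A00pp_022_s3

theorem t205_A00pp_022_s3 : ∃ t, chk3 f_A00pp_022_s3 t 1 2 1 = true := ex3_a t204_A00pp_022_s3 t201_A00pp_022_s3

theorem t206_A00pp_022_s3 : ∃ t, chk3 f_A00pp_022_s3 t 1 1 1 = true := ex3_b t205_A00pp_022_s3 t198_A00pp_022_s3

theorem c_A00pp_022_s3 : CertF 0 536870912 0 536870912 966367641 24778659 true true true .pp 0 2 2
    ndB0q0 ndB0q2 pcB2 cut_A00pp_022_s3 xt_A00pp_022_s3 :=
  certF0 (fam := true) (s1 := true) (s2 := true) (a := 0) (b := 2) (c := 2) (cn := .pp) (n1 := ndB0q0) (n2 := ndB0q2) (pc := pcB2) (cut := cut_A00pp_022_s3) (xt := xt_A00pp_022_s3) (P1 := 0) (W1 := 536870912) (P2 := 0) (W2 := 536870912) (P3 := 966367641) (W3 := 24778659)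
    rfl t206_A00pp_022_s3

theorem s_A00pp_022_s3 {κ x : ℝ} (hκ : κ * h0 = ken x) (hx : ((966367641 : ℕ) : ℝ) / S ≤ x)
    (hx' : x ≤ (((966367641 : ℕ) : ℝ) + (24778659 : ℕ)) / S)
    (H : CutA (VFD κ) PP tK tL pcB (Cut.of [[⟨0, 0, 0, 53687091⟩, ⟨1, 1, 0, 53687091⟩, ⟨2, 1, 0, 53687091⟩]]) 0 2 2 0 0 (sgb true) (sgb true) x) :
    AltA (VFD κ) PP tK tL pcB [⟨4, 0, 0, 2845415833⟩] 0 2 2 0 0 (sgb true) (sgb true) x :=
  strip_altAD (m := 2845415833) false rfl hκ (SH.κ0 hκ (SH.hx1 hx).le (SH.hx2 hx').le) (SH.hx1 hx).le (SH.hx2 hx') (covB00).cov (covB02).cov hx hx' c_A00pp_022_s3 H ((okx hx hx').extA (T := tt) (sideB hx hx') hκ rfl rfl (.O 0 true) (.O 2 true) (Or.inl rfl))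

end Pool.Agent.Strip051.G.I9000_9231.Tab.St.C
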