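import Pool.Agent.Strip051.G.I9000_9231.StH
import Pool.Agent.Strip051.G.I9000_9231.StF

/-! # Unit strips 10 (generated) -/

set_option linter.all false
set_option maxRecDepth 100000

namespace Pool.Agent.Strip051.G.I9000_9231.Tab.St.C

open Pool.Agent.Strip051.PB Pool.Agent.Strip051.PB.T Pool.Agent.StripNear Pool.Agent.Strip051.LC
open Pool.Agent.Strip051.G.I9000_9231.Tab Pool.Agent.Strip051.G.I9000_9231.Tab.St

noncomputable def cut_A00pm_202_s1 : Cut := Cut.of [[⟨4, 0, 0, 1449551462⟩], [⟨0, 1, 0, 53687091⟩, ⟨1, 0, 0, 53687091⟩, ⟨2, 1, 0, 53687091⟩]]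

noncomputable def f_A00pm_202_s1 : ℕ → ℕ → ℕ → ℕ → Bool := onCell 0 536870912 1073741824 536870912 966367641 24778659
    (rowF 1 true true false .pp 2 0 2 (qsf 0 536870912 0 536870912 2) ndB0q2 ndB0q0 pcB2 cut_A00pm_202_s1 Ext.none)

def k0_A00pm_202_s1 : ∃ t, chk3 f_A00pm_202_s1 t 2 4 1 = true :=
  ⟨(b (l 1) (l 6)), by decide +kernel⟩

def k1_A00pm_202_s1 : ∃ t, chk3 f_A00pm_202_s1 t 3 8 1 = true :=
  ⟨(a (l 1) (b (a (l 1) (l 14)) (b (a (a (l 1) (a (l 1) (l 14))) (l 14)) (a (a (a (l 1) (b (l 1) (b (a (l 1) (a (c (l 16374632) (l 16342384)) (c (l 16346424) (l 46740407335)))) (a (c (l 16360904) (l 16328720)) (c (l 16356624) (a (l 16348064) (l 16361336))))))) (b (a (a (b (l 1) (a (c (l 16395848) (l 16364136)) (l 16373144))) (b (c (l 16393904) (a (l 16387616) (l 16402216))) (c (l 16431128) (l 16357720)))) (b (b (l 14) (a (l 16420416) (l 16472856))) (a (b (l 16402056) (l 16404752)) (l 16434760)))) (c (a (a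 (l 16370240) (l 16398512)) (b (l 16482176) (l 16488472))) (a (a (b (l 16376360) (l 16381944)) (l 16365592)) (a (l 16353392) (l 16468736)))))) (b (a (a (a (b (l 16462664) (l 16509536)) (b (l 16538840) (l 16543552))) (a (l 16492256) (l 16527800))) (a (a (l 16584688) (c (l 16611384) (l 16587760))) (b (a (l 16634160) (c (l 16643160) (l 16663928))) (a (l 16629688) (c (l 16632088) (l 16612248)))))) (c (a (a (l 16465480) (l 16533184)) (a (l 16602528) (a (l 16601200) (b (l 16620864) (l 16609520))))) (a (a (l 16434984) (l 16504784)) (a (l 16575880) (a (l 16626392) (l 16628704)))))))))), by decide +kernel⟩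

def k2_A00pm_202_s1 : ∃ t, chk3 f_A00pm_202_s1 t 6 9 1 = true :=
  ⟨(a (b (l 1) (l 6)) (b (a (b (l 1) (a (c (l 16210056) (l 16185576)) (b (l 16138896) (l 16156504)))) (b (b (l 1) (a (l 16202000) (a (l 16190792) (l 16254696)))) (a (c (l 16198528) (l 16170568)) (b (l 16301600) (l 16318768))))) (a (b (c (c (l 16270392) (l 16258568)) (l 16240424)) (l 6)) (b (c (a (l 16319824) (l 16362008)) (a (l 16291432) (l 16329872))) (c (l 16380544) (l 16349288)))))), by decide +kernel⟩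

def k3_A00pm_202_s1 : ∃ t, chk3 f_A00pm_202_s1 t 14 9 1 = true :=
  ⟨(b (a (b (a (b (c (a (l 16320432) (l 16345272)) (a (l 16289672) (l 16313296))) (c (l 16263904) (l 16231448))) (b (c (a (l 16329336) (b (l 16394928) (l 16402080))) (a (l 16296064) (a (l 16315272) (l 16328448)))) (c (b (l 16354000) (l 16403632)) (a (l 16351488) (l 16293040))))) (b (a (b (l 16343400) (l 16351488)) (c (l 16415584) (l 16378440))) (a (l 16364008) (c (l 16432128) (l 16393400))))) (b (b (c (a (b (l 16436296) (l 16443384)) (l 16498408)) (a (b (l 16359816) (l 16407872)) (l 16380104))) (a (a (l 16422376) (l 16450280)) (l 16410496))) (b (a (a (l 16353040) (l 16464488)) (l 16423984)) (a (c (l 16485640) (l 16444576)) (l 16437808))))) (a (c (b (a (l 16408080) (l 16457704)) (a (l 16444992) (l 16491992))) (b (a (l 16371520) (l 16416488)) (a (l 16406200) (l 16447952)))) (b (a (b (l 16396584) (l 16411672)) (l 16458680)) (a (b (l 16426680)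 (l 16441320)) (l 16485672))))), by decide +kernel⟩

def k4_A00pm_202_s1 : ∃ t, chk3 f_A00pm_202_s1 t 15 9 1 = true :=
  ⟨(a (b (b (a (b (b (l 16458768) (l 16464560)) (l 16473480)) (c (l 16549880) (l 16517992))) (a (b (l 16485752) (l 16498208)) (c (l 16573240) (l 16537416)))) (a (b (l 16433000) (l 16540312)) (b (c (l 16565168) (l 16556848)) (l 16499368)))) (b (a (a (b (b (l 16580360) (l 16589488)) (l 16569584)) (b (b (l 16614624) (l 16597264)) (b (l 16574536) (l 16551944)))) (a (b (b (l 16602112) (c (l 16554800) (l 16584128))) (c (b (l 16531528) (l 16508512)) (l 16562352))) (b (c (b (b (l 16598096) (l 16586616)) (b (l 16575112) (l 16563632))) (b (l 16597440) (l 16576296))) (c (b (b (l 16552176) (l 16540792)) (b (l 16529504) (l 16518336))) (b (l 16576112) (l 16513592)))))) (b (a (b (l 16522200) (l 16500552)) (c (a (b (l 16569848) (l 16548040)) (b (b (l 16507320) (l 16538424)) (b (l 16527808) (l 16517336))))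 (a (l 16521672) (b (l 16493824) (l 16475144))))) (a (b (l 16479920) (l 16439056)) (a (b (l 16452016) (l 16443248)) (b (c (l 16459920) (l 16541056)) (c (l 16481480) (l 16523256)))))))), by decide +kernel⟩

def k5_A00pm_202_s1 : ∃ t, chk3 f_A00pm_202_s1 t 1 5 1 = true :=
  ⟨(a (l 6) (a (b (a (l 6) (b (a (l 6) (b (c (l 16420928) (l 16389104)) (l 6))) (l 6))) (l 6)) (b (a (b (a (b (c (l 16419336) (l 16376080)) (a (l 16411232) (l 16447424))) (b (a (l 16378112) (l 16509920)) (b (l 16419096) (b (l 16510440) (a (l 16493080) (l 16535496)))))) (a (b (l 6) (l 6)) (a (b (l 16505248) (l 6)) (l 16500688)))) (b (a (b (a (l 16547808) (c (l 16477864) (l 16525296))) (b (a (l 16519080) (l 16473184)) (b (l 16398784) (b (l 16391776) (l 16387112))))) (b (a (c (l 16429384) (l 16476168)) (c (b (a (l 16486112) (l 16461440)) (l 16370024)) (b (l 16434320) (l 16500712)))) (b (a (l 16424344) (c (l 16350576) (l 16483272))) (b (a (l 16410448)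 (l 16360664)) (a (l 16359016) (b (l 16353448) (l 16348592))))))) (a (a (l 16375112) (b (l 16428752) (l 16397680))) (a (c (l 16336472) (l 16393672)) (b (c (l 16388280) (l 16441304)) (l 16237728)))))) (a (l 6) (b (b (a (l 16308288) (a (l 16321776) (l 16189824))) (a (l 6) (a (l 16296784) (l 16165728)))) (a (l 6) (b (c (l 16178160) (l 16282608)) (l 6)))))))), by decide +kernel⟩

def k6_A00pm_202_s1 : ∃ t, chk3 f_A00pm_202_s1 t 1 3 1 = true :=
  ⟨(a (l 6) (l 6)), by decide +kernel⟩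

theorem t7_A00pm_202_s1 : ∃ t, chk3 f_A00pm_202_s1 t 7 9 1 = true := ex3_a k3_A00pm_202_s1 k4_A00pm_202_s1

theorem t8_A00pm_202_s1 : ∃ t, chk3 f_A00pm_202_s1 t 3 9 1 = true := ex3_a k2_A00pm_202_s1 t7_A00pm_202_s1

theorem t9_A00pm_202_s1 : ∃ t, chk3 f_A00pm_202_s1 t 3 4 1 = true := ex3_b k1_A00pm_202_s1 t8_A00pm_202_s1

theorem t10_A00pm_202_s1 : ∃ t, chk3 f_A00pm_202_s1 t 1 4 1 = true := ex3_a k0_A00pm_202_s1 t9_A00pm_202_s1

theorem t11_A00pm_202_s1 : ∃ t, chk3 f_A00pm_202_s1 t 1 2 1 = true := ex3_b t10_A00pm_202_s1 k5_A00pm_202_s1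

theorem t12_A00pm_202_s1 : ∃ t, chk3 f_A00pm_202_s1 t 1 1 1 = true := ex3_b t11_A00pm_202_s1 k6_A00pm_202_s1

theorem c_A00pm_202_s1 : CertF 0 536870912 0 536870912 966367641 24778659 true true false .pp 2 0 2
    ndB0q2 ndB0q0 pcB2 cut_A00pm_202_s1 Ext.none :=
  certF1 (fam := true) (s1 := true) (s2 := false) (a := 2) (b := 0) (c := 2) (cn := .pp) (n1 := ndB0q2) (n2 := ndB0q0) (pc := pcB2) (cut := cut_A00pm_202_s1) (xt := Ext.none) (P1 := 0) (W1 := 536870912) (P2 := 0) (W2 := 536870912) (P3 := 966367641) (W3 := 24778659)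
    rfl (fun _ => rfl) t12_A00pm_202_s1

theorem s_A00pm_202_s1 {κ x : ℝ} (hκ : κ * h0 = ken x) (hx : ((966367641 : ℕ) : ℝ) / S ≤ x)
    (hx' : x ≤ (((966367641 : ℕ) : ℝ) + (24778659 : ℕ)) / S)
    (H : CutA (VFD κ) PP tK tL pcB (Cut.of [[⟨0, 1, 0, 53687091⟩, ⟨1, 0, 0, 53687091⟩, ⟨2, 1, 0, 53687091⟩]]) 2 0 2 0 0 (sgb true) (sgb false) x) :
    AltA (VFD κ) PP tK tL pcB [⟨3, 0, 0, 1449551462⟩] 2 0 2 0 0 (sgb true) (sgb false) x :=
  strip_altAD (m := 1449551462) true rfl hκ (SH.κ0 hκ (SH.hx1 hx).le (SH.hx2 hx').le) (SH.hx1 hx).le (SH.hx2 hx') (covB02).cov (covB00).cov hx hx' c_A00pm_202_s1 H (noExt_A)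

noncomputable def cut_A00pm_202_s3 : Cut := Cut.of [[⟨3, 0, 0, 2845415833⟩], [⟨0, 1, 0, 53687091⟩, ⟨1, 0, 0, 53687091⟩, ⟨2, 1, 0, 53687091⟩]]

noncomputable def f_A00pm_202_s3 : ℕ → ℕ → ℕ → ℕ → Bool := onCell 0 536870912 1073741824 536870912 966367641 24778659
    (rowF 1 true true false .pp 2 0 2 (qsf 0 536870912 0 536870912 2) ndB0q2 ndB0q0 pcB2 cut_A00pm_202_s3 Ext.none)

def k0_A00pm_202_s3 : ∃ t, chk3 f_A00pm_202_s3 t 1 1 1 = true :=
  ⟨(b (l 6) (a (l 6) (l 6))), by decide +kernel⟩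

theorem c_A00pm_202_s3 : CertF 0 536870912 0 536870912 966367641 24778659 true true false .pp 2 0 2
    ndB0q2 ndB0q0 pcB2 cut_A00pm_202_s3 Ext.none :=
  certF1 (fam := true) (s1 := true) (s2 := false) (a := 2) (b := 0) (c := 2) (cn := .pp) (n1 := ndB0q2) (n2 := ndB0q0) (pc := pcB2) (cut := cut_A00pm_202_s3) (xt := Ext.none) (P1 := 0) (W1 := 536870912) (P2 := 0) (W2 := 536870912) (P3 := 966367641) (W3 := 24778659)
    rfl (fun _ => rfl) k0_A00pm_202_s3

theorem s_A00pm_202_s3 {κ x : ℝ} (hκ : κ * h0 = ken x) (hx : ((966367641 : ℕ) : ℝ) / S ≤ x)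
    (hx' : x ≤ (((966367641 : ℕ) : ℝ) + (24778659 : ℕ)) / S)
    (H : CutA (VFD κ) PP tK tL pcB (Cut.of [[⟨0, 1, 0, 53687091⟩, ⟨1, 0, 0, 53687091⟩, ⟨2, 1, 0, 53687091⟩]]) 2 0 2 0 0 (sgb true) (sgb false) x) :
    AltA (VFD κ) PP tK tL pcB [⟨4, 0, 0, 2845415833⟩] 2 0 2 0 0 (sgb true) (sgb false) x :=
  strip_altAD (m := 2845415833) false rfl hκ (SH.κ0 hκ (SH.hx1 hx).le (SH.hx2 hx').le) (SH.hx1 hx).le (SH.hx2 hx') (covB02).cov (covB00).cov hx hx' c_A00pm_202_s3 H (noExt_A)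

noncomputable def cut_A00pm_203_s1 : Cut := Cut.of [[⟨4, 0, 0, 1449551462⟩]]

noncomputable def f_A00pm_203_s1 : ℕ → ℕ → ℕ → ℕ → Bool := onCell 0 536870912 1610612736 536870912 966367641 24778659
    (rowF 1 true true false .up 2 0 3 (qsf 0 536870912 0 536870912 3) ndB0q2 ndB0q0 pcB3 cut_A00pm_203_s1 Ext.none)

def k0_A00pm_203_s1 : ∃ t, chk3 f_A00pm_203_s1 t 1 1 1 = true :=
  ⟨(l 6), by decide +kernel⟩

theorem c_A00pm_203_s1 : CertF 0 536870912 0 536870912 966367641 24778659 true true false .up 2 0 3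
    ndB0q2 ndB0q0 pcB3 cut_A00pm_203_s1 Ext.none :=
  certF1 (fam := true) (s1 := true) (s2 := false) (a := 2) (b := 0) (c := 3) (cn := .up) (n1 := ndB0q2) (n2 := ndB0q0) (pc := pcB3) (cut := cut_A00pm_203_s1) (xt := Ext.none) (P1 := 0) (W1 := 536870912) (P2 := 0) (W2 := 536870912) (P3 := 966367641) (W3 := 24778659)
    rfl (fun _ => rfl) k0_A00pm_203_s1

theorem s_A00pm_203_s1 {κ x : ℝ} (hκ : κ * h0 = ken x) (hx : ((966367641 : ℕ) : ℝ) / S ≤ x)
    (hx' : x ≤ (((966367641 : ℕ) : ℝ) + (24778659 : ℕ)) / S) :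
    AltA (VFD κ) PP tK tL pcB [⟨3, 0, 0, 1449551462⟩] 2 0 3 0 0 (sgb true) (sgb false) x :=
  strip_altAD (m := 1449551462) true rfl hκ (SH.κ0 hκ (SH.hx1 hx).le (SH.hx2 hx').le) (SH.hx1 hx).le (SH.hx2 hx') (covB02).cov (covB00).cov hx hx' c_A00pm_203_s1 cutA_nil (noExt_A)

noncomputable def cut_A00pm_203_s3 : Cut := Cut.of [[⟨3, 0, 0, 2845415833⟩]]

noncomputable def xt_A00pm_203_s3 : Ext := strExt dd true true false .u2 .u0m .s2m .up 2 0 3 rfl rfl gl3 vv ndB0q2 ndB0q0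

noncomputable def f_A00pm_203_s3 : ℕ → ℕ → ℕ → ℕ → Bool := onCell 0 536870912 0 536870912 966367641 24778659
    (rowF 0 true true false .up 2 0 3 (qsf 0 536870912 0 536870912 3) ndB0q2 ndB0q0 pcB3 cut_A00pm_203_s3 xt_A00pm_203_s3)

def k0_A00pm_203_s3 : ∃ t, chk3 f_A00pm_203_s3 t 1 1 1 = true :=
  ⟨(a (b (l 1) (b (a (a (a (a (a (b (l 1) (b (l 1) (l 6))) (l 6)) (l 6)) (l 6)) (l 6)) (l 6)) (a (b (a (b (a (b (c (b (l 16458504) (l 16458056)) (c (l 16487696) (l 16382776))) (c (c (l 16568808) (l 16587032)) (c (l 16499280) (l 16403016)))) (l 6)) (b (c (a (c (l 16659632) (l 16509008)) (c (l 16639160) (l 16558008))) (a (c (l 16513304) (l 529851663)) (c (l 16461456) (l 16355664)))) (c (a (l 532215567) (a (l 16484784) (l 16428096))) (a (c (l 16529576) (l 530008847)) (c (l 16476184) (l 16379896)))))) (l 6)) (a (b (b (c (a (l 532572431) (l 532036623)) (a (c (l 531531791) (l 529923087)) (c (l 16493216) (l 16406640))))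 (c (a (l 533202703) (l 532391439)) (a (l 530657039) (c (l 16512288) (l 16435520))))) (a (c (b (l 533300751) (l 533136143)) (b (l 530591247) (l 530542863))) (c (b (l 532750351) (l 533113871)) (b (l 530503951) (l 530447375))))) (a (a (b (c (b (l 16499640) (l 16504152)) (b (l 530614799) (l 530511375))) (c (b (l 16510640) (l 16540016)) (b (l 530428687) (l 530365199)))) (b (b (l 6) (c (l 16487016) (l 530194191))) (c (c (l 16610408) (l 531454735)) (b (l 530373903) (l 530305551))))) (b (l 6) (a (c (b (l 16474192) (l 16501552)) (b (l 530043919) (l 530237967))) (b (l 6) (c (l 16503120) (l 16347800)))))))) (a (l 6) (l 6))))) (l 6)), by decide +kernel⟩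

theorem c_A00pm_203_s3 : CertF 0 536870912 0 536870912 966367641 24778659 true true false .up 2 0 3
    ndB0q2 ndB0q0 pcB3 cut_A00pm_203_s3 xt_A00pm_203_s3 :=
  certF0 (fam := true) (s1 := true) (s2 := false) (a := 2) (b := 0) (c := 3) (cn := .up) (n1 := ndB0q2) (n2 := ndB0q0) (pc := pcB3) (cut := cut_A00pm_203_s3) (xt := xt_A00pm_203_s3) (P1 := 0) (W1 := 536870912) (P2 := 0) (W2 := 536870912) (P3 := 966367641) (W3 := 24778659)
    rfl k0_A00pm_203_s3

theorem s_A00pm_203_s3 {κ x : ℝ} (hκ : κ * h0 = ken x) (hx : ((966367641 : ℕ) : ℝ) / S ≤ x)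
    (hx' : x ≤ (((966367641 : ℕ) : ℝ) + (24778659 : ℕ)) / S) :
    AltA (VFD κ) PP tK tL pcB [⟨4, 0, 0, 2845415833⟩] 2 0 3 0 0 (sgb true) (sgb false) x :=
  strip_altAD (m := 2845415833) false rfl hκ (SH.κ0 hκ (SH.hx1 hx).le (SH.hx2 hx').le) (SH.hx1 hx).le (SH.hx2 hx') (covB02).cov (covB00).cov hx hx' c_A00pm_203_s3 cutA_nil ((okx hx hx').extA (T := tt) (sideB hx hx') hκ rfl rfl (.O 2 true) (.O 0 false) (Or.inr rfl))

noncomputable def cut_A00pm_213_s1 : Cut := Cut.of [[⟨4, 0, 0, 1449551462⟩], [⟨0, 1, 0, 47710208⟩, ⟨1, 1, 0, 47710208⟩, ⟨2, 2, 0, 8388608⟩], [⟨0, 1, 0, 1572864⟩, ⟨1, 0, 1, 46137344⟩, ⟨2, 1, 1, 46137344⟩, ⟨1, 0, 0, 1013612281⟩, ⟨1, 1, 0, 128849018⟩, ⟨2, 1, 0, 1013612281⟩, ⟨2, 2, 0, 128849018⟩]]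

noncomputable def f_A00pm_213_s1 : ℕ → ℕ → ℕ → ℕ → Bool := onCell 0 536870912 536870912 536870912 966367641 24778659
    (rowF 0 true true false .pnn 2 1 3 (qsf 0 536870912 536870912 536870912 3) ndB0q2 ndB0q1 pcB3 cut_A00pm_213_s1 Ext.none)

def k0_A00pm_213_s1 : ∃ t, chk3 f_A00pm_213_s1 t 1 1 1 = true :=
  ⟨(l 6), by decide +kernel⟩

theorem c_A00pm_213_s1 : CertF 0 536870912 536870912 536870912 966367641 24778659 true true false .pnn 2 1 3
    ndB0q2 ndB0q1 pcB3 cut_A00pm_213_s1 Ext.none :=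
  certF0 (fam := true) (s1 := true) (s2 := false) (a := 2) (b := 1) (c := 3) (cn := .pnn) (n1 := ndB0q2) (n2 := ndB0q1) (pc := pcB3) (cut := cut_A00pm_213_s1) (xt := Ext.none) (P1 := 0) (W1 := 536870912) (P2 := 536870912) (W2 := 536870912) (P3 := 966367641) (W3 := 24778659)
    rfl k0_A00pm_213_s1

theorem s_A00pm_213_s1 {κ x : ℝ} (hκ : κ * h0 = ken x) (hx : ((966367641 : ℕ) : ℝ) / S ≤ x)
    (hx' : x ≤ (((966367641 : ℕ) : ℝ) + (24778659 : ℕ)) / S)
    (H : CutA (VFD κ) PP tK tL pcB (Cut.of [[⟨0, 1, 0, 47710208⟩, ⟨1, 1, 0, 47710208⟩, ⟨2, 2, 0, 8388608⟩], [⟨0, 1, 0, 1572864⟩, ⟨1, 0, 1, 46137344⟩, ⟨2, 1, 1, 46137344⟩, ⟨1, 0, 0, 1013612281⟩, ⟨1, 1, 0, 128849018⟩, ⟨2, 1, 0, 1013612281⟩, ⟨2, 2, 0, 128849018⟩]]) 2 1 3 0 0 (sgb true) (sgb false) x) :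
    AltA (VFD κ) PP tK tL pcB [⟨3, 0, 0, 1449551462⟩] 2 1 3 0 0 (sgb true) (sgb false) x :=
  strip_altAD (m := 1449551462) true rfl hκ (SH.κ0 hκ (SH.hx1 hx).le (SH.hx2 hx').le) (SH.hx1 hx).le (SH.hx2 hx') (covB02).cov (covB01).cov hx hx' c_A00pm_213_s1 H (noExt_A)

end Pool.Agent.Strip051.G.I9000_9231.Tab.St.C
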