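import Pool.Agent.Strip051.G.I9000_9231.StH
import Pool.Agent.Strip051.G.I9000_9231.Sp11_0
import Pool.Agent.Strip051.G.I9000_9231.Sp11_1
import Pool.Agent.Strip051.G.I9000_9231.Sp11_2
import Pool.Agent.Strip051.G.I9000_9231.Sp11_3
import Pool.Agent.Strip051.G.I9000_9231.Sp11_4
import Pool.Agent.Strip051.G.I9000_9231.StF

/-! # Unit strips 11 (generated) -/

set_option linter.all false
set_option maxRecDepth 100000

namespace Pool.Agent.Strip051.G.I9000_9231.Tab.St.C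

open Pool.Agent.Strip051.PB Pool.Agent.Strip051.PB.T Pool.Agent.StripNear Pool.Agent.Strip051.LC
open Pool.Agent.Strip051.G.I9000_9231.Tab Pool.Agent.Strip051.G.I9000_9231.Tab.St

theorem t399_A00pm_213_s3 : ∃ t, chk3 f_A00pm_213_s3 t 127 507 1 = true := ex3_a k396_A00pm_213_s3 k397_A00pm_213_s3

theorem t400_A00pm_213_s3 : ∃ t, chk3 f_A00pm_213_s3 t 127 253 1 = true := ex3_b k395_A00pm_213_s3 t399_A00pm_213_s3

theorem t401_A00pm_213_s3 : ∃ t, chk3 f_A00pm_213_s3 t 127 252 1 = true := ex3_c k393_A00pm_213_s3 k394_A00pm_213_s3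

theorem t402_A00pm_213_s3 : ∃ t, chk3 f_A00pm_213_s3 t 127 126 1 = true := ex3_b t401_A00pm_213_s3 t400_A00pm_213_s3

theorem t403_A00pm_213_s3 : ∃ t, chk3 f_A00pm_213_s3 t 253 126 1 = true := ex3_b k391_A00pm_213_s3 k392_A00pm_213_s3

theorem t404_A00pm_213_s3 : ∃ t, chk3 f_A00pm_213_s3 t 126 126 1 = true := ex3_a k390_A00pm_213_s3 t403_A00pm_213_s3

theorem t405_A00pm_213_s3 : ∃ t, chk3 f_A00pm_213_s3 t 63 126 1 = true := ex3_a t404_A00pm_213_s3 t402_A00pm_213_s3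

theorem t406_A00pm_213_s3 : ∃ t, chk3 f_A00pm_213_s3 t 62 126 1 = true := ex3_c k388_A00pm_213_s3 k389_A00pm_213_s3

theorem t407_A00pm_213_s3 : ∃ t, chk3 f_A00pm_213_s3 t 31 126 1 = true := ex3_a t406_A00pm_213_s3 t405_A00pm_213_s3

theorem t408_A00pm_213_s3 : ∃ t, chk3 f_A00pm_213_s3 t 31 63 1 = true := ex3_b t407_A00pm_213_s3 k398_A00pm_213_s3

theorem t409_A00pm_213_s3 : ∃ t, chk3 f_A00pm_213_s3 t 127 251 1 = true := ex3_c k386_A00pm_213_s3 k387_A00pm_213_s3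

theorem t410_A00pm_213_s3 : ∃ t, chk3 f_A00pm_213_s3 t 127 250 1 = true := ex3_b k384_A00pm_213_s3 k385_A00pm_213_s3

theorem t411_A00pm_213_s3 : ∃ t, chk3 f_A00pm_213_s3 t 127 125 1 = true := ex3_b t410_A00pm_213_s3 t409_A00pm_213_s3

theorem t412_A00pm_213_s3 : ∃ t, chk3 f_A00pm_213_s3 t 126 250 1 = true := ex3_b k381_A00pm_213_s3 k382_A00pm_213_s3

theorem t413_A00pm_213_s3 : ∃ t, chk3 f_A00pm_213_s3 t 126 125 1 = true := ex3_b t412_A00pm_213_s3 k383_A00pm_213_s3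

theorem t414_A00pm_213_s3 : ∃ t, chk3 f_A00pm_213_s3 t 63 125 1 = true := ex3_a t413_A00pm_213_s3 t411_A00pm_213_s3

theorem t415_A00pm_213_s3 : ∃ t, chk3 f_A00pm_213_s3 t 31 125 1 = true := ex3_a k380_A00pm_213_s3 t414_A00pm_213_s3

theorem t416_A00pm_213_s3 : ∃ t, chk3 f_A00pm_213_s3 t 127 249 1 = true := ex3_b k378_A00pm_213_s3 k379_A00pm_213_s3

theorem t417_A00pm_213_s3 : ∃ t, chk3 f_A00pm_213_s3 t 127 497 3 = true := ex3_a k376_A00pm_213_s3 k377_A00pm_213_s3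

theorem t418_A00pm_213_s3 : ∃ t, chk3 f_A00pm_213_s3 t 127 248 3 = true := ex3_b k375_A00pm_213_s3 t417_A00pm_213_s3

theorem t419_A00pm_213_s3 : ∃ t, chk3 f_A00pm_213_s3 t 127 248 1 = true := ex3_c k374_A00pm_213_s3 t418_A00pm_213_s3

theorem t420_A00pm_213_s3 : ∃ t, chk3 f_A00pm_213_s3 t 127 124 1 = true := ex3_b t419_A00pm_213_s3 t416_A00pm_213_s3

theorem t421_A00pm_213_s3 : ∃ t, chk3 f_A00pm_213_s3 t 126 249 3 = true := ex3_a k372_A00pm_213_s3 k373_A00pm_213_s3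

theorem t422_A00pm_213_s3 : ∃ t, chk3 f_A00pm_213_s3 t 1010 497 7 = true := ex3_a k368_A00pm_213_s3 k369_A00pm_213_s3

theorem t423_A00pm_213_s3 : ∃ t, chk3 f_A00pm_213_s3 t 1010 497 3 = true := ex3_c k367_A00pm_213_s3 t422_A00pm_213_s3

theorem t424_A00pm_213_s3 : ∃ t, chk3 f_A00pm_213_s3 t 505 497 3 = true := ex3_a t423_A00pm_213_s3 k370_A00pm_213_s3

theorem t425_A00pm_213_s3 : ∃ t, chk3 f_A00pm_213_s3 t 252 497 3 = true := ex3_a k366_A00pm_213_s3 t424_A00pm_213_s3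

theorem t426_A00pm_213_s3 : ∃ t, chk3 f_A00pm_213_s3 t 252 496 3 = true := ex3_a k364_A00pm_213_s3 k365_A00pm_213_s3

theorem t427_A00pm_213_s3 : ∃ t, chk3 f_A00pm_213_s3 t 252 248 3 = true := ex3_b t426_A00pm_213_s3 t425_A00pm_213_s3

theorem t428_A00pm_213_s3 : ∃ t, chk3 f_A00pm_213_s3 t 126 248 3 = true := ex3_a t427_A00pm_213_s3 k371_A00pm_213_s3

theorem t429_A00pm_213_s3 : ∃ t, chk3 f_A00pm_213_s3 t 126 124 3 = true := ex3_b t428_A00pm_213_s3 t421_A00pm_213_s3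

theorem t430_A00pm_213_s3 : ∃ t, chk3 f_A00pm_213_s3 t 126 249 2 = true := ex3_a k362_A00pm_213_s3 k363_A00pm_213_s3

theorem t431_A00pm_213_s3 : ∃ t, chk3 f_A00pm_213_s3 t 252 497 2 = true := ex3_b k359_A00pm_213_s3 k360_A00pm_213_s3

theorem t432_A00pm_213_s3 : ∃ t, chk3 f_A00pm_213_s3 t 252 248 2 = true := ex3_b k358_A00pm_213_s3 t431_A00pm_213_s3

theorem t433_A00pm_213_s3 : ∃ t, chk3 f_A00pm_213_s3 t 126 248 2 = true := ex3_a t432_A00pm_213_s3 k361_A00pm_213_s3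

theorem t434_A00pm_213_s3 : ∃ t, chk3 f_A00pm_213_s3 t 126 124 2 = true := ex3_b t433_A00pm_213_s3 t430_A00pm_213_s3

theorem t435_A00pm_213_s3 : ∃ t, chk3 f_A00pm_213_s3 t 126 124 1 = true := ex3_c t434_A00pm_213_s3 t429_A00pm_213_s3

theorem t436_A00pm_213_s3 : ∃ t, chk3 f_A00pm_213_s3 t 63 124 1 = true := ex3_a t435_A00pm_213_s3 t420_A00pm_213_s3

theorem t437_A00pm_213_s3 : ∃ t, chk3 f_A00pm_213_s3 t 125 124 1 = true := ex3_b k356_A00pm_213_s3 k357_A00pm_213_s3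

theorem t438_A00pm_213_s3 : ∃ t, chk3 f_A00pm_213_s3 t 62 124 1 = true := ex3_a k355_A00pm_213_s3 t437_A00pm_213_s3

theorem t439_A00pm_213_s3 : ∃ t, chk3 f_A00pm_213_s3 t 31 124 1 = true := ex3_a t438_A00pm_213_s3 t436_A00pm_213_s3

theorem t440_A00pm_213_s3 : ∃ t, chk3 f_A00pm_213_s3 t 31 62 1 = true := ex3_b t439_A00pm_213_s3 t415_A00pm_213_s3

theorem t441_A00pm_213_s3 : ∃ t, chk3 f_A00pm_213_s3 t 31 31 1 = true := ex3_b t440_A00pm_213_s3 t408_A00pm_213_s3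

theorem t442_A00pm_213_s3 : ∃ t, chk3 f_A00pm_213_s3 t 255 247 3 = true := ex3_c k353_A00pm_213_s3 k354_A00pm_213_s3

theorem t443_A00pm_213_s3 : ∃ t, chk3 f_A00pm_213_s3 t 127 247 3 = true := ex3_a k352_A00pm_213_s3 t442_A00pm_213_s3

theorem t444_A00pm_213_s3 : ∃ t, chk3 f_A00pm_213_s3 t 127 246 3 = true := ex3_a k350_A00pm_213_s3 k351_A00pm_213_s3

theorem t445_A00pm_213_s3 : ∃ t, chk3 f_A00pm_213_s3 t 127 123 3 = true := ex3_b t444_A00pm_213_s3 t443_A00pm_213_s3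

theorem t446_A00pm_213_s3 : ∃ t, chk3 f_A00pm_213_s3 t 127 123 2 = true := ex3_b k348_A00pm_213_s3 k349_A00pm_213_s3

theorem t447_A00pm_213_s3 : ∃ t, chk3 f_A00pm_213_s3 t 127 123 1 = true := ex3_c t446_A00pm_213_s3 t445_A00pm_213_s3

theorem t448_A00pm_213_s3 : ∃ t, chk3 f_A00pm_213_s3 t 504 247 3 = true := ex3_b k344_A00pm_213_s3 k345_A00pm_213_s3

theorem t449_A00pm_213_s3 : ∃ t, chk3 f_A00pm_213_s3 t 252 247 3 = true := ex3_a t448_A00pm_213_s3 k346_A00pm_213_s3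

theorem t450_A00pm_213_s3 : ∃ t, chk3 f_A00pm_213_s3 t 126 247 3 = true := ex3_a t449_A00pm_213_s3 k347_A00pm_213_s3

theorem t451_A00pm_213_s3 : ∃ t, chk3 f_A00pm_213_s3 t 126 247 2 = true := ex3_a k342_A00pm_213_s3 k343_A00pm_213_s3

theorem t452_A00pm_213_s3 : ∃ t, chk3 f_A00pm_213_s3 t 126 247 1 = true := ex3_c t451_A00pm_213_s3 t450_A00pm_213_s3

theorem t453_A00pm_213_s3 : ∃ t, chk3 f_A00pm_213_s3 t 126 246 3 = true := ex3_a k340_A00pm_213_s3 k341_A00pm_213_s3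

theorem t454_A00pm_213_s3 : ∃ t, chk3 f_A00pm_213_s3 t 126 246 1 = true := ex3_c k339_A00pm_213_s3 t453_A00pm_213_s3

theorem t455_A00pm_213_s3 : ∃ t, chk3 f_A00pm_213_s3 t 126 123 1 = true := ex3_b t454_A00pm_213_s3 t452_A00pm_213_s3

theorem t456_A00pm_213_s3 : ∃ t, chk3 f_A00pm_213_s3 t 63 123 1 = true := ex3_a t455_A00pm_213_s3 t447_A00pm_213_s3

theorem t457_A00pm_213_s3 : ∃ t, chk3 f_A00pm_213_s3 t 255 122 1 = true := ex3_c k337_A00pm_213_s3 k338_A00pm_213_s3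

theorem t458_A00pm_213_s3 : ∃ t, chk3 f_A00pm_213_s3 t 127 122 1 = true := ex3_a k336_A00pm_213_s3 t457_A00pm_213_s3

theorem t459_A00pm_213_s3 : ∃ t, chk3 f_A00pm_213_s3 t 126 122 1 = true := ex3_b k334_A00pm_213_s3 k335_A00pm_213_s3

theorem t460_A00pm_213_s3 : ∃ t, chk3 f_A00pm_213_s3 t 63 122 1 = true := ex3_a t459_A00pm_213_s3 t458_A00pm_213_s3

theorem t461_A00pm_213_s3 : ∃ t, chk3 f_A00pm_213_s3 t 63 61 1 = true := ex3_b t460_A00pm_213_s3 t456_A00pm_213_s3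

theorem t462_A00pm_213_s3 : ∃ t, chk3 f_A00pm_213_s3 t 62 123 1 = true := ex3_b k332_A00pm_213_s3 k333_A00pm_213_s3

theorem t463_A00pm_213_s3 : ∃ t, chk3 f_A00pm_213_s3 t 125 122 3 = true := ex3_b k330_A00pm_213_s3 k331_A00pm_213_s3

theorem t464_A00pm_213_s3 : ∃ t, chk3 f_A00pm_213_s3 t 125 122 1 = true := ex3_c k329_A00pm_213_s3 t463_A00pm_213_s3

theorem t465_A00pm_213_s3 : ∃ t, chk3 f_A00pm_213_s3 t 62 122 1 = true := ex3_a k328_A00pm_213_s3 t464_A00pm_213_s3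

theorem t466_A00pm_213_s3 : ∃ t, chk3 f_A00pm_213_s3 t 62 61 1 = true := ex3_b t465_A00pm_213_s3 t462_A00pm_213_s3

theorem t467_A00pm_213_s3 : ∃ t, chk3 f_A00pm_213_s3 t 31 61 1 = true := ex3_a t466_A00pm_213_s3 t461_A00pm_213_s3

theorem t468_A00pm_213_s3 : ∃ t, chk3 f_A00pm_213_s3 t 1023 484 3 = true := ex3_b k324_A00pm_213_s3 k325_A00pm_213_s3

theorem t469_A00pm_213_s3 : ∃ t, chk3 f_A00pm_213_s3 t 1023 242 3 = true := ex3_b t468_A00pm_213_s3 k326_A00pm_213_s3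

theorem t470_A00pm_213_s3 : ∃ t, chk3 f_A00pm_213_s3 t 511 242 3 = true := ex3_a k323_A00pm_213_s3 t469_A00pm_213_s3

theorem t471_A00pm_213_s3 : ∃ t, chk3 f_A00pm_213_s3 t 511 121 3 = true := ex3_b t470_A00pm_213_s3 k327_A00pm_213_s3

theorem t472_A00pm_213_s3 : ∃ t, chk3 f_A00pm_213_s3 t 511 242 2 = true := ex3_c k320_A00pm_213_s3 k321_A00pm_213_s3

theorem t473_A00pm_213_s3 : ∃ t, chk3 f_A00pm_213_s3 t 511 121 2 = true := ex3_b t472_A00pm_213_s3 k322_A00pm_213_s3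

theorem t474_A00pm_213_s3 : ∃ t, chk3 f_A00pm_213_s3 t 511 121 1 = true := ex3_c t473_A00pm_213_s3 t471_A00pm_213_s3

theorem t475_A00pm_213_s3 : ∃ t, chk3 f_A00pm_213_s3 t 255 121 1 = true := ex3_a k319_A00pm_213_s3 t474_A00pm_213_s3

theorem t476_A00pm_213_s3 : ∃ t, chk3 f_A00pm_213_s3 t 127 121 1 = true := ex3_a k318_A00pm_213_s3 t475_A00pm_213_s3

theorem t477_A00pm_213_s3 : ∃ t, chk3 f_A00pm_213_s3 t 126 121 1 = true := ex3_c k316_A00pm_213_s3 k317_A00pm_213_s3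

theorem t478_A00pm_213_s3 : ∃ t, chk3 f_A00pm_213_s3 t 63 121 1 = true := ex3_a t477_A00pm_213_s3 t476_A00pm_213_s3

theorem t479_A00pm_213_s3 : ∃ t, chk3 f_A00pm_213_s3 t 1023 483 3 = true := ex3_b k314_A00pm_213_s3 k315_A00pm_213_s3

theorem t480_A00pm_213_s3 : ∃ t, chk3 f_A00pm_213_s3 t 511 483 3 = true := ex3_a k313_A00pm_213_s3 t479_A00pm_213_s3

theorem t481_A00pm_213_s3 : ∃ t, chk3 f_A00pm_213_s3 t 511 241 3 = true := ex3_b k312_A00pm_213_s3 t480_A00pm_213_s3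

theorem t482_A00pm_213_s3 : ∃ t, chk3 f_A00pm_213_s3 t 511 483 2 = true := ex3_b k310_A00pm_213_s3 k311_A00pm_213_s3

theorem t483_A00pm_213_s3 : ∃ t, chk3 f_A00pm_213_s3 t 511 241 2 = true := ex3_b k309_A00pm_213_s3 t482_A00pm_213_s3

theorem t484_A00pm_213_s3 : ∃ t, chk3 f_A00pm_213_s3 t 511 241 1 = true := ex3_c t483_A00pm_213_s3 t481_A00pm_213_s3

theorem t485_A00pm_213_s3 : ∃ t, chk3 f_A00pm_213_s3 t 510 241 3 = true := ex3_b k307_A00pm_213_s3 k308_A00pm_213_s3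

theorem t486_A00pm_213_s3 : ∃ t, chk3 f_A00pm_213_s3 t 510 241 1 = true := ex3_c k306_A00pm_213_s3 t485_A00pm_213_s3

theorem t487_A00pm_213_s3 : ∃ t, chk3 f_A00pm_213_s3 t 255 241 1 = true := ex3_a t486_A00pm_213_s3 t484_A00pm_213_s3

theorem t488_A00pm_213_s3 : ∃ t, chk3 f_A00pm_213_s3 t 510 240 1 = true := ex3_c k303_A00pm_213_s3 k304_A00pm_213_s3

theorem t489_A00pm_213_s3 : ∃ t, chk3 f_A00pm_213_s3 t 255 240 1 = true := ex3_a t488_A00pm_213_s3 k305_A00pm_213_s3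

theorem t490_A00pm_213_s3 : ∃ t, chk3 f_A00pm_213_s3 t 255 120 1 = true := ex3_b t489_A00pm_213_s3 t487_A00pm_213_s3

theorem t491_A00pm_213_s3 : ∃ t, chk3 f_A00pm_213_s3 t 254 241 1 = true := ex3_c k301_A00pm_213_s3 k302_A00pm_213_s3

theorem t492_A00pm_213_s3 : ∃ t, chk3 f_A00pm_213_s3 t 254 120 1 = true := ex3_b k300_A00pm_213_s3 t491_A00pm_213_s3

theorem t493_A00pm_213_s3 : ∃ t, chk3 f_A00pm_213_s3 t 127 120 1 = true := ex3_a t492_A00pm_213_s3 t490_A00pm_213_s3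

theorem t494_A00pm_213_s3 : ∃ t, chk3 f_A00pm_213_s3 t 126 241 1 = true := ex3_c k298_A00pm_213_s3 k299_A00pm_213_s3

theorem t495_A00pm_213_s3 : ∃ t, chk3 f_A00pm_213_s3 t 126 240 1 = true := ex3_c k296_A00pm_213_s3 k297_A00pm_213_s3

theorem t496_A00pm_213_s3 : ∃ t, chk3 f_A00pm_213_s3 t 126 120 1 = true := ex3_b t495_A00pm_213_s3 t494_A00pm_213_s3

theorem t497_A00pm_213_s3 : ∃ t, chk3 f_A00pm_213_s3 t 63 120 1 = true := ex3_a t496_A00pm_213_s3 t493_A00pm_213_s3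

theorem t498_A00pm_213_s3 : ∃ t, chk3 f_A00pm_213_s3 t 63 60 1 = true := ex3_b t497_A00pm_213_s3 t478_A00pm_213_s3

theorem t499_A00pm_213_s3 : ∃ t, chk3 f_A00pm_213_s3 t 125 242 3 = true := ex3_a k293_A00pm_213_s3 k294_A00pm_213_s3

theorem t500_A00pm_213_s3 : ∃ t, chk3 f_A00pm_213_s3 t 125 121 3 = true := ex3_b t499_A00pm_213_s3 k295_A00pm_213_s3

theorem t501_A00pm_213_s3 : ∃ t, chk3 f_A00pm_213_s3 t 125 121 1 = true := ex3_c k292_A00pm_213_s3 t500_A00pm_213_s3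

theorem t502_A00pm_213_s3 : ∃ t, chk3 f_A00pm_213_s3 t 62 121 1 = true := ex3_a k291_A00pm_213_s3 t501_A00pm_213_s3

theorem t503_A00pm_213_s3 : ∃ t, chk3 f_A00pm_213_s3 t 251 241 3 = true := ex3_b k289_A00pm_213_s3 k290_A00pm_213_s3

theorem t504_A00pm_213_s3 : ∃ t, chk3 f_A00pm_213_s3 t 125 241 3 = true := ex3_a k288_A00pm_213_s3 t503_A00pm_213_s3

theorem t505_A00pm_213_s3 : ∃ t, chk3 f_A00pm_213_s3 t 125 241 1 = true := ex3_c k287_A00pm_213_s3 t504_A00pm_213_s3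

theorem t506_A00pm_213_s3 : ∃ t, chk3 f_A00pm_213_s3 t 62 241 1 = true := ex3_a k286_A00pm_213_s3 t505_A00pm_213_s3

theorem t507_A00pm_213_s3 : ∃ t, chk3 f_A00pm_213_s3 t 125 240 3 = true := ex3_b k284_A00pm_213_s3 k285_A00pm_213_s3

theorem t508_A00pm_213_s3 : ∃ t, chk3 f_A00pm_213_s3 t 125 240 1 = true := ex3_c k283_A00pm_213_s3 t507_A00pm_213_s3

theorem t509_A00pm_213_s3 : ∃ t, chk3 f_A00pm_213_s3 t 62 240 1 = true := ex3_a k282_A00pm_213_s3 t508_A00pm_213_s3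

theorem t510_A00pm_213_s3 : ∃ t, chk3 f_A00pm_213_s3 t 62 120 1 = true := ex3_b t509_A00pm_213_s3 t506_A00pm_213_s3

theorem t511_A00pm_213_s3 : ∃ t, chk3 f_A00pm_213_s3 t 62 60 1 = true := ex3_b t510_A00pm_213_s3 t502_A00pm_213_s3

theorem t512_A00pm_213_s3 : ∃ t, chk3 f_A00pm_213_s3 t 31 60 1 = true := ex3_a t511_A00pm_213_s3 t498_A00pm_213_s3

theorem t513_A00pm_213_s3 : ∃ t, chk3 f_A00pm_213_s3 t 31 30 1 = true := ex3_b t512_A00pm_213_s3 t467_A00pm_213_s3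

theorem t514_A00pm_213_s3 : ∃ t, chk3 f_A00pm_213_s3 t 31 15 1 = true := ex3_b t513_A00pm_213_s3 t441_A00pm_213_s3

theorem t515_A00pm_213_s3 : ∃ t, chk3 f_A00pm_213_s3 t 61 253 1 = true := ex3_b k279_A00pm_213_s3 k280_A00pm_213_s3

theorem t516_A00pm_213_s3 : ∃ t, chk3 f_A00pm_213_s3 t 60 1015 1 = true := ex3_a k277_A00pm_213_s3 k278_A00pm_213_s3

theorem t517_A00pm_213_s3 : ∃ t, chk3 f_A00pm_213_s3 t 60 507 1 = true := ex3_b k276_A00pm_213_s3 t516_A00pm_213_s3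

theorem t518_A00pm_213_s3 : ∃ t, chk3 f_A00pm_213_s3 t 60 506 1 = true := ex3_a k274_A00pm_213_s3 k275_A00pm_213_s3

theorem t519_A00pm_213_s3 : ∃ t, chk3 f_A00pm_213_s3 t 60 253 1 = true := ex3_b t518_A00pm_213_s3 t517_A00pm_213_s3

theorem t520_A00pm_213_s3 : ∃ t, chk3 f_A00pm_213_s3 t 30 253 1 = true := ex3_a t519_A00pm_213_s3 t515_A00pm_213_s3

theorem t521_A00pm_213_s3 : ∃ t, chk3 f_A00pm_213_s3 t 120 252 1 = true := ex3_b k270_A00pm_213_s3 k271_A00pm_213_s3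

theorem t522_A00pm_213_s3 : ∃ t, chk3 f_A00pm_213_s3 t 60 252 1 = true := ex3_a t521_A00pm_213_s3 k272_A00pm_213_s3

theorem t523_A00pm_213_s3 : ∃ t, chk3 f_A00pm_213_s3 t 30 252 1 = true := ex3_a t522_A00pm_213_s3 k273_A00pm_213_s3

theorem t524_A00pm_213_s3 : ∃ t, chk3 f_A00pm_213_s3 t 30 126 1 = true := ex3_b t523_A00pm_213_s3 t520_A00pm_213_s3

theorem t525_A00pm_213_s3 : ∃ t, chk3 f_A00pm_213_s3 t 30 63 1 = true := ex3_b t524_A00pm_213_s3 k281_A00pm_213_s3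

theorem t526_A00pm_213_s3 : ∃ t, chk3 f_A00pm_213_s3 t 30 62 1 = true := ex3_b k268_A00pm_213_s3 k269_A00pm_213_s3

theorem t527_A00pm_213_s3 : ∃ t, chk3 f_A00pm_213_s3 t 30 31 1 = true := ex3_b t526_A00pm_213_s3 t525_A00pm_213_s3

theorem t528_A00pm_213_s3 : ∃ t, chk3 f_A00pm_213_s3 t 30 30 1 = true := ex3_b k266_A00pm_213_s3 k267_A00pm_213_s3

theorem t529_A00pm_213_s3 : ∃ t, chk3 f_A00pm_213_s3 t 30 15 1 = true := ex3_b t528_A00pm_213_s3 t527_A00pm_213_s3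

theorem t530_A00pm_213_s3 : ∃ t, chk3 f_A00pm_213_s3 t 15 15 1 = true := ex3_a t529_A00pm_213_s3 t514_A00pm_213_s3

theorem t531_A00pm_213_s3 : ∃ t, chk3 f_A00pm_213_s3 t 510 119 3 = true := ex3_b k263_A00pm_213_s3 k264_A00pm_213_s3

theorem t532_A00pm_213_s3 : ∃ t, chk3 f_A00pm_213_s3 t 255 119 3 = true := ex3_a t531_A00pm_213_s3 k265_A00pm_213_s3

theorem t533_A00pm_213_s3 : ∃ t, chk3 f_A00pm_213_s3 t 510 119 2 = true := ex3_b k260_A00pm_213_s3 k261_A00pm_213_s3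

theorem t534_A00pm_213_s3 : ∃ t, chk3 f_A00pm_213_s3 t 255 119 2 = true := ex3_a t533_A00pm_213_s3 k262_A00pm_213_s3

theorem t535_A00pm_213_s3 : ∃ t, chk3 f_A00pm_213_s3 t 255 119 1 = true := ex3_c t534_A00pm_213_s3 t532_A00pm_213_s3

theorem t536_A00pm_213_s3 : ∃ t, chk3 f_A00pm_213_s3 t 254 119 3 = true := ex3_b k258_A00pm_213_s3 k259_A00pm_213_s3

theorem t537_A00pm_213_s3 : ∃ t, chk3 f_A00pm_213_s3 t 254 119 1 = true := ex3_c k257_A00pm_213_s3 t536_A00pm_213_s3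

theorem t538_A00pm_213_s3 : ∃ t, chk3 f_A00pm_213_s3 t 127 119 1 = true := ex3_a t537_A00pm_213_s3 t535_A00pm_213_s3

theorem t539_A00pm_213_s3 : ∃ t, chk3 f_A00pm_213_s3 t 126 119 3 = true := ex3_b k255_A00pm_213_s3 k256_A00pm_213_s3

theorem t540_A00pm_213_s3 : ∃ t, chk3 f_A00pm_213_s3 t 126 119 1 = true := ex3_c k254_A00pm_213_s3 t539_A00pm_213_s3

theorem t541_A00pm_213_s3 : ∃ t, chk3 f_A00pm_213_s3 t 63 119 1 = true := ex3_a t540_A00pm_213_s3 t538_A00pm_213_s3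

theorem t542_A00pm_213_s3 : ∃ t, chk3 f_A00pm_213_s3 t 510 118 3 = true := ex3_b k251_A00pm_213_s3 k252_A00pm_213_s3

theorem t543_A00pm_213_s3 : ∃ t, chk3 f_A00pm_213_s3 t 255 118 3 = true := ex3_a t542_A00pm_213_s3 k253_A00pm_213_s3

theorem t544_A00pm_213_s3 : ∃ t, chk3 f_A00pm_213_s3 t 255 118 1 = true := ex3_c k250_A00pm_213_s3 t543_A00pm_213_s3

theorem t545_A00pm_213_s3 : ∃ t, chk3 f_A00pm_213_s3 t 254 118 1 = true := ex3_c k248_A00pm_213_s3 k249_A00pm_213_s3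

theorem t546_A00pm_213_s3 : ∃ t, chk3 f_A00pm_213_s3 t 127 118 1 = true := ex3_a t545_A00pm_213_s3 t544_A00pm_213_s3

theorem t547_A00pm_213_s3 : ∃ t, chk3 f_A00pm_213_s3 t 126 118 1 = true := ex3_c k246_A00pm_213_s3 k247_A00pm_213_s3

theorem t548_A00pm_213_s3 : ∃ t, chk3 f_A00pm_213_s3 t 63 118 1 = true := ex3_a t547_A00pm_213_s3 t546_A00pm_213_s3

theorem t549_A00pm_213_s3 : ∃ t, chk3 f_A00pm_213_s3 t 63 59 1 = true := ex3_b t548_A00pm_213_s3 t541_A00pm_213_s3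

theorem t550_A00pm_213_s3 : ∃ t, chk3 f_A00pm_213_s3 t 125 239 3 = true := ex3_a k244_A00pm_213_s3 k245_A00pm_213_s3

theorem t551_A00pm_213_s3 : ∃ t, chk3 f_A00pm_213_s3 t 125 238 3 = true := ex3_a k242_A00pm_213_s3 k243_A00pm_213_s3

theorem t552_A00pm_213_s3 : ∃ t, chk3 f_A00pm_213_s3 t 125 119 3 = true := ex3_b t551_A00pm_213_s3 t550_A00pm_213_s3

theorem t553_A00pm_213_s3 : ∃ t, chk3 f_A00pm_213_s3 t 62 119 3 = true := ex3_a k241_A00pm_213_s3 t552_A00pm_213_s3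

theorem t554_A00pm_213_s3 : ∃ t, chk3 f_A00pm_213_s3 t 125 119 2 = true := ex3_b k239_A00pm_213_s3 k240_A00pm_213_s3

theorem t555_A00pm_213_s3 : ∃ t, chk3 f_A00pm_213_s3 t 62 119 2 = true := ex3_a k238_A00pm_213_s3 t554_A00pm_213_s3

theorem t556_A00pm_213_s3 : ∃ t, chk3 f_A00pm_213_s3 t 62 119 1 = true := ex3_c t555_A00pm_213_s3 t553_A00pm_213_s3

theorem t557_A00pm_213_s3 : ∃ t, chk3 f_A00pm_213_s3 t 62 237 3 = true := ex3_a k236_A00pm_213_s3 k237_A00pm_213_s3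

theorem t558_A00pm_213_s3 : ∃ t, chk3 f_A00pm_213_s3 t 62 118 3 = true := ex3_b k235_A00pm_213_s3 t557_A00pm_213_s3

theorem t559_A00pm_213_s3 : ∃ t, chk3 f_A00pm_213_s3 t 62 118 2 = true := ex3_c k233_A00pm_213_s3 k234_A00pm_213_s3

theorem t560_A00pm_213_s3 : ∃ t, chk3 f_A00pm_213_s3 t 62 118 1 = true := ex3_c t559_A00pm_213_s3 t558_A00pm_213_s3

theorem t561_A00pm_213_s3 : ∃ t, chk3 f_A00pm_213_s3 t 62 59 1 = true := ex3_b t560_A00pm_213_s3 t556_A00pm_213_s3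

theorem t562_A00pm_213_s3 : ∃ t, chk3 f_A00pm_213_s3 t 31 59 1 = true := ex3_a t561_A00pm_213_s3 t549_A00pm_213_s3

theorem t563_A00pm_213_s3 : ∃ t, chk3 f_A00pm_213_s3 t 15 59 1 = true := ex3_a k232_A00pm_213_s3 t562_A00pm_213_s3

theorem t564_A00pm_213_s3 : ∃ t, chk3 f_A00pm_213_s3 t 510 117 1 = true := ex3_c k229_A00pm_213_s3 k230_A00pm_213_s3

theorem t565_A00pm_213_s3 : ∃ t, chk3 f_A00pm_213_s3 t 255 117 1 = true := ex3_a t564_A00pm_213_s3 k231_A00pm_213_s3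

theorem t566_A00pm_213_s3 : ∃ t, chk3 f_A00pm_213_s3 t 254 117 1 = true := ex3_c k227_A00pm_213_s3 k228_A00pm_213_s3

theorem t567_A00pm_213_s3 : ∃ t, chk3 f_A00pm_213_s3 t 127 117 1 = true := ex3_a t566_A00pm_213_s3 t565_A00pm_213_s3

theorem t568_A00pm_213_s3 : ∃ t, chk3 f_A00pm_213_s3 t 510 116 1 = true := ex3_c k224_A00pm_213_s3 k225_A00pm_213_s3

theorem t569_A00pm_213_s3 : ∃ t, chk3 f_A00pm_213_s3 t 255 116 1 = true := ex3_a t568_A00pm_213_s3 k226_A00pm_213_s3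

theorem t570_A00pm_213_s3 : ∃ t, chk3 f_A00pm_213_s3 t 127 116 1 = true := ex3_a k223_A00pm_213_s3 t569_A00pm_213_s3

theorem t571_A00pm_213_s3 : ∃ t, chk3 f_A00pm_213_s3 t 127 58 1 = true := ex3_b t570_A00pm_213_s3 t567_A00pm_213_s3

theorem t572_A00pm_213_s3 : ∃ t, chk3 f_A00pm_213_s3 t 126 117 1 = true := ex3_c k221_A00pm_213_s3 k222_A00pm_213_s3

theorem t573_A00pm_213_s3 : ∃ t, chk3 f_A00pm_213_s3 t 126 58 1 = true := ex3_b k220_A00pm_213_s3 t572_A00pm_213_s3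

theorem t574_A00pm_213_s3 : ∃ t, chk3 f_A00pm_213_s3 t 63 58 1 = true := ex3_a t573_A00pm_213_s3 t571_A00pm_213_s3

theorem t575_A00pm_213_s3 : ∃ t, chk3 f_A00pm_213_s3 t 125 117 2 = true := ex3_b k217_A00pm_213_s3 k218_A00pm_213_s3

theorem t576_A00pm_213_s3 : ∃ t, chk3 f_A00pm_213_s3 t 62 117 2 = true := ex3_a k216_A00pm_213_s3 t575_A00pm_213_s3

theorem t577_A00pm_213_s3 : ∃ t, chk3 f_A00pm_213_s3 t 62 117 1 = true := ex3_c t576_A00pm_213_s3 k219_A00pm_213_s3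

theorem t578_A00pm_213_s3 : ∃ t, chk3 f_A00pm_213_s3 t 62 116 2 = true := ex3_a k213_A00pm_213_s3 k214_A00pm_213_s3

theorem t579_A00pm_213_s3 : ∃ t, chk3 f_A00pm_213_s3 t 62 116 1 = true := ex3_c t578_A00pm_213_s3 k215_A00pm_213_s3

theorem t580_A00pm_213_s3 : ∃ t, chk3 f_A00pm_213_s3 t 62 58 1 = true := ex3_b t579_A00pm_213_s3 t577_A00pm_213_s3

theorem t581_A00pm_213_s3 : ∃ t, chk3 f_A00pm_213_s3 t 31 58 1 = true := ex3_a t580_A00pm_213_s3 t574_A00pm_213_s3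

theorem t582_A00pm_213_s3 : ∃ t, chk3 f_A00pm_213_s3 t 15 58 1 = true := ex3_a k212_A00pm_213_s3 t581_A00pm_213_s3

theorem t583_A00pm_213_s3 : ∃ t, chk3 f_A00pm_213_s3 t 15 29 1 = true := ex3_b t582_A00pm_213_s3 t563_A00pm_213_s3

theorem t584_A00pm_213_s3 : ∃ t, chk3 f_A00pm_213_s3 t 127 57 1 = true := ex3_a k210_A00pm_213_s3 k211_A00pm_213_s3

theorem t585_A00pm_213_s3 : ∃ t, chk3 f_A00pm_213_s3 t 63 57 1 = true := ex3_a k209_A00pm_213_s3 t584_A00pm_213_s3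

theorem t586_A00pm_213_s3 : ∃ t, chk3 f_A00pm_213_s3 t 62 57 2 = true := ex3_b k206_A00pm_213_s3 k207_A00pm_213_s3

theorem t587_A00pm_213_s3 : ∃ t, chk3 f_A00pm_213_s3 t 62 57 1 = true := ex3_c t586_A00pm_213_s3 k208_A00pm_213_s3

theorem t588_A00pm_213_s3 : ∃ t, chk3 f_A00pm_213_s3 t 31 57 1 = true := ex3_a t587_A00pm_213_s3 t585_A00pm_213_s3

theorem t589_A00pm_213_s3 : ∃ t, chk3 f_A00pm_213_s3 t 31 28 1 = true := ex3_b k205_A00pm_213_s3 t588_A00pm_213_s3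

theorem t590_A00pm_213_s3 : ∃ t, chk3 f_A00pm_213_s3 t 15 28 1 = true := ex3_a k204_A00pm_213_s3 t589_A00pm_213_s3

theorem t591_A00pm_213_s3 : ∃ t, chk3 f_A00pm_213_s3 t 15 14 1 = true := ex3_b t590_A00pm_213_s3 t583_A00pm_213_s3

theorem t592_A00pm_213_s3 : ∃ t, chk3 f_A00pm_213_s3 t 15 7 1 = true := ex3_b t591_A00pm_213_s3 t530_A00pm_213_s3

theorem t593_A00pm_213_s3 : ∃ t, chk3 f_A00pm_213_s3 t 119 508 3 = true := ex3_a k200_A00pm_213_s3 k201_A00pm_213_s3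

theorem t594_A00pm_213_s3 : ∃ t, chk3 f_A00pm_213_s3 t 119 254 3 = true := ex3_b t593_A00pm_213_s3 k202_A00pm_213_s3

theorem t595_A00pm_213_s3 : ∃ t, chk3 f_A00pm_213_s3 t 119 127 3 = true := ex3_b t594_A00pm_213_s3 k203_A00pm_213_s3

theorem t596_A00pm_213_s3 : ∃ t, chk3 f_A00pm_213_s3 t 119 508 2 = true := ex3_a k196_A00pm_213_s3 k197_A00pm_213_s3

theorem t597_A00pm_213_s3 : ∃ t, chk3 f_A00pm_213_s3 t 119 254 2 = true := ex3_b t596_A00pm_213_s3 k198_A00pm_213_s3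

theorem t598_A00pm_213_s3 : ∃ t, chk3 f_A00pm_213_s3 t 119 127 2 = true := ex3_b t597_A00pm_213_s3 k199_A00pm_213_s3

theorem t599_A00pm_213_s3 : ∃ t, chk3 f_A00pm_213_s3 t 119 127 1 = true := ex3_c t598_A00pm_213_s3 t595_A00pm_213_s3

theorem t600_A00pm_213_s3 : ∃ t, chk3 f_A00pm_213_s3 t 237 508 3 = true := ex3_a k192_A00pm_213_s3 k193_A00pm_213_s3

theorem t601_A00pm_213_s3 : ∃ t, chk3 f_A00pm_213_s3 t 237 254 3 = true := ex3_b t600_A00pm_213_s3 k194_A00pm_213_s3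

theorem t602_A00pm_213_s3 : ∃ t, chk3 f_A00pm_213_s3 t 237 127 3 = true := ex3_b t601_A00pm_213_s3 k195_A00pm_213_s3

theorem t603_A00pm_213_s3 : ∃ t, chk3 f_A00pm_213_s3 t 236 1016 3 = true := ex3_a k187_A00pm_213_s3 k188_A00pm_213_s3

theorem t604_A00pm_213_s3 : ∃ t, chk3 f_A00pm_213_s3 t 236 508 3 = true := ex3_b t603_A00pm_213_s3 k189_A00pm_213_s3

theorem t605_A00pm_213_s3 : ∃ t, chk3 f_A00pm_213_s3 t 236 254 3 = true := ex3_b t604_A00pm_213_s3 k190_A00pm_213_s3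

theorem t606_A00pm_213_s3 : ∃ t, chk3 f_A00pm_213_s3 t 236 127 3 = true := ex3_b t605_A00pm_213_s3 k191_A00pm_213_s3

theorem t607_A00pm_213_s3 : ∃ t, chk3 f_A00pm_213_s3 t 118 127 3 = true := ex3_a t606_A00pm_213_s3 t602_A00pm_213_s3

theorem t608_A00pm_213_s3 : ∃ t, chk3 f_A00pm_213_s3 t 118 508 2 = true := ex3_a k183_A00pm_213_s3 k184_A00pm_213_s3

theorem t609_A00pm_213_s3 : ∃ t, chk3 f_A00pm_213_s3 t 118 254 2 = true := ex3_b t608_A00pm_213_s3 k185_A00pm_213_s3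

theorem t610_A00pm_213_s3 : ∃ t, chk3 f_A00pm_213_s3 t 118 127 2 = true := ex3_b t609_A00pm_213_s3 k186_A00pm_213_s3

theorem t611_A00pm_213_s3 : ∃ t, chk3 f_A00pm_213_s3 t 118 127 1 = true := ex3_c t610_A00pm_213_s3 t607_A00pm_213_s3

theorem t612_A00pm_213_s3 : ∃ t, chk3 f_A00pm_213_s3 t 59 127 1 = true := ex3_a t611_A00pm_213_s3 t599_A00pm_213_s3

theorem t613_A00pm_213_s3 : ∃ t, chk3 f_A00pm_213_s3 t 29 127 1 = true := ex3_a k182_A00pm_213_s3 t612_A00pm_213_s3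

theorem t614_A00pm_213_s3 : ∃ t, chk3 f_A00pm_213_s3 t 238 507 1 = true := ex3_b k179_A00pm_213_s3 k180_A00pm_213_s3

theorem t615_A00pm_213_s3 : ∃ t, chk3 f_A00pm_213_s3 t 119 507 1 = true := ex3_a t614_A00pm_213_s3 k181_A00pm_213_s3

theorem t616_A00pm_213_s3 : ∃ t, chk3 f_A00pm_213_s3 t 119 253 1 = true := ex3_b k178_A00pm_213_s3 t615_A00pm_213_s3

theorem t617_A00pm_213_s3 : ∃ t, chk3 f_A00pm_213_s3 t 237 1015 1 = true := ex3_c k176_A00pm_213_s3 k177_A00pm_213_s3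

theorem t618_A00pm_213_s3 : ∃ t, chk3 f_A00pm_213_s3 t 237 507 1 = true := ex3_b k175_A00pm_213_s3 t617_A00pm_213_s3

theorem t619_A00pm_213_s3 : ∃ t, chk3 f_A00pm_213_s3 t 472 1015 3 = true := ex3_b k172_A00pm_213_s3 k173_A00pm_213_s3

theorem t620_A00pm_213_s3 : ∃ t, chk3 f_A00pm_213_s3 t 236 1015 3 = true := ex3_a t619_A00pm_213_s3 k174_A00pm_213_s3

theorem t621_A00pm_213_s3 : ∃ t, chk3 f_A00pm_213_s3 t 236 1015 2 = true := ex3_b k170_A00pm_213_s3 k171_A00pm_213_s3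

theorem t622_A00pm_213_s3 : ∃ t, chk3 f_A00pm_213_s3 t 236 1015 1 = true := ex3_c t621_A00pm_213_s3 t620_A00pm_213_s3

theorem t623_A00pm_213_s3 : ∃ t, chk3 f_A00pm_213_s3 t 236 507 1 = true := ex3_b k169_A00pm_213_s3 t622_A00pm_213_s3

theorem t624_A00pm_213_s3 : ∃ t, chk3 f_A00pm_213_s3 t 118 507 1 = true := ex3_a t623_A00pm_213_s3 t618_A00pm_213_s3

theorem t625_A00pm_213_s3 : ∃ t, chk3 f_A00pm_213_s3 t 118 506 1 = true := ex3_a k167_A00pm_213_s3 k168_A00pm_213_s3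

theorem t626_A00pm_213_s3 : ∃ t, chk3 f_A00pm_213_s3 t 118 253 1 = true := ex3_b t625_A00pm_213_s3 t624_A00pm_213_s3

theorem t627_A00pm_213_s3 : ∃ t, chk3 f_A00pm_213_s3 t 59 253 1 = true := ex3_a t626_A00pm_213_s3 t616_A00pm_213_s3

theorem t628_A00pm_213_s3 : ∃ t, chk3 f_A00pm_213_s3 t 59 252 1 = true := ex3_b k165_A00pm_213_s3 k166_A00pm_213_s3

theorem t629_A00pm_213_s3 : ∃ t, chk3 f_A00pm_213_s3 t 59 126 1 = true := ex3_b t628_A00pm_213_s3 t627_A00pm_213_s3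

theorem t630_A00pm_213_s3 : ∃ t, chk3 f_A00pm_213_s3 t 471 2031 3 = true := ex3_b k163_A00pm_213_s3 k164_A00pm_213_s3

theorem t631_A00pm_213_s3 : ∃ t, chk3 f_A00pm_213_s3 t 471 1015 3 = true := ex3_b k162_A00pm_213_s3 t630_A00pm_213_s3

theorem t632_A00pm_213_s3 : ∃ t, chk3 f_A00pm_213_s3 t 235 1015 3 = true := ex3_a k161_A00pm_213_s3 t631_A00pm_213_s3

theorem t633_A00pm_213_s3 : ∃ t, chk3 f_A00pm_213_s3 t 235 1015 2 = true := ex3_b k159_A00pm_213_s3 k160_A00pm_213_s3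

theorem t634_A00pm_213_s3 : ∃ t, chk3 f_A00pm_213_s3 t 235 1015 1 = true := ex3_c t633_A00pm_213_s3 t632_A00pm_213_s3

theorem t635_A00pm_213_s3 : ∃ t, chk3 f_A00pm_213_s3 t 235 507 1 = true := ex3_b k158_A00pm_213_s3 t634_A00pm_213_s3

theorem t636_A00pm_213_s3 : ∃ t, chk3 f_A00pm_213_s3 t 234 507 1 = true := ex3_a k156_A00pm_213_s3 k157_A00pm_213_s3

theorem t637_A00pm_213_s3 : ∃ t, chk3 f_A00pm_213_s3 t 117 507 1 = true := ex3_a t636_A00pm_213_s3 t635_A00pm_213_s3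

theorem t638_A00pm_213_s3 : ∃ t, chk3 f_A00pm_213_s3 t 117 506 1 = true := ex3_a k154_A00pm_213_s3 k155_A00pm_213_s3

theorem t639_A00pm_213_s3 : ∃ t, chk3 f_A00pm_213_s3 t 117 253 1 = true := ex3_b t638_A00pm_213_s3 t637_A00pm_213_s3

theorem t640_A00pm_213_s3 : ∃ t, chk3 f_A00pm_213_s3 t 233 506 1 = true := ex3_c k151_A00pm_213_s3 k152_A00pm_213_s3

theorem t641_A00pm_213_s3 : ∃ t, chk3 f_A00pm_213_s3 t 232 506 1 = true := ex3_b k149_A00pm_213_s3 k150_A00pm_213_s3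

theorem t642_A00pm_213_s3 : ∃ t, chk3 f_A00pm_213_s3 t 116 506 1 = true := ex3_a t641_A00pm_213_s3 t640_A00pm_213_s3

theorem t643_A00pm_213_s3 : ∃ t, chk3 f_A00pm_213_s3 t 116 253 1 = true := ex3_b t642_A00pm_213_s3 k153_A00pm_213_s3

theorem t644_A00pm_213_s3 : ∃ t, chk3 f_A00pm_213_s3 t 58 253 1 = true := ex3_a t643_A00pm_213_s3 t639_A00pm_213_s3

theorem t645_A00pm_213_s3 : ∃ t, chk3 f_A00pm_213_s3 t 117 252 1 = true := ex3_b k147_A00pm_213_s3 k148_A00pm_213_s3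

theorem t646_A00pm_213_s3 : ∃ t, chk3 f_A00pm_213_s3 t 116 505 1 = true := ex3_a k145_A00pm_213_s3 k146_A00pm_213_s3

theorem t647_A00pm_213_s3 : ∃ t, chk3 f_A00pm_213_s3 t 116 252 1 = true := ex3_b k144_A00pm_213_s3 t646_A00pm_213_s3

theorem t648_A00pm_213_s3 : ∃ t, chk3 f_A00pm_213_s3 t 58 252 1 = true := ex3_a t647_A00pm_213_s3 t645_A00pm_213_s3

theorem t649_A00pm_213_s3 : ∃ t, chk3 f_A00pm_213_s3 t 58 126 1 = true := ex3_b t648_A00pm_213_s3 t644_A00pm_213_s3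

theorem t650_A00pm_213_s3 : ∃ t, chk3 f_A00pm_213_s3 t 29 126 1 = true := ex3_a t649_A00pm_213_s3 t629_A00pm_213_s3

theorem t651_A00pm_213_s3 : ∃ t, chk3 f_A00pm_213_s3 t 29 63 1 = true := ex3_b t650_A00pm_213_s3 t613_A00pm_213_s3

theorem t652_A00pm_213_s3 : ∃ t, chk3 f_A00pm_213_s3 t 59 251 1 = true := ex3_a k142_A00pm_213_s3 k143_A00pm_213_s3

theorem t653_A00pm_213_s3 : ∃ t, chk3 f_A00pm_213_s3 t 118 250 1 = true := ex3_c k139_A00pm_213_s3 k140_A00pm_213_s3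

theorem t654_A00pm_213_s3 : ∃ t, chk3 f_A00pm_213_s3 t 59 250 1 = true := ex3_a t653_A00pm_213_s3 k141_A00pm_213_s3

theorem t655_A00pm_213_s3 : ∃ t, chk3 f_A00pm_213_s3 t 59 125 1 = true := ex3_b t654_A00pm_213_s3 t652_A00pm_213_s3

theorem t656_A00pm_213_s3 : ∃ t, chk3 f_A00pm_213_s3 t 58 125 1 = true := ex3_b k137_A00pm_213_s3 k138_A00pm_213_s3

theorem t657_A00pm_213_s3 : ∃ t, chk3 f_A00pm_213_s3 t 29 125 1 = true := ex3_a t656_A00pm_213_s3 t655_A00pm_213_s3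

theorem t658_A00pm_213_s3 : ∃ t, chk3 f_A00pm_213_s3 t 58 498 1 = true := ex3_c k133_A00pm_213_s3 k134_A00pm_213_s3

theorem t659_A00pm_213_s3 : ∃ t, chk3 f_A00pm_213_s3 t 58 249 1 = true := ex3_b t658_A00pm_213_s3 k135_A00pm_213_s3

theorem t660_A00pm_213_s3 : ∃ t, chk3 f_A00pm_213_s3 t 117 248 1 = true := ex3_b k131_A00pm_213_s3 k132_A00pm_213_s3

theorem t661_A00pm_213_s3 : ∃ t, chk3 f_A00pm_213_s3 t 116 496 3 = true := ex3_b k128_A00pm_213_s3 k129_A00pm_213_s3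

theorem t662_A00pm_213_s3 : ∃ t, chk3 f_A00pm_213_s3 t 116 248 3 = true := ex3_b t661_A00pm_213_s3 k130_A00pm_213_s3

theorem t663_A00pm_213_s3 : ∃ t, chk3 f_A00pm_213_s3 t 116 248 2 = true := ex3_a k126_A00pm_213_s3 k127_A00pm_213_s3

theorem t664_A00pm_213_s3 : ∃ t, chk3 f_A00pm_213_s3 t 116 248 1 = true := ex3_c t663_A00pm_213_s3 t662_A00pm_213_s3

theorem t665_A00pm_213_s3 : ∃ t, chk3 f_A00pm_213_s3 t 58 248 1 = true := ex3_a t664_A00pm_213_s3 t660_A00pm_213_s3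

theorem t666_A00pm_213_s3 : ∃ t, chk3 f_A00pm_213_s3 t 58 124 1 = true := ex3_b t665_A00pm_213_s3 t659_A00pm_213_s3

theorem t667_A00pm_213_s3 : ∃ t, chk3 f_A00pm_213_s3 t 29 124 1 = true := ex3_a t666_A00pm_213_s3 k136_A00pm_213_s3

theorem t668_A00pm_213_s3 : ∃ t, chk3 f_A00pm_213_s3 t 29 62 1 = true := ex3_b t667_A00pm_213_s3 t657_A00pm_213_s3

theorem t669_A00pm_213_s3 : ∃ t, chk3 f_A00pm_213_s3 t 29 31 1 = true := ex3_b t668_A00pm_213_s3 t651_A00pm_213_s3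

theorem t670_A00pm_213_s3 : ∃ t, chk3 f_A00pm_213_s3 t 232 495 1 = true := ex3_b k121_A00pm_213_s3 k122_A00pm_213_s3

theorem t671_A00pm_213_s3 : ∃ t, chk3 f_A00pm_213_s3 t 116 495 1 = true := ex3_a t670_A00pm_213_s3 k123_A00pm_213_s3

theorem t672_A00pm_213_s3 : ∃ t, chk3 f_A00pm_213_s3 t 116 247 1 = true := ex3_b k120_A00pm_213_s3 t671_A00pm_213_s3

theorem t673_A00pm_213_s3 : ∃ t, chk3 f_A00pm_213_s3 t 58 247 1 = true := ex3_a t672_A00pm_213_s3 k124_A00pm_213_s3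

theorem t674_A00pm_213_s3 : ∃ t, chk3 f_A00pm_213_s3 t 58 123 1 = true := ex3_b k119_A00pm_213_s3 t673_A00pm_213_s3

theorem t675_A00pm_213_s3 : ∃ t, chk3 f_A00pm_213_s3 t 29 123 1 = true := ex3_a t674_A00pm_213_s3 k125_A00pm_213_s3

theorem t676_A00pm_213_s3 : ∃ t, chk3 f_A00pm_213_s3 t 29 61 1 = true := ex3_b k118_A00pm_213_s3 t675_A00pm_213_s3

theorem t677_A00pm_213_s3 : ∃ t, chk3 f_A00pm_213_s3 t 29 30 1 = true := ex3_b k117_A00pm_213_s3 t676_A00pm_213_s3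

theorem t678_A00pm_213_s3 : ∃ t, chk3 f_A00pm_213_s3 t 29 15 1 = true := ex3_b t677_A00pm_213_s3 t669_A00pm_213_s3

theorem t679_A00pm_213_s3 : ∃ t, chk3 f_A00pm_213_s3 t 231 505 1 = true := ex3_c k113_A00pm_213_s3 k114_A00pm_213_s3

theorem t680_A00pm_213_s3 : ∃ t, chk3 f_A00pm_213_s3 t 230 505 1 = true := ex3_b k111_A00pm_213_s3 k112_A00pm_213_s3

theorem t681_A00pm_213_s3 : ∃ t, chk3 f_A00pm_213_s3 t 115 505 1 = true := ex3_a t680_A00pm_213_s3 t679_A00pm_213_s3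

theorem t682_A00pm_213_s3 : ∃ t, chk3 f_A00pm_213_s3 t 115 252 1 = true := ex3_b k110_A00pm_213_s3 t681_A00pm_213_s3

theorem t683_A00pm_213_s3 : ∃ t, chk3 f_A00pm_213_s3 t 114 504 1 = true := ex3_b k107_A00pm_213_s3 k108_A00pm_213_s3

theorem t684_A00pm_213_s3 : ∃ t, chk3 f_A00pm_213_s3 t 114 252 1 = true := ex3_b t683_A00pm_213_s3 k109_A00pm_213_s3

theorem t685_A00pm_213_s3 : ∃ t, chk3 f_A00pm_213_s3 t 57 252 1 = true := ex3_a t684_A00pm_213_s3 t682_A00pm_213_s3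

theorem t686_A00pm_213_s3 : ∃ t, chk3 f_A00pm_213_s3 t 28 252 1 = true := ex3_a k106_A00pm_213_s3 t685_A00pm_213_s3

theorem t687_A00pm_213_s3 : ∃ t, chk3 f_A00pm_213_s3 t 28 126 1 = true := ex3_b t686_A00pm_213_s3 k115_A00pm_213_s3

theorem t688_A00pm_213_s3 : ∃ t, chk3 f_A00pm_213_s3 t 28 63 1 = true := ex3_b t687_A00pm_213_s3 k116_A00pm_213_s3

theorem t689_A00pm_213_s3 : ∃ t, chk3 f_A00pm_213_s3 t 114 251 1 = true := ex3_b k103_A00pm_213_s3 k104_A00pm_213_s3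

theorem t690_A00pm_213_s3 : ∃ t, chk3 f_A00pm_213_s3 t 57 251 1 = true := ex3_a t689_A00pm_213_s3 k105_A00pm_213_s3

theorem t691_A00pm_213_s3 : ∃ t, chk3 f_A00pm_213_s3 t 57 125 1 = true := ex3_b k102_A00pm_213_s3 t690_A00pm_213_s3

theorem t692_A00pm_213_s3 : ∃ t, chk3 f_A00pm_213_s3 t 113 503 1 = true := ex3_b k100_A00pm_213_s3 k101_A00pm_213_s3

theorem t693_A00pm_213_s3 : ∃ t, chk3 f_A00pm_213_s3 t 113 251 1 = true := ex3_b k99_A00pm_213_s3 t692_A00pm_213_s3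

theorem t694_A00pm_213_s3 : ∃ t, chk3 f_A00pm_213_s3 t 112 502 1 = true := ex3_b k96_A00pm_213_s3 k97_A00pm_213_s3

theorem t695_A00pm_213_s3 : ∃ t, chk3 f_A00pm_213_s3 t 112 251 1 = true := ex3_b t694_A00pm_213_s3 k98_A00pm_213_s3

theorem t696_A00pm_213_s3 : ∃ t, chk3 f_A00pm_213_s3 t 56 251 1 = true := ex3_a t695_A00pm_213_s3 t693_A00pm_213_s3

theorem t697_A00pm_213_s3 : ∃ t, chk3 f_A00pm_213_s3 t 56 250 1 = true := ex3_a k94_A00pm_213_s3 k95_A00pm_213_s3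

theorem t698_A00pm_213_s3 : ∃ t, chk3 f_A00pm_213_s3 t 56 125 1 = true := ex3_b t697_A00pm_213_s3 t696_A00pm_213_s3

theorem t699_A00pm_213_s3 : ∃ t, chk3 f_A00pm_213_s3 t 28 125 1 = true := ex3_a t698_A00pm_213_s3 t691_A00pm_213_s3

theorem t700_A00pm_213_s3 : ∃ t, chk3 f_A00pm_213_s3 t 28 124 1 = true := ex3_a k92_A00pm_213_s3 k93_A00pm_213_s3

theorem t701_A00pm_213_s3 : ∃ t, chk3 f_A00pm_213_s3 t 28 62 1 = true := ex3_b t700_A00pm_213_s3 t699_A00pm_213_s3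

theorem t702_A00pm_213_s3 : ∃ t, chk3 f_A00pm_213_s3 t 28 31 1 = true := ex3_b t701_A00pm_213_s3 t688_A00pm_213_s3

theorem t703_A00pm_213_s3 : ∃ t, chk3 f_A00pm_213_s3 t 57 247 1 = true := ex3_b k90_A00pm_213_s3 k91_A00pm_213_s3

theorem t704_A00pm_213_s3 : ∃ t, chk3 f_A00pm_213_s3 t 28 247 1 = true := ex3_a k89_A00pm_213_s3 t703_A00pm_213_s3

theorem t705_A00pm_213_s3 : ∃ t, chk3 f_A00pm_213_s3 t 115 246 1 = true := ex3_b k87_A00pm_213_s3 k88_A00pm_213_s3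

theorem t706_A00pm_213_s3 : ∃ t, chk3 f_A00pm_213_s3 t 57 246 1 = true := ex3_a k86_A00pm_213_s3 t705_A00pm_213_s3

theorem t707_A00pm_213_s3 : ∃ t, chk3 f_A00pm_213_s3 t 28 246 1 = true := ex3_a k85_A00pm_213_s3 t706_A00pm_213_s3

theorem t708_A00pm_213_s3 : ∃ t, chk3 f_A00pm_213_s3 t 28 123 1 = true := ex3_b t707_A00pm_213_s3 t704_A00pm_213_s3

theorem t709_A00pm_213_s3 : ∃ t, chk3 f_A00pm_213_s3 t 114 245 1 = true := ex3_b k82_A00pm_213_s3 k83_A00pm_213_s3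

theorem t710_A00pm_213_s3 : ∃ t, chk3 f_A00pm_213_s3 t 57 245 1 = true := ex3_a t709_A00pm_213_s3 k84_A00pm_213_s3

theorem t711_A00pm_213_s3 : ∃ t, chk3 f_A00pm_213_s3 t 57 122 1 = true := ex3_b k81_A00pm_213_s3 t710_A00pm_213_s3

theorem t712_A00pm_213_s3 : ∃ t, chk3 f_A00pm_213_s3 t 28 122 1 = true := ex3_a k80_A00pm_213_s3 t711_A00pm_213_s3

theorem t713_A00pm_213_s3 : ∃ t, chk3 f_A00pm_213_s3 t 28 61 1 = true := ex3_b t712_A00pm_213_s3 t708_A00pm_213_s3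

theorem t714_A00pm_213_s3 : ∃ t, chk3 f_A00pm_213_s3 t 113 243 1 = true := ex3_c k77_A00pm_213_s3 k78_A00pm_213_s3

theorem t715_A00pm_213_s3 : ∃ t, chk3 f_A00pm_213_s3 t 56 243 1 = true := ex3_a k76_A00pm_213_s3 t714_A00pm_213_s3

theorem t716_A00pm_213_s3 : ∃ t, chk3 f_A00pm_213_s3 t 112 242 1 = true := ex3_a k73_A00pm_213_s3 k74_A00pm_213_s3

theorem t717_A00pm_213_s3 : ∃ t, chk3 f_A00pm_213_s3 t 56 242 1 = true := ex3_a t716_A00pm_213_s3 k75_A00pm_213_s3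

theorem t718_A00pm_213_s3 : ∃ t, chk3 f_A00pm_213_s3 t 56 121 1 = true := ex3_b t717_A00pm_213_s3 t715_A00pm_213_s3

theorem t719_A00pm_213_s3 : ∃ t, chk3 f_A00pm_213_s3 t 28 121 1 = true := ex3_a t718_A00pm_213_s3 k79_A00pm_213_s3

theorem t720_A00pm_213_s3 : ∃ t, chk3 f_A00pm_213_s3 t 112 241 1 = true := ex3_b k69_A00pm_213_s3 k70_A00pm_213_s3

theorem t721_A00pm_213_s3 : ∃ t, chk3 f_A00pm_213_s3 t 56 241 1 = true := ex3_a t720_A00pm_213_s3 k71_A00pm_213_s3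

theorem t722_A00pm_213_s3 : ∃ t, chk3 f_A00pm_213_s3 t 56 120 1 = true := ex3_b k68_A00pm_213_s3 t721_A00pm_213_s3

theorem t723_A00pm_213_s3 : ∃ t, chk3 f_A00pm_213_s3 t 28 120 1 = true := ex3_a t722_A00pm_213_s3 k72_A00pm_213_s3

theorem t724_A00pm_213_s3 : ∃ t, chk3 f_A00pm_213_s3 t 28 60 1 = true := ex3_b t723_A00pm_213_s3 t719_A00pm_213_s3

theorem t725_A00pm_213_s3 : ∃ t, chk3 f_A00pm_213_s3 t 28 30 1 = true := ex3_b t724_A00pm_213_s3 t713_A00pm_213_s3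

theorem t726_A00pm_213_s3 : ∃ t, chk3 f_A00pm_213_s3 t 28 15 1 = true := ex3_b t725_A00pm_213_s3 t702_A00pm_213_s3

theorem t727_A00pm_213_s3 : ∃ t, chk3 f_A00pm_213_s3 t 14 15 1 = true := ex3_a t726_A00pm_213_s3 t678_A00pm_213_s3

theorem t728_A00pm_213_s3 : ∃ t, chk3 f_A00pm_213_s3 t 14 14 1 = true := ex3_b k66_A00pm_213_s3 k67_A00pm_213_s3

theorem t729_A00pm_213_s3 : ∃ t, chk3 f_A00pm_213_s3 t 14 7 1 = true := ex3_b t728_A00pm_213_s3 t727_A00pm_213_s3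

theorem t730_A00pm_213_s3 : ∃ t, chk3 f_A00pm_213_s3 t 7 7 1 = true := ex3_a t729_A00pm_213_s3 t592_A00pm_213_s3

theorem t731_A00pm_213_s3 : ∃ t, chk3 f_A00pm_213_s3 t 7 3 1 = true := ex3_b k65_A00pm_213_s3 t730_A00pm_213_s3

theorem t732_A00pm_213_s3 : ∃ t, chk3 f_A00pm_213_s3 t 111 501 1 = true := ex3_a k61_A00pm_213_s3 k62_A00pm_213_s3

theorem t733_A00pm_213_s3 : ∃ t, chk3 f_A00pm_213_s3 t 111 250 1 = true := ex3_b k60_A00pm_213_s3 t732_A00pm_213_s3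

theorem t734_A00pm_213_s3 : ∃ t, chk3 f_A00pm_213_s3 t 55 250 1 = true := ex3_a k59_A00pm_213_s3 t733_A00pm_213_s3

theorem t735_A00pm_213_s3 : ∃ t, chk3 f_A00pm_213_s3 t 55 125 1 = true := ex3_b t734_A00pm_213_s3 k63_A00pm_213_s3

theorem t736_A00pm_213_s3 : ∃ t, chk3 f_A00pm_213_s3 t 27 125 1 = true := ex3_a k58_A00pm_213_s3 t735_A00pm_213_s3

theorem t737_A00pm_213_s3 : ∃ t, chk3 f_A00pm_213_s3 t 55 249 1 = true := ex3_a k56_A00pm_213_s3 k57_A00pm_213_s3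

theorem t738_A00pm_213_s3 : ∃ t, chk3 f_A00pm_213_s3 t 55 124 1 = true := ex3_b k55_A00pm_213_s3 t737_A00pm_213_s3

theorem t739_A00pm_213_s3 : ∃ t, chk3 f_A00pm_213_s3 t 54 248 1 = true := ex3_b k52_A00pm_213_s3 k53_A00pm_213_s3

theorem t740_A00pm_213_s3 : ∃ t, chk3 f_A00pm_213_s3 t 54 124 1 = true := ex3_b t739_A00pm_213_s3 k54_A00pm_213_s3

theorem t741_A00pm_213_s3 : ∃ t, chk3 f_A00pm_213_s3 t 27 124 1 = true := ex3_a t740_A00pm_213_s3 t738_A00pm_213_s3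

theorem t742_A00pm_213_s3 : ∃ t, chk3 f_A00pm_213_s3 t 27 62 1 = true := ex3_b t741_A00pm_213_s3 t736_A00pm_213_s3

theorem t743_A00pm_213_s3 : ∃ t, chk3 f_A00pm_213_s3 t 27 31 1 = true := ex3_b t742_A00pm_213_s3 k64_A00pm_213_s3

theorem t744_A00pm_213_s3 : ∃ t, chk3 f_A00pm_213_s3 t 27 61 3 = true := ex3_b k50_A00pm_213_s3 k51_A00pm_213_s3

theorem t745_A00pm_213_s3 : ∃ t, chk3 f_A00pm_213_s3 t 27 30 3 = true := ex3_b k49_A00pm_213_s3 t744_A00pm_213_s3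

theorem t746_A00pm_213_s3 : ∃ t, chk3 f_A00pm_213_s3 t 27 61 2 = true := ex3_b k47_A00pm_213_s3 k48_A00pm_213_s3

theorem t747_A00pm_213_s3 : ∃ t, chk3 f_A00pm_213_s3 t 27 30 2 = true := ex3_b k46_A00pm_213_s3 t746_A00pm_213_s3

theorem t748_A00pm_213_s3 : ∃ t, chk3 f_A00pm_213_s3 t 27 30 1 = true := ex3_c t747_A00pm_213_s3 t745_A00pm_213_s3

theorem t749_A00pm_213_s3 : ∃ t, chk3 f_A00pm_213_s3 t 27 15 1 = true := ex3_b t748_A00pm_213_s3 t743_A00pm_213_s3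

theorem t750_A00pm_213_s3 : ∃ t, chk3 f_A00pm_213_s3 t 107 247 1 = true := ex3_b k43_A00pm_213_s3 k44_A00pm_213_s3

theorem t751_A00pm_213_s3 : ∃ t, chk3 f_A00pm_213_s3 t 106 247 1 = true := ex3_a k41_A00pm_213_s3 k42_A00pm_213_s3

theorem t752_A00pm_213_s3 : ∃ t, chk3 f_A00pm_213_s3 t 53 247 1 = true := ex3_a t751_A00pm_213_s3 t750_A00pm_213_s3

theorem t753_A00pm_213_s3 : ∃ t, chk3 f_A00pm_213_s3 t 53 123 1 = true := ex3_b k40_A00pm_213_s3 t752_A00pm_213_s3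

theorem t754_A00pm_213_s3 : ∃ t, chk3 f_A00pm_213_s3 t 26 123 1 = true := ex3_a k39_A00pm_213_s3 t753_A00pm_213_s3

theorem t755_A00pm_213_s3 : ∃ t, chk3 f_A00pm_213_s3 t 52 122 1 = true := ex3_a k36_A00pm_213_s3 k37_A00pm_213_s3

theorem t756_A00pm_213_s3 : ∃ t, chk3 f_A00pm_213_s3 t 26 122 1 = true := ex3_a t755_A00pm_213_s3 k38_A00pm_213_s3

theorem t757_A00pm_213_s3 : ∃ t, chk3 f_A00pm_213_s3 t 26 61 1 = true := ex3_b t756_A00pm_213_s3 t754_A00pm_213_s3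

theorem t758_A00pm_213_s3 : ∃ t, chk3 f_A00pm_213_s3 t 52 60 1 = true := ex3_b k33_A00pm_213_s3 k34_A00pm_213_s3

theorem t759_A00pm_213_s3 : ∃ t, chk3 f_A00pm_213_s3 t 26 60 1 = true := ex3_a t758_A00pm_213_s3 k35_A00pm_213_s3

theorem t760_A00pm_213_s3 : ∃ t, chk3 f_A00pm_213_s3 t 26 30 1 = true := ex3_b t759_A00pm_213_s3 t757_A00pm_213_s3

theorem t761_A00pm_213_s3 : ∃ t, chk3 f_A00pm_213_s3 t 26 15 1 = true := ex3_b t760_A00pm_213_s3 k45_A00pm_213_s3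

theorem t762_A00pm_213_s3 : ∃ t, chk3 f_A00pm_213_s3 t 13 15 1 = true := ex3_a t761_A00pm_213_s3 t749_A00pm_213_s3

theorem t763_A00pm_213_s3 : ∃ t, chk3 f_A00pm_213_s3 t 51 122 1 = true := ex3_b k29_A00pm_213_s3 k30_A00pm_213_s3

theorem t764_A00pm_213_s3 : ∃ t, chk3 f_A00pm_213_s3 t 25 122 1 = true := ex3_a k28_A00pm_213_s3 t763_A00pm_213_s3

theorem t765_A00pm_213_s3 : ∃ t, chk3 f_A00pm_213_s3 t 25 61 1 = true := ex3_b t764_A00pm_213_s3 k31_A00pm_213_s3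

theorem t766_A00pm_213_s3 : ∃ t, chk3 f_A00pm_213_s3 t 12 61 1 = true := ex3_a k27_A00pm_213_s3 t765_A00pm_213_s3

theorem t767_A00pm_213_s3 : ∃ t, chk3 f_A00pm_213_s3 t 51 121 3 = true := ex3_b k25_A00pm_213_s3 k26_A00pm_213_s3

theorem t768_A00pm_213_s3 : ∃ t, chk3 f_A00pm_213_s3 t 51 243 2 = true := ex3_a k23_A00pm_213_s3 k24_A00pm_213_s3

theorem t769_A00pm_213_s3 : ∃ t, chk3 f_A00pm_213_s3 t 51 121 2 = true := ex3_b k22_A00pm_213_s3 t768_A00pm_213_s3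

theorem t770_A00pm_213_s3 : ∃ t, chk3 f_A00pm_213_s3 t 51 121 1 = true := ex3_c t769_A00pm_213_s3 t767_A00pm_213_s3

theorem t771_A00pm_213_s3 : ∃ t, chk3 f_A00pm_213_s3 t 25 121 1 = true := ex3_a k21_A00pm_213_s3 t770_A00pm_213_s3

theorem t772_A00pm_213_s3 : ∃ t, chk3 f_A00pm_213_s3 t 25 60 1 = true := ex3_b k20_A00pm_213_s3 t771_A00pm_213_s3

theorem t773_A00pm_213_s3 : ∃ t, chk3 f_A00pm_213_s3 t 12 60 1 = true := ex3_a k19_A00pm_213_s3 t772_A00pm_213_s3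

theorem t774_A00pm_213_s3 : ∃ t, chk3 f_A00pm_213_s3 t 12 30 1 = true := ex3_b t773_A00pm_213_s3 t766_A00pm_213_s3

theorem t775_A00pm_213_s3 : ∃ t, chk3 f_A00pm_213_s3 t 12 15 1 = true := ex3_b t774_A00pm_213_s3 k32_A00pm_213_s3

theorem t776_A00pm_213_s3 : ∃ t, chk3 f_A00pm_213_s3 t 6 15 1 = true := ex3_a t775_A00pm_213_s3 t762_A00pm_213_s3

theorem t777_A00pm_213_s3 : ∃ t, chk3 f_A00pm_213_s3 t 27 59 1 = true := ex3_b k17_A00pm_213_s3 k18_A00pm_213_s3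

theorem t778_A00pm_213_s3 : ∃ t, chk3 f_A00pm_213_s3 t 13 59 1 = true := ex3_a k16_A00pm_213_s3 t777_A00pm_213_s3

theorem t779_A00pm_213_s3 : ∃ t, chk3 f_A00pm_213_s3 t 12 59 1 = true := ex3_a k14_A00pm_213_s3 k15_A00pm_213_s3

theorem t780_A00pm_213_s3 : ∃ t, chk3 f_A00pm_213_s3 t 6 59 1 = true := ex3_a t779_A00pm_213_s3 t778_A00pm_213_s3

theorem t781_A00pm_213_s3 : ∃ t, chk3 f_A00pm_213_s3 t 6 58 1 = true := ex3_a k12_A00pm_213_s3 k13_A00pm_213_s3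

theorem t782_A00pm_213_s3 : ∃ t, chk3 f_A00pm_213_s3 t 6 29 1 = true := ex3_b t781_A00pm_213_s3 t780_A00pm_213_s3

theorem t783_A00pm_213_s3 : ∃ t, chk3 f_A00pm_213_s3 t 6 14 1 = true := ex3_b k11_A00pm_213_s3 t782_A00pm_213_s3

theorem t784_A00pm_213_s3 : ∃ t, chk3 f_A00pm_213_s3 t 6 7 1 = true := ex3_b t783_A00pm_213_s3 t776_A00pm_213_s3

theorem t785_A00pm_213_s3 : ∃ t, chk3 f_A00pm_213_s3 t 6 3 1 = true := ex3_b k10_A00pm_213_s3 t784_A00pm_213_s3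

theorem t786_A00pm_213_s3 : ∃ t, chk3 f_A00pm_213_s3 t 3 3 1 = true := ex3_a t785_A00pm_213_s3 t731_A00pm_213_s3

theorem t787_A00pm_213_s3 : ∃ t, chk3 f_A00pm_213_s3 t 3 1 1 = true := ex3_b k9_A00pm_213_s3 t786_A00pm_213_s3

theorem t788_A00pm_213_s3 : ∃ t, chk3 f_A00pm_213_s3 t 5 14 1 = true := ex3_b k6_A00pm_213_s3 k7_A00pm_213_s3

theorem t789_A00pm_213_s3 : ∃ t, chk3 f_A00pm_213_s3 t 5 7 1 = true := ex3_b t788_A00pm_213_s3 k8_A00pm_213_s3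

theorem t790_A00pm_213_s3 : ∃ t, chk3 f_A00pm_213_s3 t 5 6 1 = true := ex3_b k4_A00pm_213_s3 k5_A00pm_213_s3

theorem t791_A00pm_213_s3 : ∃ t, chk3 f_A00pm_213_s3 t 5 3 1 = true := ex3_b t790_A00pm_213_s3 t789_A00pm_213_s3

theorem t792_A00pm_213_s3 : ∃ t, chk3 f_A00pm_213_s3 t 2 3 1 = true := ex3_a k3_A00pm_213_s3 t791_A00pm_213_s3

theorem t793_A00pm_213_s3 : ∃ t, chk3 f_A00pm_213_s3 t 2 5 1 = true := ex3_a k1_A00pm_213_s3 k2_A00pm_213_s3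

theorem t794_A00pm_213_s3 : ∃ t, chk3 f_A00pm_213_s3 t 2 2 1 = true := ex3_b k0_A00pm_213_s3 t793_A00pm_213_s3

theorem t795_A00pm_213_s3 : ∃ t, chk3 f_A00pm_213_s3 t 2 1 1 = true := ex3_b t794_A00pm_213_s3 t792_A00pm_213_s3

theorem t796_A00pm_213_s3 : ∃ t, chk3 f_A00pm_213_s3 t 1 1 1 = true := ex3_a t795_A00pm_213_s3 t787_A00pm_213_s3

theorem c_A00pm_213_s3 : CertF 0 536870912 536870912 536870912 966367641 24778659 true true false .pnn 2 1 3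
    ndB0q2 ndB0q1 pcB3 cut_A00pm_213_s3 xt_A00pm_213_s3 :=
  certF1 (fam := true) (s1 := true) (s2 := false) (a := 2) (b := 1) (c := 3) (cn := .pnn) (n1 := ndB0q2) (n2 := ndB0q1) (pc := pcB3) (cut := cut_A00pm_213_s3) (xt := xt_A00pm_213_s3) (P1 := 0) (W1 := 536870912) (P2 := 536870912) (W2 := 536870912) (P3 := 966367641) (W3 := 24778659)
    rfl (fun _ => rfl) t796_A00pm_213_s3

theorem s_A00pm_213_s3 {κ x : ℝ} (hκ : κ * h0 = ken x) (hx : ((966367641 : ℕ) : ℝ) / S ≤ x)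
    (hx' : x ≤ (((966367641 : ℕ) : ℝ) + (24778659 : ℕ)) / S)
    (H : CutA (VFD κ) PP tK tL pcB (Cut.of [[⟨0, 1, 0, 47710208⟩, ⟨1, 1, 0, 47710208⟩, ⟨2, 2, 0, 8388608⟩], [⟨0, 1, 0, 1572864⟩, ⟨1, 0, 1, 46137344⟩, ⟨2, 1, 1, 46137344⟩, ⟨1, 0, 0, 1013612281⟩, ⟨1, 1, 0, 128849018⟩, ⟨2, 1, 0, 1013612281⟩, ⟨2, 2, 0, 128849018⟩]]) 2 1 3 0 0 (sgb true) (sgb false) x) :
    AltA (VFD κ) PP tK tL pcB [⟨4, 0, 0, 2845415833⟩] 2 1 3 0 0 (sgb true) (sgb false) x :=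
  strip_altAD (m := 2845415833) false rfl hκ (SH.κ0 hκ (SH.hx1 hx).le (SH.hx2 hx').le) (SH.hx1 hx).le (SH.hx2 hx') (covB02).cov (covB01).cov hx hx' c_A00pm_213_s3 H ((okx hx hx').extA (T := tt) (sideB hx hx') hκ rfl rfl (.O 2 true) (.O 1 false) (Or.inr rfl))

end Pool.Agent.Strip051.G.I9000_9231.Tab.St.C
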