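import Pool.Agent.Strip051.G.I9000_9231.StH
import Pool.Agent.Strip051.G.I9000_9231.StF

/-! # Unit strips 13 (generated) -/

set_option linter.all false
set_option maxRecDepth 100000

namespace Pool.Agent.Strip051.G.I9000_9231.Tab.St.C

open Pool.Agent.Strip051.PB Pool.Agent.Strip051.PB.T Pool.Agent.StripNear Pool.Agent.Strip051.LC
open Pool.Agent.Strip051.G.I9000_9231.Tab Pool.Agent.Strip051.G.I9000_9231.Tab.St

noncomputable def cut_A00mm_202_s3 : Cut := Cut.of [[⟨3, 0, 0, 2845415833⟩], [⟨0, 1, 0, 53687091⟩, ⟨1, 0, 0, 53687091⟩, ⟨2, 1, 0, 53687091⟩]]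

noncomputable def xt_A00mm_202_s3 : Ext := strExt dd true false false .u2 .u0m .s2m .pp 2 0 2 rfl rfl gl2 vv ndB0q2 ndB0q0

noncomputable def f_A00mm_202_s3 : ℕ → ℕ → ℕ → ℕ → Bool := onCell 0 536870912 1073741824 536870912 966367641 24778659
    (rowF 1 true false false .pp 2 0 2 (qsf 0 536870912 0 536870912 2) ndB0q2 ndB0q0 pcB2 cut_A00mm_202_s3 xt_A00mm_202_s3)

def k0_A00mm_202_s3 : ∃ t, chk3 f_A00mm_202_s3 t 2 2 1 = true :=
  ⟨(b (l 6) (b (l 6) (a (l 6) (a (l 6) (a (l 6) (a (b (l 6) (b (b (l 6) (c (l 16515264) (l 16447232))) (c (b (l 16532192) (l 16529216)) (b (l 16444160) (l 16442088))))) (b (b (l 6) (c (b (l 16474696) (l 16494432)) (b (l 16483424) (l 16477368)))) (b (c (b (l 16512664) (l 16529624)) (b (l 16473088) (l 16470272))) (c (c (l 16556736) (l 16526576)) (b (l 16468512) (l 16467768))))))))))), by decide +kernel⟩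

def k1_A00mm_202_s3 : ∃ t, chk3 f_A00mm_202_s3 t 6 8 1 = true :=
  ⟨(l 1), by decide +kernel⟩

def k2_A00mm_202_s3 : ∃ t, chk3 f_A00mm_202_s3 t 12 9 1 = true :=
  ⟨(b (l 1) (b (l 6) (a (l 6) (b (a (l 6) (a (l 6) (a (l 6) (b (b (l 6) (c (l 16396512) (l 16446992))) (b (c (l 16407072) (l 16452784)) (c (l 16412416) (l 16458584))))))) (a (l 6) (b (a (l 6) (c (c (a (l 16418672) (l 16407808)) (a (l 16434288) (l 16443760))) (c (a (l 16450504) (l 16459320)) (l 16471384)))) (a (a (l 6) (b (l 6) (c (l 16409520) (l 16465416)))) (c (c (a (l 16429368) (l 16418424)) (a (l 16445416) (l 16454784))) (c (l 16455936) (l 16483336)))))))))), by decide +kernel⟩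

def k3_A00mm_202_s3 : ∃ t, chk3 f_A00mm_202_s3 t 13 36 1 = true :=
  ⟨(a (l 1) (b (l 1) (a (b (l 1) (a (l 1) (a (l 1) (b (l 1) (c (l 16460840) (l 16470640)))))) (b (a (b (l 1) (c (l 16453584) (l 16466896))) (c (b (a (l 16482200) (b (l 16492632) (l 16494720))) (a (b (l 16485344) (l 16487448)) (l 16497864))) (b (a (l 16489296) (l 16490080)) (a (l 16483576) (l 16505304))))) (c (a (b (a (l 16467864) (b (l 16478160) (l 16480288))) (a (b (l 16471072) (l 16473232)) (l 16483504))) (b (a (l 16490632) (l 16502104)) (a (l 16494912) (l 16506376)))) (a (b (a (l 16476696) (l 16477240)) (a (l 16471072) (l 16492568))) (b (a (l 16498856) (l 16510064)) (c (l 16507024) (l 16511512))))))))), by decide +kernel⟩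

def k4_A00mm_202_s3 : ∃ t, chk3 f_A00mm_202_s3 t 26 37 1 = true :=
  ⟨(b (a (l 1) (b (l 1) (a (l 1) (b (l 1) (a (l 1) (c (b (l 16432608) (l 16434872)) (b (l 16446848) (l 16449416)))))))) (a (b (l 1) (a (l 1) (b (a (l 1) (c (b (l 16402520) (l 16404888)) (l 16412704))) (a (a (l 6) (c (l 16400440) (l 16421216))) (c (l 16387496) (l 16418056)))))) (b (b (a (a (l 1) (c (l 16416144) (l 16432680))) (c (a (b (l 16426056) (l 16428360)) (l 16438296)) (a (b (l 16441640) (l 16444232)) (l 16453264)))) (c (a (a (l 16409824) (b (l 16419616) (l 16421952))) (c (l 16433608) (l 16441232))) (a (a (l 16417336) (b (l 16436608) (l 16439224))) (a (l 16448128) (l 16447936))))) (a (c (b (a (b (l 16413344) (l 16415712)) (l 16425472)) (c (l 16420320) (l 16429288))) (b (a (b (l 16431784) (l 16434440)) (l 16443168)) (a (l 16438424) (l 16437952)))) (c (c (b (l 16438144) (l 16442728)) (b (l 16446024) (l 16450848))) (c (b (l 16454240) (l 16459312)) (a (l 16449952) (l 16459960)))))))), by decide +kernel⟩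

def k5_A00mm_202_s3 : ∃ t, chk3 f_A00mm_202_s3 t 27 74 1 = true :=
  ⟨(a (b (a (b (l 1) (a (l 1) (c (b (l 16445992) (l 16448200)) (b (l 16457792) (l 16460296))))) (b (a (c (l 16453920) (l 16449032)) (c (b (l 16464088) (l 16466272)) (b (l 16474328) (l 16476792)))) (c (a (b (l 16457208) (l 16459416)) (l 16469560)) (a (b (l 16468488) (l 16470976)) (l 16480496))))) (a (c (b (a (b (l 16439248) (l 16441488)) (b (l 16450424) (l 16452656))) (a (l 16444864) (l 16456032))) (b (a (b (l 16452232) (l 16454768)) (b (l 16462808) (l 16465328))) (c (l 16460400) (l 16467376)))) (c (c (b (l 16465600) (l 16469952)) (b (l 16471208) (l 16475808))) (c (b (l 16477064) (l 16481920)) (b (l 16483168) (l 16488280)))))) (b (a (c (b (c (l 16479856) (l 16484528)) (c (l 16484104) (l 16489024))) (b (c (l 16489416) (l 16494512)) (c (l 16494160) (l 16499520)))) (c (b (a (l 16499232) (l 16510680)) (b (l 16497736) (l 16499920))) (b (c (l 16511696) (l 16516432)) (b (l 16507152) (l 16509552))))) (b (a (c (b (l 16479352) (l 16481568)) (b (l 16489992)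 (l 16492440))) (c (a (l 16507968) (l 16503656)) (b (l 16511944) (l 16519592)))) (c (c (a (l 16492728) (l 16515640)) (a (l 16498104) (l 16520600))) (a (b (l 16500128) (l 16502576)) (a (l 16512440) (l 16523432))))))), by decide +kernel⟩

def k6_A00mm_202_s3 : ∃ t, chk3 f_A00mm_202_s3 t 27 75 1 = true :=
  ⟨(b (a (a (c (c (b (l 16451704) (l 16456160)) (b (l 16458376) (l 16463080))) (c (b (l 16465336) (l 16470296)) (a (l 16470048) (l 16469856)))) (a (c (c (l 16470880) (l 16477224)) (b (l 16474248) (l 16479264))) (c (b (l 16482960) (l 16492736)) (c (l 16484120) (l 16490696))))) (c (c (b (a (l 16497104) (l 16509504)) (a (l 16512000) (l 16513872))) (b (a (l 16502680) (l 16514632)) (a (l 16507280) (l 16519168)))) (a (c (a (l 16494952) (l 16505848)) (a (l 16501240) (l 16511872))) (a (c (l 16516808) (l 16522584)) (c (l 16527832) (l 16533368)))))) (b (c (c (a (a (l 16460672) (l 16483272)) (a (a (l 16500264) (l 16511632)) (a (l 16523032) (l 16534472)))) (a (a (l 16467824) (l 16489776)) (a (l 16501416) (a (l 16528592) (l 16539784)))))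 (c (a (a (l 16475272) (l 16496560)) (a (l 16507600) (l 16534616))) (a (a (l 16483024) (l 16493128)) (a (l 16519280) (l 16545752))))) (c (c (a (a (l 16465232) (l 16498280)) (a (a (l 16504752) (l 16516104)) (a (l 16527472) (l 16538880)))) (a (a (l 16472592) (l 16484000)) (a (a (l 16510992) (l 16522056)) (l 16533512)))) (c (a (a (l 16480264) (l 16490968)) (a (l 16517640) (l 16539312))) (a (a (l 16477752) (l 16503464)) (a (l 16524248) (l 16550576))))))), by decide +kernel⟩

def k7_A00mm_202_s3 : ∃ t, chk3 f_A00mm_202_s3 t 52 38 1 = true :=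
  ⟨(b (b (a (l 6) (c (c (b (l 16402936) (l 16407680)) (b (l 16413072) (l 16418080))) (c (b (l 16423624) (l 16428904)) (b (l 16434600) (l 16440144))))) (a (a (l 6) (c (c (l 16398728) (l 16410240)) (c (l 16422216) (l 16434656)))) (c (c (b (l 16412480) (l 16417320)) (b (l 16423128) (l 16428208))) (b (a (l 16435096) (l 16434224)) (a (l 16430088) (l 16444896)))))) (a (a (b (l 6) (b (c (l 16390920) (l 16428256)) (c (l 16401344) (l 16433936)))) (c (b (b (l 16391000) (l 16401320)) (b (l 16406440) (l 16411592))) (b (b (l 16426216) (l 16431792)) (b (l 16437392) (l 16448256))))) (c (b (c (b (l 16422208) (l 16427136)) (b (l 16433328) (l 16438472))) (b (c (l 16432096) (l 16443648)) (c (l 16437088) (l 16448856)))) (a (b (b (l 16435592) (l 16446360)) (b (l 16451904) (l 16457464))) (b (b (l 16450344) (l 16455808)) (c (l 16452704) (l 16470240))))))), by decide +kernel⟩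

def k8_A00mm_202_s3 : ∃ t, chk3 f_A00mm_202_s3 t 53 38 1 = true :=
  ⟨(b (c (b (a (c (a (l 16421752) (l 16432872)) (b (l 16434200) (l 16439152))) (c (b (l 16447360) (l 16452040)) (b (l 16455704) (l 16460592)))) (b (a (c (l 16434456) (l 16444136)) (c (l 16456760) (l 16475992))) (a (c (l 16439256) (l 16459632)) (c (l 16466752) (a (l 16465088) (l 16475784)))))) (a (b (c (b (l 16443800) (l 16448992)) (c (l 16443448) (l 16448600))) (b (c (l 16454208) (l 16454184)) (c (l 16448952) (l 16464888)))) (b (c (b (l 16464400) (l 16459016)) (b (l 16462952) (l 16473512))) (c (b (l 16464128) (a (l 16474632) (l 16484856))) (b (l 16478840) (l 16484168)))))) (c (c (a (b (a (b (l 16438552) (l 16443440)) (b (l 16449600) (l 16454456))) (a (b (l 16448352) (l 16453304)) (b (l 16459336) (l 16464248)))) (b (b (a (l 16460712) (l 16471840)) (a (l 16465544) (l 16476632))) (b (a (l 16470392) (l 16481456)) (a (l 16475272) (l 16486296))))) (a (b (b (a (l 16448904) (l 16459448)) (a (l 16454000) (l 16464496))) (a (b (l 16459112) (l 16464248)) (b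 (l 16469568) (l 16474656)))) (b (b (a (l 16470072) (l 16480728)) (a (l 16475080) (l 16485688))) (b (a (l 16480104) (l 16490672)) (a (l 16485144) (l 16495664)))))) (a (a (b (b (l 16459968) (c (l 16464976) (l 16476376))) (c (l 16462472) (l 16479424))) (b (c (l 16461824) (l 16477808)) (c (b (l 16480200) (l 16485472)) (b (l 16491232) (l 16496696))))) (b (c (a (b (l 16479808) (l 16484992)) (b (l 16489976) (l 16495104))) (b (a (l 16489912) (l 16499576)) (a (l 16495296) (l 16504880)))) (b (c (l 16489992) (a (l 16500672) (l 16510192))) (c (a (l 16495408) (l 16505400)) (a (l 16506064) (l 16515496)))))))), by decide +kernel⟩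

def k9_A00mm_202_s3 : ∃ t, chk3 f_A00mm_202_s3 t 26 39 2 = true :=
  ⟨(a (b (c (c (a (b (l 16420240) (l 16440920)) (b (b (l 16439192) (l 16444192)) (b (l 16449224) (l 16454280)))) (a (b (l 16426720) (l 16437128)) (b (l 16452848) (b (l 16455280) (l 16460424))))) (b (a (a (l 16431728) (l 16420656)) (b (l 16464568) (l 16464568))) (a (b (l 16444712) (l 16450096)) (b (l 16454104) (l 16459384))))) (c (b (c (a (l 16445984) (b (l 16459352) (l 16464448))) (a (l 16447624) (b (l 16465584) (l 16470760)))) (a (c (l 16456368) (l 16458200)) (a (l 16454368) (l 16464792)))) (b (a (b (l 16455496) (l 16460912)) (b (l 16464680) (l 16469984))) (a (a (l 16464264) (l 16463360)) (a (l 16473056) (l 16482840)))))) (b (a (b (c (a (b (l 16458272) (l 16463272)) (b (l 16469184) (l 16474144))) (b (a (l 16469400) (l 16479760)) (a (l 16474576) (l 16484888)))) (c (a (b (l 16468288) (l 16473320)) (b (l 16479120) (l 16484104))) (c (a (l 16479432) (l 16489800)) (a (l 16485320) (l 16495400))))) (b (c (b (a (l 16480168) (l 16491152)) (a (l 16485080)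 (l 16496024))) (a (b (l 16490200) (l 16495272)) (b (l 16500664) (l 16505672)))) (c (b (a (l 16490016) (l 16500912)) (a (l 16494952) (l 16505800))) (a (b (l 16500344) (l 16505424)) (b (l 16510696) (l 16515712)))))) (a (b (c (a (b (l 16478368) (l 16483432)) (b (l 16489112) (l 16494120))) (a (l 16482288) (b (l 16500304) (l 16505456)))) (c (b (a (l 16488504) (l 16499136)) (l 16488408)) (a (l 16492728) (l 16502704)))) (b (b (c (a (l 16499904) (l 16510704)) (l 16510400)) (c (a (l 16504864) (l 16515608)) (l 16515456))) (c (a (a (l 16509640) (l 16514976)) (l 16512488)) (b (l 16520504) (l 16525552))))))), by decide +kernel⟩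

def k10_A00mm_202_s3 : ∃ t, chk3 f_A00mm_202_s3 t 26 39 3 = true :=
  ⟨(a (b (a (b (c (a (l 16445760) (l 16455056)) (b (l 16461752) (l 16467552))) (c (a (l 16456976) (l 16466152)) (a (l 16471992) (l 16470040)))) (b (c (a (l 16453984) (l 16463512)) (a (l 16467296) (l 16481456))) (c (a (l 16464960) (l 16474368)) (b (l 16485488) (l 16496392))))) (a (b (c (a (l 16468248) (l 16466816)) (b (l 16484984) (l 16490800))) (c (c (l 16480232) (l 16487848)) (b (l 16496624) (l 16502440)))) (c (b (a (l 16475976) (l 16485248)) (a (l 16487008) (l 16496136))) (b (b (l 16502048) (l 16507704)) (b (l 16513360) (l 16519008)))))) (b (a (b (c (b (l 16480632) (l 16485952)) (a (l 16490496) (a (l 16492104) (l 16496704)))) (b (c (l 16491280) (l 16508576)) (c (l 16496616) (l 16514072)))) (c (b (b (a (l 16500624) (l 16510552)) (a (l 16505848) (l 16515704))) (a (l 16508448) (a (l 16510504) (l 16515384)))) (b (b (l 16516136) (l 16521472)) (b (l 16526808) (b (l 16530808) (l 16533472)))))) (a (c (b (a (l 16499864) (l 16509336)) (b (l 16512608) (l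 16523184))) (b (b (l 16519568) (l 16525056)) (b (l 16530536) (l 16536000)))) (c (b (b (a (l 16521520) (l 16531160)) (l 16531536)) (b (l 16536704) (l 16541872))) (b (b (l 16540080) (l 16542768)) (b (l 16548064) (l 16553344))))))), by decide +kernel⟩

def k11_A00mm_202_s3 : ∃ t, chk3 f_A00mm_202_s3 t 54 38 2 = true :=
  ⟨(b (b (a (b (c (l 16469824) (l 16477384)) (c (l 16484952) (l 16487448))) (c (b (l 16497592) (a (l 16491296) (l 16502552))) (b (l 16488728) (a (l 16498488) (l 16509400))))) (a (c (b (a (l 16473520) (l 16484720)) (a (l 16478232) (l 16489400))) (b (l 16476560) (a (l 16486512) (l 16497272)))) (c (c (b (l 16499808) (l 16504416)) (a (l 16500072) (l 16511192))) (b (a (l 16503264) (l 16514136)) (a (l 16508064) (l 16518880)))))) (a (b (c (b (a (l 16482968) (l 16494112)) (a (l 16487736) (l 16498840))) (b (a (l 16491416) (l 16502128)) (a (l 16496328) (l 16506992)))) (c (b (a (l 16492520) (l 16503584)) (a (l 16497320) (l 16508344))) (a (b (l 16501256) (l 16506200)) (b (l 16511872) (l 16516760))))) (b (c (b (a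 (l 16505256) (l 16516416)) (a (l 16509944) (l 16521064))) (a (b (l 16512872) (l 16517688)) (b (l 16523640) (l 16528408)))) (c (b (a (l 16514656) (l 16525728)) (a (l 16519368) (l 16530408))) (b (a (l 16522512) (l 16533176)) (a (l 16527344) (l 16537952))))))), by decide +kernel⟩

def k12_A00mm_202_s3 : ∃ t, chk3 f_A00mm_202_s3 t 55 38 2 = true :=
  ⟨(a (b (b (c (c (b (l 16513424) (l 16517928)) (a (l 16513136) (l 16524368))) (a (b (l 16515664) (l 16520344)) (b (l 16526688) (l 16531328)))) (a (c (b (l 16518392) (l 16522984)) (b (l 16525032) (l 16529736))) (c (b (l 16529656) (l 16534208)) (b (l 16535968) (l 16540624))))) (a (b (c (b (l 16527584) (l 16532200)) (b (l 16534448) (l 16539160))) (c (b (l 16536824) (l 16541448)) (b (l 16543872) (l 16548584)))) (b (c (b (l 16538768) (l 16543344)) (b (l 16545280) (l 16549936))) (c (b (l 16547920) (l 16552504)) (b (l 16554592) (l 16559248)))))) (b (b (a (c (b (l 16531944) (l 16536432)) (b (l 16537752) (l 16542344))) (c (b (l 16543320) (l 16547776)) (b (l 16548864) (l 16553408))))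 (a (c (b (l 16540936) (l 16545448)) (b (l 16546944) (l 16551544))) (c (b (l 16552240) (l 16556720)) (b (l 16557952) (l 16562504))))) (a (b (c (b (l 16549976) (l 16554504)) (b (l 16556144) (l 16560744))) (c (b (l 16559032) (l 16563568)) (c (l 16555544) (l 16569256)))) (b (c (b (l 16561200) (l 16565680)) (c (l 16557336) (l 16560336))) (c (b (l 16570160) (l 16574640)) (b (l 16576112) (l 16580640))))))), by decide +kernel⟩

def k13_A00mm_202_s3 : ∃ t, chk3 f_A00mm_202_s3 t 54 38 3 = true :=
  ⟨(b (b (a (c (b (l 16474776) (a (l 16485040) (l 16495480))) (b (l 16488208) (l 16493400))) (c (b (a (l 16501048) (l 16511648)) (l 16506016)) (b (l 16508544) (a (l 16513752) (l 16523928))))) (a (c (a (b (l 16490080) (l 16495128)) (b (l 16500464) (l 16505464))) (b (a (l 16498848) (l 16508808)) (a (l 16504080) (l 16513968)))) (c (b (a (l 16510904) (l 16521400)) (a (l 16515848) (l 16526280))) (b (a (l 16518840) (l 16528944)) (a (l 16523928) (l 16533960)))))) (a (b (c (b (a (l 16500192) (l 16510464)) (a (l 16505272) (l 16515480))) (b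 (a (l 16509312) (l 16519128)) (b (l 16512880) (l 16515480)))) (c (b (a (l 16510344) (l 16520496)) (a (l 16515432) (l 16525512))) (b (b (l 16518080) (l 16520672)) (b (l 16523264) (l 16525864))))) (b (c (b (a (l 16520792) (l 16531160)) (a (l 16525736) (l 16536040))) (b (b (l 16527496) (l 16530016)) (b (l 16532536) (l 16535056)))) (c (b (a (l 16530688) (l 16540920)) (a (l 16535632) (l 16545800))) (b (b (l 16537568) (l 16540080)) (b (l 16542592) (l 16550344))))))), by decide +kernel⟩

def k14_A00mm_202_s3 : ∃ t, chk3 f_A00mm_202_s3 t 55 38 3 = true :=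
  ⟨(a (b (c (b (b (l 16522440) (a (l 16527128) (l 16537792))) (a (b (l 16531944) (l 16536760)) (b (l 16542544) (l 16547296)))) (b (b (a (l 16529224) (l 16539624)) (l 16539352)) (b (l 16544256) (a (l 16544064) (l 16554232))))) (a (b (b (b (l 16538792) (l 16541224)) (a (l 530813199) (l 530811919))) (a (b (l 530893839) (l 530908687)) (b (l 530859023) (l 530907407)))) (b (b (a (l 530764303) (l 16552864)) (b (l 16553880) (l 16556272))) (a (c (l 16556072) (l 530915855)) (b (l 530890511) (l 530905615)))))) (b (c (a (b (b (l 16543808) (l 16548504)) (b (l 16553200) (l 16557880))) (b (b (l 16554640) (l 16559272)) (b (l 16563896) (l 16568512)))) (b (b (l 16555376) (l 16560144)) (a (a (l 16554256) (l 530716175)) (a (l 530715151) (l 530714383))))) (c (a (b (b (l 16562560) (l 16567232)) (b (l 16571896) (l 16576544))) (b (c (l 16563392) (l 16576984)) (c (l 16577768) (l 16575688)))) (a (b (a (l 16563824) (l 530812175)) (a (l 530913295) (l 530912271))) (b (a (l 530811407) (l 530810639)) (a (l 530911503) (l 530910991))))))), by decide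 +kernel⟩

def k15_A00mm_202_s3 : ∃ t, chk3 f_A00mm_202_s3 t 54 78 1 = true :=
  ⟨(c (a (b (c (b (a (l 16502136) (l 16513112)) (a (l 16506960) (l 16517896))) (a (b (l 16511144) (l 16516104)) (b (l 16521656) (l 16526544)))) (c (b (a (l 16511800) (l 16522688)) (a (l 16516640) (l 16527480))) (a (a (l 16510464) (l 16515640)) (a (l 16520816) (l 16525992))))) (a (b (b (c (l 16524096) (l 16532176)) (c (l 16528832) (l 16537016))) (a (c (l 530746639) (l 16531176)) (c (l 530749199) (l 16536368)))) (b (c (b (l 16535088) (l 16539776)) (b (l 16542728) (l 16547496))) (a (c (l 530751503) (l 530960655)) (c (l 530754063) (l 530961679)))))) (c (a (b (a (b (l 16520512) (l 16525600)) (b (l 16530520) (l 16535536))) (b (a (l 16530680) (l 16540544)) (l 16540656))) (a (b (b (l 16540576) (l 16545512)) (b (l 16550440) (l 16555360))) (b (b (l 16550664) (l 16555528)) (b (l 16560376) (l 16565208))))) (a (b (b (b (l 16528448) (l 16531040)) (b (l 16533624) (l 16541456))) (b (b (l 16544040) (l 16546616)) (b (l 16549192) (l 16551760)))) (a (b (b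 (l 16549280) (l 16554320)) (a (l 16554272) (l 531136271))) (b (a (l 531026447) (l 531024655)) (a (l 531134223) (l 531132431))))))), by decide +kernel⟩

def k16_A00mm_202_s3 : ∃ t, chk3 f_A00mm_202_s3 t 54 79 1 = true :=
  ⟨(c (c (a (c (a (b (l 16521592) (l 16531240)) (b (l 16532472) (l 16542008))) (b (a (l 16526264) (l 16536888)) (l 16536032))) (a (b (b (l 16543048) (l 16547784)) (b (l 16552512) (l 16557232))) (b (b (l 16553824) (l 16558496)) (b (l 16563160) (l 16567808))))) (b (a (b (a (l 16530976) (l 16541232)) (a (l 16535928) (l 16546112))) (a (b (l 16551496) (l 16556304)) (b (l 16561776) (l 16566512)))) (a (a (l 16538104) (l 16548184)) (b (l 16566192) (l 16570936))))) (b (a (c (b (l 16545688) (l 16550704)) (b (l 16558232) (l 16563352))) (a (c (b (l 16560264) (l 16565152)) (b (l 16569352) (l 16574328))) (c (b (l 16570032) (l 16574840)) (c (l 16578856) (l 16583224))))) (c (a (b (l 16555712) (l 16560704)) (b (l 16577464) (l 16579648))) (a (a (l 16566544) (b (l 16570296) (l 16575328))) (a (b (l 16579280) (l 16584208))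 (b (l 16588312) (l 16593136))))))), by decide +kernel⟩

def k17_A00mm_202_s3 : ∃ t, chk3 f_A00mm_202_s3 t 55 78 1 = true :=
  ⟨(a (c (c (a (b (b (l 16546080) (l 16550712)) (b (l 16555344) (l 16559976))) (b (b (l 16557080) (l 16561664)) (b (l 16566240) (l 16570808)))) (a (b (b (l 16553296) (l 16558008)) (b (l 16562704) (l 16567392))) (b (b (l 16563896) (l 16568528)) (b (l 16573160) (l 16577776))))) (a (b (c (b (l 16560800) (l 16565576)) (a (l 531022863) (l 531021327))) (c (b (l 16570344) (l 16575096)) (a (l 531130895) (l 531129359)))) (b (c (b (l 16570968) (l 16575664)) (a (l 531019791) (l 531018511))) (c (b (l 16580352) (l 16585016)) (c (l 16588272) (l 16592072)))))) (c (c (a (b (c (l 16558304) (l 16561456)) (c (l 16567312) (l 16570512))) (b (b (l 16579120) (l 16583584)) (b (l 16588032) (l 16592480)))) (b (a (c (l 16564680) (l 16578448)) (b (l 16585152) (l 16589648))) (a (b (l 16583632) (l 16588176)) (c (l 16584328) (l 16587432))))) (a (b (c (b (l 16581176) (l 16585784)) (a (l 531017487) (l 531016463))) (c (b (l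 16590384) (l 16594960)) (b (l 16597384) (l 16601992)))) (b (c (c (l 16581600) (l 16584800)) (c (l 16588064) (l 16601864))) (c (b (l 16600448) (l 16604928)) (b (l 16607008) (l 16611512))))))), by decide +kernel⟩

def k18_A00mm_202_s3 : ∃ t, chk3 f_A00mm_202_s3 t 55 79 1 = true :=
  ⟨(a (c (a (b (a (c (l 16553728) (l 531055119)) (c (l 16559096) (l 16571720))) (a (c (l 16562952) (l 16570680)) (c (l 16568256) (l 16575728)))) (b (a (c (l 530845199) (l 16576856)) (c (l 530848015) (l 16581992))) (a (c (l 16573552) (l 16580784)) (c (l 530936591) (l 16591088))))) (a (b (c (b (l 16579832) (l 16584544)) (b (l 16587880) (l 16592648))) (c (b (l 16589240) (l 16593912)) (b (l 16597384) (l 16602112)))) (b (c (b (l 16589656) (l 16594280)) (b (l 16597208) (l 16601864))) (c (l 531184655) (l 531489807))))) (c (c (a (b (b (l 16586128) (l 16590608)) (b (l 16595064) (l 16599504))) (b (b (l 16596904) (l 16601312)) (b (l 16605688) (l 16610048)))) (a (b (b (l 16592696) (l 16597200)) (l 530891791)) (b (b (l 16603032) (l 16607456)) (b (l 16611864)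 (l 16616248))))) (a (b (c (b (l 16599512) (l 16604040)) (b (l 16606576) (l 16611136))) (c (l 531185935) (l 531488015))) (b (c (c (l 16610000) (l 16613248)) (b (l 16615984) (l 16620448))) (c (l 531187727) (l 531352847)))))), by decide +kernel⟩

def k19_A00mm_202_s3 : ∃ t, chk3 f_A00mm_202_s3 t 7 16 1 = true :=
  ⟨(a (l 1) (l 14)), by decide +kernel⟩

def k20_A00mm_202_s3 : ∃ t, chk3 f_A00mm_202_s3 t 28 17 1 = true :=
  ⟨(b (l 1) (a (l 1) (b (l 1) (b (a (l 1) (a (b (l 1) (c (l 16531808) (l 16550712))) (c (b (l 16539928) (l 16559592)) (b (l 16558528) (l 16562912))))) (b (a (a (l 1) (c (l 16523792) (l 16543048))) (c (a (l 16551488) (l 16563560)) (l 16561224))) (c (a (a (l 16515880) (l 16543504)) (c (l 16560552) (l 16562512))) (a (a (l 16514584) (l 16547512)) (l 16565648)))))))), by decide +kernel⟩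

def k21_A00mm_202_s3 : ∃ t, chk3 f_A00mm_202_s3 t 29 34 1 = true :=
  ⟨(a (l 1) (l 14)), by decide +kernel⟩

def k22_A00mm_202_s3 : ∃ t, chk3 f_A00mm_202_s3 t 29 70 1 = true :=
  ⟨(b (a (a (l 1) (b (a (l 1) (l 14)) (a (c (l 16570224) (l 16561960)) (a (l 529896207) (l 16587024))))) (b (l 14) (b (l 14) (a (c (l 16612968) (l 16615792)) (c (l 16638136) (l 16640944)))))) (b (a (a (a (l 1) (c (l 16561760) (l 16553672))) (a (a (l 530194191) (l 16578504)) (c (l 16597056) (l 16599896)))) (c (a (c (l 16615184) (l 16616640)) (a (l 16613784) (l 16636896))) (a (l 16624208) (a (l 16637800) (l 16650304))))) (c (a (a (a (l 16553408) (l 16576136)) (b (l 16583296) (l 16585256))) (a (c (l 16619040) (l 16620640)) (a (l 16628200) (l 16651312)))) (a (a (b (l 16571648) (l 16573816)) (l 16597880)) (a (a (l 16616864) (l 16629464)) (a (l 16641984) (l 16654456))))))), by decide +kernel⟩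

def k23_A00mm_202_s3 : ∃ t, chk3 f_A00mm_202_s3 t 29 71 1 = true :=
  ⟨(b (a (c (a (a (c (l 16558536) (l 16549584)) (b (l 16580064) (l 16584016))) (a (c (l 16593568) (l 16595256)) (c (l 16595536) (l 16607776)))) (a (b (l 16577064) (l 16581416)) (b (l 16607408) (a (l 16600112) (l 16612712))))) (b (a (a (b (l 16618224) (l 16620264)) (a (l 529676047) (l 529669647))) (a (c (l 16632128) (l 16646160)) (c (l 16655240) (l 16658592)))) (a (a (c (l 16600448) (l 16625344)) (c (l 16623496) (l 16637880))) (a (a (l 529690639) (l 529682447)) (c (l 16659168) (l 16662712)))))) (a (c (a (a (b (l 16575720) (l 16579720)) (c (l 16578528) (l 16590984))) (a (c (l 16590872) (l 16582400)) (b (l 16591864) (l 16606336)))) (a (b (l 16585776) (l 16590144)) (a (c (l 16605488) (l 16607696)) (b (l 16616992) (l 16621264))))) (b (a (a (a (l 529737743) (l 529735439)) (a (l 529731599) (l 529726735))) (a (c (l 16650504) (l 16654472)) (a (l 529704719) (l 529694991)))) (a (a (c (l 16618880) (l 16633808)) (a (l 529761807) (l 529757711))) (a (c (l 16654448)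 (l 16658608)) (c (c (l 16666104) (l 16667960)) (l 16670896))))))), by decide +kernel⟩

def k24_A00mm_202_s3 : ∃ t, chk3 f_A00mm_202_s3 t 30 34 1 = true :=
  ⟨(l 14), by decide +kernel⟩

def k25_A00mm_202_s3 : ∃ t, chk3 f_A00mm_202_s3 t 30 70 1 = true :=
  ⟨(b (b (l 14) (a (a (a (c (l 16656160) (l 16658664)) (c (l 16668944) (l 16671208))) (a (a (l 529456911) (l 529434895)) (a (l 529411087) (l 529386255)))) (b (l 14) (a (a (a (l 529369103) (l 529342991)) (a (c (l 16719016) (l 16720096)) (c (l 16725736) (l 16726688)))) (a (a (a (l 529537551) (l 529523727)) (a (l 529509903) (l 529496079))) (a (a (l 529481999) (l 529467919)) (a (l 529453583) (c (l 529365775) (l 529515791))))))))) (a (b (a (a (c (l 16660080) (l 16662792)) (a (l 529526287) (l 529507599))) (a (a (l 529487631) (l 529466127)) (a (l 529443343) (l 529419279)))) (a (a (c (l 16664000) (l 16666904)) (a (l 529556751) (l 529539087))) (a (a (l 529519887) (l 529499151)) (a (l 529477135) (l 529453839))))) (a (a (a (a (l 529418511) (l 529406223)) (a (l 529393679) (l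 529381135))) (a (a (l 529368335) (l 529355279)) (a (l 529342223) (l 529329167)))) (a (a (a (l 529315855) (l 529302543)) (a (c (a (l 529483791) (l 529476879)) (l 529638927)) (c (a (l 529469967) (l 529462799)) (l 529626383)))) (a (a (a (l 529803023) (l 529527823)) (c (a (l 529441039) (l 529433615)) (l 529601807))) (b (a (a (l 529487119) (l 529480207)) (a (l 529473039) (l 529465871))) (a (l 529255951) (l 529242127)))))))), by decide +kernel⟩

def k26_A00mm_202_s3 : ∃ t, chk3 f_A00mm_202_s3 t 30 71 1 = true :=
  ⟨(a (a (a (a (b (a (l 529637647) (l 529630991)) (c (b (l 16662080) (l 16665992)) (l 529824527))) (b (a (l 529624079) (l 529616911)) (c (c (l 529779727) (l 16681664)) (l 529813519)))) (a (a (b (l 529609487) (a (l 529680911) (l 529677583))) (b (l 529601551) (l 529403663))) (a (b (l 529593359) (l 529664783)) (b (l 529584655) (l 529656847))))) (a (a (a (b (l 529575695) (l 529648911)) (b (l 529566479) (l 529640463))) (b (a (l 529556751) (l 529546767)) (a (l 529631503) (l 529622031)))) (a (b (a (l 529536271) (l 529525263))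 (a (l 529612559) (l 529602319))) (b (a (l 529514255) (l 529502991)) (a (l 529592079) (l 529581583)))))) (a (a (a (b (a (l 529491727) (l 529480207)) (a (l 529571087) (l 529560335))) (b (a (l 529468431) (l 529456655)) (a (l 529280783) (c (l 529697039) (l 529920783))))) (a (b (a (l 529444623) (l 529298191)) (a (b (l 529505807) (l 529548303)) (b (l 529494031) (l 529537295)))) (b (a (c (l 529596687) (l 529784847)) (c (l 529852687) (l 529772303))) (a (b (l 529482511) (l 529525775)) (b (l 529470479) (l 529514255)))))) (a (a (b (a (b (l 529374991) (l 529415951)) (b (l 529362191) (l 529403663))) (a (b (l 529458703) (l 529502735)) (b (l 529446671) (l 529490959)))) (b (a (b (l 529349391) (l 529391375)) (b (l 529336847) (l 529379087))) (a (b (l 529434639) (l 529479439)) (a (l 529448207) (l 529442575))))) (a (a (a (b (l 529348623) (l 529436943)) (b (l 529342479) (l 529431055))) (a (b (l 529336335) (l 529425423)) (b (l 529329935) (l 529419535)))) (a (a (b (l 529323535) (l 529413647)) (b (l 529317135) (l 529407759))) (b (b (l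 529285135) (l 529329423)) (b (l 529375247) (l 529422095)))))))), by decide +kernel⟩

def k27_A00mm_202_s3 : ∃ t, chk3 f_A00mm_202_s3 t 31 17 1 = true :=
  ⟨(b (l 14) (a (a (b (b (b (l 14) (b (l 14) (a (a (a (c (l 529349647) (l 529501967)) (c (l 529333263) (l 529487887))) (a (c (l 529316367) (l 529473551)) (a (l 529381391) (l 529373455)))) (a (a (a (l 529365519) (l 529357327)) (a (l 529349135) (l 529340687))) (a (a (l 529332495) (l 4)) (l 4)))))) (a (a (a (b (l 529186063) (l 529228047)) (a (l 529196303) (l 529188879))) (a (a (l 529181455) (l 529174031)) (a (l 529166351) (l 529158671)))) (a (a (a (l 529150991) (l 529143055)) (a (l 529135119) (l 529127183))) (l 4)))) (a (b (a (a (b (l 529271567) (a (l 529588239) (l 529581839))) (a (l 529283855) (l 529276943))) (a (a (l 529270031) (l 529263119)) (a (l 529255951) (l 4)))) (a (a (a (l 529389583) (l 529383183)) (a (l 529377039) (l 4))) (l 4))) (l 4))) (l 4)) (l 4))), by decide +kernel⟩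

def k28_A00mm_202_s3 : ∃ t, chk3 f_A00mm_202_s3 t 112 18 1 = true :=
  ⟨(b (b (b (l 1) (b (a (l 1) (c (l 16492800) (l 16493088))) (c (a (b (l 16500016) (l 16502088)) (l 16512648)) (a (l 16496744) (l 16518712))))) (c (a (b (b (l 16505208) (l 16509400)) (b (l 16513624) (l 16517888))) (b (b (l 16516800) (l 16520992)) (b (l 16525216) (l 16529464)))) (c (a (b (l 16512472) (l 16521656)) (b (l 16523944) (l 16533072))) (b (l 16521824) (l 16531472))))) (b (a (b (c (b (l 16522184) (l 16510776)) (b (l 16530808) (l 16535536))) (c (b (l 16520368) (l 16524744)) (b (l 16519288) (l 16534496)))) (b (c (b (l 16512776) (l 16527560)) (c (l 16531752) (l 16525720))) (c (b (l 16531888) (l 16536240)) (b (l 16540968) (l 16545632))))) (c (b (c (a (b (l 16537232) (l 16541568)) (b (l 16548792) (l 16553104))) (b (l 16542512) (l 16546976))) (a (c (b (l 16545936) (l 16550320)) (b (l 16551032) (l 16555520))) (c (b (l 16557440) (l 16561792)) (b (l 16562320) (l 16566768))))) (b (b (a (l 16539208) (l 16550280)) (c (l 16552048) (l 16562560))) (c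 (a (b (l 16556336) (l 16560936)) (b (l 16567400) (l 16571936))) (b (l 16567272) (l 16571944))))))), by decide +kernel⟩

def k29_A00mm_202_s3 : ∃ t, chk3 f_A00mm_202_s3 t 113 18 1 = true :=
  ⟨(c (b (b (a (b (b (l 1) (l 16500392)) (b (l 16520200) (l 16524312))) (b (b (l 16508080) (l 16527856)) (b (l 16531936) (l 16536048)))) (a (b (b (l 16528464) (l 16532648)) (c (l 16521464) (l 16519824))) (b (c (l 16540736) (l 16543864)) (c (l 16533216) (l 16541976))))) (b (b (a (b (l 16534880) (l 16539160)) (c (l 16546776) (l 16550632))) (c (a (b (l 16551872) (l 16556120)) (b (l 16563568) (l 16567792))) (b (l 16556616) (l 16560992)))) (c (a (b (b (l 16560392) (l 16564680)) (b (l 16568984) (l 16573304))) (b (b (l 16572040) (l 16576296)) (c (l 16571128) (l 16573336)))) (a (b (b (l 16564856) (l 16569256)) (b (l 16573656) (l 16578056))) (b (b (l 16576336) (l 16580696)) (b (l 16585048) (l 16589392))))))) (b (b (b (a (b (l 1) (l 16500088)) (b (l 16507248) (l 16532776))) (b (c (l 16530096) (l 16532952)) (l 16536112))) (b (b (l 16540728)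 (l 16545352)) (a (b (l 16544192) (l 16548832)) (c (l 16535168) (l 16559968))))) (c (b (b (a (l 16543160) (l 16554648)) (b (l 16555688) (l 16565432))) (b (b (l 16575176) (l 16579656)) (b (l 16584120) (b (l 16587456) (l 16589672))))) (b (a (b (l 16536992) (l 16556880)) (b (l 16548344) (l 16568104))) (b (b (l 16579920) (l 16584504)) (a (l 16585856) (l 16596776))))))), by decide +kernel⟩

def k30_A00mm_202_s3 : ∃ t, chk3 f_A00mm_202_s3 t 57 18 2 = true :=
  ⟨(b (a (b (a (b (c (l 16520816) (l 16517792)) (b (l 16543752) (l 16547864))) (b (b (l 16547520) (l 16551568)) (c (l 16556392) (l 16559040)))) (b (a (c (l 16536832) (l 16555640)) (c (l 16553976) (l 16557008))) (a (c (l 16550272) (l 16553704)) (b (l 16561720) (l 16565904))))) (c (b (a (b (l 16560408) (l 16557880)) (b (l 16561992) (l 16569944))) (b (b (l 16575192) (l 16579248)) (a (a (l 16565856) (l 16577088)) (a (l 16583096) (l 16589128))))) (b (a (b (l 16562664) (l 16571008)) (b (l 16574744) (l 16572576))) (b (a (l 16568928) (l 16580936)) (b (l 16586496) (l 16595952))))))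 (a (b (b (b (c (l 16567656) (l 16571280)) (a (c (l 16571136) (l 16574944)) (c (l 16582968) (l 16586656)))) (b (a (a (l 16553360) (l 16559216)) (a (l 16575576) (l 16581464))) (c (a (l 16579520) (l 16591304)) (l 16589392)))) (c (a (b (c (l 16574344) (l 16586880)) (b (l 16592200) (l 16596448))) (b (b (l 16595488) (l 16599680)) (b (l 16603880) (l 16597600)))) (a (b (b (l 16587872) (l 16592176)) (b (l 16596480) (l 16600776))) (b (b (l 16599464) (l 16603720)) (c (l 16603800) (l 16605896)))))) (b (c (a (b (b (l 16590736) (l 16594864)) (b (l 16599000) (l 16603144))) (b (c (l 16593456) (l 16605616)) (b (l 16610928) (l 16615040)))) (b (b (l 16600160) (a (l 16598440) (l 16610288))) (a (b (l 16602672) (l 16606896)) (c (l 16605168) (l 16617480))))) (c (a (b (b (l 16607288) (l 16611448)) (b (l 16605120) (l 16614520))) (b (b (l 16619152) (l 16618024)) (b (l 16622136) (l 16626248)))) (a (b (c (l 16606992) (l 16614200)) (c (l 16615360) (l 16617352))) (b (c (l 16618712) (l 16620584)) (b (l 16631088) (l 16624712)))))))), by decide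 +kernel⟩

def k31_A00mm_202_s3 : ∃ t, chk3 f_A00mm_202_s3 t 57 18 3 = true :=
  ⟨(a (b (b (b (b (l 16546032) (l 16550544)) (b (l 16555072) (l 16559608))) (b (b (l 16566768) (a (l 16562808) (l 16574552))) (a (c (l 16546808) (l 16550552)) (b (l 16558088) (l 16562576))))) (b (a (b (b (l 16555464) (l 16559984)) (b (l 16574968) (l 16589936))) (b (b (l 16567056) (l 16592488)) (b (l 16596928) (l 16601344)))) (a (b (b (l 16594392) (l 16598824)) (a (b (l 16579456) (l 16594328)) (b (l 16585040) (l 16599864)))) (b (c (l 16605760) (l 16610096)) (a (b (l 16590624) (l 16605416)) (b (l 16596232) (l 16610984))))))) (b (b (b (b (l 16570088) (l 16574536)) (b (l 16581608) (a (l 16577440) (l 16589448)))) (a (b (b (l 16581920) (l 16565408)) (b (l 16569864) (l 16574304))) (b (c (l 16584008) (l 16597704)) (b (l 16602688) (l 16607072))))) (b (a (b (b (l 16599696) (l 16604088)) (b (l 16608464) (l 16612808))) (b (b (l 16611424) (l 16615760)) (b (l 16620064) (l 16626952)))) (a (b (c (a (l 16603856) (l 16609592)) (l 16621360)) (a (b (l 16612336)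 (l 16627048)) (b (l 16628456) (l 16632632)))) (b (a (b (l 16604728) (l 16629920)) (b (l 16631440) (l 16635616))) (a (b (l 16634096) (l 16638232)) (b (l 16639752) (l 16643840)))))))), by decide +kernel⟩

def k32_A00mm_202_s3 : ∃ t, chk3 f_A00mm_202_s3 t 58 36 1 = true :=
  ⟨(c (b (a (a (b (c (l 16574144) (l 16586912)) (b (l 16581352) (l 16585424))) (b (c (l 16586392) (l 16588688)) (b (l 16593592) (l 16597648)))) (a (b (b (l 16597872) (l 16601888)) (a (c (l 16603568) (l 16616632)) (c (l 16609760) (l 16622808)))) (b (b (l 16610336) (c (l 16623648) (l 16626024))) (c (b (l 16627600) (l 16631552)) (l 16632128))))) (b (c (a (a (b (l 16598592) (l 16602624)) (a (l 16599272) (l 16605400))) (a (a (l 16611544) (l 530012431)) (a (l 530008591) (l 530005263)))) (a (b (l 16607520) (l 16611664)) (a (l 16627912) (a (l 16626664) (l 16632848))))) (c (a (a (b (l 16606664) (l 16610720)) (a (l 530072079) (l 530068239))) (a (a (l 530064911) (l 530061583)) (b (l 16643456) (l 16636936)))) (a (b (l 16618432) (l 16622568)) (a (a (l 16622544)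 (l 16628648)) (c (l 16642352) (l 16649064))))))) (a (b (b (b (l 16599752) (a (l 16592744) (l 16605008))) (a (c (l 16576952) (l 16600776)) (b (l 16609352) (l 16613696)))) (a (b (b (l 16605912) (l 16610272)) (b (l 16614616) (l 16618936))) (b (b (l 16618024) (l 16622328)) (b (l 16626608) (l 16630864))))) (b (a (b (c (l 16592976) (l 16616472)) (b (l 16621648) (l 16625944))) (b (b (l 16625528) (l 16629784)) (b (l 16634032) (l 16638264)))) (a (b (b (l 16630208) (l 16634456)) (b (l 16638672) (l 16642864))) (a (b (l 530081551) (l 530168847)) (b (l 530089743) (l 530178575))))))), by decide +kernel⟩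

def k33_A00mm_202_s3 : ∃ t, chk3 f_A00mm_202_s3 t 58 37 2 = true :=
  ⟨(a (b (c (b (a (b (l 16614784) (l 16618848)) (a (l 530392335) (l 530389519))) (a (c (l 16618872) (l 16620560)) (b (l 16624496) (l 16633768)))) (a (a (b (l 16606648) (l 530335759)) (b (l 16612640) (l 530336271))) (a (b (l 530268175) (l 530337295)) (b (l 530268943) (l 530339087))))) (a (b (b (c (l 16625824) (l 16634568)) (c (l 16629896) (l 16638656))) (b (c (l 16633960) (l 16632240)) (c (c (l 16642408) (l 16644128)) (l 16641528)))) (b (b (c (l 16637800) (l 16646376)) (b (l 16647712) (a (l 16646760) (l 16652688)))) (b (c (c (l 16650272) (l 16651904)) (l 16649160)) (c (c (l 16654288) (l 16655904)) (l 16658384)))))) (a (b (b (b (b (l 16629136) (l 16636392)) (b (l 16638400) (l 16640416))) (b (c (l 16641864) (l 16650256)) (b (l 16651664) (l 16653664)))) (b (b (c (c (l 16654304) (l 16655856)) (l 16658248)) (c (c (l 16658280) (l 16659832)) (l 16662208))) (a (c (c (l 16655992) (l 16657544)) (l 530763791)) (c (b (l 16666000) (l 16669936)) (l 530500111)))))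 (b (b (b (a (l 530312463) (l 530179343)) (b (l 16655840) (l 16657824))) (a (c (c (l 16652232) (l 16658968)) (l 530348559)) (c (c (l 16658360) (l 16659816)) (l 530353679)))) (b (b (c (l 16667184) (l 16670176)) (c (a (l 16668080) (l 16674112)) (l 16674064))) (a (c (b (l 16671992) (l 16670656)) (l 530505999)) (a (l 530147087) (l 530149903))))))), by decide +kernel⟩

def k34_A00mm_202_s3 : ∃ t, chk3 f_A00mm_202_s3 t 58 37 3 = true :=
  ⟨(a (b (a (a (b (l 530217231) (l 530302991)) (b (l 530221839) (l 530308367))) (b (b (l 16635088) (l 16641904)) (a (l 530314511) (l 530321423)))) (a (b (a (b (l 16637192) (l 16641328)) (b (l 16642952) (l 16647048))) (a (b (l 16645416) (l 16649464)) (c (l 16651248) (l 16654984)))) (b (a (c (l 16648952) (l 16652600)) (l 530410767)) (a (c (l 16656968) (l 16660592)) (b (l 16662480) (l 16666384)))))) (a (a (b (b (l 530240527) (l 530329615)) (b (l 530419471) (l 530509071))) (b (b (l 530248719) (l 530338831)) (b (l 530429455) (l 530519311)))) (b (a (b (l 530258447) (l 530349583)) (b (l 530269455)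 (l 530361615))) (a (b (l 530440719) (l 530531087)) (b (l 530453775) (l 530544399)))))), by decide +kernel⟩

def k35_A00mm_202_s3 : ∃ t, chk3 f_A00mm_202_s3 t 59 36 1 = true :=
  ⟨(a (b (c (b (a (c (b (l 16632232) (l 16636168)) (l 16636496)) (b (l 16645864) (c (l 16648696) (l 16650976)))) (a (b (l 16641312) (c (l 16644040) (l 16646584))) (a (b (l 16640184) (l 16644144)) (b (l 16646416) (l 16650360))))) (a (b (b (l 16638032) (l 16642232)) (b (l 16646432) (l 16650600))) (b (b (l 16650424) (l 16654576)) (b (l 16658712) (l 16662824))))) (a (c (b (a (b (l 16635688) (l 16639672)) (b (l 16641896) (l 530085135))) (b (a (l 530385167) (l 530116111)) (b (l 16660192) (l 16662160)))) (b (b (l 16654752) (l 16661488)) (a (l 530188559) (l 530197519)))) (c (b (a (c (l 529993487) (l 530143503)) (c (l 529988111) (l 16668016))) (b (b (l 16668576) (l 16670528)) (c (l 16672160) (l 16674784)))) (a (b (l 530111247) (l 530204943)) (b (l 530115599) (l 530210831)))))) (a (b (b (a (c (b (l 16644768) (l 16648712)) (l 529934607)) (c (b (l 16651032)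 (l 16654968)) (l 529932303))) (a (c (c (l 529929487) (l 16666264)) (l 530024207)) (c (c (l 529921295) (l 16672456)) (l 530023695)))) (c (b (a (c (l 530250255) (l 16674160)) (a (l 530056207) (l 530053391))) (b (c (l 16680680) (l 16683080)) (c (l 16684528) (l 16686944)))) (a (b (l 530118415) (l 530215439)) (b (l 530119951) (l 530218255))))) (c (c (b (b (a (l 530131215) (l 530120207)) (b (l 16677736) (l 16681600))) (b (b (l 16685448) (l 16689288)) (a (b (l 16690000) (l 16693816)) (c (l 16697616) (l 16698640))))) (b (a (b (l 16670768) (l 16678640)) (b (l 16677000) (l 530051855))) (a (b (l 530130959) (l 530207247)) (b (l 530393615) (l 530203151))))) (b (a (b (l 529928207) (l 530021647)) (b (l 529922575) (l 530017807))) (a (b (l 530119695) (l 530219791)) (b (l 530117647) (l 530219535))))))), by decide +kernel⟩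

def k36_A00mm_202_s3 : ∃ t, chk3 f_A00mm_202_s3 t 59 37 2 = true :=
  ⟨(a (a (b (b (b (b (l 16664136) (l 16666104)) (a (l 530214671) (l 530215951))) (b (a (l 530249743) (l 530251791)) (c (l 16675440) (l 16678264)))) (b (a (c (b (l 16676280) (l 16680160)) (l 530438415)) (a (c (l 530250255) (l 530442767)) (l 530078735))) (a (a (l 530152719) (l 530155279)) (a (l 530157583) (l 530159631))))) (b (b (b (c (l 16676040) (l 16678688)) (c (l 16679912) (l 16682560))) (a (c (b (l 16680712) (l 16684568)) (l 530366991)) (c (b (l 16686824) (l 16685408)) (l 530369551)))) (b (a (a (l 530080015) (l 530081295)) (a (l 530082063) (l 530082831))) (a (b (l 530141455) (l 530183695)) (b (l 530144271) (l 530187023)))))) (a (b (a (b (c (b (l 16685280) (l 16689120)) (l 530289935)) (a (l 530003727) (l 530003215))) (b (c (b (l 16691448) (l 16690016)) (l 530289167)) (a (l 530002703) (l 530001935)))) (a (b (b (l 530062863) (l 530104079)) (a (l 530167311) (l 530168335))) (b (a (l 530083599) (l 530083599)) (a (l 530169103) (l 530169615))))) (b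 (a (b (a (c (l 530096911) (l 530288143)) (l 529921295)) (a (l 530000911) (l 529999887))) (b (a (l 529919503) (l 529917199)) (a (l 529998351) (l 529996815)))) (a (b (a (l 530083087) (l 530082575)) (a (l 530169871) (l 530170127))) (b (b (l 530059791) (l 530102799)) (a (l 530169871) (l 530169615))))))), by decide +kernel⟩

def k37_A00mm_202_s3 : ∃ t, chk3 f_A00mm_202_s3 t 59 37 3 = true :=
  ⟨(a (a (b (b (a (l 530280975) (l 530291471)) (a (l 530374415) (l 530385935))) (b (a (l 530467599) (l 530479631)) (a (l 530558223) (l 530839055)))) (b (b (a (l 530300175) (l 530307599)) (a (l 530395919) (l 530404367))) (b (a (l 530490383) (l 530767631)) (a (l 530850063) (l 530859535))))) (a (b (a (b (l 530313487) (l 530679823)) (b (l 530317839) (l 530684943))) (a (b (l 530774799) (l 530867471)) (b (l 530780431) (l 530874127)))) (b (a (b (l 530589199) (l 530688527)) (b (l 530590223) (l 530690063))) (a (b (l 530784271) (l 530879503)) (b (l 530786831) (l 530883343)))))), by decide +kernel⟩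

def k38_A00mm_202_s3 : ∃ t, chk3 f_A00mm_202_s3 t 120 36 1 = true :=
  ⟨(a (b (c (a (a (b (l 529909263) (l 529969935)) (b (l 529903631) (l 529965071))) (a (b (l 529897743) (l 529959951)) (b (l 529891855) (l 529954831)))) (a (b (l 529915407) (l 530012431)) (b (l 529906191) (l 530005263)))) (b (a (c (c (c (l 16696296) (l 16697248)) (l 530386959)) (l 530114319)) (c (a (l 530296079) (l 530023183)) (l 530108943))) (a (a (b (l 530003215) (l 530315791)) (b (l 530268943) (l 530045199))) (c (b (c (l 16708720) (l 16710520)) (l 529848847)) (l 530482447))))) (c (b (a (a (b (l 529885455) (l 529949455)) (b (l 529879055) (l 529943823))) (a (b (l 529872399) (l 529937935)) (b (l 529865743) (l 529931791)))) (b (a (a (l 530018575) (l 530013711)) (a (l 530008591) (l 530003471))) (a (b (c (l 16714984) (l 16716632)) (l 529841423)) (a (l 530352655) (l 530079759))))) (b (a (b (l 529895183) (l 529996303)) (b (l 529882383) (l 529985295))) (a (b (l 530101775) (l 530476815)) (b (l 530092559) (l 530469135)))))), by decide +kernel⟩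

def k39_A00mm_202_s3 : ∃ t, chk3 f_A00mm_202_s3 t 120 37 1 = true :=
  ⟨(a (b (a (b (c (a (l 529914639) (l 529912079)) (l 530589455)) (c (a (l 529995023) (l 529992975)) (l 530689551))) (b (c (a (l 529909263) (l 529906191)) (l 530586895)) (c (a (l 529990671) (l 529988367)) (l 530687247)))) (c (a (b (a (l 530079759) (l 530078479)) (a (l 530169359) (l 530168591))) (b (a (l 530076943) (l 530075151)) (b (l 530143759) (l 530190607)))) (a (b (l 530787599) (l 530885647)) (b (l 530786831) (l 530618127))))) (b (c (a (b (a (l 529902863) (l 529899535)) (a (l 529985807) (l 529982991))) (b (a (l 529895695) (l 529891855)) (a (l 529979919) (l 529976847)))) (a (b (l 530581775) (l 530414607)) (b (l 530574351) (l 530408207)))) (c (a (b (a (l 530073359) (l 530071055)) (a (l 530165519) (l 530163983))) (b (a (l 530068751) (l 530066447)) (a (l 530162447) (l 530160655)))) (a (b (l 530784271) (l 530348815)) (b (c (l 530397455) (l 530627343)) (a (l 530884367) (l 530882575))))))), by decide +kernel⟩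

def k40_A00mm_202_s3 : ∃ t, chk3 f_A00mm_202_s3 t 121 18 1 = true :=
  ⟨(b (a (b (a (a (c (b (l 529858575) (l 529925647)) (l 529922831)) (c (b (l 529851407) (l 529919247)) (l 529915151))) (b (a (l 529443855) (l 529703695)) (c (a (l 529912847) (l 529905935)) (l 529956111)))) (a (c (b (a (l 529998095) (l 529992463)) (b (l 529784079) (l 529824015))) (b (l 530081039) (l 530458895))) (c (b (a (l 529986575) (l 529980687)) (b (l 529773839) (l 529814287))) (b (l 530066959) (l 530445327))))) (b (a (b (a (l 529694735) (l 529685519)) (c (a (l 529899023) (l 529892111)) (l 529937423))) (b (a (l 529676047) (l 529397775)) (c (a (l 529884687) (l 529877263)) (l 529916943)))) (a (a (b (l 529340175) (a (l 530242063) (l 530238479))) (b (l 529869327) (l 529964047))) (a (b (l 529861135) (l 529956111)) (b (l 529852943) (l 529947919)))))) (a (b (c (a (b (b (l 529864719) (l 529906703)) (a (l 529973519) (l 529969935))) (b (b (l 529855759) (l 529898255)) (a (l 529966351) (l 530231055)))) (a (b (l 530564111) (l 530667791)) (b (l 530550543)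 (l 530656015)))) (a (b (c (a (l 530063887) (l 530061071)) (a (l 530775311) (l 530771215))) (c (a (l 530158863) (l 530156559)) (a (l 530880527) (l 530877711)))) (c (b (a (l 530057999) (l 530055183)) (a (l 530154255) (l 530151951))) (b (l 530092047) (a (l 530874127) (l 530869775)))))) (a (b (c (a (a (l 529915151) (l 529913103)) (l 529909775)) (a (l 530590991) (l 530581519))) (c (a (b (l 530052111) (l 530149647)) (l 530097679)) (a (b (l 530753039) (l 530863375)) (l 530799119)))) (b (c (a (l 529905167) (l 529900303)) (a (l 530571535) (l 530561551))) (c (a (l 530094607) (l 530091535)) (a (l 530790159) (l 530780943))))))), by decide +kernel⟩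

def k41_A00mm_202_s3 : ∃ t, chk3 f_A00mm_202_s3 t 122 18 1 = true :=
  ⟨(b (b (a (c (a (a (b (l 529795599) (l 529869327)) (b (l 529786639) (l 529861391))) (b (a (l 529777423) (l 529767951)) (a (l 529852943) (c (l 529774351) (l 529915919))))) (a (b (l 529785103) (l 529896207)) (b (l 529762831) (l 529874959)))) (a (b (a (b (l 529592591) (l 529638415)) (b (l 529581839) (l 529627919))) (a (b (l 529686031) (l 529734927)) (b (l 529675791) (l 529725199)))) (b (a (b (l 529570831) (l 529617167)) (a (l 529585679) (l 529580047))) (a (a (l 529693199) (l 529688079)) (b (l 529655055) (l 529705231)))))) (a (a (a (b (l 529575951) (l 529939727)) (b (l 529298959) (l 529931023))) (a (b (b (l 529802767) (l 530119439)) (l 529922319)) (b (b (l 529793551) (l 530110223)) (l 529913359)))) (a (b (a (b (l 529784079) (l 530100495)) (b (l 529774607) (l 530090767))) (a (l 529635599) (l 529626127))) (b (a (b (l 529764367) (l 530080527)) (a (l 530049039) (l 530043919))) (a (b (l 530128911) (l 530178319)) (b (l 530119183) (l 530168591))))))) (a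 (b (a (c (a (l 529895439) (l 529890063)) (a (l 530551567) (l 530541327))) (a (b (l 530019855) (l 530120975)) (b (l 530011663) (l 530113295)))) (a (c (a (l 530088207) (l 530084623)) (a (l 530771727) (l 530762255))) (a (b (l 530225423) (l 4)) (l 4)))) (b (b (a (a (l 529734671) (l 529725711)) (a (l 529448463) (l 4))) (a (a (l 529836815) (l 4)) (l 4))) (l 4)))), by decide +kernel⟩

def k42_A00mm_202_s3 : ∃ t, chk3 f_A00mm_202_s3 t 123 18 1 = true :=
  ⟨(b (a (b (a (b (a (a (l 529574671) (l 529569039)) (b (l 529537039) (l 529584399))) (a (b (l 529644303) (l 529694991)) (b (l 529633551) (l 529683983)))) (b (a (b (l 529525519) (l 529573135)) (b (l 529514511) (l 529293839))) (a (b (c (l 529756175) (l 530031375)) (b (l 529660943) (l 529685263))) (a (b (l 529613839) (l 529664527)) (b (l 529608719) (l 529658895)))))) (a (a (c (a (l 529660943) (l 529656591)) (l 529710863)) (c (a (l 529652239) (l 529647631)) (l 530235919))) (b (a (b (l 529721359) (l 530038543)) (b (l 529709839) (l 4))) (l 4)))) (b (a (b (a (a (l 529530383) (l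 529525263)) (a (l 529519887) (l 529514767))) (a (a (b (l 529604111) (l 529653775)) (b (l 529598991) (l 4))) (a (b (l 529594127) (l 4)) (l 4)))) (b (a (a (l 529509391) (l 529503759)) (b (l 529470479) (l 4))) (l 4))) (l 4))) (l 4)), by decide +kernel⟩

def k43_A00mm_202_s3 : ∃ t, chk3 f_A00mm_202_s3 t 31 18 1 = true :=
  ⟨(l 4), by decide +kernel⟩

def k44_A00mm_202_s3 : ∃ t, chk3 f_A00mm_202_s3 t 112 38 1 = true :=
  ⟨(b (c (b (a (c (b (l 16554720) (l 16559144)) (b (l 16560016) (l 16564512))) (c (b (l 16566160) (l 16570544)) (c (l 16561656) (l 16574736)))) (a (c (b (l 16563576) (l 16568008)) (c (l 16559376) (l 16562160))) (c (b (l 16574936) (l 16579320)) (b (l 16580088) (l 16584520))))) (b (b (c (l 16571000) (l 16576592)) (a (a (l 530557711) (l 530557199)) (a (l 530556943) (l 530556943)))) (a (a (c (l 16568992) (l 530713871)) (c (l 16574368) (l 530713615))) (a (b (l 530601231) (l 530646287)) (b (l 530601231) (l 530646543)))))) (c (c (a (b (b (l 16572440) (l 16576880)) (b (l 16581312) (l 16585736))) (b (b (l 16583712)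 (l 16577608)) (b (l 16581984) (l 16586352)))) (a (b (b (l 16577976) (l 16582456)) (b (l 16586920) (l 16591376))) (b (b (l 16588944) (l 16593352)) (c (l 16593360) (l 16596056))))) (a (b (a (c (l 16578096) (l 530810383)) (c (l 16583392) (l 530810127))) (c (c (l 16588264) (l 16591240)) (c (l 16589032) (l 16602600)))) (b (c (c (l 16589976) (l 16592752)) (c (l 16590336) (l 16603696))) (c (c (l 16598800) (l 16601592)) (c (l 16599200) (l 16612584))))))), by decide +kernel⟩

def k45_A00mm_202_s3 : ∃ t, chk3 f_A00mm_202_s3 t 113 38 1 = true :=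
  ⟨(b (c (c (a (b (b (l 16577640) (l 16581976)) (b (l 16586320) (l 16580184))) (b (b (l 16589152) (l 16582960)) (b (l 16587264) (c (l 16600912) (l 16603184))))) (a (b (c (l 16572928) (l 16575392)) (b (l 16591216) (l 16595584))) (b (b (l 16593728) (l 16598056)) (c (l 16598112) (l 16600472))))) (a (b (a (b (l 16576816) (l 530557455)) (b (l 16582264) (l 530557967))) (a (b (l 530601743) (l 530646799)) (b (l 530602255) (l 530647567)))) (b (a (b (l 16587720) (l 530558735)) (b (l 16593192) (l 530560015))) (a (b (l 530603279) (l 16611304)) (b (l 530604559) (l 16616648)))))) (c (c (a (b (b (l 16584520) (c (l 16598128) (l 16600552))) (c (b (l 16602448) (l 16606760)) (l 16601792))) (b (a (b (l 16603488) (l 16607776)) (b (l 16609152) (l 16613416))) (b (l 16609616) (l 16613864)))) (b (a (c (l 16595616) (l 16598136)) (b (l 16600480) (l 16604752))) (a (b (l 16598120) (l 16602432)) (b (l 16614248) (l 16618480))))) (a (b (a (b (l 530693135) (l 16609440)) (b (l 16610336) (l 16614672))) (c (c (l 16609360) (l 16611976)) (b (l 16619080)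 (l 16623392)))) (b (a (b (l 16615624) (l 16619912)) (b (l 16620920) (l 530743055))) (a (b (l 530789647) (l 530838287)) (c (l 530718735) (l 16633928))))))), by decide +kernel⟩

def k46_A00mm_202_s3 : ∃ t, chk3 f_A00mm_202_s3 t 56 78 1 = true :=
  ⟨(a (c (c (a (b (b (l 16590152) (l 16594552)) (b (l 16598944) (l 16603320))) (b (c (b (l 16599904) (l 16604248)) (l 16599432)) (c (l 16605480) (l 16608080)))) (b (a (c (l 16591344) (l 16594232)) (c (l 16602080) (l 16604784))) (a (c (l 16600144) (l 16603048)) (c (l 16610728) (l 16613432))))) (a (b (c (c (l 16597176) (l 16594936)) (c (l 16608472) (l 16611584))) (c (c (l 16600760) (l 16603768)) (b (l 16616664) (l 16621064)))) (b (c (c (l 16607536) (l 16610336)) (b (l 16617704) (l 16622048))) (c (c (l 16616184) (l 16624224)) (b (l 16626368) (l 16630664)))))) (c (a (b (b (c (c (l 16611048) (l 16613480)) (l 16606712)) (c (l 16611288) (l 16610984))) (a (b (l 530589199) (l 530635023)) (b (l 530591247) (l 530637327)))) (b (b (c (l 16618088) (l 16622688)) (a (l 530547983) (l 530550031)))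 (a (b (l 530593295) (l 530639631)) (b (l 530595599) (l 530642191))))) (a (b (c (c (l 16617920) (l 16625776)) (b (l 16627656) (l 16631896))) (c (b (l 16630816) (l 16635032)) (b (l 16636112) (l 16640320)))) (b (a (c (l 16632200) (l 16637232)) (c (l 16637368) (l 16642216))) (a (c (l 16640528) (l 16645520)) (c (l 16645608) (l 16650408))))))), by decide +kernel⟩

def k47_A00mm_202_s3 : ∃ t, chk3 f_A00mm_202_s3 t 56 79 1 = true :=
  ⟨(a (c (c (a (b (c (l 16603208) (l 16606008)) (c (l 16611808) (l 16614624))) (b (c (l 16614040) (l 16616640)) (c (l 16622480) (l 16625096)))) (a (b (c (l 16608864) (l 16606528)) (l 530917647)) (b (c (l 16619296) (l 16622000)) (c (l 16627768) (l 16635720))))) (a (b (c (b (l 16619304) (l 16623656)) (b (l 16625440) (l 16629808))) (c (l 531122959) (l 531353359))) (b (c (b (l 16629248) (l 16633520)) (b (l 16634952) (l 16639224))) (c (l 531126543) (l 531354895))))) (c (a (b (a (b (l 530681871) (l 530729743)) (b (l 530684431) (l 530732559))) (a (b (l 530778639) (l 531096847)) (b (l 530781455) (l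 531099919)))) (b (a (b (l 530686991) (l 530735375)) (b (l 530689807) (l 530738191))) (a (b (l 530784527) (l 530834703)) (b (l 530787855) (l 530838031))))) (a (b (c (b (l 16639232) (l 16643408)) (b (l 16644512) (l 16648688))) (c (b (l 16647568) (l 16651712)) (b (l 16652864) (l 16657024)))) (b (c (b (l 16649240) (l 16653328)) (b (l 16654120) (l 16658200))) (c (b (l 16657400) (l 16661448)) (b (l 16662280) (l 16666344))))))), by decide +kernel⟩

def k48_A00mm_202_s3 : ∃ t, chk3 f_A00mm_202_s3 t 57 76 1 = true :=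
  ⟨(a (a (c (c (b (b (l 16590216) (c (l 16603888) (l 16606024))) (a (b (l 16606328) (l 16610584)) (b (l 16612064) (l 16616296)))) (b (c (l 16600840) (l 16603064)) (c (l 16609344) (l 16611576)))) (b (a (b (l 16598680) (l 530561551)) (b (l 16604176) (l 16618928))) (a (b (l 16617752) (l 16622000)) (b (l 16623160) (l 16627360))))) (c (c (b (a (b (l 16609384) (l 16613600)) (b (l 16615192) (l 16619384))) (b (l 16615448) (l 16619632))) (b (c (l 16612232) (l 16614344)) (b (l 16614328) (l 16623736)))) (b (a (b (l 16620168) (l 16624392)) (b (l 16625688) (l 16629872))) (a (b (l 16628576) (l 16632736)) (b (l 16634008) (l 530658063)))))) (c (c (a (b (b (l 16618680) (l 16622832)) (a (b (l 16629328) (l 16633472)) (b (l 16635104) (l 16639216)))) (b (b (l 16630352) (c (l 16638800) (l 16640600))) (a (b (l 16640880) (l 16644968)) (c (l 16642600) (l 16644328))))) (b (a (b (l 16617352) (l 16626728)) (b (l 16634048) (l 16638112))) (a (b (l 16630848) (l 16634936)) (c (l 16648496) (l 16650328))))) (a (b (a (b (l 16631224) (l 16635360))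 (b (l 16636768) (l 16640856))) (a (c (l 16639392) (l 16643616)) (b (l 530619407) (l 530664207)))) (b (a (b (l 16642320) (l 16646360)) (c (l 16647952) (l 16651856))) (a (b (l 530623247) (l 530668047)) (b (l 530627855) (l 530672399))))))), by decide +kernel⟩

def k49_A00mm_202_s3 : ∃ t, chk3 f_A00mm_202_s3 t 57 77 1 = true :=
  ⟨(a (c (a (c (b (b (l 16612432) (l 16616648)) (b (l 16620848) (l 16625024))) (b (b (l 16616784) (l 16620984)) (b (l 16625160) (l 16629312)))) (c (b (a (b (l 16626200) (l 16630368)) (b (l 16631896) (l 16636032))) (a (b (l 16634520) (l 16638648)) (b (l 16640152) (l 16644240)))) (b (b (l 16627880) (l 16632000)) (b (l 16636096) (l 16640168))))) (a (b (a (b (l 16626224) (l 530744335)) (b (l 530699279) (l 530746127))) (a (c (l 16634304) (l 16639024)) (c (l 530721295) (l 16644128)))) (b (a (b (l 530701327) (l 530748175)) (c (l 530632975) (l 16646384))) (a (c (l 530723087) (l 16649240)) (c (l 530725135) (l 530919695)))))) (c (a (b (b (c (c (l 16639528) (l 16641392)) (l 16639008)) (a (c (l 16641704)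 (l 16645520)) (c (l 16647384) (l 16651056)))) (c (a (c (l 16641664) (l 16643504)) (c (l 16647320) (l 16649088))) (b (c (l 16651368) (l 16653256)) (l 16656296)))) (b (b (c (c (l 16651040) (l 16652760)) (l 16655408)) (c (c (l 16655072) (l 16656768)) (l 16659368))) (c (a (b (l 16657080) (l 16661056)) (b (l 16657488) (l 16661432))) (b (l 16663304) (l 16667208))))) (a (b (a (c (l 530635279) (l 16651624)) (c (l 530638095) (l 16659488))) (a (c (l 530727695) (l 530922511)) (c (l 530730767) (l 530925839)))) (b (a (c (l 530641167) (l 530832911)) (c (l 530644751) (l 530837519))) (a (c (l 530734095) (l 530929935)) (c (l 530738191) (l 530934799))))))), by decide +kernel⟩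

def k50_A00mm_202_s3 : ∃ t, chk3 f_A00mm_202_s3 t 114 39 1 = true :=
  ⟨(b (a (c (b (b (c (c (l 16633392) (l 16635472)) (l 16633440)) (a (l 530552079) (l 530554127))) (a (b (l 530597903) (l 530644751)) (b (l 530600207) (l 530647311)))) (b (a (c (l 16642544) (l 16647200)) (c (l 530817807) (l 16652208))) (a (c (l 530917903) (l 16655304)) (c (l 530920207) (l 16660216))))) (c (b (a (b (l 530511119) (l 530556431)) (b (l 530513423) (l 530558991))) (a (b (l 530603023) (l 530650127)) (b (l 530605583) (l 530653199)))) (b (a (c (l 530820111) (l 16657224)) (c (l 530822671) (l 531022351))) (a (c (l 530923023) (l 16665136)) (b (l 531001103) (l 531056655)))))) (c (a (b (a (b (l 530692623) (l 530741263)) (b (l 530695439) (l 530744335))) (a (b (l 530790927) (l 530841615)) (b (l 530794255) (l 530844943)))) (b (a (b (l 530698511) (l 530747663)) (b (l 530701839) (l 530751247))) (a (b (l 530797839) (l 530848527)) (b (l 530801423) (l 530852367))))) (a (b (a (c (l 531026191) (l 16663360)) (b (l 531107087) (l 531434255))) (a (b (l 531491599)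 (l 16665800)) (b (l 531495439) (l 531559183)))) (b (a (b (l 531110415) (l 531438095)) (b (l 531114255) (l 531442703))) (a (b (l 531500047) (l 531564559)) (b (l 531505167) (l 531570703))))))), by decide +kernel⟩

def k51_A00mm_202_s3 : ∃ t, chk3 f_A00mm_202_s3 t 115 39 1 = true :=
  ⟨(b (c (a (b (c (a (c (l 16649736) (l 16651536)) (b (l 16659440) (l 16663392))) (b (l 16660264) (l 16664200))) (a (b (l 530608655) (l 530656527)) (b (b (l 16657568) (l 16659512)) (l 530659855)))) (b (c (a (b (l 16659760) (l 16663680)) (b (l 16665336) (l 16669208))) (b (l 16671096) (l 16674944))) (a (b (c (l 16667552) (l 16676096)) (l 530663695)) (b (l 530619407) (l 530667791))))) (a (b (a (c (l 530825487) (l 531025679)) (c (l 530829071) (l 531029519))) (a (b (l 531004687) (l 531060751)) (c (l 530933775) (l 531141647)))) (b (a (c (l 530833167) (l 531034127)) (c (l 530837775) (l 531039759))) (a (c (l 530938639) (l 531147279)) (c (l 530944271) (l 531153935)))))) (a (c (b (a (b (l 530705167) (l 530754831)) (b (l 530708751) (l 530758671)))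 (a (b (l 530805007) (l 530856207)) (b (l 530809103) (l 530860303)))) (b (a (b (l 531118863) (l 531447823)) (b (l 531392527) (l 531453967))) (a (b (l 531511311) (l 531577871)) (l 531015183)))) (c (b (a (b (l 530712847) (l 530762511)) (b (l 530716943) (l 530766863))) (a (b (l 530813199) (l 530864655)) (b (l 530817551) (l 530869263)))) (b (a (c (l 531052559) (l 531271695)) (c (l 531059215) (l 531280399))) (a (l 531291919) (c (l 531183887) (l 531689231))))))), by decide +kernel⟩

def k52_A00mm_202_s3 : ∃ t, chk3 f_A00mm_202_s3 t 116 38 1 = true :=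
  ⟨(b (c (a (b (b (c (c (l 16646472) (l 16648176)) (l 16645544)) (c (c (l 16650520) (l 16652200)) (l 16654784))) (b (c (c (l 16654560) (l 16656216)) (l 16658752)) (c (c (l 16658584) (l 16660200)) (l 16662688)))) (b (b (c (c (l 16658288) (l 16659880)) (l 16662328)) (c (c (l 16662288) (l 16663848)) (l 16666248))) (a (a (c (l 530470415) (l 530650639)) (l 530309647)) (a (l 530294543) (l 530296591))))) (a (b (a (b (l 16653456) (l 530589199)) (b (l 16659040) (l 530595087))) (a (b (l 530632975) (l 530677263)) (b (l 530638607) (l 530682639)))) (b (a (b (l 530558479) (l 530601999)) (b (l 530566159) (l 530609423))) (a (b (l 530645263) (l 530689295)) (b (l 530652687) (l 530696719)))))) (c (a (b (b (c (c (l 16662576) (l 16664160)) (l 16666592)) (a (l 530393103) (l 530396431))) (a (b (l 530437391) (l 530482447)) (b (l 530440975) (l 530486543)))) (b (a (b (l 530356239) (l 530400271)) (b (l 530360335) (l 530404623))) (a (b (l 530445071) (l 530490895)) (b (l 530449935) (l 530496271))))) (a (b (a (b (l 530722319) (l 530768655))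 (b (l 530727951) (l 530774543))) (a (c (l 530743055) (l 530940687)) (b (l 530822671) (l 530872335)))) (b (a (b (l 530734607) (l 530781199)) (b (l 530742287) (l 530789391))) (a (b (l 530829839) (l 530880015)) (b (l 530838031) (l 530888719))))))), by decide +kernel⟩

def k53_A00mm_202_s3 : ∃ t, chk3 f_A00mm_202_s3 t 117 38 1 = true :=
  ⟨(b (a (c (b (a (a (l 530214927) (l 530216719)) (a (l 530218767) (l 530221071))) (a (a (l 530298639) (l 530300943)) (b (l 530283279) (l 530326543)))) (b (a (a (l 530594575) (l 530599183)) (l 530606607)) (a (l 530683407) (l 530693647)))) (c (a (b (a (l 530223631) (l 530226447)) (b (l 530288911) (l 530332943))) (b (b (l 530210063) (l 530252559)) (a (l 530316303) (l 530320143)))) (a (b (l 530618127) (l 530974223)) (b (l 530900239) (l 530988559))))) (a (c (a (b (b (l 530365199) (l 530409999)) (b (l 530455567) (l 530502159))) (b (b (l 530370831) (l 530416143)) (b (l 530462223) (l 530509071)))) (a (b (b (l 530751503) (l 530798863)) (b (l 530848015) (l 530899215))) (b (l 530785807) (l 530885391))))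 (c (a (b (b (l 530377743) (l 530423311)) (a (l 530491407) (l 530495759))) (b (a (l 530406671) (l 530411279)) (a (l 530500367) (l 530505487)))) (a (b (l 531067407) (l 530899727)) (b (l 531082767) (l 531185423)))))), by decide +kernel⟩

def k54_A00mm_202_s3 : ∃ t, chk3 f_A00mm_202_s3 t 116 39 1 = true :=
  ⟨(b (a (c (b (a (b (l 530528783) (l 530575631)) (b (l 530532879) (l 530580239))) (a (b (l 530623503) (l 530672143)) (b (l 530628111) (l 530677007)))) (b (a (c (l 530843151) (l 531046159)) (c (l 530849551) (l 531054095))) (a (c (l 530950671) (l 531161871)) (c (l 530958351) (l 531171343))))) (c (a (b (b (l 530537743) (l 530585103)) (b (l 530633487) (l 530682383))) (b (b (l 530543119) (l 530590991)) (b (l 530639375) (l 530688527)))) (b (a (b (l 530932239) (l 530986767)) (b (l 530941711) (l 531265551))) (a (b (l 531312655) (l 531372815)) (c (l 530977295) (l 531195663)))))) (a (c (b (a (b (l 530721551) (l 530771471)) (b (l 530726415) (l 530776591))) (a (b (l 530822415) (l 530874383)) (b (l 530827791) (l 530879759))))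 (b (a (c (l 531067407) (l 531290895)) (c (l 531076367) (l 531571215))) (a (l 531043087) (l 531054607)))) (c (a (b (b (l 530732047) (l 530782223)) (b (l 530833679) (l 530885903))) (b (b (l 530738191) (l 530788623)) (b (l 530840079) (l 530892559)))) (a (b (l 530932239) (l 531335439)) (b (l 531214351) (l 531349519)))))), by decide +kernel⟩

def k55_A00mm_202_s3 : ∃ t, chk3 f_A00mm_202_s3 t 117 39 1 = true :=
  ⟨(a (b (c (b (a (b (l 530549519) (l 530597391)) (b (l 530556687) (l 530604815))) (a (b (l 530646031) (l 530695183)) (b (l 530653711) (l 530703119)))) (b (a (l 530712335) (l 530994447)) (a (l 530831119) (l 531116303)))) (c (a (b (b (l 530745103) (l 530796047)) (b (l 530847759) (l 530900239))) (b (a (l 530776591) (l 530781199)) (b (l 530856463) (l 530909199)))) (a (b (l 531229711) (l 531365391)) (b (l 531515919) (l 531652111))))) (b (c (a (b (a (l 530587151) (l 530591759)) (a (l 530684943) (l 530690063))) (b (a (l 530596879) (l 530602255)) (a (l 530695439) (l 530701327)))) (a (b (l 531011087) (l 531404047)) (b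 (l 531031311) (l 531427087)))) (a (c (b (a (l 530786063) (l 530791439)) (l 530624527)) (b (l 531536399) (l 531673359))) (c (b (l 530531855) (l 530905615)) (b (l 531560719) (l 531698959)))))), by decide +kernel⟩

def k56_A00mm_202_s3 : ∃ t, chk3 f_A00mm_202_s3 t 59 38 1 = true :=
  ⟨(a (b (a (c (b (a (b (l 530216463) (l 530259471)) (b (l 530222095) (l 530265871))) (a (b (l 530303759) (l 530348815)) (b (l 530310671) (l 530356239)))) (b (a (l 530914575) (l 530927887)) (a (l 531003919) (l 531018255)))) (c (a (b (b (l 530226959) (l 530271247)) (b (l 530316815) (l 530363151))) (b (b (l 530230799) (l 530276111)) (a (l 530344207) (l 530347023)))) (a (b (l 530939919) (l 531031055)) (b (l 530950415) (l 531042831))))) (a (c (a (b (b (l 530394639) (l 530441487)) (a (l 530510607) (l 530515471))) (b (a (l 530424591) (l 530428687)) (a (l 530520335) (l 530524943)))) (a (b (l 531099663) (l 531204623)) (b (l 531115535) (l 531222799)))) (c (a (b (a (l 530432527) (l 530436111)) (l 530396943)) (b (a (l 530439439) (l 530442767)) (a (l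 530537231) (l 530541071)))) (a (b (l 531130127) (l 531240463)) (b (l 531143439) (l 531257615)))))) (b (a (b (a (c (b (l 530234127) (l 530279951)) (l 530959631)) (c (b (l 530236687) (l 530283023)) (l 530967311))) (a (c (a (l 530349327) (l 530351631)) (l 531053071)) (c (b (l 530330639) (l 530378767)) (l 531062031)))) (b (a (c (b (l 530238223) (l 530285583)) (l 530973711)) (c (a (l 530262799) (l 530263311)) (l 530978831))) (a (c (b (l 530333711) (l 530382607)) (l 531069711)) (c (b (l 530335759) (l 530385423)) (l 531076367))))) (a (b (a (c (a (l 530445839) (l 530448655)) (l 531155983)) (c (b (l 530427663) (l 530477327)) (l 531167503))) (a (c (a (l 530544399) (l 530547727)) (l 531274511)) (c (l 530283535) (l 531290895)))) (b (a (c (b (l 530432015) (l 530481935)) (l 531178511)) (c (a (l 530459663) (l 530461199)) (l 531189263))) (a (c (l 530557455) (l 531306255)) (c (l 530561807) (l 531320847))))))), by decide +kernel⟩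

def k57_A00mm_202_s3 : ∃ t, chk3 f_A00mm_202_s3 t 59 39 1 = true :=
  ⟨(a (a (b (c (a (b (b (l 530585871) (l 530635279)) (l 530710287)) (b (l 530352399) (l 530721807))) (a (b (l 531322639) (l 531452431)) (b (l 531344911) (l 531476751)))) (c (a (b (l 531081999) (l 531188495)) (b (l 531094543) (l 531202063))) (a (b (l 531587599) (l 531727375)) (b (l 531613711) (l 531755279))))) (b (c (a (b (l 530630415) (l 530732559)) (b (l 530639119) (l 531010831))) (a (b (l 531366415) (l 531500047)) (b (l 531386895) (l 531522575)))) (c (a (b (l 531106319) (l 531215119)) (b (l 531117583) (l 531227407))) (a (l 530904591) (l 530929423))))) (a (b (c (a (b (l 530647055) (l 531020047)) (b (l 530654479) (l 531028751))) (a (b (l 531406351) (l 531543823)) (b (l 531424783) (l 531564047)))) (c (a (b (l 531128079) (l 531238927)) (b (l 531137551) (l 531249935))) (a (l 530953231) (l 530976015)))) (b (a (c (b (l 530929423) (l 531036431)) (b (l 531442191) (l 531583247))) (c (b (l 530935311) (l 530775055)) (b (l 531458575) (l 531601167)))) (a (c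 (b (l 531146767) (l 531260175)) (l 530998031)) (c (b (l 531154959) (l 531269647)) (l 531018767)))))), by decide +kernel⟩

def k58_A00mm_202_s3 : ∃ t, chk3 f_A00mm_202_s3 t 120 19 1 = true :=
  ⟨(b (b (a (b (a (c (a (l 530263567) (l 530263567)) (l 530982415)) (c (a (l 530263567) (l 530263055)) (l 530984719))) (a (c (b (l 530337295) (l 530387471)) (l 531081487)) (c (b (l 530338063) (l 530388751)) (l 531085583)))) (b (a (c (b (l 530237199) (l 530287119)) (l 530985487)) (c (b (l 530234895) (l 530285583)) (l 530448143))) (a (c (a (l 530363663) (l 530363663)) (l 530821391)) (b (c (l 530337039) (l 531062543)) (c (l 530388239) (l 531125519)))))) (a (c (a (b (a (l 530462479) (l 530463759)) (l 530565647)) (b (l 530464783) (l 530837007))) (a (b (l 531200015) (l 531334159)) (b (l 531209999) (l 531346447)))) (a (b (c (l 530465551) (l 531219215)) (c (l 530839311) (l 531357711))) (c (b (l 530465807) (l 530840847)) (l 530491663))))) (b (b (a (a (c (l 530671887) (l 531473679)) (c (l 530944527) (l 531488015))) (a (c (l 530948111)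 (l 531501071)) (l 4))) (a (a (c (l 530781199) (l 531618319)) (c (l 530786831) (l 531634447))) (l 4))) (a (a (b (a (l 530383119) (l 530657807)) (l 4)) (l 4)) (l 4)))), by decide +kernel⟩

def k59_A00mm_202_s3 : ∃ t, chk3 f_A00mm_202_s3 t 121 19 1 = true :=
  ⟨(b (b (b (b (a (c (a (l 530232079) (a (l 530498063) (l 530227727))) (a (l 530957583) (a (l 530954767) (l 530951951)))) (a (a (c (a (l 530494735) (l 530225423)) (l 530679311)) (l 530711823)) (b (l 530152975) (l 4)))) (a (a (c (l 530283535) (l 531008527)) (a (l 529968911) (b (l 530222607) (l 530518287)))) (a (b (a (c (l 530264591) (l 530990351)) (c (l 530263055) (l 530982671))) (a (c (l 530290703) (l 531019023)) (l 4))) (l 4)))) (a (a (b (c (l 530334991) (l 531065103)) (l 530083343)) (c (a (l 530359055) (l 530626063)) (l 530832911))) (a (a (c (l 530355727) (l 531103503)) (l 4)) (l 4)))) (a (a (c (a (l 530787599) (l 530787343)) (l 530499599)) (c (a (l 530787087) (l 4)) (l 530506511))) (l 4))) (l 4)), by decide +kernel⟩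

def k60_A00mm_202_s3 : ∃ t, chk3 f_A00mm_202_s3 t 61 19 1 = true :=
  ⟨(l 4), by decide +kernel⟩

def k61_A00mm_202_s3 : ∃ t, chk3 f_A00mm_202_s3 t 31 19 1 = true :=
  ⟨(l 4), by decide +kernel⟩

def k62_A00mm_202_s3 : ∃ t, chk3 f_A00mm_202_s3 t 12 40 1 = true :=
  ⟨(a (l 6) (a (a (l 6) (a (l 6) (b (l 6) (b (l 6) (c (b (l 16409552) (l 16457216)) (l 16495480)))))) (c (b (a (b (c (c (l 16421200) (l 16429776)) (l 16421976)) (c (c (l 16432080) (l 16440864)) (l 16433384))) (b (c (a (l 16440144) (l 16429104)) (a (l 16456608) (l 16465856))) (c (a (l 16450984) (l 16439840)) (l 16461912)))) (a (b (c (l 16436992) (l 16444816)) (c (l 16448056) (l 16477232))) (b (c (c (l 16462600) (l 16470872)) (l 16473088)) (c (c (l 16473344) (l 16481784)) (l 16494744))))) (c (a (b (b (l 16461096) (l 16472936)) (b (l 16484784) (l 16496624))) (b (b (l 16477960) (l 16489512)) (b (l 16501056) (l 16512576)))) (a (b (b (l 16479912) (l 16492192)) (b (l 16504464) (l 16516704))) (b (b (l 16495296) (l 16507248)) (b (l 16519168) (l 16531056)))))))),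 by decide +kernel⟩

def k63_A00mm_202_s3 : ∃ t, chk3 f_A00mm_202_s3 t 26 40 2 = true :=
  ⟨(a (b (a (b (c (a (l 16439144) (l 16454520)) (a (l 16475216) (l 16463704))) (c (a (l 16449768) (l 16459792)) (a (l 16486184) (l 16495520)))) (b (c (a (l 16464744) (l 16475072)) (a (l 16483752) (l 16493416))) (c (a (l 16475152) (l 16490600)) (a (l 16483976) (l 16503976))))) (a (b (c (a (l 16481384) (l 16470320)) (l 16501760)) (c (c (l 16493080) (l 16500792)) (l 16512632))) (c (b (a (l 16480312) (l 16500872)) (a (l 16511664) (l 16521600))) (b (c (l 16516776) (l 16523904)) (b (l 16528256) (l 16533528)))))) (b (a (c (b (c (l 16493032) (l 16498976)) (a (l 16500880) (l 16511248))) (b (b (l 16510752) (l 16515936)) (c (l 16515312) (l 16521608)))) (b (c (a (l 16511752) (l 16522288)) (b (l 16530592) (l 16535624))) (c (a (l 16521664) (l 16532064)) (b (l 16540648) (l 16550896))))) (a (c (b (a (l 16511024) (l 16521256)) (b (l 16523688) (l 16528688))) (b (b (l 16526176) (l 16541808)) (b (l 16546936) (l 16552048)))) (c (b (c (l 16533936)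 (l 16539440)) (a (l 16541336) (l 16551432))) (b (b (l 16555888) (l 16560872)) (b (l 16565840) (l 16570792))))))), by decide +kernel⟩

def k64_A00mm_202_s3 : ∃ t, chk3 f_A00mm_202_s3 t 26 40 3 = true :=
  ⟨(b (a (b (a (c (c (l 16491392) (l 16499192)) (a (l 16507136) (l 16515176))) (c (a (l 16498040) (l 16507008)) (b (l 16524648) (l 16530280)))) (a (c (b (l 16503712) (l 16509336)) (a (l 16518824) (l 16526688))) (c (b (l 16521216) (l 16526672)) (b (l 16535896) (l 16541496))))) (a (c (b (b (l 16528496) (l 16533808)) (c (l 16538504) (l 16545032))) (b (b (l 16541456) (l 16546904)) (b (l 16552328) (l 16557736)))) (c (b (b (l 16547024) (l 16552160)) (b (l 16557272) (l 16562384))) (b (b (l 16558608) (l 16563856)) (b (l 16569072) (l 16574280)))))) (a (a (b (c (l 16517752) (l 16534320)) (c (l 16528936) (l 16545816))) (b (c (c (l 16531160) (l 16538552)) (a (l 16545936) (l 16553808))) (c (a (l 16541440) (l 16549904)) (a (l 16557144) (l 16564824))))) (a (c (b (a (l 16547872) (l 16556680)) (a (l 16558448) (l 16567080))) (b (a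 (l 16561768) (l 16569824)) (a (l 16572600) (l 16580464)))) (c (b (b (l 16567480) (l 16572552)) (b (l 16577632) (l 16582696))) (b (b (l 16579480) (l 16584656)) (c (l 16589328) (l 16595568))))))), by decide +kernel⟩

def k65_A00mm_202_s3 : ∃ t, chk3 f_A00mm_202_s3 t 27 80 1 = true :=
  ⟨(a (a (c (c (b (b (l 16540920) (l 16545720)) (c (l 16550496) (l 16555296))) (a (b (l 16547960) (l 16552528)) (b (l 16557880) (l 531073039)))) (a (c (b (l 16563488) (l 16573464)) (b (l 16574144) (l 16584296))) (c (b (l 16572800) (l 16582600)) (b (l 16582832) (l 16592776))))) (c (c (a (b (l 16559040) (l 16568392)) (b (l 16569520) (l 16578712))) (a (b (l 16567808) (l 16582528)) (b (l 530979855) (l 16592296)))) (a (c (b (l 16582144) (l 16591760)) (b (l 531619599) (l 16601320))) (c (b (l 16591512) (l 16600952)) (b (l 531482383) (l 16609920)))))) (b (a (c (c (a (b (l 16582944) (l 16587488)) (b (l 16593432) (l 16597904))) (b (l 16598248) (l 16602800))) (a (c (l 16600896) (l 531480079)) (c (l 531229967) (l 531478799)))) (a (c (c (b (l 16603912)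 (l 16608296)) (l 530994959)) (c (l 531232271) (l 531478287))) (c (c (b (l 16614376) (l 16618680)) (l 531000335)) (c (l 531235599) (l 531479055))))) (a (c (a (c (l 16589016) (l 16602072)) (a (l 531106063) (l 531109903))) (a (c (l 16610176) (l 16618568)) (c (l 16619424) (l 16627272)))) (a (c (a (l 531113487) (l 530982927)) (c (l 16626080) (l 16633400))) (c (a (l 530986767) (l 530990607)) (c (l 531357455) (l 531883023))))))), by decide +kernel⟩

def k66_A00mm_202_s3 : ∃ t, chk3 f_A00mm_202_s3 t 27 81 1 = true :=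
  ⟨(a (a (b (c (a (c (l 16552016) (l 16572760)) (c (l 16562224) (l 16582352))) (a (b (l 531837455) (l 531901199)) (b (l 531837455) (l 531901967)))) (c (a (c (l 16561496) (l 16582440)) (a (l 531146767) (l 531151375))) (c (b (l 16595240) (l 16600136)) (c (l 16605824) (l 16611360))))) (c (a (b (c (l 16572408) (l 16591952)) (c (l 16581552) (l 16601288))) (b (c (l 16587808) (l 16601552)) (b (l 531140879) (l 531194895)))) (a (c (b (l 16601344) (l 16610880)) (b (l 16611072) (l 16620808))) (c (b (l 16610360) (l 16619720)) (b (l 16619488) (l 16629048)))))) (a (c (a (b (b (l 531043599) (l 531096335)) (b (l 531149839) (l 531204623))) (b (c (l 16613296) (l 16620752)) (b (l 531159055) (l 531214095)))) (a (c (b (l 16619408) (l 16628584)) (b (l 16627952) (l 16637328))) (b (c (l 16628472) (l 16636472)) (c (l 16637480) (l 16624704))))) (c (a (b (a (l 531084559) (l 531088655)) (a (l 531461903) (l 531466511))) (b (c (l 530968591) (l 531223311)) (c (l 531069455) (l 531342607)))) (a (b (c (l 16637568) (l 16645040)) (c (l 16646376) (l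 16633080))) (b (c (l 531487247) (l 532028943)) (c (l 16650056) (l 16641488))))))), by decide +kernel⟩

def k67_A00mm_202_s3 : ∃ t, chk3 f_A00mm_202_s3 t 12 41 1 = true :=
  ⟨(a (l 6) (a (a (b (l 6) (c (c (a (l 16415904) (l 16466400)) (l 16443400)) (b (l 16431640) (l 16444112)))) (c (b (b (c (l 16430272) (l 16471856)) (c (l 16420608) (l 16483552))) (b (a (l 16438272) (l 16451928)) (a (l 16449720) (l 16457992)))) (b (b (c (l 16493232) (l 16515376)) (l 16474576)) (b (l 16486824) (l 16457008))))) (c (c (a (b (b (l 16459120) (l 16459688)) (b (l 16470696) (l 16502576))) (b (b (l 16477872) (l 16488656)) (b (l 16509864) (l 16520456)))) (a (b (b (l 16488664) (l 16500072)) (b (l 16511440) (l 16522696))) (b (b (l 16505880) (l 16516992)) (b (l 16528048) (l 16538992))))) (c (b (a (b (l 16508432) (l 16520200)) (b (l 16524056) (l 16535496))) (a (b (l 16531936) (l 16543552)) (a (l 16506848) (l 16514352)))) (b (a (b (l 16528904) (l 16541048)) (a (l 16503320) (l 16520808))) (a (l 16517240) (a (l 16526968) (l 16533624)))))))), by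 decide +kernel⟩

def k68_A00mm_202_s3 : ∃ t, chk3 f_A00mm_202_s3 t 26 41 1 = true :=
  ⟨(c (b (b (a (a (c (c (l 16503560) (l 16511416)) (l 16523480)) (c (l 16526904) (l 16541416))) (a (c (c (l 16543440) (l 16549856)) (c (l 16556384) (l 16563040))) (a (a (l 531491599) (l 531496975)) (a (l 531502095) (l 531507471))))) (a (a (c (l 16517960) (l 16534272)) (c (l 16537088) (l 16551896))) (a (c (b (l 16554040) (l 16558944)) (a (l 16565304) (l 16574344))) (a (a (l 531600399) (l 531606287)) (a (l 531611919) (l 531617551)))))) (a (a (b (c (l 16528376) (l 16545016)) (c (l 16538648) (l 16555632))) (c (b (l 16547176) (l 16557104)) (b (l 16562312) (l 16572584)))) (a (b (c (b (l 16563816) (l 16568648)) (l 16579912)) (c (l 16575792) (l 16589824))) (a (c (l 531330063) (l 531950095)) (c (l 531343887) (l 531961871)))))) (a (c (b (a (b (l 16540072) (l 16551176)) (b (l 16556472) (l 16567248))) (a (a (l 16542928) (l 532021519)) (a (l 532022543) (l 532025615)))) (b (b (a (l 16557264) (l 16551088)) (a (l 16568680) (l 16583136))) (a (c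 (l 16539272) (l 16548440)) (c (l 16574592) (l 16561968))))) (c (b (a (b (a (l 16568992) (l 16577456)) (a (l 16579512) (l 16587808))) (a (b (l 16585992) (l 16596160)) (b (l 16594552) (l 16604544)))) (a (b (l 16573104) (l 16583384)) (a (l 532046095) (l 532055311)))) (b (a (b (a (l 16583408) (l 16591104)) (l 16577024)) (b (c (l 16599640) (l 16606008)) (l 16592216))) (a (b (l 16587768) (l 16577448)) (b (l 16602616) (l 16591872))))))), by decide +kernel⟩

def k69_A00mm_202_s3 : ∃ t, chk3 f_A00mm_202_s3 t 27 41 1 = true :=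
  ⟨(a (c (b (a (a (c (b (l 16560384) (l 16590600)) (b (l 16592056) (l 16601584))) (c (b (l 16580736) (l 16600280)) (b (l 16601304) (l 16610648)))) (a (b (a (l 531533327) (l 531538703)) (a (l 531645967) (l 531651343))) (b (a (l 531543823) (l 531548943)) (l 531525647)))) (a (a (c (l 531357455) (l 531973647)) (c (l 531371023) (l 531985935))) (a (c (l 531384335) (l 531998223)) (c (l 531397391) (l 532011023))))) (b (a (a (b (c (l 16603136) (l 16614608)) (b (l 16595328) (l 16600312))) (b (c (l 16611744) (l 16622560)) (b (l 16603472) (l 16608368)))) (a (b (c (l 16620384) (l 16630560)) (b (l 16611656) (l 16616440))) (b (b (l 532117263) (l 16615168)) (l 531772175)))) (a (a (b (l 531902735) (l 532329231)) (b (l 531911951) (l 532339983))) (a (b (l 531921935) (l 532351503)) (b (l 531932943) (l 532363791)))))) (c (a (b (b (a (b (l 531259919) (l 531584783)) (b (l 531538191) (l 531595279))) (a (l 531402767) (l 531414031))) (a (c (l 531410447) (l 532023823)) (c (l 531691791) (l 532037135)))) (b (b (a (a (l 531574287) (l 531579407))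 (a (l 531584527) (l 531589903))) (a (l 531425295) (l 531436815))) (a (c (l 531704591) (l 532050447)) (b (l 531559183) (l 531950863))))) (a (b (a (b (b (l 532124943) (l 16623504)) (l 531782159)) (c (b (l 16646392) (l 16655192)) (l 531876879))) (a (c (l 532112399) (l 532481551)) (c (l 532125967) (l 532495119)))) (b (a (c (l 531563791) (l 531887887)) (b (l 531656719) (l 532086543))) (a (a (l 531782927) (l 531790607)) (a (l 531798287) (l 531806223))))))), by decide +kernel⟩

def k70_A00mm_202_s3 : ∃ t, chk3 f_A00mm_202_s3 t 12 21 2 = true :=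
  ⟨(a (a (a (l 6) (b (l 6) (b (l 6) (l 16438040)))) (b (a (l 6) (b (b (l 6) (l 16445080)) (b (l 16456600) (l 16426000)))) (c (b (a (l 16498312) (l 16513008)) (a (l 16519952) (l 16533992))) (b (l 16491832) (l 16471936))))) (b (c (a (b (a (b (l 16479200) (l 16490400)) (b (l 16496080) (l 16506968))) (a (l 16464904) (b (l 16517664) (l 16528144)))) (a (b (b (l 16513320) (l 16523880)) (b (l 16534224) (l 16544368))) (b (b (l 16530872) (l 16541088)) (b (l 16551088) (l 16560872))))) (a (b (a (l 16508792) (l 16481904)) (a (l 16531592) (l 16504040))) (b (a (b (l 16533800) (l 16544728)) (b (l 16549768) (l 16560352))) (a (l 16518800) (b (l 16570720) (l 16580848)))))) (b (a (a (b (l 16493440) (l 16462056)) (c (l 16501512) (l 16483352))) (a (b (l 16523208) (l 16533040)) (c (b (l 16570440) (l 16579776)) (l 16553584)))) (a (c (a (l 16548384) (l 16521144)) (l 16539024)) (c (a (l 16536128) (l 531677711)) (a (l 16558632) (l 16572072))))))), by decide +kernel⟩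

def k71_A00mm_202_s3 : ∃ t, chk3 f_A00mm_202_s3 t 13 21 2 = true :=
  ⟨(a (a (b (b (c (a (b (l 16548712) (l 16558576)) (a (l 531489295) (l 531499023))) (a (a (l 16525192) (l 16554296)) (a (l 532156687) (l 532164623)))) (a (b (a (l 16531096) (l 16539336)) (a (l 16540776) (l 16548824))) (a (c (l 531964431) (l 16560904)) (c (l 531975183) (l 16568768))))) (c (a (b (b (l 16586856) (l 16595816)) (b (l 16604520) (l 16612944))) (b (a (l 16561728) (l 16590968)) (l 531840015))) (a (b (l 16568120) (l 16585720)) (b (l 532109583) (l 16610032))))) (c (b (a (b (a (l 531510799) (l 531524367)) (a (l 531987727) (l 532002319))) (b (a (l 531539727) (l 531823375)) (a (l 532018447) (l 532034319)))) (a (b (a (l 16599272) (l 532208655)) (l 531863055)) (b (l 531695631) (l 532160015)))) (b (a (b (a (l 532174351) (l 532186127)) (c (l 16597832) (l 16584512))) (b (a (l 532199439) (l 532213007)) (c (l 16614152) (l 16620992)))) (a (b (l 532131343) (l 532360463)) (b (l 532158479) (l 532382991)))))) (a (b (a (b (a (c (l 531838479) (l 532226575))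 (c (l 531853327) (l 532240655))) (a (c (l 532050191) (l 532476431)) (c (l 532065551) (l 532491023)))) (b (a (c (l 531868175) (l 532254735)) (c (l 531882767) (l 532269071))) (a (c (l 532080911) (l 532505359)) (c (l 532095759) (l 532519951))))) (a (a (b (l 531678479) (l 531884047)) (b (l 531692303) (l 531894031))) (b (a (l 531705615) (l 531718159)) (a (l 531902991) (l 532179983))))) (b (a (b (a (c (l 531897103) (l 532283663)) (c (l 531911439) (l 532298511))) (a (c (l 532110095) (l 532534031)) (c (l 532124175) (l 532548111)))) (b (a (c (l 531925519) (l 532313359)) (c (l 531939343) (l 532328207))) (a (c (l 532137487) (l 532561423)) (a (l 531820559) (l 531826703))))) (a (a (b (l 531729167) (l 532188175)) (b (l 531738639) (l 532195855))) (b (a (l 531746831) (l 531754255)) (a (l 532203279) (l 531941647))))))), by decide +kernel⟩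

def k72_A00mm_202_s3 : ∃ t, chk3 f_A00mm_202_s3 t 6 42 3 = true :=
  ⟨(a (a (a (l 6) (a (l 6) (b (l 16450568) (l 16475136)))) (b (c (a (a (l 16533640) (l 16463072)) (a (l 16518752) (a (l 16529336) (l 16536496)))) (a (l 16523184) (a (l 16540920) (l 16553392)))) (b (a (l 16507488) (a (l 16504848) (l 16559544))) (a (l 16519136) (a (l 16515920) (l 16570208)))))) (a (b (a (a (b (a (l 16547784) (l 16554824)) (a (l 16558680) (l 16565520))) (c (c (l 16558056) (l 16566488)) (b (l 16574112) (l 16584688)))) (a (c (b (l 16572448) (l 16582216)) (b (l 16587832) (l 16597936))) (a (b (l 16601608) (l 16600664)) (a (l 532014863) (l 532020495))))) (a (a (c (l 16568104) (l 16587616)) (c (c (l 16577696) (l 16586448)) (l 16599856))) (a (a (l 532159247) (l 532034575)) (a (l 532314127) (l 532325903))))) (a (a (b (a (a (l 532026127) (l 532032271)) (b (l 532230671) (l 532388623))) (a (l 532338447) (l 532351247))) (b (a (b (l 532243471) (l 532401935)) (b (l 532257039) (l 532416015))) (a (l 532364303) (l 532378127)))) (a (a (b (b (l 532271375)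 (l 532430863)) (l 532391695)) (b (b (l 532286479) (l 532446223)) (l 532405519))) (a (b (l 531980303) (l 532419343)) (b (l 531997199) (l 532432143))))))), by decide +kernel⟩

def k73_A00mm_202_s3 : ∃ t, chk3 f_A00mm_202_s3 t 6 43 3 = true :=
  ⟨(a (a (a (b (l 6) (l 16499128)) (b (a (l 16488832) (l 16499008)) (l 16517096))) (a (b (a (l 16509600) (l 16541592)) (a (l 16531496) (l 16541568))) (b (a (b (l 16526696) (l 16537088)) (b (l 16580504) (l 16548464))) (a (l 16572896) (b (l 16557952) (l 16567000)))))) (a (a (a (b (b (l 16592624) (l 16602024)) (b (l 16610984) (l 16617440))) (b (c (l 16600440) (l 16618624)) (c (l 16617216) (l 16616912)))) (a (b (c (l 532614671) (l 16648384)) (c (l 532875023) (l 16647056))) (b (c (l 532637199) (l 16656832)) (a (l 532694031) (l 532648207))))) (a (a (b (a (l 532630287) (l 532640783)) (a (l 532603407) (l 532558863))) (b (a (l 532650767) (l 532659983)) (a (l 532514319) (l 532469519)))) (a (b (a (l 532643855) (l 532595727)) (a (l 532424463) (l 532378895))) (b (a (l 532548367) (l 532501007))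 (a (l 532332559) (l 532285711))))))), by decide +kernel⟩

def k74_A00mm_202_s3 : ∃ t, chk3 f_A00mm_202_s3 t 56 40 1 = true :=
  ⟨(a (c (b (a (b (c (a (l 16619096) (l 16624304)) (l 531006223)) (a (l 530994447) (l 530998031))) (b (c (a (l 531055119) (l 531058703)) (l 531012367)) (a (l 531001871) (l 531005711)))) (a (b (c (l 530976783) (l 531231759)) (c (l 531078415) (l 531352079))) (b (c (l 530984719) (l 531240463)) (c (l 531087119) (l 531362063))))) (b (a (b (c (l 531239695) (l 531481359)) (c (l 531363599) (l 531887887))) (b (c (l 531244559) (l 531753487)) (c (l 531370767) (l 531894799)))) (a (b (c (l 531495951) (l 532037647)) (c (l 531904015) (l 16649920))) (b (c (l 531505423) (l 532048143)) (c (l 531915279) (l 16658352)))))) (c (c (b (a (b (b (l 16640472) (l 16639264)) (l 530892815)) (b (b (l 16650896) (l 16660080)) (l 530899727))) (a (b (l 530992655) (l 531096079)) (b (l 531000335) (l 531104783)))) (b (a (b (l 531019023) (l 531131919)) (b (b (l 16660728) (l 16664704)) (l 531140623))) (a (b (l 531249935) (l 531372559))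 (b (l 531259407) (l 531383311))))) (b (a (b (c (l 531250959) (l 531759375)) (c (l 531379727) (l 531904527))) (b (a (l 531375887) (b (l 16659792) (l 16663808))) (c (l 531389967) (l 531916559)))) (a (b (c (l 531784719) (l 532060175)) (l 531537167)) (b (c (l 531796239) (l 532073999)) (l 531550991)))))), by decide +kernel⟩

def k75_A00mm_202_s3 : ∃ t, chk3 f_A00mm_202_s3 t 57 40 1 = true :=
  ⟨(a (c (c (b (a (b (b (l 16666552) (l 16670392)) (b (l 16674192) (l 16677960))) (b (b (l 16676960) (l 16680704)) (b (l 16684416) (l 16688080)))) (a (b (l 531008271) (l 531113487)) (b (l 531015951) (l 531122191)))) (b (a (b (b (l 16670776) (l 16674656)) (l 531149839)) (b (b (l 16680832) (l 16684608)) (l 531159823))) (a (b (l 531269647) (l 531394575)) (b (l 531280655) (l 531406351))))) (b (a (b (a (b (l 16664536) (l 16668496)) (l 531123471)) (a (l 531795983) (l 531534351))) (b (a (l 531398671) (l 531405839)) (a (l 531541775) (l 531549455)))) (a (b (a (l 531944463) (l 531951887)) (l 531566351)) (b (a (l 531959567) (l 531967759)) (l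 531582991))))) (c (b (c (a (b (a (l 531088655) (l 531091983)) (b (l 530895887) (l 530946575))) (a (b (l 531095567) (l 531195407)) (b (l 531099151) (l 531199503)))) (a (b (b (l 16690888) (l 16694552)) (l 531170575)) (b (b (l 531036175) (l 531094031)) (b (l 531152911) (l 531213071))))) (a (b (a (l 530819343) (l 530891535)) (a (l 531539727) (l 531545103))) (b (a (l 530896655) (l 530902287)) (a (l 531013903) (l 531019791))))) (b (a (b (a (l 531413519) (l 531421967)) (a (l 531557647) (l 531566351))) (b (a (l 531430927) (l 531440655)) (a (l 531575823) (l 531585807)))) (a (b (a (l 531708175) (l 531717135)) (l 531601167)) (b (a (l 531726863) (l 531737359)) (a (l 531884559) (l 531895311))))))), by decide +kernel⟩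

def k76_A00mm_202_s3 : ∃ t, chk3 f_A00mm_202_s3 t 28 41 1 = true :=
  ⟨(a (a (c (b (a (b (a (l 531595023) (l 531600143)) (l 531448335)) (b (a (l 531605519) (l 531610895)) (l 531460111))) (a (b (l 531571983) (l 531964687)) (b (l 531585039) (l 531709967)))) (b (a (b (l 531669007) (l 532100367)) (c (l 531601423) (l 531928335))) (b (a (l 532269839) (l 532286479)) (a (l 532171279) (l 532189455))))) (b (c (a (b (a (l 531616015) (l 531621391)) (l 531203343)) (b (c (l 531212815) (l 531780367)) (l 531215375))) (a (b (l 531964943) (l 532131087)) (b (l 531711759) (l 532147983)))) (a (c (b (l 531598095) (l 531724047)) (b (l 532304399) (l 532208399))) (c (b (l 531611407) (l 531738383)) (b (l 532054799) (l 532228367)))))) (a (b (c (a (b (c (l 531222287) (l 531792655)) (l 531227663)) (b (a (l 531649039) (l 531654671)) (l 531239951))) (a (b (l 531728399) (l 531897615)) (b (l 531746319) (l 531917071)))) (a (b (c (l 531624719) (l 532074767)) (c (l 531752463) (l 532249103))) (b (c (l 531369999) (l 532095759)) (a (l 531068431) (l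 531077391))))) (b (b (a (c (a (l 531660559) (l 531666447)) (l 531765519)) (c (a (l 531672335) (l 531678479)) (l 531786255))) (c (a (a (l 531786511) (l 531792655)) (a (l 531799311) (l 531805711))) (a (l 531937551) (l 531959311)))) (a (b (c (l 531383823) (l 532118287)) (a (l 531086607) (l 531095567))) (b (c (l 531397903) (l 532141583)) (a (l 531104527) (l 531113231))))))), by decide +kernel⟩

def k77_A00mm_202_s3 : ∃ t, chk3 f_A00mm_202_s3 t 58 40 1 = true :=
  ⟨(a (c (b (a (b (a (c (l 530834703) (l 531074831)) (b (l 530932751) (l 530986511))) (a (b (l 531035407) (l 531359503)) (b (l 531309839) (l 531365647)))) (a (b (b (l 530938895) (l 530992911)) (b (l 531316239) (l 531372303))) (b (b (l 530945807) (l 531268367)) (b (l 531323407) (l 531379471))))) (a (b (a (l 530908175) (l 530914319)) (a (l 531025679) (l 531032079))) (b (a (b (l 531429135) (l 531486991)) (c (l 531055119) (l 531609103))) (a (l 531038735) (l 531046159))))) (b (b (a (a (l 531182863) (l 531194383)) (a (l 531475727) (l 531490063))) (a (a (l 531596815)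 (l 531340047)) (a (l 531621647) (l 531635983)))) (a (b (a (l 531748367) (l 531760143)) (a (l 531906319) (l 531918351))) (b (a (l 531504911) (l 531518991)) (a (l 531931151) (l 531944975)))))) (a (b (c (c (a (b (l 530854927) (l 530956559)) (c (l 530847247) (l 530978319))) (a (c (l 531101199) (l 531234831)) (l 530910991))) (a (b (l 531506191) (l 531652111)) (b (l 531524879) (l 531670799)))) (c (a (b (c (l 531061519) (l 531619087)) (c (l 531169551) (l 531746575))) (b (c (l 531068687) (l 531630863)) (c (l 531176719) (l 531757583)))) (b (a (l 531803407) (l 531821839)) (a (l 531692047) (l 531709711))))) (b (c (a (b (l 530732303) (l 530843151)) (b (l 531014159) (l 530857231))) (a (b (l 531815183) (l 531693071)) (b (l 531841551) (l 531720463)))) (c (a (b (l 530957071) (c (l 531185167) (l 531771151))) (b (l 530971663) (c (l 531196943) (l 531789327)))) (a (b (l 531843855) (l 531730959)) (c (l 531513871) (l 531849999))))))), by decide +kernel⟩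

def k78_A00mm_202_s3 : ∃ t, chk3 f_A00mm_202_s3 t 58 41 1 = true :=
  ⟨(b (a (c (a (b (a (l 531684879) (l 531154447)) (a (l 531812367) (l 531819023))) (b (a (l 531161103) (l 531168271)) (a (l 531825935) (l 531564559)))) (a (b (a (l 532071695) (l 532083471)) (l 531714319)) (b (a (l 531827727) (l 531841039)) (b (l 531963151) (l 532052751))))) (a (b (c (a (l 530974735) (c (l 531556623) (l 531889167))) (a (l 531855631) (l 531603471))) (c (a (b (l 531807759) (l 531873039)) (c (l 531672335) (l 532026383))) (a (l 531759631) (l 531773967)))) (a (c (b (c (l 531564559) (l 531901455)) (b (l 531287823) (a (l 531886863) (l 531891215)))) (b (l 531622927) (b (l 532016143) (l 531834127)))) (a (b (c (l 531741711) (l 532178703)) (c (a (l 531326479) (l 531329807)) (a (l 532071695) (l 532078095)))) (b (c (l 531750671) (l 532195343)) (a (c (l 531066895) (l 532087823)) (l 531174159))))))) (a (c (b (a (a (l 531945999) (l 531953167)) (a (l 531960335) (l 531699471))) (a (l 531269135) (a (l 531812367) (l 531814927)))) (b (a (l 531898127)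 (l 531923983)) (a (l 532066319) (l 532077839)))) (a (b (c (a (l 531438351) (b (l 531948559) (l 532011535))) (b (l 532172815) (l 531990031))) (a (b (l 531380751) (l 531703055)) (a (l 531409423) (l 531410191)))) (b (b (b (a (a (l 531508751) (l 531514383)) (c (a (l 531671567) (l 531682831)) (a (l 532173583) (l 532462351)))) (a (l 531283727) (a (l 531288079) (c (l 531443727) (l 532232207))))) (a (a (l 531329807) (l 531330831)) (a (l 531600911) (l 4)))) (a (l 531142927) (l 4)))))), by decide +kernel⟩

def k79_A00mm_202_s3 : ∃ t, chk3 f_A00mm_202_s3 t 59 20 1 = true :=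
  ⟨(b (a (c (a (b (a (b (l 531298063) (l 531410447)) (b (l 531312911) (l 531426575))) (a (c (l 531425039) (l 531747343)) (c (l 531438863) (l 531768847)))) (b (a (c (l 530966799) (l 531535375)) (b (l 531340303) (l 531456271))) (a (c (l 531451919) (l 531789583)) (c (l 531464719) (l 531809551))))) (a (b (a (l 531408655) (l 531438863)) (b (l 531384079) (l 531542031))) (b (a (l 531468303) (l 531496463)) (a (l 531512079) (l 531543823))))) (b (a (a (c (b (l 531353103) (l 531470351)) (l 531523855)) (c (b (l 531365135) (l 531483407)) (l 531550223))) (a (b (a (l 530621711) (l 530630415)) (l 4)) (l 4))) (a (a (a (b (l 530859279) (l 4)) (l 4)) (l 4)) (l 4)))) (a (b (b (a (c (a (l 531765263) (l 531784463)) (l 531703567)) (c (a (l 531803151) (l 4)) (l 531773455))) (a (b (a (l 531156239) (l 531184655)) (a (c (l 531383311) (l 532160271)) (l 4))) (l 4))) (b (b (a (a (b (c (l 531426575) (l 532485135)) (l 4)) (l 4)) (l 4)) (l 4)) (l 4))) (l 4))), by decide +kernel⟩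

def k80_A00mm_202_s3 : ∃ t, chk3 f_A00mm_202_s3 t 15 20 1 = true :=
  ⟨(l 4), by decide +kernel⟩

def k81_A00mm_202_s3 : ∃ t, chk3 f_A00mm_202_s3 t 28 21 1 = true :=
  ⟨(a (b (c (a (b (a (a (l 531606031) (l 531613199)) (b (l 531832591) (l 531950351))) (c (a (l 532161295) (l 532170511)) (a (l 532585743) (l 532326159)))) (b (a (b (l 531846671) (l 531963407)) (b (l 531860495) (l 531975439))) (a (b (l 532071439) (l 532168463)) (l 531589391)))) (a (b (a (l 531880207) (l 531897871)) (a (l 532443663) (l 532452111))) (b (a (l 531915791) (l 531933455)) (a (l 532458255) (l 532463119))))) (a (c (a (b (l 532029455) (l 531948303)) (b (l 532035855) (l 531954703))) (a (b (l 532721935) (l 532238351)) (b (l 532674063) (l 532190479)))) (c (a (b (l 532041743) (l 531960591)) (b (l 531778831) (l 531966223))) (a (b (l 532625423) (l 532141839)) (b (l 532576271) (l 532092687)))))) (b (c (a (b (a (b (l 531874063) (l 531985679)) (a (l 531402255) (l 531406095))) (a (l 531594767) (l 531599375))) (a (b (b (l 531629071) (l 531997455)) (l 531603727))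 (b (b (l 531635727) (l 532001295)) (l 531607567)))) (a (a (b (a (l 532215055) (l 532222735)) (l 532735503)) (b (a (l 532228879) (l 532234255)) (l 532696335))) (b (a (a (l 532238607) (l 532242447)) (b (l 532455951) (l 532842767))) (a (l 532645135) (l 532593423))))) (a (c (a (b (l 531783951) (l 531971343)) (b (l 531788815) (l 531976207))) (a (b (l 532526351) (l 532042767)) (b (l 532475919) (l 531992079)))) (c (a (b (l 531793167) (l 531980559)) (b (l 531797007) (l 531984655))) (a (c (l 532263439) (l 531827983)) (b (l 532104463) (l 531888911))))))), by decide +kernel⟩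

def k82_A00mm_202_s3 : ∃ t, chk3 f_A00mm_202_s3 t 29 21 1 = true :=
  ⟨(a (a (b (c (b (a (a (l 531687695) (l 531689231)) (a (l 531690767) (l 531960591))) (a (l 531611151) (c (l 531941903) (l 532363535)))) (a (b (l 531983375) (l 532540943)) (b (l 531987983) (l 532487695)))) (a (b (c (l 531800591) (l 532051727)) (l 4)) (l 4))) (a (b (b (c (a (l 531693327) (l 531694351)) (l 532260623)) (l 4)) (l 4)) (l 4))) (l 4)), by decide +kernel⟩

def k83_A00mm_202_s3 : ∃ t, chk3 f_A00mm_202_s3 t 15 21 1 = true :=
  ⟨(l 4), by decide +kernel⟩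

def k84_A00mm_202_s3 : ∃ t, chk3 f_A00mm_202_s3 t 12 11 2 = true :=
  ⟨(b (a (a (b (b (c (l 16437480) (l 16470616)) (c (l 16458200) (l 16491728))) (b (a (l 16489320) (l 16499560)) (a (l 16507888) (l 16517384)))) (b (c (b (a (l 16540680) (l 16554048)) (l 16524784)) (b (l 16492816) (l 16512368))) (b (a (l 16510120) (l 16541888)) (a (l 16527168) (l 16558232))))) (a (c (b (b (a (l 16567728) (l 16539760)) (b (l 16546304) (l 16554936))) (b (a (l 16519072) (l 16573448)) (a (l 16534904) (l 16588608)))) (b (b (l 16558304) (l 16576160)) (b (l 16592408) (l 16607288)))) (b (b (a (c (l 16553984) (l 16576632)) (c (l 16568440) (l 16589168))) (a (c (l 16570616) (l 16593064)) (c (l 16584280) (l 16604696)))) (a (c (b (l 16586128) (l 16600640)) (b (l 16608096) (l 16663848))) (c (b (l 16599000) (l 16612904)) (b (l 16618832) (l 16632016))))))) (a (c (b (a (b (l 16513296) (l 16529440)) (b (l 16575688) (l 16590736))) (a (a (l 16547872) (l 16577368)) (b (l 16604960) (l 16618360)))) (b (a (l 16577888) (a (l 16558120) (l 16607864))) (a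 (a (l 16623624) (l 16548592)) (b (l 16645648) (l 16646424))))) (c (a (b (a (b (l 16549888) (l 16605992)) (b (l 16602976) (l 16616536))) (a (c (l 16630696) (l 16631304)) (b (l 16629304) (l 16641272)))) (b (a (b (l 16614384) (l 16627328)) (b (l 16636504) (l 16648832))) (a (b (l 16639496) (l 16650880)) (b (l 16660392) (l 533503759))))) (a (b (b (l 16619712) (l 16620200)) (b (l 16642424) (a (l 16660560) (l 16670208)))) (b (a (c (l 16656896) (l 16647920)) (b (l 16639720) (l 16641824))) (a (b (l 16635200) (l 16659080)) (b (l 16665632) (l 532716815)))))))), by decide +kernel⟩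

def k85_A00mm_202_s3 : ∃ t, chk3 f_A00mm_202_s3 t 12 11 3 = true :=
  ⟨(a (b (b (a (b (l 16515184) (l 16507712)) (b (l 16530176) (l 16545480))) (a (b (l 16501808) (l 16497648)) (b (a (l 16515752) (l 16525288)) (a (l 16512992) (l 16565312))))) (b (a (b (a (l 16489520) (l 16500584)) (a (l 16487808) (l 16499536))) (b (a (l 16511648) (l 16564728)) (a (l 16511312) (l 16554624)))) (a (c (a (l 16588880) (l 16558352)) (b (l 16559416) (l 16560352))) (c (b (l 16574984) (l 16576520)) (b (l 16587016) (l 16589344)))))) (b (c (a (b (b (l 16542768) (l 16555272)) (b (l 16595128) (l 16594392))) (b (b (l 16605376) (l 16623640)) (a (b (l 16650240) (l 16608712)) (b (l 16617408) (l 16618520))))) (a (b (b (l 16531848) (l 16569968)) (b (l 16568048) (l 16567720))) (b (a (b (l 16545384) (l 16585200)) (b (l 16596656) (l 16595600))) (a (b (l 16584728) (l 16585664)) (b (l 16596192) (l 16618832)))))) (a (b (c (b (l 16594608) (l 16606216)) (a (b (l 16604096) (l 16605504)) (b (l 16616728) (l 16618880)))) (c (a (b (l 16633912) (l 16636416)) (b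 (l 16645424) (l 16606640))) (a (b (l 16607912) (l 16611280)) (b (l 16622000) (l 16626064))))) (b (b (a (c (l 16610000) (l 16587568)) (c (l 16620520) (l 532150287))) (a (c (l 16612160) (l 16611432)) (c (l 16644352) (l 531684367)))) (a (c (b (l 16636136) (l 532344847)) (b (l 531804687) (l 531615759))) (b (c (l 532461583) (b (l 16649456) (l 16651968))) (c (l 532025103) (b (l 16654696) (l 16636672))))))))), by decide +kernel⟩

def k86_A00mm_202_s3 : ∃ t, chk3 f_A00mm_202_s3 t 26 22 1 = true :=
  ⟨(a (b (c (a (b (b (l 16588472) (l 16596232)) (b (l 16603624) (l 16610736))) (b (c (l 532030479) (l 16625168)) (a (l 532209167) (l 532213519)))) (a (b (b (l 16616528) (l 16616040)) (b (l 16616016) (l 16616320))) (b (b (l 16625144) (l 16635728)) (a (l 532426511) (l 532390927))))) (c (a (b (b (l 16617568) (l 16624216)) (b (l 16630656) (l 16636888))) (b (a (l 532392463) (l 532396303)) (c (l 532557583) (l 16673880)))) (a (b (b (l 16616960) (l 16628288)) (c (l 16649528) (l 532030479))) (b (c (l 16657240) (l 532175887)) (a (l 532031503)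 (l 531996943)))))) (c (b (a (b (a (l 532034063) (l 532042767)) (a (l 532219407) (l 532227343))) (b (c (l 532340495) (l 532583695)) (a (l 532236815) (l 532246287)))) (a (b (a (l 532401935) (l 532409615)) (b (l 532272143) (l 532361487))) (b (l 532154895) (l 532334351)))) (b (a (b (b (l 532322831) (l 532486415)) (a (l 532353551) (l 532313871))) (b (a (l 532476687) (l 532434191)) (a (l 532272143) (l 532229903)))) (a (a (b (l 532154127) (l 531959823)) (b (l 532114447) (l 531920399))) (b (a (l 532072975) (l 532030479)) (a (l 531878927) (l 531836687))))))), by decide +kernel⟩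

def k87_A00mm_202_s3 : ∃ t, chk3 f_A00mm_202_s3 t 26 23 1 = true :=
  ⟨(b (b (a (c (a (c (l 532723471) (l 16669120)) (c (l 532729615) (l 16677840))) (a (a (l 531635983) (l 531605519)) (a (l 531573263) (l 531807503)))) (a (c (c (l 532743695) (l 533200399)) (a (l 531770895) (l 531731727))) (c (l 532511247) (a (l 531690255) (l 531647759))))) (a (c (a (c (l 532894991) (l 16671880)) (c (l 532899855) (l 532869391))) (c (a (l 532304399) (l 532235279)) (a (b (l 16637896) (l 16640320)) (a (l 532127759) (l 532097295))))) (a (c (b (l 532577039) (l 532505103)) (c (l 532156175) (a (l 532064527) (l 532029455)))) (c (l 532427023) (a (l 531506703) (l 531464463)))))) (a (c (a (b (c (l 533332751) (l 532797455)) (a (l 532461839) (l 532423439))) (b (b (l 532533007) (l 532463119)) (a (l 532382223) (l 532337423)))) (c (a (b (l 532133391) (l 531698703)) (b (l 532065807) (a (l 532455439) (l 532419855)))) (a (b (a (l 531992591) (l 531966223)) (a (l 531806735) (l 531781391))) (b (a (l 531938319) (l 531908367)) (a (l 531753999) (l 531724815))))))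 (c (a (b (b (l 532434447) (l 532364559)) (a (l 532288527) (l 532234511))) (b (a (l 532582159) (l 532523535)) (b (l 532179471) (l 532379663)))) (c (a (b (l 531987215) (a (l 532381199) (l 532338703))) (a (l 531837199) (l 531522063))) (a (b (a (l 531876367) (l 531841551)) (a (l 531693583) (l 531659279))) (b (a (l 531804431) (l 531766543)) (a (l 531622415) (l 531584783)))))))), by decide +kernel⟩

def k88_A00mm_202_s3 : ∃ t, chk3 f_A00mm_202_s3 t 27 22 1 = true :=
  ⟨(a (b (c (a (b (b (l 532029455) (l 532121871)) (a (l 532255503) (l 532264207))) (b (a (l 532089103) (l 532097295)) (a (l 532272655) (l 532280847)))) (a (b (a (l 532391439) (l 532348175)) (a (l 532186895) (l 532143631))) (b (a (l 532304143) (l 532259599)) (a (l 532099599) (l 532055311))))) (c (a (b (l 532172815) (l 532351759)) (b (c (l 532465167) (l 533207567)) (l 532368143))) (a (b (a (l 531987727) (l 531944463)) (a (l 531793679) (l 531750415))) (b (a (l 531900431) (l 531855887)) (a (l 531706383) (l 531661839)))))) (b (a (c (b (a (l 532105231) (l 532112911))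 (b (l 532246543) (l 532337679))) (b (a (l 532214799) (l 532168975)) (a (l 532010255) (l 531964431)))) (c (b (a (l 532120079) (l 532126991)) (a (l 532303375) (l 532310287))) (b (a (l 532122895) (l 532076047)) (a (l 531918351) (l 531871503))))) (b (a (a (b (l 531575567) (l 531486479)) (b (l 531524623) (l 531435023))) (c (c (l 532502031) (l 532723727)) (a (l 531718927) (l 531672079)))) (a (c (l 532383247) (a (l 531616783) (l 531571215))) (c (c (l 532943119) (l 532554511)) (a (l 531524879) (l 531478031))))))), by decide +kernel⟩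

def k89_A00mm_202_s3 : ∃ t, chk3 f_A00mm_202_s3 t 27 23 1 = true :=
  ⟨(b (a (a (c (b (l 532459279) (c (l 533493263) (l 532561679))) (b (a (l 531605007) (l 531561743)) (a (l 531421455) (l 531378191)))) (c (b (c (l 533345295) (l 532610063)) (c (l 533513743) (l 532451599))) (b (a (l 531517711) (l 531473167)) (a (l 531334159) (l 531289615))))) (a (c (b (c (l 533364239) (l 532500239)) (a (l 532374543) (l 532315663))) (b (a (l 531428111) (l 531382287)) (a (l 531244559) (l 531198735)))) (c (b (b (l 532418831) (l 532072463)) (a (l 532256527) (l 532197135))) (a (b (l 531335951) (l 531152655)) (b (l 531289103) (l 531105551)))))) (a (c (a (b (b (l 532201743) (l 532130575)) (a (l 532324623) (l 532264463))) (a (b (l 532346127) (l 532204303)) (b (l 532286479) (l 531875599)))) (c (a (b (l 531802127) (l 531369231)) (a (b (l 532267791) (l 532102927)) (b (l 532219407) (l 532054287)))) (a (b (a (l 531728143) (l 531688719)) (a (l 531546383) (l 531507471))) (a (b (l 531649039) (l 531467791)) (b (l 531608335) (l 531159055)))))) (a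 (c (b (a (l 532226831) (l 532166927)) (a (l 532083471) (l 532022799))) (a (b (l 530797839) (c (l 532005135) (l 531386383))) (b (l 530886415) (c (l 531955471) (l 531344655))))) (a (c (b (l 532107023) (l 531961615)) (b (c (l 532071183) (l 531482383)) (c (l 531905295) (l 531302159)))) (a (b (b (l 530747151) (l 4)) (l 4)) (l 4)))))), by decide +kernel⟩

def k90_A00mm_202_s3 : ∃ t, chk3 f_A00mm_202_s3 t 7 11 1 = true :=
  ⟨(a (a (a (a (b (b (c (a (b (l 532133647) (l 532316943)) (b (l 532140047) (l 532323087))) (a (b (l 532028687) (l 531823887)) (b (l 531980559) (l 531776015)))) (c (b (c (l 532249615) (l 532346127)) (b (l 532194063) (l 532113423))) (b (a (l 531624719) (a (l 531857167) (l 531833103))) (a (l 531430415) (l 531382287))))) (b (a (c (b (l 532292879) (l 532137487)) (b (l 531241487) (c (l 532141327) (l 531580175)))) (b (c (l 532233999) (l 531193359)) (l 4))) (l 4))) (b (a (c (b (b (l 532145935) (l 532328975)) (b (l 532500751) (l 532604687))) (b (b (l 531931919) (l 531592975)) (b (b (l 532113935) (l 532015631))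 (l 531333647)))) (b (b (c (l 532151567) (l 531882511)) (c (l 532334607) (b (l 531996943) (l 531895823)))) (b (c (l 532443407) (b (l 531796239) (l 531697679))) (l 4)))) (l 4))) (b (a (b (c (a (b (l 532156687) (l 532608271)) (b (l 532161551) (l 532344591))) (a (b (l 531832591) (l 531627791)) (b (l 531781903) (l 531577103)))) (b (a (c (l 532386319) (b (l 531746063) (l 4))) (l 4)) (l 4))) (a (b (b (c (l 532166159) (l 531730703)) (l 4)) (l 4)) (l 4))) (l 4))) (l 4)) (l 4)), by decide +kernel⟩

def k91_A00mm_202_s3 : ∃ t, chk3 f_A00mm_202_s3 t 4 6 1 = true :=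
  ⟨(l 6), by decide +kernel⟩

def k92_A00mm_202_s3 : ∃ t, chk3 f_A00mm_202_s3 t 5 12 1 = true :=
  ⟨(a (a (l 6) (b (l 6) (b (l 6) (c (c (l 16484048) (l 16430040)) (c (l 16457400) (l 16398560)))))) (a (b (b (c (c (l 16526376) (l 16478080)) (c (l 16427504) (l 16374792))) (c (c (l 16563192) (a (l 16548232) (l 16568072))) (a (c (l 16496312) (l 16442216)) (c (l 16521560) (l 16473104))))) (c (b (c (a (l 16594424) (l 16610912)) (a (l 16546480) (l 16568288))) (c (a (l 16509936) (l 16528104)) (a (l 16547904) (l 16571544)))) (b (a (c (l 16496304) (l 16444040)) (c (l 16523688) (l 16477248))) (a (c (l 16499856) (l 16449832)) (c (l 16529240) (l 16485200)))))) (b (b (c (c (a (l 16630192) (l 16602552)) (a (l 16589440) (l 16566928))) (a (b (l 16441048) (l 16440992)) (c (l 16529648) (l 16532760)))) (c (c (a (l 16627952) (l 16612760)) (a (l 16504864) (a (l 16604832) (l 16573864)))) (a (b (l 16441896) (l 16443712)) (b (c (l 16573736) (l 16536280)) (c (l 16576192) (l 16539792)))))) (a (c (b (c (l 16586224) (l 16549000)) (c (a (l 16542232)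 (l 16593888)) (b (l 16594512) (l 16597864)))) (b (c (l 16552008) (l 16511456)) (c (l 16580536) (l 16521576)))) (c (b (c (b (l 16645624) (l 16563360)) (b (l 16613280) (l 16616056))) (c (b (l 16607536) (l 16610528)) (b (l 16619528) (l 16623800)))) (b (c (b (l 16579440) (l 16583440)) (b (l 16544208) (l 16549480))) (b (c (l 16588208) (l 16555600)) (l 531473935)))))))), by decide +kernel⟩

def k93_A00mm_202_s3 : ∃ t, chk3 f_A00mm_202_s3 t 5 26 1 = true :=
  ⟨(b (a (a (l 6) (c (c (a (l 16559000) (l 16577408)) (a (l 16504320) (l 16528192))) (c (l 16482824) (l 16405256)))) (a (c (c (a (l 16596456) (l 16574304)) (a (l 16552784) (l 16578184))) (a (c (l 16507112) (l 16459576)) (c (l 16538384) (l 16496968)))) (c (a (c (l 532027663) (l 532231183)) (b (c (l 16614336) (l 16628912)) (c (l 533006351) (l 16655864)))) (a (b (l 530928655) (l 530778383)) (b (l 531185423) (l 530770447)))))) (a (c (c (a (l 16533080) (a (l 16561992) (l 16582016))) (a (l 16472424) (a (l 16509464) (l 16535064)))) (a (c (l 16408968) (l 16342952)) (c (a (l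 16454520) (l 16485952)) (a (l 16397352) (l 16434848))))) (a (a (c (c (l 16518664) (l 16561272)) (c (l 16518096) (l 16473168))) (c (c (l 532941583) (l 532030479)) (b (l 530655759) (l 530518031)))) (a (c (c (l 532363023) (l 531997711)) (b (l 530636047) (l 530500111))) (c (c (l 531792655) (l 531976463)) (b (l 530632463) (l 530499343))))))), by decide +kernel⟩

def k94_A00mm_202_s3 : ∃ t, chk3 f_A00mm_202_s3 t 5 27 1 = true :=
  ⟨(c (a (c (b (a (l 16453560) (a (l 16568408) (l 16589648))) (a (a (l 16533888) (l 16555472)) (a (l 16577368) (l 16599744)))) (a (b (l 16478912) (l 16509504)) (b (a (l 16518192) (l 16545160)) (a (l 16529736) (l 16557976))))) (a (b (a (b (l 532382223) (l 532286735)) (c (l 532761359) (l 531816975))) (a (c (l 532634639) (l 531651599)) (c (l 532593423) (l 531616527)))) (a (b (c (l 532722447) (l 531786767)) (c (l 532555791) (l 531587855))) (b (c (l 532693519) (l 531770127)) (c (l 532530703) (l 531575311)))))) (a (a (b (c (l 16417664) (l 16353952)) (c (l 16455960) (b (l 16364624) (l 16372744)))) (b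 (c (a (l 16465664) (l 16498624)) (a (l 16411000) (l 16450184))) (b (a (l 16450032) (l 16508176)) (a (l 16458536) (l 530061583))))) (a (b (a (b (l 16528312) (l 530280975)) (b (l 530384655) (l 530255119))) (a (b (l 530154511) (l 530031375)) (b (l 530128911) (l 530005775)))) (a (b (b (l 530367759) (l 530238991)) (a (l 530053903) (l 530050575))) (b (b (l 530369807) (l 530243343)) (a (l 530054159) (l 530063631))))))), by decide +kernel⟩

def k95_A00mm_202_s3 : ∃ t, chk3 f_A00mm_202_s3 t 4 14 1 = true :=
  ⟨(a (l 6) (a (a (l 6) (b (l 6) (b (a (l 6) (c (l 16456744) (l 16331032))) (c (c (l 16504856) (l 16441840)) (b (l 16336456) (l 16347120)))))) (c (b (b (c (l 16509176) (l 16444840)) (c (l 16518432) (l 16456888))) (b (c (l 16529544) (l 16471136)) (a (c (l 16529848) (l 16472168)) (c (l 16554856) (l 16502752))))) (b (b (c (l 16377496) (l 16307424)) (c (l 16392432) (l 16335848))) (b (c (b (l 16405336) (l 16414712)) (b (l 16340760) (l 16351904))) (c (a (l 16411704) (l 16448128)) (b (l 16363736) (l 16376224)))))))), by decide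 +kernel⟩

def k96_A00mm_202_s3 : ∃ t, chk3 f_A00mm_202_s3 t 4 15 1 = true :=
  ⟨(b (a (a (l 6) (a (l 6) (b (l 6) (c (c (l 16479704) (l 16413448)) (b (l 16302192) (l 16313864)))))) (c (a (b (c (c (l 16520192) (l 16490008)) (b (l 16438896) (l 16447536))) (c (c (l 16533376) (l 16505072)) (c (l 16475968) (l 16446112)))) (b (a (c (l 16543880) (l 16489944)) (c (l 16569680) (l 16521416))) (a (c (l 16559088) (l 16509128)) (c (l 16585616) (l 16541424))))) (b (a (c (b (l 16372848) (l 16383416)) (b (l 16304048) (l 16316616))) (c (b (l 16446312) (l 16457864)) (b (l 16389368) (l 16403032)))) (a (c (b (l 16394392) (l 16405744)) (b (l 16329648) (l 16343120))) (a (c (l 16456672) (l 16401992)) (c (l 16495016) (l 16446640))))))) (a (a (a (l 6) (b (l 6) (b (l 6) (c (l 16424328) (l 16280712))))) (c (b (c (l 16480368) (b (l 16410712) (l 16419912))) (c (b (l 16491560) (l 16499504)) (b (l 16429568) (l 16439680)))) (c (b (b (l 16341280) (l 16352552)) (b (l 16364384) (l 16376752))) (b (b (l 16268888) (l 16282320)) (b (l 16296392) (l 16311088))))))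 (c (a (b (c (c (l 16547568) (l 16521264)) (c (l 16494184) (l 16466400))) (c (c (l 16562976) (l 16538784)) (c (l 16513872) (l 16488288)))) (b (c (a (l 16575368) (l 16602528)) (a (l 16529592) (l 16562576))) (a (a (l 531133967) (l 531136015)) (b (l 531168271) (l 531106063))))) (a (c (b (b (l 16417448) (l 16429600)) (b (l 16442256) (l 16455392))) (b (b (l 16357000) (l 16371400)) (b (l 16386392) (l 16401944)))) (b (a (c (l 16481496) (l 16431336)) (a (l 528850959) (l 528839695))) (a (a (l 528437007) (l 528427791)) (a (l 528418319) (l 528408079)))))))), by decide +kernel⟩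

def k97_A00mm_202_s3 : ∃ t, chk3 f_A00mm_202_s3 t 10 14 1 = true :=
  ⟨(b (a (c (b (c (a (l 16542680) (l 16565296)) (c (l 16514168) (l 16486792))) (a (c (l 16553384) (l 16500128)) (c (l 16576952) (l 16529480)))) (b (c (a (l 16427536) (l 16461752)) (a (l 16366256) (l 16406632))) (c (a (l 16444344) (l 16479768)) (a (l 16386280) (l 16428008))))) (c (b (a (b (l 16479000) (l 532009487)) (b (l 532056847) (l 531972623))) (a (b (l 531927823) (l 531848975)) (b (l 531891215) (l 531812879)))) (b (a (c (l 16496680) (l 16447952)) (b (l 529942031) (l 529826063))) (a (b (l 529745167) (l 529636623)) (l 529659151))))) (c (a (a (b (c (l 16565848) (l 16515912)) (c (l 16579944) (l 16533640))) (b (b (l 531804943) (l 531731215)) (b (l 531660815) (l 531593743)))) (b (a (b (l 531773199) (l 531700239)) (b (l 531737359) (l 531665167))) (a (b (l 531630863) (l 531565071)) (l 531563279)))) (a (a (b (c (l 16463576) (l 16409088)) (c (l 16485096) (l 16434528))) (b (a (l 529519375) (l 529503759)) (b (l 529365519) (l 529273871)))) (b (a (b (l 529532175)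 (l 529432079)) (l 529450511)) (a (l 529290255) (l 529260559)))))), by decide +kernel⟩

def k98_A00mm_202_s3 : ∃ t, chk3 f_A00mm_202_s3 t 11 14 1 = true :=
  ⟨(b (a (c (b (a (b (l 532018191) (l 531933967)) (c (l 532435471) (l 531427343))) (a (b (l 531852815) (l 531774479)) (c (l 532286991) (l 530980879)))) (b (a (b (l 529911823) (l 529795855)) (b (l 529886223) (l 529769743))) (a (b (l 529683471) (l 529574927)) (b (l 529656591) (l 529547023))))) (a (c (b (c (l 532398607) (l 531398927)) (b (l 531781391) (l 531701519))) (b (b (l 529871119) (l 529754127)) (b (l 529639951) (l 529528591)))) (b (c (a (l 531890703) (l 531887631)) (a (l 529816847) (l 529829647))) (a (c (l 531727887) (l 529589007)) (c (l 531727631) (l 529605391)))))) (c (a (b (a (b (l 531698959) (l 531626767)) (b (l 531659535) (l 531586575))) (a (b (l 531558159) (l 531494159)) (b (l 531517199) (l 531452687)))) (a (b (b (l 531623695) (l 531548431)) (b (l 531275023) (a (l 531419407) (l 531397903)))) (b (a (b (l 531609871) (l 531532815)) (l 531305487)) (a (b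 (l 531462671) (l 531383311)) (l 531424783))))) (a (b (a (b (l 529470223) (l 529369871)) (b (l 529440783) (l 529339151))) (a (l 529228815) (b (l 529242383) (l 529152015)))) (a (b (a (l 529370639) (l 529364239)) (b (a (l 529219855) (l 529208847)) (a (l 529126927) (l 529111567)))) (b (a (b (l 529423887) (l 529316111)) (l 529389327)) (a (b (l 529217551) (l 529106703)) (l 529179663))))))), by decide +kernel⟩

def k99_A00mm_202_s3 : ∃ t, chk3 f_A00mm_202_s3 t 5 15 1 = true :=
  ⟨(a (a (b (c (b (a (a (l 531522831) (l 531514639)) (b (l 531530511) (l 531468559))) (a (b (l 531422479) (l 531356175)) (l 531103503))) (b (a (a (l 529178127) (l 529164815)) (b (l 529187343) (l 529103119))) (a (a (l 529003791) (l 528990991)) (l 528972047)))) (c (a (b (b (l 531289871) (l 531225615)) (b (l 531163407) (l 531103247))) (b (l 531243279) (l 531122703))) (a (b (l 528822287) (l 528660495)) (b (l 528798735) (l 528638991))))) (b (c (b (a (l 531473935) (l 531442959)) (a (l 531347983) (l 531318287))) (b (a (l 529120527) (l 529094159)) (a (l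 528947727) (l 528921615)))) (c (a (b (l 531222287) (l 531105039)) (b (l 531195407) (l 531081487))) (a (b (l 528776719) (l 528619535)) (b (l 528753167) (l 528599055)))))) (b (a (b (a (c (l 531407375) (l 529064719)) (c (b (l 531395343) (l 531336719)) (b (l 529071887) (l 528989455)))) (a (c (l 531283471) (l 528891663)) (c (l 531243535) (l 528858383)))) (a (b (c (b (l 531346703) (l 531289359)) (b (l 529031695) (l 528950543))) (c (l 531198223) (l 528821519))) (b (b (c (a (l 531309071) (l 531312143)) (a (l 529003023) (l 529021967))) (a (c (l 531251215) (l 528920335)) (l 4))) (l 4)))) (b (a (a (c (l 531163663) (l 528726287)) (c (l 531127055) (l 528695823))) (a (c (l 531084815) (l 528661775)) (l 4))) (a (c (a (l 531053071) (l 531019535)) (a (l 528306703) (l 528547855))) (l 4))))), by decide +kernel⟩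

def k100_A00mm_202_s3 : ∃ t, chk3 f_A00mm_202_s3 t 24 12 1 = true :=
  ⟨(b (c (c (a (b (a (l 16613592) (l 16621056)) (a (l 16614824) (l 16644272))) (b (b (l 16630952) (l 16633232)) (a (l 533184527) (b (l 16681320) (l 16684040))))) (a (b (b (l 16544432) (l 16545536)) (b (l 16589296) (l 16591792))) (b (b (l 16606000) (l 16608232)) (a (b (l 16647568) (l 16650864)) (c (l 16645096) (l 16633768)))))) (c (a (b (a (l 16590512) (l 16561232)) (c (l 16568112) (l 16594768))) (b (b (l 16578904) (a (l 16617472) (l 16630600))) (a (l 532180239) (b (l 16634872) (l 16639888))))) (a (b (b (l 16562296) (l 16565200)) (b (l 16569032) (l 16573760))) (b (a (l 531858959) (b (l 16600232) (l 16604760))) (a (l 531359759) (b (l 16610160) (l 16616392))))))) (b (c (a (c (b (l 16663864) (l 16634952)) (b (l 16594952) (l 532642319))) (c (b (c (l 16687808) (l 16635280)) (c (l 16670024) (l 16660056))) (a (c (l 16641632) (l 532474639)) (b (l 16624960) (l 532570895))))) (a (c (a (l 531897615) (l 531879951)) (a (l 531032847) (l 531022607))) (c (a (l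 531859215) (b (l 16645600) (l 16651976))) (a (l 531009039) (b (l 16623416) (l 16631200)))))) (c (a (c (b (l 533036815) (l 533179407)) (a (l 532436751) (l 532413711))) (c (a (l 532654863) (b (l 533217551) (l 533094671))) (a (l 532387087) (b (l 532426255) (l 532291087))))) (a (b (a (l 531219983) (l 531207695)) (a (l 531060751) (l 531049743))) (a (b (l 531192079) (l 531035919)) (b (l 531441679) (l 531018767))))))), by decide +kernel⟩

def k101_A00mm_202_s3 : ∃ t, chk3 f_A00mm_202_s3 t 25 24 1 = true :=
  ⟨(a (c (b (a (b (b (l 16631712) (l 16632856)) (b (l 16634152) (l 16635608))) (b (c (l 16651040) (l 16631264)) (c (l 16695648) (l 16655904)))) (c (a (b (l 16689992) (l 16672256)) (b (l 16677896) (l 533254415))) (a (b (l 16627864) (l 16653224)) (b (l 532925455) (l 532782351))))) (b (a (c (b (l 16639744) (l 16643856)) (b (l 16615568) (l 16620744))) (c (b (l 16631568) (l 532327695)) (b (l 531735823) (l 531554319)))) (a (c (b (l 16648720) (l 532042767)) (b (l 16626760) (l 16633600))) (c (b (l 532166927) (l 532008719)) (b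 (l 531376911) (l 531203343)))))) (b (c (c (a (b (l 16680040) (l 16683256)) (a (l 532934671) (l 532900367))) (a (b (l 532897039) (l 532751887)) (b (l 532570383) (b (l 16676944) (l 16679520))))) (a (c (b (l 532447503) (l 532285455)) (b (l 531700239) (l 531520527))) (b (c (b (l 16656360) (l 16659168)) (a (l 531670287) (l 531648783))) (c (a (l 532250383) (l 532225039)) (a (l 531492111) (l 531471631)))))) (c (a (b (c (l 533327887) (l 532609039)) (c (l 533200911) (l 532736271))) (c (b (l 532729103) (l 532604943)) (b (l 532018191) (a (l 532698383) (l 532670991))))) (a (b (c (l 532126479) (l 531344911)) (c (l 531970319) (l 530904591))) (b (c (a (l 532093199) (l 532068879)) (a (l 531318031) (l 531298575))) (c (a (l 531938575) (l 531915791)) (a (l 531148047) (l 530861071)))))))), by decide +kernel⟩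

def k102_A00mm_202_s3 : ∃ t, chk3 f_A00mm_202_s3 t 25 25 1 = true :=
  ⟨(a (b (c (c (a (b (l 533441039) (l 533308943)) (b (l 533125391) (l 533262607))) (a (b (l 532679951) (l 532536079)) (b (l 532640015) (l 532496911)))) (c (a (b (l 531884815) (l 531728399)) (b (l 531852559) (l 531697167))) (a (b (l 531057167) (l 530887695)) (b (l 531032847) (l 530864655))))) (c (c (a (b (l 533175567) (l 533054735)) (b (l 533129743) (l 533011983))) (a (b (l 532391695) (l 532258831)) (b (l 532353551) (l 532223503)))) (a (b (c (l 531573007) (l 530720783)) (l 531267087)) (b (a (l 531131919) (l 531118095)) (a (l 530981647) (l 530969359)))))) (b (c (c (a (b (l 533073679) (l 533212175)) (b (l 532748303) (l 532620047))) (a (b (l 532595727) (l 532453903)) (b (l 532278031) (l 532138255)))) (a (b (c (l 531815951) (l 530736143)) (c (l 531662095) (l 530569743))) (b (c (a (l 531785999) (l 531764239)) (a (l 530980879) (l 530963727))) (c (a (l 531633423) (l 531612943)) (a (l 530816015) (l 530799887)))))) (c (c (a (b (l 533079567) (l 532967695))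 (b (l 532757007) (l 532921103))) (a (b (l 532311311) (l 532186383)) (b (l 532265231) (l 532146959)))) (c (a (b (l 531509007) (l 531370511)) (b (l 531471375) (l 531069967))) (a (b (l 530405647) (l 530521359)) (b (a (l 530653199) (l 530638095)) (l 530228751))))))), by decide +kernel⟩

def k103_A00mm_202_s3 : ∃ t, chk3 f_A00mm_202_s3 t 52 24 1 = true :=
  ⟨(c (c (a (b (a (l 532863503) (l 532824079)) (b (l 532659471) (a (l 533092879) (l 533326095)))) (b (a (l 532781839) (l 532735503)) (b (c (l 533552655) (l 532945935)) (a (l 533019919) (l 532978447))))) (a (b (b (l 532504847) (l 532095247)) (b (a (l 532778767) (l 532746255)) (a (l 532642319) (l 532611599)))) (b (b (l 532429071) (a (l 532847119) (l 532807183))) (b (a (l 532711439) (l 532673039)) (a (l 532578319) (l 532542223)))))) (a (b (c (b (a (l 532356879) (l 532326927)) (a (l 532198159) (l 532169487))) (b (a (l 531625743) (l 531601167)) (a (l 531449615) (l 531426063)))) (b (c (a (l 532043279) (l 532015887)) (a (l 531277839) (l 531255567))) (c (a (l 531891471) (l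 531865359)) (a (l 530841615) (l 530820623))))) (b (b (a (c (l 532294671) (l 531575055)) (c (l 532259855) (l 531546639))) (a (c (l 532138255) (l 531400975)) (c (l 532104719) (l 531373839)))) (b (a (c (l 531986191) (l 531231503)) (c (l 531953935) (l 531205647))) (a (c (l 531837455) (l 530798351)) (c (l 531807247) (l 530773775))))))), by decide +kernel⟩

def k104_A00mm_202_s3 : ∃ t, chk3 f_A00mm_202_s3 t 53 24 1 = true :=
  ⟨(c (a (b (b (a (l 532155407) (l 532101391)) (a (l 532026639) (l 531972623))) (a (b (b (l 532201231) (l 532139791)) (c (l 532931855) (l 532502031))) (b (b (l 532147727) (l 532086799)) (a (l 532012047) (l 531983375))))) (b (b (a (l 532310031) (l 532249615)) (a (l 532180751) (l 532119311))) (b (a (l 532056079) (l 531993871)) (a (l 531936271) (l 531873295))))) (a (b (b (a (c (l 532221967) (l 531516175)) (c (l 532179727) (l 531482383))) (a (c (l 532067599) (l 531344143)) (c (l 532026127) (l 531311119)))) (a (b (c (l 531918351) (l 530908687)) (c (l 531773455) (l 530746895))) (b (c (l 531877391) (l 530876687))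 (c (l 531733775) (l 530716175))))) (c (b (b (l 531841551) (l 531687439)) (b (l 531538703) (l 531395087))) (b (b (a (l 531445775) (l 531408399)) (b (l 531298063) (l 530945551))) (b (b (l 530862863) (l 530781455)) (b (l 530701327) (l 530622735))))))), by decide +kernel⟩

def k105_A00mm_202_s3 : ∃ t, chk3 f_A00mm_202_s3 t 26 50 1 = true :=
  ⟨(b (a (c (a (c (a (l 532970511) (l 532937487)) (a (l 532506383) (l 532477455))) (c (a (l 532902159) (l 532595727)) (a (l 532446735) (l 532145167)))) (a (c (a (l 531741455) (l 531717135)) (a (l 530677007) (l 530657551))) (a (c (l 531691279) (l 530636815)) (c (a (l 531670543) (l 531655951)) (a (l 530620175) (l 530608399)))))) (a (c (a (c (l 532553231) (l 532108303)) (a (c (l 533052687) (l 532344591)) (c (l 533022479) (l 532318735)))) (a (c (a (l 531640591) (l 531623951)) (a (l 530596111) (l 530583055))) (c (a (l 531605775) (l 531584527)) (a (l 530568719) (l 530552591))))) (c (a (l 531821583) (l 531757839)) (c (l 531256591) (a (l 530794255) (l 530489359)))))) (a (c (a (c (b (l 533129231)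 (l 533064207)) (a (l 532368399) (l 532341263))) (c (a (l 532780303) (b (l 533045007) (l 532983055))) (a (l 532312847) (b (l 532316175) (l 532248847))))) (a (c (b (l 531349007) (l 531273487)) (a (l 530514447) (l 530496271))) (a (c (l 531276303) (b (l 530785551) (l 530705679))) (b (c (l 531555855) (l 530496271)) (c (l 531482639) (l 530417167)))))) (a (b (c (a (a (l 532121359) (l 532102415)) (a (l 532081423) (c (l 532943631) (l 532228623)))) (c (a (l 531259151) (a (l 531503887) (l 531482895))) (a (a (l 530747919) (l 530736143)) (a (l 530723343) (l 530438927))))) (c (a (b (l 531797775) (l 532033551)) (c (a (l 532658703) (l 532896527)) (a (l 532199439) (l 532173327)))) (a (a (c (l 531463183) (l 530670095)) (b (l 531076879) (l 531039247))) (c (a (l 531171855) (l 531150607)) (a (l 530382095) (l 530366223)))))) (b (c (l 531706383) (a (l 531068943) (l 531026703))) (a (a (c (b (l 532520463) (l 531422223)) (c (l 531128079) (l 530349071))) (l 4)) (l 4)))))), by decide +kernel⟩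

def k106_A00mm_202_s3 : ∃ t, chk3 f_A00mm_202_s3 t 26 51 1 = true :=
  ⟨(b (a (c (a (b (c (l 532997903) (l 532248335)) (c (l 532940815) (l 532185103))) (a (b (l 532046607) (l 531991311)) (b (c (l 532919311) (l 532180239)) (c (l 532870927) (l 532124175))))) (c (a (b (l 531197711) (l 531128079)) (a (b (l 531432207) (l 531366159)) (b (l 531140367) (b (l 531360527) (l 531329807))))) (b (a (l 530383887) (a (l 530625551) (a (l 530611471) (l 530601743)))) (a (l 530307599) (a (l 530551823) (b (l 530552335) (l 530517007))))))) (a (a (c (b (c (l 532890895) (l 532155151)) (c (l 532841743) (l 531830287))) (b (a (b (l 531012879) (l 530978319)) (l 530448911)) (a (c (l 531328783) (b (l 530538767) (l 530503951))) (l 530918671)))) (a (c (l 531672591) (b (l 530974223) (l 530639887))) (b (b (c (a (l 532503311) (l 531688207)) (a (l 530982159) (c (l 531366415) (l 530576655)))) (l 4)) (l 4)))) (l 4))) (a (a (c (c (l 532871695) (l 532104207)) (b (a (l 530931471) (l 530914831)) (a (l 530866191) (l 530849807)))) (a (c (c (l 532832271)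 (l 532070415)) (b (c (l 531304975) (l 530481679)) (l 530564367))) (c (c (l 532804879) (b (l 532071951) (l 532021007))) (b (c (l 531015951) (b (l 530482447) (l 530447887))) (l 530277903))))) (b (a (a (c (c (l 532797967) (l 531778319)) (a (c (l 531268623) (l 529915151)) (a (c (l 531260431) (l 530176783)) (l 4)))) (l 4)) (l 4)) (l 4)))), by decide +kernel⟩

def k107_A00mm_202_s3 : ∃ t, chk3 f_A00mm_202_s3 t 27 12 1 = true :=
  ⟨(b (a (a (c (b (b (a (l 532188943) (l 532128015)) (b (l 531790607) (l 531726095))) (b (a (l 531931663) (l 531868943)) (a (l 531810063) (l 531746575)))) (c (b (b (a (l 532039439) (l 531991567)) (a (l 531885071) (l 531836943))) (b (l 531174415) (a (l 531591951) (l 531543311)))) (b (b (a (l 531370255) (l 531331599)) (a (l 530931471) (l 530892815))) (b (a (l 530766351) (l 530727951)) (a (l 530606607) (l 530568463)))))) (b (c (b (a (l 531798543) (c (l 532835855) (l 532511759))) (a (l 531934223) (l 531872271))) (b (a (b (l 531125263) (l 531042831)) (c (l 531894287) (b (l 531026959) (l 531208975))))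 (a (c (l 531788303) (l 530853647)) (c (l 531739151) (l 530813711))))) (a (b (c (l 531806223) (c (l 531638799) (l 530689039))) (l 4)) (l 4)))) (b (b (a (b (c (l 531678991) (a (l 531303951) (l 531258383))) (a (c (l 532178703) (c (l 531805711) (l 530899983))) (l 4))) (l 4)) (l 4)) (l 4))) (b (b (b (a (a (a (c (l 532259087) (l 530857999)) (l 4)) (l 4)) (l 4)) (l 4)) (l 4)) (l 4))), by decide +kernel⟩

def k108_A00mm_202_s3 : ∃ t, chk3 f_A00mm_202_s3 t 7 12 1 = true :=
  ⟨(l 4), by decide +kernel⟩

def k109_A00mm_202_s3 : ∃ t, chk3 f_A00mm_202_s3 t 12 26 1 = true :=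
  ⟨(a (b (c (a (b (c (l 533064719) (l 532228879)) (c (l 532964879) (l 532113423))) (a (c (l 532705039) (l 532140303)) (c (l 532406031) (l 532116751)))) (a (b (a (l 530909199) (l 530900495)) (l 531032847)) (a (b (l 530889231) (l 530753039)) (b (l 530875407) (l 530742031))))) (a (c (c (l 532025359) (l 531954447)) (b (l 530630927) (l 530501135))) (c (a (c (l 532796431) (l 531930639)) (c (l 532769551) (l 531910927))) (a (b (l 530622479) (l 530495503)) (b (l 530613007) (l 530487823)))))) (a (b (c (a (c (b (l 532954639) (l 532865807)) (l 532090383)) (c (b (l 532917519) (l 532830479)) (l 532060943))) (a (b (l 530859023) (l 530727951)) (b (a (l 530844943) (l 530834703)) (l 530844687)))) (c (a (c (l 532739599) (l 531888143)) (b (c (l 532746767) (l 531910415)) (c (l 532666639) (l 531814415)))) (a (b (l 530600719) (l 530477327)) (b (a (l 530589455) (l 530581007)) (a (l 530467343) (l 530459919)))))) (c (b (a (c (b (l 532877071) (l 532791311)) (b (l 532079631) (l 531977999))) (b (c (l 532833039) (l 532042767)) (c (l 532748815)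 (l 531942671)))) (a (b (a (l 532308495) (l 532290575)) (a (c (l 532640015) (l 531793423)) (l 531936271))) (b (c (l 532668175) (l 531846415)) (a (l 531918351) (c (l 532580623) (l 531745295)))))) (b (a (b (a (l 530823439) (l 530811407)) (a (l 530695439) (l 530684431))) (b (a (l 530798607) (l 530784783)) (a (l 530672399) (l 530659599)))) (a (b (a (l 530571535) (l 530561295)) (a (b (l 530481167) (l 530422031)) (l 530442255))) (b (a (l 530550287) (a (l 530541583) (l 530535439))) (a (b (l 530461455) (l 530403343)) (b (l 530181903) (l 4))))))))), by decide +kernel⟩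

def k110_A00mm_202_s3 : ∃ t, chk3 f_A00mm_202_s3 t 12 27 1 = true :=
  ⟨(b (b (a (a (c (l 532259087) (l 530374927)) (c (a (l 532233487) (l 532212495)) (a (l 530371855) (l 530366223)))) (a (a (c (l 532188175) (l 530357519)) (c (c (l 532589327) (l 531721743)) (a (l 530349071) (b (l 530371599) (l 530313743))))) (a (c (a (c (l 532563727) (l 531702031)) (l 532121871)) (a (c (l 530800143) (l 529323791)) (l 530326799))) (a (a (c (l 532109071) (l 530320143)) (l 4)) (l 4))))) (a (a (c (l 532170255) (l 530252047)) (c (a (l 532146959) (l 532127247)) (a (l 530251791) (l 530247951)))) (a (a (c (l 532104719) (l 530241295)) (c (b (l 532099087) (l 532058895)) (c (l 530707983) (l 529241871)))) (a (a (c (c (l 532490511) (l 531613711)) (c (l 530695695) (l 529739023))) (l 4)) (l 4))))) (a (a (c (c (l 532506127) (l 531566095)) (b (l 530132239) (l 530015503))) (b (c (a (l 532062991) (l 532045071)) (a (l 530134799) (l 530133007))) (c (l 530631439) (l 529886735)))) (a (c (b (l 531206671) (l 531666191)) (a (l 530072335) (l 529797135)))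 (l 4)))), by decide +kernel⟩

def k111_A00mm_202_s3 : ∃ t, chk3 f_A00mm_202_s3 t 13 13 1 = true :=
  ⟨(a (a (b (a (b (c (c (l 532474895) (b (l 532002063) (l 531903503))) (c (a (l 530865935) (l 530848783)) (a (l 530003471) (b (l 530325775) (l 530193679))))) (a (b (c (l 531694863) (b (l 530555407) (l 530496271))) (l 4)) (l 4))) (b (a (c (c (l 532705807) (l 531920143)) (c (l 530830863) (b (l 530311439) (l 530180111)))) (b (b (c (l 532360207) (l 530214927)) (l 4)) (l 4))) (l 4))) (l 4)) (l 4)) (l 4)), by decide +kernel⟩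

def k112_A00mm_202_s3 : ∃ t, chk3 f_A00mm_202_s3 t 7 13 1 = true :=
  ⟨(l 4), by decide +kernel⟩

def k113_A00mm_202_s3 : ∃ t, chk3 f_A00mm_202_s3 t 3 7 1 = true :=
  ⟨(a (a (b (a (a (b (b (c (b (l 531918863) (l 531839503)) (b (l 529901327) (l 529789967))) (c (b (l 531761935) (l 531686159)) (b (l 529680655) (l 529573647)))) (b (c (l 531306511) (l 529416719)) (b (c (l 531467023) (l 529263887)) (l 4)))) (b (b (b (c (a (l 531902479) (l 531887887)) (l 529776655)) (c (a (l 531825679) (l 531812623)) (a (l 529800975) (l 529805071)))) (c (a (l 531713551) (l 531434767)) (a (l 529642255) (l 529649423)))) (l 4))) (b (a (a (b (b (c (l 531870223) (l 529910799)) (l 4)) (l 4)) (l 4)) (l 4)) (l 4))) (l 4)) (l 4)) (l 4)), by decide +kernel⟩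

theorem t114_A00mm_202_s3 : ∃ t, chk3 f_A00mm_202_s3 t 12 13 1 = true := ex3_b k109_A00mm_202_s3 k110_A00mm_202_s3

theorem t115_A00mm_202_s3 : ∃ t, chk3 f_A00mm_202_s3 t 6 13 1 = true := ex3_a t114_A00mm_202_s3 k111_A00mm_202_s3

theorem t116_A00mm_202_s3 : ∃ t, chk3 f_A00mm_202_s3 t 3 13 1 = true := ex3_a t115_A00mm_202_s3 k112_A00mm_202_s3

theorem t117_A00mm_202_s3 : ∃ t, chk3 f_A00mm_202_s3 t 26 25 1 = true := ex3_b k105_A00mm_202_s3 k106_A00mm_202_s3

theorem t118_A00mm_202_s3 : ∃ t, chk3 f_A00mm_202_s3 t 26 24 1 = true := ex3_a k103_A00mm_202_s3 k104_A00mm_202_s3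

theorem t119_A00mm_202_s3 : ∃ t, chk3 f_A00mm_202_s3 t 26 12 1 = true := ex3_b t118_A00mm_202_s3 t117_A00mm_202_s3

theorem t120_A00mm_202_s3 : ∃ t, chk3 f_A00mm_202_s3 t 13 12 1 = true := ex3_a t119_A00mm_202_s3 k107_A00mm_202_s3

theorem t121_A00mm_202_s3 : ∃ t, chk3 f_A00mm_202_s3 t 25 12 1 = true := ex3_b k101_A00mm_202_s3 k102_A00mm_202_s3

theorem t122_A00mm_202_s3 : ∃ t, chk3 f_A00mm_202_s3 t 12 12 1 = true := ex3_a k100_A00mm_202_s3 t121_A00mm_202_s3

theorem t123_A00mm_202_s3 : ∃ t, chk3 f_A00mm_202_s3 t 6 12 1 = true := ex3_a t122_A00mm_202_s3 t120_A00mm_202_s3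

theorem t124_A00mm_202_s3 : ∃ t, chk3 f_A00mm_202_s3 t 3 12 1 = true := ex3_a t123_A00mm_202_s3 k108_A00mm_202_s3

theorem t125_A00mm_202_s3 : ∃ t, chk3 f_A00mm_202_s3 t 3 6 1 = true := ex3_b t124_A00mm_202_s3 t116_A00mm_202_s3

theorem t126_A00mm_202_s3 : ∃ t, chk3 f_A00mm_202_s3 t 3 3 1 = true := ex3_b t125_A00mm_202_s3 k113_A00mm_202_s3

theorem t127_A00mm_202_s3 : ∃ t, chk3 f_A00mm_202_s3 t 5 14 1 = true := ex3_a k97_A00mm_202_s3 k98_A00mm_202_s3

theorem t128_A00mm_202_s3 : ∃ t, chk3 f_A00mm_202_s3 t 5 7 1 = true := ex3_b t127_A00mm_202_s3 k99_A00mm_202_s3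

theorem t129_A00mm_202_s3 : ∃ t, chk3 f_A00mm_202_s3 t 4 7 1 = true := ex3_b k95_A00mm_202_s3 k96_A00mm_202_s3

theorem t130_A00mm_202_s3 : ∃ t, chk3 f_A00mm_202_s3 t 2 7 1 = true := ex3_a t129_A00mm_202_s3 t128_A00mm_202_s3

theorem t131_A00mm_202_s3 : ∃ t, chk3 f_A00mm_202_s3 t 5 13 1 = true := ex3_b k93_A00mm_202_s3 k94_A00mm_202_s3

theorem t132_A00mm_202_s3 : ∃ t, chk3 f_A00mm_202_s3 t 5 6 1 = true := ex3_b k92_A00mm_202_s3 t131_A00mm_202_s3

theorem t133_A00mm_202_s3 : ∃ t, chk3 f_A00mm_202_s3 t 2 6 1 = true := ex3_a k91_A00mm_202_s3 t132_A00mm_202_s3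

theorem t134_A00mm_202_s3 : ∃ t, chk3 f_A00mm_202_s3 t 2 3 1 = true := ex3_b t133_A00mm_202_s3 t130_A00mm_202_s3

theorem t135_A00mm_202_s3 : ∃ t, chk3 f_A00mm_202_s3 t 1 3 1 = true := ex3_a t134_A00mm_202_s3 t126_A00mm_202_s3

theorem t136_A00mm_202_s3 : ∃ t, chk3 f_A00mm_202_s3 t 27 11 1 = true := ex3_b k88_A00mm_202_s3 k89_A00mm_202_s3

theorem t137_A00mm_202_s3 : ∃ t, chk3 f_A00mm_202_s3 t 26 11 1 = true := ex3_b k86_A00mm_202_s3 k87_A00mm_202_s3

theorem t138_A00mm_202_s3 : ∃ t, chk3 f_A00mm_202_s3 t 13 11 1 = true := ex3_a t137_A00mm_202_s3 t136_A00mm_202_s3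

theorem t139_A00mm_202_s3 : ∃ t, chk3 f_A00mm_202_s3 t 12 11 1 = true := ex3_c k84_A00mm_202_s3 k85_A00mm_202_s3

theorem t140_A00mm_202_s3 : ∃ t, chk3 f_A00mm_202_s3 t 6 11 1 = true := ex3_a t139_A00mm_202_s3 t138_A00mm_202_s3

theorem t141_A00mm_202_s3 : ∃ t, chk3 f_A00mm_202_s3 t 3 11 1 = true := ex3_a t140_A00mm_202_s3 k90_A00mm_202_s3

theorem t142_A00mm_202_s3 : ∃ t, chk3 f_A00mm_202_s3 t 14 21 1 = true := ex3_a k81_A00mm_202_s3 k82_A00mm_202_s3

theorem t143_A00mm_202_s3 : ∃ t, chk3 f_A00mm_202_s3 t 7 21 1 = true := ex3_a t142_A00mm_202_s3 k83_A00mm_202_s3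

theorem t144_A00mm_202_s3 : ∃ t, chk3 f_A00mm_202_s3 t 58 20 1 = true := ex3_b k77_A00mm_202_s3 k78_A00mm_202_s3

theorem t145_A00mm_202_s3 : ∃ t, chk3 f_A00mm_202_s3 t 29 20 1 = true := ex3_a t144_A00mm_202_s3 k79_A00mm_202_s3

theorem t146_A00mm_202_s3 : ∃ t, chk3 f_A00mm_202_s3 t 28 40 1 = true := ex3_a k74_A00mm_202_s3 k75_A00mm_202_s3

theorem t147_A00mm_202_s3 : ∃ t, chk3 f_A00mm_202_s3 t 28 20 1 = true := ex3_b t146_A00mm_202_s3 k76_A00mm_202_s3

theorem t148_A00mm_202_s3 : ∃ t, chk3 f_A00mm_202_s3 t 14 20 1 = true := ex3_a t147_A00mm_202_s3 t145_A00mm_202_s3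

theorem t149_A00mm_202_s3 : ∃ t, chk3 f_A00mm_202_s3 t 7 20 1 = true := ex3_a t148_A00mm_202_s3 k80_A00mm_202_s3

theorem t150_A00mm_202_s3 : ∃ t, chk3 f_A00mm_202_s3 t 7 10 1 = true := ex3_b t149_A00mm_202_s3 t143_A00mm_202_s3

theorem t151_A00mm_202_s3 : ∃ t, chk3 f_A00mm_202_s3 t 6 21 3 = true := ex3_b k72_A00mm_202_s3 k73_A00mm_202_s3

theorem t152_A00mm_202_s3 : ∃ t, chk3 f_A00mm_202_s3 t 6 21 2 = true := ex3_a k70_A00mm_202_s3 k71_A00mm_202_s3

theorem t153_A00mm_202_s3 : ∃ t, chk3 f_A00mm_202_s3 t 6 21 1 = true := ex3_c t152_A00mm_202_s3 t151_A00mm_202_s3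

theorem t154_A00mm_202_s3 : ∃ t, chk3 f_A00mm_202_s3 t 13 41 1 = true := ex3_a k68_A00mm_202_s3 k69_A00mm_202_s3

theorem t155_A00mm_202_s3 : ∃ t, chk3 f_A00mm_202_s3 t 6 41 1 = true := ex3_a k67_A00mm_202_s3 t154_A00mm_202_s3

theorem t156_A00mm_202_s3 : ∃ t, chk3 f_A00mm_202_s3 t 27 40 1 = true := ex3_b k65_A00mm_202_s3 k66_A00mm_202_s3

theorem t157_A00mm_202_s3 : ∃ t, chk3 f_A00mm_202_s3 t 26 40 1 = true := ex3_c k63_A00mm_202_s3 k64_A00mm_202_s3

theorem t158_A00mm_202_s3 : ∃ t, chk3 f_A00mm_202_s3 t 13 40 1 = true := ex3_a t157_A00mm_202_s3 t156_A00mm_202_s3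

theorem t159_A00mm_202_s3 : ∃ t, chk3 f_A00mm_202_s3 t 6 40 1 = true := ex3_a k62_A00mm_202_s3 t158_A00mm_202_s3

theorem t160_A00mm_202_s3 : ∃ t, chk3 f_A00mm_202_s3 t 6 20 1 = true := ex3_b t159_A00mm_202_s3 t155_A00mm_202_s3

theorem t161_A00mm_202_s3 : ∃ t, chk3 f_A00mm_202_s3 t 6 10 1 = true := ex3_b t160_A00mm_202_s3 t153_A00mm_202_s3

theorem t162_A00mm_202_s3 : ∃ t, chk3 f_A00mm_202_s3 t 3 10 1 = true := ex3_a t161_A00mm_202_s3 t150_A00mm_202_s3

theorem t163_A00mm_202_s3 : ∃ t, chk3 f_A00mm_202_s3 t 3 5 1 = true := ex3_b t162_A00mm_202_s3 t141_A00mm_202_s3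

theorem t164_A00mm_202_s3 : ∃ t, chk3 f_A00mm_202_s3 t 60 19 1 = true := ex3_a k58_A00mm_202_s3 k59_A00mm_202_s3

theorem t165_A00mm_202_s3 : ∃ t, chk3 f_A00mm_202_s3 t 30 19 1 = true := ex3_a t164_A00mm_202_s3 k60_A00mm_202_s3

theorem t166_A00mm_202_s3 : ∃ t, chk3 f_A00mm_202_s3 t 15 19 1 = true := ex3_a t165_A00mm_202_s3 k61_A00mm_202_s3

theorem t167_A00mm_202_s3 : ∃ t, chk3 f_A00mm_202_s3 t 59 19 1 = true := ex3_b k56_A00mm_202_s3 k57_A00mm_202_s3

theorem t168_A00mm_202_s3 : ∃ t, chk3 f_A00mm_202_s3 t 58 39 1 = true := ex3_a k54_A00mm_202_s3 k55_A00mm_202_s3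

theorem t169_A00mm_202_s3 : ∃ t, chk3 f_A00mm_202_s3 t 58 38 1 = true := ex3_a k52_A00mm_202_s3 k53_A00mm_202_s3

theorem t170_A00mm_202_s3 : ∃ t, chk3 f_A00mm_202_s3 t 58 19 1 = true := ex3_b t169_A00mm_202_s3 t168_A00mm_202_s3

theorem t171_A00mm_202_s3 : ∃ t, chk3 f_A00mm_202_s3 t 29 19 1 = true := ex3_a t170_A00mm_202_s3 t167_A00mm_202_s3

theorem t172_A00mm_202_s3 : ∃ t, chk3 f_A00mm_202_s3 t 57 39 1 = true := ex3_a k50_A00mm_202_s3 k51_A00mm_202_s3

theorem t173_A00mm_202_s3 : ∃ t, chk3 f_A00mm_202_s3 t 57 38 1 = true := ex3_b k48_A00mm_202_s3 k49_A00mm_202_s3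

theorem t174_A00mm_202_s3 : ∃ t, chk3 f_A00mm_202_s3 t 57 19 1 = true := ex3_b t173_A00mm_202_s3 t172_A00mm_202_s3

theorem t175_A00mm_202_s3 : ∃ t, chk3 f_A00mm_202_s3 t 56 39 1 = true := ex3_b k46_A00mm_202_s3 k47_A00mm_202_s3

theorem t176_A00mm_202_s3 : ∃ t, chk3 f_A00mm_202_s3 t 56 38 1 = true := ex3_a k44_A00mm_202_s3 k45_A00mm_202_s3

theorem t177_A00mm_202_s3 : ∃ t, chk3 f_A00mm_202_s3 t 56 19 1 = true := ex3_b t176_A00mm_202_s3 t175_A00mm_202_s3

theorem t178_A00mm_202_s3 : ∃ t, chk3 f_A00mm_202_s3 t 28 19 1 = true := ex3_a t177_A00mm_202_s3 t174_A00mm_202_s3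

theorem t179_A00mm_202_s3 : ∃ t, chk3 f_A00mm_202_s3 t 14 19 1 = true := ex3_a t178_A00mm_202_s3 t171_A00mm_202_s3

theorem t180_A00mm_202_s3 : ∃ t, chk3 f_A00mm_202_s3 t 7 19 1 = true := ex3_a t179_A00mm_202_s3 t166_A00mm_202_s3

theorem t181_A00mm_202_s3 : ∃ t, chk3 f_A00mm_202_s3 t 61 18 1 = true := ex3_a k41_A00mm_202_s3 k42_A00mm_202_s3

theorem t182_A00mm_202_s3 : ∃ t, chk3 f_A00mm_202_s3 t 120 18 1 = true := ex3_b k38_A00mm_202_s3 k39_A00mm_202_s3

theorem t183_A00mm_202_s3 : ∃ t, chk3 f_A00mm_202_s3 t 60 18 1 = true := ex3_a t182_A00mm_202_s3 k40_A00mm_202_s3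

theorem t184_A00mm_202_s3 : ∃ t, chk3 f_A00mm_202_s3 t 30 18 1 = true := ex3_a t183_A00mm_202_s3 t181_A00mm_202_s3

theorem t185_A00mm_202_s3 : ∃ t, chk3 f_A00mm_202_s3 t 15 18 1 = true := ex3_a t184_A00mm_202_s3 k43_A00mm_202_s3

theorem t186_A00mm_202_s3 : ∃ t, chk3 f_A00mm_202_s3 t 59 37 1 = true := ex3_c k36_A00mm_202_s3 k37_A00mm_202_s3

theorem t187_A00mm_202_s3 : ∃ t, chk3 f_A00mm_202_s3 t 59 18 1 = true := ex3_b k35_A00mm_202_s3 t186_A00mm_202_s3

theorem t188_A00mm_202_s3 : ∃ t, chk3 f_A00mm_202_s3 t 58 37 1 = true := ex3_c k33_A00mm_202_s3 k34_A00mm_202_s3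

theorem t189_A00mm_202_s3 : ∃ t, chk3 f_A00mm_202_s3 t 58 18 1 = true := ex3_b k32_A00mm_202_s3 t188_A00mm_202_s3

theorem t190_A00mm_202_s3 : ∃ t, chk3 f_A00mm_202_s3 t 29 18 1 = true := ex3_a t189_A00mm_202_s3 t187_A00mm_202_s3

theorem t191_A00mm_202_s3 : ∃ t, chk3 f_A00mm_202_s3 t 57 18 1 = true := ex3_c k30_A00mm_202_s3 k31_A00mm_202_s3

theorem t192_A00mm_202_s3 : ∃ t, chk3 f_A00mm_202_s3 t 56 18 1 = true := ex3_a k28_A00mm_202_s3 k29_A00mm_202_s3

theorem t193_A00mm_202_s3 : ∃ t, chk3 f_A00mm_202_s3 t 28 18 1 = true := ex3_a t192_A00mm_202_s3 t191_A00mm_202_s3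

theorem t194_A00mm_202_s3 : ∃ t, chk3 f_A00mm_202_s3 t 14 18 1 = true := ex3_a t193_A00mm_202_s3 t190_A00mm_202_s3

theorem t195_A00mm_202_s3 : ∃ t, chk3 f_A00mm_202_s3 t 7 18 1 = true := ex3_a t194_A00mm_202_s3 t185_A00mm_202_s3

theorem t196_A00mm_202_s3 : ∃ t, chk3 f_A00mm_202_s3 t 7 9 1 = true := ex3_b t195_A00mm_202_s3 t180_A00mm_202_s3

theorem t197_A00mm_202_s3 : ∃ t, chk3 f_A00mm_202_s3 t 30 35 1 = true := ex3_b k25_A00mm_202_s3 k26_A00mm_202_s3

theorem t198_A00mm_202_s3 : ∃ t, chk3 f_A00mm_202_s3 t 30 17 1 = true := ex3_b k24_A00mm_202_s3 t197_A00mm_202_s3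

theorem t199_A00mm_202_s3 : ∃ t, chk3 f_A00mm_202_s3 t 15 17 1 = true := ex3_a t198_A00mm_202_s3 k27_A00mm_202_s3

theorem t200_A00mm_202_s3 : ∃ t, chk3 f_A00mm_202_s3 t 29 35 1 = true := ex3_b k22_A00mm_202_s3 k23_A00mm_202_s3

theorem t201_A00mm_202_s3 : ∃ t, chk3 f_A00mm_202_s3 t 29 17 1 = true := ex3_b k21_A00mm_202_s3 t200_A00mm_202_s3

theorem t202_A00mm_202_s3 : ∃ t, chk3 f_A00mm_202_s3 t 14 17 1 = true := ex3_a k20_A00mm_202_s3 t201_A00mm_202_s3

theorem t203_A00mm_202_s3 : ∃ t, chk3 f_A00mm_202_s3 t 7 17 1 = true := ex3_a t202_A00mm_202_s3 t199_A00mm_202_s3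

theorem t204_A00mm_202_s3 : ∃ t, chk3 f_A00mm_202_s3 t 7 8 1 = true := ex3_b k19_A00mm_202_s3 t203_A00mm_202_s3

theorem t205_A00mm_202_s3 : ∃ t, chk3 f_A00mm_202_s3 t 7 4 1 = true := ex3_b t204_A00mm_202_s3 t196_A00mm_202_s3

theorem t206_A00mm_202_s3 : ∃ t, chk3 f_A00mm_202_s3 t 55 39 1 = true := ex3_b k17_A00mm_202_s3 k18_A00mm_202_s3

theorem t207_A00mm_202_s3 : ∃ t, chk3 f_A00mm_202_s3 t 54 39 1 = true := ex3_b k15_A00mm_202_s3 k16_A00mm_202_s3

theorem t208_A00mm_202_s3 : ∃ t, chk3 f_A00mm_202_s3 t 27 39 1 = true := ex3_a t207_A00mm_202_s3 t206_A00mm_202_s3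

theorem t209_A00mm_202_s3 : ∃ t, chk3 f_A00mm_202_s3 t 27 38 3 = true := ex3_a k13_A00mm_202_s3 k14_A00mm_202_s3

theorem t210_A00mm_202_s3 : ∃ t, chk3 f_A00mm_202_s3 t 27 38 2 = true := ex3_a k11_A00mm_202_s3 k12_A00mm_202_s3

theorem t211_A00mm_202_s3 : ∃ t, chk3 f_A00mm_202_s3 t 27 38 1 = true := ex3_c t210_A00mm_202_s3 t209_A00mm_202_s3

theorem t212_A00mm_202_s3 : ∃ t, chk3 f_A00mm_202_s3 t 27 19 1 = true := ex3_b t211_A00mm_202_s3 t208_A00mm_202_s3

theorem t213_A00mm_202_s3 : ∃ t, chk3 f_A00mm_202_s3 t 26 39 1 = true := ex3_c k9_A00mm_202_s3 k10_A00mm_202_s3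

theorem t214_A00mm_202_s3 : ∃ t, chk3 f_A00mm_202_s3 t 26 38 1 = true := ex3_a k7_A00mm_202_s3 k8_A00mm_202_s3

theorem t215_A00mm_202_s3 : ∃ t, chk3 f_A00mm_202_s3 t 26 19 1 = true := ex3_b t214_A00mm_202_s3 t213_A00mm_202_s3

theorem t216_A00mm_202_s3 : ∃ t, chk3 f_A00mm_202_s3 t 13 19 1 = true := ex3_a t215_A00mm_202_s3 t212_A00mm_202_s3

theorem t217_A00mm_202_s3 : ∃ t, chk3 f_A00mm_202_s3 t 27 37 1 = true := ex3_b k5_A00mm_202_s3 k6_A00mm_202_s3

theorem t218_A00mm_202_s3 : ∃ t, chk3 f_A00mm_202_s3 t 13 37 1 = true := ex3_a k4_A00mm_202_s3 t217_A00mm_202_s3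

theorem t219_A00mm_202_s3 : ∃ t, chk3 f_A00mm_202_s3 t 13 18 1 = true := ex3_b k3_A00mm_202_s3 t218_A00mm_202_s3

theorem t220_A00mm_202_s3 : ∃ t, chk3 f_A00mm_202_s3 t 13 9 1 = true := ex3_b t219_A00mm_202_s3 t216_A00mm_202_s3

theorem t221_A00mm_202_s3 : ∃ t, chk3 f_A00mm_202_s3 t 6 9 1 = true := ex3_a k2_A00mm_202_s3 t220_A00mm_202_s3

theorem t222_A00mm_202_s3 : ∃ t, chk3 f_A00mm_202_s3 t 6 4 1 = true := ex3_b k1_A00mm_202_s3 t221_A00mm_202_s3

theorem t223_A00mm_202_s3 : ∃ t, chk3 f_A00mm_202_s3 t 3 4 1 = true := ex3_a t222_A00mm_202_s3 t205_A00mm_202_s3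

theorem t224_A00mm_202_s3 : ∃ t, chk3 f_A00mm_202_s3 t 3 2 1 = true := ex3_b t223_A00mm_202_s3 t163_A00mm_202_s3

theorem t225_A00mm_202_s3 : ∃ t, chk3 f_A00mm_202_s3 t 1 2 1 = true := ex3_a k0_A00mm_202_s3 t224_A00mm_202_s3

theorem t226_A00mm_202_s3 : ∃ t, chk3 f_A00mm_202_s3 t 1 1 1 = true := ex3_b t225_A00mm_202_s3 t135_A00mm_202_s3

theorem c_A00mm_202_s3 : CertF 0 536870912 0 536870912 966367641 24778659 true false false .pp 2 0 2
    ndB0q2 ndB0q0 pcB2 cut_A00mm_202_s3 xt_A00mm_202_s3 :=
  certF1 (fam := true) (s1 := false) (s2 := false) (a := 2) (b := 0) (c := 2) (cn := .pp) (n1 := ndB0q2) (n2 := ndB0q0) (pc := pcB2) (cut := cut_A00mm_202_s3) (xt := xt_A00mm_202_s3) (P1 := 0) (W1 := 536870912) (P2 := 0) (W2 := 536870912) (P3 := 966367641) (W3 := 24778659)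
    rfl (fun _ => rfl) t226_A00mm_202_s3

theorem s_A00mm_202_s3 {κ x : ℝ} (hκ : κ * h0 = ken x) (hx : ((966367641 : ℕ) : ℝ) / S ≤ x)
    (hx' : x ≤ (((966367641 : ℕ) : ℝ) + (24778659 : ℕ)) / S)
    (H : CutA (VFD κ) PP tK tL pcB (Cut.of [[⟨0, 1, 0, 53687091⟩, ⟨1, 0, 0, 53687091⟩, ⟨2, 1, 0, 53687091⟩]]) 2 0 2 0 0 (sgb false) (sgb false) x) :
    AltA (VFD κ) PP tK tL pcB [⟨4, 0, 0, 2845415833⟩] 2 0 2 0 0 (sgb false) (sgb false) x :=
  strip_altAD (m := 2845415833) false rfl hκ (SH.κ0 hκ (SH.hx1 hx).le (SH.hx2 hx').le) (SH.hx1 hx).le (SH.hx2 hx') (covB02).cov (covB00).cov hx hx' c_A00mm_202_s3 H ((okx hx hx').extA (T := tt) (sideB hx hx') hκ rfl rfl (.O 2 false) (.O 0 false) (Or.inl rfl))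

end Pool.Agent.Strip051.G.I9000_9231.Tab.St.C
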