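import Pool.Agent.Strip051.G.I9000_9231.StH
import Pool.Agent.Strip051.G.I9000_9231.StF

/-! # Unit strips 14 (generated) -/

set_option linter.all false
set_option maxRecDepth 100000

namespace Pool.Agent.Strip051.G.I9000_9231.Tab.St.C

open Pool.Agent.Strip051.PB Pool.Agent.Strip051.PB.T Pool.Agent.StripNear Pool.Agent.Strip051.LC
open Pool.Agent.Strip051.G.I9000_9231.Tab Pool.Agent.Strip051.G.I9000_9231.Tab.St

noncomputable def cut_A00mm_203_s1 : Cut := Cut.of [[⟨4, 0, 0, 1449551462⟩]]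

noncomputable def f_A00mm_203_s1 : ℕ → ℕ → ℕ → ℕ → Bool := onCell 0 536870912 0 536870912 966367641 24778659
    (rowF 0 true false false .up 2 0 3 (qsf 0 536870912 0 536870912 3) ndB0q2 ndB0q0 pcB3 cut_A00mm_203_s1 Ext.none)

def k0_A00mm_203_s1 : ∃ t, chk3 f_A00mm_203_s1 t 1 1 1 = true :=
  ⟨(l 6), by decide +kernel⟩

theorem c_A00mm_203_s1 : CertF 0 536870912 0 536870912 966367641 24778659 true false false .up 2 0 3
    ndB0q2 ndB0q0 pcB3 cut_A00mm_203_s1 Ext.none :=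
  certF0 (fam := true) (s1 := false) (s2 := false) (a := 2) (b := 0) (c := 3) (cn := .up) (n1 := ndB0q2) (n2 := ndB0q0) (pc := pcB3) (cut := cut_A00mm_203_s1) (xt := Ext.none) (P1 := 0) (W1 := 536870912) (P2 := 0) (W2 := 536870912) (P3 := 966367641) (W3 := 24778659)
    rfl k0_A00mm_203_s1

theorem s_A00mm_203_s1 {κ x : ℝ} (hκ : κ * h0 = ken x) (hx : ((966367641 : ℕ) : ℝ) / S ≤ x)
    (hx' : x ≤ (((966367641 : ℕ) : ℝ) + (24778659 : ℕ)) / S) :
    AltA (VFD κ) PP tK tL pcB [⟨3, 0, 0, 1449551462⟩] 2 0 3 0 0 (sgb false) (sgb false) x :=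
  strip_altAD (m := 1449551462) true rfl hκ (SH.κ0 hκ (SH.hx1 hx).le (SH.hx2 hx').le) (SH.hx1 hx).le (SH.hx2 hx') (covB02).cov (covB00).cov hx hx' c_A00mm_203_s1 cutA_nil (noExt_A)

noncomputable def cut_A00mm_203_s3 : Cut := Cut.of [[⟨3, 0, 0, 2845415833⟩]]

noncomputable def xt_A00mm_203_s3 : Ext := strExt dd true false false .u2 .u0m .s2m .up 2 0 3 rfl rfl gl3 vv ndB0q2 ndB0q0

noncomputable def f_A00mm_203_s3 : ℕ → ℕ → ℕ → ℕ → Bool := onCell 0 536870912 1610612736 536870912 966367641 24778659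
    (rowF 1 true false false .up 2 0 3 (qsf 0 536870912 0 536870912 3) ndB0q2 ndB0q0 pcB3 cut_A00mm_203_s3 xt_A00mm_203_s3)

def k0_A00mm_203_s3 : ∃ t, chk3 f_A00mm_203_s3 t 4 8 1 = true :=
  ⟨(b (c (b (a (a (b (l 16483160) (l 16481840)) (c (l 16553096) (l 16635480))) (a (c (b (l 16573152) (l 16583024)) (l 16579120)) (c (b (l 16601336) (l 16631416)) (l 533360399)))) (a (a (c (l 16552000) (l 16610480)) (c (l 16573144) (l 16639344))) (a (a (l 532861711) (l 533377551)) (c (l 532380175) (l 533715215))))) (c (a (b (a (l 16516024) (l 16474848)) (a (l 16524632) (c (l 16587816) (l 16551016)))) (a (b (a (l 16591128) (l 16613048)) (l 530881807)) (b (a (l 16551520) (l 532306959)) (l 531344399)))) (a (b (a (l 16413944) (c (l 16496064) (l 16452472))) (a (l 16430392) (c (l 16512696) (l 16473104)))) (a (b (c (l 16552304) (l 16517696)) (a (l 16540120) (l 530502415))) (b (a (l 530634255) (l 530584591)) (a (l 530456591) (l 530408463))))))) (a (c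 (c (a (b (l 16570960) (l 16587592)) (b (l 16590992) (l 533678351))) (a (b (l 16614296) (l 16620256)) (b (l 16561448) (l 533189135)))) (c (b (a (l 16452016) (l 530758927)) (a (c (l 16568024) (l 16530728)) (l 531676431))) (a (b (c (l 16471920) (l 16427424)) (c (l 16491888) (l 16451752))) (b (c (l 16531928) (l 16496464)) (a (l 16521512) (l 530277135)))))) (a (c (b (c (l 532908559) (l 533593871)) (c (l 533575439) (l 533424655))) (c (b (l 531520271) (l 531640079)) (b (a (l 530386959) (l 530349071)) (a (l 530258191) (l 530223375))))) (c (b (c (l 534142479) (l 533542927)) (c (l 534274831) (l 533380367))) (b (a (l 530634511) (l 531128847)) (a (l 531037711) (l 530997519))))))), by decide +kernel⟩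

def k1_A00mm_203_s3 : ∃ t, chk3 f_A00mm_203_s3 t 4 9 1 = true :=
  ⟨(a (b (c (a (c (b (l 16596928) (l 16684040)) (b (l 16544360) (l 532875023))) (b (c (l 534265871) (l 533291279)) (c (l 534346767) (l 532865295)))) (c (a (b (l 531804943) (l 531673615)) (b (l 531805199) (l 531682831))) (a (b (c (l 16514128) (l 16478408)) (l 529786895)) (b (a (l 16546824) (l 530167311)) (l 529814543))))) (a (c (b (c (l 16647064) (l 532988175)) (l 533186575)) (b (b (l 530807823) (l 530766095)) (l 530712335))) (c (b (c (l 534159631) (l 532984591)) (c (l 533973775) (l 532844047))) (b (c (l 531577359) (l 529753871)) (a (l 530744847) (b (l 530771471) (l 530746895))))))) (a (a (b (c (b (l 533394703) (l 533493007)) (b (c (l 531787023) (l 530153231)) (l 530619663))) (c (b (l 533326607) (l 532090127)) (b (l 530276623) (b (l 530772751) (l 530752271))))) (b (c (c (l 534414863) (l 533178895)) (b (l 530958095) (l 530864143))) (c (b (l 533590799) (c (l 533958671)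 (l 532832015))) (b (l 530793231) (b (l 530755599) (l 530737423)))))) (b (c (b (a (l 533907471) (l 533889807)) (a (l 533744399) (l 533730319))) (b (a (l 530924303) (l 530886927)) (a (l 530833167) (l 530798607)))) (c (b (a (l 533585167) (l 533574927)) (a (l 533160975) (l 533423119))) (b (a (l 530765071) (l 530733327)) (a (l 530720015) (l 530690831))))))), by decide +kernel⟩

def k2_A00mm_203_s3 : ∃ t, chk3 f_A00mm_203_s3 t 5 4 1 = true :=
  ⟨(b (a (a (a (b (c (b (l 532809487) (l 532755215)) (c (b (l 532261391) (l 532084751)) (b (l 530533903) (l 530358543)))) (b (c (l 532852239) (c (l 531926543) (l 530209295))) (c (l 533491215) (b (l 530984719) (l 530925327))))) (b (c (b (l 532745999) (c (l 533846287) (l 533618703))) (b (c (l 532213775) (l 530483983)) (c (l 532038927) (l 530308623)))) (b (c (c (l 533997327) (l 533455119)) (c (l 531880719) (l 530155535))) (c (l 532655631) (b (l 530937359) (l 530879247)))))) (a (b (b (c (l 532949263)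 (l 529708303)) (c (c (l 533785615) (l 533571855)) (a (l 531155983) (l 531135247)))) (c (b (c (l 533937423) (l 533411343)) (c (l 534071823) (l 533261071))) (c (b (l 531838479) (l 531700495)) (b (l 530115343) (l 529988879))))) (b (c (c (l 533641999) (l 533602063)) (b (l 531272975) (l 531102991))) (b (c (l 532993551) (b (l 530988559) (l 4))) (l 4))))) (b (b (a (a (c (l 533888271) (l 531223567)) (l 4)) (l 4)) (l 4)) (l 4))) (a (a (b (a (c (c (l 534345743) (l 533115919)) (b (l 530845967) (l 530760463))) (b (c (l 533840399) (l 530801935)) (l 4))) (l 4)) (l 4)) (l 4))), by decide +kernel⟩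

def k3_A00mm_203_s3 : ∃ t, chk3 f_A00mm_203_s3 t 2 5 1 = true :=
  ⟨(a (b (a (b (b (a (c (l 533291535) (l 530657551)) (c (b (l 531982863) (l 533247247)) (b (a (l 530708751) (l 530726927)) (l 530701327)))) (c (a (l 533135375) (l 533135887)) (a (l 530618127) (l 530678543)))) (l 2)) (b (b (a (c (c (a (l 533771023) (l 533773071)) (l 531366159)) (c (a (l 531427343) (l 531420431)) (a (l 530002703) (l 529990415)))) (a (c (l 533276175) (l 530697743)) (l 4))) (a (a (b (c (l 533154063) (l 530724367)) (l 531982351)) (a (c (l 533117455) (l 530720271)) (l 4))) (l 4))) (l 2))) (l 2)) (l 4)), by decide +kernel⟩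

def k4_A00mm_203_s3 : ∃ t, chk3 f_A00mm_203_s3 t 2 3 1 = true :=
  ⟨(l 2), by decide +kernel⟩

def k5_A00mm_203_s3 : ∃ t, chk3 f_A00mm_203_s3 t 3 1 1 = true :=
  ⟨(b (l 4) (l 2)), by decide +kernel⟩

theorem t6_A00mm_203_s3 : ∃ t, chk3 f_A00mm_203_s3 t 4 4 1 = true := ex3_b k0_A00mm_203_s3 k1_A00mm_203_s3

theorem t7_A00mm_203_s3 : ∃ t, chk3 f_A00mm_203_s3 t 2 4 1 = true := ex3_a t6_A00mm_203_s3 k2_A00mm_203_s3

theorem t8_A00mm_203_s3 : ∃ t, chk3 f_A00mm_203_s3 t 2 2 1 = true := ex3_b t7_A00mm_203_s3 k3_A00mm_203_s3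

theorem t9_A00mm_203_s3 : ∃ t, chk3 f_A00mm_203_s3 t 2 1 1 = true := ex3_b t8_A00mm_203_s3 k4_A00mm_203_s3

theorem t10_A00mm_203_s3 : ∃ t, chk3 f_A00mm_203_s3 t 1 1 1 = true := ex3_a t9_A00mm_203_s3 k5_A00mm_203_s3

theorem c_A00mm_203_s3 : CertF 0 536870912 0 536870912 966367641 24778659 true false false .up 2 0 3
    ndB0q2 ndB0q0 pcB3 cut_A00mm_203_s3 xt_A00mm_203_s3 :=
  certF1 (fam := true) (s1 := false) (s2 := false) (a := 2) (b := 0) (c := 3) (cn := .up) (n1 := ndB0q2) (n2 := ndB0q0) (pc := pcB3) (cut := cut_A00mm_203_s3) (xt := xt_A00mm_203_s3) (P1 := 0) (W1 := 536870912) (P2 := 0) (W2 := 536870912) (P3 := 966367641) (W3 := 24778659)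
    rfl (fun _ => rfl) t10_A00mm_203_s3

theorem s_A00mm_203_s3 {κ x : ℝ} (hκ : κ * h0 = ken x) (hx : ((966367641 : ℕ) : ℝ) / S ≤ x)
    (hx' : x ≤ (((966367641 : ℕ) : ℝ) + (24778659 : ℕ)) / S) :
    AltA (VFD κ) PP tK tL pcB [⟨4, 0, 0, 2845415833⟩] 2 0 3 0 0 (sgb false) (sgb false) x :=
  strip_altAD (m := 2845415833) false rfl hκ (SH.κ0 hκ (SH.hx1 hx).le (SH.hx2 hx').le) (SH.hx1 hx).le (SH.hx2 hx') (covB02).cov (covB00).cov hx hx' c_A00mm_203_s3 cutA_nil ((okx hx hx').extA (T := tt) (sideB hx hx') hκ rfl rfl (.O 2 false) (.O 0 false) (Or.inr rfl))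

noncomputable def cut_A00mm_213_s1 : Cut := Cut.of [[⟨4, 0, 0, 1449551462⟩]]

noncomputable def f_A00mm_213_s1 : ℕ → ℕ → ℕ → ℕ → Bool := onCell 0 536870912 536870912 536870912 966367641 24778659
    (rowF 0 true false false .pnn 2 1 3 (qsf 0 536870912 536870912 536870912 3) ndB0q2 ndB0q1 pcB3 cut_A00mm_213_s1 Ext.none)

def k0_A00mm_213_s1 : ∃ t, chk3 f_A00mm_213_s1 t 1 1 1 = true :=
  ⟨(l 6), by decide +kernel⟩

theorem c_A00mm_213_s1 : CertF 0 536870912 536870912 536870912 966367641 24778659 true false false .pnn 2 1 3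
    ndB0q2 ndB0q1 pcB3 cut_A00mm_213_s1 Ext.none :=
  certF0 (fam := true) (s1 := false) (s2 := false) (a := 2) (b := 1) (c := 3) (cn := .pnn) (n1 := ndB0q2) (n2 := ndB0q1) (pc := pcB3) (cut := cut_A00mm_213_s1) (xt := Ext.none) (P1 := 0) (W1 := 536870912) (P2 := 536870912) (W2 := 536870912) (P3 := 966367641) (W3 := 24778659)
    rfl k0_A00mm_213_s1

theorem s_A00mm_213_s1 {κ x : ℝ} (hκ : κ * h0 = ken x) (hx : ((966367641 : ℕ) : ℝ) / S ≤ x)
    (hx' : x ≤ (((966367641 : ℕ) : ℝ) + (24778659 : ℕ)) / S) :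
    AltA (VFD κ) PP tK tL pcB [⟨3, 0, 0, 1449551462⟩] 2 1 3 0 0 (sgb false) (sgb false) x :=
  strip_altAD (m := 1449551462) true rfl hκ (SH.κ0 hκ (SH.hx1 hx).le (SH.hx2 hx').le) (SH.hx1 hx).le (SH.hx2 hx') (covB02).cov (covB01).cov hx hx' c_A00mm_213_s1 cutA_nil (noExt_A)

noncomputable def cut_A00mm_213_s3 : Cut := Cut.of [[⟨3, 0, 0, 2845415833⟩]]

noncomputable def xt_A00mm_213_s3 : Ext := strExt dd true false false .u2 .u0m .s2m .pnn 2 1 3 rfl rfl gl3 vv ndB0q2 ndB0q1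

noncomputable def f_A00mm_213_s3 : ℕ → ℕ → ℕ → ℕ → Bool := onCell 0 536870912 536870912 536870912 966367641 24778659
    (rowF 0 true false false .pnn 2 1 3 (qsf 0 536870912 536870912 536870912 3) ndB0q2 ndB0q1 pcB3 cut_A00mm_213_s3 xt_A00mm_213_s3)

def k0_A00mm_213_s3 : ∃ t, chk3 f_A00mm_213_s3 t 1 1 1 = true :=
  ⟨(a (b (b (a (b (b (a (c (b (l 531941903) (l 532872207)) (b (a (l 530597647) (l 530664463)) (a (l 530589199) (l 530661647)))) (a (a (b (l 530334991) (l 4)) (l 4)) (l 4))) (a (c (b (l 532732175) (l 532594959)) (b (l 530638863) (l 530662159))) (l 4))) (a (a (b (c (l 531281423) (l 530665999)) (l 4)) (l 4)) (l 4))) (l 4)) (l 4)) (l 4)) (l 4)), by decide +kernel⟩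

theorem c_A00mm_213_s3 : CertF 0 536870912 536870912 536870912 966367641 24778659 true false false .pnn 2 1 3
    ndB0q2 ndB0q1 pcB3 cut_A00mm_213_s3 xt_A00mm_213_s3 :=
  certF0 (fam := true) (s1 := false) (s2 := false) (a := 2) (b := 1) (c := 3) (cn := .pnn) (n1 := ndB0q2) (n2 := ndB0q1) (pc := pcB3) (cut := cut_A00mm_213_s3) (xt := xt_A00mm_213_s3) (P1 := 0) (W1 := 536870912) (P2 := 536870912) (W2 := 536870912) (P3 := 966367641) (W3 := 24778659)
    rfl k0_A00mm_213_s3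

theorem s_A00mm_213_s3 {κ x : ℝ} (hκ : κ * h0 = ken x) (hx : ((966367641 : ℕ) : ℝ) / S ≤ x)
    (hx' : x ≤ (((966367641 : ℕ) : ℝ) + (24778659 : ℕ)) / S) :
    AltA (VFD κ) PP tK tL pcB [⟨4, 0, 0, 2845415833⟩] 2 1 3 0 0 (sgb false) (sgb false) x :=
  strip_altAD (m := 2845415833) false rfl hκ (SH.κ0 hκ (SH.hx1 hx).le (SH.hx2 hx').le) (SH.hx1 hx).le (SH.hx2 hx') (covB02).cov (covB01).cov hx hx' c_A00mm_213_s3 cutA_nil ((okx hx hx').extA (T := tt) (sideB hx hx') hκ rfl rfl (.O 2 false) (.O 1 false) (Or.inr rfl))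

noncomputable def cut_A04pp_001_s1 : Cut := Cut.of [[⟨4, 0, 0, 1449551462⟩]]

noncomputable def f_A04pp_001_s1 : ℕ → ℕ → ℕ → ℕ → Bool := onCell 0 536870912 0 536870912 966367641 24778659
    (rowF 0 true true true .up 0 0 1 (qsf 0 536870912 0 536870912 1) ndB0q0 ndB4q0 pcB1 cut_A04pp_001_s1 Ext.none)

def k0_A04pp_001_s1 : ∃ t, chk3 f_A04pp_001_s1 t 1 1 1 = true :=
  ⟨(l 4), by decide +kernel⟩

theorem c_A04pp_001_s1 : CertF 0 536870912 0 536870912 966367641 24778659 true true true .up 0 0 1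
    ndB0q0 ndB4q0 pcB1 cut_A04pp_001_s1 Ext.none :=
  certF0 (fam := true) (s1 := true) (s2 := true) (a := 0) (b := 0) (c := 1) (cn := .up) (n1 := ndB0q0) (n2 := ndB4q0) (pc := pcB1) (cut := cut_A04pp_001_s1) (xt := Ext.none) (P1 := 0) (W1 := 536870912) (P2 := 0) (W2 := 536870912) (P3 := 966367641) (W3 := 24778659)
    rfl k0_A04pp_001_s1

theorem s_A04pp_001_s1 {κ x : ℝ} (hκ : κ * h0 = ken x) (hx : ((966367641 : ℕ) : ℝ) / S ≤ x)
    (hx' : x ≤ (((966367641 : ℕ) : ℝ) + (24778659 : ℕ)) / S) :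
    AltA (VFD κ) PP tK tL pcB [⟨3, 0, 0, 1449551462⟩] 0 0 1 0 4 (sgb true) (sgb true) x :=
  strip_altAD (m := 1449551462) true rfl hκ (SH.κ0 hκ (SH.hx1 hx).le (SH.hx2 hx').le) (SH.hx1 hx).le (SH.hx2 hx') (covB00).cov (covB40).cov hx hx' c_A04pp_001_s1 cutA_nil (noExt_A)

noncomputable def cut_A04pp_011_s1 : Cut := Cut.of [[⟨4, 0, 0, 1449551462⟩]]

noncomputable def f_A04pp_011_s1 : ℕ → ℕ → ℕ → ℕ → Bool := onCell 0 536870912 536870912 536870912 966367641 24778659
    (rowF 0 true true true .pnn 0 1 1 (qsf 0 536870912 536870912 536870912 1) ndB0q0 ndB4q1 pcB1 cut_A04pp_011_s1 Ext.none)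

def k0_A04pp_011_s1 : ∃ t, chk3 f_A04pp_011_s1 t 1 1 1 = true :=
  ⟨(l 4), by decide +kernel⟩

theorem c_A04pp_011_s1 : CertF 0 536870912 536870912 536870912 966367641 24778659 true true true .pnn 0 1 1
    ndB0q0 ndB4q1 pcB1 cut_A04pp_011_s1 Ext.none :=
  certF0 (fam := true) (s1 := true) (s2 := true) (a := 0) (b := 1) (c := 1) (cn := .pnn) (n1 := ndB0q0) (n2 := ndB4q1) (pc := pcB1) (cut := cut_A04pp_011_s1) (xt := Ext.none) (P1 := 0) (W1 := 536870912) (P2 := 536870912) (W2 := 536870912) (P3 := 966367641) (W3 := 24778659)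
    rfl k0_A04pp_011_s1

theorem s_A04pp_011_s1 {κ x : ℝ} (hκ : κ * h0 = ken x) (hx : ((966367641 : ℕ) : ℝ) / S ≤ x)
    (hx' : x ≤ (((966367641 : ℕ) : ℝ) + (24778659 : ℕ)) / S) :
    AltA (VFD κ) PP tK tL pcB [⟨3, 0, 0, 1449551462⟩] 0 1 1 0 4 (sgb true) (sgb true) x :=
  strip_altAD (m := 1449551462) true rfl hκ (SH.κ0 hκ (SH.hx1 hx).le (SH.hx2 hx').le) (SH.hx1 hx).le (SH.hx2 hx') (covB00).cov (covB41).cov hx hx' c_A04pp_011_s1 cutA_nil (noExt_A)

noncomputable def cut_A04pp_012_s1 : Cut := Cut.of [[⟨4, 0, 0, 1449551462⟩]]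

noncomputable def f_A04pp_012_s1 : ℕ → ℕ → ℕ → ℕ → Bool := onCell 0 536870912 536870912 536870912 966367641 24778659
    (rowF 0 true true true .pnp 0 1 2 (qsf 0 536870912 536870912 536870912 2) ndB0q0 ndB4q1 pcB2 cut_A04pp_012_s1 Ext.none)

def k0_A04pp_012_s1 : ∃ t, chk3 f_A04pp_012_s1 t 1 1 1 = true :=
  ⟨(l 4), by decide +kernel⟩

theorem c_A04pp_012_s1 : CertF 0 536870912 536870912 536870912 966367641 24778659 true true true .pnp 0 1 2
    ndB0q0 ndB4q1 pcB2 cut_A04pp_012_s1 Ext.none :=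
  certF0 (fam := true) (s1 := true) (s2 := true) (a := 0) (b := 1) (c := 2) (cn := .pnp) (n1 := ndB0q0) (n2 := ndB4q1) (pc := pcB2) (cut := cut_A04pp_012_s1) (xt := Ext.none) (P1 := 0) (W1 := 536870912) (P2 := 536870912) (W2 := 536870912) (P3 := 966367641) (W3 := 24778659)
    rfl k0_A04pp_012_s1

theorem s_A04pp_012_s1 {κ x : ℝ} (hκ : κ * h0 = ken x) (hx : ((966367641 : ℕ) : ℝ) / S ≤ x)
    (hx' : x ≤ (((966367641 : ℕ) : ℝ) + (24778659 : ℕ)) / S) :
    AltA (VFD κ) PP tK tL pcB [⟨3, 0, 0, 1449551462⟩] 0 1 2 0 4 (sgb true) (sgb true) x :=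
  strip_altAD (m := 1449551462) true rfl hκ (SH.κ0 hκ (SH.hx1 hx).le (SH.hx2 hx').le) (SH.hx1 hx).le (SH.hx2 hx') (covB00).cov (covB41).cov hx hx' c_A04pp_012_s1 cutA_nil (noExt_A)

noncomputable def cut_A04pp_022_s1 : Cut := Cut.of [[⟨4, 0, 0, 1449551462⟩]]

noncomputable def f_A04pp_022_s1 : ℕ → ℕ → ℕ → ℕ → Bool := onCell 0 536870912 1073741824 536870912 966367641 24778659
    (rowF 0 true true true .pp 0 2 2 (qsf 0 536870912 1073741824 536870912 2) ndB0q0 ndB4q2 pcB2 cut_A04pp_022_s1 Ext.none)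

def k0_A04pp_022_s1 : ∃ t, chk3 f_A04pp_022_s1 t 1 1 1 = true :=
  ⟨(l 4), by decide +kernel⟩

theorem c_A04pp_022_s1 : CertF 0 536870912 1073741824 536870912 966367641 24778659 true true true .pp 0 2 2
    ndB0q0 ndB4q2 pcB2 cut_A04pp_022_s1 Ext.none :=
  certF0 (fam := true) (s1 := true) (s2 := true) (a := 0) (b := 2) (c := 2) (cn := .pp) (n1 := ndB0q0) (n2 := ndB4q2) (pc := pcB2) (cut := cut_A04pp_022_s1) (xt := Ext.none) (P1 := 0) (W1 := 536870912) (P2 := 1073741824) (W2 := 536870912) (P3 := 966367641) (W3 := 24778659)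
    rfl k0_A04pp_022_s1

theorem s_A04pp_022_s1 {κ x : ℝ} (hκ : κ * h0 = ken x) (hx : ((966367641 : ℕ) : ℝ) / S ≤ x)
    (hx' : x ≤ (((966367641 : ℕ) : ℝ) + (24778659 : ℕ)) / S) :
    AltA (VFD κ) PP tK tL pcB [⟨3, 0, 0, 1449551462⟩] 0 2 2 0 4 (sgb true) (sgb true) x :=
  strip_altAD (m := 1449551462) true rfl hκ (SH.κ0 hκ (SH.hx1 hx).le (SH.hx2 hx').le) (SH.hx1 hx).le (SH.hx2 hx') (covB00).cov (covB42).cov hx hx' c_A04pp_022_s1 cutA_nil (noExt_A)

noncomputable def cut_A04pp_023_s1 : Cut := Cut.of [[⟨4, 0, 0, 1449551462⟩]]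

noncomputable def f_A04pp_023_s1 : ℕ → ℕ → ℕ → ℕ → Bool := onCell 0 536870912 1073741824 536870912 966367641 24778659
    (rowF 0 true true true .up 0 2 3 (qsf 0 536870912 1073741824 536870912 3) ndB0q0 ndB4q2 pcB3 cut_A04pp_023_s1 Ext.none)

def k0_A04pp_023_s1 : ∃ t, chk3 f_A04pp_023_s1 t 1 1 1 = true :=
  ⟨(l 4), by decide +kernel⟩

theorem c_A04pp_023_s1 : CertF 0 536870912 1073741824 536870912 966367641 24778659 true true true .up 0 2 3
    ndB0q0 ndB4q2 pcB3 cut_A04pp_023_s1 Ext.none :=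
  certF0 (fam := true) (s1 := true) (s2 := true) (a := 0) (b := 2) (c := 3) (cn := .up) (n1 := ndB0q0) (n2 := ndB4q2) (pc := pcB3) (cut := cut_A04pp_023_s1) (xt := Ext.none) (P1 := 0) (W1 := 536870912) (P2 := 1073741824) (W2 := 536870912) (P3 := 966367641) (W3 := 24778659)
    rfl k0_A04pp_023_s1

theorem s_A04pp_023_s1 {κ x : ℝ} (hκ : κ * h0 = ken x) (hx : ((966367641 : ℕ) : ℝ) / S ≤ x)
    (hx' : x ≤ (((966367641 : ℕ) : ℝ) + (24778659 : ℕ)) / S) :
    AltA (VFD κ) PP tK tL pcB [⟨3, 0, 0, 1449551462⟩] 0 2 3 0 4 (sgb true) (sgb true) x :=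
  strip_altAD (m := 1449551462) true rfl hκ (SH.κ0 hκ (SH.hx1 hx).le (SH.hx2 hx').le) (SH.hx1 hx).le (SH.hx2 hx') (covB00).cov (covB42).cov hx hx' c_A04pp_023_s1 cutA_nil (noExt_A)

noncomputable def cut_A04pp_033_s1 : Cut := Cut.of [[⟨4, 0, 0, 1449551462⟩]]

noncomputable def f_A04pp_033_s1 : ℕ → ℕ → ℕ → ℕ → Bool := onCell 0 536870912 0 1230186008 966367641 24778659
    (rowF 0 true true true .pnn 0 3 3 (qsf 0 536870912 0 1230186008 3) ndB0q0 ndB4q3 pcB3 cut_A04pp_033_s1 Ext.none)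

def k0_A04pp_033_s1 : ∃ t, chk3 f_A04pp_033_s1 t 1 1 1 = true :=
  ⟨(l 4), by decide +kernel⟩

theorem c_A04pp_033_s1 : CertF 0 536870912 0 1230186008 966367641 24778659 true true true .pnn 0 3 3
    ndB0q0 ndB4q3 pcB3 cut_A04pp_033_s1 Ext.none :=
  certF0 (fam := true) (s1 := true) (s2 := true) (a := 0) (b := 3) (c := 3) (cn := .pnn) (n1 := ndB0q0) (n2 := ndB4q3) (pc := pcB3) (cut := cut_A04pp_033_s1) (xt := Ext.none) (P1 := 0) (W1 := 536870912) (P2 := 0) (W2 := 1230186008) (P3 := 966367641) (W3 := 24778659)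
    rfl k0_A04pp_033_s1

theorem s_A04pp_033_s1 {κ x : ℝ} (hκ : κ * h0 = ken x) (hx : ((966367641 : ℕ) : ℝ) / S ≤ x)
    (hx' : x ≤ (((966367641 : ℕ) : ℝ) + (24778659 : ℕ)) / S) :
    AltA (VFD κ) PP tK tL pcB [⟨3, 0, 0, 1449551462⟩] 0 3 3 0 4 (sgb true) (sgb true) x :=
  strip_altAD (m := 1449551462) true rfl hκ (SH.κ0 hκ (SH.hx1 hx).le (SH.hx2 hx').le) (SH.hx1 hx).le (SH.hx2 hx') (covB00).cov (covB43).cov hx hx' c_A04pp_033_s1 cutA_nil (noExt_A)

noncomputable def cut_A04pp_101_s1 : Cut := Cut.of [[⟨4, 0, 0, 1449551462⟩]]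

noncomputable def f_A04pp_101_s1 : ℕ → ℕ → ℕ → ℕ → Bool := onCell 536870912 536870912 0 536870912 966367641 24778659
    (rowF 0 true true true .npn 1 0 1 (qsf 536870912 536870912 0 536870912 1) ndB0q1 ndB4q0 pcB1 cut_A04pp_101_s1 Ext.none)

def k0_A04pp_101_s1 : ∃ t, chk3 f_A04pp_101_s1 t 1 1 1 = true :=
  ⟨(l 4), by decide +kernel⟩

theorem c_A04pp_101_s1 : CertF 536870912 536870912 0 536870912 966367641 24778659 true true true .npn 1 0 1
    ndB0q1 ndB4q0 pcB1 cut_A04pp_101_s1 Ext.none :=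
  certF0 (fam := true) (s1 := true) (s2 := true) (a := 1) (b := 0) (c := 1) (cn := .npn) (n1 := ndB0q1) (n2 := ndB4q0) (pc := pcB1) (cut := cut_A04pp_101_s1) (xt := Ext.none) (P1 := 536870912) (W1 := 536870912) (P2 := 0) (W2 := 536870912) (P3 := 966367641) (W3 := 24778659)
    rfl k0_A04pp_101_s1

theorem s_A04pp_101_s1 {κ x : ℝ} (hκ : κ * h0 = ken x) (hx : ((966367641 : ℕ) : ℝ) / S ≤ x)
    (hx' : x ≤ (((966367641 : ℕ) : ℝ) + (24778659 : ℕ)) / S) :
    AltA (VFD κ) PP tK tL pcB [⟨3, 0, 0, 1449551462⟩] 1 0 1 0 4 (sgb true) (sgb true) x :=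
  strip_altAD (m := 1449551462) true rfl hκ (SH.κ0 hκ (SH.hx1 hx).le (SH.hx2 hx').le) (SH.hx1 hx).le (SH.hx2 hx') (covB01).cov (covB40).cov hx hx' c_A04pp_101_s1 cutA_nil (noExt_A)

noncomputable def cut_A04pp_102_s1 : Cut := Cut.of [[⟨4, 0, 0, 1449551462⟩]]

noncomputable def f_A04pp_102_s1 : ℕ → ℕ → ℕ → ℕ → Bool := onCell 536870912 536870912 0 536870912 966367641 24778659
    (rowF 0 true true true .npp 1 0 2 (qsf 536870912 536870912 0 536870912 2) ndB0q1 ndB4q0 pcB2 cut_A04pp_102_s1 Ext.none)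

def k0_A04pp_102_s1 : ∃ t, chk3 f_A04pp_102_s1 t 1 1 1 = true :=
  ⟨(l 4), by decide +kernel⟩

theorem c_A04pp_102_s1 : CertF 536870912 536870912 0 536870912 966367641 24778659 true true true .npp 1 0 2
    ndB0q1 ndB4q0 pcB2 cut_A04pp_102_s1 Ext.none :=
  certF0 (fam := true) (s1 := true) (s2 := true) (a := 1) (b := 0) (c := 2) (cn := .npp) (n1 := ndB0q1) (n2 := ndB4q0) (pc := pcB2) (cut := cut_A04pp_102_s1) (xt := Ext.none) (P1 := 536870912) (W1 := 536870912) (P2 := 0) (W2 := 536870912) (P3 := 966367641) (W3 := 24778659)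
    rfl k0_A04pp_102_s1

theorem s_A04pp_102_s1 {κ x : ℝ} (hκ : κ * h0 = ken x) (hx : ((966367641 : ℕ) : ℝ) / S ≤ x)
    (hx' : x ≤ (((966367641 : ℕ) : ℝ) + (24778659 : ℕ)) / S) :
    AltA (VFD κ) PP tK tL pcB [⟨3, 0, 0, 1449551462⟩] 1 0 2 0 4 (sgb true) (sgb true) x :=
  strip_altAD (m := 1449551462) true rfl hκ (SH.κ0 hκ (SH.hx1 hx).le (SH.hx2 hx').le) (SH.hx1 hx).le (SH.hx2 hx') (covB01).cov (covB40).cov hx hx' c_A04pp_102_s1 cutA_nil (noExt_A)

noncomputable def cut_A04pp_112_s1 : Cut := Cut.of [[⟨4, 0, 0, 1449551462⟩]]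

noncomputable def f_A04pp_112_s1 : ℕ → ℕ → ℕ → ℕ → Bool := onCell 536870912 536870912 536870912 536870912 966367641 24778659
    (rowF 0 true true true .dn 1 1 2 (qsf 536870912 536870912 536870912 536870912 2) ndB0q1 ndB4q1 pcB2 cut_A04pp_112_s1 Ext.none)

def k0_A04pp_112_s1 : ∃ t, chk3 f_A04pp_112_s1 t 1 1 1 = true :=
  ⟨(l 4), by decide +kernel⟩

theorem c_A04pp_112_s1 : CertF 536870912 536870912 536870912 536870912 966367641 24778659 true true true .dn 1 1 2
    ndB0q1 ndB4q1 pcB2 cut_A04pp_112_s1 Ext.none :=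
  certF0 (fam := true) (s1 := true) (s2 := true) (a := 1) (b := 1) (c := 2) (cn := .dn) (n1 := ndB0q1) (n2 := ndB4q1) (pc := pcB2) (cut := cut_A04pp_112_s1) (xt := Ext.none) (P1 := 536870912) (W1 := 536870912) (P2 := 536870912) (W2 := 536870912) (P3 := 966367641) (W3 := 24778659)
    rfl k0_A04pp_112_s1

theorem s_A04pp_112_s1 {κ x : ℝ} (hκ : κ * h0 = ken x) (hx : ((966367641 : ℕ) : ℝ) / S ≤ x)
    (hx' : x ≤ (((966367641 : ℕ) : ℝ) + (24778659 : ℕ)) / S) :
    AltA (VFD κ) PP tK tL pcB [⟨3, 0, 0, 1449551462⟩] 1 1 2 0 4 (sgb true) (sgb true) x :=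
  strip_altAD (m := 1449551462) true rfl hκ (SH.κ0 hκ (SH.hx1 hx).le (SH.hx2 hx').le) (SH.hx1 hx).le (SH.hx2 hx') (covB01).cov (covB41).cov hx hx' c_A04pp_112_s1 cutA_nil (noExt_A)

noncomputable def cut_A04pp_113_s1 : Cut := Cut.of [[⟨4, 0, 0, 1449551462⟩]]

noncomputable def f_A04pp_113_s1 : ℕ → ℕ → ℕ → ℕ → Bool := onCell 536870912 536870912 536870912 536870912 966367641 24778659
    (rowF 0 true true true .nn 1 1 3 (qsf 536870912 536870912 536870912 536870912 3) ndB0q1 ndB4q1 pcB3 cut_A04pp_113_s1 Ext.none)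

def k0_A04pp_113_s1 : ∃ t, chk3 f_A04pp_113_s1 t 1 1 1 = true :=
  ⟨(l 4), by decide +kernel⟩

theorem c_A04pp_113_s1 : CertF 536870912 536870912 536870912 536870912 966367641 24778659 true true true .nn 1 1 3
    ndB0q1 ndB4q1 pcB3 cut_A04pp_113_s1 Ext.none :=
  certF0 (fam := true) (s1 := true) (s2 := true) (a := 1) (b := 1) (c := 3) (cn := .nn) (n1 := ndB0q1) (n2 := ndB4q1) (pc := pcB3) (cut := cut_A04pp_113_s1) (xt := Ext.none) (P1 := 536870912) (W1 := 536870912) (P2 := 536870912) (W2 := 536870912) (P3 := 966367641) (W3 := 24778659)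
    rfl k0_A04pp_113_s1

theorem s_A04pp_113_s1 {κ x : ℝ} (hκ : κ * h0 = ken x) (hx : ((966367641 : ℕ) : ℝ) / S ≤ x)
    (hx' : x ≤ (((966367641 : ℕ) : ℝ) + (24778659 : ℕ)) / S) :
    AltA (VFD κ) PP tK tL pcB [⟨3, 0, 0, 1449551462⟩] 1 1 3 0 4 (sgb true) (sgb true) x :=
  strip_altAD (m := 1449551462) true rfl hκ (SH.κ0 hκ (SH.hx1 hx).le (SH.hx2 hx').le) (SH.hx1 hx).le (SH.hx2 hx') (covB01).cov (covB41).cov hx hx' c_A04pp_113_s1 cutA_nil (noExt_A)

noncomputable def cut_A04pp_123_s1 : Cut := Cut.of [[⟨4, 0, 0, 1449551462⟩]]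

noncomputable def f_A04pp_123_s1 : ℕ → ℕ → ℕ → ℕ → Bool := onCell 536870912 536870912 1073741824 536870912 966367641 24778659
    (rowF 0 true true true .npn 1 2 3 (qsf 536870912 536870912 1073741824 536870912 3) ndB0q1 ndB4q2 pcB3 cut_A04pp_123_s1 Ext.none)

def k0_A04pp_123_s1 : ∃ t, chk3 f_A04pp_123_s1 t 1 1 1 = true :=
  ⟨(l 4), by decide +kernel⟩

theorem c_A04pp_123_s1 : CertF 536870912 536870912 1073741824 536870912 966367641 24778659 true true true .npn 1 2 3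
    ndB0q1 ndB4q2 pcB3 cut_A04pp_123_s1 Ext.none :=
  certF0 (fam := true) (s1 := true) (s2 := true) (a := 1) (b := 2) (c := 3) (cn := .npn) (n1 := ndB0q1) (n2 := ndB4q2) (pc := pcB3) (cut := cut_A04pp_123_s1) (xt := Ext.none) (P1 := 536870912) (W1 := 536870912) (P2 := 1073741824) (W2 := 536870912) (P3 := 966367641) (W3 := 24778659)
    rfl k0_A04pp_123_s1

theorem s_A04pp_123_s1 {κ x : ℝ} (hκ : κ * h0 = ken x) (hx : ((966367641 : ℕ) : ℝ) / S ≤ x)
    (hx' : x ≤ (((966367641 : ℕ) : ℝ) + (24778659 : ℕ)) / S) :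
    AltA (VFD κ) PP tK tL pcB [⟨3, 0, 0, 1449551462⟩] 1 2 3 0 4 (sgb true) (sgb true) x :=
  strip_altAD (m := 1449551462) true rfl hκ (SH.κ0 hκ (SH.hx1 hx).le (SH.hx2 hx').le) (SH.hx1 hx).le (SH.hx2 hx') (covB01).cov (covB42).cov hx hx' c_A04pp_123_s1 cutA_nil (noExt_A)

noncomputable def cut_A04pp_133_s1 : Cut := Cut.of [[⟨4, 0, 0, 1449551462⟩]]

noncomputable def f_A04pp_133_s1 : ℕ → ℕ → ℕ → ℕ → Bool := onCell 536870912 536870912 0 1230186008 966367641 24778659
    (rowF 0 true true true .dn 1 3 3 (qsf 536870912 536870912 0 1230186008 3) ndB0q1 ndB4q3 pcB3 cut_A04pp_133_s1 Ext.none)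

def k0_A04pp_133_s1 : ∃ t, chk3 f_A04pp_133_s1 t 1 1 1 = true :=
  ⟨(l 4), by decide +kernel⟩

theorem c_A04pp_133_s1 : CertF 536870912 536870912 0 1230186008 966367641 24778659 true true true .dn 1 3 3
    ndB0q1 ndB4q3 pcB3 cut_A04pp_133_s1 Ext.none :=
  certF0 (fam := true) (s1 := true) (s2 := true) (a := 1) (b := 3) (c := 3) (cn := .dn) (n1 := ndB0q1) (n2 := ndB4q3) (pc := pcB3) (cut := cut_A04pp_133_s1) (xt := Ext.none) (P1 := 536870912) (W1 := 536870912) (P2 := 0) (W2 := 1230186008) (P3 := 966367641) (W3 := 24778659)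
    rfl k0_A04pp_133_s1

theorem s_A04pp_133_s1 {κ x : ℝ} (hκ : κ * h0 = ken x) (hx : ((966367641 : ℕ) : ℝ) / S ≤ x)
    (hx' : x ≤ (((966367641 : ℕ) : ℝ) + (24778659 : ℕ)) / S) :
    AltA (VFD κ) PP tK tL pcB [⟨3, 0, 0, 1449551462⟩] 1 3 3 0 4 (sgb true) (sgb true) x :=
  strip_altAD (m := 1449551462) true rfl hκ (SH.κ0 hκ (SH.hx1 hx).le (SH.hx2 hx').le) (SH.hx1 hx).le (SH.hx2 hx') (covB01).cov (covB43).cov hx hx' c_A04pp_133_s1 cutA_nil (noExt_A)

noncomputable def cut_A04pp_202_s1 : Cut := Cut.of [[⟨4, 0, 0, 1449551462⟩]]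

noncomputable def f_A04pp_202_s1 : ℕ → ℕ → ℕ → ℕ → Bool := onCell 0 536870912 0 536870912 966367641 24778659
    (rowF 0 true true true .pp 2 0 2 (qsf 0 536870912 0 536870912 2) ndB0q2 ndB4q0 pcB2 cut_A04pp_202_s1 Ext.none)

def k0_A04pp_202_s1 : ∃ t, chk3 f_A04pp_202_s1 t 1 1 1 = true :=
  ⟨(l 4), by decide +kernel⟩

theorem c_A04pp_202_s1 : CertF 0 536870912 0 536870912 966367641 24778659 true true true .pp 2 0 2
    ndB0q2 ndB4q0 pcB2 cut_A04pp_202_s1 Ext.none :=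
  certF0 (fam := true) (s1 := true) (s2 := true) (a := 2) (b := 0) (c := 2) (cn := .pp) (n1 := ndB0q2) (n2 := ndB4q0) (pc := pcB2) (cut := cut_A04pp_202_s1) (xt := Ext.none) (P1 := 0) (W1 := 536870912) (P2 := 0) (W2 := 536870912) (P3 := 966367641) (W3 := 24778659)
    rfl k0_A04pp_202_s1

theorem s_A04pp_202_s1 {κ x : ℝ} (hκ : κ * h0 = ken x) (hx : ((966367641 : ℕ) : ℝ) / S ≤ x)
    (hx' : x ≤ (((966367641 : ℕ) : ℝ) + (24778659 : ℕ)) / S) :
    AltA (VFD κ) PP tK tL pcB [⟨3, 0, 0, 1449551462⟩] 2 0 2 0 4 (sgb true) (sgb true) x :=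
  strip_altAD (m := 1449551462) true rfl hκ (SH.κ0 hκ (SH.hx1 hx).le (SH.hx2 hx').le) (SH.hx1 hx).le (SH.hx2 hx') (covB02).cov (covB40).cov hx hx' c_A04pp_202_s1 cutA_nil (noExt_A)

noncomputable def cut_A04pp_203_s1 : Cut := Cut.of [[⟨4, 0, 0, 1449551462⟩]]

noncomputable def f_A04pp_203_s1 : ℕ → ℕ → ℕ → ℕ → Bool := onCell 0 536870912 0 536870912 966367641 24778659
    (rowF 0 true true true .up 2 0 3 (qsf 0 536870912 0 536870912 3) ndB0q2 ndB4q0 pcB3 cut_A04pp_203_s1 Ext.none)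

def k0_A04pp_203_s1 : ∃ t, chk3 f_A04pp_203_s1 t 1 1 1 = true :=
  ⟨(l 4), by decide +kernel⟩

theorem c_A04pp_203_s1 : CertF 0 536870912 0 536870912 966367641 24778659 true true true .up 2 0 3
    ndB0q2 ndB4q0 pcB3 cut_A04pp_203_s1 Ext.none :=
  certF0 (fam := true) (s1 := true) (s2 := true) (a := 2) (b := 0) (c := 3) (cn := .up) (n1 := ndB0q2) (n2 := ndB4q0) (pc := pcB3) (cut := cut_A04pp_203_s1) (xt := Ext.none) (P1 := 0) (W1 := 536870912) (P2 := 0) (W2 := 536870912) (P3 := 966367641) (W3 := 24778659)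
    rfl k0_A04pp_203_s1

theorem s_A04pp_203_s1 {κ x : ℝ} (hκ : κ * h0 = ken x) (hx : ((966367641 : ℕ) : ℝ) / S ≤ x)
    (hx' : x ≤ (((966367641 : ℕ) : ℝ) + (24778659 : ℕ)) / S) :
    AltA (VFD κ) PP tK tL pcB [⟨3, 0, 0, 1449551462⟩] 2 0 3 0 4 (sgb true) (sgb true) x :=
  strip_altAD (m := 1449551462) true rfl hκ (SH.κ0 hκ (SH.hx1 hx).le (SH.hx2 hx').le) (SH.hx1 hx).le (SH.hx2 hx') (covB02).cov (covB40).cov hx hx' c_A04pp_203_s1 cutA_nil (noExt_A)

noncomputable def cut_A04pp_213_s1 : Cut := Cut.of [[⟨4, 0, 0, 1449551462⟩]]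

noncomputable def f_A04pp_213_s1 : ℕ → ℕ → ℕ → ℕ → Bool := onCell 0 536870912 536870912 536870912 966367641 24778659
    (rowF 0 true true true .pnn 2 1 3 (qsf 0 536870912 536870912 536870912 3) ndB0q2 ndB4q1 pcB3 cut_A04pp_213_s1 Ext.none)

def k0_A04pp_213_s1 : ∃ t, chk3 f_A04pp_213_s1 t 1 1 1 = true :=
  ⟨(l 4), by decide +kernel⟩

theorem c_A04pp_213_s1 : CertF 0 536870912 536870912 536870912 966367641 24778659 true true true .pnn 2 1 3
    ndB0q2 ndB4q1 pcB3 cut_A04pp_213_s1 Ext.none :=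
  certF0 (fam := true) (s1 := true) (s2 := true) (a := 2) (b := 1) (c := 3) (cn := .pnn) (n1 := ndB0q2) (n2 := ndB4q1) (pc := pcB3) (cut := cut_A04pp_213_s1) (xt := Ext.none) (P1 := 0) (W1 := 536870912) (P2 := 536870912) (W2 := 536870912) (P3 := 966367641) (W3 := 24778659)
    rfl k0_A04pp_213_s1

theorem s_A04pp_213_s1 {κ x : ℝ} (hκ : κ * h0 = ken x) (hx : ((966367641 : ℕ) : ℝ) / S ≤ x)
    (hx' : x ≤ (((966367641 : ℕ) : ℝ) + (24778659 : ℕ)) / S) :
    AltA (VFD κ) PP tK tL pcB [⟨3, 0, 0, 1449551462⟩] 2 1 3 0 4 (sgb true) (sgb true) x :=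
  strip_altAD (m := 1449551462) true rfl hκ (SH.κ0 hκ (SH.hx1 hx).le (SH.hx2 hx').le) (SH.hx1 hx).le (SH.hx2 hx') (covB02).cov (covB41).cov hx hx' c_A04pp_213_s1 cutA_nil (noExt_A)

noncomputable def cut_A04pm_001_s1 : Cut := Cut.of [[⟨4, 0, 0, 1449551462⟩]]

noncomputable def xt_A04pm_001_s1 : Ext := strExt dd true true false .u0 .s0m .u0m .up 0 0 1 rfl rfl gf1 vv ndB0q0 ndB4q0

noncomputable def f_A04pm_001_s1 : ℕ → ℕ → ℕ → ℕ → Bool := onCell 536870912 536870912 0 536870912 966367641 24778659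
    (rowF 2 true true false .up 0 0 1 (qsf 0 536870912 0 536870912 1) ndB0q0 ndB4q0 pcB1 cut_A04pm_001_s1 xt_A04pm_001_s1)

def k0_A04pm_001_s1 : ∃ t, chk3 f_A04pm_001_s1 t 2 1 1 = true :=
  ⟨(b (a (b (a (l 3) (b (a (l 518432527) (l 2)) (a (l 3) (b (l 518339599) (c (l 517603599) (l 519534863)))))) (l 3)) (b (a (b (l 2) (a (a (l 519039759) (l 2)) (l 2))) (l 2)) (a (b (a (b (c (l 518660623) (l 519791887)) (a (l 3) (b (l 519747855) (l 3)))) (b (a (l 520037135) (l 2)) (b (a (l 520114447) (l 520453647)) (l 520300047)))) (a (l 3) (b (a (l 520114703) (l 520475151)) (a (l 3) (l 520421647))))) (b (a (b (l 2) (b (l 2) (l 520972559))) (l 2)) (a (b (a (l 520817679) (l 521152271)) (l 520944911)) (b (a (l 521473039) (l 2)) (a (l 521446671) (l 521768207)))))))) (a (l 3) (b (a (l 3) (b (a (a (b (b (l 520711695) (l 3)) (l 3)) (b (l 521031951) (c (l 521038095) (l 520799247)))) (a (b (l 521367567) (c (l 521413135) (l 521094671))) (b (l 521697039)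 (l 521590543)))) (a (l 3) (b (b (a (l 521156879) (l 521491727)) (l 521260303)) (l 521150223))))) (l 3)))), by decide +kernel⟩

def k1_A04pm_001_s1 : ∃ t, chk3 f_A04pm_001_s1 t 3 1 1 = true :=
  ⟨(b (a (b (l 2) (b (l 2) (a (a (b (l 2) (a (l 16487568) (l 2))) (l 2)) (l 2)))) (l 2)) (a (b (a (b (a (b (a (l 522022927) (l 16489728)) (a (l 521917711) (l 16616280))) (b (l 16394680) (a (l 16490600) (l 16428944)))) (a (b (b (l 521985807) (l 521918223)) (a (l 521651727) (l 521979919))) (b (a (l 16551784) (l 16490456)) (a (l 522294799) (l 16549480))))) (b (a (b (l 2) (l 16339984)) (l 2)) (a (b (l 16485856) (a (l 16490280) (l 16433288))) (b (l 16291568) (l 16350968))))) (a (b (a (b (l 521659919) (a (l 3) (l 521669135))) (b (a (l 522141199) (l 522462479)) (a (l 521983247) (l 522307855)))) (a (l 3) (b (a (l 521829903) (l 522192655)) (a (b (l 521756431) (l 3)) (b (l 522080783) (l 522137103)))))) (b (a (b (a (l 16547408) (l 16490480)) (a (l 522707215)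 (l 16545968))) (b (l 16408112) (a (l 16490848) (l 16437224)))) (a (b (l 522819343) (a (l 522490639) (l 523003407))) (b (l 523649807) (l 523615503)))))) (b (a (b (l 2) (a (b (l 2) (l 16246856)) (l 2))) (l 2)) (a (b (a (b (l 16303408) (l 16358232)) (b (l 16202552) (l 16255576))) (a (b (l 16411736) (a (l 16491080) (l 16438136))) (b (l 16307472) (l 16358448)))) (b (a (l 16219840) (l 2)) (a (b (l 16208232) (l 16256368)) (b (l 16121056) (l 16165592)))))))), by decide +kernel⟩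

theorem t2_A04pm_001_s1 : ∃ t, chk3 f_A04pm_001_s1 t 1 1 1 = true := ex3_a k0_A04pm_001_s1 k1_A04pm_001_s1

theorem c_A04pm_001_s1 : CertF 0 536870912 0 536870912 966367641 24778659 true true false .up 0 0 1
    ndB0q0 ndB4q0 pcB1 cut_A04pm_001_s1 xt_A04pm_001_s1 :=
  certF2 (fam := true) (s1 := true) (s2 := false) (a := 0) (b := 0) (c := 1) (cn := .up) (n1 := ndB0q0) (n2 := ndB4q0) (pc := pcB1) (cut := cut_A04pm_001_s1) (xt := xt_A04pm_001_s1) (P1 := 0) (W1 := 536870912) (P2 := 0) (W2 := 536870912) (P3 := 966367641) (W3 := 24778659)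
    rfl (fun _ => rfl) t2_A04pm_001_s1

theorem s_A04pm_001_s1 {κ x : ℝ} (hκ : κ * h0 = ken x) (hx : ((966367641 : ℕ) : ℝ) / S ≤ x)
    (hx' : x ≤ (((966367641 : ℕ) : ℝ) + (24778659 : ℕ)) / S) :
    AltA (VFD κ) PP tK tL pcB [⟨3, 0, 0, 1449551462⟩] 0 0 1 0 4 (sgb true) (sgb false) x :=
  strip_altAD (m := 1449551462) true rfl hκ (SH.κ0 hκ (SH.hx1 hx).le (SH.hx2 hx').le) (SH.hx1 hx).le (SH.hx2 hx') (covB00).cov (covB40).cov hx hx' c_A04pm_001_s1 cutA_nil ((okx hx hx').extA (T := tt) (sideB hx hx') hκ rfl rfl (.O 0 true) (.N 0 false) (Or.inr rfl))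

noncomputable def cut_A04pm_011_s1 : Cut := Cut.of [[⟨4, 0, 0, 1449551462⟩], [⟨0, 0, 0, 53687091⟩, ⟨1, 1, 0, 53687091⟩, ⟨2, 1, 0, 53687091⟩]]

noncomputable def xt_A04pm_011_s1 : Ext := strExt dd true true false .u0 .s0m .u0m .pnn 0 1 1 rfl rfl gf1 vv ndB0q0 ndB4q1

noncomputable def f_A04pm_011_s1 : ℕ → ℕ → ℕ → ℕ → Bool := onCell 0 536870912 536870912 536870912 966367641 24778659
    (rowF 1 true true false .pnn 0 1 1 (qsf 0 536870912 536870912 536870912 1) ndB0q0 ndB4q1 pcB1 cut_A04pm_011_s1 xt_A04pm_011_s1)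

def k0_A04pm_011_s1 : ∃ t, chk3 f_A04pm_011_s1 t 1 2 1 = true :=
  ⟨(a (l 3) (a (a (l 3) (l 1)) (l 1))), by decide +kernel⟩

def k1_A04pm_011_s1 : ∃ t, chk3 f_A04pm_011_s1 t 1 6 1 = true :=
  ⟨(a (b (l 3) (b (l 3) (a (l 3) (a (l 3) (a (a (l 3) (a (l 3) (l 521915407))) (b (a (l 3) (l 522943247)) (l 523132687))))))) (a (b (a (a (l 3) (b (l 3) (b (l 3) (l 522005519)))) (a (b (l 1) (b (l 1) (l 522067983))) (l 1))) (a (b (a (l 522545423) (l 522670607)) (a (a (l 523124239) (l 523201807)) (b (l 523195151) (l 523462159)))) (b (a (b (l 522432015) (l 523042831)) (l 523590671)) (a (b (l 523445263) (l 16671920)) (l 523602191))))) (b (l 1) (a (b (l 1) (a (l 523624975) (l 1))) (l 1))))), by decide +kernel⟩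

def k2_A04pm_011_s1 : ∃ t, chk3 f_A04pm_011_s1 t 2 14 1 = true :=
  ⟨(a (b (l 3) (a (l 3) (a (l 3) (a (l 3) (b (l 3) (l 523474191)))))) (a (a (b (l 3) (a (b (l 3) (l 523366671)) (l 523219727))) (b (b (l 3) (l 523138319)) (a (l 523116815) (l 523013903)))) (a (b (a (b (b (l 3) (l 523157007)) (l 523037967)) (b (c (a (l 523253775) (l 523242255)) (a (l 523133711) (l 522870031))) (a (l 522984719) (l 522961167)))) (a (l 522912783) (a (l 522843151) (l 522807823)))) (b (a (b (c (l 523254287) (l 523165711)) (b (l 523111183) (l 16722688))) (b (l 523267087) (l 523201295))) (a (b (l 522875663) (l 16638808)) (b (l 16652816) (l 16616160))))))), by decide +kernel⟩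

def k3_A04pm_011_s1 : ∃ t, chk3 f_A04pm_011_s1 t 2 30 2 = true :=
  ⟨(a (a (b (l 3) (a (l 3) (a (l 3) (a (l 3) (b (l 3) (l 523631631)))))) (a (a (b (l 3) (a (b (l 3) (a (l 523705359) (l 523742479))) (b (l 523842319) (l 523806991)))) (b (b (l 3) (l 523910927)) (b (l 523902735) (a (l 523962639) (l 524000015))))) (b (a (a (b (l 3) (l 523728911)) (b (l 523638799) (l 523662863))) (b (l 523543567) (l 523536143))) (a (a (b (l 523698703) (l 523821583)) (b (l 523490063) (l 16730816))) (a (a (l 523493647) (l 523484687)) (l 523453967)))))) (a (b (a (b (l 523322127) (a (l 523477007) (l 16708912))) (a (l 523155983) (l 16672968))) (a (a (b (l 16712592) (l 16695224)) (l 523326735)) (a (l 16660912) (l 16553912)))) (a (b (l 522721551) (l 16642792)) (b (l 16503816) (l 16466352))))), by decide +kernel⟩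

def k4_A04pm_011_s1 : ∃ t, chk3 f_A04pm_011_s1 t 2 31 2 = true :=
  ⟨(a (b (b (a (a (l 3) (a (a (l 3) (a (l 3) (l 523531279))) (a (l 523459599) (l 523475727)))) (a (a (a (l 523555087) (l 523656975)) (a (l 523819279) (l 16734376))) (a (a (l 16725376) (l 16715048)) (l 16699376)))) (a (a (b (l 3) (b (l 3) (l 14))) (a (a (a (l 523343375) (l 523278095)) (a (l 523228687) (l 523199247))) (a (a (l 523175183) (l 523171087)) (l 523168271)))) (a (a (a (l 523265295) (l 16734088)) (a (l 16725208) (l 16716696))) (a (l 16704904) (l 16684664))))) (a (a (l 14) (a (a (b (a (l 522808847) (l 522755343)) (l 14)) (a (b (l 522717455) (l 522029839)) (l 522400783))) (a (a (l 522402063) (l 522411791)) (b (l 522708495) (l 16691328))))) (a (a (a (b (l 16723984) (l 16660664)) (l 522712079)) (b (l 16701592) (l 16680112))) (a (b (l 16685880) (l 16664688)) (l 16661608))))) (a (a (b (a (b (l 16678744) (l 16663504)) (l 16649360)) (a (l 16644808) (l 16622768)))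 (b (a (l 16627448) (l 16520088)) (a (l 16599880) (l 16576400)))) (a (b (l 16566248) (l 16537880)) (b (l 16430464) (l 16484632))))), by decide +kernel⟩

def k5_A04pm_011_s1 : ∃ t, chk3 f_A04pm_011_s1 t 2 30 3 = true :=
  ⟨(a (a (b (l 3) (a (l 3) (a (l 3) (a (l 3) (b (l 3) (b (l 3) (l 523709199))))))) (a (a (b (l 3) (a (b (l 3) (a (l 523731727) (l 523779855))) (b (l 523847951) (l 523891727)))) (b (b (l 3) (l 523969039)) (b (a (l 523915535) (l 523708687)) (a (l 523949583) (l 523710991))))) (b (a (a (b (l 3) (l 523686671)) (b (l 523696911) (b (l 523643919) (l 523332111)))) (b (l 523589647) (a (l 523483407) (l 523508495)))) (a (a (b (l 523440911) (l 523419919)) (b (l 523104527) (l 16728992))) (b (a (l 523154959) (l 16726456)) (a (l 16718200) (l 16707888))))))) (a (b (a (b (l 523389199) (a (l 523445775) (l 16709000))) (a (l 523270415) (l 16674464))) (a (a (b (l 16711472) (l 16692328)) (l 523084047)) (a (l 16659608) (l 16553560)))) (a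 (b (l 523335951) (b (l 16528856) (l 16509544))) (b (l 16594600) (l 16472800))))), by decide +kernel⟩

def k6_A04pm_011_s1 : ∃ t, chk3 f_A04pm_011_s1 t 2 31 3 = true :=
  ⟨(a (b (b (a (a (l 3) (a (a (l 3) (a (l 3) (l 523652111))) (a (l 523553295) (l 523502607)))) (a (a (a (l 523447567) (l 523687439)) (a (l 523942159) (l 16734352))) (a (a (l 16723768) (l 16712480)) (l 16695600)))) (a (a (b (l 3) (b (l 3) (l 14))) (a (a (a (l 523415567) (l 523365647)) (a (l 523332111) (l 523344399))) (a (a (l 523272463) (l 523248143)) (l 523192079)))) (a (a (a (l 523093263) (l 16733800)) (a (l 16725200) (l 16717392))) (a (l 16703680) (l 16680192))))) (a (a (l 14) (a (a (b (a (l 522935311) (l 522896399)) (l 14)) (a (b (l 522873871) (l 522232591)) (l 522596623))) (a (a (l 522629647) (l 522607375)) (b (l 16736416) (l 16671136))))) (a (a (a (b (l 16723936) (l 16619144)) (b (l 16672496) (l 16693288))) (b (l 16701728) (l 16680416))) (a (b (l 16688216)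 (l 16667000)) (b (l 16667040) (l 16656392)))))) (a (a (b (a (b (l 16674360) (l 16657896)) (l 16644120)) (a (l 16637392) (l 16614640))) (b (a (l 16539120) (l 16516728)) (a (l 16591912) (l 16485944)))) (a (b (l 16481920) (l 16534528)) (b (l 16435192) (l 16487224))))), by decide +kernel⟩

def k7_A04pm_011_s1 : ∃ t, chk3 f_A04pm_011_s1 t 3 7 1 = true :=
  ⟨(b (a (a (b (a (b (a (l 523393295) (l 16678224)) (c (l 16697408) (l 16698176))) (b (l 523658511) (l 16612136))) (a (a (b (l 16631008) (l 16594360)) (b (l 16609640) (l 16573024))) (b (l 16577688) (l 16542008)))) (b (a (c (l 16668152) (l 16626400)) (b (l 16553352) (l 16523648))) (a (l 16518672) (l 16476200)))) (a (b (a (l 16489352) (l 16438208)) (a (l 16431064) (l 16383112))) (b (l 1) (l 16433768)))) (a (b (a (a (b (a (l 16473408) (l 16536072)) (l 16508088)) (b (l 16505288) (l 16467368))) (a (l 16448024) (l 16409392))) (a (a (b (l 16386768) (l 16355176)) (b (l 16429856) (l 16397608)))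 (a (l 16377000) (l 16342712)))) (b (a (a (l 16368520) (l 16325416)) (l 16340200)) (a (a (l 16306504) (l 16268584)) (l 16207496))))), by decide +kernel⟩

theorem t8_A04pm_011_s1 : ∃ t, chk3 f_A04pm_011_s1 t 2 15 3 = true := ex3_b k5_A04pm_011_s1 k6_A04pm_011_s1

theorem t9_A04pm_011_s1 : ∃ t, chk3 f_A04pm_011_s1 t 2 15 2 = true := ex3_b k3_A04pm_011_s1 k4_A04pm_011_s1

theorem t10_A04pm_011_s1 : ∃ t, chk3 f_A04pm_011_s1 t 2 15 1 = true := ex3_c t9_A04pm_011_s1 t8_A04pm_011_s1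

theorem t11_A04pm_011_s1 : ∃ t, chk3 f_A04pm_011_s1 t 2 7 1 = true := ex3_b k2_A04pm_011_s1 t10_A04pm_011_s1

theorem t12_A04pm_011_s1 : ∃ t, chk3 f_A04pm_011_s1 t 1 7 1 = true := ex3_a t11_A04pm_011_s1 k7_A04pm_011_s1

theorem t13_A04pm_011_s1 : ∃ t, chk3 f_A04pm_011_s1 t 1 3 1 = true := ex3_b k1_A04pm_011_s1 t12_A04pm_011_s1

theorem t14_A04pm_011_s1 : ∃ t, chk3 f_A04pm_011_s1 t 1 1 1 = true := ex3_b k0_A04pm_011_s1 t13_A04pm_011_s1

theorem c_A04pm_011_s1 : CertF 0 536870912 536870912 536870912 966367641 24778659 true true false .pnn 0 1 1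
    ndB0q0 ndB4q1 pcB1 cut_A04pm_011_s1 xt_A04pm_011_s1 :=
  certF1 (fam := true) (s1 := true) (s2 := false) (a := 0) (b := 1) (c := 1) (cn := .pnn) (n1 := ndB0q0) (n2 := ndB4q1) (pc := pcB1) (cut := cut_A04pm_011_s1) (xt := xt_A04pm_011_s1) (P1 := 0) (W1 := 536870912) (P2 := 536870912) (W2 := 536870912) (P3 := 966367641) (W3 := 24778659)
    rfl (fun _ => rfl) t14_A04pm_011_s1

theorem s_A04pm_011_s1 {κ x : ℝ} (hκ : κ * h0 = ken x) (hx : ((966367641 : ℕ) : ℝ) / S ≤ x)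
    (hx' : x ≤ (((966367641 : ℕ) : ℝ) + (24778659 : ℕ)) / S)
    (H : CutA (VFD κ) PP tK tL pcB (Cut.of [[⟨0, 0, 0, 53687091⟩, ⟨1, 1, 0, 53687091⟩, ⟨2, 1, 0, 53687091⟩]]) 0 1 1 0 4 (sgb true) (sgb false) x) :
    AltA (VFD κ) PP tK tL pcB [⟨3, 0, 0, 1449551462⟩] 0 1 1 0 4 (sgb true) (sgb false) x :=
  strip_altAD (m := 1449551462) true rfl hκ (SH.κ0 hκ (SH.hx1 hx).le (SH.hx2 hx').le) (SH.hx1 hx).le (SH.hx2 hx') (covB00).cov (covB41).cov hx hx' c_A04pm_011_s1 H ((okx hx hx').extA (T := tt) (sideB hx hx') hκ rfl rfl (.O 0 true) (.N 1 false) (Or.inr rfl))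

noncomputable def cut_A04pm_012_s1 : Cut := Cut.of [[⟨4, 0, 0, 1449551462⟩], [⟨0, 0, 0, 67108864⟩, ⟨1, 1, 0, 67108864⟩, ⟨2, 1, 0, 67108864⟩]]

noncomputable def f_A04pm_012_s1 : ℕ → ℕ → ℕ → ℕ → Bool := onCell 1073741824 536870912 536870912 536870912 966367641 24778659
    (rowF 2 true true false .pnp 0 1 2 (qsf 0 536870912 536870912 536870912 2) ndB0q0 ndB4q1 pcB2 cut_A04pm_012_s1 Ext.none)

def k0_A04pm_012_s1 : ∃ t, chk3 f_A04pm_012_s1 t 4 2 1 = true :=
  ⟨(b (a (b (a (l 16241936) (l 6)) (a (a (l 16260800) (l 16232776)) (l 16160880))) (l 6)) (a (b (a (b (l 16317912) (a (l 16353800) (l 16345496))) (b (l 16223640) (l 16262552))) (b (a (a (l 16392280) (l 16385776)) (l 16297920)) (a (a (l 16435920) (l 16418520)) (l 16325240)))) (b (a (b (l 16124416) (l 16157664)) (l 6)) (a (b (l 16185432) (l 16207080)) (b (l 16081264) (l 16095360)))))), by decide +kernel⟩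

def k1_A04pm_012_s1 : ∃ t, chk3 f_A04pm_012_s1 t 4 6 1 = true :=
  ⟨(a (b (a (a (b (l 16485784) (a (l 16536944) (l 16511592))) (b (l 16441960) (l 16457328))) (b (l 16344648) (l 16354104))) (a (a (b (b (l 16544144) (l 16554880)) (b (l 16565704) (l 16575608))) (b (l 16468720) (l 16394536))) (a (b (l 16308296) (l 16391928)) (b (l 16235712) (l 16311384))))) (b (a (b (l 16219640) (l 16139456)) (b (l 16102312) (l 16099208))) (a (b (a (l 16250464) (l 16183280)) (a (l 16235232) (l 16079168))) (b (a (l 16118360) (l 16055480)) (a (l 16094512) (l 16027960)))))), by decide +kernel⟩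

def k2_A04pm_012_s1 : ∃ t, chk3 f_A04pm_012_s1 t 8 7 1 = true :=
  ⟨(b (a (b (a (b (a (l 16611152) (l 16558872)) (a (l 16621680) (l 16565944))) (b (l 16483744) (l 16486960))) (a (a (a (b (l 16565624) (l 16625008)) (b (l 16619144) (l 16634512))) (b (l 16575040) (l 16503208))) (b (a (l 16518168) (l 16463232)) (a (l 16526112) (l 16467928))))) (b (a (b (l 16389232) (l 16387000)) (b (l 16300784) (l 16293464))) (b (a (l 16385336) (l 16286648)) (a (a (l 16411984) (l 16357904)) (l 16281176))))) (a (b (a (a (b (a (b (l 16597704) (l 14)) (b (l 16648000) (l 16657512))) (l 14)) (b (a (l 16619312) (l 16586448)) (a (l 14) (b (l 16599144) (l 14))))) (b (a (a (l 16554160) (l 16522376)) (l 16475888)) (a (b (l 16549312) (l 16578392)) (b (l 16484664) (l 16491512))))) (a (l 14) (b (a (l 14) (b (l 16519960) (l 14))) (l 14)))) (b (a (b (a (l 16416048) (l 16358896)) (a (b (l 16422136) (l 16427560)) (l 16363672))) (b (a (l 16303904) (l 16250704)) (a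 (l 16304952) (l 16206896)))) (a (b (a (b (l 16433832) (l 16461816)) (b (l 16370568) (l 16376424))) (a (l 14) (b (l 16398856) (l 14)))) (b (a (b (l 16309304) (l 16313824)) (b (l 16250264) (l 16253184))) (a (b (l 16319424) (b (l 16324256) (l 14))) (b (l 16257488) (b (l 16261504) (l 16264520))))))))), by decide +kernel⟩

def k3_A04pm_012_s1 : ∃ t, chk3 f_A04pm_012_s1 t 9 7 1 = true :=
  ⟨(b (a (b (a (l 16128112) (l 16048792)) (a (b (l 16194216) (l 16183848)) (b (l 16107624) (l 16092624)))) (b (a (l 16057664) (l 15986544)) (a (b (l 16026528) (l 16007128)) (b (l 15950752) (l 15927040))))) (a (b (a (b (l 16175184) (a (l 16110928) (l 16058632))) (b (l 16079304) (l 16078736))) (a (b (a (b (l 16193568) (l 16194728)) (b (l 16139352) (l 16138568))) (a (c (b (l 16217520) (l 16222168)) (l 16157872)) (c (l 16120944) (l 16034216)))) (b (a (l 16064872) (l 16013496)) (a (a (l 16056216) (l 16028544)) (b (l 16030776) (l 16029920)))))) (b (a (b (l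 15989376) (l 15890000)) (b (l 15905080) (l 15801480))) (a (b (b (l 15964224) (l 15875088)) (a (b (l 15979480) (l 15977248)) (b (l 15930200) (l 15926456)))) (b (l 15847800) (b (l 15775000) (l 15832808))))))), by decide +kernel⟩

def k4_A04pm_012_s1 : ∃ t, chk3 f_A04pm_012_s1 t 5 1 1 = true :=
  ⟨(b (b (l 6) (l 6)) (b (a (b (a (b (l 6) (l 15983392)) (l 6)) (a (b (l 15964336) (a (l 15963624) (a (l 15916800) (l 15886416)))) (b (l 6) (l 15728400)))) (l 6)) (b (a (a (b (a (l 15918888) (a (l 15869336) (b (l 15765720) (l 15738600)))) (a (b (l 15879136) (l 15852216)) (a (l 15729360) (a (l 15788072) (l 15687384))))) (b (a (l 15789608) (l 6)) (b (l 15712640) (l 15681016)))) (l 6)) (a (a (b (a (b (l 15826144) (l 15718536)) (a (l 15715256) (a (l 15645624) (b (l 15726216) (l 15697480))))) (a (b (l 15739888) (c (l 15794976) (l 15734912))) (a (b (l 15720272) (l 15700904)) (a (b (l 15690816) (l 15670120)) (b (l 15588008) (c (l 15681992) (l 15618064)))))))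 (b (b (a (l 15682680) (l 15614976)) (c (l 15564480) (l 15584416))) (b (a (l 15540320) (l 15466800)) (a (c (l 15633192) (l 15566768)) (l 15459920))))) (a (a (b (l 15448112) (b (l 15480768) (l 15386912))) (l 6)) (l 6)))))), by decide +kernel⟩

def k5_A04pm_012_s1 : ∃ t, chk3 f_A04pm_012_s1 t 3 1 1 = true :=
  ⟨(b (l 6) (l 6)), by decide +kernel⟩

theorem t6_A04pm_012_s1 : ∃ t, chk3 f_A04pm_012_s1 t 4 7 1 = true := ex3_a k2_A04pm_012_s1 k3_A04pm_012_s1

theorem t7_A04pm_012_s1 : ∃ t, chk3 f_A04pm_012_s1 t 4 3 1 = true := ex3_b k1_A04pm_012_s1 t6_A04pm_012_s1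

theorem t8_A04pm_012_s1 : ∃ t, chk3 f_A04pm_012_s1 t 4 1 1 = true := ex3_b k0_A04pm_012_s1 t7_A04pm_012_s1

theorem t9_A04pm_012_s1 : ∃ t, chk3 f_A04pm_012_s1 t 2 1 1 = true := ex3_a t8_A04pm_012_s1 k4_A04pm_012_s1

theorem t10_A04pm_012_s1 : ∃ t, chk3 f_A04pm_012_s1 t 1 1 1 = true := ex3_a t9_A04pm_012_s1 k5_A04pm_012_s1

theorem c_A04pm_012_s1 : CertF 0 536870912 536870912 536870912 966367641 24778659 true true false .pnp 0 1 2
    ndB0q0 ndB4q1 pcB2 cut_A04pm_012_s1 Ext.none :=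
  certF2 (fam := true) (s1 := true) (s2 := false) (a := 0) (b := 1) (c := 2) (cn := .pnp) (n1 := ndB0q0) (n2 := ndB4q1) (pc := pcB2) (cut := cut_A04pm_012_s1) (xt := Ext.none) (P1 := 0) (W1 := 536870912) (P2 := 536870912) (W2 := 536870912) (P3 := 966367641) (W3 := 24778659)
    rfl (fun _ => rfl) t10_A04pm_012_s1

theorem s_A04pm_012_s1 {κ x : ℝ} (hκ : κ * h0 = ken x) (hx : ((966367641 : ℕ) : ℝ) / S ≤ x)
    (hx' : x ≤ (((966367641 : ℕ) : ℝ) + (24778659 : ℕ)) / S)
    (H : CutA (VFD κ) PP tK tL pcB (Cut.of [[⟨0, 0, 0, 67108864⟩, ⟨1, 1, 0, 67108864⟩, ⟨2, 1, 0, 67108864⟩]]) 0 1 2 0 4 (sgb true) (sgb false) x) :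
    AltA (VFD κ) PP tK tL pcB [⟨3, 0, 0, 1449551462⟩] 0 1 2 0 4 (sgb true) (sgb false) x :=
  strip_altAD (m := 1449551462) true rfl hκ (SH.κ0 hκ (SH.hx1 hx).le (SH.hx2 hx').le) (SH.hx1 hx).le (SH.hx2 hx') (covB00).cov (covB41).cov hx hx' c_A04pm_012_s1 H (noExt_A)

noncomputable def cut_A04pm_022_s1 : Cut := Cut.of [[⟨4, 0, 0, 1449551462⟩], [⟨0, 0, 0, 67108864⟩, ⟨1, 1, 0, 67108864⟩, ⟨2, 1, 0, 67108864⟩]]

noncomputable def f_A04pm_022_s1 : ℕ → ℕ → ℕ → ℕ → Bool := onCell 0 536870912 1073741824 536870912 966367641 24778659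
    (rowF 1 true true false .pp 0 2 2 (qsf 0 536870912 1073741824 536870912 2) ndB0q0 ndB4q2 pcB2 cut_A04pm_022_s1 Ext.none)

def k0_A04pm_022_s1 : ∃ t, chk3 f_A04pm_022_s1 t 1 4 1 = true :=
  ⟨(a (b (a (a (b (a (l 14) (a (l 14) (l 1))) (a (b (l 14) (b (l 14) (a (l 16563680) (l 16451152)))) (b (a (l 14) (a (l 14) (l 1))) (a (b (l 14) (c (l 16349376) (l 16400656))) (b (a (l 14) (c (l 16286312) (l 16250616))) (a (l 16326800) (l 144450812759))))))) (a (b (l 1) (a (b (l 1) (b (l 1) (c (b (l 1) (l 16195344)) (l 16164624)))) (l 1))) (l 1))) (l 1)) (a (a (b (a (a (b (a (l 16504992) (l 16613768)) (l 16387024)) (b (b (l 16447984) (l 16445640)) (l 16443272))) (a (b (b (l 16331288) (l 16330312)) (l 16246488)) (b (b (c (l 16230208) (l 16275728)) (c (l 16314880) (l 16274752))) (b (l 16296064) (l 16298024))))) (a (b (a (l 16329032) (l 16526072)) (a (l 16353944) (l 16526560))) (b (a (l 16332968) (l 16218512)) (c (l 16221592) (l 16175152)))))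 (a (b (b (a (a (b (c (l 16224936) (l 16183104)) (l 16204528)) (b (l 95058564967) (l 16102248))) (b (l 1) (c (l 16037232) (l 15988048)))) (a (b (c (l 16198688) (l 16152528)) (l 16178624)) (b (c (l 16039544) (l 15947056)) (c (l 16001224) (l 16033288))))) (b (a (b (l 16182408) (l 16187112)) (b (l 16084712) (l 16069104))) (a (l 16195592) (l 15911160)))) (b (b (l 1) (a (b (l 1) (a (l 15972368) (l 1))) (l 1))) (b (a (b (b (l 15946952) (l 15949344)) (l 107406110407)) (c (l 159482311847) (l 15767464))) (a (c (l 15992560) (l 15934440)) (b (l 15805904) (l 15771664))))))) (a (a (b (l 1) (b (l 1) (a (c (l 15688040) (l 15710424)) (l 1)))) (l 1)) (l 1)))) (l 1)), by decide +kernel⟩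

def k1_A04pm_022_s1 : ∃ t, chk3 f_A04pm_022_s1 t 1 5 1 = true :=
  ⟨(a (a (b (a (b (b (a (l 16170968) (l 16123440)) (a (b (l 16293176) (l 16115400)) (b (l 16298680) (l 16137472)))) (a (b (l 16135488) (l 16083640)) (b (l 16227416) (l 16314112)))) (b (b (a (c (l 16011712) (l 15956536)) (a (l 15897624) (b (l 15864480) (l 15874592)))) (a (b (l 15997856) (b (l 16089248) (l 16011152))) (b (a (l 15997376) (l 15885912)) (b (a (l 16006312) (l 15895328)) (a (l 16013056) (l 15902408)))))) (a (b (l 15938096) (l 16036632)) (b (a (l 16026864) (l 15917592)) (a (l 16047640) (l 15941248)))))) (a (b (a (a (l 16138728) (l 16220184)) (l 16091136)) (a (l 15921424) (l 16249544))) (a (b (b (l 16049312) (l 16142744)) (l 16067560)) (b (b (l 15848624) (l 15953360)) (a (l 16108792) (l 16019136)))))) (b (a (b (b (a (a (c (l 15705664) (l 15726824)) (c (l 15682400) (l 15617608))) (l 1)) (a (a (b (l 15774992) (b (l 15784496) (l 15707744))) (b (l 15665872)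 (b (l 15675048) (b (l 15680240) (l 15683880))))) (b (l 1) (b (l 1) (a (c (l 15608352) (l 15540344)) (l 1)))))) (a (a (b (l 15807520) (l 15833240)) (b (l 15614016) (l 15724600))) (b (a (c (l 15623880) (l 15555328)) (l 222832293863)) (a (l 15532720) (l 15468576))))) (b (l 1) (a (a (b (l 1) (l 15344744)) (l 1)) (l 1)))) (a (a (b (b (a (l 15859704) (l 15753032)) (l 15750360)) (b (l 15862064) (l 15888584))) (b (b (c (l 15460432) (l 15555720)) (c (l 15660328) (l 15586688))) (b (l 15488968) (l 6)))) (b (a (a (b (l 15351584) (l 15466992)) (b (l 15250784) (l 6))) (b (l 1) (l 6))) (l 6))))) (a (b (l 1) (l 6)) (l 1))), by decide +kernel⟩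

def k2_A04pm_022_s1 : ∃ t, chk3 f_A04pm_022_s1 t 1 3 1 = true :=
  ⟨(b (a (a (b (b (a (a (l 15922656) (l 16163280)) (a (l 16236584) (l 15838472))) (a (a (l 15847960) (l 6)) (l 6))) (l 6)) (l 6)) (l 6)) (l 6)), by decide +kernel⟩

theorem t3_A04pm_022_s1 : ∃ t, chk3 f_A04pm_022_s1 t 1 2 1 = true := ex3_b k0_A04pm_022_s1 k1_A04pm_022_s1

theorem t4_A04pm_022_s1 : ∃ t, chk3 f_A04pm_022_s1 t 1 1 1 = true := ex3_b t3_A04pm_022_s1 k2_A04pm_022_s1

theorem c_A04pm_022_s1 : CertF 0 536870912 1073741824 536870912 966367641 24778659 true true false .pp 0 2 2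
    ndB0q0 ndB4q2 pcB2 cut_A04pm_022_s1 Ext.none :=
  certF1 (fam := true) (s1 := true) (s2 := false) (a := 0) (b := 2) (c := 2) (cn := .pp) (n1 := ndB0q0) (n2 := ndB4q2) (pc := pcB2) (cut := cut_A04pm_022_s1) (xt := Ext.none) (P1 := 0) (W1 := 536870912) (P2 := 1073741824) (W2 := 536870912) (P3 := 966367641) (W3 := 24778659)
    rfl (fun _ => rfl) t4_A04pm_022_s1

theorem s_A04pm_022_s1 {κ x : ℝ} (hκ : κ * h0 = ken x) (hx : ((966367641 : ℕ) : ℝ) / S ≤ x)
    (hx' : x ≤ (((966367641 : ℕ) : ℝ) + (24778659 : ℕ)) / S)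
    (H : CutA (VFD κ) PP tK tL pcB (Cut.of [[⟨0, 0, 0, 67108864⟩, ⟨1, 1, 0, 67108864⟩, ⟨2, 1, 0, 67108864⟩]]) 0 2 2 0 4 (sgb true) (sgb false) x) :
    AltA (VFD κ) PP tK tL pcB [⟨3, 0, 0, 1449551462⟩] 0 2 2 0 4 (sgb true) (sgb false) x :=
  strip_altAD (m := 1449551462) true rfl hκ (SH.κ0 hκ (SH.hx1 hx).le (SH.hx2 hx').le) (SH.hx1 hx).le (SH.hx2 hx') (covB00).cov (covB42).cov hx hx' c_A04pm_022_s1 H (noExt_A)

noncomputable def cut_A04pm_023_s1 : Cut := Cut.of [[⟨4, 0, 0, 1449551462⟩]]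

noncomputable def f_A04pm_023_s1 : ℕ → ℕ → ℕ → ℕ → Bool := onCell 1610612736 536870912 1073741824 536870912 966367641 24778659
    (rowF 2 true true false .up 0 2 3 (qsf 0 536870912 1073741824 536870912 3) ndB0q0 ndB4q2 pcB3 cut_A04pm_023_s1 Ext.none)

def k0_A04pm_023_s1 : ∃ t, chk3 f_A04pm_023_s1 t 1 1 1 = true :=
  ⟨(a (l 6) (l 6)), by decide +kernel⟩

theorem c_A04pm_023_s1 : CertF 0 536870912 1073741824 536870912 966367641 24778659 true true false .up 0 2 3
    ndB0q0 ndB4q2 pcB3 cut_A04pm_023_s1 Ext.none :=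
  certF2 (fam := true) (s1 := true) (s2 := false) (a := 0) (b := 2) (c := 3) (cn := .up) (n1 := ndB0q0) (n2 := ndB4q2) (pc := pcB3) (cut := cut_A04pm_023_s1) (xt := Ext.none) (P1 := 0) (W1 := 536870912) (P2 := 1073741824) (W2 := 536870912) (P3 := 966367641) (W3 := 24778659)
    rfl (fun _ => rfl) k0_A04pm_023_s1

theorem s_A04pm_023_s1 {κ x : ℝ} (hκ : κ * h0 = ken x) (hx : ((966367641 : ℕ) : ℝ) / S ≤ x)
    (hx' : x ≤ (((966367641 : ℕ) : ℝ) + (24778659 : ℕ)) / S) :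
    AltA (VFD κ) PP tK tL pcB [⟨3, 0, 0, 1449551462⟩] 0 2 3 0 4 (sgb true) (sgb false) x :=
  strip_altAD (m := 1449551462) true rfl hκ (SH.κ0 hκ (SH.hx1 hx).le (SH.hx2 hx').le) (SH.hx1 hx).le (SH.hx2 hx') (covB00).cov (covB42).cov hx hx' c_A04pm_023_s1 cutA_nil (noExt_A)

noncomputable def cut_A04pm_033_s1 : Cut := Cut.of [[⟨4, 0, 0, 1449551462⟩]]

noncomputable def f_A04pm_033_s1 : ℕ → ℕ → ℕ → ℕ → Bool := onCell 1610612736 536870912 0 1230186008 966367641 24778659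
    (rowF 2 true true false .pnn 0 3 3 (qsf 0 536870912 0 1230186008 3) ndB0q0 ndB4q3 pcB3 cut_A04pm_033_s1 Ext.none)

def k0_A04pm_033_s1 : ∃ t, chk3 f_A04pm_033_s1 t 1 1 1 = true :=
  ⟨(b (l 6) (l 6)), by decide +kernel⟩

theorem c_A04pm_033_s1 : CertF 0 536870912 0 1230186008 966367641 24778659 true true false .pnn 0 3 3
    ndB0q0 ndB4q3 pcB3 cut_A04pm_033_s1 Ext.none :=
  certF2 (fam := true) (s1 := true) (s2 := false) (a := 0) (b := 3) (c := 3) (cn := .pnn) (n1 := ndB0q0) (n2 := ndB4q3) (pc := pcB3) (cut := cut_A04pm_033_s1) (xt := Ext.none) (P1 := 0) (W1 := 536870912) (P2 := 0) (W2 := 1230186008) (P3 := 966367641) (W3 := 24778659)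
    rfl (fun _ => rfl) k0_A04pm_033_s1

theorem s_A04pm_033_s1 {κ x : ℝ} (hκ : κ * h0 = ken x) (hx : ((966367641 : ℕ) : ℝ) / S ≤ x)
    (hx' : x ≤ (((966367641 : ℕ) : ℝ) + (24778659 : ℕ)) / S) :
    AltA (VFD κ) PP tK tL pcB [⟨3, 0, 0, 1449551462⟩] 0 3 3 0 4 (sgb true) (sgb false) x :=
  strip_altAD (m := 1449551462) true rfl hκ (SH.κ0 hκ (SH.hx1 hx).le (SH.hx2 hx').le) (SH.hx1 hx).le (SH.hx2 hx') (covB00).cov (covB43).cov hx hx' c_A04pm_033_s1 cutA_nil (noExt_A)

noncomputable def cut_A04pm_101_s1 : Cut := Cut.of [[⟨4, 0, 0, 1449551462⟩]]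

noncomputable def xt_A04pm_101_s1 : Ext := strExt dd true true false .u0 .s0m .u0m .npn 1 0 1 rfl rfl gf1 vv ndB0q1 ndB4q0

noncomputable def f_A04pm_101_s1 : ℕ → ℕ → ℕ → ℕ → Bool := onCell 536870912 536870912 536870912 536870912 966367641 24778659
    (rowF 1 true true false .npn 1 0 1 (qsf 536870912 536870912 0 536870912 1) ndB0q1 ndB4q0 pcB1 cut_A04pm_101_s1 xt_A04pm_101_s1)

def k0_A04pm_101_s1 : ∃ t, chk3 f_A04pm_101_s1 t 1 1 1 = true :=
  ⟨(b (a (b (a (a (b (l 3) (b (l 518107919) (l 518337039))) (b (b (l 1) (l 518466831)) (b (l 519138319) (l 519574031)))) (a (b (l 1) (a (b (l 1) (l 520124175)) (l 1))) (l 1))) (a (b (a (b (b (l 519100943) (a (l 519652367) (l 519449871))) (a (c (l 519561999) (l 520949775)) (l 520113935))) (b (l 519795983) (a (l 519844623) (l 520169999)))) (b (a (a (a (l 520985103) (l 520970255)) (l 520904463)) (a (l 520720399) (l 520396047))) (a (a (b (l 521471759) (l 16537064)) (l 521608463)) (a (l 16402896)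 (l 16314384))))) (b (a (b (a (l 520533775) (l 520837903)) (a (l 520750863) (l 521178639))) (a (b (l 1) (l 16227472)) (l 1))) (a (b (a (l 16295008) (l 16220632)) (a (l 16213112) (l 16136136))) (b (a (l 16143936) (l 16070192)) (a (l 16061880) (l 15984472))))))) (a (b (l 1) (a (b (l 1) (a (l 309269448759) (l 1))) (l 1))) (l 1))) (a (b (a (b (a (a (b (l 16489552) (l 16428560)) (b (l 16420104) (l 16361864))) (b (a (l 16344560) (l 16260304)) (a (l 16289824) (l 16210136)))) (a (a (b (l 16372600) (l 16322880)) (b (l 16308776) (l 16261968))) (b (l 16204584) (l 16164056)))) (a (b (b (a (l 16164992) (l 16063112)) (a (l 16120376) (l 16022696))) (b (l 16033168) (l 15997720))) (b (a (l 16103344) (l 15855680)) (a (l 15869728) (l 6))))) (a (b (a (b (a (l 16276744) (l 16219000)) (l 16205720)) (a (l 16137544) (l 16065152))) (a (b (l 16162976) (l 16117128)) (b (l 16039384) (l 6)))) (b (a (b (l 15963808) (l 6)) (l 6)) (l 6)))) (b (a (a (l 6) (l 6))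 (l 6)) (l 6)))), by decide +kernel⟩

theorem c_A04pm_101_s1 : CertF 536870912 536870912 0 536870912 966367641 24778659 true true false .npn 1 0 1
    ndB0q1 ndB4q0 pcB1 cut_A04pm_101_s1 xt_A04pm_101_s1 :=
  certF1 (fam := true) (s1 := true) (s2 := false) (a := 1) (b := 0) (c := 1) (cn := .npn) (n1 := ndB0q1) (n2 := ndB4q0) (pc := pcB1) (cut := cut_A04pm_101_s1) (xt := xt_A04pm_101_s1) (P1 := 536870912) (W1 := 536870912) (P2 := 0) (W2 := 536870912) (P3 := 966367641) (W3 := 24778659)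
    rfl (fun _ => rfl) k0_A04pm_101_s1

theorem s_A04pm_101_s1 {κ x : ℝ} (hκ : κ * h0 = ken x) (hx : ((966367641 : ℕ) : ℝ) / S ≤ x)
    (hx' : x ≤ (((966367641 : ℕ) : ℝ) + (24778659 : ℕ)) / S) :
    AltA (VFD κ) PP tK tL pcB [⟨3, 0, 0, 1449551462⟩] 1 0 1 0 4 (sgb true) (sgb false) x :=
  strip_altAD (m := 1449551462) true rfl hκ (SH.κ0 hκ (SH.hx1 hx).le (SH.hx2 hx').le) (SH.hx1 hx).le (SH.hx2 hx') (covB01).cov (covB40).cov hx hx' c_A04pm_101_s1 cutA_nil ((okx hx hx').extA (T := tt) (sideB hx hx') hκ rfl rfl (.O 1 true) (.N 0 false) (Or.inr rfl))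

noncomputable def cut_A04pm_102_s1 : Cut := Cut.of [[⟨4, 0, 0, 1449551462⟩]]

noncomputable def f_A04pm_102_s1 : ℕ → ℕ → ℕ → ℕ → Bool := onCell 536870912 536870912 1073741824 536870912 966367641 24778659
    (rowF 1 true true false .npp 1 0 2 (qsf 536870912 536870912 0 536870912 2) ndB0q1 ndB4q0 pcB2 cut_A04pm_102_s1 Ext.none)

def k0_A04pm_102_s1 : ∃ t, chk3 f_A04pm_102_s1 t 1 1 1 = true :=
  ⟨(a (b (a (b (b (a (b (l 16075200) (l 6)) (l 6)) (l 6)) (l 6)) (l 6)) (l 6)) (l 6)), by decide +kernel⟩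

theorem c_A04pm_102_s1 : CertF 536870912 536870912 0 536870912 966367641 24778659 true true false .npp 1 0 2
    ndB0q1 ndB4q0 pcB2 cut_A04pm_102_s1 Ext.none :=
  certF1 (fam := true) (s1 := true) (s2 := false) (a := 1) (b := 0) (c := 2) (cn := .npp) (n1 := ndB0q1) (n2 := ndB4q0) (pc := pcB2) (cut := cut_A04pm_102_s1) (xt := Ext.none) (P1 := 536870912) (W1 := 536870912) (P2 := 0) (W2 := 536870912) (P3 := 966367641) (W3 := 24778659)
    rfl (fun _ => rfl) k0_A04pm_102_s1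

theorem s_A04pm_102_s1 {κ x : ℝ} (hκ : κ * h0 = ken x) (hx : ((966367641 : ℕ) : ℝ) / S ≤ x)
    (hx' : x ≤ (((966367641 : ℕ) : ℝ) + (24778659 : ℕ)) / S) :
    AltA (VFD κ) PP tK tL pcB [⟨3, 0, 0, 1449551462⟩] 1 0 2 0 4 (sgb true) (sgb false) x :=
  strip_altAD (m := 1449551462) true rfl hκ (SH.κ0 hκ (SH.hx1 hx).le (SH.hx2 hx').le) (SH.hx1 hx).le (SH.hx2 hx') (covB01).cov (covB40).cov hx hx' c_A04pm_102_s1 cutA_nil (noExt_A)

noncomputable def cut_A04pm_112_s1 : Cut := Cut.of [[⟨4, 0, 0, 1449551462⟩]]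

noncomputable def f_A04pm_112_s1 : ℕ → ℕ → ℕ → ℕ → Bool := onCell 536870912 536870912 536870912 536870912 966367641 24778659
    (rowF 0 true true false .dn 1 1 2 (qsf 536870912 536870912 536870912 536870912 2) ndB0q1 ndB4q1 pcB2 cut_A04pm_112_s1 Ext.none)

def k0_A04pm_112_s1 : ∃ t, chk3 f_A04pm_112_s1 t 1 1 1 = true :=
  ⟨(a (b (b (a (a (b (a (l 16068256) (l 6)) (l 6)) (l 6)) (l 6)) (l 6)) (l 6)) (l 6)), by decide +kernel⟩

theorem c_A04pm_112_s1 : CertF 536870912 536870912 536870912 536870912 966367641 24778659 true true false .dn 1 1 2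
    ndB0q1 ndB4q1 pcB2 cut_A04pm_112_s1 Ext.none :=
  certF0 (fam := true) (s1 := true) (s2 := false) (a := 1) (b := 1) (c := 2) (cn := .dn) (n1 := ndB0q1) (n2 := ndB4q1) (pc := pcB2) (cut := cut_A04pm_112_s1) (xt := Ext.none) (P1 := 536870912) (W1 := 536870912) (P2 := 536870912) (W2 := 536870912) (P3 := 966367641) (W3 := 24778659)
    rfl k0_A04pm_112_s1

theorem s_A04pm_112_s1 {κ x : ℝ} (hκ : κ * h0 = ken x) (hx : ((966367641 : ℕ) : ℝ) / S ≤ x)
    (hx' : x ≤ (((966367641 : ℕ) : ℝ) + (24778659 : ℕ)) / S) :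
    AltA (VFD κ) PP tK tL pcB [⟨3, 0, 0, 1449551462⟩] 1 1 2 0 4 (sgb true) (sgb false) x :=
  strip_altAD (m := 1449551462) true rfl hκ (SH.κ0 hκ (SH.hx1 hx).le (SH.hx2 hx').le) (SH.hx1 hx).le (SH.hx2 hx') (covB01).cov (covB41).cov hx hx' c_A04pm_112_s1 cutA_nil (noExt_A)

noncomputable def cut_A04pm_113_s1 : Cut := Cut.of [[⟨4, 0, 0, 1449551462⟩]]

noncomputable def f_A04pm_113_s1 : ℕ → ℕ → ℕ → ℕ → Bool := onCell 536870912 536870912 1610612736 536870912 966367641 24778659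
    (rowF 1 true true false .nn 1 1 3 (qsf 536870912 536870912 536870912 536870912 3) ndB0q1 ndB4q1 pcB3 cut_A04pm_113_s1 Ext.none)

def k0_A04pm_113_s1 : ∃ t, chk3 f_A04pm_113_s1 t 1 1 1 = true :=
  ⟨(l 6), by decide +kernel⟩

theorem c_A04pm_113_s1 : CertF 536870912 536870912 536870912 536870912 966367641 24778659 true true false .nn 1 1 3
    ndB0q1 ndB4q1 pcB3 cut_A04pm_113_s1 Ext.none :=
  certF1 (fam := true) (s1 := true) (s2 := false) (a := 1) (b := 1) (c := 3) (cn := .nn) (n1 := ndB0q1) (n2 := ndB4q1) (pc := pcB3) (cut := cut_A04pm_113_s1) (xt := Ext.none) (P1 := 536870912) (W1 := 536870912) (P2 := 536870912) (W2 := 536870912) (P3 := 966367641) (W3 := 24778659)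
    rfl (fun _ => rfl) k0_A04pm_113_s1

theorem s_A04pm_113_s1 {κ x : ℝ} (hκ : κ * h0 = ken x) (hx : ((966367641 : ℕ) : ℝ) / S ≤ x)
    (hx' : x ≤ (((966367641 : ℕ) : ℝ) + (24778659 : ℕ)) / S) :
    AltA (VFD κ) PP tK tL pcB [⟨3, 0, 0, 1449551462⟩] 1 1 3 0 4 (sgb true) (sgb false) x :=
  strip_altAD (m := 1449551462) true rfl hκ (SH.κ0 hκ (SH.hx1 hx).le (SH.hx2 hx').le) (SH.hx1 hx).le (SH.hx2 hx') (covB01).cov (covB41).cov hx hx' c_A04pm_113_s1 cutA_nil (noExt_A)

noncomputable def cut_A04pm_123_s1 : Cut := Cut.of [[⟨4, 0, 0, 1449551462⟩]]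

noncomputable def f_A04pm_123_s1 : ℕ → ℕ → ℕ → ℕ → Bool := onCell 536870912 536870912 1073741824 536870912 966367641 24778659
    (rowF 0 true true false .npn 1 2 3 (qsf 536870912 536870912 1073741824 536870912 3) ndB0q1 ndB4q2 pcB3 cut_A04pm_123_s1 Ext.none)

def k0_A04pm_123_s1 : ∃ t, chk3 f_A04pm_123_s1 t 1 1 1 = true :=
  ⟨(l 6), by decide +kernel⟩

theorem c_A04pm_123_s1 : CertF 536870912 536870912 1073741824 536870912 966367641 24778659 true true false .npn 1 2 3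
    ndB0q1 ndB4q2 pcB3 cut_A04pm_123_s1 Ext.none :=
  certF0 (fam := true) (s1 := true) (s2 := false) (a := 1) (b := 2) (c := 3) (cn := .npn) (n1 := ndB0q1) (n2 := ndB4q2) (pc := pcB3) (cut := cut_A04pm_123_s1) (xt := Ext.none) (P1 := 536870912) (W1 := 536870912) (P2 := 1073741824) (W2 := 536870912) (P3 := 966367641) (W3 := 24778659)
    rfl k0_A04pm_123_s1

theorem s_A04pm_123_s1 {κ x : ℝ} (hκ : κ * h0 = ken x) (hx : ((966367641 : ℕ) : ℝ) / S ≤ x)
    (hx' : x ≤ (((966367641 : ℕ) : ℝ) + (24778659 : ℕ)) / S) :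
    AltA (VFD κ) PP tK tL pcB [⟨3, 0, 0, 1449551462⟩] 1 2 3 0 4 (sgb true) (sgb false) x :=
  strip_altAD (m := 1449551462) true rfl hκ (SH.κ0 hκ (SH.hx1 hx).le (SH.hx2 hx').le) (SH.hx1 hx).le (SH.hx2 hx') (covB01).cov (covB42).cov hx hx' c_A04pm_123_s1 cutA_nil (noExt_A)

noncomputable def cut_A04pm_133_s1 : Cut := Cut.of [[⟨4, 0, 0, 1449551462⟩]]

noncomputable def f_A04pm_133_s1 : ℕ → ℕ → ℕ → ℕ → Bool := onCell 536870912 536870912 0 1230186008 966367641 24778659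
    (rowF 0 true true false .dn 1 3 3 (qsf 536870912 536870912 0 1230186008 3) ndB0q1 ndB4q3 pcB3 cut_A04pm_133_s1 Ext.none)

def k0_A04pm_133_s1 : ∃ t, chk3 f_A04pm_133_s1 t 1 1 1 = true :=
  ⟨(l 6), by decide +kernel⟩

theorem c_A04pm_133_s1 : CertF 536870912 536870912 0 1230186008 966367641 24778659 true true false .dn 1 3 3
    ndB0q1 ndB4q3 pcB3 cut_A04pm_133_s1 Ext.none :=
  certF0 (fam := true) (s1 := true) (s2 := false) (a := 1) (b := 3) (c := 3) (cn := .dn) (n1 := ndB0q1) (n2 := ndB4q3) (pc := pcB3) (cut := cut_A04pm_133_s1) (xt := Ext.none) (P1 := 536870912) (W1 := 536870912) (P2 := 0) (W2 := 1230186008) (P3 := 966367641) (W3 := 24778659)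
    rfl k0_A04pm_133_s1

theorem s_A04pm_133_s1 {κ x : ℝ} (hκ : κ * h0 = ken x) (hx : ((966367641 : ℕ) : ℝ) / S ≤ x)
    (hx' : x ≤ (((966367641 : ℕ) : ℝ) + (24778659 : ℕ)) / S) :
    AltA (VFD κ) PP tK tL pcB [⟨3, 0, 0, 1449551462⟩] 1 3 3 0 4 (sgb true) (sgb false) x :=
  strip_altAD (m := 1449551462) true rfl hκ (SH.κ0 hκ (SH.hx1 hx).le (SH.hx2 hx').le) (SH.hx1 hx).le (SH.hx2 hx') (covB01).cov (covB43).cov hx hx' c_A04pm_133_s1 cutA_nil (noExt_A)

noncomputable def cut_A04pm_202_s1 : Cut := Cut.of [[⟨4, 0, 0, 1449551462⟩]]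

noncomputable def f_A04pm_202_s1 : ℕ → ℕ → ℕ → ℕ → Bool := onCell 0 536870912 0 536870912 966367641 24778659
    (rowF 0 true true false .pp 2 0 2 (qsf 0 536870912 0 536870912 2) ndB0q2 ndB4q0 pcB2 cut_A04pm_202_s1 Ext.none)

def k0_A04pm_202_s1 : ∃ t, chk3 f_A04pm_202_s1 t 1 1 1 = true :=
  ⟨(l 6), by decide +kernel⟩

theorem c_A04pm_202_s1 : CertF 0 536870912 0 536870912 966367641 24778659 true true false .pp 2 0 2
    ndB0q2 ndB4q0 pcB2 cut_A04pm_202_s1 Ext.none :=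
  certF0 (fam := true) (s1 := true) (s2 := false) (a := 2) (b := 0) (c := 2) (cn := .pp) (n1 := ndB0q2) (n2 := ndB4q0) (pc := pcB2) (cut := cut_A04pm_202_s1) (xt := Ext.none) (P1 := 0) (W1 := 536870912) (P2 := 0) (W2 := 536870912) (P3 := 966367641) (W3 := 24778659)
    rfl k0_A04pm_202_s1

theorem s_A04pm_202_s1 {κ x : ℝ} (hκ : κ * h0 = ken x) (hx : ((966367641 : ℕ) : ℝ) / S ≤ x)
    (hx' : x ≤ (((966367641 : ℕ) : ℝ) + (24778659 : ℕ)) / S) :
    AltA (VFD κ) PP tK tL pcB [⟨3, 0, 0, 1449551462⟩] 2 0 2 0 4 (sgb true) (sgb false) x :=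
  strip_altAD (m := 1449551462) true rfl hκ (SH.κ0 hκ (SH.hx1 hx).le (SH.hx2 hx').le) (SH.hx1 hx).le (SH.hx2 hx') (covB02).cov (covB40).cov hx hx' c_A04pm_202_s1 cutA_nil (noExt_A)

noncomputable def cut_A04pm_203_s1 : Cut := Cut.of [[⟨4, 0, 0, 1449551462⟩]]

noncomputable def f_A04pm_203_s1 : ℕ → ℕ → ℕ → ℕ → Bool := onCell 0 536870912 0 536870912 966367641 24778659
    (rowF 0 true true false .up 2 0 3 (qsf 0 536870912 0 536870912 3) ndB0q2 ndB4q0 pcB3 cut_A04pm_203_s1 Ext.none)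

def k0_A04pm_203_s1 : ∃ t, chk3 f_A04pm_203_s1 t 1 1 1 = true :=
  ⟨(l 6), by decide +kernel⟩

theorem c_A04pm_203_s1 : CertF 0 536870912 0 536870912 966367641 24778659 true true false .up 2 0 3
    ndB0q2 ndB4q0 pcB3 cut_A04pm_203_s1 Ext.none :=
  certF0 (fam := true) (s1 := true) (s2 := false) (a := 2) (b := 0) (c := 3) (cn := .up) (n1 := ndB0q2) (n2 := ndB4q0) (pc := pcB3) (cut := cut_A04pm_203_s1) (xt := Ext.none) (P1 := 0) (W1 := 536870912) (P2 := 0) (W2 := 536870912) (P3 := 966367641) (W3 := 24778659)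
    rfl k0_A04pm_203_s1

theorem s_A04pm_203_s1 {κ x : ℝ} (hκ : κ * h0 = ken x) (hx : ((966367641 : ℕ) : ℝ) / S ≤ x)
    (hx' : x ≤ (((966367641 : ℕ) : ℝ) + (24778659 : ℕ)) / S) :
    AltA (VFD κ) PP tK tL pcB [⟨3, 0, 0, 1449551462⟩] 2 0 3 0 4 (sgb true) (sgb false) x :=
  strip_altAD (m := 1449551462) true rfl hκ (SH.κ0 hκ (SH.hx1 hx).le (SH.hx2 hx').le) (SH.hx1 hx).le (SH.hx2 hx') (covB02).cov (covB40).cov hx hx' c_A04pm_203_s1 cutA_nil (noExt_A)

noncomputable def cut_A04pm_213_s1 : Cut := Cut.of [[⟨4, 0, 0, 1449551462⟩]]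

noncomputable def f_A04pm_213_s1 : ℕ → ℕ → ℕ → ℕ → Bool := onCell 0 536870912 536870912 536870912 966367641 24778659
    (rowF 0 true true false .pnn 2 1 3 (qsf 0 536870912 536870912 536870912 3) ndB0q2 ndB4q1 pcB3 cut_A04pm_213_s1 Ext.none)

def k0_A04pm_213_s1 : ∃ t, chk3 f_A04pm_213_s1 t 1 1 1 = true :=
  ⟨(l 6), by decide +kernel⟩

theorem c_A04pm_213_s1 : CertF 0 536870912 536870912 536870912 966367641 24778659 true true false .pnn 2 1 3
    ndB0q2 ndB4q1 pcB3 cut_A04pm_213_s1 Ext.none :=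
  certF0 (fam := true) (s1 := true) (s2 := false) (a := 2) (b := 1) (c := 3) (cn := .pnn) (n1 := ndB0q2) (n2 := ndB4q1) (pc := pcB3) (cut := cut_A04pm_213_s1) (xt := Ext.none) (P1 := 0) (W1 := 536870912) (P2 := 536870912) (W2 := 536870912) (P3 := 966367641) (W3 := 24778659)
    rfl k0_A04pm_213_s1

theorem s_A04pm_213_s1 {κ x : ℝ} (hκ : κ * h0 = ken x) (hx : ((966367641 : ℕ) : ℝ) / S ≤ x)
    (hx' : x ≤ (((966367641 : ℕ) : ℝ) + (24778659 : ℕ)) / S) :
    AltA (VFD κ) PP tK tL pcB [⟨3, 0, 0, 1449551462⟩] 2 1 3 0 4 (sgb true) (sgb false) x :=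
  strip_altAD (m := 1449551462) true rfl hκ (SH.κ0 hκ (SH.hx1 hx).le (SH.hx2 hx').le) (SH.hx1 hx).le (SH.hx2 hx') (covB02).cov (covB41).cov hx hx' c_A04pm_213_s1 cutA_nil (noExt_A)

noncomputable def cut_A04mm_001_s1 : Cut := Cut.of [[⟨4, 0, 0, 1449551462⟩]]

noncomputable def f_A04mm_001_s1 : ℕ → ℕ → ℕ → ℕ → Bool := onCell 0 536870912 0 536870912 966367641 24778659
    (rowF 0 true false false .up 0 0 1 (qsf 0 536870912 0 536870912 1) ndB0q0 ndB4q0 pcB1 cut_A04mm_001_s1 Ext.none)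

def k0_A04mm_001_s1 : ∃ t, chk3 f_A04mm_001_s1 t 1 1 1 = true :=
  ⟨(l 4), by decide +kernel⟩

theorem c_A04mm_001_s1 : CertF 0 536870912 0 536870912 966367641 24778659 true false false .up 0 0 1
    ndB0q0 ndB4q0 pcB1 cut_A04mm_001_s1 Ext.none :=
  certF0 (fam := true) (s1 := false) (s2 := false) (a := 0) (b := 0) (c := 1) (cn := .up) (n1 := ndB0q0) (n2 := ndB4q0) (pc := pcB1) (cut := cut_A04mm_001_s1) (xt := Ext.none) (P1 := 0) (W1 := 536870912) (P2 := 0) (W2 := 536870912) (P3 := 966367641) (W3 := 24778659)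
    rfl k0_A04mm_001_s1

theorem s_A04mm_001_s1 {κ x : ℝ} (hκ : κ * h0 = ken x) (hx : ((966367641 : ℕ) : ℝ) / S ≤ x)
    (hx' : x ≤ (((966367641 : ℕ) : ℝ) + (24778659 : ℕ)) / S) :
    AltA (VFD κ) PP tK tL pcB [⟨3, 0, 0, 1449551462⟩] 0 0 1 0 4 (sgb false) (sgb false) x :=
  strip_altAD (m := 1449551462) true rfl hκ (SH.κ0 hκ (SH.hx1 hx).le (SH.hx2 hx').le) (SH.hx1 hx).le (SH.hx2 hx') (covB00).cov (covB40).cov hx hx' c_A04mm_001_s1 cutA_nil (noExt_A)

noncomputable def cut_A04mm_011_s1 : Cut := Cut.of [[⟨4, 0, 0, 1449551462⟩]]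

noncomputable def f_A04mm_011_s1 : ℕ → ℕ → ℕ → ℕ → Bool := onCell 0 536870912 536870912 536870912 966367641 24778659
    (rowF 0 true false false .pnn 0 1 1 (qsf 0 536870912 536870912 536870912 1) ndB0q0 ndB4q1 pcB1 cut_A04mm_011_s1 Ext.none)

def k0_A04mm_011_s1 : ∃ t, chk3 f_A04mm_011_s1 t 1 1 1 = true :=
  ⟨(l 4), by decide +kernel⟩

theorem c_A04mm_011_s1 : CertF 0 536870912 536870912 536870912 966367641 24778659 true false false .pnn 0 1 1
    ndB0q0 ndB4q1 pcB1 cut_A04mm_011_s1 Ext.none :=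
  certF0 (fam := true) (s1 := false) (s2 := false) (a := 0) (b := 1) (c := 1) (cn := .pnn) (n1 := ndB0q0) (n2 := ndB4q1) (pc := pcB1) (cut := cut_A04mm_011_s1) (xt := Ext.none) (P1 := 0) (W1 := 536870912) (P2 := 536870912) (W2 := 536870912) (P3 := 966367641) (W3 := 24778659)
    rfl k0_A04mm_011_s1

theorem s_A04mm_011_s1 {κ x : ℝ} (hκ : κ * h0 = ken x) (hx : ((966367641 : ℕ) : ℝ) / S ≤ x)
    (hx' : x ≤ (((966367641 : ℕ) : ℝ) + (24778659 : ℕ)) / S) :
    AltA (VFD κ) PP tK tL pcB [⟨3, 0, 0, 1449551462⟩] 0 1 1 0 4 (sgb false) (sgb false) x :=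
  strip_altAD (m := 1449551462) true rfl hκ (SH.κ0 hκ (SH.hx1 hx).le (SH.hx2 hx').le) (SH.hx1 hx).le (SH.hx2 hx') (covB00).cov (covB41).cov hx hx' c_A04mm_011_s1 cutA_nil (noExt_A)

noncomputable def cut_A04mm_012_s1 : Cut := Cut.of [[⟨4, 0, 0, 1449551462⟩]]

noncomputable def f_A04mm_012_s1 : ℕ → ℕ → ℕ → ℕ → Bool := onCell 0 536870912 536870912 536870912 966367641 24778659
    (rowF 0 true false false .pnp 0 1 2 (qsf 0 536870912 536870912 536870912 2) ndB0q0 ndB4q1 pcB2 cut_A04mm_012_s1 Ext.none)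

def k0_A04mm_012_s1 : ∃ t, chk3 f_A04mm_012_s1 t 1 1 1 = true :=
  ⟨(l 4), by decide +kernel⟩

theorem c_A04mm_012_s1 : CertF 0 536870912 536870912 536870912 966367641 24778659 true false false .pnp 0 1 2
    ndB0q0 ndB4q1 pcB2 cut_A04mm_012_s1 Ext.none :=
  certF0 (fam := true) (s1 := false) (s2 := false) (a := 0) (b := 1) (c := 2) (cn := .pnp) (n1 := ndB0q0) (n2 := ndB4q1) (pc := pcB2) (cut := cut_A04mm_012_s1) (xt := Ext.none) (P1 := 0) (W1 := 536870912) (P2 := 536870912) (W2 := 536870912) (P3 := 966367641) (W3 := 24778659)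
    rfl k0_A04mm_012_s1

theorem s_A04mm_012_s1 {κ x : ℝ} (hκ : κ * h0 = ken x) (hx : ((966367641 : ℕ) : ℝ) / S ≤ x)
    (hx' : x ≤ (((966367641 : ℕ) : ℝ) + (24778659 : ℕ)) / S) :
    AltA (VFD κ) PP tK tL pcB [⟨3, 0, 0, 1449551462⟩] 0 1 2 0 4 (sgb false) (sgb false) x :=
  strip_altAD (m := 1449551462) true rfl hκ (SH.κ0 hκ (SH.hx1 hx).le (SH.hx2 hx').le) (SH.hx1 hx).le (SH.hx2 hx') (covB00).cov (covB41).cov hx hx' c_A04mm_012_s1 cutA_nil (noExt_A)

noncomputable def cut_A04mm_022_s1 : Cut := Cut.of [[⟨4, 0, 0, 1449551462⟩]]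

noncomputable def f_A04mm_022_s1 : ℕ → ℕ → ℕ → ℕ → Bool := onCell 0 536870912 1073741824 536870912 966367641 24778659
    (rowF 0 true false false .pp 0 2 2 (qsf 0 536870912 1073741824 536870912 2) ndB0q0 ndB4q2 pcB2 cut_A04mm_022_s1 Ext.none)

def k0_A04mm_022_s1 : ∃ t, chk3 f_A04mm_022_s1 t 1 1 1 = true :=
  ⟨(l 4), by decide +kernel⟩

theorem c_A04mm_022_s1 : CertF 0 536870912 1073741824 536870912 966367641 24778659 true false false .pp 0 2 2
    ndB0q0 ndB4q2 pcB2 cut_A04mm_022_s1 Ext.none :=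
  certF0 (fam := true) (s1 := false) (s2 := false) (a := 0) (b := 2) (c := 2) (cn := .pp) (n1 := ndB0q0) (n2 := ndB4q2) (pc := pcB2) (cut := cut_A04mm_022_s1) (xt := Ext.none) (P1 := 0) (W1 := 536870912) (P2 := 1073741824) (W2 := 536870912) (P3 := 966367641) (W3 := 24778659)
    rfl k0_A04mm_022_s1

theorem s_A04mm_022_s1 {κ x : ℝ} (hκ : κ * h0 = ken x) (hx : ((966367641 : ℕ) : ℝ) / S ≤ x)
    (hx' : x ≤ (((966367641 : ℕ) : ℝ) + (24778659 : ℕ)) / S) :
    AltA (VFD κ) PP tK tL pcB [⟨3, 0, 0, 1449551462⟩] 0 2 2 0 4 (sgb false) (sgb false) x :=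
  strip_altAD (m := 1449551462) true rfl hκ (SH.κ0 hκ (SH.hx1 hx).le (SH.hx2 hx').le) (SH.hx1 hx).le (SH.hx2 hx') (covB00).cov (covB42).cov hx hx' c_A04mm_022_s1 cutA_nil (noExt_A)

noncomputable def cut_A04mm_023_s1 : Cut := Cut.of [[⟨4, 0, 0, 1449551462⟩]]

noncomputable def f_A04mm_023_s1 : ℕ → ℕ → ℕ → ℕ → Bool := onCell 0 536870912 1073741824 536870912 966367641 24778659
    (rowF 0 true false false .up 0 2 3 (qsf 0 536870912 1073741824 536870912 3) ndB0q0 ndB4q2 pcB3 cut_A04mm_023_s1 Ext.none)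

def k0_A04mm_023_s1 : ∃ t, chk3 f_A04mm_023_s1 t 1 1 1 = true :=
  ⟨(l 4), by decide +kernel⟩

theorem c_A04mm_023_s1 : CertF 0 536870912 1073741824 536870912 966367641 24778659 true false false .up 0 2 3
    ndB0q0 ndB4q2 pcB3 cut_A04mm_023_s1 Ext.none :=
  certF0 (fam := true) (s1 := false) (s2 := false) (a := 0) (b := 2) (c := 3) (cn := .up) (n1 := ndB0q0) (n2 := ndB4q2) (pc := pcB3) (cut := cut_A04mm_023_s1) (xt := Ext.none) (P1 := 0) (W1 := 536870912) (P2 := 1073741824) (W2 := 536870912) (P3 := 966367641) (W3 := 24778659)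
    rfl k0_A04mm_023_s1

theorem s_A04mm_023_s1 {κ x : ℝ} (hκ : κ * h0 = ken x) (hx : ((966367641 : ℕ) : ℝ) / S ≤ x)
    (hx' : x ≤ (((966367641 : ℕ) : ℝ) + (24778659 : ℕ)) / S) :
    AltA (VFD κ) PP tK tL pcB [⟨3, 0, 0, 1449551462⟩] 0 2 3 0 4 (sgb false) (sgb false) x :=
  strip_altAD (m := 1449551462) true rfl hκ (SH.κ0 hκ (SH.hx1 hx).le (SH.hx2 hx').le) (SH.hx1 hx).le (SH.hx2 hx') (covB00).cov (covB42).cov hx hx' c_A04mm_023_s1 cutA_nil (noExt_A)

noncomputable def cut_A04mm_033_s1 : Cut := Cut.of [[⟨4, 0, 0, 1449551462⟩]]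

noncomputable def f_A04mm_033_s1 : ℕ → ℕ → ℕ → ℕ → Bool := onCell 0 536870912 0 1230186008 966367641 24778659
    (rowF 0 true false false .pnn 0 3 3 (qsf 0 536870912 0 1230186008 3) ndB0q0 ndB4q3 pcB3 cut_A04mm_033_s1 Ext.none)

def k0_A04mm_033_s1 : ∃ t, chk3 f_A04mm_033_s1 t 1 1 1 = true :=
  ⟨(l 4), by decide +kernel⟩

theorem c_A04mm_033_s1 : CertF 0 536870912 0 1230186008 966367641 24778659 true false false .pnn 0 3 3
    ndB0q0 ndB4q3 pcB3 cut_A04mm_033_s1 Ext.none :=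
  certF0 (fam := true) (s1 := false) (s2 := false) (a := 0) (b := 3) (c := 3) (cn := .pnn) (n1 := ndB0q0) (n2 := ndB4q3) (pc := pcB3) (cut := cut_A04mm_033_s1) (xt := Ext.none) (P1 := 0) (W1 := 536870912) (P2 := 0) (W2 := 1230186008) (P3 := 966367641) (W3 := 24778659)
    rfl k0_A04mm_033_s1

theorem s_A04mm_033_s1 {κ x : ℝ} (hκ : κ * h0 = ken x) (hx : ((966367641 : ℕ) : ℝ) / S ≤ x)
    (hx' : x ≤ (((966367641 : ℕ) : ℝ) + (24778659 : ℕ)) / S) :
    AltA (VFD κ) PP tK tL pcB [⟨3, 0, 0, 1449551462⟩] 0 3 3 0 4 (sgb false) (sgb false) x :=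
  strip_altAD (m := 1449551462) true rfl hκ (SH.κ0 hκ (SH.hx1 hx).le (SH.hx2 hx').le) (SH.hx1 hx).le (SH.hx2 hx') (covB00).cov (covB43).cov hx hx' c_A04mm_033_s1 cutA_nil (noExt_A)

noncomputable def cut_A04mm_101_s1 : Cut := Cut.of [[⟨4, 0, 0, 1449551462⟩]]

noncomputable def f_A04mm_101_s1 : ℕ → ℕ → ℕ → ℕ → Bool := onCell 536870912 536870912 0 536870912 966367641 24778659
    (rowF 0 true false false .npn 1 0 1 (qsf 536870912 536870912 0 536870912 1) ndB0q1 ndB4q0 pcB1 cut_A04mm_101_s1 Ext.none)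

def k0_A04mm_101_s1 : ∃ t, chk3 f_A04mm_101_s1 t 1 1 1 = true :=
  ⟨(l 4), by decide +kernel⟩

theorem c_A04mm_101_s1 : CertF 536870912 536870912 0 536870912 966367641 24778659 true false false .npn 1 0 1
    ndB0q1 ndB4q0 pcB1 cut_A04mm_101_s1 Ext.none :=
  certF0 (fam := true) (s1 := false) (s2 := false) (a := 1) (b := 0) (c := 1) (cn := .npn) (n1 := ndB0q1) (n2 := ndB4q0) (pc := pcB1) (cut := cut_A04mm_101_s1) (xt := Ext.none) (P1 := 536870912) (W1 := 536870912) (P2 := 0) (W2 := 536870912) (P3 := 966367641) (W3 := 24778659)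
    rfl k0_A04mm_101_s1

theorem s_A04mm_101_s1 {κ x : ℝ} (hκ : κ * h0 = ken x) (hx : ((966367641 : ℕ) : ℝ) / S ≤ x)
    (hx' : x ≤ (((966367641 : ℕ) : ℝ) + (24778659 : ℕ)) / S) :
    AltA (VFD κ) PP tK tL pcB [⟨3, 0, 0, 1449551462⟩] 1 0 1 0 4 (sgb false) (sgb false) x :=
  strip_altAD (m := 1449551462) true rfl hκ (SH.κ0 hκ (SH.hx1 hx).le (SH.hx2 hx').le) (SH.hx1 hx).le (SH.hx2 hx') (covB01).cov (covB40).cov hx hx' c_A04mm_101_s1 cutA_nil (noExt_A)

noncomputable def cut_A04mm_102_s1 : Cut := Cut.of [[⟨4, 0, 0, 1449551462⟩]]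

noncomputable def f_A04mm_102_s1 : ℕ → ℕ → ℕ → ℕ → Bool := onCell 536870912 536870912 0 536870912 966367641 24778659
    (rowF 0 true false false .npp 1 0 2 (qsf 536870912 536870912 0 536870912 2) ndB0q1 ndB4q0 pcB2 cut_A04mm_102_s1 Ext.none)

def k0_A04mm_102_s1 : ∃ t, chk3 f_A04mm_102_s1 t 1 1 1 = true :=
  ⟨(l 4), by decide +kernel⟩

theorem c_A04mm_102_s1 : CertF 536870912 536870912 0 536870912 966367641 24778659 true false false .npp 1 0 2
    ndB0q1 ndB4q0 pcB2 cut_A04mm_102_s1 Ext.none :=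
  certF0 (fam := true) (s1 := false) (s2 := false) (a := 1) (b := 0) (c := 2) (cn := .npp) (n1 := ndB0q1) (n2 := ndB4q0) (pc := pcB2) (cut := cut_A04mm_102_s1) (xt := Ext.none) (P1 := 536870912) (W1 := 536870912) (P2 := 0) (W2 := 536870912) (P3 := 966367641) (W3 := 24778659)
    rfl k0_A04mm_102_s1

theorem s_A04mm_102_s1 {κ x : ℝ} (hκ : κ * h0 = ken x) (hx : ((966367641 : ℕ) : ℝ) / S ≤ x)
    (hx' : x ≤ (((966367641 : ℕ) : ℝ) + (24778659 : ℕ)) / S) :
    AltA (VFD κ) PP tK tL pcB [⟨3, 0, 0, 1449551462⟩] 1 0 2 0 4 (sgb false) (sgb false) x :=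
  strip_altAD (m := 1449551462) true rfl hκ (SH.κ0 hκ (SH.hx1 hx).le (SH.hx2 hx').le) (SH.hx1 hx).le (SH.hx2 hx') (covB01).cov (covB40).cov hx hx' c_A04mm_102_s1 cutA_nil (noExt_A)

noncomputable def cut_A04mm_112_s1 : Cut := Cut.of [[⟨4, 0, 0, 1449551462⟩]]

noncomputable def f_A04mm_112_s1 : ℕ → ℕ → ℕ → ℕ → Bool := onCell 536870912 536870912 536870912 536870912 966367641 24778659
    (rowF 0 true false false .dn 1 1 2 (qsf 536870912 536870912 536870912 536870912 2) ndB0q1 ndB4q1 pcB2 cut_A04mm_112_s1 Ext.none)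

def k0_A04mm_112_s1 : ∃ t, chk3 f_A04mm_112_s1 t 1 1 1 = true :=
  ⟨(l 4), by decide +kernel⟩

theorem c_A04mm_112_s1 : CertF 536870912 536870912 536870912 536870912 966367641 24778659 true false false .dn 1 1 2
    ndB0q1 ndB4q1 pcB2 cut_A04mm_112_s1 Ext.none :=
  certF0 (fam := true) (s1 := false) (s2 := false) (a := 1) (b := 1) (c := 2) (cn := .dn) (n1 := ndB0q1) (n2 := ndB4q1) (pc := pcB2) (cut := cut_A04mm_112_s1) (xt := Ext.none) (P1 := 536870912) (W1 := 536870912) (P2 := 536870912) (W2 := 536870912) (P3 := 966367641) (W3 := 24778659)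
    rfl k0_A04mm_112_s1

theorem s_A04mm_112_s1 {κ x : ℝ} (hκ : κ * h0 = ken x) (hx : ((966367641 : ℕ) : ℝ) / S ≤ x)
    (hx' : x ≤ (((966367641 : ℕ) : ℝ) + (24778659 : ℕ)) / S) :
    AltA (VFD κ) PP tK tL pcB [⟨3, 0, 0, 1449551462⟩] 1 1 2 0 4 (sgb false) (sgb false) x :=
  strip_altAD (m := 1449551462) true rfl hκ (SH.κ0 hκ (SH.hx1 hx).le (SH.hx2 hx').le) (SH.hx1 hx).le (SH.hx2 hx') (covB01).cov (covB41).cov hx hx' c_A04mm_112_s1 cutA_nil (noExt_A)

noncomputable def cut_A04mm_113_s1 : Cut := Cut.of [[⟨4, 0, 0, 1449551462⟩]]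

noncomputable def f_A04mm_113_s1 : ℕ → ℕ → ℕ → ℕ → Bool := onCell 536870912 536870912 536870912 536870912 966367641 24778659
    (rowF 0 true false false .nn 1 1 3 (qsf 536870912 536870912 536870912 536870912 3) ndB0q1 ndB4q1 pcB3 cut_A04mm_113_s1 Ext.none)

def k0_A04mm_113_s1 : ∃ t, chk3 f_A04mm_113_s1 t 1 1 1 = true :=
  ⟨(l 4), by decide +kernel⟩

theorem c_A04mm_113_s1 : CertF 536870912 536870912 536870912 536870912 966367641 24778659 true false false .nn 1 1 3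
    ndB0q1 ndB4q1 pcB3 cut_A04mm_113_s1 Ext.none :=
  certF0 (fam := true) (s1 := false) (s2 := false) (a := 1) (b := 1) (c := 3) (cn := .nn) (n1 := ndB0q1) (n2 := ndB4q1) (pc := pcB3) (cut := cut_A04mm_113_s1) (xt := Ext.none) (P1 := 536870912) (W1 := 536870912) (P2 := 536870912) (W2 := 536870912) (P3 := 966367641) (W3 := 24778659)
    rfl k0_A04mm_113_s1

theorem s_A04mm_113_s1 {κ x : ℝ} (hκ : κ * h0 = ken x) (hx : ((966367641 : ℕ) : ℝ) / S ≤ x)
    (hx' : x ≤ (((966367641 : ℕ) : ℝ) + (24778659 : ℕ)) / S) :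
    AltA (VFD κ) PP tK tL pcB [⟨3, 0, 0, 1449551462⟩] 1 1 3 0 4 (sgb false) (sgb false) x :=
  strip_altAD (m := 1449551462) true rfl hκ (SH.κ0 hκ (SH.hx1 hx).le (SH.hx2 hx').le) (SH.hx1 hx).le (SH.hx2 hx') (covB01).cov (covB41).cov hx hx' c_A04mm_113_s1 cutA_nil (noExt_A)

noncomputable def cut_A04mm_123_s1 : Cut := Cut.of [[⟨4, 0, 0, 1449551462⟩]]

noncomputable def f_A04mm_123_s1 : ℕ → ℕ → ℕ → ℕ → Bool := onCell 536870912 536870912 1073741824 536870912 966367641 24778659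
    (rowF 0 true false false .npn 1 2 3 (qsf 536870912 536870912 1073741824 536870912 3) ndB0q1 ndB4q2 pcB3 cut_A04mm_123_s1 Ext.none)

def k0_A04mm_123_s1 : ∃ t, chk3 f_A04mm_123_s1 t 1 1 1 = true :=
  ⟨(l 4), by decide +kernel⟩

theorem c_A04mm_123_s1 : CertF 536870912 536870912 1073741824 536870912 966367641 24778659 true false false .npn 1 2 3
    ndB0q1 ndB4q2 pcB3 cut_A04mm_123_s1 Ext.none :=
  certF0 (fam := true) (s1 := false) (s2 := false) (a := 1) (b := 2) (c := 3) (cn := .npn) (n1 := ndB0q1) (n2 := ndB4q2) (pc := pcB3) (cut := cut_A04mm_123_s1) (xt := Ext.none) (P1 := 536870912) (W1 := 536870912) (P2 := 1073741824) (W2 := 536870912) (P3 := 966367641) (W3 := 24778659)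
    rfl k0_A04mm_123_s1

theorem s_A04mm_123_s1 {κ x : ℝ} (hκ : κ * h0 = ken x) (hx : ((966367641 : ℕ) : ℝ) / S ≤ x)
    (hx' : x ≤ (((966367641 : ℕ) : ℝ) + (24778659 : ℕ)) / S) :
    AltA (VFD κ) PP tK tL pcB [⟨3, 0, 0, 1449551462⟩] 1 2 3 0 4 (sgb false) (sgb false) x :=
  strip_altAD (m := 1449551462) true rfl hκ (SH.κ0 hκ (SH.hx1 hx).le (SH.hx2 hx').le) (SH.hx1 hx).le (SH.hx2 hx') (covB01).cov (covB42).cov hx hx' c_A04mm_123_s1 cutA_nil (noExt_A)

noncomputable def cut_A04mm_133_s1 : Cut := Cut.of [[⟨4, 0, 0, 1449551462⟩]]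

noncomputable def f_A04mm_133_s1 : ℕ → ℕ → ℕ → ℕ → Bool := onCell 536870912 536870912 0 1230186008 966367641 24778659
    (rowF 0 true false false .dn 1 3 3 (qsf 536870912 536870912 0 1230186008 3) ndB0q1 ndB4q3 pcB3 cut_A04mm_133_s1 Ext.none)

def k0_A04mm_133_s1 : ∃ t, chk3 f_A04mm_133_s1 t 1 1 1 = true :=
  ⟨(l 4), by decide +kernel⟩

theorem c_A04mm_133_s1 : CertF 536870912 536870912 0 1230186008 966367641 24778659 true false false .dn 1 3 3
    ndB0q1 ndB4q3 pcB3 cut_A04mm_133_s1 Ext.none :=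
  certF0 (fam := true) (s1 := false) (s2 := false) (a := 1) (b := 3) (c := 3) (cn := .dn) (n1 := ndB0q1) (n2 := ndB4q3) (pc := pcB3) (cut := cut_A04mm_133_s1) (xt := Ext.none) (P1 := 536870912) (W1 := 536870912) (P2 := 0) (W2 := 1230186008) (P3 := 966367641) (W3 := 24778659)
    rfl k0_A04mm_133_s1

theorem s_A04mm_133_s1 {κ x : ℝ} (hκ : κ * h0 = ken x) (hx : ((966367641 : ℕ) : ℝ) / S ≤ x)
    (hx' : x ≤ (((966367641 : ℕ) : ℝ) + (24778659 : ℕ)) / S) :
    AltA (VFD κ) PP tK tL pcB [⟨3, 0, 0, 1449551462⟩] 1 3 3 0 4 (sgb false) (sgb false) x :=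
  strip_altAD (m := 1449551462) true rfl hκ (SH.κ0 hκ (SH.hx1 hx).le (SH.hx2 hx').le) (SH.hx1 hx).le (SH.hx2 hx') (covB01).cov (covB43).cov hx hx' c_A04mm_133_s1 cutA_nil (noExt_A)

noncomputable def cut_A04mm_202_s1 : Cut := Cut.of [[⟨4, 0, 0, 1449551462⟩]]

noncomputable def f_A04mm_202_s1 : ℕ → ℕ → ℕ → ℕ → Bool := onCell 0 536870912 0 536870912 966367641 24778659
    (rowF 0 true false false .pp 2 0 2 (qsf 0 536870912 0 536870912 2) ndB0q2 ndB4q0 pcB2 cut_A04mm_202_s1 Ext.none)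

def k0_A04mm_202_s1 : ∃ t, chk3 f_A04mm_202_s1 t 1 1 1 = true :=
  ⟨(l 4), by decide +kernel⟩

theorem c_A04mm_202_s1 : CertF 0 536870912 0 536870912 966367641 24778659 true false false .pp 2 0 2
    ndB0q2 ndB4q0 pcB2 cut_A04mm_202_s1 Ext.none :=
  certF0 (fam := true) (s1 := false) (s2 := false) (a := 2) (b := 0) (c := 2) (cn := .pp) (n1 := ndB0q2) (n2 := ndB4q0) (pc := pcB2) (cut := cut_A04mm_202_s1) (xt := Ext.none) (P1 := 0) (W1 := 536870912) (P2 := 0) (W2 := 536870912) (P3 := 966367641) (W3 := 24778659)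
    rfl k0_A04mm_202_s1

theorem s_A04mm_202_s1 {κ x : ℝ} (hκ : κ * h0 = ken x) (hx : ((966367641 : ℕ) : ℝ) / S ≤ x)
    (hx' : x ≤ (((966367641 : ℕ) : ℝ) + (24778659 : ℕ)) / S) :
    AltA (VFD κ) PP tK tL pcB [⟨3, 0, 0, 1449551462⟩] 2 0 2 0 4 (sgb false) (sgb false) x :=
  strip_altAD (m := 1449551462) true rfl hκ (SH.κ0 hκ (SH.hx1 hx).le (SH.hx2 hx').le) (SH.hx1 hx).le (SH.hx2 hx') (covB02).cov (covB40).cov hx hx' c_A04mm_202_s1 cutA_nil (noExt_A)

noncomputable def cut_A04mm_203_s1 : Cut := Cut.of [[⟨4, 0, 0, 1449551462⟩]]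

noncomputable def f_A04mm_203_s1 : ℕ → ℕ → ℕ → ℕ → Bool := onCell 0 536870912 0 536870912 966367641 24778659
    (rowF 0 true false false .up 2 0 3 (qsf 0 536870912 0 536870912 3) ndB0q2 ndB4q0 pcB3 cut_A04mm_203_s1 Ext.none)

def k0_A04mm_203_s1 : ∃ t, chk3 f_A04mm_203_s1 t 1 1 1 = true :=
  ⟨(l 4), by decide +kernel⟩

theorem c_A04mm_203_s1 : CertF 0 536870912 0 536870912 966367641 24778659 true false false .up 2 0 3
    ndB0q2 ndB4q0 pcB3 cut_A04mm_203_s1 Ext.none :=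
  certF0 (fam := true) (s1 := false) (s2 := false) (a := 2) (b := 0) (c := 3) (cn := .up) (n1 := ndB0q2) (n2 := ndB4q0) (pc := pcB3) (cut := cut_A04mm_203_s1) (xt := Ext.none) (P1 := 0) (W1 := 536870912) (P2 := 0) (W2 := 536870912) (P3 := 966367641) (W3 := 24778659)
    rfl k0_A04mm_203_s1

theorem s_A04mm_203_s1 {κ x : ℝ} (hκ : κ * h0 = ken x) (hx : ((966367641 : ℕ) : ℝ) / S ≤ x)
    (hx' : x ≤ (((966367641 : ℕ) : ℝ) + (24778659 : ℕ)) / S) :
    AltA (VFD κ) PP tK tL pcB [⟨3, 0, 0, 1449551462⟩] 2 0 3 0 4 (sgb false) (sgb false) x :=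
  strip_altAD (m := 1449551462) true rfl hκ (SH.κ0 hκ (SH.hx1 hx).le (SH.hx2 hx').le) (SH.hx1 hx).le (SH.hx2 hx') (covB02).cov (covB40).cov hx hx' c_A04mm_203_s1 cutA_nil (noExt_A)

noncomputable def cut_A04mm_213_s1 : Cut := Cut.of [[⟨4, 0, 0, 1449551462⟩]]

noncomputable def f_A04mm_213_s1 : ℕ → ℕ → ℕ → ℕ → Bool := onCell 0 536870912 536870912 536870912 966367641 24778659
    (rowF 0 true false false .pnn 2 1 3 (qsf 0 536870912 536870912 536870912 3) ndB0q2 ndB4q1 pcB3 cut_A04mm_213_s1 Ext.none)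

def k0_A04mm_213_s1 : ∃ t, chk3 f_A04mm_213_s1 t 1 1 1 = true :=
  ⟨(l 4), by decide +kernel⟩

theorem c_A04mm_213_s1 : CertF 0 536870912 536870912 536870912 966367641 24778659 true false false .pnn 2 1 3
    ndB0q2 ndB4q1 pcB3 cut_A04mm_213_s1 Ext.none :=
  certF0 (fam := true) (s1 := false) (s2 := false) (a := 2) (b := 1) (c := 3) (cn := .pnn) (n1 := ndB0q2) (n2 := ndB4q1) (pc := pcB3) (cut := cut_A04mm_213_s1) (xt := Ext.none) (P1 := 0) (W1 := 536870912) (P2 := 536870912) (W2 := 536870912) (P3 := 966367641) (W3 := 24778659)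
    rfl k0_A04mm_213_s1

theorem s_A04mm_213_s1 {κ x : ℝ} (hκ : κ * h0 = ken x) (hx : ((966367641 : ℕ) : ℝ) / S ≤ x)
    (hx' : x ≤ (((966367641 : ℕ) : ℝ) + (24778659 : ℕ)) / S) :
    AltA (VFD κ) PP tK tL pcB [⟨3, 0, 0, 1449551462⟩] 2 1 3 0 4 (sgb false) (sgb false) x :=
  strip_altAD (m := 1449551462) true rfl hκ (SH.κ0 hκ (SH.hx1 hx).le (SH.hx2 hx').le) (SH.hx1 hx).le (SH.hx2 hx') (covB02).cov (covB41).cov hx hx' c_A04mm_213_s1 cutA_nil (noExt_A)

noncomputable def cut_B00pp_001_s1 : Cut := Cut.of [[⟨4, 0, 0, 1449551462⟩]]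

noncomputable def f_B00pp_001_s1 : ℕ → ℕ → ℕ → ℕ → Bool := onCell 0 536870912 0 536870912 966367641 24778659
    (rowF 1 false true true .up 0 0 1 (qsf 0 536870912 536870912 536870912 0) ndB0q0 ndB0q1 pcB0 cut_B00pp_001_s1 Ext.none)

def k0_B00pp_001_s1 : ∃ t, chk3 f_B00pp_001_s1 t 1 1 1 = true :=
  ⟨(l 3), by decide +kernel⟩

theorem c_B00pp_001_s1 : CertF 0 536870912 536870912 536870912 966367641 24778659 false true true .up 0 0 1
    ndB0q0 ndB0q1 pcB0 cut_B00pp_001_s1 Ext.none :=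
  certF1 (fam := false) (s1 := true) (s2 := true) (a := 0) (b := 0) (c := 1) (cn := .up) (n1 := ndB0q0) (n2 := ndB0q1) (pc := pcB0) (cut := cut_B00pp_001_s1) (xt := Ext.none) (P1 := 0) (W1 := 536870912) (P2 := 536870912) (W2 := 536870912) (P3 := 966367641) (W3 := 24778659)
    rfl (fun _ => rfl) k0_B00pp_001_s1

theorem s_B00pp_001_s1 {κ x : ℝ} (hκ : κ * h0 = ken x) (hx : ((966367641 : ℕ) : ℝ) / S ≤ x)
    (hx' : x ≤ (((966367641 : ℕ) : ℝ) + (24778659 : ℕ)) / S) :
    AltB (VFD κ) PP tK tL pcB [⟨3, 0, 0, 1449551462⟩] 0 0 1 0 0 (sgb true) (sgb true) x :=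
  strip_altBD (m := 1449551462) true rfl hκ (SH.κ0 hκ (SH.hx1 hx).le (SH.hx2 hx').le) (SH.hx1 hx).le (SH.hx2 hx') (covB00).cov (covB01).cov hx hx' c_B00pp_001_s1 cutB_nil (noExt_B)

noncomputable def cut_B00pp_001_s3 : Cut := Cut.of [[⟨3, 0, 0, 2845415833⟩]]

noncomputable def f_B00pp_001_s3 : ℕ → ℕ → ℕ → ℕ → Bool := onCell 0 536870912 536870912 536870912 966367641 24778659
    (rowF 0 false true true .up 0 0 1 (qsf 0 536870912 536870912 536870912 0) ndB0q0 ndB0q1 pcB0 cut_B00pp_001_s3 Ext.none)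

def k0_B00pp_001_s3 : ∃ t, chk3 f_B00pp_001_s3 t 1 1 1 = true :=
  ⟨(l 6), by decide +kernel⟩

theorem c_B00pp_001_s3 : CertF 0 536870912 536870912 536870912 966367641 24778659 false true true .up 0 0 1
    ndB0q0 ndB0q1 pcB0 cut_B00pp_001_s3 Ext.none :=
  certF0 (fam := false) (s1 := true) (s2 := true) (a := 0) (b := 0) (c := 1) (cn := .up) (n1 := ndB0q0) (n2 := ndB0q1) (pc := pcB0) (cut := cut_B00pp_001_s3) (xt := Ext.none) (P1 := 0) (W1 := 536870912) (P2 := 536870912) (W2 := 536870912) (P3 := 966367641) (W3 := 24778659)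
    rfl k0_B00pp_001_s3

theorem s_B00pp_001_s3 {κ x : ℝ} (hκ : κ * h0 = ken x) (hx : ((966367641 : ℕ) : ℝ) / S ≤ x)
    (hx' : x ≤ (((966367641 : ℕ) : ℝ) + (24778659 : ℕ)) / S) :
    AltB (VFD κ) PP tK tL pcB [⟨4, 0, 0, 2845415833⟩] 0 0 1 0 0 (sgb true) (sgb true) x :=
  strip_altBD (m := 2845415833) false rfl hκ (SH.κ0 hκ (SH.hx1 hx).le (SH.hx2 hx').le) (SH.hx1 hx).le (SH.hx2 hx') (covB00).cov (covB01).cov hx hx' c_B00pp_001_s3 cutB_nil (noExt_B)

noncomputable def cut_B00pp_011_s1 : Cut := Cut.of [[⟨4, 0, 0, 1449551462⟩], [⟨0, 0, 0, 67108864⟩, ⟨1, 1, 0, 67108864⟩, ⟨2, 1, 0, 67108864⟩]]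

noncomputable def f_B00pp_011_s1 : ℕ → ℕ → ℕ → ℕ → Bool := onCell 536870912 536870912 536870912 536870912 966367641 24778659
    (rowF 2 false true true .pnn 0 1 1 (qsf 0 536870912 536870912 536870912 1) ndB0q0 ndB0q1 pcB1 cut_B00pp_011_s1 Ext.none)

def k0_B00pp_011_s1 : ∃ t, chk3 f_B00pp_011_s1 t 1 1 1 = true :=
  ⟨(a (l 3) (b (l 3) (a (l 3) (b (l 3) (b (l 3) (a (l 3) (b (l 3) (a (l 3) (l 14))))))))), by decide +kernel⟩

theorem c_B00pp_011_s1 : CertF 0 536870912 536870912 536870912 966367641 24778659 false true true .pnn 0 1 1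
    ndB0q0 ndB0q1 pcB1 cut_B00pp_011_s1 Ext.none :=
  certF2 (fam := false) (s1 := true) (s2 := true) (a := 0) (b := 1) (c := 1) (cn := .pnn) (n1 := ndB0q0) (n2 := ndB0q1) (pc := pcB1) (cut := cut_B00pp_011_s1) (xt := Ext.none) (P1 := 0) (W1 := 536870912) (P2 := 536870912) (W2 := 536870912) (P3 := 966367641) (W3 := 24778659)
    rfl (fun _ => rfl) k0_B00pp_011_s1

theorem s_B00pp_011_s1 {κ x : ℝ} (hκ : κ * h0 = ken x) (hx : ((966367641 : ℕ) : ℝ) / S ≤ x)
    (hx' : x ≤ (((966367641 : ℕ) : ℝ) + (24778659 : ℕ)) / S)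
    (H : CutB (VFD κ) PP tK tL pcB (Cut.of [[⟨0, 0, 0, 67108864⟩, ⟨1, 1, 0, 67108864⟩, ⟨2, 1, 0, 67108864⟩]]) 0 1 1 0 0 (sgb true) (sgb true) x) :
    AltB (VFD κ) PP tK tL pcB [⟨3, 0, 0, 1449551462⟩] 0 1 1 0 0 (sgb true) (sgb true) x :=
  strip_altBD (m := 1449551462) true rfl hκ (SH.κ0 hκ (SH.hx1 hx).le (SH.hx2 hx').le) (SH.hx1 hx).le (SH.hx2 hx') (covB00).cov (covB01).cov hx hx' c_B00pp_011_s1 H (noExt_B)

noncomputable def cut_B00pp_011_s3 : Cut := Cut.of [[⟨3, 0, 0, 2845415833⟩], [⟨0, 0, 0, 67108864⟩, ⟨1, 1, 0, 67108864⟩, ⟨2, 1, 0, 67108864⟩]]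

noncomputable def f_B00pp_011_s3 : ℕ → ℕ → ℕ → ℕ → Bool := onCell 0 536870912 536870912 536870912 966367641 24778659
    (rowF 0 false true true .pnn 0 1 1 (qsf 0 536870912 536870912 536870912 1) ndB0q0 ndB0q1 pcB1 cut_B00pp_011_s3 Ext.none)

def k0_B00pp_011_s3 : ∃ t, chk3 f_B00pp_011_s3 t 1 1 1 = true :=
  ⟨(l 6), by decide +kernel⟩

theorem c_B00pp_011_s3 : CertF 0 536870912 536870912 536870912 966367641 24778659 false true true .pnn 0 1 1
    ndB0q0 ndB0q1 pcB1 cut_B00pp_011_s3 Ext.none :=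
  certF0 (fam := false) (s1 := true) (s2 := true) (a := 0) (b := 1) (c := 1) (cn := .pnn) (n1 := ndB0q0) (n2 := ndB0q1) (pc := pcB1) (cut := cut_B00pp_011_s3) (xt := Ext.none) (P1 := 0) (W1 := 536870912) (P2 := 536870912) (W2 := 536870912) (P3 := 966367641) (W3 := 24778659)
    rfl k0_B00pp_011_s3

theorem s_B00pp_011_s3 {κ x : ℝ} (hκ : κ * h0 = ken x) (hx : ((966367641 : ℕ) : ℝ) / S ≤ x)
    (hx' : x ≤ (((966367641 : ℕ) : ℝ) + (24778659 : ℕ)) / S)
    (H : CutB (VFD κ) PP tK tL pcB (Cut.of [[⟨0, 0, 0, 67108864⟩, ⟨1, 1, 0, 67108864⟩, ⟨2, 1, 0, 67108864⟩]]) 0 1 1 0 0 (sgb true) (sgb true) x) :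
    AltB (VFD κ) PP tK tL pcB [⟨4, 0, 0, 2845415833⟩] 0 1 1 0 0 (sgb true) (sgb true) x :=
  strip_altBD (m := 2845415833) false rfl hκ (SH.κ0 hκ (SH.hx1 hx).le (SH.hx2 hx').le) (SH.hx1 hx).le (SH.hx2 hx') (covB00).cov (covB01).cov hx hx' c_B00pp_011_s3 H (noExt_B)

noncomputable def cut_B00pp_012_s1 : Cut := Cut.of [[⟨4, 0, 0, 1449551462⟩], [⟨0, 0, 0, 33554432⟩, ⟨1, 1, 0, 33554432⟩, ⟨2, 1, 0, 33554432⟩]]

noncomputable def xt_B00pp_012_s1 : Ext := strExt dd false true true .u0 .u2 .u0m .pnp 0 1 2 rfl rfl gf1 vv ndB0q0 ndB0q2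

noncomputable def f_B00pp_012_s1 : ℕ → ℕ → ℕ → ℕ → Bool := onCell 0 536870912 0 536870912 966367641 24778659
    (rowF 0 false true true .pnp 0 1 2 (qsf 0 536870912 0 536870912 1) ndB0q0 ndB0q2 pcB1 cut_B00pp_012_s1 xt_B00pp_012_s1)

def k0_B00pp_012_s1 : ∃ t, chk3 f_B00pp_012_s1 t 2 2 1 = true :=
  ⟨(a (a (l 2) (b (l 2) (b (l 2) (a (l 2) (a (l 2) (b (l 2) (l 16616896))))))) (b (a (l 6) (a (l 6) (b (l 6) (b (l 6) (a (l 6) (l 16558544)))))) (a (b (a (l 6) (b (l 6) (a (l 16573496) (l 16490200)))) (a (b (a (l 16597368) (l 16588608)) (a (l 16605096) (l 16603288))) (a (b (l 16504352) (l 16524624)) (b (l 16509536) (l 16533832))))) (a (b (a (b (l 16476664) (l 16495272)) (b (l 16481608) (l 16503624))) (b (a (l 16518424) (l 16529840)) (a (l 16545536) (b (l 16636128) (l 16568648))))) (b (a (b (l 16573368) (l 16514600)) (b (l 16498872) (l 16526600))) (a (b (l 16543648) (b (l 16651824) (l 16585448))) (b (b (l 16633528) (l 16566120)) (b (l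 16625568) (l 532277519))))))))), by decide +kernel⟩

def k1_B00pp_012_s1 : ∃ t, chk3 f_B00pp_012_s1 t 2 12 1 = true :=
  ⟨(a (a (l 2) (a (l 2) (b (a (b (l 2) (l 16634280)) (b (l 16621440) (l 16627776))) (a (b (a (l 2) (l 16641664)) (a (l 16654664) (l 16649944))) (b (l 16636872) (a (l 16648512) (l 16649592))))))) (a (a (a (b (a (l 16536888) (l 16537488)) (a (b (l 16637944) (l 16652792)) (b (l 16641184) (l 16615672)))) (b (b (l 16619080) (l 16548832)) (b (a (l 16645960) (l 16651744)) (a (l 16621656) (c (l 16667800) (l 16672200)))))) (b (a (b (l 16627896) (l 16559672)) (b (l 16555888) (l 16614456))) (a (b (a (l 16657824) (l 16664272)) (c (l 531596047) (a (l 16637200) (l 16686144)))) (b (c (l 16630592) (l 16636200)) (c (l 531950095) (l 531650063)))))) (a (b (a (b (l 16569728) (l 532216591)) (a (l 531966991) (l 532211727))) (a (b (a (l 16645880) (l 16665368)) (c (l 531844367) (l 532056335))) (a (b (l 532029199) (l 531909903)) (b (l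 532014095) (c (l 531849743) (l 531959055)))))) (b (a (b (l 532237071) (a (l 16662024) (l 532064015))) (b (l 532114703) (l 531957263))) (a (b (a (l 531708175) (l 531915279)) (c (l 531765263) (l 531578383))) (b (c (l 531766031) (l 531841551)) (c (l 531628047) (l 531675663)))))))), by decide +kernel⟩

def k2_B00pp_012_s1 : ∃ t, chk3 f_B00pp_012_s1 t 4 13 1 = true :=
  ⟨(a (l 2) (a (a (b (l 2) (a (l 2) (b (c (l 16610720) (l 16661664)) (a (b (l 16668488) (l 16679648)) (b (l 16678152) (l 16688616)))))) (b (b (a (l 2) (l 16616632)) (a (b (l 2) (l 16662184)) (b (l 16629704) (l 16638056)))) (b (b (a (l 16666600) (l 16643496)) (a (c (l 16677360) (l 16664768)) (c (l 16693288) (l 16687360)))) (b (a (c (l 16687168) (l 16653152)) (a (l 16656040) (l 16677152))) (a (a (l 16696768) (l 16683176)) (c (l 16708360) (b (l 16678712) (l 16693064)))))))) (b (a (a (b (c (l 16666608) (l 16659488)) (b (l 16671352) (l 16635784))) (b (l 16640120) (c (l 16677840)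 (b (l 16668488) (l 16676064))))) (b (a (c (l 16663808) (l 16660216)) (c (l 16666120) (l 16664200))) (a (c (l 16659208) (b (l 16671968) (l 16680616))) (c (l 16663352) (b (l 16677400) (l 16686976)))))) (a (b (b (a (c (l 16688096) (l 16639056)) (c (l 16605856) (l 16663224))) (a (a (l 16649576) (l 16671624)) (a (l 16673448) (l 532520719)))) (a (c (b (l 16702888) (c (l 16712312) (l 16709528))) (a (b (l 16653752) (l 16693536)) (b (l 16676712) (l 532377615)))) (a (c (l 532910095) (b (l 16679448) (l 532585231))) (c (l 532558863) (b (l 16693296) (l 532553743)))))) (b (a (a (b (l 16669408) (l 532181775)) (b (l 16672192) (l 532393999))) (a (b (l 16675336) (l 532615695)) (b (l 16689240) (l 532574223)))) (a (c (b (l 532471567) (l 532434191)) (a (b (l 16697040) (l 532537615)) (b (l 16701096) (l 532529935)))) (c (b (l 532615695) (l 532321295)) (a (b (l 532534031) (l 532523023)) (c (l 532529423) (l 532229647)))))))))), by decide +kernel⟩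

def k3_B00pp_012_s1 : ∃ t, chk3 f_B00pp_012_s1 t 10 13 1 = true :=
  ⟨(a (b (a (b (a (c (l 16670176) (l 16649024)) (c (l 16675504) (l 16656096))) (a (c (l 532569871) (b (l 16684320) (l 16694568))) (c (l 532171535) (b (l 16692008) (l 532483343))))) (b (a (b (l 16677968) (l 16666992)) (b (l 16642728) (l 532278287))) (a (c (l 532295951) (b (l 16678400) (l 532377103))) (c (l 532161039) (l 532290575))))) (a (a (b (c (l 531994639) (a (l 532524047) (l 532500495))) (c (b (l 532220943) (l 532183567)) (b (a (l 532497167) (l 532451343)) (a (l 532465679) (l 532407567))))) (b (c (b (l 16691104) (l 532375567)) (b (l 532178191) (l 532405519))) (c (l 532326415) (l 532074511)))) (c (b (l 531375631) (a (l 532197647) (l 532087311))) (b (a (l 532315919) (l 532212495)) (a (l 532236303) (l 532138767)))))) (b (b (a (c (l 532036367) (a (l 532284943) (l 532190479))) (c (l 531319567) (a (l 532105487) (l 532029967)))) (a (c (b (l 531992335) (l 531982351))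 (a (l 532190479) (l 532099599))) (b (c (l 531820815) (l 531993359)) (c (l 531822351) (l 531961103))))) (a (b (c (l 531701007) (a (l 532118031) (l 532032271))) (c (l 531684879) (a (l 532050191) (l 531702031)))) (a (c (b (l 531861007) (l 531867151)) (b (l 531954959) (l 531630351))) (b (l 531846415) (l 3)))))), by decide +kernel⟩

def k4_B00pp_012_s1 : ∃ t, chk3 f_B00pp_012_s1 t 11 13 1 = true :=
  ⟨(a (b (b (a (b (c (l 531775503) (l 531962383)) (c (l 531740175) (l 531906063))) (c (a (b (l 531768591) (l 531498255)) (l 531474959)) (a (a (l 531877391) (l 531873295)) (c (l 531800079) (l 531842575))))) (a (b (c (l 531429647) (c (l 531808271) (l 531887119))) (l 531781135)) (a (c (b (l 531722767) (l 531425295)) (b (a (l 531796495) (l 531779599)) (a (l 531777039) (l 531724815)))) (b (c (l 531397135) (c (l 531704847) (l 531734799))) (l 3))))) (b (a (a (l 531799311) (a (l 531505167) (l 3))) (l 3)) (l 3))) (b (b (a (l 531669519) (c (l 531494159)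 (l 531512079))) (l 3)) (l 3))), by decide +kernel⟩

def k5_B00pp_012_s1 : ∃ t, chk3 f_B00pp_012_s1 t 4 56 1 = true :=
  ⟨(a (l 2) (a (a (b (a (a (l 2) (b (l 16636704) (l 16642536))) (a (l 16690664) (l 16698936))) (a (a (b (l 16638976) (l 16666056)) (b (l 16648312) (l 16654032))) (a (c (l 16656576) (l 16704560)) (c (l 16706160) (l 16712120))))) (a (c (b (l 16706704) (c (l 16714984) (l 16712528))) (a (b (l 16707896) (l 16704432)) (b (l 16687048) (a (l 16694504) (l 16705584))))) (c (a (b (l 16715128) (l 16722656)) (b (l 16716392) (l 16714040))) (a (b (l 16698440) (b (l 16694152) (l 16708968))) (b (c (l 16691088) (l 16698568)) (c (l 16710312) (l 532302095))))))) (a (a (a (b (c (l 16718272) (c (l 16693336) (l 532557583))) (c (l 532918799) (b (l 16709512) (l 532279311)))) (c (b (l 16720712) (l 532828431)) (b (l 532031759) (c (l 532592399) (l 532160271))))) (a (c (c (l 532586255) (l 532453391)) (b (c (l 16710360) (l 532459791)) (l 532230415)))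 (c (l 532462095) (b (l 532522255) (l 532506383))))) (b (a (c (l 532132111) (a (l 532521231) (l 532522767))) (a (c (l 532591631) (l 532515599)) (b (l 532245775) (l 532225039)))) (a (c (a (l 532663823) (l 532616207)) (a (c (l 532555791) (l 532480527)) (c (l 532546575) (l 532497935)))) (a (c (l 532552975) (a (l 532507919) (l 532482831))) (c (l 532477199) (l 532437263)))))))), by decide +kernel⟩

def k6_B00pp_012_s1 : ∃ t, chk3 f_B00pp_012_s1 t 8 57 1 = true :=
  ⟨(a (l 2) (a (l 2) (a (l 2) (a (b (l 2) (b (l 16666144) (c (l 16691792) (l 16695768)))) (b (a (l 531587343) (l 531710991)) (b (l 16675424) (l 16681624))))))), by decide +kernel⟩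

def k7_B00pp_012_s1 : ∃ t, chk3 f_B00pp_012_s1 t 18 57 1 = true :=
  ⟨(a (a (a (b (b (l 16672096) (l 16678064)) (b (l 16683952) (c (l 16708896) (l 16691672)))) (b (c (l 16680976) (l 16707040)) (c (l 532273167) (b (l 16693968) (l 16720120))))) (c (a (b (l 16688632) (l 16720488)) (b (l 16716592) (l 532906511))) (a (b (l 16709432) (b (l 16722080) (l 16726944))) (b (c (l 16720320) (l 16710056)) (b (l 16717112) (l 532562703)))))) (a (c (a (b (l 16722944) (b (l 16730224) (l 16735032))) (b (l 16718248) (b (l 16713896) (l 16728576)))) (a (b (b (l 16720648) (l 16714200)) (b (c (l 16729960) (l 16727792)) (a (l 16722320) (l 16728520)))) (b (b (l 16711472) (c (l 16727464) (l 16714648))) (c (b (l 16731856) (l 16736408)) (a (l 532435727) (l 532354575)))))) (b (a (c (l 532799759) (c (l 532525327) (b (l 16712232) (l 532312335)))) (c (l 532676111) (c (l 532403727) (b (l 532504079) (l 532197903))))) (a (c (b (l 16726696) (l 532955407)) (a (c (l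 532738831) (l 532283151)) (b (l 532335119) (l 532301839)))) (c (c (l 532945679) (l 532510479)) (a (b (l 532283151) (l 532257807)) (b (l 532512527) (l 532492559)))))))), by decide +kernel⟩

def k8_B00pp_012_s1 : ∃ t, chk3 f_B00pp_012_s1 t 19 57 1 = true :=
  ⟨(a (a (b (a (c (b (l 16733720) (l 16727896)) (c (l 532322319) (b (l 532427791) (l 532406031)))) (c (l 532764431) (c (l 532547087) (l 532128015)))) (c (a (l 532504079) (l 532439823)) (a (c (l 532543759) (b (l 532390671) (l 532113679))) (c (l 532518415) (c (l 532151567) (l 532218895)))))) (b (c (a (l 532712975) (l 532674063)) (a (c (l 532541199) (l 532421903)) (l 532239119))) (c (a (l 532672271) (l 532242191)) (c (a (l 532532751) (a (l 532551951) (l 532558351))) (a (l 532167183) (a (l 532481551) (l 532503823))))))) (b (a (c (a (l 532634383) (b (l 532590351) (l 532564751))) (a (a (l 532524047) (l 532527887)) (b (l 532248847) (c (l 532517391) (l 532484367))))) (a (c (l 532501263)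 (l 532452367)) (l 532142607))) (a (a (c (c (l 532339727) (b (l 532589583) (l 532562447))) (b (a (l 532533007) (l 532523023)) (a (l 532529935) (l 532503567)))) (b (c (l 532535823) (l 532479759)) (l 532482063))) (c (l 532408847) (c (l 532385807) (l 532101391)))))), by decide +kernel⟩

def k9_B00pp_012_s1 : ∃ t, chk3 f_B00pp_012_s1 t 8 58 1 = true :=
  ⟨(a (l 2) (a (l 2) (a (a (b (l 2) (a (b (l 2) (l 531498767)) (b (l 16698024) (l 16705008)))) (b (c (b (l 16689304) (l 16696480)) (b (l 16692960) (l 531877647))) (c (b (l 16703536) (l 16710464)) (b (l 16705984) (l 16712320))))) (a (b (c (l 531382543) (a (l 16692464) (l 16686216))) (c (b (l 16711944) (l 16718440)) (b (l 16693192) (l 531847439)))) (b (c (l 531886095) (a (l 16700776) (l 16704696))) (a (b (l 16708328) (l 532214031)) (b (l 16711984) (l 532051983)))))))), by decide +kernel⟩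

def k10_B00pp_012_s1 : ∃ t, chk3 f_B00pp_012_s1 t 36 58 1 = true :=
  ⟨(a (b (a (c (b (l 16714904) (l 16699848)) (b (l 16707600) (l 16712968))) (c (l 532568847) (b (l 16725224) (l 532806671)))) (a (a (b (l 532161807) (l 531886863)) (b (l 532265743) (c (l 16733952) (l 532606479)))) (c (b (l 532578575) (l 532308751)) (b (l 532656143) (a (l 532711951) (l 532814863)))))) (b (a (c (l 532749071) (a (l 532969487) (l 532801039))) (c (b (l 16734392) (l 16736752)) (b (a (l 16725024) (l 16725824)) (c (l 533082639) (l 532394767))))) (c (a (b (l 532749583) (l 532740879)) (b (l 532904463) (l 532888335))) (a (b (c (l 532931855) (l 532789519)) (c (l 532907279) (l 532620047))) (a (b (l 532755215) (l 532733199)) (b (l 532657423) (l 532506127))))))), by decide +kernel⟩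

def k11_B00pp_012_s1 : ∃ t, chk3 f_B00pp_012_s1 t 37 58 1 = true :=
  ⟨(a (b (c (a (b (l 16734568) (l 533055503)) (c (l 533102095) (l 532399119))) (a (a (b (l 532635919) (l 532595983)) (b (l 532545807) (l 532509455))) (b (a (l 532463375) (l 532256271)) (c (l 532482319) (a (l 532613903) (l 532547343)))))) (c (a (b (l 532774671) (l 532483343)) (b (l 532428303) (l 532403983))) (a (b (c (l 532603151) (a (l 532757263) (l 532673807))) (a (c (l 532896271) (l 532483855)) (b (l 532481807) (l 532488719)))) (b (c (a (l 532764687) (l 532706319)) (a (l 532334607) (l 532279567))) (a (b (l 532420111) (l 532432655)) (b (l 532368911) (l 532384783))))))) (c (b (a (b (l 532377871) (l 532341519)) (c (l 532865551) (l 532450063))) (b (a (l 532580623) (l 532485903)) (a (c (l 532891663) (l 532502799)) (l 532475151)))) (b (a (c (b (l 532390671) (l 532371471)) (b (a (l 532506639) (l 532460559)) (a (l 532496143) (l 532455951)))) (b (a (l 532241167) (l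 532211471)) (c (l 532562191) (a (l 532424975) (l 532403215))))) (b (a (c (l 532364815) (a (l 532503311) (l 532198927))) (c (l 532293647) (a (l 532305679) (l 532421135)))) (a (a (b (l 532325135) (l 532344335)) (b (l 532289039) (l 532311055))) (a (b (l 532260111) (l 532553487)) (b (l 532507663) (l 532534799)))))))), by decide +kernel⟩

def k12_B00pp_012_s1 : ∃ t, chk3 f_B00pp_012_s1 t 19 58 1 = true :=
  ⟨(b (a (a (a (c (c (l 532776463) (l 532649743)) (a (b (l 532190991) (a (l 532462863) (l 532456719))) (b (l 532449039) (l 532183567)))) (c (l 532393743) (c (l 532240655) (a (l 532393743) (l 532416271))))) (a (c (a (l 532645391) (l 532237839)) (a (c (l 532532751) (l 532454415)) (b (l 532516367) (c (l 532560911) (l 532510223))))) (c (c (l 532219919) (b (l 532598543) (l 532307983))) (a (b (l 532537359) (c (l 532557071) (a (l 532258319) (l 532518159)))) (a (b (l 532541455) (l 532257295)) (b (l 532532751) (l 532511503))))))) (b (a (a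 (c (l 532282639) (a (l 532510991) (l 532480271))) (l 532455183)) (a (l 532121615) (l 532059919))) (a (a (l 532227343) (l 532160015)) (l 3)))) (b (a (a (a (c (l 532413967) (c (l 532521999) (a (l 532412175) (l 532413199)))) (c (l 532368655) (c (l 532250639) (a (l 532425743) (l 532452367))))) (a (c (a (a (l 532627215) (l 532628495)) (l 532347919)) (a (a (l 532514575) (c (l 532560911) (l 532513551))) (c (l 532296463) (a (l 532263695) (l 532527375))))) (c (l 532158735) (c (l 532522767) (a (l 532510991) (l 532482831)))))) (a (a (a (l 532216591) (l 532182799)) (l 3)) (l 3))) (a (a (b (a (c (l 532675087) (c (l 532537871) (l 532174095))) (c (l 532361999) (a (l 532494095) (c (l 532539663) (l 532480527))))) (a (c (l 532678415) (a (l 532523791) (l 532520207))) (c (l 532355599) (a (b (l 532514063) (l 532535311)) (b (l 532254735) (l 532548111)))))) (a (a (c (c (l 532367375) (b (l 532611087) (l 532331791))) (a (b (l 532534799) (c (l 532577807)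 (a (l 532261903) (c (l 532284943) (l 532537615))))) (b (c (l 532573199) (l 532270863)) (b (l 532285967) (l 532551695))))) (b (a (c (l 532604687) (l 532547599)) (l 532559631)) (b (l 532556815) (l 3)))) (b (l 532246031) (l 3)))) (l 3)))), by decide +kernel⟩

def k13_B00pp_012_s1 : ∃ t, chk3 f_B00pp_012_s1 t 8 59 1 = true :=
  ⟨(a (l 2) (a (a (a (l 2) (b (l 2) (a (l 2) (b (l 2) (l 16713976))))) (a (b (a (l 2) (b (l 2) (l 16701696))) (a (b (l 16705072) (l 531135503)) (b (l 531208719) (l 16717448)))) (b (a (b (l 16698624) (l 531294223)) (b (l 531390991) (l 16710640))) (a (b (l 16713912) (l 16711032)) (b (l 16718040) (l 531512847)))))) (a (a (b (a (b (l 16707672) (l 16714824)) (b (l 16711912) (l 16708344))) (a (b (l 16711504) (l 531628047)) (c (l 531691023) (l 531747855)))) (b (a (b (l 16715968) (l 531784719)) (b (l 16709376) (l 531896591))) (a (c (l 531804431) (l 531851279)) (c (l 531912719) (l 531682831))))) (a (b (c (b (l 16714368)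 (l 532019983)) (a (l 532044559) (l 532149775))) (c (a (l 532016143) (l 532114447)) (a (b (l 16731152) (l 532054543)) (b (l 532141583) (l 532147471))))) (b (c (a (l 532166159) (l 532263695)) (a (l 532253199) (l 532086543))) (c (a (l 532207887) (l 532296207)) (a (b (l 532238095) (l 532239375)) (b (l 532334095) (l 532332559))))))))), by decide +kernel⟩

def k14_B00pp_012_s1 : ∃ t, chk3 f_B00pp_012_s1 t 9 118 1 = true :=
  ⟨(a (a (a (a (c (a (l 532356623) (l 532444687)) (a (l 532188175) (l 532290319))) (c (b (l 532301071) (l 532296719)) (a (c (l 532627215) (l 532427791)) (b (l 532508943) (l 532748047))))) (c (a (a (l 532682511) (l 532753423)) (a (l 532820239) (l 532614927))) (b (a (c (l 532871951) (l 532706063)) (a (l 532725775) (l 532640783))) (a (a (l 532842511) (l 532662287)) (a (c (l 532958991) (l 532662799)) (a (l 532659215) (l 532627215))))))) (a (c (a (a (a (l 532928527) (l 532957711)) (l 532730895)) (c (l 532970255) (l 532605967)))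 (c (a (a (b (l 532899087) (l 532904975)) (l 532578063)) (a (l 532529423) (b (l 532741647) (l 532770831)))) (a (a (b (l 532504591) (l 532599311)) (b (l 532447247) (l 532485647))) (a (b (l 532668687) (l 532581647)) (b (l 532629775) (c (l 532707087) (l 532663823))))))) (a (b (c (l 532830479) (c (l 532417551) (a (l 532330511) (l 532575759)))) (c (l 532828943) (c (l 532457487) (a (l 532663311) (l 532648975))))) (c (l 532756751) (c (l 532395023) (a (c (l 532619791) (l 532583951)) (l 532330767))))))) (a (a (a (c (l 532436239) (c (l 532380431) (a (l 532336399) (l 532350223)))) (b (a (c (l 532665103) (l 532598287)) (b (a (l 532615695) (b (l 532608271) (l 3))) (l 3))) (l 3))) (b (a (a (a (a (b (c (l 532633359) (l 532597007)) (l 3)) (l 3)) (l 3)) (l 3)) (l 3)) (l 3))) (l 3))), by decide +kernel⟩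

def k15_B00pp_012_s1 : ∃ t, chk3 f_B00pp_012_s1 t 9 119 1 = true :=
  ⟨(a (a (a (a (a (c (l 532111631) (b (l 532431119) (l 532428815))) (c (l 532458767) (b (l 532531471) (l 532527119)))) (a (c (l 532532495) (c (l 532603151) (l 532652047))) (c (l 532333583) (b (l 532727311) (l 532714767))))) (c (a (a (l 532667407) (b (l 532733199) (l 532725263))) (b (a (l 532793615) (l 532850703)) (a (l 532781839) (l 532833807)))) (a (a (b (l 532816655) (c (l 532763151) (l 532830735))) (b (c (l 532855055) (l 532939535)) (c (l 532827919) (a (l 532885263) (l 532914191))))) (b (a (c (l 532920591) (c (l 532951823) (l 532704527))) (a (l 532661775) (l 532635663))) (a (c (l 532881679) (c (l 532933391) (l 532779791))) (c (l 532928271) (c (l 532904463) (l 532736527)))))))) (a (c (a (a (l 532892431) (l 532669967)) (c (l 532648719) (a (l 532889615) (l 532853775)))) (c (a (a (l 532775951) (b (l 532865039) (l 532874511))) (a (b (l 532559375) (l 532845071))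 (l 532809999))) (b (a (a (l 532693007) (a (l 532798735) (l 532781839))) (a (a (a (l 532636687) (l 532763919)) (l 532754447)) (l 532604943))) (a (a (c (l 532866319) (b (l 532828943) (l 532776207))) (a (b (l 532822031) (l 532836879)) (l 532683023))) (a (c (l 532813327) (l 532791823)) (l 532522255)))))) (a (c (l 532823311) (a (c (l 532790543) (a (l 532623887) (l 532487439))) (b (l 532605199) (l 3)))) (a (b (c (l 532782607) (l 532467471)) (l 3)) (l 3))))) (l 3)), by decide +kernel⟩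

def k16_B00pp_012_s1 : ∃ t, chk3 f_B00pp_012_s1 t 8 120 1 = true :=
  ⟨(a (l 2) (a (a (a (b (l 2) (a (l 2) (l 530887439))) (a (b (l 530936847) (l 531026191)) (b (l 531074575) (l 531159567)))) (a (a (b (l 531206671) (l 531287055)) (b (l 531333391) (l 531408911))) (a (b (l 531454479) (l 531524879)) (b (l 531569679) (l 531634703))))) (a (a (a (b (l 531679247) (l 531738895)) (b (l 531784207) (l 531838223))) (b (a (l 531884815) (l 531981327)) (a (l 531933199) (c (l 532026383) (l 532022543))))) (a (b (a (c (l 532073487) (l 532075023)) (c (l 532164623) (l 532163087))) (a (c (l 532117775) (l 532106767)) (c (l 532204303) (l 532192015)))) (b (a (c (l 532251151) (l 532251919)) (c (l 532332559) (l 532344079))) (a (c (l 532285967) (l 532279567)) (c (l 532362511) (l 532367631)))))))), by decide +kernel⟩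

def k17_B00pp_012_s1 : ∃ t, chk3 f_B00pp_012_s1 t 9 120 1 = true :=
  ⟨(a (a (a (a (a (c (l 532152847) (b (l 532437263) (l 532456207))) (c (l 532221199) (c (l 532526095) (l 532283151)))) (c (a (b (l 532545807) (l 532559119)) (b (l 532607759) (l 532617743))) (a (b (l 532625167) (b (l 532363023) (l 532371215))) (a (b (l 532689679) (l 532687119)) (b (l 532460047) (l 532849679)))))) (a (c (a (b (l 532666895) (l 532672271)) (b (l 532722191) (l 532722703))) (a (b (c (l 532746511) (b (l 532812815) (l 532797199))) (b (l 532757775) (l 532745743))) (b (b (l 532836111) (l 532818191)) (l 532793103)))) (b (c (c (l 532774671) (l 532818959)) (a (c (l 532845327) (c (l 532882447) (l 532773647))) (c (l 532884239) (a (l 532774159) (b (l 532755215) (l 532761871)))))) (b (c (l 532790287) (a (l 532837647) (a (l 532860943) (l 3)))) (l 3))))) (b (a (a (a (c (l 532862479) (a (c (l 532909583) (b (l 532807439) (a (l 532819471) (a (l 532815119) (l 532879631)))))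 (c (l 532902671) (b (c (l 532872207) (l 532851471)) (l 532806159))))) (b (c (l 532906255) (c (l 532880143) (l 532846351))) (l 3))) (l 3)) (l 3)) (l 3))) (l 3)), by decide +kernel⟩

def k18_B00pp_012_s1 : ∃ t, chk3 f_B00pp_012_s1 t 4 121 1 = true :=
  ⟨(b (a (a (l 2) (a (a (a (a (l 530314255) (l 530991119)) (a (l 531125519) (l 531254031))) (a (a (l 531376911) (l 531493647)) (a (l 531604495) (l 531708943)))) (a (a (a (l 531807503) (l 531901199)) (a (c (l 531988751) (l 531993359)) (c (l 532079887) (l 532074255)))) (a (a (c (l 532166415) (l 532156175)) (c (l 532248079) (l 532240143))) (a (c (l 532324623) (l 532323343)) (c (l 532396047) (l 532136719))))))) (a (a (a (a (b (a (l 532465679) (l 532237327)) (a (c (l 532469519) (l 532496911)) (c (l 532258575) (a (l 532558863) (l 532333583))))) (a (c (l 532578575) (c (l 532356879) (l 532658191))) (l 532660751))) (a (a (l 532705295) (l 3)) (l 3))) (l 3)) (l 3))) (a (a (a (l 2) (a (l 2) (a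 (l 2) (a (l 2) (a (l 530794511) (l 530866191)))))) (a (a (a (a (b (l 16730312) (l 16731968)) (b (l 16731704) (l 16730600))) (a (l 530966287) (l 531358735))) (a (a (l 531477007) (l 531588879)) (a (l 531694607) (l 531793423)))) (a (a (a (l 531886607) (c (l 531960079) (l 531991055))) (a (c (l 532050703) (l 532070159)) (a (l 532123151) (l 532164623)))) (a (a (c (l 532218127) (l 532233999)) (l 532036111)) (c (a (l 532365327) (l 532430863)) (a (l 532395279) (l 532471823))))))) (a (a (a (a (b (a (l 532236303) (c (l 532541199) (c (l 532313359) (a (l 532328719) (l 532624655))))) (a (a (l 532515599) (c (l 532512015) (l 532322575))) (l 3))) (a (a (c (l 532589071) (l 532773647)) (l 3)) (l 3))) (l 3)) (l 3)) (l 3)))), by decide +kernel⟩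

def k19_B00pp_012_s1 : ∃ t, chk3 f_B00pp_012_s1 t 16 61 1 = true :=
  ⟨(a (l 2) (a (l 14) (a (l 14) (a (l 14) (a (l 14) (b (b (l 530994703) (l 531128335)) (b (l 531266319) (l 531407375)))))))), by decide +kernel⟩

def k20_B00pp_012_s1 : ∃ t, chk3 f_B00pp_012_s1 t 34 61 1 = true :=
  ⟨(a (a (b (a (b (a (l 531062799) (l 531129615)) (a (l 531194127) (l 531258639))) (b (a (l 531195151) (l 531258895)) (a (l 531321615) (l 531383055)))) (a (b (a (l 531329551) (l 531391503)) (a (l 531467791) (l 531526671))) (b (a (l 531451919) (l 531510799)) (a (l 531584015) (l 531639823))))) (b (a (b (a (l 531321615) (l 531382543)) (a (l 531443215) (l 531501583))) (b (a (l 531441935) (l 531500047)) (a (l 531558671) (l 531614223)))) (a (b (a (l 531568143) (l 531623951)) (a (l 531694095) (l 531747087))) (b (a (l 531678479) (l 531731471)) (a (l 531798543) (l 531848207)))))) (a (b (a (b (a (l 531556623) (l 531611663)) (a (l 531668239) (l 531720719))) (b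 (a (l 531665167) (l 531716879)) (c (l 531741967) (l 531851279)))) (a (b (a (l 531782927) (c (l 531776271) (l 531891727))) (a (l 531896591) (l 532044303))) (b (b (c (l 531822351) (l 531932431)) (a (l 531908367) (l 531954703))) (a (c (l 531941647) (l 532037903)) (l 532032783))))) (a (b (b (c (l 531746575) (l 531836687)) (c (l 531842831) (l 531672335))) (b (c (a (l 531922959) (l 531968783)) (b (l 532018959) (l 531802895))) (a (l 532075023) (b (l 532091407) (l 3))))) (b (b (c (l 531847439) (l 531922703)) (c (l 531937807) (l 531753487))) (b (c (a (l 532013071) (l 532055567)) (a (l 532103951) (b (l 532115471) (l 532164879)))) (b (c (a (l 532089359) (l 532131087)) (a (l 532173583) (l 532219663))) (l 3))))))), by decide +kernel⟩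

def k21_B00pp_012_s1 : ∃ t, chk3 f_B00pp_012_s1 t 35 61 1 = true :=
  ⟨(a (b (a (a (b (c (l 531942671) (l 532002319)) (c (l 532026639) (a (l 532078607) (l 532115727)))) (b (c (l 532032527) (l 531811343)) (c (l 531708943) (a (l 532156943) (l 532198159))))) (a (b (c (l 532118031) (a (l 532141327) (l 532182287))) (b (l 531934223) (l 532247567))) (a (b (l 532200975) (l 532284687)) (b (l 532241167) (l 532322831))))) (b (a (a (c (a (l 532097807) (l 532138767)) (a (l 531911183) (l 531952911))) (c (l 532196879) (l 532015119))) (a (c (l 532270607) (l 532097295)) (l 3))) (l 3))) (b (b (a (a (l 532030735) (c (l 532344335) (l 532404751))) (a (c (l 532409103) (l 532481551)) (b (l 532495631) (l 3)))) (a (a (c (l 532335375) (l 532421391)) (l 3)) (l 3))) (l 3))), by decide +kernel⟩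

def k22_B00pp_012_s1 : ∃ t, chk3 f_B00pp_012_s1 t 9 61 1 = true :=
  ⟨(l 3), by decide +kernel⟩

def k23_B00pp_012_s1 : ∃ t, chk3 f_B00pp_012_s1 t 4 31 1 = true :=
  ⟨(a (a (a (l 14) (a (l 14) (a (l 14) (b (a (l 14) (a (l 14) (a (l 14) (a (l 14) (a (l 14) (b (b (l 531581455) (l 531736079)) (l 3))))))) (l 3))))) (b (b (a (a (a (a (b (a (b (l 531575567) (l 531650063)) (b (l 531631887) (l 531704847))) (a (a (l 531752719) (l 531779087)) (a (l 531872271) (l 531898127)))) (b (a (b (l 531686927) (l 531758095)) (b (l 531740431) (l 531809807))) (a (c (l 531825167) (b (l 531878415) (l 531948303))) (b (l 531880975) (l 3))))) (a (b (a (b (l 531792399) (l 531859983)) (b (l 531842575) (l 531908623))) (b (a (l 531929615) (a (l 531965199) (l 3))) (l 3))) (b (b (a (l 531891471) (l 531938831)) (a (l 531955727) (l 532001551))) (l 3)))) (b (b (a (a (a (l 532018191) (c (l 531986959) (l 532072463))) (a (l 532071695) (l 3))) (l 3)) (l 3)) (l 3))) (l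 3)) (l 3)) (l 3))) (l 3)), by decide +kernel⟩

def k24_B00pp_012_s1 : ∃ t, chk3 f_B00pp_012_s1 t 5 7 1 = true :=
  ⟨(a (b (b (a (a (b (a (a (b (l 532167439) (l 532123663)) (c (l 532355855) (l 532075791))) (c (l 532256783) (a (l 532020751) (l 531968527)))) (a (c (l 532031759) (c (l 532022287) (a (l 532043023) (l 531991823)))) (b (c (l 532203279) (l 532204047)) (l 3)))) (a (b (c (l 532143119) (c (l 532156687) (l 531897615))) (c (l 531819791) (c (l 532090895) (b (l 531842063) (l 3))))) (b (c (l 531780111) (c (l 532064527) (l 531807503))) (l 3)))) (b (a (a (b (l 531721999) (l 3)) (l 3)) (l 3)) (l 3))) (l 3)) (l 3)) (l 3)), by decide +kernel⟩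

def k25_B00pp_012_s1 : ∃ t, chk3 f_B00pp_012_s1 t 3 2 1 = true :=
  ⟨(a (b (a (a (b (l 6) (b (a (l 6) (l 16548840)) (a (l 16566264) (l 16574456)))) (b (a (l 6) (l 16524384)) (b (a (l 16555456) (l 16562896)) (a (l 16583208) (l 16592792))))) (a (a (b (l 16529408) (b (l 16571072) (l 16603144))) (b (l 16535824) (b (l 16580720) (l 16573120)))) (b (a (l 16460576) (l 16471248)) (b (a (l 16592736) (l 16606736)) (a (l 532109583) (l 531676687)))))) (a (a (b (a (b (l 16508912) (b (l 16614776) (l 16630552))) (b (b (l 16595608) (l 16610672)) (b (l 16626656) (l 16643512)))) (b (a (b (l 16563328) (l 532433679)) (b (l 16619312) (l 532280335))) (a (l 531678223) (b (l 532139023) (l 531975183))))) (b (a (b (l 16572160) (l 532419855)) (b (l 532462863) (l 532228367))) (b (a (l 532172303) (l 531973903)) (a (b (l 531963919) (l 531795983)) (l 531691279))))) (b (a (b (a (l 532255759) (l 532048655)) (a (l 532003855) (l 531800335))) (a (b (l 531875855)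 (l 531625743)) (b (l 531708431) (l 531457807)))) (a (b (a (l 531455247) (l 531538959)) (a (l 530909455) (l 531261967))) (b (l 531277839) (c (l 531051535) (l 530947855))))))) (b (a (b (a (b (l 16472112) (l 531609615)) (a (c (l 16516008) (l 16508096)) (l 531856655))) (a (b (l 531392783) (c (l 531777551) (l 531625487))) (a (b (l 531689743) (l 531458063)) (b (l 531529487) (l 531294991))))) (b (a (b (l 531725071) (l 531511055)) (a (l 531100431) (l 530927631))) (a (b (l 531285007) (l 530777103)) (b (c (l 530691087) (l 530654735)) (a (l 530784527) (l 3)))))) (a (b (b (a (c (l 531527695) (l 531395855)) (a (a (l 530986255) (l 531171855)) (l 531046927))) (a (a (l 531290639) (l 530854927)) (a (l 530953743) (l 3)))) (a (b (a (l 531022095) (l 3)) (l 3)) (l 3))) (b (a (b (l 530790671) (l 3)) (l 3)) (l 3))))), by decide +kernel⟩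

def k26_B00pp_012_s1 : ∃ t, chk3 f_B00pp_012_s1 t 3 3 1 = true :=
  ⟨(b (a (b (a (a (b (a (l 531882767) (l 531712015)) (a (b (l 531636495) (c (l 531470095) (l 531481359))) (b (l 531450639) (l 3)))) (b (a (l 531519247) (l 531299343)) (l 3))) (l 3)) (l 3)) (l 3)) (l 3)), by decide +kernel⟩

theorem t27_B00pp_012_s1 : ∃ t, chk3 f_B00pp_012_s1 t 3 1 1 = true := ex3_b k25_B00pp_012_s1 k26_B00pp_012_s1

theorem t28_B00pp_012_s1 : ∃ t, chk3 f_B00pp_012_s1 t 17 61 1 = true := ex3_a k20_B00pp_012_s1 k21_B00pp_012_s1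

theorem t29_B00pp_012_s1 : ∃ t, chk3 f_B00pp_012_s1 t 8 61 1 = true := ex3_a k19_B00pp_012_s1 t28_B00pp_012_s1

theorem t30_B00pp_012_s1 : ∃ t, chk3 f_B00pp_012_s1 t 4 61 1 = true := ex3_a t29_B00pp_012_s1 k22_B00pp_012_s1

theorem t31_B00pp_012_s1 : ∃ t, chk3 f_B00pp_012_s1 t 4 120 1 = true := ex3_a k16_B00pp_012_s1 k17_B00pp_012_s1

theorem t32_B00pp_012_s1 : ∃ t, chk3 f_B00pp_012_s1 t 4 60 1 = true := ex3_b t31_B00pp_012_s1 k18_B00pp_012_s1

theorem t33_B00pp_012_s1 : ∃ t, chk3 f_B00pp_012_s1 t 4 30 1 = true := ex3_b t32_B00pp_012_s1 t30_B00pp_012_s1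

theorem t34_B00pp_012_s1 : ∃ t, chk3 f_B00pp_012_s1 t 4 15 1 = true := ex3_b t33_B00pp_012_s1 k23_B00pp_012_s1

theorem t35_B00pp_012_s1 : ∃ t, chk3 f_B00pp_012_s1 t 9 59 1 = true := ex3_b k14_B00pp_012_s1 k15_B00pp_012_s1

theorem t36_B00pp_012_s1 : ∃ t, chk3 f_B00pp_012_s1 t 4 59 1 = true := ex3_a k13_B00pp_012_s1 t35_B00pp_012_s1

theorem t37_B00pp_012_s1 : ∃ t, chk3 f_B00pp_012_s1 t 18 58 1 = true := ex3_a k10_B00pp_012_s1 k11_B00pp_012_s1

theorem t38_B00pp_012_s1 : ∃ t, chk3 f_B00pp_012_s1 t 9 58 1 = true := ex3_a t37_B00pp_012_s1 k12_B00pp_012_s1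

theorem t39_B00pp_012_s1 : ∃ t, chk3 f_B00pp_012_s1 t 4 58 1 = true := ex3_a k9_B00pp_012_s1 t38_B00pp_012_s1

theorem t40_B00pp_012_s1 : ∃ t, chk3 f_B00pp_012_s1 t 4 29 1 = true := ex3_b t39_B00pp_012_s1 t36_B00pp_012_s1

theorem t41_B00pp_012_s1 : ∃ t, chk3 f_B00pp_012_s1 t 9 57 1 = true := ex3_a k7_B00pp_012_s1 k8_B00pp_012_s1

theorem t42_B00pp_012_s1 : ∃ t, chk3 f_B00pp_012_s1 t 4 57 1 = true := ex3_a k6_B00pp_012_s1 t41_B00pp_012_s1

theorem t43_B00pp_012_s1 : ∃ t, chk3 f_B00pp_012_s1 t 4 28 1 = true := ex3_b k5_B00pp_012_s1 t42_B00pp_012_s1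

theorem t44_B00pp_012_s1 : ∃ t, chk3 f_B00pp_012_s1 t 4 14 1 = true := ex3_b t43_B00pp_012_s1 t40_B00pp_012_s1

theorem t45_B00pp_012_s1 : ∃ t, chk3 f_B00pp_012_s1 t 4 7 1 = true := ex3_b t44_B00pp_012_s1 t34_B00pp_012_s1

theorem t46_B00pp_012_s1 : ∃ t, chk3 f_B00pp_012_s1 t 2 7 1 = true := ex3_a t45_B00pp_012_s1 k24_B00pp_012_s1

theorem t47_B00pp_012_s1 : ∃ t, chk3 f_B00pp_012_s1 t 5 13 1 = true := ex3_a k3_B00pp_012_s1 k4_B00pp_012_s1

theorem t48_B00pp_012_s1 : ∃ t, chk3 f_B00pp_012_s1 t 2 13 1 = true := ex3_a k2_B00pp_012_s1 t47_B00pp_012_s1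

theorem t49_B00pp_012_s1 : ∃ t, chk3 f_B00pp_012_s1 t 2 6 1 = true := ex3_b k1_B00pp_012_s1 t48_B00pp_012_s1

theorem t50_B00pp_012_s1 : ∃ t, chk3 f_B00pp_012_s1 t 2 3 1 = true := ex3_b t49_B00pp_012_s1 t46_B00pp_012_s1

theorem t51_B00pp_012_s1 : ∃ t, chk3 f_B00pp_012_s1 t 2 1 1 = true := ex3_b k0_B00pp_012_s1 t50_B00pp_012_s1

theorem t52_B00pp_012_s1 : ∃ t, chk3 f_B00pp_012_s1 t 1 1 1 = true := ex3_a t51_B00pp_012_s1 t27_B00pp_012_s1

theorem c_B00pp_012_s1 : CertF 0 536870912 0 536870912 966367641 24778659 false true true .pnp 0 1 2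
    ndB0q0 ndB0q2 pcB1 cut_B00pp_012_s1 xt_B00pp_012_s1 :=
  certF0 (fam := false) (s1 := true) (s2 := true) (a := 0) (b := 1) (c := 2) (cn := .pnp) (n1 := ndB0q0) (n2 := ndB0q2) (pc := pcB1) (cut := cut_B00pp_012_s1) (xt := xt_B00pp_012_s1) (P1 := 0) (W1 := 536870912) (P2 := 0) (W2 := 536870912) (P3 := 966367641) (W3 := 24778659)
    rfl t52_B00pp_012_s1

theorem s_B00pp_012_s1 {κ x : ℝ} (hκ : κ * h0 = ken x) (hx : ((966367641 : ℕ) : ℝ) / S ≤ x)
    (hx' : x ≤ (((966367641 : ℕ) : ℝ) + (24778659 : ℕ)) / S)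
    (H : CutB (VFD κ) PP tK tL pcB (Cut.of [[⟨0, 0, 0, 33554432⟩, ⟨1, 1, 0, 33554432⟩, ⟨2, 1, 0, 33554432⟩]]) 0 1 2 0 0 (sgb true) (sgb true) x) :
    AltB (VFD κ) PP tK tL pcB [⟨3, 0, 0, 1449551462⟩] 0 1 2 0 0 (sgb true) (sgb true) x :=
  strip_altBD (m := 1449551462) true rfl hκ (SH.κ0 hκ (SH.hx1 hx).le (SH.hx2 hx').le) (SH.hx1 hx).le (SH.hx2 hx') (covB00).cov (covB02).cov hx hx' c_B00pp_012_s1 H ((okx hx hx').extB (T := tt) (sideB hx hx') hκ rfl rfl (.O 0 true) (.O 2 true) (Or.inr rfl))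

noncomputable def cut_B00pp_012_s3 : Cut := Cut.of [[⟨3, 0, 0, 2845415833⟩], [⟨0, 0, 0, 33554432⟩, ⟨1, 1, 0, 33554432⟩, ⟨2, 1, 0, 33554432⟩]]

noncomputable def f_B00pp_012_s3 : ℕ → ℕ → ℕ → ℕ → Bool := onCell 0 536870912 0 536870912 966367641 24778659
    (rowF 0 false true true .pnp 0 1 2 (qsf 0 536870912 0 536870912 1) ndB0q0 ndB0q2 pcB1 cut_B00pp_012_s3 Ext.none)

def k0_B00pp_012_s3 : ∃ t, chk3 f_B00pp_012_s3 t 1 1 1 = true :=
  ⟨(l 6), by decide +kernel⟩

theorem c_B00pp_012_s3 : CertF 0 536870912 0 536870912 966367641 24778659 false true true .pnp 0 1 2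
    ndB0q0 ndB0q2 pcB1 cut_B00pp_012_s3 Ext.none :=
  certF0 (fam := false) (s1 := true) (s2 := true) (a := 0) (b := 1) (c := 2) (cn := .pnp) (n1 := ndB0q0) (n2 := ndB0q2) (pc := pcB1) (cut := cut_B00pp_012_s3) (xt := Ext.none) (P1 := 0) (W1 := 536870912) (P2 := 0) (W2 := 536870912) (P3 := 966367641) (W3 := 24778659)
    rfl k0_B00pp_012_s3

theorem s_B00pp_012_s3 {κ x : ℝ} (hκ : κ * h0 = ken x) (hx : ((966367641 : ℕ) : ℝ) / S ≤ x)
    (hx' : x ≤ (((966367641 : ℕ) : ℝ) + (24778659 : ℕ)) / S)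
    (H : CutB (VFD κ) PP tK tL pcB (Cut.of [[⟨0, 0, 0, 33554432⟩, ⟨1, 1, 0, 33554432⟩, ⟨2, 1, 0, 33554432⟩]]) 0 1 2 0 0 (sgb true) (sgb true) x) :
    AltB (VFD κ) PP tK tL pcB [⟨4, 0, 0, 2845415833⟩] 0 1 2 0 0 (sgb true) (sgb true) x :=
  strip_altBD (m := 2845415833) false rfl hκ (SH.κ0 hκ (SH.hx1 hx).le (SH.hx2 hx').le) (SH.hx1 hx).le (SH.hx2 hx') (covB00).cov (covB02).cov hx hx' c_B00pp_012_s3 H (noExt_B)

noncomputable def cut_B00pp_022_s1 : Cut := Cut.of [[⟨4, 0, 0, 1449551462⟩], [⟨0, 0, 0, 53687091⟩, ⟨1, 1, 0, 53687091⟩, ⟨2, 1, 0, 53687091⟩]]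

noncomputable def f_B00pp_022_s1 : ℕ → ℕ → ℕ → ℕ → Bool := onCell 1073741824 536870912 0 536870912 966367641 24778659
    (rowF 2 false true true .pp 0 2 2 (qsf 0 536870912 0 536870912 2) ndB0q0 ndB0q2 pcB2 cut_B00pp_022_s1 Ext.none)

def k0_B00pp_022_s1 : ∃ t, chk3 f_B00pp_022_s1 t 4 2 1 = true :=
  ⟨(a (b (l 6) (a (b (l 6) (b (l 6) (b (a (a (c (l 16560440) (l 16533112)) (l 16562304)) (l 6)) (a (a (c (b (l 16567888) (l 16583624)) (b (l 16538688) (l 16584584))) (b (l 16607248) (l 16567208))) (a (l 16538912) (l 16552152)))))) (l 6))) (l 6)), by decide +kernel⟩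

def k1_B00pp_022_s1 : ∃ t, chk3 f_B00pp_022_s1 t 16 12 1 = true :=
  ⟨(a (b (a (b (a (c (b (l 16594184) (l 16599992)) (b (l 16583584) (l 16588088))) (a (l 16599576) (l 16587032))) (a (c (b (a (l 16603272) (l 16629928)) (a (b (l 16608008) (l 16611256)) (l 16594440))) (b (l 16613896) (a (l 16616168) (l 16642888)))) (c (l 16617776) (l 16611968)))) (a (b (l 16597648) (a (l 16604040) (l 16575712))) (b (l 16604504) (l 16585488)))) (a (a (b (c (c (a (b (l 16625488) (l 16632664)) (l 16624504)) (a (b (l 16628048) (l 16634624)) (l 16626792))) (b (a (b (l 16620160) (l 16622920)) (l 16646992)) (a (b (l 16636224) (l 16639128)) (l 16649008)))) (c (c (a (b (l 16640104) (l 16647784)) (l 16642896)) (a (b (a (l 16639952) (l 16653504)) (l 16648648)) (l 16652672))) (a (b (a (b (l 16640552) (l 16643600)) (l 16645216)) (a (c (l 16647920) (l 16648800)) (l 16647904))) (b (l 16640296) (l 16641792))))) (c (b (a (l 16644104) (l 16636552)) (a (b (l 16644968)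 (l 16645304)) (l 16637176))) (b (a (l 16629984) (l 16611880)) (a (c (l 16622904) (l 16632504)) (l 16624720))))) (c (b (a (l 16604056) (l 16609344)) (a (l 16604072) (l 16608576))) (b (a (l 16600168) (l 16605120)) (a (a (l 16626856) (l 16618400)) (l 16605512)))))) (b (a (b (a (l 16590032) (l 16575272)) (a (l 16591128) (l 16575408))) (b (l 16552280) (l 16509200))) (a (b (a (l 16570048) (l 16574408)) (a (c (l 16591800) (l 16587976)) (l 16572432))) (b (a (l 16557472) (l 16540224)) (a (l 16554648) (l 16536600)))))), by decide +kernel⟩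

def k2_B00pp_022_s1 : ∃ t, chk3 f_B00pp_022_s1 t 16 13 1 = true :=
  ⟨(b (a (a (a (b (b (a (c (c (l 16651256) (l 16651344)) (c (l 16651416) (l 16656736))) (c (l 16643200) (l 16643016))) (a (c (l 16659632) (b (l 16660312) (l 16653040))) (c (l 16653944) (l 16644016)))) (c (a (b (a (l 16654240) (l 16660488)) (l 16652504)) (b (l 16654088) (l 16654264))) (b (a (b (l 16653584) (l 16643592)) (l 16655280)) (a (l 16654768) (l 16655936))))) (b (c (a (l 16635032) (l 16637136)) (a (b (l 16644952) (l 16645656)) (l 16636504))) (b (a (c (l 16645488) (l 16646152)) (l 16636856)) (c (l 16641032) (l 16641776))))) (c (b (a (l 16624408) (l 16607184)) (a (b (l 16623648) (l 16623136)) (l 16605384))) (b (a (a (l 16627592) (l 16618576)) (l 16604872)) (a (b (l 16622880) (l 16622568)) (l 16603432))))) (a (b (a (a (l 16550592) (l 16541496)) (l 16569664)) (a (b (l 16586168) (l 16584888)) (a (l 16529224) (l 16519600)))) (b (a (l 16551056) (l 16448360)) (a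 (l 16547016) (l 16485568))))) (a (b (a (a (a (c (b (l 16663648) (l 16664624)) (b (l 16666224) (l 16667248))) (c (b (l 16654720) (l 16655504)) (l 16646480))) (c (a (l 16645960) (l 16615824)) (a (l 16647128) (l 16637208)))) (a (c (l 16622928) (l 16622176)) (c (l 16562296) (l 16601856)))) (a (a (c (a (b (l 16665928) (l 16667552)) (l 16657272)) (b (l 16642320) (l 16664368))) (c (b (l 16642512) (l 16643680)) (l 16643040))) (c (a (l 16623864) (l 16604480)) (a (l 16622064) (l 16600944))))) (a (c (b (l 16575784) (l 16575072)) (b (l 16581536) (l 16568944))) (b (a (l 16501512) (l 16439448)) (c (l 16535392) (l 16526088)))))), by decide +kernel⟩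

def k3_B00pp_022_s1 : ∃ t, chk3 f_B00pp_022_s1 t 17 6 1 = true :=
  ⟨(b (a (b (a (b (l 16520424) (l 16517680)) (b (l 16487376) (l 16483152))) (a (b (l 16513816) (c (l 16513072) (l 16505032))) (b (l 16477912) (l 16471864)))) (b (a (l 16450680) (l 16415560)) (a (b (l 16441432) (l 16434256)) (a (l 16325960) (l 16307232))))) (a (b (a (b (c (l 16507992) (l 16499432)) (c (l 16502680) (l 16493384))) (b (l 16465304) (l 16458472))) (c (a (a (l 16422512) (l 16402664)) (l 16414768)) (a (b (l 16487696) (l 16482864)) (l 16442352)))) (b (a (b (l 16426560) (l 16418664)) (c (l 16306688) (l 16375344))) (a (b (l 16327600) (l 16321944)) (b (l 16286960) (l 16280680)))))), by decide +kernel⟩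

def k4_B00pp_022_s1 : ∃ t, chk3 f_B00pp_022_s1 t 8 7 1 = true :=
  ⟨(b (a (b (a (b (a (c (a (a (l 16670584) (l 16660808)) (l 16646032)) (a (l 16666248) (l 16644624))) (a (c (l 16626184) (l 16622808)) (l 16603568))) (b (a (a (l 16669032) (l 16647856)) (c (l 16618648) (l 16613008))) (a (a (l 16650928) (l 16650192)) (c (l 16620728) (l 16614224))))) (c (a (b (l 16575872) (l 16578528)) (b (l 16535184) (l 16537000))) (a (b (l 16567960) (l 16568424)) (b (l 16523648) (l 16480840))))) (b (b (a (a (a (l 16676192) (l 16653920)) (l 16630888)) (a (l 16575672) (l 16531040))) (b (a (a (a (l 16679568) (l 16656840)) (l 16622720)) (a (l 16577288) (l 16532120))) (l 14))) (l 14))) (b (b (a (a (l 16486840) (l 16444240)) (a (a (l 16328608) (l 16307600)) (c (l 16289776) (l 16262720)))) (a (a (b (l 16486176) (c (l 16411944) (l 16392600))) (b (b (l 16443192) (l 16401040)) (c (l 16412816) (b (l 16347160) (l 16346656))))) (a (b (c (l 16329584) (l 16303256))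 (a (c (l 16382456) (l 16354984)) (b (l 16368656) (c (l 16404592) (l 16332248))))) (b (c (l 16331912) (l 16322040)) (c (a (b (l 16384344) (l 16342968)) (l 230350267847)) (a (b (l 16352688) (b (l 16352192) (l 16351912))) (l 255046270775))))))) (b (a (b (a (l 16444808) (a (l 16370024) (l 16390296))) (b (a (l 16403568) (a (l 16454432) (l 16390752))) (l 14))) (a (c (b (l 9696443751) (a (l 16384512) (l 16406536))) (b (b (l 16343056) (l 16363816)) (a (l 16364568) (l 16373560)))) (b (c (l 16344376) (a (l 16351496) (l 1))) (l 1)))) (a (l 14) (a (a (a (l 14) (l 1)) (l 1)) (l 1)))))) (a (l 14) (a (l 14) (l 1)))), by decide +kernel⟩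

def k5_B00pp_022_s1 : ∃ t, chk3 f_B00pp_022_s1 t 9 3 1 = true :=
  ⟨(b (b (a (b (l 6) (a (a (l 16362992) (l 16241664)) (a (l 16204536) (l 6)))) (l 6)) (a (b (a (a (a (l 16269680) (l 16250128)) (b (l 16310248) (l 16300072))) (c (c (l 16181288) (l 16169832)) (l 16236176))) (a (c (b (l 16238504) (b (l 16234832) (l 16233192))) (a (l 16230944) (l 31171017911))) (b (c (l 16164632) (l 16134720)) (l 1)))) (a (b (b (l 279742066343) (l 1)) (l 1)) (l 1)))) (b (a (a (b (b (c (a (l 16292960) (l 16255408)) (a (l 16272224) (l 16219904))) (a (b (c (l 16298640) (l 16268416)) (l 1)) (l 1))) (l 1)) (l 1)) (l 1)) (l 1))), by decide +kernel⟩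

def k6_B00pp_022_s1 : ∃ t, chk3 f_B00pp_022_s1 t 5 1 1 = true :=
  ⟨(b (l 6) (b (l 1) (l 1))), by decide +kernel⟩

def k7_B00pp_022_s1 : ∃ t, chk3 f_B00pp_022_s1 t 3 1 1 = true :=
  ⟨(l 1), by decide +kernel⟩

theorem t8_B00pp_022_s1 : ∃ t, chk3 f_B00pp_022_s1 t 16 6 1 = true := ex3_b k1_B00pp_022_s1 k2_B00pp_022_s1

theorem t9_B00pp_022_s1 : ∃ t, chk3 f_B00pp_022_s1 t 8 6 1 = true := ex3_a t8_B00pp_022_s1 k3_B00pp_022_s1

theorem t10_B00pp_022_s1 : ∃ t, chk3 f_B00pp_022_s1 t 8 3 1 = true := ex3_b t9_B00pp_022_s1 k4_B00pp_022_s1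

theorem t11_B00pp_022_s1 : ∃ t, chk3 f_B00pp_022_s1 t 4 3 1 = true := ex3_a t10_B00pp_022_s1 k5_B00pp_022_s1

theorem t12_B00pp_022_s1 : ∃ t, chk3 f_B00pp_022_s1 t 4 1 1 = true := ex3_b k0_B00pp_022_s1 t11_B00pp_022_s1

theorem t13_B00pp_022_s1 : ∃ t, chk3 f_B00pp_022_s1 t 2 1 1 = true := ex3_a t12_B00pp_022_s1 k6_B00pp_022_s1

theorem t14_B00pp_022_s1 : ∃ t, chk3 f_B00pp_022_s1 t 1 1 1 = true := ex3_a t13_B00pp_022_s1 k7_B00pp_022_s1

theorem c_B00pp_022_s1 : CertF 0 536870912 0 536870912 966367641 24778659 false true true .pp 0 2 2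
    ndB0q0 ndB0q2 pcB2 cut_B00pp_022_s1 Ext.none :=
  certF2 (fam := false) (s1 := true) (s2 := true) (a := 0) (b := 2) (c := 2) (cn := .pp) (n1 := ndB0q0) (n2 := ndB0q2) (pc := pcB2) (cut := cut_B00pp_022_s1) (xt := Ext.none) (P1 := 0) (W1 := 536870912) (P2 := 0) (W2 := 536870912) (P3 := 966367641) (W3 := 24778659)
    rfl (fun _ => rfl) t14_B00pp_022_s1

theorem s_B00pp_022_s1 {κ x : ℝ} (hκ : κ * h0 = ken x) (hx : ((966367641 : ℕ) : ℝ) / S ≤ x)
    (hx' : x ≤ (((966367641 : ℕ) : ℝ) + (24778659 : ℕ)) / S)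
    (H : CutB (VFD κ) PP tK tL pcB (Cut.of [[⟨0, 0, 0, 53687091⟩, ⟨1, 1, 0, 53687091⟩, ⟨2, 1, 0, 53687091⟩]]) 0 2 2 0 0 (sgb true) (sgb true) x) :
    AltB (VFD κ) PP tK tL pcB [⟨3, 0, 0, 1449551462⟩] 0 2 2 0 0 (sgb true) (sgb true) x :=
  strip_altBD (m := 1449551462) true rfl hκ (SH.κ0 hκ (SH.hx1 hx).le (SH.hx2 hx').le) (SH.hx1 hx).le (SH.hx2 hx') (covB00).cov (covB02).cov hx hx' c_B00pp_022_s1 H (noExt_B)

noncomputable def cut_B00pp_022_s3 : Cut := Cut.of [[⟨3, 0, 0, 2845415833⟩], [⟨0, 0, 0, 53687091⟩, ⟨1, 1, 0, 53687091⟩, ⟨2, 1, 0, 53687091⟩]]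

noncomputable def f_B00pp_022_s3 : ℕ → ℕ → ℕ → ℕ → Bool := onCell 0 536870912 0 536870912 966367641 24778659
    (rowF 0 false true true .pp 0 2 2 (qsf 0 536870912 0 536870912 2) ndB0q0 ndB0q2 pcB2 cut_B00pp_022_s3 Ext.none)

def k0_B00pp_022_s3 : ∃ t, chk3 f_B00pp_022_s3 t 1 1 1 = true :=
  ⟨(l 6), by decide +kernel⟩

theorem c_B00pp_022_s3 : CertF 0 536870912 0 536870912 966367641 24778659 false true true .pp 0 2 2
    ndB0q0 ndB0q2 pcB2 cut_B00pp_022_s3 Ext.none :=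
  certF0 (fam := false) (s1 := true) (s2 := true) (a := 0) (b := 2) (c := 2) (cn := .pp) (n1 := ndB0q0) (n2 := ndB0q2) (pc := pcB2) (cut := cut_B00pp_022_s3) (xt := Ext.none) (P1 := 0) (W1 := 536870912) (P2 := 0) (W2 := 536870912) (P3 := 966367641) (W3 := 24778659)
    rfl k0_B00pp_022_s3

theorem s_B00pp_022_s3 {κ x : ℝ} (hκ : κ * h0 = ken x) (hx : ((966367641 : ℕ) : ℝ) / S ≤ x)
    (hx' : x ≤ (((966367641 : ℕ) : ℝ) + (24778659 : ℕ)) / S)
    (H : CutB (VFD κ) PP tK tL pcB (Cut.of [[⟨0, 0, 0, 53687091⟩, ⟨1, 1, 0, 53687091⟩, ⟨2, 1, 0, 53687091⟩]]) 0 2 2 0 0 (sgb true) (sgb true) x) :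
    AltB (VFD κ) PP tK tL pcB [⟨4, 0, 0, 2845415833⟩] 0 2 2 0 0 (sgb true) (sgb true) x :=
  strip_altBD (m := 2845415833) false rfl hκ (SH.κ0 hκ (SH.hx1 hx).le (SH.hx2 hx').le) (SH.hx1 hx).le (SH.hx2 hx') (covB00).cov (covB02).cov hx hx' c_B00pp_022_s3 H (noExt_B)

noncomputable def cut_B00pp_101_s1 : Cut := Cut.of [[⟨4, 0, 0, 1449551462⟩]]

noncomputable def f_B00pp_101_s1 : ℕ → ℕ → ℕ → ℕ → Bool := onCell 536870912 536870912 536870912 536870912 966367641 24778659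
    (rowF 0 false true true .npn 1 0 1 (qsf 536870912 536870912 536870912 536870912 0) ndB0q1 ndB0q1 pcB0 cut_B00pp_101_s1 Ext.none)

def k0_B00pp_101_s1 : ∃ t, chk3 f_B00pp_101_s1 t 1 1 1 = true :=
  ⟨(l 3), by decide +kernel⟩

theorem c_B00pp_101_s1 : CertF 536870912 536870912 536870912 536870912 966367641 24778659 false true true .npn 1 0 1
    ndB0q1 ndB0q1 pcB0 cut_B00pp_101_s1 Ext.none :=
  certF0 (fam := false) (s1 := true) (s2 := true) (a := 1) (b := 0) (c := 1) (cn := .npn) (n1 := ndB0q1) (n2 := ndB0q1) (pc := pcB0) (cut := cut_B00pp_101_s1) (xt := Ext.none) (P1 := 536870912) (W1 := 536870912) (P2 := 536870912) (W2 := 536870912) (P3 := 966367641) (W3 := 24778659)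
    rfl k0_B00pp_101_s1

theorem s_B00pp_101_s1 {κ x : ℝ} (hκ : κ * h0 = ken x) (hx : ((966367641 : ℕ) : ℝ) / S ≤ x)
    (hx' : x ≤ (((966367641 : ℕ) : ℝ) + (24778659 : ℕ)) / S) :
    AltB (VFD κ) PP tK tL pcB [⟨3, 0, 0, 1449551462⟩] 1 0 1 0 0 (sgb true) (sgb true) x :=
  strip_altBD (m := 1449551462) true rfl hκ (SH.κ0 hκ (SH.hx1 hx).le (SH.hx2 hx').le) (SH.hx1 hx).le (SH.hx2 hx') (covB01).cov (covB01).cov hx hx' c_B00pp_101_s1 cutB_nil (noExt_B)

noncomputable def cut_B00pp_101_s3 : Cut := Cut.of [[⟨3, 0, 0, 2845415833⟩]]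

noncomputable def f_B00pp_101_s3 : ℕ → ℕ → ℕ → ℕ → Bool := onCell 536870912 536870912 536870912 536870912 966367641 24778659
    (rowF 0 false true true .npn 1 0 1 (qsf 536870912 536870912 536870912 536870912 0) ndB0q1 ndB0q1 pcB0 cut_B00pp_101_s3 Ext.none)

def k0_B00pp_101_s3 : ∃ t, chk3 f_B00pp_101_s3 t 1 1 1 = true :=
  ⟨(l 3), by decide +kernel⟩

theorem c_B00pp_101_s3 : CertF 536870912 536870912 536870912 536870912 966367641 24778659 false true true .npn 1 0 1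
    ndB0q1 ndB0q1 pcB0 cut_B00pp_101_s3 Ext.none :=
  certF0 (fam := false) (s1 := true) (s2 := true) (a := 1) (b := 0) (c := 1) (cn := .npn) (n1 := ndB0q1) (n2 := ndB0q1) (pc := pcB0) (cut := cut_B00pp_101_s3) (xt := Ext.none) (P1 := 536870912) (W1 := 536870912) (P2 := 536870912) (W2 := 536870912) (P3 := 966367641) (W3 := 24778659)
    rfl k0_B00pp_101_s3

theorem s_B00pp_101_s3 {κ x : ℝ} (hκ : κ * h0 = ken x) (hx : ((966367641 : ℕ) : ℝ) / S ≤ x)
    (hx' : x ≤ (((966367641 : ℕ) : ℝ) + (24778659 : ℕ)) / S) :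
    AltB (VFD κ) PP tK tL pcB [⟨4, 0, 0, 2845415833⟩] 1 0 1 0 0 (sgb true) (sgb true) x :=
  strip_altBD (m := 2845415833) false rfl hκ (SH.κ0 hκ (SH.hx1 hx).le (SH.hx2 hx').le) (SH.hx1 hx).le (SH.hx2 hx') (covB01).cov (covB01).cov hx hx' c_B00pp_101_s3 cutB_nil (noExt_B)

noncomputable def cut_B00pp_102_s1 : Cut := Cut.of [[⟨4, 0, 0, 1449551462⟩]]

noncomputable def f_B00pp_102_s1 : ℕ → ℕ → ℕ → ℕ → Bool := onCell 0 536870912 0 536870912 966367641 24778659
    (rowF 2 false true true .npp 1 0 2 (qsf 536870912 536870912 0 536870912 0) ndB0q1 ndB0q2 pcB0 cut_B00pp_102_s1 Ext.none)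

def k0_B00pp_102_s1 : ∃ t, chk3 f_B00pp_102_s1 t 1 1 1 = true :=
  ⟨(a (b (l 3) (l 3)) (l 3)), by decide +kernel⟩

theorem c_B00pp_102_s1 : CertF 536870912 536870912 0 536870912 966367641 24778659 false true true .npp 1 0 2
    ndB0q1 ndB0q2 pcB0 cut_B00pp_102_s1 Ext.none :=
  certF2 (fam := false) (s1 := true) (s2 := true) (a := 1) (b := 0) (c := 2) (cn := .npp) (n1 := ndB0q1) (n2 := ndB0q2) (pc := pcB0) (cut := cut_B00pp_102_s1) (xt := Ext.none) (P1 := 536870912) (W1 := 536870912) (P2 := 0) (W2 := 536870912) (P3 := 966367641) (W3 := 24778659)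
    rfl (fun _ => rfl) k0_B00pp_102_s1

theorem s_B00pp_102_s1 {κ x : ℝ} (hκ : κ * h0 = ken x) (hx : ((966367641 : ℕ) : ℝ) / S ≤ x)
    (hx' : x ≤ (((966367641 : ℕ) : ℝ) + (24778659 : ℕ)) / S) :
    AltB (VFD κ) PP tK tL pcB [⟨3, 0, 0, 1449551462⟩] 1 0 2 0 0 (sgb true) (sgb true) x :=
  strip_altBD (m := 1449551462) true rfl hκ (SH.κ0 hκ (SH.hx1 hx).le (SH.hx2 hx').le) (SH.hx1 hx).le (SH.hx2 hx') (covB01).cov (covB02).cov hx hx' c_B00pp_102_s1 cutB_nil (noExt_B)

noncomputable def cut_B00pp_102_s3 : Cut := Cut.of [[⟨3, 0, 0, 2845415833⟩]]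

noncomputable def f_B00pp_102_s3 : ℕ → ℕ → ℕ → ℕ → Bool := onCell 536870912 536870912 0 536870912 966367641 24778659
    (rowF 0 false true true .npp 1 0 2 (qsf 536870912 536870912 0 536870912 0) ndB0q1 ndB0q2 pcB0 cut_B00pp_102_s3 Ext.none)

def k0_B00pp_102_s3 : ∃ t, chk3 f_B00pp_102_s3 t 1 1 1 = true :=
  ⟨(l 6), by decide +kernel⟩

theorem c_B00pp_102_s3 : CertF 536870912 536870912 0 536870912 966367641 24778659 false true true .npp 1 0 2
    ndB0q1 ndB0q2 pcB0 cut_B00pp_102_s3 Ext.none :=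
  certF0 (fam := false) (s1 := true) (s2 := true) (a := 1) (b := 0) (c := 2) (cn := .npp) (n1 := ndB0q1) (n2 := ndB0q2) (pc := pcB0) (cut := cut_B00pp_102_s3) (xt := Ext.none) (P1 := 536870912) (W1 := 536870912) (P2 := 0) (W2 := 536870912) (P3 := 966367641) (W3 := 24778659)
    rfl k0_B00pp_102_s3

theorem s_B00pp_102_s3 {κ x : ℝ} (hκ : κ * h0 = ken x) (hx : ((966367641 : ℕ) : ℝ) / S ≤ x)
    (hx' : x ≤ (((966367641 : ℕ) : ℝ) + (24778659 : ℕ)) / S) :
    AltB (VFD κ) PP tK tL pcB [⟨4, 0, 0, 2845415833⟩] 1 0 2 0 0 (sgb true) (sgb true) x :=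
  strip_altBD (m := 2845415833) false rfl hκ (SH.κ0 hκ (SH.hx1 hx).le (SH.hx2 hx').le) (SH.hx1 hx).le (SH.hx2 hx') (covB01).cov (covB02).cov hx hx' c_B00pp_102_s3 cutB_nil (noExt_B)

noncomputable def cut_B00pp_112_s1 : Cut := Cut.of [[⟨4, 0, 0, 1449551462⟩]]

noncomputable def xt_B00pp_112_s1 : Ext := strExt dd false true true .u0 .u2 .u0m .dn 1 1 2 rfl rfl gf1 vv ndB0q1 ndB0q2

noncomputable def f_B00pp_112_s1 : ℕ → ℕ → ℕ → ℕ → Bool := onCell 536870912 536870912 0 536870912 966367641 24778659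
    (rowF 0 false true true .dn 1 1 2 (qsf 536870912 536870912 0 536870912 1) ndB0q1 ndB0q2 pcB1 cut_B00pp_112_s1 xt_B00pp_112_s1)

def k0_B00pp_112_s1 : ∃ t, chk3 f_B00pp_112_s1 t 1 1 1 = true :=
  ⟨(a (b (b (a (a (b (a (l 530918927) (l 530507023)) (a (b (l 530566415) (l 3)) (l 3))) (b (a (l 530030607) (l 3)) (l 3))) (l 3)) (l 3)) (l 3)) (l 1)), by decide +kernel⟩

theorem c_B00pp_112_s1 : CertF 536870912 536870912 0 536870912 966367641 24778659 false true true .dn 1 1 2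
    ndB0q1 ndB0q2 pcB1 cut_B00pp_112_s1 xt_B00pp_112_s1 :=
  certF0 (fam := false) (s1 := true) (s2 := true) (a := 1) (b := 1) (c := 2) (cn := .dn) (n1 := ndB0q1) (n2 := ndB0q2) (pc := pcB1) (cut := cut_B00pp_112_s1) (xt := xt_B00pp_112_s1) (P1 := 536870912) (W1 := 536870912) (P2 := 0) (W2 := 536870912) (P3 := 966367641) (W3 := 24778659)
    rfl k0_B00pp_112_s1

theorem s_B00pp_112_s1 {κ x : ℝ} (hκ : κ * h0 = ken x) (hx : ((966367641 : ℕ) : ℝ) / S ≤ x)
    (hx' : x ≤ (((966367641 : ℕ) : ℝ) + (24778659 : ℕ)) / S) :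
    AltB (VFD κ) PP tK tL pcB [⟨3, 0, 0, 1449551462⟩] 1 1 2 0 0 (sgb true) (sgb true) x :=
  strip_altBD (m := 1449551462) true rfl hκ (SH.κ0 hκ (SH.hx1 hx).le (SH.hx2 hx').le) (SH.hx1 hx).le (SH.hx2 hx') (covB01).cov (covB02).cov hx hx' c_B00pp_112_s1 cutB_nil ((okx hx hx').extB (T := tt) (sideB hx hx') hκ rfl rfl (.O 1 true) (.O 2 true) (Or.inr rfl))

noncomputable def cut_B00pp_112_s3 : Cut := Cut.of [[⟨3, 0, 0, 2845415833⟩]]

noncomputable def f_B00pp_112_s3 : ℕ → ℕ → ℕ → ℕ → Bool := onCell 536870912 536870912 0 536870912 966367641 24778659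
    (rowF 0 false true true .dn 1 1 2 (qsf 536870912 536870912 0 536870912 1) ndB0q1 ndB0q2 pcB1 cut_B00pp_112_s3 Ext.none)

def k0_B00pp_112_s3 : ∃ t, chk3 f_B00pp_112_s3 t 1 1 1 = true :=
  ⟨(l 6), by decide +kernel⟩

theorem c_B00pp_112_s3 : CertF 536870912 536870912 0 536870912 966367641 24778659 false true true .dn 1 1 2
    ndB0q1 ndB0q2 pcB1 cut_B00pp_112_s3 Ext.none :=
  certF0 (fam := false) (s1 := true) (s2 := true) (a := 1) (b := 1) (c := 2) (cn := .dn) (n1 := ndB0q1) (n2 := ndB0q2) (pc := pcB1) (cut := cut_B00pp_112_s3) (xt := Ext.none) (P1 := 536870912) (W1 := 536870912) (P2 := 0) (W2 := 536870912) (P3 := 966367641) (W3 := 24778659)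
    rfl k0_B00pp_112_s3

theorem s_B00pp_112_s3 {κ x : ℝ} (hκ : κ * h0 = ken x) (hx : ((966367641 : ℕ) : ℝ) / S ≤ x)
    (hx' : x ≤ (((966367641 : ℕ) : ℝ) + (24778659 : ℕ)) / S) :
    AltB (VFD κ) PP tK tL pcB [⟨4, 0, 0, 2845415833⟩] 1 1 2 0 0 (sgb true) (sgb true) x :=
  strip_altBD (m := 2845415833) false rfl hκ (SH.κ0 hκ (SH.hx1 hx).le (SH.hx2 hx').le) (SH.hx1 hx).le (SH.hx2 hx') (covB01).cov (covB02).cov hx hx' c_B00pp_112_s3 cutB_nil (noExt_B)

noncomputable def cut_B00pp_202_s1 : Cut := Cut.of [[⟨4, 0, 0, 1449551462⟩]]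

noncomputable def f_B00pp_202_s1 : ℕ → ℕ → ℕ → ℕ → Bool := onCell 0 536870912 0 536870912 966367641 24778659
    (rowF 0 false true true .pp 2 0 2 (qsf 0 536870912 0 536870912 0) ndB0q2 ndB0q2 pcB0 cut_B00pp_202_s1 Ext.none)

def k0_B00pp_202_s1 : ∃ t, chk3 f_B00pp_202_s1 t 1 1 1 = true :=
  ⟨(l 3), by decide +kernel⟩

theorem c_B00pp_202_s1 : CertF 0 536870912 0 536870912 966367641 24778659 false true true .pp 2 0 2
    ndB0q2 ndB0q2 pcB0 cut_B00pp_202_s1 Ext.none :=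
  certF0 (fam := false) (s1 := true) (s2 := true) (a := 2) (b := 0) (c := 2) (cn := .pp) (n1 := ndB0q2) (n2 := ndB0q2) (pc := pcB0) (cut := cut_B00pp_202_s1) (xt := Ext.none) (P1 := 0) (W1 := 536870912) (P2 := 0) (W2 := 536870912) (P3 := 966367641) (W3 := 24778659)
    rfl k0_B00pp_202_s1

theorem s_B00pp_202_s1 {κ x : ℝ} (hκ : κ * h0 = ken x) (hx : ((966367641 : ℕ) : ℝ) / S ≤ x)
    (hx' : x ≤ (((966367641 : ℕ) : ℝ) + (24778659 : ℕ)) / S) :
    AltB (VFD κ) PP tK tL pcB [⟨3, 0, 0, 1449551462⟩] 2 0 2 0 0 (sgb true) (sgb true) x :=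
  strip_altBD (m := 1449551462) true rfl hκ (SH.κ0 hκ (SH.hx1 hx).le (SH.hx2 hx').le) (SH.hx1 hx).le (SH.hx2 hx') (covB02).cov (covB02).cov hx hx' c_B00pp_202_s1 cutB_nil (noExt_B)

noncomputable def cut_B00pp_202_s3 : Cut := Cut.of [[⟨3, 0, 0, 2845415833⟩]]

noncomputable def f_B00pp_202_s3 : ℕ → ℕ → ℕ → ℕ → Bool := onCell 0 536870912 0 536870912 966367641 24778659
    (rowF 0 false true true .pp 2 0 2 (qsf 0 536870912 0 536870912 0) ndB0q2 ndB0q2 pcB0 cut_B00pp_202_s3 Ext.none)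

def k0_B00pp_202_s3 : ∃ t, chk3 f_B00pp_202_s3 t 1 1 1 = true :=
  ⟨(l 3), by decide +kernel⟩

theorem c_B00pp_202_s3 : CertF 0 536870912 0 536870912 966367641 24778659 false true true .pp 2 0 2
    ndB0q2 ndB0q2 pcB0 cut_B00pp_202_s3 Ext.none :=
  certF0 (fam := false) (s1 := true) (s2 := true) (a := 2) (b := 0) (c := 2) (cn := .pp) (n1 := ndB0q2) (n2 := ndB0q2) (pc := pcB0) (cut := cut_B00pp_202_s3) (xt := Ext.none) (P1 := 0) (W1 := 536870912) (P2 := 0) (W2 := 536870912) (P3 := 966367641) (W3 := 24778659)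
    rfl k0_B00pp_202_s3

theorem s_B00pp_202_s3 {κ x : ℝ} (hκ : κ * h0 = ken x) (hx : ((966367641 : ℕ) : ℝ) / S ≤ x)
    (hx' : x ≤ (((966367641 : ℕ) : ℝ) + (24778659 : ℕ)) / S) :
    AltB (VFD κ) PP tK tL pcB [⟨4, 0, 0, 2845415833⟩] 2 0 2 0 0 (sgb true) (sgb true) x :=
  strip_altBD (m := 2845415833) false rfl hκ (SH.κ0 hκ (SH.hx1 hx).le (SH.hx2 hx').le) (SH.hx1 hx).le (SH.hx2 hx') (covB02).cov (covB02).cov hx hx' c_B00pp_202_s3 cutB_nil (noExt_B)

noncomputable def cut_B00pm_001_s1 : Cut := Cut.of [[⟨4, 0, 0, 1449551462⟩]]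

noncomputable def f_B00pm_001_s1 : ℕ → ℕ → ℕ → ℕ → Bool := onCell 0 536870912 536870912 536870912 966367641 24778659
    (rowF 0 false true false .up 0 0 1 (qsf 0 536870912 536870912 536870912 0) ndB0q0 ndB0q1 pcB0 cut_B00pm_001_s1 Ext.none)

def k0_B00pm_001_s1 : ∃ t, chk3 f_B00pm_001_s1 t 1 1 1 = true :=
  ⟨(l 6), by decide +kernel⟩

theorem c_B00pm_001_s1 : CertF 0 536870912 536870912 536870912 966367641 24778659 false true false .up 0 0 1
    ndB0q0 ndB0q1 pcB0 cut_B00pm_001_s1 Ext.none :=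
  certF0 (fam := false) (s1 := true) (s2 := false) (a := 0) (b := 0) (c := 1) (cn := .up) (n1 := ndB0q0) (n2 := ndB0q1) (pc := pcB0) (cut := cut_B00pm_001_s1) (xt := Ext.none) (P1 := 0) (W1 := 536870912) (P2 := 536870912) (W2 := 536870912) (P3 := 966367641) (W3 := 24778659)
    rfl k0_B00pm_001_s1

theorem s_B00pm_001_s1 {κ x : ℝ} (hκ : κ * h0 = ken x) (hx : ((966367641 : ℕ) : ℝ) / S ≤ x)
    (hx' : x ≤ (((966367641 : ℕ) : ℝ) + (24778659 : ℕ)) / S) :
    AltB (VFD κ) PP tK tL pcB [⟨3, 0, 0, 1449551462⟩] 0 0 1 0 0 (sgb true) (sgb false) x :=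
  strip_altBD (m := 1449551462) true rfl hκ (SH.κ0 hκ (SH.hx1 hx).le (SH.hx2 hx').le) (SH.hx1 hx).le (SH.hx2 hx') (covB00).cov (covB01).cov hx hx' c_B00pm_001_s1 cutB_nil (noExt_B)

noncomputable def cut_B00pm_001_s3 : Cut := Cut.of [[⟨3, 0, 0, 2845415833⟩]]

noncomputable def xt_B00pm_001_s3 : Ext := strExt dd false true false .u0 .u0m .s0m .up 0 0 1 rfl rfl gl0 vv ndB0q0 ndB0q1

noncomputable def f_B00pm_001_s3 : ℕ → ℕ → ℕ → ℕ → Bool := onCell 0 536870912 536870912 536870912 966367641 24778659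
    (rowF 0 false true false .up 0 0 1 (qsf 0 536870912 536870912 536870912 0) ndB0q0 ndB0q1 pcB0 cut_B00pm_001_s3 xt_B00pm_001_s3)

def k0_B00pm_001_s3 : ∃ t, chk3 f_B00pm_001_s3 t 2 1 1 = true :=
  ⟨(b (l 4) (b (b (l 4) (l 2)) (l 2))), by decide +kernel⟩

def k1_B00pm_001_s3 : ∃ t, chk3 f_B00pm_001_s3 t 3 4 1 = true :=
  ⟨(l 4), by decide +kernel⟩

def k2_B00pm_001_s3 : ∃ t, chk3 f_B00pm_001_s3 t 6 5 1 = true :=
  ⟨(l 4), by decide +kernel⟩

def k3_B00pm_001_s3 : ∃ t, chk3 f_B00pm_001_s3 t 14 5 1 = true :=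
  ⟨(b (l 4) (a (b (l 4) (b (b (l 4) (a (l 4) (b (l 4) (l 531404559)))) (a (c (l 531943951) (l 531663887)) (c (l 531904271) (l 531364623))))) (a (b (l 4) (a (a (b (b (l 4) (c (l 531472911) (l 530950671))) (l 531473679)) (b (b (l 531511567) (c (l 531454479) (c (l 531537679) (l 531410191)))) (c (l 531589903) (l 531327759)))) (c (b (b (l 531587855) (c (l 531750671) (l 531634703))) (c (l 531901199) (l 531234319))) (b (b (l 531377167) (b (l 531165967) (l 531473679))) (b (a (l 531541007) (l 531526671)) (l 531614223)))))) (b (b (l 4) (c (l 531342863) (c (l 531236623) (l 531161103)))) (b (c (b (l 531518735) (a (l 531383311) (l 531607311))) (b (a (l 531344655) (l 531309583)) (a (b (l 531403791) (l 531442703)) (l 531389967)))) (c (a (c (l 531591951) (l 531468559)) (b (l 531712015) (l 531810063))) (a (b (l 531235087) (l 531048975)) (b (l 531471887) (l 531555343))))))))), by decide +kernel⟩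

def k4_B00pm_001_s3 : ∃ t, chk3 f_B00pm_001_s3 t 15 5 1 = true :=
  ⟨(b (b (b (l 4) (b (l 4) (a (l 4) (a (l 4) (a (l 4) (c (l 529631503) (l 529864975))))))) (a (b (l 4) (a (l 4) (c (l 530558479) (l 530882575)))) (a (b (a (l 4) (c (l 530051087) (l 530220303))) (c (a (l 530448911) (l 530372111)) (a (l 530524175) (l 530459919)))) (b (b (a (l 529988367) (c (l 529791503) (l 530017551))) (c (l 530011919) (l 530168591))) (a (b (l 530278671) (l 530417679)) (b (l 530202383) (l 530343951))))))) (b (a (c (b (a (l 530976015) (l 530846991)) (a (l 531234831) (l 531116815))) (b (a (l 531197199) (l 530825743)) (a (l 530847759) (l 531291407)))) (a (b (a (c (l 530745871) (l 530743567)) (c (l 530674703) (l 530684431))) (a (c (l 531024143) (l 530948111)) (c (l 530958351) (l 530893839)))) (b (c (a (l 530600975) (l 530525455)) (a (l 530622735) (l 530558479))) (c (l 530854159) (a (l 530837263) (l 530778383)))))) (a (b (c (a (b (l 531418639) (l 531534351))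 (b (l 531309071) (l 531430159))) (a (b (l 531250191) (a (l 531354383) (l 531315983))) (b (l 531163919) (l 531252495)))) (a (c (b (l 531643919) (l 531210255)) (b (a (l 531437839) (l 531401231)) (a (l 531522575) (l 531487503)))) (c (b (l 531545615) (l 531654927)) (b (l 531072271) (a (l 531450127) (l 531410447)))))) (b (a (c (b (l 531190287) (l 531316751)) (a (l 531138831) (l 531089423))) (c (b (l 531062799) (l 531194639)) (b (l 530962191) (l 531060239)))) (a (c (a (l 531522831) (l 531468047)) (a (l 531053071) (l 531276303))) (c (c (l 531417103) (l 531340559)) (c (l 531251727) (l 531150863)))))))), by decide +kernel⟩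

def k5_B00pm_001_s3 : ∃ t, chk3 f_B00pm_001_s3 t 6 12 1 = true :=
  ⟨(a (a (l 4) (b (l 4) (b (l 4) (a (l 4) (b (l 4) (a (l 530985231) (l 531171087))))))) (a (b (l 4) (a (a (b (l 4) (b (b (l 530872079) (l 531376911)) (l 531338511))) (b (c (l 531852559) (l 531127311)) (b (c (l 531765007) (l 531277839)) (a (l 531456271) (l 531247375))))) (b (c (l 531982351) (l 531553807)) (b (c (l 531928079) (l 531204367)) (c (l 531355151) (l 530888719)))))) (a (b (b (l 4) (c (l 532107535) (l 531743247))) (b (c (l 532116751) (l 531720719)) (b (c (l 532094991) (l 531674639)) (c (l 532079375) (l 531648271))))) (b (b (c (l 532079887) (a (l 531489807) (l 531503375))) (c (l 532162831) (a (l 531807247) (l 531836687)))) (b (a (l 532006159) (l 531511823)) (b (a (l 531997199) (l 532054799)) (a (l 531722255) (l 532057615)))))))), by decide +kernel⟩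

def k6_B00pm_001_s3 : ∃ t, chk3 f_B00pm_001_s3 t 6 13 1 = true :=
  ⟨(a (b (a (l 2) (b (a (l 2) (a (l 2) (c (l 531297039) (l 530739983)))) (l 2))) (l 2)) (b (a (b (a (a (c (l 531481103) (l 530952719)) (a (l 531357199) (l 530633999))) (a (a (l 530709263) (l 530778895)) (b (l 531427599) (l 531660303)))) (a (a (l 2) (b (l 531259663) (l 2))) (b (a (l 531442447) (l 531601935)) (c (l 531130895) (l 530645519))))) (b (a (c (b (l 531801103) (l 531782927)) (a (l 531567375) (l 531679503))) (c (a (l 532192527) (l 532265743)) (b (l 531555343) (l 531554831)))) (a (b (a (l 531741199) (l 531594511)) (c (l 531697935) (l 531523087))) (c (b (l 531952399) (l 531927567)) (a (l 531475983) (l 531586575)))))) (a (a (l 2) (a (l 2) (b (b (l 531408911) (l 2)) (l 2)))) (a (a (b (b (l 531588879) (a (l 2) (l 531522319))) (l 2)) (b (c (l 531383055) (l 530941455)) (a (l 2) (b (l 531582223) (l 2))))) (a (b (c (l 531524111) (l 531101967)) (c (c (l 531971855)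 (l 531760143)) (c (l 531543055) (l 531320591)))) (b (c (l 531647503) (l 531242511)) (c (c (l 532127759) (l 531926287)) (c (l 531719439) (l 531507215))))))))), by decide +kernel⟩

def k7_B00pm_001_s3 : ∃ t, chk3 f_B00pm_001_s3 t 14 12 1 = true :=
  ⟨(a (a (c (b (b (l 532079119) (l 532187407)) (b (l 532264463) (l 532308751))) (b (b (l 531777295) (l 531863311)) (b (a (l 531903503) (l 531932943)) (b (l 531935503) (l 531947023))))) (b (b (c (l 532056847) (l 531766287)) (c (l 532186639) (l 531876367))) (b (c (l 532289295) (l 531959055)) (c (l 532364047) (b (l 532003343) (l 532031247)))))) (b (c (a (c (b (l 532083215) (l 532236303)) (b (l 531947535) (l 532090895))) (a (b (l 531977743) (l 532136975)) (b (a (l 531954703) (l 531669519)) (l 532112399)))) (a (b (a (l 531477775) (c (l 531797519) (l 531653391))) (a (l 531603215) (l 531591951))) (b (a (c (l 531772943) (l 531630351)) (b (l 531368719) (l 531715599))) (a (a (l 531581199) (l 531571983))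 (c (l 531898383) (l 531748879)))))) (b (a (c (l 532288527) (a (l 531704847) (l 531704335))) (c (c (l 532339215) (l 532191503)) (a (a (l 531701007) (l 531696655)) (c (l 532033295) (l 531875599))))) (a (a (b (l 532201999) (l 532244495)) (b (l 532073743) (l 532122383))) (c (c (l 532464911) (l 532309775)) (c (a (l 531883023) (l 532149519)) (a (l 531984399) (l 531716111)))))))), by decide +kernel⟩

def k8_B00pm_001_s3 : ∃ t, chk3 f_B00pm_001_s3 t 15 12 1 = true :=
  ⟨(a (b (a (b (c (c (b (l 531905039) (l 532000527)) (a (l 531846671) (l 531810063))) (a (b (l 531606031) (l 531686927)) (b (l 531572751) (l 531655695)))) (c (c (l 532133135) (a (l 532015375) (l 531985167))) (a (b (l 531764751) (l 531838223)) (b (l 531735823) (l 531812623))))) (b (c (b (l 531759119) (l 531321359)) (b (a (l 531536911) (l 531499023)) (a (l 531621903) (l 531585551)))) (c (c (l 532059663) (b (l 531889423) (l 531977231))) (a (b (l 531704079) (l 531783439)) (b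 (l 531670031) (l 531751695)))))) (a (c (b (c (l 532295439) (l 532153103)) (c (l 532439055) (l 532558351))) (b (a (c (l 532016143) (l 531860239)) (b (l 531885327) (l 531953935))) (c (a (l 531873295) (l 531860495)) (a (l 531710223) (l 531698959))))) (b (c (c (l 532236047) (l 532099599)) (c (a (l 531970063) (l 531941647)) (a (l 531816719) (l 531789327)))) (c (b (l 532287759) (l 531828239)) (b (a (l 531999247) (l 531976719)) (a (l 16561744) (l 16549976))))))) (b (a (c (b (a (l 531739919) (l 531690767)) (a (l 531267087) (l 531357967))) (b (a (b (l 531458831) (l 531547151)) (l 531191567)) (a (b (l 531633423) (l 531717135)) (c (l 531705103) (l 531564815))))) (c (b (b (l 531557391) (l 531668239)) (b (l 531774223) (l 531339023))) (b (a (l 531148047) (l 531370511)) (c (l 531506703) (a (l 531525647) (l 531484175)))))) (b (a (c (c (l 532163343) (b (l 531991311) (l 532077071))) (c (b (l 531852815) (l 531933967)) (a (l 531758863) (l 531725839))))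 (c (c (l 531542543) (a (l 16538160) (l 16556432))) (a (b (l 16566248) (l 16555112)) (b (l 16552648) (l 16541640))))) (a (a (c (l 532285199) (b (l 16548784) (l 16537864))) (c (l 532253967) (b (l 16515176) (l 16504440)))) (c (c (l 532533263) (a (l 16528632) (l 16494832))) (a (b (l 16544144) (l 16533576)) (b (l 16530808) (l 16520408)))))))), by decide +kernel⟩

def k9_B00pm_001_s3 : ∃ t, chk3 f_B00pm_001_s3 t 14 13 1 = true :=
  ⟨(b (a (c (c (a (b (l 532444687) (l 532465935)) (b (l 532524815) (l 532581647))) (a (b (l 532259855) (l 532280335)) (b (l 532351247) (l 532408079)))) (b (a (a (l 531673871) (l 531738383)) (a (l 532060687) (l 532104719))) (a (b (l 531726351) (l 531725071)) (b (l 532130063) (l 531881487))))) (c (a (b (a (l 532482063) (l 532499983)) (a (l 532562959) (l 532594959))) (b (a (l 532510735) (l 532514831)) (b (l 532601615) (l 532384527)))) (a (a (b (l 532139023) (l 532221455)) (b (l 532164623) (c (l 532347151) (l 531907343))))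 (b (c (l 532269327) (b (l 531803919) (l 531865615))) (b (a (l 16591448) (l 16581896)) (c (l 16557904) (l 531979791))))))) (a (b (b (a (c (l 531821071) (l 531439631)) (c (l 532512527) (l 531620111))) (a (c (a (l 16568896) (l 16562704)) (c (l 532038671) (l 531842319))) (a (c (l 16556384) (l 16541720)) (c (l 16549888) (l 16534960))))) (a (a (b (c (l 16594112) (l 16578672)) (c (l 16575808) (l 16558944))) (b (c (l 16546760) (l 16573072)) (c (l 16571312) (l 16554344)))) (b (a (c (l 16541192) (l 16567312)) (c (l 16535432) (l 16519416))) (a (c (l 16566616) (l 16549552)) (c (l 16519744) (l 16544520)))))) (b (a (c (b (l 532622863) (b (l 16563912) (l 16557440))) (b (a (l 16541824) (l 16533896)) (a (l 16527968) (l 16520696)))) (c (b (c (l 16560184) (l 16553880)) (c (l 16549976) (l 16542248))) (b (c (l 16546312) (l 532025871)) (a (l 16513096) (l 16505128))))) (a (b (a (c (l 16529416) (l 16513208)) (c (l 16565064) (l 16506696))) (c (a (l 16514544)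 (l 16509032)) (a (l 16497272) (l 16491624)))) (c (b (c (l 16538104) (l 16529960)) (c (l 16525352) (l 16516784))) (b (a (l 16499816) (l 16492552)) (a (l 16506560) (l 16500088)))))))), by decide +kernel⟩

def k10_B00pm_001_s3 : ∃ t, chk3 f_B00pm_001_s3 t 15 13 1 = true :=
  ⟨(b (a (b (c (c (a (l 532583183) (l 532555791)) (a (b (l 16587704) (l 16567016)) (b (l 16576640) (l 16567016)))) (a (b (a (l 16593960) (l 16562112)) (a (l 16582912) (l 16572344))) (b (a (l 16550920) (l 16539384)) (a (l 16519488) (l 16508232))))) (a (b (a (b (l 16550376) (l 16545160)) (b (l 16540352) (l 16535328))) (a (b (l 16539936) (l 16534672)) (b (l 16530296) (l 16525248)))) (b (a (b (l 16529992) (l 16525136)) (a (l 16519608) (l 16503712))) (a (a (l 16520384) (l 16515344)) (b (l 16509936) (l 16505288)))))) (a (c (c (b (l 532779023) (a (l 16543680) (l 16534000))) (b (a (l 16554920) (l 16543248)) (b (l 16535856) (l 16527248)))) (b (c (b (l 531907599) (l 531994639))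 (a (l 531800847) (l 531778319))) (a (b (l 16487024) (l 16519600)) (b (l 16475304) (l 16466272))))) (b (c (c (l 532719375) (b (l 16487496) (l 16478880))) (b (a (l 16523624) (l 16510640)) (a (l 16472232) (l 16501408)))) (b (a (a (l 16475240) (l 16469256)) (l 6)) (l 6))))) (a (b (b (a (a (b (l 16529360) (l 16523968)) (b (l 16520168) (l 16515032))) (a (c (l 16545040) (l 16531048)) (a (l 16500800) (l 16495768)))) (a (a (b (l 16518480) (l 16512872)) (b (l 16509808) (l 16504488))) (a (b (l 16511224) (l 16506176)) (l 6)))) (a (b (c (c (l 16520144) (l 16515120)) (a (l 16484864) (l 16476728))) (a (c (l 16532272) (l 16493168)) (l 6))) (l 6))) (b (b (a (a (a (l 16490640) (l 6)) (l 6)) (l 6)) (l 6)) (l 6)))), by decide +kernel⟩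

def k11_B00pm_001_s3 : ∃ t, chk3 f_B00pm_001_s3 t 3 7 1 = true :=
  ⟨(a (b (a (l 2) (b (a (l 2) (a (l 2) (a (l 2) (b (b (b (l 200353075335) (l 2)) (l 2)) (l 2))))) (l 2))) (l 2)) (b (a (b (a (b (b (a (a (c (l 16555616) (l 16537192)) (c (l 16552152) (l 16533744))) (c (a (l 16506512) (l 16502552)) (a (l 16509088) (l 16505128)))) (a (c (a (l 16532824) (l 16530528)) (a (l 16512872) (l 16510712))) (c (a (l 16527976) (l 16504136)) (a (l 16503048) (c (l 16510536) (l 16500488)))))) (b (a (a (l 2) (c (l 16505776) (l 204647885319))) (b (c (a (l 16510664) (l 16508720)) (a (l 16490144) (l 16488408))) (a (c (l 16498096) (l 16477048)) (b (c (l 16499992) (l 16479368)) (l 6))))) (a (l 2) (a (a (l 2) (l 6)) (l 6))))) (b (a (a (b (c (l 16498280) (l 16500840)) (c (l 16500928) (b (l 16507504) (l 16497216)))) (c (b (l 16493664) (l 16497336)) (b (l 16496184) (b (l 16503680) (l 6))))) (b (a (c (l 16488688) (a (l 16471440) (l 16468776))) (l 6)) (l 6)))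 (l 6))) (a (a (l 2) (l 6)) (l 6))) (l 6)) (l 6))), by decide +kernel⟩

theorem t12_B00pm_001_s3 : ∃ t, chk3 f_B00pm_001_s3 t 7 13 1 = true := ex3_a k9_B00pm_001_s3 k10_B00pm_001_s3

theorem t13_B00pm_001_s3 : ∃ t, chk3 f_B00pm_001_s3 t 7 12 1 = true := ex3_a k7_B00pm_001_s3 k8_B00pm_001_s3

theorem t14_B00pm_001_s3 : ∃ t, chk3 f_B00pm_001_s3 t 7 6 1 = true := ex3_b t13_B00pm_001_s3 t12_B00pm_001_s3

theorem t15_B00pm_001_s3 : ∃ t, chk3 f_B00pm_001_s3 t 6 6 1 = true := ex3_b k5_B00pm_001_s3 k6_B00pm_001_s3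

theorem t16_B00pm_001_s3 : ∃ t, chk3 f_B00pm_001_s3 t 3 6 1 = true := ex3_a t15_B00pm_001_s3 t14_B00pm_001_s3

theorem t17_B00pm_001_s3 : ∃ t, chk3 f_B00pm_001_s3 t 3 3 1 = true := ex3_b t16_B00pm_001_s3 k11_B00pm_001_s3

theorem t18_B00pm_001_s3 : ∃ t, chk3 f_B00pm_001_s3 t 7 5 1 = true := ex3_a k3_B00pm_001_s3 k4_B00pm_001_s3

theorem t19_B00pm_001_s3 : ∃ t, chk3 f_B00pm_001_s3 t 3 5 1 = true := ex3_a k2_B00pm_001_s3 t18_B00pm_001_s3

theorem t20_B00pm_001_s3 : ∃ t, chk3 f_B00pm_001_s3 t 3 2 1 = true := ex3_b k1_B00pm_001_s3 t19_B00pm_001_s3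

theorem t21_B00pm_001_s3 : ∃ t, chk3 f_B00pm_001_s3 t 3 1 1 = true := ex3_b t20_B00pm_001_s3 t17_B00pm_001_s3

theorem t22_B00pm_001_s3 : ∃ t, chk3 f_B00pm_001_s3 t 1 1 1 = true := ex3_a k0_B00pm_001_s3 t21_B00pm_001_s3

theorem c_B00pm_001_s3 : CertF 0 536870912 536870912 536870912 966367641 24778659 false true false .up 0 0 1
    ndB0q0 ndB0q1 pcB0 cut_B00pm_001_s3 xt_B00pm_001_s3 :=
  certF0 (fam := false) (s1 := true) (s2 := false) (a := 0) (b := 0) (c := 1) (cn := .up) (n1 := ndB0q0) (n2 := ndB0q1) (pc := pcB0) (cut := cut_B00pm_001_s3) (xt := xt_B00pm_001_s3) (P1 := 0) (W1 := 536870912) (P2 := 536870912) (W2 := 536870912) (P3 := 966367641) (W3 := 24778659)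
    rfl t22_B00pm_001_s3

theorem s_B00pm_001_s3 {κ x : ℝ} (hκ : κ * h0 = ken x) (hx : ((966367641 : ℕ) : ℝ) / S ≤ x)
    (hx' : x ≤ (((966367641 : ℕ) : ℝ) + (24778659 : ℕ)) / S) :
    AltB (VFD κ) PP tK tL pcB [⟨4, 0, 0, 2845415833⟩] 0 0 1 0 0 (sgb true) (sgb false) x :=
  strip_altBD (m := 2845415833) false rfl hκ (SH.κ0 hκ (SH.hx1 hx).le (SH.hx2 hx').le) (SH.hx1 hx).le (SH.hx2 hx') (covB00).cov (covB01).cov hx hx' c_B00pm_001_s3 cutB_nil ((okx hx hx').extB (T := tt) (sideB hx hx') hκ rfl rfl (.O 0 true) (.O 1 false) (Or.inl rfl))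

noncomputable def cut_B00pm_011_s1 : Cut := Cut.of [[⟨4, 0, 0, 1449551462⟩], [⟨0, 0, 0, 53687091⟩, ⟨1, 1, 0, 53687091⟩, ⟨2, 1, 0, 53687091⟩]]

noncomputable def f_B00pm_011_s1 : ℕ → ℕ → ℕ → ℕ → Bool := onCell 0 536870912 536870912 536870912 966367641 24778659
    (rowF 0 false true false .pnn 0 1 1 (qsf 0 536870912 536870912 536870912 1) ndB0q0 ndB0q1 pcB1 cut_B00pm_011_s1 Ext.none)

def k0_B00pm_011_s1 : ∃ t, chk3 f_B00pm_011_s1 t 1 1 1 = true :=
  ⟨(l 6), by decide +kernel⟩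

theorem c_B00pm_011_s1 : CertF 0 536870912 536870912 536870912 966367641 24778659 false true false .pnn 0 1 1
    ndB0q0 ndB0q1 pcB1 cut_B00pm_011_s1 Ext.none :=
  certF0 (fam := false) (s1 := true) (s2 := false) (a := 0) (b := 1) (c := 1) (cn := .pnn) (n1 := ndB0q0) (n2 := ndB0q1) (pc := pcB1) (cut := cut_B00pm_011_s1) (xt := Ext.none) (P1 := 0) (W1 := 536870912) (P2 := 536870912) (W2 := 536870912) (P3 := 966367641) (W3 := 24778659)
    rfl k0_B00pm_011_s1

theorem s_B00pm_011_s1 {κ x : ℝ} (hκ : κ * h0 = ken x) (hx : ((966367641 : ℕ) : ℝ) / S ≤ x)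
    (hx' : x ≤ (((966367641 : ℕ) : ℝ) + (24778659 : ℕ)) / S)
    (H : CutB (VFD κ) PP tK tL pcB (Cut.of [[⟨0, 0, 0, 53687091⟩, ⟨1, 1, 0, 53687091⟩, ⟨2, 1, 0, 53687091⟩]]) 0 1 1 0 0 (sgb true) (sgb false) x) :
    AltB (VFD κ) PP tK tL pcB [⟨3, 0, 0, 1449551462⟩] 0 1 1 0 0 (sgb true) (sgb false) x :=
  strip_altBD (m := 1449551462) true rfl hκ (SH.κ0 hκ (SH.hx1 hx).le (SH.hx2 hx').le) (SH.hx1 hx).le (SH.hx2 hx') (covB00).cov (covB01).cov hx hx' c_B00pm_011_s1 H (noExt_B)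

end Pool.Agent.Strip051.G.I9000_9231.Tab.St.C
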