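import Pool.Agent.Strip051.G.I9000_9231.StH
import Pool.Agent.Strip051.G.I9000_9231.Sp3_0
import Pool.Agent.Strip051.G.I9000_9231.Sp3_1
import Pool.Agent.Strip051.G.I9000_9231.Sp3_2
import Pool.Agent.Strip051.G.I9000_9231.StF

/-! # Unit strips 3 (generated) -/

set_option linter.all false
set_option maxRecDepth 100000

namespace Pool.Agent.Strip051.G.I9000_9231.Tab.St.C

open Pool.Agent.Strip051.PB Pool.Agent.Strip051.PB.T Pool.Agent.StripNear Pool.Agent.Strip051.LC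
open Pool.Agent.Strip051.G.I9000_9231.Tab Pool.Agent.Strip051.G.I9000_9231.Tab.St

theorem t227_A00pm_012_s1 : ∃ t, chk3 f_A00pm_012_s1 t 6 1 1 = true := ex3_a k224_A00pm_012_s1 k225_A00pm_012_s1

theorem t228_A00pm_012_s1 : ∃ t, chk3 f_A00pm_012_s1 t 3 1 1 = true := ex3_a t227_A00pm_012_s1 k226_A00pm_012_s1

theorem t229_A00pm_012_s1 : ∃ t, chk3 f_A00pm_012_s1 t 10 15 1 = true := ex3_b k221_A00pm_012_s1 k222_A00pm_012_s1

theorem t230_A00pm_012_s1 : ∃ t, chk3 f_A00pm_012_s1 t 5 15 1 = true := ex3_a t229_A00pm_012_s1 k223_A00pm_012_s1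

theorem t231_A00pm_012_s1 : ∃ t, chk3 f_A00pm_012_s1 t 21 14 1 = true := ex3_c k218_A00pm_012_s1 k219_A00pm_012_s1

theorem t232_A00pm_012_s1 : ∃ t, chk3 f_A00pm_012_s1 t 83 28 1 = true := ex3_b k215_A00pm_012_s1 k216_A00pm_012_s1

theorem t233_A00pm_012_s1 : ∃ t, chk3 f_A00pm_012_s1 t 41 28 1 = true := ex3_a k214_A00pm_012_s1 t232_A00pm_012_s1

theorem t234_A00pm_012_s1 : ∃ t, chk3 f_A00pm_012_s1 t 41 14 1 = true := ex3_b t233_A00pm_012_s1 k217_A00pm_012_s1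

theorem t235_A00pm_012_s1 : ∃ t, chk3 f_A00pm_012_s1 t 20 14 1 = true := ex3_a k213_A00pm_012_s1 t234_A00pm_012_s1

theorem t236_A00pm_012_s1 : ∃ t, chk3 f_A00pm_012_s1 t 10 14 1 = true := ex3_a t235_A00pm_012_s1 t231_A00pm_012_s1

theorem t237_A00pm_012_s1 : ∃ t, chk3 f_A00pm_012_s1 t 5 14 1 = true := ex3_a t236_A00pm_012_s1 k220_A00pm_012_s1

theorem t238_A00pm_012_s1 : ∃ t, chk3 f_A00pm_012_s1 t 5 7 1 = true := ex3_b t237_A00pm_012_s1 t230_A00pm_012_s1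

theorem t239_A00pm_012_s1 : ∃ t, chk3 f_A00pm_012_s1 t 11 6 1 = true := ex3_b k211_A00pm_012_s1 k212_A00pm_012_s1

theorem t240_A00pm_012_s1 : ∃ t, chk3 f_A00pm_012_s1 t 21 6 1 = true := ex3_b k209_A00pm_012_s1 k210_A00pm_012_s1

theorem t241_A00pm_012_s1 : ∃ t, chk3 f_A00pm_012_s1 t 167 6 1 = true := ex3_b k207_A00pm_012_s1 k208_A00pm_012_s1

theorem t242_A00pm_012_s1 : ∃ t, chk3 f_A00pm_012_s1 t 83 6 1 = true := ex3_a k206_A00pm_012_s1 t241_A00pm_012_s1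

theorem t243_A00pm_012_s1 : ∃ t, chk3 f_A00pm_012_s1 t 41 6 1 = true := ex3_a k205_A00pm_012_s1 t242_A00pm_012_s1

theorem t244_A00pm_012_s1 : ∃ t, chk3 f_A00pm_012_s1 t 80 12 3 = true := ex3_a k201_A00pm_012_s1 k202_A00pm_012_s1

theorem t245_A00pm_012_s1 : ∃ t, chk3 f_A00pm_012_s1 t 40 12 3 = true := ex3_a t244_A00pm_012_s1 k203_A00pm_012_s1

theorem t246_A00pm_012_s1 : ∃ t, chk3 f_A00pm_012_s1 t 40 6 3 = true := ex3_b t245_A00pm_012_s1 k204_A00pm_012_s1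

theorem t247_A00pm_012_s1 : ∃ t, chk3 f_A00pm_012_s1 t 80 12 2 = true := ex3_b k197_A00pm_012_s1 k198_A00pm_012_s1

theorem t248_A00pm_012_s1 : ∃ t, chk3 f_A00pm_012_s1 t 40 12 2 = true := ex3_a t247_A00pm_012_s1 k199_A00pm_012_s1

theorem t249_A00pm_012_s1 : ∃ t, chk3 f_A00pm_012_s1 t 40 6 2 = true := ex3_b t248_A00pm_012_s1 k200_A00pm_012_s1

theorem t250_A00pm_012_s1 : ∃ t, chk3 f_A00pm_012_s1 t 40 6 1 = true := ex3_c t249_A00pm_012_s1 t246_A00pm_012_s1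

theorem t251_A00pm_012_s1 : ∃ t, chk3 f_A00pm_012_s1 t 20 6 1 = true := ex3_a t250_A00pm_012_s1 t243_A00pm_012_s1

theorem t252_A00pm_012_s1 : ∃ t, chk3 f_A00pm_012_s1 t 10 6 1 = true := ex3_a t251_A00pm_012_s1 t240_A00pm_012_s1

theorem t253_A00pm_012_s1 : ∃ t, chk3 f_A00pm_012_s1 t 5 6 1 = true := ex3_a t252_A00pm_012_s1 t239_A00pm_012_s1

theorem t254_A00pm_012_s1 : ∃ t, chk3 f_A00pm_012_s1 t 5 3 1 = true := ex3_b t253_A00pm_012_s1 t238_A00pm_012_s1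

theorem t255_A00pm_012_s1 : ∃ t, chk3 f_A00pm_012_s1 t 21 11 3 = true := ex3_b k194_A00pm_012_s1 k195_A00pm_012_s1

theorem t256_A00pm_012_s1 : ∃ t, chk3 f_A00pm_012_s1 t 21 11 2 = true := ex3_a k192_A00pm_012_s1 k193_A00pm_012_s1

theorem t257_A00pm_012_s1 : ∃ t, chk3 f_A00pm_012_s1 t 21 11 1 = true := ex3_c t256_A00pm_012_s1 t255_A00pm_012_s1

theorem t258_A00pm_012_s1 : ∃ t, chk3 f_A00pm_012_s1 t 21 21 1 = true := ex3_b k190_A00pm_012_s1 k191_A00pm_012_s1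

theorem t259_A00pm_012_s1 : ∃ t, chk3 f_A00pm_012_s1 t 21 10 1 = true := ex3_b k189_A00pm_012_s1 t258_A00pm_012_s1

theorem t260_A00pm_012_s1 : ∃ t, chk3 f_A00pm_012_s1 t 21 5 1 = true := ex3_b t259_A00pm_012_s1 t257_A00pm_012_s1

theorem t261_A00pm_012_s1 : ∃ t, chk3 f_A00pm_012_s1 t 83 22 3 = true := ex3_a k186_A00pm_012_s1 k187_A00pm_012_s1

theorem t262_A00pm_012_s1 : ∃ t, chk3 f_A00pm_012_s1 t 83 11 3 = true := ex3_b t261_A00pm_012_s1 k188_A00pm_012_s1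

theorem t263_A00pm_012_s1 : ∃ t, chk3 f_A00pm_012_s1 t 82 11 3 = true := ex3_a k184_A00pm_012_s1 k185_A00pm_012_s1

theorem t264_A00pm_012_s1 : ∃ t, chk3 f_A00pm_012_s1 t 41 11 3 = true := ex3_a t263_A00pm_012_s1 t262_A00pm_012_s1

theorem t265_A00pm_012_s1 : ∃ t, chk3 f_A00pm_012_s1 t 83 22 2 = true := ex3_a k181_A00pm_012_s1 k182_A00pm_012_s1

theorem t266_A00pm_012_s1 : ∃ t, chk3 f_A00pm_012_s1 t 83 11 2 = true := ex3_b t265_A00pm_012_s1 k183_A00pm_012_s1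

theorem t267_A00pm_012_s1 : ∃ t, chk3 f_A00pm_012_s1 t 164 23 2 = true := ex3_a k178_A00pm_012_s1 k179_A00pm_012_s1

theorem t268_A00pm_012_s1 : ∃ t, chk3 f_A00pm_012_s1 t 164 11 2 = true := ex3_b k177_A00pm_012_s1 t267_A00pm_012_s1

theorem t269_A00pm_012_s1 : ∃ t, chk3 f_A00pm_012_s1 t 82 11 2 = true := ex3_a t268_A00pm_012_s1 k180_A00pm_012_s1

theorem t270_A00pm_012_s1 : ∃ t, chk3 f_A00pm_012_s1 t 41 11 2 = true := ex3_a t269_A00pm_012_s1 t266_A00pm_012_s1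

theorem t271_A00pm_012_s1 : ∃ t, chk3 f_A00pm_012_s1 t 41 11 1 = true := ex3_c t270_A00pm_012_s1 t264_A00pm_012_s1

theorem t272_A00pm_012_s1 : ∃ t, chk3 f_A00pm_012_s1 t 81 23 1 = true := ex3_b k175_A00pm_012_s1 k176_A00pm_012_s1

theorem t273_A00pm_012_s1 : ∃ t, chk3 f_A00pm_012_s1 t 81 11 1 = true := ex3_b k174_A00pm_012_s1 t272_A00pm_012_s1

theorem t274_A00pm_012_s1 : ∃ t, chk3 f_A00pm_012_s1 t 40 11 1 = true := ex3_a k173_A00pm_012_s1 t273_A00pm_012_s1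

theorem t275_A00pm_012_s1 : ∃ t, chk3 f_A00pm_012_s1 t 20 11 1 = true := ex3_a t274_A00pm_012_s1 t271_A00pm_012_s1

theorem t276_A00pm_012_s1 : ∃ t, chk3 f_A00pm_012_s1 t 167 21 3 = true := ex3_b k171_A00pm_012_s1 k172_A00pm_012_s1

theorem t277_A00pm_012_s1 : ∃ t, chk3 f_A00pm_012_s1 t 83 21 3 = true := ex3_a k170_A00pm_012_s1 t276_A00pm_012_s1

theorem t278_A00pm_012_s1 : ∃ t, chk3 f_A00pm_012_s1 t 41 21 3 = true := ex3_a k169_A00pm_012_s1 t277_A00pm_012_s1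

theorem t279_A00pm_012_s1 : ∃ t, chk3 f_A00pm_012_s1 t 41 10 3 = true := ex3_b k168_A00pm_012_s1 t278_A00pm_012_s1

theorem t280_A00pm_012_s1 : ∃ t, chk3 f_A00pm_012_s1 t 20 10 3 = true := ex3_a k167_A00pm_012_s1 t279_A00pm_012_s1

theorem t281_A00pm_012_s1 : ∃ t, chk3 f_A00pm_012_s1 t 167 21 2 = true := ex3_b k165_A00pm_012_s1 k166_A00pm_012_s1

theorem t282_A00pm_012_s1 : ∃ t, chk3 f_A00pm_012_s1 t 83 21 2 = true := ex3_a k164_A00pm_012_s1 t281_A00pm_012_s1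

theorem t283_A00pm_012_s1 : ∃ t, chk3 f_A00pm_012_s1 t 41 21 2 = true := ex3_a k163_A00pm_012_s1 t282_A00pm_012_s1

theorem t284_A00pm_012_s1 : ∃ t, chk3 f_A00pm_012_s1 t 41 10 2 = true := ex3_b k162_A00pm_012_s1 t283_A00pm_012_s1

theorem t285_A00pm_012_s1 : ∃ t, chk3 f_A00pm_012_s1 t 20 10 2 = true := ex3_a k161_A00pm_012_s1 t284_A00pm_012_s1

theorem t286_A00pm_012_s1 : ∃ t, chk3 f_A00pm_012_s1 t 20 10 1 = true := ex3_c t285_A00pm_012_s1 t280_A00pm_012_s1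

theorem t287_A00pm_012_s1 : ∃ t, chk3 f_A00pm_012_s1 t 20 5 1 = true := ex3_b t286_A00pm_012_s1 t275_A00pm_012_s1

theorem t288_A00pm_012_s1 : ∃ t, chk3 f_A00pm_012_s1 t 10 5 1 = true := ex3_a t287_A00pm_012_s1 t260_A00pm_012_s1

theorem t289_A00pm_012_s1 : ∃ t, chk3 f_A00pm_012_s1 t 5 5 1 = true := ex3_a t288_A00pm_012_s1 k196_A00pm_012_s1

theorem t290_A00pm_012_s1 : ∃ t, chk3 f_A00pm_012_s1 t 5 2 1 = true := ex3_b k160_A00pm_012_s1 t289_A00pm_012_s1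

theorem t291_A00pm_012_s1 : ∃ t, chk3 f_A00pm_012_s1 t 5 1 1 = true := ex3_b t290_A00pm_012_s1 t254_A00pm_012_s1

theorem t292_A00pm_012_s1 : ∃ t, chk3 f_A00pm_012_s1 t 18 62 1 = true := ex3_c k156_A00pm_012_s1 k157_A00pm_012_s1

theorem t293_A00pm_012_s1 : ∃ t, chk3 f_A00pm_012_s1 t 18 31 1 = true := ex3_b t292_A00pm_012_s1 k158_A00pm_012_s1

theorem t294_A00pm_012_s1 : ∃ t, chk3 f_A00pm_012_s1 t 9 31 1 = true := ex3_a t293_A00pm_012_s1 k159_A00pm_012_s1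

theorem t295_A00pm_012_s1 : ∃ t, chk3 f_A00pm_012_s1 t 37 120 1 = true := ex3_a k151_A00pm_012_s1 k152_A00pm_012_s1

theorem t296_A00pm_012_s1 : ∃ t, chk3 f_A00pm_012_s1 t 37 60 1 = true := ex3_b t295_A00pm_012_s1 k153_A00pm_012_s1

theorem t297_A00pm_012_s1 : ∃ t, chk3 f_A00pm_012_s1 t 37 30 1 = true := ex3_b t296_A00pm_012_s1 k154_A00pm_012_s1

theorem t298_A00pm_012_s1 : ∃ t, chk3 f_A00pm_012_s1 t 36 61 2 = true := ex3_a k148_A00pm_012_s1 k149_A00pm_012_s1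

theorem t299_A00pm_012_s1 : ∃ t, chk3 f_A00pm_012_s1 t 36 61 1 = true := ex3_c t298_A00pm_012_s1 k150_A00pm_012_s1

theorem t300_A00pm_012_s1 : ∃ t, chk3 f_A00pm_012_s1 t 73 60 1 = true := ex3_c k146_A00pm_012_s1 k147_A00pm_012_s1

theorem t301_A00pm_012_s1 : ∃ t, chk3 f_A00pm_012_s1 t 36 60 1 = true := ex3_a k145_A00pm_012_s1 t300_A00pm_012_s1

theorem t302_A00pm_012_s1 : ∃ t, chk3 f_A00pm_012_s1 t 36 30 1 = true := ex3_b t301_A00pm_012_s1 t299_A00pm_012_s1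

theorem t303_A00pm_012_s1 : ∃ t, chk3 f_A00pm_012_s1 t 18 30 1 = true := ex3_a t302_A00pm_012_s1 t297_A00pm_012_s1

theorem t304_A00pm_012_s1 : ∃ t, chk3 f_A00pm_012_s1 t 9 30 1 = true := ex3_a t303_A00pm_012_s1 k155_A00pm_012_s1

theorem t305_A00pm_012_s1 : ∃ t, chk3 f_A00pm_012_s1 t 9 15 1 = true := ex3_b t304_A00pm_012_s1 t294_A00pm_012_s1

theorem t306_A00pm_012_s1 : ∃ t, chk3 f_A00pm_012_s1 t 38 29 1 = true := ex3_a k142_A00pm_012_s1 k143_A00pm_012_s1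

theorem t307_A00pm_012_s1 : ∃ t, chk3 f_A00pm_012_s1 t 38 14 1 = true := ex3_b k141_A00pm_012_s1 t306_A00pm_012_s1

theorem t308_A00pm_012_s1 : ∃ t, chk3 f_A00pm_012_s1 t 19 14 1 = true := ex3_a t307_A00pm_012_s1 k144_A00pm_012_s1

theorem t309_A00pm_012_s1 : ∃ t, chk3 f_A00pm_012_s1 t 37 29 1 = true := ex3_a k139_A00pm_012_s1 k140_A00pm_012_s1

theorem t310_A00pm_012_s1 : ∃ t, chk3 f_A00pm_012_s1 t 18 29 1 = true := ex3_a k138_A00pm_012_s1 t309_A00pm_012_s1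

theorem t311_A00pm_012_s1 : ∃ t, chk3 f_A00pm_012_s1 t 18 14 1 = true := ex3_b k137_A00pm_012_s1 t310_A00pm_012_s1

theorem t312_A00pm_012_s1 : ∃ t, chk3 f_A00pm_012_s1 t 9 14 1 = true := ex3_a t311_A00pm_012_s1 t308_A00pm_012_s1

theorem t313_A00pm_012_s1 : ∃ t, chk3 f_A00pm_012_s1 t 9 7 1 = true := ex3_b t312_A00pm_012_s1 t305_A00pm_012_s1

theorem t314_A00pm_012_s1 : ∃ t, chk3 f_A00pm_012_s1 t 34 63 1 = true := ex3_c k134_A00pm_012_s1 k135_A00pm_012_s1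

theorem t315_A00pm_012_s1 : ∃ t, chk3 f_A00pm_012_s1 t 17 63 1 = true := ex3_a t314_A00pm_012_s1 k136_A00pm_012_s1

theorem t316_A00pm_012_s1 : ∃ t, chk3 f_A00pm_012_s1 t 140 248 3 = true := ex3_b k128_A00pm_012_s1 k129_A00pm_012_s1

theorem t317_A00pm_012_s1 : ∃ t, chk3 f_A00pm_012_s1 t 140 124 3 = true := ex3_b t316_A00pm_012_s1 k130_A00pm_012_s1

theorem t318_A00pm_012_s1 : ∃ t, chk3 f_A00pm_012_s1 t 70 124 3 = true := ex3_a t317_A00pm_012_s1 k131_A00pm_012_s1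

theorem t319_A00pm_012_s1 : ∃ t, chk3 f_A00pm_012_s1 t 70 62 3 = true := ex3_b t318_A00pm_012_s1 k132_A00pm_012_s1

theorem t320_A00pm_012_s1 : ∃ t, chk3 f_A00pm_012_s1 t 280 496 2 = true := ex3_a k121_A00pm_012_s1 k122_A00pm_012_s1

theorem t321_A00pm_012_s1 : ∃ t, chk3 f_A00pm_012_s1 t 140 496 2 = true := ex3_a t320_A00pm_012_s1 k123_A00pm_012_s1

theorem t322_A00pm_012_s1 : ∃ t, chk3 f_A00pm_012_s1 t 140 248 2 = true := ex3_b t321_A00pm_012_s1 k124_A00pm_012_s1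

theorem t323_A00pm_012_s1 : ∃ t, chk3 f_A00pm_012_s1 t 140 124 2 = true := ex3_b t322_A00pm_012_s1 k125_A00pm_012_s1

theorem t324_A00pm_012_s1 : ∃ t, chk3 f_A00pm_012_s1 t 70 124 2 = true := ex3_a t323_A00pm_012_s1 k126_A00pm_012_s1

theorem t325_A00pm_012_s1 : ∃ t, chk3 f_A00pm_012_s1 t 70 62 2 = true := ex3_b t324_A00pm_012_s1 k127_A00pm_012_s1

theorem t326_A00pm_012_s1 : ∃ t, chk3 f_A00pm_012_s1 t 70 62 1 = true := ex3_c t325_A00pm_012_s1 t319_A00pm_012_s1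

theorem t327_A00pm_012_s1 : ∃ t, chk3 f_A00pm_012_s1 t 35 62 1 = true := ex3_a t326_A00pm_012_s1 k133_A00pm_012_s1

theorem t328_A00pm_012_s1 : ∃ t, chk3 f_A00pm_012_s1 t 69 125 1 = true := ex3_c k119_A00pm_012_s1 k120_A00pm_012_s1

theorem t329_A00pm_012_s1 : ∃ t, chk3 f_A00pm_012_s1 t 139 248 3 = true := ex3_c k116_A00pm_012_s1 k117_A00pm_012_s1

theorem t330_A00pm_012_s1 : ∃ t, chk3 f_A00pm_012_s1 t 139 124 3 = true := ex3_b t329_A00pm_012_s1 k118_A00pm_012_s1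

theorem t331_A00pm_012_s1 : ∃ t, chk3 f_A00pm_012_s1 t 138 124 7 = true := ex3_a k114_A00pm_012_s1 k115_A00pm_012_s1

theorem t332_A00pm_012_s1 : ∃ t, chk3 f_A00pm_012_s1 t 138 124 6 = true := ex3_a k112_A00pm_012_s1 k113_A00pm_012_s1

theorem t333_A00pm_012_s1 : ∃ t, chk3 f_A00pm_012_s1 t 138 124 3 = true := ex3_c t332_A00pm_012_s1 t331_A00pm_012_s1

theorem t334_A00pm_012_s1 : ∃ t, chk3 f_A00pm_012_s1 t 69 124 3 = true := ex3_a t333_A00pm_012_s1 t330_A00pm_012_s1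

theorem t335_A00pm_012_s1 : ∃ t, chk3 f_A00pm_012_s1 t 278 498 2 = true := ex3_b k108_A00pm_012_s1 k109_A00pm_012_s1

theorem t336_A00pm_012_s1 : ∃ t, chk3 f_A00pm_012_s1 t 278 249 2 = true := ex3_b t335_A00pm_012_s1 k110_A00pm_012_s1

theorem t337_A00pm_012_s1 : ∃ t, chk3 f_A00pm_012_s1 t 139 249 2 = true := ex3_a t336_A00pm_012_s1 k111_A00pm_012_s1

theorem t338_A00pm_012_s1 : ∃ t, chk3 f_A00pm_012_s1 t 279 497 2 = true := ex3_b k106_A00pm_012_s1 k107_A00pm_012_s1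

theorem t339_A00pm_012_s1 : ∃ t, chk3 f_A00pm_012_s1 t 279 248 2 = true := ex3_b k105_A00pm_012_s1 t338_A00pm_012_s1

theorem t340_A00pm_012_s1 : ∃ t, chk3 f_A00pm_012_s1 t 139 248 2 = true := ex3_a k104_A00pm_012_s1 t339_A00pm_012_s1

theorem t341_A00pm_012_s1 : ∃ t, chk3 f_A00pm_012_s1 t 139 124 2 = true := ex3_b t340_A00pm_012_s1 t337_A00pm_012_s1

theorem t342_A00pm_012_s1 : ∃ t, chk3 f_A00pm_012_s1 t 277 249 2 = true := ex3_b k102_A00pm_012_s1 k103_A00pm_012_s1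

theorem t343_A00pm_012_s1 : ∃ t, chk3 f_A00pm_012_s1 t 277 124 2 = true := ex3_b k101_A00pm_012_s1 t342_A00pm_012_s1

theorem t344_A00pm_012_s1 : ∃ t, chk3 f_A00pm_012_s1 t 276 124 4 = true := ex3_b k98_A00pm_012_s1 k99_A00pm_012_s1

theorem t345_A00pm_012_s1 : ∃ t, chk3 f_A00pm_012_s1 t 276 124 2 = true := ex3_c t344_A00pm_012_s1 k100_A00pm_012_s1

theorem t346_A00pm_012_s1 : ∃ t, chk3 f_A00pm_012_s1 t 138 124 2 = true := ex3_a t345_A00pm_012_s1 t343_A00pm_012_s1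

theorem t347_A00pm_012_s1 : ∃ t, chk3 f_A00pm_012_s1 t 69 124 2 = true := ex3_a t346_A00pm_012_s1 t341_A00pm_012_s1

theorem t348_A00pm_012_s1 : ∃ t, chk3 f_A00pm_012_s1 t 69 124 1 = true := ex3_c t347_A00pm_012_s1 t334_A00pm_012_s1

theorem t349_A00pm_012_s1 : ∃ t, chk3 f_A00pm_012_s1 t 69 62 1 = true := ex3_b t348_A00pm_012_s1 t328_A00pm_012_s1

theorem t350_A00pm_012_s1 : ∃ t, chk3 f_A00pm_012_s1 t 68 125 3 = true := ex3_a k96_A00pm_012_s1 k97_A00pm_012_s1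

theorem t351_A00pm_012_s1 : ∃ t, chk3 f_A00pm_012_s1 t 137 500 2 = true := ex3_b k92_A00pm_012_s1 k93_A00pm_012_s1

theorem t352_A00pm_012_s1 : ∃ t, chk3 f_A00pm_012_s1 t 137 250 2 = true := ex3_b t351_A00pm_012_s1 k94_A00pm_012_s1

theorem t353_A00pm_012_s1 : ∃ t, chk3 f_A00pm_012_s1 t 137 125 2 = true := ex3_b t352_A00pm_012_s1 k95_A00pm_012_s1

theorem t354_A00pm_012_s1 : ∃ t, chk3 f_A00pm_012_s1 t 136 125 2 = true := ex3_b k90_A00pm_012_s1 k91_A00pm_012_s1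

theorem t355_A00pm_012_s1 : ∃ t, chk3 f_A00pm_012_s1 t 68 125 2 = true := ex3_a t354_A00pm_012_s1 t353_A00pm_012_s1

theorem t356_A00pm_012_s1 : ∃ t, chk3 f_A00pm_012_s1 t 68 125 1 = true := ex3_c t355_A00pm_012_s1 t350_A00pm_012_s1

theorem t357_A00pm_012_s1 : ∃ t, chk3 f_A00pm_012_s1 t 68 124 3 = true := ex3_c k88_A00pm_012_s1 k89_A00pm_012_s1

theorem t358_A00pm_012_s1 : ∃ t, chk3 f_A00pm_012_s1 t 137 124 2 = true := ex3_b k86_A00pm_012_s1 k87_A00pm_012_s1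

theorem t359_A00pm_012_s1 : ∃ t, chk3 f_A00pm_012_s1 t 68 124 2 = true := ex3_a k85_A00pm_012_s1 t358_A00pm_012_s1

theorem t360_A00pm_012_s1 : ∃ t, chk3 f_A00pm_012_s1 t 68 124 1 = true := ex3_c t359_A00pm_012_s1 t357_A00pm_012_s1

theorem t361_A00pm_012_s1 : ∃ t, chk3 f_A00pm_012_s1 t 68 62 1 = true := ex3_b t360_A00pm_012_s1 t356_A00pm_012_s1

theorem t362_A00pm_012_s1 : ∃ t, chk3 f_A00pm_012_s1 t 34 62 1 = true := ex3_a t361_A00pm_012_s1 t349_A00pm_012_s1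

theorem t363_A00pm_012_s1 : ∃ t, chk3 f_A00pm_012_s1 t 17 62 1 = true := ex3_a t362_A00pm_012_s1 t327_A00pm_012_s1

theorem t364_A00pm_012_s1 : ∃ t, chk3 f_A00pm_012_s1 t 17 31 1 = true := ex3_b t363_A00pm_012_s1 t315_A00pm_012_s1

theorem t365_A00pm_012_s1 : ∃ t, chk3 f_A00pm_012_s1 t 142 123 1 = true := ex3_c k82_A00pm_012_s1 k83_A00pm_012_s1

theorem t366_A00pm_012_s1 : ∃ t, chk3 f_A00pm_012_s1 t 71 123 1 = true := ex3_a t365_A00pm_012_s1 k84_A00pm_012_s1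

theorem t367_A00pm_012_s1 : ∃ t, chk3 f_A00pm_012_s1 t 71 61 1 = true := ex3_b k81_A00pm_012_s1 t366_A00pm_012_s1

theorem t368_A00pm_012_s1 : ∃ t, chk3 f_A00pm_012_s1 t 140 123 3 = true := ex3_a k78_A00pm_012_s1 k79_A00pm_012_s1

theorem t369_A00pm_012_s1 : ∃ t, chk3 f_A00pm_012_s1 t 70 123 3 = true := ex3_a t368_A00pm_012_s1 k80_A00pm_012_s1

theorem t370_A00pm_012_s1 : ∃ t, chk3 f_A00pm_012_s1 t 70 61 3 = true := ex3_b k77_A00pm_012_s1 t369_A00pm_012_s1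

theorem t371_A00pm_012_s1 : ∃ t, chk3 f_A00pm_012_s1 t 141 123 2 = true := ex3_a k75_A00pm_012_s1 k76_A00pm_012_s1

theorem t372_A00pm_012_s1 : ∃ t, chk3 f_A00pm_012_s1 t 140 123 2 = true := ex3_c k73_A00pm_012_s1 k74_A00pm_012_s1

theorem t373_A00pm_012_s1 : ∃ t, chk3 f_A00pm_012_s1 t 70 123 2 = true := ex3_a t372_A00pm_012_s1 t371_A00pm_012_s1

theorem t374_A00pm_012_s1 : ∃ t, chk3 f_A00pm_012_s1 t 70 61 2 = true := ex3_b k72_A00pm_012_s1 t373_A00pm_012_s1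

theorem t375_A00pm_012_s1 : ∃ t, chk3 f_A00pm_012_s1 t 70 61 1 = true := ex3_c t374_A00pm_012_s1 t370_A00pm_012_s1

theorem t376_A00pm_012_s1 : ∃ t, chk3 f_A00pm_012_s1 t 35 61 1 = true := ex3_a t375_A00pm_012_s1 t367_A00pm_012_s1

theorem t377_A00pm_012_s1 : ∃ t, chk3 f_A00pm_012_s1 t 139 123 7 = true := ex3_b k70_A00pm_012_s1 k71_A00pm_012_s1

theorem t378_A00pm_012_s1 : ∃ t, chk3 f_A00pm_012_s1 t 138 123 7 = true := ex3_a k68_A00pm_012_s1 k69_A00pm_012_s1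

theorem t379_A00pm_012_s1 : ∃ t, chk3 f_A00pm_012_s1 t 69 123 7 = true := ex3_a t378_A00pm_012_s1 t377_A00pm_012_s1

theorem t380_A00pm_012_s1 : ∃ t, chk3 f_A00pm_012_s1 t 69 122 7 = true := ex3_b k66_A00pm_012_s1 k67_A00pm_012_s1

theorem t381_A00pm_012_s1 : ∃ t, chk3 f_A00pm_012_s1 t 69 61 7 = true := ex3_b t380_A00pm_012_s1 t379_A00pm_012_s1

theorem t382_A00pm_012_s1 : ∃ t, chk3 f_A00pm_012_s1 t 69 123 6 = true := ex3_a k64_A00pm_012_s1 k65_A00pm_012_s1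

theorem t383_A00pm_012_s1 : ∃ t, chk3 f_A00pm_012_s1 t 69 61 6 = true := ex3_b k63_A00pm_012_s1 t382_A00pm_012_s1

theorem t384_A00pm_012_s1 : ∃ t, chk3 f_A00pm_012_s1 t 69 61 3 = true := ex3_c t383_A00pm_012_s1 t381_A00pm_012_s1

theorem t385_A00pm_012_s1 : ∃ t, chk3 f_A00pm_012_s1 t 139 123 2 = true := ex3_b k61_A00pm_012_s1 k62_A00pm_012_s1

theorem t386_A00pm_012_s1 : ∃ t, chk3 f_A00pm_012_s1 t 138 123 2 = true := ex3_c k59_A00pm_012_s1 k60_A00pm_012_s1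

theorem t387_A00pm_012_s1 : ∃ t, chk3 f_A00pm_012_s1 t 69 123 2 = true := ex3_a t386_A00pm_012_s1 t385_A00pm_012_s1

theorem t388_A00pm_012_s1 : ∃ t, chk3 f_A00pm_012_s1 t 69 122 2 = true := ex3_c k57_A00pm_012_s1 k58_A00pm_012_s1

theorem t389_A00pm_012_s1 : ∃ t, chk3 f_A00pm_012_s1 t 69 61 2 = true := ex3_b t388_A00pm_012_s1 t387_A00pm_012_s1

theorem t390_A00pm_012_s1 : ∃ t, chk3 f_A00pm_012_s1 t 69 61 1 = true := ex3_c t389_A00pm_012_s1 t384_A00pm_012_s1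

theorem t391_A00pm_012_s1 : ∃ t, chk3 f_A00pm_012_s1 t 137 123 7 = true := ex3_a k55_A00pm_012_s1 k56_A00pm_012_s1

theorem t392_A00pm_012_s1 : ∃ t, chk3 f_A00pm_012_s1 t 68 123 7 = true := ex3_a k54_A00pm_012_s1 t391_A00pm_012_s1

theorem t393_A00pm_012_s1 : ∃ t, chk3 f_A00pm_012_s1 t 68 61 7 = true := ex3_b k53_A00pm_012_s1 t392_A00pm_012_s1

theorem t394_A00pm_012_s1 : ∃ t, chk3 f_A00pm_012_s1 t 137 61 6 = true := ex3_a k51_A00pm_012_s1 k52_A00pm_012_s1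

theorem t395_A00pm_012_s1 : ∃ t, chk3 f_A00pm_012_s1 t 68 61 6 = true := ex3_a k50_A00pm_012_s1 t394_A00pm_012_s1

theorem t396_A00pm_012_s1 : ∃ t, chk3 f_A00pm_012_s1 t 68 61 3 = true := ex3_c t395_A00pm_012_s1 t393_A00pm_012_s1

theorem t397_A00pm_012_s1 : ∃ t, chk3 f_A00pm_012_s1 t 68 61 5 = true := ex3_b k48_A00pm_012_s1 k49_A00pm_012_s1

theorem t398_A00pm_012_s1 : ∃ t, chk3 f_A00pm_012_s1 t 68 61 4 = true := ex3_b k46_A00pm_012_s1 k47_A00pm_012_s1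

theorem t399_A00pm_012_s1 : ∃ t, chk3 f_A00pm_012_s1 t 68 61 2 = true := ex3_c t398_A00pm_012_s1 t397_A00pm_012_s1

theorem t400_A00pm_012_s1 : ∃ t, chk3 f_A00pm_012_s1 t 68 61 1 = true := ex3_c t399_A00pm_012_s1 t396_A00pm_012_s1

theorem t401_A00pm_012_s1 : ∃ t, chk3 f_A00pm_012_s1 t 34 61 1 = true := ex3_a t400_A00pm_012_s1 t390_A00pm_012_s1

theorem t402_A00pm_012_s1 : ∃ t, chk3 f_A00pm_012_s1 t 17 61 1 = true := ex3_a t401_A00pm_012_s1 t376_A00pm_012_s1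

theorem t403_A00pm_012_s1 : ∃ t, chk3 f_A00pm_012_s1 t 70 60 1 = true := ex3_c k43_A00pm_012_s1 k44_A00pm_012_s1

theorem t404_A00pm_012_s1 : ∃ t, chk3 f_A00pm_012_s1 t 35 60 1 = true := ex3_a t403_A00pm_012_s1 k45_A00pm_012_s1

theorem t405_A00pm_012_s1 : ∃ t, chk3 f_A00pm_012_s1 t 17 60 1 = true := ex3_a k42_A00pm_012_s1 t404_A00pm_012_s1

theorem t406_A00pm_012_s1 : ∃ t, chk3 f_A00pm_012_s1 t 17 30 1 = true := ex3_b t405_A00pm_012_s1 t402_A00pm_012_s1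

theorem t407_A00pm_012_s1 : ∃ t, chk3 f_A00pm_012_s1 t 17 15 1 = true := ex3_b t406_A00pm_012_s1 t364_A00pm_012_s1

theorem t408_A00pm_012_s1 : ∃ t, chk3 f_A00pm_012_s1 t 67 252 1 = true := ex3_b k38_A00pm_012_s1 k39_A00pm_012_s1

theorem t409_A00pm_012_s1 : ∃ t, chk3 f_A00pm_012_s1 t 67 126 1 = true := ex3_b t408_A00pm_012_s1 k40_A00pm_012_s1

theorem t410_A00pm_012_s1 : ∃ t, chk3 f_A00pm_012_s1 t 133 126 1 = true := ex3_a k36_A00pm_012_s1 k37_A00pm_012_s1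

theorem t411_A00pm_012_s1 : ∃ t, chk3 f_A00pm_012_s1 t 66 126 1 = true := ex3_a k35_A00pm_012_s1 t410_A00pm_012_s1

theorem t412_A00pm_012_s1 : ∃ t, chk3 f_A00pm_012_s1 t 33 126 1 = true := ex3_a t411_A00pm_012_s1 t409_A00pm_012_s1

theorem t413_A00pm_012_s1 : ∃ t, chk3 f_A00pm_012_s1 t 33 63 1 = true := ex3_b t412_A00pm_012_s1 k41_A00pm_012_s1

theorem t414_A00pm_012_s1 : ∃ t, chk3 f_A00pm_012_s1 t 16 63 1 = true := ex3_a k34_A00pm_012_s1 t413_A00pm_012_s1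

theorem t415_A00pm_012_s1 : ∃ t, chk3 f_A00pm_012_s1 t 135 125 1 = true := ex3_a k32_A00pm_012_s1 k33_A00pm_012_s1

theorem t416_A00pm_012_s1 : ∃ t, chk3 f_A00pm_012_s1 t 134 125 1 = true := ex3_a k30_A00pm_012_s1 k31_A00pm_012_s1

theorem t417_A00pm_012_s1 : ∃ t, chk3 f_A00pm_012_s1 t 67 125 1 = true := ex3_a t416_A00pm_012_s1 t415_A00pm_012_s1

theorem t418_A00pm_012_s1 : ∃ t, chk3 f_A00pm_012_s1 t 66 125 1 = true := ex3_a k28_A00pm_012_s1 k29_A00pm_012_s1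

theorem t419_A00pm_012_s1 : ∃ t, chk3 f_A00pm_012_s1 t 33 125 1 = true := ex3_a t418_A00pm_012_s1 t417_A00pm_012_s1

theorem t420_A00pm_012_s1 : ∃ t, chk3 f_A00pm_012_s1 t 33 124 1 = true := ex3_b k26_A00pm_012_s1 k27_A00pm_012_s1

theorem t421_A00pm_012_s1 : ∃ t, chk3 f_A00pm_012_s1 t 33 62 1 = true := ex3_b t420_A00pm_012_s1 t419_A00pm_012_s1

theorem t422_A00pm_012_s1 : ∃ t, chk3 f_A00pm_012_s1 t 16 62 1 = true := ex3_a k25_A00pm_012_s1 t421_A00pm_012_s1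

theorem t423_A00pm_012_s1 : ∃ t, chk3 f_A00pm_012_s1 t 16 31 1 = true := ex3_b t422_A00pm_012_s1 t414_A00pm_012_s1

theorem t424_A00pm_012_s1 : ∃ t, chk3 f_A00pm_012_s1 t 16 15 1 = true := ex3_b k24_A00pm_012_s1 t423_A00pm_012_s1

theorem t425_A00pm_012_s1 : ∃ t, chk3 f_A00pm_012_s1 t 8 15 1 = true := ex3_a t424_A00pm_012_s1 t407_A00pm_012_s1

theorem t426_A00pm_012_s1 : ∃ t, chk3 f_A00pm_012_s1 t 8 7 1 = true := ex3_b k23_A00pm_012_s1 t425_A00pm_012_s1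

theorem t427_A00pm_012_s1 : ∃ t, chk3 f_A00pm_012_s1 t 4 7 1 = true := ex3_a t426_A00pm_012_s1 t313_A00pm_012_s1

theorem t428_A00pm_012_s1 : ∃ t, chk3 f_A00pm_012_s1 t 19 13 3 = true := ex3_a k21_A00pm_012_s1 k22_A00pm_012_s1

theorem t429_A00pm_012_s1 : ∃ t, chk3 f_A00pm_012_s1 t 9 13 3 = true := ex3_a k20_A00pm_012_s1 t428_A00pm_012_s1

theorem t430_A00pm_012_s1 : ∃ t, chk3 f_A00pm_012_s1 t 4 13 3 = true := ex3_a k19_A00pm_012_s1 t429_A00pm_012_s1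

theorem t431_A00pm_012_s1 : ∃ t, chk3 f_A00pm_012_s1 t 79 25 3 = true := ex3_a k17_A00pm_012_s1 k18_A00pm_012_s1

theorem t432_A00pm_012_s1 : ∃ t, chk3 f_A00pm_012_s1 t 39 25 3 = true := ex3_a k16_A00pm_012_s1 t431_A00pm_012_s1

theorem t433_A00pm_012_s1 : ∃ t, chk3 f_A00pm_012_s1 t 19 25 3 = true := ex3_a k15_A00pm_012_s1 t432_A00pm_012_s1

theorem t434_A00pm_012_s1 : ∃ t, chk3 f_A00pm_012_s1 t 9 25 3 = true := ex3_a k14_A00pm_012_s1 t433_A00pm_012_s1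

theorem t435_A00pm_012_s1 : ∃ t, chk3 f_A00pm_012_s1 t 9 12 3 = true := ex3_b k13_A00pm_012_s1 t434_A00pm_012_s1

theorem t436_A00pm_012_s1 : ∃ t, chk3 f_A00pm_012_s1 t 4 12 3 = true := ex3_a k12_A00pm_012_s1 t435_A00pm_012_s1

theorem t437_A00pm_012_s1 : ∃ t, chk3 f_A00pm_012_s1 t 4 6 3 = true := ex3_b t436_A00pm_012_s1 t430_A00pm_012_s1

theorem t438_A00pm_012_s1 : ∃ t, chk3 f_A00pm_012_s1 t 19 13 2 = true := ex3_a k10_A00pm_012_s1 k11_A00pm_012_s1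

theorem t439_A00pm_012_s1 : ∃ t, chk3 f_A00pm_012_s1 t 9 13 2 = true := ex3_a k9_A00pm_012_s1 t438_A00pm_012_s1

theorem t440_A00pm_012_s1 : ∃ t, chk3 f_A00pm_012_s1 t 4 13 2 = true := ex3_a k8_A00pm_012_s1 t439_A00pm_012_s1

theorem t441_A00pm_012_s1 : ∃ t, chk3 f_A00pm_012_s1 t 79 25 2 = true := ex3_a k6_A00pm_012_s1 k7_A00pm_012_s1

theorem t442_A00pm_012_s1 : ∃ t, chk3 f_A00pm_012_s1 t 39 25 2 = true := ex3_a k5_A00pm_012_s1 t441_A00pm_012_s1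

theorem t443_A00pm_012_s1 : ∃ t, chk3 f_A00pm_012_s1 t 19 25 2 = true := ex3_a k4_A00pm_012_s1 t442_A00pm_012_s1

theorem t444_A00pm_012_s1 : ∃ t, chk3 f_A00pm_012_s1 t 9 25 2 = true := ex3_a k3_A00pm_012_s1 t443_A00pm_012_s1

theorem t445_A00pm_012_s1 : ∃ t, chk3 f_A00pm_012_s1 t 9 12 2 = true := ex3_b k2_A00pm_012_s1 t444_A00pm_012_s1

theorem t446_A00pm_012_s1 : ∃ t, chk3 f_A00pm_012_s1 t 4 12 2 = true := ex3_a k1_A00pm_012_s1 t445_A00pm_012_s1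

theorem t447_A00pm_012_s1 : ∃ t, chk3 f_A00pm_012_s1 t 4 6 2 = true := ex3_b t446_A00pm_012_s1 t440_A00pm_012_s1

theorem t448_A00pm_012_s1 : ∃ t, chk3 f_A00pm_012_s1 t 4 6 1 = true := ex3_c t447_A00pm_012_s1 t437_A00pm_012_s1

theorem t449_A00pm_012_s1 : ∃ t, chk3 f_A00pm_012_s1 t 4 3 1 = true := ex3_b t448_A00pm_012_s1 t427_A00pm_012_s1

theorem t450_A00pm_012_s1 : ∃ t, chk3 f_A00pm_012_s1 t 4 1 1 = true := ex3_b k0_A00pm_012_s1 t449_A00pm_012_s1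

theorem t451_A00pm_012_s1 : ∃ t, chk3 f_A00pm_012_s1 t 2 1 1 = true := ex3_a t450_A00pm_012_s1 t291_A00pm_012_s1

theorem t452_A00pm_012_s1 : ∃ t, chk3 f_A00pm_012_s1 t 1 1 1 = true := ex3_a t451_A00pm_012_s1 t228_A00pm_012_s1

theorem c_A00pm_012_s1 : CertF 0 536870912 536870912 536870912 966367641 24778659 true true false .pnp 0 1 2
    ndB0q0 ndB0q1 pcB2 cut_A00pm_012_s1 xt_A00pm_012_s1 :=
  certF2 (fam := true) (s1 := true) (s2 := false) (a := 0) (b := 1) (c := 2) (cn := .pnp) (n1 := ndB0q0) (n2 := ndB0q1) (pc := pcB2) (cut := cut_A00pm_012_s1) (xt := xt_A00pm_012_s1) (P1 := 0) (W1 := 536870912) (P2 := 536870912) (W2 := 536870912) (P3 := 966367641) (W3 := 24778659)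
    rfl (fun _ => rfl) t452_A00pm_012_s1

theorem s_A00pm_012_s1 {κ x : ℝ} (hκ : κ * h0 = ken x) (hx : ((966367641 : ℕ) : ℝ) / S ≤ x)
    (hx' : x ≤ (((966367641 : ℕ) : ℝ) + (24778659 : ℕ)) / S)
    (H : CutA (VFD κ) PP tK tL pcB (Cut.of [[⟨0, 0, 0, 33554432⟩, ⟨1, 1, 0, 33554432⟩, ⟨2, 1, 0, 33554432⟩]]) 0 1 2 0 0 (sgb true) (sgb false) x) :
    AltA (VFD κ) PP tK tL pcB [⟨3, 0, 0, 1449551462⟩] 0 1 2 0 0 (sgb true) (sgb false) x :=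
  strip_altAD (m := 1449551462) true rfl hκ (SH.κ0 hκ (SH.hx1 hx).le (SH.hx2 hx').le) (SH.hx1 hx).le (SH.hx2 hx') (covB00).cov (covB01).cov hx hx' c_A00pm_012_s1 H ((okx hx hx').extA (T := tt) (sideB hx hx') hκ rfl rfl (.O 0 true) (.O 1 false) rfl)

end Pool.Agent.Strip051.G.I9000_9231.Tab.St.C
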