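import Pool.Agent.Strip051.G.I9000_9231.StH
import Pool.Agent.Strip051.G.I9000_9231.Sp5_0
import Pool.Agent.Strip051.G.I9000_9231.Sp5_1
import Pool.Agent.Strip051.G.I9000_9231.Sp5_2
import Pool.Agent.Strip051.G.I9000_9231.Sp5_3
import Pool.Agent.Strip051.G.I9000_9231.StF

/-! # Unit strips 5 (generated) -/

set_option linter.all false
set_option maxRecDepth 100000

namespace Pool.Agent.Strip051.G.I9000_9231.Tab.St.C

open Pool.Agent.Strip051.PB Pool.Agent.Strip051.PB.T Pool.Agent.StripNear Pool.Agent.Strip051.LC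
open Pool.Agent.Strip051.G.I9000_9231.Tab Pool.Agent.Strip051.G.I9000_9231.Tab.St

theorem t285_A00pm_102_s1 : ∃ t, chk3 f_A00pm_102_s1 t 15 10 1 = true := ex3_a k281_A00pm_102_s1 k282_A00pm_102_s1

theorem t286_A00pm_102_s1 : ∃ t, chk3 f_A00pm_102_s1 t 15 5 1 = true := ex3_b t285_A00pm_102_s1 k283_A00pm_102_s1

theorem t287_A00pm_102_s1 : ∃ t, chk3 f_A00pm_102_s1 t 14 21 1 = true := ex3_c k278_A00pm_102_s1 k279_A00pm_102_s1

theorem t288_A00pm_102_s1 : ∃ t, chk3 f_A00pm_102_s1 t 28 83 1 = true := ex3_a k275_A00pm_102_s1 k276_A00pm_102_s1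

theorem t289_A00pm_102_s1 : ∃ t, chk3 f_A00pm_102_s1 t 28 41 1 = true := ex3_b k274_A00pm_102_s1 t288_A00pm_102_s1

theorem t290_A00pm_102_s1 : ∃ t, chk3 f_A00pm_102_s1 t 14 41 1 = true := ex3_a t289_A00pm_102_s1 k277_A00pm_102_s1

theorem t291_A00pm_102_s1 : ∃ t, chk3 f_A00pm_102_s1 t 14 20 1 = true := ex3_b k273_A00pm_102_s1 t290_A00pm_102_s1

theorem t292_A00pm_102_s1 : ∃ t, chk3 f_A00pm_102_s1 t 14 10 1 = true := ex3_b t291_A00pm_102_s1 t287_A00pm_102_s1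

theorem t293_A00pm_102_s1 : ∃ t, chk3 f_A00pm_102_s1 t 14 5 1 = true := ex3_b t292_A00pm_102_s1 k280_A00pm_102_s1

theorem t294_A00pm_102_s1 : ∃ t, chk3 f_A00pm_102_s1 t 7 5 1 = true := ex3_a t293_A00pm_102_s1 t286_A00pm_102_s1

theorem t295_A00pm_102_s1 : ∃ t, chk3 f_A00pm_102_s1 t 6 11 1 = true := ex3_a k271_A00pm_102_s1 k272_A00pm_102_s1

theorem t296_A00pm_102_s1 : ∃ t, chk3 f_A00pm_102_s1 t 6 21 1 = true := ex3_a k269_A00pm_102_s1 k270_A00pm_102_s1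

theorem t297_A00pm_102_s1 : ∃ t, chk3 f_A00pm_102_s1 t 6 167 1 = true := ex3_a k267_A00pm_102_s1 k268_A00pm_102_s1

theorem t298_A00pm_102_s1 : ∃ t, chk3 f_A00pm_102_s1 t 6 83 1 = true := ex3_b k266_A00pm_102_s1 t297_A00pm_102_s1

theorem t299_A00pm_102_s1 : ∃ t, chk3 f_A00pm_102_s1 t 6 82 1 = true := ex3_a k264_A00pm_102_s1 k265_A00pm_102_s1

theorem t300_A00pm_102_s1 : ∃ t, chk3 f_A00pm_102_s1 t 6 41 1 = true := ex3_b t299_A00pm_102_s1 t298_A00pm_102_s1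

theorem t301_A00pm_102_s1 : ∃ t, chk3 f_A00pm_102_s1 t 12 80 3 = true := ex3_a k260_A00pm_102_s1 k261_A00pm_102_s1

theorem t302_A00pm_102_s1 : ∃ t, chk3 f_A00pm_102_s1 t 12 40 3 = true := ex3_b t301_A00pm_102_s1 k262_A00pm_102_s1

theorem t303_A00pm_102_s1 : ∃ t, chk3 f_A00pm_102_s1 t 6 40 3 = true := ex3_a t302_A00pm_102_s1 k263_A00pm_102_s1

theorem t304_A00pm_102_s1 : ∃ t, chk3 f_A00pm_102_s1 t 12 80 2 = true := ex3_a k256_A00pm_102_s1 k257_A00pm_102_s1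

theorem t305_A00pm_102_s1 : ∃ t, chk3 f_A00pm_102_s1 t 12 40 2 = true := ex3_b t304_A00pm_102_s1 k258_A00pm_102_s1

theorem t306_A00pm_102_s1 : ∃ t, chk3 f_A00pm_102_s1 t 6 40 2 = true := ex3_a t305_A00pm_102_s1 k259_A00pm_102_s1

theorem t307_A00pm_102_s1 : ∃ t, chk3 f_A00pm_102_s1 t 6 40 1 = true := ex3_c t306_A00pm_102_s1 t303_A00pm_102_s1

theorem t308_A00pm_102_s1 : ∃ t, chk3 f_A00pm_102_s1 t 6 20 1 = true := ex3_b t307_A00pm_102_s1 t300_A00pm_102_s1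

theorem t309_A00pm_102_s1 : ∃ t, chk3 f_A00pm_102_s1 t 6 10 1 = true := ex3_b t308_A00pm_102_s1 t296_A00pm_102_s1

theorem t310_A00pm_102_s1 : ∃ t, chk3 f_A00pm_102_s1 t 6 5 1 = true := ex3_b t309_A00pm_102_s1 t295_A00pm_102_s1

theorem t311_A00pm_102_s1 : ∃ t, chk3 f_A00pm_102_s1 t 3 5 1 = true := ex3_a t310_A00pm_102_s1 t294_A00pm_102_s1

theorem t312_A00pm_102_s1 : ∃ t, chk3 f_A00pm_102_s1 t 62 18 1 = true := ex3_c k252_A00pm_102_s1 k253_A00pm_102_s1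

theorem t313_A00pm_102_s1 : ∃ t, chk3 f_A00pm_102_s1 t 31 18 1 = true := ex3_a t312_A00pm_102_s1 k254_A00pm_102_s1

theorem t314_A00pm_102_s1 : ∃ t, chk3 f_A00pm_102_s1 t 31 9 1 = true := ex3_b t313_A00pm_102_s1 k255_A00pm_102_s1

theorem t315_A00pm_102_s1 : ∃ t, chk3 f_A00pm_102_s1 t 120 37 1 = true := ex3_b k247_A00pm_102_s1 k248_A00pm_102_s1

theorem t316_A00pm_102_s1 : ∃ t, chk3 f_A00pm_102_s1 t 60 37 1 = true := ex3_a t315_A00pm_102_s1 k249_A00pm_102_s1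

theorem t317_A00pm_102_s1 : ∃ t, chk3 f_A00pm_102_s1 t 30 37 1 = true := ex3_a t316_A00pm_102_s1 k250_A00pm_102_s1

theorem t318_A00pm_102_s1 : ∃ t, chk3 f_A00pm_102_s1 t 61 36 2 = true := ex3_b k244_A00pm_102_s1 k245_A00pm_102_s1

theorem t319_A00pm_102_s1 : ∃ t, chk3 f_A00pm_102_s1 t 61 36 1 = true := ex3_c t318_A00pm_102_s1 k246_A00pm_102_s1

theorem t320_A00pm_102_s1 : ∃ t, chk3 f_A00pm_102_s1 t 60 36 2 = true := ex3_a k241_A00pm_102_s1 k242_A00pm_102_s1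

theorem t321_A00pm_102_s1 : ∃ t, chk3 f_A00pm_102_s1 t 60 36 1 = true := ex3_c t320_A00pm_102_s1 k243_A00pm_102_s1

theorem t322_A00pm_102_s1 : ∃ t, chk3 f_A00pm_102_s1 t 30 36 1 = true := ex3_a t321_A00pm_102_s1 t319_A00pm_102_s1

theorem t323_A00pm_102_s1 : ∃ t, chk3 f_A00pm_102_s1 t 30 18 1 = true := ex3_b t322_A00pm_102_s1 t317_A00pm_102_s1

theorem t324_A00pm_102_s1 : ∃ t, chk3 f_A00pm_102_s1 t 30 9 1 = true := ex3_b t323_A00pm_102_s1 k251_A00pm_102_s1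

theorem t325_A00pm_102_s1 : ∃ t, chk3 f_A00pm_102_s1 t 15 9 1 = true := ex3_a t324_A00pm_102_s1 t314_A00pm_102_s1

theorem t326_A00pm_102_s1 : ∃ t, chk3 f_A00pm_102_s1 t 14 39 1 = true := ex3_a k239_A00pm_102_s1 k240_A00pm_102_s1

theorem t327_A00pm_102_s1 : ∃ t, chk3 f_A00pm_102_s1 t 29 38 1 = true := ex3_b k237_A00pm_102_s1 k238_A00pm_102_s1

theorem t328_A00pm_102_s1 : ∃ t, chk3 f_A00pm_102_s1 t 14 38 1 = true := ex3_a k236_A00pm_102_s1 t327_A00pm_102_s1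

theorem t329_A00pm_102_s1 : ∃ t, chk3 f_A00pm_102_s1 t 14 19 1 = true := ex3_b t328_A00pm_102_s1 t326_A00pm_102_s1

theorem t330_A00pm_102_s1 : ∃ t, chk3 f_A00pm_102_s1 t 59 37 2 = true := ex3_a k233_A00pm_102_s1 k234_A00pm_102_s1

theorem t331_A00pm_102_s1 : ∃ t, chk3 f_A00pm_102_s1 t 29 37 2 = true := ex3_a k232_A00pm_102_s1 t330_A00pm_102_s1

theorem t332_A00pm_102_s1 : ∃ t, chk3 f_A00pm_102_s1 t 29 37 1 = true := ex3_c t331_A00pm_102_s1 k235_A00pm_102_s1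

theorem t333_A00pm_102_s1 : ∃ t, chk3 f_A00pm_102_s1 t 29 18 1 = true := ex3_b k231_A00pm_102_s1 t332_A00pm_102_s1

theorem t334_A00pm_102_s1 : ∃ t, chk3 f_A00pm_102_s1 t 14 18 1 = true := ex3_a k230_A00pm_102_s1 t333_A00pm_102_s1

theorem t335_A00pm_102_s1 : ∃ t, chk3 f_A00pm_102_s1 t 14 9 1 = true := ex3_b t334_A00pm_102_s1 t329_A00pm_102_s1

theorem t336_A00pm_102_s1 : ∃ t, chk3 f_A00pm_102_s1 t 7 9 1 = true := ex3_a t335_A00pm_102_s1 t325_A00pm_102_s1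

theorem t337_A00pm_102_s1 : ∃ t, chk3 f_A00pm_102_s1 t 63 34 1 = true := ex3_c k227_A00pm_102_s1 k228_A00pm_102_s1

theorem t338_A00pm_102_s1 : ∃ t, chk3 f_A00pm_102_s1 t 63 17 1 = true := ex3_b t337_A00pm_102_s1 k229_A00pm_102_s1

theorem t339_A00pm_102_s1 : ∃ t, chk3 f_A00pm_102_s1 t 248 140 3 = true := ex3_a k221_A00pm_102_s1 k222_A00pm_102_s1

theorem t340_A00pm_102_s1 : ∃ t, chk3 f_A00pm_102_s1 t 124 140 3 = true := ex3_a t339_A00pm_102_s1 k223_A00pm_102_s1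

theorem t341_A00pm_102_s1 : ∃ t, chk3 f_A00pm_102_s1 t 124 70 3 = true := ex3_b t340_A00pm_102_s1 k224_A00pm_102_s1

theorem t342_A00pm_102_s1 : ∃ t, chk3 f_A00pm_102_s1 t 62 70 3 = true := ex3_a t341_A00pm_102_s1 k225_A00pm_102_s1

theorem t343_A00pm_102_s1 : ∃ t, chk3 f_A00pm_102_s1 t 496 280 2 = true := ex3_b k214_A00pm_102_s1 k215_A00pm_102_s1

theorem t344_A00pm_102_s1 : ∃ t, chk3 f_A00pm_102_s1 t 496 140 2 = true := ex3_b t343_A00pm_102_s1 k216_A00pm_102_s1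

theorem t345_A00pm_102_s1 : ∃ t, chk3 f_A00pm_102_s1 t 248 140 2 = true := ex3_a t344_A00pm_102_s1 k217_A00pm_102_s1

theorem t346_A00pm_102_s1 : ∃ t, chk3 f_A00pm_102_s1 t 124 140 2 = true := ex3_a t345_A00pm_102_s1 k218_A00pm_102_s1

theorem t347_A00pm_102_s1 : ∃ t, chk3 f_A00pm_102_s1 t 124 70 2 = true := ex3_b t346_A00pm_102_s1 k219_A00pm_102_s1

theorem t348_A00pm_102_s1 : ∃ t, chk3 f_A00pm_102_s1 t 62 70 2 = true := ex3_a t347_A00pm_102_s1 k220_A00pm_102_s1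

theorem t349_A00pm_102_s1 : ∃ t, chk3 f_A00pm_102_s1 t 62 70 1 = true := ex3_c t348_A00pm_102_s1 t342_A00pm_102_s1

theorem t350_A00pm_102_s1 : ∃ t, chk3 f_A00pm_102_s1 t 62 35 1 = true := ex3_b t349_A00pm_102_s1 k226_A00pm_102_s1

theorem t351_A00pm_102_s1 : ∃ t, chk3 f_A00pm_102_s1 t 125 69 1 = true := ex3_c k212_A00pm_102_s1 k213_A00pm_102_s1

theorem t352_A00pm_102_s1 : ∃ t, chk3 f_A00pm_102_s1 t 248 139 7 = true := ex3_b k209_A00pm_102_s1 k210_A00pm_102_s1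

theorem t353_A00pm_102_s1 : ∃ t, chk3 f_A00pm_102_s1 t 248 139 6 = true := ex3_a k207_A00pm_102_s1 k208_A00pm_102_s1

theorem t354_A00pm_102_s1 : ∃ t, chk3 f_A00pm_102_s1 t 248 139 3 = true := ex3_c t353_A00pm_102_s1 t352_A00pm_102_s1

theorem t355_A00pm_102_s1 : ∃ t, chk3 f_A00pm_102_s1 t 124 139 3 = true := ex3_a t354_A00pm_102_s1 k211_A00pm_102_s1

theorem t356_A00pm_102_s1 : ∃ t, chk3 f_A00pm_102_s1 t 124 277 7 = true := ex3_b k205_A00pm_102_s1 k206_A00pm_102_s1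

theorem t357_A00pm_102_s1 : ∃ t, chk3 f_A00pm_102_s1 t 124 276 7 = true := ex3_c k203_A00pm_102_s1 k204_A00pm_102_s1

theorem t358_A00pm_102_s1 : ∃ t, chk3 f_A00pm_102_s1 t 124 138 7 = true := ex3_b t357_A00pm_102_s1 t356_A00pm_102_s1

theorem t359_A00pm_102_s1 : ∃ t, chk3 f_A00pm_102_s1 t 124 138 6 = true := ex3_a k201_A00pm_102_s1 k202_A00pm_102_s1

theorem t360_A00pm_102_s1 : ∃ t, chk3 f_A00pm_102_s1 t 124 138 3 = true := ex3_c t359_A00pm_102_s1 t358_A00pm_102_s1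

theorem t361_A00pm_102_s1 : ∃ t, chk3 f_A00pm_102_s1 t 124 69 3 = true := ex3_b t360_A00pm_102_s1 t355_A00pm_102_s1

theorem t362_A00pm_102_s1 : ∃ t, chk3 f_A00pm_102_s1 t 996 278 2 = true := ex3_a k196_A00pm_102_s1 k197_A00pm_102_s1

theorem t363_A00pm_102_s1 : ∃ t, chk3 f_A00pm_102_s1 t 498 278 2 = true := ex3_a t362_A00pm_102_s1 k198_A00pm_102_s1

theorem t364_A00pm_102_s1 : ∃ t, chk3 f_A00pm_102_s1 t 249 278 2 = true := ex3_a t363_A00pm_102_s1 k199_A00pm_102_s1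

theorem t365_A00pm_102_s1 : ∃ t, chk3 f_A00pm_102_s1 t 249 139 2 = true := ex3_b t364_A00pm_102_s1 k200_A00pm_102_s1

theorem t366_A00pm_102_s1 : ∃ t, chk3 f_A00pm_102_s1 t 497 279 4 = true := ex3_b k193_A00pm_102_s1 k194_A00pm_102_s1

theorem t367_A00pm_102_s1 : ∃ t, chk3 f_A00pm_102_s1 t 248 279 4 = true := ex3_a k192_A00pm_102_s1 t366_A00pm_102_s1

theorem t368_A00pm_102_s1 : ∃ t, chk3 f_A00pm_102_s1 t 248 279 2 = true := ex3_c t367_A00pm_102_s1 k195_A00pm_102_s1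

theorem t369_A00pm_102_s1 : ∃ t, chk3 f_A00pm_102_s1 t 248 278 2 = true := ex3_b k190_A00pm_102_s1 k191_A00pm_102_s1

theorem t370_A00pm_102_s1 : ∃ t, chk3 f_A00pm_102_s1 t 248 139 2 = true := ex3_b t369_A00pm_102_s1 t368_A00pm_102_s1

theorem t371_A00pm_102_s1 : ∃ t, chk3 f_A00pm_102_s1 t 124 139 2 = true := ex3_a t370_A00pm_102_s1 t365_A00pm_102_s1

theorem t372_A00pm_102_s1 : ∃ t, chk3 f_A00pm_102_s1 t 124 277 5 = true := ex3_b k188_A00pm_102_s1 k189_A00pm_102_s1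

theorem t373_A00pm_102_s1 : ∃ t, chk3 f_A00pm_102_s1 t 249 277 4 = true := ex3_a k186_A00pm_102_s1 k187_A00pm_102_s1

theorem t374_A00pm_102_s1 : ∃ t, chk3 f_A00pm_102_s1 t 124 277 4 = true := ex3_a k185_A00pm_102_s1 t373_A00pm_102_s1

theorem t375_A00pm_102_s1 : ∃ t, chk3 f_A00pm_102_s1 t 124 277 2 = true := ex3_c t374_A00pm_102_s1 t372_A00pm_102_s1

theorem t376_A00pm_102_s1 : ∃ t, chk3 f_A00pm_102_s1 t 124 276 4 = true := ex3_a k182_A00pm_102_s1 k183_A00pm_102_s1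

theorem t377_A00pm_102_s1 : ∃ t, chk3 f_A00pm_102_s1 t 124 276 2 = true := ex3_c t376_A00pm_102_s1 k184_A00pm_102_s1

theorem t378_A00pm_102_s1 : ∃ t, chk3 f_A00pm_102_s1 t 124 138 2 = true := ex3_b t377_A00pm_102_s1 t375_A00pm_102_s1

theorem t379_A00pm_102_s1 : ∃ t, chk3 f_A00pm_102_s1 t 124 69 2 = true := ex3_b t378_A00pm_102_s1 t371_A00pm_102_s1

theorem t380_A00pm_102_s1 : ∃ t, chk3 f_A00pm_102_s1 t 124 69 1 = true := ex3_c t379_A00pm_102_s1 t361_A00pm_102_s1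

theorem t381_A00pm_102_s1 : ∃ t, chk3 f_A00pm_102_s1 t 62 69 1 = true := ex3_a t380_A00pm_102_s1 t351_A00pm_102_s1

theorem t382_A00pm_102_s1 : ∃ t, chk3 f_A00pm_102_s1 t 125 136 3 = true := ex3_a k179_A00pm_102_s1 k180_A00pm_102_s1

theorem t383_A00pm_102_s1 : ∃ t, chk3 f_A00pm_102_s1 t 125 68 3 = true := ex3_b t382_A00pm_102_s1 k181_A00pm_102_s1

theorem t384_A00pm_102_s1 : ∃ t, chk3 f_A00pm_102_s1 t 500 137 2 = true := ex3_a k175_A00pm_102_s1 k176_A00pm_102_s1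

theorem t385_A00pm_102_s1 : ∃ t, chk3 f_A00pm_102_s1 t 250 137 2 = true := ex3_a t384_A00pm_102_s1 k177_A00pm_102_s1

theorem t386_A00pm_102_s1 : ∃ t, chk3 f_A00pm_102_s1 t 125 137 2 = true := ex3_a t385_A00pm_102_s1 k178_A00pm_102_s1

theorem t387_A00pm_102_s1 : ∃ t, chk3 f_A00pm_102_s1 t 250 136 2 = true := ex3_b k172_A00pm_102_s1 k173_A00pm_102_s1

theorem t388_A00pm_102_s1 : ∃ t, chk3 f_A00pm_102_s1 t 125 136 2 = true := ex3_a t387_A00pm_102_s1 k174_A00pm_102_s1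

theorem t389_A00pm_102_s1 : ∃ t, chk3 f_A00pm_102_s1 t 125 68 2 = true := ex3_b t388_A00pm_102_s1 t386_A00pm_102_s1

theorem t390_A00pm_102_s1 : ∃ t, chk3 f_A00pm_102_s1 t 125 68 1 = true := ex3_c t389_A00pm_102_s1 t383_A00pm_102_s1

theorem t391_A00pm_102_s1 : ∃ t, chk3 f_A00pm_102_s1 t 124 137 7 = true := ex3_a k170_A00pm_102_s1 k171_A00pm_102_s1

theorem t392_A00pm_102_s1 : ∃ t, chk3 f_A00pm_102_s1 t 124 68 7 = true := ex3_b k169_A00pm_102_s1 t391_A00pm_102_s1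

theorem t393_A00pm_102_s1 : ∃ t, chk3 f_A00pm_102_s1 t 124 68 6 = true := ex3_a k167_A00pm_102_s1 k168_A00pm_102_s1

theorem t394_A00pm_102_s1 : ∃ t, chk3 f_A00pm_102_s1 t 124 68 3 = true := ex3_c t393_A00pm_102_s1 t392_A00pm_102_s1

theorem t395_A00pm_102_s1 : ∃ t, chk3 f_A00pm_102_s1 t 249 137 2 = true := ex3_a k165_A00pm_102_s1 k166_A00pm_102_s1

theorem t396_A00pm_102_s1 : ∃ t, chk3 f_A00pm_102_s1 t 248 137 2 = true := ex3_c k163_A00pm_102_s1 k164_A00pm_102_s1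

theorem t397_A00pm_102_s1 : ∃ t, chk3 f_A00pm_102_s1 t 124 137 2 = true := ex3_a t396_A00pm_102_s1 t395_A00pm_102_s1

theorem t398_A00pm_102_s1 : ∃ t, chk3 f_A00pm_102_s1 t 124 136 2 = true := ex3_a k161_A00pm_102_s1 k162_A00pm_102_s1

theorem t399_A00pm_102_s1 : ∃ t, chk3 f_A00pm_102_s1 t 124 68 2 = true := ex3_b t398_A00pm_102_s1 t397_A00pm_102_s1

theorem t400_A00pm_102_s1 : ∃ t, chk3 f_A00pm_102_s1 t 124 68 1 = true := ex3_c t399_A00pm_102_s1 t394_A00pm_102_s1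

theorem t401_A00pm_102_s1 : ∃ t, chk3 f_A00pm_102_s1 t 62 68 1 = true := ex3_a t400_A00pm_102_s1 t390_A00pm_102_s1

theorem t402_A00pm_102_s1 : ∃ t, chk3 f_A00pm_102_s1 t 62 34 1 = true := ex3_b t401_A00pm_102_s1 t381_A00pm_102_s1

theorem t403_A00pm_102_s1 : ∃ t, chk3 f_A00pm_102_s1 t 62 17 1 = true := ex3_b t402_A00pm_102_s1 t350_A00pm_102_s1

theorem t404_A00pm_102_s1 : ∃ t, chk3 f_A00pm_102_s1 t 31 17 1 = true := ex3_a t403_A00pm_102_s1 t338_A00pm_102_s1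

theorem t405_A00pm_102_s1 : ∃ t, chk3 f_A00pm_102_s1 t 123 71 2 = true := ex3_a k158_A00pm_102_s1 k159_A00pm_102_s1

theorem t406_A00pm_102_s1 : ∃ t, chk3 f_A00pm_102_s1 t 123 71 1 = true := ex3_c t405_A00pm_102_s1 k160_A00pm_102_s1

theorem t407_A00pm_102_s1 : ∃ t, chk3 f_A00pm_102_s1 t 122 71 1 = true := ex3_b k156_A00pm_102_s1 k157_A00pm_102_s1

theorem t408_A00pm_102_s1 : ∃ t, chk3 f_A00pm_102_s1 t 61 71 1 = true := ex3_a t407_A00pm_102_s1 t406_A00pm_102_s1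

theorem t409_A00pm_102_s1 : ∃ t, chk3 f_A00pm_102_s1 t 123 141 3 = true := ex3_c k154_A00pm_102_s1 k155_A00pm_102_s1

theorem t410_A00pm_102_s1 : ∃ t, chk3 f_A00pm_102_s1 t 123 140 7 = true := ex3_b k152_A00pm_102_s1 k153_A00pm_102_s1

theorem t411_A00pm_102_s1 : ∃ t, chk3 f_A00pm_102_s1 t 123 140 3 = true := ex3_c k151_A00pm_102_s1 t410_A00pm_102_s1

theorem t412_A00pm_102_s1 : ∃ t, chk3 f_A00pm_102_s1 t 123 70 3 = true := ex3_b t411_A00pm_102_s1 t409_A00pm_102_s1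

theorem t413_A00pm_102_s1 : ∃ t, chk3 f_A00pm_102_s1 t 122 70 3 = true := ex3_c k149_A00pm_102_s1 k150_A00pm_102_s1

theorem t414_A00pm_102_s1 : ∃ t, chk3 f_A00pm_102_s1 t 61 70 3 = true := ex3_a t413_A00pm_102_s1 t412_A00pm_102_s1

theorem t415_A00pm_102_s1 : ∃ t, chk3 f_A00pm_102_s1 t 123 141 4 = true := ex3_a k146_A00pm_102_s1 k147_A00pm_102_s1

theorem t416_A00pm_102_s1 : ∃ t, chk3 f_A00pm_102_s1 t 123 141 2 = true := ex3_c t415_A00pm_102_s1 k148_A00pm_102_s1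

theorem t417_A00pm_102_s1 : ∃ t, chk3 f_A00pm_102_s1 t 123 140 5 = true := ex3_b k144_A00pm_102_s1 k145_A00pm_102_s1

theorem t418_A00pm_102_s1 : ∃ t, chk3 f_A00pm_102_s1 t 123 140 4 = true := ex3_c k142_A00pm_102_s1 k143_A00pm_102_s1

theorem t419_A00pm_102_s1 : ∃ t, chk3 f_A00pm_102_s1 t 123 140 2 = true := ex3_c t418_A00pm_102_s1 t417_A00pm_102_s1

theorem t420_A00pm_102_s1 : ∃ t, chk3 f_A00pm_102_s1 t 123 70 2 = true := ex3_b t419_A00pm_102_s1 t416_A00pm_102_s1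

theorem t421_A00pm_102_s1 : ∃ t, chk3 f_A00pm_102_s1 t 122 70 2 = true := ex3_b k140_A00pm_102_s1 k141_A00pm_102_s1

theorem t422_A00pm_102_s1 : ∃ t, chk3 f_A00pm_102_s1 t 61 70 2 = true := ex3_a t421_A00pm_102_s1 t420_A00pm_102_s1

theorem t423_A00pm_102_s1 : ∃ t, chk3 f_A00pm_102_s1 t 61 70 1 = true := ex3_c t422_A00pm_102_s1 t414_A00pm_102_s1

theorem t424_A00pm_102_s1 : ∃ t, chk3 f_A00pm_102_s1 t 61 35 1 = true := ex3_b t423_A00pm_102_s1 t408_A00pm_102_s1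

theorem t425_A00pm_102_s1 : ∃ t, chk3 f_A00pm_102_s1 t 495 69 7 = true := ex3_a k138_A00pm_102_s1 k139_A00pm_102_s1

theorem t426_A00pm_102_s1 : ∃ t, chk3 f_A00pm_102_s1 t 494 69 7 = true := ex3_b k136_A00pm_102_s1 k137_A00pm_102_s1

theorem t427_A00pm_102_s1 : ∃ t, chk3 f_A00pm_102_s1 t 247 69 7 = true := ex3_a t426_A00pm_102_s1 t425_A00pm_102_s1

theorem t428_A00pm_102_s1 : ∃ t, chk3 f_A00pm_102_s1 t 246 138 7 = true := ex3_a k133_A00pm_102_s1 k134_A00pm_102_s1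

theorem t429_A00pm_102_s1 : ∃ t, chk3 f_A00pm_102_s1 t 246 69 7 = true := ex3_b t428_A00pm_102_s1 k135_A00pm_102_s1

theorem t430_A00pm_102_s1 : ∃ t, chk3 f_A00pm_102_s1 t 123 69 7 = true := ex3_a t429_A00pm_102_s1 t427_A00pm_102_s1

theorem t431_A00pm_102_s1 : ∃ t, chk3 f_A00pm_102_s1 t 247 69 6 = true := ex3_b k131_A00pm_102_s1 k132_A00pm_102_s1

theorem t432_A00pm_102_s1 : ∃ t, chk3 f_A00pm_102_s1 t 246 69 6 = true := ex3_b k129_A00pm_102_s1 k130_A00pm_102_s1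

theorem t433_A00pm_102_s1 : ∃ t, chk3 f_A00pm_102_s1 t 123 69 6 = true := ex3_a t432_A00pm_102_s1 t431_A00pm_102_s1

theorem t434_A00pm_102_s1 : ∃ t, chk3 f_A00pm_102_s1 t 123 69 3 = true := ex3_c t433_A00pm_102_s1 t430_A00pm_102_s1

theorem t435_A00pm_102_s1 : ∃ t, chk3 f_A00pm_102_s1 t 247 139 2 = true := ex3_a k127_A00pm_102_s1 k128_A00pm_102_s1

theorem t436_A00pm_102_s1 : ∃ t, chk3 f_A00pm_102_s1 t 247 138 2 = true := ex3_a k125_A00pm_102_s1 k126_A00pm_102_s1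

theorem t437_A00pm_102_s1 : ∃ t, chk3 f_A00pm_102_s1 t 247 69 2 = true := ex3_b t436_A00pm_102_s1 t435_A00pm_102_s1

theorem t438_A00pm_102_s1 : ∃ t, chk3 f_A00pm_102_s1 t 246 139 2 = true := ex3_a k123_A00pm_102_s1 k124_A00pm_102_s1

theorem t439_A00pm_102_s1 : ∃ t, chk3 f_A00pm_102_s1 t 246 138 2 = true := ex3_a k121_A00pm_102_s1 k122_A00pm_102_s1

theorem t440_A00pm_102_s1 : ∃ t, chk3 f_A00pm_102_s1 t 246 69 2 = true := ex3_b t439_A00pm_102_s1 t438_A00pm_102_s1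

theorem t441_A00pm_102_s1 : ∃ t, chk3 f_A00pm_102_s1 t 123 69 2 = true := ex3_a t440_A00pm_102_s1 t437_A00pm_102_s1

theorem t442_A00pm_102_s1 : ∃ t, chk3 f_A00pm_102_s1 t 123 69 1 = true := ex3_c t441_A00pm_102_s1 t434_A00pm_102_s1

theorem t443_A00pm_102_s1 : ∃ t, chk3 f_A00pm_102_s1 t 247 68 7 = true := ex3_b k119_A00pm_102_s1 k120_A00pm_102_s1

theorem t444_A00pm_102_s1 : ∃ t, chk3 f_A00pm_102_s1 t 246 137 7 = true := ex3_a k117_A00pm_102_s1 k118_A00pm_102_s1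

theorem t445_A00pm_102_s1 : ∃ t, chk3 f_A00pm_102_s1 t 246 68 7 = true := ex3_b k116_A00pm_102_s1 t444_A00pm_102_s1

theorem t446_A00pm_102_s1 : ∃ t, chk3 f_A00pm_102_s1 t 123 68 7 = true := ex3_a t445_A00pm_102_s1 t443_A00pm_102_s1

theorem t447_A00pm_102_s1 : ∃ t, chk3 f_A00pm_102_s1 t 123 68 6 = true := ex3_a k114_A00pm_102_s1 k115_A00pm_102_s1

theorem t448_A00pm_102_s1 : ∃ t, chk3 f_A00pm_102_s1 t 123 68 3 = true := ex3_c t447_A00pm_102_s1 t446_A00pm_102_s1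

theorem t449_A00pm_102_s1 : ∃ t, chk3 f_A00pm_102_s1 t 247 137 2 = true := ex3_a k112_A00pm_102_s1 k113_A00pm_102_s1

theorem t450_A00pm_102_s1 : ∃ t, chk3 f_A00pm_102_s1 t 247 68 2 = true := ex3_b k111_A00pm_102_s1 t449_A00pm_102_s1

theorem t451_A00pm_102_s1 : ∃ t, chk3 f_A00pm_102_s1 t 246 68 2 = true := ex3_b k109_A00pm_102_s1 k110_A00pm_102_s1

theorem t452_A00pm_102_s1 : ∃ t, chk3 f_A00pm_102_s1 t 123 68 2 = true := ex3_a t451_A00pm_102_s1 t450_A00pm_102_s1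

theorem t453_A00pm_102_s1 : ∃ t, chk3 f_A00pm_102_s1 t 123 68 1 = true := ex3_c t452_A00pm_102_s1 t448_A00pm_102_s1

theorem t454_A00pm_102_s1 : ∃ t, chk3 f_A00pm_102_s1 t 123 34 1 = true := ex3_b t453_A00pm_102_s1 t442_A00pm_102_s1

theorem t455_A00pm_102_s1 : ∃ t, chk3 f_A00pm_102_s1 t 491 69 3 = true := ex3_a k107_A00pm_102_s1 k108_A00pm_102_s1

theorem t456_A00pm_102_s1 : ∃ t, chk3 f_A00pm_102_s1 t 245 69 3 = true := ex3_a k106_A00pm_102_s1 t455_A00pm_102_s1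

theorem t457_A00pm_102_s1 : ∃ t, chk3 f_A00pm_102_s1 t 122 69 3 = true := ex3_a k105_A00pm_102_s1 t456_A00pm_102_s1

theorem t458_A00pm_102_s1 : ∃ t, chk3 f_A00pm_102_s1 t 245 137 3 = true := ex3_b k103_A00pm_102_s1 k104_A00pm_102_s1

theorem t459_A00pm_102_s1 : ∃ t, chk3 f_A00pm_102_s1 t 122 137 3 = true := ex3_a k102_A00pm_102_s1 t458_A00pm_102_s1

theorem t460_A00pm_102_s1 : ∃ t, chk3 f_A00pm_102_s1 t 122 68 3 = true := ex3_b k101_A00pm_102_s1 t459_A00pm_102_s1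

theorem t461_A00pm_102_s1 : ∃ t, chk3 f_A00pm_102_s1 t 122 34 3 = true := ex3_b t460_A00pm_102_s1 t457_A00pm_102_s1

theorem t462_A00pm_102_s1 : ∃ t, chk3 f_A00pm_102_s1 t 245 69 2 = true := ex3_b k99_A00pm_102_s1 k100_A00pm_102_s1

theorem t463_A00pm_102_s1 : ∃ t, chk3 f_A00pm_102_s1 t 122 69 2 = true := ex3_a k98_A00pm_102_s1 t462_A00pm_102_s1

theorem t464_A00pm_102_s1 : ∃ t, chk3 f_A00pm_102_s1 t 122 34 2 = true := ex3_b k97_A00pm_102_s1 t463_A00pm_102_s1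

theorem t465_A00pm_102_s1 : ∃ t, chk3 f_A00pm_102_s1 t 122 34 1 = true := ex3_c t464_A00pm_102_s1 t461_A00pm_102_s1

theorem t466_A00pm_102_s1 : ∃ t, chk3 f_A00pm_102_s1 t 61 34 1 = true := ex3_a t465_A00pm_102_s1 t454_A00pm_102_s1

theorem t467_A00pm_102_s1 : ∃ t, chk3 f_A00pm_102_s1 t 61 17 1 = true := ex3_b t466_A00pm_102_s1 t424_A00pm_102_s1

theorem t468_A00pm_102_s1 : ∃ t, chk3 f_A00pm_102_s1 t 60 70 2 = true := ex3_a k93_A00pm_102_s1 k94_A00pm_102_s1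

theorem t469_A00pm_102_s1 : ∃ t, chk3 f_A00pm_102_s1 t 60 70 1 = true := ex3_c t468_A00pm_102_s1 k95_A00pm_102_s1

theorem t470_A00pm_102_s1 : ∃ t, chk3 f_A00pm_102_s1 t 60 35 1 = true := ex3_b t469_A00pm_102_s1 k96_A00pm_102_s1

theorem t471_A00pm_102_s1 : ∃ t, chk3 f_A00pm_102_s1 t 60 17 1 = true := ex3_b k92_A00pm_102_s1 t470_A00pm_102_s1

theorem t472_A00pm_102_s1 : ∃ t, chk3 f_A00pm_102_s1 t 30 17 1 = true := ex3_a t471_A00pm_102_s1 t467_A00pm_102_s1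

theorem t473_A00pm_102_s1 : ∃ t, chk3 f_A00pm_102_s1 t 15 17 1 = true := ex3_a t472_A00pm_102_s1 t404_A00pm_102_s1

theorem t474_A00pm_102_s1 : ∃ t, chk3 f_A00pm_102_s1 t 252 67 1 = true := ex3_a k88_A00pm_102_s1 k89_A00pm_102_s1

theorem t475_A00pm_102_s1 : ∃ t, chk3 f_A00pm_102_s1 t 126 67 1 = true := ex3_a t474_A00pm_102_s1 k90_A00pm_102_s1

theorem t476_A00pm_102_s1 : ∃ t, chk3 f_A00pm_102_s1 t 126 133 1 = true := ex3_b k86_A00pm_102_s1 k87_A00pm_102_s1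

theorem t477_A00pm_102_s1 : ∃ t, chk3 f_A00pm_102_s1 t 126 66 1 = true := ex3_b k85_A00pm_102_s1 t476_A00pm_102_s1

theorem t478_A00pm_102_s1 : ∃ t, chk3 f_A00pm_102_s1 t 126 33 1 = true := ex3_b t477_A00pm_102_s1 t475_A00pm_102_s1

theorem t479_A00pm_102_s1 : ∃ t, chk3 f_A00pm_102_s1 t 63 33 1 = true := ex3_a t478_A00pm_102_s1 k91_A00pm_102_s1

theorem t480_A00pm_102_s1 : ∃ t, chk3 f_A00pm_102_s1 t 63 16 1 = true := ex3_b k84_A00pm_102_s1 t479_A00pm_102_s1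

theorem t481_A00pm_102_s1 : ∃ t, chk3 f_A00pm_102_s1 t 125 135 3 = true := ex3_b k82_A00pm_102_s1 k83_A00pm_102_s1

theorem t482_A00pm_102_s1 : ∃ t, chk3 f_A00pm_102_s1 t 125 135 2 = true := ex3_b k80_A00pm_102_s1 k81_A00pm_102_s1

theorem t483_A00pm_102_s1 : ∃ t, chk3 f_A00pm_102_s1 t 125 135 1 = true := ex3_c t482_A00pm_102_s1 t481_A00pm_102_s1

theorem t484_A00pm_102_s1 : ∃ t, chk3 f_A00pm_102_s1 t 125 134 1 = true := ex3_c k78_A00pm_102_s1 k79_A00pm_102_s1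

theorem t485_A00pm_102_s1 : ∃ t, chk3 f_A00pm_102_s1 t 125 67 1 = true := ex3_b t484_A00pm_102_s1 t483_A00pm_102_s1

theorem t486_A00pm_102_s1 : ∃ t, chk3 f_A00pm_102_s1 t 251 66 1 = true := ex3_b k76_A00pm_102_s1 k77_A00pm_102_s1

theorem t487_A00pm_102_s1 : ∃ t, chk3 f_A00pm_102_s1 t 125 66 1 = true := ex3_a k75_A00pm_102_s1 t486_A00pm_102_s1

theorem t488_A00pm_102_s1 : ∃ t, chk3 f_A00pm_102_s1 t 125 33 1 = true := ex3_b t487_A00pm_102_s1 t485_A00pm_102_s1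

theorem t489_A00pm_102_s1 : ∃ t, chk3 f_A00pm_102_s1 t 124 67 3 = true := ex3_a k73_A00pm_102_s1 k74_A00pm_102_s1

theorem t490_A00pm_102_s1 : ∃ t, chk3 f_A00pm_102_s1 t 124 67 2 = true := ex3_a k71_A00pm_102_s1 k72_A00pm_102_s1

theorem t491_A00pm_102_s1 : ∃ t, chk3 f_A00pm_102_s1 t 124 67 1 = true := ex3_c t490_A00pm_102_s1 t489_A00pm_102_s1

theorem t492_A00pm_102_s1 : ∃ t, chk3 f_A00pm_102_s1 t 124 33 1 = true := ex3_b k70_A00pm_102_s1 t491_A00pm_102_s1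

theorem t493_A00pm_102_s1 : ∃ t, chk3 f_A00pm_102_s1 t 62 33 1 = true := ex3_a t492_A00pm_102_s1 t488_A00pm_102_s1

theorem t494_A00pm_102_s1 : ∃ t, chk3 f_A00pm_102_s1 t 62 16 1 = true := ex3_b k69_A00pm_102_s1 t493_A00pm_102_s1

theorem t495_A00pm_102_s1 : ∃ t, chk3 f_A00pm_102_s1 t 31 16 1 = true := ex3_a t494_A00pm_102_s1 t480_A00pm_102_s1

theorem t496_A00pm_102_s1 : ∃ t, chk3 f_A00pm_102_s1 t 15 16 1 = true := ex3_a k68_A00pm_102_s1 t495_A00pm_102_s1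

theorem t497_A00pm_102_s1 : ∃ t, chk3 f_A00pm_102_s1 t 15 8 1 = true := ex3_b t496_A00pm_102_s1 t473_A00pm_102_s1

theorem t498_A00pm_102_s1 : ∃ t, chk3 f_A00pm_102_s1 t 7 8 1 = true := ex3_a k67_A00pm_102_s1 t497_A00pm_102_s1

theorem t499_A00pm_102_s1 : ∃ t, chk3 f_A00pm_102_s1 t 7 4 1 = true := ex3_b t498_A00pm_102_s1 t336_A00pm_102_s1

theorem t500_A00pm_102_s1 : ∃ t, chk3 f_A00pm_102_s1 t 13 19 3 = true := ex3_b k65_A00pm_102_s1 k66_A00pm_102_s1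

theorem t501_A00pm_102_s1 : ∃ t, chk3 f_A00pm_102_s1 t 13 9 3 = true := ex3_b k64_A00pm_102_s1 t500_A00pm_102_s1

theorem t502_A00pm_102_s1 : ∃ t, chk3 f_A00pm_102_s1 t 13 4 3 = true := ex3_b k63_A00pm_102_s1 t501_A00pm_102_s1

theorem t503_A00pm_102_s1 : ∃ t, chk3 f_A00pm_102_s1 t 25 79 7 = true := ex3_a k61_A00pm_102_s1 k62_A00pm_102_s1

theorem t504_A00pm_102_s1 : ∃ t, chk3 f_A00pm_102_s1 t 25 39 7 = true := ex3_b k60_A00pm_102_s1 t503_A00pm_102_s1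

theorem t505_A00pm_102_s1 : ∃ t, chk3 f_A00pm_102_s1 t 25 19 7 = true := ex3_b k59_A00pm_102_s1 t504_A00pm_102_s1

theorem t506_A00pm_102_s1 : ∃ t, chk3 f_A00pm_102_s1 t 25 9 7 = true := ex3_b k58_A00pm_102_s1 t505_A00pm_102_s1

theorem t507_A00pm_102_s1 : ∃ t, chk3 f_A00pm_102_s1 t 25 4 7 = true := ex3_b k57_A00pm_102_s1 t506_A00pm_102_s1

theorem t508_A00pm_102_s1 : ∃ t, chk3 f_A00pm_102_s1 t 12 4 7 = true := ex3_a k56_A00pm_102_s1 t507_A00pm_102_s1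

theorem t509_A00pm_102_s1 : ∃ t, chk3 f_A00pm_102_s1 t 12 4 3 = true := ex3_c k55_A00pm_102_s1 t508_A00pm_102_s1

theorem t510_A00pm_102_s1 : ∃ t, chk3 f_A00pm_102_s1 t 6 4 3 = true := ex3_a t509_A00pm_102_s1 t502_A00pm_102_s1

theorem t511_A00pm_102_s1 : ∃ t, chk3 f_A00pm_102_s1 t 13 19 4 = true := ex3_b k52_A00pm_102_s1 k53_A00pm_102_s1

theorem t512_A00pm_102_s1 : ∃ t, chk3 f_A00pm_102_s1 t 13 9 4 = true := ex3_b k51_A00pm_102_s1 t511_A00pm_102_s1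

theorem t513_A00pm_102_s1 : ∃ t, chk3 f_A00pm_102_s1 t 13 4 4 = true := ex3_b k50_A00pm_102_s1 t512_A00pm_102_s1

theorem t514_A00pm_102_s1 : ∃ t, chk3 f_A00pm_102_s1 t 13 4 2 = true := ex3_c t513_A00pm_102_s1 k54_A00pm_102_s1

theorem t515_A00pm_102_s1 : ∃ t, chk3 f_A00pm_102_s1 t 25 79 2 = true := ex3_b k48_A00pm_102_s1 k49_A00pm_102_s1

theorem t516_A00pm_102_s1 : ∃ t, chk3 f_A00pm_102_s1 t 25 39 2 = true := ex3_b k47_A00pm_102_s1 t515_A00pm_102_s1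

theorem t517_A00pm_102_s1 : ∃ t, chk3 f_A00pm_102_s1 t 12 39 2 = true := ex3_a k46_A00pm_102_s1 t516_A00pm_102_s1

theorem t518_A00pm_102_s1 : ∃ t, chk3 f_A00pm_102_s1 t 12 19 2 = true := ex3_b k45_A00pm_102_s1 t517_A00pm_102_s1

theorem t519_A00pm_102_s1 : ∃ t, chk3 f_A00pm_102_s1 t 12 9 2 = true := ex3_b k44_A00pm_102_s1 t518_A00pm_102_s1

theorem t520_A00pm_102_s1 : ∃ t, chk3 f_A00pm_102_s1 t 12 4 2 = true := ex3_b k43_A00pm_102_s1 t519_A00pm_102_s1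

theorem t521_A00pm_102_s1 : ∃ t, chk3 f_A00pm_102_s1 t 6 4 2 = true := ex3_a t520_A00pm_102_s1 t514_A00pm_102_s1

theorem t522_A00pm_102_s1 : ∃ t, chk3 f_A00pm_102_s1 t 6 4 1 = true := ex3_c t521_A00pm_102_s1 t510_A00pm_102_s1

theorem t523_A00pm_102_s1 : ∃ t, chk3 f_A00pm_102_s1 t 3 4 1 = true := ex3_a t522_A00pm_102_s1 t499_A00pm_102_s1

theorem t524_A00pm_102_s1 : ∃ t, chk3 f_A00pm_102_s1 t 3 2 1 = true := ex3_b t523_A00pm_102_s1 t311_A00pm_102_s1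

theorem t525_A00pm_102_s1 : ∃ t, chk3 f_A00pm_102_s1 t 3 1 1 = true := ex3_b t524_A00pm_102_s1 k284_A00pm_102_s1

theorem t526_A00pm_102_s1 : ∃ t, chk3 f_A00pm_102_s1 t 11 21 3 = true := ex3_a k39_A00pm_102_s1 k40_A00pm_102_s1

theorem t527_A00pm_102_s1 : ∃ t, chk3 f_A00pm_102_s1 t 11 21 2 = true := ex3_b k37_A00pm_102_s1 k38_A00pm_102_s1

theorem t528_A00pm_102_s1 : ∃ t, chk3 f_A00pm_102_s1 t 11 21 1 = true := ex3_c t527_A00pm_102_s1 t526_A00pm_102_s1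

theorem t529_A00pm_102_s1 : ∃ t, chk3 f_A00pm_102_s1 t 21 21 1 = true := ex3_a k35_A00pm_102_s1 k36_A00pm_102_s1

theorem t530_A00pm_102_s1 : ∃ t, chk3 f_A00pm_102_s1 t 10 21 1 = true := ex3_a k34_A00pm_102_s1 t529_A00pm_102_s1

theorem t531_A00pm_102_s1 : ∃ t, chk3 f_A00pm_102_s1 t 5 21 1 = true := ex3_a t530_A00pm_102_s1 t528_A00pm_102_s1

theorem t532_A00pm_102_s1 : ∃ t, chk3 f_A00pm_102_s1 t 22 83 3 = true := ex3_b k31_A00pm_102_s1 k32_A00pm_102_s1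

theorem t533_A00pm_102_s1 : ∃ t, chk3 f_A00pm_102_s1 t 11 83 3 = true := ex3_a t532_A00pm_102_s1 k33_A00pm_102_s1

theorem t534_A00pm_102_s1 : ∃ t, chk3 f_A00pm_102_s1 t 11 164 3 = true := ex3_a k28_A00pm_102_s1 k29_A00pm_102_s1

theorem t535_A00pm_102_s1 : ∃ t, chk3 f_A00pm_102_s1 t 11 82 3 = true := ex3_b t534_A00pm_102_s1 k30_A00pm_102_s1

theorem t536_A00pm_102_s1 : ∃ t, chk3 f_A00pm_102_s1 t 11 41 3 = true := ex3_b t535_A00pm_102_s1 t533_A00pm_102_s1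

theorem t537_A00pm_102_s1 : ∃ t, chk3 f_A00pm_102_s1 t 22 83 2 = true := ex3_b k25_A00pm_102_s1 k26_A00pm_102_s1

theorem t538_A00pm_102_s1 : ∃ t, chk3 f_A00pm_102_s1 t 11 83 2 = true := ex3_a t537_A00pm_102_s1 k27_A00pm_102_s1

theorem t539_A00pm_102_s1 : ∃ t, chk3 f_A00pm_102_s1 t 23 164 2 = true := ex3_b k22_A00pm_102_s1 k23_A00pm_102_s1

theorem t540_A00pm_102_s1 : ∃ t, chk3 f_A00pm_102_s1 t 11 164 2 = true := ex3_a k21_A00pm_102_s1 t539_A00pm_102_s1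

theorem t541_A00pm_102_s1 : ∃ t, chk3 f_A00pm_102_s1 t 11 82 2 = true := ex3_b t540_A00pm_102_s1 k24_A00pm_102_s1

theorem t542_A00pm_102_s1 : ∃ t, chk3 f_A00pm_102_s1 t 11 41 2 = true := ex3_b t541_A00pm_102_s1 t538_A00pm_102_s1

theorem t543_A00pm_102_s1 : ∃ t, chk3 f_A00pm_102_s1 t 11 41 1 = true := ex3_c t542_A00pm_102_s1 t536_A00pm_102_s1

theorem t544_A00pm_102_s1 : ∃ t, chk3 f_A00pm_102_s1 t 23 81 3 = true := ex3_a k19_A00pm_102_s1 k20_A00pm_102_s1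

theorem t545_A00pm_102_s1 : ∃ t, chk3 f_A00pm_102_s1 t 23 81 2 = true := ex3_a k17_A00pm_102_s1 k18_A00pm_102_s1

theorem t546_A00pm_102_s1 : ∃ t, chk3 f_A00pm_102_s1 t 23 81 1 = true := ex3_c t545_A00pm_102_s1 t544_A00pm_102_s1

theorem t547_A00pm_102_s1 : ∃ t, chk3 f_A00pm_102_s1 t 11 81 1 = true := ex3_a k16_A00pm_102_s1 t546_A00pm_102_s1

theorem t548_A00pm_102_s1 : ∃ t, chk3 f_A00pm_102_s1 t 11 40 1 = true := ex3_b k15_A00pm_102_s1 t547_A00pm_102_s1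

theorem t549_A00pm_102_s1 : ∃ t, chk3 f_A00pm_102_s1 t 11 20 1 = true := ex3_b t548_A00pm_102_s1 t543_A00pm_102_s1

theorem t550_A00pm_102_s1 : ∃ t, chk3 f_A00pm_102_s1 t 21 167 3 = true := ex3_a k13_A00pm_102_s1 k14_A00pm_102_s1

theorem t551_A00pm_102_s1 : ∃ t, chk3 f_A00pm_102_s1 t 21 83 3 = true := ex3_b k12_A00pm_102_s1 t550_A00pm_102_s1

theorem t552_A00pm_102_s1 : ∃ t, chk3 f_A00pm_102_s1 t 21 41 3 = true := ex3_b k11_A00pm_102_s1 t551_A00pm_102_s1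

theorem t553_A00pm_102_s1 : ∃ t, chk3 f_A00pm_102_s1 t 10 41 3 = true := ex3_a k10_A00pm_102_s1 t552_A00pm_102_s1

theorem t554_A00pm_102_s1 : ∃ t, chk3 f_A00pm_102_s1 t 10 20 3 = true := ex3_b k9_A00pm_102_s1 t553_A00pm_102_s1

theorem t555_A00pm_102_s1 : ∃ t, chk3 f_A00pm_102_s1 t 21 167 2 = true := ex3_a k7_A00pm_102_s1 k8_A00pm_102_s1

theorem t556_A00pm_102_s1 : ∃ t, chk3 f_A00pm_102_s1 t 21 166 2 = true := ex3_b k5_A00pm_102_s1 k6_A00pm_102_s1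

theorem t557_A00pm_102_s1 : ∃ t, chk3 f_A00pm_102_s1 t 21 83 2 = true := ex3_b t556_A00pm_102_s1 t555_A00pm_102_s1

theorem t558_A00pm_102_s1 : ∃ t, chk3 f_A00pm_102_s1 t 21 41 2 = true := ex3_b k4_A00pm_102_s1 t557_A00pm_102_s1

theorem t559_A00pm_102_s1 : ∃ t, chk3 f_A00pm_102_s1 t 10 41 2 = true := ex3_a k3_A00pm_102_s1 t558_A00pm_102_s1

theorem t560_A00pm_102_s1 : ∃ t, chk3 f_A00pm_102_s1 t 10 20 2 = true := ex3_b k2_A00pm_102_s1 t559_A00pm_102_s1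

theorem t561_A00pm_102_s1 : ∃ t, chk3 f_A00pm_102_s1 t 10 20 1 = true := ex3_c t560_A00pm_102_s1 t554_A00pm_102_s1

theorem t562_A00pm_102_s1 : ∃ t, chk3 f_A00pm_102_s1 t 5 20 1 = true := ex3_a t561_A00pm_102_s1 t549_A00pm_102_s1

theorem t563_A00pm_102_s1 : ∃ t, chk3 f_A00pm_102_s1 t 5 10 1 = true := ex3_b t562_A00pm_102_s1 t531_A00pm_102_s1

theorem t564_A00pm_102_s1 : ∃ t, chk3 f_A00pm_102_s1 t 5 5 1 = true := ex3_b t563_A00pm_102_s1 k41_A00pm_102_s1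

theorem t565_A00pm_102_s1 : ∃ t, chk3 f_A00pm_102_s1 t 2 5 1 = true := ex3_a k1_A00pm_102_s1 t564_A00pm_102_s1

theorem t566_A00pm_102_s1 : ∃ t, chk3 f_A00pm_102_s1 t 2 2 1 = true := ex3_b k0_A00pm_102_s1 t565_A00pm_102_s1

theorem t567_A00pm_102_s1 : ∃ t, chk3 f_A00pm_102_s1 t 2 1 1 = true := ex3_b t566_A00pm_102_s1 k42_A00pm_102_s1

theorem t568_A00pm_102_s1 : ∃ t, chk3 f_A00pm_102_s1 t 1 1 1 = true := ex3_a t567_A00pm_102_s1 t525_A00pm_102_s1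

theorem c_A00pm_102_s1 : CertF 536870912 536870912 0 536870912 966367641 24778659 true true false .npp 1 0 2
    ndB0q1 ndB0q0 pcB2 cut_A00pm_102_s1 xt_A00pm_102_s1 :=
  certF1 (fam := true) (s1 := true) (s2 := false) (a := 1) (b := 0) (c := 2) (cn := .npp) (n1 := ndB0q1) (n2 := ndB0q0) (pc := pcB2) (cut := cut_A00pm_102_s1) (xt := xt_A00pm_102_s1) (P1 := 536870912) (W1 := 536870912) (P2 := 0) (W2 := 536870912) (P3 := 966367641) (W3 := 24778659)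
    rfl (fun _ => rfl) t568_A00pm_102_s1

theorem s_A00pm_102_s1 {κ x : ℝ} (hκ : κ * h0 = ken x) (hx : ((966367641 : ℕ) : ℝ) / S ≤ x)
    (hx' : x ≤ (((966367641 : ℕ) : ℝ) + (24778659 : ℕ)) / S)
    (H : CutA (VFD κ) PP tK tL pcB (Cut.of [[⟨0, 1, 0, 33554432⟩, ⟨1, 0, 0, 33554432⟩, ⟨2, 1, 0, 33554432⟩]]) 1 0 2 0 0 (sgb true) (sgb false) x) :
    AltA (VFD κ) PP tK tL pcB [⟨3, 0, 0, 1449551462⟩] 1 0 2 0 0 (sgb true) (sgb false) x :=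
  strip_altAD (m := 1449551462) true rfl hκ (SH.κ0 hκ (SH.hx1 hx).le (SH.hx2 hx').le) (SH.hx1 hx).le (SH.hx2 hx') (covB01).cov (covB00).cov hx hx' c_A00pm_102_s1 H ((okx hx hx').extA (T := tt) (sideB hx hx') hκ rfl rfl (.O 1 true) (.O 0 false) rfl)

end Pool.Agent.Strip051.G.I9000_9231.Tab.St.C
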