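import Pool.Agent.Strip051.G.I9000_9231.StH
import Pool.Agent.Strip051.G.I9000_9231.StF

/-! # Unit strips 6 (generated) -/

set_option linter.all false
set_option maxRecDepth 100000

namespace Pool.Agent.Strip051.G.I9000_9231.Tab.St.C

open Pool.Agent.Strip051.PB Pool.Agent.Strip051.PB.T Pool.Agent.StripNear Pool.Agent.Strip051.LC
open Pool.Agent.Strip051.G.I9000_9231.Tab Pool.Agent.Strip051.G.I9000_9231.Tab.St

noncomputable def cut_A00pm_102_s3 : Cut := Cut.of [[⟨3, 0, 0, 2845415833⟩], [⟨0, 1, 0, 33554432⟩, ⟨1, 0, 0, 33554432⟩, ⟨2, 1, 0, 33554432⟩]]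

noncomputable def f_A00pm_102_s3 : ℕ → ℕ → ℕ → ℕ → Bool := onCell 536870912 536870912 0 536870912 966367641 24778659
    (rowF 0 true true false .npp 1 0 2 (qsf 536870912 536870912 0 536870912 2) ndB0q1 ndB0q0 pcB2 cut_A00pm_102_s3 Ext.none)

def k0_A00pm_102_s3 : ∃ t, chk3 f_A00pm_102_s3 t 1 1 1 = true :=
  ⟨(l 6), by decide +kernel⟩

theorem c_A00pm_102_s3 : CertF 536870912 536870912 0 536870912 966367641 24778659 true true false .npp 1 0 2
    ndB0q1 ndB0q0 pcB2 cut_A00pm_102_s3 Ext.none :=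
  certF0 (fam := true) (s1 := true) (s2 := false) (a := 1) (b := 0) (c := 2) (cn := .npp) (n1 := ndB0q1) (n2 := ndB0q0) (pc := pcB2) (cut := cut_A00pm_102_s3) (xt := Ext.none) (P1 := 536870912) (W1 := 536870912) (P2 := 0) (W2 := 536870912) (P3 := 966367641) (W3 := 24778659)
    rfl k0_A00pm_102_s3

theorem s_A00pm_102_s3 {κ x : ℝ} (hκ : κ * h0 = ken x) (hx : ((966367641 : ℕ) : ℝ) / S ≤ x)
    (hx' : x ≤ (((966367641 : ℕ) : ℝ) + (24778659 : ℕ)) / S)
    (H : CutA (VFD κ) PP tK tL pcB (Cut.of [[⟨0, 1, 0, 33554432⟩, ⟨1, 0, 0, 33554432⟩, ⟨2, 1, 0, 33554432⟩]]) 1 0 2 0 0 (sgb true) (sgb false) x) :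
    AltA (VFD κ) PP tK tL pcB [⟨4, 0, 0, 2845415833⟩] 1 0 2 0 0 (sgb true) (sgb false) x :=
  strip_altAD (m := 2845415833) false rfl hκ (SH.κ0 hκ (SH.hx1 hx).le (SH.hx2 hx').le) (SH.hx1 hx).le (SH.hx2 hx') (covB01).cov (covB00).cov hx hx' c_A00pm_102_s3 H (noExt_A)

noncomputable def cut_A00pm_112_s1 : Cut := Cut.of [[⟨4, 0, 0, 1449551462⟩]]

noncomputable def xt_A00pm_112_s1 : Ext := strExt dd true true false .u0 .u0m .u2 .dn 1 1 2 rfl rfl gf2 vv ndB0q1 ndB0q1

noncomputable def f_A00pm_112_s1 : ℕ → ℕ → ℕ → ℕ → Bool := onCell 536870912 536870912 1073741824 536870912 966367641 24778659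
    (rowF 1 true true false .dn 1 1 2 (qsf 536870912 536870912 536870912 536870912 2) ndB0q1 ndB0q1 pcB2 cut_A00pm_112_s1 xt_A00pm_112_s1)

def k0_A00pm_112_s1 : ∃ t, chk3 f_A00pm_112_s1 t 2 4 1 = true :=
  ⟨(b (l 3) (l 3)), by decide +kernel⟩

def k1_A00pm_112_s1 : ∃ t, chk3 f_A00pm_112_s1 t 4 40 1 = true :=
  ⟨(l 3), by decide +kernel⟩

def k2_A00pm_112_s1 : ∃ t, chk3 f_A00pm_112_s1 t 4 82 1 = true :=
  ⟨(l 3), by decide +kernel⟩

def k3_A00pm_112_s1 : ∃ t, chk3 f_A00pm_112_s1 t 4 166 1 = true :=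
  ⟨(a (a (b (l 3) (l 531029567)) (l 3)) (l 3)), by decide +kernel⟩

def k4_A00pm_112_s1 : ∃ t, chk3 f_A00pm_112_s1 t 8 334 1 = true :=
  ⟨(a (b (l 531034175) (l 531036991)) (b (l 3) (l 531086143))), by decide +kernel⟩

def k5_A00pm_112_s1 : ∃ t, chk3 f_A00pm_112_s1 t 8 1340 1 = true :=
  ⟨(a (l 531039279) (l 531088687)), by decide +kernel⟩

def k6_A00pm_112_s1 : ∃ t, chk3 f_A00pm_112_s1 t 8 5364 1 = true :=
  ⟨(a (l 531040303) (l 531089967)), by decide +kernel⟩

def k7_A00pm_112_s1 : ∃ t, chk3 f_A00pm_112_s1 t 8 10730 1 = true :=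
  ⟨(a (l 531040559) (l 531090223)), by decide +kernel⟩

def k8_A00pm_112_s1 : ∃ t, chk3 f_A00pm_112_s1 t 8 21462 1 = true :=
  ⟨(a (l 531040815) (l 531090479)), by decide +kernel⟩

def k9_A00pm_112_s1 : ∃ t, chk3 f_A00pm_112_s1 t 16 21463 1 = true :=
  ⟨(a (a (a (c (a (a (l 16770448) (l 16770608)) (a (l 16770768) (l 16770920))) (a (l 16771312) (l 16771592))) (c (a (a (l 16771072) (l 16771224)) (a (l 16771376) (l 16771520))) (a (l 16771864) (l 16772128)))) (a (c (a (a (l 16771664) (l 16771808)) (a (l 16771952) (l 16772088))) (a (l 16772384) (l 16772632))) (c (a (a (l 16772224) (l 16772360)) (a (l 16772488) (l 16772616))) (a (l 16772872) (l 16773112))))) (c (a (a (a (c (l 16772680) (l 16772936)) (c (l 16772936) (l 16773176))) (a (c (l 16773176) (l 16773408)) (c (l 16773416) (l 16773632)))) (a (a (c (l 16773640) (l 16773848)) (c (l 16773864) (l 16774048))) (a (c (l 16774072) (l 16774248)) (a (l 16774312) (l 16774408))))) (a (a (a (l 16773336)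 (l 16773552)) (a (c (l 16773640) (l 16773888)) (a (l 16773912) (l 16774016)))) (a (a (a (l 16774112) (l 16774208)) (a (l 16774304) (l 16774392))) (a (a (l 16774488) (l 16774576)) (a (l 16774656) (l 16774744))))))), by decide +kernel⟩

def k10_A00pm_112_s1 : ∃ t, chk3 f_A00pm_112_s1 t 17 21463 1 = true :=
  ⟨(a (a (a (c (a (a (l 16774496) (l 16774592)) (a (l 16774680) (l 16774768))) (a (a (l 16774824) (l 16774912)) (a (l 16774984) (l 16775064)))) (a (c (a (l 16774856) (l 16774936)) (a (l 16775144) (l 16775216))) (a (a (l 16775128) (l 16775168)) (a (l 16775208) (l 16775248))))) (a (a (a (a (l 16775280) (l 16775320)) (a (l 16775352) (l 16775392))) (c (a (l 16775328) (l 16775400)) (a (l 16775560) (l 16775616)))) (c (a (a (l 16775472) (l 16775536)) (a (l 16775600) (l 16775664))) (a (a (l 16775680) (l 16775744)) (a (l 16775800) (l 16775856)))))) (c (a (a (a (a (l 16775728) (l 16775784)) (a (l 16775848) (l 16775904))) (a (a (l 16775952) (c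 (l 16775968) (l 16776040))) (a (c (l 16776024) (l 16776088)) (c (l 16776072) (l 16776136))))) (a (c (a (a (l 16776120) (l 16776160)) (a (l 16776208) (l 16776248))) (a (a (l 16776184) (l 16776224)) (c (l 16776272) (l 16776296)))) (c (a (a (l 16776288) (l 16776320)) (c (l 16776360) (l 16776384))) (a (c (l 16776344) (l 16776368)) (a (l 16776408) (l 16776440)))))) (a (a (a (a (l 16775912) (l 16775960)) (a (l 16776016) (l 16776064))) (a (a (l 16776112) (l 16776152)) (a (l 16776200) (a (l 16776232) (l 16776248))))) (a (c (a (c (l 16776248) (l 16776280)) (a (l 16776328) (l 16776360))) (a (a (l 16776312) (l 16776352)) (a (l 16776384) (l 16776424)))) (a (c (a (l 16776392) (l 16776424)) (a (l 16776456) (l 16776480))) (c (a (l 16776456) (l 16776488)) (a (l 16776512) (l 16776536)))))))), by decide +kernel⟩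

def k11_A00pm_112_s1 : ∃ t, chk3 f_A00pm_112_s1 t 8 2683 1 = true :=
  ⟨(a (l 531041375) (l 531091039)), by decide +kernel⟩

def k12_A00pm_112_s1 : ∃ t, chk3 f_A00pm_112_s1 t 8 671 1 = true :=
  ⟨(a (a (l 531027551) (l 531060575)) (l 531092831)), by decide +kernel⟩

def k13_A00pm_112_s1 : ∃ t, chk3 f_A00pm_112_s1 t 18 334 1 = true :=
  ⟨(l 3), by decide +kernel⟩

def k14_A00pm_112_s1 : ∃ t, chk3 f_A00pm_112_s1 t 18 1340 1 = true :=
  ⟨(l 531104815), by decide +kernel⟩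

def k15_A00pm_112_s1 : ∃ t, chk3 f_A00pm_112_s1 t 18 5364 1 = true :=
  ⟨(l 531106095), by decide +kernel⟩

def k16_A00pm_112_s1 : ∃ t, chk3 f_A00pm_112_s1 t 18 10730 1 = true :=
  ⟨(l 531106351), by decide +kernel⟩

def k17_A00pm_112_s1 : ∃ t, chk3 f_A00pm_112_s1 t 18 21462 1 = true :=
  ⟨(l 531106607), by decide +kernel⟩

def k18_A00pm_112_s1 : ∃ t, chk3 f_A00pm_112_s1 t 36 21463 1 = true :=
  ⟨(c (a (a (c (a (c (l 16776424) (l 16776448)) (c (l 16776480) (l 16776504))) (a (a (l 16776464) (l 16776496)) (a (l 16776520) (l 16776544)))) (c (a (c (l 16776528) (l 16776544)) (a (l 16776568) (l 16776584))) (a (a (l 16776568) (l 16776584)) (a (l 16776600) (l 16776616))))) (a (a (c (a (l 16776600) (l 16776608)) (a (l 16776632) (l 16776648))) (c (a (l 16776624) (l 16776632)) (a (l 16776656) (l 16776664)))) (a (c (a (l 16776640) (l 16776640)) (a (l 16776672) (l 16776672))) (c (a (l 16776640) (l 16776648)) (a (l 16776680) (l 16776680)))))) (c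 (a (a (a (a (l 16776512) (l 16776544)) (a (l 16776568) (l 16776584))) (a (a (l 16776608) (l 16776624)) (a (l 16776640) (l 16776656)))) (a (a (a (l 16776672) (l 16776680)) (a (l 16776688) (l 16776696))) (a (a (l 16776704) (l 16776712)) (a (l 16776712) (l 16776712))))) (a (a (a (a (l 16776568) (l 16776592)) (a (l 16776608) (l 16776632))) (a (a (l 16776648) (l 16776664)) (a (l 16776680) (l 16776696)))) (a (a (a (l 16776712) (l 16776720)) (a (l 16776728) (l 16776736))) (a (a (l 16776744) (l 16776744)) (a (l 16776744) (l 16776744))))))), by decide +kernel⟩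

def k19_A00pm_112_s1 : ∃ t, chk3 f_A00pm_112_s1 t 37 21463 1 = true :=
  ⟨(c (a (a (a (c (a (l 16776640) (l 16776640)) (a (l 16776680) (l 16776672))) (c (a (l 16776632) (l 16776624)) (a (l 16776672) (l 16776664)))) (a (c (a (l 16776616) (l 16776608)) (a (l 16776656) (l 16776640))) (c (a (l 16776592) (l 16776576)) (a (l 16776632) (l 16776616))))) (a (c (a (a (l 16776560) (l 16776544)) (c (l 16776496) (l 16776520))) (a (a (l 16776600) (l 16776584)) (a (l 16776560) (l 16776536)))) (c (a (c (l 16776448) (l 16776472)) (c (l 16776384) (l 16776408))) (a (a (l 16776512) (l 16776488)) (a (l 16776464) (l 16776432)))))) (a (a (a (c (a (l 16776712) (l 16776704)) (a (l 16776744) (l 16776744))) (c (a (l 16776704) (l 16776696)) (a (l 16776736) (l 16776736)))) (a (c (a (l 16776688) (l 16776680)) (a (l 16776728) (l 16776712))) (c (a (l 16776664) (l 16776656)) (a (l 16776704) (l 16776696))))) (a (a (c (a (l 16776640) (l 16776624)) (a (l 16776680) (l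 16776664))) (c (a (l 16776600) (l 16776584)) (a (l 16776648) (l 16776624)))) (a (c (a (l 16776560) (l 16776536)) (a (l 16776608) (l 16776584))) (c (a (l 16776512) (l 16776480)) (a (l 16776560) (l 16776528))))))), by decide +kernel⟩

def k20_A00pm_112_s1 : ∃ t, chk3 f_A00pm_112_s1 t 18 2683 1 = true :=
  ⟨(l 531107167), by decide +kernel⟩

def k21_A00pm_112_s1 : ∃ t, chk3 f_A00pm_112_s1 t 18 671 1 = true :=
  ⟨(l 531109471), by decide +kernel⟩

def k22_A00pm_112_s1 : ∃ t, chk3 f_A00pm_112_s1 t 19 167 1 = true :=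
  ⟨(b (b (l 3) (l 531082319)) (b (b (l 531085871) (b (b (l 531087407) (b (l 531087663) (b (l 531087919) (a (b (c (a (a (c (a (a (l 16776360) (l 16776328)) (a (l 16776288) (l 16776248))) (a (c (l 16776384) (l 16776408)) (a (l 16776344) (l 16776304)))) (a (a (c (l 16776208) (l 16776264)) (c (l 16776168) (l 16776224))) (a (c (l 16776120) (l 16776184)) (c (l 16776072) (l 16776136))))) (a (a (a (c (l 16776024) (l 16776088)) (l 16776008)) (a (l 16775952) (l 16775896))) (a (a (l 16775840) (l 16775784)) (a (l 16775728) (l 16775664))))) (a (a (c (a (a (l 16776464) (l 16776432)) (c (l 16776368) (l 16776392))) (a (a (l 16776512) (l 16776488)) (a (l 16776456) (l 16776424)))) (a (a (a (l 16776368) (l 16776352)) (a (l 16776328) (l 16776312))) (a (a (l 16776288) (l 16776272)) (l 16776240)))) (a (a (a (l 16776200) (l 16776152)) (a (l 16776104) (l 16776064))) (a (a (l 16776008) (l 16775960)) (a (l 16775904) (l 16775848)))))) (l 531098975)) (a (a (c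 (a (a (l 16775584) (l 16775520)) (a (l 16775448) (l 16775376))) (a (a (l 16775784) (l 16775728)) (a (l 16775664) (l 16775600)))) (a (a (a (l 16775440) (l 16775408)) (a (l 16775368) (l 16775336))) (a (a (l 16775296) (l 16775264)) (a (l 16775224) (l 16775184))))) (a (c (a (a (l 16775000) (l 16774912)) (a (l 16774832) (l 16774744))) (a (a (l 16775264) (l 16775192)) (a (l 16775120) (l 16775048)))) (c (a (a (l 16774656) (l 16774568)) (a (l 16774472) (l 16774376))) (a (a (l 16774968) (l 16774888)) (a (l 16774808) (l 16774720)))))))))) (l 531088735))) (l 531091295))), by decide +kernel⟩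

def k23_A00pm_112_s1 : ∃ t, chk3 f_A00pm_112_s1 t 4 21 1 = true :=
  ⟨(a (b (a (a (b (a (a (b (a (b (l 531015519) (c (l 16762664) (l 16764352))) (l 531023199)) (b (c (l 16753904) (l 16761232)) (c (l 16755472) (l 16757952)))) (l 531035487)) (l 531049311)) (a (c (a (b (l 16749968) (l 16742648)) (b (l 16750624) (l 16743312))) (a (b (l 16752992) (l 16746336)) (b (l 16753696) (l 16747112)))) (b (l 531065951) (c (a (l 16743960) (l 16744600)) (l 16737640))))) (b (l 531072863) (l 531095903))) (l 531116639)) (a (a (c (b (a (b (l 16735672) (l 16728384)) (b (l 16736984) (l 16729712))) (a (l 16717472) (l 16718816))) (b (a (b (l 16740056) (l 16733336)) (b (l 16741608) (l 16735032))) (a (l 16723136) (l 16725056)))) (a (b (l 531110239) (b (l 531125855) (l 16698928))) (l 529526367))) (l 530361183))) (a (l 531160415) (l 531149663))), by decide +kernel⟩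

def k24_A00pm_112_s1 : ∃ t, chk3 f_A00pm_112_s1 t 4 11 1 = true :=
  ⟨(a (a (b (b (a (b (a (c (l 16702992) (l 16709368)) (c (l 16704376) (l 16711576))) (a (b (l 16695480) (l 16688352)) (l 16672888))) (a (b (a (l 16709144) (l 16709904)) (l 16674664)) (b (l 531169119) (l 16655280)))) (a (b (a (l 16677600) (l 16679736)) (c (l 16618624) (l 16668312))) (b (a (l 16681672) (l 16683424)) (a (l 16667632) (l 16669552))))) (c (b (a (b (l 16604336) (l 16632024)) (a (l 16641496) (l 16642944))) (a (a (l 16609656) (l 16611528)) (l 16614000))) (a (b (b (l 16653824) (l 16639112)) (a (l 16614696) (l 16618712))) (b (b (l 16659976) (l 16645864)) (l 16624168))))) (b (b (a (a (l 530658911) (l 531210847)) (l 531228511)) (a (a (a (l 16635776) (l 16636552)) (l 531252319)) (l 531273583))) (a (b (a (l 16608568) (l 16610336)) (c (l 16616936) (l 16630576))) (b (l 531314287) (c (l 16619480) (l 16635648)))))) (b (a (l 530195807) (l 531276127)) (a (a (b (l 531340895)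 (l 530576991)) (l 530036591)) (l 531387999)))), by decide +kernel⟩

def k25_A00pm_112_s1 : ∃ t, chk3 f_A00pm_112_s1 t 5 20 1 = true :=
  ⟨(a (b (l 3) (b (a (l 3) (l 1)) (b (a (a (l 531031887) (a (l 531007823) (a (l 530725455) (a (l 529645647) (l 1))))) (l 1)) (b (a (a (l 531046991) (a (l 530754639) (b (b (l 529661071) (l 531003279)) (l 531007055)))) (l 1)) (a (b (b (a (l 531053103) (l 531019311)) (b (b (a (l 531054639) (l 531021103)) (b (a (l 531055151) (l 531021615)) (b (a (l 531055407) (l 531021871)) (c (a (a (a (a (c (l 16774144) (l 16774320)) (c (l 16773936) (l 16774128))) (a (c (l 16773728) (l 16773920)) (c (l 16773504) (l 16773712)))) (a (a (c (l 16773264) (l 16773488)) (c (l 16773024) (l 16773264))) (a (c (l 16772776) (l 16773024)) (a (l 16772712) (l 16772584))))) (a (a (a (a (l 16772456) (l 16772320)) (a (l 16772184) (l 16772048))) (a (a (l 16771912) (l 16771768)) (a (l 16771632) (l 16771480)))) (a (a (a (l 16771336) (l 16771184))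 (a (l 16771032) (l 16770880))) (a (a (l 16770728) (l 16770568)) (a (l 16770408) (l 1)))))) (a (a (a (a (a (l 16774640) (l 16774552)) (a (l 16774464) (l 16774368))) (a (a (l 16774280) (l 16774184)) (a (l 16774088) (l 16773992)))) (a (a (c (l 16773720) (l 16773960)) (l 16773632)) (a (l 16773416) (l 16773192)))) (a (a (a (l 16772960) (l 16772728)) (a (l 16772480) (l 16772224))) (a (a (l 16771960) (l 16771696)) (a (l 16771416) (l 16771136))))))))) (a (l 531056223) (l 531022687)))) (l 531039583)) (b (l 1) (a (a (a (a (a (l 531006559) (l 1)) (l 1)) (l 1)) (l 1)) (l 1)))))))) (l 1)), by decide +kernel⟩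

def k26_A00pm_112_s1 : ∃ t, chk3 f_A00pm_112_s1 t 5 21 1 = true :=
  ⟨(a (a (a (l 531127391) (l 530292575)) (b (b (a (a (a (a (a (l 531029599) (b (b (a (l 109018318215) (l 109018318055)) (l 531021919)) (l 531037279))) (c (b (b (l 183106507479) (l 16762504)) (l 16760104)) (b (b (l 193843923079) (l 16764200)) (l 16759760)))) (b (b (l 1) (c (l 188475203655) (l 192770174311))) (b (c (l 16753416) (l 16760728)) (c (l 16755312) (l 16757776))))) (a (a (b (l 1) (l 190622667959)) (l 1)) (l 1))) (l 1)) (a (a (a (l 531065951) (b (c (l 16750304) (l 16753360)) (c (l 16743640) (l 16747488)))) (a (b (c (l 16749648) (l 16752624)) (a (l 16745008) (l 16744656))) (c (a (l 104723298519) (l 104186426935)) (l 103112691879)))) (b (l 1) (a (c (l 184180184439) (l 189548900135)) (l 1))))) (a (b (a (a (l 531105887) (b (l 16718296) (l 16733032))) (b (a (l 16728088) (l 16727360)) (c (l 16729400) (l 16734648)))) (a (l 531139423) (c (l 16719504) (l 16725928))))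 (c (b (a (b (l 102038921671) (l 16728064)) (l 178274581751)) (a (l 16718184) (a (l 16717168) (l 16716472)))) (b (a (b (l 16738712) (l 16732880)) (l 184717040279)) (a (l 16724168) (l 16701120))))))) (a (b (l 1) (b (l 1) (a (a (b (l 1) (l 179348281991)) (l 1)) (l 1)))) (l 1))), by decide +kernel⟩

def k27_A00pm_112_s1 : ∃ t, chk3 f_A00pm_112_s1 t 5 11 1 = true :=
  ⟨(a (a (b (a (l 531265887) (l 531245151)) (l 531378271)) (b (b (b (b (a (a (l 16714712) (l 16713368)) (a (l 16690872) (l 16689168))) (a (l 530640479) (a (l 16705688) (l 16703992)))) (a (l 530399583) (a (l 16675512) (b (l 16697864) (l 16691744))))) (a (l 531257711) (b (a (l 16684256) (l 16682600)) (a (l 16672080) (l 16670464))))) (a (a (l 531364959) (l 531352415)) (a (l 531337071) (b (l 16610400) (l 16628352)))))) (a (b (b (a (b (a (b (l 16687288) (l 16702112)) (l 178811378023)) (a (b (l 16695992) (l 16689888)) (b (l 16693936) (l 16687840)))) (b (l 1) (a (l 174516381767) (l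 1)))) (a (b (a (l 16680760) (l 16678728)) (c (l 16620888) (l 16672664))) (b (a (l 98280666983) (l 172905729399)) (a (l 16664432) (l 16662024))))) (c (b (a (a (l 16644376) (l 16643024)) (b (l 16605184) (l 16634480))) (a (l 16618352) (l 16615632))) (b (a (l 16613816) (b (l 16655544) (l 16644360))) (a (l 16633376) (l 16627680))))) (b (b (l 1) (a (b (l 1) (a (l 16659424) (l 1))) (l 1))) (a (c (b (b (l 16601872) (l 16589304)) (l 16612480)) (b (b (l 16648480) (l 16637280)) (l 16620728))) (a (b (l 165926309975) (b (l 16618032) (l 16606328))) (b (l 1) (l 53183448919))))))), by decide +kernel⟩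

def k28_A00pm_112_s1 : ∃ t, chk3 f_A00pm_112_s1 t 4 3 1 = true :=
  ⟨(b (b (a (a (b (a (b (c (l 16498040) (l 16586320)) (b (l 16477888) (l 16462904))) (b (c (l 16501976) (l 16594760)) (b (l 16568440) (l 16469912)))) (a (b (b (l 16447824) (l 16432664)) (b (l 16417272) (l 16485968))) (b (c (l 16529208) (l 16534256)) (l 16501808)))) (b (a (b (a (l 16594336) (l 16596808)) (a (l 16565728) (l 16568536))) (b (a (l 16599048) (l 16601072)) (a (l 16571128) (l 16573504)))) (a (b (l 16496360) (l 16509200)) (b (l 16460288) (l 16515744))))) (a (b (a (b (l 16519736) (l 16576568)) (a (l 531458159) (l 531470959))) (a (b (l 16549160) (l 16521424)) (b (l 16553240) (l 16526192)))) (b (a (l 530141807) (l 531495775)) (a (l 530219631) (l 531583599))))) (b (a (a (b (a (c (l 16465328) (l 16462128)) (c (l 16471352) (l 16472064))) (a (l 6) (l 16400096))) (a (b (l 16395864) (l 16365968)) (b (l 16486984) (l 16457880)))) (a (a (b (l 16493344) (l 16464928)) (b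 (l 16498808) (l 16471072))) (a (b (l 16503312) (l 16476280)) (b (l 16506816) (l 16480488))))) (a (l 6) (l 6)))) (l 6)), by decide +kernel⟩

def k29_A00pm_112_s1 : ∃ t, chk3 f_A00pm_112_s1 t 5 3 1 = true :=
  ⟨(b (b (b (a (a (l 531493215) (a (l 531482463) (a (l 531469151) (l 530382175)))) (a (a (b (b (l 16607936) (l 16596128)) (l 16578440)) (b (b (l 16603856) (l 16592144)) (l 16490736))) (a (b (c (l 16503816) (l 16598752)) (a (l 16571208) (l 16568616))) (b (c (l 16500256) (l 16590792)) (b (l 16570040) (l 16474688)))))) (a (a (a (l 531059295) (l 531599967)) (a (l 531595615) (l 531581807))) (a (a (b (l 16554976) (l 16531576)) (b (l 16551400) (l 16528288))) (a (b (l 16546880) (l 16524008)) (b (l 16457576) (l 16518792)))))) (b (a (a (a (l 16496312) (l 16498032)) (b (l 531669615) (l 16402448))) (a (a (l 531676271) (b (l 16505248) (l 16482248))) (a (b (l 16501248) (l 16478576)) (b (l 16496272) (l 16473864))))) (l 6))) (l 6)), by decide +kernel⟩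

def k30_A00pm_112_s1 : ∃ t, chk3 f_A00pm_112_s1 t 3 1 1 = true :=
  ⟨(b (a (b (l 1) (b (l 1) (a (a (b (l 1) (b (l 1) (a (b (l 1) (l 154115085175)) (l 1)))) (l 1)) (l 1)))) (l 1)) (b (a (b (a (a (b (c (b (a (l 16537920) (l 16532648)) (a (l 16555616) (l 16466784))) (b (a (l 16581952) (l 127808422247)) (a (l 16560400) (l 16466952)))) (a (b (c (l 16531656) (l 16539016)) (l 16512696)) (b (b (l 16449808) (l 16522472)) (l 16421864)))) (b (b (l 1) (a (c (l 16460768) (l 16498848)) (l 1))) (a (b (b (l 16441832) (l 16430672)) (c (l 16497752) (l 16498400))) (b (a (l 16429784) (l 1)) (a (l 16407664) (l 16403392)))))) (a (b (l 1) (a (b (l 1) (c (l 16400776) (l 16435840))) (l 1))) (l 1))) (b (b (a (a (a (l 16406488) (l 16399712)) (a (l 16392064) (c (l 16468384) (l 16467032)))) (a (a (b (l 16381040) (l 16370296)) (c (l 16454344) (l 16362640))) (l 1))) (a (a (a (l 16468200) (l 16461624)) (a (l 16370256) (l 16362032))) (l 6))) (l 6))) (a (b (l 1) (l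 6)) (l 1))) (l 6))), by decide +kernel⟩

theorem t31_A00pm_112_s1 : ∃ t, chk3 f_A00pm_112_s1 t 2 3 1 = true := ex3_a k28_A00pm_112_s1 k29_A00pm_112_s1

theorem t32_A00pm_112_s1 : ∃ t, chk3 f_A00pm_112_s1 t 5 10 1 = true := ex3_b k25_A00pm_112_s1 k26_A00pm_112_s1

theorem t33_A00pm_112_s1 : ∃ t, chk3 f_A00pm_112_s1 t 5 5 1 = true := ex3_b t32_A00pm_112_s1 k27_A00pm_112_s1

theorem t34_A00pm_112_s1 : ∃ t, chk3 f_A00pm_112_s1 t 18 21463 1 = true := ex3_a k18_A00pm_112_s1 k19_A00pm_112_s1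

theorem t35_A00pm_112_s1 : ∃ t, chk3 f_A00pm_112_s1 t 18 10731 1 = true := ex3_b k17_A00pm_112_s1 t34_A00pm_112_s1

theorem t36_A00pm_112_s1 : ∃ t, chk3 f_A00pm_112_s1 t 18 5365 1 = true := ex3_b k16_A00pm_112_s1 t35_A00pm_112_s1

theorem t37_A00pm_112_s1 : ∃ t, chk3 f_A00pm_112_s1 t 18 2682 1 = true := ex3_b k15_A00pm_112_s1 t36_A00pm_112_s1

theorem t38_A00pm_112_s1 : ∃ t, chk3 f_A00pm_112_s1 t 18 1341 1 = true := ex3_b t37_A00pm_112_s1 k20_A00pm_112_s1

theorem t39_A00pm_112_s1 : ∃ t, chk3 f_A00pm_112_s1 t 18 670 1 = true := ex3_b k14_A00pm_112_s1 t38_A00pm_112_s1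

theorem t40_A00pm_112_s1 : ∃ t, chk3 f_A00pm_112_s1 t 18 335 1 = true := ex3_b t39_A00pm_112_s1 k21_A00pm_112_s1

theorem t41_A00pm_112_s1 : ∃ t, chk3 f_A00pm_112_s1 t 18 167 1 = true := ex3_b k13_A00pm_112_s1 t40_A00pm_112_s1

theorem t42_A00pm_112_s1 : ∃ t, chk3 f_A00pm_112_s1 t 9 167 1 = true := ex3_a t41_A00pm_112_s1 k22_A00pm_112_s1

theorem t43_A00pm_112_s1 : ∃ t, chk3 f_A00pm_112_s1 t 8 21463 1 = true := ex3_a k9_A00pm_112_s1 k10_A00pm_112_s1

theorem t44_A00pm_112_s1 : ∃ t, chk3 f_A00pm_112_s1 t 8 10731 1 = true := ex3_b k8_A00pm_112_s1 t43_A00pm_112_s1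

theorem t45_A00pm_112_s1 : ∃ t, chk3 f_A00pm_112_s1 t 8 5365 1 = true := ex3_b k7_A00pm_112_s1 t44_A00pm_112_s1

theorem t46_A00pm_112_s1 : ∃ t, chk3 f_A00pm_112_s1 t 8 2682 1 = true := ex3_b k6_A00pm_112_s1 t45_A00pm_112_s1

theorem t47_A00pm_112_s1 : ∃ t, chk3 f_A00pm_112_s1 t 8 1341 1 = true := ex3_b t46_A00pm_112_s1 k11_A00pm_112_s1

theorem t48_A00pm_112_s1 : ∃ t, chk3 f_A00pm_112_s1 t 8 670 1 = true := ex3_b k5_A00pm_112_s1 t47_A00pm_112_s1

theorem t49_A00pm_112_s1 : ∃ t, chk3 f_A00pm_112_s1 t 8 335 1 = true := ex3_b t48_A00pm_112_s1 k12_A00pm_112_s1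

theorem t50_A00pm_112_s1 : ∃ t, chk3 f_A00pm_112_s1 t 8 167 1 = true := ex3_b k4_A00pm_112_s1 t49_A00pm_112_s1

theorem t51_A00pm_112_s1 : ∃ t, chk3 f_A00pm_112_s1 t 4 167 1 = true := ex3_a t50_A00pm_112_s1 t42_A00pm_112_s1

theorem t52_A00pm_112_s1 : ∃ t, chk3 f_A00pm_112_s1 t 4 83 1 = true := ex3_b k3_A00pm_112_s1 t51_A00pm_112_s1

theorem t53_A00pm_112_s1 : ∃ t, chk3 f_A00pm_112_s1 t 4 41 1 = true := ex3_b k2_A00pm_112_s1 t52_A00pm_112_s1

theorem t54_A00pm_112_s1 : ∃ t, chk3 f_A00pm_112_s1 t 4 20 1 = true := ex3_b k1_A00pm_112_s1 t53_A00pm_112_s1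

theorem t55_A00pm_112_s1 : ∃ t, chk3 f_A00pm_112_s1 t 4 10 1 = true := ex3_b t54_A00pm_112_s1 k23_A00pm_112_s1

theorem t56_A00pm_112_s1 : ∃ t, chk3 f_A00pm_112_s1 t 4 5 1 = true := ex3_b t55_A00pm_112_s1 k24_A00pm_112_s1

theorem t57_A00pm_112_s1 : ∃ t, chk3 f_A00pm_112_s1 t 2 5 1 = true := ex3_a t56_A00pm_112_s1 t33_A00pm_112_s1

theorem t58_A00pm_112_s1 : ∃ t, chk3 f_A00pm_112_s1 t 2 2 1 = true := ex3_b k0_A00pm_112_s1 t57_A00pm_112_s1

theorem t59_A00pm_112_s1 : ∃ t, chk3 f_A00pm_112_s1 t 2 1 1 = true := ex3_b t58_A00pm_112_s1 t31_A00pm_112_s1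

theorem t60_A00pm_112_s1 : ∃ t, chk3 f_A00pm_112_s1 t 1 1 1 = true := ex3_a t59_A00pm_112_s1 k30_A00pm_112_s1

theorem c_A00pm_112_s1 : CertF 536870912 536870912 536870912 536870912 966367641 24778659 true true false .dn 1 1 2
    ndB0q1 ndB0q1 pcB2 cut_A00pm_112_s1 xt_A00pm_112_s1 :=
  certF1 (fam := true) (s1 := true) (s2 := false) (a := 1) (b := 1) (c := 2) (cn := .dn) (n1 := ndB0q1) (n2 := ndB0q1) (pc := pcB2) (cut := cut_A00pm_112_s1) (xt := xt_A00pm_112_s1) (P1 := 536870912) (W1 := 536870912) (P2 := 536870912) (W2 := 536870912) (P3 := 966367641) (W3 := 24778659)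
    rfl (fun _ => rfl) t60_A00pm_112_s1

theorem s_A00pm_112_s1 {κ x : ℝ} (hκ : κ * h0 = ken x) (hx : ((966367641 : ℕ) : ℝ) / S ≤ x)
    (hx' : x ≤ (((966367641 : ℕ) : ℝ) + (24778659 : ℕ)) / S) :
    AltA (VFD κ) PP tK tL pcB [⟨3, 0, 0, 1449551462⟩] 1 1 2 0 0 (sgb true) (sgb false) x :=
  strip_altAD (m := 1449551462) true rfl hκ (SH.κ0 hκ (SH.hx1 hx).le (SH.hx2 hx').le) (SH.hx1 hx).le (SH.hx2 hx') (covB01).cov (covB01).cov hx hx' c_A00pm_112_s1 cutA_nil ((okx hx hx').extA (T := tt) (sideB hx hx') hκ rfl rfl (.O 1 true) (.O 1 false) rfl)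

noncomputable def cut_A00pm_112_s3 : Cut := Cut.of [[⟨3, 0, 0, 2845415833⟩]]

noncomputable def f_A00pm_112_s3 : ℕ → ℕ → ℕ → ℕ → Bool := onCell 536870912 536870912 1073741824 536870912 966367641 24778659
    (rowF 1 true true false .dn 1 1 2 (qsf 536870912 536870912 536870912 536870912 2) ndB0q1 ndB0q1 pcB2 cut_A00pm_112_s3 Ext.none)

def k0_A00pm_112_s3 : ∃ t, chk3 f_A00pm_112_s3 t 1 1 1 = true :=
  ⟨(l 6), by decide +kernel⟩

theorem c_A00pm_112_s3 : CertF 536870912 536870912 536870912 536870912 966367641 24778659 true true false .dn 1 1 2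
    ndB0q1 ndB0q1 pcB2 cut_A00pm_112_s3 Ext.none :=
  certF1 (fam := true) (s1 := true) (s2 := false) (a := 1) (b := 1) (c := 2) (cn := .dn) (n1 := ndB0q1) (n2 := ndB0q1) (pc := pcB2) (cut := cut_A00pm_112_s3) (xt := Ext.none) (P1 := 536870912) (W1 := 536870912) (P2 := 536870912) (W2 := 536870912) (P3 := 966367641) (W3 := 24778659)
    rfl (fun _ => rfl) k0_A00pm_112_s3

theorem s_A00pm_112_s3 {κ x : ℝ} (hκ : κ * h0 = ken x) (hx : ((966367641 : ℕ) : ℝ) / S ≤ x)
    (hx' : x ≤ (((966367641 : ℕ) : ℝ) + (24778659 : ℕ)) / S) :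
    AltA (VFD κ) PP tK tL pcB [⟨4, 0, 0, 2845415833⟩] 1 1 2 0 0 (sgb true) (sgb false) x :=
  strip_altAD (m := 2845415833) false rfl hκ (SH.κ0 hκ (SH.hx1 hx).le (SH.hx2 hx').le) (SH.hx1 hx).le (SH.hx2 hx') (covB01).cov (covB01).cov hx hx' c_A00pm_112_s3 cutA_nil (noExt_A)

noncomputable def cut_A00pm_113_s1 : Cut := Cut.of [[⟨4, 0, 0, 1449551462⟩], [⟨0, 1, 0, 47710208⟩, ⟨1, 1, 0, 47710208⟩, ⟨2, 2, 0, 8388608⟩], [⟨0, 0, 1, 46137344⟩, ⟨1, 1, 0, 1572864⟩, ⟨2, 1, 1, 46137344⟩, ⟨0, 0, 0, 1013612281⟩, ⟨0, 1, 0, 128849018⟩, ⟨2, 1, 0, 1013612281⟩, ⟨2, 2, 0, 128849018⟩], [⟨0, 1, 0, 1572864⟩, ⟨1, 0, 1, 46137344⟩, ⟨2, 1, 1, 46137344⟩, ⟨1, 0, 0, 1013612281⟩, ⟨1, 1, 0, 128849018⟩, ⟨2, 1, 0, 1013612281⟩, ⟨2, 2, 0, 128849018⟩]]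

noncomputable def f_A00pm_113_s1 : ℕ → ℕ → ℕ → ℕ → Bool := onCell 1610612736 536870912 536870912 536870912 966367641 24778659
    (rowF 2 true true false .nn 1 1 3 (qsf 536870912 536870912 536870912 536870912 3) ndB0q1 ndB0q1 pcB3 cut_A00pm_113_s1 Ext.none)

def k0_A00pm_113_s1 : ∃ t, chk3 f_A00pm_113_s1 t 1 1 1 = true :=
  ⟨(a (b (a (l 6) (l 6)) (l 6)) (l 6)), by decide +kernel⟩

theorem c_A00pm_113_s1 : CertF 536870912 536870912 536870912 536870912 966367641 24778659 true true false .nn 1 1 3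
    ndB0q1 ndB0q1 pcB3 cut_A00pm_113_s1 Ext.none :=
  certF2 (fam := true) (s1 := true) (s2 := false) (a := 1) (b := 1) (c := 3) (cn := .nn) (n1 := ndB0q1) (n2 := ndB0q1) (pc := pcB3) (cut := cut_A00pm_113_s1) (xt := Ext.none) (P1 := 536870912) (W1 := 536870912) (P2 := 536870912) (W2 := 536870912) (P3 := 966367641) (W3 := 24778659)
    rfl (fun _ => rfl) k0_A00pm_113_s1

theorem s_A00pm_113_s1 {κ x : ℝ} (hκ : κ * h0 = ken x) (hx : ((966367641 : ℕ) : ℝ) / S ≤ x)
    (hx' : x ≤ (((966367641 : ℕ) : ℝ) + (24778659 : ℕ)) / S)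
    (H : CutA (VFD κ) PP tK tL pcB (Cut.of [[⟨0, 1, 0, 47710208⟩, ⟨1, 1, 0, 47710208⟩, ⟨2, 2, 0, 8388608⟩], [⟨0, 0, 1, 46137344⟩, ⟨1, 1, 0, 1572864⟩, ⟨2, 1, 1, 46137344⟩, ⟨0, 0, 0, 1013612281⟩, ⟨0, 1, 0, 128849018⟩, ⟨2, 1, 0, 1013612281⟩, ⟨2, 2, 0, 128849018⟩], [⟨0, 1, 0, 1572864⟩, ⟨1, 0, 1, 46137344⟩, ⟨2, 1, 1, 46137344⟩, ⟨1, 0, 0, 1013612281⟩, ⟨1, 1, 0, 128849018⟩, ⟨2, 1, 0, 1013612281⟩, ⟨2, 2, 0, 128849018⟩]]) 1 1 3 0 0 (sgb true) (sgb false) x) :
    AltA (VFD κ) PP tK tL pcB [⟨3, 0, 0, 1449551462⟩] 1 1 3 0 0 (sgb true) (sgb false) x :=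
  strip_altAD (m := 1449551462) true rfl hκ (SH.κ0 hκ (SH.hx1 hx).le (SH.hx2 hx').le) (SH.hx1 hx).le (SH.hx2 hx') (covB01).cov (covB01).cov hx hx' c_A00pm_113_s1 H (noExt_A)

end Pool.Agent.Strip051.G.I9000_9231.Tab.St.C
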