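import Pool.Agent.Strip051.G.I9000_9231.StH
import Pool.Agent.Strip051.G.I9000_9231.Sp7_0
import Pool.Agent.Strip051.G.I9000_9231.Sp7_1
import Pool.Agent.Strip051.G.I9000_9231.Sp7_2
import Pool.Agent.Strip051.G.I9000_9231.Sp7_3
import Pool.Agent.Strip051.G.I9000_9231.StF

/-! # Unit strips 7 (generated) -/

set_option linter.all false
set_option maxRecDepth 100000

namespace Pool.Agent.Strip051.G.I9000_9231.Tab.St.C

open Pool.Agent.Strip051.PB Pool.Agent.Strip051.PB.T Pool.Agent.StripNear Pool.Agent.Strip051.LC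
open Pool.Agent.Strip051.G.I9000_9231.Tab Pool.Agent.Strip051.G.I9000_9231.Tab.St

theorem t270_A00pm_113_s3 : ∃ t, chk3 f_A00pm_113_s3 t 254 255 1 = true := ex3_a k267_A00pm_113_s3 k268_A00pm_113_s3

theorem t271_A00pm_113_s3 : ∃ t, chk3 f_A00pm_113_s3 t 127 255 1 = true := ex3_a t270_A00pm_113_s3 k269_A00pm_113_s3

theorem t272_A00pm_113_s3 : ∃ t, chk3 f_A00pm_113_s3 t 255 254 1 = true := ex3_b k265_A00pm_113_s3 k266_A00pm_113_s3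

theorem t273_A00pm_113_s3 : ∃ t, chk3 f_A00pm_113_s3 t 127 254 1 = true := ex3_a k264_A00pm_113_s3 t272_A00pm_113_s3

theorem t274_A00pm_113_s3 : ∃ t, chk3 f_A00pm_113_s3 t 127 127 1 = true := ex3_b t273_A00pm_113_s3 t271_A00pm_113_s3

theorem t275_A00pm_113_s3 : ∃ t, chk3 f_A00pm_113_s3 t 126 1023 1 = true := ex3_b k262_A00pm_113_s3 k263_A00pm_113_s3

theorem t276_A00pm_113_s3 : ∃ t, chk3 f_A00pm_113_s3 t 126 511 1 = true := ex3_b k261_A00pm_113_s3 t275_A00pm_113_s3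

theorem t277_A00pm_113_s3 : ∃ t, chk3 f_A00pm_113_s3 t 126 510 1 = true := ex3_a k259_A00pm_113_s3 k260_A00pm_113_s3

theorem t278_A00pm_113_s3 : ∃ t, chk3 f_A00pm_113_s3 t 126 255 1 = true := ex3_b t277_A00pm_113_s3 t276_A00pm_113_s3

theorem t279_A00pm_113_s3 : ∃ t, chk3 f_A00pm_113_s3 t 126 509 1 = true := ex3_a k257_A00pm_113_s3 k258_A00pm_113_s3

theorem t280_A00pm_113_s3 : ∃ t, chk3 f_A00pm_113_s3 t 126 254 1 = true := ex3_b k256_A00pm_113_s3 t279_A00pm_113_s3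

theorem t281_A00pm_113_s3 : ∃ t, chk3 f_A00pm_113_s3 t 126 127 1 = true := ex3_b t280_A00pm_113_s3 t278_A00pm_113_s3

theorem t282_A00pm_113_s3 : ∃ t, chk3 f_A00pm_113_s3 t 63 127 1 = true := ex3_a t281_A00pm_113_s3 t274_A00pm_113_s3

theorem t283_A00pm_113_s3 : ∃ t, chk3 f_A00pm_113_s3 t 1023 126 1 = true := ex3_a k254_A00pm_113_s3 k255_A00pm_113_s3

theorem t284_A00pm_113_s3 : ∃ t, chk3 f_A00pm_113_s3 t 511 126 1 = true := ex3_a k253_A00pm_113_s3 t283_A00pm_113_s3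

theorem t285_A00pm_113_s3 : ∃ t, chk3 f_A00pm_113_s3 t 510 126 1 = true := ex3_b k251_A00pm_113_s3 k252_A00pm_113_s3

theorem t286_A00pm_113_s3 : ∃ t, chk3 f_A00pm_113_s3 t 255 126 1 = true := ex3_a t285_A00pm_113_s3 t284_A00pm_113_s3

theorem t287_A00pm_113_s3 : ∃ t, chk3 f_A00pm_113_s3 t 509 126 1 = true := ex3_b k249_A00pm_113_s3 k250_A00pm_113_s3

theorem t288_A00pm_113_s3 : ∃ t, chk3 f_A00pm_113_s3 t 254 126 1 = true := ex3_a k248_A00pm_113_s3 t287_A00pm_113_s3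

theorem t289_A00pm_113_s3 : ∃ t, chk3 f_A00pm_113_s3 t 127 126 1 = true := ex3_a t288_A00pm_113_s3 t286_A00pm_113_s3

theorem t290_A00pm_113_s3 : ∃ t, chk3 f_A00pm_113_s3 t 63 126 1 = true := ex3_a k247_A00pm_113_s3 t289_A00pm_113_s3

theorem t291_A00pm_113_s3 : ∃ t, chk3 f_A00pm_113_s3 t 63 63 1 = true := ex3_b t290_A00pm_113_s3 t282_A00pm_113_s3

theorem t292_A00pm_113_s3 : ∃ t, chk3 f_A00pm_113_s3 t 255 125 3 = true := ex3_b k245_A00pm_113_s3 k246_A00pm_113_s3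

theorem t293_A00pm_113_s3 : ∃ t, chk3 f_A00pm_113_s3 t 255 125 1 = true := ex3_c k244_A00pm_113_s3 t292_A00pm_113_s3

theorem t294_A00pm_113_s3 : ∃ t, chk3 f_A00pm_113_s3 t 511 249 3 = true := ex3_a k242_A00pm_113_s3 k243_A00pm_113_s3

theorem t295_A00pm_113_s3 : ∃ t, chk3 f_A00pm_113_s3 t 510 249 3 = true := ex3_a k240_A00pm_113_s3 k241_A00pm_113_s3

theorem t296_A00pm_113_s3 : ∃ t, chk3 f_A00pm_113_s3 t 255 249 3 = true := ex3_a t295_A00pm_113_s3 t294_A00pm_113_s3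

theorem t297_A00pm_113_s3 : ∃ t, chk3 f_A00pm_113_s3 t 1023 248 3 = true := ex3_a k238_A00pm_113_s3 k239_A00pm_113_s3

theorem t298_A00pm_113_s3 : ∃ t, chk3 f_A00pm_113_s3 t 511 248 3 = true := ex3_a k237_A00pm_113_s3 t297_A00pm_113_s3

theorem t299_A00pm_113_s3 : ∃ t, chk3 f_A00pm_113_s3 t 255 248 3 = true := ex3_a k236_A00pm_113_s3 t298_A00pm_113_s3

theorem t300_A00pm_113_s3 : ∃ t, chk3 f_A00pm_113_s3 t 255 124 3 = true := ex3_b t299_A00pm_113_s3 t296_A00pm_113_s3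

theorem t301_A00pm_113_s3 : ∃ t, chk3 f_A00pm_113_s3 t 255 124 2 = true := ex3_b k234_A00pm_113_s3 k235_A00pm_113_s3

theorem t302_A00pm_113_s3 : ∃ t, chk3 f_A00pm_113_s3 t 255 124 1 = true := ex3_c t301_A00pm_113_s3 t300_A00pm_113_s3

theorem t303_A00pm_113_s3 : ∃ t, chk3 f_A00pm_113_s3 t 255 62 1 = true := ex3_b t302_A00pm_113_s3 t293_A00pm_113_s3

theorem t304_A00pm_113_s3 : ∃ t, chk3 f_A00pm_113_s3 t 509 125 1 = true := ex3_a k232_A00pm_113_s3 k233_A00pm_113_s3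

theorem t305_A00pm_113_s3 : ∃ t, chk3 f_A00pm_113_s3 t 508 250 3 = true := ex3_a k229_A00pm_113_s3 k230_A00pm_113_s3

theorem t306_A00pm_113_s3 : ∃ t, chk3 f_A00pm_113_s3 t 508 125 3 = true := ex3_b t305_A00pm_113_s3 k231_A00pm_113_s3

theorem t307_A00pm_113_s3 : ∃ t, chk3 f_A00pm_113_s3 t 508 125 1 = true := ex3_c k228_A00pm_113_s3 t306_A00pm_113_s3

theorem t308_A00pm_113_s3 : ∃ t, chk3 f_A00pm_113_s3 t 254 125 1 = true := ex3_a t307_A00pm_113_s3 t304_A00pm_113_s3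

theorem t309_A00pm_113_s3 : ∃ t, chk3 f_A00pm_113_s3 t 254 124 3 = true := ex3_b k226_A00pm_113_s3 k227_A00pm_113_s3

theorem t310_A00pm_113_s3 : ∃ t, chk3 f_A00pm_113_s3 t 254 124 1 = true := ex3_c k225_A00pm_113_s3 t309_A00pm_113_s3

theorem t311_A00pm_113_s3 : ∃ t, chk3 f_A00pm_113_s3 t 254 62 1 = true := ex3_b t310_A00pm_113_s3 t308_A00pm_113_s3

theorem t312_A00pm_113_s3 : ∃ t, chk3 f_A00pm_113_s3 t 127 62 1 = true := ex3_a t311_A00pm_113_s3 t303_A00pm_113_s3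

theorem t313_A00pm_113_s3 : ∃ t, chk3 f_A00pm_113_s3 t 253 125 1 = true := ex3_b k223_A00pm_113_s3 k224_A00pm_113_s3

theorem t314_A00pm_113_s3 : ∃ t, chk3 f_A00pm_113_s3 t 253 249 3 = true := ex3_a k221_A00pm_113_s3 k222_A00pm_113_s3

theorem t315_A00pm_113_s3 : ∃ t, chk3 f_A00pm_113_s3 t 253 249 1 = true := ex3_c k220_A00pm_113_s3 t314_A00pm_113_s3

theorem t316_A00pm_113_s3 : ∃ t, chk3 f_A00pm_113_s3 t 253 248 1 = true := ex3_b k218_A00pm_113_s3 k219_A00pm_113_s3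

theorem t317_A00pm_113_s3 : ∃ t, chk3 f_A00pm_113_s3 t 253 124 1 = true := ex3_b t316_A00pm_113_s3 t315_A00pm_113_s3

theorem t318_A00pm_113_s3 : ∃ t, chk3 f_A00pm_113_s3 t 253 62 1 = true := ex3_b t317_A00pm_113_s3 t313_A00pm_113_s3

theorem t319_A00pm_113_s3 : ∃ t, chk3 f_A00pm_113_s3 t 126 62 1 = true := ex3_a k217_A00pm_113_s3 t318_A00pm_113_s3

theorem t320_A00pm_113_s3 : ∃ t, chk3 f_A00pm_113_s3 t 63 62 1 = true := ex3_a t319_A00pm_113_s3 t312_A00pm_113_s3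

theorem t321_A00pm_113_s3 : ∃ t, chk3 f_A00pm_113_s3 t 63 31 1 = true := ex3_b t320_A00pm_113_s3 t291_A00pm_113_s3

theorem t322_A00pm_113_s3 : ∃ t, chk3 f_A00pm_113_s3 t 125 255 3 = true := ex3_a k215_A00pm_113_s3 k216_A00pm_113_s3

theorem t323_A00pm_113_s3 : ∃ t, chk3 f_A00pm_113_s3 t 125 255 1 = true := ex3_c k214_A00pm_113_s3 t322_A00pm_113_s3

theorem t324_A00pm_113_s3 : ∃ t, chk3 f_A00pm_113_s3 t 249 511 3 = true := ex3_b k212_A00pm_113_s3 k213_A00pm_113_s3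

theorem t325_A00pm_113_s3 : ∃ t, chk3 f_A00pm_113_s3 t 249 510 3 = true := ex3_b k210_A00pm_113_s3 k211_A00pm_113_s3

theorem t326_A00pm_113_s3 : ∃ t, chk3 f_A00pm_113_s3 t 249 255 3 = true := ex3_b t325_A00pm_113_s3 t324_A00pm_113_s3

theorem t327_A00pm_113_s3 : ∃ t, chk3 f_A00pm_113_s3 t 248 1023 3 = true := ex3_b k208_A00pm_113_s3 k209_A00pm_113_s3

theorem t328_A00pm_113_s3 : ∃ t, chk3 f_A00pm_113_s3 t 248 511 3 = true := ex3_b k207_A00pm_113_s3 t327_A00pm_113_s3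

theorem t329_A00pm_113_s3 : ∃ t, chk3 f_A00pm_113_s3 t 248 255 3 = true := ex3_b k206_A00pm_113_s3 t328_A00pm_113_s3

theorem t330_A00pm_113_s3 : ∃ t, chk3 f_A00pm_113_s3 t 124 255 3 = true := ex3_a t329_A00pm_113_s3 t326_A00pm_113_s3

theorem t331_A00pm_113_s3 : ∃ t, chk3 f_A00pm_113_s3 t 124 255 2 = true := ex3_a k204_A00pm_113_s3 k205_A00pm_113_s3

theorem t332_A00pm_113_s3 : ∃ t, chk3 f_A00pm_113_s3 t 124 255 1 = true := ex3_c t331_A00pm_113_s3 t330_A00pm_113_s3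

theorem t333_A00pm_113_s3 : ∃ t, chk3 f_A00pm_113_s3 t 62 255 1 = true := ex3_a t332_A00pm_113_s3 t323_A00pm_113_s3

theorem t334_A00pm_113_s3 : ∃ t, chk3 f_A00pm_113_s3 t 125 509 1 = true := ex3_b k202_A00pm_113_s3 k203_A00pm_113_s3

theorem t335_A00pm_113_s3 : ∃ t, chk3 f_A00pm_113_s3 t 250 508 3 = true := ex3_b k199_A00pm_113_s3 k200_A00pm_113_s3

theorem t336_A00pm_113_s3 : ∃ t, chk3 f_A00pm_113_s3 t 125 508 3 = true := ex3_a t335_A00pm_113_s3 k201_A00pm_113_s3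

theorem t337_A00pm_113_s3 : ∃ t, chk3 f_A00pm_113_s3 t 125 508 1 = true := ex3_c k198_A00pm_113_s3 t336_A00pm_113_s3

theorem t338_A00pm_113_s3 : ∃ t, chk3 f_A00pm_113_s3 t 125 254 1 = true := ex3_b t337_A00pm_113_s3 t334_A00pm_113_s3

theorem t339_A00pm_113_s3 : ∃ t, chk3 f_A00pm_113_s3 t 124 254 3 = true := ex3_a k196_A00pm_113_s3 k197_A00pm_113_s3

theorem t340_A00pm_113_s3 : ∃ t, chk3 f_A00pm_113_s3 t 124 254 1 = true := ex3_c k195_A00pm_113_s3 t339_A00pm_113_s3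

theorem t341_A00pm_113_s3 : ∃ t, chk3 f_A00pm_113_s3 t 62 254 1 = true := ex3_a t340_A00pm_113_s3 t338_A00pm_113_s3

theorem t342_A00pm_113_s3 : ∃ t, chk3 f_A00pm_113_s3 t 62 127 1 = true := ex3_b t341_A00pm_113_s3 t333_A00pm_113_s3

theorem t343_A00pm_113_s3 : ∃ t, chk3 f_A00pm_113_s3 t 125 253 1 = true := ex3_a k193_A00pm_113_s3 k194_A00pm_113_s3

theorem t344_A00pm_113_s3 : ∃ t, chk3 f_A00pm_113_s3 t 249 253 3 = true := ex3_b k191_A00pm_113_s3 k192_A00pm_113_s3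

theorem t345_A00pm_113_s3 : ∃ t, chk3 f_A00pm_113_s3 t 249 253 1 = true := ex3_c k190_A00pm_113_s3 t344_A00pm_113_s3

theorem t346_A00pm_113_s3 : ∃ t, chk3 f_A00pm_113_s3 t 248 253 1 = true := ex3_a k188_A00pm_113_s3 k189_A00pm_113_s3

theorem t347_A00pm_113_s3 : ∃ t, chk3 f_A00pm_113_s3 t 124 253 1 = true := ex3_a t346_A00pm_113_s3 t345_A00pm_113_s3

theorem t348_A00pm_113_s3 : ∃ t, chk3 f_A00pm_113_s3 t 62 253 1 = true := ex3_a t347_A00pm_113_s3 t343_A00pm_113_s3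

theorem t349_A00pm_113_s3 : ∃ t, chk3 f_A00pm_113_s3 t 62 126 1 = true := ex3_b k187_A00pm_113_s3 t348_A00pm_113_s3

theorem t350_A00pm_113_s3 : ∃ t, chk3 f_A00pm_113_s3 t 62 63 1 = true := ex3_b t349_A00pm_113_s3 t342_A00pm_113_s3

theorem t351_A00pm_113_s3 : ∃ t, chk3 f_A00pm_113_s3 t 62 31 1 = true := ex3_b k186_A00pm_113_s3 t350_A00pm_113_s3

theorem t352_A00pm_113_s3 : ∃ t, chk3 f_A00pm_113_s3 t 31 31 1 = true := ex3_a t351_A00pm_113_s3 t321_A00pm_113_s3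

theorem t353_A00pm_113_s3 : ∃ t, chk3 f_A00pm_113_s3 t 255 247 3 = true := ex3_a k184_A00pm_113_s3 k185_A00pm_113_s3

theorem t354_A00pm_113_s3 : ∃ t, chk3 f_A00pm_113_s3 t 255 246 3 = true := ex3_c k182_A00pm_113_s3 k183_A00pm_113_s3

theorem t355_A00pm_113_s3 : ∃ t, chk3 f_A00pm_113_s3 t 255 123 3 = true := ex3_b t354_A00pm_113_s3 t353_A00pm_113_s3

theorem t356_A00pm_113_s3 : ∃ t, chk3 f_A00pm_113_s3 t 127 123 3 = true := ex3_a k181_A00pm_113_s3 t355_A00pm_113_s3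

theorem t357_A00pm_113_s3 : ∃ t, chk3 f_A00pm_113_s3 t 127 123 2 = true := ex3_a k179_A00pm_113_s3 k180_A00pm_113_s3

theorem t358_A00pm_113_s3 : ∃ t, chk3 f_A00pm_113_s3 t 127 123 1 = true := ex3_c t357_A00pm_113_s3 t356_A00pm_113_s3

theorem t359_A00pm_113_s3 : ∃ t, chk3 f_A00pm_113_s3 t 511 122 1 = true := ex3_b k177_A00pm_113_s3 k178_A00pm_113_s3

theorem t360_A00pm_113_s3 : ∃ t, chk3 f_A00pm_113_s3 t 255 122 1 = true := ex3_a k176_A00pm_113_s3 t359_A00pm_113_s3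

theorem t361_A00pm_113_s3 : ∃ t, chk3 f_A00pm_113_s3 t 127 122 1 = true := ex3_a k175_A00pm_113_s3 t360_A00pm_113_s3

theorem t362_A00pm_113_s3 : ∃ t, chk3 f_A00pm_113_s3 t 127 61 1 = true := ex3_b t361_A00pm_113_s3 t358_A00pm_113_s3

theorem t363_A00pm_113_s3 : ∃ t, chk3 f_A00pm_113_s3 t 253 123 1 = true := ex3_c k173_A00pm_113_s3 k174_A00pm_113_s3

theorem t364_A00pm_113_s3 : ∃ t, chk3 f_A00pm_113_s3 t 505 247 1 = true := ex3_a k171_A00pm_113_s3 k172_A00pm_113_s3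

theorem t365_A00pm_113_s3 : ∃ t, chk3 f_A00pm_113_s3 t 252 247 1 = true := ex3_a k170_A00pm_113_s3 t364_A00pm_113_s3

theorem t366_A00pm_113_s3 : ∃ t, chk3 f_A00pm_113_s3 t 252 246 1 = true := ex3_a k168_A00pm_113_s3 k169_A00pm_113_s3

theorem t367_A00pm_113_s3 : ∃ t, chk3 f_A00pm_113_s3 t 252 123 1 = true := ex3_b t366_A00pm_113_s3 t365_A00pm_113_s3

theorem t368_A00pm_113_s3 : ∃ t, chk3 f_A00pm_113_s3 t 126 123 1 = true := ex3_a t367_A00pm_113_s3 t363_A00pm_113_s3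

theorem t369_A00pm_113_s3 : ∃ t, chk3 f_A00pm_113_s3 t 253 122 1 = true := ex3_b k166_A00pm_113_s3 k167_A00pm_113_s3

theorem t370_A00pm_113_s3 : ∃ t, chk3 f_A00pm_113_s3 t 252 122 3 = true := ex3_a k164_A00pm_113_s3 k165_A00pm_113_s3

theorem t371_A00pm_113_s3 : ∃ t, chk3 f_A00pm_113_s3 t 252 122 1 = true := ex3_c k163_A00pm_113_s3 t370_A00pm_113_s3

theorem t372_A00pm_113_s3 : ∃ t, chk3 f_A00pm_113_s3 t 126 122 1 = true := ex3_a t371_A00pm_113_s3 t369_A00pm_113_s3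

theorem t373_A00pm_113_s3 : ∃ t, chk3 f_A00pm_113_s3 t 126 61 1 = true := ex3_b t372_A00pm_113_s3 t368_A00pm_113_s3

theorem t374_A00pm_113_s3 : ∃ t, chk3 f_A00pm_113_s3 t 63 61 1 = true := ex3_a t373_A00pm_113_s3 t362_A00pm_113_s3

theorem t375_A00pm_113_s3 : ∃ t, chk3 f_A00pm_113_s3 t 1023 243 1 = true := ex3_b k161_A00pm_113_s3 k162_A00pm_113_s3

theorem t376_A00pm_113_s3 : ∃ t, chk3 f_A00pm_113_s3 t 2047 242 7 = true := ex3_a k159_A00pm_113_s3 k160_A00pm_113_s3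

theorem t377_A00pm_113_s3 : ∃ t, chk3 f_A00pm_113_s3 t 2047 242 3 = true := ex3_c k158_A00pm_113_s3 t376_A00pm_113_s3

theorem t378_A00pm_113_s3 : ∃ t, chk3 f_A00pm_113_s3 t 1023 242 3 = true := ex3_a k157_A00pm_113_s3 t377_A00pm_113_s3

theorem t379_A00pm_113_s3 : ∃ t, chk3 f_A00pm_113_s3 t 1023 242 2 = true := ex3_a k155_A00pm_113_s3 k156_A00pm_113_s3

theorem t380_A00pm_113_s3 : ∃ t, chk3 f_A00pm_113_s3 t 1023 242 1 = true := ex3_c t379_A00pm_113_s3 t378_A00pm_113_s3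

theorem t381_A00pm_113_s3 : ∃ t, chk3 f_A00pm_113_s3 t 1023 121 1 = true := ex3_b t380_A00pm_113_s3 t375_A00pm_113_s3

theorem t382_A00pm_113_s3 : ∃ t, chk3 f_A00pm_113_s3 t 1022 242 1 = true := ex3_c k152_A00pm_113_s3 k153_A00pm_113_s3

theorem t383_A00pm_113_s3 : ∃ t, chk3 f_A00pm_113_s3 t 1022 121 1 = true := ex3_b t382_A00pm_113_s3 k154_A00pm_113_s3

theorem t384_A00pm_113_s3 : ∃ t, chk3 f_A00pm_113_s3 t 511 121 1 = true := ex3_a t383_A00pm_113_s3 t381_A00pm_113_s3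

theorem t385_A00pm_113_s3 : ∃ t, chk3 f_A00pm_113_s3 t 510 121 1 = true := ex3_c k150_A00pm_113_s3 k151_A00pm_113_s3

theorem t386_A00pm_113_s3 : ∃ t, chk3 f_A00pm_113_s3 t 255 121 1 = true := ex3_a t385_A00pm_113_s3 t384_A00pm_113_s3

theorem t387_A00pm_113_s3 : ∃ t, chk3 f_A00pm_113_s3 t 254 121 1 = true := ex3_c k148_A00pm_113_s3 k149_A00pm_113_s3

theorem t388_A00pm_113_s3 : ∃ t, chk3 f_A00pm_113_s3 t 127 121 1 = true := ex3_a t387_A00pm_113_s3 t386_A00pm_113_s3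

theorem t389_A00pm_113_s3 : ∃ t, chk3 f_A00pm_113_s3 t 2047 1933 7 = true := ex3_b k145_A00pm_113_s3 k146_A00pm_113_s3

theorem t390_A00pm_113_s3 : ∃ t, chk3 f_A00pm_113_s3 t 2047 966 7 = true := ex3_b k144_A00pm_113_s3 t389_A00pm_113_s3

theorem t391_A00pm_113_s3 : ∃ t, chk3 f_A00pm_113_s3 t 2047 483 7 = true := ex3_b t390_A00pm_113_s3 k147_A00pm_113_s3

theorem t392_A00pm_113_s3 : ∃ t, chk3 f_A00pm_113_s3 t 2047 483 6 = true := ex3_b k142_A00pm_113_s3 k143_A00pm_113_s3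

theorem t393_A00pm_113_s3 : ∃ t, chk3 f_A00pm_113_s3 t 2047 483 3 = true := ex3_c t392_A00pm_113_s3 t391_A00pm_113_s3

theorem t394_A00pm_113_s3 : ∃ t, chk3 f_A00pm_113_s3 t 2047 241 3 = true := ex3_b k141_A00pm_113_s3 t393_A00pm_113_s3

theorem t395_A00pm_113_s3 : ∃ t, chk3 f_A00pm_113_s3 t 1023 241 3 = true := ex3_a k140_A00pm_113_s3 t394_A00pm_113_s3

theorem t396_A00pm_113_s3 : ∃ t, chk3 f_A00pm_113_s3 t 2047 483 2 = true := ex3_b k138_A00pm_113_s3 k139_A00pm_113_s3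

theorem t397_A00pm_113_s3 : ∃ t, chk3 f_A00pm_113_s3 t 1023 483 2 = true := ex3_a k137_A00pm_113_s3 t396_A00pm_113_s3

theorem t398_A00pm_113_s3 : ∃ t, chk3 f_A00pm_113_s3 t 1023 241 2 = true := ex3_b k136_A00pm_113_s3 t397_A00pm_113_s3

theorem t399_A00pm_113_s3 : ∃ t, chk3 f_A00pm_113_s3 t 1023 241 1 = true := ex3_c t398_A00pm_113_s3 t395_A00pm_113_s3

theorem t400_A00pm_113_s3 : ∃ t, chk3 f_A00pm_113_s3 t 1022 241 1 = true := ex3_a k134_A00pm_113_s3 k135_A00pm_113_s3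

theorem t401_A00pm_113_s3 : ∃ t, chk3 f_A00pm_113_s3 t 511 241 1 = true := ex3_a t400_A00pm_113_s3 t399_A00pm_113_s3

theorem t402_A00pm_113_s3 : ∃ t, chk3 f_A00pm_113_s3 t 511 120 1 = true := ex3_b k133_A00pm_113_s3 t401_A00pm_113_s3

theorem t403_A00pm_113_s3 : ∃ t, chk3 f_A00pm_113_s3 t 510 120 1 = true := ex3_c k131_A00pm_113_s3 k132_A00pm_113_s3

theorem t404_A00pm_113_s3 : ∃ t, chk3 f_A00pm_113_s3 t 255 120 1 = true := ex3_a t403_A00pm_113_s3 t402_A00pm_113_s3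

theorem t405_A00pm_113_s3 : ∃ t, chk3 f_A00pm_113_s3 t 127 120 1 = true := ex3_a k130_A00pm_113_s3 t404_A00pm_113_s3

theorem t406_A00pm_113_s3 : ∃ t, chk3 f_A00pm_113_s3 t 127 60 1 = true := ex3_b t405_A00pm_113_s3 t388_A00pm_113_s3

theorem t407_A00pm_113_s3 : ∃ t, chk3 f_A00pm_113_s3 t 253 60 1 = true := ex3_b k128_A00pm_113_s3 k129_A00pm_113_s3

theorem t408_A00pm_113_s3 : ∃ t, chk3 f_A00pm_113_s3 t 126 60 1 = true := ex3_a k127_A00pm_113_s3 t407_A00pm_113_s3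

theorem t409_A00pm_113_s3 : ∃ t, chk3 f_A00pm_113_s3 t 63 60 1 = true := ex3_a t408_A00pm_113_s3 t406_A00pm_113_s3

theorem t410_A00pm_113_s3 : ∃ t, chk3 f_A00pm_113_s3 t 63 30 1 = true := ex3_b t409_A00pm_113_s3 t374_A00pm_113_s3

theorem t411_A00pm_113_s3 : ∃ t, chk3 f_A00pm_113_s3 t 62 61 1 = true := ex3_c k125_A00pm_113_s3 k126_A00pm_113_s3

theorem t412_A00pm_113_s3 : ∃ t, chk3 f_A00pm_113_s3 t 62 60 1 = true := ex3_b k123_A00pm_113_s3 k124_A00pm_113_s3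

theorem t413_A00pm_113_s3 : ∃ t, chk3 f_A00pm_113_s3 t 62 30 1 = true := ex3_b t412_A00pm_113_s3 t411_A00pm_113_s3

theorem t414_A00pm_113_s3 : ∃ t, chk3 f_A00pm_113_s3 t 31 30 1 = true := ex3_a t413_A00pm_113_s3 t410_A00pm_113_s3

theorem t415_A00pm_113_s3 : ∃ t, chk3 f_A00pm_113_s3 t 31 15 1 = true := ex3_b t414_A00pm_113_s3 t352_A00pm_113_s3

theorem t416_A00pm_113_s3 : ∃ t, chk3 f_A00pm_113_s3 t 247 255 3 = true := ex3_b k121_A00pm_113_s3 k122_A00pm_113_s3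

theorem t417_A00pm_113_s3 : ∃ t, chk3 f_A00pm_113_s3 t 246 255 3 = true := ex3_c k119_A00pm_113_s3 k120_A00pm_113_s3

theorem t418_A00pm_113_s3 : ∃ t, chk3 f_A00pm_113_s3 t 123 255 3 = true := ex3_a t417_A00pm_113_s3 t416_A00pm_113_s3

theorem t419_A00pm_113_s3 : ∃ t, chk3 f_A00pm_113_s3 t 123 127 3 = true := ex3_b k118_A00pm_113_s3 t418_A00pm_113_s3

theorem t420_A00pm_113_s3 : ∃ t, chk3 f_A00pm_113_s3 t 123 127 2 = true := ex3_b k116_A00pm_113_s3 k117_A00pm_113_s3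

theorem t421_A00pm_113_s3 : ∃ t, chk3 f_A00pm_113_s3 t 123 127 1 = true := ex3_c t420_A00pm_113_s3 t419_A00pm_113_s3

theorem t422_A00pm_113_s3 : ∃ t, chk3 f_A00pm_113_s3 t 122 511 1 = true := ex3_a k114_A00pm_113_s3 k115_A00pm_113_s3

theorem t423_A00pm_113_s3 : ∃ t, chk3 f_A00pm_113_s3 t 122 255 1 = true := ex3_b k113_A00pm_113_s3 t422_A00pm_113_s3

theorem t424_A00pm_113_s3 : ∃ t, chk3 f_A00pm_113_s3 t 122 127 1 = true := ex3_b k112_A00pm_113_s3 t423_A00pm_113_s3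

theorem t425_A00pm_113_s3 : ∃ t, chk3 f_A00pm_113_s3 t 61 127 1 = true := ex3_a t424_A00pm_113_s3 t421_A00pm_113_s3

theorem t426_A00pm_113_s3 : ∃ t, chk3 f_A00pm_113_s3 t 123 253 1 = true := ex3_c k110_A00pm_113_s3 k111_A00pm_113_s3

theorem t427_A00pm_113_s3 : ∃ t, chk3 f_A00pm_113_s3 t 247 505 1 = true := ex3_b k108_A00pm_113_s3 k109_A00pm_113_s3

theorem t428_A00pm_113_s3 : ∃ t, chk3 f_A00pm_113_s3 t 247 252 1 = true := ex3_b k107_A00pm_113_s3 t427_A00pm_113_s3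

theorem t429_A00pm_113_s3 : ∃ t, chk3 f_A00pm_113_s3 t 246 252 1 = true := ex3_b k105_A00pm_113_s3 k106_A00pm_113_s3

theorem t430_A00pm_113_s3 : ∃ t, chk3 f_A00pm_113_s3 t 123 252 1 = true := ex3_a t429_A00pm_113_s3 t428_A00pm_113_s3

theorem t431_A00pm_113_s3 : ∃ t, chk3 f_A00pm_113_s3 t 123 126 1 = true := ex3_b t430_A00pm_113_s3 t426_A00pm_113_s3

theorem t432_A00pm_113_s3 : ∃ t, chk3 f_A00pm_113_s3 t 122 253 1 = true := ex3_a k103_A00pm_113_s3 k104_A00pm_113_s3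

theorem t433_A00pm_113_s3 : ∃ t, chk3 f_A00pm_113_s3 t 122 252 3 = true := ex3_a k101_A00pm_113_s3 k102_A00pm_113_s3

theorem t434_A00pm_113_s3 : ∃ t, chk3 f_A00pm_113_s3 t 122 252 1 = true := ex3_c k100_A00pm_113_s3 t433_A00pm_113_s3

theorem t435_A00pm_113_s3 : ∃ t, chk3 f_A00pm_113_s3 t 122 126 1 = true := ex3_b t434_A00pm_113_s3 t432_A00pm_113_s3

theorem t436_A00pm_113_s3 : ∃ t, chk3 f_A00pm_113_s3 t 61 126 1 = true := ex3_a t435_A00pm_113_s3 t431_A00pm_113_s3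

theorem t437_A00pm_113_s3 : ∃ t, chk3 f_A00pm_113_s3 t 61 63 1 = true := ex3_b t436_A00pm_113_s3 t425_A00pm_113_s3

theorem t438_A00pm_113_s3 : ∃ t, chk3 f_A00pm_113_s3 t 243 1023 1 = true := ex3_a k98_A00pm_113_s3 k99_A00pm_113_s3

theorem t439_A00pm_113_s3 : ∃ t, chk3 f_A00pm_113_s3 t 242 2047 7 = true := ex3_b k96_A00pm_113_s3 k97_A00pm_113_s3

theorem t440_A00pm_113_s3 : ∃ t, chk3 f_A00pm_113_s3 t 242 2047 3 = true := ex3_c k95_A00pm_113_s3 t439_A00pm_113_s3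

theorem t441_A00pm_113_s3 : ∃ t, chk3 f_A00pm_113_s3 t 242 1023 3 = true := ex3_b k94_A00pm_113_s3 t440_A00pm_113_s3

theorem t442_A00pm_113_s3 : ∃ t, chk3 f_A00pm_113_s3 t 242 1023 2 = true := ex3_b k92_A00pm_113_s3 k93_A00pm_113_s3

theorem t443_A00pm_113_s3 : ∃ t, chk3 f_A00pm_113_s3 t 242 1023 1 = true := ex3_c t442_A00pm_113_s3 t441_A00pm_113_s3

theorem t444_A00pm_113_s3 : ∃ t, chk3 f_A00pm_113_s3 t 121 1023 1 = true := ex3_a t443_A00pm_113_s3 t438_A00pm_113_s3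

theorem t445_A00pm_113_s3 : ∃ t, chk3 f_A00pm_113_s3 t 242 1022 1 = true := ex3_c k89_A00pm_113_s3 k90_A00pm_113_s3

theorem t446_A00pm_113_s3 : ∃ t, chk3 f_A00pm_113_s3 t 121 1022 1 = true := ex3_a t445_A00pm_113_s3 k91_A00pm_113_s3

theorem t447_A00pm_113_s3 : ∃ t, chk3 f_A00pm_113_s3 t 121 511 1 = true := ex3_b t446_A00pm_113_s3 t444_A00pm_113_s3

theorem t448_A00pm_113_s3 : ∃ t, chk3 f_A00pm_113_s3 t 121 510 1 = true := ex3_c k87_A00pm_113_s3 k88_A00pm_113_s3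

theorem t449_A00pm_113_s3 : ∃ t, chk3 f_A00pm_113_s3 t 121 255 1 = true := ex3_b t448_A00pm_113_s3 t447_A00pm_113_s3

theorem t450_A00pm_113_s3 : ∃ t, chk3 f_A00pm_113_s3 t 121 254 1 = true := ex3_c k85_A00pm_113_s3 k86_A00pm_113_s3

theorem t451_A00pm_113_s3 : ∃ t, chk3 f_A00pm_113_s3 t 121 127 1 = true := ex3_b t450_A00pm_113_s3 t449_A00pm_113_s3

theorem t452_A00pm_113_s3 : ∃ t, chk3 f_A00pm_113_s3 t 1933 2047 7 = true := ex3_a k82_A00pm_113_s3 k83_A00pm_113_s3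

theorem t453_A00pm_113_s3 : ∃ t, chk3 f_A00pm_113_s3 t 966 2047 7 = true := ex3_a k81_A00pm_113_s3 t452_A00pm_113_s3

theorem t454_A00pm_113_s3 : ∃ t, chk3 f_A00pm_113_s3 t 483 2047 7 = true := ex3_a t453_A00pm_113_s3 k84_A00pm_113_s3

theorem t455_A00pm_113_s3 : ∃ t, chk3 f_A00pm_113_s3 t 483 2047 6 = true := ex3_a k79_A00pm_113_s3 k80_A00pm_113_s3

theorem t456_A00pm_113_s3 : ∃ t, chk3 f_A00pm_113_s3 t 483 2047 3 = true := ex3_c t455_A00pm_113_s3 t454_A00pm_113_s3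

theorem t457_A00pm_113_s3 : ∃ t, chk3 f_A00pm_113_s3 t 241 2047 3 = true := ex3_a k78_A00pm_113_s3 t456_A00pm_113_s3

theorem t458_A00pm_113_s3 : ∃ t, chk3 f_A00pm_113_s3 t 241 1023 3 = true := ex3_b k77_A00pm_113_s3 t457_A00pm_113_s3

theorem t459_A00pm_113_s3 : ∃ t, chk3 f_A00pm_113_s3 t 483 2047 2 = true := ex3_a k75_A00pm_113_s3 k76_A00pm_113_s3

theorem t460_A00pm_113_s3 : ∃ t, chk3 f_A00pm_113_s3 t 483 1023 2 = true := ex3_b k74_A00pm_113_s3 t459_A00pm_113_s3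

theorem t461_A00pm_113_s3 : ∃ t, chk3 f_A00pm_113_s3 t 241 1023 2 = true := ex3_a k73_A00pm_113_s3 t460_A00pm_113_s3

theorem t462_A00pm_113_s3 : ∃ t, chk3 f_A00pm_113_s3 t 241 1023 1 = true := ex3_c t461_A00pm_113_s3 t458_A00pm_113_s3

theorem t463_A00pm_113_s3 : ∃ t, chk3 f_A00pm_113_s3 t 241 1022 1 = true := ex3_b k71_A00pm_113_s3 k72_A00pm_113_s3

theorem t464_A00pm_113_s3 : ∃ t, chk3 f_A00pm_113_s3 t 241 511 1 = true := ex3_b t463_A00pm_113_s3 t462_A00pm_113_s3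

theorem t465_A00pm_113_s3 : ∃ t, chk3 f_A00pm_113_s3 t 120 511 1 = true := ex3_a k70_A00pm_113_s3 t464_A00pm_113_s3

theorem t466_A00pm_113_s3 : ∃ t, chk3 f_A00pm_113_s3 t 120 510 1 = true := ex3_c k68_A00pm_113_s3 k69_A00pm_113_s3

theorem t467_A00pm_113_s3 : ∃ t, chk3 f_A00pm_113_s3 t 120 255 1 = true := ex3_b t466_A00pm_113_s3 t465_A00pm_113_s3

theorem t468_A00pm_113_s3 : ∃ t, chk3 f_A00pm_113_s3 t 120 127 1 = true := ex3_b k67_A00pm_113_s3 t467_A00pm_113_s3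

theorem t469_A00pm_113_s3 : ∃ t, chk3 f_A00pm_113_s3 t 60 127 1 = true := ex3_a t468_A00pm_113_s3 t451_A00pm_113_s3

theorem t470_A00pm_113_s3 : ∃ t, chk3 f_A00pm_113_s3 t 60 253 1 = true := ex3_a k65_A00pm_113_s3 k66_A00pm_113_s3

theorem t471_A00pm_113_s3 : ∃ t, chk3 f_A00pm_113_s3 t 60 126 1 = true := ex3_b k64_A00pm_113_s3 t470_A00pm_113_s3

theorem t472_A00pm_113_s3 : ∃ t, chk3 f_A00pm_113_s3 t 60 63 1 = true := ex3_b t471_A00pm_113_s3 t469_A00pm_113_s3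

theorem t473_A00pm_113_s3 : ∃ t, chk3 f_A00pm_113_s3 t 30 63 1 = true := ex3_a t472_A00pm_113_s3 t437_A00pm_113_s3

theorem t474_A00pm_113_s3 : ∃ t, chk3 f_A00pm_113_s3 t 61 62 1 = true := ex3_c k62_A00pm_113_s3 k63_A00pm_113_s3

theorem t475_A00pm_113_s3 : ∃ t, chk3 f_A00pm_113_s3 t 60 62 1 = true := ex3_a k60_A00pm_113_s3 k61_A00pm_113_s3

theorem t476_A00pm_113_s3 : ∃ t, chk3 f_A00pm_113_s3 t 30 62 1 = true := ex3_a t475_A00pm_113_s3 t474_A00pm_113_s3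

theorem t477_A00pm_113_s3 : ∃ t, chk3 f_A00pm_113_s3 t 30 31 1 = true := ex3_b t476_A00pm_113_s3 t473_A00pm_113_s3

theorem t478_A00pm_113_s3 : ∃ t, chk3 f_A00pm_113_s3 t 30 15 1 = true := ex3_b k59_A00pm_113_s3 t477_A00pm_113_s3

theorem t479_A00pm_113_s3 : ∃ t, chk3 f_A00pm_113_s3 t 15 15 1 = true := ex3_a t478_A00pm_113_s3 t415_A00pm_113_s3

theorem t480_A00pm_113_s3 : ∃ t, chk3 f_A00pm_113_s3 t 255 119 3 = true := ex3_a k57_A00pm_113_s3 k58_A00pm_113_s3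

theorem t481_A00pm_113_s3 : ∃ t, chk3 f_A00pm_113_s3 t 255 119 2 = true := ex3_a k55_A00pm_113_s3 k56_A00pm_113_s3

theorem t482_A00pm_113_s3 : ∃ t, chk3 f_A00pm_113_s3 t 255 119 1 = true := ex3_c t481_A00pm_113_s3 t480_A00pm_113_s3

theorem t483_A00pm_113_s3 : ∃ t, chk3 f_A00pm_113_s3 t 255 118 3 = true := ex3_a k53_A00pm_113_s3 k54_A00pm_113_s3

theorem t484_A00pm_113_s3 : ∃ t, chk3 f_A00pm_113_s3 t 255 118 2 = true := ex3_a k51_A00pm_113_s3 k52_A00pm_113_s3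

theorem t485_A00pm_113_s3 : ∃ t, chk3 f_A00pm_113_s3 t 255 118 1 = true := ex3_c t484_A00pm_113_s3 t483_A00pm_113_s3

theorem t486_A00pm_113_s3 : ∃ t, chk3 f_A00pm_113_s3 t 255 59 1 = true := ex3_b t485_A00pm_113_s3 t482_A00pm_113_s3

theorem t487_A00pm_113_s3 : ∃ t, chk3 f_A00pm_113_s3 t 254 59 1 = true := ex3_b k49_A00pm_113_s3 k50_A00pm_113_s3

theorem t488_A00pm_113_s3 : ∃ t, chk3 f_A00pm_113_s3 t 127 59 1 = true := ex3_a t487_A00pm_113_s3 t486_A00pm_113_s3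

theorem t489_A00pm_113_s3 : ∃ t, chk3 f_A00pm_113_s3 t 255 117 1 = true := ex3_a k47_A00pm_113_s3 k48_A00pm_113_s3

theorem t490_A00pm_113_s3 : ∃ t, chk3 f_A00pm_113_s3 t 255 116 1 = true := ex3_c k45_A00pm_113_s3 k46_A00pm_113_s3

theorem t491_A00pm_113_s3 : ∃ t, chk3 f_A00pm_113_s3 t 255 58 1 = true := ex3_b t490_A00pm_113_s3 t489_A00pm_113_s3

theorem t492_A00pm_113_s3 : ∃ t, chk3 f_A00pm_113_s3 t 127 58 1 = true := ex3_a k44_A00pm_113_s3 t491_A00pm_113_s3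

theorem t493_A00pm_113_s3 : ∃ t, chk3 f_A00pm_113_s3 t 127 29 1 = true := ex3_b t492_A00pm_113_s3 t488_A00pm_113_s3

theorem t494_A00pm_113_s3 : ∃ t, chk3 f_A00pm_113_s3 t 126 29 1 = true := ex3_b k42_A00pm_113_s3 k43_A00pm_113_s3

theorem t495_A00pm_113_s3 : ∃ t, chk3 f_A00pm_113_s3 t 63 29 1 = true := ex3_a t494_A00pm_113_s3 t493_A00pm_113_s3

theorem t496_A00pm_113_s3 : ∃ t, chk3 f_A00pm_113_s3 t 62 59 1 = true := ex3_a k40_A00pm_113_s3 k41_A00pm_113_s3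

theorem t497_A00pm_113_s3 : ∃ t, chk3 f_A00pm_113_s3 t 62 29 1 = true := ex3_b k39_A00pm_113_s3 t496_A00pm_113_s3

theorem t498_A00pm_113_s3 : ∃ t, chk3 f_A00pm_113_s3 t 31 29 1 = true := ex3_a t497_A00pm_113_s3 t495_A00pm_113_s3

theorem t499_A00pm_113_s3 : ∃ t, chk3 f_A00pm_113_s3 t 255 57 1 = true := ex3_a k37_A00pm_113_s3 k38_A00pm_113_s3

theorem t500_A00pm_113_s3 : ∃ t, chk3 f_A00pm_113_s3 t 127 57 1 = true := ex3_a k36_A00pm_113_s3 t499_A00pm_113_s3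

theorem t501_A00pm_113_s3 : ∃ t, chk3 f_A00pm_113_s3 t 63 57 1 = true := ex3_a k35_A00pm_113_s3 t500_A00pm_113_s3

theorem t502_A00pm_113_s3 : ∃ t, chk3 f_A00pm_113_s3 t 63 28 1 = true := ex3_b k34_A00pm_113_s3 t501_A00pm_113_s3

theorem t503_A00pm_113_s3 : ∃ t, chk3 f_A00pm_113_s3 t 31 28 1 = true := ex3_a k33_A00pm_113_s3 t502_A00pm_113_s3

theorem t504_A00pm_113_s3 : ∃ t, chk3 f_A00pm_113_s3 t 31 14 1 = true := ex3_b t503_A00pm_113_s3 t498_A00pm_113_s3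

theorem t505_A00pm_113_s3 : ∃ t, chk3 f_A00pm_113_s3 t 15 14 1 = true := ex3_a k32_A00pm_113_s3 t504_A00pm_113_s3

theorem t506_A00pm_113_s3 : ∃ t, chk3 f_A00pm_113_s3 t 15 7 1 = true := ex3_b t505_A00pm_113_s3 t479_A00pm_113_s3

theorem t507_A00pm_113_s3 : ∃ t, chk3 f_A00pm_113_s3 t 119 255 3 = true := ex3_b k30_A00pm_113_s3 k31_A00pm_113_s3

theorem t508_A00pm_113_s3 : ∃ t, chk3 f_A00pm_113_s3 t 119 255 2 = true := ex3_b k28_A00pm_113_s3 k29_A00pm_113_s3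

theorem t509_A00pm_113_s3 : ∃ t, chk3 f_A00pm_113_s3 t 119 255 1 = true := ex3_c t508_A00pm_113_s3 t507_A00pm_113_s3

theorem t510_A00pm_113_s3 : ∃ t, chk3 f_A00pm_113_s3 t 118 255 3 = true := ex3_b k26_A00pm_113_s3 k27_A00pm_113_s3

theorem t511_A00pm_113_s3 : ∃ t, chk3 f_A00pm_113_s3 t 118 255 2 = true := ex3_b k24_A00pm_113_s3 k25_A00pm_113_s3

theorem t512_A00pm_113_s3 : ∃ t, chk3 f_A00pm_113_s3 t 118 255 1 = true := ex3_c t511_A00pm_113_s3 t510_A00pm_113_s3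

theorem t513_A00pm_113_s3 : ∃ t, chk3 f_A00pm_113_s3 t 59 255 1 = true := ex3_a t512_A00pm_113_s3 t509_A00pm_113_s3

theorem t514_A00pm_113_s3 : ∃ t, chk3 f_A00pm_113_s3 t 59 254 1 = true := ex3_a k22_A00pm_113_s3 k23_A00pm_113_s3

theorem t515_A00pm_113_s3 : ∃ t, chk3 f_A00pm_113_s3 t 59 127 1 = true := ex3_b t514_A00pm_113_s3 t513_A00pm_113_s3

theorem t516_A00pm_113_s3 : ∃ t, chk3 f_A00pm_113_s3 t 117 255 1 = true := ex3_b k20_A00pm_113_s3 k21_A00pm_113_s3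

theorem t517_A00pm_113_s3 : ∃ t, chk3 f_A00pm_113_s3 t 116 255 1 = true := ex3_c k18_A00pm_113_s3 k19_A00pm_113_s3

theorem t518_A00pm_113_s3 : ∃ t, chk3 f_A00pm_113_s3 t 58 255 1 = true := ex3_a t517_A00pm_113_s3 t516_A00pm_113_s3

theorem t519_A00pm_113_s3 : ∃ t, chk3 f_A00pm_113_s3 t 58 127 1 = true := ex3_b k17_A00pm_113_s3 t518_A00pm_113_s3

theorem t520_A00pm_113_s3 : ∃ t, chk3 f_A00pm_113_s3 t 29 127 1 = true := ex3_a t519_A00pm_113_s3 t515_A00pm_113_s3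

theorem t521_A00pm_113_s3 : ∃ t, chk3 f_A00pm_113_s3 t 29 126 1 = true := ex3_a k15_A00pm_113_s3 k16_A00pm_113_s3

theorem t522_A00pm_113_s3 : ∃ t, chk3 f_A00pm_113_s3 t 29 63 1 = true := ex3_b t521_A00pm_113_s3 t520_A00pm_113_s3

theorem t523_A00pm_113_s3 : ∃ t, chk3 f_A00pm_113_s3 t 59 62 1 = true := ex3_b k13_A00pm_113_s3 k14_A00pm_113_s3

theorem t524_A00pm_113_s3 : ∃ t, chk3 f_A00pm_113_s3 t 29 62 1 = true := ex3_a k12_A00pm_113_s3 t523_A00pm_113_s3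

theorem t525_A00pm_113_s3 : ∃ t, chk3 f_A00pm_113_s3 t 29 31 1 = true := ex3_b t524_A00pm_113_s3 t522_A00pm_113_s3

theorem t526_A00pm_113_s3 : ∃ t, chk3 f_A00pm_113_s3 t 57 255 1 = true := ex3_b k10_A00pm_113_s3 k11_A00pm_113_s3

theorem t527_A00pm_113_s3 : ∃ t, chk3 f_A00pm_113_s3 t 57 127 1 = true := ex3_b k9_A00pm_113_s3 t526_A00pm_113_s3

theorem t528_A00pm_113_s3 : ∃ t, chk3 f_A00pm_113_s3 t 57 63 1 = true := ex3_b k8_A00pm_113_s3 t527_A00pm_113_s3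

theorem t529_A00pm_113_s3 : ∃ t, chk3 f_A00pm_113_s3 t 28 63 1 = true := ex3_a k7_A00pm_113_s3 t528_A00pm_113_s3

theorem t530_A00pm_113_s3 : ∃ t, chk3 f_A00pm_113_s3 t 28 31 1 = true := ex3_b k6_A00pm_113_s3 t529_A00pm_113_s3

theorem t531_A00pm_113_s3 : ∃ t, chk3 f_A00pm_113_s3 t 14 31 1 = true := ex3_a t530_A00pm_113_s3 t525_A00pm_113_s3

theorem t532_A00pm_113_s3 : ∃ t, chk3 f_A00pm_113_s3 t 14 15 1 = true := ex3_b k5_A00pm_113_s3 t531_A00pm_113_s3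

theorem t533_A00pm_113_s3 : ∃ t, chk3 f_A00pm_113_s3 t 14 7 1 = true := ex3_b k4_A00pm_113_s3 t532_A00pm_113_s3

theorem t534_A00pm_113_s3 : ∃ t, chk3 f_A00pm_113_s3 t 7 7 1 = true := ex3_a t533_A00pm_113_s3 t506_A00pm_113_s3

theorem t535_A00pm_113_s3 : ∃ t, chk3 f_A00pm_113_s3 t 7 3 1 = true := ex3_b k3_A00pm_113_s3 t534_A00pm_113_s3

theorem t536_A00pm_113_s3 : ∃ t, chk3 f_A00pm_113_s3 t 3 3 1 = true := ex3_a k2_A00pm_113_s3 t535_A00pm_113_s3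

theorem t537_A00pm_113_s3 : ∃ t, chk3 f_A00pm_113_s3 t 3 1 1 = true := ex3_b k1_A00pm_113_s3 t536_A00pm_113_s3

theorem t538_A00pm_113_s3 : ∃ t, chk3 f_A00pm_113_s3 t 1 1 1 = true := ex3_a k0_A00pm_113_s3 t537_A00pm_113_s3

theorem c_A00pm_113_s3 : CertF 536870912 536870912 536870912 536870912 966367641 24778659 true true false .nn 1 1 3
    ndB0q1 ndB0q1 pcB3 cut_A00pm_113_s3 Ext.none :=
  certF0 (fam := true) (s1 := true) (s2 := false) (a := 1) (b := 1) (c := 3) (cn := .nn) (n1 := ndB0q1) (n2 := ndB0q1) (pc := pcB3) (cut := cut_A00pm_113_s3) (xt := Ext.none) (P1 := 536870912) (W1 := 536870912) (P2 := 536870912) (W2 := 536870912) (P3 := 966367641) (W3 := 24778659)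
    rfl t538_A00pm_113_s3

theorem s_A00pm_113_s3 {κ x : ℝ} (hκ : κ * h0 = ken x) (hx : ((966367641 : ℕ) : ℝ) / S ≤ x)
    (hx' : x ≤ (((966367641 : ℕ) : ℝ) + (24778659 : ℕ)) / S)
    (H : CutA (VFD κ) PP tK tL pcB (Cut.of [[⟨0, 1, 0, 47710208⟩, ⟨1, 1, 0, 47710208⟩, ⟨2, 2, 0, 8388608⟩], [⟨0, 0, 1, 46137344⟩, ⟨1, 1, 0, 1572864⟩, ⟨2, 1, 1, 46137344⟩, ⟨0, 0, 0, 1013612281⟩, ⟨0, 1, 0, 128849018⟩, ⟨2, 1, 0, 1013612281⟩, ⟨2, 2, 0, 128849018⟩], [⟨0, 1, 0, 1572864⟩, ⟨1, 0, 1, 46137344⟩, ⟨2, 1, 1, 46137344⟩, ⟨1, 0, 0, 1013612281⟩, ⟨1, 1, 0, 128849018⟩, ⟨2, 1, 0, 1013612281⟩, ⟨2, 2, 0, 128849018⟩]]) 1 1 3 0 0 (sgb true) (sgb false) x) :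
    AltA (VFD κ) PP tK tL pcB [⟨4, 0, 0, 2845415833⟩] 1 1 3 0 0 (sgb true) (sgb false) x :=
  strip_altAD (m := 2845415833) false rfl hκ (SH.κ0 hκ (SH.hx1 hx).le (SH.hx2 hx').le) (SH.hx1 hx).le (SH.hx2 hx') (covB01).cov (covB01).cov hx hx' c_A00pm_113_s3 H (noExt_A)

end Pool.Agent.Strip051.G.I9000_9231.Tab.St.C
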