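import Pool.Agent.Strip051.G.I9000_9231.StH
import Pool.Agent.Strip051.G.I9000_9231.Sp9_0
import Pool.Agent.Strip051.G.I9000_9231.Sp9_1
import Pool.Agent.Strip051.G.I9000_9231.Sp9_2
import Pool.Agent.Strip051.G.I9000_9231.Sp9_3
import Pool.Agent.Strip051.G.I9000_9231.Sp9_4
import Pool.Agent.Strip051.G.I9000_9231.StF

/-! # Unit strips 9 (generated) -/

set_option linter.all false
set_option maxRecDepth 100000

namespace Pool.Agent.Strip051.G.I9000_9231.Tab.St.C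

open Pool.Agent.Strip051.PB Pool.Agent.Strip051.PB.T Pool.Agent.StripNear Pool.Agent.Strip051.LC
open Pool.Agent.Strip051.G.I9000_9231.Tab Pool.Agent.Strip051.G.I9000_9231.Tab.St

theorem t383_A00pm_123_s3 : ∃ t, chk3 f_A00pm_123_s3 t 1016 15 1 = true := ex3_a k378_A00pm_123_s3 k379_A00pm_123_s3

theorem t384_A00pm_123_s3 : ∃ t, chk3 f_A00pm_123_s3 t 508 15 1 = true := ex3_a t383_A00pm_123_s3 k380_A00pm_123_s3

theorem t385_A00pm_123_s3 : ∃ t, chk3 f_A00pm_123_s3 t 254 15 1 = true := ex3_a t384_A00pm_123_s3 k381_A00pm_123_s3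

theorem t386_A00pm_123_s3 : ∃ t, chk3 f_A00pm_123_s3 t 127 15 1 = true := ex3_a t385_A00pm_123_s3 k382_A00pm_123_s3

theorem t387_A00pm_123_s3 : ∃ t, chk3 f_A00pm_123_s3 t 507 127 1 = true := ex3_b k376_A00pm_123_s3 k377_A00pm_123_s3

theorem t388_A00pm_123_s3 : ∃ t, chk3 f_A00pm_123_s3 t 253 127 1 = true := ex3_a k375_A00pm_123_s3 t387_A00pm_123_s3

theorem t389_A00pm_123_s3 : ∃ t, chk3 f_A00pm_123_s3 t 252 127 1 = true := ex3_c k373_A00pm_123_s3 k374_A00pm_123_s3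

theorem t390_A00pm_123_s3 : ∃ t, chk3 f_A00pm_123_s3 t 126 127 1 = true := ex3_a t389_A00pm_123_s3 t388_A00pm_123_s3

theorem t391_A00pm_123_s3 : ∃ t, chk3 f_A00pm_123_s3 t 126 126 1 = true := ex3_a k371_A00pm_123_s3 k372_A00pm_123_s3

theorem t392_A00pm_123_s3 : ∃ t, chk3 f_A00pm_123_s3 t 126 63 1 = true := ex3_b t391_A00pm_123_s3 t390_A00pm_123_s3

theorem t393_A00pm_123_s3 : ∃ t, chk3 f_A00pm_123_s3 t 126 62 1 = true := ex3_c k369_A00pm_123_s3 k370_A00pm_123_s3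

theorem t394_A00pm_123_s3 : ∃ t, chk3 f_A00pm_123_s3 t 126 31 1 = true := ex3_b t393_A00pm_123_s3 t392_A00pm_123_s3

theorem t395_A00pm_123_s3 : ∃ t, chk3 f_A00pm_123_s3 t 253 61 1 = true := ex3_a k367_A00pm_123_s3 k368_A00pm_123_s3

theorem t396_A00pm_123_s3 : ∃ t, chk3 f_A00pm_123_s3 t 1015 60 1 = true := ex3_b k365_A00pm_123_s3 k366_A00pm_123_s3

theorem t397_A00pm_123_s3 : ∃ t, chk3 f_A00pm_123_s3 t 507 60 1 = true := ex3_a k364_A00pm_123_s3 t396_A00pm_123_s3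

theorem t398_A00pm_123_s3 : ∃ t, chk3 f_A00pm_123_s3 t 506 60 1 = true := ex3_b k362_A00pm_123_s3 k363_A00pm_123_s3

theorem t399_A00pm_123_s3 : ∃ t, chk3 f_A00pm_123_s3 t 253 60 1 = true := ex3_a t398_A00pm_123_s3 t397_A00pm_123_s3

theorem t400_A00pm_123_s3 : ∃ t, chk3 f_A00pm_123_s3 t 253 30 1 = true := ex3_b t399_A00pm_123_s3 t395_A00pm_123_s3

theorem t401_A00pm_123_s3 : ∃ t, chk3 f_A00pm_123_s3 t 252 120 1 = true := ex3_a k358_A00pm_123_s3 k359_A00pm_123_s3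

theorem t402_A00pm_123_s3 : ∃ t, chk3 f_A00pm_123_s3 t 252 60 1 = true := ex3_b t401_A00pm_123_s3 k360_A00pm_123_s3

theorem t403_A00pm_123_s3 : ∃ t, chk3 f_A00pm_123_s3 t 252 30 1 = true := ex3_b t402_A00pm_123_s3 k361_A00pm_123_s3

theorem t404_A00pm_123_s3 : ∃ t, chk3 f_A00pm_123_s3 t 126 30 1 = true := ex3_a t403_A00pm_123_s3 t400_A00pm_123_s3

theorem t405_A00pm_123_s3 : ∃ t, chk3 f_A00pm_123_s3 t 126 15 1 = true := ex3_b t404_A00pm_123_s3 t394_A00pm_123_s3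

theorem t406_A00pm_123_s3 : ∃ t, chk3 f_A00pm_123_s3 t 63 15 1 = true := ex3_a t405_A00pm_123_s3 t386_A00pm_123_s3

theorem t407_A00pm_123_s3 : ∃ t, chk3 f_A00pm_123_s3 t 251 127 1 = true := ex3_c k356_A00pm_123_s3 k357_A00pm_123_s3

theorem t408_A00pm_123_s3 : ∃ t, chk3 f_A00pm_123_s3 t 250 127 1 = true := ex3_a k354_A00pm_123_s3 k355_A00pm_123_s3

theorem t409_A00pm_123_s3 : ∃ t, chk3 f_A00pm_123_s3 t 125 127 1 = true := ex3_a t408_A00pm_123_s3 t407_A00pm_123_s3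

theorem t410_A00pm_123_s3 : ∃ t, chk3 f_A00pm_123_s3 t 250 126 1 = true := ex3_a k351_A00pm_123_s3 k352_A00pm_123_s3

theorem t411_A00pm_123_s3 : ∃ t, chk3 f_A00pm_123_s3 t 125 126 1 = true := ex3_a t410_A00pm_123_s3 k353_A00pm_123_s3

theorem t412_A00pm_123_s3 : ∃ t, chk3 f_A00pm_123_s3 t 125 63 1 = true := ex3_b t411_A00pm_123_s3 t409_A00pm_123_s3

theorem t413_A00pm_123_s3 : ∃ t, chk3 f_A00pm_123_s3 t 125 31 1 = true := ex3_b k350_A00pm_123_s3 t412_A00pm_123_s3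

theorem t414_A00pm_123_s3 : ∃ t, chk3 f_A00pm_123_s3 t 249 127 1 = true := ex3_a k348_A00pm_123_s3 k349_A00pm_123_s3

theorem t415_A00pm_123_s3 : ∃ t, chk3 f_A00pm_123_s3 t 497 127 3 = true := ex3_b k346_A00pm_123_s3 k347_A00pm_123_s3

theorem t416_A00pm_123_s3 : ∃ t, chk3 f_A00pm_123_s3 t 248 127 3 = true := ex3_a k345_A00pm_123_s3 t415_A00pm_123_s3

theorem t417_A00pm_123_s3 : ∃ t, chk3 f_A00pm_123_s3 t 248 127 1 = true := ex3_c k344_A00pm_123_s3 t416_A00pm_123_s3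

theorem t418_A00pm_123_s3 : ∃ t, chk3 f_A00pm_123_s3 t 124 127 1 = true := ex3_a t417_A00pm_123_s3 t414_A00pm_123_s3

theorem t419_A00pm_123_s3 : ∃ t, chk3 f_A00pm_123_s3 t 249 126 3 = true := ex3_b k342_A00pm_123_s3 k343_A00pm_123_s3

theorem t420_A00pm_123_s3 : ∃ t, chk3 f_A00pm_123_s3 t 497 1010 7 = true := ex3_b k338_A00pm_123_s3 k339_A00pm_123_s3

theorem t421_A00pm_123_s3 : ∃ t, chk3 f_A00pm_123_s3 t 497 1010 3 = true := ex3_c k337_A00pm_123_s3 t420_A00pm_123_s3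

theorem t422_A00pm_123_s3 : ∃ t, chk3 f_A00pm_123_s3 t 497 505 3 = true := ex3_b t421_A00pm_123_s3 k340_A00pm_123_s3

theorem t423_A00pm_123_s3 : ∃ t, chk3 f_A00pm_123_s3 t 497 252 3 = true := ex3_b k336_A00pm_123_s3 t422_A00pm_123_s3

theorem t424_A00pm_123_s3 : ∃ t, chk3 f_A00pm_123_s3 t 496 252 3 = true := ex3_b k334_A00pm_123_s3 k335_A00pm_123_s3

theorem t425_A00pm_123_s3 : ∃ t, chk3 f_A00pm_123_s3 t 248 252 3 = true := ex3_a t424_A00pm_123_s3 t423_A00pm_123_s3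

theorem t426_A00pm_123_s3 : ∃ t, chk3 f_A00pm_123_s3 t 248 126 3 = true := ex3_b t425_A00pm_123_s3 k341_A00pm_123_s3

theorem t427_A00pm_123_s3 : ∃ t, chk3 f_A00pm_123_s3 t 124 126 3 = true := ex3_a t426_A00pm_123_s3 t419_A00pm_123_s3

theorem t428_A00pm_123_s3 : ∃ t, chk3 f_A00pm_123_s3 t 249 126 2 = true := ex3_b k332_A00pm_123_s3 k333_A00pm_123_s3

theorem t429_A00pm_123_s3 : ∃ t, chk3 f_A00pm_123_s3 t 497 252 2 = true := ex3_a k329_A00pm_123_s3 k330_A00pm_123_s3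

theorem t430_A00pm_123_s3 : ∃ t, chk3 f_A00pm_123_s3 t 248 252 2 = true := ex3_a k328_A00pm_123_s3 t429_A00pm_123_s3

theorem t431_A00pm_123_s3 : ∃ t, chk3 f_A00pm_123_s3 t 248 126 2 = true := ex3_b t430_A00pm_123_s3 k331_A00pm_123_s3

theorem t432_A00pm_123_s3 : ∃ t, chk3 f_A00pm_123_s3 t 124 126 2 = true := ex3_a t431_A00pm_123_s3 t428_A00pm_123_s3

theorem t433_A00pm_123_s3 : ∃ t, chk3 f_A00pm_123_s3 t 124 126 1 = true := ex3_c t432_A00pm_123_s3 t427_A00pm_123_s3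

theorem t434_A00pm_123_s3 : ∃ t, chk3 f_A00pm_123_s3 t 124 63 1 = true := ex3_b t433_A00pm_123_s3 t418_A00pm_123_s3

theorem t435_A00pm_123_s3 : ∃ t, chk3 f_A00pm_123_s3 t 124 125 1 = true := ex3_a k326_A00pm_123_s3 k327_A00pm_123_s3

theorem t436_A00pm_123_s3 : ∃ t, chk3 f_A00pm_123_s3 t 124 62 1 = true := ex3_b k325_A00pm_123_s3 t435_A00pm_123_s3

theorem t437_A00pm_123_s3 : ∃ t, chk3 f_A00pm_123_s3 t 124 31 1 = true := ex3_b t436_A00pm_123_s3 t434_A00pm_123_s3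

theorem t438_A00pm_123_s3 : ∃ t, chk3 f_A00pm_123_s3 t 62 31 1 = true := ex3_a t437_A00pm_123_s3 t413_A00pm_123_s3

theorem t439_A00pm_123_s3 : ∃ t, chk3 f_A00pm_123_s3 t 62 30 1 = true := ex3_a k323_A00pm_123_s3 k324_A00pm_123_s3

theorem t440_A00pm_123_s3 : ∃ t, chk3 f_A00pm_123_s3 t 62 15 1 = true := ex3_b t439_A00pm_123_s3 t438_A00pm_123_s3

theorem t441_A00pm_123_s3 : ∃ t, chk3 f_A00pm_123_s3 t 31 15 1 = true := ex3_a t440_A00pm_123_s3 t406_A00pm_123_s3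

theorem t442_A00pm_123_s3 : ∃ t, chk3 f_A00pm_123_s3 t 247 255 3 = true := ex3_c k321_A00pm_123_s3 k322_A00pm_123_s3

theorem t443_A00pm_123_s3 : ∃ t, chk3 f_A00pm_123_s3 t 247 127 3 = true := ex3_b k320_A00pm_123_s3 t442_A00pm_123_s3

theorem t444_A00pm_123_s3 : ∃ t, chk3 f_A00pm_123_s3 t 246 127 3 = true := ex3_b k318_A00pm_123_s3 k319_A00pm_123_s3

theorem t445_A00pm_123_s3 : ∃ t, chk3 f_A00pm_123_s3 t 123 127 3 = true := ex3_a t444_A00pm_123_s3 t443_A00pm_123_s3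

theorem t446_A00pm_123_s3 : ∃ t, chk3 f_A00pm_123_s3 t 123 127 2 = true := ex3_a k316_A00pm_123_s3 k317_A00pm_123_s3

theorem t447_A00pm_123_s3 : ∃ t, chk3 f_A00pm_123_s3 t 123 127 1 = true := ex3_c t446_A00pm_123_s3 t445_A00pm_123_s3

theorem t448_A00pm_123_s3 : ∃ t, chk3 f_A00pm_123_s3 t 247 504 3 = true := ex3_a k312_A00pm_123_s3 k313_A00pm_123_s3

theorem t449_A00pm_123_s3 : ∃ t, chk3 f_A00pm_123_s3 t 247 252 3 = true := ex3_b t448_A00pm_123_s3 k314_A00pm_123_s3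

theorem t450_A00pm_123_s3 : ∃ t, chk3 f_A00pm_123_s3 t 247 126 3 = true := ex3_b t449_A00pm_123_s3 k315_A00pm_123_s3

theorem t451_A00pm_123_s3 : ∃ t, chk3 f_A00pm_123_s3 t 247 126 2 = true := ex3_b k310_A00pm_123_s3 k311_A00pm_123_s3

theorem t452_A00pm_123_s3 : ∃ t, chk3 f_A00pm_123_s3 t 247 126 1 = true := ex3_c t451_A00pm_123_s3 t450_A00pm_123_s3

theorem t453_A00pm_123_s3 : ∃ t, chk3 f_A00pm_123_s3 t 246 126 3 = true := ex3_b k308_A00pm_123_s3 k309_A00pm_123_s3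

theorem t454_A00pm_123_s3 : ∃ t, chk3 f_A00pm_123_s3 t 246 126 1 = true := ex3_c k307_A00pm_123_s3 t453_A00pm_123_s3

theorem t455_A00pm_123_s3 : ∃ t, chk3 f_A00pm_123_s3 t 123 126 1 = true := ex3_a t454_A00pm_123_s3 t452_A00pm_123_s3

theorem t456_A00pm_123_s3 : ∃ t, chk3 f_A00pm_123_s3 t 123 63 1 = true := ex3_b t455_A00pm_123_s3 t447_A00pm_123_s3

theorem t457_A00pm_123_s3 : ∃ t, chk3 f_A00pm_123_s3 t 122 255 1 = true := ex3_c k305_A00pm_123_s3 k306_A00pm_123_s3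

theorem t458_A00pm_123_s3 : ∃ t, chk3 f_A00pm_123_s3 t 122 127 1 = true := ex3_b k304_A00pm_123_s3 t457_A00pm_123_s3

theorem t459_A00pm_123_s3 : ∃ t, chk3 f_A00pm_123_s3 t 122 126 1 = true := ex3_a k302_A00pm_123_s3 k303_A00pm_123_s3

theorem t460_A00pm_123_s3 : ∃ t, chk3 f_A00pm_123_s3 t 122 63 1 = true := ex3_b t459_A00pm_123_s3 t458_A00pm_123_s3

theorem t461_A00pm_123_s3 : ∃ t, chk3 f_A00pm_123_s3 t 61 63 1 = true := ex3_a t460_A00pm_123_s3 t456_A00pm_123_s3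

theorem t462_A00pm_123_s3 : ∃ t, chk3 f_A00pm_123_s3 t 123 62 1 = true := ex3_a k300_A00pm_123_s3 k301_A00pm_123_s3

theorem t463_A00pm_123_s3 : ∃ t, chk3 f_A00pm_123_s3 t 122 125 3 = true := ex3_a k298_A00pm_123_s3 k299_A00pm_123_s3

theorem t464_A00pm_123_s3 : ∃ t, chk3 f_A00pm_123_s3 t 122 125 1 = true := ex3_c k297_A00pm_123_s3 t463_A00pm_123_s3

theorem t465_A00pm_123_s3 : ∃ t, chk3 f_A00pm_123_s3 t 122 62 1 = true := ex3_b k296_A00pm_123_s3 t464_A00pm_123_s3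

theorem t466_A00pm_123_s3 : ∃ t, chk3 f_A00pm_123_s3 t 61 62 1 = true := ex3_a t465_A00pm_123_s3 t462_A00pm_123_s3

theorem t467_A00pm_123_s3 : ∃ t, chk3 f_A00pm_123_s3 t 61 31 1 = true := ex3_b t466_A00pm_123_s3 t461_A00pm_123_s3

theorem t468_A00pm_123_s3 : ∃ t, chk3 f_A00pm_123_s3 t 61 15 1 = true := ex3_b k295_A00pm_123_s3 t467_A00pm_123_s3

theorem t469_A00pm_123_s3 : ∃ t, chk3 f_A00pm_123_s3 t 484 1023 3 = true := ex3_a k291_A00pm_123_s3 k292_A00pm_123_s3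

theorem t470_A00pm_123_s3 : ∃ t, chk3 f_A00pm_123_s3 t 242 1023 3 = true := ex3_a t469_A00pm_123_s3 k293_A00pm_123_s3

theorem t471_A00pm_123_s3 : ∃ t, chk3 f_A00pm_123_s3 t 242 511 3 = true := ex3_b k290_A00pm_123_s3 t470_A00pm_123_s3

theorem t472_A00pm_123_s3 : ∃ t, chk3 f_A00pm_123_s3 t 121 511 3 = true := ex3_a t471_A00pm_123_s3 k294_A00pm_123_s3

theorem t473_A00pm_123_s3 : ∃ t, chk3 f_A00pm_123_s3 t 242 511 2 = true := ex3_c k287_A00pm_123_s3 k288_A00pm_123_s3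

theorem t474_A00pm_123_s3 : ∃ t, chk3 f_A00pm_123_s3 t 121 511 2 = true := ex3_a t473_A00pm_123_s3 k289_A00pm_123_s3

theorem t475_A00pm_123_s3 : ∃ t, chk3 f_A00pm_123_s3 t 121 511 1 = true := ex3_c t474_A00pm_123_s3 t472_A00pm_123_s3

theorem t476_A00pm_123_s3 : ∃ t, chk3 f_A00pm_123_s3 t 121 255 1 = true := ex3_b k286_A00pm_123_s3 t475_A00pm_123_s3

theorem t477_A00pm_123_s3 : ∃ t, chk3 f_A00pm_123_s3 t 121 127 1 = true := ex3_b k285_A00pm_123_s3 t476_A00pm_123_s3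

theorem t478_A00pm_123_s3 : ∃ t, chk3 f_A00pm_123_s3 t 121 126 1 = true := ex3_c k283_A00pm_123_s3 k284_A00pm_123_s3

theorem t479_A00pm_123_s3 : ∃ t, chk3 f_A00pm_123_s3 t 121 63 1 = true := ex3_b t478_A00pm_123_s3 t477_A00pm_123_s3

theorem t480_A00pm_123_s3 : ∃ t, chk3 f_A00pm_123_s3 t 483 1023 3 = true := ex3_a k281_A00pm_123_s3 k282_A00pm_123_s3

theorem t481_A00pm_123_s3 : ∃ t, chk3 f_A00pm_123_s3 t 483 511 3 = true := ex3_b k280_A00pm_123_s3 t480_A00pm_123_s3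

theorem t482_A00pm_123_s3 : ∃ t, chk3 f_A00pm_123_s3 t 241 511 3 = true := ex3_a k279_A00pm_123_s3 t481_A00pm_123_s3

theorem t483_A00pm_123_s3 : ∃ t, chk3 f_A00pm_123_s3 t 483 511 2 = true := ex3_a k277_A00pm_123_s3 k278_A00pm_123_s3

theorem t484_A00pm_123_s3 : ∃ t, chk3 f_A00pm_123_s3 t 241 511 2 = true := ex3_a k276_A00pm_123_s3 t483_A00pm_123_s3

theorem t485_A00pm_123_s3 : ∃ t, chk3 f_A00pm_123_s3 t 241 511 1 = true := ex3_c t484_A00pm_123_s3 t482_A00pm_123_s3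

theorem t486_A00pm_123_s3 : ∃ t, chk3 f_A00pm_123_s3 t 241 510 3 = true := ex3_a k274_A00pm_123_s3 k275_A00pm_123_s3

theorem t487_A00pm_123_s3 : ∃ t, chk3 f_A00pm_123_s3 t 241 510 1 = true := ex3_c k273_A00pm_123_s3 t486_A00pm_123_s3

theorem t488_A00pm_123_s3 : ∃ t, chk3 f_A00pm_123_s3 t 241 255 1 = true := ex3_b t487_A00pm_123_s3 t485_A00pm_123_s3

theorem t489_A00pm_123_s3 : ∃ t, chk3 f_A00pm_123_s3 t 240 510 1 = true := ex3_c k270_A00pm_123_s3 k271_A00pm_123_s3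

theorem t490_A00pm_123_s3 : ∃ t, chk3 f_A00pm_123_s3 t 240 255 1 = true := ex3_b t489_A00pm_123_s3 k272_A00pm_123_s3

theorem t491_A00pm_123_s3 : ∃ t, chk3 f_A00pm_123_s3 t 120 255 1 = true := ex3_a t490_A00pm_123_s3 t488_A00pm_123_s3

theorem t492_A00pm_123_s3 : ∃ t, chk3 f_A00pm_123_s3 t 241 254 1 = true := ex3_c k268_A00pm_123_s3 k269_A00pm_123_s3

theorem t493_A00pm_123_s3 : ∃ t, chk3 f_A00pm_123_s3 t 120 254 1 = true := ex3_a k267_A00pm_123_s3 t492_A00pm_123_s3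

theorem t494_A00pm_123_s3 : ∃ t, chk3 f_A00pm_123_s3 t 120 127 1 = true := ex3_b t493_A00pm_123_s3 t491_A00pm_123_s3

theorem t495_A00pm_123_s3 : ∃ t, chk3 f_A00pm_123_s3 t 241 126 1 = true := ex3_c k265_A00pm_123_s3 k266_A00pm_123_s3

theorem t496_A00pm_123_s3 : ∃ t, chk3 f_A00pm_123_s3 t 240 126 1 = true := ex3_c k263_A00pm_123_s3 k264_A00pm_123_s3

theorem t497_A00pm_123_s3 : ∃ t, chk3 f_A00pm_123_s3 t 120 126 1 = true := ex3_a t496_A00pm_123_s3 t495_A00pm_123_s3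

theorem t498_A00pm_123_s3 : ∃ t, chk3 f_A00pm_123_s3 t 120 63 1 = true := ex3_b t497_A00pm_123_s3 t494_A00pm_123_s3

theorem t499_A00pm_123_s3 : ∃ t, chk3 f_A00pm_123_s3 t 60 63 1 = true := ex3_a t498_A00pm_123_s3 t479_A00pm_123_s3

theorem t500_A00pm_123_s3 : ∃ t, chk3 f_A00pm_123_s3 t 242 125 3 = true := ex3_b k260_A00pm_123_s3 k261_A00pm_123_s3

theorem t501_A00pm_123_s3 : ∃ t, chk3 f_A00pm_123_s3 t 121 125 3 = true := ex3_a t500_A00pm_123_s3 k262_A00pm_123_s3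

theorem t502_A00pm_123_s3 : ∃ t, chk3 f_A00pm_123_s3 t 121 125 1 = true := ex3_c k259_A00pm_123_s3 t501_A00pm_123_s3

theorem t503_A00pm_123_s3 : ∃ t, chk3 f_A00pm_123_s3 t 121 62 1 = true := ex3_b k258_A00pm_123_s3 t502_A00pm_123_s3

theorem t504_A00pm_123_s3 : ∃ t, chk3 f_A00pm_123_s3 t 241 251 3 = true := ex3_a k256_A00pm_123_s3 k257_A00pm_123_s3

theorem t505_A00pm_123_s3 : ∃ t, chk3 f_A00pm_123_s3 t 241 125 3 = true := ex3_b k255_A00pm_123_s3 t504_A00pm_123_s3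

theorem t506_A00pm_123_s3 : ∃ t, chk3 f_A00pm_123_s3 t 241 125 1 = true := ex3_c k254_A00pm_123_s3 t505_A00pm_123_s3

theorem t507_A00pm_123_s3 : ∃ t, chk3 f_A00pm_123_s3 t 241 62 1 = true := ex3_b k253_A00pm_123_s3 t506_A00pm_123_s3

theorem t508_A00pm_123_s3 : ∃ t, chk3 f_A00pm_123_s3 t 240 125 3 = true := ex3_a k251_A00pm_123_s3 k252_A00pm_123_s3

theorem t509_A00pm_123_s3 : ∃ t, chk3 f_A00pm_123_s3 t 240 125 1 = true := ex3_c k250_A00pm_123_s3 t508_A00pm_123_s3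

theorem t510_A00pm_123_s3 : ∃ t, chk3 f_A00pm_123_s3 t 240 62 1 = true := ex3_b k249_A00pm_123_s3 t509_A00pm_123_s3

theorem t511_A00pm_123_s3 : ∃ t, chk3 f_A00pm_123_s3 t 120 62 1 = true := ex3_a t510_A00pm_123_s3 t507_A00pm_123_s3

theorem t512_A00pm_123_s3 : ∃ t, chk3 f_A00pm_123_s3 t 60 62 1 = true := ex3_a t511_A00pm_123_s3 t503_A00pm_123_s3

theorem t513_A00pm_123_s3 : ∃ t, chk3 f_A00pm_123_s3 t 60 31 1 = true := ex3_b t512_A00pm_123_s3 t499_A00pm_123_s3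

theorem t514_A00pm_123_s3 : ∃ t, chk3 f_A00pm_123_s3 t 60 15 1 = true := ex3_b k248_A00pm_123_s3 t513_A00pm_123_s3

theorem t515_A00pm_123_s3 : ∃ t, chk3 f_A00pm_123_s3 t 30 15 1 = true := ex3_a t514_A00pm_123_s3 t468_A00pm_123_s3

theorem t516_A00pm_123_s3 : ∃ t, chk3 f_A00pm_123_s3 t 15 15 1 = true := ex3_a t515_A00pm_123_s3 t441_A00pm_123_s3

theorem t517_A00pm_123_s3 : ∃ t, chk3 f_A00pm_123_s3 t 508 119 3 = true := ex3_a k244_A00pm_123_s3 k245_A00pm_123_s3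

theorem t518_A00pm_123_s3 : ∃ t, chk3 f_A00pm_123_s3 t 254 119 3 = true := ex3_a t517_A00pm_123_s3 k246_A00pm_123_s3

theorem t519_A00pm_123_s3 : ∃ t, chk3 f_A00pm_123_s3 t 127 119 3 = true := ex3_a t518_A00pm_123_s3 k247_A00pm_123_s3

theorem t520_A00pm_123_s3 : ∃ t, chk3 f_A00pm_123_s3 t 508 119 2 = true := ex3_a k240_A00pm_123_s3 k241_A00pm_123_s3

theorem t521_A00pm_123_s3 : ∃ t, chk3 f_A00pm_123_s3 t 254 119 2 = true := ex3_a t520_A00pm_123_s3 k242_A00pm_123_s3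

theorem t522_A00pm_123_s3 : ∃ t, chk3 f_A00pm_123_s3 t 127 119 2 = true := ex3_a t521_A00pm_123_s3 k243_A00pm_123_s3

theorem t523_A00pm_123_s3 : ∃ t, chk3 f_A00pm_123_s3 t 127 119 1 = true := ex3_c t522_A00pm_123_s3 t519_A00pm_123_s3

theorem t524_A00pm_123_s3 : ∃ t, chk3 f_A00pm_123_s3 t 508 237 3 = true := ex3_a k236_A00pm_123_s3 k237_A00pm_123_s3

theorem t525_A00pm_123_s3 : ∃ t, chk3 f_A00pm_123_s3 t 254 237 3 = true := ex3_a t524_A00pm_123_s3 k238_A00pm_123_s3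

theorem t526_A00pm_123_s3 : ∃ t, chk3 f_A00pm_123_s3 t 127 237 3 = true := ex3_a t525_A00pm_123_s3 k239_A00pm_123_s3

theorem t527_A00pm_123_s3 : ∃ t, chk3 f_A00pm_123_s3 t 254 236 3 = true := ex3_a k233_A00pm_123_s3 k234_A00pm_123_s3

theorem t528_A00pm_123_s3 : ∃ t, chk3 f_A00pm_123_s3 t 127 236 3 = true := ex3_a t527_A00pm_123_s3 k235_A00pm_123_s3

theorem t529_A00pm_123_s3 : ∃ t, chk3 f_A00pm_123_s3 t 127 118 3 = true := ex3_b t528_A00pm_123_s3 t526_A00pm_123_s3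

theorem t530_A00pm_123_s3 : ∃ t, chk3 f_A00pm_123_s3 t 1016 118 2 = true := ex3_b k228_A00pm_123_s3 k229_A00pm_123_s3

theorem t531_A00pm_123_s3 : ∃ t, chk3 f_A00pm_123_s3 t 508 118 2 = true := ex3_a t530_A00pm_123_s3 k230_A00pm_123_s3

theorem t532_A00pm_123_s3 : ∃ t, chk3 f_A00pm_123_s3 t 254 118 2 = true := ex3_a t531_A00pm_123_s3 k231_A00pm_123_s3

theorem t533_A00pm_123_s3 : ∃ t, chk3 f_A00pm_123_s3 t 127 118 2 = true := ex3_a t532_A00pm_123_s3 k232_A00pm_123_s3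

theorem t534_A00pm_123_s3 : ∃ t, chk3 f_A00pm_123_s3 t 127 118 1 = true := ex3_c t533_A00pm_123_s3 t529_A00pm_123_s3

theorem t535_A00pm_123_s3 : ∃ t, chk3 f_A00pm_123_s3 t 127 59 1 = true := ex3_b t534_A00pm_123_s3 t523_A00pm_123_s3

theorem t536_A00pm_123_s3 : ∃ t, chk3 f_A00pm_123_s3 t 127 29 1 = true := ex3_b k227_A00pm_123_s3 t535_A00pm_123_s3

theorem t537_A00pm_123_s3 : ∃ t, chk3 f_A00pm_123_s3 t 127 14 1 = true := ex3_b k226_A00pm_123_s3 t536_A00pm_123_s3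

theorem t538_A00pm_123_s3 : ∃ t, chk3 f_A00pm_123_s3 t 1015 119 1 = true := ex3_b k224_A00pm_123_s3 k225_A00pm_123_s3

theorem t539_A00pm_123_s3 : ∃ t, chk3 f_A00pm_123_s3 t 507 119 1 = true := ex3_a k223_A00pm_123_s3 t538_A00pm_123_s3

theorem t540_A00pm_123_s3 : ∃ t, chk3 f_A00pm_123_s3 t 253 119 1 = true := ex3_a k222_A00pm_123_s3 t539_A00pm_123_s3

theorem t541_A00pm_123_s3 : ∃ t, chk3 f_A00pm_123_s3 t 1015 237 1 = true := ex3_c k220_A00pm_123_s3 k221_A00pm_123_s3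

theorem t542_A00pm_123_s3 : ∃ t, chk3 f_A00pm_123_s3 t 2031 236 3 = true := ex3_b k218_A00pm_123_s3 k219_A00pm_123_s3

theorem t543_A00pm_123_s3 : ∃ t, chk3 f_A00pm_123_s3 t 1015 236 3 = true := ex3_a k217_A00pm_123_s3 t542_A00pm_123_s3

theorem t544_A00pm_123_s3 : ∃ t, chk3 f_A00pm_123_s3 t 1015 236 2 = true := ex3_a k215_A00pm_123_s3 k216_A00pm_123_s3

theorem t545_A00pm_123_s3 : ∃ t, chk3 f_A00pm_123_s3 t 1015 236 1 = true := ex3_c t544_A00pm_123_s3 t543_A00pm_123_s3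

theorem t546_A00pm_123_s3 : ∃ t, chk3 f_A00pm_123_s3 t 1015 118 1 = true := ex3_b t545_A00pm_123_s3 t541_A00pm_123_s3

theorem t547_A00pm_123_s3 : ∃ t, chk3 f_A00pm_123_s3 t 1014 118 1 = true := ex3_b k213_A00pm_123_s3 k214_A00pm_123_s3

theorem t548_A00pm_123_s3 : ∃ t, chk3 f_A00pm_123_s3 t 507 118 1 = true := ex3_a t547_A00pm_123_s3 t546_A00pm_123_s3

theorem t549_A00pm_123_s3 : ∃ t, chk3 f_A00pm_123_s3 t 506 118 1 = true := ex3_b k211_A00pm_123_s3 k212_A00pm_123_s3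

theorem t550_A00pm_123_s3 : ∃ t, chk3 f_A00pm_123_s3 t 253 118 1 = true := ex3_a t549_A00pm_123_s3 t548_A00pm_123_s3

theorem t551_A00pm_123_s3 : ∃ t, chk3 f_A00pm_123_s3 t 253 59 1 = true := ex3_b t550_A00pm_123_s3 t540_A00pm_123_s3

theorem t552_A00pm_123_s3 : ∃ t, chk3 f_A00pm_123_s3 t 252 59 1 = true := ex3_a k209_A00pm_123_s3 k210_A00pm_123_s3

theorem t553_A00pm_123_s3 : ∃ t, chk3 f_A00pm_123_s3 t 126 59 1 = true := ex3_a t552_A00pm_123_s3 t551_A00pm_123_s3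

theorem t554_A00pm_123_s3 : ∃ t, chk3 f_A00pm_123_s3 t 2031 471 3 = true := ex3_a k207_A00pm_123_s3 k208_A00pm_123_s3

theorem t555_A00pm_123_s3 : ∃ t, chk3 f_A00pm_123_s3 t 1015 471 3 = true := ex3_a k206_A00pm_123_s3 t554_A00pm_123_s3

theorem t556_A00pm_123_s3 : ∃ t, chk3 f_A00pm_123_s3 t 1015 235 3 = true := ex3_b k205_A00pm_123_s3 t555_A00pm_123_s3

theorem t557_A00pm_123_s3 : ∃ t, chk3 f_A00pm_123_s3 t 1015 235 1 = true := ex3_c k204_A00pm_123_s3 t556_A00pm_123_s3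

theorem t558_A00pm_123_s3 : ∃ t, chk3 f_A00pm_123_s3 t 1015 117 1 = true := ex3_b k203_A00pm_123_s3 t557_A00pm_123_s3

theorem t559_A00pm_123_s3 : ∃ t, chk3 f_A00pm_123_s3 t 1014 117 1 = true := ex3_a k201_A00pm_123_s3 k202_A00pm_123_s3

theorem t560_A00pm_123_s3 : ∃ t, chk3 f_A00pm_123_s3 t 507 117 1 = true := ex3_a t559_A00pm_123_s3 t558_A00pm_123_s3

theorem t561_A00pm_123_s3 : ∃ t, chk3 f_A00pm_123_s3 t 507 58 1 = true := ex3_b k200_A00pm_123_s3 t560_A00pm_123_s3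

theorem t562_A00pm_123_s3 : ∃ t, chk3 f_A00pm_123_s3 t 506 117 1 = true := ex3_b k198_A00pm_123_s3 k199_A00pm_123_s3

theorem t563_A00pm_123_s3 : ∃ t, chk3 f_A00pm_123_s3 t 1013 116 1 = true := ex3_a k196_A00pm_123_s3 k197_A00pm_123_s3

theorem t564_A00pm_123_s3 : ∃ t, chk3 f_A00pm_123_s3 t 1012 116 1 = true := ex3_b k194_A00pm_123_s3 k195_A00pm_123_s3

theorem t565_A00pm_123_s3 : ∃ t, chk3 f_A00pm_123_s3 t 506 116 1 = true := ex3_a t564_A00pm_123_s3 t563_A00pm_123_s3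

theorem t566_A00pm_123_s3 : ∃ t, chk3 f_A00pm_123_s3 t 506 58 1 = true := ex3_b t565_A00pm_123_s3 t562_A00pm_123_s3

theorem t567_A00pm_123_s3 : ∃ t, chk3 f_A00pm_123_s3 t 253 58 1 = true := ex3_a t566_A00pm_123_s3 t561_A00pm_123_s3

theorem t568_A00pm_123_s3 : ∃ t, chk3 f_A00pm_123_s3 t 252 117 1 = true := ex3_a k192_A00pm_123_s3 k193_A00pm_123_s3

theorem t569_A00pm_123_s3 : ∃ t, chk3 f_A00pm_123_s3 t 505 116 1 = true := ex3_a k190_A00pm_123_s3 k191_A00pm_123_s3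

theorem t570_A00pm_123_s3 : ∃ t, chk3 f_A00pm_123_s3 t 252 116 1 = true := ex3_a k189_A00pm_123_s3 t569_A00pm_123_s3

theorem t571_A00pm_123_s3 : ∃ t, chk3 f_A00pm_123_s3 t 252 58 1 = true := ex3_b t570_A00pm_123_s3 t568_A00pm_123_s3

theorem t572_A00pm_123_s3 : ∃ t, chk3 f_A00pm_123_s3 t 126 58 1 = true := ex3_a t571_A00pm_123_s3 t567_A00pm_123_s3

theorem t573_A00pm_123_s3 : ∃ t, chk3 f_A00pm_123_s3 t 126 29 1 = true := ex3_b t572_A00pm_123_s3 t553_A00pm_123_s3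

theorem t574_A00pm_123_s3 : ∃ t, chk3 f_A00pm_123_s3 t 1011 115 1 = true := ex3_b k186_A00pm_123_s3 k187_A00pm_123_s3

theorem t575_A00pm_123_s3 : ∃ t, chk3 f_A00pm_123_s3 t 505 115 1 = true := ex3_a k185_A00pm_123_s3 t574_A00pm_123_s3

theorem t576_A00pm_123_s3 : ∃ t, chk3 f_A00pm_123_s3 t 505 57 1 = true := ex3_b k184_A00pm_123_s3 t575_A00pm_123_s3

theorem t577_A00pm_123_s3 : ∃ t, chk3 f_A00pm_123_s3 t 504 114 1 = true := ex3_b k181_A00pm_123_s3 k182_A00pm_123_s3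

theorem t578_A00pm_123_s3 : ∃ t, chk3 f_A00pm_123_s3 t 504 57 1 = true := ex3_b t577_A00pm_123_s3 k183_A00pm_123_s3

theorem t579_A00pm_123_s3 : ∃ t, chk3 f_A00pm_123_s3 t 252 57 1 = true := ex3_a t578_A00pm_123_s3 t576_A00pm_123_s3

theorem t580_A00pm_123_s3 : ∃ t, chk3 f_A00pm_123_s3 t 252 28 1 = true := ex3_b k180_A00pm_123_s3 t579_A00pm_123_s3

theorem t581_A00pm_123_s3 : ∃ t, chk3 f_A00pm_123_s3 t 126 28 1 = true := ex3_a t580_A00pm_123_s3 k188_A00pm_123_s3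

theorem t582_A00pm_123_s3 : ∃ t, chk3 f_A00pm_123_s3 t 126 14 1 = true := ex3_b t581_A00pm_123_s3 t573_A00pm_123_s3

theorem t583_A00pm_123_s3 : ∃ t, chk3 f_A00pm_123_s3 t 63 14 1 = true := ex3_a t582_A00pm_123_s3 t537_A00pm_123_s3

theorem t584_A00pm_123_s3 : ∃ t, chk3 f_A00pm_123_s3 t 251 59 1 = true := ex3_b k178_A00pm_123_s3 k179_A00pm_123_s3

theorem t585_A00pm_123_s3 : ∃ t, chk3 f_A00pm_123_s3 t 250 118 1 = true := ex3_c k175_A00pm_123_s3 k176_A00pm_123_s3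

theorem t586_A00pm_123_s3 : ∃ t, chk3 f_A00pm_123_s3 t 250 59 1 = true := ex3_b t585_A00pm_123_s3 k177_A00pm_123_s3

theorem t587_A00pm_123_s3 : ∃ t, chk3 f_A00pm_123_s3 t 125 59 1 = true := ex3_a t586_A00pm_123_s3 t584_A00pm_123_s3

theorem t588_A00pm_123_s3 : ∃ t, chk3 f_A00pm_123_s3 t 125 58 1 = true := ex3_a k173_A00pm_123_s3 k174_A00pm_123_s3

theorem t589_A00pm_123_s3 : ∃ t, chk3 f_A00pm_123_s3 t 125 29 1 = true := ex3_b t588_A00pm_123_s3 t587_A00pm_123_s3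

theorem t590_A00pm_123_s3 : ∃ t, chk3 f_A00pm_123_s3 t 251 114 1 = true := ex3_a k170_A00pm_123_s3 k171_A00pm_123_s3

theorem t591_A00pm_123_s3 : ∃ t, chk3 f_A00pm_123_s3 t 251 57 1 = true := ex3_b t590_A00pm_123_s3 k172_A00pm_123_s3

theorem t592_A00pm_123_s3 : ∃ t, chk3 f_A00pm_123_s3 t 125 57 1 = true := ex3_a k169_A00pm_123_s3 t591_A00pm_123_s3

theorem t593_A00pm_123_s3 : ∃ t, chk3 f_A00pm_123_s3 t 503 113 1 = true := ex3_b k167_A00pm_123_s3 k168_A00pm_123_s3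

theorem t594_A00pm_123_s3 : ∃ t, chk3 f_A00pm_123_s3 t 251 113 1 = true := ex3_a k166_A00pm_123_s3 t593_A00pm_123_s3

theorem t595_A00pm_123_s3 : ∃ t, chk3 f_A00pm_123_s3 t 251 112 1 = true := ex3_b k164_A00pm_123_s3 k165_A00pm_123_s3

theorem t596_A00pm_123_s3 : ∃ t, chk3 f_A00pm_123_s3 t 251 56 1 = true := ex3_b t595_A00pm_123_s3 t594_A00pm_123_s3

theorem t597_A00pm_123_s3 : ∃ t, chk3 f_A00pm_123_s3 t 250 56 1 = true := ex3_b k162_A00pm_123_s3 k163_A00pm_123_s3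

theorem t598_A00pm_123_s3 : ∃ t, chk3 f_A00pm_123_s3 t 125 56 1 = true := ex3_a t597_A00pm_123_s3 t596_A00pm_123_s3

theorem t599_A00pm_123_s3 : ∃ t, chk3 f_A00pm_123_s3 t 125 28 1 = true := ex3_b t598_A00pm_123_s3 t592_A00pm_123_s3

theorem t600_A00pm_123_s3 : ∃ t, chk3 f_A00pm_123_s3 t 125 14 1 = true := ex3_b t599_A00pm_123_s3 t589_A00pm_123_s3

theorem t601_A00pm_123_s3 : ∃ t, chk3 f_A00pm_123_s3 t 498 58 1 = true := ex3_c k158_A00pm_123_s3 k159_A00pm_123_s3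

theorem t602_A00pm_123_s3 : ∃ t, chk3 f_A00pm_123_s3 t 249 58 1 = true := ex3_a t601_A00pm_123_s3 k160_A00pm_123_s3

theorem t603_A00pm_123_s3 : ∃ t, chk3 f_A00pm_123_s3 t 248 117 1 = true := ex3_a k156_A00pm_123_s3 k157_A00pm_123_s3

theorem t604_A00pm_123_s3 : ∃ t, chk3 f_A00pm_123_s3 t 496 116 3 = true := ex3_a k153_A00pm_123_s3 k154_A00pm_123_s3

theorem t605_A00pm_123_s3 : ∃ t, chk3 f_A00pm_123_s3 t 248 116 3 = true := ex3_a t604_A00pm_123_s3 k155_A00pm_123_s3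

theorem t606_A00pm_123_s3 : ∃ t, chk3 f_A00pm_123_s3 t 248 116 2 = true := ex3_b k151_A00pm_123_s3 k152_A00pm_123_s3

theorem t607_A00pm_123_s3 : ∃ t, chk3 f_A00pm_123_s3 t 248 116 1 = true := ex3_c t606_A00pm_123_s3 t605_A00pm_123_s3

theorem t608_A00pm_123_s3 : ∃ t, chk3 f_A00pm_123_s3 t 248 58 1 = true := ex3_b t607_A00pm_123_s3 t603_A00pm_123_s3

theorem t609_A00pm_123_s3 : ∃ t, chk3 f_A00pm_123_s3 t 124 58 1 = true := ex3_a t608_A00pm_123_s3 t602_A00pm_123_s3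

theorem t610_A00pm_123_s3 : ∃ t, chk3 f_A00pm_123_s3 t 124 29 1 = true := ex3_b t609_A00pm_123_s3 k161_A00pm_123_s3

theorem t611_A00pm_123_s3 : ∃ t, chk3 f_A00pm_123_s3 t 124 28 1 = true := ex3_b k149_A00pm_123_s3 k150_A00pm_123_s3

theorem t612_A00pm_123_s3 : ∃ t, chk3 f_A00pm_123_s3 t 124 14 1 = true := ex3_b t611_A00pm_123_s3 t610_A00pm_123_s3

theorem t613_A00pm_123_s3 : ∃ t, chk3 f_A00pm_123_s3 t 62 14 1 = true := ex3_a t612_A00pm_123_s3 t600_A00pm_123_s3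

theorem t614_A00pm_123_s3 : ∃ t, chk3 f_A00pm_123_s3 t 31 14 1 = true := ex3_a t613_A00pm_123_s3 t583_A00pm_123_s3

theorem t615_A00pm_123_s3 : ∃ t, chk3 f_A00pm_123_s3 t 495 232 1 = true := ex3_a k144_A00pm_123_s3 k145_A00pm_123_s3

theorem t616_A00pm_123_s3 : ∃ t, chk3 f_A00pm_123_s3 t 495 116 1 = true := ex3_b t615_A00pm_123_s3 k146_A00pm_123_s3

theorem t617_A00pm_123_s3 : ∃ t, chk3 f_A00pm_123_s3 t 247 116 1 = true := ex3_a k143_A00pm_123_s3 t616_A00pm_123_s3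

theorem t618_A00pm_123_s3 : ∃ t, chk3 f_A00pm_123_s3 t 247 58 1 = true := ex3_b t617_A00pm_123_s3 k147_A00pm_123_s3

theorem t619_A00pm_123_s3 : ∃ t, chk3 f_A00pm_123_s3 t 123 58 1 = true := ex3_a k142_A00pm_123_s3 t618_A00pm_123_s3

theorem t620_A00pm_123_s3 : ∃ t, chk3 f_A00pm_123_s3 t 123 29 1 = true := ex3_b t619_A00pm_123_s3 k148_A00pm_123_s3

theorem t621_A00pm_123_s3 : ∃ t, chk3 f_A00pm_123_s3 t 61 29 1 = true := ex3_a k141_A00pm_123_s3 t620_A00pm_123_s3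

theorem t622_A00pm_123_s3 : ∃ t, chk3 f_A00pm_123_s3 t 247 57 1 = true := ex3_a k139_A00pm_123_s3 k140_A00pm_123_s3

theorem t623_A00pm_123_s3 : ∃ t, chk3 f_A00pm_123_s3 t 247 28 1 = true := ex3_b k138_A00pm_123_s3 t622_A00pm_123_s3

theorem t624_A00pm_123_s3 : ∃ t, chk3 f_A00pm_123_s3 t 246 115 1 = true := ex3_a k136_A00pm_123_s3 k137_A00pm_123_s3

theorem t625_A00pm_123_s3 : ∃ t, chk3 f_A00pm_123_s3 t 246 57 1 = true := ex3_b k135_A00pm_123_s3 t624_A00pm_123_s3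

theorem t626_A00pm_123_s3 : ∃ t, chk3 f_A00pm_123_s3 t 246 28 1 = true := ex3_b k134_A00pm_123_s3 t625_A00pm_123_s3

theorem t627_A00pm_123_s3 : ∃ t, chk3 f_A00pm_123_s3 t 123 28 1 = true := ex3_a t626_A00pm_123_s3 t623_A00pm_123_s3

theorem t628_A00pm_123_s3 : ∃ t, chk3 f_A00pm_123_s3 t 245 114 1 = true := ex3_a k131_A00pm_123_s3 k132_A00pm_123_s3

theorem t629_A00pm_123_s3 : ∃ t, chk3 f_A00pm_123_s3 t 245 57 1 = true := ex3_b t628_A00pm_123_s3 k133_A00pm_123_s3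

theorem t630_A00pm_123_s3 : ∃ t, chk3 f_A00pm_123_s3 t 122 57 1 = true := ex3_a k130_A00pm_123_s3 t629_A00pm_123_s3

theorem t631_A00pm_123_s3 : ∃ t, chk3 f_A00pm_123_s3 t 122 28 1 = true := ex3_b k129_A00pm_123_s3 t630_A00pm_123_s3

theorem t632_A00pm_123_s3 : ∃ t, chk3 f_A00pm_123_s3 t 61 28 1 = true := ex3_a t631_A00pm_123_s3 t627_A00pm_123_s3

theorem t633_A00pm_123_s3 : ∃ t, chk3 f_A00pm_123_s3 t 61 14 1 = true := ex3_b t632_A00pm_123_s3 t621_A00pm_123_s3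

theorem t634_A00pm_123_s3 : ∃ t, chk3 f_A00pm_123_s3 t 243 113 1 = true := ex3_c k125_A00pm_123_s3 k126_A00pm_123_s3

theorem t635_A00pm_123_s3 : ∃ t, chk3 f_A00pm_123_s3 t 243 56 1 = true := ex3_b k124_A00pm_123_s3 t634_A00pm_123_s3

theorem t636_A00pm_123_s3 : ∃ t, chk3 f_A00pm_123_s3 t 242 112 1 = true := ex3_b k121_A00pm_123_s3 k122_A00pm_123_s3

theorem t637_A00pm_123_s3 : ∃ t, chk3 f_A00pm_123_s3 t 242 56 1 = true := ex3_b t636_A00pm_123_s3 k123_A00pm_123_s3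

theorem t638_A00pm_123_s3 : ∃ t, chk3 f_A00pm_123_s3 t 121 56 1 = true := ex3_a t637_A00pm_123_s3 t635_A00pm_123_s3

theorem t639_A00pm_123_s3 : ∃ t, chk3 f_A00pm_123_s3 t 121 28 1 = true := ex3_b t638_A00pm_123_s3 k127_A00pm_123_s3

theorem t640_A00pm_123_s3 : ∃ t, chk3 f_A00pm_123_s3 t 241 112 1 = true := ex3_a k117_A00pm_123_s3 k118_A00pm_123_s3

theorem t641_A00pm_123_s3 : ∃ t, chk3 f_A00pm_123_s3 t 241 56 1 = true := ex3_b t640_A00pm_123_s3 k119_A00pm_123_s3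

theorem t642_A00pm_123_s3 : ∃ t, chk3 f_A00pm_123_s3 t 120 56 1 = true := ex3_a k116_A00pm_123_s3 t641_A00pm_123_s3

theorem t643_A00pm_123_s3 : ∃ t, chk3 f_A00pm_123_s3 t 120 28 1 = true := ex3_b t642_A00pm_123_s3 k120_A00pm_123_s3

theorem t644_A00pm_123_s3 : ∃ t, chk3 f_A00pm_123_s3 t 60 28 1 = true := ex3_a t643_A00pm_123_s3 t639_A00pm_123_s3

theorem t645_A00pm_123_s3 : ∃ t, chk3 f_A00pm_123_s3 t 60 14 1 = true := ex3_b t644_A00pm_123_s3 k128_A00pm_123_s3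

theorem t646_A00pm_123_s3 : ∃ t, chk3 f_A00pm_123_s3 t 30 14 1 = true := ex3_a t645_A00pm_123_s3 t633_A00pm_123_s3

theorem t647_A00pm_123_s3 : ∃ t, chk3 f_A00pm_123_s3 t 15 14 1 = true := ex3_a t646_A00pm_123_s3 t614_A00pm_123_s3

theorem t648_A00pm_123_s3 : ∃ t, chk3 f_A00pm_123_s3 t 15 7 1 = true := ex3_b t647_A00pm_123_s3 t516_A00pm_123_s3

theorem t649_A00pm_123_s3 : ∃ t, chk3 f_A00pm_123_s3 t 119 510 3 = true := ex3_a k113_A00pm_123_s3 k114_A00pm_123_s3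

theorem t650_A00pm_123_s3 : ∃ t, chk3 f_A00pm_123_s3 t 119 255 3 = true := ex3_b t649_A00pm_123_s3 k115_A00pm_123_s3

theorem t651_A00pm_123_s3 : ∃ t, chk3 f_A00pm_123_s3 t 119 510 2 = true := ex3_a k110_A00pm_123_s3 k111_A00pm_123_s3

theorem t652_A00pm_123_s3 : ∃ t, chk3 f_A00pm_123_s3 t 119 255 2 = true := ex3_b t651_A00pm_123_s3 k112_A00pm_123_s3

theorem t653_A00pm_123_s3 : ∃ t, chk3 f_A00pm_123_s3 t 119 255 1 = true := ex3_c t652_A00pm_123_s3 t650_A00pm_123_s3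

theorem t654_A00pm_123_s3 : ∃ t, chk3 f_A00pm_123_s3 t 119 254 3 = true := ex3_a k108_A00pm_123_s3 k109_A00pm_123_s3

theorem t655_A00pm_123_s3 : ∃ t, chk3 f_A00pm_123_s3 t 119 254 1 = true := ex3_c k107_A00pm_123_s3 t654_A00pm_123_s3

theorem t656_A00pm_123_s3 : ∃ t, chk3 f_A00pm_123_s3 t 119 127 1 = true := ex3_b t655_A00pm_123_s3 t653_A00pm_123_s3

theorem t657_A00pm_123_s3 : ∃ t, chk3 f_A00pm_123_s3 t 119 126 3 = true := ex3_a k105_A00pm_123_s3 k106_A00pm_123_s3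

theorem t658_A00pm_123_s3 : ∃ t, chk3 f_A00pm_123_s3 t 119 126 1 = true := ex3_c k104_A00pm_123_s3 t657_A00pm_123_s3

theorem t659_A00pm_123_s3 : ∃ t, chk3 f_A00pm_123_s3 t 119 63 1 = true := ex3_b t658_A00pm_123_s3 t656_A00pm_123_s3

theorem t660_A00pm_123_s3 : ∃ t, chk3 f_A00pm_123_s3 t 118 510 3 = true := ex3_a k101_A00pm_123_s3 k102_A00pm_123_s3

theorem t661_A00pm_123_s3 : ∃ t, chk3 f_A00pm_123_s3 t 118 255 3 = true := ex3_b t660_A00pm_123_s3 k103_A00pm_123_s3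

theorem t662_A00pm_123_s3 : ∃ t, chk3 f_A00pm_123_s3 t 118 255 1 = true := ex3_c k100_A00pm_123_s3 t661_A00pm_123_s3

theorem t663_A00pm_123_s3 : ∃ t, chk3 f_A00pm_123_s3 t 118 254 1 = true := ex3_c k98_A00pm_123_s3 k99_A00pm_123_s3

theorem t664_A00pm_123_s3 : ∃ t, chk3 f_A00pm_123_s3 t 118 127 1 = true := ex3_b t663_A00pm_123_s3 t662_A00pm_123_s3

theorem t665_A00pm_123_s3 : ∃ t, chk3 f_A00pm_123_s3 t 118 126 1 = true := ex3_c k96_A00pm_123_s3 k97_A00pm_123_s3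

theorem t666_A00pm_123_s3 : ∃ t, chk3 f_A00pm_123_s3 t 118 63 1 = true := ex3_b t665_A00pm_123_s3 t664_A00pm_123_s3

theorem t667_A00pm_123_s3 : ∃ t, chk3 f_A00pm_123_s3 t 59 63 1 = true := ex3_a t666_A00pm_123_s3 t659_A00pm_123_s3

theorem t668_A00pm_123_s3 : ∃ t, chk3 f_A00pm_123_s3 t 239 125 3 = true := ex3_b k94_A00pm_123_s3 k95_A00pm_123_s3

theorem t669_A00pm_123_s3 : ∃ t, chk3 f_A00pm_123_s3 t 238 125 3 = true := ex3_b k92_A00pm_123_s3 k93_A00pm_123_s3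

theorem t670_A00pm_123_s3 : ∃ t, chk3 f_A00pm_123_s3 t 119 125 3 = true := ex3_a t669_A00pm_123_s3 t668_A00pm_123_s3

theorem t671_A00pm_123_s3 : ∃ t, chk3 f_A00pm_123_s3 t 119 62 3 = true := ex3_b k91_A00pm_123_s3 t670_A00pm_123_s3

theorem t672_A00pm_123_s3 : ∃ t, chk3 f_A00pm_123_s3 t 119 125 2 = true := ex3_a k89_A00pm_123_s3 k90_A00pm_123_s3

theorem t673_A00pm_123_s3 : ∃ t, chk3 f_A00pm_123_s3 t 119 62 2 = true := ex3_b k88_A00pm_123_s3 t672_A00pm_123_s3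

theorem t674_A00pm_123_s3 : ∃ t, chk3 f_A00pm_123_s3 t 119 62 1 = true := ex3_c t673_A00pm_123_s3 t671_A00pm_123_s3

theorem t675_A00pm_123_s3 : ∃ t, chk3 f_A00pm_123_s3 t 237 62 3 = true := ex3_b k86_A00pm_123_s3 k87_A00pm_123_s3

theorem t676_A00pm_123_s3 : ∃ t, chk3 f_A00pm_123_s3 t 118 62 3 = true := ex3_a k85_A00pm_123_s3 t675_A00pm_123_s3

theorem t677_A00pm_123_s3 : ∃ t, chk3 f_A00pm_123_s3 t 118 62 2 = true := ex3_c k83_A00pm_123_s3 k84_A00pm_123_s3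

theorem t678_A00pm_123_s3 : ∃ t, chk3 f_A00pm_123_s3 t 118 62 1 = true := ex3_c t677_A00pm_123_s3 t676_A00pm_123_s3

theorem t679_A00pm_123_s3 : ∃ t, chk3 f_A00pm_123_s3 t 59 62 1 = true := ex3_a t678_A00pm_123_s3 t674_A00pm_123_s3

theorem t680_A00pm_123_s3 : ∃ t, chk3 f_A00pm_123_s3 t 59 31 1 = true := ex3_b t679_A00pm_123_s3 t667_A00pm_123_s3

theorem t681_A00pm_123_s3 : ∃ t, chk3 f_A00pm_123_s3 t 59 15 1 = true := ex3_b k82_A00pm_123_s3 t680_A00pm_123_s3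

theorem t682_A00pm_123_s3 : ∃ t, chk3 f_A00pm_123_s3 t 117 510 1 = true := ex3_c k79_A00pm_123_s3 k80_A00pm_123_s3

theorem t683_A00pm_123_s3 : ∃ t, chk3 f_A00pm_123_s3 t 117 255 1 = true := ex3_b t682_A00pm_123_s3 k81_A00pm_123_s3

theorem t684_A00pm_123_s3 : ∃ t, chk3 f_A00pm_123_s3 t 117 254 1 = true := ex3_c k77_A00pm_123_s3 k78_A00pm_123_s3

theorem t685_A00pm_123_s3 : ∃ t, chk3 f_A00pm_123_s3 t 117 127 1 = true := ex3_b t684_A00pm_123_s3 t683_A00pm_123_s3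

theorem t686_A00pm_123_s3 : ∃ t, chk3 f_A00pm_123_s3 t 116 510 1 = true := ex3_c k74_A00pm_123_s3 k75_A00pm_123_s3

theorem t687_A00pm_123_s3 : ∃ t, chk3 f_A00pm_123_s3 t 116 255 1 = true := ex3_b t686_A00pm_123_s3 k76_A00pm_123_s3

theorem t688_A00pm_123_s3 : ∃ t, chk3 f_A00pm_123_s3 t 116 127 1 = true := ex3_b k73_A00pm_123_s3 t687_A00pm_123_s3

theorem t689_A00pm_123_s3 : ∃ t, chk3 f_A00pm_123_s3 t 58 127 1 = true := ex3_a t688_A00pm_123_s3 t685_A00pm_123_s3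

theorem t690_A00pm_123_s3 : ∃ t, chk3 f_A00pm_123_s3 t 117 126 1 = true := ex3_c k71_A00pm_123_s3 k72_A00pm_123_s3

theorem t691_A00pm_123_s3 : ∃ t, chk3 f_A00pm_123_s3 t 58 126 1 = true := ex3_a k70_A00pm_123_s3 t690_A00pm_123_s3

theorem t692_A00pm_123_s3 : ∃ t, chk3 f_A00pm_123_s3 t 58 63 1 = true := ex3_b t691_A00pm_123_s3 t689_A00pm_123_s3

theorem t693_A00pm_123_s3 : ∃ t, chk3 f_A00pm_123_s3 t 117 125 2 = true := ex3_a k67_A00pm_123_s3 k68_A00pm_123_s3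

theorem t694_A00pm_123_s3 : ∃ t, chk3 f_A00pm_123_s3 t 117 62 2 = true := ex3_b k66_A00pm_123_s3 t693_A00pm_123_s3

theorem t695_A00pm_123_s3 : ∃ t, chk3 f_A00pm_123_s3 t 117 62 1 = true := ex3_c t694_A00pm_123_s3 k69_A00pm_123_s3

theorem t696_A00pm_123_s3 : ∃ t, chk3 f_A00pm_123_s3 t 116 62 2 = true := ex3_b k63_A00pm_123_s3 k64_A00pm_123_s3

theorem t697_A00pm_123_s3 : ∃ t, chk3 f_A00pm_123_s3 t 116 62 1 = true := ex3_c t696_A00pm_123_s3 k65_A00pm_123_s3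

theorem t698_A00pm_123_s3 : ∃ t, chk3 f_A00pm_123_s3 t 58 62 1 = true := ex3_a t697_A00pm_123_s3 t695_A00pm_123_s3

theorem t699_A00pm_123_s3 : ∃ t, chk3 f_A00pm_123_s3 t 58 31 1 = true := ex3_b t698_A00pm_123_s3 t692_A00pm_123_s3

theorem t700_A00pm_123_s3 : ∃ t, chk3 f_A00pm_123_s3 t 58 15 1 = true := ex3_b k62_A00pm_123_s3 t699_A00pm_123_s3

theorem t701_A00pm_123_s3 : ∃ t, chk3 f_A00pm_123_s3 t 29 15 1 = true := ex3_a t700_A00pm_123_s3 t681_A00pm_123_s3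

theorem t702_A00pm_123_s3 : ∃ t, chk3 f_A00pm_123_s3 t 29 7 1 = true := ex3_b k61_A00pm_123_s3 t701_A00pm_123_s3

theorem t703_A00pm_123_s3 : ∃ t, chk3 f_A00pm_123_s3 t 57 127 1 = true := ex3_b k59_A00pm_123_s3 k60_A00pm_123_s3

theorem t704_A00pm_123_s3 : ∃ t, chk3 f_A00pm_123_s3 t 57 63 1 = true := ex3_b k58_A00pm_123_s3 t703_A00pm_123_s3

theorem t705_A00pm_123_s3 : ∃ t, chk3 f_A00pm_123_s3 t 57 62 2 = true := ex3_a k55_A00pm_123_s3 k56_A00pm_123_s3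

theorem t706_A00pm_123_s3 : ∃ t, chk3 f_A00pm_123_s3 t 57 62 1 = true := ex3_c t705_A00pm_123_s3 k57_A00pm_123_s3

theorem t707_A00pm_123_s3 : ∃ t, chk3 f_A00pm_123_s3 t 57 31 1 = true := ex3_b t706_A00pm_123_s3 t704_A00pm_123_s3

theorem t708_A00pm_123_s3 : ∃ t, chk3 f_A00pm_123_s3 t 28 31 1 = true := ex3_a k54_A00pm_123_s3 t707_A00pm_123_s3

theorem t709_A00pm_123_s3 : ∃ t, chk3 f_A00pm_123_s3 t 28 15 1 = true := ex3_b k53_A00pm_123_s3 t708_A00pm_123_s3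

theorem t710_A00pm_123_s3 : ∃ t, chk3 f_A00pm_123_s3 t 28 7 1 = true := ex3_b k52_A00pm_123_s3 t709_A00pm_123_s3

theorem t711_A00pm_123_s3 : ∃ t, chk3 f_A00pm_123_s3 t 14 7 1 = true := ex3_a t710_A00pm_123_s3 t702_A00pm_123_s3

theorem t712_A00pm_123_s3 : ∃ t, chk3 f_A00pm_123_s3 t 7 7 1 = true := ex3_a t711_A00pm_123_s3 t648_A00pm_123_s3

theorem t713_A00pm_123_s3 : ∃ t, chk3 f_A00pm_123_s3 t 250 111 1 = true := ex3_a k48_A00pm_123_s3 k49_A00pm_123_s3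

theorem t714_A00pm_123_s3 : ∃ t, chk3 f_A00pm_123_s3 t 250 55 1 = true := ex3_b k47_A00pm_123_s3 t713_A00pm_123_s3

theorem t715_A00pm_123_s3 : ∃ t, chk3 f_A00pm_123_s3 t 125 55 1 = true := ex3_a t714_A00pm_123_s3 k50_A00pm_123_s3

theorem t716_A00pm_123_s3 : ∃ t, chk3 f_A00pm_123_s3 t 125 27 1 = true := ex3_b k46_A00pm_123_s3 t715_A00pm_123_s3

theorem t717_A00pm_123_s3 : ∃ t, chk3 f_A00pm_123_s3 t 125 13 1 = true := ex3_b k45_A00pm_123_s3 t716_A00pm_123_s3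

theorem t718_A00pm_123_s3 : ∃ t, chk3 f_A00pm_123_s3 t 249 55 1 = true := ex3_b k43_A00pm_123_s3 k44_A00pm_123_s3

theorem t719_A00pm_123_s3 : ∃ t, chk3 f_A00pm_123_s3 t 249 27 1 = true := ex3_b k42_A00pm_123_s3 t718_A00pm_123_s3

theorem t720_A00pm_123_s3 : ∃ t, chk3 f_A00pm_123_s3 t 248 54 1 = true := ex3_a k39_A00pm_123_s3 k40_A00pm_123_s3

theorem t721_A00pm_123_s3 : ∃ t, chk3 f_A00pm_123_s3 t 248 27 1 = true := ex3_b t720_A00pm_123_s3 k41_A00pm_123_s3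

theorem t722_A00pm_123_s3 : ∃ t, chk3 f_A00pm_123_s3 t 124 27 1 = true := ex3_a t721_A00pm_123_s3 t719_A00pm_123_s3

theorem t723_A00pm_123_s3 : ∃ t, chk3 f_A00pm_123_s3 t 124 13 1 = true := ex3_b k38_A00pm_123_s3 t722_A00pm_123_s3

theorem t724_A00pm_123_s3 : ∃ t, chk3 f_A00pm_123_s3 t 62 13 1 = true := ex3_a t723_A00pm_123_s3 t717_A00pm_123_s3

theorem t725_A00pm_123_s3 : ∃ t, chk3 f_A00pm_123_s3 t 31 13 1 = true := ex3_a t724_A00pm_123_s3 k51_A00pm_123_s3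

theorem t726_A00pm_123_s3 : ∃ t, chk3 f_A00pm_123_s3 t 61 27 3 = true := ex3_a k36_A00pm_123_s3 k37_A00pm_123_s3

theorem t727_A00pm_123_s3 : ∃ t, chk3 f_A00pm_123_s3 t 247 53 3 = true := ex3_b k34_A00pm_123_s3 k35_A00pm_123_s3

theorem t728_A00pm_123_s3 : ∃ t, chk3 f_A00pm_123_s3 t 123 53 3 = true := ex3_a k33_A00pm_123_s3 t727_A00pm_123_s3

theorem t729_A00pm_123_s3 : ∃ t, chk3 f_A00pm_123_s3 t 123 26 3 = true := ex3_b k32_A00pm_123_s3 t728_A00pm_123_s3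

theorem t730_A00pm_123_s3 : ∃ t, chk3 f_A00pm_123_s3 t 61 26 3 = true := ex3_a k31_A00pm_123_s3 t729_A00pm_123_s3

theorem t731_A00pm_123_s3 : ∃ t, chk3 f_A00pm_123_s3 t 61 13 3 = true := ex3_b t730_A00pm_123_s3 t726_A00pm_123_s3

theorem t732_A00pm_123_s3 : ∃ t, chk3 f_A00pm_123_s3 t 60 13 3 = true := ex3_a k29_A00pm_123_s3 k30_A00pm_123_s3

theorem t733_A00pm_123_s3 : ∃ t, chk3 f_A00pm_123_s3 t 30 13 3 = true := ex3_a t732_A00pm_123_s3 t731_A00pm_123_s3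

theorem t734_A00pm_123_s3 : ∃ t, chk3 f_A00pm_123_s3 t 61 27 2 = true := ex3_a k27_A00pm_123_s3 k28_A00pm_123_s3

theorem t735_A00pm_123_s3 : ∃ t, chk3 f_A00pm_123_s3 t 123 26 2 = true := ex3_b k25_A00pm_123_s3 k26_A00pm_123_s3

theorem t736_A00pm_123_s3 : ∃ t, chk3 f_A00pm_123_s3 t 61 26 2 = true := ex3_a k24_A00pm_123_s3 t735_A00pm_123_s3

theorem t737_A00pm_123_s3 : ∃ t, chk3 f_A00pm_123_s3 t 61 13 2 = true := ex3_b t736_A00pm_123_s3 t734_A00pm_123_s3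

theorem t738_A00pm_123_s3 : ∃ t, chk3 f_A00pm_123_s3 t 60 13 2 = true := ex3_a k22_A00pm_123_s3 k23_A00pm_123_s3

theorem t739_A00pm_123_s3 : ∃ t, chk3 f_A00pm_123_s3 t 30 13 2 = true := ex3_a t738_A00pm_123_s3 t737_A00pm_123_s3

theorem t740_A00pm_123_s3 : ∃ t, chk3 f_A00pm_123_s3 t 30 13 1 = true := ex3_c t739_A00pm_123_s3 t733_A00pm_123_s3

theorem t741_A00pm_123_s3 : ∃ t, chk3 f_A00pm_123_s3 t 15 13 1 = true := ex3_a t740_A00pm_123_s3 t725_A00pm_123_s3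

theorem t742_A00pm_123_s3 : ∃ t, chk3 f_A00pm_123_s3 t 243 51 1 = true := ex3_a k18_A00pm_123_s3 k19_A00pm_123_s3

theorem t743_A00pm_123_s3 : ∃ t, chk3 f_A00pm_123_s3 t 121 51 1 = true := ex3_a k17_A00pm_123_s3 t742_A00pm_123_s3

theorem t744_A00pm_123_s3 : ∃ t, chk3 f_A00pm_123_s3 t 121 25 1 = true := ex3_b k16_A00pm_123_s3 t743_A00pm_123_s3

theorem t745_A00pm_123_s3 : ∃ t, chk3 f_A00pm_123_s3 t 60 25 1 = true := ex3_a k15_A00pm_123_s3 t744_A00pm_123_s3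

theorem t746_A00pm_123_s3 : ∃ t, chk3 f_A00pm_123_s3 t 60 12 1 = true := ex3_b k14_A00pm_123_s3 t745_A00pm_123_s3

theorem t747_A00pm_123_s3 : ∃ t, chk3 f_A00pm_123_s3 t 30 12 1 = true := ex3_a t746_A00pm_123_s3 k20_A00pm_123_s3

theorem t748_A00pm_123_s3 : ∃ t, chk3 f_A00pm_123_s3 t 15 12 1 = true := ex3_a t747_A00pm_123_s3 k21_A00pm_123_s3

theorem t749_A00pm_123_s3 : ∃ t, chk3 f_A00pm_123_s3 t 15 6 1 = true := ex3_b t748_A00pm_123_s3 t741_A00pm_123_s3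

theorem t750_A00pm_123_s3 : ∃ t, chk3 f_A00pm_123_s3 t 119 13 1 = true := ex3_b k12_A00pm_123_s3 k13_A00pm_123_s3

theorem t751_A00pm_123_s3 : ∃ t, chk3 f_A00pm_123_s3 t 59 13 1 = true := ex3_a k11_A00pm_123_s3 t750_A00pm_123_s3

theorem t752_A00pm_123_s3 : ∃ t, chk3 f_A00pm_123_s3 t 29 13 1 = true := ex3_a k10_A00pm_123_s3 t751_A00pm_123_s3

theorem t753_A00pm_123_s3 : ∃ t, chk3 f_A00pm_123_s3 t 29 12 1 = true := ex3_b k8_A00pm_123_s3 k9_A00pm_123_s3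

theorem t754_A00pm_123_s3 : ∃ t, chk3 f_A00pm_123_s3 t 29 6 1 = true := ex3_b t753_A00pm_123_s3 t752_A00pm_123_s3

theorem t755_A00pm_123_s3 : ∃ t, chk3 f_A00pm_123_s3 t 14 6 1 = true := ex3_a k7_A00pm_123_s3 t754_A00pm_123_s3

theorem t756_A00pm_123_s3 : ∃ t, chk3 f_A00pm_123_s3 t 7 6 1 = true := ex3_a t755_A00pm_123_s3 t749_A00pm_123_s3

theorem t757_A00pm_123_s3 : ∃ t, chk3 f_A00pm_123_s3 t 7 3 1 = true := ex3_b t756_A00pm_123_s3 t712_A00pm_123_s3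

theorem t758_A00pm_123_s3 : ∃ t, chk3 f_A00pm_123_s3 t 13 3 1 = true := ex3_b k5_A00pm_123_s3 k6_A00pm_123_s3

theorem t759_A00pm_123_s3 : ∃ t, chk3 f_A00pm_123_s3 t 6 3 1 = true := ex3_a k4_A00pm_123_s3 t758_A00pm_123_s3

theorem t760_A00pm_123_s3 : ∃ t, chk3 f_A00pm_123_s3 t 3 3 1 = true := ex3_a t759_A00pm_123_s3 t757_A00pm_123_s3

theorem t761_A00pm_123_s3 : ∃ t, chk3 f_A00pm_123_s3 t 6 2 1 = true := ex3_b k1_A00pm_123_s3 k2_A00pm_123_s3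

theorem t762_A00pm_123_s3 : ∃ t, chk3 f_A00pm_123_s3 t 3 2 1 = true := ex3_a t761_A00pm_123_s3 k3_A00pm_123_s3

theorem t763_A00pm_123_s3 : ∃ t, chk3 f_A00pm_123_s3 t 3 1 1 = true := ex3_b t762_A00pm_123_s3 t760_A00pm_123_s3

theorem t764_A00pm_123_s3 : ∃ t, chk3 f_A00pm_123_s3 t 1 1 1 = true := ex3_a k0_A00pm_123_s3 t763_A00pm_123_s3

theorem c_A00pm_123_s3 : CertF 536870912 536870912 0 536870912 966367641 24778659 true true false .npn 1 2 3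
    ndB0q1 ndB0q2 pcB3 cut_A00pm_123_s3 xt_A00pm_123_s3 :=
  certF2 (fam := true) (s1 := true) (s2 := false) (a := 1) (b := 2) (c := 3) (cn := .npn) (n1 := ndB0q1) (n2 := ndB0q2) (pc := pcB3) (cut := cut_A00pm_123_s3) (xt := xt_A00pm_123_s3) (P1 := 536870912) (W1 := 536870912) (P2 := 0) (W2 := 536870912) (P3 := 966367641) (W3 := 24778659)
    rfl (fun _ => rfl) t764_A00pm_123_s3

theorem s_A00pm_123_s3 {κ x : ℝ} (hκ : κ * h0 = ken x) (hx : ((966367641 : ℕ) : ℝ) / S ≤ x)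
    (hx' : x ≤ (((966367641 : ℕ) : ℝ) + (24778659 : ℕ)) / S)
    (H : CutA (VFD κ) PP tK tL pcB (Cut.of [[⟨0, 1, 0, 47710208⟩, ⟨1, 1, 0, 47710208⟩, ⟨2, 2, 0, 8388608⟩], [⟨0, 0, 1, 46137344⟩, ⟨1, 1, 0, 1572864⟩, ⟨2, 1, 1, 46137344⟩, ⟨0, 0, 0, 1013612281⟩, ⟨0, 1, 0, 128849018⟩, ⟨2, 1, 0, 1013612281⟩, ⟨2, 2, 0, 128849018⟩]]) 1 2 3 0 0 (sgb true) (sgb false) x) :
    AltA (VFD κ) PP tK tL pcB [⟨4, 0, 0, 2845415833⟩] 1 2 3 0 0 (sgb true) (sgb false) x :=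
  strip_altAD (m := 2845415833) false rfl hκ (SH.κ0 hκ (SH.hx1 hx).le (SH.hx2 hx').le) (SH.hx1 hx).le (SH.hx2 hx') (covB01).cov (covB02).cov hx hx' c_A00pm_123_s3 H ((okx hx hx').extA (T := tt) (sideB hx hx') hκ rfl rfl (.O 1 true) (.O 2 false) (Or.inr rfl))

end Pool.Agent.Strip051.G.I9000_9231.Tab.St.C
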