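import Pool.Agent.Strip051.G.I9000_9231.Fact
import Pool.Agent.Strip051.G.I9000_9231.StH
import Pool.Agent.Strip051.PB.GlueD3
import Pool.Agent.Strip051.PB.MolR

/-! # Facts for the strips (generated) -/

set_option linter.all false
set_option maxRecDepth 100000

namespace Pool.Agent.Strip051.G.I9000_9231.Tab.SE

open Pool.Agent.Strip051.PB Pool.Agent.StripNear Pool.Agent.StripSquare Pool.Agent.Strip051.LC
open Pool.Agent.Strip051.G.I9000_9231.Tab Pool.Agent.Strip051.G.I9000_9231.Tab.SH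

/-- constants of the leaves of type D -/
abbrev dp : DPn := ⟨4, 1, 1, 5, 37, 10, 843, 1000, 41, 100, 1, 8⟩

theorem dth : dp.r.th = 1 / 5 := by simp [DPn.r]

theorem dok : DParOk dp.r := DPn.ok (by decide) (by decide) (by decide) (by decide) (by decide)

theorem hxa {x : ℝ} (hx : ((966367641 : ℕ) : ℝ) / S ≤ x) : (966367641 / 1073741824 : ℝ) ≤ x := by
  rw [S_num] at hx
  refine le_trans (le_of_eq ?_) hx
  norm_num

theorem hxb {x : ℝ} (hx' : x ≤ (((966367641 : ℕ) : ℝ) + (24778659 : ℕ)) / S) : x ≤ (247786575 / 268435456 : ℝ) := by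
  rw [S_num] at hx'
  refine hx'.trans (le_of_eq ?_)
  norm_num

theorem dc {x : ℝ} (hx : ((966367641 : ℕ) : ℝ) / S ≤ x) (hx' : x ≤ (((966367641 : ℕ) : ℝ) + (24778659 : ℕ)) / S) : DC2 dp.r.th dp.r.K (2773 / 10000) dp.r.A x := by
  have h : DC2 (1 / 5) (37 / 10) (2773 / 10000) (1 / 8) x := by
    refine DC2.intv (xa := 966367641 / 1073741824) (xb := 247786575 / 268435456) ?_ ?_ ?_ ?_ ?_ ?_ ?_ ?_ ?_ ?_ ?_ ?_ (hxa hx) (hxb hx') <;> norm_num
  have e1 : dp.r.th = 1 / 5 := by simp [DPn.r]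
  have e2 : dp.r.K = 37 / 10 := by simp [DPn.r]
  have e3 : dp.r.A = 1 / 8 := by simp [DPn.r]
  rw [e1, e2, e3]
  exact h

theorem dn {x : ℝ} [Fact ((9 / 10 : ℝ) ≤ x)] (hx : ((966367641 : ℕ) : ℝ) / S ≤ x) (hx' : x ≤ (((966367641 : ℕ) : ℝ) + (24778659 : ℕ)) / S) : DN dp.r.th (41 / 50 / x) (10541 / 10000) dp.r.K1 dp.r.K2 dp.r.A x := by
  have h : DN (1 / 5) (41 / 50 / x) (10541 / 10000) (843 / 1000) (41 / 100) (1 / 8) x := by
    refine DN.intv (xa := 9 / 10) (xb := 247786575 / 268435456) ?_ ?_ ?_ ?_ ?_ ?_ ?_ ?_ ?_ ?_ ?_ ?_ ?_ Fact.out (hxb hx')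
    all_goals first | norm_num | (left; norm_num; done) | (right; norm_num; done)
  have e1 : dp.r.th = 1 / 5 := by simp [DPn.r]
  have e2 : dp.r.K1 = 843 / 1000 := by simp [DPn.r]
  have e3 : dp.r.K2 = 41 / 100 := by simp [DPn.r]
  have e4 : dp.r.A = 1 / 8 := by simp [DPn.r]
  rw [e1, e2, e3, e4]
  exact h

end Pool.Agent.Strip051.G.I9000_9231.Tab.SE
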