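import Pool.Agent.Strip051.G.I9000_9231.Tab
import Pool.Agent.Strip051.PB.StripB

/-! # Strips, near vertex: certificates 0 (generated) -/

set_option linter.all false
set_option maxRecDepth 100000

namespace Pool.Agent.Strip051.G.I9000_9231.Tab.CS.BA00

open Pool.Agent.Strip051.PB Pool.Agent.Strip051.PB.T
open Pool.Agent.Strip051.G.I9000_9231.Tab

noncomputable def cut_pp_001_s : Cut := Cut.of [[⟨4, 0, 0, 1449551462⟩]]

noncomputable def f_pp_001_s : ℕ → ℕ → ℕ → ℕ → Bool := onCell 0 536870912 0 536870912 966367641 24778659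
    (rowNE 3 eng mog cd0q0 cd0q0 pd1 0 true true true .up 0 0 1 (qsf 0 536870912 0 536870912 1) ndB0q0 ndB0q0 pcB1 cut_pp_001_s Ext.none)

def k0_pp_001_s : ∃ t, chk3 f_pp_001_s t 1 1 1 = true :=
  ⟨(l 4), by decide +kernel⟩

theorem c_pp_001_s : CertNE 0 536870912 0 536870912 966367641 24778659 3 eng mog cd0q0 cd0q0 pd1 true true true .up 0 0 1
    ndB0q0 ndB0q0 pcB1 cut_pp_001_s Ext.none :=
  certNE0 (fam := true) (s1 := true) (s2 := true) (a := 0) (b := 0) (c := 1) (cn := .up) (n1 := ndB0q0) (n2 := ndB0q0) (pc := pcB1) (cut := cut_pp_001_s) (xt := Ext.none) (P1 := 0) (W1 := 536870912) (P2 := 0) (W2 := 536870912) (P3 := 966367641) (W3 := 24778659) (N0 := 3) (En := eng) (mo := mog) (C1 := cd0q0) (C2 := cd0q0) (C3 := pd1)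
    rfl k0_pp_001_s

noncomputable def cut_pp_001_t : Cut := Cut.of [[⟨3, 0, 0, 2845415833⟩]]

noncomputable def f_pp_001_t : ℕ → ℕ → ℕ → ℕ → Bool := onCell 0 536870912 0 536870912 966367641 24778659
    (rowNE 3 eng mog cd0q0 cd0q0 pd1 0 true true true .up 0 0 1 (qsf 0 536870912 0 536870912 1) ndB0q0 ndB0q0 pcB1 cut_pp_001_t Ext.none)

def k0_pp_001_t : ∃ t, chk3 f_pp_001_t t 1 1 1 = true :=
  ⟨(l 4), by decide +kernel⟩

theorem c_pp_001_t : CertNE 0 536870912 0 536870912 966367641 24778659 3 eng mog cd0q0 cd0q0 pd1 true true true .up 0 0 1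
    ndB0q0 ndB0q0 pcB1 cut_pp_001_t Ext.none :=
  certNE0 (fam := true) (s1 := true) (s2 := true) (a := 0) (b := 0) (c := 1) (cn := .up) (n1 := ndB0q0) (n2 := ndB0q0) (pc := pcB1) (cut := cut_pp_001_t) (xt := Ext.none) (P1 := 0) (W1 := 536870912) (P2 := 0) (W2 := 536870912) (P3 := 966367641) (W3 := 24778659) (N0 := 3) (En := eng) (mo := mog) (C1 := cd0q0) (C2 := cd0q0) (C3 := pd1)
    rfl k0_pp_001_t

noncomputable def cut_pp_011_s : Cut := Cut.of [[⟨4, 0, 0, 1449551462⟩], [⟨0, 0, 0, 67108864⟩, ⟨1, 1, 0, 67108864⟩, ⟨2, 1, 0, 67108864⟩]]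

noncomputable def f_pp_011_s : ℕ → ℕ → ℕ → ℕ → Bool := onCell 0 536870912 536870912 536870912 966367641 24778659
    (rowNE 3 eng mog cd0q0 cd0q1 pd1 0 true true true .pnn 0 1 1 (qsf 0 536870912 536870912 536870912 1) ndB0q0 ndB0q1 pcB1 cut_pp_011_s Ext.none)

def k0_pp_011_s : ∃ t, chk3 f_pp_011_s t 1 1 1 = true :=
  ⟨(l 6), by decide +kernel⟩

theorem c_pp_011_s : CertNE 0 536870912 536870912 536870912 966367641 24778659 3 eng mog cd0q0 cd0q1 pd1 true true true .pnn 0 1 1
    ndB0q0 ndB0q1 pcB1 cut_pp_011_s Ext.none :=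
  certNE0 (fam := true) (s1 := true) (s2 := true) (a := 0) (b := 1) (c := 1) (cn := .pnn) (n1 := ndB0q0) (n2 := ndB0q1) (pc := pcB1) (cut := cut_pp_011_s) (xt := Ext.none) (P1 := 0) (W1 := 536870912) (P2 := 536870912) (W2 := 536870912) (P3 := 966367641) (W3 := 24778659) (N0 := 3) (En := eng) (mo := mog) (C1 := cd0q0) (C2 := cd0q1) (C3 := pd1)
    rfl k0_pp_011_s

noncomputable def cut_pp_011_t : Cut := Cut.of [[⟨3, 0, 0, 2845415833⟩], [⟨0, 0, 0, 67108864⟩, ⟨1, 1, 0, 67108864⟩, ⟨2, 1, 0, 67108864⟩]]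

noncomputable def f_pp_011_t : ℕ → ℕ → ℕ → ℕ → Bool := onCell 0 536870912 536870912 536870912 966367641 24778659
    (rowNE 3 eng mog cd0q0 cd0q1 pd1 0 true true true .pnn 0 1 1 (qsf 0 536870912 536870912 536870912 1) ndB0q0 ndB0q1 pcB1 cut_pp_011_t Ext.none)

def k0_pp_011_t : ∃ t, chk3 f_pp_011_t t 1 1 1 = true :=
  ⟨(b (l 4) (a (b (l 4) (a (b (l 4) (a (b (l 4) (a (l 14) (l 4))) (l 4))) (l 4))) (l 4))), by decide +kernel⟩

theorem c_pp_011_t : CertNE 0 536870912 536870912 536870912 966367641 24778659 3 eng mog cd0q0 cd0q1 pd1 true true true .pnn 0 1 1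
    ndB0q0 ndB0q1 pcB1 cut_pp_011_t Ext.none :=
  certNE0 (fam := true) (s1 := true) (s2 := true) (a := 0) (b := 1) (c := 1) (cn := .pnn) (n1 := ndB0q0) (n2 := ndB0q1) (pc := pcB1) (cut := cut_pp_011_t) (xt := Ext.none) (P1 := 0) (W1 := 536870912) (P2 := 536870912) (W2 := 536870912) (P3 := 966367641) (W3 := 24778659) (N0 := 3) (En := eng) (mo := mog) (C1 := cd0q0) (C2 := cd0q1) (C3 := pd1)
    rfl k0_pp_011_t

noncomputable def cut_pp_012_s : Cut := Cut.of [[⟨4, 0, 0, 1449551462⟩], [⟨0, 0, 0, 67108864⟩, ⟨1, 1, 0, 67108864⟩, ⟨2, 1, 0, 67108864⟩]]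

noncomputable def f_pp_012_s : ℕ → ℕ → ℕ → ℕ → Bool := onCell 0 536870912 536870912 536870912 966367641 24778659
    (rowNE 3 eng mog cd0q0 cd0q1 pd2 0 true true true .pnp 0 1 2 (qsf 0 536870912 536870912 536870912 2) ndB0q0 ndB0q1 pcB2 cut_pp_012_s Ext.none)

def k0_pp_012_s : ∃ t, chk3 f_pp_012_s t 1 1 1 = true :=
  ⟨(l 6), by decide +kernel⟩

theorem c_pp_012_s : CertNE 0 536870912 536870912 536870912 966367641 24778659 3 eng mog cd0q0 cd0q1 pd2 true true true .pnp 0 1 2
    ndB0q0 ndB0q1 pcB2 cut_pp_012_s Ext.none :=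
  certNE0 (fam := true) (s1 := true) (s2 := true) (a := 0) (b := 1) (c := 2) (cn := .pnp) (n1 := ndB0q0) (n2 := ndB0q1) (pc := pcB2) (cut := cut_pp_012_s) (xt := Ext.none) (P1 := 0) (W1 := 536870912) (P2 := 536870912) (W2 := 536870912) (P3 := 966367641) (W3 := 24778659) (N0 := 3) (En := eng) (mo := mog) (C1 := cd0q0) (C2 := cd0q1) (C3 := pd2)
    rfl k0_pp_012_s

noncomputable def cut_pp_012_t : Cut := Cut.of [[⟨3, 0, 0, 2845415833⟩], [⟨0, 0, 0, 67108864⟩, ⟨1, 1, 0, 67108864⟩, ⟨2, 1, 0, 67108864⟩]]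

noncomputable def f_pp_012_t : ℕ → ℕ → ℕ → ℕ → Bool := onCell 0 536870912 536870912 536870912 966367641 24778659
    (rowNE 3 eng mog cd0q0 cd0q1 pd2 0 true true true .pnp 0 1 2 (qsf 0 536870912 536870912 536870912 2) ndB0q0 ndB0q1 pcB2 cut_pp_012_t Ext.none)

def k0_pp_012_t : ∃ t, chk3 f_pp_012_t t 1 1 1 = true :=
  ⟨(b (l 4) (a (b (l 4) (a (b (l 4) (a (b (l 4) (a (l 14) (l 4))) (l 4))) (l 4))) (l 4))), by decide +kernel⟩

theorem c_pp_012_t : CertNE 0 536870912 536870912 536870912 966367641 24778659 3 eng mog cd0q0 cd0q1 pd2 true true true .pnp 0 1 2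
    ndB0q0 ndB0q1 pcB2 cut_pp_012_t Ext.none :=
  certNE0 (fam := true) (s1 := true) (s2 := true) (a := 0) (b := 1) (c := 2) (cn := .pnp) (n1 := ndB0q0) (n2 := ndB0q1) (pc := pcB2) (cut := cut_pp_012_t) (xt := Ext.none) (P1 := 0) (W1 := 536870912) (P2 := 536870912) (W2 := 536870912) (P3 := 966367641) (W3 := 24778659) (N0 := 3) (En := eng) (mo := mog) (C1 := cd0q0) (C2 := cd0q1) (C3 := pd2)
    rfl k0_pp_012_t

noncomputable def cut_pp_022_s : Cut := Cut.of [[⟨4, 0, 0, 1449551462⟩], [⟨0, 0, 0, 53687091⟩, ⟨1, 1, 0, 53687091⟩, ⟨2, 1, 0, 53687091⟩]]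

noncomputable def f_pp_022_s : ℕ → ℕ → ℕ → ℕ → Bool := onCell 0 536870912 0 536870912 966367641 24778659
    (rowNE 3 eng mog cd0q0 cd0q2 pd2 0 true true true .pp 0 2 2 (qsf 0 536870912 0 536870912 2) ndB0q0 ndB0q2 pcB2 cut_pp_022_s Ext.none)

def k0_pp_022_s : ∃ t, chk3 f_pp_022_s t 1 1 1 = true :=
  ⟨(l 6), by decide +kernel⟩

theorem c_pp_022_s : CertNE 0 536870912 0 536870912 966367641 24778659 3 eng mog cd0q0 cd0q2 pd2 true true true .pp 0 2 2
    ndB0q0 ndB0q2 pcB2 cut_pp_022_s Ext.none :=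
  certNE0 (fam := true) (s1 := true) (s2 := true) (a := 0) (b := 2) (c := 2) (cn := .pp) (n1 := ndB0q0) (n2 := ndB0q2) (pc := pcB2) (cut := cut_pp_022_s) (xt := Ext.none) (P1 := 0) (W1 := 536870912) (P2 := 0) (W2 := 536870912) (P3 := 966367641) (W3 := 24778659) (N0 := 3) (En := eng) (mo := mog) (C1 := cd0q0) (C2 := cd0q2) (C3 := pd2)
    rfl k0_pp_022_s

noncomputable def cut_pp_022_t : Cut := Cut.of [[⟨3, 0, 0, 2845415833⟩], [⟨0, 0, 0, 53687091⟩, ⟨1, 1, 0, 53687091⟩, ⟨2, 1, 0, 53687091⟩]]

noncomputable def f_pp_022_t : ℕ → ℕ → ℕ → ℕ → Bool := onCell 1073741824 536870912 0 536870912 966367641 24778659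
    (rowNE 3 eng mog cd0q0 cd0q2 pd2 2 true true true .pp 0 2 2 (qsf 0 536870912 0 536870912 2) ndB0q0 ndB0q2 pcB2 cut_pp_022_t Ext.none)

def k0_pp_022_t : ∃ t, chk3 f_pp_022_t t 2 2 1 = true :=
  ⟨(a (l 6) (a (l 6) (b (l 6) (b (l 6) (b (l 6) (a (a (l 6) (b (l 6) (c (l 16463776) (l 16501144)))) (a (c (b (l 16506296) (l 16500384)) (c (l 16565912) (l 16480192))) (c (c (l 16570184) (l 16601904)) (c (l 16518728) (l 16496744)))))))))), by decide +kernel⟩

def k1_pp_022_t : ∃ t, chk3 f_pp_022_t t 8 6 1 = true :=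
  ⟨(l 1), by decide +kernel⟩

def k2_pp_022_t : ∃ t, chk3 f_pp_022_t t 9 12 1 = true :=
  ⟨(a (l 1) (a (l 6) (b (l 6) (b (l 6) (a (b (l 6) (b (l 6) (c (l 16420136) (l 16449888)))) (c (c (a (l 16413744) (l 16424480)) (l 16435256)) (b (l 16431400) (l 16447968)))))))), by decide +kernel⟩

def k3_pp_022_t : ∃ t, chk3 f_pp_022_t t 18 13 1 = true :=
  ⟨(a (b (l 1) (a (l 1) (b (a (l 1) (b (l 1) (c (l 16432096) (l 16441800)))) (a (b (c (l 16446232) (l 16454000)) (c (b (l 16463320) (l 16474792)) (b (l 16470704) (l 16481960)))) (b (c (b (l 16449032) (l 16460384)) (b (l 16458152) (l 16469176))) (c (l 16477536) (l 16506848))))))) (b (a (b (l 1) (a (l 1) (b (l 1) (c (l 16415448) (l 16419408))))) (b (a (l 1) (b (l 1) (c (a (l 16398352) (l 16403128)) (l 16420976)))) (a (b (c (a (l 16410680) (l 16415320)) (l 16430240)) (c (l 16427200) (l 16450688))) (b (c (l 16401408) (l 16440792)) (c (l 16423416) (l 16461064)))))) (a (b (a (b (c (l 16418336) (l 16430264)) (c (a (l 16459560) (l 16463944)) (a (l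 16470160) (l 16475120)))) (b (c (a (l 16445960) (l 16450456)) (l 16461320)) (c (l 16449632) (l 16482576)))) (a (b (c (l 16463376) (l 16494376)) (c (l 16486160) (l 16516432))) (b (c (l 16472192) (l 16504152)) (c (l 16494912) (l 16526032))))) (b (a (b (c (l 16436320) (l 16471472)) (c (l 16458656) (l 16492552))) (b (c (l 16445568) (l 16481664)) (c (l 16467824) (l 16502544)))) (c (b (a (l 16481136) (l 16511176)) (a (l 16524744) (l 16533696))) (a (b (l 16513936) (l 16535616)) (b (l 16523720) (l 16545160)))))))), by decide +kernel⟩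

def k4_pp_022_t : ∃ t, chk3 f_pp_022_t t 19 26 1 = true :=
  ⟨(a (b (a (a (b (l 6) (c (l 16410384) (l 16431760))) (c (a (l 16407248) (l 16412232)) (c (l 16427136) (l 16439312)))) (c (a (c (l 16413968) (l 16425720)) (c (l 16423944) (l 16436160))) (a (b (l 16434880) (l 16453576)) (b (l 16446136) (l 16464600))))) (a (c (a (b (l 16410984) (l 16432904)) (b (l 16420720) (l 16442536))) (b (a (l 16451400) (l 16462056)) (a (l 16471480) (l 16481920)))) (c (b (a (l 16430600) (l 16461568)) (a (l 16473256) (l 16483088))) (a (b (l 16472784) (l 16492408)) (b (l 16483560) (l 16502920)))))) (c (b (a (a (c (l 16434056) (l 16446696)) (c (l 16444288) (l 16457328))) (b (a (l 16451120) (l 16461784)) (a (l 16471352) (l 16481808)))) (a (b (a (l 16471648) (l 16481800)) (a (l 16492992) (l 16502952))) (b (a (l 16492008) (l 16502232)) (c (l 16512728) (l 16523224))))) (a (b (a (b (l 16457464) (l 16475680)) (b (l 16468848) (l 16486800))) (b (a (l 16494376) (l 16505200)) (a (l 16513448) (l 16523976)))) (b (b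 (l 16465016) (l 16456312)) (b (a (l 16516032) (l 16526840)) (a (l 16534480) (l 16544944))))))), by decide +kernel⟩

def k5_pp_022_t : ∃ t, chk3 f_pp_022_t t 19 27 1 = true :=
  ⟨(a (a (b (c (b (a (l 16454952) (l 16485432)) (a (l 16498072) (l 16507448))) (a (b (l 16491864) (l 16512528)) (b (l 16502072) (l 16522488)))) (c (b (a (l 16520328) (l 16529552)) (a (l 16542712) (l 16551768))) (a (b (l 16533456) (l 16554632)) (b (l 16543144) (l 16564040))))) (b (c (b (a (l 16495032) (l 16504704)) (a (l 16516888) (l 16526368))) (a (b (l 16512304) (l 16532440)) (b (l 16522544) (l 16542384)))) (c (a (b (l 16538816) (l 16560840)) (b (l 16548104) (l 16569912))) (a (b (l 16552816) (l 16573400)) (b (l 16562448) (l 16582704)))))) (c (b (a (b (a (l 16514416) (l 16524152)) (a (l 16535880) (l 16545392))) (a (b (l 16533904) (l 16554880)) (b (l 16543632) (l 16564344)))) (a (b (a (l 16557392) (l 16566656)) (a (l 16578960) (l 16587960))) (b (c (l 16576856) (l 16584168)) (a (l 16596904) (l 16605768))))) (a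 (b (a (b (l 16532776) (l 16552304)) (b (l 16542976) (l 16562168))) (a (b (l 16572024) (l 16591928)) (b (l 16581536) (l 16601056)))) (b (a (b (l 16553144) (l 16571976)) (b (l 16563248) (l 16581704))) (a (b (l 16590960) (l 16610104)) (b (l 16600312) (l 16619064))))))), by decide +kernel⟩

def k6_pp_022_t : ∃ t, chk3 f_pp_022_t t 8 14 1 = true :=
  ⟨(a (l 1) (a (b (l 1) (b (l 1) (l 14))) (b (a (l 1) (b (l 1) (a (b (l 1) (c (a (l 16539152) (l 16549632)) (a (l 16552416) (l 16556808)))) (b (c (a (l 16512608) (l 16527072)) (b (l 16512336) (l 16540040))) (c (a (l 16557528) (l 16561520)) (a (l 16561224) (l 16565648))))))) (b (a (b (a (l 1) (a (c (l 16560888) (l 16568408)) (c (b (l 16563896) (l 16576136)) (l 16572728)))) (a (a (b (l 1) (l 14)) (b (a (l 16580768) (l 16561832)) (l 16594360))) (c (a (l 16590848) (l 16594760)) (a (l 16593592) (l 16597880))))) (c (b (a (b (l 16548808) (l 16561064)) (a (l 16581856) (l 16585856))) (a (c (l 16599816) (l 16601544)) (c (l 16607608) (l 16609648))))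 (b (a (a (l 16577064) (l 16581416)) (a (l 16585776) (l 16590144))) (a (a (l 16602168) (l 16606456)) (c (l 16611792) (l 16614024)))))) (a (a (a (l 14) (b (c (l 16611992) (l 16614736)) (c (l 16643136) (l 16639896)))) (b (c (c (l 16619728) (l 16618632)) (a (l 16618960) (l 16623192))) (c (c (a (l 16640368) (l 16644240)) (b (l 16637480) (l 16650080))) (a (l 16644072) (l 16648240))))) (b (c (a (c (l 16628776) (l 16626656)) (c (l 16637888) (l 16634704))) (a (a (l 16627416) (l 16631640)) (b (l 16631696) (l 16644168)))) (c (a (a (c (l 16648120) (l 16649776)) (c (l 16652008) (l 16653760))) (c (b (l 16651512) (l 16664160)) (b (l 16653456) (l 16665976)))) (a (b (l 16648240) (l 16660648)) (a (l 16660664) (l 16643800)))))))))), by decide +kernel⟩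

def k7_pp_022_t : ∃ t, chk3 f_pp_022_t t 16 15 1 = true :=
  ⟨(l 14), by decide +kernel⟩

def k8_pp_022_t : ∃ t, chk3 f_pp_022_t t 34 30 1 = true :=
  ⟨(l 14), by decide +kernel⟩

def k9_pp_022_t : ∃ t, chk3 f_pp_022_t t 70 30 1 = true :=
  ⟨(a (a (l 14) (a (b (l 14) (l 14)) (b (b (c (l 16668776) (l 16665976)) (c (b (l 16682824) (l 16695848)) (b (l 16684808) (l 16697480)))) (b (c (b (l 16709032) (l 16724992)) (b (l 16710328) (l 16723392))) (b (c (b (l 16732504) (l 16739320)) (b (l 16733336) (l 16740032))) (b (c (l 16748816) (l 16746800)) (c (c (l 16753016) (l 16753248)) (c (l 16753488) (l 16753736))))))))) (b (b (c (b (c (l 16661376) (l 16662712)) (c (l 16674224) (l 16675424))) (a (b (l 16662792) (l 16675296)) (b (l 16666904) (l 16679360)))) (c (a (b (l 16685752) (l 16702704)) (b (l 16689648) (c (l 16702224) (l 16703080)))) (b (a (l 16687840) (l 16691864)) (a (l 16700480) (l 16704456))))) (b (c (b (a (c (l 16711616) (l 16712256)) (c (l 16715456) (l 16716128))) (a (c (l 16728944)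 (l 16725512)) (c (b (l 16725464) (l 16732200)) (l 16734592)))) (a (b (c (l 16712936) (l 16713648)) (c (l 16726040) (l 16726584))) (b (c (l 16716840) (l 16717584)) (c (l 16729888) (l 16730456))))) (b (b (c (a (c (l 16735176) (l 16735576)) (c (l 16738976) (l 16739384))) (c (a (l 16736000) (l 16739808)) (a (l 16736440) (l 16740256)))) (c (a (c (l 16742008) (l 16742352)) (c (l 16748424) (l 16746136))) (c (a (l 16742712) (l 16746488)) (c (l 16734400) (l 16734592))))) (b (a (c (c (a (l 16747960) (l 16749848)) (l 16743944)) (c (l 16749480) (l 16749792))) (c (c (a (l 16751736) (l 16753616)) (a (l 16752008) (l 16753880))) (a (l 16747200) (l 16749064)))) (a (c (a (c (l 16754912) (l 16755136)) (a (l 16756432) (l 16752128))) (c (l 16751056) (l 16751296))) (c (b (a (l 16757048) (l 16756296)) (c (a (l 16760424) (l 16762288)) (l 16756296))) (c (b (l 16758312) (l 16761720)) (l 16753680))))))))), by decide +kernel⟩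

def k10_pp_022_t : ∃ t, chk3 f_pp_022_t t 71 60 1 = true :=
  ⟨(c (b (a (b (c (l 16669128) (l 16670640)) (c (l 16681960) (l 16683296))) (a (b (l 16675736) (l 16688456)) (b (l 16679640) (l 16692328)))) (a (a (b (l 16693528) (c (l 16706064) (l 16706968))) (b (l 16697408) (c (l 16709896) (l 16710832)))) (b (a (l 16703888) (l 16710352)) (a (c (l 16713712) (l 16714672)) (c (l 16717512) (l 16718488)))))) (b (a (a (b (l 16670992) (l 16683408)) (b (l 16675072) (l 16687432))) (a (b (l 16679120) (l 16691432)) (b (l 16683152) (l 16695400)))) (a (b (a (l 16695864) (l 16699832)) (c (a (l 16707912) (l 16711800)) (l 16710864))) (a (b (l 16703776) (c (l 16715672) (l 16716712))) (b (l 16707680) (c (l 16719504) (l 16720560))))))), by decide +kernel⟩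

def k11_pp_022_t : ∃ t, chk3 f_pp_022_t t 71 122 1 = true :=
  ⟨(a (c (b (a (c (l 16719280) (l 16719976)) (c (l 16723088) (l 16723800))) (a (c (b (l 16729272) (l 16735992)) (b (l 16729840) (l 16736472))) (c (b (l 16733064) (l 16739760)) (b (l 16733632) (l 16740240))))) (b (c (a (l 16720712) (l 16724552)) (a (l 16721480) (l 16725336))) (c (a (l 16733704) (l 16727000)) (a (l 16734280) (l 16727576))))) (c (b (a (c (l 16732112) (l 16727600)) (c (l 16734408) (l 16731368))) (b (a (c (l 16736824) (l 16737392)) (c (l 16740560) (l 16741120))) (a (c (l 16743512) (l 16743976)) (c (l 16747224) (l 16747680))))) (b (c (c (l 16719568) (l 16719952)) (a (l 16729144) (l 16732920))) (c (a (l 16730744) (l 16734440)) (a (l 16731304) (l 16734992)))))), by decide +kernel⟩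

def k12_pp_022_t : ∃ t, chk3 f_pp_022_t t 71 246 1 = true :=
  ⟨(b (a (c (a (c (l 16742752) (l 16743160)) (c (l 16749128) (l 16746904))) (c (a (l 16743576) (l 16747312)) (a (l 16744024) (l 16747736)))) (c (a (a (l 16744248) (c (l 16751160) (l 16751528))) (c (a (l 16753008) (l 16754848)) (l 16749040))) (c (c (l 16744872) (l 16742440)) (c (l 16742640) (l 16742840))))) (c (c (a (a (a (l 16748624) (l 16750504)) (a (l 16752368) (l 16754232))) (a (a (l 16756080) (l 16757928)) (a (l 16759768) (l 16756352)))) (a (a (l 16749888) (l 16748368)) (a (b (l 16755616) (l 16758968)) (c (l 16750376) (l 16760992))))) (a (a (a (l 16749480) (l 16751336)) (a (l 16747936) (l 16749768))) (c (a (l 16747096) (l 16750704)) (a (l 16747400) (l 16750968)))))), by decide +kernel⟩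

def k13_pp_022_t : ∃ t, chk3 f_pp_022_t t 71 247 1 = true :=
  ⟨(b (a (a (c (a (c (l 16755488) (l 16755744)) (a (l 16757016) (l 16757944))) (c (l 16746448) (l 16746720))) (c (a (c (l 16753976) (l 16759448)) (a (l 16755472) (l 16756392))) (c (l 16755352) (l 16755600)))) (c (a (b (a (l 16756064) (l 16760512)) (c (c (l 16760256) (l 16765576)) (l 16760464))) (c (a (c (l 16761288) (l 16761360)) (c (l 16763112) (l 16763176))) (a (l 16761480) (l 16763280)))) (a (c (l 16758968) (l 16759176)) (c (a (l 16756408) (l 16758176)) (l 16762696))))) (a (c (c (b (a (a (l 16760680) (l 16762536)) (c (l 16760024) (l 16765344))) (a (a (l 16764152) (l 16766008)) (a (l 16762608) (l 16764448)))) (a (a (l 16757344) (l 16759192)) (a (l 16761016) (l 16762840)))) (a (c (c (l 16753160) (l 16753248)) (c (l 16753344) (l 16753440))) (c (a (l 16755928) (l 16757728)) (c (l 16756936) (l 16757016))))) (a (a (c (c (b (l 16768064) (l 16768896)) (l 16764648)) (c (l 16759512) (l 16759632))) (c (b (c (l 16764640) (l 16769992))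 (c (l 16770712) (l 16768144))) (c (l 16766536) (l 16761384)))) (a (c (c (b (l 16766456) (c (b (l 16769024) (l 16775968)) (l 64659380071))) (b (l 16766544) (l 64122508887))) (c (l 53921954535) (l 16768352))) (b (c (c (l 16770888) (l 16768320)) (l 16768416)) (b (c (a (l 16775648) (c (l 16776480) (l 16776496))) (c (l 16776080) (l 16776104))) (a (b (c (l 16777520) (l 16776872)) (c (c (l 122641450663) (l 16778024)) (l 16778264))) (c (c (l 217667600999) (l 156464318503)) (l 144116288087))))))))), by decide +kernel⟩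

def k14_pp_022_t : ∃ t, chk3 f_pp_022_t t 34 31 1 = true :=
  ⟨(l 14), by decide +kernel⟩

def k15_pp_022_t : ∃ t, chk3 f_pp_022_t t 70 248 1 = true :=
  ⟨(a (a (l 14) (a (l 14) (c (b (c (b (l 16758280) (l 16761808)) (l 16754968)) (a (b (l 16764944) (l 16765864)) (b (l 16765880) (l 16766800)))) (c (b (l 16760384) (l 16762096)) (b (l 16760568) (l 16762208)))))) (a (c (b (c (a (b (l 16760168) (l 16763696)) (a (l 16758096) (l 16759032))) (a (l 16756840) (l 16758704))) (b (c (a (l 16764608) (l 16765824)) (c (l 16763000) (l 16763048))) (a (c (c (l 16768152) (l 16765568)) (l 16765616)) (c (c (l 16770024) (l 16767424)) (l 16767464))))) (a (b (a (l 16756624) (l 16757552)) (c (l 16763944) (l 16764040))) (b (c (l 16753616) (l 16764256)) (c (l 16765776) (l 16765856))))) (c (b (a (c (b (l 16763920) (l 16764816)) (l 16760560)) (a (b (l 16765384) (l 16766256)) (b (l 16766312) (l 16767184)))) (b (a (a (l 16767920) (l 16768848)) (c (c (l 16770192) (l 16767592)) (l 16767632))) (a (c (a (l 16771432)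 (l 16772360)) (l 16771928)) (a (b (l 16772408) (a (l 16776536) (c (b (l 16776576) (l 83449873591)) (l 16776896)))) (b (l 16773328) (b (a (l 16776976) (l 86134227735)) (l 4))))))) (b (c (a (l 16755456) (l 16762528)) (a (l 16755600) (l 16757408))) (a (c (l 16767600) (l 16767656)) (a (b (l 16767264) (c (l 16775872) (l 16775888))) (b (l 16768168) (b (l 16775976) (a (l 61975036647) (l 124788934631)))))))))), by decide +kernel⟩

def k16_pp_022_t : ∃ t, chk3 f_pp_022_t t 142 248 1 = true :=
  ⟨(b (a (c (b (c (a (l 16762400) (l 16766872)) (c (l 16763408) (l 16763456))) (a (c (l 16767872) (l 16765976)) (a (l 16769936) (l 16770856)))) (a (c (l 16764344) (l 16759208)) (c (l 16766152) (l 16760992)))) (a (c (b (c (l 16768712) (l 16766168)) (c (a (l 16769120) (l 16772656)) (l 16772232))) (c (l 16767944) (l 16768000))) (b (c (c (l 16769880) (l 16767976)) (l 16769376)) (a (c (b (l 16775336) (b (l 16776616) (a (l 16777784) (l 146263770375)))) (c (l 16776776) (l 16776136))) (b (c (l 16775896) (l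 16776248)) (b (c (a (l 16777808) (l 151632479527)) (l 16778224)) (l 4))))))) (a (b (a (c (c (a (l 16771584) (l 16772504)) (l 16772080)) (b (l 16768656) (l 16772984))) (a (c (b (l 16772560) (b (l 16776488) (a (l 16777056) (l 114051515703)))) (c (l 16776000) (l 16776016))) (b (c (l 16774120) (l 16776120)) (b (c (a (l 16777080) (l 118883353943)) (l 16778152)) (l 4))))) (b (a (b (c (a (l 16776424) (a (l 16777032) (l 103850968423))) (a (l 16776440) (l 16777784))) (a (c (a (l 16777008) (l 93650421143)) (l 16777760)) (l 4))) (l 4)) (l 4))) (b (b (a (b (a (c (l 16776552) (l 16776568)) (c (a (l 16777112) (l 140895061223)) (l 16778192))) (a (c (a (l 16777104) (l 124252063095)) (l 16778168)) (l 4))) (l 4)) (l 4)) (l 4)))), by decide +kernel⟩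

def k17_pp_022_t : ∃ t, chk3 f_pp_022_t t 143 248 1 = true :=
  ⟨(b (a (b (a (a (c (l 16771928) (l 16774624)) (c (c (l 61975027047) (l 16775448)) (l 16775488))) (b (c (c (a (l 16770232) (l 16776352)) (l 16775928)) (c (l 16775944) (l 16775968))) (b (a (c (l 16776744) (l 16776760)) (a (a (l 55532586311) (l 113514644791)) (l 4))) (a (c (a (l 16777872) (l 187065959623)) (l 16778280)) (l 4))))) (b (a (b (a (c (l 16776680) (l 16776696)) (c (a (l 16777848) (l 178476025079)) (l 16778264))) (a (c (a (l 16777832) (l 169886090391)) (l 16778248)) (l 4))) (l 4)) (l 4))) (b (b (a (a (b (c (l 16776800) (l 16776816)) (c (c (l 110293418391) (l 16777992)) (l 16778232))) (c (c (l 211225149991) (l 140895062231)) (l 135526353511))) (l 4)) (l 4)) (l 4))) (l 4)), by decide +kernel⟩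

def k18_pp_022_t : ∃ t, chk3 f_pp_022_t t 35 249 1 = true :=
  ⟨(a (a (a (l 14) (a (l 14) (a (b (b (c (c (l 16769408) (l 16772080)) (l 16766920)) (c (b (l 16772112) (c (b (l 16776080) (a (l 16776736) (l 16777752))) (l 16776480))) (c (l 16775624) (l 16775640)))) (a (a (l 14) (a (l 14) (l 4))) (l 4))) (b (c (b (c (l 16770344) (l 16767768)) (b (l 16773704) (b (c (a (l 16776760) (l 16777760)) (l 16776920)) (c (l 214446375319) (l 148948125191))))) (b (l 16767832) (b (l 16775704) (b (l 16776928) (l 136600094695))))) (l 4))))) (b (a (b (a (c (c (a (l 16771280) (l 16772208)) (l 16771776)) (a (l 16768744) (l 16769656))) (a (c (b (l 16772264) (a (l 16776416) (c (b (l 16776440) (l 54458844359)) (l 16776800)))) (c (l 16775752) (l 16775768))) (c (b (l 16773184) (b (a (l 16776872) (a (l 16777136) (l 95261033543))) (c (l 232699986407) (l 174717928887)))) (b (l 16775840) (b (l 16777672) (l 169349220263)))))) (a (a (b (c (c (b (l 16776144) (a (l 16776792) (l 16777784))) (l 16776536)) (a (l 16776376)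 (l 16776760))) (a (a (c (l 224110051815) (l 166664865367)) (l 4)) (l 4))) (b (b (c (c (a (l 16776816) (l 48016392103)) (l 16776968)) (l 16776976)) (c (c (l 223036309959) (l 156464318007)) (l 151632480119))) (l 4))) (a (a (c (b (l 238605566551) (l 4)) (l 252564210775)) (l 4)) (l 4)))) (b (a (a (a (b (c (l 16776472) (l 16776496)) (c (l 246121759367) (l 193508411111))) (b (b (l 16775216) (c (a (l 16777160) (l 114588386247)) (l 16777208))) (l 4))) (b (c (a (b (l 16776928) (l 187065959607)) (c (l 196729635143) (l 120493967111))) (b (l 16777712) (l 183307863879))) (l 4))) (l 4)) (l 4))) (l 4))) (l 4)), by decide +kernel⟩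

def k19_pp_022_t : ∃ t, chk3 f_pp_022_t t 35 125 1 = true :=
  ⟨(l 4), by decide +kernel⟩

def k20_pp_022_t : ∃ t, chk3 f_pp_022_t t 35 63 1 = true :=
  ⟨(l 4), by decide +kernel⟩

def k21_pp_022_t : ∃ t, chk3 f_pp_022_t t 18 28 1 = true :=
  ⟨(a (a (b (a (b (l 1) (c (b (l 16493120) (l 16515344)) (b (l 16497792) (l 16520008)))) (b (c (b (l 16478016) (l 16494856)) (b (l 16483920) (l 16495408))) (c (l 16522880) (l 16533808)))) (a (b (c (a (l 16541576) (l 16545624)) (l 16548288)) (c (l 16570184) (l 16572312))) (b (c (l 16551752) (l 16557336)) (c (a (l 16573664) (l 16577752)) (l 16581216))))) (b (a (b (c (l 16492128) (l 16520000)) (c (l 16536424) (l 16543040))) (b (c (l 16500576) (l 16529400)) (c (l 16544832) (l 16552280)))) (c (b (a (l 16560024) (a (l 16566288) (l 16570480))) (a (c (l 16582456) (l 16585424)) (c (l 16590592) (l 16593840)))) (a (b (l 16566416) (l 16590120)) (b (l 16575472) (l 16604216)))))) (b (a (c (b (a (l 16530128) (l 16538800)) (a (l 16553344) (l 16566512))) (a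 (b (l 16538816) (l 16561504)) (b (l 16548208) (l 16570680)))) (c (b (a (l 16547560) (l 16556376)) (a (c (l 16568360) (l 16572792)) (c (l 16576936) (l 16581544)))) (a (b (l 16557568) (l 16579792)) (b (l 16566864) (l 16588808))))) (a (c (a (b (c (l 16574976) (l 16578664)) (c (l 16598792) (l 16602264))) (b (c (l 16583328) (l 16587240)) (c (l 16607032) (l 16610680)))) (a (b (l 16584488) (a (l 16605568) (l 16609936))) (b (l 16593424) (l 16595456)))) (c (a (b (c (l 16591728) (l 16595816)) (c (l 16615296) (l 16619056))) (b (c (l 16600160) (l 16604368)) (c (l 16623568) (l 16627376)))) (a (b (l 16602272) (l 16604008)) (b (l 16610992) (l 16612408))))))), by decide +kernel⟩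

def k22_pp_022_t : ∃ t, chk3 f_pp_022_t t 36 29 1 = true :=
  ⟨(b (a (c (b (a (c (l 16590752) (l 16593048)) (c (l 16598704) (l 16601304))) (a (c (l 16615472) (l 16617792)) (c (l 16623384) (l 16625952)))) (b (a (c (l 16595448) (l 16597968)) (c (l 16604032) (l 16606872))) (a (b (l 16615200) (l 16627656)) (b (l 16623800) (l 16636152))))) (c (b (a (c (l 16606720) (l 16609592)) (c (l 16614784) (l 16617880))) (a (c (l 16631328) (l 16634112)) (c (l 16639296) (l 16642232)))) (b (a (a (l 16611976) (l 16616304)) (a (l 16620616) (l 16624904))) (a (b (l 16632336) (l 16644576)) (b (l 16640768) (l 16652872)))))) (a (b (c (a (c (l 16647032) (l 16648000)) (c (l 16654888) (b (l 16644568) (l 16656984)))) (a (b (l 16640136) (l 16652504)) (b (l 16648520) (l 16660776)))) (b (c (a (c (l 16659312) (l 16661432)) (c (l 16667104) (l 16669360))) (a (l 16664776) (a (l 16670896) (l 16674944)))) (c (a (c (l 16671920) (l 16673888)) (a (l 16678744) (l 16682632))) (a (a (l 16674960) (l 16678992)) (a (l 16683008)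 (l 16686984)))))) (c (b (a (c (b (l 16649952) (l 16662408)) (b (l 16652616) (l 16664944))) (b (c (l 16657824) (l 16660600)) (c (l 16670216) (l 16672832)))) (a (a (b (l 16674088) (l 16686504)) (b (l 16677984) (l 16690352))) (a (b (l 16681864) (l 16694184)) (b (l 16685728) (l 16697992))))) (b (a (b (l 16656816) (l 16647968)) (a (l 16648016) (l 16652016))) (a (c (b (l 16679688) (l 16691736)) (l 16667200)) (c (b (l 16687520) (l 16699424)) (l 16674992))))))), by decide +kernel⟩

def k23_pp_022_t : ∃ t, chk3 f_pp_022_t t 37 29 1 = true :=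
  ⟨(b (a (c (c (b (a (l 16622872) (l 16630984)) (a (l 16652504) (l 16660456))) (b (a (l 16626136) (l 16634360)) (a (l 16655552) (l 16663544)))) (b (a (a (l 16629168) (l 16633392)) (c (l 16637864) (l 16641512))) (a (b (l 16649080) (l 16661024)) (a (l 16661168) (l 16644184))))) (c (c (b (a (l 16639088) (l 16647168)) (a (b (l 16657064) (l 16669144)) (b (l 16664992) (l 16676952)))) (b (a (l 16642512) (l 16650584)) (a (l 16671456) (l 16653024)))) (b (a (c (l 16646072) (l 16649768)) (c (l 16654128) (l 16657808))) (a (a (l 16648128) (l 16652016)) (a (l 16655856) (l 16659632)))))) (a (c (b (a (a (b (l 16665120) (l 16677352)) (b (l 16669040) (l 16681224))) (a (b (l 16672952) (l 16685072)) (b (l 16676840) (l 16688896)))) (b (a (c (l 16690280) (l 16692688)) (c (l 16697888) (l 16700240))) (a (a (l 16701776) (l 16705528)) (a (l 16709256) (l 16712944))))) (b (a (b (l 16652000) (c (l 16683368) (l 16686216))) (b (l 16659808) (c (l 16691024) (l 16693840)))) (a (c (c (l 16679520) (l 16680720)) (b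 (l 16697784) (l 16709224))) (c (c (l 16686928) (l 16688088)) (b (l 16705200) (l 16716432)))))) (b (c (a (c (b (l 16681248) (l 16693336)) (b (l 16684024) (l 16695864))) (c (b (l 16688936) (l 16700896)) (b (l 16691592) (l 16703272)))) (a (c (b (l 16686904) (l 16698480)) (l 16674600)) (c (b (l 16694344) (l 16705744)) (l 16681816)))) (b (c (a (c (l 16705416) (l 16707640)) (c (l 16712832) (l 16714896))) (a (c (l 16709952) (l 16712344)) (c (l 16717032) (l 16719248)))) (c (a (a (l 16716608) (l 16709752)) (a (l 16713344) (l 16716896))) (a (c (l 16721344) (l 16723384)) (a (l 16727480) (l 16709864)))))))), by decide +kernel⟩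

def k24_pp_022_t : ∃ t, chk3 f_pp_022_t t 19 28 2 = true :=
  ⟨(a (b (a (a (b (c (l 16562656) (l 16567856)) (c (l 16585560) (l 16590280))) (b (c (l 16571472) (l 16576784)) (c (l 16594208) (l 16598976)))) (a (b (c (l 16580296) (l 16585696)) (c (l 16602832) (l 16607624))) (b (c (l 16589104) (l 16594560)) (c (l 16611416) (l 16616192))))) (a (a (b (c (l 16608616) (l 16612872)) (c (l 16631832) (l 16635632))) (b (c (l 16617064) (l 16621312)) (c (l 16640064) (l 16643784)))) (b (a (c (l 16625472) (l 16629664)) (c (l 16633800) (l 16637944))) (a (c (l 16648216) (l 16651840)) (c (l 16656280) (l 16659792)))))) (b (a (b (a (c (l 16597880) (l 16603360)) (c (l 16606592) (l 16612088))) (a (c (l 16619936) (l 16624696)) (c (l 16628368) (l 16633104)))) (b (a (l 16596984) (l 16626504)) (a (l 16618064) (l 16626272)))) (b (a (a (c (l 16642048) (l 16646120)) (c (l 16650176) (l 16654200))) (a (c (l 16658168) (l 16662168)) (c (l 16666000) (l 16670016)))) (a (a (c (l 16664216) (l 16667640)) (c (l 16672008)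 (l 16675368))) (a (c (l 16679632) (l 16682976)) (c (l 16687096) (l 16690440))))))), by decide +kernel⟩

def k25_pp_022_t : ∃ t, chk3 f_pp_022_t t 38 29 2 = true :=
  ⟨(b (a (b (a (b (l 16651048) (l 16646944)) (b (l 16659040) (l 16649544))) (a (c (b (l 16672856) (l 16684688)) (l 16660696)) (c (b (l 16680640) (l 16692320)) (l 16668224)))) (b (a (b (l 16666928) (l 16657280)) (a (l 16657408) (l 16661216))) (a (c (b (l 16688288) (l 16699816)) (l 16675632)) (c (b (l 16695792) (l 16707136)) (l 16682904))))) (a (b (b (a (c (l 16696536) (l 16699016)) (c (l 16704016) (l 16706304))) (a (c (l 16708344) (l 16710536)) (c (l 16715664) (l 16717648)))) (b (a (c (l 16709640) (l 16721992)) (a (l 16715864) (l 16719344))) (a (a (l 16720408) (l 16723888)) (a (l 16726008) (a (l 16740352) (l 16742032)))))) (b (b (a (c (l 16711336) (l 16713440)) (c (l 16718480) (l 16720432))) (a (a (l 16721952) (l 16725440)) (a (l 16707904) (l 16711288)))) (b (a (a (l 16722776) (l 16726160)) (a (l 16729504) (l 16732792)))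 (a (c (c (l 16734864) (l 16724928)) (l 16736256)) (c (a (l 16740072) (l 16743304)) (l 16742648))))))), by decide +kernel⟩

def k26_pp_022_t : ∃ t, chk3 f_pp_022_t t 39 29 2 = true :=
  ⟨(a (b (b (a (a (l 16664992) (l 16668728)) (a (l 16672424) (l 16676080))) (c (a (b (l 16703128) (l 16714272)) (c (l 16694272) (l 16695344))) (a (l 16690024) (l 16696992)))) (b (b (c (a (l 16725416) (l 16711200)) (c (l 16714432) (l 16710096))) (a (c (l 16726016) (l 16717056)) (c (l 16732576) (l 16723488)))) (a (b (a (l 16736032) (l 16739224)) (c (a (l 16746488) (l 16749616)) (a (l 16736816) (l 16739856)))) (c (b (a (l 16731360) (l 16734496)) (a (l 16752704) (l 16755744))) (b (l 16744424) (a (l 16742832) (l 16745760))))))) (a (b (b (b (l 16676184) (l 16686776)) (c (a (l 16699968) (l 16703352)) (l 16703776))) (b (c (b (l 16717776) (l 16738960)) (a (l 16723008) (l 16726120))) (b (c (a (l 16748072) (l 16751112)) (l 16750392)) (a (a (l 16758184) (l 16759640)) (b (l 16759208) (a (l 16774128) (b (l 16774248)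 (l 16778928)))))))) (b (b (c (l 16687216) (l 16689904)) (c (a (l 16706704) (l 16710008)) (l 16710376))) (b (a (b (l 16723328) (l 16744152)) (b (l 16726440) (l 16747144))) (b (c (b (l 16752968) (l 16760792)) (l 16756136)) (b (a (l 16767288) (b (l 16774064) (a (l 16775856) (c (l 16776912) (l 16776920))))) (a (c (b (b (l 16775648) (l 16779360)) (l 248806107495)) (b (l 16776200) (l 246658622103))) (b (l 251490462615) (l 4))))))))), by decide +kernel⟩

def k27_pp_022_t : ∃ t, chk3 f_pp_022_t t 19 28 3 = true :=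
  ⟨(a (b (a (a (b (l 16576056) (l 16597704)) (b (l 16585160) (l 16606480))) (a (b (l 16594192) (l 16615160)) (b (l 16603136) (l 16623712)))) (a (a (b (l 16619560) (c (l 16639568) (l 16643664))) (b (l 16627984) (c (l 16647648) (l 16651656)))) (a (b (l 16615296) (c (l 16655608) (l 16659512))) (b (l 16623480) (c (l 16663448) (l 16667240)))))) (b (b (a (a (l 16611976) (l 16620728)) (a (l 16629384) (l 16637992))) (a (a (l 16632176) (l 16640536)) (a (l 16648832) (l 16636096)))) (b (a (a (l 16631552) (l 16639544)) (a (l 16647472) (l 16655360))) (c (a (a (l 16671200) (l 16678856)) (a (l 16686440) (l 16693896))) (a (l 16657720) (c (l 16671888) (l 16673712))))))), by decide +kernel⟩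

def k28_pp_022_t : ∃ t, chk3 f_pp_022_t t 19 29 3 = true :=
  ⟨(a (b (a (b (a (c (l 16662008) (l 16665592)) (c (l 16669728) (l 16673184))) (a (b (l 16659544) (l 16676000)) (b (l 16666896) (l 16683160)))) (b (a (c (l 16677320) (l 16680616)) (c (l 16684808) (l 16687960))) (a (c (l 16678248) (l 16680968)) (c (l 16685368) (l 16687928))))) (a (b (c (a (b (l 16701592) (l 16712808)) (b (l 16708672) (l 16719712))) (a (l 16688776) (l 16695552))) (a (c (a (l 16706816) (l 16710176)) (a (l 16708688) (l 16711928))) (c (a (l 16713488) (l 16716760)) (a (l 16715128) (l 16718296))))) (a (b (c (l 16700112) (l 16702224)) (c (a (l 16720008) (l 16723216)) (b (l 16717832) (l 16728120)))) (b (c (c (l 16706384) (l 16707344)) (a (l 16707160) (l 16710432))) (b (c (l 16722696) (l 16724112)) (c (l 16733136) (l 16734152))))))) (a (a (b (b (a (l 16670904) (l 16674544)) (c (l 16692384) (l 16694832))) (b (c (a (l 16711824) (l 16715072)) (c (l 16714808) (l 16715728))) (b (c (l 16728952) (l 16730208)) (c (l 16739144)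 (l 16739968))))) (b (b (a (l 16678160) (l 16681776)) (c (l 16699256) (l 16701600))) (c (b (l 16722488) (b (l 16734968) (l 16755368))) (b (c (l 16721128) (l 16721984)) (c (l 16745824) (l 16746256)))))) (b (c (b (c (l 16688488) (l 16689912)) (a (l 16705968) (l 16712464))) (b (c (l 16691352) (l 16692824)) (a (l 16708232) (l 16714624)))) (b (a (c (a (l 16724528) (l 16727560)) (b (l 16722784) (l 16732288))) (b (c (l 16727136) (l 16728696)) (c (l 16736760) (l 16737872)))) (a (a (b (l 16739768) (l 16759704)) (b (l 16763496) (a (l 16772144) (l 58753787687)))) (a (b (l 16766184) (b (l 16773040) (b (l 16777608) (a (l 16779656) (l 4))))) (b (l 16768800) (b (a (l 16774904) (l 16776000)) (l 252027319191))))))))), by decide +kernel⟩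

def k29_pp_022_t : ∃ t, chk3 f_pp_022_t t 72 60 1 = true :=
  ⟨(b (b (c (a (a (l 16683528) (l 16687408)) (a (l 16691272) (l 16695120))) (a (a (l 16687152) (l 16691128)) (c (l 16696040) (l 16698032)))) (c (a (a (l 16696184) (l 16700032)) (a (l 16703856) (c (l 16706872) (l 16708456)))) (a (c (l 16700480) (l 16702136)) (c (l 16708200) (l 16709904))))) (c (a (b (a (c (l 16708304) (l 16709568)) (c (l 16712096) (l 16713376))) (a (c (l 16721288) (l 16722272)) (c (l 16725040) (l 16726032)))) (c (b (a (l 16715872) (l 16719624)) (a (l 16728776) (b (l 16729256) (l 16735712)))) (a (b (l 16717160) (l 16729760)) (b (l 16720912) (l 16733456))))) (a (c (b (a (l 16710880) (l 16714704)) (a (l 16723296) (l 16727056))) (b (l 16714168) (a (l 16724368) (l 16728128)))) (c (b (a (l 16718496) (l 16722256)) (a (l 16730784) (l 16734464))) (b (l 16711288) (a (l 16731840) (l 16735512))))))), by decide +kernel⟩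

def k30_pp_022_t : ∃ t, chk3 f_pp_022_t t 73 60 1 = true :=
  ⟨(b (b (c (a (a (l 16698944) (l 16702744)) (a (l 16706520) (l 16710272))) (a (c (l 16703752) (l 16705784)) (c (l 16711296) (l 16713312)))) (c (c (a (a (l 16710640) (l 16714400)) (a (l 16718128) (l 16721832))) (a (l 16703632) (a (l 16719696) (l 16723368)))) (a (a (l 16704256) (l 16707992)) (a (l 16711672) (l 16715296))))) (b (a (c (a (c (l 16723352) (l 16724632)) (c (l 16727064) (l 16728320))) (c (a (l 16725968) (l 16729624)) (l 16718688))) (c (a (c (l 16730736) (l 16731960)) (b (l 16731864) (l 16727584))) (c (a (l 16733232) (l 16736784)) (l 16725816)))) (a (b (c (a (l 16722976) (l 16729240)) (c (l 16736856) (l 16737944))) (c (a (c (l 16739376) (l 16740240)) (c (l 16743016) (l 16743832))) (c (l 16732432) (l 16733344)))) (c (a (c (b (l 16740248) (l 16746624)) (l 16733808)) (c (b (l 16743856) (l 16750192)) (l 16737336))) (c (c (l 16736224) (l 16736656)) (c (l 16726616) (l 16727072))))))), by decide +kernel⟩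

def k31_pp_022_t : ∃ t, chk3 f_pp_022_t t 72 122 1 = true :=
  ⟨(c (b (c (a (a (b (l 16731088) (l 16737664)) (b (l 16734816) (l 16741368))) (a (b (l 16738520) (l 16745048)) (a (l 16734040) (l 16738480)))) (a (a (l 16735104) (l 16728320)) (a (b (l 16739280) (l 16745664)) (b (l 16742920) (l 16749280))))) (b (a (a (c (l 16744272) (l 16744816)) (c (l 16747952) (l 16748472))) (a (c (l 16746360) (l 16752088)) (a (l 16749304) (l 16751088)))) (a (a (a (l 16750208) (l 16746800)) (a (l 16748616) (l 16750432))) (c (a (b (l 16756544) (l 16759848)) (c (l 16756464) (l 16751376))) (a (l 16748064) (l 16756848)))))) (c (b (a (a (l 16735856) (l 16739544)) (a (l 16743192) (l 16736304))) (a (a (l 16738096) (c (l 16741584) (l 16741832))) (a (a (l 16744384) (l 16746160)) (a (l 16747912) (l 16749656))))) (b (a (c (l 16727800) (l 16728192)) (a (l 16733448) (l 16737016))) (a (a (l 16738624) (b (l 16749576) (l 16755808))) (a (c (l 16745616) (l 16745848)) (c (l 16749088) (l 16749296))))))), by decide +kernel⟩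

def k32_pp_022_t : ∃ t, chk3 f_pp_022_t t 72 246 1 = true :=
  ⟨(a (c (a (b (c (c (l 16752280) (l 16757672)) (l 16752672)) (c (a (l 16758168) (l 16759984)) (c (l 16759232) (l 16754096)))) (b (c (a (l 16760320) (l 16756888)) (l 16756264)) (b (a (l 16760200) (l 16763296)) (c (c (l 16764328) (l 16764392)) (l 16764496))))) (a (c (a (l 16750120) (l 16754512)) (c (l 16751216) (l 16751360))) (b (c (l 16751304) (l 16751608)) (c (l 16763008) (l 16757936))))) (a (c (b (c (a (l 16758688) (l 16760472)) (c (l 16754512) (l 16754624))) (c (b (c (l 16764544) (l 16764608)) (a (l 16767040) (l 16768808))) (b (l 16764712) (l 16768000)))) (c (b (l 16754808) (l 16766464)) (b (l 16755056) (l 16766576)))) (b (c (c (a (l 16762256) (l 16764024)) (a (l 16757200) (l 16758936))) (c (l 16758256) (l 16758440))) (b (c (c (a (l 16767232) (l 16768992)) (l 16768192)) (a (l 16762224) (l 16774384))) (a (a (c (l 16772760) (l 16775456)) (c (b (l 16775432) (c (c (l 16777896) (l 16776912)) (l 16776920))) (l 16776856)))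 (b (a (c (l 16776280) (l 16776320)) (c (a (l 16776856) (l 51237618471)) (l 16776984))) (a (b (c (l 80765518631) (l 16777248)) (l 4)) (l 4)))))))), by decide +kernel⟩

def k33_pp_022_t : ∃ t, chk3 f_pp_022_t t 144 247 1 = true :=
  ⟨(b (a (c (c (b (c (l 16764120) (l 16764184)) (a (l 16766648) (l 16768440))) (b (l 16764280) (a (l 16761488) (l 16768504)))) (c (a (l 16759936) (l 16761680)) (l 16766160))) (b (c (c (a (l 16766840) (l 16768624)) (l 16768464)) (c (l 16767880) (l 16762720))) (a (c (a (l 16772424) (b (l 16775088) (c (l 16777328) (l 16776680)))) (c (l 16775488) (l 16775520))) (b (a (c (l 16775968) (l 16776016)) (c (a (l 16776592) (l 16777920)) (l 16776760))) (a (c (b (a (l 16776960) (l 16777232)) (l 179549767511)) (l 74323068327)) (l 4)))))) (a (a (b (c (a (l 16772256) (b (l 16769672) (c (l 16776544) (l 16776560)))) (c (l 16775336) (l 16775376))) (b (a (b (c (c (l 16776920) (l 16776920)) (l 16776928)) (c (c (l 139821319751) (l 16778048)) (l 132305127367))) (c (l 220888826519)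 (l 166664866279))) (l 4))) (b (b (c (a (l 16775808) (c (l 16776608) (l 16776624))) (c (l 16776216) (l 16776240))) (a (b (c (a (l 16776832) (l 16777144)) (l 16776984)) (c (l 150021867367) (l 148948125543))) (c (l 235921212103) (l 176328542663)))) (l 4))) (b (b (a (a (c (b (a (l 16776896) (l 16777192)) (l 159685543847)) (l 65733133735)) (c (l 243974275831) (l 186529089943))) (l 4)) (l 4)) (l 4)))), by decide +kernel⟩

def k34_pp_022_t : ∃ t, chk3 f_pp_022_t t 145 247 1 = true :=
  ⟨(b (a (a (a (b (c (l 16772592) (l 16775288)) (b (a (b (l 16777680) (l 4)) (c (l 129620772215) (l 16778064))) (l 4))) (b (c (b (l 16775256) (c (c (l 16776792) (l 16776800)) (l 16776808))) (l 16776064)) (l 4))) (b (b (c (a (l 16776128) (c (c (l 16777512) (l 16776856)) (l 16776864))) (c (l 16776480) (l 16776496))) (a (b (c (a (l 16777072) (l 16777312)) (l 16777160)) (l 4)) (l 4))) (l 4))) (b (b (a (a (b (a (a (l 16777072) (l 16777200)) (l 128547030727)) (l 4)) (l 4)) (l 4)) (l 4)) (l 4))) (l 4)), by decide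 +kernel⟩

def k35_pp_022_t : ∃ t, chk3 f_pp_022_t t 73 61 2 = true :=
  ⟨(b (b (b (a (a (c (l 16745824) (l 16746528)) (c (l 16749432) (l 16750088))) (a (c (l 16753008) (l 16753600)) (c (l 16751304) (l 16757072)))) (a (a (c (l 16752304) (l 16752848)) (c (l 16750632) (l 16756368))) (a (a (l 16753512) (l 16755256)) (a (l 16756992) (l 16758712))))) (b (a (a (a (l 16752872) (l 16754640)) (c (b (l 16760728) (l 16758728)) (l 16752200))) (c (b (a (l 16759000) (l 16762472)) (a (l 16762224) (l 16765680))) (a (l 16760880) (l 16764272)))) (a (a (c (a (l 16759208) (l 16760976)) (l 16760344)) (c (a (l 16762728) (l 16764480)) (l 16762480))) (b (a (c (l 16766112) (l 16760360)) (c (a (l 16768040) (l 16774984)) (l 16768960))) (a (a (l 16769192) (l 44795154727)) (a (b (l 16775712) (a (l 16777440) (c (l 93650422007) (l 16777296)))) (a (b (l 16777832) (l 4)) (a (l 199950860951) (l 237531825127))))))))) (b (a (b (b (a (a (l 16764216) (l 16767264)) (c (c (l 16768480) (l 16768520)) (l 16768576))) (a (c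 (a (l 16767432) (l 16769176)) (l 16768384)) (a (a (l 16775384) (b (l 16775784) (a (l 16777032) (l 86134229015)))) (a (b (l 16776576) (l 218741342839)) (b (a (l 16777064) (l 100629743559)) (l 4)))))) (a (a (a (b (l 16772928) (a (b (l 110830290999) (l 4)) (l 252564210807))) (b (b (l 16775608) (a (l 16776912) (l 64659391207))) (l 4))) (b (b (a (l 16776432) (a (l 16776976) (l 74859939863))) (c (l 213909504791) (l 214446375687))) (l 4))) (a (a (a (b (l 232699986871) (l 4)) (l 4)) (l 4)) (l 4)))) (b (a (b (a (b (l 16775536) (a (l 16776648) (c (l 74323067847) (l 16777208)))) (a (b (l 16776720) (l 244511146727)) (b (c (l 80765518887) (l 16777256)) (l 4)))) (a (a (l 242900534455) (l 4)) (l 4))) (l 4)) (l 4))) (l 4))), by decide +kernel⟩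

def k36_pp_022_t : ∃ t, chk3 f_pp_022_t t 73 61 3 = true :=
  ⟨(b (a (b (c (a (l 16739848) (l 16743336)) (a (l 16740520) (l 16743952))) (c (b (c (l 16750744) (l 16750944)) (a (l 16755360) (l 16758736))) (b (c (l 16751136) (l 16751344)) (a (l 16755632) (l 16758936))))) (b (c (a (l 16746768) (l 16750144)) (a (l 16747312) (l 16750608))) (a (b (c (l 16755912) (l 16756192)) (c (l 16762064) (l 16762184))) (a (b (l 16758512) (b (l 16773520) (c (l 16777664) (l 16776376)))) (b (l 16760136) (b (l 16775120) (b (c (l 16777040) (l 16777048)) (l 4)))))))) (b (a (b (a (c (l 16766888) (l 16761760)) (a (a (l 16768992) (c (l 16774960) (l 16775016))) (b (l 16774752) (b (c (l 16776856) (l 16776864)) (a (l 152706222615) (l 4)))))) (a (a (b (c (l 16775928) (l 16775960)) (a (l 215520117687) (l 4))) (b (c (b (l 16776736) (l 150021868535)) (a (l 16778864) (l 97945390455))) (l 4))) (a (c (l 248806115623) (l 251490470151)) (l 4)))) (b (a (a (b (c (l 16776216) (l 16776240)) (l 245584889239)) (b (b (c (l 16776968)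 (l 16776976)) (l 179549769399)) (l 4))) (l 4)) (l 4))) (l 4))), by decide +kernel⟩

def k37_pp_022_t : ∃ t, chk3 f_pp_022_t t 37 120 1 = true :=
  ⟨(a (b (c (a (a (l 16703512) (l 16707200)) (c (a (l 16720488) (l 16724152)) (l 16713528))) (a (a (l 16717800) (l 16700424)) (a (l 16703952) (l 16707424)))) (c (a (c (a (l 16725520) (l 16729168)) (a (l 16727000) (l 16730592))) (a (a (l 16732568) (l 16734352)) (a (l 16736128) (l 16737888)))) (a (c (l 16709344) (l 16710912)) (c (l 16726792) (l 16728208))))) (c (b (c (a (a (l 16727776) (l 16731368)) (a (l 16734928) (l 16738448))) (a (l 16720624) (l 16727552))) (a (a (a (l 16729160) (l 16730904)) (a (l 16732640) (l 16734368))) (c (a (l 16736432) (l 16739864)) (c (l 16738872) (l 16728872))))) (b (c (a (l 16711720) (l 16718456)) (a (l 16713368) (l 16719904))) (a (c (l 16733544) (l 16734776)) (c (l 16740096) (l 16741128)))))), by decide +kernel⟩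

def k38_pp_022_t : ∃ t, chk3 f_pp_022_t t 37 121 1 = true :=
  ⟨(a (c (a (b (c (a (l 16727520) (l 16731112)) (c (l 16730128) (l 16730680))) (c (a (a (l 16739208) (l 16740976)) (a (l 16742728) (l 16744480))) (a (l 16740816) (l 16744256)))) (a (b (a (l 16734264) (l 16736008)) (c (a (l 16746216) (l 16750560)) (l 16747648))) (b (c (b (l 16745576) (l 16751736)) (l 16739056)) (a (b (l 16757344) (l 16752952)) (b (l 16759040) (l 16759872)))))) (a (b (c (b (l 16739080) (l 16744928)) (b (l 16740344) (l 16725016))) (c (a (l 16731088) (l 16744928)) (a (l 16731864) (l 16735144)))) (b (c (c (l 16727576) (l 16728064)) (c (l 16728560) (l 16729064))) (a (c (l 16748240) (l 16748848)) (c (l 16751496) (l 16752008)))))) (a (a (c (b (c (b (l 16749072) (l 16755184)) (l 16742440)) (a (b (l 16750232) (l 16761528)) (b (l 16751904) (l 16763184)))) (b (c (l 16732776) (l 16733624)) (c (l 16754696) (l 16755120)))) (c (b (c (c (l 16744904) (l 16745248)) (l 16745776)) (b (c (l 16759440) (l 16754592)) (a (l 16764816)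 (l 16766440)))) (b (c (l 16736016) (l 16736768)) (b (l 16760448) (c (l 16750208) (l 16771392)))))) (b (c (a (c (c (l 16748320) (l 16748616)) (l 16749064)) (c (c (l 16754304) (l 16751928)) (l 16752304))) (b (c (l 16748472) (l 16738688)) (c (l 16754056) (l 16754544)))) (a (c (b (c (l 16762760) (l 16757808)) (a (l 16768056) (a (l 16769232) (b (l 16763320) (b (l 16776032) (l 16778504)))))) (b (l 16763520) (c (l 16774184) (l 16774296)))) (b (c (a (l 16765320) (l 16766920)) (l 16763904)) (a (c (b (l 16775000) (b (a (l 16776752) (l 16778560)) (l 237531825079))) (b (l 16775152) (c (l 80765522183) (l 81839263847)))) (b (c (a (l 16776128) (b (l 16776232) (l 92576680615))) (l 16777768)) (l 4)))))))), by decide +kernel⟩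

def k39_pp_022_t : ∃ t, chk3 f_pp_022_t t 74 122 1 = true :=
  ⟨(b (a (a (c (a (b (l 16748920) (l 16760424)) (b (l 16755880) (l 16762128))) (c (l 16753464) (l 16753856))) (c (b (c (l 16758256) (l 16753384)) (c (a (l 16758464) (l 16765408)) (l 16759512))) (b (a (l 16763640) (l 16754768)) (c (l 16759712) (l 16749432))))) (a (a (c (b (l 16760976) (c (l 16767088) (l 16761976))) (b (l 16756368) (l 16772672))) (c (b (l 16762648) (a (l 16768400) (b (l 16762440) (l 16775960)))) (b (l 16757952) (l 16768968)))) (a (b (c (l 16764312) (l 16759528)) (a (b (l 16771224) (c (b (l 16776048) (l 75396808823)) (l 16776664))) (b (l 16772016) (b (a (l 16776648) (l 16778280)) (l 4))))) (b (c (c (l 16760632) (l 16760808)) (l 16771568)) (b (c (c (l 16775712) (l 16775752)) (l 16775824)) (a (b (c (l 85597358791) (l 16777224)) (l 4)) (l 4))))))) (a (b (a (c (c (a (l 16766648) (l 52848213799)) (b (l 16760816) (l 16769160))) (a (l 16761744) (l 16768576))) (a (b (c (l 16768496) (l 16773928)) (b (c (l 16776064)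 (l 16776128)) (a (c (c (l 16777008) (l 16777016)) (l 16777024)) (c (l 132841998919) (l 16777456))))) (b (c (c (l 16775352) (l 16775400)) (l 16775480)) (a (b (c (c (l 16777056) (l 16777064)) (l 16777080)) (l 4)) (c (l 232163116071) (l 173644189303)))))) (a (b (b (a (c (l 16775888) (l 16775960)) (a (c (c (l 16776976) (l 16776984)) (l 16776992)) (c (l 119957096455) (l 16777424)))) (a (a (c (c (l 16776912) (l 16776920)) (l 16776936)) (c (c (l 112977774855) (l 16777384)) (l 16777384))) (l 4))) (l 4)) (l 4))) (b (a (b (b (a (c (c (l 16776216) (l 16776240)) (l 16776288)) (c (a (l 66270004599) (l 179549768055)) (l 89355455127))) (a (a (c (l 56606328151) (l 16777128)) (a (l 150021867783) (l 4))) (l 4))) (l 4)) (l 4)) (l 4)))), by decide +kernel⟩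

def k40_pp_022_t : ∃ t, chk3 f_pp_022_t t 75 122 1 = true :=
  ⟨(b (a (a (b (c (a (a (l 16767192) (l 16768008)) (a (l 16768816) (b (l 16762880) (b (l 16775632) (l 16776984))))) (c (l 16773784) (l 16773896))) (b (a (b (c (c (l 16776536) (l 16776560)) (l 16776592)) (a (c (l 97945389703) (l 16777160)) (l 4))) (a (c (l 205319570247) (l 138747580135)) (l 4))) (l 4))) (b (a (c (b (l 16774576) (b (c (l 16776688) (l 16776704)) (c (l 139284450375) (l 138210708551)))) (b (l 16774744) (c (l 58216938519) (l 58753814535)))) (b (c (b (l 16775432) (c (l 16776760) (l 16776776))) (l 16776152)) (a (c (l 217130730455) (l 165591125687)) (l 4)))) (l 4))) (b (a (b (c (a (b (a (l 16776584) (l 16777136)) (l 213909504823)) (l 236458082359)) (a (c (l 71638706023) (l 68954361991)) (l 299808846663))) (l 4)) (l 4)) (l 4))) (l 4)), by decide +kernel⟩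

def k41_pp_022_t : ∃ t, chk3 f_pp_022_t t 37 123 1 = true :=
  ⟨(l 4), by decide +kernel⟩

def k42_pp_022_t : ∃ t, chk3 f_pp_022_t t 18 31 1 = true :=
  ⟨(l 4), by decide +kernel⟩

def k43_pp_022_t : ∃ t, chk3 f_pp_022_t t 76 60 1 = true :=
  ⟨(a (b (c (a (c (b (l 16741928) (l 16743256)) (b (l 16743112) (l 16733568))) (b (a (l 16734576) (l 16736256)) (c (c (l 16746432) (l 16746776)) (l 16747288)))) (b (c (l 16724992) (l 16726208)) (c (l 16746448) (l 16747248)))) (a (b (c (c (a (l 16754280) (l 16758536)) (l 16755496)) (c (l 16755904) (l 16745848))) (b (c (a (l 52311342391) (b (l 16773864) (c (b (l 16776016) (l 61975033911)) (l 16776568)))) (a (l 16773992) (c (l 16775296) (l 16775376)))) (b (a (b (c (a (l 16776904) (l 103314098871)) (l 16776928)) (l 4)) (l 4)) (l 4)))) (b (c (c (b (l 16755408) (l 16766528)) (b (l 16745304) (l 16771960))) (a (l 16758352) (l 16759824))) (b (b (c (a (l 16775416) (a (l 16776472) (a (l 16778568) (l 66270003847)))) (c (l 16777384) (l 16776120))) (a (b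 (c (c (l 70564968535) (l 16777104)) (l 16776672)) (l 4)) (l 4))) (l 4))))) (b (c (a (b (a (l 16737920) (l 16739584)) (c (c (l 16749752) (l 16750040)) (l 16750480))) (b (a (l 16741224) (l 16742856)) (c (c (l 16753016) (l 16753256)) (l 16753616)))) (c (b (l 16741824) (c (l 16752464) (l 16742264))) (b (l 16732328) (a (l 16741232) (l 16744152))))) (a (b (b (c (a (l 16757976) (l 16759544)) (l 16759352)) (c (b (c (l 16773480) (l 16773608)) (a (l 16775616) (b (l 16776408) (c (l 97945390311) (l 16776864))))) (a (l 16774408) (c (l 16775648) (l 16775720))))) (a (b (c (b (c (l 188139700935) (l 117809615239)) (l 4)) (l 265985974231)) (l 4)) (l 4))) (b (b (c (c (l 16767032) (l 16772448)) (l 16762248)) (b (a (c (l 16775808) (l 16775912)) (b (c (l 16776584) (l 16776632)) (c (c (l 118346484887) (l 16776608)) (l 16778296)))) (a (c (c (l 208003924375) (l 133915742423)) (l 126936421591)) (l 4)))) (l 4))))), by decide +kernel⟩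

def k44_pp_022_t : ∃ t, chk3 f_pp_022_t t 77 60 1 = true :=
  ⟨(b (b (c (a (c (a (l 16744896) (l 16748128)) (a (l 16735184) (l 16738328))) (a (c (l 16751304) (l 16741416)) (c (l 16757056) (l 16754936)))) (a (c (l 16748016) (l 16748800)) (c (l 16753992) (l 16754584)))) (c (a (a (b (a (l 16752912) (l 16754480)) (c (l 16759176) (l 16748968))) (c (b (l 16756616) (l 16762288)) (l 16759736))) (b (a (c (l 16759728) (l 16749520)) (a (l 16772608) (l 16774088))) (a (a (b (l 16773736) (b (l 16775800) (l 16778944))) (b (l 16775224) (c (b (l 16776992) (l 4)) (l 89892327591)))) (a (b (b (l 16776016) (l 56069454711)) (l 4)) (a (l 255785430967) (l 282628974855)))))) (a (a (b (l 16754704) (l 16770384)) (a (l 16759464) (l 16760880))) (a (b (l 16770928) (a (l 16775216) (b (l 16775400) (l 85597361287)))) (b (l 16763200) (c (l 229478753975) (l 233773719255))))))) (b (a (b (a (a (c (a (l 16774272) (l 16774992)) (l 16774824)) (c (b (l 16774768) (b (l 16776744) (l 131768258567))) (b (l 16774968) (l 59290683927))))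 (a (a (b (l 16774632) (l 281555235079)) (b (c (l 16776528) (l 16776592)) (l 4))) (b (c (b (l 16778216) (l 153779965783)) (l 73786195847)) (l 4)))) (a (a (c (l 276723398039) (l 283165840279)) (l 4)) (l 4))) (a (a (c (l 294977006791) (l 290145146839)) (l 4)) (l 4))) (l 4))), by decide +kernel⟩

def k45_pp_022_t : ∃ t, chk3 f_pp_022_t t 39 60 1 = true :=
  ⟨(b (a (b (b (a (c (a (l 16760248) (l 16760632)) (c (l 16767688) (l 16768160))) (a (c (a (l 16760232) (l 16772176)) (l 16772000)) (c (a (l 16773624) (b (l 16773752) (l 16776264))) (l 16773928)))) (c (a (c (a (l 16760280) (l 16773752)) (a (l 16750064) (l 16773904))) (a (b (a (l 16774696) (l 16776072)) (a (a (l 16776800) (l 79691779959)) (l 261691010407))) (a (a (l 228405014423) (l 254711686807)) (l 280481486903)))) (a (c (l 16762208) (l 16762440)) (a (b (l 16775552) (c (l 83986738871) (l 84523620119))) (c (l 245584876023) (l 243974260599)))))) (b (a (a (b (c (c (l 16774888) (l 16774984)) (l 16775144)) (a (c (c (l 16778808) (l 16776712))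 (l 16776752)) (b (a (l 56606330343) (l 141431934439)) (l 4)))) (a (b (c (a (l 16776632) (l 67343748727)) (l 16776904)) (l 4)) (c (l 264912233159) (l 259543517591)))) (l 4)) (l 4))) (b (a (b (a (b (c (a (l 16775176) (l 16776448)) (l 16775936)) (c (a (c (l 79691775095) (l 16776056)) (l 282092102839)) (b (l 79691779991) (l 168812353847)))) (a (c (l 249342979191) (l 245048004807)) (l 4))) (l 4)) (l 4)) (l 4))) (l 4)), by decide +kernel⟩

def k46_pp_022_t : ∃ t, chk3 f_pp_022_t t 19 61 1 = true :=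
  ⟨(l 4), by decide +kernel⟩

def k47_pp_022_t : ∃ t, chk3 f_pp_022_t t 19 31 1 = true :=
  ⟨(l 4), by decide +kernel⟩

def k48_pp_022_t : ∃ t, chk3 f_pp_022_t t 20 12 1 = true :=
  ⟨(b (l 6) (b (a (a (l 6) (a (l 6) (b (l 6) (l 16386648)))) (c (a (c (l 16448000) (l 16469608)) (c (l 16470800) (l 16493192))) (a (l 16461560) (l 16486376)))) (a (c (a (b (l 16397776) (l 16416640)) (b (l 16441200) (l 16459592))) (a (b (l 16455480) (l 16471456)) (b (l 16479592) (l 16494920)))) (c (a (b (l 16463696) (l 16481544)) (c (l 16506176) (l 16525336))) (a (l 16468976) (l 16513456)))))), by decide +kernel⟩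

def k49_pp_022_t : ∃ t, chk3 f_pp_022_t t 20 13 1 = true :=
  ⟨(b (b (a (a (c (c (a (l 16475432) (l 16485896)) (l 16494920)) (a (l 16490712) (l 16501968))) (b (c (l 16457400) (l 16510648)) (c (c (l 16511488) (l 16525616)) (l 16526808)))) (c (a (b (l 16478784) (l 16486840)) (b (l 16499912) (l 16517792))) (a (a (l 16535456) (l 16546544)) (l 16521176)))) (a (c (a (b (c (l 16511528) (l 16523760)) (c (l 16532456) (l 16543376))) (c (b (l 16531672) (l 16552032)) (b (l 16544376) (l 16563368)))) (a (b (l 16501040) (l 16518592)) (a (l 16525584) (l 16557016)))) (c (c (a (b (l 16551576) (l 16571288)) (l 16538640)) (a (l 16532040) (l 16572760))) (a (c (l 16565968) (l 16579376)) (b (l 16585624) (l 16580048)))))) (a (a (b (c (c (b (l 16553352) (l 16574184)) (b (l 16563056) (l 16582744))) (a (l 16537808) (l 16550232))) (c (c (b (l 16594960) (l 16615664)) (b (l 16602456) (l 16622192))) (b (a (l 16609592) (l 16618840)) (a (l 16627992) (l 16636872))))) (b (c (c (b (l 16572336) (l 16592536)) (b (l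 16582384) (l 16601408))) (a (l 16559960) (l 16569696))) (c (c (a (l 16597440) (l 16605968)) (b (l 16620432) (l 16639448))) (c (b (l 16628536) (l 16646520)) (l 16603488))))) (c (b (a (c (b (l 16590896) (l 16610384)) (b (l 16601432) (l 16619728))) (c (b (l 16608920) (l 16627648)) (l 16586920))) (a (b (c (l 16629744) (l 16637992)) (a (l 16648480) (l 16656616))) (b (c (l 16646264) (l 16654976)) (a (l 16664600) (l 16651384))))) (a (b (b (l 16576008) (l 16592440)) (c (a (l 16629840) (l 16638528)) (l 16621448))) (b (a (l 16598680) (l 16608064)) (c (b (l 16643016) (l 16659144)) (l 16638872))))))), by decide +kernel⟩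

def k50_pp_022_t : ∃ t, chk3 f_pp_022_t t 21 6 1 = true :=
  ⟨(b (b (b (a (l 6) (c (a (l 6) (l 16473816)) (l 16466000))) (a (c (a (l 16431736) (l 16455072)) (a (l 16486784) (l 16511672))) (c (c (l 16453560) (l 16502984)) (l 16495144)))) (a (b (a (c (c (l 16493208) (l 16516336)) (l 16510672)) (c (l 16463840) (l 16534328))) (c (a (c (l 16527328) (l 16547216)) (c (l 16547704) (l 16568304))) (a (l 16536464) (l 16558648)))) (a (b (c (l 16485088) (l 16557040)) (c (c (l 16567184) (l 16588416)) (l 16579728))) (b (c (l 16505336) (l 16599472)) (c (l 16533520) (l 16620184)))))) (b (c (a (b (a (a (l 16524080) (l 16533936)) (a (l 16543568) (l 16552952))) (a (b (l 16555008) (l 16572536)) (b (l 16573088) (l 16589800)))) (b (a (c (l 16599632) (l 16596496)) (a (l 16579456) (l 16587672))) (c (a (l 16611872) (l 16627112)) (a (l 16626304) (l 16662376))))) (a (b (a (c (l 16575840) (l 16593816)) (l 16563400)) (a (a (l 16587464) (l 16597184)) (b (l 16625176) (l 16638624)))) (b (c (l 16587128) (l 16613768))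 (a (b (l 16642680) (l 16654992)) (b (l 16654984) (l 16663704)))))) (a (a (b (c (b (l 16589976) (l 16607288)) (a (l 16617064) (l 16650912))) (c (c (b (l 16661960) (l 16658672)) (l 16642504)) (c (l 16645872) (l 16675744)))) (b (c (c (l 16609152) (l 16641304)) (c (l 16631896) (l 16664816))) (c (c (a (l 16660664) (l 16667472)) (l 16656624)) (c (l 16686128) (l 16688976))))) (b (a (c (c (l 16623928) (l 16656008)) (b (l 16667240) (l 16679352))) (c (c (l 16637496) (l 16690144)) (b (l 16672944) (l 16682896)))) (a (c (b (c (l 16669048) (l 16698680)) (c (l 16684984) (l 16713016))) (c (l 16693072) (l 16691464))) (c (b (c (l 16681448) (l 16710536)) (c (l 16696560) (l 16723928))) (c (l 16702520) (a (l 16715232) (l 16717624))))))))), by decide +kernel⟩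

def k51_pp_022_t : ∃ t, chk3 f_pp_022_t t 22 6 1 = true :=
  ⟨(b (c (b (a (c (b (l 16510888) (l 16515256)) (a (l 16523744) (l 16586024))) (a (b (l 16515432) (l 16536448)) (a (l 16518296) (l 16526696)))) (b (a (a (l 16524472) (l 16542328)) (a (l 16558752) (l 16594920))) (a (c (a (l 16603192) (l 16619424)) (l 16570008)) (a (l 16582040) (l 16616808))))) (b (a (c (l 16545632) (l 16523144)) (b (l 16499648) (c (l 16618752) (l 16566088)))) (a (a (a (l 16575440) (l 16573648)) (b (l 16625672) (l 16622856))) (b (b (l 16555144) (l 16565344)) (a (l 16601688) (l 16602792)))))) (b (a (a (b (c (b (l 16592400) (l 16606192)) (l 16620744)) (c (c (l 16641320) (l 16676192)) (b (l 16655400) (l 16665104)))) (b (c (l 16592792) (l 16621040)) (c (c (l 16654440) (l 16688672)) (c (l 16690312) (l 16655512))))) (c (b (a (l 16606128) (l 16618672)) (a (b (l 16666680) (l 16679264)) (b (l 16699184) (l 16690112)))) (b (c (l 16653440) (l 16615024)) (a (c (l 16693176) (l 16659024)) (c (l 16696888) (l 16663480))))))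 (a (b (c (a (c (l 16650032) (l 16702064)) (a (l 16663672) (l 16669184))) (a (b (l 16675440) (l 16686320)) (c (l 16710464) (l 16679872)))) (a (c (c (b (l 16692896) (l 16728360)) (l 16717208)) (c (l 16707048) (c (l 16723128) (l 16698816)))) (c (a (b (l 16725384) (l 16738496)) (b (l 16730368) (l 16743136))) (c (l 16712224) (a (l 16704864) (l 16708056)))))) (c (c (b (a (l 16714776) (l 16714560)) (a (b (l 16734648) (l 16747792)) (b (l 16743928) (l 16745928)))) (b (a (l 16723328) (l 16727824)) (a (c (l 16723920) (l 16742752)) (c (l 16729760) (l 16748840))))) (c (b (a (l 16714872) (l 16720096)) (a (l 16728688) (b (l 16739176) (l 16752768)))) (b (a (l 16685032) (l 16680608)) (a (c (l 16714512) (l 16711992)) (b (l 16713216) (l 16728728))))))))), by decide +kernel⟩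

def k52_pp_022_t : ∃ t, chk3 f_pp_022_t t 23 12 1 = true :=
  ⟨(b (a (c (b (b (l 16554408) (l 16562736)) (b (l 16571576) (l 16580728))) (b (c (l 16595704) (l 16559656)) (b (l 16553280) (l 16564784)))) (c (b (l 16560360) (c (l 16653712) (l 16645928))) (c (b (l 16594600) (l 16596608)) (b (l 16559744) (l 16588048))))) (b (a (c (b (l 16590192) (l 16599928)) (c (l 16636992) (l 16590192))) (a (c (l 16674880) (l 16585488)) (c (l 16676464) (l 16588760)))) (c (c (a (l 16647624) (l 16671344)) (a (l 16678360) (l 16683376))) (a (c (l 16658336) (l 16595544)) (c (l 16623064) (a (l 16643464) (l 16648568))))))), by decide +kernel⟩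

def k53_pp_022_t : ∃ t, chk3 f_pp_022_t t 23 26 1 = true :=
  ⟨(a (c (b (a (l 16651368) (l 16662272)) (a (b (l 16709904) (l 16700168)) (b (l 16717456) (l 16705552)))) (b (c (a (l 16657752) (l 16661664)) (b (l 16636744) (l 16650560))) (c (a (l 16680448) (l 16685776)) (a (l 16668856) (l 16675120))))) (c (b (a (l 16666160) (l 16691120)) (a (c (l 16729688) (l 16722088)) (c (l 16735712) (l 16727840)))) (b (c (a (l 16666368) (l 16671832)) (a (l 16672776) (l 16658312))) (c (a (l 16691856) (l 16698656)) (a (l 16682216) (l 16669144)))))), by decide +kernel⟩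

def k54_pp_022_t : ∃ t, chk3 f_pp_022_t t 23 27 1 = true :=
  ⟨(a (c (c (b (a (b (l 16728488) (l 16740544)) (b (l 16737616) (l 16749024))) (a (b (l 16752480) (a (l 16762400) (l 16766104))) (b (l 16738744) (a (l 16769376) (b (l 16769816) (l 57680022791)))))) (b (a (l 16732936) (l 16738728)) (a (b (l 16750152) (l 16741640)) (b (l 16756984) (a (l 16768216) (l 54458791639)))))) (b (a (c (l 16726104) (c (l 16699832) (l 16696208))) (c (l 16732856) (c (l 16707336) (l 16704224)))) (a (c (b (l 16746296) (l 16760632)) (b (l 16721320) (l 16758576))) (a (b (l 16750520) (l 16766384)) (b (l 16754880) (a (l 16769904) (l 53921924023))))))) (b (c (c (a (b (l 16744728) (l 16755008)) (b (l 16750408) (l 16761328))) (a (l 16745160) (b (l 16745800) (l 16758760)))) (a (c (l 16740328) (c (l 16715608) (l 16713048))) (c (l 16748488) (c (l 16724616) (l 16722640))))) (a (a (b (c (l 16753032) (l 16759416)) (b (c (l 16773008) (l 16771784)) (b (c (c (l 111903982807) (l 16774688)) (l 112977722231)) (l 4)))) (b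 (c (c (l 16767848) (l 16766408)) (l 16764136)) (b (c (c (c (l 83449831239) (l 16750512)) (l 81839217703)) (a (l 16775456) (l 112977718583))) (l 4)))) (a (a (b (c (l 16769936) (l 16767776)) (c (c (l 209077625879) (l 210151365863)) (l 211761996839))) (b (c (l 46942617239) (l 16770240)) (l 4))) (b (c (b (l 16771464) (c (l 140895033767) (l 143042497815))) (c (l 56606258423) (l 54458773687))) (l 4)))))), by decide +kernel⟩

def k55_pp_022_t : ∃ t, chk3 f_pp_022_t t 20 28 1 = true :=
  ⟨(a (c (a (b (b (c (l 16615328) (l 16641968)) (a (l 16634344) (l 16642280))) (c (b (a (l 16673680) (l 16681184)) (b (l 16671856) (l 16682120))) (b (l 16650088) (c (l 16679512) (l 16681224))))) (b (b (c (l 16631560) (l 16658448)) (a (l 16650064) (l 16657696))) (a (b (l 16669640) (a (l 16687448) (l 16690880))) (b (l 16676848) (b (l 16691160) (l 16700688)))))) (b (a (c (b (l 16626872) (l 16645800)) (a (l 16637864) (l 16646184))) (c (b (l 16643600) (l 16661688)) (b (l 16649936) (l 16667096)))) (a (b (a (l 16663128)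 (l 16670808)) (c (c (l 16682960) (l 16684736)) (l 16687448))) (b (c (l 16679720) (l 16684200)) (c (l 16695056) (l 16701224)))))) (c (a (a (b (b (l 16646368) (l 16665168)) (b (l 16683880) (c (l 16700920) (l 16704136)))) (b (b (l 16654096) (l 16672464)) (b (l 16690728) (c (l 16707344) (l 16710456))))) (c (b (b (l 16662160) (l 16675176)) (b (a (l 16695320) (l 16701736)) (a (l 16713560) (l 16719520)))) (b (b (l 16668560) (l 16685672)) (b (l 16702640) (a (l 16716544) (l 16722304)))))) (b (a (c (b (l 16659808) (l 16676848)) (b (l 16666456) (l 16682416))) (b (a (l 16674832) (l 16682248)) (a (l 16690448) (l 16697248)))) (a (b (c (l 16693792) (l 16698280)) (c (l 16709288) (a (l 16710896) (l 16737968)))) (b (c (l 16706872) (l 16711232)) (a (c (l 16719624) (l 16743776)) (c (l 16746160) (l 16749136)))))))), by decide +kernel⟩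

def k56_pp_022_t : ∃ t, chk3 f_pp_022_t t 40 58 1 = true :=
  ⟨(c (a (a (b (c (l 16694128) (l 16696768)) (c (a (l 16713264) (l 16716472)) (l 16720040))) (a (b (l 16700480) (c (l 16719632) (l 16721416))) (b (l 16703784) (b (l 16718608) (l 16728496))))) (b (a (c (l 16707432) (l 16709896)) (c (a (l 16712224) (l 16715360)) (l 16716136))) (a (c (b (l 16722328) (l 16742744)) (a (l 16727416) (l 16730336))) (b (c (l 16728368) (l 16729960)) (c (l 16748552) (l 16739152)))))) (a (b (c (a (l 16699504) (l 16706088)) (a (l 16702328) (l 16708840))) (c (a (l 16718720) (l 16724736)) (b (l 16719160) (a (l 16725272) (l 16730952))))) (b (a (c (l 16712448) (l 16715088)) (c (l 16718560) (l 16721056))) (a (b (l 16737392) (c (l 16734936) (l 16757312))) (c (l 16735984) (l 16737424)))))), by decide +kernel⟩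

def k57_pp_022_t : ∃ t, chk3 f_pp_022_t t 40 59 1 = true :=
  ⟨(a (a (b (c (a (b (l 16739976) (l 16750080)) (b (l 16742984) (c (l 16742112) (l 16742856)))) (c (b (l 16732960) (l 16763264)) (b (l 16734328) (l 16764128)))) (b (a (c (a (l 16759400) (l 16760792)) (l 16760848)) (b (c (l 16770872) (l 16771616)) (a (c (l 16775072) (l 16775336)) (c (b (l 16775248) (l 77544294951)) (l 16776360))))) (b (c (a (b (a (l 16776072) (l 65733134599)) (l 255248555095)) (l 270817815015)) (c (c (l 230552489719) (l 230015617751)) (c (l 229478745783) (l 229478744727)))) (l 4)))) (b (c (c (b (l 16746856) (b (l 16754400) (l 16769896))) (b (l 16737432) (l 16757456))) (c (c (l 16742864) (l 16743288)) (c (l 16743720) (l 16744160)))) (b (b (c (a (l 16768360) (b (l 16775064) (a (l 16776656) (l 108145939543)))) (a (l 16774048) (c (l 16776120) (l 16776216)))) (a (b (a (c (l 16776472) (l 16776576)) (c (l 92039806983) (l 16774848))) (c (l 271891550663) (l 175254805735))) (l 4))) (l 4)))) (b (a (b (c (a (l 16751656)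 (l 16754432)) (c (l 16764784) (l 16765656))) (b (c (c (l 16760016) (l 16770904)) (l 16767600)) (c (a (l 16771496) (b (l 16775536) (a (l 16779536) (l 143042548535)))) (a (l 16774520) (c (l 16780416) (l 16776560)))))) (b (c (c (a (l 16746368) (l 16770072)) (l 16758752)) (c (l 16769792) (l 16770360))) (b (a (c (c (l 16774528) (l 16774704)) (l 16774968)) (a (c (b (l 16775424) (l 84523619319)) (l 16776488)) (c (b (l 16776576) (l 176865415831)) (l 80228632759)))) (a (a (c (l 231626236167) (l 111904032743)) (a (l 261691010407) (l 4))) (l 4))))) (b (a (b (a (a (b (c (l 16776840) (l 16776904)) (l 4)) (c (l 248806101255) (l 148411260055))) (l 4)) (l 4)) (l 4)) (l 4)))), by decide +kernel⟩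

def k58_pp_022_t : ∃ t, chk3 f_pp_022_t t 41 29 1 = true :=
  ⟨(b (a (c (b (a (c (a (l 16718448) (l 16721480)) (l 16722152)) (c (a (l 16724464) (l 16727400)) (l 16727936))) (a (b (c (l 16734192) (l 16735568)) (a (l 16753208) (l 16755880))) (c (b (l 16750296) (b (l 16767696) (l 16772304))) (b (l 16761896) (l 16770512))))) (b (c (a (l 16724408) (l 16750968)) (b (l 16725616) (l 16733296))) (a (c (l 16746440) (l 16752856)) (c (l 16761848) (l 16757472))))) (b (a (c (c (a (l 16730280) (l 16733096)) (l 16754432)) (a (l 16734968) (l 16737472))) (c (c (b (l 16732744) (l 16762512)) (l 16756992)) (c (l 16761144) (l 16741752)))) (b (c (a (c (l 16766160) (l 16766976)) (a (l 16759824) (b (l 16770616) (l 16774784)))) (a (c (l 16767816) (l 16768680)) (a (l 16771464) (l 16773472)))) (b (c (a (a (l 16771824) (l 16774272)) (a (a (l 16775960) (a (l 16779336) (l 72712449431))) (c (l 227868136567) (l 121567704583)))) (a (l 16769792) (a (c (l 16776504) (l 16776600)) (b (l 93650427095) (l 4))))) (a (a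 (a (c (l 16775504) (l 16775784)) (c (b (l 16775696) (l 97408521207)) (l 16776672))) (b (c (c (l 68954342535) (l 16776240)) (l 16776112)) (l 4))) (l 4)))))) (b (a (b (a (a (c (a (l 16772248) (a (l 16773192) (l 45868892519))) (l 56606302583)) (c (b (l 16773168) (b (a (l 16775912) (l 16776944)) (l 237531814855))) (b (l 16773760) (c (l 70028086087) (l 71638719479))))) (a (c (b (b (l 16774560) (c (l 16776552) (l 16776608))) (l 245048009927)) (b (l 16775808) (l 252027316775))) (b (a (c (b (l 16776352) (l 150021870535)) (l 67343751847)) (c (l 229478751127) (l 120493972407))) (l 4)))) (a (b (a (a (c (l 238068684295) (l 131768261847)) (l 4)) (l 4)) (l 4)) (l 4))) (b (a (b (a (c (l 257932898167) (l 255248538711)) (l 4)) (l 4)) (l 4)) (l 4))) (l 4))), by decide +kernel⟩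

def k59_pp_022_t : ∃ t, chk3 f_pp_022_t t 42 28 1 = true :=
  ⟨(a (b (c (a (b (l 16675976) (l 16692952)) (b (l 16682664) (l 16699144))) (b (b (l 16668032) (l 16685584)) (a (l 16703592) (l 16709440)))) (a (b (c (c (l 16707856) (l 16711712)) (l 16717736)) (c (b (l 16722240) (l 16738392)) (a (l 16730400) (l 16732768)))) (b (c (c (l 16713648) (l 16717248)) (l 16722864)) (a (c (l 16735568) (l 16735024)) (c (l 16751208) (l 16737184)))))) (a (b (c (b (l 16689016) (l 16704976)) (b (l 16701784) (l 16714760))) (b (c (c (l 16719192) (l 16743448)) (l 16732848)) (c (c (l 16756640) (l 16758456)) (a (l 16739296) (l 16741064))))) (b (c (b (l 16695008) (l 16710528)) (b (l 16707272) (l 16719376))) (b (c (c (l 16724488) (l 16748392)) (l 16741584)) (c (c (l 16758984) (l 16763040)) (a (l 16742680) (l 16744352))))))), by decide +kernel⟩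

def k60_pp_022_t : ∃ t, chk3 f_pp_022_t t 43 28 1 = true :=
  ⟨(b (a (c (b (c (l 16700808) (l 16727272)) (a (l 16715816) (l 16720928))) (b (a (l 16710456) (l 16733776)) (a (l 16721952) (l 16724712)))) (c (c (b (l 16732624) (a (l 16724184) (l 16750072))) (b (l 16737376) (l 16729808))) (b (c (l 16740000) (l 16735296)) (a (l 16727696) (l 16730896))))) (a (b (c (a (b (l 16748080) (l 16755608)) (c (l 16755536) (l 16757696))) (c (l 16736816) (l 16745000))) (a (c (c (b (l 16762424) (l 16770312)) (l 16756936)) (a (l 16746080) (l 16747864))) (b (c (c (l 16767104) (l 16768112)) (l 16768200)) (c (b (l 16767856) (a (l 16775648) (a (l 64659376167) (l 114588336599)))) (c (l 86671076023) (l 66806828471)))))) (b (c (a (a (l 16749560) (l 16751784)) (c (l 16751760) (l 16745224))) (c (l 16756392) (l 16754880))) (b (a (c (c (l 16771600) (l 16772184)) (l 16761480)) (a (c (b (l 16773216) (l 103850955351)) (l 16754016)) (c (c (b (l 16775104) (l 113514584535)) (l 117272726199)) (b (l 16775168) (l 114051454119)))))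 (a (a (c (b (l 89355439543) (l 238605545815)) (c (l 198877106071) (l 116198919815))) (c (a (l 217130721895) (l 234847443671)) (l 216593833479))) (l 4)))))), by decide +kernel⟩

def k61_pp_022_t : ∃ t, chk3 f_pp_022_t t 21 29 1 = true :=
  ⟨(b (a (a (b (c (c (a (b (l 16738048) (l 16767600)) (b (l 16764088) (b (l 16770400) (a (l 16773408) (l 16775656))))) (a (b (l 16760504) (l 16768392)) (b (l 16765208) (l 59827525175)))) (a (c (l 16744696) (l 16745608)) (c (l 50700705927) (l 16759608)))) (b (c (a (b (a (l 16773000) (l 69491213143)) (a (b (l 16776040) (a (l 16775904) (l 170959835815))) (l 231089363399))) (b (a (c (b (l 16776432) (l 133915743943)) (l 74323053079)) (l 235384322103)) (l 4))) (a (a (a (l 16774888) (l 94724145831)) (b (l 16775624) (b (l 115125206551) (l 4)))) (c (l 223036297191) (l 221962558327)))) (l 4))) (b (b (c (a (c (l 16768976) (l 16769712)) (a (l 16762240) (a (l 64659370935) (b (l 16773568) (l 66806870503))))) (a (l 16760192) (c (l 16753272) (l 16774176)))) (a (c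 (b (a (l 16774120) (b (l 16775368) (c (l 16776760) (l 16776752)))) (c (c (l 220351941911) (l 219815070375)) (l 218741327639))) (a (a (l 51774442663) (l 111904016023)) (b (l 16776400) (l 172570453559)))) (a (c (c (l 226794393815) (l 225183768583)) (l 222499421527)) (l 4)))) (l 4))) (b (a (b (a (b (a (c (l 16775168) (l 16775416)) (c (a (l 16776608) (l 116198953911)) (l 116198951799))) (a (c (l 221425683751) (l 126399554823)) (l 4))) (b (a (c (l 225720647511) (l 113514571623)) (l 4)) (l 4))) (l 4)) (l 4)) (l 4))) (l 4)), by decide +kernel⟩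

def k62_pp_022_t : ∃ t, chk3 f_pp_022_t t 10 15 1 = true :=
  ⟨(l 4), by decide +kernel⟩

def k63_pp_022_t : ∃ t, chk3 f_pp_022_t t 44 28 1 = true :=
  ⟨(b (b (a (c (a (l 16721392) (l 16726080)) (c (l 16745584) (l 16741632))) (c (c (l 16747592) (l 16733992)) (c (l 16751976) (l 16748864)))) (a (c (c (a (l 16754808) (l 16759352)) (l 16748920)) (c (l 16737224) (l 16755912))) (c (c (a (l 16763720) (l 16757416)) (c (l 16745904) (l 16745448))) (c (l 16754920) (l 16753520))))) (b (a (b (a (c (l 16755792) (l 16765648)) (c (c (l 16769920) (l 16770768)) (l 16769592))) (c (a (a (l 16772080) (l 16763552)) (c (b (l 16775112) (l 207467041863)) (a (l 16754928) (l 115662076903)))) (a (l 42647654919) (c (c (l 55532511847) (l 54995641111)) (l 53921897927))))) (b (c (c (a (b (l 16772312) (l 55532550375)) (b (l 56069415911) (l 212835743607))) (a (l 16774344) (b (l 16776248) (l 171496650151)))) (a (b (l 16771864) (l 52311322935)) (c (c (l 115662046087) (l 115662045927)) (l 115662044679)))) (a (a (a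 (c (l 211762003047) (l 169349164471)) (c (l 228404993639) (l 194045223415))) (l 4)) (l 4)))) (a (b (a (c (a (c (l 209077652535) (l 209077651639)) (l 231626235847)) (c (l 211761996791) (l 211225124487))) (l 4)) (l 4)) (l 4)))), by decide +kernel⟩

def k64_pp_022_t : ∃ t, chk3 f_pp_022_t t 45 28 1 = true :=
  ⟨(b (a (b (c (c (a (l 16758752) (l 16762912)) (l 16750776)) (c (l 16759144) (l 16756944))) (c (b (a (l 16758672) (l 16768776)) (a (c (c (l 56069409463) (l 16754088)) (l 54458795735)) (b (a (l 16776336) (l 112440853783)) (l 226257529271)))) (a (c (l 16750392) (l 16749656)) (b (l 16771480) (a (l 114588338711) (l 168812289543)))))) (b (c (a (a (l 16766288) (l 16746984)) (c (l 16760184) (l 16770096))) (c (l 16761816) (b (l 16761728) (l 16769952)))) (b (c (c (a (a (l 16775216) (l 85597293543)) (l 203708946231)) (a (l 56069398759) (l 203708934647))) (a (c (l 77007378007) (l 16775888)) (a (l 159148619303) (l 120493869399)))) (l 4)))) (a (a (a (b (b (c (l 226257506375) (l 226794374055))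 (l 4)) (l 4)) (l 4)) (l 4)) (l 4))), by decide +kernel⟩

def k65_pp_022_t : ∃ t, chk3 f_pp_022_t t 23 28 1 = true :=
  ⟨(a (b (b (b (a (c (a (l 16770968) (a (l 16773688) (l 56069421239))) (a (l 16769224) (l 16758792))) (a (a (c (l 140895039399) (l 114588331463)) (c (l 197803360983) (l 111367086295))) (b (c (l 215520092151) (l 118346403655)) (l 4)))) (a (a (a (c (b (l 16774752) (l 112977730935)) (l 16776104)) (c (b (l 16776592) (l 4)) (l 113514578711))) (a (c (l 204245805591) (l 110830205111)) (l 4))) (l 4))) (l 4)) (l 4)) (l 4)), by decide +kernel⟩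

def k66_pp_022_t : ∃ t, chk3 f_pp_022_t t 11 29 1 = true :=
  ⟨(l 4), by decide +kernel⟩

def k67_pp_022_t : ∃ t, chk3 f_pp_022_t t 11 15 1 = true :=
  ⟨(l 4), by decide +kernel⟩

def k68_pp_022_t : ∃ t, chk3 f_pp_022_t t 3 4 1 = true :=
  ⟨(a (l 6) (a (b (l 6) (b (b (l 6) (a (l 6) (c (a (l 16460568) (l 16473752)) (a (l 16321688) (l 16341712))))) (b (a (a (l 6) (c (l 16475088) (l 16340752))) (c (a (l 16487272) (l 16501384)) (a (l 16359320) (l 16380520)))) (c (a (a (l 16489816) (l 16500968)) (a (l 16514128) (l 16529136))) (a (a (l 16360712) (l 16377808)) (a (l 16397608) (l 16419960))))))) (b (b (a (l 6) (a (l 6) (c (l 16404912) (l 16253056)))) (a (a (l 6) (b (l 6) (c (l 16447016) (l 16307984)))) (c (a (l 16427296) (l 16444480)) (a (c (l 16346872) (l 16275552)) (l 16337416))))) (a (c (a (b (c (l 16505208) (l 16443160)) (c (l 16556808) (l 16505672))) (b (c (l 16519328) (l 16461128)) (c (l 16572384) (l 16525264)))) (a (b (c (l 16378072) (l 16310256)) (c (l 16452024) (l 16396128)))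 (b (c (l 16400024) (l 16336336)) (c (l 16475792) (l 16424224))))) (c (a (b (c (l 16534520) (l 16480376)) (c (l 16589000) (l 16546104))) (b (l 16400584) (c (l 16606728) (l 16568280)))) (a (b (c (l 16423488) (l 16364160)) (c (l 16501032) (l 16454024))) (b (c (l 16448768) (l 16394104)) (c (l 16527856) (l 16485664))))))))), by decide +kernel⟩

def k69_pp_022_t : ∃ t, chk3 f_pp_022_t t 12 5 1 = true :=
  ⟨(b (b (l 6) (b (l 6) (a (l 6) (c (c (l 16535152) (l 16482864)) (a (l 6) (l 16443640)))))) (a (a (b (b (l 6) (c (l 16552120) (l 16477208))) (b (c (l 16568120) (l 16482832)) (c (l 16584952) (l 16468480)))) (b (c (c (l 16605136) (l 16537136)) (c (l 16508880) (l 16457592))) (c (c (l 16636104) (l 16557608)) (c (l 16498400) (l 16479528))))) (c (b (c (a (l 16602640) (l 16602880)) (a (l 16557344) (l 16559680))) (a (c (l 16637248) (l 16539840)) (c (l 16640936) (l 16535424)))) (c (b (a (l 16509944) (l 16514488)) (a (b (l 16552008) (l 16581296)) (b (l 16559568) (l 16590888)))) (b (a (l 16460576)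 (l 16467448)) (a (b (l 16511456) (l 16546704)) (b (l 16521576) (l 16558984)))))))), by decide +kernel⟩

def k70_pp_022_t : ∃ t, chk3 f_pp_022_t t 13 5 1 = true :=
  ⟨(b (b (b (a (l 6) (a (l 6) (c (l 16504800) (l 16381584)))) (a (a (l 6) (c (l 16492976) (l 16392664))) (c (a (l 16499112) (l 16529120)) (a (l 16403352) (l 16417464))))) (c (a (a (c (l 16568208) (l 16516232)) (c (l 16572096) (l 16522312))) (a (b (l 16501664) (l 16504760)) (c (l 16588568) (l 16543832)))) (c (a (a (l 16461848) (l 16470232)) (a (l 16482080) (l 16497016))) (a (a (l 16405256) (l 16416040)) (a (l 16430496) (l 16448288)))))) (a (c (b (a (a (l 16500776) (l 16503936)) (b (l 16519248) (l 16522424))) (c (a (b (l 16636888) (l 16637616)) (b (l 16646064) (l 16648168))) (a (b (l 16604488) (l 16631856)) (b (l 16616272) (l 16645144))))) (c (b (a (l 16522696) (b (l 16518096) (l 16551136))) (a (b (l 16570616) (l 16603912)) (b (l 16585120) (l 16620048)))) (b (a (l 16478200) (b (l 16473168) (l 16512440))) (a (b (l 16535360)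 (l 16574824)) (a (l 16526560) (l 16515504)))))) (c (b (a (a (l 16518384) (l 16524448)) (a (l 16531000) (l 16527528))) (a (c (b (l 16657648) (l 16660960)) (b (l 16630672) (l 16660872))) (c (a (l 16638072) (l 16645328)) (b (l 16647024) (l 16657408))))) (b (a (c (b (l 16532416) (l 16566992)) (b (l 16490264) (l 16531200))) (c (b (l 16549368) (l 16585280)) (b (l 16510304) (l 16552720)))) (b (a (c (l 16602456) (l 16573072)) (c (l 16622048) (l 16596032))) (a (a (l 16580240) (l 16590992)) (a (l 16602296) (l 16593160)))))))), by decide +kernel⟩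

def k71_pp_022_t : ∃ t, chk3 f_pp_022_t t 14 5 1 = true :=
  ⟨(a (b (c (c (b (a (l 16554008) (l 16565192)) (a (l 16599912) (l 16612960))) (b (a (l 16500560) (l 16514792)) (a (l 16558160) (l 16574496)))) (c (b (a (l 16444592) (l 16462000)) (a (l 16514440) (l 16534216))) (b (a (l 16386352) (l 16407048)) (a (l 16468928) (l 16450320))))) (c (b (c (a (l 16605936) (l 16599800)) (a (l 16555312) (l 16573664))) (b (a (a (l 16650328) (l 16658928)) (c (l 16680800) (l 16663984))) (a (c (l 16669952) (l 16655608)) (a (l 16718808) (l 16728536))))) (a (b (c (b (l 16568664) (l 16605784)) (b (l 16533032) (l 16576784))) (a (b (l 16605640) (l 16605512)) (b (l 16617920) (l 16618360)))) (b (c (b (l 16590136) (l 16628344)) (b (l 16558248) (l 16603200))) (c (a (l 16618176) (l 16620192)) (b (l 16628000) (l 16632640))))))) (b (c (b (a (c (l 16578088) (l 16531072)) (c (l 16592592) (l 16549256))) (a (a (l 16543208) (l 16551808)) (a (l 16560808) (l 16570184)))) (c (b (a (l 16481792) (l 16503824)) (a (l 16535192)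 (l 16517248))) (b (a (l 16430488) (l 16456488)) (a (b (l 16495896) (l 16540496)) (b (l 16523568) (l 16569216)))))) (c (b (a (c (l 16616040) (b (l 16640336) (l 16672936))) (c (l 16696496) (b (l 16661528) (l 16673936)))) (a (b (a (l 16686880) (l 16717848)) (a (l 16738584) (l 16748928))) (b (a (l 16728152) (l 16738776)) (a (l 16759520) (b (l 16762496) (l 78617971111)))))) (b (a (c (b (l 16613624) (l 16652800)) (b (l 16585784) (l 16631816))) (c (b (l 16639000) (l 16679040)) (b (l 16615512) (l 16641528)))) (a (b (a (l 16636768) (l 16650968)) (a (c (l 16705736) (l 16697384)) (l 16716240))) (b (a (l 16665624) (l 16712160)) (a (c (l 16754048) (l 16750200)) (b (l 16756392) (l 77007352967))))))))), by decide +kernel⟩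

def k72_pp_022_t : ∃ t, chk3 f_pp_022_t t 15 5 1 = true :=
  ⟨(a (b (c (a (b (c (l 16608560) (l 16569208)) (c (l 16619104) (l 16592272))) (b (c (l 16625536) (l 16590360)) (c (l 16637400) (l 16614880)))) (b (a (a (l 16416000) (l 16450544)) (a (l 16443448) (l 16457608))) (a (c (l 16522152) (b (l 16553472) (l 16600056))) (c (l 16570240) (b (l 16584840) (l 16632296)))))) (b (c (a (c (b (l 16701384) (l 16729056)) (c (l 16662792) (l 16655592))) (c (l 16734816) (l 16704272))) (a (c (a (l 16637544) (l 16651600)) (a (l 16620992) (l 16616456))) (c (b (l 16694408) (l 16735920)) (b (l 16659392) (l 16728960))))) (b (a (c (a (l 16749680) (l 16760720)) (a (l 16738128) (l 16732736))) (b (c (a (l 16764112) (l 16774528)) (a (l 16758600) (l 16772776))) (a (c (l 16741944) (l 16741224)) (l 4)))) (a (b (a (c (l 16772976) (l 16749800)) (c (l 84523535799) (l 83986659751))) (a (c (l 113514571031) (l 87207868743)) (l 4))) (l 4))))) (a (b (c (b (c (l 16643416) (l 16612592)) (c (l 16698496) (l 16617544)))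 (b (a (l 16472152) (l 16487144)) (c (l 16598576) (b (l 16617648) (l 16665944))))) (b (c (b (l 16736688) (a (l 16762696) (b (l 16766472) (l 16771200)))) (b (a (l 16690288) (l 16727592)) (a (l 16756376) (b (l 16761872) (l 16749440))))) (a (a (b (c (l 89355345783) (l 88818468391)) (l 4)) (l 4)) (l 4)))) (b (c (b (a (l 16602120) (l 16613048)) (c (l 16718656) (l 16705288))) (b (a (l 16502568) (l 16518384)) (b (l 16577472) (c (l 16691248) (l 16680192))))) (b (b (c (a (l 16754104) (l 16765368)) (a (l 16744240) (l 16760016))) (b (a (c (l 16775360) (l 16774472)) (a (l 92039735543) (l 4))) (l 4))) (l 4))))), by decide +kernel⟩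

def k73_pp_022_t : ∃ t, chk3 f_pp_022_t t 12 12 1 = true :=
  ⟨(a (c (b (a (b (l 16581288) (c (l 16674432) (l 16648960))) (b (l 16594440) (c (l 16678224) (l 16633808)))) (a (b (c (l 16690192) (l 16669680)) (c (l 16685832) (l 16691168))) (b (c (l 16696088) (l 16635792)) (a (l 16684800) (l 16689952))))) (b (a (c (b (l 16596856) (l 16601360)) (b (l 16563616) (l 16594600))) (c (b (l 16602448) (l 16609304)) (b (l 16571272) (l 16604760)))) (a (c (b (l 16627272) (a (l 16672112) (l 16677760))) (b (l 16604952) (a (l 16654544) (l 16661336)))) (c (b (l 16616616) (b (l 16659208) (l 16673912))) (b (a (l 16635136) (l 16642272)) (b (l 16643320) (l 16639736))))))) (c (b (a (c (b (l 16664992) (l 16684152)) (a (l 16606960) (l 16611224))) (c (c (l 16687000) (l 16624280)) (a (l 16616136) (l 16621824)))) (a (b (c (l 16704016) (l 16646216)) (a (c (l 16722280) (l 16689824)) (c (l 16727760) (l 16696664)))) (a (b (l 16704576) (c (l 16733752) (l 16704072))) (b (l 16700568) (c (l 16740456) (l 16712200))))))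 (b (a (c (a (l 16581528) (l 16566136)) (b (l 16582384) (l 16576256))) (b (a (l 16564408) (l 16571728)) (c (l 16612840) (a (l 16630360) (l 16639456))))) (a (b (c (a (l 16668144) (l 16675320)) (a (l 16650168) (l 16658792))) (c (a (l 16698808) (l 16686088)) (a (l 16665352) (l 16675088)))) (b (c (a (l 16683160) (l 16691792)) (a (l 16668136) (l 16678288))) (c (a (l 16694968) (l 16704584)) (a (l 16685504) (l 16675688)))))))), by decide +kernel⟩

def k74_pp_022_t : ∃ t, chk3 f_pp_022_t t 24 13 1 = true :=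
  ⟨(b (a (c (b (a (c (l 16722344) (l 16710920)) (c (l 16726976) (l 16695696))) (a (c (l 16741000) (l 16734208)) (c (b (l 16741640) (l 16752080)) (l 16741168)))) (b (c (a (l 16678032) (l 16684928)) (a (l 16665624) (l 16673728))) (c (a (l 16706152) (l 16703824)) (a (c (l 16700648) (l 16696896)) (b (l 16720376) (l 16716992)))))) (c (b (a (c (l 16732136) (l 16702024)) (c (l 16737784) (l 16708920))) (a (c (b (l 16747656) (l 16758680)) (l 16748688)) (c (b (l 16754152) (l 16765752)) (b (l 16749824) (l 16763728))))) (c (a (b (l 16692488) (l 16744056)) (b (l 16700680) (l 16748192))) (b (a (l 16682560) (l 16671136)) (a (c (l 16719488) (l 16717040)) (b (l 16719632) (l 16759416))))))) (a (b (b (c (a (c (l 16756624) (l 16753120)) (c (l 16763352) (l 16761016))) (a (c (l 16728504) (l 16724704)) (c (l 16758576) (l 16756048)))) (a (c (a (l 16755080) (c (l 16769976) (l 16768816))) (c (l 16765216) (l 16763648))) (a (a (c (l 56069418695) (l 16770808)) (b (l 16767440) (c (l 110830241255) (l 16754352))))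 (b (c (l 56606297351) (l 16772984)) (a (c (l 105998387591) (l 108145870167)) (l 4)))))) (a (b (b (a (c (c (l 16754672) (l 16775304)) (l 56606285527)) (b (c (l 110830265959) (l 16754344)) (l 4))) (a (c (l 206930170999) (c (l 116735772103) (l 118346383767))) (l 4))) (l 4)) (l 4))) (b (a (b (c (a (l 16768016) (a (l 16771024) (l 58216900455))) (c (l 25467774775) (l 16756488))) (b (c (a (c (l 109756490535) (l 16748152)) (l 198340217879)) (a (l 110830243767) (c (l 114051427047) (l 116198909367)))) (l 4))) (b (a (c (c (b (l 16773096) (l 106535257111)) (l 60901224839)) (c (l 59827482151) (l 58216868519))) (b (c (c (l 16755992) (l 16776832)) (l 59827503255)) (l 4))) (l 4))) (l 4)))), by decide +kernel⟩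

def k75_pp_022_t : ∃ t, chk3 f_pp_022_t t 25 13 1 = true :=
  ⟨(b (a (b (c (a (c (l 16743896) (l 16737312)) (c (l 16750416) (l 16745216))) (a (c (l 16709472) (l 16681352)) (c (l 16739792) (b (l 16724504) (l 16722824))))) (c (a (b (c (l 16761088) (l 16758088)) (c (c (b (l 16770440) (l 63048722103)) (l 59827492279)) (c (l 59290620023) (l 60364364087)))) (b (c (l 16768464) (l 16766832)) (a (b (l 61438125767) (l 190824025927)) (c (l 176328508423) (l 177402248727))))) (a (a (b (l 16750696) (l 16760760)) (b (l 16756024) (b (l 16769664) (l 107609005463)))) (b (c (l 16765128) (l 16763360)) (b (a (l 16754096) (l 103850900471)) (a (l 111367074519) (l 4))))))) (b (c (a (c (b (l 16751360) (l 16763576)) (l 16753680)) (b (c (l 16758696) (l 16755152)) (a (l 16768656) (b (l 16769480) (l 63585610039))))) (a (c (l 16749736) (a (l 16721736) (l 16748608))) (b (c (l 16751456) (l 16726640)) (a (l 16765576) (l 57143143879))))) (b (a (c (c (a (l 60901246359) (l 102777174823)) (a (l 16752584) (l 104387765559)))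 (c (c (l 61974958935) (l 61438087127)) (c (l 60364344391) (l 59290601319)))) (a (b (c (l 100629687367) (l 103314039639)) (l 4)) (l 4))) (l 4)))) (a (b (a (a (a (b (c (l 193508395479) (l 197266467735)) (l 4)) (l 4)) (l 4)) (l 4)) (l 4)) (l 4))), by decide +kernel⟩

def k76_pp_022_t : ∃ t, chk3 f_pp_022_t t 26 12 1 = true :=
  ⟨(c (b (a (c (b (l 16659808) (l 16703528)) (b (l 16638704) (l 16645968))) (a (b (l 16638376) (l 16706880)) (b (l 16645640) (l 16714768)))) (a (b (a (c (l 16702648) (l 16691648)) (l 16718048)) (a (c (l 16747736) (l 16741896)) (c (l 16755368) (l 16751048)))) (b (a (c (l 16738000) (l 16708992)) (c (l 16745704) (l 16739256))) (a (c (l 19562198551) (l 16760544)) (b (l 16763816) (c (a (l 16754976) (l 93113479111)) (l 67880538983))))))) (b (a (c (b (l 16637616) (a (l 16667120) (l 16676248))) (b (l 16572712) (a (l 16649368) (l 16660024)))) (c (b (l 16634520) (a (l 16686000) (l 16696248))) (b (a (l 16630112) (l 16641232)) (a (l 16671352) (l 16683256))))) (a (b (c (c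 (l 16666768) (l 16661288)) (a (l 16668184) (l 16679736))) (a (c (l 16714824) (l 16687504)) (b (l 16703096) (l 16743352)))) (b (c (a (l 16700592) (l 16711536)) (a (l 16691848) (l 16704512))) (b (a (l 16741160) (l 16758728)) (a (a (l 16762968) (l 16769016)) (c (l 66806794983) (l 65196180007)))))))), by decide +kernel⟩

def k77_pp_022_t : ∃ t, chk3 f_pp_022_t t 27 12 1 = true :=
  ⟨(b (c (a (b (c (l 16664824) (l 16649600)) (a (l 16723040) (l 16731680))) (b (c (l 16722056) (l 16668224)) (a (l 16740680) (l 16750000)))) (a (b (c (l 16633672) (a (l 16652960) (l 16665272))) (c (a (l 16706992) (l 16697232)) (c (l 16662824) (l 16657536)))) (b (c (l 16655776) (a (l 16678136) (l 16691536))) (a (c (l 16708880) (l 16701280)) (b (l 16707752) (l 16749512)))))) (a (b (c (a (c (l 16753744) (l 16748936)) (c (l 16762064) (l 16758944))) (a (b (l 16710312) (l 16751328)) (c (l 16755680) (l 16741792)))) (b (a (c (c (l 16752344) (l 16751376)) (a (l 16768136) (l 64659338295))) (a (c (l 90429124631) (l 87207895863))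 (c (l 101703394503) (l 100629647911)))) (a (a (c (b (l 103314038919) (l 4)) (l 103850867399)) (l 4)) (l 4)))) (b (b (c (a (l 16762616) (b (l 16768544) (l 69491184263))) (a (l 16756904) (b (l 16765136) (l 16751016)))) (a (c (c (l 70028034759) (l 69491161063)) (c (l 16744224) (l 16743720))) (a (c (l 100092786727) (l 99019040999)) (l 4)))) (l 4)))), by decide +kernel⟩

def k78_pp_022_t : ∃ t, chk3 f_pp_022_t t 13 13 1 = true :=
  ⟨(a (b (b (a (a (a (c (b (l 16763336) (c (l 65733070327) (l 64659326871))) (b (l 16758256) (c (l 16744824) (l 16744480)))) (b (c (l 16767688) (l 16764200)) (b (c (l 100092823735) (l 16753392)) (l 4)))) (b (c (c (c (l 64122462807) (l 16742896)) (l 64122458935)) (c (l 63585587079) (l 61438101751))) (a (b (c (l 105461510215) (l 107608990839)) (l 4)) (l 4)))) (a (b (a (b (c (l 16755352) (l 16776072)) (l 4)) (c (l 177402246343) (l 106535213735))) (l 4)) (l 4))) (l 4)) (l 4)) (l 4)), by decide +kernel⟩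

def k79_pp_022_t : ∃ t, chk3 f_pp_022_t t 6 7 1 = true :=
  ⟨(l 4), by decide +kernel⟩

def k80_pp_022_t : ∃ t, chk3 f_pp_022_t t 7 3 1 = true :=
  ⟨(b (a (b (a (b (a (c (c (b (l 16738640) (a (l 16761280) (l 57143124807))) (b (l 16730336) (a (l 16757912) (l 46405717063)))) (b (a (b (l 16700000) (l 16700056)) (c (l 16706928) (l 16698872))) (a (c (l 16754376) (l 16750696)) (b (l 16755832) (c (l 16775344) (l 16732776)))))) (b (c (a (l 16749176) (l 16759264)) (a (b (l 16705976) (l 16748480)) (c (l 16753808) (l 16749968)))) (b (a (c (l 48016347527) (l 28688992327)) (b (c (l 16754072) (l 16753624)) (l 4))) (a (a (c (l 96334697671) (l 95260951479)) (l 4)) (l 4))))) (a (b (a (b (b (c (l 72175527815) (l 71638656055)) (l 4)) (l 4)) (l 4)) (l 4)) (l 4))) (b (b (a (c (a (b (l 16761888) (l 75396745543)) (b (l 16751088) (l 92039710551))) (c (a (l 16745200) (l 77007319799)) (a (l 25467747287) (l 75933574855)))) (a (b (c (l 80765438439) (l 79691691367)) (l 4)) (l 4))) (l 4)) (l 4))) (l 4)) (l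 4)) (l 4)), by decide +kernel⟩

theorem s81_pp_022_t : ∃ t, chk3 f_pp_022_t t 13 12 1 = true := ex3_a k76_pp_022_t k77_pp_022_t

theorem s82_pp_022_t : ∃ t, chk3 f_pp_022_t t 13 6 1 = true := ex3_b s81_pp_022_t k78_pp_022_t

theorem s83_pp_022_t : ∃ t, chk3 f_pp_022_t t 12 13 1 = true := ex3_a k74_pp_022_t k75_pp_022_t

theorem s84_pp_022_t : ∃ t, chk3 f_pp_022_t t 12 6 1 = true := ex3_b k73_pp_022_t s83_pp_022_t

theorem s85_pp_022_t : ∃ t, chk3 f_pp_022_t t 6 6 1 = true := ex3_a s84_pp_022_t s82_pp_022_t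

theorem s86_pp_022_t : ∃ t, chk3 f_pp_022_t t 6 3 1 = true := ex3_b s85_pp_022_t k79_pp_022_t

theorem s87_pp_022_t : ∃ t, chk3 f_pp_022_t t 3 3 1 = true := ex3_a s86_pp_022_t k80_pp_022_t

theorem s88_pp_022_t : ∃ t, chk3 f_pp_022_t t 7 5 1 = true := ex3_a k71_pp_022_t k72_pp_022_t

theorem s89_pp_022_t : ∃ t, chk3 f_pp_022_t t 6 5 1 = true := ex3_a k69_pp_022_t k70_pp_022_t

theorem s90_pp_022_t : ∃ t, chk3 f_pp_022_t t 3 5 1 = true := ex3_a s89_pp_022_t s88_pp_022_t

theorem s91_pp_022_t : ∃ t, chk3 f_pp_022_t t 3 2 1 = true := ex3_b k68_pp_022_t s90_pp_022_t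

theorem s92_pp_022_t : ∃ t, chk3 f_pp_022_t t 3 1 1 = true := ex3_b s91_pp_022_t s87_pp_022_t

theorem s93_pp_022_t : ∃ t, chk3 f_pp_022_t t 22 28 1 = true := ex3_a k63_pp_022_t k64_pp_022_t

theorem s94_pp_022_t : ∃ t, chk3 f_pp_022_t t 11 28 1 = true := ex3_a s93_pp_022_t k65_pp_022_t

theorem s95_pp_022_t : ∃ t, chk3 f_pp_022_t t 11 14 1 = true := ex3_b s94_pp_022_t k66_pp_022_t

theorem s96_pp_022_t : ∃ t, chk3 f_pp_022_t t 11 7 1 = true := ex3_b s95_pp_022_t k67_pp_022_t

theorem s97_pp_022_t : ∃ t, chk3 f_pp_022_t t 21 28 1 = true := ex3_a k59_pp_022_t k60_pp_022_t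

theorem s98_pp_022_t : ∃ t, chk3 f_pp_022_t t 21 14 1 = true := ex3_b s97_pp_022_t k61_pp_022_t

theorem s99_pp_022_t : ∃ t, chk3 f_pp_022_t t 40 29 1 = true := ex3_b k56_pp_022_t k57_pp_022_t

theorem s100_pp_022_t : ∃ t, chk3 f_pp_022_t t 20 29 1 = true := ex3_a s99_pp_022_t k58_pp_022_t

theorem s101_pp_022_t : ∃ t, chk3 f_pp_022_t t 20 14 1 = true := ex3_b k55_pp_022_t s100_pp_022_t

theorem s102_pp_022_t : ∃ t, chk3 f_pp_022_t t 10 14 1 = true := ex3_a s101_pp_022_t s98_pp_022_t

theorem s103_pp_022_t : ∃ t, chk3 f_pp_022_t t 10 7 1 = true := ex3_b s102_pp_022_t k62_pp_022_t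

theorem s104_pp_022_t : ∃ t, chk3 f_pp_022_t t 5 7 1 = true := ex3_a s103_pp_022_t s96_pp_022_t

theorem s105_pp_022_t : ∃ t, chk3 f_pp_022_t t 23 13 1 = true := ex3_b k53_pp_022_t k54_pp_022_t

theorem s106_pp_022_t : ∃ t, chk3 f_pp_022_t t 23 6 1 = true := ex3_b k52_pp_022_t s105_pp_022_t

theorem s107_pp_022_t : ∃ t, chk3 f_pp_022_t t 11 6 1 = true := ex3_a k51_pp_022_t s106_pp_022_t

theorem s108_pp_022_t : ∃ t, chk3 f_pp_022_t t 20 6 1 = true := ex3_b k48_pp_022_t k49_pp_022_t

theorem s109_pp_022_t : ∃ t, chk3 f_pp_022_t t 10 6 1 = true := ex3_a s108_pp_022_t k50_pp_022_t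

theorem s110_pp_022_t : ∃ t, chk3 f_pp_022_t t 5 6 1 = true := ex3_a s109_pp_022_t s107_pp_022_t

theorem s111_pp_022_t : ∃ t, chk3 f_pp_022_t t 5 3 1 = true := ex3_b s110_pp_022_t s104_pp_022_t

theorem s112_pp_022_t : ∃ t, chk3 f_pp_022_t t 38 60 1 = true := ex3_a k43_pp_022_t k44_pp_022_t

theorem s113_pp_022_t : ∃ t, chk3 f_pp_022_t t 19 60 1 = true := ex3_a s112_pp_022_t k45_pp_022_t

theorem s114_pp_022_t : ∃ t, chk3 f_pp_022_t t 19 30 1 = true := ex3_b s113_pp_022_t k46_pp_022_t

theorem s115_pp_022_t : ∃ t, chk3 f_pp_022_t t 19 15 1 = true := ex3_b s114_pp_022_t k47_pp_022_t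

theorem s116_pp_022_t : ∃ t, chk3 f_pp_022_t t 37 122 1 = true := ex3_a k39_pp_022_t k40_pp_022_t

theorem s117_pp_022_t : ∃ t, chk3 f_pp_022_t t 37 61 1 = true := ex3_b s116_pp_022_t k41_pp_022_t

theorem s118_pp_022_t : ∃ t, chk3 f_pp_022_t t 37 60 1 = true := ex3_b k37_pp_022_t k38_pp_022_t

theorem s119_pp_022_t : ∃ t, chk3 f_pp_022_t t 37 30 1 = true := ex3_b s118_pp_022_t s117_pp_022_t

theorem s120_pp_022_t : ∃ t, chk3 f_pp_022_t t 73 61 1 = true := ex3_c k35_pp_022_t k36_pp_022_t

theorem s121_pp_022_t : ∃ t, chk3 f_pp_022_t t 72 247 1 = true := ex3_a k33_pp_022_t k34_pp_022_t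

theorem s122_pp_022_t : ∃ t, chk3 f_pp_022_t t 72 123 1 = true := ex3_b k32_pp_022_t s121_pp_022_t

theorem s123_pp_022_t : ∃ t, chk3 f_pp_022_t t 72 61 1 = true := ex3_b k31_pp_022_t s122_pp_022_t

theorem s124_pp_022_t : ∃ t, chk3 f_pp_022_t t 36 61 1 = true := ex3_a s123_pp_022_t s120_pp_022_t

theorem s125_pp_022_t : ∃ t, chk3 f_pp_022_t t 36 60 1 = true := ex3_a k29_pp_022_t k30_pp_022_t

theorem s126_pp_022_t : ∃ t, chk3 f_pp_022_t t 36 30 1 = true := ex3_b s125_pp_022_t s124_pp_022_t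

theorem s127_pp_022_t : ∃ t, chk3 f_pp_022_t t 18 30 1 = true := ex3_a s126_pp_022_t s119_pp_022_t

theorem s128_pp_022_t : ∃ t, chk3 f_pp_022_t t 18 15 1 = true := ex3_b s127_pp_022_t k42_pp_022_t

theorem s129_pp_022_t : ∃ t, chk3 f_pp_022_t t 9 15 1 = true := ex3_a s128_pp_022_t s115_pp_022_t

theorem s130_pp_022_t : ∃ t, chk3 f_pp_022_t t 19 14 3 = true := ex3_b k27_pp_022_t k28_pp_022_t

theorem s131_pp_022_t : ∃ t, chk3 f_pp_022_t t 19 29 2 = true := ex3_a k25_pp_022_t k26_pp_022_t

theorem s132_pp_022_t : ∃ t, chk3 f_pp_022_t t 19 14 2 = true := ex3_b k24_pp_022_t s131_pp_022_t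

theorem s133_pp_022_t : ∃ t, chk3 f_pp_022_t t 19 14 1 = true := ex3_c s132_pp_022_t s130_pp_022_t

theorem s134_pp_022_t : ∃ t, chk3 f_pp_022_t t 18 29 1 = true := ex3_a k22_pp_022_t k23_pp_022_t

theorem s135_pp_022_t : ∃ t, chk3 f_pp_022_t t 18 14 1 = true := ex3_b k21_pp_022_t s134_pp_022_t

theorem s136_pp_022_t : ∃ t, chk3 f_pp_022_t t 9 14 1 = true := ex3_a s135_pp_022_t s133_pp_022_t

theorem s137_pp_022_t : ∃ t, chk3 f_pp_022_t t 9 7 1 = true := ex3_b s136_pp_022_t s129_pp_022_t

theorem s138_pp_022_t : ∃ t, chk3 f_pp_022_t t 71 248 1 = true := ex3_a k16_pp_022_t k17_pp_022_t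

theorem s139_pp_022_t : ∃ t, chk3 f_pp_022_t t 35 248 1 = true := ex3_a k15_pp_022_t s138_pp_022_t

theorem s140_pp_022_t : ∃ t, chk3 f_pp_022_t t 35 124 1 = true := ex3_b s139_pp_022_t k18_pp_022_t

theorem s141_pp_022_t : ∃ t, chk3 f_pp_022_t t 35 62 1 = true := ex3_b s140_pp_022_t k19_pp_022_t

theorem s142_pp_022_t : ∃ t, chk3 f_pp_022_t t 35 31 1 = true := ex3_b s141_pp_022_t k20_pp_022_t

theorem s143_pp_022_t : ∃ t, chk3 f_pp_022_t t 17 31 1 = true := ex3_a k14_pp_022_t s142_pp_022_t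

theorem s144_pp_022_t : ∃ t, chk3 f_pp_022_t t 71 123 1 = true := ex3_b k12_pp_022_t k13_pp_022_t

theorem s145_pp_022_t : ∃ t, chk3 f_pp_022_t t 71 61 1 = true := ex3_b k11_pp_022_t s144_pp_022_t

theorem s146_pp_022_t : ∃ t, chk3 f_pp_022_t t 71 30 1 = true := ex3_b k10_pp_022_t s145_pp_022_t

theorem s147_pp_022_t : ∃ t, chk3 f_pp_022_t t 35 30 1 = true := ex3_a k9_pp_022_t s146_pp_022_t

theorem s148_pp_022_t : ∃ t, chk3 f_pp_022_t t 17 30 1 = true := ex3_a k8_pp_022_t s147_pp_022_t

theorem s149_pp_022_t : ∃ t, chk3 f_pp_022_t t 17 15 1 = true := ex3_b s148_pp_022_t s143_pp_022_t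

theorem s150_pp_022_t : ∃ t, chk3 f_pp_022_t t 8 15 1 = true := ex3_a k7_pp_022_t s149_pp_022_t

theorem s151_pp_022_t : ∃ t, chk3 f_pp_022_t t 8 7 1 = true := ex3_b k6_pp_022_t s150_pp_022_t

theorem s152_pp_022_t : ∃ t, chk3 f_pp_022_t t 4 7 1 = true := ex3_a s151_pp_022_t s137_pp_022_t

theorem s153_pp_022_t : ∃ t, chk3 f_pp_022_t t 19 13 1 = true := ex3_b k4_pp_022_t k5_pp_022_t

theorem s154_pp_022_t : ∃ t, chk3 f_pp_022_t t 9 13 1 = true := ex3_a k3_pp_022_t s153_pp_022_t

theorem s155_pp_022_t : ∃ t, chk3 f_pp_022_t t 9 6 1 = true := ex3_b k2_pp_022_t s154_pp_022_t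

theorem s156_pp_022_t : ∃ t, chk3 f_pp_022_t t 4 6 1 = true := ex3_a k1_pp_022_t s155_pp_022_t

theorem s157_pp_022_t : ∃ t, chk3 f_pp_022_t t 4 3 1 = true := ex3_b s156_pp_022_t s152_pp_022_t

theorem s158_pp_022_t : ∃ t, chk3 f_pp_022_t t 2 3 1 = true := ex3_a s157_pp_022_t s111_pp_022_t

theorem s159_pp_022_t : ∃ t, chk3 f_pp_022_t t 2 1 1 = true := ex3_b k0_pp_022_t s158_pp_022_t

theorem s160_pp_022_t : ∃ t, chk3 f_pp_022_t t 1 1 1 = true := ex3_a s159_pp_022_t s92_pp_022_t

theorem c_pp_022_t : CertNE 0 536870912 0 536870912 966367641 24778659 3 eng mog cd0q0 cd0q2 pd2 true true true .pp 0 2 2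
    ndB0q0 ndB0q2 pcB2 cut_pp_022_t Ext.none :=
  certNE2 (fam := true) (s1 := true) (s2 := true) (a := 0) (b := 2) (c := 2) (cn := .pp) (n1 := ndB0q0) (n2 := ndB0q2) (pc := pcB2) (cut := cut_pp_022_t) (xt := Ext.none) (P1 := 0) (W1 := 536870912) (P2 := 0) (W2 := 536870912) (P3 := 966367641) (W3 := 24778659) (N0 := 3) (En := eng) (mo := mog) (C1 := cd0q0) (C2 := cd0q2) (C3 := pd2)
    rfl (fun _ => rfl) s160_pp_022_t

noncomputable def cut_pp_023_s : Cut := Cut.of [[⟨4, 0, 0, 1449551462⟩]]

noncomputable def f_pp_023_s : ℕ → ℕ → ℕ → ℕ → Bool := onCell 0 536870912 0 536870912 966367641 24778659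
    (rowNE 3 eng mog cd0q0 cd0q2 pd3 0 true true true .up 0 2 3 (qsf 0 536870912 0 536870912 3) ndB0q0 ndB0q2 pcB3 cut_pp_023_s Ext.none)

def k0_pp_023_s : ∃ t, chk3 f_pp_023_s t 1 1 1 = true :=
  ⟨(l 6), by decide +kernel⟩

theorem c_pp_023_s : CertNE 0 536870912 0 536870912 966367641 24778659 3 eng mog cd0q0 cd0q2 pd3 true true true .up 0 2 3
    ndB0q0 ndB0q2 pcB3 cut_pp_023_s Ext.none :=
  certNE0 (fam := true) (s1 := true) (s2 := true) (a := 0) (b := 2) (c := 3) (cn := .up) (n1 := ndB0q0) (n2 := ndB0q2) (pc := pcB3) (cut := cut_pp_023_s) (xt := Ext.none) (P1 := 0) (W1 := 536870912) (P2 := 0) (W2 := 536870912) (P3 := 966367641) (W3 := 24778659) (N0 := 3) (En := eng) (mo := mog) (C1 := cd0q0) (C2 := cd0q2) (C3 := pd3)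
    rfl k0_pp_023_s

noncomputable def cut_pp_023_t : Cut := Cut.of [[⟨3, 0, 0, 2845415833⟩]]

noncomputable def f_pp_023_t : ℕ → ℕ → ℕ → ℕ → Bool := onCell 1610612736 536870912 0 536870912 966367641 24778659
    (rowNE 3 eng mog cd0q0 cd0q2 pd3 2 true true true .up 0 2 3 (qsf 0 536870912 0 536870912 3) ndB0q0 ndB0q2 pcB3 cut_pp_023_t Ext.none)

def k0_pp_023_t : ∃ t, chk3 f_pp_023_t t 8 2 1 = true :=
  ⟨(a (a (c (b (b (c (l 16625880) (l 16622216)) (b (l 16605648) (l 16604816))) (b (b (c (l 16720488) (l 16722320)) (c (b (l 16745296) (l 16762840)) (l 16754896))) (b (b (c (a (l 16754616) (l 90429097367)) (a (l 16776448) (l 16744040))) (l 4)) (l 4)))) (b (b (c (l 16516384) (l 16423160)) (c (b (l 16602056) (l 16625848)) (b (l 16535128) (l 16597432)))) (b (b (c (l 16693904) (l 16620840)) (c (l 16743664) (b (l 16713968) (l 16749008)))) (b (b (c (l 86670983751) (c (l 16727424) (l 16727000))) (l 4)) (l 4))))) (b (b (c (c (l 16646584) (l 16624904)) (c (l 16526128) (l 16440688))) (c (c (l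 16589160) (l 16684664)) (c (b (l 16615144) (l 16641080)) (b (l 16555840) (l 16620152))))) (b (c (b (c (l 16736224) (l 16732880)) (a (b (l 16760192) (l 70564902759)) (c (l 78081067719) (l 16729016)))) (b (c (l 16711184) (l 16687408)) (c (b (l 16749712) (l 82912900327)) (b (l 16739960) (a (l 16767728) (l 16771584)))))) (l 4)))) (b (a (b (c (c (l 16664984) (l 16629800)) (c (l 16517424) (l 16440080))) (c (c (l 16615712) (l 16672808)) (b (c (l 16630384) (l 16578888)) (c (l 16679152) (l 16623904))))) (b (c (c (l 16681168) (l 16636760)) (c (l 16531984) (l 16462944))) (c (c (b (l 16712248) (l 16736368)) (l 16652168)) (c (b (l 16647520) (l 16697904)) (c (l 16562560) (l 16544368)))))) (b (b (a (a (c (l 16749296) (l 16716264)) (c (l 16754208) (l 16727896))) (c (c (b (l 16756040) (l 16769824)) (l 16758496)) (c (l 16750040) (a (l 16734328) (l 16747760))))) (a (b (c (a (l 16770504) (l 81839183911)) (c (l 16768880) (l 16744376))) (a (a (c (l 93650327975) (l 93650325207)) (l 4)) (l 4))) (a (b (c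 (l 92039709479) (l 92039708599)) (l 4)) (l 4)))) (l 4)))), by decide +kernel⟩

def k1_pp_023_t : ∃ t, chk3 f_pp_023_t t 9 2 1 = true :=
  ⟨(b (c (a (b (c (a (l 16691792) (l 16695992)) (a (l 16645648) (l 16656328))) (a (b (l 16671200) (c (l 16748752) (l 16735384))) (b (l 16681088) (c (l 16758880) (l 16749960))))) (b (a (c (l 16701896) (l 16668672)) (c (l 16709496) (l 16682552))) (a (b (l 16734424) (c (l 69491140167) (l 16744264))) (b (l 16705312) (c (b (l 16773976) (l 97945274583)) (l 89892200951)))))) (a (b (c (a (l 16527616) (l 16546032)) (a (l 16467000) (l 16472864))) (a (c (b (l 16666312) (l 16718040)) (b (l 16630648) (l 16698976))) (b (c (l 16686512) (l 16658632)) (c (l 16739336) (l 16727640))))) (b (a (c (l 16628952) (l 16480264)) (c (l 16650304) (l 16509800))) (a (b (c (l 16707912) (l 16687616)) (c (l 16735736) (b (l 16739408) (l 16770344)))) (b (c (l 16730272) (l 16717224)) (c (b (l 16769104) (l 16719800)) (b (l 16766168) (l 98482151431)))))))) (b (b (a (a (c (c (b (l 16767744)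 (l 92039702791)) (b (l 16763664) (l 92576578295))) (c (b (l 16757968) (l 93113448951)) (b (l 16751720) (l 92576574727)))) (b (c (a (l 16775712) (l 93113462823)) (c (l 16752680) (l 76470464375))) (l 4))) (l 4)) (l 4)) (l 4))), by decide +kernel⟩

def k2_pp_023_t : ∃ t, chk3 f_pp_023_t t 5 2 1 = true :=
  ⟨(a (b (b (a (b (a (c (l 16691744) (l 16618336)) (c (l 16704736) (l 16634912))) (c (a (l 16726264) (l 16740592)) (a (l 16689616) (l 16716472)))) (l 2)) (a (b (c (a (c (l 16763712) (l 16758688)) (c (l 87207858487) (l 81302286711))) (a (c (l 16752624) (l 16745896)) (c (l 74859836599) (b (l 16758968) (l 16747544))))) (a (a (b (c (l 16769152) (l 16748424)) (l 4)) (l 4)) (l 4))) (l 2))) (l 4)) (l 2)), by decide +kernel⟩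

def k3_pp_023_t : ∃ t, chk3 f_pp_023_t t 2 3 1 = true :=
  ⟨(l 4), by decide +kernel⟩

def k4_pp_023_t : ∃ t, chk3 f_pp_023_t t 3 1 1 = true :=
  ⟨(l 2), by decide +kernel⟩

theorem s5_pp_023_t : ∃ t, chk3 f_pp_023_t t 4 2 1 = true := ex3_a k0_pp_023_t k1_pp_023_t

theorem s6_pp_023_t : ∃ t, chk3 f_pp_023_t t 2 2 1 = true := ex3_a s5_pp_023_t k2_pp_023_t

theorem s7_pp_023_t : ∃ t, chk3 f_pp_023_t t 2 1 1 = true := ex3_b s6_pp_023_t k3_pp_023_t

theorem s8_pp_023_t : ∃ t, chk3 f_pp_023_t t 1 1 1 = true := ex3_a s7_pp_023_t k4_pp_023_t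

theorem c_pp_023_t : CertNE 0 536870912 0 536870912 966367641 24778659 3 eng mog cd0q0 cd0q2 pd3 true true true .up 0 2 3
    ndB0q0 ndB0q2 pcB3 cut_pp_023_t Ext.none :=
  certNE2 (fam := true) (s1 := true) (s2 := true) (a := 0) (b := 2) (c := 3) (cn := .up) (n1 := ndB0q0) (n2 := ndB0q2) (pc := pcB3) (cut := cut_pp_023_t) (xt := Ext.none) (P1 := 0) (W1 := 536870912) (P2 := 0) (W2 := 536870912) (P3 := 966367641) (W3 := 24778659) (N0 := 3) (En := eng) (mo := mog) (C1 := cd0q0) (C2 := cd0q2) (C3 := pd3)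
    rfl (fun _ => rfl) s8_pp_023_t

noncomputable def cut_pp_101_s : Cut := Cut.of [[⟨4, 0, 0, 1449551462⟩]]

noncomputable def f_pp_101_s : ℕ → ℕ → ℕ → ℕ → Bool := onCell 536870912 536870912 0 536870912 966367641 24778659
    (rowNE 3 eng mog cd0q1 cd0q0 pd1 0 true true true .npn 1 0 1 (qsf 536870912 536870912 0 536870912 1) ndB0q1 ndB0q0 pcB1 cut_pp_101_s Ext.none)

def k0_pp_101_s : ∃ t, chk3 f_pp_101_s t 1 1 1 = true :=
  ⟨(l 6), by decide +kernel⟩

theorem c_pp_101_s : CertNE 536870912 536870912 0 536870912 966367641 24778659 3 eng mog cd0q1 cd0q0 pd1 true true true .npn 1 0 1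
    ndB0q1 ndB0q0 pcB1 cut_pp_101_s Ext.none :=
  certNE0 (fam := true) (s1 := true) (s2 := true) (a := 1) (b := 0) (c := 1) (cn := .npn) (n1 := ndB0q1) (n2 := ndB0q0) (pc := pcB1) (cut := cut_pp_101_s) (xt := Ext.none) (P1 := 536870912) (W1 := 536870912) (P2 := 0) (W2 := 536870912) (P3 := 966367641) (W3 := 24778659) (N0 := 3) (En := eng) (mo := mog) (C1 := cd0q1) (C2 := cd0q0) (C3 := pd1)
    rfl k0_pp_101_s

noncomputable def cut_pp_101_t : Cut := Cut.of [[⟨3, 0, 0, 2845415833⟩]]

noncomputable def f_pp_101_t : ℕ → ℕ → ℕ → ℕ → Bool := onCell 536870912 536870912 0 536870912 966367641 24778659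
    (rowNE 3 eng mog cd0q1 cd0q0 pd1 0 true true true .npn 1 0 1 (qsf 536870912 536870912 0 536870912 1) ndB0q1 ndB0q0 pcB1 cut_pp_101_t Ext.none)

def k0_pp_101_t : ∃ t, chk3 f_pp_101_t t 1 1 1 = true :=
  ⟨(a (l 4) (l 5)), by decide +kernel⟩

theorem c_pp_101_t : CertNE 536870912 536870912 0 536870912 966367641 24778659 3 eng mog cd0q1 cd0q0 pd1 true true true .npn 1 0 1
    ndB0q1 ndB0q0 pcB1 cut_pp_101_t Ext.none :=
  certNE0 (fam := true) (s1 := true) (s2 := true) (a := 1) (b := 0) (c := 1) (cn := .npn) (n1 := ndB0q1) (n2 := ndB0q0) (pc := pcB1) (cut := cut_pp_101_t) (xt := Ext.none) (P1 := 536870912) (W1 := 536870912) (P2 := 0) (W2 := 536870912) (P3 := 966367641) (W3 := 24778659) (N0 := 3) (En := eng) (mo := mog) (C1 := cd0q1) (C2 := cd0q0) (C3 := pd1)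
    rfl k0_pp_101_t

noncomputable def cut_pp_102_s : Cut := Cut.of [[⟨4, 0, 0, 1449551462⟩]]

noncomputable def f_pp_102_s : ℕ → ℕ → ℕ → ℕ → Bool := onCell 536870912 536870912 0 536870912 966367641 24778659
    (rowNE 3 eng mog cd0q1 cd0q0 pd2 0 true true true .npp 1 0 2 (qsf 536870912 536870912 0 536870912 2) ndB0q1 ndB0q0 pcB2 cut_pp_102_s Ext.none)

def k0_pp_102_s : ∃ t, chk3 f_pp_102_s t 1 1 1 = true :=
  ⟨(l 6), by decide +kernel⟩

theorem c_pp_102_s : CertNE 536870912 536870912 0 536870912 966367641 24778659 3 eng mog cd0q1 cd0q0 pd2 true true true .npp 1 0 2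
    ndB0q1 ndB0q0 pcB2 cut_pp_102_s Ext.none :=
  certNE0 (fam := true) (s1 := true) (s2 := true) (a := 1) (b := 0) (c := 2) (cn := .npp) (n1 := ndB0q1) (n2 := ndB0q0) (pc := pcB2) (cut := cut_pp_102_s) (xt := Ext.none) (P1 := 536870912) (W1 := 536870912) (P2 := 0) (W2 := 536870912) (P3 := 966367641) (W3 := 24778659) (N0 := 3) (En := eng) (mo := mog) (C1 := cd0q1) (C2 := cd0q0) (C3 := pd2)
    rfl k0_pp_102_s

noncomputable def cut_pp_102_t : Cut := Cut.of [[⟨3, 0, 0, 2845415833⟩]]

noncomputable def f_pp_102_t : ℕ → ℕ → ℕ → ℕ → Bool := onCell 536870912 536870912 0 536870912 966367641 24778659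
    (rowNE 3 eng mog cd0q1 cd0q0 pd2 0 true true true .npp 1 0 2 (qsf 536870912 536870912 0 536870912 2) ndB0q1 ndB0q0 pcB2 cut_pp_102_t Ext.none)

def k0_pp_102_t : ∃ t, chk3 f_pp_102_t t 1 1 1 = true :=
  ⟨(a (l 4) (l 5)), by decide +kernel⟩

theorem c_pp_102_t : CertNE 536870912 536870912 0 536870912 966367641 24778659 3 eng mog cd0q1 cd0q0 pd2 true true true .npp 1 0 2
    ndB0q1 ndB0q0 pcB2 cut_pp_102_t Ext.none :=
  certNE0 (fam := true) (s1 := true) (s2 := true) (a := 1) (b := 0) (c := 2) (cn := .npp) (n1 := ndB0q1) (n2 := ndB0q0) (pc := pcB2) (cut := cut_pp_102_t) (xt := Ext.none) (P1 := 536870912) (W1 := 536870912) (P2 := 0) (W2 := 536870912) (P3 := 966367641) (W3 := 24778659) (N0 := 3) (En := eng) (mo := mog) (C1 := cd0q1) (C2 := cd0q0) (C3 := pd2)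
    rfl k0_pp_102_t

noncomputable def cut_pp_112_s : Cut := Cut.of [[⟨4, 0, 0, 1449551462⟩]]

noncomputable def f_pp_112_s : ℕ → ℕ → ℕ → ℕ → Bool := onCell 536870912 536870912 536870912 536870912 966367641 24778659
    (rowNE 3 eng mog cd0q1 cd0q1 pd2 0 true true true .dn 1 1 2 (qsf 536870912 536870912 536870912 536870912 2) ndB0q1 ndB0q1 pcB2 cut_pp_112_s Ext.none)

def k0_pp_112_s : ∃ t, chk3 f_pp_112_s t 1 1 1 = true :=
  ⟨(l 4), by decide +kernel⟩

theorem c_pp_112_s : CertNE 536870912 536870912 536870912 536870912 966367641 24778659 3 eng mog cd0q1 cd0q1 pd2 true true true .dn 1 1 2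
    ndB0q1 ndB0q1 pcB2 cut_pp_112_s Ext.none :=
  certNE0 (fam := true) (s1 := true) (s2 := true) (a := 1) (b := 1) (c := 2) (cn := .dn) (n1 := ndB0q1) (n2 := ndB0q1) (pc := pcB2) (cut := cut_pp_112_s) (xt := Ext.none) (P1 := 536870912) (W1 := 536870912) (P2 := 536870912) (W2 := 536870912) (P3 := 966367641) (W3 := 24778659) (N0 := 3) (En := eng) (mo := mog) (C1 := cd0q1) (C2 := cd0q1) (C3 := pd2)
    rfl k0_pp_112_s

noncomputable def cut_pp_112_t : Cut := Cut.of [[⟨3, 0, 0, 2845415833⟩]]

noncomputable def f_pp_112_t : ℕ → ℕ → ℕ → ℕ → Bool := onCell 536870912 536870912 536870912 536870912 966367641 24778659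
    (rowNE 3 eng mog cd0q1 cd0q1 pd2 0 true true true .dn 1 1 2 (qsf 536870912 536870912 536870912 536870912 2) ndB0q1 ndB0q1 pcB2 cut_pp_112_t Ext.none)

def k0_pp_112_t : ∃ t, chk3 f_pp_112_t t 1 1 1 = true :=
  ⟨(l 4), by decide +kernel⟩

theorem c_pp_112_t : CertNE 536870912 536870912 536870912 536870912 966367641 24778659 3 eng mog cd0q1 cd0q1 pd2 true true true .dn 1 1 2
    ndB0q1 ndB0q1 pcB2 cut_pp_112_t Ext.none :=
  certNE0 (fam := true) (s1 := true) (s2 := true) (a := 1) (b := 1) (c := 2) (cn := .dn) (n1 := ndB0q1) (n2 := ndB0q1) (pc := pcB2) (cut := cut_pp_112_t) (xt := Ext.none) (P1 := 536870912) (W1 := 536870912) (P2 := 536870912) (W2 := 536870912) (P3 := 966367641) (W3 := 24778659) (N0 := 3) (En := eng) (mo := mog) (C1 := cd0q1) (C2 := cd0q1) (C3 := pd2)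
    rfl k0_pp_112_t

noncomputable def cut_pp_113_s : Cut := Cut.of [[⟨4, 0, 0, 1449551462⟩]]

noncomputable def f_pp_113_s : ℕ → ℕ → ℕ → ℕ → Bool := onCell 536870912 536870912 536870912 536870912 966367641 24778659
    (rowNE 3 eng mog cd0q1 cd0q1 pd3 0 true true true .nn 1 1 3 (qsf 536870912 536870912 536870912 536870912 3) ndB0q1 ndB0q1 pcB3 cut_pp_113_s Ext.none)

def k0_pp_113_s : ∃ t, chk3 f_pp_113_s t 1 1 1 = true :=
  ⟨(l 4), by decide +kernel⟩

theorem c_pp_113_s : CertNE 536870912 536870912 536870912 536870912 966367641 24778659 3 eng mog cd0q1 cd0q1 pd3 true true true .nn 1 1 3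
    ndB0q1 ndB0q1 pcB3 cut_pp_113_s Ext.none :=
  certNE0 (fam := true) (s1 := true) (s2 := true) (a := 1) (b := 1) (c := 3) (cn := .nn) (n1 := ndB0q1) (n2 := ndB0q1) (pc := pcB3) (cut := cut_pp_113_s) (xt := Ext.none) (P1 := 536870912) (W1 := 536870912) (P2 := 536870912) (W2 := 536870912) (P3 := 966367641) (W3 := 24778659) (N0 := 3) (En := eng) (mo := mog) (C1 := cd0q1) (C2 := cd0q1) (C3 := pd3)
    rfl k0_pp_113_s

noncomputable def cut_pp_113_t : Cut := Cut.of [[⟨3, 0, 0, 2845415833⟩]]

noncomputable def f_pp_113_t : ℕ → ℕ → ℕ → ℕ → Bool := onCell 536870912 536870912 536870912 536870912 966367641 24778659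
    (rowNE 3 eng mog cd0q1 cd0q1 pd3 0 true true true .nn 1 1 3 (qsf 536870912 536870912 536870912 536870912 3) ndB0q1 ndB0q1 pcB3 cut_pp_113_t Ext.none)

def k0_pp_113_t : ∃ t, chk3 f_pp_113_t t 1 1 1 = true :=
  ⟨(l 4), by decide +kernel⟩

theorem c_pp_113_t : CertNE 536870912 536870912 536870912 536870912 966367641 24778659 3 eng mog cd0q1 cd0q1 pd3 true true true .nn 1 1 3
    ndB0q1 ndB0q1 pcB3 cut_pp_113_t Ext.none :=
  certNE0 (fam := true) (s1 := true) (s2 := true) (a := 1) (b := 1) (c := 3) (cn := .nn) (n1 := ndB0q1) (n2 := ndB0q1) (pc := pcB3) (cut := cut_pp_113_t) (xt := Ext.none) (P1 := 536870912) (W1 := 536870912) (P2 := 536870912) (W2 := 536870912) (P3 := 966367641) (W3 := 24778659) (N0 := 3) (En := eng) (mo := mog) (C1 := cd0q1) (C2 := cd0q1) (C3 := pd3)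
    rfl k0_pp_113_t

noncomputable def cut_pp_123_s : Cut := Cut.of [[⟨4, 0, 0, 1449551462⟩]]

noncomputable def f_pp_123_s : ℕ → ℕ → ℕ → ℕ → Bool := onCell 536870912 536870912 0 536870912 966367641 24778659
    (rowNE 3 eng mog cd0q1 cd0q2 pd3 0 true true true .npn 1 2 3 (qsf 536870912 536870912 0 536870912 3) ndB0q1 ndB0q2 pcB3 cut_pp_123_s Ext.none)

def k0_pp_123_s : ∃ t, chk3 f_pp_123_s t 1 1 1 = true :=
  ⟨(l 6), by decide +kernel⟩

theorem c_pp_123_s : CertNE 536870912 536870912 0 536870912 966367641 24778659 3 eng mog cd0q1 cd0q2 pd3 true true true .npn 1 2 3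
    ndB0q1 ndB0q2 pcB3 cut_pp_123_s Ext.none :=
  certNE0 (fam := true) (s1 := true) (s2 := true) (a := 1) (b := 2) (c := 3) (cn := .npn) (n1 := ndB0q1) (n2 := ndB0q2) (pc := pcB3) (cut := cut_pp_123_s) (xt := Ext.none) (P1 := 536870912) (W1 := 536870912) (P2 := 0) (W2 := 536870912) (P3 := 966367641) (W3 := 24778659) (N0 := 3) (En := eng) (mo := mog) (C1 := cd0q1) (C2 := cd0q2) (C3 := pd3)
    rfl k0_pp_123_s

noncomputable def cut_pp_123_t : Cut := Cut.of [[⟨3, 0, 0, 2845415833⟩]]

noncomputable def f_pp_123_t : ℕ → ℕ → ℕ → ℕ → Bool := onCell 536870912 536870912 0 536870912 966367641 24778659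
    (rowNE 3 eng mog cd0q1 cd0q2 pd3 0 true true true .npn 1 2 3 (qsf 536870912 536870912 0 536870912 3) ndB0q1 ndB0q2 pcB3 cut_pp_123_t Ext.none)

def k0_pp_123_t : ∃ t, chk3 f_pp_123_t t 1 1 1 = true :=
  ⟨(a (b (a (a (b (b (a (c (a (c (l 16740472) (l 16729488)) (b (l 16733208) (c (l 16749560) (l 16767648)))) (a (b (l 16680400) (c (l 16742592) (l 16734360))) (b (l 16708384) (c (l 16743280) (l 58753716791))))) (b (c (a (l 16750240) (b (l 16758824) (l 85060396727))) (a (l 16736496) (a (l 16756440) (l 68954274039)))) (a (b (c (l 85597264503) (a (l 16770528) (l 16772224))) (l 4)) (l 4)))) (a (b (a (c (c (l 95797772295) (l 96334650119)) (b (a (l 16771952) (l 16771232)) (l 4))) (l 4)) (l 4)) (l 4))) (l 4)) (b (a (b (a (b (c (b (l 84523528631) (l 4)) (a (l 85060394007) (l 99555894823))) (l 4)) (l 4)) (l 4)) (l 4)) (l 4))) (l 4)) (l 4)) (l 4)), by decide +kernel⟩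

theorem c_pp_123_t : CertNE 536870912 536870912 0 536870912 966367641 24778659 3 eng mog cd0q1 cd0q2 pd3 true true true .npn 1 2 3
    ndB0q1 ndB0q2 pcB3 cut_pp_123_t Ext.none :=
  certNE0 (fam := true) (s1 := true) (s2 := true) (a := 1) (b := 2) (c := 3) (cn := .npn) (n1 := ndB0q1) (n2 := ndB0q2) (pc := pcB3) (cut := cut_pp_123_t) (xt := Ext.none) (P1 := 536870912) (W1 := 536870912) (P2 := 0) (W2 := 536870912) (P3 := 966367641) (W3 := 24778659) (N0 := 3) (En := eng) (mo := mog) (C1 := cd0q1) (C2 := cd0q2) (C3 := pd3)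
    rfl k0_pp_123_t

noncomputable def cut_pp_202_s : Cut := Cut.of [[⟨4, 0, 0, 1449551462⟩]]

noncomputable def f_pp_202_s : ℕ → ℕ → ℕ → ℕ → Bool := onCell 0 536870912 0 536870912 966367641 24778659
    (rowNE 3 eng mog cd0q2 cd0q0 pd2 0 true true true .pp 2 0 2 (qsf 0 536870912 0 536870912 2) ndB0q2 ndB0q0 pcB2 cut_pp_202_s Ext.none)

def k0_pp_202_s : ∃ t, chk3 f_pp_202_s t 1 1 1 = true :=
  ⟨(l 5), by decide +kernel⟩

theorem c_pp_202_s : CertNE 0 536870912 0 536870912 966367641 24778659 3 eng mog cd0q2 cd0q0 pd2 true true true .pp 2 0 2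
    ndB0q2 ndB0q0 pcB2 cut_pp_202_s Ext.none :=
  certNE0 (fam := true) (s1 := true) (s2 := true) (a := 2) (b := 0) (c := 2) (cn := .pp) (n1 := ndB0q2) (n2 := ndB0q0) (pc := pcB2) (cut := cut_pp_202_s) (xt := Ext.none) (P1 := 0) (W1 := 536870912) (P2 := 0) (W2 := 536870912) (P3 := 966367641) (W3 := 24778659) (N0 := 3) (En := eng) (mo := mog) (C1 := cd0q2) (C2 := cd0q0) (C3 := pd2)
    rfl k0_pp_202_s

noncomputable def cut_pp_202_t : Cut := Cut.of [[⟨3, 0, 0, 2845415833⟩]]

noncomputable def f_pp_202_t : ℕ → ℕ → ℕ → ℕ → Bool := onCell 0 536870912 0 536870912 966367641 24778659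
    (rowNE 3 eng mog cd0q2 cd0q0 pd2 0 true true true .pp 2 0 2 (qsf 0 536870912 0 536870912 2) ndB0q2 ndB0q0 pcB2 cut_pp_202_t Ext.none)

def k0_pp_202_t : ∃ t, chk3 f_pp_202_t t 1 1 1 = true :=
  ⟨(l 5), by decide +kernel⟩

theorem c_pp_202_t : CertNE 0 536870912 0 536870912 966367641 24778659 3 eng mog cd0q2 cd0q0 pd2 true true true .pp 2 0 2
    ndB0q2 ndB0q0 pcB2 cut_pp_202_t Ext.none :=
  certNE0 (fam := true) (s1 := true) (s2 := true) (a := 2) (b := 0) (c := 2) (cn := .pp) (n1 := ndB0q2) (n2 := ndB0q0) (pc := pcB2) (cut := cut_pp_202_t) (xt := Ext.none) (P1 := 0) (W1 := 536870912) (P2 := 0) (W2 := 536870912) (P3 := 966367641) (W3 := 24778659) (N0 := 3) (En := eng) (mo := mog) (C1 := cd0q2) (C2 := cd0q0) (C3 := pd2)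
    rfl k0_pp_202_t

noncomputable def cut_pp_203_s : Cut := Cut.of [[⟨4, 0, 0, 1449551462⟩]]

noncomputable def f_pp_203_s : ℕ → ℕ → ℕ → ℕ → Bool := onCell 0 536870912 0 536870912 966367641 24778659
    (rowNE 3 eng mog cd0q2 cd0q0 pd3 0 true true true .up 2 0 3 (qsf 0 536870912 0 536870912 3) ndB0q2 ndB0q0 pcB3 cut_pp_203_s Ext.none)

def k0_pp_203_s : ∃ t, chk3 f_pp_203_s t 1 1 1 = true :=
  ⟨(l 5), by decide +kernel⟩

theorem c_pp_203_s : CertNE 0 536870912 0 536870912 966367641 24778659 3 eng mog cd0q2 cd0q0 pd3 true true true .up 2 0 3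
    ndB0q2 ndB0q0 pcB3 cut_pp_203_s Ext.none :=
  certNE0 (fam := true) (s1 := true) (s2 := true) (a := 2) (b := 0) (c := 3) (cn := .up) (n1 := ndB0q2) (n2 := ndB0q0) (pc := pcB3) (cut := cut_pp_203_s) (xt := Ext.none) (P1 := 0) (W1 := 536870912) (P2 := 0) (W2 := 536870912) (P3 := 966367641) (W3 := 24778659) (N0 := 3) (En := eng) (mo := mog) (C1 := cd0q2) (C2 := cd0q0) (C3 := pd3)
    rfl k0_pp_203_s

noncomputable def cut_pp_203_t : Cut := Cut.of [[⟨3, 0, 0, 2845415833⟩]]

noncomputable def f_pp_203_t : ℕ → ℕ → ℕ → ℕ → Bool := onCell 0 536870912 0 536870912 966367641 24778659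
    (rowNE 3 eng mog cd0q2 cd0q0 pd3 0 true true true .up 2 0 3 (qsf 0 536870912 0 536870912 3) ndB0q2 ndB0q0 pcB3 cut_pp_203_t Ext.none)

def k0_pp_203_t : ∃ t, chk3 f_pp_203_t t 1 1 1 = true :=
  ⟨(l 5), by decide +kernel⟩

theorem c_pp_203_t : CertNE 0 536870912 0 536870912 966367641 24778659 3 eng mog cd0q2 cd0q0 pd3 true true true .up 2 0 3
    ndB0q2 ndB0q0 pcB3 cut_pp_203_t Ext.none :=
  certNE0 (fam := true) (s1 := true) (s2 := true) (a := 2) (b := 0) (c := 3) (cn := .up) (n1 := ndB0q2) (n2 := ndB0q0) (pc := pcB3) (cut := cut_pp_203_t) (xt := Ext.none) (P1 := 0) (W1 := 536870912) (P2 := 0) (W2 := 536870912) (P3 := 966367641) (W3 := 24778659) (N0 := 3) (En := eng) (mo := mog) (C1 := cd0q2) (C2 := cd0q0) (C3 := pd3)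
    rfl k0_pp_203_t

noncomputable def cut_pp_213_s : Cut := Cut.of [[⟨4, 0, 0, 1449551462⟩]]

noncomputable def f_pp_213_s : ℕ → ℕ → ℕ → ℕ → Bool := onCell 0 536870912 536870912 536870912 966367641 24778659
    (rowNE 3 eng mog cd0q2 cd0q1 pd3 0 true true true .pnn 2 1 3 (qsf 0 536870912 536870912 536870912 3) ndB0q2 ndB0q1 pcB3 cut_pp_213_s Ext.none)

def k0_pp_213_s : ∃ t, chk3 f_pp_213_s t 1 1 1 = true :=
  ⟨(l 6), by decide +kernel⟩

theorem c_pp_213_s : CertNE 0 536870912 536870912 536870912 966367641 24778659 3 eng mog cd0q2 cd0q1 pd3 true true true .pnn 2 1 3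
    ndB0q2 ndB0q1 pcB3 cut_pp_213_s Ext.none :=
  certNE0 (fam := true) (s1 := true) (s2 := true) (a := 2) (b := 1) (c := 3) (cn := .pnn) (n1 := ndB0q2) (n2 := ndB0q1) (pc := pcB3) (cut := cut_pp_213_s) (xt := Ext.none) (P1 := 0) (W1 := 536870912) (P2 := 536870912) (W2 := 536870912) (P3 := 966367641) (W3 := 24778659) (N0 := 3) (En := eng) (mo := mog) (C1 := cd0q2) (C2 := cd0q1) (C3 := pd3)
    rfl k0_pp_213_s

noncomputable def cut_pp_213_t : Cut := Cut.of [[⟨3, 0, 0, 2845415833⟩]]

noncomputable def f_pp_213_t : ℕ → ℕ → ℕ → ℕ → Bool := onCell 0 536870912 536870912 536870912 966367641 24778659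
    (rowNE 3 eng mog cd0q2 cd0q1 pd3 0 true true true .pnn 2 1 3 (qsf 0 536870912 536870912 536870912 3) ndB0q2 ndB0q1 pcB3 cut_pp_213_t Ext.none)

def k0_pp_213_t : ∃ t, chk3 f_pp_213_t t 1 1 1 = true :=
  ⟨(a (l 5) (l 4)), by decide +kernel⟩

theorem c_pp_213_t : CertNE 0 536870912 536870912 536870912 966367641 24778659 3 eng mog cd0q2 cd0q1 pd3 true true true .pnn 2 1 3
    ndB0q2 ndB0q1 pcB3 cut_pp_213_t Ext.none :=
  certNE0 (fam := true) (s1 := true) (s2 := true) (a := 2) (b := 1) (c := 3) (cn := .pnn) (n1 := ndB0q2) (n2 := ndB0q1) (pc := pcB3) (cut := cut_pp_213_t) (xt := Ext.none) (P1 := 0) (W1 := 536870912) (P2 := 536870912) (W2 := 536870912) (P3 := 966367641) (W3 := 24778659) (N0 := 3) (En := eng) (mo := mog) (C1 := cd0q2) (C2 := cd0q1) (C3 := pd3)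
    rfl k0_pp_213_t

noncomputable def cut_pm_001_s : Cut := Cut.of [[⟨4, 0, 0, 1449551462⟩]]

noncomputable def f_pm_001_s : ℕ → ℕ → ℕ → ℕ → Bool := onCell 0 536870912 0 536870912 966367641 24778659
    (rowNE 3 eng mog cd0q0 cd0q0 pd1 0 true true false .up 0 0 1 (qsf 0 536870912 0 536870912 1) ndB0q0 ndB0q0 pcB1 cut_pm_001_s Ext.none)

def k0_pm_001_s : ∃ t, chk3 f_pm_001_s t 1 1 1 = true :=
  ⟨(l 3), by decide +kernel⟩

theorem c_pm_001_s : CertNE 0 536870912 0 536870912 966367641 24778659 3 eng mog cd0q0 cd0q0 pd1 true true false .up 0 0 1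
    ndB0q0 ndB0q0 pcB1 cut_pm_001_s Ext.none :=
  certNE0 (fam := true) (s1 := true) (s2 := false) (a := 0) (b := 0) (c := 1) (cn := .up) (n1 := ndB0q0) (n2 := ndB0q0) (pc := pcB1) (cut := cut_pm_001_s) (xt := Ext.none) (P1 := 0) (W1 := 536870912) (P2 := 0) (W2 := 536870912) (P3 := 966367641) (W3 := 24778659) (N0 := 3) (En := eng) (mo := mog) (C1 := cd0q0) (C2 := cd0q0) (C3 := pd1)
    rfl k0_pm_001_s

noncomputable def cut_pm_001_t : Cut := Cut.of [[⟨3, 0, 0, 2845415833⟩]]

noncomputable def f_pm_001_t : ℕ → ℕ → ℕ → ℕ → Bool := onCell 0 536870912 0 536870912 966367641 24778659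
    (rowNE 3 eng mog cd0q0 cd0q0 pd1 0 true true false .up 0 0 1 (qsf 0 536870912 0 536870912 1) ndB0q0 ndB0q0 pcB1 cut_pm_001_t Ext.none)

def k0_pm_001_t : ∃ t, chk3 f_pm_001_t t 1 1 1 = true :=
  ⟨(l 3), by decide +kernel⟩

theorem c_pm_001_t : CertNE 0 536870912 0 536870912 966367641 24778659 3 eng mog cd0q0 cd0q0 pd1 true true false .up 0 0 1
    ndB0q0 ndB0q0 pcB1 cut_pm_001_t Ext.none :=
  certNE0 (fam := true) (s1 := true) (s2 := false) (a := 0) (b := 0) (c := 1) (cn := .up) (n1 := ndB0q0) (n2 := ndB0q0) (pc := pcB1) (cut := cut_pm_001_t) (xt := Ext.none) (P1 := 0) (W1 := 536870912) (P2 := 0) (W2 := 536870912) (P3 := 966367641) (W3 := 24778659) (N0 := 3) (En := eng) (mo := mog) (C1 := cd0q0) (C2 := cd0q0) (C3 := pd1)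
    rfl k0_pm_001_t

noncomputable def cut_pm_011_s : Cut := Cut.of [[⟨4, 0, 0, 1449551462⟩], [⟨0, 0, 0, 67108864⟩, ⟨1, 1, 0, 67108864⟩, ⟨2, 1, 0, 67108864⟩]]

noncomputable def f_pm_011_s : ℕ → ℕ → ℕ → ℕ → Bool := onCell 536870912 536870912 536870912 536870912 966367641 24778659
    (rowNE 3 eng mog cd0q0 cd0q1 pd1 2 true true false .pnn 0 1 1 (qsf 0 536870912 536870912 536870912 1) ndB0q0 ndB0q1 pcB1 cut_pm_011_s Ext.none)

def k0_pm_011_s : ∃ t, chk3 f_pm_011_s t 1 1 1 = true :=
  ⟨(a (l 3) (b (l 3) (a (l 3) (b (l 3) (a (l 3) (b (l 3) (a (l 3) (b (l 3) (l 14))))))))), by decide +kernel⟩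

theorem c_pm_011_s : CertNE 0 536870912 536870912 536870912 966367641 24778659 3 eng mog cd0q0 cd0q1 pd1 true true false .pnn 0 1 1
    ndB0q0 ndB0q1 pcB1 cut_pm_011_s Ext.none :=
  certNE2 (fam := true) (s1 := true) (s2 := false) (a := 0) (b := 1) (c := 1) (cn := .pnn) (n1 := ndB0q0) (n2 := ndB0q1) (pc := pcB1) (cut := cut_pm_011_s) (xt := Ext.none) (P1 := 0) (W1 := 536870912) (P2 := 536870912) (W2 := 536870912) (P3 := 966367641) (W3 := 24778659) (N0 := 3) (En := eng) (mo := mog) (C1 := cd0q0) (C2 := cd0q1) (C3 := pd1)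
    rfl (fun _ => rfl) k0_pm_011_s

noncomputable def cut_pm_011_t : Cut := Cut.of [[⟨3, 0, 0, 2845415833⟩], [⟨0, 0, 0, 67108864⟩, ⟨1, 1, 0, 67108864⟩, ⟨2, 1, 0, 67108864⟩]]

noncomputable def f_pm_011_t : ℕ → ℕ → ℕ → ℕ → Bool := onCell 0 536870912 536870912 536870912 966367641 24778659
    (rowNE 3 eng mog cd0q0 cd0q1 pd1 0 true true false .pnn 0 1 1 (qsf 0 536870912 536870912 536870912 1) ndB0q0 ndB0q1 pcB1 cut_pm_011_t Ext.none)

def k0_pm_011_t : ∃ t, chk3 f_pm_011_t t 1 1 1 = true :=
  ⟨(l 6), by decide +kernel⟩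

theorem c_pm_011_t : CertNE 0 536870912 536870912 536870912 966367641 24778659 3 eng mog cd0q0 cd0q1 pd1 true true false .pnn 0 1 1
    ndB0q0 ndB0q1 pcB1 cut_pm_011_t Ext.none :=
  certNE0 (fam := true) (s1 := true) (s2 := false) (a := 0) (b := 1) (c := 1) (cn := .pnn) (n1 := ndB0q0) (n2 := ndB0q1) (pc := pcB1) (cut := cut_pm_011_t) (xt := Ext.none) (P1 := 0) (W1 := 536870912) (P2 := 536870912) (W2 := 536870912) (P3 := 966367641) (W3 := 24778659) (N0 := 3) (En := eng) (mo := mog) (C1 := cd0q0) (C2 := cd0q1) (C3 := pd1)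
    rfl k0_pm_011_t

noncomputable def cut_pm_012_s : Cut := Cut.of [[⟨4, 0, 0, 1449551462⟩], [⟨0, 0, 0, 33554432⟩, ⟨1, 1, 0, 33554432⟩, ⟨2, 1, 0, 33554432⟩]]

noncomputable def f_pm_012_s : ℕ → ℕ → ℕ → ℕ → Bool := onCell 1073741824 536870912 536870912 536870912 966367641 24778659
    (rowNE 3 eng mog cd0q0 cd0q1 pd2 2 true true false .pnp 0 1 2 (qsf 0 536870912 536870912 536870912 2) ndB0q0 ndB0q1 pcB2 cut_pm_012_s Ext.none)

def k0_pm_012_s : ∃ t, chk3 f_pm_012_s t 4 2 1 = true :=
  ⟨(a (l 3) (l 3)), by decide +kernel⟩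

def k1_pm_012_s : ∃ t, chk3 f_pm_012_s t 4 6 1 = true :=
  ⟨(a (l 3) (a (b (l 3) (a (l 3) (b (l 3) (a (l 3) (b (l 3) (a (l 3) (b (l 3) (c (l 16744568) (l 16745088))))))))) (b (b (l 3) (a (l 3) (a (b (l 3) (c (l 157470819927) (l 162302636871))) (a (b (l 3) (c (l 16775848) (l 16776024))) (b (l 16772128) (l 16750248)))))) (a (a (b (l 3) (b (a (b (l 3) (l 252497035271)) (b (l 232095943223) (c (l 16776392) (l 16776880)))) (c (a (b (l 16776424) (l 16768400)) (l 16743152)) (a (b (l 16776952) (l 16771120)) (l 16747136))))) (b (b (l 3) (a (c (l 168745135863) (l 175724444455)) (c (l 16754576) (l 16754928)))) (b (a (c (l 16745672) (l 16742176)) (c (l 16763872) (l 16767720))) (a (b (l 16741648) (l 16734392)) (c (l 16727072) (l 16756768)))))) (b (c (a (b (a (l 16769088) (l 16774504)) (a (l 16769992) (l 16762432))) (b (l 16732064) (a (l 16755264) (l 16748400)))) (a (b (a (l 16767288) (l 16775400)) (a (l 16771992) (l 16766352))) (b (l 16745848) (l 16737352)))) (c (a (b (a (l 16756184) (l 16748920))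 (b (l 16741192) (l 16712072))) (b (a (l 16742056) (l 16714512)) (c (l 16720392) (l 16706680)))) (a (b (a (l 16762160) (l 16756816)) (a (l 16751472) (l 16746368))) (b (l 16728168) (l 16717992))))))))), by decide +kernel⟩

def k2_pm_012_s : ∃ t, chk3 f_pm_012_s t 8 14 1 = true :=
  ⟨(a (l 3) (b (l 3) (b (l 3) (a (l 3) (a (b (l 3) (a (l 3) (b (l 3) (a (l 377051138679) (b (l 270750701671) (a (l 16777008) (l 16774600))))))) (b (a (b (l 3) (a (l 3) (l 300278600119))) (b (a (l 3) (b (l 16771832) (l 16755232))) (a (c (l 16765288) (l 16776456)) (c (l 16770224) (l 16772360))))) (a (b (a (b (l 385104209063) (l 196662513639)) (b (l 164987120359) (l 16772752))) (a (c (l 16750688) (l 16773328)) (b (l 16748160) (l 16744488)))) (c (c (a (l 16741840) (l 16735384)) (l 16741024)) (b (l 16747744) (l 16741832)))))))))), by decide +kernel⟩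

def k3_pm_012_s : ∃ t, chk3 f_pm_012_s t 16 30 1 = true :=
  ⟨(a (l 3) (b (l 3) (a (l 3) (b (l 3) (a (l 3) (b (l 3) (a (a (l 3) (b (l 3) (c (l 262160771815) (l 275582546503)))) (b (a (l 391546666455) (b (l 330880249607) (c (l 16776512) (l 16776824)))) (a (b (c (l 16774344) (l 16777200)) (l 16769112)) (c (l 16762296) (l 16774120))))))))))), by decide +kernel⟩

def k4_pm_012_s : ∃ t, chk3 f_pm_012_s t 32 31 1 = true :=
  ⟨(b (a (l 3) (b (l 3) (a (l 3) (b (l 3) (a (l 3) (b (l 3) (a (l 3) (b (l 3) (c (a (l 316921610039) (b (l 277193161063) (l 16776552))) (a (l 323900931847) (b (l 293836159543) (l 16776816)))))))))))) (a (l 14) (b (a (l 14) (b (a (l 14) (b (b (a (l 14) (a (l 14) (c (l 16770784) (l 16775616)))) (l 14)) (l 14))) (l 14))) (l 14)))), by decide +kernel⟩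

def k5_pm_012_s : ∃ t, chk3 f_pm_012_s t 66 124 1 = true :=
  ⟨(a (l 3) (b (l 3) (a (l 3) (b (l 3) (a (b (l 3) (c (a (l 396915374215) (l 195051910455)) (l 270750708903))) (b (c (a (l 333027735447) (l 16775696)) (l 239075325063)) (c (a (l 16776032) (l 16774568)) (l 16775936)))))))), by decide +kernel⟩

def k6_pm_012_s : ∃ t, chk3 f_pm_012_s t 132 125 1 = true :=
  ⟨(b (a (l 3) (b (l 3) (c (a (l 403894697383) (b (l 328195899079) (a (b (l 326048414151) (l 16776792)) (l 16774712)))) (a (l 411947761047) (b (l 335712091815) (a (l 156934077175) (l 16776448))))))) (a (b (a (l 3) (b (l 410874019399) (c (a (l 269140096567) (b (l 174650816567) (l 16776024))) (a (l 282024999127) (b (l 16777160) (l 16776440)))))) (c (a (a (b (l 279877514551) (c (l 16773072) (l 16775936))) (b (b (l 228874778743) (l 16776304)) (l 16769200))) (c (b (l 16770712) (l 16766688)) (b (l 16769808) (l 16767520)))) (b (a (a (l 289004322599) (b (l 192904430263) (l 16776632))) (b (l 16773464) (l 16770032))) (a (c (l 16774376)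 (l 16776072)) (l 16770128))))) (b (b (a (a (c (l 232632873015) (l 251423356935)) (b (a (l 16777216) (l 16776728)) (l 16773360))) (c (a (l 16769696) (l 16763016)) (l 16770000))) (c (a (c (l 16769080) (l 16769528)) (c (l 16765976) (l 16761656))) (a (l 16771864) (l 16768336)))) (c (a (c (b (l 16766344) (l 16763600)) (b (l 16767216) (l 16759664))) (c (a (l 16762624) (l 16761048)) (l 16763400))) (a (c (l 16767184) (l 16768344)) (c (l 16765008) (l 16761424))))))), by decide +kernel⟩

def k7_pm_012_s : ∃ t, chk3 f_pm_012_s t 133 125 1 = true :=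
  ⟨(b (a (b (b (a (l 3) (c (l 289004319095) (l 301352350999))) (a (c (l 294373026471) (l 303499837143)) (a (c (l 103783849975) (l 16776968)) (c (l 16775344) (l 16775968))))) (b (a (a (b (l 278803772967) (l 102173238935)) (a (l 16772976) (l 16770408))) (c (l 16768272) (l 16769512))) (c (a (a (l 16764112) (l 16762664)) (l 16765696)) (a (l 16769760) (l 16762560))))) (a (b (c (b (a (l 16776384) (l 16774960)) (l 16767888)) (c (l 91972684887) (l 16775600))) (c (c (l 16763376) (l 16759408)) (l 16765992))) (c (b (c (l 16760488) (l 16761408)) (c (l 16754872) (l 16756624))) (b (l 16768088) (l 16764600))))) (a (c (a (b (b (l 16766080) (l 16763512)) (b (l 16758320) (l 16755752))) (b (c (l 16758392) (l 16757416)) (b (l 16757944) (l 16750112)))) (b (a (b (l 16768072) (l 16761144)) (b (l 16760848) (l 16759136))) (c (a (l 16757536) (l 16755248)) (a (l 16759696) (l 16757912))))) (c (b (c (a (l 16757760) (l 16749216)) (c (l 16755256) (l 16753832))) (a (b (l 16749656) (l 16747040)) (b (l 16746560)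 (l 16743928)))) (b (a (l 16760568) (l 16755856)) (c (l 16754352) (l 16755152)))))), by decide +kernel⟩

def k8_pm_012_s : ∃ t, chk3 f_pm_012_s t 67 124 1 = true :=
  ⟨(a (b (a (b (l 3) (a (l 3) (l 389399182807))) (b (a (l 3) (b (l 3) (l 297057381911))) (a (b (l 335175217207) (c (l 99488883831) (l 16776808))) (c (c (l 98952002279) (l 16769736)) (b (l 16776480) (l 16774704)))))) (a (b (a (b (l 3) (c (a (l 282024998439) (l 16776648)) (l 207399941143))) (a (b (l 246054646247) (l 16770296)) (b (l 101636365415) (l 16763776)))) (c (a (c (l 16768072) (l 16763400)) (c (l 16759560) (l 16760600))) (a (b (l 16775656) (l 16773904)) (l 16762232)))) (c (b (a (l 16764848) (l 16759136)) (a (l 16759616) (l 16753864))) (b (a (l 16763664) (l 16761544)) (c (l 16758128) (l 16759984)))))) (b (a (b (a (b (c (l 244444033191) (l 261087032711)) (c (l 16775608) (l 16776144))) (c (l 16765968) (l 16774888))) (c (a (l 16761264) (l 16758128)) (a (l 16762976) (l 16760800)))) (c (c (b (l 16758048) (l 16752376))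 (b (l 16759248) (l 16754360))) (c (b (l 16760480) (l 16745928)) (l 16760144)))) (a (c (b (a (l 16756008) (l 16752840)) (a (l 16750704) (l 16747504))) (c (b (l 16757296) (l 16753240)) (a (l 16758672) (l 16746216)))) (b (c (a (l 16749632) (l 16746400)) (l 16753792)) (c (a (l 16744264) (l 16741000)) (l 16750112)))))), by decide +kernel⟩

def k9_pm_012_s : ∃ t, chk3 f_pm_012_s t 67 125 1 = true :=
  ⟨(b (a (a (c (b (a (c (l 16757224) (l 16758616)) (c (l 16753912) (l 16755776))) (a (b (l 16753984) (l 16751352)) (b (l 16750880) (l 16748232)))) (b (a (l 16766032) (l 16758688)) (c (l 16754896) (l 16757520)))) (c (c (b (b (l 16750296) (l 16747424)) (a (l 16755312) (l 16751880))) (b (l 16751440) (l 16746520))) (b (c (l 16754104) (l 16756848)) (c (l 16750048) (l 16753680))))) (c (a (b (a (l 16745352) (l 16742120)) (c (a (l 16748416) (l 16744912)) (l 16740536))) (b (a (l 16738856) (l 16735560)) (a (c (l 16741392) (l 16746448)) (l 16727472)))) (c (a (b (l 16749152) (l 16745032)) (a (l 16743256)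 (l 16730176))) (a (l 16751288) (l 16747152))))) (b (a (a (c (a (b (l 16748720) (l 16746072)) (b (l 16745576) (l 16742912))) (c (l 16750896) (l 16754408))) (c (c (a (l 16749544) (l 16746080)) (l 16741584)) (c (l 16745968) (l 16740008)))) (c (a (c (a (l 16742584) (l 16739064)) (l 16735536)) (b (c (l 16735200) (l 16741112)) (a (l 16726624) (l 16723720)))) (a (a (l 16734304) (l 16731984)) (b (l 16729368) (l 16738168))))) (c (a (a (a (b (l 16743424) (l 16740776)) (b (l 16740248) (l 16737576))) (a (a (l 16736496) (l 16734872)) (b (l 16744264) (c (l 16738912) (l 16744448))))) (a (b (a (l 16730488) (c (l 16734944) (l 16740944))) (a (l 16728384) (l 16736472))) (a (l 16724280) (l 16732464)))) (a (a (c (l 16746888) (l 16751312)) (a (l 16745720) (l 16740888))) (a (c (l 16737232) (l 16743456)) (l 16736328)))))), by decide +kernel⟩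

def k10_pm_012_s : ∃ t, chk3 f_pm_012_s t 33 252 1 = true :=
  ⟨(a (a (a (a (b (c (c (b (l 16767008) (l 16764304)) (b (l 16767800) (l 16765528))) (c (b (l 16768616) (l 16766792)) (l 16770088))) (l 14)) (b (c (c (b (l 16763960) (l 16761232)) (a (l 16764728) (l 16763416))) (c (l 16765600) (l 16767176))) (a (l 14) (b (b (l 16759016) (l 14)) (l 14))))) (c (b (a (c (a (l 16760256) (l 16758688)) (b (l 16767832) (l 16765512))) (c (b (l 16762928) (l 16760152)) (l 16758720))) (c (a (b (l 16760584) (l 16757832)) (b (l 16757376) (l 16754600))) (a (l 16756792) (l 16748800)))) (b (a (c (l 16763440) (l 16760272)) (c (l 16755976) (l 16758560))) (c (a (l 16754464) (l 16752200)) (a (l 16757472) (l 16755712)))))) (c (a (b (a (b (l 16753168) (l 16750592)) (b (l 16747512) (l 16744912))) (b (a (l 16745392) (l 16742312)) (a (a (l 16754064) (l 16742056)) (b (l 16740400) (l 16739472))))) (b (a (b (l 16744424) (l 16741808)) (b (l 16741296) (l 16738656))) (b (a (a (l 16739976) (l 16738480)) (b (l 16736840)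 (l 16746552))) (a (l 16737544) (l 16745896))))) (b (a (a (c (l 16753704) (l 16756784)) (l 16754472)) (c (l 16747808) (l 16752136))) (a (b (a (l 16752712) (l 16750608)) (a (l 16751072) (l 16749072))) (b (a (l 16748528) (l 16746488)) (l 16746344)))))) (a (c (a (a (b (b (l 16738120) (b (l 16736128) (l 16735048))) (l 16744200)) (b (b (c (l 16742904) (l 16747952)) (l 16733000)) (l 16742056))) (b (a (b (c (l 16739808) (l 16745224)) (l 16741216)) (l 16729016)) (l 16728304))) (a (b (c (c (l 16741872) (l 16744464)) (l 16748424)) (l 16743400)) (b (a (l 16742632) (l 16730288)) (l 16729424)))) (c (a (b (l 16725688) (l 16723856)) (b (l 16721184) (l 16708832))) (a (b (l 16727624) (l 16725808)) (l 16733496))))), by decide +kernel⟩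

def k11_pm_012_s : ∃ t, chk3 f_pm_012_s t 33 253 1 = true :=
  ⟨(a (a (a (l 14) (a (l 14) (b (b (c (b (l 16743928) (l 14)) (l 16751584)) (l 14)) (l 14)))) (a (a (b (c (b (b (l 16741176) (l 16751064)) (l 16750472)) (b (l 16749680) (l 16738384))) (l 14)) (c (b (l 16748824) (l 16747256)) (l 16746864))) (c (b (b (l 16735632) (l 16734816)) (l 16733632)) (b (l 16745168) (l 16733120))))) (a (a (c (b (l 16730960) (l 16729344)) (b (l 16731264) (l 16729664))) (c (b (l 16726584) (l 16714456)) (l 16737376))) (c (a (a (l 16722384) (l 16709632)) (c (l 16723968) (l 16730384))) (a (l 16723216) (l 16719432))))), by decide +kernel⟩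

def k12_pm_012_s : ∃ t, chk3 f_pm_012_s t 33 127 1 = true :=
  ⟨(a (b (a (l 14) (a (l 14) (c (b (l 16732128) (l 14)) (l 16741416)))) (l 14)) (b (a (a (c (a (l 16728184) (l 16725992)) (l 16737912)) (c (a (l 16723776) (l 16732016)) (l 16723808))) (c (a (c (l 16725608) (l 16731632)) (l 16713464)) (a (l 16720064) (l 16716208)))) (a (a (l 14) (b (l 16717176) (l 14))) (c (a (l 16715424) (l 16700248)) (b (l 16716048) (l 16714808)))))), by decide +kernel⟩

def k13_pm_012_s : ∃ t, chk3 f_pm_012_s t 34 60 1 = true :=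
  ⟨(a (l 3) (b (l 3) (a (b (l 3) (a (l 3) (b (l 333564600055) (a (l 227801031351) (l 16770032))))) (a (a (b (l 3) (b (l 146196640951) (l 16751568))) (b (b (l 3) (l 228337902103)) (c (l 16750064) (l 16772736)))) (b (b (a (l 311016024039) (l 141364812999)) (c (l 16752464) (l 16774512))) (c (l 16750472) (l 16748232))))))), by decide +kernel⟩

def k14_pm_012_s : ∃ t, chk3 f_pm_012_s t 68 61 1 = true :=
  ⟨(b (a (b (l 3) (a (l 3) (b (l 3) (l 367387470023)))) (b (a (l 3) (a (l 405505309815) (c (l 271287574759) (l 286856833591)))) (b (a (a (l 3) (l 291151800071)) (a (c (l 16775960) (l 16776416)) (l 16763048))) (a (a (b (l 295983639959) (l 16771056)) (c (l 16774264) (l 16775112))) (c (l 16758984) (l 16750648)))))) (a (b (a (b (l 3) (a (l 321216571479) (b (l 244444031607) (c (l 16775480) (l 16776016))))) (b (a (b (l 411947758311) (l 201494358055)) (c (l 16772832) (l 16776032))) (c (a (l 16763144) (l 16749464)) (l 16763040)))) (a (c (a (b (l 92509550343) (l 16759120)) (b (l 16761152) (l 16755920)))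 (b (c (l 16763600) (l 16774720)) (l 16760256))) (c (c (b (l 16755632) (l 16749976)) (b (l 16746584) (l 16741688))) (c (l 16756504) (l 16758448))))) (c (b (a (b (l 16760296) (l 16755104)) (c (l 16744928) (l 16752240))) (a (b (l 16747224) (b (l 16735368) (l 16732688))) (b (l 16743264) (l 16732640)))) (b (a (c (l 16759592) (l 16750424)) (c (l 16743896) (l 16746112))) (a (c (l 16751272) (l 16743624)) (c (l 16735448) (l 16739176))))))), by decide +kernel⟩

def k15_pm_012_s : ∃ t, chk3 f_pm_012_s t 69 61 1 = true :=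
  ⟨(b (a (b (a (b (a (l 308331669959) (c (l 16776272) (l 16776656))) (c (l 16762624) (l 16774264))) (c (c (l 16747696) (l 16748760)) (l 16760904))) (c (a (c (l 16743792) (l 16745344)) (c (l 16736840) (l 16739216))) (a (l 16758248) (l 16753424)))) (c (a (b (c (l 16740784) (l 16742680)) (b (l 16734040) (l 16728816))) (b (l 16740440) (a (l 16726488) (l 16723184)))) (b (a (l 16745648) (l 16740840)) (a (l 16738056) (l 16733152))))) (a (c (b (a (b (l 16736768) (l 16731480)) (c (l 16725656) (l 16729376))) (a (b (l 16726128) (l 16731200)) (b (l 16719448) (l 16714000)))) (b (a (c (l 16738592) (l 16741696)) (l 16740440)) (a (c (l 16730040) (l 16734632)) (b (l 16729264) (l 16725296))))) (b (a (c (b (l 16723528) (l 16718168)) (l 16730216)) (c (a (l 16715856) (l 16712528)) (l 16725232))) (c (a (b (l 16712744) (l 16707272)) (a (l 16707600) (l 16701632))) (a (l 16724848) (l 16717184)))))), by decide +kernel⟩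

def k16_pm_012_s : ∃ t, chk3 f_pm_012_s t 35 60 1 = true :=
  ⟨(a (b (a (b (a (l 3) (a (l 396378498391) (l 258939538471))) (a (b (l 314774117399) (a (l 215452999799) (l 16775240))) (c (a (l 16753016) (l 16770984)) (l 16763392)))) (c (b (a (b (l 16766360) (l 16773064)) (l 16748136)) (a (l 16745320) (l 16739104))) (b (a (b (l 16776800) (l 16774280)) (l 16771488)) (b (l 16747912) (l 16744656))))) (a (c (b (a (l 16753776) (l 16742192)) (a (l 16738768) (l 16732360))) (a (b (l 16750688) (l 16743520)) (b (l 16746152) (l 16738888)))) (c (b (a (l 16735920) (l 16729712)) (a (l 16726048) (l 16719808))) (b (a (l 16741720) (l 16737408)) (a (l 16734424) (l 16730056)))))) (b (c (a (b (a (l 16741968) (l 16735848)) (a (l 16732936) (l 16726816))) (b (a (l 16729784) (l 16744744)) (b (l 16720024) (l 16715432)))) (a (b (l 16749312) (l 16737720)) (b (l 16735712) (l 16729416)))) (a (b (c (a (l 16723544) (l 16717432)) (l 16731032)) (c (a (l 16713624) (l 16707536)) (l 16722032))) (c (b (b (l 16710760)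 (l 16705944)) (b (l 16701008) (l 16695944))) (b (l 16722768) (l 16715512)))))), by decide +kernel⟩

def k17_pm_012_s : ∃ t, chk3 f_pm_012_s t 35 61 1 = true :=
  ⟨(a (b (a (c (b (a (l 16728664) (l 16722184)) (a (a (l 16719888) (l 16737568)) (l 16711712))) (b (a (l 16736024) (l 16731304)) (a (l 16728256) (l 16723456)))) (c (b (a (l 16715792) (l 16709480)) (a (l 16705256) (l 16698888))) (b (a (l 16726712) (l 16722256)) (a (l 16718776) (l 16714224))))) (c (c (a (b (a (l 16725472) (l 16718488)) (a (l 16713880) (b (l 16709800) (l 16703928)))) (b (a (l 16711568) (l 16704720)) (a (b (l 16702856) (l 16676880)) (b (l 16675424) (l 16692632))))) (a (b (a (l 16731624) (l 16725464)) (a (l 16721400) (l 16715192))) (b (l 16695424) (a (l 16688504) (l 16704320))))) (a (b (a (l 16720280) (l 16715424)) (a (l 16712192) (a (l 16708504) (l 16706104)))) (b (a (l 16710680) (l 16706048)) (a (l 16700096) (l 16698392)))))) (c (b (a (b (a (l 16703280) (l 16697152)) (a (l 16692608) (l 16686432))) (b (a (l 16691112)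 (l 16706136)) (a (l 16680376) (b (l 16698096) (l 16692952))))) (a (b (a (b (l 16705448) (l 16679096)) (b (l 16699216) (l 16694760))) (a (l 16673528) (l 16689880))) (b (a (b (l 16693736) (l 16690120)) (l 16687384)) (l 16662136)))) (b (b (a (l 16710600) (l 16707632)) (a (a (l 16709808) (l 16705528)) (a (l 16701400) (l 16697472)))) (a (b (c (l 16694312) (l 16704904)) (l 16692424)) (b (l 16691704) (l 16684792)))))), by decide +kernel⟩

def k18_pm_012_s : ∃ t, chk3 f_pm_012_s t 34 62 2 = true :=
  ⟨(a (b (a (a (b (c (b (l 16751192) (l 16745456)) (a (l 16752328) (l 16749304))) (b (a (l 16743136) (l 16729360)) (a (l 16737704) (l 16734392)))) (b (b (b (l 16747064) (l 16744376)) (a (l 16731480) (l 16749144))) (b (a (l 16726040) (l 16743680)) (a (l 16720560) (l 16717208))))) (c (b (a (b (l 16747712) (l 16741864)) (b (l 16740640) (l 16734744))) (a (b (l 16735960) (l 16730008)) (b (l 16728800) (a (l 16724608) (l 16720984))))) (b (a (b (l 16751520) (l 16746472)) (l 16732224)) (a (b (l 16741384)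 (l 16736272)) (b (l 16735048) (l 16729888)))))) (a (b (b (a (a (l 16732240) (l 16728896)) (a (l 16715048) (l 16711672))) (a (a (l 16726744) (b (l 16735248) (l 16722016))) (b (a (l 16731864) (l 16718136)) (a (l 16719032) (l 16726944))))) (a (b (a (b (l 16722800) (l 16731704)) (l 16719520)) (l 16718560)) (a (l 16716120) (l 16703312)))) (b (b (a (b (l 16718456) (a (l 16727864) (l 16724832))) (b (a (l 16702984) (l 16721136)) (l 16721040))) (a (a (l 16714768) (l 16722840)) (l 16719336))) (a (c (l 16717032) (l 16724568)) (c (l 16712120) (l 16720000)))))) (b (a (c (b (a (b (l 16733520) (l 16727600)) (b (l 16726376) (l 16720432))) (a (b (l 16721616) (b (l 16717176) (l 16704536))) (b (b (l 16715936) (l 16713208)) (l 16689688)))) (b (a (l 16715408) (l 16730016)) (a (b (l 16728664) (l 16723992)) (b (l 16722408) (l 16718848))))) (b (b (a (l 16701744) (l 16695008)) (a (a (l 16718824) (l 16694472)) (a (l 16701832) (l 16688536)))) (a (a (b (l 16703480) (l 16711112)) (l 16696968)) (l 16685504))))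 (c (a (b (c (l 16702072) (l 16711360)) (l 16707272)) (b (l 16699472) (l 16694552))) (a (b (a (l 16719840) (l 16715248)) (l 16713024)) (b (l 16708264) (l 16703520)))))), by decide +kernel⟩

def k19_pm_012_s : ∃ t, chk3 f_pm_012_s t 34 63 2 = true :=
  ⟨(a (b (a (b (a (b (l 16706104) (l 16725176)) (c (l 16717856) (l 16725056))) (a (c (l 16719088) (l 16725896)) (l 16707216))) (b (a (c (l 16712904) (l 16720472)) (l 16690848)) (a (l 16691880) (l 16686960)))) (b (a (a (l 16698232) (l 16693400)) (b (l 16686816) (l 16685216))) (a (b (l 16693680) (l 16692408)) (b (l 16683752) (l 16703408))))) (b (a (b (a (l 16685952) (l 16701960)) (b (l 16680432) (l 16678520))) (b (b (l 16674576) (l 16672376)) (c (l 16685688) (l 16694832)))) (b (a (a (l 16699400) (l 16694264)) (c (l 16681928) (l 16691080))) (a (a (l 16696376) (l 16691176)) (l 16662288))))), by decide +kernel⟩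

def k20_pm_012_s : ∃ t, chk3 f_pm_012_s t 34 31 3 = true :=
  ⟨(b (a (b (a (b (a (c (l 16753400) (l 16756064)) (c (l 16748192) (l 16741296))) (a (c (l 16745104) (l 16749496)) (b (l 16733848) (l 16730072)))) (b (a (c (l 16732368) (l 16736856)) (c (l 16726928) (l 16732288))) (a (c (l 16723896) (l 16730136)) (b (l 16723840) (l 16720024))))) (b (a (a (b (l 16741648) (a (l 16728592) (l 16726184))) (b (l 16726264) (a (l 16723840) (l 16721576)))) (b (a (b (l 16722216) (l 16720440)) (l 16716768)) (a (l 16718472) (l 16735472)))) (a (a (b (a (l 16725216) (l 16723168)) (l 16722128)) (l 16719288)) (a (l 16715360) (l 16711344))))) (b (b (a (a (b (l 16726448) (l 16722568)) (b (l 16721352) (l 16717432))) (b (a (l 16716248) (l 16732144)) (a (l 16712320) (l 16707520)))) (a (a (b (l 16718704) (l 16715160)) (b (l 16713656) (l 16710680))) (a (b (l 16708976) (l 16727512)) (l 16703552)))) (a (b (a (l 16711504) (l 16707368)) (b (l 16706216) (l 16704080))) (b (b (l 16702176) (l 16699912)) (l 16696560)))))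 (b (a (a (b (a (l 16719216) (l 16715320)) (a (l 16715552) (l 16711576))) (b (a (l 16711328) (l 16707240)) (l 16705448))) (a (b (l 16700944) (l 16696968)) (b (l 16692248) (l 16688152)))) (b (a (a (l 16710240) (l 16701960)) (a (l 16693328) (l 16684392))) (a (a (l 16707360) (l 16698928)) (a (l 16690160) (l 16681080)))))), by decide +kernel⟩

def k21_pm_012_s : ∃ t, chk3 f_pm_012_s t 35 31 1 = true :=
  ⟨(b (a (a (c (a (b (b (b (a (l 16690000) (l 16686960)) (l 16705776)) (l 16701736)) (b (l 16696536) (l 16691528))) (b (b (b (l 16683040) (l 16701048)) (l 16696968)) (b (l 16691640) (l 16686504)))) (b (b (a (b (l 16706296) (l 16724120)) (l 16700440)) (l 16697296)) (b (l 16692400) (l 16687712)))) (c (b (b (a (l 16697768) (l 16693104)) (c (l 16684968) (l 16694664))) (b (c (l 16679368) (l 16689216)) (c (l 16673968) (l 16683976)))) (b (b (l 16694352) (l 16688872)) (b (l 16683648) (l 16678664))))) (c (c (b (a (a (l 16680456) (l 16675552)) (l 16670808)) (a (a (l 16647912) (l 16642736)) (l 16655928)))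 (b (a (l 16694800) (l 16679032)) (a (l 16676752) (l 16666904)))) (b (a (b (l 16686256) (l 16680400)) (a (l 16677088) (l 16672968))) (a (a (l 16674376) (l 16669872)) (b (l 16686968) (l 16681320)))))) (c (a (b (a (b (c (l 16679448) (l 16689104)) (c (l 16674984) (l 16684736))) (b (a (l 16676496) (l 16671296)) (l 16648296))) (b (a (l 16654904) (l 16665120)) (a (l 16651536) (l 16661576)))) (b (a (b (l 16642496) (l 16658600)) (b (l 16652968) (l 16647864))) (b (a (l 16654248) (l 16643280)) (a (l 16650496) (l 16639320))))) (a (b (a (b (l 16683224) (l 16699992)) (b (l 16673976) (l 16690568))) (b (a (l 16696112) (l 16686592)) (a (l 16692696) (l 16683064)))) (b (a (a (l 16664592) (l 16659808)) (l 16642064)) (b (a (l 16676800) (l 16666832)) (l 16636656)))))), by decide +kernel⟩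

def k22_pm_012_s : ∃ t, chk3 f_pm_012_s t 36 14 1 = true :=
  ⟨(a (b (l 3) (b (b (a (l 3) (b (l 3) (a (l 351818209751) (l 176261407207)))) (a (b (a (l 3) (l 279340633943)) (a (l 231559121095) (c (l 16773872) (l 16774992)))) (c (b (l 102710072231) (l 16744336)) (b (l 16753152) (l 16769040))))) (b (a (b (c (l 16758752) (l 16771728)) (a (l 16750504) (l 16740280))) (c (b (l 16736640) (l 16728680)) (a (l 16742032) (l 16738128)))) (b (a (c (l 16732120) (l 16739576)) (c (l 16720464) (l 16731688))) (a (c (l 16723632) (l 16733704)) (c (l 16711992) (l 16725864))))))) (b (b (l 3) (b (a (l 3) (c (l 317458461511) (l 343228270455))) (c (a (l 306721042455) (b (l 113984341207) (l 16770992))) (a (l 328195882983) (b (l 16745256) (l 16773016)))))) (b (a (b (c (c (l 101636318599) (l 77477131271)) (a (l 53317930487) (l 16771752))) (c (a (l 16739504) (l 16733872)) (l 16742888))) (b (c (l 16736008) (l 16745152)) (c (l 16717704) (l 16735416)))) (c (b (a (b (l 16725240) (l 16717296)) (a (l 16712944) (l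 16707480))) (a (b (l 16709096) (l 16700640)) (a (l 16696584) (l 16691160)))) (b (a (l 16732408) (l 16725016)) (a (l 16710720) (l 16713912))))))), by decide +kernel⟩

def k23_pm_012_s : ∃ t, chk3 f_pm_012_s t 37 14 1 = true :=
  ⟨(b (a (b (b (l 3) (a (b (l 3) (l 321216558471)) (c (c (l 16744512) (l 16755504)) (b (l 16772744) (l 16775184))))) (c (a (b (c (l 110763118631) (l 16744096)) (l 16742528)) (b (l 16744504) (l 16732048))) (b (a (c (l 16755128) (l 16739944)) (l 16769240)) (a (l 16767904) (l 16760848))))) (b (c (a (b (c (l 16754904) (l 16776240)) (l 16766896)) (b (l 16767896) (l 16757352))) (a (b (b (l 16772152) (l 16775720)) (l 16770184)) (b (l 16770824) (l 16763680)))) (c (a (b (l 16734376) (l 16721928)) (b (l 16724768) (l 16712328))) (a (b (l 16762408) (l 16754080)) (b (l 16755928) (l 16747656)))))) (b (a (c (b (a (l 16729128) (l 16718664)) (a (l 16714776) (l 16704352))) (b (a (l 16737888) (l 16751880)) (a (l 16728224) (l 16721320)))) (b (a (b (l 16698160) (l 16692400)) (b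 (l 16690168) (l 16684440))) (c (a (l 16694352) (l 16684880)) (a (l 16714712) (l 16708448))))) (a (c (b (a (l 16688984) (l 16668160)) (a (a (l 16685840) (l 16680616)) (c (l 16687448) (l 16700608)))) (b (a (l 16717912) (l 16711104)) (a (l 16706920) (l 16700224)))) (b (c (a (l 16679240) (l 16669896)) (a (l 16704600) (l 16698432))) (c (a (a (l 16665648) (l 16639928)) (a (l 16635584) (l 16652496))) (a (l 16672888) (l 16687640))))))), by decide +kernel⟩

def k24_pm_012_s : ∃ t, chk3 f_pm_012_s t 19 14 1 = true :=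
  ⟨(c (a (b (b (a (b (a (l 16758904) (l 16750392)) (c (l 16720664) (l 16725752))) (b (l 16696624) (l 16686616))) (a (b (a (l 16715832) (l 16728544)) (a (l 16703384) (l 16716032))) (b (l 16675216) (l 16662784)))) (b (a (b (a (l 16690112) (l 16702760)) (a (l 16676024) (l 16688704))) (b (a (l 16695008) (l 16687784)) (b (l 16638992) (l 16632048)))) (a (b (a (l 16640120) (l 16632304)) (a (l 16646800) (l 16660320))) (b (a (l 16667064) (l 16660120)) (l 16607488))))) (b (b (a (b (l 16703384) (l 16693712)) (a (l 16689056) (l 16682992))) (a (b (l 16682680) (l 16649448)) (b (l 16670432) (l 16679336)))) (b (a (b (a (l 16681064) (l 16674968)) (l 16643168)) (b (l 16665896) (l 16651568))) (a (b (l 16649904) (l 16635008)) (b (l 16636416) (l 16620744)))))) (a (b (b (a (b (a (l 16764624) (l 16758736)) (a (l 16757568) (l 16751808))) (b (l 16750464) (l 16743768))) (a (b (l 16715568) (l 16696816)) (b (l 16694312) (l 16686144)))) (b (a (b (l 16688056) (l 16678736)) (b (l 16677352) (l 16667712))) (a (b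 (a (l 16692592) (l 16686752)) (l 16657088)) (b (l 16656472) (l 16665120))))) (b (b (a (b (l 16740216) (l 16733728)) (l 16706368)) (a (a (l 16703816) (l 16678024)) (b (l 16716672) (l 16707680)))) (b (a (b (l 16666896) (l 16676768)) (l 16649224)) (a (l 16616344) (l 16623912)))))), by decide +kernel⟩

def k25_pm_012_s : ∃ t, chk3 f_pm_012_s t 36 30 1 = true :=
  ⟨(b (a (b (c (a (b (l 16714880) (l 16705864)) (b (l 16703256) (l 16694272))) (a (b (l 16727632) (l 16721384)) (b (l 16719840) (l 16713648)))) (a (c (b (l 16686024) (c (l 16702624) (l 16712744))) (b (l 16714792) (l 16707600))) (c (b (l 16684960) (l 16664672)) (b (l 16707112) (l 16699976))))) (b (c (a (b (l 16691944) (l 16683000)) (b (l 16680984) (l 16672104))) (a (b (l 16712336) (l 16706192)) (l 16681232))) (c (a (b (l 16673744) (a (l 16666872) (l 16662040))) (b (a (l 16665568) (l 16660696)) (l 16655592))) (a (b (l 16699728) (l 16692776)) (b (l 16692696) (l 16685944)))))) (c (a (b (b (a (a (l 16700240) (l 16673432)) (a (l 16657640)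 (l 16663376))) (a (a (b (l 16692344) (l 16688184)) (l 16685752)) (l 16679304))) (a (b (l 16659952) (l 16674120)) (b (l 16672288) (l 16665208)))) (b (a (b (l 16677864) (l 16670856)) (c (l 16658768) (l 16673296))) (a (b (l 16663664) (l 16656304)) (c (l 16644240) (l 16658264))))) (b (a (a (b (l 16699848) (l 16691992)) (b (l 16692520) (l 16706104))) (b (l 16661128) (l 16653808))) (a (a (b (l 16684600) (l 16698232)) (l 16663216)) (a (l 16645440) (l 16659272)))))), by decide +kernel⟩

def k26_pm_012_s : ∃ t, chk3 f_pm_012_s t 37 30 1 = true :=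
  ⟨(b (b (a (c (a (b (l 16691400) (c (l 16675440) (l 16690160))) (b (l 16639416) (l 16652984))) (a (b (l 16698216) (l 16692232)) (l 16667768))) (c (a (b (l 16672784) (l 16665968)) (l 16640664)) (a (l 16682216) (l 16675656)))) (a (c (a (b (l 16654304) (l 16668320)) (l 16642712)) (a (l 16682656) (l 16675928))) (c (b (l 16613224) (l 16605952)) (l 16644704)))) (c (a (b (a (l 16620832) (l 16628096)) (a (c (l 16635048) (l 16649784)) (l 16591544))) (a (b (l 16619616) (l 16603640)) (b (l 16632104) (l 16615744)))) (b (a (a (l 16668096) (l 16661024)) (l 16629320)) (a (a (l 16651920) (l 16644496)) (l 16612296))))), by decide +kernel⟩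

def k27_pm_012_s : ∃ t, chk3 f_pm_012_s t 18 31 1 = true :=
  ⟨(b (a (c (c (a (b (a (l 16658376) (l 16648592)) (a (l 16645536) (l 16635152))) (b (a (l 16638912) (l 16629248)) (a (l 16603848) (l 16593576)))) (a (b (a (l 16669840) (l 16660720)) (a (l 16657056) (l 16647240))) (b (a (l 16651736) (l 16642792)) (a (l 16637496) (l 16627856))))) (a (a (b (l 16656344) (l 16654128)) (b (l 16637776) (l 16645208))) (b (b (l 16629888) (l 16622152)) (a (l 16636400) (l 16627744))))) (c (c (a (b (b (l 16618800) (l 16610904)) (c (l 16585392) (l 16581936))) (b (l 16595664) (c (l 16554448) (l 16562136)))) (b (a (a (l 16633840) (l 16625032)) (l 16611672)) (a (a (l 16618392) (l 16608992)) (l 16594912)))) (a (b (b (l 16635616) (l 16627208)) (b (l 16619160) (l 16611312))) (b (l 16594848) (a (l 16623704) (l 16615632)))))) (a (a (b (c (a (b (l 16642432) (l 16637072)) (b (l 16631888) (l 16626264))) (b (l 16619848) (l 16635488))) (c (b (a (l 16632256) (l 16621200)) (a (l 16628080) (l 16616800))) (b (l 16630728)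 (l 16626656)))) (b (c (a (b (l 16621384) (l 16615480)) (b (l 16610952) (l 16604752))) (b (l 16622032) (l 16615992))) (c (b (a (l 16610152) (l 16599144)) (a (l 16605504) (l 16594240))) (a (l 16634184) (l 16624016))))) (c (c (b (a (c (l 16571168) (l 16567600)) (b (l 16567720) (l 16560504))) (a (b (l 16575840) (l 16570528)) (b (l 16553856) (l 16547984)))) (b (a (l 16599184) (l 16579408)) (a (l 16587064) (l 16565880)))) (b (a (a (l 16625848) (l 16616728)) (a (l 16607888) (l 16599168))) (a (a (l 16613952) (l 16604032)) (a (l 16594304) (l 16584800))))))), by decide +kernel⟩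

def k28_pm_012_s : ∃ t, chk3 f_pm_012_s t 19 15 1 = true :=
  ⟨(b (b (a (c (a (b (c (l 16641392) (l 16659000)) (c (l 16626480) (l 16644488))) (b (l 16592848) (l 16577360))) (a (b (l 16644656) (l 16651744)) (b (l 16651992) (l 16637576)))) (c (a (b (l 16598624) (l 16603352)) (b (l 16604576) (l 16587584))) (a (b (l 16638136) (l 16644192)) (l 16574576)))) (a (c (a (b (c (l 16610496) (l 16628488)) (c (l 16593736) (l 16611384))) (b (l 16560608) (c (l 16575576) (l 16594336)))) (a (b (l 16635752) (l 16618112)) (b (l 16621032) (l 16602824)))) (c (a (b (l 16585848) (l 16567424)) (b (l 16569352) (l 16550208))) (a (b (l 16627136) (l 16608400)) (l 16539632))))) (b (a (b (c (a (c (l 16576552) (l 16593848)) (a (l 16571328) (l 16562192))) (a (l 16600032) (l 16605128))) (c (a (c (l 16538512) (l 16576536)) (a (l 16553592) (l 16544096))) (a (l 16582328) (l 16586832)))) (c (a (b (l 16527632) (a (l 16534664) (l 16525288))) (b (l 16530680) (l 16511360))) (a (b (l 16589200) (l 16570360)) (b (l 16573256)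 (l 16553920))))) (a (c (c (b (a (l 16538008) (l 16522936)) (a (l 16518640) (l 16486856))) (b (a (l 16559928) (l 16540960)) (a (l 16545448) (l 16525424)))) (b (a (a (l 16590504) (l 16582080)) (l 16569280)) (a (l 16529136) (l 16511120)))) (c (b (a (a (l 16517152) (l 16507432)) (l 16493000)) (a (a (l 16501464) (l 16491408)) (l 16476488))) (b (a (l 16552256) (l 16535320)) (a (l 16535736) (l 16518288))))))), by decide +kernel⟩

def k29_pm_012_s : ∃ t, chk3 f_pm_012_s t 5 2 1 = true :=
  ⟨(b (a (a (a (l 3) (l 2)) (l 2)) (l 2)) (a (a (a (a (l 3) (b (l 3) (b (l 3) (b (a (l 3) (l 16772648)) (a (l 16770816) (l 16774696)))))) (a (b (b (l 3) (a (l 3) (l 16813856))) (b (a (l 94120249943) (l 16811048)) (a (b (l 16773768) (l 16768184)) (b (l 16767288) (l 16761688))))) (a (b (b (c (l 16774000) (l 16774088)) (c (l 16775008) (l 16775496))) (b (b (l 16770048) (l 16765768)) (b (l 16760816) (l 16755184)))) (b (b (l 16773880) (l 16768864)) (b (l 16761488) (a (l 16753152) (l 16749920))))))) (b (b (b (l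 2) (l 16744512)) (b (a (l 16754600) (l 16729560)) (a (l 16751504) (l 16726472)))) (a (b (b (l 16747768) (l 16743408)) (b (l 16738368) (l 16732648))) (b (b (l 16722712) (l 16718264)) (b (l 16713136) (l 16707320)))))) (b (a (b (l 2) (c (l 16623112) (l 16685688))) (l 2)) (a (b (b (a (l 16698032) (l 16673688)) (l 16618504)) (b (l 16613336) (l 16628384))) (a (b (l 16626464) (l 16553280)) (b (l 2) (l 16550624))))))), by decide +kernel⟩

def k30_pm_012_s : ∃ t, chk3 f_pm_012_s t 10 6 1 = true :=
  ⟨(a (a (b (b (a (b (l 172503275143) (a (l 16770256) (l 16774472))) (b (a (l 16774944) (l 16768400)) (a (l 16767872) (l 16761304)))) (a (b (a (l 16773224) (l 16766568)) (c (l 16759592) (l 16762992))) (b (a (l 16759952) (l 16753360)) (a (l 16751376) (l 16744624))))) (c (b (a (b (l 16749464) (l 16738384)) (b (l 16735728) (l 16725376))) (a (b (l 16725912) (l 16690736)) (b (l 16692584) (l 16678832)))) (b (a (b (l 16755400) (l 16747440)) (b (l 16743160) (l 16735808))) (a (b (l 16738680) (l 16728816))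 (b (l 16727504) (l 16717520)))))) (a (b (a (b (b (l 16761872) (l 16754760)) (b (l 16746800) (l 16738040))) (b (b (l 16755352) (l 16748224)) (b (l 16740240) (l 16731464)))) (b (b (a (l 16729576) (l 16723024)) (a (l 16721096) (l 16714704))) (b (b (l 16668744) (l 16663200)) (b (l 16656904) (l 16691736))))) (a (b (b (b (l 16748832) (l 16741688)) (b (l 16733688) (l 16724896))) (b (b (l 16695464) (l 16686560)) (b (l 16696840) (l 16662872)))) (b (b (l 16696824) (b (a (l 16728776) (l 16725448)) (a (l 16719832) (l 16716032)))) (b (b (a (l 16710608) (l 16705960)) (a (l 16700944) (l 16696120))) (b (a (l 16690072) (l 16664352)) (a (l 16656224) (l 16651552)))))))) (b (b (b (a (l 16726224) (l 16700832)) (a (l 16719048) (l 16693600))) (b (a (l 16710936) (l 16664560)) (a (l 16701072) (l 16654832)))) (b (a (b (l 16690720) (c (l 16678264) (l 16683528))) (b (l 16665160) (l 16654768))) (b (a (b (l 16651936) (l 16646368)) (l 16602312)) (a (b (l 16640192) (l 16612448)) (c (l 16628376) (l 16636728))))))),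 by decide +kernel⟩

def k31_pm_012_s : ∃ t, chk3 f_pm_012_s t 11 6 1 = true :=
  ⟨(b (b (a (b (l 16621808) (a (l 16668656) (l 16644200))) (c (l 16550400) (l 16548296))) (a (b (a (l 16660600) (l 16636128)) (a (l 16651120) (l 16626896))) (b (l 16579376) (a (l 16603096) (l 16579680))))) (b (a (b (a (l 16640320) (l 16616136)) (a (l 16629648) (l 16605248))) (b (a (l 16592536) (l 16569512)) (a (l 16581504) (l 16558344)))) (b (a (a (l 16618680) (l 16594016)) (l 16516512)) (a (a (l 16586064) (l 16581936)) (l 16483112))))), by decide +kernel⟩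

def k32_pm_012_s : ∃ t, chk3 f_pm_012_s t 5 14 1 = true :=
  ⟨(a (a (a (b (b (a (b (l 16646936) (l 16638848)) (b (l 16655920) (l 16647232))) (a (b (l 16629200) (l 16618064)) (b (l 16637216) (l 16625984)))) (b (a (b (l 16605720) (l 16581744)) (b (l 16613568) (l 16599984))) (c (a (b (l 16623184) (l 16606680)) (l 16559536)) (c (l 16572832) (l 16612992))))) (b (a (b (a (l 16641408) (l 16634168)) (a (l 16621472) (l 16614272))) (b (a (l 16626400) (a (l 16619840) (l 16615240))) (a (l 16606576) (a (l 16600096) (c (l 16627504) (l 16647968)))))) (a (b (c (l 16620472) (l 16628960)) (b (l 16571232) (l 16534344))) (b (a (l 16560736) (a (l 16554312) (c (l 16599824) (l 16626232)))) (a (c (l 16577072) (l 16611744)) (a (c (l 16571112) (l 16604912)) (c (l 16566984) (l 16600128)))))))) (c (b (a (b (l 16593840) (l 16551024)) (b (l 16612304) (l 16590816))) (b (a (b (l 16593664) (l 16578440)) (l 16563200)) (a (b (l 16561920) (l 16544192)) (l 16530048)))) (b (b (a (l 16629344) (l 16624616)) (a (l 16591352)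 (l 16608344))) (a (b (l 16548864) (b (l 16592704) (l 16578576))) (b (l 16587368) (l 16561688)))))) (b (a (b (a (l 16530376) (l 16568416)) (a (l 16512336) (l 16529800))) (b (a (l 16543792) (l 16520064)) (a (l 16526392) (l 16502256)))) (a (b (a (c (l 16540584) (l 16562928)) (l 16485952)) (a (c (l 16507568) (l 16537816)) (l 16436424))) (b (a (l 16503920) (l 16480048)) (a (l 16455328) (l 16452848)))))), by decide +kernel⟩

def k33_pm_012_s : ∃ t, chk3 f_pm_012_s t 10 15 1 = true :=
  ⟨(b (a (a (b (a (c (b (l 16589768) (l 16572040)) (l 16581064)) (b (l 16511408) (l 16494080))) (c (a (b (l 16553080) (l 16533232)) (b (l 16537048) (l 16516512))) (a (l 16545280) (l 16550768)))) (a (b (b (l 16517648) (l 16499752)) (b (l 16480240) (l 16438488))) (b (a (b (l 16548072) (l 16529880)) (a (b (l 16541672) (l 16544392)) (b (l 16537264) (l 16518928)))) (a (b (l 16530992) (l 16509880)) (a (b (l 16524360) (l 16503112)) (b (l 16498832) (l 16477504))))))) (b (a (b (c (l 16525392) (l 16563432)) (c (l 16505120)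 (l 16546584))) (b (l 16457376) (l 16438744))) (a (b (c (l 16483440) (l 16527432)) (c (l 16460784) (l 16506520))) (b (l 16417968) (c (l 16435688) (l 16481928)))))) (c (a (a (b (a (b (l 16513016) (l 16493024)) (b (l 16495624) (l 16474984))) (a (b (l 16474016) (l 16456872)) (b (l 16455344) (l 16437592)))) (a (b (b (l 16478400) (l 16457144)) (b (l 16436912) (l 16418584))) (b (a (l 16454456) (a (l 16447544) (l 16442864))) (a (l 16413384) (a (l 16406128) (l 16401240)))))) (b (a (b (l 16437512) (l 16414760)) (b (l 16411480) (l 16387472))) (a (b (l 16393104) (l 16373424)) (b (l 16364232) (l 16343200))))) (a (a (b (a (l 16505320) (l 16510048)) (b (l 16436600) (a (l 16500984) (l 16483776)))) (a (b (l 16493568) (l 16454328)) (b (a (l 16501792) (a (l 16494808) (l 16490016))) (a (l 16462216) (l 16410928))))) (b (a (l 16432360) (l 16427984)) (b (l 16367184) (l 16348072)))))), by decide +kernel⟩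

def k34_pm_012_s : ∃ t, chk3 f_pm_012_s t 11 15 1 = true :=
  ⟨(b (a (b (a (a (l 16409872) (l 16419440)) (c (l 16447416) (l 16484424))) (a (a (l 16347376) (l 16377928)) (c (l 16402776) (l 16446432)))) (b (a (l 16359160) (l 16378608)) (a (c (l 16381432) (l 16423720)) (l 16317296)))) (a (b (a (b (l 16390744) (l 16304192)) (c (l 16353224) (l 16402576))) (a (c (b (l 16338872) (l 16316616)) (l 16382312)) (c (l 16220104) (l 16359224)))) (c (b (a (l 16331840) (l 16311104)) (a (l 16282592) (l 16261864))) (b (l 16285496) (l 16242720))))), by decide +kernel⟩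

def k35_pm_012_s : ∃ t, chk3 f_pm_012_s t 3 1 1 = true :=
  ⟨(a (b (b (l 2) (b (l 2) (a (b (l 2) (a (b (l 2) (l 16575808)) (l 2))) (l 2)))) (a (b (b (b (a (b (l 16569320) (l 16562056)) (b (l 2) (l 16516896))) (a (a (l 16518920) (l 16517152)) (b (l 16509016) (l 16500448)))) (b (a (b (l 16493912) (l 16482824)) (b (l 16491888) (l 16481568))) (a (b (l 16492048) (l 16458360)) (b (l 16469760) (l 16456936))))) (b (b (a (b (l 16464936) (l 16446816)) (b (l 16442320) (l 16423976))) (a (b (l 16361192) (a (l 16429504) (l 16406392))) (b (l 16400984) (l 6)))) (b (a (b (a (l 16397648) (l 16374848)) (a (l 16337320) (l 6))) (l 6)) (l 6)))) (a (b (a (b (b (l 2) (l 16471576)) (b (l 16433712) (l 16432168))) (b (l 2) (l 6))) (l 6)) (b (l 6) (l 6))))) (b (l 2) (l 6))), by decide +kernel⟩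

theorem s36_pm_012_s : ∃ t, chk3 f_pm_012_s t 5 15 1 = true := ex3_a k33_pm_012_s k34_pm_012_s

theorem s37_pm_012_s : ∃ t, chk3 f_pm_012_s t 5 7 1 = true := ex3_b k32_pm_012_s s36_pm_012_s

theorem s38_pm_012_s : ∃ t, chk3 f_pm_012_s t 5 6 1 = true := ex3_a k30_pm_012_s k31_pm_012_s

theorem s39_pm_012_s : ∃ t, chk3 f_pm_012_s t 5 3 1 = true := ex3_b s38_pm_012_s s37_pm_012_s

theorem s40_pm_012_s : ∃ t, chk3 f_pm_012_s t 5 1 1 = true := ex3_b k29_pm_012_s s39_pm_012_s

theorem s41_pm_012_s : ∃ t, chk3 f_pm_012_s t 18 30 1 = true := ex3_a k25_pm_012_s k26_pm_012_s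

theorem s42_pm_012_s : ∃ t, chk3 f_pm_012_s t 18 15 1 = true := ex3_b s41_pm_012_s k27_pm_012_s

theorem s43_pm_012_s : ∃ t, chk3 f_pm_012_s t 9 15 1 = true := ex3_a s42_pm_012_s k28_pm_012_s

theorem s44_pm_012_s : ∃ t, chk3 f_pm_012_s t 18 14 1 = true := ex3_a k22_pm_012_s k23_pm_012_s

theorem s45_pm_012_s : ∃ t, chk3 f_pm_012_s t 9 14 1 = true := ex3_a s44_pm_012_s k24_pm_012_s

theorem s46_pm_012_s : ∃ t, chk3 f_pm_012_s t 9 7 1 = true := ex3_b s45_pm_012_s s43_pm_012_s

theorem s47_pm_012_s : ∃ t, chk3 f_pm_012_s t 34 31 2 = true := ex3_b k18_pm_012_s k19_pm_012_s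

theorem s48_pm_012_s : ∃ t, chk3 f_pm_012_s t 34 31 1 = true := ex3_c s47_pm_012_s k20_pm_012_s

theorem s49_pm_012_s : ∃ t, chk3 f_pm_012_s t 17 31 1 = true := ex3_a s48_pm_012_s k21_pm_012_s

theorem s50_pm_012_s : ∃ t, chk3 f_pm_012_s t 35 30 1 = true := ex3_b k16_pm_012_s k17_pm_012_s

theorem s51_pm_012_s : ∃ t, chk3 f_pm_012_s t 34 61 1 = true := ex3_a k14_pm_012_s k15_pm_012_s

theorem s52_pm_012_s : ∃ t, chk3 f_pm_012_s t 34 30 1 = true := ex3_b k13_pm_012_s s51_pm_012_s

theorem s53_pm_012_s : ∃ t, chk3 f_pm_012_s t 17 30 1 = true := ex3_a s52_pm_012_s s50_pm_012_s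

theorem s54_pm_012_s : ∃ t, chk3 f_pm_012_s t 17 15 1 = true := ex3_b s53_pm_012_s s49_pm_012_s

theorem s55_pm_012_s : ∃ t, chk3 f_pm_012_s t 33 126 1 = true := ex3_b k10_pm_012_s k11_pm_012_s

theorem s56_pm_012_s : ∃ t, chk3 f_pm_012_s t 33 63 1 = true := ex3_b s55_pm_012_s k12_pm_012_s

theorem s57_pm_012_s : ∃ t, chk3 f_pm_012_s t 67 62 1 = true := ex3_b k8_pm_012_s k9_pm_012_s

theorem s58_pm_012_s : ∃ t, chk3 f_pm_012_s t 66 125 1 = true := ex3_a k6_pm_012_s k7_pm_012_s

theorem s59_pm_012_s : ∃ t, chk3 f_pm_012_s t 66 62 1 = true := ex3_b k5_pm_012_s s58_pm_012_s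

theorem s60_pm_012_s : ∃ t, chk3 f_pm_012_s t 33 62 1 = true := ex3_a s59_pm_012_s s57_pm_012_s

theorem s61_pm_012_s : ∃ t, chk3 f_pm_012_s t 33 31 1 = true := ex3_b s60_pm_012_s s56_pm_012_s

theorem s62_pm_012_s : ∃ t, chk3 f_pm_012_s t 16 31 1 = true := ex3_a k4_pm_012_s s61_pm_012_s

theorem s63_pm_012_s : ∃ t, chk3 f_pm_012_s t 16 15 1 = true := ex3_b k3_pm_012_s s62_pm_012_s

theorem s64_pm_012_s : ∃ t, chk3 f_pm_012_s t 8 15 1 = true := ex3_a s63_pm_012_s s54_pm_012_s

theorem s65_pm_012_s : ∃ t, chk3 f_pm_012_s t 8 7 1 = true := ex3_b k2_pm_012_s s64_pm_012_s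

theorem s66_pm_012_s : ∃ t, chk3 f_pm_012_s t 4 7 1 = true := ex3_a s65_pm_012_s s46_pm_012_s

theorem s67_pm_012_s : ∃ t, chk3 f_pm_012_s t 4 3 1 = true := ex3_b k1_pm_012_s s66_pm_012_s

theorem s68_pm_012_s : ∃ t, chk3 f_pm_012_s t 4 1 1 = true := ex3_b k0_pm_012_s s67_pm_012_s

theorem s69_pm_012_s : ∃ t, chk3 f_pm_012_s t 2 1 1 = true := ex3_a s68_pm_012_s s40_pm_012_s

theorem s70_pm_012_s : ∃ t, chk3 f_pm_012_s t 1 1 1 = true := ex3_a s69_pm_012_s k35_pm_012_s

theorem c_pm_012_s : CertNE 0 536870912 536870912 536870912 966367641 24778659 3 eng mog cd0q0 cd0q1 pd2 true true false .pnp 0 1 2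
    ndB0q0 ndB0q1 pcB2 cut_pm_012_s Ext.none :=
  certNE2 (fam := true) (s1 := true) (s2 := false) (a := 0) (b := 1) (c := 2) (cn := .pnp) (n1 := ndB0q0) (n2 := ndB0q1) (pc := pcB2) (cut := cut_pm_012_s) (xt := Ext.none) (P1 := 0) (W1 := 536870912) (P2 := 536870912) (W2 := 536870912) (P3 := 966367641) (W3 := 24778659) (N0 := 3) (En := eng) (mo := mog) (C1 := cd0q0) (C2 := cd0q1) (C3 := pd2)
    rfl (fun _ => rfl) s70_pm_012_s

noncomputable def cut_pm_012_t : Cut := Cut.of [[⟨3, 0, 0, 2845415833⟩], [⟨0, 0, 0, 33554432⟩, ⟨1, 1, 0, 33554432⟩, ⟨2, 1, 0, 33554432⟩]]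

noncomputable def f_pm_012_t : ℕ → ℕ → ℕ → ℕ → Bool := onCell 0 536870912 536870912 536870912 966367641 24778659
    (rowNE 3 eng mog cd0q0 cd0q1 pd2 0 true true false .pnp 0 1 2 (qsf 0 536870912 536870912 536870912 2) ndB0q0 ndB0q1 pcB2 cut_pm_012_t Ext.none)

def k0_pm_012_t : ∃ t, chk3 f_pm_012_t t 1 1 1 = true :=
  ⟨(l 6), by decide +kernel⟩

theorem c_pm_012_t : CertNE 0 536870912 536870912 536870912 966367641 24778659 3 eng mog cd0q0 cd0q1 pd2 true true false .pnp 0 1 2
    ndB0q0 ndB0q1 pcB2 cut_pm_012_t Ext.none :=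
  certNE0 (fam := true) (s1 := true) (s2 := false) (a := 0) (b := 1) (c := 2) (cn := .pnp) (n1 := ndB0q0) (n2 := ndB0q1) (pc := pcB2) (cut := cut_pm_012_t) (xt := Ext.none) (P1 := 0) (W1 := 536870912) (P2 := 536870912) (W2 := 536870912) (P3 := 966367641) (W3 := 24778659) (N0 := 3) (En := eng) (mo := mog) (C1 := cd0q0) (C2 := cd0q1) (C3 := pd2)
    rfl k0_pm_012_t

noncomputable def cut_pm_022_s : Cut := Cut.of [[⟨4, 0, 0, 1449551462⟩], [⟨0, 0, 0, 53687091⟩, ⟨1, 1, 0, 53687091⟩, ⟨2, 1, 0, 53687091⟩]]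

noncomputable def f_pm_022_s : ℕ → ℕ → ℕ → ℕ → Bool := onCell 1073741824 536870912 0 536870912 966367641 24778659
    (rowNE 3 eng mog cd0q0 cd0q2 pd2 2 true true false .pp 0 2 2 (qsf 0 536870912 0 536870912 2) ndB0q0 ndB0q2 pcB2 cut_pm_022_s Ext.none)

def k0_pm_022_s : ∃ t, chk3 f_pm_022_s t 8 2 1 = true :=
  ⟨(l 1), by decide +kernel⟩

def k1_pm_022_s : ∃ t, chk3 f_pm_022_s t 8 6 1 = true :=
  ⟨(l 1), by decide +kernel⟩

def k2_pm_022_s : ∃ t, chk3 f_pm_022_s t 16 7 1 = true :=
  ⟨(b (l 1) (l 14)), by decide +kernel⟩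

def k3_pm_022_s : ∃ t, chk3 f_pm_022_s t 34 7 1 = true :=
  ⟨(b (b (l 1) (b (l 1) (l 14))) (l 14)), by decide +kernel⟩

def k4_pm_022_s : ∃ t, chk3 f_pm_022_s t 70 7 1 = true :=
  ⟨(b (b (l 1) (b (b (a (l 1) (a (b (l 1) (c (c (l 16415888) (l 16400552)) (c (l 16384864) (l 16368832)))) (c (b (c (l 16405128) (l 16389504)) (c (l 16418992) (l 16403424))) (b (c (l 16373536) (l 16357208)) (c (l 16387504) (l 16371232)))))) (a (a (b (l 1) (l 14)) (b (c (c (l 16427040) (l 16411992)) (c (l 16396600) (l 16380872))) (c (c (l 16441488) (l 16426504)) (c (l 16411176) (l 16395504))))) (c (a (b (c (l 16430048) (l 16414768)) (l 16415944)) (b (l 16425432) (l 16439888))) (b (a (c (l 16399136) (l 16383160)) (l 16393696)) (c (l 16414984) (l 16398928)))))) (a (a (l 14) (a (l 14) (b (c (l 16436144) (b (l 16418920) (l 16434352))) (c (l 16488224) (l 16458400))))) (b (c (a (l 16438296) (l 16441232)) (a (b (l 16420704) (l 16436120)) (l 16409848))) (c (l 16470792) (l 16450800)))))) (a (a (l 14) (b (b (a (l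 14) (b (l 16493312) (l 16540576))) (b (l 16575056) (l 16610680))) (b (b (l 16625704) (l 16640872)) (b (l 16676816) (l 16640312))))) (b (b (b (c (l 16524104) (l 16473632)) (c (l 16557520) (l 16529224))) (c (l 16567360) (l 16540712))) (b (c (l 16616856) (l 16592088)) (b (l 16650656) (c (l 16632088) (l 16654192))))))), by decide +kernel⟩

def k5_pm_022_s : ∃ t, chk3 f_pm_022_s t 71 7 1 = true :=
  ⟨(b (b (b (l 1) (a (b (l 1) (a (b (l 1) (b (a (l 1) (c (l 16384208) (l 16362152))) (c (l 16390224) (l 16357736)))) (c (b (c (l 16384112) (l 16368240)) (b (c (l 16394576) (l 16378512)) (l 16393408))) (b (c (l 16352016) (l 16335432)) (c (l 16365432) (l 16348616)))))) (a (b (b (l 1) (c (l 16365904) (l 16333616))) (c (b (l 16379464) (c (l 16401352) (l 16385056))) (b (l 16359720) (c (l 16368376) (l 16351320))))) (b (c (b (l 16355952) (l 16369232)) (b (l 16323888) (l 16336576))) (c (b (l 16382808) (l 16396608)) (b (l 16349536) (l 16362800))))))) (b (b (c (a (a (b (l 82174030455) (l 16414344)) (b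 (l 16403640) (l 16417520))) (a (l 16382376) (l 16417184))) (c (a (b (l 102038227015) (l 16391640)) (l 16390480)) (a (b (l 99353845303) (l 16374992)) (l 16373312)))) (c (a (c (l 16403192) (l 16397840)) (l 16422768)) (a (b (a (l 16396288) (l 16398968)) (l 16412144)) (l 16389352)))) (c (b (a (l 16445808) (l 16473152)) (l 16479792)) (b (a (l 16413672) (l 16440008)) (b (l 16439720) (l 16455856)))))) (b (b (c (b (l 16532832) (l 16565920)) (b (l 16501736) (l 16535960))) (b (c (l 16599792) (l 16570944)) (l 16557528))) (b (b (l 16587416) (l 16627832)) (b (a (l 16639976) (l 16629136)) (c (a (l 16620864) (l 16630496)) (l 16639192)))))), by decide +kernel⟩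

def k6_pm_022_s : ∃ t, chk3 f_pm_022_s t 9 2 1 = true :=
  ⟨(l 6), by decide +kernel⟩

def k7_pm_022_s : ∃ t, chk3 f_pm_022_s t 9 6 1 = true :=
  ⟨(b (a (l 1) (l 6)) (a (b (a (l 1) (b (a (l 1) (c (l 16218872) (l 16194784))) (c (a (l 16277656) (c (l 16259464) (l 16246808))) (a (l 16209632) (l 16227376))))) (a (a (l 1) (b (c (b (l 1) (l 16267792)) (l 16292872)) (c (b (l 17212526119) (a (l 16307832) (l 16315648))) (a (l 16308824) (l 16295344))))) (c (b (a (a (l 16269640) (l 16278096)) (l 16312368)) (a (a (l 16312472) (l 16320936)) (l 16313168))) (b (c (l 16240576) (l 16226320)) (a (l 16265256) (l 16303048)))))) (b (a (c (a (b (l 16237616) (l 16272000)) (l 16270760)) (b (l 16203544) (l 16235456))) (l 6)) (b (a (c (a (l 16310128) (l 16329760)) (l 16291432)) (c (l 16360280) (l 16331272))) (a (c (c (l 16369808) (l 16354112)) (l 16340360)) (c (l 16400952) (l 16367304))))))), by decide +kernel⟩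

def k8_pm_022_s : ∃ t, chk3 f_pm_022_s t 9 14 1 = true :=
  ⟨(a (b (a (a (a (b (b (l 1) (c (c (l 16349448) (l 16333952)) (c (l 16318112) (l 16301944)))) (c (c (b (l 16375736) (b (l 16396192) (l 16410160))) (b (l 16359648) (b (l 16379640) (l 16393320)))) (c (b (l 16343192) (a (l 16367840) (l 16371024))) (b (l 16326376) (l 16372896))))) (b (c (b (l 16324048) (l 16348904)) (b (l 16293040) (l 16316624))) (b (c (l 16374912) (l 16362248)) (a (b (l 16355288) (l 16374032)) (c (l 16403904) (l 16368624)))))) (a (b (c (b (l 16331536) (l 16356408)) (l 16292088)) (c (c (l 16383504) (l 16366336)) (c (l 16348752) (l 16330760)))) (b (c (l 16330776) (l 16298040)) (c (l 16403632) (l 16362440))))) (c (b (a (l 16358760) (l 16381160)) (a (a (l 16411552) (l 16419656)) (l 16432128))) (b (a (l 16319936) (l 16325472)) (a (a (l 16374816) (l 16382136)) (l 16393400))))) (a (b (b (a (c (a (l 16422352) (l 16429488)) (a (l 16387832) (l 16394000))) (a (l 16418856) (l 16425968))) (a (c (l 16433008) (l 16408608))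 (a (l 16446832) (l 16453784)))) (a (c (b (l 16483200) (l 16513712)) (b (l 16427576) (l 16479616))) (c (l 16491408) (l 16433960)))) (b (a (b (a (l 16433248) (l 16440664)) (l 16464488)) (c (l 16464672) (l 16423600))) (a (c (l 16526920) (l 16488304)) (l 16458776))))) (b (b (a (c (a (l 16399008) (l 16417296)) (a (l 16363144) (l 16380200))) (c (l 16444992) (l 16406200))) (a (c (a (l 16449136) (l 16466352)) (a (l 16408728) (l 16424344))) (a (l 16399152) (l 16436496)))) (b (a (b (a (l 16446320) (l 16482624)) (l 16438360)) (a (l 16405712) (l 16441320))) (a (c (l 16522016) (l 16478576)) (l 16464704))))), by decide +kernel⟩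

def k9_pm_022_s : ∃ t, chk3 f_pm_022_s t 9 15 1 = true :=
  ⟨(a (b (c (b (a (a (l 16498728) (l 16553600)) (l 16531672)) (a (a (l 16565176) (l 16576688)) (l 16594208))) (b (a (a (b (l 16512112) (l 16545744)) (l 16518712)) (l 16493648)) (a (b (l 16563768) (l 16576952)) (l 16537416)))) (b (a (b (a (l 16601328) (l 16631432)) (a (l 16635600) (l 16597264))) (a (b (l 16619880) (l 16595504)) (a (l 16571136) (l 16559848)))) (b (a (a (a (l 16618136) (l 16607016)) (c (l 16596744) (l 16626064))) (a (c (l 16594448) (l 16604464)) (l 16524632))) (a (c (a (c (l 16586128) (l 16619696)) (a (l 16596088) (l 16584600))) (a (l 16618408) (l 16597272))) (c (a (b (l 16595160) (l 16560784)) (a (l 16571440) (l 16560280))) (a (l 16597080) (l 16576504))))))) (a (b (b (c (l 16558240) (l 16537800)) (b (l 16582688) (l 16571664))) (b (a (l 16522200) (l 16500552)) (c (a (b (l 16569848) (l 16480920)) (b (l 16548040) (l 16480624))) (a (l 16507152) (l 16509072))))) (b (b (l 16540312) (c (l 16520200) (l 16605064)))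 (b (a (b (l 16534616) (l 16509064)) (a (l 16485904) (l 16476112))) (b (a (l 16462504) (l 16464216)) (c (a (l 16501864) (l 16481480)) (l 16469224))))))), by decide +kernel⟩

def k10_pm_022_s : ∃ t, chk3 f_pm_022_s t 5 1 1 = true :=
  ⟨(b (l 6) (b (a (b (l 6) (a (b (l 6) (a (c (b (l 6) (l 16440112)) (l 16305216)) (l 6))) (l 6))) (l 6)) (a (b (a (b (a (c (b (l 16481312) (l 16503984)) (b (l 16440968) (l 16478752))) (c (l 16481648) (l 16448704))) (a (c (l 16458376) (a (l 16455264) (l 16466472))) (a (c (l 16570936) (l 16476056)) (a (l 16468504) (c (l 16549696) (l 16444488)))))) (b (a (l 6) (l 6)) (b (a (l 16463304) (l 6)) (l 16437768)))) (a (b (a (b (l 16526832) (a (l 16510912) (l 16491896))) (a (b (l 16540048) (l 16473184)) (a (l 16419752) (b (l 16475360) (l 16449936))))) (a (b (a (l 16440880) (l 16442960)) (c (a (l 16389784) (l 16411968)) (a (l 16497232) (l 16500712)))) (a (b (l 16424344) (c (l 16413496) (l 16483272))) (b (a (l 16452392) (a (l 16445248) (l 16440456))) (a (l 16360664)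 (a (l 16374424) (l 16369560))))))) (b (a (a (l 16397424) (l 16381104)) (b (l 16443432) (l 16397680))) (b (a (l 16359008) (l 16328536)) (a (c (l 16388280) (l 16441304)) (c (l 16356840) (l 16413360))))))) (b (l 6) (b (a (a (b (l 16414512) (l 16369296)) (l 6)) (l 6)) (a (b (a (l 16300808) (l 16296784)) (c (a (l 16328752) (l 16304136)) (l 16271088))) (a (b (l 6) (c (l 16281792) (l 16342024))) (l 6)))))))), by decide +kernel⟩

def k11_pm_022_s : ∃ t, chk3 f_pm_022_s t 3 1 1 = true :=
  ⟨(b (l 6) (l 6)), by decide +kernel⟩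

theorem s12_pm_022_s : ∃ t, chk3 f_pm_022_s t 9 7 1 = true := ex3_b k8_pm_022_s k9_pm_022_s

theorem s13_pm_022_s : ∃ t, chk3 f_pm_022_s t 9 3 1 = true := ex3_b k7_pm_022_s s12_pm_022_s

theorem s14_pm_022_s : ∃ t, chk3 f_pm_022_s t 9 1 1 = true := ex3_b k6_pm_022_s s13_pm_022_s

theorem s15_pm_022_s : ∃ t, chk3 f_pm_022_s t 35 7 1 = true := ex3_a k4_pm_022_s k5_pm_022_s

theorem s16_pm_022_s : ∃ t, chk3 f_pm_022_s t 17 7 1 = true := ex3_a k3_pm_022_s s15_pm_022_s

theorem s17_pm_022_s : ∃ t, chk3 f_pm_022_s t 8 7 1 = true := ex3_a k2_pm_022_s s16_pm_022_s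

theorem s18_pm_022_s : ∃ t, chk3 f_pm_022_s t 8 3 1 = true := ex3_b k1_pm_022_s s17_pm_022_s

theorem s19_pm_022_s : ∃ t, chk3 f_pm_022_s t 8 1 1 = true := ex3_b k0_pm_022_s s18_pm_022_s

theorem s20_pm_022_s : ∃ t, chk3 f_pm_022_s t 4 1 1 = true := ex3_a s19_pm_022_s s14_pm_022_s

theorem s21_pm_022_s : ∃ t, chk3 f_pm_022_s t 2 1 1 = true := ex3_a s20_pm_022_s k10_pm_022_s

theorem s22_pm_022_s : ∃ t, chk3 f_pm_022_s t 1 1 1 = true := ex3_a s21_pm_022_s k11_pm_022_s

theorem c_pm_022_s : CertNE 0 536870912 0 536870912 966367641 24778659 3 eng mog cd0q0 cd0q2 pd2 true true false .pp 0 2 2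
    ndB0q0 ndB0q2 pcB2 cut_pm_022_s Ext.none :=
  certNE2 (fam := true) (s1 := true) (s2 := false) (a := 0) (b := 2) (c := 2) (cn := .pp) (n1 := ndB0q0) (n2 := ndB0q2) (pc := pcB2) (cut := cut_pm_022_s) (xt := Ext.none) (P1 := 0) (W1 := 536870912) (P2 := 0) (W2 := 536870912) (P3 := 966367641) (W3 := 24778659) (N0 := 3) (En := eng) (mo := mog) (C1 := cd0q0) (C2 := cd0q2) (C3 := pd2)
    rfl (fun _ => rfl) s22_pm_022_s

noncomputable def cut_pm_022_t : Cut := Cut.of [[⟨3, 0, 0, 2845415833⟩], [⟨0, 0, 0, 53687091⟩, ⟨1, 1, 0, 53687091⟩, ⟨2, 1, 0, 53687091⟩]]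

noncomputable def f_pm_022_t : ℕ → ℕ → ℕ → ℕ → Bool := onCell 1073741824 536870912 0 536870912 966367641 24778659
    (rowNE 3 eng mog cd0q0 cd0q2 pd2 2 true true false .pp 0 2 2 (qsf 0 536870912 0 536870912 2) ndB0q0 ndB0q2 pcB2 cut_pm_022_t Ext.none)

def k0_pm_022_t : ∃ t, chk3 f_pm_022_t t 1 1 1 = true :=
  ⟨(a (l 6) (b (l 6) (l 6))), by decide +kernel⟩

theorem c_pm_022_t : CertNE 0 536870912 0 536870912 966367641 24778659 3 eng mog cd0q0 cd0q2 pd2 true true false .pp 0 2 2
    ndB0q0 ndB0q2 pcB2 cut_pm_022_t Ext.none :=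
  certNE2 (fam := true) (s1 := true) (s2 := false) (a := 0) (b := 2) (c := 2) (cn := .pp) (n1 := ndB0q0) (n2 := ndB0q2) (pc := pcB2) (cut := cut_pm_022_t) (xt := Ext.none) (P1 := 0) (W1 := 536870912) (P2 := 0) (W2 := 536870912) (P3 := 966367641) (W3 := 24778659) (N0 := 3) (En := eng) (mo := mog) (C1 := cd0q0) (C2 := cd0q2) (C3 := pd2)
    rfl (fun _ => rfl) k0_pm_022_t

noncomputable def cut_pm_023_s : Cut := Cut.of [[⟨4, 0, 0, 1449551462⟩]]

noncomputable def f_pm_023_s : ℕ → ℕ → ℕ → ℕ → Bool := onCell 1610612736 536870912 0 536870912 966367641 24778659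
    (rowNE 3 eng mog cd0q0 cd0q2 pd3 2 true true false .up 0 2 3 (qsf 0 536870912 0 536870912 3) ndB0q0 ndB0q2 pcB3 cut_pm_023_s Ext.none)

def k0_pm_023_s : ∃ t, chk3 f_pm_023_s t 1 1 1 = true :=
  ⟨(l 6), by decide +kernel⟩

theorem c_pm_023_s : CertNE 0 536870912 0 536870912 966367641 24778659 3 eng mog cd0q0 cd0q2 pd3 true true false .up 0 2 3
    ndB0q0 ndB0q2 pcB3 cut_pm_023_s Ext.none :=
  certNE2 (fam := true) (s1 := true) (s2 := false) (a := 0) (b := 2) (c := 3) (cn := .up) (n1 := ndB0q0) (n2 := ndB0q2) (pc := pcB3) (cut := cut_pm_023_s) (xt := Ext.none) (P1 := 0) (W1 := 536870912) (P2 := 0) (W2 := 536870912) (P3 := 966367641) (W3 := 24778659) (N0 := 3) (En := eng) (mo := mog) (C1 := cd0q0) (C2 := cd0q2) (C3 := pd3)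
    rfl (fun _ => rfl) k0_pm_023_s

noncomputable def cut_pm_023_t : Cut := Cut.of [[⟨3, 0, 0, 2845415833⟩]]

noncomputable def f_pm_023_t : ℕ → ℕ → ℕ → ℕ → Bool := onCell 0 536870912 0 536870912 966367641 24778659
    (rowNE 3 eng mog cd0q0 cd0q2 pd3 0 true true false .up 0 2 3 (qsf 0 536870912 0 536870912 3) ndB0q0 ndB0q2 pcB3 cut_pm_023_t Ext.none)

def k0_pm_023_t : ∃ t, chk3 f_pm_023_t t 1 1 1 = true :=
  ⟨(a (l 1) (b (a (b (b (b (a (l 1) (a (l 1) (a (l 6) (b (l 6) (l 6))))) (l 6)) (l 6)) (l 6)) (a (b (b (c (a (c (l 16489104) (l 16474744)) (c (l 16565232) (a (l 16575432) (l 16582384)))) (b (a (a (l 16373256) (l 16389096)) (a (l 16428472) (l 16470184))) (a (l 6) (c (l 16468608) (l 16367592))))) (l 6)) (l 6)) (b (c (a (b (a (c (l 16651024) (l 16591352)) (b (l 16646608) (l 16613400))) (c (l 16600864) (l 16347680))) (b (a (b (l 16656280) (l 16621328)) (b (l 16667664) (l 16631088))) (c (l 16602792) (b (l 16556896) (l 16511416))))) (a (b (a (b (l 16492984) (l 16450712)) (b (l 16517536)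 (l 16474608))) (b (c (l 16445072) (l 16345056)) (l 6))) (b (c (c (l 16501488) (l 16433464)) (a (l 16460240) (l 16450056))) (a (b (l 16432760) (l 16361000)) (b (l 16459688) (l 16387512)))))) (l 6)))) (l 6))), by decide +kernel⟩

theorem c_pm_023_t : CertNE 0 536870912 0 536870912 966367641 24778659 3 eng mog cd0q0 cd0q2 pd3 true true false .up 0 2 3
    ndB0q0 ndB0q2 pcB3 cut_pm_023_t Ext.none :=
  certNE0 (fam := true) (s1 := true) (s2 := false) (a := 0) (b := 2) (c := 3) (cn := .up) (n1 := ndB0q0) (n2 := ndB0q2) (pc := pcB3) (cut := cut_pm_023_t) (xt := Ext.none) (P1 := 0) (W1 := 536870912) (P2 := 0) (W2 := 536870912) (P3 := 966367641) (W3 := 24778659) (N0 := 3) (En := eng) (mo := mog) (C1 := cd0q0) (C2 := cd0q2) (C3 := pd3)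
    rfl k0_pm_023_t

noncomputable def cut_pm_101_s : Cut := Cut.of [[⟨4, 0, 0, 1449551462⟩], [⟨0, 1, 0, 67108864⟩, ⟨1, 0, 0, 67108864⟩, ⟨2, 1, 0, 67108864⟩]]

noncomputable def f_pm_101_s : ℕ → ℕ → ℕ → ℕ → Bool := onCell 536870912 536870912 536870912 536870912 966367641 24778659
    (rowNE 3 eng mog cd0q1 cd0q0 pd1 1 true true false .npn 1 0 1 (qsf 536870912 536870912 0 536870912 1) ndB0q1 ndB0q0 pcB1 cut_pm_101_s Ext.none)

def k0_pm_101_s : ∃ t, chk3 f_pm_101_s t 1 1 1 = true :=
  ⟨(b (l 3) (a (l 3) (b (l 3) (a (l 3) (b (l 3) (a (l 3) (b (l 3) (a (l 3) (l 14))))))))), by decide +kernel⟩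

theorem c_pm_101_s : CertNE 536870912 536870912 0 536870912 966367641 24778659 3 eng mog cd0q1 cd0q0 pd1 true true false .npn 1 0 1
    ndB0q1 ndB0q0 pcB1 cut_pm_101_s Ext.none :=
  certNE1 (fam := true) (s1 := true) (s2 := false) (a := 1) (b := 0) (c := 1) (cn := .npn) (n1 := ndB0q1) (n2 := ndB0q0) (pc := pcB1) (cut := cut_pm_101_s) (xt := Ext.none) (P1 := 536870912) (W1 := 536870912) (P2 := 0) (W2 := 536870912) (P3 := 966367641) (W3 := 24778659) (N0 := 3) (En := eng) (mo := mog) (C1 := cd0q1) (C2 := cd0q0) (C3 := pd1)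
    rfl (fun _ => rfl) k0_pm_101_s

noncomputable def cut_pm_101_t : Cut := Cut.of [[⟨3, 0, 0, 2845415833⟩], [⟨0, 1, 0, 67108864⟩, ⟨1, 0, 0, 67108864⟩, ⟨2, 1, 0, 67108864⟩]]

noncomputable def f_pm_101_t : ℕ → ℕ → ℕ → ℕ → Bool := onCell 536870912 536870912 0 536870912 966367641 24778659
    (rowNE 3 eng mog cd0q1 cd0q0 pd1 0 true true false .npn 1 0 1 (qsf 536870912 536870912 0 536870912 1) ndB0q1 ndB0q0 pcB1 cut_pm_101_t Ext.none)

def k0_pm_101_t : ∃ t, chk3 f_pm_101_t t 1 1 1 = true :=
  ⟨(l 6), by decide +kernel⟩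

theorem c_pm_101_t : CertNE 536870912 536870912 0 536870912 966367641 24778659 3 eng mog cd0q1 cd0q0 pd1 true true false .npn 1 0 1
    ndB0q1 ndB0q0 pcB1 cut_pm_101_t Ext.none :=
  certNE0 (fam := true) (s1 := true) (s2 := false) (a := 1) (b := 0) (c := 1) (cn := .npn) (n1 := ndB0q1) (n2 := ndB0q0) (pc := pcB1) (cut := cut_pm_101_t) (xt := Ext.none) (P1 := 536870912) (W1 := 536870912) (P2 := 0) (W2 := 536870912) (P3 := 966367641) (W3 := 24778659) (N0 := 3) (En := eng) (mo := mog) (C1 := cd0q1) (C2 := cd0q0) (C3 := pd1)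
    rfl k0_pm_101_t

end Pool.Agent.Strip051.G.I9000_9231.Tab.CS.BA00

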