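import Pool.Agent.Strip051.G.I9000_9231.Tab
import Pool.Agent.Strip051.PB.StripB
import Pool.Agent.Strip051.PB.ExtD3

/-! # Strips, near vertex: certificates 2 (generated) -/

set_option linter.all false
set_option maxRecDepth 100000

namespace Pool.Agent.Strip051.G.I9000_9231.Tab.CS.BA00

open Pool.Agent.Strip051.PB Pool.Agent.Strip051.PB.T
open Pool.Agent.Strip051.G.I9000_9231.Tab

noncomputable def cut_pm_202_s : Cut := Cut.of [[⟨4, 0, 0, 1449551462⟩], [⟨0, 1, 0, 53687091⟩, ⟨1, 0, 0, 53687091⟩, ⟨2, 1, 0, 53687091⟩]]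

noncomputable def f_pm_202_s : ℕ → ℕ → ℕ → ℕ → Bool := onCell 0 536870912 1073741824 536870912 966367641 24778659
    (rowNE 3 eng mog cd0q2 cd0q0 pd2 1 true true false .pp 2 0 2 (qsf 0 536870912 0 536870912 2) ndB0q2 ndB0q0 pcB2 cut_pm_202_s Ext.none)

def k0_pm_202_s : ∃ t, chk3 f_pm_202_s t 2 8 1 = true :=
  ⟨(l 1), by decide +kernel⟩

def k1_pm_202_s : ∃ t, chk3 f_pm_202_s t 6 8 1 = true :=
  ⟨(l 1), by decide +kernel⟩

def k2_pm_202_s : ∃ t, chk3 f_pm_202_s t 7 16 1 = true :=
  ⟨(a (l 1) (l 14)), by decide +kernel⟩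

def k3_pm_202_s : ∃ t, chk3 f_pm_202_s t 7 34 1 = true :=
  ⟨(a (a (l 1) (a (l 1) (l 14))) (l 14)), by decide +kernel⟩

def k4_pm_202_s : ∃ t, chk3 f_pm_202_s t 28 35 1 = true :=
  ⟨(a (l 1) (b (l 1) (a (b (l 1) (a (b (l 1) (c (l 16355952) (l 16323888))) (c (b (l 16365904) (l 16369232)) (b (l 16333616) (l 16336576))))) (b (b (a (l 1) (a (b (l 1) (c (l 16384208) (l 16362152))) (c (l 16390224) (l 16357736)))) (c (a (c (l 16384112) (l 16368240)) (a (c (l 16394576) (l 16378512)) (l 16393408))) (a (c (l 16352016) (l 16335432)) (c (l 16370680) (l 16348616))))) (b (c (a (l 16379464) (c (l 16401352) (l 16385056))) (a (l 16359720) (c (l 16368376) (l 16351320)))) (c (a (l 16382808) (l 16396608)) (a (l 16349536) (l 16362800)))))))), by decide +kernel⟩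

def k5_pm_202_s : ∃ t, chk3 f_pm_202_s t 29 35 1 = true :=
  ⟨(a (b (a (b (l 1) (a (b (l 1) (a (c (l 16393928) (l 16361960)) (c (l 16400800) (l 16368880)))) (c (b (c (l 16415888) (l 16400552)) (c (l 16418992) (l 16403424))) (b (c (l 16384864) (l 16368832)) (c (l 16387504) (l 16371232)))))) (b (b (a (l 1) (l 14)) (a (c (c (l 16427040) (l 16411992)) (c (l 16396600) (l 16380872))) (c (c (l 16441488) (l 16426504)) (c (l 16405928) (l 16396808))))) (c (b (a (c (l 16430048) (l 16414768)) (l 16415944)) (a (l 16425432) (l 16439888))) (a (b (c (l 16399136) (l 16383160)) (l 16393696)) (c (l 16414984) (l 16398928)))))) (a (c (b (b (a (l 81637159543) (l 16414344)) (a (l 16403640) (l 16417520))) (b (l 16382376) (l 16417184))) (c (b (a (l 102038227015) (l 16391640)) (l 16390480)) (b (a (l 98816974391) (l 16374992)) (l 16373312)))) (c (b (c (l 16403192) (l 16397840)) (l 16422768)) (b (a (b (l 16396288) (l 16398968)) (l 16412144)) (l 16389352))))) (b (b (b (l 14) (b (l 14) (a (c (l 16436144) (a (l 16418920) (l 16434352))) (c (l 16488224)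 (l 16458400))))) (a (c (b (l 16438296) (l 16441232)) (b (a (l 16420704) (l 16436120)) (l 16409848))) (c (l 16470792) (l 16450800)))) (c (a (b (l 16445808) (l 16473152)) (l 16479792)) (a (b (l 16413672) (l 16440008)) (a (l 16439720) (l 16455856)))))), by decide +kernel⟩

def k6_pm_202_s : ∃ t, chk3 f_pm_202_s t 15 35 1 = true :=
  ⟨(a (a (b (b (b (l 14) (a (a (l 16476448) (l 16514224)) (l 16519016))) (a (c (l 16524104) (l 16473632)) (c (l 16557520) (l 16529224)))) (c (a (l 16532832) (l 16565920)) (a (l 16501736) (l 16535960)))) (b (a (c (l 16568280) (l 16541728)) (c (l 16624312) (l 16598728))) (a (c (l 16599792) (l 16570944)) (l 16557528)))) (a (b (a (b (l 16603808) (l 16607584)) (c (l 16653328) (l 16650680))) (a (l 16587416) (l 16627832))) (b (c (a (l 16665760) (b (l 16643160) (l 16632088))) (a (l 16666056) (l 16653856))) (a (b (l 16639976) (l 16629136)) (c (b (l 16620864) (l 16630496)) (l 16639192)))))), by decide +kernel⟩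

def k7_pm_202_s : ∃ t, chk3 f_pm_202_s t 2 9 1 = true :=
  ⟨(l 6), by decide +kernel⟩

def k8_pm_202_s : ∃ t, chk3 f_pm_202_s t 6 9 1 = true :=
  ⟨(a (b (l 1) (l 6)) (b (a (b (l 1) (a (b (l 1) (c (l 16218872) (l 16194784))) (b (c (a (l 1) (l 16244696)) (l 16209632)) (c (b (l 16248672) (l 16257768)) (l 16227376))))) (b (b (l 1) (b (a (l 1) (c (a (l 16285304) (l 16307832)) (a (l 16256232) (l 16277608)))) (a (c (l 16261560) (l 16233816)) (c (a (l 16293088) (l 16315648)) (l 16295344))))) (c (a (b (b (l 16269640) (l 16278096)) (l 16312368)) (b (b (l 16312472) (l 16320936)) (l 16313168))) (a (c (b (l 16253008) (l 16270456)) (l 16226320)) (b (l 16265256) (l 16303048)))))) (a (b (c (b (a (l 16237616) (l 16272000)) (a (l 6) (l 16291936))) (a (l 16203544) (l 16235456))) (l 6)) (a (b (c (b (l 16310128) (l 16329760)) (l 16291432)) (c (l 16360280) (l 16331272))) (b (c (c (l 16369808) (l 16354112)) (l 16340360)) (c (l 16400952) (l 16367304))))))), by decide +kernel⟩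

def k9_pm_202_s : ∃ t, chk3 f_pm_202_s t 14 9 1 = true :=
  ⟨(b (a (b (b (b (a (a (l 1) (c (b (l 16340008) (l 16343496)) (c (l 16318112) (l 16301944)))) (c (c (a (l 16375736) (a (l 16396192) (l 16410160))) (a (l 16359648) (a (l 16379640) (l 16393320)))) (c (a (l 16343192) (b (l 16367840) (l 16371024))) (a (l 16326376) (l 16372896))))) (a (c (a (l 16324048) (l 16348904)) (a (l 16293040) (l 16316624))) (a (c (l 16374912) (l 16362248)) (b (a (l 16355288) (l 16374032)) (c (l 16403904) (l 16368624)))))) (b (a (c (a (l 16331536) (l 16356408)) (l 16292088)) (c (c (l 16383504) (l 16366336)) (c (l 16348752) (l 16330760)))) (a (c (l 16330776) (l 16298040)) (c (l 16403632) (l 16362440))))) (c (a (b (l 16358760) (l 16381160)) (b (b (l 16411552) (l 16419656)) (l 16432128))) (a (b (l 16319936) (l 16325472)) (b (b (l 16374816) (l 16382136)) (l 16393400))))) (b (a (a (b (c (b (l 16422352) (l 16429488)) (b (l 16387832) (l 16394000))) (b (l 16418856) (l 16425968))) (b (c (l 16433008) (l 16408608)) (b (l 16446832) (l 16453784)))) (b (c (a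 (l 16483200) (l 16513712)) (a (l 16427576) (l 16479616))) (c (l 16491408) (l 16433960)))) (a (b (a (b (l 16433248) (l 16440664)) (l 16464488)) (c (l 16464672) (l 16423600))) (b (c (l 16526920) (l 16488304)) (l 16458776))))) (a (a (b (c (b (l 16399008) (l 16417296)) (b (l 16363144) (l 16380200))) (c (l 16444992) (l 16406200))) (b (c (b (l 16449136) (l 16466352)) (b (l 16408728) (l 16424344))) (b (l 16399152) (l 16436496)))) (a (b (a (b (l 16446320) (l 16482624)) (l 16438360)) (b (l 16405712) (l 16441320))) (b (c (l 16522016) (l 16478576)) (l 16464704))))), by decide +kernel⟩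

def k10_pm_202_s : ∃ t, chk3 f_pm_202_s t 15 9 1 = true :=
  ⟨(b (a (c (a (b (b (l 16498728) (l 16553600)) (l 16531672)) (b (b (l 16565176) (l 16576688)) (l 16594208))) (a (b (b (a (l 16512112) (l 16545744)) (l 16518712)) (l 16493648)) (b (a (l 16563768) (l 16576952)) (l 16537416)))) (a (b (a (b (l 16601328) (l 16631432)) (b (l 16635600) (l 16597264))) (b (a (l 16619880) (l 16595504)) (b (l 16571136) (l 16559848)))) (a (b (b (b (l 16618136) (l 16607016)) (c (l 16596744) (l 16626064))) (b (c (l 16594448) (l 16604464)) (l 16524632))) (b (c (b (c (l 16586128) (l 16619696)) (b (l 16596088) (l 16584600))) (b (l 16618408) (l 16597272))) (c (b (a (l 16595160) (l 16581752)) (b (l 16571440) (l 16560280))) (b (l 16597080) (l 16576504))))))) (a (b (a (c (l 16558240) (l 16537800)) (a (l 16582688) (l 16571664))) (a (l 16540312) (c (l 16520200) (l 16605064)))) (a (b (b (l 16522200) (l 16500552)) (b (a (l 16534616) (l 16509064)) (b (l 16485904) (l 16476112)))) (a (b (b (l 16503064) (l 16482408)) (b (l 16462504) (l 16464216))) (c (b (b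 (l 16501888) (l 16480624)) (b (l 16501864) (l 16481480))) (b (b (l 16577712) (l 16559032)) (l 16469224))))))), by decide +kernel⟩

def k11_pm_202_s : ∃ t, chk3 f_pm_202_s t 1 5 1 = true :=
  ⟨(a (l 6) (a (b (a (l 6) (b (a (l 6) (b (c (a (l 6) (l 16440112)) (l 16305216)) (l 6))) (l 6))) (l 6)) (b (a (b (a (b (c (a (l 16481312) (l 16503984)) (a (l 16440968) (l 16478752))) (c (l 16481648) (l 16448704))) (b (c (l 16458376) (b (l 16455264) (l 16466472))) (b (c (l 16570936) (l 16476056)) (b (l 16468504) (c (l 16549696) (l 16444488)))))) (a (b (l 6) (l 6)) (a (b (l 16463304) (l 6)) (l 16437768)))) (b (a (b (a (l 16526832) (b (l 16510912) (l 16491896))) (b (a (l 16540048) (l 16473184)) (b (l 16419752) (c (l 16425608) (l 16480208))))) (a (b (b (l 16440880) (l 16442960)) (b (l 16424344) (b (l 16452392) (b (l 16445248) (l 16440456))))) (b (c (b (l 16389784) (l 16411968)) (b (l 16497232) (l 16500712))) (b (c (l 16413496) (l 16483272)) (b (l 16360664) (b (l 16374424) (l 16369560))))))) (a (b (b (l 16397424) (l 16381104)) (a (l 16443432)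 (l 16397680))) (a (b (l 16359008) (l 16328536)) (b (c (l 16388280) (l 16441304)) (c (l 16356840) (l 16413360))))))) (a (l 6) (a (b (b (a (l 16414512) (l 16369296)) (l 6)) (l 6)) (b (a (b (l 16300808) (l 16296784)) (c (b (l 16328752) (l 16304136)) (l 16271088))) (b (a (l 6) (c (l 16281792) (l 16342024))) (l 6)))))))), by decide +kernel⟩

def k12_pm_202_s : ∃ t, chk3 f_pm_202_s t 1 3 1 = true :=
  ⟨(a (l 6) (l 6)), by decide +kernel⟩

theorem s13_pm_202_s : ∃ t, chk3 f_pm_202_s t 7 9 1 = true := ex3_a k9_pm_202_s k10_pm_202_s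

theorem s14_pm_202_s : ∃ t, chk3 f_pm_202_s t 3 9 1 = true := ex3_a k8_pm_202_s s13_pm_202_s

theorem s15_pm_202_s : ∃ t, chk3 f_pm_202_s t 1 9 1 = true := ex3_a k7_pm_202_s s14_pm_202_s

theorem s16_pm_202_s : ∃ t, chk3 f_pm_202_s t 14 35 1 = true := ex3_a k4_pm_202_s k5_pm_202_s

theorem s17_pm_202_s : ∃ t, chk3 f_pm_202_s t 7 35 1 = true := ex3_a s16_pm_202_s k6_pm_202_s

theorem s18_pm_202_s : ∃ t, chk3 f_pm_202_s t 7 17 1 = true := ex3_b k3_pm_202_s s17_pm_202_s

theorem s19_pm_202_s : ∃ t, chk3 f_pm_202_s t 7 8 1 = true := ex3_b k2_pm_202_s s18_pm_202_s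

theorem s20_pm_202_s : ∃ t, chk3 f_pm_202_s t 3 8 1 = true := ex3_a k1_pm_202_s s19_pm_202_s

theorem s21_pm_202_s : ∃ t, chk3 f_pm_202_s t 1 8 1 = true := ex3_a k0_pm_202_s s20_pm_202_s

theorem s22_pm_202_s : ∃ t, chk3 f_pm_202_s t 1 4 1 = true := ex3_b s21_pm_202_s s15_pm_202_s

theorem s23_pm_202_s : ∃ t, chk3 f_pm_202_s t 1 2 1 = true := ex3_b s22_pm_202_s k11_pm_202_s

theorem s24_pm_202_s : ∃ t, chk3 f_pm_202_s t 1 1 1 = true := ex3_b s23_pm_202_s k12_pm_202_s

theorem c_pm_202_s : CertNE 0 536870912 0 536870912 966367641 24778659 3 eng mog cd0q2 cd0q0 pd2 true true false .pp 2 0 2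
    ndB0q2 ndB0q0 pcB2 cut_pm_202_s Ext.none :=
  certNE1 (fam := true) (s1 := true) (s2 := false) (a := 2) (b := 0) (c := 2) (cn := .pp) (n1 := ndB0q2) (n2 := ndB0q0) (pc := pcB2) (cut := cut_pm_202_s) (xt := Ext.none) (P1 := 0) (W1 := 536870912) (P2 := 0) (W2 := 536870912) (P3 := 966367641) (W3 := 24778659) (N0 := 3) (En := eng) (mo := mog) (C1 := cd0q2) (C2 := cd0q0) (C3 := pd2)
    rfl (fun _ => rfl) s24_pm_202_s

noncomputable def cut_pm_202_t : Cut := Cut.of [[⟨3, 0, 0, 2845415833⟩], [⟨0, 1, 0, 53687091⟩, ⟨1, 0, 0, 53687091⟩, ⟨2, 1, 0, 53687091⟩]]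

noncomputable def f_pm_202_t : ℕ → ℕ → ℕ → ℕ → Bool := onCell 0 536870912 1073741824 536870912 966367641 24778659
    (rowNE 3 eng mog cd0q2 cd0q0 pd2 1 true true false .pp 2 0 2 (qsf 0 536870912 0 536870912 2) ndB0q2 ndB0q0 pcB2 cut_pm_202_t Ext.none)

def k0_pm_202_t : ∃ t, chk3 f_pm_202_t t 1 1 1 = true :=
  ⟨(b (l 6) (a (l 6) (l 6))), by decide +kernel⟩

theorem c_pm_202_t : CertNE 0 536870912 0 536870912 966367641 24778659 3 eng mog cd0q2 cd0q0 pd2 true true false .pp 2 0 2
    ndB0q2 ndB0q0 pcB2 cut_pm_202_t Ext.none :=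
  certNE1 (fam := true) (s1 := true) (s2 := false) (a := 2) (b := 0) (c := 2) (cn := .pp) (n1 := ndB0q2) (n2 := ndB0q0) (pc := pcB2) (cut := cut_pm_202_t) (xt := Ext.none) (P1 := 0) (W1 := 536870912) (P2 := 0) (W2 := 536870912) (P3 := 966367641) (W3 := 24778659) (N0 := 3) (En := eng) (mo := mog) (C1 := cd0q2) (C2 := cd0q0) (C3 := pd2)
    rfl (fun _ => rfl) k0_pm_202_t

noncomputable def cut_pm_203_s : Cut := Cut.of [[⟨4, 0, 0, 1449551462⟩]]

noncomputable def f_pm_203_s : ℕ → ℕ → ℕ → ℕ → Bool := onCell 0 536870912 1610612736 536870912 966367641 24778659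
    (rowNE 3 eng mog cd0q2 cd0q0 pd3 1 true true false .up 2 0 3 (qsf 0 536870912 0 536870912 3) ndB0q2 ndB0q0 pcB3 cut_pm_203_s Ext.none)

def k0_pm_203_s : ∃ t, chk3 f_pm_203_s t 1 1 1 = true :=
  ⟨(l 6), by decide +kernel⟩

theorem c_pm_203_s : CertNE 0 536870912 0 536870912 966367641 24778659 3 eng mog cd0q2 cd0q0 pd3 true true false .up 2 0 3
    ndB0q2 ndB0q0 pcB3 cut_pm_203_s Ext.none :=
  certNE1 (fam := true) (s1 := true) (s2 := false) (a := 2) (b := 0) (c := 3) (cn := .up) (n1 := ndB0q2) (n2 := ndB0q0) (pc := pcB3) (cut := cut_pm_203_s) (xt := Ext.none) (P1 := 0) (W1 := 536870912) (P2 := 0) (W2 := 536870912) (P3 := 966367641) (W3 := 24778659) (N0 := 3) (En := eng) (mo := mog) (C1 := cd0q2) (C2 := cd0q0) (C3 := pd3)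
    rfl (fun _ => rfl) k0_pm_203_s

noncomputable def cut_pm_203_t : Cut := Cut.of [[⟨3, 0, 0, 2845415833⟩]]

noncomputable def f_pm_203_t : ℕ → ℕ → ℕ → ℕ → Bool := onCell 0 536870912 0 536870912 966367641 24778659
    (rowNE 3 eng mog cd0q2 cd0q0 pd3 0 true true false .up 2 0 3 (qsf 0 536870912 0 536870912 3) ndB0q2 ndB0q0 pcB3 cut_pm_203_t Ext.none)

def k0_pm_203_t : ∃ t, chk3 f_pm_203_t t 1 1 1 = true :=
  ⟨(a (b (l 1) (b (a (a (a (a (a (b (l 1) (b (l 1) (l 6))) (l 6)) (l 6)) (l 6)) (l 6)) (l 6)) (b (a (a (c (c (b (l 16510072) (l 16565232)) (b (l 16485232) (b (l 16575432) (l 16582384)))) (a (b (b (l 16373256) (l 16389096)) (b (l 16428472) (l 16470184))) (b (l 6) (c (l 16468608) (l 16367592))))) (l 6)) (l 6)) (a (b (a (a (c (b (l 16638696) (l 16646608)) (b (l 16492984) (l 16517536))) (c (b (l 16607352) (l 16613400)) (c (l 16502608) (l 16420976)))) (a (c (c (l 16613624) (l 16536344)) (c (l 16445072) (l 16345056))) (l 6))) (a (c (b (a (l 16656280) (l 16621328)) (a (l 16667664) (l 16631088))) (c (c (l 16501488) (l 16433464))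 (b (l 16460240) (l 16450056)))) (c (c (l 16602792) (a (l 16556896) (l 16511416))) (a (b (l 16432760) (l 16459688)) (c (l 16422144) (l 16324440)))))) (l 6))))) (l 6)), by decide +kernel⟩

theorem c_pm_203_t : CertNE 0 536870912 0 536870912 966367641 24778659 3 eng mog cd0q2 cd0q0 pd3 true true false .up 2 0 3
    ndB0q2 ndB0q0 pcB3 cut_pm_203_t Ext.none :=
  certNE0 (fam := true) (s1 := true) (s2 := false) (a := 2) (b := 0) (c := 3) (cn := .up) (n1 := ndB0q2) (n2 := ndB0q0) (pc := pcB3) (cut := cut_pm_203_t) (xt := Ext.none) (P1 := 0) (W1 := 536870912) (P2 := 0) (W2 := 536870912) (P3 := 966367641) (W3 := 24778659) (N0 := 3) (En := eng) (mo := mog) (C1 := cd0q2) (C2 := cd0q0) (C3 := pd3)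
    rfl k0_pm_203_t

noncomputable def cut_pm_213_s : Cut := Cut.of [[⟨4, 0, 0, 1449551462⟩], [⟨0, 1, 0, 47710208⟩, ⟨1, 1, 0, 47710208⟩, ⟨2, 2, 0, 8388608⟩], [⟨0, 1, 0, 1572864⟩, ⟨1, 0, 1, 46137344⟩, ⟨2, 1, 1, 46137344⟩, ⟨1, 0, 0, 1013612281⟩, ⟨1, 1, 0, 128849018⟩, ⟨2, 1, 0, 1013612281⟩, ⟨2, 2, 0, 128849018⟩]]

noncomputable def f_pm_213_s : ℕ → ℕ → ℕ → ℕ → Bool := onCell 0 536870912 536870912 536870912 966367641 24778659
    (rowNE 3 eng mog cd0q2 cd0q1 pd3 0 true true false .pnn 2 1 3 (qsf 0 536870912 536870912 536870912 3) ndB0q2 ndB0q1 pcB3 cut_pm_213_s Ext.none)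

def k0_pm_213_s : ∃ t, chk3 f_pm_213_s t 1 1 1 = true :=
  ⟨(l 6), by decide +kernel⟩

theorem c_pm_213_s : CertNE 0 536870912 536870912 536870912 966367641 24778659 3 eng mog cd0q2 cd0q1 pd3 true true false .pnn 2 1 3
    ndB0q2 ndB0q1 pcB3 cut_pm_213_s Ext.none :=
  certNE0 (fam := true) (s1 := true) (s2 := false) (a := 2) (b := 1) (c := 3) (cn := .pnn) (n1 := ndB0q2) (n2 := ndB0q1) (pc := pcB3) (cut := cut_pm_213_s) (xt := Ext.none) (P1 := 0) (W1 := 536870912) (P2 := 536870912) (W2 := 536870912) (P3 := 966367641) (W3 := 24778659) (N0 := 3) (En := eng) (mo := mog) (C1 := cd0q2) (C2 := cd0q1) (C3 := pd3)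
    rfl k0_pm_213_s

noncomputable def cut_pm_213_t : Cut := Cut.of [[⟨3, 0, 0, 2845415833⟩], [⟨0, 1, 0, 47710208⟩, ⟨1, 1, 0, 47710208⟩, ⟨2, 2, 0, 8388608⟩], [⟨0, 1, 0, 1572864⟩, ⟨1, 0, 1, 46137344⟩, ⟨2, 1, 1, 46137344⟩, ⟨1, 0, 0, 1013612281⟩, ⟨1, 1, 0, 128849018⟩, ⟨2, 1, 0, 1013612281⟩, ⟨2, 2, 0, 128849018⟩]]

noncomputable def xt_pm_213_t : Ext := extD3 3 ⟨4, 1, 1, 5, 37, 10, 843, 1000, 41, 100, 1, 8⟩ eng cd0q2 cd0q1 pd3 true true false .pnn 2 1 3 rfl ndB0q2 ndB0q1 pcB3

noncomputable def f_pm_213_t : ℕ → ℕ → ℕ → ℕ → Bool := onCell 0 536870912 1610612736 536870912 966367641 24778659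
    (rowNE 3 eng mog cd0q2 cd0q1 pd3 1 true true false .pnn 2 1 3 (qsf 0 536870912 536870912 536870912 3) ndB0q2 ndB0q1 pcB3 cut_pm_213_t xt_pm_213_t)

def k0_pm_213_t : ∃ t, chk3 f_pm_213_t t 4 2 1 = true :=
  ⟨(b (l 1) (b (b (b (l 1) (a (b (l 1) (c (l 16654056) (l 16444712))) (c (l 16493736) (c (l 16474248) (l 16396088))))) (c (a (c (b (l 16678032) (l 16689176)) (l 16713760)) (c (l 16616032) (l 16420488))) (a (b (a (l 16559864) (l 16560960)) (c (l 16636256) (l 16541776))) (b (a (l 16497656) (l 16431864)) (a (l 16527464) (l 16462224)))))) (c (c (b (a (b (l 16702064) (l 16716664)) (b (l 16630000) (l 16641784))) (a (b (l 16732976) (l 58216846919)) (l 16705144))) (b (a (b (l 16683600) (l 16703536)) (b (l 16592632) (l 16611480))) (a (b (l 16724576) (l 51774399879)) (l 16684432)))) (b (a (b (c (l 16661920) (l 16658960)) (c (l 16688160) (l 16671184))) (b (a (l 16558064) (l 16493584)) (a (l 16589208) (l 16525696)))) (a (b (a (l 16738600) (l 16680488)) (a (b (l 16758848) (l 16748928)) (l 16710728))) (b (b (l 16497576) (l 16513656))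 (c (l 16590880) (l 16547368)))))))), by decide +kernel⟩

def k1_pm_213_t : ∃ t, chk3 f_pm_213_t t 4 3 1 = true :=
  ⟨(a (b (a (b (a (l 4) (b (b (c (l 90965978071) (l 83986659559)) (l 4)) (l 4))) (l 4)) (b (b (c (b (l 16749080) (b (l 16765080) (l 16774144))) (b (l 16740616) (b (l 16761224) (l 16750976)))) (b (a (l 4) (b (l 104924768375) (l 109756457495))) (l 4))) (l 4))) (l 4)) (b (b (c (b (b (l 16682856) (a (l 16727504) (l 16681984))) (b (a (l 16751080) (l 16705360)) (a (b (l 16768536) (l 16751064)) (l 16730576)))) (b (b (a (l 16683800) (l 16624256)) (a (l 16715128) (l 16636248))) (b (a (l 43721335031) (l 16690000)) (a (b (l 16766296) (l 82912925783)) (l 16722512))))) (a (b (b (a (l 4) (b (l 107608987479) (l 4))) (l 4)) (l 4)) (b (b (b (l 16748688) (a (l 72712394167) (l 16751224))) (a (b (l 115662050167) (l 4)) (b (l 16766088) (l 90966002711)))) (l 4)))) (l 4))), by decide +kernel⟩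

def k2_pm_213_t : ∃ t, chk3 f_pm_213_t t 5 2 1 = true :=
  ⟨(b (l 6) (b (a (a (b (b (l 6) (c (l 16520288) (l 16333120))) (c (l 16458912) (b (l 16362552) (l 16393456)))) (a (b (l 6) (c (l 16500816) (l 16323720))) (l 6))) (l 6)) (a (b (c (c (l 16559744) (l 16399176)) (b (a (l 16425576) (l 16353760)) (a (l 16458648) (l 16387792)))) (b (c (l 16554656) (a (l 16492416) (l 16422720))) (c (l 16571512) (a (l 16526664) (l 16458296))))) (a (b (b (l 6) (c (l 16469688) (l 16316120))) (c (b (l 16482216) (l 16498128)) (b (l 16348784) (l 16386176)))) (b (l 6) (c (b (l 16438752) (l 16450216)) (b (l 16300160) (l 16325600)))))))), by decide +kernel⟩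

def k3_pm_213_t : ∃ t, chk3 f_pm_213_t t 5 6 1 = true :=
  ⟨(b (b (a (c (c (b (l 16603824) (l 16621456)) (b (l 16575800) (l 16599840))) (b (a (l 16561168) (l 16494296)) (a (l 16595768) (l 16530528)))) (c (b (a (l 16515840) (l 16464048)) (a (l 16535664) (l 16481240))) (a (b (l 16423680) (l 16461560)) (b (l 16354840) (l 16388944))))) (a (b (a (c (l 16658136) (l 16630320)) (c (l 16609128) (l 16566848))) (c (l 16679232) (c (l 16535448) (l 16501544)))) (c (b (a (l 16557624) (l 16502944)) (a (l 16581808) (l 16526928))) (a (b (l 16499648) (l 16537752)) (b (l 16428480) (l 16468472)))))) (b (a (b (c (l 16742608) (a (l 16698952) (l 16639272))) (c (a (l 16738512) (l 16646904)) (a (l 16733424) (l 16612768)))) (c (b (a (l 16608232) (l 16553328)) (a (l 16636880) (l 16582136))) (b (a (l 16575888) (l 16508600)) (a (l 16614288) (l 16549048))))) (b (a (a (a (b (l 16771616) (l 121567636871)) (b (l 16747528) (l 16763984))) (c (l 16719600) (l 16712560))) (a (b (l 16651712) (l 16669488)) (c (l 16613408) (l 16590040)))) (a (a (b (c (l 94724078007)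 (l 95797816535)) (l 4)) (b (l 16742360) (c (l 16760048) (l 16758568)))) (a (b (l 16624768) (l 16706320)) (b (l 16629984) (l 16649312))))))), by decide +kernel⟩

def k4_pm_213_t : ∃ t, chk3 f_pm_213_t t 5 7 1 = true :=
  ⟨(b (b (a (b (a (l 4) (b (c (l 73249254871) (l 74322992791)) (c (l 97945291175) (l 97945285383)))) (l 4)) (b (b (a (l 16725432) (l 16690096)) (a (c (l 16746168) (l 16743744)) (a (l 16703752) (l 16675344)))) (a (a (b (c (l 16774048) (l 16774336)) (b (l 124251996695) (l 4))) (b (l 16751808) (c (l 16770744) (l 16770792)))) (b (c (l 16712872) (l 16707744)) (c (l 16733288) (l 16730216)))))) (a (l 4) (b (a (b (b (a (l 4) (l 101703420999)) (l 4)) (l 4)) (b (a (b (l 16761856) (l 57680022711)) (l 16761296)) (c (a (l 103314021959) (l 16762912)) (a (l 104387760215) (l 16762320))))) (a (l 4) (a (l 4) (b (b (c (l 16773672) (l 16773840)) (c (l 16747616) (l 16746872))) (l 4))))))) (l 4)), by decide +kernel⟩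

def k5_pm_213_t : ∃ t, chk3 f_pm_213_t t 3 2 1 = true :=
  ⟨(a (b (l 6) (b (l 6) (l 6))) (l 6)), by decide +kernel⟩

def k6_pm_213_t : ∃ t, chk3 f_pm_213_t t 6 6 1 = true :=
  ⟨(b (a (b (a (c (l 16428616) (b (l 16316024) (l 16341288))) (c (l 16386256) (l 16316064))) (a (b (c (l 16452992) (l 16370392)) (c (l 16472728) (l 16423568))) (b (l 16372768) (l 16395640)))) (b (l 6) (a (c (l 16373992) (l 16368016)) (b (l 6) (l 16341640))))) (a (b (a (b (c (l 16496280) (l 16460072)) (c (l 16525144) (l 16480856))) (b (c (l 16450424) (l 16389896)) (a (l 16544032) (l 16438288)))) (a (b (c (l 16557144) (l 16524216)) (c (l 16591776) (l 16568360))) (b (c (l 16587048) (l 16566312)) (a (l 16535272) (b (l 16495528) (l 16515496)))))) (b (a (c (l 16502800) (b (l 16347504) (l 16379096))) (b (c (l 16354400) (l 16296272)) (l 16418216))) (a (b (c (l 16460056) (l 16413736)) (c (l 16491808) (l 16452304))) (b (c (l 16413312) (l 16363128)) (c (l 16448728) (l 16402512))))))), by decide +kernel⟩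

def k7_pm_213_t : ∃ t, chk3 f_pm_213_t t 12 7 1 = true :=
  ⟨(b (b (b (a (b (l 16610976) (l 16632200)) (c (l 16574904) (l 16551792))) (b (a (l 16716904) (c (l 16606200) (l 16588872))) (a (c (l 16680264) (l 16672392)) (c (l 16628080) (l 16614176))))) (a (b (b (c (l 16722960) (l 16738544)) (c (l 16724488) (l 16721232))) (b (c (a (l 16760200) (l 16735152)) (a (l 16759496) (l 16732864))) (b (a (c (l 16753032) (l 16753672)) (l 16752424)) (a (c (l 115125194375) (l 116198933431)) (c (l 16764664) (l 16764264)))))) (b (c (b (l 16650712) (l 16674080)) (b (l 16639928) (l 16687096))) (b (c (a (l 16710320) (l 16686368)) (a (l 16706080) (l 16679536))) (c (a (l 16734536) (l 16711112)) (a (l 16732240) (l 16706632))))))) (b (b (b (a (a (l 4) (b (c (a (l 16773072) (l 16770528)) (l 44795119671)) (a (l 4) (b (l 16774776) (l 127473237911))))) (a (b (l 16752320) (b (l 16761768) (c (l 16767864) (l 16767600)))) (b (l 16749312) (c (l 16742296) (l 16761200))))) (a (l 4) (a (b (c (a (l 119420176247) (l 16771224)) (a (l 122641402503) (l 16770992)))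 (b (a (l 4) (l 118346443575)) (l 4))) (b (c (l 16755224) (l 16753344)) (b (l 16761240) (a (l 48016362375) (l 16764744))))))) (b (a (l 4) (a (l 4) (b (c (b (l 53921936183) (l 82912954391)) (b (l 52311323287) (l 81839212295))) (b (a (l 4) (l 141968760871)) (l 4))))) (l 4))) (l 4))), by decide +kernel⟩

def k8_pm_213_t : ∃ t, chk3 f_pm_213_t t 13 14 1 = true :=
  ⟨(b (b (a (a (b (l 16510800) (l 16573768)) (c (l 16516608) (l 16482168))) (c (b (l 16478048) (l 16498296)) (b (l 16435000) (l 16457496)))) (a (a (b (l 16555456) (l 16580368)) (b (l 16594336) (c (l 16567152) (l 16542168)))) (c (b (l 16519768) (l 16542584)) (b (l 16481384) (l 16506872))))) (b (a (b (a (l 16605848) (c (l 16590704) (l 16569456))) (c (a (l 16638576) (l 16616656)) (l 16653776))) (b (a (c (l 16573760) (l 16545368)) (l 16541368)) (a (c (a (l 16601448) (l 16594608)) (l 16573552)) (c (l 16586608) (l 16552288))))) (a (c (b (a (l 16663704) (l 16642936)) (a (l 16689216) (l 16669568))) (b (a (l 16653424) (l 16628032)) (a (l 16681640) (l 16657640)))) (a (b (c (a (l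 16628984) (l 16620632)) (l 16624336)) (c (l 16653032) (l 16635040))) (b (c (l 16614312) (l 16583360)) (b (c (l 16635192) (l 16607168)) (a (l 16639144) (l 16633584)))))))), by decide +kernel⟩

def k9_pm_213_t : ∃ t, chk3 f_pm_213_t t 13 30 1 = true :=
  ⟨(b (a (b (c (b (a (l 16708400) (l 16689544)) (a (l 16721256) (l 16702896))) (b (l 16753904) (a (l 16716656) (l 16694432)))) (c (a (b (l 16734872) (l 16748080)) (b (l 16717328) (l 16731424))) (a (b (l 16730168) (l 16743576)) (b (l 16708520) (l 16722416))))) (b (b (a (c (l 16674264) (l 16658608)) (a (l 16655088) (c (l 16662904) (l 16636072)))) (c (a (l 16688424) (l 16679640)) (a (l 16674184) (l 16656968)))) (c (a (b (l 16703880) (l 16719072)) (b (l 16696488) (l 16713096))) (a (b (l 16689112) (l 16703784)) (b (l 16673152) (l 16689048)))))) (b (c (a (b (a (l 16760392) (l 16744600)) (a (b (l 16768768) (l 49090104055)) (l 16756624))) (b (a (l 16733304) (l 16728656)) (a (l 16746288) (l 16742896)))) (a (b (a (l 16756920) (l 16736184)) (a (b (l 16766680) (l 50700716503)) (l 16749712)))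 (a (b (l 16718264) (l 16732384)) (b (l 16704664) (l 16719808))))) (a (a (b (b (a (l 156464273287) (c (l 16774632) (l 16773960))) (c (l 152169296599) (l 156464263399))) (l 4)) (b (c (b (l 16764736) (l 16769616)) (b (l 16759608) (l 16766032))) (a (b (b (l 16775272) (l 16764672)) (b (l 155390542599) (l 4))) (b (l 16769608) (c (l 16774928) (l 16773560)))))) (b (a (c (l 16757736) (l 16745968)) (c (l 16755416) (l 16734224))) (a (c (b (l 16765072) (l 16769256)) (l 16769288)) (c (l 16765760) (l 16747592))))))), by decide +kernel⟩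

def k10_pm_213_t : ∃ t, chk3 f_pm_213_t t 13 31 1 = true :=
  ⟨(b (b (a (b (a (l 4) (b (a (l 4) (c (l 16758208) (l 112977739399))) (l 4))) (l 4)) (a (b (b (c (l 16772784) (l 16767752)) (a (c (l 80765488487) (b (l 16775176) (l 16774840))) (l 16772328))) (b (a (b (l 174181023591) (l 4)) (a (l 16765464) (l 16775000))) (a (l 4) (a (l 4) (l 152706193879))))) (b (b (c (l 16771728) (l 16756712)) (c (l 16774704) (l 16762304))) (b (a (l 16772896) (l 16772152)) (a (l 30836505591) (l 16774904)))))) (a (l 4) (a (l 4) (b (b (a (b (l 92039783847) (l 142505641271)) (l 16776616)) (a (l 4) (b (l 16766136) (l 125325775431)))) (b (a (l 4) (b (l 209614500631) (l 4))) (l 4)))))) (l 4)), by decide +kernel⟩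

def k11_pm_213_t : ∃ t, chk3 f_pm_213_t t 7 6 1 = true :=
  ⟨(b (l 6) (a (a (b (b (c (l 16288936) (l 16231784)) (c (l 16319744) (l 16264008))) (b (c (l 16355488) (l 16300816)) (c (l 16396872) (l 16343040)))) (b (b (l 6) (a (l 16235944) (l 6))) (b (c (l 588743689783162039079455) (l 16266864)) (c (l 595724768880844676080159) (l 586329899123116906848799))))) (b (l 6) (b (a (a (c (l 16227280) (l 16155264)) (c (l 580455337086543207223839) (l 16102920))) (l 6)) (a (a (c (l 16286008) (l 16208352)) (c (l 582163816889637375926815) (l 578580398489676274946591))) (a (c (a (l 581142328140924599116319) (l 578976276716603526079007)) (a (l 576700696834551193346591) (l 16103840))) (b (l 6) (c (a (l 578432097968189508444703) (l 138088729350406175)) (l 576363467056546802803231))))))))), by decide +kernel⟩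

def k12_pm_213_t : ∃ t, chk3 f_pm_213_t t 14 14 1 = true :=
  ⟨(b (c (b (a (b (l 16431928) (l 16456568)) (a (l 594790326873617291059743) (b (l 16366328) (l 16400624)))) (a (b (l 16483080) (l 16511680)) (a (l 599563710888842727383583) (b (l 16438576) (l 16480472))))) (a (b (b (l 16378616) (l 16403448)) (a (l 16457144) (l 590325350525738217546271))) (b (a (l 587936207908673616765471) (l 592602945504878020895263)) (a (l 590896911051103693529631) (b (l 16360736) (l 16399016)))))) (b (c (a (b (a (l 16547912) (l 16537176)) (a (l 16578048) (l 16572208))) (a (b (l 16529472) (l 16571000)) (b (l 16526520) (l 594690312828444880839199)))) (a (a (l 141613970602262559) (l 141386440201994271)) (a (l 141535355443363871) (c (l 141205570516238367) (l 140770232587419679))))) (a (b (c (a (l 16609416) (l 16609152)) (a (l 16565912) (l 16551512))) (a (c (l 16641504) (l 16600696)) (c (l 16647544) (l 16590736)))) (b (a (c (l 596466677026032514474527) (l 141845280197722143)) (c (l 598057132415154372010527) (l 141778622299258911))) (a (c (c (l 16682096)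 (l 16643144)) (l 142299516032598047)) (c (c (l 16716192) (l 16666200)) (l 142335525052268575))))))), by decide +kernel⟩

def k13_pm_213_t : ∃ t, chk3 f_pm_213_t t 28 15 1 = true :=
  ⟨(b (b (b (b (a (c (l 16665616) (l 16627496)) (c (l 16676848) (l 16621208))) (a (c (a (l 16679520) (l 16684248)) (a (l 16647576) (l 16643800))) (c (l 16696376) (l 16641808)))) (a (c (b (a (l 16696552) (l 16701968)) (a (l 16714504) (l 16719752))) (b (a (l 16664512) (l 16661904)) (a (l 16681816) (l 16679744)))) (c (a (l 16720160) (l 16733040)) (b (l 16662064) (l 16682152))))) (b (a (a (b (l 16735776) (l 16730768)) (b (b (l 16754408) (l 16721368)) (l 16734040))) (a (b (c (l 16747768) (l 16699680)) (c (l 16764776) (l 16717904))) (c (l 16772568) (l 16715408)))) (a (b (c (l 16763856) (l 16730480)) (c (l 16775488) (l 16745000))) (b (a (c (l 16780432) (l 16735496)) (c (l 16776400) (l 16744464))) (b (a (l 16769152) (l 16783424)) (c (l 16789824) (l 16759856))))))) (b (b (b (a (c (b (l 16782168) (l 16783552)) (b (l 16754680) (l 16760448))) (c (b (l 16786920)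 (l 16784416)) (b (l 16767000) (l 16773400)))) (a (c (l 16760432) (l 16768320)) (c (l 16761280) (l 16760904)))) (b (a (b (c (l 16779744) (l 16774096)) (a (l 16778832) (l 16780184))) (c (b (l 16780696) (l 16779800)) (b (l 16784496) (l 16783296)))) (a (b (a (b (l 16777568) (a (l 16753128) (l 16777224))) (l 16778824)) (a (b (l 163443604007) (l 4)) (b (l 16778080) (a (l 16764448) (l 16777736))))) (b (c (l 16779024) (l 16781872)) (a (l 16778712) (l 16779584)))))) (b (b (a (b (a (l 4) (b (a (l 4) (l 16764696)) (l 4))) (l 4)) (b (a (b (l 16777960) (a (l 16764832) (l 16777688))) (l 16768024)) (a (b (a (l 4) (l 139284427079)) (l 4)) (b (l 16777856) (a (l 144653135319) (l 16777640)))))) (a (l 4) (b (a (l 4) (b (a (l 4) (l 154316811207)) (l 4))) (l 4)))) (l 4)))), by decide +kernel⟩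

def k14_pm_213_t : ∃ t, chk3 f_pm_213_t t 29 30 1 = true :=
  ⟨(b (b (b (a (c (l 16699016) (l 16623416)) (c (l 16738160) (l 16638616))) (a (c (l 599523361197288179966495) (l 16731912)) (c (c (l 16771240) (l 16744648)) (l 143086010611810335)))) (a (c (c (l 16780472) (l 16741360)) (b (l 16672760) (l 16697544))) (c (c (l 16770864) (l 16763344)) (c (l 16742512) (l 16692912))))) (b (b (a (c (l 16775568) (l 16722104)) (c (l 16767288) (l 16766440))) (a (c (l 16776112) (l 16746000)) (c (l 16766880) (l 16763808)))) (b (a (c (l 16772912) (l 16768624)) (c (l 16765992) (l 16767512))) (a (a (c (l 16769064) (l 16778312)) (c (l 16788960) (l 16794128))) (c (l 16764536) (a (l 16792568) (l 16790032))))))), by decide +kernel⟩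

def k15_pm_213_t : ∃ t, chk3 f_pm_213_t t 29 62 1 = true :=
  ⟨(b (b (a (a (b (a (l 16770480) (l 16769752)) (a (l 16768448) (l 16769024))) (c (l 16763600) (b (l 16795056) (l 16773216)))) (c (a (l 16763096) (l 16761496)) (a (l 16773336) (l 16771512)))) (a (a (l 16765736) (a (b (l 16767128) (l 16786160)) (b (l 16766768) (l 16765216)))) (a (l 16765592) (l 16764216)))) (a (b (a (c (l 16780264) (l 16765656)) (b (l 16763984) (l 16762176))) (a (b (l 16781400) (l 16780224)) (b (l 16760864) (l 16759704)))) (b (a (a (b (l 16763408) (l 16762600)) (b (l 16763192) (l 16761632))) (l 16766696)) (b (a (b (l 16768200) (l 16760592)) (a (c (l 16756664) (l 16763192)) (l 16780400))) (a (l 16759736) (a (l 16767536) (c (l 16755568) (l 16760840)))))))), by decide +kernel⟩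

def k16_pm_213_t : ∃ t, chk3 f_pm_213_t t 29 63 1 = true :=
  ⟨(b (b (a (b (a (l 16779184) (l 16758696)) (a (l 16770400) (c (l 16777824) (l 16779784)))) (b (a (l 16758752) (a (l 16758264) (b (l 16758216) (l 16778560)))) (a (c (l 16777552) (l 16780176)) (c (l 16776824) (l 16779824))))) (a (b (a (b (l 16767296) (a (c (l 16766664) (l 176328518263)) (l 16777560))) (b (l 16778224) (l 16777864))) (a (b (a (l 4) (c (l 185455321175) (l 199413964743))) (l 4)) (b (a (c (l 16777216) (l 16777040)) (l 16777592)) (a (c (l 274039018263) (l 284776436343)) (b (l 16777512) (l 146263754039)))))) (b (a (a (l 16767688) (l 16757136)) (b (l 16777896) (l 16777704))) (a (b (l 16777776) (l 16777552)) (b (l 16777560) (l 16777472)))))) (b (a (b (a (l 4) (b (a (l 4) (c (l 307861880935) (l 321283653543))) (l 4))) (l 4)) (a (b (b (a (b (l 16776960) (l 211762000823)) (l 16777432)) (a (l 4) (b (l 155927431351) (l 344369111095)))) (l 4)) (b (b (l 16777400) (a (b (l 16777312) (l 103314084023)) (l 16777312))) (b (b (a (a (l 4) (l 16770064)) (l 16777424)) (a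 (l 4) (c (l 209077647511) (l 219278194695)))) (l 4))))) (l 4))), by decide +kernel⟩

def k17_pm_213_t : ∃ t, chk3 f_pm_213_t t 30 28 1 = true :=
  ⟨(b (c (a (b (l 16338424) (l 16462656)) (b (l 586155520115943182279199) (a (l 16364312) (l 585073215584901309784607)))) (a (b (l 16255656) (l 16291312)) (b (l 579780439540352560177695) (l 581001672152150539788831)))) (a (c (c (l 591241635219935060058655) (l 588025848386406760620575)) (b (l 16331376) (l 139963053391413279))) (b (c (a (l 587591485094028631892511) (l 587156833653875260121631)) (l 584847530628765848248863)) (c (b (l 140860530060951583) (l 141225293154631711)) (c (l 585988059184666769842719) (l 583402343817479010542111)))))), by decide +kernel⟩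

def k18_pm_213_t : ∃ t, chk3 f_pm_213_t t 31 56 1 = true :=
  ⟨(b (a (c (a (c (l 583579893594841873621535) (l 581453040993978068312607)) (l 581393665790615482851871)) (a (l 578321128754676402594335) (l 576432066691051006878239))) (a (c (l 138991085054492703) (l 574421947921943578845727)) (c (b (l 138650442449403935) (a (l 139039394755657759) (c (l 139499128139235359) (l 138662399638192159)))) (l 138302515481575455)))) (a (a (c (a (l 584591006105813585240607) (c (l 139918523179859999) (l 16319864))) (c (l 16262456) (l 16204488))) (c (a (l 583795490243789240771103) (l 139572658163220511)) (l 581326219106340636664351))) (a (c (b (l 139767615159779359) (c (l 140243703803461663) (l 139414809326845983))) (l 137985237798273055)) (c (c (a (l 140834897613209631) (a (l 140534181110988831) (l 22))) (a (l 139258060173197343) (l 139491637686796319))) (c (l 138406969301336095) (l 137526672646520863)))))), by decide +kernel⟩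

def k19_pm_213_t : ∃ t, chk3 f_pm_213_t t 31 57 1 = true :=
  ⟨(a (a (c (c (b (b (l 16430872) (l 16487944)) (a (l 141499689952198687) (b (l 16509168) (l 16552104)))) (b (a (l 16383896) (l 139940238584021023)) (b (l 16437024) (l 16496712)))) (b (c (l 583212399831850770047519) (l 580791552165192429527583)) (c (a (l 16386696) (l 586548090700113953595935)) (l 583675585994649522676255)))) (c (c (b (b (l 140571701923758111) (l 141005390624571423)) (b (c (l 16541752) (l 16503920)) (c (l 16589968) (l 16550480)))) (b (l 139966695589740575) (b (l 140605924242112543) (l 141075759523708959)))) (b (c (l 582503353063361722901023) (l 16269960)) (b (l 583867547601844372398623) (c (l 16456160) (l 16337696)))))) (a (c (c (b (b (l 140697870955184159) (a (l 141133071440887839) (l 141250513051500575))) (b (a (l 141648879932276767) (l 141806316371214367)) (a (l 142211280280289311) (l 142413934099890207)))) (b (a (l 140030604674695199) (l 140098430855872543)) (b (a (l 16502776) (l 140858674528747551)) (a (l 141261989213552671) (l 141425610405068831)))))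 (b (c (l 139185629838884895) (l 138309662513283103)) (c (b (l 139865471751553055) (l 140372071872921631)) (l 583354497375613894386207)))) (c (a (b (c (b (l 140849947190542367) (c (l 141633830409256991) (l 141162277230493727))) (b (l 139942918608977951) (l 140453435698561055))) (c (b (a (l 141946572851134495) (b (l 141893658801930271) (l 142213891624009759))) (a (l 142591299060826143) (c (l 142933315916972063) (l 142463549531078687)))) (b (l 141012743797260319) (a (l 141572189033873439) (c (l 141943274234003487) (l 141422036907343903)))))) (a (b (c (b (l 140950964885471263) (c (b (l 141620704945618975) (l 141929599051989023)) (l 141288652373508127))) (b (l 140018647487791135) (l 140559057554997279))) (c (b (b (c (l 142253199129034783) (l 141752302770536479)) (c (l 142592261091164191) (l 142080094736285727))) (c (b (l 142888579530293279) (l 142910501048336415)) (b (l 142423760947003423) (l 142784332066160671)))) (b (c (l 141406575062990879) (l 140897501042901023)) (c (b (l 141898537846423583) (l 142246808262770719)) (l 141537966772142111)))))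 (l 22))) (b (c (a (l 139263695180120095) (l 140251056724164639)) (l 138351306523164703)) (a (c (b (l 140023870175264799) (l 140593211190001695)) (l 139287884448235551)) (a (c (b (l 140131210017734687) (l 140736216490180639)) (l 139376601308151839)) (l 22))))))), by decide +kernel⟩

def k20_pm_213_t : ∃ t, chk3 f_pm_213_t t 30 58 2 = true :=
  ⟨(a (b (a (l 16528896) (l 141679322645479455)) (a (l 16588128) (l 595953050326405343044127))) (a (b (l 141749691407745055) (l 597031608557380000588319)) (b (l 594657742501408147563039) (l 599204577601369512763423)))), by decide +kernel⟩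

def k21_pm_213_t : ∃ t, chk3 f_pm_213_t t 62 58 2 = true :=
  ⟨(a (b (b (a (l 16591232) (b (l 16548536) (l 16571720))) (c (l 16639760) (l 16604272))) (c (b (l 16691432) (l 16701344)) (a (l 598037244374545397588511) (b (l 16618792) (l 16673064))))) (a (b (b (c (l 16613120) (l 16533008)) (c (l 16666688) (b (l 16570096) (l 16596096)))) (b (c (b (l 16697384) (l 16699872)) (b (l 16623168) (l 16651368))) (c (c (l 16705248) (l 16701896)) (a (l 16689920) (l 16695496))))) (b (b (c (l 16630424) (l 16546504)) (c (l 16687456) (l 16621184))) (b (c (l 16692456) (l 16679616)) (c (l 16686928) (l 16680968)))))), by decide +kernel⟩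

def k22_pm_213_t : ∃ t, chk3 f_pm_213_t t 63 58 2 = true :=
  ⟨(a (c (b (b (a (l 142825288878784543) (l 143050620073967647)) (a (l 143164213401174047) (l 143090958416920607))) (a (b (l 600106450873103393103903) (l 600641406486837647663199)) (b (a (l 143147514569850975) (l 143113704581791839)) (c (l 143182355353993311) (l 600041310762394650632287))))) (b (a (b (l 141835522118123551) (l 142462793620340767)) (b (l 142046697217425439) (c (l 142998255839133727) (l 142458051933634591)))) (a (b (l 600067827934391893188639) (l 600603648241728504209439)) (b (c (l 143088759407706143) (l 143060928015073311)) (c (l 599975882440207611699295) (l 599909877657199549849631)))))) (a (a (b (c (b (l 142998324555055135) (l 143040243445891103)) (b (l 142232583372423199) (l 142959154450251807))) (b (c (l 143081681300340831) (l 143035639243079711)) (c (l 143122500679467103) (l 143078176598556767)))) (b (c (b (c (l 142976128160956447) (l 142954893838942239)) (c (l 143018734246461535) (l 142998393277726879))) (b (b (l 142192863464357919) (l 142554121821224991))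 (c (l 142977708711591967) (l 142843980586188831)))) (b (c (c (l 143061065454010463) (l 143041549119094879)) (c (l 143021757906255967) (l 143001623096016927))) (c (c (l 143103190503096415) (l 143084430082523231)) (c (l 143065394784010335) (l 143046015888113759)))))) (a (b (c (b (c (b (l 142932353846886559) (l 142954206645436575)) (b (l 142914349340606495) (l 142936683175542815))) (b (c (l 142976059443953759) (l 142958948290969759)) (c (l 142997980961964127) (l 142981282125889631)))) (b (c (b (l 142612395904516127) (l 142918678669295647)) (b (l 142060647124107295) (l 142431251374342175))) (c (b (l 142941424821125151) (l 142964102253461663)) (b (l 142820890837172255) (l 142946510064173087))))) (c (b (b (c (l 143019833760464991) (l 143003478521823327)) (c (l 143041755278458975) (l 143025743637250143))) (b (c (l 143063676796420319) (l 143048008752644191)) (c (l 143085667033874655) (l 143070205148577887)))) (b (b (c (l 142986779685798047) (l 142969599813419039)) (c (l 143009388398641247) (l 142992552123695263))) (b (c (l 143031928392007775)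 (l 143015435714494559)) (c (l 143054468385357919) (l 143038250585800799)))))) (l 22)))), by decide +kernel⟩

def k23_pm_213_t : ∃ t, chk3 f_pm_213_t t 15 58 3 = true :=
  ⟨(a (a (b (l 140532737956921375) (l 595642913206639425430047)) (b (a (l 140409661362831391) (l 587925832329265202881055)) (a (l 590683621335262910390815) (a (l 591469625602089845613087) (l 592104020700956627640863))))) (a (b (b (a (c (l 16444296) (l 16372368)) (c (l 589901651866610589721119) (l 586507450038474537099807))) (c (a (l 16486136) (a (l 16521400) (l 16513384))) (a (l 16411184) (l 588830875582700705784351)))) (a (b (c (l 16573232) (l 16453136)) (a (l 593990200593449083101727) (b (l 16533000) (l 16558424)))) (a (b (c (c (l 16572264) (l 16529408)) (l 16465688)) (c (b (l 16591408) (l 16619944)) (a (l 16512920) (l 16520128)))) (b (c (l 16609632) (l 16477776)) (c (l 16647888) (l 16532624)))))) (a (b (c (b (a (l 140847885576912927) (l 141013774467350559)) (a (l 592870713740526577492511) (l 141647505751064607))) (a (l 587479363249557075141151) (b (l 139980302027030559)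 (l 140566341834375199)))) (c (a (b (l 595867445601429336973855) (l 599131367083971613597727)) (b (a (l 596356860980039851909151) (l 142420943455748127)) (c (l 599843872874191487967263) (l 598827572309220396163103)))) (a (b (l 591573676612299713782303) (l 594615660654284287943199)) (b (l 591872283497772254437919) (b (l 594299183792529059684895) (l 596014443135460394689055)))))) (a (b (c (b (a (l 141163789112541215) (l 141277588715601951)) (a (l 141839095622680607) (c (l 142270241612529695) (l 141695403041488927)))) (b (l 140134577279565855) (c (l 141056930266988575) (l 140487383140433951)))) (c (b (a (l 142584358422528031) (c (l 142981144688377887) (l 142460663319871519))) (a (c (l 143044366620934175) (l 143021551750758431)) (c (l 143026293394817055) (l 143006296023597087)))) (b (a (l 141405681807097887) (c (l 141855382058188831) (l 141248863803129887))) (a (b (l 141970762083434527) (l 142372702377492511)) (c (l 142671907032367135) (l 142033296861478943)))))) (a (b (c (b (c (b (l 141507455234785311) (l 141864590422048799))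 (l 141122488656281631)) (c (b (l 142240142475378719) (l 142635348259684383)) (b (l 141657950918770719) (l 142038382055718943)))) (b (l 140277651255279647) (c (l 141254773718646815) (l 140662136800378911)))) (c (b (c (b (l 142951938904686623) (l 142975303531872287)) (b (l 142439085399048223) (l 142861297899569183))) (c (b (l 142998530720104607) (l 143021689188859999)) (b (l 142981213408854047) (l 143004715475042463)))) (b (c (b (l 141825145438568479) (l 142231277664370719)) (l 141402039694032927)) (c (b (l 142659674961756191) (l 142987329444347935)) (b (l 142011031702323231) (l 142445613796573215)))))) (l 22)))))), by decide +kernel⟩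

def k24_pm_213_t : ∃ t, chk3 f_pm_213_t t 30 59 2 = true :=
  ⟨(b (a (a (l 16695592) (l 599854825703252037443615)) (a (l 601455369275454717648927) (a (l 601442687424364798386207) (l 601586514319942041526303)))) (a (b (l 602107923036109508321311) (l 601838716111074453577759)) (a (l 601331718765417945079839) (b (l 603227698161808139182111) (l 603049571810168390869023))))), by decide +kernel⟩

def k25_pm_213_t : ∃ t, chk3 f_pm_213_t t 62 59 2 = true :=
  ⟨(b (c (b (a (l 16705792) (a (a (l 16709896) (l 16707016)) (l 16691848))) (a (l 16720648) (a (b (l 16711992) (l 16714336)) (l 16696728)))) (b (a (a (l 16707552) (l 16706816)) (a (b (l 16700544) (l 16703016)) (l 16696456))) (a (l 16692896) (a (b (l 16705464) (l 16707888)) (b (l 16700168) (l 16702648)))))) (a (b (c (l 16703976) (l 16697328)) (c (l 16718712) (l 604347041196135804309535))) (b (b (a (a (l 16714656) (l 16701800)) (c (l 16710832) (l 16705120))) (a (b (l 16715240) (l 16716400)) (c (l 16713256) (l 16707592)))) (a (b (b (l 16717552) (l 16718696)) (b (l 16719824) (l 16720952)))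 (c (c (l 16718272) (l 16715504)) (a (l 16712640) (l 16709968))))))), by decide +kernel⟩

def k26_pm_213_t : ∃ t, chk3 f_pm_213_t t 63 59 2 = true :=
  ⟨(a (b (b (a (c (l 601185873701404382158943) (c (l 16692568) (l 16690024))) (c (c (l 600584336854836164289631) (l 600523520219698345009247)) (c (l 600462703584491806236767) (l 600401598718840396243039)))) (a (c (c (l 16702440) (l 16699976)) (c (l 16697496) (l 16695000))) (c (c (l 601067122770761858180319) (l 601011782513664274719967)) (c (l 600956442256497971766367) (l 600900525538579365339231))))) (b (a (c (c (l 16707256) (l 16704840)) (c (l 602295993839440224998431) (l 602280141168751875837983))) (a (c (l 601729909380678261806111) (l 601646899032346560107551)) (c (l 601339500486052115932383) (l 601224496520544000910559)))) (a (a (c (l 603143967606078581298207) (l 603127250244261771842591)) (c (l 602701245748309546062879) (l 602655417118501414556703))) (a (c (l 602261406194302028125215) (l 602187619218007181399071)) (c (l 601824448944056027485215) (l 601724433003531370435615))))))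 (a (a (b (b (c (l 143162839022207071) (c (l 143130747020968031) (l 143109169101504607))) (c (l 600518332081792430597343) (c (l 600394969449738289013983) (l 600311670850139719722079)))) (b (c (l 600952118836795990451487) (c (l 600842879494066636088543) (l 600769380727875700401375))) (c (l 600635353691338414875935) (c (l 601296987355698384393247) (l 601234153133697307776031))))) (b (b (c (c (l 143145109393719519) (l 143126967448518879)) (c (l 143108550625411167) (l 143089790204887135))) (c (c (l 143186822125895967) (l 143169161217130719)) (c (l 143151225430458591) (l 143133083485323359)))) (b (b (c (l 600467891772631672431903) (l 600286594830847867299039)) (c (l 600664176679475555542303) (l 600495561874654742684895))) (b (c (l 600860461586250719176031) (l 600705105379007763064095)) (c (l 601057322953640747263263) (l 600915513574351799624991)))))) (a (b (c (b (b (c (l 143107657271312607) (l 143092470263972063)) (c (l 143129716228227359) (l 143114666659889375))) (b (c (l 143151775185125663) (l 143136931775283423)) (c (l 143173902861517087)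 (l 143159196890661151)))) (b (b (c (l 143076939659247711) (l 143060996737646687)) (c (l 143099342213644511) (l 143083674169999455))) (b (c (l 143121813487501535) (l 143106351602352351)) (c (l 143144216041898207) (l 143128891595751647))))) (b (c (b (c (l 143196099257368863) (l 143181462006055199)) (c (l 143218364372713823) (l 143203727121449247))) (b (c (l 143166549876818207) (l 143151362869674207)) (c (l 143188883711738143) (l 143173834143596831)))) (b (c (c (l 143240629488042271) (l 143225992236826911)) (c (l 143211217546658079) (l 143196236698042655))) (c (c (l 600657835644254292305183) (l 600577419354739433039135)) (b (l 600407939865662108411167) (l 600502479440172427601183)))))) (l 22)))), by decide +kernel⟩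

def k27_pm_213_t : ∃ t, chk3 f_pm_213_t t 30 59 3 = true :=
  ⟨(a (b (l 596570150985464601338399) (a (l 142462656114819103) (l 597042561394343312138783))) (a (b (l 594513050925903557468703) (l 598786355411472741146655)) (b (a (l 595688166298116977467935) (l 596624915135921434878495)) (b (l 599784497267033177989151) (l 602406817820042903871519))))), by decide +kernel⟩

def k28_pm_213_t : ∃ t, chk3 f_pm_213_t t 62 59 3 = true :=
  ⟨(a (b (c (a (l 599628564500494175068191) (b (l 16642600) (l 16702056))) (b (l 16568560) (l 16684640))) (b (a (l 601806290430358445658143) (b (l 16702216) (l 16707096))) (a (l 603047986890820023144479) (b (l 16709432) (l 16711752))))) (c (b (b (a (b (l 16649712) (l 16680784)) (l 16690488)) (a (b (l 16698824) (l 16701320)) (b (l 16694272) (l 16696792)))) (c (b (a (l 16706672) (l 16702040)) (a (l 16711488) (l 16707040))) (b (a (l 16703416) (l 16699120)) (a (l 16708320) (l 16704168))))) (b (b (a (a (l 16567128) (l 16576512)) (l 16655536)) (b (a (l 16616448) (l 16641360)) (a (l 16647952) (l 16675800))))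 (c (b (a (l 16700136) (l 16696176)) (a (l 16705120) (l 16701272))) (b (a (l 16672440) (l 16693208)) (a (l 16701896) (l 16698352))))))), by decide +kernel⟩

def k29_pm_213_t : ∃ t, chk3 f_pm_213_t t 126 59 3 = true :=
  ⟨(c (b (b (a (c (l 16687464) (l 16684888)) (c (l 600340205622812834521119) (l 600278524296271682101279))) (a (c (l 16687240) (l 16684712)) (c (l 600844608820660748165215) (l 600788403872297270517855)))) (b (b (a (l 16694976) (l 601201871331568303738911)) (a (l 16692240) (l 601464160973866366554143))) (b (a (l 602704128052071043878943) (l 601730485841430553334815)) (a (l 603012246324177228861471) (l 602000845934260864078879))))) (b (a (b (c (l 16644048) (l 16612728)) (c (l 601653240100621877071903) (l 600329686213333165494303))) (b (a (l 598524930217723405869087) (l 598982063783828371415071)) (b (l 600571366351020118876191) (l 600833079553250440863775)))) (a (b (b (l 16689944) (l 602372951349872711733279)) (b (l 602674440323327396712479) (c (l 16698832) (l 16696368)))) (b (b (l 601097820165777527214111) (l 601366162645974776074271))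 (b (l 601638540351438138167327) (c (l 601936858790755177861151) (l 601893912464708568649759))))))), by decide +kernel⟩

def k30_pm_213_t : ∃ t, chk3 f_pm_213_t t 127 59 3 = true :=
  ⟨(a (b (b (a (c (c (l 143087385023594591) (l 143065394787237919)) (c (l 599578412665938640347167) (l 598124866525512506138655))) (c (c (l 143070823625932895) (l 143051582169055327)) (c (l 143031997114777631) (l 142906721497350175)))) (b (a (c (l 600067251448969301319775) (l 599892295567558092890143)) (c (l 143094394412417119) (l 143056323815637023))) (c (a (l 600301870996116240212063) (l 143116247211130975)) (c (l 599953400434790052061279) (l 599860878463910542401567))))) (b (b (c (a (l 600537931694937779232863) (l 600102127354170479043679)) (c (l 600190325825702118940767) (l 600103568462757960425567))) (c (a (l 600775721775741350601823) (l 600324064765316498416863)) (c (l 600428980598664937676895) (l 600348276073894837706847)))) (b (a (c (l 601015962738950454154271) (l 600881647383663749369887)) (c (l 600546866867384814511327) (c (l 600426674773797669577823)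 (l 600345682020094532526175)))) (c (a (l 601258652715670200554527) (l 600771398351572601906399)) (a (l 601135578345053412642847) (c (l 600661870782246667773151) (l 600588372018529633707103))))))) (a (b (c (b (b (c (l 143044710218645599) (l 143028080102260895)) (c (l 143067662528954463) (l 143051307290542175))) (b (c (l 143090546119802975) (l 143074397039853663)) (c (l 143113292271681759) (l 143097349350211679)))) (b (c (b (l 143010968949538847) (l 143034539735236767)) (b (l 142904934778109983) (l 143017428582547487))) (b (c (l 143057904362520671) (l 143041136807264415)) (c (l 143081131550834783) (l 143064638873534559))))) (b (c (b (c (l 143135969704083679) (l 143120232941092959)) (c (l 143158509697532127) (l 143142979093037279))) (b (c (l 143104221300195423) (a (l 143088690696208479) (l 143087316305543263))) (c (l 143127173610618975) (a (l 143111643006664799) (l 143110680932876383))))) (c (b (c (l 143180980971503903) (l 143165587806011615)) (c (l 600332135259691780662559) (l 600248836665659490002207))) (b (c (l 143149919762612447)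 (a (l 143134320439230559) (l 143133908121256031))) (c (a (l 600288612442587578311903) (l 143172184877596895)) (a (l 600206754999542692898015) (l 143156997870682335))))))) (l 22))), by decide +kernel⟩

def k31_pm_213_t : ∃ t, chk3 f_pm_213_t t 30 30 1 = true :=
  ⟨(a (b (b (b (c (l 602104176298505302712351) (l 599195931050930997665823)) (c (c (l 603321084980565266735135) (l 602469364185158238363679)) (c (l 600718364670308847001631) (l 599356475458752046195231)))) (c (c (l 602778347049093253455967) (l 602054600570521843769375)) (a (l 143858486394961951) (l 600133545186382023385119)))) (a (c (b (l 601067988141388625649759) (l 143741388446515423)) (b (l 143878758669008927) (b (l 16782616) (l 16765712)))) (b (c (l 601091622912592444547167) (l 143858348972818463)) (c (l 143858623865880799) (b (l 16778040) (l 16761864)))))) (b (b (b (c (a (l 16749232) (l 603633382784784243363871)) (a (l 16723496) (l 602256938200846889492511))) (c (a (l 603007201991122332803167) (b (l 16742392) (l 604243854721473579274271))) (a (l 601133704462641966866463)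 (a (l 601688259749651161374751) (l 602052582852473019621407))))) (c (a (l 602113111462912142336095) (a (l 602866257317599095710815) (l 602852998642643100312799))) (a (l 600847779898507008565279) (a (l 602126369904496754401311) (l 602471093351567225479199))))) (b (c (a (l 601821422286031461606623) (a (l 602529027951774205043999) (l 602485505107938125096223))) (a (l 600279101572930459279455) (a (l 601485634006666353598559) (l 601783952378294685509215)))) (a (c (l 143830517591916831) (l 143898893478051935)) (c (b (l 144073028656972063) (l 143966513475174687)) (b (l 144111305409151199) (l 144022176217661727))))))), by decide +kernel⟩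

def k32_pm_213_t : ∃ t, chk3 f_pm_213_t t 30 31 1 = true :=
  ⟨(b (b (a (b (a (c (l 16759472) (l 143802892396740703)) (c (l 143863709109797151) (l 143737196570542303))) (c (a (l 16778656) (l 16755792)) (a (l 16766888) (l 16763944)))) (b (a (c (l 143951257718407455) (l 143858692598890783)) (c (l 144011318537158879) (l 143993863804780767))) (a (c (l 16754040) (l 16769184)) (c (l 16763152) (l 144103402649370847))))) (a (b (c (a (l 16755928) (l 16754216)) (a (l 16763032) (l 16760384))) (c (a (l 16754936) (l 16753440)) (a (l 16760176) (l 16768376)))) (b (a (c (l 16752656) (l 16768600)) (c (l 143934215302824159) (l 144057979091304671))) (c (a (l 16767920) (b (l 16772288) (l 16772344))) (c (a (l 16776152) (l 16770016)) (a (l 16757240) (l 143993863829192927))))))) (b (a (b (b (a (a (b (l 16778032) (l 16767328)) (l 16777280)) (l 16765688)) (a (a (a (l 16777720) (l 16767352)) (a (a (l 16766888) (l 16766512)) (l 16766128))) (l 16765672))) (b (a (b (a (l 16777392) (l 16756336)) (l 16756184)) (a (a (b (l 16755584) (l 16755984)) (b (l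 16776440) (l 16766016))) (l 16776088))) (b (a (l 16777136) (a (l 16755840) (a (l 16771328) (l 16755136)))) (a (l 16777152) (a (l 16776816) (a (l 16776640) (l 16771480))))))) (b (b (c (a (l 16773416) (l 16772584)) (a (l 16776536) (l 16775872))) (a (c (l 16773800) (l 16776400)) (c (l 16762520) (l 16770576)))) (b (a (c (l 16774352) (l 16776512)) (a (l 16764408) (l 16769392))) (a (b (l 16765344) (a (a (c (l 16764896) (l 16766528)) (l 16776208)) (l 16775952))) (a (l 16770208) (a (l 16775248) (l 16775112))))))) (b (b (a (a (b (l 16771968) (a (l 16777280) (l 14))) (b (a (l 16776936) (l 16755776)) (l 14))) (b (b (a (a (a (l 16776720) (l 16765832)) (l 16776224)) (l 16770552)) (l 14)) (l 14))) (l 14)) (l 14)))), by decide +kernel⟩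

def k33_pm_213_t : ∃ t, chk3 f_pm_213_t t 62 120 1 = true :=
  ⟨(a (b (a (c (l 603594759914379899654175) (l 603508579031910467391519)) (c (l 603561613421122400735263) (b (l 16714048) (l 16716320)))) (b (c (l 604047281604938046018591) (a (l 16722224) (l 16718576))) (c (a (l 604238090113950531376159) (l 604980283332541180449823)) (a (l 603994247215726156877855) (l 604352805803658852257823))))) (a (b (b (b (c (l 16722072) (l 16699232)) (c (l 16723184) (l 16710920))) (b (c (l 16724304) (l 16712120)) (c (l 16725416) (l 16713320)))) (c (b (b (l 16726520) (l 16727632)) (c (l 605021212045954721027103) (l 604898137675337907115039))) (b (b (l 16714512) (l 16715696)) (b (b (l 16716576) (l 16717352)) (l 16719352))))) (b (c (b (c (l 16720448) (l 16714936)) (c (l 16722816) (c (l 16718736) (l 16715984)))) (b (c (l 16709328) (a (l 16704520) (l 16702736))) (c (a (l 16712936) (l 16710736)) (a (l 16707064) (l 16705296))))) (b (c (c (l 604355399877044230558751) (c (l 16700168) (l 16718416))) (c (c (l 16715672) (l 16712896)) (c (l 16710096)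 (l 16707272)))) (c (b (c (l 604633830420406809285663) (c (l 16712504) (l 16720296))) (c (l 16728672) (l 16723616))) (b (c (a (l 16717344) (l 16715184)) (a (l 16711624) (l 16709856))) (c (l 16718480) (a (l 16714256) (l 16712448))))))))), by decide +kernel⟩

def k34_pm_213_t : ∃ t, chk3 f_pm_213_t t 126 120 1 = true :=
  ⟨(a (b (b (c (c (l 16703976) (l 603358987466687752983583)) (c (l 603327858586063358350367) (c (l 16701376) (l 16698936)))) (c (c (l 603717257824244345197599) (l 602928659515093252379679)) (a (c (l 16687592) (l 16703552)) (c (l 16695976) (l 16701880))))) (c (b (c (l 603299035548448216372255) (l 603264447903310001574943)) (c (l 603518378864699674498079) (c (l 603500796811754413347871) (l 603488979366332188627999)))) (b (a (c (l 16690088) (l 16706104)) (c (l 16698480) (l 16704432))) (b (c (l 603472550234891531899935) (a (l 16708112) (l 16695952))) (c (l 16714192) (l 16709768)))))) (b (b (c (c (l 602433191498488452830239) (l 602355081066551331001375)) (c (l 601520654127592117425183) (c (l 602217018716374646887455)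 (l 602177242924465706536991)))) (c (c (l 601946658623544368337951) (l 601874601029506432537631)) (c (l 601801678744340041503775) (c (l 602502366788764846707743) (l 602465761530993575253023))))) (c (b (c (l 602222783323897713103903) (l 602156202107006659941407)) (b (c (l 602418779979680880858143) (l 602357963370312862045215)) (l 602343263621129118864415))) (c (b (l 602089044429363292509215) (c (l 602304640750724791702559) (l 602279852938375740707871))) (b (c (l 602794055929430384202783) (l 602760332975420629914655)) (a (l 603297306166191276364831) (l 602702686900190291842079))))))), by decide +kernel⟩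

def k35_pm_213_t : ∃ t, chk3 f_pm_213_t t 254 120 1 = true :=
  ⟨(c (b (a (c (l 601271911312973195105311) (a (l 601861342432203445441567) (l 601610293774575302251551))) (c (b (l 601254760781645639836959) (l 601453351530948980827423)) (b (l 601127074690994284619039) (l 601340365189756240913695)))) (b (c (a (l 602180989919355706659871) (l 601653816561374220653599)) (a (l 602094232576134034904095) (l 601555530003106481214495))) (b (c (a (l 602342398930000669004831) (l 601792167141927046059039)) (a (l 602265441419568155546655) (l 601706562720209982034975))) (c (l 601244961039153893745951) (l 601188467850243780502815))))) (b (b (c (a (l 601504224996151464088607) (l 600997659217742421681439)) (a (l 601392679840580744746015) (c (l 600899372633430001755359) (l 600833079629391638455519)))) (c (a (l 601753544271522699875359) (l 601225649465894273819935)) (a (l 601653528330998049100831) (c (l 601138748879191090664479) (l 601080238112832290198559))))) (b (c (a (l 602006898772160059626527) (l 601456378753710286591007)) (a (l 601918412046681477436447)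 (c (l 601381150625534685451295) (l 601330710309708132963359)))) (c (b (a (l 602187907448383338583071) (l 601620093607364462842911)) (l 601131831350163469161503)) (b (a (l 602109508786070066418719) (l 601533048033766634787871)) (l 601075626426813868856351)))))), by decide +kernel⟩

def k36_pm_213_t : ∃ t, chk3 f_pm_213_t t 510 120 1 = true :=
  ⟨(b (c (c (b (c (l 600825009284824839415071) (l 600753239906457092597023)) (c (l 600991318234198211912991) (l 600928483997422448747807))) (b (c (l 600680894067199603418399) (l 600607683536676220118303)) (c (l 600865073299756943189279) (l 600801086141270414730527)))) (c (b (c (l 600534184775639246152991) (l 600460109553712529794335)) (c (l 600736810752270295590175) (l 600672247132825305261343))) (b (c (a (l 600513432158113590191327) (l 143194931029606687)) (a (l 600440221626559414609119) (l 143179881461694687))) (c (a (l 600739404795006769947935) (l 600475674001171549758751)) (a (l 600675417635558168683743) (l 600408228078171200824607)))))) (c (b (c (c (l 601157338953264152192287) (l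 601103439858011653186847)) (c (l 601049540762621715211551) (l 600995065206479473829151))) (b (c (b (l 601236602313096786093343) (l 600877755503240401986847)) (b (l 601140045106986826982687) (l 600788404056396796798239))) (c (l 601173479895285462164767) (l 601106610417438093387039)))) (b (c (c (l 600562431396757467129119) (l 600507667610101635048735)) (a (c (l 600967106813881982100767) (l 600912631257052545787167)) (c (l 600693576188082237416735) (l 600636794788999501882655)))) (c (b (c (l 600705105450888351819039) (l 600658412114696048239903)) (l 600662159146831982191903)) (b (c (l 600611142317751441237279) (l 600563872520806834218271)) (c (l 600989877061632889283871) (l 600956730553188435780895))))))), by decide +kernel⟩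

def k37_pm_213_t : ∃ t, chk3 f_pm_213_t t 511 120 1 = true :=
  ⟨(b (l 22) (b (b (l 22) (c (b (l 22) (c (a (l 143326597569954079) (c (l 143330995615088927) (l 22))) (l 22))) (l 22))) (b (c (a (c (c (l 143344121039520031) (l 143330308422582559)) (c (l 143316495805645087) (l 143302545749737759))) (c (c (b (l 143337455247130911) (a (l 143347007256363295) (c (l 143349481156772127) (l 143343090244518175)))) (b (l 22) (b (b (l 22) (l 143319656901853471)) (l 143337592685986079)))) (b (l 22) (b (c (c (l 143320000497615135) (l 143313472146374943)) (c (l 143306943795118367) (l 143300415443878175))) (c (l 143324467264045343) (a (l 143311066964656415) (l 143311616719552799))))))) (b (l 22) (a (c (c (l 143292856302125343) (l 143278837526774047)) (c (l 143264818751406367) (l 143250662537068831))) (b (b (l 22) (c (c (c (l 143294986604429599) (l 143288458253189407)) (c (l 143281861182456095) (l 143275195392262431))) (a (c (l 143264475152744735) (l 143250937413861663)) (c (c (l 143269422954938655) (l 143262894603714847)) (c (l 143256366252491039)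 (l 143249769181790495)))))) (c (c (c (l 143301446236045599) (l 143294849165328671)) (c (l 143288183375151391) (l 143281586304434463))) (c (c (l 143274920514240799) (l 143268254724063519)) (a (l 143257259606622495) (c (l 143262619725758751) (l 143256091374551327))))))))) (a (c (c (l 143367966700323103) (l 143339585552482591)) (c (c (l 143318351231222047) (l 143304195017031967)) (c (l 143290038802841887) (l 143275882588651807)))) (b (c (c (c (l 143364324565680415) (l 143351061704851743)) (a (l 143330995615400223) (c (l 143337867562991903) (l 143324742141149471)))) (c (c (c (l 143314434218737951) (l 143307768428577055)) (c (l 143301102638432543) (l 143294436848271647))) (c (c (l 143287771058110751) (l 143281036548489503)) (a (l 143270041431097631) (c (l 143275332830724383) (l 143268735760072991)))))) (a (c (c (l 143375938158772511) (l 143348450364506399)) (c (l 143298560020824351) (c (l 143300621602439455) (l 143286946424783135)))) (c (c (c (a (l 143381573155848479) (l 143379992607277343)) (a (l 143368241575641375) (l 143367004624503071)))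 (c (a (l 143354841275957535) (l 143342677928067359)) (c (l 143344327194493215) (l 143337730123890975)))) (c (c (c (l 143331133053272351) (l 143324535982653727)) (c (l 143317938912051487) (l 143311410560909599))) (c (c (l 143304813490307359) (l 143298216419688735)) (c (l 143291619349086495) (l 143273821003759903))))))))))), by decide +kernel⟩

def k38_pm_213_t : ∃ t, chk3 f_pm_213_t t 62 242 1 = true :=
  ⟨(c (a (l 603855896635173324395551) (b (a (l 604713093773848521446431) (a (b (l 16729568) (l 16731552)) (l 16727928))) (a (l 605183485747728122500127) (a (b (l 16723016) (l 16714448)) (l 16732000))))) (c (a (l 604099451303021548490783) (a (l 604469827336376466592799) (a (b (l 16723520) (l 16728560)) (l 16723912)))) (a (l 603745216170731041378335) (a (a (l 16724400) (l 16723000)) (a (b (l 16718728) (l 16724544)) (l 16719784)))))), by decide +kernel⟩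

def k39_pm_213_t : ∃ t, chk3 f_pm_213_t t 63 242 1 = true :=
  ⟨(a (c (a (c (l 603210548822969657660447) (l 603271653662713813390367)) (c (b (l 602191077982521037739039) (l 601958043132895922709791)) (l 602111669849099021149471))) (c (a (c (l 603319499905154992100383) (l 603352358168036283569183)) (c (l 602141502357822936814623) (l 602162543175282008806431))) (a (a (c (l 16718728) (l 16716824)) (c (l 16716704) (l 16714976))) (c (l 602184160453493384188959) (l 602206642422833214706719))))) (b (a (c (a (l 601724288193383250650399) (c (l 601549620595605804000543) (l 601534920812337201620255))) (c (l 601050693748241608025375) (l 601043199724239348311327))) (c (a (c (a (l 601141198147513583346975) (l 143420468388512031)) (a (l 601121021989022244300063) (l 143390163095503135))) (a (c (b (l 143401501808673055) (l 143427134177181983)) (c (l 143392980592836895) (l 143379030537355551))) (c (c (a (l 143414627229597983) (l 143387001998737695)) (a (l 143401639246905631) (l 143374838649520415))) (b (a (l 143347419575370015) (c (l 143373189378949407)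 (l 143360544993657119))) (c (l 143398890467721503) (l 143386864555147551)))))) (a (c (a (l 601102863443645003556127) (l 143360270119354655)) (c (l 600585201664230866969887) (l 600574537125263686231327))) (a (c (c (l 143365149201334559) (l 143351405304283423)) (b (l 143316083482919199) (l 143345770306994463))) (c (c (a (l 143362881457307935) (c (l 143363912248967455) (l 143357864931590431))) (a (l 143350030913585439) (a (l 143349068840321311) (c (l 143351474019320095) (l 143345495424106783))))) (c (b (a (l 143323299033235743) (c (l 143325910373073183) (l 143319656899920159))) (c (l 143353810485559583) (l 143347831890362655))) (a (l 143324467265093919) (c (b (l 143313403425407263) (l 143341784575394079)) (b (a (l 143307012514758943) (l 143307218671583519)) (l 143336012138660127)))))))))) (c (a (c (a (l 601875032768415144322335) (l 600640253823443469002015)) (a (l 601929220042298022192415) (l 600675417895661430416671))) (a (c (l 143476474770719007) (l 143447612587295007)) (c (a (l 143460738006892831) (c (l 143456271236481311)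 (l 143445550995570975))) (a (l 143436342589915423) (a (l 143431188627652895) (c (l 143433112767217951) (l 143422873564037407))))))) (a (c (a (l 601987442542477816128799) (l 600714040733217846076703)) (a (l 602049412038715813389599) (l 600756410566695026124063))) (a (c (l 143419368879161631) (a (l 601146674492431028643103) (l 143390369255997727))) (a (c (l 143412222050877727) (l 143388513828700447)) (b (c (c (l 143400677175525663) (l 143389613333135647)) (a (l 143373326820933919) (c (l 143378343337345311) (c (l 143370371882500383) (l 143365011762708767))))) (c (c (l 143426584422596895) (l 143416551377895711)) (c (l 143406518333194527) (l 143396554007986463)))))))))), by decide +kernel⟩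

def k40_pm_213_t : ∃ t, chk3 f_pm_213_t t 31 243 1 = true :=
  ⟨(c (a (a (l 603295000323182106350623) (a (a (l 603999435362496924570655) (l 603976665162780914783263)) (a (c (l 603879243295641657644063) (l 604034311238011262080031)) (c (l 603583807160086151304223) (c (l 16737296) (l 16735944)))))) (c (a (a (a (l 16715344) (l 602456970037572174882079)) (a (l 601937578882566915220767) (l 601479292564969356420383))) (a (a (l 601085569849224599577887) (l 143565947545649375)) (a (l 143543476271726815) (a (l 143528083105333471) (c (b (l 143500320431079647) (l 143544232184053983)) (b (l 143491524337189087) (l 143537428955332831))))))) (a (a (b (l 16719888) (l 602839451748649644320031)) (c (l 601834968829074481505567) (l 601908179326543791990047))) (a (a (l 601187026909331844982047) (l 143538322313412895)) (a (l 143521073720246495) (a (l 143509803722866911) (b (c (l 143482796962775263) (l 143474138307871007)) (l 143482315928846559)))))))) (c (a (a (l 603681084604242820621535) (a (l 604779098529987294057503) (a (b (l 16733432) (l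 16738136)) (c (l 16734592) (l 16733224))))) (a (a (a (l 16731432) (l 602821149584788697994271)) (c (l 601982830976306177893663) (l 602059500239251381593375))) (a (a (l 601293960347960362427679) (l 601630325182223437686047)) (a (l 143499358363566367) (a (l 143491936657309919) (b (c (l 143465548372427039) (l 143457027156476191)) (l 143491593057239263))))))) (a (a (l 603425424237231623217247) (a (l 604804462803088616952863) (a (b (l 16730160) (l 16735600)) (b (l 16728360) (l 16733976))))) (a (a (a (c (l 16729560) (l 16728304)) (l 603014840397562640978975)) (c (l 602137610654489660695839) (l 602217450452534605882655))) (a (a (l 601406370165178871407903) (l 601700653368509526926623)) (a (c (l 143483621601886495) (l 143473313679376671)) (a (l 143452010635723039) (c (b (l 143448505940541727) (l 143504443604058335)) (b (l 143440053444100383) (l 143498052692263199)))))))))), by decide +kernel⟩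

def k41_pm_213_t : ∃ t, chk3 f_pm_213_t t 62 122 1 = true :=
  ⟨(b (c (a (l 603467217630160016418079) (a (l 603382477993648390104351) (a (b (l 16734976) (l 603191093016187093378335)) (b (b (l 16732408) (l 16739568)) (a (l 603211269120527479039263) (l 603135752746170248226079)))))) (c (a (l 604006785057662254376223) (a (l 604319803141915559650591) (a (l 603724751814024325796895) (b (l 16741248) (l 16746000))))) (a (l 603102318124859953865951) (a (l 16734560) (a (a (l 16743696) (l 604040940536662750024735)) (b (l 16739512) (a (l 16724400) (l 16744472)))))))) (c (b (a (l 603770724480405489034527) (a (l 602949844292434470937887) (a (l 16747064) (c (l 16741064) (l 16740608))))) (a (l 602713495334855653827871) (a (l 16756888) (c (l 16749992) (l 604052613683072340436255))))) (a (a (l 603407266029198339384543) (l 602938891422073515615519)) (a (a (l 603187922597017122153759) (l 603402365960452649755935)) (a (c (l 604256680765198493148447) (l 603816552965421644719391)) (c (b (l 16750656) (l 16755208)) (b (l 16744976) (l 16755424)))))))),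 by decide +kernel⟩

def k42_pm_213_t : ∃ t, chk3 f_pm_213_t t 63 122 1 = true :=
  ⟨(a (a (b (c (c (l 602149428351493922546975) (l 602421229562188844655903)) (b (c (l 16737320) (l 16730592)) (c (l 16742136) (l 16741240)))) (c (b (c (l 16726600) (l 16747240)) (c (l 16740760) (l 16751496))) (b (c (l 16746920) (l 16746624)) (c (l 16751776) (b (l 16750720) (l 16753456)))))) (b (c (c (l 602545168602149995751135) (l 602737130004629487477983)) (c (l 602181998274254046143775) (c (l 603093094475333822211359) (l 603199307838299753223199)))) (a (c (l 603063406909249220241119) (b (l 603488834885144233682143) (l 603645920498695923737823))) (c (l 602718971583703237404383) (c (l 603025936914925918627551) (l 603240956765364613539039)))))) (a (b (c (a (l 602120605206951224698591) (l 143644768797327583)) (c (l 601364288660277990876383) (a (l 602461293461191168468191) (l 602019436282112364995807)))) (c (c (l 143752314799177951) (l 143742625353662687)) (c (b (l 602349460166572501788383) (l 602507698696474834249439)) (a (l 602794487895319579600095)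 (l 143720841281601759))))) (c (b (c (a (l 143631986972770527) (b (l 143544988095955167) (l 143634185994993887))) (a (l 143618586674315487) (b (l 143579279125135583) (l 143627520206012639)))) (b (c (l 143642363622555871) (l 143669370377715935)) (c (l 143730324560183519) (l 143707372256493791)))) (b (a (c (l 143606011009630431) (l 143594259978731743)) (b (c (l 143568971203248351) (c (l 143561480780038367) (l 143556670416519391))) (c (l 143621335453434079) (l 143615700456767711)))) (a (c (l 143711220546617567) (c (l 143709296402186463) (l 143708403055001823))) (b (c (l 143673149947756767) (c (l 143671981717504223) (l 143671363242819807))) (c (l 143724071088799967) (c (l 143725995235524831) (l 143727507064979679))))))))), by decide +kernel⟩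

def k43_pm_213_t : ∃ t, chk3 f_pm_213_t t 62 123 1 = true :=
  ⟨(b (a (a (c (l 144007195392213279) (l 144023344473047327)) (c (l 143952219807334687) (l 602736553812158081361183))) (a (c (l 603556569342741871978207) (a (l 603871893391156862133535) (l 603390836858106541057247))) (b (b (c (l 16747296) (l 16759056)) (c (l 16748960) (l 16761352))) (b (c (l 16750608) (l 16763632)) (c (l 16752224) (l 16765880)))))) (c (c (a (l 144034064713482463) (b (l 16764432) (l 16767056))) (a (l 144053031293567199) (a (l 16768248) (b (l 16766104) (l 16769488))))) (a (a (l 144114672672162079) (l 144052069183652063)) (a (c (l 16770544) (l 604175400072214950307039)) (b (b (l 16768104) (l 16770304)) (b (l 16772456) (l 16774576))))))), by decide +kernel⟩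

def k44_pm_213_t : ∃ t, chk3 f_pm_213_t t 63 246 1 = true :=
  ⟨(b (a (c (a (c (l 603605280133237568808671) (a (l 16757192) (l 16754312))) (l 602333319421295088068319)) (a (a (c (l 16758056) (l 16758960)) (l 16754368)) (c (l 603462317797259640350431) (l 602968002700235311408351)))) (c (a (c (l 143815949045792991) (l 143814024902475999)) (c (l 143772518326223071) (l 143776229180227807))) (c (a (l 143813750026715359) (a (l 143788117654438111) (l 143774030157021407))) (a (a (l 603055624704486292973279) (l 143806946798272735)) (a (l 143792515703374047) (c (l 143778909241786591) (l 143782413936410847))))))) (a (a (a (c (c (l 16749440) (l 16761360)) (c (l 16762848) (a (l 16765096) (l 16763880)))) (c (l 16757840) (c (l 16760048) (l 16761600)))) (c (c (l 16747544) (l 603355096149695451424479)) (c (l 603621709249491213690591) (c (l 16756824) (l 16757608))))) (c (a (c (l 143857593056051423) (l 143860822874374367)) (c (l 143813818738966751) (l 143821515323293919))) (c (a (l 143865701962940639) (a (l 143838145442234591) (l 143822683555037407)))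 (a (a (l 603233751135016018880223) (l 143863296779059423)) (a (c (l 143844673794916575) (l 143849415440433375)) (c (l 143830448858317023) (a (l 143839038795759839) (l 143832922759921887))))))))), by decide +kernel⟩

def k45_pm_213_t : ∃ t, chk3 f_pm_213_t t 63 247 1 = true :=
  ⟨(a (a (a (c (b (c (l 16763376) (a (l 16744936) (l 16765056))) (c (l 16766664) (a (l 16769464) (l 16769128)))) (b (c (a (l 16768024) (l 16767168)) (a (l 16770224) (l 16769360))) (c (a (l 16772184) (l 16771856)) (a (l 16774992) (l 16774672))))) (b (c (l 16761784) (c (l 16764872) (l 16767024))) (c (l 16765704) (c (l 16769664) (l 16772408))))) (b (c (c (l 16756400) (l 603502381919256704050911)) (c (a (l 16761816) (l 16758856)) (c (l 16761872) (l 16752432)))) (c (c (l 16759984) (a (l 16763912) (l 16760920))) (c (c (l 16764280) (l 16765560)) (c (l 16766856) (l 16757688)))))) (a (c (c (b (l 143898412432507103) (l 143938132297203935)) (a (l 143941018524090591) (l 143917997493715167))) (b (a (c (l 16755992) (l 603413895177216733963999)) (c (l 143906177738227935)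 (l 143918409811787999))) (c (a (l 16760376) (l 143955106014347487)) (c (a (l 16762200) (l 16759232)) (a (l 16763448) (l 143976683936104671)))))) (c (a (c (l 143884187496333535) (l 143896900606197983)) (c (l 143863709087121631) (c (l 143874223169945823) (l 143881507436429535)))) (c (a (c (l 143907277247594719) (l 143914630235734239)) (b (l 143869825124352223) (c (l 143910850658877663) (l 143919371876155615)))) (b (a (c (l 143896625728454879) (l 143903566397604063)) (c (l 143880476646129887) (c (l 143885905486266591) (l 143889685059813599)))) (a (c (l 143946928394305759) (l 143955930648117471)) (c (l 143928099251912927) (a (l 143941636992549087) (c (l 143930641872830687) (l 143935177359425759)))))))))), by decide +kernel⟩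

def k46_pm_213_t : ∃ t, chk3 f_pm_213_t t 31 124 2 = true :=
  ⟨(b (b (a (a (l 144082718111826143) (a (l 16771160) (a (l 16771112) (l 16771176)))) (a (c (a (a (l 16769712) (l 16768000)) (a (l 16764992) (l 16762040))) (a (a (l 16772928) (l 16771136)) (a (l 16767984) (l 16764888)))) (a (c (l 143976821369635039) (a (l 16761872) (l 143982525088612575))) (c (l 143930710589751391) (a (l 143959710216503519) (l 143938750770462815)))))) (a (a (l 144104089851478239) (a (l 144037912995152095) (b (l 16773256) (l 16774216)))) (a (a (a (c (l 16772256) (l 16775968)) (b (c (l 16770600) (l 16774152)) (c (l 16771896) (l 16775632)))) (b (c (l 16766104) (l 16769384)) (c (l 16762240) (l 16765672)))) (a (c (a (l 144025474768666847) (l 144000323434414175)) (b (l 144026161970397407) (l 144042792083619935))) (a (c (l 143976958806753375) (l 143997849533022303)) (c (l 143955380885667935) (l 143975584416677983))))))) (a (a (l 144096943024652511) (a (l 144035782711886047) (b (l 16773704) (l 16773040)))) (a (a (a (b (l 16774096) (l 16773416)) (a (b (a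 (l 16774304) (l 16774192)) (l 16773672)) (b (l 16773272) (l 16773272)))) (a (c (l 16769568) (l 16772776)) (c (l 144068768048103519) (l 144089383899938911)))) (a (c (b (l 144028704584171615) (l 144039081227239519)) (b (l 144049251716120671) (l 144056810857349215))) (a (c (l 144002453737406559) (l 144020114647597151)) (c (l 143983624595914847) (l 144000323432874079))))))), by decide +kernel⟩

def k47_pm_213_t : ∃ t, chk3 f_pm_213_t t 62 124 3 = true :=
  ⟨(b (b (a (l 144145252805820639) (a (l 16777616) (b (l 16776656) (l 16778688)))) (a (l 144000804493426911) (a (l 144106769926324447) (b (l 16780672) (c (l 16780000) (l 16784000)))))) (a (l 143987129314787551) (a (l 144099348220461279) (b (l 16780984) (l 16779672))))), by decide +kernel⟩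

def k48_pm_213_t : ∃ t, chk3 f_pm_213_t t 63 124 3 = true :=
  ⟨(b (b (c (a (a (a (a (l 16776184) (l 16776248)) (l 16774376)) (a (l 16771072) (l 16767824))) (a (a (l 16764664) (l 144002247583826143)) (c (l 143963489789231199) (a (l 143984380515041503) (l 143963077471158495))))) (a (a (a (a (l 16779600) (l 16779672)) (l 16777712)) (c (l 16761272) (l 16762848))) (a (a (a (l 16768368) (l 16766736)) (a (l 16765120) (l 144017709472727263))) (a (c (l 143994894597603551) (a (l 16757360) (l 144000048559407327))) (c (l 143973247956156639) (a (l 143988984720425183) (c (l 143975859296551135) (l 143981081978011871)))))))) (a (b (a (a (l 16781048) (c (l 16777816) (l 16781592))) (c (l 16772768) (l 16765776))) (a (a (c (l 16780432) (l 16784456)) (a (b (l 16771808) (l 16782352)) (l 16780720))) (c (a (l 16776168) (l 16772760)) (b (l 16767520) (l 16778192))))) (a (b (a (a (l 16770224) (l 16768544)) (c (l 16764576) (l 16767560))) (a (c (l 16769416) (l 16772720)) (c (l 144053924639654111) (a (l 16770072) (l 16767016))))) (c (a (c (l 144014410931028063)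 (l 144025955805921375)) (c (l 143991458619555935) (l 144002316297420895))) (c (a (b (l 16758240) (l 144046434214412383)) (b (l 144005065079586911) (l 144021626476462175))) (b (a (l 16759640) (c (l 144013517577191519) (l 144019221295087839))) (a (l 144058872442618079) (c (l 144030216413036639) (a (l 144042311044071519) (l 144029735376257119)))))))))) (a (a (b (a (l 16781448) (a (a (l 16781672) (l 16776304)) (l 16780496))) (a (l 16780104) (a (l 16780384) (a (l 16775032) (l 16779688))))) (b (c (l 16769280) (a (l 16779720) (l 16776248))) (c (l 16769296) (l 16772448)))) (c (a (a (l 144086222804009055) (l 144061758661394527)) (a (b (l 144035164217114719) (l 144042998238953567)) (b (l 144013036539461727) (l 144022863426519135)))) (a (a (b (l 16772808) (l 16772824)) (c (l 144078045181493343) (l 144089383897956447))) (a (c (l 144053993358164063) (b (l 16765768) (l 144066294147416159))) (c (b (l 144027948669452383) (l 144035370374348895)) (b (c (l 144035645252665439) (l 144040799214633055)) (l 144043891591561311)))))))), by decide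 +kernel⟩

def k49_pm_213_t : ∃ t, chk3 f_pm_213_t t 31 125 1 = true :=
  ⟨(a (b (a (c (l 144083474005229791) (l 143960534872473823)) (c (c (l 143997574667599967) (l 144021489051107423)) (a (l 144079694467006687) (c (l 144207306533060831) (l 144052893874815199))))) (a (c (b (l 16766560) (l 144074265616515295)) (b (l 144120032797278431) (l 144085741755924703))) (c (a (l 144023481923010655) (l 143990840172003423)) (a (l 144065744388735071) (l 144028842030202975))))) (a (b (a (b (a (c (l 16772904) (l 16778944)) (c (a (l 16773136) (l 16771888)) (c (l 16777688) (a (l 16780736) (l 16780776))))) (c (a (l 16772544) (l 16772856)) (c (l 16776712) (l 16779480)))) (b (c (c (l 16769160) (l 16771840)) (c (l 16769352) (l 16772200))) (a (c (a (l 16771312) (l 16771608)) (c (l 16775872) (l 603873046384335905482335))) (c (l 16769256) (c (l 16773400) (l 16775816)))))) (c (a (c (l 144132952048582751) (l 144147314423496799)) (c (a (c (l 144109312542326879) (l 144114603938693215)) (l 144096668162195551)) (a (c (l 144120376376803423) (l 144126561131806815))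 (l 144106632490074207)))) (c (a (l 143983006148296799) (a (c (l 144133158203703391) (l 603546769581833327158879)) (l 144118246085525599))) (a (l 603471541313744879429215) (a (b (l 603787441959251589080671) (l 603680796717257966839391)) (l 144131577668010079)))))) (c (a (b (c (b (l 144049664028852319) (l 144060178111086687)) (b (l 144064576159826015) (l 144072341462384735))) (c (b (l 144070486034972767) (l 144080381642031199)) (b (l 144079969326104671) (l 144087459750953055)))) (b (a (c (l 144030216411643999) (l 144042036165115999)) (c (l 144015647878496351) (l 144026505558769759))) (b (c (l 144044510065492063) (l 144051931771387999)) (c (l 144058185244557407) (a (l 144068905486647391) (l 144058185244704863)))))) (b (c (a (a (l 144093438347886687) (l 144073372255322207)) (a (l 144054817991376991) (b (l 144032896472137823) (l 144042998237380703)))) (a (a (l 144110755660775519) (b (l 16769904) (l 144090414690189407))) (a (c (l 144064988476702815) (l 144072066584690783)) (c (l 144046846527668319) (a (l 144057566770757727) (l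 144048495796994143)))))) (a (a (c (l 144101066211770463) (l 144112611087384671)) (c (l 144085260727648351) (b (l 144093507067461727) (l 144096874322821215)))) (a (c (l 144070967072129119) (b (l 144076395912691807) (l 144081962191781983))) (c (b (l 144053168722247775) (l 144063270487752799)) (b (c (l 144058941160046687) (l 144062995610370143)) (c (l 144067256218796127) (l 144070004998799455)))))))))), by decide +kernel⟩

def k50_pm_213_t : ∃ t, chk3 f_pm_213_t t 62 126 1 = true :=
  ⟨(b (a (c (b (l 144072410180386911) (c (l 16771792) (l 16773256))) (b (c (l 16774728) (l 16776536)) (c (l 16774768) (l 16776328)))) (c (b (l 144008363638833247) (a (l 16772408) (l 16772496))) (b (l 144041211545190495) (a (l 16775376) (l 16775352))))) (c (a (a (b (l 16773176) (l 16773936)) (b (l 16773008) (l 16773736))) (b (a (l 16772928) (l 143998055719026783)) (a (b (l 16773440) (l 16773816)) (c (l 16773144) (l 16773984))))) (a (a (b (l 16775688) (l 16775952)) (b (l 16775496) (l 16775688))) (b (a (l 16775320) (l 144018465408270431)) (a (b (l 16775424)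 (l 16775544)) (c (l 16774848) (l 16775744))))))), by decide +kernel⟩

def k51_pm_213_t : ∃ t, chk3 f_pm_213_t t 63 126 1 = true :=
  ⟨(a (b (b (a (c (l 144143878447710303) (l 143987953961828447)) (a (c (l 144123331324887135) (c (l 144137281383579743) (l 603552822427841423877727))) (c (l 144109175111057503) (c (l 144120513829224543) (l 144129859681189983))))) (a (c (l 143967063234527327) (l 143986648290967647)) (a (c (l 144126904737923167) (l 144141816869699679)) (c (c (l 144111923890274399) (l 144116665536577631)) (c (l 144122575414067295) (l 144129653517385823)))))) (b (a (c (l 143970911525978207) (l 143986235973664863)) (a (c (l 144131508943454303) (l 144142778941816927)) (c (c (l 144118108644671583) (l 144121475900964959)) (c (l 144125736505147487) (l 144040867953442911))))) (a (c (l 144065263357870175) (l 143986854448955487)) (a (c (l 144136525466157151) (l 144054611853017183)) (c (c (l 144124018520965215) (l 144126217545678943)) (c (l 144129103765209183) (l 144042585945555039))))))) (b (a (b (c (c (l 144089590054355039)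 (l 144094606578466911)) (c (l 144100585175351391) (a (l 144114741392162911) (l 144100516456251487)))) (c (c (l 144098042552418399) (l 144101272369709151)) (c (a (l 144110755661103199) (l 144100104138883167)) (a (l 144116321940930655) (l 144104227309289567))))) (a (c (c (l 144080862677942367) (l 144038531481763935)) (c (b (l 144083061703196767) (l 144090620847833183)) (b (l 144087665909973087) (l 144093369628311647)))) (c (b (c (l 144067256217305183) (l 144070004997668959)) (c (l 144079969323876447) (l 144081137555914847))) (b (c (l 144073028655988831) (c (l 144075433838723167) (l 144077083106885727))) (c (l 144082374507446367) (a (l 144086085361090655) (l 144081618593333343))))))) (b (a (a (c (l 144109999745663071) (c (l 144114122916823135) (l 144117971209289823))) (c (l 144102784198279263) (c (l 144105326820933727) (l 144107800723488863)))) (c (a (l 144096599443112031) (c (l 144091445479850079) (l 144091239322009695))) (a (c (l 144097698956197983) (l 144098798468857951)) (c (a (l 144092613712855135) (l 144089658774011999))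 (a (l 144092888591532127) (l 144083611460632671)))))) (c (a (a (a (l 144116321941143647) (l 144113298282020959)) (l 144109243831468127)) (a (l 144059559647920223) (b (l 144098592308117599) (l 144102990356201567)))) (b (a (a (l 144117421453426783) (l 144109656149934175)) (a (l 144102646760669279) (c (l 144097149199728735) (l 144096187127496799)))) (a (a (a (l 144120857428394079) (l 16771984)) (l 144111511576674399)) (a (l 144105326821359711) (c (l 144100860052865119) (a (l 144100791334322271) (l 144098179992961119)))))))))), by decide +kernel⟩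

def k52_pm_213_t : ∃ t, chk3 f_pm_213_t t 31 127 1 = true :=
  ⟨(b (b (b (b (b (a (a (a (l 16775320) (l 16775064)) (a (l 16774848) (l 16774712))) (a (a (l 144072822507815007) (a (l 16774648) (l 144129653523185759))) (a (a (c (l 144117215293636703) (l 144119345599660127)) (c (l 16770536) (l 144112679808319583))) (c (a (l 144108556636389471) (l 144105464258330719)) (a (l 144106976089505887) (c (l 144102990357512287) (l 144101409809809503))))))) (l 14)) (l 14)) (l 14)) (l 14)) (l 14)), by decide +kernel⟩

theorem s53_pm_213_t : ∃ t, chk3 f_pm_213_t t 31 126 1 = true := ex3_a k50_pm_213_t k51_pm_213_t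

theorem s54_pm_213_t : ∃ t, chk3 f_pm_213_t t 31 63 1 = true := ex3_b s53_pm_213_t k52_pm_213_t

theorem s55_pm_213_t : ∃ t, chk3 f_pm_213_t t 31 124 3 = true := ex3_a k47_pm_213_t k48_pm_213_t

theorem s56_pm_213_t : ∃ t, chk3 f_pm_213_t t 31 124 1 = true := ex3_c k46_pm_213_t s55_pm_213_t

theorem s57_pm_213_t : ∃ t, chk3 f_pm_213_t t 31 62 1 = true := ex3_b s56_pm_213_t k49_pm_213_t

theorem s58_pm_213_t : ∃ t, chk3 f_pm_213_t t 31 31 1 = true := ex3_b s57_pm_213_t s54_pm_213_t

theorem s59_pm_213_t : ∃ t, chk3 f_pm_213_t t 63 123 1 = true := ex3_b k44_pm_213_t k45_pm_213_t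

theorem s60_pm_213_t : ∃ t, chk3 f_pm_213_t t 31 123 1 = true := ex3_a k43_pm_213_t s59_pm_213_t

theorem s61_pm_213_t : ∃ t, chk3 f_pm_213_t t 31 122 1 = true := ex3_a k41_pm_213_t k42_pm_213_t

theorem s62_pm_213_t : ∃ t, chk3 f_pm_213_t t 31 61 1 = true := ex3_b s61_pm_213_t s60_pm_213_t

theorem s63_pm_213_t : ∃ t, chk3 f_pm_213_t t 31 242 1 = true := ex3_a k38_pm_213_t k39_pm_213_t

theorem s64_pm_213_t : ∃ t, chk3 f_pm_213_t t 31 121 1 = true := ex3_b s63_pm_213_t k40_pm_213_t

theorem s65_pm_213_t : ∃ t, chk3 f_pm_213_t t 255 120 1 = true := ex3_a k36_pm_213_t k37_pm_213_t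

theorem s66_pm_213_t : ∃ t, chk3 f_pm_213_t t 127 120 1 = true := ex3_a k35_pm_213_t s65_pm_213_t

theorem s67_pm_213_t : ∃ t, chk3 f_pm_213_t t 63 120 1 = true := ex3_a k34_pm_213_t s66_pm_213_t

theorem s68_pm_213_t : ∃ t, chk3 f_pm_213_t t 31 120 1 = true := ex3_a k33_pm_213_t s67_pm_213_t

theorem s69_pm_213_t : ∃ t, chk3 f_pm_213_t t 31 60 1 = true := ex3_b s68_pm_213_t s64_pm_213_t

theorem s70_pm_213_t : ∃ t, chk3 f_pm_213_t t 31 30 1 = true := ex3_b s69_pm_213_t s62_pm_213_t

theorem s71_pm_213_t : ∃ t, chk3 f_pm_213_t t 31 15 1 = true := ex3_b s70_pm_213_t s58_pm_213_t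

theorem s72_pm_213_t : ∃ t, chk3 f_pm_213_t t 30 15 1 = true := ex3_b k31_pm_213_t k32_pm_213_t

theorem s73_pm_213_t : ∃ t, chk3 f_pm_213_t t 15 15 1 = true := ex3_a s72_pm_213_t s71_pm_213_t

theorem s74_pm_213_t : ∃ t, chk3 f_pm_213_t t 63 59 3 = true := ex3_a k29_pm_213_t k30_pm_213_t

theorem s75_pm_213_t : ∃ t, chk3 f_pm_213_t t 31 59 3 = true := ex3_a k28_pm_213_t s74_pm_213_t

theorem s76_pm_213_t : ∃ t, chk3 f_pm_213_t t 15 59 3 = true := ex3_a k27_pm_213_t s75_pm_213_t

theorem s77_pm_213_t : ∃ t, chk3 f_pm_213_t t 31 59 2 = true := ex3_a k25_pm_213_t k26_pm_213_t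

theorem s78_pm_213_t : ∃ t, chk3 f_pm_213_t t 15 59 2 = true := ex3_a k24_pm_213_t s77_pm_213_t

theorem s79_pm_213_t : ∃ t, chk3 f_pm_213_t t 15 59 1 = true := ex3_c s78_pm_213_t s76_pm_213_t

theorem s80_pm_213_t : ∃ t, chk3 f_pm_213_t t 31 58 2 = true := ex3_a k21_pm_213_t k22_pm_213_t

theorem s81_pm_213_t : ∃ t, chk3 f_pm_213_t t 15 58 2 = true := ex3_a k20_pm_213_t s80_pm_213_t

theorem s82_pm_213_t : ∃ t, chk3 f_pm_213_t t 15 58 1 = true := ex3_c s81_pm_213_t k23_pm_213_t

theorem s83_pm_213_t : ∃ t, chk3 f_pm_213_t t 15 29 1 = true := ex3_b s82_pm_213_t s79_pm_213_t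

theorem s84_pm_213_t : ∃ t, chk3 f_pm_213_t t 31 28 1 = true := ex3_b k18_pm_213_t k19_pm_213_t

theorem s85_pm_213_t : ∃ t, chk3 f_pm_213_t t 15 28 1 = true := ex3_a k17_pm_213_t s84_pm_213_t

theorem s86_pm_213_t : ∃ t, chk3 f_pm_213_t t 15 14 1 = true := ex3_b s85_pm_213_t s83_pm_213_t

theorem s87_pm_213_t : ∃ t, chk3 f_pm_213_t t 15 7 1 = true := ex3_b s86_pm_213_t s73_pm_213_t

theorem s88_pm_213_t : ∃ t, chk3 f_pm_213_t t 29 31 1 = true := ex3_b k15_pm_213_t k16_pm_213_t

theorem s89_pm_213_t : ∃ t, chk3 f_pm_213_t t 29 15 1 = true := ex3_b k14_pm_213_t s88_pm_213_t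

theorem s90_pm_213_t : ∃ t, chk3 f_pm_213_t t 14 15 1 = true := ex3_a k13_pm_213_t s89_pm_213_t

theorem s91_pm_213_t : ∃ t, chk3 f_pm_213_t t 14 7 1 = true := ex3_b k12_pm_213_t s90_pm_213_t

theorem s92_pm_213_t : ∃ t, chk3 f_pm_213_t t 7 7 1 = true := ex3_a s91_pm_213_t s87_pm_213_t

theorem s93_pm_213_t : ∃ t, chk3 f_pm_213_t t 7 3 1 = true := ex3_b k11_pm_213_t s92_pm_213_t

theorem s94_pm_213_t : ∃ t, chk3 f_pm_213_t t 13 15 1 = true := ex3_b k9_pm_213_t k10_pm_213_t

theorem s95_pm_213_t : ∃ t, chk3 f_pm_213_t t 13 7 1 = true := ex3_b k8_pm_213_t s94_pm_213_t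

theorem s96_pm_213_t : ∃ t, chk3 f_pm_213_t t 6 7 1 = true := ex3_a k7_pm_213_t s95_pm_213_t

theorem s97_pm_213_t : ∃ t, chk3 f_pm_213_t t 6 3 1 = true := ex3_b k6_pm_213_t s96_pm_213_t

theorem s98_pm_213_t : ∃ t, chk3 f_pm_213_t t 3 3 1 = true := ex3_a s97_pm_213_t s93_pm_213_t

theorem s99_pm_213_t : ∃ t, chk3 f_pm_213_t t 3 1 1 = true := ex3_b k5_pm_213_t s98_pm_213_t

theorem s100_pm_213_t : ∃ t, chk3 f_pm_213_t t 5 3 1 = true := ex3_b k3_pm_213_t k4_pm_213_t

theorem s101_pm_213_t : ∃ t, chk3 f_pm_213_t t 5 1 1 = true := ex3_b k2_pm_213_t s100_pm_213_t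

theorem s102_pm_213_t : ∃ t, chk3 f_pm_213_t t 4 1 1 = true := ex3_b k0_pm_213_t k1_pm_213_t

theorem s103_pm_213_t : ∃ t, chk3 f_pm_213_t t 2 1 1 = true := ex3_a s102_pm_213_t s101_pm_213_t

theorem s104_pm_213_t : ∃ t, chk3 f_pm_213_t t 1 1 1 = true := ex3_a s103_pm_213_t s99_pm_213_t

theorem c_pm_213_t : CertNE 0 536870912 536870912 536870912 966367641 24778659 3 eng mog cd0q2 cd0q1 pd3 true true false .pnn 2 1 3
    ndB0q2 ndB0q1 pcB3 cut_pm_213_t xt_pm_213_t :=
  certNE1 (fam := true) (s1 := true) (s2 := false) (a := 2) (b := 1) (c := 3) (cn := .pnn) (n1 := ndB0q2) (n2 := ndB0q1) (pc := pcB3) (cut := cut_pm_213_t) (xt := xt_pm_213_t) (P1 := 0) (W1 := 536870912) (P2 := 536870912) (W2 := 536870912) (P3 := 966367641) (W3 := 24778659) (N0 := 3) (En := eng) (mo := mog) (C1 := cd0q2) (C2 := cd0q1) (C3 := pd3)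
    rfl (fun _ => rfl) s104_pm_213_t

noncomputable def cut_mm_001_s : Cut := Cut.of [[⟨4, 0, 0, 1449551462⟩]]

noncomputable def f_mm_001_s : ℕ → ℕ → ℕ → ℕ → Bool := onCell 0 536870912 0 536870912 966367641 24778659
    (rowNE 3 eng mog cd0q0 cd0q0 pd1 0 true false false .up 0 0 1 (qsf 0 536870912 0 536870912 1) ndB0q0 ndB0q0 pcB1 cut_mm_001_s Ext.none)

def k0_mm_001_s : ∃ t, chk3 f_mm_001_s t 1 1 1 = true :=
  ⟨(l 4), by decide +kernel⟩

theorem c_mm_001_s : CertNE 0 536870912 0 536870912 966367641 24778659 3 eng mog cd0q0 cd0q0 pd1 true false false .up 0 0 1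
    ndB0q0 ndB0q0 pcB1 cut_mm_001_s Ext.none :=
  certNE0 (fam := true) (s1 := false) (s2 := false) (a := 0) (b := 0) (c := 1) (cn := .up) (n1 := ndB0q0) (n2 := ndB0q0) (pc := pcB1) (cut := cut_mm_001_s) (xt := Ext.none) (P1 := 0) (W1 := 536870912) (P2 := 0) (W2 := 536870912) (P3 := 966367641) (W3 := 24778659) (N0 := 3) (En := eng) (mo := mog) (C1 := cd0q0) (C2 := cd0q0) (C3 := pd1)
    rfl k0_mm_001_s

noncomputable def cut_mm_001_t : Cut := Cut.of [[⟨3, 0, 0, 2845415833⟩]]

noncomputable def f_mm_001_t : ℕ → ℕ → ℕ → ℕ → Bool := onCell 0 536870912 0 536870912 966367641 24778659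
    (rowNE 3 eng mog cd0q0 cd0q0 pd1 0 true false false .up 0 0 1 (qsf 0 536870912 0 536870912 1) ndB0q0 ndB0q0 pcB1 cut_mm_001_t Ext.none)

def k0_mm_001_t : ∃ t, chk3 f_mm_001_t t 1 1 1 = true :=
  ⟨(l 4), by decide +kernel⟩

theorem c_mm_001_t : CertNE 0 536870912 0 536870912 966367641 24778659 3 eng mog cd0q0 cd0q0 pd1 true false false .up 0 0 1
    ndB0q0 ndB0q0 pcB1 cut_mm_001_t Ext.none :=
  certNE0 (fam := true) (s1 := false) (s2 := false) (a := 0) (b := 0) (c := 1) (cn := .up) (n1 := ndB0q0) (n2 := ndB0q0) (pc := pcB1) (cut := cut_mm_001_t) (xt := Ext.none) (P1 := 0) (W1 := 536870912) (P2 := 0) (W2 := 536870912) (P3 := 966367641) (W3 := 24778659) (N0 := 3) (En := eng) (mo := mog) (C1 := cd0q0) (C2 := cd0q0) (C3 := pd1)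
    rfl k0_mm_001_t

noncomputable def cut_mm_011_s : Cut := Cut.of [[⟨4, 0, 0, 1449551462⟩]]

noncomputable def f_mm_011_s : ℕ → ℕ → ℕ → ℕ → Bool := onCell 0 536870912 536870912 536870912 966367641 24778659
    (rowNE 3 eng mog cd0q0 cd0q1 pd1 0 true false false .pnn 0 1 1 (qsf 0 536870912 536870912 536870912 1) ndB0q0 ndB0q1 pcB1 cut_mm_011_s Ext.none)

def k0_mm_011_s : ∃ t, chk3 f_mm_011_s t 1 1 1 = true :=
  ⟨(l 6), by decide +kernel⟩

theorem c_mm_011_s : CertNE 0 536870912 536870912 536870912 966367641 24778659 3 eng mog cd0q0 cd0q1 pd1 true false false .pnn 0 1 1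
    ndB0q0 ndB0q1 pcB1 cut_mm_011_s Ext.none :=
  certNE0 (fam := true) (s1 := false) (s2 := false) (a := 0) (b := 1) (c := 1) (cn := .pnn) (n1 := ndB0q0) (n2 := ndB0q1) (pc := pcB1) (cut := cut_mm_011_s) (xt := Ext.none) (P1 := 0) (W1 := 536870912) (P2 := 536870912) (W2 := 536870912) (P3 := 966367641) (W3 := 24778659) (N0 := 3) (En := eng) (mo := mog) (C1 := cd0q0) (C2 := cd0q1) (C3 := pd1)
    rfl k0_mm_011_s

noncomputable def cut_mm_011_t : Cut := Cut.of [[⟨3, 0, 0, 2845415833⟩]]

noncomputable def f_mm_011_t : ℕ → ℕ → ℕ → ℕ → Bool := onCell 0 536870912 536870912 536870912 966367641 24778659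
    (rowNE 3 eng mog cd0q0 cd0q1 pd1 0 true false false .pnn 0 1 1 (qsf 0 536870912 536870912 536870912 1) ndB0q0 ndB0q1 pcB1 cut_mm_011_t Ext.none)

def k0_mm_011_t : ∃ t, chk3 f_mm_011_t t 1 1 1 = true :=
  ⟨(b (l 4) (l 5)), by decide +kernel⟩

theorem c_mm_011_t : CertNE 0 536870912 536870912 536870912 966367641 24778659 3 eng mog cd0q0 cd0q1 pd1 true false false .pnn 0 1 1
    ndB0q0 ndB0q1 pcB1 cut_mm_011_t Ext.none :=
  certNE0 (fam := true) (s1 := false) (s2 := false) (a := 0) (b := 1) (c := 1) (cn := .pnn) (n1 := ndB0q0) (n2 := ndB0q1) (pc := pcB1) (cut := cut_mm_011_t) (xt := Ext.none) (P1 := 0) (W1 := 536870912) (P2 := 536870912) (W2 := 536870912) (P3 := 966367641) (W3 := 24778659) (N0 := 3) (En := eng) (mo := mog) (C1 := cd0q0) (C2 := cd0q1) (C3 := pd1)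
    rfl k0_mm_011_t

noncomputable def cut_mm_012_s : Cut := Cut.of [[⟨4, 0, 0, 1449551462⟩]]

noncomputable def f_mm_012_s : ℕ → ℕ → ℕ → ℕ → Bool := onCell 0 536870912 536870912 536870912 966367641 24778659
    (rowNE 3 eng mog cd0q0 cd0q1 pd2 0 true false false .pnp 0 1 2 (qsf 0 536870912 536870912 536870912 2) ndB0q0 ndB0q1 pcB2 cut_mm_012_s Ext.none)

def k0_mm_012_s : ∃ t, chk3 f_mm_012_s t 1 1 1 = true :=
  ⟨(l 6), by decide +kernel⟩

theorem c_mm_012_s : CertNE 0 536870912 536870912 536870912 966367641 24778659 3 eng mog cd0q0 cd0q1 pd2 true false false .pnp 0 1 2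
    ndB0q0 ndB0q1 pcB2 cut_mm_012_s Ext.none :=
  certNE0 (fam := true) (s1 := false) (s2 := false) (a := 0) (b := 1) (c := 2) (cn := .pnp) (n1 := ndB0q0) (n2 := ndB0q1) (pc := pcB2) (cut := cut_mm_012_s) (xt := Ext.none) (P1 := 0) (W1 := 536870912) (P2 := 536870912) (W2 := 536870912) (P3 := 966367641) (W3 := 24778659) (N0 := 3) (En := eng) (mo := mog) (C1 := cd0q0) (C2 := cd0q1) (C3 := pd2)
    rfl k0_mm_012_s

noncomputable def cut_mm_012_t : Cut := Cut.of [[⟨3, 0, 0, 2845415833⟩]]

noncomputable def f_mm_012_t : ℕ → ℕ → ℕ → ℕ → Bool := onCell 0 536870912 536870912 536870912 966367641 24778659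
    (rowNE 3 eng mog cd0q0 cd0q1 pd2 0 true false false .pnp 0 1 2 (qsf 0 536870912 536870912 536870912 2) ndB0q0 ndB0q1 pcB2 cut_mm_012_t Ext.none)

def k0_mm_012_t : ∃ t, chk3 f_mm_012_t t 1 1 1 = true :=
  ⟨(b (l 4) (l 5)), by decide +kernel⟩

theorem c_mm_012_t : CertNE 0 536870912 536870912 536870912 966367641 24778659 3 eng mog cd0q0 cd0q1 pd2 true false false .pnp 0 1 2
    ndB0q0 ndB0q1 pcB2 cut_mm_012_t Ext.none :=
  certNE0 (fam := true) (s1 := false) (s2 := false) (a := 0) (b := 1) (c := 2) (cn := .pnp) (n1 := ndB0q0) (n2 := ndB0q1) (pc := pcB2) (cut := cut_mm_012_t) (xt := Ext.none) (P1 := 0) (W1 := 536870912) (P2 := 536870912) (W2 := 536870912) (P3 := 966367641) (W3 := 24778659) (N0 := 3) (En := eng) (mo := mog) (C1 := cd0q0) (C2 := cd0q1) (C3 := pd2)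
    rfl k0_mm_012_t

noncomputable def cut_mm_022_s : Cut := Cut.of [[⟨4, 0, 0, 1449551462⟩]]

noncomputable def f_mm_022_s : ℕ → ℕ → ℕ → ℕ → Bool := onCell 0 536870912 0 536870912 966367641 24778659
    (rowNE 3 eng mog cd0q0 cd0q2 pd2 0 true false false .pp 0 2 2 (qsf 0 536870912 0 536870912 2) ndB0q0 ndB0q2 pcB2 cut_mm_022_s Ext.none)

def k0_mm_022_s : ∃ t, chk3 f_mm_022_s t 1 1 1 = true :=
  ⟨(l 5), by decide +kernel⟩

theorem c_mm_022_s : CertNE 0 536870912 0 536870912 966367641 24778659 3 eng mog cd0q0 cd0q2 pd2 true false false .pp 0 2 2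
    ndB0q0 ndB0q2 pcB2 cut_mm_022_s Ext.none :=
  certNE0 (fam := true) (s1 := false) (s2 := false) (a := 0) (b := 2) (c := 2) (cn := .pp) (n1 := ndB0q0) (n2 := ndB0q2) (pc := pcB2) (cut := cut_mm_022_s) (xt := Ext.none) (P1 := 0) (W1 := 536870912) (P2 := 0) (W2 := 536870912) (P3 := 966367641) (W3 := 24778659) (N0 := 3) (En := eng) (mo := mog) (C1 := cd0q0) (C2 := cd0q2) (C3 := pd2)
    rfl k0_mm_022_s

noncomputable def cut_mm_022_t : Cut := Cut.of [[⟨3, 0, 0, 2845415833⟩]]

noncomputable def f_mm_022_t : ℕ → ℕ → ℕ → ℕ → Bool := onCell 0 536870912 0 536870912 966367641 24778659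
    (rowNE 3 eng mog cd0q0 cd0q2 pd2 0 true false false .pp 0 2 2 (qsf 0 536870912 0 536870912 2) ndB0q0 ndB0q2 pcB2 cut_mm_022_t Ext.none)

def k0_mm_022_t : ∃ t, chk3 f_mm_022_t t 1 1 1 = true :=
  ⟨(l 5), by decide +kernel⟩

theorem c_mm_022_t : CertNE 0 536870912 0 536870912 966367641 24778659 3 eng mog cd0q0 cd0q2 pd2 true false false .pp 0 2 2
    ndB0q0 ndB0q2 pcB2 cut_mm_022_t Ext.none :=
  certNE0 (fam := true) (s1 := false) (s2 := false) (a := 0) (b := 2) (c := 2) (cn := .pp) (n1 := ndB0q0) (n2 := ndB0q2) (pc := pcB2) (cut := cut_mm_022_t) (xt := Ext.none) (P1 := 0) (W1 := 536870912) (P2 := 0) (W2 := 536870912) (P3 := 966367641) (W3 := 24778659) (N0 := 3) (En := eng) (mo := mog) (C1 := cd0q0) (C2 := cd0q2) (C3 := pd2)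
    rfl k0_mm_022_t

noncomputable def cut_mm_023_s : Cut := Cut.of [[⟨4, 0, 0, 1449551462⟩]]

noncomputable def f_mm_023_s : ℕ → ℕ → ℕ → ℕ → Bool := onCell 0 536870912 0 536870912 966367641 24778659
    (rowNE 3 eng mog cd0q0 cd0q2 pd3 0 true false false .up 0 2 3 (qsf 0 536870912 0 536870912 3) ndB0q0 ndB0q2 pcB3 cut_mm_023_s Ext.none)

def k0_mm_023_s : ∃ t, chk3 f_mm_023_s t 1 1 1 = true :=
  ⟨(l 5), by decide +kernel⟩

theorem c_mm_023_s : CertNE 0 536870912 0 536870912 966367641 24778659 3 eng mog cd0q0 cd0q2 pd3 true false false .up 0 2 3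
    ndB0q0 ndB0q2 pcB3 cut_mm_023_s Ext.none :=
  certNE0 (fam := true) (s1 := false) (s2 := false) (a := 0) (b := 2) (c := 3) (cn := .up) (n1 := ndB0q0) (n2 := ndB0q2) (pc := pcB3) (cut := cut_mm_023_s) (xt := Ext.none) (P1 := 0) (W1 := 536870912) (P2 := 0) (W2 := 536870912) (P3 := 966367641) (W3 := 24778659) (N0 := 3) (En := eng) (mo := mog) (C1 := cd0q0) (C2 := cd0q2) (C3 := pd3)
    rfl k0_mm_023_s

noncomputable def cut_mm_023_t : Cut := Cut.of [[⟨3, 0, 0, 2845415833⟩]]

noncomputable def f_mm_023_t : ℕ → ℕ → ℕ → ℕ → Bool := onCell 0 536870912 0 536870912 966367641 24778659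
    (rowNE 3 eng mog cd0q0 cd0q2 pd3 0 true false false .up 0 2 3 (qsf 0 536870912 0 536870912 3) ndB0q0 ndB0q2 pcB3 cut_mm_023_t Ext.none)

def k0_mm_023_t : ∃ t, chk3 f_mm_023_t t 1 1 1 = true :=
  ⟨(l 5), by decide +kernel⟩

theorem c_mm_023_t : CertNE 0 536870912 0 536870912 966367641 24778659 3 eng mog cd0q0 cd0q2 pd3 true false false .up 0 2 3
    ndB0q0 ndB0q2 pcB3 cut_mm_023_t Ext.none :=
  certNE0 (fam := true) (s1 := false) (s2 := false) (a := 0) (b := 2) (c := 3) (cn := .up) (n1 := ndB0q0) (n2 := ndB0q2) (pc := pcB3) (cut := cut_mm_023_t) (xt := Ext.none) (P1 := 0) (W1 := 536870912) (P2 := 0) (W2 := 536870912) (P3 := 966367641) (W3 := 24778659) (N0 := 3) (En := eng) (mo := mog) (C1 := cd0q0) (C2 := cd0q2) (C3 := pd3)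
    rfl k0_mm_023_t

noncomputable def cut_mm_101_s : Cut := Cut.of [[⟨4, 0, 0, 1449551462⟩], [⟨0, 1, 0, 67108864⟩, ⟨1, 0, 0, 67108864⟩, ⟨2, 1, 0, 67108864⟩]]

noncomputable def f_mm_101_s : ℕ → ℕ → ℕ → ℕ → Bool := onCell 536870912 536870912 0 536870912 966367641 24778659
    (rowNE 3 eng mog cd0q1 cd0q0 pd1 0 true false false .npn 1 0 1 (qsf 536870912 536870912 0 536870912 1) ndB0q1 ndB0q0 pcB1 cut_mm_101_s Ext.none)

def k0_mm_101_s : ∃ t, chk3 f_mm_101_s t 1 1 1 = true :=
  ⟨(l 6), by decide +kernel⟩

theorem c_mm_101_s : CertNE 536870912 536870912 0 536870912 966367641 24778659 3 eng mog cd0q1 cd0q0 pd1 true false false .npn 1 0 1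
    ndB0q1 ndB0q0 pcB1 cut_mm_101_s Ext.none :=
  certNE0 (fam := true) (s1 := false) (s2 := false) (a := 1) (b := 0) (c := 1) (cn := .npn) (n1 := ndB0q1) (n2 := ndB0q0) (pc := pcB1) (cut := cut_mm_101_s) (xt := Ext.none) (P1 := 536870912) (W1 := 536870912) (P2 := 0) (W2 := 536870912) (P3 := 966367641) (W3 := 24778659) (N0 := 3) (En := eng) (mo := mog) (C1 := cd0q1) (C2 := cd0q0) (C3 := pd1)
    rfl k0_mm_101_s

noncomputable def cut_mm_101_t : Cut := Cut.of [[⟨3, 0, 0, 2845415833⟩], [⟨0, 1, 0, 67108864⟩, ⟨1, 0, 0, 67108864⟩, ⟨2, 1, 0, 67108864⟩]]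

noncomputable def f_mm_101_t : ℕ → ℕ → ℕ → ℕ → Bool := onCell 536870912 536870912 0 536870912 966367641 24778659
    (rowNE 3 eng mog cd0q1 cd0q0 pd1 0 true false false .npn 1 0 1 (qsf 536870912 536870912 0 536870912 1) ndB0q1 ndB0q0 pcB1 cut_mm_101_t Ext.none)

def k0_mm_101_t : ∃ t, chk3 f_mm_101_t t 1 1 1 = true :=
  ⟨(a (l 4) (b (a (l 4) (b (a (l 4) (b (a (l 4) (b (l 14) (l 4))) (l 4))) (l 4))) (l 4))), by decide +kernel⟩

theorem c_mm_101_t : CertNE 536870912 536870912 0 536870912 966367641 24778659 3 eng mog cd0q1 cd0q0 pd1 true false false .npn 1 0 1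
    ndB0q1 ndB0q0 pcB1 cut_mm_101_t Ext.none :=
  certNE0 (fam := true) (s1 := false) (s2 := false) (a := 1) (b := 0) (c := 1) (cn := .npn) (n1 := ndB0q1) (n2 := ndB0q0) (pc := pcB1) (cut := cut_mm_101_t) (xt := Ext.none) (P1 := 536870912) (W1 := 536870912) (P2 := 0) (W2 := 536870912) (P3 := 966367641) (W3 := 24778659) (N0 := 3) (En := eng) (mo := mog) (C1 := cd0q1) (C2 := cd0q0) (C3 := pd1)
    rfl k0_mm_101_t

noncomputable def cut_mm_102_s : Cut := Cut.of [[⟨4, 0, 0, 1449551462⟩], [⟨0, 1, 0, 67108864⟩, ⟨1, 0, 0, 67108864⟩, ⟨2, 1, 0, 67108864⟩]]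

noncomputable def f_mm_102_s : ℕ → ℕ → ℕ → ℕ → Bool := onCell 536870912 536870912 0 536870912 966367641 24778659
    (rowNE 3 eng mog cd0q1 cd0q0 pd2 0 true false false .npp 1 0 2 (qsf 536870912 536870912 0 536870912 2) ndB0q1 ndB0q0 pcB2 cut_mm_102_s Ext.none)

def k0_mm_102_s : ∃ t, chk3 f_mm_102_s t 1 1 1 = true :=
  ⟨(l 6), by decide +kernel⟩

theorem c_mm_102_s : CertNE 536870912 536870912 0 536870912 966367641 24778659 3 eng mog cd0q1 cd0q0 pd2 true false false .npp 1 0 2
    ndB0q1 ndB0q0 pcB2 cut_mm_102_s Ext.none :=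
  certNE0 (fam := true) (s1 := false) (s2 := false) (a := 1) (b := 0) (c := 2) (cn := .npp) (n1 := ndB0q1) (n2 := ndB0q0) (pc := pcB2) (cut := cut_mm_102_s) (xt := Ext.none) (P1 := 536870912) (W1 := 536870912) (P2 := 0) (W2 := 536870912) (P3 := 966367641) (W3 := 24778659) (N0 := 3) (En := eng) (mo := mog) (C1 := cd0q1) (C2 := cd0q0) (C3 := pd2)
    rfl k0_mm_102_s

noncomputable def cut_mm_102_t : Cut := Cut.of [[⟨3, 0, 0, 2845415833⟩], [⟨0, 1, 0, 67108864⟩, ⟨1, 0, 0, 67108864⟩, ⟨2, 1, 0, 67108864⟩]]

noncomputable def f_mm_102_t : ℕ → ℕ → ℕ → ℕ → Bool := onCell 536870912 536870912 0 536870912 966367641 24778659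
    (rowNE 3 eng mog cd0q1 cd0q0 pd2 0 true false false .npp 1 0 2 (qsf 536870912 536870912 0 536870912 2) ndB0q1 ndB0q0 pcB2 cut_mm_102_t Ext.none)

def k0_mm_102_t : ∃ t, chk3 f_mm_102_t t 1 1 1 = true :=
  ⟨(a (l 4) (b (a (l 4) (b (a (l 4) (b (a (l 4) (b (l 14) (l 4))) (l 4))) (l 4))) (l 4))), by decide +kernel⟩

theorem c_mm_102_t : CertNE 536870912 536870912 0 536870912 966367641 24778659 3 eng mog cd0q1 cd0q0 pd2 true false false .npp 1 0 2
    ndB0q1 ndB0q0 pcB2 cut_mm_102_t Ext.none :=
  certNE0 (fam := true) (s1 := false) (s2 := false) (a := 1) (b := 0) (c := 2) (cn := .npp) (n1 := ndB0q1) (n2 := ndB0q0) (pc := pcB2) (cut := cut_mm_102_t) (xt := Ext.none) (P1 := 536870912) (W1 := 536870912) (P2 := 0) (W2 := 536870912) (P3 := 966367641) (W3 := 24778659) (N0 := 3) (En := eng) (mo := mog) (C1 := cd0q1) (C2 := cd0q0) (C3 := pd2)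
    rfl k0_mm_102_t

noncomputable def cut_mm_112_s : Cut := Cut.of [[⟨4, 0, 0, 1449551462⟩]]

noncomputable def f_mm_112_s : ℕ → ℕ → ℕ → ℕ → Bool := onCell 536870912 536870912 536870912 536870912 966367641 24778659
    (rowNE 3 eng mog cd0q1 cd0q1 pd2 0 true false false .dn 1 1 2 (qsf 536870912 536870912 536870912 536870912 2) ndB0q1 ndB0q1 pcB2 cut_mm_112_s Ext.none)

def k0_mm_112_s : ∃ t, chk3 f_mm_112_s t 1 1 1 = true :=
  ⟨(l 4), by decide +kernel⟩

theorem c_mm_112_s : CertNE 536870912 536870912 536870912 536870912 966367641 24778659 3 eng mog cd0q1 cd0q1 pd2 true false false .dn 1 1 2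
    ndB0q1 ndB0q1 pcB2 cut_mm_112_s Ext.none :=
  certNE0 (fam := true) (s1 := false) (s2 := false) (a := 1) (b := 1) (c := 2) (cn := .dn) (n1 := ndB0q1) (n2 := ndB0q1) (pc := pcB2) (cut := cut_mm_112_s) (xt := Ext.none) (P1 := 536870912) (W1 := 536870912) (P2 := 536870912) (W2 := 536870912) (P3 := 966367641) (W3 := 24778659) (N0 := 3) (En := eng) (mo := mog) (C1 := cd0q1) (C2 := cd0q1) (C3 := pd2)
    rfl k0_mm_112_s

noncomputable def cut_mm_112_t : Cut := Cut.of [[⟨3, 0, 0, 2845415833⟩]]

noncomputable def f_mm_112_t : ℕ → ℕ → ℕ → ℕ → Bool := onCell 536870912 536870912 536870912 536870912 966367641 24778659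
    (rowNE 3 eng mog cd0q1 cd0q1 pd2 0 true false false .dn 1 1 2 (qsf 536870912 536870912 536870912 536870912 2) ndB0q1 ndB0q1 pcB2 cut_mm_112_t Ext.none)

def k0_mm_112_t : ∃ t, chk3 f_mm_112_t t 1 1 1 = true :=
  ⟨(l 4), by decide +kernel⟩

theorem c_mm_112_t : CertNE 536870912 536870912 536870912 536870912 966367641 24778659 3 eng mog cd0q1 cd0q1 pd2 true false false .dn 1 1 2
    ndB0q1 ndB0q1 pcB2 cut_mm_112_t Ext.none :=
  certNE0 (fam := true) (s1 := false) (s2 := false) (a := 1) (b := 1) (c := 2) (cn := .dn) (n1 := ndB0q1) (n2 := ndB0q1) (pc := pcB2) (cut := cut_mm_112_t) (xt := Ext.none) (P1 := 536870912) (W1 := 536870912) (P2 := 536870912) (W2 := 536870912) (P3 := 966367641) (W3 := 24778659) (N0 := 3) (En := eng) (mo := mog) (C1 := cd0q1) (C2 := cd0q1) (C3 := pd2)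
    rfl k0_mm_112_t

noncomputable def cut_mm_113_s : Cut := Cut.of [[⟨4, 0, 0, 1449551462⟩]]

noncomputable def f_mm_113_s : ℕ → ℕ → ℕ → ℕ → Bool := onCell 536870912 536870912 536870912 536870912 966367641 24778659
    (rowNE 3 eng mog cd0q1 cd0q1 pd3 0 true false false .nn 1 1 3 (qsf 536870912 536870912 536870912 536870912 3) ndB0q1 ndB0q1 pcB3 cut_mm_113_s Ext.none)

def k0_mm_113_s : ∃ t, chk3 f_mm_113_s t 1 1 1 = true :=
  ⟨(l 4), by decide +kernel⟩

theorem c_mm_113_s : CertNE 536870912 536870912 536870912 536870912 966367641 24778659 3 eng mog cd0q1 cd0q1 pd3 true false false .nn 1 1 3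
    ndB0q1 ndB0q1 pcB3 cut_mm_113_s Ext.none :=
  certNE0 (fam := true) (s1 := false) (s2 := false) (a := 1) (b := 1) (c := 3) (cn := .nn) (n1 := ndB0q1) (n2 := ndB0q1) (pc := pcB3) (cut := cut_mm_113_s) (xt := Ext.none) (P1 := 536870912) (W1 := 536870912) (P2 := 536870912) (W2 := 536870912) (P3 := 966367641) (W3 := 24778659) (N0 := 3) (En := eng) (mo := mog) (C1 := cd0q1) (C2 := cd0q1) (C3 := pd3)
    rfl k0_mm_113_s

noncomputable def cut_mm_113_t : Cut := Cut.of [[⟨3, 0, 0, 2845415833⟩]]

noncomputable def f_mm_113_t : ℕ → ℕ → ℕ → ℕ → Bool := onCell 536870912 536870912 536870912 536870912 966367641 24778659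
    (rowNE 3 eng mog cd0q1 cd0q1 pd3 0 true false false .nn 1 1 3 (qsf 536870912 536870912 536870912 536870912 3) ndB0q1 ndB0q1 pcB3 cut_mm_113_t Ext.none)

def k0_mm_113_t : ∃ t, chk3 f_mm_113_t t 1 1 1 = true :=
  ⟨(l 4), by decide +kernel⟩

theorem c_mm_113_t : CertNE 536870912 536870912 536870912 536870912 966367641 24778659 3 eng mog cd0q1 cd0q1 pd3 true false false .nn 1 1 3
    ndB0q1 ndB0q1 pcB3 cut_mm_113_t Ext.none :=
  certNE0 (fam := true) (s1 := false) (s2 := false) (a := 1) (b := 1) (c := 3) (cn := .nn) (n1 := ndB0q1) (n2 := ndB0q1) (pc := pcB3) (cut := cut_mm_113_t) (xt := Ext.none) (P1 := 536870912) (W1 := 536870912) (P2 := 536870912) (W2 := 536870912) (P3 := 966367641) (W3 := 24778659) (N0 := 3) (En := eng) (mo := mog) (C1 := cd0q1) (C2 := cd0q1) (C3 := pd3)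
    rfl k0_mm_113_t

noncomputable def cut_mm_123_s : Cut := Cut.of [[⟨4, 0, 0, 1449551462⟩]]

noncomputable def f_mm_123_s : ℕ → ℕ → ℕ → ℕ → Bool := onCell 536870912 536870912 0 536870912 966367641 24778659
    (rowNE 3 eng mog cd0q1 cd0q2 pd3 0 true false false .npn 1 2 3 (qsf 536870912 536870912 0 536870912 3) ndB0q1 ndB0q2 pcB3 cut_mm_123_s Ext.none)

def k0_mm_123_s : ∃ t, chk3 f_mm_123_s t 1 1 1 = true :=
  ⟨(l 6), by decide +kernel⟩

theorem c_mm_123_s : CertNE 536870912 536870912 0 536870912 966367641 24778659 3 eng mog cd0q1 cd0q2 pd3 true false false .npn 1 2 3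
    ndB0q1 ndB0q2 pcB3 cut_mm_123_s Ext.none :=
  certNE0 (fam := true) (s1 := false) (s2 := false) (a := 1) (b := 2) (c := 3) (cn := .npn) (n1 := ndB0q1) (n2 := ndB0q2) (pc := pcB3) (cut := cut_mm_123_s) (xt := Ext.none) (P1 := 536870912) (W1 := 536870912) (P2 := 0) (W2 := 536870912) (P3 := 966367641) (W3 := 24778659) (N0 := 3) (En := eng) (mo := mog) (C1 := cd0q1) (C2 := cd0q2) (C3 := pd3)
    rfl k0_mm_123_s

noncomputable def cut_mm_123_t : Cut := Cut.of [[⟨3, 0, 0, 2845415833⟩]]

noncomputable def f_mm_123_t : ℕ → ℕ → ℕ → ℕ → Bool := onCell 536870912 536870912 0 536870912 966367641 24778659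
    (rowNE 3 eng mog cd0q1 cd0q2 pd3 0 true false false .npn 1 2 3 (qsf 536870912 536870912 0 536870912 3) ndB0q1 ndB0q2 pcB3 cut_mm_123_t Ext.none)

def k0_mm_123_t : ∃ t, chk3 f_mm_123_t t 1 1 1 = true :=
  ⟨(a (l 5) (l 4)), by decide +kernel⟩

theorem c_mm_123_t : CertNE 536870912 536870912 0 536870912 966367641 24778659 3 eng mog cd0q1 cd0q2 pd3 true false false .npn 1 2 3
    ndB0q1 ndB0q2 pcB3 cut_mm_123_t Ext.none :=
  certNE0 (fam := true) (s1 := false) (s2 := false) (a := 1) (b := 2) (c := 3) (cn := .npn) (n1 := ndB0q1) (n2 := ndB0q2) (pc := pcB3) (cut := cut_mm_123_t) (xt := Ext.none) (P1 := 536870912) (W1 := 536870912) (P2 := 0) (W2 := 536870912) (P3 := 966367641) (W3 := 24778659) (N0 := 3) (En := eng) (mo := mog) (C1 := cd0q1) (C2 := cd0q2) (C3 := pd3)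
    rfl k0_mm_123_t

noncomputable def cut_mm_202_s : Cut := Cut.of [[⟨4, 0, 0, 1449551462⟩], [⟨0, 1, 0, 53687091⟩, ⟨1, 0, 0, 53687091⟩, ⟨2, 1, 0, 53687091⟩]]

noncomputable def f_mm_202_s : ℕ → ℕ → ℕ → ℕ → Bool := onCell 0 536870912 0 536870912 966367641 24778659
    (rowNE 3 eng mog cd0q2 cd0q0 pd2 0 true false false .pp 2 0 2 (qsf 0 536870912 0 536870912 2) ndB0q2 ndB0q0 pcB2 cut_mm_202_s Ext.none)

def k0_mm_202_s : ∃ t, chk3 f_mm_202_s t 1 1 1 = true :=
  ⟨(l 6), by decide +kernel⟩

theorem c_mm_202_s : CertNE 0 536870912 0 536870912 966367641 24778659 3 eng mog cd0q2 cd0q0 pd2 true false false .pp 2 0 2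
    ndB0q2 ndB0q0 pcB2 cut_mm_202_s Ext.none :=
  certNE0 (fam := true) (s1 := false) (s2 := false) (a := 2) (b := 0) (c := 2) (cn := .pp) (n1 := ndB0q2) (n2 := ndB0q0) (pc := pcB2) (cut := cut_mm_202_s) (xt := Ext.none) (P1 := 0) (W1 := 536870912) (P2 := 0) (W2 := 536870912) (P3 := 966367641) (W3 := 24778659) (N0 := 3) (En := eng) (mo := mog) (C1 := cd0q2) (C2 := cd0q0) (C3 := pd2)
    rfl k0_mm_202_s

noncomputable def cut_mm_202_t : Cut := Cut.of [[⟨3, 0, 0, 2845415833⟩], [⟨0, 1, 0, 53687091⟩, ⟨1, 0, 0, 53687091⟩, ⟨2, 1, 0, 53687091⟩]]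

noncomputable def f_mm_202_t : ℕ → ℕ → ℕ → ℕ → Bool := onCell 0 536870912 1073741824 536870912 966367641 24778659
    (rowNE 3 eng mog cd0q2 cd0q0 pd2 1 true false false .pp 2 0 2 (qsf 0 536870912 0 536870912 2) ndB0q2 ndB0q0 pcB2 cut_mm_202_t Ext.none)

def k0_mm_202_t : ∃ t, chk3 f_mm_202_t t 2 2 1 = true :=
  ⟨(b (l 6) (b (l 6) (a (l 6) (a (l 6) (a (l 6) (b (a (l 6) (b (l 6) (b (l 16450264) (l 16475992)))) (b (c (a (l 16506296) (l 16500384)) (c (l 16565912) (l 16480192))) (c (c (l 16570184) (l 16601904)) (c (l 16518728) (l 16496744)))))))))), by decide +kernel⟩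

def k1_mm_202_t : ∃ t, chk3 f_mm_202_t t 6 8 1 = true :=
  ⟨(l 1), by decide +kernel⟩

def k2_mm_202_t : ∃ t, chk3 f_mm_202_t t 12 9 1 = true :=
  ⟨(b (l 1) (b (l 6) (a (l 6) (a (l 6) (b (a (l 6) (c (b (l 16409864) (l 16420528)) (l 16403608))) (c (c (b (l 16413744) (l 16424480)) (l 16435256)) (a (l 16431400) (l 16447968)))))))), by decide +kernel⟩

def k3_mm_202_t : ∃ t, chk3 f_mm_202_t t 13 18 1 = true :=
  ⟨(b (a (l 1) (b (l 1) (a (b (l 1) (a (l 1) (c (l 16432096) (l 16441800)))) (b (a (c (l 16446232) (l 16454000)) (c (a (l 16463320) (l 16474792)) (a (l 16470704) (l 16481960)))) (a (c (a (l 16449032) (l 16460384)) (a (l 16458152) (l 16469176))) (c (l 16477536) (l 16506848))))))) (a (b (a (l 1) (b (l 1) (a (l 1) (c (b (l 1) (l 16428200)) (l 16429896))))) (a (b (l 1) (a (l 1) (c (b (l 16398352) (l 16403128)) (l 16420976)))) (b (a (c (b (l 16410680) (l 16415320)) (l 16430240)) (c (l 16427528) (l 16450688))) (a (c (l 16401408) (l 16440792)) (c (l 16423416) (l 16461064)))))) (b (a (b (a (c (l 16428824) (l 16430264)) (c (b (l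 16459560) (l 16463944)) (b (l 16470160) (l 16475120)))) (a (c (b (l 16445960) (l 16450456)) (b (l 16458792) (l 16463848))) (c (l 16449632) (l 16482576)))) (b (a (c (l 16463376) (l 16494376)) (c (l 16486160) (l 16516432))) (a (c (l 16472192) (l 16504152)) (c (l 16494912) (l 16526032))))) (a (b (a (c (l 16436320) (l 16471472)) (c (l 16458656) (l 16492552))) (a (c (l 16445568) (l 16481664)) (c (l 16467824) (l 16502544)))) (c (a (b (l 16481136) (l 16511176)) (b (l 16524744) (l 16533696))) (b (a (l 16513936) (l 16535616)) (a (l 16523720) (l 16545160)))))))), by decide +kernel⟩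

def k4_mm_202_t : ∃ t, chk3 f_mm_202_t t 26 19 1 = true :=
  ⟨(b (a (b (b (a (l 6) (c (l 16410384) (l 16431760))) (c (b (l 16407248) (l 16412232)) (c (l 16427136) (l 16439312)))) (c (b (c (l 16413968) (l 16425720)) (c (l 16423944) (l 16436160))) (b (a (l 16434880) (l 16453576)) (a (l 16446136) (l 16464600))))) (b (c (b (a (l 16410984) (l 16432904)) (a (l 16420720) (l 16442536))) (a (b (l 16451400) (l 16462056)) (b (l 16471480) (l 16481920)))) (c (a (b (l 16430600) (l 16461568)) (b (l 16473256) (l 16483088))) (a (b (l 16472784) (l 16483560)) (b (l 16492408) (l 16502920)))))) (c (a (b (b (c (l 16434056) (l 16446696)) (c (l 16444288) (l 16457328))) (a (b (l 16451120) (l 16461784)) (b (l 16471352) (l 16481808)))) (b (a (b (l 16471648) (l 16481800)) (b (l 16492992) (l 16502952))) (a (b (l 16492008) (l 16502232)) (b (l 16512928) (l 16522920))))) (b (a (b (a (l 16457464) (l 16475680)) (a (l 16468848) (l 16486800))) (a (b (l 16494376) (l 16505200)) (b (l 16513448) (l 16523976)))) (a (a (l 16465016) (l 16461552)) (a (b (l 16516032)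 (l 16526840)) (b (l 16534480) (l 16544944))))))), by decide +kernel⟩

def k5_mm_202_t : ∃ t, chk3 f_mm_202_t t 27 19 1 = true :=
  ⟨(b (b (a (c (a (b (l 16454952) (l 16485432)) (b (l 16498072) (l 16507448))) (b (a (l 16491864) (l 16512528)) (a (l 16502072) (l 16522488)))) (c (a (b (l 16520328) (l 16529552)) (b (l 16542712) (l 16551768))) (b (a (l 16533456) (l 16554632)) (a (l 16543144) (l 16564040))))) (a (c (a (b (l 16495032) (l 16504704)) (b (l 16516888) (l 16526368))) (b (a (l 16512304) (l 16532440)) (a (l 16522544) (l 16542384)))) (c (b (a (l 16538816) (l 16560840)) (a (l 16548104) (l 16569912))) (b (a (l 16552816) (l 16573400)) (a (l 16562448) (l 16582704)))))) (c (a (b (a (b (l 16514416) (l 16524152)) (b (l 16535880) (l 16545392))) (b (a (l 16533904) (l 16554880)) (a (l 16543632) (l 16564344)))) (b (a (b (l 16557392) (l 16566656)) (b (l 16578960) (l 16587960))) (a (c (l 16576856) (l 16584168)) (c (l 16598192) (l 16604576))))) (b (a (b (a (l 16532776) (l 16552304)) (a (l 16542976) (l 16562168))) (b (a (l 16572024) (l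 16591928)) (a (l 16581536) (l 16601056)))) (a (b (a (l 16553144) (l 16571976)) (a (l 16563248) (l 16581704))) (b (a (l 16590960) (l 16610104)) (a (l 16600312) (l 16619064))))))), by decide +kernel⟩

def k6_mm_202_t : ∃ t, chk3 f_mm_202_t t 14 8 1 = true :=
  ⟨(b (l 1) (b (a (l 1) (a (l 1) (l 14))) (a (b (l 1) (a (l 1) (b (a (l 1) (b (c (l 16539152) (l 16552416)) (c (a (l 16547536) (l 16559592)) (l 16556808)))) (a (b (c (l 16512608) (l 16516088)) (c (l 16529696) (l 16531048))) (c (c (l 16537632) (l 16560456)) (b (l 16561224) (l 16565648))))))) (a (b (b (a (l 1) (b (a (l 1) (l 14)) (a (b (l 16580768) (l 16561832)) (l 16594360)))) (c (a (b (l 16563512) (a (l 16563896) (l 16576136))) (b (l 16590848) (l 16594760))) (a (b (l 16568408) (l 16574696)) (b (l 16593592) (l 16597880))))) (c (a (b (a (l 16548808) (l 16561064)) (b (l 16581856) (l 16585856))) (b (c (l 16599816) (l 16601544)) (c (l 16607608) (l 16609648)))) (a (b (b (l 16577064) (l 16581416)) (b (l 16585776) (l 16590144))) (b (b (l 16602168) (l 16606456)) (c (l 16611792)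 (l 16614024)))))) (b (b (b (l 14) (a (c (l 16611992) (l 16614736)) (c (l 16643056) (l 16639896)))) (a (c (c (l 16619728) (l 16618632)) (b (l 16618960) (l 16623192))) (c (c (b (l 16640368) (l 16644240)) (l 16649032)) (b (l 16644072) (l 16648240))))) (a (b (c (c (l 16628776) (l 16626656)) (a (l 16623224) (l 16635776))) (c (c (l 16638544) (l 16634704)) (a (l 16631696) (l 16644168)))) (c (b (b (c (l 16648120) (l 16649776)) (c (l 16652008) (l 16653760))) (c (a (l 16651512) (l 16664160)) (a (l 16653456) (l 16665976)))) (b (a (l 16648240) (l 16660648)) (a (l 16656544) (l 16647888)))))))))), by decide +kernel⟩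

def k7_mm_202_t : ∃ t, chk3 f_mm_202_t t 15 16 1 = true :=
  ⟨(l 14), by decide +kernel⟩

def k8_mm_202_t : ∃ t, chk3 f_mm_202_t t 30 34 1 = true :=
  ⟨(l 14), by decide +kernel⟩

def k9_mm_202_t : ∃ t, chk3 f_mm_202_t t 30 70 1 = true :=
  ⟨(b (b (l 14) (b (a (l 14) (l 14)) (a (a (c (l 16668776) (l 16665976)) (c (a (l 16682824) (l 16695848)) (a (l 16684808) (l 16697480)))) (a (c (a (l 16709032) (l 16724992)) (a (l 16710328) (l 16723392))) (a (c (a (l 16732504) (l 16739320)) (a (l 16733336) (l 16740032))) (a (c (l 16748816) (l 16746800)) (c (c (l 16753016) (l 16753248)) (c (l 16753488) (l 16753736))))))))) (a (a (c (a (c (l 16661376) (l 16662712)) (c (l 16674224) (l 16675424))) (b (a (l 16662792) (l 16675296)) (a (l 16666904) (l 16679360)))) (c (a (b (l 16685752) (l 16692264)) (b (c (l 16698368) (l 16699184)) (c (l 16702224) (l 16703080)))) (b (a (l 16687840) (l 16700480)) (a (l 16691864) (l 16704456))))) (a (c (a (c (b (l 16711616) (l 16715456)) (b (l 16712256) (l 16716128))) (b (c (l 16728944) (l 16725512)) (c (a (l 16725464)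 (l 16732200)) (l 16734592)))) (b (a (c (l 16712936) (l 16713648)) (c (l 16726040) (l 16726584))) (a (c (l 16716840) (l 16717584)) (c (l 16719400) (l 16730456))))) (a (b (c (c (a (l 16735176) (l 16742008)) (a (l 16735576) (l 16742352))) (c (a (l 16736000) (l 16742712)) (l 16729272))) (a (c (c (l 16738976) (l 16739384)) (b (l 16739080) (l 16740976))) (c (c (l 16748424) (l 16746136)) (c (l 16746488) (l 16746864))))) (a (c (b (c (b (l 16747960) (l 16749848)) (l 16743944)) (c (b (l 16751736) (l 16753616)) (b (l 16752008) (l 16753880)))) (b (c (l 16749480) (l 16749792)) (c (l 16747984) (l 16753520)))) (b (c (b (c (l 16754912) (l 16755136)) (b (l 16756432) (l 16752128))) (c (b (l 16755368) (l 16757232)) (l 16746056))) (c (a (b (l 16757048) (l 16756296)) (c (b (l 16760424) (l 16762288)) (l 16756296))) (c (a (l 16758312) (l 16761720)) (l 16754992))))))))), by decide +kernel⟩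

def k10_mm_202_t : ∃ t, chk3 f_mm_202_t t 30 142 1 = true :=
  ⟨(b (a (a (c (a (l 16667912) (l 16680672)) (a (l 16670992) (l 16683408))) (c (a (l 16696152) (c (l 16706064) (l 16706968))) (a (l 16695864) (l 16708392)))) (a (c (a (c (l 16719280) (l 16719976)) (c (a (l 16729272) (l 16735992)) (a (l 16729840) (l 16736472)))) (a (c (l 16720712) (l 16721480)) (c (a (l 16730432) (l 16736984)) (l 16734280)))) (a (a (c (c (l 16742752) (l 16743160)) (c (l 16743576) (l 16744024))) (c (c (b (l 16748624) (l 16750504)) (l 16749888)) (c (l 16750232) (l 16750584)))) (a (c (a (c (l 16754704) (l 16754976)) (b (l 16757336) (l 16753944))) (c (l 16751696) (l 16746720))) (c (c (b (a (l 16760680) (l 16764152)) (c (l 16758984) (l 16759064))) (b (l 16757344) (l 16759192))) (c (c (l 16753160) (l 16753248)) (c (l 16753344) (l 16753440)))))))) (a (a (c (c (l 16682720) (l 16684184)) (a (l 16675072) (l 16687432))) (c (a (l 16701336) (c (l 16709896) (l 16710832))) (a (l 16699832) (c (l 16711800) (l 16712824))))) (a (c (a (c (l 16723088) (l 16723800))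 (c (a (l 16733064) (l 16739760)) (a (l 16733632) (l 16740240)))) (a (c (l 16724552) (l 16725336)) (c (a (l 16734232) (l 16740744)) (l 16738056)))) (a (a (c (c (l 16749128) (l 16746904)) (c (l 16747312) (l 16747736))) (c (c (b (l 16752368) (l 16754232)) (l 16748368)) (c (l 16753928) (l 16754264)))) (a (c (b (c (l 16753976) (l 16759448)) (b (l 16755472) (l 16756392))) (c (l 16755352) (l 16750352))) (b (c (c (a (l 16764384) (l 16762608)) (l 16761016)) (c (l 16755928) (l 16756088))) (c (c (a (l 16766224) (l 16764448)) (l 16762840)) (c (l 16757728) (l 16757864))))))))), by decide +kernel⟩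

def k11_mm_202_t : ∃ t, chk3 f_mm_202_t t 60 143 1 = true :=
  ⟨(a (c (b (a (l 16675736) (l 16688456)) (a (l 16679640) (l 16692328))) (b (a (l 16679120) (l 16691432)) (a (l 16683152) (l 16695400)))) (c (a (b (c (l 16700672) (l 16701872)) (c (l 16704496) (l 16705728))) (b (c (l 16713712) (l 16714672)) (c (l 16717512) (l 16718488)))) (a (b (l 16703776) (l 16707680)) (c (b (l 16715672) (l 16719504)) (l 16708152))))), by decide +kernel⟩

def k12_mm_202_t : ∃ t, chk3 f_mm_202_t t 61 143 1 = true :=
  ⟨(a (b (c (a (c (l 16732112) (l 16727600)) (c (a (l 16736824) (l 16743512)) (a (l 16737392) (l 16743976)))) (a (c (l 16728360) (l 16729144)) (c (a (l 16737984) (l 16744472)) (l 16731304)))) (c (b (a (l 16733992) (a (l 16739904) (l 16746528))) (a (a (l 16728672) (l 16735200)) (a (l 16741768) (l 16748376)))) (a (c (l 16732128) (l 16732920)) (c (a (l 16741704) (l 16748152)) (l 16734992))))) (a (a (c (b (b (l 16744248) (c (l 16751160) (l 16751528))) (c (b (l 16753008) (l 16754848)) (l 16749040))) (c (c (l 16744872) (l 16745064)) (c (l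 16742640) (l 16742840)))) (b (c (a (c (l 16755312) (l 16755616)) (b (l 16757912) (l 16759752))) (c (l 16747096) (l 16757888))) (c (a (c (l 16753744) (l 16759264)) (b (l 16756336) (l 16758152))) (c (l 16755944) (l 16750968))))) (a (c (b (a (b (l 16756064) (l 16759200)) (c (c (l 16760256) (l 16765576)) (l 16760464))) (c (b (c (l 16761288) (l 16761360)) (c (l 16763112) (l 16763176))) (b (l 16761480) (l 16763280)))) (b (c (l 16757656) (l 16759176)) (c (b (l 16756408) (l 16758176)) (l 16761384)))) (b (b (c (c (a (l 16768064) (l 16768896)) (l 16764648)) (c (l 16759512) (l 16759632))) (c (a (c (l 16764640) (l 16769992)) (c (l 16770712) (l 16768144))) (c (l 16766536) (l 16761384)))) (c (a (c (b (l 16766456) (l 16770888)) (b (l 16766544) (l 16768320))) (b (c (c (a (l 16769024) (l 16775968)) (l 64659380071)) (l 64122508887)) (a (b (l 16775648) (c (l 16776480) (l 16776496))) (b (a (l 16777520) (c (l 122641450663) (l 16778024))) (c (l 217667600999) (l 156464318503)))))) (b (c (l 53921954535) (l 52311342087)) (a (c (l 16763144) (l 16763208))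 (a (c (l 16776080) (l 16776104)) (b (c (l 16777064) (l 16777072)) (b (l 143042545543) (l 4))))))))))), by decide +kernel⟩

def k13_mm_202_t : ∃ t, chk3 f_mm_202_t t 62 34 1 = true :=
  ⟨(l 14), by decide +kernel⟩

def k14_mm_202_t : ∃ t, chk3 f_mm_202_t t 124 140 1 = true :=
  ⟨(b (l 14) (b (l 14) (a (c (a (c (a (l 16758280) (l 16761808)) (l 16754968)) (a (b (l 16764944) (l 16765880)) (b (l 16765864) (l 16766800)))) (c (a (l 16760384) (l 16762096)) (a (l 16760568) (l 16762208)))) (a (a (c (c (c (l 16769864) (l 16767264)) (l 16769920)) (c (l 16767352) (l 16767400))) (b (c (a (l 16772112) (c (a (l 16776080) (b (l 16776736) (l 16777752))) (l 16776480))) (c (l 16775624) (l 16775640))) (a (c (l 16773704) (l 16773080)) (a (c (c (b (l 16776760) (l 16777760)) (l 16776920)) (c (l 16776928) (l 16776928))) (c (c (l 214446375319) (l 148948125191)) (c (l 148948125191) (l 148411254279))))))) (b (b (b (l 14) (b (l 14) (l 4))) (l 4)) (l 4)))))), by decide +kernel⟩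

def k15_mm_202_t : ∃ t, chk3 f_mm_202_t t 248 141 1 = true :=
  ⟨(c (b (a (c (a (b (l 16760168) (l 16762048)) (b (l 16763696) (l 16765568))) (b (l 16756840) (l 16758704))) (a (b (b (l 16766816) (l 16765128)) (b (l 16766064) (l 16766992))) (b (c (c (l 16768152) (l 16765568)) (l 16765616)) (c (c (l 16770024) (l 16767424)) (l 16767464))))) (a (b (c (a (l 16763920) (l 16764816)) (l 16760560)) (a (b (l 16765384) (l 16766312)) (b (l 16766256) (l 16767184)))) (a (b (b (l 16767920) (l 16768848)) (c (c (l 16770192) (l 16767592)) (l 16767632))) (b (c (b (l 16771432) (l 16772360)) (l 16771928)) (b (a (l 16772408) (b (l 16776536) (c (a (l 16776576) (l 83449873591)) (l 16776896)))) (a (l 16773328) (a (b (l 16776976) (l 86134227735)) (l 4)))))))) (a (b (c (c (l 16757896) (l 16757976)) (c (l 16752816) (l 16752896))) (c (b (l 16760696) (l 16762528)) (b (l 16755600) (l 16757408)))) (b (b (c (l 16763944) (l 16764040)) (c (l 16765776) (l 16765856))) (b (c (l 16767600) (l 16767656)) (b (a (l 16769888) (c (l 16775872) (l 16775888))) (a (l 16770784)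 (a (l 16773360) (a (b (l 16776984) (l 85597357431)) (l 4))))))))), by decide +kernel⟩

def k16_mm_202_t : ∃ t, chk3 f_mm_202_t t 249 141 1 = true :=
  ⟨(a (b (a (b (c (c (b (l 16771280) (l 16772208)) (l 16771776)) (c (l 16769184) (l 16769216))) (b (c (a (l 16772264) (a (l 16776216) (b (l 16776848) (a (l 16777072) (l 137673835511))))) (c (l 16775752) (l 16775768))) (a (c (l 16773184) (l 16773216)) (a (b (c (l 16776872) (l 16776880)) (c (a (l 16777096) (l 152169350087)) (l 56069455991))) (b (c (l 162369897703) (l 172033574103)) (l 4)))))) (a (b (b (c (c (a (l 16776144) (b (l 16776792) (l 16777824))) (l 16776864)) (c (l 16776544) (l 16776552))) (a (c (c (b (l 16776816) (l 48016392103)) (l 16776968)) (c (l 16776968) (l 16776976))) (b (c (l 140895061335) (l 145190028551)) (l 4)))) (a (b (b (c (l 151095608615) (l 151095608599)) (l 4)) (l 4)) (l 4))) (b (b (a (b (c (l 140895061239) (l 140358190311)) (l 4)) (l 4)) (l 4)) (l 4)))) (a (b (b (c (b (a (l 16776472) (l 246121759367)) (a (c (a (l 16776512) (l 69491229879)) (l 16776848))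 (l 4))) (c (a (l 16776648) (l 253101081335)) (a (l 16776656) (l 198877120455)))) (a (a (b (c (l 16776928) (l 16776936)) (c (c (l 79154906263) (l 16777224)) (l 70564971911))) (c (l 242900533783) (c (l 202635216183) (l 204245828919)))) (l 4))) (l 4)) (l 4))) (l 4)), by decide +kernel⟩

def k17_mm_202_t : ∃ t, chk3 f_mm_202_t t 248 142 1 = true :=
  ⟨(a (b (c (a (c (b (l 16762400) (l 16766872)) (c (l 16763408) (l 16763456))) (b (b (l 16768104) (l 16769024)) (b (l 16769936) (l 16770856)))) (b (c (l 16764344) (l 16764448)) (c (l 16766152) (l 16766232)))) (b (c (a (c (l 16768712) (l 16766168)) (c (b (l 16769120) (l 16772656)) (l 16772232))) (c (l 16767944) (l 16768000))) (b (c (a (l 16770112) (a (l 16775336) (a (l 16776616) (b (l 16777784) (l 146263770375))))) (a (l 16767616) (a (l 16775384) (c (l 16776904) (l 16776904))))) (a (c (l 16771024) (l 16768504)) (a (c (l 16775896) (l 16776248)) (a (b (c (l 16777808) (l 16777160)) (c (l 152169350439) (l 151632479511))) (l 4))))))) (b (a (c (b (c (b (l 16771584) (l 16772504)) (l 16772080))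 (b (a (l 16772560) (a (l 16776488) (b (l 16777056) (l 114051515703)))) (a (l 16774120) (a (b (l 16777080) (l 118883353943)) (l 4))))) (b (c (l 16774736) (l 16769528)) (b (c (l 16776000) (l 16776672)) (a (l 16776120) (c (l 96871647543) (l 95261033495)))))) (a (b (a (c (b (l 16776424) (b (l 16777032) (l 103850968423))) (c (l 16777416) (l 16777584))) (b (b (c (l 16777008) (l 16777008)) (c (l 93650421143) (l 90966066583))) (l 4))) (l 4)) (l 4))) (a (a (b (c (a (b (l 16776552) (b (l 16777112) (l 140895061223))) (b (b (l 16777104) (l 124252063095)) (l 4))) (b (c (l 16776856) (l 16776856)) (c (l 104924711207) (l 103850969383)))) (l 4)) (l 4)) (l 4)))), by decide +kernel⟩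

def k18_mm_202_t : ∃ t, chk3 f_mm_202_t t 248 143 1 = true :=
  ⟨(a (b (a (c (b (c (b (l 16769288) (l 61975027079)) (l 16771072)) (a (c (b (l 16770232) (l 16776352)) (l 16775928)) (b (a (l 16776744) (b (l 16777872) (l 187065959623))) (c (l 204245828087) (l 131231385847))))) (c (b (l 16775040) (a (l 16775944) (a (l 16778312) (l 125862677031)))) (b (l 16775072) (a (l 16775968) (b (l 16777000) (l 130694514919)))))) (a (b (c (a (b (l 16776680) (b (l 16777848) (l 178476025079))) (b (b (l 16777832) (l 169886090391)) (l 4))) (b (c (l 16776952) (l 16776960)) (c (l 125325805751) (l 124252063927)))) (l 4)) (l 4))) (a (a (b (b (a (c (l 16776800) (l 16776816)) (b (c (l 85597357463) (l 16777256)) (l 4))) (c (c (l 211225149991) (l 140895062231)) (c (l 143579416711) (l 143042545799)))) (l 4)) (l 4)) (l 4))) (l 4)), by decide +kernel⟩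

def k19_mm_202_t : ∃ t, chk3 f_mm_202_t t 249 71 1 = true :=
  ⟨(l 4), by decide +kernel⟩

def k20_mm_202_t : ∃ t, chk3 f_mm_202_t t 125 35 1 = true :=
  ⟨(l 4), by decide +kernel⟩

def k21_mm_202_t : ∃ t, chk3 f_mm_202_t t 63 17 1 = true :=
  ⟨(l 4), by decide +kernel⟩

def k22_mm_202_t : ∃ t, chk3 f_mm_202_t t 28 18 1 = true :=
  ⟨(b (b (a (b (a (l 1) (c (b (l 16496976) (l 16511504)) (a (l 16497792) (l 16520008)))) (a (c (a (l 16478016) (l 16494856)) (a (l 16483920) (l 16495408))) (c (l 16522880) (l 16533808)))) (b (a (c (b (l 16541576) (l 16545624)) (l 16553528)) (c (l 16567560) (l 16572312))) (a (c (l 16551752) (l 16557336)) (c (b (l 16573664) (l 16577752)) (l 16581216))))) (a (b (a (c (l 16492128) (l 16520000)) (c (l 16536424) (l 16543040))) (a (c (l 16500576) (l 16529400)) (c (l 16544832) (l 16552280)))) (c (a (b (l 16560024) (b (l 16566288) (l 16570480))) (b (c (l 16582456) (l 16585424)) (c (l 16590592) (l 16593840)))) (b (a (l 16566416) (l 16590120)) (a (l 16575472) (l 16604216)))))) (a (b (c (a (b (l 16530128) (l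 16538800)) (b (l 16553344) (l 16561920))) (b (a (l 16538816) (l 16561504)) (a (l 16548208) (l 16570680)))) (c (a (b (l 16547560) (l 16556376)) (b (c (l 16568360) (l 16572792)) (c (l 16576936) (l 16581544)))) (b (a (l 16557568) (l 16579792)) (a (l 16566864) (l 16588808))))) (b (c (b (a (b (l 16574688) (l 16578912)) (c (l 16598792) (l 16602264))) (a (c (l 16583328) (l 16587240)) (c (l 16607032) (l 16610680)))) (b (a (l 16584488) (l 16584160)) (a (l 16593424) (l 16595456)))) (c (b (a (c (l 16591728) (l 16595816)) (c (l 16615296) (l 16619056))) (a (c (l 16600160) (l 16604368)) (c (l 16623568) (l 16627376)))) (b (a (l 16602272) (l 16604008)) (a (l 16610992) (l 16612408))))))), by decide +kernel⟩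

def k23_mm_202_t : ∃ t, chk3 f_mm_202_t t 29 36 1 = true :=
  ⟨(a (b (c (a (b (c (l 16590752) (l 16593048)) (c (l 16598704) (l 16601304))) (b (c (l 16615472) (l 16617792)) (c (l 16628624) (l 16625952)))) (a (b (c (l 16595448) (l 16597968)) (c (l 16604032) (l 16606872))) (b (a (l 16615200) (l 16627656)) (a (l 16623800) (l 16636152))))) (c (a (b (c (l 16606720) (l 16609592)) (c (l 16614784) (l 16617880))) (b (c (l 16636576) (l 16634112)) (c (l 16644536) (l 16642232)))) (a (b (b (l 16611976) (l 16616304)) (b (l 16620616) (l 16624904))) (b (a (l 16632336) (l 16644576)) (a (l 16640768) (l 16652872)))))) (b (a (c (b (c (b (l 16638520) (l 16642448)) (l 16648000)) (c (b (l 16646376) (l 16650304)) (a (l 16644568) (l 16656984)))) (b (a (l 16640136) (l 16652504)) (a (l 16648520) (l 16660776)))) (c (b (c (a (l 16659312) (l 16671920)) (a (l 16661432) (l 16673888))) (c (a (l 16667104) (l 16679664)) (a (l 16669360) (l 16681736)))) (b (b (l 16647888) (l 16651960)) (a (l 16651952) (a (l 16681984) (l 16688008)))))) (c (a (b (c (a (l 16649952)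 (l 16662408)) (a (l 16652616) (l 16664944))) (a (c (l 16657824) (l 16660600)) (c (l 16670216) (l 16672832)))) (b (b (a (l 16674088) (l 16686504)) (a (l 16677984) (l 16690352))) (c (a (l 16682608) (l 16695024)) (a (l 16685016) (l 16697184))))) (a (b (a (l 16656816) (l 16668936)) (a (l 16664968) (l 16655976))) (c (b (a (l 16679688) (l 16691736)) (a (l 16687520) (l 16699424))) (b (l 16667200) (l 16674992))))))), by decide +kernel⟩

def k24_mm_202_t : ∃ t, chk3 f_mm_202_t t 29 37 1 = true :=
  ⟨(a (b (c (c (a (b (l 16622872) (l 16630984)) (b (l 16652504) (l 16660456))) (a (b (l 16626136) (l 16634360)) (b (l 16655552) (a (l 16652256) (l 16664280))))) (a (b (b (l 16629168) (l 16633392)) (c (l 16637864) (l 16641512))) (b (a (l 16649080) (l 16661024)) (a (l 16657232) (l 16669016))))) (c (a (b (c (l 16639088) (l 16642512)) (c (l 16647168) (l 16650584))) (b (b (a (l 16656648) (l 16668664)) (a (l 16660616) (l 16672568))) (a (c (l 16664992) (l 16668096)) (c (l 16676952) (l 16679840))))) (a (b (c (l 16646072) (l 16649768)) (c (l 16654128)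 (l 16657808))) (b (a (l 16665200) (l 16676808)) (b (l 16655856) (l 16659632)))))) (a (b (c (b (b (a (l 16665120) (l 16677352)) (a (l 16669040) (l 16681224))) (b (a (l 16672952) (l 16685072)) (a (l 16676840) (l 16688896)))) (b (b (l 16655976) (l 16659888)) (b (l 16663752) (l 16667560)))) (c (b (c (a (l 16681248) (l 16693336)) (a (l 16684024) (l 16695864))) (c (a (l 16688936) (l 16700896)) (a (l 16691592) (l 16703272)))) (b (c (a (l 16686904) (l 16698480)) (l 16674600)) (c (a (l 16694344) (l 16705744)) (l 16681816))))) (c (a (b (b (c (l 16690280) (l 16692688)) (c (l 16697888) (l 16700240))) (b (c (l 16705416) (l 16707640)) (c (l 16712832) (l 16714896)))) (b (b (b (l 16701776) (l 16705528)) (b (l 16709256) (l 16712944))) (b (b (l 16716608) (l 16709752)) (b (l 16713344) (l 16716896))))) (b (b (c (a (l 16695192) (l 16706936)) (l 16682560)) (c (c (l 16686928) (l 16688088)) (l 16689864))) (b (c (b (l 16692920) (l 16696472)) (l 16696920)) (c (b (l 16699960) (l 16703416)) (c (l 16703208) (l 16704248)))))))), by decide +kernel⟩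

def k25_mm_202_t : ∃ t, chk3 f_mm_202_t t 28 38 1 = true :=
  ⟨(a (b (c (b (a (l 16570472) (c (l 16585560) (l 16590280))) (a (c (l 16571472) (l 16576784)) (c (l 16594208) (l 16598976)))) (b (a (l 16576056) (l 16597704)) (a (l 16585160) (l 16606480)))) (c (c (a (b (l 16580296) (l 16589104)) (b (l 16602832) (l 16611416))) (a (l 16586200) (b (l 16607624) (l 16616192)))) (b (a (l 16594192) (l 16615160)) (a (l 16603136) (l 16623712))))) (b (c (a (b (c (l 16608616) (l 16612872)) (c (l 16617064) (l 16621312))) (b (c (l 16631832) (l 16635632)) (c (l 16640064) (l 16643784)))) (b (a (l 16619560) (l 16620624)) (a (l 16627984) (l 16628656)))) (c (a (b (c (l 16625472) (l 16629664)) (c (l 16633800) (l 16637944))) (b (c (l 16648216) (l 16651840)) (c (l 16656280) (l 16659792)))) (b (a (l 16636272) (l 16636576)) (a (l 16644456) (l 16644360)))))), by decide +kernel⟩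

def k26_mm_202_t : ∃ t, chk3 f_mm_202_t t 58 38 1 = true :=
  ⟨(b (c (c (a (b (l 16655216) (l 16663200)) (b (a (l 16672856) (l 16684688)) (a (l 16680640) (l 16692320)))) (a (b (l 16658552) (l 16666408)) (b (a (l 16675832) (l 16687424)) (a (l 16683448) (l 16694872))))) (a (b (c (l 16662008) (l 16665592)) (c (l 16669728) (l 16673184))) (b (b (l 16663360) (l 16667024)) (b (l 16670648) (l 16674248))))) (a (a (c (b (l 16645952) (l 16674696)) (b (l 16673568) (l 16681080))) (c (b (l 16662520) (l 16664880)) (c (l 16665496) (l 16689544)))) (c (b (c (a (l 16688288) (l 16699816)) (l 16675632)) (c (a (l 16695792) (l 16707136)) (l 16682904))) (b (a (l 16674128) (l 16684968)) (c (l 16685368) (l 16687928)))))), by decide +kernel⟩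

def k27_mm_202_t : ∃ t, chk3 f_mm_202_t t 59 38 1 = true :=
  ⟨(b (c (a (a (b (c (l 16696536) (l 16699016)) (c (l 16704016) (l 16706304))) (b (c (l 16708344) (l 16710536)) (c (l 16715664) (l 16717648)))) (a (b (c (l 16709640) (l 16721992)) (b (l 16715864) (l 16719344))) (b (b (l 16720408) (l 16723888)) (c (c (l 16728056) (l 16739184)) (l 16729672))))) (a (c (b (a (l 16701592) (l 16712808)) (a (l 16708672) (l 16719712))) (b (l 16688776) (l 16695552))) (b (c (b (l 16706816) (l 16710176)) (b (l 16708688) (l 16711928))) (c (c (l 16714736) (l 16715520)) (b (l 16715128) (l 16718296)))))) (c (a (a (b (c (l 16711336) (l 16713440)) (c (l 16718480) (l 16720432))) (b (b (l 16721952) (l 16725440)) (b (l 16707904) (l 16711288)))) (a (b (b (l 16722776) (l 16726160)) (b (l 16729504) (l 16732792))) (b (c (c (l 16734864) (l 16724928)) (l 16736256)) (c (b (l 16740072) (l 16743304)) (l 16742648))))) (b (a (c (c (l 16699600) (l 16700632)) (l 16702224)) (c (a (l 16716256) (l 16726928)) (b (l 16721440) (l 16724568)))) (a (c (c (l 16706384) (l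 16707344)) (l 16708816)) (a (c (l 16722696) (l 16724112)) (c (l 16733136) (l 16734152))))))), by decide +kernel⟩

def k28_mm_202_t : ∃ t, chk3 f_mm_202_t t 14 78 1 = true :=
  ⟨(c (a (a (a (b (c (l 16597880) (l 16603360)) (c (l 16606592) (l 16612088))) (b (c (l 16619936) (l 16624696)) (c (l 16628368) (l 16633104)))) (a (b (c (l 16642048) (l 16646120)) (c (l 16650176) (l 16654200))) (b (c (l 16664216) (l 16667640)) (c (l 16672008) (l 16675368))))) (a (a (b (b (l 16664992) (l 16668728)) (b (l 16672424) (l 16676080))) (c (b (a (l 16703128) (l 16714272)) (c (l 16694272) (l 16695344))) (b (l 16690024) (l 16696992)))) (a (a (c (b (l 16725416) (l 16711200)) (c (l 16714432) (l 16710096))) (b (c (l 16726016) (l 16717056)) (c (l 16732576) (l 16723488)))) (b (a (b (l 16736032) (l 16739224)) (c (b (l 16746488) (l 16749616)) (b (l 16736816) (l 16739856)))) (c (a (b (l 16731360) (l 16734496)) (b (l 16752704) (l 16755744))) (a (l 16744424) (b (l 16742832) (l 16745760)))))))) (b (a (a (a (l 16611976) (l 16632176)) (a (l 16652520) (l 16652056)))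 (a (a (a (l 16688496) (l 16677896)) (c (l 16692384) (l 16694832))) (a (c (c (l 16713008) (l 16713904)) (l 16715264)) (a (c (l 16728952) (l 16730208)) (c (l 16749624) (l 16739968)))))) (a (a (a (l 16620728) (l 16640536)) (a (l 16639544) (l 16659680))) (a (a (b (l 16678160) (l 16681776)) (c (l 16699256) (l 16701600))) (c (a (c (l 16719456) (l 16720288)) (a (l 16734968) (l 16755368))) (a (l 16721552) (a (l 16736040) (l 16755968)))))))), by decide +kernel⟩

def k29_mm_202_t : ∃ t, chk3 f_mm_202_t t 14 79 1 = true :=
  ⟨(a (a (c (c (a (l 16619504) (b (l 16636696) (l 16644896))) (a (l 16604056) (b (l 16641416) (l 16649632)))) (b (b (l 16595104) (l 16599328)) (c (l 16623880) (l 16629392)))) (a (c (b (c (l 16658168) (l 16662168)) (c (l 16666000) (l 16670016))) (b (l 16647472) (l 16655360))) (c (b (c (l 16679632) (l 16682976)) (c (l 16687096) (l 16690440))) (c (c (l 16668336) (l 16670096)) (l 16672800))))) (b (a (c (a (a (l 16676184) (l 16686776)) (c (b (l 16699968) (l 16703352)) (l 16703776))) (a (b (l 16685344) (l 16688888)) (c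 (l 16705968) (l 16708232)))) (a (c (c (a (l 16717776) (l 16738960)) (b (l 16723008) (l 16726120))) (c (c (l 16725680) (l 16726424)) (l 16732824))) (c (a (c (b (l 16748072) (l 16751112)) (l 16750392)) (b (b (l 16758184) (l 16762256)) (a (l 16759208) (b (l 16774128) (c (l 16775376) (l 16775472)))))) (b (c (l 16752064) (l 16750104)) (a (l 16753008) (c (l 16772608) (l 16772880))))))) (a (c (a (c (l 16687216) (l 16689904)) (c (b (l 16706704) (l 16710008)) (l 16715616))) (a (b (l 16692392) (l 16695840)) (c (l 16712464) (l 16714624)))) (a (b (a (c (l 16723328) (l 16726432)) (c (l 16744152) (l 16746400))) (a (c (l 16726440) (l 16729368)) (c (l 16747144) (l 16749176)))) (a (c (c (a (l 16752968) (l 16760792)) (l 16756136)) (c (l 16767200) (l 16767800))) (a (c (b (l 16767288) (a (l 16774064) (b (l 16775856) (c (l 16776912) (l 16776920))))) (b (l 16762552) (c (l 16775352) (l 16775480)))) (b (a (c (a (l 16775688) (b (l 16776272) (l 16776280))) (b (l 16775808) (l 16776864))) (a (b (c (l 16776512) (l 16776168)) (l 4)) (l 4))) (b (c (l 255248554055)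 (l 250416710807)) (l 4))))))))), by decide +kernel⟩

def k30_mm_202_t : ∃ t, chk3 f_mm_202_t t 60 36 1 = true :=
  ⟨(a (a (b (c (b (c (l 16684600) (l 16686360)) (c (l 16692288) (l 16694128))) (b (b (l 16687152) (l 16691128)) (b (l 16695072) (l 16698976)))) (c (b (b (l 16698944) (l 16702744)) (b (l 16706520) (l 16710272))) (b (c (l 16703752) (l 16705784)) (c (l 16711296) (l 16713312))))) (b (c (b (b (l 16696184) (l 16700032)) (b (l 16709096) (c (l 16706872) (l 16708456)))) (b (b (l 16699344) (l 16703248)) (c (l 16708200) (l 16709904)))) (c (c (b (b (l 16710640) (l 16714400)) (b (l 16718128) (l 16721832))) (b (l 16703632) (b (l 16719696) (l 16723368)))) (b (c (l 16705280) (l 16717480)) (b (l 16711672) (l 16715296)))))) (a (b (c (b (b (c (l 16708304) (l 16709568)) (c (l 16712096) (l 16713376))) (b (c (l 16715872) (l 16717160)) (c (l 16719624) (l 16720912)))) (b (b (l 16711552) (l 16704904)) (b (l 16708704) (c (l 16722256) (l 16723648))))) (b (c (b (c (l 16723352) (l 16724632)) (c (l 16727064) (l 16728320))) (c (b (l 16725968)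 (l 16729624)) (l 16708200))) (c (b (c (l 16730736) (l 16731960)) (b (l 16723584) (l 16725384))) (c (b (l 16733232) (l 16736784)) (l 16725816))))) (c (c (b (b (b (l 16721288) (l 16725040)) (b (l 16728776) (a (l 16729256) (l 16735712)))) (b (b (a (l 16732952) (l 16739376)) (a (l 16736616) (l 16743016))) (a (b (l 16740248) (l 16743856)) (b (l 16746624) (l 16750192))))) (b (b (b (l 16722272) (l 16726032)) (b (l 16729760) (l 16733456))) (b (b (l 16737112) (l 16740720)) (b (l 16733808) (l 16737336))))) (b (b (c (b (l 16723296) (l 16727056)) (l 16715768)) (c (b (l 16730784) (l 16734464)) (b (l 16731840) (l 16735512)))) (b (c (c (l 16729160) (l 16729648)) (b (l 16739112) (l 16742648))) (c (b (l 16734696) (l 16738160)) (c (l 16726616) (l 16727072)))))))), by decide +kernel⟩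

def k31_mm_202_t : ∃ t, chk3 f_mm_202_t t 122 36 2 = true :=
  ⟨(a (b (c (b (b (a (l 16731088) (l 16737664)) (a (l 16734816) (l 16741368))) (b (a (l 16738520) (l 16745048)) (b (l 16734040) (l 16738480)))) (b (b (l 16735104) (l 16728320)) (b (a (l 16739280) (l 16745664)) (a (l 16742920) (l 16749280))))) (a (b (b (c (l 16745824) (l 16746528)) (c (l 16749432) (l 16750088))) (b (c (l 16753008) (l 16753600)) (c (l 16751304) (l 16757072)))) (b (b (c (l 16752304) (l 16752848)) (c (l 16750632) (l 16756368))) (b (b (l 16753512) (l 16755256)) (b (l 16756992) (l 16758712)))))) (a (b (b (b (c (l 16744272) (l 16744816)) (c (l 16747952) (l 16748472))) (b (c (l 16746360) (l 16752088)) (b (l 16749304) (l 16751088)))) (b (b (b (l 16752872) (l 16754640)) (c (a (l 16760728) (l 16758728)) (l 16752200))) (c (a (b (l 16759000) (l 16762472)) (b (l 16762224) (l 16765680))) (b (l 16760880) (l 16764272))))) (b (b (b (b (l 16750208) (l 16746800)) (b (l 16748616) (l 16750432))) (c (b (a (l 16756544) (l 16759848)) (c (l 16756464) (l 16751376))) (b (l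 16748064) (l 16756848)))) (b (b (c (b (l 16759208) (l 16760976)) (l 16760344)) (c (b (l 16762728) (l 16764480)) (l 16762480))) (b (c (b (l 16766216) (l 16767936)) (b (l 16761096) (l 16762784))) (a (c (b (l 16768040) (l 16774984)) (l 16768960)) (b (a (l 16775712) (b (l 16777440) (a (l 16777136) (l 4)))) (b (a (l 16777832) (l 4)) (b (l 199950860951) (l 237531825127)))))))))), by decide +kernel⟩

def k32_mm_202_t : ∃ t, chk3 f_mm_202_t t 122 36 3 = true :=
  ⟨(b (c (a (b (b (l 16735856) (l 16729056)) (b (l 16732704) (l 16736304))) (b (b (a (l 16745384) (l 16751792)) (c (l 16741584) (l 16741832))) (b (c (l 16745160) (l 16745384)) (c (l 16748688) (l 16748888))))) (a (b (c (l 16727800) (l 16728192)) (c (l 16735056) (l 16735432))) (b (b (l 16738624) (l 16742200)) (b (l 16745728) (c (l 16749088) (l 16738816)))))) (b (a (c (b (l 16739848) (l 16743336)) (b (l 16740520) (l 16743952))) (c (a (c (l 16750744) (l 16750944)) (b (l 16755360) (l 16758736))) (a (c (l 16751136) (l 16751344)) (b (l 16755632) (l 16758936))))) (a (c (b (l 16746768)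 (l 16750144)) (b (l 16747312) (l 16750608))) (b (c (a (l 16755912) (l 16762064)) (a (l 16756192) (l 16762184))) (b (a (l 16763752) (a (l 16768272) (c (l 16777664) (a (l 16775808) (l 16776992))))) (a (l 16765376) (a (l 16769880) (a (c (l 16777040) (l 16777048)) (l 4))))))))), by decide +kernel⟩

def k33_mm_202_t : ∃ t, chk3 f_mm_202_t t 246 72 1 = true :=
  ⟨(a (b (c (c (a (b (l 16755920) (l 16754320)) (b (l 16754032) (l 16758312))) (b (l 16752672) (l 16756264))) (c (b (l 16747760) (l 16751304)) (c (l 16752400) (l 16749944)))) (c (b (c (b (l 16758688) (l 16760472)) (c (l 16754512) (l 16754624))) (c (b (l 16762256) (l 16764024)) (b (l 16757200) (l 16758936)))) (c (b (l 16754808) (l 16758256)) (b (l 16755056) (l 16758440))))) (b (b (c (c (b (l 16758168) (l 16759984)) (c (l 16759232) (l 16754096))) (c (l 16759504) (l 16754488))) (c (a (b (l 16760200) (l 16763296)) (c (c (l 16764328) (l 16764392)) (l 16764496))) (c (l 16763008) (l 16763184)))) (b (c (c (a (c (l 16764544) (l 16764608)) (b (l 16767040) (l 16768808))) (a (l 16764712)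 (l 16768000))) (c (l 16766464) (l 16766576))) (a (c (c (b (l 16767232) (l 16768992)) (l 16768192)) (c (l 16763024) (l 16763104))) (b (c (b (l 16772760) (a (l 16775432) (c (c (l 16777896) (l 16776912)) (l 16776920)))) (c (l 16775784) (l 16775816))) (a (c (b (l 16776280) (a (l 16776720) (l 85060485975))) (c (l 16776608) (l 16776624))) (a (b (c (l 80765518631) (l 77007423559)) (l 4)) (l 4)))))))), by decide +kernel⟩

def k34_mm_202_t : ∃ t, chk3 f_mm_202_t t 247 144 1 = true :=
  ⟨(a (a (c (c (b (c (l 16764120) (l 16764184)) (b (l 16766840) (l 16768624))) (b (l 16764280) (b (l 16761688) (l 16763440)))) (c (b (l 16759168) (l 16767880)) (b (l 16759304) (l 16767960)))) (b (c (c (b (l 16766648) (l 16768440)) (b (l 16761488) (l 16768504))) (c (l 16767696) (l 16767776))) (b (c (b (l 16772424) (a (l 16775088) (c (l 16777328) (l 16776680)))) (c (l 16775488) (l 16775520))) (a (c (b (l 16775968) (c (c (l 16776736) (l 16776736)) (l 16776744))) (c (l 16776352) (l 16776368))) (b (a (c (a (l 16776968) (l 72175585063)) (l 16777736)) (c (l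 179549767511) (l 182234122055))) (l 4)))))) (b (a (b (c (b (l 16772256) (a (l 16769672) (c (l 16776544) (l 16776560)))) (c (l 16775336) (l 16775376))) (a (c (b (l 16775808) (c (l 16776608) (l 16776624))) (c (l 16776216) (l 16776240))) (c (b (a (a (l 16776840) (l 16777792)) (l 150021867367)) (l 235921212103)) (c (a (l 58753813207) (l 162369898935)) (c (l 90966068071) (l 90429197159)))))) (a (b (b (a (c (c (l 16776920) (l 16776920)) (l 16776928)) (c (c (l 139821319751) (l 16778008)) (l 132305127367))) (b (c (l 219815084551) (l 164517382007)) (l 4))) (l 4)) (l 4))) (a (a (b (b (a (c (c (l 16777024) (l 16777032)) (l 16777040)) (c (l 159685543847) (l 169349220247))) (c (l 243974275831) (l 186529089943))) (l 4)) (l 4)) (l 4)))), by decide +kernel⟩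

def k35_mm_202_t : ∃ t, chk3 f_mm_202_t t 247 145 1 = true :=
  ⟨(a (b (b (a (c (b (l 16772592) (a (l 16775256) (c (c (l 16776792) (l 16776800)) (l 16776808)))) (c (l 16775640) (l 16775672))) (b (a (a (c (a (l 16777024) (l 87744841511)) (l 16778096)) (l 4)) (l 4)) (l 4))) (a (a (c (b (l 16776128) (c (c (l 16777512) (l 16776856)) (l 16776864))) (c (l 16776480) (l 16776496))) (b (a (c (a (l 16777080) (l 110830290567)) (l 16778144)) (l 4)) (l 4))) (l 4))) (a (a (b (a (b (c (a (l 16777120) (l 123715192519)) (l 64659392583)) (l 4)) (l 4)) (l 4)) (l 4)) (l 4))) (l 4)), by decide +kernel⟩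

def k36_mm_202_t : ∃ t, chk3 f_mm_202_t t 123 73 1 = true :=
  ⟨(a (b (a (c (a (b (b (l 16764216) (l 16767264)) (c (c (l 16768480) (l 16768520)) (l 16768576))) (b (c (b (l 16767432) (l 16769176)) (l 16768384)) (b (b (l 16775544) (a (l 16775784) (a (l 16776928) (l 127473289239)))) (b (a (l 16776576) (l 218741342839)) (a (a (l 16776984) (l 148948125527)) (l 4)))))) (b (c (l 16766888) (l 16767000)) (b (a (l 16767872) (c (l 16776072) (l 16776096))) (a (l 16769512) (a (c (l 16776856) (l 16776864)) (b (l 152706222615) (l 4))))))) (b (b (a (c (b (l 16772928) (a (l 16775608) (a (l 16776792) (l 100629743655)))) (c (l 16775928) (l 16775960))) (a (a (b (c (l 93113550919) (l 93650421751)) (l 4)) (l 4)) (l 4))) (a (a (c (b (l 16776432) (a (l 16776856) (l 114051516439))) (c (l 16776736) (l 16776744))) (a (b (c (l 109219678199) (l 106535323639)) (l 4)) (l 4))) (l 4))) (b (b (a (b (c (l 232699986871) (l 236458083239)) (l 4)) (l 4)) (l 4)) (l 4)))) (a (b (a (b (c (a (l 16772912) (b (l 16776648) (a (l 16777048) (l 160759285655)))) (c (l 16776216)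 (l 16777552))) (b (a (c (l 16776720) (l 16776744)) (c (l 244511146727) (l 188139702599))) (a (a (c (l 16777080) (l 16777096)) (l 4)) (l 4)))) (b (b (c (l 242900534455) (l 247732372631)) (l 4)) (l 4))) (l 4)) (l 4))) (l 4)), by decide +kernel⟩

def k37_mm_202_t : ∃ t, chk3 f_mm_202_t t 60 74 1 = true :=
  ⟨(a (a (c (b (b (l 16703512) (l 16707200)) (b (l 16709544) (c (l 16724152) (l 16725800)))) (b (c (l 16718640) (l 16720584)) (b (l 16703952) (l 16707424)))) (c (b (c (b (l 16725520) (l 16729168)) (b (l 16727000) (l 16730592))) (a (b (l 16730424) (l 16733992)) (b (l 16736496) (l 16740024)))) (c (b (l 16719832) (l 16724168)) (b (l 16731880) (l 16717720))))) (c (b (a (c (b (l 16727520) (l 16731112)) (c (l 16730128) (l 16730680))) (c (b (b (l 16739208) (l 16740976)) (b (l 16742728) (l 16744480))) (b (l 16740816) (l 16744256)))) (b (a (b (l 16734264) (l 16736008)) (c (a (l 16754448) (l 16750192)) (l 16748960))) (a (c (a (l 16745576) (l 16751736)) (l 16739056)) (a (a (l 16751424) (l 16754464)) (c (l 16758848) (l 16753984)))))) (b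 (a (c (c (l 16741720) (l 16721320)) (l 16732680)) (c (b (l 16741568) (l 16744928)) (b (l 16731864) (l 16735144)))) (a (c (c (l 16727576) (l 16728064)) (l 16739296)) (b (c (l 16748240) (l 16738360)) (c (l 16751496) (l 16752008))))))), by decide +kernel⟩

def k38_mm_202_t : ∃ t, chk3 f_mm_202_t t 60 75 1 = true :=
  ⟨(b (a (a (c (c (b (l 16727776) (l 16731368)) (l 16720624)) (b (l 16721328) (l 16724696))) (c (a (c (l 16728168) (l 16739904)) (b (l 16733024) (l 16736472))) (c (l 16730920) (l 16724288)))) (b (c (a (c (a (l 16749072) (l 16755184)) (l 16742440)) (a (b (l 16750232) (l 16751904)) (b (l 16761528) (l 16763184)))) (a (c (l 16732776) (l 16754600)) (c (l 16754696) (l 16755120)))) (c (a (c (c (l 16744904) (l 16745248)) (l 16745776)) (a (c (l 16759440) (l 16754592)) (b (l 16764816) (l 16766440)))) (c (a (l 16736016) (c (l 16757768) (l 16747440))) (a (l 16736768) (c (l 16747600) (l 16747760))))))) (a (a (c (c (b (l 16734928) (l 16738448)) (l 16727552)) (c (l 16728944) (l 16719904))) (c (c (b (l 16736432) (l 16739864)) (c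 (l 16738872) (l 16728872))) (c (c (l 16729360) (l 16729864)) (l 16741128)))) (a (c (b (c (c (l 16748320) (l 16748616)) (l 16749064)) (c (c (l 16754304) (l 16751928)) (l 16752304))) (a (c (l 16748472) (l 16738688)) (c (l 16754056) (l 16754544)))) (a (c (c (b (l 16762760) (l 16766024)) (c (l 16759336) (l 16759464))) (c (l 16762280) (l 16762544))) (b (c (b (l 16768056) (b (l 16769232) (a (l 16763320) (a (l 16776032) (l 16778504))))) (b (l 16768312) (c (l 16774928) (l 16775016)))) (a (c (b (l 16775000) (a (l 16775840) (b (l 16776824) (l 92576680615)))) (c (l 16775736) (l 16775792))) (b (c (a (b (l 16776752) (l 16778560)) (l 237531825079)) (c (l 80765522183) (l 81839263847))) (l 4)))))))), by decide +kernel⟩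

def k39_mm_202_t : ∃ t, chk3 f_mm_202_t t 244 74 1 = true :=
  ⟨(b (c (c (a (b (l 16754800) (l 16758256)) (a (b (l 16759552) (l 16762984)) (b (l 16762728) (l 16766136)))) (a (c (l 16754224) (l 16751808)) (b (l 16756176) (l 16764752)))) (b (c (l 16753464) (l 16753856)) (a (b (l 16753160) (l 16754768)) (c (l 16759712) (l 16759920))))) (b (c (b (a (l 16760976) (c (l 16767088) (l 16761976))) (a (l 16762648) (b (l 16768400) (a (l 16762440) (l 16775960))))) (c (a (l 16757008) (l 16773376)) (a (l 16746832) (l 16763008)))) (a (b (c (l 16764312) (l 16764768)) (c (c (l 16760632) (l 16760808)) (l 16766328))) (a (c (b (l 16774152) (c (l 16775712) (l 16775752))) (c (l 16775032) (l 16775104))) (a (b (c (c (l 16776376) (l 16776400)) (l 16776440)) (b (c (l 85597358791) (l 85597358679)) (l 4))) (b (b (c (l 75396808823) (l 74323069543)) (l 4)) (l 4))))))), by decide +kernel⟩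

def k40_mm_202_t : ∃ t, chk3 f_mm_202_t t 245 74 1 = true :=
  ⟨(b (a (b (c (c (b (l 16766648) (l 52848213799)) (a (l 16760816) (l 16769160))) (c (l 16762480) (l 16762600))) (a (c (b (l 16768496) (c (l 16775352) (l 16775400))) (c (l 16774664) (l 16774736))) (a (b (c (l 16776064) (l 16776128)) (b (c (a (l 16776880) (l 16778008)) (l 16778384)) (c (l 143579417143) (l 145190029783)))) (b (b (c (a (l 16776808) (l 16777312)) (l 16777024)) (c (l 132841998919) (l 131231386167))) (l 4))))) (b (a (a (b (c (l 16775888) (l 16775960)) (b (c (c (l 16776976) (l 16776984)) (l 16776992)) (c (l 119957096455) (l 118346484375)))) (b (b (c (c (l 16776912) (l 16776920)) (l 16776936)) (c (c (l 112977774855) (l 16777384)) (l 110293420615))) (l 4))) (l 4)) (l 4))) (a (b (a (a (b (c (c (l 16776216) (l 16776240)) (l 16776288)) (b (c (l 66270004599) (l 16778496)) (c (l 179549768055) (l 180086639031)))) (b (b (c (l 56606328151) (l 16778440)) (c (l 159685544327) (l 170422962551))) (l 4))) (l 4)) (l 4)) (l 4))), by decide +kernel⟩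

def k41_mm_202_t : ∃ t, chk3 f_mm_202_t t 122 75 1 = true :=
  ⟨(a (b (b (a (c (b (b (l 16767192) (l 16768008)) (b (l 16768816) (a (l 16762880) (a (l 16775632) (l 16776984))))) (c (l 16773784) (l 16773896))) (a (b (a (c (c (l 16776536) (l 16776560)) (c (l 16776576) (l 16776600))) (b (c (l 97945389703) (l 95797906039)) (l 4))) (c (b (l 205319570247) (l 4)) (l 241826790535))) (l 4))) (a (c (b (a (l 16774576) (a (b (l 16776416) (l 16777024)) (c (l 139284450375) (l 138210708551)))) (a (a (l 16775432) (c (l 16778072) (l 16776776))) (b (l 217130730455) (l 4)))) (a (c (l 16775392) (l 16775456)) (b (c (l 58216938519) (l 58753809287)) (l 284239591447)))) (l 4))) (a (b (a (b (c (a (c (l 16778144) (l 16776848)) (l 213909504823)) (c (l 71638706023) (l 68954356743))) (c (l 236458082359) (l 299808846663))) (l 4)) (l 4)) (l 4))) (l 4)), by decide +kernel⟩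

def k42_mm_202_t : ∃ t, chk3 f_mm_202_t t 123 37 1 = true :=
  ⟨(l 4), by decide +kernel⟩

def k43_mm_202_t : ∃ t, chk3 f_mm_202_t t 31 18 1 = true :=
  ⟨(l 4), by decide +kernel⟩

def k44_mm_202_t : ∃ t, chk3 f_mm_202_t t 60 152 1 = true :=
  ⟨(a (c (b (c (a (l 16741928) (l 16743256)) (a (l 16743112) (l 16744056))) (a (b (l 16734576) (l 16736256)) (c (c (l 16746432) (l 16746776)) (l 16747288)))) (a (c (l 16735480) (l 16726208)) (c (b (l 16734400) (l 16737520)) (l 16747248)))) (b (a (c (c (a (l 16752136) (l 16763304)) (l 16755496)) (c (l 16755904) (l 16745848))) (a (c (b (l 52311342391) (a (l 16773864) (c (a (l 16776016) (l 61975036535)) (l 16776568)))) (b (l 16768744) (c (l 16775296) (l 16775376)))) (a (b (a (a (c (l 16776912) (l 16776944)) (c (l 95797905575) (l 97408519431))) (l 4)) (l 4)) (l 4)))) (a (c (c (a (l 16755408) (l 16766528)) (a (l 16745304) (l 16771960))) (c (l 16758936) (l 16759248))) (a (c (a (b (l 16775416) (a (l 16776224) (a (l 16778888) (l 129620774311)))) (b (a (c (l 70564968535) (l 16777104)) (l 4))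 (l 4))) (c (a (l 16777712) (l 253101076887)) (a (b (l 16775576) (l 16776768)) (l 256322299463)))) (l 4))))), by decide +kernel⟩

def k45_mm_202_t : ∃ t, chk3 f_mm_202_t t 60 153 1 = true :=
  ⟨(a (c (b (a (b (l 16737920) (l 16739584)) (c (c (l 16749752) (l 16750040)) (l 16750480))) (a (b (l 16741224) (l 16742856)) (c (c (l 16753016) (l 16753256)) (l 16753616)))) (c (a (l 16741824) (c (l 16752464) (l 16742264))) (a (l 16732328) (b (l 16741232) (l 16744152))))) (a (c (a (c (b (l 16758624) (l 16767032)) (b (l 16758904) (l 16772448))) (a (b (c (l 16773480) (l 16773608)) (b (l 16775808) (a (l 16776584) (c (l 118346484887) (l 16776608))))) (b (b (l 16775616) (a (l 16776408) (c (l 97945390311) (l 16776864)))) (b (c (l 208003924375) (l 133915742423)) (l 4))))) (a (c (l 16760680) (l 16760928)) (b (b (l 16769168) (c (l 16775648) (l 16775720))) (a (b (l 16775912) (c (l 16776864) (l 16776776))) (c (l 266522847287) (l 263838489479)))))) (a (b (a (b (c (c (l 188676571847) (l 117809615239)) (c (l 118346486087) (l 119957098679))) (l 4))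 (l 4)) (l 4)) (l 4)))), by decide +kernel⟩

def k46_mm_202_t : ∃ t, chk3 f_mm_202_t t 60 77 1 = true :=
  ⟨(a (a (c (b (c (b (l 16744896) (l 16748128)) (b (l 16735184) (l 16738328))) (b (c (l 16751304) (l 16741416)) (c (l 16757056) (l 16754936)))) (b (c (l 16748016) (l 16748800)) (c (l 16753992) (l 16754584)))) (b (c (b (a (b (l 16752912) (l 16754480)) (c (l 16759176) (l 16748968))) (c (a (l 16756616) (l 16762288)) (l 16759736))) (c (c (l 16758472) (l 16748160)) (c (l 16758816) (l 16769480)))) (a (c (b (c (l 16759728) (l 16749520)) (b (l 16772608) (l 16774088))) (c (l 16761712) (l 16761952))) (b (b (c (a (l 16773736) (a (l 16775800) (l 16779192))) (c (l 16775168) (l 16775272))) (a (c (l 16775224) (l 16775400)) (a (c (a (l 16776856) (l 16778128)) (l 16776976)) (l 4)))) (c (b (a (a (l 16776016) (l 56069454711)) (l 4)) (b (l 255785430967) (l 282628974855))) (c (l 229478753975) (l 233773719255))))))) (a (b (a (c (b (b (b (l 16774272) (l 16774992)) (a (l 16774768) (a (l 16776744) (l 131768258567)))) (b (a (a (l 16775584) (l 16778136))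 (l 279407752935)) (a (a (l 16778872) (l 153779965783)) (l 4)))) (b (a (l 16769024) (b (l 16776096) (c (l 16776568) (l 16776336)))) (a (b (l 16776264) (c (l 16776192) (l 16775824))) (l 283702717223)))) (b (b (c (l 276723398039) (l 283165840279)) (l 4)) (l 4))) (a (b (a (c (l 291755781463) (l 287460806839)) (l 4)) (l 4)) (l 4))) (l 4))), by decide +kernel⟩

def k47_mm_202_t : ∃ t, chk3 f_mm_202_t t 60 39 1 = true :=
  ⟨(a (b (a (c (a (b (b (l 16760248) (l 16761944)) (b (b (l 16760232) (l 16772176)) (b (l 16773624) (a (l 16773752) (l 16776264))))) (b (c (b (l 16760280) (l 16773752)) (b (l 16750064) (l 16773904))) (b (a (b (l 16774696) (l 16776072)) (a (b (l 16776608) (l 125325807495)) (l 254711688807))) (b (b (l 228405011799) (l 254711686807)) (l 280481486903))))) (c (b (a (l 16767688) (l 16762208)) (a (l 16762696) (b (a (l 16775504) (l 83986738871)) (l 245584876023)))) (b (a (l 16768160) (l 16762440)) (a (l 16762920) (b (a (l 16775600) (l 84523609639)) (l 243974260599)))))) (a (b (b (a (c (c (l 16774888) (l 16774984)) (l 16769904))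 (b (a (c (l 16776224) (l 16776312)) (c (l 74323065751) (l 16778888))) (a (c (l 84523618279) (l 16778944)) (l 4)))) (a (c (b (a (l 16776424) (l 92576682039)) (l 255248560439)) (c (l 73786196727) (l 75396809207))) (l 4))) (l 4)) (l 4))) (a (a (b (b (a (c (b (l 16775176) (l 16776448)) (c (l 16775896) (l 16775976))) (c (b (c (l 79691775095) (l 16776056)) (l 282092102839)) (c (l 105998456759) (l 105998456679)))) (b (c (l 249342979191) (l 245048004807)) (l 4))) (l 4)) (l 4)) (l 4))) (l 4)), by decide +kernel⟩

def k48_mm_202_t : ∃ t, chk3 f_mm_202_t t 61 19 1 = true :=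
  ⟨(l 4), by decide +kernel⟩

def k49_mm_202_t : ∃ t, chk3 f_mm_202_t t 31 19 1 = true :=
  ⟨(l 4), by decide +kernel⟩

def k50_mm_202_t : ∃ t, chk3 f_mm_202_t t 12 10 1 = true :=
  ⟨(b (a (l 6) (a (b (a (l 6) (b (l 6) (b (l 6) (l 16386648)))) (c (b (c (l 16448000) (l 16469608)) (c (l 16470800) (l 16493192))) (b (l 16461560) (l 16486376)))) (b (b (c (a (l 16397776) (l 16416640)) (a (l 16455480) (l 16471456))) (c (a (l 16441200) (l 16459592)) (a (l 16479592) (l 16494920)))) (c (b (c (l 16484464) (l 16502928)) (c (l 16506176) (l 16525336))) (b (l 16468976) (l 16513456)))))) (a (a (b (l 6) (c (b (l 6) (l 16473816)) (l 16466000))) (b (c (b (l 16431736) (l 16455072)) (b (l 16486784) (l 16511672))) (c (b (l 16477664) (l 16499336)) (l 16495144)))) (b (a (b (c (l 16441752) (l 16510672)) (c (l 16463840) (l 16534328))) (c (b (c (l 16527328) (l 16547216)) (c (l 16547704) (l 16568304))) (b (l 16536464) (l 16558648)))) (b (a (c (l 16485088) (l 16557040)) (c (c (l 16567184) (l 16588416)) (l 16579728))) (a (c (l 16505336) (l 16599472))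 (c (l 16533520) (l 16620184))))))), by decide +kernel⟩

def k51_mm_202_t : ∃ t, chk3 f_mm_202_t t 26 10 1 = true :=
  ⟨(a (c (b (b (b (a (l 16446408) (b (l 16492296) (l 16502784))) (b (l 16461704) (l 16472288))) (b (b (l 16482832) (l 16493320)) (b (l 16503736) (l 16514008)))) (b (b (b (l 16524080) (l 16533936)) (b (l 16543568) (l 16552952))) (b (b (l 16562072) (l 16570912)) (b (l 16579456) (l 16587672))))) (b (b (b (b (l 16490712) (l 16501968)) (b (l 16513184) (l 16524336))) (b (b (l 16535456) (l 16546544)) (l 16521176))) (b (b (c (l 16575840) (l 16593816)) (l 16563400)) (c (l 16581888) (l 16613768))))) (c (c (b (b (b (a (l 16511528) (l 16532456)) (a (l 16531672) (l 16552032))) (b (a (l 16551576) (l 16571288)) (a (l 16571032) (l 16590024)))) (b (b (l 16557024) (l 16595408)) (b (l 16611872) (l 16627112)))) (b (b (b (a (l 16523760) (l 16543376)) (l 16532944)) (b (l 16553016) (l 16572760))) (b (b (l 16591736) (l 16609656)) (b (l 16626304) (l 16641400))))) (b (b (b (a (l 16501040) (l 16518592)) (b (l 16525584) (l 16557016)))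 (b (c (l 16565968) (l 16579376)) (c (l 16586376) (l 16600472)))) (b (b (b (l 16587464) (l 16597184)) (l 16590008)) (b (l 16627920) (l 16638440)))))), by decide +kernel⟩

def k52_mm_202_t : ∃ t, chk3 f_mm_202_t t 27 10 1 = true :=
  ⟨(c (c (b (b (a (b (a (l 16553352) (l 16574184)) (a (l 16572336) (l 16592536))) (b (a (l 16594960) (l 16615664)) (b (l 16597440) (l 16605968)))) (a (b (a (l 16590896) (l 16610384)) (a (l 16608920) (l 16627648))) (b (b (l 16614344) (l 16622568)) (b (l 16630656) (l 16638544))))) (b (a (b (l 16593272) (l 16609152)) (b (a (l 16661960) (l 16658672)) (b (l 16660664) (l 16667472)))) (a (b (l 16623928) (l 16637496)) (b (a (l 16669048) (l 16684984)) (a (l 16681448) (l 16696560)))))) (b (b (a (b (a (l 16563056) (l 16582744)) (a (l 16582384) (l 16601408))) (a (b (l 16602456) (l 16620432)) (b (l 16622192) (l 16639448)))) (a (b (a (l 16601432) (l 16619728)) (l 16586920)) (b (b (l 16621952) (l 16630408)) (b (l 16638696) (l 16646744))))) (b (a (b (l 16604248) (l 16620328)) (b (b (l 16654488) (l 16661896)) (a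 (l 16664592) (l 16679952)))) (a (b (l 16635032) (l 16690144)) (b (b (l 16681928) (l 16708864)) (a (l 16710536) (l 16723928))))))) (b (b (a (b (a (l 16536336) (l 16554240)) (b (l 16559960) (l 16590664))) (a (b (l 16572280) (l 16590752)) (b (b (l 16627992) (l 16636872)) (b (l 16645744) (l 16654528))))) (b (a (b (l 16579440) (l 16589104)) (b (l 16612912) (l 16621720))) (a (b (l 16598680) (l 16608064)) (c (l 16630176) (l 16638872))))) (b (a (b (a (l 16614104) (l 16653504)) (c (l 16631896) (l 16685792))) (b (c (l 16645872) (l 16675744)) (b (l 16660960) (l 16677968)))) (c (a (b (l 16688464) (l 16680240)) (b (l 16693072) (a (l 16718432) (l 16728928)))) (a (b (l 16691616) (l 16693376)) (b (l 16691464) (l 16695240))))))), by decide +kernel⟩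

def k53_mm_202_t : ∃ t, chk3 f_mm_202_t t 6 22 1 = true :=
  ⟨(a (c (a (b (c (a (l 16510888) (l 16515256)) (b (l 16523744) (l 16586024))) (b (a (l 16515432) (l 16536448)) (b (l 16518296) (l 16526696)))) (a (b (b (l 16524472) (l 16542328)) (b (l 16558752) (l 16594920))) (b (c (b (l 16603192) (l 16619424)) (l 16570008)) (b (l 16582040) (l 16616808))))) (a (b (c (l 16545632) (l 16523144)) (a (l 16499648) (l 16529664))) (b (a (a (l 16581232) (l 16589544)) (a (l 16577328) (l 16591256))) (a (c (l 16636480) (l 16588592)) (b (l 16622656) (l 16623760)))))) (a (b (c (a (c (b (l 16611440) (l 16626128)) (b (l 16650208) (l 16664456))) (b (c (l 16641320) (l 16676192)) (c (l 16654440) (l 16688672)))) (a (c (l 16629848) (l 16611360)) (b (c (l 16688304) (l 16673936)) (c (l 16690312) (l 16655512))))) (c (a (b (l 16616616) (l 16629160)) (b (a (l 16666680) (l 16679264)) (a (l 16678208) (l 16690112)))) (a (b (l 16622688) (l 16625232)) (b (c (l 16693176) (l 16659024)) (a (l 16663704) (l 16654888)))))) (b (a (c (b (c (l 16650032) (l 16702064))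 (b (l 16663672) (l 16669184))) (b (a (l 16675440) (l 16686320)) (c (l 16710464) (l 16679872)))) (b (c (c (a (l 16692896) (l 16728360)) (l 16717208)) (c (l 16707048) (l 16721464))) (c (a (a (l 16703672) (l 16710160)) (b (l 16738496) (l 16743136))) (c (l 16722704) (l 16724456))))) (c (c (a (b (l 16714776) (l 16714560)) (b (a (l 16734648) (l 16747792)) (a (l 16743928) (l 16745928)))) (a (b (l 16723328) (l 16727824)) (b (c (l 16723920) (l 16742752)) (c (l 16729760) (l 16748840))))) (c (a (b (l 16714872) (l 16720096)) (b (a (l 16732808) (l 16745632)) (a (l 16739176) (l 16752768)))) (a (b (l 16685032) (l 16691096)) (b (a (l 16705944) (l 16720648)) (a (l 16713216) (l 16728728))))))))), by decide +kernel⟩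

def k54_mm_202_t : ∃ t, chk3 f_mm_202_t t 12 23 1 = true :=
  ⟨(a (a (b (c (a (l 16554408) (l 16562736)) (c (l 16595704) (l 16559656))) (c (l 16570848) (l 16514432))) (b (c (a (l 16571576) (l 16580728)) (a (l 16553280) (l 16564784))) (c (c (l 16653712) (l 16645928)) (c (l 16596608) (l 16588048))))) (a (b (b (c (l 16609216) (l 16613128)) (c (l 16643624) (l 16583112))) (b (c (l 16653912) (l 16585488)) (c (l 16676464) (l 16588760)))) (c (c (b (l 16647624) (l 16671344)) (b (l 16678360) (l 16683376))) (b (c (l 16658336) (l 16616520)) (c (l 16623064) (l 16603944)))))), by decide +kernel⟩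

def k55_mm_202_t : ∃ t, chk3 f_mm_202_t t 26 23 1 = true :=
  ⟨(b (c (a (b (l 16651368) (l 16662272)) (b (a (l 16709904) (l 16700168)) (a (l 16717456) (l 16705552)))) (a (c (b (l 16657752) (l 16661664)) (a (l 16636744) (l 16650560))) (c (b (l 16680448) (l 16685776)) (b (l 16668856) (l 16675120))))) (c (a (b (l 16666160) (l 16680640)) (b (c (l 16729688) (l 16722088)) (b (l 16709488) (l 16712256)))) (a (c (b (l 16666368) (l 16671832)) (a (l 16647312) (l 16662568))) (c (b (l 16691856) (l 16698656)) (b (l 16682216) (l 16690112)))))), by decide +kernel⟩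

def k56_mm_202_t : ∃ t, chk3 f_mm_202_t t 27 23 1 = true :=
  ⟨(b (c (c (a (b (a (l 16728488) (l 16740544)) (a (l 16737616) (l 16749024))) (b (a (l 16752480) (b (l 16762400) (l 16766104))) (a (l 16738744) (a (l 16747160) (b (l 16772288) (l 57680022791)))))) (a (b (l 16732936) (l 16738728)) (b (a (l 16750152) (l 16741640)) (a (l 16756984) (b (l 16768216) (l 54458791815)))))) (a (b (c (l 16726104) (l 16687544)) (c (l 16732856) (b (l 16703776) (l 16707856)))) (b (c (a (l 16746296) (l 16760632)) (a (l 16721320) (l 16758576))) (a (c (l 16754136) (l 16751176)) (c (a (l 16765360) (l 53921919559)) (b (l 16765744) (l 16749720))))))) (a (c (c (b (a (l 16744728) (l 16755008)) (a (l 16750408) (l 16761328))) (b (l 16745160) (a (l 16745800) (l 16758760)))) (b (c (l 16740328) (b (l 16712128) (l 16716592))) (c (a (l 16720024) (l 16756080)) (c (l 16724616) (l 16722640))))) (a (b (c (b (l 16753032) (c (l 16767848) (l 16766408))) (c (l 16762664) (l 16760816))) (c (b (b (l 16769936) (l 46942617335)) (a (l 16771464) (c (l 140895033767) (l 143042497815))))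 (c (c (l 55532512567) (l 54995641191)) (c (l 53921898231) (l 52848154919))))) (a (b (b (c (l 16773008) (l 16771784)) (c (c (c (l 83449831239) (l 16750512)) (l 81839217703)) (c (l 16776744) (l 16745072)))) (a (b (b (c (l 16753024) (l 16752720)) (l 4)) (l 4)) (l 4))) (b (b (c (c (l 194582134887) (l 154853647959)) (c (l 157001132631) (l 158611745735))) (l 4)) (l 4)))))), by decide +kernel⟩

def k57_mm_202_t : ∃ t, chk3 f_mm_202_t t 28 20 1 = true :=
  ⟨(a (b (b (c (c (a (l 16615328) (b (l 16652936) (l 16660832))) (a (l 16620992) (l 16640776))) (a (b (l 16646544) (l 16655080)) (b (l 16644312) (l 16652416)))) (c (a (b (l 16630456) (l 16638488)) (b (l 16650064) (l 16657696))) (b (a (l 16663528) (l 16660432)) (a (l 16650912) (l 16668256))))) (b (c (c (a (l 16647184) (l 16666256)) (a (l 16653384) (l 16671464))) (c (a (l 16659808) (l 16676848)) (a (l 16666456) (l 16682416)))) (c (c (a (l 16662160) (l 16675176)) (a (l 16668560) (l 16685672))) (a (b (l 16674832) (l 16682248)) (b (l 16690448) (l 16697248)))))) (a (b (b (c (b (c (l 16673680)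 (l 16677736)) (c (l 16681184) (l 16685312))) (b (l 16663128) (l 16670808))) (c (b (l 16664392) (l 16676848)) (c (l 16679720) (l 16684200)))) (b (b (c (l 16683880) (l 16692584)) (c (l 16688104) (l 16699384))) (c (c (b (l 16695320) (l 16701736)) (l 16700024)) (c (l 16706872) (l 16711232))))) (b (c (b (b (a (l 16690944) (l 16680152)) (b (l 16680448) (l 16683968))) (c (b (l 16687512) (l 16694312)) (a (l 16689528) (l 16698944)))) (b (c (c (l 16682960) (l 16684736)) (l 16687448)) (c (c (l 16696816) (l 16698552)) (l 16701224)))) (b (c (b (c (l 16700920) (l 16704136)) (c (l 16707344) (l 16710456))) (c (b (l 16707456) (l 16713672)) (l 16713984))) (c (b (c (l 16713560) (l 16716544)) (c (l 16719520) (l 16722304))) (c (b (l 16719624) (l 16746160)) (l 16736008))))))), by decide +kernel⟩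

def k58_mm_202_t : ∃ t, chk3 f_mm_202_t t 58 40 1 = true :=
  ⟨(a (c (b (c (b (l 16694128) (l 16700872)) (b (l 16696768) (l 16703432))) (b (c (l 16707432) (l 16709896)) (c (b (l 16712224) (l 16715360)) (l 16716136)))) (b (c (b (l 16699504) (l 16706088)) (b (l 16702328) (l 16708840))) (b (c (l 16712448) (l 16715088)) (c (l 16718560) (l 16721056))))) (b (c (a (c (c (l 16717648) (l 16713400)) (c (l 16714408) (l 16715432))) (b (b (l 16719296) (l 16722416)) (c (l 16726240) (l 16727760)))) (c (b (l 16718720) (l 16724736)) (a (l 16719160) (b (l 16725272) (l 16730952))))) (b (c (c (a (l 16722328) (l 16742744)) (b (l 16727416) (l 16730336))) (c (a (l 16725960) (l 16734936)) (l 16753136))) (c (a (c (l 16728368) (l 16729960)) (c (l 16748552) (l 16739152))) (c (l 16741224) (l 16737424)))))), by decide +kernel⟩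

def k59_mm_202_t : ∃ t, chk3 f_mm_202_t t 59 40 1 = true :=
  ⟨(b (b (a (c (b (a (l 16739976) (l 16750080)) (a (l 16742984) (c (l 16742112) (l 16742856)))) (c (a (l 16732960) (l 16763264)) (a (l 16734328) (l 16764128)))) (a (a (c (c (l 16761416) (l 16769704)) (c (l 16770144) (l 16770600))) (c (b (l 16767832) (a (l 16774568) (b (l 16776272) (c (l 80228651047) (l 16775944))))) (b (l 16773544) (c (l 16775744) (l 16775856))))) (a (c (b (a (c (b (l 16776040) (l 16779240)) (l 16776568)) (l 255248555095)) (l 270817815015)) (c (c (l 230552489719) (l 230015617751)) (c (l 229478745783) (l 229478744727)))) (l 4)))) (a (c (c (a (l 16746856) (a (l 16754400) (l 16769896))) (a (l 16737432) (l 16757456))) (c (c (l 16742864) (l 16743288)) (c (l 16743720) (l 16744160)))) (a (a (c (b (l 16768360) (a (l 16775064) (b (l 16776656) (l 108145939543)))) (b (l 16774048) (c (l 16776120) (l 16776216)))) (b (b (a (c (l 16776472) (l 16776576)) (c (l 271891553911) (l 181697253959))) (a (c (l 92039809607) (l 96334779047)) (l 4))) (l 4))) (l 4)))) (a (b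 (c (a (b (l 16751656) (l 16754432)) (a (c (l 16760016) (l 16770904)) (b (l 16771496) (a (l 16775536) (b (l 16779536) (l 143042548535)))))) (b (c (l 16757432) (l 16758088)) (a (l 16755976) (a (l 16772712) (a (l 16775760) (b (l 16776928) (l 140895064999))))))) (a (c (c (b (l 16746368) (l 16770072)) (l 16758752)) (b (l 16758400) (l 16760752))) (a (b (c (c (l 16774528) (l 16774704)) (l 59290665719)) (a (c (b (l 16775424) (l 16776576)) (l 16776160)) (b (c (l 84523619319) (l 16777952)) (c (l 176865415831) (l 180086641287))))) (b (c (b (l 231626236167) (l 263301612951)) (c (l 233773713623) (l 126936413623))) (l 4))))) (a (b (a (a (b (b (c (l 16776840) (l 16776904)) (c (l 122641454215) (l 126936421127))) (l 4)) (l 4)) (l 4)) (l 4)) (l 4)))), by decide +kernel⟩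

def k60_mm_202_t : ∃ t, chk3 f_mm_202_t t 58 41 1 = true :=
  ⟨(c (b (a (b (c (b (l 16718448) (l 16721480)) (l 16722152)) (c (b (l 16724464) (l 16727400)) (l 16727936))) (b (a (c (l 16734192) (l 16735568)) (b (l 16753208) (l 16755880))) (c (a (l 16750296) (a (l 16767696) (l 16772304))) (a (l 16761896) (l 16760024))))) (a (c (a (b (l 16727160) (l 16732744)) (b (l 16736192) (l 16762512))) (b (l 16754432) (l 16756992))) (a (b (c (l 16766160) (l 16766976)) (b (l 16759824) (a (l 16770616) (l 16774784)))) (b (a (b (l 16771824) (l 16774272)) (b (a (l 16775088) (b (l 16776560) (l 97408521207))) (a (c (l 68954342535) (l 16776240)) (l 4)))) (a (b (a (l 16775584) (b (l 16776944) (l 129620775991))) (c (l 227868136567) (l 121567709815))) (l 4)))))) (b (a (c (a (l 16723088) (l 16736600)) (c (l 16728912) (l 16730048))) (b (c (l 16746440) (l 16752856)) (c (l 16761848) (l 16760096)))) (b (a (c (l 16756264) (l 16758152)) (b (a (l 16767144) (c (l 16774288) (l 16774568))) (a (l 16758872) (a (l 16774760) (c (l 105461587399) (l 107072199831))))))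 (a (c (l 16761144) (l 16741752)) (c (a (l 16772240) (b (l 214983233927) (l 232163085335))) (a (l 16772744) (c (l 219278190919) (l 219278189991)))))))), by decide +kernel⟩

def k61_mm_202_t : ∃ t, chk3 f_mm_202_t t 59 41 1 = true :=
  ⟨(a (b (a (c (b (b (a (l 16770600) (b (l 16774536) (l 16775704))) (a (l 16773168) (a (b (l 16775912) (l 16776944)) (l 237531814855)))) (b (a (a (l 16774560) (c (l 16776552) (l 16776608))) (a (l 241289909751) (l 4))) (a (a (b (l 16776352) (l 16779840)) (l 244511133719)) (l 4)))) (b (b (b (l 16772944) (l 59827532103)) (a (l 16773760) (c (l 70028086087) (l 71638698503)))) (b (a (b (l 16775360) (l 16776312)) (l 252027327255)) (c (l 227868125095) (l 226794380935))))) (b (a (b (a (b (c (l 99019134087) (l 102240359175)) (l 4)) (l 4)) (l 4)) (l 4)) (l 4))) (a (b (a (b (c (l 257932898167) (l 255248538711)) (l 4)) (l 4)) (l 4)) (l 4))) (l 4)), by decide +kernel⟩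

def k62_mm_202_t : ∃ t, chk3 f_mm_202_t t 28 42 1 = true :=
  ⟨(b (a (c (b (a (l 16675976) (l 16692952)) (a (l 16682664) (l 16699144))) (a (a (l 16668032) (l 16685584)) (b (l 16703592) (l 16709440)))) (c (b (a (c (l 16707856) (l 16711712)) (a (l 16722240) (l 16737080))) (a (c (l 16713648) (l 16717248)) (b (l 16735568) (l 16751208)))) (a (c (l 16718344) (l 16722312)) (b (b (l 16730400) (l 16732768)) (b (l 16735024) (l 16737184)))))) (a (c (a (b (l 16689016) (l 16695008)) (b (l 16704976) (l 16710528))) (a (b (l 16701784) (l 16707272)) (b (l 16714760) (l 16719376)))) (a (c (b (c (l 16719192) (l 16743448)) (c (l 16724488) (l 16748392))) (c (l 16738752) (l 16728064))) (b (c (c (l 16756640) (l 16758456)) (a (l 16737128) (l 16753848))) (c (c (l 16758984) (l 16763040)) (c (l 16764528) (l 16763776))))))), by decide +kernel⟩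

def k63_mm_202_t : ∃ t, chk3 f_mm_202_t t 28 43 1 = true :=
  ⟨(a (b (c (a (c (l 16700808) (l 16727272)) (b (l 16715816) (c (l 16719080) (l 16743776)))) (a (b (l 16710456) (l 16733776)) (b (l 16721952) (l 16724712)))) (c (c (a (l 16732624) (b (l 16724184) (l 16750072))) (a (l 16737376) (l 16729808))) (a (c (l 16740000) (l 16735296)) (c (l 16730800) (l 16748680))))) (a (b (c (b (a (l 16748080) (l 16755608)) (c (l 16755536) (l 16757696))) (c (l 16747304) (l 16745000))) (b (c (b (l 16749560) (l 16751784)) (c (l 16762568) (l 16760848))) (c (c (l 16751760) (l 16745224)) (c (l 16766008) (l 16764696))))) (a (c (c (b (b (l 16762424) (l 16767104)) (b (l 16771600) (a (l 16774048) (b (l 16776472) (l 114051455623))))) (b (l 16760768) (b (l 16772184) (b (l 16775000) (l 117272726199))))) (b (c (l 16746000) (l 16744824)) (a (c (l 16751456) (l 16761392)) (b (l 16768472) (c (l 152169303415) (l 152706175383)))))) (b (c (b (c (l 16770312) (l 16770976)) (a (l 16769168) (b (l 16775648) (b (l 64659376167) (l 114588336599))))) (c (b (l 16771584)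 (l 86671076023)) (b (l 16770936) (l 66806808151)))) (b (c (b (a (l 89355439543) (l 238605545815)) (b (l 217130721895) (l 234847443671))) (c (l 208540779223) (a (l 53921914487) (l 238605532967)))) (l 4)))))), by decide +kernel⟩

def k64_mm_202_t : ∃ t, chk3 f_mm_202_t t 29 21 1 = true :=
  ⟨(a (b (a (c (b (c (b (a (l 16738048) (l 16767600)) (a (l 16764088) (a (l 16770400) (b (l 16773408) (l 16775656))))) (b (a (l 16760504) (l 16768392)) (a (l 16765208) (l 59827525175)))) (a (b (c (l 16768976) (l 16769712)) (b (l 16762240) (a (l 16773024) (b (l 16776192) (l 66806870503))))) (b (a (b (l 16774120) (a (l 16775368) (c (l 16776760) (l 16776752)))) (c (c (l 220351941911) (l 219815070375)) (l 218741327639))) (b (c (l 226794393815) (l 225183768583)) (l 4))))) (c (b (b (l 16744696) (l 50700705927)) (a (b (l 16770464) (l 16754584)) (b (a (l 16775424) (b (l 92576685047) (l 181697256903))) (l 225720628647)))) (b (b (l 16745608) (a (l 16766760) (l 16773440))) (a (b (l 16770320) (l 50163830279)) (b (b (l 52311298743) (l 205856428167)) (l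 224110013319)))))) (b (a (c (b (a (b (l 16773000) (l 69491213143)) (b (a (l 16776040) (a (l 85597352039) (l 148411259383))) (l 231089363399))) (a (b (c (a (l 16776432) (l 133915743943)) (l 74323053079)) (l 235384322103)) (l 4))) (b (b (c (l 89892306791) (l 87744822951)) (a (l 16775624) (c (l 142505680343) (l 143042551191)))) (c (l 223036297191) (b (l 218741321495) (l 246121718807))))) (l 4)) (l 4))) (a (b (a (b (c (a (b (l 16775168) (a (l 16776312) (l 114588387639))) (b (l 221425683751) (l 4))) (c (a (l 16776232) (l 223573157047)) (a (l 16755416) (l 241826783783)))) (b (b (c (l 238605539335) (l 237531793431)) (l 4)) (l 4))) (l 4)) (l 4)) (l 4))) (l 4)), by decide +kernel⟩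

def k65_mm_202_t : ∃ t, chk3 f_mm_202_t t 15 10 1 = true :=
  ⟨(l 4), by decide +kernel⟩

def k66_mm_202_t : ∃ t, chk3 f_mm_202_t t 28 44 1 = true :=
  ⟨(a (a (b (c (b (l 16721392) (l 16726080)) (c (l 16745584) (l 16741632))) (c (b (l 16730568) (a (l 16752656) (l 16758992))) (c (l 16751976) (l 16748864)))) (b (c (c (b (l 16754808) (l 16759352)) (l 16751544)) (c (l 16737224) (l 16734936))) (c (c (b (l 16763720) (l 16757416)) (c (l 16745904) (l 16745448))) (c (l 16754920) (l 16758760))))) (a (b (b (c (a (l 16755792) (b (l 16772080) (l 16763552))) (c (l 16769648) (l 16768768))) (a (c (c (l 16769920) (l 16770768)) (l 16764344)) (c (c (a (l 16775112) (l 207467041863)) (b (l 16754928) (l 115662076903))) (c (c (l 55532511847) (l 54995641111)) (c (l 54458770375) (l 16735024)))))) (b (b (a (c (l 16773264) (l 16772680)) (a (c (c (l 114051464951) (l 16773264)) (l 114051463671)) (l 4))) (a (c (a (l 16773552) (l 56069423015)) (l 51774453015)) (l 4))) (a (c (a (b (l 16775400) (l 57680030455)) (c (l 212835743607) (l 171496650151))) (c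 (c (l 115662046087) (l 115662045927)) (c (l 115662046087) (l 16731864)))) (l 4)))) (b (a (b (c (c (b (l 209077655159) (l 232163086743)) (l 211762008663)) (c (l 211761996791) (l 211225124487))) (l 4)) (l 4)) (l 4)))), by decide +kernel⟩

def k67_mm_202_t : ∃ t, chk3 f_mm_202_t t 28 45 1 = true :=
  ⟨(a (b (a (c (c (a (l 16757584) (l 16753608)) (l 16750776)) (c (l 16759144) (l 16756944))) (c (a (b (l 16758672) (l 16769432)) (b (c (c (l 56069409463) (l 16754088)) (l 54458795735)) (a (b (l 16776336) (l 112440853783)) (l 226257529271)))) (b (c (l 52311306007) (l 51237567639)) (a (l 16766240) (c (c (l 114051425671) (l 114588296535)) (c (l 114588296487) (l 115125167367))))))) (a (c (b (b (l 16766288) (l 16746984)) (c (l 16765424) (l 16770096))) (c (l 16761816) (a (l 16761728) (l 16769952)))) (a (c (b (a (l 16774704) (b (l 16766280) (l 110830236423))) (c (l 203708946231) (l 203708934647))) (b (c (l 76470507095) (l 16744432)) (c (l 164517316327) (l 166127929943)))) (l 4)))) (b (b (b (a (a (c (l 226257506375) (l 226794374055)) (l 4))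 (l 4)) (l 4)) (l 4)) (l 4))), by decide +kernel⟩

def k68_mm_202_t : ∃ t, chk3 f_mm_202_t t 28 23 1 = true :=
  ⟨(b (a (a (b (a (c (b (l 16770968) (c (l 16759040) (l 16774480))) (c (l 16750880) (l 50700704535))) (a (b (c (b (l 16774752) (l 16776592)) (l 54458813975)) (b (c (l 110830242487) (l 111903984103)) (l 4))) (b (b (c (l 112977730935) (l 113514601927)) (l 4)) (l 4)))) (a (b (c (b (l 140895042023) (l 197803360983)) (c (l 113514569335) (l 151632427239))) (a (c (l 215520092151) (c (l 117809535287) (l 119957018455))) (l 4))) (l 4))) (l 4)) (l 4)) (l 4)), by decide +kernel⟩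

def k69_mm_202_t : ∃ t, chk3 f_mm_202_t t 29 11 1 = true :=
  ⟨(l 4), by decide +kernel⟩

def k70_mm_202_t : ∃ t, chk3 f_mm_202_t t 15 11 1 = true :=
  ⟨(l 4), by decide +kernel⟩

def k71_mm_202_t : ∃ t, chk3 f_mm_202_t t 4 6 1 = true :=
  ⟨(l 6), by decide +kernel⟩

def k72_mm_202_t : ∃ t, chk3 f_mm_202_t t 10 6 1 = true :=
  ⟨(a (b (l 6) (a (b (l 6) (b (l 6) (c (l 16504800) (l 16381584)))) (b (b (l 6) (c (l 16513952) (l 16392664))) (c (b (l 16499112) (l 16529120)) (b (l 16403352) (l 16417464)))))) (a (b (l 6) (b (c (c (l 16518080) (l 16506408)) (b (l 16417624) (l 16426208))) (c (b (l 16501664) (l 16532872)) (b (l 16438592) (l 16454192))))) (b (b (l 6) (c (c (l 16535152) (l 16503832)) (b (l 6) (l 16443640)))) (b (c (c (l 16516632) (l 16447504)) (b (l 16450176) (l 16460640))) (b (c (l 16504760) (l 16453664)) (c (l 16537176) (l 16449776))))))), by decide +kernel⟩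

def k73_mm_202_t : ∃ t, chk3 f_mm_202_t t 11 6 1 = true :=
  ⟨(b (b (b (a (a (l 6) (c (l 16573096) (l 16477208))) (c (a (l 16568120) (l 16563976)) (a (l 16482832) (l 16489448)))) (a (c (c (l 16605136) (l 16537136)) (c (l 16508880) (l 16457592))) (c (c (l 16636104) (l 16557608)) (c (l 16519368) (l 16479528))))) (c (a (c (b (l 16602640) (l 16602880)) (b (l 16557344) (l 16559680))) (b (c (l 16637248) (a (l 16590944) (l 16614528))) (c (l 16640936) (a (l 16596064) (l 16621544))))) (a (b (c (l 16509944) (l 16460576)) (c (l 16514488) (l 16467448))) (a (b (l 16469008) (c (l 16559568) (l 16521576))) (b (c (l 16581296) (l 16546704)) (c (l 16590888) (l 16558984))))))) (b (c (c (a (b (l 16585352) (l 16571248)) (b (a (l 16636888) (l 16637616)) (a (l 16646064) (l 16648168)))) (a (b (l 16565448) (l 16532816)) (b (a (l 16604488) (l 16631856)) (a (l 16616272) (l 16645144))))) (c (a (b (l 16522696) (l 16513600)) (b (a (l 16570616) (l 16603912)) (a (l 16585120) (l 16620048)))) (a (b (l 16478200) (l 16429824)) (b (a (l 16535360) (l 16574824))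 (a (l 16552696) (l 16593928)))))) (c (c (a (b (l 16601944) (l 16613584)) (b (a (l 16657648) (l 16660960)) (b (l 16638072) (l 16645328)))) (a (b (l 16524200) (l 16517800)) (b (a (l 16630672) (l 16660872)) (a (l 16647024) (l 16657408))))) (a (b (c (l 16486736) (a (l 16490264) (l 16531200))) (c (a (l 16549368) (l 16585280)) (a (l 16510304) (l 16552720)))) (a (b (c (l 16602456) (l 16573072)) (c (l 16622048) (l 16596032))) (b (b (l 16580240) (l 16590992)) (b (l 16581320) (l 16593160)))))))), by decide +kernel⟩

def k74_mm_202_t : ∃ t, chk3 f_mm_202_t t 4 14 1 = true :=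
  ⟨(a (l 6) (a (a (l 6) (b (l 6) (b (c (l 16460568) (l 16321688)) (c (l 16473752) (l 16341712))))) (b (c (b (l 16393520) (l 16383184)) (b (c (l 16377496) (l 16307424)) (c (l 16392432) (l 16325360)))) (c (b (c (l 16529544) (l 16471136)) (c (l 16542384) (l 16487456))) (b (c (l 16409952) (l 16346248)) (c (l 16429872) (l 16369896))))))), by decide +kernel⟩

def k75_mm_202_t : ∃ t, chk3 f_mm_202_t t 5 14 1 = true :=
  ⟨(b (a (c (c (a (b (l 16554008) (l 16565192)) (b (l 16599912) (l 16612960))) (a (b (l 16500560) (l 16514792)) (b (l 16558160) (l 16574496)))) (c (a (b (l 16444592) (l 16462000)) (b (l 16514440) (l 16534216))) (a (b (l 16386352) (l 16407048)) (b (l 16468928) (l 16492264))))) (c (a (c (b (l 16605936) (l 16599800)) (b (a (l 16602888) (l 16633632)) (a (l 16620752) (l 16652472)))) (a (b (b (l 16650328) (l 16658928)) (c (l 16680800) (l 16663984))) (b (c (l 16669952) (l 16655608)) (b (l 16718808) (l 16728536))))) (b (a (c (a (l 16568664) (l 16605784)) (a (l 16533032) (l 16576784))) (a (b (l 16605640) (l 16617920)) (c (l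 16640584) (l 16624920)))) (a (c (a (l 16590136) (l 16628344)) (a (l 16558248) (l 16603200))) (a (b (l 16630712) (l 16623016)) (c (l 16644224) (l 16632640))))))) (a (c (c (b (a (l 16578088) (l 16627568)) (a (l 16592592) (l 16622672))) (a (b (l 16531072) (l 16549256)) (b (l 16592704) (l 16570712)))) (c (a (b (l 16481792) (l 16503824)) (b (l 16535192) (l 16517248))) (a (b (l 16430488) (l 16456488)) (b (l 16497128) (l 16483376))))) (c (a (b (c (l 16616040) (a (l 16640336) (l 16672936))) (c (l 16696496) (a (l 16661528) (l 16673936)))) (b (a (c (l 16719160) (l 16685288)) (b (l 16738584) (l 16748928))) (a (b (l 16728152) (l 16738776)) (b (l 16759520) (a (l 16762496) (l 78617971111)))))) (a (b (c (a (l 16613624) (l 16652800)) (a (l 16585784) (l 16631816))) (c (a (l 16639000) (l 16658072)) (a (l 16615512) (l 16662496)))) (b (a (c (l 16650776) (l 16636672)) (c (l 16722920) (b (l 16697384) (l 16734120)))) (a (b (l 16665624) (l 16712160)) (b (c (l 16754048) (l 16750200)) (a (l 16756392) (l 77007352967))))))))), by decide +kernel⟩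

def k76_mm_202_t : ∃ t, chk3 f_mm_202_t t 2 30 1 = true :=
  ⟨(b (a (a (l 6) (c (a (l 16411680) (c (l 16556808) (l 16505672))) (a (c (l 16378072) (l 16310256)) (c (l 16452024) (l 16396128))))) (a (a (c (c (l 16608560) (l 16569208)) (c (l 16527912) (l 16484880))) (c (b (l 16548480) (l 16568984)) (c (l 16511664) (l 16492776)))) (a (c (c (a (l 16701384) (l 16729056)) (c (l 16662792) (l 16655592))) (c (b (l 16637544) (l 16651600)) (c (l 16591056) (l 16583216)))) (a (c (b (l 16749680) (l 16760720)) (b (l 16738128) (c (l 16755520) (l 16751864)))) (a (b (c (l 16772976) (l 16749800)) (c (l 84523535799) (l 83986659751))) (b (c (l 113514571031) (l 87207869063)) (l 4))))))) (a (a (a (l 6) (a (l 6) (c (l 16447016) (l 16307984)))) (c (a (l 16385760) (c (l 16572384) (l 16525264))) (a (c (l 16400024) (l 16336336)) (c (l 16475792) (l 16424224))))) (a (c (a (c (l 16625536) (l 16590360)) (c (l 16637400) (l 16614880))) (a (c (l 16553424) (l 16514904)) (c (l 16549272) (l 16524584)))) (a (c (c (l 16734816) (l 16704272)) (c (a (l 16673440) (l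 16735920)) (a (l 16680360) (l 16728960)))) (a (a (c (b (l 16764112) (l 16774528)) (b (l 16758600) (l 16751800))) (b (c (l 16741944) (l 81302321015)) (l 4))) (l 4)))))), by decide +kernel⟩

def k77_mm_202_t : ∃ t, chk3 f_mm_202_t t 2 31 1 = true :=
  ⟨(b (a (a (a (l 6) (c (l 16448264) (l 16280104))) (c (a (c (l 16534520) (l 16480376)) (c (l 16589000) (l 16546104))) (a (c (l 16423488) (l 16364160)) (c (l 16501032) (l 16454024))))) (a (c (a (c (l 16643416) (l 16612592)) (c (l 16698496) (l 16617544))) (a (b (l 16493120) (l 16508120)) (c (l 16577600) (l 16536832)))) (a (c (a (l 16736688) (b (l 16762696) (a (l 16766472) (l 16750232)))) (a (b (l 16690288) (l 16727592)) (b (l 16735400) (a (l 16761872) (l 16749440))))) (a (a (b (c (l 88281632407) (l 87744757207)) (l 4)) (l 4)) (l 4))))) (a (a (c (a (l 16404912) (l 16465456)) (a (l 16253056) (l 16337416))) (c (a (l 16400584) (c (l 16606728) (l 16568280))) (a (c (l 16448768) (l 16394104)) (c (l 16527856) (l 16485664))))) (a (c (a (b (l 16602120) (l 16613048)) (c (l 16718656) (l 16705288)))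 (a (b (l 16523536) (l 16539360)) (a (c (l 16670384) (l 16652144)) (c (l 16691248) (l 16680192))))) (a (a (c (b (l 16754104) (l 16765368)) (b (l 16744240) (l 16739048))) (a (b (c (l 16775360) (l 16774472)) (c (l 16743360) (l 16763088))) (l 4))) (l 4))))), by decide +kernel⟩

def k78_mm_202_t : ∃ t, chk3 f_mm_202_t t 12 12 1 = true :=
  ⟨(b (c (a (b (c (a (l 16659280) (l 16674432)) (b (l 16638160) (l 16597880))) (a (c (l 16661016) (l 16611416)) (c (l 16678224) (l 16633808)))) (b (a (c (l 16690192) (l 16669680)) (c (l 16685832) (l 16691168))) (a (c (l 16696088) (l 16635792)) (b (l 16684800) (l 16689952))))) (a (b (c (a (l 16596856) (l 16622328)) (a (l 16563616) (l 16594600))) (c (a (l 16602448) (l 16609304)) (a (l 16571272) (l 16604760)))) (b (c (a (l 16627272) (a (l 16647104) (l 16660608))) (a (l 16604952) (b (l 16654544) (l 16661336)))) (c (a (b (l 16655720) (l 16661592)) (c (l 16670104) (l 16662976))) (a (l 16596640) (b (l 16668928) (l 16677264))))))) (c (a (a (b (c (l 16664992) (l 16638640)) (c (l 16671360) (l 16647576)))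 (b (c (l 16684152) (l 16642128)) (c (l 16692376) (l 16653016)))) (b (b (a (l 16693760) (c (l 16722280) (l 16689824))) (a (l 16698888) (c (l 16727760) (l 16696664)))) (b (a (l 16704576) (c (l 16733752) (l 16704072))) (a (l 16700568) (c (l 16740456) (l 16712200)))))) (a (a (b (c (l 16611080) (l 16582384)) (c (l 16622704) (l 16596824))) (b (c (l 16599160) (l 16597224)) (c (b (l 16651104) (l 16658696)) (l 16592840)))) (b (a (c (b (l 16668144) (l 16675320)) (b (l 16650168) (l 16658792))) (c (b (l 16677832) (l 16686088)) (c (l 16652096) (l 16646112)))) (a (c (c (l 16669936) (l 16662936)) (b (l 16668136) (l 16678288))) (c (b (l 16694968) (l 16683608)) (b (l 16685504) (l 16675688)))))))), by decide +kernel⟩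

def k79_mm_202_t : ∃ t, chk3 f_mm_202_t t 26 24 1 = true :=
  ⟨(b (c (a (b (c (l 16722344) (l 16710920)) (c (l 16726976) (l 16695696))) (b (c (l 16741000) (l 16734208)) (c (a (l 16741640) (l 16752080)) (l 16741168)))) (a (c (b (l 16678032) (l 16684928)) (b (l 16665624) (l 16673728))) (c (b (l 16695664) (c (l 16715800) (l 16712800))) (b (l 16688296) (a (l 16720376) (l 16716992)))))) (c (a (b (c (l 16732136) (l 16702024)) (c (l 16737784) (l 16708920))) (b (c (a (l 16747656) (l 16758680)) (l 16748688)) (c (a (l 16754152) (l 16765752)) (a (l 16749824) (l 16763728))))) (a (b (c (l 16692488) (l 16682560)) (c (l 16700680) (l 16671136))) (c (b (l 16744056) (a (l 16724336) (l 16761616))) (b (c (l 16719488) (l 16717040)) (b (l 16726280) (l 16721328))))))), by decide +kernel⟩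

def k80_mm_202_t : ∃ t, chk3 f_mm_202_t t 27 24 1 = true :=
  ⟨(b (a (a (c (b (c (l 16756624) (l 16753120)) (c (l 16763352) (l 16761016))) (b (c (l 16728504) (l 16724704)) (c (l 16758576) (l 16756048)))) (b (c (b (l 16755080) (c (l 16769976) (l 16768816))) (c (l 16765216) (l 16742672))) (a (c (b (l 16770016) (l 56606297351)) (c (l 16770776) (l 16769904))) (b (c (c (l 60901245943) (l 16776720)) (c (l 16776488) (l 16776240))) (b (c (l 106535258679) (l 108145870167)) (l 4)))))) (b (a (b (b (c (a (l 16774424) (l 206930156487)) (c (l 113514561447) (l 114051431591))) (a (c (l 59290643127) (l 56606288087)) (l 4))) (a (c (a (l 110830255463) (l 4)) (c (l 110293346471) (l 111367087639))) (l 4))) (l 4)) (l 4))) (a (b (a (c (b (l 16768016) (c (l 16756752) (l 16771624))) (c (l 25467774775) (a (l 16762344) (l 16750704)))) (a (c (b (c (l 109756490535) (l 16748152)) (l 198340217879)) (c (b (l 16774224) (l 114051427047)) (b (l 16753096) (l 116198909367)))) (l 4))) (a (a (c (c (b (l 16773096) (l 16755992)) (l 59290630199)) (c (l 16753080)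 (l 58216888935))) (a (b (c (l 109219635399) (l 109756505415)) (l 4)) (l 4))) (l 4))) (l 4))), by decide +kernel⟩

def k81_mm_202_t : ∃ t, chk3 f_mm_202_t t 13 25 1 = true :=
  ⟨(a (b (a (c (b (c (l 16743896) (l 16737312)) (c (l 16750416) (l 16745216))) (c (b (l 16688504) (l 16739792)) (b (l 16681352) (c (l 16714608) (l 16711728))))) (c (c (a (b (l 16761088) (l 16768464)) (b (c (a (l 16770440) (l 63048722103)) (l 59827492279)) (a (b (l 16775960) (l 104387777767)) (l 190824016039)))) (a (b (l 16758088) (l 16766832)) (b (c (l 59290620199) (l 60364364087)) (c (l 174717905431) (l 175254775799))))) (c (a (b (l 16754952) (l 16765128)) (b (a (l 16767552) (l 60901233863)) (a (l 63585580471) (l 194582108727)))) (a (b (l 16751688) (l 16742392)) (b (c (l 16747296) (l 16749448)) (b (a (l 16774872) (l 112440819255)) (l 151632407079))))))) (a (c (b (c (a (l 16751360) (l 16763576)) (l 16753680)) (a (c (l 16758696) (l 16755152)) (b (l 16768656) (a (l 16769480) (l 63585610039))))) (c (b (l 16744488) (a (l 16751456) (l 16768920))) (b (b (l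 16721736) (l 16727640)) (a (l 16726640) (l 18488449111))))) (a (b (c (c (b (l 60901246439) (a (l 16775000) (l 108682738263))) (b (l 16752584) (l 104387765559))) (c (c (l 61974958935) (l 61438087127)) (b (l 16751112) (l 106535245703)))) (a (b (c (l 100629687367) (c (l 16772192) (l 16771936))) (l 4)) (l 4))) (l 4)))) (b (a (b (a (a (a (b (c (l 104387788583) (l 104924658055)) (l 4)) (l 4)) (l 4)) (l 4)) (l 4)) (l 4)) (l 4))), by decide +kernel⟩

def k82_mm_202_t : ∃ t, chk3 f_mm_202_t t 12 26 1 = true :=
  ⟨(c (a (b (a (b (l 16625400) (l 16631568)) (b (l 16692432) (l 16699376))) (a (b (l 16638376) (l 16645640)) (b (l 16706880) (l 16714768)))) (b (a (b (c (l 16702648) (l 16691648)) (c (l 16709664) (l 16700112))) (b (c (l 16747736) (l 16741896)) (c (l 16755368) (l 16751048)))) (a (b (c (l 16738000) (l 16708992)) (c (l 16745704) (l 16739256))) (b (a (l 16754872) (b (l 16766840) (l 16771320))) (a (l 16763816) (c (b (l 16754976) (l 93113479111)) (l 67880538983))))))) (c (a (b (a (l 16616640) (b (l 16667120) (l 16676248))) (a (l 16603064)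 (b (l 16686000) (l 16696248)))) (b (a (b (l 16680152) (l 16690128)) (b (l 16693856) (l 16746528))) (a (b (l 16700592) (l 16711536)) (b (l 16757640) (a (l 16760040) (l 66806794983)))))) (a (a (b (l 16614656) (l 16593632)) (b (b (l 16649368) (l 16660024)) (b (l 16671352) (l 16683256)))) (b (a (b (l 16689152) (l 16679736)) (b (l 16687504) (b (l 16717712) (l 16745000)))) (b (a (l 16691848) (a (l 16723200) (l 16765096))) (a (l 16704512) (a (l 16757392) (c (l 94187212695) (l 16732184))))))))), by decide +kernel⟩

def k83_mm_202_t : ∃ t, chk3 f_mm_202_t t 12 27 1 = true :=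
  ⟨(a (c (b (a (c (l 16664824) (l 16649600)) (b (l 16723040) (l 16731680))) (a (c (l 16722056) (l 16668224)) (b (l 16740680) (l 16750000)))) (b (a (c (b (l 16670408) (l 16680984)) (b (l 16652960) (l 16665272))) (c (b (l 16706992) (l 16697232)) (c (l 16662824) (l 16657536)))) (a (c (b (l 16692040) (l 16703560)) (b (l 16678136) (l 16691536))) (b (c (l 16708880) (l 16701280)) (c (l 16741936) (l 16736264)))))) (b (a (c (b (c (l 16753744) (l 16748936)) (c (l 16762064) (l 16758944))) (b (c (l 16743904) (l 16733424)) (c (l 16755680) (l 16741792)))) (a (b (c (c (l 66269955095) (l 16751376)) (c (l 16771336) (l 60901228759))) (c (c (l 89355363447) (l 87744748375)) (c (l 86671004183) (l 84523518455)))) (a (b (b (c (l 103314038919) (l 103314036247)) (l 4)) (l 4)) (l 4)))) (a (a (c (b (l 16762616) (b (l 16769816) (l 16753456))) (b (l 16746416) (b (l 16766864) (l 16757224)))) (b (c (c (l 70028034759) (l 69491161063)) (c (l 16744224) (l 68417416599))) (b (c (l 100092786727) (l 99019040999)) (l 4)))) (l 4)))), by decide +kernel⟩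

def k84_mm_202_t : ∃ t, chk3 f_mm_202_t t 13 13 1 = true :=
  ⟨(b (a (a (b (b (b (c (a (l 16763336) (c (l 65733070327) (l 64659326871))) (a (l 16758256) (c (l 16744824) (l 61438098551)))) (a (c (l 16767688) (l 16764200)) (a (c (l 100092823815) (l 100629692775)) (l 4)))) (a (c (c (c (l 64122462807) (l 16748136)) (l 64122458935)) (c (l 63585587079) (c (l 16751376) (l 16750944)))) (a (b (c (l 105461510215) (l 107608990839)) (l 4)) (l 4)))) (b (a (a (b (c (l 16755352) (l 64122476151)) (c (l 104387775175) (l 105461514103))) (l 4)) (l 4)) (l 4))) (l 4)) (l 4)) (l 4)), by decide +kernel⟩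

def k85_mm_202_t : ∃ t, chk3 f_mm_202_t t 7 6 1 = true :=
  ⟨(l 4), by decide +kernel⟩

def k86_mm_202_t : ∃ t, chk3 f_mm_202_t t 3 7 1 = true :=
  ⟨(a (b (a (b (a (b (c (a (b (l 16729848) (l 16739352)) (b (c (l 16761280) (l 16757912)) (a (l 16761960) (c (l 16745088) (l 16754976))))) (a (b (b (l 16686288) (l 16671896)) (c (l 16706928) (l 16698872))) (b (c (l 16754376) (l 16750696)) (a (l 16755832) (c (l 16775344) (l 16732776)))))) (a (c (b (l 16749176) (l 16759264)) (c (b (l 16740688) (l 16753808)) (a (l 16688688) (l 16732888)))) (a (b (c (l 48016347527) (c (l 16769904) (l 16768608))) (a (c (l 16751456) (l 74323013799)) (l 4))) (a (b (c (l 79691706599) (l 78617960967)) (l 4)) (l 4))))) (b (a (a (b (c (b (l 86134165319) (l 98482178279)) (c (l 107609004087) (l 106535261943))) (l 4)) (l 4)) (l 4)) (l 4))) (a (a (b (c (b (c (l 53385047159) (l 16747136)) (c (l 79154810103) (l 94187241191))) (c (b (l 16745200) (l 77007319799)) (b (l 25467747447) (l 75933574855)))) (a (a (b (c (l 16774184) (l 16752704)) (l 4)) (l 4)) (l 4))) (l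 4)) (l 4))) (l 4)) (l 4)) (l 4)), by decide +kernel⟩

theorem s87_mm_202_t : ∃ t, chk3 f_mm_202_t t 12 13 1 = true := ex3_b k82_mm_202_t k83_mm_202_t

theorem s88_mm_202_t : ∃ t, chk3 f_mm_202_t t 6 13 1 = true := ex3_a s87_mm_202_t k84_mm_202_t

theorem s89_mm_202_t : ∃ t, chk3 f_mm_202_t t 13 24 1 = true := ex3_a k79_mm_202_t k80_mm_202_t

theorem s90_mm_202_t : ∃ t, chk3 f_mm_202_t t 13 12 1 = true := ex3_b s89_mm_202_t k81_mm_202_t

theorem s91_mm_202_t : ∃ t, chk3 f_mm_202_t t 6 12 1 = true := ex3_a k78_mm_202_t s90_mm_202_t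

theorem s92_mm_202_t : ∃ t, chk3 f_mm_202_t t 6 6 1 = true := ex3_b s91_mm_202_t s88_mm_202_t

theorem s93_mm_202_t : ∃ t, chk3 f_mm_202_t t 3 6 1 = true := ex3_a s92_mm_202_t k85_mm_202_t

theorem s94_mm_202_t : ∃ t, chk3 f_mm_202_t t 3 3 1 = true := ex3_b s93_mm_202_t k86_mm_202_t

theorem s95_mm_202_t : ∃ t, chk3 f_mm_202_t t 2 15 1 = true := ex3_b k76_mm_202_t k77_mm_202_t

theorem s96_mm_202_t : ∃ t, chk3 f_mm_202_t t 2 14 1 = true := ex3_a k74_mm_202_t k75_mm_202_t

theorem s97_mm_202_t : ∃ t, chk3 f_mm_202_t t 2 7 1 = true := ex3_b s96_mm_202_t s95_mm_202_t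

theorem s98_mm_202_t : ∃ t, chk3 f_mm_202_t t 5 6 1 = true := ex3_a k72_mm_202_t k73_mm_202_t

theorem s99_mm_202_t : ∃ t, chk3 f_mm_202_t t 2 6 1 = true := ex3_a k71_mm_202_t s98_mm_202_t

theorem s100_mm_202_t : ∃ t, chk3 f_mm_202_t t 2 3 1 = true := ex3_b s99_mm_202_t s97_mm_202_t

theorem s101_mm_202_t : ∃ t, chk3 f_mm_202_t t 1 3 1 = true := ex3_a s100_mm_202_t s94_mm_202_t

theorem s102_mm_202_t : ∃ t, chk3 f_mm_202_t t 28 22 1 = true := ex3_b k66_mm_202_t k67_mm_202_t

theorem s103_mm_202_t : ∃ t, chk3 f_mm_202_t t 28 11 1 = true := ex3_b s102_mm_202_t k68_mm_202_t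

theorem s104_mm_202_t : ∃ t, chk3 f_mm_202_t t 14 11 1 = true := ex3_a s103_mm_202_t k69_mm_202_t

theorem s105_mm_202_t : ∃ t, chk3 f_mm_202_t t 7 11 1 = true := ex3_a s104_mm_202_t k70_mm_202_t

theorem s106_mm_202_t : ∃ t, chk3 f_mm_202_t t 28 21 1 = true := ex3_b k62_mm_202_t k63_mm_202_t

theorem s107_mm_202_t : ∃ t, chk3 f_mm_202_t t 14 21 1 = true := ex3_a s106_mm_202_t k64_mm_202_t

theorem s108_mm_202_t : ∃ t, chk3 f_mm_202_t t 29 41 1 = true := ex3_a k60_mm_202_t k61_mm_202_t

theorem s109_mm_202_t : ∃ t, chk3 f_mm_202_t t 29 40 1 = true := ex3_a k58_mm_202_t k59_mm_202_t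

theorem s110_mm_202_t : ∃ t, chk3 f_mm_202_t t 29 20 1 = true := ex3_b s109_mm_202_t s108_mm_202_t

theorem s111_mm_202_t : ∃ t, chk3 f_mm_202_t t 14 20 1 = true := ex3_a k57_mm_202_t s110_mm_202_t

theorem s112_mm_202_t : ∃ t, chk3 f_mm_202_t t 14 10 1 = true := ex3_b s111_mm_202_t s107_mm_202_t

theorem s113_mm_202_t : ∃ t, chk3 f_mm_202_t t 7 10 1 = true := ex3_a s112_mm_202_t k65_mm_202_t

theorem s114_mm_202_t : ∃ t, chk3 f_mm_202_t t 7 5 1 = true := ex3_b s113_mm_202_t s105_mm_202_t

theorem s115_mm_202_t : ∃ t, chk3 f_mm_202_t t 13 23 1 = true := ex3_a k55_mm_202_t k56_mm_202_t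

theorem s116_mm_202_t : ∃ t, chk3 f_mm_202_t t 6 23 1 = true := ex3_a k54_mm_202_t s115_mm_202_t

theorem s117_mm_202_t : ∃ t, chk3 f_mm_202_t t 6 11 1 = true := ex3_b k53_mm_202_t s116_mm_202_t

theorem s118_mm_202_t : ∃ t, chk3 f_mm_202_t t 13 10 1 = true := ex3_a k51_mm_202_t k52_mm_202_t

theorem s119_mm_202_t : ∃ t, chk3 f_mm_202_t t 6 10 1 = true := ex3_a k50_mm_202_t s118_mm_202_t

theorem s120_mm_202_t : ∃ t, chk3 f_mm_202_t t 6 5 1 = true := ex3_b s119_mm_202_t s117_mm_202_t

theorem s121_mm_202_t : ∃ t, chk3 f_mm_202_t t 3 5 1 = true := ex3_a s120_mm_202_t s114_mm_202_t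

theorem s122_mm_202_t : ∃ t, chk3 f_mm_202_t t 60 76 1 = true := ex3_b k44_mm_202_t k45_mm_202_t

theorem s123_mm_202_t : ∃ t, chk3 f_mm_202_t t 60 38 1 = true := ex3_b s122_mm_202_t k46_mm_202_t

theorem s124_mm_202_t : ∃ t, chk3 f_mm_202_t t 60 19 1 = true := ex3_b s123_mm_202_t k47_mm_202_t

theorem s125_mm_202_t : ∃ t, chk3 f_mm_202_t t 30 19 1 = true := ex3_a s124_mm_202_t k48_mm_202_t

theorem s126_mm_202_t : ∃ t, chk3 f_mm_202_t t 15 19 1 = true := ex3_a s125_mm_202_t k49_mm_202_t

theorem s127_mm_202_t : ∃ t, chk3 f_mm_202_t t 122 74 1 = true := ex3_a k39_mm_202_t k40_mm_202_t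

theorem s128_mm_202_t : ∃ t, chk3 f_mm_202_t t 122 37 1 = true := ex3_b s127_mm_202_t k41_mm_202_t

theorem s129_mm_202_t : ∃ t, chk3 f_mm_202_t t 61 37 1 = true := ex3_a s128_mm_202_t k42_mm_202_t

theorem s130_mm_202_t : ∃ t, chk3 f_mm_202_t t 60 37 1 = true := ex3_b k37_mm_202_t k38_mm_202_t

theorem s131_mm_202_t : ∃ t, chk3 f_mm_202_t t 30 37 1 = true := ex3_a s130_mm_202_t s129_mm_202_t

theorem s132_mm_202_t : ∃ t, chk3 f_mm_202_t t 247 72 1 = true := ex3_b k34_mm_202_t k35_mm_202_t

theorem s133_mm_202_t : ∃ t, chk3 f_mm_202_t t 123 72 1 = true := ex3_a k33_mm_202_t s132_mm_202_t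

theorem s134_mm_202_t : ∃ t, chk3 f_mm_202_t t 123 36 1 = true := ex3_b s133_mm_202_t k36_mm_202_t

theorem s135_mm_202_t : ∃ t, chk3 f_mm_202_t t 122 36 1 = true := ex3_c k31_mm_202_t k32_mm_202_t

theorem s136_mm_202_t : ∃ t, chk3 f_mm_202_t t 61 36 1 = true := ex3_a s135_mm_202_t s134_mm_202_t

theorem s137_mm_202_t : ∃ t, chk3 f_mm_202_t t 30 36 1 = true := ex3_a k30_mm_202_t s136_mm_202_t

theorem s138_mm_202_t : ∃ t, chk3 f_mm_202_t t 30 18 1 = true := ex3_b s137_mm_202_t s131_mm_202_t

theorem s139_mm_202_t : ∃ t, chk3 f_mm_202_t t 15 18 1 = true := ex3_a s138_mm_202_t k43_mm_202_t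

theorem s140_mm_202_t : ∃ t, chk3 f_mm_202_t t 15 9 1 = true := ex3_b s139_mm_202_t s126_mm_202_t

theorem s141_mm_202_t : ∃ t, chk3 f_mm_202_t t 14 39 1 = true := ex3_b k28_mm_202_t k29_mm_202_t

theorem s142_mm_202_t : ∃ t, chk3 f_mm_202_t t 29 38 1 = true := ex3_a k26_mm_202_t k27_mm_202_t

theorem s143_mm_202_t : ∃ t, chk3 f_mm_202_t t 14 38 1 = true := ex3_a k25_mm_202_t s142_mm_202_t

theorem s144_mm_202_t : ∃ t, chk3 f_mm_202_t t 14 19 1 = true := ex3_b s143_mm_202_t s141_mm_202_t

theorem s145_mm_202_t : ∃ t, chk3 f_mm_202_t t 29 18 1 = true := ex3_b k23_mm_202_t k24_mm_202_t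

theorem s146_mm_202_t : ∃ t, chk3 f_mm_202_t t 14 18 1 = true := ex3_a k22_mm_202_t s145_mm_202_t

theorem s147_mm_202_t : ∃ t, chk3 f_mm_202_t t 14 9 1 = true := ex3_b s146_mm_202_t s144_mm_202_t

theorem s148_mm_202_t : ∃ t, chk3 f_mm_202_t t 7 9 1 = true := ex3_a s147_mm_202_t s140_mm_202_t

theorem s149_mm_202_t : ∃ t, chk3 f_mm_202_t t 248 71 1 = true := ex3_b k17_mm_202_t k18_mm_202_t

theorem s150_mm_202_t : ∃ t, chk3 f_mm_202_t t 124 71 1 = true := ex3_a s149_mm_202_t k19_mm_202_t

theorem s151_mm_202_t : ∃ t, chk3 f_mm_202_t t 124 141 1 = true := ex3_a k15_mm_202_t k16_mm_202_t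

theorem s152_mm_202_t : ∃ t, chk3 f_mm_202_t t 124 70 1 = true := ex3_b k14_mm_202_t s151_mm_202_t

theorem s153_mm_202_t : ∃ t, chk3 f_mm_202_t t 124 35 1 = true := ex3_b s152_mm_202_t s150_mm_202_t

theorem s154_mm_202_t : ∃ t, chk3 f_mm_202_t t 62 35 1 = true := ex3_a s153_mm_202_t k20_mm_202_t

theorem s155_mm_202_t : ∃ t, chk3 f_mm_202_t t 62 17 1 = true := ex3_b k13_mm_202_t s154_mm_202_t

theorem s156_mm_202_t : ∃ t, chk3 f_mm_202_t t 31 17 1 = true := ex3_a s155_mm_202_t k21_mm_202_t

theorem s157_mm_202_t : ∃ t, chk3 f_mm_202_t t 30 143 1 = true := ex3_a k11_mm_202_t k12_mm_202_t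

theorem s158_mm_202_t : ∃ t, chk3 f_mm_202_t t 30 71 1 = true := ex3_b k10_mm_202_t s157_mm_202_t

theorem s159_mm_202_t : ∃ t, chk3 f_mm_202_t t 30 35 1 = true := ex3_b k9_mm_202_t s158_mm_202_t

theorem s160_mm_202_t : ∃ t, chk3 f_mm_202_t t 30 17 1 = true := ex3_b k8_mm_202_t s159_mm_202_t

theorem s161_mm_202_t : ∃ t, chk3 f_mm_202_t t 15 17 1 = true := ex3_a s160_mm_202_t s156_mm_202_t

theorem s162_mm_202_t : ∃ t, chk3 f_mm_202_t t 15 8 1 = true := ex3_b k7_mm_202_t s161_mm_202_t

theorem s163_mm_202_t : ∃ t, chk3 f_mm_202_t t 7 8 1 = true := ex3_a k6_mm_202_t s162_mm_202_t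

theorem s164_mm_202_t : ∃ t, chk3 f_mm_202_t t 7 4 1 = true := ex3_b s163_mm_202_t s148_mm_202_t

theorem s165_mm_202_t : ∃ t, chk3 f_mm_202_t t 13 19 1 = true := ex3_a k4_mm_202_t k5_mm_202_t

theorem s166_mm_202_t : ∃ t, chk3 f_mm_202_t t 13 9 1 = true := ex3_b k3_mm_202_t s165_mm_202_t

theorem s167_mm_202_t : ∃ t, chk3 f_mm_202_t t 6 9 1 = true := ex3_a k2_mm_202_t s166_mm_202_t

theorem s168_mm_202_t : ∃ t, chk3 f_mm_202_t t 6 4 1 = true := ex3_b k1_mm_202_t s167_mm_202_t

theorem s169_mm_202_t : ∃ t, chk3 f_mm_202_t t 3 4 1 = true := ex3_a s168_mm_202_t s164_mm_202_t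

theorem s170_mm_202_t : ∃ t, chk3 f_mm_202_t t 3 2 1 = true := ex3_b s169_mm_202_t s121_mm_202_t

theorem s171_mm_202_t : ∃ t, chk3 f_mm_202_t t 1 2 1 = true := ex3_a k0_mm_202_t s170_mm_202_t

theorem s172_mm_202_t : ∃ t, chk3 f_mm_202_t t 1 1 1 = true := ex3_b s171_mm_202_t s101_mm_202_t

theorem c_mm_202_t : CertNE 0 536870912 0 536870912 966367641 24778659 3 eng mog cd0q2 cd0q0 pd2 true false false .pp 2 0 2
    ndB0q2 ndB0q0 pcB2 cut_mm_202_t Ext.none :=
  certNE1 (fam := true) (s1 := false) (s2 := false) (a := 2) (b := 0) (c := 2) (cn := .pp) (n1 := ndB0q2) (n2 := ndB0q0) (pc := pcB2) (cut := cut_mm_202_t) (xt := Ext.none) (P1 := 0) (W1 := 536870912) (P2 := 0) (W2 := 536870912) (P3 := 966367641) (W3 := 24778659) (N0 := 3) (En := eng) (mo := mog) (C1 := cd0q2) (C2 := cd0q0) (C3 := pd2)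
    rfl (fun _ => rfl) s172_mm_202_t

noncomputable def cut_mm_203_s : Cut := Cut.of [[⟨4, 0, 0, 1449551462⟩]]

noncomputable def f_mm_203_s : ℕ → ℕ → ℕ → ℕ → Bool := onCell 0 536870912 0 536870912 966367641 24778659
    (rowNE 3 eng mog cd0q2 cd0q0 pd3 0 true false false .up 2 0 3 (qsf 0 536870912 0 536870912 3) ndB0q2 ndB0q0 pcB3 cut_mm_203_s Ext.none)

def k0_mm_203_s : ∃ t, chk3 f_mm_203_s t 1 1 1 = true :=
  ⟨(l 6), by decide +kernel⟩

theorem c_mm_203_s : CertNE 0 536870912 0 536870912 966367641 24778659 3 eng mog cd0q2 cd0q0 pd3 true false false .up 2 0 3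
    ndB0q2 ndB0q0 pcB3 cut_mm_203_s Ext.none :=
  certNE0 (fam := true) (s1 := false) (s2 := false) (a := 2) (b := 0) (c := 3) (cn := .up) (n1 := ndB0q2) (n2 := ndB0q0) (pc := pcB3) (cut := cut_mm_203_s) (xt := Ext.none) (P1 := 0) (W1 := 536870912) (P2 := 0) (W2 := 536870912) (P3 := 966367641) (W3 := 24778659) (N0 := 3) (En := eng) (mo := mog) (C1 := cd0q2) (C2 := cd0q0) (C3 := pd3)
    rfl k0_mm_203_s

noncomputable def cut_mm_203_t : Cut := Cut.of [[⟨3, 0, 0, 2845415833⟩]]

noncomputable def f_mm_203_t : ℕ → ℕ → ℕ → ℕ → Bool := onCell 0 536870912 1610612736 536870912 966367641 24778659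
    (rowNE 3 eng mog cd0q2 cd0q0 pd3 1 true false false .up 2 0 3 (qsf 0 536870912 0 536870912 3) ndB0q2 ndB0q0 pcB3 cut_mm_203_t Ext.none)

def k0_mm_203_t : ∃ t, chk3 f_mm_203_t t 4 4 1 = true :=
  ⟨(a (b (c (b (c (b (l 16625880) (l 16646584)) (b (l 16622216) (l 16624904))) (c (b (l 16664984) (l 16681168)) (b (l 16629800) (l 16636760)))) (b (c (b (l 16516384) (l 16526128)) (a (l 16400840) (l 16399528))) (a (c (l 16521528) (l 16439688)) (b (l 16444384) (l 16463856))))) (b (c (c (b (l 16691792) (l 16695992)) (b (l 16645648) (l 16656328))) (c (c (l 16529080) (l 16481056)) (b (l 16467000) (l 16472864)))) (c (b (c (l 16701896) (l 16668672)) (c (l 16709496) (l 16682552))) (b (c (l 16628952) (l 16501240)) (c (l 16650304) (l 16509800)))))) (a (b (b (c (b (l 16605648) (l 16630328)) (c (l 16503448) (b (l 16535128) (l 16555840)))) (b (c (l 16635256) (c (l 16630384) (l 16578888))) (c (l 16662888) (a (l 16569808) (l 16640632))))) (b (c (b (l 16671200) (l 16681088)) (b (c (l 16666312) (l 16630648)) (c (l 16686512) (l 16658632)))) (c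 (b (l 16734424) (l 16710552)) (b (c (l 16707912) (l 16687616)) (c (l 16730272) (l 16717224)))))) (b (b (c (b (c (l 16689840) (l 16691856)) (c (l 16707096) (l 16700256))) (c (b (l 16625848) (l 16641080)) (b (l 16597432) (l 16620152)))) (c (b (c (l 16722552) (l 16710400)) (c (l 16736368) (l 16722152))) (b (c (l 16679152) (l 16644880)) (c (l 16697904) (l 16629336))))) (c (b (b (c (l 16748752) (l 16735384)) (c (l 16758880) (l 16749960))) (b (c (l 69491140167) (l 16733776)) (c (b (l 16734224) (l 92576567751)) (l 89892200951)))) (b (b (c (l 16718040) (l 16698976)) (c (l 16739336) (l 16727640))) (b (c (l 50700664135) (a (l 16739408) (l 16770344))) (c (a (l 16769104) (l 16719800)) (a (l 16766168) (l 98482151431))))))))), by decide +kernel⟩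

def k1_mm_203_t : ∃ t, chk3 f_mm_203_t t 5 4 1 = true :=
  ⟨(b (a (b (b (c (a (c (l 16720488) (l 16722320)) (c (a (l 16745296) (l 16762840)) (l 16754896))) (a (c (l 16693904) (l 16620840)) (c (l 16743664) (l 16705168)))) (c (a (c (l 16736224) (l 16732880)) (b (a (l 16760192) (l 70564902759)) (c (l 78081067719) (l 16729016)))) (a (c (l 16711184) (l 16687408)) (c (a (l 16749712) (l 82912900327)) (c (l 42647593319) (l 34594526871)))))) (a (b (b (c (l 16749296) (l 16716264)) (c (l 16754208) (l 16727896))) (c (c (a (l 16756040) (l 16769824)) (l 16758496)) (c (l 16750040) (b (l 16734328) (l 16747760))))) (a (c (b (b (l 16770504) (l 81839183911)) (b (l 92039709479) (l 4))) (b (c (l 16768880) (l 16744376)) (c (l 93650302567) (l 94187169655)))) (a (b (b (c (l 16748488) (l 16768744)) (l 4)) (l 4)) (l 4))))) (a (a (b (b (c (c (b (l 16754616) (l 90429097367)) (c (l 16728920) (l 16728584))) (c (l 86670983751) (c (l 16727424) (l 16727000)))) (l 4)) (l 4)) (l 4)) (l 4))) (a (a (b (a (c (b (b (l 16763200) (l 16769280)) (b (l 16775712) (l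 93113462823))) (b (c (l 16757968) (l 16751720)) (c (l 16752680) (l 76470464375)))) (b (c (c (l 92039702791) (l 92576578295)) (c (l 93113448951) (l 92576574727))) (l 4))) (l 4)) (l 4)) (l 4))), by decide +kernel⟩

def k2_mm_203_t : ∃ t, chk3 f_mm_203_t t 2 5 1 = true :=
  ⟨(b (a (b (a (a (b (c (l 16691744) (l 16618336)) (c (l 16704736) (l 16634912))) (c (b (l 16726264) (l 16740592)) (b (l 16689616) (l 16716472)))) (a (c (b (c (l 16763712) (l 16758688)) (c (l 87207858487) (l 81302286711))) (b (c (l 16752624) (l 16745896)) (c (l 74859836599) (a (l 16758968) (l 16747544))))) (a (b (b (c (l 16748184) (l 16748424)) (l 4)) (l 4)) (l 4)))) (a (l 2) (l 2))) (l 4)) (l 2)), by decide +kernel⟩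

def k3_mm_203_t : ∃ t, chk3 f_mm_203_t t 3 2 1 = true :=
  ⟨(l 4), by decide +kernel⟩

def k4_mm_203_t : ∃ t, chk3 f_mm_203_t t 1 3 1 = true :=
  ⟨(l 2), by decide +kernel⟩

theorem s5_mm_203_t : ∃ t, chk3 f_mm_203_t t 2 4 1 = true := ex3_a k0_mm_203_t k1_mm_203_t

theorem s6_mm_203_t : ∃ t, chk3 f_mm_203_t t 2 2 1 = true := ex3_b s5_mm_203_t k2_mm_203_t

theorem s7_mm_203_t : ∃ t, chk3 f_mm_203_t t 1 2 1 = true := ex3_a s6_mm_203_t k3_mm_203_t

theorem s8_mm_203_t : ∃ t, chk3 f_mm_203_t t 1 1 1 = true := ex3_b s7_mm_203_t k4_mm_203_t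

theorem c_mm_203_t : CertNE 0 536870912 0 536870912 966367641 24778659 3 eng mog cd0q2 cd0q0 pd3 true false false .up 2 0 3
    ndB0q2 ndB0q0 pcB3 cut_mm_203_t Ext.none :=
  certNE1 (fam := true) (s1 := false) (s2 := false) (a := 2) (b := 0) (c := 3) (cn := .up) (n1 := ndB0q2) (n2 := ndB0q0) (pc := pcB3) (cut := cut_mm_203_t) (xt := Ext.none) (P1 := 0) (W1 := 536870912) (P2 := 0) (W2 := 536870912) (P3 := 966367641) (W3 := 24778659) (N0 := 3) (En := eng) (mo := mog) (C1 := cd0q2) (C2 := cd0q0) (C3 := pd3)
    rfl (fun _ => rfl) s8_mm_203_t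

noncomputable def cut_mm_213_s : Cut := Cut.of [[⟨4, 0, 0, 1449551462⟩]]

noncomputable def f_mm_213_s : ℕ → ℕ → ℕ → ℕ → Bool := onCell 0 536870912 536870912 536870912 966367641 24778659
    (rowNE 3 eng mog cd0q2 cd0q1 pd3 0 true false false .pnn 2 1 3 (qsf 0 536870912 536870912 536870912 3) ndB0q2 ndB0q1 pcB3 cut_mm_213_s Ext.none)

def k0_mm_213_s : ∃ t, chk3 f_mm_213_s t 1 1 1 = true :=
  ⟨(l 6), by decide +kernel⟩

theorem c_mm_213_s : CertNE 0 536870912 536870912 536870912 966367641 24778659 3 eng mog cd0q2 cd0q1 pd3 true false false .pnn 2 1 3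
    ndB0q2 ndB0q1 pcB3 cut_mm_213_s Ext.none :=
  certNE0 (fam := true) (s1 := false) (s2 := false) (a := 2) (b := 1) (c := 3) (cn := .pnn) (n1 := ndB0q2) (n2 := ndB0q1) (pc := pcB3) (cut := cut_mm_213_s) (xt := Ext.none) (P1 := 0) (W1 := 536870912) (P2 := 536870912) (W2 := 536870912) (P3 := 966367641) (W3 := 24778659) (N0 := 3) (En := eng) (mo := mog) (C1 := cd0q2) (C2 := cd0q1) (C3 := pd3)
    rfl k0_mm_213_s

end Pool.Agent.Strip051.G.I9000_9231.Tab.CS.BA00

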