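import Pool.Agent.Strip051.G.I9000_9231.StH
import Pool.Agent.Strip051.G.I9000_9231.StF

/-! # Unit strips 15 (generated) -/

set_option linter.all false
set_option maxRecDepth 100000

namespace Pool.Agent.Strip051.G.I9000_9231.Tab.St.C

open Pool.Agent.Strip051.PB Pool.Agent.Strip051.PB.T Pool.Agent.StripNear Pool.Agent.Strip051.LC
open Pool.Agent.Strip051.G.I9000_9231.Tab Pool.Agent.Strip051.G.I9000_9231.Tab.St

noncomputable def cut_B00pm_011_s3 : Cut := Cut.of [[⟨3, 0, 0, 2845415833⟩], [⟨0, 0, 0, 53687091⟩, ⟨1, 1, 0, 53687091⟩, ⟨2, 1, 0, 53687091⟩]]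

noncomputable def xt_B00pm_011_s3 : Ext := strExt dd false true false .u0 .u0m .s0m .pnn 0 1 1 rfl rfl gl1 vv ndB0q0 ndB0q1

noncomputable def f_B00pm_011_s3 : ℕ → ℕ → ℕ → ℕ → Bool := onCell 0 536870912 536870912 536870912 966367641 24778659
    (rowF 0 false true false .pnn 0 1 1 (qsf 0 536870912 536870912 536870912 1) ndB0q0 ndB0q1 pcB1 cut_B00pm_011_s3 xt_B00pm_011_s3)

def k0_B00pm_011_s3 : ∃ t, chk3 f_B00pm_011_s3 t 1 2 1 = true :=
  ⟨(a (l 4) (a (b (l 1) (l 4)) (l 1))), by decide +kernel⟩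

def k1_B00pm_011_s3 : ∃ t, chk3 f_B00pm_011_s3 t 2 6 1 = true :=
  ⟨(a (l 4) (a (l 4) (b (l 4) (b (l 4) (a (a (l 4) (b (l 4) (a (l 4) (c (l 532204047) (l 531696655))))) (b (a (l 4) (c (c (l 530934799) (l 531536143)) (a (l 531246863) (l 531199503)))) (a (c (l 532041743) (l 531569935)) (c (l 531055375) (l 531435279))))))))), by decide +kernel⟩

def k2_B00pm_011_s3 : ∃ t, chk3 f_B00pm_011_s3 t 4 14 1 = true :=
  ⟨(b (l 4) (a (l 4) (a (l 4) (a (l 4) (b (l 4) (b (l 4) (a (a (l 4) (b (l 4) (l 528732943))) (c (a (l 529221903) (l 529335567)) (l 529963791))))))))), by decide +kernel⟩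

def k3_B00pm_011_s3 : ∃ t, chk3 f_B00pm_011_s3 t 8 30 1 = true :=
  ⟨(b (l 4) (a (l 4) (a (l 4) (a (l 4) (a (l 4) (b (l 4) (b (l 4) (b (l 4) (c (a (l 528385295) (l 528371727)) (a (l 528364559) (l 528340495))))))))))), by decide +kernel⟩

def k4_B00pm_011_s3 : ∃ t, chk3 f_B00pm_011_s3 t 16 62 1 = true :=
  ⟨(b (l 4) (b (l 4) (b (l 4) (l 14)))), by decide +kernel⟩

def k5_B00pm_011_s3 : ∃ t, chk3 f_B00pm_011_s3 t 17 124 1 = true :=
  ⟨(a (a (l 4) (a (l 4) (a (l 4) (b (l 4) (b (l 4) (b (l 4) (a (l 528772879) (l 528750607)))))))) (a (b (b (l 4) (a (l 4) (a (c (l 528563727) (l 528538127)) (c (l 528529935) (l 528504335))))) (b (a (a (l 4) (c (l 528645391) (l 528604175))) (a (c (l 528605455) (l 528567311)) (c (l 528569615) (l 528532239)))) (a (a (c (l 528735247) (l 528674063)) (c (l 528688911) (l 528634127))) (a (c (l 528646671) (l 528595983)) (c (l 528608527) (l 528559887)))))) (a (c (b (a (c (l 528486671) (l 528473871)) (c (l 528463119) (l 528448015))) (a (b (l 528537615)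 (l 528573967)) (a (l 528533263) (l 528519695)))) (b (a (l 528457487) (l 528428047)) (a (l 528510735) (l 528479247)))) (b (c (a (c (l 528443919) (l 528425487)) (a (l 528422671) (l 528414991))) (a (l 528400655) (l 528375055))) (c (a (a (l 528506895) (l 528494863)) (a (l 528484111) (l 528474127))) (a (l 528449551) (l 528421647))))))), by decide +kernel⟩

def k6_B00pm_011_s3 : ∃ t, chk3 f_B00pm_011_s3 t 17 125 1 = true :=
  ⟨(b (a (b (a (l 4) (a (a (l 4) (l 528895247)) (a (l 528842255) (c (l 528834063) (l 528757007))))) (a (a (l 4) (a (l 4) (l 529337615))) (a (a (l 529273359) (l 528944911)) (a (l 528889359) (l 529106191))))) (a (a (c (a (b (l 529049359) (l 528827151)) (b (l 528732431) (l 528775695))) (a (b (l 528709391) (l 528751375)) (b (l 528667919) (l 528706831)))) (a (c (b (l 528687631) (l 528728591)) (l 528912399)) (c (b (l 528646927) (l 528685327)) (l 528604943)))) (a (c (a (c (l 528909583) (l 528611343)) (a (l 528601871) (l 528585743))) (a (l 528568335) (l 528533775)))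 (c (a (a (l 528570639) (l 528556303)) (a (l 528542991) (l 528530703))) (a (l 528501263) (l 528470799)))))) (a (a (a (a (c (l 529209871) (l 529006351)) (a (l 529320207) (l 529280271))) (a (l 528950799) (a (l 529167887) (l 529132559)))) (b (a (a (l 529324815) (l 528993807)) (a (l 528935439) (l 528881423))) (a (a (l 529106959) (l 529041679)) (a (l 528981007) (l 528924431))))) (a (a (c (a (a (l 528908303) (l 528879887)) (b (l 528818447) (l 528860175))) (a (l 528805647) (l 528761103))) (a (c (b (l 528768783) (l 528807951)) (l 528716303)) (c (b (l 528722959) (l 528759823)) (l 528673807)))) (a (c (a (b (l 528681231) (l 16729520)) (b (l 528643343) (l 16725232))) (a (l 528633871) (l 528595983))) (c (b (a (l 528609295) (l 528579343)) (a (l 16720928) (b (l 16718512) (l 16714696)))) (a (l 528560399) (b (l 16723800) (l 16716136)))))))), by decide +kernel⟩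

def k7_B00pm_011_s3 : ∃ t, chk3 f_B00pm_011_s3 t 16 63 1 = true :=
  ⟨(l 14), by decide +kernel⟩

def k8_B00pm_011_s3 : ∃ t, chk3 f_B00pm_011_s3 t 34 63 1 = true :=
  ⟨(b (b (a (a (a (l 14) (c (l 529244175) (l 529039631))) (a (a (l 529353231) (l 529313039)) (l 528982799))) (a (a (a (l 529199119) (l 529163535)) (a (l 529128975) (l 529095439))) (a (a (l 529062927) (l 529299983)) (b (l 528966159) (b (l 16737584) (l 16733952)))))) (b (b (a (a (l 14) (a (l 14) (l 16746920))) (a (a (l 16742848) (l 16738728)) (a (c (b (l 16735808) (l 16729216)) (l 16734520)) (c (b (l 16726784) (l 16731400)) (l 16726072))))) (a (l 14) (a (a (c (b (l 16740608) (l 16734048)) (l 16739240)) (c (b (l 16731640) (l 16736264)) (l 16730816))) (c (l 16732344) (l 16732336))))) (a (l 14) (a (c (b (l 16737192) (l 16736608)) (l 16737168)) (c (l 16731472) (l 16732584)))))) (a (l 14) (b (b (a (l 16726088) (l 16710560)) (c (l 16710720) (l 16735440))) (b (l 16711944) (l 14))))), by decide +kernel⟩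

def k9_B00pm_011_s3 : ∃ t, chk3 f_B00pm_011_s3 t 35 63 1 = true :=
  ⟨(b (b (a (b (a (a (l 528910607) (c (l 16734896) (l 16734440))) (c (a (l 16730640) (b (l 16728216) (l 16724496))) (b (l 16729928) (l 16726152)))) (a (a (b (l 16733384) (b (l 16730624) (a (l 16724808) (l 16723160)))) (b (l 16729128) (c (b (l 16721872) (l 16726488)) (l 16721288)))) (b (a (b (l 16725760) (a (l 16719936) (l 16718280))) (c (b (c (l 16717040) (l 16722072)) (l 16721552)) (l 16716440))) (c (l 16722512) (l 16722720))))) (b (a (b (c (a (l 16723912) (l 16719576)) (l 16721288)) (b (a (l 16720864) (c (a (l 16718024) (l 16716328)) (l 16716872))) (a (c (c (l 16714568) (l 16719616)) (l 16719328)) (l 16716576)))) (b (b (a (l 16715952) (c (a (l 16718368) (l 16711440)) (l 16711944))) (a (c (a (l 16715568) (l 16713880)) (l 16714416)) (l 16711664))) (c (l 16707424) (l 16712904)))) (a (c (b (l 16717576) (l 16717000)) (l 16707416)) (c (l 16701320) (l 16713096))))) (a (b (a (c (l 16727160) (l 16727640)) (c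 (l 16721648) (l 16722944))) (a (l 16716456) (l 16721808))) (b (a (l 16706640) (l 16711952)) (b (l 16693192) (l 16692920))))) (a (b (b (b (l 16703032) (l 16702752)) (l 16702312)) (b (l 16722624) (l 16722048))) (b (a (l 16694808) (l 16689576)) (a (l 16693608) (l 16667352))))), by decide +kernel⟩

def k10_B00pm_011_s3 : ∃ t, chk3 f_B00pm_011_s3 t 18 60 1 = true :=
  ⟨(a (l 4) (a (l 4) (b (l 4) (b (l 4) (a (a (l 4) (b (l 4) (c (l 528480015) (l 528488975)))) (c (c (a (l 528519695) (l 528566287)) (l 528559375)) (c (l 528579855) (l 528602639)))))))), by decide +kernel⟩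

def k11_B00pm_011_s3 : ∃ t, chk3 f_B00pm_011_s3 t 38 60 1 = true :=
  ⟨(a (b (l 4) (a (b (b (l 4) (c (a (l 528631055) (l 528691471)) (l 528749839))) (c (c (a (l 528615183) (l 528666639)) (l 528681487)) (c (l 528726799) (l 528775183)))) (b (c (c (a (l 528724495) (l 528784143)) (l 528823055)) (l 528935439)) (c (c (a (l 528720911) (l 528777231)) (l 528816399)) (l 528926991))))) (b (a (b (l 4) (a (b (l 4) (a (b (l 4) (c (c (l 528837903) (l 528929295)) (l 529074447))) (c (c (l 528868367) (l 528966415)) (l 529122575)))) (b (l 529093647) (c (c (l 528905487) (l 529010703)) (l 529177359))))) (c (b (l 529092111) (b (l 529060111) (b (l 529043983) (l 529032975)))) (b (l 529374479) (l 529034767)))) (c (a (a (b (b (c (a (l 528839695) (b (l 528859407) (l 528862223))) (a (l 528932367) (l 528950543))) (a (l 528872719) (l 528906511))) (c (l 528835855) (l 528926223))) (b (a (b (b (l 528934671) (l 528935951)) (l 528935439)) (b (l 528959759) (l 528961295))) (c (l 528891151) (l 528994063))))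 (b (b (c (a (l 528943631) (l 528992271)) (l 529081103)) (c (a (l 528942351) (l 528988431)) (l 529078287))) (a (c (l 529208847) (l 529052687)) (c (l 528985615) (l 529104911))))) (b (b (a (a (a (l 529079567) (b (l 529104911) (l 529112335))) (b (l 529159951) (l 529161999))) (c (l 529200143) (l 529324303))) (a (a (a (l 529058831) (l 529107471)) (l 529161487)) (c (l 529197583) (l 529321743)))) (a (a (l 529070351) (l 529425935)) (c (a (l 529170191) (l 529229583)) (l 529049103))))))), by decide +kernel⟩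

def k12_B00pm_011_s3 : ∃ t, chk3 f_B00pm_011_s3 t 39 60 1 = true :=
  ⟨(a (b (b (c (a (l 529202703) (l 529314319)) (l 529316879)) (b (a (l 529046287) (l 529172751)) (c (a (l 529148431) (l 529259279)) (l 529229583)))) (b (b (c (a (c (l 529066255) (l 529196303)) (l 529239823)) (l 529201167)) (c (a (c (l 529059343) (l 529188111)) (l 529229071)) (l 529188367))) (c (a (c (a (l 529030671) (l 529077263)) (l 529181711)) (c (l 529147663) (l 529291023))) (c (l 528835087) (l 529250831))))) (b (c (a (b (l 529426447) (a (l 529354511) (l 529410575))) (b (l 529539087) (l 529494287))) (b (l 529865231) (l 529797391))) (c (b (c (a (l 529264655) (l 529368847)) (a (l 529422863) (l 529540367))) (c (a (l 529245711) (l 529346319)) (a (l 529402383) (l 529515535)))) (b (l 529739279) (l 529712911))))), by decide +kernel⟩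

def k13_B00pm_011_s3 : ∃ t, chk3 f_B00pm_011_s3 t 36 61 1 = true :=
  ⟨(b (b (l 4) (a (l 4) (b (a (l 4) (c (a (l 4) (l 528303119)) (l 528485135))) (a (c (a (l 4) (l 528282895)) (l 528194575)) (c (a (l 528299279) (l 528318991)) (l 528241679)))))) (b (b (a (l 4) (a (c (a (l 528290575) (l 528302095)) (l 528492815)) (c (a (l 528316687) (l 528334351)) (l 528265743)))) (a (a (l 4) (c (a (l 528301839) (l 528304911)) (a (l 528237583) (l 528241167)))) (a (c (a (l 528311055) (l 528320527)) (l 528790031)) (c (a (l 528333327) (l 528348943)) (l 528288783))))) (b (a (a (a (b (l 4) (c (l 528339727) (l 528301327))) (a (b (a (l 4) (b (l 4) (l 528301071))) (l 528311311)) (c (c (b (l 528336143) (l 528348943)) (l 528314127)) (c (l 528287503) (l 528262159))))) (c (b (a (c (l 528334863) (l 528305679)) (l 528321807)) (a (c (a (l 528348175) (l 528347407)) (l 528318479)) (l 528332815))) (a (c (l 528284175) (l 528257807)) (b (l 528265999) (l 528279567))))) (c (b (a (a (l 528326415) (l 528334351))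 (a (l 528345615) (l 528359951))) (a (a (l 528336655) (l 528343567)) (a (l 528353551) (l 528366863)))) (a (a (l 528278287) (l 528288783)) (a (l 528303631) (l 528323087))))) (a (a (a (c (l 528361743) (l 528318223)) (c (a (l 528357647) (l 528355855)) (a (l 528303631) (l 528291599)))) (c (a (a (c (l 528369423) (l 528337167)) (c (l 528367887) (l 528335887))) (c (l 528365583) (l 528335119))) (a (a (l 528291087) (l 528290063)) (l 528291599)))) (a (c (a (c (l 528366863) (l 528337679)) (c (l 528370959) (l 528343823))) (a (l 528296719) (l 528305679))) (c (a (c (l 528378383) (l 528353551)) (c (l 528388623) (l 528366607))) (a (l 528318991) (l 528336655)))))))), by decide +kernel⟩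

def k14_B00pm_011_s3 : ∃ t, chk3 f_B00pm_011_s3 t 74 61 1 = true :=
  ⟨(a (b (a (b (l 4) (c (b (l 528327951) (l 528341775)) (l 528280079))) (c (b (c (l 528350223) (l 528321807)) (b (l 528355599) (l 528367631))) (b (l 528281359) (l 528318479)))) (a (c (c (b (l 528371983) (b (l 528389135) (l 528401935))) (b (l 528349967) (b (l 528371215) (l 528383247)))) (b (l 528319503) (a (l 528615695) (l 528359951)))) (c (c (b (l 528392719) (b (l 528407311) (l 528417807))) (b (l 528375311) (l 528397583))) (b (l 528352271) (b (l 528375567) (l 528384783)))))) (a (c (b (b (c (l 528380431) (l 528359183)) (b (l 528386319) (l 528396559))) (c (b (l 528416015) (b (l 528427791) (l 528436751))) (b (l 528403983) (l 528422159)))) (b (b (l 528329999) (l 528361487)) (b (l 528389391) (a (l 528404239) (l 528421135))))) (b (c (b (c (l 528413199) (l 528399887)) (c (l 528428559) (l 528419343))) (b (l 528382991) (l 528408847))) (b (c (c (l 528441871) (l 528436239)) (l 528431119)) (c (c (b (l 528451343)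 (l 528458255)) (l 528450063)) (b (l 528445967) (l 16727672))))))), by decide +kernel⟩

def k15_B00pm_011_s3 : ∃ t, chk3 f_B00pm_011_s3 t 75 61 1 = true :=
  ⟨(b (c (a (b (c (a (l 528448527) (l 528486671)) (a (l 528443919) (l 528491023))) (c (a (l 528460559) (l 528495375)) (a (l 528459023) (l 528502031)))) (b (c (a (l 528527119) (l 528570383)) (l 528566543)) (c (a (l 528532495) (l 528572431)) (l 528571151)))) (a (b (c (l 528467215) (l 528470799)) (c (l 528483087) (l 528489743))) (b (c (l 528588815) (l 528613391)) (c (l 528594447) (l 528620303))))) (b (a (c (c (a (l 528470543) (l 528502031)) (a (l 528471567) (l 528510479))) (c (l 528495887) (l 528504847))) (c (c (a (l 528535823) (l 528572431)) (a (l 528552719) (l 528598031))) (c (l 528597007) (l 528623375)))) (b (c (a (a (l 528478479) (l 528510735)) (a (l 528545807) (l 528583951))) (a (l 528508943) (l 528610575))) (c (a (c (a (l 528482575) (l 528509455)) (l 528498447)) (a (l 528546319) (l 528582671))) (a (l 528509455) (l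 16716864)))))), by decide +kernel⟩

def k16_B00pm_011_s3 : ∃ t, chk3 f_B00pm_011_s3 t 38 61 1 = true :=
  ⟨(a (b (c (a (b (c (a (l 528616207) (l 528664335)) (l 528680463)) (c (a (l 528614927) (l 528659983)) (l 528676879))) (b (c (a (l 528715023) (l 528768527)) (l 528807183)) (c (a (l 528707599) (l 528757519)) (l 528795407)))) (b (a (l 529017871) (l 528914959)) (a (c (l 528721423) (l 528769295)) (l 528899599)))) (c (b (a (c (a (l 528611599) (l 528653327)) (l 528670735)) (c (a (l 528697615) (l 528744463)) (l 528781071))) (a (a (b (l 528625167) (l 528621839)) (b (l 528668943) (l 528664079))) (a (b (l 528716047) (l 528709135)) (b (l 528765711) (l 16694568))))) (b (a (c (l 528713999) (l 528760591)) (l 528880911)) (a (b (l 16717088) (l 16707000)) (b (l 16707544) (l 16700128)))))) (c (b (a (c (b (a (l 528824079) (l 528878095)) (a (l 528809999) (l 528861967))) (a (b (l 528911375) (l 528893711)) (b (l 528977935) (l 528957967)))) (b (c (a (l 528928527) (l 528976655)) (a (l 529038863)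 (l 529095951))) (c (a (l 528911631) (l 528959759)) (l 529314575)))) (a (b (c (a (l 528793871) (l 528843279)) (b (l 16714336) (l 16707080))) (c (a (l 528910095) (l 528822543)) (b (l 16699744) (l 16692336)))) (b (c (b (l 16706496) (l 528908559)) (l 529288975)) (c (a (l 528868623) (l 16686448)) (l 16691928))))) (b (a (c (a (l 528991759) (l 529070095)) (l 528862223)) (b (l 528980751) (l 528955151))) (c (b (a (l 528992783) (l 16710160)) (a (l 16699520) (l 16690488))) (a (b (l 16717496) (l 16697800)) (l 528958479)))))), by decide +kernel⟩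

def k17_B00pm_011_s3 : ∃ t, chk3 f_B00pm_011_s3 t 39 61 1 = true :=
  ⟨(c (b (a (b (a (c (a (l 529023247) (l 529068047)) (l 529443343)) (c (c (l 529100303) (l 529170447)) (l 529278735))) (a (c (b (l 529033999) (l 16706624)) (l 529157647)) (c (b (l 16706712) (l 16699704)) (l 529263631)))) (b (c (a (l 529230351) (l 529327631)) (a (l 529387023) (l 16707784))) (a (c (l 529211919) (l 16700704)) (c (l 529307407) (l 16691792))))) (b (a (a (c (b (l 16704728) (l 16692264)) (l 16699792)) (c (b (l 16692616) (l 16685448)) (l 16690632))) (a (b (l 16686832) (l 16674536)) (c (l 16675896) (l 16678120)))) (a (a (c (b (l 16684960) (l 16677592)) (l 16682720)) (c (c (l 16674112) (l 16674976)) (l 16676312))) (b (a (l 16667384) (l 16666392)) (a (l 16665384) (a (l 16660728) (l 16652424))))))) (b (a (a (b (l 529113103) (l 529093391)) (b (l 529237263) (l 529221647))) (b (l 529695503) (a (l 529613839) (l 16694864)))) (a (b (a (l 529060367) (l 16698392)) (a (l 16685008) (l 16679112))) (b (a (l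 16687280) (l 16681632)) (a (l 16673416) (l 16673144)))))), by decide +kernel⟩

def k18_B00pm_011_s3 : ∃ t, chk3 f_B00pm_011_s3 t 18 248 1 = true :=
  ⟨(a (a (a (c (a (a (l 528408335) (l 528402447)) (c (a (l 528413967) (l 528411407)) (l 528377871))) (a (l 528351247) (l 528329487))) (c (a (c (b (l 528395279) (l 528420623)) (b (l 528358671) (l 528381711))) (b (c (l 528659983) (l 528355599)) (c (l 528416015) (l 528376079)))) (a (b (l 528305679) (l 528324623)) (b (l 528303887) (l 528317455))))) (a (c (a (b (c (l 528390159) (l 528356623)) (c (l 528412943) (l 528374543))) (c (b (l 528391951) (l 528412687)) (b (l 528360719) (l 528376591)))) (a (b (l 528308239) (l 528318479)) (c (l 528335631) (l 528304399)))) (c (a (c (b (l 528397071) (l 528415503)) (l 528374543)) (c (b (l 528405007) (l 528421391)) (l 528384527))) (a (c (l 528344591) (l 528315919)) (c (l 528357903) (l 528332559)))))) (c (a (a (c (a (b (l 528416015) (l 528430351)) (b (l 528429839) (l 528442127))) (a (l 528398095)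 (l 528415247))) (c (a (b (l 528446735) (l 528456975)) (b (l 528466191) (l 528474639))) (a (l 528435471) (l 528459279)))) (a (c (a (b (l 528488719) (l 528495119)) (b (l 528513807) (l 528518159))) (a (l 528486415) (l 528517135))) (c (a (b (l 528541455) (l 528544271)) (b (l 16701720) (l 16696736))) (a (l 528550927) (l 528588303))))) (a (a (c (a (l 528375311) (l 528396303)) (b (l 528364815) (l 16724848))) (c (a (l 528421647) (l 528450831)) (b (l 16724592) (l 16714216)))) (a (a (l 528483343) (l 528523791)) (b (l 528597263) (l 16698944)))))), by decide +kernel⟩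

def k19_B00pm_011_s3 : ∃ t, chk3 f_B00pm_011_s3 t 18 249 1 = true :=
  ⟨(a (a (a (c (a (a (l 528465167) (l 528456975)) (b (l 528434191) (l 528459023))) (a (l 528395535) (l 528371471))) (c (a (b (l 528692751) (l 528446991)) (c (b (l 528438799) (l 528460303)) (l 528404751))) (a (l 528352015) (c (l 528361743) (l 528319247))))) (a (c (a (c (b (l 528434447) (l 528454415)) (l 528399887)) (c (b (l 528432399) (l 528450831)) (b (l 528392207) (l 16721600)))) (a (b (l 528329999) (l 16725408)) (b (l 528333071) (l 16721176)))) (c (a (c (b (l 528433167) (l 528450063)) (b (l 16725136) (l 528408335))) (c (b (l 528437263) (l 528451855)) (l 528407055))) (a (b (l 16724800) (l 16716984)) (b (l 16720656) (l 16712824)))))) (c (a (c (a (a (b (l 528444175) (l 528456975)) (b (l 528454159) (l 528464911))) (a (b (l 528466959) (l 528475919)) (b (l 528482575) (l 528489743)))) (a (a (l 528684815) (l 528697615)) (a (l 528445455) (l 528465167)))) (a (c (a (b (l 528501007) (l 528506383)) (b (l 528522511)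 (l 528525839))) (a (l 528488207) (l 528514575))) (a (c (b (l 16692952) (l 16685240)) (l 528544527)) (a (b (l 16690072) (l 16682328)) (b (l 16688168) (a (l 16680896) (b (l 16681896) (b (l 16678976) (l 16677048))))))))) (b (a (a (a (l 16716544) (l 16712472)) (c (l 16706544) (l 16706392))) (a (l 16698672) (l 16691160))) (a (a (c (l 16706792) (l 16706528)) (l 16698608)) (a (l 16690808) (a (l 16685144) (l 16691944))))))), by decide +kernel⟩

def k20_B00pm_011_s3 : ∃ t, chk3 f_B00pm_011_s3 t 36 250 1 = true :=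
  ⟨(a (a (c (a (a (l 528519439) (l 528509199)) (b (l 528483343) (l 528507407))) (a (l 528442127) (l 528415759))) (c (a (b (l 528469007) (l 528490767)) (c (b (l 528480783) (l 528499983)) (l 528712207))) (a (l 528392975) (b (l 16721888) (l 16714120))))) (a (c (a (c (b (l 528472847) (l 528489999)) (l 528702735)) (c (b (l 528467727) (l 528482831)) (l 528697103))) (a (b (l 16717616) (l 16709816)) (b (l 16713360) (l 16705536)))) (a (c (c (b (l 528465167) (l 16699656)) (l 528694799)) (b (l 16709144) (l 16701296))) (b (c (c (l 528465423) (l 16705480)) (l 16704968)) (c (b (l 16699832) (c (a (l 16697184) (l 16700320)) (l 16695720))) (b (l 16699064) (l 16695120))))))), by decide +kernel⟩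

def k21_B00pm_011_s3 : ∃ t, chk3 f_B00pm_011_s3 t 74 250 1 = true :=
  ⟨(b (a (c (a (c (l 528468495) (l 16701336)) (c (l 528474639) (l 16697224))) (c (l 16698944) (l 16698616))) (a (c (c (l 528483855) (l 16693144)) (l 16692696)) (c (a (l 528478991) (a (l 16688752) (b (l 16689704) (b (l 16686776) (l 16684824))))) (l 16693960)))) (c (a (a (b (l 16695664) (b (a (l 16693776) (l 16691696)) (a (b (l 16692320) (l 16694336)) (a (b (l 16690944) (l 16690672)) (l 16690144))))) (b (c (a (l 16692752) (b (l 16691672) (l 16689712))) (l 16691336)) (b (c (a (b (l 16690328) (l 16689712)) (b (l 16688632) (l 16688336))) (a (l 16689688) (l 16688200))) (l 16688584)))) (b (a (c (b (a (l 16689616) (l 16687568)) (a (b (l 16688160) (l 16687552)) (b (l 16686488) (l 16686208)))) (b (l 16688240) (a (l 16687560) (l 16686104)))) (b (c (a (b (l 16686040) (l 16685440)) (b (l 16684392) (l 16684112))) (a (l 16685488) (l 16684048))) (l 16684368))) (a (l 16686304) (l 16683904)))) (a (b (c (l 16687768) (l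 16692656)) (a (b (l 16691944) (c (l 16690832) (l 16690488))) (b (c (l 16688688) (l 16688376)) (l 16688200)))) (b (a (b (l 16687752) (c (l 16686608) (l 16686328))) (b (c (l 16684592) (l 16684360)) (l 16684144))) (l 16685152))))), by decide +kernel⟩

def k22_B00pm_011_s3 : ∃ t, chk3 f_B00pm_011_s3 t 75 250 1 = true :=
  ⟨(b (c (a (a (b (l 16687208) (c (b (a (l 16685408) (l 16683400)) (a (b (l 16683952) (l 16683360)) (l 16684856))) (b (l 16684152) (a (l 16683464) (l 16682056))))) (b (c (b (l 16684320) (a (l 16683360) (l 16681384))) (l 16683160)) (b (c (a (b (l 16681920) (l 16681336)) (l 16680224)) (a (l 16681496) (l 16680120))) (l 16680352)))) (b (b (a (c (a (l 16681368) (l 16679416)) (l 16680296)) (a (b (l 16677968) (l 16677408)) (b (l 16676488) (l 16676248)))) (a (a (b (l 16679864) (l 16681920)) (b (l 16678344) (l 16678104))) (l 16676544))) (c (l 16677024) (l 16677296)))) (a (b (a (l 16686792) (l 16682952)) (a (b (l 16683824) (l 16672072)) (b (l 16670224) (l 16680384))))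 (b (a (b (l 16680200) (l 16668464)) (b (l 16677272) (l 16676952))) (l 16677768)))) (c (a (b (a (l 16682176) (l 16679872)) (l 16680392)) (b (l 16676512) (l 16675872))) (a (l 16670824) (l 16677760)))), by decide +kernel⟩

def k23_B00pm_011_s3 : ∃ t, chk3 f_B00pm_011_s3 t 36 251 1 = true :=
  ⟨(a (b (c (a (a (l 16719928) (l 528530703)) (a (l 528511759) (b (l 16708992) (c (l 16705304) (l 16704936))))) (a (c (l 16717392) (l 16717136)) (b (l 16710464) (l 16706560)))) (a (b (c (a (l 16714192) (c (l 16710016) (l 16709720))) (l 16711456)) (b (c (a (l 16711312) (a (a (l 16708688) (l 16707784)) (l 16706616))) (a (l 16710784) (l 16696520))) (a (c (a (a (l 16711112) (l 16710192)) (l 16709016)) (l 16698992)) (l 16701528)))) (b (c (a (b (l 16706520) (a (a (l 16706296) (l 16705392)) (l 16709480))) (b (a (b (l 16703784) (l 16703152)) (a (l 16702216) (l 16701472))) (l 16702144))) (a (b (l 16705848) (l 16699296)) (b (l 16696872) (l 16701776)))) (c (a (l 16704368) (l 16701712)) (l 16703032)))))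 (b (c (a (b (a (l 16704728) (c (b (l 16701648) (l 16699688)) (l 16700256))) (a (b (c (l 16702000) (l 16701608)) (a (b (l 16701432) (l 16700800)) (a (l 16699880) (l 16699144)))) (b (a (b (l 16699104) (l 16698480)) (a (l 16700192) (l 16696840))) (l 16697496)))) (b (a (a (b (l 16698272) (b (l 16696808) (l 16696192))) (b (l 16696152) (c (l 16695144) (l 16694784)))) (b (a (b (l 16694544) (l 16693936)) (b (l 16695440) (l 16692560))) (l 16692968))) (a (l 16695064) (l 16692520)))) (a (b (a (l 16703960) (l 16699664)) (a (b (l 16701032) (l 16694488)) (b (c (l 16697560) (l 16697208)) (l 16697048)))) (b (a (b (l 16696384) (c (l 16695272) (l 16694912))) (b (c (l 16693024) (l 16692672)) (l 16692512))) (l 16693656)))) (a (c (b (a (l 16699664) (l 16697056)) (l 16697768)) (l 16687816)) (c (l 16687648) (l 16693768))))), by decide +kernel⟩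

def k24_B00pm_011_s3 : ∃ t, chk3 f_B00pm_011_s3 t 37 251 1 = true :=
  ⟨(a (b (c (a (b (a (l 16690608) (l 16688128)) (l 16688760)) (b (l 16684480) (l 16683864))) (a (l 16678816) (l 16685200))) (c (a (l 16687840) (l 16682928)) (l 16687328))) (c (b (a (l 16679448) (l 16674912)) (l 16654912)) (b (l 16658552) (l 16679568)))), by decide +kernel⟩

def k25_B00pm_011_s3 : ∃ t, chk3 f_B00pm_011_s3 t 38 248 1 = true :=
  ⟨(c (b (a (a (a (l 528618511) (l 528658703)) (a (l 16690640) (l 528748047))) (a (a (l 16686160) (l 16682696)) (c (l 16677008) (l 16678160)))) (a (a (c (a (l 16692912) (l 16689152)) (l 16696544)) (c (a (l 16685440) (l 16681792)) (l 16684120))) (a (a (l 16678576) (l 16675128)) (a (l 16671720) (a (l 16669184) (b (l 16669400) (l 16665616))))))) (b (a (a (l 16699432) (l 16692600)) (c (l 16685112) (l 16683584))) (a (a (l 16691760) (l 16684968)) (a (l 16678576) (l 16661952))))), by decide +kernel⟩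

def k26_B00pm_011_s3 : ∃ t, chk3 f_B00pm_011_s3 t 38 249 1 = true :=
  ⟨(a (b (a (c (c (a (l 16685256) (l 16681496)) (l 16683600)) (l 16684000)) (a (c (c (l 16677792) (l 16678200)) (l 16678872)) (c (a (l 16675304) (b (l 16675456) (b (l 16672576) (l 16670664)))) (l 16675584)))) (c (a (a (b (l 16679544) (a (b (l 16677560) (b (l 16676128) (l 16675584))) (b (c (l 16675632) (l 16675776)) (c (l 16674504) (l 16674704))))) (b (c (a (l 16676648) (b (l 16675752) (l 16673824))) (l 16675944)) (b (c (a (b (l 16674256) (l 16673704)) (l 16672704)) (l 16663224)) (l 16672984)))) (b (b (a (c (a (l 16673896) (l 16672072)) (l 16673352)) (a (b (l 16671000) (l 16670472)) (l 16669592))) (a (a (b (l 16672648) (l 16672112)) (l 16671192)) (l 16669680))) (c (l 16669760) (l 16670536)))) (a (b (l 16672864) (a (b (l 16676920) (l 16675688)) (l 16663616))) (b (a (b (l 16674000) (l 16672792)) (l 16660920)) (l 16671784))))) (b (c (a (b (a (l 16672848) (c (a (l 16669848) (l 16668088)) (l 16669840))) (a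 (a (b (l 16670824) (b (l 16669432) (l 16668912))) (b (l 16669120) (l 16668056))) (a (b (a (l 16667984) (l 16667352)) (l 16667088)) (l 16666384)))) (b (a (b (c (l 16666440) (l 16667504)) (c (a (l 16665720) (l 16664528)) (l 16666288))) (a (b (l 16654288) (l 16664160)) (l 16663488))) (l 16653592))) (a (b (l 16672816) (a (l 16660504) (l 16669072))) (b (a (l 16658256) (l 16666896)) (l 16667168)))) (c (a (c (b (l 16666472) (l 16665640)) (l 16667320)) (l 16663024)) (a (l 16669328) (l 16667024))))), by decide +kernel⟩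

def k27_B00pm_011_s3 : ∃ t, chk3 f_B00pm_011_s3 t 39 124 1 = true :=
  ⟨(b (a (c (b (a (c (l 16670152) (l 16671640)) (a (l 16665984) (a (l 16663568) (l 16656712)))) (a (b (a (l 16666912) (c (l 16662824) (l 16664416))) (a (b (l 16664088) (a (l 16663352) (l 16662264))) (b (l 16651008) (l 16660928)))) (b (a (b (l 16661336) (l 16649656)) (c (l 16657584) (l 16659648))) (l 16658544)))) (b (a (l 16674016) (l 16668208)) (a (b (l 16668424) (a (l 16666616) (l 16664848))) (b (l 16653424) (l 16663128))))) (c (b (a (a (b (l 16661456) (b (l 16658704) (l 16657544))) (b (l 16658336) (l 16645584))) (a (b (a (l 16645744) (l 16644592)) (l 16654320)) (l 16642768))) (a (l 16645104) (l 16652360))) (b (a (b (l 16664496) (l 16641096)) (l 16639112)) (l 16660256)))) (a (c (b (a (c (l 16659904) (l 16661888)) (l 16657432)) (l 16647216)) (b (l 16643000) (l 16663728))) (c (b (l 16631472) (l 16650944)) (l 16659784)))), by decide +kernel⟩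

def k28_B00pm_011_s3 : ∃ t, chk3 f_B00pm_011_s3 t 19 125 1 = true :=
  ⟨(c (a (b (a (b (a (b (c (l 16673280) (l 16673776)) (l 16672864)) (l 16658648)) (a (l 16671880) (l 16667800))) (a (l 16654152) (l 16639968))) (a (b (l 16647528) (l 16667176)) (l 16660024))) (b (a (l 16655576) (l 16648752)) (l 16628296))) (a (b (a (b (a (l 16664088) (l 16671704)) (l 16652064)) (l 16657424)) (a (l 16673000) (l 16667736))) (b (a (l 16663432) (l 16659264)) (l 16619056)))), by decide +kernel⟩

def k29_B00pm_011_s3 : ∃ t, chk3 f_B00pm_011_s3 t 9 63 1 = true :=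
  ⟨(b (a (a (b (a (b (a (c (b (l 16702568) (l 16707240)) (l 16697528)) (c (l 16691680) (l 16703192))) (a (c (l 16706352) (l 16708240)) (l 16702152))) (b (c (b (l 16684088) (l 16693960)) (l 16696176)) (c (l 16693040) (l 16696344)))) (a (b (c (l 16702432) (l 16706024)) (l 16682664)) (b (l 16673112) (l 16651536)))) (b (a (b (c (l 16684128) (l 16687432)) (l 16664184)) (c (l 16673936) (l 16679656))) (a (c (l 16680864) (l 16687696)) (l 16633472)))) (a (b (a (c (l 16665168) (l 16673008)) (l 16620416)) (a (l 16625648) (l 16576960))) (b (a (l 16614368) (l 16566720)) (l 16609848)))) (a (a (b (a (a (l 16663368) (l 16658160)) (l 16671512)) (a (a (l 16662064) (l 16656808)) (l 16649128))) (b (a (l 16640880) (l 16590040)) (b (l 16635200) (l 16676800)))) (a (b (c (l 16571384) (l 16670056)) (l 16619000)) (b (l 16608208) (l 16648432))))), by decide +kernel⟩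

def k30_B00pm_011_s3 : ∃ t, chk3 f_B00pm_011_s3 t 10 14 1 = true :=
  ⟨(a (b (l 4) (b (a (l 4) (b (a (l 4) (l 529680143)) (c (a (l 530409487) (l 530648079)) (l 530294287)))) (c (b (a (a (l 529052687) (l 530090767)) (a (l 530325775) (l 530562831))) (a (a (a (l 529449743) (l 529564687)) (c (l 529618191) (l 530124559))) (a (l 529969423) (l 530473231)))) (a (a (b (l 530357775) (l 530234383)) (l 529484303)) (a (l 530008847) (l 530527247)))))) (b (b (l 4) (a (a (l 4) (b (l 4) (l 530774031))) (c (a (l 531041551) (l 531287055)) (l 531701263)))) (a (b (a (b (l 530186255) (l 529827855)) (b (l 530421263) (l 530332431))) (c (a (c (l 530355215) (l 530889743)) (c (l 530863631) (l 531128591))) (a (l 531038991) (l 531276303)))) (b (c (a (l 530877199) (l 531120399)) (l 530997519)) (a (c (c (l 531106063) (l 531366415)) (l 531775503)) (b (l 530706191) (l 530611471))))))), by decide +kernel⟩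

def k31_B00pm_011_s3 : ∃ t, chk3 f_B00pm_011_s3 t 11 14 1 = true :=
  ⟨(b (a (a (b (b (a (l 4) (l 4)) (c (l 532308495) (l 532290063))) (c (c (l 531277327) (l 532300047)) (l 532449039))) (b (b (c (a (c (a (l 532609039) (l 532633615)) (l 532408847)) (b (l 532377615) (l 532433423))) (a (l 531998223) (l 531890447))) (c (a (a (l 532617743) (l 532553999)) (c (l 532617743) (l 532376079))) (a (l 532078095) (l 531996175)))) (a (c (l 532558095) (l 532240143)) (c (c (l 532659727) (l 532446479)) (l 532110351))))) (c (a (b (b (b (l 532200719) (l 532259343)) (a (l 532368143) (l 532260623))) (a (b (l 532411407) (l 532464143)) (b (l 532308239) (l 16710088)))) (b (b (l 531759631) (l 531841807)) (a (l 532230671) (l 531865103)))) (a (b (b (l 530941967) (a (l 531892239) (l 531804687))) (a (l 532011791) (l 531647759))) (b (b (l 531596047) (l 531686415)) (a (l 531833103) (l 531755279)))))) (a (a (c (a (b (l 531363855) (l 530912271)) (b (l 531875343) (l 531422479))) (b (l 532492303) (l 531517199)))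 (a (c (b (l 532386319) (l 531663887)) (b (l 532453647) (l 532634127))) (c (b (l 532617743) (l 532165903)) (b (l 532311823) (l 532534031))))) (a (a (c (b (l 532570895) (l 532377359)) (b (l 532186639) (l 16667808))) (b (c (l 532441103) (l 532075791)) (c (l 532608015) (l 16655096)))) (b (a (c (l 532325391) (l 531977231)) (c (l 532222223) (l 531890191))) (c (b (l 16651528) (l 16633312)) (b (l 16558760) (l 16628592))))))), by decide +kernel⟩

def k32_B00pm_011_s3 : ∃ t, chk3 f_B00pm_011_s3 t 20 60 1 = true :=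
  ⟨(b (a (a (c (a (l 529361167) (l 529475087)) (l 530105359)) (c (a (l 529589775) (l 529704975)) (l 530373903))) (c (a (c (l 529760015) (l 530264847)) (l 529574159)) (a (l 530635791) (l 530891535)))) (c (b (a (a (b (l 529360399) (l 529343503)) (a (l 529791759) (l 529905935))) (a (l 529808399) (l 530308879))) (a (b (a (l 529061135) (l 529553423)) (a (a (l 529533455) (l 16701680)) (l 529538575))) (a (l 529503503) (l 530269967)))) (a (a (b (l 530013967) (l 529979919)) (c (l 529881871) (l 530375183))) (a (l 530256143) (l 530781967))))), by decide +kernel⟩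

def k33_B00pm_011_s3 : ∃ t, chk3 f_B00pm_011_s3 t 20 61 1 = true :=
  ⟨(b (a (a (c (b (c (a (l 529427215) (l 16693376)) (a (l 16698976) (l 16693016))) (c (a (l 529404687) (l 16677304)) (c (l 16687424) (l 16683416)))) (c (l 529574159) (l 530043919))) (c (b (b (l 529524495) (l 529510927)) (b (l 529496847) (l 529213711))) (b (l 530215695) (l 16655504)))) (c (a (c (b (c (l 16669672) (l 16671352)) (l 16660056)) (l 529836559)) (b (l 529966351) (a (l 16651920) (c (l 16634376) (l 16649616))))) (a (l 530188815) (b (l 16670744) (l 16659016))))) (a (b (a (c (c (a (l 16669616) (l 16663552)) (l 16674544)) (l 529899791)) (c (a (l 16661952) (c (b (l 16655488) (l 16648600)) (l 16655680))) (a (l 16666160) (l 16661472)))) (a (c (b (c (a (l 16659000) (l 16647728)) (l 16658984)) (a (b (l 16649792) (a (c (l 16641480) (l 16654816)) (l 16651392))) (a (b (l 16640680) (l 16649784)) (l 16627856)))) (b (l 16663720) (a (l 16660048) (l 16636000)))) (c (b (a (b (l 16640256) (c (l 16636000) (l 16650128)))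 (b (l 16635904) (l 16645112))) (l 16634704)) (b (a (l 16657120) (l 16654328)) (l 16654248))))) (b (c (a (a (b (l 16652008) (b (l 16647008) (l 16623664))) (b (l 16626000) (l 16632008))) (b (a (a (l 16622664) (l 16620848)) (l 16618736)) (l 16638672))) (a (b (l 16658192) (a (l 16654672) (l 16652160))) (b (l 16651808) (l 16650064)))) (c (a (b (l 16620664) (l 16639856)) (l 16635888)) (a (l 16651632) (l 16649040)))))), by decide +kernel⟩

def k34_B00pm_011_s3 : ∃ t, chk3 f_B00pm_011_s3 t 21 30 1 = true :=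
  ⟨(b (c (a (a (b (l 530346511) (c (l 530130703) (l 530646031))) (b (l 530852367) (c (l 530363407) (l 530883855)))) (a (b (l 531090703) (l 530456591)) (b (l 531330319) (b (l 16653976) (c (l 16639840) (l 16645864)))))) (a (b (l 530453775) (a (l 531033615) (l 16651504))) (b (a (l 531620623) (l 16638304)) (a (l 16624064) (l 16618360))))) (b (a (c (b (a (l 530464271) (a (l 16646912) (l 16643040))) (a (a (b (l 16645984) (l 16629832)) (b (l 16641776) (l 16637512))) (b (a (l 16638408) (l 16635920)) (l 16634512)))) (b (a (l 16663056) (l 16656248)) (a (b (l 16654672) (l 16650432)) (l 16606752)))) (b (a (c (b (l 16640760) (a (l 16637112) (l 16634952))) (l 16609304)) (c (c (l 16610096) (l 16637680)) (l 16648048))) (c (a (l 16632256) (l 16629432)) (l 16645928)))) (a (c (b (a (l 16635304) (l 16631440)) (l 16608504)) (a (l 16605536) (l 16645488))) (c (b (l 16584632) (l 16538664)) (l 16642976))))), by decide +kernel⟩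

def k35_B00pm_011_s3 : ∃ t, chk3 f_B00pm_011_s3 t 10 31 1 = true :=
  ⟨(b (a (a (b (b (c (a (a (b (l 16650816) (l 16649224)) (l 16626032)) (l 16642680)) (a (l 16656816) (l 16653520))) (c (a (l 16645368) (l 16639448)) (l 16633368))) (c (b (l 16597352) (l 16636256)) (l 16621952))) (b (c (b (a (l 16637280) (l 16632336)) (l 16631416)) (b (l 16607232) (l 16648160))) (b (l 16595616) (l 16551688)))) (a (b (b (a (l 16552600) (l 16549504)) (l 16590584)) (b (l 16546384) (l 16544216))) (b (a (l 16587456) (l 16543104)) (l 16560376)))) (a (b (a (b (l 16600832) (l 16557064)) (b (l 16549736) (l 16547744))) (b (a (l 16555352) (l 16545880)) (l 16548824))) (b (a (l 16541048) (l 16517320)) (a (l 16519840) (l 16577352))))), by decide +kernel⟩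

def k36_B00pm_011_s3 : ∃ t, chk3 f_B00pm_011_s3 t 11 15 1 = true :=
  ⟨(b (b (a (a (b (c (c (l 531033615) (l 531808271)) (l 532182287)) (b (c (a (l 16648136) (l 16601312)) (l 16658552)) (a (c (a (l 16638896) (l 16636968)) (l 16567520)) (c (l 16593128) (l 16648992))))) (a (b (l 531199247) (b (c (l 16598072) (l 16653096)) (l 16598800))) (b (c (l 16629728) (l 16662336)) (c (l 16635384) (l 16647072))))) (b (a (a (b (l 16657584) (l 16607488)) (b (l 16644344) (l 16637144))) (c (l 16624416) (l 16613408))) (a (c (l 16633864) (l 16623496)) (l 16599912)))) (a (a (b (c (c (l 16603520) (l 16632424)) (l 16644872)) (a (l 16588688) (l 16545208))) (c (b (l 16583792) (l 16616704)) (l 16613416))) (a (b (l 16608824) (l 16585656)) (c (l 16576680) (l 16473368))))) (b (a (c (a (b (l 16611680) (l 16604200)) (l 16593248)) (a (l 16596200) (l 16565552))) (c (b (l 16559192) (l 16537224)) (b (l 16449320) (l 16422792)))) (a (b (c (l 16575128) (l 16540328)) (c (l 16553536) (l 16431608))) (b (c (l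 16515696) (l 16396168)) (l 16475856))))), by decide +kernel⟩

def k37_B00pm_011_s3 : ∃ t, chk3 f_B00pm_011_s3 t 6 12 1 = true :=
  ⟨(a (a (l 4) (b (l 4) (a (l 4) (b (l 4) (b (l 4) (l 531035407)))))) (a (b (l 1) (b (l 1) (a (a (b (l 1) (l 530789391)) (l 1)) (l 1)))) (l 1))), by decide +kernel⟩

def k38_B00pm_011_s3 : ∃ t, chk3 f_B00pm_011_s3 t 6 13 1 = true :=
  ⟨(a (b (b (a (l 4) (a (l 530884111) (a (l 530888975) (l 530628879)))) (a (a (c (l 531319311) (l 530944271)) (a (l 531093519) (l 531073807))) (a (b (l 531013903) (l 531097103)) (c (l 530918159) (l 530645775))))) (a (a (c (b (c (l 531610127) (l 531425551)) (c (l 531808015) (l 531621647))) (b (c (l 531236879) (l 531044879)) (c (l 531430927) (l 531235855)))) (b (c (a (l 531449615) (l 531411983)) (l 531090959)) (c (a (l 531629839) (l 531581711)) (a (l 531280143) (l 531252495))))) (b (a (c (l 531098895) (l 531066639)) (c (l 531063567) (l 531065871))) (a (c (a (l 531541007) (l 531507727)) (l 530954255)) (c (l 531201295)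 (l 530939151)))))) (b (b (a (a (a (l 531177999) (a (l 530921231) (l 530658831))) (a (b (l 1) (l 530972175)) (l 1))) (l 1)) (a (a (a (l 530792207) (b (l 531036687) (l 531107343))) (c (a (l 531193871) (l 531196431)) (a (l 530968079) (l 530979087)))) (a (a (b (l 1) (l 531127311)) (l 1)) (l 1)))) (a (a (b (c (a (l 531322127) (l 531320847)) (l 530817551)) (c (a (l 531448335) (l 531440399)) (l 530947343))) (b (c (a (l 531319567) (l 531318799)) (a (l 531106063) (l 531115535))) (c (a (l 531433743) (l 531965199)) (a (l 531229455) (l 531236111))))) (b (a (c (a (l 531588111) (l 531590671)) (a (l 531124495) (l 531134223))) (a (a (b (l 1) (l 531261199)) (l 1)) (l 1))) (a (c (a (c (l 531471887) (l 531378447)) (c (l 531468559) (l 531379215))) (a (l 531243023) (l 531787279))) (c (a (c (l 531468303) (l 531382287)) (c (l 531471119) (l 531387663))) (a (c (l 531299087) (l 5401861399)) (c (l 531307535) (l 531230991))))))))), by decide +kernel⟩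

def k39_B00pm_011_s3 : ∃ t, chk3 f_B00pm_011_s3 t 7 6 1 = true :=
  ⟨(b (l 1) (a (b (l 1) (a (b (l 1) (a (a (b (l 1) (c (l 16547176) (l 16540760))) (l 1)) (l 1))) (l 1))) (l 1))), by decide +kernel⟩

def k40_B00pm_011_s3 : ∃ t, chk3 f_B00pm_011_s3 t 12 14 1 = true :=
  ⟨(b (a (b (a (c (b (l 531326223) (l 531939087)) (b (l 531477263) (l 531558927))) (c (b (l 531733263) (l 531800847)) (b (l 531391247) (l 531464207)))) (a (c (c (l 531550735) (l 531917839)) (b (l 531624463) (l 16631224))) (c (c (l 531664655) (l 531781647)) (b (l 531522575) (l 16596120))))) (b (b (c (a (l 531635983) (l 531568911)) (a (l 531335695) (l 531308559))) (c (a (l 531695119) (l 531620111)) (a (l 531400463) (l 531365647)))) (a (c (c (l 531541007) (l 531408399)) (b (l 16587680) (l 16613248))) (c (c (l 531448079) (l 531333647)) (c (l 531486223) (l 531369231)))))) (a (c (b (a (a (l 531859215) (l 532036367)) (b (l 16588296) (l 16572600))) (b (a (l 16583680) (a (l 16605720) (l 16592184))) (a (b (l 16572648)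 (l 16565664)) (b (l 16587488) (l 16579344))))) (b (a (b (l 16605184) (l 16547824)) (c (l 531716367) (l 16569816))) (a (b (l 16616552) (l 16559176)) (b (l 16589816) (l 16573928))))) (a (b (c (c (l 531843087) (l 531461391)) (b (l 16596736) (l 16580152))) (b (c (b (l 16575744) (l 16568232)) (l 16531936)) (c (l 16556128) (l 16546264)))) (b (c (b (l 16579400) (a (l 16568800) (l 16555608))) (b (l 16571672) (l 16554248))) (b (b (c (l 16549992) (l 16542136)) (l 16537832)) (c (l 16530136) (l 16520504))))))), by decide +kernel⟩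

def k41_B00pm_011_s3 : ∃ t, chk3 f_B00pm_011_s3 t 13 14 1 = true :=
  ⟨(b (a (b (a (c (b (l 531798031) (l 531842063)) (a (l 531063823) (l 531066383))) (c (b (a (l 16602752) (l 16590832)) (a (l 16586944) (l 16574920))) (b (l 531583503) (l 531628815)))) (b (a (a (l 16590912) (l 16581536)) (c (a (l 16570376) (l 16558216)) (l 16557472))) (a (c (l 16550616) (l 16564368)) (a (l 16549744) (l 16516568))))) (b (a (c (b (a (l 16578896) (l 16566968)) (a (l 16562888) (l 16550872))) (b (a (l 16572480) (l 16560560)) (c (l 16551904) (l 16548704)))) (b (c (a (l 16555072) (l 16543232)) (b (l 16525720) (l 16517736))) (c (a (l 16538904) (l 16526992)) (b (l 16488648) (l 16480384))))) (b (a (c (a (l 16546056) (l 16533912)) (c (l 16535104) (l 16531976))) (c (a (l 16521824) (l 16509808)) (a (l 16515600) (l 16503704)))) (a (c (a (l 16528472) (l 16516176)) (l 16516248)) (a (c (l 16503936) (l 16498216)) (b (l 16493448) (c (b (l 16489488) (l 16485096)) (l 16481760)))))))) (a (a (b (b (c (l 16554168)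 (l 16547128)) (c (b (l 16540568) (l 16490960)) (b (l 16533600) (l 16525936)))) (c (b (l 16521328) (l 16505592)) (l 16463064))) (b (b (a (l 16532136) (b (l 16524256) (l 16494176))) (b (c (l 16495672) (l 16468512)) (l 16484704))) (c (b (l 16497880) (l 16482176)) (b (l 16490344) (l 16473512))))) (a (a (b (b (b (l 16511928) (l 16482544)) (l 16471360)) (c (l 16431088) (l 16465160))) (b (b (b (c (l 16502424) (l 16496816)) (l 16471128)) (l 16460192)) (c (l 16440920) (l 16454128)))) (b (b (a (b (c (l 16491008) (l 16485584)) (l 16480944)) (c (l 16476672) (l 16470952))) (c (l 16447088) (l 16419624))) (l 6))))), by decide +kernel⟩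

def k42_B00pm_011_s3 : ∃ t, chk3 f_B00pm_011_s3 t 6 15 1 = true :=
  ⟨(b (b (a (a (a (c (b (l 16511304) (l 16577304)) (l 16531664)) (c (b (l 16566768) (l 16548904)) (l 16461256))) (a (b (l 16491864) (l 16514928)) (c (l 16462768) (l 16492592)))) (a (a (b (l 16441864) (l 16465184)) (b (c (l 16465656) (l 16455760)) (l 6))) (l 6))) (a (a (a (c (l 16463552) (l 16444040)) (c (l 16435240) (l 16499832))) (c (b (l 16405160) (l 16384512)) (c (l 16381216) (l 16371640)))) (l 6))) (a (b (a (c (b (l 16417168) (l 16395456)) (b (l 16475296) (l 16449296))) (l 6)) (a (b (c (l 16374144) (l 16423184)) (l 6)) (l 6))) (l 6))), by decide +kernel⟩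

def k43_B00pm_011_s3 : ∃ t, chk3 f_B00pm_011_s3 t 7 7 1 = true :=
  ⟨(b (a (b (b (a (a (b (c (a (l 16515752) (l 242161779031)) (a (l 16524960) (l 16492248))) (c (a (l 16515176) (b (l 16507664) (l 16499224))) (a (l 16508736) (l 16497008)))) (a (b (l 1) (c (b (l 1) (l 16487632)) (l 232498044215))) (l 1))) (l 1)) (a (b (a (c (a (l 16497896) (b (l 16490544) (l 16481632))) (a (l 16491872) (l 16480128))) (a (c (a (l 16477352) (l 16471576)) (l 24192096551)) (b (l 1) (b (l 1) (l 6))))) (b (a (a (c (l 16484368) (l 16478824)) (c (b (l 16474800) (a (l 16473160) (l 16467800))) (b (l 16469264) (l 16465096)))) (a (a (b (b (l 16464272) (l 16472664)) (l 16480640)) (l 6)) (l 6))) (a (c (a (b (l 16477736) (l 16474240)) (l 16465520)) (a (l 16449832) (l 16459896))) (l 6)))) (l 6))) (a (b (b (a (a (c (l 16466024) (l 16460056)) (l 6)) (l 6)) (l 6)) (l 6)) (l 6))) (l 6)) (l 6)), by decide +kernel⟩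

theorem t44_B00pm_011_s3 : ∃ t, chk3 f_B00pm_011_s3 t 6 14 1 = true := ex3_a k40_B00pm_011_s3 k41_B00pm_011_s3

theorem t45_B00pm_011_s3 : ∃ t, chk3 f_B00pm_011_s3 t 6 7 1 = true := ex3_b t44_B00pm_011_s3 k42_B00pm_011_s3

theorem t46_B00pm_011_s3 : ∃ t, chk3 f_B00pm_011_s3 t 3 7 1 = true := ex3_a t45_B00pm_011_s3 k43_B00pm_011_s3

theorem t47_B00pm_011_s3 : ∃ t, chk3 f_B00pm_011_s3 t 6 6 1 = true := ex3_b k37_B00pm_011_s3 k38_B00pm_011_s3

theorem t48_B00pm_011_s3 : ∃ t, chk3 f_B00pm_011_s3 t 3 6 1 = true := ex3_a t47_B00pm_011_s3 k39_B00pm_011_s3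

theorem t49_B00pm_011_s3 : ∃ t, chk3 f_B00pm_011_s3 t 3 3 1 = true := ex3_b t48_B00pm_011_s3 t46_B00pm_011_s3

theorem t50_B00pm_011_s3 : ∃ t, chk3 f_B00pm_011_s3 t 20 30 1 = true := ex3_b k32_B00pm_011_s3 k33_B00pm_011_s3

theorem t51_B00pm_011_s3 : ∃ t, chk3 f_B00pm_011_s3 t 10 30 1 = true := ex3_a t50_B00pm_011_s3 k34_B00pm_011_s3

theorem t52_B00pm_011_s3 : ∃ t, chk3 f_B00pm_011_s3 t 10 15 1 = true := ex3_b t51_B00pm_011_s3 k35_B00pm_011_s3

theorem t53_B00pm_011_s3 : ∃ t, chk3 f_B00pm_011_s3 t 5 15 1 = true := ex3_a t52_B00pm_011_s3 k36_B00pm_011_s3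

theorem t54_B00pm_011_s3 : ∃ t, chk3 f_B00pm_011_s3 t 5 14 1 = true := ex3_a k30_B00pm_011_s3 k31_B00pm_011_s3

theorem t55_B00pm_011_s3 : ∃ t, chk3 f_B00pm_011_s3 t 5 7 1 = true := ex3_b t54_B00pm_011_s3 t53_B00pm_011_s3

theorem t56_B00pm_011_s3 : ∃ t, chk3 f_B00pm_011_s3 t 38 124 1 = true := ex3_b k25_B00pm_011_s3 k26_B00pm_011_s3

theorem t57_B00pm_011_s3 : ∃ t, chk3 f_B00pm_011_s3 t 19 124 1 = true := ex3_a t56_B00pm_011_s3 k27_B00pm_011_s3

theorem t58_B00pm_011_s3 : ∃ t, chk3 f_B00pm_011_s3 t 19 62 1 = true := ex3_b t57_B00pm_011_s3 k28_B00pm_011_s3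

theorem t59_B00pm_011_s3 : ∃ t, chk3 f_B00pm_011_s3 t 18 251 1 = true := ex3_a k23_B00pm_011_s3 k24_B00pm_011_s3

theorem t60_B00pm_011_s3 : ∃ t, chk3 f_B00pm_011_s3 t 37 250 1 = true := ex3_a k21_B00pm_011_s3 k22_B00pm_011_s3

theorem t61_B00pm_011_s3 : ∃ t, chk3 f_B00pm_011_s3 t 18 250 1 = true := ex3_a k20_B00pm_011_s3 t60_B00pm_011_s3

theorem t62_B00pm_011_s3 : ∃ t, chk3 f_B00pm_011_s3 t 18 125 1 = true := ex3_b t61_B00pm_011_s3 t59_B00pm_011_s3

theorem t63_B00pm_011_s3 : ∃ t, chk3 f_B00pm_011_s3 t 18 124 1 = true := ex3_b k18_B00pm_011_s3 k19_B00pm_011_s3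

theorem t64_B00pm_011_s3 : ∃ t, chk3 f_B00pm_011_s3 t 18 62 1 = true := ex3_b t63_B00pm_011_s3 t62_B00pm_011_s3

theorem t65_B00pm_011_s3 : ∃ t, chk3 f_B00pm_011_s3 t 9 62 1 = true := ex3_a t64_B00pm_011_s3 t58_B00pm_011_s3

theorem t66_B00pm_011_s3 : ∃ t, chk3 f_B00pm_011_s3 t 9 31 1 = true := ex3_b t65_B00pm_011_s3 k29_B00pm_011_s3

theorem t67_B00pm_011_s3 : ∃ t, chk3 f_B00pm_011_s3 t 19 61 1 = true := ex3_a k16_B00pm_011_s3 k17_B00pm_011_s3

theorem t68_B00pm_011_s3 : ∃ t, chk3 f_B00pm_011_s3 t 37 61 1 = true := ex3_a k14_B00pm_011_s3 k15_B00pm_011_s3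

theorem t69_B00pm_011_s3 : ∃ t, chk3 f_B00pm_011_s3 t 18 61 1 = true := ex3_a k13_B00pm_011_s3 t68_B00pm_011_s3

theorem t70_B00pm_011_s3 : ∃ t, chk3 f_B00pm_011_s3 t 9 61 1 = true := ex3_a t69_B00pm_011_s3 t67_B00pm_011_s3

theorem t71_B00pm_011_s3 : ∃ t, chk3 f_B00pm_011_s3 t 19 60 1 = true := ex3_a k11_B00pm_011_s3 k12_B00pm_011_s3

theorem t72_B00pm_011_s3 : ∃ t, chk3 f_B00pm_011_s3 t 9 60 1 = true := ex3_a k10_B00pm_011_s3 t71_B00pm_011_s3

theorem t73_B00pm_011_s3 : ∃ t, chk3 f_B00pm_011_s3 t 9 30 1 = true := ex3_b t72_B00pm_011_s3 t70_B00pm_011_s3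

theorem t74_B00pm_011_s3 : ∃ t, chk3 f_B00pm_011_s3 t 9 15 1 = true := ex3_b t73_B00pm_011_s3 t66_B00pm_011_s3

theorem t75_B00pm_011_s3 : ∃ t, chk3 f_B00pm_011_s3 t 17 63 1 = true := ex3_a k8_B00pm_011_s3 k9_B00pm_011_s3

theorem t76_B00pm_011_s3 : ∃ t, chk3 f_B00pm_011_s3 t 8 63 1 = true := ex3_a k7_B00pm_011_s3 t75_B00pm_011_s3

theorem t77_B00pm_011_s3 : ∃ t, chk3 f_B00pm_011_s3 t 17 62 1 = true := ex3_b k5_B00pm_011_s3 k6_B00pm_011_s3

theorem t78_B00pm_011_s3 : ∃ t, chk3 f_B00pm_011_s3 t 8 62 1 = true := ex3_a k4_B00pm_011_s3 t77_B00pm_011_s3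

theorem t79_B00pm_011_s3 : ∃ t, chk3 f_B00pm_011_s3 t 8 31 1 = true := ex3_b t78_B00pm_011_s3 t76_B00pm_011_s3

theorem t80_B00pm_011_s3 : ∃ t, chk3 f_B00pm_011_s3 t 8 15 1 = true := ex3_b k3_B00pm_011_s3 t79_B00pm_011_s3

theorem t81_B00pm_011_s3 : ∃ t, chk3 f_B00pm_011_s3 t 4 15 1 = true := ex3_a t80_B00pm_011_s3 t74_B00pm_011_s3

theorem t82_B00pm_011_s3 : ∃ t, chk3 f_B00pm_011_s3 t 4 7 1 = true := ex3_b k2_B00pm_011_s3 t81_B00pm_011_s3

theorem t83_B00pm_011_s3 : ∃ t, chk3 f_B00pm_011_s3 t 2 7 1 = true := ex3_a t82_B00pm_011_s3 t55_B00pm_011_s3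

theorem t84_B00pm_011_s3 : ∃ t, chk3 f_B00pm_011_s3 t 2 3 1 = true := ex3_b k1_B00pm_011_s3 t83_B00pm_011_s3

theorem t85_B00pm_011_s3 : ∃ t, chk3 f_B00pm_011_s3 t 1 3 1 = true := ex3_a t84_B00pm_011_s3 t49_B00pm_011_s3

theorem t86_B00pm_011_s3 : ∃ t, chk3 f_B00pm_011_s3 t 1 1 1 = true := ex3_b k0_B00pm_011_s3 t85_B00pm_011_s3

theorem c_B00pm_011_s3 : CertF 0 536870912 536870912 536870912 966367641 24778659 false true false .pnn 0 1 1
    ndB0q0 ndB0q1 pcB1 cut_B00pm_011_s3 xt_B00pm_011_s3 :=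
  certF0 (fam := false) (s1 := true) (s2 := false) (a := 0) (b := 1) (c := 1) (cn := .pnn) (n1 := ndB0q0) (n2 := ndB0q1) (pc := pcB1) (cut := cut_B00pm_011_s3) (xt := xt_B00pm_011_s3) (P1 := 0) (W1 := 536870912) (P2 := 536870912) (W2 := 536870912) (P3 := 966367641) (W3 := 24778659)
    rfl t86_B00pm_011_s3

theorem s_B00pm_011_s3 {κ x : ℝ} (hκ : κ * h0 = ken x) (hx : ((966367641 : ℕ) : ℝ) / S ≤ x)
    (hx' : x ≤ (((966367641 : ℕ) : ℝ) + (24778659 : ℕ)) / S)
    (H : CutB (VFD κ) PP tK tL pcB (Cut.of [[⟨0, 0, 0, 53687091⟩, ⟨1, 1, 0, 53687091⟩, ⟨2, 1, 0, 53687091⟩]]) 0 1 1 0 0 (sgb true) (sgb false) x) :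
    AltB (VFD κ) PP tK tL pcB [⟨4, 0, 0, 2845415833⟩] 0 1 1 0 0 (sgb true) (sgb false) x :=
  strip_altBD (m := 2845415833) false rfl hκ (SH.κ0 hκ (SH.hx1 hx).le (SH.hx2 hx').le) (SH.hx1 hx).le (SH.hx2 hx') (covB00).cov (covB01).cov hx hx' c_B00pm_011_s3 H ((okx hx hx').extB (T := tt) (sideB hx hx') hκ rfl rfl (.O 0 true) (.O 1 false) (Or.inr rfl))

noncomputable def cut_B00pm_012_s1 : Cut := Cut.of [[⟨4, 0, 0, 1449551462⟩], [⟨0, 0, 0, 67108864⟩, ⟨1, 1, 0, 67108864⟩, ⟨2, 1, 0, 67108864⟩]]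

noncomputable def xt_B00pm_012_s1 : Ext := strExt dd false true false .u0 .u2 .u0m .pnp 0 1 2 rfl rfl gf1 vv ndB0q0 ndB0q2

noncomputable def f_B00pm_012_s1 : ℕ → ℕ → ℕ → ℕ → Bool := onCell 0 536870912 0 536870912 966367641 24778659
    (rowF 0 false true false .pnp 0 1 2 (qsf 0 536870912 0 536870912 1) ndB0q0 ndB0q2 pcB1 cut_B00pm_012_s1 xt_B00pm_012_s1)

def k0_B00pm_012_s1 : ∃ t, chk3 f_B00pm_012_s1 t 1 1 1 = true :=
  ⟨(a (l 6) (b (a (a (l 6) (b (b (a (l 6) (a (l 6) (l 16496280))) (l 6)) (l 6))) (b (b (a (a (b (l 16523376) (l 6)) (a (l 16524288) (l 16536472))) (a (l 532020495) (l 530618127))) (a (l 6) (a (l 531572239) (a (l 531862799) (l 531691279))))) (l 6))) (l 6))), by decide +kernel⟩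

theorem c_B00pm_012_s1 : CertF 0 536870912 0 536870912 966367641 24778659 false true false .pnp 0 1 2
    ndB0q0 ndB0q2 pcB1 cut_B00pm_012_s1 xt_B00pm_012_s1 :=
  certF0 (fam := false) (s1 := true) (s2 := false) (a := 0) (b := 1) (c := 2) (cn := .pnp) (n1 := ndB0q0) (n2 := ndB0q2) (pc := pcB1) (cut := cut_B00pm_012_s1) (xt := xt_B00pm_012_s1) (P1 := 0) (W1 := 536870912) (P2 := 0) (W2 := 536870912) (P3 := 966367641) (W3 := 24778659)
    rfl k0_B00pm_012_s1

theorem s_B00pm_012_s1 {κ x : ℝ} (hκ : κ * h0 = ken x) (hx : ((966367641 : ℕ) : ℝ) / S ≤ x)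
    (hx' : x ≤ (((966367641 : ℕ) : ℝ) + (24778659 : ℕ)) / S)
    (H : CutB (VFD κ) PP tK tL pcB (Cut.of [[⟨0, 0, 0, 67108864⟩, ⟨1, 1, 0, 67108864⟩, ⟨2, 1, 0, 67108864⟩]]) 0 1 2 0 0 (sgb true) (sgb false) x) :
    AltB (VFD κ) PP tK tL pcB [⟨3, 0, 0, 1449551462⟩] 0 1 2 0 0 (sgb true) (sgb false) x :=
  strip_altBD (m := 1449551462) true rfl hκ (SH.κ0 hκ (SH.hx1 hx).le (SH.hx2 hx').le) (SH.hx1 hx).le (SH.hx2 hx') (covB00).cov (covB02).cov hx hx' c_B00pm_012_s1 H ((okx hx hx').extB (T := tt) (sideB hx hx') hκ rfl rfl (.O 0 true) (.O 2 false) (Or.inr rfl))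

noncomputable def cut_B00pm_012_s3 : Cut := Cut.of [[⟨3, 0, 0, 2845415833⟩], [⟨0, 0, 0, 67108864⟩, ⟨1, 1, 0, 67108864⟩, ⟨2, 1, 0, 67108864⟩]]

noncomputable def f_B00pm_012_s3 : ℕ → ℕ → ℕ → ℕ → Bool := onCell 0 536870912 0 536870912 966367641 24778659
    (rowF 0 false true false .pnp 0 1 2 (qsf 0 536870912 0 536870912 1) ndB0q0 ndB0q2 pcB1 cut_B00pm_012_s3 Ext.none)

def k0_B00pm_012_s3 : ∃ t, chk3 f_B00pm_012_s3 t 1 2 1 = true :=
  ⟨(l 6), by decide +kernel⟩

def k1_B00pm_012_s3 : ∃ t, chk3 f_B00pm_012_s3 t 4 6 1 = true :=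
  ⟨(a (l 2) (b (l 6) (a (b (l 6) (l 6)) (l 6)))), by decide +kernel⟩

def k2_B00pm_012_s3 : ∃ t, chk3 f_B00pm_012_s3 t 8 7 1 = true :=
  ⟨(b (a (l 2) (b (a (l 2) (b (l 2) (a (l 2) (a (b (l 2) (l 14)) (a (b (b (l 2) (l 14)) (l 14)) (b (c (b (l 16381528) (l 16389912)) (l 16378008)) (c (l 16403024) (l 16395744)))))))) (a (l 14) (a (l 14) (a (l 14) (a (l 14) (a (l 14) (b (b (l 16417672) (l 16437328)) (l 16448456))))))))) (a (l 14) (a (l 14) (a (l 14) (a (l 14) (b (b (c (l 16519952) (l 16517360)) (l 16570960)) (b (l 16625784) (l 16597696)))))))), by decide +kernel⟩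

def k3_B00pm_012_s3 : ∃ t, chk3 f_B00pm_012_s3 t 9 7 1 = true :=
  ⟨(b (a (b (b (b (a (a (a (l 2) (c (b (l 16346896) (l 16354008)) (b (l 16338864) (l 16346240)))) (a (c (l 16348224) (l 16340776)) (l 6))) (l 6)) (a (a (c (a (b (l 16363792) (l 16371552)) (l 70966804967)) (a (b (l 16355864) (l 16363856)) (l 16357840))) (c (a (l 16362872) (l 16360592)) (l 16313080))) (a (c (l 16357384) (l 16351832)) (l 6)))) (a (a (c (a (b (b (l 16379592) (l 16387904)) (l 16400928)) (b (l 16381160) (l 16398176))) (b (a (l 16376384) (l 16374216)) (l 16361376))) (c (a (l 16355584) (l 16342584)) (a (l 16338840) (l 16378784)))) (a (c (l 16339016) (l 16334176)) (c (l 16376728) (l 16373384))))) (a (b (a (b (c (l 16381024) (l 16411472)) (a (l 16393560) (l 16432616))) (b (l 16377896) (l 16386520))) (a (b (l 16423312) (l 16435096)) (c (l 16377648) (l 16373944)))) (b (a (c (l 16373904) (l 16328000)) (l 16388728)) (a (l 16370152) (l 16365272))))) (b (a (b (l 6) (a (l 16330544) (l 6))) (l 6)) (a (b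 (a (l 16322624) (l 16320488)) (l 16401800)) (b (l 16402192) (l 16439136))))) (a (b (a (b (a (c (l 16514176) (l 16512296)) (l 16506216)) (a (l 16522904) (l 16556936))) (b (a (l 16499752) (l 16494040)) (l 16462288))) (a (b (a (l 16535080) (l 16610112)) (b (l 16571488) (l 16682600))) (b (l 16514056) (l 16587760)))) (b (a (b (l 16487400) (l 16534992)) (b (l 16481168) (l 16526984))) (b (a (l 16501008) (l 16575032)) (a (l 16551856) (l 16623992)))))), by decide +kernel⟩

def k4_B00pm_012_s3 : ∃ t, chk3 f_B00pm_012_s3 t 5 3 1 = true :=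
  ⟨(b (l 6) (b (a (a (b (l 6) (b (l 6) (a (l 16436024) (l 6)))) (l 6)) (l 6)) (a (b (a (a (l 16414616) (l 16410520)) (a (l 16407944) (l 16406896))) (a (b (l 16479288) (b (l 16597672) (l 16536784))) (b (l 16552536) (l 16510744)))) (b (l 6) (a (b (l 16547976) (l 16456792)) (l 16355712)))))), by decide +kernel⟩

def k5_B00pm_012_s3 : ∃ t, chk3 f_B00pm_012_s3 t 3 3 1 = true :=
  ⟨(b (l 6) (l 6)), by decide +kernel⟩

theorem t6_B00pm_012_s3 : ∃ t, chk3 f_B00pm_012_s3 t 4 7 1 = true := ex3_a k2_B00pm_012_s3 k3_B00pm_012_s3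

theorem t7_B00pm_012_s3 : ∃ t, chk3 f_B00pm_012_s3 t 4 3 1 = true := ex3_b k1_B00pm_012_s3 t6_B00pm_012_s3

theorem t8_B00pm_012_s3 : ∃ t, chk3 f_B00pm_012_s3 t 2 3 1 = true := ex3_a t7_B00pm_012_s3 k4_B00pm_012_s3

theorem t9_B00pm_012_s3 : ∃ t, chk3 f_B00pm_012_s3 t 1 3 1 = true := ex3_a t8_B00pm_012_s3 k5_B00pm_012_s3

theorem t10_B00pm_012_s3 : ∃ t, chk3 f_B00pm_012_s3 t 1 1 1 = true := ex3_b k0_B00pm_012_s3 t9_B00pm_012_s3

theorem c_B00pm_012_s3 : CertF 0 536870912 0 536870912 966367641 24778659 false true false .pnp 0 1 2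
    ndB0q0 ndB0q2 pcB1 cut_B00pm_012_s3 Ext.none :=
  certF0 (fam := false) (s1 := true) (s2 := false) (a := 0) (b := 1) (c := 2) (cn := .pnp) (n1 := ndB0q0) (n2 := ndB0q2) (pc := pcB1) (cut := cut_B00pm_012_s3) (xt := Ext.none) (P1 := 0) (W1 := 536870912) (P2 := 0) (W2 := 536870912) (P3 := 966367641) (W3 := 24778659)
    rfl t10_B00pm_012_s3

theorem s_B00pm_012_s3 {κ x : ℝ} (hκ : κ * h0 = ken x) (hx : ((966367641 : ℕ) : ℝ) / S ≤ x)
    (hx' : x ≤ (((966367641 : ℕ) : ℝ) + (24778659 : ℕ)) / S)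
    (H : CutB (VFD κ) PP tK tL pcB (Cut.of [[⟨0, 0, 0, 67108864⟩, ⟨1, 1, 0, 67108864⟩, ⟨2, 1, 0, 67108864⟩]]) 0 1 2 0 0 (sgb true) (sgb false) x) :
    AltB (VFD κ) PP tK tL pcB [⟨4, 0, 0, 2845415833⟩] 0 1 2 0 0 (sgb true) (sgb false) x :=
  strip_altBD (m := 2845415833) false rfl hκ (SH.κ0 hκ (SH.hx1 hx).le (SH.hx2 hx').le) (SH.hx1 hx).le (SH.hx2 hx') (covB00).cov (covB02).cov hx hx' c_B00pm_012_s3 H (noExt_B)

noncomputable def cut_B00pm_022_s1 : Cut := Cut.of [[⟨4, 0, 0, 1449551462⟩], [⟨0, 0, 0, 67108864⟩, ⟨1, 1, 0, 67108864⟩, ⟨2, 1, 0, 67108864⟩]]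

noncomputable def f_B00pm_022_s1 : ℕ → ℕ → ℕ → ℕ → Bool := onCell 1073741824 536870912 0 536870912 966367641 24778659
    (rowF 2 false true false .pp 0 2 2 (qsf 0 536870912 0 536870912 2) ndB0q0 ndB0q2 pcB2 cut_B00pm_022_s1 Ext.none)

def k0_B00pm_022_s1 : ∃ t, chk3 f_B00pm_022_s1 t 1 1 1 = true :=
  ⟨(l 6), by decide +kernel⟩

theorem c_B00pm_022_s1 : CertF 0 536870912 0 536870912 966367641 24778659 false true false .pp 0 2 2
    ndB0q0 ndB0q2 pcB2 cut_B00pm_022_s1 Ext.none :=
  certF2 (fam := false) (s1 := true) (s2 := false) (a := 0) (b := 2) (c := 2) (cn := .pp) (n1 := ndB0q0) (n2 := ndB0q2) (pc := pcB2) (cut := cut_B00pm_022_s1) (xt := Ext.none) (P1 := 0) (W1 := 536870912) (P2 := 0) (W2 := 536870912) (P3 := 966367641) (W3 := 24778659)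
    rfl (fun _ => rfl) k0_B00pm_022_s1

theorem s_B00pm_022_s1 {κ x : ℝ} (hκ : κ * h0 = ken x) (hx : ((966367641 : ℕ) : ℝ) / S ≤ x)
    (hx' : x ≤ (((966367641 : ℕ) : ℝ) + (24778659 : ℕ)) / S)
    (H : CutB (VFD κ) PP tK tL pcB (Cut.of [[⟨0, 0, 0, 67108864⟩, ⟨1, 1, 0, 67108864⟩, ⟨2, 1, 0, 67108864⟩]]) 0 2 2 0 0 (sgb true) (sgb false) x) :
    AltB (VFD κ) PP tK tL pcB [⟨3, 0, 0, 1449551462⟩] 0 2 2 0 0 (sgb true) (sgb false) x :=
  strip_altBD (m := 1449551462) true rfl hκ (SH.κ0 hκ (SH.hx1 hx).le (SH.hx2 hx').le) (SH.hx1 hx).le (SH.hx2 hx') (covB00).cov (covB02).cov hx hx' c_B00pm_022_s1 H (noExt_B)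

noncomputable def cut_B00pm_022_s3 : Cut := Cut.of [[⟨3, 0, 0, 2845415833⟩], [⟨0, 0, 0, 67108864⟩, ⟨1, 1, 0, 67108864⟩, ⟨2, 1, 0, 67108864⟩]]

noncomputable def f_B00pm_022_s3 : ℕ → ℕ → ℕ → ℕ → Bool := onCell 0 536870912 0 536870912 966367641 24778659
    (rowF 0 false true false .pp 0 2 2 (qsf 0 536870912 0 536870912 2) ndB0q0 ndB0q2 pcB2 cut_B00pm_022_s3 Ext.none)

def k0_B00pm_022_s3 : ∃ t, chk3 f_B00pm_022_s3 t 2 2 1 = true :=
  ⟨(l 6), by decide +kernel⟩

def k1_B00pm_022_s3 : ∃ t, chk3 f_B00pm_022_s3 t 4 6 1 = true :=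
  ⟨(b (l 6) (a (a (a (a (b (b (b (l 6) (a (c (c (l 16384008) (l 16393768)) (c (l 16403936) (l 16424992))) (l 6))) (c (c (a (b (l 16398792) (l 16413936)) (l 16443184)) (a (b (a (l 16424288) (l 16432136)) (l 16421144)) (l 16450928))) (c (a (b (l 16426528) (l 16439144)) (a (l 16413128) (l 16462912))) (a (b (l 16435688) (l 16446968)) (a (l 16463488) (l 16471272)))))) (a (c (c (b (b (l 16429184) (l 16444496)) (b (l 16459904) (l 16475416))) (b (b (l 16435272) (l 16449600)) (b (l 16464136) (l 16478904)))) (c (b (b (l 16452112) (l 16454928)) (b (l 16468568) (l 16482560))) (b (b (l 16458736) (l 16460496)) (b (l 16473208) (l 16507352))))) (c (b (b (l 16469144) (l 16484064)) (b (l 16499128) (l 16514344))) (b (b (a (l 16435848) (l 16485712)) (l 16494664)) (b (l 16507968) (l 16521680)))))) (b (b (l 6) (c (c (l 16425128) (l 16432672)) (c (l 16430040) (a (l 16482904) (l 16498296))))) (b (c (c (l 16456088) (l 16461496)) (c (l 16467128) (l 16472992))) (b (c (l 16481424) (l 16490096))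 (c (l 16496728) (l 16503984)))))) (a (b (b (l 6) (c (l 16418512) (l 16454312))) (b (c (l 16448736) (l 16459368)) (c (l 16479288) (l 16486840)))) (b (l 6) (b (b (l 16477720) (l 16492176)) (a (l 16506520) (l 16521944)))))) (b (l 6) (b (a (c (l 16502240) (l 16493296)) (l 6)) (a (a (l 16509096) (l 16471608)) (a (l 16518248) (l 16481400)))))) (a (b (l 6) (l 6)) (l 6)))), by decide +kernel⟩

def k2_B00pm_022_s3 : ∃ t, chk3 f_B00pm_022_s3 t 4 7 1 = true :=
  ⟨(a (b (b (b (a (a (b (a (c (a (c (l 16491072) (l 16493912)) (l 16529736)) (a (c (l 16475936) (l 16521016)) (l 16535800))) (c (l 16512184) (l 16518280))) (a (c (a (c (l 16506872) (l 16488216)) (l 16545320)) (a (b (l 16509224) (l 16516552)) (l 16550352))) (c (l 16527808) (l 16532976)))) (a (c (l 16510296) (l 16515800)) (b (l 16536752) (l 16540824)))) (a (a (a (l 16596544) (l 16493112)) (l 16463856)) (c (l 16407104) (l 16404768)))) (a (b (b (b (a (a (a (c (l 16496848) (l 16501144)) (l 16515392)) (a (l 16573720) (l 16590000)))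 (a (l 16530240) (l 16623376))) (l 14)) (l 14)) (l 14)) (a (b (a (l 16498512) (l 16542304)) (l 14)) (a (l 16416672) (l 16461080))))) (a (l 14) (a (l 14) (a (l 14) (a (l 14) (l 1)))))) (a (l 14) (a (l 14) (l 1)))) (b (b (a (a (b (a (l 16433296) (l 16396864)) (a (l 16422400) (l 1))) (l 1)) (l 1)) (l 1)) (l 1))), by decide +kernel⟩

def k3_B00pm_022_s3 : ∃ t, chk3 f_B00pm_022_s3 t 5 3 1 = true :=
  ⟨(b (l 1) (l 1)), by decide +kernel⟩

def k4_B00pm_022_s3 : ∃ t, chk3 f_B00pm_022_s3 t 3 1 1 = true :=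
  ⟨(l 1), by decide +kernel⟩

theorem t5_B00pm_022_s3 : ∃ t, chk3 f_B00pm_022_s3 t 4 3 1 = true := ex3_b k1_B00pm_022_s3 k2_B00pm_022_s3

theorem t6_B00pm_022_s3 : ∃ t, chk3 f_B00pm_022_s3 t 2 3 1 = true := ex3_a t5_B00pm_022_s3 k3_B00pm_022_s3

theorem t7_B00pm_022_s3 : ∃ t, chk3 f_B00pm_022_s3 t 2 1 1 = true := ex3_b k0_B00pm_022_s3 t6_B00pm_022_s3

theorem t8_B00pm_022_s3 : ∃ t, chk3 f_B00pm_022_s3 t 1 1 1 = true := ex3_a t7_B00pm_022_s3 k4_B00pm_022_s3

theorem c_B00pm_022_s3 : CertF 0 536870912 0 536870912 966367641 24778659 false true false .pp 0 2 2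
    ndB0q0 ndB0q2 pcB2 cut_B00pm_022_s3 Ext.none :=
  certF0 (fam := false) (s1 := true) (s2 := false) (a := 0) (b := 2) (c := 2) (cn := .pp) (n1 := ndB0q0) (n2 := ndB0q2) (pc := pcB2) (cut := cut_B00pm_022_s3) (xt := Ext.none) (P1 := 0) (W1 := 536870912) (P2 := 0) (W2 := 536870912) (P3 := 966367641) (W3 := 24778659)
    rfl t8_B00pm_022_s3

theorem s_B00pm_022_s3 {κ x : ℝ} (hκ : κ * h0 = ken x) (hx : ((966367641 : ℕ) : ℝ) / S ≤ x)
    (hx' : x ≤ (((966367641 : ℕ) : ℝ) + (24778659 : ℕ)) / S)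
    (H : CutB (VFD κ) PP tK tL pcB (Cut.of [[⟨0, 0, 0, 67108864⟩, ⟨1, 1, 0, 67108864⟩, ⟨2, 1, 0, 67108864⟩]]) 0 2 2 0 0 (sgb true) (sgb false) x) :
    AltB (VFD κ) PP tK tL pcB [⟨4, 0, 0, 2845415833⟩] 0 2 2 0 0 (sgb true) (sgb false) x :=
  strip_altBD (m := 2845415833) false rfl hκ (SH.κ0 hκ (SH.hx1 hx).le (SH.hx2 hx').le) (SH.hx1 hx).le (SH.hx2 hx') (covB00).cov (covB02).cov hx hx' c_B00pm_022_s3 H (noExt_B)

end Pool.Agent.Strip051.G.I9000_9231.Tab.St.C
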