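import Pool.Agent.Strip051.G.I9000_9231.StH
import Pool.Agent.Strip051.G.I9000_9231.Sp16_0
import Pool.Agent.Strip051.G.I9000_9231.Sp16_1
import Pool.Agent.Strip051.G.I9000_9231.StF

/-! # Unit strips 16 (generated) -/

set_option linter.all false
set_option maxRecDepth 100000

namespace Pool.Agent.Strip051.G.I9000_9231.Tab.St.C

open Pool.Agent.Strip051.PB Pool.Agent.Strip051.PB.T Pool.Agent.StripNear Pool.Agent.Strip051.LC
open Pool.Agent.Strip051.G.I9000_9231.Tab Pool.Agent.Strip051.G.I9000_9231.Tab.St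

theorem t121_B00pm_101_s1 : ∃ t, chk3 f_B00pm_101_s1 t 38 511 2 = true := ex3_a k115_B00pm_101_s1 k116_B00pm_101_s1

theorem t122_B00pm_101_s1 : ∃ t, chk3 f_B00pm_101_s1 t 38 510 2 = true := ex3_a k113_B00pm_101_s1 k114_B00pm_101_s1

theorem t123_B00pm_101_s1 : ∃ t, chk3 f_B00pm_101_s1 t 38 255 2 = true := ex3_b t122_B00pm_101_s1 t121_B00pm_101_s1

theorem t124_B00pm_101_s1 : ∃ t, chk3 f_B00pm_101_s1 t 38 255 1 = true := ex3_c t123_B00pm_101_s1 k117_B00pm_101_s1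

theorem t125_B00pm_101_s1 : ∃ t, chk3 f_B00pm_101_s1 t 38 254 1 = true := ex3_c k111_B00pm_101_s1 k112_B00pm_101_s1

theorem t126_B00pm_101_s1 : ∃ t, chk3 f_B00pm_101_s1 t 38 127 1 = true := ex3_b t125_B00pm_101_s1 t124_B00pm_101_s1

theorem t127_B00pm_101_s1 : ∃ t, chk3 f_B00pm_101_s1 t 38 63 1 = true := ex3_b k110_B00pm_101_s1 t126_B00pm_101_s1

theorem t128_B00pm_101_s1 : ∃ t, chk3 f_B00pm_101_s1 t 19 63 1 = true := ex3_a t127_B00pm_101_s1 k118_B00pm_101_s1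

theorem t129_B00pm_101_s1 : ∃ t, chk3 f_B00pm_101_s1 t 19 31 1 = true := ex3_b k109_B00pm_101_s1 t128_B00pm_101_s1

theorem t130_B00pm_101_s1 : ∃ t, chk3 f_B00pm_101_s1 t 75 1022 2 = true := ex3_b k105_B00pm_101_s1 k106_B00pm_101_s1

theorem t131_B00pm_101_s1 : ∃ t, chk3 f_B00pm_101_s1 t 75 1022 1 = true := ex3_c t130_B00pm_101_s1 k107_B00pm_101_s1

theorem t132_B00pm_101_s1 : ∃ t, chk3 f_B00pm_101_s1 t 75 511 1 = true := ex3_b t131_B00pm_101_s1 k108_B00pm_101_s1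

theorem t133_B00pm_101_s1 : ∃ t, chk3 f_B00pm_101_s1 t 74 1022 3 = true := ex3_b k102_B00pm_101_s1 k103_B00pm_101_s1

theorem t134_B00pm_101_s1 : ∃ t, chk3 f_B00pm_101_s1 t 74 1022 2 = true := ex3_b k100_B00pm_101_s1 k101_B00pm_101_s1

theorem t135_B00pm_101_s1 : ∃ t, chk3 f_B00pm_101_s1 t 74 1022 1 = true := ex3_c t134_B00pm_101_s1 t133_B00pm_101_s1

theorem t136_B00pm_101_s1 : ∃ t, chk3 f_B00pm_101_s1 t 74 511 1 = true := ex3_b t135_B00pm_101_s1 k104_B00pm_101_s1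

theorem t137_B00pm_101_s1 : ∃ t, chk3 f_B00pm_101_s1 t 37 511 1 = true := ex3_a t136_B00pm_101_s1 t132_B00pm_101_s1

theorem t138_B00pm_101_s1 : ∃ t, chk3 f_B00pm_101_s1 t 75 510 2 = true := ex3_a k97_B00pm_101_s1 k98_B00pm_101_s1

theorem t139_B00pm_101_s1 : ∃ t, chk3 f_B00pm_101_s1 t 75 510 1 = true := ex3_c t138_B00pm_101_s1 k99_B00pm_101_s1

theorem t140_B00pm_101_s1 : ∃ t, chk3 f_B00pm_101_s1 t 74 510 3 = true := ex3_a k95_B00pm_101_s1 k96_B00pm_101_s1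

theorem t141_B00pm_101_s1 : ∃ t, chk3 f_B00pm_101_s1 t 74 510 2 = true := ex3_a k93_B00pm_101_s1 k94_B00pm_101_s1

theorem t142_B00pm_101_s1 : ∃ t, chk3 f_B00pm_101_s1 t 74 510 1 = true := ex3_c t141_B00pm_101_s1 t140_B00pm_101_s1

theorem t143_B00pm_101_s1 : ∃ t, chk3 f_B00pm_101_s1 t 37 510 1 = true := ex3_a t142_B00pm_101_s1 t139_B00pm_101_s1

theorem t144_B00pm_101_s1 : ∃ t, chk3 f_B00pm_101_s1 t 37 255 1 = true := ex3_b t143_B00pm_101_s1 t137_B00pm_101_s1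

theorem t145_B00pm_101_s1 : ∃ t, chk3 f_B00pm_101_s1 t 75 254 1 = true := ex3_c k91_B00pm_101_s1 k92_B00pm_101_s1

theorem t146_B00pm_101_s1 : ∃ t, chk3 f_B00pm_101_s1 t 74 254 1 = true := ex3_c k89_B00pm_101_s1 k90_B00pm_101_s1

theorem t147_B00pm_101_s1 : ∃ t, chk3 f_B00pm_101_s1 t 37 254 1 = true := ex3_a t146_B00pm_101_s1 t145_B00pm_101_s1

theorem t148_B00pm_101_s1 : ∃ t, chk3 f_B00pm_101_s1 t 37 127 1 = true := ex3_b t147_B00pm_101_s1 t144_B00pm_101_s1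

theorem t149_B00pm_101_s1 : ∃ t, chk3 f_B00pm_101_s1 t 37 126 1 = true := ex3_a k87_B00pm_101_s1 k88_B00pm_101_s1

theorem t150_B00pm_101_s1 : ∃ t, chk3 f_B00pm_101_s1 t 37 63 1 = true := ex3_b t149_B00pm_101_s1 t148_B00pm_101_s1

theorem t151_B00pm_101_s1 : ∃ t, chk3 f_B00pm_101_s1 t 73 1022 3 = true := ex3_b k84_B00pm_101_s1 k85_B00pm_101_s1

theorem t152_B00pm_101_s1 : ∃ t, chk3 f_B00pm_101_s1 t 73 1022 2 = true := ex3_b k82_B00pm_101_s1 k83_B00pm_101_s1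

theorem t153_B00pm_101_s1 : ∃ t, chk3 f_B00pm_101_s1 t 73 1022 1 = true := ex3_c t152_B00pm_101_s1 t151_B00pm_101_s1

theorem t154_B00pm_101_s1 : ∃ t, chk3 f_B00pm_101_s1 t 73 511 1 = true := ex3_b t153_B00pm_101_s1 k86_B00pm_101_s1

theorem t155_B00pm_101_s1 : ∃ t, chk3 f_B00pm_101_s1 t 73 510 3 = true := ex3_a k80_B00pm_101_s1 k81_B00pm_101_s1

theorem t156_B00pm_101_s1 : ∃ t, chk3 f_B00pm_101_s1 t 73 510 1 = true := ex3_c k79_B00pm_101_s1 t155_B00pm_101_s1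

theorem t157_B00pm_101_s1 : ∃ t, chk3 f_B00pm_101_s1 t 73 255 1 = true := ex3_b t156_B00pm_101_s1 t154_B00pm_101_s1

theorem t158_B00pm_101_s1 : ∃ t, chk3 f_B00pm_101_s1 t 72 1022 3 = true := ex3_b k76_B00pm_101_s1 k77_B00pm_101_s1

theorem t159_B00pm_101_s1 : ∃ t, chk3 f_B00pm_101_s1 t 72 1022 2 = true := ex3_b k74_B00pm_101_s1 k75_B00pm_101_s1

theorem t160_B00pm_101_s1 : ∃ t, chk3 f_B00pm_101_s1 t 72 1022 1 = true := ex3_c t159_B00pm_101_s1 t158_B00pm_101_s1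

theorem t161_B00pm_101_s1 : ∃ t, chk3 f_B00pm_101_s1 t 72 511 1 = true := ex3_b t160_B00pm_101_s1 k78_B00pm_101_s1

theorem t162_B00pm_101_s1 : ∃ t, chk3 f_B00pm_101_s1 t 72 510 3 = true := ex3_a k72_B00pm_101_s1 k73_B00pm_101_s1

theorem t163_B00pm_101_s1 : ∃ t, chk3 f_B00pm_101_s1 t 72 510 1 = true := ex3_c k71_B00pm_101_s1 t162_B00pm_101_s1

theorem t164_B00pm_101_s1 : ∃ t, chk3 f_B00pm_101_s1 t 72 255 1 = true := ex3_b t163_B00pm_101_s1 t161_B00pm_101_s1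

theorem t165_B00pm_101_s1 : ∃ t, chk3 f_B00pm_101_s1 t 36 255 1 = true := ex3_a t164_B00pm_101_s1 t157_B00pm_101_s1

theorem t166_B00pm_101_s1 : ∃ t, chk3 f_B00pm_101_s1 t 73 254 1 = true := ex3_c k69_B00pm_101_s1 k70_B00pm_101_s1

theorem t167_B00pm_101_s1 : ∃ t, chk3 f_B00pm_101_s1 t 72 254 1 = true := ex3_a k67_B00pm_101_s1 k68_B00pm_101_s1

theorem t168_B00pm_101_s1 : ∃ t, chk3 f_B00pm_101_s1 t 36 254 1 = true := ex3_a t167_B00pm_101_s1 t166_B00pm_101_s1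

theorem t169_B00pm_101_s1 : ∃ t, chk3 f_B00pm_101_s1 t 36 127 1 = true := ex3_b t168_B00pm_101_s1 t165_B00pm_101_s1

theorem t170_B00pm_101_s1 : ∃ t, chk3 f_B00pm_101_s1 t 36 126 1 = true := ex3_a k65_B00pm_101_s1 k66_B00pm_101_s1

theorem t171_B00pm_101_s1 : ∃ t, chk3 f_B00pm_101_s1 t 36 63 1 = true := ex3_b t170_B00pm_101_s1 t169_B00pm_101_s1

theorem t172_B00pm_101_s1 : ∃ t, chk3 f_B00pm_101_s1 t 18 63 1 = true := ex3_a t171_B00pm_101_s1 t150_B00pm_101_s1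

theorem t173_B00pm_101_s1 : ∃ t, chk3 f_B00pm_101_s1 t 36 62 1 = true := ex3_b k62_B00pm_101_s1 k63_B00pm_101_s1

theorem t174_B00pm_101_s1 : ∃ t, chk3 f_B00pm_101_s1 t 18 62 1 = true := ex3_a t173_B00pm_101_s1 k64_B00pm_101_s1

theorem t175_B00pm_101_s1 : ∃ t, chk3 f_B00pm_101_s1 t 18 31 1 = true := ex3_b t174_B00pm_101_s1 t172_B00pm_101_s1

theorem t176_B00pm_101_s1 : ∃ t, chk3 f_B00pm_101_s1 t 9 31 1 = true := ex3_a t175_B00pm_101_s1 t129_B00pm_101_s1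

theorem t177_B00pm_101_s1 : ∃ t, chk3 f_B00pm_101_s1 t 9 15 1 = true := ex3_b k61_B00pm_101_s1 t176_B00pm_101_s1

theorem t178_B00pm_101_s1 : ∃ t, chk3 f_B00pm_101_s1 t 9 7 1 = true := ex3_b k60_B00pm_101_s1 t177_B00pm_101_s1

theorem t179_B00pm_101_s1 : ∃ t, chk3 f_B00pm_101_s1 t 143 1022 1 = true := ex3_b k57_B00pm_101_s1 k58_B00pm_101_s1

theorem t180_B00pm_101_s1 : ∃ t, chk3 f_B00pm_101_s1 t 143 511 1 = true := ex3_b t179_B00pm_101_s1 k59_B00pm_101_s1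

theorem t181_B00pm_101_s1 : ∃ t, chk3 f_B00pm_101_s1 t 143 510 1 = true := ex3_c k55_B00pm_101_s1 k56_B00pm_101_s1

theorem t182_B00pm_101_s1 : ∃ t, chk3 f_B00pm_101_s1 t 143 255 1 = true := ex3_b t181_B00pm_101_s1 t180_B00pm_101_s1

theorem t183_B00pm_101_s1 : ∃ t, chk3 f_B00pm_101_s1 t 143 127 1 = true := ex3_b k54_B00pm_101_s1 t182_B00pm_101_s1

theorem t184_B00pm_101_s1 : ∃ t, chk3 f_B00pm_101_s1 t 568 1023 3 = true := ex3_c k50_B00pm_101_s1 k51_B00pm_101_s1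

theorem t185_B00pm_101_s1 : ∃ t, chk3 f_B00pm_101_s1 t 284 1023 3 = true := ex3_a t184_B00pm_101_s1 k52_B00pm_101_s1

theorem t186_B00pm_101_s1 : ∃ t, chk3 f_B00pm_101_s1 t 284 1023 1 = true := ex3_c k49_B00pm_101_s1 t185_B00pm_101_s1

theorem t187_B00pm_101_s1 : ∃ t, chk3 f_B00pm_101_s1 t 142 1023 1 = true := ex3_a t186_B00pm_101_s1 k53_B00pm_101_s1

theorem t188_B00pm_101_s1 : ∃ t, chk3 f_B00pm_101_s1 t 142 1022 1 = true := ex3_c k47_B00pm_101_s1 k48_B00pm_101_s1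

theorem t189_B00pm_101_s1 : ∃ t, chk3 f_B00pm_101_s1 t 142 511 1 = true := ex3_b t188_B00pm_101_s1 t187_B00pm_101_s1

theorem t190_B00pm_101_s1 : ∃ t, chk3 f_B00pm_101_s1 t 142 510 1 = true := ex3_c k45_B00pm_101_s1 k46_B00pm_101_s1

theorem t191_B00pm_101_s1 : ∃ t, chk3 f_B00pm_101_s1 t 142 255 1 = true := ex3_b t190_B00pm_101_s1 t189_B00pm_101_s1

theorem t192_B00pm_101_s1 : ∃ t, chk3 f_B00pm_101_s1 t 142 127 1 = true := ex3_b k44_B00pm_101_s1 t191_B00pm_101_s1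

theorem t193_B00pm_101_s1 : ∃ t, chk3 f_B00pm_101_s1 t 71 127 1 = true := ex3_a t192_B00pm_101_s1 t183_B00pm_101_s1

theorem t194_B00pm_101_s1 : ∃ t, chk3 f_B00pm_101_s1 t 71 63 1 = true := ex3_b k43_B00pm_101_s1 t193_B00pm_101_s1

theorem t195_B00pm_101_s1 : ∃ t, chk3 f_B00pm_101_s1 t 567 1023 3 = true := ex3_b k41_B00pm_101_s1 k42_B00pm_101_s1

theorem t196_B00pm_101_s1 : ∃ t, chk3 f_B00pm_101_s1 t 283 1023 3 = true := ex3_a k40_B00pm_101_s1 t195_B00pm_101_s1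

theorem t197_B00pm_101_s1 : ∃ t, chk3 f_B00pm_101_s1 t 283 511 3 = true := ex3_b k39_B00pm_101_s1 t196_B00pm_101_s1

theorem t198_B00pm_101_s1 : ∃ t, chk3 f_B00pm_101_s1 t 282 511 3 = true := ex3_b k37_B00pm_101_s1 k38_B00pm_101_s1

theorem t199_B00pm_101_s1 : ∃ t, chk3 f_B00pm_101_s1 t 141 511 3 = true := ex3_a t198_B00pm_101_s1 t197_B00pm_101_s1

theorem t200_B00pm_101_s1 : ∃ t, chk3 f_B00pm_101_s1 t 283 511 2 = true := ex3_b k35_B00pm_101_s1 k36_B00pm_101_s1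

theorem t201_B00pm_101_s1 : ∃ t, chk3 f_B00pm_101_s1 t 141 511 2 = true := ex3_a k34_B00pm_101_s1 t200_B00pm_101_s1

theorem t202_B00pm_101_s1 : ∃ t, chk3 f_B00pm_101_s1 t 141 511 1 = true := ex3_c t201_B00pm_101_s1 t199_B00pm_101_s1

theorem t203_B00pm_101_s1 : ∃ t, chk3 f_B00pm_101_s1 t 141 255 1 = true := ex3_b k33_B00pm_101_s1 t202_B00pm_101_s1

theorem t204_B00pm_101_s1 : ∃ t, chk3 f_B00pm_101_s1 t 140 255 3 = true := ex3_c k31_B00pm_101_s1 k32_B00pm_101_s1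

theorem t205_B00pm_101_s1 : ∃ t, chk3 f_B00pm_101_s1 t 140 255 2 = true := ex3_b k29_B00pm_101_s1 k30_B00pm_101_s1

theorem t206_B00pm_101_s1 : ∃ t, chk3 f_B00pm_101_s1 t 140 255 1 = true := ex3_c t205_B00pm_101_s1 t204_B00pm_101_s1

theorem t207_B00pm_101_s1 : ∃ t, chk3 f_B00pm_101_s1 t 70 255 1 = true := ex3_a t206_B00pm_101_s1 t203_B00pm_101_s1

theorem t208_B00pm_101_s1 : ∃ t, chk3 f_B00pm_101_s1 t 70 254 1 = true := ex3_c k27_B00pm_101_s1 k28_B00pm_101_s1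

theorem t209_B00pm_101_s1 : ∃ t, chk3 f_B00pm_101_s1 t 70 127 1 = true := ex3_b t208_B00pm_101_s1 t207_B00pm_101_s1

theorem t210_B00pm_101_s1 : ∃ t, chk3 f_B00pm_101_s1 t 70 63 1 = true := ex3_b k26_B00pm_101_s1 t209_B00pm_101_s1

theorem t211_B00pm_101_s1 : ∃ t, chk3 f_B00pm_101_s1 t 35 63 1 = true := ex3_a t210_B00pm_101_s1 t194_B00pm_101_s1

theorem t212_B00pm_101_s1 : ∃ t, chk3 f_B00pm_101_s1 t 71 62 1 = true := ex3_b k24_B00pm_101_s1 k25_B00pm_101_s1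

theorem t213_B00pm_101_s1 : ∃ t, chk3 f_B00pm_101_s1 t 35 62 1 = true := ex3_a k23_B00pm_101_s1 t212_B00pm_101_s1

theorem t214_B00pm_101_s1 : ∃ t, chk3 f_B00pm_101_s1 t 35 31 1 = true := ex3_b t213_B00pm_101_s1 t211_B00pm_101_s1

theorem t215_B00pm_101_s1 : ∃ t, chk3 f_B00pm_101_s1 t 69 127 1 = true := ex3_c k21_B00pm_101_s1 k22_B00pm_101_s1

theorem t216_B00pm_101_s1 : ∃ t, chk3 f_B00pm_101_s1 t 69 63 1 = true := ex3_b k20_B00pm_101_s1 t215_B00pm_101_s1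

theorem t217_B00pm_101_s1 : ∃ t, chk3 f_B00pm_101_s1 t 68 63 1 = true := ex3_b k18_B00pm_101_s1 k19_B00pm_101_s1

theorem t218_B00pm_101_s1 : ∃ t, chk3 f_B00pm_101_s1 t 34 63 1 = true := ex3_a t217_B00pm_101_s1 t216_B00pm_101_s1

theorem t219_B00pm_101_s1 : ∃ t, chk3 f_B00pm_101_s1 t 34 124 1 = true := ex3_a k15_B00pm_101_s1 k16_B00pm_101_s1

theorem t220_B00pm_101_s1 : ∃ t, chk3 f_B00pm_101_s1 t 34 62 1 = true := ex3_b t219_B00pm_101_s1 k17_B00pm_101_s1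

theorem t221_B00pm_101_s1 : ∃ t, chk3 f_B00pm_101_s1 t 34 31 1 = true := ex3_b t220_B00pm_101_s1 t218_B00pm_101_s1

theorem t222_B00pm_101_s1 : ∃ t, chk3 f_B00pm_101_s1 t 17 31 1 = true := ex3_a t221_B00pm_101_s1 t214_B00pm_101_s1

theorem t223_B00pm_101_s1 : ∃ t, chk3 f_B00pm_101_s1 t 17 15 1 = true := ex3_b k14_B00pm_101_s1 t222_B00pm_101_s1

theorem t224_B00pm_101_s1 : ∃ t, chk3 f_B00pm_101_s1 t 33 63 1 = true := ex3_a k12_B00pm_101_s1 k13_B00pm_101_s1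

theorem t225_B00pm_101_s1 : ∃ t, chk3 f_B00pm_101_s1 t 16 63 1 = true := ex3_a k11_B00pm_101_s1 t224_B00pm_101_s1

theorem t226_B00pm_101_s1 : ∃ t, chk3 f_B00pm_101_s1 t 16 124 1 = true := ex3_c k8_B00pm_101_s1 k9_B00pm_101_s1

theorem t227_B00pm_101_s1 : ∃ t, chk3 f_B00pm_101_s1 t 16 62 1 = true := ex3_b t226_B00pm_101_s1 k10_B00pm_101_s1

theorem t228_B00pm_101_s1 : ∃ t, chk3 f_B00pm_101_s1 t 16 31 1 = true := ex3_b t227_B00pm_101_s1 t225_B00pm_101_s1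

theorem t229_B00pm_101_s1 : ∃ t, chk3 f_B00pm_101_s1 t 32 61 1 = true := ex3_a k5_B00pm_101_s1 k6_B00pm_101_s1

theorem t230_B00pm_101_s1 : ∃ t, chk3 f_B00pm_101_s1 t 16 61 1 = true := ex3_a t229_B00pm_101_s1 k7_B00pm_101_s1

theorem t231_B00pm_101_s1 : ∃ t, chk3 f_B00pm_101_s1 t 16 60 1 = true := ex3_a k3_B00pm_101_s1 k4_B00pm_101_s1

theorem t232_B00pm_101_s1 : ∃ t, chk3 f_B00pm_101_s1 t 16 30 1 = true := ex3_b t231_B00pm_101_s1 t230_B00pm_101_s1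

theorem t233_B00pm_101_s1 : ∃ t, chk3 f_B00pm_101_s1 t 16 15 1 = true := ex3_b t232_B00pm_101_s1 t228_B00pm_101_s1

theorem t234_B00pm_101_s1 : ∃ t, chk3 f_B00pm_101_s1 t 8 15 1 = true := ex3_a t233_B00pm_101_s1 t223_B00pm_101_s1

theorem t235_B00pm_101_s1 : ∃ t, chk3 f_B00pm_101_s1 t 8 7 1 = true := ex3_b k2_B00pm_101_s1 t234_B00pm_101_s1

theorem t236_B00pm_101_s1 : ∃ t, chk3 f_B00pm_101_s1 t 4 7 1 = true := ex3_a t235_B00pm_101_s1 t178_B00pm_101_s1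

theorem t237_B00pm_101_s1 : ∃ t, chk3 f_B00pm_101_s1 t 4 3 1 = true := ex3_b k1_B00pm_101_s1 t236_B00pm_101_s1

theorem t238_B00pm_101_s1 : ∃ t, chk3 f_B00pm_101_s1 t 2 3 1 = true := ex3_a t237_B00pm_101_s1 k119_B00pm_101_s1

theorem t239_B00pm_101_s1 : ∃ t, chk3 f_B00pm_101_s1 t 2 1 1 = true := ex3_b k0_B00pm_101_s1 t238_B00pm_101_s1

theorem t240_B00pm_101_s1 : ∃ t, chk3 f_B00pm_101_s1 t 1 1 1 = true := ex3_a t239_B00pm_101_s1 k120_B00pm_101_s1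

theorem c_B00pm_101_s1 : CertF 536870912 536870912 536870912 536870912 966367641 24778659 false true false .npn 1 0 1
    ndB0q1 ndB0q1 pcB0 cut_B00pm_101_s1 Ext.none :=
  certF2 (fam := false) (s1 := true) (s2 := false) (a := 1) (b := 0) (c := 1) (cn := .npn) (n1 := ndB0q1) (n2 := ndB0q1) (pc := pcB0) (cut := cut_B00pm_101_s1) (xt := Ext.none) (P1 := 536870912) (W1 := 536870912) (P2 := 536870912) (W2 := 536870912) (P3 := 966367641) (W3 := 24778659)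
    rfl (fun _ => rfl) t240_B00pm_101_s1

theorem s_B00pm_101_s1 {κ x : ℝ} (hκ : κ * h0 = ken x) (hx : ((966367641 : ℕ) : ℝ) / S ≤ x)
    (hx' : x ≤ (((966367641 : ℕ) : ℝ) + (24778659 : ℕ)) / S)
    (H : CutB (VFD κ) PP tK tL pcB (Cut.of [[⟨0, 1, 0, 26843545⟩, ⟨1, 0, 0, 26843545⟩, ⟨2, 1, 0, 26843545⟩], [⟨0, 0, 1, 46137344⟩, ⟨1, 1, 2, 46137344⟩, ⟨2, 1, 0, 1572864⟩, ⟨0, 0, 0, 1013612281⟩, ⟨0, 1, 0, 128849018⟩, ⟨1, 0, 0, 128849018⟩, ⟨1, 1, 0, 1013612281⟩]]) 1 0 1 0 0 (sgb true) (sgb false) x) :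
    AltB (VFD κ) PP tK tL pcB [⟨3, 0, 0, 1449551462⟩] 1 0 1 0 0 (sgb true) (sgb false) x :=
  strip_altBD (m := 1449551462) true rfl hκ (SH.κ0 hκ (SH.hx1 hx).le (SH.hx2 hx').le) (SH.hx1 hx).le (SH.hx2 hx') (covB01).cov (covB01).cov hx hx' c_B00pm_101_s1 H (noExt_B)

end Pool.Agent.Strip051.G.I9000_9231.Tab.St.C
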