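import Pool.Agent.Strip051.G.I9000_9231.StH
import Pool.Agent.Strip051.G.I9000_9231.StF

/-! # Unit strips 17 (generated) -/

set_option linter.all false
set_option maxRecDepth 100000

namespace Pool.Agent.Strip051.G.I9000_9231.Tab.St.C

open Pool.Agent.Strip051.PB Pool.Agent.Strip051.PB.T Pool.Agent.StripNear Pool.Agent.Strip051.LC
open Pool.Agent.Strip051.G.I9000_9231.Tab Pool.Agent.Strip051.G.I9000_9231.Tab.St

noncomputable def cut_B00pm_101_s3 : Cut := Cut.of [[⟨3, 0, 0, 2845415833⟩], [⟨0, 1, 0, 26843545⟩, ⟨1, 0, 0, 26843545⟩, ⟨2, 1, 0, 26843545⟩], [⟨0, 0, 1, 46137344⟩, ⟨1, 1, 2, 46137344⟩, ⟨2, 1, 0, 1572864⟩, ⟨0, 0, 0, 1013612281⟩, ⟨0, 1, 0, 128849018⟩, ⟨1, 0, 0, 128849018⟩, ⟨1, 1, 0, 1013612281⟩]]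

noncomputable def xt_B00pm_101_s3 : Ext := strExt dd false true false .u0 .u0m .s0m .npn 1 0 1 rfl rfl gl0 vv ndB0q1 ndB0q1

noncomputable def f_B00pm_101_s3 : ℕ → ℕ → ℕ → ℕ → Bool := onCell 536870912 536870912 536870912 536870912 966367641 24778659
    (rowF 0 false true false .npn 1 0 1 (qsf 536870912 536870912 536870912 536870912 0) ndB0q1 ndB0q1 pcB0 cut_B00pm_101_s3 xt_B00pm_101_s3)

def k0_B00pm_101_s3 : ∃ t, chk3 f_B00pm_101_s3 t 4 4 1 = true :=
  ⟨(b (a (l 4) (a (a (l 4) (l 1)) (l 1))) (a (a (a (l 4) (a (l 4) (b (l 4) (b (l 4) (l 528592143))))) (b (a (l 4) (a (l 4) (b (l 4) (l 527424783)))) (c (b (a (l 528035087) (l 527846415)) (l 528566287)) (b (l 527980559) (l 528356111))))) (b (b (a (c (a (l 526935311) (l 526765071)) (l 526761999)) (l 1)) (a (c (l 527198479) (l 527132943)) (c (l 526858511) (l 526675215)))) (a (c (b (l 527559695) (l 527922703)) (b (l 527507983) (l 527884303))) (c (b (l 527201039) (l 527554575)) (b (l 527036943)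 (l 527406607))))))), by decide +kernel⟩

def k1_B00pm_101_s3 : ∃ t, chk3 f_B00pm_101_s3 t 4 10 1 = true :=
  ⟨(a (b (b (a (c (a (l 529101071) (l 528928271)) (l 529708047)) (c (l 528653839) (l 528725263))) (a (a (b (l 529450767) (a (c (l 529552911) (l 529766671)) (l 529571599))) (b (l 529260815) (l 529430287))) (c (l 529269007) (l 529086223)))) (a (c (b (a (c (b (l 529623311) (l 529793295)) (l 529804815)) (b (l 529512975) (l 529680655))) (a (a (l 530131215) (l 530051599)) (b (l 529848847) (l 530015247)))) (b (a (c (l 529897231) (b (l 529915663) (l 530053903))) (b (l 529674511) (l 529826575))) (a (a (l 530248463) (l 530167311)) (b (l 529969167) (l 530104591))))) (b (c (a (l 529429519) (l 529260047)) (a (l 529543951) (l 529329679))) (c (a (l 529768719) (l 529603855)) (a (l 529847823) (l 529648143)))))) (b (a (b (c (l 528283919) (l 528258831)) (c (l 528640527) (l 528628751))) (c (b (l 527913231) (l 528272911)) (b (l 527780367) (l 528154383))))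 (b (a (c (a (l 529085711) (l 528908047)) (l 529525519)) (c (l 528631567) (l 528523791))) (c (a (a (l 529434895) (l 529261839)) (l 528991759)) (a (a (l 529438735) (l 529221391)) (l 528877327)))))), by decide +kernel⟩

def k2_B00pm_101_s3 : ∃ t, chk3 f_B00pm_101_s3 t 4 11 1 = true :=
  ⟨(b (a (a (a (b (c (l 530946575) (a (l 530489871) (l 530415887))) (c (l 531517711) (a (l 530715407) (l 530648335)))) (b (c (l 530257167) (l 530563855)) (c (l 530568463) (l 530538511)))) (b (a (c (l 530101263) (l 530125327)) (c (l 529941775) (l 529941519))) (a (c (l 530420751) (l 530382351)) (c (l 530268431) (l 530214415))))) (b (a (c (a (l 529778703) (l 529611535)) (a (l 529746703) (l 529542159))) (a (l 529385231) (l 529187343))) (a (a (c (l 530112527) (l 530034447)) (c (l 16553888) (l 16549136))) (a (l 530255375) (l 529530127))))) (a (c (a (b (a (c (l 531013391) (l 530975759)) (l 531667215)) (a (c (l 531291663) (l 531224591)) (c (l 531165199) (l 531102223))))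 (a (b (l 530723343) (l 531543567)) (b (l 530580239) (l 530873359)))) (a (b (a (b (l 530844687) (l 530948111)) (b (l 530712335) (l 530821647))) (a (a (l 531126799) (l 531070991)) (c (l 531023887) (l 530931983)))) (a (b (l 530622735) (a (l 16539880) (l 16522904))) (b (l 530468623) (l 530708751))))) (a (a (b (c (l 16571880) (l 530303503)) (c (l 16468088) (l 16543056))) (b (c (l 16449128) (l 16441560)) (c (l 16430192) (l 16419328)))) (b (a (c (l 16408096) (l 16398120)) (c (l 16364800) (l 16351792))) (a (c (l 16390200) (l 16376856)) (l 6)))))), by decide +kernel⟩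

def k3_B00pm_101_s3 : ∃ t, chk3 f_B00pm_101_s3 t 5 2 1 = true :=
  ⟨(b (a (b (l 1) (a (a (b (l 1) (b (l 1) (l 527162127))) (l 1)) (l 1))) (l 1)) (b (a (b (a (c (c (l 528077839) (l 527653647)) (c (l 527528719) (l 527433743))) (b (l 1) (a (l 527476751) (l 1)))) (a (a (b (l 528260111) (l 528625935)) (b (l 528048911) (l 528417039))) (b (a (l 527841039) (l 527639055)) (a (l 528209423) (l 6))))) (a (b (l 1) (l 6)) (l 1))) (a (b (a (a (b (l 528985871) (l 529337103)) (b (l 528782095) (l 6))) (l 6)) (l 6)) (l 6)))), by decide +kernel⟩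

def k4_B00pm_101_s3 : ∃ t, chk3 f_B00pm_101_s3 t 2 3 1 = true :=
  ⟨(b (a (b (a (b (a (a (c (c (b (l 531544591) (l 531775247)) (b (l 531455759) (l 531670031))) (b (c (l 531352079) (l 531503119)) (a (l 531240975) (l 531730703)))) (b (a (b (l 16537352) (l 16526464)) (b (l 16542784) (l 16532056))) (a (b (l 16515856) (l 16505504)) (b (l 16521608) (l 16511416))))) (b (a (a (b (l 16526792) (l 16516232)) (b (l 16510320) (l 16499944))) (c (l 16526544) (a (l 16482784) (l 16465048)))) (a (c (a (l 16506448) (l 16490720)) (a (l 16494576) (l 16478224))) (c (l 16508368) (a (l 16461376) (l 16444024)))))) (a (b (a (c (c (l 532255503) (l 531734799)) (a (b (l 16538672) (l 16527800)) (b (l 16524304) (l 16513568)))) (a (b (l 16474416) (l 16506472)) (b (l 16501472) (l 16491744)))) (a (c (b (a (l 16531600) (l 16518048)) (a (l 16522592) (l 16509224))) (a (b (l 16517112) (l 16506872)) (b (l 16503024) (l 16492944)))) (c (a (l 16457840) (l 16485584)) (a (b (l 16488536)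 (l 16478616)) (l 16426792))))) (b (a (a (b (l 16486160) (l 16476608)) (c (l 16472920) (l 16457504))) (c (l 16491184) (a (l 16441008) (l 6)))) (a (a (b (l 16467272) (l 6)) (l 6)) (l 6))))) (b (a (a (b (c (l 16449648) (l 16437504)) (a (l 16434088) (l 6))) (b (c (l 16412784) (l 16398568)) (l 6))) (l 6)) (l 6))) (a (b (a (a (b (b (c (l 16507608) (a (l 16497280) (l 16483528))) (c (l 16499688) (a (l 16488256) (l 6)))) (l 6)) (l 6)) (l 6)) (l 6)) (l 6))) (l 6)) (l 6)), by decide +kernel⟩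

def k5_B00pm_101_s3 : ∃ t, chk3 f_B00pm_101_s3 t 3 1 1 = true :=
  ⟨(b (a (b (l 1) (l 6)) (l 1)) (l 6)), by decide +kernel⟩

theorem t6_B00pm_101_s3 : ∃ t, chk3 f_B00pm_101_s3 t 4 5 1 = true := ex3_b k1_B00pm_101_s3 k2_B00pm_101_s3

theorem t7_B00pm_101_s3 : ∃ t, chk3 f_B00pm_101_s3 t 4 2 1 = true := ex3_b k0_B00pm_101_s3 t6_B00pm_101_s3

theorem t8_B00pm_101_s3 : ∃ t, chk3 f_B00pm_101_s3 t 2 2 1 = true := ex3_a t7_B00pm_101_s3 k3_B00pm_101_s3

theorem t9_B00pm_101_s3 : ∃ t, chk3 f_B00pm_101_s3 t 2 1 1 = true := ex3_b t8_B00pm_101_s3 k4_B00pm_101_s3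

theorem t10_B00pm_101_s3 : ∃ t, chk3 f_B00pm_101_s3 t 1 1 1 = true := ex3_a t9_B00pm_101_s3 k5_B00pm_101_s3

theorem c_B00pm_101_s3 : CertF 536870912 536870912 536870912 536870912 966367641 24778659 false true false .npn 1 0 1
    ndB0q1 ndB0q1 pcB0 cut_B00pm_101_s3 xt_B00pm_101_s3 :=
  certF0 (fam := false) (s1 := true) (s2 := false) (a := 1) (b := 0) (c := 1) (cn := .npn) (n1 := ndB0q1) (n2 := ndB0q1) (pc := pcB0) (cut := cut_B00pm_101_s3) (xt := xt_B00pm_101_s3) (P1 := 536870912) (W1 := 536870912) (P2 := 536870912) (W2 := 536870912) (P3 := 966367641) (W3 := 24778659)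
    rfl t10_B00pm_101_s3

theorem s_B00pm_101_s3 {κ x : ℝ} (hκ : κ * h0 = ken x) (hx : ((966367641 : ℕ) : ℝ) / S ≤ x)
    (hx' : x ≤ (((966367641 : ℕ) : ℝ) + (24778659 : ℕ)) / S)
    (H : CutB (VFD κ) PP tK tL pcB (Cut.of [[⟨0, 1, 0, 26843545⟩, ⟨1, 0, 0, 26843545⟩, ⟨2, 1, 0, 26843545⟩], [⟨0, 0, 1, 46137344⟩, ⟨1, 1, 2, 46137344⟩, ⟨2, 1, 0, 1572864⟩, ⟨0, 0, 0, 1013612281⟩, ⟨0, 1, 0, 128849018⟩, ⟨1, 0, 0, 128849018⟩, ⟨1, 1, 0, 1013612281⟩]]) 1 0 1 0 0 (sgb true) (sgb false) x) :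
    AltB (VFD κ) PP tK tL pcB [⟨4, 0, 0, 2845415833⟩] 1 0 1 0 0 (sgb true) (sgb false) x :=
  strip_altBD (m := 2845415833) false rfl hκ (SH.κ0 hκ (SH.hx1 hx).le (SH.hx2 hx').le) (SH.hx1 hx).le (SH.hx2 hx') (covB01).cov (covB01).cov hx hx' c_B00pm_101_s3 H ((okx hx hx').extB (T := tt) (sideB hx hx') hκ rfl rfl (.O 1 true) (.O 1 false) (Or.inl rfl))

end Pool.Agent.Strip051.G.I9000_9231.Tab.St.C
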