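import Pool.Agent.Strip051.G.I9000_9231.StH
import Pool.Agent.Strip051.G.I9000_9231.Sp18_0
import Pool.Agent.Strip051.G.I9000_9231.Sp18_1
import Pool.Agent.Strip051.G.I9000_9231.Sp18_2
import Pool.Agent.Strip051.G.I9000_9231.StF

/-! # Unit strips 18 (generated) -/

set_option linter.all false
set_option maxRecDepth 100000

namespace Pool.Agent.Strip051.G.I9000_9231.Tab.St.C

open Pool.Agent.Strip051.PB Pool.Agent.Strip051.PB.T Pool.Agent.StripNear Pool.Agent.Strip051.LC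
open Pool.Agent.Strip051.G.I9000_9231.Tab Pool.Agent.Strip051.G.I9000_9231.Tab.St

theorem t237_B00pm_102_s1 : ∃ t, chk3 f_B00pm_102_s1 t 1000 1010 3 = true := ex3_c k228_B00pm_102_s1 k229_B00pm_102_s1

theorem t238_B00pm_102_s1 : ∃ t, chk3 f_B00pm_102_s1 t 500 1010 3 = true := ex3_a t237_B00pm_102_s1 k230_B00pm_102_s1

theorem t239_B00pm_102_s1 : ∃ t, chk3 f_B00pm_102_s1 t 500 505 3 = true := ex3_b t238_B00pm_102_s1 k231_B00pm_102_s1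

theorem t240_B00pm_102_s1 : ∃ t, chk3 f_B00pm_102_s1 t 500 252 3 = true := ex3_b k227_B00pm_102_s1 t239_B00pm_102_s1

theorem t241_B00pm_102_s1 : ∃ t, chk3 f_B00pm_102_s1 t 250 252 3 = true := ex3_a t240_B00pm_102_s1 k232_B00pm_102_s1

theorem t242_B00pm_102_s1 : ∃ t, chk3 f_B00pm_102_s1 t 125 252 3 = true := ex3_a t241_B00pm_102_s1 k233_B00pm_102_s1

theorem t243_B00pm_102_s1 : ∃ t, chk3 f_B00pm_102_s1 t 125 252 1 = true := ex3_c k226_B00pm_102_s1 t242_B00pm_102_s1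

theorem t244_B00pm_102_s1 : ∃ t, chk3 f_B00pm_102_s1 t 125 126 1 = true := ex3_b t243_B00pm_102_s1 k234_B00pm_102_s1

theorem t245_B00pm_102_s1 : ∃ t, chk3 f_B00pm_102_s1 t 499 504 7 = true := ex3_a k222_B00pm_102_s1 k223_B00pm_102_s1

theorem t246_B00pm_102_s1 : ∃ t, chk3 f_B00pm_102_s1 t 498 1008 7 = true := ex3_b k219_B00pm_102_s1 k220_B00pm_102_s1

theorem t247_B00pm_102_s1 : ∃ t, chk3 f_B00pm_102_s1 t 498 504 7 = true := ex3_b t246_B00pm_102_s1 k221_B00pm_102_s1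

theorem t248_B00pm_102_s1 : ∃ t, chk3 f_B00pm_102_s1 t 249 504 7 = true := ex3_a t247_B00pm_102_s1 t245_B00pm_102_s1

theorem t249_B00pm_102_s1 : ∃ t, chk3 f_B00pm_102_s1 t 249 252 7 = true := ex3_b t248_B00pm_102_s1 k224_B00pm_102_s1

theorem t250_B00pm_102_s1 : ∃ t, chk3 f_B00pm_102_s1 t 249 252 6 = true := ex3_a k217_B00pm_102_s1 k218_B00pm_102_s1

theorem t251_B00pm_102_s1 : ∃ t, chk3 f_B00pm_102_s1 t 249 252 3 = true := ex3_c t250_B00pm_102_s1 t249_B00pm_102_s1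

theorem t252_B00pm_102_s1 : ∃ t, chk3 f_B00pm_102_s1 t 249 504 2 = true := ex3_a k214_B00pm_102_s1 k215_B00pm_102_s1

theorem t253_B00pm_102_s1 : ∃ t, chk3 f_B00pm_102_s1 t 249 252 2 = true := ex3_b t252_B00pm_102_s1 k216_B00pm_102_s1

theorem t254_B00pm_102_s1 : ∃ t, chk3 f_B00pm_102_s1 t 249 252 1 = true := ex3_c t253_B00pm_102_s1 t251_B00pm_102_s1

theorem t255_B00pm_102_s1 : ∃ t, chk3 f_B00pm_102_s1 t 249 126 1 = true := ex3_b t254_B00pm_102_s1 k225_B00pm_102_s1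

theorem t256_B00pm_102_s1 : ∃ t, chk3 f_B00pm_102_s1 t 124 126 1 = true := ex3_a k213_B00pm_102_s1 t255_B00pm_102_s1

theorem t257_B00pm_102_s1 : ∃ t, chk3 f_B00pm_102_s1 t 62 126 1 = true := ex3_a t256_B00pm_102_s1 t244_B00pm_102_s1

theorem t258_B00pm_102_s1 : ∃ t, chk3 f_B00pm_102_s1 t 62 63 1 = true := ex3_b t257_B00pm_102_s1 k235_B00pm_102_s1

theorem t259_B00pm_102_s1 : ∃ t, chk3 f_B00pm_102_s1 t 31 63 1 = true := ex3_a t258_B00pm_102_s1 k236_B00pm_102_s1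

theorem t260_B00pm_102_s1 : ∃ t, chk3 f_B00pm_102_s1 t 250 62 3 = true := ex3_b k209_B00pm_102_s1 k210_B00pm_102_s1

theorem t261_B00pm_102_s1 : ∃ t, chk3 f_B00pm_102_s1 t 250 62 1 = true := ex3_c k208_B00pm_102_s1 t260_B00pm_102_s1

theorem t262_B00pm_102_s1 : ∃ t, chk3 f_B00pm_102_s1 t 125 62 1 = true := ex3_a t261_B00pm_102_s1 k211_B00pm_102_s1

theorem t263_B00pm_102_s1 : ∃ t, chk3 f_B00pm_102_s1 t 249 125 1 = true := ex3_a k206_B00pm_102_s1 k207_B00pm_102_s1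

theorem t264_B00pm_102_s1 : ∃ t, chk3 f_B00pm_102_s1 t 497 503 7 = true := ex3_a k204_B00pm_102_s1 k205_B00pm_102_s1

theorem t265_B00pm_102_s1 : ∃ t, chk3 f_B00pm_102_s1 t 248 503 7 = true := ex3_a k203_B00pm_102_s1 t264_B00pm_102_s1

theorem t266_B00pm_102_s1 : ∃ t, chk3 f_B00pm_102_s1 t 248 251 7 = true := ex3_b k202_B00pm_102_s1 t265_B00pm_102_s1

theorem t267_B00pm_102_s1 : ∃ t, chk3 f_B00pm_102_s1 t 248 125 7 = true := ex3_b k201_B00pm_102_s1 t266_B00pm_102_s1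

theorem t268_B00pm_102_s1 : ∃ t, chk3 f_B00pm_102_s1 t 248 125 6 = true := ex3_a k199_B00pm_102_s1 k200_B00pm_102_s1

theorem t269_B00pm_102_s1 : ∃ t, chk3 f_B00pm_102_s1 t 248 125 3 = true := ex3_c t268_B00pm_102_s1 t267_B00pm_102_s1

theorem t270_B00pm_102_s1 : ∃ t, chk3 f_B00pm_102_s1 t 248 503 2 = true := ex3_b k197_B00pm_102_s1 k198_B00pm_102_s1

theorem t271_B00pm_102_s1 : ∃ t, chk3 f_B00pm_102_s1 t 248 251 2 = true := ex3_b k196_B00pm_102_s1 t270_B00pm_102_s1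

theorem t272_B00pm_102_s1 : ∃ t, chk3 f_B00pm_102_s1 t 248 125 2 = true := ex3_b k195_B00pm_102_s1 t271_B00pm_102_s1

theorem t273_B00pm_102_s1 : ∃ t, chk3 f_B00pm_102_s1 t 248 125 1 = true := ex3_c t272_B00pm_102_s1 t269_B00pm_102_s1

theorem t274_B00pm_102_s1 : ∃ t, chk3 f_B00pm_102_s1 t 124 125 1 = true := ex3_a t273_B00pm_102_s1 t263_B00pm_102_s1

theorem t275_B00pm_102_s1 : ∃ t, chk3 f_B00pm_102_s1 t 124 124 1 = true := ex3_a k193_B00pm_102_s1 k194_B00pm_102_s1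

theorem t276_B00pm_102_s1 : ∃ t, chk3 f_B00pm_102_s1 t 124 62 1 = true := ex3_b t275_B00pm_102_s1 t274_B00pm_102_s1

theorem t277_B00pm_102_s1 : ∃ t, chk3 f_B00pm_102_s1 t 62 62 1 = true := ex3_a t276_B00pm_102_s1 t262_B00pm_102_s1

theorem t278_B00pm_102_s1 : ∃ t, chk3 f_B00pm_102_s1 t 31 62 1 = true := ex3_a t277_B00pm_102_s1 k212_B00pm_102_s1

theorem t279_B00pm_102_s1 : ∃ t, chk3 f_B00pm_102_s1 t 31 31 1 = true := ex3_b t278_B00pm_102_s1 t259_B00pm_102_s1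

theorem t280_B00pm_102_s1 : ∃ t, chk3 f_B00pm_102_s1 t 31 15 1 = true := ex3_b k192_B00pm_102_s1 t279_B00pm_102_s1

theorem t281_B00pm_102_s1 : ∃ t, chk3 f_B00pm_102_s1 t 122 127 1 = true := ex3_a k189_B00pm_102_s1 k190_B00pm_102_s1

theorem t282_B00pm_102_s1 : ∃ t, chk3 f_B00pm_102_s1 t 61 127 1 = true := ex3_a t281_B00pm_102_s1 k191_B00pm_102_s1

theorem t283_B00pm_102_s1 : ∃ t, chk3 f_B00pm_102_s1 t 61 126 1 = true := ex3_a k187_B00pm_102_s1 k188_B00pm_102_s1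

theorem t284_B00pm_102_s1 : ∃ t, chk3 f_B00pm_102_s1 t 61 63 1 = true := ex3_b t283_B00pm_102_s1 t282_B00pm_102_s1

theorem t285_B00pm_102_s1 : ∃ t, chk3 f_B00pm_102_s1 t 495 251 3 = true := ex3_c k185_B00pm_102_s1 k186_B00pm_102_s1

theorem t286_B00pm_102_s1 : ∃ t, chk3 f_B00pm_102_s1 t 247 251 3 = true := ex3_a k184_B00pm_102_s1 t285_B00pm_102_s1

theorem t287_B00pm_102_s1 : ∃ t, chk3 f_B00pm_102_s1 t 247 502 2 = true := ex3_a k181_B00pm_102_s1 k182_B00pm_102_s1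

theorem t288_B00pm_102_s1 : ∃ t, chk3 f_B00pm_102_s1 t 247 251 2 = true := ex3_b t287_B00pm_102_s1 k183_B00pm_102_s1

theorem t289_B00pm_102_s1 : ∃ t, chk3 f_B00pm_102_s1 t 247 251 1 = true := ex3_c t288_B00pm_102_s1 t286_B00pm_102_s1

theorem t290_B00pm_102_s1 : ∃ t, chk3 f_B00pm_102_s1 t 247 250 3 = true := ex3_c k179_B00pm_102_s1 k180_B00pm_102_s1

theorem t291_B00pm_102_s1 : ∃ t, chk3 f_B00pm_102_s1 t 247 250 1 = true := ex3_c k178_B00pm_102_s1 t290_B00pm_102_s1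

theorem t292_B00pm_102_s1 : ∃ t, chk3 f_B00pm_102_s1 t 247 125 1 = true := ex3_b t291_B00pm_102_s1 t289_B00pm_102_s1

theorem t293_B00pm_102_s1 : ∃ t, chk3 f_B00pm_102_s1 t 246 501 7 = true := ex3_a k175_B00pm_102_s1 k176_B00pm_102_s1

theorem t294_B00pm_102_s1 : ∃ t, chk3 f_B00pm_102_s1 t 246 250 7 = true := ex3_b k174_B00pm_102_s1 t293_B00pm_102_s1

theorem t295_B00pm_102_s1 : ∃ t, chk3 f_B00pm_102_s1 t 246 250 6 = true := ex3_a k172_B00pm_102_s1 k173_B00pm_102_s1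

theorem t296_B00pm_102_s1 : ∃ t, chk3 f_B00pm_102_s1 t 246 250 3 = true := ex3_c t295_B00pm_102_s1 t294_B00pm_102_s1

theorem t297_B00pm_102_s1 : ∃ t, chk3 f_B00pm_102_s1 t 493 501 2 = true := ex3_b k170_B00pm_102_s1 k171_B00pm_102_s1

theorem t298_B00pm_102_s1 : ∃ t, chk3 f_B00pm_102_s1 t 493 250 2 = true := ex3_b k169_B00pm_102_s1 t297_B00pm_102_s1

theorem t299_B00pm_102_s1 : ∃ t, chk3 f_B00pm_102_s1 t 492 250 2 = true := ex3_a k167_B00pm_102_s1 k168_B00pm_102_s1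

theorem t300_B00pm_102_s1 : ∃ t, chk3 f_B00pm_102_s1 t 246 250 2 = true := ex3_a t299_B00pm_102_s1 t298_B00pm_102_s1

theorem t301_B00pm_102_s1 : ∃ t, chk3 f_B00pm_102_s1 t 246 250 1 = true := ex3_c t300_B00pm_102_s1 t296_B00pm_102_s1

theorem t302_B00pm_102_s1 : ∃ t, chk3 f_B00pm_102_s1 t 246 125 1 = true := ex3_b t301_B00pm_102_s1 k177_B00pm_102_s1

theorem t303_B00pm_102_s1 : ∃ t, chk3 f_B00pm_102_s1 t 123 125 1 = true := ex3_a t302_B00pm_102_s1 t292_B00pm_102_s1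

theorem t304_B00pm_102_s1 : ∃ t, chk3 f_B00pm_102_s1 t 982 1000 3 = true := ex3_c k161_B00pm_102_s1 k162_B00pm_102_s1

theorem t305_B00pm_102_s1 : ∃ t, chk3 f_B00pm_102_s1 t 491 1000 3 = true := ex3_a t304_B00pm_102_s1 k163_B00pm_102_s1

theorem t306_B00pm_102_s1 : ∃ t, chk3 f_B00pm_102_s1 t 491 500 3 = true := ex3_b t305_B00pm_102_s1 k164_B00pm_102_s1

theorem t307_B00pm_102_s1 : ∃ t, chk3 f_B00pm_102_s1 t 491 1000 2 = true := ex3_a k158_B00pm_102_s1 k159_B00pm_102_s1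

theorem t308_B00pm_102_s1 : ∃ t, chk3 f_B00pm_102_s1 t 491 500 2 = true := ex3_b t307_B00pm_102_s1 k160_B00pm_102_s1

theorem t309_B00pm_102_s1 : ∃ t, chk3 f_B00pm_102_s1 t 491 500 1 = true := ex3_c t308_B00pm_102_s1 t306_B00pm_102_s1

theorem t310_B00pm_102_s1 : ∃ t, chk3 f_B00pm_102_s1 t 245 500 1 = true := ex3_a k157_B00pm_102_s1 t309_B00pm_102_s1

theorem t311_B00pm_102_s1 : ∃ t, chk3 f_B00pm_102_s1 t 245 250 1 = true := ex3_b t310_B00pm_102_s1 k165_B00pm_102_s1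

theorem t312_B00pm_102_s1 : ∃ t, chk3 f_B00pm_102_s1 t 122 250 1 = true := ex3_a k156_B00pm_102_s1 t311_B00pm_102_s1

theorem t313_B00pm_102_s1 : ∃ t, chk3 f_B00pm_102_s1 t 122 125 1 = true := ex3_b t312_B00pm_102_s1 k166_B00pm_102_s1

theorem t314_B00pm_102_s1 : ∃ t, chk3 f_B00pm_102_s1 t 61 125 1 = true := ex3_a t313_B00pm_102_s1 t303_B00pm_102_s1

theorem t315_B00pm_102_s1 : ∃ t, chk3 f_B00pm_102_s1 t 123 124 1 = true := ex3_a k154_B00pm_102_s1 k155_B00pm_102_s1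

theorem t316_B00pm_102_s1 : ∃ t, chk3 f_B00pm_102_s1 t 490 249 3 = true := ex3_a k151_B00pm_102_s1 k152_B00pm_102_s1

theorem t317_B00pm_102_s1 : ∃ t, chk3 f_B00pm_102_s1 t 980 249 2 = true := ex3_a k148_B00pm_102_s1 k149_B00pm_102_s1

theorem t318_B00pm_102_s1 : ∃ t, chk3 f_B00pm_102_s1 t 490 249 2 = true := ex3_a t317_B00pm_102_s1 k150_B00pm_102_s1

theorem t319_B00pm_102_s1 : ∃ t, chk3 f_B00pm_102_s1 t 490 249 1 = true := ex3_c t318_B00pm_102_s1 t316_B00pm_102_s1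

theorem t320_B00pm_102_s1 : ∃ t, chk3 f_B00pm_102_s1 t 490 124 1 = true := ex3_b k147_B00pm_102_s1 t319_B00pm_102_s1

theorem t321_B00pm_102_s1 : ∃ t, chk3 f_B00pm_102_s1 t 245 124 1 = true := ex3_a t320_B00pm_102_s1 k153_B00pm_102_s1

theorem t322_B00pm_102_s1 : ∃ t, chk3 f_B00pm_102_s1 t 979 998 1 = true := ex3_c k144_B00pm_102_s1 k145_B00pm_102_s1

theorem t323_B00pm_102_s1 : ∃ t, chk3 f_B00pm_102_s1 t 978 1996 1 = true := ex3_b k141_B00pm_102_s1 k142_B00pm_102_s1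

theorem t324_B00pm_102_s1 : ∃ t, chk3 f_B00pm_102_s1 t 978 998 1 = true := ex3_b t323_B00pm_102_s1 k143_B00pm_102_s1

theorem t325_B00pm_102_s1 : ∃ t, chk3 f_B00pm_102_s1 t 489 998 1 = true := ex3_a t324_B00pm_102_s1 t322_B00pm_102_s1

theorem t326_B00pm_102_s1 : ∃ t, chk3 f_B00pm_102_s1 t 489 499 1 = true := ex3_b t325_B00pm_102_s1 k146_B00pm_102_s1

theorem t327_B00pm_102_s1 : ∃ t, chk3 f_B00pm_102_s1 t 489 498 1 = true := ex3_c k139_B00pm_102_s1 k140_B00pm_102_s1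

theorem t328_B00pm_102_s1 : ∃ t, chk3 f_B00pm_102_s1 t 489 249 1 = true := ex3_b t327_B00pm_102_s1 t326_B00pm_102_s1

theorem t329_B00pm_102_s1 : ∃ t, chk3 f_B00pm_102_s1 t 489 124 1 = true := ex3_b k138_B00pm_102_s1 t328_B00pm_102_s1

theorem t330_B00pm_102_s1 : ∃ t, chk3 f_B00pm_102_s1 t 977 498 3 = true := ex3_a k135_B00pm_102_s1 k136_B00pm_102_s1

theorem t331_B00pm_102_s1 : ∃ t, chk3 f_B00pm_102_s1 t 977 997 2 = true := ex3_a k133_B00pm_102_s1 k134_B00pm_102_s1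

theorem t332_B00pm_102_s1 : ∃ t, chk3 f_B00pm_102_s1 t 977 498 2 = true := ex3_b k132_B00pm_102_s1 t331_B00pm_102_s1

theorem t333_B00pm_102_s1 : ∃ t, chk3 f_B00pm_102_s1 t 977 498 1 = true := ex3_c t332_B00pm_102_s1 t330_B00pm_102_s1

theorem t334_B00pm_102_s1 : ∃ t, chk3 f_B00pm_102_s1 t 976 996 1 = true := ex3_c k129_B00pm_102_s1 k130_B00pm_102_s1

theorem t335_B00pm_102_s1 : ∃ t, chk3 f_B00pm_102_s1 t 976 498 1 = true := ex3_b t334_B00pm_102_s1 k131_B00pm_102_s1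

theorem t336_B00pm_102_s1 : ∃ t, chk3 f_B00pm_102_s1 t 488 498 1 = true := ex3_a t335_B00pm_102_s1 t333_B00pm_102_s1

theorem t337_B00pm_102_s1 : ∃ t, chk3 f_B00pm_102_s1 t 488 249 1 = true := ex3_b t336_B00pm_102_s1 k137_B00pm_102_s1

theorem t338_B00pm_102_s1 : ∃ t, chk3 f_B00pm_102_s1 t 488 124 1 = true := ex3_b k128_B00pm_102_s1 t337_B00pm_102_s1

theorem t339_B00pm_102_s1 : ∃ t, chk3 f_B00pm_102_s1 t 244 124 1 = true := ex3_a t338_B00pm_102_s1 t329_B00pm_102_s1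

theorem t340_B00pm_102_s1 : ∃ t, chk3 f_B00pm_102_s1 t 122 124 1 = true := ex3_a t339_B00pm_102_s1 t321_B00pm_102_s1

theorem t341_B00pm_102_s1 : ∃ t, chk3 f_B00pm_102_s1 t 61 124 1 = true := ex3_a t340_B00pm_102_s1 t315_B00pm_102_s1

theorem t342_B00pm_102_s1 : ∃ t, chk3 f_B00pm_102_s1 t 61 62 1 = true := ex3_b t341_B00pm_102_s1 t314_B00pm_102_s1

theorem t343_B00pm_102_s1 : ∃ t, chk3 f_B00pm_102_s1 t 61 31 1 = true := ex3_b t342_B00pm_102_s1 t284_B00pm_102_s1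

theorem t344_B00pm_102_s1 : ∃ t, chk3 f_B00pm_102_s1 t 243 255 1 = true := ex3_c k126_B00pm_102_s1 k127_B00pm_102_s1

theorem t345_B00pm_102_s1 : ∃ t, chk3 f_B00pm_102_s1 t 484 511 3 = true := ex3_a k123_B00pm_102_s1 k124_B00pm_102_s1

theorem t346_B00pm_102_s1 : ∃ t, chk3 f_B00pm_102_s1 t 242 511 3 = true := ex3_a t345_B00pm_102_s1 k125_B00pm_102_s1

theorem t347_B00pm_102_s1 : ∃ t, chk3 f_B00pm_102_s1 t 242 511 2 = true := ex3_a k121_B00pm_102_s1 k122_B00pm_102_s1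

theorem t348_B00pm_102_s1 : ∃ t, chk3 f_B00pm_102_s1 t 242 511 1 = true := ex3_c t347_B00pm_102_s1 t346_B00pm_102_s1

theorem t349_B00pm_102_s1 : ∃ t, chk3 f_B00pm_102_s1 t 484 510 1 = true := ex3_c k118_B00pm_102_s1 k119_B00pm_102_s1

theorem t350_B00pm_102_s1 : ∃ t, chk3 f_B00pm_102_s1 t 242 510 1 = true := ex3_a t349_B00pm_102_s1 k120_B00pm_102_s1

theorem t351_B00pm_102_s1 : ∃ t, chk3 f_B00pm_102_s1 t 242 255 1 = true := ex3_b t350_B00pm_102_s1 t348_B00pm_102_s1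

theorem t352_B00pm_102_s1 : ∃ t, chk3 f_B00pm_102_s1 t 121 255 1 = true := ex3_a t351_B00pm_102_s1 t344_B00pm_102_s1

theorem t353_B00pm_102_s1 : ∃ t, chk3 f_B00pm_102_s1 t 242 254 1 = true := ex3_c k115_B00pm_102_s1 k116_B00pm_102_s1

theorem t354_B00pm_102_s1 : ∃ t, chk3 f_B00pm_102_s1 t 121 254 1 = true := ex3_a t353_B00pm_102_s1 k117_B00pm_102_s1

theorem t355_B00pm_102_s1 : ∃ t, chk3 f_B00pm_102_s1 t 121 127 1 = true := ex3_b t354_B00pm_102_s1 t352_B00pm_102_s1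

theorem t356_B00pm_102_s1 : ∃ t, chk3 f_B00pm_102_s1 t 967 1023 3 = true := ex3_b k113_B00pm_102_s1 k114_B00pm_102_s1

theorem t357_B00pm_102_s1 : ∃ t, chk3 f_B00pm_102_s1 t 1933 1023 7 = true := ex3_a k111_B00pm_102_s1 k112_B00pm_102_s1

theorem t358_B00pm_102_s1 : ∃ t, chk3 f_B00pm_102_s1 t 966 1023 7 = true := ex3_a k110_B00pm_102_s1 t357_B00pm_102_s1

theorem t359_B00pm_102_s1 : ∃ t, chk3 f_B00pm_102_s1 t 966 1023 3 = true := ex3_c k109_B00pm_102_s1 t358_B00pm_102_s1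

theorem t360_B00pm_102_s1 : ∃ t, chk3 f_B00pm_102_s1 t 483 1023 3 = true := ex3_a t359_B00pm_102_s1 t356_B00pm_102_s1

theorem t361_B00pm_102_s1 : ∃ t, chk3 f_B00pm_102_s1 t 241 1023 3 = true := ex3_a k108_B00pm_102_s1 t360_B00pm_102_s1

theorem t362_B00pm_102_s1 : ∃ t, chk3 f_B00pm_102_s1 t 241 511 3 = true := ex3_b k107_B00pm_102_s1 t361_B00pm_102_s1

theorem t363_B00pm_102_s1 : ∃ t, chk3 f_B00pm_102_s1 t 967 511 2 = true := ex3_c k105_B00pm_102_s1 k106_B00pm_102_s1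

theorem t364_B00pm_102_s1 : ∃ t, chk3 f_B00pm_102_s1 t 966 511 2 = true := ex3_a k103_B00pm_102_s1 k104_B00pm_102_s1

theorem t365_B00pm_102_s1 : ∃ t, chk3 f_B00pm_102_s1 t 483 511 2 = true := ex3_a t364_B00pm_102_s1 t363_B00pm_102_s1

theorem t366_B00pm_102_s1 : ∃ t, chk3 f_B00pm_102_s1 t 241 511 2 = true := ex3_a k102_B00pm_102_s1 t365_B00pm_102_s1

theorem t367_B00pm_102_s1 : ∃ t, chk3 f_B00pm_102_s1 t 241 511 1 = true := ex3_c t366_B00pm_102_s1 t362_B00pm_102_s1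

theorem t368_B00pm_102_s1 : ∃ t, chk3 f_B00pm_102_s1 t 241 510 1 = true := ex3_c k100_B00pm_102_s1 k101_B00pm_102_s1

theorem t369_B00pm_102_s1 : ∃ t, chk3 f_B00pm_102_s1 t 241 255 1 = true := ex3_b t368_B00pm_102_s1 t367_B00pm_102_s1

theorem t370_B00pm_102_s1 : ∃ t, chk3 f_B00pm_102_s1 t 240 510 1 = true := ex3_b k97_B00pm_102_s1 k98_B00pm_102_s1

theorem t371_B00pm_102_s1 : ∃ t, chk3 f_B00pm_102_s1 t 240 255 1 = true := ex3_b t370_B00pm_102_s1 k99_B00pm_102_s1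

theorem t372_B00pm_102_s1 : ∃ t, chk3 f_B00pm_102_s1 t 120 255 1 = true := ex3_a t371_B00pm_102_s1 t369_B00pm_102_s1

theorem t373_B00pm_102_s1 : ∃ t, chk3 f_B00pm_102_s1 t 120 254 1 = true := ex3_a k95_B00pm_102_s1 k96_B00pm_102_s1

theorem t374_B00pm_102_s1 : ∃ t, chk3 f_B00pm_102_s1 t 120 127 1 = true := ex3_b t373_B00pm_102_s1 t372_B00pm_102_s1

theorem t375_B00pm_102_s1 : ∃ t, chk3 f_B00pm_102_s1 t 60 127 1 = true := ex3_a t374_B00pm_102_s1 t355_B00pm_102_s1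

theorem t376_B00pm_102_s1 : ∃ t, chk3 f_B00pm_102_s1 t 121 126 1 = true := ex3_a k93_B00pm_102_s1 k94_B00pm_102_s1

theorem t377_B00pm_102_s1 : ∃ t, chk3 f_B00pm_102_s1 t 120 126 1 = true := ex3_b k91_B00pm_102_s1 k92_B00pm_102_s1

theorem t378_B00pm_102_s1 : ∃ t, chk3 f_B00pm_102_s1 t 60 126 1 = true := ex3_a t377_B00pm_102_s1 t376_B00pm_102_s1

theorem t379_B00pm_102_s1 : ∃ t, chk3 f_B00pm_102_s1 t 60 63 1 = true := ex3_b t378_B00pm_102_s1 t375_B00pm_102_s1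

theorem t380_B00pm_102_s1 : ∃ t, chk3 f_B00pm_102_s1 t 121 125 1 = true := ex3_b k89_B00pm_102_s1 k90_B00pm_102_s1

theorem t381_B00pm_102_s1 : ∃ t, chk3 f_B00pm_102_s1 t 60 125 1 = true := ex3_a k88_B00pm_102_s1 t380_B00pm_102_s1

theorem t382_B00pm_102_s1 : ∃ t, chk3 f_B00pm_102_s1 t 487 498 3 = true := ex3_b k85_B00pm_102_s1 k86_B00pm_102_s1

theorem t383_B00pm_102_s1 : ∃ t, chk3 f_B00pm_102_s1 t 243 498 3 = true := ex3_a k84_B00pm_102_s1 t382_B00pm_102_s1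

theorem t384_B00pm_102_s1 : ∃ t, chk3 f_B00pm_102_s1 t 243 249 3 = true := ex3_b t383_B00pm_102_s1 k87_B00pm_102_s1

theorem t385_B00pm_102_s1 : ∃ t, chk3 f_B00pm_102_s1 t 121 249 3 = true := ex3_a k83_B00pm_102_s1 t384_B00pm_102_s1

theorem t386_B00pm_102_s1 : ∃ t, chk3 f_B00pm_102_s1 t 486 497 3 = true := ex3_b k80_B00pm_102_s1 k81_B00pm_102_s1

theorem t387_B00pm_102_s1 : ∃ t, chk3 f_B00pm_102_s1 t 243 497 3 = true := ex3_a t386_B00pm_102_s1 k82_B00pm_102_s1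

theorem t388_B00pm_102_s1 : ∃ t, chk3 f_B00pm_102_s1 t 121 497 3 = true := ex3_a k79_B00pm_102_s1 t387_B00pm_102_s1

theorem t389_B00pm_102_s1 : ∃ t, chk3 f_B00pm_102_s1 t 121 496 3 = true := ex3_c k77_B00pm_102_s1 k78_B00pm_102_s1

theorem t390_B00pm_102_s1 : ∃ t, chk3 f_B00pm_102_s1 t 121 248 3 = true := ex3_b t389_B00pm_102_s1 t388_B00pm_102_s1

theorem t391_B00pm_102_s1 : ∃ t, chk3 f_B00pm_102_s1 t 121 124 3 = true := ex3_b t390_B00pm_102_s1 t385_B00pm_102_s1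

theorem t392_B00pm_102_s1 : ∃ t, chk3 f_B00pm_102_s1 t 487 996 2 = true := ex3_a k73_B00pm_102_s1 k74_B00pm_102_s1

theorem t393_B00pm_102_s1 : ∃ t, chk3 f_B00pm_102_s1 t 487 498 2 = true := ex3_b t392_B00pm_102_s1 k75_B00pm_102_s1

theorem t394_B00pm_102_s1 : ∃ t, chk3 f_B00pm_102_s1 t 243 498 2 = true := ex3_a k72_B00pm_102_s1 t393_B00pm_102_s1

theorem t395_B00pm_102_s1 : ∃ t, chk3 f_B00pm_102_s1 t 243 249 2 = true := ex3_b t394_B00pm_102_s1 k76_B00pm_102_s1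

theorem t396_B00pm_102_s1 : ∃ t, chk3 f_B00pm_102_s1 t 121 249 2 = true := ex3_a k71_B00pm_102_s1 t395_B00pm_102_s1

theorem t397_B00pm_102_s1 : ∃ t, chk3 f_B00pm_102_s1 t 486 497 2 = true := ex3_b k68_B00pm_102_s1 k69_B00pm_102_s1

theorem t398_B00pm_102_s1 : ∃ t, chk3 f_B00pm_102_s1 t 486 248 2 = true := ex3_b k67_B00pm_102_s1 t397_B00pm_102_s1

theorem t399_B00pm_102_s1 : ∃ t, chk3 f_B00pm_102_s1 t 243 248 2 = true := ex3_a t398_B00pm_102_s1 k70_B00pm_102_s1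

theorem t400_B00pm_102_s1 : ∃ t, chk3 f_B00pm_102_s1 t 242 496 2 = true := ex3_c k64_B00pm_102_s1 k65_B00pm_102_s1

theorem t401_B00pm_102_s1 : ∃ t, chk3 f_B00pm_102_s1 t 242 248 2 = true := ex3_b t400_B00pm_102_s1 k66_B00pm_102_s1

theorem t402_B00pm_102_s1 : ∃ t, chk3 f_B00pm_102_s1 t 121 248 2 = true := ex3_a t401_B00pm_102_s1 t399_B00pm_102_s1

theorem t403_B00pm_102_s1 : ∃ t, chk3 f_B00pm_102_s1 t 121 124 2 = true := ex3_b t402_B00pm_102_s1 t396_B00pm_102_s1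

theorem t404_B00pm_102_s1 : ∃ t, chk3 f_B00pm_102_s1 t 121 124 1 = true := ex3_c t403_B00pm_102_s1 t391_B00pm_102_s1

theorem t405_B00pm_102_s1 : ∃ t, chk3 f_B00pm_102_s1 t 120 124 1 = true := ex3_b k62_B00pm_102_s1 k63_B00pm_102_s1

theorem t406_B00pm_102_s1 : ∃ t, chk3 f_B00pm_102_s1 t 60 124 1 = true := ex3_a t405_B00pm_102_s1 t404_B00pm_102_s1

theorem t407_B00pm_102_s1 : ∃ t, chk3 f_B00pm_102_s1 t 60 62 1 = true := ex3_b t406_B00pm_102_s1 t381_B00pm_102_s1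

theorem t408_B00pm_102_s1 : ∃ t, chk3 f_B00pm_102_s1 t 60 31 1 = true := ex3_b t407_B00pm_102_s1 t379_B00pm_102_s1

theorem t409_B00pm_102_s1 : ∃ t, chk3 f_B00pm_102_s1 t 30 31 1 = true := ex3_a t408_B00pm_102_s1 t343_B00pm_102_s1

theorem t410_B00pm_102_s1 : ∃ t, chk3 f_B00pm_102_s1 t 123 61 1 = true := ex3_a k60_B00pm_102_s1 k61_B00pm_102_s1

theorem t411_B00pm_102_s1 : ∃ t, chk3 f_B00pm_102_s1 t 123 30 1 = true := ex3_b k59_B00pm_102_s1 t410_B00pm_102_s1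

theorem t412_B00pm_102_s1 : ∃ t, chk3 f_B00pm_102_s1 t 122 61 1 = true := ex3_a k57_B00pm_102_s1 k58_B00pm_102_s1

theorem t413_B00pm_102_s1 : ∃ t, chk3 f_B00pm_102_s1 t 122 30 1 = true := ex3_b k56_B00pm_102_s1 t412_B00pm_102_s1

theorem t414_B00pm_102_s1 : ∃ t, chk3 f_B00pm_102_s1 t 61 30 1 = true := ex3_a t413_B00pm_102_s1 t411_B00pm_102_s1

theorem t415_B00pm_102_s1 : ∃ t, chk3 f_B00pm_102_s1 t 121 123 1 = true := ex3_a k54_B00pm_102_s1 k55_B00pm_102_s1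

theorem t416_B00pm_102_s1 : ∃ t, chk3 f_B00pm_102_s1 t 121 61 1 = true := ex3_b k53_B00pm_102_s1 t415_B00pm_102_s1

theorem t417_B00pm_102_s1 : ∃ t, chk3 f_B00pm_102_s1 t 241 61 2 = true := ex3_a k50_B00pm_102_s1 k51_B00pm_102_s1

theorem t418_B00pm_102_s1 : ∃ t, chk3 f_B00pm_102_s1 t 241 61 1 = true := ex3_c t417_B00pm_102_s1 k52_B00pm_102_s1

theorem t419_B00pm_102_s1 : ∃ t, chk3 f_B00pm_102_s1 t 240 61 1 = true := ex3_a k48_B00pm_102_s1 k49_B00pm_102_s1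

theorem t420_B00pm_102_s1 : ∃ t, chk3 f_B00pm_102_s1 t 120 61 1 = true := ex3_a t419_B00pm_102_s1 t418_B00pm_102_s1

theorem t421_B00pm_102_s1 : ∃ t, chk3 f_B00pm_102_s1 t 60 61 1 = true := ex3_a t420_B00pm_102_s1 t416_B00pm_102_s1

theorem t422_B00pm_102_s1 : ∃ t, chk3 f_B00pm_102_s1 t 60 30 1 = true := ex3_b k47_B00pm_102_s1 t421_B00pm_102_s1

theorem t423_B00pm_102_s1 : ∃ t, chk3 f_B00pm_102_s1 t 30 30 1 = true := ex3_a t422_B00pm_102_s1 t414_B00pm_102_s1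

theorem t424_B00pm_102_s1 : ∃ t, chk3 f_B00pm_102_s1 t 30 15 1 = true := ex3_b t423_B00pm_102_s1 t409_B00pm_102_s1

theorem t425_B00pm_102_s1 : ∃ t, chk3 f_B00pm_102_s1 t 15 15 1 = true := ex3_a t424_B00pm_102_s1 t280_B00pm_102_s1

theorem t426_B00pm_102_s1 : ∃ t, chk3 f_B00pm_102_s1 t 15 7 1 = true := ex3_b k46_B00pm_102_s1 t425_B00pm_102_s1

theorem t427_B00pm_102_s1 : ∃ t, chk3 f_B00pm_102_s1 t 119 1021 1 = true := ex3_c k43_B00pm_102_s1 k44_B00pm_102_s1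

theorem t428_B00pm_102_s1 : ∃ t, chk3 f_B00pm_102_s1 t 119 510 1 = true := ex3_b k42_B00pm_102_s1 t427_B00pm_102_s1

theorem t429_B00pm_102_s1 : ∃ t, chk3 f_B00pm_102_s1 t 119 255 1 = true := ex3_b t428_B00pm_102_s1 k45_B00pm_102_s1

theorem t430_B00pm_102_s1 : ∃ t, chk3 f_B00pm_102_s1 t 119 254 1 = true := ex3_c k40_B00pm_102_s1 k41_B00pm_102_s1

theorem t431_B00pm_102_s1 : ∃ t, chk3 f_B00pm_102_s1 t 119 127 1 = true := ex3_b t430_B00pm_102_s1 t429_B00pm_102_s1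

theorem t432_B00pm_102_s1 : ∃ t, chk3 f_B00pm_102_s1 t 118 510 1 = true := ex3_c k37_B00pm_102_s1 k38_B00pm_102_s1

theorem t433_B00pm_102_s1 : ∃ t, chk3 f_B00pm_102_s1 t 118 255 1 = true := ex3_b t432_B00pm_102_s1 k39_B00pm_102_s1

theorem t434_B00pm_102_s1 : ∃ t, chk3 f_B00pm_102_s1 t 118 127 1 = true := ex3_b k36_B00pm_102_s1 t433_B00pm_102_s1

theorem t435_B00pm_102_s1 : ∃ t, chk3 f_B00pm_102_s1 t 59 127 1 = true := ex3_a t434_B00pm_102_s1 t431_B00pm_102_s1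

theorem t436_B00pm_102_s1 : ∃ t, chk3 f_B00pm_102_s1 t 59 126 1 = true := ex3_c k34_B00pm_102_s1 k35_B00pm_102_s1

theorem t437_B00pm_102_s1 : ∃ t, chk3 f_B00pm_102_s1 t 59 63 1 = true := ex3_b t436_B00pm_102_s1 t435_B00pm_102_s1

theorem t438_B00pm_102_s1 : ∃ t, chk3 f_B00pm_102_s1 t 59 62 1 = true := ex3_b k32_B00pm_102_s1 k33_B00pm_102_s1

theorem t439_B00pm_102_s1 : ∃ t, chk3 f_B00pm_102_s1 t 59 31 1 = true := ex3_b t438_B00pm_102_s1 t437_B00pm_102_s1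

theorem t440_B00pm_102_s1 : ∃ t, chk3 f_B00pm_102_s1 t 117 510 1 = true := ex3_c k29_B00pm_102_s1 k30_B00pm_102_s1

theorem t441_B00pm_102_s1 : ∃ t, chk3 f_B00pm_102_s1 t 117 255 1 = true := ex3_b t440_B00pm_102_s1 k31_B00pm_102_s1

theorem t442_B00pm_102_s1 : ∃ t, chk3 f_B00pm_102_s1 t 117 127 1 = true := ex3_b k28_B00pm_102_s1 t441_B00pm_102_s1

theorem t443_B00pm_102_s1 : ∃ t, chk3 f_B00pm_102_s1 t 116 127 1 = true := ex3_b k26_B00pm_102_s1 k27_B00pm_102_s1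

theorem t444_B00pm_102_s1 : ∃ t, chk3 f_B00pm_102_s1 t 58 127 1 = true := ex3_a t443_B00pm_102_s1 t442_B00pm_102_s1

theorem t445_B00pm_102_s1 : ∃ t, chk3 f_B00pm_102_s1 t 58 63 1 = true := ex3_b k25_B00pm_102_s1 t444_B00pm_102_s1

theorem t446_B00pm_102_s1 : ∃ t, chk3 f_B00pm_102_s1 t 58 31 1 = true := ex3_b k24_B00pm_102_s1 t445_B00pm_102_s1

theorem t447_B00pm_102_s1 : ∃ t, chk3 f_B00pm_102_s1 t 29 31 1 = true := ex3_a t446_B00pm_102_s1 t439_B00pm_102_s1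

theorem t448_B00pm_102_s1 : ∃ t, chk3 f_B00pm_102_s1 t 57 127 1 = true := ex3_b k22_B00pm_102_s1 k23_B00pm_102_s1

theorem t449_B00pm_102_s1 : ∃ t, chk3 f_B00pm_102_s1 t 57 63 1 = true := ex3_b k21_B00pm_102_s1 t448_B00pm_102_s1

theorem t450_B00pm_102_s1 : ∃ t, chk3 f_B00pm_102_s1 t 57 31 1 = true := ex3_b k20_B00pm_102_s1 t449_B00pm_102_s1

theorem t451_B00pm_102_s1 : ∃ t, chk3 f_B00pm_102_s1 t 28 31 1 = true := ex3_a k19_B00pm_102_s1 t450_B00pm_102_s1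

theorem t452_B00pm_102_s1 : ∃ t, chk3 f_B00pm_102_s1 t 14 31 1 = true := ex3_a t451_B00pm_102_s1 t447_B00pm_102_s1

theorem t453_B00pm_102_s1 : ∃ t, chk3 f_B00pm_102_s1 t 59 61 1 = true := ex3_b k17_B00pm_102_s1 k18_B00pm_102_s1

theorem t454_B00pm_102_s1 : ∃ t, chk3 f_B00pm_102_s1 t 59 30 1 = true := ex3_b k16_B00pm_102_s1 t453_B00pm_102_s1

theorem t455_B00pm_102_s1 : ∃ t, chk3 f_B00pm_102_s1 t 29 30 1 = true := ex3_a k15_B00pm_102_s1 t454_B00pm_102_s1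

theorem t456_B00pm_102_s1 : ∃ t, chk3 f_B00pm_102_s1 t 14 30 1 = true := ex3_a k14_B00pm_102_s1 t455_B00pm_102_s1

theorem t457_B00pm_102_s1 : ∃ t, chk3 f_B00pm_102_s1 t 14 15 1 = true := ex3_b t456_B00pm_102_s1 t452_B00pm_102_s1

theorem t458_B00pm_102_s1 : ∃ t, chk3 f_B00pm_102_s1 t 14 14 1 = true := ex3_a k12_B00pm_102_s1 k13_B00pm_102_s1

theorem t459_B00pm_102_s1 : ∃ t, chk3 f_B00pm_102_s1 t 14 7 1 = true := ex3_b t458_B00pm_102_s1 t457_B00pm_102_s1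

theorem t460_B00pm_102_s1 : ∃ t, chk3 f_B00pm_102_s1 t 7 7 1 = true := ex3_a t459_B00pm_102_s1 t426_B00pm_102_s1

theorem t461_B00pm_102_s1 : ∃ t, chk3 f_B00pm_102_s1 t 7 3 1 = true := ex3_b k11_B00pm_102_s1 t460_B00pm_102_s1

theorem t462_B00pm_102_s1 : ∃ t, chk3 f_B00pm_102_s1 t 13 15 1 = true := ex3_b k9_B00pm_102_s1 k10_B00pm_102_s1

theorem t463_B00pm_102_s1 : ∃ t, chk3 f_B00pm_102_s1 t 6 15 1 = true := ex3_a k8_B00pm_102_s1 t462_B00pm_102_s1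

theorem t464_B00pm_102_s1 : ∃ t, chk3 f_B00pm_102_s1 t 13 14 1 = true := ex3_a k6_B00pm_102_s1 k7_B00pm_102_s1

theorem t465_B00pm_102_s1 : ∃ t, chk3 f_B00pm_102_s1 t 6 14 1 = true := ex3_a k5_B00pm_102_s1 t464_B00pm_102_s1

theorem t466_B00pm_102_s1 : ∃ t, chk3 f_B00pm_102_s1 t 6 7 1 = true := ex3_b t465_B00pm_102_s1 t463_B00pm_102_s1

theorem t467_B00pm_102_s1 : ∃ t, chk3 f_B00pm_102_s1 t 6 6 1 = true := ex3_a k3_B00pm_102_s1 k4_B00pm_102_s1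

theorem t468_B00pm_102_s1 : ∃ t, chk3 f_B00pm_102_s1 t 6 3 1 = true := ex3_b t467_B00pm_102_s1 t466_B00pm_102_s1

theorem t469_B00pm_102_s1 : ∃ t, chk3 f_B00pm_102_s1 t 3 3 1 = true := ex3_a t468_B00pm_102_s1 t461_B00pm_102_s1

theorem t470_B00pm_102_s1 : ∃ t, chk3 f_B00pm_102_s1 t 3 1 1 = true := ex3_b k2_B00pm_102_s1 t469_B00pm_102_s1

theorem t471_B00pm_102_s1 : ∃ t, chk3 f_B00pm_102_s1 t 2 1 1 = true := ex3_b k0_B00pm_102_s1 k1_B00pm_102_s1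

theorem t472_B00pm_102_s1 : ∃ t, chk3 f_B00pm_102_s1 t 1 1 1 = true := ex3_a t471_B00pm_102_s1 t470_B00pm_102_s1

theorem c_B00pm_102_s1 : CertF 536870912 536870912 0 536870912 966367641 24778659 false true false .npp 1 0 2
    ndB0q1 ndB0q2 pcB0 cut_B00pm_102_s1 xt_B00pm_102_s1 :=
  certF0 (fam := false) (s1 := true) (s2 := false) (a := 1) (b := 0) (c := 2) (cn := .npp) (n1 := ndB0q1) (n2 := ndB0q2) (pc := pcB0) (cut := cut_B00pm_102_s1) (xt := xt_B00pm_102_s1) (P1 := 536870912) (W1 := 536870912) (P2 := 0) (W2 := 536870912) (P3 := 966367641) (W3 := 24778659)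
    rfl t472_B00pm_102_s1

theorem s_B00pm_102_s1 {κ x : ℝ} (hκ : κ * h0 = ken x) (hx : ((966367641 : ℕ) : ℝ) / S ≤ x)
    (hx' : x ≤ (((966367641 : ℕ) : ℝ) + (24778659 : ℕ)) / S)
    (H : CutB (VFD κ) PP tK tL pcB (Cut.of [[⟨0, 1, 0, 33554432⟩, ⟨1, 0, 0, 33554432⟩, ⟨2, 1, 0, 33554432⟩], [⟨0, 0, 1, 46137344⟩, ⟨1, 1, 2, 46137344⟩, ⟨2, 1, 0, 1572864⟩, ⟨0, 0, 0, 1013612281⟩, ⟨0, 1, 0, 128849018⟩, ⟨1, 0, 0, 128849018⟩, ⟨1, 1, 0, 1013612281⟩]]) 1 0 2 0 0 (sgb true) (sgb false) x) :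
    AltB (VFD κ) PP tK tL pcB [⟨3, 0, 0, 1449551462⟩] 1 0 2 0 0 (sgb true) (sgb false) x :=
  strip_altBD (m := 1449551462) true rfl hκ (SH.κ0 hκ (SH.hx1 hx).le (SH.hx2 hx').le) (SH.hx1 hx).le (SH.hx2 hx') (covB01).cov (covB02).cov hx hx' c_B00pm_102_s1 H ((okx hx hx').extB (T := tt) (sideB hx hx') hκ rfl rfl (.O 1 true) (.O 2 false) (Or.inl rfl))

end Pool.Agent.Strip051.G.I9000_9231.Tab.St.C
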