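import Pool.Agent.Strip051.G.I9000_9231.StH
import Pool.Agent.Strip051.G.I9000_9231.StF

/-! # Unit strips 19 (generated) -/

set_option linter.all false
set_option maxRecDepth 100000

namespace Pool.Agent.Strip051.G.I9000_9231.Tab.St.C

open Pool.Agent.Strip051.PB Pool.Agent.Strip051.PB.T Pool.Agent.StripNear Pool.Agent.Strip051.LC
open Pool.Agent.Strip051.G.I9000_9231.Tab Pool.Agent.Strip051.G.I9000_9231.Tab.St

noncomputable def cut_B00pm_102_s3 : Cut := Cut.of [[⟨3, 0, 0, 2845415833⟩], [⟨0, 1, 0, 33554432⟩, ⟨1, 0, 0, 33554432⟩, ⟨2, 1, 0, 33554432⟩], [⟨0, 0, 1, 46137344⟩, ⟨1, 1, 2, 46137344⟩, ⟨2, 1, 0, 1572864⟩, ⟨0, 0, 0, 1013612281⟩, ⟨0, 1, 0, 128849018⟩, ⟨1, 0, 0, 128849018⟩, ⟨1, 1, 0, 1013612281⟩]]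

noncomputable def f_B00pm_102_s3 : ℕ → ℕ → ℕ → ℕ → Bool := onCell 536870912 536870912 0 536870912 966367641 24778659
    (rowF 0 false true false .npp 1 0 2 (qsf 536870912 536870912 0 536870912 0) ndB0q1 ndB0q2 pcB0 cut_B00pm_102_s3 Ext.none)

def k0_B00pm_102_s3 : ∃ t, chk3 f_B00pm_102_s3 t 1 1 1 = true :=
  ⟨(l 6), by decide +kernel⟩

theorem c_B00pm_102_s3 : CertF 536870912 536870912 0 536870912 966367641 24778659 false true false .npp 1 0 2
    ndB0q1 ndB0q2 pcB0 cut_B00pm_102_s3 Ext.none :=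
  certF0 (fam := false) (s1 := true) (s2 := false) (a := 1) (b := 0) (c := 2) (cn := .npp) (n1 := ndB0q1) (n2 := ndB0q2) (pc := pcB0) (cut := cut_B00pm_102_s3) (xt := Ext.none) (P1 := 536870912) (W1 := 536870912) (P2 := 0) (W2 := 536870912) (P3 := 966367641) (W3 := 24778659)
    rfl k0_B00pm_102_s3

theorem s_B00pm_102_s3 {κ x : ℝ} (hκ : κ * h0 = ken x) (hx : ((966367641 : ℕ) : ℝ) / S ≤ x)
    (hx' : x ≤ (((966367641 : ℕ) : ℝ) + (24778659 : ℕ)) / S)
    (H : CutB (VFD κ) PP tK tL pcB (Cut.of [[⟨0, 1, 0, 33554432⟩, ⟨1, 0, 0, 33554432⟩, ⟨2, 1, 0, 33554432⟩], [⟨0, 0, 1, 46137344⟩, ⟨1, 1, 2, 46137344⟩, ⟨2, 1, 0, 1572864⟩, ⟨0, 0, 0, 1013612281⟩, ⟨0, 1, 0, 128849018⟩, ⟨1, 0, 0, 128849018⟩, ⟨1, 1, 0, 1013612281⟩]]) 1 0 2 0 0 (sgb true) (sgb false) x) :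
    AltB (VFD κ) PP tK tL pcB [⟨4, 0, 0, 2845415833⟩] 1 0 2 0 0 (sgb true) (sgb false) x :=
  strip_altBD (m := 2845415833) false rfl hκ (SH.κ0 hκ (SH.hx1 hx).le (SH.hx2 hx').le) (SH.hx1 hx).le (SH.hx2 hx') (covB01).cov (covB02).cov hx hx' c_B00pm_102_s3 H (noExt_B)

noncomputable def cut_B00pm_112_s1 : Cut := Cut.of [[⟨4, 0, 0, 1449551462⟩]]

noncomputable def xt_B00pm_112_s1 : Ext := strExt dd false true false .u0 .u2 .u0m .dn 1 1 2 rfl rfl gf1 vv ndB0q1 ndB0q2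

noncomputable def f_B00pm_112_s1 : ℕ → ℕ → ℕ → ℕ → Bool := onCell 536870912 536870912 0 536870912 966367641 24778659
    (rowF 2 false true false .dn 1 1 2 (qsf 536870912 536870912 0 536870912 1) ndB0q1 ndB0q2 pcB1 cut_B00pm_112_s1 xt_B00pm_112_s1)

def k0_B00pm_112_s1 : ∃ t, chk3 f_B00pm_112_s1 t 1 1 1 = true :=
  ⟨(a (b (a (b (a (b (a (a (l 529149199) (l 529500431)) (a (l 529820431) (l 530112783))) (b (a (a (b (l 529438479) (l 529551375)) (l 529838095)) (l 529223183)) (a (a (b (l 529393423) (l 529771279)) (b (l 530002191) (l 530109711))) (b (l 530457103) (a (l 530150159) (l 530701583)))))) (b (a (l 530506767) (l 530964751)) (a (b (l 530824719) (l 531032335)) (b (l 531275791) (l 531480079))))) (a (b (a (b (a (b (l 529879567) (l 529987343)) (b (l 530216207) (l 530321935))) (c (c (l 529708559) (l 529932303)) (c (l 530163727) (l 530402831)))) (b (c (l 530265871) (l 530907407)) (a (l 530514959) (l 531062543))))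 (a (b (a (b (l 530306575) (l 530412303)) (b (l 16384408) (l 16435496))) (a (b (l 16414712) (l 16380232)) (b (l 16403056) (l 6)))) (b (c (l 530710543) (l 531287311)) (l 6)))) (a (b (b (l 531237391) (a (l 531051279) (l 16457784))) (l 6)) (b (b (l 531682831) (l 531884815)) (l 6))))) (a (b (a (b (l 531362575) (a (l 531407631) (l 531592207))) (b (l 1) (l 1))) (b (a (b (l 532072975) (l 6)) (l 1)) (l 6))) (l 1))) (a (b (l 6) (l 6)) (l 6))) (l 1)), by decide +kernel⟩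

theorem c_B00pm_112_s1 : CertF 536870912 536870912 0 536870912 966367641 24778659 false true false .dn 1 1 2
    ndB0q1 ndB0q2 pcB1 cut_B00pm_112_s1 xt_B00pm_112_s1 :=
  certF2 (fam := false) (s1 := true) (s2 := false) (a := 1) (b := 1) (c := 2) (cn := .dn) (n1 := ndB0q1) (n2 := ndB0q2) (pc := pcB1) (cut := cut_B00pm_112_s1) (xt := xt_B00pm_112_s1) (P1 := 536870912) (W1 := 536870912) (P2 := 0) (W2 := 536870912) (P3 := 966367641) (W3 := 24778659)
    rfl (fun _ => rfl) k0_B00pm_112_s1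

theorem s_B00pm_112_s1 {κ x : ℝ} (hκ : κ * h0 = ken x) (hx : ((966367641 : ℕ) : ℝ) / S ≤ x)
    (hx' : x ≤ (((966367641 : ℕ) : ℝ) + (24778659 : ℕ)) / S) :
    AltB (VFD κ) PP tK tL pcB [⟨3, 0, 0, 1449551462⟩] 1 1 2 0 0 (sgb true) (sgb false) x :=
  strip_altBD (m := 1449551462) true rfl hκ (SH.κ0 hκ (SH.hx1 hx).le (SH.hx2 hx').le) (SH.hx1 hx).le (SH.hx2 hx') (covB01).cov (covB02).cov hx hx' c_B00pm_112_s1 cutB_nil ((okx hx hx').extB (T := tt) (sideB hx hx') hκ rfl rfl (.O 1 true) (.O 2 false) (Or.inr rfl))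

noncomputable def cut_B00pm_112_s3 : Cut := Cut.of [[⟨3, 0, 0, 2845415833⟩]]

noncomputable def f_B00pm_112_s3 : ℕ → ℕ → ℕ → ℕ → Bool := onCell 536870912 536870912 0 536870912 966367641 24778659
    (rowF 0 false true false .dn 1 1 2 (qsf 536870912 536870912 0 536870912 1) ndB0q1 ndB0q2 pcB1 cut_B00pm_112_s3 Ext.none)

def k0_B00pm_112_s3 : ∃ t, chk3 f_B00pm_112_s3 t 1 1 1 = true :=
  ⟨(l 6), by decide +kernel⟩

theorem c_B00pm_112_s3 : CertF 536870912 536870912 0 536870912 966367641 24778659 false true false .dn 1 1 2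
    ndB0q1 ndB0q2 pcB1 cut_B00pm_112_s3 Ext.none :=
  certF0 (fam := false) (s1 := true) (s2 := false) (a := 1) (b := 1) (c := 2) (cn := .dn) (n1 := ndB0q1) (n2 := ndB0q2) (pc := pcB1) (cut := cut_B00pm_112_s3) (xt := Ext.none) (P1 := 536870912) (W1 := 536870912) (P2 := 0) (W2 := 536870912) (P3 := 966367641) (W3 := 24778659)
    rfl k0_B00pm_112_s3

theorem s_B00pm_112_s3 {κ x : ℝ} (hκ : κ * h0 = ken x) (hx : ((966367641 : ℕ) : ℝ) / S ≤ x)
    (hx' : x ≤ (((966367641 : ℕ) : ℝ) + (24778659 : ℕ)) / S) :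
    AltB (VFD κ) PP tK tL pcB [⟨4, 0, 0, 2845415833⟩] 1 1 2 0 0 (sgb true) (sgb false) x :=
  strip_altBD (m := 2845415833) false rfl hκ (SH.κ0 hκ (SH.hx1 hx).le (SH.hx2 hx').le) (SH.hx1 hx).le (SH.hx2 hx') (covB01).cov (covB02).cov hx hx' c_B00pm_112_s3 cutB_nil (noExt_B)

noncomputable def cut_B00pm_202_s1 : Cut := Cut.of [[⟨4, 0, 0, 1449551462⟩], [⟨0, 1, 0, 67108864⟩, ⟨1, 0, 0, 67108864⟩, ⟨2, 1, 0, 67108864⟩]]

noncomputable def f_B00pm_202_s1 : ℕ → ℕ → ℕ → ℕ → Bool := onCell 0 536870912 0 536870912 966367641 24778659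
    (rowF 0 false true false .pp 2 0 2 (qsf 0 536870912 0 536870912 0) ndB0q2 ndB0q2 pcB0 cut_B00pm_202_s1 Ext.none)

def k0_B00pm_202_s1 : ∃ t, chk3 f_B00pm_202_s1 t 1 1 1 = true :=
  ⟨(a (l 3) (b (l 3) (a (l 3) (b (l 3) (b (l 3) (a (l 3) (l 14))))))), by decide +kernel⟩

theorem c_B00pm_202_s1 : CertF 0 536870912 0 536870912 966367641 24778659 false true false .pp 2 0 2
    ndB0q2 ndB0q2 pcB0 cut_B00pm_202_s1 Ext.none :=
  certF0 (fam := false) (s1 := true) (s2 := false) (a := 2) (b := 0) (c := 2) (cn := .pp) (n1 := ndB0q2) (n2 := ndB0q2) (pc := pcB0) (cut := cut_B00pm_202_s1) (xt := Ext.none) (P1 := 0) (W1 := 536870912) (P2 := 0) (W2 := 536870912) (P3 := 966367641) (W3 := 24778659)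
    rfl k0_B00pm_202_s1

theorem s_B00pm_202_s1 {κ x : ℝ} (hκ : κ * h0 = ken x) (hx : ((966367641 : ℕ) : ℝ) / S ≤ x)
    (hx' : x ≤ (((966367641 : ℕ) : ℝ) + (24778659 : ℕ)) / S)
    (H : CutB (VFD κ) PP tK tL pcB (Cut.of [[⟨0, 1, 0, 67108864⟩, ⟨1, 0, 0, 67108864⟩, ⟨2, 1, 0, 67108864⟩]]) 2 0 2 0 0 (sgb true) (sgb false) x) :
    AltB (VFD κ) PP tK tL pcB [⟨3, 0, 0, 1449551462⟩] 2 0 2 0 0 (sgb true) (sgb false) x :=
  strip_altBD (m := 1449551462) true rfl hκ (SH.κ0 hκ (SH.hx1 hx).le (SH.hx2 hx').le) (SH.hx1 hx).le (SH.hx2 hx') (covB02).cov (covB02).cov hx hx' c_B00pm_202_s1 H (noExt_B)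

noncomputable def cut_B00pm_202_s3 : Cut := Cut.of [[⟨3, 0, 0, 2845415833⟩], [⟨0, 1, 0, 67108864⟩, ⟨1, 0, 0, 67108864⟩, ⟨2, 1, 0, 67108864⟩]]

noncomputable def f_B00pm_202_s3 : ℕ → ℕ → ℕ → ℕ → Bool := onCell 0 536870912 0 536870912 966367641 24778659
    (rowF 0 false true false .pp 2 0 2 (qsf 0 536870912 0 536870912 0) ndB0q2 ndB0q2 pcB0 cut_B00pm_202_s3 Ext.none)

def k0_B00pm_202_s3 : ∃ t, chk3 f_B00pm_202_s3 t 1 1 1 = true :=
  ⟨(l 6), by decide +kernel⟩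

theorem c_B00pm_202_s3 : CertF 0 536870912 0 536870912 966367641 24778659 false true false .pp 2 0 2
    ndB0q2 ndB0q2 pcB0 cut_B00pm_202_s3 Ext.none :=
  certF0 (fam := false) (s1 := true) (s2 := false) (a := 2) (b := 0) (c := 2) (cn := .pp) (n1 := ndB0q2) (n2 := ndB0q2) (pc := pcB0) (cut := cut_B00pm_202_s3) (xt := Ext.none) (P1 := 0) (W1 := 536870912) (P2 := 0) (W2 := 536870912) (P3 := 966367641) (W3 := 24778659)
    rfl k0_B00pm_202_s3

theorem s_B00pm_202_s3 {κ x : ℝ} (hκ : κ * h0 = ken x) (hx : ((966367641 : ℕ) : ℝ) / S ≤ x)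
    (hx' : x ≤ (((966367641 : ℕ) : ℝ) + (24778659 : ℕ)) / S)
    (H : CutB (VFD κ) PP tK tL pcB (Cut.of [[⟨0, 1, 0, 67108864⟩, ⟨1, 0, 0, 67108864⟩, ⟨2, 1, 0, 67108864⟩]]) 2 0 2 0 0 (sgb true) (sgb false) x) :
    AltB (VFD κ) PP tK tL pcB [⟨4, 0, 0, 2845415833⟩] 2 0 2 0 0 (sgb true) (sgb false) x :=
  strip_altBD (m := 2845415833) false rfl hκ (SH.κ0 hκ (SH.hx1 hx).le (SH.hx2 hx').le) (SH.hx1 hx).le (SH.hx2 hx') (covB02).cov (covB02).cov hx hx' c_B00pm_202_s3 H (noExt_B)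

noncomputable def cut_B00mm_001_s1 : Cut := Cut.of [[⟨4, 0, 0, 1449551462⟩]]

noncomputable def f_B00mm_001_s1 : ℕ → ℕ → ℕ → ℕ → Bool := onCell 0 536870912 0 536870912 966367641 24778659
    (rowF 1 false false false .up 0 0 1 (qsf 0 536870912 536870912 536870912 0) ndB0q0 ndB0q1 pcB0 cut_B00mm_001_s1 Ext.none)

def k0_B00mm_001_s1 : ∃ t, chk3 f_B00mm_001_s1 t 1 1 1 = true :=
  ⟨(l 3), by decide +kernel⟩

theorem c_B00mm_001_s1 : CertF 0 536870912 536870912 536870912 966367641 24778659 false false false .up 0 0 1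
    ndB0q0 ndB0q1 pcB0 cut_B00mm_001_s1 Ext.none :=
  certF1 (fam := false) (s1 := false) (s2 := false) (a := 0) (b := 0) (c := 1) (cn := .up) (n1 := ndB0q0) (n2 := ndB0q1) (pc := pcB0) (cut := cut_B00mm_001_s1) (xt := Ext.none) (P1 := 0) (W1 := 536870912) (P2 := 536870912) (W2 := 536870912) (P3 := 966367641) (W3 := 24778659)
    rfl (fun _ => rfl) k0_B00mm_001_s1

theorem s_B00mm_001_s1 {κ x : ℝ} (hκ : κ * h0 = ken x) (hx : ((966367641 : ℕ) : ℝ) / S ≤ x)
    (hx' : x ≤ (((966367641 : ℕ) : ℝ) + (24778659 : ℕ)) / S) :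
    AltB (VFD κ) PP tK tL pcB [⟨3, 0, 0, 1449551462⟩] 0 0 1 0 0 (sgb false) (sgb false) x :=
  strip_altBD (m := 1449551462) true rfl hκ (SH.κ0 hκ (SH.hx1 hx).le (SH.hx2 hx').le) (SH.hx1 hx).le (SH.hx2 hx') (covB00).cov (covB01).cov hx hx' c_B00mm_001_s1 cutB_nil (noExt_B)

noncomputable def cut_B00mm_001_s3 : Cut := Cut.of [[⟨3, 0, 0, 2845415833⟩]]

noncomputable def f_B00mm_001_s3 : ℕ → ℕ → ℕ → ℕ → Bool := onCell 0 536870912 536870912 536870912 966367641 24778659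
    (rowF 0 false false false .up 0 0 1 (qsf 0 536870912 536870912 536870912 0) ndB0q0 ndB0q1 pcB0 cut_B00mm_001_s3 Ext.none)

def k0_B00mm_001_s3 : ∃ t, chk3 f_B00mm_001_s3 t 1 1 1 = true :=
  ⟨(l 6), by decide +kernel⟩

theorem c_B00mm_001_s3 : CertF 0 536870912 536870912 536870912 966367641 24778659 false false false .up 0 0 1
    ndB0q0 ndB0q1 pcB0 cut_B00mm_001_s3 Ext.none :=
  certF0 (fam := false) (s1 := false) (s2 := false) (a := 0) (b := 0) (c := 1) (cn := .up) (n1 := ndB0q0) (n2 := ndB0q1) (pc := pcB0) (cut := cut_B00mm_001_s3) (xt := Ext.none) (P1 := 0) (W1 := 536870912) (P2 := 536870912) (W2 := 536870912) (P3 := 966367641) (W3 := 24778659)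
    rfl k0_B00mm_001_s3

theorem s_B00mm_001_s3 {κ x : ℝ} (hκ : κ * h0 = ken x) (hx : ((966367641 : ℕ) : ℝ) / S ≤ x)
    (hx' : x ≤ (((966367641 : ℕ) : ℝ) + (24778659 : ℕ)) / S) :
    AltB (VFD κ) PP tK tL pcB [⟨4, 0, 0, 2845415833⟩] 0 0 1 0 0 (sgb false) (sgb false) x :=
  strip_altBD (m := 2845415833) false rfl hκ (SH.κ0 hκ (SH.hx1 hx).le (SH.hx2 hx').le) (SH.hx1 hx).le (SH.hx2 hx') (covB00).cov (covB01).cov hx hx' c_B00mm_001_s3 cutB_nil (noExt_B)

noncomputable def cut_B00mm_011_s1 : Cut := Cut.of [[⟨4, 0, 0, 1449551462⟩]]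

noncomputable def f_B00mm_011_s1 : ℕ → ℕ → ℕ → ℕ → Bool := onCell 0 536870912 536870912 536870912 966367641 24778659
    (rowF 1 false false false .pnn 0 1 1 (qsf 0 536870912 536870912 536870912 1) ndB0q0 ndB0q1 pcB1 cut_B00mm_011_s1 Ext.none)

def k0_B00mm_011_s1 : ∃ t, chk3 f_B00mm_011_s1 t 1 1 1 = true :=
  ⟨(l 5), by decide +kernel⟩

theorem c_B00mm_011_s1 : CertF 0 536870912 536870912 536870912 966367641 24778659 false false false .pnn 0 1 1
    ndB0q0 ndB0q1 pcB1 cut_B00mm_011_s1 Ext.none :=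
  certF1 (fam := false) (s1 := false) (s2 := false) (a := 0) (b := 1) (c := 1) (cn := .pnn) (n1 := ndB0q0) (n2 := ndB0q1) (pc := pcB1) (cut := cut_B00mm_011_s1) (xt := Ext.none) (P1 := 0) (W1 := 536870912) (P2 := 536870912) (W2 := 536870912) (P3 := 966367641) (W3 := 24778659)
    rfl (fun _ => rfl) k0_B00mm_011_s1

theorem s_B00mm_011_s1 {κ x : ℝ} (hκ : κ * h0 = ken x) (hx : ((966367641 : ℕ) : ℝ) / S ≤ x)
    (hx' : x ≤ (((966367641 : ℕ) : ℝ) + (24778659 : ℕ)) / S) :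
    AltB (VFD κ) PP tK tL pcB [⟨3, 0, 0, 1449551462⟩] 0 1 1 0 0 (sgb false) (sgb false) x :=
  strip_altBD (m := 1449551462) true rfl hκ (SH.κ0 hκ (SH.hx1 hx).le (SH.hx2 hx').le) (SH.hx1 hx).le (SH.hx2 hx') (covB00).cov (covB01).cov hx hx' c_B00mm_011_s1 cutB_nil (noExt_B)

noncomputable def cut_B00mm_011_s3 : Cut := Cut.of [[⟨3, 0, 0, 2845415833⟩]]

noncomputable def f_B00mm_011_s3 : ℕ → ℕ → ℕ → ℕ → Bool := onCell 0 536870912 536870912 536870912 966367641 24778659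
    (rowF 0 false false false .pnn 0 1 1 (qsf 0 536870912 536870912 536870912 1) ndB0q0 ndB0q1 pcB1 cut_B00mm_011_s3 Ext.none)

def k0_B00mm_011_s3 : ∃ t, chk3 f_B00mm_011_s3 t 1 1 1 = true :=
  ⟨(l 6), by decide +kernel⟩

theorem c_B00mm_011_s3 : CertF 0 536870912 536870912 536870912 966367641 24778659 false false false .pnn 0 1 1
    ndB0q0 ndB0q1 pcB1 cut_B00mm_011_s3 Ext.none :=
  certF0 (fam := false) (s1 := false) (s2 := false) (a := 0) (b := 1) (c := 1) (cn := .pnn) (n1 := ndB0q0) (n2 := ndB0q1) (pc := pcB1) (cut := cut_B00mm_011_s3) (xt := Ext.none) (P1 := 0) (W1 := 536870912) (P2 := 536870912) (W2 := 536870912) (P3 := 966367641) (W3 := 24778659)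
    rfl k0_B00mm_011_s3

theorem s_B00mm_011_s3 {κ x : ℝ} (hκ : κ * h0 = ken x) (hx : ((966367641 : ℕ) : ℝ) / S ≤ x)
    (hx' : x ≤ (((966367641 : ℕ) : ℝ) + (24778659 : ℕ)) / S) :
    AltB (VFD κ) PP tK tL pcB [⟨4, 0, 0, 2845415833⟩] 0 1 1 0 0 (sgb false) (sgb false) x :=
  strip_altBD (m := 2845415833) false rfl hκ (SH.κ0 hκ (SH.hx1 hx).le (SH.hx2 hx').le) (SH.hx1 hx).le (SH.hx2 hx') (covB00).cov (covB01).cov hx hx' c_B00mm_011_s3 cutB_nil (noExt_B)

noncomputable def cut_B00mm_012_s1 : Cut := Cut.of [[⟨4, 0, 0, 1449551462⟩]]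

noncomputable def f_B00mm_012_s1 : ℕ → ℕ → ℕ → ℕ → Bool := onCell 0 536870912 0 536870912 966367641 24778659
    (rowF 0 false false false .pnp 0 1 2 (qsf 0 536870912 0 536870912 1) ndB0q0 ndB0q2 pcB1 cut_B00mm_012_s1 Ext.none)

def k0_B00mm_012_s1 : ∃ t, chk3 f_B00mm_012_s1 t 1 1 1 = true :=
  ⟨(l 5), by decide +kernel⟩

theorem c_B00mm_012_s1 : CertF 0 536870912 0 536870912 966367641 24778659 false false false .pnp 0 1 2
    ndB0q0 ndB0q2 pcB1 cut_B00mm_012_s1 Ext.none :=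
  certF0 (fam := false) (s1 := false) (s2 := false) (a := 0) (b := 1) (c := 2) (cn := .pnp) (n1 := ndB0q0) (n2 := ndB0q2) (pc := pcB1) (cut := cut_B00mm_012_s1) (xt := Ext.none) (P1 := 0) (W1 := 536870912) (P2 := 0) (W2 := 536870912) (P3 := 966367641) (W3 := 24778659)
    rfl k0_B00mm_012_s1

theorem s_B00mm_012_s1 {κ x : ℝ} (hκ : κ * h0 = ken x) (hx : ((966367641 : ℕ) : ℝ) / S ≤ x)
    (hx' : x ≤ (((966367641 : ℕ) : ℝ) + (24778659 : ℕ)) / S) :
    AltB (VFD κ) PP tK tL pcB [⟨3, 0, 0, 1449551462⟩] 0 1 2 0 0 (sgb false) (sgb false) x :=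
  strip_altBD (m := 1449551462) true rfl hκ (SH.κ0 hκ (SH.hx1 hx).le (SH.hx2 hx').le) (SH.hx1 hx).le (SH.hx2 hx') (covB00).cov (covB02).cov hx hx' c_B00mm_012_s1 cutB_nil (noExt_B)

noncomputable def cut_B00mm_012_s3 : Cut := Cut.of [[⟨3, 0, 0, 2845415833⟩]]

noncomputable def f_B00mm_012_s3 : ℕ → ℕ → ℕ → ℕ → Bool := onCell 0 536870912 0 536870912 966367641 24778659
    (rowF 0 false false false .pnp 0 1 2 (qsf 0 536870912 0 536870912 1) ndB0q0 ndB0q2 pcB1 cut_B00mm_012_s3 Ext.none)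

def k0_B00mm_012_s3 : ∃ t, chk3 f_B00mm_012_s3 t 1 1 1 = true :=
  ⟨(l 5), by decide +kernel⟩

theorem c_B00mm_012_s3 : CertF 0 536870912 0 536870912 966367641 24778659 false false false .pnp 0 1 2
    ndB0q0 ndB0q2 pcB1 cut_B00mm_012_s3 Ext.none :=
  certF0 (fam := false) (s1 := false) (s2 := false) (a := 0) (b := 1) (c := 2) (cn := .pnp) (n1 := ndB0q0) (n2 := ndB0q2) (pc := pcB1) (cut := cut_B00mm_012_s3) (xt := Ext.none) (P1 := 0) (W1 := 536870912) (P2 := 0) (W2 := 536870912) (P3 := 966367641) (W3 := 24778659)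
    rfl k0_B00mm_012_s3

theorem s_B00mm_012_s3 {κ x : ℝ} (hκ : κ * h0 = ken x) (hx : ((966367641 : ℕ) : ℝ) / S ≤ x)
    (hx' : x ≤ (((966367641 : ℕ) : ℝ) + (24778659 : ℕ)) / S) :
    AltB (VFD κ) PP tK tL pcB [⟨4, 0, 0, 2845415833⟩] 0 1 2 0 0 (sgb false) (sgb false) x :=
  strip_altBD (m := 2845415833) false rfl hκ (SH.κ0 hκ (SH.hx1 hx).le (SH.hx2 hx').le) (SH.hx1 hx).le (SH.hx2 hx') (covB00).cov (covB02).cov hx hx' c_B00mm_012_s3 cutB_nil (noExt_B)

noncomputable def cut_B00mm_022_s1 : Cut := Cut.of [[⟨4, 0, 0, 1449551462⟩]]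

noncomputable def f_B00mm_022_s1 : ℕ → ℕ → ℕ → ℕ → Bool := onCell 0 536870912 0 536870912 966367641 24778659
    (rowF 0 false false false .pp 0 2 2 (qsf 0 536870912 0 536870912 2) ndB0q0 ndB0q2 pcB2 cut_B00mm_022_s1 Ext.none)

def k0_B00mm_022_s1 : ∃ t, chk3 f_B00mm_022_s1 t 1 1 1 = true :=
  ⟨(l 5), by decide +kernel⟩

theorem c_B00mm_022_s1 : CertF 0 536870912 0 536870912 966367641 24778659 false false false .pp 0 2 2
    ndB0q0 ndB0q2 pcB2 cut_B00mm_022_s1 Ext.none :=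
  certF0 (fam := false) (s1 := false) (s2 := false) (a := 0) (b := 2) (c := 2) (cn := .pp) (n1 := ndB0q0) (n2 := ndB0q2) (pc := pcB2) (cut := cut_B00mm_022_s1) (xt := Ext.none) (P1 := 0) (W1 := 536870912) (P2 := 0) (W2 := 536870912) (P3 := 966367641) (W3 := 24778659)
    rfl k0_B00mm_022_s1

theorem s_B00mm_022_s1 {κ x : ℝ} (hκ : κ * h0 = ken x) (hx : ((966367641 : ℕ) : ℝ) / S ≤ x)
    (hx' : x ≤ (((966367641 : ℕ) : ℝ) + (24778659 : ℕ)) / S) :
    AltB (VFD κ) PP tK tL pcB [⟨3, 0, 0, 1449551462⟩] 0 2 2 0 0 (sgb false) (sgb false) x :=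
  strip_altBD (m := 1449551462) true rfl hκ (SH.κ0 hκ (SH.hx1 hx).le (SH.hx2 hx').le) (SH.hx1 hx).le (SH.hx2 hx') (covB00).cov (covB02).cov hx hx' c_B00mm_022_s1 cutB_nil (noExt_B)

noncomputable def cut_B00mm_022_s3 : Cut := Cut.of [[⟨3, 0, 0, 2845415833⟩]]

noncomputable def f_B00mm_022_s3 : ℕ → ℕ → ℕ → ℕ → Bool := onCell 0 536870912 0 536870912 966367641 24778659
    (rowF 0 false false false .pp 0 2 2 (qsf 0 536870912 0 536870912 2) ndB0q0 ndB0q2 pcB2 cut_B00mm_022_s3 Ext.none)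

def k0_B00mm_022_s3 : ∃ t, chk3 f_B00mm_022_s3 t 1 1 1 = true :=
  ⟨(l 5), by decide +kernel⟩

theorem c_B00mm_022_s3 : CertF 0 536870912 0 536870912 966367641 24778659 false false false .pp 0 2 2
    ndB0q0 ndB0q2 pcB2 cut_B00mm_022_s3 Ext.none :=
  certF0 (fam := false) (s1 := false) (s2 := false) (a := 0) (b := 2) (c := 2) (cn := .pp) (n1 := ndB0q0) (n2 := ndB0q2) (pc := pcB2) (cut := cut_B00mm_022_s3) (xt := Ext.none) (P1 := 0) (W1 := 536870912) (P2 := 0) (W2 := 536870912) (P3 := 966367641) (W3 := 24778659)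
    rfl k0_B00mm_022_s3

theorem s_B00mm_022_s3 {κ x : ℝ} (hκ : κ * h0 = ken x) (hx : ((966367641 : ℕ) : ℝ) / S ≤ x)
    (hx' : x ≤ (((966367641 : ℕ) : ℝ) + (24778659 : ℕ)) / S) :
    AltB (VFD κ) PP tK tL pcB [⟨4, 0, 0, 2845415833⟩] 0 2 2 0 0 (sgb false) (sgb false) x :=
  strip_altBD (m := 2845415833) false rfl hκ (SH.κ0 hκ (SH.hx1 hx).le (SH.hx2 hx').le) (SH.hx1 hx).le (SH.hx2 hx') (covB00).cov (covB02).cov hx hx' c_B00mm_022_s3 cutB_nil (noExt_B)

noncomputable def cut_B00mm_101_s1 : Cut := Cut.of [[⟨4, 0, 0, 1449551462⟩]]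

noncomputable def f_B00mm_101_s1 : ℕ → ℕ → ℕ → ℕ → Bool := onCell 536870912 536870912 536870912 536870912 966367641 24778659
    (rowF 0 false false false .npn 1 0 1 (qsf 536870912 536870912 536870912 536870912 0) ndB0q1 ndB0q1 pcB0 cut_B00mm_101_s1 Ext.none)

def k0_B00mm_101_s1 : ∃ t, chk3 f_B00mm_101_s1 t 1 1 1 = true :=
  ⟨(l 3), by decide +kernel⟩

theorem c_B00mm_101_s1 : CertF 536870912 536870912 536870912 536870912 966367641 24778659 false false false .npn 1 0 1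
    ndB0q1 ndB0q1 pcB0 cut_B00mm_101_s1 Ext.none :=
  certF0 (fam := false) (s1 := false) (s2 := false) (a := 1) (b := 0) (c := 1) (cn := .npn) (n1 := ndB0q1) (n2 := ndB0q1) (pc := pcB0) (cut := cut_B00mm_101_s1) (xt := Ext.none) (P1 := 536870912) (W1 := 536870912) (P2 := 536870912) (W2 := 536870912) (P3 := 966367641) (W3 := 24778659)
    rfl k0_B00mm_101_s1

theorem s_B00mm_101_s1 {κ x : ℝ} (hκ : κ * h0 = ken x) (hx : ((966367641 : ℕ) : ℝ) / S ≤ x)
    (hx' : x ≤ (((966367641 : ℕ) : ℝ) + (24778659 : ℕ)) / S) :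
    AltB (VFD κ) PP tK tL pcB [⟨3, 0, 0, 1449551462⟩] 1 0 1 0 0 (sgb false) (sgb false) x :=
  strip_altBD (m := 1449551462) true rfl hκ (SH.κ0 hκ (SH.hx1 hx).le (SH.hx2 hx').le) (SH.hx1 hx).le (SH.hx2 hx') (covB01).cov (covB01).cov hx hx' c_B00mm_101_s1 cutB_nil (noExt_B)

noncomputable def cut_B00mm_101_s3 : Cut := Cut.of [[⟨3, 0, 0, 2845415833⟩]]

noncomputable def f_B00mm_101_s3 : ℕ → ℕ → ℕ → ℕ → Bool := onCell 536870912 536870912 536870912 536870912 966367641 24778659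
    (rowF 0 false false false .npn 1 0 1 (qsf 536870912 536870912 536870912 536870912 0) ndB0q1 ndB0q1 pcB0 cut_B00mm_101_s3 Ext.none)

def k0_B00mm_101_s3 : ∃ t, chk3 f_B00mm_101_s3 t 1 1 1 = true :=
  ⟨(l 3), by decide +kernel⟩

theorem c_B00mm_101_s3 : CertF 536870912 536870912 536870912 536870912 966367641 24778659 false false false .npn 1 0 1
    ndB0q1 ndB0q1 pcB0 cut_B00mm_101_s3 Ext.none :=
  certF0 (fam := false) (s1 := false) (s2 := false) (a := 1) (b := 0) (c := 1) (cn := .npn) (n1 := ndB0q1) (n2 := ndB0q1) (pc := pcB0) (cut := cut_B00mm_101_s3) (xt := Ext.none) (P1 := 536870912) (W1 := 536870912) (P2 := 536870912) (W2 := 536870912) (P3 := 966367641) (W3 := 24778659)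
    rfl k0_B00mm_101_s3

theorem s_B00mm_101_s3 {κ x : ℝ} (hκ : κ * h0 = ken x) (hx : ((966367641 : ℕ) : ℝ) / S ≤ x)
    (hx' : x ≤ (((966367641 : ℕ) : ℝ) + (24778659 : ℕ)) / S) :
    AltB (VFD κ) PP tK tL pcB [⟨4, 0, 0, 2845415833⟩] 1 0 1 0 0 (sgb false) (sgb false) x :=
  strip_altBD (m := 2845415833) false rfl hκ (SH.κ0 hκ (SH.hx1 hx).le (SH.hx2 hx').le) (SH.hx1 hx).le (SH.hx2 hx') (covB01).cov (covB01).cov hx hx' c_B00mm_101_s3 cutB_nil (noExt_B)

noncomputable def cut_B00mm_102_s1 : Cut := Cut.of [[⟨4, 0, 0, 1449551462⟩]]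

noncomputable def f_B00mm_102_s1 : ℕ → ℕ → ℕ → ℕ → Bool := onCell 536870912 536870912 0 536870912 966367641 24778659
    (rowF 0 false false false .npp 1 0 2 (qsf 536870912 536870912 0 536870912 0) ndB0q1 ndB0q2 pcB0 cut_B00mm_102_s1 Ext.none)

def k0_B00mm_102_s1 : ∃ t, chk3 f_B00mm_102_s1 t 1 1 1 = true :=
  ⟨(a (l 5) (l 3)), by decide +kernel⟩

theorem c_B00mm_102_s1 : CertF 536870912 536870912 0 536870912 966367641 24778659 false false false .npp 1 0 2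
    ndB0q1 ndB0q2 pcB0 cut_B00mm_102_s1 Ext.none :=
  certF0 (fam := false) (s1 := false) (s2 := false) (a := 1) (b := 0) (c := 2) (cn := .npp) (n1 := ndB0q1) (n2 := ndB0q2) (pc := pcB0) (cut := cut_B00mm_102_s1) (xt := Ext.none) (P1 := 536870912) (W1 := 536870912) (P2 := 0) (W2 := 536870912) (P3 := 966367641) (W3 := 24778659)
    rfl k0_B00mm_102_s1

theorem s_B00mm_102_s1 {κ x : ℝ} (hκ : κ * h0 = ken x) (hx : ((966367641 : ℕ) : ℝ) / S ≤ x)
    (hx' : x ≤ (((966367641 : ℕ) : ℝ) + (24778659 : ℕ)) / S) :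
    AltB (VFD κ) PP tK tL pcB [⟨3, 0, 0, 1449551462⟩] 1 0 2 0 0 (sgb false) (sgb false) x :=
  strip_altBD (m := 1449551462) true rfl hκ (SH.κ0 hκ (SH.hx1 hx).le (SH.hx2 hx').le) (SH.hx1 hx).le (SH.hx2 hx') (covB01).cov (covB02).cov hx hx' c_B00mm_102_s1 cutB_nil (noExt_B)

noncomputable def cut_B00mm_102_s3 : Cut := Cut.of [[⟨3, 0, 0, 2845415833⟩]]

noncomputable def f_B00mm_102_s3 : ℕ → ℕ → ℕ → ℕ → Bool := onCell 536870912 536870912 0 536870912 966367641 24778659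
    (rowF 0 false false false .npp 1 0 2 (qsf 536870912 536870912 0 536870912 0) ndB0q1 ndB0q2 pcB0 cut_B00mm_102_s3 Ext.none)

def k0_B00mm_102_s3 : ∃ t, chk3 f_B00mm_102_s3 t 1 1 1 = true :=
  ⟨(l 6), by decide +kernel⟩

theorem c_B00mm_102_s3 : CertF 536870912 536870912 0 536870912 966367641 24778659 false false false .npp 1 0 2
    ndB0q1 ndB0q2 pcB0 cut_B00mm_102_s3 Ext.none :=
  certF0 (fam := false) (s1 := false) (s2 := false) (a := 1) (b := 0) (c := 2) (cn := .npp) (n1 := ndB0q1) (n2 := ndB0q2) (pc := pcB0) (cut := cut_B00mm_102_s3) (xt := Ext.none) (P1 := 536870912) (W1 := 536870912) (P2 := 0) (W2 := 536870912) (P3 := 966367641) (W3 := 24778659)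
    rfl k0_B00mm_102_s3

theorem s_B00mm_102_s3 {κ x : ℝ} (hκ : κ * h0 = ken x) (hx : ((966367641 : ℕ) : ℝ) / S ≤ x)
    (hx' : x ≤ (((966367641 : ℕ) : ℝ) + (24778659 : ℕ)) / S) :
    AltB (VFD κ) PP tK tL pcB [⟨4, 0, 0, 2845415833⟩] 1 0 2 0 0 (sgb false) (sgb false) x :=
  strip_altBD (m := 2845415833) false rfl hκ (SH.κ0 hκ (SH.hx1 hx).le (SH.hx2 hx').le) (SH.hx1 hx).le (SH.hx2 hx') (covB01).cov (covB02).cov hx hx' c_B00mm_102_s3 cutB_nil (noExt_B)

noncomputable def cut_B00mm_112_s1 : Cut := Cut.of [[⟨4, 0, 0, 1449551462⟩]]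

noncomputable def f_B00mm_112_s1 : ℕ → ℕ → ℕ → ℕ → Bool := onCell 536870912 536870912 0 536870912 966367641 24778659
    (rowF 2 false false false .dn 1 1 2 (qsf 536870912 536870912 0 536870912 1) ndB0q1 ndB0q2 pcB1 cut_B00mm_112_s1 Ext.none)

def k0_B00mm_112_s1 : ∃ t, chk3 f_B00mm_112_s1 t 1 1 1 = true :=
  ⟨(l 5), by decide +kernel⟩

theorem c_B00mm_112_s1 : CertF 536870912 536870912 0 536870912 966367641 24778659 false false false .dn 1 1 2
    ndB0q1 ndB0q2 pcB1 cut_B00mm_112_s1 Ext.none :=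
  certF2 (fam := false) (s1 := false) (s2 := false) (a := 1) (b := 1) (c := 2) (cn := .dn) (n1 := ndB0q1) (n2 := ndB0q2) (pc := pcB1) (cut := cut_B00mm_112_s1) (xt := Ext.none) (P1 := 536870912) (W1 := 536870912) (P2 := 0) (W2 := 536870912) (P3 := 966367641) (W3 := 24778659)
    rfl (fun _ => rfl) k0_B00mm_112_s1

theorem s_B00mm_112_s1 {κ x : ℝ} (hκ : κ * h0 = ken x) (hx : ((966367641 : ℕ) : ℝ) / S ≤ x)
    (hx' : x ≤ (((966367641 : ℕ) : ℝ) + (24778659 : ℕ)) / S) :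
    AltB (VFD κ) PP tK tL pcB [⟨3, 0, 0, 1449551462⟩] 1 1 2 0 0 (sgb false) (sgb false) x :=
  strip_altBD (m := 1449551462) true rfl hκ (SH.κ0 hκ (SH.hx1 hx).le (SH.hx2 hx').le) (SH.hx1 hx).le (SH.hx2 hx') (covB01).cov (covB02).cov hx hx' c_B00mm_112_s1 cutB_nil (noExt_B)

noncomputable def cut_B00mm_112_s3 : Cut := Cut.of [[⟨3, 0, 0, 2845415833⟩]]

noncomputable def f_B00mm_112_s3 : ℕ → ℕ → ℕ → ℕ → Bool := onCell 536870912 536870912 0 536870912 966367641 24778659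
    (rowF 0 false false false .dn 1 1 2 (qsf 536870912 536870912 0 536870912 1) ndB0q1 ndB0q2 pcB1 cut_B00mm_112_s3 Ext.none)

def k0_B00mm_112_s3 : ∃ t, chk3 f_B00mm_112_s3 t 1 1 1 = true :=
  ⟨(l 6), by decide +kernel⟩

theorem c_B00mm_112_s3 : CertF 536870912 536870912 0 536870912 966367641 24778659 false false false .dn 1 1 2
    ndB0q1 ndB0q2 pcB1 cut_B00mm_112_s3 Ext.none :=
  certF0 (fam := false) (s1 := false) (s2 := false) (a := 1) (b := 1) (c := 2) (cn := .dn) (n1 := ndB0q1) (n2 := ndB0q2) (pc := pcB1) (cut := cut_B00mm_112_s3) (xt := Ext.none) (P1 := 536870912) (W1 := 536870912) (P2 := 0) (W2 := 536870912) (P3 := 966367641) (W3 := 24778659)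
    rfl k0_B00mm_112_s3

theorem s_B00mm_112_s3 {κ x : ℝ} (hκ : κ * h0 = ken x) (hx : ((966367641 : ℕ) : ℝ) / S ≤ x)
    (hx' : x ≤ (((966367641 : ℕ) : ℝ) + (24778659 : ℕ)) / S) :
    AltB (VFD κ) PP tK tL pcB [⟨4, 0, 0, 2845415833⟩] 1 1 2 0 0 (sgb false) (sgb false) x :=
  strip_altBD (m := 2845415833) false rfl hκ (SH.κ0 hκ (SH.hx1 hx).le (SH.hx2 hx').le) (SH.hx1 hx).le (SH.hx2 hx') (covB01).cov (covB02).cov hx hx' c_B00mm_112_s3 cutB_nil (noExt_B)

noncomputable def cut_B00mm_202_s1 : Cut := Cut.of [[⟨4, 0, 0, 1449551462⟩]]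

noncomputable def f_B00mm_202_s1 : ℕ → ℕ → ℕ → ℕ → Bool := onCell 0 536870912 0 536870912 966367641 24778659
    (rowF 0 false false false .pp 2 0 2 (qsf 0 536870912 0 536870912 0) ndB0q2 ndB0q2 pcB0 cut_B00mm_202_s1 Ext.none)

def k0_B00mm_202_s1 : ∃ t, chk3 f_B00mm_202_s1 t 1 1 1 = true :=
  ⟨(l 3), by decide +kernel⟩

theorem c_B00mm_202_s1 : CertF 0 536870912 0 536870912 966367641 24778659 false false false .pp 2 0 2
    ndB0q2 ndB0q2 pcB0 cut_B00mm_202_s1 Ext.none :=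
  certF0 (fam := false) (s1 := false) (s2 := false) (a := 2) (b := 0) (c := 2) (cn := .pp) (n1 := ndB0q2) (n2 := ndB0q2) (pc := pcB0) (cut := cut_B00mm_202_s1) (xt := Ext.none) (P1 := 0) (W1 := 536870912) (P2 := 0) (W2 := 536870912) (P3 := 966367641) (W3 := 24778659)
    rfl k0_B00mm_202_s1

theorem s_B00mm_202_s1 {κ x : ℝ} (hκ : κ * h0 = ken x) (hx : ((966367641 : ℕ) : ℝ) / S ≤ x)
    (hx' : x ≤ (((966367641 : ℕ) : ℝ) + (24778659 : ℕ)) / S) :
    AltB (VFD κ) PP tK tL pcB [⟨3, 0, 0, 1449551462⟩] 2 0 2 0 0 (sgb false) (sgb false) x :=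
  strip_altBD (m := 1449551462) true rfl hκ (SH.κ0 hκ (SH.hx1 hx).le (SH.hx2 hx').le) (SH.hx1 hx).le (SH.hx2 hx') (covB02).cov (covB02).cov hx hx' c_B00mm_202_s1 cutB_nil (noExt_B)

noncomputable def cut_B00mm_202_s3 : Cut := Cut.of [[⟨3, 0, 0, 2845415833⟩]]

noncomputable def f_B00mm_202_s3 : ℕ → ℕ → ℕ → ℕ → Bool := onCell 0 536870912 0 536870912 966367641 24778659
    (rowF 0 false false false .pp 2 0 2 (qsf 0 536870912 0 536870912 0) ndB0q2 ndB0q2 pcB0 cut_B00mm_202_s3 Ext.none)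

def k0_B00mm_202_s3 : ∃ t, chk3 f_B00mm_202_s3 t 1 1 1 = true :=
  ⟨(l 3), by decide +kernel⟩

theorem c_B00mm_202_s3 : CertF 0 536870912 0 536870912 966367641 24778659 false false false .pp 2 0 2
    ndB0q2 ndB0q2 pcB0 cut_B00mm_202_s3 Ext.none :=
  certF0 (fam := false) (s1 := false) (s2 := false) (a := 2) (b := 0) (c := 2) (cn := .pp) (n1 := ndB0q2) (n2 := ndB0q2) (pc := pcB0) (cut := cut_B00mm_202_s3) (xt := Ext.none) (P1 := 0) (W1 := 536870912) (P2 := 0) (W2 := 536870912) (P3 := 966367641) (W3 := 24778659)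
    rfl k0_B00mm_202_s3

theorem s_B00mm_202_s3 {κ x : ℝ} (hκ : κ * h0 = ken x) (hx : ((966367641 : ℕ) : ℝ) / S ≤ x)
    (hx' : x ≤ (((966367641 : ℕ) : ℝ) + (24778659 : ℕ)) / S) :
    AltB (VFD κ) PP tK tL pcB [⟨4, 0, 0, 2845415833⟩] 2 0 2 0 0 (sgb false) (sgb false) x :=
  strip_altBD (m := 2845415833) false rfl hκ (SH.κ0 hκ (SH.hx1 hx).le (SH.hx2 hx').le) (SH.hx1 hx).le (SH.hx2 hx') (covB02).cov (covB02).cov hx hx' c_B00mm_202_s3 cutB_nil (noExt_B)

noncomputable def cut_B04pp_001_s1 : Cut := Cut.of [[⟨4, 0, 0, 1449551462⟩]]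

noncomputable def f_B04pp_001_s1 : ℕ → ℕ → ℕ → ℕ → Bool := onCell 0 536870912 0 536870912 966367641 24778659
    (rowF 1 false true true .up 0 0 1 (qsf 0 536870912 536870912 536870912 0) ndB0q0 ndB4q1 pcB0 cut_B04pp_001_s1 Ext.none)

def k0_B04pp_001_s1 : ∃ t, chk3 f_B04pp_001_s1 t 1 1 1 = true :=
  ⟨(l 3), by decide +kernel⟩

theorem c_B04pp_001_s1 : CertF 0 536870912 536870912 536870912 966367641 24778659 false true true .up 0 0 1
    ndB0q0 ndB4q1 pcB0 cut_B04pp_001_s1 Ext.none :=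
  certF1 (fam := false) (s1 := true) (s2 := true) (a := 0) (b := 0) (c := 1) (cn := .up) (n1 := ndB0q0) (n2 := ndB4q1) (pc := pcB0) (cut := cut_B04pp_001_s1) (xt := Ext.none) (P1 := 0) (W1 := 536870912) (P2 := 536870912) (W2 := 536870912) (P3 := 966367641) (W3 := 24778659)
    rfl (fun _ => rfl) k0_B04pp_001_s1

theorem s_B04pp_001_s1 {κ x : ℝ} (hκ : κ * h0 = ken x) (hx : ((966367641 : ℕ) : ℝ) / S ≤ x)
    (hx' : x ≤ (((966367641 : ℕ) : ℝ) + (24778659 : ℕ)) / S) :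
    AltB (VFD κ) PP tK tL pcB [⟨3, 0, 0, 1449551462⟩] 0 0 1 0 4 (sgb true) (sgb true) x :=
  strip_altBD (m := 1449551462) true rfl hκ (SH.κ0 hκ (SH.hx1 hx).le (SH.hx2 hx').le) (SH.hx1 hx).le (SH.hx2 hx') (covB00).cov (covB41).cov hx hx' c_B04pp_001_s1 cutB_nil (noExt_B)

noncomputable def cut_B04pp_011_s1 : Cut := Cut.of [[⟨4, 0, 0, 1449551462⟩], [⟨0, 0, 0, 67108864⟩, ⟨1, 1, 0, 67108864⟩, ⟨2, 1, 0, 67108864⟩]]

noncomputable def f_B04pp_011_s1 : ℕ → ℕ → ℕ → ℕ → Bool := onCell 0 536870912 536870912 536870912 966367641 24778659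
    (rowF 1 false true true .pnn 0 1 1 (qsf 0 536870912 536870912 536870912 1) ndB0q0 ndB4q1 pcB1 cut_B04pp_011_s1 Ext.none)

def k0_B04pp_011_s1 : ∃ t, chk3 f_B04pp_011_s1 t 1 1 1 = true :=
  ⟨(b (l 3) (a (b (l 3) (a (b (l 3) (a (a (b (l 3) (l 14)) (l 3)) (l 3))) (l 3))) (l 3))), by decide +kernel⟩

theorem c_B04pp_011_s1 : CertF 0 536870912 536870912 536870912 966367641 24778659 false true true .pnn 0 1 1
    ndB0q0 ndB4q1 pcB1 cut_B04pp_011_s1 Ext.none :=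
  certF1 (fam := false) (s1 := true) (s2 := true) (a := 0) (b := 1) (c := 1) (cn := .pnn) (n1 := ndB0q0) (n2 := ndB4q1) (pc := pcB1) (cut := cut_B04pp_011_s1) (xt := Ext.none) (P1 := 0) (W1 := 536870912) (P2 := 536870912) (W2 := 536870912) (P3 := 966367641) (W3 := 24778659)
    rfl (fun _ => rfl) k0_B04pp_011_s1

theorem s_B04pp_011_s1 {κ x : ℝ} (hκ : κ * h0 = ken x) (hx : ((966367641 : ℕ) : ℝ) / S ≤ x)
    (hx' : x ≤ (((966367641 : ℕ) : ℝ) + (24778659 : ℕ)) / S)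
    (H : CutB (VFD κ) PP tK tL pcB (Cut.of [[⟨0, 0, 0, 67108864⟩, ⟨1, 1, 0, 67108864⟩, ⟨2, 1, 0, 67108864⟩]]) 0 1 1 0 4 (sgb true) (sgb true) x) :
    AltB (VFD κ) PP tK tL pcB [⟨3, 0, 0, 1449551462⟩] 0 1 1 0 4 (sgb true) (sgb true) x :=
  strip_altBD (m := 1449551462) true rfl hκ (SH.κ0 hκ (SH.hx1 hx).le (SH.hx2 hx').le) (SH.hx1 hx).le (SH.hx2 hx') (covB00).cov (covB41).cov hx hx' c_B04pp_011_s1 H (noExt_B)

noncomputable def cut_B04pp_012_s1 : Cut := Cut.of [[⟨4, 0, 0, 1449551462⟩], [⟨0, 0, 0, 67108864⟩, ⟨1, 1, 0, 67108864⟩, ⟨2, 1, 0, 67108864⟩]]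

noncomputable def f_B04pp_012_s1 : ℕ → ℕ → ℕ → ℕ → Bool := onCell 0 536870912 536870912 536870912 966367641 24778659
    (rowF 1 false true true .pnp 0 1 2 (qsf 0 536870912 1073741824 536870912 1) ndB0q0 ndB4q2 pcB1 cut_B04pp_012_s1 Ext.none)

def k0_B04pp_012_s1 : ∃ t, chk3 f_B04pp_012_s1 t 1 1 1 = true :=
  ⟨(b (l 3) (a (b (l 3) (a (a (a (b (l 1) (b (l 3) (l 14))) (l 3)) (l 3)) (l 3))) (l 3))), by decide +kernel⟩

theorem c_B04pp_012_s1 : CertF 0 536870912 1073741824 536870912 966367641 24778659 false true true .pnp 0 1 2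
    ndB0q0 ndB4q2 pcB1 cut_B04pp_012_s1 Ext.none :=
  certF1 (fam := false) (s1 := true) (s2 := true) (a := 0) (b := 1) (c := 2) (cn := .pnp) (n1 := ndB0q0) (n2 := ndB4q2) (pc := pcB1) (cut := cut_B04pp_012_s1) (xt := Ext.none) (P1 := 0) (W1 := 536870912) (P2 := 1073741824) (W2 := 536870912) (P3 := 966367641) (W3 := 24778659)
    rfl (fun _ => rfl) k0_B04pp_012_s1

theorem s_B04pp_012_s1 {κ x : ℝ} (hκ : κ * h0 = ken x) (hx : ((966367641 : ℕ) : ℝ) / S ≤ x)
    (hx' : x ≤ (((966367641 : ℕ) : ℝ) + (24778659 : ℕ)) / S)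
    (H : CutB (VFD κ) PP tK tL pcB (Cut.of [[⟨0, 0, 0, 67108864⟩, ⟨1, 1, 0, 67108864⟩, ⟨2, 1, 0, 67108864⟩]]) 0 1 2 0 4 (sgb true) (sgb true) x) :
    AltB (VFD κ) PP tK tL pcB [⟨3, 0, 0, 1449551462⟩] 0 1 2 0 4 (sgb true) (sgb true) x :=
  strip_altBD (m := 1449551462) true rfl hκ (SH.κ0 hκ (SH.hx1 hx).le (SH.hx2 hx').le) (SH.hx1 hx).le (SH.hx2 hx') (covB00).cov (covB42).cov hx hx' c_B04pp_012_s1 H (noExt_B)

noncomputable def cut_B04pp_022_s1 : Cut := Cut.of [[⟨4, 0, 0, 1449551462⟩], [⟨0, 0, 0, 53687091⟩, ⟨1, 1, 0, 53687091⟩, ⟨2, 1, 0, 53687091⟩]]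

noncomputable def xt_B04pp_022_s1 : Ext := strExt dd false true true .u0 .s2 .u2 .pp 0 2 2 rfl rfl gf2 vv ndB0q0 ndB4q2

noncomputable def f_B04pp_022_s1 : ℕ → ℕ → ℕ → ℕ → Bool := onCell 1073741824 536870912 1073741824 536870912 966367641 24778659
    (rowF 2 false true true .pp 0 2 2 (qsf 0 536870912 1073741824 536870912 2) ndB0q0 ndB4q2 pcB2 cut_B04pp_022_s1 xt_B04pp_022_s1)

def k0_B04pp_022_s1 : ∃ t, chk3 f_B04pp_022_s1 t 16 8 1 = true :=
  ⟨(b (l 14) (b (l 14) (b (b (b (l 14) (b (l 14) (a (l 3) (a (a (a (l 517926527) (c (l 517482367) (l 521308287))) (a (a (l 16751088) (l 16736184)) (c (l 16747640) (l 16753384)))) (a (c (l 16711648) (l 16741216)) (l 16676888)))))) (a (l 3) (a (a (a (a (l 3) (b (l 519478655) (l 519462527))) (b (c (l 517194111) (l 521281919)) (c (l 517448575) (l 521258879)))) (a (a (b (l 518688127) (l 519202687)) (b (l 517804927) (l 518854271))) (b (c (l 16728976) (l 16755224)) (a (l 16747080)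 (l 16732112))))) (a (a (c (l 16720552) (l 16748384)) (l 16714768)) (a (l 16684520) (l 16675480)))))) (a (l 3) (a (a (a (l 3) (b (b (c (l 517438591) (l 521240191)) (c (l 517432959) (l 521225855))) (c (b (l 517431423) (l 3)) (l 520128383)))) (b (a (b (c (l 517267071) (l 521068415)) (c (l 517257343) (l 521049727))) (b (a (l 519023487) (l 16745392)) (c (l 517094527) (l 520887679)))) (a (c (b (l 517251711) (l 517250431)) (b (l 521035391) (l 521025663))) (b (c (l 517084799) (l 520869247)) (c (l 517079423) (l 520855679)))))) (a (b (a (b (c (l 16725208) (l 16731144)) (c (l 16728320) (l 16754616))) (c (l 16716680) (l 16703232))) (a (b (a (l 16746504) (l 16731488)) (a (l 518826367) (l 16744800))) (a (c (l 16746440) (l 16731304)) (l 16723744)))) (b (a (l 16711112) (l 16680760)) (a (c (l 16733728) (l 16699984)) (l 16686440))))))))), by decide +kernel⟩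

def k1_B04pp_022_s1 : ∃ t, chk3 f_B04pp_022_s1 t 17 8 1 = true :=
  ⟨(b (a (l 14) (l 1)) (a (b (l 14) (a (b (a (a (l 16665384) (l 16615728)) (l 16646080)) (a (a (b (l 16671544) (l 16676968)) (b (l 16621104) (l 16667592))) (a (l 16657048) (l 16607152)))) (b (a (l 16588640) (l 16573136)) (a (l 16595248) (l 16579328))))) (b (b (l 1) (a (l 16629672) (l 1))) (a (b (a (l 16557672) (l 16542288)) (l 16555392)) (b (l 16519456) (l 16523624)))))), by decide +kernel⟩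

def k2_B04pp_022_s1 : ∃ t, chk3 f_B04pp_022_s1 t 16 9 1 = true :=
  ⟨(a (l 3) (b (b (a (a (l 3) (a (b (b (c (l 516441727) (l 521009535)) (l 3)) (l 3)) (b (b (c (b (l 517078655) (l 517081727)) (l 520029823)) (c (b (l 517089919) (l 517100415)) (l 520835455))) (b (c (l 517115263) (l 520814463)) (l 3))))) (b (a (b (a (c (b (l 516917375) (l 516916863)) (b (l 520698495) (l 520693631))) (b (c (l 16727648) (l 16733056)) (c (l 16741280) (l 16756568)))) (a (c (b (l 516920959) (l 516930175)) (l 519902079)) (c (a (l 516803455) (l 16743480)) (b (l 520560511) (l 520567679))))) (b (a (c (l 16719064) (l 16726064)) (c (l 16729752) (l 16696696))) (a (c (c (l 16724008) (l 16726808)) (l 16741688)) (c (l 16715136) (l 16701872))))) (a (b (a (c (l 516938623) (l 520682623)) (c (l 515968383) (l 520553855))) (c (a (l 516975743) (l 516803455)) (a (l 520664191) (l 520535935)))) (b (a (c (l 515278463) (l 520427391)) (c (c (l 16740928)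 (l 16744072)) (l 16728024))) (a (c (l 516643199) (l 520411519)) (c (l 516226687) (l 520287615))))))) (a (l 3) (b (a (b (c (a (l 517028991) (l 516849023)) (l 520578943)) (c (l 516985983) (l 520575103))) (b (c (a (l 516680831) (l 516525183)) (a (l 520395391) (l 520272511))) (c (a (l 516734335) (l 516570495)) (l 519235455)))) (a (l 3) (b (c (l 516701567) (l 520307071)) (c (l 516784255) (l 520312447))))))) (a (l 3) (b (b (a (l 3) (a (l 3) (b (c (l 516801919) (l 520282495)) (l 3)))) (l 3)) (l 3))))), by decide +kernel⟩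

def k3_B04pp_022_s1 : ∃ t, chk3 f_B04pp_022_s1 t 34 18 1 = true :=
  ⟨(a (b (a (b (b (c (l 16672168) (l 16683880)) (a (l 16709480) (l 16678944))) (b (a (c (l 16732144) (l 16698608)) (l 16684792)) (a (c (l 16717584) (l 16724768)) (l 16711608)))) (b (a (b (l 16621688) (l 16627344)) (l 16657352)) (b (c (l 16663872) (l 16676896)) (c (l 16670352) (l 16682160))))) (b (c (a (b (a (l 516382591) (l 16734584)) (a (l 516419967) (l 16720056))) (a (c (l 16725192) (l 16729536)) (l 16695792))) (a (b (a (l 520153215) (l 16700448)) (a (l 520136063) (l 16726592))) (a (l 16715368) (l 16685624)))) (a (b (c (a (l 516473727) (l 516331391)) (a (l 520125567) (l 519979391))) (c (a (l 516545663) (l 516394623)) (a (l 520109183) (l 519960447)))) (b (a (c (l 16716096) (l 16723160)) (l 16709928)) (c (a (l 516258431) (l 16733080)) (a (l 16728360) (l 16698664))))))) (b (a (b (a (l 16606776) (l 16598592)) (a (b (l 16613744) (l 16619552)) (l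 16649256))) (b (l 16586408) (l 16636280))) (a (b (a (c (l 16706104) (l 16676752)) (l 16660512)) (b (c (l 16668664) (l 16680144)) (c (l 16696224) (l 16706328)))) (a (b (l 16650624) (l 16662464)) (b (l 16641128) (l 16652536)))))), by decide +kernel⟩

def k4_B04pp_022_s1 : ∃ t, chk3 f_B04pp_022_s1 t 34 19 1 = true :=
  ⟨(b (a (b (a (b (c (a (l 516636031) (l 516475775)) (a (l 519008895) (l 519938431))) (c (a (l 516730239) (l 516571263)) (a (l 520154495) (l 519131263)))) (b (c (l 515445887) (a (l 519775359) (l 16724848))) (c (a (l 516421759) (l 516282495)) (a (l 519752063) (l 519593855))))) (a (c (b (l 516741247) (l 516859775)) (b (l 520133503) (l 520251007))) (b (c (a (l 516516479) (l 516372095)) (a (l 519817599) (l 519630207))) (a (l 518240383) (l 518062975))))) (c (b (b (a (c (l 16700720) (l 16704936)) (l 16702400)) (a (l 514474255) (l 16667120))) (a (b (l 514555263) (l 515452287)) (b (l 16694736) (l 516029055))))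 (b (a (a (c (l 16716776) (l 16720536)) (l 16709712)) (c (l 16672256) (l 16678160))) (a (b (a (l 16737088) (l 16696704)) (a (l 519524735) (l 16723104))) (a (l 16711392) (l 16681288)))))) (a (b (a (c (l 515711103) (b (l 520389503) (l 3))) (c (b (l 516654463) (l 516787327)) (b (l 519923327) (l 520061055)))) (a (l 3) (c (l 517003391) (l 520296831)))) (b (a (b (c (l 516362111) (l 519525503)) (c (l 516479871) (l 519641471))) (b (a (l 517704575) (l 16706496)) (c (l 516221055) (l 519294079)))) (a (c (l 516672639) (b (l 519778175) (l 519935871))) (c (l 515047295) (b (l 519407999) (l 519543167))))))), by decide +kernel⟩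

def k5_B04pp_022_s1 : ∃ t, chk3 f_B04pp_022_s1 t 35 9 1 = true :=
  ⟨(b (a (b (b (l 16582880) (a (l 16577648) (l 16644864))) (a (b (l 16627920) (a (l 16642576) (l 16591048))) (b (l 16568968) (l 16577672)))) (b (b (l 16529152) (l 16535832)) (b (l 16543432) (l 16551760)))) (b (a (a (b (c (l 16642208) (l 16657016)) (a (c (l 16702968) (l 16714088)) (l 16656520))) (c (b (l 16662760) (l 16676040)) (b (l 16681016) (l 16691296)))) (a (b (l 16569448) (a (l 16584744) (l 16575072))) (b (l 16635832) (l 16561448)))) (a (b (a (c (b (l 16665680) (l 16693304)) (c (l 16697120) (l 16702104))) (c (l 16647640) (l 16660344))) (a (c (a (l 516222847) (l 16676960)) (a (l 16715408) (l 16685376))) (c (b (l 16699704) (l 16706408)) (l 16692688)))) (a (b (l 16634000) (c (l 16681832) (l 16611584))) (b (l 16614344) (l 16626824)))))), by decide +kernel⟩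

def k6_B04pp_022_s1 : ∃ t, chk3 f_B04pp_022_s1 t 8 5 1 = true :=
  ⟨(a (l 3) (b (a (b (a (l 3) (a (b (b (c (l 516996991) (l 519665279)) (c (l 517378175) (l 520642687))) (l 3)) (b (b (c (l 516683647) (l 519238271)) (c (l 517035135) (l 520172159))) (b (b (l 518638207) (c (l 517605247) (l 519524735))) (l 3))))) (l 3)) (b (b (a (a (b (c (l 515086719) (b (l 519370879) (l 519529343))) (a (c (l 516822399) (l 519880063)) (l 516866175))) (b (c (l 514668159) (c (l 16701976) (l 16685592))) (c (l 516600447) (l 518021759)))) (b (a (c (l 16653504) (l 16665344)) (c (l 16674376) (l 16689232))) (a (c (l 516489343) (l 16698128)) (c (l 16688176) (l 16617552))))) (c (a (b (a (a (l 517162623) (l 517117055)) (l 517001599)) (a (b (l 516184447) (l 517661823)) (b (l 517432191) (l 517581439)))) (b (a (l 516881279) (l 16659872)) (a (l 516608895) (l 517237631)))) (a (b (a (a (l 519978623) (l 520227199)) (l 519043199)) (a (b (a (l 520744831)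 (l 520744575)) (l 520578943)) (b (l 520689279) (l 520024703)))) (b (a (l 519735935) (l 16671632)) (a (a (l 519916927) (l 16716904)) (l 519957375)))))) (b (b (a (c (a (l 517858687) (l 516982911)) (a (l 520732287) (l 520470399))) (a (c (l 516370303) (b (l 520933759) (l 521070463))) (c (l 517363327) (l 519743359)))) (a (a (l 3) (l 519609215)) (a (l 519575679) (c (l 517932159) (l 521227903))))) (a (a (l 3) (c (l 518476671) (l 521521279))) (c (b (l 518218111) (l 518503551)) (a (l 521521535) (l 521524607))))))) (a (l 3) (b (a (l 3) (b (c (l 518399103) (l 521934463)) (l 3))) (l 3))))), by decide +kernel⟩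

def k7_B04pp_022_s1 : ∃ t, chk3 f_B04pp_022_s1 t 9 4 1 = true :=
  ⟨(b (a (b (l 1) (a (b (l 1) (a (l 16490816) (l 1))) (l 1))) (l 1)) (a (b (b (a (a (b (l 16496592) (l 16502272)) (b (l 16548440) (l 16552840))) (a (l 16434568) (l 1))) (a (a (b (l 16509128) (l 16516968)) (l 16478216)) (a (b (l 16524656) (l 16530728)) (l 16409536)))) (a (b (a (b (l 16525600) (l 16534920)) (b (l 16573920) (l 16499128))) (a (a (b (l 16553848) (l 16565280)) (a (l 16545832) (l 16536824))) (b (l 16509056) (l 16519744)))) (b (a (l 16458408) (l 16422248)) (a (l 16477704) (l 16440592))))) (b (b (l 1) (a (l 16359872) (l 1))) (a (b (a (l 16386320) (l 16434792)) (a (l 16487016) (l 16449528))) (b (l 16383184) (a (l 16412288) (l 16375576))))))), by decide +kernel⟩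

def k8_B04pp_022_s1 : ∃ t, chk3 f_B04pp_022_s1 t 9 10 1 = true :=
  ⟨(b (a (a (b (b (a (a (l 16578144) (l 16558688)) (l 16531080)) (a (c (l 16614840) (l 16632704)) (a (l 16552664) (l 16618048)))) (a (b (a (l 16646672) (l 16585608)) (a (c (l 16695104) (l 16624760)) (l 16641128))) (c (a (l 16563320) (l 16542816)) (a (l 16583936) (l 16566352))))) (b (a (a (l 16509888) (l 16575352)) (l 16463440)) (a (a (b (l 16612768) (l 16542624)) (l 16517536)) (l 16489896)))) (a (b (a (l 16425416) (l 16470848)) (a (l 16452152) (l 16497424))) (b (l 16328696) (l 16312280)))) (a (a (b (a (b (a (c (l 16666328) (l 16678304)) (l 16643608)) (a (a (l 518462079) (l 16689632)) (c (l 16659352) (l 16630928)))) (b (c (l 16574576) (l 16594912)) (c (l 16630120) (l 16690816)))) (a (b (c (l 518107775) (l 521438847)) (c (l 518380671) (l 521645695))) (b (a (c (l 16694368) (l 16625472)) (l 16600440)) (a (l 519969407) (l 16653640))))) (b (a (a (c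 (l 16635448) (l 16576040)) (l 16545200)) (a (l 16527128) (l 16508928))) (a (b (c (l 16646272) (l 16586160)) (c (l 16575280) (l 16680920))) (a (l 16559064) (l 16536280))))) (a (b (a (l 16481224) (l 16443208)) (a (l 16509768) (l 16473200))) (b (l 16300304) (a (l 16435152) (l 16479696)))))), by decide +kernel⟩

def k9_B04pp_022_s1 : ∃ t, chk3 f_B04pp_022_s1 t 9 11 1 = true :=
  ⟨(a (a (b (b (a (c (b (l 518663551) (l 518956415)) (l 520866175)) (c (b (l 518572159) (l 518851199)) (b (l 521873535) (l 522077311)))) (a (c (l 519133567) (l 522357631)) (c (b (l 519140735) (l 519440511)) (l 521563519)))) (a (b (c (l 520050559) (l 522774399)) (l 3)) (b (c (l 519898239) (l 522780031)) (c (l 520561535) (l 523190655))))) (b (a (b (c (b (l 16629600) (l 16641320)) (b (l 16691136) (l 16700480))) (c (a (l 519225727) (l 16649568)) (l 521054223))) (b (c (c (l 16550672) (l 16562896)) (l 16603136)) (a (c (l 16589696) (l 16692600))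 (l 16603784)))) (a (b (c (l 518718079) (l 522798207)) (c (l 520427391) (l 523202687))) (b (c (a (l 16654104) (l 16594864)) (c (l 16657464) (l 16707856))) (c (a (l 520372351) (l 16658432)) (a (l 523228287) (l 16713848))))))) (a (b (a (c (b (l 16520360) (l 16545624)) (b (l 16635568) (l 16657120))) (b (l 16501576) (a (l 16534776) (l 16518544)))) (a (b (c (l 16569080) (l 16675584)) (c (c (l 16629304) (l 16595984)) (l 16651560))) (c (b (l 16535200) (l 16558816)) (b (l 16647704) (l 16666496))))) (b (b (a (l 16465640) (l 16427712)) (a (l 16493272) (l 16458088))) (a (b (l 16497264) (l 16540472)) (b (l 16568896) (l 16509400)))))), by decide +kernel⟩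

def k10_B04pp_022_s1 : ∃ t, chk3 f_B04pp_022_s1 t 8 3 1 = true :=
  ⟨(l 3), by decide +kernel⟩

def k11_B04pp_022_s1 : ∃ t, chk3 f_B04pp_022_s1 t 9 12 1 = true :=
  ⟨(b (a (a (a (l 3) (b (c (l 521264255) (l 523601279)) (l 3))) (a (b (c (l 521103999) (l 523606911)) (c (l 521821055) (l 524011391))) (c (b (a (l 521025919) (l 521010559)) (a (l 521731199) (l 521706367))) (b (a (l 523626623) (l 523654527)) (a (l 524030591) (l 524057983)))))) (a (a (b (c (b (l 16649544) (l 16659744)) (c (l 16664808) (l 16713864))) (c (a (l 521738623) (l 16666840)) (a (l 524111999) (l 16719608)))) (b (c (l 16581264) (l 16684176)) (c (c (l 16598912) (l 16605832)) (l 16700712)))) (a (b (l 16561776) (a (l 16672624) (l 16658800))) (b (l 16532488) (l 16554024))))) (a (a (l 3) (a (a (l 3) (b (b (l 523314815) (l 3)) (l 3))) (a (b (c (b (l 522284159) (l 522700415)) (l 524470143)) (a (l 3) (c (l 523076223) (l 524751999)))) (b (c (l 522465407)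 (l 524472959)) (c (b (l 523056511) (l 523267711)) (b (l 524783487) (l 524885375))))))) (a (a (b (c (a (l 522510463) (l 522560895)) (a (l 524538239) (l 524602751))) (b (c (a (l 523141503) (l 16718880)) (l 524377727)) (a (c (l 523378815) (l 524990847)) (c (l 523477631) (l 525086335))))) (b (c (a (l 16671088) (l 16614920)) (c (l 16713504) (l 16718912))) (a (b (l 524101503) (a (l 16718856) (l 16733600))) (b (l 16716720) (l 16682392))))) (a (b (c (l 16593592) (l 16691952)) (a (c (l 16619648) (l 16712880)) (l 16653584))) (b (l 16574160) (c (l 16586072) (l 16683624))))))), by decide +kernel⟩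

def k12_B04pp_022_s1 : ∃ t, chk3 f_B04pp_022_s1 t 9 13 1 = true :=
  ⟨(a (a (l 3) (b (b (a (l 3) (a (l 3) (a (l 3) (l 524294271)))) (l 3)) (l 3))) (a (b (a (c (b (a (l 523668863) (l 523779455)) (l 524077439)) (b (a (l 525120383) (l 525224831)) (l 525313407))) (b (a (c (l 523888255) (l 525324927)) (c (l 523992191) (l 525418623))) (c (a (l 524245119) (l 524351871)) (a (l 525473151) (l 525572735))))) (a (a (l 3) (b (c (l 524454271) (l 525471615)) (l 3))) (c (b (a (l 524562303) (l 524668799)) (l 524889983)) (b (a (l 525578111) (l 525681279)) (l 525691775))))) (b (a (b (c (a (l 16688120) (l 16623072)) (b (l 16717152) (l 16702408))) (a (l 523968639) (l 525135999))) (b (c (l 16645952) (l 16697808)) (a (l 524684671) (l 16658960)))) (a (b (c (l 524820095) (l 525823615)) (a (l 524360831) (l 524996479))) (b (a (l 525446783) (l 16671392)) (a (l 524821631) (l 525712767))))))), by decide +kernel⟩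

def k13_B04pp_022_s1 : ∃ t, chk3 f_B04pp_022_s1 t 9 7 1 = true :=
  ⟨(a (l 3) (a (b (b (a (l 3) (a (l 3) (l 525505919))) (l 3)) (l 3)) (b (b (a (b (l 525614463) (l 525705599)) (a (b (l 525762431) (l 525853823)) (b (l 525850239) (l 525941887)))) (a (b (l 525754495) (a (l 3) (l 524376447))) (a (b (l 525901183) (l 525904767)) (b (l 525986687) (l 525186943))))) (b (a (l 3) (a (b (l 524896783) (l 3)) (b (l 525988735) (l 526211199)))) (l 3))))), by decide +kernel⟩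

def k14_B04pp_022_s1 : ∃ t, chk3 f_B04pp_022_s1 t 5 2 1 = true :=
  ⟨(b (a (b (l 1) (a (b (l 1) (a (b (l 1) (l 16321880)) (l 1))) (l 1))) (l 1)) (a (b (a (a (b (b (l 16251504) (l 16357880)) (a (l 16255408) (l 16297792))) (b (a (l 16203384) (b (l 1) (l 16256192))) (a (l 16255400) (a (l 16306984) (l 16200448))))) (b (a (l 16109992) (l 1)) (a (b (l 16220216) (l 16247784)) (l 15990112)))) (a (b (a (b (l 16367920) (l 16317080)) (a (l 16322880) (b (l 16260592) (l 16296080)))) (a (b (l 16347880) (a (l 16561024) (l 16442408))) (a (l 16306256) (a (l 16360632) (b (l 16404984) (l 16439792)))))) (b (a (b (l 16280352) (l 16316144)) (l 16048456)) (a (a (l 16308016) (l 16268248)) (l 16123728))))) (b (b (l 1) (a (a (l 16088936) (l 1)) (l 1))) (a (b (a (l 16052928) (l 16061520)) (a (l 16125440) (l 16127632))) (b (l 15793424) (a (l 16048352) (l 15973176))))))), by decide +kernel⟩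

def k15_B04pp_022_s1 : ∃ t, chk3 f_B04pp_022_s1 t 5 6 1 = true :=
  ⟨(a (a (a (a (b (b (b (l 16585384) (l 16608888)) (b (l 16630816) (l 16650928))) (b (b (l 16668520) (c (l 16595176) (l 16688160))) (b (c (l 16609232) (l 16699808)) (a (l 16713752) (l 16702576))))) (b (b (c (l 16466648) (l 16581056)) (b (l 16601648) (l 16623816))) (b (b (l 16643232) (l 16659608)) (b (l 16673544) (l 16685680))))) (b (b (a (b (l 16434712) (l 16544856)) (a (l 16338056) (b (l 16471232) (l 16500008)))) (a (c (l 16487912) (l 16594080)) (a (l 16558432) (b (l 16443752) (l 16469776))))) (a (b (b (l 16615736) (l 16634392)) (b (l 16649832) (l 16662856))) (a (b (l 16603896) (b (l 16630408) (l 16644864))) (b (c (l 16498184) (l 16594808)) (b (l 16616200) (l 16631240))))))) (b (b (b (a (l 16341120) (l 16349720)) (a (l 16373112) (l 16386320))) (a (b (l 16402376) (l 16430408)) (b (l 16336344) (l 16451032)))) (b (a (b (l 16456088) (l 16562928))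 (l 16493328)) (a (b (l 16582968) (l 16599848)) (l 16539728))))) (b (b (a (a (l 16123200) (l 16126704)) (a (l 16128560) (l 16046992))) (a (b (l 16059888) (l 16182520)) (a (l 16133832) (l 16137472)))) (b (a (a (l 16347856) (l 16200528)) (a (l 16215528) (l 16225792))) (a (b (l 16358800) (l 16383760)) (a (l 16364856) (l 16217736)))))), by decide +kernel⟩

def k16_B04pp_022_s1 : ∃ t, chk3 f_B04pp_022_s1 t 5 7 1 = true :=
  ⟨(a (a (a (b (b (a (b (a (l 525909631) (l 16713576)) (a (l 525999231) (l 526041215))) (b (a (l 16702488) (l 16691360)) (a (l 16712816) (l 16701784)))) (a (b (a (l 526040191) (l 526080895)) (a (l 526030975) (l 526070655))) (a (b (l 526115199) (l 526106751)) (b (l 16711472) (l 16720552))))) (a (a (b (b (l 525996159) (l 526212479)) (l 526553983)) (b (b (l 526014847) (l 526213247)) (l 526557311))) (b (a (b (l 526031487) (l 526215551)) (b (l 526090367) (l 526221439))) (a (l 526559615) (l 525487487)))))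 (a (b (b (a (b (l 16680176) (l 16690728)) (l 16674480)) (a (b (l 16700480) (l 16709568)) (b (l 16689464) (l 16698584)))) (b (a (b (l 16718192) (l 526233103)) (b (l 16707184) (l 16716072))) (a (a (l 526563199) (l 526563199)) (a (l 526562943) (l 526562175))))) (b (a (b (b (l 16657256) (l 16668384)) (b (l 16678424) (l 16687584))) (b (a (l 16653688) (l 16647064)) (b (a (l 16669824) (l 16663584)) (a (l 16679256) (l 16673392))))) (b (a (b (l 16696176) (l 16704944)) (b (a (l 16687928) (l 16682320)) (a (l 16696672) (l 16691144)))) (a (b (l 16714256) (a (l 16725992) (l 16720624))) (b (l 16703264) (l 16712536))))))) (b (b (a (b (l 16614336) (l 16626712)) (l 16573752)) (a (b (l 16638000) (l 16648152)) (l 16598360))) (b (a (b (l 16657376) (l 16666312)) (b (l 16613328) (l 16622384))) (a (b (l 16675704) (l 16685192)) (c (l 16557384) (l 16548488)))))) (a (b (b (b (l 16405544) (l 16423624)) (a (l 16553192) (l 16422344))) (b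 (a (l 16489928) (l 16445264)) (a (l 16508624) (l 16548656)))) (b (b (l 16305280) (l 16431240)) (b (l 16460912) (l 16398232))))), by decide +kernel⟩

def k17_B04pp_022_s1 : ∃ t, chk3 f_B04pp_022_s1 t 3 1 1 = true :=
  ⟨(b (b (l 1) (a (b (l 1) (a (b (l 1) (a (l 15872992) (l 1))) (l 1))) (l 1))) (a (a (b (b (b (a (l 15845592) (l 15792680)) (a (l 15846776) (l 15856760))) (b (a (l 15942128) (l 15946776)) (a (l 16027720) (l 16043840)))) (b (b (a (l 16269624) (l 16046128)) (a (l 16322744) (l 16119848))) (b (a (l 16278480) (l 16253856)) (a (l 16307680) (l 16292696))))) (a (b (l 6) (b (b (l 15978720) (l 16064592)) (b (l 16134824) (l 16183640)))) (l 6))) (l 6))), by decide +kernel⟩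

theorem t18_B04pp_022_s1 : ∃ t, chk3 f_B04pp_022_s1 t 5 3 1 = true := ex3_b k15_B04pp_022_s1 k16_B04pp_022_s1

theorem t19_B04pp_022_s1 : ∃ t, chk3 f_B04pp_022_s1 t 5 1 1 = true := ex3_b k14_B04pp_022_s1 t18_B04pp_022_s1

theorem t20_B04pp_022_s1 : ∃ t, chk3 f_B04pp_022_s1 t 9 6 1 = true := ex3_b k11_B04pp_022_s1 k12_B04pp_022_s1

theorem t21_B04pp_022_s1 : ∃ t, chk3 f_B04pp_022_s1 t 9 3 1 = true := ex3_b t20_B04pp_022_s1 k13_B04pp_022_s1

theorem t22_B04pp_022_s1 : ∃ t, chk3 f_B04pp_022_s1 t 4 3 1 = true := ex3_a k10_B04pp_022_s1 t21_B04pp_022_s1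

theorem t23_B04pp_022_s1 : ∃ t, chk3 f_B04pp_022_s1 t 9 5 1 = true := ex3_b k8_B04pp_022_s1 k9_B04pp_022_s1

theorem t24_B04pp_022_s1 : ∃ t, chk3 f_B04pp_022_s1 t 9 2 1 = true := ex3_b k7_B04pp_022_s1 t23_B04pp_022_s1

theorem t25_B04pp_022_s1 : ∃ t, chk3 f_B04pp_022_s1 t 34 9 1 = true := ex3_b k3_B04pp_022_s1 k4_B04pp_022_s1

theorem t26_B04pp_022_s1 : ∃ t, chk3 f_B04pp_022_s1 t 17 9 1 = true := ex3_a t25_B04pp_022_s1 k5_B04pp_022_s1

theorem t27_B04pp_022_s1 : ∃ t, chk3 f_B04pp_022_s1 t 8 9 1 = true := ex3_a k2_B04pp_022_s1 t26_B04pp_022_s1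

theorem t28_B04pp_022_s1 : ∃ t, chk3 f_B04pp_022_s1 t 8 8 1 = true := ex3_a k0_B04pp_022_s1 k1_B04pp_022_s1

theorem t29_B04pp_022_s1 : ∃ t, chk3 f_B04pp_022_s1 t 8 4 1 = true := ex3_b t28_B04pp_022_s1 t27_B04pp_022_s1

theorem t30_B04pp_022_s1 : ∃ t, chk3 f_B04pp_022_s1 t 8 2 1 = true := ex3_b t29_B04pp_022_s1 k6_B04pp_022_s1

theorem t31_B04pp_022_s1 : ∃ t, chk3 f_B04pp_022_s1 t 4 2 1 = true := ex3_a t30_B04pp_022_s1 t24_B04pp_022_s1

theorem t32_B04pp_022_s1 : ∃ t, chk3 f_B04pp_022_s1 t 4 1 1 = true := ex3_b t31_B04pp_022_s1 t22_B04pp_022_s1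

theorem t33_B04pp_022_s1 : ∃ t, chk3 f_B04pp_022_s1 t 2 1 1 = true := ex3_a t32_B04pp_022_s1 t19_B04pp_022_s1

theorem t34_B04pp_022_s1 : ∃ t, chk3 f_B04pp_022_s1 t 1 1 1 = true := ex3_a t33_B04pp_022_s1 k17_B04pp_022_s1

theorem c_B04pp_022_s1 : CertF 0 536870912 1073741824 536870912 966367641 24778659 false true true .pp 0 2 2
    ndB0q0 ndB4q2 pcB2 cut_B04pp_022_s1 xt_B04pp_022_s1 :=
  certF2 (fam := false) (s1 := true) (s2 := true) (a := 0) (b := 2) (c := 2) (cn := .pp) (n1 := ndB0q0) (n2 := ndB4q2) (pc := pcB2) (cut := cut_B04pp_022_s1) (xt := xt_B04pp_022_s1) (P1 := 0) (W1 := 536870912) (P2 := 1073741824) (W2 := 536870912) (P3 := 966367641) (W3 := 24778659)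
    rfl (fun _ => rfl) t34_B04pp_022_s1

theorem s_B04pp_022_s1 {κ x : ℝ} (hκ : κ * h0 = ken x) (hx : ((966367641 : ℕ) : ℝ) / S ≤ x)
    (hx' : x ≤ (((966367641 : ℕ) : ℝ) + (24778659 : ℕ)) / S)
    (H : CutB (VFD κ) PP tK tL pcB (Cut.of [[⟨0, 0, 0, 53687091⟩, ⟨1, 1, 0, 53687091⟩, ⟨2, 1, 0, 53687091⟩]]) 0 2 2 0 4 (sgb true) (sgb true) x) :
    AltB (VFD κ) PP tK tL pcB [⟨3, 0, 0, 1449551462⟩] 0 2 2 0 4 (sgb true) (sgb true) x :=
  strip_altBD (m := 1449551462) true rfl hκ (SH.κ0 hκ (SH.hx1 hx).le (SH.hx2 hx').le) (SH.hx1 hx).le (SH.hx2 hx') (covB00).cov (covB42).cov hx hx' c_B04pp_022_s1 H ((okx hx hx').extB (T := tt) (sideB hx hx') hκ rfl rfl (.O 0 true) (.N 2 true) rfl)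

noncomputable def cut_B04pp_023_s1 : Cut := Cut.of [[⟨4, 0, 0, 1449551462⟩]]

noncomputable def xt_B04pp_023_s1 : Ext := strExt dd false true true .u0 .s2 .u2 .up 0 2 3 rfl rfl gf2 vv ndB0q0 ndB4q3

noncomputable def f_B04pp_023_s1 : ℕ → ℕ → ℕ → ℕ → Bool := onCell 1073741824 536870912 0 1230186008 966367641 24778659
    (rowF 2 false true true .up 0 2 3 (qsf 0 536870912 0 1230186008 2) ndB0q0 ndB4q3 pcB2 cut_B04pp_023_s1 xt_B04pp_023_s1)

def k0_B04pp_023_s1 : ∃ t, chk3 f_B04pp_023_s1 t 1 2 1 = true :=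
  ⟨(a (l 2) (a (l 2) (l 6))), by decide +kernel⟩

def k1_B04pp_023_s1 : ∃ t, chk3 f_B04pp_023_s1 t 4 3 1 = true :=
  ⟨(b (l 2) (b (l 2) (l 3))), by decide +kernel⟩

def k2_B04pp_023_s1 : ∃ t, chk3 f_B04pp_023_s1 t 5 6 1 = true :=
  ⟨(a (l 2) (b (l 2) (b (l 2) (b (l 2) (l 530719071))))), by decide +kernel⟩

def k3_B04pp_023_s1 : ∃ t, chk3 f_B04pp_023_s1 t 10 14 1 = true :=
  ⟨(a (a (l 3) (b (l 2) (a (l 3) (b (l 2) (a (a (b (l 3) (a (l 3) (l 529035647))) (b (b (l 2) (a (l 529220367) (l 529225343))) (a (c (l 528731007) (l 529382783)) (l 529050751)))) (b (b (a (l 529336383) (b (l 403290693479) (l 16764272))) (a (a (l 529229183) (l 529232703)) (b (l 16758416) (l 16768248)))) (b (a (a (l 529115263) (l 529118335)) (b (l 16757080) (l 16745872))) (a (a (l 528995455) (l 528999039)) (b (l 16745120) (l 16765304)))))))))) (b (l 530239327) (b (a (l 529633887) (l 529689439)) (b (a (l 529320031) (l 16633496)) (a (a (b (c (l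 16734840) (l 16736640)) (a (l 16738344) (l 16750792))) (l 16717912)) (l 16629336)))))), by decide +kernel⟩

def k4_B04pp_023_s1 : ∃ t, chk3 f_B04pp_023_s1 t 20 30 1 = true :=
  ⟨(a (l 3) (a (b (a (l 3) (b (a (l 3) (a (l 3) (l 528770687))) (a (l 3) (l 528524415)))) (b (a (l 3) (a (l 528258175) (l 528002431))) (a (a (l 527714431) (l 527991935)) (a (l 528000895) (l 527473791))))) (a (b (a (b (a (l 528780159) (b (l 528852351) (l 528459903))) (a (l 528262783) (l 528539263))) (b (a (b (l 528861567) (l 528736639)) (b (l 528867455) (l 528742271))) (a (a (l 528274559) (l 528546431)) (l 528282495)))) (a (b (a (l 528276095) (l 528279823)) (a (l 528014719) (l 528017423))) (b (a (l 527748879) (l 528559999)) (a (l 527216655) (l 528026495))))) (b (b (a (a (l 527735935) (a (l 528812927) (l 528814719))) (b (a (l 16765120) (l 16741992)) (l 16751744))) (b (c (l 16751832) (l 16752144)) (b (l 16750424) (l 16738840)))) (b (b (b (l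 16737696) (l 16736512)) (l 16755616)) (b (l 16752960) (l 16750112))))))), by decide +kernel⟩

def k5_B04pp_023_s1 : ∃ t, chk3 f_B04pp_023_s1 t 20 31 1 = true :=
  ⟨(a (a (b (l 3) (b (l 3) (a (l 3) (l 526926975)))) (a (b (l 3) (b (l 526926463) (l 526932351))) (b (b (a (l 3) (b (l 3) (l 526847103))) (c (l 527618319) (l 526997775))) (b (l 527202175) (l 526937215))))) (b (b (a (a (a (c (l 527582591) (l 527308927)) (b (l 527797375) (l 527396479))) (b (l 527000847) (a (l 527671423) (l 527409791)))) (a (a (a (l 527747711) (l 527751295)) (b (l 16754240) (l 16751080))) (b (l 16747048) (l 16743784)))) (a (a (a (c (l 527879039) (l 527029631)) (a (l 527463807) (l 527466367))) (a (l 527470975) (l 527480703))) (a (a (b (l 16752616) (l 16749096)) (c (l 16747064) (l 16744800))) (b (l 16740320) (l 16736624))))) (b (a (a (a (l 527206271) (l 527209855)) (a (l 527213439) (l 527217023))) (a (a (l 527219215) (c (l 16739664) (l 16736904)))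 (l 16730616))) (a (a (a (l 526940287) (l 526942335)) (a (l 526944127) (l 526945663))) (a (a (l 16734824) (l 16729600)) (l 16721728)))))), by decide +kernel⟩

def k6_B04pp_023_s1 : ∃ t, chk3 f_B04pp_023_s1 t 21 15 1 = true :=
  ⟨(b (a (a (b (b (a (b (l 16736600) (l 16734704)) (l 16726952)) (b (l 16728208) (l 16725912))) (b (b (l 16723448) (l 16699816)) (b (l 16696968) (l 16693920)))) (b (b (l 16692872) (l 16688144)) (b (l 16682688) (l 16676448)))) (b (b (l 16624528) (l 16619016)) (b (l 16612752) (l 16605704)))) (b (b (a (a (b (l 16690664) (l 16645256)) (l 16627456)) (l 16597808)) (a (b (l 16673552) (l 16669512)) (l 16589032))) (b (a (a (l 16715232) (l 16610680)) (l 16579248)) (a (b (l 16613896) (l 16608792)) (l 16568160))))), by decide +kernel⟩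

def k7_B04pp_023_s1 : ∃ t, chk3 f_B04pp_023_s1 t 11 7 1 = true :=
  ⟨(b (a (b (b (l 381815491527) (l 529906783)) (a (b (l 16606256) (l 16597272)) (b (l 16657600) (l 16562624)))) (b (b (l 16544648) (l 16535464)) (b (l 16523736) (l 16509304)))) (a (b (b (b (l 16570720) (l 16563560)) (b (l 16555624) (l 16546816))) (b (b (l 16537144) (l 16525816)) (b (l 16514656) (l 16502832)))) (b (b (l 16491840) (a (l 16575400) (l 16533584))) (b (a (l 16468128) (l 16509024)) (b (l 16511328) (l 16498912)))))), by decide +kernel⟩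

def k8_B04pp_023_s1 : ∃ t, chk3 f_B04pp_023_s1 t 3 3 1 = true :=
  ⟨(a (b (b (a (l 2) (b (l 16585728) (l 16245992))) (a (b (a (l 16515056) (l 16467192)) (b (l 16394376) (l 16383128))) (a (b (l 16501440) (l 16469640)) (l 6)))) (a (b (b (b (l 16369680) (l 16311816)) (b (a (l 16538776) (l 16466440)) (a (l 16519448) (l 16440616)))) (b (b (a (l 16495424) (l 16413912)) (a (l 16470784) (l 16384800))) (b (a (l 16359712) (l 16356256)) (a (l 16333144) (l 16242984))))) (a (b (b (l 16344216) (l 16206104)) (b (b (l 16328832) (l 16298096)) (b (l 16266736) (l 16228432)))) (b (l 6) (l 6))))) (l 6)), by decide +kernel⟩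

theorem t9_B04pp_023_s1 : ∃ t, chk3 f_B04pp_023_s1 t 20 15 1 = true := ex3_b k4_B04pp_023_s1 k5_B04pp_023_s1

theorem t10_B04pp_023_s1 : ∃ t, chk3 f_B04pp_023_s1 t 10 15 1 = true := ex3_a t9_B04pp_023_s1 k6_B04pp_023_s1

theorem t11_B04pp_023_s1 : ∃ t, chk3 f_B04pp_023_s1 t 10 7 1 = true := ex3_b k3_B04pp_023_s1 t10_B04pp_023_s1

theorem t12_B04pp_023_s1 : ∃ t, chk3 f_B04pp_023_s1 t 5 7 1 = true := ex3_a t11_B04pp_023_s1 k7_B04pp_023_s1

theorem t13_B04pp_023_s1 : ∃ t, chk3 f_B04pp_023_s1 t 5 3 1 = true := ex3_b k2_B04pp_023_s1 t12_B04pp_023_s1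

theorem t14_B04pp_023_s1 : ∃ t, chk3 f_B04pp_023_s1 t 2 3 1 = true := ex3_a k1_B04pp_023_s1 t13_B04pp_023_s1

theorem t15_B04pp_023_s1 : ∃ t, chk3 f_B04pp_023_s1 t 1 3 1 = true := ex3_a t14_B04pp_023_s1 k8_B04pp_023_s1

theorem t16_B04pp_023_s1 : ∃ t, chk3 f_B04pp_023_s1 t 1 1 1 = true := ex3_b k0_B04pp_023_s1 t15_B04pp_023_s1

theorem c_B04pp_023_s1 : CertF 0 536870912 0 1230186008 966367641 24778659 false true true .up 0 2 3
    ndB0q0 ndB4q3 pcB2 cut_B04pp_023_s1 xt_B04pp_023_s1 :=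
  certF2 (fam := false) (s1 := true) (s2 := true) (a := 0) (b := 2) (c := 3) (cn := .up) (n1 := ndB0q0) (n2 := ndB4q3) (pc := pcB2) (cut := cut_B04pp_023_s1) (xt := xt_B04pp_023_s1) (P1 := 0) (W1 := 536870912) (P2 := 0) (W2 := 1230186008) (P3 := 966367641) (W3 := 24778659)
    rfl (fun _ => rfl) t16_B04pp_023_s1

theorem s_B04pp_023_s1 {κ x : ℝ} (hκ : κ * h0 = ken x) (hx : ((966367641 : ℕ) : ℝ) / S ≤ x)
    (hx' : x ≤ (((966367641 : ℕ) : ℝ) + (24778659 : ℕ)) / S) :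
    AltB (VFD κ) PP tK tL pcB [⟨3, 0, 0, 1449551462⟩] 0 2 3 0 4 (sgb true) (sgb true) x :=
  strip_altBD (m := 1449551462) true rfl hκ (SH.κ0 hκ (SH.hx1 hx).le (SH.hx2 hx').le) (SH.hx1 hx).le (SH.hx2 hx') (covB00).cov (covB43).cov hx hx' c_B04pp_023_s1 cutB_nil ((okx hx hx').extB (T := tt) (sideB hx hx') hκ rfl rfl (.O 0 true) (.N 3 true) rfl)

noncomputable def cut_B04pp_033_s1 : Cut := Cut.of [[⟨4, 0, 0, 1449551462⟩]]

noncomputable def f_B04pp_033_s1 : ℕ → ℕ → ℕ → ℕ → Bool := onCell 1610612736 536870912 0 1230186008 966367641 24778659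
    (rowF 2 false true true .pnn 0 3 3 (qsf 0 536870912 0 1230186008 3) ndB0q0 ndB4q3 pcB3 cut_B04pp_033_s1 Ext.none)

def k0_B04pp_033_s1 : ∃ t, chk3 f_B04pp_033_s1 t 1 1 1 = true :=
  ⟨(b (l 6) (l 6)), by decide +kernel⟩

theorem c_B04pp_033_s1 : CertF 0 536870912 0 1230186008 966367641 24778659 false true true .pnn 0 3 3
    ndB0q0 ndB4q3 pcB3 cut_B04pp_033_s1 Ext.none :=
  certF2 (fam := false) (s1 := true) (s2 := true) (a := 0) (b := 3) (c := 3) (cn := .pnn) (n1 := ndB0q0) (n2 := ndB4q3) (pc := pcB3) (cut := cut_B04pp_033_s1) (xt := Ext.none) (P1 := 0) (W1 := 536870912) (P2 := 0) (W2 := 1230186008) (P3 := 966367641) (W3 := 24778659)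
    rfl (fun _ => rfl) k0_B04pp_033_s1

theorem s_B04pp_033_s1 {κ x : ℝ} (hκ : κ * h0 = ken x) (hx : ((966367641 : ℕ) : ℝ) / S ≤ x)
    (hx' : x ≤ (((966367641 : ℕ) : ℝ) + (24778659 : ℕ)) / S) :
    AltB (VFD κ) PP tK tL pcB [⟨3, 0, 0, 1449551462⟩] 0 3 3 0 4 (sgb true) (sgb true) x :=
  strip_altBD (m := 1449551462) true rfl hκ (SH.κ0 hκ (SH.hx1 hx).le (SH.hx2 hx').le) (SH.hx1 hx).le (SH.hx2 hx') (covB00).cov (covB43).cov hx hx' c_B04pp_033_s1 cutB_nil (noExt_B)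

noncomputable def cut_B04pp_101_s1 : Cut := Cut.of [[⟨4, 0, 0, 1449551462⟩]]

noncomputable def f_B04pp_101_s1 : ℕ → ℕ → ℕ → ℕ → Bool := onCell 536870912 536870912 536870912 536870912 966367641 24778659
    (rowF 0 false true true .npn 1 0 1 (qsf 536870912 536870912 536870912 536870912 0) ndB0q1 ndB4q1 pcB0 cut_B04pp_101_s1 Ext.none)

def k0_B04pp_101_s1 : ∃ t, chk3 f_B04pp_101_s1 t 1 1 1 = true :=
  ⟨(a (l 3) (l 5)), by decide +kernel⟩

theorem c_B04pp_101_s1 : CertF 536870912 536870912 536870912 536870912 966367641 24778659 false true true .npn 1 0 1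
    ndB0q1 ndB4q1 pcB0 cut_B04pp_101_s1 Ext.none :=
  certF0 (fam := false) (s1 := true) (s2 := true) (a := 1) (b := 0) (c := 1) (cn := .npn) (n1 := ndB0q1) (n2 := ndB4q1) (pc := pcB0) (cut := cut_B04pp_101_s1) (xt := Ext.none) (P1 := 536870912) (W1 := 536870912) (P2 := 536870912) (W2 := 536870912) (P3 := 966367641) (W3 := 24778659)
    rfl k0_B04pp_101_s1

theorem s_B04pp_101_s1 {κ x : ℝ} (hκ : κ * h0 = ken x) (hx : ((966367641 : ℕ) : ℝ) / S ≤ x)
    (hx' : x ≤ (((966367641 : ℕ) : ℝ) + (24778659 : ℕ)) / S) :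
    AltB (VFD κ) PP tK tL pcB [⟨3, 0, 0, 1449551462⟩] 1 0 1 0 4 (sgb true) (sgb true) x :=
  strip_altBD (m := 1449551462) true rfl hκ (SH.κ0 hκ (SH.hx1 hx).le (SH.hx2 hx').le) (SH.hx1 hx).le (SH.hx2 hx') (covB01).cov (covB41).cov hx hx' c_B04pp_101_s1 cutB_nil (noExt_B)

noncomputable def cut_B04pp_102_s1 : Cut := Cut.of [[⟨4, 0, 0, 1449551462⟩]]

noncomputable def f_B04pp_102_s1 : ℕ → ℕ → ℕ → ℕ → Bool := onCell 536870912 536870912 1073741824 536870912 966367641 24778659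
    (rowF 0 false true true .npp 1 0 2 (qsf 536870912 536870912 1073741824 536870912 0) ndB0q1 ndB4q2 pcB0 cut_B04pp_102_s1 Ext.none)

def k0_B04pp_102_s1 : ∃ t, chk3 f_B04pp_102_s1 t 1 1 1 = true :=
  ⟨(a (l 3) (b (l 5) (l 3))), by decide +kernel⟩

theorem c_B04pp_102_s1 : CertF 536870912 536870912 1073741824 536870912 966367641 24778659 false true true .npp 1 0 2
    ndB0q1 ndB4q2 pcB0 cut_B04pp_102_s1 Ext.none :=
  certF0 (fam := false) (s1 := true) (s2 := true) (a := 1) (b := 0) (c := 2) (cn := .npp) (n1 := ndB0q1) (n2 := ndB4q2) (pc := pcB0) (cut := cut_B04pp_102_s1) (xt := Ext.none) (P1 := 536870912) (W1 := 536870912) (P2 := 1073741824) (W2 := 536870912) (P3 := 966367641) (W3 := 24778659)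
    rfl k0_B04pp_102_s1

theorem s_B04pp_102_s1 {κ x : ℝ} (hκ : κ * h0 = ken x) (hx : ((966367641 : ℕ) : ℝ) / S ≤ x)
    (hx' : x ≤ (((966367641 : ℕ) : ℝ) + (24778659 : ℕ)) / S) :
    AltB (VFD κ) PP tK tL pcB [⟨3, 0, 0, 1449551462⟩] 1 0 2 0 4 (sgb true) (sgb true) x :=
  strip_altBD (m := 1449551462) true rfl hκ (SH.κ0 hκ (SH.hx1 hx).le (SH.hx2 hx').le) (SH.hx1 hx).le (SH.hx2 hx') (covB01).cov (covB42).cov hx hx' c_B04pp_102_s1 cutB_nil (noExt_B)

noncomputable def cut_B04pp_112_s1 : Cut := Cut.of [[⟨4, 0, 0, 1449551462⟩]]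

noncomputable def f_B04pp_112_s1 : ℕ → ℕ → ℕ → ℕ → Bool := onCell 536870912 536870912 1073741824 536870912 966367641 24778659
    (rowF 0 false true true .dn 1 1 2 (qsf 536870912 536870912 1073741824 536870912 1) ndB0q1 ndB4q2 pcB1 cut_B04pp_112_s1 Ext.none)

def k0_B04pp_112_s1 : ∃ t, chk3 f_B04pp_112_s1 t 1 1 1 = true :=
  ⟨(a (l 3) (b (l 5) (l 3))), by decide +kernel⟩

theorem c_B04pp_112_s1 : CertF 536870912 536870912 1073741824 536870912 966367641 24778659 false true true .dn 1 1 2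
    ndB0q1 ndB4q2 pcB1 cut_B04pp_112_s1 Ext.none :=
  certF0 (fam := false) (s1 := true) (s2 := true) (a := 1) (b := 1) (c := 2) (cn := .dn) (n1 := ndB0q1) (n2 := ndB4q2) (pc := pcB1) (cut := cut_B04pp_112_s1) (xt := Ext.none) (P1 := 536870912) (W1 := 536870912) (P2 := 1073741824) (W2 := 536870912) (P3 := 966367641) (W3 := 24778659)
    rfl k0_B04pp_112_s1

theorem s_B04pp_112_s1 {κ x : ℝ} (hκ : κ * h0 = ken x) (hx : ((966367641 : ℕ) : ℝ) / S ≤ x)
    (hx' : x ≤ (((966367641 : ℕ) : ℝ) + (24778659 : ℕ)) / S) :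
    AltB (VFD κ) PP tK tL pcB [⟨3, 0, 0, 1449551462⟩] 1 1 2 0 4 (sgb true) (sgb true) x :=
  strip_altBD (m := 1449551462) true rfl hκ (SH.κ0 hκ (SH.hx1 hx).le (SH.hx2 hx').le) (SH.hx1 hx).le (SH.hx2 hx') (covB01).cov (covB42).cov hx hx' c_B04pp_112_s1 cutB_nil (noExt_B)

noncomputable def cut_B04pp_113_s1 : Cut := Cut.of [[⟨4, 0, 0, 1449551462⟩], [⟨0, 1, 0, 47710208⟩, ⟨1, 1, 0, 47710208⟩, ⟨2, 2, 0, 8388608⟩]]

noncomputable def f_B04pp_113_s1 : ℕ → ℕ → ℕ → ℕ → Bool := onCell 536870912 536870912 0 1230186008 966367641 24778659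
    (rowF 2 false true true .nn 1 1 3 (qsf 536870912 536870912 0 1230186008 1) ndB0q1 ndB4q3 pcB1 cut_B04pp_113_s1 Ext.none)

def k0_B04pp_113_s1 : ∃ t, chk3 f_B04pp_113_s1 t 1 1 1 = true :=
  ⟨(b (a (l 2) (a (l 2) (b (a (l 2) (a (l 2) (b (l 14) (l 3)))) (l 3)))) (a (a (b (l 2) (b (l 2) (l 3))) (b (b (l 2) (a (l 2) (l 3))) (l 3))) (b (a (l 3) (l 3)) (l 3)))), by decide +kernel⟩

theorem c_B04pp_113_s1 : CertF 536870912 536870912 0 1230186008 966367641 24778659 false true true .nn 1 1 3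
    ndB0q1 ndB4q3 pcB1 cut_B04pp_113_s1 Ext.none :=
  certF2 (fam := false) (s1 := true) (s2 := true) (a := 1) (b := 1) (c := 3) (cn := .nn) (n1 := ndB0q1) (n2 := ndB4q3) (pc := pcB1) (cut := cut_B04pp_113_s1) (xt := Ext.none) (P1 := 536870912) (W1 := 536870912) (P2 := 0) (W2 := 1230186008) (P3 := 966367641) (W3 := 24778659)
    rfl (fun _ => rfl) k0_B04pp_113_s1

theorem s_B04pp_113_s1 {κ x : ℝ} (hκ : κ * h0 = ken x) (hx : ((966367641 : ℕ) : ℝ) / S ≤ x)
    (hx' : x ≤ (((966367641 : ℕ) : ℝ) + (24778659 : ℕ)) / S)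
    (H : CutB (VFD κ) PP tK tL pcB (Cut.of [[⟨0, 1, 0, 47710208⟩, ⟨1, 1, 0, 47710208⟩, ⟨2, 2, 0, 8388608⟩]]) 1 1 3 0 4 (sgb true) (sgb true) x) :
    AltB (VFD κ) PP tK tL pcB [⟨3, 0, 0, 1449551462⟩] 1 1 3 0 4 (sgb true) (sgb true) x :=
  strip_altBD (m := 1449551462) true rfl hκ (SH.κ0 hκ (SH.hx1 hx).le (SH.hx2 hx').le) (SH.hx1 hx).le (SH.hx2 hx') (covB01).cov (covB43).cov hx hx' c_B04pp_113_s1 H (noExt_B)

noncomputable def cut_B04pp_123_s1 : Cut := Cut.of [[⟨4, 0, 0, 1449551462⟩], [⟨0, 1, 0, 47710208⟩, ⟨1, 1, 0, 47710208⟩, ⟨2, 2, 0, 8388608⟩]]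

noncomputable def xt_B04pp_123_s1 : Ext := strExt dd false true true .u0 .s2 .u2 .npn 1 2 3 rfl rfl gf2 vv ndB0q1 ndB4q3

noncomputable def f_B04pp_123_s1 : ℕ → ℕ → ℕ → ℕ → Bool := onCell 1073741824 536870912 0 1230186008 966367641 24778659
    (rowF 2 false true true .npn 1 2 3 (qsf 536870912 536870912 0 1230186008 2) ndB0q1 ndB4q3 pcB2 cut_B04pp_123_s1 xt_B04pp_123_s1)

def k0_B04pp_123_s1 : ∃ t, chk3 f_B04pp_123_s1 t 8 2 1 = true :=
  ⟨(b (b (a (l 14) (b (a (b (l 16650592) (a (l 14) (l 16732080))) (b (l 16703440) (l 16627800))) (a (b (a (l 14) (b (l 16652960) (a (b (a (l 14) (l 16740744)) (a (b (l 16706712) (l 16711400)) (b (l 16659024) (l 16704504)))) (b (l 16736536) (l 16696824))))) (a (b (l 14) (l 3)) (a (b (c (l 527085199) (l 531097743)) (l 527579935)) (b (b (a (b (l 16660448) (l 16665048)) (l 16699008)) (l 529058447)) (l 528684831))))) (b (a (l 16642952) (l 16714968)) (a (b (a (b (l 16651536) (a (b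 (l 16656600) (l 16661000)) (l 16653728))) (l 16647496)) (a (c (l 527085855) (l 531158815)) (b (a (l 16655456) (l 16650888)) (l 529304207)))) (b (l 16639344) (a (a (l 16671208) (l 16646688)) (l 16726240)))))))) (a (l 3) (b (a (a (l 3) (b (a (l 3) (b (a (l 528806543) (l 528848415)) (l 3))) (l 3))) (b (a (a (b (a (l 528921887) (l 529043343)) (l 527201567)) (b (l 528145951) (l 529072527))) (b (a (a (l 529381519) (b (l 16654632) (l 16662736))) (b (l 16647928) (a (l 16657032) (l 16651520)))) (c (l 527294095) (l 531340431)))) (a (a (l 3) (a (l 3) (l 527325071))) (c (l 526521631) (l 531463567))))) (l 3)))) (l 3)), by decide +kernel⟩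

def k1_B04pp_123_s1 : ∃ t, chk3 f_B04pp_123_s1 t 18 2 1 = true :=
  ⟨(b (b (b (a (l 16679000) (l 16566880)) (a (a (b (l 16702472) (l 16630960)) (l 16612200)) (l 16593704))) (b (b (a (a (b (a (l 16643776) (l 16721744)) (a (b (l 16672256) (l 16700624)) (b (l 16643224) (l 16648568)))) (b (l 16713576) (l 16636592))) (l 16616648)) (a (a (c (l 527557919) (l 531688591)) (b (a (b (l 16646160) (l 16652640)) (l 16641968)) (c (l 528039055) (l 532400015)))) (a (b (l 16633104) (a (l 16645048) (l 16638816))) (l 16626904)))) (a (b (a (c (l 525642383) (l 531777167)) (c (l 527817359) (l 532272015))) (a (l 3) (c (l 527554079) (l 532110735)))) (a (b (a (l 530172959) (b (l 16648576) (l 530676623))) (c (l 527107471) (l 532607631))) (b (b (a (l 16642016) (l 16720536)) (a (l 16652192) (l 16645520))) (c (a (l 528722207) (l 529105695)) (l 531773983))))))) (b (b (a (l 3) (a (b (c (l 526335519) (l 532467999)) (l 3)) (a (b (c (l 528478495)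 (l 532842783)) (l 3)) (b (c (l 528063775) (l 533101087)) (c (l 528692111) (l 532989327)))))) (l 3)) (l 3))), by decide +kernel⟩

def k2_B04pp_123_s1 : ∃ t, chk3 f_B04pp_123_s1 t 19 2 1 = true :=
  ⟨(b (b (b (a (l 16624536) (l 16600784)) (a (l 16653704) (l 16632248))) (b (a (b (l 16678384) (l 16611608)) (l 16666192)) (a (b (a (b (l 16713168) (l 16637848)) (l 16707800)) (a (a (b (l 16649248) (l 16658640)) (b (l 16644080) (l 16736744))) (b (l 16720800) (l 16645464)))) (b (l 16692864) (l 16626496))))) (a (b (b (b (a (c (c (l 528626207) (l 530561567)) (c (l 532536863) (l 534557215))) (c (a (l 16647216) (l 16639936)) (b (l 16752976) (l 16757368)))) (a (c (l 529359391) (l 533405471)) (c (l 529895967) (l 533866783)))) (a (a (l 3) (b (c (l 529339167) (l 533383967)) (l 3))) (b (c (b (l 530005023) (l 529896991)) (c (l 532780063) (l 534706207))) (c (l 529193247) (l 533594655))))) (l 3)) (a (b (b (a (b (l 16649992) (l 531597343))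 (b (l 16729288) (l 16658840))) (b (c (l 529324943) (l 534100367)) (c (l 529665935) (l 533979023)))) (b (b (c (l 529726095) (l 533838735)) (l 3)) (l 3))) (b (b (b (l 16721744) (a (l 16654344) (l 16649752))) (b (a (l 532713503) (l 16661320)) (c (l 530576927) (l 534247455)))) (b (b (c (b (l 530982175) (l 530890271)) (l 532793375)) (a (c (l 530592287) (l 533946655)) (c (l 530890783) (l 534044559)))) (b (a (l 3) (l 530914335)) (l 3))))))), by decide +kernel⟩

def k3_B04pp_123_s1 : ∃ t, chk3 f_B04pp_123_s1 t 5 4 1 = true :=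
  ⟨(b (a (a (a (b (l 16577376) (l 16612192)) (b (l 16552024) (a (l 16597800) (l 16588616)))) (b (l 6) (l 16561856))) (l 6)) (a (a (a (b (l 16645744) (l 16679960)) (b (a (l 16630024) (l 16619112)) (a (l 16662416) (l 16565344)))) (b (l 16595552) (l 16538736))) (b (a (l 16557768) (l 6)) (a (l 16584336) (l 16550728))))), by decide +kernel⟩

def k4_B04pp_123_s1 : ∃ t, chk3 f_B04pp_123_s1 t 5 5 1 = true :=
  ⟨(a (a (a (b (b (a (b (l 16710544) (l 16725752)) (l 16706120)) (a (a (b (l 16656728) (l 532888463)) (b (l 16735728) (l 16661656))) (b (l 16643160) (a (l 16740544) (l 16735080))))) (b (a (b (a (l 531173663) (l 532751247)) (c (l 531072543) (l 533847951))) (b (a (l 16706864) (l 16743488)) (a (l 532521615) (l 532622111)))) (a (a (b (l 530688655) (l 3)) (b (l 531015455) (a (l 530839439) (l 531400847)))) (b (a (l 531871519) (b (l 16726288) (l 532415007))) (a (c (l 530939279) (l 533522831)) (c (l 530578719) (l 533464863)))))))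 (b (a (b (l 16692984) (b (l 16713056) (l 16641248))) (b (b (l 16671080) (l 16600344)) (b (l 16612504) (a (l 16713080) (l 16703568))))) (a (b (a (b (l 16738016) (l 16662144)) (b (l 16732072) (l 16740616))) (b (a (c (l 16706632) (l 16759520)) (l 16706464)) (a (a (l 531519007) (l 531806239)) (b (l 16753976) (l 532323359))))) (b (a (b (l 16724592) (l 16734608)) (b (l 16714808) (a (l 16728648) (l 16723352)))) (a (b (l 16658960) (c (l 16703504) (l 16754528))) (a (b (l 16738232) (l 16745672)) (b (l 16734368) (l 16700800)))))))) (b (b (a (l 16574720) (l 16637456)) (a (l 16577232) (l 16659296))) (b (a (b (l 16698120) (l 16625480)) (l 16681200)) (a (b (l 16720424) (a (l 16735624) (l 16724432))) (b (l 16697744) (l 16624008)))))) (b (b (a (l 16607384) (l 16571448)) (a (l 16544728) (l 16590848))) (a (b (l 16649760) (a (l 16597216) (l 16660112))) (b (l 16610448) (l 16546344))))), by decide +kernel⟩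

def k5_B04pp_123_s1 : ∃ t, chk3 f_B04pp_123_s1 t 3 2 1 = true :=
  ⟨(a (b (l 6) (a (b (b (l 6) (l 16457008)) (b (l 16557152) (a (l 16591552) (l 16553872)))) (l 6))) (l 6)), by decide +kernel⟩

def k6_B04pp_123_s1 : ∃ t, chk3 f_B04pp_123_s1 t 4 6 1 = true :=
  ⟨(l 3), by decide +kernel⟩

def k7_B04pp_123_s1 : ∃ t, chk3 f_B04pp_123_s1 t 40 6 1 = true :=
  ⟨(b (b (a (l 3) (b (a (c (l 530736271) (l 533381775)) (c (a (l 530869135) (l 529878671)) (l 533320223))) (a (l 3) (b (c (l 530760223) (l 533208863)) (l 3))))) (l 3)) (l 3)), by decide +kernel⟩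

def k8_B04pp_123_s1 : ∃ t, chk3 f_B04pp_123_s1 t 41 12 1 = true :=
  ⟨(a (b (b (a (c (b (l 531141663) (l 530504991)) (b (l 533263391) (l 533187359))) (b (l 530890783) (a (l 532125327) (l 16741704)))) (a (c (b (l 530959391) (l 530858271)) (b (l 533074207) (l 532993567))) (b (c (l 531173407) (l 532909599)) (c (l 531078431) (l 532819999))))) (b (a (a (l 3) (l 530189087)) (a (l 530195999) (l 530470431))) (a (l 3) (a (c (l 530662287) (l 532517775)) (b (l 531645839) (l 530751263)))))) (b (b (a (a (c (l 16713048) (l 16761152)) (c (l 16668096) (l 16758232))) (l 16708760)) (a (a (b (l 16741792) (l 531964191)) (b (l 16759728) (c (l 16760840) (l 16764416)))) (b (l 16671344) (l 16758064)))) (b (a (a (b (l 531329567) (a (l 531759759) (l 531758735))) (b (c (l 16743032) (l 16766736)) (a (l 531766559) (l 16746192)))) (b (l 16739776) (a (l 16743848) (l 16761712)))) (a (a (b (a (l 531656591) (l 531662111)) (a (l 530207631) (c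 (l 530938767) (l 532158607)))) (b (a (l 530586911) (l 531660687)) (a (b (l 531578655) (l 531522591)) (l 531281807)))) (c (b (a (l 16766384) (l 16763080)) (b (l 16745592) (l 16757216))) (b (l 16756056) (b (l 16747064) (l 16758512)))))))), by decide +kernel⟩

def k9_B04pp_123_s1 : ∃ t, chk3 f_B04pp_123_s1 t 82 13 1 = true :=
  ⟨(l 3), by decide +kernel⟩

def k10_B04pp_123_s1 : ∃ t, chk3 f_B04pp_123_s1 t 83 26 1 = true :=
  ⟨(b (b (a (a (a (l 530901903) (l 531441183)) (a (c (l 530951711) (l 531932959)) (c (l 531020431) (l 531863183)))) (a (a (l 531443343) (l 531452303)) (b (l 16746760) (l 16758200)))) (a (a (l 3) (a (c (l 530339615) (l 531234591)) (b (l 531345039) (l 531296143)))) (b (a (l 530292367) (l 16759096)) (a (l 531309455) (b (l 16770224) (l 16749656)))))) (a (l 531132239) (a (l 531159631) (a (a (l 531170863) (b (b (l 16761144) (a (l 16767336) (l 16761672))) (b (b (l 16772896) (l 16773224)) (b (l 16773536)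 (l 16763352))))) (l 531182175))))), by decide +kernel⟩

def k11_B04pp_123_s1 : ∃ t, chk3 f_B04pp_123_s1 t 83 27 1 = true :=
  ⟨(a (l 3) (b (a (l 530902351) (a (a (l 530912559) (b (b (b (l 16768888) (l 16769160)) (b (a (l 16769632) (l 16769208)) (b (l 16774848) (l 16774960)))) (c (b (b (l 16774984) (l 16769968)) (b (b (l 16775376) (l 16775472)) (b (l 16775576) (l 16775664)))) (b (b (l 16775288) (l 16770240)) (b (l 16773040) (a (l 16773416) (l 16775632))))))) (l 530922847))) (a (l 529814607) (a (a (l 530628911) (a (a (b (l 530705199) (l 530556207)) (a (b (b (l 530742063) (l 530669359)) (b (l 530594863) (l 530518575))) (a (b (b (b (c (l 16775888) (l 16770816)) (c (l 16773424) (l 16776200))) (b (b (l 16776224) (l 530679087)) (b (l 530660655) (l 530642223)))) (b (b (b (l 530623535) (l 530604847)) (b (l 530585903) (l 530566959))) (b (b (l 530547759) (l 530528559)) (b (l 530509359) (l 530489903))))) (b (b (b (c (l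 16775824) (l 16776008)) (c (l 16773360) (l 16776144))) (b (c (l 16776128) (l 16776272)) (b (c (l 16776224) (l 16776352)) (c (l 16776280) (l 16776400))))) (b (b (c (b (l 16776336) (l 16776376)) (b (l 16776448) (l 16776488))) (c (b (l 16776424) (l 16776464)) (b (l 16776528) (l 16776560)))) (b (b (c (l 16776496) (l 16776584)) (c (l 16776520) (l 16776616))) (c (b (l 16776544) (l 16776568)) (b (l 16776632) (l 16776648))))))))) (b (b (l 530743903) (l 530671199)) (b (l 530596447) (l 530520159))))) (l 530637919))))), by decide +kernel⟩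

def k12_B04pp_123_s1 : ∃ t, chk3 f_B04pp_123_s1 t 21 6 1 = true :=
  ⟨(b (a (b (b (a (l 16742096) (l 16730904)) (b (l 16740672) (l 16701336))) (b (a (b (l 16667768) (l 16712112)) (l 16698984)) (a (b (a (l 16717432) (l 16753192)) (a (l 16740512) (l 16755216))) (a (l 16706120) (l 16658096))))) (b (b (l 16714840) (l 16635656)) (b (l 16639808) (a (l 16649136) (l 16721248))))) (b (b (c (a (a (b (l 16738024) (a (l 16743232) (l 16757248))) (l 16704288)) (l 16726032)) (a (a (b (l 16740560) (l 16773632)) (l 16708712)) (l 16649976))) (b (a (a (a (l 531266399) (l 16718152)) (l 16666504)) (l 16731304)) (a (l 531191903) (l 16731952)))) (l 530900319))), by decide +kernel⟩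

def k13_B04pp_123_s1 : ∃ t, chk3 f_B04pp_123_s1 t 11 6 1 = true :=
  ⟨(b (a (b (b (l 16599944) (l 16688336)) (b (l 16607104) (l 16609080))) (b (a (l 16571848) (l 16635888)) (l 16565616))) (b (a (b (l 16610152) (l 16610208)) (b (l 16647640) (l 16644976))) (b (a (l 16609160) (l 16641024)) (l 530719071)))), by decide +kernel⟩

def k14_B04pp_123_s1 : ∃ t, chk3 f_B04pp_123_s1 t 3 6 1 = true :=
  ⟨(a (b (a (a (b (l 16521960) (l 16524080)) (b (l 16564736) (l 16565712))) (b (l 16501768) (b (l 16416592) (l 16410808)))) (a (b (a (l 16515040) (l 16467024)) (b (l 16310072) (l 93448219511))) (b (b (l 16399344) (l 1)) (l 1)))) (l 6)), by decide +kernel⟩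

def k15_B04pp_123_s1 : ∃ t, chk3 f_B04pp_123_s1 t 4 7 1 = true :=
  ⟨(b (l 3) (l 3)), by decide +kernel⟩

def k16_B04pp_123_s1 : ∃ t, chk3 f_B04pp_123_s1 t 40 14 1 = true :=
  ⟨(l 3), by decide +kernel⟩

def k17_B04pp_123_s1 : ∃ t, chk3 f_B04pp_123_s1 t 82 14 1 = true :=
  ⟨(l 3), by decide +kernel⟩

def k18_B04pp_123_s1 : ∃ t, chk3 f_B04pp_123_s1 t 166 14 1 = true :=
  ⟨(b (l 3) (b (l 529573695) (b (a (l 3) (b (l 529328191) (a (l 529220367) (l 529225343)))) (l 1)))), by decide +kernel⟩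

def k19_B04pp_123_s1 : ∃ t, chk3 f_B04pp_123_s1 t 167 14 1 = true :=
  ⟨(b (b (a (l 3) (a (b (a (l 530397743) (a (a (l 530399791) (a (b (l 530440495) (l 530360367)) (b (b (b (b (l 16776648) (l 16776648)) (b (l 16776656) (l 16776656))) (b (b (l 16776664) (l 16776664)) (b (l 16776664) (l 16776656)))) (b (b (b (l 16776656) (l 16776648)) (b (l 16776648) (l 16776640))) (b (b (l 16776632) (l 16776624)) (b (l 16776608) (l 16776600))))))) (b (l 530442079) (l 530361951)))) (b (a (l 530275887) (a (a (l 530277679) (b (b (a (l 530309423) (b (l 16776584) (l 16776576))) (c (l 16776568) (l 16776648))) (b (c (l 16776528) (l 16776616)) (b (l 16776544) (l 16776520))))) (l 530279775))) (a (l 530191919) (a (a (l 530193711) (b (b (b (l 16776496) (l 16776472)) (b (l 16776448) (l 16776416))) (b (b (l 16773768) (l 16773744)) (b (l 16773712) (l 16776296))))) (l 530195551))))) (l 530324063))) (a (l 529964863) (a (a (l 529971503) (b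 (c (b (a (a (l 529685295) (a (l 529685807) (b (b (l 16776120) (l 16776048)) (l 16775920)))) (l 529687135)) (b (b (l 16773096) (l 16772992)) (b (l 16775512) (l 16775392)))) (b (a (b (b (l 16776416) (l 16776352)) (b (l 16776280) (l 16773576))) (l 530544991)) (a (a (l 530453551) (b (l 16773336) (l 16775768))) (l 530455391)))) (b (b (b (a (l 16773008) (l 16769904)) (l 16772648)) (b (l 16772520) (l 16775016))) (b (b (l 16774872) (l 16774736)) (b (l 16769344) (l 16769184)))))) (l 529978207)))) (b (a (l 529587519) (a (a (l 529593135) (b (b (b (b (l 16774264) (l 16774096)) (b (l 16773920) (l 16773736))) (b (a (l 16773704) (l 16773208)) (l 16773048))) (b (b (l 16772616) (l 16772160)) (b (l 16761184) (l 16760664))))) (l 529598815))) (b (b (a (l 529336383) (a (b (l 16771112) (l 16770536)) (l 529346143))) (a (a (l 529229183) (l 1)) (l 1))) (l 1)))), by decide +kernel⟩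

def k20_B04pp_123_s1 : ∃ t, chk3 f_B04pp_123_s1 t 21 14 1 = true :=
  ⟨(b (l 530239327) (b (a (l 529633887) (l 529689439)) (b (a (l 529320031) (l 1)) (l 1)))), by decide +kernel⟩

def k21_B04pp_123_s1 : ∃ t, chk3 f_B04pp_123_s1 t 11 14 1 = true :=
  ⟨(b (a (b (l 530565215) (l 529906783)) (b (l 16544480) (l 1))) (l 1)), by decide +kernel⟩

def k22_B04pp_123_s1 : ∃ t, chk3 f_B04pp_123_s1 t 5 15 1 = true :=
  ⟨(a (a (b (a (l 3) (l 1)) (l 1)) (l 1)) (l 1)), by decide +kernel⟩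

def k23_B04pp_123_s1 : ∃ t, chk3 f_B04pp_123_s1 t 3 7 1 = true :=
  ⟨(l 1), by decide +kernel⟩

theorem t24_B04pp_123_s1 : ∃ t, chk3 f_B04pp_123_s1 t 83 14 1 = true := ex3_a k18_B04pp_123_s1 k19_B04pp_123_s1

theorem t25_B04pp_123_s1 : ∃ t, chk3 f_B04pp_123_s1 t 41 14 1 = true := ex3_a k17_B04pp_123_s1 t24_B04pp_123_s1

theorem t26_B04pp_123_s1 : ∃ t, chk3 f_B04pp_123_s1 t 20 14 1 = true := ex3_a k16_B04pp_123_s1 t25_B04pp_123_s1

theorem t27_B04pp_123_s1 : ∃ t, chk3 f_B04pp_123_s1 t 10 14 1 = true := ex3_a t26_B04pp_123_s1 k20_B04pp_123_s1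

theorem t28_B04pp_123_s1 : ∃ t, chk3 f_B04pp_123_s1 t 5 14 1 = true := ex3_a t27_B04pp_123_s1 k21_B04pp_123_s1

theorem t29_B04pp_123_s1 : ∃ t, chk3 f_B04pp_123_s1 t 5 7 1 = true := ex3_b t28_B04pp_123_s1 k22_B04pp_123_s1

theorem t30_B04pp_123_s1 : ∃ t, chk3 f_B04pp_123_s1 t 2 7 1 = true := ex3_a k15_B04pp_123_s1 t29_B04pp_123_s1

theorem t31_B04pp_123_s1 : ∃ t, chk3 f_B04pp_123_s1 t 1 7 1 = true := ex3_a t30_B04pp_123_s1 k23_B04pp_123_s1

theorem t32_B04pp_123_s1 : ∃ t, chk3 f_B04pp_123_s1 t 83 13 1 = true := ex3_b k10_B04pp_123_s1 k11_B04pp_123_s1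

theorem t33_B04pp_123_s1 : ∃ t, chk3 f_B04pp_123_s1 t 41 13 1 = true := ex3_a k9_B04pp_123_s1 t32_B04pp_123_s1

theorem t34_B04pp_123_s1 : ∃ t, chk3 f_B04pp_123_s1 t 41 6 1 = true := ex3_b k8_B04pp_123_s1 t33_B04pp_123_s1

theorem t35_B04pp_123_s1 : ∃ t, chk3 f_B04pp_123_s1 t 20 6 1 = true := ex3_a k7_B04pp_123_s1 t34_B04pp_123_s1

theorem t36_B04pp_123_s1 : ∃ t, chk3 f_B04pp_123_s1 t 10 6 1 = true := ex3_a t35_B04pp_123_s1 k12_B04pp_123_s1

theorem t37_B04pp_123_s1 : ∃ t, chk3 f_B04pp_123_s1 t 5 6 1 = true := ex3_a t36_B04pp_123_s1 k13_B04pp_123_s1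

theorem t38_B04pp_123_s1 : ∃ t, chk3 f_B04pp_123_s1 t 2 6 1 = true := ex3_a k6_B04pp_123_s1 t37_B04pp_123_s1

theorem t39_B04pp_123_s1 : ∃ t, chk3 f_B04pp_123_s1 t 1 6 1 = true := ex3_a t38_B04pp_123_s1 k14_B04pp_123_s1

theorem t40_B04pp_123_s1 : ∃ t, chk3 f_B04pp_123_s1 t 1 3 1 = true := ex3_b t39_B04pp_123_s1 t31_B04pp_123_s1

theorem t41_B04pp_123_s1 : ∃ t, chk3 f_B04pp_123_s1 t 5 2 1 = true := ex3_b k3_B04pp_123_s1 k4_B04pp_123_s1

theorem t42_B04pp_123_s1 : ∃ t, chk3 f_B04pp_123_s1 t 9 2 1 = true := ex3_a k1_B04pp_123_s1 k2_B04pp_123_s1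

theorem t43_B04pp_123_s1 : ∃ t, chk3 f_B04pp_123_s1 t 4 2 1 = true := ex3_a k0_B04pp_123_s1 t42_B04pp_123_s1

theorem t44_B04pp_123_s1 : ∃ t, chk3 f_B04pp_123_s1 t 2 2 1 = true := ex3_a t43_B04pp_123_s1 t41_B04pp_123_s1

theorem t45_B04pp_123_s1 : ∃ t, chk3 f_B04pp_123_s1 t 1 2 1 = true := ex3_a t44_B04pp_123_s1 k5_B04pp_123_s1

theorem t46_B04pp_123_s1 : ∃ t, chk3 f_B04pp_123_s1 t 1 1 1 = true := ex3_b t45_B04pp_123_s1 t40_B04pp_123_s1

theorem c_B04pp_123_s1 : CertF 536870912 536870912 0 1230186008 966367641 24778659 false true true .npn 1 2 3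
    ndB0q1 ndB4q3 pcB2 cut_B04pp_123_s1 xt_B04pp_123_s1 :=
  certF2 (fam := false) (s1 := true) (s2 := true) (a := 1) (b := 2) (c := 3) (cn := .npn) (n1 := ndB0q1) (n2 := ndB4q3) (pc := pcB2) (cut := cut_B04pp_123_s1) (xt := xt_B04pp_123_s1) (P1 := 536870912) (W1 := 536870912) (P2 := 0) (W2 := 1230186008) (P3 := 966367641) (W3 := 24778659)
    rfl (fun _ => rfl) t46_B04pp_123_s1

theorem s_B04pp_123_s1 {κ x : ℝ} (hκ : κ * h0 = ken x) (hx : ((966367641 : ℕ) : ℝ) / S ≤ x)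
    (hx' : x ≤ (((966367641 : ℕ) : ℝ) + (24778659 : ℕ)) / S)
    (H : CutB (VFD κ) PP tK tL pcB (Cut.of [[⟨0, 1, 0, 47710208⟩, ⟨1, 1, 0, 47710208⟩, ⟨2, 2, 0, 8388608⟩]]) 1 2 3 0 4 (sgb true) (sgb true) x) :
    AltB (VFD κ) PP tK tL pcB [⟨3, 0, 0, 1449551462⟩] 1 2 3 0 4 (sgb true) (sgb true) x :=
  strip_altBD (m := 1449551462) true rfl hκ (SH.κ0 hκ (SH.hx1 hx).le (SH.hx2 hx').le) (SH.hx1 hx).le (SH.hx2 hx') (covB01).cov (covB43).cov hx hx' c_B04pp_123_s1 H ((okx hx hx').extB (T := tt) (sideB hx hx') hκ rfl rfl (.O 1 true) (.N 3 true) rfl)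

noncomputable def cut_B04pp_133_s1 : Cut := Cut.of [[⟨4, 0, 0, 1449551462⟩]]

noncomputable def f_B04pp_133_s1 : ℕ → ℕ → ℕ → ℕ → Bool := onCell 1610612736 536870912 0 1230186008 966367641 24778659
    (rowF 2 false true true .dn 1 3 3 (qsf 536870912 536870912 0 1230186008 3) ndB0q1 ndB4q3 pcB3 cut_B04pp_133_s1 Ext.none)

def k0_B04pp_133_s1 : ∃ t, chk3 f_B04pp_133_s1 t 1 1 1 = true :=
  ⟨(b (l 6) (l 1)), by decide +kernel⟩

theorem c_B04pp_133_s1 : CertF 536870912 536870912 0 1230186008 966367641 24778659 false true true .dn 1 3 3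
    ndB0q1 ndB4q3 pcB3 cut_B04pp_133_s1 Ext.none :=
  certF2 (fam := false) (s1 := true) (s2 := true) (a := 1) (b := 3) (c := 3) (cn := .dn) (n1 := ndB0q1) (n2 := ndB4q3) (pc := pcB3) (cut := cut_B04pp_133_s1) (xt := Ext.none) (P1 := 536870912) (W1 := 536870912) (P2 := 0) (W2 := 1230186008) (P3 := 966367641) (W3 := 24778659)
    rfl (fun _ => rfl) k0_B04pp_133_s1

theorem s_B04pp_133_s1 {κ x : ℝ} (hκ : κ * h0 = ken x) (hx : ((966367641 : ℕ) : ℝ) / S ≤ x)
    (hx' : x ≤ (((966367641 : ℕ) : ℝ) + (24778659 : ℕ)) / S) :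
    AltB (VFD κ) PP tK tL pcB [⟨3, 0, 0, 1449551462⟩] 1 3 3 0 4 (sgb true) (sgb true) x :=
  strip_altBD (m := 1449551462) true rfl hκ (SH.κ0 hκ (SH.hx1 hx).le (SH.hx2 hx').le) (SH.hx1 hx).le (SH.hx2 hx') (covB01).cov (covB43).cov hx hx' c_B04pp_133_s1 cutB_nil (noExt_B)

noncomputable def cut_B04pp_202_s1 : Cut := Cut.of [[⟨4, 0, 0, 1449551462⟩]]

noncomputable def f_B04pp_202_s1 : ℕ → ℕ → ℕ → ℕ → Bool := onCell 0 536870912 1073741824 536870912 966367641 24778659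
    (rowF 0 false true true .pp 2 0 2 (qsf 0 536870912 1073741824 536870912 0) ndB0q2 ndB4q2 pcB0 cut_B04pp_202_s1 Ext.none)

def k0_B04pp_202_s1 : ∃ t, chk3 f_B04pp_202_s1 t 1 1 1 = true :=
  ⟨(l 5), by decide +kernel⟩

theorem c_B04pp_202_s1 : CertF 0 536870912 1073741824 536870912 966367641 24778659 false true true .pp 2 0 2
    ndB0q2 ndB4q2 pcB0 cut_B04pp_202_s1 Ext.none :=
  certF0 (fam := false) (s1 := true) (s2 := true) (a := 2) (b := 0) (c := 2) (cn := .pp) (n1 := ndB0q2) (n2 := ndB4q2) (pc := pcB0) (cut := cut_B04pp_202_s1) (xt := Ext.none) (P1 := 0) (W1 := 536870912) (P2 := 1073741824) (W2 := 536870912) (P3 := 966367641) (W3 := 24778659)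
    rfl k0_B04pp_202_s1

theorem s_B04pp_202_s1 {κ x : ℝ} (hκ : κ * h0 = ken x) (hx : ((966367641 : ℕ) : ℝ) / S ≤ x)
    (hx' : x ≤ (((966367641 : ℕ) : ℝ) + (24778659 : ℕ)) / S) :
    AltB (VFD κ) PP tK tL pcB [⟨3, 0, 0, 1449551462⟩] 2 0 2 0 4 (sgb true) (sgb true) x :=
  strip_altBD (m := 1449551462) true rfl hκ (SH.κ0 hκ (SH.hx1 hx).le (SH.hx2 hx').le) (SH.hx1 hx).le (SH.hx2 hx') (covB02).cov (covB42).cov hx hx' c_B04pp_202_s1 cutB_nil (noExt_B)

noncomputable def cut_B04pp_203_s1 : Cut := Cut.of [[⟨4, 0, 0, 1449551462⟩]]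

noncomputable def f_B04pp_203_s1 : ℕ → ℕ → ℕ → ℕ → Bool := onCell 0 536870912 0 1230186008 966367641 24778659
    (rowF 0 false true true .up 2 0 3 (qsf 0 536870912 0 1230186008 0) ndB0q2 ndB4q3 pcB0 cut_B04pp_203_s1 Ext.none)

def k0_B04pp_203_s1 : ∃ t, chk3 f_B04pp_203_s1 t 1 1 1 = true :=
  ⟨(b (l 2) (b (l 2) (a (l 5) (l 3)))), by decide +kernel⟩

theorem c_B04pp_203_s1 : CertF 0 536870912 0 1230186008 966367641 24778659 false true true .up 2 0 3
    ndB0q2 ndB4q3 pcB0 cut_B04pp_203_s1 Ext.none :=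
  certF0 (fam := false) (s1 := true) (s2 := true) (a := 2) (b := 0) (c := 3) (cn := .up) (n1 := ndB0q2) (n2 := ndB4q3) (pc := pcB0) (cut := cut_B04pp_203_s1) (xt := Ext.none) (P1 := 0) (W1 := 536870912) (P2 := 0) (W2 := 1230186008) (P3 := 966367641) (W3 := 24778659)
    rfl k0_B04pp_203_s1

theorem s_B04pp_203_s1 {κ x : ℝ} (hκ : κ * h0 = ken x) (hx : ((966367641 : ℕ) : ℝ) / S ≤ x)
    (hx' : x ≤ (((966367641 : ℕ) : ℝ) + (24778659 : ℕ)) / S) :
    AltB (VFD κ) PP tK tL pcB [⟨3, 0, 0, 1449551462⟩] 2 0 3 0 4 (sgb true) (sgb true) x :=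
  strip_altBD (m := 1449551462) true rfl hκ (SH.κ0 hκ (SH.hx1 hx).le (SH.hx2 hx').le) (SH.hx1 hx).le (SH.hx2 hx') (covB02).cov (covB43).cov hx hx' c_B04pp_203_s1 cutB_nil (noExt_B)

noncomputable def cut_B04pp_213_s1 : Cut := Cut.of [[⟨4, 0, 0, 1449551462⟩], [⟨0, 1, 0, 47710208⟩, ⟨1, 1, 0, 47710208⟩, ⟨2, 2, 0, 8388608⟩]]

noncomputable def f_B04pp_213_s1 : ℕ → ℕ → ℕ → ℕ → Bool := onCell 0 536870912 0 1230186008 966367641 24778659
    (rowF 0 false true true .pnn 2 1 3 (qsf 0 536870912 0 1230186008 1) ndB0q2 ndB4q3 pcB1 cut_B04pp_213_s1 Ext.none)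

def k0_B04pp_213_s1 : ∃ t, chk3 f_B04pp_213_s1 t 1 1 1 = true :=
  ⟨(a (b (l 3) (l 5)) (b (b (a (l 3) (b (a (l 3) (b (l 14) (l 3))) (l 3))) (l 3)) (b (l 3) (l 3)))), by decide +kernel⟩

theorem c_B04pp_213_s1 : CertF 0 536870912 0 1230186008 966367641 24778659 false true true .pnn 2 1 3
    ndB0q2 ndB4q3 pcB1 cut_B04pp_213_s1 Ext.none :=
  certF0 (fam := false) (s1 := true) (s2 := true) (a := 2) (b := 1) (c := 3) (cn := .pnn) (n1 := ndB0q2) (n2 := ndB4q3) (pc := pcB1) (cut := cut_B04pp_213_s1) (xt := Ext.none) (P1 := 0) (W1 := 536870912) (P2 := 0) (W2 := 1230186008) (P3 := 966367641) (W3 := 24778659)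
    rfl k0_B04pp_213_s1

theorem s_B04pp_213_s1 {κ x : ℝ} (hκ : κ * h0 = ken x) (hx : ((966367641 : ℕ) : ℝ) / S ≤ x)
    (hx' : x ≤ (((966367641 : ℕ) : ℝ) + (24778659 : ℕ)) / S)
    (H : CutB (VFD κ) PP tK tL pcB (Cut.of [[⟨0, 1, 0, 47710208⟩, ⟨1, 1, 0, 47710208⟩, ⟨2, 2, 0, 8388608⟩]]) 2 1 3 0 4 (sgb true) (sgb true) x) :
    AltB (VFD κ) PP tK tL pcB [⟨3, 0, 0, 1449551462⟩] 2 1 3 0 4 (sgb true) (sgb true) x :=
  strip_altBD (m := 1449551462) true rfl hκ (SH.κ0 hκ (SH.hx1 hx).le (SH.hx2 hx').le) (SH.hx1 hx).le (SH.hx2 hx') (covB02).cov (covB43).cov hx hx' c_B04pp_213_s1 H (noExt_B)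

noncomputable def cut_B04pm_001_s1 : Cut := Cut.of [[⟨4, 0, 0, 1449551462⟩]]

noncomputable def f_B04pm_001_s1 : ℕ → ℕ → ℕ → ℕ → Bool := onCell 0 536870912 536870912 536870912 966367641 24778659
    (rowF 0 false true false .up 0 0 1 (qsf 0 536870912 536870912 536870912 0) ndB0q0 ndB4q1 pcB0 cut_B04pm_001_s1 Ext.none)

def k0_B04pm_001_s1 : ∃ t, chk3 f_B04pm_001_s1 t 1 1 1 = true :=
  ⟨(l 4), by decide +kernel⟩

theorem c_B04pm_001_s1 : CertF 0 536870912 536870912 536870912 966367641 24778659 false true false .up 0 0 1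
    ndB0q0 ndB4q1 pcB0 cut_B04pm_001_s1 Ext.none :=
  certF0 (fam := false) (s1 := true) (s2 := false) (a := 0) (b := 0) (c := 1) (cn := .up) (n1 := ndB0q0) (n2 := ndB4q1) (pc := pcB0) (cut := cut_B04pm_001_s1) (xt := Ext.none) (P1 := 0) (W1 := 536870912) (P2 := 536870912) (W2 := 536870912) (P3 := 966367641) (W3 := 24778659)
    rfl k0_B04pm_001_s1

theorem s_B04pm_001_s1 {κ x : ℝ} (hκ : κ * h0 = ken x) (hx : ((966367641 : ℕ) : ℝ) / S ≤ x)
    (hx' : x ≤ (((966367641 : ℕ) : ℝ) + (24778659 : ℕ)) / S) :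
    AltB (VFD κ) PP tK tL pcB [⟨3, 0, 0, 1449551462⟩] 0 0 1 0 4 (sgb true) (sgb false) x :=
  strip_altBD (m := 1449551462) true rfl hκ (SH.κ0 hκ (SH.hx1 hx).le (SH.hx2 hx').le) (SH.hx1 hx).le (SH.hx2 hx') (covB00).cov (covB41).cov hx hx' c_B04pm_001_s1 cutB_nil (noExt_B)

noncomputable def cut_B04pm_011_s1 : Cut := Cut.of [[⟨4, 0, 0, 1449551462⟩]]

noncomputable def f_B04pm_011_s1 : ℕ → ℕ → ℕ → ℕ → Bool := onCell 0 536870912 536870912 536870912 966367641 24778659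
    (rowF 0 false true false .pnn 0 1 1 (qsf 0 536870912 536870912 536870912 1) ndB0q0 ndB4q1 pcB1 cut_B04pm_011_s1 Ext.none)

def k0_B04pm_011_s1 : ∃ t, chk3 f_B04pm_011_s1 t 1 1 1 = true :=
  ⟨(l 4), by decide +kernel⟩

theorem c_B04pm_011_s1 : CertF 0 536870912 536870912 536870912 966367641 24778659 false true false .pnn 0 1 1
    ndB0q0 ndB4q1 pcB1 cut_B04pm_011_s1 Ext.none :=
  certF0 (fam := false) (s1 := true) (s2 := false) (a := 0) (b := 1) (c := 1) (cn := .pnn) (n1 := ndB0q0) (n2 := ndB4q1) (pc := pcB1) (cut := cut_B04pm_011_s1) (xt := Ext.none) (P1 := 0) (W1 := 536870912) (P2 := 536870912) (W2 := 536870912) (P3 := 966367641) (W3 := 24778659)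
    rfl k0_B04pm_011_s1

theorem s_B04pm_011_s1 {κ x : ℝ} (hκ : κ * h0 = ken x) (hx : ((966367641 : ℕ) : ℝ) / S ≤ x)
    (hx' : x ≤ (((966367641 : ℕ) : ℝ) + (24778659 : ℕ)) / S) :
    AltB (VFD κ) PP tK tL pcB [⟨3, 0, 0, 1449551462⟩] 0 1 1 0 4 (sgb true) (sgb false) x :=
  strip_altBD (m := 1449551462) true rfl hκ (SH.κ0 hκ (SH.hx1 hx).le (SH.hx2 hx').le) (SH.hx1 hx).le (SH.hx2 hx') (covB00).cov (covB41).cov hx hx' c_B04pm_011_s1 cutB_nil (noExt_B)

noncomputable def cut_B04pm_012_s1 : Cut := Cut.of [[⟨4, 0, 0, 1449551462⟩]]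

noncomputable def f_B04pm_012_s1 : ℕ → ℕ → ℕ → ℕ → Bool := onCell 0 536870912 1073741824 536870912 966367641 24778659
    (rowF 0 false true false .pnp 0 1 2 (qsf 0 536870912 1073741824 536870912 1) ndB0q0 ndB4q2 pcB1 cut_B04pm_012_s1 Ext.none)

def k0_B04pm_012_s1 : ∃ t, chk3 f_B04pm_012_s1 t 1 1 1 = true :=
  ⟨(l 4), by decide +kernel⟩

theorem c_B04pm_012_s1 : CertF 0 536870912 1073741824 536870912 966367641 24778659 false true false .pnp 0 1 2
    ndB0q0 ndB4q2 pcB1 cut_B04pm_012_s1 Ext.none :=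
  certF0 (fam := false) (s1 := true) (s2 := false) (a := 0) (b := 1) (c := 2) (cn := .pnp) (n1 := ndB0q0) (n2 := ndB4q2) (pc := pcB1) (cut := cut_B04pm_012_s1) (xt := Ext.none) (P1 := 0) (W1 := 536870912) (P2 := 1073741824) (W2 := 536870912) (P3 := 966367641) (W3 := 24778659)
    rfl k0_B04pm_012_s1

theorem s_B04pm_012_s1 {κ x : ℝ} (hκ : κ * h0 = ken x) (hx : ((966367641 : ℕ) : ℝ) / S ≤ x)
    (hx' : x ≤ (((966367641 : ℕ) : ℝ) + (24778659 : ℕ)) / S) :
    AltB (VFD κ) PP tK tL pcB [⟨3, 0, 0, 1449551462⟩] 0 1 2 0 4 (sgb true) (sgb false) x :=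
  strip_altBD (m := 1449551462) true rfl hκ (SH.κ0 hκ (SH.hx1 hx).le (SH.hx2 hx').le) (SH.hx1 hx).le (SH.hx2 hx') (covB00).cov (covB42).cov hx hx' c_B04pm_012_s1 cutB_nil (noExt_B)

noncomputable def cut_B04pm_022_s1 : Cut := Cut.of [[⟨4, 0, 0, 1449551462⟩]]

noncomputable def f_B04pm_022_s1 : ℕ → ℕ → ℕ → ℕ → Bool := onCell 0 536870912 1073741824 536870912 966367641 24778659
    (rowF 0 false true false .pp 0 2 2 (qsf 0 536870912 1073741824 536870912 2) ndB0q0 ndB4q2 pcB2 cut_B04pm_022_s1 Ext.none)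

def k0_B04pm_022_s1 : ∃ t, chk3 f_B04pm_022_s1 t 1 1 1 = true :=
  ⟨(l 4), by decide +kernel⟩

theorem c_B04pm_022_s1 : CertF 0 536870912 1073741824 536870912 966367641 24778659 false true false .pp 0 2 2
    ndB0q0 ndB4q2 pcB2 cut_B04pm_022_s1 Ext.none :=
  certF0 (fam := false) (s1 := true) (s2 := false) (a := 0) (b := 2) (c := 2) (cn := .pp) (n1 := ndB0q0) (n2 := ndB4q2) (pc := pcB2) (cut := cut_B04pm_022_s1) (xt := Ext.none) (P1 := 0) (W1 := 536870912) (P2 := 1073741824) (W2 := 536870912) (P3 := 966367641) (W3 := 24778659)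
    rfl k0_B04pm_022_s1

theorem s_B04pm_022_s1 {κ x : ℝ} (hκ : κ * h0 = ken x) (hx : ((966367641 : ℕ) : ℝ) / S ≤ x)
    (hx' : x ≤ (((966367641 : ℕ) : ℝ) + (24778659 : ℕ)) / S) :
    AltB (VFD κ) PP tK tL pcB [⟨3, 0, 0, 1449551462⟩] 0 2 2 0 4 (sgb true) (sgb false) x :=
  strip_altBD (m := 1449551462) true rfl hκ (SH.κ0 hκ (SH.hx1 hx).le (SH.hx2 hx').le) (SH.hx1 hx).le (SH.hx2 hx') (covB00).cov (covB42).cov hx hx' c_B04pm_022_s1 cutB_nil (noExt_B)

noncomputable def cut_B04pm_023_s1 : Cut := Cut.of [[⟨4, 0, 0, 1449551462⟩]]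

noncomputable def f_B04pm_023_s1 : ℕ → ℕ → ℕ → ℕ → Bool := onCell 0 536870912 0 1230186008 966367641 24778659
    (rowF 0 false true false .up 0 2 3 (qsf 0 536870912 0 1230186008 2) ndB0q0 ndB4q3 pcB2 cut_B04pm_023_s1 Ext.none)

def k0_B04pm_023_s1 : ∃ t, chk3 f_B04pm_023_s1 t 1 1 1 = true :=
  ⟨(l 6), by decide +kernel⟩

theorem c_B04pm_023_s1 : CertF 0 536870912 0 1230186008 966367641 24778659 false true false .up 0 2 3
    ndB0q0 ndB4q3 pcB2 cut_B04pm_023_s1 Ext.none :=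
  certF0 (fam := false) (s1 := true) (s2 := false) (a := 0) (b := 2) (c := 3) (cn := .up) (n1 := ndB0q0) (n2 := ndB4q3) (pc := pcB2) (cut := cut_B04pm_023_s1) (xt := Ext.none) (P1 := 0) (W1 := 536870912) (P2 := 0) (W2 := 1230186008) (P3 := 966367641) (W3 := 24778659)
    rfl k0_B04pm_023_s1

theorem s_B04pm_023_s1 {κ x : ℝ} (hκ : κ * h0 = ken x) (hx : ((966367641 : ℕ) : ℝ) / S ≤ x)
    (hx' : x ≤ (((966367641 : ℕ) : ℝ) + (24778659 : ℕ)) / S) :
    AltB (VFD κ) PP tK tL pcB [⟨3, 0, 0, 1449551462⟩] 0 2 3 0 4 (sgb true) (sgb false) x :=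
  strip_altBD (m := 1449551462) true rfl hκ (SH.κ0 hκ (SH.hx1 hx).le (SH.hx2 hx').le) (SH.hx1 hx).le (SH.hx2 hx') (covB00).cov (covB43).cov hx hx' c_B04pm_023_s1 cutB_nil (noExt_B)

noncomputable def cut_B04pm_033_s1 : Cut := Cut.of [[⟨4, 0, 0, 1449551462⟩]]

noncomputable def f_B04pm_033_s1 : ℕ → ℕ → ℕ → ℕ → Bool := onCell 0 536870912 0 1230186008 966367641 24778659
    (rowF 0 false true false .pnn 0 3 3 (qsf 0 536870912 0 1230186008 3) ndB0q0 ndB4q3 pcB3 cut_B04pm_033_s1 Ext.none)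

def k0_B04pm_033_s1 : ∃ t, chk3 f_B04pm_033_s1 t 1 1 1 = true :=
  ⟨(l 6), by decide +kernel⟩

theorem c_B04pm_033_s1 : CertF 0 536870912 0 1230186008 966367641 24778659 false true false .pnn 0 3 3
    ndB0q0 ndB4q3 pcB3 cut_B04pm_033_s1 Ext.none :=
  certF0 (fam := false) (s1 := true) (s2 := false) (a := 0) (b := 3) (c := 3) (cn := .pnn) (n1 := ndB0q0) (n2 := ndB4q3) (pc := pcB3) (cut := cut_B04pm_033_s1) (xt := Ext.none) (P1 := 0) (W1 := 536870912) (P2 := 0) (W2 := 1230186008) (P3 := 966367641) (W3 := 24778659)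
    rfl k0_B04pm_033_s1

theorem s_B04pm_033_s1 {κ x : ℝ} (hκ : κ * h0 = ken x) (hx : ((966367641 : ℕ) : ℝ) / S ≤ x)
    (hx' : x ≤ (((966367641 : ℕ) : ℝ) + (24778659 : ℕ)) / S) :
    AltB (VFD κ) PP tK tL pcB [⟨3, 0, 0, 1449551462⟩] 0 3 3 0 4 (sgb true) (sgb false) x :=
  strip_altBD (m := 1449551462) true rfl hκ (SH.κ0 hκ (SH.hx1 hx).le (SH.hx2 hx').le) (SH.hx1 hx).le (SH.hx2 hx') (covB00).cov (covB43).cov hx hx' c_B04pm_033_s1 cutB_nil (noExt_B)

noncomputable def cut_B04pm_101_s1 : Cut := Cut.of [[⟨4, 0, 0, 1449551462⟩]]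

noncomputable def f_B04pm_101_s1 : ℕ → ℕ → ℕ → ℕ → Bool := onCell 536870912 536870912 536870912 536870912 966367641 24778659
    (rowF 0 false true false .npn 1 0 1 (qsf 536870912 536870912 536870912 536870912 0) ndB0q1 ndB4q1 pcB0 cut_B04pm_101_s1 Ext.none)

def k0_B04pm_101_s1 : ∃ t, chk3 f_B04pm_101_s1 t 1 1 1 = true :=
  ⟨(l 4), by decide +kernel⟩

theorem c_B04pm_101_s1 : CertF 536870912 536870912 536870912 536870912 966367641 24778659 false true false .npn 1 0 1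
    ndB0q1 ndB4q1 pcB0 cut_B04pm_101_s1 Ext.none :=
  certF0 (fam := false) (s1 := true) (s2 := false) (a := 1) (b := 0) (c := 1) (cn := .npn) (n1 := ndB0q1) (n2 := ndB4q1) (pc := pcB0) (cut := cut_B04pm_101_s1) (xt := Ext.none) (P1 := 536870912) (W1 := 536870912) (P2 := 536870912) (W2 := 536870912) (P3 := 966367641) (W3 := 24778659)
    rfl k0_B04pm_101_s1

theorem s_B04pm_101_s1 {κ x : ℝ} (hκ : κ * h0 = ken x) (hx : ((966367641 : ℕ) : ℝ) / S ≤ x)
    (hx' : x ≤ (((966367641 : ℕ) : ℝ) + (24778659 : ℕ)) / S) :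
    AltB (VFD κ) PP tK tL pcB [⟨3, 0, 0, 1449551462⟩] 1 0 1 0 4 (sgb true) (sgb false) x :=
  strip_altBD (m := 1449551462) true rfl hκ (SH.κ0 hκ (SH.hx1 hx).le (SH.hx2 hx').le) (SH.hx1 hx).le (SH.hx2 hx') (covB01).cov (covB41).cov hx hx' c_B04pm_101_s1 cutB_nil (noExt_B)

noncomputable def cut_B04pm_102_s1 : Cut := Cut.of [[⟨4, 0, 0, 1449551462⟩]]

noncomputable def f_B04pm_102_s1 : ℕ → ℕ → ℕ → ℕ → Bool := onCell 536870912 536870912 1073741824 536870912 966367641 24778659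
    (rowF 0 false true false .npp 1 0 2 (qsf 536870912 536870912 1073741824 536870912 0) ndB0q1 ndB4q2 pcB0 cut_B04pm_102_s1 Ext.none)

def k0_B04pm_102_s1 : ∃ t, chk3 f_B04pm_102_s1 t 1 1 1 = true :=
  ⟨(l 6), by decide +kernel⟩

theorem c_B04pm_102_s1 : CertF 536870912 536870912 1073741824 536870912 966367641 24778659 false true false .npp 1 0 2
    ndB0q1 ndB4q2 pcB0 cut_B04pm_102_s1 Ext.none :=
  certF0 (fam := false) (s1 := true) (s2 := false) (a := 1) (b := 0) (c := 2) (cn := .npp) (n1 := ndB0q1) (n2 := ndB4q2) (pc := pcB0) (cut := cut_B04pm_102_s1) (xt := Ext.none) (P1 := 536870912) (W1 := 536870912) (P2 := 1073741824) (W2 := 536870912) (P3 := 966367641) (W3 := 24778659)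
    rfl k0_B04pm_102_s1

theorem s_B04pm_102_s1 {κ x : ℝ} (hκ : κ * h0 = ken x) (hx : ((966367641 : ℕ) : ℝ) / S ≤ x)
    (hx' : x ≤ (((966367641 : ℕ) : ℝ) + (24778659 : ℕ)) / S) :
    AltB (VFD κ) PP tK tL pcB [⟨3, 0, 0, 1449551462⟩] 1 0 2 0 4 (sgb true) (sgb false) x :=
  strip_altBD (m := 1449551462) true rfl hκ (SH.κ0 hκ (SH.hx1 hx).le (SH.hx2 hx').le) (SH.hx1 hx).le (SH.hx2 hx') (covB01).cov (covB42).cov hx hx' c_B04pm_102_s1 cutB_nil (noExt_B)

noncomputable def cut_B04pm_112_s1 : Cut := Cut.of [[⟨4, 0, 0, 1449551462⟩]]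

noncomputable def f_B04pm_112_s1 : ℕ → ℕ → ℕ → ℕ → Bool := onCell 536870912 536870912 1073741824 536870912 966367641 24778659
    (rowF 0 false true false .dn 1 1 2 (qsf 536870912 536870912 1073741824 536870912 1) ndB0q1 ndB4q2 pcB1 cut_B04pm_112_s1 Ext.none)

def k0_B04pm_112_s1 : ∃ t, chk3 f_B04pm_112_s1 t 1 1 1 = true :=
  ⟨(l 6), by decide +kernel⟩

theorem c_B04pm_112_s1 : CertF 536870912 536870912 1073741824 536870912 966367641 24778659 false true false .dn 1 1 2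
    ndB0q1 ndB4q2 pcB1 cut_B04pm_112_s1 Ext.none :=
  certF0 (fam := false) (s1 := true) (s2 := false) (a := 1) (b := 1) (c := 2) (cn := .dn) (n1 := ndB0q1) (n2 := ndB4q2) (pc := pcB1) (cut := cut_B04pm_112_s1) (xt := Ext.none) (P1 := 536870912) (W1 := 536870912) (P2 := 1073741824) (W2 := 536870912) (P3 := 966367641) (W3 := 24778659)
    rfl k0_B04pm_112_s1

theorem s_B04pm_112_s1 {κ x : ℝ} (hκ : κ * h0 = ken x) (hx : ((966367641 : ℕ) : ℝ) / S ≤ x)
    (hx' : x ≤ (((966367641 : ℕ) : ℝ) + (24778659 : ℕ)) / S) :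
    AltB (VFD κ) PP tK tL pcB [⟨3, 0, 0, 1449551462⟩] 1 1 2 0 4 (sgb true) (sgb false) x :=
  strip_altBD (m := 1449551462) true rfl hκ (SH.κ0 hκ (SH.hx1 hx).le (SH.hx2 hx').le) (SH.hx1 hx).le (SH.hx2 hx') (covB01).cov (covB42).cov hx hx' c_B04pm_112_s1 cutB_nil (noExt_B)

noncomputable def cut_B04pm_113_s1 : Cut := Cut.of [[⟨4, 0, 0, 1449551462⟩], [⟨0, 1, 0, 47710208⟩, ⟨1, 1, 0, 47710208⟩, ⟨2, 2, 0, 8388608⟩]]

noncomputable def f_B04pm_113_s1 : ℕ → ℕ → ℕ → ℕ → Bool := onCell 536870912 536870912 0 1230186008 966367641 24778659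
    (rowF 0 false true false .nn 1 1 3 (qsf 536870912 536870912 0 1230186008 1) ndB0q1 ndB4q3 pcB1 cut_B04pm_113_s1 Ext.none)

def k0_B04pm_113_s1 : ∃ t, chk3 f_B04pm_113_s1 t 1 1 1 = true :=
  ⟨(b (a (l 2) (a (l 2) (b (a (l 2) (a (l 2) (b (l 14) (b (a (l 2) (l 16780712)) (l 16755984))))) (b (a (l 6) (b (a (l 6) (l 16765304)) (l 6))) (l 6))))) (a (l 6) (l 6))), by decide +kernel⟩

theorem c_B04pm_113_s1 : CertF 536870912 536870912 0 1230186008 966367641 24778659 false true false .nn 1 1 3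
    ndB0q1 ndB4q3 pcB1 cut_B04pm_113_s1 Ext.none :=
  certF0 (fam := false) (s1 := true) (s2 := false) (a := 1) (b := 1) (c := 3) (cn := .nn) (n1 := ndB0q1) (n2 := ndB4q3) (pc := pcB1) (cut := cut_B04pm_113_s1) (xt := Ext.none) (P1 := 536870912) (W1 := 536870912) (P2 := 0) (W2 := 1230186008) (P3 := 966367641) (W3 := 24778659)
    rfl k0_B04pm_113_s1

theorem s_B04pm_113_s1 {κ x : ℝ} (hκ : κ * h0 = ken x) (hx : ((966367641 : ℕ) : ℝ) / S ≤ x)
    (hx' : x ≤ (((966367641 : ℕ) : ℝ) + (24778659 : ℕ)) / S)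
    (H : CutB (VFD κ) PP tK tL pcB (Cut.of [[⟨0, 1, 0, 47710208⟩, ⟨1, 1, 0, 47710208⟩, ⟨2, 2, 0, 8388608⟩]]) 1 1 3 0 4 (sgb true) (sgb false) x) :
    AltB (VFD κ) PP tK tL pcB [⟨3, 0, 0, 1449551462⟩] 1 1 3 0 4 (sgb true) (sgb false) x :=
  strip_altBD (m := 1449551462) true rfl hκ (SH.κ0 hκ (SH.hx1 hx).le (SH.hx2 hx').le) (SH.hx1 hx).le (SH.hx2 hx') (covB01).cov (covB43).cov hx hx' c_B04pm_113_s1 H (noExt_B)

noncomputable def cut_B04pm_123_s1 : Cut := Cut.of [[⟨4, 0, 0, 1449551462⟩], [⟨0, 1, 0, 47710208⟩, ⟨1, 1, 0, 47710208⟩, ⟨2, 2, 0, 8388608⟩]]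

noncomputable def f_B04pm_123_s1 : ℕ → ℕ → ℕ → ℕ → Bool := onCell 1073741824 536870912 0 1230186008 966367641 24778659
    (rowF 2 false true false .npn 1 2 3 (qsf 536870912 536870912 0 1230186008 2) ndB0q1 ndB4q3 pcB2 cut_B04pm_123_s1 Ext.none)

def k0_B04pm_123_s1 : ∃ t, chk3 f_B04pm_123_s1 t 1 1 1 = true :=
  ⟨(b (a (b (b (a (a (a (l 14) (b (a (b (l 16728904) (l 16717008)) (l 16685064)) (a (l 16692832) (l 16648848)))) (a (b (a (l 16650704) (l 16617240)) (l 16503296)) (b (l 16484856) (l 6)))) (l 6)) (a (a (a (b (a (l 16744136) (l 16694384)) (a (l 16691664) (l 16633752))) (b (a (l 16642384) (l 16591824)) (l 6))) (l 6)) (l 6))) (b (l 6) (l 6))) (l 6)) (l 6)), by decide +kernel⟩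

theorem c_B04pm_123_s1 : CertF 536870912 536870912 0 1230186008 966367641 24778659 false true false .npn 1 2 3
    ndB0q1 ndB4q3 pcB2 cut_B04pm_123_s1 Ext.none :=
  certF2 (fam := false) (s1 := true) (s2 := false) (a := 1) (b := 2) (c := 3) (cn := .npn) (n1 := ndB0q1) (n2 := ndB4q3) (pc := pcB2) (cut := cut_B04pm_123_s1) (xt := Ext.none) (P1 := 536870912) (W1 := 536870912) (P2 := 0) (W2 := 1230186008) (P3 := 966367641) (W3 := 24778659)
    rfl (fun _ => rfl) k0_B04pm_123_s1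

theorem s_B04pm_123_s1 {κ x : ℝ} (hκ : κ * h0 = ken x) (hx : ((966367641 : ℕ) : ℝ) / S ≤ x)
    (hx' : x ≤ (((966367641 : ℕ) : ℝ) + (24778659 : ℕ)) / S)
    (H : CutB (VFD κ) PP tK tL pcB (Cut.of [[⟨0, 1, 0, 47710208⟩, ⟨1, 1, 0, 47710208⟩, ⟨2, 2, 0, 8388608⟩]]) 1 2 3 0 4 (sgb true) (sgb false) x) :
    AltB (VFD κ) PP tK tL pcB [⟨3, 0, 0, 1449551462⟩] 1 2 3 0 4 (sgb true) (sgb false) x :=
  strip_altBD (m := 1449551462) true rfl hκ (SH.κ0 hκ (SH.hx1 hx).le (SH.hx2 hx').le) (SH.hx1 hx).le (SH.hx2 hx') (covB01).cov (covB43).cov hx hx' c_B04pm_123_s1 H (noExt_B)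

noncomputable def cut_B04pm_133_s1 : Cut := Cut.of [[⟨4, 0, 0, 1449551462⟩]]

noncomputable def f_B04pm_133_s1 : ℕ → ℕ → ℕ → ℕ → Bool := onCell 1610612736 536870912 0 1230186008 966367641 24778659
    (rowF 2 false true false .dn 1 3 3 (qsf 536870912 536870912 0 1230186008 3) ndB0q1 ndB4q3 pcB3 cut_B04pm_133_s1 Ext.none)

def k0_B04pm_133_s1 : ∃ t, chk3 f_B04pm_133_s1 t 1 1 1 = true :=
  ⟨(l 6), by decide +kernel⟩

theorem c_B04pm_133_s1 : CertF 536870912 536870912 0 1230186008 966367641 24778659 false true false .dn 1 3 3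
    ndB0q1 ndB4q3 pcB3 cut_B04pm_133_s1 Ext.none :=
  certF2 (fam := false) (s1 := true) (s2 := false) (a := 1) (b := 3) (c := 3) (cn := .dn) (n1 := ndB0q1) (n2 := ndB4q3) (pc := pcB3) (cut := cut_B04pm_133_s1) (xt := Ext.none) (P1 := 536870912) (W1 := 536870912) (P2 := 0) (W2 := 1230186008) (P3 := 966367641) (W3 := 24778659)
    rfl (fun _ => rfl) k0_B04pm_133_s1

theorem s_B04pm_133_s1 {κ x : ℝ} (hκ : κ * h0 = ken x) (hx : ((966367641 : ℕ) : ℝ) / S ≤ x)
    (hx' : x ≤ (((966367641 : ℕ) : ℝ) + (24778659 : ℕ)) / S) :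
    AltB (VFD κ) PP tK tL pcB [⟨3, 0, 0, 1449551462⟩] 1 3 3 0 4 (sgb true) (sgb false) x :=
  strip_altBD (m := 1449551462) true rfl hκ (SH.κ0 hκ (SH.hx1 hx).le (SH.hx2 hx').le) (SH.hx1 hx).le (SH.hx2 hx') (covB01).cov (covB43).cov hx hx' c_B04pm_133_s1 cutB_nil (noExt_B)

noncomputable def cut_B04pm_202_s1 : Cut := Cut.of [[⟨4, 0, 0, 1449551462⟩]]

noncomputable def f_B04pm_202_s1 : ℕ → ℕ → ℕ → ℕ → Bool := onCell 0 536870912 1073741824 536870912 966367641 24778659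
    (rowF 0 false true false .pp 2 0 2 (qsf 0 536870912 1073741824 536870912 0) ndB0q2 ndB4q2 pcB0 cut_B04pm_202_s1 Ext.none)

def k0_B04pm_202_s1 : ∃ t, chk3 f_B04pm_202_s1 t 1 1 1 = true :=
  ⟨(a (b (l 6) (b (l 6) (l 6))) (l 6)), by decide +kernel⟩

theorem c_B04pm_202_s1 : CertF 0 536870912 1073741824 536870912 966367641 24778659 false true false .pp 2 0 2
    ndB0q2 ndB4q2 pcB0 cut_B04pm_202_s1 Ext.none :=
  certF0 (fam := false) (s1 := true) (s2 := false) (a := 2) (b := 0) (c := 2) (cn := .pp) (n1 := ndB0q2) (n2 := ndB4q2) (pc := pcB0) (cut := cut_B04pm_202_s1) (xt := Ext.none) (P1 := 0) (W1 := 536870912) (P2 := 1073741824) (W2 := 536870912) (P3 := 966367641) (W3 := 24778659)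
    rfl k0_B04pm_202_s1

theorem s_B04pm_202_s1 {κ x : ℝ} (hκ : κ * h0 = ken x) (hx : ((966367641 : ℕ) : ℝ) / S ≤ x)
    (hx' : x ≤ (((966367641 : ℕ) : ℝ) + (24778659 : ℕ)) / S) :
    AltB (VFD κ) PP tK tL pcB [⟨3, 0, 0, 1449551462⟩] 2 0 2 0 4 (sgb true) (sgb false) x :=
  strip_altBD (m := 1449551462) true rfl hκ (SH.κ0 hκ (SH.hx1 hx).le (SH.hx2 hx').le) (SH.hx1 hx).le (SH.hx2 hx') (covB02).cov (covB42).cov hx hx' c_B04pm_202_s1 cutB_nil (noExt_B)

noncomputable def cut_B04pm_203_s1 : Cut := Cut.of [[⟨4, 0, 0, 1449551462⟩]]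

noncomputable def xt_B04pm_203_s1 : Ext := strExt dd false true false .u2 .s2m .u0m .up 2 0 3 rfl rfl gf0 vv ndB0q2 ndB4q3

noncomputable def f_B04pm_203_s1 : ℕ → ℕ → ℕ → ℕ → Bool := onCell 0 536870912 0 1230186008 966367641 24778659
    (rowF 0 false true false .up 2 0 3 (qsf 0 536870912 0 1230186008 0) ndB0q2 ndB4q3 pcB0 cut_B04pm_203_s1 xt_B04pm_203_s1)

def k0_B04pm_203_s1 : ∃ t, chk3 f_B04pm_203_s1 t 1 1 1 = true :=
  ⟨(b (l 2) (b (l 2) (a (b (b (l 2) (a (a (l 531211791) (b (l 2) (l 16493360))) (b (l 2) (l 6)))) (a (b (a (b (l 16551800) (l 16411136)) (b (l 16436744) (l 6))) (a (b (l 16361056) (l 16398888)) (l 6))) (l 6))) (l 6)))), by decide +kernel⟩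

theorem c_B04pm_203_s1 : CertF 0 536870912 0 1230186008 966367641 24778659 false true false .up 2 0 3
    ndB0q2 ndB4q3 pcB0 cut_B04pm_203_s1 xt_B04pm_203_s1 :=
  certF0 (fam := false) (s1 := true) (s2 := false) (a := 2) (b := 0) (c := 3) (cn := .up) (n1 := ndB0q2) (n2 := ndB4q3) (pc := pcB0) (cut := cut_B04pm_203_s1) (xt := xt_B04pm_203_s1) (P1 := 0) (W1 := 536870912) (P2 := 0) (W2 := 1230186008) (P3 := 966367641) (W3 := 24778659)
    rfl k0_B04pm_203_s1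

theorem s_B04pm_203_s1 {κ x : ℝ} (hκ : κ * h0 = ken x) (hx : ((966367641 : ℕ) : ℝ) / S ≤ x)
    (hx' : x ≤ (((966367641 : ℕ) : ℝ) + (24778659 : ℕ)) / S) :
    AltB (VFD κ) PP tK tL pcB [⟨3, 0, 0, 1449551462⟩] 2 0 3 0 4 (sgb true) (sgb false) x :=
  strip_altBD (m := 1449551462) true rfl hκ (SH.κ0 hκ (SH.hx1 hx).le (SH.hx2 hx').le) (SH.hx1 hx).le (SH.hx2 hx') (covB02).cov (covB43).cov hx hx' c_B04pm_203_s1 cutB_nil ((okx hx hx').extB (T := tt) (sideB hx hx') hκ rfl rfl (.O 2 true) (.N 3 false) (Or.inl rfl))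

noncomputable def cut_B04pm_213_s1 : Cut := Cut.of [[⟨4, 0, 0, 1449551462⟩], [⟨0, 1, 0, 47710208⟩, ⟨1, 1, 0, 47710208⟩, ⟨2, 2, 0, 8388608⟩]]

noncomputable def xt_B04pm_213_s1 : Ext := strExt dd false true false .u2 .s2m .u0m .pnn 2 1 3 rfl rfl gf1 vv ndB0q2 ndB4q3

noncomputable def f_B04pm_213_s1 : ℕ → ℕ → ℕ → ℕ → Bool := onCell 0 536870912 0 1230186008 966367641 24778659
    (rowF 0 false true false .pnn 2 1 3 (qsf 0 536870912 0 1230186008 1) ndB0q2 ndB4q3 pcB1 cut_B04pm_213_s1 xt_B04pm_213_s1)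

def k0_B04pm_213_s1 : ∃ t, chk3 f_B04pm_213_s1 t 1 2 1 = true :=
  ⟨(a (b (l 3) (b (l 3) (a (l 3) (a (b (l 3) (a (l 3) (l 532992015))) (b (a (l 3) (l 533148431)) (a (l 532936463) (l 532876047))))))) (b (b (a (l 3) (a (a (l 3) (a (l 3) (b (l 3) (b (l 3) (l 537409295))))) (b (l 14) (a (a (a (b (l 14) (l 537072143)) (l 14)) (l 14)) (l 14))))) (b (a (l 3) (a (a (a (l 536824079) (b (l 3) (l 536089615))) (a (b (a (l 536356879) (l 536524303)) (l 536420879)) (b (a (l 536708111) (l 536959247)) (l 16755488)))) (a (a (b (c (l 16779280) (l 16758648)) (l 16782656)) (b (l 16776008) (l 16778752))) (a (l 16770560) (l 16762408))))) (a (a (l 3) (a (l 3) (l 535173135))) (a (a (a (l 535691535) (l 536006927)) (b (a (l 16771416) (l 16775008)) (l 16769072))) (a (c (l 16789536) (l 16726136)) (l 16775168)))))) (b (a (a (b (a (l 3) (b (l 3) (l 533755151))) (a (l 533469199) (a (l 533482767) (l 533516559)))) (b (a (a (b (l 3) (l 533883151))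 (b (a (l 534187791) (l 534308623)) (l 534034191))) (b (a (l 534562319) (l 535011087)) (a (l 534294799) (l 16743744)))) (a (a (l 533579023) (b (l 16742600) (l 16718008))) (b (l 16724608) (l 16697192))))) (a (b (a (b (l 16759656) (l 16745200)) (l 16762544)) (a (l 16701592) (l 16738432))) (b (a (l 16788224) (l 16795672)) (a (l 16778024) (l 16822352))))) (a (a (a (b (l 533055503) (l 532569871)) (b (a (l 533124111) (l 16763496)) (l 16658192))) (b (a (l 16766144) (l 16646624)) (l 16755680))) (a (b (a (l 16621064) (l 16622992)) (l 16587616)) (b (l 6) (l 6))))))), by decide +kernel⟩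

def k1_B04pm_213_s1 : ∃ t, chk3 f_B04pm_213_s1 t 1 3 1 = true :=
  ⟨(b (a (a (b (b (l 3) (a (l 3) (a (l 3) (l 532645135)))) (b (a (b (l 3) (l 532365583)) (a (l 531625487) (b (l 532477711) (l 532352783)))) (a (l 532127759) (a (b (l 532222479) (l 16686632)) (b (l 16677752) (l 16637200)))))) (b (a (b (a (b (l 3) (l 532771599)) (b (l 532832015) (l 532722959))) (a (l 532610575) (b (l 532619279) (l 16692120)))) (b (a (l 532713487) (l 532642575)) (a (b (l 16680000) (l 16644944)) (l 16612856)))) (a (b (a (l 532385807) (b (l 16657016) (l 16618552))) (b (l 16602352) (l 16556928))) (b (a (l 16586472) (l 16530280)) (l 16463800))))) (a (b (a (b (a (l 16635984) (l 16584728)) (l 16529224)) (b (l 16500424) (l 16402736))) (b (a (l 16438040) (l 6)) (l 6))) (b (l 6) (l 6)))) (a (b (a (a (b (l 531722255) (l 531135503)) (b (b (l 16533888) (l 16567288)) (b (l 16508496) (l 16439136)))) (a (b (l 16309976) (b (l 16383888) (l 6))) (l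 6))) (a (l 1) (l 6))) (l 6))), by decide +kernel⟩

theorem t2_B04pm_213_s1 : ∃ t, chk3 f_B04pm_213_s1 t 1 1 1 = true := ex3_b k0_B04pm_213_s1 k1_B04pm_213_s1

theorem c_B04pm_213_s1 : CertF 0 536870912 0 1230186008 966367641 24778659 false true false .pnn 2 1 3
    ndB0q2 ndB4q3 pcB1 cut_B04pm_213_s1 xt_B04pm_213_s1 :=
  certF0 (fam := false) (s1 := true) (s2 := false) (a := 2) (b := 1) (c := 3) (cn := .pnn) (n1 := ndB0q2) (n2 := ndB4q3) (pc := pcB1) (cut := cut_B04pm_213_s1) (xt := xt_B04pm_213_s1) (P1 := 0) (W1 := 536870912) (P2 := 0) (W2 := 1230186008) (P3 := 966367641) (W3 := 24778659)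
    rfl t2_B04pm_213_s1

theorem s_B04pm_213_s1 {κ x : ℝ} (hκ : κ * h0 = ken x) (hx : ((966367641 : ℕ) : ℝ) / S ≤ x)
    (hx' : x ≤ (((966367641 : ℕ) : ℝ) + (24778659 : ℕ)) / S)
    (H : CutB (VFD κ) PP tK tL pcB (Cut.of [[⟨0, 1, 0, 47710208⟩, ⟨1, 1, 0, 47710208⟩, ⟨2, 2, 0, 8388608⟩]]) 2 1 3 0 4 (sgb true) (sgb false) x) :
    AltB (VFD κ) PP tK tL pcB [⟨3, 0, 0, 1449551462⟩] 2 1 3 0 4 (sgb true) (sgb false) x :=
  strip_altBD (m := 1449551462) true rfl hκ (SH.κ0 hκ (SH.hx1 hx).le (SH.hx2 hx').le) (SH.hx1 hx).le (SH.hx2 hx') (covB02).cov (covB43).cov hx hx' c_B04pm_213_s1 H ((okx hx hx').extB (T := tt) (sideB hx hx') hκ rfl rfl (.O 2 true) (.N 3 false) (Or.inr rfl))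

noncomputable def cut_B04mm_001_s1 : Cut := Cut.of [[⟨4, 0, 0, 1449551462⟩]]

noncomputable def f_B04mm_001_s1 : ℕ → ℕ → ℕ → ℕ → Bool := onCell 0 536870912 0 536870912 966367641 24778659
    (rowF 1 false false false .up 0 0 1 (qsf 0 536870912 536870912 536870912 0) ndB0q0 ndB4q1 pcB0 cut_B04mm_001_s1 Ext.none)

def k0_B04mm_001_s1 : ∃ t, chk3 f_B04mm_001_s1 t 1 1 1 = true :=
  ⟨(l 3), by decide +kernel⟩

theorem c_B04mm_001_s1 : CertF 0 536870912 536870912 536870912 966367641 24778659 false false false .up 0 0 1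
    ndB0q0 ndB4q1 pcB0 cut_B04mm_001_s1 Ext.none :=
  certF1 (fam := false) (s1 := false) (s2 := false) (a := 0) (b := 0) (c := 1) (cn := .up) (n1 := ndB0q0) (n2 := ndB4q1) (pc := pcB0) (cut := cut_B04mm_001_s1) (xt := Ext.none) (P1 := 0) (W1 := 536870912) (P2 := 536870912) (W2 := 536870912) (P3 := 966367641) (W3 := 24778659)
    rfl (fun _ => rfl) k0_B04mm_001_s1

theorem s_B04mm_001_s1 {κ x : ℝ} (hκ : κ * h0 = ken x) (hx : ((966367641 : ℕ) : ℝ) / S ≤ x)
    (hx' : x ≤ (((966367641 : ℕ) : ℝ) + (24778659 : ℕ)) / S) :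
    AltB (VFD κ) PP tK tL pcB [⟨3, 0, 0, 1449551462⟩] 0 0 1 0 4 (sgb false) (sgb false) x :=
  strip_altBD (m := 1449551462) true rfl hκ (SH.κ0 hκ (SH.hx1 hx).le (SH.hx2 hx').le) (SH.hx1 hx).le (SH.hx2 hx') (covB00).cov (covB41).cov hx hx' c_B04mm_001_s1 cutB_nil (noExt_B)

noncomputable def cut_B04mm_011_s1 : Cut := Cut.of [[⟨4, 0, 0, 1449551462⟩]]

noncomputable def f_B04mm_011_s1 : ℕ → ℕ → ℕ → ℕ → Bool := onCell 0 536870912 536870912 536870912 966367641 24778659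
    (rowF 1 false false false .pnn 0 1 1 (qsf 0 536870912 536870912 536870912 1) ndB0q0 ndB4q1 pcB1 cut_B04mm_011_s1 Ext.none)

def k0_B04mm_011_s1 : ∃ t, chk3 f_B04mm_011_s1 t 1 1 1 = true :=
  ⟨(l 5), by decide +kernel⟩

theorem c_B04mm_011_s1 : CertF 0 536870912 536870912 536870912 966367641 24778659 false false false .pnn 0 1 1
    ndB0q0 ndB4q1 pcB1 cut_B04mm_011_s1 Ext.none :=
  certF1 (fam := false) (s1 := false) (s2 := false) (a := 0) (b := 1) (c := 1) (cn := .pnn) (n1 := ndB0q0) (n2 := ndB4q1) (pc := pcB1) (cut := cut_B04mm_011_s1) (xt := Ext.none) (P1 := 0) (W1 := 536870912) (P2 := 536870912) (W2 := 536870912) (P3 := 966367641) (W3 := 24778659)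
    rfl (fun _ => rfl) k0_B04mm_011_s1

theorem s_B04mm_011_s1 {κ x : ℝ} (hκ : κ * h0 = ken x) (hx : ((966367641 : ℕ) : ℝ) / S ≤ x)
    (hx' : x ≤ (((966367641 : ℕ) : ℝ) + (24778659 : ℕ)) / S) :
    AltB (VFD κ) PP tK tL pcB [⟨3, 0, 0, 1449551462⟩] 0 1 1 0 4 (sgb false) (sgb false) x :=
  strip_altBD (m := 1449551462) true rfl hκ (SH.κ0 hκ (SH.hx1 hx).le (SH.hx2 hx').le) (SH.hx1 hx).le (SH.hx2 hx') (covB00).cov (covB41).cov hx hx' c_B04mm_011_s1 cutB_nil (noExt_B)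

noncomputable def cut_B04mm_012_s1 : Cut := Cut.of [[⟨4, 0, 0, 1449551462⟩]]

noncomputable def f_B04mm_012_s1 : ℕ → ℕ → ℕ → ℕ → Bool := onCell 0 536870912 1073741824 536870912 966367641 24778659
    (rowF 0 false false false .pnp 0 1 2 (qsf 0 536870912 1073741824 536870912 1) ndB0q0 ndB4q2 pcB1 cut_B04mm_012_s1 Ext.none)

def k0_B04mm_012_s1 : ∃ t, chk3 f_B04mm_012_s1 t 1 1 1 = true :=
  ⟨(l 5), by decide +kernel⟩

theorem c_B04mm_012_s1 : CertF 0 536870912 1073741824 536870912 966367641 24778659 false false false .pnp 0 1 2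
    ndB0q0 ndB4q2 pcB1 cut_B04mm_012_s1 Ext.none :=
  certF0 (fam := false) (s1 := false) (s2 := false) (a := 0) (b := 1) (c := 2) (cn := .pnp) (n1 := ndB0q0) (n2 := ndB4q2) (pc := pcB1) (cut := cut_B04mm_012_s1) (xt := Ext.none) (P1 := 0) (W1 := 536870912) (P2 := 1073741824) (W2 := 536870912) (P3 := 966367641) (W3 := 24778659)
    rfl k0_B04mm_012_s1

theorem s_B04mm_012_s1 {κ x : ℝ} (hκ : κ * h0 = ken x) (hx : ((966367641 : ℕ) : ℝ) / S ≤ x)
    (hx' : x ≤ (((966367641 : ℕ) : ℝ) + (24778659 : ℕ)) / S) :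
    AltB (VFD κ) PP tK tL pcB [⟨3, 0, 0, 1449551462⟩] 0 1 2 0 4 (sgb false) (sgb false) x :=
  strip_altBD (m := 1449551462) true rfl hκ (SH.κ0 hκ (SH.hx1 hx).le (SH.hx2 hx').le) (SH.hx1 hx).le (SH.hx2 hx') (covB00).cov (covB42).cov hx hx' c_B04mm_012_s1 cutB_nil (noExt_B)

noncomputable def cut_B04mm_022_s1 : Cut := Cut.of [[⟨4, 0, 0, 1449551462⟩]]

noncomputable def f_B04mm_022_s1 : ℕ → ℕ → ℕ → ℕ → Bool := onCell 0 536870912 1073741824 536870912 966367641 24778659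
    (rowF 0 false false false .pp 0 2 2 (qsf 0 536870912 1073741824 536870912 2) ndB0q0 ndB4q2 pcB2 cut_B04mm_022_s1 Ext.none)

def k0_B04mm_022_s1 : ∃ t, chk3 f_B04mm_022_s1 t 1 1 1 = true :=
  ⟨(l 5), by decide +kernel⟩

theorem c_B04mm_022_s1 : CertF 0 536870912 1073741824 536870912 966367641 24778659 false false false .pp 0 2 2
    ndB0q0 ndB4q2 pcB2 cut_B04mm_022_s1 Ext.none :=
  certF0 (fam := false) (s1 := false) (s2 := false) (a := 0) (b := 2) (c := 2) (cn := .pp) (n1 := ndB0q0) (n2 := ndB4q2) (pc := pcB2) (cut := cut_B04mm_022_s1) (xt := Ext.none) (P1 := 0) (W1 := 536870912) (P2 := 1073741824) (W2 := 536870912) (P3 := 966367641) (W3 := 24778659)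
    rfl k0_B04mm_022_s1

theorem s_B04mm_022_s1 {κ x : ℝ} (hκ : κ * h0 = ken x) (hx : ((966367641 : ℕ) : ℝ) / S ≤ x)
    (hx' : x ≤ (((966367641 : ℕ) : ℝ) + (24778659 : ℕ)) / S) :
    AltB (VFD κ) PP tK tL pcB [⟨3, 0, 0, 1449551462⟩] 0 2 2 0 4 (sgb false) (sgb false) x :=
  strip_altBD (m := 1449551462) true rfl hκ (SH.κ0 hκ (SH.hx1 hx).le (SH.hx2 hx').le) (SH.hx1 hx).le (SH.hx2 hx') (covB00).cov (covB42).cov hx hx' c_B04mm_022_s1 cutB_nil (noExt_B)

noncomputable def cut_B04mm_023_s1 : Cut := Cut.of [[⟨4, 0, 0, 1449551462⟩]]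

noncomputable def f_B04mm_023_s1 : ℕ → ℕ → ℕ → ℕ → Bool := onCell 0 536870912 0 1230186008 966367641 24778659
    (rowF 0 false false false .up 0 2 3 (qsf 0 536870912 0 1230186008 2) ndB0q0 ndB4q3 pcB2 cut_B04mm_023_s1 Ext.none)

def k0_B04mm_023_s1 : ∃ t, chk3 f_B04mm_023_s1 t 1 1 1 = true :=
  ⟨(l 5), by decide +kernel⟩

theorem c_B04mm_023_s1 : CertF 0 536870912 0 1230186008 966367641 24778659 false false false .up 0 2 3
    ndB0q0 ndB4q3 pcB2 cut_B04mm_023_s1 Ext.none :=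
  certF0 (fam := false) (s1 := false) (s2 := false) (a := 0) (b := 2) (c := 3) (cn := .up) (n1 := ndB0q0) (n2 := ndB4q3) (pc := pcB2) (cut := cut_B04mm_023_s1) (xt := Ext.none) (P1 := 0) (W1 := 536870912) (P2 := 0) (W2 := 1230186008) (P3 := 966367641) (W3 := 24778659)
    rfl k0_B04mm_023_s1

theorem s_B04mm_023_s1 {κ x : ℝ} (hκ : κ * h0 = ken x) (hx : ((966367641 : ℕ) : ℝ) / S ≤ x)
    (hx' : x ≤ (((966367641 : ℕ) : ℝ) + (24778659 : ℕ)) / S) :
    AltB (VFD κ) PP tK tL pcB [⟨3, 0, 0, 1449551462⟩] 0 2 3 0 4 (sgb false) (sgb false) x :=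
  strip_altBD (m := 1449551462) true rfl hκ (SH.κ0 hκ (SH.hx1 hx).le (SH.hx2 hx').le) (SH.hx1 hx).le (SH.hx2 hx') (covB00).cov (covB43).cov hx hx' c_B04mm_023_s1 cutB_nil (noExt_B)

noncomputable def cut_B04mm_033_s1 : Cut := Cut.of [[⟨4, 0, 0, 1449551462⟩]]

noncomputable def f_B04mm_033_s1 : ℕ → ℕ → ℕ → ℕ → Bool := onCell 0 536870912 0 1230186008 966367641 24778659
    (rowF 0 false false false .pnn 0 3 3 (qsf 0 536870912 0 1230186008 3) ndB0q0 ndB4q3 pcB3 cut_B04mm_033_s1 Ext.none)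

def k0_B04mm_033_s1 : ∃ t, chk3 f_B04mm_033_s1 t 1 1 1 = true :=
  ⟨(l 5), by decide +kernel⟩

theorem c_B04mm_033_s1 : CertF 0 536870912 0 1230186008 966367641 24778659 false false false .pnn 0 3 3
    ndB0q0 ndB4q3 pcB3 cut_B04mm_033_s1 Ext.none :=
  certF0 (fam := false) (s1 := false) (s2 := false) (a := 0) (b := 3) (c := 3) (cn := .pnn) (n1 := ndB0q0) (n2 := ndB4q3) (pc := pcB3) (cut := cut_B04mm_033_s1) (xt := Ext.none) (P1 := 0) (W1 := 536870912) (P2 := 0) (W2 := 1230186008) (P3 := 966367641) (W3 := 24778659)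
    rfl k0_B04mm_033_s1

theorem s_B04mm_033_s1 {κ x : ℝ} (hκ : κ * h0 = ken x) (hx : ((966367641 : ℕ) : ℝ) / S ≤ x)
    (hx' : x ≤ (((966367641 : ℕ) : ℝ) + (24778659 : ℕ)) / S) :
    AltB (VFD κ) PP tK tL pcB [⟨3, 0, 0, 1449551462⟩] 0 3 3 0 4 (sgb false) (sgb false) x :=
  strip_altBD (m := 1449551462) true rfl hκ (SH.κ0 hκ (SH.hx1 hx).le (SH.hx2 hx').le) (SH.hx1 hx).le (SH.hx2 hx') (covB00).cov (covB43).cov hx hx' c_B04mm_033_s1 cutB_nil (noExt_B)

noncomputable def cut_B04mm_101_s1 : Cut := Cut.of [[⟨4, 0, 0, 1449551462⟩], [⟨0, 1, 0, 67108864⟩, ⟨1, 0, 0, 67108864⟩, ⟨2, 1, 0, 67108864⟩]]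

noncomputable def f_B04mm_101_s1 : ℕ → ℕ → ℕ → ℕ → Bool := onCell 536870912 536870912 0 536870912 966367641 24778659
    (rowF 1 false false false .npn 1 0 1 (qsf 536870912 536870912 536870912 536870912 0) ndB0q1 ndB4q1 pcB0 cut_B04mm_101_s1 Ext.none)

def k0_B04mm_101_s1 : ∃ t, chk3 f_B04mm_101_s1 t 1 1 1 = true :=
  ⟨(a (l 3) (b (a (l 3) (b (a (l 3) (b (b (a (l 3) (l 14)) (l 3)) (l 3))) (l 3))) (l 3))), by decide +kernel⟩

theorem c_B04mm_101_s1 : CertF 536870912 536870912 536870912 536870912 966367641 24778659 false false false .npn 1 0 1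
    ndB0q1 ndB4q1 pcB0 cut_B04mm_101_s1 Ext.none :=
  certF1 (fam := false) (s1 := false) (s2 := false) (a := 1) (b := 0) (c := 1) (cn := .npn) (n1 := ndB0q1) (n2 := ndB4q1) (pc := pcB0) (cut := cut_B04mm_101_s1) (xt := Ext.none) (P1 := 536870912) (W1 := 536870912) (P2 := 536870912) (W2 := 536870912) (P3 := 966367641) (W3 := 24778659)
    rfl (fun _ => rfl) k0_B04mm_101_s1

theorem s_B04mm_101_s1 {κ x : ℝ} (hκ : κ * h0 = ken x) (hx : ((966367641 : ℕ) : ℝ) / S ≤ x)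
    (hx' : x ≤ (((966367641 : ℕ) : ℝ) + (24778659 : ℕ)) / S)
    (H : CutB (VFD κ) PP tK tL pcB (Cut.of [[⟨0, 1, 0, 67108864⟩, ⟨1, 0, 0, 67108864⟩, ⟨2, 1, 0, 67108864⟩]]) 1 0 1 0 4 (sgb false) (sgb false) x) :
    AltB (VFD κ) PP tK tL pcB [⟨3, 0, 0, 1449551462⟩] 1 0 1 0 4 (sgb false) (sgb false) x :=
  strip_altBD (m := 1449551462) true rfl hκ (SH.κ0 hκ (SH.hx1 hx).le (SH.hx2 hx').le) (SH.hx1 hx).le (SH.hx2 hx') (covB01).cov (covB41).cov hx hx' c_B04mm_101_s1 H (noExt_B)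

noncomputable def cut_B04mm_102_s1 : Cut := Cut.of [[⟨4, 0, 0, 1449551462⟩], [⟨0, 1, 0, 67108864⟩, ⟨1, 0, 0, 67108864⟩, ⟨2, 1, 0, 67108864⟩]]

noncomputable def f_B04mm_102_s1 : ℕ → ℕ → ℕ → ℕ → Bool := onCell 536870912 536870912 0 536870912 966367641 24778659
    (rowF 1 false false false .npp 1 0 2 (qsf 536870912 536870912 1073741824 536870912 0) ndB0q1 ndB4q2 pcB0 cut_B04mm_102_s1 Ext.none)

def k0_B04mm_102_s1 : ∃ t, chk3 f_B04mm_102_s1 t 1 1 1 = true :=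
  ⟨(a (l 3) (b (a (l 3) (b (a (l 3) (b (b (a (l 3) (l 14)) (l 3)) (l 3))) (l 3))) (l 3))), by decide +kernel⟩

theorem c_B04mm_102_s1 : CertF 536870912 536870912 1073741824 536870912 966367641 24778659 false false false .npp 1 0 2
    ndB0q1 ndB4q2 pcB0 cut_B04mm_102_s1 Ext.none :=
  certF1 (fam := false) (s1 := false) (s2 := false) (a := 1) (b := 0) (c := 2) (cn := .npp) (n1 := ndB0q1) (n2 := ndB4q2) (pc := pcB0) (cut := cut_B04mm_102_s1) (xt := Ext.none) (P1 := 536870912) (W1 := 536870912) (P2 := 1073741824) (W2 := 536870912) (P3 := 966367641) (W3 := 24778659)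
    rfl (fun _ => rfl) k0_B04mm_102_s1

theorem s_B04mm_102_s1 {κ x : ℝ} (hκ : κ * h0 = ken x) (hx : ((966367641 : ℕ) : ℝ) / S ≤ x)
    (hx' : x ≤ (((966367641 : ℕ) : ℝ) + (24778659 : ℕ)) / S)
    (H : CutB (VFD κ) PP tK tL pcB (Cut.of [[⟨0, 1, 0, 67108864⟩, ⟨1, 0, 0, 67108864⟩, ⟨2, 1, 0, 67108864⟩]]) 1 0 2 0 4 (sgb false) (sgb false) x) :
    AltB (VFD κ) PP tK tL pcB [⟨3, 0, 0, 1449551462⟩] 1 0 2 0 4 (sgb false) (sgb false) x :=
  strip_altBD (m := 1449551462) true rfl hκ (SH.κ0 hκ (SH.hx1 hx).le (SH.hx2 hx').le) (SH.hx1 hx).le (SH.hx2 hx') (covB01).cov (covB42).cov hx hx' c_B04mm_102_s1 H (noExt_B)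

noncomputable def cut_B04mm_112_s1 : Cut := Cut.of [[⟨4, 0, 0, 1449551462⟩]]

noncomputable def f_B04mm_112_s1 : ℕ → ℕ → ℕ → ℕ → Bool := onCell 536870912 536870912 1073741824 536870912 966367641 24778659
    (rowF 2 false false false .dn 1 1 2 (qsf 536870912 536870912 1073741824 536870912 1) ndB0q1 ndB4q2 pcB1 cut_B04mm_112_s1 Ext.none)

def k0_B04mm_112_s1 : ∃ t, chk3 f_B04mm_112_s1 t 1 1 1 = true :=
  ⟨(a (l 3) (l 5)), by decide +kernel⟩

theorem c_B04mm_112_s1 : CertF 536870912 536870912 1073741824 536870912 966367641 24778659 false false false .dn 1 1 2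
    ndB0q1 ndB4q2 pcB1 cut_B04mm_112_s1 Ext.none :=
  certF2 (fam := false) (s1 := false) (s2 := false) (a := 1) (b := 1) (c := 2) (cn := .dn) (n1 := ndB0q1) (n2 := ndB4q2) (pc := pcB1) (cut := cut_B04mm_112_s1) (xt := Ext.none) (P1 := 536870912) (W1 := 536870912) (P2 := 1073741824) (W2 := 536870912) (P3 := 966367641) (W3 := 24778659)
    rfl (fun _ => rfl) k0_B04mm_112_s1

theorem s_B04mm_112_s1 {κ x : ℝ} (hκ : κ * h0 = ken x) (hx : ((966367641 : ℕ) : ℝ) / S ≤ x)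
    (hx' : x ≤ (((966367641 : ℕ) : ℝ) + (24778659 : ℕ)) / S) :
    AltB (VFD κ) PP tK tL pcB [⟨3, 0, 0, 1449551462⟩] 1 1 2 0 4 (sgb false) (sgb false) x :=
  strip_altBD (m := 1449551462) true rfl hκ (SH.κ0 hκ (SH.hx1 hx).le (SH.hx2 hx').le) (SH.hx1 hx).le (SH.hx2 hx') (covB01).cov (covB42).cov hx hx' c_B04mm_112_s1 cutB_nil (noExt_B)

noncomputable def cut_B04mm_113_s1 : Cut := Cut.of [[⟨4, 0, 0, 1449551462⟩]]

noncomputable def f_B04mm_113_s1 : ℕ → ℕ → ℕ → ℕ → Bool := onCell 536870912 536870912 0 1230186008 966367641 24778659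
    (rowF 0 false false false .nn 1 1 3 (qsf 536870912 536870912 0 1230186008 1) ndB0q1 ndB4q3 pcB1 cut_B04mm_113_s1 Ext.none)

def k0_B04mm_113_s1 : ∃ t, chk3 f_B04mm_113_s1 t 1 1 1 = true :=
  ⟨(a (l 5) (b (l 5) (a (b (l 5) (l 3)) (l 3)))), by decide +kernel⟩

theorem c_B04mm_113_s1 : CertF 536870912 536870912 0 1230186008 966367641 24778659 false false false .nn 1 1 3
    ndB0q1 ndB4q3 pcB1 cut_B04mm_113_s1 Ext.none :=
  certF0 (fam := false) (s1 := false) (s2 := false) (a := 1) (b := 1) (c := 3) (cn := .nn) (n1 := ndB0q1) (n2 := ndB4q3) (pc := pcB1) (cut := cut_B04mm_113_s1) (xt := Ext.none) (P1 := 536870912) (W1 := 536870912) (P2 := 0) (W2 := 1230186008) (P3 := 966367641) (W3 := 24778659)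
    rfl k0_B04mm_113_s1

theorem s_B04mm_113_s1 {κ x : ℝ} (hκ : κ * h0 = ken x) (hx : ((966367641 : ℕ) : ℝ) / S ≤ x)
    (hx' : x ≤ (((966367641 : ℕ) : ℝ) + (24778659 : ℕ)) / S) :
    AltB (VFD κ) PP tK tL pcB [⟨3, 0, 0, 1449551462⟩] 1 1 3 0 4 (sgb false) (sgb false) x :=
  strip_altBD (m := 1449551462) true rfl hκ (SH.κ0 hκ (SH.hx1 hx).le (SH.hx2 hx').le) (SH.hx1 hx).le (SH.hx2 hx') (covB01).cov (covB43).cov hx hx' c_B04mm_113_s1 cutB_nil (noExt_B)

noncomputable def cut_B04mm_123_s1 : Cut := Cut.of [[⟨4, 0, 0, 1449551462⟩]]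

noncomputable def f_B04mm_123_s1 : ℕ → ℕ → ℕ → ℕ → Bool := onCell 1073741824 536870912 0 1230186008 966367641 24778659
    (rowF 2 false false false .npn 1 2 3 (qsf 536870912 536870912 0 1230186008 2) ndB0q1 ndB4q3 pcB2 cut_B04mm_123_s1 Ext.none)

def k0_B04mm_123_s1 : ∃ t, chk3 f_B04mm_123_s1 t 1 1 1 = true :=
  ⟨(b (l 5) (l 5)), by decide +kernel⟩

theorem c_B04mm_123_s1 : CertF 536870912 536870912 0 1230186008 966367641 24778659 false false false .npn 1 2 3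
    ndB0q1 ndB4q3 pcB2 cut_B04mm_123_s1 Ext.none :=
  certF2 (fam := false) (s1 := false) (s2 := false) (a := 1) (b := 2) (c := 3) (cn := .npn) (n1 := ndB0q1) (n2 := ndB4q3) (pc := pcB2) (cut := cut_B04mm_123_s1) (xt := Ext.none) (P1 := 536870912) (W1 := 536870912) (P2 := 0) (W2 := 1230186008) (P3 := 966367641) (W3 := 24778659)
    rfl (fun _ => rfl) k0_B04mm_123_s1

theorem s_B04mm_123_s1 {κ x : ℝ} (hκ : κ * h0 = ken x) (hx : ((966367641 : ℕ) : ℝ) / S ≤ x)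
    (hx' : x ≤ (((966367641 : ℕ) : ℝ) + (24778659 : ℕ)) / S) :
    AltB (VFD κ) PP tK tL pcB [⟨3, 0, 0, 1449551462⟩] 1 2 3 0 4 (sgb false) (sgb false) x :=
  strip_altBD (m := 1449551462) true rfl hκ (SH.κ0 hκ (SH.hx1 hx).le (SH.hx2 hx').le) (SH.hx1 hx).le (SH.hx2 hx') (covB01).cov (covB43).cov hx hx' c_B04mm_123_s1 cutB_nil (noExt_B)

noncomputable def cut_B04mm_133_s1 : Cut := Cut.of [[⟨4, 0, 0, 1449551462⟩]]

noncomputable def f_B04mm_133_s1 : ℕ → ℕ → ℕ → ℕ → Bool := onCell 1610612736 536870912 0 1230186008 966367641 24778659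
    (rowF 2 false false false .dn 1 3 3 (qsf 536870912 536870912 0 1230186008 3) ndB0q1 ndB4q3 pcB3 cut_B04mm_133_s1 Ext.none)

def k0_B04mm_133_s1 : ∃ t, chk3 f_B04mm_133_s1 t 1 1 1 = true :=
  ⟨(l 5), by decide +kernel⟩

theorem c_B04mm_133_s1 : CertF 536870912 536870912 0 1230186008 966367641 24778659 false false false .dn 1 3 3
    ndB0q1 ndB4q3 pcB3 cut_B04mm_133_s1 Ext.none :=
  certF2 (fam := false) (s1 := false) (s2 := false) (a := 1) (b := 3) (c := 3) (cn := .dn) (n1 := ndB0q1) (n2 := ndB4q3) (pc := pcB3) (cut := cut_B04mm_133_s1) (xt := Ext.none) (P1 := 536870912) (W1 := 536870912) (P2 := 0) (W2 := 1230186008) (P3 := 966367641) (W3 := 24778659)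
    rfl (fun _ => rfl) k0_B04mm_133_s1

theorem s_B04mm_133_s1 {κ x : ℝ} (hκ : κ * h0 = ken x) (hx : ((966367641 : ℕ) : ℝ) / S ≤ x)
    (hx' : x ≤ (((966367641 : ℕ) : ℝ) + (24778659 : ℕ)) / S) :
    AltB (VFD κ) PP tK tL pcB [⟨3, 0, 0, 1449551462⟩] 1 3 3 0 4 (sgb false) (sgb false) x :=
  strip_altBD (m := 1449551462) true rfl hκ (SH.κ0 hκ (SH.hx1 hx).le (SH.hx2 hx').le) (SH.hx1 hx).le (SH.hx2 hx') (covB01).cov (covB43).cov hx hx' c_B04mm_133_s1 cutB_nil (noExt_B)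

noncomputable def cut_B04mm_202_s1 : Cut := Cut.of [[⟨4, 0, 0, 1449551462⟩], [⟨0, 1, 0, 53687091⟩, ⟨1, 0, 0, 53687091⟩, ⟨2, 1, 0, 53687091⟩]]

noncomputable def xt_B04mm_202_s1 : Ext := strExt dd false false false .u2 .s2m .u0m .pp 2 0 2 rfl rfl gf0 vv ndB0q2 ndB4q2

noncomputable def f_B04mm_202_s1 : ℕ → ℕ → ℕ → ℕ → Bool := onCell 0 536870912 0 536870912 966367641 24778659
    (rowF 1 false false false .pp 2 0 2 (qsf 0 536870912 1073741824 536870912 0) ndB0q2 ndB4q2 pcB0 cut_B04mm_202_s1 xt_B04mm_202_s1)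

def k0_B04mm_202_s1 : ∃ t, chk3 f_B04mm_202_s1 t 2 1 1 = true :=
  ⟨(b (a (b (l 6) (b (l 6) (a (l 6) (b (l 16407800) (l 16433488))))) (b (a (a (l 6) (b (l 6) (l 6))) (b (b (l 6) (b (l 16312440) (b (l 16327144) (b (l 16335480) (l 16349776))))) (b (b (l 16219968) (l 16270544)) (b (l 16486024) (l 16519640))))) (b (a (b (l 16366384) (l 16390264)) (b (l 16333424) (a (l 16545416) (b (l 16587712) (l 16594944))))) (a (b (a (l 16474480) (l 16523376)) (a (l 16420400) (b (l 16538736) (l 16553864)))) (b (b (a (l 16561288) (l 16606208)) (a (l 16570176) (l 16618912))) (a (b (l 16585928) (l 16602424)) (b (l 16634648) (l 16568992)))))))) (b (a (a (b (b (l 6) (l 16410248)) (b (l 16452072) (l 445165738647))) (b (b (a (l 16442248) (l 16489832)) (a (l 16480672) (l 16441432))) (a (b (l 16522992) (l 16570688)) (b (l 16572952) (l 16536568))))) (b (a (b (a (l 16363616) (l 16413792)) (a (l 16491744) (l 530243343))) (b (a (b (l 16621312)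 (l 16558296)) (a (l 529781775) (l 529628943))) (a (b (l 16580752) (l 529840399)) (a (l 529527823) (l 529371151))))) (a (a (b (l 530548751) (b (l 16658240) (l 16598248))) (b (l 530209551) (a (l 530315791) (l 530134287)))) (a (b (l 529811471) (l 529830159)) (b (a (l 529580559) (l 529253647)) (l 529374735)))))) (a (l 2) (a (l 2) (a (l 2) (l 3)))))), by decide +kernel⟩

def k1_B04mm_202_s1 : ∃ t, chk3 f_B04mm_202_s1 t 6 2 1 = true :=
  ⟨(b (a (b (a (b (l 16349104) (b (l 16393024) (b (l 16409888) (l 16423424)))) (b (l 16402312) (b (l 16365016) (l 16306424)))) (b (b (l 16499968) (l 16549168)) (b (l 16586280) (a (l 16589888) (l 16637824))))) (b (b (a (b (l 16437336) (b (l 16469384) (l 16480720))) (b (b (l 16485152) (l 16506024)) (b (l 16515256) (l 16535472)))) (b (a (l 16500400) (l 16478552)) (a (l 16537552) (b (l 16592424) (l 16616168))))) (b (a (b (l 16589904) (l 16632152)) (a (b (l 16637472) (l 16675232)) (b (l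 16670704) (l 16699184)))) (a (b (l 16661392) (a (l 16666392) (l 16684656))) (a (b (l 16692912) (l 16700936)) (b (l 16708184) (l 530959375))))))) (a (a (b (b (b (l 16607272) (l 16621248)) (b (l 16628552) (l 16640168))) (b (b (l 16568416) (l 528617487)) (b (l 529938959) (l 529692431)))) (b (b (b (l 16649408) (l 16659824)) (b (l 16670696) (c (l 16694024) (l 16588728)))) (b (a (b (l 16686968) (l 529956879)) (b (l 530112271) (l 529740559))) (a (b (l 529660175) (l 529408783)) (b (l 529437455) (l 529181711)))))) (b (a (b (b (l 16622720) (a (l 16687968) (l 16707056))) (a (b (l 16701248) (c (l 16723328) (l 16626328))) (a (l 530219023) (l 530030095)))) (b (a (l 530577423) (l 529141007)) (a (l 529728527) (b (l 529556751) (l 529124367))))) (a (b (a (b (a (l 529946639) (l 529854735)) (l 528693007)) (b (a (l 529669391) (l 529467919)) (a (b (l 529397007) (l 529210127)) (l 529105167)))) (a (l 529036303) (l 3))) (b (a (b (l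 529143823) (l 3)) (l 3)) (l 3)))))), by decide +kernel⟩

def k2_B04mm_202_s1 : ∃ t, chk3 f_B04mm_202_s1 t 14 4 1 = true :=
  ⟨(b (b (a (b (b (a (l 16533600) (l 16559880)) (l 16559152)) (b (l 16576264) (l 16513616))) (b (a (l 16511352) (b (l 16618856) (l 16637064))) (a (l 16552752) (b (l 16576864) (l 16688376))))) (b (a (l 16629944) (a (b (l 16673968) (l 16699704)) (a (b (l 16703856) (l 16718936)) (b (l 16724568) (l 16726824))))) (b (a (l 16665440) (a (l 16756016) (l 16730504))) (a (a (l 16671608) (l 16704584)) (a (a (l 16712344) (l 16723272)) (a (l 16735184) (l 16746672))))))) (a (b (a (b (l 16700896) (l 16716136)) (b (l 16753488) (b (l 16728968) (l 16736144)))) (a (b (l 531173903) (l 530621711)) (b (b (l 531021071) (l 530708239)) (l 530274831)))) (b (a (b (b (l 16728480) (l 16738880)) (a (b (l 16743512) (l 16750192)) (b (l 16752912) (l 531028239)))) (b (a (l 531039247) (l 531075599)) (a (l 530885647) (l 530625295))))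 (a (b (a (l 530649615) (b (l 532041487) (a (l 530353679) (l 530269967)))) (a (l 530025999) (l 529849103))) (b (a (b (l 530399759) (c (l 530406927) (l 529686287))) (l 3)) (l 3)))))), by decide +kernel⟩

def k3_B04mm_202_s1 : ∃ t, chk3 f_B04mm_202_s1 t 15 4 1 = true :=
  ⟨(b (b (a (b (a (b (l 14) (l 16590680)) (l 14)) (a (b (l 16701024) (b (l 16723848) (a (l 16727696) (l 16688040)))) (a (b (b (l 14) (l 16741008)) (b (a (l 16734016) (l 16654176)) (a (l 16735576) (l 16742616)))) (b (l 14) (a (b (l 16743840) (l 16728680)) (b (l 14) (l 528617231))))))) (b (l 14) (a (b (l 14) (a (a (a (l 528536847) (l 528495375)) (l 14)) (l 14))) (l 14)))) (a (a (b (b (a (b (l 16726008) (l 16728800)) (b (l 16733928) (l 16740056))) (a (l 16737056) (b (l 16746216) (l 16751800)))) (a (b (l 16748072) (l 530685967)) (a (b (l 16756592) (l 530680847)) (b (l 530362639) (l 530641167))))) (a (b (a (b (l 529406479) (l 529948175)) (b (l 529347855)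 (l 529903375))) (a (l 530476559) (l 530422287))) (b (a (b (l 529287695) (l 529820431)) (b (l 529218831) (l 529757455))) (a (l 530360847) (l 3))))) (b (a (a (a (b (a (l 529167631) (l 529127695)) (l 529684751)) (b (a (l 529084943) (l 529039119)) (l 3))) (l 3)) (l 3)) (l 3)))) (b (a (a (a (b (l 530976015) (l 530399759)) (b (a (b (l 530920975) (l 530742031)) (b (l 530886927) (l 3))) (l 3))) (l 3)) (l 3)) (l 3))), by decide +kernel⟩

def k4_B04mm_202_s1 : ∃ t, chk3 f_B04mm_202_s1 t 7 5 1 = true :=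
  ⟨(a (b (a (b (a (b (l 530108943) (l 529620495)) (b (l 529738255) (l 529225487))) (a (b (l 529150223) (l 3)) (l 3))) (l 3)) (l 3)) (l 3)), by decide +kernel⟩

def k5_B04mm_202_s1 : ∃ t, chk3 f_B04mm_202_s1 t 3 3 1 = true :=
  ⟨(a (b (a (b (a (b (b (l 529486607) (l 529320207)) (l 529131279)) (b (a (l 529101071) (b (l 528970511) (l 3))) (l 3))) (l 3)) (l 3)) (l 3)) (l 3)), by decide +kernel⟩

theorem t6_B04mm_202_s1 : ∃ t, chk3 f_B04mm_202_s1 t 7 4 1 = true := ex3_a k2_B04mm_202_s1 k3_B04mm_202_s1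

theorem t7_B04mm_202_s1 : ∃ t, chk3 f_B04mm_202_s1 t 7 2 1 = true := ex3_b t6_B04mm_202_s1 k4_B04mm_202_s1

theorem t8_B04mm_202_s1 : ∃ t, chk3 f_B04mm_202_s1 t 3 2 1 = true := ex3_a k1_B04mm_202_s1 t7_B04mm_202_s1

theorem t9_B04mm_202_s1 : ∃ t, chk3 f_B04mm_202_s1 t 3 1 1 = true := ex3_b t8_B04mm_202_s1 k5_B04mm_202_s1

theorem t10_B04mm_202_s1 : ∃ t, chk3 f_B04mm_202_s1 t 1 1 1 = true := ex3_a k0_B04mm_202_s1 t9_B04mm_202_s1

theorem c_B04mm_202_s1 : CertF 0 536870912 1073741824 536870912 966367641 24778659 false false false .pp 2 0 2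
    ndB0q2 ndB4q2 pcB0 cut_B04mm_202_s1 xt_B04mm_202_s1 :=
  certF1 (fam := false) (s1 := false) (s2 := false) (a := 2) (b := 0) (c := 2) (cn := .pp) (n1 := ndB0q2) (n2 := ndB4q2) (pc := pcB0) (cut := cut_B04mm_202_s1) (xt := xt_B04mm_202_s1) (P1 := 0) (W1 := 536870912) (P2 := 1073741824) (W2 := 536870912) (P3 := 966367641) (W3 := 24778659)
    rfl (fun _ => rfl) t10_B04mm_202_s1

theorem s_B04mm_202_s1 {κ x : ℝ} (hκ : κ * h0 = ken x) (hx : ((966367641 : ℕ) : ℝ) / S ≤ x)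
    (hx' : x ≤ (((966367641 : ℕ) : ℝ) + (24778659 : ℕ)) / S)
    (H : CutB (VFD κ) PP tK tL pcB (Cut.of [[⟨0, 1, 0, 53687091⟩, ⟨1, 0, 0, 53687091⟩, ⟨2, 1, 0, 53687091⟩]]) 2 0 2 0 4 (sgb false) (sgb false) x) :
    AltB (VFD κ) PP tK tL pcB [⟨3, 0, 0, 1449551462⟩] 2 0 2 0 4 (sgb false) (sgb false) x :=
  strip_altBD (m := 1449551462) true rfl hκ (SH.κ0 hκ (SH.hx1 hx).le (SH.hx2 hx').le) (SH.hx1 hx).le (SH.hx2 hx') (covB02).cov (covB42).cov hx hx' c_B04mm_202_s1 H ((okx hx hx').extB (T := tt) (sideB hx hx') hκ rfl rfl (.O 2 false) (.N 2 false) (Or.inl rfl))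

noncomputable def cut_B04mm_203_s1 : Cut := Cut.of [[⟨4, 0, 0, 1449551462⟩]]

noncomputable def xt_B04mm_203_s1 : Ext := strExt dd false false false .u2 .s2m .u0m .up 2 0 3 rfl rfl gf0 vv ndB0q2 ndB4q3

noncomputable def f_B04mm_203_s1 : ℕ → ℕ → ℕ → ℕ → Bool := onCell 0 536870912 0 1230186008 966367641 24778659
    (rowF 0 false false false .up 2 0 3 (qsf 0 536870912 0 1230186008 0) ndB0q2 ndB4q3 pcB0 cut_B04mm_203_s1 xt_B04mm_203_s1)

def k0_B04mm_203_s1 : ∃ t, chk3 f_B04mm_203_s1 t 1 1 1 = true :=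
  ⟨(b (l 2) (b (l 2) (a (a (b (b (l 2) (b (l 2) (a (l 531805199) (a (l 531632911) (l 3))))) (b (a (b (a (l 16631000) (l 531047695)) (c (l 16446672) (l 16515472))) (a (b (c (l 531680271) (l 531177743)) (l 531017743)) (b (l 531262223) (l 531087375)))) (a (b (a (l 16527760) (l 16582064)) (a (l 16471624) (l 16527576))) (a (b (l 531166735) (l 16582024)) (b (l 530949903) (b (l 16566864) (l 16623472))))))) (b (l 3) (b (a (b (l 3) (a (l 530845455) (l 3))) (l 3)) (a (c (b (a (l 531107343) (l 530579727)) (a (l 531037967) (l 530219791))) (b (a (l 530249743) (l 529902607)) (a (l 530113807) (l 529752591)))) (b (l 3) (a (l 529892111) (l 3))))))) (l 3)))), by decide +kernel⟩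

theorem c_B04mm_203_s1 : CertF 0 536870912 0 1230186008 966367641 24778659 false false false .up 2 0 3
    ndB0q2 ndB4q3 pcB0 cut_B04mm_203_s1 xt_B04mm_203_s1 :=
  certF0 (fam := false) (s1 := false) (s2 := false) (a := 2) (b := 0) (c := 3) (cn := .up) (n1 := ndB0q2) (n2 := ndB4q3) (pc := pcB0) (cut := cut_B04mm_203_s1) (xt := xt_B04mm_203_s1) (P1 := 0) (W1 := 536870912) (P2 := 0) (W2 := 1230186008) (P3 := 966367641) (W3 := 24778659)
    rfl k0_B04mm_203_s1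

theorem s_B04mm_203_s1 {κ x : ℝ} (hκ : κ * h0 = ken x) (hx : ((966367641 : ℕ) : ℝ) / S ≤ x)
    (hx' : x ≤ (((966367641 : ℕ) : ℝ) + (24778659 : ℕ)) / S) :
    AltB (VFD κ) PP tK tL pcB [⟨3, 0, 0, 1449551462⟩] 2 0 3 0 4 (sgb false) (sgb false) x :=
  strip_altBD (m := 1449551462) true rfl hκ (SH.κ0 hκ (SH.hx1 hx).le (SH.hx2 hx').le) (SH.hx1 hx).le (SH.hx2 hx') (covB02).cov (covB43).cov hx hx' c_B04mm_203_s1 cutB_nil ((okx hx hx').extB (T := tt) (sideB hx hx') hκ rfl rfl (.O 2 false) (.N 3 false) (Or.inl rfl))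

noncomputable def cut_B04mm_213_s1 : Cut := Cut.of [[⟨4, 0, 0, 1449551462⟩]]

noncomputable def xt_B04mm_213_s1 : Ext := strExt dd false false false .u2 .s2m .u0m .pnn 2 1 3 rfl rfl gf1 vv ndB0q2 ndB4q3

noncomputable def f_B04mm_213_s1 : ℕ → ℕ → ℕ → ℕ → Bool := onCell 0 536870912 0 1230186008 966367641 24778659
    (rowF 0 false false false .pnn 2 1 3 (qsf 0 536870912 0 1230186008 1) ndB0q2 ndB4q3 pcB1 cut_B04mm_213_s1 xt_B04mm_213_s1)

def k0_B04mm_213_s1 : ∃ t, chk3 f_B04mm_213_s1 t 1 1 1 = true :=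
  ⟨(b (a (l 3) (b (l 5) (l 3))) (b (a (a (b (l 3) (l 3)) (l 3)) (l 3)) (a (a (b (b (a (l 531641615) (l 3)) (a (b (l 531213839) (l 530844431)) (a (b (l 531095567) (l 529375247)) (b (l 3) (l 3))))) (l 1)) (b (l 3) (b (a (l 1) (l 3)) (l 1)))) (l 3)))), by decide +kernel⟩

theorem c_B04mm_213_s1 : CertF 0 536870912 0 1230186008 966367641 24778659 false false false .pnn 2 1 3
    ndB0q2 ndB4q3 pcB1 cut_B04mm_213_s1 xt_B04mm_213_s1 :=
  certF0 (fam := false) (s1 := false) (s2 := false) (a := 2) (b := 1) (c := 3) (cn := .pnn) (n1 := ndB0q2) (n2 := ndB4q3) (pc := pcB1) (cut := cut_B04mm_213_s1) (xt := xt_B04mm_213_s1) (P1 := 0) (W1 := 536870912) (P2 := 0) (W2 := 1230186008) (P3 := 966367641) (W3 := 24778659)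
    rfl k0_B04mm_213_s1

theorem s_B04mm_213_s1 {κ x : ℝ} (hκ : κ * h0 = ken x) (hx : ((966367641 : ℕ) : ℝ) / S ≤ x)
    (hx' : x ≤ (((966367641 : ℕ) : ℝ) + (24778659 : ℕ)) / S) :
    AltB (VFD κ) PP tK tL pcB [⟨3, 0, 0, 1449551462⟩] 2 1 3 0 4 (sgb false) (sgb false) x :=
  strip_altBD (m := 1449551462) true rfl hκ (SH.κ0 hκ (SH.hx1 hx).le (SH.hx2 hx').le) (SH.hx1 hx).le (SH.hx2 hx') (covB02).cov (covB43).cov hx hx' c_B04mm_213_s1 cutB_nil ((okx hx hx').extB (T := tt) (sideB hx hx') hκ rfl rfl (.O 2 false) (.N 3 false) (Or.inr rfl))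

noncomputable def cut_B40pp_001_s1 : Cut := Cut.of [[⟨4, 0, 0, 1449551462⟩]]

noncomputable def xt_B40pp_001_s1 : Ext := strExt dd false true true .s0 .u0 .u0m .up 0 0 1 rfl rfl gf0 vv ndB4q0 ndB0q1

noncomputable def f_B40pp_001_s1 : ℕ → ℕ → ℕ → ℕ → Bool := onCell 0 536870912 536870912 536870912 966367641 24778659
    (rowF 2 false true true .up 0 0 1 (qsf 0 536870912 536870912 536870912 0) ndB4q0 ndB0q1 pcB0 cut_B40pp_001_s1 xt_B40pp_001_s1)

def k0_B40pp_001_s1 : ∃ t, chk3 f_B40pp_001_s1 t 1 1 1 = true :=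
  ⟨(a (b (l 3) (b (b (l 3) (l 2)) (l 2))) (b (a (l 3) (b (l 3) (a (b (l 3) (a (b (l 3) (b (l 521671695) (l 521885967))) (b (l 521431823) (c (l 522651919) (l 521074703))))) (a (b (b (l 3) (l 521059343)) (b (l 521565199) (l 522026511))) (b (b (c (l 520528399) (l 520608527)) (a (l 521163535) (l 521238287))) (b (l 521731343) (l 521407503))))))) (b (a (b (a (a (l 3) (b (l 3) (l 522885647))) (a (b (l 3) (l 521402127)) (b (l 522138895) (l 522538767)))) (a (b (a (l 2) (l 523358479)) (l 2)) (a (b (l 522981647) (l 523494415)) (b (l 522965519) (l 523366159))))) (a (b (a (l 522401295) (b (l 520694543) (l 522725391))) (a (b (l 523036687) (l 523459599)) (b (l 523159311) (l 523598607)))) (b (a (b (l 522467087) (l 522352911)) (b (l 522669583) (l 523102479))) (a (b (l 523330831) (l 16147632)) (b (l 523548943) (l 16168640)))))) (a (b (a (l 2) (b (a (l 2) (l 523858703)) (l 2))) (l 2)) (b (a (b (a (l 523885839) (b (l 16307960)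 (l 16257176))) (a (l 313094836935) (l 16093472))) (b (a (l 16134128) (l 16157352)) (a (l 16113984) (l 16055256)))) (a (b (a (l 2) (l 15984712)) (l 2)) (b (a (l 15750272) (l 6)) (l 6)))))))), by decide +kernel⟩

theorem c_B40pp_001_s1 : CertF 0 536870912 536870912 536870912 966367641 24778659 false true true .up 0 0 1
    ndB4q0 ndB0q1 pcB0 cut_B40pp_001_s1 xt_B40pp_001_s1 :=
  certF2 (fam := false) (s1 := true) (s2 := true) (a := 0) (b := 0) (c := 1) (cn := .up) (n1 := ndB4q0) (n2 := ndB0q1) (pc := pcB0) (cut := cut_B40pp_001_s1) (xt := xt_B40pp_001_s1) (P1 := 0) (W1 := 536870912) (P2 := 536870912) (W2 := 536870912) (P3 := 966367641) (W3 := 24778659)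
    rfl (fun _ => rfl) k0_B40pp_001_s1

theorem s_B40pp_001_s1 {κ x : ℝ} (hκ : κ * h0 = ken x) (hx : ((966367641 : ℕ) : ℝ) / S ≤ x)
    (hx' : x ≤ (((966367641 : ℕ) : ℝ) + (24778659 : ℕ)) / S) :
    AltB (VFD κ) PP tK tL pcB [⟨3, 0, 0, 1449551462⟩] 0 0 1 4 0 (sgb true) (sgb true) x :=
  strip_altBD (m := 1449551462) true rfl hκ (SH.κ0 hκ (SH.hx1 hx).le (SH.hx2 hx').le) (SH.hx1 hx).le (SH.hx2 hx') (covB40).cov (covB01).cov hx hx' c_B40pp_001_s1 cutB_nil ((okx hx hx').extB (T := tt) (sideB hx hx') hκ rfl rfl (.N 0 true) (.O 1 true) (Or.inl rfl))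

noncomputable def cut_B40pp_011_s1 : Cut := Cut.of [[⟨4, 0, 0, 1449551462⟩]]

noncomputable def xt_B40pp_011_s1 : Ext := strExt dd false true true .s0 .u0 .u0m .pnn 0 1 1 rfl rfl gf1 vv ndB4q0 ndB0q1

noncomputable def f_B40pp_011_s1 : ℕ → ℕ → ℕ → ℕ → Bool := onCell 536870912 536870912 536870912 536870912 966367641 24778659
    (rowF 2 false true true .pnn 0 1 1 (qsf 0 536870912 536870912 536870912 1) ndB4q0 ndB0q1 pcB1 cut_B40pp_011_s1 xt_B40pp_011_s1)

def k0_B40pp_011_s1 : ∃ t, chk3 f_B40pp_011_s1 t 1 1 1 = true :=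
  ⟨(a (b (a (b (a (b (l 3) (a (l 518028047) (l 518457103))) (b (a (l 519400463) (l 1)) (a (l 519276815) (l 520121359)))) (a (b (b (l 519458319) (a (c (l 519132687) (l 520923919)) (l 520342031))) (a (b (c (l 519923215) (l 521303567)) (a (l 521007119) (l 521248271))) (b (l 519900687) (l 521532431)))) (b (b (l 519829263) (b (l 520363279) (a (l 520707087) (l 16429128)))) (b (a (l 521206287) (l 521317647)) (a (l 521800207) (l 16376360)))))) (b (a (b (l 1) (a (l 520987407) (l 1))) (l 1)) (a (b (a (b (l 520735247) (l 520838415)) (b (l 521510671) (l 521372943))) (a (b (l 521325071) (l 16214784)) (b (l 16212016) (l 16132568)))) (b (a (b (l 1) (l 383358381191)) (l 1)) (b (a (l 16148040) (l 16097608)) (a (l 16050600) (l 15989600))))))) (b (a (b (a (a (b (l 521345039) (l 522074127)) (b (a (l 16369864) (l 16336104)) (l 16179760))) (b (a (l 16115944) (l 16128576)) (a (l 16198224) (l 16129832)))) (a (b (a (l 16148632) (l 16172976))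 (a (l 16135056) (l 16080008))) (b (a (l 16111024) (l 16045792)) (a (l 16022040) (l 15960432))))) (a (b (b (a (l 16137528) (l 16058088)) (a (l 16057664) (l 15981024))) (b (a (l 15976616) (l 6)) (l 6))) (b (b (a (l 15973464) (l 15886408)) (a (l 15899336) (l 6))) (l 6)))) (a (b (a (b (a (l 16032064) (l 15981784)) (a (l 15920936) (l 6))) (b (l 6) (l 6))) (l 6)) (l 6)))) (b (a (b (l 1) (a (b (l 1) (a (b (l 1) (l 15944392)) (l 1))) (l 1))) (l 1)) (a (b (b (l 6) (l 6)) (l 6)) (l 6)))), by decide +kernel⟩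

theorem c_B40pp_011_s1 : CertF 0 536870912 536870912 536870912 966367641 24778659 false true true .pnn 0 1 1
    ndB4q0 ndB0q1 pcB1 cut_B40pp_011_s1 xt_B40pp_011_s1 :=
  certF2 (fam := false) (s1 := true) (s2 := true) (a := 0) (b := 1) (c := 1) (cn := .pnn) (n1 := ndB4q0) (n2 := ndB0q1) (pc := pcB1) (cut := cut_B40pp_011_s1) (xt := xt_B40pp_011_s1) (P1 := 0) (W1 := 536870912) (P2 := 536870912) (W2 := 536870912) (P3 := 966367641) (W3 := 24778659)
    rfl (fun _ => rfl) k0_B40pp_011_s1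

theorem s_B40pp_011_s1 {κ x : ℝ} (hκ : κ * h0 = ken x) (hx : ((966367641 : ℕ) : ℝ) / S ≤ x)
    (hx' : x ≤ (((966367641 : ℕ) : ℝ) + (24778659 : ℕ)) / S) :
    AltB (VFD κ) PP tK tL pcB [⟨3, 0, 0, 1449551462⟩] 0 1 1 4 0 (sgb true) (sgb true) x :=
  strip_altBD (m := 1449551462) true rfl hκ (SH.κ0 hκ (SH.hx1 hx).le (SH.hx2 hx').le) (SH.hx1 hx).le (SH.hx2 hx') (covB40).cov (covB01).cov hx hx' c_B40pp_011_s1 cutB_nil ((okx hx hx').extB (T := tt) (sideB hx hx') hκ rfl rfl (.N 0 true) (.O 1 true) (Or.inr rfl))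

noncomputable def cut_B40pp_012_s1 : Cut := Cut.of [[⟨4, 0, 0, 1449551462⟩]]

noncomputable def f_B40pp_012_s1 : ℕ → ℕ → ℕ → ℕ → Bool := onCell 0 536870912 0 536870912 966367641 24778659
    (rowF 0 false true true .pnp 0 1 2 (qsf 0 536870912 0 536870912 1) ndB4q0 ndB0q2 pcB1 cut_B40pp_012_s1 Ext.none)

def k0_B40pp_012_s1 : ∃ t, chk3 f_B40pp_012_s1 t 1 1 1 = true :=
  ⟨(a (l 6) (l 6)), by decide +kernel⟩

theorem c_B40pp_012_s1 : CertF 0 536870912 0 536870912 966367641 24778659 false true true .pnp 0 1 2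
    ndB4q0 ndB0q2 pcB1 cut_B40pp_012_s1 Ext.none :=
  certF0 (fam := false) (s1 := true) (s2 := true) (a := 0) (b := 1) (c := 2) (cn := .pnp) (n1 := ndB4q0) (n2 := ndB0q2) (pc := pcB1) (cut := cut_B40pp_012_s1) (xt := Ext.none) (P1 := 0) (W1 := 536870912) (P2 := 0) (W2 := 536870912) (P3 := 966367641) (W3 := 24778659)
    rfl k0_B40pp_012_s1

theorem s_B40pp_012_s1 {κ x : ℝ} (hκ : κ * h0 = ken x) (hx : ((966367641 : ℕ) : ℝ) / S ≤ x)
    (hx' : x ≤ (((966367641 : ℕ) : ℝ) + (24778659 : ℕ)) / S) :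
    AltB (VFD κ) PP tK tL pcB [⟨3, 0, 0, 1449551462⟩] 0 1 2 4 0 (sgb true) (sgb true) x :=
  strip_altBD (m := 1449551462) true rfl hκ (SH.κ0 hκ (SH.hx1 hx).le (SH.hx2 hx').le) (SH.hx1 hx).le (SH.hx2 hx') (covB40).cov (covB02).cov hx hx' c_B40pp_012_s1 cutB_nil (noExt_B)

noncomputable def cut_B40pp_022_s1 : Cut := Cut.of [[⟨4, 0, 0, 1449551462⟩]]

noncomputable def f_B40pp_022_s1 : ℕ → ℕ → ℕ → ℕ → Bool := onCell 1073741824 536870912 0 536870912 966367641 24778659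
    (rowF 2 false true true .pp 0 2 2 (qsf 0 536870912 0 536870912 2) ndB4q0 ndB0q2 pcB2 cut_B40pp_022_s1 Ext.none)

def k0_B40pp_022_s1 : ∃ t, chk3 f_B40pp_022_s1 t 1 1 1 = true :=
  ⟨(l 6), by decide +kernel⟩

theorem c_B40pp_022_s1 : CertF 0 536870912 0 536870912 966367641 24778659 false true true .pp 0 2 2
    ndB4q0 ndB0q2 pcB2 cut_B40pp_022_s1 Ext.none :=
  certF2 (fam := false) (s1 := true) (s2 := true) (a := 0) (b := 2) (c := 2) (cn := .pp) (n1 := ndB4q0) (n2 := ndB0q2) (pc := pcB2) (cut := cut_B40pp_022_s1) (xt := Ext.none) (P1 := 0) (W1 := 536870912) (P2 := 0) (W2 := 536870912) (P3 := 966367641) (W3 := 24778659)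
    rfl (fun _ => rfl) k0_B40pp_022_s1

theorem s_B40pp_022_s1 {κ x : ℝ} (hκ : κ * h0 = ken x) (hx : ((966367641 : ℕ) : ℝ) / S ≤ x)
    (hx' : x ≤ (((966367641 : ℕ) : ℝ) + (24778659 : ℕ)) / S) :
    AltB (VFD κ) PP tK tL pcB [⟨3, 0, 0, 1449551462⟩] 0 2 2 4 0 (sgb true) (sgb true) x :=
  strip_altBD (m := 1449551462) true rfl hκ (SH.κ0 hκ (SH.hx1 hx).le (SH.hx2 hx').le) (SH.hx1 hx).le (SH.hx2 hx') (covB40).cov (covB02).cov hx hx' c_B40pp_022_s1 cutB_nil (noExt_B)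

noncomputable def cut_B40pp_101_s1 : Cut := Cut.of [[⟨4, 0, 0, 1449551462⟩], [⟨0, 1, 0, 53687091⟩, ⟨1, 0, 0, 53687091⟩, ⟨2, 1, 0, 53687091⟩]]

noncomputable def xt_B40pp_101_s1 : Ext := strExt dd false true true .s0 .u0 .u0m .npn 1 0 1 rfl rfl gf0 vv ndB4q1 ndB0q1

noncomputable def f_B40pp_101_s1 : ℕ → ℕ → ℕ → ℕ → Bool := onCell 0 536870912 536870912 536870912 966367641 24778659
    (rowF 2 false true true .npn 1 0 1 (qsf 536870912 536870912 536870912 536870912 0) ndB4q1 ndB0q1 pcB0 cut_B40pp_101_s1 xt_B40pp_101_s1)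

def k0_B40pp_101_s1 : ∃ t, chk3 f_B40pp_101_s1 t 2 2 1 = true :=
  ⟨(l 3), by decide +kernel⟩

def k1_B40pp_101_s1 : ∃ t, chk3 f_B40pp_101_s1 t 4 3 1 = true :=
  ⟨(b (l 3) (a (b (l 3) (b (b (l 3) (a (l 3) (a (l 3) (b (l 3) (a (l 3) (l 529787919)))))) (b (a (b (l 3) (b (l 3) (b (l 3) (l 14)))) (a (a (b (l 3) (a (l 528433935) (l 528844559))) (b (l 529125903) (l 529304079))) (b (l 529771023) (a (l 529762575) (l 530119439))))) (a (l 14) (a (a (b (a (l 528700175) (l 529114895)) (l 14)) (b (l 529572879) (b (l 16740568) (l 16732688)))) (a (b (l 530033423) (l 16730640)) (b (l 16738848) (l 16722336)))))))) (b (b (l 3) (a (l 3) (a (l 3) (l 527970575)))) (b (a (b (a (l 3) (b (l 3) (l 529260815))) (a (b (l 529749263) (l 529974543)) (l 529619727))) (b (a (b (l 528801551) (l 529092879)) (b (l 528460303) (l 528682511))) (a (l 529442319) (b (l 528987919) (l 16756512))))) (a (b (a (b (l 531417871) (l 530387471)) (b (l 529853967)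 (l 16722000))) (a (a (l 16752336) (l 16710272)) (b (l 16703904) (l 16684160)))) (b (a (b (l 16719392) (l 16701760)) (b (l 16697704) (l 16679672))) (a (l 16672672) (l 16649720)))))))), by decide +kernel⟩

def k2_B40pp_101_s1 : ∃ t, chk3 f_B40pp_101_s1 t 5 3 1 = true :=
  ⟨(b (b (l 3) (a (l 3) (b (l 3) (a (b (l 3) (a (l 3) (l 525509903))) (b (l 524754447) (l 524962575)))))) (b (a (b (a (l 3) (b (l 3) (l 526461967))) (a (a (l 527636751) (l 527340303)) (a (l 527072271) (l 526827279)))) (a (b (b (a (l 525892623) (l 525704975)) (l 526049807)) (a (l 526600975) (l 526379023))) (b (b (c (l 526171919) (l 524170767)) (a (l 524684303) (l 525365263))) (a (l 526147087) (l 525041679))))) (b (a (a (b (a (l 527020559) (l 527875855)) (a (l 528683535) (l 528305679))) (b (l 527129103) (a (l 16644616) (l 16615472)))) (a (b (a (l 16626184) (l 16595848)) (c (l 16588064) (l 16465776))) (b (a (l 16563800) (l 16445920)) (l 16460408))))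 (a (a (b (a (l 16663616) (l 16636216)) (a (l 16624152) (l 16595472))) (b (a (l 16606296) (l 16575456)) (a (l 16564808) (l 16531744)))) (a (b (l 16484704) (l 16480352)) (b (l 16456744) (l 16405992))))))), by decide +kernel⟩

def k3_B40pp_101_s1 : ∃ t, chk3 f_B40pp_101_s1 t 3 1 1 = true :=
  ⟨(b (a (l 3) (l 1)) (b (a (b (a (a (l 3) (b (l 3) (l 522885647))) (a (b (l 1) (l 521402127)) (l 1))) (a (b (a (l 523863823) (l 523358479)) (a (l 524019983) (b (l 523713039) (l 523951375)))) (a (b (l 522981647) (l 523494415)) (b (l 522965519) (l 523366159))))) (a (b (l 1) (a (b (l 1) (l 404296318503)) (l 1))) (l 1))) (a (b (a (b (a (b (a (l 524791311) (l 524536591)) (a (l 525074447) (l 16511296))) (b (l 524198927) (l 524474383))) (a (a (l 525553679) (l 525283599)) (b (l 16326736) (l 16362800)))) (b (a (b (l 523866895) (l 16384544)) (l 523858703)) (a (b (l 16335520) (l 16369880)) (l 16151656)))) (a (b (a (b (l 525088527) (l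 16428912)) (b (l 16230984) (l 16266256))) (a (b (l 16297248) (l 16244256)) (b (l 16300784) (l 16164784)))) (b (a (b (l 16319744) (l 16269400)) (l 16048520)) (a (b (l 16218720) (l 16167968)) (b (l 16135872) (l 16087160)))))) (b (a (b (a (l 523885839) (l 16115896)) (a (l 16163520) (l 16179672))) (b (l 1) (a (l 16116120) (l 1)))) (a (b (b (l 15881160) (l 15910736)) (a (l 15785752) (l 6))) (b (b (l 16004688) (l 6)) (l 6))))))), by decide +kernel⟩

theorem t4_B40pp_101_s1 : ∃ t, chk3 f_B40pp_101_s1 t 2 3 1 = true := ex3_a k1_B40pp_101_s1 k2_B40pp_101_s1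

theorem t5_B40pp_101_s1 : ∃ t, chk3 f_B40pp_101_s1 t 2 1 1 = true := ex3_b k0_B40pp_101_s1 t4_B40pp_101_s1

theorem t6_B40pp_101_s1 : ∃ t, chk3 f_B40pp_101_s1 t 1 1 1 = true := ex3_a t5_B40pp_101_s1 k3_B40pp_101_s1

theorem c_B40pp_101_s1 : CertF 536870912 536870912 536870912 536870912 966367641 24778659 false true true .npn 1 0 1
    ndB4q1 ndB0q1 pcB0 cut_B40pp_101_s1 xt_B40pp_101_s1 :=
  certF2 (fam := false) (s1 := true) (s2 := true) (a := 1) (b := 0) (c := 1) (cn := .npn) (n1 := ndB4q1) (n2 := ndB0q1) (pc := pcB0) (cut := cut_B40pp_101_s1) (xt := xt_B40pp_101_s1) (P1 := 536870912) (W1 := 536870912) (P2 := 536870912) (W2 := 536870912) (P3 := 966367641) (W3 := 24778659)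
    rfl (fun _ => rfl) t6_B40pp_101_s1

theorem s_B40pp_101_s1 {κ x : ℝ} (hκ : κ * h0 = ken x) (hx : ((966367641 : ℕ) : ℝ) / S ≤ x)
    (hx' : x ≤ (((966367641 : ℕ) : ℝ) + (24778659 : ℕ)) / S)
    (H : CutB (VFD κ) PP tK tL pcB (Cut.of [[⟨0, 1, 0, 53687091⟩, ⟨1, 0, 0, 53687091⟩, ⟨2, 1, 0, 53687091⟩]]) 1 0 1 4 0 (sgb true) (sgb true) x) :
    AltB (VFD κ) PP tK tL pcB [⟨3, 0, 0, 1449551462⟩] 1 0 1 4 0 (sgb true) (sgb true) x :=
  strip_altBD (m := 1449551462) true rfl hκ (SH.κ0 hκ (SH.hx1 hx).le (SH.hx2 hx').le) (SH.hx1 hx).le (SH.hx2 hx') (covB41).cov (covB01).cov hx hx' c_B40pp_101_s1 H ((okx hx hx').extB (T := tt) (sideB hx hx') hκ rfl rfl (.N 1 true) (.O 1 true) (Or.inl rfl))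

noncomputable def cut_B40pp_102_s1 : Cut := Cut.of [[⟨4, 0, 0, 1449551462⟩], [⟨0, 1, 0, 67108864⟩, ⟨1, 0, 0, 67108864⟩, ⟨2, 1, 0, 67108864⟩]]

noncomputable def f_B40pp_102_s1 : ℕ → ℕ → ℕ → ℕ → Bool := onCell 0 536870912 0 536870912 966367641 24778659
    (rowF 2 false true true .npp 1 0 2 (qsf 536870912 536870912 0 536870912 0) ndB4q1 ndB0q2 pcB0 cut_B40pp_102_s1 Ext.none)

def k0_B40pp_102_s1 : ∃ t, chk3 f_B40pp_102_s1 t 1 1 1 = true :=
  ⟨(a (b (a (l 6) (l 6)) (a (b (a (l 2) (b (l 6) (b (a (a (l 2) (l 125189306903)) (l 6)) (a (a (l 15796400) (l 15815240)) (a (l 15833616) (l 15850728)))))) (a (a (b (l 2) (l 14)) (b (a (b (l 2) (l 14)) (b (a (l 2) (l 15966320)) (a (l 14) (l 16209352)))) (a (l 14) (a (l 14) (a (l 14) (b (l 16386816) (b (l 16558528) (l 16667024)))))))) (b (a (b (a (a (l 15972416) (l 15978184)) (l 15986096)) (a (a (l 16169160) (l 16170592)) (l 16172024))) (b (a (l 15996544) (l 16005672)) (a (l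 16173432) (l 16173552)))) (a (b (a (b (l 16327256) (l 16437384)) (l 16290776)) (b (a (l 16548960) (l 16532768)) (a (l 16653512) (l 16632040)))) (b (a (l 16365832) (l 16355696)) (b (l 16422248) (a (l 16609992) (l 16586656)))))))) (b (a (b (l 6) (a (a (l 15777960) (l 6)) (l 6))) (l 6)) (b (a (a (b (l 15992912) (l 16154912)) (b (l 15967424) (l 16121792))) (b (l 6) (a (l 16080000) (l 16030448)))) (a (b (a (l 16245048) (l 16284208)) (a (b (l 16462744) (l 16547768)) (b (l 16407888) (l 16487568)))) (b (a (l 16231168) (l 16171184)) (a (l 16384536) (l 16314240)))))))) (b (l 6) (b (l 6) (a (b (l 6) (a (b (l 15824760) (c (l 16077272) (l 16073984))) (b (l 6) (a (l 16088184) (l 6))))) (l 6))))), by decide +kernel⟩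

theorem c_B40pp_102_s1 : CertF 536870912 536870912 0 536870912 966367641 24778659 false true true .npp 1 0 2
    ndB4q1 ndB0q2 pcB0 cut_B40pp_102_s1 Ext.none :=
  certF2 (fam := false) (s1 := true) (s2 := true) (a := 1) (b := 0) (c := 2) (cn := .npp) (n1 := ndB4q1) (n2 := ndB0q2) (pc := pcB0) (cut := cut_B40pp_102_s1) (xt := Ext.none) (P1 := 536870912) (W1 := 536870912) (P2 := 0) (W2 := 536870912) (P3 := 966367641) (W3 := 24778659)
    rfl (fun _ => rfl) k0_B40pp_102_s1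

theorem s_B40pp_102_s1 {κ x : ℝ} (hκ : κ * h0 = ken x) (hx : ((966367641 : ℕ) : ℝ) / S ≤ x)
    (hx' : x ≤ (((966367641 : ℕ) : ℝ) + (24778659 : ℕ)) / S)
    (H : CutB (VFD κ) PP tK tL pcB (Cut.of [[⟨0, 1, 0, 67108864⟩, ⟨1, 0, 0, 67108864⟩, ⟨2, 1, 0, 67108864⟩]]) 1 0 2 4 0 (sgb true) (sgb true) x) :
    AltB (VFD κ) PP tK tL pcB [⟨3, 0, 0, 1449551462⟩] 1 0 2 4 0 (sgb true) (sgb true) x :=
  strip_altBD (m := 1449551462) true rfl hκ (SH.κ0 hκ (SH.hx1 hx).le (SH.hx2 hx').le) (SH.hx1 hx).le (SH.hx2 hx') (covB41).cov (covB02).cov hx hx' c_B40pp_102_s1 H (noExt_B)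

noncomputable def cut_B40pp_112_s1 : Cut := Cut.of [[⟨4, 0, 0, 1449551462⟩]]

noncomputable def f_B40pp_112_s1 : ℕ → ℕ → ℕ → ℕ → Bool := onCell 536870912 536870912 0 536870912 966367641 24778659
    (rowF 2 false true true .dn 1 1 2 (qsf 536870912 536870912 0 536870912 1) ndB4q1 ndB0q2 pcB1 cut_B40pp_112_s1 Ext.none)

def k0_B40pp_112_s1 : ∃ t, chk3 f_B40pp_112_s1 t 1 1 1 = true :=
  ⟨(a (l 6) (l 1)), by decide +kernel⟩

theorem c_B40pp_112_s1 : CertF 536870912 536870912 0 536870912 966367641 24778659 false true true .dn 1 1 2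
    ndB4q1 ndB0q2 pcB1 cut_B40pp_112_s1 Ext.none :=
  certF2 (fam := false) (s1 := true) (s2 := true) (a := 1) (b := 1) (c := 2) (cn := .dn) (n1 := ndB4q1) (n2 := ndB0q2) (pc := pcB1) (cut := cut_B40pp_112_s1) (xt := Ext.none) (P1 := 536870912) (W1 := 536870912) (P2 := 0) (W2 := 536870912) (P3 := 966367641) (W3 := 24778659)
    rfl (fun _ => rfl) k0_B40pp_112_s1

theorem s_B40pp_112_s1 {κ x : ℝ} (hκ : κ * h0 = ken x) (hx : ((966367641 : ℕ) : ℝ) / S ≤ x)
    (hx' : x ≤ (((966367641 : ℕ) : ℝ) + (24778659 : ℕ)) / S) :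
    AltB (VFD κ) PP tK tL pcB [⟨3, 0, 0, 1449551462⟩] 1 1 2 4 0 (sgb true) (sgb true) x :=
  strip_altBD (m := 1449551462) true rfl hκ (SH.κ0 hκ (SH.hx1 hx).le (SH.hx2 hx').le) (SH.hx1 hx).le (SH.hx2 hx') (covB41).cov (covB02).cov hx hx' c_B40pp_112_s1 cutB_nil (noExt_B)

noncomputable def cut_B40pp_202_s1 : Cut := Cut.of [[⟨4, 0, 0, 1449551462⟩], [⟨0, 1, 0, 53687091⟩, ⟨1, 0, 0, 53687091⟩, ⟨2, 1, 0, 53687091⟩]]

noncomputable def f_B40pp_202_s1 : ℕ → ℕ → ℕ → ℕ → Bool := onCell 0 536870912 0 536870912 966367641 24778659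
    (rowF 2 false true true .pp 2 0 2 (qsf 1073741824 536870912 0 536870912 0) ndB4q2 ndB0q2 pcB0 cut_B40pp_202_s1 Ext.none)

def k0_B40pp_202_s1 : ∃ t, chk3 f_B40pp_202_s1 t 1 1 1 = true :=
  ⟨(a (b (a (l 6) (l 6)) (a (b (b (a (a (b (l 16183168) (l 16233456)) (a (l 15999000) (b (l 6) (l 6)))) (l 6)) (b (a (a (l 16200152) (a (l 16066536) (a (l 15948464) (b (l 15867408) (l 15890936))))) (a (a (l 15801696) (l 15613640)) (l 6))) (a (a (a (l 16408272) (b (l 16253832) (l 16284216))) (a (b (l 16105592) (l 16128248)) (a (l 15995496) (l 15929304)))) (a (a (l 15852912) (l 15663608)) (l 1))))) (a (a (b (b (a (b (l 16373704) (l 16484528)) (b (l 16309024) (l 16342288))) (b (a (l 16513504) (l 16375712)) (l 14))) (l 14)) (b (a (b (l 16179120) (b (l 16234224) (l 14))) (b (a (l 16066576) (l 15914904)) (a (l 16147264) (l 269004499527)))) (a (l 14) (l 1)))) (a (b (b (a (l 360272238375) (l 1)) (l 1)) (l 1)) (l 1)))) (b (l 1) (l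 1)))) (l 1)), by decide +kernel⟩

theorem c_B40pp_202_s1 : CertF 1073741824 536870912 0 536870912 966367641 24778659 false true true .pp 2 0 2
    ndB4q2 ndB0q2 pcB0 cut_B40pp_202_s1 Ext.none :=
  certF2 (fam := false) (s1 := true) (s2 := true) (a := 2) (b := 0) (c := 2) (cn := .pp) (n1 := ndB4q2) (n2 := ndB0q2) (pc := pcB0) (cut := cut_B40pp_202_s1) (xt := Ext.none) (P1 := 1073741824) (W1 := 536870912) (P2 := 0) (W2 := 536870912) (P3 := 966367641) (W3 := 24778659)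
    rfl (fun _ => rfl) k0_B40pp_202_s1

theorem s_B40pp_202_s1 {κ x : ℝ} (hκ : κ * h0 = ken x) (hx : ((966367641 : ℕ) : ℝ) / S ≤ x)
    (hx' : x ≤ (((966367641 : ℕ) : ℝ) + (24778659 : ℕ)) / S)
    (H : CutB (VFD κ) PP tK tL pcB (Cut.of [[⟨0, 1, 0, 53687091⟩, ⟨1, 0, 0, 53687091⟩, ⟨2, 1, 0, 53687091⟩]]) 2 0 2 4 0 (sgb true) (sgb true) x) :
    AltB (VFD κ) PP tK tL pcB [⟨3, 0, 0, 1449551462⟩] 2 0 2 4 0 (sgb true) (sgb true) x :=
  strip_altBD (m := 1449551462) true rfl hκ (SH.κ0 hκ (SH.hx1 hx).le (SH.hx2 hx').le) (SH.hx1 hx).le (SH.hx2 hx') (covB42).cov (covB02).cov hx hx' c_B40pp_202_s1 H (noExt_B)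

noncomputable def cut_B40pm_001_s1 : Cut := Cut.of [[⟨4, 0, 0, 1449551462⟩]]

noncomputable def f_B40pm_001_s1 : ℕ → ℕ → ℕ → ℕ → Bool := onCell 0 536870912 536870912 536870912 966367641 24778659
    (rowF 0 false true false .up 0 0 1 (qsf 0 536870912 536870912 536870912 0) ndB4q0 ndB0q1 pcB0 cut_B40pm_001_s1 Ext.none)

def k0_B40pm_001_s1 : ∃ t, chk3 f_B40pm_001_s1 t 1 1 1 = true :=
  ⟨(l 4), by decide +kernel⟩

theorem c_B40pm_001_s1 : CertF 0 536870912 536870912 536870912 966367641 24778659 false true false .up 0 0 1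
    ndB4q0 ndB0q1 pcB0 cut_B40pm_001_s1 Ext.none :=
  certF0 (fam := false) (s1 := true) (s2 := false) (a := 0) (b := 0) (c := 1) (cn := .up) (n1 := ndB4q0) (n2 := ndB0q1) (pc := pcB0) (cut := cut_B40pm_001_s1) (xt := Ext.none) (P1 := 0) (W1 := 536870912) (P2 := 536870912) (W2 := 536870912) (P3 := 966367641) (W3 := 24778659)
    rfl k0_B40pm_001_s1

theorem s_B40pm_001_s1 {κ x : ℝ} (hκ : κ * h0 = ken x) (hx : ((966367641 : ℕ) : ℝ) / S ≤ x)
    (hx' : x ≤ (((966367641 : ℕ) : ℝ) + (24778659 : ℕ)) / S) :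
    AltB (VFD κ) PP tK tL pcB [⟨3, 0, 0, 1449551462⟩] 0 0 1 4 0 (sgb true) (sgb false) x :=
  strip_altBD (m := 1449551462) true rfl hκ (SH.κ0 hκ (SH.hx1 hx).le (SH.hx2 hx').le) (SH.hx1 hx).le (SH.hx2 hx') (covB40).cov (covB01).cov hx hx' c_B40pm_001_s1 cutB_nil (noExt_B)

noncomputable def cut_B40pm_011_s1 : Cut := Cut.of [[⟨4, 0, 0, 1449551462⟩]]

noncomputable def f_B40pm_011_s1 : ℕ → ℕ → ℕ → ℕ → Bool := onCell 0 536870912 536870912 536870912 966367641 24778659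
    (rowF 0 false true false .pnn 0 1 1 (qsf 0 536870912 536870912 536870912 1) ndB4q0 ndB0q1 pcB1 cut_B40pm_011_s1 Ext.none)

def k0_B40pm_011_s1 : ∃ t, chk3 f_B40pm_011_s1 t 1 1 1 = true :=
  ⟨(l 4), by decide +kernel⟩

theorem c_B40pm_011_s1 : CertF 0 536870912 536870912 536870912 966367641 24778659 false true false .pnn 0 1 1
    ndB4q0 ndB0q1 pcB1 cut_B40pm_011_s1 Ext.none :=
  certF0 (fam := false) (s1 := true) (s2 := false) (a := 0) (b := 1) (c := 1) (cn := .pnn) (n1 := ndB4q0) (n2 := ndB0q1) (pc := pcB1) (cut := cut_B40pm_011_s1) (xt := Ext.none) (P1 := 0) (W1 := 536870912) (P2 := 536870912) (W2 := 536870912) (P3 := 966367641) (W3 := 24778659)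
    rfl k0_B40pm_011_s1

theorem s_B40pm_011_s1 {κ x : ℝ} (hκ : κ * h0 = ken x) (hx : ((966367641 : ℕ) : ℝ) / S ≤ x)
    (hx' : x ≤ (((966367641 : ℕ) : ℝ) + (24778659 : ℕ)) / S) :
    AltB (VFD κ) PP tK tL pcB [⟨3, 0, 0, 1449551462⟩] 0 1 1 4 0 (sgb true) (sgb false) x :=
  strip_altBD (m := 1449551462) true rfl hκ (SH.κ0 hκ (SH.hx1 hx).le (SH.hx2 hx').le) (SH.hx1 hx).le (SH.hx2 hx') (covB40).cov (covB01).cov hx hx' c_B40pm_011_s1 cutB_nil (noExt_B)

noncomputable def cut_B40pm_012_s1 : Cut := Cut.of [[⟨4, 0, 0, 1449551462⟩]]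

noncomputable def f_B40pm_012_s1 : ℕ → ℕ → ℕ → ℕ → Bool := onCell 0 536870912 0 536870912 966367641 24778659
    (rowF 0 false true false .pnp 0 1 2 (qsf 0 536870912 0 536870912 1) ndB4q0 ndB0q2 pcB1 cut_B40pm_012_s1 Ext.none)

def k0_B40pm_012_s1 : ∃ t, chk3 f_B40pm_012_s1 t 1 1 1 = true :=
  ⟨(l 6), by decide +kernel⟩

theorem c_B40pm_012_s1 : CertF 0 536870912 0 536870912 966367641 24778659 false true false .pnp 0 1 2
    ndB4q0 ndB0q2 pcB1 cut_B40pm_012_s1 Ext.none :=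
  certF0 (fam := false) (s1 := true) (s2 := false) (a := 0) (b := 1) (c := 2) (cn := .pnp) (n1 := ndB4q0) (n2 := ndB0q2) (pc := pcB1) (cut := cut_B40pm_012_s1) (xt := Ext.none) (P1 := 0) (W1 := 536870912) (P2 := 0) (W2 := 536870912) (P3 := 966367641) (W3 := 24778659)
    rfl k0_B40pm_012_s1

theorem s_B40pm_012_s1 {κ x : ℝ} (hκ : κ * h0 = ken x) (hx : ((966367641 : ℕ) : ℝ) / S ≤ x)
    (hx' : x ≤ (((966367641 : ℕ) : ℝ) + (24778659 : ℕ)) / S) :
    AltB (VFD κ) PP tK tL pcB [⟨3, 0, 0, 1449551462⟩] 0 1 2 4 0 (sgb true) (sgb false) x :=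
  strip_altBD (m := 1449551462) true rfl hκ (SH.κ0 hκ (SH.hx1 hx).le (SH.hx2 hx').le) (SH.hx1 hx).le (SH.hx2 hx') (covB40).cov (covB02).cov hx hx' c_B40pm_012_s1 cutB_nil (noExt_B)

noncomputable def cut_B40pm_022_s1 : Cut := Cut.of [[⟨4, 0, 0, 1449551462⟩]]

noncomputable def f_B40pm_022_s1 : ℕ → ℕ → ℕ → ℕ → Bool := onCell 0 536870912 0 536870912 966367641 24778659
    (rowF 0 false true false .pp 0 2 2 (qsf 0 536870912 0 536870912 2) ndB4q0 ndB0q2 pcB2 cut_B40pm_022_s1 Ext.none)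

def k0_B40pm_022_s1 : ∃ t, chk3 f_B40pm_022_s1 t 1 1 1 = true :=
  ⟨(l 6), by decide +kernel⟩

theorem c_B40pm_022_s1 : CertF 0 536870912 0 536870912 966367641 24778659 false true false .pp 0 2 2
    ndB4q0 ndB0q2 pcB2 cut_B40pm_022_s1 Ext.none :=
  certF0 (fam := false) (s1 := true) (s2 := false) (a := 0) (b := 2) (c := 2) (cn := .pp) (n1 := ndB4q0) (n2 := ndB0q2) (pc := pcB2) (cut := cut_B40pm_022_s1) (xt := Ext.none) (P1 := 0) (W1 := 536870912) (P2 := 0) (W2 := 536870912) (P3 := 966367641) (W3 := 24778659)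
    rfl k0_B40pm_022_s1

theorem s_B40pm_022_s1 {κ x : ℝ} (hκ : κ * h0 = ken x) (hx : ((966367641 : ℕ) : ℝ) / S ≤ x)
    (hx' : x ≤ (((966367641 : ℕ) : ℝ) + (24778659 : ℕ)) / S) :
    AltB (VFD κ) PP tK tL pcB [⟨3, 0, 0, 1449551462⟩] 0 2 2 4 0 (sgb true) (sgb false) x :=
  strip_altBD (m := 1449551462) true rfl hκ (SH.κ0 hκ (SH.hx1 hx).le (SH.hx2 hx').le) (SH.hx1 hx).le (SH.hx2 hx') (covB40).cov (covB02).cov hx hx' c_B40pm_022_s1 cutB_nil (noExt_B)

noncomputable def cut_B40pm_101_s1 : Cut := Cut.of [[⟨4, 0, 0, 1449551462⟩]]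

noncomputable def f_B40pm_101_s1 : ℕ → ℕ → ℕ → ℕ → Bool := onCell 536870912 536870912 536870912 536870912 966367641 24778659
    (rowF 0 false true false .npn 1 0 1 (qsf 536870912 536870912 536870912 536870912 0) ndB4q1 ndB0q1 pcB0 cut_B40pm_101_s1 Ext.none)

def k0_B40pm_101_s1 : ∃ t, chk3 f_B40pm_101_s1 t 1 1 1 = true :=
  ⟨(l 4), by decide +kernel⟩

theorem c_B40pm_101_s1 : CertF 536870912 536870912 536870912 536870912 966367641 24778659 false true false .npn 1 0 1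
    ndB4q1 ndB0q1 pcB0 cut_B40pm_101_s1 Ext.none :=
  certF0 (fam := false) (s1 := true) (s2 := false) (a := 1) (b := 0) (c := 1) (cn := .npn) (n1 := ndB4q1) (n2 := ndB0q1) (pc := pcB0) (cut := cut_B40pm_101_s1) (xt := Ext.none) (P1 := 536870912) (W1 := 536870912) (P2 := 536870912) (W2 := 536870912) (P3 := 966367641) (W3 := 24778659)
    rfl k0_B40pm_101_s1

theorem s_B40pm_101_s1 {κ x : ℝ} (hκ : κ * h0 = ken x) (hx : ((966367641 : ℕ) : ℝ) / S ≤ x)
    (hx' : x ≤ (((966367641 : ℕ) : ℝ) + (24778659 : ℕ)) / S) :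
    AltB (VFD κ) PP tK tL pcB [⟨3, 0, 0, 1449551462⟩] 1 0 1 4 0 (sgb true) (sgb false) x :=
  strip_altBD (m := 1449551462) true rfl hκ (SH.κ0 hκ (SH.hx1 hx).le (SH.hx2 hx').le) (SH.hx1 hx).le (SH.hx2 hx') (covB41).cov (covB01).cov hx hx' c_B40pm_101_s1 cutB_nil (noExt_B)

noncomputable def cut_B40pm_102_s1 : Cut := Cut.of [[⟨4, 0, 0, 1449551462⟩]]

noncomputable def f_B40pm_102_s1 : ℕ → ℕ → ℕ → ℕ → Bool := onCell 536870912 536870912 0 536870912 966367641 24778659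
    (rowF 0 false true false .npp 1 0 2 (qsf 536870912 536870912 0 536870912 0) ndB4q1 ndB0q2 pcB0 cut_B40pm_102_s1 Ext.none)

def k0_B40pm_102_s1 : ∃ t, chk3 f_B40pm_102_s1 t 1 1 1 = true :=
  ⟨(l 6), by decide +kernel⟩

theorem c_B40pm_102_s1 : CertF 536870912 536870912 0 536870912 966367641 24778659 false true false .npp 1 0 2
    ndB4q1 ndB0q2 pcB0 cut_B40pm_102_s1 Ext.none :=
  certF0 (fam := false) (s1 := true) (s2 := false) (a := 1) (b := 0) (c := 2) (cn := .npp) (n1 := ndB4q1) (n2 := ndB0q2) (pc := pcB0) (cut := cut_B40pm_102_s1) (xt := Ext.none) (P1 := 536870912) (W1 := 536870912) (P2 := 0) (W2 := 536870912) (P3 := 966367641) (W3 := 24778659)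
    rfl k0_B40pm_102_s1

theorem s_B40pm_102_s1 {κ x : ℝ} (hκ : κ * h0 = ken x) (hx : ((966367641 : ℕ) : ℝ) / S ≤ x)
    (hx' : x ≤ (((966367641 : ℕ) : ℝ) + (24778659 : ℕ)) / S) :
    AltB (VFD κ) PP tK tL pcB [⟨3, 0, 0, 1449551462⟩] 1 0 2 4 0 (sgb true) (sgb false) x :=
  strip_altBD (m := 1449551462) true rfl hκ (SH.κ0 hκ (SH.hx1 hx).le (SH.hx2 hx').le) (SH.hx1 hx).le (SH.hx2 hx') (covB41).cov (covB02).cov hx hx' c_B40pm_102_s1 cutB_nil (noExt_B)

noncomputable def cut_B40pm_112_s1 : Cut := Cut.of [[⟨4, 0, 0, 1449551462⟩]]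

noncomputable def f_B40pm_112_s1 : ℕ → ℕ → ℕ → ℕ → Bool := onCell 536870912 536870912 0 536870912 966367641 24778659
    (rowF 0 false true false .dn 1 1 2 (qsf 536870912 536870912 0 536870912 1) ndB4q1 ndB0q2 pcB1 cut_B40pm_112_s1 Ext.none)

def k0_B40pm_112_s1 : ∃ t, chk3 f_B40pm_112_s1 t 1 1 1 = true :=
  ⟨(l 6), by decide +kernel⟩

theorem c_B40pm_112_s1 : CertF 536870912 536870912 0 536870912 966367641 24778659 false true false .dn 1 1 2
    ndB4q1 ndB0q2 pcB1 cut_B40pm_112_s1 Ext.none :=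
  certF0 (fam := false) (s1 := true) (s2 := false) (a := 1) (b := 1) (c := 2) (cn := .dn) (n1 := ndB4q1) (n2 := ndB0q2) (pc := pcB1) (cut := cut_B40pm_112_s1) (xt := Ext.none) (P1 := 536870912) (W1 := 536870912) (P2 := 0) (W2 := 536870912) (P3 := 966367641) (W3 := 24778659)
    rfl k0_B40pm_112_s1

theorem s_B40pm_112_s1 {κ x : ℝ} (hκ : κ * h0 = ken x) (hx : ((966367641 : ℕ) : ℝ) / S ≤ x)
    (hx' : x ≤ (((966367641 : ℕ) : ℝ) + (24778659 : ℕ)) / S) :
    AltB (VFD κ) PP tK tL pcB [⟨3, 0, 0, 1449551462⟩] 1 1 2 4 0 (sgb true) (sgb false) x :=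
  strip_altBD (m := 1449551462) true rfl hκ (SH.κ0 hκ (SH.hx1 hx).le (SH.hx2 hx').le) (SH.hx1 hx).le (SH.hx2 hx') (covB41).cov (covB02).cov hx hx' c_B40pm_112_s1 cutB_nil (noExt_B)

noncomputable def cut_B40pm_202_s1 : Cut := Cut.of [[⟨4, 0, 0, 1449551462⟩]]

noncomputable def f_B40pm_202_s1 : ℕ → ℕ → ℕ → ℕ → Bool := onCell 0 536870912 0 536870912 966367641 24778659
    (rowF 2 false true false .pp 2 0 2 (qsf 1073741824 536870912 0 536870912 0) ndB4q2 ndB0q2 pcB0 cut_B40pm_202_s1 Ext.none)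

def k0_B40pm_202_s1 : ∃ t, chk3 f_B40pm_202_s1 t 1 1 1 = true :=
  ⟨(l 6), by decide +kernel⟩

theorem c_B40pm_202_s1 : CertF 1073741824 536870912 0 536870912 966367641 24778659 false true false .pp 2 0 2
    ndB4q2 ndB0q2 pcB0 cut_B40pm_202_s1 Ext.none :=
  certF2 (fam := false) (s1 := true) (s2 := false) (a := 2) (b := 0) (c := 2) (cn := .pp) (n1 := ndB4q2) (n2 := ndB0q2) (pc := pcB0) (cut := cut_B40pm_202_s1) (xt := Ext.none) (P1 := 1073741824) (W1 := 536870912) (P2 := 0) (W2 := 536870912) (P3 := 966367641) (W3 := 24778659)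
    rfl (fun _ => rfl) k0_B40pm_202_s1

theorem s_B40pm_202_s1 {κ x : ℝ} (hκ : κ * h0 = ken x) (hx : ((966367641 : ℕ) : ℝ) / S ≤ x)
    (hx' : x ≤ (((966367641 : ℕ) : ℝ) + (24778659 : ℕ)) / S) :
    AltB (VFD κ) PP tK tL pcB [⟨3, 0, 0, 1449551462⟩] 2 0 2 4 0 (sgb true) (sgb false) x :=
  strip_altBD (m := 1449551462) true rfl hκ (SH.κ0 hκ (SH.hx1 hx).le (SH.hx2 hx').le) (SH.hx1 hx).le (SH.hx2 hx') (covB42).cov (covB02).cov hx hx' c_B40pm_202_s1 cutB_nil (noExt_B)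

noncomputable def cut_B40mm_001_s1 : Cut := Cut.of [[⟨4, 0, 0, 1449551462⟩]]

noncomputable def f_B40mm_001_s1 : ℕ → ℕ → ℕ → ℕ → Bool := onCell 0 536870912 536870912 536870912 966367641 24778659
    (rowF 0 false false false .up 0 0 1 (qsf 0 536870912 536870912 536870912 0) ndB4q0 ndB0q1 pcB0 cut_B40mm_001_s1 Ext.none)

def k0_B40mm_001_s1 : ∃ t, chk3 f_B40mm_001_s1 t 1 1 1 = true :=
  ⟨(l 5), by decide +kernel⟩

theorem c_B40mm_001_s1 : CertF 0 536870912 536870912 536870912 966367641 24778659 false false false .up 0 0 1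
    ndB4q0 ndB0q1 pcB0 cut_B40mm_001_s1 Ext.none :=
  certF0 (fam := false) (s1 := false) (s2 := false) (a := 0) (b := 0) (c := 1) (cn := .up) (n1 := ndB4q0) (n2 := ndB0q1) (pc := pcB0) (cut := cut_B40mm_001_s1) (xt := Ext.none) (P1 := 0) (W1 := 536870912) (P2 := 536870912) (W2 := 536870912) (P3 := 966367641) (W3 := 24778659)
    rfl k0_B40mm_001_s1

theorem s_B40mm_001_s1 {κ x : ℝ} (hκ : κ * h0 = ken x) (hx : ((966367641 : ℕ) : ℝ) / S ≤ x)
    (hx' : x ≤ (((966367641 : ℕ) : ℝ) + (24778659 : ℕ)) / S) :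
    AltB (VFD κ) PP tK tL pcB [⟨3, 0, 0, 1449551462⟩] 0 0 1 4 0 (sgb false) (sgb false) x :=
  strip_altBD (m := 1449551462) true rfl hκ (SH.κ0 hκ (SH.hx1 hx).le (SH.hx2 hx').le) (SH.hx1 hx).le (SH.hx2 hx') (covB40).cov (covB01).cov hx hx' c_B40mm_001_s1 cutB_nil (noExt_B)

noncomputable def cut_B40mm_011_s1 : Cut := Cut.of [[⟨4, 0, 0, 1449551462⟩]]

noncomputable def f_B40mm_011_s1 : ℕ → ℕ → ℕ → ℕ → Bool := onCell 0 536870912 536870912 536870912 966367641 24778659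
    (rowF 0 false false false .pnn 0 1 1 (qsf 0 536870912 536870912 536870912 1) ndB4q0 ndB0q1 pcB1 cut_B40mm_011_s1 Ext.none)

def k0_B40mm_011_s1 : ∃ t, chk3 f_B40mm_011_s1 t 1 1 1 = true :=
  ⟨(l 5), by decide +kernel⟩

theorem c_B40mm_011_s1 : CertF 0 536870912 536870912 536870912 966367641 24778659 false false false .pnn 0 1 1
    ndB4q0 ndB0q1 pcB1 cut_B40mm_011_s1 Ext.none :=
  certF0 (fam := false) (s1 := false) (s2 := false) (a := 0) (b := 1) (c := 1) (cn := .pnn) (n1 := ndB4q0) (n2 := ndB0q1) (pc := pcB1) (cut := cut_B40mm_011_s1) (xt := Ext.none) (P1 := 0) (W1 := 536870912) (P2 := 536870912) (W2 := 536870912) (P3 := 966367641) (W3 := 24778659)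
    rfl k0_B40mm_011_s1

theorem s_B40mm_011_s1 {κ x : ℝ} (hκ : κ * h0 = ken x) (hx : ((966367641 : ℕ) : ℝ) / S ≤ x)
    (hx' : x ≤ (((966367641 : ℕ) : ℝ) + (24778659 : ℕ)) / S) :
    AltB (VFD κ) PP tK tL pcB [⟨3, 0, 0, 1449551462⟩] 0 1 1 4 0 (sgb false) (sgb false) x :=
  strip_altBD (m := 1449551462) true rfl hκ (SH.κ0 hκ (SH.hx1 hx).le (SH.hx2 hx').le) (SH.hx1 hx).le (SH.hx2 hx') (covB40).cov (covB01).cov hx hx' c_B40mm_011_s1 cutB_nil (noExt_B)

noncomputable def cut_B40mm_012_s1 : Cut := Cut.of [[⟨4, 0, 0, 1449551462⟩]]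

noncomputable def f_B40mm_012_s1 : ℕ → ℕ → ℕ → ℕ → Bool := onCell 0 536870912 0 536870912 966367641 24778659
    (rowF 0 false false false .pnp 0 1 2 (qsf 0 536870912 0 536870912 1) ndB4q0 ndB0q2 pcB1 cut_B40mm_012_s1 Ext.none)

def k0_B40mm_012_s1 : ∃ t, chk3 f_B40mm_012_s1 t 1 1 1 = true :=
  ⟨(l 5), by decide +kernel⟩

theorem c_B40mm_012_s1 : CertF 0 536870912 0 536870912 966367641 24778659 false false false .pnp 0 1 2
    ndB4q0 ndB0q2 pcB1 cut_B40mm_012_s1 Ext.none :=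
  certF0 (fam := false) (s1 := false) (s2 := false) (a := 0) (b := 1) (c := 2) (cn := .pnp) (n1 := ndB4q0) (n2 := ndB0q2) (pc := pcB1) (cut := cut_B40mm_012_s1) (xt := Ext.none) (P1 := 0) (W1 := 536870912) (P2 := 0) (W2 := 536870912) (P3 := 966367641) (W3 := 24778659)
    rfl k0_B40mm_012_s1

theorem s_B40mm_012_s1 {κ x : ℝ} (hκ : κ * h0 = ken x) (hx : ((966367641 : ℕ) : ℝ) / S ≤ x)
    (hx' : x ≤ (((966367641 : ℕ) : ℝ) + (24778659 : ℕ)) / S) :
    AltB (VFD κ) PP tK tL pcB [⟨3, 0, 0, 1449551462⟩] 0 1 2 4 0 (sgb false) (sgb false) x :=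
  strip_altBD (m := 1449551462) true rfl hκ (SH.κ0 hκ (SH.hx1 hx).le (SH.hx2 hx').le) (SH.hx1 hx).le (SH.hx2 hx') (covB40).cov (covB02).cov hx hx' c_B40mm_012_s1 cutB_nil (noExt_B)

noncomputable def cut_B40mm_022_s1 : Cut := Cut.of [[⟨4, 0, 0, 1449551462⟩]]

noncomputable def f_B40mm_022_s1 : ℕ → ℕ → ℕ → ℕ → Bool := onCell 0 536870912 0 536870912 966367641 24778659
    (rowF 0 false false false .pp 0 2 2 (qsf 0 536870912 0 536870912 2) ndB4q0 ndB0q2 pcB2 cut_B40mm_022_s1 Ext.none)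

def k0_B40mm_022_s1 : ∃ t, chk3 f_B40mm_022_s1 t 1 1 1 = true :=
  ⟨(l 5), by decide +kernel⟩

theorem c_B40mm_022_s1 : CertF 0 536870912 0 536870912 966367641 24778659 false false false .pp 0 2 2
    ndB4q0 ndB0q2 pcB2 cut_B40mm_022_s1 Ext.none :=
  certF0 (fam := false) (s1 := false) (s2 := false) (a := 0) (b := 2) (c := 2) (cn := .pp) (n1 := ndB4q0) (n2 := ndB0q2) (pc := pcB2) (cut := cut_B40mm_022_s1) (xt := Ext.none) (P1 := 0) (W1 := 536870912) (P2 := 0) (W2 := 536870912) (P3 := 966367641) (W3 := 24778659)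
    rfl k0_B40mm_022_s1

theorem s_B40mm_022_s1 {κ x : ℝ} (hκ : κ * h0 = ken x) (hx : ((966367641 : ℕ) : ℝ) / S ≤ x)
    (hx' : x ≤ (((966367641 : ℕ) : ℝ) + (24778659 : ℕ)) / S) :
    AltB (VFD κ) PP tK tL pcB [⟨3, 0, 0, 1449551462⟩] 0 2 2 4 0 (sgb false) (sgb false) x :=
  strip_altBD (m := 1449551462) true rfl hκ (SH.κ0 hκ (SH.hx1 hx).le (SH.hx2 hx').le) (SH.hx1 hx).le (SH.hx2 hx') (covB40).cov (covB02).cov hx hx' c_B40mm_022_s1 cutB_nil (noExt_B)

noncomputable def cut_B40mm_101_s1 : Cut := Cut.of [[⟨4, 0, 0, 1449551462⟩]]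

noncomputable def f_B40mm_101_s1 : ℕ → ℕ → ℕ → ℕ → Bool := onCell 0 536870912 536870912 536870912 966367641 24778659
    (rowF 2 false false false .npn 1 0 1 (qsf 536870912 536870912 536870912 536870912 0) ndB4q1 ndB0q1 pcB0 cut_B40mm_101_s1 Ext.none)

def k0_B40mm_101_s1 : ∃ t, chk3 f_B40mm_101_s1 t 1 1 1 = true :=
  ⟨(l 5), by decide +kernel⟩

theorem c_B40mm_101_s1 : CertF 536870912 536870912 536870912 536870912 966367641 24778659 false false false .npn 1 0 1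
    ndB4q1 ndB0q1 pcB0 cut_B40mm_101_s1 Ext.none :=
  certF2 (fam := false) (s1 := false) (s2 := false) (a := 1) (b := 0) (c := 1) (cn := .npn) (n1 := ndB4q1) (n2 := ndB0q1) (pc := pcB0) (cut := cut_B40mm_101_s1) (xt := Ext.none) (P1 := 536870912) (W1 := 536870912) (P2 := 536870912) (W2 := 536870912) (P3 := 966367641) (W3 := 24778659)
    rfl (fun _ => rfl) k0_B40mm_101_s1

theorem s_B40mm_101_s1 {κ x : ℝ} (hκ : κ * h0 = ken x) (hx : ((966367641 : ℕ) : ℝ) / S ≤ x)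
    (hx' : x ≤ (((966367641 : ℕ) : ℝ) + (24778659 : ℕ)) / S) :
    AltB (VFD κ) PP tK tL pcB [⟨3, 0, 0, 1449551462⟩] 1 0 1 4 0 (sgb false) (sgb false) x :=
  strip_altBD (m := 1449551462) true rfl hκ (SH.κ0 hκ (SH.hx1 hx).le (SH.hx2 hx').le) (SH.hx1 hx).le (SH.hx2 hx') (covB41).cov (covB01).cov hx hx' c_B40mm_101_s1 cutB_nil (noExt_B)

noncomputable def cut_B40mm_102_s1 : Cut := Cut.of [[⟨4, 0, 0, 1449551462⟩]]

noncomputable def f_B40mm_102_s1 : ℕ → ℕ → ℕ → ℕ → Bool := onCell 536870912 536870912 0 536870912 966367641 24778659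
    (rowF 0 false false false .npp 1 0 2 (qsf 536870912 536870912 0 536870912 0) ndB4q1 ndB0q2 pcB0 cut_B40mm_102_s1 Ext.none)

def k0_B40mm_102_s1 : ∃ t, chk3 f_B40mm_102_s1 t 1 1 1 = true :=
  ⟨(l 5), by decide +kernel⟩

theorem c_B40mm_102_s1 : CertF 536870912 536870912 0 536870912 966367641 24778659 false false false .npp 1 0 2
    ndB4q1 ndB0q2 pcB0 cut_B40mm_102_s1 Ext.none :=
  certF0 (fam := false) (s1 := false) (s2 := false) (a := 1) (b := 0) (c := 2) (cn := .npp) (n1 := ndB4q1) (n2 := ndB0q2) (pc := pcB0) (cut := cut_B40mm_102_s1) (xt := Ext.none) (P1 := 536870912) (W1 := 536870912) (P2 := 0) (W2 := 536870912) (P3 := 966367641) (W3 := 24778659)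
    rfl k0_B40mm_102_s1

theorem s_B40mm_102_s1 {κ x : ℝ} (hκ : κ * h0 = ken x) (hx : ((966367641 : ℕ) : ℝ) / S ≤ x)
    (hx' : x ≤ (((966367641 : ℕ) : ℝ) + (24778659 : ℕ)) / S) :
    AltB (VFD κ) PP tK tL pcB [⟨3, 0, 0, 1449551462⟩] 1 0 2 4 0 (sgb false) (sgb false) x :=
  strip_altBD (m := 1449551462) true rfl hκ (SH.κ0 hκ (SH.hx1 hx).le (SH.hx2 hx').le) (SH.hx1 hx).le (SH.hx2 hx') (covB41).cov (covB02).cov hx hx' c_B40mm_102_s1 cutB_nil (noExt_B)

noncomputable def cut_B40mm_112_s1 : Cut := Cut.of [[⟨4, 0, 0, 1449551462⟩]]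

noncomputable def f_B40mm_112_s1 : ℕ → ℕ → ℕ → ℕ → Bool := onCell 536870912 536870912 0 536870912 966367641 24778659
    (rowF 0 false false false .dn 1 1 2 (qsf 536870912 536870912 0 536870912 1) ndB4q1 ndB0q2 pcB1 cut_B40mm_112_s1 Ext.none)

def k0_B40mm_112_s1 : ∃ t, chk3 f_B40mm_112_s1 t 1 1 1 = true :=
  ⟨(l 5), by decide +kernel⟩

theorem c_B40mm_112_s1 : CertF 536870912 536870912 0 536870912 966367641 24778659 false false false .dn 1 1 2
    ndB4q1 ndB0q2 pcB1 cut_B40mm_112_s1 Ext.none :=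
  certF0 (fam := false) (s1 := false) (s2 := false) (a := 1) (b := 1) (c := 2) (cn := .dn) (n1 := ndB4q1) (n2 := ndB0q2) (pc := pcB1) (cut := cut_B40mm_112_s1) (xt := Ext.none) (P1 := 536870912) (W1 := 536870912) (P2 := 0) (W2 := 536870912) (P3 := 966367641) (W3 := 24778659)
    rfl k0_B40mm_112_s1

theorem s_B40mm_112_s1 {κ x : ℝ} (hκ : κ * h0 = ken x) (hx : ((966367641 : ℕ) : ℝ) / S ≤ x)
    (hx' : x ≤ (((966367641 : ℕ) : ℝ) + (24778659 : ℕ)) / S) :
    AltB (VFD κ) PP tK tL pcB [⟨3, 0, 0, 1449551462⟩] 1 1 2 4 0 (sgb false) (sgb false) x :=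
  strip_altBD (m := 1449551462) true rfl hκ (SH.κ0 hκ (SH.hx1 hx).le (SH.hx2 hx').le) (SH.hx1 hx).le (SH.hx2 hx') (covB41).cov (covB02).cov hx hx' c_B40mm_112_s1 cutB_nil (noExt_B)

noncomputable def cut_B40mm_202_s1 : Cut := Cut.of [[⟨4, 0, 0, 1449551462⟩]]

noncomputable def f_B40mm_202_s1 : ℕ → ℕ → ℕ → ℕ → Bool := onCell 1073741824 536870912 0 536870912 966367641 24778659
    (rowF 0 false false false .pp 2 0 2 (qsf 1073741824 536870912 0 536870912 0) ndB4q2 ndB0q2 pcB0 cut_B40mm_202_s1 Ext.none)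

def k0_B40mm_202_s1 : ∃ t, chk3 f_B40mm_202_s1 t 1 1 1 = true :=
  ⟨(l 5), by decide +kernel⟩

theorem c_B40mm_202_s1 : CertF 1073741824 536870912 0 536870912 966367641 24778659 false false false .pp 2 0 2
    ndB4q2 ndB0q2 pcB0 cut_B40mm_202_s1 Ext.none :=
  certF0 (fam := false) (s1 := false) (s2 := false) (a := 2) (b := 0) (c := 2) (cn := .pp) (n1 := ndB4q2) (n2 := ndB0q2) (pc := pcB0) (cut := cut_B40mm_202_s1) (xt := Ext.none) (P1 := 1073741824) (W1 := 536870912) (P2 := 0) (W2 := 536870912) (P3 := 966367641) (W3 := 24778659)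
    rfl k0_B40mm_202_s1

theorem s_B40mm_202_s1 {κ x : ℝ} (hκ : κ * h0 = ken x) (hx : ((966367641 : ℕ) : ℝ) / S ≤ x)
    (hx' : x ≤ (((966367641 : ℕ) : ℝ) + (24778659 : ℕ)) / S) :
    AltB (VFD κ) PP tK tL pcB [⟨3, 0, 0, 1449551462⟩] 2 0 2 4 0 (sgb false) (sgb false) x :=
  strip_altBD (m := 1449551462) true rfl hκ (SH.κ0 hκ (SH.hx1 hx).le (SH.hx2 hx').le) (SH.hx1 hx).le (SH.hx2 hx') (covB42).cov (covB02).cov hx hx' c_B40mm_202_s1 cutB_nil (noExt_B)

end Pool.Agent.Strip051.G.I9000_9231.Tab.St.C
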