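import Pool.Agent.Strip051.G.I9000_9231.Tab
import Pool.Agent.Strip051.PB.StripB
import Pool.Agent.Strip051.PB.ExtD3

/-! # Strips, near vertex: certificates 3 (generated) -/

set_option linter.all false
set_option maxRecDepth 100000

namespace Pool.Agent.Strip051.G.I9000_9231.Tab.CS.BA00

open Pool.Agent.Strip051.PB Pool.Agent.Strip051.PB.T
open Pool.Agent.Strip051.G.I9000_9231.Tab

noncomputable def cut_mm_213_t : Cut := Cut.of [[⟨3, 0, 0, 2845415833⟩]]

noncomputable def f_mm_213_t : ℕ → ℕ → ℕ → ℕ → Bool := onCell 0 536870912 536870912 536870912 966367641 24778659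
    (rowNE 3 eng mog cd0q2 cd0q1 pd3 0 true false false .pnn 2 1 3 (qsf 0 536870912 536870912 536870912 3) ndB0q2 ndB0q1 pcB3 cut_mm_213_t Ext.none)

def k0_mm_213_t : ∃ t, chk3 f_mm_213_t t 1 1 1 = true :=
  ⟨(a (b (b (b (a (a (b (c (b (c (l 16740472) (l 16729488)) (a (l 16733208) (c (l 16749560) (l 16767648)))) (b (a (l 16680400) (c (l 16742592) (l 16734360))) (a (l 16708384) (c (l 16732792) (l 58753716791))))) (a (c (b (l 16750240) (a (l 16758824) (l 85060396727))) (b (l 16736496) (b (l 16756440) (l 68954274039)))) (b (c (a (l 85597264503) (l 4)) (c (l 95797786151) (l 90429084327))) (l 4)))) (b (a (b (a (a (b (l 16769248) (l 105998506967)) (c (l 95797811943) (l 92576591591))) (l 4)) (l 4)) (l 4)) (l 4))) (l 4)) (a (b (a (a (b (c (a (l 84523528631) (l 4)) (b (l 85060394007) (l 99555894823))) (l 4)) (l 4)) (l 4)) (l 4)) (l 4))) (l 4)) (l 4)) (l 4)), by decide +kernel⟩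

theorem c_mm_213_t : CertNE 0 536870912 536870912 536870912 966367641 24778659 3 eng mog cd0q2 cd0q1 pd3 true false false .pnn 2 1 3
    ndB0q2 ndB0q1 pcB3 cut_mm_213_t Ext.none :=
  certNE0 (fam := true) (s1 := false) (s2 := false) (a := 2) (b := 1) (c := 3) (cn := .pnn) (n1 := ndB0q2) (n2 := ndB0q1) (pc := pcB3) (cut := cut_mm_213_t) (xt := Ext.none) (P1 := 0) (W1 := 536870912) (P2 := 536870912) (W2 := 536870912) (P3 := 966367641) (W3 := 24778659) (N0 := 3) (En := eng) (mo := mog) (C1 := cd0q2) (C2 := cd0q1) (C3 := pd3)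
    rfl k0_mm_213_t

end Pool.Agent.Strip051.G.I9000_9231.Tab.CS.BA00

namespace Pool.Agent.Strip051.G.I9000_9231.Tab.CS.BA04

open Pool.Agent.Strip051.PB Pool.Agent.Strip051.PB.T
open Pool.Agent.Strip051.G.I9000_9231.Tab

noncomputable def cut_pp_001_s : Cut := Cut.of [[⟨4, 0, 0, 1449551462⟩]]

noncomputable def f_pp_001_s : ℕ → ℕ → ℕ → ℕ → Bool := onCell 0 536870912 0 536870912 966367641 24778659
    (rowNE 3 eng mog cd0q0 cd4q0 pd1 0 true true true .up 0 0 1 (qsf 0 536870912 0 536870912 1) ndB0q0 ndB4q0 pcB1 cut_pp_001_s Ext.none)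

def k0_pp_001_s : ∃ t, chk3 f_pp_001_s t 1 1 1 = true :=
  ⟨(l 4), by decide +kernel⟩

theorem c_pp_001_s : CertNE 0 536870912 0 536870912 966367641 24778659 3 eng mog cd0q0 cd4q0 pd1 true true true .up 0 0 1
    ndB0q0 ndB4q0 pcB1 cut_pp_001_s Ext.none :=
  certNE0 (fam := true) (s1 := true) (s2 := true) (a := 0) (b := 0) (c := 1) (cn := .up) (n1 := ndB0q0) (n2 := ndB4q0) (pc := pcB1) (cut := cut_pp_001_s) (xt := Ext.none) (P1 := 0) (W1 := 536870912) (P2 := 0) (W2 := 536870912) (P3 := 966367641) (W3 := 24778659) (N0 := 3) (En := eng) (mo := mog) (C1 := cd0q0) (C2 := cd4q0) (C3 := pd1)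
    rfl k0_pp_001_s

noncomputable def cut_pp_011_s : Cut := Cut.of [[⟨4, 0, 0, 1449551462⟩]]

noncomputable def f_pp_011_s : ℕ → ℕ → ℕ → ℕ → Bool := onCell 0 536870912 536870912 536870912 966367641 24778659
    (rowNE 3 eng mog cd0q0 cd4q1 pd1 0 true true true .pnn 0 1 1 (qsf 0 536870912 536870912 536870912 1) ndB0q0 ndB4q1 pcB1 cut_pp_011_s Ext.none)

def k0_pp_011_s : ∃ t, chk3 f_pp_011_s t 1 1 1 = true :=
  ⟨(l 4), by decide +kernel⟩

theorem c_pp_011_s : CertNE 0 536870912 536870912 536870912 966367641 24778659 3 eng mog cd0q0 cd4q1 pd1 true true true .pnn 0 1 1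
    ndB0q0 ndB4q1 pcB1 cut_pp_011_s Ext.none :=
  certNE0 (fam := true) (s1 := true) (s2 := true) (a := 0) (b := 1) (c := 1) (cn := .pnn) (n1 := ndB0q0) (n2 := ndB4q1) (pc := pcB1) (cut := cut_pp_011_s) (xt := Ext.none) (P1 := 0) (W1 := 536870912) (P2 := 536870912) (W2 := 536870912) (P3 := 966367641) (W3 := 24778659) (N0 := 3) (En := eng) (mo := mog) (C1 := cd0q0) (C2 := cd4q1) (C3 := pd1)
    rfl k0_pp_011_s

noncomputable def cut_pp_012_s : Cut := Cut.of [[⟨4, 0, 0, 1449551462⟩]]

noncomputable def f_pp_012_s : ℕ → ℕ → ℕ → ℕ → Bool := onCell 0 536870912 536870912 536870912 966367641 24778659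
    (rowNE 3 eng mog cd0q0 cd4q1 pd2 0 true true true .pnp 0 1 2 (qsf 0 536870912 536870912 536870912 2) ndB0q0 ndB4q1 pcB2 cut_pp_012_s Ext.none)

def k0_pp_012_s : ∃ t, chk3 f_pp_012_s t 1 1 1 = true :=
  ⟨(l 4), by decide +kernel⟩

theorem c_pp_012_s : CertNE 0 536870912 536870912 536870912 966367641 24778659 3 eng mog cd0q0 cd4q1 pd2 true true true .pnp 0 1 2
    ndB0q0 ndB4q1 pcB2 cut_pp_012_s Ext.none :=
  certNE0 (fam := true) (s1 := true) (s2 := true) (a := 0) (b := 1) (c := 2) (cn := .pnp) (n1 := ndB0q0) (n2 := ndB4q1) (pc := pcB2) (cut := cut_pp_012_s) (xt := Ext.none) (P1 := 0) (W1 := 536870912) (P2 := 536870912) (W2 := 536870912) (P3 := 966367641) (W3 := 24778659) (N0 := 3) (En := eng) (mo := mog) (C1 := cd0q0) (C2 := cd4q1) (C3 := pd2)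
    rfl k0_pp_012_s

noncomputable def cut_pp_022_s : Cut := Cut.of [[⟨4, 0, 0, 1449551462⟩]]

noncomputable def f_pp_022_s : ℕ → ℕ → ℕ → ℕ → Bool := onCell 0 536870912 1073741824 536870912 966367641 24778659
    (rowNE 3 eng mog cd0q0 cd4q2 pd2 0 true true true .pp 0 2 2 (qsf 0 536870912 1073741824 536870912 2) ndB0q0 ndB4q2 pcB2 cut_pp_022_s Ext.none)

def k0_pp_022_s : ∃ t, chk3 f_pp_022_s t 1 1 1 = true :=
  ⟨(l 4), by decide +kernel⟩

theorem c_pp_022_s : CertNE 0 536870912 1073741824 536870912 966367641 24778659 3 eng mog cd0q0 cd4q2 pd2 true true true .pp 0 2 2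
    ndB0q0 ndB4q2 pcB2 cut_pp_022_s Ext.none :=
  certNE0 (fam := true) (s1 := true) (s2 := true) (a := 0) (b := 2) (c := 2) (cn := .pp) (n1 := ndB0q0) (n2 := ndB4q2) (pc := pcB2) (cut := cut_pp_022_s) (xt := Ext.none) (P1 := 0) (W1 := 536870912) (P2 := 1073741824) (W2 := 536870912) (P3 := 966367641) (W3 := 24778659) (N0 := 3) (En := eng) (mo := mog) (C1 := cd0q0) (C2 := cd4q2) (C3 := pd2)
    rfl k0_pp_022_s

noncomputable def cut_pp_023_s : Cut := Cut.of [[⟨4, 0, 0, 1449551462⟩]]

noncomputable def f_pp_023_s : ℕ → ℕ → ℕ → ℕ → Bool := onCell 0 536870912 1073741824 536870912 966367641 24778659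
    (rowNE 3 eng mog cd0q0 cd4q2 pd3 0 true true true .up 0 2 3 (qsf 0 536870912 1073741824 536870912 3) ndB0q0 ndB4q2 pcB3 cut_pp_023_s Ext.none)

def k0_pp_023_s : ∃ t, chk3 f_pp_023_s t 1 1 1 = true :=
  ⟨(l 4), by decide +kernel⟩

theorem c_pp_023_s : CertNE 0 536870912 1073741824 536870912 966367641 24778659 3 eng mog cd0q0 cd4q2 pd3 true true true .up 0 2 3
    ndB0q0 ndB4q2 pcB3 cut_pp_023_s Ext.none :=
  certNE0 (fam := true) (s1 := true) (s2 := true) (a := 0) (b := 2) (c := 3) (cn := .up) (n1 := ndB0q0) (n2 := ndB4q2) (pc := pcB3) (cut := cut_pp_023_s) (xt := Ext.none) (P1 := 0) (W1 := 536870912) (P2 := 1073741824) (W2 := 536870912) (P3 := 966367641) (W3 := 24778659) (N0 := 3) (En := eng) (mo := mog) (C1 := cd0q0) (C2 := cd4q2) (C3 := pd3)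
    rfl k0_pp_023_s

noncomputable def cut_pp_033_s : Cut := Cut.of [[⟨4, 0, 0, 1449551462⟩]]

noncomputable def f_pp_033_s : ℕ → ℕ → ℕ → ℕ → Bool := onCell 0 536870912 0 1230186008 966367641 24778659
    (rowNE 3 eng mog cd0q0 cd4q3 pd3 0 true true true .pnn 0 3 3 (qsf 0 536870912 0 1230186008 3) ndB0q0 ndB4q3 pcB3 cut_pp_033_s Ext.none)

def k0_pp_033_s : ∃ t, chk3 f_pp_033_s t 1 1 1 = true :=
  ⟨(l 4), by decide +kernel⟩

theorem c_pp_033_s : CertNE 0 536870912 0 1230186008 966367641 24778659 3 eng mog cd0q0 cd4q3 pd3 true true true .pnn 0 3 3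
    ndB0q0 ndB4q3 pcB3 cut_pp_033_s Ext.none :=
  certNE0 (fam := true) (s1 := true) (s2 := true) (a := 0) (b := 3) (c := 3) (cn := .pnn) (n1 := ndB0q0) (n2 := ndB4q3) (pc := pcB3) (cut := cut_pp_033_s) (xt := Ext.none) (P1 := 0) (W1 := 536870912) (P2 := 0) (W2 := 1230186008) (P3 := 966367641) (W3 := 24778659) (N0 := 3) (En := eng) (mo := mog) (C1 := cd0q0) (C2 := cd4q3) (C3 := pd3)
    rfl k0_pp_033_s

noncomputable def cut_pp_101_s : Cut := Cut.of [[⟨4, 0, 0, 1449551462⟩]]

noncomputable def f_pp_101_s : ℕ → ℕ → ℕ → ℕ → Bool := onCell 536870912 536870912 0 536870912 966367641 24778659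
    (rowNE 3 eng mog cd0q1 cd4q0 pd1 0 true true true .npn 1 0 1 (qsf 536870912 536870912 0 536870912 1) ndB0q1 ndB4q0 pcB1 cut_pp_101_s Ext.none)

def k0_pp_101_s : ∃ t, chk3 f_pp_101_s t 1 1 1 = true :=
  ⟨(l 4), by decide +kernel⟩

theorem c_pp_101_s : CertNE 536870912 536870912 0 536870912 966367641 24778659 3 eng mog cd0q1 cd4q0 pd1 true true true .npn 1 0 1
    ndB0q1 ndB4q0 pcB1 cut_pp_101_s Ext.none :=
  certNE0 (fam := true) (s1 := true) (s2 := true) (a := 1) (b := 0) (c := 1) (cn := .npn) (n1 := ndB0q1) (n2 := ndB4q0) (pc := pcB1) (cut := cut_pp_101_s) (xt := Ext.none) (P1 := 536870912) (W1 := 536870912) (P2 := 0) (W2 := 536870912) (P3 := 966367641) (W3 := 24778659) (N0 := 3) (En := eng) (mo := mog) (C1 := cd0q1) (C2 := cd4q0) (C3 := pd1)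
    rfl k0_pp_101_s

noncomputable def cut_pp_102_s : Cut := Cut.of [[⟨4, 0, 0, 1449551462⟩]]

noncomputable def f_pp_102_s : ℕ → ℕ → ℕ → ℕ → Bool := onCell 536870912 536870912 0 536870912 966367641 24778659
    (rowNE 3 eng mog cd0q1 cd4q0 pd2 0 true true true .npp 1 0 2 (qsf 536870912 536870912 0 536870912 2) ndB0q1 ndB4q0 pcB2 cut_pp_102_s Ext.none)

def k0_pp_102_s : ∃ t, chk3 f_pp_102_s t 1 1 1 = true :=
  ⟨(l 4), by decide +kernel⟩

theorem c_pp_102_s : CertNE 536870912 536870912 0 536870912 966367641 24778659 3 eng mog cd0q1 cd4q0 pd2 true true true .npp 1 0 2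
    ndB0q1 ndB4q0 pcB2 cut_pp_102_s Ext.none :=
  certNE0 (fam := true) (s1 := true) (s2 := true) (a := 1) (b := 0) (c := 2) (cn := .npp) (n1 := ndB0q1) (n2 := ndB4q0) (pc := pcB2) (cut := cut_pp_102_s) (xt := Ext.none) (P1 := 536870912) (W1 := 536870912) (P2 := 0) (W2 := 536870912) (P3 := 966367641) (W3 := 24778659) (N0 := 3) (En := eng) (mo := mog) (C1 := cd0q1) (C2 := cd4q0) (C3 := pd2)
    rfl k0_pp_102_s

noncomputable def cut_pp_112_s : Cut := Cut.of [[⟨4, 0, 0, 1449551462⟩]]

noncomputable def f_pp_112_s : ℕ → ℕ → ℕ → ℕ → Bool := onCell 536870912 536870912 536870912 536870912 966367641 24778659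
    (rowNE 3 eng mog cd0q1 cd4q1 pd2 0 true true true .dn 1 1 2 (qsf 536870912 536870912 536870912 536870912 2) ndB0q1 ndB4q1 pcB2 cut_pp_112_s Ext.none)

def k0_pp_112_s : ∃ t, chk3 f_pp_112_s t 1 1 1 = true :=
  ⟨(l 4), by decide +kernel⟩

theorem c_pp_112_s : CertNE 536870912 536870912 536870912 536870912 966367641 24778659 3 eng mog cd0q1 cd4q1 pd2 true true true .dn 1 1 2
    ndB0q1 ndB4q1 pcB2 cut_pp_112_s Ext.none :=
  certNE0 (fam := true) (s1 := true) (s2 := true) (a := 1) (b := 1) (c := 2) (cn := .dn) (n1 := ndB0q1) (n2 := ndB4q1) (pc := pcB2) (cut := cut_pp_112_s) (xt := Ext.none) (P1 := 536870912) (W1 := 536870912) (P2 := 536870912) (W2 := 536870912) (P3 := 966367641) (W3 := 24778659) (N0 := 3) (En := eng) (mo := mog) (C1 := cd0q1) (C2 := cd4q1) (C3 := pd2)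
    rfl k0_pp_112_s

noncomputable def cut_pp_113_s : Cut := Cut.of [[⟨4, 0, 0, 1449551462⟩]]

noncomputable def f_pp_113_s : ℕ → ℕ → ℕ → ℕ → Bool := onCell 536870912 536870912 536870912 536870912 966367641 24778659
    (rowNE 3 eng mog cd0q1 cd4q1 pd3 0 true true true .nn 1 1 3 (qsf 536870912 536870912 536870912 536870912 3) ndB0q1 ndB4q1 pcB3 cut_pp_113_s Ext.none)

def k0_pp_113_s : ∃ t, chk3 f_pp_113_s t 1 1 1 = true :=
  ⟨(l 4), by decide +kernel⟩

theorem c_pp_113_s : CertNE 536870912 536870912 536870912 536870912 966367641 24778659 3 eng mog cd0q1 cd4q1 pd3 true true true .nn 1 1 3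
    ndB0q1 ndB4q1 pcB3 cut_pp_113_s Ext.none :=
  certNE0 (fam := true) (s1 := true) (s2 := true) (a := 1) (b := 1) (c := 3) (cn := .nn) (n1 := ndB0q1) (n2 := ndB4q1) (pc := pcB3) (cut := cut_pp_113_s) (xt := Ext.none) (P1 := 536870912) (W1 := 536870912) (P2 := 536870912) (W2 := 536870912) (P3 := 966367641) (W3 := 24778659) (N0 := 3) (En := eng) (mo := mog) (C1 := cd0q1) (C2 := cd4q1) (C3 := pd3)
    rfl k0_pp_113_s

noncomputable def cut_pp_123_s : Cut := Cut.of [[⟨4, 0, 0, 1449551462⟩]]

noncomputable def f_pp_123_s : ℕ → ℕ → ℕ → ℕ → Bool := onCell 536870912 536870912 1073741824 536870912 966367641 24778659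
    (rowNE 3 eng mog cd0q1 cd4q2 pd3 0 true true true .npn 1 2 3 (qsf 536870912 536870912 1073741824 536870912 3) ndB0q1 ndB4q2 pcB3 cut_pp_123_s Ext.none)

def k0_pp_123_s : ∃ t, chk3 f_pp_123_s t 1 1 1 = true :=
  ⟨(l 4), by decide +kernel⟩

theorem c_pp_123_s : CertNE 536870912 536870912 1073741824 536870912 966367641 24778659 3 eng mog cd0q1 cd4q2 pd3 true true true .npn 1 2 3
    ndB0q1 ndB4q2 pcB3 cut_pp_123_s Ext.none :=
  certNE0 (fam := true) (s1 := true) (s2 := true) (a := 1) (b := 2) (c := 3) (cn := .npn) (n1 := ndB0q1) (n2 := ndB4q2) (pc := pcB3) (cut := cut_pp_123_s) (xt := Ext.none) (P1 := 536870912) (W1 := 536870912) (P2 := 1073741824) (W2 := 536870912) (P3 := 966367641) (W3 := 24778659) (N0 := 3) (En := eng) (mo := mog) (C1 := cd0q1) (C2 := cd4q2) (C3 := pd3)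
    rfl k0_pp_123_s

noncomputable def cut_pp_133_s : Cut := Cut.of [[⟨4, 0, 0, 1449551462⟩]]

noncomputable def f_pp_133_s : ℕ → ℕ → ℕ → ℕ → Bool := onCell 536870912 536870912 0 1230186008 966367641 24778659
    (rowNE 3 eng mog cd0q1 cd4q3 pd3 0 true true true .dn 1 3 3 (qsf 536870912 536870912 0 1230186008 3) ndB0q1 ndB4q3 pcB3 cut_pp_133_s Ext.none)

def k0_pp_133_s : ∃ t, chk3 f_pp_133_s t 1 1 1 = true :=
  ⟨(l 4), by decide +kernel⟩

theorem c_pp_133_s : CertNE 536870912 536870912 0 1230186008 966367641 24778659 3 eng mog cd0q1 cd4q3 pd3 true true true .dn 1 3 3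
    ndB0q1 ndB4q3 pcB3 cut_pp_133_s Ext.none :=
  certNE0 (fam := true) (s1 := true) (s2 := true) (a := 1) (b := 3) (c := 3) (cn := .dn) (n1 := ndB0q1) (n2 := ndB4q3) (pc := pcB3) (cut := cut_pp_133_s) (xt := Ext.none) (P1 := 536870912) (W1 := 536870912) (P2 := 0) (W2 := 1230186008) (P3 := 966367641) (W3 := 24778659) (N0 := 3) (En := eng) (mo := mog) (C1 := cd0q1) (C2 := cd4q3) (C3 := pd3)
    rfl k0_pp_133_s

noncomputable def cut_pp_202_s : Cut := Cut.of [[⟨4, 0, 0, 1449551462⟩]]

noncomputable def f_pp_202_s : ℕ → ℕ → ℕ → ℕ → Bool := onCell 0 536870912 0 536870912 966367641 24778659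
    (rowNE 3 eng mog cd0q2 cd4q0 pd2 0 true true true .pp 2 0 2 (qsf 0 536870912 0 536870912 2) ndB0q2 ndB4q0 pcB2 cut_pp_202_s Ext.none)

def k0_pp_202_s : ∃ t, chk3 f_pp_202_s t 1 1 1 = true :=
  ⟨(l 4), by decide +kernel⟩

theorem c_pp_202_s : CertNE 0 536870912 0 536870912 966367641 24778659 3 eng mog cd0q2 cd4q0 pd2 true true true .pp 2 0 2
    ndB0q2 ndB4q0 pcB2 cut_pp_202_s Ext.none :=
  certNE0 (fam := true) (s1 := true) (s2 := true) (a := 2) (b := 0) (c := 2) (cn := .pp) (n1 := ndB0q2) (n2 := ndB4q0) (pc := pcB2) (cut := cut_pp_202_s) (xt := Ext.none) (P1 := 0) (W1 := 536870912) (P2 := 0) (W2 := 536870912) (P3 := 966367641) (W3 := 24778659) (N0 := 3) (En := eng) (mo := mog) (C1 := cd0q2) (C2 := cd4q0) (C3 := pd2)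
    rfl k0_pp_202_s

noncomputable def cut_pp_203_s : Cut := Cut.of [[⟨4, 0, 0, 1449551462⟩]]

noncomputable def f_pp_203_s : ℕ → ℕ → ℕ → ℕ → Bool := onCell 0 536870912 0 536870912 966367641 24778659
    (rowNE 3 eng mog cd0q2 cd4q0 pd3 0 true true true .up 2 0 3 (qsf 0 536870912 0 536870912 3) ndB0q2 ndB4q0 pcB3 cut_pp_203_s Ext.none)

def k0_pp_203_s : ∃ t, chk3 f_pp_203_s t 1 1 1 = true :=
  ⟨(l 4), by decide +kernel⟩

theorem c_pp_203_s : CertNE 0 536870912 0 536870912 966367641 24778659 3 eng mog cd0q2 cd4q0 pd3 true true true .up 2 0 3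
    ndB0q2 ndB4q0 pcB3 cut_pp_203_s Ext.none :=
  certNE0 (fam := true) (s1 := true) (s2 := true) (a := 2) (b := 0) (c := 3) (cn := .up) (n1 := ndB0q2) (n2 := ndB4q0) (pc := pcB3) (cut := cut_pp_203_s) (xt := Ext.none) (P1 := 0) (W1 := 536870912) (P2 := 0) (W2 := 536870912) (P3 := 966367641) (W3 := 24778659) (N0 := 3) (En := eng) (mo := mog) (C1 := cd0q2) (C2 := cd4q0) (C3 := pd3)
    rfl k0_pp_203_s

noncomputable def cut_pp_213_s : Cut := Cut.of [[⟨4, 0, 0, 1449551462⟩]]

noncomputable def f_pp_213_s : ℕ → ℕ → ℕ → ℕ → Bool := onCell 0 536870912 536870912 536870912 966367641 24778659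
    (rowNE 3 eng mog cd0q2 cd4q1 pd3 0 true true true .pnn 2 1 3 (qsf 0 536870912 536870912 536870912 3) ndB0q2 ndB4q1 pcB3 cut_pp_213_s Ext.none)

def k0_pp_213_s : ∃ t, chk3 f_pp_213_s t 1 1 1 = true :=
  ⟨(l 4), by decide +kernel⟩

theorem c_pp_213_s : CertNE 0 536870912 536870912 536870912 966367641 24778659 3 eng mog cd0q2 cd4q1 pd3 true true true .pnn 2 1 3
    ndB0q2 ndB4q1 pcB3 cut_pp_213_s Ext.none :=
  certNE0 (fam := true) (s1 := true) (s2 := true) (a := 2) (b := 1) (c := 3) (cn := .pnn) (n1 := ndB0q2) (n2 := ndB4q1) (pc := pcB3) (cut := cut_pp_213_s) (xt := Ext.none) (P1 := 0) (W1 := 536870912) (P2 := 536870912) (W2 := 536870912) (P3 := 966367641) (W3 := 24778659) (N0 := 3) (En := eng) (mo := mog) (C1 := cd0q2) (C2 := cd4q1) (C3 := pd3)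
    rfl k0_pp_213_s

noncomputable def cut_pm_001_s : Cut := Cut.of [[⟨4, 0, 0, 1449551462⟩]]

noncomputable def f_pm_001_s : ℕ → ℕ → ℕ → ℕ → Bool := onCell 0 536870912 536870912 536870912 966367641 24778659
    (rowNE 3 eng mog cd0q0 cd4q0 pd1 1 true true false .up 0 0 1 (qsf 0 536870912 0 536870912 1) ndB0q0 ndB4q0 pcB1 cut_pm_001_s Ext.none)

def k0_pm_001_s : ∃ t, chk3 f_pm_001_s t 2 1 1 = true :=
  ⟨(b (l 3) (b (b (l 3) (l 2)) (l 2))), by decide +kernel⟩

def k1_pm_001_s : ∃ t, chk3 f_pm_001_s t 3 2 1 = true :=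
  ⟨(b (l 3) (a (l 3) (b (a (l 3) (b (a (l 3) (b (l 3) (a (l 3) (l 333564445591)))) (a (b (l 3) (a (l 3) (l 334101328855))) (b (a (l 332490709767) (l 184314405223)) (a (l 152639031271) (l 16726576)))))) (a (b (a (l 3) (b (l 3) (a (l 3) (l 299741600503)))) (a (b (a (l 3) (l 610589945271)) (a (b (l 3) (l 355039305735)) (c (l 290614824679) (l 16728080)))) (b (a (c (l 295983519831) (l 16712760)) (l 16747168)) (a (l 16741824) (l 16712064))))) (b (a (b (a (l 301352208999) (l 16735232)) (a (l 16751968) (l 16720504))) (b (a (l 16723856) (l 16690368)) (a (l 16688208) (l 16655088)))) (a (b (a (l 16716552) (l 16685312)) (a (l 16681760) (l 16650880))) (b (l 16637408) (l 16603584)))))))), by decide +kernel⟩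

def k2_pm_001_s : ∃ t, chk3 f_pm_001_s t 3 6 1 = true :=
  ⟨(a (b (a (b (l 3) (a (l 3) (a (l 3) (b (l 3) (b (l 3) (c (l 536501784327) (l 351818065975))))))) (b (a (l 3) (b (a (l 3) (b (l 3) (l 301352230663))) (a (c (l 301889059511) (l 309405245175)) (b (l 221358522039) (l 16748752))))) (a (b (a (b (l 3) (a (l 3) (l 353965582519))) (c (a (l 293299153367) (l 16727880)) (l 287930428839))) (a (c (b (l 307794696855) (l 16760232)) (c (l 282561745431) (l 278803646743))) (c (l 16743288) (l 16741920)))) (b (a (c (l 16750736) (l 16749616)) (c (l 16724200) (l 16721960))) (a (c (l 16717296) (l 16714816)) (l 16689232)))))) (a (b (a (l 2) (b (a (l 2) (c (l 174046751399) (l 181026069543))) (l 2))) (l 2)) (b (a (b (a (c (l 16735992) (l 16734616)) (c (l 16710896) (l 16708592))) (a (c (l 16704384) (l 16702456)) (l 16678576))) (b (a (l 16683632) (l 16657040)) (a (l 16652952) (l 16626800)))) (a (b (a (l 2) (l 16648384)) (l 2)) (b (l 16653232) (l 16582912)))))) (b (a (b (a (b (a (b (l 304036618039) (l 16755664))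 (l 16736032)) (a (l 16740264) (l 16701584))) (b (a (l 16707080) (l 16677648)) (a (l 16672976) (l 16643904)))) (a (b (a (l 16695592) (l 16667736)) (a (l 16662080) (l 16634568))) (b (l 16625632) (l 16593032)))) (b (a (b (l 16632912) (l 16599744)) (b (l 16570544) (l 16538240))) (a (b (l 16567248) (l 16535488)) (l 16491464)))) (a (b (a (a (l 16678280) (l 16588328)) (a (l 16560952) (l 16533200))) (a (b (l 16559088) (l 16531624)) (l 16492328))) (a (b (l 16491448) (l 16437536)) (b (l 16433200) (l 16381184)))))), by decide +kernel⟩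

def k3_pm_001_s : ∃ t, chk3 f_pm_001_s t 3 7 1 = true :=
  ⟨(a (b (a (l 2) (b (a (l 2) (b (l 16554544) (l 2))) (l 2))) (l 2)) (b (a (b (a (b (l 16504648) (l 16476800)) (l 16439952)) (a (l 16475232) (l 16385056))) (b (a (l 16386760) (l 16332496)) (a (l 16334968) (l 16283232)))) (a (b (a (l 2) (l 16327640)) (l 2)) (b (a (l 16281696) (l 16234192)) (a (l 16230984) (l 16188744)))))), by decide +kernel⟩

theorem s4_pm_001_s : ∃ t, chk3 f_pm_001_s t 3 3 1 = true := ex3_b k2_pm_001_s k3_pm_001_s

theorem s5_pm_001_s : ∃ t, chk3 f_pm_001_s t 3 1 1 = true := ex3_b k1_pm_001_s s4_pm_001_s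

theorem s6_pm_001_s : ∃ t, chk3 f_pm_001_s t 1 1 1 = true := ex3_a k0_pm_001_s s5_pm_001_s

theorem c_pm_001_s : CertNE 0 536870912 0 536870912 966367641 24778659 3 eng mog cd0q0 cd4q0 pd1 true true false .up 0 0 1
    ndB0q0 ndB4q0 pcB1 cut_pm_001_s Ext.none :=
  certNE1 (fam := true) (s1 := true) (s2 := false) (a := 0) (b := 0) (c := 1) (cn := .up) (n1 := ndB0q0) (n2 := ndB4q0) (pc := pcB1) (cut := cut_pm_001_s) (xt := Ext.none) (P1 := 0) (W1 := 536870912) (P2 := 0) (W2 := 536870912) (P3 := 966367641) (W3 := 24778659) (N0 := 3) (En := eng) (mo := mog) (C1 := cd0q0) (C2 := cd4q0) (C3 := pd1)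
    rfl (fun _ => rfl) s6_pm_001_s

noncomputable def cut_pm_011_s : Cut := Cut.of [[⟨4, 0, 0, 1449551462⟩], [⟨0, 0, 0, 53687091⟩, ⟨1, 1, 0, 53687091⟩, ⟨2, 1, 0, 53687091⟩]]

noncomputable def f_pm_011_s : ℕ → ℕ → ℕ → ℕ → Bool := onCell 0 536870912 536870912 536870912 966367641 24778659
    (rowNE 3 eng mog cd0q0 cd4q1 pd1 1 true true false .pnn 0 1 1 (qsf 0 536870912 536870912 536870912 1) ndB0q0 ndB4q1 pcB1 cut_pm_011_s Ext.none)

def k0_pm_011_s : ∃ t, chk3 f_pm_011_s t 1 2 1 = true :=
  ⟨(a (l 3) (b (l 1) (a (l 3) (l 1)))), by decide +kernel⟩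

def k1_pm_011_s : ∃ t, chk3 f_pm_011_s t 2 6 1 = true :=
  ⟨(a (l 3) (b (l 3) (a (l 3) (b (l 3) (a (b (l 3) (a (l 3) (a (l 3) (b (l 3) (c (l 578377697863) (l 636896644199)))))) (a (b (l 3) (b (a (l 3) (c (l 299204752775) (l 305647197847))) (c (a (l 290077975783) (l 16763816)) (c (l 289541096871) (l 288467353959))))) (c (b (b (l 620790455047) (a (l 579451445927) (l 16731976))) (b (l 182166956263) (l 16747312))) (b (b (l 649781476391) (c (l 312626490183) (l 320142678471))) (b (a (l 16768832) (l 16757600)) (l 16746912)))))))))), by decide +kernel⟩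

def k2_pm_011_s : ∃ t, chk3 f_pm_011_s t 4 14 1 = true :=
  ⟨(a (l 3) (b (l 3) (a (l 3) (a (l 3) (a (b (l 3) (b (l 3) (a (l 3) (b (l 3) (c (l 699710538247) (l 695952436919)))))) (b (l 3) (b (l 3) (a (b (l 3) (b (c (l 642802244663) (l 328732683799)) (c (l 16774192) (l 16774208)))) (c (b (l 655687135767) (l 16771352)) (b (l 657297745847) (l 16771384))))))))))), by decide +kernel⟩

def k3_pm_011_s : ∃ t, chk3 f_pm_011_s t 8 30 1 = true :=
  ⟨(a (l 3) (b (l 3) (a (l 3) (b (l 3) (a (l 3) (b (l 3) (a (l 3) (b (l 3) (b (a (l 3) (c (c (l 517711333239) (l 591799517879)) (l 790978621863))) (a (c (c (l 547239233751) (l 549386717383)) (l 822117135543)) (c (l 16776240) (l 16776248)))))))))))), by decide +kernel⟩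

def k4_pm_011_s : ∃ t, chk3 f_pm_011_s t 16 31 1 = true :=
  ⟨(b (b (l 3) (b (l 3) (b (l 3) (l 14)))) (l 14)), by decide +kernel⟩

def k5_pm_011_s : ∃ t, chk3 f_pm_011_s t 34 124 1 = true :=
  ⟨(a (l 3) (b (l 3) (a (l 3) (b (l 3) (a (l 3) (b (l 3) (b (a (l 3) (c (c (l 200420625047) (l 16778160)) (l 210621171047))) (a (a (c (l 447918115463) (l 460266146423)) (c (l 16777320) (l 16777320))) (c (l 16776512) (l 16776512)))))))))), by decide +kernel⟩

def k6_pm_011_s : ∃ t, chk3 f_pm_011_s t 68 125 1 = true :=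
  ⟨(b (a (l 3) (b (l 3) (a (l 3) (b (l 3) (b (a (l 3) (c (l 669108930023) (l 686825670103))) (a (c (l 687899412055) (l 705616152135)) (a (c (c (l 132774889223) (l 16777296)) (l 127406180183)) (c (l 16776768) (l 16776768))))))))) (a (b (a (l 3) (b (l 3) (a (l 3) (b (l 3) (a (b (l 3) (c (l 16777272) (l 16777272))) (c (l 16777648) (l 16776992))))))) (a (a (l 14) (b (b (l 3) (a (l 14) (b (c (l 185388238215) (l 16777840)) (c (l 16776848) (l 16776848))))) (l 14))) (b (b (a (a (b (l 3) (c (l 168745239895) (l 16777320))) (c (c (l 16777040) (l 16777040)) (l 16777696))) (c (l 16776208) (l 16776216))) (c (l 16775680) (l 16775696))) (c (l 16774024) (l 16774048))))) (b (a (b (b (a (l 3) (c (l 707763635895) (l 726017246887))) (a (c (l 726554117911) (l 745344599815)) (a (a (c (l 289004324759) (l 290614937495)) (c (l 134385501687) (l 16777280))) (c (l 16776880) (l 16776888))))) (a (b (b (a (l 3) (c (l 16777200) (l 16777200))) (c (l 16776952) (l 16776952))) (c (l 16776152) (l 16776160))) (c (l 16775544) (l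 16775560)))) (c (b (a (a (b (c (l 156934080375) (l 16777352)) (l 16776320)) (l 16776288)) (l 16775424)) (l 16773808)) (a (b (b (c (l 16777080) (c (l 16777080) (l 16778064))) (l 16776040)) (l 16774408)) (l 16769112)))) (c (a (b (l 16773920) (l 16771696)) (l 16770480)) (c (l 16770856) (l 16769080)))))), by decide +kernel⟩

def k7_pm_011_s : ∃ t, chk3 f_pm_011_s t 69 125 1 = true :=
  ⟨(b (a (b (a (l 3) (b (l 3) (b (a (l 3) (c (l 547239232567) (c (l 296520518695) (l 299741744167)))) (a (c (l 569250940071) (l 580525229207)) (c (l 16776784) (l 16776784)))))) (a (b (b (a (l 3) (c (l 590188905751) (l 643875996935))) (a (c (l 647634093447) (l 664813962615)) (c (c (l 16776904) (l 16776904)) (l 16776912)))) (c (a (b (c (l 16777624) (l 16776968)) (l 16775912)) (l 16775304)) (a (c (l 16776440) (l 16776440)) (l 16775320)))) (c (b (a (b (l 16776848) (l 16775784)) (l 16775176)) (l 16773568)) (a (c (l 16775240) (l 16775248)) (l 16774112))))) (a (b (b (b (b (c (l 710984861895) (l 728701601975)) (a (l 3) (c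 (l 178945787959) (l 16777400)))) (a (a (l 3) (c (l 209010559047) (l 16778104))) (c (l 16776648) (l 16776656)))) (c (a (l 16776184) (l 16775040)) (l 16775944))) (c (l 16772344) (l 16772384))) (b (c (b (l 16775472) (l 16773304)) (b (l 16775480) (l 16773336))) (c (l 16770024) (l 16770088))))) (c (a (b (a (l 16772592) (l 16770264)) (l 16766952)) (b (l 16766752) (l 16762224))) (a (b (a (l 16772624) (l 16770320)) (l 16767040)) (b (l 16766848) (l 16762376))))), by decide +kernel⟩

def k8_pm_011_s : ∃ t, chk3 f_pm_011_s t 35 62 1 = true :=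
  ⟨(b (a (b (a (l 3) (b (l 3) (a (b (l 3) (a (l 3) (c (l 696489347527) (l 715816700327)))) (a (b (l 3) (b (c (l 405505314231) (l 416779603367)) (c (l 16777000) (l 16777000)))) (b (c (l 618643064999) (l 676088252567)) (c (l 16776400) (l 16776400))))))) (a (b (a (l 3) (b (l 3) (a (b (l 3) (c (l 118816246167) (l 16777296))) (c (b (l 16778208) (l 16776208)) (l 16777368))))) (c (a (b (a (c (l 517711332679) (l 517711332679)) (c (b (l 154249726343) (l 16776360)) (l 16776864))) (l 16775328)) (l 16774104)) (b (a (a (b (l 3) (l 167134628519)) (b (l 141901695527) (l 16776368))) (l 16775192)) (l 16771568)))) (c (b (b (a (a (b (l 708837377751) (l 16777160)) (l 16776560)) (l 16774856)) (l 16773872)) (l 16770640)) (b (a (b (a (b (l 479056629367) (l 16777160)) (l 16776560)) (l 16775032)) (l 16773808)) (l 16770664))))) (b (a (b (a (b (l 3) (c (a (l 3) (l 581062100855)) (l 797957948071))) (b (c (a (l 3) (l 541870523959)) (l 877951711815)) (c (a (c (l 75329700375) (l 16777152)) (l 16776056)) (c (l 16776600)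 (l 16776600))))) (c (a (a (b (b (l 300815486183) (l 16776840)) (l 16775264)) (l 16775176)) (l 16773456)) (a (b (c (l 16778080) (a (l 120963730695) (l 16776240))) (l 16774704)) (l 16773472)))) (c (a (a (b (c (l 16777256) (l 16775952)) (l 16771736)) (l 16772064)) (l 16765752)) (b (a (b (l 16777736) (l 16774352)) (l 16773120)) (l 16770024)))) (c (a (b (l 16770336) (l 16766008)) (l 16763560)) (a (b (l 16770352) (l 16766024)) (l 16763544))))) (a (b (c (a (b (l 16770920) (l 16766520)) (l 16764064)) (a (b (l 16768344) (l 16766608)) (l 16762816))) (c (a (l 16759768) (l 16755032)) (a (l 16759936) (l 16755200)))) (b (c (l 16754432) (a (l 16759424) (l 16754696))) (c (l 16747928) (l 16748000))))), by decide +kernel⟩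

def k9_pm_011_s : ∃ t, chk3 f_pm_011_s t 17 63 1 = true :=
  ⟨(b (a (a (b (b (a (a (l 14) (c (l 16770672) (l 16770720))) (c (l 16767136) (l 16765912))) (a (l 14) (c (l 16762512) (l 16762656)))) (a (l 14) (c (l 16755360) (l 16755600)))) (b (c (a (l 16760056) (l 16755240)) (a (b (l 16762528) (l 16757904)) (l 16755496))) (a (c (l 16729472) (l 16729792)) (c (l 16724552) (l 16724960))))) (a (b (c (l 16748008) (l 16748320)) (c (l 16717176) (l 16717696))) (b (a (l 16719960) (l 16715128)) (c (l 16707424) (l 16707856))))) (a (a (l 14) (b (c (l 16716800) (l 16727832)) (c (l 16705952) (l 16706696)))) (b (a (c (l 16706752) (l 16707480)) (l 16697176)) (a (l 16701400) (l 16686096))))), by decide +kernel⟩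

def k10_pm_011_s : ∃ t, chk3 f_pm_011_s t 9 60 1 = true :=
  ⟨(a (a (l 3) (a (l 3) (b (l 3) (b (l 3) (a (b (l 3) (c (l 725480359527) (l 726017225303))) (c (b (l 692194366199) (a (l 16775864) (l 16773520))) (b (l 695952459143) (l 16774696)))))))) (c (a (b (a (l 3) (b (a (l 3) (l 791515474183)) (a (a (l 715279813319) (b (l 800642280279) (l 16775800))) (b (c (a (l 123648088823) (l 16775120)) (l 16776344)) (l 16772216))))) (a (b (a (b (l 3) (l 633675440743)) (b (a (l 706689880103) (l 16776432)) (l 16773496))) (a (b (l 16774112) (l 16770000)) (l 16767296))) (b (a (l 16770800) (l 16766016)) (l 16760072)))) (b (a (b (a (b (l 702931775047) (c (l 16775656) (l 16775656))) (l 317995326999)) (l 16767072)) (b (l 16765536) (l 16757304))) (a (b (l 16758816) (l 16750352)) (l 16744824)))) (a (b (a (l 3) (b (a (l 3) (l 788831090871)) (a (b (l 804400360839) (l 500531450119)) (b (l 263771325655) (l 16772232))))) (a (b (a (b (l 3) (l 666961435319)) (b (l 619716794311) (l 16773480))) (a (l 16772024) (l 16767192)))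 (b (a (l 16770776) (l 16765976)) (l 16759856)))) (b (a (b (a (b (l 698636804247) (l 16775664)) (l 16772888)) (l 16761864)) (b (l 16765592) (l 16757368))) (a (b (l 16758784) (l 16750024)) (l 16744680)))))), by decide +kernel⟩

def k11_pm_011_s : ∃ t, chk3 f_pm_011_s t 9 122 1 = true :=
  ⟨(c (a (a (a (l 3) (b (l 3) (a (l 926270091943) (a (c (l 765208814311) (l 760913839767)) (b (l 822653996807) (l 16775592)))))) (a (b (a (b (l 3) (l 840907602231)) (a (c (l 704005529399) (l 701858042007)) (b (l 728701590007) (l 16774632)))) (a (b (b (a (l 765208815143) (l 16776144)) (l 16775248)) (l 16772216)) (l 16769712))) (b (a (b (a (b (l 16779152) (l 16775384)) (l 16774088)) (l 16771184)) (l 16768560)) (l 16762752)))) (a (a (b (l 16761416) (l 16753160)) (l 16747400)) (a (l 16737536) (l 16727632)))) (a (a (a (l 3) (b (l 3) (a (l 920901381815) (b (l 878488554567) (a (l 655687150423) (l 16775600)))))) (a (b (a (l 861308711239) (b (l 758229475799) (a (b (l 206863078919) (l 16775904)) (l 16774624)))) (a (a (b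 (b (l 280414394887) (l 16776376)) (l 16773352)) (l 16773104)) (l 16769640))) (b (a (b (l 264308251655) (l 16771128)) (l 16768472)) (l 16757288)))) (a (a (b (l 16761168) (l 16752608)) (b (l 16751040) (l 16742184))) (a (l 16736480) (l 16726456))))), by decide +kernel⟩

def k12_pm_011_s : ∃ t, chk3 f_pm_011_s t 9 123 1 = true :=
  ⟨(a (a (a (b (a (l 3) (b (l 3) (b (c (c (l 627232994711) (l 741049626359)) (l 752860781895)) (a (a (c (l 815674686151) (l 324974679127)) (c (l 16777136) (l 16777128))) (c (l 16775464) (l 16775472)))))) (b (a (c (a (a (l 839297009335) (a (l 700784312983) (l 585893934759))) (b (a (l 854329392855) (l 117205634631)) (l 16775864))) (b (l 792589229447) (a (l 761450721463) (l 16775864)))) (c (a (l 16774632) (l 16772352)) (l 16773496))) (c (a (c (l 16773872) (l 16773872)) (l 16769320)) (a (a (l 16775024) (l 16772744)) (l 16769328))))) (a (b (b (c (a (c (l 626159253111) (l 712058596871)) (b (c (l 16777040) (l 16777040)) (l 16775032))) (a (l 727627850087) (b (l 16778352) (l 16775048))))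 (c (l 16773080) (l 16773104))) (c (l 16766856) (l 16766920))) (c (b (l 16767984) (l 16762336)) (b (l 16765416) (l 16762472))))) (a (c (b (l 16761248) (l 16755632)) (b (a (l 16766112) (l 16761440)) (l 16755720))) (c (b (l 16754672) (l 16746736)) (b (l 16754208) (l 16746000))))) (a (c (a (l 16740952) (l 16730816)) (a (l 16739816) (l 16728992))) (c (l 16715640) (a (l 16718200) (l 16707888))))), by decide +kernel⟩

def k13_pm_011_s : ∃ t, chk3 f_pm_011_s t 9 31 1 = true :=
  ⟨(a (b (a (b (a (b (c (a (l 16762312) (l 16762984)) (a (l 16764920) (l 16762944))) (c (l 16756656) (l 16755376))) (c (b (l 16756176) (l 16747552)) (b (l 16756208) (l 16747448)))) (a (c (b (l 16747784) (l 16738576)) (b (l 16747568) (l 16738368))) (c (l 16734088) (l 16733800)))) (b (c (a (l 16742976) (l 16734376)) (a (b (l 16747600) (l 16738904)) (l 16734352))) (a (c (l 16725208) (l 16725200)) (c (l 16716696) (l 16717392))))) (a (b (a (b (l 16718416) (l 16697904)) (c (l 16693792) (l 16693464))) (a (c (l 16681640) (l 16682064))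 (c (l 16672304) (l 16672320)))) (b (a (l 16705816) (l 16697696)) (a (l 16663408) (l 16655304))))) (b (c (a (b (l 16715000) (l 16704904)) (b (l 16699376) (l 16684664))) (a (b (a (l 16723768) (l 16712480)) (l 16703680)) (b (l 16695600) (l 16680192)))) (a (b (c (l 16685880) (l 16688216)) (c (l 16664688) (l 16667000))) (b (l 16669616) (l 16653632))))), by decide +kernel⟩

def k14_pm_011_s : ∃ t, chk3 f_pm_011_s t 10 14 1 = true :=
  ⟨(b (b (l 3) (a (l 3) (a (b (l 3) (a (l 3) (b (l 3) (c (l 575156502759) (a (l 692194340087) (l 273434996871)))))) (c (b (a (l 695952431975) (b (l 651929019383) (l 280951185303))) (a (b (l 301352257319) (l 16768984)) (l 16762488))) (a (b (b (l 3) (l 695952412823)) (c (l 277729929831) (l 268603123703))) (b (b (l 663740176231) (l 277193087623)) (l 16762584))))))) (a (b (a (l 3) (b (a (l 3) (b (l 3) (c (l 700247393815) (l 705616098631)))) (c (a (b (l 739438954615) (a (l 632601687575) (l 16774560))) (b (a (l 312089685735) (l 16772648)) (l 16766840))) (a (b (l 740512690311)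 (a (l 637433523863) (l 16753608))) (c (b (l 272898105319) (l 16766904)) (l 264308162119)))))) (c (a (b (a (b (l 3) (a (l 767893129111) (a (l 651392171527) (l 270213770663)))) (b (a (l 675551346167) (l 270750633447)) (l 16754816))) (a (b (c (l 345375736503) (l 16740792)) (l 16763912)) (l 16758000))) (b (a (b (l 16768744) (l 16760352)) (l 16754184)) (a (l 16747744) (l 16737272)))) (a (b (a (b (l 3) (c (l 648170933495) (l 653539640999))) (b (a (l 674477600663) (l 266992535783)) (l 227800992839))) (a (b (c (l 16740808) (l 16740824)) (l 16763992)) (b (l 16762288) (l 16753976)))) (b (a (a (l 16756688) (l 16762088)) (l 16754392)) (a (l 16747960) (l 16737632)))))) (b (a (c (b (a (b (l 622401127367) (l 274508741911)) (l 221895406167)) (a (l 16760608) (l 16749984))) (b (a (b (a (l 3) (l 315310904215)) (l 270750644935)) (b (l 16750232) (l 16762856))) (a (l 16760760) (l 16750272)))) (c (b (a (l 16756288) (l 16745416)) (l 16733664)) (b (a (l 16756480) (l 16745784)) (l 16734264)))) (a (c (b (l 16738272)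 (l 16721176)) (b (a (l 16743984) (l 16733408)) (l 16721824))) (c (l 16712816) (b (l 16717264) (l 16700184))))))), by decide +kernel⟩

def k15_pm_011_s : ∃ t, chk3 f_pm_011_s t 10 15 1 = true :=
  ⟨(b (a (b (a (b (c (a (l 16751528) (l 16741384)) (a (b (l 16755712) (l 16747448)) (l 16741592))) (c (l 16729760) (a (l 16734704) (l 16724552)))) (b (c (l 16725784) (l 16726160)) (c (l 16708912) (l 16709000)))) (a (b (c (l 16712592) (l 16711472)) (c (l 16695224) (l 16692328))) (b (c (l 16691632) (l 16690688)) (l 16673088)))) (b (a (c (l 16700880) (b (l 16704984) (l 16687672))) (b (l 16690264) (l 16644032))) (a (b (l 16669456) (l 16630280)) (c (l 16616824) (l 16595504))))) (a (b (a (b (c (l 16678744) (l 16674360)) (l 16660744)) (b (l 16655600) (l 16639136))) (a (b (l 16646944) (l 16636272)) (b (l 16624960) (l 16613432)))) (b (a (c (l 16627448) (l 16581064)) (l 16602320)) (a (b (l 16602816) (l 16590600)) (l 16573168))))), by decide +kernel⟩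

def k16_pm_011_s : ∃ t, chk3 f_pm_011_s t 11 7 1 = true :=
  ⟨(b (c (b (a (b (a (b (l 3) (a (b (l 3) (l 577840849847)) (c (l 282561773975) (l 283635514807)))) (b (a (b (l 624548602775) (l 286319896135)) (l 253033914007)) (a (l 16763592) (l 16752712)))) (a (b (a (l 245517719559) (l 16757688)) (l 16746104)) (b (l 16741072) (l 16723584)))) (b (a (b (l 16753064) (l 16736336)) (l 16722848)) (a (l 16710152) (l 16688120)))) (a (b (a (b (l 16728736) (l 16711136)) (l 16696760)) (a (l 16684520) (l 16618592))) (b (a (l 16631704) (l 16630424)) (l 16624920)))) (b (a (b (a (b (l 3) (a (b (l 3) (l 591262620711)) (c (l 285782997143) (l 278266803719)))) (b (a (b (l 640654726631) (l 286856765079)) (b (l 16752320) (l 16765112))) (a (l 16763568) (l 16752656)))) (a (b (a (b (l 279340593303) (l 16764408)) (l 16757768)) (c (l 16746328) (l 16746488))) (b (c (l 16741256) (l 16741408)) (l 16724352)))) (b (a (b (a (l 16758288) (l 16747280)) (l 16736224)) (b (l 16730664) (l 16714272))) (a (b (l 16719400) (l 16702296))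 (l 16688912)))) (a (b (a (b (l 16729464) (l 16712376)) (b (l 16707216) (l 16668976))) (a (l 16686552) (l 16663840))) (b (a (l 16676224) (l 16654344)) (a (l 16620184) (l 16598016)))))) (b (c (a (b (a (l 16607312) (l 16603544)) (l 16600848)) (b (l 16524792) (l 16508296))) (a (b (a (l 16651960) (l 16586952)) (a (l 16593696) (l 16570360))) (b (l 16594600) (l 16493768)))) (a (b (a (l 16536480) (l 16532632)) (a (l 16548864) (l 16502600))) (b (c (l 16493384) (l 16477136)) (l 16422968))))), by decide +kernel⟩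

def k17_pm_011_s : ∃ t, chk3 f_pm_011_s t 3 6 1 = true :=
  ⟨(a (b (a (b (l 3) (a (l 3) (b (l 3) (a (l 3) (b (l 3) (a (l 629380425175) (l 286856749495))))))) (b (l 1) (a (b (l 1) (a (c (l 253436498727) (l 251289009095)) (l 1))) (l 1)))) (a (a (b (b (l 3) (a (b (l 3) (c (l 588041363351) (l 612200549367))) (c (b (l 510731963527) (l 16740432)) (b (l 335711934519) (l 16745408))))) (b (a (c (b (l 275582440919) (l 16757264)) (c (b (l 268066248039) (l 16756968)) (l 260550036087))) (c (l 16742552) (l 16741840))) (a (c (l 16733096) (b (l 16740584) (l 16724424))) (c (l 16710632) (l 16709720))))) (b (c (b (a (b (l 602536873895) (l 312626531879)) (a (l 16734456) (l 16753936))) (a (l 16756728) (l 16727824))) (b (a (b (l 628306672071) (l 326585170263)) (b (l 16746792) (l 16751112))) (a (l 16756032) (l 16726496)))) (b (a (c (l 16719568) (l 16718408)) (l 16695560)) (a (l 16687408) (l 16664552))))) (b (a (b (a (c (l 16735528) (l 16734120)) (l 16735488)) (a (l 16723856) (l 16678088))) (b (l 1) (l 16681448)))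 (a (b (a (l 16671960) (l 16647872)) (a (l 16641608) (l 16618240))) (b (l 16610224) (l 16581784)))))) (b (l 1) (a (b (l 1) (a (b (l 1) (l 16530624)) (l 1))) (l 1)))), by decide +kernel⟩

def k18_pm_011_s : ∃ t, chk3 f_pm_011_s t 3 7 1 = true :=
  ⟨(a (b (a (b (a (a (b (b (l 16708664) (l 16692304)) (l 16687720)) (b (l 16704440) (l 16644848))) (b (c (l 16645184) (l 16644464)) (c (l 16611712) (l 16612688)))) (a (c (b (l 16618352) (l 16580584)) (b (l 16621824) (l 16586896))) (b (l 16577688) (l 16542008)))) (b (a (b (l 16600040) (l 16568744)) (b (l 16553352) (l 16523648))) (a (b (l 16535728) (l 16501536)) (l 16476200)))) (a (b (a (b (c (l 16500312) (l 16551320)) (c (l 16482328) (l 16471184))) (b (a (l 16515512) (l 16495768)) (l 16467368))) (a (b (l 16386768) (l 16376144)) (b (l 16429856) (l 16397608)))) (b (a (b (l 16466712) (l 16430144)) (l 16472312)) (a (c (l 16369448) (l 16385008)) (l 16342712))))) (b (a (b (a (l 16489352) (l 16438208)) (a (l 16431064) (l 16383112))) (b (l 1) (a (l 16333232)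 (l 1)))) (a (b (a (l 16368520) (l 16325416)) (a (l 16306504) (l 16268584))) (b (a (l 16279752) (l 16232464)) (l 16354296))))), by decide +kernel⟩

theorem s19_pm_011_s : ∃ t, chk3 f_pm_011_s t 3 3 1 = true := ex3_b k17_pm_011_s k18_pm_011_s

theorem s20_pm_011_s : ∃ t, chk3 f_pm_011_s t 10 7 1 = true := ex3_b k14_pm_011_s k15_pm_011_s

theorem s21_pm_011_s : ∃ t, chk3 f_pm_011_s t 5 7 1 = true := ex3_a s20_pm_011_s k16_pm_011_s

theorem s22_pm_011_s : ∃ t, chk3 f_pm_011_s t 9 61 1 = true := ex3_b k11_pm_011_s k12_pm_011_s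

theorem s23_pm_011_s : ∃ t, chk3 f_pm_011_s t 9 30 1 = true := ex3_b k10_pm_011_s s22_pm_011_s

theorem s24_pm_011_s : ∃ t, chk3 f_pm_011_s t 9 15 1 = true := ex3_b s23_pm_011_s k13_pm_011_s

theorem s25_pm_011_s : ∃ t, chk3 f_pm_011_s t 34 125 1 = true := ex3_a k6_pm_011_s k7_pm_011_s

theorem s26_pm_011_s : ∃ t, chk3 f_pm_011_s t 34 62 1 = true := ex3_b k5_pm_011_s s25_pm_011_s

theorem s27_pm_011_s : ∃ t, chk3 f_pm_011_s t 17 62 1 = true := ex3_a s26_pm_011_s k8_pm_011_s

theorem s28_pm_011_s : ∃ t, chk3 f_pm_011_s t 17 31 1 = true := ex3_b s27_pm_011_s k9_pm_011_s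

theorem s29_pm_011_s : ∃ t, chk3 f_pm_011_s t 8 31 1 = true := ex3_a k4_pm_011_s s28_pm_011_s

theorem s30_pm_011_s : ∃ t, chk3 f_pm_011_s t 8 15 1 = true := ex3_b k3_pm_011_s s29_pm_011_s

theorem s31_pm_011_s : ∃ t, chk3 f_pm_011_s t 4 15 1 = true := ex3_a s30_pm_011_s s24_pm_011_s

theorem s32_pm_011_s : ∃ t, chk3 f_pm_011_s t 4 7 1 = true := ex3_b k2_pm_011_s s31_pm_011_s

theorem s33_pm_011_s : ∃ t, chk3 f_pm_011_s t 2 7 1 = true := ex3_a s32_pm_011_s s21_pm_011_s

theorem s34_pm_011_s : ∃ t, chk3 f_pm_011_s t 2 3 1 = true := ex3_b k1_pm_011_s s33_pm_011_s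

theorem s35_pm_011_s : ∃ t, chk3 f_pm_011_s t 1 3 1 = true := ex3_a s34_pm_011_s s19_pm_011_s

theorem s36_pm_011_s : ∃ t, chk3 f_pm_011_s t 1 1 1 = true := ex3_b k0_pm_011_s s35_pm_011_s

theorem c_pm_011_s : CertNE 0 536870912 536870912 536870912 966367641 24778659 3 eng mog cd0q0 cd4q1 pd1 true true false .pnn 0 1 1
    ndB0q0 ndB4q1 pcB1 cut_pm_011_s Ext.none :=
  certNE1 (fam := true) (s1 := true) (s2 := false) (a := 0) (b := 1) (c := 1) (cn := .pnn) (n1 := ndB0q0) (n2 := ndB4q1) (pc := pcB1) (cut := cut_pm_011_s) (xt := Ext.none) (P1 := 0) (W1 := 536870912) (P2 := 536870912) (W2 := 536870912) (P3 := 966367641) (W3 := 24778659) (N0 := 3) (En := eng) (mo := mog) (C1 := cd0q0) (C2 := cd4q1) (C3 := pd1)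
    rfl (fun _ => rfl) s36_pm_011_s

noncomputable def cut_pm_012_s : Cut := Cut.of [[⟨4, 0, 0, 1449551462⟩], [⟨0, 0, 0, 67108864⟩, ⟨1, 1, 0, 67108864⟩, ⟨2, 1, 0, 67108864⟩]]

noncomputable def f_pm_012_s : ℕ → ℕ → ℕ → ℕ → Bool := onCell 1073741824 536870912 536870912 536870912 966367641 24778659
    (rowNE 3 eng mog cd0q0 cd4q1 pd2 2 true true false .pnp 0 1 2 (qsf 0 536870912 536870912 536870912 2) ndB0q0 ndB4q1 pcB2 cut_pm_012_s Ext.none)

def k0_pm_012_s : ∃ t, chk3 f_pm_012_s t 2 2 1 = true :=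
  ⟨(a (b (a (b (a (b (l 16132320) (l 16183352)) (l 6)) (a (b (l 16233008) (l 16279168)) (b (l 16138448) (l 16182224)))) (l 6)) (b (a (b (a (l 16317912) (l 16223640)) (a (a (l 16353800) (l 16345496)) (l 16262552))) (a (b (l 16124416) (l 16157664)) (l 6))) (b (a (a (a (l 16392280) (l 16385776)) (l 16297920)) (a (l 16185432) (l 16081264))) (a (a (a (l 16393976) (l 16418520)) (l 16325240)) (a (l 16207080) (l 16074392)))))) (b (l 6) (l 6))), by decide +kernel⟩

def k1_pm_012_s : ∃ t, chk3 f_pm_012_s t 4 6 1 = true :=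
  ⟨(a (b (a (b (a (l 16401896) (l 16441960)) (a (c (l 16531176) (l 16529088)) (b (l 16454248) (l 16460352)))) (b (a (l 16376544) (l 16312768)) (c (l 16362912) (l 16282008)))) (a (b (a (b (l 16544144) (l 16554880)) (b (l 16465440) (l 16470800))) (a (b (l 16565704) (a (l 16600416) (l 16551152))) (b (l 16476088) (l 16480320)))) (b (a (b (l 16391256) (l 16392208)) (b (l 16320488) (l 16317848))) (a (b (l 16392216) (l 16391168)) (b (l 16313856) (l 16307752)))))) (b (a (b (l 16219640) (a (l 16255112) (l 16191608))) (b (l 16039400) (l 15994352))) (a (b (a (l 16208520) (l 16183280)) (a (b (l 16239840) (l 16229840)) (b (l 16169480) (l 16156248)))) (b (a (l 16118360) (l 16055480)) (a (l 16094512) (l 16027960)))))), by decide +kernel⟩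

def k2_pm_012_s : ∃ t, chk3 f_pm_012_s t 8 7 1 = true :=
  ⟨(b (a (b (a (b (a (l 16611152) (l 16558872)) (a (b (l 16597920) (l 16603576)) (l 16524000))) (b (l 16462776) (a (l 16512984) (l 16461304)))) (a (a (a (b (l 16628544) (a (l 16654160) (l 16637832))) (b (l 16619144) (l 16592568))) (b (a (l 16589640) (l 16560560)) (a (l 16602736) (l 16571600)))) (b (a (l 16518168) (l 16463232)) (a (a (l 16541104) (l 16511264)) (l 16488904))))) (b (a (b (l 16389232) (l 16387000)) (b (l 16300784) (l 16293464))) (a (b (a (l 16411016) (l 16360016)) (a (l 16411984) (l 16357904))) (b (l 16286648) (c (l 16293088) (l 16268976)))))) (a (b (a (b (a (a (b (l 16660616) (l 14)) (c (l 16633728) (l 16629688))) (b (a (l 16614944) (l 16582440)) (a (l 16623768) (l 16590560)))) (a (l 14) (a (l 14) (b (l 16599144) (l 14))))) (b (a (a (l 16564648) (l 16522376)) (b (l 16473440) (l 16478568))) (a (b (a (l 16565792) (l 16532960)) (a (l 14) (l 16540768))) (b (l 16505640) (a (l 16507800) (l 16475336)))))) (a (l 14) (b (a (l 14)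 (b (a (l 14) (l 16482536)) (l 14))) (l 14)))) (b (a (b (a (b (l 16414576) (l 16417784)) (b (l 16358360) (l 16359464))) (a (b (l 16422136) (l 16443288)) (b (l 16361944) (l 16365664)))) (b (a (l 16303904) (l 16250704)) (a (b (l 16304160) (l 16306056)) (c (l 16264952) (l 16211384))))) (a (b (a (b (c (l 16444832) (l 16422584)) (c (l 16452064) (l 16429368))) (b (l 16383672) (c (l 16389872) (l 16362664)))) (a (l 14) (b (c (l 16386392) (l 16369064)) (l 14)))) (b (a (b (l 16309304) (b (l 16312560) (l 16315112))) (b (l 16229296) (l 16242696))) (a (b (a (l 16314208) (l 16282792)) (c (l 16331792) (l 16298832))) (b (b (l 16235296) (l 16258744)) (c (l 16260416) (l 16223192))))))))), by decide +kernel⟩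

def k3_pm_012_s : ∃ t, chk3 f_pm_012_s t 9 7 1 = true :=
  ⟨(b (a (b (a (b (l 16218016) (l 16205888)) (b (l 16140696) (l 16123896))) (a (b (l 16194216) (l 16183848)) (b (l 16107624) (l 16092624)))) (b (a (b (l 16067648) (l 16047288)) (b (l 15998208) (l 15974896))) (a (b (l 16026528) (l 16007128)) (c (l 15938360) (l 15918464))))) (a (b (a (b (b (l 16177136) (l 16173312)) (a (b (l 16195736) (l 16194096)) (b (l 16144632) (l 16141360)))) (b (l 16079304) (b (l 16070720) (l 16065904)))) (a (b (a (b (l 16193568) (l 16173760)) (b (l 16139352) (l 16117600))) (a (b (l 16192224) (a (l 16195872) (l 16186640))) (b (l 16118616) (c (l 16164728) (l 16119352))))) (b (a (b (l 16087088) (l 16084864)) (b (l 16036880) (l 16033080))) (a (b (l 16104936) (l 16064024)) (b (l 16030776) (l 16050896)))))) (b (a (b (l 15968408) (b (l 15977464) (l 15949456))) (b (l 15884104) (l 15864392))) (c (b (a (l 16027432) (l 15894424)) (a (b (l 15980280) (l 15999840)) (l 15989248))) (a (b (l 15916008) (a (l 15951504) (l 15900072)))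 (b (l 15842520) (l 15869328))))))), by decide +kernel⟩

def k4_pm_012_s : ∃ t, chk3 f_pm_012_s t 5 3 1 = true :=
  ⟨(a (b (b (a (b (l 6) (l 15962424)) (l 6)) (a (b (c (l 15986912) (l 15940864)) (a (l 15963624) (a (l 15916800) (l 15886416)))) (b (l 6) (c (l 15839152) (l 15784400))))) (b (a (b (a (l 15918888) (a (l 15869336) (b (l 15828632) (l 15801520)))) (a (b (l 15879136) (l 15852216)) (a (l 15792280) (a (l 15788072) (l 15750304))))) (b (a (l 15789608) (l 6)) (b (l 15712640) (l 15681016)))) (a (a (b (b (l 15826144) (l 15907280)) (b (c (l 15809144) (l 15753872)) (a (l 15787376) (l 15743376)))) (b (a (b (l 15770432) (l 15743712)) (a (b (l 15743552) (l 15715584)) (b (l 15726216) (l 15697480)))) (a (b (l 15720272) (l 15700904)) (b (a (l 15690816) (l 15671888)) (a (l 15670120) (l 15734280)))))) (a (b (b (l 15682680) (l 15652256)) (b (l 15624208) (l 15705224))) (b (b (l 15614976) (l 15581848)) (b (l 15550688) (l 15564784))))))) (a (b (l 6) (b (l 6) (a (b (l 15511032) (b (l 15480768) (l 15470800)))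 (l 6)))) (l 6))), by decide +kernel⟩

def k5_pm_012_s : ∃ t, chk3 f_pm_012_s t 3 1 1 = true :=
  ⟨(b (l 6) (l 6)), by decide +kernel⟩

theorem s6_pm_012_s : ∃ t, chk3 f_pm_012_s t 4 7 1 = true := ex3_a k2_pm_012_s k3_pm_012_s

theorem s7_pm_012_s : ∃ t, chk3 f_pm_012_s t 4 3 1 = true := ex3_b k1_pm_012_s s6_pm_012_s

theorem s8_pm_012_s : ∃ t, chk3 f_pm_012_s t 2 3 1 = true := ex3_a s7_pm_012_s k4_pm_012_s

theorem s9_pm_012_s : ∃ t, chk3 f_pm_012_s t 2 1 1 = true := ex3_b k0_pm_012_s s8_pm_012_s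

theorem s10_pm_012_s : ∃ t, chk3 f_pm_012_s t 1 1 1 = true := ex3_a s9_pm_012_s k5_pm_012_s

theorem c_pm_012_s : CertNE 0 536870912 536870912 536870912 966367641 24778659 3 eng mog cd0q0 cd4q1 pd2 true true false .pnp 0 1 2
    ndB0q0 ndB4q1 pcB2 cut_pm_012_s Ext.none :=
  certNE2 (fam := true) (s1 := true) (s2 := false) (a := 0) (b := 1) (c := 2) (cn := .pnp) (n1 := ndB0q0) (n2 := ndB4q1) (pc := pcB2) (cut := cut_pm_012_s) (xt := Ext.none) (P1 := 0) (W1 := 536870912) (P2 := 536870912) (W2 := 536870912) (P3 := 966367641) (W3 := 24778659) (N0 := 3) (En := eng) (mo := mog) (C1 := cd0q0) (C2 := cd4q1) (C3 := pd2)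
    rfl (fun _ => rfl) s10_pm_012_s

noncomputable def cut_pm_022_s : Cut := Cut.of [[⟨4, 0, 0, 1449551462⟩], [⟨0, 0, 0, 67108864⟩, ⟨1, 1, 0, 67108864⟩, ⟨2, 1, 0, 67108864⟩]]

noncomputable def f_pm_022_s : ℕ → ℕ → ℕ → ℕ → Bool := onCell 0 536870912 1073741824 536870912 966367641 24778659
    (rowNE 3 eng mog cd0q0 cd4q2 pd2 1 true true false .pp 0 2 2 (qsf 0 536870912 1073741824 536870912 2) ndB0q0 ndB4q2 pcB2 cut_pm_022_s Ext.none)

def k0_pm_022_s : ∃ t, chk3 f_pm_022_s t 2 8 1 = true :=
  ⟨(a (a (b (a (l 14) (a (l 14) (l 1))) (a (b (l 14) (b (l 14) (b (l 14) (a (l 16560912) (l 16450320))))) (a (b (l 14) (b (l 14) (a (l 16405080) (a (l 16402224) (l 16372152))))) (a (b (l 14) (b (l 14) (b (l 14) (l 16326360)))) (b (l 1) (b (b (l 1) (l 16257424)) (c (l 16263720) (l 16226104)))))))) (a (b (l 1) (a (b (l 1) (b (l 1) (a (b (l 1) (l 16183984)) (l 1)))) (l 1))) (l 1))) (l 1)), by decide +kernel⟩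

def k1_pm_022_s : ∃ t, chk3 f_pm_022_s t 2 9 1 = true :=
  ⟨(a (a (a (b (a (b (b (l 16498808) (l 16471240)) (b (l 16464104) (l 16435536))) (b (b (l 16406040) (l 16445640)) (b (l 16443968) (l 16463896)))) (b (a (b (l 16406488) (l 16398128)) (l 16442184)) (a (b (l 16368616) (l 16359920)) (l 16442672)))) (a (b (a (b (b (l 16444784) (l 16443512)) (l 16401128)) (b (b (l 16385424) (l 16384720)) (l 16343360))) (b (l 16291024) (l 16337664))) (b (b (a (b (l 16335872) (l 16325136)) (b (b (l 16265112) (l 16264840)) (l 16264984))) (c (b (l 16316696) (l 16319416)) (l 16212360))) (b (c (l 16324832) (l 16279352)) (l 16247720))))) (a (b (b (a (b (a (b (l 16183448) (l 16183256)) (c (l 16165784) (l 16121432))) (a (c (l 16226008) (l 16182536)) (c (l 16166888) (l 16120976)))) (b (l 1) (c (l 16066064) (l 16009016)))) (a (b (c (l 16198688) (l 16152528)) (c (l 16202120) (l 16154552))) (b (c (l 16071000) (l 16009968)) (a (l 16068144) (l 16009232))))) (b (a (c (l 16209000) (l 16159496)) (b (a (l 16093296) (l 16034464))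 (l 16100560))) (a (c (l 16221112) (l 16169376)) (c (l 16106368) (l 16050808))))) (b (b (l 1) (a (b (l 1) (a (l 15972368) (l 1))) (l 1))) (a (b (b (a (l 15976568) (l 15919888)) (a (l 15982048) (l 15925264))) (b (l 15978520) (l 15967952))) (b (b (l 1) (l 98815907847)) (b (c (l 15877192) (l 15817840)) (l 15834576))))))) (a (a (b (l 1) (b (l 1) (a (b (l 1) (l 15787256)) (l 1)))) (l 1)) (l 1))), by decide +kernel⟩

def k2_pm_022_s : ∃ t, chk3 f_pm_022_s t 3 4 1 = true :=
  ⟨(l 1), by decide +kernel⟩

def k3_pm_022_s : ∃ t, chk3 f_pm_022_s t 4 5 1 = true :=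
  ⟨(b (a (b (b (a (c (a (l 16359752) (l 16445488)) (l 16254672)) (c (l 16230736) (l 16204144))) (a (b (l 16209288) (b (l 16207696) (l 16170392))) (b (l 16235768) (c (l 16307560) (l 16239224))))) (b (a (a (l 16219224) (l 16324560)) (l 16206448)) (a (a (l 16210696) (l 16272288)) (l 16272176)))) (b (a (a (b (l 16188376) (b (l 16221376) (l 16189120))) (b (l 16074248) (b (l 16109520) (l 16057920)))) (b (a (c (l 16010896) (l 15951376)) (b (l 15864480) (l 15874592))) (b (a (l 15997376) (l 15885912)) (b (a (l 16006312) (l 15895328)) (a (l 16013056) (l 15902408)))))) (a (a (b (l 16243072) (l 16255384)) (b (l 16135648) (l 16152696))) (a (b (l 16026864) (l 16047640)) (b (l 15917592) (l 15941248)))))) (a (a (b (a (l 16033864) (c (l 16194968) (l 16225456))) (a (l 16028312) (l 16065944))) (b (a (l 16154816) (l 16355856)) (l 15997888))) (a (b (a (l 16247152) (b (l 16168272) (l 16181576))) (a (l 16275384) (l 16194480))) (a (b (l 16035120) (l 16087824)) (b (l 15934528) (l 16019136)))))), by decide +kernel⟩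

def k4_pm_022_s : ∃ t, chk3 f_pm_022_s t 5 5 1 = true :=
  ⟨(b (a (b (b (a (a (b (l 15732848) (l 15742736)) (b (l 1) (l 15655168))) (l 1)) (a (b (a (l 15774992) (l 15665872)) (b (a (l 15784496) (l 15675048)) (a (l 15770664) (b (l 15680240) (l 15683880))))) (b (l 1) (b (l 1) (a (l 15658616) (l 1)))))) (a (b (a (l 15807520) (l 15676928)) (a (l 15833240) (l 15724600))) (b (a (l 180420106583) (l 178272314871)) (a (l 15616608) (l 189009768199))))) (b (l 1) (a (b (l 1) (a (l 15428624) (l 1))) (l 1)))) (a (a (a (b (l 15851760) (l 15924312)) (b (a (l 15793896) (l 15740824)) (l 15825800))) (b (b (c (l 15628200) (l 15555720)) (a (l 15676968) (l 15571464))) (a (l 15724504) (l 6)))) (b (a (a (b (l 15435464) (l 15466992)) (b (l 15334664) (l 6))) (b (l 1) (l 6))) (l 6)))), by decide +kernel⟩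

def k5_pm_022_s : ∃ t, chk3 f_pm_022_s t 3 5 1 = true :=
  ⟨(a (b (l 1) (l 6)) (l 1)), by decide +kernel⟩

def k6_pm_022_s : ∃ t, chk3 f_pm_022_s t 1 3 1 = true :=
  ⟨(b (a (b (a (b (a (a (l 15775856) (l 15995512)) (a (l 16236584) (a (l 16128984) (l 6)))) (a (a (l 15701160) (l 6)) (l 6))) (l 6)) (l 6)) (l 6)) (l 6)), by decide +kernel⟩

theorem s7_pm_022_s : ∃ t, chk3 f_pm_022_s t 2 5 1 = true := ex3_a k3_pm_022_s k4_pm_022_s

theorem s8_pm_022_s : ∃ t, chk3 f_pm_022_s t 1 5 1 = true := ex3_a s7_pm_022_s k5_pm_022_s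

theorem s9_pm_022_s : ∃ t, chk3 f_pm_022_s t 2 4 1 = true := ex3_b k0_pm_022_s k1_pm_022_s

theorem s10_pm_022_s : ∃ t, chk3 f_pm_022_s t 1 4 1 = true := ex3_a s9_pm_022_s k2_pm_022_s

theorem s11_pm_022_s : ∃ t, chk3 f_pm_022_s t 1 2 1 = true := ex3_b s10_pm_022_s s8_pm_022_s

theorem s12_pm_022_s : ∃ t, chk3 f_pm_022_s t 1 1 1 = true := ex3_b s11_pm_022_s k6_pm_022_s

theorem c_pm_022_s : CertNE 0 536870912 1073741824 536870912 966367641 24778659 3 eng mog cd0q0 cd4q2 pd2 true true false .pp 0 2 2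
    ndB0q0 ndB4q2 pcB2 cut_pm_022_s Ext.none :=
  certNE1 (fam := true) (s1 := true) (s2 := false) (a := 0) (b := 2) (c := 2) (cn := .pp) (n1 := ndB0q0) (n2 := ndB4q2) (pc := pcB2) (cut := cut_pm_022_s) (xt := Ext.none) (P1 := 0) (W1 := 536870912) (P2 := 1073741824) (W2 := 536870912) (P3 := 966367641) (W3 := 24778659) (N0 := 3) (En := eng) (mo := mog) (C1 := cd0q0) (C2 := cd4q2) (C3 := pd2)
    rfl (fun _ => rfl) s12_pm_022_s

noncomputable def cut_pm_023_s : Cut := Cut.of [[⟨4, 0, 0, 1449551462⟩]]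

noncomputable def f_pm_023_s : ℕ → ℕ → ℕ → ℕ → Bool := onCell 1610612736 536870912 1073741824 536870912 966367641 24778659
    (rowNE 3 eng mog cd0q0 cd4q2 pd3 2 true true false .up 0 2 3 (qsf 0 536870912 1073741824 536870912 3) ndB0q0 ndB4q2 pcB3 cut_pm_023_s Ext.none)

def k0_pm_023_s : ∃ t, chk3 f_pm_023_s t 1 1 1 = true :=
  ⟨(a (l 6) (l 6)), by decide +kernel⟩

theorem c_pm_023_s : CertNE 0 536870912 1073741824 536870912 966367641 24778659 3 eng mog cd0q0 cd4q2 pd3 true true false .up 0 2 3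
    ndB0q0 ndB4q2 pcB3 cut_pm_023_s Ext.none :=
  certNE2 (fam := true) (s1 := true) (s2 := false) (a := 0) (b := 2) (c := 3) (cn := .up) (n1 := ndB0q0) (n2 := ndB4q2) (pc := pcB3) (cut := cut_pm_023_s) (xt := Ext.none) (P1 := 0) (W1 := 536870912) (P2 := 1073741824) (W2 := 536870912) (P3 := 966367641) (W3 := 24778659) (N0 := 3) (En := eng) (mo := mog) (C1 := cd0q0) (C2 := cd4q2) (C3 := pd3)
    rfl (fun _ => rfl) k0_pm_023_s

noncomputable def cut_pm_033_s : Cut := Cut.of [[⟨4, 0, 0, 1449551462⟩]]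

noncomputable def f_pm_033_s : ℕ → ℕ → ℕ → ℕ → Bool := onCell 1610612736 536870912 0 1230186008 966367641 24778659
    (rowNE 3 eng mog cd0q0 cd4q3 pd3 2 true true false .pnn 0 3 3 (qsf 0 536870912 0 1230186008 3) ndB0q0 ndB4q3 pcB3 cut_pm_033_s Ext.none)

def k0_pm_033_s : ∃ t, chk3 f_pm_033_s t 1 1 1 = true :=
  ⟨(b (l 6) (l 6)), by decide +kernel⟩

theorem c_pm_033_s : CertNE 0 536870912 0 1230186008 966367641 24778659 3 eng mog cd0q0 cd4q3 pd3 true true false .pnn 0 3 3
    ndB0q0 ndB4q3 pcB3 cut_pm_033_s Ext.none :=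
  certNE2 (fam := true) (s1 := true) (s2 := false) (a := 0) (b := 3) (c := 3) (cn := .pnn) (n1 := ndB0q0) (n2 := ndB4q3) (pc := pcB3) (cut := cut_pm_033_s) (xt := Ext.none) (P1 := 0) (W1 := 536870912) (P2 := 0) (W2 := 1230186008) (P3 := 966367641) (W3 := 24778659) (N0 := 3) (En := eng) (mo := mog) (C1 := cd0q0) (C2 := cd4q3) (C3 := pd3)
    rfl (fun _ => rfl) k0_pm_033_s

noncomputable def cut_pm_101_s : Cut := Cut.of [[⟨4, 0, 0, 1449551462⟩]]

noncomputable def f_pm_101_s : ℕ → ℕ → ℕ → ℕ → Bool := onCell 536870912 536870912 536870912 536870912 966367641 24778659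
    (rowNE 3 eng mog cd0q1 cd4q0 pd1 1 true true false .npn 1 0 1 (qsf 536870912 536870912 0 536870912 1) ndB0q1 ndB4q0 pcB1 cut_pm_101_s Ext.none)

def k0_pm_101_s : ∃ t, chk3 f_pm_101_s t 1 2 1 = true :=
  ⟨(a (b (a (b (a (l 3) (a (a (l 3) (l 1)) (l 1))) (a (b (a (l 3) (b (l 3) (a (l 3) (l 550460404519)))) (a (b (l 3) (a (l 3) (l 324437640519))) (a (b (l 544554825367) (l 230485293303)) (b (l 233169646167) (l 16731320))))) (b (a (b (a (l 553144758967) (l 248067781719)) (a (l 222432227735) (l 16732880))) (b (l 1) (c (l 16564560) (l 16637248)))) (a (b (a (l 16732608) (l 16692920)) (a (l 16692208) (l 16653104))) (a (b (l 16653248) (l 16613720)) (l 16468488)))))) (a (b (l 1) (a (b (l 1) (c (l 103112595111) (l 16443888))) (l 1))) (l 1))) (a (b (a (b (a (b (a (l 319605803143) (l 221358489975)) (a (l 207936718919) (l 16729760))) (b (a (l 16730008) (l 16689952)) (a (l 16691360) (l 16651096)))) (a (b (a (l 16728584) (l 16692088)) (a (l 16691720) (l 16655608))) (b (l 16592152) (l 16598400)))) (b (a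 (b (l 16568984) (l 16590680)) (b (l 16554440) (l 16514760))) (a (b (l 16549512) (l 16515072)) (l 16348032)))) (a (b (a (b (l 16617352) (l 16603704)) (b (l 16563808) (l 16530224))) (a (b (l 16569960) (l 16537064)) (l 16481664))) (b (a (l 16465024) (l 16372448)) (a (l 16402896) (l 16314384))))) (b (a (b (a (a (l 16476320) (l 16438072)) (c (l 16367912) (l 16398456))) (a (l 16314784) (l 16301184))) (a (b (l 1) (l 16227472)) (l 1))) (a (a (b (l 16295008) (l 16213112)) (b (l 16220632) (l 16136136))) (a (b (l 16143936) (l 16061880)) (b (l 16070192) (l 15984472))))))) (a (b (l 1) (a (b (l 1) (a (b (l 1) (l 15910384)) (l 1))) (l 1))) (l 1))), by decide +kernel⟩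

def k1_pm_101_s : ∃ t, chk3 f_pm_101_s t 1 3 1 = true :=
  ⟨(a (b (a (b (a (b (a (l 16489552) (l 16420104)) (a (l 16428560) (l 16361864))) (b (a (l 16344560) (l 16260304)) (a (l 16289824) (l 16210136)))) (a (a (b (l 16372600) (l 16322880)) (b (l 16308776) (l 16261968))) (b (l 16204584) (l 16164056)))) (a (b (a (b (l 16164992) (l 16120376)) (b (l 16063112) (l 16022696))) (a (l 16060056) (l 15968648))) (b (a (l 15935576) (l 15855680)) (a (l 15869728) (l 6))))) (a (b (a (b (a (l 16276744) (l 16219000)) (l 16289608)) (b (l 16123120) (l 16081336))) (a (b (l 16330744) (l 16201008)) (b (l 16039384) (l 6)))) (b (a (b (l 15963808) (l 6)) (l 6)) (l 6)))) (b (a (a (l 6) (l 6)) (l 6)) (l 6))), by decide +kernel⟩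

theorem s2_pm_101_s : ∃ t, chk3 f_pm_101_s t 1 1 1 = true := ex3_b k0_pm_101_s k1_pm_101_s

theorem c_pm_101_s : CertNE 536870912 536870912 0 536870912 966367641 24778659 3 eng mog cd0q1 cd4q0 pd1 true true false .npn 1 0 1
    ndB0q1 ndB4q0 pcB1 cut_pm_101_s Ext.none :=
  certNE1 (fam := true) (s1 := true) (s2 := false) (a := 1) (b := 0) (c := 1) (cn := .npn) (n1 := ndB0q1) (n2 := ndB4q0) (pc := pcB1) (cut := cut_pm_101_s) (xt := Ext.none) (P1 := 536870912) (W1 := 536870912) (P2 := 0) (W2 := 536870912) (P3 := 966367641) (W3 := 24778659) (N0 := 3) (En := eng) (mo := mog) (C1 := cd0q1) (C2 := cd4q0) (C3 := pd1)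
    rfl (fun _ => rfl) s2_pm_101_s

noncomputable def cut_pm_102_s : Cut := Cut.of [[⟨4, 0, 0, 1449551462⟩]]

noncomputable def f_pm_102_s : ℕ → ℕ → ℕ → ℕ → Bool := onCell 536870912 536870912 1073741824 536870912 966367641 24778659
    (rowNE 3 eng mog cd0q1 cd4q0 pd2 1 true true false .npp 1 0 2 (qsf 536870912 536870912 0 536870912 2) ndB0q1 ndB4q0 pcB2 cut_pm_102_s Ext.none)

def k0_pm_102_s : ∃ t, chk3 f_pm_102_s t 1 1 1 = true :=
  ⟨(a (b (a (b (b (a (b (a (l 6) (l 6)) (l 6)) (l 6)) (l 6)) (l 6)) (l 6)) (l 6)) (l 6)), by decide +kernel⟩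

theorem c_pm_102_s : CertNE 536870912 536870912 0 536870912 966367641 24778659 3 eng mog cd0q1 cd4q0 pd2 true true false .npp 1 0 2
    ndB0q1 ndB4q0 pcB2 cut_pm_102_s Ext.none :=
  certNE1 (fam := true) (s1 := true) (s2 := false) (a := 1) (b := 0) (c := 2) (cn := .npp) (n1 := ndB0q1) (n2 := ndB4q0) (pc := pcB2) (cut := cut_pm_102_s) (xt := Ext.none) (P1 := 536870912) (W1 := 536870912) (P2 := 0) (W2 := 536870912) (P3 := 966367641) (W3 := 24778659) (N0 := 3) (En := eng) (mo := mog) (C1 := cd0q1) (C2 := cd4q0) (C3 := pd2)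
    rfl (fun _ => rfl) k0_pm_102_s

noncomputable def cut_pm_112_s : Cut := Cut.of [[⟨4, 0, 0, 1449551462⟩]]

noncomputable def f_pm_112_s : ℕ → ℕ → ℕ → ℕ → Bool := onCell 536870912 536870912 536870912 536870912 966367641 24778659
    (rowNE 3 eng mog cd0q1 cd4q1 pd2 0 true true false .dn 1 1 2 (qsf 536870912 536870912 536870912 536870912 2) ndB0q1 ndB4q1 pcB2 cut_pm_112_s Ext.none)

def k0_pm_112_s : ∃ t, chk3 f_pm_112_s t 1 1 1 = true :=
  ⟨(a (b (b (a (a (b (a (l 16068256) (l 6)) (l 6)) (l 6)) (l 6)) (l 6)) (l 6)) (l 6)), by decide +kernel⟩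

theorem c_pm_112_s : CertNE 536870912 536870912 536870912 536870912 966367641 24778659 3 eng mog cd0q1 cd4q1 pd2 true true false .dn 1 1 2
    ndB0q1 ndB4q1 pcB2 cut_pm_112_s Ext.none :=
  certNE0 (fam := true) (s1 := true) (s2 := false) (a := 1) (b := 1) (c := 2) (cn := .dn) (n1 := ndB0q1) (n2 := ndB4q1) (pc := pcB2) (cut := cut_pm_112_s) (xt := Ext.none) (P1 := 536870912) (W1 := 536870912) (P2 := 536870912) (W2 := 536870912) (P3 := 966367641) (W3 := 24778659) (N0 := 3) (En := eng) (mo := mog) (C1 := cd0q1) (C2 := cd4q1) (C3 := pd2)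
    rfl k0_pm_112_s

noncomputable def cut_pm_113_s : Cut := Cut.of [[⟨4, 0, 0, 1449551462⟩]]

noncomputable def f_pm_113_s : ℕ → ℕ → ℕ → ℕ → Bool := onCell 536870912 536870912 1610612736 536870912 966367641 24778659
    (rowNE 3 eng mog cd0q1 cd4q1 pd3 1 true true false .nn 1 1 3 (qsf 536870912 536870912 536870912 536870912 3) ndB0q1 ndB4q1 pcB3 cut_pm_113_s Ext.none)

def k0_pm_113_s : ∃ t, chk3 f_pm_113_s t 1 1 1 = true :=
  ⟨(l 6), by decide +kernel⟩

theorem c_pm_113_s : CertNE 536870912 536870912 536870912 536870912 966367641 24778659 3 eng mog cd0q1 cd4q1 pd3 true true false .nn 1 1 3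
    ndB0q1 ndB4q1 pcB3 cut_pm_113_s Ext.none :=
  certNE1 (fam := true) (s1 := true) (s2 := false) (a := 1) (b := 1) (c := 3) (cn := .nn) (n1 := ndB0q1) (n2 := ndB4q1) (pc := pcB3) (cut := cut_pm_113_s) (xt := Ext.none) (P1 := 536870912) (W1 := 536870912) (P2 := 536870912) (W2 := 536870912) (P3 := 966367641) (W3 := 24778659) (N0 := 3) (En := eng) (mo := mog) (C1 := cd0q1) (C2 := cd4q1) (C3 := pd3)
    rfl (fun _ => rfl) k0_pm_113_s

noncomputable def cut_pm_123_s : Cut := Cut.of [[⟨4, 0, 0, 1449551462⟩]]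

noncomputable def f_pm_123_s : ℕ → ℕ → ℕ → ℕ → Bool := onCell 536870912 536870912 1073741824 536870912 966367641 24778659
    (rowNE 3 eng mog cd0q1 cd4q2 pd3 0 true true false .npn 1 2 3 (qsf 536870912 536870912 1073741824 536870912 3) ndB0q1 ndB4q2 pcB3 cut_pm_123_s Ext.none)

def k0_pm_123_s : ∃ t, chk3 f_pm_123_s t 1 1 1 = true :=
  ⟨(l 6), by decide +kernel⟩

theorem c_pm_123_s : CertNE 536870912 536870912 1073741824 536870912 966367641 24778659 3 eng mog cd0q1 cd4q2 pd3 true true false .npn 1 2 3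
    ndB0q1 ndB4q2 pcB3 cut_pm_123_s Ext.none :=
  certNE0 (fam := true) (s1 := true) (s2 := false) (a := 1) (b := 2) (c := 3) (cn := .npn) (n1 := ndB0q1) (n2 := ndB4q2) (pc := pcB3) (cut := cut_pm_123_s) (xt := Ext.none) (P1 := 536870912) (W1 := 536870912) (P2 := 1073741824) (W2 := 536870912) (P3 := 966367641) (W3 := 24778659) (N0 := 3) (En := eng) (mo := mog) (C1 := cd0q1) (C2 := cd4q2) (C3 := pd3)
    rfl k0_pm_123_s

noncomputable def cut_pm_133_s : Cut := Cut.of [[⟨4, 0, 0, 1449551462⟩]]

noncomputable def f_pm_133_s : ℕ → ℕ → ℕ → ℕ → Bool := onCell 536870912 536870912 0 1230186008 966367641 24778659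
    (rowNE 3 eng mog cd0q1 cd4q3 pd3 0 true true false .dn 1 3 3 (qsf 536870912 536870912 0 1230186008 3) ndB0q1 ndB4q3 pcB3 cut_pm_133_s Ext.none)

def k0_pm_133_s : ∃ t, chk3 f_pm_133_s t 1 1 1 = true :=
  ⟨(l 6), by decide +kernel⟩

theorem c_pm_133_s : CertNE 536870912 536870912 0 1230186008 966367641 24778659 3 eng mog cd0q1 cd4q3 pd3 true true false .dn 1 3 3
    ndB0q1 ndB4q3 pcB3 cut_pm_133_s Ext.none :=
  certNE0 (fam := true) (s1 := true) (s2 := false) (a := 1) (b := 3) (c := 3) (cn := .dn) (n1 := ndB0q1) (n2 := ndB4q3) (pc := pcB3) (cut := cut_pm_133_s) (xt := Ext.none) (P1 := 536870912) (W1 := 536870912) (P2 := 0) (W2 := 1230186008) (P3 := 966367641) (W3 := 24778659) (N0 := 3) (En := eng) (mo := mog) (C1 := cd0q1) (C2 := cd4q3) (C3 := pd3)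
    rfl k0_pm_133_s

noncomputable def cut_pm_202_s : Cut := Cut.of [[⟨4, 0, 0, 1449551462⟩]]

noncomputable def f_pm_202_s : ℕ → ℕ → ℕ → ℕ → Bool := onCell 0 536870912 0 536870912 966367641 24778659
    (rowNE 3 eng mog cd0q2 cd4q0 pd2 0 true true false .pp 2 0 2 (qsf 0 536870912 0 536870912 2) ndB0q2 ndB4q0 pcB2 cut_pm_202_s Ext.none)

def k0_pm_202_s : ∃ t, chk3 f_pm_202_s t 1 1 1 = true :=
  ⟨(l 6), by decide +kernel⟩

theorem c_pm_202_s : CertNE 0 536870912 0 536870912 966367641 24778659 3 eng mog cd0q2 cd4q0 pd2 true true false .pp 2 0 2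
    ndB0q2 ndB4q0 pcB2 cut_pm_202_s Ext.none :=
  certNE0 (fam := true) (s1 := true) (s2 := false) (a := 2) (b := 0) (c := 2) (cn := .pp) (n1 := ndB0q2) (n2 := ndB4q0) (pc := pcB2) (cut := cut_pm_202_s) (xt := Ext.none) (P1 := 0) (W1 := 536870912) (P2 := 0) (W2 := 536870912) (P3 := 966367641) (W3 := 24778659) (N0 := 3) (En := eng) (mo := mog) (C1 := cd0q2) (C2 := cd4q0) (C3 := pd2)
    rfl k0_pm_202_s

noncomputable def cut_pm_203_s : Cut := Cut.of [[⟨4, 0, 0, 1449551462⟩]]

noncomputable def f_pm_203_s : ℕ → ℕ → ℕ → ℕ → Bool := onCell 0 536870912 0 536870912 966367641 24778659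
    (rowNE 3 eng mog cd0q2 cd4q0 pd3 0 true true false .up 2 0 3 (qsf 0 536870912 0 536870912 3) ndB0q2 ndB4q0 pcB3 cut_pm_203_s Ext.none)

def k0_pm_203_s : ∃ t, chk3 f_pm_203_s t 1 1 1 = true :=
  ⟨(l 6), by decide +kernel⟩

theorem c_pm_203_s : CertNE 0 536870912 0 536870912 966367641 24778659 3 eng mog cd0q2 cd4q0 pd3 true true false .up 2 0 3
    ndB0q2 ndB4q0 pcB3 cut_pm_203_s Ext.none :=
  certNE0 (fam := true) (s1 := true) (s2 := false) (a := 2) (b := 0) (c := 3) (cn := .up) (n1 := ndB0q2) (n2 := ndB4q0) (pc := pcB3) (cut := cut_pm_203_s) (xt := Ext.none) (P1 := 0) (W1 := 536870912) (P2 := 0) (W2 := 536870912) (P3 := 966367641) (W3 := 24778659) (N0 := 3) (En := eng) (mo := mog) (C1 := cd0q2) (C2 := cd4q0) (C3 := pd3)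
    rfl k0_pm_203_s

noncomputable def cut_pm_213_s : Cut := Cut.of [[⟨4, 0, 0, 1449551462⟩]]

noncomputable def f_pm_213_s : ℕ → ℕ → ℕ → ℕ → Bool := onCell 0 536870912 536870912 536870912 966367641 24778659
    (rowNE 3 eng mog cd0q2 cd4q1 pd3 0 true true false .pnn 2 1 3 (qsf 0 536870912 536870912 536870912 3) ndB0q2 ndB4q1 pcB3 cut_pm_213_s Ext.none)

def k0_pm_213_s : ∃ t, chk3 f_pm_213_s t 1 1 1 = true :=
  ⟨(l 6), by decide +kernel⟩

theorem c_pm_213_s : CertNE 0 536870912 536870912 536870912 966367641 24778659 3 eng mog cd0q2 cd4q1 pd3 true true false .pnn 2 1 3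
    ndB0q2 ndB4q1 pcB3 cut_pm_213_s Ext.none :=
  certNE0 (fam := true) (s1 := true) (s2 := false) (a := 2) (b := 1) (c := 3) (cn := .pnn) (n1 := ndB0q2) (n2 := ndB4q1) (pc := pcB3) (cut := cut_pm_213_s) (xt := Ext.none) (P1 := 0) (W1 := 536870912) (P2 := 536870912) (W2 := 536870912) (P3 := 966367641) (W3 := 24778659) (N0 := 3) (En := eng) (mo := mog) (C1 := cd0q2) (C2 := cd4q1) (C3 := pd3)
    rfl k0_pm_213_s

noncomputable def cut_mm_001_s : Cut := Cut.of [[⟨4, 0, 0, 1449551462⟩]]

noncomputable def f_mm_001_s : ℕ → ℕ → ℕ → ℕ → Bool := onCell 0 536870912 0 536870912 966367641 24778659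
    (rowNE 3 eng mog cd0q0 cd4q0 pd1 0 true false false .up 0 0 1 (qsf 0 536870912 0 536870912 1) ndB0q0 ndB4q0 pcB1 cut_mm_001_s Ext.none)

def k0_mm_001_s : ∃ t, chk3 f_mm_001_s t 1 1 1 = true :=
  ⟨(l 4), by decide +kernel⟩

theorem c_mm_001_s : CertNE 0 536870912 0 536870912 966367641 24778659 3 eng mog cd0q0 cd4q0 pd1 true false false .up 0 0 1
    ndB0q0 ndB4q0 pcB1 cut_mm_001_s Ext.none :=
  certNE0 (fam := true) (s1 := false) (s2 := false) (a := 0) (b := 0) (c := 1) (cn := .up) (n1 := ndB0q0) (n2 := ndB4q0) (pc := pcB1) (cut := cut_mm_001_s) (xt := Ext.none) (P1 := 0) (W1 := 536870912) (P2 := 0) (W2 := 536870912) (P3 := 966367641) (W3 := 24778659) (N0 := 3) (En := eng) (mo := mog) (C1 := cd0q0) (C2 := cd4q0) (C3 := pd1)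
    rfl k0_mm_001_s

noncomputable def cut_mm_011_s : Cut := Cut.of [[⟨4, 0, 0, 1449551462⟩]]

noncomputable def f_mm_011_s : ℕ → ℕ → ℕ → ℕ → Bool := onCell 0 536870912 536870912 536870912 966367641 24778659
    (rowNE 3 eng mog cd0q0 cd4q1 pd1 0 true false false .pnn 0 1 1 (qsf 0 536870912 536870912 536870912 1) ndB0q0 ndB4q1 pcB1 cut_mm_011_s Ext.none)

def k0_mm_011_s : ∃ t, chk3 f_mm_011_s t 1 1 1 = true :=
  ⟨(l 4), by decide +kernel⟩

theorem c_mm_011_s : CertNE 0 536870912 536870912 536870912 966367641 24778659 3 eng mog cd0q0 cd4q1 pd1 true false false .pnn 0 1 1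
    ndB0q0 ndB4q1 pcB1 cut_mm_011_s Ext.none :=
  certNE0 (fam := true) (s1 := false) (s2 := false) (a := 0) (b := 1) (c := 1) (cn := .pnn) (n1 := ndB0q0) (n2 := ndB4q1) (pc := pcB1) (cut := cut_mm_011_s) (xt := Ext.none) (P1 := 0) (W1 := 536870912) (P2 := 536870912) (W2 := 536870912) (P3 := 966367641) (W3 := 24778659) (N0 := 3) (En := eng) (mo := mog) (C1 := cd0q0) (C2 := cd4q1) (C3 := pd1)
    rfl k0_mm_011_s

noncomputable def cut_mm_012_s : Cut := Cut.of [[⟨4, 0, 0, 1449551462⟩]]

noncomputable def f_mm_012_s : ℕ → ℕ → ℕ → ℕ → Bool := onCell 0 536870912 536870912 536870912 966367641 24778659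
    (rowNE 3 eng mog cd0q0 cd4q1 pd2 0 true false false .pnp 0 1 2 (qsf 0 536870912 536870912 536870912 2) ndB0q0 ndB4q1 pcB2 cut_mm_012_s Ext.none)

def k0_mm_012_s : ∃ t, chk3 f_mm_012_s t 1 1 1 = true :=
  ⟨(l 4), by decide +kernel⟩

theorem c_mm_012_s : CertNE 0 536870912 536870912 536870912 966367641 24778659 3 eng mog cd0q0 cd4q1 pd2 true false false .pnp 0 1 2
    ndB0q0 ndB4q1 pcB2 cut_mm_012_s Ext.none :=
  certNE0 (fam := true) (s1 := false) (s2 := false) (a := 0) (b := 1) (c := 2) (cn := .pnp) (n1 := ndB0q0) (n2 := ndB4q1) (pc := pcB2) (cut := cut_mm_012_s) (xt := Ext.none) (P1 := 0) (W1 := 536870912) (P2 := 536870912) (W2 := 536870912) (P3 := 966367641) (W3 := 24778659) (N0 := 3) (En := eng) (mo := mog) (C1 := cd0q0) (C2 := cd4q1) (C3 := pd2)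
    rfl k0_mm_012_s

noncomputable def cut_mm_022_s : Cut := Cut.of [[⟨4, 0, 0, 1449551462⟩]]

noncomputable def f_mm_022_s : ℕ → ℕ → ℕ → ℕ → Bool := onCell 0 536870912 1073741824 536870912 966367641 24778659
    (rowNE 3 eng mog cd0q0 cd4q2 pd2 0 true false false .pp 0 2 2 (qsf 0 536870912 1073741824 536870912 2) ndB0q0 ndB4q2 pcB2 cut_mm_022_s Ext.none)

def k0_mm_022_s : ∃ t, chk3 f_mm_022_s t 1 1 1 = true :=
  ⟨(l 4), by decide +kernel⟩

theorem c_mm_022_s : CertNE 0 536870912 1073741824 536870912 966367641 24778659 3 eng mog cd0q0 cd4q2 pd2 true false false .pp 0 2 2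
    ndB0q0 ndB4q2 pcB2 cut_mm_022_s Ext.none :=
  certNE0 (fam := true) (s1 := false) (s2 := false) (a := 0) (b := 2) (c := 2) (cn := .pp) (n1 := ndB0q0) (n2 := ndB4q2) (pc := pcB2) (cut := cut_mm_022_s) (xt := Ext.none) (P1 := 0) (W1 := 536870912) (P2 := 1073741824) (W2 := 536870912) (P3 := 966367641) (W3 := 24778659) (N0 := 3) (En := eng) (mo := mog) (C1 := cd0q0) (C2 := cd4q2) (C3 := pd2)
    rfl k0_mm_022_s

noncomputable def cut_mm_023_s : Cut := Cut.of [[⟨4, 0, 0, 1449551462⟩]]

noncomputable def f_mm_023_s : ℕ → ℕ → ℕ → ℕ → Bool := onCell 0 536870912 1073741824 536870912 966367641 24778659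
    (rowNE 3 eng mog cd0q0 cd4q2 pd3 0 true false false .up 0 2 3 (qsf 0 536870912 1073741824 536870912 3) ndB0q0 ndB4q2 pcB3 cut_mm_023_s Ext.none)

def k0_mm_023_s : ∃ t, chk3 f_mm_023_s t 1 1 1 = true :=
  ⟨(l 4), by decide +kernel⟩

theorem c_mm_023_s : CertNE 0 536870912 1073741824 536870912 966367641 24778659 3 eng mog cd0q0 cd4q2 pd3 true false false .up 0 2 3
    ndB0q0 ndB4q2 pcB3 cut_mm_023_s Ext.none :=
  certNE0 (fam := true) (s1 := false) (s2 := false) (a := 0) (b := 2) (c := 3) (cn := .up) (n1 := ndB0q0) (n2 := ndB4q2) (pc := pcB3) (cut := cut_mm_023_s) (xt := Ext.none) (P1 := 0) (W1 := 536870912) (P2 := 1073741824) (W2 := 536870912) (P3 := 966367641) (W3 := 24778659) (N0 := 3) (En := eng) (mo := mog) (C1 := cd0q0) (C2 := cd4q2) (C3 := pd3)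
    rfl k0_mm_023_s

noncomputable def cut_mm_033_s : Cut := Cut.of [[⟨4, 0, 0, 1449551462⟩]]

noncomputable def f_mm_033_s : ℕ → ℕ → ℕ → ℕ → Bool := onCell 0 536870912 0 1230186008 966367641 24778659
    (rowNE 3 eng mog cd0q0 cd4q3 pd3 0 true false false .pnn 0 3 3 (qsf 0 536870912 0 1230186008 3) ndB0q0 ndB4q3 pcB3 cut_mm_033_s Ext.none)

def k0_mm_033_s : ∃ t, chk3 f_mm_033_s t 1 1 1 = true :=
  ⟨(l 4), by decide +kernel⟩

theorem c_mm_033_s : CertNE 0 536870912 0 1230186008 966367641 24778659 3 eng mog cd0q0 cd4q3 pd3 true false false .pnn 0 3 3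
    ndB0q0 ndB4q3 pcB3 cut_mm_033_s Ext.none :=
  certNE0 (fam := true) (s1 := false) (s2 := false) (a := 0) (b := 3) (c := 3) (cn := .pnn) (n1 := ndB0q0) (n2 := ndB4q3) (pc := pcB3) (cut := cut_mm_033_s) (xt := Ext.none) (P1 := 0) (W1 := 536870912) (P2 := 0) (W2 := 1230186008) (P3 := 966367641) (W3 := 24778659) (N0 := 3) (En := eng) (mo := mog) (C1 := cd0q0) (C2 := cd4q3) (C3 := pd3)
    rfl k0_mm_033_s

noncomputable def cut_mm_101_s : Cut := Cut.of [[⟨4, 0, 0, 1449551462⟩]]

noncomputable def f_mm_101_s : ℕ → ℕ → ℕ → ℕ → Bool := onCell 536870912 536870912 0 536870912 966367641 24778659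
    (rowNE 3 eng mog cd0q1 cd4q0 pd1 0 true false false .npn 1 0 1 (qsf 536870912 536870912 0 536870912 1) ndB0q1 ndB4q0 pcB1 cut_mm_101_s Ext.none)

def k0_mm_101_s : ∃ t, chk3 f_mm_101_s t 1 1 1 = true :=
  ⟨(l 4), by decide +kernel⟩

theorem c_mm_101_s : CertNE 536870912 536870912 0 536870912 966367641 24778659 3 eng mog cd0q1 cd4q0 pd1 true false false .npn 1 0 1
    ndB0q1 ndB4q0 pcB1 cut_mm_101_s Ext.none :=
  certNE0 (fam := true) (s1 := false) (s2 := false) (a := 1) (b := 0) (c := 1) (cn := .npn) (n1 := ndB0q1) (n2 := ndB4q0) (pc := pcB1) (cut := cut_mm_101_s) (xt := Ext.none) (P1 := 536870912) (W1 := 536870912) (P2 := 0) (W2 := 536870912) (P3 := 966367641) (W3 := 24778659) (N0 := 3) (En := eng) (mo := mog) (C1 := cd0q1) (C2 := cd4q0) (C3 := pd1)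
    rfl k0_mm_101_s

noncomputable def cut_mm_102_s : Cut := Cut.of [[⟨4, 0, 0, 1449551462⟩]]

noncomputable def f_mm_102_s : ℕ → ℕ → ℕ → ℕ → Bool := onCell 536870912 536870912 0 536870912 966367641 24778659
    (rowNE 3 eng mog cd0q1 cd4q0 pd2 0 true false false .npp 1 0 2 (qsf 536870912 536870912 0 536870912 2) ndB0q1 ndB4q0 pcB2 cut_mm_102_s Ext.none)

def k0_mm_102_s : ∃ t, chk3 f_mm_102_s t 1 1 1 = true :=
  ⟨(l 4), by decide +kernel⟩

theorem c_mm_102_s : CertNE 536870912 536870912 0 536870912 966367641 24778659 3 eng mog cd0q1 cd4q0 pd2 true false false .npp 1 0 2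
    ndB0q1 ndB4q0 pcB2 cut_mm_102_s Ext.none :=
  certNE0 (fam := true) (s1 := false) (s2 := false) (a := 1) (b := 0) (c := 2) (cn := .npp) (n1 := ndB0q1) (n2 := ndB4q0) (pc := pcB2) (cut := cut_mm_102_s) (xt := Ext.none) (P1 := 536870912) (W1 := 536870912) (P2 := 0) (W2 := 536870912) (P3 := 966367641) (W3 := 24778659) (N0 := 3) (En := eng) (mo := mog) (C1 := cd0q1) (C2 := cd4q0) (C3 := pd2)
    rfl k0_mm_102_s

noncomputable def cut_mm_112_s : Cut := Cut.of [[⟨4, 0, 0, 1449551462⟩]]

noncomputable def f_mm_112_s : ℕ → ℕ → ℕ → ℕ → Bool := onCell 536870912 536870912 536870912 536870912 966367641 24778659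
    (rowNE 3 eng mog cd0q1 cd4q1 pd2 0 true false false .dn 1 1 2 (qsf 536870912 536870912 536870912 536870912 2) ndB0q1 ndB4q1 pcB2 cut_mm_112_s Ext.none)

def k0_mm_112_s : ∃ t, chk3 f_mm_112_s t 1 1 1 = true :=
  ⟨(l 4), by decide +kernel⟩

theorem c_mm_112_s : CertNE 536870912 536870912 536870912 536870912 966367641 24778659 3 eng mog cd0q1 cd4q1 pd2 true false false .dn 1 1 2
    ndB0q1 ndB4q1 pcB2 cut_mm_112_s Ext.none :=
  certNE0 (fam := true) (s1 := false) (s2 := false) (a := 1) (b := 1) (c := 2) (cn := .dn) (n1 := ndB0q1) (n2 := ndB4q1) (pc := pcB2) (cut := cut_mm_112_s) (xt := Ext.none) (P1 := 536870912) (W1 := 536870912) (P2 := 536870912) (W2 := 536870912) (P3 := 966367641) (W3 := 24778659) (N0 := 3) (En := eng) (mo := mog) (C1 := cd0q1) (C2 := cd4q1) (C3 := pd2)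
    rfl k0_mm_112_s

noncomputable def cut_mm_113_s : Cut := Cut.of [[⟨4, 0, 0, 1449551462⟩]]

noncomputable def f_mm_113_s : ℕ → ℕ → ℕ → ℕ → Bool := onCell 536870912 536870912 536870912 536870912 966367641 24778659
    (rowNE 3 eng mog cd0q1 cd4q1 pd3 0 true false false .nn 1 1 3 (qsf 536870912 536870912 536870912 536870912 3) ndB0q1 ndB4q1 pcB3 cut_mm_113_s Ext.none)

def k0_mm_113_s : ∃ t, chk3 f_mm_113_s t 1 1 1 = true :=
  ⟨(l 4), by decide +kernel⟩

theorem c_mm_113_s : CertNE 536870912 536870912 536870912 536870912 966367641 24778659 3 eng mog cd0q1 cd4q1 pd3 true false false .nn 1 1 3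
    ndB0q1 ndB4q1 pcB3 cut_mm_113_s Ext.none :=
  certNE0 (fam := true) (s1 := false) (s2 := false) (a := 1) (b := 1) (c := 3) (cn := .nn) (n1 := ndB0q1) (n2 := ndB4q1) (pc := pcB3) (cut := cut_mm_113_s) (xt := Ext.none) (P1 := 536870912) (W1 := 536870912) (P2 := 536870912) (W2 := 536870912) (P3 := 966367641) (W3 := 24778659) (N0 := 3) (En := eng) (mo := mog) (C1 := cd0q1) (C2 := cd4q1) (C3 := pd3)
    rfl k0_mm_113_s

noncomputable def cut_mm_123_s : Cut := Cut.of [[⟨4, 0, 0, 1449551462⟩]]

noncomputable def f_mm_123_s : ℕ → ℕ → ℕ → ℕ → Bool := onCell 536870912 536870912 1073741824 536870912 966367641 24778659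
    (rowNE 3 eng mog cd0q1 cd4q2 pd3 0 true false false .npn 1 2 3 (qsf 536870912 536870912 1073741824 536870912 3) ndB0q1 ndB4q2 pcB3 cut_mm_123_s Ext.none)

def k0_mm_123_s : ∃ t, chk3 f_mm_123_s t 1 1 1 = true :=
  ⟨(l 4), by decide +kernel⟩

theorem c_mm_123_s : CertNE 536870912 536870912 1073741824 536870912 966367641 24778659 3 eng mog cd0q1 cd4q2 pd3 true false false .npn 1 2 3
    ndB0q1 ndB4q2 pcB3 cut_mm_123_s Ext.none :=
  certNE0 (fam := true) (s1 := false) (s2 := false) (a := 1) (b := 2) (c := 3) (cn := .npn) (n1 := ndB0q1) (n2 := ndB4q2) (pc := pcB3) (cut := cut_mm_123_s) (xt := Ext.none) (P1 := 536870912) (W1 := 536870912) (P2 := 1073741824) (W2 := 536870912) (P3 := 966367641) (W3 := 24778659) (N0 := 3) (En := eng) (mo := mog) (C1 := cd0q1) (C2 := cd4q2) (C3 := pd3)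
    rfl k0_mm_123_s

noncomputable def cut_mm_133_s : Cut := Cut.of [[⟨4, 0, 0, 1449551462⟩]]

noncomputable def f_mm_133_s : ℕ → ℕ → ℕ → ℕ → Bool := onCell 536870912 536870912 0 1230186008 966367641 24778659
    (rowNE 3 eng mog cd0q1 cd4q3 pd3 0 true false false .dn 1 3 3 (qsf 536870912 536870912 0 1230186008 3) ndB0q1 ndB4q3 pcB3 cut_mm_133_s Ext.none)

def k0_mm_133_s : ∃ t, chk3 f_mm_133_s t 1 1 1 = true :=
  ⟨(l 4), by decide +kernel⟩

theorem c_mm_133_s : CertNE 536870912 536870912 0 1230186008 966367641 24778659 3 eng mog cd0q1 cd4q3 pd3 true false false .dn 1 3 3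
    ndB0q1 ndB4q3 pcB3 cut_mm_133_s Ext.none :=
  certNE0 (fam := true) (s1 := false) (s2 := false) (a := 1) (b := 3) (c := 3) (cn := .dn) (n1 := ndB0q1) (n2 := ndB4q3) (pc := pcB3) (cut := cut_mm_133_s) (xt := Ext.none) (P1 := 536870912) (W1 := 536870912) (P2 := 0) (W2 := 1230186008) (P3 := 966367641) (W3 := 24778659) (N0 := 3) (En := eng) (mo := mog) (C1 := cd0q1) (C2 := cd4q3) (C3 := pd3)
    rfl k0_mm_133_s

noncomputable def cut_mm_202_s : Cut := Cut.of [[⟨4, 0, 0, 1449551462⟩]]

noncomputable def f_mm_202_s : ℕ → ℕ → ℕ → ℕ → Bool := onCell 0 536870912 0 536870912 966367641 24778659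
    (rowNE 3 eng mog cd0q2 cd4q0 pd2 0 true false false .pp 2 0 2 (qsf 0 536870912 0 536870912 2) ndB0q2 ndB4q0 pcB2 cut_mm_202_s Ext.none)

def k0_mm_202_s : ∃ t, chk3 f_mm_202_s t 1 1 1 = true :=
  ⟨(l 4), by decide +kernel⟩

theorem c_mm_202_s : CertNE 0 536870912 0 536870912 966367641 24778659 3 eng mog cd0q2 cd4q0 pd2 true false false .pp 2 0 2
    ndB0q2 ndB4q0 pcB2 cut_mm_202_s Ext.none :=
  certNE0 (fam := true) (s1 := false) (s2 := false) (a := 2) (b := 0) (c := 2) (cn := .pp) (n1 := ndB0q2) (n2 := ndB4q0) (pc := pcB2) (cut := cut_mm_202_s) (xt := Ext.none) (P1 := 0) (W1 := 536870912) (P2 := 0) (W2 := 536870912) (P3 := 966367641) (W3 := 24778659) (N0 := 3) (En := eng) (mo := mog) (C1 := cd0q2) (C2 := cd4q0) (C3 := pd2)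
    rfl k0_mm_202_s

noncomputable def cut_mm_203_s : Cut := Cut.of [[⟨4, 0, 0, 1449551462⟩]]

noncomputable def f_mm_203_s : ℕ → ℕ → ℕ → ℕ → Bool := onCell 0 536870912 0 536870912 966367641 24778659
    (rowNE 3 eng mog cd0q2 cd4q0 pd3 0 true false false .up 2 0 3 (qsf 0 536870912 0 536870912 3) ndB0q2 ndB4q0 pcB3 cut_mm_203_s Ext.none)

def k0_mm_203_s : ∃ t, chk3 f_mm_203_s t 1 1 1 = true :=
  ⟨(l 4), by decide +kernel⟩

theorem c_mm_203_s : CertNE 0 536870912 0 536870912 966367641 24778659 3 eng mog cd0q2 cd4q0 pd3 true false false .up 2 0 3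
    ndB0q2 ndB4q0 pcB3 cut_mm_203_s Ext.none :=
  certNE0 (fam := true) (s1 := false) (s2 := false) (a := 2) (b := 0) (c := 3) (cn := .up) (n1 := ndB0q2) (n2 := ndB4q0) (pc := pcB3) (cut := cut_mm_203_s) (xt := Ext.none) (P1 := 0) (W1 := 536870912) (P2 := 0) (W2 := 536870912) (P3 := 966367641) (W3 := 24778659) (N0 := 3) (En := eng) (mo := mog) (C1 := cd0q2) (C2 := cd4q0) (C3 := pd3)
    rfl k0_mm_203_s

noncomputable def cut_mm_213_s : Cut := Cut.of [[⟨4, 0, 0, 1449551462⟩]]

noncomputable def f_mm_213_s : ℕ → ℕ → ℕ → ℕ → Bool := onCell 0 536870912 536870912 536870912 966367641 24778659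
    (rowNE 3 eng mog cd0q2 cd4q1 pd3 0 true false false .pnn 2 1 3 (qsf 0 536870912 536870912 536870912 3) ndB0q2 ndB4q1 pcB3 cut_mm_213_s Ext.none)

def k0_mm_213_s : ∃ t, chk3 f_mm_213_s t 1 1 1 = true :=
  ⟨(l 4), by decide +kernel⟩

theorem c_mm_213_s : CertNE 0 536870912 536870912 536870912 966367641 24778659 3 eng mog cd0q2 cd4q1 pd3 true false false .pnn 2 1 3
    ndB0q2 ndB4q1 pcB3 cut_mm_213_s Ext.none :=
  certNE0 (fam := true) (s1 := false) (s2 := false) (a := 2) (b := 1) (c := 3) (cn := .pnn) (n1 := ndB0q2) (n2 := ndB4q1) (pc := pcB3) (cut := cut_mm_213_s) (xt := Ext.none) (P1 := 0) (W1 := 536870912) (P2 := 536870912) (W2 := 536870912) (P3 := 966367641) (W3 := 24778659) (N0 := 3) (En := eng) (mo := mog) (C1 := cd0q2) (C2 := cd4q1) (C3 := pd3)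
    rfl k0_mm_213_s

end Pool.Agent.Strip051.G.I9000_9231.Tab.CS.BA04

namespace Pool.Agent.Strip051.G.I9000_9231.Tab.CS.BB00

open Pool.Agent.Strip051.PB Pool.Agent.Strip051.PB.T
open Pool.Agent.Strip051.G.I9000_9231.Tab

noncomputable def cut_pp_001_s : Cut := Cut.of [[⟨4, 0, 0, 1449551462⟩]]

noncomputable def f_pp_001_s : ℕ → ℕ → ℕ → ℕ → Bool := onCell 0 536870912 0 536870912 966367641 24778659
    (rowNE 3 eng mog cd0q0 cd0q1 pd0 1 false true true .up 0 0 1 (qsf 0 536870912 536870912 536870912 0) ndB0q0 ndB0q1 pcB0 cut_pp_001_s Ext.none)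

def k0_pp_001_s : ∃ t, chk3 f_pp_001_s t 1 1 1 = true :=
  ⟨(l 3), by decide +kernel⟩

theorem c_pp_001_s : CertNE 0 536870912 536870912 536870912 966367641 24778659 3 eng mog cd0q0 cd0q1 pd0 false true true .up 0 0 1
    ndB0q0 ndB0q1 pcB0 cut_pp_001_s Ext.none :=
  certNE1 (fam := false) (s1 := true) (s2 := true) (a := 0) (b := 0) (c := 1) (cn := .up) (n1 := ndB0q0) (n2 := ndB0q1) (pc := pcB0) (cut := cut_pp_001_s) (xt := Ext.none) (P1 := 0) (W1 := 536870912) (P2 := 536870912) (W2 := 536870912) (P3 := 966367641) (W3 := 24778659) (N0 := 3) (En := eng) (mo := mog) (C1 := cd0q0) (C2 := cd0q1) (C3 := pd0)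
    rfl (fun _ => rfl) k0_pp_001_s

noncomputable def cut_pp_001_t : Cut := Cut.of [[⟨3, 0, 0, 2845415833⟩]]

noncomputable def f_pp_001_t : ℕ → ℕ → ℕ → ℕ → Bool := onCell 0 536870912 536870912 536870912 966367641 24778659
    (rowNE 3 eng mog cd0q0 cd0q1 pd0 0 false true true .up 0 0 1 (qsf 0 536870912 536870912 536870912 0) ndB0q0 ndB0q1 pcB0 cut_pp_001_t Ext.none)

def k0_pp_001_t : ∃ t, chk3 f_pp_001_t t 1 1 1 = true :=
  ⟨(l 6), by decide +kernel⟩

theorem c_pp_001_t : CertNE 0 536870912 536870912 536870912 966367641 24778659 3 eng mog cd0q0 cd0q1 pd0 false true true .up 0 0 1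
    ndB0q0 ndB0q1 pcB0 cut_pp_001_t Ext.none :=
  certNE0 (fam := false) (s1 := true) (s2 := true) (a := 0) (b := 0) (c := 1) (cn := .up) (n1 := ndB0q0) (n2 := ndB0q1) (pc := pcB0) (cut := cut_pp_001_t) (xt := Ext.none) (P1 := 0) (W1 := 536870912) (P2 := 536870912) (W2 := 536870912) (P3 := 966367641) (W3 := 24778659) (N0 := 3) (En := eng) (mo := mog) (C1 := cd0q0) (C2 := cd0q1) (C3 := pd0)
    rfl k0_pp_001_t

noncomputable def cut_pp_011_s : Cut := Cut.of [[⟨4, 0, 0, 1449551462⟩], [⟨0, 0, 0, 67108864⟩, ⟨1, 1, 0, 67108864⟩, ⟨2, 1, 0, 67108864⟩]]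

noncomputable def f_pp_011_s : ℕ → ℕ → ℕ → ℕ → Bool := onCell 536870912 536870912 536870912 536870912 966367641 24778659
    (rowNE 3 eng mog cd0q0 cd0q1 pd1 2 false true true .pnn 0 1 1 (qsf 0 536870912 536870912 536870912 1) ndB0q0 ndB0q1 pcB1 cut_pp_011_s Ext.none)

def k0_pp_011_s : ∃ t, chk3 f_pp_011_s t 1 1 1 = true :=
  ⟨(a (l 3) (b (l 3) (a (l 3) (b (l 3) (a (l 3) (b (l 3) (b (l 3) (a (l 3) (l 14))))))))), by decide +kernel⟩

theorem c_pp_011_s : CertNE 0 536870912 536870912 536870912 966367641 24778659 3 eng mog cd0q0 cd0q1 pd1 false true true .pnn 0 1 1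
    ndB0q0 ndB0q1 pcB1 cut_pp_011_s Ext.none :=
  certNE2 (fam := false) (s1 := true) (s2 := true) (a := 0) (b := 1) (c := 1) (cn := .pnn) (n1 := ndB0q0) (n2 := ndB0q1) (pc := pcB1) (cut := cut_pp_011_s) (xt := Ext.none) (P1 := 0) (W1 := 536870912) (P2 := 536870912) (W2 := 536870912) (P3 := 966367641) (W3 := 24778659) (N0 := 3) (En := eng) (mo := mog) (C1 := cd0q0) (C2 := cd0q1) (C3 := pd1)
    rfl (fun _ => rfl) k0_pp_011_s

noncomputable def cut_pp_011_t : Cut := Cut.of [[⟨3, 0, 0, 2845415833⟩], [⟨0, 0, 0, 67108864⟩, ⟨1, 1, 0, 67108864⟩, ⟨2, 1, 0, 67108864⟩]]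

noncomputable def f_pp_011_t : ℕ → ℕ → ℕ → ℕ → Bool := onCell 0 536870912 536870912 536870912 966367641 24778659
    (rowNE 3 eng mog cd0q0 cd0q1 pd1 0 false true true .pnn 0 1 1 (qsf 0 536870912 536870912 536870912 1) ndB0q0 ndB0q1 pcB1 cut_pp_011_t Ext.none)

def k0_pp_011_t : ∃ t, chk3 f_pp_011_t t 1 1 1 = true :=
  ⟨(l 6), by decide +kernel⟩

theorem c_pp_011_t : CertNE 0 536870912 536870912 536870912 966367641 24778659 3 eng mog cd0q0 cd0q1 pd1 false true true .pnn 0 1 1
    ndB0q0 ndB0q1 pcB1 cut_pp_011_t Ext.none :=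
  certNE0 (fam := false) (s1 := true) (s2 := true) (a := 0) (b := 1) (c := 1) (cn := .pnn) (n1 := ndB0q0) (n2 := ndB0q1) (pc := pcB1) (cut := cut_pp_011_t) (xt := Ext.none) (P1 := 0) (W1 := 536870912) (P2 := 536870912) (W2 := 536870912) (P3 := 966367641) (W3 := 24778659) (N0 := 3) (En := eng) (mo := mog) (C1 := cd0q0) (C2 := cd0q1) (C3 := pd1)
    rfl k0_pp_011_t

noncomputable def cut_pp_012_s : Cut := Cut.of [[⟨4, 0, 0, 1449551462⟩], [⟨0, 0, 0, 33554432⟩, ⟨1, 1, 0, 33554432⟩, ⟨2, 1, 0, 33554432⟩]]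

noncomputable def f_pp_012_s : ℕ → ℕ → ℕ → ℕ → Bool := onCell 536870912 536870912 0 536870912 966367641 24778659
    (rowNE 3 eng mog cd0q0 cd0q2 pd1 2 false true true .pnp 0 1 2 (qsf 0 536870912 0 536870912 1) ndB0q0 ndB0q2 pcB1 cut_pp_012_s Ext.none)

def k0_pp_012_s : ∃ t, chk3 f_pp_012_s t 2 1 1 = true :=
  ⟨(b (b (a (l 2) (a (a (a (l 2) (b (b (l 16686272) (l 16735768)) (b (l 104320562999) (l 3)))) (b (a (c (l 16646520) (l 16645744)) (l 16603608)) (b (a (l 43654213175) (l 16735608)) (a (l 124184756535) (l 105394309239))))) (a (b (a (l 16604360) (l 16585480)) (a (b (l 16712456) (l 39359252247)) (b (l 16669696) (l 16734520)))) (b (a (l 16588896) (l 16593664)) (a (b (l 16670208) (l 16712248)) (c (l 16631288) (l 16627592))))))) (a (l 3) (a (l 3) (b (a (b (a (l 163376389335) (a (l 118816101447) (l 16728368))) (l 3)) (b (a (a (l 16760520) (l 16749560)) (l 16732664)) (b (a (l 96267521575) (l 16763688)) (a (l 3) (l 92509426551))))) (l 3))))) (l 3)), by decide +kernel⟩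

def k1_pp_012_s : ∃ t, chk3 f_pp_012_s t 6 2 1 = true :=
  ⟨(a (b (a (b (a (l 16578840) (l 16565408)) (a (b (l 16633360) (l 16671760)) (b (l 16616976) (l 16653528)))) (b (a (l 16553424) (l 16543024)) (a (b (l 16601992) (l 16636688)) (b (l 16588560) (l 16621368))))) (b (b (a (a (l 16669392) (l 16670360)) (a (l 16672704) (l 16655568))) (a (a (b (l 16741584) (l 16761832)) (a (l 16735520) (l 16704032))) (a (l 16667904) (l 16649032)))) (a (b (a (b (l 88751332951) (l 3)) (c (l 82308874167) (l 82845743367))) (l 3)) (b (a (b (l 16738248) (l 16757512)) (a (l 16732360) (l 16701640))) (a (b (a (l 16768088) (l 16770816)) (l 176261292775)) (b (l 16755200) (a (l 16731704) (l 16768288)))))))) (b (a (b (a (l 16534728) (l 16528600)) (a (b (l 16577320) (l 16608376)) (b (l 16568280) (l 16597320)))) (b (a (l 16523704) (l 6)) (a (b (l 16560392) (l 16587496)) (b (l 16553208) (l 16578336))))) (b (a (a (b (l 16640792) (l 16632472)) (b (l 16627944) (l 16638600))) (a (b (l 16616024) (l 16624680)) (b (l 16604904) (l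 16611616)))) (a (a (b (c (l 16687776) (l 16688064)) (b (l 16735192) (l 16752824))) (b (b (l 16683736) (l 16679160)) (b (l 16695664) (l 16733224)))) (a (b (l 16634184) (c (l 16685424) (l 16686928))) (b (l 16619208) (c (l 16668048) (l 16670592)))))))), by decide +kernel⟩

def k2_pp_012_s : ∃ t, chk3 f_pp_012_s t 6 3 1 = true :=
  ⟨(b (a (b (a (l 3) (a (l 3) (a (l 3) (b (l 198809930807) (l 3))))) (l 3)) (b (a (b (a (b (a (l 16754120) (l 16765456)) (a (l 3) (l 110226173399))) (b (l 16750136) (a (l 16772280) (l 16762360)))) (a (l 3) (b (a (l 108615518823) (l 103246863159)) (l 3)))) (b (a (a (l 16754440) (l 16734360)) (b (l 16691608) (l 16728208))) (a (b (a (l 16769160) (l 16759104)) (a (l 161228933927) (l 95193814375))) (b (a (l 16749168) (l 16718528)) (a (l 16765736) (l 16755736)))))) (a (l 3) (b (a (l 3) (b (a (b (l 16732672) (l 3)) (b (l 16768024) (l 16733968))) (a (l 3) (a (l 3) (l 219211054551))))) (l 3))))) (l 3)), by decide +kernel⟩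

def k3_pp_012_s : ∃ t, chk3 f_pp_012_s t 7 2 1 = true :=
  ⟨(a (b (b (l 6) (a (a (b (l 16546832) (l 16569952)) (b (l 6) (l 16561984))) (a (b (l 6) (l 16554792)) (l 6)))) (a (b (a (b (l 16594536) (l 16599312)) (b (l 16584424) (l 16587104))) (a (b (l 16604992) (c (l 16651368) (l 16676144))) (b (l 16611736) (c (l 16655184) (l 16660968))))) (b (a (b (l 16574864) (l 16575248)) (b (l 16545664) (l 16564632))) (a (b (l 16576576) (c (l 16637760) (l 16646112))) (b (l 16584992) (l 16585456)))))) (b (l 6) (a (b (a (c (l 16540968) (l 16557248)) (b (l 6) (l 16552616))) (a (b (l 16575320) (l 16574216)) (b (l 16568704) (l 16586456)))) (b (a (c (l 16540648) (l 16576312)) (l 6)) (a (b (l 16587696) (l 16582096)) (b (l 16593208) (l 16606328))))))), by decide +kernel⟩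

def k4_pp_012_s : ∃ t, chk3 f_pp_012_s t 14 6 1 = true :=
  ⟨(b (a (a (b (c (b (l 16693968) (l 16709136)) (l 16661880)) (a (b (l 16709120) (l 16745976)) (b (l 16720672) (l 16715200)))) (b (c (b (l 16675360) (l 16689840)) (l 16644720)) (a (b (l 16690056) (l 16705328)) (b (l 16701496) (l 16695584))))) (a (b (b (l 16639288) (l 16631616)) (c (b (l 16685504) (l 16679960)) (b (l 16690136) (l 16683528)))) (b (c (l 16626472) (l 16634312)) (b (a (l 16675288) (l 16667744)) (a (l 16689912) (l 16682144)))))) (a (b (b (a (a (c (l 16761912) (l 16762176)) (l 16752048)) (a (l 16742000) (l 16711248))) (a (a (c (b (l 16774040) (l 94656919575)) (b (l 16774088) (l 100025624599))) (b (l 16764080) (l 56539160855))) (a (c (l 16757896) (l 16758376)) (c (l 16726920) (l 16727776))))) (a (b (a (l 3) (b (a (l 126332317639) (l 16755064)) (l 3))) (l 3)) (b (a (b (l 16770112) (a (l 105931235303) (l 16775392))) (c (l 16764120) (l 16764360))) (a (b (l 252497046455) (l 3)) (b (a (l 109152476599) (l 16773320)) (l 249275855863))))))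 (b (a (b (a (l 16701800) (l 16692752)) (a (c (l 16717200) (l 16718432)) (c (l 16707880) (l 16730416)))) (b (a (l 16684200) (l 16676224)) (a (a (l 16702072) (l 16697848)) (c (l 16711832) (l 16713696))))) (a (a (b (b (l 16729712) (l 16758464)) (b (l 16766104) (a (l 16775960) (l 16771224)))) (b (c (l 16724064) (l 16724728)) (b (l 16756744) (l 16764176)))) (b (a (c (l 16715152) (l 16715944)) (a (l 16709224) (l 16705192))) (a (c (l 16730416) (l 16730672)) (c (l 16721896) (l 16722104)))))))), by decide +kernel⟩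

def k5_pp_012_s : ∃ t, chk3 f_pp_012_s t 15 6 1 = true :=
  ⟨(a (b (a (b (c (l 16634464) (l 16621880)) (b (a (l 16660984) (l 16654760)) (a (l 16675120) (l 16668584)))) (b (b (l 16622240) (l 16633584)) (b (l 16624960) (a (l 16662216) (l 16656424))))) (a (b (b (a (l 16668960) (l 16683112)) (a (c (l 16704408) (l 16706176)) (c (l 16697576) (l 16698824)))) (a (b (c (l 16699184) (l 16699832)) (c (l 16714056) (l 16714112))) (b (a (l 16693984) (l 16690304)) (c (l 16706704) (l 16706200))))) (b (b (c (l 16651840) (l 16652520)) (a (l 16670160) (l 16663576))) (c (b (a (l 16706312) (l 16700240)) (a (l 16699592) (l 16713952))) (b (a (l 16705136) (l 16697240)) (a (l 16697824) (l 16689280))))))) (b (a (a (b (l 16622440) (l 16614240)) (b (l 16620888) (l 16622232))) (b (l 16622656) (a (l 16621896) (l 16603104)))) (a (b (b (c (l 16643800) (l 16641064)) (a (l 16658224) (l 16654568))) (b (a (c (l 16695264) (l 16669392)) (c (l 16692256) (l 16664888))) (a (c (l 16708808) (l 16682472)) (b (l 16698944) (l 16684584)))))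 (b (b (a (l 16661096) (l 16663176)) (a (l 16653472) (l 16676568))) (a (b (l 16667000) (b (l 16698024) (l 16683128))) (b (l 16661968) (b (l 16686160) (l 16667584)))))))), by decide +kernel⟩

def k6_pp_012_s : ∃ t, chk3 f_pp_012_s t 14 7 1 = true :=
  ⟨(b (a (l 3) (b (a (b (a (b (a (l 3) (l 88751462871)) (l 3)) (b (a (l 16773824) (l 16769160)) (a (l 232632851335) (b (l 16774528) (l 16774360))))) (l 3)) (b (a (a (l 16762960) (l 16763720)) (b (l 16753648) (l 16760624))) (a (b (a (b (l 16776960) (l 177872054951)) (l 16774120)) (a (l 3) (l 248738981143))) (b (a (l 16769648) (l 16765312)) (a (a (l 72645343927) (l 16775312)) (l 16771984)))))) (a (l 3) (b (a (l 3) (b (a (l 3) (b (a (l 16775000) (l 16775824)) (l 268066341639))) (l 3))) (l 3))))) (l 3)), by decide +kernel⟩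

def k7_pp_012_s : ∃ t, chk3 f_pp_012_s t 30 14 1 = true :=
  ⟨(a (b (a (b (a (l 16750976) (l 16747016)) (a (b (l 16761104) (l 16767712)) (b (l 16757048) (l 16763584)))) (b (b (l 16716744) (l 16740160)) (b (a (l 16753040) (l 16727944)) (a (l 16759504) (l 16755240))))) (b (a (b (a (b (l 16772576) (l 16775840)) (l 16770000)) (a (a (l 3) (l 257865800455)) (b (l 16774728) (a (l 143512313047) (l 16776768))))) (b (c (l 16753384) (l 16747736)) (a (b (l 16770488) (l 16773608)) (l 16757352)))) (a (l 3) (b (a (b (a (l 93583317255) (l 16775664)) (l 259476419447)) (b (l 16772536) (a (l 16776600) (l 16774568)))) (a (l 3) (b (a (l 293836162471) (l 84456500791)) (l 3))))))) (a (b (b (b (l 16708736) (a (l 16717320) (l 16713192))) (b (c (l 16743480) (l 16720680)) (a (l 16751008) (l 16746848)))) (b (b (a (l 16757288) (l 16753248)) (a (l 16753216) (l 16738776))) (b (a (l 16759552) (l 16755656)) (a (b (l 16774536) (a (l 131164278743) (l 16776360))) (b (l 16770640) (l 16773520)))))) (b (c (b (l 16721840) (b (l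 16736440) (l 16742680))) (b (b (l 16699136) (l 16705608)) (b (l 16712088) (l 16739728)))) (b (b (a (l 16749488) (l 16725120)) (a (l 16745552) (l 16742168))) (b (a (l 16751968) (l 16748576)) (a (b (l 16766944) (l 16769576)) (b (l 16762752) (l 16765336)))))))), by decide +kernel⟩

def k8_pp_012_s : ∃ t, chk3 f_pp_012_s t 31 14 1 = true :=
  ⟨(b (a (b (a (b (l 16694840) (c (l 16724760) (l 16719800))) (b (l 16691184) (l 16697768))) (a (b (b (l 16706224) (l 16709488)) (b (l 16723240) (l 16723888))) (c (b (l 16723680) (l 16727560)) (b (l 16722808) (l 16729760))))) (a (b (b (l 16685896) (l 16688856)) (b (b (l 16691208) (l 16692840)) (a (l 16719888) (l 16691688)))) (b (c (l 16668376) (l 16674840)) (a (b (l 16701368) (l 16683792)) (c (l 16692088) (l 16675792)))))) (a (b (a (b (a (l 16722192) (l 16719808)) (a (l 16739232) (l 16734904))) (b (a (l 16715128) (l 16709112)) (a (c (l 16738912) (l 16740880)) (c (l 16711992) (l 16734808))))) (a (b (a (c (l 16754008) (l 16755168)) (c (l 16749008) (l 16750096)))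 (a (c (l 16759176) (l 16759704)) (c (l 16754240) (l 16754624)))) (b (a (c (l 16722624) (l 16744528)) (c (l 16716728) (l 16717576))) (a (c (l 16738408) (l 16728192)) (c (l 16722120) (l 16722328)))))) (a (b (b (c (l 16697576) (l 16700496)) (a (c (l 16726448) (l 16707280)) (l 16709744))) (b (a (c (l 16731272) (l 16732104)) (c (l 16724232) (l 16725192))) (a (c (l 16736760) (l 16737064)) (c (l 16729840) (l 16730344))))) (b (b (c (l 16681824) (l 16684904)) (a (l 16702024) (c (l 16702992) (l 16705256)))) (b (a (c (l 16716528) (l 16717728)) (c (l 16708104) (l 16709624))) (a (c (l 16722280) (l 16723064)) (c (l 16714000) (l 16715096)))))))), by decide +kernel⟩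

def k9_pp_012_s : ∃ t, chk3 f_pp_012_s t 30 15 1 = true :=
  ⟨(b (a (l 3) (b (a (b (a (b (l 278266887271) (l 3)) (b (a (a (l 109689442935) (l 16776696)) (l 16775304)) (a (l 3) (b (l 16779824) (l 290614937495))))) (l 3)) (b (a (b (l 16761808) (a (l 16777784) (l 16774080))) (c (l 16758896) (l 16759032))) (a (b (a (b (l 148881020087) (l 3)) (b (l 16776216) (l 100562635047))) (l 3)) (b (a (l 16774888) (l 16772728)) (a (b (c (l 16776960) (l 16776960)) (l 238001587719)) (b (l 16774976) (l 16776424))))))) (a (l 3) (b (a (l 3) (a (l 3) (a (l 3) (b (l 205252460215) (l 3))))) (l 3))))) (l 3)), by decide +kernel⟩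

def k10_pp_012_s : ∃ t, chk3 f_pp_012_s t 62 30 1 = true :=
  ⟨(b (a (b (a (c (l 16764848) (l 16754496)) (a (l 16761272) (l 16748232))) (a (b (l 16758856) (l 16767160)) (b (l 16764544) (l 16762448)))) (b (a (c (l 16746888) (l 16733736)) (c (l 16741200) (l 16738584))) (a (c (b (l 16748928) (l 16752128)) (a (l 16741344) (l 16738720))) (c (b (l 16743360) (l 16746648)) (a (l 16736008) (l 16733216)))))) (a (b (a (b (a (b (l 16775824) (c (l 77477184599) (l 79087794551))) (l 16774376)) (a (l 295983647303) (b (a (l 16777096) (l 16776152)) (a (l 3) (l 120963730423))))) (a (b (l 16772064) (b (l 16774448) (l 16776000))) (c (l 16766008) (l 16766072)))) (a (l 3) (b (a (b (a (l 239075328967) (l 16778248)) (l 3)) (a (b (l 16775904) (a (l 146733533623) (l 16777080))) (l 16775528))) (a (l 3) (b (c (l 234243489783) (l 238538455703)) (l 3)))))) (b (a (c (b (l 16755392) (l 16763944)) (b (l 16755504) (l 16758824))) (a (b (l 16751504) (l 16754896)) (b (l 16748744) (l 16757440)))) (a (b (a (l 16768520) (l 16766080))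 (a (b (a (b (l 16776392) (l 16777096)) (l 16775624)) (a (l 290614936743) (a (l 109689439383) (l 16776888)))) (b (l 16773816) (l 16772848)))) (b (a (l 16763536) (l 16760896)) (c (a (l 16772112) (l 16764264)) (b (l 16764880) (l 16766560)))))))), by decide +kernel⟩

def k11_pp_012_s : ∃ t, chk3 f_pp_012_s t 63 30 1 = true :=
  ⟨(a (b (c (b (a (l 16732392) (l 16725624)) (a (a (l 16740528) (l 16737392)) (c (l 16732288) (l 16732552)))) (b (a (l 16732568) (l 16726032)) (a (b (l 16748040) (l 16741064)) (c (l 16732832) (l 16733128))))) (b (a (a (b (l 16751112) (l 16754616)) (b (l 16748104) (a (l 16757664) (l 16756160)))) (c (b (l 16740400) (c (l 16741304) (l 16741608))) (a (l 16747080) (l 16743880)))) (b (a (c (a (l 16752728) (l 16760296)) (b (l 16750784) (l 16752544))) (a (a (l 16753016) (l 16751472)) (a (l 16749896) (l 16748288)))) (a (a (c (l 16761544) (l 16756536)) (c (l 16758696) (l 16753768))) (a (c (l 16755720) (l 16761352)) (c (l 16752608) (l 16758328))))))) (b (b (a (c (l 16718232) (l 16718912))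 (c (l 16710144) (a (l 16723640) (l 16719560)))) (a (c (c (l 16725040) (l 16725432)) (c (l 16725840) (l 16726264))) (c (a (l 16729888) (l 16725776)) (a (l 16730904) (l 16726928))))) (a (a (b (c (l 16737088) (l 16737912)) (b (a (l 16746640) (l 16744952)) (l 14))) (b (c (l 16733472) (l 16734400)) (l 14))) (b (a (c (l 16729680) (l 16730728)) (a (b (l 16733176) (l 14)) (l 14))) (l 14))))), by decide +kernel⟩

def k12_pp_012_s : ∃ t, chk3 f_pp_012_s t 31 31 1 = true :=
  ⟨(a (b (a (l 3) (b (a (b (a (l 3) (b (a (b (l 78550924855) (l 299204871031)) (b (l 16776112) (l 16776880))) (a (l 3) (a (l 3) (l 228337910343))))) (l 3)) (b (a (a (b (l 16775312) (a (b (l 16776848) (l 177335174711)) (l 16776640))) (l 16770992)) (c (l 16769056) (l 16767832))) (a (b (a (l 314237257031) (b (c (l 16776936) (l 16776944)) (l 235317232183))) (l 3)) (b (a (b (l 16775800) (l 16776616)) (l 16774968)) (a (a (l 294909903767) (b (l 16777096) (l 3))) (a (b (l 16776560) (l 109152568855)) (l 16776360))))))) (a (l 3) (a (l 3) (a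 (l 3) (a (l 3) (a (l 3) (l 14)))))))) (l 3)) (b (a (b (a (b (b (a (l 16764296) (l 16764168)) (a (l 16768672) (l 16764656))) (b (a (c (l 16767768) (l 16767848)) (l 14)) (a (a (l 16775424) (l 14)) (l 14)))) (a (a (a (b (l 16760680) (l 14)) (l 14)) (l 14)) (l 14))) (l 14)) (l 14)) (l 14))), by decide +kernel⟩

theorem s13_pp_012_s : ∃ t, chk3 f_pp_012_s t 31 30 1 = true := ex3_a k10_pp_012_s k11_pp_012_s

theorem s14_pp_012_s : ∃ t, chk3 f_pp_012_s t 31 15 1 = true := ex3_b s13_pp_012_s k12_pp_012_s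

theorem s15_pp_012_s : ∃ t, chk3 f_pp_012_s t 15 15 1 = true := ex3_a k9_pp_012_s s14_pp_012_s

theorem s16_pp_012_s : ∃ t, chk3 f_pp_012_s t 15 14 1 = true := ex3_a k7_pp_012_s k8_pp_012_s

theorem s17_pp_012_s : ∃ t, chk3 f_pp_012_s t 15 7 1 = true := ex3_b s16_pp_012_s s15_pp_012_s

theorem s18_pp_012_s : ∃ t, chk3 f_pp_012_s t 7 7 1 = true := ex3_a k6_pp_012_s s17_pp_012_s

theorem s19_pp_012_s : ∃ t, chk3 f_pp_012_s t 7 6 1 = true := ex3_a k4_pp_012_s k5_pp_012_s

theorem s20_pp_012_s : ∃ t, chk3 f_pp_012_s t 7 3 1 = true := ex3_b s19_pp_012_s s18_pp_012_s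

theorem s21_pp_012_s : ∃ t, chk3 f_pp_012_s t 7 1 1 = true := ex3_b k3_pp_012_s s20_pp_012_s

theorem s22_pp_012_s : ∃ t, chk3 f_pp_012_s t 6 1 1 = true := ex3_b k1_pp_012_s k2_pp_012_s

theorem s23_pp_012_s : ∃ t, chk3 f_pp_012_s t 3 1 1 = true := ex3_a s22_pp_012_s s21_pp_012_s

theorem s24_pp_012_s : ∃ t, chk3 f_pp_012_s t 1 1 1 = true := ex3_a k0_pp_012_s s23_pp_012_s

theorem c_pp_012_s : CertNE 0 536870912 0 536870912 966367641 24778659 3 eng mog cd0q0 cd0q2 pd1 false true true .pnp 0 1 2
    ndB0q0 ndB0q2 pcB1 cut_pp_012_s Ext.none :=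
  certNE2 (fam := false) (s1 := true) (s2 := true) (a := 0) (b := 1) (c := 2) (cn := .pnp) (n1 := ndB0q0) (n2 := ndB0q2) (pc := pcB1) (cut := cut_pp_012_s) (xt := Ext.none) (P1 := 0) (W1 := 536870912) (P2 := 0) (W2 := 536870912) (P3 := 966367641) (W3 := 24778659) (N0 := 3) (En := eng) (mo := mog) (C1 := cd0q0) (C2 := cd0q2) (C3 := pd1)
    rfl (fun _ => rfl) s24_pp_012_s

noncomputable def cut_pp_012_t : Cut := Cut.of [[⟨3, 0, 0, 2845415833⟩], [⟨0, 0, 0, 33554432⟩, ⟨1, 1, 0, 33554432⟩, ⟨2, 1, 0, 33554432⟩]]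

noncomputable def f_pp_012_t : ℕ → ℕ → ℕ → ℕ → Bool := onCell 0 536870912 0 536870912 966367641 24778659
    (rowNE 3 eng mog cd0q0 cd0q2 pd1 0 false true true .pnp 0 1 2 (qsf 0 536870912 0 536870912 1) ndB0q0 ndB0q2 pcB1 cut_pp_012_t Ext.none)

def k0_pp_012_t : ∃ t, chk3 f_pp_012_t t 1 1 1 = true :=
  ⟨(l 6), by decide +kernel⟩

theorem c_pp_012_t : CertNE 0 536870912 0 536870912 966367641 24778659 3 eng mog cd0q0 cd0q2 pd1 false true true .pnp 0 1 2
    ndB0q0 ndB0q2 pcB1 cut_pp_012_t Ext.none :=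
  certNE0 (fam := false) (s1 := true) (s2 := true) (a := 0) (b := 1) (c := 2) (cn := .pnp) (n1 := ndB0q0) (n2 := ndB0q2) (pc := pcB1) (cut := cut_pp_012_t) (xt := Ext.none) (P1 := 0) (W1 := 536870912) (P2 := 0) (W2 := 536870912) (P3 := 966367641) (W3 := 24778659) (N0 := 3) (En := eng) (mo := mog) (C1 := cd0q0) (C2 := cd0q2) (C3 := pd1)
    rfl k0_pp_012_t

noncomputable def cut_pp_022_s : Cut := Cut.of [[⟨4, 0, 0, 1449551462⟩], [⟨0, 0, 0, 53687091⟩, ⟨1, 1, 0, 53687091⟩, ⟨2, 1, 0, 53687091⟩]]

noncomputable def f_pp_022_s : ℕ → ℕ → ℕ → ℕ → Bool := onCell 1073741824 536870912 0 536870912 966367641 24778659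
    (rowNE 3 eng mog cd0q0 cd0q2 pd2 2 false true true .pp 0 2 2 (qsf 0 536870912 0 536870912 2) ndB0q0 ndB0q2 pcB2 cut_pp_022_s Ext.none)

def k0_pp_022_s : ∃ t, chk3 f_pp_022_s t 4 2 1 = true :=
  ⟨(a (b (l 6) (a (b (l 6) (b (l 6) (a (c (l 16555128) (l 16592400)) (a (l 16579576) (l 16530504))))) (l 6))) (l 6)), by decide +kernel⟩

def k1_pp_022_s : ∃ t, chk3 f_pp_022_s t 8 6 1 = true :=
  ⟨(b (a (a (b (a (b (l 16607352) (l 16597504)) (c (l 16616112) (l 16609400))) (a (b (l 16604128) (l 16627184)) (c (l 16575112) (l 16571776)))) (b (a (a (l 16569560) (l 16575416)) (c (l 16555184) (l 16548288))) (a (b (l 16582752) (l 16560232)) (c (l 16550272) (l 16544224))))) (a (b (a (c (l 16522832) (l 16515304)) (c (l 16489488) (l 16481008))) (c (a (l 16515336) (l 16479584)) (a (l 16507496) (l 16470120)))) (b (a (c (l 16455312) (l 16445968)) (l 16415560)) (a (b (l 16441432) (l 16434256)) (b (l 16383672) (l 16375408)))))) (a (b (a (c (b (c (l 16570168) (l 16569752)) (a (l 16628824) (l 16614400))) (a (b (l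 16649664) (l 16629992)) (b (l 16614024) (l 16613104)))) (c (a (b (l 16580808) (l 16577960)) (b (l 16544808) (l 16540648))) (a (b (l 16576864) (l 16573896)) (b (l 16538472) (l 16533880))))) (a (a (b (c (l 16629528) (l 16631072)) (c (l 16631568) (l 16632424))) (c (b (l 16613608) (l 16614192)) (b (l 16612008) (l 16611512)))) (a (c (b (l 16575784) (l 16575072)) (b (l 16571048) (l 16568944))) (c (b (l 16537240) (l 16535392)) (b (l 16529496) (l 16526088)))))) (a (b (b (a (l 16503752) (l 16465304)) (a (a (l 16486928) (l 16467224)) (a (l 16447432) (l 16427568)))) (a (c (c (l 16478280) (l 16493656)) (b (l 16487696) (l 16482864))) (c (c (l 16439248) (l 16432200)) (c (l 16425016) (l 16438672))))) (b (c (b (l 16413760) (c (l 16409872) (l 16402464))) (a (l 16421000) (l 16375344))) (c (b (c (l 16404032) (l 16395448)) (a (l 16394312) (a (l 16385584) (l 16365968)))) (a (b (l 16403400) (l 16396184)) (b (l 16361280) (l 16332184)))))))), by decide +kernel⟩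

def k2_pp_022_s : ∃ t, chk3 f_pp_022_s t 16 14 1 = true :=
  ⟨(b (a (a (b (c (l 16634912) (l 16634480)) (c (b (l 16659288) (l 16620272)) (b (l 16657608) (l 16659792)))) (b (c (l 16616184) (l 16611872)) (c (b (l 16618648) (l 16620728)) (b (l 16613008) (l 16614224))))) (b (c (a (l 16575872) (l 16535184)) (a (l 16567960) (l 16523648))) (a (c (b (l 16577544) (l 16579032)) (b (l 16567992) (l 16568416))) (c (b (l 16536216) (l 16537328)) (b (l 16522688) (l 16501456)))))) (b (b (a (a (a (l 16676192) (l 16653920)) (c (l 16623976) (l 16616760))) (a (l 16575672) (c (l 16538936) (l 16522976)))) (b (a (a (a (l 16679568) (l 16656840)) (l 16633208)) (a (l 16577288) (c (l 16540408) (l 16523656)))) (l 14))) (l 14))), by decide +kernel⟩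

def k3_pp_022_s : ∃ t, chk3 f_pp_022_s t 17 28 1 = true :=
  ⟨(b (a (a (c (l 16473392) (l 16479168)) (c (l 16432688) (l 16413656))) (c (a (b (l 16413624) (a (l 16423280) (l 16403248))) (a (b (l 16383816) (l 16383408)) (b (l 16364176) (c (l 16370936) (l 16356576))))) (a (c (l 16375216) (l 16363488)) (b (l 16327128) (a (l 16356200) (c (l 16341904) (l 16326920))))))) (b (a (c (a (l 16473944) (l 16432944)) (a (l 16456280) (b (l 16411392) (l 16410672)))) (c (a (a (l 16423520) (a (l 16408472) (l 16398512))) (a (c (l 16390896) (l 16376368)) (c (l 61772910807) (b (l 16356272) (l 16356288))))) (a (c (a (l 16404712) (l 16383016)) (l 16359416)) (a (c (l 16361520) (l 16346344)) (c (b (l 16340616) (l 16339952)) (l 41908585863)))))) (b (a (c (a (l 16474736) (a (l 16464768) (l 16444360))) (a (l 16455736) (a (l 16442408) (l 16419720)))) (a (c (a (a (l 16429168) (l 16419104)) (a (l 16409096) (l 16399144))) (a (a (l 16402800) (l 16391576)) (a (l 16380400) (l 16369272)))) (a (c (a (c (l 16396816) (l 16381624))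 (c (l 16387288) (l 16371512))) (a (c (l 16366088) (l 16350224)) (c (l 16355384) (l 16338904)))) (a (c (l 169147077991) (l 206728006711)) (l 1))))) (a (c (a (l 16475120) (a (l 16465160) (a (l 16449832) (l 16439680)))) (a (l 16455416) (c (l 16415760) (l 16403312)))) (a (c (a (a (l 16429584) (l 16411680)) (b (a (l 16409544) (c (l 16407120) (l 16392040))) (l 16396864))) (b (a (a (l 16402368) (l 16391128)) (a (l 16379936) (c (l 16376632) (l 16360872)))) (a (l 16396520) (a (l 16379680) (l 16368528))))) (a (c (a (b (c (l 16397552) (l 16381880)) (l 16389936)) (c (l 96669542823) (l 105796314903))) (a (b (c (l 16365856) (l 16349472)) (l 16357440)) (c (l 114923095415) (l 16348408)))) (l 1))))))), by decide +kernel⟩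

def k4_pp_022_s : ∃ t, chk3 f_pp_022_s t 17 29 1 = true :=
  ⟨(a (b (b (c (a (l 16475952) (b (l 16434368) (a (l 16466136) (l 16445648)))) (a (l 16465864) (a (b (l 16441776) (l 16441688)) (c (l 16425568) (l 16412000))))) (b (a (a (l 16477600) (l 16463296)) (a (c (l 16466840) (l 16441752)) (c (a (l 16451432) (l 16441240)) (a (l 16424496) (l 16413056))))) (l 14))) (l 14)) (b (a (b (b (a (c (a (l 16429960) (l 16419912)) (a (l 16401904) (l 16390624))) (c (c (l 57477988103) (l 68215388327)) (a (l 16384648) (c (l 16376328) (l 16360080))))) (a (c (a (l 16430448) (l 16409912)) (a (l 16401712) (c (l 16398040) (l 16382720)))) (a (c (c (l 16418016) (l 16402744)) (c (l 16387128) (l 16371168))) (a (c (l 16402992) (l 16370808)) (l 1))))) (b (a (c (a (c (l 16438272) (l 16423880)) (c (l 16428528) (l 16413528))) (a (c (l 16409168) (l 16394128)) (c (l 16398184) (l 16382496)))) (a (a (c (l 16413584) (l 16381952)) (l 1)) (l 1))) (a (a (l 14) (a (l 14) (l 1))) (l 1)))) (b (a (a (b (c (l 16390200) (l 16367640))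 (l 1)) (l 1)) (l 1)) (l 1))) (a (a (a (l 14) (l 1)) (l 1)) (l 1)))), by decide +kernel⟩

def k5_pp_022_s : ∃ t, chk3 f_pp_022_s t 8 15 1 = true :=
  ⟨(a (l 14) (a (l 14) (l 1))), by decide +kernel⟩

def k6_pp_022_s : ∃ t, chk3 f_pp_022_s t 9 3 1 = true :=
  ⟨(b (b (a (b (l 6) (b (a (c (l 16355560) (l 16342592)) (l 6)) (a (c (l 16346864) (l 16331896)) (c (l 16252608) (l 16234520))))) (l 6)) (b (b (a (a (c (l 16317056) (l 16320720)) (c (l 16222256) (l 16221736))) (b (l 6) (b (l 6) (l 1)))) (a (a (c (b (l 16310592) (l 16306528)) (l 16314672)) (c (a (l 162704476615) (l 265783624503)) (a (l 16249632) (l 16210944)))) (l 1))) (a (b (a (c (c (a (l 16346880) (l 16309664)) (l 16295616)) (c (l 16283856) (l 16292840))) (c (a (c (l 16273472) (l 16259592)) (l 1)) (c (l 16205216) (l 16189976)))) (a (a (a (c (l 16346536) (l 16321264)) (c (b (l 16328264) (l 16326608)) (l 16300240))) (c (a (b (l 16309296) (l 16307680)) (l 231423990375)) (a (l 102574944055) (l 16279896)))) (l 1))) (l 1)))) (b (a (b (a (b (a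 (b (c (a (l 16344776) (l 16325632)) (a (l 16315904) (l 16294720))) (c (a (c (l 16352112) (l 16336696)) (l 16346360)) (a (c (l 16320944) (l 16304856)) (l 16312672)))) (a (c (l 162167681095) (l 210486004647)) (l 1))) (b (b (a (a (c (l 16365656) (l 16332072)) (l 1)) (l 1)) (l 1)) (l 1))) (l 1)) (l 1)) (l 1)) (l 1))), by decide +kernel⟩

def k7_pp_022_s : ∃ t, chk3 f_pp_022_s t 5 1 1 = true :=
  ⟨(b (l 6) (b (l 1) (l 1))), by decide +kernel⟩

def k8_pp_022_s : ∃ t, chk3 f_pp_022_s t 3 1 1 = true :=
  ⟨(l 1), by decide +kernel⟩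

theorem s9_pp_022_s : ∃ t, chk3 f_pp_022_s t 17 14 1 = true := ex3_b k3_pp_022_s k4_pp_022_s

theorem s10_pp_022_s : ∃ t, chk3 f_pp_022_s t 8 14 1 = true := ex3_a k2_pp_022_s s9_pp_022_s

theorem s11_pp_022_s : ∃ t, chk3 f_pp_022_s t 8 7 1 = true := ex3_b s10_pp_022_s k5_pp_022_s

theorem s12_pp_022_s : ∃ t, chk3 f_pp_022_s t 8 3 1 = true := ex3_b k1_pp_022_s s11_pp_022_s

theorem s13_pp_022_s : ∃ t, chk3 f_pp_022_s t 4 3 1 = true := ex3_a s12_pp_022_s k6_pp_022_s

theorem s14_pp_022_s : ∃ t, chk3 f_pp_022_s t 4 1 1 = true := ex3_b k0_pp_022_s s13_pp_022_s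

theorem s15_pp_022_s : ∃ t, chk3 f_pp_022_s t 2 1 1 = true := ex3_a s14_pp_022_s k7_pp_022_s

theorem s16_pp_022_s : ∃ t, chk3 f_pp_022_s t 1 1 1 = true := ex3_a s15_pp_022_s k8_pp_022_s

theorem c_pp_022_s : CertNE 0 536870912 0 536870912 966367641 24778659 3 eng mog cd0q0 cd0q2 pd2 false true true .pp 0 2 2
    ndB0q0 ndB0q2 pcB2 cut_pp_022_s Ext.none :=
  certNE2 (fam := false) (s1 := true) (s2 := true) (a := 0) (b := 2) (c := 2) (cn := .pp) (n1 := ndB0q0) (n2 := ndB0q2) (pc := pcB2) (cut := cut_pp_022_s) (xt := Ext.none) (P1 := 0) (W1 := 536870912) (P2 := 0) (W2 := 536870912) (P3 := 966367641) (W3 := 24778659) (N0 := 3) (En := eng) (mo := mog) (C1 := cd0q0) (C2 := cd0q2) (C3 := pd2)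
    rfl (fun _ => rfl) s16_pp_022_s

noncomputable def cut_pp_022_t : Cut := Cut.of [[⟨3, 0, 0, 2845415833⟩], [⟨0, 0, 0, 53687091⟩, ⟨1, 1, 0, 53687091⟩, ⟨2, 1, 0, 53687091⟩]]

noncomputable def f_pp_022_t : ℕ → ℕ → ℕ → ℕ → Bool := onCell 0 536870912 0 536870912 966367641 24778659
    (rowNE 3 eng mog cd0q0 cd0q2 pd2 0 false true true .pp 0 2 2 (qsf 0 536870912 0 536870912 2) ndB0q0 ndB0q2 pcB2 cut_pp_022_t Ext.none)

def k0_pp_022_t : ∃ t, chk3 f_pp_022_t t 1 1 1 = true :=
  ⟨(l 6), by decide +kernel⟩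

theorem c_pp_022_t : CertNE 0 536870912 0 536870912 966367641 24778659 3 eng mog cd0q0 cd0q2 pd2 false true true .pp 0 2 2
    ndB0q0 ndB0q2 pcB2 cut_pp_022_t Ext.none :=
  certNE0 (fam := false) (s1 := true) (s2 := true) (a := 0) (b := 2) (c := 2) (cn := .pp) (n1 := ndB0q0) (n2 := ndB0q2) (pc := pcB2) (cut := cut_pp_022_t) (xt := Ext.none) (P1 := 0) (W1 := 536870912) (P2 := 0) (W2 := 536870912) (P3 := 966367641) (W3 := 24778659) (N0 := 3) (En := eng) (mo := mog) (C1 := cd0q0) (C2 := cd0q2) (C3 := pd2)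
    rfl k0_pp_022_t

noncomputable def cut_pp_101_s : Cut := Cut.of [[⟨4, 0, 0, 1449551462⟩]]

noncomputable def f_pp_101_s : ℕ → ℕ → ℕ → ℕ → Bool := onCell 536870912 536870912 536870912 536870912 966367641 24778659
    (rowNE 3 eng mog cd0q1 cd0q1 pd0 0 false true true .npn 1 0 1 (qsf 536870912 536870912 536870912 536870912 0) ndB0q1 ndB0q1 pcB0 cut_pp_101_s Ext.none)

def k0_pp_101_s : ∃ t, chk3 f_pp_101_s t 1 1 1 = true :=
  ⟨(l 3), by decide +kernel⟩

theorem c_pp_101_s : CertNE 536870912 536870912 536870912 536870912 966367641 24778659 3 eng mog cd0q1 cd0q1 pd0 false true true .npn 1 0 1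
    ndB0q1 ndB0q1 pcB0 cut_pp_101_s Ext.none :=
  certNE0 (fam := false) (s1 := true) (s2 := true) (a := 1) (b := 0) (c := 1) (cn := .npn) (n1 := ndB0q1) (n2 := ndB0q1) (pc := pcB0) (cut := cut_pp_101_s) (xt := Ext.none) (P1 := 536870912) (W1 := 536870912) (P2 := 536870912) (W2 := 536870912) (P3 := 966367641) (W3 := 24778659) (N0 := 3) (En := eng) (mo := mog) (C1 := cd0q1) (C2 := cd0q1) (C3 := pd0)
    rfl k0_pp_101_s

noncomputable def cut_pp_101_t : Cut := Cut.of [[⟨3, 0, 0, 2845415833⟩]]

noncomputable def f_pp_101_t : ℕ → ℕ → ℕ → ℕ → Bool := onCell 536870912 536870912 536870912 536870912 966367641 24778659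
    (rowNE 3 eng mog cd0q1 cd0q1 pd0 0 false true true .npn 1 0 1 (qsf 536870912 536870912 536870912 536870912 0) ndB0q1 ndB0q1 pcB0 cut_pp_101_t Ext.none)

def k0_pp_101_t : ∃ t, chk3 f_pp_101_t t 1 1 1 = true :=
  ⟨(l 3), by decide +kernel⟩

theorem c_pp_101_t : CertNE 536870912 536870912 536870912 536870912 966367641 24778659 3 eng mog cd0q1 cd0q1 pd0 false true true .npn 1 0 1
    ndB0q1 ndB0q1 pcB0 cut_pp_101_t Ext.none :=
  certNE0 (fam := false) (s1 := true) (s2 := true) (a := 1) (b := 0) (c := 1) (cn := .npn) (n1 := ndB0q1) (n2 := ndB0q1) (pc := pcB0) (cut := cut_pp_101_t) (xt := Ext.none) (P1 := 536870912) (W1 := 536870912) (P2 := 536870912) (W2 := 536870912) (P3 := 966367641) (W3 := 24778659) (N0 := 3) (En := eng) (mo := mog) (C1 := cd0q1) (C2 := cd0q1) (C3 := pd0)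
    rfl k0_pp_101_t

noncomputable def cut_pp_102_s : Cut := Cut.of [[⟨4, 0, 0, 1449551462⟩]]

noncomputable def f_pp_102_s : ℕ → ℕ → ℕ → ℕ → Bool := onCell 0 536870912 0 536870912 966367641 24778659
    (rowNE 3 eng mog cd0q1 cd0q2 pd0 2 false true true .npp 1 0 2 (qsf 536870912 536870912 0 536870912 0) ndB0q1 ndB0q2 pcB0 cut_pp_102_s Ext.none)

def k0_pp_102_s : ∃ t, chk3 f_pp_102_s t 1 1 1 = true :=
  ⟨(a (b (l 3) (l 3)) (l 3)), by decide +kernel⟩

theorem c_pp_102_s : CertNE 536870912 536870912 0 536870912 966367641 24778659 3 eng mog cd0q1 cd0q2 pd0 false true true .npp 1 0 2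
    ndB0q1 ndB0q2 pcB0 cut_pp_102_s Ext.none :=
  certNE2 (fam := false) (s1 := true) (s2 := true) (a := 1) (b := 0) (c := 2) (cn := .npp) (n1 := ndB0q1) (n2 := ndB0q2) (pc := pcB0) (cut := cut_pp_102_s) (xt := Ext.none) (P1 := 536870912) (W1 := 536870912) (P2 := 0) (W2 := 536870912) (P3 := 966367641) (W3 := 24778659) (N0 := 3) (En := eng) (mo := mog) (C1 := cd0q1) (C2 := cd0q2) (C3 := pd0)
    rfl (fun _ => rfl) k0_pp_102_s

noncomputable def cut_pp_102_t : Cut := Cut.of [[⟨3, 0, 0, 2845415833⟩]]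

noncomputable def f_pp_102_t : ℕ → ℕ → ℕ → ℕ → Bool := onCell 536870912 536870912 0 536870912 966367641 24778659
    (rowNE 3 eng mog cd0q1 cd0q2 pd0 0 false true true .npp 1 0 2 (qsf 536870912 536870912 0 536870912 0) ndB0q1 ndB0q2 pcB0 cut_pp_102_t Ext.none)

def k0_pp_102_t : ∃ t, chk3 f_pp_102_t t 1 1 1 = true :=
  ⟨(l 6), by decide +kernel⟩

theorem c_pp_102_t : CertNE 536870912 536870912 0 536870912 966367641 24778659 3 eng mog cd0q1 cd0q2 pd0 false true true .npp 1 0 2
    ndB0q1 ndB0q2 pcB0 cut_pp_102_t Ext.none :=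
  certNE0 (fam := false) (s1 := true) (s2 := true) (a := 1) (b := 0) (c := 2) (cn := .npp) (n1 := ndB0q1) (n2 := ndB0q2) (pc := pcB0) (cut := cut_pp_102_t) (xt := Ext.none) (P1 := 536870912) (W1 := 536870912) (P2 := 0) (W2 := 536870912) (P3 := 966367641) (W3 := 24778659) (N0 := 3) (En := eng) (mo := mog) (C1 := cd0q1) (C2 := cd0q2) (C3 := pd0)
    rfl k0_pp_102_t

noncomputable def cut_pp_112_s : Cut := Cut.of [[⟨4, 0, 0, 1449551462⟩]]

noncomputable def f_pp_112_s : ℕ → ℕ → ℕ → ℕ → Bool := onCell 536870912 536870912 0 536870912 966367641 24778659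
    (rowNE 3 eng mog cd0q1 cd0q2 pd1 0 false true true .dn 1 1 2 (qsf 536870912 536870912 0 536870912 1) ndB0q1 ndB0q2 pcB1 cut_pp_112_s Ext.none)

def k0_pp_112_s : ∃ t, chk3 f_pp_112_s t 1 1 1 = true :=
  ⟨(a (b (b (a (a (b (a (a (b (l 16688824) (l 16740312)) (b (l 16712440) (b (l 16752336) (l 16774144)))) (b (a (l 16737656) (b (l 16750352) (l 16773000))) (a (l 107004911255) (l 3)))) (a (b (a (l 108615509655) (l 3)) (l 3)) (l 3))) (b (a (b (a (l 105394305063) (l 3)) (l 3)) (l 3)) (l 3))) (l 3)) (l 3)) (l 3)) (l 1)), by decide +kernel⟩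

theorem c_pp_112_s : CertNE 536870912 536870912 0 536870912 966367641 24778659 3 eng mog cd0q1 cd0q2 pd1 false true true .dn 1 1 2
    ndB0q1 ndB0q2 pcB1 cut_pp_112_s Ext.none :=
  certNE0 (fam := false) (s1 := true) (s2 := true) (a := 1) (b := 1) (c := 2) (cn := .dn) (n1 := ndB0q1) (n2 := ndB0q2) (pc := pcB1) (cut := cut_pp_112_s) (xt := Ext.none) (P1 := 536870912) (W1 := 536870912) (P2 := 0) (W2 := 536870912) (P3 := 966367641) (W3 := 24778659) (N0 := 3) (En := eng) (mo := mog) (C1 := cd0q1) (C2 := cd0q2) (C3 := pd1)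
    rfl k0_pp_112_s

noncomputable def cut_pp_112_t : Cut := Cut.of [[⟨3, 0, 0, 2845415833⟩]]

noncomputable def f_pp_112_t : ℕ → ℕ → ℕ → ℕ → Bool := onCell 536870912 536870912 0 536870912 966367641 24778659
    (rowNE 3 eng mog cd0q1 cd0q2 pd1 0 false true true .dn 1 1 2 (qsf 536870912 536870912 0 536870912 1) ndB0q1 ndB0q2 pcB1 cut_pp_112_t Ext.none)

def k0_pp_112_t : ∃ t, chk3 f_pp_112_t t 1 1 1 = true :=
  ⟨(l 6), by decide +kernel⟩

theorem c_pp_112_t : CertNE 536870912 536870912 0 536870912 966367641 24778659 3 eng mog cd0q1 cd0q2 pd1 false true true .dn 1 1 2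
    ndB0q1 ndB0q2 pcB1 cut_pp_112_t Ext.none :=
  certNE0 (fam := false) (s1 := true) (s2 := true) (a := 1) (b := 1) (c := 2) (cn := .dn) (n1 := ndB0q1) (n2 := ndB0q2) (pc := pcB1) (cut := cut_pp_112_t) (xt := Ext.none) (P1 := 536870912) (W1 := 536870912) (P2 := 0) (W2 := 536870912) (P3 := 966367641) (W3 := 24778659) (N0 := 3) (En := eng) (mo := mog) (C1 := cd0q1) (C2 := cd0q2) (C3 := pd1)
    rfl k0_pp_112_t

noncomputable def cut_pp_202_s : Cut := Cut.of [[⟨4, 0, 0, 1449551462⟩]]

noncomputable def f_pp_202_s : ℕ → ℕ → ℕ → ℕ → Bool := onCell 0 536870912 0 536870912 966367641 24778659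
    (rowNE 3 eng mog cd0q2 cd0q2 pd0 0 false true true .pp 2 0 2 (qsf 0 536870912 0 536870912 0) ndB0q2 ndB0q2 pcB0 cut_pp_202_s Ext.none)

def k0_pp_202_s : ∃ t, chk3 f_pp_202_s t 1 1 1 = true :=
  ⟨(l 3), by decide +kernel⟩

theorem c_pp_202_s : CertNE 0 536870912 0 536870912 966367641 24778659 3 eng mog cd0q2 cd0q2 pd0 false true true .pp 2 0 2
    ndB0q2 ndB0q2 pcB0 cut_pp_202_s Ext.none :=
  certNE0 (fam := false) (s1 := true) (s2 := true) (a := 2) (b := 0) (c := 2) (cn := .pp) (n1 := ndB0q2) (n2 := ndB0q2) (pc := pcB0) (cut := cut_pp_202_s) (xt := Ext.none) (P1 := 0) (W1 := 536870912) (P2 := 0) (W2 := 536870912) (P3 := 966367641) (W3 := 24778659) (N0 := 3) (En := eng) (mo := mog) (C1 := cd0q2) (C2 := cd0q2) (C3 := pd0)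
    rfl k0_pp_202_s

noncomputable def cut_pp_202_t : Cut := Cut.of [[⟨3, 0, 0, 2845415833⟩]]

noncomputable def f_pp_202_t : ℕ → ℕ → ℕ → ℕ → Bool := onCell 0 536870912 0 536870912 966367641 24778659
    (rowNE 3 eng mog cd0q2 cd0q2 pd0 0 false true true .pp 2 0 2 (qsf 0 536870912 0 536870912 0) ndB0q2 ndB0q2 pcB0 cut_pp_202_t Ext.none)

def k0_pp_202_t : ∃ t, chk3 f_pp_202_t t 1 1 1 = true :=
  ⟨(l 3), by decide +kernel⟩

theorem c_pp_202_t : CertNE 0 536870912 0 536870912 966367641 24778659 3 eng mog cd0q2 cd0q2 pd0 false true true .pp 2 0 2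
    ndB0q2 ndB0q2 pcB0 cut_pp_202_t Ext.none :=
  certNE0 (fam := false) (s1 := true) (s2 := true) (a := 2) (b := 0) (c := 2) (cn := .pp) (n1 := ndB0q2) (n2 := ndB0q2) (pc := pcB0) (cut := cut_pp_202_t) (xt := Ext.none) (P1 := 0) (W1 := 536870912) (P2 := 0) (W2 := 536870912) (P3 := 966367641) (W3 := 24778659) (N0 := 3) (En := eng) (mo := mog) (C1 := cd0q2) (C2 := cd0q2) (C3 := pd0)
    rfl k0_pp_202_t

noncomputable def cut_pm_001_s : Cut := Cut.of [[⟨4, 0, 0, 1449551462⟩]]

noncomputable def f_pm_001_s : ℕ → ℕ → ℕ → ℕ → Bool := onCell 0 536870912 536870912 536870912 966367641 24778659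
    (rowNE 3 eng mog cd0q0 cd0q1 pd0 0 false true false .up 0 0 1 (qsf 0 536870912 536870912 536870912 0) ndB0q0 ndB0q1 pcB0 cut_pm_001_s Ext.none)

def k0_pm_001_s : ∃ t, chk3 f_pm_001_s t 1 1 1 = true :=
  ⟨(l 6), by decide +kernel⟩

theorem c_pm_001_s : CertNE 0 536870912 536870912 536870912 966367641 24778659 3 eng mog cd0q0 cd0q1 pd0 false true false .up 0 0 1
    ndB0q0 ndB0q1 pcB0 cut_pm_001_s Ext.none :=
  certNE0 (fam := false) (s1 := true) (s2 := false) (a := 0) (b := 0) (c := 1) (cn := .up) (n1 := ndB0q0) (n2 := ndB0q1) (pc := pcB0) (cut := cut_pm_001_s) (xt := Ext.none) (P1 := 0) (W1 := 536870912) (P2 := 536870912) (W2 := 536870912) (P3 := 966367641) (W3 := 24778659) (N0 := 3) (En := eng) (mo := mog) (C1 := cd0q0) (C2 := cd0q1) (C3 := pd0)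
    rfl k0_pm_001_s

noncomputable def cut_pm_001_t : Cut := Cut.of [[⟨3, 0, 0, 2845415833⟩]]

noncomputable def f_pm_001_t : ℕ → ℕ → ℕ → ℕ → Bool := onCell 0 536870912 536870912 536870912 966367641 24778659
    (rowNE 3 eng mog cd0q0 cd0q1 pd0 0 false true false .up 0 0 1 (qsf 0 536870912 536870912 536870912 0) ndB0q0 ndB0q1 pcB0 cut_pm_001_t Ext.none)

def k0_pm_001_t : ∃ t, chk3 f_pm_001_t t 2 1 1 = true :=
  ⟨(b (l 4) (b (b (l 4) (l 2)) (l 2))), by decide +kernel⟩

def k1_pm_001_t : ∃ t, chk3 f_pm_001_t t 3 2 1 = true :=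
  ⟨(b (l 4) (a (l 4) (b (a (l 4) (b (a (l 4) (b (l 4) (a (l 4) (b (l 4) (l 111903931751))))) (a (b (l 4) (a (l 4) (b (l 120493845959) (l 16729232)))) (b (a (b (l 4) (l 111903938759)) (b (l 16751360) (l 16757776))) (a (b (l 16770176) (l 16755768)) (l 16734712)))))) (a (b (a (l 4) (b (l 4) (a (l 4) (c (l 85060374935) (l 16708488))))) (a (b (a (l 4) (b (l 4) (l 127473152951))) (a (c (l 197803324711) (l 109219503367)) (c (l 80228555367) (l 16730312)))) (b (a (c (l 82376025447) (l 16713368)) (c (l 16754984) (l 16754136))) (a (c (l 16751784) (l 16750472)) (l 16728616))))) (b (a (b (a (b (l 125325691303) (l 16733328)) (b (l 16767536) (l 16753416))) (a (l 16747192) (l 16732544))) (a (b (l 16733848) (l 16705920)) (b (l 16705360) (l 16677760)))) (a (b (a (l 16730800) (l 16705816)) (a (l 16705096) (l 16680432))) (b (a (l 16679512) (l 16630760)) (a (l 16654480) (l 16606144))))))))), by decide +kernel⟩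

def k2_pm_001_t : ∃ t, chk3 f_pm_001_t t 6 6 1 = true :=
  ⟨(b (a (a (l 4) (b (l 4) (b (l 4) (a (l 4) (b (l 4) (c (a (l 114588262567) (l 16742936)) (a (l 119420092695) (l 16732136)))))))) (b (a (l 4) (b (a (l 4) (b (l 4) (c (l 111367062071) (l 16726632)))) (a (c (b (l 125325670551) (l 16734112)) (b (l 129620629767) (l 16733920))) (c (l 16742136) (l 16762296))))) (a (b (b (a (l 4) (c (l 107608946343) (l 106535197543))) (a (a (l 4) (c (l 16727264) (l 16717744))) (c (l 16749176) (l 16748496)))) (a (c (b (a (l 16733504) (l 16771600)) (l 16762840)) (b (a (l 16724624) (l 16771032)) (l 16761424))) (c (l 16737144) (l 16726784)))) (b (a (c (l 16736584) (l 16734944)) (c (l 16738544) (l 16735488))) (a (c (l 16731288) (l 16727200)) (c (l 16713000) (l 16707544))))))) (a (b (a (l 2) (b (a (l 2) (b (a (l 2) (l 16757472)) (l 2))) (l 2))) (l 2)) (a (b (b (a (c (b (l 16748168) (l 16732680)) (b (l 16745344) (l 16728352))) (c (l 16721784) (l 16716576))) (a (c (l 176194173559) (l 183710334839)) (c (l 16690672)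 (l 16682576)))) (b (a (l 2) (c (l 16612840) (l 16601488))) (l 2))) (b (b (a (c (l 16704008) (l 16697368)) (c (l 16686824) (l 16678912))) (a (c (l 16674680) (l 16665384)) (l 16654160))) (b (a (a (l 16596704) (l 16590000)) (l 16622104)) (a (c (l 16581024) (l 16565456)) (l 16584640))))))), by decide +kernel⟩

def k3_pm_001_t : ∃ t, chk3 f_pm_001_t t 7 6 1 = true :=
  ⟨(b (a (b (a (b (a (c (l 61438089879) (l 16746616)) (c (l 16748160) (l 16746432))) (a (c (l 16743904) (l 16741632)) (l 16722384))) (b (a (l 16725920) (l 16703720)) (a (l 16701408) (l 16679640)))) (a (b (a (c (l 16719584) (l 16715248)) (l 16697616)) (a (l 16691544) (l 16672576))) (b (a (l 16677232) (l 16656064)) (a (l 16653048) (l 16632712))))) (b (a (b (a (l 16680536) (l 16656240)) (a (l 16656896) (l 16633048))) (a (b (l 16630696) (l 16607968)) (b (l 16603776) (l 16581544)))) (a (b (a (l 16633912) (l 16610632)) (a (l 16611344) (l 16588816))) (b (a (l 16586112) (l 16560248)) (a (l 16564992) (l 16539792)))))) (a (b (a (b (a (l 16665392)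 (l 16647656)) (a (l 16638368) (l 16622368))) (b (a (l 16629344) (l 16610152)) (a (l 16605712) (l 16588088)))) (a (b (a (l 16608856) (l 16595184)) (a (l 16574784) (l 16564344))) (b (a (l 16580784) (l 16565272)) (a (l 16552912) (l 16540192))))) (b (a (b (l 16579456) (l 16559496)) (b (l 16533584) (l 16516040))) (a (b (l 16539488) (l 16518136)) (b (l 16499240) (l 6)))))), by decide +kernel⟩

def k4_pm_001_t : ∃ t, chk3 f_pm_001_t t 3 7 1 = true :=
  ⟨(a (b (a (l 2) (b (a (l 2) (b (a (l 2) (l 204647852455)) (l 2))) (l 2))) (l 2)) (b (a (b (a (b (a (l 16470792) (l 16527464)) (a (b (l 16495856) (l 2)) (b (l 16493992) (l 16476552)))) (b (a (l 16519976) (l 16511080)) (l 6))) (a (a (l 2) (l 6)) (l 6))) (l 6)) (l 6))), by decide +kernel⟩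

theorem s5_pm_001_t : ∃ t, chk3 f_pm_001_t t 3 6 1 = true := ex3_a k2_pm_001_t k3_pm_001_t

theorem s6_pm_001_t : ∃ t, chk3 f_pm_001_t t 3 3 1 = true := ex3_b s5_pm_001_t k4_pm_001_t

theorem s7_pm_001_t : ∃ t, chk3 f_pm_001_t t 3 1 1 = true := ex3_b k1_pm_001_t s6_pm_001_t

theorem s8_pm_001_t : ∃ t, chk3 f_pm_001_t t 1 1 1 = true := ex3_a k0_pm_001_t s7_pm_001_t

theorem c_pm_001_t : CertNE 0 536870912 536870912 536870912 966367641 24778659 3 eng mog cd0q0 cd0q1 pd0 false true false .up 0 0 1
    ndB0q0 ndB0q1 pcB0 cut_pm_001_t Ext.none :=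
  certNE0 (fam := false) (s1 := true) (s2 := false) (a := 0) (b := 0) (c := 1) (cn := .up) (n1 := ndB0q0) (n2 := ndB0q1) (pc := pcB0) (cut := cut_pm_001_t) (xt := Ext.none) (P1 := 0) (W1 := 536870912) (P2 := 536870912) (W2 := 536870912) (P3 := 966367641) (W3 := 24778659) (N0 := 3) (En := eng) (mo := mog) (C1 := cd0q0) (C2 := cd0q1) (C3 := pd0)
    rfl s8_pm_001_t

noncomputable def cut_pm_011_s : Cut := Cut.of [[⟨4, 0, 0, 1449551462⟩], [⟨0, 0, 0, 53687091⟩, ⟨1, 1, 0, 53687091⟩, ⟨2, 1, 0, 53687091⟩]]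

noncomputable def f_pm_011_s : ℕ → ℕ → ℕ → ℕ → Bool := onCell 0 536870912 536870912 536870912 966367641 24778659
    (rowNE 3 eng mog cd0q0 cd0q1 pd1 0 false true false .pnn 0 1 1 (qsf 0 536870912 536870912 536870912 1) ndB0q0 ndB0q1 pcB1 cut_pm_011_s Ext.none)

def k0_pm_011_s : ∃ t, chk3 f_pm_011_s t 1 1 1 = true :=
  ⟨(l 6), by decide +kernel⟩

theorem c_pm_011_s : CertNE 0 536870912 536870912 536870912 966367641 24778659 3 eng mog cd0q0 cd0q1 pd1 false true false .pnn 0 1 1
    ndB0q0 ndB0q1 pcB1 cut_pm_011_s Ext.none :=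
  certNE0 (fam := false) (s1 := true) (s2 := false) (a := 0) (b := 1) (c := 1) (cn := .pnn) (n1 := ndB0q0) (n2 := ndB0q1) (pc := pcB1) (cut := cut_pm_011_s) (xt := Ext.none) (P1 := 0) (W1 := 536870912) (P2 := 536870912) (W2 := 536870912) (P3 := 966367641) (W3 := 24778659) (N0 := 3) (En := eng) (mo := mog) (C1 := cd0q0) (C2 := cd0q1) (C3 := pd1)
    rfl k0_pm_011_s

noncomputable def cut_pm_011_t : Cut := Cut.of [[⟨3, 0, 0, 2845415833⟩], [⟨0, 0, 0, 53687091⟩, ⟨1, 1, 0, 53687091⟩, ⟨2, 1, 0, 53687091⟩]]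

noncomputable def f_pm_011_t : ℕ → ℕ → ℕ → ℕ → Bool := onCell 0 536870912 536870912 536870912 966367641 24778659
    (rowNE 3 eng mog cd0q0 cd0q1 pd1 0 false true false .pnn 0 1 1 (qsf 0 536870912 536870912 536870912 1) ndB0q0 ndB0q1 pcB1 cut_pm_011_t Ext.none)

def k0_pm_011_t : ∃ t, chk3 f_pm_011_t t 1 2 1 = true :=
  ⟨(a (l 4) (b (l 1) (a (l 4) (l 1)))), by decide +kernel⟩

def k1_pm_011_t : ∃ t, chk3 f_pm_011_t t 2 6 1 = true :=
  ⟨(a (l 4) (b (l 4) (a (l 4) (b (l 4) (a (b (l 4) (a (l 4) (b (l 4) (a (l 4) (b (l 4) (c (l 109756451623) (a (l 4) (l 110830228183)))))))) (b (a (l 4) (b (a (l 4) (c (l 226794348919) (l 238068632807))) (c (a (l 210151371239) (l 78081093895)) (a (c (l 115661994519) (l 121030699959)) (c (l 16752424) (l 16752248)))))) (a (b (a (l 4) (c (b (l 114588283447) (l 16754656)) (c (l 107608954471) (l 113514531863)))) (c (a (c (l 81839180407) (l 82376049607)) (l 16765416)) (a (c (l 81839176967) (l 85060401367)) (l 16764280)))) (c (b (a (l 16748616) (l 16759408)) (l 16750144))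 (b (c (l 32447087223) (l 16752640)) (a (l 16753368) (l 16721200))))))))))), by decide +kernel⟩

def k2_pm_011_t : ∃ t, chk3 f_pm_011_t t 4 14 1 = true :=
  ⟨(a (l 4) (b (l 4) (a (l 4) (a (l 4) (b (l 4) (b (l 4) (a (b (l 4) (a (l 4) (c (a (l 288534521159) (a (l 249879829591) (l 227868131607))) (c (l 255785422359) (l 254711657239))))) (a (b (l 4) (b (c (a (l 159685550455) (l 16753184)) (b (l 205856389911) (l 105998396583))) (c (l 16772640) (l 16772888)))) (c (b (a (l 260080374343) (b (l 284776439319) (l 16775808))) (l 16758144)) (b (c (l 233773707239) (l 234310576903)) (l 16757328))))))))))), by decide +kernel⟩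

def k3_pm_011_t : ∃ t, chk3 f_pm_011_t t 8 30 1 = true :=
  ⟨(a (l 4) (b (l 4) (a (l 4) (b (l 4) (a (l 4) (b (l 4) (a (l 4) (b (l 4) (b (a (l 4) (a (l 4) (c (c (l 121567709815) (l 123715193415)) (c (l 126936418791) (l 256859172535))))) (a (a (l 4) (b (l 4) (c (l 96334776087) (l 16776960)))) (c (a (c (l 16776392) (l 16776392)) (l 16774448)) (c (l 16775384) (l 16775376))))))))))))), by decide +kernel⟩

def k4_pm_011_t : ∃ t, chk3 f_pm_011_t t 16 31 1 = true :=
  ⟨(b (b (l 4) (b (l 4) (b (l 4) (l 14)))) (l 14)), by decide +kernel⟩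

def k5_pm_011_t : ∃ t, chk3 f_pm_011_t t 34 124 1 = true :=
  ⟨(a (l 4) (b (l 4) (a (l 4) (b (l 4) (a (l 4) (b (l 4) (b (a (l 4) (c (c (l 120493967015) (l 121567708839)) (c (l 123715192471) (l 124788934295)))) (a (c (c (l 130157643559) (l 131231385383)) (c (l 135526352599) (l 137136965319))) (c (l 16775992) (l 16775984)))))))))), by decide +kernel⟩

def k6_pm_011_t : ∃ t, chk3 f_pm_011_t t 68 125 1 = true :=
  ⟨(b (a (l 4) (b (l 4) (a (l 4) (b (l 4) (b (a (l 4) (a (l 4) (c (l 241826792135) (l 196729636503)))) (a (a (l 4) (c (l 255248564999) (l 261691015927))) (c (c (a (l 78618035303) (l 16776472)) (l 27615298663)) (c (l 27078427751) (l 30836524119))))))))) (a (b (a (l 4) (b (l 4) (b (l 4) (a (l 4) (b (a (l 4) (c (l 81302389543) (l 84523614999))) (c (c (l 21709718375) (l 16776864)) (c (l 16776864) (l 16776856)))))))) (b (b (a (l 4) (a (a (b (l 4) (c (l 106535322487) (l 109756547959))) (c (c (l 21709718343) (l 16776936)) (c (l 16776928) (l 16776920)))) (c (l 16775608) (l 16775568)))) (a (a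 (l 4) (a (l 14) (b (c (l 115662128007) (l 118883353479)) (c (l 16776632) (l 16776616))))) (c (a (l 16775704) (l 16773872)) (c (l 16774744) (l 16774712))))) (a (l 14) (a (c (l 16770504) (l 16767776)) (c (l 16766032) (l 16765888)))))) (b (a (a (b (b (l 4) (c (l 278334014663) (l 285850206087))) (b (b (a (l 4) (c (l 16777176) (l 16777176))) (c (c (l 16776784) (l 16776776)) (c (l 16776776) (l 16776768)))) (c (l 16775504) (l 16775464)))) (b (a (b (l 4) (c (c (l 112440902247) (l 113514644727)) (c (l 115662128375) (l 120493966503)))) (c (b (l 268133466951) (l 16776664)) (b (l 275112788791) (l 16776656)))) (c (l 16771904) (l 16771840)))) (b (c (a (b (a (a (l 131231384775) (l 61975036823)) (l 16776568)) (l 16770048)) (l 16769048)) (a (b (a (a (l 132841997511) (l 63048778631)) (l 16776560)) (l 16764768)) (l 16768992))) (c (c (l 16766480) (l 16761184)) (c (l 16761128) (l 16761064))))) (b (a (c (c (l 16766744) (l 16766680)) (c (l 16766624) (l 16761312))) (c (l 16762920) (l 16762736))) (c (a (l 16763224)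 (l 16764656)) (a (l 16763016) (l 16764384))))))), by decide +kernel⟩

def k7_pm_011_t : ∃ t, chk3 f_pm_011_t t 69 125 1 = true :=
  ⟨(b (b (b (a (l 4) (a (b (a (l 4) (a (c (l 278870885239) (l 230552504119)) (c (l 114051515559) (l 98482259191)))) (a (a (l 4) (c (l 126399546663) (l 129083901223))) (c (l 16776240) (l 16776224)))) (c (c (l 16773576) (l 16774216)) (a (l 16774528) (l 16762720))))) (a (a (l 4) (b (a (l 4) (a (l 4) (c (l 137136965047) (l 140895061415)))) (a (a (l 4) (c (l 151632479719) (l 155390576103))) (c (c (l 16776472) (l 16776464)) (c (l 16776456) (l 16776448)))))) (a (c (a (b (l 16777008) (l 16774568)) (l 16768280)) (c (l 16774456) (l 16774440))) (c (l 16765320) (l 16765248))))) (a (a (b (b (a (l 4) (a (l 4) (c (l 165591123495) (l 169886090775)))) (a (a (l 4) (c (l 178476025447) (l 183307863639))) (c (c (c (l 16777664) (l 16776680)) (l 16776680)) (c (l 16776672) (l 16776664))))) (c (a (b (c (a (l 67880616951) (l 16776368)) (l 16776776)) (l 16769824)) (l 16768800)) (a (b (c (l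 16776776) (l 16776768)) (l 16764536)) (l 16768752)))) (c (b (a (b (c (l 16776576) (l 16776568)) (l 16769584)) (l 16768544)) (l 16767216)) (b (a (c (l 16775672) (l 16775656)) (l 16763256)) (l 16765808)))) (a (b (c (l 16765616) (l 16765536)) (c (l 16767224) (l 16767088))) (c (c (l 16759856) (l 16754544)) (c (l 16754480) (l 16764896)))))) (a (b (b (a (c (c (l 16766208) (l 16760912)) (c (l 16760864) (l 16760808))) (c (l 16762296) (l 16756904))) (c (a (l 16762616) (l 16763952)) (a (l 16762440) (l 16763736)))) (c (a (b (l 16764304) (l 16760760)) (b (l 16760368) (l 16756800))) (a (c (l 16751832) (l 16762176)) (l 16753024)))) (a (b (c (b (l 16763592) (l 16759984)) (b (l 16763408) (l 16759736))) (c (l 16754576) (l 16754232))) (b (c (l 16752528) (l 16757536)) (c (l 16750512) (l 16750160)))))), by decide +kernel⟩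

def k8_pm_011_t : ∃ t, chk3 f_pm_011_t t 70 124 1 = true :=
  ⟨(b (a (l 4) (b (l 4) (a (b (l 4) (a (l 4) (c (l 265985984103) (l 272965305927)))) (a (b (l 4) (b (c (l 190824057239) (l 195119024519)) (c (l 16776784) (l 16776784)))) (b (c (l 246658631111) (l 253101082023)) (c (c (l 16775736) (l 16775728)) (l 16775728))))))) (a (b (a (l 4) (b (l 4) (a (a (c (l 229478760231) (l 235384341559)) (b (l 4) (c (l 16776888) (l 16776888)))) (c (c (b (l 74323068231) (l 16775456)) (l 16776280)) (c (l 16776280) (l 16776280)))))) (b (a (b (a (l 4) (c (c (l 95797904967) (l 16777400)) (c (l 16777400) (l 16777400)))) (a (c (c (l 108145935991) (l 109756548711)) (c (l 110830290535) (l 111904032359))) (c (l 16775728) (l 16775720)))) (c (l 16769728) (l 16768392))) (c (a (c (l 16773952) (l 16773936)) (l 16764696)) (a (a (l 16774920) (l 16762432)) (l 16759400))))) (a (b (b (a (c (a (l 207467052695) (b (l 213909505895) (l 16776632))) (b (l 220888828455) (l 58216940983))) (b (c (l 35668362583) (l 16776912)) (c (l 16764672)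 (l 16775144)))) (c (l 16768112) (l 16762848))) (c (c (l 16762520) (l 16757240)) (c (l 16757216) (l 16746696)))) (b (c (a (l 16766936) (l 16764896)) (c (l 16760656) (l 16760640))) (c (l 16757096) (l 16753088)))))), by decide +kernel⟩

def k9_pm_011_t : ∃ t, chk3 f_pm_011_t t 71 124 1 = true :=
  ⟨(b (a (b (a (b (l 4) (a (l 4) (c (l 226794405879) (l 251490468343)))) (a (b (l 4) (b (c (l 139284449303) (l 142505674759)) (c (l 16776216) (l 16776208)))) (b (b (l 4) (c (l 124788934615) (l 129083901847))) (c (l 16775120) (l 16775112))))) (a (c (b (a (b (l 167201736871) (l 16776504)) (l 16775432)) (l 16762232)) (b (a (c (l 66270005367) (l 69491230823)) (l 16775432)) (l 16762216))) (c (c (l 16760008) (l 16760000)) (l 16765224)))) (a (b (c (b (c (a (l 28152170359) (l 16774792)) (l 16777016)) (l 16761552)) (b (c (l 16777008) (l 16775696)) (l 16761536))) (c (l 16755864) (l 16755816))) (b (c (l 16764544) (l 16759264)) (c (l 16762184) (l 16762104))))) (c (a (a (b (l 16760504) (l 16759528)) (b (l 16752440)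 (l 16755368))) (b (a (l 16758768) (l 16754592)) (a (l 16751192) (l 16747000)))) (a (b (c (l 16754464) (l 16754440)) (c (l 16746880) (l 16757304))) (b (a (l 16758664) (l 16754448)) (l 16738424))))), by decide +kernel⟩

def k10_pm_011_t : ∃ t, chk3 f_pm_011_t t 35 125 1 = true :=
  ⟨(b (b (a (c (a (a (c (l 16761872) (l 16757904)) (c (l 16753904) (l 16764336))) (a (l 16755040) (l 16756160))) (a (a (c (l 16757864) (l 16757824)) (l 16759024)) (c (l 16747640) (l 16747576)))) (a (c (a (l 16752008) (l 16747824)) (a (l 16751832) (l 16747624))) (c (l 16741520) (l 16741256)))) (a (a (a (c (a (l 16762048) (l 16760024)) (l 16755640)) (c (l 16756960) (l 16756792))) (c (a (l 16752840) (l 16748688)) (a (l 16752648) (l 16748472)))) (c (a (l 16742400) (l 16733936)) (a (l 16742152) (l 16733608))))) (a (a (b (c (a (l 16753704) (l 16749584)) (c (l 16740976) (l 16751336))) (a (a (l 16747248) (l 16745184)) (l 16744680))) (c (b (a (l 16745424) (l 16741232)) (l 16735912)) (b (l 16732576) (l 16735560)))) (a (c (b (l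 16734888) (l 16727384)) (b (l 16734576) (l 16727000))) (b (c (l 16726352) (l 16725968)) (c (l 16718752) (l 16718328)))))), by decide +kernel⟩

def k11_pm_011_t : ∃ t, chk3 f_pm_011_t t 17 63 1 = true :=
  ⟨(b (a (a (b (a (b (b (a (l 14) (c (c (l 16763576) (l 16768712)) (l 16764608))) (l 14)) (l 14)) (b (c (a (b (l 16765000) (l 16761544)) (b (l 16761152) (l 16757664))) (a (c (l 16757768) (l 16752352)) (b (l 16760792) (l 16757216)))) (c (a (b (l 16758104) (l 14)) (l 16752464)) (a (l 16750600) (l 16751872))))) (a (l 14) (a (l 14) (a (l 14) (b (l 16744168) (l 14)))))) (b (a (a (b (c (l 16755472) (l 16755024)) (c (l 16748456) (l 16747840))) (b (c (l 16751464) (l 16751000)) (c (l 16744392) (l 16743752)))) (a (b (c (l 16747400) (l 16746920)) (l 16739944)) (b (l 16746320) (l 16735776)))) (b (a (b (a (l 16742848) (l 16738728)) (a (l 16739632) (l 16736360))) (b (a (l 16734864) (l 16721072)) (l 16732336))) (a (c (l 16736904) (l 16737168)) (l 16732016))))) (a (b (b (a (c (l 16737008) (l 16736544)) (c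 (l 16728496) (l 16728064))) (a (b (l 16731224) (a (l 16719552) (l 16716224))) (b (a (l 16714688) (l 16700840)) (l 16722608)))) (b (a (l 16727392) (l 16722280)) (a (l 16726944) (l 16721808)))) (b (b (a (b (l 16721496) (c (l 16708392) (l 16718600))) (c (l 16713528) (l 16713488))) (a (l 16717584) (l 16712432))) (b (a (l 16717128) (l 16711952)) (l 16693064))))) (a (a (l 14) (b (b (c (l 16722504) (l 16714224)) (c (l 16710720) (l 16735440))) (b (l 16711944) (l 14)))) (b (a (b (l 16708136) (l 16702312)) (a (l 16694808) (l 16689576))) (a (b (l 16701648) (l 16722048)) (b (l 16691248) (l 16711656)))))), by decide +kernel⟩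

def k12_pm_011_t : ∃ t, chk3 f_pm_011_t t 18 60 1 = true :=
  ⟨(a (l 4) (b (l 4) (a (l 4) (b (l 4) (a (b (l 4) (a (l 4) (b (c (l 303566933207) (l 205319575031)) (c (l 49627008199) (l 105461535047))))) (c (c (b (c (l 240216166503) (l 241289910119)) (a (l 16774648) (l 16749768))) (b (l 241826779783) (l 16772656))) (c (b (l 243437390871) (l 16772672)) (b (l 243974260151) (l 16772688))))))))), by decide +kernel⟩

def k13_pm_011_t : ∃ t, chk3 f_pm_011_t t 36 61 1 = true :=
  ⟨(b (a (l 4) (b (l 4) (a (a (l 4) (b (l 4) (c (l 322894288439) (l 320209923607)))) (a (b (l 4) (c (b (l 303030068471) (c (l 16778304) (l 16776336))) (b (l 301956320999) (c (l 16776336) (l 16776328))))) (c (b (l 300882580151) (b (c (l 16775968) (l 16775960)) (l 16751408))) (b (l 299808841015) (c (l 16774120) (l 16774112)))))))) (a (b (a (l 4) (b (l 4) (b (a (l 4) (a (c (l 151095608007) (l 153243094343)) (c (l 16776584) (l 16776576)))) (a (a (c (l 274039045127) (l 174717931095)) (c (b (l 16778208) (l 16776152)) (l 38889589047)))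 (c (l 16773984) (l 16773960)))))) (a (a (b (b (l 4) (c (a (l 271354693255) (c (l 87207971351) (l 86671100407))) (c (l 261154120791) (l 267596590519)))) (c (b (a (l 16776072) (l 16763600)) (l 16760840)) (c (l 16773160) (l 16773152)))) (b (b (a (c (l 279944626231) (l 316451842391)) (c (c (l 66806876391) (l 16777032)) (b (l 166664866135) (l 16776496)))) (c (l 16774712) (l 16774696))) (c (l 16758568) (l 16758512)))) (c (b (a (a (l 16768256) (l 16760952)) (l 16757808)) (c (l 16752328) (l 16741784))) (b (c (l 60901261639) (l 16759824)) (c (l 16741728) (l 16741680)))))) (b (a (c (b (a (a (l 290145168983) (b (l 333631712647) (l 16776224))) (a (b (l 107072195303) (l 16774248)) (l 16773992))) (a (l 16761216) (l 16757040))) (b (a (c (l 250953585351) (l 254174813975)) (b (a (l 241289915495) (l 16775848)) (l 16773168))) (c (l 16759080) (l 16748576)))) (c (b (a (l 16760416) (l 16745760)) (l 16750784)) (b (b (l 16760168) (l 16745896)) (l 16750688)))) (a (c (b (c (l 16751560) (l 16741032)) (l 16743936)) (b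 (l 16752760) (l 16743792))) (c (b (l 16743208) (l 16746096)) (c (l 16739304) (l 16728752))))))), by decide +kernel⟩

def k14_pm_011_t : ∃ t, chk3 f_pm_011_t t 37 61 1 = true :=
  ⟨(b (a (b (b (a (l 4) (c (c (l 274039037191) (l 274575899431)) (c (l 274575895991) (l 274039021671)))) (a (a (l 4) (c (l 279407749559) (l 279407749143))) (b (a (c (l 240753043127) (a (l 197803380295) (l 16776584))) (c (l 16774336) (l 16774328))) (c (l 16762224) (l 16772696))))) (a (b (a (b (a (l 4) (c (l 253101076279) (l 130157644711))) (c (l 16775576) (l 16775568))) (c (l 16772032) (l 16762832))) (c (l 16757520) (l 16757472))) (b (c (l 16756704) (l 16756680)) (c (l 16749280) (l 16738752))))) (c (b (a (b (a (b (c (l 16778568) (l 16776488)) (l 16773904)) (l 16771632)) (l 16755888)) (c (l 16751440) (l 16740992))) (a (c (l 16744856) (l 16734376)) (b (l 16751032) (l 16743704)))) (b (a (b (a (b (l 71638715879) (l 16773896)) (l 16771640)) (l 16745408)) (c (l 16741032) (l 16741080))) (a (c (l 16734392) (l 16734408)) (l 16737056)))))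 (a (b (b (c (a (l 16750024) (l 16752304)) (a (l 16739464) (l 16752256))) (c (a (l 16752984) (l 16744808)) (c (l 16733096) (l 16727816)))) (c (a (b (l 16745432) (l 16737848)) (b (l 16737280) (l 16729712))) (a (b (l 16745328) (l 16737712)) (b (l 16737240) (l 16729648))))) (a (b (c (b (l 16744232) (l 16736776)) (l 16730080)) (c (l 16725496) (l 16725592))) (b (c (l 16732624) (l 16732880)) (c (l 16717680) (l 16718008)))))), by decide +kernel⟩

def k15_pm_011_t : ∃ t, chk3 f_pm_011_t t 19 60 1 = true :=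
  ⟨(a (b (a (l 4) (b (a (l 4) (a (l 4) (b (l 4) (c (l 260080386935) (l 209614484951))))) (c (a (b (l 285850197863) (a (l 226257524647) (l 16774744))) (a (b (a (l 94187295991) (l 16776488)) (l 16771016)) (l 64122485335))) (a (a (b (l 4) (l 229478749927)) (b (l 279944601735) (l 16774816))) (b (a (l 143042502967) (l 16773936)) (l 16769368)))))) (a (b (b (a (l 4) (a (b (l 4) (c (l 221425689575) (l 114051464311))) (c (b (l 68954361719) (l 16774144)) (l 82912954519)))) (c (a (a (l 273502159815) (b (l 115125260727) (l 16775072))) (l 16760440)) (a (c (l 221962548695) (l 225183762759)) (l 16760552)))) (c (a (b (a (l 16773784) (l 16748888)) (l 16743792)) (c (l 16739448) (l 16739592))) (a (b (l 69491198631) (l 16743928)) (c (l 16739744) (l 16739896))))) (c (b (a (a (l 16758064) (l 16743752)) (l 16745952)) (a (l 16742424) (l 16724520))) (b (a (a (l 16747784) (l 16744088)) (l 16749128)) (a (l 16732560) (l 16725496)))))) (b (a (a (c (b (c (b (l 254174803655) (a (l 16776328) (l 16772808))) (b (l 254174801959)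 (l 16774568))) (c (l 16743848) (l 16744064))) (b (b (a (l 4) (l 187065912135)) (a (l 86671049383) (l 16773032))) (l 16752272))) (c (b (b (l 81839224231) (l 16746352)) (l 16736640)) (b (b (l 74323027239) (l 16746800)) (l 16737456)))) (c (b (a (l 16742320) (l 16735304)) (c (l 16725712) (l 16726416))) (b (c (l 16739464) (l 16739936)) (c (l 16727152) (l 16727912))))) (a (b (c (c (l 16726800) (l 16727320)) (c (l 16727864) (l 16728424))) (c (a (l 16738224) (l 16731136)) (c (l 16714888) (l 16736688)))) (c (b (a (l 16737464) (l 16730688)) (l 16699944)) (b (l 16715064) (l 16702488)))))), by decide +kernel⟩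

def k16_pm_011_t : ∃ t, chk3 f_pm_011_t t 19 61 1 = true :=
  ⟨(a (b (a (b (c (a (c (l 16733024) (l 16754112)) (l 16735904)) (a (l 16743824) (l 16725960))) (c (a (l 16718632) (l 16732072)) (c (l 16715256) (l 16715560)))) (c (a (b (l 16738968) (l 16724792)) (b (l 16731720) (l 16717688))) (b (c (l 16715184) (l 16715784)) (a (l 16726032) (l 16719448))))) (a (b (c (a (l 16724952) (l 16717520)) (a (l 16725504) (l 16718488))) (c (a (l 16710080) (l 16702720)) (a (l 16710744) (l 16703840)))) (c (b (a (l 16710352) (l 16703368)) (l 16692152)) (b (a (l 16711856) (l 16705456)) (l 16694160))))) (b (a (c (b (a (l 16724600) (l 16717648)) (l 16707280)) (b (a (l 16726448) (l 16719984)) (l 16688880))) (c (b (l 16707584) (l 16694024)) (b (l 16710728) (l 16697768)))) (a (c (b (l 16693160) (l 16678688)) (b (l 16696168) (l 16682040))) (b (c (l 16680136) (l 16684432)) (c (l 16665784) (l 16670584)))))), by decide +kernel⟩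

def k17_pm_011_t : ∃ t, chk3 f_pm_011_t t 18 62 1 = true :=
  ⟨(a (b (a (b (b (a (c (c (l 16754384) (l 16753024)) (c (l 16752976) (l 16742448))) (c (a (l 16757264) (l 16753080)) (l 16744504))) (c (a (a (l 16758016) (l 16753832)) (l 16747544)) (a (a (l 16757888) (l 16753640)) (l 16747272)))) (c (a (b (l 16737824) (l 16740688)) (b (l 16739912) (l 16732264))) (a (b (l 16737592) (l 16740376)) (c (l 16725288) (l 16714592))))) (b (b (c (a (l 16746808) (l 16738480)) (a (l 16746576) (l 16738248))) (c (a (l 16739176) (l 16730840)) (a (l 16738848) (l 16730504)))) (c (a (b (l 16731520) (l 16723848)) (l 16724576)) (a (b (l 16731080) (l 16723288)) (l 16724056))))) (a (a (b (c (b (l 16733064) (l 16725424)) (b (l 16732672) (l 16724968))) (b (l 16717520) (b (l 16711720) (c (l 16709128) (l 16708736))))) (b (b (a (l 16726448) (l 16722184)) (l 16716592)) (b (l 16711472) (c (l 16693424) (l 16682656))))) (b (b (a (l 16715816) (l 16707400)) (a (l 16708040) (l 16699568))) (b (a (b (l 16702176) (l 16694120)) (c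 (l 16673688) (l 16673288))) (c (l 16695472) (l 16696016)))))) (b (a (a (b (c (l 16730352) (b (l 16730032) (l 16722296))) (c (l 16711064) (l 16710584))) (b (c (l 16718296) (l 16718136)) (c (l 16702920) (l 16702544)))) (b (c (a (l 16710320) (l 16702536)) (a (l 16710328) (l 16702800))) (a (c (l 16694944) (l 16694744)) (c (l 16687112) (l 16687208))))) (b (a (b (a (l 16699104) (l 16690960)) (a (b (l 16693192) (l 16679896)) (b (l 16665216) (l 16685112)))) (b (a (c (l 16662928) (l 16662704)) (l 16672936)) (l 16678944))) (a (c (l 16665024) (l 16687280)) (c (l 16676528) (l 16679552)))))), by decide +kernel⟩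

def k18_pm_011_t : ∃ t, chk3 f_pm_011_t t 18 63 1 = true :=
  ⟨(b (a (a (a (b (a (l 16708816) (l 16706248)) (l 16685536)) (b (l 16691936) (l 16680376))) (b (c (l 16693664) (l 16696272)) (c (l 16691120) (l 16696568)))) (b (a (c (l 16683496) (l 16687496)) (l 16655776)) (a (l 16663248) (l 16654448)))) (a (b (a (l 16681728) (l 16671512)) (a (a (l 16683032) (l 16677784)) (l 16670096))) (b (c (l 16652112) (l 16683656)) (b (l 16635200) (l 16676800))))), by decide +kernel⟩

def k19_pm_011_t : ∃ t, chk3 f_pm_011_t t 19 31 1 = true :=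
  ⟨(b (b (a (b (a (c (l 16691288) (l 16692160)) (a (l 16681488) (l 16680184))) (a (b (a (l 16683720) (l 16676664)) (a (b (l 16677864) (l 16675104)) (l 16650688))) (b (a (l 16670736) (l 16645320)) (l 16666432)))) (b (a (b (l 16669344) (a (l 16665640) (l 16661464))) (b (a (l 16661024) (l 16657144)) (l 16657048))) (a (l 16661088) (l 16655664)))) (a (a (b (a (l 16652544) (l 16670032)) (l 16649400)) (b (l 16644312) (l 16663808))) (a (c (l 16654184) (l 16663312)) (c (l 16647320) (l 16659088))))) (b (a (a (b (l 16648048) (l 16646624)) (b (l 16641384) (l 16660848))) (b (l 16611496) (l 16609848))) (a (b (l 16623224) (l 16619000)) (b (l 16608208) (l 16627464))))), by decide +kernel⟩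

def k20_pm_011_t : ∃ t, chk3 f_pm_011_t t 10 28 1 = true :=
  ⟨(a (l 4) (b (l 4) (a (b (l 4) (a (l 4) (b (l 4) (c (a (l 243437372071) (l 86671033559)) (c (c (l 109756434311) (l 110830175815)) (a (l 245584852327) (l 16755824))))))) (b (b (a (l 4) (a (l 4) (c (l 173107256935) (c (l 116198911767) (l 16734312))))) (a (a (l 4) (c (l 246121723063) (l 248269203783))) (c (c (l 81302321143) (l 16754408)) (c (l 82376061735) (l 16743752))))) (c (a (b (a (l 111903943847) (l 16774760)) (l 16768960)) (b (l 16767304) (l 16759192))) (a (c (c (l 79691678935) (l 82376033159)) (b (l 105998359063) (l 16770048))) (c (l 16764336) (l 16765080)))))))), by decide +kernel⟩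

def k21_pm_011_t : ∃ t, chk3 f_pm_011_t t 20 29 1 = true :=
  ⟨(b (a (l 4) (b (a (l 4) (b (l 4) (a (l 4) (b (l 4) (c (l 112440834151) (l 115125186967)))))) (b (a (a (l 4) (a (l 4) (c (l 258469758343) (l 259006626231)))) (c (c (a (l 92039725047) (l 16771696)) (l 82912914951)) (c (c (l 82376045303) (l 16733048)) (l 87744753303)))) (a (a (b (c (l 272428400727) (l 271891526503)) (c (l 148411210295) (l 107609002711))) (c (l 78081109591) (b (l 94187241399) (l 16771824)))) (c (l 16764760) (l 16760664)))))) (b (b (a (a (l 4) (a (b (l 4) (a (l 4) (c (l 16753152) (l 16752808)))) (c (b (l 165591073255) (l 16773320)) (c (l 85597280823) (l 89892248343))))) (a (c (a (l 16769624) (l 16742416)) (a (l 16770264) (l 16743600))) (c (l 16733456) (l 16735496)))) (a (a (a (a (l 4) (c (l 270817786023) (l 270280931799))) (c (b (l 252027316743) (l 82376082727)) (c (c (l 93113449959) (l 94724062183)) (l 96871544887)))) (c (a (l 35668320535) (l 16765056)) (c (l 16768776) (l 16769136)))) (a (c (l 16734664) (l 16736432))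 (c (l 16722872) (l 16725776))))) (c (a (a (a (b (b (a (l 102777169111) (l 16774808)) (l 16770696)) (l 16740728)) (b (l 16766808) (l 16734008))) (b (l 16741208) (l 16724320))) (a (b (l 16723552) (l 16733136)) (c (l 16705496) (l 16707496)))) (a (a (a (b (c (l 77544228919) (l 16742368)) (l 16741688)) (b (l 16767520) (l 16735456))) (b (c (l 16737072) (l 16737840)) (l 16726568))) (a (b (l 16726152) (l 16715552)) (c (l 16709584) (l 16711736))))))), by decide +kernel⟩

def k22_pm_011_t : ∃ t, chk3 f_pm_011_t t 21 29 1 = true :=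
  ⟨(b (a (a (b (b (a (l 4) (c (c (l 108145849271) (l 109756461815)) (c (l 111367073527) (l 112440814807)))) (c (c (l 77544228631) (l 16751832)) (c (l 77007358119) (l 16741896)))) (b (c (l 16763160) (l 16764528)) (c (l 16732368) (l 16755608)))) (b (c (b (l 71638668951) (l 16761688)) (c (l 51774440487) (l 16746720))) (c (c (l 16725952) (l 16727360)) (c (l 16749784) (l 16751296))))) (b (c (a (l 16755976) (l 16746616)) (a (c (l 16757592) (l 16758712)) (l 16749712))) (c (a (l 16737880) (l 16729056)) (a (l 16741800) (l 16733856))))) (a (b (a (c (c (l 16716304) (l 16718040)) (c (l 16719848) (l 16721712))) (c (l 16707040) (l 16732696))) (c (a (l 16695984) (l 16686392)) (a (l 16701296) (l 16692808)))) (b (c (a (l 16697840) (l 16689552)) (a (l 16724480) (l 16717056))) (c (b (l 16678808) (l 16668616)) (a (l 16685136) (l 16699240)))))), by decide +kernel⟩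

def k23_pm_011_t : ∃ t, chk3 f_pm_011_t t 11 28 1 = true :=
  ⟨(a (b (a (b (a (l 4) (l 4)) (b (a (l 4) (c (c (l 101703398855) (l 103314010583)) (c (l 105461492887) (l 107608975175)))) (c (a (a (l 245047979719) (l 94187225911)) (l 16771528)) (a (c (l 112440792695) (l 113514532919)) (c (l 16771432) (l 16771064)))))) (c (b (a (b (l 223573144039) (c (l 95260968439) (l 16754896))) (b (l 16752896) (l 16767368))) (a (l 16756040) (l 16757408))) (b (a (c (c (l 105998327703) (l 105461455751)) (b (l 230552461703) (l 16733624))) (c (l 16748976) (l 16748560))) (a (c (l 16765568) (l 16764896)) (l 16755192))))) (a (b (c (a (b (l 74859888151) (l 16765824)) (l 16760968)) (a (c (l 72175527463) (l 16748832)) (c (l 16761344) (l 16760376)))) (c (a (l 16754288) (l 16746232)) (c (l 16741616) (l 16751432)))) (c (b (a (l 16753312) (l 16744152)) (a (l 16739120) (l 16731144))) (b (a (l 16751008) (l 16740656)) (a (l 16737136) (l 16726464)))))) (b (a (c (b (a (l 16761384) (l 16751568)) (a (l 16747832) (l 16737856)))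 (b (a (l 16759672) (l 16749008)) (a (l 16744744) (l 16712984)))) (c (b (l 16736072) (l 16722056)) (b (l 16732392) (l 16696176)))) (a (c (b (l 16729144) (l 16715488)) (b (a (l 16729984) (l 16698000)) (l 16709864))) (c (b (l 16707808) (l 16693392)) (b (l 16680928) (l 16665736)))))), by decide +kernel⟩

def k24_pm_011_t : ∃ t, chk3 f_pm_011_t t 11 29 1 = true :=
  ⟨(a (c (b (a (b (a (l 16738176) (l 16730664)) (a (l 16721160) (l 16714200))) (b (l 16721104) (l 16705464))) (a (b (l 16699872) (l 16681128)) (b (l 16688872) (l 16671240)))) (b (a (b (a (l 16742040) (l 16734232)) (a (l 16726672) (l 16720216))) (b (l 16715616) (l 16705080))) (a (b (l 16707352) (l 16690360)) (b (l 16692464) (l 16680456))))) (b (a (c (b (l 16702040) (l 16689024)) (b (l 16695504) (l 16681552))) (c (l 16672064) (b (l 16650760) (l 16636040)))) (a (b (c (l 16676504) (l 16668064)) (l 16638992)) (b (l 16647176) (l 16633672))))), by decide +kernel⟩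

def k25_pm_011_t : ∃ t, chk3 f_pm_011_t t 10 30 1 = true :=
  ⟨(a (b (a (a (b (b (c (c (l 16724720) (l 16746592)) (l 16732280)) (c (l 16712680) (l 16715160))) (b (c (l 16720920) (l 16723984)) (c (l 16708016) (l 16711712)))) (b (c (b (l 16712392) (l 16721136)) (c (l 16708704) (l 16710400))) (c (b (l 16708640) (l 16695976)) (b (l 16712904) (l 16700944))))) (b (c (a (c (l 16693432) (l 16695592)) (b (l 16710448) (l 16698728))) (a (c (l 16697824) (l 16700144)) (b (l 16715792) (l 16704816)))) (c (a (b (l 16697248) (l 16684824)) (l 16659712)) (a (l 16676000) (l 16666952))))) (b (a (c (a (b (l 16694912) (l 16681568)) (b (l 16683112) (l 16670000))) (a (b (l 16699288) (l 16686616)) (l 16661712))) (a (b (l 16654728) (l 16663240)) (b (l 16666392) (l 16633192)))) (a (b (a (c (l 16667920) (l 16673624)) (c (l 16656488) (l 16663760))) (a (b (l 16660536) (c (l 16652088) (l 16658792))) (b (l 16630936) (l 16649632)))) (b (a (c (l 16647144) (l 16656168)) (l 16624632)) (l 16612736))))) (b (a (b (c (a (l 16673640)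 (l 16664576)) (a (l 16680552) (l 16672648))) (c (a (l 16671224) (l 16662688)) (c (l 16652712) (l 16657464)))) (b (c (c (l 16650464) (l 16655088)) (a (l 16665568) (l 16659280))) (c (a (l 16655088) (l 16648312)) (c (l 16639088) (l 16645072))))) (b (b (a (a (l 16657992) (l 16629504)) (a (l 16623848) (l 16620104))) (a (a (l 16626152) (l 16621312)) (l 16617264))) (a (a (l 16619336) (l 16616376)) (l 16591664))))), by decide +kernel⟩

def k26_pm_011_t : ∃ t, chk3 f_pm_011_t t 10 31 1 = true :=
  ⟨(a (b (b (a (a (c (l 16646936) (l 16656432)) (l 16615512)) (c (l 16612128) (l 16648656))) (a (a (l 16605960) (l 16601144)) (c (l 16605608) (l 16646928)))) (b (a (c (l 16631656) (l 16652488)) (l 16590720)) (a (a (l 16598912) (l 16593720)) (l 16565672)))) (b (a (b (l 16586536) (l 16587256)) (b (l 16586224) (l 16602320))) (b (c (l 16585416) (l 16599144)) (a (l 16582752) (l 16577352))))), by decide +kernel⟩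

def k27_pm_011_t : ∃ t, chk3 f_pm_011_t t 11 15 1 = true :=
  ⟨(b (b (a (a (b (c (l 16640264) (l 16672256)) (c (b (l 16624944) (l 16615824)) (l 16623272))) (b (b (l 16641760) (l 16612000)) (b (l 16603776) (l 16640368)))) (b (a (c (l 16646944) (l 16641808)) (l 16619032)) (a (l 16630224) (l 16599912)))) (a (a (b (l 16594560) (l 16608864)) (c (l 16621168) (l 16618656))) (a (b (l 16608824) (l 16585656)) (l 16567168)))) (b (a (a (c (l 16607976) (l 16596200)) (c (l 16593248) (l 16565552))) (c (l 16521896) (a (l 16493008) (l 16505104)))) (b (a (a (l 16572912) (l 16543272)) (c (l 16515696) (l 16459080))) (a (c (l 16553536) (l 16452584)) (l 16454880))))), by decide +kernel⟩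

def k28_pm_011_t : ∃ t, chk3 f_pm_011_t t 6 12 1 = true :=
  ⟨(a (b (l 4) (a (l 4) (b (l 4) (a (l 4) (b (l 4) (c (a (l 114588264151) (l 16753280)) (a (l 119420093943) (l 16753016)))))))) (b (l 1) (a (a (a (b (l 1) (b (l 1) (l 16761080))) (l 1)) (l 1)) (l 1)))), by decide +kernel⟩

def k29_pm_011_t : ∃ t, chk3 f_pm_011_t t 6 13 1 = true :=
  ⟨(a (b (a (b (l 4) (a (b (l 4) (a (l 4) (c (l 107608953287) (c (l 110830176135) (l 16719672))))) (b (c (a (l 216593812919) (l 96871570871)) (a (l 119420088951) (l 101166534695))) (c (a (l 16751160) (l 16761392)) (a (l 16750808) (l 16760464)))))) (b (a (b (a (l 4) (c (l 108682698151) (l 112440787959))) (c (a (l 102777133591) (l 16769808)) (a (l 106535224983) (l 16769416)))) (c (b (l 72712388967) (l 16752456)) (b (l 85597278487) (l 16751264)))) (a (c (b (l 16759936) (l 16744168)) (b (l 16759008) (l 16721416))) (c (l 16728672) (l 16726344))))) (a (b (a (c (b (a (l 84523523431) (l 16768024)) (l 16758296)) (b (a (c (l 16730704) (l 16730496)) (l 16767392)) (a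 (l 16762712) (l 16730160)))) (c (b (l 16751440) (l 16715088)) (b (l 16749856) (l 16712512)))) (a (c (b (l 16743288) (l 16707624)) (b (l 16740808) (l 16703976))) (c (b (l 16699960) (l 16685072)) (a (l 16694256) (l 16682400))))) (b (a (c (a (l 16705592) (l 16694032)) (a (l 16702728) (l 16690736))) (c (l 16655592) (l 16672736))) (a (c (l 16648392) (l 16643520)) (c (l 16645936) (l 16640584)))))) (b (a (b (a (c (l 16736608) (l 16734832)) (c (l 16691600) (l 16688952))) (a (c (l 16684184) (l 16681096)) (c (l 16660496) (l 16656760)))) (b (l 1) (a (l 240014514151) (l 1)))) (a (b (a (c (l 16653176) (l 16648840)) (c (l 16650632) (l 16645880))) (a (c (l 16643432) (l 16637840)) (c (l 16619880) (l 16614152)))) (a (b (c (l 16626936) (l 16621752)) (l 16572200)) (b (l 16579384) (l 16569384)))))), by decide +kernel⟩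

def k30_pm_011_t : ∃ t, chk3 f_pm_011_t t 7 6 1 = true :=
  ⟨(b (l 1) (a (b (l 1) (a (b (l 1) (a (l 16545776) (l 1))) (l 1))) (l 1))), by decide +kernel⟩

def k31_pm_011_t : ∃ t, chk3 f_pm_011_t t 3 7 1 = true :=
  ⟨(a (b (a (b (a (b (c (a (b (l 16693256) (l 16678864)) (b (l 16691408) (l 16676648))) (a (b (l 16688400) (l 16672904)) (b (l 16685688) (l 16669968)))) (a (c (l 16677600) (c (l 16651296) (l 16647616))) (c (l 16611736) (l 16604088)))) (b (a (c (l 16639416) (l 16611760)) (b (l 16620016) (l 16625264))) (a (c (l 16608248) (l 16621416)) (b (l 16609064) (l 16592464))))) (a (b (a (b (l 16609256) (l 16594088)) (c (l 16601368) (l 16592960))) (a (b (l 16600192) (l 16606224)) (b (l 16573472) (l 16557904)))) (b (a (b (l 16600848) (l 16584336)) (b (l 16575560) (l 16558200))) (b (a (l 16567792) (l 16542360)) (l 16475160))))) (b (a (b (a (c (l 16612696) (l 16605888)) (b (l 16593536) (l 16577512))) (a (b (l 16584912) (l 16567976)) (l 16552264))) (b (a (l 16540624) (l 16537744)) (a (l 16527992)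 (l 16503448)))) (a (b (a (b (l 16550648) (l 16533368)) (b (l 16525640) (l 16510032))) (a (l 16509304) (l 16486064))) (b (a (b (l 16501904) (l 16486712)) (l 16472824)) (a (l 16463520) (l 6)))))) (a (b (b (a (a (l 16580104) (l 16488744)) (b (l 16457744) (l 16438920))) (a (a (l 16537880) (l 16446752)) (c (l 16415880) (l 16418416)))) (b (a (c (l 16406208) (l 16399288)) (l 6)) (a (b (c (l 16437056) (l 16423184)) (l 6)) (l 6)))) (b (a (b (a (l 16474616) (l 16451640)) (l 6)) (l 6)) (l 6)))) (b (a (b (a (b (a (l 16514136) (l 16490936)) (a (b (l 16488888) (l 16472032)) (b (l 16465320) (l 16451072)))) (b (l 1) (l 6))) (a (b (a (l 16450728) (l 6)) (l 6)) (l 6))) (l 6)) (l 6))), by decide +kernel⟩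

theorem s32_pm_011_t : ∃ t, chk3 f_pm_011_t t 6 6 1 = true := ex3_b k28_pm_011_t k29_pm_011_t

theorem s33_pm_011_t : ∃ t, chk3 f_pm_011_t t 3 6 1 = true := ex3_a s32_pm_011_t k30_pm_011_t

theorem s34_pm_011_t : ∃ t, chk3 f_pm_011_t t 3 3 1 = true := ex3_b s33_pm_011_t k31_pm_011_t

theorem s35_pm_011_t : ∃ t, chk3 f_pm_011_t t 10 15 1 = true := ex3_b k25_pm_011_t k26_pm_011_t

theorem s36_pm_011_t : ∃ t, chk3 f_pm_011_t t 5 15 1 = true := ex3_a s35_pm_011_t k27_pm_011_t

theorem s37_pm_011_t : ∃ t, chk3 f_pm_011_t t 11 14 1 = true := ex3_b k23_pm_011_t k24_pm_011_t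

theorem s38_pm_011_t : ∃ t, chk3 f_pm_011_t t 10 29 1 = true := ex3_a k21_pm_011_t k22_pm_011_t

theorem s39_pm_011_t : ∃ t, chk3 f_pm_011_t t 10 14 1 = true := ex3_b k20_pm_011_t s38_pm_011_t

theorem s40_pm_011_t : ∃ t, chk3 f_pm_011_t t 5 14 1 = true := ex3_a s39_pm_011_t s37_pm_011_t

theorem s41_pm_011_t : ∃ t, chk3 f_pm_011_t t 5 7 1 = true := ex3_b s40_pm_011_t s36_pm_011_t

theorem s42_pm_011_t : ∃ t, chk3 f_pm_011_t t 18 31 1 = true := ex3_b k17_pm_011_t k18_pm_011_t

theorem s43_pm_011_t : ∃ t, chk3 f_pm_011_t t 9 31 1 = true := ex3_a s42_pm_011_t k19_pm_011_t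

theorem s44_pm_011_t : ∃ t, chk3 f_pm_011_t t 19 30 1 = true := ex3_b k15_pm_011_t k16_pm_011_t

theorem s45_pm_011_t : ∃ t, chk3 f_pm_011_t t 18 61 1 = true := ex3_a k13_pm_011_t k14_pm_011_t

theorem s46_pm_011_t : ∃ t, chk3 f_pm_011_t t 18 30 1 = true := ex3_b k12_pm_011_t s45_pm_011_t

theorem s47_pm_011_t : ∃ t, chk3 f_pm_011_t t 9 30 1 = true := ex3_a s46_pm_011_t s44_pm_011_t

theorem s48_pm_011_t : ∃ t, chk3 f_pm_011_t t 9 15 1 = true := ex3_b s47_pm_011_t s43_pm_011_t

theorem s49_pm_011_t : ∃ t, chk3 f_pm_011_t t 35 124 1 = true := ex3_a k8_pm_011_t k9_pm_011_t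

theorem s50_pm_011_t : ∃ t, chk3 f_pm_011_t t 35 62 1 = true := ex3_b s49_pm_011_t k10_pm_011_t

theorem s51_pm_011_t : ∃ t, chk3 f_pm_011_t t 34 125 1 = true := ex3_a k6_pm_011_t k7_pm_011_t

theorem s52_pm_011_t : ∃ t, chk3 f_pm_011_t t 34 62 1 = true := ex3_b k5_pm_011_t s51_pm_011_t

theorem s53_pm_011_t : ∃ t, chk3 f_pm_011_t t 17 62 1 = true := ex3_a s52_pm_011_t s50_pm_011_t

theorem s54_pm_011_t : ∃ t, chk3 f_pm_011_t t 17 31 1 = true := ex3_b s53_pm_011_t k11_pm_011_t

theorem s55_pm_011_t : ∃ t, chk3 f_pm_011_t t 8 31 1 = true := ex3_a k4_pm_011_t s54_pm_011_t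

theorem s56_pm_011_t : ∃ t, chk3 f_pm_011_t t 8 15 1 = true := ex3_b k3_pm_011_t s55_pm_011_t

theorem s57_pm_011_t : ∃ t, chk3 f_pm_011_t t 4 15 1 = true := ex3_a s56_pm_011_t s48_pm_011_t

theorem s58_pm_011_t : ∃ t, chk3 f_pm_011_t t 4 7 1 = true := ex3_b k2_pm_011_t s57_pm_011_t

theorem s59_pm_011_t : ∃ t, chk3 f_pm_011_t t 2 7 1 = true := ex3_a s58_pm_011_t s41_pm_011_t

theorem s60_pm_011_t : ∃ t, chk3 f_pm_011_t t 2 3 1 = true := ex3_b k1_pm_011_t s59_pm_011_t

theorem s61_pm_011_t : ∃ t, chk3 f_pm_011_t t 1 3 1 = true := ex3_a s60_pm_011_t s34_pm_011_t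

theorem s62_pm_011_t : ∃ t, chk3 f_pm_011_t t 1 1 1 = true := ex3_b k0_pm_011_t s61_pm_011_t

theorem c_pm_011_t : CertNE 0 536870912 536870912 536870912 966367641 24778659 3 eng mog cd0q0 cd0q1 pd1 false true false .pnn 0 1 1
    ndB0q0 ndB0q1 pcB1 cut_pm_011_t Ext.none :=
  certNE0 (fam := false) (s1 := true) (s2 := false) (a := 0) (b := 1) (c := 1) (cn := .pnn) (n1 := ndB0q0) (n2 := ndB0q1) (pc := pcB1) (cut := cut_pm_011_t) (xt := Ext.none) (P1 := 0) (W1 := 536870912) (P2 := 536870912) (W2 := 536870912) (P3 := 966367641) (W3 := 24778659) (N0 := 3) (En := eng) (mo := mog) (C1 := cd0q0) (C2 := cd0q1) (C3 := pd1)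
    rfl s62_pm_011_t

noncomputable def cut_pm_012_s : Cut := Cut.of [[⟨4, 0, 0, 1449551462⟩], [⟨0, 0, 0, 67108864⟩, ⟨1, 1, 0, 67108864⟩, ⟨2, 1, 0, 67108864⟩]]

noncomputable def f_pm_012_s : ℕ → ℕ → ℕ → ℕ → Bool := onCell 0 536870912 0 536870912 966367641 24778659
    (rowNE 3 eng mog cd0q0 cd0q2 pd1 0 false true false .pnp 0 1 2 (qsf 0 536870912 0 536870912 1) ndB0q0 ndB0q2 pcB1 cut_pm_012_s Ext.none)

def k0_pm_012_s : ∃ t, chk3 f_pm_012_s t 1 1 1 = true :=
  ⟨(a (l 6) (b (a (a (l 6) (b (b (a (l 6) (l 16471944)) (l 6)) (l 6))) (b (b (a (a (l 16466688) (a (l 16524288) (l 16536472))) (a (a (l 16550024) (l 16564880)) (a (l 16581048) (l 16598528)))) (a (l 6) (a (l 16422200) (a (l 16502304) (l 16515328))))) (l 6))) (l 6))), by decide +kernel⟩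

theorem c_pm_012_s : CertNE 0 536870912 0 536870912 966367641 24778659 3 eng mog cd0q0 cd0q2 pd1 false true false .pnp 0 1 2
    ndB0q0 ndB0q2 pcB1 cut_pm_012_s Ext.none :=
  certNE0 (fam := false) (s1 := true) (s2 := false) (a := 0) (b := 1) (c := 2) (cn := .pnp) (n1 := ndB0q0) (n2 := ndB0q2) (pc := pcB1) (cut := cut_pm_012_s) (xt := Ext.none) (P1 := 0) (W1 := 536870912) (P2 := 0) (W2 := 536870912) (P3 := 966367641) (W3 := 24778659) (N0 := 3) (En := eng) (mo := mog) (C1 := cd0q0) (C2 := cd0q2) (C3 := pd1)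
    rfl k0_pm_012_s

noncomputable def cut_pm_012_t : Cut := Cut.of [[⟨3, 0, 0, 2845415833⟩], [⟨0, 0, 0, 67108864⟩, ⟨1, 1, 0, 67108864⟩, ⟨2, 1, 0, 67108864⟩]]

noncomputable def f_pm_012_t : ℕ → ℕ → ℕ → ℕ → Bool := onCell 0 536870912 0 536870912 966367641 24778659
    (rowNE 3 eng mog cd0q0 cd0q2 pd1 0 false true false .pnp 0 1 2 (qsf 0 536870912 0 536870912 1) ndB0q0 ndB0q2 pcB1 cut_pm_012_t Ext.none)

def k0_pm_012_t : ∃ t, chk3 f_pm_012_t t 1 2 1 = true :=
  ⟨(l 6), by decide +kernel⟩

def k1_pm_012_t : ∃ t, chk3 f_pm_012_t t 4 6 1 = true :=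
  ⟨(a (l 2) (b (l 6) (a (b (l 6) (l 6)) (l 6)))), by decide +kernel⟩

def k2_pm_012_t : ∃ t, chk3 f_pm_012_t t 4 7 1 = true :=
  ⟨(b (a (a (l 2) (b (a (l 2) (b (l 2) (a (l 2) (b (a (l 2) (c (l 16386376) (l 16378544))) (a (l 14) (c (l 16403728) (l 16396320))))))) (a (l 14) (a (l 14) (a (l 14) (b (c (l 16410816) (l 16404008)) (b (l 16459408) (l 16481976)))))))) (a (b (a (b (a (b (a (l 2) (c (l 16350440) (l 16342544))) (a (c (l 16367664) (l 16359856)) (l 16361544))) (c (b (l 16347144) (l 16361720)) (l 16347456))) (a (c (b (l 16382440) (l 16399544)) (b (l 16375296) (l 16392832))) (c (l 16385768) (l 16379760)))) (b (a (c (l 16350208) (l 16344408)) (l 6)) (c (a (l 16380960) (l 16376728)) (l 16353656)))) (a (b (a (c (b (l 16417728) (l 16436944)) (l 16400144)) (c (l 16400360) (l 16395200))) (a (c (l 16447192) (l 16442536)) (a (l 16440200) (l 16437232)))) (b (c (a (l 16415848) (l 16410952)) (l 16389104)) (a (l 16433064) (l 16428184))))) (b (a (a (b (l 6) (l 16351512)) (l 6)) (l 6)) (a (b (c (l 16384128)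 (l 16384776)) (b (l 16412584) (l 16433096))) (b (l 16402192) (l 16439136)))))) (a (a (l 14) (a (l 14) (a (l 14) (a (l 14) (a (l 14) (b (b (l 16517744) (l 16569936)) (b (l 16624648) (l 16638384)))))))) (a (b (a (b (a (c (l 16514176) (l 16512296)) (c (l 16506704) (l 16505776))) (a (b (l 16551544) (l 16578072)) (l 16556936))) (b (a (l 16499752) (l 16494040)) (a (l 16549568) (l 16542968)))) (b (a (b (l 16579856) (l 16607064)) (l 16535032)) (a (b (l 16634408) (l 16640656)) (c (l 16603432) (l 16635168))))) (b (a (b (c (l 16485024) (l 16489920)) (l 16514016)) (b (l 16481168) (l 16526984))) (b (a (l 16542952) (l 16554064)) (a (l 16572824) (l 16603016))))))), by decide +kernel⟩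

def k3_pm_012_t : ∃ t, chk3 f_pm_012_t t 5 3 1 = true :=
  ⟨(b (l 6) (b (a (a (b (l 6) (b (l 6) (a (l 16436024) (l 6)))) (l 6)) (l 6)) (a (b (a (a (b (l 16476448) (l 16520496)) (b (l 16473232) (l 16515520))) (b (l 16429400) (l 16448080))) (a (b (l 16479288) (b (l 16576696) (l 16557760))) (a (l 16450744) (l 16487888)))) (b (l 6) (a (b (l 16527008) (l 16414848)) (b (l 6) (l 16483592))))))), by decide +kernel⟩

def k4_pm_012_t : ∃ t, chk3 f_pm_012_t t 3 3 1 = true :=
  ⟨(b (l 6) (l 6)), by decide +kernel⟩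

theorem s5_pm_012_t : ∃ t, chk3 f_pm_012_t t 4 3 1 = true := ex3_b k1_pm_012_t k2_pm_012_t

theorem s6_pm_012_t : ∃ t, chk3 f_pm_012_t t 2 3 1 = true := ex3_a s5_pm_012_t k3_pm_012_t

theorem s7_pm_012_t : ∃ t, chk3 f_pm_012_t t 1 3 1 = true := ex3_a s6_pm_012_t k4_pm_012_t

theorem s8_pm_012_t : ∃ t, chk3 f_pm_012_t t 1 1 1 = true := ex3_b k0_pm_012_t s7_pm_012_t

theorem c_pm_012_t : CertNE 0 536870912 0 536870912 966367641 24778659 3 eng mog cd0q0 cd0q2 pd1 false true false .pnp 0 1 2
    ndB0q0 ndB0q2 pcB1 cut_pm_012_t Ext.none :=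
  certNE0 (fam := false) (s1 := true) (s2 := false) (a := 0) (b := 1) (c := 2) (cn := .pnp) (n1 := ndB0q0) (n2 := ndB0q2) (pc := pcB1) (cut := cut_pm_012_t) (xt := Ext.none) (P1 := 0) (W1 := 536870912) (P2 := 0) (W2 := 536870912) (P3 := 966367641) (W3 := 24778659) (N0 := 3) (En := eng) (mo := mog) (C1 := cd0q0) (C2 := cd0q2) (C3 := pd1)
    rfl s8_pm_012_t

noncomputable def cut_pm_022_s : Cut := Cut.of [[⟨4, 0, 0, 1449551462⟩], [⟨0, 0, 0, 67108864⟩, ⟨1, 1, 0, 67108864⟩, ⟨2, 1, 0, 67108864⟩]]

noncomputable def f_pm_022_s : ℕ → ℕ → ℕ → ℕ → Bool := onCell 1073741824 536870912 0 536870912 966367641 24778659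
    (rowNE 3 eng mog cd0q0 cd0q2 pd2 2 false true false .pp 0 2 2 (qsf 0 536870912 0 536870912 2) ndB0q0 ndB0q2 pcB2 cut_pm_022_s Ext.none)

def k0_pm_022_s : ∃ t, chk3 f_pm_022_s t 1 1 1 = true :=
  ⟨(l 6), by decide +kernel⟩

theorem c_pm_022_s : CertNE 0 536870912 0 536870912 966367641 24778659 3 eng mog cd0q0 cd0q2 pd2 false true false .pp 0 2 2
    ndB0q0 ndB0q2 pcB2 cut_pm_022_s Ext.none :=
  certNE2 (fam := false) (s1 := true) (s2 := false) (a := 0) (b := 2) (c := 2) (cn := .pp) (n1 := ndB0q0) (n2 := ndB0q2) (pc := pcB2) (cut := cut_pm_022_s) (xt := Ext.none) (P1 := 0) (W1 := 536870912) (P2 := 0) (W2 := 536870912) (P3 := 966367641) (W3 := 24778659) (N0 := 3) (En := eng) (mo := mog) (C1 := cd0q0) (C2 := cd0q2) (C3 := pd2)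
    rfl (fun _ => rfl) k0_pm_022_s

noncomputable def cut_pm_022_t : Cut := Cut.of [[⟨3, 0, 0, 2845415833⟩], [⟨0, 0, 0, 67108864⟩, ⟨1, 1, 0, 67108864⟩, ⟨2, 1, 0, 67108864⟩]]

noncomputable def f_pm_022_t : ℕ → ℕ → ℕ → ℕ → Bool := onCell 0 536870912 0 536870912 966367641 24778659
    (rowNE 3 eng mog cd0q0 cd0q2 pd2 0 false true false .pp 0 2 2 (qsf 0 536870912 0 536870912 2) ndB0q0 ndB0q2 pcB2 cut_pm_022_t Ext.none)

def k0_pm_022_t : ∃ t, chk3 f_pm_022_t t 2 2 1 = true :=
  ⟨(l 6), by decide +kernel⟩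

def k1_pm_022_t : ∃ t, chk3 f_pm_022_t t 4 6 1 = true :=
  ⟨(b (l 6) (a (a (a (a (a (b (b (b (l 6) (c (l 16388840) (l 16430144))) (c (b (l 16402976) (l 16417504)) (b (l 16441544) (l 16453504)))) (b (c (b (l 16432192) (l 16447016)) (b (l 16465880) (l 16478656))) (c (b (l 16461992) (l 16498112)) (b (l 16491832) (l 16505416))))) (b (b (l 6) (c (c (l 16443184) (l 16450928)) (b (l 16457120) (l 16469232)))) (b (c (b (l 16469144) (l 16484064)) (b (l 16481760) (l 16494664))) (c (b (l 16499128) (l 16514344)) (b (l 16507968) (l 16521680)))))) (b (b (l 6) (c (c (l 16467072) (l 16474616)) (c (l 16482472) (l 16490632)))) (b (c (b (l 16493152) (l 16508200)) (c (l 16509072) (l 16514936))) (c (c (l 16508192) (l 16512000)) (c (l 16515976) (l 16520112)))))) (b (b (l 6) (a (c (l 16460456) (l 16496256)) (l 6))) (c (b (c (l 16483096) (l 16488032)) (c (l 16493456) (l 16517936))) (b (c (l 16493160) (l 16498472)) (c (l 16521576) (l 16525344)))))) (b (l 6) (b (a (a (l 16536088) (l 16542832)) (l 6)) (a (c (l 16514368)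 (l 16518632)) (c (l 16459560) (l 16456000)))))) (a (b (l 6) (l 6)) (l 6)))), by decide +kernel⟩

def k2_pm_022_t : ∃ t, chk3 f_pm_022_t t 4 7 1 = true :=
  ⟨(a (b (a (b (b (a (a (c (b (c (l 16499208) (l 16502088)) (a (b (l 16504096) (l 16511920)) (l 16545320))) (b (a (l 16519424) (l 16535800)) (a (l 16512888) (l 16550352)))) (c (c (l 16518696) (l 16521384)) (a (l 16517480) (l 16554680)))) (c (c (l 16524936) (l 16527528)) (c (l 16530208) (l 16532984)))) (b (b (a (a (c (a (l 16519800) (l 16557128)) (a (l 16544960) (l 16561528))) (c (l 16581568) (l 16586184))) (c (l 16566736) (l 16571368))) (l 14)) (l 14))) (l 14)) (b (b (a (a (c (l 16589224) (l 16584232)) (c (l 16549784) (l 16545672))) (c (a (l 16510520) (l 16471696)) (a (l 16507560) (l 16469968)))) (a (b (c (l 16501344) (l 16497424)) (l 14)) (a (c (l 16501840) (l 16499288)) (c (l 16461880) (l 16460328))))) (a (l 14) (a (l 14) (a (l 14) (l 1)))))) (a (l 14) (a (l 14) (l 1)))) (b (a (b (a (a (b (c (l 16433608) (l 16433056)) (c (l 16422752) (l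 16422128))) (b (l 16396864) (l 1))) (l 1)) (l 1)) (l 1)) (l 1))), by decide +kernel⟩

def k3_pm_022_t : ∃ t, chk3 f_pm_022_t t 5 3 1 = true :=
  ⟨(b (l 1) (l 1)), by decide +kernel⟩

def k4_pm_022_t : ∃ t, chk3 f_pm_022_t t 3 1 1 = true :=
  ⟨(l 1), by decide +kernel⟩

theorem s5_pm_022_t : ∃ t, chk3 f_pm_022_t t 4 3 1 = true := ex3_b k1_pm_022_t k2_pm_022_t

theorem s6_pm_022_t : ∃ t, chk3 f_pm_022_t t 2 3 1 = true := ex3_a s5_pm_022_t k3_pm_022_t

theorem s7_pm_022_t : ∃ t, chk3 f_pm_022_t t 2 1 1 = true := ex3_b k0_pm_022_t s6_pm_022_t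

theorem s8_pm_022_t : ∃ t, chk3 f_pm_022_t t 1 1 1 = true := ex3_a s7_pm_022_t k4_pm_022_t

theorem c_pm_022_t : CertNE 0 536870912 0 536870912 966367641 24778659 3 eng mog cd0q0 cd0q2 pd2 false true false .pp 0 2 2
    ndB0q0 ndB0q2 pcB2 cut_pm_022_t Ext.none :=
  certNE0 (fam := false) (s1 := true) (s2 := false) (a := 0) (b := 2) (c := 2) (cn := .pp) (n1 := ndB0q0) (n2 := ndB0q2) (pc := pcB2) (cut := cut_pm_022_t) (xt := Ext.none) (P1 := 0) (W1 := 536870912) (P2 := 0) (W2 := 536870912) (P3 := 966367641) (W3 := 24778659) (N0 := 3) (En := eng) (mo := mog) (C1 := cd0q0) (C2 := cd0q2) (C3 := pd2)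
    rfl s8_pm_022_t

noncomputable def cut_pm_101_s : Cut := Cut.of [[⟨4, 0, 0, 1449551462⟩], [⟨0, 1, 0, 26843545⟩, ⟨1, 0, 0, 26843545⟩, ⟨2, 1, 0, 26843545⟩], [⟨0, 0, 1, 46137344⟩, ⟨1, 1, 2, 46137344⟩, ⟨2, 1, 0, 1572864⟩, ⟨0, 0, 0, 1013612281⟩, ⟨0, 1, 0, 128849018⟩, ⟨1, 0, 0, 128849018⟩, ⟨1, 1, 0, 1013612281⟩]]

noncomputable def xt_pm_101_s : Ext := extD3 3 ⟨4, 1, 1, 5, 37, 10, 843, 1000, 41, 100, 1, 8⟩ eng cd0q1 cd0q1 pd0 false true false .npn 1 0 1 rfl ndB0q1 ndB0q1 pcB0

noncomputable def f_pm_101_s : ℕ → ℕ → ℕ → ℕ → Bool := onCell 0 536870912 536870912 536870912 966367641 24778659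
    (rowNE 3 eng mog cd0q1 cd0q1 pd0 2 false true false .npn 1 0 1 (qsf 536870912 536870912 536870912 536870912 0) ndB0q1 ndB0q1 pcB0 cut_pm_101_s xt_pm_101_s)

def k0_pm_101_s : ∃ t, chk3 f_pm_101_s t 2 2 1 = true :=
  ⟨(l 6), by decide +kernel⟩

def k1_pm_101_s : ∃ t, chk3 f_pm_101_s t 4 6 1 = true :=
  ⟨(l 6), by decide +kernel⟩

def k2_pm_101_s : ∃ t, chk3 f_pm_101_s t 8 14 1 = true :=
  ⟨(l 6), by decide +kernel⟩

def k3_pm_101_s : ∃ t, chk3 f_pm_101_s t 16 60 1 = true :=
  ⟨(a (a (b (b (a (c (c (l 16817056) (l 16813528)) (c (l 16788952) (l 16785272))) (l 6)) (c (a (b (l 16789824) (c (l 16809664) (l 16805720))) (c (l 16826016) (l 16822752))) (a (b (c (l 16805040) (l 16801104)) (c (l 16801696) (l 16776608))) (c (l 16798440) (l 16795032))))) (c (a (b (c (l 16784240) (b (l 16802624) (l 16799600))) (c (l 16783688) (a (l 16791488) (l 16799032)))) (b (c (l 16799192) (l 16795624)) (c (l 16793504) (l 16789832)))) (a (b (c (b (l 16777496) (l 16774384)) (b (l 16783736) (a (l 16786952) (l 16795104))))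 (c (b (l 16771408) (l 16768632)) (b (a (l 16784016) (l 16792064)) (a (l 16781312) (l 16789280))))) (b (b (c (l 16814648) (l 16811016)) (c (l 16811488) (l 16786768))) (c (c (l 16787032) (l 16785136)) (b (l 16783736) (l 16780848))))))) (b (a (b (l 6) (b (l 6) (c (l 16838728) (l 16812176)))) (l 6)) (a (c (b (l 16813416) (b (l 16830168) (l 16806360))) (b (c (l 16829928) (l 16805896)) (b (l 16802968) (c (l 16822616) (l 16798408))))) (c (b (l 16829976) (l 16824520)) (b (c (l 16847432) (l 16824048)) (c (l 16820792) (l 16818240))))))) (b (l 6) (a (a (c (b (l 16847184) (l 16841904)) (b (l 16843744) (l 16838208))) (b (l 6) (c (l 16859944) (l 16857560)))) (a (b (l 6) (c (l 16847648) (l 16849080))) (l 6))))), by decide +kernel⟩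

def k4_pm_101_s : ∃ t, chk3 f_pm_101_s t 16 61 2 = true :=
  ⟨(a (a (b (a (b (c (a (l 16790136) (l 16797480)) (b (l 16791128) (l 16767496))) (c (a (l 16784480) (l 16791880)) (b (l 16764872) (l 16762256)))) (b (c (l 16787872) (l 16784264)) (c (l 16782336) (l 16784256)))) (a (b (c (b (l 16762888) (l 16759928)) (b (l 16770112) (l 16767448))) (a (c (b (l 16774064) (l 16760400)) (b (l 16760888) (l 16758024))) (c (l 16769624) (l 16767192)))) (b (b (l 16787144) (l 16779184)) (c (c (l 16771440) (l 16770304)) (a (l 16785552) (l 16793592)))))) (b (a (b (b (l 16803608) (l 16800864)) (b (l 16798136) (l 16795456))) (b (l 16824320) (l 16813760))) (a (b (b (l 16792792) (l 16790120)) (c (l 16787048) (l 16785024))) (b (l 16808408) (l 16803072))))) (b (a (b (a (l 16836728) (l 16854968)) (a (l 16831480) (l 16849408))) (b (a (l 16841552) (l 16847488)) (a (l 16835120) (l 16841144)))) (b (a (a (l 16826264) (l 16842736)) (a (l 16828448) (l 16834552))) (a (a (l 16820920) (l 16835800)) (a (l 16821720) (l 16806840)))))),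 by decide +kernel⟩

def k5_pm_101_s : ∃ t, chk3 f_pm_101_s t 16 61 3 = true :=
  ⟨(a (a (b (a (b (c (b (l 16776480) (l 16773960)) (b (a (l 16778808) (l 16786704)) (a (l 16776456) (l 16784304)))) (c (b (l 16771528) (a (l 16775816) (l 16783488))) (b (a (l 16774224) (l 16782040)) (a (l 16772088) (l 16779888))))) (b (c (a (l 16797488) (l 16805680)) (b (l 16778112) (l 16775608))) (c (a (l 16792552) (l 16800672)) (b (l 16773272) (l 16771072))))) (a (a (b (c (b (l 16752472) (l 16760576)) (b (l 16759520) (l 16757456))) (c (b (l 16758152) (l 16755616)) (b (l 16755376) (l 16753160)))) (b (c (l 16769472) (b (l 16777808) (l 16775768))) (c (a (l 16762736) (l 16766696)) (b (l 16752752) (l 16750632))))) (b (c (a (l 16787864) (l 16795968)) (b (l 16768976) (l 16777424))) (c (b (l 16767448) (l 16765064)) (b (l 16775408) (l 16773344)))))) (b (a (b (c (l 16797528) (b (l 16795672) (l 16793032))) (c (l 16792352) (b (l 16790512) (l 16788192)))) (b (c (l 16815296) (b (l 16835144) (l 16811472))) (c (l 16810168) (l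 16807712)))) (a (b (c (l 16787584) (b (l 16786008) (l 16804896))) (c (l 16793448) (a (l 16797504) (l 16806224)))) (b (c (l 16805216) (l 16803024)) (c (l 16800536) (l 16798800)))))) (b (a (a (b (l 16836952) (c (l 16828816) (l 16826992))) (b (l 16852592) (l 16847840))) (a (b (l 16842792) (l 16836000)) (b (l 16826368) (l 16819632)))) (a (a (b (c (l 16823936) (l 16822344)) (c (l 16819088) (l 16817832))) (b (c (l 16843512) (l 16842568)) (c (l 16836704) (l 16837328)))) (a (b (l 16828840) (b (l 16823288) (l 16819640))) (b (l 16812520) (c (l 16826568) (l 16804760))))))), by decide +kernel⟩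

def k6_pm_101_s : ∃ t, chk3 f_pm_101_s t 32 248 1 = true :=
  ⟨(a (a (a (c (b (c (l 16757112) (l 16755024)) (c (l 16753712) (l 16751872))) (c (b (l 16752912) (l 16755248)) (b (l 16750760) (c (l 16748592) (l 16747640))))) (c (b (l 16763880) (b (l 16761504) (l 16759880))) (c (b (l 16750392) (l 16758104)) (b (l 16758832) (l 16756352))))) (c (c (a (l 16781624) (l 16789696)) (b (l 16785416) (l 16761528))) (c (b (l 16762592) (l 16770448)) (a (b (l 16777512) (l 16775144)) (l 16774248))))) (a (c (c (l 16781120) (l 16779648)) (c (l 16783400) (b (l 16798712) (l 16775528)))) (c (l 16797584) (c (l 16795792) (l 16794568))))), by decide +kernel⟩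

def k7_pm_101_s : ∃ t, chk3 f_pm_101_s t 32 249 1 = true :=
  ⟨(b (c (a (a (b (a (c (l 16751064) (l 16749392)) (l 16758208)) (b (a (c (l 16760192) (l 16748104)) (l 16756928)) (b (a (c (l 16759504) (l 16757944)) (l 16766768)) (a (c (l 16751616) (c (l 16747840) (l 16747064))) (l 16761488))))) (b (c (l 16781568) (l 16780224)) (b (l 16769192) (b (l 16768568) (a (l 16764368) (l 16783104)))))) (a (b (l 16797632) (b (l 16796480) (b (l 16795888) (l 16774776)))) (b (l 16814984) (b (l 16813880) (l 16802560))))) (b (a (a (c (a (l 16747696) (l 16766376)) (a (l 16745976) (l 16764816))) (c (l 16757896) (l 16767000))) (a (l 16784888) (l 16792248))) (a (a (a (b (c (l 16746488) (l 16744856)) (c (b (l 16745872) (c (l 16751520) (l 16750736))) (b (l 16744280) (a (l 16746136) (l 16756880))))) (b (l 16759248) (b (l 16753440) (c (l 16754144) (l 16752728))))) (b (c (l 16777800) (l 16776528)) (a (b (l 16772376) (l 16767104)) (b (l 16780912) (l 16780856))))) (b (a (l 16773448) (l 16791336)) (b (a (l 16772960) (l 16811840))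 (a (c (l 16794320) (l 16772384)) (l 16790696))))))) (c (a (a (a (c (b (l 16749968) (l 16751584)) (b (l 16748432) (l 16750064))) (c (l 16758520) (l 16757136))) (a (l 16765752) (l 16784280))) (a (l 16786128) (l 16792616))) (a (a (a (c (b (l 16752128) (l 16748528)) (a (c (l 16744520) (l 16749616)) (l 16748184))) (c (l 16755728) (l 16754312))) (a (c (l 16753360) (l 16773048)) (l 16771488))) (a (c (l 16774136) (l 16783608)) (c (l 16791400) (l 16790568)))))), by decide +kernel⟩

def k8_pm_101_s : ∃ t, chk3 f_pm_101_s t 33 124 1 = true :=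
  ⟨(c (b (a (a (l 16815528) (l 16828720)) (a (l 16814792) (a (l 16824800) (l 16817224)))) (a (b (a (b (l 16812056) (l 16810328)) (l 16823624)) (a (l 16810272) (l 16818176))) (b (a (l 16809840) (l 16805600)) (a (l 16805088) (l 605881435969236003202351))))) (b (a (a (c (l 16814304) (l 16813464)) (c (l 16829136) (l 16829424))) (a (c (l 16814248) (l 16813888)) (a (l 16812536) (l 16793696)))) (a (a (b (b (l 16810960) (b (l 16810064) (c (l 16809504) (l 16809088)))) (l 16809152)) (b (a (l 16835176) (l 16830464)) (l 16818464))) (b (a (a (l 16823016) (l 16815272)) (a (l 16796720) (l 16788416))) (a (l 16814920) (l 606210883357003486373167)))))), by decide +kernel⟩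

def k9_pm_101_s : ∃ t, chk3 f_pm_101_s t 16 125 1 = true :=
  ⟨(a (a (b (a (a (a (l 14) (a (l 14) (b (c (l 16766456) (l 16753016)) (l 14)))) (c (b (l 16760656) (l 16763304)) (b (c (l 16758544) (l 16757112)) (a (l 14) (l 16772776))))) (a (c (b (l 16757752) (l 16781040)) (b (l 16765616) (l 16778320))) (c (l 16776960) (b (l 16783992) (l 16785824))))) (a (l 14) (b (c (l 16773568) (a (l 16780344) (l 16787448))) (c (l 16777928) (c (l 16765264) (l 16774264)))))) (a (c (b (b (l 16777288) (l 16778768)) (c (l 16781352) (l 16790432))) (b (b (c (l 16775616) (l 16774480)) (l 16786816)) (a (l 16784720) (l 16781424)))) (b (c (b (l 16793568) (l 16794384)) (b (l 16802072) (l 16792056))) (c (l 604564078669378234930735) (l 604428898622963076208175))))) (b (a (c (a (l 16815848) (l 16812744)) (c (l 604450948258214839379695) (b (l 604247745999227256973039) (l 604424431256504491894511)))) (c (l 604916152237399874938607) (c (l 605159130645431540131567) (l 605266064127009723409647)))) (a (c (l 604543470301799522264815)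 (c (l 604762525368570813130479) (l 604652421351068247516911))) (c (l 604149459462743544604399) (c (l 605155383486027123877615) (l 605329762872463724685039)))))), by decide +kernel⟩

def k10_pm_101_s : ∃ t, chk3 f_pm_101_s t 16 63 1 = true :=
  ⟨(a (b (a (l 14) (a (b (c (l 604247313485987477329455) (l 604154359156761913992815)) (l 14)) (c (l 604221805090757359396463) (a (l 604700555661364030236271) (l 604229587290847417034351))))) (l 14)) (b (a (b (c (l 604325279940244200580719) (l 604166176760788714120815)) (c (l 604318650443611873896047) (l 604552117116395772880495))) (a (c (l 604130436011626928563951) (l 604252645749251942409967)) (c (b (l 604719579091177566119663) (l 604157817918939230873327)) (b (l 605066032039870693746415) (l 604489282915079227385583))))) (b (c (a (a (l 604520988192615526868591) (l 604300780144691118761583)) (a (l 604033302308549478196847) (l 603691172791790402135791))) (a (a (l 604722173075433783010927) (l 604544334899125869848175)) (a (l 604323838619794517878383) (l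 603996697078678320457455)))) (a (a (l 14) (b (c (l 603907057339611032725103) (l 604143982809550530176623)) (a (l 14) (b (c (l 604449362979669806241327) (l 604693061807579914364527)) (l 14))))) (b (a (c (l 603696360895336625415791) (l 603974503316968516167279)) (c (l 603408130466133466572399) (l 603692325723328080979567))) (a (c (b (l 603551957430430245611119) (a (l 604266336690813464401455) (l 604172085357811848353327))) (b (c (l 604510611929241934292591) (l 604652133103787098728047)) (c (l 604421836948991789688431) (l 604562205204987274454639)))) (c (b (c (l 603980412157670951130671) (l 604111700979865014052463)) (c (l 603912389788899143833135) (l 604040364075910513333807))) (a (c (l 604306544780526597645935) (l 604456424639072538764911)) (c (l 604111989236423290611311) (l 604241981193723363010287)))))))))), by decide +kernel⟩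

def k11_pm_101_s : ∃ t, chk3 f_pm_101_s t 17 30 1 = true :=
  ⟨(b (l 6) (a (b (b (a (a (c (l 16831792) (l 16830272)) (l 6)) (l 6)) (a (c (a (l 16825536) (l 16809272)) (a (l 16802600) (l 16805896))) (c (l 16762632) (a (l 16787584) (l 16768640))))) (a (c (b (a (l 16819024) (l 16802840)) (a (l 16812352) (l 16796232))) (b (a (l 16795528) (l 16777880)) (a (c (l 16809992) (l 16808392)) (c (l 16792752) (l 16790392))))) (c (b (a (l 16785984) (l 16768464)) (a (l 16779440) (l 16761984))) (b (a (l 16780552) (l 16761608)) (a (c (l 16774840) (l 16771720)) (l 16733376)))))) (b (l 6) (a (c (b (l 16719928) (l 601138316610936351875119)) (a (b (l 16742040) (l 16734760)) (l 602515192373993395724335))) (a (b (l 6) (c (l 600395258481658459496495) (l 599812455562392569110575))) (c (l 600966819338870341394479) (l 595074523311893797593647))))))), by decide +kernel⟩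

def k12_pm_101_s : ∃ t, chk3 f_pm_101_s t 34 62 1 = true :=
  ⟨(b (a (b (c (a (l 16784632) (l 16768560)) (a (c (l 16802848) (l 16780008)) (c (l 16785632) (l 16762016)))) (b (c (a (l 16800552) (l 16784488)) (a (c (l 16797576) (l 16795552)) (c (l 16780360) (l 16777552)))) (a (c (l 604712085378474612909359) (c (l 605808802067071693481263) (l 605290852035428568933679))) (c (l 144434905448972591) (c (l 144504793149030703) (c (l 144632611371811119) (l 144598801343643887))))))) (b (c (a (l 16751824) (l 16734416)) (a (c (l 16767752) (l 16764320)) (c (l 16749192) (l 16744984)))) (b (c (a (l 16767784) (l 16750408)) (c (l 144338835515539567) (a (l 16758880) (l 16739536)))) (c (a (l 144332788229751087) (l 144399308647989487)) (a (c (l 144367148000788719) (a (l 144497233973035247) (l 144414908020506735))) (c (l 144399789714473199) (a (l 144330383044378735) (l 144243590325157999)))))))) (a (a (b (c (l 604288963012217454699823) (c (l 604760796273904929367343) (l 604958522284800765748527))) (c (l 144329214900584687)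 (l 605058538075791818974447))) (b (c (a (l 144458819826172207) (l 144415457820819759)) (c (l 603635544759445813290287) (l 603900428427575333659887))) (c (c (l 603793494878239754380591) (l 603969603611405292217647)) (c (l 603397466289798973334831) (l 603587986545345466656047))))) (b (c (a (l 144345982405968175) (l 144243109316182319)) (a (c (l 144232114225283375) (l 144340897151729903)) (c (l 144274239228723439) (l 144180437135917167)))) (a (c (b (l 144360413489021231) (l 144074952778252591)) (c (l 602280861687242884785455) (l 602530180918908482381039))) (c (l 144036401123459375) (c (l 144108487847199023) (l 144040730438189295))))))), by decide +kernel⟩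

def k13_pm_101_s : ∃ t, chk3 f_pm_101_s t 34 63 1 = true :=
  ⟨(a (a (b (c (c (l 603060236450290672838383) (l 603212134051624358110959)) (b (l 604471989114843942758127) (l 603952597846039225067247))) (b (c (l 603252774310842392012527) (l 603512469947856097928943)) (b (c (l 603017866464118827607791) (l 603239227478559105017583)) (c (c (l 603604991844174984734447) (l 603698090303225873082095)) (c (l 603795223988504958314223) (a (l 144036744776220911) (l 143987129304613103))))))) (b (c (b (l 144045197221560559) (l 143896075945967855)) (c (b (l 144216377482658031) (l 144090071076045039)) (b (l 144212323034693871) (l 144100997475877103)))) (b (c (b (l 143976752646815983) (l 602694183905838229645039)) (c (l 143980463502770415) (l 143824470295199983))) (b (c (c (l 603294567709543249766127) (l 603372389942440298604271)) (l 602740877056762785031919)) (c (c (l 602835128438486528796399) (l 603273238647483092920047)) (c (l 603337225828853210703599) (l 143729293813121263))))))) (b (b (a (c (b (c (l 16751328)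 (l 144144428164186415)) (a (l 144101684652736815) (l 144045746985484591))) (c (a (l 603936457025651398747439) (l 603462317992010631882031)) (a (l 603331749681435541824815) (l 603627473973150147159343)))) (c (b (l 144071035735081263) (l 143799525079777583)) (a (c (l 143989190840566063) (l 603085024332871000155439)) (c (l 143927137137017135) (l 143879514536198383))))) (a (c (c (l 143972904340390127) (l 143968368855908591)) (c (l 143965001602613487) (l 143963008696008943))) (c (b (a (l 143918684656451887) (l 143872436435222831)) (a (l 143854638101430575) (l 143799044032053551))) (b (c (l 601878203653778092483887) (l 602007907299956617176367)) (a (l 143834778172637487) (c (l 143771418800767279) (l 143754445088964911))))))) (b (a (c (b (l 143878758652133615) (l 143643806736285935)) (c (l 143686962573328623) (l 143698988463079663))) (c (a (c (l 143772930639347951) (l 143773342957322479)) (c (l 143721253581799663) (l 143714862670561519))) (c (c (l 143742831493480687) (l 143741938140659951)) (c (l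 143741319665762543) (l 143560724878639407))))) (c (a (c (b (l 602816969893590315640559) (a (l 602885568696313828189935) (l 602650949129032079353583))) (b (l 143784475525316847) (l 602515192578777519597295))) (b (c (l 143673356098158831) (l 143681052681224431)) (a (c (l 602403070962385767065327) (l 143670676054950127)) (c (l 143562992612147439) (l 143619136437174511))))) (b (a (c (l 143805160091500783) (l 143826600572109039)) (c (l 143509116541468911) (l 143517775197438191))) (a (c (l 143680159361482991) (l 143707303559282927)) (c (a (l 143688336963371247) (l 143630406433276143)) (a (l 143706341469323503) (l 143642020026876143))))))))), by decide +kernel⟩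

def k14_pm_101_s : ∃ t, chk3 f_pm_101_s t 35 62 1 = true :=
  ⟨(a (b (b (c (l 598561825314593869570159) (a (l 602134729038747509137455) (l 16707240))) (b (c (l 144249225261367407) (a (l 16722128) (l 16701848))) (c (a (l 144274307926098159) (l 144137899726700655)) (a (c (l 144242490793050223) (l 144108693918482543)) (a (l 144043616591347759) (l 143952906860986415)))))) (a (c (b (l 144128553913893103) (l 143934077790585135)) (c (b (l 144126011280130159) (l 143970842700349679)) (b (l 144010837428207727) (l 143880545300971631)))) (c (b (l 144002384918544495) (l 143820072145158383)) (b (l 143719054451851311) (a (l 143806946716926063) (l 143725170520522863)))))) (b (b (a (c (l 597742674185829500592175) (l 599195643486790207938607)) (c (l 600029205989638954754095) (l 598604193752996797947951))) (a (b (c (l 143849484057395311) (l 143707578313277487)) (c (c (l 143900611348791407) (l 143913049562005615)) (l 143493585814601775))) (c (c (l 143954418696405103) (l 143842680818794543)) (b (l 143470564836311087)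 (l 143842818241560623))))) (a (c (a (b (l 143900473907429487) (l 143727369545711855)) (l 143574949740691567)) (b (l 143307837071982639) (a (l 143464861124264047) (l 143620098418360367)))) (c (b (l 143759873849950319) (l 143603056003203183)) (b (l 143741663172657199) (c (l 143651571943030895) (l 143568696246829103))))))), by decide +kernel⟩

def k15_pm_101_s : ∃ t, chk3 f_pm_101_s t 70 63 2 = true :=
  ⟨(b (b (a (c (l 143970705270653231) (l 143899237009867055)) (l 143652602786054447)) (a (c (l 143613845024588079) (l 143570551751082287)) (c (l 143716374456336687) (l 143646967779426607)))) (b (a (b (a (l 143687031270752559) (l 143460875459920175)) (a (c (l 143642982085673263) (l 143633223919386927)) (c (l 143591854783299887) (l 143573781559230767)))) (a (b (l 143600307264848175) (c (l 143551585157824815) (l 143522241938407727))) (c (l 143370784201589039) (l 143321512332362031)))) (a (b (c (c (l 143574537475244271) (l 143571513818054895)) (c (l 143568558880342255) (l 143565672660795695))) (c (a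 (c (l 143559350480732399) (l 143561549504348399)) (b (l 143518874698858735) (c (l 143502382024605935) (l 143502107146633455)))) (b (c (l 143544026027278575) (l 143543751149453551)) (a (l 143557769933766895) (c (l 143501763549184239) (l 143501488671244591)))))) (b (a (c (b (l 143505886706123055) (l 143483003120697647)) (b (l 143485683177668911) (l 143467747394945327))) (c (b (l 143469946407715119) (l 143440190874976559)) (b (l 143437304652808495) (l 143414214909673775)))) (a (c (b (l 143465685812986159) (c (b (l 143456271245377839) (l 143448505939362095)) (b (l 143451941917671727) (l 143445138684412207)))) (b (c (l 143457164596707631) (l 143451460879368495)) (c (b (l 143447612589981999) (l 143441702710018351)) (c (l 143441702709362991) (l 143439709844242735))))) (b (c (c (l 143375525848826159) (l 143365424084369711)) (c (l 143355322319913263) (l 143345220555473199))) (c (a (c (l 143413184125583663) (l 143406587054752047)) (c (b (l 143391331326263599) (l 143360407562191151)) (b (l 143382122914988335)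 (b (l 143376281759858991) (l 143373395542130991))))) (c (a (l 143399921264476463) (b (l 143372914503713071) (b (l 143367966701863215) (l 143365492801012015)))) (a (b (l 143395454497145135) (l 143390987731763503)) (b (l 143363637372977455) (c (l 143360544997556527) (l 143356421828313391)))))))))))), by decide +kernel⟩

def k16_pm_101_s : ∃ t, chk3 f_pm_101_s t 70 63 3 = true :=
  ⟨(c (b (b (a (l 143830792406040879) (l 143693284698931439)) (a (b (l 143736303125446959) (l 143679953154916655)) (l 143580103728480559))) (b (a (b (l 143630062815281455) (a (l 143624084228456751) (l 143556189371515183))) (b (l 143506642604900655) (a (l 143493654633251119) (l 143433456356704559)))) (a (a (b (l 143594603573461295) (c (l 143568421453283567) (l 143570826635428079))) (b (l 143527602065162543) (b (l 143510765794427183) (c (l 143501145073828143) (l 143500870195921199))))) (b (a (b (l 143465891966124335) (l 143452560388718895)) (b (l 143405281373176111) (l 143388513822294319))) (a (b (c (l 143445757162045743)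 (l 143440122164216111)) (a (c (l 143453178869793071) (l 143450155212390703)) (c (l 143420193514570031) (l 143415314425643311)))) (b (c (l 143335118791033135) (l 143347557014962479)) (a (c (b (l 143388238951006511) (l 143384596819444015)) (c (l 143381298283446575) (l 143377862309101871))) (c (b (l 143354291522765103) (c (l 143352298659053871) (l 143348175489810735))) (b (l 143344945672552751) (c (l 143343983601090863) (l 143339791712370991))))))))))) (b (a (b (l 143765508898078959) (b (l 143689848755503343) (l 143646280608579887))) (b (l 143605186322563183) (b (l 143536466848760047) (l 143496197237653743)))) (b (a (a (b (l 143643394399715631) (l 143615563012899119)) (b (l 143570070702260527) (l 143539284378616111))) (a (b (l 143497434199048495) (l 143465891961831727)) (b (l 143422942269620463) (l 143393118019813679)))) (a (a (b (l 143593023025791279) (c (l 143573231817605359) (l 143575705719275823))) (b (c (l 143520867561177391) (l 143516469514273071)) (a (c (l 143521692200239407) (l 143521486041907503))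 (c (l 143486301662986543) (l 143484240078487855))))) (c (a (b (l 143446650511655215) (b (l 143434418446909743) (a (l 143447062835527983) (c (l 143411603578732847) (l 143409060957749551))))) (b (l 143375869435445551) (b (l 143337386529718575) (a (c (l 143374426332070191) (b (l 143371814993690927) (l 143370165727150383))) (b (l 143335531102863663) (c (l 143312991115804975) (l 143308799225397551))))))) (b (a (l 143438060576063791) (b (l 143366248706064687) (l 143356834139668783))) (b (a (l 143428783443722543) (c (l 143352367375991087) (l 143347282134040879))) (a (a (l 143443970458681647) (c (l 143406587056242991) (l 143404113154736431))) (a (b (l 143366317434765615) (c (l 143366867191791919) (l 143363568653746479))) (b (l 143326047813714223) (a (c (l 143337111652761903) (l 143333057203044655)) (c (l 143316908122800431) (l 143312372636664111))))))))))))), by decide +kernel⟩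

def k17_pm_101_s : ∃ t, chk3 f_pm_101_s t 71 126 1 = true :=
  ⟨(a (c (b (a (c (l 143805434876281135) (l 143693834437607663)) (l 143521554707824879)) (a (c (l 143470358708601135) (l 143564023348445487)) (c (l 143605529913131311) (l 143526021471912239)))) (c (b (l 143389750741975151) (a (l 143480529177198831) (l 143449193090220271))) (b (l 143291619299344495) (a (l 143400196101800047) (l 143375182207025263))))) (c (b (l 143369684659929199) (c (l 143362606557184303) (l 143480460454166767))) (b (c (l 143528014324744303) (l 143457233257250863)) (c (l 143420056028479599) (b (l 143383978296770671) (l 143340547588931695)))))), by decide +kernel⟩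

def k18_pm_101_s : ∃ t, chk3 f_pm_101_s t 71 254 1 = true :=
  ⟨(a (c (b (a (c (l 143545400378556719) (l 143477986566045999)) (l 143384184477008175)) (a (c (l 143390987715674415) (l 143426446960558383)) (c (l 143445344815464751) (l 143392980569047343)))) (a (c (b (l 143412634337771823) (l 143373326799896879)) (b (l 143349481132720367) (c (l 143334431572181295) (l 143309005363183855)))) (c (b (l 143381298250334511) (l 143341853273178415)) (b (l 143321718458188015) (l 143291962927857903))))) (c (a (c (l 143349893457428783) (l 143299247197995311)) (c (l 143406105985188143) (l 143362056795865391))) (c (b (l 143350099603046639) (b (l 143318832242344175) (l 143299522070298863))) (b (l 143301514927882351) (a (l 143275607688970479) (l 143259115011063919)))))), by decide +kernel⟩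

def k19_pm_101_s : ∃ t, chk3 f_pm_101_s t 284 255 2 = true :=
  ⟨(b (c (a (l 143429951663407407) (l 143367829251047727)) (a (l 143390644118536495) (l 143323848781300015))) (c (b (a (l 143387757906149679) (c (l 143380542356898095) (l 143363293766172975))) (b (a (l 143322680562499887) (c (l 143359926514712879) (l 143345151825281327))) (a (c (a (b (l 143367073347125551) (l 143361713228218671)) (l 143356696703467823)) (a (b (l 143357040301981999) (l 143352367377875247)) (l 143345357988118831))) (c (a (a (l 143351611460059439) (l 143348244204437807)) (l 143343158962192687)) (a (b (l 143339860426899759) (c (l 143337180368109871) (l 143330926894825775))) (l 22)))))) (b (a (l 143358414685929775) (c (l 143346113894924591) (l 143329002743152943))) (b (a (c (l 143349481155887407) (l 143337249087340847)) (c (l 143330377135849775) (l 143315602446418223))) (a (a (c (c (l 143347557013193007) (l 143342677929591087)) (c (l 143337730126496047) (l 143332713603940655))) (c (l 143333950553309487) (l 143300003130114351)))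 (a (c (b (l 143326460127084847) (c (l 143324604702064943) (l 143318351228780847))) (a (l 143313609584034095) (c (l 143311547998748975) (l 143304882208571695)))) (l 22))))))), by decide +kernel⟩

def k20_pm_101_s : ∃ t, chk3 f_pm_101_s t 284 255 3 = true :=
  ⟨(b (c (a (l 143352092487893295) (b (l 143333675660968239) (l 143317938902499631))) (a (c (l 143323642621362479) (l 143304882202116399)) (b (l 143288458240426287) (l 143278425198887215)))) (b (c (a (c (l 143336493170114863) (l 143321924639228207)) (c (l 143311960310858031) (l 143294986598039855))) (a (c (l 143307356108341551) (l 143292925016391983)) (c (l 143278081604698415) (l 143261245330817327)))) (a (b (c (c (l 143324948299317551) (l 143312716230770991)) (c (l 143300346723270959) (l 143288045935247663))) (a (c (c (c (l 143327765800845615) (l 143322749278290223)) (c (l 143317732755718447) (l 143312647513686319))) (c (c (l 143285091002761519) (l 143285640757821743)) (b (l 143295124044185903) (c (l 143296773312577839) (l 143291825509499183)))))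 (c (c (c (l 143313884463153455) (l 143308112026272047)) (c (l 143302339589390639) (l 143296498433032495))) (c (c (l 143290725996134703) (l 143284884839776559)) (c (l 143279043683418415) (l 143273133808255279)))))) (a (b (c (c (l 143304813487522095) (l 143290176237060399)) (c (l 143275538986598703) (l 143260970455597359))) (a (c (c (c (l 143304057575424303) (l 143297666663186735)) (c (l 143291275750949167) (l 143284884838711599))) (c (c (l 143278425207013679) (l 143271965575299375)) (c (l 143265505943585071) (l 143259046311870767)))) (a (c (c (c (l 143299178491314479) (l 143292443981660463)) (c (l 143285778191483183) (l 143279043681845551))) (c (c (l 143272309172191535) (l 143265574662537519)) (c (l 143258840152899887) (l 143252105643245871)))) (l 22)))) (l 22))))), by decide +kernel⟩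

def k21_pm_101_s : ∃ t, chk3 f_pm_101_s t 285 255 1 = true :=
  ⟨(c (c (b (b (l 143402807460577583) (l 143375938146107695)) (b (c (l 143358483401081135) (l 143341990724600111)) (a (a (b (l 143342059447779631) (c (l 143336355732783407) (l 22))) (l 22)) (l 22)))) (b (b (l 143358689551794479) (l 143337386515218735)) (b (c (l 143325498048102703) (l 143309074091082031)) (l 22)))) (b (c (b (l 143315396276715823) (l 143299247201190191)) (c (l 143277050805993775) (l 143257190874906863))) (b (c (c (l 143292650134061359) (l 143276294896517423)) (c (b (l 143262550998614319) (l 143257328319332655)) (b (l 143245646005223727) (l 143241591557095727)))) (l 22)))), by decide +kernel⟩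

def k22_pm_101_s : ∃ t, chk3 f_pm_101_s t 143 255 1 = true :=
  ⟨(b (c (c (a (b (l 143371540094173487) (l 143346182608077103)) (l 143284128915620143)) (a (b (l 143331957671018799) (l 143311066951106863)) (b (l 143305706826563887) (l 143285228423332143)))) (c (a (b (l 143292787564708143) (l 143276157452566831)) (b (l 143270385011114287) (l 143253136423420207))) (c (a (l 143256778556162351) (l 143236437586821359)) (a (l 143238499173122287) (l 143219601312858351))))) (b (c (c (a (c (l 143329689935610159) (l 143314434209693999)) (c (l 143301514945413423) (l 143287358731141423))) (a (c (l 143299109764317487) (l 143283785318924591)) (c (l 143273133797376303) (l 143258771424674095)))) (c (c (a (l 143268392154054959) (l 143244340332478767)) (a (l 143252998989201711) (l 143229840520823087))) (c (a (l 143237537103511855) (l 143215203268854063)) (a (b (l 143224617840738543) (l 143219601319756079)) (b (l 143203452237283567) (l 143197611082383599)))))) (l 22))), by decide +kernel⟩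

def k23_pm_101_s : ∃ t, chk3 f_pm_101_s t 9 14 1 = true :=
  ⟨(l 6), by decide +kernel⟩

def k24_pm_101_s : ∃ t, chk3 f_pm_101_s t 18 30 1 = true :=
  ⟨(l 6), by decide +kernel⟩

def k25_pm_101_s : ∃ t, chk3 f_pm_101_s t 18 62 1 = true :=
  ⟨(a (b (a (c (b (l 598833626049681274855471) (b (l 598365828179698486321199) (a (l 143958198257238063) (l 143873742017069103)))) (b (l 594252490237327773213231) (b (l 594778511263142892150831) (c (l 143213691378450479) (l 141746667718098991))))) (b (l 6) (b (c (l 599437468076046956978223) (l 588743253909196727231023)) (a (c (l 143802548635566127) (l 141274839700226095)) (c (l 143047527655735343) (l 140573900905955375)))))) (a (c (a (b (l 143848178373885999) (l 143700981252817007)) (b (l 143769975605346351) (l 143629650430951471))) (c (a (l 143691223081058351) (l 143666896342728751)) (b (l 142287077832917039) (a (l 143556601620578351) (l 142572744716730415))))) (c (a (b (l 143703111550173231) (l 143567459299246127)) (b (l 143522654199709743) (l 143512964705779759)))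 (a (c (l 142757050380976175) (l 141374002107908143)) (c (l 141929667770122287) (l 140629563833942063)))))) (b (l 6) (b (a (c (b (l 142185647822569519) (l 142457570847113263)) (b (l 139891241714319407) (l 140130316952911919))) (l 6)) (a (a (c (l 143291344376971311) (l 140843419018592303)) (c (l 142491655720960047) (l 140182474924654639))) (a (c (l 141771750348816431) (l 139587295295979567)) (c (l 141122488654266415) (l 139050183678591023))))))), by decide +kernel⟩

def k26_pm_101_s : ∃ t, chk3 f_pm_101_s t 72 63 2 = true :=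
  ⟨(b (a (b (l 143386177328513135) (c (l 143466991434776815) (l 143424591513256047))) (b (l 143501213705060463) (c (l 143398684267233519) (l 143373258057597039)))) (b (a (c (b (l 143383428551229743) (l 143332713577922863)) (b (l 143346457468469487) (l 143299590780535023))) (a (c (l 143312166447792431) (l 143285022250664175)) (c (l 143283098104873199) (l 143260695541186671)))) (b (a (c (a (l 143300346707575087) (l 143272240437035311)) (b (l 143267292627124527) (a (l 143259870931878191) (l 143234857037791535)))) (a (c (l 143244890080739631) (b (l 143230184108523759) (l 143210186741088559))) (c (l 143218158194360623) (b (l 143205857409368303) (l 143185860041752815))))) (b (c (a (a (c (l 143273958430523695) (l 143260764288925999)) (c (l 143246951671447855) (l 143234650883031343))) (a (c (l 143220425948709231) (l 143208949794013551)) (c (l 143194381262324079) (l 143183592302379311)))) (c (a (a (l 143247501427835183) (l 143222212655677743)) (a (l 143197267480887599) (l 143172597184004399))) (a (a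 (l 143234032408314159) (l 143209568269877551)) (a (l 143185310289854767) (l 143161258468262127))))) (l 22))))), by decide +kernel⟩

def k27_pm_101_s : ∃ t, chk3 f_pm_101_s t 72 63 3 = true :=
  ⟨(b (c (a (b (l 143495166411866223) (l 143383359822856303)) (b (l 143464792399708207) (l 143348312884346991))) (a (b (l 143450292589068335) (b (l 143368447691980847) (l 143319175827275887))) (b (l 143340478862671919) (b (l 143351886294548527) (l 143296910712012847))))) (b (b (a (c (l 143310036141523055) (l 143274302009344111)) (c (l 143271209630351471) (l 143246264456790063))) (a (c (b (l 143277050793115887) (l 143256503669965039)) (b (l 143243515684241519) (l 143224480383565935))) (c (b (l 143236231416397935) (l 143214241183760495)) (c (l 143206338441166959) (l 143193694055596143))))) (b (a (c (a (b (l 143248257335394543) (l 143230321552670959)) (b (l 143226267098611951) (l 143207644115501295))) (a (c (l 143216027897987311) (l 143200566013608047)) (c (l 143195618209120367) (l 143181324555894895))))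 (c (c (a (l 143201047047504111) (l 143178438335234287)) (a (l 143188196503339247) (l 143166618583269487))) (a (c (l 143175139800744047) (l 143161876939718767)) (c (l 143154592672874607) (l 143142291884572783))))) (b (a (c (a (c (l 143220425949856047) (l 143206750771904815)) (c (l 143196717725647151) (l 143183661022986479))) (c (a (l 143192869434179823) (b (l 143174383891415279) (l 143166481151869167))) (a (b (l 143182217914335471) (l 143175414686597359)) (b (l 143160777432940655) (l 143153149571301487))))) (c (a (c (l 143173078220914927) (l 143160639993544943)) (c (l 143149576155119855) (l 143137687680876783))) (a (c (b (l 143152256215220335) (l 143143735000252655)) (b (l 143139268232052847) (l 143130815736545391))) (c (b (l 143130128539041903) (l 143120851409682543)) (b (l 143117621592211567) (l 143108275743326319)))))) (l 22))))), by decide +kernel⟩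

def k28_pm_101_s : ∃ t, chk3 f_pm_101_s t 73 126 1 = true :=
  ⟨(c (c (a (a (l 143405693649076335) (l 143374838578823279)) (b (l 143384665481298031) (l 143280211873775727))) (a (b (l 143440740580163631) (l 143325704172994671)) (b (l 143397103706767407) (l 143281311384158255)))) (c (a (b (l 143436411251965999) (l 143314640324362287)) (b (l 142877653099773999) (b (l 143312441307299887) (l 143252311762485295)))) (b (a (l 142380261436014639) (l 141525528468357167)) (a (b (l 142918678643621935) (l 143273683523747887)) (a (l 142392630954311727) (l 141952001630715951)))))), by decide +kernel⟩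

def k29_pm_101_s : ∃ t, chk3 f_pm_101_s t 73 254 1 = true :=
  ⟨(b (c (c (a (l 143263650486681839) (l 143209980566978671)) (a (l 143248669637836911) (l 143203452214378607))) (c (a (l 143233276472197231) (l 143196030465687599)) (a (b (l 143231008727121967) (l 143203933252354095)) (c (l 143026843129970735) (l 142319925742911535))))) (c (a (c (l 143219463862845679) (b (l 143213416545665135) (l 143191220154384495))) (c (l 143167580638429295) (c (l 143159196870738031) (l 143153286994231407)))) (c (a (c (l 143188814970339439) (l 143179606558785647)) (c (l 143147033520373871) (l 143140573888086063))) (a (a (l 143174246439043119) (l 143156791666688047)) (c (l 143133770636951599) (l 142662286287618095)))))), by decide +kernel⟩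

def k30_pm_101_s : ∃ t, chk3 f_pm_101_s t 73 255 1 = true :=
  ⟨(b (c (a (b (c (l 143188677537267951) (c (l 143174727480688879) (l 143165175471554671))) (c (c (l 143174177728790831) (l 143164625719525615)) (c (l 143154867551846639) (l 143144697061949679)))) (c (b (l 143138099987972335) (a (l 143131983962177775) (l 143107519823823087))) (a (c (l 143128960302399599) (l 143120370365923439)) (c (l 143105458236817519) (l 143097555495141487))))) (c (a (a (c (l 143155967061917807) (l 143145109382660207)) (c (l 143133633227538543) (l 143123600182034543))) (a (c (l 143111436832079983) (l 143102090981392495)) (c (l 143089309156098159) (l 143080650500210863)))) (a (a (c (l 143133976825512047) (l 143122500665606319)) (c (l 143113223539163247) (b (l 143114529207762991) (l 143090820987453487)))) (c (a (l 143092470247424047) (b (l 143084430070218799) (l 143059003862614063))) (b (l 142923351589027887) (a (l 143069930262036527) (l 142851677164240943))))))) (b (c (a (c (a (c (l 143168817612259631) (l 143158647127605551))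 (c (l 143143666279055663) (l 143134045550199087))) (a (c (l 143148133045551343) (l 143137344085606639)) (c (l 143124012504482031) (l 143113635861397743)))) (c (a (c (l 143118927262712111) (l 143109650131239151)) (c (l 143094463124275439) (l 143085598309646575))) (a (c (l 143100098121842927) (l 143090065076125807)) (c (l 143076321178140783) (l 143066631724433519))))) (c (a (a (c (l 143126211528278255) (b (l 143119614456463471) (l 143109925010161775))) (c (l 143102915618226287) (b (l 143096868304961647) (l 143086697822208111)))) (c (a (b (l 143084773674418287) (l 143074603191615599)) (b (l 143061752644993135) (l 143051238564708463))) (a (b (l 143074190872920175) (l 143063539353714799)) (c (l 143048558503690415) (l 143043129663979695))))) (a (c (a (b (l 143107863423877231) (l 143097967819096175)) (c (l 143083193127420015) (l 143077351970848943))) (a (c (l 143093775929507951) (l 143087591175569583)) (c (l 143071373375324335) (l 143065326060322991)))) (c (a (c (l 143060446975836335) (l 143054674538741935))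 (c (l 143037632104775855) (l 143031928387141679))) (a (a (l 143051513442435119) (l 143040243435110447)) (c (l 143026155939299375) (l 142845217556643887))))))) (l 22))), by decide +kernel⟩

def k31_pm_101_s : ∃ t, chk3 f_pm_101_s t 37 126 2 = true :=
  ⟨(b (a (a (a (l 143355116058558511) (l 143332713505833007)) (a (l 143259939533684783) (l 142851333495324719))) (a (c (l 142827350438182959) (l 141723165677568047)) (b (l 141461962939547695) (l 141696227726917679)))) (a (a (c (l 143228259941482607) (l 143239598611824687)) (c (l 143180293738758191) (l 143039556174544943))) (a (c (l 143135694747402287) (l 142239592736833583)) (c (l 142595353450037295) (l 141518862773420079))))), by decide +kernel⟩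

def k32_pm_101_s : ∃ t, chk3 f_pm_101_s t 37 254 2 = true :=
  ⟨(b (a (a (c (l 143159746621063279) (l 143160090216677423)) (c (l 143112330173644911) (l 143118377443377199))) (c (a (l 143067456346816559) (l 142982656499417135)) (a (l 142642701183582255) (l 141883282190614575)))) (a (c (a (b (l 143128273099898991) (l 143108413170679919)) (c (l 143071648242630767) (l 143070617449267311))) (a (c (l 143113498410156143) (l 143109856276562031)) (c (l 143069243058536495) (l 143067387631484975)))) (c (a (c (l 143025674903765103) (l 143026087219544111)) (a (l 142993101864583215) (l 142971661383368751))) (a (c (l 143026155937955887) (l 142622703859777583)) (c (l 142412697099763759) (l 141852289662648367)))))), by decide +kernel⟩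

def k33_pm_101_s : ∃ t, chk3 f_pm_101_s t 37 255 2 = true :=
  ⟨(b (a (a (c (a (b (l 143101472505479279) (l 143083399282868335)) (b (l 143077626842497135) (l 143059622339281007))) (a (c (l 143082231049125999) (l 143074946782789743)) (c (l 143059210019864687) (l 143052475509358703)))) (c (a (c (l 143047733866250351) (l 143042305025802351)) (c (l 143024369239556207) (l 143019421435461743))) (c (a (l 143036463868510319) (l 143013923875553455)) (a (l 143030141674881199) (l 143007945268592687))))) (c (a (c (a (l 143001416929689711) (l 142978808217223279)) (a (l 142996744003535023) (l 142974341449498799))) (a (c (l 142956474382647471) (l 142952145053892655)) (c (l 142934415425962031) (l 142930154795221039)))) (a (c (a (l 142991521321549871) (l 142969324904497199)) (a (b (l 142998049670823983) (l 142973929133097007)) (l 142692660283392047))) (c (a (l 142869475497558063) (l 142477087265931311)) (a (l 142294637064503343) (l 141916611109568559)))))) (b (a (a (c (c (a (l 143070411302699247) (l 143046634359029999))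 (a (l 143061821365960943) (l 143038250580689007))) (c (a (l 143052750392885359) (l 143029385760669807)) (a (b (l 143048352344375407) (l 143038250580983919)) (b (l 143025262595473519) (l 143014885954093167))))) (c (c (a (l 143023132293251183) (l 142999973824856175)) (a (l 143014885953863791) (l 142991727480078447))) (c (a (b (l 143011037661151343) (l 143001348214587503)) (b (l 142988016631709871) (l 142978121026650287))) (a (b (l 143002241566032047) (l 142991590046662831)) (c (l 142976196879859887) (l 142971386515407023)))))) (c (a (c (a (l 142976952795414639) (b (l 142958192373612655) (l 142950289633591407))) (a (b (l 142973310661083247) (l 142964308409319535)) (b (l 142950564509532335) (l 142941424818765999)))) (c (a (b (l 142935652380508335) (l 142927749640454319)) (c (l 142911325681434799) (l 142907202511683759))) (a (c (l 142925413176656047) (l 142921083848507567)) (c (l 142902941902995503) (l 142898543855337519))))) (a (c (a (c (l 142962315542986927) (l 142957780056424623)) (c (l 142939431952449711)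 (l 142934896465870895))) (a (c (l 142953175850369199) (l 142948365485899823)) (a (l 142933522065129519) (l 142794090242719791)))) (c (a (a (l 142920053055864879) (l 142908645609586735)) (a (l 142767427080372271) (l 142571714006335535))) (a (c (l 142635623131971631) (l 142344939691540527)) (c (l 142244815394963503) (l 141961347458007087))))))) (l 22))), by decide +kernel⟩

def k34_pm_101_s : ∃ t, chk3 f_pm_101_s t 37 126 3 = true :=
  ⟨(a (c (b (b (l 141509173226242095) (l 141788105725263919)) (a (b (l 142486364334391343) (l 142796289237090351)) (l 141822740377272367))) (b (b (l 140279231802982447) (l 140543046057754671)) (a (l 141336137759096879) (l 140590462427955247)))) (c (b (l 140287340919128111) (a (l 141088197732253743) (l 140426497638350895))) (a (b (l 139461057519484975) (l 139920790916300847)) (l 139108663982342191)))), by decide +kernel⟩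

def k35_pm_101_s : ∃ t, chk3 f_pm_101_s t 37 127 3 = true :=
  ⟨(b (a (c (a (b (l 143112948606779439) (a (l 143113841984831535) (l 143093844591525935))) (b (l 142246945729298479) (a (l 142752721112612911) (l 142327553695629359)))) (a (b (l 141786937553846319) (c (l 142432213478948911) (l 141759243519705135))) (b (l 140993983278710831) (a (l 141468903719026735) (l 141078576932847663))))) (c (a (b (l 141469728345915439) (c (l 142029173672001583) (l 141432413582737455))) (a (b (l 140938182965493807) (l 141180144336289839)) (l 140720273552588847))) (a (c (l 140705911137861679) (l 140105715074793519)) (l 139753458970542127)))) (b (a (c (a (c (a (l 143067250199576751) (l 143045328671260719)) (a (l 143059141294161967) (b (l 143050757519622191) (l 143024781555974191)))) (b (c (l 143025193847767087) (l 142440597217001519)) (c (a (l 143011037657907247) (l 142988772542824495)) (a (l 142808590042775599) (l 142373114680934447))))) (a (b (c (l 142670395190460463) (l 141992821068447791)) (c (a (l 143037425942380591)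 (l 142600576191856687)) (a (l 142377444010623023) (l 141929667817422895)))) (c (a (l 142084699069055023) (l 141670526620106799)) (a (l 141433581778714671) (l 141036864166002735))))) (c (a (c (a (l 142503544291590191) (l 142100023470686255)) (a (l 141892284454666287) (l 141504569008996399))) (a (c (l 141717049712656431) (l 141136713581592623)) (l 141070742999941167))) (a (c (l 141089778257379375) (l 140480854776545327)) (l 140094926122549295)))) (b (a (c (a (c (a (b (l 143038800335028335) (l 143027873937801327)) (b (l 143015848025063599) (l 143004578024997039))) (a (c (l 143025537474199727) (l 143020177353949359)) (a (l 143005608821817391) (l 142994132656078895)))) (c (a (c (l 142989597180444847) (l 142984580657561647)) (a (l 142969805966999599) (l 142958261081767983))) (a (a (l 142982587781578799) (l 142847828884570159)) (c (l 142676167631929391) (l 142359233346846767))))) (a (c (a (a (l 143017634722185263) (l 143006227286638639)) (a (l 142874423327735855) (l 142643182283325487))) (a (c (l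 142714169511264303) (l 142366929931747375)) (c (l 142252924298166319) (l 141915374123712559)))) (c (a (c (l 142471589712576559) (l 142144553662758959)) (l 141882595011575855)) (a (l 141652865716633647) (l 141244740625793071))))) (c (a (c (a (a (l 142820959563612207) (l 142608547653795887)) (c (l 142450011791343663) (l 142150532256448559))) (a (c (l 142252305820794927) (l 141943686551011375)) (l 141700213442428975))) (c (a (l 141907746342715439) (l 141534943026118703)) (l 141141249114718255))) (a (c (l 141466154914873391) (l 140672925753851951)) (l 140269954709471279)))) (l 22)))), by decide +kernel⟩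

def k36_pm_101_s : ∃ t, chk3 f_pm_101_s t 19 30 1 = true :=
  ⟨(l 6), by decide +kernel⟩

def k37_pm_101_s : ∃ t, chk3 f_pm_101_s t 19 62 1 = true :=
  ⟨(a (b (l 6) (a (l 6) (l 6))) (l 6)), by decide +kernel⟩

def k38_pm_101_s : ∃ t, chk3 f_pm_101_s t 38 63 1 = true :=
  ⟨(b (a (c (c (b (l 141136438849175599) (a (l 141890910005215279) (l 141253468019195951))) (b (l 140167493957550127) (a (l 140868089121013807) (l 140279094332211247)))) (c (a (l 139629557797830703) (l 139108938857971759)) (l 138343335111573551))) (c (c (a (a (l 140623447776411695) (l 140356060198830127)) (l 140169967827157039)) (b (l 139180200960557103) (l 139495417271287855))) (a (l 138701982067458095) (l 137759150639792175)))) (c (b (a (c (b (a (l 142242753798045743) (l 141573082371538991)) (a (b (l 142423073741766703) (l 142544913388077103)) (a (l 141959148511264815) (l 141630119551844399)))) (a (b (l 141197530361151535) (a (l 141594385461067823) (l 141257316321673263))) (c (l 140931036182347823) (l 140426085330288687))))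 (c (a (a (l 141213885686775855) (l 140919903623823407)) (l 140504563070566447)) (a (l 140106745861161007) (l 139587020360204335)))) (b (a (c (a (a (c (l 142912562627706927) (l 142648267492737071)) (c (l 142809002357276719) (l 142280480848855087))) (c (a (l 142446438372982831) (l 142101260376473647)) (b (l 141706123310628911) (l 141817586410717231)))) (a (c (a (l 142104146638995503) (l 141749416590802991)) (l 141384378748780591)) (c (l 141249138706399279) (l 140733948650848303)))) (c (a (a (c (l 141772300136431663) (l 141279512676843567)) (l 141218077538385967)) (l 140962509721976879)) (a (l 140390694799310895) (l 139844374856138799)))) (b (a (c (a (c (a (c (l 142889198005158063) (l 142884937396453423)) (c (l 142867207767818287) (l 142861778927992879))) (a (c (l 142880539348779055) (l 142699738393591855)) (c (l 142594597595758639) (l 142326866464555055)))) (c (a (a (l 142715612595142703) (l 142534811639398447)) (a (l 142358339989995567) (l 142186128948920367))) (a (c (l 142233476677828655)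 (l 141971930257768495)) (l 141761786101186607)))) (a (c (a (a (l 142380879983804463) (l 142194787606052911)) (l 141924170299015215)) (a (l 141735191660609583) (l 141385203257262127))) (c (l 141412141381943343) (l 140891797321941039)))) (c (a (c (a (l 141935371531108399) (l 141614657629749295)) (l 141280131198140463)) (c (l 141161108997537839) (l 140689074824200239))) (a (l 140716700070674479) (l 139977003474665519)))) (l 22)))) (b (a (c (a (l 140244184928763951) (l 139662405643714607)) (l 138891854010007599)) (c (l 138890067299090479) (l 137925657985253423))) (a (a (c (b (l 140749204474658863) (b (c (l 141010201003884591) (l 140460032771948591)) (l 22))) (l 140117672218624047)) (c (b (l 139956112750116911) (l 140698214465159215)) (l 139004210387075119))) (c (b (l 139142405273157679) (l 140036995502145583)) (l 138244310270804015)))))), by decide +kernel⟩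

def k39_pm_101_s : ∃ t, chk3 f_pm_101_s t 39 63 1 = true :=
  ⟨(b (a (a (a (c (l 140130935103225903) (l 137487158896754735)) (l 6)) (l 6)) (l 6)) (a (c (b (c (a (l 139993496138809391) (l 139542627562799151)) (l 138901406008623151)) (c (b (a (l 140247139781509167) (l 139758681647530031)) (a (b (l 140377500656533551) (l 22)) (l 139917973428912175))) (b (l 139114436435755055) (l 139449306479738927)))) (b (l 138301965770178607) (c (l 138293169821761583) (l 137386965917335599)))) (c (a (b (l 138745412798709807) (c (b (l 139328222759288879) (l 139639796898545711)) (l 138555815702593583))) (c (l 138851653088657455) (l 138057324511526959))) (a (l 138440298002366511) (l 136846280953298991))))), by decide +kernel⟩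

def k40_pm_101_s : ∃ t, chk3 f_pm_101_s t 5 3 1 = true :=
  ⟨(b (l 6) (b (l 6) (b (l 6) (a (b (l 6) (a (a (b (l 6) (c (b (l 6) (c (c (l 138178751854182447) (l 137822784888750127)) (l 137285742080196655))) (l 136500003366354991))) (l 6)) (l 6))) (l 6))))), by decide +kernel⟩

def k41_pm_101_s : ∃ t, chk3 f_pm_101_s t 3 1 1 = true :=
  ⟨(l 6), by decide +kernel⟩

theorem s42_pm_101_s : ∃ t, chk3 f_pm_101_s t 19 63 1 = true := ex3_a k38_pm_101_s k39_pm_101_s

theorem s43_pm_101_s : ∃ t, chk3 f_pm_101_s t 19 31 1 = true := ex3_b k37_pm_101_s s42_pm_101_s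

theorem s44_pm_101_s : ∃ t, chk3 f_pm_101_s t 19 15 1 = true := ex3_b k36_pm_101_s s43_pm_101_s

theorem s45_pm_101_s : ∃ t, chk3 f_pm_101_s t 37 63 3 = true := ex3_b k34_pm_101_s k35_pm_101_s

theorem s46_pm_101_s : ∃ t, chk3 f_pm_101_s t 37 127 2 = true := ex3_b k32_pm_101_s k33_pm_101_s

theorem s47_pm_101_s : ∃ t, chk3 f_pm_101_s t 37 63 2 = true := ex3_b k31_pm_101_s s46_pm_101_s

theorem s48_pm_101_s : ∃ t, chk3 f_pm_101_s t 37 63 1 = true := ex3_c s47_pm_101_s s45_pm_101_s

theorem s49_pm_101_s : ∃ t, chk3 f_pm_101_s t 73 127 1 = true := ex3_b k29_pm_101_s k30_pm_101_s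

theorem s50_pm_101_s : ∃ t, chk3 f_pm_101_s t 73 63 1 = true := ex3_b k28_pm_101_s s49_pm_101_s

theorem s51_pm_101_s : ∃ t, chk3 f_pm_101_s t 72 63 1 = true := ex3_c k26_pm_101_s k27_pm_101_s

theorem s52_pm_101_s : ∃ t, chk3 f_pm_101_s t 36 63 1 = true := ex3_a s51_pm_101_s s50_pm_101_s

theorem s53_pm_101_s : ∃ t, chk3 f_pm_101_s t 18 63 1 = true := ex3_a s52_pm_101_s s48_pm_101_s

theorem s54_pm_101_s : ∃ t, chk3 f_pm_101_s t 18 31 1 = true := ex3_b k25_pm_101_s s53_pm_101_s

theorem s55_pm_101_s : ∃ t, chk3 f_pm_101_s t 18 15 1 = true := ex3_b k24_pm_101_s s54_pm_101_s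

theorem s56_pm_101_s : ∃ t, chk3 f_pm_101_s t 9 15 1 = true := ex3_a s55_pm_101_s s44_pm_101_s

theorem s57_pm_101_s : ∃ t, chk3 f_pm_101_s t 9 7 1 = true := ex3_b k23_pm_101_s s56_pm_101_s

theorem s58_pm_101_s : ∃ t, chk3 f_pm_101_s t 284 255 1 = true := ex3_c k19_pm_101_s k20_pm_101_s

theorem s59_pm_101_s : ∃ t, chk3 f_pm_101_s t 142 255 1 = true := ex3_a s58_pm_101_s k21_pm_101_s

theorem s60_pm_101_s : ∃ t, chk3 f_pm_101_s t 71 255 1 = true := ex3_a s59_pm_101_s k22_pm_101_s

theorem s61_pm_101_s : ∃ t, chk3 f_pm_101_s t 71 127 1 = true := ex3_b k18_pm_101_s s60_pm_101_s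

theorem s62_pm_101_s : ∃ t, chk3 f_pm_101_s t 71 63 1 = true := ex3_b k17_pm_101_s s61_pm_101_s

theorem s63_pm_101_s : ∃ t, chk3 f_pm_101_s t 70 63 1 = true := ex3_c k15_pm_101_s k16_pm_101_s

theorem s64_pm_101_s : ∃ t, chk3 f_pm_101_s t 35 63 1 = true := ex3_a s63_pm_101_s s62_pm_101_s

theorem s65_pm_101_s : ∃ t, chk3 f_pm_101_s t 35 31 1 = true := ex3_b k14_pm_101_s s64_pm_101_s

theorem s66_pm_101_s : ∃ t, chk3 f_pm_101_s t 34 31 1 = true := ex3_b k12_pm_101_s k13_pm_101_s

theorem s67_pm_101_s : ∃ t, chk3 f_pm_101_s t 17 31 1 = true := ex3_a s66_pm_101_s s65_pm_101_s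

theorem s68_pm_101_s : ∃ t, chk3 f_pm_101_s t 17 15 1 = true := ex3_b k11_pm_101_s s67_pm_101_s

theorem s69_pm_101_s : ∃ t, chk3 f_pm_101_s t 32 124 1 = true := ex3_b k6_pm_101_s k7_pm_101_s

theorem s70_pm_101_s : ∃ t, chk3 f_pm_101_s t 16 124 1 = true := ex3_a s69_pm_101_s k8_pm_101_s

theorem s71_pm_101_s : ∃ t, chk3 f_pm_101_s t 16 62 1 = true := ex3_b s70_pm_101_s k9_pm_101_s

theorem s72_pm_101_s : ∃ t, chk3 f_pm_101_s t 16 31 1 = true := ex3_b s71_pm_101_s k10_pm_101_s

theorem s73_pm_101_s : ∃ t, chk3 f_pm_101_s t 16 61 1 = true := ex3_c k4_pm_101_s k5_pm_101_s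

theorem s74_pm_101_s : ∃ t, chk3 f_pm_101_s t 16 30 1 = true := ex3_b k3_pm_101_s s73_pm_101_s

theorem s75_pm_101_s : ∃ t, chk3 f_pm_101_s t 16 15 1 = true := ex3_b s74_pm_101_s s72_pm_101_s

theorem s76_pm_101_s : ∃ t, chk3 f_pm_101_s t 8 15 1 = true := ex3_a s75_pm_101_s s68_pm_101_s

theorem s77_pm_101_s : ∃ t, chk3 f_pm_101_s t 8 7 1 = true := ex3_b k2_pm_101_s s76_pm_101_s

theorem s78_pm_101_s : ∃ t, chk3 f_pm_101_s t 4 7 1 = true := ex3_a s77_pm_101_s s57_pm_101_s

theorem s79_pm_101_s : ∃ t, chk3 f_pm_101_s t 4 3 1 = true := ex3_b k1_pm_101_s s78_pm_101_s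

theorem s80_pm_101_s : ∃ t, chk3 f_pm_101_s t 2 3 1 = true := ex3_a s79_pm_101_s k40_pm_101_s

theorem s81_pm_101_s : ∃ t, chk3 f_pm_101_s t 2 1 1 = true := ex3_b k0_pm_101_s s80_pm_101_s

theorem s82_pm_101_s : ∃ t, chk3 f_pm_101_s t 1 1 1 = true := ex3_a s81_pm_101_s k41_pm_101_s

theorem c_pm_101_s : CertNE 536870912 536870912 536870912 536870912 966367641 24778659 3 eng mog cd0q1 cd0q1 pd0 false true false .npn 1 0 1
    ndB0q1 ndB0q1 pcB0 cut_pm_101_s xt_pm_101_s :=
  certNE2 (fam := false) (s1 := true) (s2 := false) (a := 1) (b := 0) (c := 1) (cn := .npn) (n1 := ndB0q1) (n2 := ndB0q1) (pc := pcB0) (cut := cut_pm_101_s) (xt := xt_pm_101_s) (P1 := 536870912) (W1 := 536870912) (P2 := 536870912) (W2 := 536870912) (P3 := 966367641) (W3 := 24778659) (N0 := 3) (En := eng) (mo := mog) (C1 := cd0q1) (C2 := cd0q1) (C3 := pd0)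
    rfl (fun _ => rfl) s82_pm_101_s

noncomputable def cut_pm_101_t : Cut := Cut.of [[⟨3, 0, 0, 2845415833⟩], [⟨0, 1, 0, 26843545⟩, ⟨1, 0, 0, 26843545⟩, ⟨2, 1, 0, 26843545⟩], [⟨0, 0, 1, 46137344⟩, ⟨1, 1, 2, 46137344⟩, ⟨2, 1, 0, 1572864⟩, ⟨0, 0, 0, 1013612281⟩, ⟨0, 1, 0, 128849018⟩, ⟨1, 0, 0, 128849018⟩, ⟨1, 1, 0, 1013612281⟩]]

noncomputable def f_pm_101_t : ℕ → ℕ → ℕ → ℕ → Bool := onCell 536870912 536870912 536870912 536870912 966367641 24778659
    (rowNE 3 eng mog cd0q1 cd0q1 pd0 0 false true false .npn 1 0 1 (qsf 536870912 536870912 536870912 536870912 0) ndB0q1 ndB0q1 pcB0 cut_pm_101_t Ext.none)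

def k0_pm_101_t : ∃ t, chk3 f_pm_101_t t 4 4 1 = true :=
  ⟨(a (b (l 4) (a (b (l 4) (a (l 4) (b (l 4) (a (l 4) (l 113514539159))))) (b (a (l 4) (b (l 4) (l 115661982119))) (a (b (l 116198852695) (b (l 16731992) (l 16761168))) (b (b (l 16731200) (l 16761312)) (l 16733112)))))) (b (a (a (l 4) (l 1)) (l 1)) (b (a (a (b (l 114588239959) (a (l 16730864) (l 16760656))) (b (a (l 16730808) (l 1)) (l 16729096))) (b (l 1) (a (l 216392147447) (l 1)))) (a (a (b (l 16731304) (c (l 16691944) (l 16691856))) (b (l 16624104) (l 16605936))) (b (a (l 16556920) (l 16595432)) (a (l 16601216) (l 16553104))))))), by decide +kernel⟩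

def k1_pm_101_t : ∃ t, chk3 f_pm_101_t t 4 5 1 = true :=
  ⟨(b (a (b (a (b (a (a (l 4) (l 112977669895)) (b (l 16754048) (l 16760504))) (a (b (l 16752960) (l 16759376)) (l 16734976))) (b (a (l 16734320) (c (l 16695728) (l 16696256))) (a (c (l 16698792) (l 16700008)) (l 16619480)))) (a (b (a (l 16735112) (l 16702136)) (a (l 16704112) (l 16650544))) (a (b (l 16625000) (l 16636752)) (b (l 16629384) (l 16599688))))) (b (a (a (b (l 16634072) (l 16620912)) (b (l 16611464) (l 16577760))) (b (a (l 16565160) (l 16516096)) (a (l 16531888) (l 16483248)))) (a (b (a (l 16589344) (l 16546696)) (a (l 16560184) (l 16518120))) (a (b (l 16501344) (l 16473384)) (b (l 16453216) (l 16425888)))))) (a (b (a (a (b (l 16675112) (l 16626944)) (c (l 16545512) (l 16587712))) (b (a (l 16608664) (l 16572160)) (a (l 16582488) (l 16546600)))) (a (a (c (l 16549056) (l 16566288)) (b (l 16591136) (l 16567552))) (b (a (l 16558008) (l 16522800)) (a (l 16535056) (l 16500576))))) (b (a (a (b (l 16533272) (l 16508400)) (b (l 16491872)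 (l 16467768))) (a (a (l 16447144) (l 16424672)) (l 16536776))) (b (a (a (l 16485368) (l 16445576)) (l 16465448)) (a (a (l 16463968) (l 16425096)) (l 16404536)))))), by decide +kernel⟩

def k2_pm_101_t : ∃ t, chk3 f_pm_101_t t 5 2 1 = true :=
  ⟨(b (a (b (l 1) (b (l 1) (a (a (b (l 1) (l 16506944)) (l 1)) (l 1)))) (l 1)) (b (a (b (a (a (b (l 16466120) (l 16431808)) (b (l 16419288) (l 16380032))) (b (l 1) (a (l 16332688) (l 1)))) (a (a (b (l 16402272) (l 16375576)) (b (l 16348528) (l 16322440))) (a (b (l 16295072) (l 16266488)) (b (l 16247416) (l 6))))) (b (l 1) (a (l 6) (l 1)))) (a (b (a (a (l 16445768) (l 16414872)) (l 6)) (l 6)) (l 6)))), by decide +kernel⟩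

def k3_pm_101_t : ∃ t, chk3 f_pm_101_t t 2 3 1 = true :=
  ⟨(b (a (b (a (b (a (a (l 16585472) (l 16534728)) (c (l 16536912) (a (l 16497496) (l 16463440)))) (a (b (l 16518936) (l 16499432)) (b (l 16457992) (l 16439920)))) (b (a (a (b (l 16444008) (l 16425272)) (l 16439144)) (l 6)) (l 6))) (a (b (a (b (l 16481840) (l 6)) (l 6)) (l 6)) (l 6))) (l 6)) (l 6)), by decide +kernel⟩

def k4_pm_101_t : ∃ t, chk3 f_pm_101_t t 3 1 1 = true :=
  ⟨(b (a (b (l 1) (l 6)) (l 1)) (l 6)), by decide +kernel⟩

theorem s5_pm_101_t : ∃ t, chk3 f_pm_101_t t 4 2 1 = true := ex3_b k0_pm_101_t k1_pm_101_t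

theorem s6_pm_101_t : ∃ t, chk3 f_pm_101_t t 2 2 1 = true := ex3_a s5_pm_101_t k2_pm_101_t

theorem s7_pm_101_t : ∃ t, chk3 f_pm_101_t t 2 1 1 = true := ex3_b s6_pm_101_t k3_pm_101_t

theorem s8_pm_101_t : ∃ t, chk3 f_pm_101_t t 1 1 1 = true := ex3_a s7_pm_101_t k4_pm_101_t

theorem c_pm_101_t : CertNE 536870912 536870912 536870912 536870912 966367641 24778659 3 eng mog cd0q1 cd0q1 pd0 false true false .npn 1 0 1
    ndB0q1 ndB0q1 pcB0 cut_pm_101_t Ext.none :=
  certNE0 (fam := false) (s1 := true) (s2 := false) (a := 1) (b := 0) (c := 1) (cn := .npn) (n1 := ndB0q1) (n2 := ndB0q1) (pc := pcB0) (cut := cut_pm_101_t) (xt := Ext.none) (P1 := 536870912) (W1 := 536870912) (P2 := 536870912) (W2 := 536870912) (P3 := 966367641) (W3 := 24778659) (N0 := 3) (En := eng) (mo := mog) (C1 := cd0q1) (C2 := cd0q1) (C3 := pd0)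
    rfl s8_pm_101_t

end Pool.Agent.Strip051.G.I9000_9231.Tab.CS.BB00

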