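import Pool.Agent.Strip051.G.I9000_9231.Tab
import Pool.Agent.Strip051.PB.StripB
import Pool.Agent.Strip051.PB.ExtD3

/-! # Strips, near vertex: certificates 4 (generated) -/

set_option linter.all false
set_option maxRecDepth 100000

namespace Pool.Agent.Strip051.G.I9000_9231.Tab.CS.BB00

open Pool.Agent.Strip051.PB Pool.Agent.Strip051.PB.T
open Pool.Agent.Strip051.G.I9000_9231.Tab

noncomputable def cut_pm_102_s : Cut := Cut.of [[⟨4, 0, 0, 1449551462⟩], [⟨0, 1, 0, 33554432⟩, ⟨1, 0, 0, 33554432⟩, ⟨2, 1, 0, 33554432⟩], [⟨0, 0, 1, 46137344⟩, ⟨1, 1, 2, 46137344⟩, ⟨2, 1, 0, 1572864⟩, ⟨0, 0, 0, 1013612281⟩, ⟨0, 1, 0, 128849018⟩, ⟨1, 0, 0, 128849018⟩, ⟨1, 1, 0, 1013612281⟩]]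

noncomputable def xt_pm_102_s : Ext := extD3 3 ⟨4, 1, 1, 5, 37, 10, 843, 1000, 41, 100, 1, 8⟩ eng cd0q1 cd0q2 pd0 false true false .npp 1 0 2 rfl ndB0q1 ndB0q2 pcB0

noncomputable def f_pm_102_s : ℕ → ℕ → ℕ → ℕ → Bool := onCell 536870912 536870912 0 536870912 966367641 24778659
    (rowNE 3 eng mog cd0q1 cd0q2 pd0 0 false true false .npp 1 0 2 (qsf 536870912 536870912 0 536870912 0) ndB0q1 ndB0q2 pcB0 cut_pm_102_s xt_pm_102_s)

def k0_pm_102_s : ∃ t, chk3 f_pm_102_s t 2 2 1 = true :=
  ⟨(a (a (l 2) (b (l 2) (a (l 2) (a (l 2) (b (l 2) (c (l 16533072) (l 203573825639))))))) (a (b (a (a (l 2) (b (l 3) (b (b (l 103246865751) (l 16753872)) (l 16677344)))) (b (l 3) (b (a (b (l 3) (l 105931220951)) (l 3)) (a (c (l 16744528) (l 16737488)) (a (l 48486045783) (l 85530118567)))))) (b (a (a (c (l 231491685447) (l 457514048375)) (b (c (l 16673672) (l 16628144)) (l 16584192))) (a (b (c (l 16696024) (l 16677888)) (c (l 16648616) (l 16619008))) (b (c (l 16720504) (l 16708512)) (c (l 16671368) (l 16627248)))))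 (a (b (a (l 16540104) (l 16549320)) (c (l 16530992) (a (l 16457088) (l 16479056)))) (a (b (l 16571512) (l 16519912)) (b (l 16585440) (l 16532472)))))) (b (b (l 3) (a (b (l 3) (a (b (l 3) (l 116131770935)) (l 3))) (l 3))) (b (a (b (a (b (l 16736224) (l 16729680)) (b (a (l 16774136) (l 16767360)) (a (l 16752400) (l 16766336)))) (a (c (l 16696168) (l 16679128)) (b (l 16731456) (l 16682072)))) (b (a (c (l 132237876423) (l 135459088519)) (l 3)) (a (b (a (l 16754792) (l 16747272)) (l 16712744)) (b (a (l 102173161559) (l 3)) (a (l 16757520) (l 16736136)))))) (c (a (b (a (l 16646504) (l 16671704)) (a (l 16597496) (l 16621376))) (b (a (l 16677592) (l 16726832)) (a (l 16646952) (l 16673952)))) (a (b (a (l 16597504) (l 16607824)) (a (l 16558640) (l 16546776))) (b (a (l 16661544) (l 16695712)) (a (l 16620256) (l 16653176))))))))), by decide +kernel⟩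

def k1_pm_102_s : ∃ t, chk3 f_pm_102_s t 2 3 1 = true :=
  ⟨(b (a (l 6) (a (b (a (b (c (l 16487680) (l 16287456)) (l 6)) (b (c (l 16519312) (a (l 16447408) (l 16472904))) (a (b (l 16421760) (l 6)) (c (l 16483536) (l 16417680))))) (l 6)) (b (a (b (a (l 16480608) (c (l 16572128) (l 16508184))) (a (c (l 16503064) (l 16444064)) (c (l 16524464) (l 16451048)))) (b (a (c (l 16596384) (l 16559504)) (c (l 16621896) (l 16591176))) (a (c (l 16547288) (l 16501280)) (c (l 16570872) (l 16531728))))) (a (b (a (b (b (l 16443208) (l 6)) (l 6)) (b (l 16460928) (c (l 16465760) (l 16405080)))) (l 6)) (b (a (b (l 16486056) (a (l 16452760) (l 16466240))) (c (l 16516696) (l 16474008))) (b (a (c (l 16459816) (l 16408848)) (c (l 16467400) (l 16431104))) (a (l 6) (l 16423760)))))))) (a (l 6) (l 6))), by decide +kernel⟩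

def k2_pm_102_s : ∃ t, chk3 f_pm_102_s t 3 2 1 = true :=
  ⟨(b (l 3) (a (a (b (a (a (b (l 3) (c (l 163913370535) (l 173577042263))) (l 3)) (l 3)) (a (b (a (b (a (l 16760464) (l 91435743623)) (a (l 16731320) (l 16747768))) (b (a (l 131164197847) (l 3)) (a (l 44191116407) (l 93583225255)))) (a (c (b (l 16715712) (l 16688576)) (b (l 16703624) (l 16671408))) (b (a (l 16734488) (l 16751352)) (a (l 16704392) (l 16699848))))) (b (a (a (l 168208336423) (l 3)) (l 3)) (a (b (a (b (l 16752128) (l 16760968)) (b (l 3) (l 16742560))) (a (l 16737672) (c (l 16756208) (l 16753408)))) (b (l 3) (a (c (l 75866506039) (l 75329626583)) (b (l 3) (l 120426797495)))))))) (l 3)) (l 3))), by decide +kernel⟩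

def k3_pm_102_s : ∃ t, chk3 f_pm_102_s t 12 6 1 = true :=
  ⟨(b (a (c (b (a (l 16648216) (b (l 16688552) (l 16659344))) (a (l 16592408) (l 16614088))) (b (a (l 16624168) (b (l 16674352) (l 16642488))) (a (l 16563232) (b (l 16611064) (l 16579856))))) (b (a (b (c (l 16696936) (l 16689512)) (c (l 16687448) (l 16677424))) (b (a (l 16730064) (b (l 16749080) (l 16750960))) (a (l 16686480) (c (l 16728568) (l 16722640))))) (a (b (c (l 16656304) (l 16644048)) (c (l 16624120) (l 16609384))) (b (a (l 16673728) (l 16670120)) (c (l 16654176) (l 16640776)))))) (a (b (a (c (l 16530976) (l 16503576)) (c (l 16549648) (l 16511520))) (b (a (c (l 16479000) (l 16456896)) (l 16485640)) (a (b (l 16441920) (l 16421536)) (a (l 16419920) (l 16406608))))) (b (a (b (c (l 16590544) (l 16573616)) (c (l 16555072) (l 16536288))) (b (c (l 16619384) (l 16603048)) (c (l 16582696) (l 16563712)))) (a (b (c (l 16516472) (l 16496520)) (c (l 16473712) (l 16453512))) (b (c (l 16542848) (l 16521848)) (c (l 16498824) (l 16476624))))))),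 by decide +kernel⟩

def k4_pm_102_s : ∃ t, chk3 f_pm_102_s t 13 12 1 = true :=
  ⟨(a (a (b (b (a (c (l 85530180711) (l 89825138503)) (l 119353042695)) (a (b (l 16753368) (l 16715024)) (b (a (l 16768392) (l 16774896)) (l 16756064)))) (b (a (c (l 16713616) (l 16705736)) (c (l 16732200) (l 16726304))) (a (l 16652568) (c (l 16697688) (l 16687648))))) (b (b (l 3) (a (b (l 115058101223) (a (l 16771352) (l 16775296))) (l 3))) (c (b (a (l 16751680) (b (l 16753448) (l 16763320))) (a (l 16716840) (l 16736936))) (b (a (l 16748152) (b (l 108615646071) (l 16761288))) (a (l 16708776) (l 16731248)))))) (b (l 3) (a (b (a (b (l 3) (a (l 16753936) (l 16773848))) (l 3)) (a (b (a (l 16760368) (l 16755672)) (c (l 16748936) (l 16744744))) (b (a (l 103783821223) (l 3)) (a (l 16764200) (l 82845852151))))) (b (l 3) (a (b (l 3) (l 119889937911)) (l 3)))))), by decide +kernel⟩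

def k5_pm_102_s : ∃ t, chk3 f_pm_102_s t 13 13 1 = true :=
  ⟨(a (b (a (b (c (l 16652736) (l 16638144)) (c (l 16615104) (l 16597008))) (c (b (a (l 16680584) (l 16700448)) (a (l 16642464) (l 16662136))) (b (a (l 16668168) (l 16689976)) (a (l 16625872) (l 16647024))))) (a (b (c (l 16595304) (l 16553280)) (c (l 16529424) (l 16443208))) (b (c (b (l 16621624) (l 16599992)) (l 16601504)) (c (l 16607496) (l 142703930168148015))))) (b (a (c (b (a (l 16721280) (l 16748240)) (a (l 16703848) (l 16704608))) (b (a (l 16713184) (b (l 16748512) (l 16726992))) (a (l 16669672) (l 16693792)))) (b (a (b (a (b (l 16773176) (l 16763496)) (l 93046400759)) (a (l 16748304) (l 16760632))) (b (l 123111171239) (a (b (l 16754632) (l 16768048)) (l 121500563287)))) (a (c (b (l 16737056) (l 16717376)) (b (l 16730632) (l 16707968))) (b (a (l 16752568) (c (l 16766224) (l 16764304))) (c (l 16740832) (l 16734744)))))) (a (b (c (a (l 16641496) (l 16663336)) (a (l 16623560) (l 16668232))) (c (b (l 16618856) (l 16595312)) (a (l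 16574016) (l 16597360)))) (b (c (a (l 16707176) (b (l 16720496) (l 16699328))) (a (b (l 16684568) (l 16660368)) (b (l 16669336) (l 16687048)))) (c (a (l 16641600) (l 16686936)) (a (l 16643368) (a (l 16642256) (l 16655992)))))))), by decide +kernel⟩

def k6_pm_102_s : ∃ t, chk3 f_pm_102_s t 6 14 1 = true :=
  ⟨(a (b (a (a (c (l 16372184) (l 16360424)) (b (c (l 16408512) (l 16392440)) (l 16350024))) (b (a (c (b (l 16438752) (l 16414064)) (b (l 16418920) (l 16394648))) (b (l 16450928) (c (l 16437456) (l 16351736)))) (a (c (l 16374432) (l 16355704)) (a (l 16378984) (b (l 16404992) (l 16376712)))))) (a (l 6) (b (a (c (l 16317568) (l 16299144)) (c (l 16338488) (l 16315632))) (a (l 6) (c (l 16274296) (l 16249648)))))) (b (a (b (a (c (l 16480144) (l 16392112)) (c (l 16557984) (l 142584495502377007))) (b (a (a (l 16460608) (l 16434216)) (a (l 16451680) (l 16470936))) (a (a (l 16390144) (l 16468456)) (a (c (l 16438208) (l 16408496)) (l 16441880))))) (a (b (c (a (l 16547008) (l 16569520)) (a (l 16520600)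 (l 16543640))) (c (a (l 16493696) (l 16516920)) (a (l 16462784) (l 16485656)))) (b (c (a (l 16593456) (l 16618704)) (a (l 16568608) (l 16595432))) (c (a (l 16541840) (l 16568360)) (a (l 16510704) (l 16537888)))))) (a (b (a (c (l 16366736) (l 16339128)) (c (b (l 142342946396176431) (l 16387456)) (b (l 142272646306021423) (l 16354152)))) (a (c (l 16301672) (l 16271424)) (c (l 141014392587730991) (l 16301872)))) (b (a (c (b (l 142939087946711087) (l 142707090976047151)) (b (l 142288245710143535) (l 141827962589003823))) (c (b (l 142481210180223023) (l 142518662452445231)) (b (l 16477968) (l 142485127048544303)))) (a (c (l 141243503419179055) (l 140980720052944943)) (b (c (c (l 141858749241819183) (l 141706123061755951)) (l 142398884037361711)) (c (l 141341085163307055) (l 16376752)))))))), by decide +kernel⟩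

def k7_pm_102_s : ∃ t, chk3 f_pm_102_s t 6 15 1 = true :=
  ⟨(a (l 6) (b (a (b (a (c (l 16230168) (l 16194504)) (c (l 139896532714504239) (l 16224200))) (a (l 6) (c (l 138753452783026223) (l 138260321710833711)))) (c (b (a (l 140195256380882991) (c (l 140774011976089647) (l 140496385225195567))) (a (l 139132165971034159) (c (l 139890485538160687) (l 139504900474929199)))) (b (a (l 139768164728078383) (l 140109906797903919)) (a (l 138520493737459759) (l 138954045037150255))))) (a (b (a (l 6) (b (l 137576219371438127) (l 6))) (l 6)) (a (b (c (b (l 138343953417257007) (l 137829794217705519)) (l 137264370242912303)) (a (l 6) (c (b (l 137520968858189871) (l 6)) (l 136175303827341359)))) (b (c (b (l 139022833287888943) (l 138600895682609199)) (l 137998912865452079)) (b (c (c (l 138515958366912559) (l 137909921188937775)) (l 137008115329990703)) (c (c (a (l 137904011364204591) (l 138549974534144047)) (l 137529352672051247)) (l 136503164539945007)))))))), by decide +kernel⟩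

def k8_pm_102_s : ∃ t, chk3 f_pm_102_s t 7 6 1 = true :=
  ⟨(a (b (l 3) (a (a (b (b (l 3) (a (b (a (b (l 16764992) (l 71571574551)) (l 122574307335)) (a (c (l 16758832) (l 16755616)) (b (l 83919604551) (l 16765104)))) (b (l 3) (a (b (l 16763968) (l 91972669479)) (l 3))))) (b (a (c (b (l 16744848) (l 16744976)) (b (l 16739296) (a (l 16707968) (l 16722336)))) (b (a (c (l 16763504) (l 16761064)) (c (l 77477155815) (l 81235247591))) (c (l 16749392) (a (l 16737016) (l 16751984))))) (a (b (c (l 16702408) (l 16690160)) (c (l 16680056) (l 16664384))) (b (c (l 16749232) (a (l 16712184) (l 16727272))) (c (l 16706448) (l 16694152)))))) (b (l 3) (a (c (b (b (l 157470939191) (a (l 16768656) (l 90898930375))) (b (a (l 16748008) (l 16761256)) (l 16733416))) (b (b (l 160692165079) (a (l 38285579303) (l 95730764567))) (b (a (l 16742624) (l 16758200)) (l 16735656)))) (b (l 3) (c (b (a (l 55465450503) (l 107005057271)) (a (l 16753744) (l 16767160))) (b (a (b (l 16765008) (l 16767760)) (l 111300025383)) (a (l 16749024)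 (b (l 16771200) (l 16758856))))))))) (b (l 3) (a (b (l 3) (a (b (l 3) (a (b (l 131164251143) (a (l 16771536) (l 16765640))) (l 176261421239))) (l 3))) (l 3))))) (l 3)), by decide +kernel⟩

def k9_pm_102_s : ∃ t, chk3 f_pm_102_s t 28 14 1 = true :=
  ⟨(b (a (b (a (c (l 16708024) (b (l 16637752) (l 16610224))) (c (b (l 16684000) (l 16660992)) (b (l 16667808) (l 16640648)))) (c (a (l 143037631950422063) (l 143194793496461359)) (a (l 16588096) (l 143238842582335535)))) (b (a (b (c (l 16711672) (l 16699216)) (c (l 16689504) (l 16672544))) (b (c (l 16739504) (l 16742080)) (c (l 16718232) (l 16726480)))) (a (c (b (l 16667008) (l 16644352)) (l 143418406728220719)) (c (b (l 16696840) (l 16675536)) (b (l 16678864) (l 16651736)))))) (a (b (c (a (l 142480798012538927) (l 142684138966433839)) (a (l 142250518880337967) (l 142429258306175023))) (c (b (c (l 142247701442756655) (l 142062845997940783)) (c (a (l 141802811465121839) (l 142119333451989039)) (l 142077002240163887))) (b (l 142705785391874095) (a (l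 141264050624299055) (l 141533705923919919))))) (b (c (a (l 142910775868506159) (l 143144834518466607)) (a (l 142645175016177711) (l 142884799949094959))) (a (c (l 142430907673444399) (l 141991240310865967)) (b (l 142633630265737263) (l 142380673781973039)))))), by decide +kernel⟩

def k10_pm_102_s : ∃ t, chk3 f_pm_102_s t 29 14 1 = true :=
  ⟨(b (a (b (a (b (a (c (l 16760096) (l 16756200)) (b (a (l 16774848) (l 16765112)) (c (l 16768472) (l 16766328)))) (c (l 16762224) (a (l 16730616) (l 16747368)))) (b (a (c (l 106468185431) (l 110226282327)) (l 3)) (a (b (a (l 16767304) (l 16774552)) (l 16759848)) (b (l 115594993895) (c (l 16764296) (l 68350360023)))))) (a (c (b (l 16747224) (l 16706384)) (b (l 16734168) (l 16687112))) (b (c (a (l 16747448) (l 16760856)) (a (l 16738880) (l 16755728))) (c (l 16756800) (a (l 16713656) (l 16731096)))))) (b (a (b (l 3) (a (l 180019516935) (l 3))) (l 3)) (a (b (a (b (a (l 16769232) (l 107541937511)) (c (l 16769024) (l 16766136))) (b (l 3) (a (l 84993359975) (l 139217320599))))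 (a (c (l 16756112) (l 16748120)) (b (a (l 16767920) (l 47949267879)) (l 16766808)))) (b (l 3) (a (b (a (l 107541936743) (l 3)) (a (l 16771688) (c (l 16776408) (l 16765688)))) (b (l 3) (l 182703874023))))))) (a (b (a (c (a (l 143321855899484207) (l 143438610324553775)) (b (l 16660944) (l 16634976))) (b (c (l 16718552) (l 16718688)) (a (l 143351680171737135) (l 143483896481415215)))) (c (b (l 143269972698398767) (l 143145109470494767)) (b (l 142896550976454703) (l 142645381283725359)))) (b (a (b (a (c (l 16740232) (l 16724576)) (c (l 16753336) (l 16741744))) (a (l 602154328107153652721711) (c (l 16740872) (l 16720224)))) (b (a (c (l 16764976) (l 16769808)) (b (a (b (l 16766192) (l 16773040)) (l 108615678663)) (c (l 16771840) (l 16767936)))) (c (a (l 16753696) (l 16764560)) (a (l 16737496) (l 16763976))))) (a (b (c (l 602416906049440733785199) (l 601089028402632203561007)) (b (l 143437923217866799) (l 143389544674803759))) (c (b (a (l 16746368) (l 16758848)) (l 602878651350011327819055)) (b (a (l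 16719192) (l 16736584)) (l 602037306507778186258543))))))), by decide +kernel⟩

def k11_pm_102_s : ∃ t, chk3 f_pm_102_s t 28 15 1 = true :=
  ⟨(a (b (b (a (c (l 141073354143727663) (l 140476456591097903)) (c (l 141482784959856687) (l 140832148682686511))) (c (a (l 140270916656234543) (l 140792497588355119)) (l 140177320603025455))) (b (a (c (l 140459207920926767) (l 138426073268387887)) (b (c (l 140355579094155311) (l 16294904)) (c (l 140125368816795695) (l 138794959500591151)))) (b (a (c (l 139140481105068079) (l 137757089064255535)) (c (b (l 140537273345458223) (a (l 139714563723427887) (l 140151482238844975))) (a (l 138263139386359855) (l 138625634694660143)))) (b (a (c (a (l 138786438303547439) (l 139198342925762607)) (l 137463244539199535)) (c (a (c (l 140055618556051503) (l 139239849497903151)) (l 140814900064895023)) (l 139641377255948335))) (a (c (a (l 138696484498014255) (c (a (l 139428553221210159) (l 139667078568984623)) (l 138717031629094959))) (a (l 16150336) (l 137468673388183599)))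 (b (c (c (l 140801018765721647) (l 139394674515132463)) (l 138087698549129263)) (l 22))))))) (c (b (b (b (a (a (l 141965882846265391) (l 142165650410815535)) (c (l 142629438265557039) (l 142295255376986159))) (c (l 142223443520241711) (l 141813669195382831))) (a (l 141372696245305391) (l 142898268840624175))) (b (b (a (l 141066413497450543) (l 141829680875274287)) (a (b (l 140959829577809967) (l 140903204724834351)) (l 142149501324492847))) (b (a (c (l 141792778426826799) (l 140430002331320367)) (b (l 142001135989325871) (c (l 142336074821074991) (l 141422243049439279)))) (b (a (c (a (l 141013087208914991) (l 141553428557594671)) (l 140560019583270959)) (c (a (l 142143522816442415) (l 142788730105626671)) (a (l 141189902460813359) (l 141794152933900335)))) (b (a (c (a (l 141033153305591855) (l 142149707515838511)) (l 141458045753360431)) (c (a (l 142870918586384431) (c (l 142965270478143535) (l 142672388014063663))) (a (l 141421418392453167) (l 142609166078853167)))) (l 22)))))) (b (b (b (c (l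 141773605712150575) (l 141469728119554095)) (l 141227354498826287)) (a (l 140371728152526895) (l 140933922306310191))) (a (b (b (l 139809946349305903) (l 139483734947840047)) (b (l 139921340538880047) (c (b (l 139480161560690735) (a (l 139174840875892783) (l 139683571258114095))) (l 138877354139140143)))) (b (b (l 140486695889469487) (l 140245146898169903)) (b (c (l 140520299747328047) (l 139638285101547567)) (b (c (l 140869119862079535) (l 139529433440862255)) (b (c (a (l 140237106745524271) (l 140838814596710447)) (l 139498853273337903)) (l 22))))))))), by decide +kernel⟩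

def k12_pm_102_s : ∃ t, chk3 f_pm_102_s t 29 30 1 = true :=
  ⟨(c (a (b (b (l 143059416330977327) (a (b (l 142802061639761967) (l 142758562204844079)) (l 143274164680802415))) (b (a (l 142689705280487471) (b (l 143319519459295343) (l 16683712))) (c (l 143335806022959215) (l 142705029824315439)))) (b (b (a (l 143651846885441647) (a (l 16750056) (l 16768280))) (a (l 143760080080388207) (a (l 16766144) (l 16768208)))) (b (a (b (a (l 143776572753084527) (l 16758144)) (a (l 16737360) (c (l 144267161198084399) (l 143947684287021295)))) (b (l 604296456829236609051951) (a (a (l 16775368) (l 16797304)) (l 16776792)))) (a (a (l 144044578765078639) (l 144086360219795695)) (a (b (c (a (l 16795576) (l 16778080)) (l 144311485243539759)) (l 16762648)) (b (a (b (l 16778480) (l 16776224)) (b (l 16800104) (l 16779168))) (l 16770416))))))) (a (b (b (l 142408711361298479) (a (l 141948428126224431) (l 142444857737904175))) (b (a (l 141674031214346287) (l 142286528168247343)) (l 142501688930385967))) (b (a (c (l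 143159884136136815) (l 142813950177247279)) (b (l 601523103429793376069743) (a (l 16690320) (l 16737752)))) (b (a (b (l 142933109816541231) (a (l 16630992) (l 143116247218225263))) (a (b (l 16694536) (l 143461493941108847)) (l 143731698982011119))) (a (l 142957642679746607) (b (a (b (l 143535298673197167) (l 16712600)) (b (l 143920196540530927) (c (l 144327153295212847) (l 143690054925205743)))) (a (l 16720520) (l 16766256)))))))), by decide +kernel⟩

def k13_pm_102_s : ∃ t, chk3 f_pm_102_s t 29 62 1 = true :=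
  ⟨(a (a (c (b (l 142659881038512175) (l 142959154434326575)) (b (l 141238693272240175) (l 141307550222041135))) (b (c (l 143600925737861231) (l 142100092082012207)) (c (b (l 143807633957585007) (l 143660368098197615)) (b (l 142130603542265903) (l 142193825520107567))))) (c (a (b (a (l 143923426284716143) (l 143972973042057455)) (b (l 143725651605930095) (a (l 143733004604440687) (l 143779596422611183)))) (b (a (c (l 603656873477496219954479) (l 144007057912021295)) (b (l 16764936) (l 603737578119914053692719))) (a (c (l 602542286305397845617967) (l 143893258415210799)) (b (l 603172358201097674960175) (l 602576297632376681377071))))) (a (b (a (l 142822814959599663) (l 143342265584959599)) (a (l 143041892699144239) (l 143689986185838703))) (b (a (l 143891677907615855) (c (l 144044784911876399) (l 144057566714872047))) (a (c (l 143878071403675887) (l 143859104820805743)) (b (l 144008500994015471) (l 143864808546861295))))))), by decide +kernel⟩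

def k14_pm_102_s : ∃ t, chk3 f_pm_102_s t 29 126 1 = true :=
  ⟨(a (b (c (a (l 142954756384882735) (c (l 143529801075654767) (l 143493929499738223))) (a (l 141292088345641007) (l 142658369335525423))) (c (a (c (l 143288252070264943) (l 142628819850756143)) (a (l 143340341446410351) (l 143387689155919983))) (a (c (l 141638090970906671) (l 140646606177959983)) (a (l 142460594605522991) (l 142817042601279535))))) (a (c (b (c (l 143616112718872815) (l 143596046624653423)) (a (c (l 143444245321466095) (l 143423904349978735)) (c (l 143487057566613807) (l 143473107507347695)))) (a (c (l 143292237804421231) (l 142907889744560175)) (b (l 143591717337202799) (c (l 143456477388439663) (l 143437029770936431))))) (c (a (b (l 601508403895770261974319) (a (l 143514476622397743) (l 600975177562313181736239))) (b (c (l 602821293300579189419311) (l 602578315096232071359791)) (c (l 601380429503549372558639) (l 601917979155347189263663)))) (b (a (l 143654389493186671) (c (l 143718298645037359) (l 143714862667006191)))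 (a (c (l 143511934019223791) (l 143499495789297775)) (c (l 143567115772248367) (l 143562099246809327))))))), by decide +kernel⟩

def k15_pm_102_s : ∃ t, chk3 f_pm_102_s t 29 254 1 = true :=
  ⟨(a (c (a (a (c (l 143115078962036847) (l 142456540094857263)) (c (l 143160502546759791) (l 143129029019205679))) (a (c (l 143205651232079983) (l 143178438334103663)) (c (b (l 143288045922517231) (l 143213485278707951)) (b (l 143264268977242223) (l 143190945284505711))))) (a (c (a (l 141414546476384303) (l 142093838674165807)) (l 141757594227540015)) (c (a (l 142842056433762351) (l 143201871659237487)) (a (l 141695471796092975) (l 142644694114402351))))) (a (c (a (c (b (l 143332369995727087) (l 143258496546406639)) (b (l 143313334695002223) (l 143239598685012079))) (a (c (l 143328659146031407) (l 143312991100338415)) (c (l 143350786822848815) (l 143337180361769199)))) (c (a (b (l 143291756773605487) (l 143218295641899119)) (b (l 143345426697076847) (l 143270591175278703))) (a (b (l 143237124780130351) (l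 143194518697590831)) (b (l 143326322677514351) (l 143250731241734255))))) (a (b (c (c (l 143419575033200943) (l 143410366619074863)) (c (l 143398890462200047) (l 143385009123639407))) (c (c (l 143347969326055727) (l 143336355730342191)) (c (l 143322680550326511) (l 143306875066515567)))) (a (c (c (l 600563584464634568584495) (l 143409335807852847)) (c (l 143400402272207151) (l 143389269713322223))) (b (c (l 601586514125053632130351) (c (l 143465617089642799) (l 143458745138692335))) (c (c (l 601296554298269119638831) (l 143396485286461743)) (c (l 143387826629050671) (l 143377175106797807)))))))), by decide +kernel⟩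

def k16_pm_102_s : ∃ t, chk3 f_pm_102_s t 29 255 1 = true :=
  ⟨(b (a (c (a (c (a (c (l 143010075587100783) (l 142995438335262895)) (b (l 143067044044636271) (l 143029798082723951))) (a (l 142916136050458671) (b (l 143038937772261423) (l 143002791322271791)))) (c (a (a (l 143082643370737775) (l 143105458242109551)) (a (l 143128341832941807) (l 143151225423773935))) (a (b (l 143087522452979823) (l 143051101124886639)) (a (l 143105664400064623) (l 143129784941690991))))) (a (c (a (l 142041955448225839) (a (l 142043398572474415) (l 142427952835952687))) (a (l 140396261087789103) (l 141253742887649327))) (c (a (b (l 143006639613771823) (l 143024231803732015)) (a (l 143080513066008751) (l 143106076716859503))) (a (a (l 141629157492342831) (l 142204477067919407)) (a (l 142621192052129839) (l 142880814273773615)))))) (a (a (a (c (c (l 143174109014606063) (l 143153974202794095)) (c (l 143131571648233583) (l 143106832631447599))) (c (c (l 143197061324914991) (l 143178163463897327)) (c (l 143157066579607663)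 (l 143133701941837935)))) (c (a (c (l 143220013635240239) (l 143202284005540079)) (c (l 143243034665042223) (l 143226473266659567))) (b (c (l 143214035037077615) (l 143193213030989935)) (c (c (l 143181255841825007) (l 143170879198543983)) (a (l 143141261097828463) (l 143167649382563951)))))) (c (a (a (c (l 143266124414304623) (l 143250662527779119)) (c (l 143289214163599663) (b (l 143293268611858735) (l 143256503685497135)))) (b (c (l 143340822501458223) (l 143329346345206063)) (c (a (l 143295398918455599) (l 143318832265101615)) (a (l 143280761666060591) (l 143305019646656815))))) (a (b (c (l 143265162339008751) (l 143247295270912111)) (c (c (l 143231146192781551) (l 143221869061341423)) (c (l 143212179613040751) (l 143201940408909935)))) (c (b (l 143316220921528623) (a (l 143264543865717039) (l 143289763919200559))) (a (c (l 143271690691707119) (l 143262894596784367)) (c (l 143298010257080623) (l 143289901357056239)))))))) (l 22)), by decide +kernel⟩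

def k17_pm_102_s : ∃ t, chk3 f_pm_102_s t 15 14 1 = true :=
  ⟨(a (b (l 3) (a (b (a (b (a (b (l 3) (a (c (l 16771120) (l 16770928)) (l 142975415511))) (l 3)) (a (b (a (l 16770936) (b (l 16771408) (l 16774256))) (c (l 16771320) (l 16763520))) (c (b (l 167671490103) (a (l 16775736) (l 86067105031))) (b (l 168745231879) (a (l 16772920) (l 88214588055)))))) (a (b (l 3) (c (l 188609448583) (l 192367544919))) (l 3))) (a (b (a (c (l 16768712) (l 16773144)) (c (b (l 16775304) (l 16775624)) (b (l 16768552) (l 16762512)))) (a (c (l 16771464) (l 16741040)) (c (l 16759200) (l 16771920)))) (b (a (a (b (c (l 16771816) (l 64055399575)) (l 16774344)) (b (b (l 3) (l 105394458263)) (c (l 16767424) (l 16774888)))) (b (l 3) (a (b (l 140827937031) (l 73182205335)) (l 3)))) (a (c (c (l 16760792) (l 16759288)) (b (l 16769184) (l 16767440))) (b (a (l 16772488) (c (l 67813496183) (l 68887237511))) (c (l 16759080) (l 16775360))))))) (b (l 3) (a (b (l 3) (a (c (b (l 177872035799) (a (l 16767440) (l 96804522455))) (b (l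 180556390263) (a (l 16772208) (l 97878263991)))) (l 3))) (l 3))))) (l 3)), by decide +kernel⟩

def k18_pm_102_s : ∃ t, chk3 f_pm_102_s t 60 30 1 = true :=
  ⟨(b (a (b (c (a (l 16762928) (l 16765448)) (a (l 16736520) (a (l 16750440) (l 16758768)))) (c (a (l 16770392) (c (l 16792608) (l 16789112))) (a (l 603168034542251915619567) (c (l 16780032) (l 16748992))))) (b (c (a (c (l 16765144) (l 16784264)) (b (l 16761192) (l 16763432))) (a (a (l 16766176) (l 16772496)) (c (l 16760760) (l 16773256)))) (c (c (a (l 16770016) (l 16767800)) (a (l 16788640) (l 16766384))) (a (c (l 16786240) (l 16769928)) (c (l 16764928) (l 16784408)))))) (b (c (a (a (b (l 16774144) (l 16776944)) (b (l 16773752) (l 16776608))) (a (b (l 16793768) (l 16775696)) (c (l 16773296) (l 16771856)))) (a (a (c (l 16784320) (l 16738200)) (c (l 16769512) (l 16768608))) (a (c (l 16770488) (l 16767920)) (c (l 16770384) (l 16768872))))) (a (b (a (c (c (l 16782360) (l 16777384)) (c (l 16772280) (l 16760128))) (c (l 16779704) (l 16772504)))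 (b (a (a (c (l 16778872) (l 16768608)) (c (b (l 16781832) (l 16781240)) (b (l 16793632) (l 16793360)))) (a (c (l 16782240) (l 16795656)) (l 16789520))) (a (c (l 16775544) (l 16766808)) (a (b (c (l 16782240) (l 16775032)) (l 16776680)) (c (b (l 16804248) (l 16783112)) (c (l 16789232) (l 16775832))))))) (a (c (b (l 16778824) (c (l 16783184) (l 16802312))) (b (l 16774320) (c (l 16779448) (l 16777512)))) (c (b (l 16777208) (l 16780608)) (b (l 16774920) (l 16789552))))))), by decide +kernel⟩

def k19_pm_102_s : ∃ t, chk3 f_pm_102_s t 61 30 1 = true :=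
  ⟨(b (a (b (a (b (c (l 16774312) (l 16772392)) (c (l 16760920) (l 16759864))) (b (a (b (l 101636362375) (a (l 16778152) (l 16777248))) (b (l 3) (l 122574326167))) (a (c (l 16779656) (l 16779256)) (a (l 16773736) (b (l 16772680) (l 16778152)))))) (c (a (b (l 16763392) (l 16766008)) (b (l 16770888) (l 16763072))) (a (c (l 16763576) (l 16762808)) (b (l 16770408) (l 16762496))))) (b (a (b (l 3) (a (b (l 3) (a (l 16771872) (l 121500588231))) (l 3))) (l 3)) (a (b (a (c (l 16773552) (l 16768200)) (b (a (l 98415140231) (l 3)) (a (l 16778112) (l 74792821575)))) (c (l 16774376) (a (l 16781384) (l 16758664)))) (b (a (b (l 3) (l 191293811783)) (l 3)) (a (b (a (l 16772256) (l 105394461591)) (c (l 16778424) (l 16778384))) (b (l 3) (a (l 83382755735) (l 200420618327)))))))) (a (a (c (b (c (l 16770592) (l 16769928)) (b (l 16774928) (l 16788816))) (b (c (l 16769248) (l 16779032)) (b (l 16774368) (l 16788608)))) (c (b (c (l 16777920) (l 16777800)) (b (l 16781800) (l 16784016))) (b (b (l 16765456) (l 16768864))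 (b (l 16781144) (a (l 16794352) (l 16791520)))))) (a (c (b (b (l 16772680) (l 16775136)) (b (l 16780088) (a (l 16770184) (l 16768096)))) (b (b (l 16772536) (c (l 16764200) (l 16763896))) (c (b (l 16765976) (l 16767384)) (b (l 16765288) (l 16766192))))) (b (b (a (c (l 16759304) (l 16759072)) (b (c (l 16773920) (l 16772664)) (l 16773720))) (c (a (l 16761712) (l 16759872)) (a (l 16761000) (l 16759256)))) (c (c (b (l 16763408) (l 16776248)) (b (l 16762696) (l 16775032))) (c (b (l 16761976) (l 16773776)) (b (l 16761240) (l 16772496)))))))), by decide +kernel⟩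

def k20_pm_102_s : ∃ t, chk3 f_pm_102_s t 60 62 1 = true :=
  ⟨(b (a (c (a (b (a (l 16765328) (l 16769112)) (c (l 16757240) (l 16775392))) (b (a (l 16772920) (l 16776728)) (c (l 16764032) (l 16762208)))) (a (c (b (l 16782696) (l 16772528)) (a (l 16750912) (l 16761120))) (a (b (l 16767192) (l 16757048)) (b (l 16772104) (l 16761760))))) (a (a (b (b (b (c (l 16794320) (l 16790352)) (c (l 16782120) (l 16799472))) (c (l 16798616) (l 16795528))) (c (l 16768624) (l 16766488))) (b (b (b (l 16782792) (c (l 16794848) (l 16792400))) (c (l 16781392) (l 16779416))) (c (l 16772256) (l 16771168)))) (a (b (b (l 16793592) (b (c (l 16795184) (l 16794184)) (c (l 16783480) (l 16782776)))) (c (l 16775848) (l 16775808))) (b (b (l 16793152) (c (l 16800192) (b (l 16805296) (l 16795704)))) (b (b (c (l 16794376) (l 16800272)) (l 16791936)) (a (l 16786320) (l 16788336))))))) (b (a (c (a (a (l 16752960) (l 603824623592288118713647)) (c (a (l 16771096) (l 16774352)) (a (l 16769584) (l 16773304)))) (a (l 603110100499703595871471)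 (c (l 603822894278475792493871) (l 603540428531699884436783)))) (a (a (c (b (l 16780424) (l 16774216)) (c (l 16776456) (l 16775880))) (c (b (l 16783920) (l 16777616)) (l 16770408))) (a (c (b (l 16787376) (l 16780984)) (l 16774432)) (c (c (l 16766200) (l 16767008)) (l 16778752))))) (c (b (a (a (l 603979979642300884086063) (c (l 16763392) (l 16762416))) (a (c (l 16769656) (l 16769528)) (c (l 16765304) (l 16766016)))) (a (a (l 603656873315661853748527) (l 603397466015402075680047)) (a (c (l 604554855297341314473007) (l 604371540778108825721903)) (c (l 604705311553692522946095) (l 604586848869094168223279))))) (a (a (l 602543439433060903120111) (c (l 603205792892501860674863) (l 603710196072895004421423))) (a (c (a (l 16764360) (l 16747280)) (a (l 16743136) (l 16747448))) (c (b (l 16756272) (l 16760208)) (b (l 16757040) (l 16761016)))))))), by decide +kernel⟩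

def k21_pm_102_s : ∃ t, chk3 f_pm_102_s t 120 126 1 = true :=
  ⟨(b (c (a (c (l 603262574042407758343471) (l 603036889671281263193391)) (c (a (l 603606289129425996110895) (l 603836585199971219856431)) (a (l 603392854219776058780975) (l 603631365172151199996975)))) (a (c (l 602805152459231925087535) (l 143782688806420719)) (c (l 602539692339970796612911) (l 602318331430052834700591)))) (c (a (c (a (l 602435064479300451888431) (l 602636825761504511896879)) (a (l 602230709148793638317359) (l 602441693807226441723183))) (c (a (l 602841902171871630498863) (l 602291093923045715090479)) (a (l 602655560769145884372271) (l 602869715961578917735727)))) (a (c (l 601373512027229576310063) (l 143625046280503535)) (c (a (l 602464464042058084085039) (l 602687842611132177755439)) (a (l 143672737629946159) (l 602501645802431822032175)))))), by decide +kernel⟩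

def k22_pm_102_s : ∃ t, chk3 f_pm_102_s t 120 254 1 = true :=
  ⟨(c (a (c (b (l 601951990273968569068847) (a (l 601461998556101720550703) (l 601628307504925337644335))) (b (l 601771846290660452953391) (a (l 143420399669985583) (l 601466898491394158357807)))) (c (a (b (l 602228691465585668255023) (l 601796057605354835422511)) (b (l 602410853083723240172847) (l 601961213632948723625263))) (a (c (l 601139468843390713736495) (l 601059629030227480669487)) (b (l 602255785150905624964399) (l 601821998362641834405167))))) (a (c (b (l 143505199517597999) (a (l 143413802597204271) (l 143439709845913903))) (b (l 143502863052751087) (a (l 143405281379074287) (l 143433456370876719)))) (c (b (l 601237755456771496717615) (a (l 143465617094672687) (l 601679900787130319105327))) (b (l 601070005381974345887023) (a (l 143461700082204975) (l 143490356110459183)))))), by decide +kernel⟩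

def k23_pm_102_s : ∃ t, chk3 f_pm_102_s t 120 510 1 = true :=
  ⟨(c (a (c (a (b (l 143375182247608623) (l 143342334331240751)) (b (l 601304624743441249135919) (l 143365905116856623))) (a (b (l 143365698956591407) (l 143329346346729775)) (c (l 143374357613478191) (l 143368928773292335)))) (a (c (b (l 601459116247804718640431) (l 143389544621965615)) (c (l 143398271996739887) (l 143393392912498991))) (c (a (l 601456810406513492421935) (c (l 601546161838101372103983) (l 601487651067825563200815))) (a (l 143414146199257391) (c (l 601428563836522572967215) (l 143424866439627055)))))) (a (c (a (b (l 143354635117625647) (l 143315052692193583)) (b (l 143380198768705839) (l 143340272745709871))) (a (c (l 143324398541963567) (l 143316976836837615)) (a (l 143340822489809199) (l 143354154071261487)))) (c (a (b (l 143405693700342063) (l 143365561518752047)) (a (l 143404731628372271) (l 143327765806416175))) (a (a (l 143367554377564463) (l 143380885959033135)) (c (l 143404319300419887) (l 143398959180005679)))))),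 by decide +kernel⟩

def k24_pm_102_s : ∃ t, chk3 f_pm_102_s t 120 511 1 = true :=
  ⟨(a (l 22) (c (a (a (l 22) (c (a (l 22) (b (l 143368104140472623) (b (l 143345839024980271) (c (l 143336905490546991) (l 22))))) (l 22))) (c (a (b (l 143377381271716143) (c (b (l 143360476276244783) (a (l 143343433842065711) (b (l 143353398168322351) (c (l 143349618596086063) (l 143343708720202031))))) (a (l 22) (b (l 143353466888569135) (b (l 143342128172400943) (a (l 143332919760453935) (l 143336630613279023))))))) (b (c (a (l 143390644133413167) (l 143399646386684207)) (l 143342471779778863)) (a (b (c (l 143370097005330735) (l 143360407557488943)) (c (l 143356627985416495) (l 143346320062267695))) (c (l 143372570907935023) (l 143363912252391727))))) (b (a (l 143361094752649519) (c (l 143379717734711599) (l 143371814993445167))) (a (a (l 22) (a (a (l 22) (c (c (l 143336768052560175) (l 143308730505199919)) (c (l 143303164226715951) (l 143297529228771631)))) (b (l 143339516832596271) (c (b (l 143332438724821295)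 (l 143324948300480815)) (c (l 143320137936535855) (l 143291825511252271)))))) (a (c (b (l 143350580670710063) (l 143335943419642159)) (b (l 143340685064454447) (l 143325498057539887))) (c (l 143332644889002287) (l 143323711355552047))))))) (a (l 22) (a (a (l 22) (c (b (l 143347282135449903) (b (c (l 143322199521640751) (l 143311548001091887)) (a (c (c (l 143304057576194351) (l 143298078980833583)) (c (l 143292031666012463) (l 143263513082282287))) (c (c (l 143285984354861359) (l 143291413192655151)) (b (l 143297941542322479) (b (l 143291207032455471) (l 143276020027474223))))))) (b (c (l 143334225432592687) (l 143325223179632943)) (b (c (l 143300827761049903) (l 143289901362594095)) (b (c (l 143284472522752303) (l 143272652771033391)) (a (c (c (l 143274508196708655) (l 143268323442901295)) (c (l 143262069969633583) (l 143244477782688047))) (c (c (l 143280280634048815) (l 143274233319211311)) (c (l 143268186004390191) (l 143262138689569071))))))))) (c (b (c (l 143363774813208879) (l 143355528474558767))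 (a (c (b (l 143330652019261743) (l 143292375268131119)) (b (l 143320481535099183) (a (l 143283579172585775) (l 143307974588612911)))) (c (a (l 143310379774755119) (l 143341647138357551)) (c (l 143330445861699887) (l 143325910375514415))))) (c (b (l 143347144696955183) (a (b (l 143310242331476271) (c (l 143296223555977519) (l 143290794716512559))) (c (l 143321306169835823) (l 143316633244696879)))) (b (l 143338623480414511) (b (a (l 143299865688883503) (l 143317526597976367)) (a (c (l 143285365877031215) (l 143279937037566255)) (c (l 143304195017507119) (l 143299384653414703))))))))))), by decide +kernel⟩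

def k25_pm_102_s : ∃ t, chk3 f_pm_102_s t 121 126 1 = true :=
  ⟨(a (c (b (b (c (l 604172373588187979717679) (l 604003182357386924923951)) (c (l 603774327438722452446255) (l 603619691569169455885615))) (a (c (l 603131285469527960558639) (l 602981549384703025114415)) (b (l 603317914302460282023215) (l 602887009821668860472623)))) (b (c (a (l 603585103967599401807151) (l 603709331303151506238767)) (a (l 603396024865857768156463) (l 143955861924593967))) (c (a (l 602827634381842513390895) (l 602906321315282581237039)) (a (l 143744480778649903) (l 143783925743501615))))) (b (c (a (b (l 604208546347425473867503) (l 603798970912338975207151)) (b (l 604292997888182423023343) (l 603893222287328191852271))) (c (b (l 604095560111236105792751) (l 603714807705793297427695)) (b (l 144064576155992303) (l 143980944517415151)))) (c (b (a (l 603379883876626176519919) (l 603528034334360944799471)) (a (c (l 603028242743435320897263) (l 602952726400757772020975)) (l 603209251475115223183087))) (a (c (b (l 603243262709528908688687)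 (l 602875768905099953007919)) (l 143653702344212783)) (b (l 603404383550751879916783) (l 143845910746448111)))))), by decide +kernel⟩

def k26_pm_102_s : ∃ t, chk3 f_pm_102_s t 242 127 1 = true :=
  ⟨(a (c (b (b (c (l 602471957962225193430319) (l 602345136605514532171055)) (c (l 602015689214792052403503) (l 601905585211102096928047))) (b (c (b (l 601691718227192420134191) (a (l 143444451493806383) (l 143471183375352111))) (b (l 143480254347395375) (a (l 143433525094646063) (l 143463349353185583)))) (a (c (b (l 143416413942186287) (c (l 143392774438207791) (l 143385558891905327))) (b (l 143403288519688495) (c (l 143378274626126127) (b (l 143378068467597615) (l 143363706094666031))))) (c (b (l 143443558140985647) (c (l 143419231442125103) (l 143413871321989423))) (b (l 143434212290314543) (c (l 143408511201853743) (l 143403013642780975))))))) (b (b (c (l 602216009404282828778799) (l 143615150701723951)) (c (l 143530213415223599) (l 143527945670983983))) (b (b (c (l 143473176239407407) (l 143465342217191727))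 (c (c (l 143441221677383983) (l 143436205154566447)) (c (l 143430982473335087) (l 143425553633673519)))) (c (b (c (l 143410160468836655) (l 143404181873295663)) (c (a (b (l 143370715482374447) (l 143356009510699311)) (l 143397447361544495)) (a (c (l 143357658779713839) (l 143353879205183791)) (c (l 143393255475462447) (l 143390369256980783))))) (b (c (l 143398065838833967) (l 143391881084895535)) (a (b (c (l 143355734634004783) (l 143348106770874671)) (c (c (l 143342403053486383) (l 143338417323229487)) (c (l 143334431590957359) (c (l 143331476655014191) (l 143329483787190575))))) (c (c (l 143387551757975855) (l 143384665534136623)) (c (l 143381710596194607) (l 143378824379056431))))))))) (b (c (b (c (l 602512310262234158640431) (l 602420364779663465491759)) (c (l 602141645938648381484335) (l 602062382587062085807407))) (b (c (l 602326978144112502222127) (l 143659680930349359)) (c (l 143583814616432943) (l 143584089482887471)))) (c (c (b (l 143524166102237487) (b (l 143483003125956911) (c (c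 (l 143458264112890159) (l 143457027162030383)) (c (l 143455721491710255) (l 143454415821390127))))) (b (l 143522654272848175) (b (l 143479292270543151) (c (c (l 143453110151069999) (l 143451804480766255)) (c (l 143450498810462511) (l 143449124420682031)))))) (b (c (l 143520661401796911) (c (l 143518805980692783) (l 143517431590781231))) (a (b (c (l 143458538989814063) (l 143452216791417135)) (c (c (l 143430707597394223) (l 143426996745027887)) (c (l 143423217167827247) (c (l 143420262235259183) (l 143418338089615663))))) (c (c (l 143477643008557359) (l 143476131174400303)) (c (l 143474550626124079) (l 143427821381665071)))))))), by decide +kernel⟩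

def k27_pm_102_s : ∃ t, chk3 f_pm_102_s t 243 127 1 = true :=
  ⟨(a (c (b (c (c (l 602551797839022670261999) (l 602522398345946595519727)) (l 602478010875578363882735)) (c (b (l 602100140757473148546799) (c (c (l 143519287009575151) (l 143519974204342511)) (l 143475925022474479))) (b (l 143579485291364591) (c (l 143477230695268591) (l 143478467645915439))))) (b (c (l 143678372612227375) (l 143687168705741103)) (b (c (l 143584776691384623) (l 143589724494086447)) (c (c (l 143479704591221039) (l 143480872822440239)) (c (l 143481972334215471) (l 143483071848677679)))))) (c (b (c (l 602775176428987482124015) (l 602739435879524535119599)) (c (b (l 602346001315540848815855) (b (l 602142798860771466587887) (l 143555777059324143))) (b (l 143633567530287343) (c (l 143575568282403055) (l 143580241207427311))))) (b (c (l 143738227309641967) (l 143754238927880431)) (c (b (l 143645868318015727) (l 143530900613365999)) (c (l 143534061704233199) (l 143539353104679215)))))), by decide +kernel⟩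

def k28_pm_102_s : ∃ t, chk3 f_pm_102_s t 122 62 1 = true :=
  ⟨(b (b (c (a (l 16794912) (c (l 16776216) (l 16774864))) (a (a (l 16780864) (l 16777424)) (c (l 16773480) (l 16772064)))) (a (a (b (b (c (l 16793704) (l 16792008)) (a (l 16795008) (b (l 16797560) (l 16793608)))) (c (l 16779768) (l 16782000))) (b (c (l 16791144) (l 16793624)) (b (a (a (l 16783496) (l 16794728)) (c (l 16791752) (l 16788288))) (l 16793792)))) (b (c (l 16787384) (l 16786184)) (c (a (b (l 16778784) (a (l 16781480) (l 16789440))) (l 16776528)) (a (b (l 16774744) (a (l 16787800) (l 16790064))) (l 16771616)))))) (a (a (c (b (c (l 16769344) (l 16770616)) (b (l 16781008) (c (l 16773712) (l 16775032)))) (b (l 16783080) (b (l 16783768) (l 604650403747025084787951)))) (c (b (b (l 16776688) (l 16770048)) (b (l 16773904) (c (l 16777120) (l 16778912)))) (b (b (l 16780200) (l 16773680)) (b (l 16767096) (l 16771216))))) (b (a (b (c (l 16780144) (l 16782000)) (c (l 16773520) (l 16778168))) (b (b (a (b (a (c (l 16794344) (a (l 16784072)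 (l 16793864))) (c (l 16777504) (l 16793096))) (a (l 16778120) (l 16786552))) (b (l 16784128) (a (b (l 16787304) (l 16787832)) (l 16786640)))) (c (l 16791840) (a (l 16777928) (l 16784048)))) (c (l 16777104) (l 16782776)))) (c (b (c (l 16778192) (l 16770264)) (c (l 16772032) (l 16774608))) (b (c (l 16772888) (l 16775600)) (l 604459595181044219260655)))))), by decide +kernel⟩

def k29_pm_102_s : ∃ t, chk3 f_pm_102_s t 122 63 1 = true :=
  ⟨(a (b (c (a (b (b (a (l 16766944) (l 16768960)) (l 604074231006294989663983)) (c (l 603608450607245691743983) (l 603577609987096592019183))) (b (b (l 16761536) (l 604282045148800788000495)) (c (l 603811220926869885607471) (l 603803870878280305536751)))) (c (b (b (l 604445183648011678445295) (l 604126977242027856654063)) (l 602917562301326900391663)) (b (b (l 143982456378540271) (l 144089040296509679)) (l 143802686176952559)))) (c (b (a (c (l 603000284396261401390831) (l 602987314053111526551279)) (c (l 603212998455161789443823) (l 603222510087673930264303))) (b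 (c (l 602312566568405194075887) (l 601943631619036150099695)) (c (b (l 602115417042588302585583) (c (l 602161822103736797947631) (l 602151734049573740750575))) (a (l 143630268996501743) (l 602523551286280345986799))))) (b (c (a (l 143795127047504111) (l 603233174641484519649007)) (l 143668477039034607)) (c (b (l 143551722630086895) (a (l 143646143197937903) (l 143702287021228271))) (b (l 143573781585232111) (l 143558525852025071)))))) (b (c (b (b (c (l 16766104) (l 16768680)) (c (l 604563790439002033233455) (l 604577481367369435229935))) (c (b (l 604246737025235139092015) (l 603942077517642769063471)) (l 603364031208411747299055))) (b (b (l 604147153380727994937071) (l 603843934954510199320303)) (c (l 603392854291313037537007) (l 143915386140786927)))) (b (c (c (b (l 603650388376977226554927) (l 603372389884372335668975)) (l 602795352556967387754223)) (a (l 602739724126736983650031) (l 602982990616229660880623))) (c (c (b (l 603107506117080576372463) (c (l 602506833956349392103151) (l 602889892141510743074543)))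 (a (l 602151445764153310897903) (l 602389236049328609814255))) (b (c (l 603210116199435194248943) (l 143871749280268527)) (c (l 602533927501069305833199) (l 143632811650416879))))))), by decide +kernel⟩

def k30_pm_102_s : ∃ t, chk3 f_pm_102_s t 246 31 1 = true :=
  ⟨(c (b (b (c (b (l 16771960) (l 16784544)) (b (l 16770200) (l 16787256))) (b (b (a (b (l 16774816) (a (b (l 16786480) (l 16787608)) (l 16785400))) (l 16783312)) (b (b (a (a (l 16779496) (l 16789696)) (l 16783960)) (a (l 16780016) (a (a (l 16775456) (l 16784592)) (l 16773008)))) (b (a (l 16779704) (a (l 16776936) (a (l 16774240) (l 16783576)))) (l 16784992)))) (b (c (l 16784560) (l 16777656)) (c (l 16778504) (l 16771608))))) (b (b (b (c (l 16772680) (l 16776256)) (l 604159547186365910789871)) (b (l 603856040539667574173423) (l 603564639570966627839727))) (b (b (l 603285920741015380553455) (l 603020172280258703552239)) (b (l 602767970649655058673391) (c (l 602929091540218635560687) (l 603352790234943099987695)))))) (b (b (b (c (l 16778880)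 (l 16777032)) (c (b (l 16768848) (l 16768984)) (a (l 16788568) (l 16785984)))) (b (a (b (b (l 16789656) (a (b (a (l 16780488) (l 16789952)) (a (l 16792672) (l 16780176))) (b (l 16788864) (l 16783832)))) (b (a (l 16774136) (a (l 16771000) (b (l 16783760) (l 16791088)))) (l 16776648))) (b (l 16776512) (a (b (b (l 16777096) (a (l 16768008) (l 16782168))) (l 16770472)) (b (l 16775704) (b (a (l 16776760) (l 16780648)) (l 16767560)))))) (c (l 604021773131642772483823) (l 604001020475015732752111)))) (b (b (l 604432501330591359217391) (l 603858346467407890591471)) (b (l 603325696606866461568751) (b (l 602955320485550588915439) (c (l 603401789441220095174383) (l 143741663300681967))))))), by decide +kernel⟩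

def k31_pm_102_s : ∃ t, chk3 f_pm_102_s t 247 31 1 = true :=
  ⟨(b (b (b (a (c (l 16778512) (l 16774656)) (c (l 16776600) (l 16777984))) (c (c (l 16784504) (a (l 16768344) (l 16766384))) (c (a (l 16786536) (l 16784552)) (c (l 16772888) (l 16771440))))) (b (a (c (b (l 16781256) (b (l 16771232) (a (a (b (l 16772288) (l 16783592)) (l 16782544)) (l 16771008)))) (b (l 16774176) (b (l 16773776) (b (l 16773632) (a (a (l 16779040) (l 16779184)) (l 16783256)))))) (c (c (l 16781504) (l 16777680)) (c (l 16779008) (l 16775000)))) (b (a (a (c (l 16777776) (c (l 16771328) (l 16766896))) (b (b (a (c (l 16782520) (a (l 16773824) (l 16778392))) (c (l 16781640) (l 16772504))) (c (l 16773168) (l 16774496))) (c (l 16776576) (l 16767408)))) (a (c (b (a (b (l 16770456) (l 16781512)) (l 16780664)) (l 16783512)) (b (b (l 16781936) (a (a (l 16777488) (l 16776920)) (l 16771088))) (c (l 16776304) (l 16773968)))) (b (c (l 16769304) (l 16780752)) (b (a (c (l 16780544) (b (l 16780808) (l 16770584))) (c (l 16769296) (l 16780168)))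 (a (c (l 16771696) (l 16782592)) (c (l 16780552) (c (l 16772864) (l 16772824)))))))) (c (c (l 16784216) (l 16778312)) (c (l 604274263008496751259375) (l 604192117271441468862191)))))) (c (b (b (b (l 604011829268671514730031) (l 604460892194715870354991)) (b (l 604166320750288820870703) (l 603884287124020846423791))) (c (b (l 603422109919065071951407) (a (l 602958059013460816991791) (l 603126962013885726447151))) (b (l 603548498685638874033903) (a (l 603025937072293555775215) (l 603214728005712732202735))))) (b (b (l 604072789905953868951279) (l 604266768817987187257071)) (b (l 603746801187042605362927) (a (c (l 603097129847109931919087) (l 603171205106557466732271)) (c (l 603305808681981114033903) (l 603400924764385304356591))))))), by decide +kernel⟩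

def k32_pm_102_s : ∃ t, chk3 f_pm_102_s t 31 30 1 = true :=
  ⟨(a (b (l 3) (a (a (b (b (a (b (a (l 115058137431) (l 3)) (a (l 16775152) (b (l 144586039863) (l 16771832)))) (l 3)) (a (c (l 16773856) (l 16773448)) (a (b (c (l 16774432) (l 16774488)) (l 16767752)) (b (l 173040202455) (c (l 16772384) (l 16772296)))))) (b (a (c (l 16770840) (l 16769656)) (c (l 16775048) (a (l 16779104) (l 16768008)))) (c (c (l 16777816) (l 16776768)) (a (l 16775864) (a (l 16780040) (l 16779408)))))) (a (b (b (l 3) (b (l 3) (a (b (l 3) (l 88751466391)) (l 3)))) (b (b (b (a (l 16772320) (l 111836914615)) (c (l 19495119671) (l 16774304))) (c (l 16768072) (l 16767480))) (c (c (l 16769960) (l 16769224)) (b (l 16778408) (l 16778712))))) (b (l 3) (a (b (b (l 203104972743) (b (c (l 16774304) (l 16774352)) (l 16774944))) (c (l 16775320) (l 16775456))) (b (b (l 3) (c (l 161229042983) (l 165524010247))) (b (c (l 19495120135) (l 16774800)) (c (l 16778664) (l 16777680)))))))) (b (l 3) (a (b (l 3) (a (b (a (b (l 142438555655)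 (a (l 16774736) (l 102173240183))) (l 3)) (a (c (l 16772704) (l 16772160)) (c (b (l 97341401223) (l 16774904)) (b (l 97878272023) (l 16772032))))) (a (b (l 3) (c (l 191293813223) (l 196662522279))) (l 3)))) (l 3))))) (l 3)), by decide +kernel⟩

def k33_pm_102_s : ∃ t, chk3 f_pm_102_s t 248 62 1 = true :=
  ⟨(a (b (b (c (l 16779376) (c (l 16761512) (l 16780568))) (c (c (l 16777768) (l 16775048)) (c (l 16772256) (l 16769400)))) (b (c (c (l 16779656) (l 16775800)) (c (l 16777096) (b (l 16778792) (l 16777736)))) (b (a (a (b (c (l 16768592) (l 16779976)) (c (l 16782192) (b (l 16779584) (b (l 16779400) (l 16774328))))) (c (l 16778720) (l 16768728))) (c (l 16778032) (l 16770624))) (b (a (b (a (c (l 16770504) (l 16759888)) (c (l 16782152) (b (l 16773600) (l 16768968)))) (c (l 16771856) (l 16761112))) (b (c (l 16778480) (c (l 16780760) (l 16769872))) (a (c (l 16769304) (l 16768640)) (b (c (l 16778256) (l 16772168)) (c (l 16778736) (l 16772552)))))) (c (l 16773416) (c (l 16765208) (l 16759568))))))) (b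 (c (c (b (l 16763432) (l 16775992)) (b (l 16782704) (l 16773360))) (c (b (l 16770480) (l 16770656)) (b (l 16768696) (l 16767888)))) (c (b (c (l 16777872) (l 16779296)) (b (c (l 16768640) (l 16784712)) (b (c (l 16779864) (l 16774368)) (b (a (a (l 16778672) (l 16780240)) (l 16776688)) (a (l 16769528) (c (l 604587425329846503497263) (c (l 604469827336376595930671) (l 604389987522182568255023)))))))) (b (c (l 16775464) (c (l 16777632) (l 16775600))) (b (c (l 16779696) (l 16764064)) (b (c (l 16773976) (a (l 16768600) (l 16772800))) (b (a (a (c (l 16769960) (l 16769216)) (b (l 16765536) (a (l 16766064) (l 16770616)))) (l 16767352)) (a (l 16768168) (a (b (c (l 16778592) (l 16767096)) (l 16755344)) (b (l 16764152) (a (l 16769704) (l 16763944)))))))))))), by decide +kernel⟩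

def k34_pm_102_s : ∃ t, chk3 f_pm_102_s t 249 62 1 = true :=
  ⟨(a (b (c (c (b (l 16772184) (l 16774264)) (b (l 16770696) (l 16771800))) (c (b (l 16779656) (l 16774520)) (b (l 16767608) (l 16771928)))) (c (c (b (l 16781384) (l 604086192705718671728175)) (b (l 16777688) (c (l 16779088) (l 16776424)))) (c (b (c (l 16780088) (l 16778168)) (b (l 16767600) (l 16771824))) (b (c (l 16776224) (l 16769016)) (b (l 16767768) (c (l 16772592) (l 16769560))))))) (b (c (c (b (l 16770496) (l 16777824)) (b (l 16774552) (l 16775624))) (c (b (l 16773344) (l 16774688)) (b (l 16772104) (a (l 16776488) (l 16765664))))) (c (c (b (l 16779712) (l 604035175929139815308847)) (b (l 603802862245961525157423) (c (l 16777504) (l 16774912)))) (c (b (c (l 16768296) (l 16771728)) (b (l 16771480) (l 16770368))) (b (b (l 16774856) (l 16768256)) (c (b (l 16773048) (l 16771216)) (b (l 16770560) (l 16768248)))))))), by decide +kernel⟩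

def k35_pm_102_s : ∃ t, chk3 f_pm_102_s t 250 62 1 = true :=
  ⟨(a (b (c (b (c (b (l 16768296) (l 16769384)) (c (l 16773512) (l 16773128))) (c (b (l 16770432) (l 16771432)) (b (l 16779392) (l 16769320)))) (b (c (b (l 16777688) (l 16777848)) (b (l 16777120) (l 16776792))) (c (b (l 16767344) (l 16777632)) (b (l 16776232) (l 16775400))))) (c (c (b (l 604044687531552815128111) (l 603986753225946324377135)) (c (b (l 16775712) (l 16776056)) (b (l 16774112) (l 604169491284426497121839)))) (c (b (c (l 16772496) (l 16770856)) (b (l 16770408) (c (l 16775824) (l 16773040)))) (b (b (l 16769040) (l 16767592)) (c (b (l 16772192) (l 16770224)) (b (l 16769856) (l 16762136))))))) (b (b (b (a (c (b (a (l 16777456) (l 16774224)) (l 16777720)) (b (l 66739760391) (l 16777216))) (b (l 3) (c (a (l 16774528) (l 125795560471)) (l 91435821239)))) (a (c (l 16773112) (l 16777128)) (c (c (l 16775264) (l 16774968)) (c (l 16774664) (l 16774352))))) (c (c (b (l 16768824) (l 16769840)) (c (l 16773624) (l 16775592))) (c (b (l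 16777312) (l 16771840)) (b (l 16771032) (l 16770160))))) (b (c (c (b (l 16770792) (l 16771680)) (b (l 16773736) (l 16773840))) (c (b (l 16771384) (l 16770672)) (b (l 16771592) (c (l 16773496) (l 16771856))))) (c (c (l 604035752389892109426223) (b (l 16773760) (l 16773472))) (c (c (b (l 16775952) (l 16774904)) (b (l 16773888) (l 16772320))) (b (c (l 16771800) (l 16764448)) (c (l 16767080) (b (l 16767760) (l 16766320))))))))), by decide +kernel⟩

def k36_pm_102_s : ∃ t, chk3 f_pm_102_s t 251 62 1 = true :=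
  ⟨(a (b (b (b (l 3) (a (b (c (l 166060881879) (l 171966461911)) (c (a (l 16777472) (l 84456501255)) (a (l 16777144) (l 83919630311)))) (l 3))) (b (a (c (c (l 16772888) (l 16777656)) (c (l 16777168) (l 16776664))) (b (c (a (l 16775312) (l 118279367943)) (a (l 16774552) (l 119353109431))) (c (c (l 16772408) (l 16772160)) (a (l 16776960) (l 16774480))))) (c (c (l 16776144) (l 16775232)) (c (a (l 16776920) (l 16776944)) (a (l 16775760) (l 16770952)))))) (b (b (c (c (l 16774488) (l 16775480)) (c (a (l 16776432) (l 16765960)) (a (l 16774528) (l 16769696)))) (c (c (l 16775384) (l 16774904)) (c (c (l 16776304) (l 16775032)) (a (l 16767688) (l 16768064))))) (a (b (c (l 603912101558523018354223) (c (l 16769400) (l 16765680))) (l 14)) (l 14)))) (b (b (l 3) (b (a (a (b (l 3) (c (l 97878273639) (l 97878273383))) (l 3)) (l 3)) (a (b (b (a (l 16775920) (l 105931337591)) (c (l 18958250759) (l 20031992231))) (c (l 16775040) (l 16774128))) (b (c (l 202568102935) (l 207936811991)) (c (a (c (l 16774728) (l 16774656))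 (l 111300045975)) (a (c (l 16774528) (l 16774400)) (l 112373787495))))))) (b (a (c (c (c (l 16774176) (l 16776096)) (b (l 16777608) (l 16772432))) (b (c (l 16771336) (l 16770280)) (c (l 16770552) (l 16768616)))) (b (b (c (c (l 16775040) (l 16774704)) (c (l 16774368) (l 16775328))) (l 14)) (l 14))) (l 14)))), by decide +kernel⟩

def k37_pm_102_s : ∃ t, chk3 f_pm_102_s t 124 252 1 = true :=
  ⟨(a (b (a (c (l 16774536) (l 604116024468423934045807)) (b (c (l 16776296) (a (l 16760872) (l 16767496))) (c (l 16775216) (l 603860364067121713180271)))) (c (l 603904319338366926626351) (l 603599227280769891544687))) (c (a (b (c (b (a (l 604228578511537616772655) (l 604549667150570625883695)) (l 16782296)) (b (a (a (l 604451380592302878105135) (b (l 16783152) (l 16773648))) (c (l 604410451878889339330095) (l 604315912315511573945903))) (l 603790756570163152543279))) (l 16779544)) (b (b (l 604013846881304575860271) (c (a (l 604191396793014042566191) (l 16782328)) (a (b (l 604333206138080675126831) (l 604378458307136495590959))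 (l 604301212566327833239087)))) (c (l 604205231851069316111919) (c (l 603850708488402710781487) (b (l 604019611488827608129071) (l 16765152)))))) (b (b (a (a (b (b (a (c (l 16777272) (l 16765496)) (l 16762832)) (a (l 16764112) (c (l 16776624) (l 16764720)))) (c (l 16768008) (l 16766616))) (b (l 16762112) (a (b (c (l 16775992) (l 16763960)) (c (l 16776352) (l 16764264))) (c (l 16775456) (l 16763352))))) (c (l 16764088) (c (l 16769584) (l 16766216)))) (a (a (l 16767904) (a (l 16765056) (c (l 604228578511537589018159) (c (l 604070195824184706477679) (c (l 143981975343022191) (b (l 143945141708603503) (l 16768512))))))) (a (a (b (b (c (l 16774744) (l 16767696)) (a (l 16761216) (b (l 16760440) (l 16763200)))) (l 16762312)) (b (c (l 16774224) (l 16767120)) (b (c (l 16769024) (a (l 16767240) (l 16761408))) (l 16760952)))) (a (b (l 16759800) (b (l 16762016) (a (c (l 16773776) (l 16763768)) (c (l 16773304) (l 16760640))))) (c (l 16773240) (l 16766048)))))) (a (c (l 603915704337963180879471) (l 603711060675512839548527))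 (b (b (a (l 16763432) (b (a (l 16760088) (a (b (a (l 16761408) (l 16758584)) (l 16758952)) (c (l 16772680) (l 16765128)))) (c (l 16763888) (l 16761632)))) (c (l 16767240) (l 16759912))) (c (l 16759792) (l 16762968))))))), by decide +kernel⟩

def k38_pm_102_s : ∃ t, chk3 f_pm_102_s t 125 252 1 = true :=
  ⟨(a (b (a (a (c (l 603981276848799427354159) (c (l 16767936) (c (l 16768080) (l 16764632)))) (c (l 603955624345321923468847) (c (l 16767368) (c (l 16767608) (l 16758984))))) (a (c (l 603931124763349026479663) (c (l 603981853309551719063087) (c (l 16767264) (l 16758720)))) (l 14))) (a (a (b (c (c (l 604156809147875833880111) (b (l 16774408) (l 604300347875199374302767))) (a (b (b (l 16758104) (c (l 16767064) (a (a (l 16762224) (l 16759352)) (l 16764384)))) (c (l 16767960) (c (l 16762200) (c (l 16764520) (l 16759936))))) (b (c (l 16771880) (l 16764320)) (b (c (l 16766440) (a (b (l 16763920) (l 16758696)) (l 16763656))) (a (l 16758040) (l 14)))))) (c (l 604191685023390184218159) (c (l 16764888)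 (l 16757120)))) (b (b (c (l 16771824) (c (l 16771432) (l 16763960))) (l 14)) (l 14))) (l 14))) (l 14)), by decide +kernel⟩

def k39_pm_102_s : ∃ t, chk3 f_pm_102_s t 62 253 1 = true :=
  ⟨(a (c (b (c (l 604082157480452521467439) (l 603897978270091579268655)) (c (l 604189955641133251780143) (l 603631076941775084101167))) (c (l 603752277584324316393071) (b (l 603545039938098791132783) (l 603939915648603100884591)))) (l 14)), by decide +kernel⟩

def k40_pm_102_s : ∃ t, chk3 f_pm_102_s t 62 127 1 = true :=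
  ⟨(a (a (b (c (l 603588850879407530192495) (l 603381036924712092364399)) (a (c (c (l 603282894647383808480815) (l 603392133959945295337007)) (c (l 603506128834569528174191) (l 603624015122599579707119))) (b (c (l 604250195789748968021551) (l 603881404885680302648943)) (l 14)))) (a (b (c (l 603972918167890996862511) (l 603657161595997105352303)) (l 14)) (l 14))) (l 14)), by decide +kernel⟩

def k41_pm_102_s : ∃ t, chk3 f_pm_102_s t 63 31 1 = true :=
  ⟨(b (b (l 3) (l 14)) (l 14)), by decide +kernel⟩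

theorem s42_pm_102_s : ∃ t, chk3 f_pm_102_s t 62 252 1 = true := ex3_a k37_pm_102_s k38_pm_102_s

theorem s43_pm_102_s : ∃ t, chk3 f_pm_102_s t 62 126 1 = true := ex3_b s42_pm_102_s k39_pm_102_s

theorem s44_pm_102_s : ∃ t, chk3 f_pm_102_s t 62 63 1 = true := ex3_b s43_pm_102_s k40_pm_102_s

theorem s45_pm_102_s : ∃ t, chk3 f_pm_102_s t 125 62 1 = true := ex3_a k35_pm_102_s k36_pm_102_s

theorem s46_pm_102_s : ∃ t, chk3 f_pm_102_s t 124 62 1 = true := ex3_a k33_pm_102_s k34_pm_102_s

theorem s47_pm_102_s : ∃ t, chk3 f_pm_102_s t 62 62 1 = true := ex3_a s46_pm_102_s s45_pm_102_s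

theorem s48_pm_102_s : ∃ t, chk3 f_pm_102_s t 62 31 1 = true := ex3_b s47_pm_102_s s44_pm_102_s

theorem s49_pm_102_s : ∃ t, chk3 f_pm_102_s t 31 31 1 = true := ex3_a s48_pm_102_s k41_pm_102_s

theorem s50_pm_102_s : ∃ t, chk3 f_pm_102_s t 31 15 1 = true := ex3_b k32_pm_102_s s49_pm_102_s

theorem s51_pm_102_s : ∃ t, chk3 f_pm_102_s t 123 31 1 = true := ex3_a k30_pm_102_s k31_pm_102_s

theorem s52_pm_102_s : ∃ t, chk3 f_pm_102_s t 122 31 1 = true := ex3_b k28_pm_102_s k29_pm_102_s

theorem s53_pm_102_s : ∃ t, chk3 f_pm_102_s t 61 31 1 = true := ex3_a s52_pm_102_s s51_pm_102_s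

theorem s54_pm_102_s : ∃ t, chk3 f_pm_102_s t 121 127 1 = true := ex3_a k26_pm_102_s k27_pm_102_s

theorem s55_pm_102_s : ∃ t, chk3 f_pm_102_s t 121 63 1 = true := ex3_b k25_pm_102_s s54_pm_102_s

theorem s56_pm_102_s : ∃ t, chk3 f_pm_102_s t 120 255 1 = true := ex3_b k23_pm_102_s k24_pm_102_s

theorem s57_pm_102_s : ∃ t, chk3 f_pm_102_s t 120 127 1 = true := ex3_b k22_pm_102_s s56_pm_102_s

theorem s58_pm_102_s : ∃ t, chk3 f_pm_102_s t 120 63 1 = true := ex3_b k21_pm_102_s s57_pm_102_s

theorem s59_pm_102_s : ∃ t, chk3 f_pm_102_s t 60 63 1 = true := ex3_a s58_pm_102_s s55_pm_102_s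

theorem s60_pm_102_s : ∃ t, chk3 f_pm_102_s t 60 31 1 = true := ex3_b k20_pm_102_s s59_pm_102_s

theorem s61_pm_102_s : ∃ t, chk3 f_pm_102_s t 30 31 1 = true := ex3_a s60_pm_102_s s53_pm_102_s

theorem s62_pm_102_s : ∃ t, chk3 f_pm_102_s t 30 30 1 = true := ex3_a k18_pm_102_s k19_pm_102_s

theorem s63_pm_102_s : ∃ t, chk3 f_pm_102_s t 30 15 1 = true := ex3_b s62_pm_102_s s61_pm_102_s

theorem s64_pm_102_s : ∃ t, chk3 f_pm_102_s t 15 15 1 = true := ex3_a s63_pm_102_s s50_pm_102_s

theorem s65_pm_102_s : ∃ t, chk3 f_pm_102_s t 15 7 1 = true := ex3_b k17_pm_102_s s64_pm_102_s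

theorem s66_pm_102_s : ∃ t, chk3 f_pm_102_s t 29 127 1 = true := ex3_b k15_pm_102_s k16_pm_102_s

theorem s67_pm_102_s : ∃ t, chk3 f_pm_102_s t 29 63 1 = true := ex3_b k14_pm_102_s s66_pm_102_s

theorem s68_pm_102_s : ∃ t, chk3 f_pm_102_s t 29 31 1 = true := ex3_b k13_pm_102_s s67_pm_102_s

theorem s69_pm_102_s : ∃ t, chk3 f_pm_102_s t 29 15 1 = true := ex3_b k12_pm_102_s s68_pm_102_s

theorem s70_pm_102_s : ∃ t, chk3 f_pm_102_s t 14 15 1 = true := ex3_a k11_pm_102_s s69_pm_102_s

theorem s71_pm_102_s : ∃ t, chk3 f_pm_102_s t 14 14 1 = true := ex3_a k9_pm_102_s k10_pm_102_s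

theorem s72_pm_102_s : ∃ t, chk3 f_pm_102_s t 14 7 1 = true := ex3_b s71_pm_102_s s70_pm_102_s

theorem s73_pm_102_s : ∃ t, chk3 f_pm_102_s t 7 7 1 = true := ex3_a s72_pm_102_s s65_pm_102_s

theorem s74_pm_102_s : ∃ t, chk3 f_pm_102_s t 7 3 1 = true := ex3_b k8_pm_102_s s73_pm_102_s

theorem s75_pm_102_s : ∃ t, chk3 f_pm_102_s t 6 7 1 = true := ex3_b k6_pm_102_s k7_pm_102_s

theorem s76_pm_102_s : ∃ t, chk3 f_pm_102_s t 13 6 1 = true := ex3_b k4_pm_102_s k5_pm_102_s

theorem s77_pm_102_s : ∃ t, chk3 f_pm_102_s t 6 6 1 = true := ex3_a k3_pm_102_s s76_pm_102_s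

theorem s78_pm_102_s : ∃ t, chk3 f_pm_102_s t 6 3 1 = true := ex3_b s77_pm_102_s s75_pm_102_s

theorem s79_pm_102_s : ∃ t, chk3 f_pm_102_s t 3 3 1 = true := ex3_a s78_pm_102_s s74_pm_102_s

theorem s80_pm_102_s : ∃ t, chk3 f_pm_102_s t 3 1 1 = true := ex3_b k2_pm_102_s s79_pm_102_s

theorem s81_pm_102_s : ∃ t, chk3 f_pm_102_s t 2 1 1 = true := ex3_b k0_pm_102_s k1_pm_102_s

theorem s82_pm_102_s : ∃ t, chk3 f_pm_102_s t 1 1 1 = true := ex3_a s81_pm_102_s s80_pm_102_s

theorem c_pm_102_s : CertNE 536870912 536870912 0 536870912 966367641 24778659 3 eng mog cd0q1 cd0q2 pd0 false true false .npp 1 0 2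
    ndB0q1 ndB0q2 pcB0 cut_pm_102_s xt_pm_102_s :=
  certNE0 (fam := false) (s1 := true) (s2 := false) (a := 1) (b := 0) (c := 2) (cn := .npp) (n1 := ndB0q1) (n2 := ndB0q2) (pc := pcB0) (cut := cut_pm_102_s) (xt := xt_pm_102_s) (P1 := 536870912) (W1 := 536870912) (P2 := 0) (W2 := 536870912) (P3 := 966367641) (W3 := 24778659) (N0 := 3) (En := eng) (mo := mog) (C1 := cd0q1) (C2 := cd0q2) (C3 := pd0)
    rfl s82_pm_102_s

noncomputable def cut_pm_102_t : Cut := Cut.of [[⟨3, 0, 0, 2845415833⟩], [⟨0, 1, 0, 33554432⟩, ⟨1, 0, 0, 33554432⟩, ⟨2, 1, 0, 33554432⟩], [⟨0, 0, 1, 46137344⟩, ⟨1, 1, 2, 46137344⟩, ⟨2, 1, 0, 1572864⟩, ⟨0, 0, 0, 1013612281⟩, ⟨0, 1, 0, 128849018⟩, ⟨1, 0, 0, 128849018⟩, ⟨1, 1, 0, 1013612281⟩]]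

noncomputable def f_pm_102_t : ℕ → ℕ → ℕ → ℕ → Bool := onCell 536870912 536870912 0 536870912 966367641 24778659
    (rowNE 3 eng mog cd0q1 cd0q2 pd0 0 false true false .npp 1 0 2 (qsf 536870912 536870912 0 536870912 0) ndB0q1 ndB0q2 pcB0 cut_pm_102_t Ext.none)

def k0_pm_102_t : ∃ t, chk3 f_pm_102_t t 1 1 1 = true :=
  ⟨(l 6), by decide +kernel⟩

theorem c_pm_102_t : CertNE 536870912 536870912 0 536870912 966367641 24778659 3 eng mog cd0q1 cd0q2 pd0 false true false .npp 1 0 2
    ndB0q1 ndB0q2 pcB0 cut_pm_102_t Ext.none :=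
  certNE0 (fam := false) (s1 := true) (s2 := false) (a := 1) (b := 0) (c := 2) (cn := .npp) (n1 := ndB0q1) (n2 := ndB0q2) (pc := pcB0) (cut := cut_pm_102_t) (xt := Ext.none) (P1 := 536870912) (W1 := 536870912) (P2 := 0) (W2 := 536870912) (P3 := 966367641) (W3 := 24778659) (N0 := 3) (En := eng) (mo := mog) (C1 := cd0q1) (C2 := cd0q2) (C3 := pd0)
    rfl k0_pm_102_t

noncomputable def cut_pm_112_s : Cut := Cut.of [[⟨4, 0, 0, 1449551462⟩]]

noncomputable def f_pm_112_s : ℕ → ℕ → ℕ → ℕ → Bool := onCell 536870912 536870912 0 536870912 966367641 24778659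
    (rowNE 3 eng mog cd0q1 cd0q2 pd1 2 false true false .dn 1 1 2 (qsf 536870912 536870912 0 536870912 1) ndB0q1 ndB0q2 pcB1 cut_pm_112_s Ext.none)

def k0_pm_112_s : ∃ t, chk3 f_pm_112_s t 1 1 1 = true :=
  ⟨(a (b (a (a (b (b (a (b (l 3) (a (l 129553496887) (b (l 16718384) (l 83919519303)))) (b (a (l 128479757175) (l 101099339975)) (a (b (l 16727224) (l 16741760)) (l 16728216)))) (a (a (b (b (l 79624541815) (l 16735896)) (c (l 16656632) (l 16664560))) (b (l 16700944) (l 16611360))) (a (c (l 16551360) (l 16580440)) (b (l 16644984) (l 16604512))))) (b (a (a (b (l 16567424) (l 16516840)) (b (l 16564328) (l 16518080))) (a (b (l 16563616) (l 16500456)) (b (l 16544008) (l 16484664)))) (a (b (a (l 16467088) (l 16451896)) (a (l 16397448) (l 16387016))) (b (a (l 16438520) (l 16426744)) (l 6))))) (b (a (b (a (b (b (l 16770488) (l 16745496)) (l 16679656)) (b (l 16732336) (l 16675192))) (a (b (l 16641488) (l 16583304)) (l 16507600))) (b (a (c (l 16635400) (l 16638624)) (l 16592960)) (b (l 16504592) (l 16495832))))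 (b (a (b (l 16434056) (l 16422024)) (b (l 16488592) (l 16441192))) (a (l 6) (l 6))))) (a (b (a (b (a (l 16592464) (l 16593448)) (a (l 16538216) (l 16523224))) (b (l 1) (l 1))) (b (a (a (l 16448656) (l 6)) (l 1)) (l 6))) (l 1))) (a (b (l 6) (l 6)) (l 6))) (l 1)), by decide +kernel⟩

theorem c_pm_112_s : CertNE 536870912 536870912 0 536870912 966367641 24778659 3 eng mog cd0q1 cd0q2 pd1 false true false .dn 1 1 2
    ndB0q1 ndB0q2 pcB1 cut_pm_112_s Ext.none :=
  certNE2 (fam := false) (s1 := true) (s2 := false) (a := 1) (b := 1) (c := 2) (cn := .dn) (n1 := ndB0q1) (n2 := ndB0q2) (pc := pcB1) (cut := cut_pm_112_s) (xt := Ext.none) (P1 := 536870912) (W1 := 536870912) (P2 := 0) (W2 := 536870912) (P3 := 966367641) (W3 := 24778659) (N0 := 3) (En := eng) (mo := mog) (C1 := cd0q1) (C2 := cd0q2) (C3 := pd1)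
    rfl (fun _ => rfl) k0_pm_112_s

noncomputable def cut_pm_112_t : Cut := Cut.of [[⟨3, 0, 0, 2845415833⟩]]

noncomputable def f_pm_112_t : ℕ → ℕ → ℕ → ℕ → Bool := onCell 536870912 536870912 0 536870912 966367641 24778659
    (rowNE 3 eng mog cd0q1 cd0q2 pd1 0 false true false .dn 1 1 2 (qsf 536870912 536870912 0 536870912 1) ndB0q1 ndB0q2 pcB1 cut_pm_112_t Ext.none)

def k0_pm_112_t : ∃ t, chk3 f_pm_112_t t 1 1 1 = true :=
  ⟨(l 6), by decide +kernel⟩

theorem c_pm_112_t : CertNE 536870912 536870912 0 536870912 966367641 24778659 3 eng mog cd0q1 cd0q2 pd1 false true false .dn 1 1 2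
    ndB0q1 ndB0q2 pcB1 cut_pm_112_t Ext.none :=
  certNE0 (fam := false) (s1 := true) (s2 := false) (a := 1) (b := 1) (c := 2) (cn := .dn) (n1 := ndB0q1) (n2 := ndB0q2) (pc := pcB1) (cut := cut_pm_112_t) (xt := Ext.none) (P1 := 536870912) (W1 := 536870912) (P2 := 0) (W2 := 536870912) (P3 := 966367641) (W3 := 24778659) (N0 := 3) (En := eng) (mo := mog) (C1 := cd0q1) (C2 := cd0q2) (C3 := pd1)
    rfl k0_pm_112_t

noncomputable def cut_pm_202_s : Cut := Cut.of [[⟨4, 0, 0, 1449551462⟩], [⟨0, 1, 0, 67108864⟩, ⟨1, 0, 0, 67108864⟩, ⟨2, 1, 0, 67108864⟩]]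

noncomputable def f_pm_202_s : ℕ → ℕ → ℕ → ℕ → Bool := onCell 0 536870912 0 536870912 966367641 24778659
    (rowNE 3 eng mog cd0q2 cd0q2 pd0 0 false true false .pp 2 0 2 (qsf 0 536870912 0 536870912 0) ndB0q2 ndB0q2 pcB0 cut_pm_202_s Ext.none)

def k0_pm_202_s : ∃ t, chk3 f_pm_202_s t 1 1 1 = true :=
  ⟨(a (l 3) (b (l 3) (a (l 3) (b (l 3) (a (l 3) (b (l 3) (l 14))))))), by decide +kernel⟩

theorem c_pm_202_s : CertNE 0 536870912 0 536870912 966367641 24778659 3 eng mog cd0q2 cd0q2 pd0 false true false .pp 2 0 2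
    ndB0q2 ndB0q2 pcB0 cut_pm_202_s Ext.none :=
  certNE0 (fam := false) (s1 := true) (s2 := false) (a := 2) (b := 0) (c := 2) (cn := .pp) (n1 := ndB0q2) (n2 := ndB0q2) (pc := pcB0) (cut := cut_pm_202_s) (xt := Ext.none) (P1 := 0) (W1 := 536870912) (P2 := 0) (W2 := 536870912) (P3 := 966367641) (W3 := 24778659) (N0 := 3) (En := eng) (mo := mog) (C1 := cd0q2) (C2 := cd0q2) (C3 := pd0)
    rfl k0_pm_202_s

noncomputable def cut_pm_202_t : Cut := Cut.of [[⟨3, 0, 0, 2845415833⟩], [⟨0, 1, 0, 67108864⟩, ⟨1, 0, 0, 67108864⟩, ⟨2, 1, 0, 67108864⟩]]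

noncomputable def f_pm_202_t : ℕ → ℕ → ℕ → ℕ → Bool := onCell 0 536870912 0 536870912 966367641 24778659
    (rowNE 3 eng mog cd0q2 cd0q2 pd0 0 false true false .pp 2 0 2 (qsf 0 536870912 0 536870912 0) ndB0q2 ndB0q2 pcB0 cut_pm_202_t Ext.none)

def k0_pm_202_t : ∃ t, chk3 f_pm_202_t t 1 1 1 = true :=
  ⟨(l 6), by decide +kernel⟩

theorem c_pm_202_t : CertNE 0 536870912 0 536870912 966367641 24778659 3 eng mog cd0q2 cd0q2 pd0 false true false .pp 2 0 2
    ndB0q2 ndB0q2 pcB0 cut_pm_202_t Ext.none :=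
  certNE0 (fam := false) (s1 := true) (s2 := false) (a := 2) (b := 0) (c := 2) (cn := .pp) (n1 := ndB0q2) (n2 := ndB0q2) (pc := pcB0) (cut := cut_pm_202_t) (xt := Ext.none) (P1 := 0) (W1 := 536870912) (P2 := 0) (W2 := 536870912) (P3 := 966367641) (W3 := 24778659) (N0 := 3) (En := eng) (mo := mog) (C1 := cd0q2) (C2 := cd0q2) (C3 := pd0)
    rfl k0_pm_202_t

noncomputable def cut_mm_001_s : Cut := Cut.of [[⟨4, 0, 0, 1449551462⟩]]

noncomputable def f_mm_001_s : ℕ → ℕ → ℕ → ℕ → Bool := onCell 0 536870912 0 536870912 966367641 24778659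
    (rowNE 3 eng mog cd0q0 cd0q1 pd0 1 false false false .up 0 0 1 (qsf 0 536870912 536870912 536870912 0) ndB0q0 ndB0q1 pcB0 cut_mm_001_s Ext.none)

def k0_mm_001_s : ∃ t, chk3 f_mm_001_s t 1 1 1 = true :=
  ⟨(l 3), by decide +kernel⟩

theorem c_mm_001_s : CertNE 0 536870912 536870912 536870912 966367641 24778659 3 eng mog cd0q0 cd0q1 pd0 false false false .up 0 0 1
    ndB0q0 ndB0q1 pcB0 cut_mm_001_s Ext.none :=
  certNE1 (fam := false) (s1 := false) (s2 := false) (a := 0) (b := 0) (c := 1) (cn := .up) (n1 := ndB0q0) (n2 := ndB0q1) (pc := pcB0) (cut := cut_mm_001_s) (xt := Ext.none) (P1 := 0) (W1 := 536870912) (P2 := 536870912) (W2 := 536870912) (P3 := 966367641) (W3 := 24778659) (N0 := 3) (En := eng) (mo := mog) (C1 := cd0q0) (C2 := cd0q1) (C3 := pd0)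
    rfl (fun _ => rfl) k0_mm_001_s

noncomputable def cut_mm_001_t : Cut := Cut.of [[⟨3, 0, 0, 2845415833⟩]]

noncomputable def f_mm_001_t : ℕ → ℕ → ℕ → ℕ → Bool := onCell 0 536870912 536870912 536870912 966367641 24778659
    (rowNE 3 eng mog cd0q0 cd0q1 pd0 0 false false false .up 0 0 1 (qsf 0 536870912 536870912 536870912 0) ndB0q0 ndB0q1 pcB0 cut_mm_001_t Ext.none)

def k0_mm_001_t : ∃ t, chk3 f_mm_001_t t 1 1 1 = true :=
  ⟨(l 6), by decide +kernel⟩

theorem c_mm_001_t : CertNE 0 536870912 536870912 536870912 966367641 24778659 3 eng mog cd0q0 cd0q1 pd0 false false false .up 0 0 1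
    ndB0q0 ndB0q1 pcB0 cut_mm_001_t Ext.none :=
  certNE0 (fam := false) (s1 := false) (s2 := false) (a := 0) (b := 0) (c := 1) (cn := .up) (n1 := ndB0q0) (n2 := ndB0q1) (pc := pcB0) (cut := cut_mm_001_t) (xt := Ext.none) (P1 := 0) (W1 := 536870912) (P2 := 536870912) (W2 := 536870912) (P3 := 966367641) (W3 := 24778659) (N0 := 3) (En := eng) (mo := mog) (C1 := cd0q0) (C2 := cd0q1) (C3 := pd0)
    rfl k0_mm_001_t

noncomputable def cut_mm_011_s : Cut := Cut.of [[⟨4, 0, 0, 1449551462⟩]]

noncomputable def f_mm_011_s : ℕ → ℕ → ℕ → ℕ → Bool := onCell 0 536870912 536870912 536870912 966367641 24778659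
    (rowNE 3 eng mog cd0q0 cd0q1 pd1 1 false false false .pnn 0 1 1 (qsf 0 536870912 536870912 536870912 1) ndB0q0 ndB0q1 pcB1 cut_mm_011_s Ext.none)

def k0_mm_011_s : ∃ t, chk3 f_mm_011_s t 1 1 1 = true :=
  ⟨(l 5), by decide +kernel⟩

theorem c_mm_011_s : CertNE 0 536870912 536870912 536870912 966367641 24778659 3 eng mog cd0q0 cd0q1 pd1 false false false .pnn 0 1 1
    ndB0q0 ndB0q1 pcB1 cut_mm_011_s Ext.none :=
  certNE1 (fam := false) (s1 := false) (s2 := false) (a := 0) (b := 1) (c := 1) (cn := .pnn) (n1 := ndB0q0) (n2 := ndB0q1) (pc := pcB1) (cut := cut_mm_011_s) (xt := Ext.none) (P1 := 0) (W1 := 536870912) (P2 := 536870912) (W2 := 536870912) (P3 := 966367641) (W3 := 24778659) (N0 := 3) (En := eng) (mo := mog) (C1 := cd0q0) (C2 := cd0q1) (C3 := pd1)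
    rfl (fun _ => rfl) k0_mm_011_s

noncomputable def cut_mm_011_t : Cut := Cut.of [[⟨3, 0, 0, 2845415833⟩]]

noncomputable def f_mm_011_t : ℕ → ℕ → ℕ → ℕ → Bool := onCell 0 536870912 536870912 536870912 966367641 24778659
    (rowNE 3 eng mog cd0q0 cd0q1 pd1 0 false false false .pnn 0 1 1 (qsf 0 536870912 536870912 536870912 1) ndB0q0 ndB0q1 pcB1 cut_mm_011_t Ext.none)

def k0_mm_011_t : ∃ t, chk3 f_mm_011_t t 1 1 1 = true :=
  ⟨(l 6), by decide +kernel⟩

theorem c_mm_011_t : CertNE 0 536870912 536870912 536870912 966367641 24778659 3 eng mog cd0q0 cd0q1 pd1 false false false .pnn 0 1 1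
    ndB0q0 ndB0q1 pcB1 cut_mm_011_t Ext.none :=
  certNE0 (fam := false) (s1 := false) (s2 := false) (a := 0) (b := 1) (c := 1) (cn := .pnn) (n1 := ndB0q0) (n2 := ndB0q1) (pc := pcB1) (cut := cut_mm_011_t) (xt := Ext.none) (P1 := 0) (W1 := 536870912) (P2 := 536870912) (W2 := 536870912) (P3 := 966367641) (W3 := 24778659) (N0 := 3) (En := eng) (mo := mog) (C1 := cd0q0) (C2 := cd0q1) (C3 := pd1)
    rfl k0_mm_011_t

noncomputable def cut_mm_012_s : Cut := Cut.of [[⟨4, 0, 0, 1449551462⟩]]

noncomputable def f_mm_012_s : ℕ → ℕ → ℕ → ℕ → Bool := onCell 0 536870912 0 536870912 966367641 24778659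
    (rowNE 3 eng mog cd0q0 cd0q2 pd1 0 false false false .pnp 0 1 2 (qsf 0 536870912 0 536870912 1) ndB0q0 ndB0q2 pcB1 cut_mm_012_s Ext.none)

def k0_mm_012_s : ∃ t, chk3 f_mm_012_s t 1 1 1 = true :=
  ⟨(l 5), by decide +kernel⟩

theorem c_mm_012_s : CertNE 0 536870912 0 536870912 966367641 24778659 3 eng mog cd0q0 cd0q2 pd1 false false false .pnp 0 1 2
    ndB0q0 ndB0q2 pcB1 cut_mm_012_s Ext.none :=
  certNE0 (fam := false) (s1 := false) (s2 := false) (a := 0) (b := 1) (c := 2) (cn := .pnp) (n1 := ndB0q0) (n2 := ndB0q2) (pc := pcB1) (cut := cut_mm_012_s) (xt := Ext.none) (P1 := 0) (W1 := 536870912) (P2 := 0) (W2 := 536870912) (P3 := 966367641) (W3 := 24778659) (N0 := 3) (En := eng) (mo := mog) (C1 := cd0q0) (C2 := cd0q2) (C3 := pd1)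
    rfl k0_mm_012_s

noncomputable def cut_mm_012_t : Cut := Cut.of [[⟨3, 0, 0, 2845415833⟩]]

noncomputable def f_mm_012_t : ℕ → ℕ → ℕ → ℕ → Bool := onCell 0 536870912 0 536870912 966367641 24778659
    (rowNE 3 eng mog cd0q0 cd0q2 pd1 0 false false false .pnp 0 1 2 (qsf 0 536870912 0 536870912 1) ndB0q0 ndB0q2 pcB1 cut_mm_012_t Ext.none)

def k0_mm_012_t : ∃ t, chk3 f_mm_012_t t 1 1 1 = true :=
  ⟨(l 5), by decide +kernel⟩

theorem c_mm_012_t : CertNE 0 536870912 0 536870912 966367641 24778659 3 eng mog cd0q0 cd0q2 pd1 false false false .pnp 0 1 2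
    ndB0q0 ndB0q2 pcB1 cut_mm_012_t Ext.none :=
  certNE0 (fam := false) (s1 := false) (s2 := false) (a := 0) (b := 1) (c := 2) (cn := .pnp) (n1 := ndB0q0) (n2 := ndB0q2) (pc := pcB1) (cut := cut_mm_012_t) (xt := Ext.none) (P1 := 0) (W1 := 536870912) (P2 := 0) (W2 := 536870912) (P3 := 966367641) (W3 := 24778659) (N0 := 3) (En := eng) (mo := mog) (C1 := cd0q0) (C2 := cd0q2) (C3 := pd1)
    rfl k0_mm_012_t

noncomputable def cut_mm_022_s : Cut := Cut.of [[⟨4, 0, 0, 1449551462⟩]]

noncomputable def f_mm_022_s : ℕ → ℕ → ℕ → ℕ → Bool := onCell 0 536870912 0 536870912 966367641 24778659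
    (rowNE 3 eng mog cd0q0 cd0q2 pd2 0 false false false .pp 0 2 2 (qsf 0 536870912 0 536870912 2) ndB0q0 ndB0q2 pcB2 cut_mm_022_s Ext.none)

def k0_mm_022_s : ∃ t, chk3 f_mm_022_s t 1 1 1 = true :=
  ⟨(l 5), by decide +kernel⟩

theorem c_mm_022_s : CertNE 0 536870912 0 536870912 966367641 24778659 3 eng mog cd0q0 cd0q2 pd2 false false false .pp 0 2 2
    ndB0q0 ndB0q2 pcB2 cut_mm_022_s Ext.none :=
  certNE0 (fam := false) (s1 := false) (s2 := false) (a := 0) (b := 2) (c := 2) (cn := .pp) (n1 := ndB0q0) (n2 := ndB0q2) (pc := pcB2) (cut := cut_mm_022_s) (xt := Ext.none) (P1 := 0) (W1 := 536870912) (P2 := 0) (W2 := 536870912) (P3 := 966367641) (W3 := 24778659) (N0 := 3) (En := eng) (mo := mog) (C1 := cd0q0) (C2 := cd0q2) (C3 := pd2)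
    rfl k0_mm_022_s

noncomputable def cut_mm_022_t : Cut := Cut.of [[⟨3, 0, 0, 2845415833⟩]]

noncomputable def f_mm_022_t : ℕ → ℕ → ℕ → ℕ → Bool := onCell 0 536870912 0 536870912 966367641 24778659
    (rowNE 3 eng mog cd0q0 cd0q2 pd2 0 false false false .pp 0 2 2 (qsf 0 536870912 0 536870912 2) ndB0q0 ndB0q2 pcB2 cut_mm_022_t Ext.none)

def k0_mm_022_t : ∃ t, chk3 f_mm_022_t t 1 1 1 = true :=
  ⟨(l 5), by decide +kernel⟩

theorem c_mm_022_t : CertNE 0 536870912 0 536870912 966367641 24778659 3 eng mog cd0q0 cd0q2 pd2 false false false .pp 0 2 2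
    ndB0q0 ndB0q2 pcB2 cut_mm_022_t Ext.none :=
  certNE0 (fam := false) (s1 := false) (s2 := false) (a := 0) (b := 2) (c := 2) (cn := .pp) (n1 := ndB0q0) (n2 := ndB0q2) (pc := pcB2) (cut := cut_mm_022_t) (xt := Ext.none) (P1 := 0) (W1 := 536870912) (P2 := 0) (W2 := 536870912) (P3 := 966367641) (W3 := 24778659) (N0 := 3) (En := eng) (mo := mog) (C1 := cd0q0) (C2 := cd0q2) (C3 := pd2)
    rfl k0_mm_022_t

noncomputable def cut_mm_101_s : Cut := Cut.of [[⟨4, 0, 0, 1449551462⟩]]

noncomputable def f_mm_101_s : ℕ → ℕ → ℕ → ℕ → Bool := onCell 536870912 536870912 536870912 536870912 966367641 24778659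
    (rowNE 3 eng mog cd0q1 cd0q1 pd0 0 false false false .npn 1 0 1 (qsf 536870912 536870912 536870912 536870912 0) ndB0q1 ndB0q1 pcB0 cut_mm_101_s Ext.none)

def k0_mm_101_s : ∃ t, chk3 f_mm_101_s t 1 1 1 = true :=
  ⟨(l 3), by decide +kernel⟩

theorem c_mm_101_s : CertNE 536870912 536870912 536870912 536870912 966367641 24778659 3 eng mog cd0q1 cd0q1 pd0 false false false .npn 1 0 1
    ndB0q1 ndB0q1 pcB0 cut_mm_101_s Ext.none :=
  certNE0 (fam := false) (s1 := false) (s2 := false) (a := 1) (b := 0) (c := 1) (cn := .npn) (n1 := ndB0q1) (n2 := ndB0q1) (pc := pcB0) (cut := cut_mm_101_s) (xt := Ext.none) (P1 := 536870912) (W1 := 536870912) (P2 := 536870912) (W2 := 536870912) (P3 := 966367641) (W3 := 24778659) (N0 := 3) (En := eng) (mo := mog) (C1 := cd0q1) (C2 := cd0q1) (C3 := pd0)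
    rfl k0_mm_101_s

noncomputable def cut_mm_101_t : Cut := Cut.of [[⟨3, 0, 0, 2845415833⟩]]

noncomputable def f_mm_101_t : ℕ → ℕ → ℕ → ℕ → Bool := onCell 536870912 536870912 536870912 536870912 966367641 24778659
    (rowNE 3 eng mog cd0q1 cd0q1 pd0 0 false false false .npn 1 0 1 (qsf 536870912 536870912 536870912 536870912 0) ndB0q1 ndB0q1 pcB0 cut_mm_101_t Ext.none)

def k0_mm_101_t : ∃ t, chk3 f_mm_101_t t 1 1 1 = true :=
  ⟨(l 3), by decide +kernel⟩

theorem c_mm_101_t : CertNE 536870912 536870912 536870912 536870912 966367641 24778659 3 eng mog cd0q1 cd0q1 pd0 false false false .npn 1 0 1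
    ndB0q1 ndB0q1 pcB0 cut_mm_101_t Ext.none :=
  certNE0 (fam := false) (s1 := false) (s2 := false) (a := 1) (b := 0) (c := 1) (cn := .npn) (n1 := ndB0q1) (n2 := ndB0q1) (pc := pcB0) (cut := cut_mm_101_t) (xt := Ext.none) (P1 := 536870912) (W1 := 536870912) (P2 := 536870912) (W2 := 536870912) (P3 := 966367641) (W3 := 24778659) (N0 := 3) (En := eng) (mo := mog) (C1 := cd0q1) (C2 := cd0q1) (C3 := pd0)
    rfl k0_mm_101_t

noncomputable def cut_mm_102_s : Cut := Cut.of [[⟨4, 0, 0, 1449551462⟩]]

noncomputable def f_mm_102_s : ℕ → ℕ → ℕ → ℕ → Bool := onCell 536870912 536870912 0 536870912 966367641 24778659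
    (rowNE 3 eng mog cd0q1 cd0q2 pd0 0 false false false .npp 1 0 2 (qsf 536870912 536870912 0 536870912 0) ndB0q1 ndB0q2 pcB0 cut_mm_102_s Ext.none)

def k0_mm_102_s : ∃ t, chk3 f_mm_102_s t 1 1 1 = true :=
  ⟨(a (l 5) (l 3)), by decide +kernel⟩

theorem c_mm_102_s : CertNE 536870912 536870912 0 536870912 966367641 24778659 3 eng mog cd0q1 cd0q2 pd0 false false false .npp 1 0 2
    ndB0q1 ndB0q2 pcB0 cut_mm_102_s Ext.none :=
  certNE0 (fam := false) (s1 := false) (s2 := false) (a := 1) (b := 0) (c := 2) (cn := .npp) (n1 := ndB0q1) (n2 := ndB0q2) (pc := pcB0) (cut := cut_mm_102_s) (xt := Ext.none) (P1 := 536870912) (W1 := 536870912) (P2 := 0) (W2 := 536870912) (P3 := 966367641) (W3 := 24778659) (N0 := 3) (En := eng) (mo := mog) (C1 := cd0q1) (C2 := cd0q2) (C3 := pd0)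
    rfl k0_mm_102_s

noncomputable def cut_mm_102_t : Cut := Cut.of [[⟨3, 0, 0, 2845415833⟩]]

noncomputable def f_mm_102_t : ℕ → ℕ → ℕ → ℕ → Bool := onCell 536870912 536870912 0 536870912 966367641 24778659
    (rowNE 3 eng mog cd0q1 cd0q2 pd0 0 false false false .npp 1 0 2 (qsf 536870912 536870912 0 536870912 0) ndB0q1 ndB0q2 pcB0 cut_mm_102_t Ext.none)

def k0_mm_102_t : ∃ t, chk3 f_mm_102_t t 1 1 1 = true :=
  ⟨(l 6), by decide +kernel⟩

theorem c_mm_102_t : CertNE 536870912 536870912 0 536870912 966367641 24778659 3 eng mog cd0q1 cd0q2 pd0 false false false .npp 1 0 2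
    ndB0q1 ndB0q2 pcB0 cut_mm_102_t Ext.none :=
  certNE0 (fam := false) (s1 := false) (s2 := false) (a := 1) (b := 0) (c := 2) (cn := .npp) (n1 := ndB0q1) (n2 := ndB0q2) (pc := pcB0) (cut := cut_mm_102_t) (xt := Ext.none) (P1 := 536870912) (W1 := 536870912) (P2 := 0) (W2 := 536870912) (P3 := 966367641) (W3 := 24778659) (N0 := 3) (En := eng) (mo := mog) (C1 := cd0q1) (C2 := cd0q2) (C3 := pd0)
    rfl k0_mm_102_t

noncomputable def cut_mm_112_s : Cut := Cut.of [[⟨4, 0, 0, 1449551462⟩]]

noncomputable def f_mm_112_s : ℕ → ℕ → ℕ → ℕ → Bool := onCell 536870912 536870912 0 536870912 966367641 24778659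
    (rowNE 3 eng mog cd0q1 cd0q2 pd1 2 false false false .dn 1 1 2 (qsf 536870912 536870912 0 536870912 1) ndB0q1 ndB0q2 pcB1 cut_mm_112_s Ext.none)

def k0_mm_112_s : ∃ t, chk3 f_mm_112_s t 1 1 1 = true :=
  ⟨(l 5), by decide +kernel⟩

theorem c_mm_112_s : CertNE 536870912 536870912 0 536870912 966367641 24778659 3 eng mog cd0q1 cd0q2 pd1 false false false .dn 1 1 2
    ndB0q1 ndB0q2 pcB1 cut_mm_112_s Ext.none :=
  certNE2 (fam := false) (s1 := false) (s2 := false) (a := 1) (b := 1) (c := 2) (cn := .dn) (n1 := ndB0q1) (n2 := ndB0q2) (pc := pcB1) (cut := cut_mm_112_s) (xt := Ext.none) (P1 := 536870912) (W1 := 536870912) (P2 := 0) (W2 := 536870912) (P3 := 966367641) (W3 := 24778659) (N0 := 3) (En := eng) (mo := mog) (C1 := cd0q1) (C2 := cd0q2) (C3 := pd1)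
    rfl (fun _ => rfl) k0_mm_112_s

noncomputable def cut_mm_112_t : Cut := Cut.of [[⟨3, 0, 0, 2845415833⟩]]

noncomputable def f_mm_112_t : ℕ → ℕ → ℕ → ℕ → Bool := onCell 536870912 536870912 0 536870912 966367641 24778659
    (rowNE 3 eng mog cd0q1 cd0q2 pd1 0 false false false .dn 1 1 2 (qsf 536870912 536870912 0 536870912 1) ndB0q1 ndB0q2 pcB1 cut_mm_112_t Ext.none)

def k0_mm_112_t : ∃ t, chk3 f_mm_112_t t 1 1 1 = true :=
  ⟨(l 6), by decide +kernel⟩

theorem c_mm_112_t : CertNE 536870912 536870912 0 536870912 966367641 24778659 3 eng mog cd0q1 cd0q2 pd1 false false false .dn 1 1 2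
    ndB0q1 ndB0q2 pcB1 cut_mm_112_t Ext.none :=
  certNE0 (fam := false) (s1 := false) (s2 := false) (a := 1) (b := 1) (c := 2) (cn := .dn) (n1 := ndB0q1) (n2 := ndB0q2) (pc := pcB1) (cut := cut_mm_112_t) (xt := Ext.none) (P1 := 536870912) (W1 := 536870912) (P2 := 0) (W2 := 536870912) (P3 := 966367641) (W3 := 24778659) (N0 := 3) (En := eng) (mo := mog) (C1 := cd0q1) (C2 := cd0q2) (C3 := pd1)
    rfl k0_mm_112_t

noncomputable def cut_mm_202_s : Cut := Cut.of [[⟨4, 0, 0, 1449551462⟩]]

noncomputable def f_mm_202_s : ℕ → ℕ → ℕ → ℕ → Bool := onCell 0 536870912 0 536870912 966367641 24778659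
    (rowNE 3 eng mog cd0q2 cd0q2 pd0 0 false false false .pp 2 0 2 (qsf 0 536870912 0 536870912 0) ndB0q2 ndB0q2 pcB0 cut_mm_202_s Ext.none)

def k0_mm_202_s : ∃ t, chk3 f_mm_202_s t 1 1 1 = true :=
  ⟨(l 3), by decide +kernel⟩

theorem c_mm_202_s : CertNE 0 536870912 0 536870912 966367641 24778659 3 eng mog cd0q2 cd0q2 pd0 false false false .pp 2 0 2
    ndB0q2 ndB0q2 pcB0 cut_mm_202_s Ext.none :=
  certNE0 (fam := false) (s1 := false) (s2 := false) (a := 2) (b := 0) (c := 2) (cn := .pp) (n1 := ndB0q2) (n2 := ndB0q2) (pc := pcB0) (cut := cut_mm_202_s) (xt := Ext.none) (P1 := 0) (W1 := 536870912) (P2 := 0) (W2 := 536870912) (P3 := 966367641) (W3 := 24778659) (N0 := 3) (En := eng) (mo := mog) (C1 := cd0q2) (C2 := cd0q2) (C3 := pd0)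
    rfl k0_mm_202_s

noncomputable def cut_mm_202_t : Cut := Cut.of [[⟨3, 0, 0, 2845415833⟩]]

noncomputable def f_mm_202_t : ℕ → ℕ → ℕ → ℕ → Bool := onCell 0 536870912 0 536870912 966367641 24778659
    (rowNE 3 eng mog cd0q2 cd0q2 pd0 0 false false false .pp 2 0 2 (qsf 0 536870912 0 536870912 0) ndB0q2 ndB0q2 pcB0 cut_mm_202_t Ext.none)

def k0_mm_202_t : ∃ t, chk3 f_mm_202_t t 1 1 1 = true :=
  ⟨(l 3), by decide +kernel⟩

theorem c_mm_202_t : CertNE 0 536870912 0 536870912 966367641 24778659 3 eng mog cd0q2 cd0q2 pd0 false false false .pp 2 0 2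
    ndB0q2 ndB0q2 pcB0 cut_mm_202_t Ext.none :=
  certNE0 (fam := false) (s1 := false) (s2 := false) (a := 2) (b := 0) (c := 2) (cn := .pp) (n1 := ndB0q2) (n2 := ndB0q2) (pc := pcB0) (cut := cut_mm_202_t) (xt := Ext.none) (P1 := 0) (W1 := 536870912) (P2 := 0) (W2 := 536870912) (P3 := 966367641) (W3 := 24778659) (N0 := 3) (En := eng) (mo := mog) (C1 := cd0q2) (C2 := cd0q2) (C3 := pd0)
    rfl k0_mm_202_t

end Pool.Agent.Strip051.G.I9000_9231.Tab.CS.BB00

namespace Pool.Agent.Strip051.G.I9000_9231.Tab.CS.BB04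

open Pool.Agent.Strip051.PB Pool.Agent.Strip051.PB.T
open Pool.Agent.Strip051.G.I9000_9231.Tab

noncomputable def cut_pp_001_s : Cut := Cut.of [[⟨4, 0, 0, 1449551462⟩]]

noncomputable def f_pp_001_s : ℕ → ℕ → ℕ → ℕ → Bool := onCell 0 536870912 0 536870912 966367641 24778659
    (rowNE 3 eng mog cd0q0 cd4q1 pd0 1 false true true .up 0 0 1 (qsf 0 536870912 536870912 536870912 0) ndB0q0 ndB4q1 pcB0 cut_pp_001_s Ext.none)

def k0_pp_001_s : ∃ t, chk3 f_pp_001_s t 1 1 1 = true :=
  ⟨(l 3), by decide +kernel⟩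

theorem c_pp_001_s : CertNE 0 536870912 536870912 536870912 966367641 24778659 3 eng mog cd0q0 cd4q1 pd0 false true true .up 0 0 1
    ndB0q0 ndB4q1 pcB0 cut_pp_001_s Ext.none :=
  certNE1 (fam := false) (s1 := true) (s2 := true) (a := 0) (b := 0) (c := 1) (cn := .up) (n1 := ndB0q0) (n2 := ndB4q1) (pc := pcB0) (cut := cut_pp_001_s) (xt := Ext.none) (P1 := 0) (W1 := 536870912) (P2 := 536870912) (W2 := 536870912) (P3 := 966367641) (W3 := 24778659) (N0 := 3) (En := eng) (mo := mog) (C1 := cd0q0) (C2 := cd4q1) (C3 := pd0)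
    rfl (fun _ => rfl) k0_pp_001_s

noncomputable def cut_pp_011_s : Cut := Cut.of [[⟨4, 0, 0, 1449551462⟩], [⟨0, 0, 0, 67108864⟩, ⟨1, 1, 0, 67108864⟩, ⟨2, 1, 0, 67108864⟩]]

noncomputable def f_pp_011_s : ℕ → ℕ → ℕ → ℕ → Bool := onCell 0 536870912 536870912 536870912 966367641 24778659
    (rowNE 3 eng mog cd0q0 cd4q1 pd1 1 false true true .pnn 0 1 1 (qsf 0 536870912 536870912 536870912 1) ndB0q0 ndB4q1 pcB1 cut_pp_011_s Ext.none)

def k0_pp_011_s : ∃ t, chk3 f_pp_011_s t 1 1 1 = true :=
  ⟨(b (l 3) (a (b (l 3) (a (b (l 3) (a (b (l 3) (a (l 14) (l 3))) (l 3))) (l 3))) (l 3))), by decide +kernel⟩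

theorem c_pp_011_s : CertNE 0 536870912 536870912 536870912 966367641 24778659 3 eng mog cd0q0 cd4q1 pd1 false true true .pnn 0 1 1
    ndB0q0 ndB4q1 pcB1 cut_pp_011_s Ext.none :=
  certNE1 (fam := false) (s1 := true) (s2 := true) (a := 0) (b := 1) (c := 1) (cn := .pnn) (n1 := ndB0q0) (n2 := ndB4q1) (pc := pcB1) (cut := cut_pp_011_s) (xt := Ext.none) (P1 := 0) (W1 := 536870912) (P2 := 536870912) (W2 := 536870912) (P3 := 966367641) (W3 := 24778659) (N0 := 3) (En := eng) (mo := mog) (C1 := cd0q0) (C2 := cd4q1) (C3 := pd1)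
    rfl (fun _ => rfl) k0_pp_011_s

noncomputable def cut_pp_012_s : Cut := Cut.of [[⟨4, 0, 0, 1449551462⟩], [⟨0, 0, 0, 67108864⟩, ⟨1, 1, 0, 67108864⟩, ⟨2, 1, 0, 67108864⟩]]

noncomputable def f_pp_012_s : ℕ → ℕ → ℕ → ℕ → Bool := onCell 0 536870912 536870912 536870912 966367641 24778659
    (rowNE 3 eng mog cd0q0 cd4q2 pd1 1 false true true .pnp 0 1 2 (qsf 0 536870912 1073741824 536870912 1) ndB0q0 ndB4q2 pcB1 cut_pp_012_s Ext.none)

def k0_pp_012_s : ∃ t, chk3 f_pp_012_s t 1 1 1 = true :=
  ⟨(b (l 3) (a (b (l 3) (a (a (a (b (l 1) (b (l 3) (l 14))) (l 3)) (l 3)) (l 3))) (l 3))), by decide +kernel⟩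

theorem c_pp_012_s : CertNE 0 536870912 1073741824 536870912 966367641 24778659 3 eng mog cd0q0 cd4q2 pd1 false true true .pnp 0 1 2
    ndB0q0 ndB4q2 pcB1 cut_pp_012_s Ext.none :=
  certNE1 (fam := false) (s1 := true) (s2 := true) (a := 0) (b := 1) (c := 2) (cn := .pnp) (n1 := ndB0q0) (n2 := ndB4q2) (pc := pcB1) (cut := cut_pp_012_s) (xt := Ext.none) (P1 := 0) (W1 := 536870912) (P2 := 1073741824) (W2 := 536870912) (P3 := 966367641) (W3 := 24778659) (N0 := 3) (En := eng) (mo := mog) (C1 := cd0q0) (C2 := cd4q2) (C3 := pd1)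
    rfl (fun _ => rfl) k0_pp_012_s

noncomputable def cut_pp_022_s : Cut := Cut.of [[⟨4, 0, 0, 1449551462⟩], [⟨0, 0, 0, 53687091⟩, ⟨1, 1, 0, 53687091⟩, ⟨2, 1, 0, 53687091⟩]]

noncomputable def f_pp_022_s : ℕ → ℕ → ℕ → ℕ → Bool := onCell 0 536870912 1073741824 536870912 966367641 24778659
    (rowNE 3 eng mog cd0q0 cd4q2 pd2 1 false true true .pp 0 2 2 (qsf 0 536870912 1073741824 536870912 2) ndB0q0 ndB4q2 pcB2 cut_pp_022_s Ext.none)

def k0_pp_022_s : ∃ t, chk3 f_pp_022_s t 16 16 1 = true :=
  ⟨(b (l 14) (a (l 14) (a (b (l 14) (b (a (l 14) (b (l 14) (l 16707848))) (a (b (l 14) (l 16691376)) (c (l 16692488) (l 16704520))))) (b (b (b (l 14) (a (l 14) (a (l 14) (b (l 14) (b (l 16757456) (l 16753336)))))) (b (a (l 14) (c (b (c (l 16747008) (l 16748792)) (l 16744544)) (c (l 16749216) (l 16761768)))) (a (b (l 14) (l 16729728)) (c (b (l 16741168) (l 16727272)) (l 16744752))))) (c (b (a (b (l 16715928) (l 16729888)) (b (l 16732592) (l 16715128))) (a (l 16698224) (a (l 16702904) (l 16706048)))) (b (a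 (l 16726120) (b (l 16728664) (l 16722960))) (a (l 16709216) (l 16714240)))))))), by decide +kernel⟩

def k1_pp_022_s : ∃ t, chk3 f_pp_022_s t 17 32 1 = true :=
  ⟨(a (a (a (a (l 14) (l 3)) (l 3)) (l 3)) (l 3)), by decide +kernel⟩

def k2_pp_022_s : ∃ t, chk3 f_pp_022_s t 34 264 1 = true :=
  ⟨(a (a (a (a (l 14) (b (l 14) (c (b (l 16774312) (l 16767472)) (l 16774248)))) (b (b (l 3) (a (a (b (a (l 14) (a (l 14) (l 3))) (c (l 16776640) (l 16776760))) (b (l 3) (c (a (l 16777520) (l 424295793575)) (l 16777272)))) (l 3))) (b (a (c (a (l 16775448) (l 16776208)) (l 16776104)) (b (a (c (a (l 16777152) (l 385641087927)) (l 16777256)) (l 3)) (c (a (l 16776560) (a (l 16777112) (l 353428833191))) (l 16777664)))) (c (c (a (l 16768840) (l 16775672)) (l 16775088)) (l 16772808))))) (b (l 3) (b (l 3) (a (a (b (a (c (c (l 197736268567) (l 16777256)) (l 16777224)) (l 3)) (c (c (a (l 16776440) (l 168208368407)) (l 16776864)) (l 16776936))) (c (l 780241208439) (l 799031690343))) (l 3))))) (l 3)), by decide +kernel⟩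

def k3_pp_022_s : ∃ t, chk3 f_pp_022_s t 34 265 1 = true :=
  ⟨(a (a (a (b (c (c (l 16763920) (l 16764656)) (l 16771048)) (c (l 16761024) (l 16768416))) (b (c (b (c (l 16770576) (l 16768320)) (c (l 16766256) (l 16761536))) (b (l 16774136) (l 16772832))) (c (c (l 16763704) (l 16759208)) (l 16770864)))) (b (a (a (c (b (l 16775648) (l 16774040)) (l 16774000)) (b (b (a (c (a (l 16776992) (l 255181456247)) (l 16777192)) (l 752323920407)) (c (c (a (l 16776344) (l 16777112)) (l 16776776)) (l 16776864))) (c (l 16775560) (l 16775880)))) (c (b (a (c (l 756618888247) (l 766819435559)) (l 3)) (b (a (a (l 16777656) (l 701321183703)) (l 3)) (a (c (l 16776632) (l 16776696)) (l 679309476551)))) (b (l 782388692551) (a (c (l 84456505623) (l 16777752)) (l 743197115367))))) (b (a (c (c (l 16767744) (l 16768128)) (l 16773968)) (a (c (l 16775464) (l 16775808)) (a (b (c (l 16776992) (l 16777056)) (l 16776296)) (c (b (l 457044919495) (l 16776952)) (l 160692176647))))) (a (c (l 16767616) (l 16772656)) (c (c (l 16774480)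 (l 16774728)) (l 16775112)))))) (a (b (l 3) (a (c (b (a (c (l 701321184167) (l 709911118759)) (l 3)) (b (a (a (l 16776904) (l 403894699159)) (l 3)) (a (l 16776480) (l 601463194183)))) (b (l 743197113223) (a (c (l 16776936) (l 16777000)) (l 686288798551)))) (l 3))) (l 3))), by decide +kernel⟩

def k4_pp_022_s : ∃ t, chk3 f_pp_022_s t 68 133 1 = true :=
  ⟨(b (a (a (c (b (l 16752480) (l 16749152)) (l 16753920)) (b (c (l 16760784) (l 16768208)) (c (l 16752224) (l 16765520)))) (b (a (c (c (l 16763472) (l 16758992)) (l 16770672)) (c (b (c (l 16767536) (l 16762688)) (l 16766096)) (l 16773136))) (c (a (l 16760544) (c (l 16763232) (l 16758768))) (c (l 16758256) (l 16769728))))) (a (c (b (l 16748640) (l 16743944)) (c (l 16748664) (l 16740272))) (c (b (a (l 16751960) (l 16760296)) (c (l 16749384) (l 16750920))) (c (l 16753952) (l 16765912))))), by decide +kernel⟩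

def k5_pp_022_s : ∃ t, chk3 f_pp_022_s t 69 133 1 = true :=
  ⟨(b (a (a (b (c (b (a (l 16775264) (a (l 16776408) (b (l 339470189735) (l 16776760)))) (a (l 16768392) (l 16775160))) (a (l 16774984) (c (l 16776160) (l 16776296)))) (c (b (l 16768824) (l 16765864)) (l 16772952))) (b (b (a (b (l 3) (c (l 561197875719) (l 381346121527))) (l 3)) (a (c (a (l 16776304) (b (l 300815483927) (l 16776664))) (l 16777456)) (a (b (l 3) (a (l 123111212183) (l 432885728503))) (l 3)))) (c (b (a (l 16775056) (c (b (l 74792829959) (l 16776128)) (l 16776600))) (l 16773360)) (c (l 16775320) (l 16775544))))) (b (l 3) (a (b (b (l 3) (a (a (a (l 16777136) (l 323364062391)) (l 3)) (l 3))) (a (c (c (b (l 16776840) (l 16776016)) (l 16776504)) (l 16776624)) (b (l 3) (a (a (l 16777040) (l 257865811047)) (l 589652035063))))) (l 3)))) (a (c (b (a (c (l 16762984) (l 16758536)) (c (l 16766208) (l 16761472))) (a (l 16754792) (l 16763128))) (b (a (l 16770264) (l 16772752)) (l 16762248))) (b (b (a (c (c (a (l 16769480) (l 16776312))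 (l 16775672)) (l 16775912)) (a (b (l 748565824263) (a (a (l 16776944) (l 16777912)) (l 508584527447))) (l 3))) (c (a (l 16770016) (c (a (l 16776200) (b (l 677161992887) (l 219747976423))) (a (l 16776296) (l 305647323015)))) (a (l 16774568) (a (l 16776440) (l 268066359687))))) (a (c (c (l 16765960) (l 16761240)) (l 16772552)) (c (c (b (l 16775280) (l 16768312)) (l 16774664)) (c (l 16774920) (l 16775184))))))), by decide +kernel⟩

def k6_pp_022_s : ∃ t, chk3 f_pp_022_s t 34 67 1 = true :=
  ⟨(c (a (b (b (a (a (l 16726768) (l 16740368)) (b (l 16746752) (l 16743328))) (a (l 16721384) (b (l 16729392) (l 16746888)))) (b (a (l 16714336) (l 16720656)) (a (l 16728168) (l 16713552)))) (b (b (b (a (a (l 16751416) (l 16754528)) (a (l 16762872) (c (l 16765696) (l 16761000)))) (a (b (l 16750424) (l 16748720)) (a (l 16754256) (l 16762608)))) (a (b (l 16746152) (l 16742696)) (c (a (l 16748336) (l 16751616)) (l 16751440)))) (b (a (l 16737472) (b (l 16745528) (l 16731560))) (a (l 16719928) (l 16736784))))) (a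 (b (a (b (l 16733648) (l 16727992)) (b (l 16749160) (l 16754032))) (a (l 16719336) (b (l 16727352) (l 16721552)))) (a (b (b (c (l 16753456) (l 16765456)) (l 16748640)) (c (l 16728056) (l 16731248))) (b (b (c (l 16768632) (l 16770184)) (b (l 16765592) (l 16762816))) (b (l 16758592) (l 16731896)))))), by decide +kernel⟩

def k7_pp_022_s : ∃ t, chk3 f_pp_022_s t 35 66 1 = true :=
  ⟨(b (l 3) (a (b (l 3) (a (b (l 3) (a (b (a (c (c (b (l 628843610743) (l 188072592455)) (l 273435068231)) (l 238001588535)) (l 3)) (a (c (l 16776016) (l 16776248)) (c (b (l 432348858007) (l 118816245127)) (l 200420624695)))) (l 3))) (l 3))) (l 3))), by decide +kernel⟩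

def k8_pp_022_s : ∃ t, chk3 f_pp_022_s t 35 134 1 = true :=
  ⟨(a (b (a (b (a (c (c (l 16773512) (l 16774432)) (l 16774848)) (b (a (c (a (l 79624668711) (l 355039446839)) (l 169282111703)) (l 3)) (a (c (l 16775776) (l 16776040)) (c (a (l 16776896) (l 312626644727)) (l 16777240))))) (c (c (a (l 16765424) (l 16773896)) (l 16772056)) (b (l 16768816) (l 16772696)))) (b (l 3) (a (b (a (c (a (l 16776776) (l 269140100791)) (l 16777192)) (l 747492080087)) (c (a (l 16775512) (c (l 119353114807) (l 16777024))) (l 16776464))) (c (b (l 3) (l 735680923079)) (l 759840114695))))) (a (c (b (a (l 16757088) (l 16765432)) (a (l 16753680) (l 16756800))) (b (l 16770640) (l 16767872))) (c (b (a (c (l 16773624) (l 16773928)) (a (b (c (l 16777504) (l 16776904)) (l 16775248)) (b (l 672867025767) (c (l 16776720) (l 16776776))))) (a (l 16765152) (c (l 16773328) (l 16773664)))) (b (a (l 16774408) (a (l 16776296) (b (l 513953237527) (l 16776864)))) (l 16770296))))) (b (l 3) (a (b (a (c (b (l 3) (l 644412867863)) (l 721185408839))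 (l 3)) (b (a (a (c (l 16776616) (l 16776752)) (c (l 408189667623) (l 382956734887))) (l 3)) (a (c (c (l 16775656) (l 16775792)) (l 16776008)) (a (c (l 365776865575) (l 16778152)) (l 3))))) (l 3)))), by decide +kernel⟩

def k9_pp_022_s : ∃ t, chk3 f_pp_022_s t 35 135 1 = true :=
  ⟨(a (b (c (b (a (l 16754440) (c (l 16761616) (l 16758456))) (a (l 16748360) (c (l 16754112) (l 16744696)))) (a (l 16753184) (b (l 16770144) (l 16767344)))) (a (c (c (l 16742088) (l 16733712)) (l 16757984)) (c (b (l 16751192) (l 16747712)) (l 16752616)))) (b (a (a (c (b (l 16767960) (l 16759320)) (l 16771232)) (b (b (c (a (l 16776344) (l 323364062871)) (l 98952020327)) (c (l 16775440) (l 16775768))) (c (l 16772904) (l 16773680)))) (b (a (c (b (l 3) (a (l 286856841431) (l 3))) (l 671793282823)) (l 3)) (a (a (c (l 16775216) (l 16775576)) (b (c (l 249275877511) (l 16777128)) (l 16773400))) (c (b (l 3) (a (l 213842397207) (l 3))) (l 682530699655))))) (c (a (b (c (l 16757056) (l 16757864)) (l 16756632)) (b (a (l 16772592)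 (a (l 16774912) (b (l 166597756983) (l 16775600)))) (b (l 16766344) (l 16764632)))) (a (b (l 16769608) (l 16766776)) (a (l 16772016) (c (l 16774400) (l 16774712))))))), by decide +kernel⟩

def k10_pp_022_s : ∃ t, chk3 f_pp_022_s t 16 17 1 = true :=
  ⟨(b (a (b (a (l 14) (c (b (l 16670616) (l 16678808)) (b (l 16705568) (l 16673296)))) (a (c (l 16611376) (l 16649944)) (b (l 16632176) (l 16640624)))) (b (a (b (c (a (l 16696616) (l 16700240)) (l 16691336)) (c (l 16685616) (l 16680072))) (b (a (c (l 16683936) (l 16697360)) (c (l 16689984) (l 16702296))) (a (l 16656880) (c (l 16675352) (l 16690136))))) (b (a (a (l 16658176) (l 16661776)) (c (l 16659424) (l 16676120))) (a (l 16626536) (l 16634160))))) (b (a (a (a (l 16593192) (l 16595904)) (b (l 16627896) (l 16614992))) (a (c (l 16618472) (l 16638840)) (b (l 16621608) (l 16629848)))) (a (a (l 16568240) (l 16574360)) (a (a (l 16579632) (l 16583440)) (b (l 16616960) (l 16603928)))))), by decide +kernel⟩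

def k11_pp_022_s : ∃ t, chk3 f_pp_022_s t 17 17 1 = true :=
  ⟨(b (a (b (a (b (a (b (l 16705128) (l 16698464)) (b (l 16710936) (l 16704304))) (c (a (l 16702608) (l 16688096)) (l 16697888))) (b (c (a (a (l 16707568) (l 16710784)) (b (l 16719192) (l 16732984))) (a (l 16717920) (l 16723120))) (c (a (l 16694592) (l 16701104)) (a (l 16705776) (l 16711008))))) (b (a (a (b (l 16678064) (l 16671224)) (l 16670024)) (c (b (l 16686784) (l 16700328)) (l 16695912))) (a (a (l 16640472) (l 16645680)) (c (l 16668160) (l 16683160))))) (b (b (a (c (b (a (l 16725592) (a (l 16730376) (l 16733560))) (a (l 16718456) (l 16724888))) (b (c (l 16732520) (l 16735112)) (l 16733144))) (b (a (c (b (l 16750536) (l 16736560)) (l 16762480)) (c (c (b (l 16756392) (l 16752784)) (l 16755576)) (c (l 16746112) (l 16768144)))) (a (c (l 16741768) (l 16735656)) (c (c (l 16747360) (l 16738400)) (l 16761776))))) (a (a (b (l 16715184) (l 16708464)) (b (a (l 16719568) (l 16722496)) (l 16714344))) (b (c (a (l 16724176) (l 16741072)) (a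 (l 16729664) (l 16734856))) (c (a (l 16737968) (l 16723456)) (l 16726168))))) (a (b (c (a (l 16692944) (l 16699544)) (a (l 16703736) (l 16708952))) (c (a (l 16699088) (l 16705744)) (l 16693560))) (b (c (b (b (l 16714832) (l 16711208)) (l 16705752)) (a (l 16714200) (l 16719480))) (c (c (l 16692528) (l 16697048)) (l 16704136)))))) (a (b (c (a (b (l 16662680) (l 16649216)) (b (l 16653136) (l 16638600))) (a (l 16633784) (b (l 16670248) (l 16678520)))) (a (b (l 16604520) (l 16612624)) (b (l 16613752) (l 16621856)))) (b (c (b (a (l 16666568) (l 16669520)) (a (l 16672680) (l 16686240))) (a (b (l 16680616) (l 16688664)) (b (l 16691288) (l 16699480)))) (c (a (b (l 16657856) (l 16643520)) (b (l 16671592) (l 16657056))) (a (l 16627768) (l 16659680)))))), by decide +kernel⟩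

def k12_pp_022_s : ∃ t, chk3 f_pp_022_s t 9 16 1 = true :=
  ⟨(a (b (l 3) (b (l 3) (a (b (l 3) (a (b (l 3) (a (a (b (b (l 853792522487) (c (a (l 16777064) (l 725480375255)) (l 255181458503))) (c (b (c (l 16776120) (l 16776224)) (l 16774504)) (l 16775680))) (b (l 3) (b (l 839833877303) (c (a (l 16776768) (l 436106955271)) (l 184314498279))))) (l 3))) (l 3))) (l 3)))) (l 3)), by decide +kernel⟩

def k13_pp_022_s : ∃ t, chk3 f_pp_022_s t 18 68 1 = true :=
  ⟨(a (b (b (a (a (c (a (b (l 16771944) (l 16758024)) (b (c (l 16774912) (l 16775104)) (l 16771608))) (c (l 16772472) (l 16772960))) (b (a (a (c (b (l 397989120391) (l 16776448)) (l 16779040)) (c (l 666424574055) (l 450602471495))) (l 3)) (a (c (c (l 16774568) (l 16774784)) (l 16775112)) (b (c (l 623474900439) (l 367387479735)) (a (l 16776208) (a (l 16778464) (l 424295795319))))))) (l 3)) (c (a (a (b (l 16758752) (l 16752656)) (c (a (l 16758752) (l 16771120)) (l 16770024))) (a (b (b (l 726017241031) (a (l 16778600) (l 914995803031))) (a (l 16773968)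 (c (b (l 287393712759) (l 16776072)) (l 129016794359)))) (l 884931029367))) (a (a (l 16756456) (c (l 16771840) (l 16772368))) (a (a (b (b (l 301889228359) (l 16776632)) (l 16774504)) (c (l 600389446919) (l 667498309159))) (l 881172913815))))) (b (a (a (c (c (l 16746664) (l 16737688)) (l 16761040)) (c (c (l 16753176) (l 16743712)) (l 16766280))) (a (c (b (c (l 16771864) (l 16772272)) (l 16758136)) (l 16770160)) (a (b (c (c (b (l 221358590407) (l 16775696)) (l 16776568)) (l 16776704)) (c (l 16773208) (l 16773864))) (b (c (l 829633325959) (l 831780804263)) (b (a (l 16776392) (l 280951262327)) (l 16770280)))))) (a (a (c (l 16740352) (l 16734056)) (c (l 16746680) (l 16760344))) (a (c (c (l 16752400) (l 16742976)) (l 16765616)) (c (a (l 16768040) (l 16769784)) (l 16770800)))))) (b (l 3) (a (a (c (b (b (l 3) (l 780241198055)) (a (a (l 16773368) (b (l 16776520) (l 16773168))) (b (l 709374242311) (l 16775392)))) (b (l 839296983351) (a (l 205252448151) (b (l 343765160839) (l 16775712))))) (b (l 3) (b (l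 3) (c (l 721722271911) (l 716890426135))))) (l 3)))), by decide +kernel⟩

def k14_pp_022_s : ∃ t, chk3 f_pp_022_s t 18 69 1 = true :=
  ⟨(a (b (a (b (c (a (l 16722728) (l 16729120)) (l 16735888)) (c (b (l 16720568) (l 16716968)) (l 16724480))) (c (b (a (l 16745920) (c (l 16751608) (l 16742224))) (a (l 16728352) (l 16734656))) (b (c (l 16740624) (l 16763032)) (l 16741872)))) (a (c (b (l 16711552) (l 16704280)) (b (l 16718232) (l 16711928))) (b (c (c (l 16723272) (l 16725584)) (l 16729216)) (c (l 16717264) (l 16723040))))) (b (a (c (b (b (a (l 16770496) (a (l 16774992) (a (l 164987145447) (l 413558378119)))) (a (l 16756552) (l 16773080))) (a (l 16751344) (b (l 16769656) (l 16745240)))) (b (a (l 16770112) (a (l 16773920) (b (l 236390978007) (l 16775000)))) (a (l 16764224) (l 16769400)))) (b (a (a (c (c (l 671256403127) (l 675014500423)) (l 673940756039)) (l 3)) (l 3)) (c (a (b (c (a (l 16774024) (l 173577079735)) (l 16775600)) (l 16772216)) (b (l 835002023495) (a (c (l 16776488) (l 16776568)) (l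 743197104903)))) (a (c (l 16774280) (l 16774584)) (c (l 664277077031) (l 666424558775)))))) (a (c (b (a (l 16733856) (l 16750520)) (c (l 16729000) (l 16730912))) (b (a (l 16737280) (l 16763512)) (l 16754888))) (c (a (b (c (l 16756208) (l 16746488)) (l 16749672)) (b (b (a (l 16773240) (l 16776096)) (l 16771312)) (l 16766184))) (b (a (l 16768664) (l 276656267735)) (c (l 16764824) (l 16765952))))))), by decide +kernel⟩

def k15_pp_022_s : ∃ t, chk3 f_pp_022_s t 18 35 1 = true :=
  ⟨(b (a (a (b (c (c (l 16691168) (l 16716520)) (l 16702432)) (c (l 16678768) (l 16689840))) (b (c (a (l 16703200) (l 16709712)) (l 16713728)) (c (l 16692128) (l 16701400)))) (b (a (c (b (b (l 16724640) (l 16721096)) (l 16715808)) (b (l 16727840) (l 16721784))) (c (b (a (l 16732232) (l 16738336)) (c (l 16727376) (l 16729424))) (b (l 16759488) (l 16753624)))) (a (c (b (l 16708768) (l 16722728)) (l 16712832)) (c (b (l 16721504) (l 16714648)) (b (l 16726848) (l 16721120)))))) (a (c (a (b (l 16685280) (l 16670936)) (b (l 16677896)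 (l 16684768))) (a (l 16660880) (b (l 16689304) (l 16698416)))) (a (c (b (l 16691304) (l 16698456)) (b (l 16701088) (l 16689608))) (b (c (b (l 16707856) (l 16722024)) (l 16712704)) (c (l 16690928) (l 16701600)))))), by decide +kernel⟩

def k16_pp_022_s : ∃ t, chk3 f_pp_022_s t 19 34 1 = true :=
  ⟨(b (l 3) (a (b (l 3) (a (a (c (b (a (b (l 702394917239) (l 16775656)) (l 745344584839)) (c (l 16771872) (l 16772272))) (b (b (l 722259130135) (a (l 16775928) (l 16778560))) (l 16772904))) (b (l 3) (c (b (l 672330143639) (a (l 16774720) (l 213842399687))) (b (a (l 16774712) (l 3)) (l 16780232))))) (l 3))) (l 3))), by decide +kernel⟩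

def k17_pp_022_s : ∃ t, chk3 f_pp_022_s t 19 35 1 = true :=
  ⟨(b (b (a (a (b (a (c (l 16765288) (l 16767168)) (c (c (l 16770896) (l 16771376)) (l 16772136))) (a (c (l 16737520) (l 16761464)) (c (l 16764424) (l 16766528)))) (a (b (b (a (c (l 153175986423) (l 16777056)) (l 781851805991)) (c (c (l 16774984) (l 16775176)) (l 16775472))) (c (l 16770168) (l 16771352))) (c (b (l 773261881639) (a (l 257328914567) (b (l 368998093591) (l 16775464)))) (b (l 775946209463) (l 443623127255))))) (a (a (a (b (l 3) (c (l 668035173463) (l 364703129671))) (l 3)) (l 3)) (l 3))) (a (c (a (b (c (l 16732928) (l 16734696)) (l 16732336)) (c (a (l 16743792) (l 16762784)) (b (l 16766840) (l 16739528)))) (a (b (l 16758448) (l 16752904)) (c (l 16764888) (l 16766144)))) (a (a (c (b (c (b (l 111836915767) (l 16772880)) (l 16774712)) (l 16768128)) (b (l 227800992503) (l 16769664))) (b (b (l 3) (c (c (l 592336379159) (l 600926314519)) (l 258402687927))) (c (b (l 16779096) (l 16771960)) (l 16774200)))) (b (l 3) (a (c (c (l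 590188890391) (l 595020731191)) (c (l 278266912423) (l 615421828055))) (l 3)))))) (c (a (a (b (b (l 16720392) (l 16713744)) (l 16703760)) (b (b (c (l 16731200) (l 16733192)) (l 16725576)) (a (l 16712736) (l 16718528)))) (b (a (c (b (l 16763816) (l 16736040)) (l 16761752)) (b (a (l 16772456) (a (b (l 16777584) (l 16774832)) (b (l 3) (l 16776456)))) (c (l 16768336) (l 16769040)))) (a (c (l 16725840) (l 16728280)) (b (c (l 16740648) (l 16741880)) (l 16734808))))) (a (a (b (l 16723640) (l 16733784)) (b (c (l 16732400) (l 16755824)) (l 16743752))) (b (b (a (l 16766536) (a (l 16773272) (l 534354315911))) (a (l 16761136) (l 16770136))) (a (l 16753088) (c (l 16761344) (l 16762976))))))), by decide +kernel⟩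

def k18_pp_022_s : ∃ t, chk3 f_pp_022_s t 5 8 1 = true :=
  ⟨(a (b (l 3) (b (l 3) (a (b (l 3) (a (a (c (b (b (l 765745670327) (a (c (b (l 273435071559) (l 16774816)) (l 131701152183)) (l 715816674471))) (c (b (a (l 16769880) (l 272361281991)) (l 16765960)) (b (l 242833375255) (l 16766848)))) (b (b (l 769503739079) (a (l 463487353159) (l 725480347479))) (c (l 255181404983) (l 16749616)))) (b (l 3) (a (b (c (l 624011755175) (l 501605149319)) (c (l 274508778871) (l 16774600))) (b (l 3) (c (l 570861539367) (l 450602418311)))))) (l 3))) (l 3)))) (l 3)), by decide +kernel⟩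

def k19_pp_022_s : ∃ t, chk3 f_pp_022_s t 8 9 1 = true :=
  ⟨(b (a (a (b (a (b (l 16541264) (l 16534688)) (b (l 16547560) (l 16541176))) (b (a (l 16527576) (l 16513344)) (a (l 16499056) (l 16506184)))) (a (b (b (l 16554936) (l 16527832)) (b (l 16521368) (l 16514704))) (b (b (l 16542216) (l 16536480)) (b (l 16530520) (l 16524520))))) (b (a (c (b (a (l 16602552) (l 16612648)) (l 16538968)) (b (a (l 16626168) (l 16635344)) (l 16584680))) (a (b (b (l 16619400) (l 16606840)) (l 16546352)) (b (b (l 16610296) (l 16597400)) (c (l 16609448) (l 16632936))))) (a (b (a (l 16540720) (l 16551784)) (c (l 16527584) (l 16555640))) (b (a (l 16542656) (l 16555248)) (a (l 16539176) (l 16531840)))))) (a (b (a (a (l 16372000) (l 16379896)) (b (l 16450288) (l 16444104))) (a (b (l 16416672) (l 16388200)) (b (l 16438144) (l 16411624)))) (b (a (b (c (l 16501128) (l 16530920)) (l 16427632)) (b (c (l 16528464) (l 16558584)) (l 16435440))) (a (b (l 16423480) (l 16419208)) (a (l 16413048) (l 16428744)))))), by decide +kernel⟩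

def k20_pp_022_s : ∃ t, chk3 f_pp_022_s t 9 9 1 = true :=
  ⟨(a (b (b (a (b (c (a (l 16628768) (l 16622000)) (a (l 16647480) (l 16660168))) (c (a (l 16601520) (l 16636912)) (a (l 16624712) (l 16638136)))) (b (c (a (b (l 16684840) (l 16671352)) (b (l 16698472) (l 16685200))) (a (l 16672968) (l 16664232))) (c (a (l 16630408) (l 16644464)) (a (l 16651336) (l 16664040))))) (a (b (c (a (l 16597520) (l 16611144)) (l 16568056)) (c (l 16538432) (l 16567664))) (b (c (a (l 16625584) (l 16639568)) (a (l 16630672) (l 16643216))) (c (a (l 16600904) (l 16614568)) (l 16595696))))) (b (c (a (b (l 16556968) (l 16533280)) (b (l 16584640) (l 16561840))) (a (l 16515032) (b (l 16596296) (l 16596528)))) (a (b (l 16484960) (l 16461888)) (c (l 16506872) (l 16522856))))) (a (c (b (b (b (a (b (l 16690480) (l 16698240)) (b (l 16702536) (l 16710416))) (a (l 16636680) (b (l 16697416) (l 16684520)))) (b (a (l 16652912) (l 16644464)) (a (l 16627952) (l 16640608)))) (b (b (l 16568656) (l 16588312)) (l 16513816))) (b (b (b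 (a (l 16686176) (c (l 16703976) (l 16709560))) (c (l 16655440) (l 16706096))) (b (a (l 16654760) (l 16665104)) (l 16655688))) (b (b (l 16641392) (l 16621800)) (l 16591456)))) (b (b (b (b (a (c (l 16714032) (l 16742432)) (c (c (l 16723880) (l 16726488)) (l 16751576))) (a (c (l 16701072) (l 16731872)) (c (l 16712352) (l 16741088)))) (b (a (c (l 16709160) (l 16700440)) (c (l 16699600) (l 16730704))) (a (l 16661632) (c (l 16707912) (l 16699448))))) (b (c (b (l 16647680) (l 16656184)) (c (l 16675208) (l 16705128))) (c (b (l 16643880) (l 16652800)) (l 16670224)))) (b (b (c (l 16614352) (l 16661472)) (c (l 16591968) (l 16642848))) (b (l 16523704) (l 16524504)))))), by decide +kernel⟩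

def k21_pp_022_s : ∃ t, chk3 f_pp_022_s t 20 18 1 = true :=
  ⟨(c (b (b (a (b (a (a (l 16733240) (l 16759472)) (b (a (l 16767776) (l 16772800)) (l 16764048))) (a (l 16723232) (c (l 16732776) (l 16734648)))) (a (a (b (b (a (l 411410875959) (l 308868491143)) (l 16771528)) (l 16762240)) (b (b (l 726017217191) (l 278803728583)) (l 16767160))) (a (b (l 692194362087) (b (l 16764448) (l 16768920))) (b (l 3) (b (l 455971131575) (l 16773616)))))) (a (b (a (l 16710616) (l 16721240)) (a (l 16719064) (l 16708856))) (b (a (c (l 16730440) (l 16732496)) (c (l 16761616) (l 16762832))) (a (l 16719224) (l 16750152))))) (b (b (a (a (l 16706640) (l 16717544)) (c (l 16699928) (l 16714088))) (a (l 16658000) (c (l 16697944) (l 16702648)))) (a (a (l 16655248) (l 16666448)) (b (l 16667456) (l 16676832))))) (b (b (a (b (a (l 16760400) (b (l 16771496) (l 16766304))) (a (l 16749992) (l 16758576))) (b (a (b (a (l 403357784679) (l 396378411527)) (l 235854048967)) (l 711521697031)) (a (l 16766856) (c (l 277193084343) (l 282561793063)))))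 (a (a (c (l 16711232) (l 16737016)) (c (l 16720448) (l 16745200))) (b (a (l 16756704) (l 16764760)) (a (l 16746640) (l 16754776))))) (b (a (c (l 16694624) (l 16722272)) (b (l 16740864) (l 16731048))) (a (c (l 16673816) (l 16703808)) (c (l 16692272) (l 16720024)))))), by decide +kernel⟩

def k22_pp_022_s : ∃ t, chk3 f_pp_022_s t 21 18 1 = true :=
  ⟨(b (b (a (b (l 3) (a (b (l 3) (a (c (l 293836105159) (l 16753248)) (l 3))) (l 3))) (l 3)) (a (c (b (a (c (b (l 263234470759) (l 16768248)) (l 257865754887)) (b (l 670182638487) (c (l 374903624887) (l 284709290183)))) (a (c (l 16758992) (l 16760392)) (b (l 16761192) (l 16765856)))) (b (a (b (l 16748768) (l 16770016)) (b (l 687899375159) (l 291151737799))) (a (l 16762608) (l 16759664)))) (b (l 3) (c (a (b (l 544554861175) (c (l 16753352) (l 16774576))) (b (l 3) (l 636896645991))) (a (c (l 285783010999) (l 292762331223)) (l 670182623767)))))) (c (b (a (b (a (l 16747864) (l 16757136)) (a (l 16715160) (l 16724600))) (b (c (a (l 16765544) (b (l 273435011047)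 (l 16771328))) (a (l 16766400) (l 263234456919))) (a (l 16754592) (l 16763168)))) (b (a (c (l 16706536) (l 16710392)) (a (l 16722336) (l 16752072))) (a (l 16697136) (c (l 16714352) (l 16717384))))) (b (a (b (a (l 16752800) (l 16760424)) (a (l 16743096) (l 16750792))) (b (a (l 16767752) (c (l 16753672) (l 16753992))) (a (l 16758200) (l 16765328)))) (a (b (l 16737456) (l 16728056)) (b (a (l 16748744) (l 16755944)) (l 16743168)))))), by decide +kernel⟩

def k23_pp_022_s : ∃ t, chk3 f_pp_022_s t 11 18 1 = true :=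
  ⟨(b (l 3) (a (b (a (b (a (b (l 3) (c (a (l 16755176) (l 362555574727)) (l 406042131159))) (l 3)) (a (c (b (l 257328902375) (l 16768552)) (l 245517732823)) (c (b (a (l 299204818039) (l 3)) (l 264845083575)) (c (l 283635530135) (l 287393623463))))) (a (l 3) (l 3))) (c (b (a (a (l 16760392) (c (l 16767976) (l 16768568))) (a (b (l 277193106199) (l 16773064)) (l 569787794871))) (a (a (l 16749712) (l 16757840)) (a (l 16765384) (l 224042900423)))) (a (b (a (l 16762872) (l 16769520)) (a (l 16753736) (l 16760488))) (b (a (c (l 16754848) (l 16755056)) (l 491404587431)) (c (l 227264114999) (l 232632825255)))))) (b (l 3) (a (b (l 3) (a (c (c (l 328732700647) (l 331953923879)) (l 262697568583)) (l 3))) (l 3))))), by decide +kernel⟩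

def k24_pp_022_s : ∃ t, chk3 f_pp_022_s t 5 19 1 = true :=
  ⟨(a (b (a (b (a (c (l 16616904) (l 16680280)) (c (a (l 16675568) (l 16686320)) (l 16697912))) (c (a (l 16616032) (l 16638808)) (a (l 16662000) (l 16679976)))) (b (a (c (b (l 16686176) (l 16675544)) (l 16714392)) (b (a (l 16683920) (l 16702672)) (c (l 16694960) (l 16725312)))) (a (c (l 16639264) (l 16696800)) (c (c (l 16677744) (l 16683096)) (l 16712592))))) (a (a (c (b (l 16616232) (l 16596472)) (a (l 16630056) (l 16640040))) (b (c (l 16639688) (l 16662616)) (l 16548928))) (a (b (c (l 16640856) (l 16679848)) (l 16590424)) (b (c (l 16661632) (l 16695960)) (c (l 16644024) (l 16679824)))))) (b (a (c (a (b (b (c (l 16721616) (l 16744800)) (l 16733760)) (a (l 16694088) (l 16702688))) (b (b (a (l 16755384) (l 16762472)) (a (l 16724648) (l 16752728))) (c (l 16702568) (l 16736296)))) (b (a (b (l 16748336) (l 16739656)) (a (l 16753792) (l 16759896))) (a (b (l 16731160) (l 16722824)) (b (l 16744104) (l 16735752))))) (a (b (c (b (a (l 16769248)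 (l 257328884423)) (a (l 16759528) (l 16766056))) (b (c (l 16741496) (l 16741824)) (l 16764384))) (b (c (l 16753384) (l 16755832)) (c (l 16744128) (l 16747424)))) (b (b (a (b (l 3) (l 243907107543)) (l 3)) (c (a (l 16772312) (l 310479096823)) (c (l 16744104) (l 16733592)))) (b (c (l 16765960) (l 16766960)) (c (l 16756720) (l 16758472)))))) (c (a (b (a (l 16701344) (l 16717032)) (a (l 16663000) (l 16699720))) (b (a (l 16730680) (b (l 16747688) (l 16738848))) (a (l 16713384) (l 16725968)))) (a (a (b (l 16710664) (l 16694632)) (b (l 16723504) (l 16707432))) (b (a (l 16735080) (l 16746000)) (a (l 16718912) (l 16729648))))))), by decide +kernel⟩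

def k25_pp_022_s : ∃ t, chk3 f_pp_022_s t 4 5 1 = true :=
  ⟨(b (a (b (a (b (a (b (l 16359912) (l 16331928)) (b (l 16385136) (l 16358416))) (b (a (l 16303648) (l 16331712)) (a (b (l 16281864) (l 16266624)) (b (l 16310768) (l 16295792))))) (b (a (l 16276744) (l 16330416)) (b (a (l 16363704) (l 16397856)) (b (l 16277032) (a (l 16328984) (l 16364352)))))) (a (a (b (l 16233480) (l 16184224)) (b (l 16263856) (l 16216552))) (a (b (l 16298264) (l 16252896)) (b (l 16334848) (l 16291408))))) (b (b (a (a (c (l 16449840) (l 16488552)) (b (l 16491464) (l 16489800))) (c (a (l 16512224) (l 16540208)) (a (l 16528312) (l 16573832)))) (a (b (a (l 16432824) (l 16466656)) (b (l 16326776) (a (l 16400560) (l 16435640)))) (b (a (l 16476312) (l 16504040)) (a (b (l 16480000) (l 16446560)) (b (l 16508472) (l 16475552)))))) (a (a (b (l 16372272) (l 16330744)) (b (l 16387600) (l 16368944))) (a (b (l 16399720) (l 16404168)) (b (l 16430168) (l 16414952)))))) (a (a (b (a (l 15988608) (l 16044816)) (a (l 16027968) (l 16046088)))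 (b (a (l 16042120) (l 16083512)) (b (l 16046704) (l 16051704)))) (a (b (a (b (l 16291200) (l 16253872)) (b (l 16331528) (l 16295520))) (b (l 16114072) (l 16100800))) (b (a (b (l 16368072) (l 16333544)) (b (l 16401312) (l 16367312))) (a (l 16283200) (l 16317488)))))), by decide +kernel⟩

def k26_pp_022_s : ∃ t, chk3 f_pp_022_s t 5 5 1 = true :=
  ⟨(b (b (b (a (a (b (a (l 16549576) (l 16574040)) (c (l 16508496) (l 16598384))) (b (a (l 16573256) (l 16655664)) (a (l 16597640) (l 16638816)))) (a (b (a (l 16672624) (l 16665968)) (a (l 16656040) (l 16670352))) (b (a (l 16699488) (l 16669128)) (a (l 16682832) (l 16694296))))) (b (a (a (c (l 16509968) (l 16577888)) (a (l 16600024) (l 16620792))) (a (a (l 16638704) (l 16653424)) (a (l 16666024) (l 16677392)))) (a (a (c (b (l 16536952) (l 16484432)) (b (l 16561728) (l 16507920))) (b (l 16575328) (a (l 16574552) (l 16595800)))) (b (a (l 16611528) (l 16658824)) (a (a (l 16614160) (l 16629520)) (a (l 16642776) (l 16654760))))))) (a (a (a (b (l 16458816) (l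 16466040)) (a (l 16399304) (l 16433232))) (b (a (l 16531096) (l 16573584)) (a (l 16518224) (l 16539936)))) (a (b (a (l 16592120) (l 16607568)) (c (l 16545216) (l 16567592))) (b (a (l 16620840) (l 16632752)) (l 16593144))))) (a (b (a (a (l 16352480) (l 16380464)) (a (l 16405424) (l 16490112))) (a (b (l 16379768) (l 16346704)) (l 16413352))) (a (b (a (l 16508552) (l 16523600)) (l 16448392)) (b (b (l 16558728) (l 16503240)) (l 16472920))))), by decide +kernel⟩

def k27_pp_022_s : ∃ t, chk3 f_pp_022_s t 2 3 1 = true :=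
  ⟨(b (b (a (a (a (b (a (l 15949968) (l 15992416)) (a (l 15878216) (l 15923400))) (b (a (l 16038720) (l 16086160)) (l 15933408))) (a (b (l 16009536) (l 16027752)) (b (l 16109568) (l 16127848)))) (a (a (b (l 16234648) (l 16229784)) (b (l 16282432) (l 16276144))) (a (b (l 16316528) (l 16310648)) (b (l 16383264) (l 16338936))))) (b (a (a (l 6) (a (l 16025464) (l 16102224))) (a (a (l 16160416) (l 16207008)) (a (l 16245296) (l 2)))) (a (l 6) (l 6)))) (l 6)), by decide +kernel⟩

def k28_pp_022_s : ∃ t, chk3 f_pp_022_s t 3 4 1 = true :=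
  ⟨(b (l 3) (a (b (l 3) (a (b (a (b (a (a (c (l 572472113399) (l 602536876983)) (l 3)) (l 3)) (a (c (b (a (l 16774704) (l 316384671975)) (l 16768392)) (b (c (l 16734512) (l 16734696)) (l 16769016))) (b (l 3) (c (a (l 16776512) (l 16746632)) (l 298667909911))))) (l 3)) (a (c (b (a (b (l 16759352) (l 16750496)) (b (l 16770208) (l 16761336))) (a (l 16737576) (l 16748344))) (b (a (l 16745888) (b (l 16770568) (l 16762048))) (a (l 16739792) (l 16749464)))) (b (b (a (c (l 298667916759) (l 296520423495)) (l 3)) (c (a (l 16771472) (l 293836078967)) (a (l 16771648) (l 16726384)))) (a (c (l 16758408) (l 16758792)) (b (c (l 16772224) (l 16772256)) (l 16742504)))))) (a (b (l 3) (b (l 3) (b (a (a (l 16752456) (l 16732632)) (l 3)) (c (a (l 16772472) (l 16770224)) (a (l 16772384) (l 16768808)))))) (l 3)))) (l 3))), by decide +kernel⟩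

def k29_pp_022_s : ∃ t, chk3 f_pp_022_s t 3 5 1 = true :=
  ⟨(a (b (b (b (a (a (b (a (c (l 16720592) (l 16723168)) (c (l 16731248) (l 16732544))) (a (l 16704864) (l 16714688))) (b (a (c (l 16741168) (l 16741520)) (c (l 16750408) (l 16750136))) (a (c (l 16724000) (l 16723896)) (c (l 16733104) (l 16732208))))) (a (b (a (c (l 16759456) (l 16758976)) (b (l 16751256) (l 16763456))) (a (c (l 16742128) (l 16740880)) (c (l 16751016) (l 16749776)))) (b (b (a (l 268603145591) (l 3)) (a (l 16771584) (l 16752840))) (a (b (l 16762928) (l 16754296)) (b (l 16770504) (l 16761952)))))) (b (a (a (a (l 16687784) (l 16697392)) (a (l 16706272) (b (l 16719328) (l 16710536)))) (a (a (b (l 16728288) (l 16719536)) (b (l 16737328) (l 16728672))) (b (a (l 16745704) (l 16753440)) (a (l 16737144) (l 2))))) (b (a (a (a (l 16674824) (l 16684272)) (a (l 16693008) (l 16701616))) (a (a (l 16710816) (l 16720048)) (a (l 16728608) (l 2)))) (a (a (a (l 16665536) (l 16675208)) (a (l 16684040) (l 16692792))) (a (l 16706832) (l 16724296))))))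 (a (a (b (a (l 16643440) (l 16653024)) (l 16613680)) (b (a (l 16662160) (l 16671056)) (l 16631936))) (a (b (a (l 16680640) (l 16690232)) (l 16651688)) (a (b (l 16699152) (l 2)) (l 2))))) (a (a (b (a (l 16556976) (l 16524240)) (l 16409680)) (b (a (l 16533976) (l 16544128)) (l 16515328))) (a (b (a (l 16554896) (l 2)) (l 2)) (l 2)))) (b (b (b (b (b (l 3) (l 2)) (l 2)) (l 2)) (l 2)) (l 2))), by decide +kernel⟩

def k30_pp_022_s : ∃ t, chk3 f_pp_022_s t 3 3 1 = true :=
  ⟨(a (b (a (b (a (b (l 16386160) (l 2)) (l 2)) (l 2)) (l 2)) (l 2)) (l 2)), by decide +kernel⟩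

theorem s31_pp_022_s : ∃ t, chk3 f_pp_022_s t 3 2 1 = true := ex3_b k28_pp_022_s k29_pp_022_s

theorem s32_pp_022_s : ∃ t, chk3 f_pp_022_s t 3 1 1 = true := ex3_b s31_pp_022_s k30_pp_022_s

theorem s33_pp_022_s : ∃ t, chk3 f_pp_022_s t 2 5 1 = true := ex3_a k25_pp_022_s k26_pp_022_s

theorem s34_pp_022_s : ∃ t, chk3 f_pp_022_s t 10 18 1 = true := ex3_a k21_pp_022_s k22_pp_022_s

theorem s35_pp_022_s : ∃ t, chk3 f_pp_022_s t 5 18 1 = true := ex3_a s34_pp_022_s k23_pp_022_s

theorem s36_pp_022_s : ∃ t, chk3 f_pp_022_s t 5 9 1 = true := ex3_b s35_pp_022_s k24_pp_022_s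

theorem s37_pp_022_s : ∃ t, chk3 f_pp_022_s t 4 9 1 = true := ex3_a k19_pp_022_s k20_pp_022_s

theorem s38_pp_022_s : ∃ t, chk3 f_pp_022_s t 2 9 1 = true := ex3_a s37_pp_022_s s36_pp_022_s

theorem s39_pp_022_s : ∃ t, chk3 f_pp_022_s t 19 17 1 = true := ex3_b k16_pp_022_s k17_pp_022_s

theorem s40_pp_022_s : ∃ t, chk3 f_pp_022_s t 18 34 1 = true := ex3_b k13_pp_022_s k14_pp_022_s

theorem s41_pp_022_s : ∃ t, chk3 f_pp_022_s t 18 17 1 = true := ex3_b s40_pp_022_s k15_pp_022_s

theorem s42_pp_022_s : ∃ t, chk3 f_pp_022_s t 9 17 1 = true := ex3_a s41_pp_022_s s39_pp_022_s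

theorem s43_pp_022_s : ∃ t, chk3 f_pp_022_s t 9 8 1 = true := ex3_b k12_pp_022_s s42_pp_022_s

theorem s44_pp_022_s : ∃ t, chk3 f_pp_022_s t 8 17 1 = true := ex3_a k10_pp_022_s k11_pp_022_s

theorem s45_pp_022_s : ∃ t, chk3 f_pp_022_s t 35 67 1 = true := ex3_b k8_pp_022_s k9_pp_022_s

theorem s46_pp_022_s : ∃ t, chk3 f_pp_022_s t 35 33 1 = true := ex3_b k7_pp_022_s s45_pp_022_s

theorem s47_pp_022_s : ∃ t, chk3 f_pp_022_s t 34 133 1 = true := ex3_a k4_pp_022_s k5_pp_022_s

theorem s48_pp_022_s : ∃ t, chk3 f_pp_022_s t 34 132 1 = true := ex3_b k2_pp_022_s k3_pp_022_s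

theorem s49_pp_022_s : ∃ t, chk3 f_pp_022_s t 34 66 1 = true := ex3_b s48_pp_022_s s47_pp_022_s

theorem s50_pp_022_s : ∃ t, chk3 f_pp_022_s t 34 33 1 = true := ex3_b s49_pp_022_s k6_pp_022_s

theorem s51_pp_022_s : ∃ t, chk3 f_pp_022_s t 17 33 1 = true := ex3_a s50_pp_022_s s46_pp_022_s

theorem s52_pp_022_s : ∃ t, chk3 f_pp_022_s t 17 16 1 = true := ex3_b k1_pp_022_s s51_pp_022_s

theorem s53_pp_022_s : ∃ t, chk3 f_pp_022_s t 8 16 1 = true := ex3_a k0_pp_022_s s52_pp_022_s

theorem s54_pp_022_s : ∃ t, chk3 f_pp_022_s t 8 8 1 = true := ex3_b s53_pp_022_s s44_pp_022_s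

theorem s55_pp_022_s : ∃ t, chk3 f_pp_022_s t 4 8 1 = true := ex3_a s54_pp_022_s s43_pp_022_s

theorem s56_pp_022_s : ∃ t, chk3 f_pp_022_s t 2 8 1 = true := ex3_a s55_pp_022_s k18_pp_022_s

theorem s57_pp_022_s : ∃ t, chk3 f_pp_022_s t 2 4 1 = true := ex3_b s56_pp_022_s s38_pp_022_s

theorem s58_pp_022_s : ∃ t, chk3 f_pp_022_s t 2 2 1 = true := ex3_b s57_pp_022_s s33_pp_022_s

theorem s59_pp_022_s : ∃ t, chk3 f_pp_022_s t 2 1 1 = true := ex3_b s58_pp_022_s k27_pp_022_s

theorem s60_pp_022_s : ∃ t, chk3 f_pp_022_s t 1 1 1 = true := ex3_a s59_pp_022_s s32_pp_022_s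

theorem c_pp_022_s : CertNE 0 536870912 1073741824 536870912 966367641 24778659 3 eng mog cd0q0 cd4q2 pd2 false true true .pp 0 2 2
    ndB0q0 ndB4q2 pcB2 cut_pp_022_s Ext.none :=
  certNE1 (fam := false) (s1 := true) (s2 := true) (a := 0) (b := 2) (c := 2) (cn := .pp) (n1 := ndB0q0) (n2 := ndB4q2) (pc := pcB2) (cut := cut_pp_022_s) (xt := Ext.none) (P1 := 0) (W1 := 536870912) (P2 := 1073741824) (W2 := 536870912) (P3 := 966367641) (W3 := 24778659) (N0 := 3) (En := eng) (mo := mog) (C1 := cd0q0) (C2 := cd4q2) (C3 := pd2)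
    rfl (fun _ => rfl) s60_pp_022_s

noncomputable def cut_pp_023_s : Cut := Cut.of [[⟨4, 0, 0, 1449551462⟩]]

noncomputable def f_pp_023_s : ℕ → ℕ → ℕ → ℕ → Bool := onCell 1073741824 536870912 0 1230186008 966367641 24778659
    (rowNE 3 eng mog cd0q0 cd4q3 pd2 2 false true true .up 0 2 3 (qsf 0 536870912 0 1230186008 2) ndB0q0 ndB4q3 pcB2 cut_pp_023_s Ext.none)

def k0_pp_023_s : ∃ t, chk3 f_pp_023_s t 2 1 1 = true :=
  ⟨(b (l 2) (a (b (l 2) (b (l 2) (l 3))) (b (a (l 2) (b (l 2) (a (l 2) (b (l 2) (l 200890250663))))) (b (a (a (a (l 3) (a (l 3) (b (l 2) (b (l 2) (a (c (l 16796784) (l 16775856)) (l 16769872)))))) (b (b (l 2) (l 293232090871)) (b (a (l 280884087447) (l 16722344)) (b (l 16733984) (l 16730312))))) (b (a (b (l 16686968) (l 16702408)) (b (l 16628536) (l 16619352))) (a (b (a (l 16690144) (l 16657600)) (a (l 16660184) (l 16646512))) (b (l 16586648) (l 16572216))))) (b (a (a (a (l 3) (b (a (a (l 3) (c (l 16772176) (l 16771464))) (a (c (l 16772088) (l 16772152)) (l 16763344))) (a (a (b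 (l 3) (l 16773352)) (c (l 16772840) (l 16772568))) (a (b (l 16765976) (l 16760920)) (l 16754208))))) (b (b (l 16725984) (l 16720984)) (b (l 16715240) (l 16761168)))) (b (a (a (l 16648424) (l 16632528)) (l 16533784)) (a (a (l 16612728) (l 16615448)) (l 16490472)))) (a (a (b (a (a (l 3) (a (l 3) (b (l 16745256) (l 16734032)))) (b (a (a (l 16774296) (l 16764696)) (a (l 16755072) (l 16745432))) (a (a (l 16768136) (l 16758272)) (a (l 16748392) (l 16738480))))) (b (a (a (l 3) (a (l 229948433799) (l 16771144))) (a (a (l 16761064) (l 16750952)) (a (l 16740808) (l 16730616)))) (a (a (c (l 248201999159) (l 242296396327)) (a (l 16752688) (l 16763368))) (a (a (l 16753024) (l 16742640)) (a (l 16732208) (l 16721728)))))) (a (b (b (l 16721112) (l 16713472)) (b (l 16704888) (l 16695248))) (b (l 16677328) (b (l 16663128) (l 16652048))))) (b (a (a (l 16594600) (l 16573168)) (l 16446536)) (a (c (l 16515104) (l 16502200)) (b (l 16511328) (l 16498912)))))))))), by decide +kernel⟩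

def k1_pp_023_s : ∃ t, chk3 f_pp_023_s t 3 1 1 = true :=
  ⟨(a (b (l 2) (a (b (b (l 2) (b (a (l 16577968) (l 16530112)) (b (l 16478264) (l 16467016)))) (b (b (b (l 16432592) (l 16416672)) (b (a (l 16538776) (l 16466440)) (a (l 16519448) (l 16440616)))) (b (b (a (l 16495424) (l 16413912)) (a (l 16470784) (l 16384800))) (b (a (l 16443600) (l 16356256)) (a (l 16396056) (l 16284928)))))) (a (b (b (b (l 2) (l 16521528)) (b (l 16501440) (l 16469640))) (b (b (l 16407128) (l 16289992)) (b (b (l 16328832) (l 16298096)) (b (l 16266736) (l 16228432))))) (b (b (l 6) (l 6)) (b (l 6) (l 6)))))) (b (l 6) (l 6))), by decide +kernel⟩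

theorem s2_pp_023_s : ∃ t, chk3 f_pp_023_s t 1 1 1 = true := ex3_a k0_pp_023_s k1_pp_023_s

theorem c_pp_023_s : CertNE 0 536870912 0 1230186008 966367641 24778659 3 eng mog cd0q0 cd4q3 pd2 false true true .up 0 2 3
    ndB0q0 ndB4q3 pcB2 cut_pp_023_s Ext.none :=
  certNE2 (fam := false) (s1 := true) (s2 := true) (a := 0) (b := 2) (c := 3) (cn := .up) (n1 := ndB0q0) (n2 := ndB4q3) (pc := pcB2) (cut := cut_pp_023_s) (xt := Ext.none) (P1 := 0) (W1 := 536870912) (P2 := 0) (W2 := 1230186008) (P3 := 966367641) (W3 := 24778659) (N0 := 3) (En := eng) (mo := mog) (C1 := cd0q0) (C2 := cd4q3) (C3 := pd2)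
    rfl (fun _ => rfl) s2_pp_023_s

noncomputable def cut_pp_033_s : Cut := Cut.of [[⟨4, 0, 0, 1449551462⟩]]

noncomputable def f_pp_033_s : ℕ → ℕ → ℕ → ℕ → Bool := onCell 1610612736 536870912 0 1230186008 966367641 24778659
    (rowNE 3 eng mog cd0q0 cd4q3 pd3 2 false true true .pnn 0 3 3 (qsf 0 536870912 0 1230186008 3) ndB0q0 ndB4q3 pcB3 cut_pp_033_s Ext.none)

def k0_pp_033_s : ∃ t, chk3 f_pp_033_s t 1 1 1 = true :=
  ⟨(b (l 6) (l 6)), by decide +kernel⟩

theorem c_pp_033_s : CertNE 0 536870912 0 1230186008 966367641 24778659 3 eng mog cd0q0 cd4q3 pd3 false true true .pnn 0 3 3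
    ndB0q0 ndB4q3 pcB3 cut_pp_033_s Ext.none :=
  certNE2 (fam := false) (s1 := true) (s2 := true) (a := 0) (b := 3) (c := 3) (cn := .pnn) (n1 := ndB0q0) (n2 := ndB4q3) (pc := pcB3) (cut := cut_pp_033_s) (xt := Ext.none) (P1 := 0) (W1 := 536870912) (P2 := 0) (W2 := 1230186008) (P3 := 966367641) (W3 := 24778659) (N0 := 3) (En := eng) (mo := mog) (C1 := cd0q0) (C2 := cd4q3) (C3 := pd3)
    rfl (fun _ => rfl) k0_pp_033_s

noncomputable def cut_pp_101_s : Cut := Cut.of [[⟨4, 0, 0, 1449551462⟩]]

noncomputable def f_pp_101_s : ℕ → ℕ → ℕ → ℕ → Bool := onCell 536870912 536870912 536870912 536870912 966367641 24778659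
    (rowNE 3 eng mog cd0q1 cd4q1 pd0 0 false true true .npn 1 0 1 (qsf 536870912 536870912 536870912 536870912 0) ndB0q1 ndB4q1 pcB0 cut_pp_101_s Ext.none)

def k0_pp_101_s : ∃ t, chk3 f_pp_101_s t 1 1 1 = true :=
  ⟨(a (l 3) (l 5)), by decide +kernel⟩

theorem c_pp_101_s : CertNE 536870912 536870912 536870912 536870912 966367641 24778659 3 eng mog cd0q1 cd4q1 pd0 false true true .npn 1 0 1
    ndB0q1 ndB4q1 pcB0 cut_pp_101_s Ext.none :=
  certNE0 (fam := false) (s1 := true) (s2 := true) (a := 1) (b := 0) (c := 1) (cn := .npn) (n1 := ndB0q1) (n2 := ndB4q1) (pc := pcB0) (cut := cut_pp_101_s) (xt := Ext.none) (P1 := 536870912) (W1 := 536870912) (P2 := 536870912) (W2 := 536870912) (P3 := 966367641) (W3 := 24778659) (N0 := 3) (En := eng) (mo := mog) (C1 := cd0q1) (C2 := cd4q1) (C3 := pd0)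
    rfl k0_pp_101_s

noncomputable def cut_pp_102_s : Cut := Cut.of [[⟨4, 0, 0, 1449551462⟩]]

noncomputable def f_pp_102_s : ℕ → ℕ → ℕ → ℕ → Bool := onCell 536870912 536870912 1073741824 536870912 966367641 24778659
    (rowNE 3 eng mog cd0q1 cd4q2 pd0 0 false true true .npp 1 0 2 (qsf 536870912 536870912 1073741824 536870912 0) ndB0q1 ndB4q2 pcB0 cut_pp_102_s Ext.none)

def k0_pp_102_s : ∃ t, chk3 f_pp_102_s t 1 1 1 = true :=
  ⟨(a (l 3) (b (l 5) (l 3))), by decide +kernel⟩

theorem c_pp_102_s : CertNE 536870912 536870912 1073741824 536870912 966367641 24778659 3 eng mog cd0q1 cd4q2 pd0 false true true .npp 1 0 2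
    ndB0q1 ndB4q2 pcB0 cut_pp_102_s Ext.none :=
  certNE0 (fam := false) (s1 := true) (s2 := true) (a := 1) (b := 0) (c := 2) (cn := .npp) (n1 := ndB0q1) (n2 := ndB4q2) (pc := pcB0) (cut := cut_pp_102_s) (xt := Ext.none) (P1 := 536870912) (W1 := 536870912) (P2 := 1073741824) (W2 := 536870912) (P3 := 966367641) (W3 := 24778659) (N0 := 3) (En := eng) (mo := mog) (C1 := cd0q1) (C2 := cd4q2) (C3 := pd0)
    rfl k0_pp_102_s

noncomputable def cut_pp_112_s : Cut := Cut.of [[⟨4, 0, 0, 1449551462⟩]]

noncomputable def f_pp_112_s : ℕ → ℕ → ℕ → ℕ → Bool := onCell 536870912 536870912 1073741824 536870912 966367641 24778659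
    (rowNE 3 eng mog cd0q1 cd4q2 pd1 0 false true true .dn 1 1 2 (qsf 536870912 536870912 1073741824 536870912 1) ndB0q1 ndB4q2 pcB1 cut_pp_112_s Ext.none)

def k0_pp_112_s : ∃ t, chk3 f_pp_112_s t 1 1 1 = true :=
  ⟨(a (l 3) (b (l 5) (l 3))), by decide +kernel⟩

theorem c_pp_112_s : CertNE 536870912 536870912 1073741824 536870912 966367641 24778659 3 eng mog cd0q1 cd4q2 pd1 false true true .dn 1 1 2
    ndB0q1 ndB4q2 pcB1 cut_pp_112_s Ext.none :=
  certNE0 (fam := false) (s1 := true) (s2 := true) (a := 1) (b := 1) (c := 2) (cn := .dn) (n1 := ndB0q1) (n2 := ndB4q2) (pc := pcB1) (cut := cut_pp_112_s) (xt := Ext.none) (P1 := 536870912) (W1 := 536870912) (P2 := 1073741824) (W2 := 536870912) (P3 := 966367641) (W3 := 24778659) (N0 := 3) (En := eng) (mo := mog) (C1 := cd0q1) (C2 := cd4q2) (C3 := pd1)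
    rfl k0_pp_112_s

noncomputable def cut_pp_113_s : Cut := Cut.of [[⟨4, 0, 0, 1449551462⟩], [⟨0, 1, 0, 47710208⟩, ⟨1, 1, 0, 47710208⟩, ⟨2, 2, 0, 8388608⟩]]

noncomputable def f_pp_113_s : ℕ → ℕ → ℕ → ℕ → Bool := onCell 536870912 536870912 0 1230186008 966367641 24778659
    (rowNE 3 eng mog cd0q1 cd4q3 pd1 2 false true true .nn 1 1 3 (qsf 536870912 536870912 0 1230186008 1) ndB0q1 ndB4q3 pcB1 cut_pp_113_s Ext.none)

def k0_pp_113_s : ∃ t, chk3 f_pp_113_s t 1 1 1 = true :=
  ⟨(a (b (l 2) (a (b (l 2) (b (l 2) (l 3))) (b (b (l 2) (a (l 2) (l 3))) (l 3)))) (a (b (l 2) (b (l 3) (l 3))) (b (b (a (l 2) (a (l 2) (b (l 14) (l 3)))) (l 3)) (l 3)))), by decide +kernel⟩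

theorem c_pp_113_s : CertNE 536870912 536870912 0 1230186008 966367641 24778659 3 eng mog cd0q1 cd4q3 pd1 false true true .nn 1 1 3
    ndB0q1 ndB4q3 pcB1 cut_pp_113_s Ext.none :=
  certNE2 (fam := false) (s1 := true) (s2 := true) (a := 1) (b := 1) (c := 3) (cn := .nn) (n1 := ndB0q1) (n2 := ndB4q3) (pc := pcB1) (cut := cut_pp_113_s) (xt := Ext.none) (P1 := 536870912) (W1 := 536870912) (P2 := 0) (W2 := 1230186008) (P3 := 966367641) (W3 := 24778659) (N0 := 3) (En := eng) (mo := mog) (C1 := cd0q1) (C2 := cd4q3) (C3 := pd1)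
    rfl (fun _ => rfl) k0_pp_113_s

noncomputable def cut_pp_123_s : Cut := Cut.of [[⟨4, 0, 0, 1449551462⟩], [⟨0, 1, 0, 47710208⟩, ⟨1, 1, 0, 47710208⟩, ⟨2, 2, 0, 8388608⟩]]

noncomputable def f_pp_123_s : ℕ → ℕ → ℕ → ℕ → Bool := onCell 1073741824 536870912 0 1230186008 966367641 24778659
    (rowNE 3 eng mog cd0q1 cd4q3 pd2 2 false true true .npn 1 2 3 (qsf 536870912 536870912 0 1230186008 2) ndB0q1 ndB4q3 pcB2 cut_pp_123_s Ext.none)

def k0_pp_123_s : ∃ t, chk3 f_pp_123_s t 16 4 1 = true :=
  ⟨(b (l 14) (l 3)), by decide +kernel⟩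

def k1_pp_123_s : ∃ t, chk3 f_pp_123_s t 17 8 1 = true :=
  ⟨(a (b (a (l 14) (l 16665976)) (a (b (l 14) (b (l 14) (l 3))) (b (b (l 16715872) (a (b (l 16700704) (a (l 16709040) (l 16702920))) (l 16695856))) (b (a (b (a (b (l 16737008) (l 16741632)) (l 16732440)) (a (c (c (l 16766600) (l 16768520)) (b (l 16769832) (l 16762736))) (b (l 16739368) (l 16743968)))) (b (a (l 16704672) (l 16719976)) (a (l 16713872) (l 16728152)))) (b (a (a (a (c (l 374366784119) (l 383493599783)) (b (b (l 16773528) (l 272898177431)) (l 369534946983))) (a (b (l 16750264) (b (l 16764168) (l 309405405623))) (b (l 16767800) (l 16761872)))) (a (c (l 16761864) (l 16768128)) (l 16726736))) (a (a (l 3) (b (a (l 402284081607) (b (l 274508790087) (l 333564597079))) (l 3))) (c (a (b (l 16770376) (a (l 328732755943) (l 16773808))) (b (l 16740888) (l 16767480))) (a (b (l 16773168) (l 308331650343)) (l 16769808))))))))) (b (b (l 16703440) (l 16711688)) (b (a (l 16684896) (l 16714968)) (a (b (a (b (l 16714448) (a (l 16700728) (l 16716640)))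 (l 16710408)) (a (c (c (l 16743472) (l 16749680)) (b (l 16756104) (l 16762616))) (c (b (l 16726640) (l 16736088)) (l 16709272)))) (a (b (l 16725960) (l 16669744)) (l 16723264)))))), by decide +kernel⟩

def k2_pp_123_s : ∃ t, chk3 f_pp_123_s t 17 9 1 = true :=
  ⟨(b (a (a (l 3) (b (a (l 3) (b (c (b (a (l 400673465879) (b (a (l 16769736) (l 16770936)) (a (l 400673469223) (l 277730021127)))) (l 440938777495)) (b (a (l 406042175047) (b (l 222969187975) (l 344302004791))) (l 439328165207))) (l 3))) (l 3))) (a (a (b (b (a (b (c (c (l 16766384) (l 16768368)) (l 16766208)) (b (a (l 323364045495) (l 289541166503)) (a (l 3) (l 331953980727)))) (b (b (l 16739680) (l 16744024)) (c (b (l 16767232) (l 175724545943)) (l 284172450263)))) (a (l 3) (b (a (l 394767887271) (c (l 320679686535) (l 331417108839))) (l 3)))) (l 3)) (b (c (b (c (l 16770624) (l 16754880)) (b (a (b (l 16769688) (l 250349600103)) (l 16764136)) (a (l 378124889191) (a (l 284172465463) (l 16761928))))) (b (b (l 16759984) (l 16745096)) (b (a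 (b (l 16772904) (l 236927830503)) (l 16769808)) (a (l 386177952727) (b (l 16774248) (l 319069079431)))))) (b (b (a (l 3) (l 397989110679)) (l 3)) (l 3)))) (a (b (b (b (l 16678552) (l 16707616)) (a (b (l 16739720) (a (l 16753312) (l 16746240))) (b (l 16733672) (l 16741632)))) (b (a (b (c (b (l 228874764503) (l 323900913095)) (l 313163494695)) (l 3)) (b (c (l 16768592) (l 16772440)) (c (l 314774100695) (l 327659008839)))) (l 3))) (b (b (b (l 16689872) (l 16696248)) (b (l 16704016) (c (l 16725936) (l 16760712)))) (b (a (b (l 16732920) (c (l 175724542743) (l 16752600))) (b (l 16737496) (l 16739816))) (c (b (a (l 342691391015) (l 198809989447)) (l 406579033719)) (b (a (l 353965700375) (l 16764112)) (l 387788562439)))))))) (l 3)), by decide +kernel⟩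

def k3_pp_123_s : ∃ t, chk3 f_pp_123_s t 8 5 1 = true :=
  ⟨(l 3), by decide +kernel⟩

def k4_pp_123_s : ∃ t, chk3 f_pp_123_s t 9 8 1 = true :=
  ⟨(a (b (a (l 16679000) (l 16629792)) (a (a (b (l 16702472) (l 16714840)) (l 16696088)) (l 16656616))) (b (a (l 16624536) (l 16600784)) (a (l 16653704) (l 16632248)))), by decide +kernel⟩

def k5_pp_123_s : ∃ t, chk3 f_pp_123_s t 18 9 1 = true :=
  ⟨(a (b (b (b (a (l 16651328) (l 16713576)) (a (a (c (l 16685240) (l 16750720)) (l 16667120)) (l 16678528))) (b (a (a (b (l 16708048) (b (l 16713576) (l 16717248))) (l 16680040)) (a (l 16670336) (l 16704880))) (c (a (a (a (b (l 16764704) (l 243370273527)) (l 16761816)) (a (l 16754416) (l 16726272))) (a (l 16715952) (l 16724040))) (a (a (b (l 16768504) (a (l 248202115031) (l 16771504))) (l 16763400)) (l 16732520))))) (a (b (b (a (b (a (l 380272371815) (b (l 306184157863) (l 318532201367))) (l 424295781303)) (c (b (l 16767688) (a (l 289541170487) (l 16769616))) (a (b (l 16772424) (l 314237238039)) (l 16749960))))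 (a (l 3) (a (l 3) (c (l 349133839383) (l 358797536215))))) (l 3)) (a (b (b (a (b (l 16759232) (l 16765880)) (l 16715352)) (a (b (a (l 16752856) (l 16771080)) (l 319605937527)) (b (l 16767016) (a (l 16753720) (l 16772048))))) (b (c (l 405505288727) (l 407115912679)) (l 3))) (c (b (b (l 16740936) (c (l 16755168) (l 16759928))) (b (a (l 287930536327) (l 203104949799)) (l 417316457111))) (b (b (l 16758976) (l 16746320)) (b (a (l 312626617303) (l 283635575895)) (l 416779587591))))))) (b (a (b (l 16706016) (b (l 16716992) (a (l 16666024) (l 16722696)))) (l 16597936)) (a (b (a (b (l 16698744) (b (l 16728712) (l 16734632))) (b (l 16690512) (l 16701920))) (a (b (a (b (l 16763920) (l 16769792)) (l 16720016)) (a (b (l 280951231271) (l 349670710983)) (b (l 16770520) (l 286319940727)))) (b (c (l 16747504) (l 16762784)) (a (a (l 16748640) (l 16746232)) (l 16721760))))) (b (b (l 16660400) (b (l 16667280) (l 16672280))) (a (b (l 16704728) (c (l 16750104) (l 16764264))) (a (l 16683152) (l 16679688))))))), by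 decide +kernel⟩

def k6_pp_123_s : ∃ t, chk3 f_pp_123_s t 19 9 1 = true :=
  ⟨(b (a (c (l 16646144) (l 16707688)) (l 16666192)) (a (b (a (l 16654696) (l 16707800)) (a (b (l 16667688) (l 16676608)) (l 16641280))) (c (l 16640784) (l 16721096)))), by decide +kernel⟩

def k7_pp_123_s : ∃ t, chk3 f_pp_123_s t 9 5 1 = true :=
  ⟨(b (a (a (l 3) (b (b (a (a (b (a (l 3) (l 409263396519)) (l 3)) (b (c (a (l 306184158087) (l 228874751447)) (a (l 314237230455) (l 260550141783))) (l 411410875447))) (c (a (b (l 16763936) (a (l 301889191335) (l 243907137031))) (b (l 16752480) (l 16765272))) (a (b (l 16749880) (l 300815448583)) (b (l 16765584) (l 16771584))))) (a (l 3) (a (l 3) (b (c (l 277729992375) (l 295983613223)) (l 3))))) (l 3))) (a (b (a (b (a (b (l 16751696) (l 16718600)) (b (l 16745344) (l 16753648))) (a (b (b (l 16746032) (l 254107662439)) (a (l 290614902567) (l 259476389063))) (b (l 16740720) (c (l 16766744) (l 16772416))))) (b (b (l 16674640) (l 16702928)) (a (b (l 16755144) (l 16762528)) (l 16689912))))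 (a (b (a (l 3) (b (a (l 280951227463) (l 249275843479)) (l 403894685095))) (l 3)) (b (a (b (c (l 16766960) (l 16772560)) (c (l 251423323847) (l 263771362615))) (b (l 16763088) (l 16748728))) (a (b (l 338933272791) (l 3)) (b (l 249275833175) (l 334101435703)))))) (b (a (b (l 16647608) (c (l 16732824) (l 16757600))) (b (l 16721744) (l 16693880))) (a (b (c (a (l 16753888) (l 16746328)) (l 16744136)) (a (b (l 16769472) (l 236390932455)) (c (l 16762176) (l 16770424)))) (b (l 16684624) (b (l 16734624) (l 16718816))))))) (a (l 3) (a (l 3) (b (a (b (a (b (l 328195857063) (l 3)) (b (l 16753560) (l 321216536647))) (l 3)) (b (a (b (l 16768560) (l 16773568)) (l 16744416)) (a (b (l 16755024) (l 3)) (b (l 16772384) (l 16776952))))) (a (l 3) (b (a (l 3) (l 320679644359)) (l 3))))))), by decide +kernel⟩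

def k8_pp_123_s : ∃ t, chk3 f_pp_123_s t 5 2 1 = true :=
  ⟨(b (a (b (a (a (b (l 16577376) (l 16612192)) (b (l 16552024) (a (l 16597800) (l 16588616)))) (b (l 6) (l 16561856))) (a (a (b (l 16645744) (l 16679960)) (b (a (l 16630024) (l 16619112)) (a (l 16662416) (l 16649232)))) (b (l 16595552) (l 16601648)))) (b (l 6) (b (a (l 16557768) (l 6)) (l 16567896)))) (a (a (a (b (b (a (l 16613408) (l 16706120)) (a (b (l 16738056) (l 16727112)) (b (l 16727040) (l 16737648)))) (b (a (b (a (l 16759776) (l 16754272)) (a (l 16747792) (l 16762840))) (b (l 16746184) (a (l 16757128) (l 16751536)))) (a (a (b (l 212231729191) (l 3)) (b (l 16750408) (l 305110396343))) (b (a (l 16765496) (l 16759720)) (a (l 16752376) (l 16767400)))))) (b (a (b (l 16692984) (b (l 16713056) (l 16725128))) (b (l 16677736) (b (l 16696384) (l 16707880)))) (a (b (b (l 16734824) (l 16743352)) (b (l 16693584) (a (l 16761544) (l 16755736)))) (b (a (l 16708344) (b (l 16714808) (l 16726248))) (a (b (l 16742848) (l 16749976)) (b (l 16736232)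 (l 16744144))))))) (b (b (l 16648248) (a (l 16682088) (l 16659296))) (b (a (l 16703736) (l 16681200)) (a (b (l 16720424) (l 16729984)) (l 16702920))))) (b (b (a (l 16607384) (l 16571448)) (a (l 16607648) (l 16590848))) (a (b (l 16649760) (l 16670864)) (b (l 16610448) (l 16609256)))))), by decide +kernel⟩

def k9_pp_123_s : ∃ t, chk3 f_pp_123_s t 3 2 1 = true :=
  ⟨(a (b (l 6) (a (b (b (l 6) (l 16477984)) (b (l 16557152) (a (l 16591552) (l 16553872)))) (l 6))) (l 6)), by decide +kernel⟩

def k10_pp_123_s : ∃ t, chk3 f_pp_123_s t 1 6 1 = true :=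
  ⟨(a (a (l 3) (b (b (a (a (a (a (l 3) (a (b (l 302426034951) (l 3)) (b (l 16753568) (l 297594190215)))) (a (a (b (l 16768520) (l 16748720)) (b (l 16762544) (l 16768808))) (a (b (l 16756600) (l 16762704)) (b (l 16750704) (l 16756632))))) (b (a (l 16736552) (l 16714840)) (l 16730856))) (a (b (l 16683832) (l 16688336)) (l 16645768))) (a (a (a (l 3) (a (a (b (l 334638286759) (l 3)) (b (l 16774472) (l 16775168))) (a (b (a (l 16769776) (l 16766648)) (a (l 16774680) (l 16771480))) (b (l 16762000) (l 16766720))))) (b (a (l 16746944) (l 16723696)) (a (l 16751248) (l 16727184)))) (a (b (l 16690992) (l 16692968)) (l 16649504)))) (a (a (a (l 3) (a (l 3) (b (a (b (a (l 16775664) (l 16775608)) (l 305647396279)) (b (l 16770728) (l 16773944))) (a (l 3) (b (l 16776272) (l 16776776)))))) (c (b (b (l 16739824) (l 16742160)) (b (l 16743640) (l 16743952))) (b (b (l 16745112) (l 16747296)) (b (l 16748344) (l 16748368))))) (a (b (b (l 16694040) (l 16694096)) (b (l 16693048) (l 16690704))) (b (l 16646296) (b (l 16641024)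 (l 16635608))))))) (a (b (a (b (a (l 16605848) (l 16564736)) (a (l 16586992) (l 16565712))) (b (l 16501768) (a (l 16521424) (l 6)))) (a (b (a (l 16556984) (l 16508968)) (b (l 16435904) (l 16403328))) (b (a (l 16501000) (l 1)) (l 1)))) (l 6))), by decide +kernel⟩

def k11_pp_123_s : ∃ t, chk3 f_pp_123_s t 1 7 1 = true :=
  ⟨(a (b (a (l 3) (a (a (a (l 3) (a (l 3) (b (a (l 3) (b (l 16776488) (l 16776792))) (a (b (a (l 3) (l 16773392)) (c (l 16807312) (l 16796872))) (b (l 16774216) (l 16769824)))))) (b (b (a (l 16759560) (l 16730408)) (a (l 16757720) (l 16727224))) (b (a (b (l 16755392) (l 16753232)) (l 16722264)) (a (b (l 16750552) (l 1)) (l 1))))) (b (a (b (l 16686928) (l 16681296)) (b (l 16628368) (l 1))) (l 1)))) (a (l 3) (a (a (a (b (l 3) (l 1)) (l 1)) (l 1)) (l 1)))) (l 1)), by decide +kernel⟩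

theorem s12_pp_123_s : ∃ t, chk3 f_pp_123_s t 1 3 1 = true := ex3_b k10_pp_123_s k11_pp_123_s

theorem s13_pp_123_s : ∃ t, chk3 f_pp_123_s t 9 9 1 = true := ex3_a k5_pp_123_s k6_pp_123_s

theorem s14_pp_123_s : ∃ t, chk3 f_pp_123_s t 9 4 1 = true := ex3_b k4_pp_123_s s13_pp_123_s

theorem s15_pp_123_s : ∃ t, chk3 f_pp_123_s t 9 2 1 = true := ex3_b s14_pp_123_s k7_pp_123_s

theorem s16_pp_123_s : ∃ t, chk3 f_pp_123_s t 17 4 1 = true := ex3_b k1_pp_123_s k2_pp_123_s

theorem s17_pp_123_s : ∃ t, chk3 f_pp_123_s t 8 4 1 = true := ex3_a k0_pp_123_s s16_pp_123_s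

theorem s18_pp_123_s : ∃ t, chk3 f_pp_123_s t 8 2 1 = true := ex3_b s17_pp_123_s k3_pp_123_s

theorem s19_pp_123_s : ∃ t, chk3 f_pp_123_s t 4 2 1 = true := ex3_a s18_pp_123_s s15_pp_123_s

theorem s20_pp_123_s : ∃ t, chk3 f_pp_123_s t 2 2 1 = true := ex3_a s19_pp_123_s k8_pp_123_s

theorem s21_pp_123_s : ∃ t, chk3 f_pp_123_s t 1 2 1 = true := ex3_a s20_pp_123_s k9_pp_123_s

theorem s22_pp_123_s : ∃ t, chk3 f_pp_123_s t 1 1 1 = true := ex3_b s21_pp_123_s s12_pp_123_s

theorem c_pp_123_s : CertNE 536870912 536870912 0 1230186008 966367641 24778659 3 eng mog cd0q1 cd4q3 pd2 false true true .npn 1 2 3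
    ndB0q1 ndB4q3 pcB2 cut_pp_123_s Ext.none :=
  certNE2 (fam := false) (s1 := true) (s2 := true) (a := 1) (b := 2) (c := 3) (cn := .npn) (n1 := ndB0q1) (n2 := ndB4q3) (pc := pcB2) (cut := cut_pp_123_s) (xt := Ext.none) (P1 := 536870912) (W1 := 536870912) (P2 := 0) (W2 := 1230186008) (P3 := 966367641) (W3 := 24778659) (N0 := 3) (En := eng) (mo := mog) (C1 := cd0q1) (C2 := cd4q3) (C3 := pd2)
    rfl (fun _ => rfl) s22_pp_123_s

noncomputable def cut_pp_133_s : Cut := Cut.of [[⟨4, 0, 0, 1449551462⟩]]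

noncomputable def f_pp_133_s : ℕ → ℕ → ℕ → ℕ → Bool := onCell 1610612736 536870912 0 1230186008 966367641 24778659
    (rowNE 3 eng mog cd0q1 cd4q3 pd3 2 false true true .dn 1 3 3 (qsf 536870912 536870912 0 1230186008 3) ndB0q1 ndB4q3 pcB3 cut_pp_133_s Ext.none)

def k0_pp_133_s : ∃ t, chk3 f_pp_133_s t 1 1 1 = true :=
  ⟨(b (l 6) (l 1)), by decide +kernel⟩

theorem c_pp_133_s : CertNE 536870912 536870912 0 1230186008 966367641 24778659 3 eng mog cd0q1 cd4q3 pd3 false true true .dn 1 3 3
    ndB0q1 ndB4q3 pcB3 cut_pp_133_s Ext.none :=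
  certNE2 (fam := false) (s1 := true) (s2 := true) (a := 1) (b := 3) (c := 3) (cn := .dn) (n1 := ndB0q1) (n2 := ndB4q3) (pc := pcB3) (cut := cut_pp_133_s) (xt := Ext.none) (P1 := 536870912) (W1 := 536870912) (P2 := 0) (W2 := 1230186008) (P3 := 966367641) (W3 := 24778659) (N0 := 3) (En := eng) (mo := mog) (C1 := cd0q1) (C2 := cd4q3) (C3 := pd3)
    rfl (fun _ => rfl) k0_pp_133_s

noncomputable def cut_pp_202_s : Cut := Cut.of [[⟨4, 0, 0, 1449551462⟩]]

noncomputable def f_pp_202_s : ℕ → ℕ → ℕ → ℕ → Bool := onCell 0 536870912 1073741824 536870912 966367641 24778659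
    (rowNE 3 eng mog cd0q2 cd4q2 pd0 0 false true true .pp 2 0 2 (qsf 0 536870912 1073741824 536870912 0) ndB0q2 ndB4q2 pcB0 cut_pp_202_s Ext.none)

def k0_pp_202_s : ∃ t, chk3 f_pp_202_s t 1 1 1 = true :=
  ⟨(l 5), by decide +kernel⟩

theorem c_pp_202_s : CertNE 0 536870912 1073741824 536870912 966367641 24778659 3 eng mog cd0q2 cd4q2 pd0 false true true .pp 2 0 2
    ndB0q2 ndB4q2 pcB0 cut_pp_202_s Ext.none :=
  certNE0 (fam := false) (s1 := true) (s2 := true) (a := 2) (b := 0) (c := 2) (cn := .pp) (n1 := ndB0q2) (n2 := ndB4q2) (pc := pcB0) (cut := cut_pp_202_s) (xt := Ext.none) (P1 := 0) (W1 := 536870912) (P2 := 1073741824) (W2 := 536870912) (P3 := 966367641) (W3 := 24778659) (N0 := 3) (En := eng) (mo := mog) (C1 := cd0q2) (C2 := cd4q2) (C3 := pd0)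
    rfl k0_pp_202_s

noncomputable def cut_pp_203_s : Cut := Cut.of [[⟨4, 0, 0, 1449551462⟩]]

noncomputable def f_pp_203_s : ℕ → ℕ → ℕ → ℕ → Bool := onCell 0 536870912 0 1230186008 966367641 24778659
    (rowNE 3 eng mog cd0q2 cd4q3 pd0 0 false true true .up 2 0 3 (qsf 0 536870912 0 1230186008 0) ndB0q2 ndB4q3 pcB0 cut_pp_203_s Ext.none)

def k0_pp_203_s : ∃ t, chk3 f_pp_203_s t 1 1 1 = true :=
  ⟨(b (l 2) (b (l 2) (a (l 5) (l 3)))), by decide +kernel⟩

theorem c_pp_203_s : CertNE 0 536870912 0 1230186008 966367641 24778659 3 eng mog cd0q2 cd4q3 pd0 false true true .up 2 0 3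
    ndB0q2 ndB4q3 pcB0 cut_pp_203_s Ext.none :=
  certNE0 (fam := false) (s1 := true) (s2 := true) (a := 2) (b := 0) (c := 3) (cn := .up) (n1 := ndB0q2) (n2 := ndB4q3) (pc := pcB0) (cut := cut_pp_203_s) (xt := Ext.none) (P1 := 0) (W1 := 536870912) (P2 := 0) (W2 := 1230186008) (P3 := 966367641) (W3 := 24778659) (N0 := 3) (En := eng) (mo := mog) (C1 := cd0q2) (C2 := cd4q3) (C3 := pd0)
    rfl k0_pp_203_s

noncomputable def cut_pp_213_s : Cut := Cut.of [[⟨4, 0, 0, 1449551462⟩], [⟨0, 1, 0, 47710208⟩, ⟨1, 1, 0, 47710208⟩, ⟨2, 2, 0, 8388608⟩]]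

noncomputable def f_pp_213_s : ℕ → ℕ → ℕ → ℕ → Bool := onCell 0 536870912 0 1230186008 966367641 24778659
    (rowNE 3 eng mog cd0q2 cd4q3 pd1 0 false true true .pnn 2 1 3 (qsf 0 536870912 0 1230186008 1) ndB0q2 ndB4q3 pcB1 cut_pp_213_s Ext.none)

def k0_pp_213_s : ∃ t, chk3 f_pp_213_s t 1 1 1 = true :=
  ⟨(a (b (l 3) (l 5)) (b (b (a (l 3) (a (l 3) (b (b (l 14) (l 3)) (l 3)))) (l 3)) (b (l 3) (l 3)))), by decide +kernel⟩

theorem c_pp_213_s : CertNE 0 536870912 0 1230186008 966367641 24778659 3 eng mog cd0q2 cd4q3 pd1 false true true .pnn 2 1 3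
    ndB0q2 ndB4q3 pcB1 cut_pp_213_s Ext.none :=
  certNE0 (fam := false) (s1 := true) (s2 := true) (a := 2) (b := 1) (c := 3) (cn := .pnn) (n1 := ndB0q2) (n2 := ndB4q3) (pc := pcB1) (cut := cut_pp_213_s) (xt := Ext.none) (P1 := 0) (W1 := 536870912) (P2 := 0) (W2 := 1230186008) (P3 := 966367641) (W3 := 24778659) (N0 := 3) (En := eng) (mo := mog) (C1 := cd0q2) (C2 := cd4q3) (C3 := pd1)
    rfl k0_pp_213_s

noncomputable def cut_pm_001_s : Cut := Cut.of [[⟨4, 0, 0, 1449551462⟩]]

noncomputable def f_pm_001_s : ℕ → ℕ → ℕ → ℕ → Bool := onCell 0 536870912 536870912 536870912 966367641 24778659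
    (rowNE 3 eng mog cd0q0 cd4q1 pd0 0 false true false .up 0 0 1 (qsf 0 536870912 536870912 536870912 0) ndB0q0 ndB4q1 pcB0 cut_pm_001_s Ext.none)

def k0_pm_001_s : ∃ t, chk3 f_pm_001_s t 1 1 1 = true :=
  ⟨(l 4), by decide +kernel⟩

theorem c_pm_001_s : CertNE 0 536870912 536870912 536870912 966367641 24778659 3 eng mog cd0q0 cd4q1 pd0 false true false .up 0 0 1
    ndB0q0 ndB4q1 pcB0 cut_pm_001_s Ext.none :=
  certNE0 (fam := false) (s1 := true) (s2 := false) (a := 0) (b := 0) (c := 1) (cn := .up) (n1 := ndB0q0) (n2 := ndB4q1) (pc := pcB0) (cut := cut_pm_001_s) (xt := Ext.none) (P1 := 0) (W1 := 536870912) (P2 := 536870912) (W2 := 536870912) (P3 := 966367641) (W3 := 24778659) (N0 := 3) (En := eng) (mo := mog) (C1 := cd0q0) (C2 := cd4q1) (C3 := pd0)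
    rfl k0_pm_001_s

noncomputable def cut_pm_011_s : Cut := Cut.of [[⟨4, 0, 0, 1449551462⟩]]

noncomputable def f_pm_011_s : ℕ → ℕ → ℕ → ℕ → Bool := onCell 0 536870912 536870912 536870912 966367641 24778659
    (rowNE 3 eng mog cd0q0 cd4q1 pd1 0 false true false .pnn 0 1 1 (qsf 0 536870912 536870912 536870912 1) ndB0q0 ndB4q1 pcB1 cut_pm_011_s Ext.none)

def k0_pm_011_s : ∃ t, chk3 f_pm_011_s t 1 1 1 = true :=
  ⟨(l 4), by decide +kernel⟩

theorem c_pm_011_s : CertNE 0 536870912 536870912 536870912 966367641 24778659 3 eng mog cd0q0 cd4q1 pd1 false true false .pnn 0 1 1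
    ndB0q0 ndB4q1 pcB1 cut_pm_011_s Ext.none :=
  certNE0 (fam := false) (s1 := true) (s2 := false) (a := 0) (b := 1) (c := 1) (cn := .pnn) (n1 := ndB0q0) (n2 := ndB4q1) (pc := pcB1) (cut := cut_pm_011_s) (xt := Ext.none) (P1 := 0) (W1 := 536870912) (P2 := 536870912) (W2 := 536870912) (P3 := 966367641) (W3 := 24778659) (N0 := 3) (En := eng) (mo := mog) (C1 := cd0q0) (C2 := cd4q1) (C3 := pd1)
    rfl k0_pm_011_s

noncomputable def cut_pm_012_s : Cut := Cut.of [[⟨4, 0, 0, 1449551462⟩]]

noncomputable def f_pm_012_s : ℕ → ℕ → ℕ → ℕ → Bool := onCell 0 536870912 1073741824 536870912 966367641 24778659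
    (rowNE 3 eng mog cd0q0 cd4q2 pd1 0 false true false .pnp 0 1 2 (qsf 0 536870912 1073741824 536870912 1) ndB0q0 ndB4q2 pcB1 cut_pm_012_s Ext.none)

def k0_pm_012_s : ∃ t, chk3 f_pm_012_s t 1 1 1 = true :=
  ⟨(l 4), by decide +kernel⟩

theorem c_pm_012_s : CertNE 0 536870912 1073741824 536870912 966367641 24778659 3 eng mog cd0q0 cd4q2 pd1 false true false .pnp 0 1 2
    ndB0q0 ndB4q2 pcB1 cut_pm_012_s Ext.none :=
  certNE0 (fam := false) (s1 := true) (s2 := false) (a := 0) (b := 1) (c := 2) (cn := .pnp) (n1 := ndB0q0) (n2 := ndB4q2) (pc := pcB1) (cut := cut_pm_012_s) (xt := Ext.none) (P1 := 0) (W1 := 536870912) (P2 := 1073741824) (W2 := 536870912) (P3 := 966367641) (W3 := 24778659) (N0 := 3) (En := eng) (mo := mog) (C1 := cd0q0) (C2 := cd4q2) (C3 := pd1)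
    rfl k0_pm_012_s

noncomputable def cut_pm_022_s : Cut := Cut.of [[⟨4, 0, 0, 1449551462⟩]]

noncomputable def f_pm_022_s : ℕ → ℕ → ℕ → ℕ → Bool := onCell 0 536870912 1073741824 536870912 966367641 24778659
    (rowNE 3 eng mog cd0q0 cd4q2 pd2 0 false true false .pp 0 2 2 (qsf 0 536870912 1073741824 536870912 2) ndB0q0 ndB4q2 pcB2 cut_pm_022_s Ext.none)

def k0_pm_022_s : ∃ t, chk3 f_pm_022_s t 1 1 1 = true :=
  ⟨(l 4), by decide +kernel⟩

theorem c_pm_022_s : CertNE 0 536870912 1073741824 536870912 966367641 24778659 3 eng mog cd0q0 cd4q2 pd2 false true false .pp 0 2 2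
    ndB0q0 ndB4q2 pcB2 cut_pm_022_s Ext.none :=
  certNE0 (fam := false) (s1 := true) (s2 := false) (a := 0) (b := 2) (c := 2) (cn := .pp) (n1 := ndB0q0) (n2 := ndB4q2) (pc := pcB2) (cut := cut_pm_022_s) (xt := Ext.none) (P1 := 0) (W1 := 536870912) (P2 := 1073741824) (W2 := 536870912) (P3 := 966367641) (W3 := 24778659) (N0 := 3) (En := eng) (mo := mog) (C1 := cd0q0) (C2 := cd4q2) (C3 := pd2)
    rfl k0_pm_022_s

noncomputable def cut_pm_023_s : Cut := Cut.of [[⟨4, 0, 0, 1449551462⟩]]

noncomputable def f_pm_023_s : ℕ → ℕ → ℕ → ℕ → Bool := onCell 0 536870912 0 1230186008 966367641 24778659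
    (rowNE 3 eng mog cd0q0 cd4q3 pd2 0 false true false .up 0 2 3 (qsf 0 536870912 0 1230186008 2) ndB0q0 ndB4q3 pcB2 cut_pm_023_s Ext.none)

def k0_pm_023_s : ∃ t, chk3 f_pm_023_s t 1 1 1 = true :=
  ⟨(l 6), by decide +kernel⟩

theorem c_pm_023_s : CertNE 0 536870912 0 1230186008 966367641 24778659 3 eng mog cd0q0 cd4q3 pd2 false true false .up 0 2 3
    ndB0q0 ndB4q3 pcB2 cut_pm_023_s Ext.none :=
  certNE0 (fam := false) (s1 := true) (s2 := false) (a := 0) (b := 2) (c := 3) (cn := .up) (n1 := ndB0q0) (n2 := ndB4q3) (pc := pcB2) (cut := cut_pm_023_s) (xt := Ext.none) (P1 := 0) (W1 := 536870912) (P2 := 0) (W2 := 1230186008) (P3 := 966367641) (W3 := 24778659) (N0 := 3) (En := eng) (mo := mog) (C1 := cd0q0) (C2 := cd4q3) (C3 := pd2)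
    rfl k0_pm_023_s

noncomputable def cut_pm_033_s : Cut := Cut.of [[⟨4, 0, 0, 1449551462⟩]]

noncomputable def f_pm_033_s : ℕ → ℕ → ℕ → ℕ → Bool := onCell 0 536870912 0 1230186008 966367641 24778659
    (rowNE 3 eng mog cd0q0 cd4q3 pd3 0 false true false .pnn 0 3 3 (qsf 0 536870912 0 1230186008 3) ndB0q0 ndB4q3 pcB3 cut_pm_033_s Ext.none)

def k0_pm_033_s : ∃ t, chk3 f_pm_033_s t 1 1 1 = true :=
  ⟨(l 6), by decide +kernel⟩

theorem c_pm_033_s : CertNE 0 536870912 0 1230186008 966367641 24778659 3 eng mog cd0q0 cd4q3 pd3 false true false .pnn 0 3 3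
    ndB0q0 ndB4q3 pcB3 cut_pm_033_s Ext.none :=
  certNE0 (fam := false) (s1 := true) (s2 := false) (a := 0) (b := 3) (c := 3) (cn := .pnn) (n1 := ndB0q0) (n2 := ndB4q3) (pc := pcB3) (cut := cut_pm_033_s) (xt := Ext.none) (P1 := 0) (W1 := 536870912) (P2 := 0) (W2 := 1230186008) (P3 := 966367641) (W3 := 24778659) (N0 := 3) (En := eng) (mo := mog) (C1 := cd0q0) (C2 := cd4q3) (C3 := pd3)
    rfl k0_pm_033_s

noncomputable def cut_pm_101_s : Cut := Cut.of [[⟨4, 0, 0, 1449551462⟩]]

noncomputable def f_pm_101_s : ℕ → ℕ → ℕ → ℕ → Bool := onCell 536870912 536870912 536870912 536870912 966367641 24778659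
    (rowNE 3 eng mog cd0q1 cd4q1 pd0 0 false true false .npn 1 0 1 (qsf 536870912 536870912 536870912 536870912 0) ndB0q1 ndB4q1 pcB0 cut_pm_101_s Ext.none)

def k0_pm_101_s : ∃ t, chk3 f_pm_101_s t 1 1 1 = true :=
  ⟨(l 4), by decide +kernel⟩

theorem c_pm_101_s : CertNE 536870912 536870912 536870912 536870912 966367641 24778659 3 eng mog cd0q1 cd4q1 pd0 false true false .npn 1 0 1
    ndB0q1 ndB4q1 pcB0 cut_pm_101_s Ext.none :=
  certNE0 (fam := false) (s1 := true) (s2 := false) (a := 1) (b := 0) (c := 1) (cn := .npn) (n1 := ndB0q1) (n2 := ndB4q1) (pc := pcB0) (cut := cut_pm_101_s) (xt := Ext.none) (P1 := 536870912) (W1 := 536870912) (P2 := 536870912) (W2 := 536870912) (P3 := 966367641) (W3 := 24778659) (N0 := 3) (En := eng) (mo := mog) (C1 := cd0q1) (C2 := cd4q1) (C3 := pd0)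
    rfl k0_pm_101_s

noncomputable def cut_pm_102_s : Cut := Cut.of [[⟨4, 0, 0, 1449551462⟩]]

noncomputable def f_pm_102_s : ℕ → ℕ → ℕ → ℕ → Bool := onCell 536870912 536870912 1073741824 536870912 966367641 24778659
    (rowNE 3 eng mog cd0q1 cd4q2 pd0 0 false true false .npp 1 0 2 (qsf 536870912 536870912 1073741824 536870912 0) ndB0q1 ndB4q2 pcB0 cut_pm_102_s Ext.none)

def k0_pm_102_s : ∃ t, chk3 f_pm_102_s t 1 1 1 = true :=
  ⟨(l 6), by decide +kernel⟩

theorem c_pm_102_s : CertNE 536870912 536870912 1073741824 536870912 966367641 24778659 3 eng mog cd0q1 cd4q2 pd0 false true false .npp 1 0 2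
    ndB0q1 ndB4q2 pcB0 cut_pm_102_s Ext.none :=
  certNE0 (fam := false) (s1 := true) (s2 := false) (a := 1) (b := 0) (c := 2) (cn := .npp) (n1 := ndB0q1) (n2 := ndB4q2) (pc := pcB0) (cut := cut_pm_102_s) (xt := Ext.none) (P1 := 536870912) (W1 := 536870912) (P2 := 1073741824) (W2 := 536870912) (P3 := 966367641) (W3 := 24778659) (N0 := 3) (En := eng) (mo := mog) (C1 := cd0q1) (C2 := cd4q2) (C3 := pd0)
    rfl k0_pm_102_s

noncomputable def cut_pm_112_s : Cut := Cut.of [[⟨4, 0, 0, 1449551462⟩]]

noncomputable def f_pm_112_s : ℕ → ℕ → ℕ → ℕ → Bool := onCell 536870912 536870912 1073741824 536870912 966367641 24778659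
    (rowNE 3 eng mog cd0q1 cd4q2 pd1 0 false true false .dn 1 1 2 (qsf 536870912 536870912 1073741824 536870912 1) ndB0q1 ndB4q2 pcB1 cut_pm_112_s Ext.none)

def k0_pm_112_s : ∃ t, chk3 f_pm_112_s t 1 1 1 = true :=
  ⟨(l 6), by decide +kernel⟩

theorem c_pm_112_s : CertNE 536870912 536870912 1073741824 536870912 966367641 24778659 3 eng mog cd0q1 cd4q2 pd1 false true false .dn 1 1 2
    ndB0q1 ndB4q2 pcB1 cut_pm_112_s Ext.none :=
  certNE0 (fam := false) (s1 := true) (s2 := false) (a := 1) (b := 1) (c := 2) (cn := .dn) (n1 := ndB0q1) (n2 := ndB4q2) (pc := pcB1) (cut := cut_pm_112_s) (xt := Ext.none) (P1 := 536870912) (W1 := 536870912) (P2 := 1073741824) (W2 := 536870912) (P3 := 966367641) (W3 := 24778659) (N0 := 3) (En := eng) (mo := mog) (C1 := cd0q1) (C2 := cd4q2) (C3 := pd1)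
    rfl k0_pm_112_s

noncomputable def cut_pm_113_s : Cut := Cut.of [[⟨4, 0, 0, 1449551462⟩], [⟨0, 1, 0, 47710208⟩, ⟨1, 1, 0, 47710208⟩, ⟨2, 2, 0, 8388608⟩]]

noncomputable def f_pm_113_s : ℕ → ℕ → ℕ → ℕ → Bool := onCell 536870912 536870912 0 1230186008 966367641 24778659
    (rowNE 3 eng mog cd0q1 cd4q3 pd1 0 false true false .nn 1 1 3 (qsf 536870912 536870912 0 1230186008 1) ndB0q1 ndB4q3 pcB1 cut_pm_113_s Ext.none)

def k0_pm_113_s : ∃ t, chk3 f_pm_113_s t 1 1 1 = true :=
  ⟨(a (b (l 2) (l 6)) (b (a (l 2) (b (a (l 2) (a (l 2) (b (l 14) (b (a (l 2) (l 16780712)) (l 16651120))))) (a (l 6) (b (a (l 6) (b (l 16765304) (l 6))) (l 6))))) (l 6))), by decide +kernel⟩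

theorem c_pm_113_s : CertNE 536870912 536870912 0 1230186008 966367641 24778659 3 eng mog cd0q1 cd4q3 pd1 false true false .nn 1 1 3
    ndB0q1 ndB4q3 pcB1 cut_pm_113_s Ext.none :=
  certNE0 (fam := false) (s1 := true) (s2 := false) (a := 1) (b := 1) (c := 3) (cn := .nn) (n1 := ndB0q1) (n2 := ndB4q3) (pc := pcB1) (cut := cut_pm_113_s) (xt := Ext.none) (P1 := 536870912) (W1 := 536870912) (P2 := 0) (W2 := 1230186008) (P3 := 966367641) (W3 := 24778659) (N0 := 3) (En := eng) (mo := mog) (C1 := cd0q1) (C2 := cd4q3) (C3 := pd1)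
    rfl k0_pm_113_s

noncomputable def cut_pm_123_s : Cut := Cut.of [[⟨4, 0, 0, 1449551462⟩], [⟨0, 1, 0, 47710208⟩, ⟨1, 1, 0, 47710208⟩, ⟨2, 2, 0, 8388608⟩]]

noncomputable def f_pm_123_s : ℕ → ℕ → ℕ → ℕ → Bool := onCell 1073741824 536870912 0 1230186008 966367641 24778659
    (rowNE 3 eng mog cd0q1 cd4q3 pd2 2 false true false .npn 1 2 3 (qsf 536870912 536870912 0 1230186008 2) ndB0q1 ndB4q3 pcB2 cut_pm_123_s Ext.none)

def k0_pm_123_s : ∃ t, chk3 f_pm_123_s t 1 1 1 = true :=
  ⟨(b (a (b (a (a (b (a (l 14) (b (a (b (l 16728904) (l 16717008)) (l 16685064)) (a (l 16692832) (l 16648848)))) (a (b (a (l 16744136) (l 16694384)) (a (l 16691664) (l 16633752))) (b (l 16617288) (l 6)))) (b (a (b (a (l 16650704) (l 16617240)) (l 16545240)) (l 16747952)) (l 6))) (b (l 6) (l 6))) (b (l 6) (l 6))) (l 6)) (l 6)), by decide +kernel⟩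

theorem c_pm_123_s : CertNE 536870912 536870912 0 1230186008 966367641 24778659 3 eng mog cd0q1 cd4q3 pd2 false true false .npn 1 2 3
    ndB0q1 ndB4q3 pcB2 cut_pm_123_s Ext.none :=
  certNE2 (fam := false) (s1 := true) (s2 := false) (a := 1) (b := 2) (c := 3) (cn := .npn) (n1 := ndB0q1) (n2 := ndB4q3) (pc := pcB2) (cut := cut_pm_123_s) (xt := Ext.none) (P1 := 536870912) (W1 := 536870912) (P2 := 0) (W2 := 1230186008) (P3 := 966367641) (W3 := 24778659) (N0 := 3) (En := eng) (mo := mog) (C1 := cd0q1) (C2 := cd4q3) (C3 := pd2)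
    rfl (fun _ => rfl) k0_pm_123_s

noncomputable def cut_pm_133_s : Cut := Cut.of [[⟨4, 0, 0, 1449551462⟩]]

noncomputable def f_pm_133_s : ℕ → ℕ → ℕ → ℕ → Bool := onCell 1610612736 536870912 0 1230186008 966367641 24778659
    (rowNE 3 eng mog cd0q1 cd4q3 pd3 2 false true false .dn 1 3 3 (qsf 536870912 536870912 0 1230186008 3) ndB0q1 ndB4q3 pcB3 cut_pm_133_s Ext.none)

def k0_pm_133_s : ∃ t, chk3 f_pm_133_s t 1 1 1 = true :=
  ⟨(l 6), by decide +kernel⟩

theorem c_pm_133_s : CertNE 536870912 536870912 0 1230186008 966367641 24778659 3 eng mog cd0q1 cd4q3 pd3 false true false .dn 1 3 3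
    ndB0q1 ndB4q3 pcB3 cut_pm_133_s Ext.none :=
  certNE2 (fam := false) (s1 := true) (s2 := false) (a := 1) (b := 3) (c := 3) (cn := .dn) (n1 := ndB0q1) (n2 := ndB4q3) (pc := pcB3) (cut := cut_pm_133_s) (xt := Ext.none) (P1 := 536870912) (W1 := 536870912) (P2 := 0) (W2 := 1230186008) (P3 := 966367641) (W3 := 24778659) (N0 := 3) (En := eng) (mo := mog) (C1 := cd0q1) (C2 := cd4q3) (C3 := pd3)
    rfl (fun _ => rfl) k0_pm_133_s

noncomputable def cut_pm_202_s : Cut := Cut.of [[⟨4, 0, 0, 1449551462⟩]]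

noncomputable def f_pm_202_s : ℕ → ℕ → ℕ → ℕ → Bool := onCell 0 536870912 1073741824 536870912 966367641 24778659
    (rowNE 3 eng mog cd0q2 cd4q2 pd0 0 false true false .pp 2 0 2 (qsf 0 536870912 1073741824 536870912 0) ndB0q2 ndB4q2 pcB0 cut_pm_202_s Ext.none)

def k0_pm_202_s : ∃ t, chk3 f_pm_202_s t 1 1 1 = true :=
  ⟨(a (b (l 6) (b (l 6) (l 6))) (l 6)), by decide +kernel⟩

theorem c_pm_202_s : CertNE 0 536870912 1073741824 536870912 966367641 24778659 3 eng mog cd0q2 cd4q2 pd0 false true false .pp 2 0 2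
    ndB0q2 ndB4q2 pcB0 cut_pm_202_s Ext.none :=
  certNE0 (fam := false) (s1 := true) (s2 := false) (a := 2) (b := 0) (c := 2) (cn := .pp) (n1 := ndB0q2) (n2 := ndB4q2) (pc := pcB0) (cut := cut_pm_202_s) (xt := Ext.none) (P1 := 0) (W1 := 536870912) (P2 := 1073741824) (W2 := 536870912) (P3 := 966367641) (W3 := 24778659) (N0 := 3) (En := eng) (mo := mog) (C1 := cd0q2) (C2 := cd4q2) (C3 := pd0)
    rfl k0_pm_202_s

noncomputable def cut_pm_203_s : Cut := Cut.of [[⟨4, 0, 0, 1449551462⟩]]

noncomputable def f_pm_203_s : ℕ → ℕ → ℕ → ℕ → Bool := onCell 0 536870912 0 1230186008 966367641 24778659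
    (rowNE 3 eng mog cd0q2 cd4q3 pd0 0 false true false .up 2 0 3 (qsf 0 536870912 0 1230186008 0) ndB0q2 ndB4q3 pcB0 cut_pm_203_s Ext.none)

def k0_pm_203_s : ∃ t, chk3 f_pm_203_s t 1 1 1 = true :=
  ⟨(b (l 2) (b (l 2) (a (b (b (l 2) (a (b (l 2) (a (l 16601864) (l 16493360))) (b (l 2) (l 6)))) (a (b (a (b (l 16551800) (b (l 16512168) (l 16481928))) (b (l 16331888) (l 6))) (a (b (b (l 16455832) (l 16433600)) (l 16398888)) (l 6))) (l 6))) (l 6)))), by decide +kernel⟩

theorem c_pm_203_s : CertNE 0 536870912 0 1230186008 966367641 24778659 3 eng mog cd0q2 cd4q3 pd0 false true false .up 2 0 3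
    ndB0q2 ndB4q3 pcB0 cut_pm_203_s Ext.none :=
  certNE0 (fam := false) (s1 := true) (s2 := false) (a := 2) (b := 0) (c := 3) (cn := .up) (n1 := ndB0q2) (n2 := ndB4q3) (pc := pcB0) (cut := cut_pm_203_s) (xt := Ext.none) (P1 := 0) (W1 := 536870912) (P2 := 0) (W2 := 1230186008) (P3 := 966367641) (W3 := 24778659) (N0 := 3) (En := eng) (mo := mog) (C1 := cd0q2) (C2 := cd4q3) (C3 := pd0)
    rfl k0_pm_203_s

noncomputable def cut_pm_213_s : Cut := Cut.of [[⟨4, 0, 0, 1449551462⟩], [⟨0, 1, 0, 47710208⟩, ⟨1, 1, 0, 47710208⟩, ⟨2, 2, 0, 8388608⟩]]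

noncomputable def f_pm_213_s : ℕ → ℕ → ℕ → ℕ → Bool := onCell 0 536870912 0 1230186008 966367641 24778659
    (rowNE 3 eng mog cd0q2 cd4q3 pd1 0 false true false .pnn 2 1 3 (qsf 0 536870912 0 1230186008 1) ndB0q2 ndB4q3 pcB1 cut_pm_213_s Ext.none)

def k0_pm_213_s : ∃ t, chk3 f_pm_213_s t 2 2 1 = true :=
  ⟨(b (l 3) (b (l 3) (a (l 3) (a (b (l 3) (a (l 3) (b (l 3) (a (l 3) (l 340543919751))))) (b (a (l 3) (b (a (l 3) (l 334101466631)) (a (b (l 3) (l 293836157303)) (b (l 275045675863) (l 16766728))))) (a (b (a (l 3) (b (l 336248954935) (l 277193124855))) (a (b (l 295446771031) (l 252497066487)) (b (l 16765912) (l 16752824)))) (b (a (b (l 255181421543) (l 16760112)) (l 16747536)) (l 16729664)))))))), by decide +kernel⟩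

def k1_pm_213_s : ∃ t, chk3 f_pm_213_s t 6 4 1 = true :=
  ⟨(b (l 3) (a (l 3) (b (l 3) (a (l 3) (b (a (l 3) (b (l 3) (a (l 3) (b (l 345375762887) (l 303499836903))))) (a (b (l 3) (a (l 335712084903) (b (l 303499835927) (l 254107701767)))) (b (a (b (l 316384735639) (l 263234505783)) (b (l 232632868519) (l 16773264))) (a (l 16772584) (l 16769816))))))))), by decide +kernel⟩

def k2_pm_213_s : ∃ t, chk3 f_pm_213_s t 7 4 1 = true :=
  ⟨(a (b (a (l 3) (b (l 3) (b (l 3) (a (l 3) (b (a (l 3) (b (l 3) (a (l 3) (l 338933314519)))) (a (b (l 3) (a (l 3) (l 324974672183))) (b (a (l 331417122439) (l 257865799559)) (a (l 253033967015) (l 16777512))))))))) (a (b (b (l 3) (a (b (l 3) (a (l 3) (l 349133857943))) (b (a (l 356650048887) (b (l 323900928775) (a (l 311016029687) (l 16776472)))) (a (b (l 313700372743) (l 251423350583)) (b (l 16775768) (l 16774656)))))) (b (a (b (a (l 322290293271) (b (l 264308239687) (l 16775480))) (a (b (l 256792057815) (l 16774480)) (l 16773032))) (b (a (l 16774240) (l 16772936))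 (l 16770760))) (a (b (l 16770448) (l 16766592)) (l 16766456)))) (b (b (a (b (a (l 3) (b (l 3) (a (l 338933313783) (l 262160776807)))) (a (b (l 335175216215) (a (l 324974671719) (l 254644578631))) (b (a (l 255181448231) (l 16776728)) (l 16776296)))) (b (a (b (a (l 319069092823) (l 16777160)) (a (l 16776960) (l 16777016))) (l 16777560)) (a (l 16776584) (l 16777744)))) (a (b (a (c (l 249275868279) (l 242833417463)) (l 16775448)) (l 16773912)) (b (l 16776600) (l 16776040)))) (b (a (l 16771416) (l 16775008)) (l 16769072))))) (b (b (l 14) (a (b (l 14) (a (b (l 14) (a (b (l 14) (l 16778240)) (l 14))) (l 14))) (l 14))) (b (a (b (a (b (l 16778840) (l 16780256)) (l 16776008)) (a (l 16782656) (l 16778752))) (a (l 16770560) (l 16762408))) (a (a (l 16783624) (l 16788040)) (l 16754200))))), by decide +kernel⟩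

def k3_pm_213_s : ∃ t, chk3 f_pm_213_s t 3 5 1 = true :=
  ⟨(a (b (a (b (a (l 3) (b (l 3) (a (l 3) (b (l 3) (l 326585276791))))) (a (b (l 3) (a (l 3) (b (l 324437793239) (l 270750688311)))) (b (a (b (l 3) (l 307257908295)) (b (a (l 304036704711) (l 260550144887)) (a (l 16771352) (l 16763552)))) (a (b (a (l 288467428455) (l 16768800)) (l 16761760)) (l 16750664))))) (b (a (b (a (l 3) (b (a (l 3) (l 324437776983)) (a (b (l 328195893799) (l 286319949751)) (b (l 262160762231) (l 16771344))))) (a (b (a (l 334101470807) (l 287393709383)) (a (l 274508786327) (l 16768872))) (b (a (l 227264152983) (l 16764824)) (l 16758512)))) (b (a (b (a (b (l 273971909863) (l 16773440)) (l 16770224)) (a (l 16767640) (l 16762688))) (b (l 16764784) (l 16757392))) (a (l 16751616) (l 16743744)))) (a (b (a (b (l 16762528) (l 16751816)) (l 16742600)) (a (l 16734032) (l 16718008))) (b (l 16724608) (l 16697192))))) (a (b (a (b (a (b (l 299741736663) (l 254644551415)) (b (l 228874755799) (l 16755360))) (a (b (l 16761016) (l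 16748240)) (l 16735792))) (b (a (l 16743560) (l 16725384)) (l 16706280))) (a (b (l 16717424) (l 16687016)) (l 16637224))) (b (a (b (l 16698008) (l 16666232)) (l 16646624)) (a (l 16611928) (l 16565152))))) (b (a (b (a (b (l 16770144) (l 16745200)) (b (l 16764792) (l 16759224))) (a (l 16701592) (l 16738432))) (b (a (l 16767248) (l 16795672)) (a (l 16778024) (l 16822352)))) (a (b (a (l 16621064) (l 16622992)) (a (l 16521592) (l 6))) (b (l 6) (l 6))))), by decide +kernel⟩

def k4_pm_213_s : ∃ t, chk3 f_pm_213_s t 1 3 1 = true :=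
  ⟨(b (a (b (a (b (l 3) (a (l 3) (a (l 3) (b (l 340007048727) (b (l 280414379319) (l 243370236455)))))) (a (b (a (b (l 3) (b (l 342691404119) (l 290614907415))) (b (a (l 327122110551) (b (l 275582509575) (l 16764464))) (b (a (l 16748720) (l 16750824)) (l 16746512)))) (a (b (b (l 258939489911) (l 202568063223)) (l 16735640)) (b (l 16724232) (l 16692120)))) (b (b (a (b (l 16748840) (l 16734712)) (l 16699704)) (a (l 16712256) (l 16667056))) (b (l 16592808) (l 16619096))))) (a (b (a (b (l 3) (c (l 333564580135) (l 334101457367))) (b (a (b (l 305110440823) (l 272898128183)) (b (l 16754088) (l 16738736))) (a (b (l 227800980695) (l 16749184)) (l 16713992)))) (a (b (a (l 330880233527) (b (l 261086968471) (l 207399889463))) (a (b (l 284709342823) (l 243370227303)) (l 16754480))) (b (a (l 16723952) (l 16677752)) (l 16682800)))) (b (a (b (l 16743072) (l 16643192)) (b (l 16579424) (l 16536312))) (a (b (l 16602352) (l 16556928)) (l 16463800))))) (a (b (a (b (a (l 16635984) (l 16584728)) (l 16424368)) (b (a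 (l 16529808) (l 16471720)) (l 16402736))) (b (a (l 16438040) (l 6)) (l 6))) (b (l 6) (l 6)))) (a (a (b (b (a (b (a (b (l 16751880) (l 16733240)) (l 16694736)) (a (l 16702184) (l 16650120))) (b (l 16617768) (l 16567288))) (b (a (l 16752024) (l 16508496)) (a (l 16482960) (l 16439136)))) (l 1)) (b (a (b (b (l 16505904) (l 16447784)) (b (l 16383888) (l 6))) (l 6)) (l 6))) (l 6))), by decide +kernel⟩

theorem s5_pm_213_s : ∃ t, chk3 f_pm_213_s t 3 4 1 = true := ex3_a k1_pm_213_s k2_pm_213_s

theorem s6_pm_213_s : ∃ t, chk3 f_pm_213_s t 3 2 1 = true := ex3_b s5_pm_213_s k3_pm_213_s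

theorem s7_pm_213_s : ∃ t, chk3 f_pm_213_s t 1 2 1 = true := ex3_a k0_pm_213_s s6_pm_213_s

theorem s8_pm_213_s : ∃ t, chk3 f_pm_213_s t 1 1 1 = true := ex3_b s7_pm_213_s k4_pm_213_s

theorem c_pm_213_s : CertNE 0 536870912 0 1230186008 966367641 24778659 3 eng mog cd0q2 cd4q3 pd1 false true false .pnn 2 1 3
    ndB0q2 ndB4q3 pcB1 cut_pm_213_s Ext.none :=
  certNE0 (fam := false) (s1 := true) (s2 := false) (a := 2) (b := 1) (c := 3) (cn := .pnn) (n1 := ndB0q2) (n2 := ndB4q3) (pc := pcB1) (cut := cut_pm_213_s) (xt := Ext.none) (P1 := 0) (W1 := 536870912) (P2 := 0) (W2 := 1230186008) (P3 := 966367641) (W3 := 24778659) (N0 := 3) (En := eng) (mo := mog) (C1 := cd0q2) (C2 := cd4q3) (C3 := pd1)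
    rfl s8_pm_213_s

noncomputable def cut_mm_001_s : Cut := Cut.of [[⟨4, 0, 0, 1449551462⟩]]

noncomputable def f_mm_001_s : ℕ → ℕ → ℕ → ℕ → Bool := onCell 0 536870912 0 536870912 966367641 24778659
    (rowNE 3 eng mog cd0q0 cd4q1 pd0 1 false false false .up 0 0 1 (qsf 0 536870912 536870912 536870912 0) ndB0q0 ndB4q1 pcB0 cut_mm_001_s Ext.none)

def k0_mm_001_s : ∃ t, chk3 f_mm_001_s t 1 1 1 = true :=
  ⟨(l 3), by decide +kernel⟩

theorem c_mm_001_s : CertNE 0 536870912 536870912 536870912 966367641 24778659 3 eng mog cd0q0 cd4q1 pd0 false false false .up 0 0 1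
    ndB0q0 ndB4q1 pcB0 cut_mm_001_s Ext.none :=
  certNE1 (fam := false) (s1 := false) (s2 := false) (a := 0) (b := 0) (c := 1) (cn := .up) (n1 := ndB0q0) (n2 := ndB4q1) (pc := pcB0) (cut := cut_mm_001_s) (xt := Ext.none) (P1 := 0) (W1 := 536870912) (P2 := 536870912) (W2 := 536870912) (P3 := 966367641) (W3 := 24778659) (N0 := 3) (En := eng) (mo := mog) (C1 := cd0q0) (C2 := cd4q1) (C3 := pd0)
    rfl (fun _ => rfl) k0_mm_001_s

noncomputable def cut_mm_011_s : Cut := Cut.of [[⟨4, 0, 0, 1449551462⟩]]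

noncomputable def f_mm_011_s : ℕ → ℕ → ℕ → ℕ → Bool := onCell 0 536870912 536870912 536870912 966367641 24778659
    (rowNE 3 eng mog cd0q0 cd4q1 pd1 1 false false false .pnn 0 1 1 (qsf 0 536870912 536870912 536870912 1) ndB0q0 ndB4q1 pcB1 cut_mm_011_s Ext.none)

def k0_mm_011_s : ∃ t, chk3 f_mm_011_s t 1 1 1 = true :=
  ⟨(l 5), by decide +kernel⟩

theorem c_mm_011_s : CertNE 0 536870912 536870912 536870912 966367641 24778659 3 eng mog cd0q0 cd4q1 pd1 false false false .pnn 0 1 1
    ndB0q0 ndB4q1 pcB1 cut_mm_011_s Ext.none :=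
  certNE1 (fam := false) (s1 := false) (s2 := false) (a := 0) (b := 1) (c := 1) (cn := .pnn) (n1 := ndB0q0) (n2 := ndB4q1) (pc := pcB1) (cut := cut_mm_011_s) (xt := Ext.none) (P1 := 0) (W1 := 536870912) (P2 := 536870912) (W2 := 536870912) (P3 := 966367641) (W3 := 24778659) (N0 := 3) (En := eng) (mo := mog) (C1 := cd0q0) (C2 := cd4q1) (C3 := pd1)
    rfl (fun _ => rfl) k0_mm_011_s

noncomputable def cut_mm_012_s : Cut := Cut.of [[⟨4, 0, 0, 1449551462⟩]]

noncomputable def f_mm_012_s : ℕ → ℕ → ℕ → ℕ → Bool := onCell 0 536870912 1073741824 536870912 966367641 24778659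
    (rowNE 3 eng mog cd0q0 cd4q2 pd1 0 false false false .pnp 0 1 2 (qsf 0 536870912 1073741824 536870912 1) ndB0q0 ndB4q2 pcB1 cut_mm_012_s Ext.none)

def k0_mm_012_s : ∃ t, chk3 f_mm_012_s t 1 1 1 = true :=
  ⟨(l 5), by decide +kernel⟩

theorem c_mm_012_s : CertNE 0 536870912 1073741824 536870912 966367641 24778659 3 eng mog cd0q0 cd4q2 pd1 false false false .pnp 0 1 2
    ndB0q0 ndB4q2 pcB1 cut_mm_012_s Ext.none :=
  certNE0 (fam := false) (s1 := false) (s2 := false) (a := 0) (b := 1) (c := 2) (cn := .pnp) (n1 := ndB0q0) (n2 := ndB4q2) (pc := pcB1) (cut := cut_mm_012_s) (xt := Ext.none) (P1 := 0) (W1 := 536870912) (P2 := 1073741824) (W2 := 536870912) (P3 := 966367641) (W3 := 24778659) (N0 := 3) (En := eng) (mo := mog) (C1 := cd0q0) (C2 := cd4q2) (C3 := pd1)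
    rfl k0_mm_012_s

noncomputable def cut_mm_022_s : Cut := Cut.of [[⟨4, 0, 0, 1449551462⟩]]

noncomputable def f_mm_022_s : ℕ → ℕ → ℕ → ℕ → Bool := onCell 0 536870912 1073741824 536870912 966367641 24778659
    (rowNE 3 eng mog cd0q0 cd4q2 pd2 0 false false false .pp 0 2 2 (qsf 0 536870912 1073741824 536870912 2) ndB0q0 ndB4q2 pcB2 cut_mm_022_s Ext.none)

def k0_mm_022_s : ∃ t, chk3 f_mm_022_s t 1 1 1 = true :=
  ⟨(l 5), by decide +kernel⟩

theorem c_mm_022_s : CertNE 0 536870912 1073741824 536870912 966367641 24778659 3 eng mog cd0q0 cd4q2 pd2 false false false .pp 0 2 2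
    ndB0q0 ndB4q2 pcB2 cut_mm_022_s Ext.none :=
  certNE0 (fam := false) (s1 := false) (s2 := false) (a := 0) (b := 2) (c := 2) (cn := .pp) (n1 := ndB0q0) (n2 := ndB4q2) (pc := pcB2) (cut := cut_mm_022_s) (xt := Ext.none) (P1 := 0) (W1 := 536870912) (P2 := 1073741824) (W2 := 536870912) (P3 := 966367641) (W3 := 24778659) (N0 := 3) (En := eng) (mo := mog) (C1 := cd0q0) (C2 := cd4q2) (C3 := pd2)
    rfl k0_mm_022_s

noncomputable def cut_mm_023_s : Cut := Cut.of [[⟨4, 0, 0, 1449551462⟩]]

noncomputable def f_mm_023_s : ℕ → ℕ → ℕ → ℕ → Bool := onCell 0 536870912 0 1230186008 966367641 24778659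
    (rowNE 3 eng mog cd0q0 cd4q3 pd2 0 false false false .up 0 2 3 (qsf 0 536870912 0 1230186008 2) ndB0q0 ndB4q3 pcB2 cut_mm_023_s Ext.none)

def k0_mm_023_s : ∃ t, chk3 f_mm_023_s t 1 1 1 = true :=
  ⟨(l 5), by decide +kernel⟩

theorem c_mm_023_s : CertNE 0 536870912 0 1230186008 966367641 24778659 3 eng mog cd0q0 cd4q3 pd2 false false false .up 0 2 3
    ndB0q0 ndB4q3 pcB2 cut_mm_023_s Ext.none :=
  certNE0 (fam := false) (s1 := false) (s2 := false) (a := 0) (b := 2) (c := 3) (cn := .up) (n1 := ndB0q0) (n2 := ndB4q3) (pc := pcB2) (cut := cut_mm_023_s) (xt := Ext.none) (P1 := 0) (W1 := 536870912) (P2 := 0) (W2 := 1230186008) (P3 := 966367641) (W3 := 24778659) (N0 := 3) (En := eng) (mo := mog) (C1 := cd0q0) (C2 := cd4q3) (C3 := pd2)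
    rfl k0_mm_023_s

noncomputable def cut_mm_033_s : Cut := Cut.of [[⟨4, 0, 0, 1449551462⟩]]

noncomputable def f_mm_033_s : ℕ → ℕ → ℕ → ℕ → Bool := onCell 0 536870912 0 1230186008 966367641 24778659
    (rowNE 3 eng mog cd0q0 cd4q3 pd3 0 false false false .pnn 0 3 3 (qsf 0 536870912 0 1230186008 3) ndB0q0 ndB4q3 pcB3 cut_mm_033_s Ext.none)

def k0_mm_033_s : ∃ t, chk3 f_mm_033_s t 1 1 1 = true :=
  ⟨(l 5), by decide +kernel⟩

theorem c_mm_033_s : CertNE 0 536870912 0 1230186008 966367641 24778659 3 eng mog cd0q0 cd4q3 pd3 false false false .pnn 0 3 3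
    ndB0q0 ndB4q3 pcB3 cut_mm_033_s Ext.none :=
  certNE0 (fam := false) (s1 := false) (s2 := false) (a := 0) (b := 3) (c := 3) (cn := .pnn) (n1 := ndB0q0) (n2 := ndB4q3) (pc := pcB3) (cut := cut_mm_033_s) (xt := Ext.none) (P1 := 0) (W1 := 536870912) (P2 := 0) (W2 := 1230186008) (P3 := 966367641) (W3 := 24778659) (N0 := 3) (En := eng) (mo := mog) (C1 := cd0q0) (C2 := cd4q3) (C3 := pd3)
    rfl k0_mm_033_s

noncomputable def cut_mm_101_s : Cut := Cut.of [[⟨4, 0, 0, 1449551462⟩], [⟨0, 1, 0, 67108864⟩, ⟨1, 0, 0, 67108864⟩, ⟨2, 1, 0, 67108864⟩]]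

noncomputable def f_mm_101_s : ℕ → ℕ → ℕ → ℕ → Bool := onCell 536870912 536870912 0 536870912 966367641 24778659
    (rowNE 3 eng mog cd0q1 cd4q1 pd0 1 false false false .npn 1 0 1 (qsf 536870912 536870912 536870912 536870912 0) ndB0q1 ndB4q1 pcB0 cut_mm_101_s Ext.none)

def k0_mm_101_s : ∃ t, chk3 f_mm_101_s t 1 1 1 = true :=
  ⟨(a (l 3) (b (a (l 3) (b (a (l 3) (b (b (a (l 3) (l 14)) (l 3)) (l 3))) (l 3))) (l 3))), by decide +kernel⟩

theorem c_mm_101_s : CertNE 536870912 536870912 536870912 536870912 966367641 24778659 3 eng mog cd0q1 cd4q1 pd0 false false false .npn 1 0 1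
    ndB0q1 ndB4q1 pcB0 cut_mm_101_s Ext.none :=
  certNE1 (fam := false) (s1 := false) (s2 := false) (a := 1) (b := 0) (c := 1) (cn := .npn) (n1 := ndB0q1) (n2 := ndB4q1) (pc := pcB0) (cut := cut_mm_101_s) (xt := Ext.none) (P1 := 536870912) (W1 := 536870912) (P2 := 536870912) (W2 := 536870912) (P3 := 966367641) (W3 := 24778659) (N0 := 3) (En := eng) (mo := mog) (C1 := cd0q1) (C2 := cd4q1) (C3 := pd0)
    rfl (fun _ => rfl) k0_mm_101_s

noncomputable def cut_mm_102_s : Cut := Cut.of [[⟨4, 0, 0, 1449551462⟩], [⟨0, 1, 0, 67108864⟩, ⟨1, 0, 0, 67108864⟩, ⟨2, 1, 0, 67108864⟩]]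

noncomputable def f_mm_102_s : ℕ → ℕ → ℕ → ℕ → Bool := onCell 536870912 536870912 0 536870912 966367641 24778659
    (rowNE 3 eng mog cd0q1 cd4q2 pd0 1 false false false .npp 1 0 2 (qsf 536870912 536870912 1073741824 536870912 0) ndB0q1 ndB4q2 pcB0 cut_mm_102_s Ext.none)

def k0_mm_102_s : ∃ t, chk3 f_mm_102_s t 1 1 1 = true :=
  ⟨(a (l 3) (b (a (l 3) (b (a (l 3) (b (b (a (l 3) (l 14)) (l 3)) (l 3))) (l 3))) (l 3))), by decide +kernel⟩

theorem c_mm_102_s : CertNE 536870912 536870912 1073741824 536870912 966367641 24778659 3 eng mog cd0q1 cd4q2 pd0 false false false .npp 1 0 2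
    ndB0q1 ndB4q2 pcB0 cut_mm_102_s Ext.none :=
  certNE1 (fam := false) (s1 := false) (s2 := false) (a := 1) (b := 0) (c := 2) (cn := .npp) (n1 := ndB0q1) (n2 := ndB4q2) (pc := pcB0) (cut := cut_mm_102_s) (xt := Ext.none) (P1 := 536870912) (W1 := 536870912) (P2 := 1073741824) (W2 := 536870912) (P3 := 966367641) (W3 := 24778659) (N0 := 3) (En := eng) (mo := mog) (C1 := cd0q1) (C2 := cd4q2) (C3 := pd0)
    rfl (fun _ => rfl) k0_mm_102_s

noncomputable def cut_mm_112_s : Cut := Cut.of [[⟨4, 0, 0, 1449551462⟩]]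

noncomputable def f_mm_112_s : ℕ → ℕ → ℕ → ℕ → Bool := onCell 536870912 536870912 1073741824 536870912 966367641 24778659
    (rowNE 3 eng mog cd0q1 cd4q2 pd1 2 false false false .dn 1 1 2 (qsf 536870912 536870912 1073741824 536870912 1) ndB0q1 ndB4q2 pcB1 cut_mm_112_s Ext.none)

def k0_mm_112_s : ∃ t, chk3 f_mm_112_s t 1 1 1 = true :=
  ⟨(a (l 3) (l 5)), by decide +kernel⟩

theorem c_mm_112_s : CertNE 536870912 536870912 1073741824 536870912 966367641 24778659 3 eng mog cd0q1 cd4q2 pd1 false false false .dn 1 1 2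
    ndB0q1 ndB4q2 pcB1 cut_mm_112_s Ext.none :=
  certNE2 (fam := false) (s1 := false) (s2 := false) (a := 1) (b := 1) (c := 2) (cn := .dn) (n1 := ndB0q1) (n2 := ndB4q2) (pc := pcB1) (cut := cut_mm_112_s) (xt := Ext.none) (P1 := 536870912) (W1 := 536870912) (P2 := 1073741824) (W2 := 536870912) (P3 := 966367641) (W3 := 24778659) (N0 := 3) (En := eng) (mo := mog) (C1 := cd0q1) (C2 := cd4q2) (C3 := pd1)
    rfl (fun _ => rfl) k0_mm_112_s

noncomputable def cut_mm_113_s : Cut := Cut.of [[⟨4, 0, 0, 1449551462⟩]]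

noncomputable def f_mm_113_s : ℕ → ℕ → ℕ → ℕ → Bool := onCell 536870912 536870912 0 1230186008 966367641 24778659
    (rowNE 3 eng mog cd0q1 cd4q3 pd1 0 false false false .nn 1 1 3 (qsf 536870912 536870912 0 1230186008 1) ndB0q1 ndB4q3 pcB1 cut_mm_113_s Ext.none)

def k0_mm_113_s : ∃ t, chk3 f_mm_113_s t 1 1 1 = true :=
  ⟨(a (l 5) (b (l 5) (a (b (l 5) (l 3)) (l 3)))), by decide +kernel⟩

theorem c_mm_113_s : CertNE 536870912 536870912 0 1230186008 966367641 24778659 3 eng mog cd0q1 cd4q3 pd1 false false false .nn 1 1 3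
    ndB0q1 ndB4q3 pcB1 cut_mm_113_s Ext.none :=
  certNE0 (fam := false) (s1 := false) (s2 := false) (a := 1) (b := 1) (c := 3) (cn := .nn) (n1 := ndB0q1) (n2 := ndB4q3) (pc := pcB1) (cut := cut_mm_113_s) (xt := Ext.none) (P1 := 536870912) (W1 := 536870912) (P2 := 0) (W2 := 1230186008) (P3 := 966367641) (W3 := 24778659) (N0 := 3) (En := eng) (mo := mog) (C1 := cd0q1) (C2 := cd4q3) (C3 := pd1)
    rfl k0_mm_113_s

noncomputable def cut_mm_123_s : Cut := Cut.of [[⟨4, 0, 0, 1449551462⟩]]

noncomputable def f_mm_123_s : ℕ → ℕ → ℕ → ℕ → Bool := onCell 1073741824 536870912 0 1230186008 966367641 24778659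
    (rowNE 3 eng mog cd0q1 cd4q3 pd2 2 false false false .npn 1 2 3 (qsf 536870912 536870912 0 1230186008 2) ndB0q1 ndB4q3 pcB2 cut_mm_123_s Ext.none)

def k0_mm_123_s : ∃ t, chk3 f_mm_123_s t 1 1 1 = true :=
  ⟨(b (l 5) (l 5)), by decide +kernel⟩

theorem c_mm_123_s : CertNE 536870912 536870912 0 1230186008 966367641 24778659 3 eng mog cd0q1 cd4q3 pd2 false false false .npn 1 2 3
    ndB0q1 ndB4q3 pcB2 cut_mm_123_s Ext.none :=
  certNE2 (fam := false) (s1 := false) (s2 := false) (a := 1) (b := 2) (c := 3) (cn := .npn) (n1 := ndB0q1) (n2 := ndB4q3) (pc := pcB2) (cut := cut_mm_123_s) (xt := Ext.none) (P1 := 536870912) (W1 := 536870912) (P2 := 0) (W2 := 1230186008) (P3 := 966367641) (W3 := 24778659) (N0 := 3) (En := eng) (mo := mog) (C1 := cd0q1) (C2 := cd4q3) (C3 := pd2)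
    rfl (fun _ => rfl) k0_mm_123_s

noncomputable def cut_mm_133_s : Cut := Cut.of [[⟨4, 0, 0, 1449551462⟩]]

noncomputable def f_mm_133_s : ℕ → ℕ → ℕ → ℕ → Bool := onCell 1610612736 536870912 0 1230186008 966367641 24778659
    (rowNE 3 eng mog cd0q1 cd4q3 pd3 2 false false false .dn 1 3 3 (qsf 536870912 536870912 0 1230186008 3) ndB0q1 ndB4q3 pcB3 cut_mm_133_s Ext.none)

def k0_mm_133_s : ∃ t, chk3 f_mm_133_s t 1 1 1 = true :=
  ⟨(l 5), by decide +kernel⟩

theorem c_mm_133_s : CertNE 536870912 536870912 0 1230186008 966367641 24778659 3 eng mog cd0q1 cd4q3 pd3 false false false .dn 1 3 3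
    ndB0q1 ndB4q3 pcB3 cut_mm_133_s Ext.none :=
  certNE2 (fam := false) (s1 := false) (s2 := false) (a := 1) (b := 3) (c := 3) (cn := .dn) (n1 := ndB0q1) (n2 := ndB4q3) (pc := pcB3) (cut := cut_mm_133_s) (xt := Ext.none) (P1 := 536870912) (W1 := 536870912) (P2 := 0) (W2 := 1230186008) (P3 := 966367641) (W3 := 24778659) (N0 := 3) (En := eng) (mo := mog) (C1 := cd0q1) (C2 := cd4q3) (C3 := pd3)
    rfl (fun _ => rfl) k0_mm_133_s

noncomputable def cut_mm_202_s : Cut := Cut.of [[⟨4, 0, 0, 1449551462⟩], [⟨0, 1, 0, 53687091⟩, ⟨1, 0, 0, 53687091⟩, ⟨2, 1, 0, 53687091⟩]]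

noncomputable def f_mm_202_s : ℕ → ℕ → ℕ → ℕ → Bool := onCell 0 536870912 0 536870912 966367641 24778659
    (rowNE 3 eng mog cd0q2 cd4q2 pd0 1 false false false .pp 2 0 2 (qsf 0 536870912 1073741824 536870912 0) ndB0q2 ndB4q2 pcB0 cut_mm_202_s Ext.none)

def k0_mm_202_s : ∃ t, chk3 f_mm_202_s t 2 2 1 = true :=
  ⟨(a (a (l 6) (b (l 6) (b (l 6) (b (l 16407800) (l 16433488))))) (b (a (a (l 6) (b (l 6) (l 6))) (b (b (l 6) (b (l 16312440) (b (l 16327144) (b (l 16335480) (l 16349776))))) (b (b (a (l 6) (l 16413048)) (a (l 16413408) (l 16467984))) (b (l 16486024) (l 16519640))))) (b (a (b (l 16324440) (l 16369296)) (b (b (l 16536920) (l 16549832)) (a (b (l 16537736) (l 16549968)) (b (l 16587712) (l 16553000))))) (b (a (b (l 16490976) (l 16422384)) (a (b (l 16561288) (l 16570176)) (b (l 16606208) (l 16618912)))) (a (a (l 16378456) (b (l 16538736) (l 16553864))) (a (b (l 16585928) (l 16602424)) (b (l 16634648) (c (l 16665104) (l 16640096))))))))), by decide +kernel⟩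

def k1_mm_202_s : ∃ t, chk3 f_mm_202_s t 2 3 1 = true :=
  ⟨(b (b (b (a (a (l 6) (a (l 16442248) (l 16405944))) (b (a (a (l 16522752) (l 16572080)) (a (l 16600344) (c (l 16662056) (l 16641896)))) (a (l 16420368) (a (l 16600240) (c (l 16702616) (l 16624328)))))) (a (a (l 16410248) (a (l 16480672) (l 16420464))) (a (a (l 16491744) (b (l 16613712) (l 16637008))) (a (c (b (l 16674744) (l 16675080)) (b (l 16654096) (l 16659352))) (b (c (l 16744456) (a (l 16697832) (l 16728008))) (b (c (l 16739816) (l 16732560)) (a (l 16734624) (c (l 16763512) (l 16760888))))))))) (a (b (a (a (l 16426840) (l 16473656)) (c (l 16500472) (l 16466784))) (b (a (l 16479272) (l 16541376)) (l 2))) (a (b (a (b (l 16610776) (l 16634400)) (b (l 16618952) (l 16705728))) (a (b (l 16658240) (l 16640192)) (b (c (l 16714072) (l 16703104)) (c (l 16735960) (l 16728984))))) (b (a (a (b (l 16678584) (l 16723624)) (b (l 16746840) (b (l 16744144) (l 16756248)))) (b (a (c (l 16754952) (l 134922328007)) (b (c (l 278266834199) (l 268066282343))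 (c (l 338933292199) (l 284709249671)))) (a (b (a (l 16764488) (l 269140038583)) (a (l 268066302567) (l 3))) (l 3)))) (a (c (b (a (l 16750000) (b (l 16768400) (l 280414314167))) (a (l 229948445719) (l 360408110343))) (b (a (l 16745240) (b (l 16766768) (l 279877439047))) (a (b (l 16764240) (l 277193099639)) (l 362018720167)))) (b (c (l 378661679623) (l 381346027687)) (l 3))))))) (a (l 2) (a (l 2) (a (l 2) (l 3))))), by decide +kernel⟩

def k2_mm_202_s : ∃ t, chk3 f_mm_202_s t 6 4 1 = true :=
  ⟨(a (b (b (a (l 16349104) (l 16402312)) (b (a (l 16393024) (l 16365016)) (b (a (l 16409888) (l 16463200)) (a (l 16423424) (l 16485264))))) (b (b (a (l 16471144) (l 16529696)) (l 16570136)) (b (a (l 16561424) (l 16611768)) (a (l 16589888) (l 16637824))))) (b (b (b (a (l 16437336) (b (l 16485152) (l 16464080))) (a (b (l 16469384) (l 16480720)) (b (l 16494288) (l 16535472)))) (b (a (l 16458456) (l 16520496)) (b (a (l 16526600) (l 16592424)) (a (l 16548648) (l 16616168))))) (b (a (b (l 16589904) (l 16632152))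 (a (b (l 16637472) (l 16675232)) (b (l 16670704) (l 16741128)))) (a (b (a (l 16649680) (l 16673528)) (a (b (l 16666000) (l 16670216)) (l 16684656))) (a (b (l 16692912) (l 16700936)) (b (l 16708184) (b (l 16716056) (l 16722312)))))))), by decide +kernel⟩

def k3_mm_202_s : ∃ t, chk3 f_mm_202_s t 6 10 1 = true :=
  ⟨(a (b (a (b (l 16607272) (l 16621248)) (b (a (l 16641984) (l 16659280)) (a (l 16651360) (l 16669416)))) (a (b (a (l 16619440) (l 16640840)) (l 16640168)) (b (c (l 16682928) (l 16636912)) (c (l 16694024) (l 16630672))))) (b (c (a (b (l 16694560) (l 16705472)) (a (b (l 16718232) (l 16731960)) (b (l 16767952) (b (l 16748120) (a (l 16751120) (l 16762024)))))) (b (a (l 16676304) (a (l 16707112) (b (l 16704584) (l 16733768)))) (a (l 16688712) (a (l 16722856) (a (l 16762232) (c (l 16775952) (l 16774112))))))) (b (a (a (l 16701248) (c (l 16727808) (l 16716552))) (a (b (c (l 16743672) (l 16736784)) (c (l 16752080) (l 16767888))) (c (a (b (l 16759776) (b (l 16766624) (a (l 16768416) (l 272898165527))))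 (b (a (l 16768296) (b (l 16771784) (l 314237216295))) (b (a (l 268603187559) (l 447918087175)) (l 443623129959)))) (a (b (l 16756432) (c (l 16762440) (l 202031199255))) (b (c (l 275582491399) (b (l 16766928) (l 279877463175))) (b (a (l 270750670551) (l 450602439319)) (l 446307481111))))))) (b (a (a (l 16712848) (a (l 16729648) (l 16741176))) (a (b (c (l 16758744) (l 16754952)) (a (l 16755680) (c (l 16769136) (l 16767528)))) (a (b (a (c (l 16773168) (l 16772376)) (c (l 397452235127) (l 286319900039))) (a (c (l 281488072567) (l 283635555383)) (l 3))) (l 3)))) (a (a (l 16721240) (c (l 16747952) (l 16741376))) (a (c (a (l 16764600) (a (b (l 16771008) (l 268066317511)) (b (l 279877469063) (l 435570055911)))) (a (l 16772472) (b (c (l 277729982503) (l 278266851927)) (a (l 278803735095) (l 439865020951))))) (l 3))))))), by decide +kernel⟩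

def k4_mm_202_s : ∃ t, chk3 f_mm_202_s t 12 11 1 = true :=
  ⟨(c (b (a (b (l 16665976) (l 16657680)) (b (l 16727920) (a (l 16690392) (l 16733768)))) (a (b (l 16694336) (l 16733112)) (b (a (l 16728856) (b (l 16747720) (l 16757560))) (a (b (l 16743280) (l 16753360)) (a (b (l 16761608) (l 247128341895)) (b (b (l 16771328) (l 273971886535)) (l 385104187351))))))) (b (a (b (l 16637976) (l 16634408)) (a (b (l 16676928) (l 16696360)) (b (l 16682328) (a (l 16717152) (l 16731192))))) (a (b (l 16633744) (a (l 16683664) (l 16691816))) (b (a (l 16718360) (b (l 16741400) (l 16763936))) (a (b (l 16715176) (l 16748456)) (a (b (l 16758400) (l 247665206903)) (b (c (l 259476369751) (l 257328885479)) (l 386714797511)))))))), by decide +kernel⟩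

def k5_mm_202_s : ∃ t, chk3 f_mm_202_s t 13 11 1 = true :=
  ⟨(b (a (a (b (c (b (l 16735040) (l 16743376)) (b (l 16704112) (l 16735664))) (b (c (l 16752328) (l 16767824)) (c (c (l 175724532647) (l 16761040)) (c (l 16759392) (l 16762920))))) (a (c (b (b (l 16751296) (l 16760432)) (b (b (l 16767600) (l 254644557367)) (a (b (l 16774392) (l 271287530679)) (l 406579025175)))) (c (b (l 16752208) (b (l 16763456) (l 340007043351))) (b (l 16749712) (b (l 218674195319) (l 338933269111))))) (b (b (c (l 16762504) (l 16759344)) (c (b (l 16769696) (a (l 16771648) (l 278266857591))) (c (l 275045625687) (l 274508752935)))) (b (c (a (b (l 276656252119) (l 411410869655)) (l 424832625111)) (c (l 380272351463) (l 403357799399))) (l 3))))) (b (a (b (a (c (b (l 248738978663) (a (l 16773680) (l 390472911399))) (c (l 277193089511) (b (l 16770240) (l 278803709271)))) (b (c (l 430201336839) (l 434496300999)) (l 3))) (a (b (c (l 409263383527) (l 413558353863)) (l 3)) (l 3))) (l 3)) (l 3))) (a (a (b (c (a (b (l 16765792)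 (a (l 234243461527) (l 271824388487))) (b (a (l 264845083511) (l 365239974519)) (l 414632069143))) (a (b (l 16763400) (b (l 261086994071) (l 272361260615))) (b (b (l 273435013751) (l 295983567655)) (l 419463903239)))) (a (b (c (l 399062822407) (l 402284044615)) (l 3)) (l 3))) (l 3)) (l 3))), by decide +kernel⟩

def k6_mm_202_s : ∃ t, chk3 f_mm_202_s t 14 8 1 = true :=
  ⟨(b (b (a (b (a (l 16533600) (l 16559880)) (l 16559152)) (b (a (l 16588544) (l 16618856)) (a (l 16603840) (l 16637064)))) (a (b (l 16576264) (l 16555560)) (b (a (l 16624752) (l 16639776)) (a (l 16649776) (l 16688376))))) (b (a (a (l 16591432) (l 16648272)) (a (b (l 16673968) (l 16699704)) (a (b (l 16703856) (l 16718936)) (b (l 16703592) (l 16726824))))) (a (b (l 16665440) (a (l 16671608) (l 16746528))) (a (b (a (l 16709672) (l 16715328)) (a (l 16712344) (l 16723272))) (b (a (l 16724304) (l 16736400)) (a (l 16735184) (l 16746672))))))), by decide +kernel⟩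

def k7_mm_202_s : ∃ t, chk3 f_mm_202_s t 14 18 1 = true :=
  ⟨(a (a (b (l 16742840) (l 16716136)) (b (a (l 16706856) (l 16717176)) (b (l 16728968) (l 16736144)))) (b (a (b (l 16728480) (l 16759856)) (a (b (l 16745224) (l 16765112)) (b (c (l 16756248) (l 16755952)) (b (l 16773216) (c (l 16766560) (l 16766296)))))) (b (c (a (l 16748080) (a (l 16762448) (a (c (l 16775168) (l 16769768)) (b (c (l 16773016) (l 16772928)) (a (b (l 16774696) (b (l 16776200) (l 197736271783))) (b (a (l 113447537975) (l 479056621783)) (l 552071057959))))))) (a (l 16748008) (a (l 16772424) (b (c (l 16770216) (l 16770080)) (a (l 16771552) (a (c (l 100025767191) (l 100025767239)) (c (l 462950489767) (l 461339875335)))))))) (a (a (l 16750192) (c (l 16760240) (l 16759376))) (a (b (c (l 16768160) (l 16778144)) (b (c (l 16778984) (l 18958258455)) (a (l 16770328) (b (c (l 82845896631) (l 16775056)) (a (l 16774872) (c (l 228337914503) (l 222969205575))))))) (a (b (a (b (l 16773440) (c (l 16775576) (l 16775456))) (b (c (l 101636378567)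 (l 99488895159)) (c (l 471003555783) (l 467245456711)))) (a (b (c (l 385641084135) (c (l 221895464599) (l 220284851943))) (l 3)) (l 3))) (a (b (c (l 529522486391) (l 528448737415)) (l 3)) (l 3)))))))), by decide +kernel⟩

def k8_mm_202_s : ∃ t, chk3 f_mm_202_s t 28 19 1 = true :=
  ⟨(b (a (b (l 16723112) (l 16728752)) (b (a (l 16736968) (l 16746792)) (c (l 16750056) (l 16747152)))) (a (c (a (l 16736592) (l 16746264)) (b (l 16732760) (l 16740408))) (b (c (c (l 16776592) (l 16778048)) (a (l 16749472) (l 16776880))) (a (c (l 16760488) (l 16758160)) (a (c (c (l 16768872) (l 16768312)) (b (l 16765032) (l 16769872))) (b (c (l 16771952) (l 16771248)) (b (c (l 302962954775) (l 280414354727)) (c (a (l 16776032) (l 475835387719)) (l 395304751383))))))))), by decide +kernel⟩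

def k9_mm_202_s : ∃ t, chk3 f_mm_202_s t 29 19 1 = true :=
  ⟨(a (b (b (b (a (l 16755160) (c (l 16765864) (l 16765032))) (a (l 16758768) (c (a (l 16767200) (l 16772416)) (a (l 16766328) (l 16771992))))) (c (a (c (l 16776096) (l 16765000)) (a (b (l 16771232) (a (l 16774096) (b (l 16775720) (l 432885722055)))) (c (b (a (l 102173250727) (l 401747206519)) (l 503752662055)) (b (a (l 16775168) (l 408726530279)) (l 502678917127))))) (b (a (l 16761960) (a (l 16770632) (b (c (l 16775320) (l 16775216)) (a (l 135996118135) (l 501605187511))))) (a (l 16766304) (a (a (l 16773752) (c (l 176798310183) (l 173577085063))) (a (l 468856057319) (l 3))))))) (b (a (b (b (c (l 16770504) (l 16769728)) (a (l 16769488) (c (a (l 16774008) (l 168208373367)) (l 280414351127)))) (c (a (l 260550146039) (a (b (l 16776128) (l 449528716759)) (l 495699602903))) (a (l 251960209175) (c (l 433959456519) (l 432885713639))))) (a (b (b (c (l 447918101655) (l 444160002919)) (c (l 516100691383) (l 513953202311))) (l 3)) (l 3))) (a (a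 (c (b (a (b (l 16775024) (l 197199403383)) (l 446844358215)) (l 503215781527)) (b (a (b (l 16774736) (l 286319929479)) (l 443086259623)) (l 502142034055))) (l 3)) (l 3)))) (a (b (b (b (c (a (c (a (l 16772368) (l 16777536)) (l 16773488)) (a (b (c (l 124721827799) (l 16776416)) (l 479056616023)) (l 529522470951))) (a (b (l 16772208) (l 278803762583)) (c (l 454360549383) (l 452749934775)))) (a (c (b (a (l 16775360) (l 453286816023)) (b (l 451139330551) (l 499457705063))) (a (c (l 154786602247) (l 153175984455)) (a (l 455971165383) (l 524153759127)))) (l 3))) (a (b (c (l 531669961399) (l 528985598023)) (l 3)) (l 3))) (l 3)) (l 3))), by decide +kernel⟩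

def k10_mm_202_s : ∃ t, chk3 f_mm_202_s t 15 16 1 = true :=
  ⟨(a (b (b (l 14) (a (l 16622136) (l 14))) (b (b (a (l 16694000) (l 14)) (a (l 16708400) (a (l 16699064) (l 14)))) (b (a (l 16702872) (a (a (l 16713040) (l 16706600)) (a (l 16722872) (l 14)))) (a (a (l 16727696) (a (l 16727944) (l 16709680))) (a (a (l 16714600) (l 16700672)) (b (a (l 16747848) (l 16734064)) (a (l 16751384) (l 16758376)))))))) (b (l 14) (a (b (l 14) (b (l 14) (b (l 14) (a (a (c (l 16767064) (l 16763760)) (l 14)) (l 14))))) (l 14)))), by decide +kernel⟩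

def k11_mm_202_s : ∃ t, chk3 f_mm_202_s t 30 34 1 = true :=
  ⟨(a (a (b (b (l 16726008) (l 16728800)) (l 16737056)) (b (b (l 16712960) (l 16740056)) (b (l 16746216) (l 16751800)))) (b (b (c (a (l 16750176) (a (l 16758896) (l 16764784))) (a (l 16742400) (a (l 16753656) (l 16761264)))) (a (c (l 16755184) (l 16750104)) (a (c (l 16763744) (l 16760632)) (b (c (l 16768360) (l 16766224)) (c (l 16775928) (l 16769272)))))) (a (b (c (l 16759912) (l 16756768)) (a (l 16760608) (c (l 16767224) (l 16765824)))) (a (b (c (l 16776232) (a (l 16765056) (l 16768424))) (b (c (l 16776960) (l 16770888)) (b (c (l 16775992) (l 16772848)) (c (a (l 16773056) (a (l 16775160) (b (l 16776296) (l 120426857863)))) (c (l 16776824) (l 16777952)))))) (b (c (a (c (l 16776776) (l 16772440)) (b (c (l 16774528) (l 16774264)) (b (a (l 16775352) (a (l 16776432) (c (b (l 16776896) (l 262160778583)) (l 181630141975)))) (a (c (c (l 62444799095) (l 16776488)) (l 16776432)) (a (b (l 205252461927) (l 498383979207)) (l 3)))))) (b (c (l 16772344)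 (l 16771920)) (a (l 16773160) (c (a (l 16775744) (b (l 127943050823) (l 404431569671))) (a (l 16775624) (b (l 130627405207) (l 404431569671))))))) (a (a (b (c (l 16775256) (l 16774960)) (b (c (a (l 16776544) (b (l 16776984) (l 290614937127))) (c (l 16778192) (l 16777832))) (a (b (c (l 236390974871) (l 241222812935)) (l 3)) (l 3)))) (b (c (b (l 16776128) (a (c (l 92509570343) (l 16776872)) (b (l 219747976583) (l 3)))) (b (l 16775960) (c (l 197736269847) (l 196125657063)))) (b (c (a (l 472077304695) (l 3)) (l 492478399751)) (l 3)))) (b (a (b (c (a (b (l 16776936) (l 277730035175)) (l 446844371767)) (a (c (l 16777184) (l 16777200)) (l 470466691879))) (l 3)) (l 3)) (l 3)))))))), by decide +kernel⟩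

def k12_mm_202_s : ∃ t, chk3 f_mm_202_s t 248 34 1 = true :=
  ⟨(b (b (b (c (l 16776080) (c (l 16746880) (l 16756200))) (b (c (l 16771328) (l 16769728)) (a (l 16770224) (c (l 16773992) (l 16773168))))) (b (a (c (l 16772760) (l 16771704)) (a (c (c (l 16775112) (l 16774856)) (c (l 16774592) (l 16774320))) (b (c (l 16777208) (l 16775576)) (b (c (a (l 16776384) (a (l 16776944) (l 232096007303))) (c (l 16776680) (l 16776616))) (c (a (c (l 16777640) (l 16776944)) (l 443623146023)) (c (l 224579814967) (l 226190427671))))))) (b (a (c (l 16774480) (l 16773888)) (a (c (a (l 16776320) (b (l 16776784) (a (l 165524014087) (l 429664502119)))) (c (l 115058148839) (l 115058148119))) (a (a (b (c (l 240685941911) (l 246591521815)) (l 3)) (l 3)) (l 3)))) (a (c (a (l 16774888) (c (c (l 51707380759) (l 16776384)) (l 16776312))) (c (l 16775376) (l 16775200))) (a (a (c (b (c (l 182703883335) (l 16777160)) (l 471540433495)) (b (l 183777625191) (l 392620410407))) (l 3)) (l 3)))))) (b (a (b (a (b (c (l 16776016) (l 16775776))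 (c (a (c (l 77477184711) (l 16776760)) (b (c (l 200957494327) (l 16777192)) (l 484962206343))) (a (c (l 16776712) (l 16776664)) (b (l 198810010743) (l 405505312343))))) (b (c (a (c (b (l 16776848) (l 250349618455)) (l 172503335111)) (b (l 401747214727) (l 3))) (c (l 335712092423) (a (l 172503336279) (l 433959469767)))) (l 3))) (a (a (b (b (c (l 415168987575) (l 329806513559)) (l 3)) (l 3)) (l 3)) (l 3))) (l 3)) (l 3))), by decide +kernel⟩

def k13_mm_202_s : ∃ t, chk3 f_mm_202_s t 249 34 1 = true :=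
  ⟨(b (b (a (b (c (c (c (l 16774400) (l 16774184)) (l 16773848)) (c (l 16773392) (l 16772928))) (b (a (c (l 16775080) (l 16774504)) (a (c (l 16776216) (l 16775952)) (c (b (l 16776688) (a (l 112910664583) (l 397452247303))) (c (l 153175983303) (l 149954756583))))) (a (c (c (c (c (l 45264929511) (l 16777640)) (l 16776280)) (l 16777496)) (c (l 16776056) (l 16775928))) (c (a (b (a (l 16776904) (a (l 180556399415) (l 277730034647))) (l 432348856823)) (b (l 504826430135) (l 3))) (c (b (l 344838897943) (l 482814722951)) (c (l 379198636647) (l 379198636647))))))) (b (l 14) (b (b (b (l 14) (b (l 14) (b (l 14) (l 3)))) (l 3)) (l 3)))) (a (b (a (b (b (c (a (l 16776736) (c (l 381882990871) (l 288467453175))) (c (l 178945787255) (l 184314496295))) (a (a (c (l 150491628503) (l 16777088)) (c (l 413021503799) (l 323364062311))) (l 3))) (l 3)) (l 3)) (l 3)) (l 3))) (l 3)), by decide +kernel⟩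

def k14_mm_202_s : ∃ t, chk3 f_mm_202_s t 125 34 1 = true :=
  ⟨(l 3), by decide +kernel⟩

def k15_mm_202_s : ∃ t, chk3 f_mm_202_s t 63 34 1 = true :=
  ⟨(l 3), by decide +kernel⟩

def k16_mm_202_s : ∃ t, chk3 f_mm_202_s t 60 35 1 = true :=
  ⟨(b (a (l 16769040) (b (l 16770080) (a (l 16759000) (l 16764592)))) (b (a (l 16755416) (c (l 16777144) (a (l 16763368) (l 16768952)))) (a (l 16760040) (b (c (l 16777696) (l 16777480)) (a (l 16769184) (c (a (l 16773224) (a (l 16775200) (b (l 16776008) (l 159618435367)))) (c (l 16777144) (l 16778752)))))))), by decide +kernel⟩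

def k17_mm_202_s : ∃ t, chk3 f_mm_202_s t 61 70 1 = true :=
  ⟨(a (b (b (c (l 16773024) (l 16774592)) (a (l 16766728) (c (l 16777936) (l 16777496)))) (a (c (l 16775688) (l 16775192)) (b (c (a (l 16773464) (b (l 16778296) (a (l 16776048) (a (l 159618434839) (l 415168987815))))) (a (l 16773152) (a (l 16775376) (b (l 16776288) (a (l 158007821975) (l 313700387239)))))) (a (c (a (l 16774904) (c (b (l 16775760) (l 104320730695)) (l 16777584))) (c (l 16775520) (l 16775456))) (a (b (b (c (l 16776856) (l 16776832)) (c (l 229411653495) (l 221895460743))) (c (l 461876757671) (l 470466692231))) (l 3)))))) (a (b (a (b (c (l 16777312) (l 16774400)) (b (c (a (l 16775608) (a (l 16776656) (a (l 177335174775) (l 273435068359)))) (c (l 97341409335) (l 95193925575))) (a (c (c (l 86067119671) (l 16776688)) (c (l 16776656) (l 16776624))) (c (a (l 404968440407) (l 3)) (l 453286822903))))) (b (b (c (a (l 16776248) (a (b (l 16777032) (l 310479160855)) (l 482277852087))) (a (l 16776128) (c (l 365239992791) (l 268603230615))))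 (a (c (a (c (l 116668761367) (l 16776984)) (l 393694151191)) (c (l 213842397303) (l 209010559127))) (l 3))) (a (b (c (l 498920850855) (l 508047656327)) (l 3)) (l 3)))) (a (b (a (b (b (c (l 350744477959) (l 243907168295)) (c (l 474761659351) (l 483351593927))) (l 3)) (l 3)) (l 3)) (l 3))) (l 3))), by decide +kernel⟩

def k18_mm_202_s : ∃ t, chk3 f_mm_202_s t 61 71 1 = true :=
  ⟨(a (a (b (c (a (l 16778576) (b (l 16774976) (a (b (l 16775872) (l 141364824167)) (b (a (l 16776888) (l 272361326743)) (l 479056627015))))) (a (l 16778392) (b (l 16774856) (b (c (l 16776568) (l 16776544)) (a (l 134922373175) (l 513416364775)))))) (a (a (b (c (l 16775800) (l 16775752)) (b (c (c (l 216526752007) (l 212768655639)) (l 204715592279)) (c (l 497310238183) (l 599315707863)))) (b (c (b (l 16776624) (l 363629380071)) (c (l 176798305479) (l 177872047159))) (l 3))) (a (b (c (b (l 411410891687) (l 3)) (l 486035947175)) (l 3)) (l 3)))) (b (a (b (a (c (b (l 16776496) (a (l 183240755063) (l 437717566279))) (c (l 168745241463)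 (l 163913400663))) (b (c (l 395304764151) (a (l 255718328391) (l 3))) (l 3))) (l 3)) (l 3)) (l 3))) (l 3)), by decide +kernel⟩

def k19_mm_202_s : ∃ t, chk3 f_mm_202_s t 31 35 1 = true :=
  ⟨(l 3), by decide +kernel⟩

def k20_mm_202_s : ∃ t, chk3 f_mm_202_s t 15 9 1 = true :=
  ⟨(b (a (a (a (a (b (b (c (l 16764072) (l 16763952)) (b (c (l 16770200) (l 16770080)) (b (c (l 16773136) (l 16773024)) (c (a (l 16773840) (c (a (l 16775792) (l 184851369063)) (l 107005087335))) (c (l 16777648) (l 74255962247)))))) (b (b (a (c (b (l 76940316023) (l 421074563991)) (b (l 16778384) (l 459192396551))) (b (c (l 495162747767) (l 489257163463)) (l 3))) (l 3)) (l 3))) (b (b (b (l 16772344) (c (l 16771304) (l 16771328))) (a (c (b (l 16779248) (b (a (l 16776328) (l 388325440183)) (l 547239224887))) (b (l 16773936) (c (l 419463949479) (l 439865042615)))) (b (c (b (l 16778184) (a (b (l 16776424) (l 228337912647)) (l 498920846983))) (b (l 16775536) (a (c (l 16776848) (l 16776840)) (l 504289552007)))) (l 3)))) (l 3)))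 (b (b (a (c (b (c (l 16772400) (l 16772376)) (b (a (l 16774144) (a (l 16776080) (b (l 16776840) (l 434496339959)))) (a (a (l 16775512) (b (l 16776296) (l 203104979639))) (a (l 433422597527) (l 3))))) (b (c (l 16772352) (l 16772328)) (a (a (l 16774504) (c (l 80161542007) (l 77477187591))) (b (c (l 146733535223) (c (l 144586051255) (l 144049180327))) (l 539723030823))))) (b (a (b (c (l 16775288) (l 16775264)) (c (a (b (l 16776152) (l 180556401159)) (b (l 227264170855) (l 3))) (a (c (l 16776624) (l 16776624)) (l 468856075607)))) (b (c (a (b (l 16776728) (l 380809249447)) (b (l 446307501143) (l 3))) (c (l 388862311543) (l 430738240823))) (l 3))) (a (b (c (l 517174461415) (l 578377735175)) (l 3)) (l 3)))) (a (a (b (b (c (b (l 369534959015) (l 559050389015)) (l 480667232855)) (l 3)) (l 3)) (l 3)) (l 3))) (l 3))) (l 3)) (l 3)) (l 3)), by decide +kernel⟩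

def k21_mm_202_s : ∃ t, chk3 f_mm_202_s t 7 5 1 = true :=
  ⟨(b (a (a (b (b (a (b (a (l 16745384) (c (l 16758088) (l 16755152))) (b (c (l 16779976) (l 16777024)) (a (l 16756240) (c (l 16768888) (l 16767536))))) (b (b (c (a (l 16766824) (a (b (l 16774080) (l 283635568359)) (l 479056619847))) (a (l 16765296) (a (c (l 280951211879) (l 280414340743)) (l 479056615847)))) (a (a (c (l 16768424) (l 16767080)) (c (l 278266869959) (l 279877483799))) (a (a (c (l 419463946151) (b (l 285783061879) (l 317995291447))) (l 3)) (l 3)))) (a (a (b (c (l 16772880) (l 16772200)) (c (a (l 270213804215) (l 430738231399)) (c (l 286856770599) (l 287393641511)))) (b (c (c (l 419463944455) (l 418927072791)) (a (l 329269603399) (l 474224764519))) (l 3))) (l 3)))) (a (b (c (a (l 16780048) (a (b (l 16770576) (c (l 270213799879) (l 16756584))) (b (b (l 16775104) (l 386177946791)) (l 461876730551)))) (b (a (l 16759552) (c (l 279877458327) (l 279877458055))) (a (l 16764728) (a (l 280951215255) (l 463487340343))))) (a (c (a (b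 (l 16768272) (l 16772896)) (b (l 275045648391) (l 402284074567))) (b (a (l 16766696) (l 278266874327)) (c (l 283098665591) (l 283635535975)))) (a (b (c (l 425369516327) (l 424295772471)) (l 3)) (l 3)))) (a (b (b (c (l 487646548007) (l 487646541559)) (l 3)) (l 3)) (l 3)))) (b (a (a (b (a (c (b (a (l 268066323575) (l 418390200071)) (l 465634819863)) (c (l 410337128903) (l 410337127879))) (l 3)) (l 3)) (l 3)) (l 3)) (l 3))) (l 3)) (l 3)) (l 3)), by decide +kernel⟩

def k22_mm_202_s : ∃ t, chk3 f_mm_202_s t 3 3 1 = true :=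
  ⟨(b (a (b (a (b (a (b (c (a (l 16698504) (l 16744048)) (a (l 16707440) (l 16758256))) (a (c (l 16740016) (l 16732552)) (b (c (l 16759888) (l 16756448)) (a (c (l 16764384) (l 16761864)) (c (l 276656231063) (l 276656227191)))))) (b (a (a (b (l 16766080) (c (l 16768080) (l 16766248))) (b (c (l 16759400) (l 195051876551)) (c (l 276656213607) (l 313163457895)))) (a (b (c (l 366850584007) (l 371145549271)) (l 3)) (l 3))) (a (b (a (c (l 276656222951) (l 310479130647)) (l 3)) (l 3)) (l 3)))) (a (a (c (b (b (l 16756160) (l 204715539591)) (b (l 278803688215) (l 360408118839))) (b (b (l 16752040) (l 189683152023)) (a (b (l 16770256) (l 282561798471)) (l 365239951175)))) (b (b (a (c (l 246591469799) (l 244980855015)) (l 373293020407)) (b (l 370071789575) (l 3))) (l 3))) (l 3))) (l 3)) (l 3)) (l 3)) (l 3)), by decide +kernel⟩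

theorem s23_mm_202_s : ∃ t, chk3 f_mm_202_s t 61 35 1 = true := ex3_b k17_mm_202_s k18_mm_202_s

theorem s24_mm_202_s : ∃ t, chk3 f_mm_202_s t 30 35 1 = true := ex3_a k16_mm_202_s s23_mm_202_s

theorem s25_mm_202_s : ∃ t, chk3 f_mm_202_s t 15 35 1 = true := ex3_a s24_mm_202_s k19_mm_202_s

theorem s26_mm_202_s : ∃ t, chk3 f_mm_202_s t 124 34 1 = true := ex3_a k12_mm_202_s k13_mm_202_s

theorem s27_mm_202_s : ∃ t, chk3 f_mm_202_s t 62 34 1 = true := ex3_a s26_mm_202_s k14_mm_202_s

theorem s28_mm_202_s : ∃ t, chk3 f_mm_202_s t 31 34 1 = true := ex3_a s27_mm_202_s k15_mm_202_s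

theorem s29_mm_202_s : ∃ t, chk3 f_mm_202_s t 15 34 1 = true := ex3_a k11_mm_202_s s28_mm_202_s

theorem s30_mm_202_s : ∃ t, chk3 f_mm_202_s t 15 17 1 = true := ex3_b s29_mm_202_s s25_mm_202_s

theorem s31_mm_202_s : ∃ t, chk3 f_mm_202_s t 15 8 1 = true := ex3_b k10_mm_202_s s30_mm_202_s

theorem s32_mm_202_s : ∃ t, chk3 f_mm_202_s t 15 4 1 = true := ex3_b s31_mm_202_s k20_mm_202_s

theorem s33_mm_202_s : ∃ t, chk3 f_mm_202_s t 14 19 1 = true := ex3_a k8_mm_202_s k9_mm_202_s

theorem s34_mm_202_s : ∃ t, chk3 f_mm_202_s t 14 9 1 = true := ex3_b k7_mm_202_s s33_mm_202_s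

theorem s35_mm_202_s : ∃ t, chk3 f_mm_202_s t 14 4 1 = true := ex3_b k6_mm_202_s s34_mm_202_s

theorem s36_mm_202_s : ∃ t, chk3 f_mm_202_s t 7 4 1 = true := ex3_a s35_mm_202_s s32_mm_202_s

theorem s37_mm_202_s : ∃ t, chk3 f_mm_202_s t 7 2 1 = true := ex3_b s36_mm_202_s k21_mm_202_s

theorem s38_mm_202_s : ∃ t, chk3 f_mm_202_s t 6 11 1 = true := ex3_a k4_mm_202_s k5_mm_202_s

theorem s39_mm_202_s : ∃ t, chk3 f_mm_202_s t 6 5 1 = true := ex3_b k3_mm_202_s s38_mm_202_s

theorem s40_mm_202_s : ∃ t, chk3 f_mm_202_s t 6 2 1 = true := ex3_b k2_mm_202_s s39_mm_202_s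

theorem s41_mm_202_s : ∃ t, chk3 f_mm_202_s t 3 2 1 = true := ex3_a s40_mm_202_s s37_mm_202_s

theorem s42_mm_202_s : ∃ t, chk3 f_mm_202_s t 3 1 1 = true := ex3_b s41_mm_202_s k22_mm_202_s

theorem s43_mm_202_s : ∃ t, chk3 f_mm_202_s t 2 1 1 = true := ex3_b k0_mm_202_s k1_mm_202_s

theorem s44_mm_202_s : ∃ t, chk3 f_mm_202_s t 1 1 1 = true := ex3_a s43_mm_202_s s42_mm_202_s

theorem c_mm_202_s : CertNE 0 536870912 1073741824 536870912 966367641 24778659 3 eng mog cd0q2 cd4q2 pd0 false false false .pp 2 0 2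
    ndB0q2 ndB4q2 pcB0 cut_mm_202_s Ext.none :=
  certNE1 (fam := false) (s1 := false) (s2 := false) (a := 2) (b := 0) (c := 2) (cn := .pp) (n1 := ndB0q2) (n2 := ndB4q2) (pc := pcB0) (cut := cut_mm_202_s) (xt := Ext.none) (P1 := 0) (W1 := 536870912) (P2 := 1073741824) (W2 := 536870912) (P3 := 966367641) (W3 := 24778659) (N0 := 3) (En := eng) (mo := mog) (C1 := cd0q2) (C2 := cd4q2) (C3 := pd0)
    rfl (fun _ => rfl) s44_mm_202_s

noncomputable def cut_mm_203_s : Cut := Cut.of [[⟨4, 0, 0, 1449551462⟩]]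

noncomputable def f_mm_203_s : ℕ → ℕ → ℕ → ℕ → Bool := onCell 0 536870912 0 1230186008 966367641 24778659
    (rowNE 3 eng mog cd0q2 cd4q3 pd0 0 false false false .up 2 0 3 (qsf 0 536870912 0 1230186008 0) ndB0q2 ndB4q3 pcB0 cut_mm_203_s Ext.none)

def k0_mm_203_s : ∃ t, chk3 f_mm_203_s t 1 1 1 = true :=
  ⟨(b (l 2) (b (l 2) (a (b (a (b (l 2) (b (l 2) (a (a (l 16677080) (b (l 16735432) (l 16714872))) (a (b (a (l 230485322311) (l 317995330487)) (c (l 209010491351) (l 219747898759))) (l 3))))) (l 3)) (b (b (a (b (a (l 16667920) (a (a (l 16730360) (l 16755112)) (c (l 298667971767) (l 292762393463)))) (a (l 16623464) (a (l 16720976) (a (l 184851301895) (b (l 290614863879) (l 271287522919)))))) (l 3)) (a (c (a (l 16614448) (a (l 16690336) (b (l 176798241175) (l 16729800)))) (a (l 16599360) (a (l 16681504) (b (l 166597688407) (l 16724056))))) (a (a (b (c (l 334101435879) (l 328195857223)) (a (b (l 250886426551) (l 16761664)) (b (l 3) (l 289541108887)))) (l 3)) (l 3)))) (a (a (b (b (l 16568320) (l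 16541408)) (a (l 16471624) (l 16527576))) (a (b (b (l 16648872) (l 16622800)) (l 16529592)) (b (b (l 16702672) (l 16656232)) (b (l 16650744) (l 16623472))))) (a (b (a (b (a (l 16743872) (b (l 271824381703) (l 195588735623))) (c (l 16736048) (l 16729896))) (a (b (a (l 294372927175) (l 3)) (c (l 270750619079) (b (l 277729960279) (l 16768288)))) (l 3))) (a (b (c (l 16712024) (l 16701896)) (l 16680040)) (b (a (c (l 16752752) (l 16748800)) (b (a (l 276119360743) (l 3)) (c (l 268066288807) (l 255718260503)))) (a (l 16724080) (c (l 176261371687) (l 156934026119)))))) (b (l 3) (a (b (l 3) (a (b (l 335712060583) (a (l 213305474135) (l 284709276551))) (l 3))) (l 3))))))) (l 3)))), by decide +kernel⟩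

theorem c_mm_203_s : CertNE 0 536870912 0 1230186008 966367641 24778659 3 eng mog cd0q2 cd4q3 pd0 false false false .up 2 0 3
    ndB0q2 ndB4q3 pcB0 cut_mm_203_s Ext.none :=
  certNE0 (fam := false) (s1 := false) (s2 := false) (a := 2) (b := 0) (c := 3) (cn := .up) (n1 := ndB0q2) (n2 := ndB4q3) (pc := pcB0) (cut := cut_mm_203_s) (xt := Ext.none) (P1 := 0) (W1 := 536870912) (P2 := 0) (W2 := 1230186008) (P3 := 966367641) (W3 := 24778659) (N0 := 3) (En := eng) (mo := mog) (C1 := cd0q2) (C2 := cd4q3) (C3 := pd0)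
    rfl k0_mm_203_s

noncomputable def cut_mm_213_s : Cut := Cut.of [[⟨4, 0, 0, 1449551462⟩]]

noncomputable def f_mm_213_s : ℕ → ℕ → ℕ → ℕ → Bool := onCell 0 536870912 0 1230186008 966367641 24778659
    (rowNE 3 eng mog cd0q2 cd4q3 pd1 0 false false false .pnn 2 1 3 (qsf 0 536870912 0 1230186008 1) ndB0q2 ndB4q3 pcB1 cut_mm_213_s Ext.none)

def k0_mm_213_s : ∃ t, chk3 f_mm_213_s t 1 1 1 = true :=
  ⟨(b (a (l 3) (b (l 5) (l 3))) (b (a (b (l 3) (a (l 3) (l 3))) (l 3)) (a (b (a (b (a (b (a (b (l 308868529447) (l 269140026007)) (l 3)) (a (b (l 213842323479) (l 16742096)) (b (l 335712064791) (l 291688659335)))) (l 3)) (b (b (a (a (l 16720568) (a (l 16759272) (l 280414334743))) (l 3)) (a (a (l 16697120) (a (l 16737832) (l 200957435767))) (a (l 314237228583) (l 3)))) (b (a (a (l 16671464) (l 16728032)) (a (a (l 222432261527) (l 315310977575)) (l 3))) (l 1)))) (l 3)) (b (a (l 1) (a (l 1) (l 3))) (l 1))) (l 3)))), by decide +kernel⟩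

theorem c_mm_213_s : CertNE 0 536870912 0 1230186008 966367641 24778659 3 eng mog cd0q2 cd4q3 pd1 false false false .pnn 2 1 3
    ndB0q2 ndB4q3 pcB1 cut_mm_213_s Ext.none :=
  certNE0 (fam := false) (s1 := false) (s2 := false) (a := 2) (b := 1) (c := 3) (cn := .pnn) (n1 := ndB0q2) (n2 := ndB4q3) (pc := pcB1) (cut := cut_mm_213_s) (xt := Ext.none) (P1 := 0) (W1 := 536870912) (P2 := 0) (W2 := 1230186008) (P3 := 966367641) (W3 := 24778659) (N0 := 3) (En := eng) (mo := mog) (C1 := cd0q2) (C2 := cd4q3) (C3 := pd1)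
    rfl k0_mm_213_s

end Pool.Agent.Strip051.G.I9000_9231.Tab.CS.BB04

namespace Pool.Agent.Strip051.G.I9000_9231.Tab.CS.BB40

open Pool.Agent.Strip051.PB Pool.Agent.Strip051.PB.T
open Pool.Agent.Strip051.G.I9000_9231.Tab

noncomputable def cut_pp_001_s : Cut := Cut.of [[⟨4, 0, 0, 1449551462⟩]]

noncomputable def f_pp_001_s : ℕ → ℕ → ℕ → ℕ → Bool := onCell 0 536870912 536870912 536870912 966367641 24778659
    (rowNE 3 eng mog cd4q0 cd0q1 pd0 2 false true true .up 0 0 1 (qsf 0 536870912 536870912 536870912 0) ndB4q0 ndB0q1 pcB0 cut_pp_001_s Ext.none)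

def k0_pp_001_s : ∃ t, chk3 f_pp_001_s t 2 1 1 = true :=
  ⟨(b (l 3) (b (b (l 3) (l 2)) (l 2))), by decide +kernel⟩

def k1_pp_001_s : ∃ t, chk3 f_pp_001_s t 3 2 1 = true :=
  ⟨(a (l 3) (b (l 3) (a (b (l 3) (a (b (l 3) (b (a (l 3) (b (l 3) (l 519321898135))) (a (a (l 3) (l 299741596391)) (c (l 271824333143) (l 271287450999))))) (b (a (l 3) (b (l 3) (c (l 320679571623) (l 324437661751)))) (a (b (c (l 284709226215) (l 285246089847)) (c (l 16737064) (l 16732392))) (b (c (l 16743544) (l 16740152)) (c (l 16704112) (l 16675280))))))) (b (a (b (l 3) (a (l 3) (b (l 3) (a (l 337859448519) (l 289004215687))))) (b (a (l 3) (b (l 3) (c (l 324974523319) (l 328195757991)))) (a (b (c (l 322290173015) (l 325511404391)) (a (l 16745592) (l 16749952))) (b (a (l 16728344) (l 16753872)) (l 16723192))))) (a (b (a (b (a (l 336248838279) (l 285782992615)) (c (l 16749160) (l 16746872))) (b (b (l 16742440) (l 16743952)) (l 16692392))) (a (b (l 16728184) (l 16623736)) (b (l 16672504) (l 16610208)))) (a (b (b (l 16718680)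 (l 16678448)) (b (l 16616880) (l 16596808))) (b (b (l 16683504) (l 16622616)) (l 16582376)))))))), by decide +kernel⟩

def k2_pp_001_s : ∃ t, chk3 f_pp_001_s t 6 6 1 = true :=
  ⟨(a (b (a (l 3) (b (l 3) (b (l 3) (a (l 3) (b (l 3) (a (l 501068285575) (c (l 281488046823) (l 279340555367)))))))) (a (l 2) (b (b (a (l 2) (a (l 2) (c (l 16748160) (l 16743448)))) (l 2)) (l 2)))) (b (a (b (l 3) (a (a (b (l 3) (c (b (l 322290224327) (l 16763664)) (b (l 312626539815) (l 16761488)))) (b (c (l 502678890967) (l 526301204583)) (c (l 168745172743) (l 16744560)))) (c (b (a (l 285246094647) (l 270213743175)) (l 16755760)) (b (a (l 283635470519) (l 267529378135)) (l 16728280))))) (b (b (a (l 3) (b (l 3) (a (l 338933211191) (l 282024923399)))) (b (a (a (l 3) (l 333564506503)) (a (l 253570789991) (l 16754768))) (a (c (l 317458375959) (l 323900818839)) (l 16762440)))) (a (b (c (a (l 16752656) (l 16736944)) (l 16739824)) (c (l 16703296) (l 16650400))) (b (a (l 16717088) (l 16658128)) (l 16684840))))) (b (c (a (a (b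 (l 16745536) (l 16640672)) (b (l 16692936) (l 16650328))) (a (l 16722824) (l 16501848))) (a (a (b (l 16716168) (l 16625464)) (b (l 16637912) (l 16630448))) (b (a (l 16643672) (l 16607640)) (l 16491320)))) (b (a (a (l 2) (l 16530936)) (a (l 16559000) (l 16524616))) (a (l 2) (l 228806788375)))))), by decide +kernel⟩

def k3_pp_001_s : ∃ t, chk3 f_pp_001_s t 7 6 1 = true :=
  ⟨(a (b (a (b (a (b (a (b (l 304573497943) (l 16759224)) (l 16749952)) (c (l 16721712) (l 16714264))) (b (c (l 16729768) (l 16723784)) (c (l 16668400) (l 16657088)))) (a (b (l 16716208) (l 16587744)) (c (l 16563968) (l 16544144)))) (b (a (b (c (l 16676208) (l 16666568)) (l 16607480)) (b (l 16616040) (l 16594112))) (a (a (l 16507784) (l 16511632)) (b (l 16571472) (l 16527096))))) (a (b (a (b (l 16563336) (l 16538000)) (b (l 16550112) (l 16503936))) (a (b (l 16490496) (l 16441936)) (l 16347680))) (b (b (l 16372600) (l 16389632)) (b (l 16384696) (l 16357592))))) (b (a (b (a (b (l 16602624) (l 16580872)) (l 16441648)) (c (l 16406720)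 (l 16377376))) (b (c (l 16442592) (l 16442328)) (b (l 16432112) (l 16409688)))) (b (a (b (l 16431264) (l 16386032)) (a (l 16359656) (l 16327776))) (a (b (l 16339904) (l 16292648)) (l 16189616))))), by decide +kernel⟩

def k4_pp_001_s : ∃ t, chk3 f_pp_001_s t 3 7 1 = true :=
  ⟨(a (b (a (l 2) (b (a (l 2) (b (l 303431726055) (l 2))) (l 2))) (l 2)) (b (a (b (a (b (l 16332672) (l 16323792)) (b (l 16307960) (l 16257176))) (a (b (l 16272288) (l 2)) (b (l 16205024) (l 16151656)))) (b (a (l 16071208) (l 16157352)) (a (l 16113984) (l 16055256)))) (a (b (a (l 2) (l 318463193575)) (l 2)) (b (a (b (l 16033592) (l 6)) (l 6)) (l 6))))), by decide +kernel⟩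

theorem s5_pp_001_s : ∃ t, chk3 f_pp_001_s t 3 6 1 = true := ex3_a k2_pp_001_s k3_pp_001_s

theorem s6_pp_001_s : ∃ t, chk3 f_pp_001_s t 3 3 1 = true := ex3_b s5_pp_001_s k4_pp_001_s

theorem s7_pp_001_s : ∃ t, chk3 f_pp_001_s t 3 1 1 = true := ex3_b k1_pp_001_s s6_pp_001_s

theorem s8_pp_001_s : ∃ t, chk3 f_pp_001_s t 1 1 1 = true := ex3_a k0_pp_001_s s7_pp_001_s

theorem c_pp_001_s : CertNE 0 536870912 536870912 536870912 966367641 24778659 3 eng mog cd4q0 cd0q1 pd0 false true true .up 0 0 1
    ndB4q0 ndB0q1 pcB0 cut_pp_001_s Ext.none :=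
  certNE2 (fam := false) (s1 := true) (s2 := true) (a := 0) (b := 0) (c := 1) (cn := .up) (n1 := ndB4q0) (n2 := ndB0q1) (pc := pcB0) (cut := cut_pp_001_s) (xt := Ext.none) (P1 := 0) (W1 := 536870912) (P2 := 536870912) (W2 := 536870912) (P3 := 966367641) (W3 := 24778659) (N0 := 3) (En := eng) (mo := mog) (C1 := cd4q0) (C2 := cd0q1) (C3 := pd0)
    rfl (fun _ => rfl) s8_pp_001_s

noncomputable def cut_pp_011_s : Cut := Cut.of [[⟨4, 0, 0, 1449551462⟩]]

noncomputable def f_pp_011_s : ℕ → ℕ → ℕ → ℕ → Bool := onCell 536870912 536870912 536870912 536870912 966367641 24778659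
    (rowNE 3 eng mog cd4q0 cd0q1 pd1 2 false true true .pnn 0 1 1 (qsf 0 536870912 536870912 536870912 1) ndB4q0 ndB0q1 pcB1 cut_pp_011_s Ext.none)

def k0_pp_011_s : ∃ t, chk3 f_pp_011_s t 2 2 1 = true :=
  ⟨(a (b (a (b (l 3) (a (b (l 3) (a (l 3) (b (l 3) (l 513416315959)))) (b (a (l 3) (b (l 3) (l 544017954167))) (a (c (b (l 550460403559) (l 16725832)) (l 307794630167)) (b (l 229948418263) (l 16730072)))))) (b (a (a (l 3) (l 1)) (l 1)) (a (b (a (b (l 550997275319) (l 224579709799)) (b (l 251825878823) (l 16733024))) (a (b (l 16731736) (l 16689728)) (b (l 16671136) (l 16650760)))) (b (a (b (l 1) (l 16674400)) (l 1)) (a (b (l 16653640) (l 16612224)) (l 16491776)))))) (a (b (a (b (a (b (l 328732609511) (a (l 16730776) (l 16755240))) (b (a (l 16733392) (l 16758000)) (l 16725936))) (a (b (l 16722400) (l 16679536)) (b (l 16683808) (l 16641688)))) (b (b (a (l 16728456) (l 16688520)) (a (l 16686768) (l 16647480))) (b (a (l 16645328) (l 16606728)) (l 16521632)))) (a (b (a (b (l 16636496) (l 16593128))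 (l 16567040)) (c (l 16373736) (l 16454400))) (b (a (l 16540888) (l 16504080)) (b (l 16418064) (l 16417696))))) (b (a (b (a (b (l 16648248) (l 16607856)) (l 16524576)) (a (l 16547312) (l 16508232))) (b (b (l 16509608) (l 16509160)) (a (l 16468464) (l 16427872)))) (b (a (a (l 16466912) (l 16429200)) (l 16370688)) (a (l 16366536) (l 16292472)))))) (b (a (b (l 1) (a (b (l 1) (c (l 116534389335) (l 16452680))) (l 1))) (l 1)) (a (b (b (a (a (l 16475696) (l 16442208)) (b (l 1) (l 16374648))) (a (l 16266504) (l 16304272))) (a (b (l 16290352) (l 16214784)) (b (l 16212016) (l 16132568)))) (b (b (l 1) (a (l 16248792) (l 1))) (a (b (l 16148040) (l 16050600)) (b (l 16097608) (l 15989600))))))), by decide +kernel⟩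

def k1_pp_011_s : ∃ t, chk3 f_pp_011_s t 2 3 1 = true :=
  ⟨(b (a (b (a (b (a (b (l 16442616) (l 16397416)) (l 16247384)) (a (l 16201272) (l 16263648))) (b (a (l 16241768) (l 16212464)) (a (l 16198224) (l 16129832)))) (a (b (a (l 16211544) (l 16172976)) (a (l 16135056) (l 16080008))) (b (a (l 16111024) (l 16045792)) (a (l 16022040) (l 15960432))))) (a (b (b (a (l 16137528) (l 16058088)) (a (l 16057664) (l 15981024))) (b (a (l 15976616) (l 6)) (l 6))) (b (b (a (l 15973464) (l 15886408)) (a (l 15899336) (l 6))) (l 6)))) (a (b (a (b (a (l 16032064) (l 15981784)) (a (l 15920936) (l 6))) (b (l 6) (l 6))) (l 6)) (l 6))), by decide +kernel⟩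

def k2_pp_011_s : ∃ t, chk3 f_pp_011_s t 3 1 1 = true :=
  ⟨(b (a (b (l 1) (a (b (l 1) (a (b (l 1) (l 15944392)) (l 1))) (l 1))) (l 1)) (a (b (a (l 6) (l 6)) (l 6)) (l 6))), by decide +kernel⟩

theorem s3_pp_011_s : ∃ t, chk3 f_pp_011_s t 2 1 1 = true := ex3_b k0_pp_011_s k1_pp_011_s

theorem s4_pp_011_s : ∃ t, chk3 f_pp_011_s t 1 1 1 = true := ex3_a s3_pp_011_s k2_pp_011_s

theorem c_pp_011_s : CertNE 0 536870912 536870912 536870912 966367641 24778659 3 eng mog cd4q0 cd0q1 pd1 false true true .pnn 0 1 1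
    ndB4q0 ndB0q1 pcB1 cut_pp_011_s Ext.none :=
  certNE2 (fam := false) (s1 := true) (s2 := true) (a := 0) (b := 1) (c := 1) (cn := .pnn) (n1 := ndB4q0) (n2 := ndB0q1) (pc := pcB1) (cut := cut_pp_011_s) (xt := Ext.none) (P1 := 0) (W1 := 536870912) (P2 := 536870912) (W2 := 536870912) (P3 := 966367641) (W3 := 24778659) (N0 := 3) (En := eng) (mo := mog) (C1 := cd4q0) (C2 := cd0q1) (C3 := pd1)
    rfl (fun _ => rfl) s4_pp_011_s

noncomputable def cut_pp_012_s : Cut := Cut.of [[⟨4, 0, 0, 1449551462⟩]]

noncomputable def f_pp_012_s : ℕ → ℕ → ℕ → ℕ → Bool := onCell 0 536870912 0 536870912 966367641 24778659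
    (rowNE 3 eng mog cd4q0 cd0q2 pd1 0 false true true .pnp 0 1 2 (qsf 0 536870912 0 536870912 1) ndB4q0 ndB0q2 pcB1 cut_pp_012_s Ext.none)

def k0_pp_012_s : ∃ t, chk3 f_pp_012_s t 1 1 1 = true :=
  ⟨(a (l 6) (l 6)), by decide +kernel⟩

theorem c_pp_012_s : CertNE 0 536870912 0 536870912 966367641 24778659 3 eng mog cd4q0 cd0q2 pd1 false true true .pnp 0 1 2
    ndB4q0 ndB0q2 pcB1 cut_pp_012_s Ext.none :=
  certNE0 (fam := false) (s1 := true) (s2 := true) (a := 0) (b := 1) (c := 2) (cn := .pnp) (n1 := ndB4q0) (n2 := ndB0q2) (pc := pcB1) (cut := cut_pp_012_s) (xt := Ext.none) (P1 := 0) (W1 := 536870912) (P2 := 0) (W2 := 536870912) (P3 := 966367641) (W3 := 24778659) (N0 := 3) (En := eng) (mo := mog) (C1 := cd4q0) (C2 := cd0q2) (C3 := pd1)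
    rfl k0_pp_012_s

noncomputable def cut_pp_022_s : Cut := Cut.of [[⟨4, 0, 0, 1449551462⟩]]

noncomputable def f_pp_022_s : ℕ → ℕ → ℕ → ℕ → Bool := onCell 1073741824 536870912 0 536870912 966367641 24778659
    (rowNE 3 eng mog cd4q0 cd0q2 pd2 2 false true true .pp 0 2 2 (qsf 0 536870912 0 536870912 2) ndB4q0 ndB0q2 pcB2 cut_pp_022_s Ext.none)

def k0_pp_022_s : ∃ t, chk3 f_pp_022_s t 1 1 1 = true :=
  ⟨(l 6), by decide +kernel⟩

theorem c_pp_022_s : CertNE 0 536870912 0 536870912 966367641 24778659 3 eng mog cd4q0 cd0q2 pd2 false true true .pp 0 2 2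
    ndB4q0 ndB0q2 pcB2 cut_pp_022_s Ext.none :=
  certNE2 (fam := false) (s1 := true) (s2 := true) (a := 0) (b := 2) (c := 2) (cn := .pp) (n1 := ndB4q0) (n2 := ndB0q2) (pc := pcB2) (cut := cut_pp_022_s) (xt := Ext.none) (P1 := 0) (W1 := 536870912) (P2 := 0) (W2 := 536870912) (P3 := 966367641) (W3 := 24778659) (N0 := 3) (En := eng) (mo := mog) (C1 := cd4q0) (C2 := cd0q2) (C3 := pd2)
    rfl (fun _ => rfl) k0_pp_022_s

end Pool.Agent.Strip051.G.I9000_9231.Tab.CS.BB40

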