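import Pool.Agent.Strip051.G.I9000_9231.Tab
import Pool.Agent.Strip051.PB.ExtD2

/-! # Certificates B0 (generated) -/

set_option linter.all false
set_option maxRecDepth 100000

namespace Pool.Agent.Strip051.G.I9000_9231.Tab.C.BA00

open Pool.Agent.Strip051.PB Pool.Agent.Strip051.PB.T
open Pool.Agent.Strip051.G.I9000_9231.Tab

noncomputable def cut_pp_001 : Cut := Cut.of [[⟨3, 0, 0, 1449551462⟩], [⟨4, 0, 0, 2845415833⟩]]

noncomputable def f_pp_001 : ℕ → ℕ → ℕ → ℕ → Bool := onCell 0 536870912 0 536870912 966367641 24778659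
    (rowB 3 eng mog cd0q0 cd0q0 pd1 0 true true true .up 0 0 1 (qsf 0 536870912 0 536870912 1) ndB0q0 ndB0q0 pcB1 cut_pp_001 Ext.none)

def k0_pp_001 : ∃ t, chk3 f_pp_001 t 1 1 1 = true :=
  ⟨(l 4), by decide +kernel⟩

theorem c_pp_001 : CertB 0 536870912 0 536870912 966367641 24778659 3 eng mog cd0q0 cd0q0 pd1 true true true .up 0 0 1
    ndB0q0 ndB0q0 pcB1 cut_pp_001 Ext.none :=
  certB0 (fam := true) (s1 := true) (s2 := true) (a := 0) (b := 0) (c := 1) (cn := .up) (n1 := ndB0q0) (n2 := ndB0q0) (pc := pcB1) (cut := cut_pp_001) (xt := Ext.none) (P1 := 0) (W1 := 536870912) (P2 := 0) (W2 := 536870912) (P3 := 966367641) (W3 := 24778659) (N0 := 3) (En := eng) (mo := mog) (C1 := cd0q0) (C2 := cd0q0) (C3 := pd1)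
    rfl k0_pp_001

noncomputable def cut_pp_011 : Cut := Cut.of [[⟨3, 0, 0, 1449551462⟩], [⟨4, 0, 0, 2845415833⟩], [⟨0, 0, 0, 67108864⟩, ⟨1, 1, 0, 67108864⟩, ⟨2, 1, 0, 67108864⟩]]

noncomputable def f_pp_011 : ℕ → ℕ → ℕ → ℕ → Bool := onCell 0 536870912 536870912 536870912 966367641 24778659
    (rowB 3 eng mog cd0q0 cd0q1 pd1 0 true true true .pnn 0 1 1 (qsf 0 536870912 536870912 536870912 1) ndB0q0 ndB0q1 pcB1 cut_pp_011 Ext.none)

def k0_pp_011 : ∃ t, chk3 f_pp_011 t 1 1 1 = true :=
  ⟨(l 14), by decide +kernel⟩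

theorem c_pp_011 : CertB 0 536870912 536870912 536870912 966367641 24778659 3 eng mog cd0q0 cd0q1 pd1 true true true .pnn 0 1 1
    ndB0q0 ndB0q1 pcB1 cut_pp_011 Ext.none :=
  certB0 (fam := true) (s1 := true) (s2 := true) (a := 0) (b := 1) (c := 1) (cn := .pnn) (n1 := ndB0q0) (n2 := ndB0q1) (pc := pcB1) (cut := cut_pp_011) (xt := Ext.none) (P1 := 0) (W1 := 536870912) (P2 := 536870912) (W2 := 536870912) (P3 := 966367641) (W3 := 24778659) (N0 := 3) (En := eng) (mo := mog) (C1 := cd0q0) (C2 := cd0q1) (C3 := pd1)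
    rfl k0_pp_011

noncomputable def cut_pp_012 : Cut := Cut.of [[⟨3, 0, 0, 1449551462⟩], [⟨4, 0, 0, 2845415833⟩], [⟨0, 0, 0, 67108864⟩, ⟨1, 1, 0, 67108864⟩, ⟨2, 1, 0, 67108864⟩]]

noncomputable def f_pp_012 : ℕ → ℕ → ℕ → ℕ → Bool := onCell 0 536870912 536870912 536870912 966367641 24778659
    (rowB 3 eng mog cd0q0 cd0q1 pd2 0 true true true .pnp 0 1 2 (qsf 0 536870912 536870912 536870912 2) ndB0q0 ndB0q1 pcB2 cut_pp_012 Ext.none)

def k0_pp_012 : ∃ t, chk3 f_pp_012 t 1 1 1 = true :=
  ⟨(l 14), by decide +kernel⟩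

theorem c_pp_012 : CertB 0 536870912 536870912 536870912 966367641 24778659 3 eng mog cd0q0 cd0q1 pd2 true true true .pnp 0 1 2
    ndB0q0 ndB0q1 pcB2 cut_pp_012 Ext.none :=
  certB0 (fam := true) (s1 := true) (s2 := true) (a := 0) (b := 1) (c := 2) (cn := .pnp) (n1 := ndB0q0) (n2 := ndB0q1) (pc := pcB2) (cut := cut_pp_012) (xt := Ext.none) (P1 := 0) (W1 := 536870912) (P2 := 536870912) (W2 := 536870912) (P3 := 966367641) (W3 := 24778659) (N0 := 3) (En := eng) (mo := mog) (C1 := cd0q0) (C2 := cd0q1) (C3 := pd2)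
    rfl k0_pp_012

noncomputable def cut_pp_022 : Cut := Cut.of [[⟨3, 0, 0, 1449551462⟩], [⟨4, 0, 0, 2845415833⟩], [⟨0, 0, 0, 53687091⟩, ⟨1, 1, 0, 53687091⟩, ⟨2, 1, 0, 53687091⟩]]

noncomputable def f_pp_022 : ℕ → ℕ → ℕ → ℕ → Bool := onCell 0 536870912 0 536870912 966367641 24778659
    (rowB 3 eng mog cd0q0 cd0q2 pd2 0 true true true .pp 0 2 2 (qsf 0 536870912 0 536870912 2) ndB0q0 ndB0q2 pcB2 cut_pp_022 Ext.none)

def k0_pp_022 : ∃ t, chk3 f_pp_022 t 16 2 1 = true :=
  ⟨(a (b (c (a (b (b (l 16185280) (b (l 16130568) (l 16197064))) (b (l 16119144) (l 16129144))) (b (b (l 16200200) (b (l 16145792) (l 16232736))) (b (l 16174440) (l 16182672)))) (b (b (l 16228048) (b (l 16227576) (l 16272216))) (b (l 16249536) (l 16248032)))) (b (c (c (b (b (l 16210936) (l 16219792)) (a (l 16200296) (l 16249392))) (b (l 16268632) (a (l 16266424) (l 16296416)))) (b (l 16205576) (b (l 16290192) (l 16270640)))) (c (b (a (b (l 16175472) (a (l 16264792) (l 16277984))) (b (l 16224136) (c (l 16279664)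 (l 16316904)))) (b (a (c (l 16247992) (l 16300656)) (c (l 16273032) (l 16327256))) (a (c (b (l 16281248) (l 16289968)) (l 16292424)) (c (a (l 16303624) (l 16294896)) (l 16318040))))) (b (b (a (l 16341240) (l 16372528)) (a (l 16345224) (l 16375376))) (b (a (l 16329480) (l 16358512)) (a (c (l 16342256) (l 16372184)) (c (l 16369392) (l 16400872)))))))) (b (c (b (b (l 16129680) (a (b (l 16203272) (l 16268592)) (l 16177328))) (c (b (l 16254912) (l 16263344)) (l 16199544))) (b (b (l 16295728) (l 16248736)) (a (l 16284824) (l 16301440)))) (b (b (c (a (l 16204456) (l 16235688)) (l 16296368)) (c (c (a (l 16278040) (l 16306904)) (l 16279072)) (b (l 16336104) (l 16335560)))) (b (c (b (a (l 16252328) (l 16301728)) (c (c (l 16289048) (l 16329400)) (l 16338184))) (a (b (l 16383064) (l 16384904)) (l 16351984))) (c (c (b (a (l 16298736) (l 16324816)) (a (a (l 16307296) (l 16319824)) (b (l 16356104) (l 16342520)))) (b (a (l 16354416) (l 16381840)) (a (l 16365168) (l 16391688)))) (b (a (l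 16366976) (l 16396480)) (a (c (l 16396952) (l 16429880)) (c (l 16424784) (l 16459064))))))))), by decide +kernel⟩

def k1_pp_022 : ∃ t, chk3 f_pp_022 t 17 2 1 = true :=
  ⟨(c (b (b (b (a (b (l 16242784) (l 16208792)) (a (l 16281864) (l 16296720))) (a (b (l 16210792) (l 16252504)) (l 16279808))) (b (a (l 16189800) (l 16276776)) (a (a (l 16281000) (l 16313208)) (l 16276336)))) (c (b (a (b (l 16294440) (a (l 16335760) (l 16364384))) (b (l 16374480) (a (l 16392544) (l 16419992)))) (b (a (b (l 16342312) (a (l 16360120) (l 16386904))) (b (l 16396424) (l 16363328))) (a (b (a (l 16372008) (l 16398056)) (a (b (l 16381744) (l 16388712)) (l 16389552))) (b (a (l 16423712) (l 16448728)) (a (l 16435456) (l 16459768)))))) (b (b (a (l 16375296) (l 16415568)) (a (l 16360360) (l 16418608))) (a (b (b (l 16409360) (l 16394536)) (b (l 16349448) (a (l 16418248) (l 16444584)))) (b (l 16383776) (b (l 16433936) (a (l 16470352) (l 16495472)))))))) (b (a (b (b (l 16322216) (l 16342464)) (c (l 16382248)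 (l 16382360))) (b (b (l 16196592) (l 16290264)) (b (l 16317928) (l 16369456)))) (b (b (c (l 16333256) (l 16346248)) (a (l 16337344) (l 16418016))) (b (a (b (l 16376792) (l 16376448)) (b (l 16456704) (l 16433816))) (a (b (a (l 16425768) (l 16433440)) (a (l 16407192) (l 16435088))) (b (l 16433040) (a (l 16462168) (l 16488536)))))))), by decide +kernel⟩

def k2_pp_022 : ∃ t, chk3 f_pp_022 t 9 4 1 = true :=
  ⟨(a (a (b (c (b (c (l 16346392) (l 16445520)) (l 16344488)) (b (b (l 16222440) (l 16242208)) (l 16243160))) (c (b (l 16338712) (l 16335600)) (c (l 16365200) (l 16272704)))) (b (b (b (c (l 16360920) (l 16125104)) (c (l 16409504) (l 16280784))) (c (l 16405136) (l 16223208))) (b (c (l 16407864) (l 16238936)) (c (l 16410704) (l 16277888))))) (a (b (c (b (c (l 16440016) (l 16345120)) (l 16333640)) (b (c (l 16287560) (l 16183848)) (l 16147952))) (c (b (l 16381744) (l 16430864)) (b (l 16188816) (l 16231656)))) (b (c (c (b (l 16390928) (l 16458256)) (l 16226880)) (c (l 16171360)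 (l 16153704))) (b (c (a (l 16407368) (l 16392520)) (c (l 16336936) (l 16246680))) (c (l 16391672) (c (l 16379488) (l 16297216))))))), by decide +kernel⟩

def k3_pp_022 : ∃ t, chk3 f_pp_022 t 9 5 1 = true :=
  ⟨(b (a (a (c (b (c (l 16409168) (l 16515048)) (b (l 16380712) (l 16362944))) (b (l 16353200) (a (l 16457792) (l 16443832)))) (b (c (l 16387736) (l 16298392)) (c (a (l 16419744) (l 16464008)) (c (l 16498920) (l 16435760))))) (c (b (a (l 16438368) (c (l 16561000) (l 16493936))) (a (c (l 16509944) (l 16542296)) (c (l 16567064) (l 16529912)))) (c (a (b (l 16438920) (l 16439168)) (b (l 16423632) (l 16469000))) (b (a (l 16365568) (l 16350336)) (a (l 16417304) (l 16405504)))))) (b (a (a (c (c (b (l 16447472) (l 16434008)) (l 16456784)) (a (l 16476896) (l 16443752))) (c (b (l 16414648) (b (l 16438584) (l 16440952))) (b (l 16416984) (l 16418368)))) (c (a (b (l 16477392) (c (l 16520536) (l 16583984))) (c (l 16533656) (l 16524232))) (c (a (c (l 16516168) (l 16510744)) (l 16431112))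 (a (l 16407232) (b (l 16447520) (l 16475688)))))) (a (c (a (b (a (l 16430200) (l 16453800)) (c (a (l 16483256) (l 16505816)) (l 16468656))) (b (a (l 16476264) (l 16476480)) (a (b (l 16502248) (l 16485096)) (l 16482760)))) (b (a (l 16480624) (c (l 16568424) (l 16501392))) (a (a (l 16514104) (l 16538384)) (a (l 16529784) (l 16501760))))) (b (a (a (c (l 16517200) (l 16472816)) (c (l 16535456) (l 16468376))) (a (c (l 16573536) (l 16486208)) (c (l 16592232) (l 16484096)))) (a (c (a (l 16501912) (l 16519592)) (c (l 16556792) (l 16494496))) (l 14)))))), by decide +kernel⟩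

def k4_pp_022 : ∃ t, chk3 f_pp_022 t 20 2 1 = true :=
  ⟨(b (c (b (c (c (a (l 16404920) (l 16387456)) (b (l 16334192) (l 16386720))) (a (b (l 16333608) (l 16369328)) (b (l 16314480) (l 16353288)))) (c (b (b (l 16368880) (l 16384592)) (a (l 16519120) (l 16465944))) (a (b (l 16406280) (l 16444112)) (b (l 16393112) (l 16433648))))) (b (a (c (b (l 16231728) (l 16275128)) (b (l 16125656) (l 16177032))) (c (b (l 16212336) (l 16259248)) (b (l 16106056) (l 16161368)))) (b (a (c (l 16319688) (l 16229480)) (c (l 16307040) (l 16217432))) (a (c (l 16365512) (l 16283616)) (c (l 16355896) (l 16274920)))))) (a (b (c (b (c (l 16548984) (l 16482464)) (c (l 16578528) (l 16479248))) (b (c (l 16412760) (l 16340120)) (c (l 16461120) (l 16398520)))) (b (c (c (l 16566128) (c (l 16572368) (l 16547848))) (c (b (l 16497736) (l 16522248)) (b (l 16442888) (l 16472592)))) (b (a (c (l 16569016) (l 16462032)) (l 14)) (l 14)))) (b (c (c (b (l 16540080) (l 16550928)) (b (l 16474600) (l 16473888))) (b (c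 (l 16406016) (l 16334584)) (c (l 16457120) (l 16395968)))) (b (a (c (b (l 16551528) (l 16548640)) (b (l 16469408) (l 16497552))) (b (c (l 16539744) (l 16469824)) (l 14))) (l 14))))), by decide +kernel⟩

def k5_pp_022 : ∃ t, chk3 f_pp_022 t 21 2 1 = true :=
  ⟨(b (b (b (c (c (a (l 16418304) (l 16407680)) (a (l 16299880) (l 16289744))) (a (c (l 16197920) (l 16091880)) (c (l 16188336) (l 16061920)))) (c (a (c (l 16430880) (l 16341576)) (c (l 16422624) (l 16334176))) (c (a (l 16248120) (l 16241648)) (a (l 16150896) (l 16145416))))) (c (c (b (a (l 16465384) (l 16459296)) (a (l 16500112) (l 16496040))) (a (b (l 16384056) (l 16427048)) (b (l 16379152) (l 16424448)))) (b (c (a (l 16298928) (l 16295304)) (a (l 16210352) (l 16208072))) (c (a (l 16350560) (l 16349544)) (a (l 16270960) (l 16271608)))))) (a (b (c (c (b (l 16492408) (c (l 16560504) (l 16554960))) (b (l 16470320) (b (l 16502960) (l 16524808)))) (c (b (l 16403296) (l 16456984)) (b (l 16333528) (l 16397704)))) (b (b (c (c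 (l 16593776) (l 16546760)) (c (l 16497552) (l 16446312))) (l 14)) (l 14))) (b (c (c (b (l 16490200) (b (l 16558872) (l 16576712))) (b (l 16469864) (b (l 16503992) (l 16526840)))) (b (c (l 16404688) (l 16336880)) (c (l 16481584) (l 16424528)))) (l 14)))), by decide +kernel⟩

def k6_pp_022 : ∃ t, chk3 f_pp_022 t 22 2 1 = true :=
  ⟨(a (b (c (b (c (b (l 16390616) (l 16418280)) (b (l 16283968) (l 16330976))) (b (c (l 16457008) (l 16378320)) (c (l 16495648) (l 16425784)))) (b (c (b (l 16162440) (l 16239672)) (b (l 16057896) (l 16123744))) (b (c (l 16296000) (l 16210384)) (c (l 16352696) (l 16276672))))) (b (b (c (c (l 16491576) (l 16473208)) (c (l 16410104) (l 16344464))) (b (a (c (l 16492272) (l 16422744)) (c (l 16495016) (l 16427816))) (l 14))) (l 14))) (b (c (b (c (b (b (l 16367488) (l 16387528)) (l 16417784)) (b (l 16282432) (l 16331880))) (b (c (l 16458456) (l 16381448)) (c (l 16498888) (l 16430960)))) (b (c (b (a (l 16182672) (l 16183504)) (l 16221048)) (b (a (l 16078960)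 (l 16080432)) (l 16127600))) (b (c (l 16300880) (l 16217080)) (c (l 16359880) (l 16285952))))) (b (b (c (c (l 16454544) (l 16501232)) (c (l 16419408) (l 16377064))) (l 14)) (l 14)))), by decide +kernel⟩

def k7_pp_022 : ∃ t, chk3 f_pp_022 t 23 2 1 = true :=
  ⟨(b (b (c (c (a (b (l 16367568) (l 16420320)) (b (l 16370520) (l 16425168))) (a (b (b (l 16271440) (l 16297344)) (l 16336152)) (b (b (l 16275680) (l 16302728)) (l 16343152)))) (c (a (b (a (l 16185216) (l 16187768)) (l 16227104)) (b (a (l 16191128) (l 16174304)) (l 16257280))) (a (b (a (l 16082896) (l 16086312)) (l 16145984)) (b (b (a (l 16072024) (l 16076896)) (l 16112008)) (a (l 16164736) (l 16171336)))))) (c (c (b (a (l 16462832) (l 16469408)) (a (l 16504952) (l 16513120))) (a (b (l 16387816) (l 16439240)) (b (l 16396792) (l 16450008)))) (b (a (c (l 16309320) (l 16227656)) (c (l 16320760) (l 16241648))) (a (c (l 16370472) (l 16298936)) (c (l 16383936) (l 16320424)))))) (b (b (b (a (c (c (l 16535848) (l 16477568))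 (a (l 16381512) (l 16388944))) (a (c (l 16514848) (l 16397104)) (l 14))) (l 14)) (l 14)) (l 14))), by decide +kernel⟩

def k8_pp_022 : ∃ t, chk3 f_pp_022 t 16 24 1 = true :=
  ⟨(a (c (b (a (b (a (l 16284680) (l 16296584)) (c (c (l 16303384) (l 16314720)) (l 16332144))) (c (b (l 16301720) (l 16311072)) (a (l 16325552) (l 16338008)))) (a (c (b (a (l 16313848) (l 16324936)) (a (l 16324848) (l 16335704))) (a (l 16322376) (l 16336640))) (c (b (a (l 16336216) (l 16347672)) (a (l 16346760) (c (l 16352832) (l 16363200)))) (b (l 16343584) (l 16362704))))) (c (b (a (l 16353072) (l 16379112)) (a (a (l 16339328) (l 16351656)) (b (l 16388048) (l 16373856)))) (b (a (l 16378944) (l 16406448)) (a (b (l 16385808) (l 16391272)) (b (l 16412400) (l 16417248)))))) (c (b (a (c (b (l 16325840) (l 16339976)) (a (l 16350592) (l 16363280))) (b (c (l 16350416) (l 16400240)) (c (l 16358856) (l 16406696)))) (a (c (b (b (l 16341752) (l 16346600)) (b (l 16351584) (a (l 16371960) (l 16383408)))) (b (l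 16367992) (l 16391848))) (b (c (b (l 16365528) (l 16370144)) (l 16413728)) (c (a (l 16371496) (l 16383184)) (l 16421336))))) (c (b (a (l 16405584) (l 16432320)) (a (b (l 16413680) (l 16419896)) (b (l 16439576) (l 16445232)))) (b (a (l 16434264) (l 16462240)) (a (b (l 16439304) (l 16443536)) (b (l 16466368) (l 16469984))))))), by decide +kernel⟩

def k9_pp_022 : ∃ t, chk3 f_pp_022 t 17 24 1 = true :=
  ⟨(a (c (c (b (a (b (l 16375240) (l 16383248)) (b (l 16420960) (l 16428576))) (a (b (b (l 16389576) (l 16393968)) (c (l 16394960) (l 16427720))) (b (l 16436696) (b (l 16422120) (l 16426552))))) (b (a (b (l 16426176) (l 16432152)) (l 16433672)) (a (b (l 16438688) (l 16445808)) (b (l 16463568) (l 16470192))))) (c (b (a (l 16459136) (l 16485640)) (a (b (l 16465600) (l 16470712)) (b (l 16491424) (l 16495992)))) (b (a (l 16490224) (l 16496768)) (a (l 16452992) (l 16500448))))) (c (c (b (a (b (l 16445336) (l 16452584)) (b (l 16469112) (l 16475992))) (a (b (l 16460320) (l 16447584))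 (b (l 16483360) (l 16491216)))) (a (b (l 16479656) (b (l 16487992) (l 16494232))) (b (l 16504032) (l 16472760)))) (b (a (b (l 16484960) (l 16486920)) (l 16490520)) (a (b (l 16489456) (l 16471600)) (b (l 16514448) (l 16496192)))))), by decide +kernel⟩

def k10_pp_022 : ∃ t, chk3 f_pp_022 t 8 50 1 = true :=
  ⟨(b (a (a (a (c (a (c (c (l 16332104) (l 16340712)) (l 16353952)) (c (c (l 16342576) (l 16351496)) (l 16365216))) (c (l 16371600) (l 16397440))) (c (c (a (c (l 16353256) (l 16362472)) (c (l 16364112) (l 16373616))) (b (l 16359072) (l 16363832))) (c (l 16397000) (l 16422808)))) (c (a (c (a (c (l 16375128) (l 16384896)) (l 16370288)) (c (l 16379712) (l 16410968))) (c (a (l 16381656) (l 16393104)) (b (l 16406448) (l 16410688)))) (c (a (l 16421512) (l 16430544)) (a (l 16448472) (l 16474288))))) (a (c (c (a (a (l 16404608) (l 16416136)) (a (l 16427688) (l 16439200))) (a (b (l 16451464) (l 16455448)) (a (l 16471408) (l 16483320)))) (a (a (l 16439864) (l 16452520)) (a (l 16486136)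 (l 16498680)))) (a (c (c (a (l 16471608) (l 16482912)) (l 16501008)) (c (l 16525592) (l 16530080))) (l 14)))) (a (a (a (c (a (c (c (l 16344560) (l 16352376)) (l 16385368)) (c (c (l 16354816) (l 16362936)) (l 16354440))) (a (b (l 16366480) (l 16370600)) (b (l 16399480) (l 16403456)))) (c (c (a (c (l 16365272) (l 16373672)) (c (l 16375912) (l 16384584))) (a (l 16365616) (l 16376928))) (c (c (l 16384760) (l 16393968)) (b (l 16427424) (l 16430736))))) (a (c (c (a (c (l 16386696) (l 16395624)) (c (l 16397616) (l 16406784))) (a (l 16388368) (l 16399904))) (c (c (l 16408432) (l 16418184)) (c (l 16428112) (l 16459184)))) (c (c (a (c (l 16408632) (l 16418040)) (l 16407488)) (a (l 16411512) (l 16423176))) (c (c (l 16432368) (l 16442616)) (a (l 16472984) (l 16485592)))))) (a (a (c (a (c (l 16420064) (l 16434872)) (c (l 16426120) (l 16446584))) (c (a (l 16476640) (l 16488776)) (l 16483512))) (b (c (c (a (l 16455896) (l 16467256)) (l 16483120)) (a (l 16510696) (l 16502080))) (l 14)))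 (l 14)))), by decide +kernel⟩

def k11_pp_022 : ∃ t, chk3 f_pp_022 t 8 51 1 = true :=
  ⟨(b (a (a (a (c (c (a (c (l 16357536) (l 16364584)) (c (l 16367568) (l 16374904))) (a (c (l 16371776) (l 16379112)) (l 16365216))) (c (a (l 16369408) (l 16380768)) (a (l 16384936) (l 16396920)))) (c (c (b (a (l 16378496) (l 16389096)) (a (l 16384696) (l 16400424))) (a (l 16376136) (l 16389824))) (c (a (l 16392264) (l 16403864)) (a (l 16408992) (l 16421144))))) (a (c (c (a (c (l 16398784) (l 16406896)) (c (l 16409472) (l 16417816))) (a (l 16403624) (l 16414896))) (c (a (l 16415552) (l 16427312)) (a (l 16433352) (l 16466576)))) (c (c (a (c (l 16420272) (l 16428832)) (a (l 16411784) (l 16417288))) (a (l 16431488) (l 16442888))) (c (a (l 16439112) (l 16450952)) (a (l 16478856) (l 16491136)))))) (b (a (a (c (a (a (l 16429256) (l 16434912)) (l 14)) (c (l 16466904) (l 16508200))) (l 14)) (l 14)) (l 14))) (a (a (a (c (c (a (c (l 16371008) (l 16377320)) (c (l 16380824) (l 16387416))) (a (c (l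 16383760) (l 16390328)) (c (l 16394136) (l 16400984)))) (c (a (l 16384704) (l 16395792)) (a (l 16403864) (l 16415544)))) (a (c (c (c (l 16390848) (l 16397688)) (a (l 16405536) (l 16389936))) (c (l 16409624) (l 16427312))) (c (c (c (l 16401040) (l 16408128)) (a (l 16395336) (l 16400776))) (c (l 16424224) (l 16444400))))) (a (c (c (a (c (l 16421864) (l 16418696)) (c (b (l 16418696) (l 16425000)) (l 16429384))) (a (a (l 16406240) (l 16411720)) (a (l 16417232) (l 16422760)))) (c (a (l 16437920) (l 16450376)) (a (l 16456304) (l 16468240)))) (a (a (b (b (c (l 16416192) (l 16471000)) (l 14)) (l 14)) (l 14)) (l 14)))) (l 14))), by decide +kernel⟩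

def k12_pp_022 : ∃ t, chk3 f_pp_022 t 8 13 1 = true :=
  ⟨(a (b (a (b (b (a (c (c (a (c (l 16384960) (l 16390568)) (c (l 16394568) (l 16400440))) (a (c (l 16396296) (l 16402136)) (c (l 16406432) (l 16412544)))) (c (a (c (l 16408088) (l 16414168)) (a (l 16419216) (l 16403680))) (a (c (l 16420352) (l 16426664)) (a (l 16432016) (l 16416760))))) (a (c (c (c (l 16404376) (l 16410488)) (a (l 16396304) (l 16401552))) (c (a (l 16409152) (l 16414656)) (a (l 16422496) (l 16438736)))) (b (c (c (c (l 16410960) (l 16417496)) (l 16406568)) (c (l 16420408) (l 16434776))) (l 14)))) (a (a (a (c (c (l 16399512) (l 16409440)) (b (l 16411904) (l 16412136))) (b (c (l 16384896) (l 16417336)) (l 14))) (a (b (c (l 16391120) (l 16422784)) (l 14)) (l 14))) (l 14))) (l 14)) (l 14)) (l 14)) (l 14)), by decide +kernel⟩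

def k13_pp_022 : ∃ t, chk3 f_pp_022 t 9 6 1 = true :=
  ⟨(b (a (b (b (a (a (c (c (l 16474336) (l 16506648)) (l 16515352)) (c (b (l 16468088) (l 16473224)) (l 16537784))) (c (a (a (l 16486592) (l 16496872)) (a (l 16506824) (l 16516448))) (a (l 16530024) (l 16502824)))) (a (b (c (a (c (l 16505592) (l 16534832)) (c (l 16526936) (l 16556872))) (a (l 16517736) (l 16561832))) (l 14)) (l 14))) (l 14)) (l 14)) (l 14)), by decide +kernel⟩

def k14_pp_022 : ∃ t, chk3 f_pp_022 t 4 7 1 = true :=
  ⟨(l 14), by decide +kernel⟩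

def k15_pp_022 : ∃ t, chk3 f_pp_022 t 5 3 1 = true :=
  ⟨(l 14), by decide +kernel⟩

def k16_pp_022 : ∃ t, chk3 f_pp_022 t 6 8 1 = true :=
  ⟨(b (a (c (a (c (a (l 16365216) (l 16372448)) (a (a (l 16294544) (l 16298896)) (a (l 16303856) (l 16309392)))) (a (c (l 16402552) (a (l 16315496) (l 16322112))) (c (l 16413296) (a (l 16329184) (l 16336672))))) (b (a (a (a (c (l 16183576) (l 16082632)) (l 16139528)) (a (l 16146240) (l 16153696))) (a (a (l 16161872) (l 16170712)) (a (l 16180144) (l 16190120)))) (a (a (a (l 16169496) (l 16176096)) (a (l 16183440) (l 16191512))) (a (a (l 16200288) (l 16209720)) (a (l 16219704) (l 16230216)))))) (a (c (a (c (l 16425376) (a (l 16344552) (l 16352832))) (c (l 16438912) (a (l 16361592) (l 16370864)))) (a (c (a (l 16262984) (l 16273232)) (a (l 16177976) (l 16190256))) (c (a (l 16284048) (l 16295480)) (a (l 16203200) (l 16216848))))) (a (a (b (c (l 16400704) (l 16248576)) (c (l 16431064) (l 16290896))) (l 2)) (l 2)))) (a (c (a (a (c (l 16432160)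 (l 16352672)) (c (l 16441112) (l 16364552))) (a (c (l 16451904) (l 16368136)) (c (l 16464216) (a (l 16390408) (l 16398736))))) (a (a (c (a (l 16266112) (l 16272880)) (b (l 16163608) (l 16201984))) (c (a (l 16280328) (l 16288432)) (b (l 16181008) (l 16220568)))) (a (c (a (l 16297168) (l 16306496)) (a (l 16216216) (l 16227376))) (c (a (l 16316304) (l 16326568)) (a (l 16239104) (l 16251352)))))) (a (a (c (c (l 16477728) (a (l 16407424) (l 16416464))) (c (a (l 16337240) (l 16348336)) (a (l 16264080) (l 16277296)))) (b (c (a (l 16443232) (l 16451952)) (a (l 16305728) (l 16318864))) (l 14))) (l 14)))), by decide +kernel⟩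

def k17_pp_022 : ∃ t, chk3 f_pp_022 t 6 9 1 = true :=
  ⟨(a (b (a (c (a (c (l 16478040) (l 16408184)) (c (l 16488552) (l 16421816))) (a (c (l 16329768) (a (l 16254248) (l 16263616))) (c (a (l 16347424) (l 16356488)) (a (l 16273728) (l 16284560))))) (b (c (a (c (l 16488640) (l 16422952)) (c (l 16502040) (l 16440080))) (a (a (l 16313088) (l 16324064)) (a (l 16335560) (l 16347488)))) (a (a (c (l 16479200) (l 16349920)) (l 14)) (l 14)))) (a (a (c (c (l 16523232) (l 16463072)) (c (a (l 16395792) (l 16404488)) (a (l 16329368) (l 16339752)))) (a (b (c (l 16490864) (l 16364744)) (l 14)) (l 14))) (l 14))) (l 14)), by decide +kernel⟩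

def k18_pp_022 : ∃ t, chk3 f_pp_022 t 7 4 1 = true :=
  ⟨(l 2), by decide +kernel⟩

def k19_pp_022 : ∃ t, chk3 f_pp_022 t 3 5 1 = true :=
  ⟨(l 14), by decide +kernel⟩

def k20_pp_022 : ∃ t, chk3 f_pp_022 t 3 3 1 = true :=
  ⟨(l 14), by decide +kernel⟩

theorem s21_pp_022 : ∃ t, chk3 f_pp_022 t 6 4 1 = true := ex3_b k16_pp_022 k17_pp_022

theorem s22_pp_022 : ∃ t, chk3 f_pp_022 t 3 4 1 = true := ex3_a s21_pp_022 k18_pp_022

theorem s23_pp_022 : ∃ t, chk3 f_pp_022 t 3 2 1 = true := ex3_b s22_pp_022 k19_pp_022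

theorem s24_pp_022 : ∃ t, chk3 f_pp_022 t 3 1 1 = true := ex3_b s23_pp_022 k20_pp_022

theorem s25_pp_022 : ∃ t, chk3 f_pp_022 t 8 25 1 = true := ex3_b k10_pp_022 k11_pp_022

theorem s26_pp_022 : ∃ t, chk3 f_pp_022 t 8 24 1 = true := ex3_a k8_pp_022 k9_pp_022

theorem s27_pp_022 : ∃ t, chk3 f_pp_022 t 8 12 1 = true := ex3_b s26_pp_022 s25_pp_022

theorem s28_pp_022 : ∃ t, chk3 f_pp_022 t 8 6 1 = true := ex3_b s27_pp_022 k12_pp_022

theorem s29_pp_022 : ∃ t, chk3 f_pp_022 t 4 6 1 = true := ex3_a s28_pp_022 k13_pp_022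

theorem s30_pp_022 : ∃ t, chk3 f_pp_022 t 4 3 1 = true := ex3_b s29_pp_022 k14_pp_022

theorem s31_pp_022 : ∃ t, chk3 f_pp_022 t 2 3 1 = true := ex3_a s30_pp_022 k15_pp_022

theorem s32_pp_022 : ∃ t, chk3 f_pp_022 t 11 2 1 = true := ex3_a k6_pp_022 k7_pp_022

theorem s33_pp_022 : ∃ t, chk3 f_pp_022 t 10 2 1 = true := ex3_a k4_pp_022 k5_pp_022

theorem s34_pp_022 : ∃ t, chk3 f_pp_022 t 5 2 1 = true := ex3_a s33_pp_022 s32_pp_022

theorem s35_pp_022 : ∃ t, chk3 f_pp_022 t 9 2 1 = true := ex3_b k2_pp_022 k3_pp_022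

theorem s36_pp_022 : ∃ t, chk3 f_pp_022 t 8 2 1 = true := ex3_a k0_pp_022 k1_pp_022

theorem s37_pp_022 : ∃ t, chk3 f_pp_022 t 4 2 1 = true := ex3_a s36_pp_022 s35_pp_022

theorem s38_pp_022 : ∃ t, chk3 f_pp_022 t 2 2 1 = true := ex3_a s37_pp_022 s34_pp_022

theorem s39_pp_022 : ∃ t, chk3 f_pp_022 t 2 1 1 = true := ex3_b s38_pp_022 s31_pp_022

theorem s40_pp_022 : ∃ t, chk3 f_pp_022 t 1 1 1 = true := ex3_a s39_pp_022 s24_pp_022

theorem c_pp_022 : CertB 0 536870912 0 536870912 966367641 24778659 3 eng mog cd0q0 cd0q2 pd2 true true true .pp 0 2 2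
    ndB0q0 ndB0q2 pcB2 cut_pp_022 Ext.none :=
  certB0 (fam := true) (s1 := true) (s2 := true) (a := 0) (b := 2) (c := 2) (cn := .pp) (n1 := ndB0q0) (n2 := ndB0q2) (pc := pcB2) (cut := cut_pp_022) (xt := Ext.none) (P1 := 0) (W1 := 536870912) (P2 := 0) (W2 := 536870912) (P3 := 966367641) (W3 := 24778659) (N0 := 3) (En := eng) (mo := mog) (C1 := cd0q0) (C2 := cd0q2) (C3 := pd2)
    rfl s40_pp_022

noncomputable def cut_pp_023 : Cut := Cut.of [[⟨3, 0, 0, 1449551462⟩], [⟨4, 0, 0, 2845415833⟩]]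

noncomputable def f_pp_023 : ℕ → ℕ → ℕ → ℕ → Bool := onCell 1610612736 536870912 0 536870912 966367641 24778659
    (rowB 3 eng mog cd0q0 cd0q2 pd3 2 true true true .up 0 2 3 (qsf 0 536870912 0 536870912 3) ndB0q0 ndB0q2 pcB3 cut_pp_023 Ext.none)

def k0_pp_023 : ∃ t, chk3 f_pp_023 t 1 1 1 = true :=
  ⟨(a (b (a (a (b (b (b (a (c (a (a (l 16504136) (l 16523784)) (c (l 16593944) (l 16610480))) (c (a (l 16516024) (l 16524632)) (a (l 16413944) (l 16430392)))) (l 14)) (l 14)) (l 14)) (l 14)) (l 14)) (l 14)) (l 4)) (l 2)), by decide +kernel⟩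

theorem c_pp_023 : CertB 0 536870912 0 536870912 966367641 24778659 3 eng mog cd0q0 cd0q2 pd3 true true true .up 0 2 3
    ndB0q0 ndB0q2 pcB3 cut_pp_023 Ext.none :=
  certB2 (fam := true) (s1 := true) (s2 := true) (a := 0) (b := 2) (c := 3) (cn := .up) (n1 := ndB0q0) (n2 := ndB0q2) (pc := pcB3) (cut := cut_pp_023) (xt := Ext.none) (P1 := 0) (W1 := 536870912) (P2 := 0) (W2 := 536870912) (P3 := 966367641) (W3 := 24778659) (N0 := 3) (En := eng) (mo := mog) (C1 := cd0q0) (C2 := cd0q2) (C3 := pd3)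
    rfl (fun _ => rfl) k0_pp_023

noncomputable def cut_pp_101 : Cut := Cut.of [[⟨3, 0, 0, 1449551462⟩], [⟨4, 0, 0, 2845415833⟩]]

noncomputable def f_pp_101 : ℕ → ℕ → ℕ → ℕ → Bool := onCell 536870912 536870912 0 536870912 966367641 24778659
    (rowB 3 eng mog cd0q1 cd0q0 pd1 0 true true true .npn 1 0 1 (qsf 536870912 536870912 0 536870912 1) ndB0q1 ndB0q0 pcB1 cut_pp_101 Ext.none)

def k0_pp_101 : ∃ t, chk3 f_pp_101 t 1 1 1 = true :=
  ⟨(l 14), by decide +kernel⟩

theorem c_pp_101 : CertB 536870912 536870912 0 536870912 966367641 24778659 3 eng mog cd0q1 cd0q0 pd1 true true true .npn 1 0 1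
    ndB0q1 ndB0q0 pcB1 cut_pp_101 Ext.none :=
  certB0 (fam := true) (s1 := true) (s2 := true) (a := 1) (b := 0) (c := 1) (cn := .npn) (n1 := ndB0q1) (n2 := ndB0q0) (pc := pcB1) (cut := cut_pp_101) (xt := Ext.none) (P1 := 536870912) (W1 := 536870912) (P2 := 0) (W2 := 536870912) (P3 := 966367641) (W3 := 24778659) (N0 := 3) (En := eng) (mo := mog) (C1 := cd0q1) (C2 := cd0q0) (C3 := pd1)
    rfl k0_pp_101

noncomputable def cut_pp_102 : Cut := Cut.of [[⟨3, 0, 0, 1449551462⟩], [⟨4, 0, 0, 2845415833⟩]]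

noncomputable def f_pp_102 : ℕ → ℕ → ℕ → ℕ → Bool := onCell 536870912 536870912 0 536870912 966367641 24778659
    (rowB 3 eng mog cd0q1 cd0q0 pd2 0 true true true .npp 1 0 2 (qsf 536870912 536870912 0 536870912 2) ndB0q1 ndB0q0 pcB2 cut_pp_102 Ext.none)

def k0_pp_102 : ∃ t, chk3 f_pp_102 t 1 1 1 = true :=
  ⟨(l 14), by decide +kernel⟩

theorem c_pp_102 : CertB 536870912 536870912 0 536870912 966367641 24778659 3 eng mog cd0q1 cd0q0 pd2 true true true .npp 1 0 2
    ndB0q1 ndB0q0 pcB2 cut_pp_102 Ext.none :=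
  certB0 (fam := true) (s1 := true) (s2 := true) (a := 1) (b := 0) (c := 2) (cn := .npp) (n1 := ndB0q1) (n2 := ndB0q0) (pc := pcB2) (cut := cut_pp_102) (xt := Ext.none) (P1 := 536870912) (W1 := 536870912) (P2 := 0) (W2 := 536870912) (P3 := 966367641) (W3 := 24778659) (N0 := 3) (En := eng) (mo := mog) (C1 := cd0q1) (C2 := cd0q0) (C3 := pd2)
    rfl k0_pp_102

noncomputable def cut_pp_112 : Cut := Cut.of [[⟨3, 0, 0, 1449551462⟩], [⟨4, 0, 0, 2845415833⟩]]

noncomputable def f_pp_112 : ℕ → ℕ → ℕ → ℕ → Bool := onCell 536870912 536870912 536870912 536870912 966367641 24778659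
    (rowB 3 eng mog cd0q1 cd0q1 pd2 0 true true true .dn 1 1 2 (qsf 536870912 536870912 536870912 536870912 2) ndB0q1 ndB0q1 pcB2 cut_pp_112 Ext.none)

def k0_pp_112 : ∃ t, chk3 f_pp_112 t 1 1 1 = true :=
  ⟨(l 4), by decide +kernel⟩

theorem c_pp_112 : CertB 536870912 536870912 536870912 536870912 966367641 24778659 3 eng mog cd0q1 cd0q1 pd2 true true true .dn 1 1 2
    ndB0q1 ndB0q1 pcB2 cut_pp_112 Ext.none :=
  certB0 (fam := true) (s1 := true) (s2 := true) (a := 1) (b := 1) (c := 2) (cn := .dn) (n1 := ndB0q1) (n2 := ndB0q1) (pc := pcB2) (cut := cut_pp_112) (xt := Ext.none) (P1 := 536870912) (W1 := 536870912) (P2 := 536870912) (W2 := 536870912) (P3 := 966367641) (W3 := 24778659) (N0 := 3) (En := eng) (mo := mog) (C1 := cd0q1) (C2 := cd0q1) (C3 := pd2)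
    rfl k0_pp_112

noncomputable def cut_pp_113 : Cut := Cut.of [[⟨3, 0, 0, 1449551462⟩], [⟨4, 0, 0, 2845415833⟩]]

noncomputable def f_pp_113 : ℕ → ℕ → ℕ → ℕ → Bool := onCell 536870912 536870912 536870912 536870912 966367641 24778659
    (rowB 3 eng mog cd0q1 cd0q1 pd3 0 true true true .nn 1 1 3 (qsf 536870912 536870912 536870912 536870912 3) ndB0q1 ndB0q1 pcB3 cut_pp_113 Ext.none)

def k0_pp_113 : ∃ t, chk3 f_pp_113 t 1 1 1 = true :=
  ⟨(l 4), by decide +kernel⟩

theorem c_pp_113 : CertB 536870912 536870912 536870912 536870912 966367641 24778659 3 eng mog cd0q1 cd0q1 pd3 true true true .nn 1 1 3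
    ndB0q1 ndB0q1 pcB3 cut_pp_113 Ext.none :=
  certB0 (fam := true) (s1 := true) (s2 := true) (a := 1) (b := 1) (c := 3) (cn := .nn) (n1 := ndB0q1) (n2 := ndB0q1) (pc := pcB3) (cut := cut_pp_113) (xt := Ext.none) (P1 := 536870912) (W1 := 536870912) (P2 := 536870912) (W2 := 536870912) (P3 := 966367641) (W3 := 24778659) (N0 := 3) (En := eng) (mo := mog) (C1 := cd0q1) (C2 := cd0q1) (C3 := pd3)
    rfl k0_pp_113

noncomputable def cut_pp_123 : Cut := Cut.of [[⟨3, 0, 0, 1449551462⟩], [⟨4, 0, 0, 2845415833⟩]]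

noncomputable def f_pp_123 : ℕ → ℕ → ℕ → ℕ → Bool := onCell 536870912 536870912 0 536870912 966367641 24778659
    (rowB 3 eng mog cd0q1 cd0q2 pd3 0 true true true .npn 1 2 3 (qsf 536870912 536870912 0 536870912 3) ndB0q1 ndB0q2 pcB3 cut_pp_123 Ext.none)

def k0_pp_123 : ∃ t, chk3 f_pp_123 t 1 1 1 = true :=
  ⟨(a (l 14) (l 4)), by decide +kernel⟩

theorem c_pp_123 : CertB 536870912 536870912 0 536870912 966367641 24778659 3 eng mog cd0q1 cd0q2 pd3 true true true .npn 1 2 3
    ndB0q1 ndB0q2 pcB3 cut_pp_123 Ext.none :=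
  certB0 (fam := true) (s1 := true) (s2 := true) (a := 1) (b := 2) (c := 3) (cn := .npn) (n1 := ndB0q1) (n2 := ndB0q2) (pc := pcB3) (cut := cut_pp_123) (xt := Ext.none) (P1 := 536870912) (W1 := 536870912) (P2 := 0) (W2 := 536870912) (P3 := 966367641) (W3 := 24778659) (N0 := 3) (En := eng) (mo := mog) (C1 := cd0q1) (C2 := cd0q2) (C3 := pd3)
    rfl k0_pp_123

noncomputable def cut_pp_202 : Cut := Cut.of [[⟨3, 0, 0, 1449551462⟩], [⟨4, 0, 0, 2845415833⟩]]

noncomputable def f_pp_202 : ℕ → ℕ → ℕ → ℕ → Bool := onCell 0 536870912 0 536870912 966367641 24778659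
    (rowB 3 eng mog cd0q2 cd0q0 pd2 0 true true true .pp 2 0 2 (qsf 0 536870912 0 536870912 2) ndB0q2 ndB0q0 pcB2 cut_pp_202 Ext.none)

def k0_pp_202 : ∃ t, chk3 f_pp_202 t 1 1 1 = true :=
  ⟨(l 5), by decide +kernel⟩

theorem c_pp_202 : CertB 0 536870912 0 536870912 966367641 24778659 3 eng mog cd0q2 cd0q0 pd2 true true true .pp 2 0 2
    ndB0q2 ndB0q0 pcB2 cut_pp_202 Ext.none :=
  certB0 (fam := true) (s1 := true) (s2 := true) (a := 2) (b := 0) (c := 2) (cn := .pp) (n1 := ndB0q2) (n2 := ndB0q0) (pc := pcB2) (cut := cut_pp_202) (xt := Ext.none) (P1 := 0) (W1 := 536870912) (P2 := 0) (W2 := 536870912) (P3 := 966367641) (W3 := 24778659) (N0 := 3) (En := eng) (mo := mog) (C1 := cd0q2) (C2 := cd0q0) (C3 := pd2)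
    rfl k0_pp_202

noncomputable def cut_pp_203 : Cut := Cut.of [[⟨3, 0, 0, 1449551462⟩], [⟨4, 0, 0, 2845415833⟩]]

noncomputable def f_pp_203 : ℕ → ℕ → ℕ → ℕ → Bool := onCell 0 536870912 0 536870912 966367641 24778659
    (rowB 3 eng mog cd0q2 cd0q0 pd3 0 true true true .up 2 0 3 (qsf 0 536870912 0 536870912 3) ndB0q2 ndB0q0 pcB3 cut_pp_203 Ext.none)

def k0_pp_203 : ∃ t, chk3 f_pp_203 t 1 1 1 = true :=
  ⟨(l 5), by decide +kernel⟩

theorem c_pp_203 : CertB 0 536870912 0 536870912 966367641 24778659 3 eng mog cd0q2 cd0q0 pd3 true true true .up 2 0 3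
    ndB0q2 ndB0q0 pcB3 cut_pp_203 Ext.none :=
  certB0 (fam := true) (s1 := true) (s2 := true) (a := 2) (b := 0) (c := 3) (cn := .up) (n1 := ndB0q2) (n2 := ndB0q0) (pc := pcB3) (cut := cut_pp_203) (xt := Ext.none) (P1 := 0) (W1 := 536870912) (P2 := 0) (W2 := 536870912) (P3 := 966367641) (W3 := 24778659) (N0 := 3) (En := eng) (mo := mog) (C1 := cd0q2) (C2 := cd0q0) (C3 := pd3)
    rfl k0_pp_203

noncomputable def cut_pp_213 : Cut := Cut.of [[⟨3, 0, 0, 1449551462⟩], [⟨4, 0, 0, 2845415833⟩]]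

noncomputable def f_pp_213 : ℕ → ℕ → ℕ → ℕ → Bool := onCell 0 536870912 536870912 536870912 966367641 24778659
    (rowB 3 eng mog cd0q2 cd0q1 pd3 0 true true true .pnn 2 1 3 (qsf 0 536870912 536870912 536870912 3) ndB0q2 ndB0q1 pcB3 cut_pp_213 Ext.none)

def k0_pp_213 : ∃ t, chk3 f_pp_213 t 1 1 1 = true :=
  ⟨(a (l 5) (l 4)), by decide +kernel⟩

theorem c_pp_213 : CertB 0 536870912 536870912 536870912 966367641 24778659 3 eng mog cd0q2 cd0q1 pd3 true true true .pnn 2 1 3
    ndB0q2 ndB0q1 pcB3 cut_pp_213 Ext.none :=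
  certB0 (fam := true) (s1 := true) (s2 := true) (a := 2) (b := 1) (c := 3) (cn := .pnn) (n1 := ndB0q2) (n2 := ndB0q1) (pc := pcB3) (cut := cut_pp_213) (xt := Ext.none) (P1 := 0) (W1 := 536870912) (P2 := 536870912) (W2 := 536870912) (P3 := 966367641) (W3 := 24778659) (N0 := 3) (En := eng) (mo := mog) (C1 := cd0q2) (C2 := cd0q1) (C3 := pd3)
    rfl k0_pp_213

noncomputable def cut_pm_001 : Cut := Cut.of [[⟨3, 0, 0, 1449551462⟩], [⟨4, 0, 0, 2845415833⟩]]

noncomputable def f_pm_001 : ℕ → ℕ → ℕ → ℕ → Bool := onCell 0 536870912 0 536870912 966367641 24778659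
    (rowB 3 eng mog cd0q0 cd0q0 pd1 0 true true false .up 0 0 1 (qsf 0 536870912 0 536870912 1) ndB0q0 ndB0q0 pcB1 cut_pm_001 Ext.none)

def k0_pm_001 : ∃ t, chk3 f_pm_001 t 1 1 1 = true :=
  ⟨(l 3), by decide +kernel⟩

theorem c_pm_001 : CertB 0 536870912 0 536870912 966367641 24778659 3 eng mog cd0q0 cd0q0 pd1 true true false .up 0 0 1
    ndB0q0 ndB0q0 pcB1 cut_pm_001 Ext.none :=
  certB0 (fam := true) (s1 := true) (s2 := false) (a := 0) (b := 0) (c := 1) (cn := .up) (n1 := ndB0q0) (n2 := ndB0q0) (pc := pcB1) (cut := cut_pm_001) (xt := Ext.none) (P1 := 0) (W1 := 536870912) (P2 := 0) (W2 := 536870912) (P3 := 966367641) (W3 := 24778659) (N0 := 3) (En := eng) (mo := mog) (C1 := cd0q0) (C2 := cd0q0) (C3 := pd1)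
    rfl k0_pm_001

noncomputable def cut_pm_011 : Cut := Cut.of [[⟨3, 0, 0, 1449551462⟩], [⟨4, 0, 0, 2845415833⟩], [⟨0, 0, 0, 67108864⟩, ⟨1, 1, 0, 67108864⟩, ⟨2, 1, 0, 67108864⟩]]

noncomputable def f_pm_011 : ℕ → ℕ → ℕ → ℕ → Bool := onCell 0 536870912 536870912 536870912 966367641 24778659
    (rowB 3 eng mog cd0q0 cd0q1 pd1 1 true true false .pnn 0 1 1 (qsf 0 536870912 536870912 536870912 1) ndB0q0 ndB0q1 pcB1 cut_pm_011 Ext.none)

def k0_pm_011 : ∃ t, chk3 f_pm_011 t 1 1 1 = true :=
  ⟨(l 6), by decide +kernel⟩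

theorem c_pm_011 : CertB 0 536870912 536870912 536870912 966367641 24778659 3 eng mog cd0q0 cd0q1 pd1 true true false .pnn 0 1 1
    ndB0q0 ndB0q1 pcB1 cut_pm_011 Ext.none :=
  certB1 (fam := true) (s1 := true) (s2 := false) (a := 0) (b := 1) (c := 1) (cn := .pnn) (n1 := ndB0q0) (n2 := ndB0q1) (pc := pcB1) (cut := cut_pm_011) (xt := Ext.none) (P1 := 0) (W1 := 536870912) (P2 := 536870912) (W2 := 536870912) (P3 := 966367641) (W3 := 24778659) (N0 := 3) (En := eng) (mo := mog) (C1 := cd0q0) (C2 := cd0q1) (C3 := pd1)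
    rfl (fun _ => rfl) k0_pm_011

noncomputable def cut_pm_012 : Cut := Cut.of [[⟨3, 0, 0, 1449551462⟩], [⟨4, 0, 0, 2845415833⟩], [⟨0, 0, 0, 33554432⟩, ⟨1, 1, 0, 33554432⟩, ⟨2, 1, 0, 33554432⟩]]

noncomputable def f_pm_012 : ℕ → ℕ → ℕ → ℕ → Bool := onCell 0 536870912 536870912 536870912 966367641 24778659
    (rowB 3 eng mog cd0q0 cd0q1 pd2 0 true true false .pnp 0 1 2 (qsf 0 536870912 536870912 536870912 2) ndB0q0 ndB0q1 pcB2 cut_pm_012 Ext.none)

def k0_pm_012 : ∃ t, chk3 f_pm_012 t 1 2 1 = true :=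
  ⟨(l 6), by decide +kernel⟩

def k1_pm_012 : ∃ t, chk3 f_pm_012 t 2 3 1 = true :=
  ⟨(b (l 6) (a (l 6) (b (l 6) (a (l 6) (b (l 6) (a (l 6) (b (l 6) (c (a (l 16293192) (l 16272024)) (l 16274376))))))))), by decide +kernel⟩

def k2_pm_012 : ∃ t, chk3 f_pm_012 t 3 6 1 = true :=
  ⟨(a (l 6) (b (l 6) (a (b (l 6) (a (l 6) (b (l 6) (a (l 6) (l 16435784))))) (b (a (l 6) (b (a (l 6) (a (l 16454776) (l 16443992))) (a (c (l 16465000) (l 16456248)) (c (l 16443552) (l 16436600))))) (a (b (a (l 16448648) (l 16427760)) (a (l 16414880) (l 16394456))) (b (a (l 16407288) (l 16387200)) (c (l 16390016) (l 16381520)))))))), by decide +kernel⟩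

def k3_pm_012 : ∃ t, chk3 f_pm_012 t 3 7 1 = true :=
  ⟨(a (b (a (l 6) (b (l 6) (a (b (l 6) (a (l 6) (l 16417696))) (b (a (l 16444880) (l 16422496)) (l 16321240))))) (a (b (a (b (l 6) (a (l 6) (c (l 16370832) (l 16412264)))) (b (a (l 6) (l 16346208)) (a (l 16285296) (l 16347144)))) (c (a (b (l 16332064) (l 16241760)) (b (l 16270560) (l 16202512))) (a (b (l 16358176) (l 16294200)) (b (l 16313552) (l 16250824))))) (b (a (b (c (l 16361568) (l 16388936)) (c (l 16297904) (l 16330472))) (b (l 16288624) (l 16207632))) (a (b (c (l 16230008) (l 16267288)) (c (l 16163240) (l 16205768))) (b (c (l 16191064) (l 16222216)) (c (l 16125576) (l 16161872))))))) (b (a (b (a (b (c (l 16476752) (l 16472864)) (l 16392640)) (b (c (l 16435680) (l 16427912)) (c (l 16395216) (l 16390208)))) (a (b (l 16390232) (l 16341736)) (c (l 16240976) (l 16243264)))) (b (a (b (c (l 16395568) (l 16386272)) (c (l 16356144) (l 16349448))) (b (c (l 16355760) (l 16348040)) (c (l 16317424) (l 16312096)))) (a (b (l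 16310224) (l 16263760)) (b (l 16278376) (l 16227696))))) (b (a (a (b (l 16247264) (l 16125424)) (b (a (l 16259688) (l 16240736)) (a (l 16201576) (l 16183168)))) (a (b (l 16150408) (c (l 16150024) (l 16164064))) (b (c (l 16173768) (l 16183808)) (c (l 16116048) (l 16130400))))) (a (a (b (c (l 16154736) (l 16180264)) (c (l 16090528) (l 16121056))) (b (a (l 16139128) (l 16121288)) (a (l 16078240) (l 16040024)))) (a (b (c (l 16087040) (l 16105144)) (a (l 16023312) (l 16007096))) (b (a (l 16070800) (l 16033904)) (a (l 15991336) (l 15934080)))))))), by decide +kernel⟩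

theorem s4_pm_012 : ∃ t, chk3 f_pm_012 t 3 3 1 = true := ex3_b k2_pm_012 k3_pm_012

theorem s5_pm_012 : ∃ t, chk3 f_pm_012 t 1 3 1 = true := ex3_a k1_pm_012 s4_pm_012

theorem s6_pm_012 : ∃ t, chk3 f_pm_012 t 1 1 1 = true := ex3_b k0_pm_012 s5_pm_012

theorem c_pm_012 : CertB 0 536870912 536870912 536870912 966367641 24778659 3 eng mog cd0q0 cd0q1 pd2 true true false .pnp 0 1 2
    ndB0q0 ndB0q1 pcB2 cut_pm_012 Ext.none :=
  certB0 (fam := true) (s1 := true) (s2 := false) (a := 0) (b := 1) (c := 2) (cn := .pnp) (n1 := ndB0q0) (n2 := ndB0q1) (pc := pcB2) (cut := cut_pm_012) (xt := Ext.none) (P1 := 0) (W1 := 536870912) (P2 := 536870912) (W2 := 536870912) (P3 := 966367641) (W3 := 24778659) (N0 := 3) (En := eng) (mo := mog) (C1 := cd0q0) (C2 := cd0q1) (C3 := pd2)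
    rfl s6_pm_012

noncomputable def cut_pm_022 : Cut := Cut.of [[⟨3, 0, 0, 1449551462⟩], [⟨4, 0, 0, 2845415833⟩], [⟨0, 0, 0, 53687091⟩, ⟨1, 1, 0, 53687091⟩, ⟨2, 1, 0, 53687091⟩]]

noncomputable def f_pm_022 : ℕ → ℕ → ℕ → ℕ → Bool := onCell 1073741824 536870912 0 536870912 966367641 24778659
    (rowB 3 eng mog cd0q0 cd0q2 pd2 2 true true false .pp 0 2 2 (qsf 0 536870912 0 536870912 2) ndB0q0 ndB0q2 pcB2 cut_pm_022 Ext.none)

def k0_pm_022 : ∃ t, chk3 f_pm_022 t 4 1 1 = true :=
  ⟨(b (b (l 1) (a (l 1) (a (l 1) (b (l 1) (a (l 1) (b (l 1) (c (a (l 1) (l 16155664)) (l 16116664)))))))) (b (a (l 1) (b (a (l 1) (b (a (c (a (l 1) (l 16157928)) (l 16110864)) (c (a (l 16179184) (l 16201864)) (l 16157968))) (a (c (c (a (l 16196648) (l 16216296)) (l 16175544)) (c (l 16165688) (l 16155704))) (c (c (l 16227208) (l 16218848)) (c (l 16210384) (l 16222784)))))) (a (b (b (a (l 1) (a (l 1) (c (l 16218872) (l 16194784)))) (l 6)) (l 6)) (b (a (c (a (b (l 16237616) (l 16272000)) (l 16270760))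 (b (l 16203544) (l 16235456))) (c (b (l 16268672) (l 16323328)) (a (l 16272272) (l 16294344)))) (b (a (a (l 6) (l 16315656)) (c (l 16360280) (l 16331272))) (a (l 6) (c (l 16400952) (l 16367304)))))))) (l 6))), by decide +kernel⟩

def k1_pm_022 : ∃ t, chk3 f_pm_022 t 5 2 1 = true :=
  ⟨(a (b (a (a (l 1) (b (a (l 1) (c (b (l 16149280) (l 16146072)) (l 16198792))) (c (b (b (l 16131784) (l 16134920)) (l 16142584)) (b (l 16196624) (l 16190144))))) (a (b (c (b (c (l 16173456) (l 16227784)) (l 16132584)) (c (l 16254240) (l 16265984))) (c (b (l 16154896) (l 16204288)) (b (l 16272904) (l 16263544)))) (b (c (b (l 16166744) (l 16201552)) (l 16217912)) (c (b (l 16242704) (l 16269056)) (l 16220160))))) (a (b (a (b (c (l 16081168) (l 16125848)) (c (l 16103568) (l 16139008))) (c (b (l 16157608) (l 16179144)) (b (l 16192136) (l 16202904)))) (b (a (c (l 16133328) (l 16160984)) (c (l 16207944) (l 16222304))) (a (c (l 16171312) (l 16192064)) (c (l 16244672) (l 16250408))))) (b (c (a (b (l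 16217760) (l 16237704)) (b (l 16280432) (l 16298120))) (a (b (l 16262640) (l 16270336)) (l 16253456))) (a (b (c (l 16264704) (l 16286344)) (c (l 16299168) (l 16310472))) (b (l 16231624) (l 16278248)))))) (b (c (a (b (c (b (l 16177864) (l 16234952)) (b (l 16290592) (l 16295920))) (a (b (l 16289880) (l 16334792)) (l 16273952))) (b (a (c (l 16359128) (l 16463208)) (c (l 16442224) (l 16373872))) (c (l 16312888) (l 16371880)))) (a (b (b (l 16211280) (l 16265616)) (b (l 16261696) (l 16264880))) (b (c (b (l 16259240) (l 16290832)) (b (l 16169264) (l 16234352))) (c (l 16273176) (b (l 16297648) (l 16359472)))))) (a (b (b (a (l 16207256) (l 16294720)) (c (a (l 16358392) (l 16416776)) (l 16315584))) (b (a (l 16313112) (l 16371232)) (a (l 16355136) (l 16428768)))) (b (c (c (l 16350136) (l 16429584)) (c (l 16407952) (l 16306576))) (b (b (l 16341736) (l 16366256)) (a (l 16517952) (l 16526152))))))), by decide +kernel⟩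

def k2_pm_022 : ∃ t, chk3 f_pm_022 t 5 3 1 = true :=
  ⟨(b (a (b (a (b (a (c (l 16216952) (l 16230976)) (c (l 16288520) (l 16285656))) (a (c (l 16290384) (l 16276048)) (c (l 16338448) (l 16326472)))) (a (b (l 16277736) (l 16297816)) (b (l 16351648) (l 16387248)))) (a (b (a (c (b (l 16334448) (l 16366696)) (l 16328008)) (c (l 16394952) (l 16373576))) (a (c (b (l 16401800) (l 16440112)) (l 16305216)) (c (l 16439232) (l 16428008)))) (b (a (c (l 16437944) (l 16417944)) (l 16363408)) (a (c (l 16475832) (l 16464688)) (c (l 16529344) (l 16495880)))))) (b (a (b (a (l 16402256) (l 16490056)) (a (l 16451848) (l 16511952))) (b (a (l 16531464) (l 16534760)) (l 16473712))) (c (a (b (l 16446512) (l 16550040)) (b (l 16550240) (l 16533560))) (a (b (a (l 16495304) (l 16526512)) (l 16492616)) (b (l 16566768) (l 16568728)))))) (a (b (a (b (a (b (a (l 16452656) (l 16470144)) (l 6)) (c (l 16481648) (l 16448704))) (a (l 6) (a (l 6) (a (l 6) (c (l 16549696) (l 16444488)))))) (b (a (b (l 16440680)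 (l 16492688)) (c (l 16588592) (l 16517040))) (b (a (l 16463304) (l 16498432)) (l 16437768)))) (a (l 6) (b (a (l 6) (b (l 16443432) (l 6))) (l 6)))) (b (b (a (a (l 16477888) (l 16467536)) (a (l 16439120) (l 16392032))) (a (b (a (l 16447144) (l 16419136)) (l 16379080)) (b (a (l 16393392) (l 16369840)) (l 16330992)))) (b (b (a (l 16306776) (c (l 16402400) (l 16474616))) (a (c (l 16365872) (l 16431752)) (a (l 16341584) (l 16320656)))) (b (a (a (l 16300808) (l 16296784)) (a (l 16274416) (l 16316648))) (a (a (l 6) (c (l 16304136) (l 16364152))) (a (c (l 16281792) (l 16342024)) (l 16248576)))))))), by decide +kernel⟩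

def k3_pm_022 : ∃ t, chk3 f_pm_022 t 12 2 1 = true :=
  ⟨(b (b (a (c (b (a (c (l 16452776) (l 16361504)) (b (c (l 16374880) (l 16338832)) (l 16248312))) (c (l 16339464) (l 16257872))) (a (b (c (l 16286792) (l 16187048)) (l 16236344)) (b (b (a (l 16191272) (l 16170648)) (l 16199280)) (l 16168280)))) (a (c (b (b (c (c (l 16434616) (l 16384864)) (l 16307824)) (c (l 16409056) (l 16310392))) (c (l 16416640) (l 16327880))) (b (b (c (l 16200952) (l 16068744)) (l 16195800)) (c (l 16234960) (l 16138192)))) (c (b (c (b (l 16387736) (a (l 16386752) (l 16373736))) (b (l 16284232) (l 16287720))) (c (l 16387592) (l 16294088))) (b (b (a (l 16125088) (l 16115344)) (c (l 16169280) (l 16036008))) (c (l 16196256) (l 16094440)))))) (a (a (c (c (l 16495376) (l 16434272)) (c (l 16349280) (l 16303464))) (c (c (l 16461824) (l 16375624)) (b (l 16272952) (l 16312696)))) (c (b (c (l 16327800) (l 16270976)) (c (l 16400240) (l 16356112))) (b (c (l 16252464) (l 16167672)) (c (l 16288008) (l 16217064))))))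 (b (a (a (b (l 16333848) (l 16417496)) (c (l 16435712) (l 16282048))) (c (c (l 16351160) (l 16302888)) (c (l 16273424) (l 16178960)))) (a (c (b (l 16488216) (l 16494032)) (b (l 16429496) (l 16453256))) (c (b (l 16408432) (l 16437816)) (b (l 16359768) (l 16387648)))))), by decide +kernel⟩

def k4_pm_022 : ∃ t, chk3 f_pm_022 t 26 2 1 = true :=
  ⟨(b (b (a (c (b (c (b (l 16371304) (a (l 16362440) (l 16352848))) (b (l 16267656) (a (l 16235520) (l 16224808)))) (c (b (l 16358640) (l 16364120)) (l 16273656))) (b (b (a (l 16107056) (l 16100056)) (a (b (l 16087688) (l 16087680)) (b (l 16079328) (l 16092744)))) (c (l 16160440) (l 16053584)))) (a (b (c (c (b (l 16361816) (l 16344960)) (b (l 16258304) (l 16216304))) (b (l 16094336) (a (l 16097168) (l 16085528)))) (c (c (l 16356744) (l 16236624)) (c (l 16114480) (l 16003840)))) (b (c (c (l 16347824) (l 16221312)) (b (l 16089856) (l 16081392))) (c (b (c (l 16325008) (b (l 16220064) (l 16225312))) (l 16316080)) (b (b (b (l 16055728) (l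 16048320)) (l 16057488)) (l 16075760)))))) (c (b (c (a (l 16372064) (l 16349296)) (a (l 16287768) (l 16260616))) (c (l 16287264) (l 16298136))) (b (c (a (l 16199592) (l 16167880)) (a (l 16107840) (l 16071400))) (c (l 16221776) (l 16142288))))) (b (c (b (c (l 16382016) (l 16321224)) (l 16284240)) (b (c (l 16257680) (l 16191520)) (l 16243200))) (b (c (l 16381744) (l 16299568)) (c (l 16392632) (l 16331024))))), by decide +kernel⟩

def k5_pm_022 : ∃ t, chk3 f_pm_022 t 54 2 1 = true :=
  ⟨(b (b (c (b (c (b (l 16351240) (l 16332360)) (a (l 16217264) (l 16214320))) (b (c (b (a (l 16321584) (l 16316408)) (a (l 16321104) (l 16312080))) (b (a (l 16232144) (l 16205584)) (a (l 16212712) (b (l 16200216) (l 16202520))))) (c (l 16320752) (l 16195688)))) (b (c (a (l 16107176) (l 16104544)) (b (l 16029040) (l 16043016))) (b (a (b (c (l 16127240) (l 16017808)) (l 16041088)) (b (a (l 16036136) (l 16029296)) (b (a (l 16026360) (l 16016592)) (l 16028520)))) (a (l 16080568) (c (l 16100816) (l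 15986400)))))) (c (b (c (l 16329560) (l 16215432)) (b (l 16297408) (l 16306608))) (b (c (l 16118008) (l 16016664)) (b (l 16124704) (l 16147800))))) (b (c (b (l 16320176) (l 16337272)) (b (l 16180976) (l 16222168))) (b (l 16202256) (l 16329704)))), by decide +kernel⟩

def k6_pm_022 : ∃ t, chk3 f_pm_022 t 55 2 1 = true :=
  ⟨(b (b (a (b (c (c (l 16338096) (l 16222960)) (b (l 16099384) (c (l 16109328) (l 15993056)))) (c (b (b (c (l 16313408) (l 16202816)) (c (l 16287240) (b (l 16193936) (l 16192096)))) (c (l 16307536) (l 16199872))) (c (b (b (l 16087216) (b (l 16076552) (l 16095904))) (l 16087312)) (b (b (l 15967072) (b (l 15954568) (l 15974160))) (l 15970304))))) (b (c (c (l 16336736) (l 16216816)) (b (c (l 16138656) (l 16028016)) (c (l 16108512) (l 15992656)))) (a (c (b (c (l 16286008) (b (l 16201448) (l 16189392))) (c (l 16301432) (l 16191984))) (b (b (l 16047656) (c (l 16071616) (l 15949232))) (c (l 16077560) (l 15958616)))) (b (c (c (l 16305840) (l 16194456)) (c (l 16078008)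 (l 15956976))) (c (b (c (l 16296144) (l 16183752)) (l 16245312)) (b (c (l 16066256) (l 15965104)) (l 16018008))))))) (b (c (c (b (l 16288464) (l 16315352)) (b (a (l 16213280) (l 16202976)) (l 16221344))) (b (a (l 16054440) (c (l 16095728) (l 15984184))) (a (l 16079256) (l 16065544)))) (c (b (l 16278536) (l 16288024)) (b (l 16096760) (l 16120424))))) (b (b (c (l 16301992) (l 16154448)) (c (l 16319592) (l 16196720))) (b (l 16118552) (l 16309584)))), by decide +kernel⟩

def k7_pm_022 : ∃ t, chk3 f_pm_022 t 14 8 2 = true :=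
  ⟨(a (b (c (a (b (l 16325544) (l 16304440)) (b (l 16327200) (l 16305064))) (a (a (l 16218016) (b (l 16246248) (l 16219880))) (b (l 16207080) (a (l 16220936) (l 16222704))))) (c (b (a (b (l 16288608) (l 16278032)) (a (l 16303728) (l 16304120))) (a (b (a (b (l 16260936) (l 16291120)) (b (l 16290536) (l 16254704))) (a (l 16293320) (l 16244120))) (b (a (l 16287248) (l 16287256)) (a (b (l 16246280) (l 16279912)) (b (l 16278800) (a (l 16275504) (l 16273864))))))) (a (b (a (c (l 16221992) (l 16165152)) (l 16151496)) (b (a (b (a (l 16179088) (l 16177384)) (a (l 16180144) (l 16175496))) (b (l 16176848) (a (l 16172200) (l 16170400)))) (a (l 16182840) (a (l 16175632) (l 16171000))))) (b (a (c (l 16221848) (l 16165616)) (c (l 16222824) (l 16166976))) (b (a (l 16173520) (l 16174232)) (a (b (a (b (l 16165656) (l 16165552)) (b (l 16165056) (l 16162560))) (l 16144904)) (b (l 16163784) (a (b (l 16159616) (l 16160136)) (b (l 16158752) (l 16156808)))))))))) (c (a (b (b (l 16331144) (l 16308000))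 (b (a (l 16305096) (l 16306616)) (a (b (l 16287848) (l 16234384)) (l 16241168)))) (b (a (l 16323544) (l 16326824)) (b (l 16278448) (a (l 16242728) (l 16286760))))) (a (b (b (l 16213104) (l 16190256)) (a (b (l 16173976) (b (l 16175648) (a (l 16140104) (l 16161800)))) (b (l 16199432) (c (l 16199152) (l 16141472))))) (b (b (l 16221640) (l 16192112)) (a (b (l 16202584) (c (l 16201488) (l 16144312))) (b (l 16206360) (c (l 16204416) (l 16147808)))))))), by decide +kernel⟩

def k8_pm_022 : ∃ t, chk3 f_pm_022 t 14 9 2 = true :=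
  ⟨(a (b (c (a (b (l 16273280) (l 16300304)) (b (a (l 16283784) (l 16240544)) (l 16286608))) (a (b (a (l 16193096) (l 16183624)) (l 16201896)) (b (a (b (l 16171080) (l 16177992)) (b (l 16141384) (l 16169312))) (a (l 16188272) (l 16179664))))) (a (b (l 16282392) (l 16271080)) (b (a (l 16249528) (l 16242040)) (l 16255552)))) (a (b (b (b (a (c (b (a (l 16270528) (l 16268816)) (l 16270248)) (b (a (b (l 16154136) (l 16155168)) (b (l 16152936) (l 16151592))) (l 16155744))) (c (b (l 16247456) (a (l 16265936) (l 16264136))) (b (a (l 16151952) (l 16152768)) (a (l 16149944) (b (l 16147632) (l 16146888)))))) (c (a (l 16272568) (l 16266656)) (a (l 16160992) (l 16153008)))) (c (l 16232264) (a (l 16171400) (l 16163472)))) (b (a (l 16234872) (l 16228008)) (l 16241296))) (b (b (b (a (c (l 16224760) (a (b (l 16153888) (l 16125848)) (l 16151416))) (c (l 16268296) (l 16153568))) (a (c (c (l 16289424) (l 16233184)) (b (a (l 16145560) (b (l 16142808) (l 16142656))) (l 16147112))) (b (a (c (l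 16259048) (l 16121136)) (c (l 16259480) (l 16142888))) (c (l 16256944) (a (l 16141584) (l 16138888)))))) (c (a (l 16265664) (l 16260320)) (a (l 16155856) (l 16129216)))) (b (c (l 16269192) (l 16166024)) (l 16228184))))), by decide +kernel⟩

def k9_pm_022 : ∃ t, chk3 f_pm_022 t 14 16 3 = true :=
  ⟨(a (a (b (a (c (l 16139480) (l 16029472)) (c (l 16141168) (l 16031904))) (a (c (l 16108608) (l 15993288)) (c (l 16109584) (l 15994912)))) (b (a (c (l 16143680) (l 16035280)) (c (l 16146992) (l 16039576))) (a (c (l 16111400) (l 15997504)) (c (l 16114032) (l 16001032))))) (a (b (a (c (l 16151072) (l 16044752)) (c (l 16155904) (l 16050784))) (a (c (l 16117456) (l 16005456)) (c (l 16121640) (l 16010752)))) (c (b (a (l 16161456) (l 16167704)) (a (l 16126552) (l 16132184))) (b (a (l 16057648) (l 16065320)) (a (l 16016896) (l 16023864)))))), by decide +kernel⟩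

def k10_pm_022 : ∃ t, chk3 f_pm_022 t 14 17 3 = true :=
  ⟨(a (b (a (a (c (c (l 16107088) (l 16047856)) (b (l 15966048) (l 15947816))) (c (c (l 16107208) (l 16048256)) (b (l 15967064) (l 15948424)))) (a (c (c (l 16108160) (l 16049544)) (c (l 15989808) (l 15929016))) (c (c (l 16109912) (l 16051688)) (c (l 15992360) (l 15931960))))) (a (b (a (b (a (c (l 16060024) (l 15957264)) (c (l 16058144) (l 15934224))) (a (c (l 16062272) (l 15939760)) (c (l 16056496) (l 15932808)))) (b (c (l 16057968) (l 15934408)) (a (c (b (l 16052344) (l 16051816)) (b (l 15927704) (l 15927376))) (c (l 16050408) (b (l 15927568) (l 15923608)))))) (a (c (l 16067312) (l 15947208)) (c (c (l 16085352) (l 16025208)) (c (l 15963920) (l 15901536))))) (b (a (c (l 16049320) (l 15941400)) (c (l 16045512) (l 15943560))) (a (b (a (b (c (l 16045064) (l 15930208)) (c (l 16045368) (l 15920440))) (c (a (l 16036784) (l 16042824)) (c (l 15949672) (l 15906816)))) (c (a (l 16049408) (l 16043776)) (a (l 15926000) (l 15919168))))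 (b (c (l 16043472) (l 15918400)) (a (c (c (l 16069968) (l 16008360)) (b (a (l 15912952) (l 15911512)) (l 15914304))) (c (b (l 16037584) (a (l 16035888) (l 16034488))) (b (l 15911608) (a (l 15909792) (l 15908120)))))))))) (a (b (a (c (c (l 16112440) (l 16054664)) (c (l 15995792) (l 15935856))) (c (c (l 16115712) (l 16058448)) (c (l 16000088) (l 15940672)))) (a (b (c (l 16058240) (l 15936160)) (c (c (l 16071720) (l 16010376)) (c (l 15947872) (l 15905216)))) (c (c (l 16082512) (l 16022352)) (c (l 15961048) (l 15898640))))) (b (a (c (l 16091496) (l 15986408)) (c (l 16096488) (l 15982176))) (a (c (c (l 16085872) (l 16026240)) (c (l 15965456) (l 15903584))) (c (c (l 16089944) (l 16030880)) (c (l 15970688) (l 15909400))))))), by decide +kernel⟩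

def k11_pm_022 : ∃ t, chk3 f_pm_022 t 28 9 3 = true :=
  ⟨(b (c (a (b (a (l 16083464) (l 16071640)) (l 16098912)) (c (b (a (l 16089264) (l 16078864)) (l 16103752)) (b (a (l 16030944) (l 16019384)) (l 16048888)))) (a (b (a (l 15969448) (l 15955184)) (l 15991760)) (c (b (a (l 15971504) (l 15958760)) (l 15992960)) (b (a (l 15911000) (l 15897048)) (l 15936000))))) (a (b (l 16070688) (l 16094816)) (b (c (l 16097752) (l 15993856)) (l 16070800)))), by decide +kernel⟩

def k12_pm_022 : ∃ t, chk3 f_pm_022 t 29 9 3 = true :=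
  ⟨(b (c (b (a (b (a (b (a (c (l 16064400) (l 16002600)) (b (l 16031184) (l 16022000))) (l 16035920)) (b (c (l 16061760) (l 15999784)) (a (b (l 16027304) (l 16029608)) (b (l 16025408) (l 16024888))))) (a (l 16044192) (l 16028784))) (b (a (a (b (l 16033128) (b (l 16026472) (l 16012264))) (l 16030440)) (l 16022936)) (a (b (a (l 16023976) (b (l 16020240) (l 16020496))) (l 16027000)) (b (a (b (l 16021064) (l 16017872)) (l 16020784)) (a (l 16019896) (b (l 16015640) (l 16016648))))))) (a (a (l 16060624) (l 16050544)) (a (l 16039504) (b (l 16025904) (l 16036928))))) (b (a (b (a (b (a (c (l 15939624) (l 15896496)) (b (l 15904592) (a (l 15904096) (l 15901960)))) (l 15911312)) (b (a (a (l 15903376) (l 15904008)) (l 15905440)) (a (b (l 15911064) (l 15903800)) (b (a (l 15898048) (l 15898216)) (l 15898032))))) (a (l 15922712) (c (l 15941632) (l 15878632)))) (b (a (a (a (c (l 15934176) (l 15890800)) (l 15902904)) (l 15904624)) (c (l 15940112) (l 15876496))) (a (b (a (l 15897528) (b (a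 (l 15892616) (l 15892304)) (l 15893456))) (l 15902064)) (b (a (c (l 15924560) (l 15880696)) (l 15893776)) (a (l 15893328) (b (l 15908864) (l 15889512))))))) (a (a (l 15945344) (l 15933016)) (b (a (l 15913520) (l 15901944)) (l 15922856))))) (a (b (a (l 16008032) (l 15996976)) (l 16048264)) (b (c (l 16057848) (l 15945192)) (l 16006128)))), by decide +kernel⟩

def k13_pm_022 : ∃ t, chk3 f_pm_022 t 15 8 1 = true :=
  ⟨(b (b (a (c (a (c (l 16366112) (l 16274448)) (c (l 16375744) (l 16287328))) (a (a (c (l 16174632) (l 16073768)) (l 16130400)) (a (c (l 16190288) (l 16092760)) (l 16148896)))) (c (a (c (l 16386800) (l 16301944)) (c (l 16399448) (l 16318504))) (a (a (l 16161576) (l 16172216)) (a (l 16183544) (l 16195560))))) (a (c (a (c (l 16341088) (l 16201912)) (c (l 16349848) (l 16213792))) (a (a (c (l 16138496) (l 16031624)) (c (l 16145456) (l 16040136))) (a (c (l 16153000) (l 16049320)) (c (l 16161096) (l 16059152))))) (c (a (c (l 16360096) (l 16227496)) (c (l 16372008) (l 16285176)))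 (a (a (c (l 16169712) (l 16069584)) (c (l 16178888) (l 16080672))) (a (c (l 16188736) (l 16092544)) (c (l 16199232) (l 16105184))))))) (a (c (a (c (b (l 16274064) (l 16258872)) (a (b (l 16210720) (l 16180088)) (b (l 16215640) (l 16184472)))) (c (b (l 16281936) (l 16255840)) (a (b (l 16221080) (l 16189384)) (b (l 16227000) (l 16194808))))) (a (b (a (c (l 16102184) (l 15989240)) (c (l 16108544) (l 15997064))) (a (c (c (l 16094696) (l 16036264)) (c (l 15976712) (l 15916072))) (c (l 16071368) (l 15953656)))) (b (a (c (l 16115504) (l 16005600)) (c (l 16123048) (l 16014808))) (a (c (l 16077744) (l 15961528)) (c (l 16084720) (l 15970104)))))) (c (c (a (b (l 16291368) (l 16264432)) (a (l 16306776) (l 16312656))) (a (a (b (l 16233376) (l 16200712)) (b (l 16240256) (l 16207152))) (a (b (l 16247720) (l 16214192)) (l 16207344)))) (a (b (a (c (l 16131136) (l 16024656)) (c (l 16139824) (l 16035192))) (a (c (l 16092272) (l 15979344)) (c (l 16100456) (l 15989328)))) (b (a (c (l 16149208)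 (l 16046552)) (c (l 16159280) (l 16058712))) (a (c (l 16109376) (l 16000168)) (c (l 16119008) (l 16011848)))))))), by decide +kernel⟩

def k14_pm_022 : ∃ t, chk3 f_pm_022 t 15 9 4 = true :=
  ⟨(b (a (a (a (b (b (l 16270512) (a (l 16257776) (l 16258464))) (c (l 16282824) (l 16227520))) (b (l 16266784) (b (b (a (l 16251120) (l 16251384)) (l 16249768)) (l 16251888)))) (b (a (l 16269808) (l 16273264)) (b (a (b (l 16253416) (a (l 16247576) (l 16247736))) (l 16253240)) (a (l 16226352) (b (a (l 16244304) (l 16244352)) (l 16243624)))))) (a (b (a (l 16277128) (l 16281448)) (a (b (l 16256776) (b (l 16246584) (a (l 16241272) (l 16241232)))) (c (l 16281392) (l 16226024)))) (b (l 16248936) (a (l 16237400) (l 16263344))))) (a (a (b (l 16258968) (l 16265232)) (b (a (l 16251880) (l 16247416)) (l 16255800))) (b (a (b (a (l 16241664) (b (a (l 16238560) (l 16238488)) (l 16238488))) (l 16242760)) (b (a (b (l 16240896) (a (l 16236224) (l 16236120))) (l 16210648)) (a (l 16237184) (a (l 16234904)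 (l 16213248))))) (a (l 16247312) (a (l 16241744) (l 16238440)))))), by decide +kernel⟩

def k15_pm_022 : ∃ t, chk3 f_pm_022 t 15 9 5 = true :=
  ⟨(a (b (b (a (a (b (l 16156960) (b (l 16145344) (a (l 16137792) (l 16138424)))) (c (l 16182024) (l 16123736))) (a (c (l 16186072) (l 16128472)) (c (l 16190624) (l 16133760)))) (a (b (a (c (l 16167776) (l 16108568)) (b (a (l 16112880) (l 16134320)) (a (l 16134680) (l 16131720)))) (a (l 16145008) (l 16138272))) (b (a (b (l 16137328) (a (b (l 16130488) (l 16129360)) (l 16130552))) (l 16137816)) (a (a (l 16133392) (l 16130344)) (b (a (b (l 16126976) (l 16126376)) (l 16106152)) (l 16127376)))))) (a (b (a (l 16155416) (l 16148688)) (l 16165672)) (b (a (l 16142216) (l 16135976)) (l 16152688)))) (b (a (b (a (c (l 16195648) (l 16139568)) (l 16173760)) (a (b (l 16142864) (b (l 16130336) (a (b (l 16123808) (l 16123712)) (b (l 16125328) (l 16122376))))) (c (l 16169072) (l 16110672)))) (a (b (l 16180384) (c (l 16174840) (l 16117304))) (b (l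 16187624) (c (l 16181200) (l 16124616))))) (b (a (a (b (l 16102992) (l 16133464)) (b (b (a (l 16100544) (b (l 16122368) (l 16119904))) (l 16122704)) (l 16127872))) (b (a (b (l 16124744) (a (l 16119432) (b (l 16119896) (l 16117920)))) (a (l 16125272) (l 16128688))) (a (l 16122688) (b (a (l 16117792) (l 16091312)) (l 16119624))))) (a (l 16140824) (a (l 16132896) (l 16128120)))))), by decide +kernel⟩

def k16_pm_022 : ∃ t, chk3 f_pm_022 t 30 9 3 = true :=
  ⟨(b (b (a (a (b (c (l 16038008) (l 15914248)) (c (b (l 16024120) (a (b (l 16016024) (l 16013536)) (l 16015992))) (b (l 15898008) (a (b (l 15888432) (l 15885696)) (l 15888616))))) (c (c (l 16064136) (l 16003288)) (c (l 15941272) (l 15878136)))) (a (c (c (l 16069560) (l 16009416)) (c (l 15948112) (l 15885688))) (c (c (l 16075592) (l 16016200)) (c (l 15955648) (l 15894000))))) (a (a (a (c (l 16024600) (l 15901128)) (b (b (c (l 16012600) (b (l 15883648) (l 15886080))) (l 15955192)) (l 15965032))) (b (b (a (c (b (l 16011440)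 (l 16009720)) (b (l 15883528) (l 15881752))) (c (l 16011632) (l 15883984))) (c (a (l 16013016) (l 16009184)) (c (l 15916416) (l 15851752)))) (c (l 16019168) (l 15895184)))) (b (a (b (c (l 16015632) (l 15888992)) (a (c (b (l 16007360) (l 16006360)) (b (l 15879232) (l 15878368))) (c (b (l 16009808) (l 16005496)) (b (l 15882304) (l 15877296))))) (c (l 16006280) (c (l 15922712) (l 15858568)))) (a (a (c (l 16012824) (l 15887320)) (b (c (l 16006152) (l 15878672)) (l 15954544))) (b (a (c (b (l 16003744) (l 16003440)) (b (a (l 15874896) (l 15875528)) (l 15875480))) (c (b (l 16006016) (l 16002096)) (c (l 15908640) (l 15864464)))) (c (a (l 16007384) (l 16003480)) (a (l 15880936) (l 15876080)))))))) (a (b (a (c (l 16044232) (l 15928432)) (c (l 16035544) (l 15917704))) (c (l 16061160) (l 15952224))) (b (c (a (l 16027160) (b (l 16013608) (l 16024432))) (a (l 15907304) (b (l 15889760) (l 15904640)))) (c (l 16044400) (l 15931504))))), by decide +kernel⟩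

def k17_pm_022 : ∃ t, chk3 f_pm_022 t 31 9 3 = true :=
  ⟨(b (a (b (a (c (c (l 16082192) (l 16023600)) (c (l 15963864) (l 15903032))) (c (c (l 16089448) (l 16031720)) (c (l 15972848) (l 15912904)))) (a (b (c (l 16023352) (l 15898936)) (b (c (l 16008392) (l 15881440)) (a (c (b (l 15990064) (l 16000896)) (b (a (l 15871792) (l 15871976)) (l 15873040))) (b (c (l 16002536) (l 15874704)) (c (l 15988656) (a (l 15870464) (l 15870464))))))) (c (c (l 16050904) (l 15989880)) (c (l 15927656) (l 15864296))))) (b (a (c (l 16058688) (c (l 15982696) (l 15923696))) (c (l 16078360) (l 15964512))) (a (c (c (l 16058432) (l 15998304)) (c (l 15936984) (l 15874544))) (c (c (l 16066688) (l 16007520)) (c (l 15947184) (l 15885728)))))) (b (a (a (a (c (l 16013152) (l 15889904)) (b (c (l 16003912) (l 15877680)) (l 15954256))) (b (b (a (b (c (l 15997888) (a (l 15869328) (l 15869152))) (c (l 15998856) (l 15871184))) (b (c (l 15999544) (l 15871648)) (c (l 15996784) (a (l 15868376) (l 15868032))))) (c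 (l 16001160) (l 15874584))) (c (l 16009304) (l 15885776)))) (b (a (b (c (a (l 16000824) (l 16004856)) (a (l 15873376) (l 15878336))) (a (c (b (l 15995832) (l 15997328)) (b (l 15878208) (l 15869936))) (c (b (l 15997136) (l 15995032)) (b (l 15869296) (l 15867040))))) (c (c (l 16036768) (l 15975000)) (c (l 15912008) (l 15868832)))) (a (c (l 16002448) (l 15877176)) (b (a (c (l 15995496) (b (l 15866528) (l 15869240))) (c (b (l 15995352) (l 15993856)) (b (l 15867680) (l 15866184)))) (c (l 15998784) (l 15872864)))))) (a (c (l 16036304) (a (l 15916880) (l 15907760))) (c (a (l 16018488) (l 16012136)) (a (l 15899200) (l 15891208)))))), by decide +kernel⟩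

def k18_pm_022 : ∃ t, chk3 f_pm_022 t 7 5 1 = true :=
  ⟨(a (b (a (c (b (a (l 16285304) (l 16269952)) (a (l 16303224) (l 16288088))) (b (a (l 16129520) (l 16106064)) (a (l 16172680) (l 16149944)))) (c (b (a (l 16276768) (l 16255832)) (a (l 16274032) (l 16260952))) (b (a (l 16099704) (b (l 16051336) (l 16074688))) (a (l 16128400) (l 16107960))))) (a (c (b (l 16311568) (l 16324464)) (b (l 16201088) (l 16236624))) (c (b (l 16283520) (l 16296344)) (b (l 16158936) (l 16195240))))) (b (c (a (b (a (b (l 16225832) (l 16235296)) (b (l 16214616) (l 16224008))) (a (l 16248736) (l 16237328))) (b (a (b (l 16183456) (l 16213784)) (b (l 16187768) (l 16204944))) (b (l 16218200) (l 16226624)))) (a (b (a (b (l 16031608) (l 16055088)) (b (l 15992000) (l 16036528))) (b (l 16068216) (l 16089824))) (b (a (c (l 16059784) (l 15996480)) (b (c (l 16036072) (l 15923688)) (l 16004192))) (a (l 16053120) (l 16017088))))) (a (c (b (l 16258712) (l 16271184)) (b (l 16120384) (l 16157064))) (c (b (l 16238008)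 (l 16250168)) (b (l 16087072) (l 16124168)))))), by decide +kernel⟩

def k19_pm_022 : ∃ t, chk3 f_pm_022 t 3 6 1 = true :=
  ⟨(a (a (b (a (b (c (l 16496856) (l 16473744)) (l 16442288)) (c (b (l 16443600) (l 16447704)) (b (l 16412448) (l 16435616)))) (a (b (c (l 16493440) (l 16506936)) (c (l 16481872) (l 16514888))) (c (b (l 16447664) (l 16418376)) (b (l 16454984) (l 16467192))))) (b (a (b (c (l 16401088) (l 16359448)) (c (l 16407440) (l 16385912))) (b (c (l 16365888) (l 16312304)) (c (l 16373344) (l 16340880)))) (a (b (c (l 16410176) (l 16408752)) (c (l 16403808) (l 16423816))) (b (c (l 16376552) (l 16365296)) (c (l 16370720) (l 16381752)))))) (a (b (a (b (c (l 16334568) (l 16268704)) (c (l 16342216) (l 16298328))) (b (c (l 16306048) (l 16227624)) (c (l 16313296) (l 16257552)))) (a (b (c (l 16345032) (l 16322984)) (c (l 16339016) (l 16339968))) (b (a (l 16307968) (l 16291136)) (l 16241424)))) (b (a (c (b (l 16280792) (l 16287344)) (b (l 16190200) (l 16220064))) (b (c (l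 16259264) (l 16157496)) (c (l 16265624) (l 16167072)))) (a (b (c (l 16289624) (l 16245752)) (c (l 16282576) (l 16263096))) (b (c (l 16267280) (l 16192768)) (c (l 16259344) (l 16209936))))))), by decide +kernel⟩

def k20_pm_022 : ∃ t, chk3 f_pm_022 t 3 7 1 = true :=
  ⟨(a (a (c (b (b (a (a (l 16467048) (l 16445992)) (l 16397208)) (a (b (l 16366096) (l 16358592)) (b (l 16392824) (l 16366304)))) (b (a (l 16237928) (l 16265560)) (a (b (l 16277176) (l 16231992)) (b (l 16240464) (l 16194080))))) (b (b (a (l 16511352) (l 16468376)) (a (b (l 16500992) (l 16476416)) (b (l 16460560) (l 16439840)))) (b (a (l 16328912) (l 16312128)) (a (b (l 16340344) (l 16289904)) (l 16169328))))) (b (b (a (c (l 16383576) (l 16406120)) (c (l 16350672) (l 16385952))) (b (a (c (l 16358960) (l 16420696)) (l 16205208)) (a (c (l 16333808) (l 16361264)) (c (l 16301600) (l 16343952))))) (b (a (a (l 16208584) (l 16211216)) (c (l 16240160) (l 16276744))) (a (c (b (l 16204256) (l 16156280)) (l 16147936)) (c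 (b (l 16168768) (l 16119728)) (l 16105656)))))) (b (a (b (a (c (l 16318456) (l 16344248)) (c (l 16288240) (l 16304288))) (a (b (l 16210600) (a (l 16264112) (l 16267984))) (c (l 16168856) (l 16148496)))) (b (a (a (l 16271816) (l 16235824)) (c (l 16236704) (l 16214400))) (b (a (l 16122600) (c (l 16209760) (l 16229440))) (a (c (l 16212904) (l 16253456)) (a (l 16209472) (l 16195112)))))) (a (b (a (b (l 16257408) (l 16208288)) (b (l 16225768) (l 16154760))) (b (a (l 16093488) (a (l 16130976) (l 16114816))) (a (a (l 16112176) (l 16094376)) (a (l 16077144) (l 16060472))))) (b (a (a (l 16094600) (b (l 16189368) (l 16138232))) (b (b (l 16034240) (l 16156912)) (l 16117480))) (a (b (a (l 16099200) (l 16084128)) (a (l 16023360) (l 16028712))) (b (a (l 16069576) (l 16055512)) (a (l 15992608) (l 15977936)))))))), by decide +kernel⟩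

theorem s21_pm_022 : ∃ t, chk3 f_pm_022 t 3 3 1 = true := ex3_b k19_pm_022 k20_pm_022

theorem s22_pm_022 : ∃ t, chk3 f_pm_022 t 15 9 3 = true := ex3_a k16_pm_022 k17_pm_022

theorem s23_pm_022 : ∃ t, chk3 f_pm_022 t 15 9 2 = true := ex3_c k14_pm_022 k15_pm_022

theorem s24_pm_022 : ∃ t, chk3 f_pm_022 t 15 9 1 = true := ex3_c s23_pm_022 s22_pm_022

theorem s25_pm_022 : ∃ t, chk3 f_pm_022 t 15 4 1 = true := ex3_b k13_pm_022 s24_pm_022

theorem s26_pm_022 : ∃ t, chk3 f_pm_022 t 14 9 3 = true := ex3_a k11_pm_022 k12_pm_022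

theorem s27_pm_022 : ∃ t, chk3 f_pm_022 t 14 8 3 = true := ex3_b k9_pm_022 k10_pm_022

theorem s28_pm_022 : ∃ t, chk3 f_pm_022 t 14 4 3 = true := ex3_b s27_pm_022 s26_pm_022

theorem s29_pm_022 : ∃ t, chk3 f_pm_022 t 14 4 2 = true := ex3_b k7_pm_022 k8_pm_022

theorem s30_pm_022 : ∃ t, chk3 f_pm_022 t 14 4 1 = true := ex3_c s29_pm_022 s28_pm_022

theorem s31_pm_022 : ∃ t, chk3 f_pm_022 t 7 4 1 = true := ex3_a s30_pm_022 s25_pm_022

theorem s32_pm_022 : ∃ t, chk3 f_pm_022 t 7 2 1 = true := ex3_b s31_pm_022 k18_pm_022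

theorem s33_pm_022 : ∃ t, chk3 f_pm_022 t 27 2 1 = true := ex3_a k5_pm_022 k6_pm_022

theorem s34_pm_022 : ∃ t, chk3 f_pm_022 t 13 2 1 = true := ex3_a k4_pm_022 s33_pm_022

theorem s35_pm_022 : ∃ t, chk3 f_pm_022 t 6 2 1 = true := ex3_a k3_pm_022 s34_pm_022

theorem s36_pm_022 : ∃ t, chk3 f_pm_022 t 3 2 1 = true := ex3_a s35_pm_022 s32_pm_022

theorem s37_pm_022 : ∃ t, chk3 f_pm_022 t 3 1 1 = true := ex3_b s36_pm_022 s21_pm_022

theorem s38_pm_022 : ∃ t, chk3 f_pm_022 t 5 1 1 = true := ex3_b k1_pm_022 k2_pm_022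

theorem s39_pm_022 : ∃ t, chk3 f_pm_022 t 2 1 1 = true := ex3_a k0_pm_022 s38_pm_022

theorem s40_pm_022 : ∃ t, chk3 f_pm_022 t 1 1 1 = true := ex3_a s39_pm_022 s37_pm_022

theorem c_pm_022 : CertB 0 536870912 0 536870912 966367641 24778659 3 eng mog cd0q0 cd0q2 pd2 true true false .pp 0 2 2
    ndB0q0 ndB0q2 pcB2 cut_pm_022 Ext.none :=
  certB2 (fam := true) (s1 := true) (s2 := false) (a := 0) (b := 2) (c := 2) (cn := .pp) (n1 := ndB0q0) (n2 := ndB0q2) (pc := pcB2) (cut := cut_pm_022) (xt := Ext.none) (P1 := 0) (W1 := 536870912) (P2 := 0) (W2 := 536870912) (P3 := 966367641) (W3 := 24778659) (N0 := 3) (En := eng) (mo := mog) (C1 := cd0q0) (C2 := cd0q2) (C3 := pd2)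
    rfl (fun _ => rfl) s40_pm_022

noncomputable def cut_pm_023 : Cut := Cut.of [[⟨3, 0, 0, 1449551462⟩], [⟨4, 0, 0, 2845415833⟩]]

noncomputable def f_pm_023 : ℕ → ℕ → ℕ → ℕ → Bool := onCell 1610612736 536870912 0 536870912 966367641 24778659
    (rowB 3 eng mog cd0q0 cd0q2 pd3 2 true true false .up 0 2 3 (qsf 0 536870912 0 536870912 3) ndB0q0 ndB0q2 pcB3 cut_pm_023 Ext.none)

def k0_pm_023 : ∃ t, chk3 f_pm_023 t 4 8 1 = true :=
  ⟨(b (a (a (c (a (b (l 16468400) (l 16459208)) (c (l 16575184) (l 16582096))) (a (c (l 16473416) (l 16353152)) (c (l 16479688) (l 16367360)))) (c (a (c (l 16616144) (l 16583672)) (c (l 16654520) (l 16587584))) (a (c (l 16488872) (l 16384904)) (c (l 16500736) (l 16405472))))) (b (l 14) (a (a (a (c (l 16600272) (l 16452992)) (l 14)) (l 14)) (l 14)))) (a (a (c (c (a (l 16471944) (l 16537664)) (c (l 16583128) (l 16525720))) (a (c (l 16430392) (l 16291520)) (c (l 16434264) (l 16303432)))) (c (a (c (l 16600520) (l 16552976)) (c (l 16639520) (l 16533808)))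 (a (c (l 16441312) (l 16319016)) (c (l 16451296) (l 16337952))))) (a (c (c (a (l 16638792) (l 16637904)) (a (l 16558944) (l 16565336))) (a (c (l 16463992) (l 16359928)) (c (l 16479160) (l 16384648)))) (a (c (c (l 16638912) (l 16573808)) (c (l 16496584) (l 16411816))) (l 14))))), by decide +kernel⟩

def k1_pm_023 : ∃ t, chk3 f_pm_023 t 4 9 1 = true :=
  ⟨(a (c (a (a (b (c (l 16435384) (l 16488648)) (b (c (l 16404032) (l 16452616)) (l 16380136))) (b (c (l 16523120) (l 16493256)) (b (l 16401856) (c (l 16509632) (l 16467304))))) (b (c (c (l 16546808) (l 16602544)) (c (l 16549808) (l 16491432))) (a (c (l 16448928) (c (l 16523192) (l 16454256))) (c (l 16603912) (l 16486856))))) (c (a (b (a (l 16386400) (l 16387840)) (a (b (l 16352616) (l 16339864)) (b (l 16351872) (l 16332008)))) (b (a (l 16392704) (l 16400776)) (a (b (l 16355088) (l 16329816)) (l 16348296)))) (a (b (a (l 16228488) (l 16238064)) (b (a (a (l 16179176) (l 16180864)) (l 16187344)) (a (l 16166840) (b (l 16142104)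 (l 16157112))))) (b (a (l 16251648) (l 16268928)) (a (b (l 16199416) (b (l 16172416) (l 16135576))) (l 16197016)))))) (a (a (c (c (l 16523352) (b (l 16523504) (l 16487008))) (b (c (l 16411824) (l 16289632)) (c (l 16357664) (l 16216416)))) (c (c (l 16519192) (b (l 16528080) (l 16489728))) (b (c (l 16425616) (l 16313448)) (c (l 16370072) (l 16239352))))) (c (c (a (l 16517032) (b (l 16614480) (l 16586896))) (b (a (l 16534904) (l 16543840)) (a (l 16494864) (l 16502272)))) (c (b (a (l 16441936) (l 16460520)) (a (l 16385272) (l 16402992))) (b (a (l 16340088) (l 16369152)) (a (l 16265472) (l 16294400))))))), by decide +kernel⟩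

def k2_pm_023 : ∃ t, chk3 f_pm_023 t 4 5 1 = true :=
  ⟨(a (b (c (a (b (a (l 16402352) (l 16370640)) (l 16326904)) (b (a (a (l 16426600) (l 16359560)) (c (l 16580776) (l 16456016))) (c (l 16553992) (l 16433968)))) (a (b (c (l 16325416) (l 16140272)) (c (l 16311160) (l 16158112))) (b (c (a (l 16313080) (l 16309704)) (a (l 16150488) (b (b (l 16152960) (l 16146944)) (l 16145928)))) (a (l 16223792) (l 16219272))))) (c (a (b (l 16443312) (l 16451400)) (b (l 16402952) (l 16431384))) (a (b (l 16223336) (l 16206336)) (b (l 16208456) (l 16149408))))) (b (c (a (b (a (c (l 16573472) (l 16410320)) (b (l 16415336) (l 16358024))) (c (l 16539720) (l 16423736))) (b (c (a (l 16562392) (l 16559192)) (a (l 16453312) (l 16459168))) (c (l 16530432) (l 16400672)))) (a (b (a (b (c (l 16316224) (l 16139528)) (l 16225112)) (a (b (l 16250560) (l 16227136)) (b (l 16259760) (l 16199320)))) (a (l 16217560) (l 16218672))) (b (a (b (l 16254080) (c (l 16311592) (l 16147336))) (c (l 16342592) (l 16215456)))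 (a (l 16201880) (b (b (l 16237896) (l 16230760)) (l 16226024)))))) (c (a (b (l 16369080) (l 16396912)) (c (l 16475952) (l 16376352))) (a (b (l 16204792) (l 16103536)) (b (l 16212128) (l 69355383655)))))), by decide +kernel⟩

def k3_pm_023 : ∃ t, chk3 f_pm_023 t 4 6 1 = true :=
  ⟨(a (b (c (a (c (l 16443288) (l 16322112)) (c (l 16399904) (l 16260704))) (a (b (l 16081120) (a (l 16168784) (l 16158376))) (b (l 15940104) (a (l 16150720) (l 16145824))))) (c (a (b (l 16203888) (l 16128616)) (b (l 16161040) (a (l 16257792) (l 16248072)))) (a (b (a (l 16141976) (l 16131552)) (a (l 16107368) (l 16097000))) (b (a (l 16123880) (l 16118880)) (a (l 16068320) (l 16063208)))))) (b (c (a (c (b (l 16426056) (l 16381424)) (l 16164760)) (b (l 16266752) (l 16120112))) (a (b (a (l 16166584) (l 16167160)) (a (l 16143584) (l 16123000))) (b (a (l 16170328) (l 16154920)) (a (l 16062872) (l 2))))) (b (a (c (a (l 16295568) (l 16289344)) (a (l 16032576) (c (l 16162240) (l 16069336)))) (c (l 49491337575)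 (a (c (l 16162768) (l 16073544)) (l 2)))) (a (c (a (l 16239896) (l 16233360)) (c (l 50565350471) (a (l 16038560) (l 16039792)))) (l 2))))), by decide +kernel⟩

def k4_pm_023 : ∃ t, chk3 f_pm_023 t 4 7 1 = true :=
  ⟨(a (b (c (a (b (a (l 16213192) (l 16199872)) (a (l 16128864) (l 16115088))) (b (a (l 16188152) (l 16177968)) (a (l 16102840) (l 16071288)))) (a (b (a (l 16039984) (l 16029656)) (a (l 15937712) (c (l 16022912) (l 15956840)))) (b (a (c (l 16080960) (l 16003680)) (c (l 16074448) (l 15999728))) (a (c (l 16013968) (l 15950184)) (c (l 16007040) (l 15945832)))))) (b (a (c (b (a (l 16052408) (l 16038400)) (a (l 15991336) (l 15977168))) (b (a (l 15940584) (l 15930488)) (a (l 15891272) (l 15880936)))) (b (a (c (l 16025944) (l 241690893959)) (l 2)) (l 2))) (a (a (b (c (l 15927576) (b (l 15852448) (l 15825944))) (c (b (l 15878976) (l 15846664)) (b (l 15799216) (c (l 15791624) (l 15753016))))) (b (c (l 15913032) (l 249743700743)) (l 2))) (l 2)))) (b (a (a (b (c (l 16169432)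 (c (l 16069992) (l 15998136))) (l 2)) (l 2)) (l 2)) (l 2))), by decide +kernel⟩

def k5_pm_023 : ∃ t, chk3 f_pm_023 t 5 1 1 = true :=
  ⟨(b (a (b (b (l 14) (a (a (c (c (b (l 16617328) (l 16587728)) (b (l 16554768) (l 16511824))) (b (c (l 16481104) (l 16400264)) (c (l 16422976) (l 16325728)))) (b (l 14) (b (l 14) (c (l 16528328) (l 16385768))))) (l 2))) (a (b (a (c (b (c (l 16557952) (l 16467320)) (c (l 16526696) (l 16425272))) (b (c (l 16361984) (l 16247056)) (b (b (l 16260096) (l 16244480)) (l 16235424)))) (a (b (c (l 16497768) (l 16326016)) (b (l 2) (l 2))) (l 2))) (c (c (l 83314991127) (l 67745649207)) (b (l 68819040263) (l 298062425287)))) (l 2))) (l 2)) (b (l 2) (l 2))), by decide +kernel⟩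

def k6_pm_023 : ∃ t, chk3 f_pm_023 t 3 1 1 = true :=
  ⟨(l 2), by decide +kernel⟩

theorem s7_pm_023 : ∃ t, chk3 f_pm_023 t 4 3 1 = true := ex3_b k3_pm_023 k4_pm_023

theorem s8_pm_023 : ∃ t, chk3 f_pm_023 t 4 4 1 = true := ex3_b k0_pm_023 k1_pm_023

theorem s9_pm_023 : ∃ t, chk3 f_pm_023 t 4 2 1 = true := ex3_b s8_pm_023 k2_pm_023

theorem s10_pm_023 : ∃ t, chk3 f_pm_023 t 4 1 1 = true := ex3_b s9_pm_023 s7_pm_023

theorem s11_pm_023 : ∃ t, chk3 f_pm_023 t 2 1 1 = true := ex3_a s10_pm_023 k5_pm_023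

theorem s12_pm_023 : ∃ t, chk3 f_pm_023 t 1 1 1 = true := ex3_a s11_pm_023 k6_pm_023

theorem c_pm_023 : CertB 0 536870912 0 536870912 966367641 24778659 3 eng mog cd0q0 cd0q2 pd3 true true false .up 0 2 3
    ndB0q0 ndB0q2 pcB3 cut_pm_023 Ext.none :=
  certB2 (fam := true) (s1 := true) (s2 := false) (a := 0) (b := 2) (c := 3) (cn := .up) (n1 := ndB0q0) (n2 := ndB0q2) (pc := pcB3) (cut := cut_pm_023) (xt := Ext.none) (P1 := 0) (W1 := 536870912) (P2 := 0) (W2 := 536870912) (P3 := 966367641) (W3 := 24778659) (N0 := 3) (En := eng) (mo := mog) (C1 := cd0q0) (C2 := cd0q2) (C3 := pd3)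
    rfl (fun _ => rfl) s12_pm_023

noncomputable def cut_pm_101 : Cut := Cut.of [[⟨3, 0, 0, 1449551462⟩], [⟨4, 0, 0, 2845415833⟩], [⟨0, 1, 0, 67108864⟩, ⟨1, 0, 0, 67108864⟩, ⟨2, 1, 0, 67108864⟩]]

noncomputable def f_pm_101 : ℕ → ℕ → ℕ → ℕ → Bool := onCell 536870912 536870912 536870912 536870912 966367641 24778659
    (rowB 3 eng mog cd0q1 cd0q0 pd1 1 true true false .npn 1 0 1 (qsf 536870912 536870912 0 536870912 1) ndB0q1 ndB0q0 pcB1 cut_pm_101 Ext.none)

def k0_pm_101 : ∃ t, chk3 f_pm_101 t 1 1 1 = true :=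
  ⟨(l 6), by decide +kernel⟩

theorem c_pm_101 : CertB 536870912 536870912 0 536870912 966367641 24778659 3 eng mog cd0q1 cd0q0 pd1 true true false .npn 1 0 1
    ndB0q1 ndB0q0 pcB1 cut_pm_101 Ext.none :=
  certB1 (fam := true) (s1 := true) (s2 := false) (a := 1) (b := 0) (c := 1) (cn := .npn) (n1 := ndB0q1) (n2 := ndB0q0) (pc := pcB1) (cut := cut_pm_101) (xt := Ext.none) (P1 := 536870912) (W1 := 536870912) (P2 := 0) (W2 := 536870912) (P3 := 966367641) (W3 := 24778659) (N0 := 3) (En := eng) (mo := mog) (C1 := cd0q1) (C2 := cd0q0) (C3 := pd1)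
    rfl (fun _ => rfl) k0_pm_101

noncomputable def cut_pm_102 : Cut := Cut.of [[⟨3, 0, 0, 1449551462⟩], [⟨4, 0, 0, 2845415833⟩], [⟨0, 1, 0, 33554432⟩, ⟨1, 0, 0, 33554432⟩, ⟨2, 1, 0, 33554432⟩]]

noncomputable def f_pm_102 : ℕ → ℕ → ℕ → ℕ → Bool := onCell 536870912 536870912 0 536870912 966367641 24778659
    (rowB 3 eng mog cd0q1 cd0q0 pd2 0 true true false .npp 1 0 2 (qsf 536870912 536870912 0 536870912 2) ndB0q1 ndB0q0 pcB2 cut_pm_102 Ext.none)

def k0_pm_102 : ∃ t, chk3 f_pm_102 t 2 1 1 = true :=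
  ⟨(l 6), by decide +kernel⟩

def k1_pm_102 : ∃ t, chk3 f_pm_102 t 3 2 1 = true :=
  ⟨(a (l 6) (b (l 6) (a (l 6) (b (l 6) (a (l 6) (a (l 6) (b (l 6) (c (b (l 16293192) (l 16272024)) (l 16274376))))))))), by decide +kernel⟩

def k2_pm_102 : ∃ t, chk3 f_pm_102 t 6 3 1 = true :=
  ⟨(b (l 6) (a (l 6) (b (a (l 6) (b (l 6) (a (l 6) (b (l 6) (l 16435784))))) (a (b (l 6) (a (b (l 6) (b (l 16454776) (l 16443992))) (b (c (l 16465000) (l 16456248)) (c (l 16443552) (l 16436600))))) (b (a (b (l 16448648) (l 16427760)) (b (l 16414880) (l 16394456))) (a (b (l 16407288) (l 16387200)) (c (l 16390016) (l 16381520)))))))), by decide +kernel⟩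

def k3_pm_102 : ∃ t, chk3 f_pm_102 t 7 3 1 = true :=
  ⟨(b (a (b (l 6) (a (l 6) (b (a (l 6) (b (l 6) (l 16417696))) (a (b (l 16444880) (l 16422496)) (l 16321240))))) (b (a (b (a (l 6) (b (l 6) (c (l 16370832) (l 16412264)))) (a (b (l 6) (l 16346208)) (b (l 16285296) (l 16347144)))) (c (b (a (l 16332064) (l 16241760)) (a (l 16270560) (l 16202512))) (b (a (l 16358176) (l 16294200)) (a (l 16313552) (l 16250824))))) (a (b (a (c (l 16361568) (l 16388936)) (c (l 16297904) (l 16330472))) (a (l 16288624) (l 16207632))) (b (a (c (l 16230008) (l 16267288)) (c (l 16163240) (l 16205768))) (a (c (l 16191064) (l 16222216)) (c (l 16125576) (l 16161872))))))) (a (b (a (b (a (c (l 16476752) (l 16472864)) (l 16392640)) (a (c (l 16435680) (l 16427912)) (c (l 16395216) (l 16390208)))) (b (a (l 16390232) (l 16341736)) (c (l 16240976) (l 16243264)))) (a (b (a (c (l 16395568) (l 16386272)) (c (l 16356144) (l 16349448))) (a (c (l 16355760) (l 16348040)) (c (l 16317424) (l 16312096)))) (b (a (l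 16310224) (l 16263760)) (a (l 16278376) (l 16227696))))) (a (b (b (a (l 16247264) (l 16125424)) (a (b (l 16259688) (l 16240736)) (b (l 16201576) (l 16183168)))) (b (a (l 16150408) (c (l 16150024) (l 16164064))) (a (c (l 16173768) (l 16183808)) (c (l 16116048) (l 16130400))))) (b (b (a (c (l 16154736) (l 16180264)) (c (l 16090528) (l 16121056))) (a (b (l 16139128) (l 16121288)) (b (l 16078240) (l 16040024)))) (b (a (c (l 16087040) (l 16105144)) (b (l 16023312) (l 16007096))) (a (b (l 16070800) (l 16033904)) (b (l 15991336) (l 15934080)))))))), by decide +kernel⟩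

theorem s4_pm_102 : ∃ t, chk3 f_pm_102 t 3 3 1 = true := ex3_a k2_pm_102 k3_pm_102

theorem s5_pm_102 : ∃ t, chk3 f_pm_102 t 3 1 1 = true := ex3_b k1_pm_102 s4_pm_102

theorem s6_pm_102 : ∃ t, chk3 f_pm_102 t 1 1 1 = true := ex3_a k0_pm_102 s5_pm_102

theorem c_pm_102 : CertB 536870912 536870912 0 536870912 966367641 24778659 3 eng mog cd0q1 cd0q0 pd2 true true false .npp 1 0 2
    ndB0q1 ndB0q0 pcB2 cut_pm_102 Ext.none :=
  certB0 (fam := true) (s1 := true) (s2 := false) (a := 1) (b := 0) (c := 2) (cn := .npp) (n1 := ndB0q1) (n2 := ndB0q0) (pc := pcB2) (cut := cut_pm_102) (xt := Ext.none) (P1 := 536870912) (W1 := 536870912) (P2 := 0) (W2 := 536870912) (P3 := 966367641) (W3 := 24778659) (N0 := 3) (En := eng) (mo := mog) (C1 := cd0q1) (C2 := cd0q0) (C3 := pd2)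
    rfl s6_pm_102

noncomputable def cut_pm_112 : Cut := Cut.of [[⟨3, 0, 0, 1449551462⟩], [⟨4, 0, 0, 2845415833⟩]]

noncomputable def f_pm_112 : ℕ → ℕ → ℕ → ℕ → Bool := onCell 536870912 536870912 536870912 536870912 966367641 24778659
    (rowB 3 eng mog cd0q1 cd0q1 pd2 0 true true false .dn 1 1 2 (qsf 536870912 536870912 536870912 536870912 2) ndB0q1 ndB0q1 pcB2 cut_pm_112 Ext.none)

def k0_pm_112 : ∃ t, chk3 f_pm_112 t 2 2 1 = true :=
  ⟨(b (a (l 6) (a (l 6) (b (l 6) (a (b (l 6) (b (l 6) (l 16506816))) (b (a (l 6) (b (l 6) (l 16485096))) (c (l 16453832) (l 16476696))))))) (a (b (l 6) (a (l 6) (b (a (l 6) (a (l 6) (l 16506816))) (a (b (l 6) (a (l 6) (l 16485096))) (c (l 16453832) (l 16476696)))))) (b (a (a (b (l 6) (a (l 6) (l 16510656))) (b (b (l 6) (l 16510656)) (l 16474408))) (b (a (b (l 16483648) (l 16460464)) (b (l 16431424) (l 16409040))) (a (l 16425424) (l 16375296)))) (a (a (b (a (l 16483648) (l 16460464)) (a (l 16431424) (l 16409040))) (b (l 16425424) (l 16375296)))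 (a (b (l 16378184) (l 16329976)) (b (l 16329976) (l 16283984))))))), by decide +kernel⟩

def k1_pm_112 : ∃ t, chk3 f_pm_112 t 2 6 1 = true :=
  ⟨(a (b (a (b (a (l 6) (a (l 6) (b (l 6) (l 16472608)))) (a (a (b (l 6) (l 16457464)) (b (l 16486912) (l 16456704))) (b (a (l 16465032) (l 16443328)) (c (l 16423224) (l 16426064))))) (c (a (b (l 16447496) (l 16392616)) (b (l 16401880) (l 16348832))) (b (a (l 16460784) (l 16419248)) (a (l 16400424) (l 16359928))))) (a (b (a (b (c (l 16418704) (l 16436856)) (a (c (l 16422048) (l 16417312)) (l 16378024))) (b (a (l 16406224) (l 16385192)) (a (l 16357472) (l 16357880)))) (a (b (c (l 16381040) (l 16355608)) (c (l 16349552) (l 16344840))) (b (c (l 16340360) (l 16318656)) (c (l 16310120) (l 16308872))))) (b (a (b (l 16353904) (l 16306112)) (c (l 16296848) (l 16302664))) (a (b (a (l 16310592) (l 16290944)) (l 16251128)) (b (l 16240352) (l 16214216)))))) (b (a (a (b (a (l 16377896) (l 16356344)) (c (l 16305800) (l 16319744))) (b (l 16323968)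 (l 16271240))) (a (b (l 16280768) (l 16230336)) (b (l 16237312) (l 16189776)))) (a (b (a (a (l 16269368) (l 16249520)) (l 16199072)) (a (c (l 16208504) (l 16191392)) (l 16214656))) (b (a (l 16181552) (l 2)) (l 2))))), by decide +kernel⟩

def k2_pm_112 : ∃ t, chk3 f_pm_112 t 2 7 1 = true :=
  ⟨(a (b (a (b (a (b (c (l 16316416) (l 16312216)) (c (l 16279232) (l 16277136))) (b (c (l 16278176) (l 16277128)) (l 16221216))) (a (b (l 16237512) (l 16193144)) (c (l 16157984) (l 16185336)))) (b (a (b (l 16220360) (l 16186384)) (c (l 16188816) (l 16191672))) (a (c (l 16145408) (l 16152992)) (c (l 16113504) (l 16121056))))) (b (a (a (b (c (l 16139280) (l 16151576)) (c (l 16082896) (l 16099136))) (b (c (l 16106272) (l 16120192)) (c (l 16051344) (l 16068744)))) (a (b (l 16070936) (l 2)) (l 2))) (a (a (a (b (l 16018360) (a (l 15985768) (l 15978400))) (b (l 16003144) (l 139685576663))) (b (c (l 15992600) (l 16012840)) (l 2))) (l 2)))) (b (a (b (a (c (l 16155072) (l 16136920)) (l 2)) (l 2))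 (l 2)) (l 2))), by decide +kernel⟩

def k3_pm_112 : ∃ t, chk3 f_pm_112 t 6 2 1 = true :=
  ⟨(b (a (b (a (b (l 6) (b (l 6) (a (l 6) (l 16472608)))) (b (b (a (l 6) (l 16457464)) (a (l 16486912) (l 16456704))) (a (b (l 16465032) (l 16443328)) (c (l 16423224) (l 16426064))))) (c (b (a (l 16447496) (l 16392616)) (a (l 16401880) (l 16348832))) (a (b (l 16460784) (l 16419248)) (b (l 16400424) (l 16359928))))) (b (a (b (a (c (l 16418704) (l 16436856)) (b (c (l 16422048) (l 16417312)) (l 16378024))) (a (b (l 16406224) (l 16385192)) (b (l 16357472) (l 16357880)))) (b (a (c (l 16381040) (l 16355608)) (c (l 16349552) (l 16344840))) (a (c (l 16340360) (l 16318656)) (c (l 16310120) (l 16308872))))) (a (b (a (l 16353904) (l 16306112)) (c (l 16296848) (l 16302664))) (b (a (b (l 16310592) (l 16290944)) (l 16251128)) (a (l 16240352) (l 16214216)))))) (a (b (b (a (b (l 16377896) (l 16356344)) (c (l 16305800) (l 16319744))) (a (l 16323968) (l 16271240))) (a (b (l 16280768) (l 16237312)) (b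 (l 16230336) (l 16189776)))) (b (a (b (b (l 16269368) (l 16249520)) (l 16199072)) (b (c (l 16208504) (l 16191392)) (l 16214656))) (a (b (l 16181552) (l 2)) (l 2))))), by decide +kernel⟩

def k4_pm_112 : ∃ t, chk3 f_pm_112 t 7 2 1 = true :=
  ⟨(b (a (b (a (b (a (c (l 16316416) (l 16312216)) (c (l 16279232) (l 16277136))) (a (c (l 16278176) (l 16277128)) (l 16221216))) (b (a (l 16237512) (l 16193144)) (c (l 16157984) (l 16185336)))) (a (b (a (l 16220360) (l 16186384)) (c (l 16188816) (l 16191672))) (b (c (l 16145408) (l 16152992)) (c (l 16113504) (l 16121056))))) (a (b (b (a (c (l 16139280) (l 16151576)) (c (l 16082896) (l 16099136))) (a (c (l 16106272) (l 16120192)) (c (l 16051344) (l 16068744)))) (b (a (l 16070936) (l 2)) (l 2))) (b (b (a (b (l 16018360) (l 16003144)) (b (a (l 15995960) (l 15968832)) (l 139685576663))) (a (c (l 15992600) (l 16012840)) (l 2))) (l 2)))) (a (b (a (b (c (l 16155072) (l 16136920)) (l 2)) (l 2)) (l 2)) (l 2))), by decide +kernel⟩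

def k5_pm_112 : ∃ t, chk3 f_pm_112 t 3 3 1 = true :=
  ⟨(a (b (a (b (b (a (l 16193696) (l 2)) (l 2)) (l 2)) (l 2)) (l 2)) (l 2)), by decide +kernel⟩

theorem s6_pm_112 : ∃ t, chk3 f_pm_112 t 3 2 1 = true := ex3_a k3_pm_112 k4_pm_112

theorem s7_pm_112 : ∃ t, chk3 f_pm_112 t 3 1 1 = true := ex3_b s6_pm_112 k5_pm_112

theorem s8_pm_112 : ∃ t, chk3 f_pm_112 t 2 3 1 = true := ex3_b k1_pm_112 k2_pm_112

theorem s9_pm_112 : ∃ t, chk3 f_pm_112 t 2 1 1 = true := ex3_b k0_pm_112 s8_pm_112

theorem s10_pm_112 : ∃ t, chk3 f_pm_112 t 1 1 1 = true := ex3_a s9_pm_112 s7_pm_112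

theorem c_pm_112 : CertB 536870912 536870912 536870912 536870912 966367641 24778659 3 eng mog cd0q1 cd0q1 pd2 true true false .dn 1 1 2
    ndB0q1 ndB0q1 pcB2 cut_pm_112 Ext.none :=
  certB0 (fam := true) (s1 := true) (s2 := false) (a := 1) (b := 1) (c := 2) (cn := .dn) (n1 := ndB0q1) (n2 := ndB0q1) (pc := pcB2) (cut := cut_pm_112) (xt := Ext.none) (P1 := 536870912) (W1 := 536870912) (P2 := 536870912) (W2 := 536870912) (P3 := 966367641) (W3 := 24778659) (N0 := 3) (En := eng) (mo := mog) (C1 := cd0q1) (C2 := cd0q1) (C3 := pd2)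
    rfl s10_pm_112

noncomputable def cut_pm_113 : Cut := Cut.of [[⟨3, 0, 0, 1449551462⟩], [⟨4, 0, 0, 2845415833⟩], [⟨0, 1, 0, 47710208⟩, ⟨1, 1, 0, 47710208⟩, ⟨2, 2, 0, 8388608⟩], [⟨0, 0, 1, 46137344⟩, ⟨1, 1, 0, 1572864⟩, ⟨2, 1, 1, 46137344⟩, ⟨0, 0, 0, 1013612281⟩, ⟨0, 1, 0, 128849018⟩, ⟨2, 1, 0, 1013612281⟩, ⟨2, 2, 0, 128849018⟩], [⟨0, 1, 0, 1572864⟩, ⟨1, 0, 1, 46137344⟩, ⟨2, 1, 1, 46137344⟩, ⟨1, 0, 0, 1013612281⟩, ⟨1, 1, 0, 128849018⟩, ⟨2, 1, 0, 1013612281⟩, ⟨2, 2, 0, 128849018⟩]]

noncomputable def xt_pm_113 : Ext := extD2 3 ⟨4, 1, 1, 5, 37, 10, 843, 1000, 41, 100, 1, 8⟩ eng cd0q1 cd0q1 pd3 true true false .nn 1 1 3 rfl ndB0q1 ndB0q1 pcB3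

noncomputable def f_pm_113 : ℕ → ℕ → ℕ → ℕ → Bool := onCell 536870912 536870912 536870912 536870912 966367641 24778659
    (rowB 3 eng mog cd0q1 cd0q1 pd3 0 true true false .nn 1 1 3 (qsf 536870912 536870912 536870912 536870912 3) ndB0q1 ndB0q1 pcB3 cut_pm_113 xt_pm_113)

def k0_pm_113 : ∃ t, chk3 f_pm_113 t 2 2 1 = true :=
  ⟨(a (l 1) (b (l 1) (b (l 1) (a (l 1) (a (l 1) (b (l 1) (l 16283984))))))), by decide +kernel⟩

def k1_pm_113 : ∃ t, chk3 f_pm_113 t 2 6 1 = true :=
  ⟨(a (b (l 1) (a (l 1) (b (l 1) (b (l 1) (a (l 1) (a (l 1) (c (l 16121368) (l 16157808)))))))) (b (a (b (l 1) (a (l 1) (c (l 83784614167) (l 16243280)))) (b (a (l 102037950599) (l 16215032)) (a (c (l 16209472) (l 16227568)) (c (l 16180128) (l 16188376))))) (a (b (a (c (a (l 1) (l 16193544)) (l 90226744679)) (c (b (l 16190984) (l 16157568)) (l 16175912))) (a (c (b (l 16143704) (a (l 16109504) (l 16099296))) (b (l 16174304) (a (l 16143704) (l 16130312)))) (c (b (l 16122936) (l 16086568)) (b (l 16146104)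 (l 16110992))))) (c (b (a (l 16150872) (l 16129168)) (a (l 16089288) (l 16076392))) (a (b (l 16164696) (l 16101528)) (b (l 16130960) (l 16074064))))))), by decide +kernel⟩

def k2_pm_113 : ∃ t, chk3 f_pm_113 t 4 14 1 = true :=
  ⟨(a (b (l 1) (b (l 1) (a (l 1) (a (l 1) (b (l 1) (l 16012640)))))) (b (b (a (l 1) (c (l 44055872599) (l 51572085911))) (a (c (a (l 1) (l 16081280)) (l 33318428455)) (c (a (l 16066848) (l 16053672)) (l 16124224)))) (a (c (b (a (l 16055120) (l 16040456)) (a (l 16009680) (l 15996120))) (b (a (l 16067880) (l 16054312)) (a (l 16014496) (l 16002112)))) (c (b (a (l 16027152) (l 16015160)) (a (l 15983976) (l 15973224))) (b (l 16056688) (a (l 15990760) (l 15980368))))))), by decide +kernel⟩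

def k3_pm_113 : ∃ t, chk3 f_pm_113 t 4 30 1 = true :=
  ⟨(b (a (a (l 1) (c (a (l 15990632) (l 15975184)) (a (l 15982728) (l 15969224)))) (a (c (a (l 15961264) (l 15948848)) (a (l 15956968) (l 15945896))) (c (a (l 15937896) (l 15928408)) (a (l 15935920) (l 15926992))))) (a (a (a (l 1) (a (l 1) (b (l 1) (l 15920104)))) (c (a (l 15936008) (l 15921632)) (a (b (l 15932944) (l 15897120)) (l 15902872)))) (a (c (a (l 15908832) (l 15897576)) (a (l 15892000) (l 15882384))) (c (a (l 15887856) (l 15879656)) (a (l 15873944) (l 15866624)))))), by decide +kernel⟩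

def k4_pm_113 : ∃ t, chk3 f_pm_113 t 4 31 1 = true :=
  ⟨(a (b (b (a (a (l 1) (a (l 15894624) (l 15887248))) (c (a (l 15893264) (l 15879712)) (a (l 15860608) (l 15849504)))) (a (c (a (l 15896128) (l 15879784)) (a (l 15849528) (l 15836104))) (c (a (l 15865136) (l 15852144)) (a (l 15824280) (l 15813952))))) (a (c (a (b (l 15868160) (l 15842392)) (b (l 15852352) (c (l 15842096) (l 15811896)))) (a (b (c (l 15826568) (l 15797736)) (c (l 15793360) (l 15759136))) (b (c (l 15813072) (l 15785928)) (c (l 15780592) (l 15748184))))) (c (a (b (l 15838256) (c (l 15827816) (l 15799152))) (b (l 15825832) (c (l 15815264) (l 15788056)))) (a (b (c (l 15801216) (l 15775736)) (c (l 15769512) (l 15738896))) (b (c (l 15790928) (l 15767056)) (c (l 15760024) (l 15731168))))))) (a (b (c (b (a (l 15867768) (l 15857400)) (a (l 15840776) (l 15831016))) (a (b (l 15839776) (l 15805040)) (b (l 15831352) (l 15797472)))) (c (a (b (l 15815056) (l 15791584)) (b (l 15805904) (l 15783048))) (a (b (l 15771008)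 (c (l 15752072) (l 15724896))) (b (l 15764344) (c (l 15745600) (l 15720000)))))) (b (c (a (b (l 15848608) (l 15822848)) (b (l 15841392) (l 15816288))) (a (b (l 15824168) (l 15791184)) (b (l 15818168) (l 15786120)))) (c (a (b (l 15798376) (l 15776160)) (b (l 15792480) (l 15770928))) (a (b (l 15758992) (c (l 15740544) (l 15716400))) (b (l 15754912) (c (l 15736880) (l 15714024)))))))), by decide +kernel⟩

def k5_pm_113 : ∃ t, chk3 f_pm_113 t 5 14 1 = true :=
  ⟨(a (b (c (a (b (a (l 16075088) (l 16063080)) (l 16036048)) (b (a (l 16053520) (l 16046296)) (l 16017136))) (a (b (a (l 16104976) (l 16092360)) (l 16058088)) (b (l 16074472) (l 16036112)))) (c (a (b (l 16020448) (a (l 15963848) (l 15955824))) (b (l 15983480) (l 15946592))) (a (b (l 16014064) (l 16029472)) (b (l 15994992) (l 15950664))))) (b (c (a (b (l 16039184) (a (l 16006840) (l 16002992))) (b (l 16033632) (l 16001800))) (a (b (l 16051416) (l 16015320)) (b (l 16029344) (l 15996504)))) (a (c (b (l 15973792) (l 15940464))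 (b (l 15977400) (l 15936808))) (b (c (l 15970696) (l 15961728)) (c (l 15941816) (l 15925648)))))), by decide +kernel⟩

def k6_pm_113 : ∃ t, chk3 f_pm_113 t 5 15 1 = true :=
  ⟨(a (b (c (a (b (a (l 15920376) (l 15913800)) (a (l 15873000) (l 15867888))) (b (l 15990840) (a (l 15864496) (l 15863048)))) (a (b (a (l 15919056) (l 15912104)) (a (l 15860384) (l 15855224))) (b (l 15903104) (a (l 15851008) (l 15847520))))) (a (b (c (a (b (l 15835776) (l 15811368)) (l 15819832)) (a (b (l 15813312) (l 15782240)) (b (l 15809600) (l 15779560)))) (c (a (b (l 15788248) (l 15767408)) (b (l 15785736) (l 15765640))) (a (b (l 15752064) (l 15723704)) (b (l 15750456) (l 15723240))))) (b (c (a (l 15818024) (l 15818288)) (a (l 15792304) (l 15791032))) (c (a (b (l 15785120) (l 15765816)) (b (l 15786664) (l 15768208))) (a (b (l 15749992) (l 15723960)) (b (l 15750512) (l 15725736))))))) (b (a (b (c (l 15904512) (l 15893320)) (c (a (l 15863680) (l 15866520)) (l 15864760))) (b (c (l 15910392) (l 15887120))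 (c (l 15875296) (l 15842960)))) (a (b (c (a (l 15820792) (l 15825696)) (a (l 15790736) (l 15791632))) (c (a (l 15802416) (l 15788376)) (a (b (l 15752128) (l 15728696)) (l 15743752)))) (b (c (a (l 15833248) (l 15843744)) (a (l 15794024) (l 15798400))) (c (a (l 15798200) (l 15811288)) (a (l 15749184) (l 15756904))))))), by decide +kernel⟩

def k7_pm_113 : ∃ t, chk3 f_pm_113 t 6 2 1 = true :=
  ⟨(b (a (l 1) (b (l 1) (a (l 1) (a (l 1) (a (l 1) (b (l 1) (c (l 49961464455) (l 16155200)))))))) (a (b (a (l 1) (b (l 1) (c (l 83784614167) (l 16243280)))) (a (b (l 102037950599) (l 16215032)) (b (c (l 16209472) (l 16227568)) (c (l 16180128) (l 16188376))))) (b (a (b (c (b (l 1) (l 16193544)) (l 90226744679)) (c (a (l 16190984) (l 16157568)) (l 16175912))) (b (c (a (l 16143704) (b (l 16109504) (l 16099296))) (a (l 16174304) (b (l 16143704) (l 16130312)))) (c (a (l 16122936) (l 16086568)) (a (l 16146104) (l 16110992))))) (c (a (b (l 16150872) (l 16129168)) (b (l 16089288) (l 16076392)))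 (b (a (l 16164696) (l 16101528)) (a (l 16130960) (l 16074064))))))), by decide +kernel⟩

def k8_pm_113 : ∃ t, chk3 f_pm_113 t 14 4 1 = true :=
  ⟨(b (a (l 1) (a (l 1) (a (l 1) (b (l 1) (b (l 1) (l 16012640)))))) (a (a (b (l 1) (c (l 44055872599) (l 51572085911))) (b (c (b (l 1) (l 16081280)) (l 33318428455)) (c (b (l 16066848) (l 16053672)) (l 16124224)))) (b (c (a (b (l 16055120) (l 16040456)) (b (l 16009680) (l 15996120))) (a (b (l 16067880) (l 16054312)) (b (l 16014496) (l 16002112)))) (c (a (b (l 16027152) (l 16015160)) (b (l 15983976) (l 15973224))) (a (l 16056688) (b (l 15990760) (l 15980368))))))), by decide +kernel⟩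

def k9_pm_113 : ∃ t, chk3 f_pm_113 t 30 4 1 = true :=
  ⟨(a (b (b (l 1) (c (b (l 15990632) (l 15975184)) (b (l 15982728) (l 15969224)))) (b (c (b (l 15961264) (l 15948848)) (b (l 15956968) (l 15945896))) (c (b (l 15937896) (l 15928408)) (b (l 15935920) (l 15926992))))) (b (b (a (l 1) (a (l 1) (b (l 1) (l 15915664)))) (c (b (l 15936008) (l 15921632)) (b (a (l 15932944) (l 15897120)) (l 15902872)))) (b (c (b (l 15908832) (l 15897576)) (b (l 15892000) (l 15882384))) (c (b (l 15887856) (l 15879656)) (b (l 15873944) (l 15866624)))))), by decide +kernel⟩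

def k10_pm_113 : ∃ t, chk3 f_pm_113 t 31 4 1 = true :=
  ⟨(b (a (a (b (b (l 1) (a (l 15899136) (l 15882664))) (c (b (l 15893264) (l 15879712)) (b (l 15860608) (l 15849504)))) (b (c (b (l 15896128) (l 15879784)) (b (l 15849528) (l 15836104))) (c (b (l 15865136) (l 15852144)) (b (l 15824280) (l 15813952))))) (b (c (b (a (l 15868160) (l 15842392)) (a (l 15852352) (c (l 15842096) (l 15811896)))) (b (a (c (l 15826568) (l 15797736)) (c (l 15793360) (l 15759136))) (a (c (l 15813072) (l 15785928)) (c (l 15780592) (l 15748184))))) (c (b (a (l 15838256) (c (l 15827816) (l 15799152))) (a (l 15825832) (c (l 15815264) (l 15788056)))) (b (a (c (l 15801216) (l 15775736)) (c (l 15769512) (l 15738896))) (a (c (l 15790928) (l 15767056)) (c (l 15760024) (l 15731168))))))) (b (a (c (a (b (l 15867768) (l 15857400)) (b (l 15840776) (l 15831016))) (b (a (l 15839776) (l 15805040)) (a (l 15831352) (l 15797472)))) (c (a (b (l 15815056) (l 15805904)) (b (l 15791584) (l 15783048))) (b (a (l 15771008)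 (c (l 15752072) (l 15724896))) (a (l 15764344) (c (l 15745600) (l 15720000)))))) (a (c (b (a (l 15848608) (l 15822848)) (a (l 15841392) (l 15816288))) (b (a (l 15824168) (l 15791184)) (a (l 15818168) (l 15786120)))) (c (b (a (l 15798376) (l 15776160)) (a (l 15792480) (l 15770928))) (b (a (l 15758992) (c (l 15740544) (l 15716400))) (a (l 15754912) (c (l 15736880) (l 15714024)))))))), by decide +kernel⟩

def k11_pm_113 : ∃ t, chk3 f_pm_113 t 14 5 1 = true :=
  ⟨(b (a (c (b (a (b (l 16075088) (l 16063080)) (l 16036048)) (a (b (l 16053520) (l 16046296)) (l 16017136))) (b (a (b (l 16104976) (l 16092360)) (l 16058088)) (a (l 16074472) (l 16036112)))) (c (b (a (l 16020448) (b (l 15963848) (l 15955824))) (a (l 15983480) (l 15946592))) (b (a (l 16014064) (l 16029472)) (a (l 15994992) (l 15950664))))) (a (c (b (a (l 16039184) (b (l 16006840) (l 16002992))) (a (l 16033632) (l 16001800))) (b (a (l 16051416) (l 16015320)) (a (l 16029344) (l 15996504)))) (b (c (a (l 15973792) (l 15940464))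 (a (l 15977400) (l 15936808))) (a (c (l 15970696) (l 15961728)) (c (l 15941816) (l 15925648)))))), by decide +kernel⟩

def k12_pm_113 : ∃ t, chk3 f_pm_113 t 15 5 1 = true :=
  ⟨(c (b (a (b (a (b (l 15920376) (l 15913800)) (b (l 15873000) (l 15867888))) (a (l 15990840) (b (l 15864496) (l 15863048)))) (b (a (b (a (l 15835776) (l 15811368)) (l 15819832)) (b (a (l 15788248) (l 15767408)) (a (l 15785736) (l 15765640)))) (a (b (l 15818024) (l 15818288)) (b (a (l 15785120) (l 15765816)) (a (l 15786664) (l 15768208)))))) (a (a (b (l 15904512) (l 15910392)) (b (b (l 15863680) (l 15866520)) (l 15875296))) (b (a (b (l 15820792) (l 15825696)) (b (l 15802416) (l 15788376))) (a (b (l 15833248) (l 15843744)) (b (l 15798200) (l 15811288)))))) (a (b (b (a (b (l 15919056) (l 15912104)) (b (l 15860384) (l 15855224))) (a (l 15903104) (b (l 15851008) (l 15847520)))) (b (a (l 15893320) (l 15864760)) (a (l 15887120) (l 15842960)))) (b (b (a (b (a (l 15813312) (l 15782240)) (a (l 15809600) (l 15779560)))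 (b (a (l 15752064) (l 15723704)) (a (l 15750456) (l 15723240)))) (a (b (l 15792304) (l 15791032)) (b (a (l 15749992) (l 15723960)) (a (l 15750512) (l 15725736))))) (b (a (b (l 15790736) (l 15791632)) (b (a (l 15752128) (l 15728696)) (l 15743752))) (a (b (l 15794024) (l 15798400)) (b (l 15749184) (l 15756904))))))), by decide +kernel⟩

def k13_pm_113 : ∃ t, chk3 f_pm_113 t 6 6 1 = true :=
  ⟨(a (a (b (b (l 16193696) (l 16295080)) (b (c (l 16107792) (l 16096200)) (c (l 16065072) (l 16047016)))) (b (b (l 16295080) (l 16110544)) (b (l 16135992) (c (l 16054712) (l 16021040))))) (b (b (a (c (l 16107792) (l 16096200)) (c (l 16065072) (l 16047016))) (a (l 16135992) (c (l 16054712) (l 16021040)))) (b (a (l 16046256) (c (l 16047776) (l 15999688))) (a (c (l 16047776) (l 15999688)) (c (l 16047072) (l 15986352)))))), by decide +kernel⟩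

def k14_pm_113 : ∃ t, chk3 f_pm_113 t 6 14 1 = true :=
  ⟨(a (b (a (c (l 16017992) (l 15995072)) (c (l 16147624) (l 15980768))) (a (b (c (l 15977000) (l 15950616)) (c (l 15951424) (l 15919496))) (b (a (l 15966696) (l 15971896)) (c (a (l 15965280) (l 15979136)) (l 15921728))))) (b (a (c (l 16199648) (l 15974176)) (b (l 16016144) (l 16037872))) (a (b (a (l 15980256) (l 15992400)) (a (a (l 15960808) (l 15968912)) (a (l 15978320) (l 15989064)))) (b (a (l 16008720) (l 16029920)) (a (l 16007872) (l 16038688)))))), by decide +kernel⟩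

def k15_pm_113 : ∃ t, chk3 f_pm_113 t 6 15 1 = true :=
  ⟨(b (a (a (b (c (l 15925936) (l 15887232)) (c (l 15897000) (l 15849872))) (b (c (a (l 15945656) (l 15963736)) (l 15897488)) (c (c (l 15950880) (l 15917192)) (l 15869288)))) (a (b (a (b (l 15954376) (l 15947920)) (b (a (l 15971336) (l 15984904)) (l 15975104))) (c (a (l 15976344) (l 16014496)) (b (l 15914568) (l 15906064)))) (b (a (b (a (l 16000384) (l 16017864)) (b (l 16010016) (l 16010904))) (b (l 16048152) (a (l 16043504) (l 16069064)))) (a (c (a (l 16049592) (l 16076664)) (l 15962872)) (b (a (l 16049744) (l 16079208)) (a (l 16056000) (l 16089512))))))) (a (a (b (c (a (l 15857608) (l 15875496)) (a (l 15805384) (l 15815648))) (c (a (l 15828176) (l 15849688)) (a (l 15767632) (l 15782144)))) (b (c (a (l 15898288) (l 15927208)) (a (l 15830080) (l 15849904))) (c (a (l 15876904) (a (l 15901952) (l 15921328))) (a (l 15801520) (l 15827232))))) (a (b (c (a (l 15964048) (a (l 15998080) (l 16024400))) (a (l 15877072) (l 15913552)))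 (a (b (a (l 15900056) (l 15921272)) (c (l 15954272) (l 15858984))) (c (b (l 16010192) (b (l 16011472) (l 16013200))) (c (l 15932496) (l 15880872))))) (b (a (c (b (l 16068272) (l 16072728)) (l 16024696)) (c (b (l 16140656) (c (l 16183944) (l 16122192))) (a (l 16007808) (l 16044336)))) (a (c (b (c (l 16107320) (l 16049880)) (a (l 16066192) (a (l 16097352) (l 16119928)))) (b (l 15964232) (l 16073304))) (c (b (a (l 16142712) (l 16277208)) (c (a (b (l 16185024) (l 16193448)) (b (l 16241320) (b (l 16249560) (l 138470259950338063)))) (b (l 16146360) (a (l 16128272) (l 16183224))))) (b (a (l 16018328) (l 16061464)) (a (l 16027952) (a (l 16062976) (l 16088624)))))))))), by decide +kernel⟩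

def k16_pm_113 : ∃ t, chk3 f_pm_113 t 14 6 1 = true :=
  ⟨(b (a (b (c (l 16017992) (l 15995072)) (c (l 16147624) (l 15980768))) (b (a (c (l 15977000) (l 15950616)) (c (l 15951424) (l 15919496))) (c (a (l 15992240) (b (l 15965280) (l 15979136))) (a (l 15946416) (l 15921728))))) (a (b (c (l 16199648) (l 15974176)) (a (l 16016144) (l 16037872))) (b (a (b (l 15980256) (l 15992400)) (b (b (l 15960808) (l 15968912)) (b (l 15978320) (l 15989064)))) (a (b (l 16008720) (l 16029920)) (b (l 16007872) (l 16038688)))))), by decide +kernel⟩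

def k17_pm_113 : ∃ t, chk3 f_pm_113 t 15 6 1 = true :=
  ⟨(a (b (b (a (c (l 15925936) (l 15887232)) (c (l 15897000) (l 15849872))) (a (c (b (l 15945656) (l 15963736)) (l 15897488)) (c (c (l 15950880) (l 15917192)) (l 15869288)))) (b (a (b (a (l 15954376) (l 15947920)) (a (b (l 15971336) (l 15984904)) (l 15975104))) (c (b (l 15976344) (l 16014496)) (a (l 15914568) (l 15906064)))) (a (b (a (b (l 16000384) (l 16017864)) (a (l 16010016) (l 16010904))) (a (l 16048152) (b (l 16043504) (l 16069064)))) (b (c (b (l 16049592) (l 16076664)) (l 15962872)) (a (b (l 16049744) (l 16079208)) (b (l 16056000) (l 16089512))))))) (b (b (a (c (b (l 15857608) (l 15875496)) (b (l 15805384) (l 15815648))) (c (b (l 15828176) (l 15849688)) (b (l 15767632) (l 15782144)))) (a (c (b (l 15898288) (l 15927208)) (b (l 15830080) (l 15849904))) (c (b (l 15876904) (b (l 15901952) (l 15921328))) (b (l 15801520) (l 15827232))))) (b (a (c (b (l 15964048) (b (l 15998080) (l 16024400))) (b (l 15877072) (l 15913552)))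 (a (b (b (l 15900056) (l 15921272)) (c (l 16010192) (l 15907656))) (b (c (l 15954272) (l 15858984)) (c (a (l 16011472) (l 16013200)) (l 15906304))))) (a (b (c (a (l 16068272) (l 16072728)) (l 16024696)) (c (a (l 16140656) (c (l 16183944) (l 16122192))) (b (l 16007808) (l 16044336)))) (b (c (a (c (l 16107320) (l 16049880)) (b (l 16066192) (c (l 16138992) (l 16077968)))) (a (l 15964232) (c (l 15997880) (l 15939080)))) (c (a (b (l 16142712) (b (l 16180000) (l 16207120))) (b (a (l 16153032) (c (l 16193448) (l 16128272))) (a (c (l 16241320) (l 16173528)) (c (a (l 16249560) (l 138470259950338079)) (l 16183224))))) (a (b (l 16018328) (l 16061464)) (b (l 16027952) (b (l 16062976) (l 16088624)))))))))), by decide +kernel⟩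

def k18_pm_113 : ∃ t, chk3 f_pm_113 t 14 14 1 = true :=
  ⟨(b (a (c (b (l 16076264) (l 16096600)) (l 15998808)) (a (b (l 16056952) (l 16090664)) (b (l 16077504) (l 16126176)))) (b (a (a (l 16056952) (l 16090664)) (a (l 16133224) (l 16188256))) (a (a (l 16077504) (l 16126176)) (a (l 16188256) (l 16311208))))), by decide +kernel⟩

def k19_pm_113 : ∃ t, chk3 f_pm_113 t 14 15 1 = true :=
  ⟨(b (a (b (a (c (l 16161240) (l 16049192)) (b (l 16160048) (l 16354456))) (a (b (c (a (l 16171696) (l 16212640)) (b (l 16066552) (l 16073880))) (c (b (l 16207232) (l 16217888)) (l 16085024))) (b (a (a (l 16307808) (l 16204768)) (l 16283864)) (a (c (l 16333184) (l 16151912)) (b (c (l 16342960) (l 16196752)) (c (l 16364248) (l 16213840))))))) (b (a (b (l 16240608) (l 16470712)) (c (b (l 16424272) (l 16491976)) (l 16443680))) (a (b (c (l 16405768) (l 16252144)) (a (b (a (l 16317000) (l 16351104)) (c (b (b (l 16429008) (l 16436136)) (l 16488408)) (c (b (l 16312952) (l 16325088)) (l 16300600))))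 (b (a (l 16387928) (l 14)) (l 14)))) (b (c (l 16591216) (l 16412864)) (l 14))))) (a (a (b (c (b (a (l 16208616) (l 16262320)) (a (l 16229096) (a (l 16273656) (l 16306296)))) (b (l 16258528) (a (l 16094408) (l 16146432)))) (a (b (c (b (l 16245792) (l 16362568)) (l 16111536)) (b (c (c (b (l 16302952) (l 16309904)) (l 16234328)) (l 16125912)) (a (c (b (l 138986961711955983) (l 14)) (l 16121288)) (l 14)))) (b (b (c (l 16311800) (l 16163936)) (a (c (l 16308976) (l 16160376)) (l 14))) (l 14)))) (a (b (b (c (l 16324424) (l 16178248)) (c (a (l 16341584) (b (l 16369928) (l 16390008))) (c (b (l 16237840) (l 16253968)) (l 16168720)))) (a (a (b (b (b (l 16382648) (l 14)) (l 14)) (l 14)) (l 14)) (l 14))) (b (b (c (a (l 16377576) (a (l 16406528) (l 16447880))) (b (l 16231336) (l 16249776))) (a (b (c (l 16410080) (l 16250680)) (l 14)) (l 14))) (l 14)))) (b (a (b (a (a (b (c (l 16445648) (l 16282944)) (l 14)) (l 14)) (l 14)) (l 14)) (l 14)) (l 14)))), by decide +kernel⟩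

def k20_pm_113 : ∃ t, chk3 f_pm_113 t 15 14 1 = true :=
  ⟨(a (b (a (b (c (l 16161240) (l 16049192)) (a (l 16160048) (l 16354456))) (b (a (c (b (l 16171696) (l 16212640)) (a (l 16066552) (l 16073880))) (c (a (l 16207232) (l 16217888)) (l 16085024))) (a (a (l 16355672) (c (l 16440216) (l 16155776))) (b (c (l 16333184) (l 16151912)) (a (c (l 16342960) (l 16196752)) (c (l 16364248) (l 16213840))))))) (b (a (a (l 16240608) (l 16470712)) (b (a (l 16381824) (a (b (l 16317000) (l 16351104)) (c (a (a (l 16429008) (l 16436136)) (l 16488408)) (c (a (l 16312952) (l 16325088)) (l 16300600))))) (a (l 16530608) (a (b (l 16387928) (l 14)) (l 14))))) (a (c (a (l 16424272) (l 16491976)) (l 16443680)) (a (c (l 16591216) (l 16412864)) (l 14))))) (b (b (a (c (a (b (l 16208616) (l 16262320)) (b (l 16229096) (b (l 16273656) (l 16306296)))) (a (l 16258528) (b (l 16094408) (l 16146432)))) (b (a (c (c (l 16307488) (l 16216712)) (l 16111536)) (a (c (c (c (l 16324384) (l 16288392)) (l 16234328))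 (l 16125912)) (a (b (c (l 138986961711955999) (l 16118792)) (l 14)) (l 14)))) (a (a (c (l 16311800) (l 16163936)) (b (c (l 16308976) (l 16160376)) (l 14))) (l 14)))) (b (a (a (c (l 16324424) (l 16178248)) (c (a (l 16351072) (b (l 16350432) (l 16389992))) (c (a (l 16237840) (l 16253968)) (l 16168640)))) (b (a (a (a (b (l 16382648) (l 14)) (l 14)) (l 14)) (l 14)) (l 14))) (a (a (c (b (l 16377576) (b (l 16406528) (l 16447880))) (a (l 16231336) (l 16249776))) (a (a (c (l 16467488) (l 16264224)) (l 14)) (l 14))) (l 14)))) (a (b (a (a (b (b (c (l 16445632) (l 16282936)) (l 14)) (l 14)) (l 14)) (l 14)) (l 14)) (l 14)))), by decide +kernel⟩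

def k21_pm_113 : ∃ t, chk3 f_pm_113 t 15 15 1 = true :=
  ⟨(a (b (a (a (b (b (l 16450552) (l 14)) (l 14)) (l 14)) (l 14)) (l 14)) (l 14)), by decide +kernel⟩

theorem s22_pm_113 : ∃ t, chk3 f_pm_113 t 15 7 1 = true := ex3_b k20_pm_113 k21_pm_113

theorem s23_pm_113 : ∃ t, chk3 f_pm_113 t 14 7 1 = true := ex3_b k18_pm_113 k19_pm_113

theorem s24_pm_113 : ∃ t, chk3 f_pm_113 t 7 7 1 = true := ex3_a s23_pm_113 s22_pm_113

theorem s25_pm_113 : ∃ t, chk3 f_pm_113 t 7 6 1 = true := ex3_a k16_pm_113 k17_pm_113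

theorem s26_pm_113 : ∃ t, chk3 f_pm_113 t 7 3 1 = true := ex3_b s25_pm_113 s24_pm_113

theorem s27_pm_113 : ∃ t, chk3 f_pm_113 t 6 7 1 = true := ex3_b k14_pm_113 k15_pm_113

theorem s28_pm_113 : ∃ t, chk3 f_pm_113 t 6 3 1 = true := ex3_b k13_pm_113 s27_pm_113

theorem s29_pm_113 : ∃ t, chk3 f_pm_113 t 3 3 1 = true := ex3_a s28_pm_113 s26_pm_113

theorem s30_pm_113 : ∃ t, chk3 f_pm_113 t 7 5 1 = true := ex3_a k11_pm_113 k12_pm_113

theorem s31_pm_113 : ∃ t, chk3 f_pm_113 t 15 4 1 = true := ex3_a k9_pm_113 k10_pm_113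

theorem s32_pm_113 : ∃ t, chk3 f_pm_113 t 7 4 1 = true := ex3_a k8_pm_113 s31_pm_113

theorem s33_pm_113 : ∃ t, chk3 f_pm_113 t 7 2 1 = true := ex3_b s32_pm_113 s30_pm_113

theorem s34_pm_113 : ∃ t, chk3 f_pm_113 t 3 2 1 = true := ex3_a k7_pm_113 s33_pm_113

theorem s35_pm_113 : ∃ t, chk3 f_pm_113 t 3 1 1 = true := ex3_b s34_pm_113 s29_pm_113

theorem s36_pm_113 : ∃ t, chk3 f_pm_113 t 5 7 1 = true := ex3_b k5_pm_113 k6_pm_113

theorem s37_pm_113 : ∃ t, chk3 f_pm_113 t 4 15 1 = true := ex3_b k3_pm_113 k4_pm_113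

theorem s38_pm_113 : ∃ t, chk3 f_pm_113 t 4 7 1 = true := ex3_b k2_pm_113 s37_pm_113

theorem s39_pm_113 : ∃ t, chk3 f_pm_113 t 2 7 1 = true := ex3_a s38_pm_113 s36_pm_113

theorem s40_pm_113 : ∃ t, chk3 f_pm_113 t 2 3 1 = true := ex3_b k1_pm_113 s39_pm_113

theorem s41_pm_113 : ∃ t, chk3 f_pm_113 t 2 1 1 = true := ex3_b k0_pm_113 s40_pm_113

theorem s42_pm_113 : ∃ t, chk3 f_pm_113 t 1 1 1 = true := ex3_a s41_pm_113 s35_pm_113

theorem c_pm_113 : CertB 536870912 536870912 536870912 536870912 966367641 24778659 3 eng mog cd0q1 cd0q1 pd3 true true false .nn 1 1 3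
    ndB0q1 ndB0q1 pcB3 cut_pm_113 xt_pm_113 :=
  certB0 (fam := true) (s1 := true) (s2 := false) (a := 1) (b := 1) (c := 3) (cn := .nn) (n1 := ndB0q1) (n2 := ndB0q1) (pc := pcB3) (cut := cut_pm_113) (xt := xt_pm_113) (P1 := 536870912) (W1 := 536870912) (P2 := 536870912) (W2 := 536870912) (P3 := 966367641) (W3 := 24778659) (N0 := 3) (En := eng) (mo := mog) (C1 := cd0q1) (C2 := cd0q1) (C3 := pd3)
    rfl s42_pm_113

end Pool.Agent.Strip051.G.I9000_9231.Tab.C.BA00

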