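import Pool.Agent.Strip051.G.I9000_9231.Tab

/-! # Certificates B1 (generated) -/

set_option linter.all false
set_option maxRecDepth 100000

namespace Pool.Agent.Strip051.G.I9000_9231.Tab.C.BA00

open Pool.Agent.Strip051.PB Pool.Agent.Strip051.PB.T
open Pool.Agent.Strip051.G.I9000_9231.Tab

noncomputable def cut_pm_123 : Cut := Cut.of [[⟨3, 0, 0, 1449551462⟩], [⟨4, 0, 0, 2845415833⟩], [⟨0, 1, 0, 47710208⟩, ⟨1, 1, 0, 47710208⟩, ⟨2, 2, 0, 8388608⟩], [⟨0, 0, 1, 46137344⟩, ⟨1, 1, 0, 1572864⟩, ⟨2, 1, 1, 46137344⟩, ⟨0, 0, 0, 1013612281⟩, ⟨0, 1, 0, 128849018⟩, ⟨2, 1, 0, 1013612281⟩, ⟨2, 2, 0, 128849018⟩]]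

noncomputable def f_pm_123 : ℕ → ℕ → ℕ → ℕ → Bool := onCell 536870912 536870912 0 536870912 966367641 24778659
    (rowB 3 eng mog cd0q1 cd0q2 pd3 0 true true false .npn 1 2 3 (qsf 536870912 536870912 0 536870912 3) ndB0q1 ndB0q2 pcB3 cut_pm_123 Ext.none)

def k0_pm_123 : ∃ t, chk3 f_pm_123 t 2 2 1 = true :=
  ⟨(a (a (b (a (a (b (l 14) (b (l 14) (b (l 14) (c (l 16510472) (l 16397024))))) (l 14)) (l 14)) (b (b (b (a (c (a (l 16510824) (l 16540160)) (a (l 16358040) (l 16387752))) (l 14)) (a (c (c (l 16552120) (l 16472864)) (a (l 16317576) (l 16347200))) (a (c (l 16527640) (l 16378360)) (l 14)))) (a (c (c (a (l 16525936) (l 16505720)) (b (l 16446296) (l 16423048))) (b (a (c (l 16333016) (l 16215624)) (l 16305072)) (a (l 16224728) (b (l 16272264) (l 16256360))))) (c (a (c (l 16529824) (l 16451368)) (c (l 16535152) (l 16466704))) (a (c (l 16361648) (l 16264088)) (c (l 16388712) (l 16303912)))))) (a (c (b (c (l 16490568) (l 16397040)) (l 16325216)) (b (a (l 16227880) (l 16239680)) (a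 (l 16204280) (l 16214408)))) (c (b (b (a (l 16459504) (l 16465568)) (l 16442912)) (c (l 16452344) (l 16372040))) (b (b (a (l 16262096) (b (l 16291208) (l 16275432))) (l 16254960)) (a (l 16226632) (l 16240880))))))) (b (l 14) (b (b (l 14) (b (l 14) (a (a (c (l 16501496) (l 16359112)) (l 14)) (l 14)))) (a (c (b (a (b (l 16474920) (l 16451992)) (b (l 16487704) (l 16460840))) (a (l 16421136) (l 16428096))) (b (b (a (l 16313576) (l 16349280)) (a (l 16282624) (b (l 16314448) (l 16298320)))) (a (l 16257096) (l 16275232)))) (a (b (b (l 14) (c (l 16473144) (l 16338848))) (c (l 16437392) (b (l 16306360) (l 16286112)))) (b (l 14) (c (b (l 16459880) (l 16435744)) (b (b (l 16340864) (l 16324128)) (l 16307496))))))))) (a (b (l 14) (b (l 14) (a (a (b (l 14) (b (l 14) (c (l 16448080) (l 16332544)))) (l 14)) (l 14)))) (l 14))), by decide +kernel⟩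

def k1_pm_123 : ∃ t, chk3 f_pm_123 t 4 6 1 = true :=
  ⟨(a (b (c (a (b (l 16243984) (c (l 16367480) (l 16287384))) (b (l 16246328) (c (l 16363560) (l 16291056)))) (a (b (a (l 16156592) (l 16164864)) (c (l 16199064) (a (l 16099776) (l 16108152)))) (b (a (l 16175192) (c (l 16252560) (l 16162840))) (c (l 16274000) (a (l 16118664) (l 16131224)))))) (c (a (b (c (l 16320320) (l 16245264)) (a (l 16233568) (l 16228632))) (b (c (l 16313720) (l 16245632)) (a (l 16204408) (l 16202824)))) (a (b (c (a (l 16162480) (l 16164568)) (a (l 16072504) (l 16078440))) (c (a (l 16121312) (l 16121208)) (a (l 16039728) (l 16043064)))) (b (c (a (l 16168544) (l 16174360)) (a (l 16086440) (l 16096432))) (c (a (l 16122960) (l 16126512)) (a (l 16048408) (l 16055672))))))) (b (c (a (b (l 16234136) (c (l 16366000) (l 16301512))) (b (c (l 16424720) (l 16365968)) (c (l 16374984) (l 16318720)))) (c (a (b (l 16270656) (a (l 16224952) (l 16236448))) (b (l 16301040) (a (l 16249704) (l 16264720)))) (a (b (a (l 16179840)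 (l 16198832)) (a (l 16145776) (l 16162240))) (b (a (l 16219744) (l 16242552)) (a (l 16180584) (l 16200752)))))) (c (c (a (b (l 16313624) (l 16252008)) (b (l 16320216) (l 16255784))) (a (b (l 16252816) (l 16195904)) (b (l 16266792) (l 16206208)))) (a (b (c (a (l 16181960) (l 16191328)) (a (l 16108344) (l 16122112))) (c (a (l 16131832) (l 16138872)) (a (l 16064792) (l 16075696)))) (b (c (a (l 16202432) (l 16215264)) (a (l 16137680) (l 16155016))) (c (a (l 16147624) (l 16158064)) (a (l 16088328) (l 16102648)))))))), by decide +kernel⟩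

def k2_pm_123 : ∃ t, chk3 f_pm_123 t 4 14 1 = true :=
  ⟨(a (c (b (a (a (l 16169224) (l 16141432)) (c (l 16182664) (a (l 16128176) (l 16126208)))) (a (a (l 15966432) (a (l 16085400) (l 16081376))) (c (a (l 16100248) (l 16093464)) (a (l 16051184) (l 16046952))))) (b (a (c (a (l 16069904) (l 16067432)) (a (l 15998144) (l 15998752))) (c (a (l 16066784) (l 16067904)) (a (l 16001296) (l 16005688)))) (a (c (a (l 16007056) (l 16002032)) (a (l 15945864) (l 15943592))) (c (a (l 15998800) (l 15997288)) (a (l 15943176) (l 15986488)))))) (c (b (a (c (l 16176280) (a (l 16125928) (l 16127320))) (c (l 16176784) (a (l 16130408) (l 16135208)))) (a (c (a (l 16088368) (l 16084968)) (a (l 16044392) (l 16043488))) (c (a (l 16083312) (l 16083448)) (a (l 16044240) (l 16046680))))) (b (a (c (a (l 16070744) (l 16075272)) (a (l 16011856) (l 16019728))) (c (a (l 16081456) (l 16089288)) (a (l 16029248) (l 16040376)))) (a (a (b (l 15991744) (l 15953424)) (b (l 15995720) (l 15955872))) (c (a (l 16002624) (l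 16007600)) (a (l 16000440) (l 15987208))))))), by decide +kernel⟩

def k3_pm_123 : ∃ t, chk3 f_pm_123 t 4 15 1 = true :=
  ⟨(a (b (c (a (b (c (l 16041680) (l 15994520)) (a (l 15969688) (l 15958168))) (b (c (l 16021616) (l 15979152)) (a (l 15948368) (l 15940264)))) (a (b (a (b (l 15932320) (l 15910648)) (b (l 15926960) (l 15904776))) (a (l 15875952) (l 15868816))) (b (c (a (l 15936120) (l 15932624)) (a (l 15887200) (l 15886360))) (a (l 15863456) (l 15859792))))) (a (c (b (a (l 15913496) (l 15900640)) (a (c (l 15875568) (l 15839328)) (b (l 15857600) (l 15829448)))) (b (a (c (l 15850776) (l 15806440)) (c (l 15840896) (l 15798672))) (a (c (l 15801480) (b (l 15773040) (l 15751248))) (c (l 15789936) (b (l 15763912) (l 15741200)))))) (c (b (a (l 15889520) (l 15880088)) (a (b (l 15845440) (l 15816576)) (b (l 15834968) (l 15805392)))) (b (a (c (l 15832744) (l 15792664)) (c (l 15826256) (l 15788312))) (a (c (l 15780104) (b (l 15756512) (l 15732856))) (c (l 15771912) (b (l 15750728) (l 15726104))))))))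 (b (a (b (c (c (l 16008272) (l 15970416)) (c (a (l 15930736) (l 15930424)) (a (l 15887120) (l 15889392)))) (c (a (l 15933824) (l 15929040)) (a (l 15857744) (l 15857240)))) (b (c (c (l 16001880) (l 15968232)) (a (c (l 15931648) (l 15893120)) (c (l 15934400) (l 15898240)))) (c (l 15945984) (a (l 15858232) (l 15860672))))) (c (b (a (a (l 15872328) (l 15866224)) (a (l 15861800) (l 15859064))) (a (a (b (l 15826176) (l 15795880)) (b (l 15819040) (l 15788024))) (a (b (l 15813568) (l 15781824)) (b (l 15809776) (l 15777304))))) (a (b (a (c (l 15821360) (l 15785520)) (c (l 15818016) (l 15784208))) (a (c (l 15765280) (b (l 15746464) (l 15720856))) (c (l 15760160) (b (l 15743648) (l 15717024))))) (b (a (c (l 15816168) (l 15784304)) (l 15800888)) (a (c (l 15756504) (l 15728216)) (b (l 15755904) (l 15726296)))))))), by decide +kernel⟩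

def k4_pm_123 : ∃ t, chk3 f_pm_123 t 5 6 1 = true :=
  ⟨(b (a (a (a (b (c (l 16412008) (l 16298360)) (c (l 16361816) (c (l 16281504) (l 16222728)))) (b (c (l 16424704) (l 16321832)) (c (l 16373552) (c (l 16300080) (l 16246528))))) (b (a (c (l 16503160) (b (l 14) (l 16335048))) (l 14)) (c (c (l 16414400) (l 16374400)) (c (l 16331336) (a (l 16272072) (l 16299304)))))) (a (a (b (l 14) (c (l 16420760) (l 16347880))) (l 14)) (l 14))) (a (a (b (c (c (l 16333912) (l 16287760)) (c (a (l 16229848) (l 16246208)) (a (l 16174096) (l 16194936)))) (c (c (l 16266800) (l 16223504)) (c (a (l 16170224) (l 16184128)) (a (l 16118640) (l 16136328))))) (b (c (c (l 16355632) (l 16316296)) (c (a (l 16264384) (l 16284408)) (a (l 16217464) (l 16241624)))) (c (c (l 16286104) (l 16248456)) (a (c (l 16199824) (l 16155624)) (c (l 16217360) (l 16176472)))))) (a (b (c (c (l 16386520) (l 16353352)) (c (l 16339200) (a (l 16267544) (l 16295464)))) (c (c (l 16315112) (l 16282168)) (c (l 16289392) (a (l 16199016)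 (l 16223520))))) (a (b (c (l 16402072) (b (l 14) (l 16324168))) (c (l 16329288) (l 16340152))) (b (l 14) (c (l 16353336) (l 16315984))))))), by decide +kernel⟩

def k5_pm_123 : ∃ t, chk3 f_pm_123 t 5 14 1 = true :=
  ⟨(a (c (b (a (c (l 16184592) (a (l 16141768) (l 16150160))) (c (l 16200872) (l 16166464))) (a (c (a (l 16085464) (l 16089448)) (a (l 16050856) (l 16056824))) (c (l 16099648) (a (l 16064720) (l 16074728))))) (b (a (c (a (l 16098784) (l 16109992)) (a (l 16053096) (l 16067416))) (a (c (l 16122936) (l 16083264)) (c (l 16137680) (l 16100544)))) (a (c (a (l 16014176) (l 16022392)) (a (l 15996424) (l 15986176))) (a (b (l 16039288) (l 15991088)) (b (l 16052680) (l 16002640)))))) (b (a (c (c (l 16227248) (l 16196104)) (a (c (l 16154376) (l 16119416)) (c (l 16173296) (l 16140168)))) (c (a (l 16240112) (l 16263000)) (a (c (l 16194752) (l 16163152)) (l 16246056)))) (a (a (c (l 16101512) (b (l 16067776) (l 16015816))) (c (l 16116064) (b (l 16084848) (l 16030912)))) (c (a (l 16133664)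 (l 16154696)) (a (b (l 16104264) (l 16048296)) (b (l 16126504) (l 16068472))))))), by decide +kernel⟩

def k6_pm_123 : ∃ t, chk3 f_pm_123 t 5 15 1 = true :=
  ⟨(a (b (a (c (b (a (l 15986784) (l 15990088)) (a (l 15924936) (l 15927208))) (b (a (l 15921888) (l 15928720)) (b (a (l 15879848) (l 15885640)) (l 15851568)))) (c (b (a (l 15995224) (l 16002648)) (a (l 15931368) (l 15937712))) (b (a (l 15936952) (l 15946568)) (a (b (l 15892752) (l 15860328)) (l 15884504))))) (a (c (b (a (l 15858064) (l 15858880)) (a (b (l 15807720) (l 15774512)) (b (l 15807464) (l 15773504)))) (b (a (l 15802784) (l 15806088)) (a (b (l 15756272) (l 15725624)) (b (l 15758008) (l 15726288))))) (b (c (a (l 15861688) (l 15866760)) (a (l 15810720) (l 15816576))) (c (a (l 15791696) (l 15795296)) (a (b (l 15761016) (l 15728192)) (l 15748064)))))) (b (a (c (b (a (l 16012568) (l 16025224)) (b (l 15969200) (l 15933984))) (b (a (l 15957720) (l 15970712)) (a (l 15893840) (l 15904880)))) (c (b (a (l 16040928) (l 16060112))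 (a (l 15972232) (l 15990048))) (b (a (l 15985912) (l 16003840)) (a (l 15917976) (l 15933680))))) (a (b (c (l 15879024) (a (l 15823816) (l 15832704))) (c (a (l 15801344) (l 15810072)) (a (l 15752936) (l 15759360)))) (b (a (l 15870504) (l 15885544)) (a (c (l 15821808) (l 15767720)) (c (l 15836976) (l 15778576))))))), by decide +kernel⟩

def k7_pm_123 : ∃ t, chk3 f_pm_123 t 3 2 1 = true :=
  ⟨(l 14), by decide +kernel⟩

def k8_pm_123 : ∃ t, chk3 f_pm_123 t 6 6 1 = true :=
  ⟨(a (b (l 14) (a (a (b (l 14) (c (l 16380768) (l 16326464))) (l 14)) (l 14))) (l 14)), by decide +kernel⟩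

def k9_pm_123 : ∃ t, chk3 f_pm_123 t 12 7 1 = true :=
  ⟨(b (a (b (c (a (l 16289624) (l 16320536)) (a (l 16253472) (l 16264816))) (c (a (l 16179696) (l 16272280)) (a (b (l 16152160) (l 16092072)) (b (l 16181904) (l 16119816))))) (b (a (c (l 16377368) (l 16301752)) (l 14)) (c (a (b (l 16275024) (l 16213416)) (b (l 16316992) (l 16255168))) (a (b (l 16216560) (l 16152608)) (b (l 16257136) (l 16191600)))))) (b (a (c (b (a (l 16083328) (l 16111376)) (a (l 16011896) (l 16038600))) (b (a (l 16025176) (l 16050664)) (a (l 15952680) (l 15975768)))) (c (b (a (l 16145288) (l 16186392)) (a (c (l 16088320) (l 16054304)) (c (l 16129776) (l 16093040)))) (b (a (l 16081304) (l 16118360)) (a (l 16003992) (l 16038752))))) (b (a (a (l 15904232) (l 15927392)) (a (l 15977112) (c (l 16031168) (l 15953312)))) (a (c (a (l 15856168) (l 15880248)) (a (l 15792648) (l 15810776))) (c (a (l 15910416) (l 15948304)) (a (l 15834104) (l 15864176))))))), by decide +kernel⟩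

def k10_pm_123 : ∃ t, chk3 f_pm_123 t 13 7 1 = true :=
  ⟨(b (a (b (l 14) (a (b (l 14) (c (l 16305160) (l 16238176))) (l 14))) (l 14)) (a (b (a (b (c (a (l 16222912) (l 16250384)) (l 16163432)) (c (c (c (l 16190760) (l 16170672)) (l 16140784)) (c (l 16101368) (l 16062456)))) (b (a (c (l 16280688) (l 16203552)) (l 14)) (c (c (b (l 16262576) (l 16224072)) (l 16199744)) (a (l 16120864) (l 16150632))))) (b (a (c (c (a (l 16087760) (l 16115816)) (l 16058232)) (c (l 16015600) (l 15973528))) (c (b (a (l 16144600) (a (l 16169600) (l 16187488))) (l 16119720)) (a (l 16032312) (l 16103424)))) (a (c (l 16017072) (l 15903184)) (c (a (l 16040032) (l 16074056)) (l 15953624))))) (b (l 14) (a (b (b (a (c (c (l 16241560) (l 16191352)) (l 16117328)) (l 14)) (c (a (l 16175392) (l 16218560)) (l 16089456))) (c (b (a (l 16133704) (l 16177288)) (a (l 16091592) (l 16135504))) (a (l 16000992) (l 16038272)))) (b (l 14) (a (c (b (l 16289880) (c (l 16217984) (l 16153616))) (c (l 16112248) (l 16049968))) (a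 (b (l 14) (c (c (l 16262072) (l 16194704)) (l 16094056))) (l 14)))))))), by decide +kernel⟩

def k11_pm_123 : ∃ t, chk3 f_pm_123 t 7 3 1 = true :=
  ⟨(b (l 14) (a (l 14) (l 14))), by decide +kernel⟩

theorem s12_pm_123 : ∃ t, chk3 f_pm_123 t 6 7 1 = true := ex3_a k9_pm_123 k10_pm_123

theorem s13_pm_123 : ∃ t, chk3 f_pm_123 t 6 3 1 = true := ex3_b k8_pm_123 s12_pm_123

theorem s14_pm_123 : ∃ t, chk3 f_pm_123 t 3 3 1 = true := ex3_a s13_pm_123 k11_pm_123

theorem s15_pm_123 : ∃ t, chk3 f_pm_123 t 3 1 1 = true := ex3_b k7_pm_123 s14_pm_123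

theorem s16_pm_123 : ∃ t, chk3 f_pm_123 t 5 7 1 = true := ex3_b k5_pm_123 k6_pm_123

theorem s17_pm_123 : ∃ t, chk3 f_pm_123 t 5 3 1 = true := ex3_b k4_pm_123 s16_pm_123

theorem s18_pm_123 : ∃ t, chk3 f_pm_123 t 4 7 1 = true := ex3_b k2_pm_123 k3_pm_123

theorem s19_pm_123 : ∃ t, chk3 f_pm_123 t 4 3 1 = true := ex3_b k1_pm_123 s18_pm_123

theorem s20_pm_123 : ∃ t, chk3 f_pm_123 t 2 3 1 = true := ex3_a s19_pm_123 s17_pm_123

theorem s21_pm_123 : ∃ t, chk3 f_pm_123 t 2 1 1 = true := ex3_b k0_pm_123 s20_pm_123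

theorem s22_pm_123 : ∃ t, chk3 f_pm_123 t 1 1 1 = true := ex3_a s21_pm_123 s15_pm_123

theorem c_pm_123 : CertB 536870912 536870912 0 536870912 966367641 24778659 3 eng mog cd0q1 cd0q2 pd3 true true false .npn 1 2 3
    ndB0q1 ndB0q2 pcB3 cut_pm_123 Ext.none :=
  certB0 (fam := true) (s1 := true) (s2 := false) (a := 1) (b := 2) (c := 3) (cn := .npn) (n1 := ndB0q1) (n2 := ndB0q2) (pc := pcB3) (cut := cut_pm_123) (xt := Ext.none) (P1 := 536870912) (W1 := 536870912) (P2 := 0) (W2 := 536870912) (P3 := 966367641) (W3 := 24778659) (N0 := 3) (En := eng) (mo := mog) (C1 := cd0q1) (C2 := cd0q2) (C3 := pd3)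
    rfl s22_pm_123

noncomputable def cut_pm_202 : Cut := Cut.of [[⟨3, 0, 0, 1449551462⟩], [⟨4, 0, 0, 2845415833⟩], [⟨0, 1, 0, 53687091⟩, ⟨1, 0, 0, 53687091⟩, ⟨2, 1, 0, 53687091⟩]]

noncomputable def f_pm_202 : ℕ → ℕ → ℕ → ℕ → Bool := onCell 0 536870912 1073741824 536870912 966367641 24778659
    (rowB 3 eng mog cd0q2 cd0q0 pd2 1 true true false .pp 2 0 2 (qsf 0 536870912 0 536870912 2) ndB0q2 ndB0q0 pcB2 cut_pm_202 Ext.none)

def k0_pm_202 : ∃ t, chk3 f_pm_202 t 1 4 1 = true :=
  ⟨(a (a (l 1) (b (l 1) (a (l 1) (b (l 1) (b (l 1) (a (l 1) (c (b (l 1) (l 16155664)) (l 16116664)))))))) (a (b (l 1) (a (b (l 1) (a (b (a (l 1) (b (l 1) (l 16246232))) (c (a (l 16177808) (l 16223656)) (l 16157968))) (c (b (c (a (l 16191488) (l 16221000)) (l 16178168)) (c (l 16227208) (l 16218848))) (b (c (l 16165688) (l 16166184)) (c (l 16210384) (l 16222784)))))) (b (a (b (l 1) (a (b (l 1) (c (l 16218872) (l 16194784))) (l 6))) (l 6)) (a (b (c (b (a (l 16237616) (l 16272000)) (a (l 16257688) (l 16291936)))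 (a (l 16203544) (l 16235456))) (c (a (l 16268672) (l 16323328)) (b (l 16272272) (l 16294344)))) (a (b (b (l 6) (l 16315656)) (c (l 16360280) (l 16331272))) (b (l 6) (c (l 16400952) (l 16367304)))))))) (l 6))), by decide +kernel⟩

def k1_pm_202 : ∃ t, chk3 f_pm_202 t 2 5 1 = true :=
  ⟨(b (a (b (b (l 1) (a (b (l 1) (c (a (l 16149280) (l 16146072)) (l 16177824))) (c (a (a (l 16131784) (l 16134920)) (c (l 16131312) (l 16154096))) (a (l 16196624) (l 16190144))))) (b (a (a (c (c (l 16173456) (l 16227784)) (l 16229272)) (c (l 16132584) (l 16247808))) (c (a (l 16154896) (l 16204288)) (a (l 16272904) (l 16263544)))) (a (c (a (l 16166744) (l 16201552)) (l 16217912)) (c (a (l 16242704) (l 16269056)) (l 16199184))))) (b (a (b (a (c (l 16081168) (l 16125848)) (c (b (l 1) (l 16137728)) (l 16139008))) (a (c (l 16157608) (l 16192136)) (c (l 16179144) (l 16202904)))) (a (b (c (l 16133328) (l 16160984)) (c (l 16207944) (l 16222304))) (b (c (l 16171312) (l 16192064)) (c (l 16244672) (l 16250408)))))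 (a (c (b (a (l 16217760) (l 16237704)) (a (l 16280432) (l 16298120))) (b (a (l 16262640) (l 16270336)) (l 16253456))) (b (a (c (l 16264704) (l 16286344)) (c (l 16299168) (l 16310472))) (a (l 16231624) (l 16278248)))))) (a (c (b (b (a (a (l 16239568) (l 16272048)) (a (l 16289880) (l 16334792))) (a (a (l 16290928) (l 16300064)) (l 16273952))) (b (a (c (l 16359128) (l 16463208)) (l 16337456)) (a (c (l 16442224) (l 16373872)) (l 16378216)))) (b (a (a (l 16211280) (l 16265616)) (a (l 16261696) (l 16264880))) (a (c (a (l 16259240) (l 16290832)) (a (l 16169264) (l 16234352))) (c (l 16273176) (b (l 16388000) (l 16312056)))))) (b (a (a (b (l 16207256) (l 16294720)) (c (b (l 16358392) (l 16416776)) (l 16315584))) (a (b (l 16313112) (l 16371232)) (b (l 16355136) (l 16428768)))) (a (c (c (l 16350136) (l 16429584)) (c (l 16407952) (l 16306576))) (a (a (l 16341736) (l 16366256)) (b (l 16517952) (l 16526152))))))), by decide +kernel⟩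

def k2_pm_202 : ∃ t, chk3 f_pm_202 t 3 5 1 = true :=
  ⟨(a (b (a (b (a (b (c (l 16216952) (l 16230976)) (c (l 16288520) (l 16285656))) (b (c (l 16290384) (l 16276048)) (c (l 16338448) (l 16326472)))) (b (a (l 16277736) (l 16297816)) (a (l 16351648) (l 16387248)))) (b (a (b (c (a (l 16334448) (l 16366696)) (l 16328008)) (c (l 16394952) (l 16373576))) (b (c (a (l 16401800) (l 16440112)) (l 16305216)) (c (l 16439232) (l 16428008)))) (a (b (c (l 16437944) (l 16417944)) (l 16363408)) (b (c (l 16475832) (l 16464688)) (c (l 16529344) (l 16495880)))))) (a (b (a (b (l 16423224) (l 16490056)) (b (l 16451848) (l 16511952))) (a (b (l 16531464) (l 16534760)) (l 16473712))) (c (b (a (l 16446512) (l 16550040)) (a (l 16550240) (l 16533560))) (b (a (b (l 16495304) (l 16526512)) (l 16492616)) (a (l 16566768) (l 16568728)))))) (b (a (b (a (b (a (a (l 16430520) (l 16429400)) (l 6)) (c (l 16481648) (l 16448704))) (b (l 6) (b (l 6) (b (l 6) (c (l 16549696) (l 16444488)))))) (a (b (a (l 16440680) (l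 16492688)) (c (l 16588592) (l 16517040))) (a (b (l 16463304) (l 16498432)) (l 16437768)))) (b (l 6) (a (b (l 6) (a (l 16443432) (l 6))) (l 6)))) (a (a (b (b (l 16477888) (l 16467536)) (b (l 16439120) (l 16392032))) (b (a (b (l 16447144) (l 16419136)) (l 16379080)) (a (b (l 16393392) (l 16369840)) (l 16330992)))) (a (a (b (l 16296288) (c (l 16402400) (l 16474616))) (b (c (l 16365872) (l 16431752)) (b (l 16341584) (l 16320656)))) (a (b (b (l 16300808) (l 16296784)) (b (l 16274416) (l 16316648))) (b (b (l 6) (c (l 16304136) (l 16364152))) (b (c (l 16281792) (l 16342024)) (l 16248576)))))))), by decide +kernel⟩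

def k3_pm_202 : ∃ t, chk3 f_pm_202 t 2 12 1 = true :=
  ⟨(a (a (b (a (b (c (c (l 16452776) (l 16361504)) (c (l 16286792) (l 16187048))) (a (c (c (l 16374880) (l 16338832)) (a (l 16220576) (l 16183192))) (c (l 16248312) (l 16199280)))) (c (c (l 16339464) (l 16257872)) (b (l 16236344) (l 16168280)))) (b (c (a (a (c (c (l 16434616) (l 16384864)) (l 16307824)) (c (l 16409056) (l 16310392))) (c (l 16416640) (l 16327880))) (a (a (c (l 16200952) (l 16068744)) (l 16195800)) (c (l 16234960) (l 16138192)))) (c (a (c (a (l 16387736) (b (l 16386752) (l 16373736))) (a (l 16284232) (l 16287720))) (c (l 16387592) (l 16294088))) (c (a (a (l 16175936) (l 16169280)) (l 16196256)) (a (a (l 16063288) (l 16036008)) (l 16094440)))))) (b (b (c (c (l 16495376) (l 16434272)) (c (l 16349280) (l 16303464))) (c (c (l 16461824) (l 16375624)) (a (l 16272952) (l 16312696)))) (c (a (c (l 16327800) (l 16270976)) (c (l 16400240) (l 16356112))) (a (c (l 16252464) (l 16167672)) (c (l 16288008) (l 16217064)))))) (a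 (b (b (a (l 16333848) (l 16417496)) (c (l 16435712) (l 16282048))) (c (c (l 16351160) (l 16302888)) (c (l 16273424) (l 16178960)))) (b (c (a (l 16488216) (l 16494032)) (a (l 16429496) (l 16453256))) (c (a (l 16408432) (l 16437816)) (a (l 16359768) (l 16387648)))))), by decide +kernel⟩

def k4_pm_202 : ∃ t, chk3 f_pm_202 t 2 26 1 = true :=
  ⟨(a (a (b (c (a (c (a (l 16371304) (b (l 16362440) (l 16352848))) (a (l 16267656) (b (l 16235520) (l 16224808)))) (c (a (l 16358640) (l 16364120)) (l 16273656))) (a (a (b (l 16107056) (l 16100056)) (b (a (l 16087688) (l 16087680)) (a (l 16079328) (l 16092744)))) (c (l 16160440) (l 16053584)))) (b (a (c (c (a (l 16361816) (l 16344960)) (a (l 16258304) (l 16216304))) (a (l 16094336) (b (l 16097168) (l 16085528)))) (c (c (l 16356744) (l 16236624)) (c (l 16114480) (l 16003840)))) (a (c (c (l 16347824) (l 16221312)) (a (l 16089856) (l 16081392))) (c (a (c (l 16325008) (l 16202520)) (l 16316080)) (a (a (a (l 16055728) (l 16048320)) (l 16057488)) (l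 16075760)))))) (c (a (c (b (l 16372064) (l 16349296)) (b (l 16287768) (l 16260616))) (c (l 16287264) (l 16298136))) (a (c (b (l 16199592) (l 16167880)) (b (l 16107840) (l 16071400))) (c (l 16221776) (l 16142288))))) (a (c (a (c (l 16382016) (l 16321224)) (l 16284240)) (a (c (l 16257680) (l 16191520)) (l 16243200))) (a (c (l 16381744) (l 16299568)) (c (l 16392632) (l 16331024))))), by decide +kernel⟩

def k5_pm_202 : ∃ t, chk3 f_pm_202 t 2 54 1 = true :=
  ⟨(a (a (c (a (c (a (l 16351240) (l 16332360)) (b (l 16217264) (l 16214320))) (a (c (a (b (l 16321584) (l 16316408)) (b (l 16321104) (l 16312080))) (a (b (l 16232144) (l 16205584)) (b (l 16212712) (a (l 16200216) (l 16202520))))) (c (l 16320752) (l 16195688)))) (a (c (b (l 16107176) (l 16104544)) (a (l 16029040) (l 16043016))) (a (b (a (c (l 16127240) (l 16017808)) (l 16041088)) (a (b (l 16036136) (l 16029296)) (a (b (l 16026360) (l 16016592)) (l 16028520)))) (b (l 16080568) (c (l 16100816) (l 15986400)))))) (c (a (c (l 16329560)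 (l 16215432)) (a (l 16297408) (l 16306608))) (a (c (l 16118008) (l 16016664)) (a (l 16124704) (l 16147800))))) (a (c (a (l 16320176) (l 16337272)) (a (l 16180976) (l 16222168))) (a (l 16202256) (l 16329704)))), by decide +kernel⟩

def k6_pm_202 : ∃ t, chk3 f_pm_202 t 2 55 1 = true :=
  ⟨(a (a (b (a (c (c (l 16338096) (l 16222960)) (a (l 16099384) (c (l 16109328) (l 15993056)))) (c (a (a (c (l 16313408) (l 16202816)) (c (l 16287240) (a (l 16193936) (l 16192096)))) (c (l 16307536) (l 16199872))) (c (a (a (l 16087216) (a (l 16076552) (l 16095904))) (l 16087312)) (a (a (l 15967072) (a (l 15954568) (l 15974160))) (l 15970304))))) (a (c (c (l 16336736) (l 16216816)) (a (c (l 16138656) (l 16028016)) (c (l 16108512) (l 15992656)))) (b (c (a (c (l 16286008) (a (l 16201448) (l 16189392))) (c (l 16301432) (l 16191984))) (a (a (l 16047656) (c (l 16071616) (l 15949232))) (c (l 16077560) (l 15958616)))) (a (c (c (l 16305840) (l 16194456)) (c (l 16078008) (l 15956976))) (c (a (c (l 16296144) (l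 16183752)) (l 16245312)) (a (c (l 16066256) (l 15965104)) (l 16018008))))))) (a (c (c (a (l 16288464) (l 16315352)) (a (b (l 16213280) (l 16202976)) (l 16221344))) (a (b (l 16054440) (c (l 16095728) (l 15984184))) (b (l 16079256) (l 16065544)))) (c (a (l 16278536) (l 16288024)) (a (l 16096760) (l 16120424))))) (a (a (c (l 16301992) (l 16154448)) (c (l 16319592) (l 16196720))) (a (l 16118552) (l 16309584)))), by decide +kernel⟩

def k7_pm_202 : ∃ t, chk3 f_pm_202 t 8 14 2 = true :=
  ⟨(b (a (c (b (a (l 16325544) (l 16304440)) (a (l 16327200) (l 16305064))) (b (b (l 16218016) (a (l 16246248) (l 16219880))) (a (l 16207072) (b (l 16220936) (l 16222704))))) (c (a (b (a (l 16288608) (l 16278032)) (b (l 16303728) (l 16304120))) (b (a (b (a (l 16260936) (l 16291120)) (a (l 16290536) (l 16254704))) (b (l 16293320) (l 16244120))) (a (b (l 16287248) (l 16287256)) (b (a (l 16246280) (l 16279912)) (a (l 16278800) (b (l 16275504) (l 16273864))))))) (b (a (b (c (l 16221992) (l 16165152)) (l 16151496))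 (a (b (a (b (l 16179088) (l 16177384)) (b (l 16180144) (l 16175496))) (a (l 16176848) (b (l 16172200) (l 16170400)))) (b (l 16182840) (b (l 16175632) (l 16171000))))) (a (b (c (l 16221848) (l 16165616)) (c (l 16222824) (l 16166976))) (a (b (l 16173520) (l 16174232)) (b (a (b (a (l 16165656) (l 16165552)) (a (l 16165056) (l 16162560))) (l 16144904)) (a (l 16163784) (b (a (l 16159616) (l 16160136)) (a (l 16158752) (l 16156808)))))))))) (c (b (a (a (l 16331144) (l 16308000)) (a (b (l 16305096) (l 16306616)) (b (a (l 16287848) (l 16234384)) (l 16241168)))) (a (b (l 16323544) (l 16326824)) (a (l 16278448) (b (l 16242728) (l 16286760))))) (b (a (a (l 16213104) (l 16189928)) (b (a (l 16173320) (a (l 16175648) (b (l 16140104) (l 16161800)))) (a (l 16199432) (c (l 16199152) (l 16141472))))) (a (a (l 16221640) (l 16192112)) (b (a (l 16202584) (c (l 16201488) (l 16144312))) (a (l 16206360) (c (l 16204416) (l 16147808)))))))), by decide +kernel⟩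

def k8_pm_202 : ∃ t, chk3 f_pm_202 t 9 14 2 = true :=
  ⟨(b (a (c (b (a (l 16273280) (l 16300304)) (a (b (l 16283784) (l 16240544)) (l 16286608))) (b (a (b (l 16193096) (l 16183624)) (l 16201896)) (a (b (a (l 16171080) (l 16177992)) (a (l 16141384) (l 16169312))) (b (l 16188272) (l 16179664))))) (b (a (l 16282392) (l 16271080)) (a (b (l 16249528) (l 16242040)) (l 16255552)))) (b (a (a (a (b (c (a (b (l 16270528) (l 16268816)) (l 16270248)) (a (b (a (l 16154136) (l 16155168)) (a (l 16152936) (l 16151592))) (l 16155744))) (c (a (l 16247456) (b (l 16265936) (l 16264136))) (a (b (l 16151952) (l 16152768)) (b (l 16149944) (a (l 16147632) (l 16146888)))))) (c (b (l 16272568) (l 16266656)) (b (l 16160992) (l 16153008)))) (c (l 16232264) (b (l 16171400) (l 16163472)))) (a (b (l 16234872) (l 16228008)) (l 16241296))) (a (a (a (b (c (l 16224760) (b (a (l 16153888) (l 16125848)) (l 16151416))) (c (l 16268296) (l 16153568))) (b (c (c (l 16289424) (l 16233184)) (a (b (l 16145560) (a (l 16142808)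 (l 16142656))) (l 16147112))) (a (b (c (l 16259048) (l 16121136)) (c (l 16259480) (l 16142888))) (c (l 16256944) (b (l 16141584) (l 16138888)))))) (c (b (l 16265664) (l 16260320)) (b (l 16155856) (l 16130192)))) (a (c (l 16269192) (l 16166024)) (l 16228184))))), by decide +kernel⟩

def k9_pm_202 : ∃ t, chk3 f_pm_202 t 8 28 3 = true :=
  ⟨(a (b (a (b (c (l 16139480) (l 16029472)) (c (l 16141168) (l 16031904))) (b (c (l 16108608) (l 15993288)) (c (l 16109584) (l 15994912)))) (a (b (c (l 16143680) (l 16035280)) (c (l 16146992) (l 16039576))) (b (c (l 16111400) (l 15997504)) (c (l 16114032) (l 16001032))))) (a (b (b (c (c (l 16107088) (l 16047856)) (a (l 15966048) (l 15947816))) (c (c (l 16107208) (l 16048256)) (c (l 15988184) (l 15927048)))) (b (c (c (l 16108160) (l 16049544)) (c (l 15989808) (l 15929016))) (c (c (l 16109912) (l 16051688)) (c (l 15992360) (l 15931960))))) (b (a (b (a (b (c (l 16060024) (l 15957264)) (c (l 16058144) (l 15934224))) (b (c (l 16062272) (l 15939760)) (c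 (l 16056496) (l 15932808)))) (a (c (l 16057968) (l 15934408)) (b (c (a (l 16052344) (l 16051816)) (a (l 15927704) (l 15927376))) (c (l 16050408) (a (l 15927568) (l 15923608)))))) (b (c (l 16067312) (l 15947208)) (c (c (l 16085352) (l 16025208)) (c (l 15963920) (l 15901536))))) (a (b (c (l 16049320) (l 15941400)) (c (l 16045512) (l 15943560))) (b (a (b (a (c (l 16045064) (l 15930208)) (c (l 16045368) (l 15920440))) (c (b (l 16036784) (l 16042824)) (c (l 15949672) (l 15906816)))) (c (b (l 16049408) (l 16043776)) (b (l 15926000) (l 15919168)))) (a (c (l 16043472) (l 15918400)) (b (c (c (l 16069968) (l 16008360)) (a (b (l 15912952) (l 15911512)) (l 15914304))) (c (a (l 16037584) (b (l 16035888) (l 16034488))) (a (l 15911608) (b (l 15909792) (l 15908120))))))))))), by decide +kernel⟩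

def k10_pm_202 : ∃ t, chk3 f_pm_202 t 8 29 3 = true :=
  ⟨(b (c (a (a (b (l 16151072) (l 16155904)) (b (l 16117456) (l 16121640))) (a (b (c (l 16112440) (l 16054664)) (c (l 16115712) (l 16058448))) (b (a (l 16058240) (c (l 16071720) (l 16010376))) (c (l 16082512) (l 16022352))))) (a (a (b (l 16044752) (l 16050784)) (b (l 16005456) (l 16010752))) (a (b (c (l 15995792) (l 15935856)) (c (l 16000088) (l 15940672))) (b (a (l 15936160) (c (l 15947872) (l 15905216))) (c (l 15961048) (l 15898640)))))) (c (a (a (b (l 16161456) (l 16167704)) (b (l 16126552) (l 16132184))) (a (b (l 16091496) (l 16096488)) (b (c (l 16085872) (l 16026240)) (c (l 16089944) (l 16030880))))) (a (a (b (l 16057648) (l 16065320)) (b (l 16016896) (l 16023864))) (a (b (l 15986408) (l 15982176)) (b (c (l 15965456) (l 15903584)) (c (l 15970688) (l 15909400))))))), by decide +kernel⟩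

def k11_pm_202 : ∃ t, chk3 f_pm_202 t 9 28 3 = true :=
  ⟨(a (c (b (a (b (l 16083464) (l 16071640)) (l 16098912)) (c (a (b (l 16089264) (l 16078864)) (l 16103752)) (a (b (l 16030944) (l 16019384)) (l 16048888)))) (b (a (b (l 15969448) (l 15955184)) (l 15991760)) (c (a (b (l 15971504) (l 15958760)) (l 15992960)) (a (b (l 15911000) (l 15897048)) (l 15936000))))) (b (a (l 16070688) (l 16094816)) (a (c (l 16097752) (l 15993856)) (l 16070800)))), by decide +kernel⟩

def k12_pm_202 : ∃ t, chk3 f_pm_202 t 9 29 3 = true :=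
  ⟨(a (c (a (b (a (b (a (b (c (l 16064400) (l 16002600)) (a (l 16031184) (l 16022000))) (l 16035920)) (a (c (l 16061760) (l 15999784)) (b (a (l 16027304) (l 16029608)) (a (l 16025408) (l 16024888))))) (b (l 16044192) (l 16028784))) (a (b (b (a (l 16033128) (a (l 16026472) (l 16012264))) (l 16030440)) (l 16022936)) (b (a (b (l 16023976) (a (l 16020240) (l 16020496))) (l 16027000)) (a (b (a (l 16021064) (l 16017872)) (l 16020784)) (b (l 16019896) (a (l 16015640) (l 16016648))))))) (b (b (l 16060624) (l 16050544)) (b (l 16040816) (a (l 16025904) (l 16036928))))) (a (b (a (b (a (b (c (l 15939624) (l 15896496)) (a (l 15904592) (b (l 15904096) (l 15901960)))) (l 15911312)) (a (b (b (l 15903376) (l 15904008)) (l 15905440)) (b (a (l 15911064) (l 15903800)) (a (b (l 15898048) (l 15898216)) (l 15898032))))) (b (l 15922712) (c (l 15941632) (l 15878632)))) (a (b (a (l 15908688) (b (c (l 15929896) (l 15865256)) (l 15899384))) (c (l 15940112) (l 15876496))) (b (a (b (l 15897528) (a (b (l 15892616)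 (l 15892304)) (l 15893456))) (l 15902064)) (a (b (c (l 15924560) (l 15880696)) (l 15893776)) (b (l 15893328) (a (l 15908864) (l 15889512))))))) (b (b (l 15945344) (l 15933016)) (a (b (l 15913520) (l 15901944)) (l 15922856))))) (b (a (b (l 16008032) (l 15996976)) (l 16048264)) (a (c (l 16057848) (l 15945192)) (l 16006128)))), by decide +kernel⟩

def k13_pm_202 : ∃ t, chk3 f_pm_202 t 8 15 1 = true :=
  ⟨(a (a (b (c (b (c (l 16366112) (l 16274448)) (c (l 16375744) (l 16287328))) (b (b (c (l 16174632) (l 16073768)) (l 16130400)) (b (c (l 16190288) (l 16092760)) (l 16148896)))) (c (b (c (l 16386800) (l 16301944)) (c (l 16399448) (l 16318504))) (b (b (l 16161576) (l 16172216)) (b (l 16183544) (l 16195560))))) (b (c (b (c (l 16341088) (l 16201912)) (c (l 16349848) (l 16213792))) (b (b (c (l 16138496) (l 16031624)) (c (l 16145456) (l 16040136))) (b (c (l 16153000) (l 16049320)) (c (l 16161096) (l 16059152))))) (c (b (c (l 16360096) (l 16227496)) (c (l 16372008) (l 16285176))) (b (b (c (l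 16169712) (l 16069584)) (c (l 16178888) (l 16080672))) (b (c (l 16188736) (l 16092544)) (c (l 16199232) (l 16105184))))))) (b (c (b (c (a (l 16274064) (l 16259360)) (b (a (l 16210720) (l 16180088)) (a (l 16215640) (l 16184472)))) (c (a (l 16281936) (l 16255840)) (b (a (l 16221080) (l 16189384)) (a (l 16227000) (l 16194808))))) (b (a (b (c (l 16102184) (l 15989240)) (c (l 16108544) (l 15997064))) (b (c (c (l 16094696) (l 16036264)) (c (l 15976712) (l 15916072))) (c (l 16071368) (l 15953656)))) (a (b (c (l 16115504) (l 16005600)) (c (l 16123048) (l 16014808))) (b (c (l 16077744) (l 15961528)) (c (l 16084720) (l 15970104)))))) (c (c (b (a (l 16291368) (l 16264432)) (b (l 16306776) (l 16312656))) (b (b (a (l 16233376) (l 16200712)) (a (l 16240256) (l 16207152))) (b (a (l 16247720) (l 16214192)) (l 16207344)))) (b (a (b (c (l 16131136) (l 16024656)) (c (l 16139824) (l 16035192))) (b (c (l 16092272) (l 15979344)) (c (l 16100456) (l 15989328)))) (a (b (c (l 16149208) (l 16046552)) (c (l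 16159280) (l 16058712))) (b (c (l 16109376) (l 16000168)) (c (l 16119008) (l 16011848)))))))), by decide +kernel⟩

def k14_pm_202 : ∃ t, chk3 f_pm_202 t 9 15 4 = true :=
  ⟨(a (b (b (b (a (a (l 16270512) (b (l 16257776) (l 16258464))) (c (l 16282824) (l 16227520))) (a (l 16266784) (a (a (b (l 16251120) (l 16251384)) (l 16249768)) (l 16251888)))) (a (b (l 16269808) (l 16273264)) (a (b (a (l 16253416) (b (l 16247576) (l 16247736))) (l 16253240)) (b (l 16226352) (a (b (l 16244304) (l 16244352)) (l 16243624)))))) (b (a (b (l 16277128) (l 16281448)) (b (a (l 16256776) (a (l 16246584) (b (l 16241272) (l 16241232)))) (c (l 16281392) (l 16226024)))) (a (l 16248936) (b (l 16237400) (l 16263344))))) (b (b (a (l 16258968) (l 16265232)) (a (b (l 16251880) (l 16247416)) (l 16255800))) (a (b (a (b (l 16241664) (a (b (l 16238560) (l 16238488)) (l 16238488))) (l 16242760)) (a (b (a (l 16240896) (b (l 16236224) (l 16236120))) (l 16210648)) (b (l 16237184) (b (l 16234904) (l 16213248))))) (b (l 16247312)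 (b (l 16241744) (l 16238440)))))), by decide +kernel⟩

def k15_pm_202 : ∃ t, chk3 f_pm_202 t 9 15 5 = true :=
  ⟨(a (b (a (b (b (a (l 16156960) (a (l 16145344) (b (l 16137792) (l 16138424)))) (c (l 16182024) (l 16123736))) (b (c (l 16186072) (l 16128472)) (c (l 16190624) (l 16133760)))) (b (a (b (c (l 16167776) (l 16108568)) (a (b (l 16112880) (l 16134320)) (b (l 16134680) (l 16131720)))) (b (l 16145008) (l 16138272))) (a (b (a (l 16137328) (b (a (l 16130488) (l 16129360)) (l 16130552))) (l 16137816)) (b (b (l 16133392) (l 16130344)) (a (b (a (l 16126976) (l 16126376)) (l 16106152)) (l 16127376)))))) (b (a (b (c (l 16195648) (l 16139568)) (l 16173760)) (b (a (l 16142864) (a (l 16130336) (b (a (l 16123808) (l 16123712)) (a (l 16125328) (l 16122376))))) (c (l 16169072) (l 16110672)))) (b (a (l 16180384) (c (l 16174840) (l 16117304))) (a (l 16187624) (c (l 16181200) (l 16124616)))))) (b (b (a (b (l 16155416) (l 16148688)) (l 16165672)) (a (b (l 16142216) (l 16135976)) (l 16152688)))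 (a (b (b (a (l 16102992) (l 16133464)) (a (a (b (l 16100544) (a (l 16122368) (l 16119904))) (l 16122704)) (l 16127872))) (a (b (a (l 16124744) (b (l 16119432) (a (l 16119896) (l 16117920)))) (b (l 16125272) (l 16128688))) (b (l 16122688) (a (b (l 16117792) (l 16091312)) (l 16119624))))) (b (l 16140824) (b (l 16132896) (l 16128120)))))), by decide +kernel⟩

def k16_pm_202 : ∃ t, chk3 f_pm_202 t 9 30 3 = true :=
  ⟨(a (a (b (b (a (c (l 16038008) (l 15914248)) (c (a (l 16024120) (b (a (l 16016024) (l 16013536)) (l 16015992))) (a (l 15898008) (b (a (l 15888432) (l 15885696)) (l 15888616))))) (c (c (l 16064136) (l 16003288)) (c (l 15941272) (l 15878136)))) (b (c (c (l 16069560) (l 16009416)) (c (l 15948112) (l 15885688))) (c (c (l 16075592) (l 16016200)) (c (l 15955648) (l 15894000))))) (b (b (b (c (l 16024600) (l 15901128)) (a (a (c (l 16012600) (a (l 15883648) (l 15886080))) (l 15955192)) (l 15965032))) (a (a (b (c (a (l 16011440) (l 16009720)) (a (l 15883528) (l 15881752))) (c (l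 16011632) (l 15883984))) (c (b (l 16013016) (l 16009184)) (c (l 15916416) (l 15851752)))) (c (l 16019168) (l 15895184)))) (a (b (a (c (l 16015632) (l 15888992)) (b (c (a (l 16007360) (l 16006360)) (a (l 15879232) (l 15878368))) (c (a (l 16009808) (l 16005496)) (a (l 15882304) (l 15877296))))) (c (l 16006280) (c (l 15922712) (l 15858568)))) (b (b (c (l 16012824) (l 15887320)) (a (c (l 16006152) (l 15878672)) (l 15954544))) (a (b (c (a (l 16003744) (l 16003440)) (a (b (l 15874896) (l 15875528)) (l 15875480))) (c (a (l 16006016) (l 16002096)) (c (l 15908640) (l 15864464)))) (c (b (l 16007384) (l 16003480)) (b (l 15880936) (l 15876080)))))))) (b (a (b (c (l 16044232) (l 15928432)) (c (l 16035544) (l 15917704))) (c (l 16061160) (l 15952224))) (a (c (b (l 16027160) (a (l 16013608) (l 16024432))) (b (l 15907304) (a (l 15889760) (l 15904640)))) (c (l 16044400) (l 15931504))))), by decide +kernel⟩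

def k17_pm_202 : ∃ t, chk3 f_pm_202 t 9 31 3 = true :=
  ⟨(a (b (a (b (c (c (l 16082192) (l 16023600)) (c (l 15963864) (l 15903032))) (c (c (l 16089448) (l 16031720)) (c (l 15972848) (l 15912904)))) (b (a (c (l 16023352) (l 15898936)) (a (c (l 16008392) (l 15881440)) (b (c (a (l 15990064) (l 16000896)) (a (b (l 15871792) (l 15871976)) (l 15873040))) (a (c (l 16002536) (l 15874704)) (c (l 15988656) (b (l 15870464) (l 15870464))))))) (c (c (l 16050904) (l 15989880)) (c (l 15927656) (l 15864296))))) (a (b (c (l 16058688) (c (l 15982696) (l 15923696))) (c (l 16078360) (l 15964512))) (b (c (c (l 16058432) (l 15998304)) (c (l 15936984) (l 15874544))) (c (c (l 16066688) (l 16007520)) (c (l 15947184) (l 15885728)))))) (a (b (b (b (c (l 16013152) (l 15889904)) (a (c (l 16003912) (l 15877680)) (l 15954256))) (a (a (b (a (c (l 15997888) (b (l 15869328) (l 15869152))) (c (l 15998856) (l 15871184))) (a (c (l 15999544) (l 15871648)) (c (l 15996784) (b (l 15868376) (l 15868032))))) (c (l 16001160)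 (l 15874584))) (c (l 16009304) (l 15885776)))) (a (b (a (c (b (l 16000824) (l 16004856)) (b (l 15873376) (l 15878336))) (b (c (a (l 15995832) (l 15997328)) (a (l 15878208) (l 15869936))) (c (a (l 15997136) (l 15995032)) (a (l 15869296) (l 15867040))))) (c (c (l 16036768) (l 15975000)) (c (l 15912008) (l 15847864)))) (b (c (l 16002448) (l 15877176)) (a (b (c (l 15995496) (a (l 15866528) (l 15869240))) (c (a (l 15995352) (l 15993856)) (a (l 15867680) (l 15866184)))) (c (l 15998784) (l 15872864)))))) (b (c (l 16036800) (b (l 15916880) (l 15907760))) (c (b (l 16018488) (l 16012136)) (b (l 15899200) (l 15891208)))))), by decide +kernel⟩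

def k18_pm_202 : ∃ t, chk3 f_pm_202 t 5 7 1 = true :=
  ⟨(b (a (b (c (a (b (l 16285304) (l 16269952)) (b (l 16303224) (l 16288088))) (c (a (l 16137992) (l 16195936)) (a (l 16075640) (l 16125872)))) (c (a (b (l 16276768) (l 16255832)) (b (l 16274032) (l 16260952))) (a (b (l 16099704) (a (l 16051336) (l 16074688))) (b (l 16128400) (l 16107960))))) (b (c (a (l 16311568) (l 16324464)) (a (l 16201088) (l 16236624))) (c (a (l 16283520) (l 16296344)) (a (l 16158936) (l 16195240))))) (a (c (b (a (b (a (l 16225832) (l 16235296)) (a (l 16214616) (l 16224008))) (b (l 16248736) (l 16237328))) (a (b (a (l 16183456) (l 16213784)) (a (l 16187768) (l 16204944))) (a (l 16218200) (l 16226624)))) (b (a (b (a (l 16031608) (l 16055088)) (a (l 15992000) (l 16036528))) (a (l 16068216) (l 16089824))) (a (b (c (l 16059784) (l 15996480)) (a (c (l 16036072) (l 15923688)) (l 16004192))) (b (l 16053120) (l 16017088))))) (b (c (a (l 16258712) (l 16271184)) (a (l 16120384) (l 16157064))) (c (a (l 16238008) (l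 16250168)) (a (l 16087072) (l 16124168)))))), by decide +kernel⟩

def k19_pm_202 : ∃ t, chk3 f_pm_202 t 3 6 1 = true :=
  ⟨(b (c (a (a (b (l 16423808) (a (l 16443600) (l 16447704))) (b (a (l 16493440) (l 16481872)) (a (l 16447664) (l 16418376)))) (a (a (b (b (l 16467048) (l 16445992)) (l 16397208)) (b (a (l 16366096) (l 16358592)) (a (l 16392824) (l 16366304)))) (a (b (l 16237928) (l 16265560)) (b (a (l 16277176) (l 16231992)) (a (l 16240464) (l 16194080)))))) (a (a (b (a (l 16473744) (l 16492200)) (a (l 16412448) (l 16435616))) (b (a (l 16506936) (l 16514888)) (a (l 16454984) (l 16467192)))) (a (a (b (l 16511352) (l 16468376)) (b (a (l 16500992) (l 16476416)) (a (l 16460560) (l 16439840)))) (a (b (l 16328912) (l 16312128)) (b (a (l 16340344) (l 16289904)) (l 16169328)))))) (b (c (a (a (a (l 16401088) (l 16407440)) (a (l 16410176) (l 16403808))) (a (a (l 16383576) (a (l 16358960) (l 16333808))) (a (l 16252224) (a (l 16204256) (l 16156280))))) (a (a (a (l 16359448) (l 16385912))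 (a (l 16408752) (l 16423816))) (a (a (l 16406120) (a (l 16420696) (l 16361264))) (a (l 16294376) (l 16147936))))) (a (a (a (c (l 16365888) (l 16312304)) (c (l 16373344) (l 16340880))) (a (c (l 16376552) (l 16365296)) (c (l 16370720) (l 16381752)))) (a (a (c (l 16350672) (l 16385952)) (a (l 16205208) (a (l 16214792) (l 16219992)))) (a (c (l 16240160) (l 16276744)) (c (a (l 16168768) (l 16119728)) (l 16105656))))))), by decide +kernel⟩

def k20_pm_202 : ∃ t, chk3 f_pm_202 t 3 7 1 = true :=
  ⟨(a (b (a (b (a (c (l 16334568) (l 16268704)) (c (l 16342216) (l 16298328))) (a (c (l 16306048) (l 16227624)) (c (l 16313296) (l 16257552)))) (b (a (c (l 16345032) (l 16322984)) (c (l 16339016) (l 16339968))) (a (b (l 16307968) (l 16291136)) (l 16241424)))) (a (b (c (a (l 16280792) (l 16287344)) (a (l 16190200) (l 16220064))) (a (c (l 16259264) (l 16157496)) (c (l 16265624) (l 16167072)))) (b (a (c (l 16289624) (l 16245752)) (c (l 16282576) (l 16263096))) (a (c (l 16267280) (l 16192768)) (c (l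 16259344) (l 16209936)))))) (a (b (a (b (c (l 16318456) (l 16344248)) (c (l 16288240) (l 16304288))) (b (a (l 16210600) (a (l 16261584) (l 16206496))) (c (l 16168856) (l 16148496)))) (a (b (b (l 16271816) (l 16235824)) (c (l 16236704) (l 16214400))) (b (a (l 16122600) (c (l 16212904) (l 16253456))) (b (l 16050512) (c (l 16192128) (l 16217216)))))) (b (a (b (a (l 16257408) (l 16208288)) (a (l 16225768) (l 16154760))) (b (c (a (l 16135800) (l 16085832)) (l 15982336)) (a (b (l 16130976) (l 16114816)) (b (l 16077144) (l 16060472))))) (a (b (b (l 16094600) (a (l 16189368) (l 16138232))) (a (a (l 16034240) (l 16156912)) (l 16117480))) (b (a (b (l 16099200) (l 16084128)) (b (l 16023360) (l 16028712))) (a (b (l 16069576) (l 16055512)) (b (l 15992608) (l 15977936)))))))), by decide +kernel⟩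

theorem s21_pm_202 : ∃ t, chk3 f_pm_202 t 3 3 1 = true := ex3_b k19_pm_202 k20_pm_202

theorem s22_pm_202 : ∃ t, chk3 f_pm_202 t 9 15 3 = true := ex3_b k16_pm_202 k17_pm_202

theorem s23_pm_202 : ∃ t, chk3 f_pm_202 t 9 15 2 = true := ex3_c k14_pm_202 k15_pm_202

theorem s24_pm_202 : ∃ t, chk3 f_pm_202 t 9 15 1 = true := ex3_c s23_pm_202 s22_pm_202

theorem s25_pm_202 : ∃ t, chk3 f_pm_202 t 4 15 1 = true := ex3_a k13_pm_202 s24_pm_202

theorem s26_pm_202 : ∃ t, chk3 f_pm_202 t 9 14 3 = true := ex3_b k11_pm_202 k12_pm_202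

theorem s27_pm_202 : ∃ t, chk3 f_pm_202 t 8 14 3 = true := ex3_b k9_pm_202 k10_pm_202

theorem s28_pm_202 : ∃ t, chk3 f_pm_202 t 4 14 3 = true := ex3_a s27_pm_202 s26_pm_202

theorem s29_pm_202 : ∃ t, chk3 f_pm_202 t 4 14 2 = true := ex3_a k7_pm_202 k8_pm_202

theorem s30_pm_202 : ∃ t, chk3 f_pm_202 t 4 14 1 = true := ex3_c s29_pm_202 s28_pm_202

theorem s31_pm_202 : ∃ t, chk3 f_pm_202 t 4 7 1 = true := ex3_b s30_pm_202 s25_pm_202

theorem s32_pm_202 : ∃ t, chk3 f_pm_202 t 2 7 1 = true := ex3_a s31_pm_202 k18_pm_202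

theorem s33_pm_202 : ∃ t, chk3 f_pm_202 t 2 27 1 = true := ex3_b k5_pm_202 k6_pm_202

theorem s34_pm_202 : ∃ t, chk3 f_pm_202 t 2 13 1 = true := ex3_b k4_pm_202 s33_pm_202

theorem s35_pm_202 : ∃ t, chk3 f_pm_202 t 2 6 1 = true := ex3_b k3_pm_202 s34_pm_202

theorem s36_pm_202 : ∃ t, chk3 f_pm_202 t 2 3 1 = true := ex3_b s35_pm_202 s32_pm_202

theorem s37_pm_202 : ∃ t, chk3 f_pm_202 t 1 3 1 = true := ex3_a s36_pm_202 s21_pm_202

theorem s38_pm_202 : ∃ t, chk3 f_pm_202 t 1 5 1 = true := ex3_a k1_pm_202 k2_pm_202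

theorem s39_pm_202 : ∃ t, chk3 f_pm_202 t 1 2 1 = true := ex3_b k0_pm_202 s38_pm_202

theorem s40_pm_202 : ∃ t, chk3 f_pm_202 t 1 1 1 = true := ex3_b s39_pm_202 s37_pm_202

theorem c_pm_202 : CertB 0 536870912 0 536870912 966367641 24778659 3 eng mog cd0q2 cd0q0 pd2 true true false .pp 2 0 2
    ndB0q2 ndB0q0 pcB2 cut_pm_202 Ext.none :=
  certB1 (fam := true) (s1 := true) (s2 := false) (a := 2) (b := 0) (c := 2) (cn := .pp) (n1 := ndB0q2) (n2 := ndB0q0) (pc := pcB2) (cut := cut_pm_202) (xt := Ext.none) (P1 := 0) (W1 := 536870912) (P2 := 0) (W2 := 536870912) (P3 := 966367641) (W3 := 24778659) (N0 := 3) (En := eng) (mo := mog) (C1 := cd0q2) (C2 := cd0q0) (C3 := pd2)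
    rfl (fun _ => rfl) s40_pm_202

noncomputable def cut_pm_203 : Cut := Cut.of [[⟨3, 0, 0, 1449551462⟩], [⟨4, 0, 0, 2845415833⟩]]

noncomputable def f_pm_203 : ℕ → ℕ → ℕ → ℕ → Bool := onCell 0 536870912 1610612736 536870912 966367641 24778659
    (rowB 3 eng mog cd0q2 cd0q0 pd3 1 true true false .up 2 0 3 (qsf 0 536870912 0 536870912 3) ndB0q2 ndB0q0 pcB3 cut_pm_203 Ext.none)

def k0_pm_203 : ∃ t, chk3 f_pm_203 t 8 4 1 = true :=
  ⟨(a (b (b (c (b (a (l 16468400) (l 16459208)) (c (l 16575184) (l 16582096))) (b (c (l 16473416) (l 16353152)) (c (l 16479688) (l 16367360)))) (c (b (c (l 16616144) (l 16583672)) (c (l 16654520) (l 16587584))) (b (c (l 16488872) (l 16384904)) (c (l 16500736) (l 16405472))))) (a (l 14) (b (b (b (c (l 16600272) (l 16452992)) (l 14)) (l 14)) (l 14)))) (b (b (c (c (b (l 16471944) (l 16537664)) (c (l 16583128) (l 16525720))) (b (c (l 16430392) (l 16291520)) (c (l 16434264) (l 16303432)))) (c (b (c (l 16600520) (l 16552976)) (c (l 16639520) (l 16533808))) (b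 (c (l 16441312) (l 16319016)) (c (l 16451296) (l 16337952))))) (b (c (c (b (l 16638792) (l 16637904)) (b (l 16558944) (l 16565336))) (b (c (l 16463992) (l 16359928)) (c (l 16479160) (l 16384648)))) (b (c (c (l 16638912) (l 16573808)) (c (l 16496584) (l 16411816))) (l 14))))), by decide +kernel⟩

def k1_pm_203 : ∃ t, chk3 f_pm_203 t 9 4 1 = true :=
  ⟨(b (c (b (b (a (c (l 16435384) (l 16488648)) (a (c (l 16404032) (l 16452616)) (l 16380136))) (a (c (l 16523120) (l 16493256)) (a (l 16401856) (c (l 16509632) (l 16467304))))) (a (c (c (l 16546808) (l 16602544)) (c (l 16549808) (l 16491432))) (b (c (l 16448928) (c (l 16523192) (l 16454256))) (c (l 16603912) (l 16486856))))) (c (b (a (b (l 16386400) (l 16387840)) (b (a (l 16352616) (l 16339864)) (a (l 16351872) (l 16332008)))) (a (b (l 16392704) (l 16400776)) (b (a (l 16355088) (l 16329816)) (l 16348296)))) (b (a (b (l 16228488) (l 16238064)) (a (b (b (l 16179176) (l 16180864)) (l 16187344)) (b (l 16166840) (a (l 16142104) (l 16157112)))))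 (a (b (l 16251648) (l 16268928)) (b (a (l 16199416) (a (l 16172416) (l 16135576))) (l 16197016)))))) (b (b (c (c (l 16523352) (a (l 16523504) (l 16487008))) (a (c (l 16411824) (l 16289632)) (c (l 16357664) (l 16216416)))) (c (c (l 16519192) (a (l 16528080) (l 16489728))) (a (c (l 16425616) (l 16313448)) (c (l 16370072) (l 16239352))))) (c (c (b (l 16517032) (a (l 16614480) (l 16586896))) (a (b (l 16534904) (l 16543840)) (b (l 16494864) (l 16502272)))) (c (a (b (l 16441936) (l 16460520)) (b (l 16385272) (l 16402992))) (a (b (l 16340088) (l 16369152)) (b (l 16265472) (l 16294400))))))), by decide +kernel⟩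

def k2_pm_203 : ∃ t, chk3 f_pm_203 t 5 4 1 = true :=
  ⟨(b (a (c (b (a (b (l 16402352) (l 16370640)) (l 16326904)) (a (b (a (l 16389416) (l 16459528)) (c (l 16580776) (l 16456016))) (c (l 16553992) (l 16433968)))) (b (a (c (l 16325416) (l 16140272)) (c (l 16311160) (l 16158112))) (a (c (b (l 16313080) (l 16309704)) (b (l 16150488) (a (a (l 16152960) (l 16146944)) (l 16145928)))) (b (l 16223792) (l 16219272))))) (c (b (a (l 16443312) (l 16451400)) (a (l 16402952) (l 16431384))) (b (a (l 16223336) (l 16206336)) (a (l 16208456) (l 16149408))))) (a (c (b (a (b (c (l 16573472) (l 16410320)) (a (l 16415336) (l 16358024))) (c (l 16539720) (l 16423736))) (a (c (b (l 16562392) (l 16559192)) (b (l 16453312) (l 16459168))) (c (l 16530432) (l 16400672)))) (b (a (b (a (c (l 16316224) (l 16139528)) (l 16225112)) (a (c (l 16326616) (l 16181088)) (b (l 16227136) (l 16199320)))) (b (l 16217560) (l 16218672))) (a (a (b (l 16254080) (l 16297920)) (b (c (l 16311592) (l 16147336)) (l 16262208))) (b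 (l 16201880) (a (a (l 16237896) (l 16230760)) (l 16226024)))))) (c (b (a (l 16369080) (l 16396912)) (c (l 16475952) (l 16376352))) (b (a (l 16204792) (l 16103536)) (a (l 16212128) (l 69355383655)))))), by decide +kernel⟩

def k3_pm_203 : ∃ t, chk3 f_pm_203 t 6 4 1 = true :=
  ⟨(b (a (c (b (c (l 16443288) (l 16322112)) (c (l 16399904) (l 16260704))) (b (a (l 16081120) (b (l 16168784) (l 16158376))) (a (l 15940104) (b (l 16150720) (l 16145824))))) (c (b (a (l 16203888) (l 16128616)) (a (l 16161040) (b (l 16257792) (l 16248072)))) (b (a (b (l 16141976) (l 16131552)) (b (l 16107368) (l 16097000))) (a (b (l 16123880) (l 16118880)) (b (l 16068320) (l 16063208)))))) (a (c (b (c (a (l 16426056) (l 16381424)) (l 16164760)) (a (l 16266752) (l 16120112))) (b (a (b (l 16166584) (l 16167160)) (b (l 16143584) (l 16123000))) (a (b (l 16170328) (l 16154920)) (b (l 16062872) (l 2))))) (a (b (c (b (l 16295568) (l 16289344)) (b (l 16032576) (c (l 16162240) (l 16069336)))) (c (l 49491337575) (b (c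 (l 16162768) (l 16073544)) (l 2)))) (b (c (b (l 16239896) (l 16233360)) (c (l 50565350471) (a (l 16047336) (l 44122670279)))) (l 2))))), by decide +kernel⟩

def k4_pm_203 : ∃ t, chk3 f_pm_203 t 7 4 1 = true :=
  ⟨(b (a (c (b (a (b (l 16213192) (l 16199872)) (b (l 16128864) (l 16115088))) (a (b (l 16188152) (l 16177968)) (b (l 16102840) (l 16071288)))) (b (a (b (l 16039984) (l 16029656)) (b (l 15937712) (c (l 16022912) (l 15956840)))) (a (b (c (l 16080960) (l 16003680)) (c (l 16074448) (l 15999728))) (b (c (l 16013968) (l 15950184)) (c (l 16007040) (l 15945832)))))) (a (b (c (a (b (l 16052408) (l 16038400)) (b (l 15991336) (l 15977168))) (a (b (l 15940584) (l 15930488)) (b (l 15891272) (l 15880936)))) (a (b (c (l 16025944) (l 241690893959)) (l 2)) (l 2))) (b (b (a (c (l 15927576) (a (l 15852448) (l 15825944))) (c (a (l 15878976) (l 15846664)) (a (l 15799216) (c (l 15791624) (l 15753016))))) (a (c (l 15913032) (l 249743701399)) (l 2))) (l 2)))) (a (b (a (b (c (l 16169432) (c (l 16069992)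 (l 15998136))) (l 2)) (l 2)) (l 2)) (l 2))), by decide +kernel⟩

def k5_pm_203 : ∃ t, chk3 f_pm_203 t 1 5 1 = true :=
  ⟨(a (b (a (a (l 14) (b (b (c (c (a (l 16617328) (l 16587728)) (a (l 16554768) (l 16511824))) (a (c (l 16481104) (l 16400264)) (c (l 16422976) (l 16325728)))) (a (l 14) (a (l 14) (c (l 16528328) (l 16385768))))) (l 2))) (b (a (b (c (a (c (l 16557952) (l 16467320)) (c (l 16526696) (l 16425272))) (a (c (l 16361984) (l 16247056)) (a (a (l 16260096) (l 16244480)) (l 16235424)))) (b (a (c (l 16497768) (l 16326016)) (a (l 2) (l 2))) (l 2))) (c (c (l 83314991127) (l 67745649207)) (a (l 68819040263) (l 298062425287)))) (l 2))) (l 2)) (a (l 2) (l 2))), by decide +kernel⟩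

def k6_pm_203 : ∃ t, chk3 f_pm_203 t 1 3 1 = true :=
  ⟨(l 2), by decide +kernel⟩

theorem s7_pm_203 : ∃ t, chk3 f_pm_203 t 3 4 1 = true := ex3_a k3_pm_203 k4_pm_203

theorem s8_pm_203 : ∃ t, chk3 f_pm_203 t 4 4 1 = true := ex3_a k0_pm_203 k1_pm_203

theorem s9_pm_203 : ∃ t, chk3 f_pm_203 t 2 4 1 = true := ex3_a s8_pm_203 k2_pm_203

theorem s10_pm_203 : ∃ t, chk3 f_pm_203 t 1 4 1 = true := ex3_a s9_pm_203 s7_pm_203

theorem s11_pm_203 : ∃ t, chk3 f_pm_203 t 1 2 1 = true := ex3_b s10_pm_203 k5_pm_203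

theorem s12_pm_203 : ∃ t, chk3 f_pm_203 t 1 1 1 = true := ex3_b s11_pm_203 k6_pm_203

theorem c_pm_203 : CertB 0 536870912 0 536870912 966367641 24778659 3 eng mog cd0q2 cd0q0 pd3 true true false .up 2 0 3
    ndB0q2 ndB0q0 pcB3 cut_pm_203 Ext.none :=
  certB1 (fam := true) (s1 := true) (s2 := false) (a := 2) (b := 0) (c := 3) (cn := .up) (n1 := ndB0q2) (n2 := ndB0q0) (pc := pcB3) (cut := cut_pm_203) (xt := Ext.none) (P1 := 0) (W1 := 536870912) (P2 := 0) (W2 := 536870912) (P3 := 966367641) (W3 := 24778659) (N0 := 3) (En := eng) (mo := mog) (C1 := cd0q2) (C2 := cd0q0) (C3 := pd3)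
    rfl (fun _ => rfl) s12_pm_203

noncomputable def cut_pm_213 : Cut := Cut.of [[⟨3, 0, 0, 1449551462⟩], [⟨4, 0, 0, 2845415833⟩], [⟨0, 1, 0, 47710208⟩, ⟨1, 1, 0, 47710208⟩, ⟨2, 2, 0, 8388608⟩], [⟨0, 1, 0, 1572864⟩, ⟨1, 0, 1, 46137344⟩, ⟨2, 1, 1, 46137344⟩, ⟨1, 0, 0, 1013612281⟩, ⟨1, 1, 0, 128849018⟩, ⟨2, 1, 0, 1013612281⟩, ⟨2, 2, 0, 128849018⟩]]

noncomputable def f_pm_213 : ℕ → ℕ → ℕ → ℕ → Bool := onCell 0 536870912 536870912 536870912 966367641 24778659
    (rowB 3 eng mog cd0q2 cd0q1 pd3 0 true true false .pnn 2 1 3 (qsf 0 536870912 536870912 536870912 3) ndB0q2 ndB0q1 pcB3 cut_pm_213 Ext.none)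

def k0_pm_213 : ∃ t, chk3 f_pm_213 t 2 1 1 = true :=
  ⟨(b (b (b (a (b (b (a (l 14) (a (l 14) (a (l 14) (c (l 16510472) (l 16397024))))) (l 14)) (l 14)) (a (a (a (b (c (b (l 16510824) (l 16540160)) (b (l 16358040) (l 16387752))) (l 14)) (b (c (c (l 16552120) (l 16472864)) (b (l 16317576) (l 16347200))) (b (c (l 16527640) (l 16378360)) (l 14)))) (b (c (c (b (l 16525936) (l 16505720)) (a (l 16446296) (l 16423048))) (a (b (c (l 16333016) (l 16215624)) (l 16305072)) (b (l 16224728) (a (l 16272264) (l 16256360))))) (c (b (c (l 16529824) (l 16451368)) (c (l 16535152) (l 16466704))) (b (c (l 16361648) (l 16264088)) (c (l 16388712) (l 16303912)))))) (b (c (a (c (l 16490568) (l 16397040)) (l 16325216)) (a (b (l 16227880) (l 16239680)) (b (l 16204280) (l 16214408)))) (c (a (a (b (l 16459504) (l 16465568)) (l 16442912)) (c (l 16452344) (l 16372040))) (a (a (b (l 16262096) (a (l 16291208) (l 16275432))) (l 16254960)) (b (l 16226632) (l 16240880))))))) (a (l 14) (a (a (l 14) (a (l 14) (b (b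 (c (l 16501496) (l 16359112)) (l 14)) (l 14)))) (b (c (a (b (a (l 16474920) (l 16451992)) (a (l 16487704) (l 16460840))) (b (l 16421136) (l 16428096))) (a (a (b (l 16313576) (l 16349280)) (b (l 16282624) (a (l 16314448) (l 16298320)))) (b (l 16257096) (l 16275232)))) (b (a (a (l 14) (c (l 16473144) (l 16338848))) (c (l 16437392) (a (l 16306360) (l 16286112)))) (a (l 14) (c (a (l 16459880) (l 16435744)) (a (a (l 16340864) (l 16324128)) (l 16307496))))))))) (b (a (l 14) (a (l 14) (b (a (l 14) (a (l 14) (b (c (l 16448080) (l 16332544)) (l 14)))) (l 14)))) (l 14))) (l 14)), by decide +kernel⟩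

def k1_pm_213 : ∃ t, chk3 f_pm_213 t 6 4 1 = true :=
  ⟨(b (a (c (b (a (l 16243984) (c (l 16367480) (l 16287384))) (a (l 16246328) (c (l 16363560) (l 16291056)))) (b (a (b (l 16156592) (l 16164864)) (c (l 16199064) (b (l 16099776) (l 16108152)))) (a (b (l 16175192) (c (l 16252560) (l 16162840))) (c (l 16274000) (b (l 16118664) (l 16131224)))))) (c (b (a (c (l 16320320) (l 16245264)) (b (l 16233568) (l 16228632))) (a (c (l 16313720) (l 16245632)) (b (l 16204408) (l 16202824)))) (b (a (c (b (l 16162480) (l 16164568)) (b (l 16072504) (l 16078440))) (c (b (l 16121312) (l 16121208)) (b (l 16039728) (l 16043064)))) (a (c (b (l 16168544) (l 16174360)) (b (l 16086440) (l 16096432))) (c (b (l 16122960) (l 16126512)) (b (l 16048408) (l 16055672))))))) (a (c (b (a (l 16234136) (c (l 16366000) (l 16301512))) (a (c (l 16424720) (l 16365968)) (c (l 16374984) (l 16318720)))) (c (b (a (l 16270656) (b (l 16224952) (l 16236448))) (a (l 16301040) (b (l 16249704) (l 16264720)))) (b (a (b (l 16179840)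 (l 16198832)) (b (l 16145776) (l 16162240))) (a (b (l 16219744) (l 16242552)) (b (l 16180584) (l 16200752)))))) (c (c (b (a (l 16313624) (l 16252008)) (a (l 16320216) (l 16255784))) (b (a (l 16252816) (l 16195904)) (a (l 16266792) (l 16206208)))) (b (a (c (b (l 16181960) (l 16191328)) (b (l 16108344) (l 16122112))) (c (b (l 16131832) (l 16138872)) (b (l 16064792) (l 16075696)))) (a (c (b (l 16202432) (l 16215264)) (b (l 16137680) (l 16155016))) (c (b (l 16147624) (l 16158064)) (b (l 16088328) (l 16102648)))))))), by decide +kernel⟩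

def k2_pm_213 : ∃ t, chk3 f_pm_213 t 14 4 1 = true :=
  ⟨(b (c (a (b (b (l 16169224) (l 16141432)) (c (l 16182664) (b (l 16128176) (l 16126208)))) (b (b (l 15966432) (a (l 16104616) (l 16061536))) (c (b (l 16100248) (l 16093464)) (b (l 16051184) (l 16046952))))) (a (b (c (b (l 16069904) (l 16067432)) (b (l 15998144) (l 15998752))) (c (b (l 16066784) (l 16067904)) (b (l 16001296) (l 16005688)))) (b (c (b (l 16007056) (l 16002032)) (b (l 15945864) (l 15943592))) (c (b (l 15998800) (l 15997288)) (b (l 15943176) (l 15976000)))))) (c (a (b (c (l 16176280) (b (l 16125928) (l 16127320))) (c (l 16176784) (b (l 16130408) (l 16135208)))) (b (c (b (l 16088368) (l 16084968)) (b (l 16044392) (l 16043488))) (c (b (l 16083312) (l 16083448)) (b (l 16044240) (l 16046680))))) (a (b (c (b (l 16070744) (l 16075272)) (b (l 16011856) (l 16019728))) (c (b (l 16081456) (l 16089288)) (b (l 16029248) (l 16040376)))) (b (a (b (l 15991744) (l 15995720)) (b (l 15953424) (l 15955872))) (c (b (l 16002624) (l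 16007600)) (b (l 15995192) (l 15987208))))))), by decide +kernel⟩

def k3_pm_213 : ∃ t, chk3 f_pm_213 t 15 4 1 = true :=
  ⟨(b (a (c (b (a (c (l 16041680) (l 15994520)) (b (l 15969688) (l 15958168))) (a (c (l 16021616) (l 15979152)) (b (l 15948368) (l 15940264)))) (b (a (b (a (l 15932320) (l 15910648)) (a (l 15926960) (l 15904776))) (b (l 15875952) (l 15868816))) (a (c (b (l 15936120) (l 15932624)) (b (l 15887200) (l 15886360))) (b (l 15863456) (l 15859792))))) (b (c (a (b (l 15913496) (l 15900640)) (b (c (l 15875568) (l 15839328)) (a (l 15857600) (l 15829448)))) (a (b (c (l 15850776) (l 15806440)) (c (l 15840896) (l 15798672))) (b (c (l 15801480) (a (l 15773040) (l 15751248))) (c (l 15789936) (a (l 15763912) (l 15741200)))))) (c (a (b (l 15889520) (l 15880088)) (b (a (l 15845440) (l 15816576)) (a (l 15834968) (l 15805392)))) (a (b (c (l 15832744) (l 15792664)) (c (l 15826256) (l 15788312))) (b (c (l 15780104) (a (l 15756512) (l 15732856))) (c (l 15771912) (a (l 15750728) (l 15726104))))))))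 (a (b (a (c (c (l 16008272) (l 15970416)) (c (b (l 15930736) (l 15930424)) (b (l 15887120) (l 15889392)))) (c (b (l 15933824) (l 15929040)) (b (l 15857744) (l 15857240)))) (a (c (c (l 16001880) (l 15968232)) (b (c (l 15931648) (l 15893120)) (c (l 15934400) (l 15898240)))) (c (l 15945984) (b (l 15858232) (l 15860672))))) (c (a (b (b (l 15872328) (l 15866224)) (b (l 15861800) (l 15859064))) (b (b (a (l 15826176) (l 15795880)) (a (l 15819040) (l 15788024))) (b (a (l 15813568) (l 15781824)) (a (l 15809776) (l 15777304))))) (b (a (b (c (l 15821360) (l 15785520)) (c (l 15818016) (l 15784208))) (b (c (l 15765280) (a (l 15746464) (l 15720856))) (c (l 15760160) (a (l 15743648) (l 15717024))))) (a (b (c (l 15816168) (l 15784304)) (l 15800888)) (b (c (l 15756504) (l 15728216)) (a (l 15755904) (l 15726296)))))))), by decide +kernel⟩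

def k4_pm_213 : ∃ t, chk3 f_pm_213 t 6 5 1 = true :=
  ⟨(a (b (b (b (a (c (l 16412008) (l 16298360)) (c (l 16361816) (c (l 16281504) (l 16222728)))) (a (c (l 16424704) (l 16321832)) (c (l 16373552) (c (l 16300080) (l 16246528))))) (a (b (c (l 16503160) (a (l 14) (l 16335048))) (l 14)) (c (c (l 16414400) (l 16374400)) (c (l 16331336) (a (l 16298904) (l 16272120)))))) (a (l 14) (b (b (c (l 16420760) (l 16347880)) (l 14)) (l 14)))) (b (b (a (c (c (l 16333912) (l 16287760)) (c (b (l 16229848) (l 16246208)) (b (l 16174096) (l 16194936)))) (c (c (l 16266800) (l 16223504)) (c (b (l 16170224) (l 16184128)) (b (l 16118640) (l 16136328))))) (a (c (c (l 16355632) (l 16316296)) (c (b (l 16264384) (l 16284408)) (b (l 16217464) (l 16241624)))) (c (c (l 16286104) (l 16248456)) (b (c (l 16199824) (l 16155624)) (c (l 16217360) (l 16176472)))))) (b (a (c (c (l 16386520) (l 16353352)) (c (l 16339200) (a (l 16297592) (l 16264776)))) (c (c (l 16315112) (l 16282168)) (c (l 16289392) (a (l 16229752)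 (l 16192016))))) (b (a (c (l 16402072) (a (l 14) (l 16324168))) (c (l 16329288) (l 16340152))) (a (l 14) (c (l 16353336) (l 16315984))))))), by decide +kernel⟩

def k5_pm_213 : ∃ t, chk3 f_pm_213 t 14 5 1 = true :=
  ⟨(b (c (a (b (c (l 16184592) (b (l 16141768) (l 16150160))) (c (l 16200872) (l 16166464))) (b (c (b (l 16085464) (l 16089448)) (b (l 16050856) (l 16056824))) (c (l 16099648) (b (l 16064720) (l 16074728))))) (a (b (c (b (l 16098784) (l 16109992)) (b (l 16053096) (l 16067416))) (b (c (l 16122936) (l 16083264)) (c (l 16137680) (l 16100544)))) (b (c (b (l 16014176) (l 16022392)) (b (l 15996424) (l 15986176))) (b (a (l 16039288) (l 15991088)) (a (l 16052680) (l 16002640)))))) (a (b (c (c (l 16227248) (l 16196104)) (b (c (l 16154376) (l 16119416)) (c (l 16173296) (l 16140168)))) (c (b (l 16240112) (l 16263000)) (b (c (l 16194752) (l 16163152)) (l 16246056)))) (b (b (c (l 16101512) (a (l 16067776) (l 16015816))) (c (l 16116064) (a (l 16084848) (l 16030912)))) (c (b (l 16133664)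 (l 16154696)) (b (a (l 16104264) (l 16048296)) (a (l 16126504) (l 16068472))))))), by decide +kernel⟩

def k6_pm_213 : ∃ t, chk3 f_pm_213 t 15 5 1 = true :=
  ⟨(b (a (b (c (a (b (l 15986784) (l 15990088)) (b (l 15924936) (l 15927208))) (a (b (l 15921888) (l 15928720)) (a (b (l 15879848) (l 15885640)) (l 15851568)))) (c (a (b (l 15995224) (l 16002648)) (b (l 15931368) (l 15937712))) (a (b (l 15936952) (l 15946568)) (b (a (l 15892752) (l 15860328)) (l 15884504))))) (b (c (a (b (l 15858064) (l 15858880)) (b (a (l 15807720) (l 15774512)) (a (l 15807464) (l 15773504)))) (a (b (l 15802784) (l 15806088)) (b (a (l 15756272) (l 15725624)) (a (l 15758008) (l 15726288))))) (a (c (b (l 15861688) (l 15866760)) (b (l 15810720) (l 15816576))) (c (b (l 15791696) (l 15795296)) (b (a (l 15761016) (l 15728192)) (l 15748064)))))) (a (b (c (a (b (l 16012568) (l 16025224)) (a (l 15969200) (l 15933984))) (a (b (l 15957720) (l 15970712)) (b (l 15893840) (l 15904880)))) (c (a (b (l 16040928) (l 16060112))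 (b (l 15972232) (l 15990048))) (a (b (l 15985912) (l 16003840)) (b (l 15917976) (l 15933680))))) (b (a (c (l 15879024) (b (l 15823816) (l 15832704))) (c (b (l 15801344) (l 15810072)) (b (l 15752936) (l 15759368)))) (a (b (l 15870504) (l 15885544)) (b (c (l 15821808) (l 15767728)) (c (l 15836976) (l 15778576))))))), by decide +kernel⟩

def k7_pm_213 : ∃ t, chk3 f_pm_213 t 6 3 1 = true :=
  ⟨(b (a (l 14) (b (a (l 14) (b (b (c (l 16380768) (l 16326464)) (l 14)) (l 14))) (l 14))) (l 14)), by decide +kernel⟩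

def k8_pm_213 : ∃ t, chk3 f_pm_213 t 7 12 1 = true :=
  ⟨(a (b (a (c (b (l 16289624) (l 16320536)) (b (l 16253472) (l 16264816))) (c (b (l 16179696) (l 16272280)) (b (a (l 16152160) (l 16092072)) (a (l 16181904) (l 16119816))))) (a (b (c (l 16377368) (l 16301752)) (l 14)) (c (b (a (l 16275024) (l 16213416)) (a (l 16316992) (l 16255168))) (b (a (l 16216560) (l 16152608)) (a (l 16257136) (l 16191600)))))) (a (b (c (a (b (l 16083328) (l 16111376)) (b (l 16011896) (l 16038600))) (a (b (l 16025176) (l 16050664)) (b (l 15952680) (l 15975768)))) (c (a (b (l 16145288) (l 16186392)) (b (c (l 16088320) (l 16054304)) (c (l 16129776) (l 16093040)))) (b (a (l 16081304) (l 16003992)) (a (l 16118360) (l 16038752))))) (a (b (b (l 15904232) (l 15927392)) (b (l 15977112) (c (l 16031168) (l 15953312)))) (b (c (b (l 15856168) (l 15880256)) (b (l 15792648) (l 15810784))) (c (b (l 15910424) (l 15948312)) (b (l 15834104) (l 15864184))))))), by decide +kernel⟩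

def k9_pm_213 : ∃ t, chk3 f_pm_213 t 7 13 1 = true :=
  ⟨(a (b (a (l 14) (b (a (l 14) (c (l 16305160) (l 16238176))) (l 14))) (l 14)) (b (a (b (a (c (b (l 16222912) (l 16250384)) (l 16163432)) (c (c (c (l 16190760) (l 16170672)) (l 16140784)) (c (l 16101368) (l 16062456)))) (a (b (c (l 16280688) (l 16203552)) (l 14)) (c (c (a (l 16262576) (l 16224072)) (l 16199744)) (b (l 16120864) (l 16150632))))) (a (b (c (c (b (l 16087760) (l 16115816)) (l 16058232)) (c (l 16015600) (l 15973528))) (c (a (b (l 16144600) (b (l 16169600) (l 16187488))) (l 16119720)) (b (l 16032312) (l 16103424)))) (b (c (l 16017080) (l 15903192)) (c (b (l 16040040) (l 16074064)) (l 15953632))))) (a (l 14) (b (a (a (b (c (c (l 16241560) (l 16191352)) (l 16117328)) (l 14)) (c (b (l 16175392) (l 16218560)) (l 16089456))) (c (b (a (l 16133704) (l 16091592)) (a (l 16177288) (l 16156480))) (a (l 16042728) (l 15995440)))) (a (l 14) (b (c (a (l 16289880) (c (l 16217984) (l 16153616))) (c (l 16112256) (l 16049976))) (b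 (a (l 14) (c (c (l 16262072) (l 16194704)) (l 16094056))) (l 14)))))))), by decide +kernel⟩

def k10_pm_213 : ∃ t, chk3 f_pm_213 t 7 7 1 = true :=
  ⟨(b (l 14) (l 14)), by decide +kernel⟩

theorem s11_pm_213 : ∃ t, chk3 f_pm_213 t 7 6 1 = true := ex3_b k8_pm_213 k9_pm_213

theorem s12_pm_213 : ∃ t, chk3 f_pm_213 t 7 3 1 = true := ex3_b s11_pm_213 k10_pm_213

theorem s13_pm_213 : ∃ t, chk3 f_pm_213 t 3 3 1 = true := ex3_a k7_pm_213 s12_pm_213

theorem s14_pm_213 : ∃ t, chk3 f_pm_213 t 7 5 1 = true := ex3_a k5_pm_213 k6_pm_213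

theorem s15_pm_213 : ∃ t, chk3 f_pm_213 t 3 5 1 = true := ex3_a k4_pm_213 s14_pm_213

theorem s16_pm_213 : ∃ t, chk3 f_pm_213 t 7 4 1 = true := ex3_a k2_pm_213 k3_pm_213

theorem s17_pm_213 : ∃ t, chk3 f_pm_213 t 3 4 1 = true := ex3_a k1_pm_213 s16_pm_213

theorem s18_pm_213 : ∃ t, chk3 f_pm_213 t 3 2 1 = true := ex3_b s17_pm_213 s15_pm_213

theorem s19_pm_213 : ∃ t, chk3 f_pm_213 t 3 1 1 = true := ex3_b s18_pm_213 s13_pm_213

theorem s20_pm_213 : ∃ t, chk3 f_pm_213 t 1 1 1 = true := ex3_a k0_pm_213 s19_pm_213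

theorem c_pm_213 : CertB 0 536870912 536870912 536870912 966367641 24778659 3 eng mog cd0q2 cd0q1 pd3 true true false .pnn 2 1 3
    ndB0q2 ndB0q1 pcB3 cut_pm_213 Ext.none :=
  certB0 (fam := true) (s1 := true) (s2 := false) (a := 2) (b := 1) (c := 3) (cn := .pnn) (n1 := ndB0q2) (n2 := ndB0q1) (pc := pcB3) (cut := cut_pm_213) (xt := Ext.none) (P1 := 0) (W1 := 536870912) (P2 := 536870912) (W2 := 536870912) (P3 := 966367641) (W3 := 24778659) (N0 := 3) (En := eng) (mo := mog) (C1 := cd0q2) (C2 := cd0q1) (C3 := pd3)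
    rfl s20_pm_213

noncomputable def cut_mm_001 : Cut := Cut.of [[⟨3, 0, 0, 1449551462⟩], [⟨4, 0, 0, 2845415833⟩]]

noncomputable def f_mm_001 : ℕ → ℕ → ℕ → ℕ → Bool := onCell 0 536870912 0 536870912 966367641 24778659
    (rowB 3 eng mog cd0q0 cd0q0 pd1 0 true false false .up 0 0 1 (qsf 0 536870912 0 536870912 1) ndB0q0 ndB0q0 pcB1 cut_mm_001 Ext.none)

def k0_mm_001 : ∃ t, chk3 f_mm_001 t 1 1 1 = true :=
  ⟨(l 4), by decide +kernel⟩

theorem c_mm_001 : CertB 0 536870912 0 536870912 966367641 24778659 3 eng mog cd0q0 cd0q0 pd1 true false false .up 0 0 1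
    ndB0q0 ndB0q0 pcB1 cut_mm_001 Ext.none :=
  certB0 (fam := true) (s1 := false) (s2 := false) (a := 0) (b := 0) (c := 1) (cn := .up) (n1 := ndB0q0) (n2 := ndB0q0) (pc := pcB1) (cut := cut_mm_001) (xt := Ext.none) (P1 := 0) (W1 := 536870912) (P2 := 0) (W2 := 536870912) (P3 := 966367641) (W3 := 24778659) (N0 := 3) (En := eng) (mo := mog) (C1 := cd0q0) (C2 := cd0q0) (C3 := pd1)
    rfl k0_mm_001

noncomputable def cut_mm_011 : Cut := Cut.of [[⟨3, 0, 0, 1449551462⟩], [⟨4, 0, 0, 2845415833⟩]]

noncomputable def f_mm_011 : ℕ → ℕ → ℕ → ℕ → Bool := onCell 0 536870912 536870912 536870912 966367641 24778659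
    (rowB 3 eng mog cd0q0 cd0q1 pd1 0 true false false .pnn 0 1 1 (qsf 0 536870912 536870912 536870912 1) ndB0q0 ndB0q1 pcB1 cut_mm_011 Ext.none)

def k0_mm_011 : ∃ t, chk3 f_mm_011 t 1 1 1 = true :=
  ⟨(l 14), by decide +kernel⟩

theorem c_mm_011 : CertB 0 536870912 536870912 536870912 966367641 24778659 3 eng mog cd0q0 cd0q1 pd1 true false false .pnn 0 1 1
    ndB0q0 ndB0q1 pcB1 cut_mm_011 Ext.none :=
  certB0 (fam := true) (s1 := false) (s2 := false) (a := 0) (b := 1) (c := 1) (cn := .pnn) (n1 := ndB0q0) (n2 := ndB0q1) (pc := pcB1) (cut := cut_mm_011) (xt := Ext.none) (P1 := 0) (W1 := 536870912) (P2 := 536870912) (W2 := 536870912) (P3 := 966367641) (W3 := 24778659) (N0 := 3) (En := eng) (mo := mog) (C1 := cd0q0) (C2 := cd0q1) (C3 := pd1)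
    rfl k0_mm_011

noncomputable def cut_mm_012 : Cut := Cut.of [[⟨3, 0, 0, 1449551462⟩], [⟨4, 0, 0, 2845415833⟩]]

noncomputable def f_mm_012 : ℕ → ℕ → ℕ → ℕ → Bool := onCell 0 536870912 536870912 536870912 966367641 24778659
    (rowB 3 eng mog cd0q0 cd0q1 pd2 0 true false false .pnp 0 1 2 (qsf 0 536870912 536870912 536870912 2) ndB0q0 ndB0q1 pcB2 cut_mm_012 Ext.none)

def k0_mm_012 : ∃ t, chk3 f_mm_012 t 1 1 1 = true :=
  ⟨(l 14), by decide +kernel⟩

theorem c_mm_012 : CertB 0 536870912 536870912 536870912 966367641 24778659 3 eng mog cd0q0 cd0q1 pd2 true false false .pnp 0 1 2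
    ndB0q0 ndB0q1 pcB2 cut_mm_012 Ext.none :=
  certB0 (fam := true) (s1 := false) (s2 := false) (a := 0) (b := 1) (c := 2) (cn := .pnp) (n1 := ndB0q0) (n2 := ndB0q1) (pc := pcB2) (cut := cut_mm_012) (xt := Ext.none) (P1 := 0) (W1 := 536870912) (P2 := 536870912) (W2 := 536870912) (P3 := 966367641) (W3 := 24778659) (N0 := 3) (En := eng) (mo := mog) (C1 := cd0q0) (C2 := cd0q1) (C3 := pd2)
    rfl k0_mm_012

noncomputable def cut_mm_022 : Cut := Cut.of [[⟨3, 0, 0, 1449551462⟩], [⟨4, 0, 0, 2845415833⟩]]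

noncomputable def f_mm_022 : ℕ → ℕ → ℕ → ℕ → Bool := onCell 0 536870912 0 536870912 966367641 24778659
    (rowB 3 eng mog cd0q0 cd0q2 pd2 0 true false false .pp 0 2 2 (qsf 0 536870912 0 536870912 2) ndB0q0 ndB0q2 pcB2 cut_mm_022 Ext.none)

def k0_mm_022 : ∃ t, chk3 f_mm_022 t 1 1 1 = true :=
  ⟨(l 5), by decide +kernel⟩

theorem c_mm_022 : CertB 0 536870912 0 536870912 966367641 24778659 3 eng mog cd0q0 cd0q2 pd2 true false false .pp 0 2 2
    ndB0q0 ndB0q2 pcB2 cut_mm_022 Ext.none :=
  certB0 (fam := true) (s1 := false) (s2 := false) (a := 0) (b := 2) (c := 2) (cn := .pp) (n1 := ndB0q0) (n2 := ndB0q2) (pc := pcB2) (cut := cut_mm_022) (xt := Ext.none) (P1 := 0) (W1 := 536870912) (P2 := 0) (W2 := 536870912) (P3 := 966367641) (W3 := 24778659) (N0 := 3) (En := eng) (mo := mog) (C1 := cd0q0) (C2 := cd0q2) (C3 := pd2)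
    rfl k0_mm_022

noncomputable def cut_mm_023 : Cut := Cut.of [[⟨3, 0, 0, 1449551462⟩], [⟨4, 0, 0, 2845415833⟩]]

noncomputable def f_mm_023 : ℕ → ℕ → ℕ → ℕ → Bool := onCell 0 536870912 0 536870912 966367641 24778659
    (rowB 3 eng mog cd0q0 cd0q2 pd3 0 true false false .up 0 2 3 (qsf 0 536870912 0 536870912 3) ndB0q0 ndB0q2 pcB3 cut_mm_023 Ext.none)

def k0_mm_023 : ∃ t, chk3 f_mm_023 t 1 1 1 = true :=
  ⟨(l 5), by decide +kernel⟩

theorem c_mm_023 : CertB 0 536870912 0 536870912 966367641 24778659 3 eng mog cd0q0 cd0q2 pd3 true false false .up 0 2 3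
    ndB0q0 ndB0q2 pcB3 cut_mm_023 Ext.none :=
  certB0 (fam := true) (s1 := false) (s2 := false) (a := 0) (b := 2) (c := 3) (cn := .up) (n1 := ndB0q0) (n2 := ndB0q2) (pc := pcB3) (cut := cut_mm_023) (xt := Ext.none) (P1 := 0) (W1 := 536870912) (P2 := 0) (W2 := 536870912) (P3 := 966367641) (W3 := 24778659) (N0 := 3) (En := eng) (mo := mog) (C1 := cd0q0) (C2 := cd0q2) (C3 := pd3)
    rfl k0_mm_023

noncomputable def cut_mm_101 : Cut := Cut.of [[⟨3, 0, 0, 1449551462⟩], [⟨4, 0, 0, 2845415833⟩], [⟨0, 1, 0, 67108864⟩, ⟨1, 0, 0, 67108864⟩, ⟨2, 1, 0, 67108864⟩]]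

noncomputable def f_mm_101 : ℕ → ℕ → ℕ → ℕ → Bool := onCell 536870912 536870912 0 536870912 966367641 24778659
    (rowB 3 eng mog cd0q1 cd0q0 pd1 0 true false false .npn 1 0 1 (qsf 536870912 536870912 0 536870912 1) ndB0q1 ndB0q0 pcB1 cut_mm_101 Ext.none)

def k0_mm_101 : ∃ t, chk3 f_mm_101 t 1 1 1 = true :=
  ⟨(l 14), by decide +kernel⟩

theorem c_mm_101 : CertB 536870912 536870912 0 536870912 966367641 24778659 3 eng mog cd0q1 cd0q0 pd1 true false false .npn 1 0 1
    ndB0q1 ndB0q0 pcB1 cut_mm_101 Ext.none :=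
  certB0 (fam := true) (s1 := false) (s2 := false) (a := 1) (b := 0) (c := 1) (cn := .npn) (n1 := ndB0q1) (n2 := ndB0q0) (pc := pcB1) (cut := cut_mm_101) (xt := Ext.none) (P1 := 536870912) (W1 := 536870912) (P2 := 0) (W2 := 536870912) (P3 := 966367641) (W3 := 24778659) (N0 := 3) (En := eng) (mo := mog) (C1 := cd0q1) (C2 := cd0q0) (C3 := pd1)
    rfl k0_mm_101

noncomputable def cut_mm_102 : Cut := Cut.of [[⟨3, 0, 0, 1449551462⟩], [⟨4, 0, 0, 2845415833⟩], [⟨0, 1, 0, 67108864⟩, ⟨1, 0, 0, 67108864⟩, ⟨2, 1, 0, 67108864⟩]]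

noncomputable def f_mm_102 : ℕ → ℕ → ℕ → ℕ → Bool := onCell 536870912 536870912 0 536870912 966367641 24778659
    (rowB 3 eng mog cd0q1 cd0q0 pd2 0 true false false .npp 1 0 2 (qsf 536870912 536870912 0 536870912 2) ndB0q1 ndB0q0 pcB2 cut_mm_102 Ext.none)

def k0_mm_102 : ∃ t, chk3 f_mm_102 t 1 1 1 = true :=
  ⟨(l 14), by decide +kernel⟩

theorem c_mm_102 : CertB 536870912 536870912 0 536870912 966367641 24778659 3 eng mog cd0q1 cd0q0 pd2 true false false .npp 1 0 2
    ndB0q1 ndB0q0 pcB2 cut_mm_102 Ext.none :=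
  certB0 (fam := true) (s1 := false) (s2 := false) (a := 1) (b := 0) (c := 2) (cn := .npp) (n1 := ndB0q1) (n2 := ndB0q0) (pc := pcB2) (cut := cut_mm_102) (xt := Ext.none) (P1 := 536870912) (W1 := 536870912) (P2 := 0) (W2 := 536870912) (P3 := 966367641) (W3 := 24778659) (N0 := 3) (En := eng) (mo := mog) (C1 := cd0q1) (C2 := cd0q0) (C3 := pd2)
    rfl k0_mm_102

noncomputable def cut_mm_112 : Cut := Cut.of [[⟨3, 0, 0, 1449551462⟩], [⟨4, 0, 0, 2845415833⟩]]

noncomputable def f_mm_112 : ℕ → ℕ → ℕ → ℕ → Bool := onCell 536870912 536870912 536870912 536870912 966367641 24778659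
    (rowB 3 eng mog cd0q1 cd0q1 pd2 0 true false false .dn 1 1 2 (qsf 536870912 536870912 536870912 536870912 2) ndB0q1 ndB0q1 pcB2 cut_mm_112 Ext.none)

def k0_mm_112 : ∃ t, chk3 f_mm_112 t 1 1 1 = true :=
  ⟨(l 4), by decide +kernel⟩

theorem c_mm_112 : CertB 536870912 536870912 536870912 536870912 966367641 24778659 3 eng mog cd0q1 cd0q1 pd2 true false false .dn 1 1 2
    ndB0q1 ndB0q1 pcB2 cut_mm_112 Ext.none :=
  certB0 (fam := true) (s1 := false) (s2 := false) (a := 1) (b := 1) (c := 2) (cn := .dn) (n1 := ndB0q1) (n2 := ndB0q1) (pc := pcB2) (cut := cut_mm_112) (xt := Ext.none) (P1 := 536870912) (W1 := 536870912) (P2 := 536870912) (W2 := 536870912) (P3 := 966367641) (W3 := 24778659) (N0 := 3) (En := eng) (mo := mog) (C1 := cd0q1) (C2 := cd0q1) (C3 := pd2)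
    rfl k0_mm_112

noncomputable def cut_mm_113 : Cut := Cut.of [[⟨3, 0, 0, 1449551462⟩], [⟨4, 0, 0, 2845415833⟩]]

noncomputable def f_mm_113 : ℕ → ℕ → ℕ → ℕ → Bool := onCell 536870912 536870912 536870912 536870912 966367641 24778659
    (rowB 3 eng mog cd0q1 cd0q1 pd3 0 true false false .nn 1 1 3 (qsf 536870912 536870912 536870912 536870912 3) ndB0q1 ndB0q1 pcB3 cut_mm_113 Ext.none)

def k0_mm_113 : ∃ t, chk3 f_mm_113 t 1 1 1 = true :=
  ⟨(l 4), by decide +kernel⟩

theorem c_mm_113 : CertB 536870912 536870912 536870912 536870912 966367641 24778659 3 eng mog cd0q1 cd0q1 pd3 true false false .nn 1 1 3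
    ndB0q1 ndB0q1 pcB3 cut_mm_113 Ext.none :=
  certB0 (fam := true) (s1 := false) (s2 := false) (a := 1) (b := 1) (c := 3) (cn := .nn) (n1 := ndB0q1) (n2 := ndB0q1) (pc := pcB3) (cut := cut_mm_113) (xt := Ext.none) (P1 := 536870912) (W1 := 536870912) (P2 := 536870912) (W2 := 536870912) (P3 := 966367641) (W3 := 24778659) (N0 := 3) (En := eng) (mo := mog) (C1 := cd0q1) (C2 := cd0q1) (C3 := pd3)
    rfl k0_mm_113

noncomputable def cut_mm_123 : Cut := Cut.of [[⟨3, 0, 0, 1449551462⟩], [⟨4, 0, 0, 2845415833⟩]]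

noncomputable def f_mm_123 : ℕ → ℕ → ℕ → ℕ → Bool := onCell 536870912 536870912 0 536870912 966367641 24778659
    (rowB 3 eng mog cd0q1 cd0q2 pd3 0 true false false .npn 1 2 3 (qsf 536870912 536870912 0 536870912 3) ndB0q1 ndB0q2 pcB3 cut_mm_123 Ext.none)

def k0_mm_123 : ∃ t, chk3 f_mm_123 t 1 1 1 = true :=
  ⟨(a (l 5) (l 4)), by decide +kernel⟩

theorem c_mm_123 : CertB 536870912 536870912 0 536870912 966367641 24778659 3 eng mog cd0q1 cd0q2 pd3 true false false .npn 1 2 3
    ndB0q1 ndB0q2 pcB3 cut_mm_123 Ext.none :=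
  certB0 (fam := true) (s1 := false) (s2 := false) (a := 1) (b := 2) (c := 3) (cn := .npn) (n1 := ndB0q1) (n2 := ndB0q2) (pc := pcB3) (cut := cut_mm_123) (xt := Ext.none) (P1 := 536870912) (W1 := 536870912) (P2 := 0) (W2 := 536870912) (P3 := 966367641) (W3 := 24778659) (N0 := 3) (En := eng) (mo := mog) (C1 := cd0q1) (C2 := cd0q2) (C3 := pd3)
    rfl k0_mm_123

noncomputable def cut_mm_202 : Cut := Cut.of [[⟨3, 0, 0, 1449551462⟩], [⟨4, 0, 0, 2845415833⟩], [⟨0, 1, 0, 53687091⟩, ⟨1, 0, 0, 53687091⟩, ⟨2, 1, 0, 53687091⟩]]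

noncomputable def f_mm_202 : ℕ → ℕ → ℕ → ℕ → Bool := onCell 0 536870912 0 536870912 966367641 24778659
    (rowB 3 eng mog cd0q2 cd0q0 pd2 0 true false false .pp 2 0 2 (qsf 0 536870912 0 536870912 2) ndB0q2 ndB0q0 pcB2 cut_mm_202 Ext.none)

def k0_mm_202 : ∃ t, chk3 f_mm_202 t 2 16 1 = true :=
  ⟨(a (b (c (b (a (a (l 16164312) (a (l 16130568) (l 16197064))) (a (l 16119144) (l 16108168))) (a (a (l 16200200) (a (l 16145792) (l 16232736))) (a (l 16174440) (l 16182672)))) (a (a (l 16228048) (a (l 16227576) (l 16272216))) (a (l 16249536) (l 16248032)))) (c (a (a (l 16129680) (b (a (l 16203272) (l 16268592)) (l 16177328))) (a (b (l 16208976) (l 16243480)) (c (l 16263344) (l 16326936)))) (a (a (l 16295728) (l 16248736)) (b (l 16263856) (l 16301440))))) (a (c (c (b (a (a (l 16210936) (l 16219792)) (b (l 16200296) (l 16249392))) (a (l 16191832) (b (l 16278040) (l 16306904)))) (b (a (l 16247656) (b (l 16266424) (l 16296416))) (a (l 16332728) (l 16279072)))) (a (b (a (l 16289424) (l 16289544))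 (l 16296368)) (b (b (l 16295392) (l 16307320)) (a (l 16336104) (l 16335560))))) (a (c (b (c (b (a (l 16239816) (l 16253736)) (a (l 16266640) (l 16279664))) (b (l 16284224) (l 16312336))) (a (b (l 16252328) (l 16301728)) (c (c (l 16289048) (l 16329400)) (l 16317216)))) (b (a (b (l 16341240) (l 16372528)) (b (l 16345224) (l 16375376))) (b (a (l 16383064) (l 16384904)) (l 16351984)))) (c (c (b (a (b (l 16247992) (l 16273032)) (b (a (l 16281248) (l 16289968)) (b (l 16314104) (l 16294896)))) (a (b (l 16298736) (l 16324816)) (b (b (l 16307296) (l 16319824)) (b (l 16332464) (l 16345152))))) (b (a (c (l 16284680) (l 16322208)) (b (l 16292424) (l 16318040))) (a (b (l 16354416) (l 16381840)) (b (l 16365168) (l 16391688))))) (b (a (b (l 16329480) (l 16358512)) (b (c (l 16342256) (l 16372184)) (c (l 16369392) (l 16400872)))) (a (b (l 16366976) (l 16396480)) (b (c (l 16396952) (l 16429880)) (c (l 16424784) (l 16459064))))))))), by decide +kernel⟩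

def k1_mm_202 : ∃ t, chk3 f_mm_202 t 2 17 1 = true :=
  ⟨(c (a (a (a (b (a (l 16242784) (l 16208792)) (b (l 16281864) (l 16296720))) (b (b (l 16234816) (l 16291288)) (l 16279808))) (a (b (l 16189800) (l 16276776)) (b (b (l 16281000) (l 16313208)) (l 16276336)))) (c (a (b (a (l 16294440) (b (l 16335760) (l 16364384))) (a (l 16374480) (b (l 16392544) (l 16419992)))) (a (b (a (l 16342312) (b (l 16360120) (l 16386904))) (a (l 16396424) (l 16363328))) (b (a (b (l 16372008) (l 16398056)) (b (a (l 16381744) (l 16388712)) (l 16389552))) (a (b (l 16423712) (l 16448728)) (b (l 16435456) (l 16459768)))))) (a (a (b (l 16375296) (l 16415568)) (b (l 16360360) (l 16418608))) (b (a (a (l 16409360) (l 16394536)) (a (b (l 16409264) (l 16436328)) (b (l 16418248) (l 16444584)))) (a (a (l 16444400) (l 16449056)) (a (l 16433936) (b (l 16470352) (l 16495472)))))))) (a (b (a (a (l 16322216) (l 16342464)) (c (l 16382248) (l 16382360))) (a (a (l 16196592) (l 16290264)) (a (l 16317928) (l 16369456)))) (a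 (a (c (l 16333256) (l 16346248)) (b (l 16337344) (l 16418016))) (b (a (a (l 16376792) (l 16376448)) (a (b (l 16425768) (l 16433440)) (b (l 16407192) (l 16435088)))) (a (a (l 16456704) (l 16433816)) (a (l 16427792) (b (l 16462168) (l 16488536)))))))), by decide +kernel⟩

def k2_mm_202 : ∃ t, chk3 f_mm_202 t 4 9 1 = true :=
  ⟨(b (b (a (a (c (c (l 16346392) (l 16445520)) (a (l 16222440) (l 16242208))) (c (l 16344488) (l 16243160))) (c (a (l 16338712) (l 16335600)) (c (l 16365200) (l 16272704)))) (a (c (a (a (l 16360920) (l 16409504)) (l 16405136)) (a (a (l 16125104) (l 16280784)) (l 16223208))) (a (c (l 16407864) (l 16238936)) (c (l 16410704) (l 16277888))))) (a (c (a (c (b (l 16440016) (l 16390928)) (b (l 16345120) (l 16357352))) (c (c (l 16470232) (l 16405848)) (b (l 16414616) (l 16389712)))) (b (a (c (l 16287560) (l 16183848)) (l 16147952)) (c (l 16150384) (l 16132728)))) (a (c (b (l 16381744) (c (l 16506128) (l 16423536))) (b (l 16188816) (c (l 16336936) (l 16246680)))) (c (b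 (l 16430864) (l 16391672)) (b (l 16231656) (c (l 16379488) (l 16297216))))))), by decide +kernel⟩

def k3_mm_202 : ∃ t, chk3 f_mm_202 t 5 9 1 = true :=
  ⟨(a (b (b (c (a (c (l 16409168) (l 16515048)) (a (l 16380712) (l 16362944))) (a (l 16353200) (b (l 16457792) (l 16443832)))) (a (c (l 16387736) (l 16298392)) (c (b (l 16419744) (l 16464008)) (c (l 16498920) (l 16435760))))) (c (a (b (l 16438368) (c (l 16561000) (l 16493936))) (b (c (l 16509944) (l 16542296)) (c (l 16567064) (l 16529912)))) (c (b (a (l 16438920) (l 16439168)) (a (l 16423632) (l 16469000))) (a (b (l 16365568) (l 16350336)) (b (l 16417304) (l 16405504)))))) (a (b (b (c (c (a (l 16447472) (l 16434008)) (l 16456784)) (b (l 16476896) (l 16443752))) (c (a (l 16414648) (a (l 16438584) (l 16440952))) (a (l 16416984) (l 16418368)))) (b (c (a (l 16477392) (c (l 16520536) (l 16583984))) (c (c (l 16516168) (l 16510744)) (l 16407232))) (c (c (l 16533656) (l 16524232)) (c (l 16431112) (a (l 16447520) (l 16475688)))))) (b (c (b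 (a (b (l 16409232) (l 16453800)) (c (b (l 16483256) (l 16505816)) (l 16468656))) (a (b (l 16476264) (l 16476480)) (b (a (l 16502248) (l 16485104)) (l 16482760)))) (a (b (l 16480624) (c (l 16568424) (l 16501392))) (b (a (l 16496136) (l 16505440)) (b (l 16529784) (l 16501760))))) (a (b (b (c (l 16517200) (l 16472816)) (c (l 16535456) (l 16468376))) (b (c (l 16573536) (l 16486208)) (c (l 16592232) (l 16484096)))) (b (c (b (l 16501912) (l 16519592)) (c (l 16556792) (l 16494496))) (l 14)))))), by decide +kernel⟩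

def k4_mm_202 : ∃ t, chk3 f_mm_202 t 2 20 1 = true :=
  ⟨(a (c (a (c (c (b (l 16404920) (l 16366480)) (a (l 16334192) (l 16386720))) (b (a (l 16333608) (l 16369328)) (a (l 16314480) (l 16353288)))) (c (a (a (l 16368880) (l 16384592)) (b (l 16519120) (l 16465944))) (a (b (l 16406280) (l 16393112)) (b (l 16444112) (l 16433648))))) (a (b (c (a (l 16231728) (l 16275128)) (a (l 16125656) (l 16177032))) (c (a (l 16212336) (l 16259248)) (a (l 16106056) (l 16161368)))) (a (b (c (l 16319688) (l 16229480)) (c (l 16307040) (l 16217432))) (b (c (l 16365512) (l 16283616)) (c (l 16355896) (l 16274920)))))) (b (a (c (a (c (l 16548984) (l 16482464)) (c (l 16578528) (l 16479248))) (a (c (l 16412760) (l 16340120)) (c (l 16461120) (l 16398520)))) (a (c (c (l 16566128) (c (l 16572368) (l 16547848))) (c (a (l 16497736) (l 16522248)) (a (l 16442888) (l 16472592)))) (a (b (c (l 16569016) (l 16462032)) (l 14)) (l 14)))) (a (c (c (a (l 16540080) (l 16550928)) (a (l 16474600) (l 16473888))) (a (c (l 16406016)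 (l 16334584)) (c (l 16457120) (l 16395968)))) (a (a (c (c (l 16595872) (l 16547016)) (c (l 16495864) (l 16442584))) (b (c (l 16548640) (l 16497552)) (l 14))) (l 14))))), by decide +kernel⟩

def k5_mm_202 : ∃ t, chk3 f_mm_202 t 2 21 1 = true :=
  ⟨(a (a (a (c (c (b (l 16418304) (l 16405056)) (b (l 16299880) (l 16289744))) (b (c (l 16197920) (l 16091880)) (c (l 16188336) (l 16061920)))) (c (b (c (l 16430880) (l 16341576)) (c (l 16422624) (l 16334176))) (c (b (l 16248120) (l 16241648)) (b (l 16150896) (l 16145416))))) (c (c (a (b (l 16465384) (l 16459296)) (b (l 16500112) (l 16496040))) (b (a (l 16384056) (l 16427048)) (a (l 16379152) (l 16424448)))) (a (c (b (l 16298928) (l 16295304)) (b (l 16210352) (l 16208072))) (c (b (l 16350560) (l 16349544)) (b (l 16270960) (l 16271608)))))) (b (a (c (c (a (l 16492408) (c (l 16560504) (l 16554960))) (a (l 16470320) (a (l 16502960) (l 16524808)))) (a (c (l 16403296) (l 16333528)) (c (l 16456984) (l 16397704)))) (a (a (c (c (l 16593776) (l 16546760))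 (c (l 16497552) (l 16446312))) (l 14)) (l 14))) (a (c (c (a (l 16490200) (a (l 16558872) (l 16576712))) (a (l 16469864) (a (l 16503992) (l 16526840)))) (a (c (l 16404688) (l 16336880)) (c (l 16492072) (l 16424528)))) (l 14)))), by decide +kernel⟩

def k6_mm_202 : ∃ t, chk3 f_mm_202 t 2 22 1 = true :=
  ⟨(b (a (c (a (c (a (l 16390616) (l 16418280)) (a (l 16283968) (l 16330976))) (a (c (l 16457008) (l 16378320)) (c (l 16495648) (l 16425784)))) (a (c (a (l 16162440) (l 16239672)) (a (l 16057896) (l 16123744))) (a (c (l 16296000) (l 16210384)) (c (l 16352696) (l 16276672))))) (a (a (c (c (l 16491576) (l 16473208)) (c (l 16410104) (l 16344464))) (a (b (c (l 16492272) (l 16422744)) (c (l 16495016) (l 16427816))) (l 14))) (l 14))) (a (c (a (c (a (a (l 16367488) (l 16387528)) (l 16417784)) (a (l 16281120) (l 16331880))) (a (c (l 16458456) (l 16381448)) (c (l 16498888) (l 16430960)))) (a (c (a (b (l 16182672) (l 16183504)) (l 16221048)) (a (b (l 16078960) (l 16080432)) (l 16127600))) (a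 (c (l 16300880) (l 16217080)) (c (l 16359880) (l 16285952))))) (a (a (c (c (a (l 16528600) (l 16548184)) (l 16501232)) (c (l 16440376) (l 16377064))) (l 14)) (l 14)))), by decide +kernel⟩

def k7_mm_202 : ∃ t, chk3 f_mm_202 t 2 23 1 = true :=
  ⟨(a (a (c (c (b (a (l 16367568) (l 16420320)) (a (l 16365280) (l 16425168))) (b (a (a (l 16271440) (l 16297344)) (l 16336152)) (a (a (l 16275680) (l 16302728)) (l 16343152)))) (c (b (a (b (l 16185216) (l 16187768)) (l 16227104)) (a (b (l 16191128) (l 16174304)) (l 16246792))) (b (a (b (l 16082896) (l 16086312)) (l 16145984)) (a (a (a (l 16064928) (l 16083808)) (l 16112008)) (a (l 16149392) (l 16186512)))))) (c (c (a (b (l 16462832) (l 16469408)) (b (l 16504952) (l 16513120))) (b (a (l 16387816) (l 16439240)) (a (l 16396792) (l 16450008)))) (a (b (c (l 16309320) (l 16227656)) (c (l 16320760) (l 16244272))) (b (c (l 16370472) (l 16298936)) (c (l 16383936) (b (l 16310816) (l 16319720))))))) (a (a (a (b (c (c (l 16535848) (l 16477568)) (b (l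 16381512) (l 16388944))) (b (c (l 16514848) (l 16397104)) (l 14))) (l 14)) (l 14)) (l 14))), by decide +kernel⟩

def k8_mm_202 : ∃ t, chk3 f_mm_202 t 24 16 1 = true :=
  ⟨(b (c (a (b (a (b (l 16284680) (l 16296584)) (c (c (l 16303384) (l 16314720)) (l 16311168))) (c (a (l 16301720) (l 16311072)) (b (l 16325552) (l 16338008)))) (b (c (a (b (l 16313848) (l 16324936)) (b (l 16324848) (l 16335704))) (a (l 16319720) (b (l 16344096) (l 16355608)))) (c (a (b (l 16336216) (l 16347672)) (b (l 16346760) (c (l 16352832) (l 16363200)))) (a (l 16343584) (l 16362704))))) (c (a (b (l 16353072) (l 16379112)) (b (b (l 16339328) (l 16351656)) (a (l 16388048) (l 16373856)))) (a (b (l 16378944) (l 16406448)) (b (a (l 16385808) (l 16391272)) (a (l 16412400) (l 16417248)))))) (c (a (b (c (a (l 16325840) (l 16339976)) (b (l 16350592) (l 16363280))) (a (c (l 16350416) (l 16400240)) (c (l 16358856) (l 16406696)))) (b (c (a (a (l 16341752) (l 16346600)) (a (l 16351584) (b (l 16371960) (l 16383408)))) (a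 (l 16367992) (l 16391848))) (a (c (a (l 16365528) (l 16370144)) (l 16413728)) (c (b (l 16371496) (l 16383184)) (l 16421336))))) (c (a (b (l 16405584) (l 16432320)) (b (a (l 16413680) (l 16419896)) (a (l 16439576) (l 16445232)))) (a (b (l 16434264) (l 16462240)) (b (a (l 16439304) (l 16443536)) (a (l 16466368) (l 16469984))))))), by decide +kernel⟩

def k9_mm_202 : ∃ t, chk3 f_mm_202 t 24 17 1 = true :=
  ⟨(b (c (c (a (b (a (l 16375240) (l 16383248)) (a (l 16420960) (l 16428576))) (b (a (a (l 16389576) (l 16393968)) (c (l 16394960) (l 16427720))) (a (l 16436696) (a (l 16422120) (l 16426552))))) (a (b (a (l 16426176) (l 16432152)) (l 16433672)) (b (a (l 16438688) (l 16445808)) (a (l 16463568) (l 16470192))))) (c (a (b (l 16459136) (l 16485640)) (b (a (l 16465600) (l 16470712)) (a (l 16491424) (l 16495992)))) (a (b (l 16490224) (l 16496768)) (b (l 16452992) (l 16500448))))) (c (c (a (b (a (l 16445336) (l 16452584)) (a (l 16469112) (l 16475992))) (b (a (l 16460320) (l 16447584)) (a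 (l 16483360) (l 16491216)))) (a (b (l 16479656) (l 16504032)) (b (a (l 16487992) (l 16494232)) (l 16472760)))) (a (b (a (l 16484960) (l 16486920)) (l 16490520)) (b (a (l 16489456) (l 16471600)) (a (l 16514448) (l 16496192)))))), by decide +kernel⟩

def k10_mm_202 : ∃ t, chk3 f_mm_202 t 50 8 1 = true :=
  ⟨(a (b (b (b (c (b (c (c (l 16332104) (l 16340712)) (l 16353952)) (c (c (l 16342576) (l 16351496)) (l 16365216))) (c (l 16372256) (l 16397440))) (c (c (b (c (l 16353256) (l 16362472)) (c (l 16364112) (l 16373616))) (a (l 16359072) (l 16363832))) (c (l 16399624) (l 16422808)))) (c (b (c (b (c (l 16375128) (l 16384896)) (l 16370288)) (c (l 16379712) (l 16410968))) (c (b (l 16381656) (l 16393104)) (a (l 16406448) (l 16410688)))) (c (b (l 16424128) (l 16430544)) (b (l 16448472) (l 16474288))))) (b (c (c (b (b (l 16404608) (l 16416136)) (b (l 16427688) (l 16439200))) (b (a (l 16451464) (l 16455448)) (b (l 16471408) (l 16483320)))) (b (b (l 16439864) (l 16452520)) (b (l 16486136) (l 16498680))))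 (b (c (c (a (l 16475048) (l 16479536)) (l 16501008)) (c (l 16525592) (l 16530080))) (l 14)))) (b (b (b (c (b (c (c (l 16344560) (l 16352376)) (l 16385368)) (c (c (l 16354816) (l 16362936)) (l 16354440))) (b (a (l 16366480) (l 16370600)) (a (l 16399480) (l 16403456)))) (c (c (b (c (l 16365272) (l 16373672)) (c (l 16375912) (l 16384584))) (b (l 16365616) (l 16376928))) (c (c (l 16384760) (l 16393968)) (a (l 16427424) (l 16430736))))) (b (c (c (b (c (l 16386696) (l 16395624)) (c (l 16397616) (l 16406784))) (b (l 16388368) (l 16399904))) (c (c (l 16408432) (l 16418184)) (c (l 16428112) (l 16459184)))) (c (c (b (c (l 16408632) (l 16418040)) (l 16407488)) (b (l 16411512) (l 16423176))) (c (c (l 16432368) (l 16442616)) (b (l 16472984) (l 16485592)))))) (b (b (c (b (c (l 16420064) (l 16434872)) (c (l 16426120) (l 16446584))) (c (b (l 16476640) (l 16488776)) (l 16483512))) (a (c (c (b (l 16455896) (l 16467256)) (l 16483120)) (b (l 16510696) (l 16502080))) (l 14))) (l 14)))), by decide +kernel⟩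

def k11_mm_202 : ∃ t, chk3 f_mm_202 t 51 8 1 = true :=
  ⟨(a (b (b (b (c (c (b (c (l 16357536) (l 16364584)) (c (l 16367568) (l 16374904))) (b (c (l 16371776) (l 16379112)) (l 16365216))) (b (c (l 16369408) (l 16384936)) (c (l 16380768) (l 16396920)))) (c (c (a (b (l 16378496) (l 16389096)) (b (l 16384696) (l 16403048))) (b (l 16376136) (l 16389824))) (c (b (l 16392264) (l 16403864)) (b (l 16408992) (l 16421144))))) (b (c (c (b (c (l 16398784) (l 16406896)) (c (l 16409472) (l 16417816))) (b (l 16403624) (l 16414896))) (c (b (l 16415552) (l 16427312)) (b (l 16433352) (l 16466576)))) (c (c (b (c (l 16420272) (l 16428832)) (b (l 16411784) (l 16417288))) (b (l 16431488) (l 16442888))) (c (b (l 16439112) (l 16450952)) (b (l 16478856) (l 16491136)))))) (a (b (b (c (b (b (l 16429256) (l 16434912)) (l 14)) (c (l 16466904) (l 16508200))) (l 14)) (l 14)) (l 14))) (b (b (b (c (c (b (c (l 16371008) (l 16377320)) (c (l 16380824) (l 16387416))) (b (c (l 16383760) (l 16390328)) (c (l 16394136)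 (l 16400984)))) (c (b (l 16384704) (l 16395792)) (b (l 16403864) (l 16415544)))) (b (c (c (c (l 16390848) (l 16397688)) (b (l 16405536) (l 16389936))) (c (l 16410936) (l 16427312))) (c (c (c (l 16401040) (l 16408128)) (b (l 16395336) (l 16400776))) (c (l 16424552) (l 16444400))))) (b (c (c (b (c (l 16421864) (l 16418696)) (c (a (l 16418696) (l 16425000)) (l 16429384))) (b (b (l 16406240) (l 16411720)) (b (l 16417232) (l 16422760)))) (c (b (b (l 16442600) (l 16427344)) (l 16451032)) (b (l 16456304) (l 16468240)))) (b (a (a (b (c (l 16416192) (l 16471000)) (l 14)) (l 14)) (l 14)) (l 14)))) (l 14))), by decide +kernel⟩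

def k12_mm_202 : ∃ t, chk3 f_mm_202 t 13 8 1 = true :=
  ⟨(b (a (b (a (a (b (c (c (b (c (l 16384960) (l 16390568)) (c (l 16394568) (l 16400440))) (b (c (l 16396296) (l 16402136)) (c (l 16406432) (l 16412544)))) (c (b (c (l 16408088) (l 16414168)) (b (l 16419216) (l 16403680))) (b (c (l 16420352) (l 16426664)) (b (l 16432016) (l 16416760))))) (b (c (c (c (l 16404376) (l 16410488)) (b (l 16396304) (l 16401552))) (c (b (l 16409152) (l 16414656)) (b (l 16422496) (l 16438736)))) (a (c (c (c (l 16410960) (l 16417496)) (l 16406568)) (c (l 16420408) (l 16434776))) (l 14)))) (b (b (b (c (c (l 16399512) (l 16409440)) (a (l 16411904) (l 16412136))) (a (c (l 16384896) (l 16417336)) (l 14))) (a (b (c (l 16391120) (l 16422784)) (l 14)) (l 14))) (l 14))) (l 14)) (l 14)) (l 14)) (l 14)), by decide +kernel⟩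

def k13_mm_202 : ∃ t, chk3 f_mm_202 t 6 9 1 = true :=
  ⟨(a (b (a (a (c (b (c (b (l 16474336) (l 16496208)) (b (l 16506648) (l 16529232))) (a (b (l 16489408) (l 16509480)) (b (l 16494200) (l 14)))) (b (b (l 16494384) (l 16537784)) (b (l 16530024) (l 16502824)))) (b (a (c (b (c (l 16505592) (l 16534832)) (c (l 16526936) (l 16556872))) (b (l 16517736) (l 16561832))) (l 14)) (l 14))) (l 14)) (l 14)) (l 14)), by decide +kernel⟩

def k14_mm_202 : ∃ t, chk3 f_mm_202 t 7 4 1 = true :=
  ⟨(l 14), by decide +kernel⟩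

def k15_mm_202 : ∃ t, chk3 f_mm_202 t 3 5 1 = true :=
  ⟨(l 14), by decide +kernel⟩

def k16_mm_202 : ∃ t, chk3 f_mm_202 t 8 6 1 = true :=
  ⟨(a (b (c (b (c (b (l 16370456) (l 16372448)) (b (a (l 16282592) (l 16310736)) (b (l 16303856) (l 16309392)))) (b (c (l 16402552) (b (l 16315496) (l 16322112))) (c (l 16413296) (b (l 16329184) (l 16336672))))) (a (b (b (b (c (l 16183576) (l 16082632)) (l 16139528)) (b (l 16146240) (l 16153696))) (b (b (l 16161872) (l 16170712)) (b (l 16180144) (l 16190120)))) (b (b (b (l 16169496) (l 16176096)) (b (l 16183440) (l 16191512))) (b (b (l 16200288) (l 16209720)) (b (l 16219704) (l 16230216)))))) (b (c (b (c (l 16425376) (b (l 16344552) (l 16352832))) (c (l 16438912) (b (l 16361592) (l 16370864)))) (b (c (b (l 16262984) (l 16273232)) (b (l 16177976) (l 16190256))) (c (b (l 16284048) (l 16295480)) (b (l 16203200) (l 16216848))))) (b (b (a (c (l 16400704) (l 16248576)) (c (l 16431064) (l 16290896))) (l 2)) (l 2)))) (b (c (b (b (c (l 16432160) (l 16352672))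 (c (l 16441112) (l 16364552))) (b (c (l 16451904) (l 16365520)) (c (l 16464216) (b (l 16390408) (l 16398736))))) (b (b (c (b (l 16266112) (l 16272880)) (a (l 16163608) (l 16201984))) (c (b (l 16280328) (l 16288432)) (a (l 16181008) (l 16220568)))) (b (c (b (l 16297168) (l 16306496)) (b (l 16216216) (l 16227376))) (c (b (l 16316304) (l 16326568)) (b (l 16239104) (l 16251352)))))) (b (b (c (c (l 16477728) (b (l 16407424) (l 16416464))) (c (b (l 16337240) (l 16348336)) (b (l 16264080) (l 16277296)))) (a (c (b (l 16443232) (l 16451952)) (b (l 16305728) (l 16318864))) (l 14))) (l 14)))), by decide +kernel⟩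

def k17_mm_202 : ∃ t, chk3 f_mm_202 t 9 6 1 = true :=
  ⟨(b (a (b (c (b (c (l 16478040) (l 16408184)) (c (l 16488552) (l 16421816))) (b (c (l 16329768) (b (l 16254248) (l 16263616))) (c (b (l 16347424) (l 16356488)) (b (l 16273728) (l 16284560))))) (a (c (b (c (l 16488640) (l 16422952)) (c (l 16502040) (l 16440080))) (b (b (l 16313088) (l 16324064)) (b (l 16335560) (l 16347488)))) (b (b (c (l 16479200) (l 16349920)) (l 14)) (l 14)))) (b (b (c (c (l 16523232) (l 16463072)) (c (b (l 16395792) (l 16404488)) (b (l 16329368) (l 16339752)))) (a (b (c (l 16490864) (l 16364744)) (l 14)) (l 14))) (l 14))) (l 14)), by decide +kernel⟩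

def k18_mm_202 : ∃ t, chk3 f_mm_202 t 4 7 1 = true :=
  ⟨(l 2), by decide +kernel⟩

def k19_mm_202 : ∃ t, chk3 f_mm_202 t 5 3 1 = true :=
  ⟨(l 14), by decide +kernel⟩

def k20_mm_202 : ∃ t, chk3 f_mm_202 t 3 3 1 = true :=
  ⟨(l 14), by decide +kernel⟩

theorem s21_mm_202 : ∃ t, chk3 f_mm_202 t 4 6 1 = true := ex3_a k16_mm_202 k17_mm_202

theorem s22_mm_202 : ∃ t, chk3 f_mm_202 t 4 3 1 = true := ex3_b s21_mm_202 k18_mm_202

theorem s23_mm_202 : ∃ t, chk3 f_mm_202 t 2 3 1 = true := ex3_a s22_mm_202 k19_mm_202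

theorem s24_mm_202 : ∃ t, chk3 f_mm_202 t 1 3 1 = true := ex3_a s23_mm_202 k20_mm_202

theorem s25_mm_202 : ∃ t, chk3 f_mm_202 t 25 8 1 = true := ex3_a k10_mm_202 k11_mm_202

theorem s26_mm_202 : ∃ t, chk3 f_mm_202 t 24 8 1 = true := ex3_b k8_mm_202 k9_mm_202

theorem s27_mm_202 : ∃ t, chk3 f_mm_202 t 12 8 1 = true := ex3_a s26_mm_202 s25_mm_202

theorem s28_mm_202 : ∃ t, chk3 f_mm_202 t 6 8 1 = true := ex3_a s27_mm_202 k12_mm_202

theorem s29_mm_202 : ∃ t, chk3 f_mm_202 t 6 4 1 = true := ex3_b s28_mm_202 k13_mm_202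

theorem s30_mm_202 : ∃ t, chk3 f_mm_202 t 3 4 1 = true := ex3_a s29_mm_202 k14_mm_202

theorem s31_mm_202 : ∃ t, chk3 f_mm_202 t 3 2 1 = true := ex3_b s30_mm_202 k15_mm_202

theorem s32_mm_202 : ∃ t, chk3 f_mm_202 t 2 11 1 = true := ex3_b k6_mm_202 k7_mm_202

theorem s33_mm_202 : ∃ t, chk3 f_mm_202 t 2 10 1 = true := ex3_b k4_mm_202 k5_mm_202

theorem s34_mm_202 : ∃ t, chk3 f_mm_202 t 2 5 1 = true := ex3_b s33_mm_202 s32_mm_202

theorem s35_mm_202 : ∃ t, chk3 f_mm_202 t 2 9 1 = true := ex3_a k2_mm_202 k3_mm_202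

theorem s36_mm_202 : ∃ t, chk3 f_mm_202 t 2 8 1 = true := ex3_b k0_mm_202 k1_mm_202

theorem s37_mm_202 : ∃ t, chk3 f_mm_202 t 2 4 1 = true := ex3_b s36_mm_202 s35_mm_202

theorem s38_mm_202 : ∃ t, chk3 f_mm_202 t 2 2 1 = true := ex3_b s37_mm_202 s34_mm_202

theorem s39_mm_202 : ∃ t, chk3 f_mm_202 t 1 2 1 = true := ex3_a s38_mm_202 s31_mm_202

theorem s40_mm_202 : ∃ t, chk3 f_mm_202 t 1 1 1 = true := ex3_b s39_mm_202 s24_mm_202

theorem c_mm_202 : CertB 0 536870912 0 536870912 966367641 24778659 3 eng mog cd0q2 cd0q0 pd2 true false false .pp 2 0 2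
    ndB0q2 ndB0q0 pcB2 cut_mm_202 Ext.none :=
  certB0 (fam := true) (s1 := false) (s2 := false) (a := 2) (b := 0) (c := 2) (cn := .pp) (n1 := ndB0q2) (n2 := ndB0q0) (pc := pcB2) (cut := cut_mm_202) (xt := Ext.none) (P1 := 0) (W1 := 536870912) (P2 := 0) (W2 := 536870912) (P3 := 966367641) (W3 := 24778659) (N0 := 3) (En := eng) (mo := mog) (C1 := cd0q2) (C2 := cd0q0) (C3 := pd2)
    rfl s40_mm_202

noncomputable def cut_mm_203 : Cut := Cut.of [[⟨3, 0, 0, 1449551462⟩], [⟨4, 0, 0, 2845415833⟩]]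

noncomputable def f_mm_203 : ℕ → ℕ → ℕ → ℕ → Bool := onCell 0 536870912 1610612736 536870912 966367641 24778659
    (rowB 3 eng mog cd0q2 cd0q0 pd3 1 true false false .up 2 0 3 (qsf 0 536870912 0 536870912 3) ndB0q2 ndB0q0 pcB3 cut_mm_203 Ext.none)

def k0_mm_203 : ∃ t, chk3 f_mm_203 t 1 1 1 = true :=
  ⟨(a (b (b (b (a (a (a (b (c (b (b (l 16504136) (l 16523784)) (c (l 16593944) (l 16610480))) (c (b (l 16516024) (l 16524632)) (b (l 16413944) (l 16430392)))) (l 14)) (l 14)) (l 14)) (l 14)) (l 14)) (l 14)) (l 2)) (l 14)), by decide +kernel⟩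

theorem c_mm_203 : CertB 0 536870912 0 536870912 966367641 24778659 3 eng mog cd0q2 cd0q0 pd3 true false false .up 2 0 3
    ndB0q2 ndB0q0 pcB3 cut_mm_203 Ext.none :=
  certB1 (fam := true) (s1 := false) (s2 := false) (a := 2) (b := 0) (c := 3) (cn := .up) (n1 := ndB0q2) (n2 := ndB0q0) (pc := pcB3) (cut := cut_mm_203) (xt := Ext.none) (P1 := 0) (W1 := 536870912) (P2 := 0) (W2 := 536870912) (P3 := 966367641) (W3 := 24778659) (N0 := 3) (En := eng) (mo := mog) (C1 := cd0q2) (C2 := cd0q0) (C3 := pd3)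
    rfl (fun _ => rfl) k0_mm_203

noncomputable def cut_mm_213 : Cut := Cut.of [[⟨3, 0, 0, 1449551462⟩], [⟨4, 0, 0, 2845415833⟩]]

noncomputable def f_mm_213 : ℕ → ℕ → ℕ → ℕ → Bool := onCell 0 536870912 536870912 536870912 966367641 24778659
    (rowB 3 eng mog cd0q2 cd0q1 pd3 0 true false false .pnn 2 1 3 (qsf 0 536870912 536870912 536870912 3) ndB0q2 ndB0q1 pcB3 cut_mm_213 Ext.none)

def k0_mm_213 : ∃ t, chk3 f_mm_213 t 1 1 1 = true :=
  ⟨(a (l 14) (l 4)), by decide +kernel⟩

theorem c_mm_213 : CertB 0 536870912 536870912 536870912 966367641 24778659 3 eng mog cd0q2 cd0q1 pd3 true false false .pnn 2 1 3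
    ndB0q2 ndB0q1 pcB3 cut_mm_213 Ext.none :=
  certB0 (fam := true) (s1 := false) (s2 := false) (a := 2) (b := 1) (c := 3) (cn := .pnn) (n1 := ndB0q2) (n2 := ndB0q1) (pc := pcB3) (cut := cut_mm_213) (xt := Ext.none) (P1 := 0) (W1 := 536870912) (P2 := 536870912) (W2 := 536870912) (P3 := 966367641) (W3 := 24778659) (N0 := 3) (En := eng) (mo := mog) (C1 := cd0q2) (C2 := cd0q1) (C3 := pd3)
    rfl k0_mm_213

end Pool.Agent.Strip051.G.I9000_9231.Tab.C.BA00

namespace Pool.Agent.Strip051.G.I9000_9231.Tab.C.BA01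

open Pool.Agent.Strip051.PB Pool.Agent.Strip051.PB.T
open Pool.Agent.Strip051.G.I9000_9231.Tab

noncomputable def f_pp_001 : ℕ → ℕ → ℕ → ℕ → Bool := onCell 0 536870912 0 536870912 966367641 24778659
    (rowB 3 eng mog cd0q0 cd1q0 pd1 0 true true true .up 0 0 1 (qsf 0 536870912 0 536870912 1) ndB0q0 ndB1q0 pcB1 Cut.none Ext.none)

def k0_pp_001 : ∃ t, chk3 f_pp_001 t 1 1 1 = true :=
  ⟨(l 4), by decide +kernel⟩

theorem c_pp_001 : CertB 0 536870912 0 536870912 966367641 24778659 3 eng mog cd0q0 cd1q0 pd1 true true true .up 0 0 1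
    ndB0q0 ndB1q0 pcB1 Cut.none Ext.none :=
  certB0 (fam := true) (s1 := true) (s2 := true) (a := 0) (b := 0) (c := 1) (cn := .up) (n1 := ndB0q0) (n2 := ndB1q0) (pc := pcB1) (cut := Cut.none) (xt := Ext.none) (P1 := 0) (W1 := 536870912) (P2 := 0) (W2 := 536870912) (P3 := 966367641) (W3 := 24778659) (N0 := 3) (En := eng) (mo := mog) (C1 := cd0q0) (C2 := cd1q0) (C3 := pd1)
    rfl k0_pp_001

noncomputable def f_pp_011 : ℕ → ℕ → ℕ → ℕ → Bool := onCell 0 536870912 536870912 536870912 966367641 24778659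
    (rowB 3 eng mog cd0q0 cd1q1 pd1 0 true true true .pnn 0 1 1 (qsf 0 536870912 536870912 536870912 1) ndB0q0 ndB1q1 pcB1 Cut.none Ext.none)

def k0_pp_011 : ∃ t, chk3 f_pp_011 t 1 1 1 = true :=
  ⟨(l 4), by decide +kernel⟩

theorem c_pp_011 : CertB 0 536870912 536870912 536870912 966367641 24778659 3 eng mog cd0q0 cd1q1 pd1 true true true .pnn 0 1 1
    ndB0q0 ndB1q1 pcB1 Cut.none Ext.none :=
  certB0 (fam := true) (s1 := true) (s2 := true) (a := 0) (b := 1) (c := 1) (cn := .pnn) (n1 := ndB0q0) (n2 := ndB1q1) (pc := pcB1) (cut := Cut.none) (xt := Ext.none) (P1 := 0) (W1 := 536870912) (P2 := 536870912) (W2 := 536870912) (P3 := 966367641) (W3 := 24778659) (N0 := 3) (En := eng) (mo := mog) (C1 := cd0q0) (C2 := cd1q1) (C3 := pd1)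
    rfl k0_pp_011

noncomputable def f_pp_012 : ℕ → ℕ → ℕ → ℕ → Bool := onCell 0 536870912 536870912 536870912 966367641 24778659
    (rowB 3 eng mog cd0q0 cd1q1 pd2 0 true true true .pnp 0 1 2 (qsf 0 536870912 536870912 536870912 2) ndB0q0 ndB1q1 pcB2 Cut.none Ext.none)

def k0_pp_012 : ∃ t, chk3 f_pp_012 t 1 1 1 = true :=
  ⟨(l 4), by decide +kernel⟩

theorem c_pp_012 : CertB 0 536870912 536870912 536870912 966367641 24778659 3 eng mog cd0q0 cd1q1 pd2 true true true .pnp 0 1 2
    ndB0q0 ndB1q1 pcB2 Cut.none Ext.none :=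
  certB0 (fam := true) (s1 := true) (s2 := true) (a := 0) (b := 1) (c := 2) (cn := .pnp) (n1 := ndB0q0) (n2 := ndB1q1) (pc := pcB2) (cut := Cut.none) (xt := Ext.none) (P1 := 0) (W1 := 536870912) (P2 := 536870912) (W2 := 536870912) (P3 := 966367641) (W3 := 24778659) (N0 := 3) (En := eng) (mo := mog) (C1 := cd0q0) (C2 := cd1q1) (C3 := pd2)
    rfl k0_pp_012

noncomputable def cut_pp_022_a : Cut := Cut.of [[⟨0, 0, 0, 67108864⟩, ⟨1, 1, 0, 67108864⟩, ⟨2, 1, 0, 67108864⟩]]

noncomputable def f_pp_022_a : ℕ → ℕ → ℕ → ℕ → Bool := onCell 0 536870912 0 536870912 966367641 24778659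
    (rowB 3 eng mog cd0q0 cd1q2a pd2 0 true true true .pp 0 2 2 (qsf 0 536870912 0 536870912 2) ndB0q0 ndB1q2a pcB2 cut_pp_022_a Ext.none)

def k0_pp_022_a : ∃ t, chk3 f_pp_022_a t 4 2 2 = true :=
  ⟨(a (a (b (b (a (c (l 16222024) (l 16267728)) (c (l 16269704) (l 16316840))) (a (b (l 16212304) (l 16180616)) (b (l 16278792) (l 16245192)))) (c (b (a (b (l 16259792) (l 16278328)) (b (l 16301224) (l 16317992))) (a (b (l 16301136) (a (l 16320016) (l 16336992))) (b (l 16338792) (a (l 16354960) (l 16373536))))) (b (a (b (l 16296480) (l 16312160)) (b (l 16338616) (l 16352352))) (a (b (l 16332088) (l 16293472)) (b (l 16369984) (l 16371240)))))) (b (a (b (l 16216368) (b (l 16304176) (l 16289784))) (b (l 16285512) (b (l 16349744) (l 16354664)))) (b (a (b (l 16278728) (c (l 16359224) (l 16393536))) (b (l 16341976) (l 16333000))) (c (a (b (l 16378480) (l 16360072)) (b (l 16417872) (l 16440048))) (a (b (l 16409552) (l 16408704)) (b (l 16448320) (l 16467144))))))) (b (a (b (a (l 16331160) (l 16373064))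 (c (a (l 16416288) (l 16455832)) (a (l 16436608) (l 16496016)))) (b (a (l 16431040) (l 16484432)) (a (l 16384272) (l 16456296)))) (a (b (a (b (l 16403104) (l 16392592)) (c (l 16427992) (l 16461440))) (a (b (l 16365176) (a (l 16459352) (l 16476416))) (b (l 16420032) (a (l 16492624) (l 16507832))))) (b (a (c (l 16460936) (l 16533776)) (c (l 16490312) (l 16559544))) (a (b (l 16470552) (a (l 16521896) (l 16534752))) (b (l 16496104) (a (l 16546768) (l 16558144)))))))), by decide +kernel⟩

def k1_pp_022_a : ∃ t, chk3 f_pp_022_a t 4 2 3 = true :=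
  ⟨(a (b (a (b (a (l 16255688) (l 16307040)) (a (b (l 16299624) (l 16304456)) (c (l 16368408) (l 16413344)))) (a (b (l 16357672) (l 16331920)) (b (l 16427032) (l 16376096)))) (a (b (a (b (l 16291232) (l 16281440)) (c (l 16319880) (l 16358496))) (a (b (a (l 16371240) (l 16389888)) (a (l 16391840) (l 16387952))) (b (a (l 16409160) (l 16428976)) (b (l 16389336) (l 16378176))))) (b (a (c (l 16361952) (l 16432056)) (a (l 16390600) (l 16410288))) (a (b (l 16374536) (a (l 16422152) (l 16440856))) (c (b (l 16479968) (l 16495304)) (b (l 16512808) (l 16524520))))))) (b (a (a (b (l 16488536) (l 16438608)) (b (l 16479184) (l 16498616))) (b (a (l 16454720) (l 16456464)) (a (l 16499448) (l 16505264)))) (a (b (a (b (l 16499632) (l 16482288)) (c (l 16538144) (l 16564560))) (a (b (l 16447984) (c (l 16508792) (l 16558232))) (b (l 16521152) (l 16489768)))) (b (a (b (l 16577040) (l 16582624)) (b (l 16585544) (l 16602080))) (a (b (l 16566432) (l 16533696)) (b (l 16605592) (l 16571592))))))), by decide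 +kernel⟩

def k2_pp_022_a : ∃ t, chk3 f_pp_022_a t 16 6 1 = true :=
  ⟨(b (a (c (b (a (b (l 16356952) (l 16374192)) (b (l 16373144) (l 16389872))) (a (b (l 16392880) (l 16413056)) (b (l 16408072) (l 16427800)))) (b (a (l 16375792) (l 16391496)) (a (b (l 16440752) (l 16458112)) (b (l 16455512) (l 16472296))))) (c (b (a (b (l 16390192) (l 16406376)) (b (l 16407944) (l 16423544))) (a (b (l 16424048) (l 16443280)) (b (l 16440648) (l 16459336)))) (b (a (l 16386968) (l 16404032)) (a (b (l 16470920) (l 16487064)) (b (l 16486856) (l 16502296)))))) (a (b (c (a (b (l 16392824) (c (l 16448632) (l 16467648))) (b (l 16428136) (l 16409104))) (a (b (l 16477048) (l 16476480)) (b (l 16490712) (l 16489840)))) (c (a (b (c (l 16474216) (l 16491800)) (c (l 16501472) (l 16517496))) (b (c (l 16488008) (l 16505328)) (c (l 16514960) (l 16530832)))) (a (b (l 16477400) (c (l 16534080) (l 16551232))) (b (l 16490536) (c (l 16547272) (l 16564272)))))) (b (c (b (a (l 16464128) (l 16479672)) (a (l 16444688) (l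 16459768))) (b (a (l 16504896) (l 16498488)) (a (l 16503488) (l 16517448)))) (c (b (a (c (l 16502472) (l 16519344)) (c (l 16517440) (l 16533696))) (a (c (l 16529104) (l 16544568)) (c (l 16543688) (l 16558568)))) (b (a (l 16503864) (l 16517264)) (a (c (l 16560600) (l 16577184)) (c (l 16573984) (l 16589952)))))))), by decide +kernel⟩

def k3_pp_022_a : ∃ t, chk3 f_pp_022_a t 17 6 1 = true :=
  ⟨(b (c (a (b (a (b (l 16426216) (l 16441240)) (b (l 16444632) (l 16459152))) (a (b (l 16457712) (l 16475816)) (b (l 16475112) (l 16492560)))) (b (a (l 16386048) (l 16424616)) (a (b (l 16492432) (l 16509440)) (b (l 16509528) (l 16526088))))) (a (b (a (l 16421624) (l 16439144)) (a (b (l 16503208) (l 16517864)) (b (l 16519880) (l 16533672)))) (b (c (l 16494392) (l 16498920)) (c (a (l 16532232) (l 16548592)) (b (l 16534824) (l 16547080)))))) (b (a (c (b (a (l 16495584) (l 16490744)) (a (l 16475152) (l 16490696))) (b (a (l 16513328) (l 16528320)) (c (l 16508800) (l 16526832)))) (c (b (a (l 16507016)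 (l 16523120)) (a (l 16506280) (l 16521816))) (c (b (l 16541944) (l 16559232)) (b (l 16560656) (l 16555056))))) (b (a (c (a (c (l 16532680) (l 16548264)) (c (l 16548040) (l 16562896))) (a (l 16530792) (l 16544304))) (c (a (c (l 16563376) (l 16577504)) (c (l 16578512) (l 16592032))) (a (l 16557776) (l 16571376)))) (a (c (a (c (l 16558544) (l 16572672)) (c (l 16573448) (l 16586784))) (a (c (l 16587328) (l 16602512)) (c (l 16600616) (l 16614960)))) (c (a (c (l 16588264) (l 16600784)) (a (l 16584144) (l 16569920))) (a (c (l 16613776) (l 16627256)) (a (l 16609024) (l 16615200)))))))), by decide +kernel⟩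

def k4_pp_022_a : ∃ t, chk3 f_pp_022_a t 9 6 1 = true :=
  ⟨(a (b (c (b (a (b (l 16443288) (l 16435528)) (b (l 16495488) (l 16486952))) (a (b (a (l 16525968) (l 16541680)) (a (l 16542136) (l 16557464))) (b (a (l 16556544) (l 16570408)) (a (l 16571944) (l 16585408))))) (a (b (c (l 16527344) (l 16573088)) (c (l 16509120) (a (l 16564584) (l 16579176)))) (b (c (l 16556344) (l 16600816)) (b (l 16540640) (l 16541712))))) (a (a (b (c (b (l 16559792) (l 16536992)) (c (l 16551944) (l 16569120))) (c (b (c (l 16593152) (l 16606320)) (a (l 16575720) (l 16580624))) (b (l 16585096) (b (l 16619072) (l 16627400))))) (b (c (b (l 16574736) (l 16551512)) (c (l 16587296) (l 16583208))) (b (c (c (l 16605280) (l 16618392)) (l 116735485095)) (l 4)))) (b (a (c (b (l 16567816) (l 108682349271)) (b (l 16601128) (l 16593784))) (b (c (l 16558736) (l 16632936)) (l 4))) (l 4)))) (b (a (b (c (b (l 16522424) (l 16513120)) (c (l 16579224) (l 16621160))) (c (b (a (l 16583120) (l 16594104)) (a (l 16575920) (l 16585096)))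 (c (l 98481819767) (l 84523232823)))) (b (c (a (l 16524272) (l 86670600215)) (c (l 16575648) (l 16635432))) (a (c (l 102239878711) (l 86133872743)) (l 4)))) (b (l 4) (l 4)))), by decide +kernel⟩

def k5_pp_022_a : ∃ t, chk3 f_pp_022_a t 16 14 1 = true :=
  ⟨(a (a (b (c (b (a (l 16513248) (l 16519744)) (b (l 16517496) (a (l 16571344) (l 16577856)))) (b (a (l 16542928) (l 16549456)) (a (l 16547904) (l 16554464)))) (b (a (l 6) (b (b (l 16559208) (l 6)) (l 6))) (l 6))) (b (c (b (a (l 16526376) (l 16512160)) (b (l 16530720) (c (l 16581808) (l 16593968)))) (b (c (l 16572744) (l 16588040)) (b (l 16578656) (l 16571048)))) (b (c (b (c (l 16597808) (l 16609072)) (c (l 16614192) (l 16624544))) (b (c (l 16620728) (l 16632768)) (c (l 16635256) (l 16646320)))) (a (l 6) (b (c (l 16618032) (l 16637520)) (l 6)))))) (a (b (c (b (a (l 16519016) (l 16525952)) (b (l 16544320) (c (l 16595456) (l 16607448)))) (b (b (l 16566120) (l 16578800)) (b (l 16591840) (l 16584272)))) (a (b (c (b (l 16613528) (l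 16629488)) (b (l 16636648) (l 16629776))) (b (c (l 16624864) (l 16644216)) (l 6))) (b (c (b (l 16620352) (l 16615344)) (b (l 16643248) (l 16636400))) (b (c (l 16631704) (l 16650880)) (c (c (l 16665296) (l 16673640)) (l 16665712)))))) (b (c (b (a (l 16532960) (l 16540000)) (b (l 16558144) (c (l 16609384) (l 16620992)))) (b (a (l 16561176) (l 16567568)) (b (l 16604760) (l 16597232)))) (b (c (b (c (l 16625288) (l 16636080)) (a (l 16622176) (l 16629008))) (b (c (l 16647256) (l 16658816)) (a (l 16642952) (l 16649384)))) (b (c (a (l 16638552) (l 16624400)) (c (l 16655920) (l 16665616))) (c (a (c (l 16672224) (l 16680448)) (b (l 16678792) (l 16665608))) (a (l 16672344) (b (l 16675000) (l 16681872))))))))), by decide +kernel⟩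

def k6_pp_022_a : ∃ t, chk3 f_pp_022_a t 17 14 1 = true :=
  ⟨(b (a (c (b (a (a (l 16536576) (l 16543640)) (a (l 16561168) (l 16568176))) (a (b (c (l 16608192) (l 16619880)) (c (l 16623472) (l 16634440))) (b (c (l 16622440) (l 16633240)) (a (l 16639144) (l 16645288))))) (a (b (a (l 16573872) (l 16580080)) (b (l 16596264) (l 16609688))) (b (b (l 16604136) (l 16616424)) (c (b (l 16644448) (l 16657752)) (l 34057441335))))) (a (b (c (b (l 16592792) (l 35667975783)) (c (l 16616256) (l 16628096))) (c (b (c (l 16634472) (l 16644480)) (l 151095280503)) (b (l 16618256) (l 150558451479)))) (b (c (b (l 16583928) (l 123714833543)) (c (l 16626240) (l 16637520))) (l 4)))) (a (b (b (c (a (c (l 16639232) (l 16649472)) (a (l 16632824) (l 16637008))) (a (a (l 16641448) (l 16647560)) (a (l 16652888) (l 16656400)))) (a (c (a (l 16635808) (l 16631424)) (a (l 16655680) (l 16661208))) (a (c (l 16645992) (l 16664776)) (l 4)))) (a (a (c (b (a (l 16650360) (l 16652992)) (l 166664624103)) (b (l 16669688)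 (l 163443433607))) (b (c (l 161295894231) (l 16673352)) (l 4))) (l 4))) (l 4))), by decide +kernel⟩

def k7_pp_022_a : ∃ t, chk3 f_pp_022_a t 8 15 1 = true :=
  ⟨(a (b (a (l 6) (b (a (l 6) (a (b (c (b (l 16668088) (l 16676112)) (c (l 16683184) (l 16690976))) (l 6)) (b (c (b (l 16672768) (l 4)) (l 168275291527)) (l 4)))) (l 6))) (l 6)) (l 4)), by decide +kernel⟩

def k8_pp_022_a : ∃ t, chk3 f_pp_022_a t 9 7 1 = true :=
  ⟨(b (l 4) (l 4)), by decide +kernel⟩

def k9_pp_022_a : ∃ t, chk3 f_pp_022_a t 5 1 1 = true :=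
  ⟨(b (a (b (b (a (c (a (l 16555544) (l 16601296)) (c (l 16489480) (l 16399624))) (c (a (l 16607104) (l 16616064)) (c (l 16510872) (l 16385960)))) (a (c (a (l 16504392) (l 16549648)) (a (l 16514488) (l 16505848))) (a (c (l 16591512) (l 16542320)) (c (l 16629368) (l 16561136))))) (a (b (c (a (c (l 16517192) (l 16582288)) (b (l 16590720) (l 16594760))) (a (b (l 16597280) (l 16617768)) (b (l 16611912) (l 16630096)))) (a (b (c (l 16518984) (l 16620112)) (c (c (l 16566160) (l 16581696)) (c (l 16618896) (l 16635824)))) (b (c (c (l 16595320) (l 16609328)) (l 16610608)) (b (a (l 78617555559) (l 89891865447)) (l 4))))) (b (a (c (b (l 16610616) (l 16613672)) (b (l 16629384) (l 16639120))) (b (c (l 16626760) (l 16648920)) (c (l 58753531655) (l 16584384)))) (a (b (c (c (l 16615480) (l 16604936)) (c (l 16636872) (l 16648392))) (l 4)) (l 4))))) (b (a (b (c (a (l 16628104) (l 16643120)) (a (c (l 16577856) (l 16521544)) (b (l 16545032) (l 16599832)))) (c (a (l 16642176) (b (l 16652840) (l 16648680)))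 (a (l 16562104) (b (l 16633296) (l 16660568))))) (a (b (c (l 16660408) (l 16534808)) (c (b (l 16658760) (l 16656384)) (b (l 16660024) (l 16662624)))) (b (c (l 16655512) (l 16541304)) (b (c (l 16664272) (l 16648136)) (l 4))))) (a (b (a (b (c (l 16639504) (l 16653240)) (c (l 52848046199) (l 90428877559))) (b (c (l 16650064) (l 16658736)) (l 4))) (l 4)) (l 4)))) (b (a (b (a (a (a (b (c (l 91502460791) (l 16594824)) (l 4)) (l 4)) (l 4)) (l 4)) (l 4)) (l 4)) (l 4))), by decide +kernel⟩

def k10_pp_022_a : ∃ t, chk3 f_pp_022_a t 3 1 1 = true :=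
  ⟨(b (a (a (b (b (b (a (c (a (l 16684736) (l 16686392)) (a (l 16646632) (l 16677248))) (c (a (a (l 16687360) (l 16688904)) (l 81302214295)) (a (a (l 16688200) (l 16687184)) (a (l 16688160) (l 4))))) (a (c (a (l 16674112) (l 79691577063)) (a (l 16657928) (a (l 16676976) (l 16678128)))) (l 4))) (a (a (b (c (l 66806723815) (l 85060234583)) (l 4)) (l 4)) (l 4))) (l 4)) (l 4)) (l 4)) (l 4)), by decide +kernel⟩

theorem s11_pp_022_a : ∃ t, chk3 f_pp_022_a t 8 14 1 = true := ex3_a k5_pp_022_a k6_pp_022_a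

theorem s12_pp_022_a : ∃ t, chk3 f_pp_022_a t 8 7 1 = true := ex3_b s11_pp_022_a k7_pp_022_a

theorem s13_pp_022_a : ∃ t, chk3 f_pp_022_a t 4 7 1 = true := ex3_a s12_pp_022_a k8_pp_022_a

theorem s14_pp_022_a : ∃ t, chk3 f_pp_022_a t 8 6 1 = true := ex3_a k2_pp_022_a k3_pp_022_a

theorem s15_pp_022_a : ∃ t, chk3 f_pp_022_a t 4 6 1 = true := ex3_a s14_pp_022_a k4_pp_022_a

theorem s16_pp_022_a : ∃ t, chk3 f_pp_022_a t 4 3 1 = true := ex3_b s15_pp_022_a s13_pp_022_a

theorem s17_pp_022_a : ∃ t, chk3 f_pp_022_a t 4 2 1 = true := ex3_c k0_pp_022_a k1_pp_022_a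

theorem s18_pp_022_a : ∃ t, chk3 f_pp_022_a t 4 1 1 = true := ex3_b s17_pp_022_a s16_pp_022_a

theorem s19_pp_022_a : ∃ t, chk3 f_pp_022_a t 2 1 1 = true := ex3_a s18_pp_022_a k9_pp_022_a

theorem s20_pp_022_a : ∃ t, chk3 f_pp_022_a t 1 1 1 = true := ex3_a s19_pp_022_a k10_pp_022_a

theorem c_pp_022_a : CertB 0 536870912 0 536870912 966367641 24778659 3 eng mog cd0q0 cd1q2a pd2 true true true .pp 0 2 2
    ndB0q0 ndB1q2a pcB2 cut_pp_022_a Ext.none :=
  certB0 (fam := true) (s1 := true) (s2 := true) (a := 0) (b := 2) (c := 2) (cn := .pp) (n1 := ndB0q0) (n2 := ndB1q2a) (pc := pcB2) (cut := cut_pp_022_a) (xt := Ext.none) (P1 := 0) (W1 := 536870912) (P2 := 0) (W2 := 536870912) (P3 := 966367641) (W3 := 24778659) (N0 := 3) (En := eng) (mo := mog) (C1 := cd0q0) (C2 := cd1q2a) (C3 := pd2)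
    rfl s20_pp_022_a

end Pool.Agent.Strip051.G.I9000_9231.Tab.C.BA01

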