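import Pool.Agent.Strip051.G.I9000_9231.Tab
import Pool.Agent.Strip051.PB.ExtD2

/-! # Certificates B2 (generated) -/

set_option linter.all false
set_option maxRecDepth 100000

namespace Pool.Agent.Strip051.G.I9000_9231.Tab.C.BA01

open Pool.Agent.Strip051.PB Pool.Agent.Strip051.PB.T
open Pool.Agent.Strip051.G.I9000_9231.Tab

noncomputable def cut_pp_022_b : Cut := Cut.of [[⟨0, 0, 0, 67108864⟩, ⟨1, 1, 0, 67108864⟩, ⟨2, 1, 0, 67108864⟩]]

noncomputable def f_pp_022_b : ℕ → ℕ → ℕ → ℕ → Bool := onCell 1073741824 536870912 1239849684 370763052 966367641 24778659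
    (rowB 3 eng mog cd0q0 cd1q2b pd2 2 true true true .pp 0 2 2 (qsf 0 536870912 1239849684 370763052 2) ndB0q0 ndB1q2b pcB2 cut_pp_022_b Ext.none)

def k0_pp_022_b : ∃ t, chk3 f_pp_022_b t 2 1 1 = true :=
  ⟨(b (a (l 1) (b (b (a (a (a (l 1) (a (l 1) (b (c (l 16034104) (l 16236544)) (l 1)))) (b (c (a (b (a (l 16207184) (l 16231272)) (l 16084816)) (b (l 16205608) (l 16173008))) (a (b (l 16235880) (l 16228480)) (c (l 16256416) (l 16373680)))) (a (l 1) (c (b (l 16163432) (l 16114672)) (l 16119848))))) (a (a (b (c (a (l 16215856) (l 16240888)) (c (l 16307648) (l 16425936))) (c (b (l 16209520) (l 16157024)) (c (l 16264368) (l 16321272)))) (b (a (a (l 16186504) (l 16198952)) (l 16175424)) (c (l 16125288) (l 16319816)))) (a (b (a (l 16199536) (l 16222696)) (b (l 16171040) (l 16116088))) (b (b (l 16281800) (l 16250248)) (b (l 16196368) (l 16162664)))))) (a (l 1) (b (a (c (a (l 16062096) (l 16039784)) (a (l 16152904) (l 16236864))) (c (a (l 16147120) (l 16172504)) (a (l 16281200) (l 16325760))))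 (a (l 1) (c (a (l 16063928) (l 16105448)) (a (l 16179472) (l 16219736))))))) (a (l 1) (a (l 1) (a (l 1) (b (b (c (l 16004064) (l 16099696)) (l 1)) (l 1))))))) (l 1)), by decide +kernel⟩

def k1_pp_022_b : ∃ t, chk3 f_pp_022_b t 6 1 1 = true :=
  ⟨(b (b (b (b (a (a (a (a (l 16306152) (l 16330848)) (c (l 16427336) (l 16462320))) (a (c (l 16542928) (l 16465736)) (c (l 16570328) (l 16472584)))) (a (c (a (l 16574504) (l 16581832)) (a (l 16462208) (l 16476488))) (c (a (l 16592264) (l 16605848)) (a (l 16494296) (l 16494568))))) (a (a (a (b (l 16260368) (l 16207080)) (b (l 16319184) (l 16310904))) (a (c (l 16449552) (l 16438624)) (c (l 16482984) (l 16444032)))) (a (c (l 16460984) (l 16460880)) (c (l 16564944) (l 16495288))))) (b (a (a (a (a (l 16156104) (l 16199312)) (l 16105592)) (a (l 16145128) (l 16242552))) (a (a (l 16292408) (l 16482448)) (a (l 16494856) (l 16510424)))) (a (a (c (a (l 16149912) (l 16195568)) (l 16198032)) (a (c (l 16219792) (l 16342008)) (l 16183056))) (a (c (l 16340112)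 (l 16399064)) (c (l 16398488) (l 16431032)))))) (a (a (b (c (b (a (l 16042568) (l 16085064)) (l 15772640)) (b (l 16133792) (l 16076056))) (l 1)) (b (c (a (l 15906648) (l 15993136)) (a (l 16179896) (l 16218072))) (c (b (l 15894056) (l 15840616)) (a (l 15918200) (l 15924520))))) (a (b (a (c (l 16058056) (l 16253448)) (c (l 16203384) (l 16284152))) (c (b (l 15997280) (l 15909888)) (a (l 16039096) (l 16070776)))) (b (a (b (l 16324672) (l 16224632)) (c (l 16273344) (l 16332056))) (c (l 15836624) (l 16118032)))))) (b (a (l 1) (a (b (a (l 15612136) (l 15612880)) (l 1)) (a (b (l 15682296) (l 1)) (b (l 15713192) (l 15668072))))) (l 1))), by decide +kernel⟩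

def k2_pp_022_b : ∃ t, chk3 f_pp_022_b t 7 1 1 = true :=
  ⟨(a (b (b (a (b (a (b (c (l 16621936) (l 16560704)) (l 16519192)) (b (c (l 16640296) (l 16587584)) (l 16541288))) (a (b (l 16527912) (l 16449584)) (b (l 16534528) (l 16459960)))) (b (a (b (c (l 16660168) (l 16616576)) (l 16499160)) (b (a (l 16637256) (l 16665448)) (l 16601520))) (c (a (l 16496000) (l 16502336)) (a (l 16507968) (l 16502696))))) (a (b (a (b (l 16365856) (l 16277256)) (l 16338048)) (c (l 15931312) (l 16165248))) (b (a (l 16349896) (l 16357464)) (c (l 16010104) (l 16196216))))) (b (a (b (c (l 15820424) (l 15832288)) (a (l 15708120) (l 15732536))) (b (c (l 15913944) (l 15876496)) (a (l 15759976) (l 15789104)))) (a (l 1) (b (a (l 15565440) (l 15582096)) (l 1))))) (a (a (b (b (c (b (b (l 16662248) (l 16600128)) (l 16506704)) (b (b (l 16641432) (l 16595520)) (l 16497240))) (b (l 16363960) (l 16186920))) (b (b (l 15986184) (l 15819568)) (b (l 15604312) (l 1)))) (b (b (b (b (a (b (l 16676056) (l 16644776)) (l 4)) (l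 4)) (l 4)) (l 4)) (b (l 4) (b (l 15638256) (l 15436280))))) (l 4))), by decide +kernel⟩

theorem s3_pp_022_b : ∃ t, chk3 f_pp_022_b t 3 1 1 = true := ex3_a k1_pp_022_b k2_pp_022_b

theorem s4_pp_022_b : ∃ t, chk3 f_pp_022_b t 1 1 1 = true := ex3_a k0_pp_022_b s3_pp_022_b

theorem c_pp_022_b : CertB 0 536870912 1239849684 370763052 966367641 24778659 3 eng mog cd0q0 cd1q2b pd2 true true true .pp 0 2 2
    ndB0q0 ndB1q2b pcB2 cut_pp_022_b Ext.none :=
  certB2 (fam := true) (s1 := true) (s2 := true) (a := 0) (b := 2) (c := 2) (cn := .pp) (n1 := ndB0q0) (n2 := ndB1q2b) (pc := pcB2) (cut := cut_pp_022_b) (xt := Ext.none) (P1 := 0) (W1 := 536870912) (P2 := 1239849684) (W2 := 370763052) (P3 := 966367641) (W3 := 24778659) (N0 := 3) (En := eng) (mo := mog) (C1 := cd0q0) (C2 := cd1q2b) (C3 := pd2)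
    rfl (fun _ => rfl) s4_pp_022_b

noncomputable def f_pp_023_a : ℕ → ℕ → ℕ → ℕ → Bool := onCell 1610612736 536870912 0 536870912 966367641 24778659
    (rowB 3 eng mog cd0q0 cd1q2a pd3 2 true true true .up 0 2 3 (qsf 0 536870912 0 536870912 3) ndB0q0 ndB1q2a pcB3 Cut.none Ext.none)

def k0_pp_023_a : ∃ t, chk3 f_pp_023_a t 1 1 1 = true :=
  ⟨(a (a (l 4) (l 4)) (l 2)), by decide +kernel⟩

theorem c_pp_023_a : CertB 0 536870912 0 536870912 966367641 24778659 3 eng mog cd0q0 cd1q2a pd3 true true true .up 0 2 3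
    ndB0q0 ndB1q2a pcB3 Cut.none Ext.none :=
  certB2 (fam := true) (s1 := true) (s2 := true) (a := 0) (b := 2) (c := 3) (cn := .up) (n1 := ndB0q0) (n2 := ndB1q2a) (pc := pcB3) (cut := Cut.none) (xt := Ext.none) (P1 := 0) (W1 := 536870912) (P2 := 0) (W2 := 536870912) (P3 := 966367641) (W3 := 24778659) (N0 := 3) (En := eng) (mo := mog) (C1 := cd0q0) (C2 := cd1q2a) (C3 := pd3)
    rfl (fun _ => rfl) k0_pp_023_a

noncomputable def f_pp_023_b : ℕ → ℕ → ℕ → ℕ → Bool := onCell 1610612736 536870912 1239849684 370763052 966367641 24778659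
    (rowB 3 eng mog cd0q0 cd1q2b pd3 2 true true true .up 0 2 3 (qsf 0 536870912 1239849684 370763052 3) ndB0q0 ndB1q2b pcB3 Cut.none Ext.none)

def k0_pp_023_b : ∃ t, chk3 f_pp_023_b t 1 1 1 = true :=
  ⟨(a (b (l 4) (l 4)) (l 4)), by decide +kernel⟩

theorem c_pp_023_b : CertB 0 536870912 1239849684 370763052 966367641 24778659 3 eng mog cd0q0 cd1q2b pd3 true true true .up 0 2 3
    ndB0q0 ndB1q2b pcB3 Cut.none Ext.none :=
  certB2 (fam := true) (s1 := true) (s2 := true) (a := 0) (b := 2) (c := 3) (cn := .up) (n1 := ndB0q0) (n2 := ndB1q2b) (pc := pcB3) (cut := Cut.none) (xt := Ext.none) (P1 := 0) (W1 := 536870912) (P2 := 1239849684) (W2 := 370763052) (P3 := 966367641) (W3 := 24778659) (N0 := 3) (En := eng) (mo := mog) (C1 := cd0q0) (C2 := cd1q2b) (C3 := pd3)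
    rfl (fun _ => rfl) k0_pp_023_b

noncomputable def f_pp_033 : ℕ → ℕ → ℕ → ℕ → Bool := onCell 0 536870912 1610612736 536870912 966367641 24778659
    (rowB 3 eng mog cd0q0 cd1q3 pd3 0 true true true .pnn 0 3 3 (qsf 0 536870912 1610612736 536870912 3) ndB0q0 ndB1q3 pcB3 Cut.none Ext.none)

def k0_pp_033 : ∃ t, chk3 f_pp_033 t 1 1 1 = true :=
  ⟨(a (b (l 4) (l 4)) (l 4)), by decide +kernel⟩

theorem c_pp_033 : CertB 0 536870912 1610612736 536870912 966367641 24778659 3 eng mog cd0q0 cd1q3 pd3 true true true .pnn 0 3 3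
    ndB0q0 ndB1q3 pcB3 Cut.none Ext.none :=
  certB0 (fam := true) (s1 := true) (s2 := true) (a := 0) (b := 3) (c := 3) (cn := .pnn) (n1 := ndB0q0) (n2 := ndB1q3) (pc := pcB3) (cut := Cut.none) (xt := Ext.none) (P1 := 0) (W1 := 536870912) (P2 := 1610612736) (W2 := 536870912) (P3 := 966367641) (W3 := 24778659) (N0 := 3) (En := eng) (mo := mog) (C1 := cd0q0) (C2 := cd1q3) (C3 := pd3)
    rfl k0_pp_033

noncomputable def f_pp_101 : ℕ → ℕ → ℕ → ℕ → Bool := onCell 536870912 536870912 0 536870912 966367641 24778659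
    (rowB 3 eng mog cd0q1 cd1q0 pd1 0 true true true .npn 1 0 1 (qsf 536870912 536870912 0 536870912 1) ndB0q1 ndB1q0 pcB1 Cut.none Ext.none)

def k0_pp_101 : ∃ t, chk3 f_pp_101 t 1 1 1 = true :=
  ⟨(l 5), by decide +kernel⟩

theorem c_pp_101 : CertB 536870912 536870912 0 536870912 966367641 24778659 3 eng mog cd0q1 cd1q0 pd1 true true true .npn 1 0 1
    ndB0q1 ndB1q0 pcB1 Cut.none Ext.none :=
  certB0 (fam := true) (s1 := true) (s2 := true) (a := 1) (b := 0) (c := 1) (cn := .npn) (n1 := ndB0q1) (n2 := ndB1q0) (pc := pcB1) (cut := Cut.none) (xt := Ext.none) (P1 := 536870912) (W1 := 536870912) (P2 := 0) (W2 := 536870912) (P3 := 966367641) (W3 := 24778659) (N0 := 3) (En := eng) (mo := mog) (C1 := cd0q1) (C2 := cd1q0) (C3 := pd1)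
    rfl k0_pp_101

noncomputable def f_pp_102 : ℕ → ℕ → ℕ → ℕ → Bool := onCell 536870912 536870912 0 536870912 966367641 24778659
    (rowB 3 eng mog cd0q1 cd1q0 pd2 0 true true true .npp 1 0 2 (qsf 536870912 536870912 0 536870912 2) ndB0q1 ndB1q0 pcB2 Cut.none Ext.none)

def k0_pp_102 : ∃ t, chk3 f_pp_102 t 1 1 1 = true :=
  ⟨(l 5), by decide +kernel⟩

theorem c_pp_102 : CertB 536870912 536870912 0 536870912 966367641 24778659 3 eng mog cd0q1 cd1q0 pd2 true true true .npp 1 0 2
    ndB0q1 ndB1q0 pcB2 Cut.none Ext.none :=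
  certB0 (fam := true) (s1 := true) (s2 := true) (a := 1) (b := 0) (c := 2) (cn := .npp) (n1 := ndB0q1) (n2 := ndB1q0) (pc := pcB2) (cut := Cut.none) (xt := Ext.none) (P1 := 536870912) (W1 := 536870912) (P2 := 0) (W2 := 536870912) (P3 := 966367641) (W3 := 24778659) (N0 := 3) (En := eng) (mo := mog) (C1 := cd0q1) (C2 := cd1q0) (C3 := pd2)
    rfl k0_pp_102

noncomputable def f_pp_112 : ℕ → ℕ → ℕ → ℕ → Bool := onCell 536870912 536870912 536870912 536870912 966367641 24778659
    (rowB 3 eng mog cd0q1 cd1q1 pd2 0 true true true .dn 1 1 2 (qsf 536870912 536870912 536870912 536870912 2) ndB0q1 ndB1q1 pcB2 Cut.none Ext.none)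

def k0_pp_112 : ∃ t, chk3 f_pp_112 t 1 1 1 = true :=
  ⟨(l 4), by decide +kernel⟩

theorem c_pp_112 : CertB 536870912 536870912 536870912 536870912 966367641 24778659 3 eng mog cd0q1 cd1q1 pd2 true true true .dn 1 1 2
    ndB0q1 ndB1q1 pcB2 Cut.none Ext.none :=
  certB0 (fam := true) (s1 := true) (s2 := true) (a := 1) (b := 1) (c := 2) (cn := .dn) (n1 := ndB0q1) (n2 := ndB1q1) (pc := pcB2) (cut := Cut.none) (xt := Ext.none) (P1 := 536870912) (W1 := 536870912) (P2 := 536870912) (W2 := 536870912) (P3 := 966367641) (W3 := 24778659) (N0 := 3) (En := eng) (mo := mog) (C1 := cd0q1) (C2 := cd1q1) (C3 := pd2)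
    rfl k0_pp_112

noncomputable def f_pp_113 : ℕ → ℕ → ℕ → ℕ → Bool := onCell 536870912 536870912 536870912 536870912 966367641 24778659
    (rowB 3 eng mog cd0q1 cd1q1 pd3 0 true true true .nn 1 1 3 (qsf 536870912 536870912 536870912 536870912 3) ndB0q1 ndB1q1 pcB3 Cut.none Ext.none)

def k0_pp_113 : ∃ t, chk3 f_pp_113 t 1 1 1 = true :=
  ⟨(l 4), by decide +kernel⟩

theorem c_pp_113 : CertB 536870912 536870912 536870912 536870912 966367641 24778659 3 eng mog cd0q1 cd1q1 pd3 true true true .nn 1 1 3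
    ndB0q1 ndB1q1 pcB3 Cut.none Ext.none :=
  certB0 (fam := true) (s1 := true) (s2 := true) (a := 1) (b := 1) (c := 3) (cn := .nn) (n1 := ndB0q1) (n2 := ndB1q1) (pc := pcB3) (cut := Cut.none) (xt := Ext.none) (P1 := 536870912) (W1 := 536870912) (P2 := 536870912) (W2 := 536870912) (P3 := 966367641) (W3 := 24778659) (N0 := 3) (En := eng) (mo := mog) (C1 := cd0q1) (C2 := cd1q1) (C3 := pd3)
    rfl k0_pp_113

noncomputable def f_pp_123_a : ℕ → ℕ → ℕ → ℕ → Bool := onCell 536870912 536870912 0 536870912 966367641 24778659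
    (rowB 3 eng mog cd0q1 cd1q2a pd3 0 true true true .npn 1 2 3 (qsf 536870912 536870912 0 536870912 3) ndB0q1 ndB1q2a pcB3 Cut.none Ext.none)

def k0_pp_123_a : ∃ t, chk3 f_pp_123_a t 1 1 1 = true :=
  ⟨(l 4), by decide +kernel⟩

theorem c_pp_123_a : CertB 536870912 536870912 0 536870912 966367641 24778659 3 eng mog cd0q1 cd1q2a pd3 true true true .npn 1 2 3
    ndB0q1 ndB1q2a pcB3 Cut.none Ext.none :=
  certB0 (fam := true) (s1 := true) (s2 := true) (a := 1) (b := 2) (c := 3) (cn := .npn) (n1 := ndB0q1) (n2 := ndB1q2a) (pc := pcB3) (cut := Cut.none) (xt := Ext.none) (P1 := 536870912) (W1 := 536870912) (P2 := 0) (W2 := 536870912) (P3 := 966367641) (W3 := 24778659) (N0 := 3) (En := eng) (mo := mog) (C1 := cd0q1) (C2 := cd1q2a) (C3 := pd3)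
    rfl k0_pp_123_a

noncomputable def f_pp_123_b : ℕ → ℕ → ℕ → ℕ → Bool := onCell 536870912 536870912 1239849684 370763052 966367641 24778659
    (rowB 3 eng mog cd0q1 cd1q2b pd3 0 true true true .npn 1 2 3 (qsf 536870912 536870912 1239849684 370763052 3) ndB0q1 ndB1q2b pcB3 Cut.none Ext.none)

def k0_pp_123_b : ∃ t, chk3 f_pp_123_b t 1 1 1 = true :=
  ⟨(l 4), by decide +kernel⟩

theorem c_pp_123_b : CertB 536870912 536870912 1239849684 370763052 966367641 24778659 3 eng mog cd0q1 cd1q2b pd3 true true true .npn 1 2 3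
    ndB0q1 ndB1q2b pcB3 Cut.none Ext.none :=
  certB0 (fam := true) (s1 := true) (s2 := true) (a := 1) (b := 2) (c := 3) (cn := .npn) (n1 := ndB0q1) (n2 := ndB1q2b) (pc := pcB3) (cut := Cut.none) (xt := Ext.none) (P1 := 536870912) (W1 := 536870912) (P2 := 1239849684) (W2 := 370763052) (P3 := 966367641) (W3 := 24778659) (N0 := 3) (En := eng) (mo := mog) (C1 := cd0q1) (C2 := cd1q2b) (C3 := pd3)
    rfl k0_pp_123_b

noncomputable def f_pp_133 : ℕ → ℕ → ℕ → ℕ → Bool := onCell 536870912 536870912 1610612736 536870912 966367641 24778659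
    (rowB 3 eng mog cd0q1 cd1q3 pd3 0 true true true .dn 1 3 3 (qsf 536870912 536870912 1610612736 536870912 3) ndB0q1 ndB1q3 pcB3 Cut.none Ext.none)

def k0_pp_133 : ∃ t, chk3 f_pp_133 t 1 1 1 = true :=
  ⟨(l 4), by decide +kernel⟩

theorem c_pp_133 : CertB 536870912 536870912 1610612736 536870912 966367641 24778659 3 eng mog cd0q1 cd1q3 pd3 true true true .dn 1 3 3
    ndB0q1 ndB1q3 pcB3 Cut.none Ext.none :=
  certB0 (fam := true) (s1 := true) (s2 := true) (a := 1) (b := 3) (c := 3) (cn := .dn) (n1 := ndB0q1) (n2 := ndB1q3) (pc := pcB3) (cut := Cut.none) (xt := Ext.none) (P1 := 536870912) (W1 := 536870912) (P2 := 1610612736) (W2 := 536870912) (P3 := 966367641) (W3 := 24778659) (N0 := 3) (En := eng) (mo := mog) (C1 := cd0q1) (C2 := cd1q3) (C3 := pd3)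
    rfl k0_pp_133

noncomputable def f_pp_202 : ℕ → ℕ → ℕ → ℕ → Bool := onCell 0 536870912 0 536870912 966367641 24778659
    (rowB 3 eng mog cd0q2 cd1q0 pd2 0 true true true .pp 2 0 2 (qsf 0 536870912 0 536870912 2) ndB0q2 ndB1q0 pcB2 Cut.none Ext.none)

def k0_pp_202 : ∃ t, chk3 f_pp_202 t 1 1 1 = true :=
  ⟨(l 5), by decide +kernel⟩

theorem c_pp_202 : CertB 0 536870912 0 536870912 966367641 24778659 3 eng mog cd0q2 cd1q0 pd2 true true true .pp 2 0 2
    ndB0q2 ndB1q0 pcB2 Cut.none Ext.none :=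
  certB0 (fam := true) (s1 := true) (s2 := true) (a := 2) (b := 0) (c := 2) (cn := .pp) (n1 := ndB0q2) (n2 := ndB1q0) (pc := pcB2) (cut := Cut.none) (xt := Ext.none) (P1 := 0) (W1 := 536870912) (P2 := 0) (W2 := 536870912) (P3 := 966367641) (W3 := 24778659) (N0 := 3) (En := eng) (mo := mog) (C1 := cd0q2) (C2 := cd1q0) (C3 := pd2)
    rfl k0_pp_202

noncomputable def f_pp_203 : ℕ → ℕ → ℕ → ℕ → Bool := onCell 0 536870912 0 536870912 966367641 24778659
    (rowB 3 eng mog cd0q2 cd1q0 pd3 0 true true true .up 2 0 3 (qsf 0 536870912 0 536870912 3) ndB0q2 ndB1q0 pcB3 Cut.none Ext.none)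

def k0_pp_203 : ∃ t, chk3 f_pp_203 t 1 1 1 = true :=
  ⟨(l 5), by decide +kernel⟩

theorem c_pp_203 : CertB 0 536870912 0 536870912 966367641 24778659 3 eng mog cd0q2 cd1q0 pd3 true true true .up 2 0 3
    ndB0q2 ndB1q0 pcB3 Cut.none Ext.none :=
  certB0 (fam := true) (s1 := true) (s2 := true) (a := 2) (b := 0) (c := 3) (cn := .up) (n1 := ndB0q2) (n2 := ndB1q0) (pc := pcB3) (cut := Cut.none) (xt := Ext.none) (P1 := 0) (W1 := 536870912) (P2 := 0) (W2 := 536870912) (P3 := 966367641) (W3 := 24778659) (N0 := 3) (En := eng) (mo := mog) (C1 := cd0q2) (C2 := cd1q0) (C3 := pd3)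
    rfl k0_pp_203

noncomputable def f_pp_213 : ℕ → ℕ → ℕ → ℕ → Bool := onCell 0 536870912 536870912 536870912 966367641 24778659
    (rowB 3 eng mog cd0q2 cd1q1 pd3 0 true true true .pnn 2 1 3 (qsf 0 536870912 536870912 536870912 3) ndB0q2 ndB1q1 pcB3 Cut.none Ext.none)

def k0_pp_213 : ∃ t, chk3 f_pp_213 t 1 1 1 = true :=
  ⟨(l 4), by decide +kernel⟩

theorem c_pp_213 : CertB 0 536870912 536870912 536870912 966367641 24778659 3 eng mog cd0q2 cd1q1 pd3 true true true .pnn 2 1 3
    ndB0q2 ndB1q1 pcB3 Cut.none Ext.none :=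
  certB0 (fam := true) (s1 := true) (s2 := true) (a := 2) (b := 1) (c := 3) (cn := .pnn) (n1 := ndB0q2) (n2 := ndB1q1) (pc := pcB3) (cut := Cut.none) (xt := Ext.none) (P1 := 0) (W1 := 536870912) (P2 := 536870912) (W2 := 536870912) (P3 := 966367641) (W3 := 24778659) (N0 := 3) (En := eng) (mo := mog) (C1 := cd0q2) (C2 := cd1q1) (C3 := pd3)
    rfl k0_pp_213

noncomputable def f_pm_001 : ℕ → ℕ → ℕ → ℕ → Bool := onCell 0 536870912 0 536870912 966367641 24778659
    (rowB 3 eng mog cd0q0 cd1q0 pd1 0 true true false .up 0 0 1 (qsf 0 536870912 0 536870912 1) ndB0q0 ndB1q0 pcB1 Cut.none Ext.none)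

def k0_pm_001 : ∃ t, chk3 f_pm_001 t 1 1 1 = true :=
  ⟨(l 3), by decide +kernel⟩

theorem c_pm_001 : CertB 0 536870912 0 536870912 966367641 24778659 3 eng mog cd0q0 cd1q0 pd1 true true false .up 0 0 1
    ndB0q0 ndB1q0 pcB1 Cut.none Ext.none :=
  certB0 (fam := true) (s1 := true) (s2 := false) (a := 0) (b := 0) (c := 1) (cn := .up) (n1 := ndB0q0) (n2 := ndB1q0) (pc := pcB1) (cut := Cut.none) (xt := Ext.none) (P1 := 0) (W1 := 536870912) (P2 := 0) (W2 := 536870912) (P3 := 966367641) (W3 := 24778659) (N0 := 3) (En := eng) (mo := mog) (C1 := cd0q0) (C2 := cd1q0) (C3 := pd1)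
    rfl k0_pm_001

noncomputable def f_pm_011 : ℕ → ℕ → ℕ → ℕ → Bool := onCell 0 536870912 536870912 536870912 966367641 24778659
    (rowB 3 eng mog cd0q0 cd1q1 pd1 1 true true false .pnn 0 1 1 (qsf 0 536870912 536870912 536870912 1) ndB0q0 ndB1q1 pcB1 Cut.none Ext.none)

def k0_pm_011 : ∃ t, chk3 f_pm_011 t 1 1 1 = true :=
  ⟨(l 3), by decide +kernel⟩

theorem c_pm_011 : CertB 0 536870912 536870912 536870912 966367641 24778659 3 eng mog cd0q0 cd1q1 pd1 true true false .pnn 0 1 1
    ndB0q0 ndB1q1 pcB1 Cut.none Ext.none :=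
  certB1 (fam := true) (s1 := true) (s2 := false) (a := 0) (b := 1) (c := 1) (cn := .pnn) (n1 := ndB0q0) (n2 := ndB1q1) (pc := pcB1) (cut := Cut.none) (xt := Ext.none) (P1 := 0) (W1 := 536870912) (P2 := 536870912) (W2 := 536870912) (P3 := 966367641) (W3 := 24778659) (N0 := 3) (En := eng) (mo := mog) (C1 := cd0q0) (C2 := cd1q1) (C3 := pd1)
    rfl (fun _ => rfl) k0_pm_011

noncomputable def f_pm_012 : ℕ → ℕ → ℕ → ℕ → Bool := onCell 0 536870912 1073741824 536870912 966367641 24778659
    (rowB 3 eng mog cd0q0 cd1q1 pd2 1 true true false .pnp 0 1 2 (qsf 0 536870912 536870912 536870912 2) ndB0q0 ndB1q1 pcB2 Cut.none Ext.none)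

def k0_pm_012 : ∃ t, chk3 f_pm_012 t 1 4 1 = true :=
  ⟨(b (l 3) (a (a (a (l 3) (l 3)) (l 3)) (a (l 3) (l 3)))), by decide +kernel⟩

def k1_pm_012 : ∃ t, chk3 f_pm_012 t 2 5 1 = true :=
  ⟨(a (b (b (b (a (l 2) (l 3)) (l 2)) (l 2)) (l 2)) (b (b (b (l 3) (b (l 3) (a (a (a (l 2) (b (l 3) (a (l 2) (l 16553496)))) (b (l 3) (a (l 16537520) (l 16518176)))) (b (l 3) (a (a (l 16522920) (l 16509688)) (a (l 16498368) (l 16487976))))))) (a (a (a (l 2) (b (b (l 16541872) (l 2)) (l 2))) (b (a (b (a (l 16551616) (l 16541016)) (l 16509328)) (c (l 16496224) (l 16498928))) (a (l 16507296) (l 16444672)))) (a (a (b (b (l 16510272) (l 16493648)) (l 16469360)) (b (a (l 16491560) (l 16485488)) (l 16455376))) (a (b (l 16477048) (l 16443552)) (b (l 16466600) (l 16432872)))))) (a (a (l 2) (a (l 2) (b (l 16379624) (l 2)))) (a (b (a (b (l 16438280) (l 16409080)) (b (l 16423512) (l 16393208))) (a (l 2) (l 16351792))) (b (a (l 16395464) (l 16384024)) (a (l 16336536) (l 16323176))))))), by decide +kernel⟩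

def k2_pm_012 : ∃ t, chk3 f_pm_012 t 3 5 1 = true :=
  ⟨(b (a (b (b (l 3) (b (a (l 3) (a (l 1154439451479) (b (l 3) (l 16430656)))) (b (a (a (b (l 3) (l 3)) (b (l 16465120) (l 16460896))) (a (b (l 16444616) (l 16440504)) (l 16422720))) (a (a (l 138679797911) (l 16454576)) (a (l 16434352) (l 16414808)))))) (a (a (a (b (l 16456840) (l 16423000)) (l 16430560)) (a (l 16421312) (l 16411920))) (a (l 16355480) (l 16379064)))) (b (b (a (b (l 3) (a (l 3) (l 16412576))) (b (a (l 3) (l 16387864)) (a (l 16394432) (l 16355160)))) (b (a (a (l 16395088) (l 16398464)) (a (l 16360368) (l 16343184))) (b (a (a (l 16404728) (l 16387792)) (a (l 16371408) (l 16355024))) (a (l 16326240) (l 16357152))))) (a (a (l 16362920) (l 16348160)) (a (l 16334256) (l 16320632))))) (a (a (a (b (a (l 16373632) (l 16363952)) (l 16306104)) (b (l 16350232) (l 16285760))) (a (b (l 16331560) (l 16266632)) (l 16240760))) (a (a (l 16269368) (l 16258304)) (a (l 16248888) (l 16240472))))), by decide +kernel⟩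

def k3_pm_012 : ∃ t, chk3 f_pm_012 t 1 3 1 = true :=
  ⟨(a (a (l 2) (b (a (l 2) (b (a (l 2) (b (l 16278520) (l 2))) (l 2))) (l 2))) (a (b (a (b (a (b (l 16248960) (l 16200472)) (b (l 16225088) (l 16170376))) (a (l 2) (b (l 16124648) (l 2)))) (b (a (l 16153864) (l 16156592)) (a (l 16071800) (l 16044224)))) (a (l 2) (b (a (l 2) (l 15966064)) (l 2)))) (b (a (b (a (l 16143648) (l 16134688)) (a (l 16025784) (l 16014216))) (b (a (l 16128840) (l 16125288)) (a (l 16008064) (l 16006120)))) (a (b (a (l 15930576) (l 15908336)) (a (l 2) (l 15837864))) (b (a (l 15895776) (l 15890600)) (a (l 15806808) (l 15790096))))))), by decide +kernel⟩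

theorem s4_pm_012 : ∃ t, chk3 f_pm_012 t 1 5 1 = true := ex3_a k1_pm_012 k2_pm_012

theorem s5_pm_012 : ∃ t, chk3 f_pm_012 t 1 2 1 = true := ex3_b k0_pm_012 s4_pm_012

theorem s6_pm_012 : ∃ t, chk3 f_pm_012 t 1 1 1 = true := ex3_b s5_pm_012 k3_pm_012

theorem c_pm_012 : CertB 0 536870912 536870912 536870912 966367641 24778659 3 eng mog cd0q0 cd1q1 pd2 true true false .pnp 0 1 2
    ndB0q0 ndB1q1 pcB2 Cut.none Ext.none :=
  certB1 (fam := true) (s1 := true) (s2 := false) (a := 0) (b := 1) (c := 2) (cn := .pnp) (n1 := ndB0q0) (n2 := ndB1q1) (pc := pcB2) (cut := Cut.none) (xt := Ext.none) (P1 := 0) (W1 := 536870912) (P2 := 536870912) (W2 := 536870912) (P3 := 966367641) (W3 := 24778659) (N0 := 3) (En := eng) (mo := mog) (C1 := cd0q0) (C2 := cd1q1) (C3 := pd2)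
    rfl (fun _ => rfl) s6_pm_012

noncomputable def cut_pm_022_a : Cut := Cut.of [[⟨0, 0, 0, 67108864⟩, ⟨1, 1, 0, 67108864⟩, ⟨2, 1, 0, 67108864⟩]]

noncomputable def f_pm_022_a : ℕ → ℕ → ℕ → ℕ → Bool := onCell 1073741824 536870912 0 536870912 966367641 24778659
    (rowB 3 eng mog cd0q0 cd1q2a pd2 2 true true false .pp 0 2 2 (qsf 0 536870912 0 536870912 2) ndB0q0 ndB1q2a pcB2 cut_pm_022_a Ext.none)

def k0_pm_022_a : ∃ t, chk3 f_pm_022_a t 8 1 1 = true :=
  ⟨(b (l 1) (b (l 1) (a (b (l 1) (l 6)) (a (b (b (l 1) (l 6)) (l 6)) (a (b (b (l 1) (l 6)) (l 6)) (a (b (b (b (l 1) (b (l 1) (l 6))) (l 6)) (l 6)) (b (b (b (l 1) (c (b (l 16385344) (l 16409312)) (b (l 16330440) (l 16359560)))) (a (l 6) (b (c (l 16448224) (b (l 16398560) (l 16426808))) (c (l 16521968) (l 16470856))))) (a (l 6) (b (b (c (l 16577688) (l 16532176)) (l 16532592)) (b (l 16596152) (b (l 16624672) (b (l 16625504) (l 16611688))))))))))))), by decide +kernel⟩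

def k1_pm_022_a : ∃ t, chk3 f_pm_022_a t 9 2 1 = true :=
  ⟨(b (l 1) (a (l 1) (b (l 1) (a (l 1) (b (l 1) (c (l 16155960) (b (l 16056512) (l 16057760)))))))), by decide +kernel⟩

def k2_pm_022_a : ∃ t, chk3 f_pm_022_a t 9 6 1 = true :=
  ⟨(b (a (l 1) (a (a (b (l 1) (b (l 1) (c (l 16215264) (l 16130664)))) (b (c (l 16175088) (l 16070152)) (c (b (l 16219040) (l 16251648)) (c (l 16151440) (l 16108008))))) (b (c (a (l 16191208) (l 16208808)) (a (l 16087072) (l 16126432))) (c (a (l 16252016) (l 16269784)) (a (l 16167688) (l 16185656)))))) (a (b (a (l 1) (a (b (l 1) (b (l 1) (c (l 16289840) (l 16209064)))) (c (b (l 16251576) (b (l 16263408) (l 16303304))) (b (b (l 1) (l 16161216)) (b (l 16185608) (l 16221696)))))) (a (a (l 1) (b (a (l 1) (c (l 16309632) (l 16211440))) (c (b (l 16315984) (l 16337184)) (b (l 16242072) (l 16275904))))) (c (b (a (a (l 16294824) (l 16322360)) (l 16332848)) (a (a (l 16357048) (l 16363816)) (l 16374528))) (b (a (a (l 16217160) (l 16223272)) (l 16254032)) (a (a (l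 16283456) (l 16289712)) (l 16299640)))))) (b (a (c (b (a (l 16271120) (l 16286776)) (a (a (l 16304736) (l 16312392)) (l 16324344))) (b (a (l 16181768) (l 16202400)) (a (b (l 16194360) (l 16214672)) (l 16240600)))) (c (b (a (l 16303536) (l 16321136)) (a (l 16341032) (l 16358336))) (a (b (l 16218880) (l 16256552)) (b (l 16236184) (l 16273128))))) (a (c (b (a (l 16347888) (l 16363864)) (a (l 16389704) (l 16405616))) (b (a (l 16268112) (l 16283088)) (a (l 16313736) (l 16328544)))) (c (b (l 16388952) (l 16430280)) (b (l 16306504) (l 16351424))))))), by decide +kernel⟩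

def k3_pm_022_a : ∃ t, chk3 f_pm_022_a t 18 7 1 = true :=
  ⟨(c (b (b (a (b (a (b (l 16357984) (a (l 16388280) (l 16393808))) (b (l 16359136) (l 16402824))) (a (b (a (l 16390568) (l 16417168)) (l 16422672)) (b (l 16426288) (l 16450480)))) (a (b (l 16383648) (l 16451632)) (b (l 16418880) (l 16465776)))) (a (a (b (b (l 16463280) (l 16488920)) (b (l 16515288) (l 16542360))) (b (l 16446248) (l 16519712))) (b (a (l 16501264) (l 16515016)) (l 16475864)))) (b (a (b (a (l 16542376) (l 16553648)) (c (l 16594504) (l 16574104))) (b (l 16529512) (l 16605648))) (b (a (b (l 16628608) (l 16597672)) (a (l 16584432) (l 16561032))) (a (b (a (l 16616656) (l 16593480)) (a (a (l 16597272) (l 16585816)) (a (l 16574336) (l 16562864)))) (b (a (l 16591280) (l 16589288)) (a (a (l 16551432) (l 16540056)) (a (l 16549744) (l 16538584)))))))) (b (b (a (b (a (b (b (l 16272944) (l 16285152)) (a (l 16301488) (l 16327400))) (b (l 16300072) (l 16314568))) (a (b (a (l 16327168) (l 16353152)) (a (l 16374696) (l 16379728)))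 (b (l 16361328) (l 16387904)))) (b (a (a (l 16331944) (l 16338240)) (l 16348136)) (a (l 16386560) (l 16399392)))) (a (b (a (b (l 16404568) (l 16432784)) (b (l 16415248) (l 16443328))) (a (b (l 16461784) (l 16491544)) (l 16465912))) (b (a (l 16440912) (l 16453144)) (a (l 16497800) (l 16509288))))) (b (b (a (a (l 16495696) (l 16526064)) (l 16499352)) (a (a (l 16559224) (l 16567592)) (l 16539216))) (a (b (b (l 16590960) (l 16624120)) (a (b (l 16647712) (l 16597816)) (b (l 16626368) (l 16576720)))) (b (b (l 16627760) (l 16600496)) (b (l 16552272) (a (l 16576560) (l 16555992)))))))), by decide +kernel⟩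

def k4_pm_022_a : ∃ t, chk3 f_pm_022_a t 19 7 1 = true :=
  ⟨(b (c (b (a (b (l 16378784) (l 16446096)) (a (l 16446424) (l 16461944))) (a (a (l 16470728) (l 16484520)) (l 16462872))) (b (a (a (b (l 16362024) (l 16412768)) (l 16317736)) (b (l 16398488) (l 16447688))) (a (a (l 16409808) (l 16422424)) (l 16399288)))) (b (b (a (b (l 16492536) (l 16540776)) (l 16528072)) (a (c (l 16548128) (l 16599496)) (a (l 16518928) (l 16498056)))) (b (c (a (a (l 16558904) (l 16536320)) (a (l 16535496) (l 16514312))) (a (l 16549752) (l 16510472))) (c (a (a (b (l 16566768) (a (l 16527576) (l 16537712))) (b (l 16544968) (c (l 16512856) (l 16531016)))) (a (b (l 16523800) (l 16459208)) (b (l 16503200) (l 16480744)))) (a (b (l 16532584) (a (l 16557200) (l 16538520))) (a (b (l 16566960) (l 16541496)) (l 16494432))))))), by decide +kernel⟩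

def k5_pm_022_a : ∃ t, chk3 f_pm_022_a t 20 1 1 = true :=
  ⟨(a (b (b (l 1) (b (a (l 1) (b (l 16036760) (l 16082824))) (c (b (l 16141640) (l 16185288)) (b (l 16047112) (l 16107512))))) (c (b (b (b (a (l 16227616) (l 16247376)) (a (l 16288424) (l 16307664))) (b (b (l 16348504) (l 16384840)) (b (l 16423288) (l 16463384)))) (b (b (l 16421768) (l 16551096)) (b (a (l 16489432) (l 16468464)) (b (l 16420696) (a (b (l 16482912) (l 16460688)) (l 16410072)))))) (b (b (b (l 16177120) (a (l 16204472) (l 16223880))) (b (b (l 16263048) (l 16298584)) (b (l 16338776) (l 16382584)))) (b (b (l 16368224) (l 16443936)) (b (l 16481968) (b (l 16495120) (a (l 16497664) (l 16501056)))))))) (b (c (b (b (l 16098048) (l 16071424)) (b (a (l 16102352) (l 16145664)) (b (l 16183624) (l 16226976)))) (b (b (l 16048568) (l 16025568)) (b (c (l 16068184) (l 16037056)) (b (l 16113680) (l 16151792))))) (b (b (b (c (l 16278184) (l 16198368)) (c (l 16337080) (l 16253504))) (b (c (l 16340168) (l 16233024)) (a (a (l 16297288)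 (l 16305256)) (a (l 16313072) (a (l 16360832) (l 16343600)))))) (b (a (b (l 16385312) (l 16492920)) (a (b (l 16416160) (l 16521160)) (b (c (l 16543824) (l 16446288)) (l 16463024)))) (b (a (a (l 16400264) (l 16433096)) (a (l 16423480) (b (l 16453816) (l 16436216)))) (b (a (l 16397584) (a (l 16425368) (a (l 16439008) (l 16434072)))) (a (c (l 16411528) (l 16483512)) (a (l 16338720) (a (l 16373392) (l 16347512)))))))))), by decide +kernel⟩

def k6_pm_022_a : ∃ t, chk3 f_pm_022_a t 21 1 1 = true :=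
  ⟨(a (b (b (b (b (l 16097288) (l 16092760)) (c (l 16119320) (l 16079888))) (b (c (l 16181000) (l 16125224)) (c (b (l 16229064) (l 16271072)) (b (l 16162600) (l 16198320))))) (b (b (b (c (l 16320272) (l 16242032)) (c (l 16376192) (l 16293520))) (c (b (l 16396184) (l 16443312)) (b (l 16352008) (l 16379328)))) (b (b (l 16394048) (a (l 16449976) (l 16475104))) (b (b (l 16431776) (l 16414504)) (b (l 16352392) (c (l 16386080) (l 16441224))))))) (b (b (b (c (l 16180520) (l 16167264)) (c (l 16191904) (l 16158672))) (b (c (l 16230272) (l 16179096)) (b (l 16181936) (l 16113488)))) (b (b (b (c (l 16361736) (l 16285776)) (c (l 16413696) (l 16332392))) (b (c (l 16448984) (l 16383920)) (b (l 16324864) (l 16442624)))) (b (b (l 16412896) (l 16387544)) (b (b (l 16399392) (l 16382840)) (b (l 16321560) (c (l 16354528) (l 16413152)))))))), by decide +kernel⟩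

def k7_pm_022_a : ∃ t, chk3 f_pm_022_a t 11 1 1 = true :=
  ⟨(b (b (a (b (c (l 16201648) (l 16199512)) (c (l 16166840) (l 16163928))) (a (b (l 16330456) (l 16342200)) (b (l 16406416) (l 16392392)))) (a (a (b (c (l 16280136) (l 16233944)) (c (l 16341016) (l 16278224))) (b (l 16182832) (c (l 16383376) (l 16324688)))) (b (a (l 16294408) (l 16401064)) (c (l 16334720) (a (l 16365808) (l 16403096)))))) (b (a (b (c (a (b (l 16401032) (l 16447760)) (l 16416088)) (b (l 16262424) (l 16278640))) (b (a (c (l 16498648) (l 16411968)) (l 16375224)) (a (l 16331120) (l 16380248)))) (c (b (a (l 16487960) (l 16513272)) (a (l 16389688) (l 16361448))) (b (a (l 16329152) (l 16438288)) (b (l 16465608) (l 16415792))))) (b (a (b (a (l 16468984) (l 16449128)) (a (l 16356864) (l 16328728))) (b (l 16284272) (a (l 16324112) (l 16301280)))) (a (b (c (a (l 16397272) (l 16390232)) (b (l 16502360) (l 16442144))) (b (a (l 16293488) (l 16289120)) (c (a (l 16326328) (l 16301608)) (l 16270696)))) (b (c (a (l 16365688)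 (l 16343608)) (b (l 16413456) (l 16417136))) (a (c (b (l 16315656) (l 16279152)) (l 16322208)) (c (l 16276936) (l 16343032)))))))), by decide +kernel⟩

def k8_pm_022_a : ∃ t, chk3 f_pm_022_a t 3 2 1 = true :=
  ⟨(a (a (b (a (b (a (l 16455976) (l 16495440)) (a (l 16437992) (l 16479072))) (c (l 16360224) (l 16278848))) (b (a (c (l 16471752) (l 16444872)) (l 16411704)) (a (c (l 16501824) (l 16451064)) (c (l 16476072) (l 16507568))))) (b (b (a (c (l 16407144) (l 16374568)) (c (l 16366056) (l 16321704))) (a (l 16421344) (l 16250584))) (a (b (c (l 16432104) (l 16458856)) (c (l 16432592) (l 16486552))) (b (c (l 16393712) (l 16411104)) (c (l 16396552) (l 16441848)))))) (a (b (a (b (c (l 16333024) (l 16275656)) (l 16233248)) (b (c (l 16304712) (l 16234224)) (l 16178008))) (a (b (l 16281256) (c (l 16365384) (l 16400592))) (b (l 16289176) (l 16222776)))) (b (a (b (c (l 16280128) (l 16196632)) (c (l 16296464) (l 16247320))) (b (c (l 16258808) (l 16162648)) (c (l 16274640) (l 16213480)))) (a (b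 (l 16257632) (l 16232472)) (b (l 16271152) (l 16287360)))))), by decide +kernel⟩

def k9_pm_022_a : ∃ t, chk3 f_pm_022_a t 6 3 1 = true :=
  ⟨(b (a (b (a (c (l 16467168) (l 16473864)) (b (l 16399840) (l 16268136))) (a (b (c (l 16482408) (l 16498856)) (a (l 16334152) (l 16291352))) (b (c (l 16438872) (l 16523720)) (a (l 16270944) (l 16314672))))) (b (a (a (l 16301872) (l 16387112)) (c (l 16366656) (l 16457616))) (a (b (l 16259912) (c (l 16341344) (l 16485576))) (c (l 16234720) (l 16451264))))) (b (a (a (b (b (l 16336752) (l 16290984)) (c (l 16307760) (l 16444872))) (a (b (l 16359600) (l 16284864)) (b (l 16279264) (l 16287992)))) (a (b (a (l 16262072) (l 16245160)) (c (l 16301760) (l 16391584))) (c (b (l 16298152) (l 16269056)) (b (l 16415912) (l 16353776))))) (c (a (b (a (l 16272440) (l 16277880)) (a (b (l 16265376) (l 16229088)) (b (l 16228056) (l 16190984)))) (a (b (l 16242376) (l 16046552)) (b (l 16208176) (l 16094000)))) (a (b (a (l 16332832) (l 16335688)) (a (l 16207256) (l 16207904)))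 (b (a (l 16316648) (l 16276808)) (a (l 16186088) (l 16164368))))))), by decide +kernel⟩

def k10_pm_022_a : ∃ t, chk3 f_pm_022_a t 7 3 1 = true :=
  ⟨(b (a (b (a (c (l 16356272) (l 16417064)) (c (l 16326432) (l 16377008))) (a (c (l 16244656) (l 16410408)) (c (l 16256168) (l 16370352)))) (b (a (c (l 16299096) (l 16339296)) (l 16163104)) (a (c (l 16269480) (l 16331864)) (c (l 16244016) (l 16297072))))) (a (a (b (b (c (l 16288160) (l 16378320)) (l 16171544)) (b (l 16058720) (c (l 15997280) (l 16082592)))) (b (b (c (l 16258568) (l 16341232)) (l 16180640)) (b (c (l 16144880) (l 16201304)) (b (l 16006216) (a (l 16074296) (l 16057528)))))) (b (b (a (c (l 16231208) (l 16285096)) (c (l 16205384) (l 16272672))) (a (l 16151000) (l 16165696))) (b (a (c (l 16116552) (l 16168024)) (b (l 16132640) (l 16092776))) (a (b (l 15995408) (a (l 16041304) (l 16025592))) (b (a (l 16056808) (l 16042496)) (a (l 15989400) (l 15974640)))))))), by decide +kernel⟩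

theorem s11_pm_022_a : ∃ t, chk3 f_pm_022_a t 3 3 1 = true := ex3_a k9_pm_022_a k10_pm_022_a

theorem s12_pm_022_a : ∃ t, chk3 f_pm_022_a t 3 1 1 = true := ex3_b k8_pm_022_a s11_pm_022_a

theorem s13_pm_022_a : ∃ t, chk3 f_pm_022_a t 10 1 1 = true := ex3_a k5_pm_022_a k6_pm_022_a

theorem s14_pm_022_a : ∃ t, chk3 f_pm_022_a t 5 1 1 = true := ex3_a s13_pm_022_a k7_pm_022_a

theorem s15_pm_022_a : ∃ t, chk3 f_pm_022_a t 9 7 1 = true := ex3_a k3_pm_022_a k4_pm_022_a

theorem s16_pm_022_a : ∃ t, chk3 f_pm_022_a t 9 3 1 = true := ex3_b k2_pm_022_a s15_pm_022_a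

theorem s17_pm_022_a : ∃ t, chk3 f_pm_022_a t 9 1 1 = true := ex3_b k1_pm_022_a s16_pm_022_a

theorem s18_pm_022_a : ∃ t, chk3 f_pm_022_a t 4 1 1 = true := ex3_a k0_pm_022_a s17_pm_022_a

theorem s19_pm_022_a : ∃ t, chk3 f_pm_022_a t 2 1 1 = true := ex3_a s18_pm_022_a s14_pm_022_a

theorem s20_pm_022_a : ∃ t, chk3 f_pm_022_a t 1 1 1 = true := ex3_a s19_pm_022_a s12_pm_022_a

theorem c_pm_022_a : CertB 0 536870912 0 536870912 966367641 24778659 3 eng mog cd0q0 cd1q2a pd2 true true false .pp 0 2 2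
    ndB0q0 ndB1q2a pcB2 cut_pm_022_a Ext.none :=
  certB2 (fam := true) (s1 := true) (s2 := false) (a := 0) (b := 2) (c := 2) (cn := .pp) (n1 := ndB0q0) (n2 := ndB1q2a) (pc := pcB2) (cut := cut_pm_022_a) (xt := Ext.none) (P1 := 0) (W1 := 536870912) (P2 := 0) (W2 := 536870912) (P3 := 966367641) (W3 := 24778659) (N0 := 3) (En := eng) (mo := mog) (C1 := cd0q0) (C2 := cd1q2a) (C3 := pd2)
    rfl (fun _ => rfl) s20_pm_022_a

noncomputable def cut_pm_022_b : Cut := Cut.of [[⟨0, 0, 0, 67108864⟩, ⟨1, 1, 0, 67108864⟩, ⟨2, 1, 0, 67108864⟩]]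

noncomputable def f_pm_022_b : ℕ → ℕ → ℕ → ℕ → Bool := onCell 0 536870912 1073741824 536870912 966367641 24778659
    (rowB 3 eng mog cd0q0 cd1q2b pd2 1 true true false .pp 0 2 2 (qsf 0 536870912 1239849684 370763052 2) ndB0q0 ndB1q2b pcB2 cut_pm_022_b Ext.none)

def k0_pm_022_b : ∃ t, chk3 f_pm_022_b t 2 2 1 = true :=
  ⟨(a (b (l 1) (a (b (a (b (b (l 1) (a (l 203506380199) (l 1))) (b (a (l 16113744) (l 16204064)) (c (l 16130240) (l 16124280)))) (b (l 1) (c (l 246456055015) (l 258267215847)))) (c (b (a (b (l 16098960) (l 16068928)) (a (l 16216272) (l 16304312))) (a (b (l 16040144) (l 16012592)) (l 16139232))) (b (a (a (l 16036456) (l 16129000)) (l 141766117511)) (a (l 16032640) (l 16196776))))) (b (l 1) (a (a (b (l 251288088263) (l 128881399063)) (b (l 1) (a (l 16342384) (l 16445624)))) (b (l 1) (l 248067041431)))))) (l 1)), by decide +kernel⟩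

def k1_pm_022_b : ∃ t, chk3 f_pm_022_b t 2 3 1 = true :=
  ⟨(a (b (a (b (a (b (c (l 15973616) (l 15989672)) (c (l 15925736) (l 15953256))) (b (c (l 16127760) (l 16173480)) (c (l 16100032) (l 16135688)))) (a (b (c (l 15882320) (l 15922896)) (c (l 15842968) (l 15897920))) (c (b (l 16055784) (l 16015608)) (b (l 16082952) (l 16077536))))) (b (a (b (c (l 16234576) (l 16351056)) (c (l 16206112) (l 16311952))) (b (c (l 16470280) (l 16485432)) (c (l 16420192) (l 16434096)))) (a (b (c (l 16224016) (l 16278832)) (l 16027592)) (b (l 16252880) (l 16279520))))) (a (a (b (c (b (l 15807144) (l 15774208)) (l 15743352)) (b (l 15604184) (l 15623912))) (b (b (c (l 15958024) (l 16055696)) (l 15801352)) (c (l 15815000) (l 15926704)))) (b (a (b (l 16039048) (l 16053696)) (b (l 16259912) (l 16215632))) (a (c (l 16063936) (l 16008616)) (c (l 16162016) (l 16056984)))))) (b (a (a (b (b (l 254509512359) (l 150356646935)) (b (l 16391080) (l 16344440))) (b (b (l 1) (l 332892770503)) (b (c (l 16398984) (l 16350888))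 (l 16317760)))) (b (l 1) (a (b (c (l 238940123047) (l 259877985767)) (c (l 16357176) (l 16296672))) (b (l 1) (c (l 248603949335) (l 252898789223)))))) (a (b (b (a (l 16293328) (l 16297376)) (c (l 16286328) (l 16203592))) (b (c (l 16239544) (l 16100472)) (c (l 16190424) (l 16057040)))) (a (b (b (c (l 16329856) (l 16258704)) (l 16111720)) (b (l 16071368) (l 16007008))) (b (b (c (l 16323824) (l 16249728)) (c (l 16300432) (l 16215560))) (b (l 16100928) (l 16065384))))))), by decide +kernel⟩

def k2_pm_022_b : ∃ t, chk3 f_pm_022_b t 3 1 1 = true :=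
  ⟨(b (l 1) (a (b (l 1) (a (b (b (a (c (l 232497738247) (l 224444516727)) (l 1)) (a (c (l 16295488) (l 16207784)) (c (l 221223376535) (l 214780735863)))) (b (a (c (l 16275984) (l 16177632)) (b (l 16268496) (l 16217208))) (a (c (l 16253664) (l 16143624)) (c (l 16255688) (l 16144328))))) (b (l 1) (a (b (c (l 202432828119) (l 197063898999)) (c (l 16229120) (l 16115080))) (b (l 1) (c (l 206191178423) (l 202969801911))))))) (l 1))), by decide +kernel⟩

theorem s3_pm_022_b : ∃ t, chk3 f_pm_022_b t 2 1 1 = true := ex3_b k0_pm_022_b k1_pm_022_b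

theorem s4_pm_022_b : ∃ t, chk3 f_pm_022_b t 1 1 1 = true := ex3_a s3_pm_022_b k2_pm_022_b

theorem c_pm_022_b : CertB 0 536870912 1239849684 370763052 966367641 24778659 3 eng mog cd0q0 cd1q2b pd2 true true false .pp 0 2 2
    ndB0q0 ndB1q2b pcB2 cut_pm_022_b Ext.none :=
  certB1 (fam := true) (s1 := true) (s2 := false) (a := 0) (b := 2) (c := 2) (cn := .pp) (n1 := ndB0q0) (n2 := ndB1q2b) (pc := pcB2) (cut := cut_pm_022_b) (xt := Ext.none) (P1 := 0) (W1 := 536870912) (P2 := 1239849684) (W2 := 370763052) (P3 := 966367641) (W3 := 24778659) (N0 := 3) (En := eng) (mo := mog) (C1 := cd0q0) (C2 := cd1q2b) (C3 := pd2)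
    rfl (fun _ => rfl) s4_pm_022_b

noncomputable def f_pm_023_a : ℕ → ℕ → ℕ → ℕ → Bool := onCell 0 536870912 0 536870912 966367641 24778659
    (rowB 3 eng mog cd0q0 cd1q2a pd3 0 true true false .up 0 2 3 (qsf 0 536870912 0 536870912 3) ndB0q0 ndB1q2a pcB3 Cut.none Ext.none)

def k0_pm_023_a : ∃ t, chk3 f_pm_023_a t 1 1 1 = true :=
  ⟨(a (l 1) (b (a (a (l 1) (a (b (b (l 1) (l 1)) (l 1)) (b (c (l 16369152) (b (l 16253352) (l 16250552))) (c (l 16200592) (c (l 16277760) (l 16194976)))))) (a (a (b (c (l 16348872) (b (l 16236712) (l 16231824))) (c (l 16216776) (b (l 16221208) (l 16202696)))) (b (c (l 16356384) (b (l 16230792) (l 16223664))) (c (b (l 16366576) (l 16322656)) (b (l 16209376) (l 16185816))))) (b (c (a (l 16370280) (l 16327368)) (b (a (l 16235456) (l 16250352)) (a (l 16225928) (l 16238272)))) (c (a (b (l 16356376) (l 16308832)) (b (l 16352400) (l 16301304))) (a (b (l 16207872) (l 16179232)) (b (l 16216336) (l 16182592))))))) (a (b (l 1) (l 1)) (b (a (a (c (b (l 16273608) (l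 16151000)) (b (l 16173672) (l 16109840))) (b (c (l 16269176) (l 16150408)) (c (l 16140368) (l 15973992)))) (c (b (a (l 16250544) (l 16238272)) (a (l 16094688) (l 16013464))) (b (a (l 16137472) (l 16134496)) (a (c (l 16105568) (l 16051968)) (a (l 16049416) (l 16046520)))))) (a (a (l 1) (b (b (c (l 16143296) (l 16049744)) (l 1)) (l 1))) (a (b (c (b (l 16113440) (l 16040448)) (b (l 16001752) (b (l 15987888) (l 15960776)))) (b (c (l 381747345639) (l 341481827143)) (l 1))) (a (b (b (l 15865096) (b (l 15994312) (l 15985032))) (b (c (l 15975224) (l 15895568)) (c (l 350071662583) (l 317322360887)))) (c (b (b (l 16085256) (l 16028648)) (b (l 15960904) (b (l 15906184) (c (l 15885104) (l 15849320))))) (b (b (l 16002944) (l 15949248)) (b (l 15884608) (b (l 15831120) (c (l 15811928) (l 15772936))))))))))))), by decide +kernel⟩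

theorem c_pm_023_a : CertB 0 536870912 0 536870912 966367641 24778659 3 eng mog cd0q0 cd1q2a pd3 true true false .up 0 2 3
    ndB0q0 ndB1q2a pcB3 Cut.none Ext.none :=
  certB0 (fam := true) (s1 := true) (s2 := false) (a := 0) (b := 2) (c := 3) (cn := .up) (n1 := ndB0q0) (n2 := ndB1q2a) (pc := pcB3) (cut := Cut.none) (xt := Ext.none) (P1 := 0) (W1 := 536870912) (P2 := 0) (W2 := 536870912) (P3 := 966367641) (W3 := 24778659) (N0 := 3) (En := eng) (mo := mog) (C1 := cd0q0) (C2 := cd1q2a) (C3 := pd3)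
    rfl k0_pm_023_a

noncomputable def f_pm_023_b : ℕ → ℕ → ℕ → ℕ → Bool := onCell 1610612736 536870912 1239849684 370763052 966367641 24778659
    (rowB 3 eng mog cd0q0 cd1q2b pd3 2 true true false .up 0 2 3 (qsf 0 536870912 1239849684 370763052 3) ndB0q0 ndB1q2b pcB3 Cut.none Ext.none)

def k0_pm_023_b : ∃ t, chk3 f_pm_023_b t 2 2 1 = true :=
  ⟨(a (b (a (c (b (a (l 16303792) (l 16432712)) (a (l 16254016) (l 16361264))) (b (a (b (l 16262088) (l 16277576)) (l 16191992)) (a (l 16145216) (l 16173232)))) (b (c (a (l 16400768) (l 16417088)) (a (l 16082280) (l 16234800))) (a (c (l 16478280) (l 16273800)) (c (l 16475792) (l 16279952))))) (a (b (a (c (l 16170520) (l 16210856)) (c (l 16221976) (l 16156872))) (c (a (c (l 16143480) (l 16298232)) (b (l 16330168) (l 16273872))) (a (l 16215856) (l 16143096)))) (a (b (c (l 16369592) (l 16259896)) (c (l 16312040) (l 16269080))) (b (c (l 16410840) (l 16227016)) (c (l 16274472) (a (l 16277624) (l 16292960))))))) (a (c (b (b (a (l 16397504) (b (l 16459792)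 (l 16475392))) (a (l 16479792) (l 16428768))) (a (b (l 16376320) (l 16437712)) (b (l 16498616) (l 16467936)))) (b (b (a (b (l 16263504) (l 16278776)) (b (l 16289088) (l 16307408))) (a (l 16130896) (a (l 16323376) (l 16352304)))) (a (b (a (l 16306496) (l 16329696)) (l 16314632)) (b (l 16358648) (l 16402680))))) (b (a (a (b (c (l 16479352) (l 145054498455)) (l 16307816)) (b (l 2) (l 16395624))) (b (l 2) (c (l 16547576) (l 16461648)))) (a (c (b (l 16524448) (l 16491904)) (b (l 16451744) (l 16475152))) (b (c (l 16556656) (l 16527520)) (c (l 16512328) (l 16548752))))))), by decide +kernel⟩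

def k1_pm_023_b : ∃ t, chk3 f_pm_023_b t 2 3 1 = true :=
  ⟨(a (b (a (b (c (a (c (l 16043800) (l 16154592)) (c (l 16123904) (l 16233232))) (a (l 16244248) (l 16236560))) (a (c (c (l 15724248) (l 15813856)) (b (l 16197968) (l 16104840))) (c (c (l 15973952) (l 16081400)) (l 16184216)))) (a (c (b (b (l 16272072) (l 16213344)) (c (l 15999128) (l 16161864))) (b (l 16011000) (l 15990016))) (b (c (l 16085480) (l 16063336)) (c (l 16178560) (l 16247672))))) (a (a (b (c (b (l 15646776) (l 15598464)) (b (l 15997528) (l 15884840))) (c (b (l 15480488) (l 15381816)) (c (l 15537448) (l 15757504)))) (b (c (c (l 15646312) (l 15751584)) (a (l 16038816) (l 16091584))) (c (a (l 15447352) (l 15475128)) (a (l 15808888) (l 15866544))))) (b (a (c (a (l 15822088) (l 15954872)) (l 16141256)) (c (l 16036568) (l 16184880))) (a (c (a (l 15645992) (l 15789792)) (a (l 15911312) (l 15953296))) (c (a (l 15844776) (l 15892048)) (l 15921384)))))) (a (b (a (b (c (l 16339048) (l 16333600)) (c (l 16227800) (l 16307120)))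 (b (c (l 16374688) (l 16400408)) (c (l 16268960) (l 16370280)))) (a (b (c (l 16104536) (l 16217576)) (c (l 15935312) (l 16050280))) (b (a (l 16189472) (l 16205408)) (a (l 16043512) (l 16067688))))) (b (a (b (l 16290312) (l 16328872)) (b (l 16373032) (l 16372480))) (a (b (l 16227840) (l 16098224)) (b (l 16256312) (l 16026864)))))), by decide +kernel⟩

def k2_pm_023_b : ∃ t, chk3 f_pm_023_b t 3 1 1 = true :=
  ⟨(b (b (l 2) (a (a (a (b (c (l 16591584) (l 16602944)) (l 16530616)) (b (l 16535144) (l 16573408))) (a (b (l 2) (l 103179426103)) (l 2))) (l 2))) (a (a (b (a (b (l 16447344) (l 16391112)) (b (l 16471112) (l 16401480))) (a (b (l 16280304) (l 16058624)) (b (l 16305000) (l 15991928)))) (a (b (a (l 16558704) (l 16464424)) (l 4)) (l 4))) (l 4))), by decide +kernel⟩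

theorem s3_pm_023_b : ∃ t, chk3 f_pm_023_b t 2 1 1 = true := ex3_b k0_pm_023_b k1_pm_023_b

theorem s4_pm_023_b : ∃ t, chk3 f_pm_023_b t 1 1 1 = true := ex3_a s3_pm_023_b k2_pm_023_b

theorem c_pm_023_b : CertB 0 536870912 1239849684 370763052 966367641 24778659 3 eng mog cd0q0 cd1q2b pd3 true true false .up 0 2 3
    ndB0q0 ndB1q2b pcB3 Cut.none Ext.none :=
  certB2 (fam := true) (s1 := true) (s2 := false) (a := 0) (b := 2) (c := 3) (cn := .up) (n1 := ndB0q0) (n2 := ndB1q2b) (pc := pcB3) (cut := Cut.none) (xt := Ext.none) (P1 := 0) (W1 := 536870912) (P2 := 1239849684) (W2 := 370763052) (P3 := 966367641) (W3 := 24778659) (N0 := 3) (En := eng) (mo := mog) (C1 := cd0q0) (C2 := cd1q2b) (C3 := pd3)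
    rfl (fun _ => rfl) s4_pm_023_b

noncomputable def f_pm_033 : ℕ → ℕ → ℕ → ℕ → Bool := onCell 1610612736 536870912 1610612736 536870912 966367641 24778659
    (rowB 3 eng mog cd0q0 cd1q3 pd3 2 true true false .pnn 0 3 3 (qsf 0 536870912 1610612736 536870912 3) ndB0q0 ndB1q3 pcB3 Cut.none Ext.none)

def k0_pm_033 : ∃ t, chk3 f_pm_033 t 1 1 1 = true :=
  ⟨(a (b (a (b (a (b (a (c (b (c (l 15467096) (l 15515712)) (a (l 1) (l 15384448))) (b (l 15652120) (l 15506504))) (b (c (a (l 15584488) (l 15635832)) (l 15725504)) (c (l 15463536) (l 15592168)))) (a (l 1) (a (l 1) (b (l 15395752) (l 1))))) (b (a (c (b (l 15708976) (l 15565496)) (b (l 15798576) (l 15665848))) (b (c (l 15791632) (l 15861624)) (c (l 15656640) (l 15734512)))) (a (c (b (l 15416840) (l 15208008)) (b (l 15501088) (l 15345680))) (b (c (l 15511544) (l 15569336)) (a (l 15363192) (l 15403056)))))) (a (l 1) (b (a (l 1) (b (l 135859261191) (l 1))) (l 1)))) (b (a (b (a (b (a (l 15879184) (l 15899248)) (a (l 15745736) (l 15776088)))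 (b (l 15925288) (l 15814248))) (a (b (l 15616392) (l 15460576)) (b (l 15682416) (l 15538264)))) (b (a (b (l 15950384) (l 15850272)) (c (l 15909144) (l 15937848))) (a (b (l 15739168) (l 15607520)) (b (l 15780040) (l 15669976))))) (a (b (a (b (l 15302120) (l 52643146871)) (b (l 15193544) (l 15077200))) (a (l 1) (a (l 1) (l 69285759303)))) (b (a (b (l 15463840) (l 15140824)) (a (l 15449032) (l 15492224))) (a (a (l 9693237623) (l 14863368)) (c (l 15191680) (b (l 15224304) (l 15068608)))))))) (a (l 1) (a (l 1) (a (l 1) (a (l 1) (l 4)))))) (a (b (a (b (a (b (b (l 15983552) (l 15905688)) (a (l 15761504) (l 4))) (b (l 4) (l 4))) (b (a (l 4) (l 4)) (l 4))) (l 4)) (l 4)) (l 4))), by decide +kernel⟩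

theorem c_pm_033 : CertB 0 536870912 1610612736 536870912 966367641 24778659 3 eng mog cd0q0 cd1q3 pd3 true true false .pnn 0 3 3
    ndB0q0 ndB1q3 pcB3 Cut.none Ext.none :=
  certB2 (fam := true) (s1 := true) (s2 := false) (a := 0) (b := 3) (c := 3) (cn := .pnn) (n1 := ndB0q0) (n2 := ndB1q3) (pc := pcB3) (cut := Cut.none) (xt := Ext.none) (P1 := 0) (W1 := 536870912) (P2 := 1610612736) (W2 := 536870912) (P3 := 966367641) (W3 := 24778659) (N0 := 3) (En := eng) (mo := mog) (C1 := cd0q0) (C2 := cd1q3) (C3 := pd3)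
    rfl (fun _ => rfl) k0_pm_033

noncomputable def cut_pm_101 : Cut := Cut.of [[⟨0, 1, 0, 67108864⟩, ⟨1, 0, 0, 67108864⟩, ⟨2, 1, 0, 67108864⟩]]

noncomputable def f_pm_101 : ℕ → ℕ → ℕ → ℕ → Bool := onCell 536870912 536870912 0 536870912 966367641 24778659
    (rowB 3 eng mog cd0q1 cd1q0 pd1 2 true true false .npn 1 0 1 (qsf 536870912 536870912 0 536870912 1) ndB0q1 ndB1q0 pcB1 cut_pm_101 Ext.none)

def k0_pm_101 : ∃ t, chk3 f_pm_101 t 1 1 1 = true :=
  ⟨(a (l 3) (b (a (l 3) (b (a (l 3) (b (a (l 3) (b (a (l 3) (l 6)) (l 3))) (l 3))) (l 3))) (l 3))), by decide +kernel⟩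

theorem c_pm_101 : CertB 536870912 536870912 0 536870912 966367641 24778659 3 eng mog cd0q1 cd1q0 pd1 true true false .npn 1 0 1
    ndB0q1 ndB1q0 pcB1 cut_pm_101 Ext.none :=
  certB2 (fam := true) (s1 := true) (s2 := false) (a := 1) (b := 0) (c := 1) (cn := .npn) (n1 := ndB0q1) (n2 := ndB1q0) (pc := pcB1) (cut := cut_pm_101) (xt := Ext.none) (P1 := 536870912) (W1 := 536870912) (P2 := 0) (W2 := 536870912) (P3 := 966367641) (W3 := 24778659) (N0 := 3) (En := eng) (mo := mog) (C1 := cd0q1) (C2 := cd1q0) (C3 := pd1)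
    rfl (fun _ => rfl) k0_pm_101

noncomputable def cut_pm_102 : Cut := Cut.of [[⟨0, 1, 0, 67108864⟩, ⟨1, 0, 0, 67108864⟩, ⟨2, 1, 0, 67108864⟩]]

noncomputable def xt_pm_102 : Ext := extD2 3 ⟨4, 1, 1, 5, 37, 10, 843, 1000, 41, 100, 1, 8⟩ eng cd0q1 cd1q0 pd2 true true false .npp 1 0 2 rfl ndB0q1 ndB1q0 pcB2

noncomputable def f_pm_102 : ℕ → ℕ → ℕ → ℕ → Bool := onCell 536870912 536870912 1073741824 536870912 966367641 24778659
    (rowB 3 eng mog cd0q1 cd1q0 pd2 1 true true false .npp 1 0 2 (qsf 536870912 536870912 0 536870912 2) ndB0q1 ndB1q0 pcB2 cut_pm_102 xt_pm_102)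

def k0_pm_102 : ∃ t, chk3 f_pm_102 t 2 4 1 = true :=
  ⟨(b (l 3) (a (b (l 3) (a (l 2) (b (a (l 3) (a (l 3) (b (l 3) (a (l 16306048) (l 131163289863))))) (a (l 2) (c (b (l 16405176) (l 16416024)) (b (l 16270480) (l 16324312))))))) (b (a (b (l 3) (b (l 3) (a (l 3) (c (l 204177981287) (a (l 3) (l 238537570343)))))) (b (a (l 3) (l 3)) (a (b (c (l 227263411335) (l 254643680663)) (c (a (l 16461072) (l 16461296)) (a (l 196124761095) (l 16357704)))) (b (a (b (l 3) (l 162301971079)) (c (l 16463952) (l 16424304))) (c (a (l 16461736) (l 16462360)) (a (l 16384440) (l 16412160))))))) (a (b (a (a (b (l 3) (c (l 16446544) (l 16360128))) (b (c (l 16432720) (l 16372280)) (c (l 16440664) (l 16359728)))) (c (b (a (l 16429120) (l 16447800)) (l 16371512)) (b (a (l 16373888) (l 16376752)) (a (l 16361120) (l 16363808))))) (a (c (b (l 16388872) (l 16398488)) (b (a (l 16349272) (l 16348432)) (l 16275416))) (b (c (l 16400104) (l 16308280)) (a (l 16312608) (l 16353560))))) (b (a (c (b (l 16425424) (l 16431880))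 (b (a (l 16380776) (l 16385848)) (a (l 16367616) (l 16372488)))) (b (c (l 16448824) (a (l 16391864) (l 16398936))) (c (l 16435304) (l 16360664)))) (a (b (c (l 16418240) (l 16356968)) (c (l 16405336) (l 16344304))) (b (c (l 16421832) (l 16368080)) (a (l 16380304) (l 16384616))))))))), by decide +kernel⟩

def k1_pm_102 : ∃ t, chk3 f_pm_102 t 6 8 1 = true :=
  ⟨(b (l 3) (a (b (l 3) (a (l 3) (a (l 3) (b (l 3) (c (l 323900278775) (l 335711394967)))))) (b (a (l 3) (a (l 3) (b (l 3) (b (l 3) (c (a (b (l 3) (l 313162911895)) (c (b (l 294372457671) (l 16487080)) (l 270213223863))) (a (l 335174516247) (l 284708698983))))))) (a (b (b (l 3) (a (l 3) (c (a (l 3) (l 294909256119)) (l 319605237175)))) (b (a (c (l 313699719191) (l 324437072807)) (c (b (l 141901059495) (l 16438816)) (l 175187002567))) (a (c (l 134384876151) (l 16406128)) (a (l 16428984) (l 16438472))))) (b (a (b (c (a (l 340006362151) (c (l 277192542599) (l 284708687495))) (a (l 346448769959) (l 297056685671))) (c (a (l 135995498583)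 (l 16456040)) (l 174650146103))) (c (a (b (c (l 129553078055) (l 16452040)) (l 16471720)) (b (l 16481376) (l 16489768))) (b (c (l 16441736) (l 16424104)) (l 16448976)))) (c (a (a (l 16456816) (l 16469704)) (b (l 16488896) (l 16496896))) (a (b (l 16431728) (l 16446944)) (l 16472056)))))))), by decide +kernel⟩

def k2_pm_102 : ∃ t, chk3 f_pm_102 t 6 9 1 = true :=
  ⟨(b (a (a (b (b (a (l 3) (c (l 316920982791) (l 352891231111))) (c (a (l 278266279671) (b (l 16441560) (l 16448648))) (a (l 219210292919) (l 131163484583)))) (b (a (c (l 16459024) (l 16430792)) (c (l 16456288) (l 16438160))) (c (l 16463960) (a (l 16420024) (l 16429064))))) (b (b (a (c (b (l 315310334311) (l 16434480)) (l 316920902071)) (c (b (l 16430488) (l 16439408)) (b (l 16409424) (l 16422640)))) (c (a (l 16445736) (l 16449904)) (a (l 16433872) (l 16440672)))) (b (a (c (l 16457024) (l 16446632)) (c (l 16461664) (l 16456784))) (a (l 16457472) (l 16403856))))) (b (a (b (c (a (b (l 16440032) (l 16448032)) (l 16458456)) (a (l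 16427312) (l 16444184))) (c (a (l 16458720) (l 16472832)) (a (l 16452040) (l 16468624)))) (c (b (a (l 16479456) (b (l 16504152) (l 16511864))) (a (l 16493672) (l 16524288))) (b (a (l 16467856) (l 16499440)) (a (l 16491384) (l 16520368))))) (a (b (a (c (l 16470496) (l 16469784)) (c (l 16484976) (l 16486632))) (a (l 16457552) (l 16494536))) (b (a (l 16506440) (l 16532336)) (l 16441600))))) (a (b (a (b (c (l 16455552) (l 16411712)) (a (l 16418944) (l 16426608))) (b (a (l 16448224) (l 16458336)) (a (l 16435304) (l 16445160)))) (a (b (a (l 16405016) (l 16412080)) (l 16371696)) (c (l 16439024) (l 16390152)))) (c (b (a (l 16403776) (l 16520992)) (a (l 16459072) (l 16483584))) (b (a (l 16450512) (l 16484000)) (a (l 16411320) (l 16438840)))))), by decide +kernel⟩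

def k3_pm_102 : ∃ t, chk3 f_pm_102 t 14 32 1 = true :=
  ⟨(l 3), by decide +kernel⟩

def k4_pm_102 : ∃ t, chk3 f_pm_102 t 28 33 1 = true :=
  ⟨(l 3), by decide +kernel⟩

def k5_pm_102 : ∃ t, chk3 f_pm_102 t 29 66 1 = true :=
  ⟨(a (l 3) (b (l 3) (a (l 3) (a (l 3) (b (l 3) (b (l 3) (c (c (a (l 383493640439) (b (a (l 3) (l 343765201399)) (a (l 327659072583) (l 16792784)))) (a (l 393157324199) (b (l 368998112423) (a (l 338396479223) (l 16797496))))) (c (a (l 410337148407) (b (l 379735539287) (l 276119441191))) (a (l 419463833783) (b (l 397452168199) (l 273435025975))))))))))), by decide +kernel⟩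

def k6_pm_102 : ∃ t, chk3 f_pm_102 t 29 67 1 = true :=
  ⟨(b (a (l 3) (a (a (b (l 3) (b (l 3) (c (c (l 365239961847) (l 378661629719)) (l 394230816743)))) (b (b (l 3) (c (a (l 3) (l 404431598119)) (l 430738032743))) (c (b (a (l 6820759474410073272063213807) (b (a (l 378124911655) (l 258402697383)) (l 213305535239))) (c (l 208473704151) (l 16739608))) (b (a (l 404431333431) (l 247665161415)) (l 204715446087))))) (a (b (b (b (l 3) (a (l 3) (c (c (l 343228316823) (l 356650095047)) (l 384030441463)))) (c (a (b (l 6898130726865336971487985967) (c (l 258402715719) (l 262697667399))) (b (c (l 239075363895) (l 244980929815)) (l 16774744))) (c (a (l 366850499495) (l 16762288)) (l 246591353111)))) (c (b (c (l 16776096) (l 16778720)) (l 16767704)) (c (l 16722616) (l 16672288)))) (b (c (c (b (a (b (a (l 352355144567) (l 255718367943)) (l 16791256)) (l 16789984)) (l 16776080)) (b (a (b (l 287930599351) (l 16794952)) (l 16794736)) (l 16791184))) (c (b (a (b (l 293299305911) (l 16764872)) (l 16784968))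 (l 16766704)) (b (a (l 264845046631) (l 16728208)) (l 16712856)))) (c (b (l 16789648) (l 16785096)) (l 16729368)))))) (a (a (b (l 3) (c (a (l 3) (l 380272098951)) (l 381882511351))) (a (b (l 3) (c (c (l 320679563783) (l 337322466471)) (l 254644258199))) (b (c (b (l 397988964215) (b (l 240685861511) (l 198809923143))) (l 381882724887)) (c (l 156397118503) (l 16600648))))) (c (a (b (a (c (b (l 218137351959) (l 16746512)) (l 196125542631)) (b (l 16757208) (l 16749528))) (b (l 16729384) (l 16723360))) (c (b (l 16782688) (l 16772792)) (l 16742432))) (b (a (c (a (l 16653440) (l 16682152)) (l 16621608)) (l 16703328)) (a (l 16640792) (l 16695608)))))), by decide +kernel⟩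

def k7_pm_102 : ∃ t, chk3 f_pm_102 t 28 17 1 = true :=
  ⟨(a (b (b (a (l 3) (b (l 3) (b (l 3) (c (c (l 336785392503) (l 342153973639)) (l 350206989367))))) (b (c (c (a (b (l 353428274519) (a (l 311552361175) (l 196125144807))) (b (a (l 287930093783) (l 16535848)) (l 16530184))) (a (b (l 356649440583) (l 215989287335)) (b (l 232632331527) (l 16502192)))) (c (a (l 317457827495) (l 215452410743)) (l 220821032999))) (c (a (c (b (l 16506488) (l 16509160)) (l 16483040)) (c (l 16532888) (l 16508448))) (a (l 16449104) (l 16475160))))) (b (b (c (a (l 16502728) (l 16526672)) (l 16477376)) (c (l 16521344) (l 16492528))) (c (b (l 16528096) (l 16535624)) (b (l 16507032) (l 16520904))))) (b (b (b (a (l 3) (b (l 3) (c (a (l 352891540375) (c (l 266992308071) (l 16568032))) (l 324974176535)))) (a (c (b (a (l 369534466007) (b (l 343227827271) (l 276119030535))) (c (a (l 259475996183) (l 16566984)) (l 248201642759))) (b (l 335711528951) (l 252496551159))) (c (b (a (c (l 16585472) (l 16549680)) (l 16586192))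 (l 16576416)) (b (l 16508568) (l 16514576))))) (c (a (b (c (l 16559000) (l 16530080)) (l 16548360)) (b (l 16576832) (l 16578648))) (b (a (l 16490000) (l 16523824)) (l 16519984)))) (b (a (b (l 16534696) (l 16544056)) (b (l 16564176) (l 16573200))) (c (l 16604448) (l 16566704))))), by decide +kernel⟩

def k8_pm_102 : ∃ t, chk3 f_pm_102 t 29 17 1 = true :=
  ⟨(b (b (a (c (b (a (b (a (l 373292806039) (l 241759478071)) (a (l 16607936) (l 16629000))) (b (l 16667888) (l 16661576))) (a (b (l 16615544) (l 16613472)) (l 16654256))) (b (a (c (l 251422945863) (l 220821221767)) (l 16588936)) (a (l 16550984) (l 16593336)))) (b (a (c (l 16710352) (l 16637816)) (b (l 16725080) (l 16716600))) (a (c (l 16694632) (l 16637696)) (l 16707968)))) (a (b (c (a (l 16611576) (l 16647648)) (l 16580040)) (a (l 16589904) (l 16626040))) (b (a (l 16662432) (l 16701976)) (l 16682336)))) (b (a (a (b (l 16596784) (l 16605528)) (l 16635520)) (l 16662584)) (a (l 16631888) (l 16667312)))), by decide +kernel⟩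

def k9_pm_102 : ∃ t, chk3 f_pm_102 t 30 32 1 = true :=
  ⟨(a (l 3) (a (a (l 3) (l 6)) (l 6))), by decide +kernel⟩

def k10_pm_102 : ∃ t, chk3 f_pm_102 t 120 132 1 = true :=
  ⟨(l 3), by decide +kernel⟩

def k11_pm_102 : ∃ t, chk3 f_pm_102 t 121 264 1 = true :=
  ⟨(a (l 3) (a (l 3) (b (l 3) (b (l 3) (b (b (l 3) (a (l 3) (a (l 3) (c (c (c (l 351818276183) (l 6386151031801747206916857391)) (a (l 396378561671) (l 330880308695))) (c (a (l 401210398839) (l 340543983895)) (c (l 371145623975) (l 374366848855))))))) (a (a (l 3) (c (c (l 397452300743) (l 443086327783)) (c (l 418390265335) (l 422685232119)))) (a (b (c (c (l 6811692876783309877505924655) (l 6898735738997978365040581679)) (c (l 390472979191) (a (l 3) (l 384567397991)))) (c (c (a (l 333027794791) (l 268603284455)) (a (l 344302083751) (l 281488186343))) (c (a (l 350744533991) (l 294909958231)) (c (l 338933372679) (l 343228339223))))) (c (c (a (c (l 274508863591) (l 280414444135)) (l 16803000)) (c (l 280951314695) (l 287393765015)))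 (c (c (l 293836215335) (l 300278665639)) (c (l 306721115607) (b (l 321216629831) (l 16804256)))))))))))), by decide +kernel⟩

def k12_pm_102 : ∃ t, chk3 f_pm_102 t 242 530 1 = true :=
  ⟨(l 3), by decide +kernel⟩

def k13_pm_102 : ∃ t, chk3 f_pm_102 t 243 1060 1 = true :=
  ⟨(b (a (l 3) (a (a (a (l 3) (b (l 3) (c (b (c (l 388325500055) (l 391546725735)) (c (l 323900989863) (l 331417183079))) (c (l 360408212487) (l 364703180071))))) (c (b (c (a (l 374903726727) (c (l 303499894567) (l 308868604071))) (a (l 379735565127) (l 314237313463))) (c (a (l 279877574247) (l 16800696)) (c (l 279877574103) (l 286320025431)))) (c (c (l 326585344151) (b (l 355039502247) (l 299204927719))) (c (b (l 6462917431804094176848003375) (l 306184249143)) (b (l 6530617277702491214240317743) (l 312626699815)))))) (c (b (a (c (l 16804544) (l 16803648)) (l 16802744)) (c (l 16799672) (l 16805520))) (c (c (l 16803192) (l 16802872)) (c (l 16802544) (l 16802216)))))) (a (a (l 3) (a (l 3) (c (b (c (l 7014792439842840680208539183)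 (l 371682500039)) (c (a (l 356113244887) (c (l 287393767671) (l 293299347607))) (a (l 362018824679) (l 302426152951)))) (c (c (l 6482865500893444153291152431) (l 6550565470298788131694914863)) (b (l 394767946023) (a (l 376514338455) (l 322827247351))))))) (a (c (a (b (c (a (c (l 314774184375) (l 319606022551)) (l 16804904)) (a (l 328195957111) (l 16803680))) (c (l 16803264) (l 16803344))) (c (l 16802720) (l 16800408))) (b (a (c (c (l 316921667751) (l 321753505991)) (a (l 346986439271) (l 16806488))) (c (l 16806176) (l 16806464))) (c (l 16804928) (l 16805480)))) (c (c (l 16793632) (l 16804808)) (a (l 16800712) (l 16805216)))))), by decide +kernel⟩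

def k14_pm_102 : ∃ t, chk3 f_pm_102 t 243 1061 1 = true :=
  ⟨(a (b (a (b (l 3) (a (l 3) (c (c (l 6782678704094110090042678831) (l 6889064432168771480136162351)) (c (l 377051207431) (l 385641140951))))) (c (a (c (c (b (l 6279765497706128966926425647) (l 282561928759)) (b (l 6337794057527928398727666735) (l 287930637575))) (c (b (l 339470244727) (l 292762475719)) (b (l 346986439783) (l 297594313863)))) (c (c (l 251960284983) (l 258939607079)) (c (l 16804840) (l 16804472)))) (b (a (c (a (l 392083596023) (l 346449567239)) (a (l 397989175271) (l 355576372135))) (c (l 284709411959) (l 297057442855))) (c (c (l 291151861943) (l 297057442119)) (a (a (l 328195954887) (l 16805448)) (l 16805448)))))) (a (a (b (l 3) (c (c (c (l 6057323164190859767883340847) (l 6134694547791017184092691503)) (a (l 370608759559) (l 322290375559))) (c (a (l 379198692631) (l 332490921639)) (a (l 387251754759) (l 343228338695))))) (c (b (c (a (c (l 336785892231) (l 341080859063)) (l 273435123239)) (a (l 347523308839)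 (l 284172540823))) (c (l 16804824) (l 16804360))) (c (c (l 307257988823) (l 312089826711)) (b (a (l 364166305111) (l 305647375847)) (l 16804720))))) (a (c (c (l 16804304) (l 16802768)) (c (l 16805152) (l 16804912))) (c (l 16803528) (l 16802280))))) (a (c (b (c (l 16802064) (l 16799736)) (l 16798576)) (c (l 16802256) (l 16800008))) (c (l 16799016) (l 16794240)))), by decide +kernel⟩

def k15_pm_102 : ∃ t, chk3 f_pm_102 t 242 531 1 = true :=
  ⟨(b (a (l 3) (b (a (l 3) (b (a (l 3) (a (l 3) (c (c (l 349670793271) (l 357186984711)) (c (l 364703175927) (l 372756237863))))) (c (a (c (l 375440594391) (l 385104273943)) (c (c (l 292762476407) (l 297057443191)) (a (l 331954051415) (l 16804304)))) (a (c (l 392620464567) (l 400673526039)) (c (a (l 341617725943) (l 16804784)) (a (l 351281400583) (l 16803944))))))) (a (a (l 3) (b (l 3) (c (c (c (l 335712149655) (l 342691472903)) (a (l 391546724231) (l 341617726967))) (c (l 6627936857934223178265111855) (a (l 404431620743) (l 359334462471)))))) (c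 (b (a (c (c (l 320142893415) (l 323364118167)) (a (l 366850660359) (l 297594312279))) (c (l 16803456) (l 16805264))) (c (c (l 247128446583) (l 253034026071)) (c (l 258939605543) (l 264845184999)))) (a (c (c (l 310479212487) (l 314774178871)) (b (a (l 380809299783) (l 315847919431)) (l 289004373063))) (c (l 16802904) (l 16803392))))))) (b (a (l 3) (a (c (a (b (c (l 364703178599) (l 374903720439)) (c (a (l 342691470855) (l 268603284359)) (a (l 350744531719) (l 278266958167)))) (c (a (c (l 272361381303) (l 276656347351)) (l 16804752)) (c (l 274508862151) (l 279877570231)))) (a (c (c (l 347523306551) (l 352892014199)) (c (l 358260721815) (l 363629429415))) (c (c (l 284709407367) (l 290078115559)) (c (l 295446823415) (l 300278660359))))) (c (c (l 16803144) (l 16801688)) (c (l 16803488) (l 16802640))))) (a (a (l 3) (c (a (b (l 3) (c (l 352892018295) (l 364166301175))) (c (c (b (l 338396504519) (l 261623963143)) (b (l 342691470535) (l 265918929015))) (c (b (l 346986436359) (l 271287636695))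 (l 326048468199)))) (a (c (l 381346167047) (l 388862356023)) (c (c (l 331417175831) (l 336785883447)) (c (l 342154591031) (l 347523298279)))))) (a (c (c (c (l 16803880) (l 16802624)) (c (l 16802008) (l 16804008))) (c (c (l 16803376) (l 16802744)) (a (l 16800416) (l 16801816)))) (c (l 16801064) (l 16802280)))))), by decide +kernel⟩

def k16_pm_102 : ∃ t, chk3 f_pm_102 t 243 531 1 = true :=
  ⟨(a (c (b (a (b (a (c (c (b (l 267529543015) (l 16805992)) (l 264845186951)) (c (l 270750766519) (l 276119475159))) (c (l 16805328) (l 16804960))) (c (l 16804648) (l 16804256))) (c (l 16798368) (l 16803680))) (c (l 16796992) (l 16802280))) (a (b (a (c (b (c (l 282025054871) (l 287393763495)) (l 16803984)) (b (c (l 293299343015) (l 299204922375)) (l 16803440))) (c (l 16798912) (l 16803824))) (l 16797240)) (c (l 16800296) (l 16797888)))) (c (c (l 16794856) (l 16790576)) (b (l 16798096) (l 16801768)))), by decide +kernel⟩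

def k17_pm_102 : ∃ t, chk3 f_pm_102 t 240 133 1 = true :=
  ⟨(b (b (l 3) (b (l 3) (a (l 3) (a (l 3) (b (l 3) (c (c (l 352355143383) (l 364166300359)) (c (l 374366839127) (l 383493635895)))))))) (b (a (b (l 3) (c (a (c (l 372219350887) (l 382419908359)) (c (b (l 338933363991) (l 251423406039)) (b (l 351818266311) (l 259476460391)))) (c (a (l 391009831847) (l 342691442087)) (l 374903679799)))) (c (a (b (c (c (l 6231409198467851106040486959) (l 340543975079)) (b (l 388862361639) (l 299741781975))) (c (l 224579858375) (l 16794248))) (b (c (b (a (l 321216628647) (l 16805120)) (l 16804336)) (c (l 261623950055) (l 265382042775))) (l 16794168))) (b (a (c (l 359871322135) (l 375440549239)) (c (l 271287614839) (l 278803798887))) (c (l 243907194263) (l 16781624))))) (b (a (c (a (c (a (l 303499883575) (l 16793480)) (l 263234553783)) (b (l 16790664) (l 16800072))) (c (l 260013317511) (l 266992622951))) (c (a (l 16778632) (l 16798568)) (l 16790976))) (c (c (l 16792216) (l 16774792)) (a (l 16781912)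 (l 16789280)))))), by decide +kernel⟩

def k18_pm_102 : ∃ t, chk3 f_pm_102 t 241 133 1 = true :=
  ⟨(b (a (b (l 3) (a (b (l 3) (c (c (b (a (l 365776921735) (l 313163565751)) (c (l 244980961127) (l 16802336))) (b (a (l 375440590407) (l 324437847927)) (l 256255239879))) (c (b (l 352355133191) (l 265382038615)) (b (l 363092543559) (l 16783344))))) (c (b (c (b (a (l 3) (l 356113240487)) (a (l 341080854087) (l 252497152455))) (b (l 375977452775) (a (l 350207653175) (l 262160822935)))) (b (c (l 16799744) (l 16801736)) (l 16797080))) (b (c (b (l 384567391031) (l 301352393015)) (b (l 392620447719) (l 307257966071))) (c (l 16792728) (l 16794624)))))) (b (b (b (l 3) (a (l 3) (a (l 3) (c (c (l 373829981495) (l 384567400167)) (c (l 390472975255) (l 397452292055)))))) (b (a (l 3) (c (a (c (c (l 345375823831) (l 351281406519)) (l 6608593924772176516426013743)) (c (c (l 273971993255) (l 277730087591)) (c (l 281488181751) (l 285246275911)))) (c (c (l 314237305447) (l 318532270151)) (a (l 377051195479)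 (l 299204909847))))) (c (a (c (a (l 384030533799) (c (l 329806568791) (l 334101533623))) (c (l 350207656199) (l 355576367607))) (c (c (l 238538510663) (l 243370346951)) (a (l 256792115991) (l 16802880)))) (a (a (c (l 399062907095) (l 406579093511)) (c (l 351281391607) (l 360945062087))) (c (a (l 266992658519) (l 16800528)) (l 271824491335)))))) (c (b (a (c (b (a (c (l 279877573351) (l 284172537655)) (l 16805480)) (l 16804720)) (b (a (l 290614982743) (l 16802720)) (l 16801936))) (c (l 16798640) (l 16801608))) (c (l 16791880) (l 16800032))) (a (b (c (c (l 269140141207) (l 273971976807)) (c (l 278266941447) (l 282561905095))) (l 16785912)) (c (l 16793168) (l 16796152)))))) (b (c (a (b (c (l 16797640) (l 16789144)) (l 16788648)) (b (l 16799080) (l 16796936))) (a (c (b (l 16796296) (l 16794512)) (l 16771144)) (l 16772976))) (c (a (l 16774920) (l 16793680)) (l 16780024)))), by decide +kernel⟩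

def k19_pm_102 : ∃ t, chk3 f_pm_102 t 121 133 1 = true :=
  ⟨(a (b (b (b (a (a (b (a (l 3) (c (c (c (b (l 380809309575) (l 311016087895)) (l 340543986135)) (c (l 346449566775) (l 352355144759))) (c (c (l 357723851815) (l 362555687943)) (c (l 367387524039) (l 372219360103))))) (c (b (a (c (l 6386151141617520520718883887) (l 352892010887)) (c (l 247665317319) (l 257865860823))) (c (c (l 254644639815) (l 258939605383)) (a (l 279877567943) (l 16803736)))) (c (c (l 297057434615) (l 300815529175)) (c (l 305110494279) (l 308868588215))))) (c (c (b (a (c (b (l 286320025543) (l 16806472)) (l 273971991767)) (l 16800336)) (l 16799616)) (b (a (c (l 278266957511) (l 283098794071)) (l 16804056)) (l 16803312))) (c (b (c (l 278266953703) (l 283635661447)) (l 16801728)) (b (c (l 288467498071) (l 293299334199)) (l 16800104))))) (c (a (c (l 16798672) (l 16802864)) (l 16791656)) (c (l 16796328) (l 16800752)))) (a (a (c (c (c (l 16799904) (l 16798944)) (b (l 16800600) (l 16802240))) (c (b (l 16801184)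 (l 16800320)) (l 16796760))) (c (c (l 16803216) (l 16801840)) (l 16797096))) (c (l 16795448) (l 16799560)))) (c (a (c (l 16795384) (l 16788832)) (l 16787040)) (a (c (l 16797984) (l 16796616)) (l 16797112)))) (b (c (l 16786616) (l 16793904)) (a (l 16790968) (l 16789600)))) (b (c (b (c (l 16789464) (l 16787760)) (l 16772576)) (a (c (l 16777040) (l 16777712)) (l 16776752))) (c (l 16766064) (l 16770360)))), by decide +kernel⟩

def k20_pm_102 : ∃ t, chk3 f_pm_102 t 61 132 1 = true :=
  ⟨(a (b (a (b (a (a (l 3) (a (l 3) (l 6))) (l 6)) (b (a (b (a (l 3) (a (a (b (l 3) (c (c (l 370071882599) (l 374903718807)) (c (l 380272427191) (c (l 384567394231) (l 387251747735))))) (b (l 6) (b (l 6) (c (c (l 16801904) (l 16803432)) (c (l 16802304) (l 16799840)))))) (l 6))) (a (a (b (l 3) (c (c (l 422148362583) (l 393694202791)) (c (l 398526039527) (a (l 3) (l 395841683095))))) (c (c (c (b (l 6579579053989005689521511983) (l 286856894295)) (b (l 364166302839) (l 294373086007))) (c (b (l 366313785591) (l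 300278665287)) (b (l 369535012791) (l 306184244327)))) (c (c (b (l 372756237367) (l 311552952439)) (b (l 375440590999) (l 317458531367))) (c (b (l 379198683831) (l 323364110439)) (b (l 6946487759649891695773581551) (a (l 343765204919) (l 16801888))))))) (a (c (c (c (l 256255250135) (l 263234572247)) (c (l 269677021735) (l 276656342791))) (c (c (l 283635663495) (l 290614984183)) (c (l 297594304695) (b (l 308331721847) (l 16801200))))) (b (l 6) (c (l 16799064) (l 16790928)))))) (l 6)) (a (a (c (c (b (a (b (a (l 357186983975) (l 283635668535)) (l 254107768343)) (l 16803256)) (l 16801960)) (b (a (b (a (l 363092562663) (l 295446827223)) (l 268603282071)) (l 16803248)) (l 16802552))) (c (b (a (c (b (l 342154595879) (l 16804392)) (b (l 346449562343) (l 16803992))) (l 16802224)) (l 16798896)) (b (a (c (b (l 350744528711) (l 16803584)) (b (a (l 375977462711) (l 322827240439)) (l 16803176))) (l 16801168)) (l 16797840)))) (c (c (l 16800816) (l 16799080)) (c (l 16797592) (l 16796056)))) (a (c (l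 16797416) (l 16790200)) (l 6))))) (l 6)) (b (a (a (c (b (c (l 16798224) (l 16798288)) (l 16790320)) (b (c (l 16793576) (l 16792024)) (l 16782856))) (c (l 16791008) (l 16779832))) (l 6)) (a (c (c (l 16774048) (l 16776512)) (l 16790816)) (a (l 16774632) (l 6))))) (l 6)), by decide +kernel⟩

def k21_pm_102 : ∃ t, chk3 f_pm_102 t 61 133 1 = true :=
  ⟨(a (a (b (c (c (l 16767368) (l 16770528)) (l 16775456)) (b (l 16766352) (l 16762392))) (b (b (l 16769752) (l 16765904)) (b (l 16762256) (l 16758888)))) (b (l 6) (l 16757120))), by decide +kernel⟩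

def k22_pm_102 : ∃ t, chk3 f_pm_102 t 30 67 1 = true :=
  ⟨(a (b (b (a (a (c (c (b (l 16775664) (l 16791968)) (l 16780080)) (c (l 16786736) (l 16751456))) (c (l 16777688) (l 16785304))) (c (a (l 16783448) (l 16778104)) (l 16763904))) (a (c (b (l 16762664) (l 16779048)) (l 16755904)) (a (l 16755168) (l 16752472)))) (a (c (b (l 16772064) (l 16762840)) (b (l 16761376) (l 16749056))) (b (a (l 16768160) (l 16766832)) (l 16761272)))) (a (b (a (b (l 16756944) (l 16771576)) (l 16751904)) (l 16762608)) (b (l 16749224) (l 16759232)))), by decide +kernel⟩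

def k23_pm_102 : ∃ t, chk3 f_pm_102 t 31 16 1 = true :=
  ⟨(b (l 6) (a (b (l 6) (a (l 16709640) (l 6))) (l 6))), by decide +kernel⟩

def k24_pm_102 : ∃ t, chk3 f_pm_102 t 15 17 1 = true :=
  ⟨(a (b (a (b (a (b (b (l 16734392) (l 16748520)) (l 16739304)) (l 16725560)) (c (l 16719816) (l 16723904))) (b (c (l 16717128) (l 16750656)) (b (l 16710592) (l 16719992)))) (a (b (l 16706600) (l 16684504)) (b (l 16680984) (l 16676936)))) (a (b (b (b (l 16701360) (l 16690088)) (l 16651480)) (c (l 16627136) (l 16643232))) (b (b (l 6) (b (l 6) (l 16655568))) (b (a (l 16659936) (l 16634528)) (l 16588992))))), by decide +kernel⟩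

def k25_pm_102 : ∃ t, chk3 f_pm_102 t 7 9 1 = true :=
  ⟨(a (b (a (b (a (b (c (l 16548776) (l 16539352)) (l 16557920)) (b (l 16590464) (l 16590688))) (c (l 16501976) (l 16562480))) (b (a (l 16571016) (l 16647520)) (a (l 16594472) (l 16597064)))) (a (b (a (l 16527272) (l 16538448)) (a (l 16480336) (l 16488672))) (b (a (l 16544064) (l 16544368)) (l 16449968)))) (a (b (a (b (l 16625768) (l 16593976)) (b (l 16574920) (l 16583680))) (a (b (l 16539808) (l 16485120)) (b (l 16528272) (l 16472456)))) (b (a (b (b (l 16637416) (l 16610176)) (l 16547464)) (b (b (l 16603656) (l 16596720)) (l 16470144))) (a (b (l 16511840) (l 16454968)) (b (l 16496280) (l 16438392)))))), by decide +kernel⟩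

def k26_pm_102 : ∃ t, chk3 f_pm_102 t 2 5 1 = true :=
  ⟨(b (a (b (b (a (l 2) (a (l 2) (b (a (l 2) (l 16316384)) (l 2)))) (l 2)) (l 2)) (b (b (a (a (b (a (l 16309528) (l 16325512)) (c (l 16398864) (l 16318040))) (b (c (l 16397176) (l 16306224)) (a (l 16353056) (l 16350600)))) (a (b (a (l 16362576) (l 16363752)) (l 16286216)) (b (l 16283456) (l 16330600)))) (b (a (a (a (l 16332024) (l 16346328)) (a (l 16341216) (l 16337528))) (a (l 16292640) (l 16272400))) (a (a (b (l 16215280) (a (l 2) (b (l 16332792) (l 16329528)))) (b (l 16266248) (b (l 16177000) (a (l 16322928) (l 16317904))))) (a (b (l 16302312) (a (l 16232568) (l 16230544))) (b (l 16280752) (a (l 16250768) (l 16314144))))))) (b (a (a (a (l 2) (l 16213512)) (a (l 16226912) (l 16241888))) (a (c (l 16311888) (l 16241728)) (a (l 16295320) (l 16294680)))) (a (a (l 2) (c (l 16325176) (l 16226328))) (a (a (l 16277152) (l 16272288)) (a (l 16268712) (l 16266328))))))) (a (l 2) (a (a (l 2) (b (c (l 16298888) (l 16218984)) (l 2))) (a (b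 (c (l 16278616) (l 16182888)) (a (l 2) (l 16199712))) (b (c (l 16244104) (l 16171520)) (a (l 16189920) (l 16181304))))))), by decide +kernel⟩

def k27_pm_102 : ∃ t, chk3 f_pm_102 t 3 5 1 = true :=
  ⟨(a (b (a (b (b (a (c (l 16394744) (l 16338272)) (c (l 16405736) (l 16350296))) (a (b (l 16340640) (b (l 16326712) (a (l 16315728) (l 16297320)))) (b (l 16349416) (b (l 16334160) (a (l 16300688) (l 16304760)))))) (a (b (a (l 16295168) (l 16296624)) (a (l 16265048) (l 16264720))) (c (l 16315280) (c (l 16244816) (l 16210504))))) (b (b (a (c (l 16421400) (l 16367568)) (c (l 16440712) (l 16390968))) (a (b (l 16362928) (b (l 16346328) (b (l 16337560) (l 16331608)))) (b (l 16381256) (b (l 16363360) (l 16350920))))) (a (c (l 16321624) (l 16257072)) (a (l 16299000) (l 16305512))))) (a (a (b (c (l 16235816) (l 16163952)) (a (l 16173776) (l 16167208))) (b (a (l 16217872) (l 16216328)) (a (l 16161432) (l 16156360)))) (a (b (a (l 16216360) (l 16218136)) (l 16151800)) (b (a (l 16220976) (l 16224200))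 (l 16150640))))) (a (b (b (b (a (a (l 16431552) (l 16438008)) (l 16439016)) (a (b (l 16397232) (b (l 16378208) (l 16365112))) (b (l 16399464) (a (l 16353288) (l 16349496))))) (a (a (l 16311328) (l 16314224)) (a (l 16313064) (l 16307856)))) (a (b (a (l 16226880) (l 16226832)) (l 16148856)) (b (l 16219392) (l 16114872)))) (b (b (a (b (a (l 16430504) (l 16416848)) (b (l 16382504) (a (l 16383456) (l 16327056)))) (b (a (l 16398440) (l 16381032)) (b (l 16346720) (a (l 16308160) (l 16269656))))) (a (a (l 16298608) (l 16282912)) (a (l 16262720) (b (l 16269984) (l 16216616))))) (a (b (c (l 16184352) (l 16183624)) (a (l 16116288) (l 16074656))) (b (a (b (l 16187536) (l 16138800)) (c (l 16139552) (l 16134160))) (a (a (l 16054480) (l 16037008)) (l 16030032))))))), by decide +kernel⟩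

def k28_pm_102 : ∃ t, chk3 f_pm_102 t 1 3 1 = true :=
  ⟨(a (a (l 2) (b (a (l 2) (b (a (l 2) (b (l 16149520) (l 2))) (l 2))) (l 2))) (a (b (a (b (a (b (l 16127312) (l 16092744)) (b (l 16108536) (l 16046000))) (a (l 2) (b (l 16034064) (l 2)))) (b (a (b (l 16073896) (l 16046448)) (c (l 16074928) (l 15999576))) (a (b (l 16006720) (l 15975824)) (b (l 15985744) (l 15948280))))) (a (l 2) (b (a (l 2) (b (l 15919752) (l 2))) (l 2)))) (a (b (b (a (c (l 16059800) (l 16013672)) (b (l 16039480) (l 15993456))) (a (b (l 15965288) (l 15921560)) (a (l 15919016) (b (l 15924672) (l 15954352))))) (b (a (b (l 15886800) (l 15902712)) (b (a (l 15854944) (l 15820400)) (a (l 15820672) (l 15775784)))) (a (l 2) (b (l 15913368) (l 2))))) (b (b (a (b (a (l 16036992) (c (l 16025424) (l 15996328))) (c (a (l 15984504) (l 15948920)) (a (l 15943280) (l 15908400)))) (b (c (l 15944744) (l 15931560)) (c (l 15880240) (l 15829272)))) (a (b (c (l 16046584) (l 15825624)) (c (l 15837936) (l 15770480))) (b (b (l 15768080)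 (l 15726600)) (c (l 15731712) (l 15645896))))) (b (a (b (c (l 15784776) (l 15703200)) (c (l 15740688) (l 15645408))) (c (b (l 15670288) (l 15618424)) (b (l 15567224) (l 15498736)))) (a (c (b (l 15706248) (l 15681984)) (b (l 15598016) (l 15561904))) (c (b (l 15576808) (l 15546064)) (b (l 15441520) (l 15396584))))))))), by decide +kernel⟩

theorem s29_pm_102 : ∃ t, chk3 f_pm_102 t 1 5 1 = true := ex3_a k26_pm_102 k27_pm_102

theorem s30_pm_102 : ∃ t, chk3 f_pm_102 t 61 66 1 = true := ex3_b k20_pm_102 k21_pm_102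

theorem s31_pm_102 : ∃ t, chk3 f_pm_102 t 120 133 1 = true := ex3_a k17_pm_102 k18_pm_102

theorem s32_pm_102 : ∃ t, chk3 f_pm_102 t 60 133 1 = true := ex3_a s31_pm_102 k19_pm_102

theorem s33_pm_102 : ∃ t, chk3 f_pm_102 t 121 531 1 = true := ex3_a k15_pm_102 k16_pm_102

theorem s34_pm_102 : ∃ t, chk3 f_pm_102 t 243 530 1 = true := ex3_b k13_pm_102 k14_pm_102

theorem s35_pm_102 : ∃ t, chk3 f_pm_102 t 121 530 1 = true := ex3_a k12_pm_102 s34_pm_102

theorem s36_pm_102 : ∃ t, chk3 f_pm_102 t 121 265 1 = true := ex3_b s35_pm_102 s33_pm_102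

theorem s37_pm_102 : ∃ t, chk3 f_pm_102 t 121 132 1 = true := ex3_b k11_pm_102 s36_pm_102

theorem s38_pm_102 : ∃ t, chk3 f_pm_102 t 60 132 1 = true := ex3_a k10_pm_102 s37_pm_102

theorem s39_pm_102 : ∃ t, chk3 f_pm_102 t 60 66 1 = true := ex3_b s38_pm_102 s32_pm_102

theorem s40_pm_102 : ∃ t, chk3 f_pm_102 t 30 66 1 = true := ex3_a s39_pm_102 s30_pm_102

theorem s41_pm_102 : ∃ t, chk3 f_pm_102 t 30 33 1 = true := ex3_b s40_pm_102 k22_pm_102

theorem s42_pm_102 : ∃ t, chk3 f_pm_102 t 30 16 1 = true := ex3_b k9_pm_102 s41_pm_102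

theorem s43_pm_102 : ∃ t, chk3 f_pm_102 t 15 16 1 = true := ex3_a s42_pm_102 k23_pm_102

theorem s44_pm_102 : ∃ t, chk3 f_pm_102 t 15 8 1 = true := ex3_b s43_pm_102 k24_pm_102

theorem s45_pm_102 : ∃ t, chk3 f_pm_102 t 14 17 1 = true := ex3_a k7_pm_102 k8_pm_102

theorem s46_pm_102 : ∃ t, chk3 f_pm_102 t 29 33 1 = true := ex3_b k5_pm_102 k6_pm_102

theorem s47_pm_102 : ∃ t, chk3 f_pm_102 t 14 33 1 = true := ex3_a k4_pm_102 s46_pm_102

theorem s48_pm_102 : ∃ t, chk3 f_pm_102 t 14 16 1 = true := ex3_b k3_pm_102 s47_pm_102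

theorem s49_pm_102 : ∃ t, chk3 f_pm_102 t 14 8 1 = true := ex3_b s48_pm_102 s45_pm_102

theorem s50_pm_102 : ∃ t, chk3 f_pm_102 t 7 8 1 = true := ex3_a s49_pm_102 s44_pm_102

theorem s51_pm_102 : ∃ t, chk3 f_pm_102 t 7 4 1 = true := ex3_b s50_pm_102 k25_pm_102

theorem s52_pm_102 : ∃ t, chk3 f_pm_102 t 6 4 1 = true := ex3_b k1_pm_102 k2_pm_102

theorem s53_pm_102 : ∃ t, chk3 f_pm_102 t 3 4 1 = true := ex3_a s52_pm_102 s51_pm_102

theorem s54_pm_102 : ∃ t, chk3 f_pm_102 t 1 4 1 = true := ex3_a k0_pm_102 s53_pm_102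

theorem s55_pm_102 : ∃ t, chk3 f_pm_102 t 1 2 1 = true := ex3_b s54_pm_102 s29_pm_102

theorem s56_pm_102 : ∃ t, chk3 f_pm_102 t 1 1 1 = true := ex3_b s55_pm_102 k28_pm_102

theorem c_pm_102 : CertB 536870912 536870912 0 536870912 966367641 24778659 3 eng mog cd0q1 cd1q0 pd2 true true false .npp 1 0 2
    ndB0q1 ndB1q0 pcB2 cut_pm_102 xt_pm_102 :=
  certB1 (fam := true) (s1 := true) (s2 := false) (a := 1) (b := 0) (c := 2) (cn := .npp) (n1 := ndB0q1) (n2 := ndB1q0) (pc := pcB2) (cut := cut_pm_102) (xt := xt_pm_102) (P1 := 536870912) (W1 := 536870912) (P2 := 0) (W2 := 536870912) (P3 := 966367641) (W3 := 24778659) (N0 := 3) (En := eng) (mo := mog) (C1 := cd0q1) (C2 := cd1q0) (C3 := pd2)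
    rfl (fun _ => rfl) s56_pm_102

noncomputable def f_pm_112 : ℕ → ℕ → ℕ → ℕ → Bool := onCell 536870912 536870912 1073741824 536870912 966367641 24778659
    (rowB 3 eng mog cd0q1 cd1q1 pd2 1 true true false .dn 1 1 2 (qsf 536870912 536870912 536870912 536870912 2) ndB0q1 ndB1q1 pcB2 Cut.none Ext.none)

def k0_pm_112 : ∃ t, chk3 f_pm_112 t 1 4 1 = true :=
  ⟨(a (b (l 3) (a (b (l 3) (a (b (l 3) (b (l 3) (a (l 16356720) (l 16354128)))) (b (b (l 3) (a (l 3) (c (a (l 3) (l 219075942727)) (l 137068833575)))) (a (b (c (l 16302840) (l 16326584)) (a (l 16313840) (l 16300032))) (b (c (l 32244714407) (l 16300152)) (a (l 16285376) (l 16269768))))))) (b (l 1) (a (b (l 1) (a (b (l 1) (a (l 16190208) (l 1))) (l 1))) (l 1))))) (l 1)), by decide +kernel⟩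

def k1_pm_112 : ∃ t, chk3 f_pm_112 t 1 5 1 = true :=
  ⟨(a (b (a (b (b (a (b (a (l 16346488) (l 16324232)) (a (l 16335976) (l 16315008))) (b (a (l 16257536) (a (l 16278888) (l 16264000))) (a (l 16312576) (a (l 16272064) (l 16257896))))) (b (a (a (l 16325192) (l 16305488)) (a (l 16283408) (b (l 16280944) (l 16277424)))) (b (a (a (l 16337896) (l 16319112)) (a (l 16277008) (l 16273552))) (a (a (l 16374256) (l 16293120)) (a (b (l 16294544) (l 16292032)) (b (l 16249184) (l 16246776))))))) (a (a (l 16285560) (l 16290960)) (a (l 16262256) (a (l 16235880) (l 16245032))))) (a (a (b (b (b (a (l 16269064) (l 1)) (a (l 16242720) (l 16247408))) (b (a (l 16236816) (l 16241976)) (b (l 16202768) (a (l 16227096) (b (l 16233656) (l 16231456)))))) (c (a (l 16211640) (l 16195064)) (l 16226680))) (a (b (b (l 1) (b (l 1) (b (l 1) (b (l 1) (l 16193760))))) (b (l 16208312) (l 16196576))) (b (l 1) (l 157335336423)))) (b (l 1) (a (b (l 1) (l 200284901895)) (l 1))))) (a (a (a (l 16232248) (c (l 16200552) (l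 16224912))) (a (b (l 16212432) (l 16190240)) (c (l 16163352) (l 16212384)))) (a (a (b (b (l 16203536) (l 16166888)) (l 16162584)) (b (a (l 16177080) (l 16162768)) (l 16141792))) (a (b (a (l 16146888) (l 16108384)) (l 16115064)) (b (l 195989783351) (c (l 16053752) (l 16110112))))))) (a (b (l 1) (a (a (b (l 1) (l 16019544)) (l 1)) (l 1))) (l 1))), by decide +kernel⟩

def k2_pm_112 : ∃ t, chk3 f_pm_112 t 1 3 1 = true :=
  ⟨(a (a (b (a (b (a (l 16123064) (l 16100344)) (a (l 16007152) (l 16009952))) (a (b (l 16098256) (l 16056200)) (b (l 16114544) (l 16018256)))) (a (b (l 15746704) (l 15784680)) (b (a (l 15902416) (l 15912424)) (a (l 15790496) (l 15802064))))) (b (a (b (a (a (l 16087480) (l 16082064)) (b (l 16109712) (l 16074096))) (a (l 15997880) (l 15993944))) (b (a (b (l 16088008) (l 16057352)) (b (l 16059568) (l 16033952))) (a (l 15984448) (l 15968488)))) (a (b (a (l 15921472) (l 15926392)) (a (l 15817344) (l 15830272))) (b (a (l 15926152) (l 15919792)) (a (l 15838640) (l 15841416))))))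 (a (b (a (b (a (b (l 16002712) (l 16003184)) (b (l 15958456) (l 15964112))) (a (l 15945312) (l 15913968))) (a (b (l 163240578919) (c (l 15875760) (l 15919616))) (b (l 1) (l 93984476039)))) (a (b (a (l 15906520) (l 15885328)) (a (l 15837760) (l 15826568))) (b (a (l 15858080) (l 15826096)) (a (l 15809520) (l 15787872))))) (a (b (b (l 1) (a (l 142839666135) (l 1))) (b (a (b (l 15789680) (l 15777568)) (b (c (l 15696200) (l 15742592)) (a (l 15730392) (l 15677448)))) (a (b (a (l 15774208) (l 15750728)) (c (l 15733000) (l 15756016))) (b (l 15770096) (l 15666256))))) (b (l 1) (b (a (c (l 117606384471) (l 123511345383)) (l 1)) (a (c (l 15556568) (l 15763912)) (c (l 15476568) (l 162703143319)))))))), by decide +kernel⟩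

theorem s3_pm_112 : ∃ t, chk3 f_pm_112 t 1 2 1 = true := ex3_b k0_pm_112 k1_pm_112

theorem s4_pm_112 : ∃ t, chk3 f_pm_112 t 1 1 1 = true := ex3_b s3_pm_112 k2_pm_112

theorem c_pm_112 : CertB 536870912 536870912 536870912 536870912 966367641 24778659 3 eng mog cd0q1 cd1q1 pd2 true true false .dn 1 1 2
    ndB0q1 ndB1q1 pcB2 Cut.none Ext.none :=
  certB1 (fam := true) (s1 := true) (s2 := false) (a := 1) (b := 1) (c := 2) (cn := .dn) (n1 := ndB0q1) (n2 := ndB1q1) (pc := pcB2) (cut := Cut.none) (xt := Ext.none) (P1 := 536870912) (W1 := 536870912) (P2 := 536870912) (W2 := 536870912) (P3 := 966367641) (W3 := 24778659) (N0 := 3) (En := eng) (mo := mog) (C1 := cd0q1) (C2 := cd1q1) (C3 := pd2)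
    rfl (fun _ => rfl) s4_pm_112

noncomputable def f_pm_113 : ℕ → ℕ → ℕ → ℕ → Bool := onCell 536870912 536870912 1610612736 536870912 966367641 24778659
    (rowB 3 eng mog cd0q1 cd1q1 pd3 1 true true false .nn 1 1 3 (qsf 536870912 536870912 536870912 536870912 3) ndB0q1 ndB1q1 pcB3 Cut.none Ext.none)

def k0_pm_113 : ∃ t, chk3 f_pm_113 t 2 1 1 = true :=
  ⟨(b (a (b (a (a (b (l 15491744) (l 2)) (b (l 15516648) (l 15464640))) (a (b (l 15554848) (l 15471656)) (b (b (l 15811192) (l 15771808)) (b (l 15730752) (l 15683216))))) (a (l 2) (a (l 2) (b (l 15499408) (l 2))))) (b (a (b (a (b (l 15803280) (l 15769016)) (l 16004696)) (a (b (l 15734928) (l 15700240)) (b (l 15724768) (l 15695104)))) (b (c (l 15963544) (l 15986368)) (a (l 15698632) (l 15688160)))) (a (b (c (a (l 15622360) (l 15552136)) (a (l 15596904) (l 15616456))) (b (a (l 2) (l 15589136)) (l 2))) (b (a (l 15644408) (l 15635856)) (a (b (l 15605072) (l 15570792)) (l 15590608)))))) (a (l 2) (b (a (l 2) (b (a (l 2) (b (l 15555568) (l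 2))) (l 2))) (l 2)))), by decide +kernel⟩

def k1_pm_113 : ∃ t, chk3 f_pm_113 t 3 1 1 = true :=
  ⟨(b (a (b (a (b (c (l 15955864) (l 15970008)) (a (l 15677696) (l 15665680))) (a (b (l 15689344) (l 15652488)) (b (b (l 15673048) (l 15656864)) (b (l 15643384) (l 15632736))))) (a (b (a (l 15630960) (l 15627856)) (a (l 15594408) (l 15601168))) (b (a (l 15626232) (b (l 15625552) (l 15622576))) (b (a (l 15614952) (l 15624776)) (a (l 15613368) (l 15633456)))))) (b (a (b (c (a (l 15773176) (l 15626328)) (a (l 15696656) (l 15523704))) (b (a (l 15615632) (l 15568328)) (a (l 15610632) (l 15569968)))) (b (a (b (l 15561632) (l 15494768)) (c (l 15475728) (l 15366112))) (a (b (l 15496512) (l 15504720)) (c (l 15487512) (l 15317584))))) (a (b (c (a (l 15656248) (l 15637832)) (a (l 15568808) (l 15529672))) (b (a (l 15628256) (l 15616720)) (a (l 15649256) (l 15652016)))) (b (a (b (l 15520448) (l 15545184)) (c (l 15529848) (l 15367472))) (a (b (l 15581048) (l 15631192)) (b (l 15515568) (l 15578984)))))))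 (a (b (b (a (a (l 15563504) (l 15589840)) (b (l 15802160) (l 15655456))) (a (b (l 15578584) (l 2)) (a (l 15719496) (l 15757528)))) (a (l 2) (b (b (a (l 2) (l 15909560)) (l 2)) (l 2)))) (b (a (b (b (l 15735328) (l 15752976)) (b (l 15839336) (l 15967896))) (b (a (l 15744896) (b (l 15665512) (l 15784992))) (a (b (l 15934304) (l 16138296)) (b (l 15951288) (l 16189440))))) (a (b (b (a (l 16071576) (l 16268688)) (a (l 16351824) (l 16465968))) (a (l 2) (b (b (l 16498392) (l 2)) (l 2)))) (b (b (a (l 16464920) (l 16559736)) (a (l 16597256) (b (l 16735528) (l 16734392)))) (b (b (a (l 16616088) (l 16655984)) (a (l 16452992) (l 4))) (l 4))))))), by decide +kernel⟩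

theorem s2_pm_113 : ∃ t, chk3 f_pm_113 t 1 1 1 = true := ex3_a k0_pm_113 k1_pm_113

theorem c_pm_113 : CertB 536870912 536870912 536870912 536870912 966367641 24778659 3 eng mog cd0q1 cd1q1 pd3 true true false .nn 1 1 3
    ndB0q1 ndB1q1 pcB3 Cut.none Ext.none :=
  certB1 (fam := true) (s1 := true) (s2 := false) (a := 1) (b := 1) (c := 3) (cn := .nn) (n1 := ndB0q1) (n2 := ndB1q1) (pc := pcB3) (cut := Cut.none) (xt := Ext.none) (P1 := 536870912) (W1 := 536870912) (P2 := 536870912) (W2 := 536870912) (P3 := 966367641) (W3 := 24778659) (N0 := 3) (En := eng) (mo := mog) (C1 := cd0q1) (C2 := cd1q1) (C3 := pd3)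
    rfl (fun _ => rfl) s2_pm_113

end Pool.Agent.Strip051.G.I9000_9231.Tab.C.BA01

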