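import Pool.Agent.Strip051.G.I9000_9231.Tab
import Pool.Agent.Strip051.PB.ExtD2

/-! # Certificates B3 (generated) -/

set_option linter.all false
set_option maxRecDepth 100000

namespace Pool.Agent.Strip051.G.I9000_9231.Tab.C.BA01

open Pool.Agent.Strip051.PB Pool.Agent.Strip051.PB.T
open Pool.Agent.Strip051.G.I9000_9231.Tab

noncomputable def cut_pm_123_a : Cut := Cut.of [[⟨0, 1, 0, 47710208⟩, ⟨1, 1, 0, 47710208⟩, ⟨2, 2, 0, 8388608⟩], [⟨0, 0, 1, 46137344⟩, ⟨1, 1, 0, 2097152⟩, ⟨2, 1, 1, 46137344⟩, ⟨0, 0, 0, 1013612281⟩, ⟨0, 1, 0, 128849018⟩, ⟨2, 1, 0, 1013612281⟩, ⟨2, 2, 0, 128849018⟩]]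

noncomputable def xt_pm_123_a : Ext := extD2 3 ⟨4, 1, 1, 5, 37, 10, 843, 1000, 41, 100, 1, 8⟩ eng cd0q1 cd1q2a pd3 true true false .npn 1 2 3 rfl ndB0q1 ndB1q2a pcB3

noncomputable def f_pm_123_a : ℕ → ℕ → ℕ → ℕ → Bool := onCell 1610612736 536870912 0 536870912 966367641 24778659
    (rowB 3 eng mog cd0q1 cd1q2a pd3 2 true true false .npn 1 2 3 (qsf 536870912 536870912 0 536870912 3) ndB0q1 ndB1q2a pcB3 cut_pm_123_a xt_pm_123_a)

def k0_pm_123_a : ∃ t, chk3 f_pm_123_a t 2 2 1 = true :=
  ⟨(a (a (l 1) (a (l 1) (a (l 1) (b (l 1) (b (l 1) (l 16224864)))))) (a (b (a (c (l 16327792) (b (l 16251928) (l 16242336))) (c (b (l 16435200) (l 16400632)) (b (l 16276872) (l 16265760)))) (a (c (b (l 16352800) (l 16300080)) (b (l 16224344) (l 16194216))) (c (l 16101352) (b (l 16246096) (l 16214160))))) (b (a (b (c (l 16448512) (l 16312440)) (c (l 16413024) (l 16297232))) (b (c (a (l 16463080) (l 16476112)) (a (l 16346408) (l 16375520))) (c (l 16431848) (l 16336392)))) (a (c (l 16134248) (b (l 16275600) (l 16241464))) (b (l 16206776) (c (l 16335560)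 (l 16275968))))))), by decide +kernel⟩

def k1_pm_123_a : ∃ t, chk3 f_pm_123_a t 2 6 1 = true :=
  ⟨(a (a (l 1) (b (a (l 1) (c (l 16234272) (l 16115944))) (a (c (a (l 16159336) (l 16152768)) (b (l 16087408) (l 16067784))) (c (l 15978272) (b (l 16088648) (l 16047264)))))) (a (a (b (a (l 16043488) (l 16068160)) (c (l 15975208) (b (l 16097440) (l 16054832)))) (a (b (l 16094568) (b (l 16141168) (l 16093368))) (b (l 16122704) (c (l 16148816) (l 16096448))))) (c (b (a (l 16247872) (l 16266464)) (a (b (l 16183152) (l 16131544)) (b (l 16201696) (l 16150088)))) (a (b (l 16273632) (b (l 16135856) (l 16090008))) (b (l 16242448) (b (l 16165240) (l 16117528))))))), by decide +kernel⟩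

def k2_pm_123_a : ∃ t, chk3 f_pm_123_a t 4 7 1 = true :=
  ⟨(a (b (a (l 1) (a (b (l 1) (c (l 16028624) (l 15949328))) (b (l 16003904) (b (l 15999800) (l 15963472))))) (a (b (a (l 1) (c (l 15959192) (b (l 15903296) (l 15863232)))) (b (c (a (l 15905688) (l 15891088)) (a (l 15830784) (l 15819864))) (c (a (b (l 15869144) (l 15843712)) (b (l 15854352) (l 15828768))) (a (b (l 15796136) (c (l 15790336) (l 15752912))) (b (l 15784992) (c (l 15778072) (l 15742584))))))) (b (b (c (l 15962912) (l 15891368)) (c (l 15919160) (a (l 15854552) (l 15847664)))) (b (c (a (l 15878248) (l 15867136)) (a (l 15810784) (l 15803424))) (c (a (b (l 15841320) (l 15815600)) (b (l 15830008) (l 15804128))) (a (b (l 15775592) (c (l 15767496) (l 15733896))) (b (l 15767848) (c (l 15758560) (l 15726824))))))))) (b (a (b (a (l 15955544) (c (l 16069792) (l 15997048))) (c (b (l 16024056) (l 15986320)) (b (l 15954720) (l 15920280)))) (b (c (l 16062496) (a (l 15996728) (l 15998144))) (c (a (l 15996808) (l 15992952)) (a (l 15935848) (l 15936664))))) (b (a (c (b (l 15945000)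 (l 15900848)) (b (l 15882032) (a (l 15842480) (l 15838928)))) (a (c (l 15913936) (l 15858320)) (b (l 15906608) (l 15862520)))) (a (b (c (a (l 15857728) (l 15849992)) (a (l 15797704) (l 15793544))) (c (a (b (l 15820376) (l 15794336)) (b (l 15812408) (l 15786200))) (a (b (l 15761680) (c (l 15751192) (l 15721264))) (b (l 15757024) (c (l 15745328) (l 15717120)))))) (c (b (a (l 15843936) (l 15839544)) (a (b (l 15806104) (l 15779728)) (b (l 15801480) (l 15774920)))) (b (a (l 15790880) (l 15789656)) (a (c (l 15754088) (l 15727352)) (b (l 15751968) (l 15725424))))))))), by decide +kernel⟩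

def k3_pm_123_a : ∃ t, chk3 f_pm_123_a t 5 7 1 = true :=
  ⟨(a (b (a (c (b (l 16058656) (a (l 15990768) (l 15990280))) (b (a (l 16001216) (l 16005912)) (a (l 15939032) (l 15942896)))) (c (b (l 16061704) (a (l 15991552) (l 15994648))) (b (l 16057848) (a (l 15948240) (l 15955056))))) (a (b (c (b (l 15929664) (l 15884480)) (b (l 15882640) (l 15838448))) (b (c (a (l 15836864) (l 15835936)) (a (l 15789832) (l 15791392))) (a (c (b (l 15798560) (l 15771840)) (b (l 15751488) (l 15724472))) (c (b (l 15797416) (l 15770512)) (b (l 15752344) (l 15724872)))))) (b (c (b (l 15932328) (l 15886760)) (a (l 15866576) (l 15872312))) (b (c (a (l 15836832) (l 15839768)) (a (l 15794352) (l 15798608))) (a (c (l 15784680) (b (l 15754552) (l 15726472))) (c (l 15787512) (l 15743680))))))) (b (a (a (b (l 16049816) (c (l 15999680) (l 15963400))) (b (l 16058768) (c (l 16006856) (l 15973200)))) (b (c (l 16090680) (l 16060040)) (a (c (l 16016368) (l 15984544)) (l 16054952)))) (a (b (c (b (l 15942920) (l 15897208)) (b (l 15907096) (l 15859416))) (b (a (c (l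 15844952) (l 15804168)) (l 15831656)) (a (c (l 15792752) (l 15747984)) (c (l 15800600) (l 15753744))))) (b (b (a (l 15939680) (l 15952024)) (a (l 15892216) (l 15904408))) (b (a (l 15841104) (l 15853128)) (a (c (l 15811344) (l 15761296)) (c (l 15825368) (l 15771168)))))))), by decide +kernel⟩

def k4_pm_123_a : ∃ t, chk3 f_pm_123_a t 3 2 1 = true :=
  ⟨(a (a (b (a (a (b (a (l 16447152) (l 16461560)) (l 16414048)) (b (l 16484216) (l 16435656))) (b (a (l 16515224) (l 16547480)) (a (b (l 16472056) (l 16447856)) (b (l 16505264) (l 16474936))))) (a (b (c (l 16414984) (l 16356808)) (a (l 16332080) (l 16350616))) (b (a (l 16418488) (l 16441856)) (c (l 16395752) (l 16366728))))) (b (a (a (b (l 16580992) (l 16524088)) (b (l 16615768) (l 16560016))) (a (b (l 16651872) (l 16597440)) (b (l 16689200) (l 16573544)))) (a (b (a (l 16468696) (l 16519728)) (a (l 16418520) (l 16445736))) (b (a (l 16533512) (l 16574168)) (c (l 16578808) (l 16640688)))))) (b (a (a (b (a (a (l 16717416) (l 16735048)) (a (l 16746016) (b (l 16743024) (l 16743856))))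 (a (l 16677056) (a (l 16708000) (l 16727752)))) (a (b (a (b (l 146800463015) (l 16740040)) (b (l 4) (l 137136767239))) (a (l 16739352) (c (l 16712496) (l 16748096)))) (b (l 4) (a (b (l 129620555767) (l 16737432)) (b (l 4) (l 121567474663)))))) (l 4)) (a (a (b (a (l 16616848) (l 16661624)) (a (b (l 16564872) (l 16532504)) (b (l 16612024) (l 16575560)))) (b (a (c (l 16696872) (l 16720472)) (a (l 16738000) (c (l 16710296) (l 16751224)))) (a (c (l 16635120) (l 16654992)) (c (l 16686528) (l 16709088))))) (a (b (a (a (a (l 95260796887) (b (l 16718640) (l 16737744))) (b (l 4) (a (l 16737608) (l 16719664)))) (l 4)) (a (a (c (l 16702328) (l 16748072)) (b (c (l 16705808) (l 16753168)) (l 16719904))) (a (a (b (l 16738032) (l 16740544)) (b (l 16720432) (l 16737480))) (b (l 4) (a (l 16716720) (l 16658120)))))) (l 4))))), by decide +kernel⟩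

def k5_pm_123_a : ∃ t, chk3 f_pm_123_a t 6 6 1 = true :=
  ⟨(a (a (b (c (l 16292976) (l 16323224)) (c (b (l 16228832) (l 16177784)) (b (l 16201552) (l 16152032)))) (b (c (l 16328568) (l 16306688)) (c (l 16346320) (b (l 16245904) (l 16194984))))) (a (b (c (l 16374680) (l 16362040)) (c (b (l 16315176) (l 16268472)) (b (l 16300440) (l 16249472)))) (b (a (l 16413848) (l 16448344)) (b (l 16499328) (a (l 16309144) (l 16348960)))))), by decide +kernel⟩

def k6_pm_123_a : ∃ t, chk3 f_pm_123_a t 6 7 1 = true :=
  ⟨(a (b (a (a (b (l 16097496) (l 16048720)) (b (l 16115056) (l 16066248))) (c (b (l 16159672) (a (l 16082432) (l 16108040))) (b (l 16134176) (a (l 16050056) (l 16073888))))) (a (b (c (b (l 15993944) (l 15950144)) (b (l 15957000) (l 15906632))) (c (b (l 15903344) (a (l 15843216) (l 15865648))) (b (l 15851560) (a (l 15784008) (l 15800632))))) (b (c (b (l 16165584) (l 15998992)) (b (l 15997592) (l 15947984))) (a (b (l 15910440) (c (l 15893752) (l 15822064))) (b (l 15939512) (c (l 15929000) (l 15849704))))))) (c (b (a (b (l 16215592)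 (a (l 16138568) (l 16175040))) (b (l 16439296) (a (l 16218664) (l 16270920)))) (b (b (a (c (l 16119944) (l 16094000)) (a (l 16177480) (l 16237624))) (a (a (l 16050736) (l 16095088)) (a (c (l 16168136) (l 16131384)) (a (l 16198840) (l 16236424))))) (a (b (a (l 16012224) (l 16061672)) (a (a (l 15961312) (l 15986208)) (a (l 16014200) (l 16066696)))) (b (a (c (l 16145960) (l 16100984)) (a (l 16179912) (l 16223680))) (a (b (l 16189888) (a (l 16075728) (b (l 16119672) (l 16116128)))) (b (a (l 16169816) (l 16219832)) (a (c (l 16239232) (l 16134664)) (c (b (l 16252952) (a (l 16240776) (l 16272312))) (l 16208944))))))))) (b (a (b (l 16189224) (a (l 16102056) (l 16135512))) (b (l 16263208) (a (l 16175496) (l 16223352)))) (b (a (a (l 16016008) (b (l 16075384) (l 16030448))) (a (a (l 16086144) (l 16111368)) (b (l 16172512) (l 16136944)))) (a (b (a (l 15940280) (l 15981992)) (a (l 15885568) (l 15932048))) (b (a (l 16034816) (l 16101976)) (a (a (l 15975640) (l 16009888)) (b (l 16078112) (a (l 16041280) (c (l 16121672) (l 16055600))))))))))),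 by decide +kernel⟩

def k7_pm_123_a : ∃ t, chk3 f_pm_123_a t 7 6 1 = true :=
  ⟨(a (a (b (a (l 16590920) (b (l 16543672) (l 16511968))) (a (c (l 16505080) (l 16407776)) (b (l 16478696) (c (l 16454704) (l 16434456))))) (b (a (b (l 16675144) (l 16560392)) (b (l 16647040) (a (l 16600264) (l 16628656)))) (a (b (l 16530416) (a (l 16486416) (l 16517472))) (b (l 16630104) (a (l 16550432) (l 16585104)))))) (b (a (a (a (b (l 16690752) (l 16701464)) (c (l 16701544) (l 16712400))) (a (a (l 16664752) (l 16654984)) (a (l 16652216) (b (l 16714520) (l 16733760))))) (a (a (a (b (c (l 16718912) (l 16755152)) (l 16691936)) (b (l 253100833575) (l 16648552))) (a (b (l 4) (b (l 4) (l 16668944))) (l 4))) (l 4))) (a (b (a (a (l 16677264) (b (l 16673096) (l 16664392))) (a (a (l 16694192) (l 16711568)) (c (l 16717904) (l 16731632)))) (a (a (l 16621120) (l 16658288)) (a (b (l 16695936) (l 16697840)) (b (l 16689144) (l 16694096))))) (a (a (b (a (l 16668632) (l 16686984)) (a (c (l 16714248) (l 16743192)) (l 16689088))) (b (a (l 16666344) (b (l 270817564919)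 (l 16665152))) (a (l 16685968) (l 16663792)))) (a (a (b (a (l 357790652007) (l 4)) (a (l 16665280) (b (l 16667976) (l 16706864)))) (b (l 4) (a (b (l 4) (l 16668160)) (l 4)))) (l 4)))))), by decide +kernel⟩

def k8_pm_123_a : ∃ t, chk3 f_pm_123_a t 28 14 1 = true :=
  ⟨(a (b (a (l 16337680) (l 16364216)) (a (c (l 16316712) (l 16265216)) (c (l 16350872) (l 16295712)))) (b (c (l 16428200) (l 16390688)) (a (c (l 16388784) (l 16329488)) (c (l 16430728) (l 16367040))))), by decide +kernel⟩

def k9_pm_123_a : ∃ t, chk3 f_pm_123_a t 28 30 1 = true :=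
  ⟨(a (a (b (c (l 16291528) (l 16220472)) (c (a (l 16267528) (l 16290096)) (l 16190864))) (b (c (l 16333448) (l 16256904)) (c (b (l 16328624) (l 16327864)) (l 16233144)))) (a (c (b (l 16380808) (b (l 16382632) (l 16408192))) (b (l 16298088) (b (l 16285256) (l 16278656)))) (a (b (l 16375472) (c (l 16431960) (l 16322720))) (b (l 16401824) (c (l 16466192) (l 16352480)))))), by decide +kernel⟩

def k10_pm_123_a : ∃ t, chk3 f_pm_123_a t 56 31 1 = true :=
  ⟨(b (a (c (a (l 16260256) (l 16308080)) (b (l 16170672) (l 16159216))) (c (b (l 16330288) (c (l 16367696) (l 16305056))) (b (l 16218896) (l 16212416)))) (c (b (a (c (a (l 16293640) (l 16325984)) (l 16245424)) (a (a (l 16319320) (l 16337560)) (b (l 16362520) (l 16433280)))) (a (b (a (l 16266216) (a (l 16291144) (l 16372304))) (c (a (l 139059735726096399) (a (a (l 139685770205397007) (b (l 16336312) (l 139456865652555791))) (b (l 16351368) (l 139803143127629839)))) (a (l 16234736) (a (l 16260264) (l 16278896))))) (b (a (c (l 16396048) (l 16301768)) (c (b (l 16415080) (l 16421328))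 (l 16341728))) (b (c (a (c (l 16422936) (l 16363840)) (c (l 140624478501617679) (l 16450184))) (a (l 16306712) (l 139874199051141135))) (l 14))))) (a (b (b (l 16152048) (l 16148104)) (a (l 16170976) (c (b (l 16194816) (l 16195464)) (l 16123056)))) (c (b (l 16243472) (b (l 16246752) (a (l 16231472) (b (l 16269304) (l 14))))) (b (l 16175032) (a (l 16154992) (l 16189832))))))), by decide +kernel⟩

def k11_pm_123_a : ∃ t, chk3 f_pm_123_a t 57 31 1 = true :=
  ⟨(a (b (c (b (l 16416768) (c (l 16443424) (l 16375384))) (b (l 16274920) (l 16295768))) (b (c (a (c (l 16444200) (l 16370424)) (c (l 16490272) (l 16413264))) (c (l 16379456) (l 16242144))) (b (c (a (c (a (l 16452872) (l 16498240)) (l 16385192)) (c (c (l 141952138973904911) (l 16495016)) (b (l 16428944) (l 16436264)))) (c (a (l 16305680) (l 16349440)) (l 16246064))) (b (b (c (c (a (a (l 16462568) (l 16529976)) (a (l 141337168331276303) (l 141637816098897935))) (a (l 16392736) (l 141066688322486287))) (c (a (l 16310440) (l 16356136)) (l 16248800))) (l 14)) (l 14))))) (b (c (b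 (b (l 16466568) (l 16476240)) (a (l 16471688) (l 16517560))) (b (l 16339896) (c (l 16384064) (l 16311696)))) (b (c (a (c (l 16540280) (l 16459816)) (c (l 16594632) (l 16510456))) (c (a (l 16379864) (l 16426816)) (l 16384536))) (b (c (a (c (b (l 16565696) (a (l 16562640) (l 16592168))) (a (l 16470832) (l 16518792))) (c (c (l 142870575022440463) (l 142543813816860687)) (a (l 16567984) (l 142124487460093967)))) (c (a (l 16418216) (b (l 16445296) (l 16474936))) (c (l 16398208) (l 16311968)))) (b (b (c (a (a (c (l 141952757520252943) (l 16482248)) (c (l 142282748509732879) (l 16552464))) (a (c (l 142628682420715535) (l 141592117642166287)) (c (l 142886311787085839) (l 141930767287009295)))) (a (c (l 16406144) (l 16316216)) (c (l 141245771317362703) (l 16366696)))) (l 14)) (l 14)))))), by decide +kernel⟩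

def k12_pm_123_a : ∃ t, chk3 f_pm_123_a t 29 14 1 = true :=
  ⟨(a (b (a (l 16459096) (l 16496288)) (a (c (l 16476936) (l 16408616)) (b (l 16489248) (l 16576512)))) (a (b (l 16536248) (c (l 16582976) (l 16504736))) (b (b (l 16578568) (l 16580464)) (b (l 16590520) (l 16613184))))), by decide +kernel⟩

def k13_pm_123_a : ∃ t, chk3 f_pm_123_a t 58 30 1 = true :=
  ⟨(c (b (a (l 16493264) (l 16559760)) (a (a (l 16502736) (l 16541704)) (a (l 16583408) (l 16627992)))) (b (a (l 16397024) (l 16456024)) (a (b (l 16398776) (l 16404424)) (b (l 16467800) (l 16482128))))), by decide +kernel⟩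

def k14_pm_123_a : ∃ t, chk3 f_pm_123_a t 58 31 1 = true :=
  ⟨(b (a (c (b (l 16600536) (a (l 16567240) (l 16621088))) (b (l 16415440) (c (l 16473256) (l 16394152)))) (c (b (a (l 16633256) (l 16685840)) (a (l 16676824) (l 16681616))) (b (a (l 16480272) (l 16527952)) (a (l 16507976) (l 16563152))))) (b (a (c (a (c (l 16653816) (l 16565648)) (c (l 16669232) (l 16625912))) (a (b (l 16427568) (l 16546776)) (c (l 16534016) (l 16442712)))) (c (a (c (l 16674016) (l 16671720)) (c (l 16678776) (l 16676584))) (a (c (l 16595320) (l 16499408)) (c (l 16662608) (l 16561712))))) (b (a (c (a (c (c (l 142947884449120271) (l 142932903600537615)) (a (l 142461693995745295) (l 16660808))) (a (c (l 16665328) (l 16652808)) (c (l 16667728) (l 16665264)))) (a (c (b (l 16501552) (l 141990072075321359)) (l 16453552)) (a (c (l 16595552) (l 16454704)) (c (l 16628616) (l 16485240))))) (c (a (a (c (l 16664872) (l 16667704)) (c (l 16667264) (l 16670136))) (a (c (l 16669648) (l 16672576)) (c (l 16672032) (l 16669760)))) (a (a (c (l 16642360) (l 16517312))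 (c (l 16657872) (l 16572008))) (a (c (l 16670264) (l 16607488)) (c (l 16672744) (l 16644848)))))) (b (b (a (c (a (c (a (l 142908164585619471) (l 142930017384136719)) (a (l 142286184487239695) (l 142659468754665487))) (c (a (l 142771756434128975) (l 16664056)) (a (l 142924588545114127) (l 16664152)))) (c (c (a (l 16587984) (l 142386102627172367)) (a (l 16496488) (l 16582592))) (a (l 16464184) (l 141469590699212815)))) (c (a (a (c (l 16665136) (l 16661352)) (c (l 16667528) (l 16663792))) (c (a (l 16668600) (l 16670984)) (a (l 16666224) (l 16668656)))) (a (a (c (l 16662976) (l 16554648)) (c (l 16666616) (l 16590304))) (c (a (l 16669096) (l 16661096)) (a (l 16627888) (l 16646544)))))) (l 14)) (l 14))))), by decide +kernel⟩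

def k15_pm_123_a : ∃ t, chk3 f_pm_123_a t 59 30 1 = true :=
  ⟨(a (c (b (l 16634152) (a (l 16675672) (l 16699512))) (b (l 16522312) (a (l 16536168) (l 16581144)))) (c (b (l 16710568) (a (l 16703448) (l 16707360))) (b (l 16596608) (a (l 16629312) (l 16680896))))), by decide +kernel⟩

def k16_pm_123_a : ∃ t, chk3 f_pm_123_a t 59 31 1 = true :=
  ⟨(b (a (c (b (a (l 16690520) (l 16695160)) (a (l 16686384) (l 16691144))) (b (a (l 16579584) (l 16635552)) (a (l 16623352) (l 16687296)))) (c (b (a (l 16699744) (l 16704272)) (a (l 16695888) (l 16700632))) (b (a (l 16696256) (l 16701176)) (a (l 16692256) (l 16697208))))) (b (a (c (a (c (l 16683528) (l 16681432)) (c (l 16688272) (l 16686280))) (a (c (l 16679352) (l 16630320)) (c (l 16684288) (l 16682312)))) (c (a (c (l 16682528) (l 16691112)) (c (l 16687264) (l 16695952))) (a (c (l 16689224) (l 16687352)) (c (l 16694160) (l 16692384))))) (b (a (c (a (a (c (l 16674408) (l 16672192)) (c (l 16676792) (l 16674624))) (a (c (l 16679168) (l 16677056)) (c (l 16681552) (l 16679480)))) (a (a (c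 (l 16675224) (l 16663248)) (c (l 16677704) (l 16675552))) (a (c (l 16669696) (l 16678080)) (c (l 16672176) (l 16680608))))) (c (a (a (c (l 16683272) (l 16681912)) (b (l 16670024) (c (l 16680640) (l 16668168)))) (c (b (l 16674584) (a (l 16683024) (l 16685408))) (a (l 16686768) (l 16689208)))) (a (a (c (l 16679896) (l 16683136)) (c (l 16682376) (l 16685664))) (a (c (l 16684856) (l 16677712)) (c (l 16687344) (l 16685488)))))) (b (b (a (c (a (c (a (l 16672712) (l 142925344498843855)) (a (l 16671096) (l 16673520))) (c (a (l 142947472175218895) (l 142969599851610383)) (a (l 16675952) (l 16678384)))) (a (a (c (l 16668824) (l 16671800)) (c (l 16671304) (l 16674336))) (a (c (l 16673784) (l 16676864)) (c (l 16676272) (l 16668912))))) (c (a (c (a (l 142991796247462159) (l 143014061362807055)) (a (l 16679504) (l 16681944))) (c (a (l 143036395197628687) (l 143058729032450319)) (a (l 16684376) (l 143037425990746383)))) (a (c (a (l 16678752) (l 16681232)) (a (l 16671448) (l 16673984))) (c (a (l 16683720) (l 16686208)) (a (l 16676520) (l 16679056))))))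 (l 14)) (l 14))))), by decide +kernel⟩

def k17_pm_123_a : ∃ t, chk3 f_pm_123_a t 15 14 1 = true :=
  ⟨(b (a (a (a (c (l 16650936) (l 16599432)) (b (l 16663944) (l 16678336))) (a (b (l 16707648) (l 16728816)) (c (l 16726304) (l 16733016)))) (a (a (b (a (l 16696320) (l 16714920)) (l 16676312)) (a (b (l 16731728) (l 16692992)) (b (l 16708136) (l 16691680)))) (a (a (b (l 16707136) (l 16709928)) (a (b (l 16708552) (l 16709776)) (b (a (l 16709504) (l 16691576)) (l 16711080)))) (a (a (b (l 4) (a (l 16712368) (l 441542579751))) (l 4)) (l 4))))) (b (a (a (a (a (l 16632456) (l 16661512)) (l 16706528)) (a (l 16720376) (l 16723688))) (a (a (a (l 16724400) (l 16721768)) (a (l 16718520) (l 16693992))) (a (a (b (l 16713968) (l 16694568)) (a (l 16713520) (l 16713328))) (a (a (a (l 16713960) (l 16714952)) (a (c (l 16726544) (l 16749184)) (b (l 4) (l 510798957031)))) (l 4))))) (a (a (a (a (l 16664192) (l 16699912)) (l 16710992)) (a (l 16698424) (l 16704624))) (a (a (a (l 16707448) (l 16726344)) (b (l 16720384) (l 16701752))) (a (a (b (l 16717048)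 (l 16741552)) (a (b (l 16717584) (l 16740720)) (b (l 16738064) (l 16720488)))) (a (a (a (l 16718816) (l 16719072)) (a (l 16719568) (b (l 16719320) (l 16742848)))) (a (b (a (c (l 595624581399) (l 614415100503)) (l 4)) (b (a (l 16702104) (l 4)) (l 6))) (l 4)))))))), by decide +kernel⟩

def k18_pm_123_a : ∃ t, chk3 f_pm_123_a t 60 30 1 = true :=
  ⟨(a (a (b (l 16716296) (c (l 16711248) (l 16710744))) (b (c (l 16718704) (l 16701456)) (c (l 16715296) (l 16715176)))) (b (c (l 16725040) (l 16732536)) (c (b (l 16724072) (l 16723776)) (l 16707472)))), by decide +kernel⟩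

def k19_pm_123_a : ∃ t, chk3 f_pm_123_a t 60 62 1 = true :=
  ⟨(a (a (c (b (l 16708736) (l 16705368)) (b (l 16705968) (l 16702152))) (b (c (a (l 16712032) (l 16714584)) (a (l 16709504) (l 16712608))) (c (c (l 16711048) (l 16709600)) (a (l 16705848) (l 16708968))))) (c (b (a (l 16720136) (l 16727288)) (a (l 16717568) (l 16725416))) (b (a (l 16720520) (l 16730664)) (a (l 16716808) (l 16727112))))), by decide +kernel⟩

def k20_pm_123_a : ∃ t, chk3 f_pm_123_a t 120 126 1 = true :=
  ⟨(a (c (c (l 16692008) (l 16700792)) (c (l 16699104) (l 16697424))) (c (b (c (l 16687312) (l 16685792)) (a (l 16683360) (l 16696584))) (b (l 16704512) (a (l 16680072) (l 16693600))))), by decide +kernel⟩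

def k21_pm_123_a : ∃ t, chk3 f_pm_123_a t 240 127 1 = true :=
  ⟨(b (a (c (c (b (l 16699112) (l 16687792)) (l 16691640)) (c (l 16689824) (l 16688024))) (c (b (l 16690136) (c (l 16690184) (l 16688400))) (c (l 16692320) (l 16690560)))) (b (b (c (c (a (l 143081131586748687) (b (l 16700160) (l 143103809018773775))) (a (l 143059759825682703) (b (l 16698352) (l 16688968)))) (c (a (l 16686080) (l 16688576)) (a (l 16681600) (l 16689392)))) (l 14)) (l 14))), by decide +kernel⟩

def k22_pm_123_a : ∃ t, chk3 f_pm_123_a t 241 254 1 = true :=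
  ⟨(a (c (b (l 16692552) (c (l 16692576) (l 16690848))) (c (l 16694808) (l 16693104))) (c (a (b (l 16683920) (c (l 16694408) (l 16692728))) (c (l 16696504) (l 16695008))) (c (a (l 16691496) (l 16683032)) (a (l 16689832) (l 16681552))))), by decide +kernel⟩

def k23_pm_123_a : ∃ t, chk3 f_pm_123_a t 482 255 2 = true :=
  ⟨(b (a (b (c (l 16701848) (l 16700080)) (l 14)) (b (c (l 16703048) (l 16701304)) (c (l 143178781973397775) (l 14)))) (a (l 14) (a (l 14) (c (c (b (l 143325223179043087) (b (l 143327490921169167) (c (c (a (l 143332026406633743) (l 143335324942123279)) (l 14)) (l 14)))) (l 14)) (l 14))))), by decide +kernel⟩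

def k24_pm_123_a : ∃ t, chk3 f_pm_123_a t 966 255 2 = true :=
  ⟨(b (a (b (b (l 16703184) (l 600427539620575767979279)) (c (l 143322749279011087) (l 14))) (b (c (l 16704616) (l 16702928)) (c (l 143218845431546127) (l 143173353134440719)))) (a (c (c (b (l 143331476652638479) (b (l 143333950553211151) (c (a (c (l 143338623477612815) (l 14)) (c (l 143341990732579087) (l 143338898355667215))) (l 14)))) (l 14)) (l 14)) (a (a (c (c (b (l 143335324944105743) (b (l 143337936283615503) (b (l 143339310672855311) (c (l 143343365122244879) (l 14))))) (l 14)) (l 14)) (b (c (b (l 143330995616727311) (l 143332576164282639)) (c (l 143313953183613199) (l 143301995992875279))) (b (c (c (l 143340410185138447) (l 143328178116477199)) (c (l 143315946047815951) (l 143303645259677967))) (c (c (b (c (l 143344876951273743) (l 143338692197466383)) (c (a (a (l 143344464634069263) (l 143345220548411663)) (l 143346938535493903)) (a (a (l 143338211160768783) (l 143338967075111183)) (l 143340685062209807)))) (b (c (l 143332507443659023) (l 143326322689835279))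 (c (a (a (l 143331957687484687) (l 143332782321303823)) (l 143334431588909327)) (a (a (l 143325704214184207) (l 143326528848003343)) (l 143328178115625231))))) (c (b (c (l 143320069216551183) (l 143313884462743823)) (c (a (a (l 143319450740900111) (l 143320206655242511)) (l 143321924642341135)) (a (a (l 143313197267599631) (l 143313953181942031)) (l 143315602449580303)))) (b (c (l 143307630989459727) (l 143301377516175631)) (a (a (b (l 143303576539545871) (c (l 143307081233203471) (l 143300759040442639))) (c (l 143307630989181199) (l 143301308796403983))) (c (l 143309280256803087) (b (l 143302820625154319) (l 143303095502946575)))))))))) (b (c (c (l 143344395916050703) (l 143332438725345551)) (c (l 143320481534640399) (l 143308455624458511))) (b (c (c (l 143347075975053583) (l 143334775186948367)) (c (l 143322474398843151) (l 143310104891261199))) (c (c (b (l 143348519083770127) (b (l 143349274997866767) (c (l 143352917130477839) (l 143346594937717007)))) (b (l 143336080856695055) (b (l 143336699331838223) (c (l 143340272744972559)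 (l 143333950552228111))))) (c (b (l 143323573910159631) (c (a (l 143325223177584911) (l 143329689944064271)) (c (l 143322680556519695) (l 143319519460147471)))) (b (l 143310998244131087) (c (c (l 143316358363775247) (l 143313197267403023)) (c (l 143310036171014415) (l 143306806355165455))))))))))), by decide +kernel⟩

def k25_pm_123_a : ∃ t, chk3 f_pm_123_a t 967 255 4 = true :=
  ⟨(c (b (l 600185714387142571173135) (b (l 143367004626157839) (b (a (l 143360751152283919) (c (l 143382054192283919) (l 143375663280128271))) (b (a (c (l 143365355357356303) (l 143359033164628239)) (a (l 143375869438214415) (b (l 143383978337435919) (l 143383634739953935)))) (a (c (c (l 143368035416965391) (l 143364805601132815)) (c (l 143361644504760591) (l 143358414688928015))) (a (a (b (l 143374357609365775) (a (b (l 143373601694925071) (l 143373876572782863)) (b (l 143375869437886735) (c (l 143379099253653775) (l 143372639622005007))))) (b (c (l 143381779313705231) (l 143375319682072847)) (c (l 143381435716223247) (l 143374976084590863)))) (c (l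 143385902482931983) (l 143379511570792719)))))))) (b (l 600156026646922790642959) (b (l 143354772557660431) (b (a (l 143348244205797647) (c (l 143369272367972623) (l 143362881455833359))) (b (b (a (l 143349274997702927) (a (l 143362744016552207) (l 143371059074187535))) (a (l 143349756033941775) (a (l 143363225052791055) (l 143370715476705551)))) (a (c (c (l 143355184873095439) (l 143352023776739599)) (b (l 143347007254331663) (c (l 143349000119271695) (l 143345839022915855)))) (a (b (a (l 143361438346051855) (c (l 143368791330947343) (l 143362331699314959))) (a (a (c (l 143363980966904079) (l 143357521335238927)) (b (l 143362881455112463) (c (l 143366111270879503) (l 143359582919753999)))) (c (l 143362881455849743) (b (l 143362125540802831) (l 143361850662846735))))) (c (l 143373051939160335) (l 143366661027004687))))))))), by decide +kernel⟩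

def k26_pm_123_a : ∃ t, chk3 f_pm_123_a t 967 255 5 = true :=
  ⟨(c (b (l 600126338906703010112783) (b (l 143342540489146639) (a (b (l 143335737259327759) (c (b (l 143339997867000079) (b (l 143340616342143247) (c (l 143342609207066895) (l 143339379391234319)))) (b (l 143333606954811663) (b (l 143334156710461711) (c (l 143336149575401743) (l 143321649765384463)))))) (b (c (l 143356490543677711) (l 143350168351015183)) (b (a (c (l 143353329446945039) (l 143346869815312655)) (b (l 143358139810939151) (l 143357864932933903))) (a (b (a (l 143348450363277583) (c (l 143355803348205839) (l 143349343716557071))) (a (a (c (l 143350992984113423) (l 143344464632987919)) (b (l 143349824752861455) (c (l 143353054568628495) (c (l 143348175485157647) (l 143344945669341455))))) (a (b (l 143351680178979087) (l 143351405301022991)) (l 143341784574542095)))) (c (l 143360270114865423) (l 143353810483233039)))))))) (b (l 600096939396859381294351) (b (l 143240217186648335) (a (b (l 143323161593381135) (c (b (l 143327284762083599) (a (c (l 143325154457813263)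 (l 143321924641964303)) (c (l 143333950551834895) (l 143330720736002319)))) (b (l 143320893849895183) (a (c (l 143318763545592079) (l 143315533729759503)) (c (l 143327490920169743) (l 143324261104337167)))))) (b (c (l 143343777438859535) (l 143337386526703887)) (b (a (c (l 143340410183663887) (l 143333950552031503)) (b (l 143345220547707151) (l 143344945669685519))) (b (a (a (l 143335462380503311) (c (l 143342815365447951) (l 143336355733799183))) (l 143344464633233679)) (a (a (a (c (l 143338005001339151) (l 143331476650197263)) (b (l 143336768050610447) (a (c (l 143339585549467919) (l 143333057198342415)) (b (l 143337317806457103) (l 143337180367470863))))) (c (b (l 143342677926412559) (l 143342403048456463)) (b (l 143336149575287055) (l 143335943416807695)))) (c (l 143347144693137679) (l 143340753780982031)))))))))), by decide +kernel⟩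

def k27_pm_123_a : ∃ t, chk3 f_pm_123_a t 241 510 3 = true :=
  ⟨(a (b (c (l 16691072) (l 16691944)) (l 14)) (a (b (c (l 16690384) (l 16688680)) (a (l 14) (c (l 143195343363506447) (l 143082162381816079)))) (c (c (l 600067828117460623664399) (l 600038716838061866034447)) (c (l 600009605558663108404495) (l 16696096))))), by decide +kernel⟩

def k28_pm_123_a : ∃ t, chk3 f_pm_123_a t 482 511 3 = true :=
  ⟨(l 14), by decide +kernel⟩

def k29_pm_123_a : ∃ t, chk3 f_pm_123_a t 1932 511 3 = true :=
  ⟨(l 14), by decide +kernel⟩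

def k30_pm_123_a : ∃ t, chk3 f_pm_123_a t 3866 511 3 = true :=
  ⟨(a (l 14) (b (c (b (l 143283647890129167) (l 143284335084454159)) (l 143180980988084495)) (b (c (c (l 143291275752063247) (l 143278837524971791)) (c (l 143266399297880335) (l 143253892351312143))) (a (c (c (b (l 143291000873697551) (c (b (l 143294505567305999) (a (l 143294368128188687) (l 143295124042547471))) (b (l 143288183374545167) (a (l 143288045935427855) (l 143288801849770255))))) (b (l 143278356488159503) (a (a (l 14) (b (l 143278425207439631) (c (l 143281792462143759) (l 143275401549906191)))) (b (l 143279043682828559) (c (l 143282410937532687) (l 143276020025278735)))))) (b (c (l 143265712102637839) (l 143253067717099791)) (c (c (a (c (l 143270385027449103) (l 143267223931060495)) (b (l 143269491674202383) (l 143269629113041167))) (b (l 143262757164515599) (c (a (l 143264062834622735) (l 143264818748981519)) (a (l 143260901738234127) (l 143261588933116175))))) (c (b (l 143256297532784911) (c (a (l 143257671922385167) (l 143258359117267215)) (a (l 143254442106519823)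 (l 143255129301401871)))) (b (l 143249906620547343) (c (a (l 143251212290654479) (l 143251968205013263)) (a (l 143247982474789135) (l 143248738389147919)))))))) (c (c (b (l 143292993738785039) (b (l 143293337336004879) (c (l 143296773310185743) (l 143290382397948175)))) (b (l 143280349353263375) (b (l 143280624230990095) (b (l 143280761669861647) (c (l 143284060205154575) (l 143277669292900623)))))) (c (b (l 143267704967741711) (c (c (l 143272721489985807) (l 143269560393597199)) (c (l 143266330577748239) (l 143263169481359631)))) (b (l 143254991862726927) (b (l 143255060582039823) (c (c (l 143259939665445135) (l 143256778569072911)) (c (l 143253548753207567) (l 143250318937342223))))))))))), by decide +kernel⟩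

def k31_pm_123_a : ∃ t, chk3 f_pm_123_a t 3867 511 3 = true :=
  ⟨(b (c (l 143200291165438223) (l 143176101906137359)) (b (c (c (l 143297666664202511) (l 143285228437143823)) (c (l 143272721490608399) (l 143260145824596239))) (c (b (c (l 143298353858642191) (l 143285709473136911)) (c (c (c (l 143303645258793231) (l 143300484162421007)) (b (l 143295536359473423) (c (l 143297391785459983) (l 143294230689087759)))) (c (b (l 143289214166728975) (c (l 143291000873238799) (l 143287771057389839))) (b (l 143282823254507791) (c (l 143284609961001231) (l 143281380145152271)))))) (b (c (l 143273065087648015) (l 143260283263189263)) (c (c (b (l 143276432342270223) (c (l 143278150329303311) (b (l 143274920513487119) (l 143274989232898319)))) (b (l 143269972710572303) (b (l 143270110149443855) (c (l 143271759417049359) (l 143268529601200399))))) (a (b (l 143247020403704079) (c (c (l 143263169481294095) (l 143259939665445135)) (c (l 143256709849579791) (l 143253480033730831)))) (b (l 143262482286575887) (c (c (l 143267361369964815) (l 143264131554115855))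 (c (l 143260901738266895) (l 143257671922417935)))))))))), by decide +kernel⟩

def k32_pm_123_a : ∃ t, chk3 f_pm_123_a t 967 511 6 = true :=
  ⟨(b (c (l 143227985118134543) (l 143215753049637135)) (a (c (b (l 143310654646911247) (c (b (l 143314502937706767) (a (c (l 143312303913910543) (l 143309142817554703)) (c (l 143321031288504591) (l 143317801472672015)))) (b (l 143308180744978703) (a (c (l 143305913001705743) (l 143302683185873167)) (c (l 143314571656839439) (l 143311341841023247)))))) (b (l 143298078980964623) (b (c (l 143301789832790287) (l 143295398920601871)) (b (c (l 143302064710533391) (l 143295605078851855)) (c (c (a (l 143299590808928527) (l 143308180744601871)) (a (l 143296360993079567) (l 143304950928769295))) (c (a (l 143293131177230607) (l 143301721112936719)) (a (l 143289901361398031) (l 143298422577627407)))))))) (b (b (l 143231283652722959) (c (a (l 143323848787935503) (l 143332370004115727)) (l 143225236337721615))) (b (c (a (c (l 143327490920382735) (l 143321100008227087)) (c (l 143335393661272335) (l 143328934029639951)))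 (b (a (l 143311341841350927) (l 143319450740703503)) (a (l 143311479280189711) (l 143319175862681871)))) (b (c (a (a (l 143322543117222159) (c (l 143329827382690063) (l 143323367751057679))) (l 143331614089478415)) (a (a (l 143309555134447887) (a (l 143312716230787343) (l 143314571656937743))) (l 143318763545706767))) (c (a (a (c (b (l 143325979091386639) (a (l 143325017018532111) (c (l 143328590431781135) (l 143325360615964943)))) (b (l 143319450740261135) (a (l 143318488667390223) (c (l 143322130800132367) (l 143318832264839439))))) (c (b (l 143329689943654671) (l 143329415065698575)) (b (l 143323161592545551) (l 143322955434049807)))) (c (l 143334362868842767) (l 143327903237210383))) (c (a (a (b (l 143312922389135631) (a (l 143311960316264719) (c (l 143315602449023247) (l 143312303913713935)))) (b (l 143316701960896783) (l 143316495802417423))) (l 143315877327978767)) (a (a (b (l 143306394038010127) (a (l 143305431965139215) (c (l 143309074097897743) (l 143305775562588431)))) (b (l 143310173609787663) (l 143309967451291919)))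 (c (l 143316701961093391) (l 143313540864753935)))))))))), by decide +kernel⟩

def k33_pm_123_a : ∃ t, chk3 f_pm_123_a t 967 511 7 = true :=
  ⟨(b (a (l 143217058716057871) (l 143228466151555343)) (c (a (b (l 143285503315017999) (b (c (l 143289008008397071) (l 143282617096208655)) (b (c (l 143289214166663439) (l 143282754534981903)) (c (c (a (l 143286671545549071) (l 143295192761794831)) (a (l 143283441729716495) (l 143291962945962255))) (c (a (l 143274576916775183) (l 143288733130129679)) (a (b (l 143276982098051343) (l 143276982098002191)) (l 143285434594836751))))))) (b (l 143230665174892815) (a (a (b (l 143296429712900367) (b (l 143296567151673615) (c (b (l 143299934406361359) (a (l 143298903614013711) (c (l 143302545746772239) (l 143299247211462927)))) (b (l 143293406055235855) (a (l 143292375262888207) (c (l 143296017395646735) (l 143292787579830543))))))) (b (l 143300621601554703) (b (a (l 143299728248029455) (l 143301652393672975)) (c (b (l 143303713978155279) (l 143303507819659535)) (b (l 143297254346506511) (l 143297048188027151))))))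 (b (c (l 143309623854268687) (l 143303232942129423)) (c (c (l 143310517207433487) (l 143307356111094031)) (c (l 143304126295294223) (l 143300965198954767))))))) (a (b (l 143272927649071375) (c (b (l 143276226184020239) (b (l 143276294903316751) (b (c (l 143277944170889487) (l 143274714355040527)) (c (a (l 143273752282153231) (l 143282204778971407)) (a (l 143270522466320655) (l 143278974963138831)))))) (b (l 143269835271831823) (b (l 143258565277466895) (a (a (c (l 143265162346430735) (l 143261932530581775)) (c (l 143269354235101455) (l 143266124419268879))) (b (l 143274095879717135) (c (l 143275745147306255) (l 143272446611996943)))))))) (b (l 143222212677632271) (b (b (l 143224961456390415) (a (l 143285709473104143) (l 143293543494648079))) (b (a (a (l 143283579168915727) (c (l 143290932153925903) (l 143284403802816783))) (c (l 143296360993472783) (l 143289970081333519))) (c (a (a (b (l 143286877704110351) (a (l 143285846911762703) (c (l 143289489044521231) (l 143286259228705039)))) (b (l 143290725995397391) (l 143290519836901647)))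 (c (l 143297529224659215) (l 143294368128319759))) (a (a (b (l 143280349352984847) (c (a (l 143280967828275471) (l 143282960693412111)) (a (l 143277738012459279) (l 143279730877579535)))) (b (l 143284266363765007) (c (l 143285709472923919) (l 143282410937630991)))) (c (l 143291138312503567) (l 143287977216180495)))))))))), by decide +kernel⟩

def k34_pm_123_a : ∃ t, chk3 f_pm_123_a t 121 126 1 = true :=
  ⟨(c (a (b (l 16693704) (l 16702336)) (b (l 16722392) (l 16709976))) (a (b (l 16713424) (l 16705984)) (b (l 16723176) (c (l 16720576) (l 16720704))))), by decide +kernel⟩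

def k35_pm_123_a : ∃ t, chk3 f_pm_123_a t 121 254 1 = true :=
  ⟨(c (a (a (c (l 16701856) (l 16698032)) (c (l 16702832) (l 16702016))) (c (a (l 16706440) (l 16710048)) (a (l 16706008) (l 16709992)))) (a (a (c (l 16696848) (l 16695680)) (c (l 16701224) (l 16700456))) (c (b (l 16697880) (l 16707248)) (a (l 16705232) (l 16699520))))), by decide +kernel⟩

def k36_pm_123_a : ∃ t, chk3 f_pm_123_a t 121 510 4 = true :=
  ⟨(a (b (a (l 16699504) (l 16701800)) (a (a (l 143280761686540559) (c (l 143250250243211535) (l 143238086894551311))) (l 143323780088217871))) (a (l 143415864194892047) (l 143460188264857807))), by decide +kernel⟩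

def k37_pm_123_a : ∃ t, chk3 f_pm_123_a t 121 511 8 = true :=
  ⟨(a (a (a (b (b (l 143266193157603599) (a (a (l 143390644128219407) (l 143398821746852111)) (l 143408167597048079))) (a (b (b (l 143394561138540815) (l 143393667785146639)) (b (l 143392362114892047) (b (l 143391331322593551) (c (l 143393736504574223) (l 143387483031404815))))) (b (l 143405418817585423) (b (l 143403357232988431) (c (l 143405006500610319) (l 143399027905380623)))))) (b (l 143426034663899407) (b (l 143421911494721807) (c (b (l 143422736128491791) (a (l 143415932899197199) (l 143426859297800463))) (b (l 143417032411234575) (a (l 143410160462446863) (l 143421293019529487))))))) (b (a (l 143447887461138703) (l 143469808977854735)) (a (b (l 143443901730914575) (a (b (l 143436411306754319) (c (l 143437785696403727) (l 143432494296072463))) (c (l 143449399289872655) (l 143444245328544015)))) (b (l 143465891967107343) (a (c (l 143460325688475919) (l 143455446605086991)) (c (l 143471252087095567) (l 143466579162169615))))))) (b (a (a (l 143491661775094031)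 (l 143513514572349647)) (l 143546293768257743)) (a (a (b (l 143487882203332879) (a (c (l 143482178485698831) (l 143477711719252239)) (a (l 143488225800798479) (l 143493723359854799)))) (b (l 143509872439541967) (b (l 143508085732884687) (a (l 143501419942543567) (l 143512415060656335))))) (a (b (l 143531793956290767) (c (l 143531175480787151) (l 143527808226148559))) (b (l 143553646753562831) (c (l 143552822119579855) (l 143549935901376719))))))), by decide +kernel⟩

def k38_pm_123_a : ∃ t, chk3 f_pm_123_a t 121 511 9 = true :=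
  ⟨(a (a (a (b (b (l 143253617491886351) (a (l 143381779314639119) (l 143395660650823951))) (b (a (b (l 143381779314327823) (l 143380954680410383)) (l 143393118029775119)) (c (a (c (l 143383840898711823) (l 143380679802388751)) (a (l 143390781567058191) (l 143396416565100815))) (a (c (l 143377518706065679) (l 143374426329219343)) (c (l 143389063580057871) (l 143386039922704655)))))) (b (l 143414077473636623) (b (l 143410297901793551) (c (b (l 143411328693993743) (a (l 143404388025696527) (l 143415726741242127))) (b (l 143405556257259791) (a (l 143398546869485839) (l 143410229182447887))))))) (b (a (l 143436892343697679) (l 143459775933268239)) (a (b (l 143433250210840847) (a (b (l 143425691067138319) (c (l 143427134176264463) (l 143421842775933199))) (c (l 143439160086675727) (l 143434006125347087)))) (b (l 143456202519871759) (a (c (l 143450567521714447) (l 143445688438325519)) (c (l 143461906237260047) (l 143457302031827215))))))) (b (a (a (l 143482659522838799) (l 143505543112425743)) (l 143539765417590991)) (a (a (b (l 143479154828935439)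 (a (c (l 143473313672298767) (l 143468915625328911)) (a (l 143479773304324367) (l 143485477021843727)))) (b (l 143502107137999055) (b (l 143500389150785743) (a (l 143493585921441999) (l 143505062075973839))))) (a (b (l 143524990727585999) (c (l 143524440971526351) (l 143521142436380879))) (b (l 143547805597696207) (c (l 143547118402650319) (l 143544300903923919))))))), by decide +kernel⟩

def k39_pm_123_a : ∃ t, chk3 f_pm_123_a t 242 255 5 = true :=
  ⟨(b (a (b (l 16699520) (a (l 143279043696738575) (l 143310104904253711))) (b (l 16700864) (l 143347419586199823))) (a (a (b (b (b (l 143280143207809295) (l 143280211927073039)) (a (c (l 143369134929395983) (l 143356490544152847)) (c (l 143383153704616207) (l 143370715477885199)))) (a (b (b (c (l 143369066209591567) (l 143356353104855311)) (c (l 143368241575657743) (l 143355597190398223))) (b (c (l 143367142063816975) (l 143354566398017807)) (a (c (c (l 143366179990831375) (l 143359857798185231)) (c (l 143353535605539087) (l 143347282132369679))) (c (c (l 143372089866813711) (l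 143365905113137423)) (c (l 143359720359461135) (l 143353535605784847)))))) (c (b (l 143380817241981199) (b (l 143379099254735119) (b (l 143378205901390095) (c (l 143380679802814735) (l 143374632488124687))))) (b (l 143368585173664015) (b (l 143366935905894671) (a (c (l 143365836393906447) (l 143359789079200015)) (c (l 143372021147828495) (l 143366042552615183)))))))) (c (b (l 143402257722327311) (b (l 143398684308898063) (a (b (l 143390987726192911) (b (l 143390163092324623) (c (l 143392499554779407) (l 143386727118029071)))) (b (l 143402944917127439) (c (l 143404662904176911) (l 143399096625889551)))))) (b (l 143390437971017999) (b (l 143387139435462927) (c (b (l 143388445105537295) (a (b (l 143381504437207311) (l 143380954681278735)) (l 143393530347618575))) (a (c (l 143377381268128015) (l 143374495049761039)) (a (l 143385352728822031) (l 143391674921713935)))))))) (b (c (l 143347900622176527) (l 143337592699617551)) (a (c (b (l 143422598690767119) (c (b (l 143423560763425039) (a (l 143416482656141583) (l 143428371127582991)))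 (b (l 143418338082603279) (a (l 143411191255810319) (l 143423285885731087))))) (b (l 143412015890186511) (c (b (l 143413115401781519) (a (l 143405899855479055) (l 143418200643862799))) (b (l 143407892720959759) (a (l 143400608455164175) (l 143413184121487631)))))) (c (b (l 143446513072652559) (a (c (l 143440809354936591) (l 143435930271564047)) (c (l 143452697826394383) (l 143448024901484815)))) (b (l 143436892344910095) (a (c (l 143431051188175119) (l 143426240824279311)) (c (l 143443420696051983) (l 143438816490619151))))))))), by decide +kernel⟩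

def k40_pm_123_a : ∃ t, chk3 f_pm_123_a t 243 255 5 = true :=
  ⟨(c (b (l 143471526952648911) (b (a (l 143395660666487055) (l 143533374505894095)) (b (a (a (l 143470427454554383) (l 143494341836456207)) (l 143442939673886927)) (a (b (a (l 143468846906278159) (l 143492830007673103)) (a (a (a (l 143458813860970767) (l 143464792456446223)) (l 143473794709405967)) (c (l 143493654641361103) (l 143489943789273359)))) (a (c (l 143517843901235407) (l 143514545366089935)) (c (l 143541483405197519) (l 143538665906487503))))))) (b (l 143464036529242319) (b (a (l 143387345609113871) (l 143437029799166159)) (b (a (a (l 143461837519143183) (l 143486713973899535)) (l 143445276135702735)) (a (a (a (c (l 143455790203928847) (l 143451392156975375)) (a (l 143462937030852879) (l 143469190504284431))) (b (l 143485270864560399) (c (l 143486164217708815) (l 143482453365621007)))) (a (c (l 143511315550437583) (l 143508017015308495)) (c (l 143535917127254223) (l 143533168348020943)))))))), by decide +kernel⟩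

def k41_pm_123_a : ∃ t, chk3 f_pm_123_a t 121 510 3 = true :=
  ⟨(a (c (a (b (l 16695624) (c (l 143310104900223247) (l 143309692582019343))) (b (l 16699944) (l 143326597582749967))) (a (b (l 16694352) (c (l 143252999012368655) (l 143241522858426639))) (b (l 16699040) (l 143306325335163151)))) (a (c (l 143381504432587023) (l 143410435331129615)) (c (l 143434281021145359) (l 143422461227811087)))), by decide +kernel⟩

def k42_pm_123_a : ∃ t, chk3 f_pm_123_a t 121 1022 3 = true :=
  ⟨(a (a (a (c (b (l 143266605467861263) (c (l 143260901751554319) (l 143248532244267279))) (b (l 143230940056518927) (a (l 143245164986515727) (l 143237743285387535)))) (c (b (l 143374014014357775) (l 143281861195579663)) (l 143294986591813903))) (a (c (l 143320412826665231) (l 143310585917784335)) (c (l 143335462396477711) (l 143338898346967311)))) (a (a (c (l 143361850679984399) (l 143344808248246543)) (c (l 143388238963507471) (l 143373326835908879))) (a (c (l 143414627247030543) (l 143401776704094479)) (c (l 143441015530553551) (l 143430226572296463))))),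 by decide +kernel⟩

def k43_pm_123_a : ∃ t, chk3 f_pm_123_a t 968 1023 3 = true :=
  ⟨(c (c (b (b (l 143267223943069967) (a (l 143342952805122319) (l 143355872068894991))) (b (c (l 143351542740943119) (l 143345357987283215)) (c (a (c (l 143345701584322831) (l 143342609207492879)) (a (l 143353673045016847) (l 143360063957418255))) (a (b (l 143338142440964367) (c (l 143339241952674063) (l 143336080856367375))) (a (l 143347625730326799) (l 143354154081698063)))))) (a (b (b (l 143331064334352655) (l 143330377139339535)) (b (l 143329483785912591) (c (b (l 143331888967811343) (c (l 143332988479521039) (l 143329896102674703))) (b (l 143325635494658319) (c (l 143326735006351631) (l 143323642629521679)))))) (b (l 143344189756506383) (b (l 143342815366611215) (c (c (l 143346388779729167) (l 143343365122375951)) (c (l 143340410184515855) (b (l 143337592685658383) (l 143337180368683279)))))))) (c (a (b (a (l 143224480423706895) (l 143321718484435215)) (b (l 143316908120129807) (c (a (c (l 143317320436760847) (l 143314228059914511)) (a (l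 143320893850206479) (l 143324329824616719))) (a (c (l 143311066963591439) (l 143307905867268367)) (c (l 143318007631888655) (l 143314915255058703)))))) (b (l 143332095127159055) (b (l 143330720737247503) (c (b (l 143333125919129871) (c (l 143334156711330063) (l 143331201773469967))) (a (c (l 143324948300202255) (l 143321924642849039)) (c (l 143331888968515855) (l 143328934030655759))))))) (a (b (l 143238018159673615) (b (c (l 143307562270130447) (l 143301308796977423)) (c (b (l 143306943794659599) (a (c (l 143304607331926287) (l 143301446235603215)) (a (l 143308318184358159) (l 143311822878261519)))) (b (l 143300690321490191) (a (c (l 143298285139280143) (l 143295192762433807)) (c (l 143305431966056719) (l 143302408308703503))))))) (b (l 143320000497795343) (b (l 143318694827360527) (c (a (c (l 143318900985495823) (l 143315877328158991)) (c (l 143325910373302543) (l 143322955435442447))) (a (b (l 143311548000633103) (c (l 143312647512310031) (l 143309623854973199))) (c (l 143320000497582351) (l 143317045559722255))))))))), by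 decide +kernel⟩

def k44_pm_123_a : ∃ t, chk3 f_pm_123_a t 969 1023 3 = true :=
  ⟨(b (c (c (l 143375663281520911) (l 143274164613054735)) (c (l 143262757178589455) (l 143251418463617295))) (c (a (b (c (l 143367760540287247) (l 143356146947326223)) (a (c (c (l 143366454869819663) (l 143360682433069327)) (c (l 143354841276842255) (l 143349000119271695))) (c (c (l 143372845782221071) (l 143367142064963855)) (c (l 143361438347706639) (l 143355734630449423))))) (b (c (l 143380679804059919) (l 143369547247534351)) (c (b (l 143379923889635599) (c (l 143382260352073999) (l 143376694073803023))) (a (c (l 143368104138047759) (l 143362469140300047)) (c (l 143374701208928527) (l 143369272369627407)))))) (c (b (a (l 143344602073858319) (l 143358414691008783)) (a (b (a (l 143340478904500495) (l 143347419572797711)) (c (c (l 143347831889494287) (l 143344945671110927)) (c (l 143342128172220687) (l 143339241953853711)))) (c (a (l 143356902862029071) (l 143363774810849551)) (c (l 143356215667343631) (l 143353466887946511))))) (a (b (l 143333057200390415)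 (c (a (c (l 143332988480602383) (l 143330102262219023)) (a (l 143336905491480847) (l 143340410185400591))) (a (c (l 143327216043852047) (l 143324329825468687)) (c (l 143334431590105359) (l 143331545371754767))))) (b (l 143347419573436687) (b (c (l 143349549877346575) (l 143344052318568719)) (a (b (l 143342884087087375) (c (l 143345495427465487) (l 143339929149194511))) (c (l 143352710973751567) (l 143347282134450447))))))))), by decide +kernel⟩

def k45_pm_123_a : ∃ t, chk3 f_pm_123_a t 485 1023 3 = true :=
  ⟨(b (a (c (c (l 143401501809082639) (l 143390987727978767)) (c (l 143380611085844751) (l 143280143209726223))) (c (c (l 143427340336660751) (l 143417857047888143)) (c (l 143408442478608655) (l 143399096628805903)))) (a (c (b (c (c (l 143402670040137999) (l 143397447359316239)) (c (l 143392224678494479) (l 143387070717165839))) (c (c (a (l 143395248335356175) (l 143408098879652111)) (a (b (l 143390231812997391) (l 143389750776545551)) (l 143403082357276943))) (a (b (l 143382260352778511) (c (l 143384459376230671) (l 143379167975915791)))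 (c (l 143397997115425039) (l 143392980593049871))))) (a (b (c (l 143372296027635983) (l 143361781946482959)) (a (c (c (l 143370715479146767) (l 143365355359338767)) (c (l 143359995239547151) (l 143354703839215887))) (c (c (l 143377587427967247) (l 143372364747145487)) (c (l 143367142066323727) (l 143361988104978703))))) (c (a (c (l 143384871693779215) (l 143379786451927311)) (c (l 143391812362092815) (l 143386795839734031))) (b (l 143376144319545615) (a (c (l 143374288893100303) (l 143369203651248399)) (c (l 143381435719876879) (l 143376487916994831))))))) (a (c (b (c (l 143419437595410703) (l 143409816867619087)) (c (c (l 143420949423931663) (l 143416139060035855)) (c (l 143411328696140047) (l 143406518332244239)))) (b (c (l 143400127420367119) (l 143390575412085007)) (c (c (l 143401707968348431) (l 143396966323929359)) (c (l 143392155960049935) (l 143376144321446159))))) (c (c (c (l 143434212285202703) (l 143429676799246607)) (c (l 143425072593830159) (l 143409267113705743))) (c (b (l 143414077476487439) (c (l 143415520585498895)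 (l 143410985099542799))) (b (l 143405006504624399) (c (l 143406449613619471) (l 143401914127679759)))))))), by decide +kernel⟩

def k46_pm_123_a : ∃ t, chk3 f_pm_123_a t 243 1023 3 = true :=
  ⟨(a (a (b (c (c (l 143453247583731983) (l 143444726367813903)) (c (l 143436342590849295) (l 143427958813901071))) (a (c (c (c (l 143447062829498639) (l 143442733502021903)) (c (l 143438404174561551) (l 143434074847084815))) (c (c (l 143429745519624463) (l 143425484911640847)) (b (l 143419437597180175) (c (l 143420811986665743) (l 143416482659189007))))) (c (c (c (l 143459913373794575) (l 143455790204797199)) (c (l 143451735755276559) (l 143447681305755919))) (c (c (l 143443626856251663) (l 143439572406731023)) (c (l 143435517957226767) (l 143431463507722511)))))) (b (c (c (l 143479154830819599) (l 143471664407216399)) (c (l 143464242703122703) (l 143456889718505743))) (c (c (b (l 143477780440924431) (c (l 143478742513549583) (l 143474962941985039))) (b (l 143470290017321231) (c (l 143471320809390351) (l 143456339963134223)))) (c (a (c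 (l 143457439473402127) (l 143453659901837583)) (b (l 143469877701001487) (l 143469053067018511))) (a (c (l 143449811610796303) (l 143446100758724879)) (a (l 143453178866827535) (l 143466029410189583))))))) (c (c (b (l 143439160101896399) (a (c (l 143504787199656143) (l 143501557384003791)) (a (l 143522585547276495) (l 143535436091588815)))) (b (l 143444451501244623) (a (b (l 143497228056723727) (c (l 143497915251376399) (l 143494754155200783))) (a (l 143516881830346959) (l 143530282130587855))))) (c (b (l 143438610323898575) (a (b (l 143490837144928527) (c (l 143491524339564815) (l 143488363243389199))) (a (l 143511246832926991) (l 143525196889063631)))) (a (b (l 143485889342587151) (b (l 143484514952626447) (a (l 143476406052880655) (l 143490905864913167)))) (c (l 143453247595823375) (l 143453453754122511)))))), by decide +kernel⟩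

def k47_pm_123_a : ∃ t, chk3 f_pm_123_a t 61 30 1 = true :=
  ⟨(a (b (c (l 16732720) (l 16747576)) (c (b (l 16734288) (l 16735672)) (l 16724880))) (b (c (l 16738632) (l 16738984)) (a (c (l 16742168) (l 16757120)) (b (l 16753784) (l 16734904))))), by decide +kernel⟩

def k48_pm_123_a : ∃ t, chk3 f_pm_123_a t 61 62 1 = true :=
  ⟨(a (b (c (a (l 16734016) (l 16740304)) (a (l 16740176) (l 16749000))) (c (b (a (l 16734152) (l 16741528)) (l 16736072)) (b (a (l 16738688) (l 16748488)) (l 16719856)))) (a (b (c (l 16746272) (l 16757416)) (b (c (l 16748544) (l 16757864)) (l 16730616))) (b (c (l 16751888) (l 16765392)) (c (b (l 16755064) (l 16755256)) (b (l 16766696) (l 16765528)))))), by decide +kernel⟩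

def k49_pm_123_a : ∃ t, chk3 f_pm_123_a t 61 126 2 = true :=
  ⟨(a (a (b (l 16730080) (l 16728088)) (c (l 16735768) (l 16737792))) (b (b (l 16749936) (l 16727904)) (a (l 16743480) (l 16751064)))), by decide +kernel⟩

def k50_pm_123_a : ∃ t, chk3 f_pm_123_a t 122 127 2 = true :=
  ⟨(b (a (b (l 16716216) (c (l 16715120) (l 16715576))) (c (l 16728040) (l 16729376))) (b (a (c (a (l 143504374895886543) (l 143548217929531599)) (a (l 143495303925170383) (l 143543407567110351))) (c (a (l 143591648646283471) (l 16727040)) (a (l 16725240) (l 16729872)))) (b (a (c (a (a (l 143576324185014479) (l 143598451860275407)) (l 143541414700204239)) (a (a (l 143566634738614479) (l 143590755279044815)) (l 143559281764843727))) (c (a (l 143584982855893199) (l 143627863816765647)) (a (l 143584364382011599) (l 143631231073206479)))) (a (c (c (a (a (b (l 143575430831358159) (c (l 143574400038912207) (l 143572063576588495))) (c (l 143597008750543055) (l 143595084605178063))) (b (l 143629513068691663) (a (l 143616593804886223) (l 143638034285281487))))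 (a (a (c (l 143570757906628815) (l 143568352724861135)) (c (l 143593160459829455) (l 143591305033957583))) (b (l 143627107887268047) (a (l 143613776306487503) (l 143636247579197647))))) (c (a (a (c (l 143566016262570191) (l 143563679800279247)) (a (l 143582646378905807) (l 143594397411426511))) (b (l 143624840144830671) (a (l 143611096247058639) (l 143634529592606927)))) (a (b (l 143483552892616911) (b (l 143494754166980815) (a (l 143558800716988623) (l 143583471013314767)))) (b (l 143622709841346767) (a (l 143608484907122895) (l 143632880325509327)))))) (c (a (a (b (l 143660986594738383) (c (l 143659406046183631) (l 143658512693444815))) (c (l 143681602440954063) (l 143681671161086159))) (a (c (l 143702561884963023) (l 143703592677933263)) (c (l 143723383889985743) (l 143725308036333775)))) (a (a (b (l 143659406047871183) (a (l 143651503306571983) (l 143663323058585807))) (c (l 143681877320204495) (l 143676517201739983))) (a (c (l 143704692190413007) (l 143705997861355727)) (c (l 143727369621635279) (l 143729568645939407))))))))),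 by decide +kernel⟩

def k51_pm_123_a : ∃ t, chk3 f_pm_123_a t 123 127 2 = true :=
  ⟨(b (a (c (l 16735248) (l 16742608)) (c (b (l 16747968) (l 16736608)) (l 16749096))) (b (a (c (a (l 16730952) (l 16733176)) (a (l 16733800) (l 16737672))) (c (a (l 16739272) (l 16742672)) (a (l 16741472) (l 16739936)))) (a (c (a (b (l 143669920143818959) (a (c (l 143743931017101519) (l 143746748516778191)) (c (l 143764271985737935) (l 143767982838776015)))) (b (l 143711014398099663) (a (c (l 143784338076451023) (l 143788942282834127)) (c (l 143804129289224399) (l 143809626848952527))))) (a (b (l 143677204411105487) (a (c (l 143749772174934223) (l 143752933272076495)) (c (l 143771899850293455) (l 143775954300780751)))) (b (l 143722009517785295) (a (c (l 143793752647696591) (l 143798700451528911)) (c (l 143815261847683279) (l 143821103004877007)))))) (b (c (a (l 143751009140621519) (l 143789835651891407)) (a (l 143765577673703631) (l 143807702709682383))) (a (c (a (c (l 143823645624058063) (l 143829967817654479)) (c (l 143842887080952015) (l 143850033908400335)))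 (a (c (l 143836496169713871) (l 143843161960775887)) (c (l 143857318174851279) (l 143864808599765199)))) (c (c (l 143810039176118479) (l 143823164598239439)) (b (l 143848522077896911) (c (a (l 143876490912186575) (l 143896488283488463)) (l 143849965187662031))))))))), by decide +kernel⟩

def k52_pm_123_a : ∃ t, chk3 f_pm_123_a t 122 63 3 = true :=
  ⟨(b (a (b (l 16732840) (l 16730008)) (b (l 16742488) (l 16739520))) (b (b (a (l 16728056) (l 16737416)) (a (a (l 16719264) (l 16718648)) (a (l 16723272) (l 16727872)))) (b (a (a (c (l 143486988868780239) (l 143479635885162703)) (c (l 143539490558001359) (l 143536535621648591))) (a (c (l 16726784) (l 16730344)) (c (l 16731120) (l 16735056)))) (a (b (a (c (l 143514270477992143) (b (l 143383840933069007) (l 143516881839423695))) (c (l 143555296035995855) (l 143580035027026127))) (b (a (a (c (l 143464380156346575) (l 143478192771023055)) (c (l 143490562281439439) (l 143483896492409039))) (a (c (l 143516606967562447) (l 143512071482671311)) (c (l 143632605448716495) (l 143540040314486991))))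 (a (c (c (b (l 143494960325361871) (a (l 143554333950853327) (l 143579966320017615))) (b (l 143496678312247503) (a (c (l 143551035415855311) (l 143548836392534223)) (l 143576530346213583)))) (c (b (l 143504100015734991) (a (c (l 143546637369229519) (l 143544507065385167)) (l 143573231811395791))) (a (a (l 143534542740111567) (l 143548905113190607)) (c (l 143571238946767055) (l 143569658398851279))))) (c (a (c (l 143606011006157007) (l 143603537105223887)) (c (l 143631368497397967) (l 143629925388779727))) (b (a (l 143540109028720847) (l 143566566032031951)) (a (c (l 143600719606776015) (l 143598520583766223)) (c (l 143628069963186383) (l 143626833013031119)))))))) (b (a (c (l 143606973091365071) (l 143641538979037391)) (c (l 143680365479805135) (l 143696583289389263))) (c (a (a (c (l 143581546881335503) (l 143589587060703439)) (b (l 143683938906636495) (c (l 143681533724000463) (l 143682083480551631)))) (b (a (l 143709296397910223) (l 143734379011244239)) (c (a (l 143706341459361999) (l 143730874316783823)) (a (l 143707853288751311)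 (l 143733279499534543))))) (c (a (b (l 143581478165725391) (a (l 143655763917111503) (l 143682770676089039))) (b (l 143635148086280399) (a (l 143709502557126863) (l 143735890840764623)))) (a (a (c (l 143656725990572239) (l 143656657271423183)) (a (l 143677754154238159) (l 143691704210407631))) (b (l 143637553258348751) (b (a (l 143711839020482767) (l 143739326815912143)) (a (l 143710602069541071) (l 143737952428687567)))))))))))), by decide +kernel⟩

def k53_pm_123_a : ∃ t, chk3 f_pm_123_a t 123 63 3 = true :=
  ⟨(b (a (b (l 16752272) (l 16749040)) (b (l 16762024) (l 16737448))) (b (b (a (l 16746704) (l 16755768)) (a (a (l 16742920) (l 16747416)) (c (l 16752600) (l 16755504)))) (c (b (a (a (l 16735400) (l 16739624)) (a (l 16743752) (l 16742536))) (b (a (a (l 143730324558790863) (l 143778977956806863)) (a (l 143826256965107919) (l 143871611833155791))) (c (a (a (a (l 143756231808188623) (l 143780214909731023)) (a (l 143803854413840591) (l 143827150320533711))) (a (a (l 143850033910300879) (l 143872505183142095)) (a (l 143894495419597007)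 (l 143915867180662991)))) (a (a (b (l 143773549120110799) (a (l 143758499551854799) (l 143783307287265487))) (b (l 143822752274022607) (a (l 143807771425243343) (l 143831891965788367)))) (a (b (l 143870443599233231) (a (l 143855600189407439) (l 143878758657147087))) (b (l 143916142059339983) (a (l 143901436088467663) (l 143923426324922575)))))))) (b (a (a (l 16737080) (l 16741656)) (a (l 16746120) (l 16755712))) (a (b (a (l 143761729368047823) (l 143814299776925903)) (c (a (b (l 143687649775599823) (a (l 143762004246429903) (l 143787774054678735))) (a (a (l 143808321181925583) (l 143820965567856847)) (a (l 143833472514818255) (l 143845910742270159)))) (a (b (l 143692047812821199) (a (a (l 143758980589584591) (l 143772380889874639)) (a (l 143785781190164687) (l 143799044051468495)))) (b (l 143745030541295823) (a (a (l 143812169473818831) (l 143825226176659663)) (c (l 143842955804606671) (b (l 143847078974324943) (l 143845360986947791)))))))) (c (a (b (l 16745528) (a (a (l 143858280250245327) (l 143870443599773903)) (a (l 143882538231136463)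 (l 143894495420842191)))) (b (l 16748352) (a (a (l 143906246453444815) (l 143917791327584463)) (a (l 143929198762737871) (l 143940400039428303))))) (a (b (l 16747920) (b (l 143796295282589903) (b (a (l 143870924636766415) (l 143895869811196111)) (a (a (l 143862815736922319) (l 143875391403376847)) (a (l 143887760911352015) (l 143899992980357327)))))) (b (l 16749576) (b (l 143935177353691343) (b (a (l 143920059071267023) (l 143943492416979151)) (a (c (l 143915729743151311) (l 143920196510236879)) (c (l 143938819491430607) (l 143943629856784591))))))))))))), by decide +kernel⟩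

def k54_pm_123_a : ∃ t, chk3 f_pm_123_a t 62 30 1 = true :=
  ⟨(a (b (a (c (l 16741528) (l 16767016)) (l 16710448)) (a (c (l 16728768) (l 16748472)) (b (l 16757000) (l 16739656)))) (b (a (l 16707568) (l 16705648)) (b (c (l 16744664) (l 16741528)) (a (l 16737568) (l 16736480))))), by decide +kernel⟩

def k55_pm_123_a : ∃ t, chk3 f_pm_123_a t 62 62 1 = true :=
  ⟨(a (a (b (c (l 16756856) (l 16751512)) (a (c (l 16744536) (l 16751936)) (b (l 16748200) (a (l 16748888) (l 16750344))))) (b (l 16743904) (b (l 16747344) (b (l 16749128) (l 16749648))))) (b (a (l 16742080) (l 16741144)) (a (c (l 16741208) (l 16752888)) (b (l 16744648) (l 16746968))))), by decide +kernel⟩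

def k56_pm_123_a : ∃ t, chk3 f_pm_123_a t 62 63 2 = true :=
  ⟨(a (b (a (b (l 16739704) (b (l 16758920) (l 16747272))) (a (l 16751928) (l 16752480))) (c (b (a (a (l 16752648) (l 16745376)) (l 16747520)) (a (b (a (l 16740768) (l 143914973822943311)) (a (b (l 143827356492955727) (a (l 143847216419127375) (l 143865564522741839))) (a (b (l 16752992) (c (l 143934765037912143) (l 143944866803368015))) (a (c (l 143859723372118095) (l 143870581051965519)) (l 143903978717331535))))) (c (b (l 16750968) (a (a (l 143961359480373327) (l 143969949416587343)) (a (l 143978539352834127) (l 143998330563821647)))) (b (l 16752256) (a (a (l 143971392526352463) (l 143979226548174927)) (c (l 143938201022333007) (l 143947959189045327))))))) (b (a (a (l 16756040) (l 16759512)) (l 16761376)) (a (b (a (l 16743544) (l 143962733870727247)) (a (a (c (l 143852645261770959) (l 143885080846467279)) (c (l 143871955438223439) (l 143904940778815567))) (a (c (l 143913255847149647) (l 143924250955268175)) (b (l 16751760) (a (a (l 143972011002413135) (l 143975859293814863))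 (l 143978539353899087)))))) (b (c (l 16753576) (l 16754920)) (a (b (l 16752696) (a (l 143938682058342479) (l 143945485287833679))) (b (l 16753912) (a (l 143952357236817999) (l 143959229185851471))))))))) (b (a (b (l 16764360) (l 16763232)) (b (l 16765176) (l 16765016))) (b (a (c (l 16755240) (l 16763272)) (a (l 16763656) (l 16764888))) (a (b (a (b (l 16760320) (l 16754672)) (a (l 16755904) (l 16756592))) (a (c (b (l 16753360) (b (l 143957442478440527) (a (l 143996956176416847) (l 144005339954282575)))) (b (l 16755192) (a (l 143966101134901327) (l 143972904364507215)))) (a (b (l 16756680) (c (l 143969124791894095) (l 143979776313606223))) (b (l 16758080) (c (l 143977164972392527) (l 143992145820876879)))))) (b (a (a (l 16757296) (l 16758008)) (a (l 16758728) (l 16759456))) (a (c (b (l 16756592) (a (l 143985136433430607) (l 143998536733147215))) (b (l 16757896) (a (l 144004515328180303) (l 144012555508465743)))) (b (c (l 16758248) (l 16760632)) (c (a (l 144006164596801615) (l 144016403800604751)) (b (l 144021420323422287) (a (l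 144050694819381327) (l 144023413188673615))))))))))), by decide +kernel⟩

def k57_pm_123_a : ∃ t, chk3 f_pm_123_a t 124 63 3 = true :=
  ⟨(a (a (b (l 16746264) (b (b (l 16762320) (l 16760352)) (b (c (l 16746416) (l 16759872)) (b (c (l 16752952) (l 143982662524698831)) (c (c (a (l 143936689185833167) (l 143956961435091023)) (b (l 16751576) (a (l 143944729366511823) (l 143965345213219023)))) (c (b (l 16754120) (a (b (l 16755400) (l 143953594181107919)) (b (l 16757256) (l 143974691064234191)))) (b (l 16756032) (c (a (l 143962321556717775) (l 143983899476263119)) (a (a (l 143961840520593615) (l 143972973077807311)) (a (l 143983899476558031) (l 16759112))))))))))) (a (b (l 16749728) (b (l 16764424) (b (a (l 16760784) (l 16761728)) (c (b (l 16758272) (b (l 143984174353186895) (c (l 143974553624215631) (l 143985342584553551)))) (b (l 16761048) (b (l 16757520) (c (a (l 143991252461158607) (l 16759352)) (c (l 144004652761956431) (a (l 16760024) (l 16760928)))))))))) (b (l 16751464) (b (l 16755552) (b (c (l 16750696) (l 16753888)) (b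 (c (l 16757096) (c (l 16756568) (l 16757992))) (c (a (c (l 143990427816607823) (a (l 16759016) (l 144003690688282703))) (b (l 16759160) (l 143997986970288207))) (a (a (c (l 16760296) (c (l 16761272) (l 16761928))) (b (l 16761608) (a (c (l 16760312) (a (l 16761544) (a (l 16761624) (l 16761632)))) (c (l 16760384) (l 16761656))))) (b (l 16761736) (c (l 16760496) (b (l 16761904) (l 16761576)))))))))))) (b (a (l 16751520) (l 16751504)) (b (c (l 16764848) (l 16768432)) (b (b (l 16764112) (c (l 16756520) (l 16759208))) (a (c (b (l 16755192) (c (l 143956686555922511) (a (l 144009256966897743) (l 144014136050647119)))) (b (l 16757768) (c (b (l 16761512) (a (l 144017365867020367) (l 144021420316901455))) (b (l 16762720) (a (a (l 16761880) (l 16762016)) (b (l 16762392) (l 144029735375536207))))))) (c (b (l 16756104) (b (l 143974003877068879) (a (l 144012624221585487) (l 144018053061312591)))) (b (l 16758376) (a (c (l 144027879949058127) (a (l 144036195007758415) (l 144037844275511375))) (b (l 16762944) (c (l 144029666655715407) (l 144037638116966479))))))))))),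 by decide +kernel⟩

def k58_pm_123_a : ∃ t, chk3 f_pm_123_a t 125 63 3 = true :=
  ⟨(b (b (a (l 16773952) (l 16752584)) (a (l 16770952) (l 16771576))) (b (a (c (l 16766144) (l 16769120)) (a (l 16758080) (l 16758776))) (c (b (a (b (l 16753840) (l 16760960)) (a (l 16765448) (l 16756032))) (a (a (b (l 16757088) (a (l 143991389897785423) (l 143996750018084943))) (b (l 16758136) (b (l 143995032041324623) (a (l 143989328323428431) (l 143994825882779727))))) (a (b (l 16761872) (b (l 144028223550996559) (a (l 144011593436332111) (l 144017090995748943)))) (b (l 16763056) (b (l 144038737633476687) (a (l 144025337334267983) (l 144033514953326671))))))) (b (a (c (l 16760352) (l 16761472)) (a (l 16756744) (l 16757560))) (a (a (a (c (l 143995375633203279) (c (l 144001354227155023) (l 144005477399445583))) (c (l 144021832632598607) (a (l 144005752277368911) (l 144007401545171023)))) (b (l 16762424) (b (l 144028979460505679) (a (c (l 144042585920061519) (l 144048152199168079)) (c (l 144047052687048783) (l 144051931771240527)))))) (b (a (l 16763280)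 (l 16764216)) (a (b (l 144041142809755727) (a (c (l 144051519454085199) (l 144055711343378511)) (c (l 144056054940631119) (l 144059628354502735)))) (a (b (l 16765968) (c (l 144060590427226191) (l 144063545365676111))) (c (l 144038462757257295) (a (l 144068287010799695) (l 144070279876132943))))))))))), by decide +kernel⟩

def k59_pm_123_a : ∃ t, chk3 f_pm_123_a t 126 30 1 = true :=
  ⟨(b (a (l 16704640) (b (l 16701880) (l 16727872))) (a (b (l 16731752) (l 16736336)) (b (l 16732376) (l 16737024)))), by decide +kernel⟩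

def k60_pm_123_a : ∃ t, chk3 f_pm_123_a t 126 62 1 = true :=
  ⟨(c (a (b (l 16756248) (l 16761960)) (b (l 16757360) (l 16741936))) (a (b (l 16767848) (l 16750152)) (b (l 16746936) (l 16749928)))), by decide +kernel⟩

def k61_pm_123_a : ∃ t, chk3 f_pm_123_a t 126 126 1 = true :=
  ⟨(a (b (a (l 16748640) (l 16748728)) (c (l 16756384) (l 16761872))) (b (a (l 16748744) (l 16749016)) (a (c (l 16768280) (l 16773080)) (b (l 16750328) (l 16761000))))), by decide +kernel⟩

def k62_pm_123_a : ∃ t, chk3 f_pm_123_a t 126 254 1 = true :=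
  ⟨(a (c (a (l 16766144) (l 16762168)) (a (l 16764792) (l 16765624))) (a (b (l 16759880) (b (l 16770096) (l 16764656))) (b (l 16760896) (b (l 16771232) (l 16765864))))), by decide +kernel⟩

def k63_pm_123_a : ∃ t, chk3 f_pm_123_a t 252 255 1 = true :=
  ⟨(b (c (a (a (l 16760184) (l 16760912)) (c (l 16761512) (l 16762528))) (a (b (l 16768584) (l 16762744)) (b (l 16769616) (l 16763856)))) (b (c (a (c (l 16761208) (l 16763392)) (c (l 16762864) (l 16764856))) (a (c (l 16764288) (l 16765888)) (c (l 16766224) (l 16767792)))) (c (a (c (b (l 144029941540175951) (a (l 144060109389512783) (l 144067118777909327))) (b (l 144044991107006543) (a (l 144029666662629455) (c (l 16765920) (l 144070211155755087))))) (c (a (a (l 144072135301054543) (l 144075365117329487)) (c (l 144079831884415055) (l 144080450360131663))) (c (a (l 144075296398196815) (l 144092338830049359)) (b (l 144034545749917775) (a (l 144075846154387535) (l 144081343714082895)))))) (c (c (a (a (l 144033171357188175) (l 144038531477798991)) (a (a (l 144076189752115279) (l 144078732373475407))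 (l 144059971957407823))) (a (a (l 144035164222767183) (l 144045678304018511)) (a (l 144056054946349135) (a (l 144082030909571151) (l 144084298652991567))))) (a (a (b (l 16764400) (c (l 144069592681021519) (a (l 144070486034677839) (l 144072410180567119)))) (b (l 16764960) (c (l 144079694445330511) (l 144052893850026063)))) (b (c (l 144060521713844303) (l 144061689945538639)) (a (c (a (l 144077357984055375) (l 144079488288473167)) (l 144058185250881615)) (b (l 144061071470067791) (c (l 144082099629408335) (l 144059903238815823)))))))))), by decide +kernel⟩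

def k64_pm_123_a : ∃ t, chk3 f_pm_123_a t 253 255 1 = true :=
  ⟨(b (c (a (c (l 16763064) (l 16763904)) (c (l 16764584) (l 16765296))) (a (b (l 16770696) (l 16767632)) (c (l 16766024) (l 16772024)))) (b (c (a (c (l 16765808) (l 16766992)) (a (l 16767240) (l 16768008))) (b (a (l 16768600) (l 16769856)) (a (c (l 16766800) (l 16767312)) (c (l 16768168) (l 16769848))))) (a (a (c (b (c (l 16768072) (l 16768472)) (a (c (l 144084848407756879) (l 144085192005779535)) (c (l 144087734626648143) (l 144087803346698319)))) (b (c (l 16768896) (l 16767376)) (c (c (l 144086635115675727) (l 144064232566587471)) (c (l 144067118784954447) (a (l 144086016641089615) (l 144087872067584079)))))) (c (c (c (l 144069249088536655) (l 144069249088815183)) (a (l 144068080857759823) (l 144070486040232015))) (b (c (l 16769592) (l 16767992)) (a (c (l 144067599821865039) (a (l 144068905492332623) (l 144070623479578703))) (c (l 144069730126381135) (c (l 144091857798250575) (l 144091582920605775))))))) (c (a (a (c (l 144073922014380111) (l 144074952807006287))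 (b (l 16770064) (c (l 144098523587952719) (l 144097492796112975)))) (a (b (l 16770464) (c (l 144100928770490447) (l 144099691820171343))) (b (l 16770856) (c (l 144103196514074703) (l 144101822124752975))))) (a (b (c (l 16770288) (l 16768624)) (a (c (l 144071860430897231) (c (l 144093781944287311) (l 144070829639270479))) (c (l 144076739514482767) (c (l 144095637370847311) (l 144078251343429711))))) (b (c (l 16771000) (l 16769600)) (c (b (l 144077220551999567) (c (l 144077014393372751) (l 144081824756842575))) (b (l 144085192011628623) (c (a (l 144097011760971855) (l 144098798468071503)) (a (l 144096187127365711) (l 144097905114972239))))))))))), by decide +kernel⟩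

def k65_pm_123_a : ∃ t, chk3 f_pm_123_a t 127 15 1 = true :=
  ⟨(a (b (a (b (b (b (l 16723992) (l 16725576)) (l 16728280)) (b (l 16754512) (l 16738192))) (l 6)) (a (a (a (a (b (b (l 16763312) (l 16746488)) (a (b (b (l 16770232) (l 16761296)) (b (c (l 16770616) (l 16773200)) (b (b (l 16771664) (l 16766304)) (b (c (l 16771064) (l 16771776)) (c (c (l 144104296026161231) (l 144103196514811983)) (c (l 144086635121229903) (c (l 144101272370004047) (l 144083817623076943)))))))) (l 6))) (l 6)) (l 6)) (l 6)) (l 6))) (l 6)), by decide +kernel⟩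

theorem s66_pm_123_a : ∃ t, chk3 f_pm_123_a t 126 255 1 = true := ex3_a k63_pm_123_a k64_pm_123_a

theorem s67_pm_123_a : ∃ t, chk3 f_pm_123_a t 126 127 1 = true := ex3_b k62_pm_123_a s66_pm_123_a

theorem s68_pm_123_a : ∃ t, chk3 f_pm_123_a t 126 63 1 = true := ex3_b k61_pm_123_a s67_pm_123_a

theorem s69_pm_123_a : ∃ t, chk3 f_pm_123_a t 126 31 1 = true := ex3_b k60_pm_123_a s68_pm_123_a

theorem s70_pm_123_a : ∃ t, chk3 f_pm_123_a t 126 15 1 = true := ex3_b k59_pm_123_a s69_pm_123_a

theorem s71_pm_123_a : ∃ t, chk3 f_pm_123_a t 63 15 1 = true := ex3_a s70_pm_123_a k65_pm_123_a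

theorem s72_pm_123_a : ∃ t, chk3 f_pm_123_a t 62 63 3 = true := ex3_a k57_pm_123_a k58_pm_123_a

theorem s73_pm_123_a : ∃ t, chk3 f_pm_123_a t 62 63 1 = true := ex3_c k56_pm_123_a s72_pm_123_a

theorem s74_pm_123_a : ∃ t, chk3 f_pm_123_a t 62 31 1 = true := ex3_b k55_pm_123_a s73_pm_123_a

theorem s75_pm_123_a : ∃ t, chk3 f_pm_123_a t 62 15 1 = true := ex3_b k54_pm_123_a s74_pm_123_a

theorem s76_pm_123_a : ∃ t, chk3 f_pm_123_a t 31 15 1 = true := ex3_a s75_pm_123_a s71_pm_123_a

theorem s77_pm_123_a : ∃ t, chk3 f_pm_123_a t 61 63 3 = true := ex3_a k52_pm_123_a k53_pm_123_a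

theorem s78_pm_123_a : ∃ t, chk3 f_pm_123_a t 61 127 2 = true := ex3_a k50_pm_123_a k51_pm_123_a

theorem s79_pm_123_a : ∃ t, chk3 f_pm_123_a t 61 63 2 = true := ex3_b k49_pm_123_a s78_pm_123_a

theorem s80_pm_123_a : ∃ t, chk3 f_pm_123_a t 61 63 1 = true := ex3_c s79_pm_123_a s77_pm_123_a

theorem s81_pm_123_a : ∃ t, chk3 f_pm_123_a t 61 31 1 = true := ex3_b k48_pm_123_a s80_pm_123_a

theorem s82_pm_123_a : ∃ t, chk3 f_pm_123_a t 61 15 1 = true := ex3_b k47_pm_123_a s81_pm_123_a

theorem s83_pm_123_a : ∃ t, chk3 f_pm_123_a t 484 1023 3 = true := ex3_a k43_pm_123_a k44_pm_123_a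

theorem s84_pm_123_a : ∃ t, chk3 f_pm_123_a t 242 1023 3 = true := ex3_a s83_pm_123_a k45_pm_123_a

theorem s85_pm_123_a : ∃ t, chk3 f_pm_123_a t 121 1023 3 = true := ex3_a s84_pm_123_a k46_pm_123_a

theorem s86_pm_123_a : ∃ t, chk3 f_pm_123_a t 121 511 3 = true := ex3_b k42_pm_123_a s85_pm_123_a

theorem s87_pm_123_a : ∃ t, chk3 f_pm_123_a t 121 255 3 = true := ex3_b k41_pm_123_a s86_pm_123_a

theorem s88_pm_123_a : ∃ t, chk3 f_pm_123_a t 121 255 5 = true := ex3_a k39_pm_123_a k40_pm_123_a

theorem s89_pm_123_a : ∃ t, chk3 f_pm_123_a t 121 511 4 = true := ex3_c k37_pm_123_a k38_pm_123_a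

theorem s90_pm_123_a : ∃ t, chk3 f_pm_123_a t 121 255 4 = true := ex3_b k36_pm_123_a s89_pm_123_a

theorem s91_pm_123_a : ∃ t, chk3 f_pm_123_a t 121 255 2 = true := ex3_c s90_pm_123_a s88_pm_123_a

theorem s92_pm_123_a : ∃ t, chk3 f_pm_123_a t 121 255 1 = true := ex3_c s91_pm_123_a s87_pm_123_a

theorem s93_pm_123_a : ∃ t, chk3 f_pm_123_a t 121 127 1 = true := ex3_b k35_pm_123_a s92_pm_123_a

theorem s94_pm_123_a : ∃ t, chk3 f_pm_123_a t 121 63 1 = true := ex3_b k34_pm_123_a s93_pm_123_a

theorem s95_pm_123_a : ∃ t, chk3 f_pm_123_a t 967 511 3 = true := ex3_c k32_pm_123_a k33_pm_123_a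

theorem s96_pm_123_a : ∃ t, chk3 f_pm_123_a t 1933 511 3 = true := ex3_a k30_pm_123_a k31_pm_123_a

theorem s97_pm_123_a : ∃ t, chk3 f_pm_123_a t 966 511 3 = true := ex3_a k29_pm_123_a s96_pm_123_a

theorem s98_pm_123_a : ∃ t, chk3 f_pm_123_a t 483 511 3 = true := ex3_a s97_pm_123_a s95_pm_123_a

theorem s99_pm_123_a : ∃ t, chk3 f_pm_123_a t 241 511 3 = true := ex3_a k28_pm_123_a s98_pm_123_a

theorem s100_pm_123_a : ∃ t, chk3 f_pm_123_a t 241 255 3 = true := ex3_b k27_pm_123_a s99_pm_123_a

theorem s101_pm_123_a : ∃ t, chk3 f_pm_123_a t 967 255 2 = true := ex3_c k25_pm_123_a k26_pm_123_a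

theorem s102_pm_123_a : ∃ t, chk3 f_pm_123_a t 483 255 2 = true := ex3_a k24_pm_123_a s101_pm_123_a

theorem s103_pm_123_a : ∃ t, chk3 f_pm_123_a t 241 255 2 = true := ex3_a k23_pm_123_a s102_pm_123_a

theorem s104_pm_123_a : ∃ t, chk3 f_pm_123_a t 241 255 1 = true := ex3_c s103_pm_123_a s100_pm_123_a

theorem s105_pm_123_a : ∃ t, chk3 f_pm_123_a t 241 127 1 = true := ex3_b k22_pm_123_a s104_pm_123_a

theorem s106_pm_123_a : ∃ t, chk3 f_pm_123_a t 120 127 1 = true := ex3_a k21_pm_123_a s105_pm_123_a

theorem s107_pm_123_a : ∃ t, chk3 f_pm_123_a t 120 63 1 = true := ex3_b k20_pm_123_a s106_pm_123_a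

theorem s108_pm_123_a : ∃ t, chk3 f_pm_123_a t 60 63 1 = true := ex3_a s107_pm_123_a s94_pm_123_a

theorem s109_pm_123_a : ∃ t, chk3 f_pm_123_a t 60 31 1 = true := ex3_b k19_pm_123_a s108_pm_123_a

theorem s110_pm_123_a : ∃ t, chk3 f_pm_123_a t 60 15 1 = true := ex3_b k18_pm_123_a s109_pm_123_a

theorem s111_pm_123_a : ∃ t, chk3 f_pm_123_a t 30 15 1 = true := ex3_a s110_pm_123_a s82_pm_123_a

theorem s112_pm_123_a : ∃ t, chk3 f_pm_123_a t 15 15 1 = true := ex3_a s111_pm_123_a s76_pm_123_a

theorem s113_pm_123_a : ∃ t, chk3 f_pm_123_a t 15 7 1 = true := ex3_b k17_pm_123_a s112_pm_123_a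

theorem s114_pm_123_a : ∃ t, chk3 f_pm_123_a t 59 15 1 = true := ex3_b k15_pm_123_a k16_pm_123_a

theorem s115_pm_123_a : ∃ t, chk3 f_pm_123_a t 58 15 1 = true := ex3_b k13_pm_123_a k14_pm_123_a

theorem s116_pm_123_a : ∃ t, chk3 f_pm_123_a t 29 15 1 = true := ex3_a s115_pm_123_a s114_pm_123_a

theorem s117_pm_123_a : ∃ t, chk3 f_pm_123_a t 29 7 1 = true := ex3_b k12_pm_123_a s116_pm_123_a

theorem s118_pm_123_a : ∃ t, chk3 f_pm_123_a t 28 31 1 = true := ex3_a k10_pm_123_a k11_pm_123_a

theorem s119_pm_123_a : ∃ t, chk3 f_pm_123_a t 28 15 1 = true := ex3_b k9_pm_123_a s118_pm_123_a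

theorem s120_pm_123_a : ∃ t, chk3 f_pm_123_a t 28 7 1 = true := ex3_b k8_pm_123_a s119_pm_123_a

theorem s121_pm_123_a : ∃ t, chk3 f_pm_123_a t 14 7 1 = true := ex3_a s120_pm_123_a s117_pm_123_a

theorem s122_pm_123_a : ∃ t, chk3 f_pm_123_a t 7 7 1 = true := ex3_a s121_pm_123_a s113_pm_123_a

theorem s123_pm_123_a : ∃ t, chk3 f_pm_123_a t 7 3 1 = true := ex3_b k7_pm_123_a s122_pm_123_a

theorem s124_pm_123_a : ∃ t, chk3 f_pm_123_a t 6 3 1 = true := ex3_b k5_pm_123_a k6_pm_123_a

theorem s125_pm_123_a : ∃ t, chk3 f_pm_123_a t 3 3 1 = true := ex3_a s124_pm_123_a s123_pm_123_a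

theorem s126_pm_123_a : ∃ t, chk3 f_pm_123_a t 3 1 1 = true := ex3_b k4_pm_123_a s125_pm_123_a

theorem s127_pm_123_a : ∃ t, chk3 f_pm_123_a t 2 7 1 = true := ex3_a k2_pm_123_a k3_pm_123_a

theorem s128_pm_123_a : ∃ t, chk3 f_pm_123_a t 2 3 1 = true := ex3_b k1_pm_123_a s127_pm_123_a

theorem s129_pm_123_a : ∃ t, chk3 f_pm_123_a t 2 1 1 = true := ex3_b k0_pm_123_a s128_pm_123_a

theorem s130_pm_123_a : ∃ t, chk3 f_pm_123_a t 1 1 1 = true := ex3_a s129_pm_123_a s126_pm_123_a

theorem c_pm_123_a : CertB 536870912 536870912 0 536870912 966367641 24778659 3 eng mog cd0q1 cd1q2a pd3 true true false .npn 1 2 3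
    ndB0q1 ndB1q2a pcB3 cut_pm_123_a xt_pm_123_a :=
  certB2 (fam := true) (s1 := true) (s2 := false) (a := 1) (b := 2) (c := 3) (cn := .npn) (n1 := ndB0q1) (n2 := ndB1q2a) (pc := pcB3) (cut := cut_pm_123_a) (xt := xt_pm_123_a) (P1 := 536870912) (W1 := 536870912) (P2 := 0) (W2 := 536870912) (P3 := 966367641) (W3 := 24778659) (N0 := 3) (En := eng) (mo := mog) (C1 := cd0q1) (C2 := cd1q2a) (C3 := pd3)
    rfl (fun _ => rfl) s130_pm_123_a

noncomputable def cut_pm_123_b : Cut := Cut.of [[⟨0, 1, 0, 47710208⟩, ⟨1, 1, 0, 47710208⟩, ⟨2, 2, 0, 8388608⟩], [⟨0, 0, 1, 46137344⟩, ⟨1, 1, 0, 2097152⟩, ⟨2, 1, 1, 46137344⟩, ⟨0, 0, 0, 1013612281⟩, ⟨0, 1, 0, 128849018⟩, ⟨2, 1, 0, 1013612281⟩, ⟨2, 2, 0, 128849018⟩]]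

noncomputable def f_pm_123_b : ℕ → ℕ → ℕ → ℕ → Bool := onCell 1610612736 536870912 1239849684 370763052 966367641 24778659
    (rowB 3 eng mog cd0q1 cd1q2b pd3 2 true true false .npn 1 2 3 (qsf 536870912 536870912 1239849684 370763052 3) ndB0q1 ndB1q2b pcB3 cut_pm_123_b Ext.none)

def k0_pm_123_b : ∃ t, chk3 f_pm_123_b t 1 1 1 = true :=
  ⟨(a (b (a (l 1) (b (b (b (a (a (c (l 16452928) (l 16263584)) (c (l 16459800) (l 16289112))) (a (c (l 16474840) (a (l 16317000) (l 16345824))) (c (l 16502832) (l 16402544)))) (a (a (l 1) (c (l 16475400) (l 16307448))) (a (c (l 16493936) (l 16276848)) (c (l 16524664) (l 16437448))))) (a (l 1) (a (a (c (l 16508408) (l 16388360)) (l 16353680)) (c (l 16547560) (l 16398736))))) (a (l 1) (a (l 1) (b (c (l 16556472) (l 16527472)) (l 1)))))) (l 1)) (b (a (a (b (a (b (a (b (l 16498088) (l 16527336)) (b (l 16527680) (l 16557184))) (c (l 16587312) (l 16560472))) (b (a (b (l 16558464) (l 16588064)) (b (l 16590376) (l 16619800))) (c (l 16632200) (l 16616184)))) (a (b (c (l 16591480) (l 16602904)) (l 1))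 (b (a (l 16637104) (l 16640592)) (l 16552136)))) (b (a (b (a (b (l 16623360) (l 16652112)) (b (l 16657352) (l 16684200))) (a (l 16678120) (l 16689568))) (b (a (b (l 16650104) (l 16712192)) (b (a (l 16717512) (l 16732144)) (l 16717024))) (a (l 16682768) (b (l 16665952) (l 16658544))))) (a (b (l 16612144) (c (l 16538560) (l 16591176))) (b (a (l 16621400) (l 16622360)) (a (l 16564704) (l 4)))))) (a (b (a (b (b (a (c (l 16690464) (l 16741712)) (a (c (l 16706648) (l 16736328)) (b (l 16739296) (l 4)))) (a (l 16708552) (l 4))) (a (b (l 16683664) (l 4)) (l 4))) (l 4)) (l 4)) (l 4))) (a (a (l 1) (b (a (b (l 16494520) (l 1)) (l 4)) (l 1))) (l 4)))), by decide +kernel⟩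

theorem c_pm_123_b : CertB 536870912 536870912 1239849684 370763052 966367641 24778659 3 eng mog cd0q1 cd1q2b pd3 true true false .npn 1 2 3
    ndB0q1 ndB1q2b pcB3 cut_pm_123_b Ext.none :=
  certB2 (fam := true) (s1 := true) (s2 := false) (a := 1) (b := 2) (c := 3) (cn := .npn) (n1 := ndB0q1) (n2 := ndB1q2b) (pc := pcB3) (cut := cut_pm_123_b) (xt := Ext.none) (P1 := 536870912) (W1 := 536870912) (P2 := 1239849684) (W2 := 370763052) (P3 := 966367641) (W3 := 24778659) (N0 := 3) (En := eng) (mo := mog) (C1 := cd0q1) (C2 := cd1q2b) (C3 := pd3)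
    rfl (fun _ => rfl) k0_pm_123_b

noncomputable def f_pm_133 : ℕ → ℕ → ℕ → ℕ → Bool := onCell 536870912 536870912 1610612736 536870912 966367641 24778659
    (rowB 3 eng mog cd0q1 cd1q3 pd3 0 true true false .dn 1 3 3 (qsf 536870912 536870912 1610612736 536870912 3) ndB0q1 ndB1q3 pcB3 Cut.none Ext.none)

def k0_pm_133 : ∃ t, chk3 f_pm_133 t 1 1 1 = true :=
  ⟨(l 4), by decide +kernel⟩

theorem c_pm_133 : CertB 536870912 536870912 1610612736 536870912 966367641 24778659 3 eng mog cd0q1 cd1q3 pd3 true true false .dn 1 3 3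
    ndB0q1 ndB1q3 pcB3 Cut.none Ext.none :=
  certB0 (fam := true) (s1 := true) (s2 := false) (a := 1) (b := 3) (c := 3) (cn := .dn) (n1 := ndB0q1) (n2 := ndB1q3) (pc := pcB3) (cut := Cut.none) (xt := Ext.none) (P1 := 536870912) (W1 := 536870912) (P2 := 1610612736) (W2 := 536870912) (P3 := 966367641) (W3 := 24778659) (N0 := 3) (En := eng) (mo := mog) (C1 := cd0q1) (C2 := cd1q3) (C3 := pd3)
    rfl k0_pm_133

noncomputable def cut_pm_202 : Cut := Cut.of [[⟨0, 1, 0, 53687091⟩, ⟨1, 0, 0, 53687091⟩, ⟨2, 1, 0, 53687091⟩]]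

noncomputable def f_pm_202 : ℕ → ℕ → ℕ → ℕ → Bool := onCell 0 536870912 1073741824 536870912 966367641 24778659
    (rowB 3 eng mog cd0q2 cd1q0 pd2 1 true true false .pp 2 0 2 (qsf 0 536870912 0 536870912 2) ndB0q2 ndB1q0 pcB2 cut_pm_202 Ext.none)

def k0_pm_202 : ∃ t, chk3 f_pm_202 t 2 2 1 = true :=
  ⟨(a (b (l 1) (b (b (b (l 1) (b (a (l 1) (a (l 1) (a (l 16085144) (l 16088032)))) (c (a (a (l 16148848) (l 16145888)) (a (l 16128144) (l 16158312))) (a (l 16157016) (l 16127712))))) (c (a (b (a (c (l 16175280) (l 16228304)) (l 16112824)) (c (l 16243208) (l 16297312))) (b (a (l 16177104) (l 16205416)) (l 16143744))) (a (b (a (l 16227800) (l 16246072)) (l 16214592)) (b (a (l 16270584) (l 16260240)) (c (l 16326024) (l 16365480)))))) (b (a (c (b (l 16160008) (l 16238016)) (b (l 16295576) (l 16237760))) (c (a (l 16232240) (l 16256576)) (l 16230112))) (b (a (a (l 16192040) (l 16214688)) (l 16246080)) (a (c (l 16443120) (l 16130720)) (l 16158296)))))) (b (b (l 1) (b (l 1) (a (l 1) (b (l 1) (a (l 1) (c (b (l 1) (l 306048774807)) (l 183105101175)))))))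 (b (b (a (b (b (l 1) (a (a (l 1) (l 16110536)) (a (l 16119496) (l 16130272)))) (c (a (l 251824575271) (l 16180128)) (a (l 16191280) (l 16200568)))) (b (a (c (l 243771552743) (l 16139640)) (c (l 16130104) (l 16189392))) (a (c (l 16208600) (l 16217728)) (c (l 16245608) (l 16245872))))) (a (c (b (a (l 16218712) (l 16239136)) (l 16232864)) (b (a (l 16258264) (l 16266768)) (l 16282352))) (b (a (l 16151104) (l 16290936)) (a (l 16309296) (l 16341560))))) (b (a (c (l 16212048) (l 16293192)) (a (l 16212736) (l 16281408))) (a (c (l 16489832) (l 16373560)) (c (l 16490656) (l 16398056))))))), by decide +kernel⟩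

def k1_pm_202 : ∃ t, chk3 f_pm_202 t 2 3 1 = true :=
  ⟨(b (b (a (b (a (c (l 16240472) (b (l 16208232) (l 16171832))) (c (l 16240528) (a (l 16056528) (l 16187448)))) (a (c (l 16332984) (l 16133096)) (c (c (l 16331784) (l 16226888)) (a (l 16061416) (l 16047816))))) (a (b (c (l 16382048) (l 16184584)) (c (l 16279336) (l 16084416))) (b (c (l 16384720) (l 16256840)) (c (l 16283728) (l 16120224))))) (a (b (c (a (l 16297840) (l 16051608)) (a (l 16102024) (b (l 15997512) (l 15975600)))) (a (c (l 16278840) (l 16092936)) (c (l 16186840) (l 15960128)))) (a (b (c (l 16100256) (a (l 15940496) (l 15962072))) (c (l 16028368) (a (l 15859904) (l 15839464)))) (c (b (l 16188568) (l 16100048)) (b (l 15989624) (l 15866400)))))) (a (b (c (b (a (l 16274984) (l 16173040)) (l 15978112)) (b (a (l 16104456) (l 15958648)) (a (l 16135576) (l 15977944)))) (b (a (l 16060368) (c (l 16191048) (l 16016936))) (a (l 16131864) (l 15938760)))) (b (a (b (c (l 16047680) (a (l 15840288) (l 15766992))) (c (l 16056288) (l 15805040))) (b (c (l 16019800) (l 15753792))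 (c (l 15962304) (a (l 15680400) (l 15659080))))) (a (b (c (l 16064376) (l 15833296)) (c (l 16086936) (l 15880536))) (b (a (l 15825336) (c (l 15903504) (l 15601256))) (c (l 15940760) (l 15667296))))))), by decide +kernel⟩

def k2_pm_202 : ∃ t, chk3 f_pm_202 t 6 8 1 = true :=
  ⟨(l 1), by decide +kernel⟩

def k3_pm_202 : ∃ t, chk3 f_pm_202 t 7 16 1 = true :=
  ⟨(a (l 1) (l 6)), by decide +kernel⟩

def k4_pm_202 : ∃ t, chk3 f_pm_202 t 7 34 1 = true :=
  ⟨(a (a (l 1) (a (l 1) (l 6))) (l 6)), by decide +kernel⟩

def k5_pm_202 : ∃ t, chk3 f_pm_202 t 14 35 1 = true :=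
  ⟨(a (b (l 1) (a (l 1) (a (b (l 1) (a (b (l 1) (c (l 16355952) (l 16324104))) (c (b (l 310344134023) (l 16369232)) (b (l 299069799447) (l 16335880))))) (b (b (a (l 1) (b (a (l 1) (c (l 16384160) (l 16365160))) (c (c (l 160557172519) (l 156262186695)) (c (l 151967201383) (l 133176689591))))) (c (a (c (l 307659793159) (l 304975421335)) (b (a (l 16385768) (l 16392688)) (l 16390864))) (a (c (l 298532940471) (l 16335728)) (b (a (l 16352768) (l 16358992)) (l 16356792))))) (b (c (c (l 16384200) (l 16377912)) (c (l 16360752) (l 16343200))) (c (l 16379104) (l 16353944))))))) (a (b (b (a (l 1) (a (b (l 1) (c (c (l 251288433607) (b (l 193843207559) (l 226592332167))) (c (a (l 182032025767) (l 275447572759)) (a (l 171831459495) (l 265247008327))))) (b (l 6) (b (l 6) (c (l 16434856) (l 16400072)))))) (a (b (a (l 1) (c (c (l 246456554359) (l 238940343719)) (c (l 229813521063) (l 218539206839)))) (a (c (c (l 243235310279) (l 235182228695)) (c (l 226055405911) (l 214244216727))) (c (c (l 16419336) (l 16392816)) (c (l 16386896) (l 16370120)))))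 (a (b (c (c (l 16409424) (l 314102289815)) (c (l 317323496279) (l 319470961175))) (c (l 16425600) (l 16391696))) (c (l 16409712) (b (l 16403672) (l 16405032)))))) (a (b (b (c (a (b (l 307659810631) (l 16401384)) (l 16414536)) (a (c (l 16375712) (l 16358672)) (l 16380104))) (c (b (l 16378528) (l 16411592)) (c (l 16384304) (l 16366152)))) (c (b (l 16372056) (l 16417304)) (c (l 16387456) (l 16368112)))) (c (b (l 16416456) (l 16443736)) (b (l 16379544) (l 16403624))))) (b (b (b (l 6) (b (l 6) (a (a (l 16418816) (l 16447872)) (l 16470480)))) (c (a (l 16439800) (l 16491400)) (a (l 16404016) (l 16453840)))) (c (a (l 16469616) (l 16499800)) (a (l 16408040) (l 16457432)))))), by decide +kernel⟩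

def k6_pm_202 : ∃ t, chk3 f_pm_202 t 15 35 1 = true :=
  ⟨(c (a (a (b (a (l 16520536) (l 16553208)) (l 16505608)) (b (l 16562424) (l 16574320))) (a (l 16577680) (l 16594232))) (a (a (b (a (l 16483112) (l 16514528)) (a (l 16487192) (l 16519648))) (b (l 16480976) (l 16553904))) (a (c (l 16592720) (l 16574136)) (l 16623904)))), by decide +kernel⟩

def k7_pm_202 : ∃ t, chk3 f_pm_202 t 6 9 1 = true :=
  ⟨(a (b (l 1) (b (a (b (l 1) (c (l 218538817991) (l 141766261351))) (c (c (b (l 260951652951) (l 16216864)) (l 117070215463)) (c (l 111164526279) (l 16156216)))) (a (c (b (l 238403087383) (l 16202392)) (l 92910875543)) (c (c (l 16228568) (l 16217704)) (a (l 16210152) (l 16212656)))))) (b (b (a (l 1) (b (l 1) (a (a (l 1) (c (l 234645207687) (l 230350180935))) (b (c (a (l 16285080) (l 16307840)) (a (l 16257608) (l 16277616))) (c (a (l 16293112) (l 16315680)) (l 138008406103)))))) (a (a (b (l 1) (c (l 269004802535) (l 16196056))) (c (b (b (l 1) (l 16239632)) (b (l 16248712) (l 16257936))) (b (l 242698138439) (l 16247560)))) (c (b (a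 (b (l 124049747447) (l 16278208)) (l 16295576)) (c (l 16320624) (l 16282776))) (b (a (b (l 16242176) (l 16249008)) (l 16261752)) (b (l 16253280) (l 16281240)))))) (b (a (c (b (c (l 16240552) (l 16227256)) (l 16253440)) (b (l 16206848) (l 16224080))) (c (b (l 16287944) (l 16349448)) (b (l 16271480) (l 16311528)))) (a (c (l 16201464) (b (l 16263928) (l 16287840))) (c (l 16320032) (l 16265936)))))), by decide +kernel⟩

def k8_pm_202 : ∃ t, chk3 f_pm_202 t 7 9 1 = true :=
  ⟨(a (b (a (b (a (b (a (b (l 1) (c (l 342019470839) (l 329134491415))) (b (c (b (l 281353061127) (l 16343512)) (b (l 16309112) (l 16311424))) (c (b (l 16347080) (l 16350688)) (l 16315008)))) (c (b (l 16322880) (l 16351368)) (b (l 16288224) (l 16314528)))) (b (c (b (b (a (l 262562622679) (l 16392864)) (l 16361824)) (l 16366944)) (b (b (a (l 16332112) (l 16355920)) (l 16325152)) (l 16328416))) (c (l 16398368) (l 16356288)))) (c (b (a (l 16341912) (l 16412872)) (l 16341760)) (b (a (l 16322928) (l 16366608)) (l 16254896)))) (b (a (b (a (b (a (l 16384456) (l 16398240))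 (l 16407256)) (c (l 16453360) (l 16387680))) (c (l 16389728) (b (l 16401640) (l 16406432)))) (b (c (l 16476120) (l 16376312)) (b (l 16399104) (l 16428352)))) (a (c (l 16393448) (b (l 16418336) (l 16438800))) (b (l 16442336) (l 16482184))))) (a (b (b (a (l 16375504) (l 16427560)) (l 16319328)) (c (l 16455296) (l 16421008))) (b (c (l 16439728) (l 16418280)) (a (l 16452880) (l 16571904))))) (b (a (b (a (b (c (l 16561128) (l 16494136)) (l 16512976)) (l 16492608)) (c (l 16489008) (l 16448544))) (b (a (l 16586912) (l 16511760)) (b (l 16478680) (l 16470848)))) (a (b (b (l 16515584) (l 16552720)) (b (l 16545072) (l 16516264))) (b (b (l 16462880) (l 16454888)) (a (l 16464192) (l 16464224)))))), by decide +kernel⟩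

def k9_pm_202 : ∃ t, chk3 f_pm_202 t 3 5 1 = true :=
  ⟨(b (a (a (a (b (b (c (l 16238128) (l 16225264)) (c (l 16291384) (l 16286136))) (b (l 16355232) (l 16423016))) (b (b (c (l 16291376) (l 16271984)) (l 16320528)) (b (l 16404792) (l 16468560)))) (b (a (b (c (l 16354840) (l 16332936)) (l 16360392)) (b (l 16314384) (l 16410184))) (a (b (l 16419512) (l 16520904)) (b (l 16527544) (l 16582120))))) (a (b (a (c (l 16415648) (l 16395408)) (a (l 16424256) (l 16433928))) (a (b (l 16603080) (l 16542968)) (b (l 16533472) (l 16432160)))) (b (b (a (l 16409552) (a (l 16449080) (l 16406856))) (a (a (l 16524272) (l 16470608)) (b (l 16374600) (b (l 16374432) (l 16360600))))) (a (c (l 16363344) (l 16330752)) (b (l 16135728) (l 16266872)))))) (a (c (a (b (l 16437512) (l 16472272)) (b (l 16450240) (l 16427088))) (a (b (l 16410608) (l 16355824)) (b (l 16397480) (a (l 16380960) (l 16355464))))) (a (b (a (l 16390464) (b (l 16415008) (l 16356416))) (a (l 16251960) (l 16165120))) (a (b (b (l 16322320) (l 16264696)) (l 15991088)) (b (c (l 16184856)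 (l 16178224)) (c (l 16082176) (l 16058136))))))), by decide +kernel⟩

def k10_pm_202 : ∃ t, chk3 f_pm_202 t 3 3 1 = true :=
  ⟨(b (a (b (a (b (c (l 16367832) (l 16261968)) (c (l 16268352) (l 16130616))) (c (c (l 16151592) (l 16040848)) (b (l 16217512) (l 16112536)))) (a (c (b (l 16174776) (l 16087984)) (b (l 16005176) (l 15887016))) (b (c (l 16134464) (l 15992592)) (c (l 16049816) (l 15880040))))) (a (b (a (b (l 16222008) (l 16113272)) (b (l 16158160) (l 16051656))) (c (a (l 16027256) (l 15961312)) (a (l 15895816) (l 15846448)))) (a (b (b (l 16070336) (l 15966368)) (b (l 15869208) (l 15780024))) (b (b (c (l 15984560) (l 15941760)) (l 15862288)) (b (l 15768176) (l 15682200)))))) (a (b (a (c (b (l 16008776) (l 15937928)) (b (l 15777440) (l 15677712))) (c (b (l 15973112) (l 15905168)) (b (l 15776200) (l 15682312)))) (a (b (c (l 15876400) (l 15589480)) (a (c (l 15843128) (l 15532536)) (l 15673632))) (c (b (l 15846728) (l 15798536)) (a (l 15563704) (l 15561088))))) (a (b (c (a (l 15879120) (l 15817328)) (a (l 15698512) (l 15656688)))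 (c (b (l 15765600) (l 15722600)) (a (l 15544320) (l 15510784)))) (a (b (b (l 15699920) (l 15629928)) (b (l 15571016) (l 15524120))) (b (b (l 15584472) (l 15538920)) (b (l 15483592) (l 15440368))))))), by decide +kernel⟩

theorem s11_pm_202 : ∃ t, chk3 f_pm_202 t 3 9 1 = true := ex3_a k7_pm_202 k8_pm_202

theorem s12_pm_202 : ∃ t, chk3 f_pm_202 t 7 35 1 = true := ex3_a k5_pm_202 k6_pm_202

theorem s13_pm_202 : ∃ t, chk3 f_pm_202 t 7 17 1 = true := ex3_b k4_pm_202 s12_pm_202

theorem s14_pm_202 : ∃ t, chk3 f_pm_202 t 7 8 1 = true := ex3_b k3_pm_202 s13_pm_202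

theorem s15_pm_202 : ∃ t, chk3 f_pm_202 t 3 8 1 = true := ex3_a k2_pm_202 s14_pm_202

theorem s16_pm_202 : ∃ t, chk3 f_pm_202 t 3 4 1 = true := ex3_b s15_pm_202 s11_pm_202

theorem s17_pm_202 : ∃ t, chk3 f_pm_202 t 3 2 1 = true := ex3_b s16_pm_202 k9_pm_202

theorem s18_pm_202 : ∃ t, chk3 f_pm_202 t 3 1 1 = true := ex3_b s17_pm_202 k10_pm_202

theorem s19_pm_202 : ∃ t, chk3 f_pm_202 t 2 1 1 = true := ex3_b k0_pm_202 k1_pm_202

theorem s20_pm_202 : ∃ t, chk3 f_pm_202 t 1 1 1 = true := ex3_a s19_pm_202 s18_pm_202

theorem c_pm_202 : CertB 0 536870912 0 536870912 966367641 24778659 3 eng mog cd0q2 cd1q0 pd2 true true false .pp 2 0 2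
    ndB0q2 ndB1q0 pcB2 cut_pm_202 Ext.none :=
  certB1 (fam := true) (s1 := true) (s2 := false) (a := 2) (b := 0) (c := 2) (cn := .pp) (n1 := ndB0q2) (n2 := ndB1q0) (pc := pcB2) (cut := cut_pm_202) (xt := Ext.none) (P1 := 0) (W1 := 536870912) (P2 := 0) (W2 := 536870912) (P3 := 966367641) (W3 := 24778659) (N0 := 3) (En := eng) (mo := mog) (C1 := cd0q2) (C2 := cd1q0) (C3 := pd2)
    rfl (fun _ => rfl) s20_pm_202

noncomputable def f_pm_203 : ℕ → ℕ → ℕ → ℕ → Bool := onCell 0 536870912 1610612736 536870912 966367641 24778659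
    (rowB 3 eng mog cd0q2 cd1q0 pd3 1 true true false .up 2 0 3 (qsf 0 536870912 0 536870912 3) ndB0q2 ndB1q0 pcB3 Cut.none Ext.none)

def k0_pm_203 : ∃ t, chk3 f_pm_203 t 1 1 1 = true :=
  ⟨(b (b (a (b (a (b (c (a (l 16451144) (l 16409520)) (a (l 16370808) (l 16257544))) (c (a (l 16456672) (l 16406232)) (a (l 16406032) (l 16297776)))) (c (b (a (l 16358648) (l 16293720)) (a (l 16347528) (l 16274768))) (b (a (l 16127296) (l 15975664)) (a (l 16160920) (l 16002864))))) (a (b (c (a (l 16469968) (l 16416112)) (a (l 16429208) (l 16347184))) (a (l 4) (c (l 16436400) (l 16387264)))) (c (b (l 16205192) (l 16305208)) (b (a (l 16209760) (l 16048520)) (l 15956992))))) (a (b (c (a (b (l 16084024) (l 16122056)) (b (l 16095376) (l 16072064))) (a (b (a (l 15849320) (l 15780168)) (l 15615904)) (b (l 15706344) (l 15687840)))) (a (c (b (l 16177152) (l 16186600)) (b (l 15869000) (l 15929704))) (a (b (a (l 15914328) (l 15646096)) (l 15780872)) (b (l 15639648) (l 2))))) (b (a (c (a (l 15965016) (l 15866256)) (a (l 15605992) (l 15529440))) (c (a (l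 15748592) (l 15616392)) (b (l 15380344) (l 15371352)))) (a (a (b (l 15779496) (l 2)) (l 2)) (l 2))))) (a (b (a (b (a (l 4) (b (l 16411392) (l 4))) (l 4)) (b (a (c (l 16400272) (l 16331072)) (l 16124256)) (l 2))) (l 2)) (a (l 2) (l 2)))) (l 2)), by decide +kernel⟩

theorem c_pm_203 : CertB 0 536870912 0 536870912 966367641 24778659 3 eng mog cd0q2 cd1q0 pd3 true true false .up 2 0 3
    ndB0q2 ndB1q0 pcB3 Cut.none Ext.none :=
  certB1 (fam := true) (s1 := true) (s2 := false) (a := 2) (b := 0) (c := 3) (cn := .up) (n1 := ndB0q2) (n2 := ndB1q0) (pc := pcB3) (cut := Cut.none) (xt := Ext.none) (P1 := 0) (W1 := 536870912) (P2 := 0) (W2 := 536870912) (P3 := 966367641) (W3 := 24778659) (N0 := 3) (En := eng) (mo := mog) (C1 := cd0q2) (C2 := cd1q0) (C3 := pd3)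
    rfl (fun _ => rfl) k0_pm_203

noncomputable def f_pm_213 : ℕ → ℕ → ℕ → ℕ → Bool := onCell 0 536870912 1610612736 536870912 966367641 24778659
    (rowB 3 eng mog cd0q2 cd1q1 pd3 1 true true false .pnn 2 1 3 (qsf 0 536870912 536870912 536870912 3) ndB0q2 ndB1q1 pcB3 Cut.none Ext.none)

def k0_pm_213 : ∃ t, chk3 f_pm_213 t 1 1 1 = true :=
  ⟨(a (a (b (b (l 1) (b (b (b (l 1) (l 4)) (l 4)) (l 4))) (l 4)) (b (a (b (l 1) (b (b (c (l 16293224) (l 16307016)) (c (l 16332152) (l 16361104))) (l 4))) (b (b (l 1) (b (l 1) (l 16131104))) (b (b (l 16193280) (l 16259072)) (b (c (l 16316512) (l 16319840)) (b (l 16354384) (l 4)))))) (l 4))) (b (b (a (b (l 1) (a (b (l 1) (c (l 16091328) (l 15907880))) (c (b (l 15959520) (l 15977128)) (b (l 15670136) (l 15532960))))) (a (b (c (l 15690400) (b (l 1) (l 15534360))) (c (b (l 15806712) (l 15821696)) (b (l 15547728) (l 15571488)))) (b (c (b (l 15567072) (l 15569656)) (a (l 15404920) (l 15296184))) (c (a (l 15650504) (l 15518616)) (a (l 15429368) (l 15317656)))))) (a (b (a (b (l 15808416) (l 16125312))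 (b (c (l 16006656) (l 15800272)) (c (l 16046464) (l 15887192)))) (b (a (l 16195352) (l 15828336)) (a (l 16245640) (l 16113768)))) (b (a (b (a (l 15771072) (l 15682408)) (a (l 15825408) (l 15723152))) (c (l 15798736) (b (l 15415656) (l 15456760)))) (a (b (a (l 15895272) (l 15782696)) (a (l 15972608) (l 15862064))) (b (a (l 15666128) (l 15543448)) (a (l 15735880) (l 15610808))))))) (a (b (b (b (a (c (l 16333376) (l 16319296)) (l 16194872)) (a (l 56605051431) (b (l 16256424) (l 16293792)))) (b (a (l 4) (l 12044623719)) (l 4))) (l 4)) (b (b (a (b (c (l 16056376) (l 15953208)) (a (l 16151208) (l 16050608))) (b (a (l 15829088) (l 15701856)) (l 15879360))) (a (b (a (l 16251152) (l 16164144)) (b (l 16291448) (l 16346392))) (b (l 16020040) (l 16198128)))) (b (a (l 4) (b (b (l 16367096) (l 16507584)) (b (l 16679776) (l 4)))) (l 4)))))), by decide +kernel⟩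

theorem c_pm_213 : CertB 0 536870912 536870912 536870912 966367641 24778659 3 eng mog cd0q2 cd1q1 pd3 true true false .pnn 2 1 3
    ndB0q2 ndB1q1 pcB3 Cut.none Ext.none :=
  certB1 (fam := true) (s1 := true) (s2 := false) (a := 2) (b := 1) (c := 3) (cn := .pnn) (n1 := ndB0q2) (n2 := ndB1q1) (pc := pcB3) (cut := Cut.none) (xt := Ext.none) (P1 := 0) (W1 := 536870912) (P2 := 536870912) (W2 := 536870912) (P3 := 966367641) (W3 := 24778659) (N0 := 3) (En := eng) (mo := mog) (C1 := cd0q2) (C2 := cd1q1) (C3 := pd3)
    rfl (fun _ => rfl) k0_pm_213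

noncomputable def f_mm_001 : ℕ → ℕ → ℕ → ℕ → Bool := onCell 0 536870912 0 536870912 966367641 24778659
    (rowB 3 eng mog cd0q0 cd1q0 pd1 0 true false false .up 0 0 1 (qsf 0 536870912 0 536870912 1) ndB0q0 ndB1q0 pcB1 Cut.none Ext.none)

def k0_mm_001 : ∃ t, chk3 f_mm_001 t 1 1 1 = true :=
  ⟨(l 4), by decide +kernel⟩

theorem c_mm_001 : CertB 0 536870912 0 536870912 966367641 24778659 3 eng mog cd0q0 cd1q0 pd1 true false false .up 0 0 1
    ndB0q0 ndB1q0 pcB1 Cut.none Ext.none :=
  certB0 (fam := true) (s1 := false) (s2 := false) (a := 0) (b := 0) (c := 1) (cn := .up) (n1 := ndB0q0) (n2 := ndB1q0) (pc := pcB1) (cut := Cut.none) (xt := Ext.none) (P1 := 0) (W1 := 536870912) (P2 := 0) (W2 := 536870912) (P3 := 966367641) (W3 := 24778659) (N0 := 3) (En := eng) (mo := mog) (C1 := cd0q0) (C2 := cd1q0) (C3 := pd1)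
    rfl k0_mm_001

noncomputable def f_mm_011 : ℕ → ℕ → ℕ → ℕ → Bool := onCell 0 536870912 536870912 536870912 966367641 24778659
    (rowB 3 eng mog cd0q0 cd1q1 pd1 0 true false false .pnn 0 1 1 (qsf 0 536870912 536870912 536870912 1) ndB0q0 ndB1q1 pcB1 Cut.none Ext.none)

def k0_mm_011 : ∃ t, chk3 f_mm_011 t 1 1 1 = true :=
  ⟨(l 4), by decide +kernel⟩

theorem c_mm_011 : CertB 0 536870912 536870912 536870912 966367641 24778659 3 eng mog cd0q0 cd1q1 pd1 true false false .pnn 0 1 1
    ndB0q0 ndB1q1 pcB1 Cut.none Ext.none :=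
  certB0 (fam := true) (s1 := false) (s2 := false) (a := 0) (b := 1) (c := 1) (cn := .pnn) (n1 := ndB0q0) (n2 := ndB1q1) (pc := pcB1) (cut := Cut.none) (xt := Ext.none) (P1 := 0) (W1 := 536870912) (P2 := 536870912) (W2 := 536870912) (P3 := 966367641) (W3 := 24778659) (N0 := 3) (En := eng) (mo := mog) (C1 := cd0q0) (C2 := cd1q1) (C3 := pd1)
    rfl k0_mm_011

noncomputable def f_mm_012 : ℕ → ℕ → ℕ → ℕ → Bool := onCell 0 536870912 536870912 536870912 966367641 24778659
    (rowB 3 eng mog cd0q0 cd1q1 pd2 0 true false false .pnp 0 1 2 (qsf 0 536870912 536870912 536870912 2) ndB0q0 ndB1q1 pcB2 Cut.none Ext.none)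

def k0_mm_012 : ∃ t, chk3 f_mm_012 t 1 1 1 = true :=
  ⟨(l 4), by decide +kernel⟩

theorem c_mm_012 : CertB 0 536870912 536870912 536870912 966367641 24778659 3 eng mog cd0q0 cd1q1 pd2 true false false .pnp 0 1 2
    ndB0q0 ndB1q1 pcB2 Cut.none Ext.none :=
  certB0 (fam := true) (s1 := false) (s2 := false) (a := 0) (b := 1) (c := 2) (cn := .pnp) (n1 := ndB0q0) (n2 := ndB1q1) (pc := pcB2) (cut := Cut.none) (xt := Ext.none) (P1 := 0) (W1 := 536870912) (P2 := 536870912) (W2 := 536870912) (P3 := 966367641) (W3 := 24778659) (N0 := 3) (En := eng) (mo := mog) (C1 := cd0q0) (C2 := cd1q1) (C3 := pd2)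
    rfl k0_mm_012

noncomputable def f_mm_022_a : ℕ → ℕ → ℕ → ℕ → Bool := onCell 0 536870912 0 536870912 966367641 24778659
    (rowB 3 eng mog cd0q0 cd1q2a pd2 0 true false false .pp 0 2 2 (qsf 0 536870912 0 536870912 2) ndB0q0 ndB1q2a pcB2 Cut.none Ext.none)

def k0_mm_022_a : ∃ t, chk3 f_mm_022_a t 1 1 1 = true :=
  ⟨(l 5), by decide +kernel⟩

theorem c_mm_022_a : CertB 0 536870912 0 536870912 966367641 24778659 3 eng mog cd0q0 cd1q2a pd2 true false false .pp 0 2 2
    ndB0q0 ndB1q2a pcB2 Cut.none Ext.none :=
  certB0 (fam := true) (s1 := false) (s2 := false) (a := 0) (b := 2) (c := 2) (cn := .pp) (n1 := ndB0q0) (n2 := ndB1q2a) (pc := pcB2) (cut := Cut.none) (xt := Ext.none) (P1 := 0) (W1 := 536870912) (P2 := 0) (W2 := 536870912) (P3 := 966367641) (W3 := 24778659) (N0 := 3) (En := eng) (mo := mog) (C1 := cd0q0) (C2 := cd1q2a) (C3 := pd2)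
    rfl k0_mm_022_a

noncomputable def f_mm_022_b : ℕ → ℕ → ℕ → ℕ → Bool := onCell 0 536870912 1239849684 370763052 966367641 24778659
    (rowB 3 eng mog cd0q0 cd1q2b pd2 0 true false false .pp 0 2 2 (qsf 0 536870912 1239849684 370763052 2) ndB0q0 ndB1q2b pcB2 Cut.none Ext.none)

def k0_mm_022_b : ∃ t, chk3 f_mm_022_b t 1 1 1 = true :=
  ⟨(l 5), by decide +kernel⟩

theorem c_mm_022_b : CertB 0 536870912 1239849684 370763052 966367641 24778659 3 eng mog cd0q0 cd1q2b pd2 true false false .pp 0 2 2
    ndB0q0 ndB1q2b pcB2 Cut.none Ext.none :=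
  certB0 (fam := true) (s1 := false) (s2 := false) (a := 0) (b := 2) (c := 2) (cn := .pp) (n1 := ndB0q0) (n2 := ndB1q2b) (pc := pcB2) (cut := Cut.none) (xt := Ext.none) (P1 := 0) (W1 := 536870912) (P2 := 1239849684) (W2 := 370763052) (P3 := 966367641) (W3 := 24778659) (N0 := 3) (En := eng) (mo := mog) (C1 := cd0q0) (C2 := cd1q2b) (C3 := pd2)
    rfl k0_mm_022_b

noncomputable def f_mm_023_a : ℕ → ℕ → ℕ → ℕ → Bool := onCell 0 536870912 0 536870912 966367641 24778659
    (rowB 3 eng mog cd0q0 cd1q2a pd3 0 true false false .up 0 2 3 (qsf 0 536870912 0 536870912 3) ndB0q0 ndB1q2a pcB3 Cut.none Ext.none)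

def k0_mm_023_a : ∃ t, chk3 f_mm_023_a t 1 1 1 = true :=
  ⟨(l 5), by decide +kernel⟩

theorem c_mm_023_a : CertB 0 536870912 0 536870912 966367641 24778659 3 eng mog cd0q0 cd1q2a pd3 true false false .up 0 2 3
    ndB0q0 ndB1q2a pcB3 Cut.none Ext.none :=
  certB0 (fam := true) (s1 := false) (s2 := false) (a := 0) (b := 2) (c := 3) (cn := .up) (n1 := ndB0q0) (n2 := ndB1q2a) (pc := pcB3) (cut := Cut.none) (xt := Ext.none) (P1 := 0) (W1 := 536870912) (P2 := 0) (W2 := 536870912) (P3 := 966367641) (W3 := 24778659) (N0 := 3) (En := eng) (mo := mog) (C1 := cd0q0) (C2 := cd1q2a) (C3 := pd3)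
    rfl k0_mm_023_a

noncomputable def f_mm_023_b : ℕ → ℕ → ℕ → ℕ → Bool := onCell 0 536870912 1239849684 370763052 966367641 24778659
    (rowB 3 eng mog cd0q0 cd1q2b pd3 0 true false false .up 0 2 3 (qsf 0 536870912 1239849684 370763052 3) ndB0q0 ndB1q2b pcB3 Cut.none Ext.none)

def k0_mm_023_b : ∃ t, chk3 f_mm_023_b t 1 1 1 = true :=
  ⟨(l 5), by decide +kernel⟩

theorem c_mm_023_b : CertB 0 536870912 1239849684 370763052 966367641 24778659 3 eng mog cd0q0 cd1q2b pd3 true false false .up 0 2 3
    ndB0q0 ndB1q2b pcB3 Cut.none Ext.none :=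
  certB0 (fam := true) (s1 := false) (s2 := false) (a := 0) (b := 2) (c := 3) (cn := .up) (n1 := ndB0q0) (n2 := ndB1q2b) (pc := pcB3) (cut := Cut.none) (xt := Ext.none) (P1 := 0) (W1 := 536870912) (P2 := 1239849684) (W2 := 370763052) (P3 := 966367641) (W3 := 24778659) (N0 := 3) (En := eng) (mo := mog) (C1 := cd0q0) (C2 := cd1q2b) (C3 := pd3)
    rfl k0_mm_023_b

noncomputable def f_mm_033 : ℕ → ℕ → ℕ → ℕ → Bool := onCell 0 536870912 1610612736 536870912 966367641 24778659
    (rowB 3 eng mog cd0q0 cd1q3 pd3 0 true false false .pnn 0 3 3 (qsf 0 536870912 1610612736 536870912 3) ndB0q0 ndB1q3 pcB3 Cut.none Ext.none)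

def k0_mm_033 : ∃ t, chk3 f_mm_033 t 1 1 1 = true :=
  ⟨(l 5), by decide +kernel⟩

theorem c_mm_033 : CertB 0 536870912 1610612736 536870912 966367641 24778659 3 eng mog cd0q0 cd1q3 pd3 true false false .pnn 0 3 3
    ndB0q0 ndB1q3 pcB3 Cut.none Ext.none :=
  certB0 (fam := true) (s1 := false) (s2 := false) (a := 0) (b := 3) (c := 3) (cn := .pnn) (n1 := ndB0q0) (n2 := ndB1q3) (pc := pcB3) (cut := Cut.none) (xt := Ext.none) (P1 := 0) (W1 := 536870912) (P2 := 1610612736) (W2 := 536870912) (P3 := 966367641) (W3 := 24778659) (N0 := 3) (En := eng) (mo := mog) (C1 := cd0q0) (C2 := cd1q3) (C3 := pd3)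
    rfl k0_mm_033

noncomputable def cut_mm_101 : Cut := Cut.of [[⟨0, 1, 0, 67108864⟩, ⟨1, 0, 0, 67108864⟩, ⟨2, 1, 0, 67108864⟩]]

noncomputable def f_mm_101 : ℕ → ℕ → ℕ → ℕ → Bool := onCell 536870912 536870912 0 536870912 966367641 24778659
    (rowB 3 eng mog cd0q1 cd1q0 pd1 0 true false false .npn 1 0 1 (qsf 536870912 536870912 0 536870912 1) ndB0q1 ndB1q0 pcB1 cut_mm_101 Ext.none)

def k0_mm_101 : ∃ t, chk3 f_mm_101 t 1 1 1 = true :=
  ⟨(a (l 4) (b (a (l 4) (b (a (l 4) (b (a (l 4) (b (l 6) (l 4))) (l 4))) (l 4))) (l 4))), by decide +kernel⟩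

theorem c_mm_101 : CertB 536870912 536870912 0 536870912 966367641 24778659 3 eng mog cd0q1 cd1q0 pd1 true false false .npn 1 0 1
    ndB0q1 ndB1q0 pcB1 cut_mm_101 Ext.none :=
  certB0 (fam := true) (s1 := false) (s2 := false) (a := 1) (b := 0) (c := 1) (cn := .npn) (n1 := ndB0q1) (n2 := ndB1q0) (pc := pcB1) (cut := cut_mm_101) (xt := Ext.none) (P1 := 536870912) (W1 := 536870912) (P2 := 0) (W2 := 536870912) (P3 := 966367641) (W3 := 24778659) (N0 := 3) (En := eng) (mo := mog) (C1 := cd0q1) (C2 := cd1q0) (C3 := pd1)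
    rfl k0_mm_101

noncomputable def cut_mm_102 : Cut := Cut.of [[⟨0, 1, 0, 67108864⟩, ⟨1, 0, 0, 67108864⟩, ⟨2, 1, 0, 67108864⟩]]

noncomputable def f_mm_102 : ℕ → ℕ → ℕ → ℕ → Bool := onCell 536870912 536870912 0 536870912 966367641 24778659
    (rowB 3 eng mog cd0q1 cd1q0 pd2 0 true false false .npp 1 0 2 (qsf 536870912 536870912 0 536870912 2) ndB0q1 ndB1q0 pcB2 cut_mm_102 Ext.none)

def k0_mm_102 : ∃ t, chk3 f_mm_102 t 1 1 1 = true :=
  ⟨(a (l 4) (b (a (l 4) (b (a (l 4) (b (a (l 4) (b (l 6) (l 4))) (l 4))) (l 4))) (l 4))), by decide +kernel⟩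

theorem c_mm_102 : CertB 536870912 536870912 0 536870912 966367641 24778659 3 eng mog cd0q1 cd1q0 pd2 true false false .npp 1 0 2
    ndB0q1 ndB1q0 pcB2 cut_mm_102 Ext.none :=
  certB0 (fam := true) (s1 := false) (s2 := false) (a := 1) (b := 0) (c := 2) (cn := .npp) (n1 := ndB0q1) (n2 := ndB1q0) (pc := pcB2) (cut := cut_mm_102) (xt := Ext.none) (P1 := 536870912) (W1 := 536870912) (P2 := 0) (W2 := 536870912) (P3 := 966367641) (W3 := 24778659) (N0 := 3) (En := eng) (mo := mog) (C1 := cd0q1) (C2 := cd1q0) (C3 := pd2)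
    rfl k0_mm_102

noncomputable def f_mm_112 : ℕ → ℕ → ℕ → ℕ → Bool := onCell 536870912 536870912 536870912 536870912 966367641 24778659
    (rowB 3 eng mog cd0q1 cd1q1 pd2 0 true false false .dn 1 1 2 (qsf 536870912 536870912 536870912 536870912 2) ndB0q1 ndB1q1 pcB2 Cut.none Ext.none)

def k0_mm_112 : ∃ t, chk3 f_mm_112 t 1 1 1 = true :=
  ⟨(l 4), by decide +kernel⟩

theorem c_mm_112 : CertB 536870912 536870912 536870912 536870912 966367641 24778659 3 eng mog cd0q1 cd1q1 pd2 true false false .dn 1 1 2
    ndB0q1 ndB1q1 pcB2 Cut.none Ext.none :=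
  certB0 (fam := true) (s1 := false) (s2 := false) (a := 1) (b := 1) (c := 2) (cn := .dn) (n1 := ndB0q1) (n2 := ndB1q1) (pc := pcB2) (cut := Cut.none) (xt := Ext.none) (P1 := 536870912) (W1 := 536870912) (P2 := 536870912) (W2 := 536870912) (P3 := 966367641) (W3 := 24778659) (N0 := 3) (En := eng) (mo := mog) (C1 := cd0q1) (C2 := cd1q1) (C3 := pd2)
    rfl k0_mm_112

noncomputable def f_mm_113 : ℕ → ℕ → ℕ → ℕ → Bool := onCell 536870912 536870912 536870912 536870912 966367641 24778659
    (rowB 3 eng mog cd0q1 cd1q1 pd3 0 true false false .nn 1 1 3 (qsf 536870912 536870912 536870912 536870912 3) ndB0q1 ndB1q1 pcB3 Cut.none Ext.none)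

def k0_mm_113 : ∃ t, chk3 f_mm_113 t 1 1 1 = true :=
  ⟨(l 4), by decide +kernel⟩

theorem c_mm_113 : CertB 536870912 536870912 536870912 536870912 966367641 24778659 3 eng mog cd0q1 cd1q1 pd3 true false false .nn 1 1 3
    ndB0q1 ndB1q1 pcB3 Cut.none Ext.none :=
  certB0 (fam := true) (s1 := false) (s2 := false) (a := 1) (b := 1) (c := 3) (cn := .nn) (n1 := ndB0q1) (n2 := ndB1q1) (pc := pcB3) (cut := Cut.none) (xt := Ext.none) (P1 := 536870912) (W1 := 536870912) (P2 := 536870912) (W2 := 536870912) (P3 := 966367641) (W3 := 24778659) (N0 := 3) (En := eng) (mo := mog) (C1 := cd0q1) (C2 := cd1q1) (C3 := pd3)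
    rfl k0_mm_113

noncomputable def f_mm_123_a : ℕ → ℕ → ℕ → ℕ → Bool := onCell 536870912 536870912 0 536870912 966367641 24778659
    (rowB 3 eng mog cd0q1 cd1q2a pd3 0 true false false .npn 1 2 3 (qsf 536870912 536870912 0 536870912 3) ndB0q1 ndB1q2a pcB3 Cut.none Ext.none)

def k0_mm_123_a : ∃ t, chk3 f_mm_123_a t 1 1 1 = true :=
  ⟨(l 4), by decide +kernel⟩

theorem c_mm_123_a : CertB 536870912 536870912 0 536870912 966367641 24778659 3 eng mog cd0q1 cd1q2a pd3 true false false .npn 1 2 3
    ndB0q1 ndB1q2a pcB3 Cut.none Ext.none :=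
  certB0 (fam := true) (s1 := false) (s2 := false) (a := 1) (b := 2) (c := 3) (cn := .npn) (n1 := ndB0q1) (n2 := ndB1q2a) (pc := pcB3) (cut := Cut.none) (xt := Ext.none) (P1 := 536870912) (W1 := 536870912) (P2 := 0) (W2 := 536870912) (P3 := 966367641) (W3 := 24778659) (N0 := 3) (En := eng) (mo := mog) (C1 := cd0q1) (C2 := cd1q2a) (C3 := pd3)
    rfl k0_mm_123_a

noncomputable def f_mm_123_b : ℕ → ℕ → ℕ → ℕ → Bool := onCell 536870912 536870912 1239849684 370763052 966367641 24778659
    (rowB 3 eng mog cd0q1 cd1q2b pd3 0 true false false .npn 1 2 3 (qsf 536870912 536870912 1239849684 370763052 3) ndB0q1 ndB1q2b pcB3 Cut.none Ext.none)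

def k0_mm_123_b : ∃ t, chk3 f_mm_123_b t 1 1 1 = true :=
  ⟨(l 4), by decide +kernel⟩

theorem c_mm_123_b : CertB 536870912 536870912 1239849684 370763052 966367641 24778659 3 eng mog cd0q1 cd1q2b pd3 true false false .npn 1 2 3
    ndB0q1 ndB1q2b pcB3 Cut.none Ext.none :=
  certB0 (fam := true) (s1 := false) (s2 := false) (a := 1) (b := 2) (c := 3) (cn := .npn) (n1 := ndB0q1) (n2 := ndB1q2b) (pc := pcB3) (cut := Cut.none) (xt := Ext.none) (P1 := 536870912) (W1 := 536870912) (P2 := 1239849684) (W2 := 370763052) (P3 := 966367641) (W3 := 24778659) (N0 := 3) (En := eng) (mo := mog) (C1 := cd0q1) (C2 := cd1q2b) (C3 := pd3)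
    rfl k0_mm_123_b

noncomputable def f_mm_133 : ℕ → ℕ → ℕ → ℕ → Bool := onCell 536870912 536870912 1610612736 536870912 966367641 24778659
    (rowB 3 eng mog cd0q1 cd1q3 pd3 0 true false false .dn 1 3 3 (qsf 536870912 536870912 1610612736 536870912 3) ndB0q1 ndB1q3 pcB3 Cut.none Ext.none)

def k0_mm_133 : ∃ t, chk3 f_mm_133 t 1 1 1 = true :=
  ⟨(l 4), by decide +kernel⟩

theorem c_mm_133 : CertB 536870912 536870912 1610612736 536870912 966367641 24778659 3 eng mog cd0q1 cd1q3 pd3 true false false .dn 1 3 3
    ndB0q1 ndB1q3 pcB3 Cut.none Ext.none :=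
  certB0 (fam := true) (s1 := false) (s2 := false) (a := 1) (b := 3) (c := 3) (cn := .dn) (n1 := ndB0q1) (n2 := ndB1q3) (pc := pcB3) (cut := Cut.none) (xt := Ext.none) (P1 := 536870912) (W1 := 536870912) (P2 := 1610612736) (W2 := 536870912) (P3 := 966367641) (W3 := 24778659) (N0 := 3) (En := eng) (mo := mog) (C1 := cd0q1) (C2 := cd1q3) (C3 := pd3)
    rfl k0_mm_133

noncomputable def cut_mm_202 : Cut := Cut.of [[⟨0, 1, 0, 67108864⟩, ⟨1, 0, 0, 67108864⟩, ⟨2, 1, 0, 67108864⟩]]

noncomputable def f_mm_202 : ℕ → ℕ → ℕ → ℕ → Bool := onCell 0 536870912 0 536870912 966367641 24778659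
    (rowB 3 eng mog cd0q2 cd1q0 pd2 0 true false false .pp 2 0 2 (qsf 0 536870912 0 536870912 2) ndB0q2 ndB1q0 pcB2 cut_mm_202 Ext.none)

def k0_mm_202 : ∃ t, chk3 f_mm_202 t 2 8 1 = true :=
  ⟨(a (b (a (c (b (b (a (l 16143968) (a (c (l 16140240) (l 16226824)) (l 16197416))) (a (l 16181112) (l 16125096))) (a (a (l 16191296) (l 16131312)) (l 16197496))) (b (a (l 16164616) (a (l 16200728) (l 16265856))) (a (l 16245008) (l 16352608)))) (b (c (a (b (l 16098576) (l 16237088)) (b (c (l 16185352) (l 16242248)) (l 16245616))) (a (l 16243296) (l 16242032))) (c (a (l 16201160) (l 16207408)) (b (l 16287088) (l 16357576))))) (a (c (b (a (l 16223672) (l 16287200)) (l 16355648)) (b (l 16309016) (l 16400080))) (b (c (a (l 16308736) (l 16312096)) (l 16370008)) (a (l 16271072) (l 16265520))))) (b (a (b (c (a (b (c (l 16180920) (l 16252616)) (l 16236624)) (b (c (l 16201896) (l 16266456)) (l 16189736))) (a (b (l 16290360) (l 16339592)) (b (l 16272024) (l 16340552)))) (c (a (l 16175328) (b (l 16301472) (l 16328432))) (c (l 16271160) (l 16318640))))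 (b (c (a (b (a (l 16176448) (b (l 16265400) (l 16279416))) (c (l 16276968) (l 16311568))) (b (a (b (l 16216088) (l 16292672)) (b (a (l 16269104) (l 16277016)) (l 16307344))) (a (l 16312584) (l 16284808)))) (a (b (c (l 16321832) (l 16360536)) (l 16324016)) (b (a (l 16327568) (c (l 16341312) (l 16369640))) (a (l 16372168) (l 16378176))))) (c (a (b (l 16299600) (l 16346288)) (b (a (l 16338072) (l 16351528)) (l 16348128))) (a (b (l 16389328) (l 16412376)) (b (l 16354928) (l 16397384)))))) (a (b (c (a (l 16319232) (l 16330648)) (a (l 16463688) (l 16417432))) (a (l 16262968) (l 16264056))) (a (b (b (l 16261312) (l 16311736)) (c (l 16399936) (l 16517896))) (b (c (l 16283720) (b (l 16447616) (l 16477648))) (a (l 16360600) (l 16346288))))))), by decide +kernel⟩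

def k1_mm_202 : ∃ t, chk3 f_mm_202 t 2 9 1 = true :=
  ⟨(a (b (a (b (l 16206472) (l 16191392)) (c (l 16267392) (l 16223528))) (a (c (l 16440464) (l 16187464)) (c (l 16495776) (l 16291520)))) (b (a (c (b (l 16433832) (l 16523592)) (b (l 16489000) (l 16466152))) (c (a (l 16345784) (b (l 16507216) (l 16549648))) (a (l 16493696) (l 16428288)))) (a (c (l 16384008) (l 16316664)) (c (a (l 16592536) (l 16606768)) (a (l 16510176) (l 16554824)))))), by decide +kernel⟩

def k2_mm_202 : ∃ t, chk3 f_mm_202 t 2 5 1 = true :=
  ⟨(b (a (b (a (c (l 16400424) (l 16232216)) (c (l 16467176) (l 16245496))) (a (c (l 16375920) (l 16214904)) (c (l 16452296) (l 16282400)))) (a (b (c (l 16533088) (c (l 16455920) (l 16401528))) (c (l 16526752) (c (l 16458016) (l 16409544)))) (b (c (a (l 16581288) (l 16612528)) (a (l 16504584) (l 16553904))) (c (a (l 16580352) (l 16615104)) (a (l 16473888) (c (l 16578096) (l 16509992))))))) (a (b (c (a (l 16366440) (l 16451224)) (a (l 16218200) (l 16317520))) (a (c (l 16371144) (l 16240872)) (c (l 16442368) (l 16349792))))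 (a (b (c (l 16531656) (a (l 16427152) (l 16443000))) (c (c (l 16558552) (l 16445168)) (b (l 16394616) (l 16386240)))) (b (a (b (l 16496320) (l 26540986151)) (l 4)) (l 4))))), by decide +kernel⟩

def k3_mm_202 : ∃ t, chk3 f_mm_202 t 12 4 1 = true :=
  ⟨(c (b (b (b (a (b (a (a (b (l 16285496) (l 16319568)) (c (l 16290360) (l 16311992))) (b (c (a (l 16315112) (l 16326152)) (l 16318992)) (a (l 16316952) (l 16326984)))) (a (b (l 16336656) (l 16349016)) (c (l 16331808) (l 16349088)))) (b (a (b (a (b (c (l 16334448) (l 16351488)) (l 16328248)) (b (a (l 16330360) (l 16336176)) (l 16339520))) (a (l 16337584) (l 16348744))) (b (c (b (a (l 16359264) (l 16372448)) (l 16351224)) (a (l 16355176) (l 16366832))) (c (l 16360624) (l 16372656)))) (a (b (l 16355184) (l 16387872)) (c (l 16378832) (l 16410464))))) (a (b (a (l 16366992) (l 16384768)) (a (l 16390384) (l 16407456))) (b (a (l 16404848) (l 16427232)) (a (l 16426856) (l 16448568))))) (a (b (b (l 16424568) (l 16450064)) (l 16423424)) (b (c (l 16385360) (l 16416560)) (a (l 16489888) (l 16509296)))))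 (b (a (b (l 16530656) (l 16570928)) (b (l 16562696) (l 16600736))) (a (l 16562008) (b (l 16635136) (l 16664440))))) (b (b (b (a (b (a (c (l 16352312) (l 16376600)) (b (a (l 16367192) (l 16373792)) (l 16360504))) (a (l 16365408) (c (l 16388032) (l 16406704)))) (b (a (a (c (l 16356768) (l 16374504)) (b (a (l 16366000) (l 16370152)) (l 16399624))) (a (b (c (l 16369384) (l 16384152)) (l 16408088)) (b (c (l 16379496) (l 16392656)) (l 16417240)))) (a (c (l 16403496) (l 16418488)) (c (l 16421584) (l 16433152))))) (a (b (a (l 16406920) (l 16417008)) (l 16368720)) (b (a (l 16429840) (l 16445456)) (a (l 16448440) (l 16463216))))) (b (a (b (l 16438576) (l 16467176)) (a (l 16447072) (l 16460392))) (a (l 16507624) (b (l 16513688) (l 16559328))))) (b (a (b (l 16577240) (l 16606536)) (b (l 16593680) (l 16634736))) (a (l 16596720) (b (l 16634352) (l 16633912)))))), by decide +kernel⟩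

def k4_mm_202 : ∃ t, chk3 f_mm_202 t 26 16 1 = true :=
  ⟨(b (c (b (b (b (a (a (a (l 16367280) (l 16373904)) (a (l 16380656) (l 16387544))) (a (a (l 16394552) (l 16401696)) (a (l 16408928) (l 16416200)))) (a (a (l 16376648) (l 16390096)) (a (l 16409320) (l 16423712)))) (a (c (l 16392936) (l 16407336)) (a (a (l 16409272) (l 16416344)) (l 16440232)))) (a (c (l 16426496) (l 16437256)) (b (a (l 16424128) (l 16438328)) (l 16463072)))) (a (b (b (a (c (l 16395488) (l 16412352)) (b (a (l 16401328) (l 16412056)) (l 16419656))) (a (l 16421824) (a (l 16413904) (l 16419320)))) (b (a (l 16436712) (l 16426088)) (l 16450960))) (b (a (b (b (a (l 16417704) (l 16423504)) (l 16434840)) (a (l 16424904) (l 16430648))) (b (b (a (l 16429440) (l 16435480)) (l 16445344)) (a (l 16436536) (l 16442528)))) (a (c (l 16438552) (l 16444816)) (c (l 16450776) (l 16455712)))))) (b (a (c (c (l 16449056) (l 16454776)) (c (l 16460776) (l 16467064))) (c (c (l 16477248) (l 16480256)) (c (l 16483448) (l 16486816)))) (c (a (l 16472584) (l 16498832)) (a (l 16480840)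 (l 16501312))))), by decide +kernel⟩

def k5_mm_202 : ∃ t, chk3 f_mm_202 t 27 16 1 = true :=
  ⟨(c (b (b (a (a (b (b (a (l 16423512) (l 16430848)) (l 16438280)) (l 16454736)) (b (c (b (l 16460496) (l 16466512)) (l 16455432)) (l 16466768))) (a (b (c (b (l 16475840) (l 16481832)) (l 16469568)) (l 16481608)) (b (c (l 16481208) (l 16486896)) (l 16496656)))) (b (a (a (l 16452720) (l 16467296)) (a (l 16482064) (l 16497048))) (a (l 16491664) (l 16521048)))) (b (a (b (l 16501944) (l 16511872)) (a (l 16528656) (l 16543464))) (a (l 16526568) (l 16534280)))) (b (b (b (a (a (b (c (l 16436320) (l 16442736)) (l 16454976)) (c (l 16462640) (l 16470392))) (a (c (l 16476200) (l 16480392)) (c (l 16490112) (l 16483016)))) (a (a (a (l 16448624) (l 16454824)) (a (l 16461136) (l 16467552))) (a (l 16487880) (l 16490872)))) (b (a (a (l 16460888) (l 16473448)) (a (l 16486440) (l 16499888))) (a (l 16496720) (l 16522616)))) (b (a (b (l 16504824) (l 16512456)) (b (l 16530544) (l 16538000))) (a (l 16524240) (l 16528416))))), by decide +kernel⟩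

def k6_mm_202 : ∃ t, chk3 f_mm_202 t 13 17 1 = true :=
  ⟨(a (b (c (a (l 16444664) (b (l 16521464) (l 16543808))) (a (l 16455704) (b (l 16525232) (l 16549920)))) (c (b (l 16511256) (l 16532000)) (b (l 16522720) (l 16545640)))) (b (c (a (b (l 16548616) (l 16570312)) (b (l 16576824) (l 16597960))) (a (b (l 16547392) (l 16571216)) (b (l 16571840) (l 16594872)))) (c (b (l 16541576) (l 16623784)) (b (l 16563144) (l 16626088))))), by decide +kernel⟩

def k7_mm_202 : ∃ t, chk3 f_mm_202 t 13 9 1 = true :=
  ⟨(b (a (b (c (a (l 16592200) (l 16614544)) (l 16514936)) (c (l 16639288) (l 16659016))) (b (a (c (l 16638608) (l 16646008)) (c (l 16663744) (l 16666248))) (c (a (l 16671712) (l 16689784)) (a (l 16682496) (l 16697072))))) (a (b (c (l 16669728) (l 16665344)) (a (l 16628792) (l 4))) (b (c (l 82375842551) (l 76470293383)) (l 4)))), by decide +kernel⟩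

def k8_mm_202 : ∃ t, chk3 f_mm_202 t 14 16 1 = true :=
  ⟨(a (b (c (b (a (b (a (c (l 16499448) (l 16501856)) (c (l 16516536) (l 16517088))) (a (l 16501432) (l 16516936))) (b (a (c (l 16535136) (l 16532616)) (b (l 6) (l 16540296))) (a (l 16548432) (a (l 16544696) (l 16552792))))) (b (a (a (l 16512280) (l 16527760)) (a (l 16564496) (l 16580560))) (a (l 16551408) (a (l 16574872) (l 16590944))))) (b (a (b (a (c (l 16493912) (l 16496592)) (c (l 16508576) (l 16510672))) (a (l 16525768) (l 16540128))) (a (b (c (l 16523640) (l 16525240)) (l 16554944)) (b (c (l 16539104) (l 16540320)) (l 16570216)))) (b (a (a (l 16534760) (l 16549112)) (a (l 16563920) (l 16579200))) (a (l 16550352) (l 16558992))))) (b (a (c (c (l 16567320) (l 16565200)) (b (l 16558232) (l 16565584))) (c (b (l 16571896) (l 16602376)) (a (l 16583944) (l 16599240)))) (a (c (l 16543176) (l 16555744)) (c (c (l 16618816) (l 16613872)) (l 16553816))))) (b (b (b (l 6) (a (a (a (b (l 6) (l 16563488)) (l 6)) (l 6)) (l 6))) (b (a (c (a (l 16596944) (l 16613688)) (a (l 16594952)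 (l 16611248))) (l 6)) (a (c (a (l 16607352) (l 16624144)) (a (l 16603392) (l 16619704))) (a (a (l 16613560) (l 6)) (l 6))))) (a (b (c (c (l 16590512) (l 16586944)) (a (l 16615024) (l 16610400))) (c (c (l 16631048) (l 16625576)) (b (l 16612816) (l 16621216)))) (b (c (a (l 16614152) (l 16631328)) (a (l 16627040) (l 16622568))) (c (b (l 16636680) (l 16688216)) (c (l 16632360) (l 16647000))))))), by decide +kernel⟩

def k9_mm_202 : ∃ t, chk3 f_mm_202 t 14 17 1 = true :=
  ⟨(b (a (c (a (c (l 16576520) (l 16573280)) (b (l 16616296) (l 16636616))) (a (b (l 16598712) (l 16621040)) (b (l 16606984) (l 16628888)))) (a (c (b (l 16658912) (l 16690112)) (b (l 16617840) (l 16681416))) (b (c (a (l 16695536) (l 16712408)) (a (l 16663576) (l 16700800))) (c (l 16696728) (a (l 16704048) (l 16714592)))))) (a (a (c (l 16655768) (l 16630976)) (b (c (l 16676584) (l 16670016)) (c (l 16692456) (l 16687208)))) (a (b (c (l 16704952) (l 16697800)) (c (l 16712560) (l 16707536))) (l 4)))), by decide +kernel⟩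

def k10_mm_202 : ∃ t, chk3 f_mm_202 t 15 8 1 = true :=
  ⟨(b (a (b (l 6) (a (b (l 6) (a (c (l 16688600) (l 16654080)) (b (l 6) (c (l 16729904) (l 16714920))))) (l 6))) (l 6)) (a (a (b (b (c (a (l 16725648) (l 16734480)) (a (l 16713416) (l 16721704))) (l 4)) (l 4)) (l 4)) (l 4))), by decide +kernel⟩

def k11_mm_202 : ∃ t, chk3 f_mm_202 t 7 9 1 = true :=
  ⟨(a (b (a (b (a (b (l 16680448) (l 16693280)) (c (l 16704496) (l 16703128))) (l 4)) (l 4)) (l 4)) (l 4)), by decide +kernel⟩

def k12_mm_202 : ∃ t, chk3 f_mm_202 t 3 5 1 = true :=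
  ⟨(a (b (a (b (a (b (l 16620208) (c (l 16643544) (l 16602600))) (c (b (l 16667920) (l 16673848)) (b (l 16636832) (l 16639800)))) (a (b (c (l 16647248) (l 16606360)) (l 4)) (l 4))) (l 4)) (l 4)) (l 4)), by decide +kernel⟩

def k13_mm_202 : ∃ t, chk3 f_mm_202 t 1 3 1 = true :=
  ⟨(a (a (b (a (c (b (b (l 16389504) (l 16421072)) (b (l 16457104) (l 16465096))) (b (b (l 16282016) (l 16340664)) (b (l 16358912) (l 16401192)))) (b (b (c (l 16360208) (a (l 16387184) (l 16447664))) (c (a (l 16495112) (l 16528984)) (a (l 16440568) (l 16478120)))) (b (c (l 16443800) (l 16416336)) (l 4)))) (l 2)) (b (b (a (b (b (a (l 16452048) (l 4)) (l 4)) (l 4)) (l 4)) (l 4)) (l 4))) (l 4)), by decide +kernel⟩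

theorem s14_mm_202 : ∃ t, chk3 f_mm_202 t 14 8 1 = true := ex3_b k8_mm_202 k9_mm_202

theorem s15_mm_202 : ∃ t, chk3 f_mm_202 t 7 8 1 = true := ex3_a s14_mm_202 k10_mm_202

theorem s16_mm_202 : ∃ t, chk3 f_mm_202 t 7 4 1 = true := ex3_b s15_mm_202 k11_mm_202

theorem s17_mm_202 : ∃ t, chk3 f_mm_202 t 13 16 1 = true := ex3_a k4_mm_202 k5_mm_202

theorem s18_mm_202 : ∃ t, chk3 f_mm_202 t 13 8 1 = true := ex3_b s17_mm_202 k6_mm_202

theorem s19_mm_202 : ∃ t, chk3 f_mm_202 t 13 4 1 = true := ex3_b s18_mm_202 k7_mm_202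

theorem s20_mm_202 : ∃ t, chk3 f_mm_202 t 6 4 1 = true := ex3_a k3_mm_202 s19_mm_202

theorem s21_mm_202 : ∃ t, chk3 f_mm_202 t 3 4 1 = true := ex3_a s20_mm_202 s16_mm_202

theorem s22_mm_202 : ∃ t, chk3 f_mm_202 t 3 2 1 = true := ex3_b s21_mm_202 k12_mm_202

theorem s23_mm_202 : ∃ t, chk3 f_mm_202 t 2 4 1 = true := ex3_b k0_mm_202 k1_mm_202

theorem s24_mm_202 : ∃ t, chk3 f_mm_202 t 2 2 1 = true := ex3_b s23_mm_202 k2_mm_202

theorem s25_mm_202 : ∃ t, chk3 f_mm_202 t 1 2 1 = true := ex3_a s24_mm_202 s22_mm_202

theorem s26_mm_202 : ∃ t, chk3 f_mm_202 t 1 1 1 = true := ex3_b s25_mm_202 k13_mm_202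

theorem c_mm_202 : CertB 0 536870912 0 536870912 966367641 24778659 3 eng mog cd0q2 cd1q0 pd2 true false false .pp 2 0 2
    ndB0q2 ndB1q0 pcB2 cut_mm_202 Ext.none :=
  certB0 (fam := true) (s1 := false) (s2 := false) (a := 2) (b := 0) (c := 2) (cn := .pp) (n1 := ndB0q2) (n2 := ndB1q0) (pc := pcB2) (cut := cut_mm_202) (xt := Ext.none) (P1 := 0) (W1 := 536870912) (P2 := 0) (W2 := 536870912) (P3 := 966367641) (W3 := 24778659) (N0 := 3) (En := eng) (mo := mog) (C1 := cd0q2) (C2 := cd1q0) (C3 := pd2)
    rfl s26_mm_202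

noncomputable def f_mm_203 : ℕ → ℕ → ℕ → ℕ → Bool := onCell 0 536870912 1610612736 536870912 966367641 24778659
    (rowB 3 eng mog cd0q2 cd1q0 pd3 1 true false false .up 2 0 3 (qsf 0 536870912 0 536870912 3) ndB0q2 ndB1q0 pcB3 Cut.none Ext.none)

def k0_mm_203 : ∃ t, chk3 f_mm_203 t 1 1 1 = true :=
  ⟨(b (a (b (b (a (a (b (c (l 16388200) (l 16407336)) (l 4)) (l 4)) (l 4)) (l 4)) (l 4)) (l 4)) (l 2)), by decide +kernel⟩

theorem c_mm_203 : CertB 0 536870912 0 536870912 966367641 24778659 3 eng mog cd0q2 cd1q0 pd3 true false false .up 2 0 3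
    ndB0q2 ndB1q0 pcB3 Cut.none Ext.none :=
  certB1 (fam := true) (s1 := false) (s2 := false) (a := 2) (b := 0) (c := 3) (cn := .up) (n1 := ndB0q2) (n2 := ndB1q0) (pc := pcB3) (cut := Cut.none) (xt := Ext.none) (P1 := 0) (W1 := 536870912) (P2 := 0) (W2 := 536870912) (P3 := 966367641) (W3 := 24778659) (N0 := 3) (En := eng) (mo := mog) (C1 := cd0q2) (C2 := cd1q0) (C3 := pd3)
    rfl (fun _ => rfl) k0_mm_203

noncomputable def f_mm_213 : ℕ → ℕ → ℕ → ℕ → Bool := onCell 0 536870912 536870912 536870912 966367641 24778659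
    (rowB 3 eng mog cd0q2 cd1q1 pd3 0 true false false .pnn 2 1 3 (qsf 0 536870912 536870912 536870912 3) ndB0q2 ndB1q1 pcB3 Cut.none Ext.none)

def k0_mm_213 : ∃ t, chk3 f_mm_213 t 1 1 1 = true :=
  ⟨(l 4), by decide +kernel⟩

theorem c_mm_213 : CertB 0 536870912 536870912 536870912 966367641 24778659 3 eng mog cd0q2 cd1q1 pd3 true false false .pnn 2 1 3
    ndB0q2 ndB1q1 pcB3 Cut.none Ext.none :=
  certB0 (fam := true) (s1 := false) (s2 := false) (a := 2) (b := 1) (c := 3) (cn := .pnn) (n1 := ndB0q2) (n2 := ndB1q1) (pc := pcB3) (cut := Cut.none) (xt := Ext.none) (P1 := 0) (W1 := 536870912) (P2 := 536870912) (W2 := 536870912) (P3 := 966367641) (W3 := 24778659) (N0 := 3) (En := eng) (mo := mog) (C1 := cd0q2) (C2 := cd1q1) (C3 := pd3)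
    rfl k0_mm_213

end Pool.Agent.Strip051.G.I9000_9231.Tab.C.BA01

namespace Pool.Agent.Strip051.G.I9000_9231.Tab.C.BA02

open Pool.Agent.Strip051.PB Pool.Agent.Strip051.PB.T
open Pool.Agent.Strip051.G.I9000_9231.Tab

noncomputable def f_pp_001 : ℕ → ℕ → ℕ → ℕ → Bool := onCell 0 536870912 0 536870912 966367641 24778659
    (rowB 3 eng mog cd0q0 cd2q0 pd1 0 true true true .up 0 0 1 (qsf 0 536870912 0 536870912 1) ndB0q0 ndB2q0 pcB1 Cut.none Ext.none)

def k0_pp_001 : ∃ t, chk3 f_pp_001 t 1 1 1 = true :=
  ⟨(l 4), by decide +kernel⟩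

theorem c_pp_001 : CertB 0 536870912 0 536870912 966367641 24778659 3 eng mog cd0q0 cd2q0 pd1 true true true .up 0 0 1
    ndB0q0 ndB2q0 pcB1 Cut.none Ext.none :=
  certB0 (fam := true) (s1 := true) (s2 := true) (a := 0) (b := 0) (c := 1) (cn := .up) (n1 := ndB0q0) (n2 := ndB2q0) (pc := pcB1) (cut := Cut.none) (xt := Ext.none) (P1 := 0) (W1 := 536870912) (P2 := 0) (W2 := 536870912) (P3 := 966367641) (W3 := 24778659) (N0 := 3) (En := eng) (mo := mog) (C1 := cd0q0) (C2 := cd2q0) (C3 := pd1)
    rfl k0_pp_001

noncomputable def f_pp_011 : ℕ → ℕ → ℕ → ℕ → Bool := onCell 0 536870912 536870912 536870912 966367641 24778659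
    (rowB 3 eng mog cd0q0 cd2q1 pd1 0 true true true .pnn 0 1 1 (qsf 0 536870912 536870912 536870912 1) ndB0q0 ndB2q1 pcB1 Cut.none Ext.none)

def k0_pp_011 : ∃ t, chk3 f_pp_011 t 1 1 1 = true :=
  ⟨(l 4), by decide +kernel⟩

theorem c_pp_011 : CertB 0 536870912 536870912 536870912 966367641 24778659 3 eng mog cd0q0 cd2q1 pd1 true true true .pnn 0 1 1
    ndB0q0 ndB2q1 pcB1 Cut.none Ext.none :=
  certB0 (fam := true) (s1 := true) (s2 := true) (a := 0) (b := 1) (c := 1) (cn := .pnn) (n1 := ndB0q0) (n2 := ndB2q1) (pc := pcB1) (cut := Cut.none) (xt := Ext.none) (P1 := 0) (W1 := 536870912) (P2 := 536870912) (W2 := 536870912) (P3 := 966367641) (W3 := 24778659) (N0 := 3) (En := eng) (mo := mog) (C1 := cd0q0) (C2 := cd2q1) (C3 := pd1)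
    rfl k0_pp_011

noncomputable def f_pp_012 : ℕ → ℕ → ℕ → ℕ → Bool := onCell 0 536870912 536870912 536870912 966367641 24778659
    (rowB 3 eng mog cd0q0 cd2q1 pd2 0 true true true .pnp 0 1 2 (qsf 0 536870912 536870912 536870912 2) ndB0q0 ndB2q1 pcB2 Cut.none Ext.none)

def k0_pp_012 : ∃ t, chk3 f_pp_012 t 1 1 1 = true :=
  ⟨(l 4), by decide +kernel⟩

theorem c_pp_012 : CertB 0 536870912 536870912 536870912 966367641 24778659 3 eng mog cd0q0 cd2q1 pd2 true true true .pnp 0 1 2
    ndB0q0 ndB2q1 pcB2 Cut.none Ext.none :=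
  certB0 (fam := true) (s1 := true) (s2 := true) (a := 0) (b := 1) (c := 2) (cn := .pnp) (n1 := ndB0q0) (n2 := ndB2q1) (pc := pcB2) (cut := Cut.none) (xt := Ext.none) (P1 := 0) (W1 := 536870912) (P2 := 536870912) (W2 := 536870912) (P3 := 966367641) (W3 := 24778659) (N0 := 3) (En := eng) (mo := mog) (C1 := cd0q0) (C2 := cd2q1) (C3 := pd2)
    rfl k0_pp_012

noncomputable def f_pp_022 : ℕ → ℕ → ℕ → ℕ → Bool := onCell 0 536870912 1073741824 536870912 966367641 24778659
    (rowB 3 eng mog cd0q0 cd2q2 pd2 0 true true true .pp 0 2 2 (qsf 0 536870912 1073741824 536870912 2) ndB0q0 ndB2q2 pcB2 Cut.none Ext.none)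

def k0_pp_022 : ∃ t, chk3 f_pp_022 t 1 1 1 = true :=
  ⟨(l 4), by decide +kernel⟩

theorem c_pp_022 : CertB 0 536870912 1073741824 536870912 966367641 24778659 3 eng mog cd0q0 cd2q2 pd2 true true true .pp 0 2 2
    ndB0q0 ndB2q2 pcB2 Cut.none Ext.none :=
  certB0 (fam := true) (s1 := true) (s2 := true) (a := 0) (b := 2) (c := 2) (cn := .pp) (n1 := ndB0q0) (n2 := ndB2q2) (pc := pcB2) (cut := Cut.none) (xt := Ext.none) (P1 := 0) (W1 := 536870912) (P2 := 1073741824) (W2 := 536870912) (P3 := 966367641) (W3 := 24778659) (N0 := 3) (En := eng) (mo := mog) (C1 := cd0q0) (C2 := cd2q2) (C3 := pd2)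
    rfl k0_pp_022

noncomputable def f_pp_023 : ℕ → ℕ → ℕ → ℕ → Bool := onCell 0 536870912 1073741824 536870912 966367641 24778659
    (rowB 3 eng mog cd0q0 cd2q2 pd3 0 true true true .up 0 2 3 (qsf 0 536870912 1073741824 536870912 3) ndB0q0 ndB2q2 pcB3 Cut.none Ext.none)

def k0_pp_023 : ∃ t, chk3 f_pp_023 t 1 1 1 = true :=
  ⟨(l 4), by decide +kernel⟩

theorem c_pp_023 : CertB 0 536870912 1073741824 536870912 966367641 24778659 3 eng mog cd0q0 cd2q2 pd3 true true true .up 0 2 3
    ndB0q0 ndB2q2 pcB3 Cut.none Ext.none :=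
  certB0 (fam := true) (s1 := true) (s2 := true) (a := 0) (b := 2) (c := 3) (cn := .up) (n1 := ndB0q0) (n2 := ndB2q2) (pc := pcB3) (cut := Cut.none) (xt := Ext.none) (P1 := 0) (W1 := 536870912) (P2 := 1073741824) (W2 := 536870912) (P3 := 966367641) (W3 := 24778659) (N0 := 3) (En := eng) (mo := mog) (C1 := cd0q0) (C2 := cd2q2) (C3 := pd3)
    rfl k0_pp_023

noncomputable def f_pp_033 : ℕ → ℕ → ℕ → ℕ → Bool := onCell 0 536870912 0 1230186008 966367641 24778659
    (rowB 3 eng mog cd0q0 cd2q3 pd3 0 true true true .pnn 0 3 3 (qsf 0 536870912 0 1230186008 3) ndB0q0 ndB2q3 pcB3 Cut.none Ext.none)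

def k0_pp_033 : ∃ t, chk3 f_pp_033 t 1 1 1 = true :=
  ⟨(b (l 4) (l 4)), by decide +kernel⟩

theorem c_pp_033 : CertB 0 536870912 0 1230186008 966367641 24778659 3 eng mog cd0q0 cd2q3 pd3 true true true .pnn 0 3 3
    ndB0q0 ndB2q3 pcB3 Cut.none Ext.none :=
  certB0 (fam := true) (s1 := true) (s2 := true) (a := 0) (b := 3) (c := 3) (cn := .pnn) (n1 := ndB0q0) (n2 := ndB2q3) (pc := pcB3) (cut := Cut.none) (xt := Ext.none) (P1 := 0) (W1 := 536870912) (P2 := 0) (W2 := 1230186008) (P3 := 966367641) (W3 := 24778659) (N0 := 3) (En := eng) (mo := mog) (C1 := cd0q0) (C2 := cd2q3) (C3 := pd3)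
    rfl k0_pp_033

noncomputable def f_pp_101 : ℕ → ℕ → ℕ → ℕ → Bool := onCell 536870912 536870912 0 536870912 966367641 24778659
    (rowB 3 eng mog cd0q1 cd2q0 pd1 0 true true true .npn 1 0 1 (qsf 536870912 536870912 0 536870912 1) ndB0q1 ndB2q0 pcB1 Cut.none Ext.none)

def k0_pp_101 : ∃ t, chk3 f_pp_101 t 1 1 1 = true :=
  ⟨(l 5), by decide +kernel⟩

theorem c_pp_101 : CertB 536870912 536870912 0 536870912 966367641 24778659 3 eng mog cd0q1 cd2q0 pd1 true true true .npn 1 0 1
    ndB0q1 ndB2q0 pcB1 Cut.none Ext.none :=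
  certB0 (fam := true) (s1 := true) (s2 := true) (a := 1) (b := 0) (c := 1) (cn := .npn) (n1 := ndB0q1) (n2 := ndB2q0) (pc := pcB1) (cut := Cut.none) (xt := Ext.none) (P1 := 536870912) (W1 := 536870912) (P2 := 0) (W2 := 536870912) (P3 := 966367641) (W3 := 24778659) (N0 := 3) (En := eng) (mo := mog) (C1 := cd0q1) (C2 := cd2q0) (C3 := pd1)
    rfl k0_pp_101

noncomputable def f_pp_102 : ℕ → ℕ → ℕ → ℕ → Bool := onCell 536870912 536870912 0 536870912 966367641 24778659
    (rowB 3 eng mog cd0q1 cd2q0 pd2 0 true true true .npp 1 0 2 (qsf 536870912 536870912 0 536870912 2) ndB0q1 ndB2q0 pcB2 Cut.none Ext.none)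

def k0_pp_102 : ∃ t, chk3 f_pp_102 t 1 1 1 = true :=
  ⟨(l 5), by decide +kernel⟩

theorem c_pp_102 : CertB 536870912 536870912 0 536870912 966367641 24778659 3 eng mog cd0q1 cd2q0 pd2 true true true .npp 1 0 2
    ndB0q1 ndB2q0 pcB2 Cut.none Ext.none :=
  certB0 (fam := true) (s1 := true) (s2 := true) (a := 1) (b := 0) (c := 2) (cn := .npp) (n1 := ndB0q1) (n2 := ndB2q0) (pc := pcB2) (cut := Cut.none) (xt := Ext.none) (P1 := 536870912) (W1 := 536870912) (P2 := 0) (W2 := 536870912) (P3 := 966367641) (W3 := 24778659) (N0 := 3) (En := eng) (mo := mog) (C1 := cd0q1) (C2 := cd2q0) (C3 := pd2)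
    rfl k0_pp_102

noncomputable def f_pp_112 : ℕ → ℕ → ℕ → ℕ → Bool := onCell 536870912 536870912 536870912 536870912 966367641 24778659
    (rowB 3 eng mog cd0q1 cd2q1 pd2 0 true true true .dn 1 1 2 (qsf 536870912 536870912 536870912 536870912 2) ndB0q1 ndB2q1 pcB2 Cut.none Ext.none)

def k0_pp_112 : ∃ t, chk3 f_pp_112 t 1 1 1 = true :=
  ⟨(l 4), by decide +kernel⟩

theorem c_pp_112 : CertB 536870912 536870912 536870912 536870912 966367641 24778659 3 eng mog cd0q1 cd2q1 pd2 true true true .dn 1 1 2
    ndB0q1 ndB2q1 pcB2 Cut.none Ext.none :=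
  certB0 (fam := true) (s1 := true) (s2 := true) (a := 1) (b := 1) (c := 2) (cn := .dn) (n1 := ndB0q1) (n2 := ndB2q1) (pc := pcB2) (cut := Cut.none) (xt := Ext.none) (P1 := 536870912) (W1 := 536870912) (P2 := 536870912) (W2 := 536870912) (P3 := 966367641) (W3 := 24778659) (N0 := 3) (En := eng) (mo := mog) (C1 := cd0q1) (C2 := cd2q1) (C3 := pd2)
    rfl k0_pp_112

noncomputable def f_pp_113 : ℕ → ℕ → ℕ → ℕ → Bool := onCell 536870912 536870912 536870912 536870912 966367641 24778659
    (rowB 3 eng mog cd0q1 cd2q1 pd3 0 true true true .nn 1 1 3 (qsf 536870912 536870912 536870912 536870912 3) ndB0q1 ndB2q1 pcB3 Cut.none Ext.none)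

def k0_pp_113 : ∃ t, chk3 f_pp_113 t 1 1 1 = true :=
  ⟨(l 4), by decide +kernel⟩

theorem c_pp_113 : CertB 536870912 536870912 536870912 536870912 966367641 24778659 3 eng mog cd0q1 cd2q1 pd3 true true true .nn 1 1 3
    ndB0q1 ndB2q1 pcB3 Cut.none Ext.none :=
  certB0 (fam := true) (s1 := true) (s2 := true) (a := 1) (b := 1) (c := 3) (cn := .nn) (n1 := ndB0q1) (n2 := ndB2q1) (pc := pcB3) (cut := Cut.none) (xt := Ext.none) (P1 := 536870912) (W1 := 536870912) (P2 := 536870912) (W2 := 536870912) (P3 := 966367641) (W3 := 24778659) (N0 := 3) (En := eng) (mo := mog) (C1 := cd0q1) (C2 := cd2q1) (C3 := pd3)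
    rfl k0_pp_113

noncomputable def f_pp_123 : ℕ → ℕ → ℕ → ℕ → Bool := onCell 536870912 536870912 1073741824 536870912 966367641 24778659
    (rowB 3 eng mog cd0q1 cd2q2 pd3 0 true true true .npn 1 2 3 (qsf 536870912 536870912 1073741824 536870912 3) ndB0q1 ndB2q2 pcB3 Cut.none Ext.none)

def k0_pp_123 : ∃ t, chk3 f_pp_123 t 1 1 1 = true :=
  ⟨(l 4), by decide +kernel⟩

theorem c_pp_123 : CertB 536870912 536870912 1073741824 536870912 966367641 24778659 3 eng mog cd0q1 cd2q2 pd3 true true true .npn 1 2 3
    ndB0q1 ndB2q2 pcB3 Cut.none Ext.none :=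
  certB0 (fam := true) (s1 := true) (s2 := true) (a := 1) (b := 2) (c := 3) (cn := .npn) (n1 := ndB0q1) (n2 := ndB2q2) (pc := pcB3) (cut := Cut.none) (xt := Ext.none) (P1 := 536870912) (W1 := 536870912) (P2 := 1073741824) (W2 := 536870912) (P3 := 966367641) (W3 := 24778659) (N0 := 3) (En := eng) (mo := mog) (C1 := cd0q1) (C2 := cd2q2) (C3 := pd3)
    rfl k0_pp_123

noncomputable def f_pp_133 : ℕ → ℕ → ℕ → ℕ → Bool := onCell 536870912 536870912 0 1230186008 966367641 24778659
    (rowB 3 eng mog cd0q1 cd2q3 pd3 0 true true true .dn 1 3 3 (qsf 536870912 536870912 0 1230186008 3) ndB0q1 ndB2q3 pcB3 Cut.none Ext.none)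

def k0_pp_133 : ∃ t, chk3 f_pp_133 t 1 1 1 = true :=
  ⟨(b (l 2) (l 4)), by decide +kernel⟩

theorem c_pp_133 : CertB 536870912 536870912 0 1230186008 966367641 24778659 3 eng mog cd0q1 cd2q3 pd3 true true true .dn 1 3 3
    ndB0q1 ndB2q3 pcB3 Cut.none Ext.none :=
  certB0 (fam := true) (s1 := true) (s2 := true) (a := 1) (b := 3) (c := 3) (cn := .dn) (n1 := ndB0q1) (n2 := ndB2q3) (pc := pcB3) (cut := Cut.none) (xt := Ext.none) (P1 := 536870912) (W1 := 536870912) (P2 := 0) (W2 := 1230186008) (P3 := 966367641) (W3 := 24778659) (N0 := 3) (En := eng) (mo := mog) (C1 := cd0q1) (C2 := cd2q3) (C3 := pd3)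
    rfl k0_pp_133

noncomputable def f_pp_202 : ℕ → ℕ → ℕ → ℕ → Bool := onCell 0 536870912 0 536870912 966367641 24778659
    (rowB 3 eng mog cd0q2 cd2q0 pd2 0 true true true .pp 2 0 2 (qsf 0 536870912 0 536870912 2) ndB0q2 ndB2q0 pcB2 Cut.none Ext.none)

def k0_pp_202 : ∃ t, chk3 f_pp_202 t 1 1 1 = true :=
  ⟨(l 5), by decide +kernel⟩

theorem c_pp_202 : CertB 0 536870912 0 536870912 966367641 24778659 3 eng mog cd0q2 cd2q0 pd2 true true true .pp 2 0 2
    ndB0q2 ndB2q0 pcB2 Cut.none Ext.none :=
  certB0 (fam := true) (s1 := true) (s2 := true) (a := 2) (b := 0) (c := 2) (cn := .pp) (n1 := ndB0q2) (n2 := ndB2q0) (pc := pcB2) (cut := Cut.none) (xt := Ext.none) (P1 := 0) (W1 := 536870912) (P2 := 0) (W2 := 536870912) (P3 := 966367641) (W3 := 24778659) (N0 := 3) (En := eng) (mo := mog) (C1 := cd0q2) (C2 := cd2q0) (C3 := pd2)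
    rfl k0_pp_202

noncomputable def f_pp_203 : ℕ → ℕ → ℕ → ℕ → Bool := onCell 0 536870912 0 536870912 966367641 24778659
    (rowB 3 eng mog cd0q2 cd2q0 pd3 0 true true true .up 2 0 3 (qsf 0 536870912 0 536870912 3) ndB0q2 ndB2q0 pcB3 Cut.none Ext.none)

def k0_pp_203 : ∃ t, chk3 f_pp_203 t 1 1 1 = true :=
  ⟨(l 5), by decide +kernel⟩

theorem c_pp_203 : CertB 0 536870912 0 536870912 966367641 24778659 3 eng mog cd0q2 cd2q0 pd3 true true true .up 2 0 3
    ndB0q2 ndB2q0 pcB3 Cut.none Ext.none :=
  certB0 (fam := true) (s1 := true) (s2 := true) (a := 2) (b := 0) (c := 3) (cn := .up) (n1 := ndB0q2) (n2 := ndB2q0) (pc := pcB3) (cut := Cut.none) (xt := Ext.none) (P1 := 0) (W1 := 536870912) (P2 := 0) (W2 := 536870912) (P3 := 966367641) (W3 := 24778659) (N0 := 3) (En := eng) (mo := mog) (C1 := cd0q2) (C2 := cd2q0) (C3 := pd3)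
    rfl k0_pp_203

noncomputable def f_pp_213 : ℕ → ℕ → ℕ → ℕ → Bool := onCell 0 536870912 536870912 536870912 966367641 24778659
    (rowB 3 eng mog cd0q2 cd2q1 pd3 0 true true true .pnn 2 1 3 (qsf 0 536870912 536870912 536870912 3) ndB0q2 ndB2q1 pcB3 Cut.none Ext.none)

def k0_pp_213 : ∃ t, chk3 f_pp_213 t 1 1 1 = true :=
  ⟨(l 4), by decide +kernel⟩

theorem c_pp_213 : CertB 0 536870912 536870912 536870912 966367641 24778659 3 eng mog cd0q2 cd2q1 pd3 true true true .pnn 2 1 3
    ndB0q2 ndB2q1 pcB3 Cut.none Ext.none :=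
  certB0 (fam := true) (s1 := true) (s2 := true) (a := 2) (b := 1) (c := 3) (cn := .pnn) (n1 := ndB0q2) (n2 := ndB2q1) (pc := pcB3) (cut := Cut.none) (xt := Ext.none) (P1 := 0) (W1 := 536870912) (P2 := 536870912) (W2 := 536870912) (P3 := 966367641) (W3 := 24778659) (N0 := 3) (En := eng) (mo := mog) (C1 := cd0q2) (C2 := cd2q1) (C3 := pd3)
    rfl k0_pp_213

noncomputable def f_pm_001 : ℕ → ℕ → ℕ → ℕ → Bool := onCell 0 536870912 536870912 536870912 966367641 24778659
    (rowB 3 eng mog cd0q0 cd2q0 pd1 1 true true false .up 0 0 1 (qsf 0 536870912 0 536870912 1) ndB0q0 ndB2q0 pcB1 Cut.none Ext.none)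

def k0_pm_001 : ∃ t, chk3 f_pm_001 t 1 1 1 = true :=
  ⟨(b (l 3) (b (l 3) (a (l 2) (b (l 3) (b (l 3) (a (l 2) (a (l 2) (b (l 3) (a (l 2) (a (a (l 2) (b (c (l 197735141735) (l 16142392)) (l 2))) (b (c (c (l 193977045335) (l 16184936)) (a (l 16133600) (l 16125912))) (c (l 16186352) (l 16113416))))))))))))), by decide +kernel⟩

theorem c_pm_001 : CertB 0 536870912 0 536870912 966367641 24778659 3 eng mog cd0q0 cd2q0 pd1 true true false .up 0 0 1
    ndB0q0 ndB2q0 pcB1 Cut.none Ext.none :=
  certB1 (fam := true) (s1 := true) (s2 := false) (a := 0) (b := 0) (c := 1) (cn := .up) (n1 := ndB0q0) (n2 := ndB2q0) (pc := pcB1) (cut := Cut.none) (xt := Ext.none) (P1 := 0) (W1 := 536870912) (P2 := 0) (W2 := 536870912) (P3 := 966367641) (W3 := 24778659) (N0 := 3) (En := eng) (mo := mog) (C1 := cd0q0) (C2 := cd2q0) (C3 := pd1)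
    rfl (fun _ => rfl) k0_pm_001

noncomputable def cut_pm_011 : Cut := Cut.of [[⟨0, 0, 0, 67108864⟩, ⟨1, 1, 0, 67108864⟩, ⟨2, 1, 0, 67108864⟩]]

noncomputable def f_pm_011 : ℕ → ℕ → ℕ → ℕ → Bool := onCell 0 536870912 536870912 536870912 966367641 24778659
    (rowB 3 eng mog cd0q0 cd2q1 pd1 1 true true false .pnn 0 1 1 (qsf 0 536870912 536870912 536870912 1) ndB0q0 ndB2q1 pcB1 cut_pm_011 Ext.none)

def k0_pm_011 : ∃ t, chk3 f_pm_011 t 1 1 1 = true :=
  ⟨(b (l 3) (b (l 3) (b (l 3) (b (l 3) (a (b (l 3) (a (b (l 3) (a (a (l 6) (a (l 6) (b (l 3) (a (l 6) (l 16690344))))) (a (a (a (l 279340433591) (l 226727068679)) (c (l 306183914455) (l 304573330295))) (a (l 274508481223) (l 285245864055))))) (a (a (b (l 3) (a (l 16594640) (l 16605312))) (a (l 229411197703) (l 238001116935))) (a (a (l 180019041319) (l 168744705895)) (c (l 219747363191) (l 16384984)))))) (b (a (l 3) (a (l 3) (l 3))) (a (a (a (a (l 252496243895) (l 16334576)) (b (l 258938582423) (l 16349976))) (a (c (l 239611172007) (l 16255464)) (b (c (l 16314360) (l 16287736))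 (l 16240488)))) (a (a (b (c (l 230484282599) (l 16249376)) (c (l 16254048) (l 16230376))) (c (b (a (l 16244712) (l 16226968)) (l 16195256)) (a (l 16201656) (l 190755772759)))) (a (b (a (c (l 16241800) (l 16187632)) (c (b (l 16200464) (l 16189472)) (l 16171088))) (a (l 16179632) (l 16142504))) (b (a (c (a (l 16184024) (l 16177168)) (l 169817808807)) (c (a (l 16191576) (l 16185312)) (l 266320328263))) (a (c (l 16160656) (l 16135144)) (c (l 16147440) (l 16119440))))))))))))), by decide +kernel⟩

theorem c_pm_011 : CertB 0 536870912 536870912 536870912 966367641 24778659 3 eng mog cd0q0 cd2q1 pd1 true true false .pnn 0 1 1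
    ndB0q0 ndB2q1 pcB1 cut_pm_011 Ext.none :=
  certB1 (fam := true) (s1 := true) (s2 := false) (a := 0) (b := 1) (c := 1) (cn := .pnn) (n1 := ndB0q0) (n2 := ndB2q1) (pc := pcB1) (cut := cut_pm_011) (xt := Ext.none) (P1 := 0) (W1 := 536870912) (P2 := 536870912) (W2 := 536870912) (P3 := 966367641) (W3 := 24778659) (N0 := 3) (En := eng) (mo := mog) (C1 := cd0q0) (C2 := cd2q1) (C3 := pd1)
    rfl (fun _ => rfl) k0_pm_011

noncomputable def cut_pm_012 : Cut := Cut.of [[⟨0, 0, 0, 67108864⟩, ⟨1, 1, 0, 67108864⟩, ⟨2, 1, 0, 67108864⟩]]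

noncomputable def f_pm_012 : ℕ → ℕ → ℕ → ℕ → Bool := onCell 0 536870912 1073741824 536870912 966367641 24778659
    (rowB 3 eng mog cd0q0 cd2q1 pd2 1 true true false .pnp 0 1 2 (qsf 0 536870912 536870912 536870912 2) ndB0q0 ndB2q1 pcB2 cut_pm_012 Ext.none)

def k0_pm_012 : ∃ t, chk3 f_pm_012 t 4 8 1 = true :=
  ⟨(b (a (a (l 6) (a (l 6) (a (l 6) (a (l 6) (b (b (c (l 16649536) (l 16634496)) (c (l 16614280) (l 16613832))) (b (l 16560416) (l 16496696))))))) (a (b (b (a (b (a (l 16659232) (l 16648600)) (a (l 16650720) (l 16640568))) (a (l 16582328) (l 16594280))) (a (c (a (l 16606608) (l 16596640)) (a (l 16606944) (l 16598008))) (c (l 16582624) (l 16586032)))) (a (b (b (l 16563912) (l 16535136)) (c (l 16502968) (l 16481152))) (b (b (l 16542288) (l 16493416)) (a (l 16475912) (l 16469584))))) (b (b (a (b (l 16596448) (l 16590072)) (l 16549136)) (a (c (l 16566528) (l 16574024)) (l 16517480))) (a (b (a (l 16518632) (l 16513552)) (l 16462104)) (b (l 16507056) (l 16454864)))))) (a (a (b (l 6) (l 2)) (b (a (l 6) (a (l 6) (a (l 6) (b (l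 16438512) (l 16380536))))) (b (a (l 6) (a (l 6) (b (l 16317624) (l 16288632)))) (a (l 2) (a (b (l 6) (l 2)) (b (c (l 16298488) (l 16262376)) (a (l 16252800) (l 16250536)))))))) (a (b (a (b (c (l 16438320) (l 16420984)) (a (c (l 16387720) (l 16363664)) (l 16369792))) (b (a (l 16420048) (l 16414560)) (b (l 16354760) (l 16327136)))) (a (b (a (c (l 16333440) (l 16303424)) (l 16313376)) (a (c (l 16279216) (l 16243272)) (l 16251760))) (b (b (l 16299528) (l 16271936)) (a (l 16232168) (l 16250056))))) (b (a (b (l 16408344) (l 16333712)) (b (l 16381816) (l 16329792))) (a (c (l 16285808) (l 16262456)) (b (l 16277768) (l 16225704))))))), by decide +kernel⟩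

def k1_pm_012 : ∃ t, chk3 f_pm_012 t 5 8 1 = true :=
  ⟨(a (b (a (b (a (b (l 16559088) (l 16529312)) (a (l 16464232) (l 16460408))) (a (b (l 16499712) (l 16449264)) (c (l 16462456) (l 16477080)))) (b (b (l 16475752) (l 16450728)) (c (l 16392440) (l 16434184)))) (a (b (a (c (l 16374040) (l 16373344)) (l 16288328)) (a (c (l 16278280) (l 16267248)) (l 16274536))) (b (c (l 16367616) (l 16379048)) (a (l 16277912) (l 16282936))))) (b (a (b (b (l 16424280) (l 16466368)) (b (l 16424048) (l 16402488))) (b (c (l 16522208) (l 16491384)) (l 16406528))) (a (b (c (l 16371840) (l 16388888)) (a (l 16289584) (l 16297800))) (c (l 16238688) (l 16274888))))), by decide +kernel⟩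

def k2_pm_012 : ∃ t, chk3 f_pm_012 t 2 9 1 = true :=
  ⟨(a (a (b (a (l 2) (b (a (l 2) (b (a (l 2) (b (l 16201760) (l 2))) (l 2))) (l 2))) (l 2)) (b (a (b (a (b (a (c (b (l 16238552) (l 16211440)) (l 16246080)) (l 16192784)) (a (b (l 16161464) (l 2)) (a (l 16131824) (l 16122624)))) (b (a (l 16176576) (l 16195232)) (a (l 16120936) (l 16140344)))) (a (a (l 2) (b (l 16066832) (l 2))) (b (a (c (l 16110680) (l 16061128)) (l 16085368)) (a (l 16030368) (l 16093176))))) (b (a (c (l 16176024) (l 16149528)) (c (l 16161176) (l 16154360))) (a (c (a (l 16081600) (l 16081584)) (l 16025728)) (a (l 16062280) (l 16043936))))) (a (a (l 2) (b (a (l 2) (b (l 15975032) (l 2))) (l 2))) (a (b (a (b (l 15997600) (l 15921944)) (b (l 15979328) (l 15925320))) (a (l 2) (l 15840088))) (b (a (l 15945552) (l 15939104)) (a (b (l 15875832) (l 15822136)) (b (l 15880888) (l 15827848)))))))) (a (b (a (b (a (l 16174168) (l 16155344)) (a (l 16064392) (l 16056344))) (b (a (l 16161752) (l 16190784)) (c (l 16079392) (l 16083544)))) (a (b (a (l 15961008) (l 15956424))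 (a (c (l 15889168) (l 15836800)) (l 15855488))) (b (a (l 15989512) (l 16003264)) (a (l 15891272) (l 15907712))))) (a (b (b (c (l 16206272) (l 16206080)) (a (l 16110200) (l 16124376))) (b (l 16027192) (a (l 15925784) (l 15945440)))) (b (b (l 16229384) (l 16146400)) (a (l 16009616) (l 16028048)))))), by decide +kernel⟩

def k3_pm_012 : ∃ t, chk3 f_pm_012 t 3 4 1 = true :=
  ⟨(b (a (a (b (a (c (l 16343896) (l 16321384)) (b (l 16292728) (l 16453392))) (a (b (l 16399336) (l 16325856)) (b (l 16403112) (l 16336224)))) (b (a (c (l 16261672) (l 16245936)) (b (c (l 16317112) (l 16298608)) (l 16362416))) (a (l 16307888) (l 16304544)))) (a (b (a (b (c (l 16275160) (l 16259560)) (l 16300080)) (b (a (l 16197136) (l 16158112)) (l 16219608))) (a (l 16245936) (b (l 16326760) (l 16330912)))) (b (a (b (c (l 16139752) (l 16124864)) (l 16184176)) (b (c (a (l 16180232) (l 16166784)) (a (l 16162832) (l 16146848))) (c (l 16217880) (l 16211728)))) (a (b (l 16290448) (l 16320696)) (b (l 16257408) (l 16293104)))))) (a (a (b (a (b (l 16250544) (l 16173416))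 (l 16147888)) (a (c (l 16060928) (l 16047600)) (l 16085240))) (b (a (l 16182152) (l 16191296)) (a (l 16109872) (l 16130392)))) (a (b (a (l 16260568) (l 16263448)) (a (l 16148152) (l 16141472))) (b (a (l 16262472) (l 16257272)) (a (l 16172864) (l 16137048)))))), by decide +kernel⟩

def k4_pm_012 : ∃ t, chk3 f_pm_012 t 2 5 1 = true :=
  ⟨(a (b (a (l 2) (b (a (l 2) (b (a (l 2) (b (l 15771432) (l 2))) (l 2))) (l 2))) (l 2)) (b (a (b (b (a (a (b (l 15784936) (l 15732504)) (l 15753592)) (a (l 15833896) (l 15810968))) (a (b (a (l 15680016) (l 15697608)) (a (l 2) (b (l 15659200) (b (l 15640280) (l 15627736))))) (b (a (l 15716848) (l 15737720)) (b (a (l 15679320) (l 15701072)) (a (b (l 15660800) (l 15648520)) (l 15718856)))))) (a (a (l 2) (b (l 15610056) (l 2))) (a (b (l 15653168) (l 15484496)) (c (l 15575184) (l 15528536))))) (b (b (a (a (l 15831624) (l 15853856)) (l 15888000)) (a (b (a (l 15760224) (l 15784312)) (b (a (l 15724464) (l 15749440)) (a (l 15700856) (l 15726384)))) (b (l 15821248) (b (l 15787712) (l 15807440))))) (a (a (c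 (l 15620136) (l 15558024)) (l 15617752)) (c (l 15686888) (l 15634528))))) (a (a (l 2) (b (a (l 2) (b (l 15405328) (l 2))) (l 2))) (a (b (a (b (l 15435720) (l 15330592)) (b (l 15467736) (l 15365032))) (a (l 2) (l 15217632))) (b (c (l 15482304) (l 15430648)) (c (l 15290520) (l 15217512))))))), by decide +kernel⟩

def k5_pm_012 : ∃ t, chk3 f_pm_012 t 3 5 1 = true :=
  ⟨(a (b (b (a (b (a (l 15931240) (l 15970032)) (b (a (l 15868256) (l 15910832)) (a (b (l 15836520) (l 15815440)) (l 15850064)))) (b (a (l 16002640) (l 16031192)) (b (a (l 15947272) (l 15979688)) (a (l 15888912) (l 15923768))))) (a (a (l 15716608) (l 15767832)) (a (l 15813016) (l 15854264)))) (a (a (b (a (l 15516744) (l 15548608)) (a (l 15321736) (l 15358520))) (b (l 15594224) (l 15411552))) (a (b (l 15649544) (l 15476832)) (b (l 15700992) (l 15538312))))) (b (b (a (b (a (l 16057016) (l 16079400)) (b (a (l 16009408) (l 16035712)) (a (l 15955968) (l 15984800)))) (b (a (l 16097920) (l 16112136)) (b (l 16047144) (a (l 16009840) (l 16030632))))) (a (a (l 15892904) (l 15928208))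 (a (l 15959744) (l 15987008)))) (a (b (a (l 15749880) (l 15795496)) (a (l 15597304) (c (l 15677264) (l 15628520)))) (b (a (l 15837512) (l 15791576)) (a (c (l 15724152) (l 15688104)) (l 15755616)))))), by decide +kernel⟩

def k6_pm_012 : ∃ t, chk3 f_pm_012 t 1 3 1 = true :=
  ⟨(a (a (l 2) (b (a (l 2) (b (a (l 2) (b (a (l 2) (l 15075888)) (l 2))) (l 2))) (l 2))) (a (b (a (b (a (b (a (l 15118312) (l 15159888)) (a (l 2) (l 14953232))) (b (a (l 15200336) (l 15239384)) (a (l 14998360) (l 15042160)))) (b (a (l 2) (a (l 2) (l 14837128))) (l 2))) (b (a (b (l 15295272) (a (l 15084368) (l 15125472))) (b (l 15366624) (c (l 15216512) (l 15136784)))) (b (a (c (b (l 15020136) (l 14925544)) (b (l 14894168) (l 14790168))) (c (b (l 15106624) (l 15018840)) (l 14926184))) (a (a (l 2) (a (l 2) (l 14732056))) (c (l 14905920) (l 14799256)))))) (a (l 2) (b (b (a (l 2) (c (l 14702944) (l 14564816))) (l 2)) (l 2)))) (b (b (a (b (a (c (l 15472712) (l 15399072)) (c (l 15534976) (l 15473752))) (a (b (l 15291640) (l 15208344)) (a (l 15331712) (l 15349480))))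 (b (a (l 15569544) (l 15628424)) (a (l 15426016) (l 15494592)))) (a (b (a (c (l 15150440) (l 15051656)) (c (l 15232592) (l 15150472))) (a (c (l 14981992) (l 14872952)) (c (l 15073472) (l 14982624)))) (b (a (c (l 15308376) (l 15243960)) (l 15334008)) (a (c (l 15158328) (l 15086416)) (l 15189480))))) (a (b (b (a (c (l 14809344) (l 14691600)) (c (l 14909984) (l 14811936))) (a (c (l 14633328) (l 14508792)) (c (l 14742872) (l 14639520)))) (a (l 2) (b (c (l 14572976) (l 14466592)) (l 2)))) (b (b (a (c (l 15003720) (l 14925816)) (c (l 15089648) (l 15033048))) (a (c (l 14845296) (l 14763256)) (c (l 14939640) (l 14879720)))) (b (a (c (l 14683824) (l 14599864)) (c (l 14786352) (l 14725272))) (a (c (l 14520144) (l 14436872)) (c (l 14630568) (l 14570888))))))))), by decide +kernel⟩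

theorem s7_pm_012 : ∃ t, chk3 f_pm_012 t 1 5 1 = true := ex3_a k4_pm_012 k5_pm_012

theorem s8_pm_012 : ∃ t, chk3 f_pm_012 t 2 8 1 = true := ex3_a k0_pm_012 k1_pm_012

theorem s9_pm_012 : ∃ t, chk3 f_pm_012 t 2 4 1 = true := ex3_b s8_pm_012 k2_pm_012

theorem s10_pm_012 : ∃ t, chk3 f_pm_012 t 1 4 1 = true := ex3_a s9_pm_012 k3_pm_012

theorem s11_pm_012 : ∃ t, chk3 f_pm_012 t 1 2 1 = true := ex3_b s10_pm_012 s7_pm_012

theorem s12_pm_012 : ∃ t, chk3 f_pm_012 t 1 1 1 = true := ex3_b s11_pm_012 k6_pm_012

theorem c_pm_012 : CertB 0 536870912 536870912 536870912 966367641 24778659 3 eng mog cd0q0 cd2q1 pd2 true true false .pnp 0 1 2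
    ndB0q0 ndB2q1 pcB2 cut_pm_012 Ext.none :=
  certB1 (fam := true) (s1 := true) (s2 := false) (a := 0) (b := 1) (c := 2) (cn := .pnp) (n1 := ndB0q0) (n2 := ndB2q1) (pc := pcB2) (cut := cut_pm_012) (xt := Ext.none) (P1 := 0) (W1 := 536870912) (P2 := 536870912) (W2 := 536870912) (P3 := 966367641) (W3 := 24778659) (N0 := 3) (En := eng) (mo := mog) (C1 := cd0q0) (C2 := cd2q1) (C3 := pd2)
    rfl (fun _ => rfl) s12_pm_012

end Pool.Agent.Strip051.G.I9000_9231.Tab.C.BA02

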