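import Pool.Agent.Strip051.G.I9000_9231.Tab
import Pool.Agent.Strip051.PB.ExtD2

/-! # Certificates B4 (generated) -/

set_option linter.all false
set_option maxRecDepth 100000

namespace Pool.Agent.Strip051.G.I9000_9231.Tab.C.BA02

open Pool.Agent.Strip051.PB Pool.Agent.Strip051.PB.T
open Pool.Agent.Strip051.G.I9000_9231.Tab

noncomputable def f_pm_022 : ℕ → ℕ → ℕ → ℕ → Bool := onCell 0 536870912 1073741824 536870912 966367641 24778659
    (rowB 3 eng mog cd0q0 cd2q2 pd2 1 true true false .pp 0 2 2 (qsf 0 536870912 1073741824 536870912 2) ndB0q0 ndB2q2 pcB2 Cut.none Ext.none)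

def k0_pm_022 : ∃ t, chk3 f_pm_022 t 4 8 1 = true :=
  ⟨(b (l 3) (b (l 3) (b (l 3) (a (b (b (b (l 3) (a (a (a (a (c (c (l 121499831207) (l 119889200023)) (c (l 117741699047) (l 122573506615))) (c (l 16407656) (l 132774116423))) (c (l 16425808) (l 16400600))) (l 3)) (l 3))) (a (a (a (c (c (c (l 16377000) (l 16371552)) (a (c (l 16388264) (l 16380008)) (l 16404272))) (c (a (c (l 16371664) (l 16363224)) (l 16388928)) (a (c (l 16354688) (l 16346056)) (l 16373232)))) (c (b (l 16421992) (l 16418968)) (b (l 16395968) (l 16391480)))) (c (a (l 16460672) (l 16522328)) (a (l 16438952) (l 16505432)))) (a (a (l 16557168) (l 16600216)) (a (l 16642912) (l 3))))) (a (a (a (c (b (c (a (l 16395288) (l 16414104)) (a (l 16377488) (l 16397616))) (b (a (l 16371520) (l 16401472)) (a (l 16379056) (l 16398520)))) (c (b (a (l 16359256) (l 16380736)) (a (l 16351056) (l 16372528))) (b (a (l 16340608) (l 16363464)) (a (l 16330816) (l 16353672))))) (c (c (l 16419200) (l 16403896)) (c (l 16388232) (l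 16372200)))) (a (c (l 16451672) (a (l 16414144) (l 16457816))) (c (l 16513152) (l 16491936)))) (a (c (a (l 16553824) (l 16594416)) (a (l 16537416) (l 16582616))) (a (c (l 16634672) (l 16627360)) (c (l 322155821287) (l 319471451031)))))) (a (a (b (l 1) (c (l 578780177591) (l 648036537239))) (l 1)) (l 1)))))), by decide +kernel⟩

def k1_pm_022 : ∃ t, chk3 f_pm_022 t 8 18 2 = true :=
  ⟨(b (a (a (b (b (a (b (c (l 16352392) (a (l 16364160) (l 16384288))) (b (l 16361536) (l 16355960))) (a (l 16389872) (l 16409760))) (a (b (a (l 16362784) (l 16382256)) (l 16350816)) (l 16398440))) (b (a (a (l 16326904) (l 16346392)) (l 16376032)) (a (c (l 16360392) (l 16330408)) (l 16384944)))) (a (b (b (l 16460848) (l 16449024)) (b (l 16437128) (l 16425088))) (b (b (l 16501368) (l 16489568)) (l 16471728)))) (a (a (b (l 16515232) (l 16512472)) (b (l 16587304) (l 16553136))) (b (b (a (l 16622928) (l 16641664)) (l 16568200)) (b (l 16577384) (l 16565472))))) (a (b (a (c (b (l 16347552) (l 16357392))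 (a (l 16288680) (l 16350432))) (b (l 16370184) (l 16399632))) (a (b (a (l 16307552) (l 16347192)) (a (l 16292552) (l 16332480))) (b (l 16386760) (l 16393504)))) (a (b (l 16445552) (l 16377784)) (b (l 16526304) (l 16500848))))), by decide +kernel⟩

def k2_pm_022 : ∃ t, chk3 f_pm_022 t 8 18 3 = true :=
  ⟨(a (b (a (a (b (b (c (a (b (l 16342832) (l 16334600)) (l 16360200)) (b (l 16311424) (a (l 16311160) (l 16334024)))) (c (l 16311952) (a (l 16296352) (l 16319224)))) (b (c (l 16295360) (l 16266976)) (b (l 16267544) (l 16258368)))) (b (b (c (l 16371808) (l 16352576)) (a (l 16332928) (l 16376408))) (b (l 16346952) (l 16328680)))) (a (b (b (l 16428456) (l 16410384)) (b (l 16392224) (l 16373968))) (b (b (l 16473960) (l 16455904)) (b (l 16437768) (l 16419528))))) (a (b (a (b (l 16259624) (l 16246984)) (b (l 16310288) (l 16291760))) (b (a (l 16228304) (l 16273072)) (a (l 16209984) (l 16254696)))) (b (b (a (l 16355592) (l 16401184)) (l 16275976)) (b (l 16257296) (l 16322744))))) (b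 (a (b (b (a (l 16519464) (l 16564680)) (l 16482096)) (c (l 16485056) (l 16445616))) (b (b (a (l 16609448) (l 16653744)) (l 16550760)) (a (l 16564352) (l 16587752)))) (a (b (b (l 16469424) (l 16450992)) (b (l 16432408) (l 16413816))) (b (l 16466184) (l 16471032))))), by decide +kernel⟩

def k3_pm_022 : ∃ t, chk3 f_pm_022 t 9 18 1 = true :=
  ⟨(b (a (a (b (b (c (l 479995906231) (l 437583107687)) (a (c (l 16689840) (l 16679544)) (l 525629908903))) (b (a (l 16628000) (l 454226065079)) (a (l 16613080) (l 320008328679)))) (a (b (l 1) (b (l 1) (l 791917824663))) (l 1))) (l 1)) (a (c (b (a (l 16625344) (a (l 419329389191) (l 509523736711))) (a (l 16600080) (b (l 325376909703) (l 16572176)))) (a (b (a (l 16574192) (l 16638040)) (a (l 16558144) (l 16601216))) (b (a (l 410202609991) (l 804265904519)) (l 308197072807)))) (a (b (l 1) (a (c (l 504691843655) (l 533682884567)) (l 1))) (l 1)))), by decide +kernel⟩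

def k4_pm_022 : ∃ t, chk3 f_pm_022 t 4 19 1 = true :=
  ⟨(b (a (a (a (c (b (a (l 16269680) (l 16309584)) (a (l 16240336) (l 16280200))) (b (a (l 16183416) (l 16228088)) (a (l 16149376) (l 16193992)))) (c (c (l 16332416) (l 16232104)) (b (c (l 16315096) (l 16276720)) (l 16178000)))) (a (c (b (l 16453104) (l 16423624)) (b (l 16387016) (l 16352784))) (c (l 16435952) (l 16375576)))) (b (a (a (c (l 16592752) (l 16501520)) (c (l 16553784) (l 16605344))) (a (a (b (l 371010866503) (l 311418200263)) (c (l 501470507799) (l 507376175655))) (l 1))) (a (a (l 16431744) (l 16552456)) (a (c (l 314639373303) (l 302828287175)) (c (l 582538010375) (l 587369897239)))))) (a (a (a (c (b (a (l 16212224) (l 16252056)) (a (l 16185280) (l 16225080))) (b (a (l 16116832) (l 16161408)) (a (l 16085720) (l 16130256)))) (c (b (l 16313056) (l 16286040)) (b (l 16229240) (l 16198024)))) (a (c (l 16297848) (b (l 16320072) (l 16288808))) (b (l 16339016) (l 16309864)))) (c (a (b (l 16489096) (l 16462016)) (a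 (l 16511480) (b (l 522945246327) (l 315176158007)))) (a (a (l 16439528) (l 16511896)) (a (l 16555768) (b (l 500396686871) (l 16528736))))))), by decide +kernel⟩

def k5_pm_022 : ∃ t, chk3 f_pm_022 t 5 4 1 = true :=
  ⟨(b (l 1) (b (l 1) (a (b (l 1) (a (a (b (l 1) (c (l 613139571063) (l 616897745431))) (l 1)) (l 1))) (l 1)))), by decide +kernel⟩

def k6_pm_022 : ∃ t, chk3 f_pm_022 t 3 4 1 = true :=
  ⟨(l 1), by decide +kernel⟩

def k7_pm_022 : ∃ t, chk3 f_pm_022 t 8 10 1 = true :=
  ⟨(b (a (b (a (c (b (l 16158256) (l 16133552)) (b (a (l 16056000) (l 16100496)) (a (l 16027696) (l 16072160)))) (c (b (l 16260160) (l 16235424)) (b (l 16168224) (l 16139840)))) (b (c (a (a (l 16111320) (l 16151056)) (l 16211944)) (a (a (l 15980032) (l 16045440)) (l 16113096))) (a (b (c (l 16093504) (a (l 15982312) (l 16026736))) (b (c (a (l 16087200) (l 16126936)) (a (l 15932120) (l 16018504))) (c (a (a (l 16030664) (l 16092248)) (l 16101160)) (a (b (b (b (l 15971464) (b (l 15971320) (l 15939880)))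 (l 15949488)) (l 15925888)) (a (l 15960184) (l 15982576)))))) (b (c (l 16195344) (l 16094392)) (c (b (l 16187824) (l 16141088)) (b (l 16086160) (a (l 16037360) (l 16103688)))))))) (a (b (c (l 16288032) (b (l 16258944) (l 16230528))) (b (c (l 16294168) (l 16203768)) (b (c (l 16277576) (l 16185056)) (b (c (l 16270064) (l 16176848)) (c (l 16265280) (l 16171680)))))) (b (b (l 16281992) (l 16276392)) (b (l 16230320) (b (l 16275624) (b (l 16267800) (l 16199928))))))) (a (c (b (c (a (b (l 16094056) (l 16071472)) (l 16182352)) (a (a (b (l 16039688) (l 16015192)) (l 16068264)) (l 16130800))) (a (a (b (l 16000304) (l 15977448)) (l 16007536)) (a (l 16089896) (l 16130792)))) (b (a (a (b (a (c (l 15971088) (l 15910800)) (l 15921240)) (c (l 15955256) (l 15893488))) (b (l 15975592) (l 15948008))) (a (b (l 16041584) (l 16013960)) (l 16073040))) (c (a (a (b (l 15929184) (l 15903528)) (l 15959440)) (l 16025240)) (a (a (b (l 15865384) (l 15837760)) (l 15897024)) (l 15966248))))) (a (c (b (l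 16176096) (l 16192456)) (b (c (l 16166088) (l 16115504)) (l 16065528))) (b (b (l 16142392) (l 16137728)) (c (l 16273984) (l 16176016)))))), by decide +kernel⟩

def k8_pm_022 : ∃ t, chk3 f_pm_022 t 9 10 1 = true :=
  ⟨(b (b (a (a (b (l 16386152) (l 16359584)) (l 16388728)) (a (l 16502968) (c (l 16488400) (l 16540856)))) (a (b (a (l 16334504) (l 16413376)) (b (a (l 16358856) (l 16416792)) (a (b (l 16351056) (l 16325152)) (l 16364488)))) (b (a (l 16506720) (l 16540736)) (b (l 16439272) (a (l 16436968) (l 16520368)))))) (a (c (a (l 16292304) (a (l 16390984) (l 16469176))) (b (l 16171304) (l 16158608))) (a (b (l 16406280) (l 16355816)) (l 16363352)))), by decide +kernel⟩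

def k9_pm_022 : ∃ t, chk3 f_pm_022 t 4 11 1 = true :=
  ⟨(c (a (a (b (b (a (a (b (l 15954928) (l 15953704)) (l 16004376)) (a (l 16044752) (l 16085608))) (a (c (l 15952672) (l 15886224)) (l 15979344))) (b (a (a (l 15857704) (l 15918184)) (l 15978776)) (a (a (l 15816672) (l 15877088)) (l 15937600)))) (a (b (b (l 16147216) (l 16103304)) (b (l 16060720) (l 16019456))) (b (l 16122680) (l 16121288)))) (a (b (b (l 16240992) (l 16217976)) (l 16049616)) (b (l 16337192) (l 16283424)))) (a (a (b (b (a (a (b (l 15823760) (l 15777080)) (c (l 15908904) (l 15842664))) (a (l 15920872) (l 15966048))) (a (a (c (l 15817112) (l 15744960)) (l 15804472)) (a (l 15870184) (l 15915272)))) (c (a (b (l 15749464) (l 15704096)) (l 15865912)) (a (b (l 15685648) (l 15626720)) (b (l 15808576) (l 15759912))))) (a (b (b (l 16033816) (l 15982936)) (b (l 15933864) (l 15886608))) (b (b (l 16123232) (l 16072240)) (l 15999136)))) (a (b (c (l 16146832) (l 16075632)) (a (l 16086400) (l 16169312))) (b (a (l 16322744)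 (l 16395680)) (l 16154680))))), by decide +kernel⟩

def k10_pm_022 : ∃ t, chk3 f_pm_022 t 5 5 1 = true :=
  ⟨(b (a (b (a (b (a (c (b (l 527240076375) (l 16482472)) (l 507912784487)) (b (l 1) (l 667363387719))) (b (a (l 16447936) (l 582000787815)) (b (c (l 16420112) (l 16451544)) (a (l 16429128) (l 16399928))))) (b (l 1) (b (l 1) (a (b (l 1) (l 461741609463)) (l 1))))) (a (c (l 16363128) (l 16406840)) (c (b (l 272762955063) (l 16299992)) (b (l 195990484887) (l 16377056))))) (b (l 1) (a (b (l 1) (a (l 488584985095) (l 1))) (l 1)))) (a (a (b (b (l 16367760) (l 16396272)) (b (l 16350576) (l 16306376))) (b (b (l 16278920) (l 16291848)) (l 16224664))) (c (a (b (a (l 16337272) (l 301217004631)) (l 16319000)) (b (l 513817982167) (l 231960522791))) (a (b (b (l 187400427959) (l 16340760)) (l 16329304)) (b (l 393558920519) (l 156798659255)))))), by decide +kernel⟩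

def k11_pm_022 : ∃ t, chk3 f_pm_022 t 3 5 1 = true :=
  ⟨(a (b (l 1) (a (a (b (l 1) (b (l 1) (l 461741111095))) (l 1)) (l 1))) (l 1)), by decide +kernel⟩

def k12_pm_022 : ∃ t, chk3 f_pm_022 t 8 6 1 = true :=
  ⟨(b (a (b (c (b (a (a (l 15776968) (l 15837320)) (l 15897760)) (a (a (l 15738600) (l 15798888)) (l 15859240))) (a (b (a (l 15609376) (l 15684624)) (a (l 15555720) (l 15641336))) (b (l 15751424) (l 15707976)))) (c (a (c (l 15742568) (b (l 15702176) (l 15665520))) (b (l 15822048) (l 15786168))) (a (b (a (l 15514384) (l 15599872)) (c (l 15581576) (l 15494408))) (b (l 15666344) (l 15626520))))) (a (b (c (b (l 15979520) (l 15940912)) (a (l 15796792) (l 15841504))) (c (l 15885480) (l 15714496))) (b (c (l 16041280) (l 15907952)) (c (l 15966552) (l 15823960))))) (a (b (c (a (b (c (l 15712512) (l 15630296)) (l 15596744)) (b (l 15751600) (l 15718328))) (a (b (a (l 15479072) (l 15522368)) (a (l 15443144) (l 15486312))) (b (l 15588488) (l 15552248)))) (c (a (b (l 15585856) (l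 15555272)) (b (l 15686344) (l 15655640))) (a (b (a (l 15408992) (l 15452024)) (l 15359936)) (b (l 15517776) (l 15485064))))) (b (c (a (l 15816136) (l 15897040)) (a (l 15658984) (l 15747112))) (c (a (l 15751952) (l 15832688)) (a (l 15589592) (l 15677328)))))), by decide +kernel⟩

def k13_pm_022 : ∃ t, chk3 f_pm_022 t 8 7 1 = true :=
  ⟨(b (a (c (b (a (b (l 15525944) (l 15476888)) (b (l 15626184) (l 15597976))) (a (b (l 15450024) (l 15424360)) (b (l 15570992) (l 15545208)))) (b (a (b (a (l 15345968) (l 15388720)) (a (l 15317048) (l 15359664))) (b (l 15454088) (l 15424840))) (a (b (a (l 15289832) (l 15332312)) (a (l 15264288) (l 15306632))) (b (l 15397288) (l 15371408))))) (b (c (a (l 15692840) (l 15773392)) (a (l 15527176) (l 15614504))) (c (a (l 15638648) (l 15719040)) (a (l 15471592) (l 15558488))))) (b (b (a (a (b (c (l 15447816) (l 15267216)) (c (b (l 15376480) (l 15382128)) (a (b (l 15238816) (l 15237184)) (l 15277960)))) (c (l 15520600) (l 15347184))) (c (l 15620416)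 (l 15477664))) (a (c (a (c (l 15466784) (b (l 15387824) (l 15383880))) (b (l 15462312) (l 15496880))) (a (b (a (l 15237672) (l 15273936)) (l 15256704)) (b (a (l 15311864) (l 15352864)) (l 15330280)))) (a (c (l 15557800) (b (l 15416944) (l 15408648))) (l 15580048)))) (a (c (b (a (c (l 15452936) (l 15378664)) (l 15489088)) (a (l 15428104) (l 15479744))) (b (a (c (l 15300136) (l 15217360)) (l 15353664)) (a (l 15285272) (l 15337408)))) (c (b (a (l 15563576) (l 15638656)) (a (l 15554056) (l 15628080))) (b (b (a (l 15406248) (l 15484128)) (l 15434504)) (l 15439552)))))), by decide +kernel⟩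

def k14_pm_022 : ∃ t, chk3 f_pm_022 t 9 3 1 = true :=
  ⟨(c (b (b (a (b (l 16011456) (l 15978528)) (a (l 16101008) (b (l 16329192) (l 16254360)))) (a (b (l 15929840) (l 15907256)) (b (l 16111248) (l 16088592)))) (b (a (b (l 15889728) (l 15835184)) (l 15770496)) (a (b (l 15785440) (b (l 15752256) (a (l 15699952) (l 15769504)))) (b (l 15924520) (l 15796360))))) (b (a (b (b (l 15826984) (l 15784568)) (b (l 15791184) (l 15804824))) (b (b (l 16104992) (l 16104272)) (b (l 16026672) (l 15956016)))) (b (a (b (l 15741488) (l 15684952)) (b (l 15892216) (l 15835152))) (a (b (l 15635024) (b (l 15603928) (a (l 15557416) (l 15628176)))) (b (l 15784680) (l 15553632)))))), by decide +kernel⟩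

def k15_pm_022 : ∃ t, chk3 f_pm_022 t 5 3 1 = true :=
  ⟨(b (a (a (b (b (l 16117072) (c (l 16342752) (l 16233176))) (c (l 16135600) (l 15993512))) (b (b (l 16307384) (l 16249440)) (b (l 16197360) (l 16151136)))) (b (a (b (l 16192248) (l 16296368)) (c (l 16177344) (l 16215896))) (a (c (l 16401496) (l 16306808)) (c (l 16355504) (l 16409088))))) (a (b (c (a (b (l 16149296) (l 16094720)) (l 16224416)) (b (l 15910976) (l 15895528))) (c (a (l 15958952) (l 16125264)) (a (l 15889624) (l 16002048)))) (b (a (c (l 16308056) (l 16200504)) (l 16163264)) (a (c (l 16209792) (l 16098952)) (l 16106768))))), by decide +kernel⟩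

def k16_pm_022 : ∃ t, chk3 f_pm_022 t 3 3 1 = true :=
  ⟨(a (b (a (b (a (c (b (l 226591718887) (l 16269640)) (b (l 16187760) (l 16338304))) (b (b (l 1) (l 447245499511)) (c (l 301753555159) (l 16201600)))) (a (a (l 16175144) (l 16142032)) (c (l 16178216) (l 16229608)))) (b (a (b (l 1) (b (l 1) (l 435971111543))) (l 1)) (a (b (l 300679636983) (l 16130496)) (b (l 493953394871) (l 381747053047))))) (a (b (c (l 16161360) (l 16200104)) (a (l 16298720) (l 16356640))) (b (a (c (l 16227456) (l 16309208)) (c (l 16163024) (l 16201872))) (c (l 16244608) (l 16342776))))) (b (b (l 1) (a (a (b (l 1) (l 491805819863)) (l 1)) (l 1))) (a (b (a (b (l 418254189447) (l 16131792)) (b (l 489658249639) (l 418790979751))) (a (c (l 16160656) (l 16230360)) (b (l 16094664) (l 16141056)))) (b (a (b (l 1) (l 470867685367)) (l 1)) (a (b (l 403758518231) (l 16060040)) (b (l 451540253847) (l 394094749079))))))), by decide +kernel⟩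

theorem s17_pm_022 : ∃ t, chk3 f_pm_022 t 8 3 1 = true := ex3_b k12_pm_022 k13_pm_022

theorem s18_pm_022 : ∃ t, chk3 f_pm_022 t 4 3 1 = true := ex3_a s17_pm_022 k14_pm_022

theorem s19_pm_022 : ∃ t, chk3 f_pm_022 t 2 3 1 = true := ex3_a s18_pm_022 k15_pm_022

theorem s20_pm_022 : ∃ t, chk3 f_pm_022 t 1 3 1 = true := ex3_a s19_pm_022 k16_pm_022

theorem s21_pm_022 : ∃ t, chk3 f_pm_022 t 4 10 1 = true := ex3_a k7_pm_022 k8_pm_022

theorem s22_pm_022 : ∃ t, chk3 f_pm_022 t 4 5 1 = true := ex3_b s21_pm_022 k9_pm_022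

theorem s23_pm_022 : ∃ t, chk3 f_pm_022 t 2 5 1 = true := ex3_a s22_pm_022 k10_pm_022

theorem s24_pm_022 : ∃ t, chk3 f_pm_022 t 1 5 1 = true := ex3_a s23_pm_022 k11_pm_022

theorem s25_pm_022 : ∃ t, chk3 f_pm_022 t 8 18 1 = true := ex3_c k1_pm_022 k2_pm_022

theorem s26_pm_022 : ∃ t, chk3 f_pm_022 t 4 18 1 = true := ex3_a s25_pm_022 k3_pm_022

theorem s27_pm_022 : ∃ t, chk3 f_pm_022 t 4 9 1 = true := ex3_b s26_pm_022 k4_pm_022

theorem s28_pm_022 : ∃ t, chk3 f_pm_022 t 4 4 1 = true := ex3_b k0_pm_022 s27_pm_022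

theorem s29_pm_022 : ∃ t, chk3 f_pm_022 t 2 4 1 = true := ex3_a s28_pm_022 k5_pm_022

theorem s30_pm_022 : ∃ t, chk3 f_pm_022 t 1 4 1 = true := ex3_a s29_pm_022 k6_pm_022

theorem s31_pm_022 : ∃ t, chk3 f_pm_022 t 1 2 1 = true := ex3_b s30_pm_022 s24_pm_022

theorem s32_pm_022 : ∃ t, chk3 f_pm_022 t 1 1 1 = true := ex3_b s31_pm_022 s20_pm_022

theorem c_pm_022 : CertB 0 536870912 1073741824 536870912 966367641 24778659 3 eng mog cd0q0 cd2q2 pd2 true true false .pp 0 2 2
    ndB0q0 ndB2q2 pcB2 Cut.none Ext.none :=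
  certB1 (fam := true) (s1 := true) (s2 := false) (a := 0) (b := 2) (c := 2) (cn := .pp) (n1 := ndB0q0) (n2 := ndB2q2) (pc := pcB2) (cut := Cut.none) (xt := Ext.none) (P1 := 0) (W1 := 536870912) (P2 := 1073741824) (W2 := 536870912) (P3 := 966367641) (W3 := 24778659) (N0 := 3) (En := eng) (mo := mog) (C1 := cd0q0) (C2 := cd2q2) (C3 := pd2)
    rfl (fun _ => rfl) s32_pm_022

noncomputable def f_pm_023 : ℕ → ℕ → ℕ → ℕ → Bool := onCell 0 536870912 1610612736 536870912 966367641 24778659
    (rowB 3 eng mog cd0q0 cd2q2 pd3 1 true true false .up 0 2 3 (qsf 0 536870912 1073741824 536870912 3) ndB0q0 ndB2q2 pcB3 Cut.none Ext.none)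

def k0_pm_023 : ∃ t, chk3 f_pm_023 t 2 1 1 = true :=
  ⟨(b (a (b (a (a (b (b (c (c (a (b (l 15412496) (l 15391696)) (l 15482344)) (b (l 15457168) (l 15439080))) (c (l 15413752) (l 15464512))) (b (c (l 163306798535) (l 15439576)) (l 2))) (l 2)) (b (b (c (c (l 15584744) (l 15614824)) (c (l 15624904) (l 15635968))) (c (c (l 15543152) (l 15578352)) (l 15434728))) (b (a (l 2) (b (l 15602296) (l 2))) (l 2)))) (b (c (a (b (l 15603240) (l 15605752)) (b (l 15853144) (l 15875280))) (a (b (l 15753768) (l 15746384)) (b (l 15920408) (l 15912416)))) (c (a (b (l 15609160) (l 15634704)) (b (l 15836536) (l 15798960))) (a (b (l 15717392) (l 15687272)) (b (l 15883200) (l 15832136)))))) (b (b (a (l 2) (a (l 2) (a (l 2) (l 15823488)))) (l 2)) (l 2))) (b (b (a (b (a (c (l 16041504) (l 16065656)) (l 16163104)) (a (c (l 16000264) (l 16035184)) (l 16083592))) (b (a (l 16255784) (l 16258072)) (a (l 16216008) (l 16249136)))) (a (c (b (a (l 15961432) (l 16048248)) (l 15979768)) (b (l 16061128) (l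 16031288))) (b (a (l 16180440) (l 16237312)) (a (l 16146816) (l 16221400))))) (b (a (c (b (l 15943680) (l 15909424)) (b (l 16000568) (l 15968680))) (c (b (l 16123336) (l 16089808)) (b (l 16184568) (l 16154664)))) (a (b (c (l 15877400) (l 15935472)) (l 2)) (c (b (l 16058552) (l 16030016)) (b (l 16124096) (l 16093008))))))) (a (l 2) (b (b (a (l 2) (b (l 16011496) (l 2))) (l 2)) (l 2)))), by decide +kernel⟩

def k1_pm_023 : ∃ t, chk3 f_pm_023 t 3 1 1 = true :=
  ⟨(b (b (a (b (a (a (l 16240064) (l 16215872)) (c (l 16061136) (l 16113448))) (a (b (a (l 16239736) (l 16229168)) (a (l 16234216) (l 16235968))) (b (l 16193552) (l 16216200)))) (a (b (a (l 16062208) (l 15937528)) (c (l 16117944) (l 16144416))) (a (b (b (l 15926680) (l 15976280)) (l 16052256)) (b (b (c (l 15845904) (l 15845904)) (l 15902432)) (l 15884608))))) (a (b (a (c (l 16215328) (l 16201648)) (b (l 16234576) (l 16249384))) (a (b (l 16218800) (l 16199008)) (c (l 16241056) (l 16287280)))) (b (a (b (l 16190240) (l 16226920))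 (b (l 16104288) (l 16159600))) (a (b (l 16258528) (l 16286832)) (b (l 16213536) (l 16261200)))))) (a (b (b (a (b (l 16174280) (l 16151024)) (b (l 16274128) (l 16269784))) (b (a (a (l 2) (l 16163520)) (l 16256080)) (a (l 2) (l 16239168)))) (b (b (a (l 2) (l 16202648)) (l 2)) (l 2))) (b (b (a (c (l 16285432) (l 16358216)) (b (l 16305288) (l 16345376))) (b (a (l 16344024) (l 16380280)) (a (l 16344744) (l 16402344)))) (a (b (b (l 16328840) (b (l 16292896) (l 16280808))) (l 4)) (b (b (l 16414192) (l 16138024)) (b (b (l 16317240) (l 4)) (l 4))))))), by decide +kernel⟩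

theorem s2_pm_023 : ∃ t, chk3 f_pm_023 t 1 1 1 = true := ex3_a k0_pm_023 k1_pm_023

theorem c_pm_023 : CertB 0 536870912 1073741824 536870912 966367641 24778659 3 eng mog cd0q0 cd2q2 pd3 true true false .up 0 2 3
    ndB0q0 ndB2q2 pcB3 Cut.none Ext.none :=
  certB1 (fam := true) (s1 := true) (s2 := false) (a := 0) (b := 2) (c := 3) (cn := .up) (n1 := ndB0q0) (n2 := ndB2q2) (pc := pcB3) (cut := Cut.none) (xt := Ext.none) (P1 := 0) (W1 := 536870912) (P2 := 1073741824) (W2 := 536870912) (P3 := 966367641) (W3 := 24778659) (N0 := 3) (En := eng) (mo := mog) (C1 := cd0q0) (C2 := cd2q2) (C3 := pd3)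
    rfl (fun _ => rfl) s2_pm_023

noncomputable def f_pm_033 : ℕ → ℕ → ℕ → ℕ → Bool := onCell 1610612736 536870912 0 1230186008 966367641 24778659
    (rowB 3 eng mog cd0q0 cd2q3 pd3 2 true true false .pnn 0 3 3 (qsf 0 536870912 0 1230186008 3) ndB0q0 ndB2q3 pcB3 Cut.none Ext.none)

def k0_pm_033 : ∃ t, chk3 f_pm_033 t 2 2 1 = true :=
  ⟨(l 1), by decide +kernel⟩

def k1_pm_033 : ∃ t, chk3 f_pm_033 t 2 6 1 = true :=
  ⟨(b (l 1) (a (l 1) (a (l 1) (b (l 1) (a (l 1) (a (l 1) (b (l 1) (l 15104312)))))))), by decide +kernel⟩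

def k2_pm_033 : ∃ t, chk3 f_pm_033 t 4 7 1 = true :=
  ⟨(b (l 1) (b (a (l 1) (a (b (l 1) (c (a (b (l 1) (l 15192664)) (b (l 15317704) (l 15374576))) (b (l 15227640) (l 15348200)))) (b (c (c (a (l 15228872) (l 15284792)) (l 55327750295)) (c (l 15387192) (l 15465992))) (c (a (b (l 15373472) (l 15449304)) (l 15276800)) (c (l 15539216) (l 15557752)))))) (a (a (b (l 1) (b (a (l 1) (c (c (l 15378024) (l 15449288)) (l 15463736))) (c (a (c (l 68750254407) (l 15476160)) (c (l 15462664) (l 15533136))) (c (l 15454376) (l 15663456))))) (b (a (b (l 1) (c (c (l 15352624) (l 15423336)) (l 15521552))) (c (b (l 54254184039) (l 15297072)) (c (l 15408976) (l 15597624)))) (c (a (b (l 15260216) (l 15426952)) (b (l 15441016) (l 15567280))) (b (l 15396584) (l 15537536))))) (a (b (c (a (b (l 15335160) (l 15456368)) (b (l 15473088) (l 15553680))) (a (l 15481864) (l 15613888))) (c (a (b (l 15559776) (l 15664600)) (b (l 15635840) (l 15717320))) (a (l 15657112) (l 15773816)))) (b (c (c (l 15336312)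 (a (l 15578824) (l 15651592))) (a (l 15689136) (l 15698976))) (c (a (l 15643536) (l 15774000)) (l 15550744))))))), by decide +kernel⟩

def k3_pm_033 : ∃ t, chk3 f_pm_033 t 5 7 1 = true :=
  ⟨(b (b (b (a (l 1) (a (a (l 1) (a (l 1) (l 15153720))) (a (l 15185560) (l 15230864)))) (a (a (l 1) (c (a (l 1) (l 15124576)) (l 15204168))) (a (c (l 33853208663) (l 15293592)) (c (l 15316832) (l 15373400))))) (a (a (b (l 1) (c (a (l 15015480) (l 15175368)) (l 15169448))) (b (c (a (l 15198056) (l 15253488)) (l 15335384)) (c (a (l 15293672) (l 15390528)) (l 15474000)))) (a (b (c (l 15336920) (l 15427232)) (c (l 15473656) (l 15528152))) (b (c (l 15448616) (l 15500384)) (c (l 15576952) (l 15589824)))))) (b (a (a (b (c (c (l 15160048) (l 15299656)) (l 15335432)) (c (c (l 15395688) (l 15575088)) (l 15480168))) (b (c (a (l 15479272) (l 15533464)) (l 15571744)) (c (l 15502192) (l 15662600)))) (a (b (c (l 15608848) (l 15620120)) (c (l 15736376) (l 15705312))) (b (c (l 15697760) (l 15674648)) (l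 15814712)))) (a (b (a (c (a (l 15672944) (l 15719992)) (l 15653480)) (c (l 15782928) (l 15746832))) (a (c (a (l 15816208) (l 15853048)) (l 15715688)) (c (l 15902384) (l 15820056)))) (b (a (l 15709344) (l 15847128)) (a (l 15677704) (l 15851856)))))), by decide +kernel⟩

def k4_pm_033 : ∃ t, chk3 f_pm_033 t 3 1 1 = true :=
  ⟨(b (a (l 1) (l 4)) (b (a (b (a (l 1) (l 4)) (a (a (b (a (l 1) (l 14939192)) (a (l 15093280) (l 15147800))) (b (a (l 14994920) (l 15060656)) (a (l 15080656) (l 15269392)))) (a (b (a (l 15134864) (l 4)) (a (l 15335624) (l 15403928))) (b (l 4) (a (l 15473680) (l 4)))))) (l 4)) (b (a (a (b (a (b (l 15324568) (a (l 15408848) (l 15454888))) (b (l 15409768) (l 15522136))) (a (b (a (l 15537544) (l 15575152)) (a (l 15657576) (l 15685048))) (b (l 15629104) (l 15724696)))) (b (a (a (l 15540752) (l 15589880)) (a (l 15635648) (l 15686232))) (a (b (l 15695816) (l 15776680)) (a (l 15783040) (l 15813408))))) (a (a (b (l 4) (a (l 15846304) (l 4))) (l 4)) (l 4))) (a (a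 (b (a (b (l 15688496) (l 15854424)) (b (l 15813760) (l 15725312))) (a (b (l 15923104) (l 15985376)) (b (l 15956504) (l 16017584)))) (b (a (b (l 15852248) (l 15920976)) (l 15924232)) (a (b (l 15987408) (l 16052944)) (l 15908032)))) (a (b (a (a (l 15956576) (l 15978208)) (a (l 16006064) (l 4))) (a (l 15919888) (a (l 16109872) (l 16127160)))) (l 4)))))), by decide +kernel⟩

theorem s5_pm_033 : ∃ t, chk3 f_pm_033 t 2 7 1 = true := ex3_a k2_pm_033 k3_pm_033

theorem s6_pm_033 : ∃ t, chk3 f_pm_033 t 2 3 1 = true := ex3_b k1_pm_033 s5_pm_033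

theorem s7_pm_033 : ∃ t, chk3 f_pm_033 t 2 1 1 = true := ex3_b k0_pm_033 s6_pm_033

theorem s8_pm_033 : ∃ t, chk3 f_pm_033 t 1 1 1 = true := ex3_a s7_pm_033 k4_pm_033

theorem c_pm_033 : CertB 0 536870912 0 1230186008 966367641 24778659 3 eng mog cd0q0 cd2q3 pd3 true true false .pnn 0 3 3
    ndB0q0 ndB2q3 pcB3 Cut.none Ext.none :=
  certB2 (fam := true) (s1 := true) (s2 := false) (a := 0) (b := 3) (c := 3) (cn := .pnn) (n1 := ndB0q0) (n2 := ndB2q3) (pc := pcB3) (cut := Cut.none) (xt := Ext.none) (P1 := 0) (W1 := 536870912) (P2 := 0) (W2 := 1230186008) (P3 := 966367641) (W3 := 24778659) (N0 := 3) (En := eng) (mo := mog) (C1 := cd0q0) (C2 := cd2q3) (C3 := pd3)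
    rfl (fun _ => rfl) s8_pm_033

noncomputable def f_pm_101 : ℕ → ℕ → ℕ → ℕ → Bool := onCell 536870912 536870912 0 536870912 966367641 24778659
    (rowB 3 eng mog cd0q1 cd2q0 pd1 2 true true false .npn 1 0 1 (qsf 536870912 536870912 0 536870912 1) ndB0q1 ndB2q0 pcB1 Cut.none Ext.none)

def k0_pm_101 : ∃ t, chk3 f_pm_101 t 2 1 1 = true :=
  ⟨(l 3), by decide +kernel⟩

def k1_pm_101 : ∃ t, chk3 f_pm_101 t 6 2 1 = true :=
  ⟨(l 3), by decide +kernel⟩

def k2_pm_101 : ∃ t, chk3 f_pm_101 t 14 2 1 = true :=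
  ⟨(l 3), by decide +kernel⟩

def k3_pm_101 : ∃ t, chk3 f_pm_101 t 30 2 1 = true :=
  ⟨(b (l 3) (l 3)), by decide +kernel⟩

def k4_pm_101 : ∃ t, chk3 f_pm_101 t 124 8 1 = true :=
  ⟨(a (l 3) (a (b (a (l 3) (a (l 3) (c (b (b (b (b (c (l 446844324183) (l 447381191991)) (l 446307457191)) (l 404968421303)) (b (l 397452258903) (l 396915420487))) (b (l 479593579079) (b (l 387251783271) (l 381883044295)))) (b (b (a (b (l 3) (l 3)) (b (b (c (l 16756728) (l 16744672)) (l 16753760)) (l 405505295607))) (b (l 406042188023) (l 404968480791))) (b (b (l 440402003399) (l 400136712887)) (b (l 360408237815) (c (l 387251749591) (l 368461268983)))))))) (b (b (b (b (l 3) (l 3)) (l 3)) (l 3)) (l 3))) (b (b (b (b (a (c (l 16755888) (b (l 16748912) (l 16767744))) (l 16754624)) (c (l 16764320) (l 16762256))) (a (c (l 16781696) (b (l 16797608) (l 16794376))) (l 16791776))) (c (b (l 16812864) (b (l 16798592) (l 16784472))) (b (b (l 16815760) (l 16811440)) (a (b (l 16801672) (b (l 16811160) (l 16782160)))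 (l 16785128))))) (b (b (a (c (b (l 16773776) (l 342691387559)) (b (c (l 16770712) (l 16773872)) (a (c (l 16776960) (l 354502542951)) (l 16771296)))) (b (l 16763256) (l 16746864))) (b (a (c (l 338396386423) (c (l 343228216311) (b (l 347523194423) (l 345375691463)))) (l 16729832)) (a (c (l 334101383655) (a (c (l 16741216) (l 346986273511)) (l 16734832))) (l 16712136)))) (b (c (a (b (l 329806379047) (l 16709688)) (l 16710832)) (a (b (b (l 336785696439) (l 334101320983)) (l 330343183767)) (l 16699640))) (b (b (c (b (l 16693880) (l 16669128)) (b (l 16680936) (l 320679471303))) (c (l 315310788903) (a (l 322826868327) (l 16674112)))) (c (b (l 314237048439) (l 313163307847)) (a (b (l 321753113543) (l 320679356471)) (l 16676584))))))))), by decide +kernel⟩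

def k5_pm_101 : ∃ t, chk3 f_pm_101 t 124 9 1 = true :=
  ⟨(a (l 3) (a (b (l 3) (l 3)) (b (b (b (b (c (b (l 312089567143) (l 310478953447)) (a (b (l 319605601367) (l 318531845735)) (l 16618352))) (c (b (l 309405208279) (l 306183905319)) (a (b (l 316921219271) (l 315847463143)) (a (l 16555664) (l 16562080))))) (c (b (b (l 302962603911) (l 300278190375)) (b (l 298667565703) (l 297056941223))) (c (b (a (l 312626203959) (l 16547400)) (l 299741222247)) (b (l 304036118567) (l 300277941383))))) (b (c (c (b (l 293298827895) (l 290614448775)) (b (l 295983163863) (l 292224995495))) (b (c (l 297056805351) (l 294909113703)) (c (l 292224861751) (l 290614038407)))) (c (c (b (l 286856319271) (l 283635072295)) (b (l 288466855143) (l 283634909543))) (b (c (l 287392916647) (l 286855845911)) (b (l 285782207575) (l 283634679159)))))) (b (b (c (b (c (l 279340021047) (l 279339844999)) (c (l 276655569591) (l 277192272663))) (b (a (l 292761445591) (l 16181888)) (l 279876464343))) (c (b (c (l 273971127335)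 (l 275581579719)) (l 273971052679)) (b (l 279339520599) (l 278802582375)))) (b (c (b (l 272360367767) (l 270749688279)) (b (l 278802520055) (l 278802464823))) (a (l 3) (b (c (l 261622830151) (l 16007352)) (l 267528292919)))))))), by decide +kernel⟩

def k6_pm_101 : ∃ t, chk3 f_pm_101 t 125 4 1 = true :=
  ⟨(b (a (b (b (b (c (l 16750856) (l 16749168)) (l 16784512)) (b (l 16770096) (a (l 16773200) (l 16776832)))) (c (b (b (l 16736616) (l 16725512)) (b (l 16690848) (b (b (l 16668352) (l 16666096)) (l 16665704)))) (b (b (l 16731672) (l 16717432)) (b (l 16679592) (b (b (l 16655264) (l 16654448)) (l 16657008)))))) (b (b (b (l 16770328) (l 16778760)) (b (l 16776640) (l 16751080))) (b (b (l 16721984) (l 16689544)) (b (l 16653800) (b (l 16630112) (l 16630680)))))) (b (b (b (c (b (l 16613104) (l 16607168)) (a (b (l 16659992) (l 16590720)) (l 16630560))) (a (c (b (l 16663232) (l 16662080)) (b (l 16515712) (l 16448480))) (c (l 16632960) (l 16523736)))) (a (b (c (b (l 16603232) (l 16537504))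 (b (l 16387992) (l 16333376))) (c (b (l 16478048) (l 16424088)) (b (l 16283920) (l 16239008)))) (b (c (l 16604408) (l 16395200)) (c (l 16479088) (l 16290288))))) (b (b (a (c (b (l 16374968) (l 16330208)) (b (l 16198104) (l 16160800))) (c (l 16375776) (l 16203608))) (c (a (b (l 16289320) (l 16251960)) (l 16289904)) (b (l 16137480) (l 16105344)))) (b (b (c (l 16226280) (l 16075896)) (c (l 16194112) (l 16048864))) (b (c (a (l 16157440) (l 16171472)) (l 16044928)) (c (l 16135088) (l 16000392))))))), by decide +kernel⟩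

def k7_pm_101 : ∃ t, chk3 f_pm_101 t 62 5 1 = true :=
  ⟨(a (a (l 3) (b (b (b (b (c (l 267528096199) (l 279339002375)) (c (l 265917403047) (l 277728330775))) (b (c (l 264843595927) (l 277191414151)) (c (l 305645732967) (l 756617104135)))) (l 3)) (l 3))) (c (b (b (b (a (b (l 16090216) (l 16046624)) (l 16075096)) (a (b (l 16011080) (l 15982456)) (l 15998384))) (b (a (b (l 15959816) (l 15921384)) (l 15949008)) (a (b (l 237999832551) (l 237462954679)) (l 15920064)))) (b (b (a (b (l 236926080727) (l 236926084711)) (l 15906528)) (a (b (l 236926094055) (l 236926106503)) (l 15904872))) (a (b (b (l 236926102359) (a (l 249274169479) (l 15922808))) (a (b (l 250347933111) (l 3)) (b (l 15930688) (l 15940048)))) (b (l 15912528) (l 15927480))))) (b (b (b (b (l 15969040) (l 15955624)) (a (c (l 247126708087) (l 253032194263)) (l 15898152))) (b (a (b (l 15871200) (l 249810964615)) (l 15865008)) (a (b (l 249274064967) (a (l 254105862519) (l 15850992))) (l 15849576)))) (b (a (b (b (a (l 255179588599)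 (l 15850792)) (a (l 256253322391) (l 15853232))) (b (a (l 257327082039) (l 15858000)) (a (l 258400846423) (l 15864832)))) (b (l 15847408) (l 15855544))) (a (b (a (b (l 258937742167) (l 260011511367)) (b (l 15873496) (l 15883768))) (a (b (l 261085283383) (l 3)) (b (l 15895488) (l 15908480)))) (b (l 15871736) (b (l 15888096) (l 15900680)))))))), by decide +kernel⟩

def k8_pm_101 : ∃ t, chk3 f_pm_101 t 63 2 1 = true :=
  ⟨(b (b (b (b (a (b (l 16748664) (l 16706152)) (b (l 16706704) (l 16684184))) (a (a (l 16687984) (l 16696840)) (b (l 16661144) (l 16636944)))) (b (a (b (l 16673376) (l 16642368)) (a (l 16611896) (l 16581696))) (b (a (l 16566424) (l 16549520)) (b (a (c (l 16591376) (l 16578448)) (l 16527656)) (a (l 16585832) (l 16528680)))))) (b (b (b (a (c (l 16590248) (l 16585912)) (l 16531512)) (a (c (l 16589688) (l 16583248)) (l 16534584))) (b (a (c (l 16588672) (l 16445128)) (l 16536752)) (a (c (l 16518576) (l 16332520)) (l 16473008)))) (b (b (c (l 16428976) (l 16262240))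 (a (c (l 16318016) (l 16161920)) (l 16277400))) (b (a (c (l 16241704) (l 16096680)) (l 16202216)) (a (c (l 16175392) (l 16040400)) (l 16136232)))))) (a (b (b (b (l 16028880) (l 15954120)) (b (l 15907160) (l 15943672))) (b (b (a (l 15872112) (l 15867632)) (a (l 15873616) (l 15867536))) (b (c (l 15900104) (l 15859800)) (c (l 15913576) (l 15880576))))) (b (b (a (l 15997112) (l 16004120)) (a (l 15890928) (l 15891512))) (b (b (l 15862832) (l 15860432)) (b (l 15867784) (l 15882760)))))), by decide +kernel⟩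

def k9_pm_101 : ∃ t, chk3 f_pm_101 t 6 3 1 = true :=
  ⟨(l 3), by decide +kernel⟩

def k10_pm_101 : ∃ t, chk3 f_pm_101 t 14 3 1 = true :=
  ⟨(l 3), by decide +kernel⟩

def k11_pm_101 : ∃ t, chk3 f_pm_101 t 30 3 1 = true :=
  ⟨(l 3), by decide +kernel⟩

def k12_pm_101 : ∃ t, chk3 f_pm_101 t 62 3 1 = true :=
  ⟨(b (a (l 3) (b (b (a (a (l 3) (b (c (b (l 15950720) (l 15962520)) (b (l 237999885511) (l 239073661895))) (c (b (l 15975312) (l 15988960)) (b (l 240147439943) (l 241221217623))))) (b (c (b (l 15942496) (l 15953992)) (b (l 15914424) (l 15929192))) (c (b (l 15966480) (l 15979832)) (b (l 15944888) (l 15961392))))) (b (a (b (c (l 238000076983) (l 248200584183)) (c (l 236926369863) (l 249274356983))) (c (b (l 15993920) (l 16008616)) (b (l 15978600) (l 15996432)))) (a (b (c (l 236389533639) (l 246053184807)) (c (l 244442590199) (l 243368868663))) (c (b (l 16023816) (l 16039416)) (b (l 16014784) (l 16033576)))))) (b (b (a (b (c (l 242832009911) (l 250348198855)) (l 3)) (c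 (b (l 16055320) (l 16071440)) (b (l 16052744) (l 16072216)))) (a (l 3) (c (b (l 16108704) (l 16127712)) (b (l 16112864) (a (l 16094256) (l 16108192)))))) (a (l 3) (b (c (b (a (l 253569469959) (l 16117200)) (l 225115365991)) (b (l 16110512) (l 16115432))) (b (c (l 244979591479) (l 207398629447)) (c (l 220820420903) (l 195587511815)))))))) (a (l 3) (a (l 3) (b (b (b (c (b (a (l 261622601479) (l 16148336)) (a (l 199882528999) (l 16149640))) (b (l 205251173591) (l 211693611031))) (c (b (a (l 385639861095) (l 16151128)) (a (l 3) (l 16152912))) (b (l 215451695767) (l 218136040599)))) (b (c (b (a (l 3) (l 16155080)) (l 201493140439)) (b (l 220820387031) (l 221894123463))) (c (b (l 202030017719) (l 202566896791)) (b (l 222967861783) (l 223504731159))))) (b (c (b (b (l 202566907143) (l 202566919639)) (b (l 201493192327) (l 215451829383))) (b (b (l 224578473207) (l 224578476919)) (b (l 224578484663) (l 224041623159)))) (b (b (l 3) (l 3)) (l 3))))))), by decide +kernel⟩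

def k13_pm_101 : ∃ t, chk3 f_pm_101 t 63 3 1 = true :=
  ⟨(a (c (b (b (b (b (l 15933016) (l 15957008)) (b (l 15984368) (l 16014096))) (b (b (l 16087280) (b (l 16069296) (l 16043480))) (b (a (l 16115792) (l 16103832)) (a (l 16134760) (l 16119552))))) (b (b (b (b (l 16129128) (a (l 16138136) (l 16123080))) (a (b (l 16139712) (l 16141584)) (l 16125680))) (a (b (b (l 16143832) (l 16146544)) (b (l 16149760) (l 16153552))) (b (l 16130440) (l 16137152)))) (b (b (b (l 16161296) (l 16166416)) (a (b (l 16168760) (l 16175232)) (l 16157992))) (b (a (b (l 16182456) (l 16190456)) (l 16172696)) (b (a (l 16199264) (l 16185760)) (l 334502977943)))))) (b (b (b (b (l 15906584) (l 15936696)) (b (l 15970024) (l 16005776))) (c (b (b (l 16043720) (l 16080616)) (b (l 16117048) (l 16114320))) (b (b (l 16042912) (l 16083360)) (b (l 16111504) (l 16062488))))) (b (b (b (b (l 16105528) (l 16103032)) (b (l 16100824) (l 16099008))) (b (b (l 16097664) (l 16091632)) (b (l 16091440) (l 16091912)))) (b (b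 (b (l 16087848) (l 16089784)) (b (l 16097752) (l 16101304))) (b (b (l 16110952) (l 16116248)) (b (l 171965164295) (l 16130952))))))) (b (b (b (b (l 15903680) (l 15929184)) (b (l 15958160) (l 15989704))) (b (b (l 15960088) (l 16057368)) (b (c (l 16087888) (l 16084952)) (c (l 16097536) (l 16080312))))) (b (b (b (c (l 16100360) (l 16075544)) (c (l 16103920) (l 16071760))) (c (b (l 16108952) (l 16115968)) (b (l 16069720) (l 16049008)))) (b (c (b (l 16125368) (l 16137448)) (b (l 16051984) (l 16078984))) (b (c (l 16152464) (l 16088344)) (c (b (l 16165760) (l 16175656)) (l 16101216))))))), by decide +kernel⟩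

theorem s14_pm_101 : ∃ t, chk3 f_pm_101 t 31 3 1 = true := ex3_a k12_pm_101 k13_pm_101

theorem s15_pm_101 : ∃ t, chk3 f_pm_101 t 15 3 1 = true := ex3_a k11_pm_101 s14_pm_101

theorem s16_pm_101 : ∃ t, chk3 f_pm_101 t 7 3 1 = true := ex3_a k10_pm_101 s15_pm_101

theorem s17_pm_101 : ∃ t, chk3 f_pm_101 t 3 3 1 = true := ex3_a k9_pm_101 s16_pm_101

theorem s18_pm_101 : ∃ t, chk3 f_pm_101 t 124 4 1 = true := ex3_b k4_pm_101 k5_pm_101

theorem s19_pm_101 : ∃ t, chk3 f_pm_101 t 62 4 1 = true := ex3_a s18_pm_101 k6_pm_101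

theorem s20_pm_101 : ∃ t, chk3 f_pm_101 t 62 2 1 = true := ex3_b s19_pm_101 k7_pm_101

theorem s21_pm_101 : ∃ t, chk3 f_pm_101 t 31 2 1 = true := ex3_a s20_pm_101 k8_pm_101

theorem s22_pm_101 : ∃ t, chk3 f_pm_101 t 15 2 1 = true := ex3_a k3_pm_101 s21_pm_101

theorem s23_pm_101 : ∃ t, chk3 f_pm_101 t 7 2 1 = true := ex3_a k2_pm_101 s22_pm_101

theorem s24_pm_101 : ∃ t, chk3 f_pm_101 t 3 2 1 = true := ex3_a k1_pm_101 s23_pm_101

theorem s25_pm_101 : ∃ t, chk3 f_pm_101 t 3 1 1 = true := ex3_b s24_pm_101 s17_pm_101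

theorem s26_pm_101 : ∃ t, chk3 f_pm_101 t 1 1 1 = true := ex3_a k0_pm_101 s25_pm_101

theorem c_pm_101 : CertB 536870912 536870912 0 536870912 966367641 24778659 3 eng mog cd0q1 cd2q0 pd1 true true false .npn 1 0 1
    ndB0q1 ndB2q0 pcB1 Cut.none Ext.none :=
  certB2 (fam := true) (s1 := true) (s2 := false) (a := 1) (b := 0) (c := 1) (cn := .npn) (n1 := ndB0q1) (n2 := ndB2q0) (pc := pcB1) (cut := Cut.none) (xt := Ext.none) (P1 := 536870912) (W1 := 536870912) (P2 := 0) (W2 := 536870912) (P3 := 966367641) (W3 := 24778659) (N0 := 3) (En := eng) (mo := mog) (C1 := cd0q1) (C2 := cd2q0) (C3 := pd1)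
    rfl (fun _ => rfl) s26_pm_101

noncomputable def f_pm_102 : ℕ → ℕ → ℕ → ℕ → Bool := onCell 536870912 536870912 1073741824 536870912 966367641 24778659
    (rowB 3 eng mog cd0q1 cd2q0 pd2 1 true true false .npp 1 0 2 (qsf 536870912 536870912 0 536870912 2) ndB0q1 ndB2q0 pcB2 Cut.none Ext.none)

def k0_pm_102 : ∃ t, chk3 f_pm_102 t 4 2 1 = true :=
  ⟨(b (b (b (c (a (a (b (a (l 16149616) (l 16130728)) (a (l 16132640) (l 16111992))) (b (a (l 16115080) (l 16102488)) (a (l 16094720) (l 16080688)))) (a (b (a (l 16092768) (l 16085672)) (l 16065384)) (b (a (l 16080904) (l 16078096)) (l 16033720)))) (a (a (b (a (l 16079776) (l 16066072)) (a (l 16060144) (l 16023576))) (b (a (l 16056016) (l 16028432)) (b (l 16013280) (l 16001152)))) (a (b (a (l 16025016) (l 16045504)) (l 16011328)) (b (a (l 16047624) (l 16051928)) (l 16021160))))) (a (a (b (c (l 16104608) (l 16032264)) (l 2)) (b (a (l 16042976) (l 16029776)) (a (l 16022456) (l 16006952)))) (a (b (a (l 16019976) (l 16013408)) (b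 (l 15996592) (l 15983784))) (b (a (l 15988920) (l 15988256)) (b (l 15965648) (l 15950696)))))) (a (a (l 2) (b (c (l 16017800) (l 15950792)) (l 2))) (b (a (b (l 15965304) (l 15942312)) (b (l 15928744) (l 15900744))) (a (b (l 15921656) (l 2)) (b (l 15874768) (l 15851232)))))) (b (a (l 2) (b (b (a (l 2) (l 15830288)) (l 2)) (l 2))) (l 2))), by decide +kernel⟩

def k1_pm_102 : ∃ t, chk3 f_pm_102 t 5 2 1 = true :=
  ⟨(b (b (a (b (a (b (a (b (l 16072920) (l 16061952)) (b (l 16075080) (l 16065680))) (a (l 16041872) (l 16046536))) (b (b (a (l 16071528) (l 16038816)) (l 15987504)) (a (l 16052576) (l 16059264)))) (a (b (a (l 15990240) (l 15994616)) (l 15958968)) (b (l 16025888) (l 15969952)))) (b (a (b (b (a (l 16007232) (l 15977464)) (l 16031800)) (l 15984264)) (b (b (a (l 15950288) (l 15926608)) (l 15981416)) (l 16014976))) (a (b (l 16044592) (l 16010192)) (b (l 16064448) (l 16035552))))) (a (b (a (a (l 15909352) (l 15909512)) (a (l 15912416) (l 15917864))) (a (b (l 15924728) (c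 (l 15871544) (l 15835176))) (b (c (l 15892264) (l 15870376)) (c (l 15859592) (l 15834576))))) (b (a (a (l 15925680) (l 15956672)) (b (l 15996616) (l 15932896))) (a (b (l 15953952) (l 15851848)) (l 15804168))))) (b (a (b (b (a (a (l 15832024) (l 15823040)) (l 15815032)) (a (l 15802672) (l 15784648))) (c (l 117673380551) (l 135390038311))) (a (b (b (l 15813904) (l 15777696)) (l 15937168)) (c (l 15752624) (l 15763608)))) (a (b (c (l 15719424) (l 15671752)) (l 2)) (b (a (l 15668984) (l 15649776)) (a (l 15621864) (l 15588712)))))), by decide +kernel⟩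

def k2_pm_102 : ∃ t, chk3 f_pm_102 t 2 3 1 = true :=
  ⟨(a (l 2) (b (a (l 2) (b (b (l 141295319479) (l 2)) (l 2))) (l 2))), by decide +kernel⟩

def k3_pm_102 : ∃ t, chk3 f_pm_102 t 6 2 1 = true :=
  ⟨(b (b (a (b (a (b (b (l 15963032) (l 15946424)) (l 16004968)) (b (a (l 15912928) (l 15916344)) (l 16038512))) (a (b (l 16063976) (l 16064248)) (b (l 16057408) (l 16091672)))) (b (a (b (b (l 15921256) (l 15964616)) (l 16021560)) (b (b (l 16027456) (l 16055488)) (l 16097448))) (a (c (l 16095248) (l 16105848)) (c (l 16155632) (l 16160528))))) (a (b (a (b (l 16028872) (l 15984760)) (b (l 16067120) (l 16023752))) (a (l 15913600) (l 15947272))) (b (a (l 16094872) (l 16158152)) (a (l 15990928) (l 16045408))))) (c (a (b (a (l 15783256) (l 15801840)) (b (l 15723264) (l 15585152))) (b (b (l 15904928) (l 15769704)) (b (l 15703032) (l 15581544)))) (a (b (b (l 15815856) (l 15690032)) (a (l 15554832) (l 15563976))) (b (b (l 15881624) (l 15750344)) (a (l 15561224) (l 15568472)))))), by decide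 +kernel⟩

def k4_pm_102 : ∃ t, chk3 f_pm_102 t 14 4 1 = true :=
  ⟨(b (b (a (b (a (b (a (b (l 16154968) (l 16155864)) (c (l 16277352) (l 16159640))) (a (l 16161392) (l 16217584))) (b (a (b (l 16293320) (l 16284328)) (b (l 16377200) (l 16357488))) (a (l 16277960) (l 16340008)))) (a (l 16202856) (b (a (l 16275272) (l 16331032)) (l 16300520)))) (b (a (b (a (a (l 16433656) (l 16483216)) (a (l 16509088) (l 16507888))) (a (l 16408464) (l 16485728))) (b (a (b (l 16510144) (l 16501264)) (b (l 16506672) (l 16497760))) (a (l 16487096) (l 16483352)))) (a (b (a (l 16385600) (l 16443016)) (c (l 16420736) (l 16376280))) (b (a (l 16467720) (l 16463736)) (l 16446144))))) (a (b (l 16260848) (l 16256280)) (b (a (b (a (l 16369136) (l 16411016)) (l 16374592)) (b (l 16427728) (l 16410352))) (a (l 16330800) (b (l 16387504) (l 16393800)))))) (b (a (l 16232456) (c (l 16290904) (l 16310272))) (a (l 16103880) (l 16151216)))), by decide +kernel⟩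

def k5_pm_102 : ∃ t, chk3 f_pm_102 t 15 8 1 = true :=
  ⟨(a (b (b (a (b (a (b (a (l 16503728) (l 16501824)) (l 16493432)) (b (a (l 16507552) (l 16522328)) (a (l 16490200) (l 16495336)))) (a (l 16458032) (b (l 16457880) (l 16469008)))) (b (l 16546272) (a (b (a (l 16482280) (l 16495944)) (l 16467712)) (l 16503832)))) (a (b (a (l 16459464) (l 16454248)) (a (l 16440168) (l 16435784))) (b (a (b (l 16452752) (l 16443360)) (b (l 16462088) (l 16442264))) (a (l 16430432) (b (l 16429752) (l 16437456)))))) (b (a (b (a (l 16422128) (l 16419200)) (l 16401192)) (b (a (l 16433072) (l 16428592)) (a (l 16423208) (l 16411168)))) (a (b (l 16421248) (l 16365000)) (b (a (l 16406528) (l 16392112)) (l 16317592))))) (b (a (b (b (l 16599984) (l 16545784)) (b (l 16500696) (a (b (l 16453848) (l 16414344)) (l 16463648)))) (b (b (a (b (l 16649720) (l 16624416)) (l 16621120)) (b (l 16594208) (l 16590272))) (b (b (l 16564184) (l 16537368)) (l 16496368)))) (a (b (b (a (b (l 16400296) (l 16411576)) (b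 (l 16423152) (l 16381368))) (a (l 16396616) (b (l 16366112) (l 16376488)))) (b (a (l 16376432) (l 16360472)) (a (l 16355776) (l 16339104)))) (b (b (l 16440624) (a (b (l 16388136) (l 16345800)) (l 16395256))) (b (a (b (l 16329992) (l 16339832)) (b (a (l 16348240) (l 16357904)) (l 16310048))) (a (l 16323040) (b (l 16293744) (l 16303080)))))))), by decide +kernel⟩

def k6_pm_102 : ∃ t, chk3 f_pm_102 t 15 9 1 = true :=
  ⟨(a (b (a (b (b (l 16341000) (l 16350760)) (l 16292696)) (a (b (l 16234016) (l 16298840)) (b (l 16280104) (l 16189608)))) (b (l 16215816) (l 16133984))) (b (b (a (b (a (l 16334968) (l 16317400)) (l 16178816)) (b (a (l 16300672) (l 16285544)) (a (l 16278008) (l 16262192)))) (a (b (l 16241624) (l 16135640)) (b (a (l 16255272) (l 16217592)) (a (l 16232632) (l 16214880))))) (a (b (b (l 16169416) (l 16196112)) (l 16133008)) (b (b (l 16074552) (b (l 16183688) (l 16170376))) (b (b (l 16155232) (l 16117072)) (l 16107800)))))), by decide +kernel⟩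

def k7_pm_102 : ∃ t, chk3 f_pm_102 t 7 5 1 = true :=
  ⟨(a (b (a (b (l 15961960) (l 15820424)) (b (l 15996792) (l 15843296))) (a (c (l 15634216) (l 15579328)) (c (l 15659944) (l 15582712)))) (b (a (b (l 15905680) (l 15825264)) (b (a (l 16004424) (l 15998296)) (a (l 15832336) (l 15820864)))) (a (b (l 15664040) (l 15529384)) (b (l 15653136) (l 15485176))))), by decide +kernel⟩

def k8_pm_102 : ∃ t, chk3 f_pm_102 t 3 3 1 = true :=
  ⟨(a (b (a (b (b (a (l 15501144) (l 15470792)) (l 161696148679)) (a (l 2) (l 15330840))) (b (b (a (l 15449896) (l 15438856)) (a (l 15368456) (l 15342400))) (a (l 15271264) (l 15253416)))) (a (l 2) (b (b (l 15168240) (l 2)) (l 2)))) (b (a (b (a (b (l 15431280) (l 15320240)) (b (l 15415352) (l 15290536))) (a (b (l 15221336) (l 15136024)) (b (l 15177648) (l 15078344)))) (b (a (b (l 15381624) (l 15243856)) (c (l 15326072) (l 15169184))) (a (b (l 15118056) (l 15006064)) (b (l 15036048) (l 14912280))))) (a (b (a (b (l 15065712) (l 15011704)) (b (l 14994144)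 (l 14926528))) (a (l 2) (b (l 14876880) (l 2)))) (b (a (b (l 14909632) (l 14830440)) (b (l 14804984) (l 14718912))) (a (b (l 14774256) (l 14799792)) (b (l 14861128) (l 14733336))))))), by decide +kernel⟩

theorem s9_pm_102 : ∃ t, chk3 f_pm_102 t 15 4 1 = true := ex3_b k5_pm_102 k6_pm_102

theorem s10_pm_102 : ∃ t, chk3 f_pm_102 t 7 4 1 = true := ex3_a k4_pm_102 s9_pm_102

theorem s11_pm_102 : ∃ t, chk3 f_pm_102 t 7 2 1 = true := ex3_b s10_pm_102 k7_pm_102

theorem s12_pm_102 : ∃ t, chk3 f_pm_102 t 3 2 1 = true := ex3_a k3_pm_102 s11_pm_102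

theorem s13_pm_102 : ∃ t, chk3 f_pm_102 t 3 1 1 = true := ex3_b s12_pm_102 k8_pm_102

theorem s14_pm_102 : ∃ t, chk3 f_pm_102 t 2 2 1 = true := ex3_a k0_pm_102 k1_pm_102

theorem s15_pm_102 : ∃ t, chk3 f_pm_102 t 2 1 1 = true := ex3_b s14_pm_102 k2_pm_102

theorem s16_pm_102 : ∃ t, chk3 f_pm_102 t 1 1 1 = true := ex3_a s15_pm_102 s13_pm_102

theorem c_pm_102 : CertB 536870912 536870912 0 536870912 966367641 24778659 3 eng mog cd0q1 cd2q0 pd2 true true false .npp 1 0 2
    ndB0q1 ndB2q0 pcB2 Cut.none Ext.none :=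
  certB1 (fam := true) (s1 := true) (s2 := false) (a := 1) (b := 0) (c := 2) (cn := .npp) (n1 := ndB0q1) (n2 := ndB2q0) (pc := pcB2) (cut := Cut.none) (xt := Ext.none) (P1 := 536870912) (W1 := 536870912) (P2 := 0) (W2 := 536870912) (P3 := 966367641) (W3 := 24778659) (N0 := 3) (En := eng) (mo := mog) (C1 := cd0q1) (C2 := cd2q0) (C3 := pd2)
    rfl (fun _ => rfl) s16_pm_102

noncomputable def f_pm_112 : ℕ → ℕ → ℕ → ℕ → Bool := onCell 536870912 536870912 1073741824 536870912 966367641 24778659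
    (rowB 3 eng mog cd0q1 cd2q1 pd2 1 true true false .dn 1 1 2 (qsf 536870912 536870912 536870912 536870912 2) ndB0q1 ndB2q1 pcB2 Cut.none Ext.none)

def k0_pm_112 : ∃ t, chk3 f_pm_112 t 1 2 1 = true :=
  ⟨(b (a (a (b (a (b (a (a (b (b (l 16129304) (l 16156688)) (l 16193296)) (b (l 228202204919) (l 16180056))) (b (l 1) (l 376915667367))) (a (b (l 16227984) (l 16262784)) (b (l 16202504) (l 16236352)))) (b (l 1) (a (l 205653693559) (l 1)))) (a (b (a (l 16247392) (l 16232384)) (a (l 16138328) (l 16134184))) (b (a (l 16212168) (l 16186752)) (a (l 16124360) (l 16150624))))) (b (l 1) (a (b (l 1) (a (l 178810149559) (l 1))) (l 1)))) (l 1)) (a (a (b (a (b (b (a (l 16121456) (l 16125216)) (b (l 16073304) (a (l 16046568) (l 16077848)))) (a (l 16009448) (l 16026032))) (b (b (a (l 16123088) (l 16114640)) (a (b (l 16098944) (l 16082008)) (l 16086592))) (a (l 16036032) (l 16038904)))) (a (b (a (l 15908376) (l 15934752)) (a (l 15798472) (l 15834376))) (b (a (l 15954088) (l 15965848))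 (a (l 15862792) (l 15883168))))) (b (a (b (b (a (l 16099312) (l 1)) (l 15857400)) (a (l 16034328) (l 16021848))) (b (l 1) (l 214242963815))) (a (b (a (l 15969616) (l 15964872)) (a (l 15895048) (l 15897872))) (b (l 15793264) (l 15820440))))) (a (a (b (l 1) (b (l 1) (l 15825464))) (l 1)) (l 1)))), by decide +kernel⟩

def k1_pm_112 : ∃ t, chk3 f_pm_112 t 1 3 1 = true :=
  ⟨(a (a (c (b (b (a (b (l 15705016) (l 15588704)) (a (l 15701456) (l 15728040))) (a (a (l 15372408) (l 15430424)) (a (l 15480808) (l 15523088)))) (a (b (a (l 15076368) (l 15150496)) (a (b (l 14880312) (l 14732184)) (b (l 14965952) (l 14825176)))) (b (a (l 15237368) (l 15294568)) (a (l 14955688) (l 15047896))))) (b (a (b (b (l 15703520) (l 15579912)) (b (l 15450512) (l 15316336))) (b (b (l 15793000) (l 15686856)) (b (l 15574264) (l 15456240)))) (a (a (b (l 15060352) (a (l 14739312) (l 14796584))) (b (l 15153464) (l 14876872))) (b (a (l 15235128) (l 15304528)) (a (l 14972648) (l 15054888)))))) (b (a (b (b (l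 15629048) (l 15604312)) (c (l 15381584) (l 15413696))) (b (b (l 15817416) (l 15743104)) (b (l 15661256) (l 15572656)))) (a (a (b (c (l 15342560) (l 15361016)) (c (l 15109392) (l 15122944))) (b (l 15391576) (c (l 15161232) (l 15175608)))) (b (a (l 15419848) (l 15435576)) (a (l 15206584) (l 15232776)))))) (a (b (a (b (b (l 15771344) (l 15708704)) (a (l 15610880) (l 15589488))) (b (b (l 1) (l 15626632)) (c (l 15552544) (l 15516880)))) (a (b (a (l 15438488) (l 15427928)) (a (l 15225016) (l 15246048))) (b (c (l 15422264) (l 15356216)) (c (l 15272656) (l 15176360))))) (b (a (b (l 1) (c (l 15445200) (l 15362440))) (l 1)) (a (b (b (l 15312264) (l 15246416)) (a (l 15173208) (b (l 15141208) (l 15081960)))) (b (a (l 15122408) (l 1)) (a (b (l 15040728) (l 15028392)) (b (l 14936512) (l 14975744)))))))), by decide +kernel⟩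

theorem s2_pm_112 : ∃ t, chk3 f_pm_112 t 1 1 1 = true := ex3_b k0_pm_112 k1_pm_112

theorem c_pm_112 : CertB 536870912 536870912 536870912 536870912 966367641 24778659 3 eng mog cd0q1 cd2q1 pd2 true true false .dn 1 1 2
    ndB0q1 ndB2q1 pcB2 Cut.none Ext.none :=
  certB1 (fam := true) (s1 := true) (s2 := false) (a := 1) (b := 1) (c := 2) (cn := .dn) (n1 := ndB0q1) (n2 := ndB2q1) (pc := pcB2) (cut := Cut.none) (xt := Ext.none) (P1 := 536870912) (W1 := 536870912) (P2 := 536870912) (W2 := 536870912) (P3 := 966367641) (W3 := 24778659) (N0 := 3) (En := eng) (mo := mog) (C1 := cd0q1) (C2 := cd2q1) (C3 := pd2)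
    rfl (fun _ => rfl) s2_pm_112

noncomputable def f_pm_113 : ℕ → ℕ → ℕ → ℕ → Bool := onCell 536870912 536870912 1610612736 536870912 966367641 24778659
    (rowB 3 eng mog cd0q1 cd2q1 pd3 1 true true false .nn 1 1 3 (qsf 536870912 536870912 536870912 536870912 3) ndB0q1 ndB2q1 pcB3 Cut.none Ext.none)

def k0_pm_113 : ∃ t, chk3 f_pm_113 t 2 1 1 = true :=
  ⟨(b (b (a (b (a (c (b (a (c (l 14479664) (l 14514128)) (l 14605272)) (a (l 105322450471) (l 121965819671))) (b (a (l 14574872) (l 14685296)) (a (l 14373480) (l 14518824)))) (c (b (a (l 14702216) (l 14795296)) (a (l 14545584) (l 14645320))) (b (a (l 14773784) (l 14854784)) (a (l 14629032) (l 14715856))))) (b (a (a (l 2) (c (l 116596632407) (l 14315080))) (c (a (l 14373952) (l 14489136)) (a (l 14461664) (l 14571368)))) (a (l 2) (c (a (l 14180296) (l 14317952)) (a (l 14255744) (l 14403168)))))) (b (a (a (c (a (l 14790848) (l 14835888)) (l 14715384)) (b (l 14978288) (l 14846400))) (c (a (l 14985888) (l 15066000)) (a (l 14986424)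 (l 15033568)))) (a (c (b (a (l 14592088) (l 14691520)) (a (l 14436840) (l 14544216))) (b (l 14444432) (a (l 14512504) (l 14596080)))) (c (a (l 14719368) (l 14816744)) (a (l 14736128) (l 14797344)))))) (a (b (a (l 2) (a (l 2) (a (l 2) (b (l 138608292807) (l 2))))) (l 2)) (b (a (b (c (a (l 14266728) (l 14390560)) (a (l 14343608) (l 14452528))) (a (c (l 14076112) (l 14134544)) (c (l 14221472) (l 14069744)))) (b (a (c (l 14503960) (l 14533888)) (c (l 14615416) (l 14606768))) (a (b (l 14402632) (l 14320264)) (l 14547464)))) (a (a (l 2) (a (l 2) (b (l 14178120) (l 2)))) (b (a (c (l 14178304) (l 14183920)) (l 14303800)) (a (l 324902443879) (l 14120464))))))) (a (l 2) (b (b (a (l 2) (b (a (l 2) (l 13920096)) (l 2))) (l 2)) (l 2)))), by decide +kernel⟩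

def k1_pm_113 : ∃ t, chk3 f_pm_113 t 3 1 1 = true :=
  ⟨(b (a (b (b (a (c (l 15364264) (l 15065568)) (b (l 15260824) (a (l 15153384) (l 15199032)))) (a (b (a (l 14937040) (l 15001376)) (a (l 14820096) (l 14897896))) (b (a (l 15064016) (l 15129928)) (a (l 14979680) (l 15064008))))) (b (a (b (a (c (l 14725392) (l 14677848)) (l 14793736)) (a (l 14569904) (l 14681744))) (b (l 15195872) (l 14862128))) (a (b (a (l 14428000) (l 14559800)) (a (l 14271024) (l 14425968))) (b (l 14774248) (l 14700600))))) (b (a (b (b (c (l 15412832) (l 15187080)) (a (l 15240880) (l 15267864))) (b (a (l 15192072) (l 15237968)) (l 15347720))) (b (a (b (l 15285896) (l 15268136)) (b (l 15239272) (l 15238256))) (b (a (l 15257408) (l 15245680)) (a (l 15252448) (l 15260504))))) (b (a (b (l 15144816) (l 15110504)) (b (a (l 15252736) (l 15282624)) (a (l 15258408) (l 15307152)))) (a (b (c (l 15125208) (l 15027536)) (c (l 15091368) (l 14982896))) (b (a (l 15263760) (l 4)) (l 4)))))) (b (a (b (a (b (a (l 14095592)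 (l 14278304)) (b (l 14058816) (l 13976864))) (b (b (l 14602688) (l 14547904)) (l 4))) (a (b (l 4) (l 2)) (l 4))) (a (l 4) (l 4))) (l 4))), by decide +kernel⟩

theorem s2_pm_113 : ∃ t, chk3 f_pm_113 t 1 1 1 = true := ex3_a k0_pm_113 k1_pm_113

theorem c_pm_113 : CertB 536870912 536870912 536870912 536870912 966367641 24778659 3 eng mog cd0q1 cd2q1 pd3 true true false .nn 1 1 3
    ndB0q1 ndB2q1 pcB3 Cut.none Ext.none :=
  certB1 (fam := true) (s1 := true) (s2 := false) (a := 1) (b := 1) (c := 3) (cn := .nn) (n1 := ndB0q1) (n2 := ndB2q1) (pc := pcB3) (cut := Cut.none) (xt := Ext.none) (P1 := 536870912) (W1 := 536870912) (P2 := 536870912) (W2 := 536870912) (P3 := 966367641) (W3 := 24778659) (N0 := 3) (En := eng) (mo := mog) (C1 := cd0q1) (C2 := cd2q1) (C3 := pd3)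
    rfl (fun _ => rfl) s2_pm_113

noncomputable def f_pm_123 : ℕ → ℕ → ℕ → ℕ → Bool := onCell 1610612736 536870912 1073741824 536870912 966367641 24778659
    (rowB 3 eng mog cd0q1 cd2q2 pd3 2 true true false .npn 1 2 3 (qsf 536870912 536870912 1073741824 536870912 3) ndB0q1 ndB2q2 pcB3 Cut.none Ext.none)

def k0_pm_123 : ∃ t, chk3 f_pm_123 t 2 1 1 = true :=
  ⟨(b (b (a (b (a (b (a (b (a (l 15786992) (l 15772352)) (l 15824032)) (b (c (l 15755312) (l 15752848)) (l 15798680))) (a (l 15866360) (l 15841576))) (b (a (c (l 15799744) (l 15757992)) (c (l 15745216) (l 15744992))) (a (l 15865856) (l 15833888)))) (a (b (a (l 1) (l 15940512)) (l 1)) (b (a (l 15923768) (l 15914144)) (a (l 15994432) (l 15985704))))) (a (b (b (a (b (a (l 15714256) (l 15712136)) (l 15761544)) (b (l 15879784) (l 15761992))) (a (l 15829408) (b (l 15809080) (l 15853416)))) (b (a (l 15911288) (l 15915176)) (l 15985864))) (b (b (a (b (l 15718528) (l 15769704)) (b (l 15734600) (l 15786256))) (a (l 15840800) (l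 15858280))) (b (a (l 15926088) (l 15944656)) (a (l 16001392) (l 16020896)))))) (a (b (a (l 1) (b (l 133175587991) (l 1))) (l 1)) (a (b (b (l 15882824) (l 16064920)) (a (l 1) (l 16180248))) (b (b (l 16076840) (l 16134752)) (a (l 16195704) (l 16216528)))))) (a (l 1) (b (a (l 1) (b (a (l 1) (l 16271504)) (l 1))) (l 1)))), by decide +kernel⟩

def k1_pm_123 : ∃ t, chk3 f_pm_123 t 6 2 1 = true :=
  ⟨(b (b (a (b (a (b (l 15764224) (l 15814768)) (b (l 15814392) (l 15860528))) (a (l 15886072) (l 15927872))) (b (a (b (l 15897912) (l 15932680)) (b (a (l 15994544) (l 16082152)) (l 16046600))) (a (l 15989688) (l 16081224)))) (a (b (a (l 15972280) (l 16011256)) (a (l 16048576) (l 16086016))) (b (a (l 16065416) (l 16140768)) (a (l 16135720) (l 16201560))))) (a (b (a (l 15999216) (l 15972456)) (a (l 16242752) (l 16275104))) (b (a (l 16227656) (l 16094856)) (a (l 16314408) (l 16361512))))), by decide +kernel⟩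

def k2_pm_123 : ∃ t, chk3 f_pm_123 t 7 4 1 = true :=
  ⟨(a (b (a (b (a (b (l 16195208) (l 16174328)) (b (l 16345184) (l 16288536))) (a (l 16177872) (l 16260592))) (b (a (b (l 16552168) (l 16435496)) (b (l 16612480) (l 16611232))) (a (l 16362152) (l 16487160)))) (a (b (l 16244184) (l 16286688)) (b (l 16409784) (a (l 16367392) (l 16433360))))) (b (a (b (a (b (a (l 16619928) (l 16627504)) (l 16619896)) (a (b (l 16636664) (l 16626688)) (b (l 16648176) (l 16633944)))) (a (b (l 16618992) (l 16599272)) (l 16586000))) (a (b (b (a (b (l 16667296) (l 16655656)) (b (l 16700616) (l 16683712))) (a (l 16643120) (l 16665312))) (b (a (l 16635488) (l 16645752)) (l 16639056))) (a (b (b (l 16738128) (l 16696680)) (b (l 16669080) (l 16650344))) (a (b (b (a (l 16763648) (a (l 16769552) (l 16773776))) (a (l 16725712) (b (l 16746280) (l 16726400)))) (l 16678584)) (a (b (b (l 16774976) (a (l 16743824) (l 16746504))) (b (l 16714832) (l 16677504))) (b (a (l 635889922311) (a (l 16744320) (l 4)))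 (a (b (l 16717456) (l 16684104)) (a (l 16701392) (a (l 16697944) (b (l 4) (c (l 16607728) (l 16692968)))))))))))) (a (a (b (l 16532576) (l 16509344)) (b (l 16626152) (l 16593440))) (a (c (b (l 16617312) (l 16578848)) (b (l 16617312) (l 16652416))) (a (b (l 16619152) (l 16616344)) (a (b (l 16647224) (l 16546400)) (a (b (l 16651976) (l 16616392)) (b (a (l 16655160) (a (l 16614816) (a (l 16637448) (a (l 16638808) (b (l 16602328) (l 16653528)))))) (a (l 16623328) (a (l 16630976) (a (l 16635312) (l 16646600)))))))))))), by decide +kernel⟩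

def k3_pm_123 : ∃ t, chk3 f_pm_123 t 7 5 1 = true :=
  ⟨(a (a (b (a (l 16333136) (l 16368072)) (a (l 16401176) (l 16428600))) (b (a (l 16389408) (b (l 16450360) (l 16471032))) (a (l 16461528) (l 16499184)))) (b (a (a (b (l 16513240) (l 16524520)) (l 16583424)) (a (b (l 16602896) (a (l 16585184) (l 16584024))) (a (b (l 16489136) (l 16588824)) (a (b (l 16600024) (l 16588656)) (a (l 16585592) (a (l 16600304) (l 4))))))) (a (a (b (l 16535024) (l 16536736)) (b (l 16561544) (l 16548184))) (a (a (l 16522176) (l 16562816)) (a (l 16565648) (a (l 16587584) (l 4))))))), by decide +kernel⟩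

def k4_pm_123 : ∃ t, chk3 f_pm_123 t 3 3 1 = true :=
  ⟨(a (b (a (b (a (l 16297224) (l 16328528)) (a (l 1) (l 16345144))) (b (a (l 16365344) (l 16407584)) (a (l 16381520) (l 16420016)))) (a (l 1) (b (a (l 1) (l 16387912)) (l 1)))) (b (a (a (b (l 16306056) (l 16455544)) (b (a (l 16489168) (l 16508496)) (a (l 16480352) (l 16500160)))) (b (a (a (l 16504224) (b (l 16543464) (l 16519880))) (a (a (l 16518416) (l 16537696)) (a (l 16535800) (l 4)))) (a (a (l 16496520) (l 16497136)) (a (a (l 16491448) (l 4)) (l 4))))) (a (a (b (l 16322544) (l 1)) (b (a (l 16444616) (l 16440256)) (l 219075478359))) (a (b (a (l 16408680) (l 16471864)) (a (l 16174376) (l 4))) (l 4))))), by decide +kernel⟩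

theorem s5_pm_123 : ∃ t, chk3 f_pm_123 t 7 2 1 = true := ex3_b k2_pm_123 k3_pm_123

theorem s6_pm_123 : ∃ t, chk3 f_pm_123 t 3 2 1 = true := ex3_a k1_pm_123 s5_pm_123

theorem s7_pm_123 : ∃ t, chk3 f_pm_123 t 3 1 1 = true := ex3_b s6_pm_123 k4_pm_123

theorem s8_pm_123 : ∃ t, chk3 f_pm_123 t 1 1 1 = true := ex3_a k0_pm_123 s7_pm_123

theorem c_pm_123 : CertB 536870912 536870912 1073741824 536870912 966367641 24778659 3 eng mog cd0q1 cd2q2 pd3 true true false .npn 1 2 3
    ndB0q1 ndB2q2 pcB3 Cut.none Ext.none :=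
  certB2 (fam := true) (s1 := true) (s2 := false) (a := 1) (b := 2) (c := 3) (cn := .npn) (n1 := ndB0q1) (n2 := ndB2q2) (pc := pcB3) (cut := Cut.none) (xt := Ext.none) (P1 := 536870912) (W1 := 536870912) (P2 := 1073741824) (W2 := 536870912) (P3 := 966367641) (W3 := 24778659) (N0 := 3) (En := eng) (mo := mog) (C1 := cd0q1) (C2 := cd2q2) (C3 := pd3)
    rfl (fun _ => rfl) s8_pm_123

noncomputable def f_pm_133 : ℕ → ℕ → ℕ → ℕ → Bool := onCell 536870912 536870912 0 1230186008 966367641 24778659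
    (rowB 3 eng mog cd0q1 cd2q3 pd3 0 true true false .dn 1 3 3 (qsf 536870912 536870912 0 1230186008 3) ndB0q1 ndB2q3 pcB3 Cut.none Ext.none)

def k0_pm_133 : ∃ t, chk3 f_pm_133 t 1 1 1 = true :=
  ⟨(b (l 2) (b (l 2) (a (l 4) (l 2)))), by decide +kernel⟩

theorem c_pm_133 : CertB 536870912 536870912 0 1230186008 966367641 24778659 3 eng mog cd0q1 cd2q3 pd3 true true false .dn 1 3 3
    ndB0q1 ndB2q3 pcB3 Cut.none Ext.none :=
  certB0 (fam := true) (s1 := true) (s2 := false) (a := 1) (b := 3) (c := 3) (cn := .dn) (n1 := ndB0q1) (n2 := ndB2q3) (pc := pcB3) (cut := Cut.none) (xt := Ext.none) (P1 := 536870912) (W1 := 536870912) (P2 := 0) (W2 := 1230186008) (P3 := 966367641) (W3 := 24778659) (N0 := 3) (En := eng) (mo := mog) (C1 := cd0q1) (C2 := cd2q3) (C3 := pd3)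
    rfl k0_pm_133

noncomputable def f_pm_202 : ℕ → ℕ → ℕ → ℕ → Bool := onCell 0 536870912 0 536870912 966367641 24778659
    (rowB 3 eng mog cd0q2 cd2q0 pd2 0 true true false .pp 2 0 2 (qsf 0 536870912 0 536870912 2) ndB0q2 ndB2q0 pcB2 Cut.none Ext.none)

def k0_pm_202 : ∃ t, chk3 f_pm_202 t 2 1 1 = true :=
  ⟨(b (a (b (b (b (a (b (c (l 16350184) (l 16462336)) (l 16304368)) (b (l 16201112) (l 16220480))) (b (a (l 16343448) (l 16114344)) (a (c (l 16341264) (l 16200104)) (c (l 16331592) (l 16088568))))) (b (c (b (l 16231344) (l 16270656)) (b (l 16111232) (l 16140088))) (c (b (l 16256136) (l 16249016)) (b (l 16135272) (l 16137152))))) (b (b (a (l 16192576) (l 16046968)) (a (l 16205128) (l 16104992))) (b (a (l 16152016) (l 16101440)) (a (l 15994472) (l 16118288))))) (b (b (b (a (b (l 16155520) (l 16381296)) (b (b (l 16222328) (l 16319800)) (l 16305264))) (b (a (l 16356120) (l 16354152)) (a (c (l 16353224) (l 16064232)) (c (l 16398336) (l 16146808))))) (b (a (b (c (l 16285912)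 (l 16131120)) (c (l 16237800) (l 16075576))) (b (c (l 16329648) (l 16211136)) (l 15994712))) (a (b (l 15868568) (l 16073808)) (b (c (l 16212592) (l 16058976)) (c (l 16162400) (l 15991256)))))) (b (a (b (l 15901040) (l 15916376)) (b (a (l 15846392) (l 15828632)) (c (l 15992048) (l 15798200)))) (a (b (l 15976520) (l 15975400)) (b (l 15739768) (l 15757856)))))) (b (b (a (a (l 4) (b (c (l 16149312) (l 16130120)) (b (l 16152640) (l 4)))) (a (b (l 15995496) (a (l 16073648) (l 15990192))) (b (l 15819984) (l 15841536)))) (a (l 4) (a (b (c (l 16062824) (l 16048808)) (l 4)) (b (l 15778320) (a (l 15978376) (l 15883840)))))) (b (a (l 2) (a (l 2) (b (a (l 2) (l 15923856)) (l 2)))) (l 2)))), by decide +kernel⟩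

def k1_pm_202 : ∃ t, chk3 f_pm_202 t 6 2 1 = true :=
  ⟨(b (b (b (a (a (c (l 16271544) (l 16262512)) (b (l 16282432) (l 16509416))) (a (b (c (l 16409464) (l 16414384)) (l 16486608)) (b (c (l 16451488) (l 16448208)) (l 16518584)))) (c (b (a (l 16540576) (l 16571248)) (a (l 16375088) (b (l 16469448) (l 16444608)))) (b (a (l 16487232) (l 16523312)) (a (b (l 16393256) (l 16340272)) (b (l 16451832) (l 16400496)))))) (b (a (b (a (l 16252608) (l 16259360)) (c (l 16312040) (l 16218112))) (b (a (l 16262624) (l 16299752)) (a (l 16305856) (l 16323864)))) (a (b (c (l 16256776) (l 16146824)) (c (l 16203480) (l 16073912))) (b (a (l 16244936) (l 16264640)) (c (l 16237064) (l 16153192)))))) (b (a (b (c (l 16093072) (l 15926552)) (c (l 15949128) (l 15530440))) (b (a (l 16055880) (l 16077392)) (c (l 15969072) (l 15805216)))) (a (b (a (l 15746264) (l 15619704)) (l 15410904)) (b (a (l 15679040) (l 15722184)) (a (l 15504600) (l 15552208)))))), by decide +kernel⟩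

def k2_pm_202 : ∃ t, chk3 f_pm_202 t 7 2 1 = true :=
  ⟨(b (a (b (b (a (b (c (l 16449104) (l 16458992)) (l 16547472)) (b (b (a (l 16538504) (l 16563584)) (l 16530464)) (l 16500984))) (b (a (l 16565056) (l 16477448)) (a (b (l 16478440) (l 16430384)) (b (l 16464200) (l 16416528))))) (b (b (a (l 16302824) (b (l 16388904) (l 16361248))) (a (l 16329000) (l 16256432))) (b (a (l 16271680) (l 16264200)) (a (l 16213920) (l 16208392))))) (b (b (a (b (a (b (l 16638264) (l 16681760)) (b (l 16698520) (l 16696904))) (b (l 16550384) (l 16495296))) (b (a (b (a (l 16728616) (l 16714816)) (l 16670096)) (b (c (l 16626064) (l 16651320)) (a (l 16648256) (l 16633872)))) (a (l 16463528) (b (l 16545368) (l 16533608))))) (b (a (c (l 16490816) (l 16477600)) (a (l 16435584) (c (l 16446680) (l 16452632)))) (a (b (l 16428960) (c (l 16380960) (l 16382720))) (b (a (l 16391048) (l 16363216)) (c (l 16328192) (l 16333048)))))) (b (b (a (c (l 16338896) (l 16345488)) (c (a (l 16300848) (l 16273880)) (b (l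 16311232) (l 16288376)))) (a (c (l 16285760) (l 16293280)) (c (l 16235600) (l 16251992)))) (b (a (c (l 16235256) (l 16238416)) (c (l 16186576) (l 16201424))) (a (l 16057320) (c (l 16139056) (l 16147008))))))) (a (b (b (a (l 16086512) (l 16081512)) (a (l 15906488) (l 15901088))) (b (a (l 15729864) (l 15723576)) (a (l 15559256) (l 15551744)))) (b (b (a (l 15910248) (c (l 16024384) (l 16011456))) (a (l 15876432) (l 15837376))) (b (a (l 15698168) (l 15658560)) (a (l 15525192) (l 15484520)))))), by decide +kernel⟩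

def k3_pm_202 : ∃ t, chk3 f_pm_202 t 3 3 1 = true :=
  ⟨(b (a (b (a (b (l 15447544) (l 15487320)) (b (a (l 15499312) (l 15426096)) (a (l 15476608) (l 15367304)))) (a (b (l 15529496) (l 15592840)) (b (a (l 15478776) (l 15355312)) (a (l 15504992) (l 15368600))))) (a (b (b (a (l 15396216) (l 15388120)) (a (l 15276832) (l 15233832))) (b (a (l 15225016) (l 15120248)) (a (l 15224248) (l 15075160)))) (b (b (a (l 15360184) (l 15318096)) (a (l 15205600) (l 15161888))) (a (b (l 15063744) (l 14954464)) (b (l 15018336) (l 14889712)))))) (a (b (a (b (a (l 15824184) (l 15693264)) (l 2)) (b (a (l 15553176) (l 15405752)) (a (l 15620672) (l 15464216)))) (l 2)) (a (b (b (a (l 15248728) (l 15083432)) (a (l 15296824) (l 15119384))) (b (a (l 15365896) (l 15178216)) (l 2))) (b (a (b (l 14912232) (l 14930040)) (b (l 14766504) (a (l 14785232) (l 14703920)))) (a (b (l 14977008) (l 15046208)) (b (l 14770544) (l 14827744))))))), by decide +kernel⟩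

theorem s4_pm_202 : ∃ t, chk3 f_pm_202 t 3 2 1 = true := ex3_a k1_pm_202 k2_pm_202

theorem s5_pm_202 : ∃ t, chk3 f_pm_202 t 3 1 1 = true := ex3_b s4_pm_202 k3_pm_202

theorem s6_pm_202 : ∃ t, chk3 f_pm_202 t 1 1 1 = true := ex3_a k0_pm_202 s5_pm_202

theorem c_pm_202 : CertB 0 536870912 0 536870912 966367641 24778659 3 eng mog cd0q2 cd2q0 pd2 true true false .pp 2 0 2
    ndB0q2 ndB2q0 pcB2 Cut.none Ext.none :=
  certB0 (fam := true) (s1 := true) (s2 := false) (a := 2) (b := 0) (c := 2) (cn := .pp) (n1 := ndB0q2) (n2 := ndB2q0) (pc := pcB2) (cut := Cut.none) (xt := Ext.none) (P1 := 0) (W1 := 536870912) (P2 := 0) (W2 := 536870912) (P3 := 966367641) (W3 := 24778659) (N0 := 3) (En := eng) (mo := mog) (C1 := cd0q2) (C2 := cd2q0) (C3 := pd2)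
    rfl s6_pm_202

noncomputable def f_pm_203 : ℕ → ℕ → ℕ → ℕ → Bool := onCell 0 536870912 1610612736 536870912 966367641 24778659
    (rowB 3 eng mog cd0q2 cd2q0 pd3 1 true true false .up 2 0 3 (qsf 0 536870912 0 536870912 3) ndB0q2 ndB2q0 pcB3 Cut.none Ext.none)

def k0_pm_203 : ∃ t, chk3 f_pm_203 t 1 1 1 = true :=
  ⟨(b (a (b (b (a (l 4) (b (a (l 4) (l 15875320)) (l 4))) (l 4)) (l 4)) (b (a (b (b (a (l 15825008) (l 15657112)) (a (l 15842280) (l 15683448))) (b (a (l 4) (l 15720176)) (l 4))) (b (a (b (l 15441280) (l 15469968)) (b (l 15154344) (l 15186560))) (a (b (l 15520888) (l 2)) (l 2)))) (a (l 2) (l 2)))) (l 2)), by decide +kernel⟩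

theorem c_pm_203 : CertB 0 536870912 0 536870912 966367641 24778659 3 eng mog cd0q2 cd2q0 pd3 true true false .up 2 0 3
    ndB0q2 ndB2q0 pcB3 Cut.none Ext.none :=
  certB1 (fam := true) (s1 := true) (s2 := false) (a := 2) (b := 0) (c := 3) (cn := .up) (n1 := ndB0q2) (n2 := ndB2q0) (pc := pcB3) (cut := Cut.none) (xt := Ext.none) (P1 := 0) (W1 := 536870912) (P2 := 0) (W2 := 536870912) (P3 := 966367641) (W3 := 24778659) (N0 := 3) (En := eng) (mo := mog) (C1 := cd0q2) (C2 := cd2q0) (C3 := pd3)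
    rfl (fun _ => rfl) k0_pm_203

noncomputable def f_pm_213 : ℕ → ℕ → ℕ → ℕ → Bool := onCell 0 536870912 1610612736 536870912 966367641 24778659
    (rowB 3 eng mog cd0q2 cd2q1 pd3 1 true true false .pnn 2 1 3 (qsf 0 536870912 536870912 536870912 3) ndB0q2 ndB2q1 pcB3 Cut.none Ext.none)

def k0_pm_213 : ∃ t, chk3 f_pm_213 t 1 1 1 = true :=
  ⟨(b (a (b (b (l 1) (l 4)) (l 4)) (b (a (b (l 1) (b (a (l 1) (l 15893112)) (l 4))) (b (a (b (l 1) (l 15672888)) (b (l 15372296) (l 15387872))) (a (b (l 15711048) (c (l 15749968) (l 15741520))) (b (l 15411888) (l 15442768))))) (a (l 4) (b (a (l 4) (b (c (l 15496976) (l 15449624)) (l 4))) (l 4))))) (l 4)), by decide +kernel⟩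

theorem c_pm_213 : CertB 0 536870912 536870912 536870912 966367641 24778659 3 eng mog cd0q2 cd2q1 pd3 true true false .pnn 2 1 3
    ndB0q2 ndB2q1 pcB3 Cut.none Ext.none :=
  certB1 (fam := true) (s1 := true) (s2 := false) (a := 2) (b := 1) (c := 3) (cn := .pnn) (n1 := ndB0q2) (n2 := ndB2q1) (pc := pcB3) (cut := Cut.none) (xt := Ext.none) (P1 := 0) (W1 := 536870912) (P2 := 536870912) (W2 := 536870912) (P3 := 966367641) (W3 := 24778659) (N0 := 3) (En := eng) (mo := mog) (C1 := cd0q2) (C2 := cd2q1) (C3 := pd3)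
    rfl (fun _ => rfl) k0_pm_213

noncomputable def f_mm_001 : ℕ → ℕ → ℕ → ℕ → Bool := onCell 0 536870912 0 536870912 966367641 24778659
    (rowB 3 eng mog cd0q0 cd2q0 pd1 0 true false false .up 0 0 1 (qsf 0 536870912 0 536870912 1) ndB0q0 ndB2q0 pcB1 Cut.none Ext.none)

def k0_mm_001 : ∃ t, chk3 f_mm_001 t 1 1 1 = true :=
  ⟨(l 4), by decide +kernel⟩

theorem c_mm_001 : CertB 0 536870912 0 536870912 966367641 24778659 3 eng mog cd0q0 cd2q0 pd1 true false false .up 0 0 1
    ndB0q0 ndB2q0 pcB1 Cut.none Ext.none :=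
  certB0 (fam := true) (s1 := false) (s2 := false) (a := 0) (b := 0) (c := 1) (cn := .up) (n1 := ndB0q0) (n2 := ndB2q0) (pc := pcB1) (cut := Cut.none) (xt := Ext.none) (P1 := 0) (W1 := 536870912) (P2 := 0) (W2 := 536870912) (P3 := 966367641) (W3 := 24778659) (N0 := 3) (En := eng) (mo := mog) (C1 := cd0q0) (C2 := cd2q0) (C3 := pd1)
    rfl k0_mm_001

noncomputable def f_mm_011 : ℕ → ℕ → ℕ → ℕ → Bool := onCell 0 536870912 536870912 536870912 966367641 24778659
    (rowB 3 eng mog cd0q0 cd2q1 pd1 0 true false false .pnn 0 1 1 (qsf 0 536870912 536870912 536870912 1) ndB0q0 ndB2q1 pcB1 Cut.none Ext.none)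

def k0_mm_011 : ∃ t, chk3 f_mm_011 t 1 1 1 = true :=
  ⟨(l 4), by decide +kernel⟩

theorem c_mm_011 : CertB 0 536870912 536870912 536870912 966367641 24778659 3 eng mog cd0q0 cd2q1 pd1 true false false .pnn 0 1 1
    ndB0q0 ndB2q1 pcB1 Cut.none Ext.none :=
  certB0 (fam := true) (s1 := false) (s2 := false) (a := 0) (b := 1) (c := 1) (cn := .pnn) (n1 := ndB0q0) (n2 := ndB2q1) (pc := pcB1) (cut := Cut.none) (xt := Ext.none) (P1 := 0) (W1 := 536870912) (P2 := 536870912) (W2 := 536870912) (P3 := 966367641) (W3 := 24778659) (N0 := 3) (En := eng) (mo := mog) (C1 := cd0q0) (C2 := cd2q1) (C3 := pd1)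
    rfl k0_mm_011

noncomputable def f_mm_012 : ℕ → ℕ → ℕ → ℕ → Bool := onCell 0 536870912 536870912 536870912 966367641 24778659
    (rowB 3 eng mog cd0q0 cd2q1 pd2 0 true false false .pnp 0 1 2 (qsf 0 536870912 536870912 536870912 2) ndB0q0 ndB2q1 pcB2 Cut.none Ext.none)

def k0_mm_012 : ∃ t, chk3 f_mm_012 t 1 1 1 = true :=
  ⟨(l 4), by decide +kernel⟩

theorem c_mm_012 : CertB 0 536870912 536870912 536870912 966367641 24778659 3 eng mog cd0q0 cd2q1 pd2 true false false .pnp 0 1 2
    ndB0q0 ndB2q1 pcB2 Cut.none Ext.none :=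
  certB0 (fam := true) (s1 := false) (s2 := false) (a := 0) (b := 1) (c := 2) (cn := .pnp) (n1 := ndB0q0) (n2 := ndB2q1) (pc := pcB2) (cut := Cut.none) (xt := Ext.none) (P1 := 0) (W1 := 536870912) (P2 := 536870912) (W2 := 536870912) (P3 := 966367641) (W3 := 24778659) (N0 := 3) (En := eng) (mo := mog) (C1 := cd0q0) (C2 := cd2q1) (C3 := pd2)
    rfl k0_mm_012

noncomputable def f_mm_022 : ℕ → ℕ → ℕ → ℕ → Bool := onCell 0 536870912 1073741824 536870912 966367641 24778659
    (rowB 3 eng mog cd0q0 cd2q2 pd2 0 true false false .pp 0 2 2 (qsf 0 536870912 1073741824 536870912 2) ndB0q0 ndB2q2 pcB2 Cut.none Ext.none)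

def k0_mm_022 : ∃ t, chk3 f_mm_022 t 1 1 1 = true :=
  ⟨(l 4), by decide +kernel⟩

theorem c_mm_022 : CertB 0 536870912 1073741824 536870912 966367641 24778659 3 eng mog cd0q0 cd2q2 pd2 true false false .pp 0 2 2
    ndB0q0 ndB2q2 pcB2 Cut.none Ext.none :=
  certB0 (fam := true) (s1 := false) (s2 := false) (a := 0) (b := 2) (c := 2) (cn := .pp) (n1 := ndB0q0) (n2 := ndB2q2) (pc := pcB2) (cut := Cut.none) (xt := Ext.none) (P1 := 0) (W1 := 536870912) (P2 := 1073741824) (W2 := 536870912) (P3 := 966367641) (W3 := 24778659) (N0 := 3) (En := eng) (mo := mog) (C1 := cd0q0) (C2 := cd2q2) (C3 := pd2)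
    rfl k0_mm_022

noncomputable def f_mm_023 : ℕ → ℕ → ℕ → ℕ → Bool := onCell 0 536870912 1073741824 536870912 966367641 24778659
    (rowB 3 eng mog cd0q0 cd2q2 pd3 0 true false false .up 0 2 3 (qsf 0 536870912 1073741824 536870912 3) ndB0q0 ndB2q2 pcB3 Cut.none Ext.none)

def k0_mm_023 : ∃ t, chk3 f_mm_023 t 1 1 1 = true :=
  ⟨(l 4), by decide +kernel⟩

theorem c_mm_023 : CertB 0 536870912 1073741824 536870912 966367641 24778659 3 eng mog cd0q0 cd2q2 pd3 true false false .up 0 2 3
    ndB0q0 ndB2q2 pcB3 Cut.none Ext.none :=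
  certB0 (fam := true) (s1 := false) (s2 := false) (a := 0) (b := 2) (c := 3) (cn := .up) (n1 := ndB0q0) (n2 := ndB2q2) (pc := pcB3) (cut := Cut.none) (xt := Ext.none) (P1 := 0) (W1 := 536870912) (P2 := 1073741824) (W2 := 536870912) (P3 := 966367641) (W3 := 24778659) (N0 := 3) (En := eng) (mo := mog) (C1 := cd0q0) (C2 := cd2q2) (C3 := pd3)
    rfl k0_mm_023

noncomputable def f_mm_033 : ℕ → ℕ → ℕ → ℕ → Bool := onCell 0 536870912 0 1230186008 966367641 24778659
    (rowB 3 eng mog cd0q0 cd2q3 pd3 0 true false false .pnn 0 3 3 (qsf 0 536870912 0 1230186008 3) ndB0q0 ndB2q3 pcB3 Cut.none Ext.none)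

def k0_mm_033 : ∃ t, chk3 f_mm_033 t 1 1 1 = true :=
  ⟨(l 5), by decide +kernel⟩

theorem c_mm_033 : CertB 0 536870912 0 1230186008 966367641 24778659 3 eng mog cd0q0 cd2q3 pd3 true false false .pnn 0 3 3
    ndB0q0 ndB2q3 pcB3 Cut.none Ext.none :=
  certB0 (fam := true) (s1 := false) (s2 := false) (a := 0) (b := 3) (c := 3) (cn := .pnn) (n1 := ndB0q0) (n2 := ndB2q3) (pc := pcB3) (cut := Cut.none) (xt := Ext.none) (P1 := 0) (W1 := 536870912) (P2 := 0) (W2 := 1230186008) (P3 := 966367641) (W3 := 24778659) (N0 := 3) (En := eng) (mo := mog) (C1 := cd0q0) (C2 := cd2q3) (C3 := pd3)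
    rfl k0_mm_033

noncomputable def f_mm_101 : ℕ → ℕ → ℕ → ℕ → Bool := onCell 536870912 536870912 0 536870912 966367641 24778659
    (rowB 3 eng mog cd0q1 cd2q0 pd1 0 true false false .npn 1 0 1 (qsf 536870912 536870912 0 536870912 1) ndB0q1 ndB2q0 pcB1 Cut.none Ext.none)

def k0_mm_101 : ∃ t, chk3 f_mm_101 t 1 1 1 = true :=
  ⟨(a (l 4) (b (l 4) (l 4))), by decide +kernel⟩

theorem c_mm_101 : CertB 536870912 536870912 0 536870912 966367641 24778659 3 eng mog cd0q1 cd2q0 pd1 true false false .npn 1 0 1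
    ndB0q1 ndB2q0 pcB1 Cut.none Ext.none :=
  certB0 (fam := true) (s1 := false) (s2 := false) (a := 1) (b := 0) (c := 1) (cn := .npn) (n1 := ndB0q1) (n2 := ndB2q0) (pc := pcB1) (cut := Cut.none) (xt := Ext.none) (P1 := 536870912) (W1 := 536870912) (P2 := 0) (W2 := 536870912) (P3 := 966367641) (W3 := 24778659) (N0 := 3) (En := eng) (mo := mog) (C1 := cd0q1) (C2 := cd2q0) (C3 := pd1)
    rfl k0_mm_101

noncomputable def f_mm_102 : ℕ → ℕ → ℕ → ℕ → Bool := onCell 536870912 536870912 0 536870912 966367641 24778659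
    (rowB 3 eng mog cd0q1 cd2q0 pd2 0 true false false .npp 1 0 2 (qsf 536870912 536870912 0 536870912 2) ndB0q1 ndB2q0 pcB2 Cut.none Ext.none)

def k0_mm_102 : ∃ t, chk3 f_mm_102 t 1 1 1 = true :=
  ⟨(a (l 4) (b (l 4) (l 4))), by decide +kernel⟩

theorem c_mm_102 : CertB 536870912 536870912 0 536870912 966367641 24778659 3 eng mog cd0q1 cd2q0 pd2 true false false .npp 1 0 2
    ndB0q1 ndB2q0 pcB2 Cut.none Ext.none :=
  certB0 (fam := true) (s1 := false) (s2 := false) (a := 1) (b := 0) (c := 2) (cn := .npp) (n1 := ndB0q1) (n2 := ndB2q0) (pc := pcB2) (cut := Cut.none) (xt := Ext.none) (P1 := 536870912) (W1 := 536870912) (P2 := 0) (W2 := 536870912) (P3 := 966367641) (W3 := 24778659) (N0 := 3) (En := eng) (mo := mog) (C1 := cd0q1) (C2 := cd2q0) (C3 := pd2)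
    rfl k0_mm_102

noncomputable def f_mm_112 : ℕ → ℕ → ℕ → ℕ → Bool := onCell 536870912 536870912 536870912 536870912 966367641 24778659
    (rowB 3 eng mog cd0q1 cd2q1 pd2 0 true false false .dn 1 1 2 (qsf 536870912 536870912 536870912 536870912 2) ndB0q1 ndB2q1 pcB2 Cut.none Ext.none)

def k0_mm_112 : ∃ t, chk3 f_mm_112 t 1 1 1 = true :=
  ⟨(l 4), by decide +kernel⟩

theorem c_mm_112 : CertB 536870912 536870912 536870912 536870912 966367641 24778659 3 eng mog cd0q1 cd2q1 pd2 true false false .dn 1 1 2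
    ndB0q1 ndB2q1 pcB2 Cut.none Ext.none :=
  certB0 (fam := true) (s1 := false) (s2 := false) (a := 1) (b := 1) (c := 2) (cn := .dn) (n1 := ndB0q1) (n2 := ndB2q1) (pc := pcB2) (cut := Cut.none) (xt := Ext.none) (P1 := 536870912) (W1 := 536870912) (P2 := 536870912) (W2 := 536870912) (P3 := 966367641) (W3 := 24778659) (N0 := 3) (En := eng) (mo := mog) (C1 := cd0q1) (C2 := cd2q1) (C3 := pd2)
    rfl k0_mm_112

noncomputable def f_mm_113 : ℕ → ℕ → ℕ → ℕ → Bool := onCell 536870912 536870912 536870912 536870912 966367641 24778659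
    (rowB 3 eng mog cd0q1 cd2q1 pd3 0 true false false .nn 1 1 3 (qsf 536870912 536870912 536870912 536870912 3) ndB0q1 ndB2q1 pcB3 Cut.none Ext.none)

def k0_mm_113 : ∃ t, chk3 f_mm_113 t 1 1 1 = true :=
  ⟨(l 4), by decide +kernel⟩

theorem c_mm_113 : CertB 536870912 536870912 536870912 536870912 966367641 24778659 3 eng mog cd0q1 cd2q1 pd3 true false false .nn 1 1 3
    ndB0q1 ndB2q1 pcB3 Cut.none Ext.none :=
  certB0 (fam := true) (s1 := false) (s2 := false) (a := 1) (b := 1) (c := 3) (cn := .nn) (n1 := ndB0q1) (n2 := ndB2q1) (pc := pcB3) (cut := Cut.none) (xt := Ext.none) (P1 := 536870912) (W1 := 536870912) (P2 := 536870912) (W2 := 536870912) (P3 := 966367641) (W3 := 24778659) (N0 := 3) (En := eng) (mo := mog) (C1 := cd0q1) (C2 := cd2q1) (C3 := pd3)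
    rfl k0_mm_113

noncomputable def f_mm_123 : ℕ → ℕ → ℕ → ℕ → Bool := onCell 536870912 536870912 1073741824 536870912 966367641 24778659
    (rowB 3 eng mog cd0q1 cd2q2 pd3 0 true false false .npn 1 2 3 (qsf 536870912 536870912 1073741824 536870912 3) ndB0q1 ndB2q2 pcB3 Cut.none Ext.none)

def k0_mm_123 : ∃ t, chk3 f_mm_123 t 1 1 1 = true :=
  ⟨(l 4), by decide +kernel⟩

theorem c_mm_123 : CertB 536870912 536870912 1073741824 536870912 966367641 24778659 3 eng mog cd0q1 cd2q2 pd3 true false false .npn 1 2 3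
    ndB0q1 ndB2q2 pcB3 Cut.none Ext.none :=
  certB0 (fam := true) (s1 := false) (s2 := false) (a := 1) (b := 2) (c := 3) (cn := .npn) (n1 := ndB0q1) (n2 := ndB2q2) (pc := pcB3) (cut := Cut.none) (xt := Ext.none) (P1 := 536870912) (W1 := 536870912) (P2 := 1073741824) (W2 := 536870912) (P3 := 966367641) (W3 := 24778659) (N0 := 3) (En := eng) (mo := mog) (C1 := cd0q1) (C2 := cd2q2) (C3 := pd3)
    rfl k0_mm_123

noncomputable def f_mm_133 : ℕ → ℕ → ℕ → ℕ → Bool := onCell 1610612736 536870912 0 1230186008 966367641 24778659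
    (rowB 3 eng mog cd0q1 cd2q3 pd3 2 true false false .dn 1 3 3 (qsf 536870912 536870912 0 1230186008 3) ndB0q1 ndB2q3 pcB3 Cut.none Ext.none)

def k0_mm_133 : ∃ t, chk3 f_mm_133 t 1 1 1 = true :=
  ⟨(l 5), by decide +kernel⟩

theorem c_mm_133 : CertB 536870912 536870912 0 1230186008 966367641 24778659 3 eng mog cd0q1 cd2q3 pd3 true false false .dn 1 3 3
    ndB0q1 ndB2q3 pcB3 Cut.none Ext.none :=
  certB2 (fam := true) (s1 := false) (s2 := false) (a := 1) (b := 3) (c := 3) (cn := .dn) (n1 := ndB0q1) (n2 := ndB2q3) (pc := pcB3) (cut := Cut.none) (xt := Ext.none) (P1 := 536870912) (W1 := 536870912) (P2 := 0) (W2 := 1230186008) (P3 := 966367641) (W3 := 24778659) (N0 := 3) (En := eng) (mo := mog) (C1 := cd0q1) (C2 := cd2q3) (C3 := pd3)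
    rfl (fun _ => rfl) k0_mm_133

noncomputable def f_mm_202 : ℕ → ℕ → ℕ → ℕ → Bool := onCell 0 536870912 0 536870912 966367641 24778659
    (rowB 3 eng mog cd0q2 cd2q0 pd2 0 true false false .pp 2 0 2 (qsf 0 536870912 0 536870912 2) ndB0q2 ndB2q0 pcB2 Cut.none Ext.none)

def k0_mm_202 : ∃ t, chk3 f_mm_202 t 1 1 1 = true :=
  ⟨(b (b (a (a (b (b (a (b (l 16359072) (l 16438216)) (b (l 16305560) (l 16456752))) (b (a (l 16364856) (l 16391776)) (c (a (l 16362680) (l 16386800)) (a (l 16243168) (l 16289560))))) (b (b (a (l 16243304) (l 16244680)) (a (l 16281992) (l 16291376))) (b (a (l 16286464) (l 16324400)) (c (l 16295024) (l 16196544))))) (a (b (b (b (l 16243680) (l 16478712)) (b (l 16419808) (b (l 16381360) (l 16345272)))) (b (b (l 16222712) (l 16297368)) (b (c (l 16413608) (l 16386672)) (c (l 16432632) (l 16412408))))) (b (b (b (a (l 16481584) (l 16508120)) (c (l 16522104) (l 16475760))) (b (a (l 16438488) (l 16448976)) (b (l 16387952) (l 16333256)))) (b (b (a (l 16396168)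 (l 16288648)) (a (l 16393848) (l 4))) (l 4))))) (a (a (b (b (b (a (l 16543680) (l 16563096)) (a (l 16506944) (l 16504024))) (b (a (l 16433672) (c (l 16463520) (l 16454832))) (b (a (l 16422168) (l 16437696)) (a (l 16415680) (l 4))))) (b (b (a (l 4) (l 4)) (l 4)) (l 4))) (b (b (b (a (c (l 16555136) (l 16549104)) (b (l 16553464) (l 16589168))) (a (c (l 16500488) (l 16455936)) (a (l 16418040) (l 4)))) (b (a (a (l 16466936) (l 4)) (l 4)) (l 4))) (l 4))) (a (b (b (b (a (b (a (l 16546784) (l 16555608)) (l 108682130167)) (l 4)) (l 4)) (l 4)) (l 4)) (l 4)))) (a (b (a (b (a (l 16251672) (c (l 16380520) (l 16307520))) (a (l 16042944) (b (l 16363184) (l 4)))) (b (a (b (l 16321592) (l 4)) (l 4)) (l 4))) (a (b (a (b (l 16298368) (l 4)) (l 4)) (l 4)) (l 4))) (l 4))) (l 4)), by decide +kernel⟩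

theorem c_mm_202 : CertB 0 536870912 0 536870912 966367641 24778659 3 eng mog cd0q2 cd2q0 pd2 true false false .pp 2 0 2
    ndB0q2 ndB2q0 pcB2 Cut.none Ext.none :=
  certB0 (fam := true) (s1 := false) (s2 := false) (a := 2) (b := 0) (c := 2) (cn := .pp) (n1 := ndB0q2) (n2 := ndB2q0) (pc := pcB2) (cut := Cut.none) (xt := Ext.none) (P1 := 0) (W1 := 536870912) (P2 := 0) (W2 := 536870912) (P3 := 966367641) (W3 := 24778659) (N0 := 3) (En := eng) (mo := mog) (C1 := cd0q2) (C2 := cd2q0) (C3 := pd2)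
    rfl k0_mm_202

noncomputable def f_mm_203 : ℕ → ℕ → ℕ → ℕ → Bool := onCell 0 536870912 1610612736 536870912 966367641 24778659
    (rowB 3 eng mog cd0q2 cd2q0 pd3 1 true false false .up 2 0 3 (qsf 0 536870912 0 536870912 3) ndB0q2 ndB2q0 pcB3 Cut.none Ext.none)

def k0_mm_203 : ∃ t, chk3 f_mm_203 t 1 1 1 = true :=
  ⟨(l 4), by decide +kernel⟩

theorem c_mm_203 : CertB 0 536870912 0 536870912 966367641 24778659 3 eng mog cd0q2 cd2q0 pd3 true false false .up 2 0 3
    ndB0q2 ndB2q0 pcB3 Cut.none Ext.none :=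
  certB1 (fam := true) (s1 := false) (s2 := false) (a := 2) (b := 0) (c := 3) (cn := .up) (n1 := ndB0q2) (n2 := ndB2q0) (pc := pcB3) (cut := Cut.none) (xt := Ext.none) (P1 := 0) (W1 := 536870912) (P2 := 0) (W2 := 536870912) (P3 := 966367641) (W3 := 24778659) (N0 := 3) (En := eng) (mo := mog) (C1 := cd0q2) (C2 := cd2q0) (C3 := pd3)
    rfl (fun _ => rfl) k0_mm_203

noncomputable def f_mm_213 : ℕ → ℕ → ℕ → ℕ → Bool := onCell 0 536870912 536870912 536870912 966367641 24778659
    (rowB 3 eng mog cd0q2 cd2q1 pd3 0 true false false .pnn 2 1 3 (qsf 0 536870912 536870912 536870912 3) ndB0q2 ndB2q1 pcB3 Cut.none Ext.none)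

def k0_mm_213 : ∃ t, chk3 f_mm_213 t 1 1 1 = true :=
  ⟨(l 4), by decide +kernel⟩

theorem c_mm_213 : CertB 0 536870912 536870912 536870912 966367641 24778659 3 eng mog cd0q2 cd2q1 pd3 true false false .pnn 2 1 3
    ndB0q2 ndB2q1 pcB3 Cut.none Ext.none :=
  certB0 (fam := true) (s1 := false) (s2 := false) (a := 2) (b := 1) (c := 3) (cn := .pnn) (n1 := ndB0q2) (n2 := ndB2q1) (pc := pcB3) (cut := Cut.none) (xt := Ext.none) (P1 := 0) (W1 := 536870912) (P2 := 536870912) (W2 := 536870912) (P3 := 966367641) (W3 := 24778659) (N0 := 3) (En := eng) (mo := mog) (C1 := cd0q2) (C2 := cd2q1) (C3 := pd3)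
    rfl k0_mm_213

end Pool.Agent.Strip051.G.I9000_9231.Tab.C.BA02

namespace Pool.Agent.Strip051.G.I9000_9231.Tab.C.BA03

open Pool.Agent.Strip051.PB Pool.Agent.Strip051.PB.T
open Pool.Agent.Strip051.G.I9000_9231.Tab

noncomputable def f_pp_001 : ℕ → ℕ → ℕ → ℕ → Bool := onCell 0 536870912 0 536870912 966367641 24778659
    (rowB 3 eng mog cd0q0 cd3q0 pd1 0 true true true .up 0 0 1 (qsf 0 536870912 0 536870912 1) ndB0q0 ndB3q0 pcB1 Cut.none Ext.none)

def k0_pp_001 : ∃ t, chk3 f_pp_001 t 1 1 1 = true :=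
  ⟨(l 4), by decide +kernel⟩

theorem c_pp_001 : CertB 0 536870912 0 536870912 966367641 24778659 3 eng mog cd0q0 cd3q0 pd1 true true true .up 0 0 1
    ndB0q0 ndB3q0 pcB1 Cut.none Ext.none :=
  certB0 (fam := true) (s1 := true) (s2 := true) (a := 0) (b := 0) (c := 1) (cn := .up) (n1 := ndB0q0) (n2 := ndB3q0) (pc := pcB1) (cut := Cut.none) (xt := Ext.none) (P1 := 0) (W1 := 536870912) (P2 := 0) (W2 := 536870912) (P3 := 966367641) (W3 := 24778659) (N0 := 3) (En := eng) (mo := mog) (C1 := cd0q0) (C2 := cd3q0) (C3 := pd1)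
    rfl k0_pp_001

noncomputable def f_pp_011 : ℕ → ℕ → ℕ → ℕ → Bool := onCell 0 536870912 536870912 536870912 966367641 24778659
    (rowB 3 eng mog cd0q0 cd3q1 pd1 0 true true true .pnn 0 1 1 (qsf 0 536870912 536870912 536870912 1) ndB0q0 ndB3q1 pcB1 Cut.none Ext.none)

def k0_pp_011 : ∃ t, chk3 f_pp_011 t 1 1 1 = true :=
  ⟨(l 4), by decide +kernel⟩

theorem c_pp_011 : CertB 0 536870912 536870912 536870912 966367641 24778659 3 eng mog cd0q0 cd3q1 pd1 true true true .pnn 0 1 1
    ndB0q0 ndB3q1 pcB1 Cut.none Ext.none :=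
  certB0 (fam := true) (s1 := true) (s2 := true) (a := 0) (b := 1) (c := 1) (cn := .pnn) (n1 := ndB0q0) (n2 := ndB3q1) (pc := pcB1) (cut := Cut.none) (xt := Ext.none) (P1 := 0) (W1 := 536870912) (P2 := 536870912) (W2 := 536870912) (P3 := 966367641) (W3 := 24778659) (N0 := 3) (En := eng) (mo := mog) (C1 := cd0q0) (C2 := cd3q1) (C3 := pd1)
    rfl k0_pp_011

noncomputable def f_pp_012 : ℕ → ℕ → ℕ → ℕ → Bool := onCell 0 536870912 536870912 536870912 966367641 24778659
    (rowB 3 eng mog cd0q0 cd3q1 pd2 0 true true true .pnp 0 1 2 (qsf 0 536870912 536870912 536870912 2) ndB0q0 ndB3q1 pcB2 Cut.none Ext.none)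

def k0_pp_012 : ∃ t, chk3 f_pp_012 t 1 1 1 = true :=
  ⟨(l 4), by decide +kernel⟩

theorem c_pp_012 : CertB 0 536870912 536870912 536870912 966367641 24778659 3 eng mog cd0q0 cd3q1 pd2 true true true .pnp 0 1 2
    ndB0q0 ndB3q1 pcB2 Cut.none Ext.none :=
  certB0 (fam := true) (s1 := true) (s2 := true) (a := 0) (b := 1) (c := 2) (cn := .pnp) (n1 := ndB0q0) (n2 := ndB3q1) (pc := pcB2) (cut := Cut.none) (xt := Ext.none) (P1 := 0) (W1 := 536870912) (P2 := 536870912) (W2 := 536870912) (P3 := 966367641) (W3 := 24778659) (N0 := 3) (En := eng) (mo := mog) (C1 := cd0q0) (C2 := cd3q1) (C3 := pd2)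
    rfl k0_pp_012

noncomputable def f_pp_022 : ℕ → ℕ → ℕ → ℕ → Bool := onCell 0 536870912 1073741824 536870912 966367641 24778659
    (rowB 3 eng mog cd0q0 cd3q2 pd2 0 true true true .pp 0 2 2 (qsf 0 536870912 1073741824 536870912 2) ndB0q0 ndB3q2 pcB2 Cut.none Ext.none)

def k0_pp_022 : ∃ t, chk3 f_pp_022 t 1 1 1 = true :=
  ⟨(l 4), by decide +kernel⟩

theorem c_pp_022 : CertB 0 536870912 1073741824 536870912 966367641 24778659 3 eng mog cd0q0 cd3q2 pd2 true true true .pp 0 2 2
    ndB0q0 ndB3q2 pcB2 Cut.none Ext.none :=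
  certB0 (fam := true) (s1 := true) (s2 := true) (a := 0) (b := 2) (c := 2) (cn := .pp) (n1 := ndB0q0) (n2 := ndB3q2) (pc := pcB2) (cut := Cut.none) (xt := Ext.none) (P1 := 0) (W1 := 536870912) (P2 := 1073741824) (W2 := 536870912) (P3 := 966367641) (W3 := 24778659) (N0 := 3) (En := eng) (mo := mog) (C1 := cd0q0) (C2 := cd3q2) (C3 := pd2)
    rfl k0_pp_022

noncomputable def f_pp_023 : ℕ → ℕ → ℕ → ℕ → Bool := onCell 0 536870912 1073741824 536870912 966367641 24778659
    (rowB 3 eng mog cd0q0 cd3q2 pd3 0 true true true .up 0 2 3 (qsf 0 536870912 1073741824 536870912 3) ndB0q0 ndB3q2 pcB3 Cut.none Ext.none)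

def k0_pp_023 : ∃ t, chk3 f_pp_023 t 1 1 1 = true :=
  ⟨(l 4), by decide +kernel⟩

theorem c_pp_023 : CertB 0 536870912 1073741824 536870912 966367641 24778659 3 eng mog cd0q0 cd3q2 pd3 true true true .up 0 2 3
    ndB0q0 ndB3q2 pcB3 Cut.none Ext.none :=
  certB0 (fam := true) (s1 := true) (s2 := true) (a := 0) (b := 2) (c := 3) (cn := .up) (n1 := ndB0q0) (n2 := ndB3q2) (pc := pcB3) (cut := Cut.none) (xt := Ext.none) (P1 := 0) (W1 := 536870912) (P2 := 1073741824) (W2 := 536870912) (P3 := 966367641) (W3 := 24778659) (N0 := 3) (En := eng) (mo := mog) (C1 := cd0q0) (C2 := cd3q2) (C3 := pd3)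
    rfl k0_pp_023

noncomputable def f_pp_033 : ℕ → ℕ → ℕ → ℕ → Bool := onCell 0 536870912 0 1230186008 966367641 24778659
    (rowB 3 eng mog cd0q0 cd3q3 pd3 0 true true true .pnn 0 3 3 (qsf 0 536870912 0 1230186008 3) ndB0q0 ndB3q3 pcB3 Cut.none Ext.none)

def k0_pp_033 : ∃ t, chk3 f_pp_033 t 1 1 1 = true :=
  ⟨(b (l 4) (l 4)), by decide +kernel⟩

theorem c_pp_033 : CertB 0 536870912 0 1230186008 966367641 24778659 3 eng mog cd0q0 cd3q3 pd3 true true true .pnn 0 3 3
    ndB0q0 ndB3q3 pcB3 Cut.none Ext.none :=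
  certB0 (fam := true) (s1 := true) (s2 := true) (a := 0) (b := 3) (c := 3) (cn := .pnn) (n1 := ndB0q0) (n2 := ndB3q3) (pc := pcB3) (cut := Cut.none) (xt := Ext.none) (P1 := 0) (W1 := 536870912) (P2 := 0) (W2 := 1230186008) (P3 := 966367641) (W3 := 24778659) (N0 := 3) (En := eng) (mo := mog) (C1 := cd0q0) (C2 := cd3q3) (C3 := pd3)
    rfl k0_pp_033

noncomputable def f_pp_101 : ℕ → ℕ → ℕ → ℕ → Bool := onCell 536870912 536870912 0 536870912 966367641 24778659
    (rowB 3 eng mog cd0q1 cd3q0 pd1 0 true true true .npn 1 0 1 (qsf 536870912 536870912 0 536870912 1) ndB0q1 ndB3q0 pcB1 Cut.none Ext.none)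

def k0_pp_101 : ∃ t, chk3 f_pp_101 t 1 1 1 = true :=
  ⟨(l 4), by decide +kernel⟩

theorem c_pp_101 : CertB 536870912 536870912 0 536870912 966367641 24778659 3 eng mog cd0q1 cd3q0 pd1 true true true .npn 1 0 1
    ndB0q1 ndB3q0 pcB1 Cut.none Ext.none :=
  certB0 (fam := true) (s1 := true) (s2 := true) (a := 1) (b := 0) (c := 1) (cn := .npn) (n1 := ndB0q1) (n2 := ndB3q0) (pc := pcB1) (cut := Cut.none) (xt := Ext.none) (P1 := 536870912) (W1 := 536870912) (P2 := 0) (W2 := 536870912) (P3 := 966367641) (W3 := 24778659) (N0 := 3) (En := eng) (mo := mog) (C1 := cd0q1) (C2 := cd3q0) (C3 := pd1)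
    rfl k0_pp_101

noncomputable def f_pp_102 : ℕ → ℕ → ℕ → ℕ → Bool := onCell 536870912 536870912 0 536870912 966367641 24778659
    (rowB 3 eng mog cd0q1 cd3q0 pd2 0 true true true .npp 1 0 2 (qsf 536870912 536870912 0 536870912 2) ndB0q1 ndB3q0 pcB2 Cut.none Ext.none)

def k0_pp_102 : ∃ t, chk3 f_pp_102 t 1 1 1 = true :=
  ⟨(l 4), by decide +kernel⟩

theorem c_pp_102 : CertB 536870912 536870912 0 536870912 966367641 24778659 3 eng mog cd0q1 cd3q0 pd2 true true true .npp 1 0 2
    ndB0q1 ndB3q0 pcB2 Cut.none Ext.none :=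
  certB0 (fam := true) (s1 := true) (s2 := true) (a := 1) (b := 0) (c := 2) (cn := .npp) (n1 := ndB0q1) (n2 := ndB3q0) (pc := pcB2) (cut := Cut.none) (xt := Ext.none) (P1 := 536870912) (W1 := 536870912) (P2 := 0) (W2 := 536870912) (P3 := 966367641) (W3 := 24778659) (N0 := 3) (En := eng) (mo := mog) (C1 := cd0q1) (C2 := cd3q0) (C3 := pd2)
    rfl k0_pp_102

noncomputable def f_pp_112 : ℕ → ℕ → ℕ → ℕ → Bool := onCell 536870912 536870912 536870912 536870912 966367641 24778659
    (rowB 3 eng mog cd0q1 cd3q1 pd2 0 true true true .dn 1 1 2 (qsf 536870912 536870912 536870912 536870912 2) ndB0q1 ndB3q1 pcB2 Cut.none Ext.none)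

def k0_pp_112 : ∃ t, chk3 f_pp_112 t 1 1 1 = true :=
  ⟨(l 4), by decide +kernel⟩

theorem c_pp_112 : CertB 536870912 536870912 536870912 536870912 966367641 24778659 3 eng mog cd0q1 cd3q1 pd2 true true true .dn 1 1 2
    ndB0q1 ndB3q1 pcB2 Cut.none Ext.none :=
  certB0 (fam := true) (s1 := true) (s2 := true) (a := 1) (b := 1) (c := 2) (cn := .dn) (n1 := ndB0q1) (n2 := ndB3q1) (pc := pcB2) (cut := Cut.none) (xt := Ext.none) (P1 := 536870912) (W1 := 536870912) (P2 := 536870912) (W2 := 536870912) (P3 := 966367641) (W3 := 24778659) (N0 := 3) (En := eng) (mo := mog) (C1 := cd0q1) (C2 := cd3q1) (C3 := pd2)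
    rfl k0_pp_112

noncomputable def f_pp_113 : ℕ → ℕ → ℕ → ℕ → Bool := onCell 536870912 536870912 536870912 536870912 966367641 24778659
    (rowB 3 eng mog cd0q1 cd3q1 pd3 0 true true true .nn 1 1 3 (qsf 536870912 536870912 536870912 536870912 3) ndB0q1 ndB3q1 pcB3 Cut.none Ext.none)

def k0_pp_113 : ∃ t, chk3 f_pp_113 t 1 1 1 = true :=
  ⟨(l 4), by decide +kernel⟩

theorem c_pp_113 : CertB 536870912 536870912 536870912 536870912 966367641 24778659 3 eng mog cd0q1 cd3q1 pd3 true true true .nn 1 1 3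
    ndB0q1 ndB3q1 pcB3 Cut.none Ext.none :=
  certB0 (fam := true) (s1 := true) (s2 := true) (a := 1) (b := 1) (c := 3) (cn := .nn) (n1 := ndB0q1) (n2 := ndB3q1) (pc := pcB3) (cut := Cut.none) (xt := Ext.none) (P1 := 536870912) (W1 := 536870912) (P2 := 536870912) (W2 := 536870912) (P3 := 966367641) (W3 := 24778659) (N0 := 3) (En := eng) (mo := mog) (C1 := cd0q1) (C2 := cd3q1) (C3 := pd3)
    rfl k0_pp_113

noncomputable def f_pp_123 : ℕ → ℕ → ℕ → ℕ → Bool := onCell 536870912 536870912 1073741824 536870912 966367641 24778659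
    (rowB 3 eng mog cd0q1 cd3q2 pd3 0 true true true .npn 1 2 3 (qsf 536870912 536870912 1073741824 536870912 3) ndB0q1 ndB3q2 pcB3 Cut.none Ext.none)

def k0_pp_123 : ∃ t, chk3 f_pp_123 t 1 1 1 = true :=
  ⟨(l 4), by decide +kernel⟩

theorem c_pp_123 : CertB 536870912 536870912 1073741824 536870912 966367641 24778659 3 eng mog cd0q1 cd3q2 pd3 true true true .npn 1 2 3
    ndB0q1 ndB3q2 pcB3 Cut.none Ext.none :=
  certB0 (fam := true) (s1 := true) (s2 := true) (a := 1) (b := 2) (c := 3) (cn := .npn) (n1 := ndB0q1) (n2 := ndB3q2) (pc := pcB3) (cut := Cut.none) (xt := Ext.none) (P1 := 536870912) (W1 := 536870912) (P2 := 1073741824) (W2 := 536870912) (P3 := 966367641) (W3 := 24778659) (N0 := 3) (En := eng) (mo := mog) (C1 := cd0q1) (C2 := cd3q2) (C3 := pd3)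
    rfl k0_pp_123

noncomputable def f_pp_133 : ℕ → ℕ → ℕ → ℕ → Bool := onCell 536870912 536870912 0 1230186008 966367641 24778659
    (rowB 3 eng mog cd0q1 cd3q3 pd3 0 true true true .dn 1 3 3 (qsf 536870912 536870912 0 1230186008 3) ndB0q1 ndB3q3 pcB3 Cut.none Ext.none)

def k0_pp_133 : ∃ t, chk3 f_pp_133 t 1 1 1 = true :=
  ⟨(l 4), by decide +kernel⟩

theorem c_pp_133 : CertB 536870912 536870912 0 1230186008 966367641 24778659 3 eng mog cd0q1 cd3q3 pd3 true true true .dn 1 3 3
    ndB0q1 ndB3q3 pcB3 Cut.none Ext.none :=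
  certB0 (fam := true) (s1 := true) (s2 := true) (a := 1) (b := 3) (c := 3) (cn := .dn) (n1 := ndB0q1) (n2 := ndB3q3) (pc := pcB3) (cut := Cut.none) (xt := Ext.none) (P1 := 536870912) (W1 := 536870912) (P2 := 0) (W2 := 1230186008) (P3 := 966367641) (W3 := 24778659) (N0 := 3) (En := eng) (mo := mog) (C1 := cd0q1) (C2 := cd3q3) (C3 := pd3)
    rfl k0_pp_133

noncomputable def f_pp_202 : ℕ → ℕ → ℕ → ℕ → Bool := onCell 0 536870912 0 536870912 966367641 24778659
    (rowB 3 eng mog cd0q2 cd3q0 pd2 0 true true true .pp 2 0 2 (qsf 0 536870912 0 536870912 2) ndB0q2 ndB3q0 pcB2 Cut.none Ext.none)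

def k0_pp_202 : ∃ t, chk3 f_pp_202 t 1 1 1 = true :=
  ⟨(l 5), by decide +kernel⟩

theorem c_pp_202 : CertB 0 536870912 0 536870912 966367641 24778659 3 eng mog cd0q2 cd3q0 pd2 true true true .pp 2 0 2
    ndB0q2 ndB3q0 pcB2 Cut.none Ext.none :=
  certB0 (fam := true) (s1 := true) (s2 := true) (a := 2) (b := 0) (c := 2) (cn := .pp) (n1 := ndB0q2) (n2 := ndB3q0) (pc := pcB2) (cut := Cut.none) (xt := Ext.none) (P1 := 0) (W1 := 536870912) (P2 := 0) (W2 := 536870912) (P3 := 966367641) (W3 := 24778659) (N0 := 3) (En := eng) (mo := mog) (C1 := cd0q2) (C2 := cd3q0) (C3 := pd2)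
    rfl k0_pp_202

noncomputable def f_pp_203 : ℕ → ℕ → ℕ → ℕ → Bool := onCell 0 536870912 0 536870912 966367641 24778659
    (rowB 3 eng mog cd0q2 cd3q0 pd3 0 true true true .up 2 0 3 (qsf 0 536870912 0 536870912 3) ndB0q2 ndB3q0 pcB3 Cut.none Ext.none)

def k0_pp_203 : ∃ t, chk3 f_pp_203 t 1 1 1 = true :=
  ⟨(l 5), by decide +kernel⟩

theorem c_pp_203 : CertB 0 536870912 0 536870912 966367641 24778659 3 eng mog cd0q2 cd3q0 pd3 true true true .up 2 0 3
    ndB0q2 ndB3q0 pcB3 Cut.none Ext.none :=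
  certB0 (fam := true) (s1 := true) (s2 := true) (a := 2) (b := 0) (c := 3) (cn := .up) (n1 := ndB0q2) (n2 := ndB3q0) (pc := pcB3) (cut := Cut.none) (xt := Ext.none) (P1 := 0) (W1 := 536870912) (P2 := 0) (W2 := 536870912) (P3 := 966367641) (W3 := 24778659) (N0 := 3) (En := eng) (mo := mog) (C1 := cd0q2) (C2 := cd3q0) (C3 := pd3)
    rfl k0_pp_203

noncomputable def f_pp_213 : ℕ → ℕ → ℕ → ℕ → Bool := onCell 0 536870912 536870912 536870912 966367641 24778659
    (rowB 3 eng mog cd0q2 cd3q1 pd3 0 true true true .pnn 2 1 3 (qsf 0 536870912 536870912 536870912 3) ndB0q2 ndB3q1 pcB3 Cut.none Ext.none)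

def k0_pp_213 : ∃ t, chk3 f_pp_213 t 1 1 1 = true :=
  ⟨(l 4), by decide +kernel⟩

theorem c_pp_213 : CertB 0 536870912 536870912 536870912 966367641 24778659 3 eng mog cd0q2 cd3q1 pd3 true true true .pnn 2 1 3
    ndB0q2 ndB3q1 pcB3 Cut.none Ext.none :=
  certB0 (fam := true) (s1 := true) (s2 := true) (a := 2) (b := 1) (c := 3) (cn := .pnn) (n1 := ndB0q2) (n2 := ndB3q1) (pc := pcB3) (cut := Cut.none) (xt := Ext.none) (P1 := 0) (W1 := 536870912) (P2 := 536870912) (W2 := 536870912) (P3 := 966367641) (W3 := 24778659) (N0 := 3) (En := eng) (mo := mog) (C1 := cd0q2) (C2 := cd3q1) (C3 := pd3)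
    rfl k0_pp_213

noncomputable def f_pm_001 : ℕ → ℕ → ℕ → ℕ → Bool := onCell 0 536870912 536870912 536870912 966367641 24778659
    (rowB 3 eng mog cd0q0 cd3q0 pd1 1 true true false .up 0 0 1 (qsf 0 536870912 0 536870912 1) ndB0q0 ndB3q0 pcB1 Cut.none Ext.none)

def k0_pm_001 : ∃ t, chk3 f_pm_001 t 1 2 1 = true :=
  ⟨(l 3), by decide +kernel⟩

def k1_pm_001 : ∃ t, chk3 f_pm_001 t 2 3 1 = true :=
  ⟨(b (l 3) (l 2)), by decide +kernel⟩

def k2_pm_001 : ∃ t, chk3 f_pm_001 t 3 6 1 = true :=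
  ⟨(a (l 3) (b (l 3) (a (l 3) (b (l 3) (a (l 3) (b (l 3) (b (l 3) (a (l 3) (c (a (l 220284220951) (l 169818334215)) (b (l 3) (a (l 279876832375) (l 196124942567)))))))))))), by decide +kernel⟩

def k3_pm_001 : ∃ t, chk3 f_pm_001 t 3 28 1 = true :=
  ⟨(b (a (l 3) (a (a (l 3) (a (l 3) (b (l 3) (b (l 3) (c (l 211157448423) (a (l 199346277895) (l 203104359607))))))) (a (b (a (l 3) (b (l 3) (c (l 236390364167) (a (l 176260805095) (l 197198747111))))) (a (c (b (l 194514439463) (a (l 16478936) (l 16493040))) (b (a (l 170892128007) (l 202030603383)) (a (l 193977536903) (l 16452448)))) (c (a (l 207399312263) (l 16482216)) (a (b (l 202567456807) (l 16444776)) (b (l 16446024) (l 16436360)))))) (c (b (a (a (l 199346251895) (l 190219429463)) (a (l 175723902391) (l 16450320))) (a (a (l 16469712) (l 16457440)) (l 16439560))) (a (b (b (a (l 251959577143) (l 195588107815)) (a (l 198272467671) (l 16456168))) (a (l 16452880) (l 16442888))) (b (a (b (l 197198695431) (l 16445064)) (a (l 16440384)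 (l 16434312))) (l 16426672))))))) (a (l 2) (a (a (b (a (l 3) (b (l 3) (c (l 175723994391) (l 174113337847)))) (a (l 2) (c (a (l 106937408839) (l 16476312)) (a (l 107474233191) (l 16455904))))) (c (a (a (b (l 211157439687) (l 16474424)) (b (l 213841781047) (l 16471760))) (b (a (l 177871414455) (l 16467664)) (l 16445376))) (a (b (b (a (l 170892136775) (l 165523428135)) (a (l 16463848) (l 16471608))) (a (l 16454672) (l 16452552))) (b (b (a (l 163375903223) (l 16475072)) (l 16444856)) (l 16447696))))) (a (b (c (a (c (l 16484480) (l 16454248)) (l 16465848)) (a (a (l 16442800) (l 16436464)) (l 16446464))) (a (c (l 16435624) (l 16438232)) (l 16434960))) (a (c (l 16439128) (l 16419536)) (b (l 16419984) (l 16401384))))))), by decide +kernel⟩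

def k4_pm_001 : ∃ t, chk3 f_pm_001 t 3 29 1 = true :=
  ⟨(a (l 2) (b (a (a (b (a (l 2) (l 108011014295)) (l 2)) (a (b (c (l 16445544) (l 16427072)) (l 16408256)) (b (l 16410672) (l 16405160)))) (a (a (l 16348392) (l 16401056)) (a (l 16387872) (l 16371904)))) (a (a (l 2) (a (l 16364224) (l 16363712))) (a (l 16356784) (l 16336840))))), by decide +kernel⟩

def k5_pm_001 : ∃ t, chk3 f_pm_001 t 3 15 1 = true :=
  ⟨(a (l 2) (a (b (a (l 2) (b (l 16220776) (l 2))) (l 2)) (b (a (b (l 16283104) (l 16247080)) (b (l 16290864) (l 16240976))) (a (l 16096360) (l 16164320))))), by decide +kernel⟩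

theorem s6_pm_001 : ∃ t, chk3 f_pm_001 t 3 14 1 = true := ex3_b k3_pm_001 k4_pm_001

theorem s7_pm_001 : ∃ t, chk3 f_pm_001 t 3 7 1 = true := ex3_b s6_pm_001 k5_pm_001

theorem s8_pm_001 : ∃ t, chk3 f_pm_001 t 3 3 1 = true := ex3_b k2_pm_001 s7_pm_001

theorem s9_pm_001 : ∃ t, chk3 f_pm_001 t 1 3 1 = true := ex3_a k1_pm_001 s8_pm_001

theorem s10_pm_001 : ∃ t, chk3 f_pm_001 t 1 1 1 = true := ex3_b k0_pm_001 s9_pm_001

theorem c_pm_001 : CertB 0 536870912 0 536870912 966367641 24778659 3 eng mog cd0q0 cd3q0 pd1 true true false .up 0 0 1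
    ndB0q0 ndB3q0 pcB1 Cut.none Ext.none :=
  certB1 (fam := true) (s1 := true) (s2 := false) (a := 0) (b := 0) (c := 1) (cn := .up) (n1 := ndB0q0) (n2 := ndB3q0) (pc := pcB1) (cut := Cut.none) (xt := Ext.none) (P1 := 0) (W1 := 536870912) (P2 := 0) (W2 := 536870912) (P3 := 966367641) (W3 := 24778659) (N0 := 3) (En := eng) (mo := mog) (C1 := cd0q0) (C2 := cd3q0) (C3 := pd1)
    rfl (fun _ => rfl) s10_pm_001

noncomputable def cut_pm_011 : Cut := Cut.of [[⟨0, 0, 0, 67108864⟩, ⟨1, 1, 0, 67108864⟩, ⟨2, 1, 0, 67108864⟩]]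

noncomputable def xt_pm_011 : Ext := extD2 3 ⟨4, 1, 1, 5, 37, 10, 843, 1000, 41, 100, 1, 8⟩ eng cd0q0 cd3q1 pd1 true true false .pnn 0 1 1 rfl ndB0q0 ndB3q1 pcB1

noncomputable def f_pm_011 : ℕ → ℕ → ℕ → ℕ → Bool := onCell 0 536870912 536870912 536870912 966367641 24778659
    (rowB 3 eng mog cd0q0 cd3q1 pd1 1 true true false .pnn 0 1 1 (qsf 0 536870912 536870912 536870912 1) ndB0q0 ndB3q1 pcB1 cut_pm_011 xt_pm_011)

def k0_pm_011 : ∃ t, chk3 f_pm_011 t 1 2 1 = true :=
  ⟨(l 3), by decide +kernel⟩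

def k1_pm_011 : ∃ t, chk3 f_pm_011 t 2 6 1 = true :=
  ⟨(l 3), by decide +kernel⟩

def k2_pm_011 : ∃ t, chk3 f_pm_011 t 4 14 1 = true :=
  ⟨(l 3), by decide +kernel⟩

def k3_pm_011 : ∃ t, chk3 f_pm_011 t 8 15 1 = true :=
  ⟨(b (l 3) (a (b (l 3) (l 6)) (b (a (l 3) (b (l 3) (b (l 3) (a (l 3) (b (l 3) (b (l 3) (a (l 3) (l 329269504871)))))))) (b (a (b (b (l 3) (l 6)) (l 6)) (b (a (b (a (l 3) (l 330880143847)) (a (b (l 330343286647) (l 290077964615)) (c (l 269139988023) (l 16721496)))) (a (b (c (l 309942160871) (l 318532103655)) (l 16715064)) (b (a (l 308331543367) (l 299741601351)) (l 16708304)))) (a (b (a (l 16724808) (l 16718032)) (l 16717496)) (b (l 16707856) (l 16703880))))) (a (l 6) (b (a (l 16711304) (l 16697624)) (a (l 6) (l 16688664)))))))), by decide +kernel⟩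

def k4_pm_011 : ∃ t, chk3 f_pm_011 t 9 30 1 = true :=
  ⟨(a (l 3) (b (l 3) (a (l 3) (b (l 3) (b (l 3) (a (l 3) (b (l 3) (c (l 389398924567) (l 440938562967))))))))), by decide +kernel⟩

def k5_pm_011 : ∃ t, chk3 f_pm_011 t 18 31 1 = true :=
  ⟨(b (a (b (l 3) (b (a (l 3) (a (l 3) (a (l 3) (b (l 3) (c (l 324974509271) (l 331953829447)))))) (c (a (b (a (l 3) (l 326585132903)) (a (a (l 316384605959) (l 306184041847)) (a (l 278266748055) (l 301889061799)))) (a (b (b (l 324974519959) (a (l 297594111191) (l 230485240999))) (b (l 16697072) (l 16695264))) (b (b (a (l 298667843511) (l 241759521095)) (l 16692520)) (l 16689816)))) (a (a (l 5883234120212280653348982847) (a (l 316921455239) (l 311015868839))) (b (a (l 337322541575) (l 309405241191)) (l 16692808)))))) (b (b (l 3) (a (l 3) (a (l 3) (a (l 3) (b (l 3) (c (l 351281151175) (l 384030276887))))))) (b (a (c (b (a (l 3) (a (l 3) (l 331416943047))) (b (a (a (l 3) (l 322290144599)) (a (l 306720882455) (l 268066178263))) (a (a (l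 298667834583) (l 255718155703)) (l 16683856)))) (b (l 356113001367) (a (l 325511369831) (l 311552705735)))) (b (a (c (a (b (l 3) (l 305110261495)) (b (l 339469997335) (l 282024813287))) (l 324974472615)) (c (b (a (l 297057196375) (l 281487934439)) (l 16675936)) (l 309942077143))) (a (c (b (l 16679792) (l 16678024)) (l 16678480)) (l 16667984)))) (a (b (a (c (b (l 16688104) (l 16686320)) (l 16686424)) (l 16675608)) (l 16680176)) (a (l 16668048) (l 16667792)))))) (a (b (a (b (b (a (c (l 16716072) (l 16705016)) (l 16693392)) (l 16700832)) (l 16692344)) (b (a (l 16690216) (l 16683808)) (l 16679152))) (b (c (l 16677576) (l 16677120)) (l 16647320))) (b (b (a (l 16674544) (l 16662952)) (l 16639696)) (a (l 16653648) (l 16641872))))), by decide +kernel⟩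

def k6_pm_011 : ∃ t, chk3 f_pm_011 t 19 31 1 = true :=
  ⟨(a (b (b (b (a (l 3) (a (l 3) (c (l 385640853239) (l 430201159447)))) (c (a (b (a (l 3) (l 373292828823)) (a (b (l 358260466967) (c (l 284709158087) (l 288467254455))) (b (c (l 284172279831) (l 287930376759)) (l 16668944)))) (a (b (a (l 306720847271) (l 298130908183)) (l 16657760)) (b (b (l 308331434327) (l 16662904)) (l 16660280)))) (a (a (l 317458269255) (l 308331455175)) (a (l 306183967495) (l 16660456))))) (b (a (c (a (b (b (l 16672312) (l 16670560)) (l 16667896)) (l 16654056)) (b (l 16664224) (l 16665896))) (c (l 16652016) (l 16659200))) (a (l 16660080) (l 16650816)))) (b (a (l 16648464) (l 16639072)) (l 16605392))) (b (b (b (c (a (b (l 386714590631) (a (l 299204625015) (l 298130876919))) (b (a (l 308868293255) (l 294909642439)) (l 16646608))) (a (l 307257689079) (l 290614699687))) (b (a (c (a (l 16659216) (l 16654768)) (l 16660480)) (l 16650760)) (a (l 16655152) (l 16647168)))) (a (b (l 16649728) (l 16642256))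 (l 16637944))) (b (l 16605256) (l 16608664)))), by decide +kernel⟩

def k7_pm_011 : ∃ t, chk3 f_pm_011 t 5 7 1 = true :=
  ⟨(b (a (l 3) (b (l 3) (a (l 3) (b (l 3) (b (l 3) (a (l 3) (l 195588507479))))))) (b (a (b (a (l 3) (a (l 3) (a (l 3) (b (l 3) (l 452212784295))))) (a (a (b (l 3) (a (b (l 3) (b (l 8378454471146109492468486719) (c (l 294372771591) (l 16636056)))) (c (b (l 397451974359) (a (l 289004055255) (l 16632632))) (l 301352089943)))) (b (b (l 3) (a (l 3) (l 439864773975))) (c (b (a (l 289004036935) (l 274508531751)) (a (l 16637896) (l 16631336))) (a (l 313700094551) (l 16624120))))) (b (a (c (b (l 413021236839) (a (l 282024727415) (l 16634472))) (l 315847568711)) (c (b (l 297593930919) (l 16606528)) (l 303499520231))) (a (a (b (l 16617088) (l 16630808)) (l 16597944)) (c (l 16616288) (l 16608264)))))) (a (b (a (b (l 3) (a (l 295983319399) (l 289540863239))) (b (l 474761339447) (a (l 283635279143) (l 16618088)))) (a (b (a (l 16600472) (l 16607728)) (l 16594104)) (b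 (l 16582648) (l 16609104)))) (b (a (b (l 247128079383) (l 16632144)) (b (l 16619592) (l 16602360))) (a (l 16583944) (l 16575040))))) (a (b (a (a (b (b (a (c (b (l 16636760) (l 16643704)) (l 16651904)) (l 16620696)) (a (l 16641464) (l 16634400))) (a (l 16630296) (l 16623112))) (b (a (l 16610528) (l 16625392)) (l 16613216))) (a (b (l 16596104) (l 16601576)) (b (l 16607504) (l 16591728)))) (a (a (a (l 16584816) (l 16577432)) (l 16546304)) (a (l 16534344) (l 16566160)))) (a (b (a (l 16570808) (l 16585440)) (a (l 16557840) (l 16551224))) (b (l 16554480) (l 16525216)))))), by decide +kernel⟩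

def k8_pm_011 : ∃ t, chk3 f_pm_011 t 3 6 1 = true :=
  ⟨(a (l 3) (a (l 3) (l 1))), by decide +kernel⟩

def k9_pm_011 : ∃ t, chk3 f_pm_011 t 3 14 1 = true :=
  ⟨(a (a (b (l 3) (b (a (l 3) (a (l 3) (c (l 216526316791) (l 243906666679)))) (a (a (b (l 3) (l 265381578375)) (b (l 284708913495) (l 16536616))) (a (b (l 253570354791) (l 16550736)) (b (l 16562232) (l 16523936)))))) (b (a (l 3) (b (l 3) (b (l 3) (a (l 3) (b (l 3) (c (l 169281576071) (l 174650292727))))))) (a (b (b (a (l 3) (c (l 166060451751) (l 207936305559))) (a (c (l 16536408) (l 16529552)) (c (l 16510912) (l 16505592)))) (a (b (l 16515656) (l 16498256)) (b (l 16490800) (l 16473312)))) (b (b (a (c (l 163376009287) (l 207399380583)) (b (c (l 16484032) (l 16479104)) (l 16451816))) (a (l 16483752) (l 16459624))) (a (b (l 16466224) (l 16448648)) (l 16433096)))))) (a (a (b (b (l 3) (a (b (l 3) (a (c (l 171429045415) (l 176260870871)) (c (l 169818410071) (l 174650235495)))) (b (b (l 3) (a (c (l 186461362983) (l 176797708295))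 (c (l 239477378935) (l 244309203783)))) (b (c (a (l 16481768) (l 16449408)) (a (l 16455488) (l 16444192))) (a (l 16449328) (l 16437904)))))) (b (a (b (c (l 16455584) (l 16451712)) (l 16435880)) (b (c (l 16432224) (l 16428760)) (l 16412568))) (a (l 16409184) (l 16385704)))) (b (b (l 1) (b (l 1) (a (c (l 274910722103) (l 274373859959)) (l 1)))) (a (b (c (l 16421032) (l 16397536)) (l 16362680)) (b (l 199211978935) (l 16340128))))) (b (l 1) (a (b (l 1) (l 16391088)) (l 1))))), by decide +kernel⟩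

def k10_pm_011 : ∃ t, chk3 f_pm_011 t 3 15 1 = true :=
  ⟨(a (a (b (b (a (a (c (l 16543624) (l 16556408)) (b (l 16561496) (l 16544136))) (a (l 16503880) (l 16497904))) (a (b (l 16498296) (l 16500824)) (l 16432864))) (a (b (l 16495400) (l 16466072)) (b (l 16439200) (l 16409824)))) (b (a (b (a (l 16472120) (l 16447080)) (l 16401944)) (b (a (l 16422312) (l 16397856)) (l 16373400))) (a (b (l 16387344) (l 16358040)) (b (l 16337896) (l 16308688))))) (a (b (a (b (l 16298944) (l 16325136)) (b (l 16252584) (l 16278656))) (a (b (l 16289664) (l 16260512)) (b (l 16243224) (l 16214128)))) (b (a (b (l 16271120) (l 16234200)) (l 292089928215)) (a (l 16141168) (l 16120240))))), by decide +kernel⟩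

theorem s11_pm_011 : ∃ t, chk3 f_pm_011 t 3 7 1 = true := ex3_b k9_pm_011 k10_pm_011

theorem s12_pm_011 : ∃ t, chk3 f_pm_011 t 3 3 1 = true := ex3_b k8_pm_011 s11_pm_011

theorem s13_pm_011 : ∃ t, chk3 f_pm_011 t 9 31 1 = true := ex3_a k5_pm_011 k6_pm_011

theorem s14_pm_011 : ∃ t, chk3 f_pm_011 t 9 15 1 = true := ex3_b k4_pm_011 s13_pm_011

theorem s15_pm_011 : ∃ t, chk3 f_pm_011 t 4 15 1 = true := ex3_a k3_pm_011 s14_pm_011

theorem s16_pm_011 : ∃ t, chk3 f_pm_011 t 4 7 1 = true := ex3_b k2_pm_011 s15_pm_011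

theorem s17_pm_011 : ∃ t, chk3 f_pm_011 t 2 7 1 = true := ex3_a s16_pm_011 k7_pm_011

theorem s18_pm_011 : ∃ t, chk3 f_pm_011 t 2 3 1 = true := ex3_b k1_pm_011 s17_pm_011

theorem s19_pm_011 : ∃ t, chk3 f_pm_011 t 1 3 1 = true := ex3_a s18_pm_011 s12_pm_011

theorem s20_pm_011 : ∃ t, chk3 f_pm_011 t 1 1 1 = true := ex3_b k0_pm_011 s19_pm_011

theorem c_pm_011 : CertB 0 536870912 536870912 536870912 966367641 24778659 3 eng mog cd0q0 cd3q1 pd1 true true false .pnn 0 1 1
    ndB0q0 ndB3q1 pcB1 cut_pm_011 xt_pm_011 :=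
  certB1 (fam := true) (s1 := true) (s2 := false) (a := 0) (b := 1) (c := 1) (cn := .pnn) (n1 := ndB0q0) (n2 := ndB3q1) (pc := pcB1) (cut := cut_pm_011) (xt := xt_pm_011) (P1 := 0) (W1 := 536870912) (P2 := 536870912) (W2 := 536870912) (P3 := 966367641) (W3 := 24778659) (N0 := 3) (En := eng) (mo := mog) (C1 := cd0q0) (C2 := cd3q1) (C3 := pd1)
    rfl (fun _ => rfl) s20_pm_011

noncomputable def cut_pm_012 : Cut := Cut.of [[⟨0, 0, 0, 67108864⟩, ⟨1, 1, 0, 67108864⟩, ⟨2, 1, 0, 67108864⟩]]

noncomputable def f_pm_012 : ℕ → ℕ → ℕ → ℕ → Bool := onCell 0 536870912 1073741824 536870912 966367641 24778659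
    (rowB 3 eng mog cd0q0 cd3q1 pd2 1 true true false .pnp 0 1 2 (qsf 0 536870912 536870912 536870912 2) ndB0q0 ndB3q1 pcB2 cut_pm_012 Ext.none)

def k0_pm_012 : ∃ t, chk3 f_pm_012 t 2 8 1 = true :=
  ⟨(a (a (b (a (l 6) (a (l 6) (a (l 6) (a (l 6) (b (b (l 16609136) (l 16595736)) (b (l 16540480) (l 16485264))))))) (a (b (l 6) (l 2)) (b (a (l 6) (a (l 6) (a (l 6) (b (l 16430064) (l 16374856))))) (b (a (l 6) (a (l 6) (c (l 16337880) (l 16304992)))) (a (l 2) (a (b (l 6) (l 2)) (b (l 16262984) (a (l 16254016) (l 16250536))))))))) (a (b (b (a (b (b (l 16627120) (l 16621032)) (b (l 16593984) (l 16566952))) (b (a (l 16615744) (l 16604288)) (c (l 16561920) (l 16553592)))) (a (b (a (l 16542432) (l 16520896)) (a (l 16477424) (l 16467288))) (b (c (l 16512064) (l 16499056)) (l 16463880)))) (a (b (b (a (l 16422888) (l 16413632)) (a (l 16368320) (l 16359920))) (b (a (l 16317640) (l 16306136)) (a (c (l 16277448) (l 16240216)) (l 16231288)))) (b (b (l 16411544) (l 16356472)) (b (a (l 16299192)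 (l 16293096)) (a (l 16246112) (l 16240808)))))) (b (b (a (b (l 16568304) (l 16539112)) (a (l 16478552) (l 16502488))) (a (b (l 16488816) (l 16438376)) (b (l 16475584) (l 16426928)))) (b (a (b (l 16387776) (l 16337008)) (a (l 16355528) (l 16351552))) (a (b (l 16265096) (l 16213976)) (a (l 16256064) (l 16253688))))))) (a (b (b (a (b (l 16487600) (l 16484152)) (b (l 16507136) (l 16486432))) (a (b (l 16459416) (l 16413392)) (a (l 16425608) (l 16420776)))) (a (b (a (l 16346488) (l 16341312)) (a (l 16251008) (l 16248992))) (b (l 16337096) (l 16249480)))) (a (b (b (l 16452432) (l 16396168)) (b (l 16337744) (l 16256344))) (b (l 16388152) (l 16200496))))), by decide +kernel⟩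

def k1_pm_012 : ∃ t, chk3 f_pm_012 t 2 9 1 = true :=
  ⟨(a (a (b (a (l 2) (b (a (l 2) (a (l 2) (b (b (l 16224536) (l 2)) (l 2)))) (l 2))) (l 2)) (b (a (b (a (b (a (b (l 16238976) (l 16211592)) (l 16187816)) (a (l 16139704) (a (l 16124544) (l 16122040)))) (b (a (l 16192912) (l 16188368)) (a (l 16139608) (l 16135800)))) (a (a (l 2) (b (l 16069152) (l 2))) (b (a (l 16066528) (l 16083096)) (a (l 16032672) (l 16051232))))) (b (a (b (l 16162680) (l 16111216)) (a (l 16155736) (l 16154864))) (a (c (l 16057376) (l 16009472)) (c (l 16076320) (l 16032840))))) (a (a (l 2) (b (a (l 2) (b (l 15977328) (l 2))) (l 2))) (a (b (a (b (l 15976632) (l 15924240)) (b (l 15977080) (l 15925320))) (a (l 2) (l 15826544))) (b (c (l 15979144) (l 15927456)) (b (l 15919152) (l 15889048))))))) (a (b (a (b (a (l 16154432) (l 16155392)) (a (l 16035832) (l 16060568))) (b (l 16160320) (l 16069688))) (a (b (a (l 15937232) (l 15964608)) (a (l 15837816) (l 15867656))) (b (a (l 15972800) (l 15982776)) (a (l 15878320)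 (l 15890768))))) (a (b (a (l 16126008) (l 16135432)) (a (l 15949976) (l 15964672))) (b (a (l 16145488) (l 16155192)) (a (l 15980016) (l 15995024)))))), by decide +kernel⟩

def k2_pm_012 : ∃ t, chk3 f_pm_012 t 3 4 1 = true :=
  ⟨(a (b (a (b (a (l 16444552) (l 16433920)) (a (l 16290728) (l 16313728))) (b (a (l 16395568) (l 16344632)) (a (l 16309648) (l 16301272)))) (a (b (a (l 16168560) (l 16182224)) (a (l 16016384) (l 16040800))) (b (a (l 16168736) (l 16192920)) (a (l 16059168) (l 16073744))))) (a (b (a (b (l 16294184) (l 16290136)) (b (l 16245432) (l 16275384))) (a (b (l 16193216) (l 16085248)) (b (l 16189736) (l 16092776)))) (b (a (l 16000088) (l 16185232)) (b (l 16176536) (l 16095656))))), by decide +kernel⟩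

def k3_pm_012 : ∃ t, chk3 f_pm_012 t 2 5 1 = true :=
  ⟨(a (b (a (l 2) (b (a (l 2) (b (a (l 2) (b (l 15774992) (l 2))) (l 2))) (l 2))) (l 2)) (b (a (b (b (a (a (b (l 15783776) (l 15733696)) (b (l 15794376) (l 15745384))) (a (l 15782904) (l 15797656))) (a (b (a (l 15683712) (l 15696400)) (a (l 2) (b (l 15659816) (b (l 15641856) (l 15629976))))) (b (a (l 15710936) (l 15727288)) (b (a (l 15675064) (l 15692136)) (a (b (l 15657400) (l 15645696)) (l 15668992)))))) (a (a (l 2) (b (l 15573376) (l 2))) (a (b (l 15590256) (l 15489896)) (b (l 15609016) (l 15510776))))) (b (b (a (l 15802400) (l 15860896)) (b (a (l 15818336) (l 15796248)) (a (b (l 15721376) (a (l 15688304) (l 15709392))) (b (l 15763728) (l 15742128))))) (a (a (c (l 15614600) (l 15548280)) (l 15605328)) (c (l 15672808) (l 15609824))))) (a (a (l 2) (b (a (l 2) (b (l 15410864) (l 2))) (l 2))) (a (b (a (b (l 15435720) (l 15336256)) (b (l 15462424) (l 15365024))) (a (l 2) (l 15216016))) (b (a (l 15442520) (l 15470896)) (a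 (l 15248648) (l 15281208))))))), by decide +kernel⟩

def k4_pm_012 : ∃ t, chk3 f_pm_012 t 3 5 1 = true :=
  ⟨(a (a (b (b (b (a (l 15896904) (l 15928768)) (b (a (l 15835640) (l 15871008)) (a (b (l 15804712) (l 15784008)) (l 15831456)))) (a (l 15688680) (l 15731848))) (a (b (l 15512648) (a (l 15313376) (l 15344848))) (b (l 15564848) (l 15390280)))) (a (b (b (b (l 15954856) (b (l 15900768) (l 15863744))) (l 15769896)) (a (l 15475432) (b (l 15623568) (l 15460560)))) (b (b (l 15944720) (l 15806624)) (b (l 15660088) (l 15505720))))) (a (b (b (a (l 15967344) (l 15985744)) (a (l 15840352) (l 15869552))) (b (a (l 15704952) (l 15744952)) (a (l 15561784) (l 15612616)))) (b (a (l 15779920) (l 15898008)) (b (l 15648016) (a (l 15657576) (l 15695984)))))), by decide +kernel⟩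

def k5_pm_012 : ∃ t, chk3 f_pm_012 t 1 3 1 = true :=
  ⟨(a (a (l 2) (b (a (l 2) (b (a (l 2) (b (a (l 2) (l 15085136)) (l 2))) (l 2))) (l 2))) (a (b (a (b (a (b (a (l 15121328) (l 15156920)) (a (l 2) (l 14962840))) (b (l 15208680) (a (l 15001496) (l 15039072)))) (a (l 2) (b (a (l 2) (l 14847080)) (l 2)))) (c (b (a (a (l 15221216) (b (l 15339176) (l 15169152))) (b (l 15388744) (l 15226544))) (a (a (l 14860456) (b (l 14993144) (l 14811824))) (b (l 15058416) (l 64521559911)))) (b (a (b (l 15222952) (l 15015184)) (b (l 15297816) (l 15123416))) (a (a (l 14719984) (b (l 14864744) (l 14668856))) (b (l 14942992) (l 66668790919)))))) (a (l 2) (b (a (l 2) (b (c (l 14706880) (l 14567320)) (l 2))) (l 2)))) (b (a (b (a (b (l 15411472) (a (l 15235376) (l 15273256))) (b (l 15473160) (l 15327224))) (a (b (c (l 15140624) (l 15041320)) (c (l 14977336) (l 14868592))) (b (c (l 15216744) (l 15132584)) (c (l 15063304) (l 14972088))))) (b (a (b (l 15528568) (l 15393104)) (c (l 15537888) (l 15491568)))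 (a (b (l 15251824) (l 15084424)) (c (l 15279616) (l 15225136))))) (a (b (a (b (c (l 14809344) (l 14691608)) (c (l 14637392) (l 14511320))) (b (c (l 14905128) (l 14807448)) (c (l 14742864) (l 14639528)))) (a (l 2) (a (l 2) (b (l 138609238247) (l 2))))) (b (a (c (b (l 14992992) (l 14840144)) (b (l 14914736) (l 14758464))) (c (l 14979752) (l 14940984))) (a (c (b (l 14683816) (l 14524792)) (b (l 14599872) (l 14439976))) (c (b (l 14780784) (l 14630560)) (b (l 14719992) (l 14570888))))))))), by decide +kernel⟩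

theorem s6_pm_012 : ∃ t, chk3 f_pm_012 t 1 5 1 = true := ex3_a k3_pm_012 k4_pm_012

theorem s7_pm_012 : ∃ t, chk3 f_pm_012 t 2 4 1 = true := ex3_b k0_pm_012 k1_pm_012

theorem s8_pm_012 : ∃ t, chk3 f_pm_012 t 1 4 1 = true := ex3_a s7_pm_012 k2_pm_012

theorem s9_pm_012 : ∃ t, chk3 f_pm_012 t 1 2 1 = true := ex3_b s8_pm_012 s6_pm_012

theorem s10_pm_012 : ∃ t, chk3 f_pm_012 t 1 1 1 = true := ex3_b s9_pm_012 k5_pm_012

theorem c_pm_012 : CertB 0 536870912 536870912 536870912 966367641 24778659 3 eng mog cd0q0 cd3q1 pd2 true true false .pnp 0 1 2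
    ndB0q0 ndB3q1 pcB2 cut_pm_012 Ext.none :=
  certB1 (fam := true) (s1 := true) (s2 := false) (a := 0) (b := 1) (c := 2) (cn := .pnp) (n1 := ndB0q0) (n2 := ndB3q1) (pc := pcB2) (cut := cut_pm_012) (xt := Ext.none) (P1 := 0) (W1 := 536870912) (P2 := 536870912) (W2 := 536870912) (P3 := 966367641) (W3 := 24778659) (N0 := 3) (En := eng) (mo := mog) (C1 := cd0q0) (C2 := cd3q1) (C3 := pd2)
    rfl (fun _ => rfl) s10_pm_012

noncomputable def f_pm_022 : ℕ → ℕ → ℕ → ℕ → Bool := onCell 0 536870912 1073741824 536870912 966367641 24778659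
    (rowB 3 eng mog cd0q0 cd3q2 pd2 1 true true false .pp 0 2 2 (qsf 0 536870912 1073741824 536870912 2) ndB0q0 ndB3q2 pcB2 Cut.none Ext.none)

def k0_pm_022 : ∃ t, chk3 f_pm_022 t 1 2 1 = true :=
  ⟨(b (a (l 3) (l 1)) (a (a (b (b (b (l 3) (b (l 3) (b (a (a (l 3) (a (l 3423792277879) (l 16235248))) (a (c (l 16336648) (l 16443528)) (c (l 16444512) (l 16481648)))) (a (a (c (a (l 16173872) (l 16234360)) (l 16275624)) (a (l 16221600) (l 16298432))) (a (l 16285168) (l 16463624)))))) (a (a (c (a (b (l 16085072) (l 16138736)) (l 16099992)) (b (l 16215040) (l 16216512))) (c (a (l 16226360) (l 16290008)) (l 16272280))) (a (b (l 16223008) (l 16222392)) (c (l 16439128) (l 16483624))))) (a (a (b (c (c (l 16063176) (l 16179792)) (l 16192520)) (c (l 15946576) (l 16230936))) (c (b (l 16124480) (l 16141504)) (b (l 16358640) (l 16263600)))) (a (c (l 16135640) (b (l 16365400) (l 16249520))) (b (c (l 16425680) (l 16355976)) (l 16138856))))) (a (b (b (b (l 3) (a (b (c (l 16496616) (l 16497168))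 (b (c (l 16495000) (l 16503584)) (l 16500440))) (b (l 1) (b (l 1) (l 383895651511))))) (a (c (l 16491120) (l 16484752)) (c (l 201359551943) (l 16492008)))) (c (a (l 16301016) (b (l 16399720) (l 16294272))) (b (a (l 16355160) (l 16317912)) (l 16069744)))) (b (b (l 1) (a (c (l 227666074023) (l 128345100231)) (l 1))) (c (a (b (l 16292856) (l 16293040)) (b (l 330208088999) (l 16275904))) (a (b (l 16308624) (l 16247472)) (b (l 308733259255) (l 16261560))))))) (b (l 1) (b (l 1) (a (a (a (c (l 329671032647) (l 309269930359)) (l 1)) (l 1)) (l 1)))))), by decide +kernel⟩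

def k1_pm_022 : ∃ t, chk3 f_pm_022 t 1 6 1 = true :=
  ⟨(b (a (a (a (c (a (b (l 15954504) (l 15977440)) (l 15945552)) (a (b (l 16167256) (l 16071504)) (b (l 16158040) (l 16062528)))) (a (c (l 16275888) (l 16074704)) (c (l 16251016) (l 15958760)))) (a (c (a (l 16225832) (l 16117352)) (b (l 16065800) (l 16030448))) (c (a (l 16117360) (l 16058328)) (a (l 15998216) (l 15965160))))) (a (a (b (a (l 322691453815) (l 319470220871)) (a (l 15975504) (l 323228113975))) (a (b (l 1) (l 318396290119)) (l 1))) (l 1))) (a (a (a (a (c (c (l 15967544) (l 16057192)) (l 15903728)) (c (l 16048888) (l 15937504))) (a (c (l 16129256) (l 15841192)) (c (l 16111744) (l 15913336)))) (a (c (l 16082112) (l 15734736)) (c (a (l 16052304) (l 16035504)) (a (l 15898064) (l 15900416))))) (a (c (a (a (l 16018280) (l 15999192)) (a (l 333428433079) (l 335575887431))) (a (a (l 15904464) (l 15908520)) (a (l 327522658311) (l 330743908903)))) (a (a (b (l 1) (c (l 368325475847) (l 333965418439))) (l 1)) (l 1))))),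 by decide +kernel⟩

def k2_pm_022 : ∃ t, chk3 f_pm_022 t 1 7 1 = true :=
  ⟨(a (a (a (b (c (a (l 15817264) (l 16006664)) (c (l 15858296) (l 15624944))) (c (a (l 15775288) (l 15886016)) (a (l 15697264) (l 15695288)))) (b (a (c (l 16004352) (l 15790992)) (c (l 15994936) (l 15779512))) (a (l 15586976) (l 15686336)))) (a (c (b (l 15973872) (l 15886392)) (b (l 15764992) (l 15662592))) (c (b (l 15877712) (l 15859440)) (b (l 15752008) (l 15641688))))) (a (a (b (a (l 15686120) (l 15570864)) (c (l 15827080) (l 15626576))) (b (a (b (l 15840336) (l 15781264)) (b (c (l 15873304) (l 15779584)) (l 15767376))) (c (l 15723488) (a (l 15615136) (l 15608184))))) (a (b (a (b (c (l 15826288) (l 15758768)) (a (l 15756824) (l 15749784))) (b (c (l 381747118039) (l 340408056551)) (c (l 391947494295) (l 353829576295)))) (a (b (l 15700632) (l 15655544)) (b (a (l 15689256) (l 15681592)) (l 15576952)))) (b (a (b (l 1) (a (l 360272193895) (l 1))) (l 1)) (c (a (b (l 385504902503) (l 15678928)) (b (l 367788193591)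 (l 375841111255))) (a (b (l 343628883943) (l 15566072)) (b (l 314101106407) (l 325912034551)))))))), by decide +kernel⟩

theorem s3_pm_022 : ∃ t, chk3 f_pm_022 t 1 3 1 = true := ex3_b k1_pm_022 k2_pm_022

theorem s4_pm_022 : ∃ t, chk3 f_pm_022 t 1 1 1 = true := ex3_b k0_pm_022 s3_pm_022

theorem c_pm_022 : CertB 0 536870912 1073741824 536870912 966367641 24778659 3 eng mog cd0q0 cd3q2 pd2 true true false .pp 0 2 2
    ndB0q0 ndB3q2 pcB2 Cut.none Ext.none :=
  certB1 (fam := true) (s1 := true) (s2 := false) (a := 0) (b := 2) (c := 2) (cn := .pp) (n1 := ndB0q0) (n2 := ndB3q2) (pc := pcB2) (cut := Cut.none) (xt := Ext.none) (P1 := 0) (W1 := 536870912) (P2 := 1073741824) (W2 := 536870912) (P3 := 966367641) (W3 := 24778659) (N0 := 3) (En := eng) (mo := mog) (C1 := cd0q0) (C2 := cd3q2) (C3 := pd2)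
    rfl (fun _ => rfl) s4_pm_022

noncomputable def f_pm_023 : ℕ → ℕ → ℕ → ℕ → Bool := onCell 0 536870912 1073741824 536870912 966367641 24778659
    (rowB 3 eng mog cd0q0 cd3q2 pd3 0 true true false .up 0 2 3 (qsf 0 536870912 1073741824 536870912 3) ndB0q0 ndB3q2 pcB3 Cut.none Ext.none)

def k0_pm_023 : ∃ t, chk3 f_pm_023 t 2 1 1 = true :=
  ⟨(b (a (l 1) (b (l 1) (a (l 1) (b (l 1) (c (l 15943312) (l 15723536)))))) (a (b (a (l 1) (b (l 1) (c (l 260950639511) (l 360271256727)))) (a (b (c (l 256118711111) (l 219074629751)) (c (a (l 15671888) (l 15633816)) (a (l 15520936) (l 15493624)))) (b (c (l 15736432) (l 219610810183)) (c (l 15386120) (l 15353944))))) (b (a (b (c (l 15920480) (l 15704072)) (c (l 15729800) (l 15580120))) (b (c (l 15831280) (l 15602424)) (c (l 15728672) (l 15501240)))) (b (a (c (l 15674880) (l 15474536)) (c (l 15639104) (l 15419568))) (a (b (l 15502472) (l 15270408)) (b (l 15478296) (l 15346696))))))), by decide +kernel⟩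

def k1_pm_023 : ∃ t, chk3 f_pm_023 t 3 1 1 = true :=
  ⟨(b (a (b (a (l 1) (b (l 1) (c (l 15970416) (l 15543704)))) (a (b (c (l 15961896) (l 15728296)) (c (l 15860576) (l 15627640))) (b (c (l 15879688) (l 15653040)) (c (l 15796816) (l 15553536))))) (b (a (a (b (l 1) (c (l 15864656) (l 15700168))) (b (c (l 375304643175) (l 317858626135)) (c (l 15806536) (l 15659328)))) (b (c (a (b (l 15815944) (l 15885688)) (b (c (l 15882776) (l 15832496)) (l 15841352))) (b (a (l 15717288) (a (l 15727048) (l 15706400))) (a (l 15701240) (l 15664168)))) (c (a (l 15751416) (l 15800544)) (a (l 15624872) (l 15428104))))) (a (b (c (l 15814464) (l 15580424)) (l 15609472)) (b (c (l 15762440) (b (l 15550320) (l 15517224))) (c (l 15720648) (l 15478496)))))) (a (b (a (b (l 15419104) (l 15422760)) (b (l 15602960) (l 15525416))) (b (a (l 15423912) (l 15510688)) (a (c (l 15585544) (l 15353248)) (l 15504712)))) (b (a (b (l 15578184) (l 15546184)) (b (l 15573016) (l 15565448))) (b (a (l 15537640) (l 15584288))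 (a (b (l 15550944) (a (l 15556944) (l 15593944))) (a (b (l 15601352) (b (l 15625448) (l 15643736))) (b (b (l 15632560) (l 15651656)) (a (b (l 15661928) (l 15689760)) (b (l 15692376) (b (l 15712600) (a (l 15719096) (b (l 15730168) (a (l 15733848) (b (l 15739608) (a (l 15741592) (l 15744880)))))))))))))))), by decide +kernel⟩

theorem s2_pm_023 : ∃ t, chk3 f_pm_023 t 1 1 1 = true := ex3_a k0_pm_023 k1_pm_023

theorem c_pm_023 : CertB 0 536870912 1073741824 536870912 966367641 24778659 3 eng mog cd0q0 cd3q2 pd3 true true false .up 0 2 3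
    ndB0q0 ndB3q2 pcB3 Cut.none Ext.none :=
  certB0 (fam := true) (s1 := true) (s2 := false) (a := 0) (b := 2) (c := 3) (cn := .up) (n1 := ndB0q0) (n2 := ndB3q2) (pc := pcB3) (cut := Cut.none) (xt := Ext.none) (P1 := 0) (W1 := 536870912) (P2 := 1073741824) (W2 := 536870912) (P3 := 966367641) (W3 := 24778659) (N0 := 3) (En := eng) (mo := mog) (C1 := cd0q0) (C2 := cd3q2) (C3 := pd3)
    rfl s2_pm_023

noncomputable def f_pm_033 : ℕ → ℕ → ℕ → ℕ → Bool := onCell 1610612736 536870912 0 1230186008 966367641 24778659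
    (rowB 3 eng mog cd0q0 cd3q3 pd3 2 true true false .pnn 0 3 3 (qsf 0 536870912 0 1230186008 3) ndB0q0 ndB3q3 pcB3 Cut.none Ext.none)

def k0_pm_033 : ∃ t, chk3 f_pm_033 t 1 2 1 = true :=
  ⟨(a (l 1) (a (l 1) (a (b (l 1) (b (l 4) (a (a (l 15082536) (l 4)) (l 4)))) (l 4)))), by decide +kernel⟩

def k1_pm_033 : ∃ t, chk3 f_pm_033 t 1 6 1 = true :=
  ⟨(a (a (l 1) (b (l 1) (a (l 1) (a (l 1) (a (l 1) (b (l 1) (b (l 1) (l 15128832)))))))) (b (a (a (l 1) (a (b (l 1) (a (l 14963784) (l 15028680))) (b (l 15023704) (l 15147192)))) (a (a (b (a (l 15184288) (l 15304816)) (a (l 15292488) (l 15404288))) (b (l 4) (a (l 15522456) (l 4)))) (l 4))) (a (a (b (a (b (l 1) (l 212630903447)) (b (l 15004584) (l 15100728))) (a (b (c (l 15087080) (l 15112272)) (c (l 15195984) (l 15222408))) (b (l 15202344) (l 15305952)))) (b (a (b (l 15124064) (l 15217336)) (b (l 15261392) (l 15344160))) (a (b (l 15313248) (l 15406104)) (b (l 15424376) (l 15501384))))) (a (a (b (a (l 15418448) (l 15506640)) (b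 (l 15543848) (l 15595792))) (b (a (l 15603688) (l 15708232)) (a (l 15671768) (l 15754608)))) (a (a (b (l 15651896) (a (l 15822592) (l 15856520))) (b (l 4) (l 15811856))) (l 4)))))), by decide +kernel⟩

def k2_pm_033 : ∃ t, chk3 f_pm_033 t 2 7 1 = true :=
  ⟨(b (a (l 1) (a (b (a (l 1) (b (l 1) (c (l 118678179015) (l 15202864)))) (b (a (l 1) (c (l 228737280679) (l 15343480))) (a (c (l 260949587303) (l 15398912)) (c (l 15378752) (l 15429336))))) (b (a (b (c (a (l 1) (l 15111744)) (l 113309580695)) (c (l 229274089223) (l 15291248))) (b (c (l 15194528) (l 15251168)) (c (l 15317368) (l 15363200)))) (b (a (c (l 15341720) (l 15393568)) (c (l 15446280) (l 15437928))) (a (c (l 15479864) (l 15460304)) (l 15529560)))))) (a (b (a (l 1) (b (a (l 1) (c (b (l 15158728) (l 15361576)) (l 15330192))) (a (c (b (l 15209512) (l 15416000)) (l 15283024)) (c (b (l 15439760) (l 15517544)) (l 15536296))))) (a (b (a (l 1) (c (b (l 15244520) (l 15475528)) (l 176124297943))) (a (c (b (l 15275952) (l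 15430072)) (l 194914887639)) (c (b (l 15557744) (l 15627784)) (l 15695744)))) (b (a (c (b (l 15497632) (l 15578704)) (l 15608728)) (c (l 15637776) (l 15600392))) (a (c (l 15698304) (l 15674904)) (b (l 15753632) (l 15791368)))))) (b (a (b (a (c (l 263634089943) (l 15476608)) (c (l 15524224) (l 15494032))) (a (c (l 15577408) (l 15540568)) (c (l 15667944) (l 15552544)))) (b (a (c (l 15616072) (l 15519112)) (l 15658512)) (a (l 15626896) (l 15717408)))) (a (b (a (c (l 15727824) (l 15599440)) (l 15603136)) (a (b (l 15761544) (l 15792552)) (l 15785616))) (b (c (l 15878136) (l 15616552)) (c (l 15944416) (l 15652416))))))), by decide +kernel⟩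

def k3_pm_033 : ∃ t, chk3 f_pm_033 t 3 7 1 = true :=
  ⟨(b (a (a (b (a (b (c (l 15310736) (l 15327056)) (c (l 15429336) (l 15417824))) (b (l 15409232) (l 15505336))) (a (b (c (l 15545064) (l 15485088)) (l 15628248)) (b (l 15593440) (l 15668768)))) (b (a (b (l 15494232) (l 15574960)) (l 15601792)) (a (b (l 15642016) (l 15703136)) (l 15501280)))) (b (a (a (a (l 15652232) (l 15686680)) (a (l 15731192) (l 15787752))) (a (a (l 15858584) (l 15777224)) (a (l 15706032) (l 4)))) (a (a (b (l 15729544) (l 15763728)) (a (l 15780760) (l 15826504))) (a (a (l 15882808) (b (l 15933808) (l 15944872))) (a (a (l 15976840) (l 15992296)) (a (l 16004528) (l 4))))))) (a (b (a (b (a (l 15693928) (l 15727792)) (a (l 15746048) (l 15774984))) (b (a (l 15757440) (l 15776992)) (l 15708512))) (a (b (a (l 15790616) (l 15813984)) (l 15839824)) (b (l 15856544) (l 15896832)))) (b (a (a (b (l 15796768) (l 15848456)) (a (l 15841296) (l 15884928))) (a (a (l 15930744) (b (l 15967168) (l 15990328))) (a (a (l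 15933568) (l 16013712)) (a (l 16050536) (a (l 16062720) (l 4)))))) (a (a (b (l 15900824) (l 15949960)) (b (l 15935032) (l 15986360))) (a (a (l 15876584) (l 16038224)) (a (b (l 16020032) (l 16090960)) (a (l 15998776) (a (l 16114496) (a (l 16118744) (l 677764153703)))))))))), by decide +kernel⟩

theorem s4_pm_033 : ∃ t, chk3 f_pm_033 t 1 7 1 = true := ex3_a k2_pm_033 k3_pm_033

theorem s5_pm_033 : ∃ t, chk3 f_pm_033 t 1 3 1 = true := ex3_b k1_pm_033 s4_pm_033

theorem s6_pm_033 : ∃ t, chk3 f_pm_033 t 1 1 1 = true := ex3_b k0_pm_033 s5_pm_033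

theorem c_pm_033 : CertB 0 536870912 0 1230186008 966367641 24778659 3 eng mog cd0q0 cd3q3 pd3 true true false .pnn 0 3 3
    ndB0q0 ndB3q3 pcB3 Cut.none Ext.none :=
  certB2 (fam := true) (s1 := true) (s2 := false) (a := 0) (b := 3) (c := 3) (cn := .pnn) (n1 := ndB0q0) (n2 := ndB3q3) (pc := pcB3) (cut := Cut.none) (xt := Ext.none) (P1 := 0) (W1 := 536870912) (P2 := 0) (W2 := 1230186008) (P3 := 966367641) (W3 := 24778659) (N0 := 3) (En := eng) (mo := mog) (C1 := cd0q0) (C2 := cd3q3) (C3 := pd3)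
    rfl (fun _ => rfl) s6_pm_033

noncomputable def f_pm_101 : ℕ → ℕ → ℕ → ℕ → Bool := onCell 536870912 536870912 536870912 536870912 966367641 24778659
    (rowB 3 eng mog cd0q1 cd3q0 pd1 1 true true false .npn 1 0 1 (qsf 536870912 536870912 0 536870912 1) ndB0q1 ndB3q0 pcB1 Cut.none Ext.none)

def k0_pm_101 : ∃ t, chk3 f_pm_101 t 2 2 1 = true :=
  ⟨(a (l 3) (b (a (b (l 1) (l 3)) (l 1)) (l 3))), by decide +kernel⟩

def k1_pm_101 : ∃ t, chk3 f_pm_101 t 2 6 1 = true :=
  ⟨(a (b (l 3) (a (b (l 3) (a (b (l 3) (a (b (l 3) (a (c (l 173576404743) (a (l 195588056615) (l 196124913559))) (c (l 184850660663) (a (l 196661770215) (l 197198626887))))) (a (b (c (l 314773408263) (l 260012549287)) (c (l 16436136) (l 197198595447))) (b (c (l 189145590391) (l 196124851703)) (c (l 16422240) (l 16377496)))))) (b (a (l 3) (b (l 3) (c (l 177871318359) (l 197198666423)))) (b (a (c (c (l 16444936) (l 160691477975)) (a (l 196124824343) (l 16402048))) (c (l 16382672) (l 16398800))) (a (c (l 16400576)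 (l 16334056)) (l 16358184)))))) (b (a (l 3) (b (l 3) (a (l 3) (l 306183260375)))) (a (b (b (a (l 3) (l 308867640727)) (a (a (l 162838899399) (l 16361408)) (l 16361456))) (c (a (l 16344376) (l 16311120)) (a (l 16338376) (l 16282800)))) (b (a (b (l 190219062695) (l 16278344)) (l 16288056)) (a (l 16263064) (l 16227352))))))) (b (a (l 3) (b (l 3) (a (l 3) (b (l 3) (l 334100154103))))) (a (b (a (b (l 3) (a (l 191829663287) (l 193977140023))) (b (l 363628365111) (a (l 16141024) (l 16100056)))) (a (b (a (l 16208280) (l 16170040)) (l 16214720)) (b (l 16112576) (l 16099664)))) (b (a (b (l 215451857943) (l 16038920)) (b (l 228336656903) (l 15961464))) (a (l 16076136) (l 15968968)))))), by decide +kernel⟩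

def k2_pm_101 : ∃ t, chk3 f_pm_101 t 2 7 1 = true :=
  ⟨(a (b (a (b (b (a (a (b (a (b (l 16398432) (l 16432600)) (l 16380592)) (l 16367392)) (b (c (l 16413120) (l 16391600)) (l 16389296))) (a (a (l 16355000) (l 16361648)) (l 16339376))) (a (c (l 16421496) (l 16434600)) (a (l 16340224) (l 16312616)))) (a (c (l 16393240) (l 16398392)) (b (l 16296584) (l 16264552)))) (a (b (b (a (l 16308312) (l 16275872)) (l 16268008)) (l 16228376)) (b (b (l 16225128) (l 16203624)) (l 16169208)))) (a (a (b (l 16286216) (l 16157392)) (b (l 16212408) (l 16139560))) (b (a (l 16170600) (l 16121672)) (l 16207864)))) (b (a (b (a (b (l 16154848) (l 16135400)) (l 16074680)) (a (l 16104872) (l 16037584))) (b (a (l 16006792) (l 15946512)) (l 16000912))) (a (b (a (l 16065440) (l 16004168)) (l 15984264)) (b (l 15907856) (l 15895864))))), by decide +kernel⟩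

def k3_pm_101 : ∃ t, chk3 f_pm_101 t 3 2 1 = true :=
  ⟨(a (b (l 1) (a (b (l 1) (l 3)) (l 1))) (l 1)), by decide +kernel⟩

def k4_pm_101 : ∃ t, chk3 f_pm_101 t 3 3 1 = true :=
  ⟨(a (b (b (b (l 3) (a (b (l 3) (c (a (l 192902816071) (a (b (l 203640027687) (l 15833048)) (b (a (b (l 3) (l 275983396119)) (l 588442083239)) (a (l 15816120) (l 391410522535))))) (a (l 179480775447) (a (b (l 189681066999) (l 15688072)) (b (a (b (l 3) (l 300142247031)) (l 585757380343)) (a (l 15653744) (l 368861773943))))))) (a (a (b (l 1) (b (l 1) (c (l 608843288167) (l 609379771783)))) (l 1)) (l 1)))) (a (b (a (b (l 15922616) (l 15895472)) (b (a (l 15810240) (a (l 15876200) (c (l 15870640) (l 15697768)))) (a (l 15861344) (l 15851512)))) (a (l 15919376) (b (l 15891328) (l 15906480)))) (b (a (c (b (a (b (l 415032952599) (l 258266590119)) (l 610990999767)) (a (l 15952024) (l 431139299703))) (b (a (b (l 387652147223) (l 287794217799)) (l 612601164935)) (a (l 15763608) (b (l 414495885783) (l 15801840)))))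 (b (l 1) (a (b (l 1) (l 587905683335)) (l 1)))) (a (b (a (l 15911840) (b (l 15943008) (l 15969768))) (l 15962104)) (b (a (b (l 444024060087) (l 16064096)) (l 584148034135)) (a (l 16093808) (l 453151441751))))))) (b (a (b (a (l 15902880) (l 15892944)) (a (l 15856688) (l 15831880))) (b (a (l 15953560) (b (l 16179432) (l 16146008))) (a (l 15864232) (l 16026472)))) (a (b (l 15791328) (l 15778680)) (b (a (l 15757808) (l 15822232)) (l 15691648))))) (b (a (b (l 1) (b (l 1) (a (b (l 1) (l 572874172983)) (l 1)))) (l 1)) (b (a (b (a (b (a (l 16464416) (l 16440568)) (l 16360624)) (b (l 1) (l 499859385927))) (a (l 16197176) (b (l 16278520) (l 16172696)))) (a (b (l 1) (a (l 321618346823) (l 1))) (l 1))) (a (b (a (l 15983936) (l 16019112)) (a (l 15742552) (l 15813432))) (a (b (a (l 16032072) (l 16041336)) (l 15838496)) (b (l 405369712647) (l 15848544))))))), by decide +kernel⟩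

theorem s5_pm_101 : ∃ t, chk3 f_pm_101 t 3 1 1 = true := ex3_b k3_pm_101 k4_pm_101

theorem s6_pm_101 : ∃ t, chk3 f_pm_101 t 2 3 1 = true := ex3_b k1_pm_101 k2_pm_101

theorem s7_pm_101 : ∃ t, chk3 f_pm_101 t 2 1 1 = true := ex3_b k0_pm_101 s6_pm_101

theorem s8_pm_101 : ∃ t, chk3 f_pm_101 t 1 1 1 = true := ex3_a s7_pm_101 s5_pm_101

theorem c_pm_101 : CertB 536870912 536870912 0 536870912 966367641 24778659 3 eng mog cd0q1 cd3q0 pd1 true true false .npn 1 0 1
    ndB0q1 ndB3q0 pcB1 Cut.none Ext.none :=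
  certB1 (fam := true) (s1 := true) (s2 := false) (a := 1) (b := 0) (c := 1) (cn := .npn) (n1 := ndB0q1) (n2 := ndB3q0) (pc := pcB1) (cut := Cut.none) (xt := Ext.none) (P1 := 536870912) (W1 := 536870912) (P2 := 0) (W2 := 536870912) (P3 := 966367641) (W3 := 24778659) (N0 := 3) (En := eng) (mo := mog) (C1 := cd0q1) (C2 := cd3q0) (C3 := pd1)
    rfl (fun _ => rfl) s8_pm_101

noncomputable def f_pm_102 : ℕ → ℕ → ℕ → ℕ → Bool := onCell 536870912 536870912 1073741824 536870912 966367641 24778659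
    (rowB 3 eng mog cd0q1 cd3q0 pd2 1 true true false .npp 1 0 2 (qsf 536870912 536870912 0 536870912 2) ndB0q1 ndB3q0 pcB2 Cut.none Ext.none)

def k0_pm_102 : ∃ t, chk3 f_pm_102 t 2 1 1 = true :=
  ⟨(b (a (b (a (b (b (l 16129896) (l 16149096)) (l 165455303527)) (b (b (l 16051056) (l 16041312)) (l 16034256))) (a (l 2) (b (l 16044336) (l 2)))) (b (a (b (a (l 15958592) (l 15907320)) (c (l 15878488) (l 15911256))) (b (b (l 15852624) (l 15823016)) (l 15691144))) (a (b (l 15875400) (l 15883136)) (b (l 15723488) (l 15697416))))) (a (l 2) (b (a (l 2) (b (l 15702608) (l 2))) (l 2)))), by decide +kernel⟩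

def k1_pm_102 : ∃ t, chk3 f_pm_102 t 3 2 1 = true :=
  ⟨(a (b (a (b (b (a (l 15794744) (l 15759120)) (l 15741816)) (c (l 15668264) (l 15675968))) (b (b (a (l 15727328) (l 15700440)) (l 15684664)) (b (l 15622416) (l 15555136)))) (a (b (l 15583840) (l 15393872)) (b (b (l 15489976) (l 15429816)) (l 15268864)))) (b (a (b (b (a (b (l 15646816) (l 15693384)) (c (l 15708496) (l 15747056))) (a (l 15662232) (b (l 15666888) (l 15622824)))) (a (l 15309680) (b (l 15549120) (l 15449008)))) (b (b (b (a (a (l 15675392) (b (l 15702368) (l 15705712))) (b (b (a (l 15716576) (a (l 15721536) (c (b (l 15734608) (l 15726456)) (b (l 15742952) (l 15733240))))) (a (l 15706168) (a (l 15721520) (c (l 15714248) (l 15718656))))) (a (l 15709728) (a (b (l 15708296) (l 15692352)) (b (l 15699184) (l 15681496)))))) (a (a (l 15695080) (l 15687168)) (a (a (l 15674088) (l 15662808)) (a (a (l 15653416) (l 15646896)) (b (l 15654824) (l 15619248)))))) (a (a (l 15730280) (b (l 15632184) (l 15572128))) (b (a (l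 15604480) (b (l 15590960) (l 15556000))) (a (l 15539056) (l 15503824))))) (a (b (b (l 15526640) (l 15468160)) (a (l 15402096) (l 15361936))) (b (a (l 15462672) (b (l 15434904) (l 15366976))) (a (l 15315344) (l 15267528)))))) (a (b (a (l 15374488) (l 15306568)) (a (l 15232592) (l 15140312))) (b (a (a (l 15223440) (l 15173160)) (b (a (l 15194784) (l 15140176)) (l 15050256))) (a (l 15028464) (b (l 15172720) (l 14858120))))))), by decide +kernel⟩

def k2_pm_102 : ∃ t, chk3 f_pm_102 t 3 3 1 = true :=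
  ⟨(a (b (a (b (l 15487048) (l 15490624)) (b (l 15131376) (l 14989896))) (a (l 2) (b (a (l 2) (l 15184512)) (l 2)))) (b (a (b (a (l 15124480) (l 15006120)) (a (l 15057248) (l 14954488))) (b (a (b (l 14913864) (l 14871680)) (b (l 14803984) (l 14780856))) (a (l 14909624) (b (l 14779824) (l 14798528))))) (a (b (a (l 15083296) (l 15006976)) (b (l 15133928) (l 2))) (b (a (l 14936256) (l 14986360)) (a (l 15070192) (l 14999288)))))), by decide +kernel⟩

theorem s3_pm_102 : ∃ t, chk3 f_pm_102 t 3 1 1 = true := ex3_b k1_pm_102 k2_pm_102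

theorem s4_pm_102 : ∃ t, chk3 f_pm_102 t 1 1 1 = true := ex3_a k0_pm_102 s3_pm_102

theorem c_pm_102 : CertB 536870912 536870912 0 536870912 966367641 24778659 3 eng mog cd0q1 cd3q0 pd2 true true false .npp 1 0 2
    ndB0q1 ndB3q0 pcB2 Cut.none Ext.none :=
  certB1 (fam := true) (s1 := true) (s2 := false) (a := 1) (b := 0) (c := 2) (cn := .npp) (n1 := ndB0q1) (n2 := ndB3q0) (pc := pcB2) (cut := Cut.none) (xt := Ext.none) (P1 := 536870912) (W1 := 536870912) (P2 := 0) (W2 := 536870912) (P3 := 966367641) (W3 := 24778659) (N0 := 3) (En := eng) (mo := mog) (C1 := cd0q1) (C2 := cd3q0) (C3 := pd2)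
    rfl (fun _ => rfl) s4_pm_102

noncomputable def f_pm_112 : ℕ → ℕ → ℕ → ℕ → Bool := onCell 536870912 536870912 1073741824 536870912 966367641 24778659
    (rowB 3 eng mog cd0q1 cd3q1 pd2 1 true true false .dn 1 1 2 (qsf 536870912 536870912 536870912 536870912 2) ndB0q1 ndB3q1 pcB2 Cut.none Ext.none)

def k0_pm_112 : ∃ t, chk3 f_pm_112 t 1 1 1 = true :=
  ⟨(a (b (a (b (a (b (b (l 16093248) (l 16148008)) (a (l 16119944) (l 16100560))) (b (l 194916038439) (l 16058856))) (a (b (b (l 16007864) (l 15926832)) (a (l 15779168) (l 15797208))) (b (l 15951880) (l 15744600)))) (b (a (b (l 1) (l 15979256)) (l 1)) (a (b (l 15901784) (l 15787200)) (b (l 15816024) (l 15725056))))) (a (b (a (b (a (l 15560520) (l 15596760)) (a (c (l 15336016) (l 15297952)) (l 15371448))) (b (l 15401776) (a (l 15414824) (l 15446576)))) (a (b (a (c (l 15053808) (l 15034008)) (c (l 15139552) (l 15113952))) (a (c (b (l 14867840) (l 14726112)) (l 14696048)) (b (l 14933264) (l 14822384)))) (b (a (l 15186696)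 (l 15234080)) (a (c (l 14949792) (l 14940216)) (l 14755328))))) (b (a (b (l 15557920) (l 15240288)) (b (l 15541032) (l 15373720))) (a (b (a (l 15268072) (l 15288088)) (a (l 15055144) (l 15088216))) (b (l 15123080) (a (l 15105808) (l 15107968))))))) (b (a (b (l 1) (a (b (l 1) (l 15617456)) (l 1))) (l 1)) (a (b (a (b (l 15515664) (l 15263720)) (b (l 15358016) (l 15103008))) (a (b (l 15075856) (a (l 15095216) (l 15046128))) (b (a (l 15174160) (l 15120304)) (a (l 15044984) (l 15026256))))) (b (a (b (l 1) (a (l 15146112) (l 1))) (l 1)) (a (b (a (l 15085176) (l 15058544)) (b (l 15071200) (l 15073904))) (b (a (l 15019336) (l 1)) (a (l 15071896) (l 15043896)))))))), by decide +kernel⟩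

theorem c_pm_112 : CertB 536870912 536870912 536870912 536870912 966367641 24778659 3 eng mog cd0q1 cd3q1 pd2 true true false .dn 1 1 2
    ndB0q1 ndB3q1 pcB2 Cut.none Ext.none :=
  certB1 (fam := true) (s1 := true) (s2 := false) (a := 1) (b := 1) (c := 2) (cn := .dn) (n1 := ndB0q1) (n2 := ndB3q1) (pc := pcB2) (cut := Cut.none) (xt := Ext.none) (P1 := 536870912) (W1 := 536870912) (P2 := 536870912) (W2 := 536870912) (P3 := 966367641) (W3 := 24778659) (N0 := 3) (En := eng) (mo := mog) (C1 := cd0q1) (C2 := cd3q1) (C3 := pd2)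
    rfl (fun _ => rfl) k0_pm_112

end Pool.Agent.Strip051.G.I9000_9231.Tab.C.BA03

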