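import Pool.Agent.Strip051.G.I9000_9231.Tab

/-! # Certificates B5 (generated) -/

set_option linter.all false
set_option maxRecDepth 100000

namespace Pool.Agent.Strip051.G.I9000_9231.Tab.C.BA03

open Pool.Agent.Strip051.PB Pool.Agent.Strip051.PB.T
open Pool.Agent.Strip051.G.I9000_9231.Tab

noncomputable def f_pm_113 : ℕ → ℕ → ℕ → ℕ → Bool := onCell 536870912 536870912 1610612736 536870912 966367641 24778659
    (rowB 3 eng mog cd0q1 cd3q1 pd3 1 true true false .nn 1 1 3 (qsf 536870912 536870912 536870912 536870912 3) ndB0q1 ndB3q1 pcB3 Cut.none Ext.none)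

def k0_pm_113 : ∃ t, chk3 f_pm_113 t 2 1 1 = true :=
  ⟨(b (b (a (b (a (c (b (a (c (l 14479648) (l 14514112)) (l 14591432)) (a (l 141292854039) (l 156325578647))) (b (a (l 14574864) (l 14669968)) (a (l 14390464) (l 14518816)))) (c (b (a (l 14676088) (l 14758312)) (a (l 14531680) (l 14619032))) (b (a (l 14743472) (l 14809736)) (a (l 14613312) (l 14684704))))) (b (a (a (l 2) (c (l 153640774823) (l 14332456))) (c (a (l 14373936) (l 14475144)) (a (l 14461656) (l 14555208)))) (a (l 2) (c (a (l 167599306231) (l 14317936)) (a (l 14273584) (l 14403160)))))) (b (a (c (a (l 14750496) (l 14850632)) (a (l 14809008) (l 14861272))) (c (l 14859648) (l 14795080))) (a (a (c (b (l 14565640) (l 14422760)) (b (l 14624528) (l 14495840))) (c (l 14649552) (l 14583024))) (a (b (l 14735928) (l 14612616)) (c (l 14765024) (l 14515048)))))) (a (b (b (a (l 2) (a (l 2) (a (l 2) (l 179410476055)))) (l 2)) (l 2)) (b (a (b (c (a (l 14266712) (l 14376376)) (a (l 14343600) (l 14435320)))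 (a (c (l 14092120) (l 14153472)) (c (l 14221488) (l 14153688)))) (b (a (c (l 14476848) (l 14497488)) (c (l 14576896) (l 14551688))) (a (c (l 14335824) (l 14359272)) (l 14428960)))) (a (b (a (l 2) (c (l 14047248) (l 229875801527))) (l 2)) (b (a (c (l 14178288) (l 14183904)) (l 14284760)) (a (l 385032030343) (l 14120440))))))) (a (l 2) (b (b (a (l 2) (b (a (l 2) (l 13941600)) (l 2))) (l 2)) (l 2)))), by decide +kernel⟩

def k1_pm_113 : ∃ t, chk3 f_pm_113 t 3 1 1 = true :=
  ⟨(b (a (b (b (a (c (b (l 15153240) (l 15051064)) (a (l 14960936) (l 14984080))) (b (l 15249176) (l 15096224))) (b (a (a (l 14860816) (l 14924560)) (l 15026848)) (a (a (l 14755296) (l 14831368)) (l 14955832)))) (b (a (b (a (l 14643776) (l 14733224)) (a (l 14524144) (l 14628576))) (b (l 14882000) (l 14804376))) (a (b (a (l 14394448) (l 14515952)) (a (l 14252592) (l 14393840))) (b (l 14722248) (a (l 14550664) (l 14720088)))))) (b (a (b (b (l 15230944) (l 15193920)) (b (l 15158808) (l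 15124800))) (b (b (l 15005608) (l 15466888)) (b (a (l 15216376) (l 15218136)) (a (l 15213728) (l 15229056))))) (a (b (b (l 15091408) (c (l 15108896) (l 15003024))) (b (c (l 15074032) (l 14960456)) (a (l 14892952) (l 4)))) (b (a (b (l 15209776) (l 4)) (l 4)) (l 4))))) (b (a (b (a (b (a (l 14095576) (l 14260736)) (a (l 13936200) (l 14121672))) (b (a (l 14442704) (l 4)) (l 4))) (a (a (l 2) (l 4)) (l 4))) (l 4)) (l 4))), by decide +kernel⟩

theorem s2_pm_113 : ∃ t, chk3 f_pm_113 t 1 1 1 = true := ex3_a k0_pm_113 k1_pm_113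

theorem c_pm_113 : CertB 536870912 536870912 536870912 536870912 966367641 24778659 3 eng mog cd0q1 cd3q1 pd3 true true false .nn 1 1 3
    ndB0q1 ndB3q1 pcB3 Cut.none Ext.none :=
  certB1 (fam := true) (s1 := true) (s2 := false) (a := 1) (b := 1) (c := 3) (cn := .nn) (n1 := ndB0q1) (n2 := ndB3q1) (pc := pcB3) (cut := Cut.none) (xt := Ext.none) (P1 := 536870912) (W1 := 536870912) (P2 := 536870912) (W2 := 536870912) (P3 := 966367641) (W3 := 24778659) (N0 := 3) (En := eng) (mo := mog) (C1 := cd0q1) (C2 := cd3q1) (C3 := pd3)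
    rfl (fun _ => rfl) s2_pm_113

noncomputable def f_pm_123 : ℕ → ℕ → ℕ → ℕ → Bool := onCell 1610612736 536870912 1073741824 536870912 966367641 24778659
    (rowB 3 eng mog cd0q1 cd3q2 pd3 2 true true false .npn 1 2 3 (qsf 536870912 536870912 1073741824 536870912 3) ndB0q1 ndB3q2 pcB3 Cut.none Ext.none)

def k0_pm_123 : ∃ t, chk3 f_pm_123 t 2 1 1 = true :=
  ⟨(b (a (b (b (a (b (a (c (b (l 15762192) (l 15741432)) (b (l 15699632) (l 15693104))) (c (b (l 15759016) (l 15781568)) (b (l 15659760) (l 15654704)))) (a (c (b (l 15818176) (l 1)) (l 15598736)) (c (b (l 15802560) (l 15799856)) (b (l 15649144) (l 15643248))))) (b (a (c (b (l 15695472) (l 15719600)) (b (l 15620656) (l 15617512))) (c (b (l 15635288) (l 15661112)) (b (l 15581920) (l 15581128)))) (a (b (l 15449040) (l 15520456)) (c (l 15695904) (l 15557064))))) (a (b (a (l 1) (c (l 15832448) (l 15632872))) (l 1)) (b (a (c (l 15788672) (l 15601848)) (c (l 15736296) (l 15571680))) (a (c (l 15803544)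 (l 15588736)) (c (l 15766928) (l 15563056)))))) (b (a (l 1) (b (a (l 1) (l 15666720)) (l 1))) (l 1))) (b (a (b (c (b (a (b (l 15579712) (l 15607368)) (b (l 15531248) (l 15560184))) (a (l 15644136) (l 15682456))) (b (a (b (l 15543664) (l 15545408)) (b (l 15505656) (l 15510800))) (a (l 15545632) (l 15577808)))) (b (a (c (l 15686392) (l 15542664)) (c (l 15642544) (l 15515376))) (a (l 15422984) (l 15472520)))) (b (a (b (b (c (l 15492912) (l 15469376)) (a (l 15508200) (l 15492320))) (c (l 15562000) (l 15486072))) (b (a (b (l 15458232) (l 15478976)) (b (c (l 15467224) (l 15432768)) (l 15468792))) (b (l 15491328) (l 15506704)))) (b (a (b (l 15543672) (l 15554672)) (c (l 15581568) (l 15469680))) (a (l 15526976) (l 15441320))))) (a (b (b (a (l 15536896) (l 15613448)) (a (l 15637968) (l 15619360))) (b (l 15599176) (l 1))) (b (b (a (l 15584808) (l 15562368)) (a (l 15598240) (l 15575984))) (b (a (l 15601200) (l 15587320)) (l 15589120)))))) (a (l 1) (b (b (a (l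 1) (b (l 15579264) (l 1))) (l 1)) (l 1)))), by decide +kernel⟩

def k1_pm_123 : ∃ t, chk3 f_pm_123 t 3 2 1 = true :=
  ⟨(a (b (a (b (a (b (a (b (l 15445776) (l 15464904)) (c (l 15487928) (l 15431360))) (c (l 15657088) (l 15573680))) (b (a (c (l 15501392) (l 15435640)) (l 15630520)) (a (l 15496304) (l 15509752)))) (a (b (c (l 15570944) (l 15455648)) (l 15532896)) (b (c (l 15583144) (l 15458960)) (c (l 15609416) (l 15457496))))) (b (a (b (a (l 15510224) (l 15549448)) (a (l 15530624) (l 15560856))) (b (a (l 15605328) (l 15684104)) (l 15628888))) (a (b (c (l 15622456) (l 15487048)) (c (l 15640248) (l 15478728))) (b (l 15622456) (l 15614792))))) (a (b (b (a (l 15548176) (l 15545696)) (a (l 15560904) (l 15555840))) (b (l 15336552) (l 15576448))) (b (a (b (l 15562112) (l 15565024)) (b (l 15606504) (l 15598928))) (b (a (l 15569848) (l 15593048)) (l 15580960))))) (b (a (a (b (b (a (l 15798344) (l 15973136)) (a (l 15734992) (l 15839136))) (a (b (l 15704288) (l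 15681288)) (b (l 15779784) (l 15741928)))) (b (a (b (l 16227608) (l 15986992)) (b (l 16211120) (l 16187232))) (a (b (l 15881296) (l 15819440)) (b (l 16018680) (l 15922104))))) (a (b (b (l 4) (a (a (l 16305032) (l 4)) (l 4))) (a (b (a (l 16148432) (l 16217024)) (a (l 16020944) (l 16098096))) (b (l 4) (l 15906304)))) (l 4))) (a (a (b (a (l 15632248) (l 15677808)) (a (l 15624592) (l 15657136))) (b (a (l 15671400) (b (l 15855400) (l 15803600))) (a (l 15696120) (l 15745344)))) (b (a (a (b (l 15964216) (l 15891680)) (c (l 16088624) (l 15891400))) (a (a (l 15883488) (l 4)) (l 4))) (a (a (b (l 15835040) (l 15788592)) (b (a (l 15891936) (l 15924800)) (l 15843376))) (a (a (l 15843296) (l 15911376)) (l 4))))))), by decide +kernel⟩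

def k2_pm_123 : ∃ t, chk3 f_pm_123 t 3 3 1 = true :=
  ⟨(a (b (a (b (b (l 15577304) (l 15570680)) (l 15551880)) (b (b (l 15584288) (l 15587064)) (b (l 15583936) (l 15576240)))) (b (a (l 1) (l 15555928)) (l 1))) (b (a (a (b (b (l 15624104) (l 15617944)) (l 15611704)) (b (a (l 15658312) (l 15691448)) (l 15478680))) (b (a (a (l 15735840) (b (l 15796072) (l 15753360))) (a (a (l 15644888) (l 15822776)) (a (l 15840144) (l 4)))) (a (a (l 15685136) (l 15711984)) (a (b (l 15644064) (l 15737424)) (a (l 15781680) (a (l 15787864) (a (l 15790176) (l 4)))))))) (a (b (a (l 15598288) (l 15630968)) (a (l 1) (l 15615680))) (b (a (a (l 15661136) (l 15688592)) (a (l 15717664) (a (l 15741320) (a (l 15754016) (a (l 15760360) (l 15591664)))))) (a (l 179345706215) (a (l 15707920) (a (l 15728920) (a (l 15739264) (a (l 15744248) (l 15580112)))))))))), by decide +kernel⟩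

theorem s3_pm_123 : ∃ t, chk3 f_pm_123 t 3 1 1 = true := ex3_b k1_pm_123 k2_pm_123

theorem s4_pm_123 : ∃ t, chk3 f_pm_123 t 1 1 1 = true := ex3_a k0_pm_123 s3_pm_123

theorem c_pm_123 : CertB 536870912 536870912 1073741824 536870912 966367641 24778659 3 eng mog cd0q1 cd3q2 pd3 true true false .npn 1 2 3
    ndB0q1 ndB3q2 pcB3 Cut.none Ext.none :=
  certB2 (fam := true) (s1 := true) (s2 := false) (a := 1) (b := 2) (c := 3) (cn := .npn) (n1 := ndB0q1) (n2 := ndB3q2) (pc := pcB3) (cut := Cut.none) (xt := Ext.none) (P1 := 536870912) (W1 := 536870912) (P2 := 1073741824) (W2 := 536870912) (P3 := 966367641) (W3 := 24778659) (N0 := 3) (En := eng) (mo := mog) (C1 := cd0q1) (C2 := cd3q2) (C3 := pd3)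
    rfl (fun _ => rfl) s4_pm_123

noncomputable def f_pm_133 : ℕ → ℕ → ℕ → ℕ → Bool := onCell 536870912 536870912 0 1230186008 966367641 24778659
    (rowB 3 eng mog cd0q1 cd3q3 pd3 0 true true false .dn 1 3 3 (qsf 536870912 536870912 0 1230186008 3) ndB0q1 ndB3q3 pcB3 Cut.none Ext.none)

def k0_pm_133 : ∃ t, chk3 f_pm_133 t 1 1 1 = true :=
  ⟨(b (l 2) (b (l 2) (a (b (l 2) (a (b (l 2) (a (b (l 2) (a (l 4) (l 2))) (l 2))) (l 2))) (l 2)))), by decide +kernel⟩

theorem c_pm_133 : CertB 536870912 536870912 0 1230186008 966367641 24778659 3 eng mog cd0q1 cd3q3 pd3 true true false .dn 1 3 3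
    ndB0q1 ndB3q3 pcB3 Cut.none Ext.none :=
  certB0 (fam := true) (s1 := true) (s2 := false) (a := 1) (b := 3) (c := 3) (cn := .dn) (n1 := ndB0q1) (n2 := ndB3q3) (pc := pcB3) (cut := Cut.none) (xt := Ext.none) (P1 := 536870912) (W1 := 536870912) (P2 := 0) (W2 := 1230186008) (P3 := 966367641) (W3 := 24778659) (N0 := 3) (En := eng) (mo := mog) (C1 := cd0q1) (C2 := cd3q3) (C3 := pd3)
    rfl k0_pm_133

noncomputable def f_pm_202 : ℕ → ℕ → ℕ → ℕ → Bool := onCell 0 536870912 0 536870912 966367641 24778659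
    (rowB 3 eng mog cd0q2 cd3q0 pd2 0 true true false .pp 2 0 2 (qsf 0 536870912 0 536870912 2) ndB0q2 ndB3q0 pcB2 Cut.none Ext.none)

def k0_pm_202 : ∃ t, chk3 f_pm_202 t 2 2 1 = true :=
  ⟨(a (b (b (b (a (b (l 15755672) (l 15777872)) (b (l 15757312) (l 15759816))) (a (l 15794384) (l 15567040))) (a (l 4) (b (l 15644992) (l 4)))) (l 4)) (b (b (a (b (b (a (l 15748384) (l 15742360)) (l 15732560)) (c (l 15743504) (l 15707184))) (b (a (b (l 15737696) (l 15713216)) (l 15696944)) (c (a (l 15718160) (l 15702136)) (l 15620512)))) (a (b (l 15713624) (l 15677248)) (b (l 15591272) (l 15654616)))) (b (a (a (l 4) (b (l 15768832) (l 15801656))) (b (l 15672392) (a (l 15740736) (l 15666256)))) (a (l 4) (b (a (l 15773944) (l 15702816)) (a (l 4) (l 15739872))))))), by decide +kernel⟩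

def k1_pm_202 : ∃ t, chk3 f_pm_202 t 6 4 1 = true :=
  ⟨(b (a (b (a (b (l 15739240) (l 15695488)) (a (l 15699552) (l 15725912))) (a (l 15622336) (l 15628752))) (b (a (b (l 15752320) (c (l 15755464) (l 15655464))) (b (a (l 15795656) (c (l 15853296) (l 15768984))) (l 15702120))) (a (a (l 15601448) (l 15599304)) (a (l 15598528) (l 15619544))))) (a (b (a (l 15827472) (l 15542184)) (b (l 15532448) (l 15522504))) (b (a (l 15535056) (l 15509992)) (a (l 15454904) (l 15409168))))), by decide +kernel⟩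

def k2_pm_202 : ∃ t, chk3 f_pm_202 t 7 4 1 = true :=
  ⟨(a (b (b (a (b (c (l 15848368) (a (l 15778240) (l 15783704))) (a (c (l 15783272) (l 15690240)) (l 15738224))) (a (b (c (l 15833424) (l 15784384)) (l 15732984)) (b (b (l 15817672) (l 15779808)) (l 15723192)))) (a (a (b (l 15659672) (l 15585616)) (b (l 15660144) (l 15586504))) (a (b (l 15657496) (l 15581080)) (b (l 15648184) (l 15573976))))) (a (b (l 15466328) (l 15384880)) (b (a (l 15476328) (l 15441664)) (a (l 15352200) (l 15313864))))) (b (a (a (b (b (b (c (l 15813064) (l 15790032)) (l 15763944)) (c (l 15729696) (l 15685600))) (b (l 15633264) (l 15559536))) (b (b (b (a (l 15786376) (l 15775280)) (c (l 15754616) (l 15732768))) (c (l 15704824) (l 15670928))) (b (l 15614000) (l 15540824)))) (b (a (b (b (a (b (l 15772816) (l 15754288)) (b (c (l 15761632) (l 15759912)) (l 15742152))) (a (l 15726536) (l 15714536))) (c (l 15677424) (b (l 15673688) (l 15633064)))) (a (b (b (b (a (l 15751272) (b (l 15749632)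 (l 15740472))) (c (l 15730720) (l 15729320))) (c (l 15705848) (l 15699256))) (b (l 15665880) (l 15629472))) (b (a (b (b (b (a (l 15744984) (l 15741904)) (l 15734312)) (l 15720648)) (l 15693384)) (b (b (c (a (l 15731656) (l 15728296)) (a (l 15737440) (l 15734872))) (c (l 15713448) (l 15716400))) (c (l 15688784) (l 15686768)))) (b (l 15675208) (l 15618080))))) (a (b (c (l 15611984) (l 15572224)) (l 15519608)) (b (c (l 15584536) (l 15554504)) (c (l 15520368) (l 15474912)))))) (a (b (c (l 15492320) (a (l 15396544) (l 15385280))) (a (b (l 15343976) (l 15279744)) (l 15291488))) (b (c (a (l 15453072) (l 15426256)) (a (l 15371512) (l 15356664))) (c (l 15318496) (l 15208648)))))), by decide +kernel⟩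

def k3_pm_202 : ∃ t, chk3 f_pm_202 t 3 5 1 = true :=
  ⟨(a (b (a (b (l 15453960) (l 15503824)) (b (c (l 15474368) (l 15320064)) (b (l 15390648) (l 15385104)))) (a (b (l 15569712) (a (l 15657800) (l 15558640))) (b (l 15133400) (l 15232896)))) (a (b (a (b (l 15289800) (l 15262832)) (b (l 15223760) (l 15176360))) (a (b (l 15237832) (l 15232816)) (b (l 15133376) (l 15112784)))) (b (a (b (a (l 15198696) (l 15354688)) (l 15254888)) (b (c (l 15202032) (l 15056376)) (c (l 15100280) (l 14925112)))) (a (b (l 15023976) (l 14985864)) (b (a (l 14944344) (l 14900784)) (l 14861432)))))), by decide +kernel⟩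

def k4_pm_202 : ∃ t, chk3 f_pm_202 t 1 3 1 = true :=
  ⟨(a (l 4) (b (a (b (a (b (a (l 15700480) (l 15606744)) (a (l 4) (l 15656848))) (b (l 15432848) (l 15439888))) (a (l 4) (b (a (l 15607176) (l 15477720)) (a (l 15661240) (l 15547376))))) (a (b (a (l 15091744) (b (l 15112472) (l 15130896))) (b (l 15017160) (l 15098720))) (b (a (b (l 14969928) (l 14974208)) (b (l 14827912) (l 14816632))) (b (a (l 14997784) (l 14825528)) (a (l 15039520) (l 14853608)))))) (a (b (a (l 4) (b (a (l 4) (l 15611416)) (l 4))) (l 2)) (b (a (a (b (l 15471792) (l 15546112)) (b (l 15293000) (l 15378464))) (b (a (l 15098768) (l 14899568)) (a (l 15173536) (l 14962448)))) (a (b (a (l 4) (l 15463016)) (l 2)) (a (b (l 15261936) (l 15356080)) (b (l 15039992) (l 15130160)))))))), by decide +kernel⟩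

theorem s5_pm_202 : ∃ t, chk3 f_pm_202 t 3 4 1 = true := ex3_a k1_pm_202 k2_pm_202

theorem s6_pm_202 : ∃ t, chk3 f_pm_202 t 3 2 1 = true := ex3_b s5_pm_202 k3_pm_202

theorem s7_pm_202 : ∃ t, chk3 f_pm_202 t 1 2 1 = true := ex3_a k0_pm_202 s6_pm_202

theorem s8_pm_202 : ∃ t, chk3 f_pm_202 t 1 1 1 = true := ex3_b s7_pm_202 k4_pm_202

theorem c_pm_202 : CertB 0 536870912 0 536870912 966367641 24778659 3 eng mog cd0q2 cd3q0 pd2 true true false .pp 2 0 2
    ndB0q2 ndB3q0 pcB2 Cut.none Ext.none :=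
  certB0 (fam := true) (s1 := true) (s2 := false) (a := 2) (b := 0) (c := 2) (cn := .pp) (n1 := ndB0q2) (n2 := ndB3q0) (pc := pcB2) (cut := Cut.none) (xt := Ext.none) (P1 := 0) (W1 := 536870912) (P2 := 0) (W2 := 536870912) (P3 := 966367641) (W3 := 24778659) (N0 := 3) (En := eng) (mo := mog) (C1 := cd0q2) (C2 := cd3q0) (C3 := pd2)
    rfl s8_pm_202

noncomputable def f_pm_203 : ℕ → ℕ → ℕ → ℕ → Bool := onCell 0 536870912 1610612736 536870912 966367641 24778659
    (rowB 3 eng mog cd0q2 cd3q0 pd3 1 true true false .up 2 0 3 (qsf 0 536870912 0 536870912 3) ndB0q2 ndB3q0 pcB3 Cut.none Ext.none)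

def k0_pm_203 : ∃ t, chk3 f_pm_203 t 1 1 1 = true :=
  ⟨(b (a (l 4) (b (a (l 4) (b (a (b (l 15455008) (l 4)) (b (l 15316184) (l 15382000))) (a (l 4) (l 2)))) (l 4))) (l 2)), by decide +kernel⟩

theorem c_pm_203 : CertB 0 536870912 0 536870912 966367641 24778659 3 eng mog cd0q2 cd3q0 pd3 true true false .up 2 0 3
    ndB0q2 ndB3q0 pcB3 Cut.none Ext.none :=
  certB1 (fam := true) (s1 := true) (s2 := false) (a := 2) (b := 0) (c := 3) (cn := .up) (n1 := ndB0q2) (n2 := ndB3q0) (pc := pcB3) (cut := Cut.none) (xt := Ext.none) (P1 := 0) (W1 := 536870912) (P2 := 0) (W2 := 536870912) (P3 := 966367641) (W3 := 24778659) (N0 := 3) (En := eng) (mo := mog) (C1 := cd0q2) (C2 := cd3q0) (C3 := pd3)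
    rfl (fun _ => rfl) k0_pm_203

noncomputable def f_pm_213 : ℕ → ℕ → ℕ → ℕ → Bool := onCell 0 536870912 1610612736 536870912 966367641 24778659
    (rowB 3 eng mog cd0q2 cd3q1 pd3 1 true true false .pnn 2 1 3 (qsf 0 536870912 536870912 536870912 3) ndB0q2 ndB3q1 pcB3 Cut.none Ext.none)

def k0_pm_213 : ∃ t, chk3 f_pm_213 t 1 1 1 = true :=
  ⟨(b (a (l 4) (b (a (l 4) (b (a (b (l 1) (l 4)) (b (l 15342896) (l 15366888))) (a (l 4) (b (l 15387488) (l 4))))) (l 4))) (l 4)), by decide +kernel⟩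

theorem c_pm_213 : CertB 0 536870912 536870912 536870912 966367641 24778659 3 eng mog cd0q2 cd3q1 pd3 true true false .pnn 2 1 3
    ndB0q2 ndB3q1 pcB3 Cut.none Ext.none :=
  certB1 (fam := true) (s1 := true) (s2 := false) (a := 2) (b := 1) (c := 3) (cn := .pnn) (n1 := ndB0q2) (n2 := ndB3q1) (pc := pcB3) (cut := Cut.none) (xt := Ext.none) (P1 := 0) (W1 := 536870912) (P2 := 536870912) (W2 := 536870912) (P3 := 966367641) (W3 := 24778659) (N0 := 3) (En := eng) (mo := mog) (C1 := cd0q2) (C2 := cd3q1) (C3 := pd3)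
    rfl (fun _ => rfl) k0_pm_213

noncomputable def f_mm_001 : ℕ → ℕ → ℕ → ℕ → Bool := onCell 0 536870912 0 536870912 966367641 24778659
    (rowB 3 eng mog cd0q0 cd3q0 pd1 0 true false false .up 0 0 1 (qsf 0 536870912 0 536870912 1) ndB0q0 ndB3q0 pcB1 Cut.none Ext.none)

def k0_mm_001 : ∃ t, chk3 f_mm_001 t 1 1 1 = true :=
  ⟨(l 4), by decide +kernel⟩

theorem c_mm_001 : CertB 0 536870912 0 536870912 966367641 24778659 3 eng mog cd0q0 cd3q0 pd1 true false false .up 0 0 1
    ndB0q0 ndB3q0 pcB1 Cut.none Ext.none :=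
  certB0 (fam := true) (s1 := false) (s2 := false) (a := 0) (b := 0) (c := 1) (cn := .up) (n1 := ndB0q0) (n2 := ndB3q0) (pc := pcB1) (cut := Cut.none) (xt := Ext.none) (P1 := 0) (W1 := 536870912) (P2 := 0) (W2 := 536870912) (P3 := 966367641) (W3 := 24778659) (N0 := 3) (En := eng) (mo := mog) (C1 := cd0q0) (C2 := cd3q0) (C3 := pd1)
    rfl k0_mm_001

noncomputable def f_mm_011 : ℕ → ℕ → ℕ → ℕ → Bool := onCell 0 536870912 536870912 536870912 966367641 24778659
    (rowB 3 eng mog cd0q0 cd3q1 pd1 0 true false false .pnn 0 1 1 (qsf 0 536870912 536870912 536870912 1) ndB0q0 ndB3q1 pcB1 Cut.none Ext.none)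

def k0_mm_011 : ∃ t, chk3 f_mm_011 t 1 1 1 = true :=
  ⟨(l 4), by decide +kernel⟩

theorem c_mm_011 : CertB 0 536870912 536870912 536870912 966367641 24778659 3 eng mog cd0q0 cd3q1 pd1 true false false .pnn 0 1 1
    ndB0q0 ndB3q1 pcB1 Cut.none Ext.none :=
  certB0 (fam := true) (s1 := false) (s2 := false) (a := 0) (b := 1) (c := 1) (cn := .pnn) (n1 := ndB0q0) (n2 := ndB3q1) (pc := pcB1) (cut := Cut.none) (xt := Ext.none) (P1 := 0) (W1 := 536870912) (P2 := 536870912) (W2 := 536870912) (P3 := 966367641) (W3 := 24778659) (N0 := 3) (En := eng) (mo := mog) (C1 := cd0q0) (C2 := cd3q1) (C3 := pd1)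
    rfl k0_mm_011

noncomputable def f_mm_012 : ℕ → ℕ → ℕ → ℕ → Bool := onCell 0 536870912 536870912 536870912 966367641 24778659
    (rowB 3 eng mog cd0q0 cd3q1 pd2 0 true false false .pnp 0 1 2 (qsf 0 536870912 536870912 536870912 2) ndB0q0 ndB3q1 pcB2 Cut.none Ext.none)

def k0_mm_012 : ∃ t, chk3 f_mm_012 t 1 1 1 = true :=
  ⟨(l 4), by decide +kernel⟩

theorem c_mm_012 : CertB 0 536870912 536870912 536870912 966367641 24778659 3 eng mog cd0q0 cd3q1 pd2 true false false .pnp 0 1 2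
    ndB0q0 ndB3q1 pcB2 Cut.none Ext.none :=
  certB0 (fam := true) (s1 := false) (s2 := false) (a := 0) (b := 1) (c := 2) (cn := .pnp) (n1 := ndB0q0) (n2 := ndB3q1) (pc := pcB2) (cut := Cut.none) (xt := Ext.none) (P1 := 0) (W1 := 536870912) (P2 := 536870912) (W2 := 536870912) (P3 := 966367641) (W3 := 24778659) (N0 := 3) (En := eng) (mo := mog) (C1 := cd0q0) (C2 := cd3q1) (C3 := pd2)
    rfl k0_mm_012

noncomputable def f_mm_022 : ℕ → ℕ → ℕ → ℕ → Bool := onCell 0 536870912 1073741824 536870912 966367641 24778659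
    (rowB 3 eng mog cd0q0 cd3q2 pd2 0 true false false .pp 0 2 2 (qsf 0 536870912 1073741824 536870912 2) ndB0q0 ndB3q2 pcB2 Cut.none Ext.none)

def k0_mm_022 : ∃ t, chk3 f_mm_022 t 1 1 1 = true :=
  ⟨(l 4), by decide +kernel⟩

theorem c_mm_022 : CertB 0 536870912 1073741824 536870912 966367641 24778659 3 eng mog cd0q0 cd3q2 pd2 true false false .pp 0 2 2
    ndB0q0 ndB3q2 pcB2 Cut.none Ext.none :=
  certB0 (fam := true) (s1 := false) (s2 := false) (a := 0) (b := 2) (c := 2) (cn := .pp) (n1 := ndB0q0) (n2 := ndB3q2) (pc := pcB2) (cut := Cut.none) (xt := Ext.none) (P1 := 0) (W1 := 536870912) (P2 := 1073741824) (W2 := 536870912) (P3 := 966367641) (W3 := 24778659) (N0 := 3) (En := eng) (mo := mog) (C1 := cd0q0) (C2 := cd3q2) (C3 := pd2)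
    rfl k0_mm_022

noncomputable def f_mm_023 : ℕ → ℕ → ℕ → ℕ → Bool := onCell 0 536870912 1073741824 536870912 966367641 24778659
    (rowB 3 eng mog cd0q0 cd3q2 pd3 0 true false false .up 0 2 3 (qsf 0 536870912 1073741824 536870912 3) ndB0q0 ndB3q2 pcB3 Cut.none Ext.none)

def k0_mm_023 : ∃ t, chk3 f_mm_023 t 1 1 1 = true :=
  ⟨(l 4), by decide +kernel⟩

theorem c_mm_023 : CertB 0 536870912 1073741824 536870912 966367641 24778659 3 eng mog cd0q0 cd3q2 pd3 true false false .up 0 2 3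
    ndB0q0 ndB3q2 pcB3 Cut.none Ext.none :=
  certB0 (fam := true) (s1 := false) (s2 := false) (a := 0) (b := 2) (c := 3) (cn := .up) (n1 := ndB0q0) (n2 := ndB3q2) (pc := pcB3) (cut := Cut.none) (xt := Ext.none) (P1 := 0) (W1 := 536870912) (P2 := 1073741824) (W2 := 536870912) (P3 := 966367641) (W3 := 24778659) (N0 := 3) (En := eng) (mo := mog) (C1 := cd0q0) (C2 := cd3q2) (C3 := pd3)
    rfl k0_mm_023

noncomputable def f_mm_033 : ℕ → ℕ → ℕ → ℕ → Bool := onCell 0 536870912 0 1230186008 966367641 24778659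
    (rowB 3 eng mog cd0q0 cd3q3 pd3 0 true false false .pnn 0 3 3 (qsf 0 536870912 0 1230186008 3) ndB0q0 ndB3q3 pcB3 Cut.none Ext.none)

def k0_mm_033 : ∃ t, chk3 f_mm_033 t 1 1 1 = true :=
  ⟨(l 5), by decide +kernel⟩

theorem c_mm_033 : CertB 0 536870912 0 1230186008 966367641 24778659 3 eng mog cd0q0 cd3q3 pd3 true false false .pnn 0 3 3
    ndB0q0 ndB3q3 pcB3 Cut.none Ext.none :=
  certB0 (fam := true) (s1 := false) (s2 := false) (a := 0) (b := 3) (c := 3) (cn := .pnn) (n1 := ndB0q0) (n2 := ndB3q3) (pc := pcB3) (cut := Cut.none) (xt := Ext.none) (P1 := 0) (W1 := 536870912) (P2 := 0) (W2 := 1230186008) (P3 := 966367641) (W3 := 24778659) (N0 := 3) (En := eng) (mo := mog) (C1 := cd0q0) (C2 := cd3q3) (C3 := pd3)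
    rfl k0_mm_033

noncomputable def f_mm_101 : ℕ → ℕ → ℕ → ℕ → Bool := onCell 536870912 536870912 0 536870912 966367641 24778659
    (rowB 3 eng mog cd0q1 cd3q0 pd1 0 true false false .npn 1 0 1 (qsf 536870912 536870912 0 536870912 1) ndB0q1 ndB3q0 pcB1 Cut.none Ext.none)

def k0_mm_101 : ∃ t, chk3 f_mm_101 t 1 1 1 = true :=
  ⟨(l 4), by decide +kernel⟩

theorem c_mm_101 : CertB 536870912 536870912 0 536870912 966367641 24778659 3 eng mog cd0q1 cd3q0 pd1 true false false .npn 1 0 1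
    ndB0q1 ndB3q0 pcB1 Cut.none Ext.none :=
  certB0 (fam := true) (s1 := false) (s2 := false) (a := 1) (b := 0) (c := 1) (cn := .npn) (n1 := ndB0q1) (n2 := ndB3q0) (pc := pcB1) (cut := Cut.none) (xt := Ext.none) (P1 := 536870912) (W1 := 536870912) (P2 := 0) (W2 := 536870912) (P3 := 966367641) (W3 := 24778659) (N0 := 3) (En := eng) (mo := mog) (C1 := cd0q1) (C2 := cd3q0) (C3 := pd1)
    rfl k0_mm_101

noncomputable def f_mm_102 : ℕ → ℕ → ℕ → ℕ → Bool := onCell 536870912 536870912 0 536870912 966367641 24778659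
    (rowB 3 eng mog cd0q1 cd3q0 pd2 0 true false false .npp 1 0 2 (qsf 536870912 536870912 0 536870912 2) ndB0q1 ndB3q0 pcB2 Cut.none Ext.none)

def k0_mm_102 : ∃ t, chk3 f_mm_102 t 1 1 1 = true :=
  ⟨(l 4), by decide +kernel⟩

theorem c_mm_102 : CertB 536870912 536870912 0 536870912 966367641 24778659 3 eng mog cd0q1 cd3q0 pd2 true false false .npp 1 0 2
    ndB0q1 ndB3q0 pcB2 Cut.none Ext.none :=
  certB0 (fam := true) (s1 := false) (s2 := false) (a := 1) (b := 0) (c := 2) (cn := .npp) (n1 := ndB0q1) (n2 := ndB3q0) (pc := pcB2) (cut := Cut.none) (xt := Ext.none) (P1 := 536870912) (W1 := 536870912) (P2 := 0) (W2 := 536870912) (P3 := 966367641) (W3 := 24778659) (N0 := 3) (En := eng) (mo := mog) (C1 := cd0q1) (C2 := cd3q0) (C3 := pd2)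
    rfl k0_mm_102

noncomputable def f_mm_112 : ℕ → ℕ → ℕ → ℕ → Bool := onCell 536870912 536870912 536870912 536870912 966367641 24778659
    (rowB 3 eng mog cd0q1 cd3q1 pd2 0 true false false .dn 1 1 2 (qsf 536870912 536870912 536870912 536870912 2) ndB0q1 ndB3q1 pcB2 Cut.none Ext.none)

def k0_mm_112 : ∃ t, chk3 f_mm_112 t 1 1 1 = true :=
  ⟨(l 4), by decide +kernel⟩

theorem c_mm_112 : CertB 536870912 536870912 536870912 536870912 966367641 24778659 3 eng mog cd0q1 cd3q1 pd2 true false false .dn 1 1 2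
    ndB0q1 ndB3q1 pcB2 Cut.none Ext.none :=
  certB0 (fam := true) (s1 := false) (s2 := false) (a := 1) (b := 1) (c := 2) (cn := .dn) (n1 := ndB0q1) (n2 := ndB3q1) (pc := pcB2) (cut := Cut.none) (xt := Ext.none) (P1 := 536870912) (W1 := 536870912) (P2 := 536870912) (W2 := 536870912) (P3 := 966367641) (W3 := 24778659) (N0 := 3) (En := eng) (mo := mog) (C1 := cd0q1) (C2 := cd3q1) (C3 := pd2)
    rfl k0_mm_112

noncomputable def f_mm_113 : ℕ → ℕ → ℕ → ℕ → Bool := onCell 536870912 536870912 536870912 536870912 966367641 24778659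
    (rowB 3 eng mog cd0q1 cd3q1 pd3 0 true false false .nn 1 1 3 (qsf 536870912 536870912 536870912 536870912 3) ndB0q1 ndB3q1 pcB3 Cut.none Ext.none)

def k0_mm_113 : ∃ t, chk3 f_mm_113 t 1 1 1 = true :=
  ⟨(l 4), by decide +kernel⟩

theorem c_mm_113 : CertB 536870912 536870912 536870912 536870912 966367641 24778659 3 eng mog cd0q1 cd3q1 pd3 true false false .nn 1 1 3
    ndB0q1 ndB3q1 pcB3 Cut.none Ext.none :=
  certB0 (fam := true) (s1 := false) (s2 := false) (a := 1) (b := 1) (c := 3) (cn := .nn) (n1 := ndB0q1) (n2 := ndB3q1) (pc := pcB3) (cut := Cut.none) (xt := Ext.none) (P1 := 536870912) (W1 := 536870912) (P2 := 536870912) (W2 := 536870912) (P3 := 966367641) (W3 := 24778659) (N0 := 3) (En := eng) (mo := mog) (C1 := cd0q1) (C2 := cd3q1) (C3 := pd3)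
    rfl k0_mm_113

noncomputable def f_mm_123 : ℕ → ℕ → ℕ → ℕ → Bool := onCell 536870912 536870912 1073741824 536870912 966367641 24778659
    (rowB 3 eng mog cd0q1 cd3q2 pd3 0 true false false .npn 1 2 3 (qsf 536870912 536870912 1073741824 536870912 3) ndB0q1 ndB3q2 pcB3 Cut.none Ext.none)

def k0_mm_123 : ∃ t, chk3 f_mm_123 t 1 1 1 = true :=
  ⟨(l 4), by decide +kernel⟩

theorem c_mm_123 : CertB 536870912 536870912 1073741824 536870912 966367641 24778659 3 eng mog cd0q1 cd3q2 pd3 true false false .npn 1 2 3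
    ndB0q1 ndB3q2 pcB3 Cut.none Ext.none :=
  certB0 (fam := true) (s1 := false) (s2 := false) (a := 1) (b := 2) (c := 3) (cn := .npn) (n1 := ndB0q1) (n2 := ndB3q2) (pc := pcB3) (cut := Cut.none) (xt := Ext.none) (P1 := 536870912) (W1 := 536870912) (P2 := 1073741824) (W2 := 536870912) (P3 := 966367641) (W3 := 24778659) (N0 := 3) (En := eng) (mo := mog) (C1 := cd0q1) (C2 := cd3q2) (C3 := pd3)
    rfl k0_mm_123

noncomputable def f_mm_133 : ℕ → ℕ → ℕ → ℕ → Bool := onCell 536870912 536870912 0 1230186008 966367641 24778659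
    (rowB 3 eng mog cd0q1 cd3q3 pd3 0 true false false .dn 1 3 3 (qsf 536870912 536870912 0 1230186008 3) ndB0q1 ndB3q3 pcB3 Cut.none Ext.none)

def k0_mm_133 : ∃ t, chk3 f_mm_133 t 1 1 1 = true :=
  ⟨(l 4), by decide +kernel⟩

theorem c_mm_133 : CertB 536870912 536870912 0 1230186008 966367641 24778659 3 eng mog cd0q1 cd3q3 pd3 true false false .dn 1 3 3
    ndB0q1 ndB3q3 pcB3 Cut.none Ext.none :=
  certB0 (fam := true) (s1 := false) (s2 := false) (a := 1) (b := 3) (c := 3) (cn := .dn) (n1 := ndB0q1) (n2 := ndB3q3) (pc := pcB3) (cut := Cut.none) (xt := Ext.none) (P1 := 536870912) (W1 := 536870912) (P2 := 0) (W2 := 1230186008) (P3 := 966367641) (W3 := 24778659) (N0 := 3) (En := eng) (mo := mog) (C1 := cd0q1) (C2 := cd3q3) (C3 := pd3)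
    rfl k0_mm_133

noncomputable def f_mm_202 : ℕ → ℕ → ℕ → ℕ → Bool := onCell 0 536870912 0 536870912 966367641 24778659
    (rowB 3 eng mog cd0q2 cd3q0 pd2 0 true false false .pp 2 0 2 (qsf 0 536870912 0 536870912 2) ndB0q2 ndB3q0 pcB2 Cut.none Ext.none)

def k0_mm_202 : ∃ t, chk3 f_mm_202 t 1 1 1 = true :=
  ⟨(b (a (l 4) (l 4)) (l 4)), by decide +kernel⟩

theorem c_mm_202 : CertB 0 536870912 0 536870912 966367641 24778659 3 eng mog cd0q2 cd3q0 pd2 true false false .pp 2 0 2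
    ndB0q2 ndB3q0 pcB2 Cut.none Ext.none :=
  certB0 (fam := true) (s1 := false) (s2 := false) (a := 2) (b := 0) (c := 2) (cn := .pp) (n1 := ndB0q2) (n2 := ndB3q0) (pc := pcB2) (cut := Cut.none) (xt := Ext.none) (P1 := 0) (W1 := 536870912) (P2 := 0) (W2 := 536870912) (P3 := 966367641) (W3 := 24778659) (N0 := 3) (En := eng) (mo := mog) (C1 := cd0q2) (C2 := cd3q0) (C3 := pd2)
    rfl k0_mm_202

noncomputable def f_mm_203 : ℕ → ℕ → ℕ → ℕ → Bool := onCell 0 536870912 1610612736 536870912 966367641 24778659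
    (rowB 3 eng mog cd0q2 cd3q0 pd3 1 true false false .up 2 0 3 (qsf 0 536870912 0 536870912 3) ndB0q2 ndB3q0 pcB3 Cut.none Ext.none)

def k0_mm_203 : ∃ t, chk3 f_mm_203 t 1 1 1 = true :=
  ⟨(l 4), by decide +kernel⟩

theorem c_mm_203 : CertB 0 536870912 0 536870912 966367641 24778659 3 eng mog cd0q2 cd3q0 pd3 true false false .up 2 0 3
    ndB0q2 ndB3q0 pcB3 Cut.none Ext.none :=
  certB1 (fam := true) (s1 := false) (s2 := false) (a := 2) (b := 0) (c := 3) (cn := .up) (n1 := ndB0q2) (n2 := ndB3q0) (pc := pcB3) (cut := Cut.none) (xt := Ext.none) (P1 := 0) (W1 := 536870912) (P2 := 0) (W2 := 536870912) (P3 := 966367641) (W3 := 24778659) (N0 := 3) (En := eng) (mo := mog) (C1 := cd0q2) (C2 := cd3q0) (C3 := pd3)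
    rfl (fun _ => rfl) k0_mm_203

noncomputable def f_mm_213 : ℕ → ℕ → ℕ → ℕ → Bool := onCell 0 536870912 536870912 536870912 966367641 24778659
    (rowB 3 eng mog cd0q2 cd3q1 pd3 0 true false false .pnn 2 1 3 (qsf 0 536870912 536870912 536870912 3) ndB0q2 ndB3q1 pcB3 Cut.none Ext.none)

def k0_mm_213 : ∃ t, chk3 f_mm_213 t 1 1 1 = true :=
  ⟨(l 4), by decide +kernel⟩

theorem c_mm_213 : CertB 0 536870912 536870912 536870912 966367641 24778659 3 eng mog cd0q2 cd3q1 pd3 true false false .pnn 2 1 3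
    ndB0q2 ndB3q1 pcB3 Cut.none Ext.none :=
  certB0 (fam := true) (s1 := false) (s2 := false) (a := 2) (b := 1) (c := 3) (cn := .pnn) (n1 := ndB0q2) (n2 := ndB3q1) (pc := pcB3) (cut := Cut.none) (xt := Ext.none) (P1 := 0) (W1 := 536870912) (P2 := 536870912) (W2 := 536870912) (P3 := 966367641) (W3 := 24778659) (N0 := 3) (En := eng) (mo := mog) (C1 := cd0q2) (C2 := cd3q1) (C3 := pd3)
    rfl k0_mm_213

end Pool.Agent.Strip051.G.I9000_9231.Tab.C.BA03

namespace Pool.Agent.Strip051.G.I9000_9231.Tab.C.BA04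

open Pool.Agent.Strip051.PB Pool.Agent.Strip051.PB.T
open Pool.Agent.Strip051.G.I9000_9231.Tab

noncomputable def cut_pp_001 : Cut := Cut.of [[⟨3, 0, 0, 1449551462⟩]]

noncomputable def f_pp_001 : ℕ → ℕ → ℕ → ℕ → Bool := onCell 0 536870912 0 536870912 966367641 24778659
    (rowB 3 eng mog cd0q0 cd4q0 pd1 0 true true true .up 0 0 1 (qsf 0 536870912 0 536870912 1) ndB0q0 ndB4q0 pcB1 cut_pp_001 Ext.none)

def k0_pp_001 : ∃ t, chk3 f_pp_001 t 1 1 1 = true :=
  ⟨(l 4), by decide +kernel⟩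

theorem c_pp_001 : CertB 0 536870912 0 536870912 966367641 24778659 3 eng mog cd0q0 cd4q0 pd1 true true true .up 0 0 1
    ndB0q0 ndB4q0 pcB1 cut_pp_001 Ext.none :=
  certB0 (fam := true) (s1 := true) (s2 := true) (a := 0) (b := 0) (c := 1) (cn := .up) (n1 := ndB0q0) (n2 := ndB4q0) (pc := pcB1) (cut := cut_pp_001) (xt := Ext.none) (P1 := 0) (W1 := 536870912) (P2 := 0) (W2 := 536870912) (P3 := 966367641) (W3 := 24778659) (N0 := 3) (En := eng) (mo := mog) (C1 := cd0q0) (C2 := cd4q0) (C3 := pd1)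
    rfl k0_pp_001

noncomputable def cut_pp_011 : Cut := Cut.of [[⟨3, 0, 0, 1449551462⟩]]

noncomputable def f_pp_011 : ℕ → ℕ → ℕ → ℕ → Bool := onCell 0 536870912 536870912 536870912 966367641 24778659
    (rowB 3 eng mog cd0q0 cd4q1 pd1 0 true true true .pnn 0 1 1 (qsf 0 536870912 536870912 536870912 1) ndB0q0 ndB4q1 pcB1 cut_pp_011 Ext.none)

def k0_pp_011 : ∃ t, chk3 f_pp_011 t 1 1 1 = true :=
  ⟨(l 4), by decide +kernel⟩

theorem c_pp_011 : CertB 0 536870912 536870912 536870912 966367641 24778659 3 eng mog cd0q0 cd4q1 pd1 true true true .pnn 0 1 1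
    ndB0q0 ndB4q1 pcB1 cut_pp_011 Ext.none :=
  certB0 (fam := true) (s1 := true) (s2 := true) (a := 0) (b := 1) (c := 1) (cn := .pnn) (n1 := ndB0q0) (n2 := ndB4q1) (pc := pcB1) (cut := cut_pp_011) (xt := Ext.none) (P1 := 0) (W1 := 536870912) (P2 := 536870912) (W2 := 536870912) (P3 := 966367641) (W3 := 24778659) (N0 := 3) (En := eng) (mo := mog) (C1 := cd0q0) (C2 := cd4q1) (C3 := pd1)
    rfl k0_pp_011

noncomputable def cut_pp_012 : Cut := Cut.of [[⟨3, 0, 0, 1449551462⟩]]

noncomputable def f_pp_012 : ℕ → ℕ → ℕ → ℕ → Bool := onCell 0 536870912 536870912 536870912 966367641 24778659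
    (rowB 3 eng mog cd0q0 cd4q1 pd2 0 true true true .pnp 0 1 2 (qsf 0 536870912 536870912 536870912 2) ndB0q0 ndB4q1 pcB2 cut_pp_012 Ext.none)

def k0_pp_012 : ∃ t, chk3 f_pp_012 t 1 1 1 = true :=
  ⟨(l 4), by decide +kernel⟩

theorem c_pp_012 : CertB 0 536870912 536870912 536870912 966367641 24778659 3 eng mog cd0q0 cd4q1 pd2 true true true .pnp 0 1 2
    ndB0q0 ndB4q1 pcB2 cut_pp_012 Ext.none :=
  certB0 (fam := true) (s1 := true) (s2 := true) (a := 0) (b := 1) (c := 2) (cn := .pnp) (n1 := ndB0q0) (n2 := ndB4q1) (pc := pcB2) (cut := cut_pp_012) (xt := Ext.none) (P1 := 0) (W1 := 536870912) (P2 := 536870912) (W2 := 536870912) (P3 := 966367641) (W3 := 24778659) (N0 := 3) (En := eng) (mo := mog) (C1 := cd0q0) (C2 := cd4q1) (C3 := pd2)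
    rfl k0_pp_012

noncomputable def cut_pp_022 : Cut := Cut.of [[⟨3, 0, 0, 1449551462⟩]]

noncomputable def f_pp_022 : ℕ → ℕ → ℕ → ℕ → Bool := onCell 0 536870912 1073741824 536870912 966367641 24778659
    (rowB 3 eng mog cd0q0 cd4q2 pd2 0 true true true .pp 0 2 2 (qsf 0 536870912 1073741824 536870912 2) ndB0q0 ndB4q2 pcB2 cut_pp_022 Ext.none)

def k0_pp_022 : ∃ t, chk3 f_pp_022 t 1 1 1 = true :=
  ⟨(l 4), by decide +kernel⟩

theorem c_pp_022 : CertB 0 536870912 1073741824 536870912 966367641 24778659 3 eng mog cd0q0 cd4q2 pd2 true true true .pp 0 2 2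
    ndB0q0 ndB4q2 pcB2 cut_pp_022 Ext.none :=
  certB0 (fam := true) (s1 := true) (s2 := true) (a := 0) (b := 2) (c := 2) (cn := .pp) (n1 := ndB0q0) (n2 := ndB4q2) (pc := pcB2) (cut := cut_pp_022) (xt := Ext.none) (P1 := 0) (W1 := 536870912) (P2 := 1073741824) (W2 := 536870912) (P3 := 966367641) (W3 := 24778659) (N0 := 3) (En := eng) (mo := mog) (C1 := cd0q0) (C2 := cd4q2) (C3 := pd2)
    rfl k0_pp_022

noncomputable def cut_pp_023 : Cut := Cut.of [[⟨3, 0, 0, 1449551462⟩]]

noncomputable def f_pp_023 : ℕ → ℕ → ℕ → ℕ → Bool := onCell 0 536870912 1073741824 536870912 966367641 24778659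
    (rowB 3 eng mog cd0q0 cd4q2 pd3 0 true true true .up 0 2 3 (qsf 0 536870912 1073741824 536870912 3) ndB0q0 ndB4q2 pcB3 cut_pp_023 Ext.none)

def k0_pp_023 : ∃ t, chk3 f_pp_023 t 1 1 1 = true :=
  ⟨(l 4), by decide +kernel⟩

theorem c_pp_023 : CertB 0 536870912 1073741824 536870912 966367641 24778659 3 eng mog cd0q0 cd4q2 pd3 true true true .up 0 2 3
    ndB0q0 ndB4q2 pcB3 cut_pp_023 Ext.none :=
  certB0 (fam := true) (s1 := true) (s2 := true) (a := 0) (b := 2) (c := 3) (cn := .up) (n1 := ndB0q0) (n2 := ndB4q2) (pc := pcB3) (cut := cut_pp_023) (xt := Ext.none) (P1 := 0) (W1 := 536870912) (P2 := 1073741824) (W2 := 536870912) (P3 := 966367641) (W3 := 24778659) (N0 := 3) (En := eng) (mo := mog) (C1 := cd0q0) (C2 := cd4q2) (C3 := pd3)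
    rfl k0_pp_023

noncomputable def cut_pp_033 : Cut := Cut.of [[⟨3, 0, 0, 1449551462⟩]]

noncomputable def f_pp_033 : ℕ → ℕ → ℕ → ℕ → Bool := onCell 0 536870912 0 1230186008 966367641 24778659
    (rowB 3 eng mog cd0q0 cd4q3 pd3 0 true true true .pnn 0 3 3 (qsf 0 536870912 0 1230186008 3) ndB0q0 ndB4q3 pcB3 cut_pp_033 Ext.none)

def k0_pp_033 : ∃ t, chk3 f_pp_033 t 1 1 1 = true :=
  ⟨(l 4), by decide +kernel⟩

theorem c_pp_033 : CertB 0 536870912 0 1230186008 966367641 24778659 3 eng mog cd0q0 cd4q3 pd3 true true true .pnn 0 3 3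
    ndB0q0 ndB4q3 pcB3 cut_pp_033 Ext.none :=
  certB0 (fam := true) (s1 := true) (s2 := true) (a := 0) (b := 3) (c := 3) (cn := .pnn) (n1 := ndB0q0) (n2 := ndB4q3) (pc := pcB3) (cut := cut_pp_033) (xt := Ext.none) (P1 := 0) (W1 := 536870912) (P2 := 0) (W2 := 1230186008) (P3 := 966367641) (W3 := 24778659) (N0 := 3) (En := eng) (mo := mog) (C1 := cd0q0) (C2 := cd4q3) (C3 := pd3)
    rfl k0_pp_033

noncomputable def cut_pp_101 : Cut := Cut.of [[⟨3, 0, 0, 1449551462⟩]]

noncomputable def f_pp_101 : ℕ → ℕ → ℕ → ℕ → Bool := onCell 536870912 536870912 0 536870912 966367641 24778659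
    (rowB 3 eng mog cd0q1 cd4q0 pd1 0 true true true .npn 1 0 1 (qsf 536870912 536870912 0 536870912 1) ndB0q1 ndB4q0 pcB1 cut_pp_101 Ext.none)

def k0_pp_101 : ∃ t, chk3 f_pp_101 t 1 1 1 = true :=
  ⟨(l 4), by decide +kernel⟩

theorem c_pp_101 : CertB 536870912 536870912 0 536870912 966367641 24778659 3 eng mog cd0q1 cd4q0 pd1 true true true .npn 1 0 1
    ndB0q1 ndB4q0 pcB1 cut_pp_101 Ext.none :=
  certB0 (fam := true) (s1 := true) (s2 := true) (a := 1) (b := 0) (c := 1) (cn := .npn) (n1 := ndB0q1) (n2 := ndB4q0) (pc := pcB1) (cut := cut_pp_101) (xt := Ext.none) (P1 := 536870912) (W1 := 536870912) (P2 := 0) (W2 := 536870912) (P3 := 966367641) (W3 := 24778659) (N0 := 3) (En := eng) (mo := mog) (C1 := cd0q1) (C2 := cd4q0) (C3 := pd1)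
    rfl k0_pp_101

noncomputable def cut_pp_102 : Cut := Cut.of [[⟨3, 0, 0, 1449551462⟩]]

noncomputable def f_pp_102 : ℕ → ℕ → ℕ → ℕ → Bool := onCell 536870912 536870912 0 536870912 966367641 24778659
    (rowB 3 eng mog cd0q1 cd4q0 pd2 0 true true true .npp 1 0 2 (qsf 536870912 536870912 0 536870912 2) ndB0q1 ndB4q0 pcB2 cut_pp_102 Ext.none)

def k0_pp_102 : ∃ t, chk3 f_pp_102 t 1 1 1 = true :=
  ⟨(l 4), by decide +kernel⟩

theorem c_pp_102 : CertB 536870912 536870912 0 536870912 966367641 24778659 3 eng mog cd0q1 cd4q0 pd2 true true true .npp 1 0 2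
    ndB0q1 ndB4q0 pcB2 cut_pp_102 Ext.none :=
  certB0 (fam := true) (s1 := true) (s2 := true) (a := 1) (b := 0) (c := 2) (cn := .npp) (n1 := ndB0q1) (n2 := ndB4q0) (pc := pcB2) (cut := cut_pp_102) (xt := Ext.none) (P1 := 536870912) (W1 := 536870912) (P2 := 0) (W2 := 536870912) (P3 := 966367641) (W3 := 24778659) (N0 := 3) (En := eng) (mo := mog) (C1 := cd0q1) (C2 := cd4q0) (C3 := pd2)
    rfl k0_pp_102

noncomputable def cut_pp_112 : Cut := Cut.of [[⟨3, 0, 0, 1449551462⟩]]

noncomputable def f_pp_112 : ℕ → ℕ → ℕ → ℕ → Bool := onCell 536870912 536870912 536870912 536870912 966367641 24778659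
    (rowB 3 eng mog cd0q1 cd4q1 pd2 0 true true true .dn 1 1 2 (qsf 536870912 536870912 536870912 536870912 2) ndB0q1 ndB4q1 pcB2 cut_pp_112 Ext.none)

def k0_pp_112 : ∃ t, chk3 f_pp_112 t 1 1 1 = true :=
  ⟨(l 4), by decide +kernel⟩

theorem c_pp_112 : CertB 536870912 536870912 536870912 536870912 966367641 24778659 3 eng mog cd0q1 cd4q1 pd2 true true true .dn 1 1 2
    ndB0q1 ndB4q1 pcB2 cut_pp_112 Ext.none :=
  certB0 (fam := true) (s1 := true) (s2 := true) (a := 1) (b := 1) (c := 2) (cn := .dn) (n1 := ndB0q1) (n2 := ndB4q1) (pc := pcB2) (cut := cut_pp_112) (xt := Ext.none) (P1 := 536870912) (W1 := 536870912) (P2 := 536870912) (W2 := 536870912) (P3 := 966367641) (W3 := 24778659) (N0 := 3) (En := eng) (mo := mog) (C1 := cd0q1) (C2 := cd4q1) (C3 := pd2)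
    rfl k0_pp_112

noncomputable def cut_pp_113 : Cut := Cut.of [[⟨3, 0, 0, 1449551462⟩]]

noncomputable def f_pp_113 : ℕ → ℕ → ℕ → ℕ → Bool := onCell 536870912 536870912 536870912 536870912 966367641 24778659
    (rowB 3 eng mog cd0q1 cd4q1 pd3 0 true true true .nn 1 1 3 (qsf 536870912 536870912 536870912 536870912 3) ndB0q1 ndB4q1 pcB3 cut_pp_113 Ext.none)

def k0_pp_113 : ∃ t, chk3 f_pp_113 t 1 1 1 = true :=
  ⟨(l 4), by decide +kernel⟩

theorem c_pp_113 : CertB 536870912 536870912 536870912 536870912 966367641 24778659 3 eng mog cd0q1 cd4q1 pd3 true true true .nn 1 1 3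
    ndB0q1 ndB4q1 pcB3 cut_pp_113 Ext.none :=
  certB0 (fam := true) (s1 := true) (s2 := true) (a := 1) (b := 1) (c := 3) (cn := .nn) (n1 := ndB0q1) (n2 := ndB4q1) (pc := pcB3) (cut := cut_pp_113) (xt := Ext.none) (P1 := 536870912) (W1 := 536870912) (P2 := 536870912) (W2 := 536870912) (P3 := 966367641) (W3 := 24778659) (N0 := 3) (En := eng) (mo := mog) (C1 := cd0q1) (C2 := cd4q1) (C3 := pd3)
    rfl k0_pp_113

noncomputable def cut_pp_123 : Cut := Cut.of [[⟨3, 0, 0, 1449551462⟩]]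

noncomputable def f_pp_123 : ℕ → ℕ → ℕ → ℕ → Bool := onCell 536870912 536870912 1073741824 536870912 966367641 24778659
    (rowB 3 eng mog cd0q1 cd4q2 pd3 0 true true true .npn 1 2 3 (qsf 536870912 536870912 1073741824 536870912 3) ndB0q1 ndB4q2 pcB3 cut_pp_123 Ext.none)

def k0_pp_123 : ∃ t, chk3 f_pp_123 t 1 1 1 = true :=
  ⟨(l 4), by decide +kernel⟩

theorem c_pp_123 : CertB 536870912 536870912 1073741824 536870912 966367641 24778659 3 eng mog cd0q1 cd4q2 pd3 true true true .npn 1 2 3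
    ndB0q1 ndB4q2 pcB3 cut_pp_123 Ext.none :=
  certB0 (fam := true) (s1 := true) (s2 := true) (a := 1) (b := 2) (c := 3) (cn := .npn) (n1 := ndB0q1) (n2 := ndB4q2) (pc := pcB3) (cut := cut_pp_123) (xt := Ext.none) (P1 := 536870912) (W1 := 536870912) (P2 := 1073741824) (W2 := 536870912) (P3 := 966367641) (W3 := 24778659) (N0 := 3) (En := eng) (mo := mog) (C1 := cd0q1) (C2 := cd4q2) (C3 := pd3)
    rfl k0_pp_123

noncomputable def cut_pp_133 : Cut := Cut.of [[⟨3, 0, 0, 1449551462⟩]]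

noncomputable def f_pp_133 : ℕ → ℕ → ℕ → ℕ → Bool := onCell 536870912 536870912 0 1230186008 966367641 24778659
    (rowB 3 eng mog cd0q1 cd4q3 pd3 0 true true true .dn 1 3 3 (qsf 536870912 536870912 0 1230186008 3) ndB0q1 ndB4q3 pcB3 cut_pp_133 Ext.none)

def k0_pp_133 : ∃ t, chk3 f_pp_133 t 1 1 1 = true :=
  ⟨(l 4), by decide +kernel⟩

theorem c_pp_133 : CertB 536870912 536870912 0 1230186008 966367641 24778659 3 eng mog cd0q1 cd4q3 pd3 true true true .dn 1 3 3
    ndB0q1 ndB4q3 pcB3 cut_pp_133 Ext.none :=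
  certB0 (fam := true) (s1 := true) (s2 := true) (a := 1) (b := 3) (c := 3) (cn := .dn) (n1 := ndB0q1) (n2 := ndB4q3) (pc := pcB3) (cut := cut_pp_133) (xt := Ext.none) (P1 := 536870912) (W1 := 536870912) (P2 := 0) (W2 := 1230186008) (P3 := 966367641) (W3 := 24778659) (N0 := 3) (En := eng) (mo := mog) (C1 := cd0q1) (C2 := cd4q3) (C3 := pd3)
    rfl k0_pp_133

noncomputable def cut_pp_202 : Cut := Cut.of [[⟨3, 0, 0, 1449551462⟩]]

noncomputable def f_pp_202 : ℕ → ℕ → ℕ → ℕ → Bool := onCell 0 536870912 0 536870912 966367641 24778659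
    (rowB 3 eng mog cd0q2 cd4q0 pd2 0 true true true .pp 2 0 2 (qsf 0 536870912 0 536870912 2) ndB0q2 ndB4q0 pcB2 cut_pp_202 Ext.none)

def k0_pp_202 : ∃ t, chk3 f_pp_202 t 1 1 1 = true :=
  ⟨(l 4), by decide +kernel⟩

theorem c_pp_202 : CertB 0 536870912 0 536870912 966367641 24778659 3 eng mog cd0q2 cd4q0 pd2 true true true .pp 2 0 2
    ndB0q2 ndB4q0 pcB2 cut_pp_202 Ext.none :=
  certB0 (fam := true) (s1 := true) (s2 := true) (a := 2) (b := 0) (c := 2) (cn := .pp) (n1 := ndB0q2) (n2 := ndB4q0) (pc := pcB2) (cut := cut_pp_202) (xt := Ext.none) (P1 := 0) (W1 := 536870912) (P2 := 0) (W2 := 536870912) (P3 := 966367641) (W3 := 24778659) (N0 := 3) (En := eng) (mo := mog) (C1 := cd0q2) (C2 := cd4q0) (C3 := pd2)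
    rfl k0_pp_202

noncomputable def cut_pp_203 : Cut := Cut.of [[⟨3, 0, 0, 1449551462⟩]]

noncomputable def f_pp_203 : ℕ → ℕ → ℕ → ℕ → Bool := onCell 0 536870912 0 536870912 966367641 24778659
    (rowB 3 eng mog cd0q2 cd4q0 pd3 0 true true true .up 2 0 3 (qsf 0 536870912 0 536870912 3) ndB0q2 ndB4q0 pcB3 cut_pp_203 Ext.none)

def k0_pp_203 : ∃ t, chk3 f_pp_203 t 1 1 1 = true :=
  ⟨(l 4), by decide +kernel⟩

theorem c_pp_203 : CertB 0 536870912 0 536870912 966367641 24778659 3 eng mog cd0q2 cd4q0 pd3 true true true .up 2 0 3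
    ndB0q2 ndB4q0 pcB3 cut_pp_203 Ext.none :=
  certB0 (fam := true) (s1 := true) (s2 := true) (a := 2) (b := 0) (c := 3) (cn := .up) (n1 := ndB0q2) (n2 := ndB4q0) (pc := pcB3) (cut := cut_pp_203) (xt := Ext.none) (P1 := 0) (W1 := 536870912) (P2 := 0) (W2 := 536870912) (P3 := 966367641) (W3 := 24778659) (N0 := 3) (En := eng) (mo := mog) (C1 := cd0q2) (C2 := cd4q0) (C3 := pd3)
    rfl k0_pp_203

noncomputable def cut_pp_213 : Cut := Cut.of [[⟨3, 0, 0, 1449551462⟩]]

noncomputable def f_pp_213 : ℕ → ℕ → ℕ → ℕ → Bool := onCell 0 536870912 536870912 536870912 966367641 24778659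
    (rowB 3 eng mog cd0q2 cd4q1 pd3 0 true true true .pnn 2 1 3 (qsf 0 536870912 536870912 536870912 3) ndB0q2 ndB4q1 pcB3 cut_pp_213 Ext.none)

def k0_pp_213 : ∃ t, chk3 f_pp_213 t 1 1 1 = true :=
  ⟨(l 4), by decide +kernel⟩

theorem c_pp_213 : CertB 0 536870912 536870912 536870912 966367641 24778659 3 eng mog cd0q2 cd4q1 pd3 true true true .pnn 2 1 3
    ndB0q2 ndB4q1 pcB3 cut_pp_213 Ext.none :=
  certB0 (fam := true) (s1 := true) (s2 := true) (a := 2) (b := 1) (c := 3) (cn := .pnn) (n1 := ndB0q2) (n2 := ndB4q1) (pc := pcB3) (cut := cut_pp_213) (xt := Ext.none) (P1 := 0) (W1 := 536870912) (P2 := 536870912) (W2 := 536870912) (P3 := 966367641) (W3 := 24778659) (N0 := 3) (En := eng) (mo := mog) (C1 := cd0q2) (C2 := cd4q1) (C3 := pd3)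
    rfl k0_pp_213

noncomputable def cut_pm_001 : Cut := Cut.of [[⟨3, 0, 0, 1449551462⟩]]

noncomputable def f_pm_001 : ℕ → ℕ → ℕ → ℕ → Bool := onCell 0 536870912 536870912 536870912 966367641 24778659
    (rowB 3 eng mog cd0q0 cd4q0 pd1 1 true true false .up 0 0 1 (qsf 0 536870912 0 536870912 1) ndB0q0 ndB4q0 pcB1 cut_pm_001 Ext.none)

def k0_pm_001 : ∃ t, chk3 f_pm_001 t 1 1 1 = true :=
  ⟨(a (l 6) (b (l 6) (b (l 6) (a (l 6) (b (l 6) (a (l 6) (b (l 6) (a (l 6) (l 16188744))))))))), by decide +kernel⟩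

theorem c_pm_001 : CertB 0 536870912 0 536870912 966367641 24778659 3 eng mog cd0q0 cd4q0 pd1 true true false .up 0 0 1
    ndB0q0 ndB4q0 pcB1 cut_pm_001 Ext.none :=
  certB1 (fam := true) (s1 := true) (s2 := false) (a := 0) (b := 0) (c := 1) (cn := .up) (n1 := ndB0q0) (n2 := ndB4q0) (pc := pcB1) (cut := cut_pm_001) (xt := Ext.none) (P1 := 0) (W1 := 536870912) (P2 := 0) (W2 := 536870912) (P3 := 966367641) (W3 := 24778659) (N0 := 3) (En := eng) (mo := mog) (C1 := cd0q0) (C2 := cd4q0) (C3 := pd1)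
    rfl (fun _ => rfl) k0_pm_001

noncomputable def cut_pm_011 : Cut := Cut.of [[⟨3, 0, 0, 1449551462⟩], [⟨0, 0, 0, 53687091⟩, ⟨1, 1, 0, 53687091⟩, ⟨2, 1, 0, 53687091⟩]]

noncomputable def f_pm_011 : ℕ → ℕ → ℕ → ℕ → Bool := onCell 0 536870912 536870912 536870912 966367641 24778659
    (rowB 3 eng mog cd0q0 cd4q1 pd1 1 true true false .pnn 0 1 1 (qsf 0 536870912 536870912 536870912 1) ndB0q0 ndB4q1 pcB1 cut_pm_011 Ext.none)

def k0_pm_011 : ∃ t, chk3 f_pm_011 t 1 1 1 = true :=
  ⟨(b (l 6) (a (l 6) (b (l 6) (a (l 6) (b (l 6) (a (l 6) (b (l 6) (l 16354296)))))))), by decide +kernel⟩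

theorem c_pm_011 : CertB 0 536870912 536870912 536870912 966367641 24778659 3 eng mog cd0q0 cd4q1 pd1 true true false .pnn 0 1 1
    ndB0q0 ndB4q1 pcB1 cut_pm_011 Ext.none :=
  certB1 (fam := true) (s1 := true) (s2 := false) (a := 0) (b := 1) (c := 1) (cn := .pnn) (n1 := ndB0q0) (n2 := ndB4q1) (pc := pcB1) (cut := cut_pm_011) (xt := Ext.none) (P1 := 0) (W1 := 536870912) (P2 := 536870912) (W2 := 536870912) (P3 := 966367641) (W3 := 24778659) (N0 := 3) (En := eng) (mo := mog) (C1 := cd0q0) (C2 := cd4q1) (C3 := pd1)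
    rfl (fun _ => rfl) k0_pm_011

noncomputable def cut_pm_012 : Cut := Cut.of [[⟨3, 0, 0, 1449551462⟩], [⟨0, 0, 0, 67108864⟩, ⟨1, 1, 0, 67108864⟩, ⟨2, 1, 0, 67108864⟩]]

noncomputable def f_pm_012 : ℕ → ℕ → ℕ → ℕ → Bool := onCell 0 536870912 536870912 536870912 966367641 24778659
    (rowB 3 eng mog cd0q0 cd4q1 pd2 0 true true false .pnp 0 1 2 (qsf 0 536870912 536870912 536870912 2) ndB0q0 ndB4q1 pcB2 cut_pm_012 Ext.none)

def k0_pm_012 : ∃ t, chk3 f_pm_012 t 2 1 1 = true :=
  ⟨(b (l 6) (a (l 6) (b (l 6) (a (l 6) (b (a (l 6) (b (l 6) (a (l 6) (b (l 6) (l 15680760))))) (a (b (l 6) (c (a (l 15570472) (l 15502248)) (b (l 15515888) (l 15410848)))) (b (b (l 15614984) (l 15514624)) (b (l 15414048) (l 15314240))))))))), by decide +kernel⟩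

def k1_pm_012 : ∃ t, chk3 f_pm_012 t 3 2 1 = true :=
  ⟨(a (b (l 6) (a (l 6) (b (l 6) (a (l 6) (c (l 16215816) (l 16175664)))))) (b (a (b (l 6) (a (l 6) (c (l 16098504) (l 16243888)))) (b (a (c (l 633002835127) (l 489658333239)) (l 390873962183)) (c (l 16126672) (l 16099840)))) (a (b (a (b (l 6) (l 16209064)) (b (l 16173144) (l 16107408))) (a (c (l 16111688) (l 16023120)) (c (l 16013496) (l 15963272)))) (b (a (l 16045152) (l 15953624)) (c (l 15706696) (l 15638072)))))), by decide +kernel⟩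

def k2_pm_012 : ∃ t, chk3 f_pm_012 t 6 3 1 = true :=
  ⟨(b (b (a (l 6) (a (b (l 16159376) (l 15871848)) (b (l 16003368) (l 15927344)))) (a (a (l 6) (b (c (l 16044848) (l 16003536)) (c (l 15896144) (l 15845616)))) (a (b (c (l 15930344) (l 15880176)) (c (l 15783624) (l 15725360))) (c (l 15669192) (l 15588848))))) (a (b (b (a (a (b (l 6) (a (l 6) (l 15789816))) (b (a (b (l 6) (l 15826432)) (l 15817688)) (l 15742760))) (c (l 15729992) (l 15665056))) (a (l 15632360) (c (l 15549664) (l 15468768)))) (c (b (a (l 15476864) (l 15361416)) (a (l 15285632) (l 15171920))) (a (b (l 15393720) (l 15187088)) (b (l 15265680) (l 15060576))))) (b (a (b (c (l 15619792) (l 15548368)) (c (l 15441824) (l 15354824))) (b (c (l 15518400) (l 15443800)) (c (l 15343984) (l 15255776)))) (a (b (c (l 15254784) (a (l 15176648) (l 15126448))) (c (a (l 15090600) (l 15041248)) (a (b (l 15021192) (l 14919472)) (l 14919448)))) (c (b (l 15139992) (b (l 15021928) (l 14930168))) (b (l 15058776)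 (b (l 14907744) (l 14807280)))))))), by decide +kernel⟩

def k3_pm_012 : ∃ t, chk3 f_pm_012 t 7 3 1 = true :=
  ⟨(a (b (b (c (a (l 15910632) (l 15815712)) (a (l 15856184) (l 15759760))) (a (b (l 15696168) (l 15552160)) (b (l 15605320) (l 15465352)))) (b (b (a (l 15285072) (l 15307864)) (a (c (l 15255760) (l 15170400)) (c (l 15175800) (l 15097328)))) (a (c (b (l 15077304) (b (l 14942112) (l 14853112))) (b (l 15022456) (a (l 14803248) (l 14771616)))) (c (b (l 15002248) (a (l 14844376) (l 14811584))) (b (l 14915080) (a (l 14743208) (l 14717960))))))) (b (b (a (l 15469184) (l 15575520)) (a (b (l 15522288) (l 15386736)) (b (l 15445744) (l 15314920)))) (b (a (b (l 15234360) (c (l 15102512) (l 15035632))) (c (l 15029880) (l 14939704))) (a (c (b (l 14934184) (a (l 14780496) (l 14750920))) (b (l 14861456) (a (l 14695728) (l 14676240)))) (c (b (l 14871528) (l 14709160)) (b (l 14818024) (l 14651920))))))), by decide +kernel⟩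

theorem s4_pm_012 : ∃ t, chk3 f_pm_012 t 3 3 1 = true := ex3_a k2_pm_012 k3_pm_012

theorem s5_pm_012 : ∃ t, chk3 f_pm_012 t 3 1 1 = true := ex3_b k1_pm_012 s4_pm_012

theorem s6_pm_012 : ∃ t, chk3 f_pm_012 t 1 1 1 = true := ex3_a k0_pm_012 s5_pm_012

theorem c_pm_012 : CertB 0 536870912 536870912 536870912 966367641 24778659 3 eng mog cd0q0 cd4q1 pd2 true true false .pnp 0 1 2
    ndB0q0 ndB4q1 pcB2 cut_pm_012 Ext.none :=
  certB0 (fam := true) (s1 := true) (s2 := false) (a := 0) (b := 1) (c := 2) (cn := .pnp) (n1 := ndB0q0) (n2 := ndB4q1) (pc := pcB2) (cut := cut_pm_012) (xt := Ext.none) (P1 := 0) (W1 := 536870912) (P2 := 536870912) (W2 := 536870912) (P3 := 966367641) (W3 := 24778659) (N0 := 3) (En := eng) (mo := mog) (C1 := cd0q0) (C2 := cd4q1) (C3 := pd2)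
    rfl s6_pm_012

noncomputable def cut_pm_022 : Cut := Cut.of [[⟨3, 0, 0, 1449551462⟩], [⟨0, 0, 0, 67108864⟩, ⟨1, 1, 0, 67108864⟩, ⟨2, 1, 0, 67108864⟩]]

noncomputable def f_pm_022 : ℕ → ℕ → ℕ → ℕ → Bool := onCell 0 536870912 1073741824 536870912 966367641 24778659
    (rowB 3 eng mog cd0q0 cd4q2 pd2 0 true true false .pp 0 2 2 (qsf 0 536870912 1073741824 536870912 2) ndB0q0 ndB4q2 pcB2 cut_pm_022 Ext.none)

def k0_pm_022 : ∃ t, chk3 f_pm_022 t 2 1 1 = true :=
  ⟨(b (a (b (a (l 6) (b (l 6) (a (l 6) (b (l 6) (a (l 6) (l 16009624)))))) (b (a (l 6) (a (b (l 6) (l 16237520)) (b (l 15953712) (l 16098632)))) (a (a (b (l 6) (l 15899328)) (b (l 16141880) (l 16122184))) (a (b (l 16235168) (l 16191584)) (l 16005536))))) (b (b (a (a (l 6) (b (b (l 6) (a (l 6) (l 15555440))) (b (l 15624424) (l 15657264)))) (a (b (b (a (l 15450992) (l 15381456)) (a (l 15484000) (l 15416760))) (c (l 15525072) (l 15462912))) (b (b (l 15262128) (l 15300776)) (l 15425400)))) (a (b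 (a (c (l 15883032) (l 15812880)) (l 15727832)) (a (l 15901584) (l 15770568))) (a (b (l 15580976) (l 15654368)) (b (l 15468360) (l 15550744))))) (b (a (b (a (l 15945136) (l 15824744)) (a (l 15975696) (l 15865936))) (a (b (l 15718248) (l 15769152)) (l 15403024))) (a (b (l 15946736) (l 15965888)) (a (l 15807768) (l 15756384)))))) (a (b (a (b (a (b (l 15904368) (l 15895928)) (b (l 16046768) (l 15978296))) (a (b (l 15829552) (l 15765184)) (l 15821096))) (b (a (b (l 16119824) (l 16054464)) (l 16097968)) (a (l 15964312) (l 16025336)))) (a (b (a (l 15587160) (l 15700064)) (a (l 15540176) (l 15641936))) (b (a (l 15849584) (l 15917520)) (l 15778384)))) (b (b (a (b (l 15976832) (l 15979584)) (l 15851680)) (a (l 15973560) (l 15884984))) (b (a (l 15959264) (l 2)) (l 2))))), by decide +kernel⟩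

def k1_pm_022 : ∃ t, chk3 f_pm_022 t 3 1 1 = true :=
  ⟨(b (b (a (a (b (b (a (c (l 15232784) (l 15126848)) (c (l 15124200) (l 15006400))) (a (l 15270904) (l 15165384))) (a (b (l 15364600) (l 15455744)) (b (l 15267880) (l 15367816)))) (b (a (b (a (l 14983888) (c (l 15018560) (b (l 14841128) (l 14893640)))) (b (a (l 15062888) (l 15014112)) (l 15093584))) (b (c (b (l 14910432) (l 14963648)) (b (l 14783712) (l 14838312))) (b (c (l 15019216) (l 14895288)) (a (l 15029984) (l 15000944))))) (a (b (l 15177136) (l 15286048)) (b (c (l 15161248) (l 15020016)) (a (l 15230400) (l 15203360)))))) (b (a (a (b (c (b (l 14837184) (l 14895096)) (b (l 14721032) (l 14781648))) (c (l 14985544) (l 14896952))) (b (c (b (l 14772984) (l 14835424)) (a (l 14714688) (l 14694576))) (c (l 14932600) (l 14840696)))) (a (b (c (l 14916960) (a (l 14677392) (l 14662856))) (c (l 14886616) (l 14816272))) (b (c (l 14700240) (l 14645752)) (c (l 14846064) (l 14800624))))) (a (a (b (c (l 15108240)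 (l 15003512)) (l 15179160)) (b (c (l 15064072) (l 14979016)) (l 15133024))) (a (b (c (l 15026464) (l 14964144)) (l 2)) (l 2))))) (a (b (a (b (l 15497208) (l 15570032)) (a (l 15303696) (b (l 15323344) (l 15416864)))) (a (l 15452600) (a (l 15583112) (l 2)))) (b (a (b (a (l 15291496) (l 2)) (l 2)) (l 2)) (l 2)))) (a (b (a (b (l 15756192) (l 2)) (l 2)) (l 2)) (l 2))), by decide +kernel⟩

theorem s2_pm_022 : ∃ t, chk3 f_pm_022 t 1 1 1 = true := ex3_a k0_pm_022 k1_pm_022

theorem c_pm_022 : CertB 0 536870912 1073741824 536870912 966367641 24778659 3 eng mog cd0q0 cd4q2 pd2 true true false .pp 0 2 2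
    ndB0q0 ndB4q2 pcB2 cut_pm_022 Ext.none :=
  certB0 (fam := true) (s1 := true) (s2 := false) (a := 0) (b := 2) (c := 2) (cn := .pp) (n1 := ndB0q0) (n2 := ndB4q2) (pc := pcB2) (cut := cut_pm_022) (xt := Ext.none) (P1 := 0) (W1 := 536870912) (P2 := 1073741824) (W2 := 536870912) (P3 := 966367641) (W3 := 24778659) (N0 := 3) (En := eng) (mo := mog) (C1 := cd0q0) (C2 := cd4q2) (C3 := pd2)
    rfl s2_pm_022

noncomputable def cut_pm_023 : Cut := Cut.of [[⟨3, 0, 0, 1449551462⟩]]

noncomputable def f_pm_023 : ℕ → ℕ → ℕ → ℕ → Bool := onCell 0 536870912 1610612736 536870912 966367641 24778659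
    (rowB 3 eng mog cd0q0 cd4q2 pd3 1 true true false .up 0 2 3 (qsf 0 536870912 1073741824 536870912 3) ndB0q0 ndB4q2 pcB3 cut_pm_023 Ext.none)

def k0_pm_023 : ∃ t, chk3 f_pm_023 t 2 1 1 = true :=
  ⟨(b (a (b (a (b (a (b (l 15302744) (l 15271208)) (b (l 15445280) (l 15408312))) (a (l 2) (l 15123960))) (b (a (b (l 15591208) (l 15544376)) (l 15695776)) (a (b (l 15513256) (l 15495256)) (l 15619616)))) (b (a (l 2) (a (l 2) (l 15589904))) (l 2))) (b (a (b (b (l 15868880) (l 15822776)) (b (l 15783184) (l 15750320))) (b (b (l 15992368) (l 15949120)) (a (l 15872808) (l 15918992)))) (a (b (b (l 15726752) (l 15714784)) (l 110157002055)) (b (l 15852336) (a (l 15805008) (l 15855672)))))) (a (l 2) (b (b (a (l 2) (l 15845592)) (l 2)) (l 2)))), by decide +kernel⟩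

def k1_pm_023 : ∃ t, chk3 f_pm_023 t 3 1 1 = true :=
  ⟨(b (a (b (a (b (a (l 15930832) (l 15832072)) (a (l 15951296) (l 15911712))) (b (a (l 15670184) (b (l 15359968) (l 15575232))) (a (l 15827048) (b (l 15693096) (l 15755416))))) (a (b (l 15923976) (l 15909880)) (b (a (l 15894328) (l 15823304)) (l 15907824)))) (b (b (a (b (a (c (l 15336392) (l 15388296)) (c (l 15147936) (l 15208832))) (a (l 15326552) (c (l 15280824) (l 15337344)))) (b (a (c (l 14816552) (l 15009784)) (c (b (l 14686232) (l 14765720)) (l 14654784))) (a (c (l 15091464) (l 15157536)) (c (l 14779448) (l 14958272))))) (a (b (a (l 15565976) (l 15276832)) (a (l 15645584) (l 15520408))) (b (a (c (l 15228472) (l 15289112)) (c (l 15037888) (l 15108712))) (a (l 15251360) (c (l 15179808) (l 15243360)))))) (b (a (b (a (l 15712040) (l 15604512)) (a (l 15765624) (l 15676040))) (b (a (l 15478464) (l 15187440)) (a (l 15567592) (l 15440496)))) (a (b (l 15773528) (l 15817536)) (b (l 15591032) (l 15664400))))))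 (a (b (b (a (l 15916232) (l 15945712)) (a (l 15947824) (l 15974792))) (a (l 2) (b (b (l 16008840) (l 2)) (l 2)))) (b (b (a (b (l 15855560) (l 15893104)) (b (l 15729952) (l 15788808))) (a (l 15929440) (b (l 15843512) (l 15900016)))) (a (b (b (l 16014592) (l 16060368)) (a (l 2) (b (l 16017744) (l 2)))) (b (b (l 15962216) (l 15830088)) (b (b (l 16080352) (l 16113672)) (b (l 16162840) (b (l 16194528) (l 4))))))))), by decide +kernel⟩

theorem s2_pm_023 : ∃ t, chk3 f_pm_023 t 1 1 1 = true := ex3_a k0_pm_023 k1_pm_023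

theorem c_pm_023 : CertB 0 536870912 1073741824 536870912 966367641 24778659 3 eng mog cd0q0 cd4q2 pd3 true true false .up 0 2 3
    ndB0q0 ndB4q2 pcB3 cut_pm_023 Ext.none :=
  certB1 (fam := true) (s1 := true) (s2 := false) (a := 0) (b := 2) (c := 3) (cn := .up) (n1 := ndB0q0) (n2 := ndB4q2) (pc := pcB3) (cut := cut_pm_023) (xt := Ext.none) (P1 := 0) (W1 := 536870912) (P2 := 1073741824) (W2 := 536870912) (P3 := 966367641) (W3 := 24778659) (N0 := 3) (En := eng) (mo := mog) (C1 := cd0q0) (C2 := cd4q2) (C3 := pd3)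
    rfl (fun _ => rfl) s2_pm_023

noncomputable def cut_pm_033 : Cut := Cut.of [[⟨3, 0, 0, 1449551462⟩]]

noncomputable def f_pm_033 : ℕ → ℕ → ℕ → ℕ → Bool := onCell 1610612736 536870912 0 1230186008 966367641 24778659
    (rowB 3 eng mog cd0q0 cd4q3 pd3 2 true true false .pnn 0 3 3 (qsf 0 536870912 0 1230186008 3) ndB0q0 ndB4q3 pcB3 cut_pm_033 Ext.none)

def k0_pm_033 : ∃ t, chk3 f_pm_033 t 2 1 1 = true :=
  ⟨(b (l 1) (b (a (l 1) (b (l 1) (a (l 1) (b (l 1) (a (l 1) (l 285107897095)))))) (b (a (l 1) (b (a (b (l 1) (l 313025140119)) (a (l 279739394183) (l 303361973943))) (a (b (l 14928320) (l 14972104)) (b (l 15270752) (l 15413336))))) (a (b (a (l 1) (b (l 331815826711) (l 384966227719))) (a (b (a (l 1) (l 15164312)) (a (l 15209256) (l 15329016))) (b (a (l 15290176) (l 15409760)) (a (l 15440400) (l 15541520))))) (b (a (b (l 15236352) (l 15346496)) (b (l 15439744) (l 15664624))) (a (b (a (l 15520216) (l 15618520)) (a (l 15632320) (l 15704880))) (b (l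 15731304) (l 15798688)))))))), by decide +kernel⟩

def k1_pm_033 : ∃ t, chk3 f_pm_033 t 6 1 1 = true :=
  ⟨(b (l 1) (b (b (a (l 1) (a (b (l 1) (l 15010640)) (b (l 15046848) (l 15195176)))) (a (b (a (l 14961592) (l 14778024)) (a (l 15104912) (l 15216560))) (b (a (l 14986888) (l 15382864)) (a (l 15374352) (l 15568200))))) (b (b (a (a (l 15363248) (l 15501152)) (a (l 15625952) (l 15731768))) (a (b (l 15592704) (l 15686936)) (l 15818144))) (b (a (l 15780808) (b (l 15891864) (l 15925880))) (a (b (l 15855992) (l 15900048)) (b (l 15959576) (l 15979176))))))), by decide +kernel⟩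

def k2_pm_033 : ∃ t, chk3 f_pm_033 t 7 1 1 = true :=
  ⟨(b (b (l 4) (b (a (a (l 1) (l 4)) (l 4)) (b (a (a (l 1) (l 587367564631)) (l 4)) (a (a (l 15205504) (a (l 15469000) (l 15566712))) (a (a (l 15579032) (l 4)) (l 4)))))) (a (b (b (a (b (l 15315240) (l 15409784)) (b (a (l 15491712) (l 15638152)) (a (l 15583896) (l 15703576)))) (a (b (l 15565368) (l 15714424)) (b (l 15745464) (l 15839960)))) (b (a (b (l 15828504) (l 15926864)) (b (l 15917240) (l 15989304))) (a (b (l 15994144) (l 16008152)) (b (l 16043384) (l 16053576))))) (a (b (b (a (b (l 15700208) (l 15798824)) (b (l 15762608) (l 15875360))) (a (b (l 15866952) (l 15931168)) (b (l 15946632) (l 15988296)))) (b (a (b (l 15990232) (l 16053536)) (b (l 16032408) (l 16095224))) (a (b (l 16097768) (l 16105120)) (b (l 16137864) (l 16135688))))) (b (a (b (b (l 4) (l 15919328)) (b (l 15990664) (l 16059696))) (b (l 4) (a (l 16059000) (b (l 4) (a (l 16104440) (l 16091720)))))) (a (b (b (l 16083296) (l 16135376))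 (b (l 16168544) (l 16171520))) (b (a (b (l 16127536) (l 16166088)) (b (a (l 16149648) (l 15938592)) (a (l 16180384) (b (l 16137104) (l 16197416))))) (a (b (l 16191888) (l 16200312)) (b (a (l 16206104) (l 16176488)) (a (l 16212072) (l 4)))))))))), by decide +kernel⟩

theorem s3_pm_033 : ∃ t, chk3 f_pm_033 t 3 1 1 = true := ex3_a k1_pm_033 k2_pm_033

theorem s4_pm_033 : ∃ t, chk3 f_pm_033 t 1 1 1 = true := ex3_a k0_pm_033 s3_pm_033

theorem c_pm_033 : CertB 0 536870912 0 1230186008 966367641 24778659 3 eng mog cd0q0 cd4q3 pd3 true true false .pnn 0 3 3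
    ndB0q0 ndB4q3 pcB3 cut_pm_033 Ext.none :=
  certB2 (fam := true) (s1 := true) (s2 := false) (a := 0) (b := 3) (c := 3) (cn := .pnn) (n1 := ndB0q0) (n2 := ndB4q3) (pc := pcB3) (cut := cut_pm_033) (xt := Ext.none) (P1 := 0) (W1 := 536870912) (P2 := 0) (W2 := 1230186008) (P3 := 966367641) (W3 := 24778659) (N0 := 3) (En := eng) (mo := mog) (C1 := cd0q0) (C2 := cd4q3) (C3 := pd3)
    rfl (fun _ => rfl) s4_pm_033

noncomputable def cut_pm_101 : Cut := Cut.of [[⟨3, 0, 0, 1449551462⟩]]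

noncomputable def f_pm_101 : ℕ → ℕ → ℕ → ℕ → Bool := onCell 536870912 536870912 536870912 536870912 966367641 24778659
    (rowB 3 eng mog cd0q1 cd4q0 pd1 1 true true false .npn 1 0 1 (qsf 536870912 536870912 0 536870912 1) ndB0q1 ndB4q0 pcB1 cut_pm_101 Ext.none)

def k0_pm_101 : ∃ t, chk3 f_pm_101 t 1 1 1 = true :=
  ⟨(b (a (b (l 6) (a (l 6) (b (l 6) (a (l 6) (a (l 6) (b (l 6) (l 15984472))))))) (a (b (l 1) (a (b (l 1) (a (b (l 1) (l 15910384)) (l 1))) (l 1))) (l 1))) (a (b (a (l 6) (a (b (a (l 6) (b (l 6) (l 16022696))) (a (l 16060056) (l 15968648))) (b (a (l 16082376) (l 15855680)) (a (l 15869728) (l 15762296))))) (a (b (a (l 6) (b (l 16123120) (l 16081336))) (a (b (l 16330744) (l 16201008)) (b (l 16039384) (l 15998712)))) (b (a (b (l 15963808) (l 15929696)) (a (l 15814400) (l 15717216))) (a (b (l 15896160) (l 15864848)) (b (l 15731968) (l 15711464)))))) (b (a (a (b (a (l 15780128) (l 161629745735)) (a (l 15645384) (l 15527576))) (b (a (l 273835426103)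 (l 1)) (a (l 15451672) (l 173977116071)))) (a (b (l 1) (a (b (l 1) (l 15222664)) (l 1))) (l 1))) (a (b (a (a (l 15611656) (l 15491936)) (a (l 15349080) (l 15181816))) (a (a (l 15575280) (l 15446000)) (a (l 15294592) (l 15108464)))) (a (b (a (l 15149816) (b (a (l 15018088) (l 1)) (l 14876704))) (a (l 14945424) (b (l 14748944) (l 14723128)))) (a (b (b (l 1) (a (l 14738768) (l 1))) (b (a (l 14600544) (l 14518576)) (a (l 14544080) (l 14397888)))) (b (l 1) (b (a (l 402145068535) (l 1)) (a (l 14278848) (l 14157960)))))))))), by decide +kernel⟩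

theorem c_pm_101 : CertB 536870912 536870912 0 536870912 966367641 24778659 3 eng mog cd0q1 cd4q0 pd1 true true false .npn 1 0 1
    ndB0q1 ndB4q0 pcB1 cut_pm_101 Ext.none :=
  certB1 (fam := true) (s1 := true) (s2 := false) (a := 1) (b := 0) (c := 1) (cn := .npn) (n1 := ndB0q1) (n2 := ndB4q0) (pc := pcB1) (cut := cut_pm_101) (xt := Ext.none) (P1 := 536870912) (W1 := 536870912) (P2 := 0) (W2 := 536870912) (P3 := 966367641) (W3 := 24778659) (N0 := 3) (En := eng) (mo := mog) (C1 := cd0q1) (C2 := cd4q0) (C3 := pd1)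
    rfl (fun _ => rfl) k0_pm_101

noncomputable def cut_pm_102 : Cut := Cut.of [[⟨3, 0, 0, 1449551462⟩]]

noncomputable def f_pm_102 : ℕ → ℕ → ℕ → ℕ → Bool := onCell 536870912 536870912 1073741824 536870912 966367641 24778659
    (rowB 3 eng mog cd0q1 cd4q0 pd2 1 true true false .npp 1 0 2 (qsf 536870912 536870912 0 536870912 2) ndB0q1 ndB4q0 pcB2 cut_pm_102 Ext.none)

def k0_pm_102 : ∃ t, chk3 f_pm_102 t 2 1 1 = true :=
  ⟨(b (a (b (b (a (b (a (l 16104400) (l 16050504)) (l 16039080)) (b (l 15960824) (l 15931928))) (a (a (l 2) (l 15952488)) (b (l 15898488) (l 15860760)))) (a (l 2) (b (a (l 2) (l 15772600)) (l 2)))) (b (a (b (a (l 15852880) (l 15783408)) (b (l 15779208) (l 15747072))) (b (b (a (l 15720200) (l 15638728)) (l 15657120)) (b (l 15633056) (l 15605488)))) (a (b (a (l 15721600) (l 15662128)) (a (l 2) (l 15579800))) (b (a (l 15594624) (l 15518744)) (a (l 15517576) (l 15444592)))))) (a (l 2) (b (a (l 2) (b (a (l 2) (l 15360920)) (l 2))) (l 2)))),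 by decide +kernel⟩

def k1_pm_102 : ∃ t, chk3 f_pm_102 t 3 2 1 = true :=
  ⟨(a (b (a (b (b (a (l 15550640) (l 15454760)) (l 15479368)) (b (l 15455672) (l 15429232))) (b (b (b (l 15302520) (l 15291648)) (l 15042088)) (a (l 15289672) (l 15070344)))) (a (b (b (l 15400072) (l 15368168)) (b (l 15333576) (l 15295728))) (b (a (l 15231152) (l 15120736)) (c (l 15021864) (l 15046544))))) (b (a (b (a (b (a (l 15156520) (l 15123080)) (a (l 15128696) (l 15047192))) (b (b (l 14924864) (l 14912488)) (b (l 14902000) (l 14893416)))) (a (b (a (l 15100456) (l 15019704)) (l 15035032)) (b (l 14883072) (l 14876776)))) (b (b (a (a (l 14735304) (b (l 14599160) (l 14599592))) (a (b (l 14448320) (l 14454632)) (b (l 14291584) (l 14304168)))) (a (a (l 14729448) (l 14603528)) (a (l 14467520) (b (l 14319152) (l 14336408))))) (b (a (a (l 14731504) (l 14616888)) (a (l 14493008) (l 14365224))) (a (a (l 14740672) (l 14637296)) (a (l 14525448) (l 14410584)))))) (a (b (b (a (l 15016496)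 (l 14876376)) (l 14856320)) (b (l 14940400) (l 14944464))) (b (b (a (l 14708112) (c (l 14575344) (l 14442752))) (a (l 14731376) (l 14554424))) (a (b (l 14758192) (l 14787816)) (b (l 14601872) (l 14651136))))))), by decide +kernel⟩

def k2_pm_102 : ∃ t, chk3 f_pm_102 t 3 3 1 = true :=
  ⟨(a (b (a (b (a (l 15281760) (l 15190216)) (a (l 2) (l 15112184))) (b (b (l 15085024) (l 15063888)) (a (l 15056752) (l 15025576)))) (a (l 2) (b (a (l 2) (l 14994104)) (l 2)))) (b (a (b (b (l 14951464) (l 14960280)) (b (l 14970560) (l 14981680))) (b (c (a (l 14904432) (l 14789456)) (a (l 14758752) (l 14655232))) (a (b (l 14884152) (l 14918336)) (b (l 14800176) (l 14850712))))) (a (b (b (l 14995016) (l 15010384)) (a (l 2) (l 15041808))) (b (a (b (l 14953752) (l 14990224)) (b (l 14902416) (l 14955472))) (a (b (l 15028648) (l 15067608)) (b (l 15009144) (l 15056456))))))), by decide +kernel⟩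

theorem s3_pm_102 : ∃ t, chk3 f_pm_102 t 3 1 1 = true := ex3_b k1_pm_102 k2_pm_102

theorem s4_pm_102 : ∃ t, chk3 f_pm_102 t 1 1 1 = true := ex3_a k0_pm_102 s3_pm_102

theorem c_pm_102 : CertB 536870912 536870912 0 536870912 966367641 24778659 3 eng mog cd0q1 cd4q0 pd2 true true false .npp 1 0 2
    ndB0q1 ndB4q0 pcB2 cut_pm_102 Ext.none :=
  certB1 (fam := true) (s1 := true) (s2 := false) (a := 1) (b := 0) (c := 2) (cn := .npp) (n1 := ndB0q1) (n2 := ndB4q0) (pc := pcB2) (cut := cut_pm_102) (xt := Ext.none) (P1 := 536870912) (W1 := 536870912) (P2 := 0) (W2 := 536870912) (P3 := 966367641) (W3 := 24778659) (N0 := 3) (En := eng) (mo := mog) (C1 := cd0q1) (C2 := cd4q0) (C3 := pd2)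
    rfl (fun _ => rfl) s4_pm_102

noncomputable def cut_pm_112 : Cut := Cut.of [[⟨3, 0, 0, 1449551462⟩]]

noncomputable def f_pm_112 : ℕ → ℕ → ℕ → ℕ → Bool := onCell 536870912 536870912 1073741824 536870912 966367641 24778659
    (rowB 3 eng mog cd0q1 cd4q1 pd2 1 true true false .dn 1 1 2 (qsf 536870912 536870912 536870912 536870912 2) ndB0q1 ndB4q1 pcB2 cut_pm_112 Ext.none)

def k0_pm_112 : ∃ t, chk3 f_pm_112 t 1 1 1 = true :=
  ⟨(a (b (a (b (a (b (b (l 16079520) (l 16044072)) (l 15980448)) (b (l 418791271175) (l 15884880))) (a (b (c (l 15894392) (l 15867784)) (a (l 15761288) (l 15747624))) (b (l 15801912) (a (l 15722240) (l 15685728))))) (b (a (b (l 1) (l 15766968)) (l 1)) (a (b (l 15697344) (l 15613800)) (b (l 15560768) (l 15486888))))) (a (b (a (b (a (l 15589088) (l 15600440)) (a (b (l 15433632) (l 15312352)) (b (l 15463976) (l 15362416)))) (b (a (l 15595264) (l 15576152)) (a (l 15435280) (l 15439352)))) (a (b (a (b (l 15178576) (l 15010568)) (b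 (l 15245968) (l 15117704))) (a (b (c (l 14891872) (l 14860064)) (c (l 14734304) (l 14702424))) (b (l 14976888) (l 14765200)))) (b (a (b (l 15292144) (l 15180680)) (b (l 15313704) (l 15220920))) (a (b (l 15058064) (l 14923592)) (b (l 15114544) (l 14997688)))))) (b (a (b (a (l 15542648) (l 15495448)) (a (l 15424112) (l 15392336))) (b (l 15402848) (b (l 15335864) (l 15289024)))) (a (b (a (l 15277104) (l 15266384)) (a (b (l 15146904) (l 15045696)) (l 15115424))) (b (l 15210176) (a (l 15100512) (l 15069000))))))) (b (a (b (l 1) (a (b (l 1) (l 15318680)) (l 1))) (l 1)) (a (b (a (b (l 15241416) (a (l 15202640) (l 15118752))) (b (a (l 15108488) (l 1)) (a (l 15062640) (l 15030984)))) (a (b (a (l 15115744) (l 15057840)) (a (l 15027968) (l 14989296))) (b (l 15026264) (b (l 15016904) (l 15010712))))) (b (a (b (l 1) (l 229810206135)) (l 1)) (a (b (b (l 15000352) (l 15016216)) (b (l 15033080) (l 15051552))) (b (a (l 14973040) (l 1)) (b (l 274908451543) (a (l 15070048)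 (l 15058504))))))))), by decide +kernel⟩

theorem c_pm_112 : CertB 536870912 536870912 536870912 536870912 966367641 24778659 3 eng mog cd0q1 cd4q1 pd2 true true false .dn 1 1 2
    ndB0q1 ndB4q1 pcB2 cut_pm_112 Ext.none :=
  certB1 (fam := true) (s1 := true) (s2 := false) (a := 1) (b := 1) (c := 2) (cn := .dn) (n1 := ndB0q1) (n2 := ndB4q1) (pc := pcB2) (cut := cut_pm_112) (xt := Ext.none) (P1 := 536870912) (W1 := 536870912) (P2 := 536870912) (W2 := 536870912) (P3 := 966367641) (W3 := 24778659) (N0 := 3) (En := eng) (mo := mog) (C1 := cd0q1) (C2 := cd4q1) (C3 := pd2)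
    rfl (fun _ => rfl) k0_pm_112

noncomputable def cut_pm_113 : Cut := Cut.of [[⟨3, 0, 0, 1449551462⟩]]

noncomputable def f_pm_113 : ℕ → ℕ → ℕ → ℕ → Bool := onCell 536870912 536870912 1610612736 536870912 966367641 24778659
    (rowB 3 eng mog cd0q1 cd4q1 pd3 1 true true false .nn 1 1 3 (qsf 536870912 536870912 536870912 536870912 3) ndB0q1 ndB4q1 pcB3 cut_pm_113 Ext.none)

def k0_pm_113 : ∃ t, chk3 f_pm_113 t 2 1 1 = true :=
  ⟨(b (b (a (b (a (b (a (c (b (l 14538704) (l 14456992)) (b (l 14619536) (l 14535592))) (c (b (l 14632368) (l 14554936)) (l 14675832))) (a (c (b (l 165989019079) (l 2)) (l 74183916359)) (c (b (l 14476160) (l 14394304)) (l 111764791927)))) (b (a (c (l 14689288) (l 14761784)) (c (l 14784776) (l 14841616))) (a (c (b (l 14572520) (l 14495160)) (l 14618872)) (c (l 14632112) (l 14702352))))) (a (b (a (l 2) (c (b (l 14310728) (l 2)) (l 63982925975))) (l 2)) (b (a (c (l 254572940727) (l 14293400)) (c (l 14477016) (l 14560416))) (a (c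 (l 208401660135) (l 14261472)) (c (l 265847149335) (l 14339768)))))) (b (a (b (a (l 14783704) (l 14952392)) (a (c (l 14730104) (l 14779200)) (l 14829336))) (b (a (l 15002832) (l 15037168)) (a (l 14892672) (l 15027296)))) (a (b (a (c (l 14578584) (l 14641424)) (l 14463616)) (a (c (l 14424560) (l 14500648)) (c (l 14530384) (l 14579016)))) (b (a (l 14772136) (l 14815896)) (a (c (l 14636880) (l 14647648)) (l 14718680)))))) (a (b (b (a (l 2) (a (l 2) (c (l 236318856359) (l 14223040)))) (l 2)) (l 2)) (b (a (b (a (c (l 14266248) (l 14343120)) (c (l 14378072) (l 14439536))) (a (c (l 266920436935) (l 14163200)) (c (l 14241992) (a (l 14258680) (l 14309440))))) (b (a (c (l 14489048) (l 14509192)) (l 14585488)) (a (c (l 14336464) (l 14358328)) (l 14439584)))) (a (a (l 2) (a (l 2) (b (l 412412673815) (l 2)))) (b (a (c (l 14177816) (l 14183416)) (l 14348016)) (a (l 429592347335) (l 14287736))))))) (a (l 2) (b (b (a (l 2) (b (a (l 2) (l 464488864519)) (l 2))) (l 2))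 (l 2)))), by decide +kernel⟩

def k1_pm_113 : ∃ t, chk3 f_pm_113 t 3 1 1 = true :=
  ⟨(a (b (b (b (a (c (a (l 15087192) (l 15133272)) (l 14973024)) (b (l 15271536) (l 15228072))) (a (c (a (l 14889064) (l 14970440)) (b (l 14875992) (l 14787808))) (b (l 15034200) (l 14979504)))) (b (a (b (a (l 14679968) (l 14774632)) (a (l 14549496) (l 14666296))) (b (a (l 14871232) (l 14966736)) (a (l 14786352) (l 14910224)))) (a (b (a (l 14405888) (l 14542568)) (a (l 14253400) (l 14406272))) (b (a (l 14689368) (l 14839432)) (a (l 14578096) (l 14756024)))))) (b (b (a (b (a (l 14095096) (l 14262232)) (a (l 497237977447) (l 14205080))) (b (a (l 14455424) (l 4)) (l 4))) (a (a (l 2) (l 4)) (l 4))) (l 4))) (b (b (a (b (b (l 15152872) (l 15227968)) (b (l 15259880) (a (l 15091400) (l 15149232)))) (b (b (a (l 15139272) (l 15098840)) (a (l 15153592) (l 4))) (b (a (l 15166032) (l 4)) (l 4)))) (a (b (b (a (l 15062776) (l 15138992)) (a (l 15025320) (l 4))) (b (a (l 14981304) (l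 4)) (l 4))) (l 4))) (l 4))), by decide +kernel⟩

theorem s2_pm_113 : ∃ t, chk3 f_pm_113 t 1 1 1 = true := ex3_a k0_pm_113 k1_pm_113

theorem c_pm_113 : CertB 536870912 536870912 536870912 536870912 966367641 24778659 3 eng mog cd0q1 cd4q1 pd3 true true false .nn 1 1 3
    ndB0q1 ndB4q1 pcB3 cut_pm_113 Ext.none :=
  certB1 (fam := true) (s1 := true) (s2 := false) (a := 1) (b := 1) (c := 3) (cn := .nn) (n1 := ndB0q1) (n2 := ndB4q1) (pc := pcB3) (cut := cut_pm_113) (xt := Ext.none) (P1 := 536870912) (W1 := 536870912) (P2 := 536870912) (W2 := 536870912) (P3 := 966367641) (W3 := 24778659) (N0 := 3) (En := eng) (mo := mog) (C1 := cd0q1) (C2 := cd4q1) (C3 := pd3)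
    rfl (fun _ => rfl) s2_pm_113

noncomputable def cut_pm_123 : Cut := Cut.of [[⟨3, 0, 0, 1449551462⟩]]

noncomputable def f_pm_123 : ℕ → ℕ → ℕ → ℕ → Bool := onCell 536870912 536870912 1610612736 536870912 966367641 24778659
    (rowB 3 eng mog cd0q1 cd4q2 pd3 1 true true false .npn 1 2 3 (qsf 536870912 536870912 1073741824 536870912 3) ndB0q1 ndB4q2 pcB3 cut_pm_123 Ext.none)

def k0_pm_123 : ∃ t, chk3 f_pm_123 t 2 2 1 = true :=
  ⟨(a (b (b (a (b (b (a (c (l 115993054807) (l 14545608)) (l 1)) (a (c (l 14542712) (l 14627920)) (c (l 269000969959) (l 14411016)))) (a (c (b (l 14624864) (l 14706760)) (l 14644264)) (c (b (l 14398536) (l 14482080)) (b (l 14491880) (l 14573864))))) (a (a (b (l 1) (b (l 1) (l 217998061079))) (l 1)) (l 1))) (a (b (a (c (l 14787176) (l 14908304)) (c (b (l 14566400) (l 14651160)) (l 14675592))) (a (c (l 14988088) (l 15061600)) (c (l 14778008) (l 14858752)))) (b (a (c (b (l 14339776) (l 14424632)) (l 14393408)) (c (b (l 1) (l 14202288))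 (l 245915391511))) (a (c (l 14471400) (l 14643544)) (c (l 193302466519) (l 14421304)))))) (b (a (b (a (c (l 15135832) (l 15199528)) (c (l 14943312) (l 15015472))) (a (l 15169384) (c (l 15097856) (l 15157320)))) (b (a (c (l 14731968) (l 14809552)) (c (l 14507168) (l 14590168))) (a (c (l 14904768) (l 14970600)) (c (l 14692328) (l 14761208))))) (a (b (a (l 15407112) (l 15177008)) (a (l 15508088) (l 15379400))) (b (a (l 14880448) (c (l 14874048) (l 14927896))) (a (l 15232632) (l 14935432)))))) (b (a (b (l 1) (b (l 1) (a (c (l 339867834375) (l 264168931223)) (l 1)))) (l 1)) (b (a (b (a (c (l 14299392) (l 14364296)) (c (l 355437061367) (l 14148496))) (a (c (l 14465504) (l 14537128)) (c (l 14298256) (a (l 14362688) (l 14243816))))) (a (b (l 1) (c (l 406976697271) (l 303360242295))) (l 1))) (a (b (a (c (l 14660856) (l 14714680)) (b (a (l 14464184) (l 14337816)) (l 14622232))) (a (b (l 14822112) (l 14910544)) (b (l 14590568) (l 14684528)))) (b (a (c (l 14193432)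 (l 14206040)) (c (l 13983048) (l 13956352))) (a (l 14617448) (l 14347920))))))), by decide +kernel⟩

def k1_pm_123 : ∃ t, chk3 f_pm_123 t 2 3 1 = true :=
  ⟨(a (b (b (a (b (l 15544096) (l 15632408)) (a (l 15417568) (b (l 15211848) (l 15345208)))) (a (b (l 15714752) (l 15791504)) (b (l 15525368) (l 15629896)))) (a (b (b (l 15866248) (l 15943656)) (b (b (l 15999176) (l 16052744)) (b (l 16115184) (l 4)))) (b (b (l 15727648) (a (l 15854168) (l 15791064))) (b (b (l 15927240) (l 15994032)) (l 4))))) (b (b (a (b (a (b (l 14995480) (l 15075400)) (l 14824272)) (a (l 15187584) (l 15003736))) (b (a (l 14593768) (l 14349680)) (a (l 14801912) (l 14582216)))) (a (b (a (l 15328536) (l 15175840)) (l 15149504)) (b (a (l 15003896) (l 14817888)) (a (l 15200760) (l 15053512))))) (b (a (b (a (l 15594608) (l 15496792)) (b (l 15656144) (l 15735328))) (b (a (l 15395336) (l 4)) (l 4))) (l 4)))), by decide +kernel⟩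

def k2_pm_123 : ∃ t, chk3 f_pm_123 t 3 1 1 = true :=
  ⟨(a (b (b (l 1) (b (l 1) (a (b (l 1) (a (l 401070916999) (l 1))) (l 1)))) (b (b (b (a (a (l 14112232) (l 419861390391)) (l 1)) (a (a (l 14351800) (l 14242768)) (l 4))) (a (b (a (l 14621088) (l 4)) (l 4)) (l 4))) (l 4))) (b (l 1) (l 4))), by decide +kernel⟩

theorem s3_pm_123 : ∃ t, chk3 f_pm_123 t 2 1 1 = true := ex3_b k0_pm_123 k1_pm_123

theorem s4_pm_123 : ∃ t, chk3 f_pm_123 t 1 1 1 = true := ex3_a s3_pm_123 k2_pm_123

theorem c_pm_123 : CertB 536870912 536870912 1073741824 536870912 966367641 24778659 3 eng mog cd0q1 cd4q2 pd3 true true false .npn 1 2 3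
    ndB0q1 ndB4q2 pcB3 cut_pm_123 Ext.none :=
  certB1 (fam := true) (s1 := true) (s2 := false) (a := 1) (b := 2) (c := 3) (cn := .npn) (n1 := ndB0q1) (n2 := ndB4q2) (pc := pcB3) (cut := cut_pm_123) (xt := Ext.none) (P1 := 536870912) (W1 := 536870912) (P2 := 1073741824) (W2 := 536870912) (P3 := 966367641) (W3 := 24778659) (N0 := 3) (En := eng) (mo := mog) (C1 := cd0q1) (C2 := cd4q2) (C3 := pd3)
    rfl (fun _ => rfl) s4_pm_123

noncomputable def cut_pm_133 : Cut := Cut.of [[⟨3, 0, 0, 1449551462⟩]]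

noncomputable def f_pm_133 : ℕ → ℕ → ℕ → ℕ → Bool := onCell 536870912 536870912 0 1230186008 966367641 24778659
    (rowB 3 eng mog cd0q1 cd4q3 pd3 0 true true false .dn 1 3 3 (qsf 536870912 536870912 0 1230186008 3) ndB0q1 ndB4q3 pcB3 cut_pm_133 Ext.none)

def k0_pm_133 : ∃ t, chk3 f_pm_133 t 1 1 1 = true :=
  ⟨(b (l 2) (b (l 2) (a (b (l 2) (l 4)) (l 2)))), by decide +kernel⟩

theorem c_pm_133 : CertB 536870912 536870912 0 1230186008 966367641 24778659 3 eng mog cd0q1 cd4q3 pd3 true true false .dn 1 3 3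
    ndB0q1 ndB4q3 pcB3 cut_pm_133 Ext.none :=
  certB0 (fam := true) (s1 := true) (s2 := false) (a := 1) (b := 3) (c := 3) (cn := .dn) (n1 := ndB0q1) (n2 := ndB4q3) (pc := pcB3) (cut := cut_pm_133) (xt := Ext.none) (P1 := 536870912) (W1 := 536870912) (P2 := 0) (W2 := 1230186008) (P3 := 966367641) (W3 := 24778659) (N0 := 3) (En := eng) (mo := mog) (C1 := cd0q1) (C2 := cd4q3) (C3 := pd3)
    rfl k0_pm_133

noncomputable def cut_pm_202 : Cut := Cut.of [[⟨3, 0, 0, 1449551462⟩]]

noncomputable def f_pm_202 : ℕ → ℕ → ℕ → ℕ → Bool := onCell 0 536870912 1073741824 536870912 966367641 24778659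
    (rowB 3 eng mog cd0q2 cd4q0 pd2 1 true true false .pp 2 0 2 (qsf 0 536870912 0 536870912 2) ndB0q2 ndB4q0 pcB2 cut_pm_202 Ext.none)

def k0_pm_202 : ∃ t, chk3 f_pm_202 t 1 2 1 = true :=
  ⟨(a (b (b (l 1) (l 4)) (l 4)) (b (a (b (l 1) (a (b (l 1) (a (l 4) (b (l 14502008) (l 14584992)))) (b (b (a (l 1) (l 14379632)) (a (l 14434920) (l 14441720))) (b (a (l 14506072) (l 14502504)) (l 14569504))))) (b (a (b (l 1) (a (b (l 1) (b (l 1) (l 14344672))) (a (b (l 1) (l 14332104)) (c (l 14338520) (l 14252544))))) (b (a (b (l 1) (a (l 14239800) (l 14238744))) (b (a (c (l 14247344) (l 14177688)) (c (l 14248328) (l 14177208))) (a (b (l 14229560) (l 14242272)) (b (l 14225112) (l 14234168))))) (a (b (a (b (l 14274808) (l 14290616)) (l 14271328)) (l 14307064)) (b (a (l 14258904) (l 14249136)) (l 14276872))))) (a (a (b (b (l 14382768) (l 14434032)) (l 14512504)) (b (b (l 14370088) (l 14413040)) (b (l 14458024) (l 14504208)))) (b (a (b (l 14340248) (l 14375880)) (b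 (l 14303352) (l 14331920))) (a (b (l 14413520) (l 14452440)) (b (l 14362232) (l 14393712))))))) (a (b (a (b (b (l 14688760) (l 14769944)) (l 4)) (b (b (l 14634216) (l 14697864)) (a (l 14812688) (l 14772408)))) (a (l 4) (c (b (l 14950696) (l 15067128)) (b (l 14886616) (l 15008656))))) (b (a (b (a (l 14619656) (l 14572920)) (a (l 14724824) (l 14664840))) (b (a (l 14510560) (l 14440840)) (a (l 14589104) (l 14505256)))) (a (b (a (l 14829944) (l 14757432)) (a (l 14934088) (l 14849768))) (b (a (l 14668856) (l 14571328)) (a (l 14748944) (l 14638280)))))))), by decide +kernel⟩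

def k1_pm_202 : ∃ t, chk3 f_pm_202 t 1 3 1 = true :=
  ⟨(a (l 4) (b (a (b (a (l 4) (b (b (l 15121256) (l 4)) (l 4))) (l 4)) (b (a (b (a (l 15035256) (l 14940392)) (l 15057320)) (b (l 14932544) (l 14835752))) (a (b (l 15159592) (l 15232768)) (b (l 14905464) (l 14975016))))) (a (l 4) (a (l 4) (b (b (l 15019912) (l 15101112)) (b (l 15154016) (l 4))))))), by decide +kernel⟩

theorem s2_pm_202 : ∃ t, chk3 f_pm_202 t 1 1 1 = true := ex3_b k0_pm_202 k1_pm_202

theorem c_pm_202 : CertB 0 536870912 0 536870912 966367641 24778659 3 eng mog cd0q2 cd4q0 pd2 true true false .pp 2 0 2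
    ndB0q2 ndB4q0 pcB2 cut_pm_202 Ext.none :=
  certB1 (fam := true) (s1 := true) (s2 := false) (a := 2) (b := 0) (c := 2) (cn := .pp) (n1 := ndB0q2) (n2 := ndB4q0) (pc := pcB2) (cut := cut_pm_202) (xt := Ext.none) (P1 := 0) (W1 := 536870912) (P2 := 0) (W2 := 536870912) (P3 := 966367641) (W3 := 24778659) (N0 := 3) (En := eng) (mo := mog) (C1 := cd0q2) (C2 := cd4q0) (C3 := pd2)
    rfl (fun _ => rfl) s2_pm_202

noncomputable def cut_pm_203 : Cut := Cut.of [[⟨3, 0, 0, 1449551462⟩]]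

noncomputable def f_pm_203 : ℕ → ℕ → ℕ → ℕ → Bool := onCell 0 536870912 1610612736 536870912 966367641 24778659
    (rowB 3 eng mog cd0q2 cd4q0 pd3 1 true true false .up 2 0 3 (qsf 0 536870912 0 536870912 3) ndB0q2 ndB4q0 pcB3 cut_pm_203 Ext.none)

def k0_pm_203 : ∃ t, chk3 f_pm_203 t 1 1 1 = true :=
  ⟨(a (l 4) (b (l 4) (l 2))), by decide +kernel⟩

theorem c_pm_203 : CertB 0 536870912 0 536870912 966367641 24778659 3 eng mog cd0q2 cd4q0 pd3 true true false .up 2 0 3
    ndB0q2 ndB4q0 pcB3 cut_pm_203 Ext.none :=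
  certB1 (fam := true) (s1 := true) (s2 := false) (a := 2) (b := 0) (c := 3) (cn := .up) (n1 := ndB0q2) (n2 := ndB4q0) (pc := pcB3) (cut := cut_pm_203) (xt := Ext.none) (P1 := 0) (W1 := 536870912) (P2 := 0) (W2 := 536870912) (P3 := 966367641) (W3 := 24778659) (N0 := 3) (En := eng) (mo := mog) (C1 := cd0q2) (C2 := cd4q0) (C3 := pd3)
    rfl (fun _ => rfl) k0_pm_203

noncomputable def cut_pm_213 : Cut := Cut.of [[⟨3, 0, 0, 1449551462⟩]]

noncomputable def f_pm_213 : ℕ → ℕ → ℕ → ℕ → Bool := onCell 0 536870912 536870912 536870912 966367641 24778659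
    (rowB 3 eng mog cd0q2 cd4q1 pd3 0 true true false .pnn 2 1 3 (qsf 0 536870912 536870912 536870912 3) ndB0q2 ndB4q1 pcB3 cut_pm_213 Ext.none)

def k0_pm_213 : ∃ t, chk3 f_pm_213 t 1 1 1 = true :=
  ⟨(a (l 4) (b (l 4) (l 4))), by decide +kernel⟩

theorem c_pm_213 : CertB 0 536870912 536870912 536870912 966367641 24778659 3 eng mog cd0q2 cd4q1 pd3 true true false .pnn 2 1 3
    ndB0q2 ndB4q1 pcB3 cut_pm_213 Ext.none :=
  certB0 (fam := true) (s1 := true) (s2 := false) (a := 2) (b := 1) (c := 3) (cn := .pnn) (n1 := ndB0q2) (n2 := ndB4q1) (pc := pcB3) (cut := cut_pm_213) (xt := Ext.none) (P1 := 0) (W1 := 536870912) (P2 := 536870912) (W2 := 536870912) (P3 := 966367641) (W3 := 24778659) (N0 := 3) (En := eng) (mo := mog) (C1 := cd0q2) (C2 := cd4q1) (C3 := pd3)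
    rfl k0_pm_213

noncomputable def cut_mm_001 : Cut := Cut.of [[⟨3, 0, 0, 1449551462⟩]]

noncomputable def f_mm_001 : ℕ → ℕ → ℕ → ℕ → Bool := onCell 0 536870912 0 536870912 966367641 24778659
    (rowB 3 eng mog cd0q0 cd4q0 pd1 0 true false false .up 0 0 1 (qsf 0 536870912 0 536870912 1) ndB0q0 ndB4q0 pcB1 cut_mm_001 Ext.none)

def k0_mm_001 : ∃ t, chk3 f_mm_001 t 1 1 1 = true :=
  ⟨(l 4), by decide +kernel⟩

theorem c_mm_001 : CertB 0 536870912 0 536870912 966367641 24778659 3 eng mog cd0q0 cd4q0 pd1 true false false .up 0 0 1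
    ndB0q0 ndB4q0 pcB1 cut_mm_001 Ext.none :=
  certB0 (fam := true) (s1 := false) (s2 := false) (a := 0) (b := 0) (c := 1) (cn := .up) (n1 := ndB0q0) (n2 := ndB4q0) (pc := pcB1) (cut := cut_mm_001) (xt := Ext.none) (P1 := 0) (W1 := 536870912) (P2 := 0) (W2 := 536870912) (P3 := 966367641) (W3 := 24778659) (N0 := 3) (En := eng) (mo := mog) (C1 := cd0q0) (C2 := cd4q0) (C3 := pd1)
    rfl k0_mm_001

noncomputable def cut_mm_011 : Cut := Cut.of [[⟨3, 0, 0, 1449551462⟩]]

noncomputable def f_mm_011 : ℕ → ℕ → ℕ → ℕ → Bool := onCell 0 536870912 536870912 536870912 966367641 24778659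
    (rowB 3 eng mog cd0q0 cd4q1 pd1 0 true false false .pnn 0 1 1 (qsf 0 536870912 536870912 536870912 1) ndB0q0 ndB4q1 pcB1 cut_mm_011 Ext.none)

def k0_mm_011 : ∃ t, chk3 f_mm_011 t 1 1 1 = true :=
  ⟨(l 4), by decide +kernel⟩

theorem c_mm_011 : CertB 0 536870912 536870912 536870912 966367641 24778659 3 eng mog cd0q0 cd4q1 pd1 true false false .pnn 0 1 1
    ndB0q0 ndB4q1 pcB1 cut_mm_011 Ext.none :=
  certB0 (fam := true) (s1 := false) (s2 := false) (a := 0) (b := 1) (c := 1) (cn := .pnn) (n1 := ndB0q0) (n2 := ndB4q1) (pc := pcB1) (cut := cut_mm_011) (xt := Ext.none) (P1 := 0) (W1 := 536870912) (P2 := 536870912) (W2 := 536870912) (P3 := 966367641) (W3 := 24778659) (N0 := 3) (En := eng) (mo := mog) (C1 := cd0q0) (C2 := cd4q1) (C3 := pd1)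
    rfl k0_mm_011

noncomputable def cut_mm_012 : Cut := Cut.of [[⟨3, 0, 0, 1449551462⟩]]

noncomputable def f_mm_012 : ℕ → ℕ → ℕ → ℕ → Bool := onCell 0 536870912 536870912 536870912 966367641 24778659
    (rowB 3 eng mog cd0q0 cd4q1 pd2 0 true false false .pnp 0 1 2 (qsf 0 536870912 536870912 536870912 2) ndB0q0 ndB4q1 pcB2 cut_mm_012 Ext.none)

def k0_mm_012 : ∃ t, chk3 f_mm_012 t 1 1 1 = true :=
  ⟨(l 4), by decide +kernel⟩

theorem c_mm_012 : CertB 0 536870912 536870912 536870912 966367641 24778659 3 eng mog cd0q0 cd4q1 pd2 true false false .pnp 0 1 2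
    ndB0q0 ndB4q1 pcB2 cut_mm_012 Ext.none :=
  certB0 (fam := true) (s1 := false) (s2 := false) (a := 0) (b := 1) (c := 2) (cn := .pnp) (n1 := ndB0q0) (n2 := ndB4q1) (pc := pcB2) (cut := cut_mm_012) (xt := Ext.none) (P1 := 0) (W1 := 536870912) (P2 := 536870912) (W2 := 536870912) (P3 := 966367641) (W3 := 24778659) (N0 := 3) (En := eng) (mo := mog) (C1 := cd0q0) (C2 := cd4q1) (C3 := pd2)
    rfl k0_mm_012

noncomputable def cut_mm_022 : Cut := Cut.of [[⟨3, 0, 0, 1449551462⟩]]

noncomputable def f_mm_022 : ℕ → ℕ → ℕ → ℕ → Bool := onCell 0 536870912 1073741824 536870912 966367641 24778659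
    (rowB 3 eng mog cd0q0 cd4q2 pd2 0 true false false .pp 0 2 2 (qsf 0 536870912 1073741824 536870912 2) ndB0q0 ndB4q2 pcB2 cut_mm_022 Ext.none)

def k0_mm_022 : ∃ t, chk3 f_mm_022 t 1 1 1 = true :=
  ⟨(l 4), by decide +kernel⟩

theorem c_mm_022 : CertB 0 536870912 1073741824 536870912 966367641 24778659 3 eng mog cd0q0 cd4q2 pd2 true false false .pp 0 2 2
    ndB0q0 ndB4q2 pcB2 cut_mm_022 Ext.none :=
  certB0 (fam := true) (s1 := false) (s2 := false) (a := 0) (b := 2) (c := 2) (cn := .pp) (n1 := ndB0q0) (n2 := ndB4q2) (pc := pcB2) (cut := cut_mm_022) (xt := Ext.none) (P1 := 0) (W1 := 536870912) (P2 := 1073741824) (W2 := 536870912) (P3 := 966367641) (W3 := 24778659) (N0 := 3) (En := eng) (mo := mog) (C1 := cd0q0) (C2 := cd4q2) (C3 := pd2)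
    rfl k0_mm_022

noncomputable def cut_mm_023 : Cut := Cut.of [[⟨3, 0, 0, 1449551462⟩]]

noncomputable def f_mm_023 : ℕ → ℕ → ℕ → ℕ → Bool := onCell 0 536870912 1073741824 536870912 966367641 24778659
    (rowB 3 eng mog cd0q0 cd4q2 pd3 0 true false false .up 0 2 3 (qsf 0 536870912 1073741824 536870912 3) ndB0q0 ndB4q2 pcB3 cut_mm_023 Ext.none)

def k0_mm_023 : ∃ t, chk3 f_mm_023 t 1 1 1 = true :=
  ⟨(l 4), by decide +kernel⟩

theorem c_mm_023 : CertB 0 536870912 1073741824 536870912 966367641 24778659 3 eng mog cd0q0 cd4q2 pd3 true false false .up 0 2 3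
    ndB0q0 ndB4q2 pcB3 cut_mm_023 Ext.none :=
  certB0 (fam := true) (s1 := false) (s2 := false) (a := 0) (b := 2) (c := 3) (cn := .up) (n1 := ndB0q0) (n2 := ndB4q2) (pc := pcB3) (cut := cut_mm_023) (xt := Ext.none) (P1 := 0) (W1 := 536870912) (P2 := 1073741824) (W2 := 536870912) (P3 := 966367641) (W3 := 24778659) (N0 := 3) (En := eng) (mo := mog) (C1 := cd0q0) (C2 := cd4q2) (C3 := pd3)
    rfl k0_mm_023

noncomputable def cut_mm_033 : Cut := Cut.of [[⟨3, 0, 0, 1449551462⟩]]

noncomputable def f_mm_033 : ℕ → ℕ → ℕ → ℕ → Bool := onCell 0 536870912 0 1230186008 966367641 24778659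
    (rowB 3 eng mog cd0q0 cd4q3 pd3 0 true false false .pnn 0 3 3 (qsf 0 536870912 0 1230186008 3) ndB0q0 ndB4q3 pcB3 cut_mm_033 Ext.none)

def k0_mm_033 : ∃ t, chk3 f_mm_033 t 1 1 1 = true :=
  ⟨(l 4), by decide +kernel⟩

theorem c_mm_033 : CertB 0 536870912 0 1230186008 966367641 24778659 3 eng mog cd0q0 cd4q3 pd3 true false false .pnn 0 3 3
    ndB0q0 ndB4q3 pcB3 cut_mm_033 Ext.none :=
  certB0 (fam := true) (s1 := false) (s2 := false) (a := 0) (b := 3) (c := 3) (cn := .pnn) (n1 := ndB0q0) (n2 := ndB4q3) (pc := pcB3) (cut := cut_mm_033) (xt := Ext.none) (P1 := 0) (W1 := 536870912) (P2 := 0) (W2 := 1230186008) (P3 := 966367641) (W3 := 24778659) (N0 := 3) (En := eng) (mo := mog) (C1 := cd0q0) (C2 := cd4q3) (C3 := pd3)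
    rfl k0_mm_033

noncomputable def cut_mm_101 : Cut := Cut.of [[⟨3, 0, 0, 1449551462⟩]]

noncomputable def f_mm_101 : ℕ → ℕ → ℕ → ℕ → Bool := onCell 536870912 536870912 0 536870912 966367641 24778659
    (rowB 3 eng mog cd0q1 cd4q0 pd1 0 true false false .npn 1 0 1 (qsf 536870912 536870912 0 536870912 1) ndB0q1 ndB4q0 pcB1 cut_mm_101 Ext.none)

def k0_mm_101 : ∃ t, chk3 f_mm_101 t 1 1 1 = true :=
  ⟨(l 4), by decide +kernel⟩

theorem c_mm_101 : CertB 536870912 536870912 0 536870912 966367641 24778659 3 eng mog cd0q1 cd4q0 pd1 true false false .npn 1 0 1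
    ndB0q1 ndB4q0 pcB1 cut_mm_101 Ext.none :=
  certB0 (fam := true) (s1 := false) (s2 := false) (a := 1) (b := 0) (c := 1) (cn := .npn) (n1 := ndB0q1) (n2 := ndB4q0) (pc := pcB1) (cut := cut_mm_101) (xt := Ext.none) (P1 := 536870912) (W1 := 536870912) (P2 := 0) (W2 := 536870912) (P3 := 966367641) (W3 := 24778659) (N0 := 3) (En := eng) (mo := mog) (C1 := cd0q1) (C2 := cd4q0) (C3 := pd1)
    rfl k0_mm_101

noncomputable def cut_mm_102 : Cut := Cut.of [[⟨3, 0, 0, 1449551462⟩]]

noncomputable def f_mm_102 : ℕ → ℕ → ℕ → ℕ → Bool := onCell 536870912 536870912 0 536870912 966367641 24778659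
    (rowB 3 eng mog cd0q1 cd4q0 pd2 0 true false false .npp 1 0 2 (qsf 536870912 536870912 0 536870912 2) ndB0q1 ndB4q0 pcB2 cut_mm_102 Ext.none)

def k0_mm_102 : ∃ t, chk3 f_mm_102 t 1 1 1 = true :=
  ⟨(l 4), by decide +kernel⟩

theorem c_mm_102 : CertB 536870912 536870912 0 536870912 966367641 24778659 3 eng mog cd0q1 cd4q0 pd2 true false false .npp 1 0 2
    ndB0q1 ndB4q0 pcB2 cut_mm_102 Ext.none :=
  certB0 (fam := true) (s1 := false) (s2 := false) (a := 1) (b := 0) (c := 2) (cn := .npp) (n1 := ndB0q1) (n2 := ndB4q0) (pc := pcB2) (cut := cut_mm_102) (xt := Ext.none) (P1 := 536870912) (W1 := 536870912) (P2 := 0) (W2 := 536870912) (P3 := 966367641) (W3 := 24778659) (N0 := 3) (En := eng) (mo := mog) (C1 := cd0q1) (C2 := cd4q0) (C3 := pd2)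
    rfl k0_mm_102

noncomputable def cut_mm_112 : Cut := Cut.of [[⟨3, 0, 0, 1449551462⟩]]

noncomputable def f_mm_112 : ℕ → ℕ → ℕ → ℕ → Bool := onCell 536870912 536870912 536870912 536870912 966367641 24778659
    (rowB 3 eng mog cd0q1 cd4q1 pd2 0 true false false .dn 1 1 2 (qsf 536870912 536870912 536870912 536870912 2) ndB0q1 ndB4q1 pcB2 cut_mm_112 Ext.none)

def k0_mm_112 : ∃ t, chk3 f_mm_112 t 1 1 1 = true :=
  ⟨(l 4), by decide +kernel⟩

theorem c_mm_112 : CertB 536870912 536870912 536870912 536870912 966367641 24778659 3 eng mog cd0q1 cd4q1 pd2 true false false .dn 1 1 2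
    ndB0q1 ndB4q1 pcB2 cut_mm_112 Ext.none :=
  certB0 (fam := true) (s1 := false) (s2 := false) (a := 1) (b := 1) (c := 2) (cn := .dn) (n1 := ndB0q1) (n2 := ndB4q1) (pc := pcB2) (cut := cut_mm_112) (xt := Ext.none) (P1 := 536870912) (W1 := 536870912) (P2 := 536870912) (W2 := 536870912) (P3 := 966367641) (W3 := 24778659) (N0 := 3) (En := eng) (mo := mog) (C1 := cd0q1) (C2 := cd4q1) (C3 := pd2)
    rfl k0_mm_112

noncomputable def cut_mm_113 : Cut := Cut.of [[⟨3, 0, 0, 1449551462⟩]]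

noncomputable def f_mm_113 : ℕ → ℕ → ℕ → ℕ → Bool := onCell 536870912 536870912 536870912 536870912 966367641 24778659
    (rowB 3 eng mog cd0q1 cd4q1 pd3 0 true false false .nn 1 1 3 (qsf 536870912 536870912 536870912 536870912 3) ndB0q1 ndB4q1 pcB3 cut_mm_113 Ext.none)

def k0_mm_113 : ∃ t, chk3 f_mm_113 t 1 1 1 = true :=
  ⟨(l 4), by decide +kernel⟩

theorem c_mm_113 : CertB 536870912 536870912 536870912 536870912 966367641 24778659 3 eng mog cd0q1 cd4q1 pd3 true false false .nn 1 1 3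
    ndB0q1 ndB4q1 pcB3 cut_mm_113 Ext.none :=
  certB0 (fam := true) (s1 := false) (s2 := false) (a := 1) (b := 1) (c := 3) (cn := .nn) (n1 := ndB0q1) (n2 := ndB4q1) (pc := pcB3) (cut := cut_mm_113) (xt := Ext.none) (P1 := 536870912) (W1 := 536870912) (P2 := 536870912) (W2 := 536870912) (P3 := 966367641) (W3 := 24778659) (N0 := 3) (En := eng) (mo := mog) (C1 := cd0q1) (C2 := cd4q1) (C3 := pd3)
    rfl k0_mm_113

noncomputable def cut_mm_123 : Cut := Cut.of [[⟨3, 0, 0, 1449551462⟩]]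

noncomputable def f_mm_123 : ℕ → ℕ → ℕ → ℕ → Bool := onCell 536870912 536870912 1073741824 536870912 966367641 24778659
    (rowB 3 eng mog cd0q1 cd4q2 pd3 0 true false false .npn 1 2 3 (qsf 536870912 536870912 1073741824 536870912 3) ndB0q1 ndB4q2 pcB3 cut_mm_123 Ext.none)

def k0_mm_123 : ∃ t, chk3 f_mm_123 t 1 1 1 = true :=
  ⟨(l 4), by decide +kernel⟩

theorem c_mm_123 : CertB 536870912 536870912 1073741824 536870912 966367641 24778659 3 eng mog cd0q1 cd4q2 pd3 true false false .npn 1 2 3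
    ndB0q1 ndB4q2 pcB3 cut_mm_123 Ext.none :=
  certB0 (fam := true) (s1 := false) (s2 := false) (a := 1) (b := 2) (c := 3) (cn := .npn) (n1 := ndB0q1) (n2 := ndB4q2) (pc := pcB3) (cut := cut_mm_123) (xt := Ext.none) (P1 := 536870912) (W1 := 536870912) (P2 := 1073741824) (W2 := 536870912) (P3 := 966367641) (W3 := 24778659) (N0 := 3) (En := eng) (mo := mog) (C1 := cd0q1) (C2 := cd4q2) (C3 := pd3)
    rfl k0_mm_123

noncomputable def cut_mm_133 : Cut := Cut.of [[⟨3, 0, 0, 1449551462⟩]]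

noncomputable def f_mm_133 : ℕ → ℕ → ℕ → ℕ → Bool := onCell 536870912 536870912 0 1230186008 966367641 24778659
    (rowB 3 eng mog cd0q1 cd4q3 pd3 0 true false false .dn 1 3 3 (qsf 536870912 536870912 0 1230186008 3) ndB0q1 ndB4q3 pcB3 cut_mm_133 Ext.none)

def k0_mm_133 : ∃ t, chk3 f_mm_133 t 1 1 1 = true :=
  ⟨(l 4), by decide +kernel⟩

theorem c_mm_133 : CertB 536870912 536870912 0 1230186008 966367641 24778659 3 eng mog cd0q1 cd4q3 pd3 true false false .dn 1 3 3
    ndB0q1 ndB4q3 pcB3 cut_mm_133 Ext.none :=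
  certB0 (fam := true) (s1 := false) (s2 := false) (a := 1) (b := 3) (c := 3) (cn := .dn) (n1 := ndB0q1) (n2 := ndB4q3) (pc := pcB3) (cut := cut_mm_133) (xt := Ext.none) (P1 := 536870912) (W1 := 536870912) (P2 := 0) (W2 := 1230186008) (P3 := 966367641) (W3 := 24778659) (N0 := 3) (En := eng) (mo := mog) (C1 := cd0q1) (C2 := cd4q3) (C3 := pd3)
    rfl k0_mm_133

noncomputable def cut_mm_202 : Cut := Cut.of [[⟨3, 0, 0, 1449551462⟩]]

noncomputable def f_mm_202 : ℕ → ℕ → ℕ → ℕ → Bool := onCell 0 536870912 0 536870912 966367641 24778659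
    (rowB 3 eng mog cd0q2 cd4q0 pd2 0 true false false .pp 2 0 2 (qsf 0 536870912 0 536870912 2) ndB0q2 ndB4q0 pcB2 cut_mm_202 Ext.none)

def k0_mm_202 : ∃ t, chk3 f_mm_202 t 1 1 1 = true :=
  ⟨(l 4), by decide +kernel⟩

theorem c_mm_202 : CertB 0 536870912 0 536870912 966367641 24778659 3 eng mog cd0q2 cd4q0 pd2 true false false .pp 2 0 2
    ndB0q2 ndB4q0 pcB2 cut_mm_202 Ext.none :=
  certB0 (fam := true) (s1 := false) (s2 := false) (a := 2) (b := 0) (c := 2) (cn := .pp) (n1 := ndB0q2) (n2 := ndB4q0) (pc := pcB2) (cut := cut_mm_202) (xt := Ext.none) (P1 := 0) (W1 := 536870912) (P2 := 0) (W2 := 536870912) (P3 := 966367641) (W3 := 24778659) (N0 := 3) (En := eng) (mo := mog) (C1 := cd0q2) (C2 := cd4q0) (C3 := pd2)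
    rfl k0_mm_202

noncomputable def cut_mm_203 : Cut := Cut.of [[⟨3, 0, 0, 1449551462⟩]]

noncomputable def f_mm_203 : ℕ → ℕ → ℕ → ℕ → Bool := onCell 0 536870912 0 536870912 966367641 24778659
    (rowB 3 eng mog cd0q2 cd4q0 pd3 0 true false false .up 2 0 3 (qsf 0 536870912 0 536870912 3) ndB0q2 ndB4q0 pcB3 cut_mm_203 Ext.none)

def k0_mm_203 : ∃ t, chk3 f_mm_203 t 1 1 1 = true :=
  ⟨(l 4), by decide +kernel⟩

theorem c_mm_203 : CertB 0 536870912 0 536870912 966367641 24778659 3 eng mog cd0q2 cd4q0 pd3 true false false .up 2 0 3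
    ndB0q2 ndB4q0 pcB3 cut_mm_203 Ext.none :=
  certB0 (fam := true) (s1 := false) (s2 := false) (a := 2) (b := 0) (c := 3) (cn := .up) (n1 := ndB0q2) (n2 := ndB4q0) (pc := pcB3) (cut := cut_mm_203) (xt := Ext.none) (P1 := 0) (W1 := 536870912) (P2 := 0) (W2 := 536870912) (P3 := 966367641) (W3 := 24778659) (N0 := 3) (En := eng) (mo := mog) (C1 := cd0q2) (C2 := cd4q0) (C3 := pd3)
    rfl k0_mm_203

noncomputable def cut_mm_213 : Cut := Cut.of [[⟨3, 0, 0, 1449551462⟩]]

noncomputable def f_mm_213 : ℕ → ℕ → ℕ → ℕ → Bool := onCell 0 536870912 536870912 536870912 966367641 24778659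
    (rowB 3 eng mog cd0q2 cd4q1 pd3 0 true false false .pnn 2 1 3 (qsf 0 536870912 536870912 536870912 3) ndB0q2 ndB4q1 pcB3 cut_mm_213 Ext.none)

def k0_mm_213 : ∃ t, chk3 f_mm_213 t 1 1 1 = true :=
  ⟨(l 4), by decide +kernel⟩

theorem c_mm_213 : CertB 0 536870912 536870912 536870912 966367641 24778659 3 eng mog cd0q2 cd4q1 pd3 true false false .pnn 2 1 3
    ndB0q2 ndB4q1 pcB3 cut_mm_213 Ext.none :=
  certB0 (fam := true) (s1 := false) (s2 := false) (a := 2) (b := 1) (c := 3) (cn := .pnn) (n1 := ndB0q2) (n2 := ndB4q1) (pc := pcB3) (cut := cut_mm_213) (xt := Ext.none) (P1 := 0) (W1 := 536870912) (P2 := 536870912) (W2 := 536870912) (P3 := 966367641) (W3 := 24778659) (N0 := 3) (En := eng) (mo := mog) (C1 := cd0q2) (C2 := cd4q1) (C3 := pd3)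
    rfl k0_mm_213

end Pool.Agent.Strip051.G.I9000_9231.Tab.C.BA04

namespace Pool.Agent.Strip051.G.I9000_9231.Tab.C.BA11

open Pool.Agent.Strip051.PB Pool.Agent.Strip051.PB.T
open Pool.Agent.Strip051.G.I9000_9231.Tab

noncomputable def f_pp_001 : ℕ → ℕ → ℕ → ℕ → Bool := onCell 0 536870912 0 536870912 966367641 24778659
    (rowB 3 eng mog cd1q0 cd1q0 pd1 0 true true true .up 0 0 1 (qsf 0 536870912 0 536870912 1) ndB1q0 ndB1q0 pcB1 Cut.none Ext.none)

def k0_pp_001 : ∃ t, chk3 f_pp_001 t 1 1 1 = true :=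
  ⟨(l 4), by decide +kernel⟩

theorem c_pp_001 : CertB 0 536870912 0 536870912 966367641 24778659 3 eng mog cd1q0 cd1q0 pd1 true true true .up 0 0 1
    ndB1q0 ndB1q0 pcB1 Cut.none Ext.none :=
  certB0 (fam := true) (s1 := true) (s2 := true) (a := 0) (b := 0) (c := 1) (cn := .up) (n1 := ndB1q0) (n2 := ndB1q0) (pc := pcB1) (cut := Cut.none) (xt := Ext.none) (P1 := 0) (W1 := 536870912) (P2 := 0) (W2 := 536870912) (P3 := 966367641) (W3 := 24778659) (N0 := 3) (En := eng) (mo := mog) (C1 := cd1q0) (C2 := cd1q0) (C3 := pd1)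
    rfl k0_pp_001

noncomputable def f_pp_011 : ℕ → ℕ → ℕ → ℕ → Bool := onCell 0 536870912 536870912 536870912 966367641 24778659
    (rowB 3 eng mog cd1q0 cd1q1 pd1 0 true true true .pnn 0 1 1 (qsf 0 536870912 536870912 536870912 1) ndB1q0 ndB1q1 pcB1 Cut.none Ext.none)

def k0_pp_011 : ∃ t, chk3 f_pp_011 t 1 1 1 = true :=
  ⟨(l 4), by decide +kernel⟩

theorem c_pp_011 : CertB 0 536870912 536870912 536870912 966367641 24778659 3 eng mog cd1q0 cd1q1 pd1 true true true .pnn 0 1 1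
    ndB1q0 ndB1q1 pcB1 Cut.none Ext.none :=
  certB0 (fam := true) (s1 := true) (s2 := true) (a := 0) (b := 1) (c := 1) (cn := .pnn) (n1 := ndB1q0) (n2 := ndB1q1) (pc := pcB1) (cut := Cut.none) (xt := Ext.none) (P1 := 0) (W1 := 536870912) (P2 := 536870912) (W2 := 536870912) (P3 := 966367641) (W3 := 24778659) (N0 := 3) (En := eng) (mo := mog) (C1 := cd1q0) (C2 := cd1q1) (C3 := pd1)
    rfl k0_pp_011

noncomputable def f_pp_012 : ℕ → ℕ → ℕ → ℕ → Bool := onCell 0 536870912 536870912 536870912 966367641 24778659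
    (rowB 3 eng mog cd1q0 cd1q1 pd2 0 true true true .pnp 0 1 2 (qsf 0 536870912 536870912 536870912 2) ndB1q0 ndB1q1 pcB2 Cut.none Ext.none)

def k0_pp_012 : ∃ t, chk3 f_pp_012 t 1 1 1 = true :=
  ⟨(l 4), by decide +kernel⟩

theorem c_pp_012 : CertB 0 536870912 536870912 536870912 966367641 24778659 3 eng mog cd1q0 cd1q1 pd2 true true true .pnp 0 1 2
    ndB1q0 ndB1q1 pcB2 Cut.none Ext.none :=
  certB0 (fam := true) (s1 := true) (s2 := true) (a := 0) (b := 1) (c := 2) (cn := .pnp) (n1 := ndB1q0) (n2 := ndB1q1) (pc := pcB2) (cut := Cut.none) (xt := Ext.none) (P1 := 0) (W1 := 536870912) (P2 := 536870912) (W2 := 536870912) (P3 := 966367641) (W3 := 24778659) (N0 := 3) (En := eng) (mo := mog) (C1 := cd1q0) (C2 := cd1q1) (C3 := pd2)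
    rfl k0_pp_012

noncomputable def cut_pp_022_a : Cut := Cut.of [[⟨0, 0, 0, 67108864⟩, ⟨1, 1, 0, 67108864⟩, ⟨2, 1, 0, 67108864⟩]]

noncomputable def f_pp_022_a : ℕ → ℕ → ℕ → ℕ → Bool := onCell 0 536870912 0 536870912 966367641 24778659
    (rowB 3 eng mog cd1q0 cd1q2a pd2 0 true true true .pp 0 2 2 (qsf 0 536870912 0 536870912 2) ndB1q0 ndB1q2a pcB2 cut_pp_022_a Ext.none)

def k0_pp_022_a : ∃ t, chk3 f_pp_022_a t 2 2 1 = true :=
  ⟨(a (a (b (a (a (c (b (a (l 16212240) (l 16256072)) (b (l 16191664) (a (l 16254520) (l 16275256)))) (b (l 16249272) (a (l 16287864) (l 16345752)))) (b (a (l 16170624) (l 16210328)) (c (a (l 16290320) (l 16309704)) (l 16304728)))) (b (a (c (l 16334608) (l 16411856)) (l 16229984)) (c (a (l 16301120) (l 16385272)) (a (l 16408408) (l 16451776))))) (a (b (c (a (b (a (l 16268576) (l 16288568)) (a (l 16286344) (l 16305680))) (b (l 16295960) (l 16291224))) (a (b (l 16285552) (l 16276168)) (b (l 16375560) (l 16364680)))) (a (c (b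 (a (l 16266424) (l 16327064)) (a (c (l 16322064) (l 16348496)) (l 16353160))) (b (a (l 16369104) (l 16381920)) (a (l 16369048) (l 16401856)))) (c (b (a (l 16344768) (l 16362080)) (a (l 16370328) (l 16386984))) (b (l 16336768) (a (l 16412864) (l 16423864)))))) (b (c (a (b (l 16357736) (l 16372824)) (l 16363096)) (a (c (l 16404744) (l 16411328)) (l 16458824))) (a (c (b (l 16392304) (l 16395368)) (b (l 16414824) (l 16411168))) (c (b (l 16430312) (l 16453704)) (b (l 16453544) (l 16470456))))))) (b (c (a (b (l 16357592) (a (l 16424064) (l 16459880))) (b (l 16513144) (l 16445904))) (a (b (l 16520824) (l 16403448)) (b (l 16528032) (l 16444024)))) (a (b (a (c (l 16420344) (l 16494608)) (c (l 16474120) (l 16526208))) (a (c (b (l 16464616) (l 16483736)) (b (l 16508496) (l 16523088))) (b (l 65732282135) (l 4)))) (b (a (c (l 16502984) (l 16555672)) (l 4)) (l 4))))) (a (b (a (b (c (l 16576728) (l 16542696)) (a (c (l 16553896) (l 16581656)) (l 4))) (b (a (l 16544384)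 (l 4)) (l 4))) (l 4)) (l 4))), by decide +kernel⟩

def k1_pp_022_a : ∃ t, chk3 f_pp_022_a t 4 6 1 = true :=
  ⟨(a (a (b (a (c (b (a (c (l 16355480) (l 16379136)) (l 16342792)) (a (b (l 16394760) (l 16394160)) (b (l 16412064) (l 16432360)))) (b (a (l 16353376) (l 16406488)) (a (b (l 16439632) (l 16457224)) (l 16396280)))) (c (b (a (l 16401232) (l 16417288)) (a (l 16417344) (l 16453824))) (b (a (l 16437488) (l 16447656)) (a (l 16447648) (l 16478000))))) (a (b (c (a (b (l 16395104) (c (l 16451824) (l 16469456))) (b (l 16454272) (l 16477840))) (a (b (l 16476416) (l 16476120)) (b (l 16487096) (l 16507992)))) (c (a (b (c (l 16477640) (l 16493856)) (c (l 16505136) (l 16519816))) (b (l 16503112) (l 16509120))) (a (b (l 16477336) (l 16479912)) (b (l 16530512) (l 16533672))))) (b (c (a (b (l 16470208) (l 16493768)) (l 16455256)) (a (l 16443792) (l 16473648))) (c (a (b (l 16519104) (l 16546240)) (b (l 16534232) (l 16560048))) (a (b (l 16539856) (l 16564344)) (b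 (l 16548600) (l 16572072))))))) (b (a (c (b (l 16404160) (a (l 16472224) (l 16490424))) (b (l 16413448) (a (l 16495624) (l 16514408)))) (b (c (l 16438656) (l 16449552)) (a (a (l 16430104) (l 16457104)) (l 4)))) (a (a (b (c (l 16472432) (l 16489952)) (c (l 104924112903) (b (l 16561280) (l 16579936)))) (b (c (l 16505624) (l 16503536)) (l 4))) (l 4)))) (b (a (a (b (c (l 16503936) (l 16540312)) (l 4)) (l 4)) (l 4)) (l 4))), by decide +kernel⟩

def k2_pp_022_a : ∃ t, chk3 f_pp_022_a t 4 7 1 = true :=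
  ⟨(a (a (a (b (b (a (c (b (b (l 16512464) (l 16527016)) (b (l 16520976) (l 16525792))) (b (c (l 16560824) (l 16574784)) (a (l 16548440) (l 16576568)))) (c (b (l 16516848) (c (l 16584848) (l 16593568))) (b (l 16559256) (c (l 16602616) (l 16611976))))) (b (b (a (c (a (l 6) (l 16598816)) (l 16572672)) (c (l 16591968) (l 16607440))) (a (l 6) (c (l 16608352) (l 16622040)))) (b (a (l 6) (c (l 16603880) (l 16615776))) (l 6)))) (l 6)) (b (b (c (a (b (l 16575200) (a (l 16601912) (l 16607664))) (b (l 16584792) (l 16608176))) (a (b (l 16590552) (l 16574920)) (b (l 16573704) (l 16594976)))) (a (a (b (c (l 16611248) (l 16621800)) (c (l 16638400) (l 16645680))) (b (c (l 16633352) (l 16641440)) (l 4))) (l 4))) (l 4))) (l 4)) (l 4)), by decide +kernel⟩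

def k3_pp_022_a : ∃ t, chk3 f_pp_022_a t 5 3 1 = true :=
  ⟨(l 4), by decide +kernel⟩

def k4_pp_022_a : ∃ t, chk3 f_pp_022_a t 3 1 1 = true :=
  ⟨(l 4), by decide +kernel⟩

theorem s5_pp_022_a : ∃ t, chk3 f_pp_022_a t 4 3 1 = true := ex3_b k1_pp_022_a k2_pp_022_a

theorem s6_pp_022_a : ∃ t, chk3 f_pp_022_a t 2 3 1 = true := ex3_a s5_pp_022_a k3_pp_022_a

theorem s7_pp_022_a : ∃ t, chk3 f_pp_022_a t 2 1 1 = true := ex3_b k0_pp_022_a s6_pp_022_a

theorem s8_pp_022_a : ∃ t, chk3 f_pp_022_a t 1 1 1 = true := ex3_a s7_pp_022_a k4_pp_022_a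

theorem c_pp_022_a : CertB 0 536870912 0 536870912 966367641 24778659 3 eng mog cd1q0 cd1q2a pd2 true true true .pp 0 2 2
    ndB1q0 ndB1q2a pcB2 cut_pp_022_a Ext.none :=
  certB0 (fam := true) (s1 := true) (s2 := true) (a := 0) (b := 2) (c := 2) (cn := .pp) (n1 := ndB1q0) (n2 := ndB1q2a) (pc := pcB2) (cut := cut_pp_022_a) (xt := Ext.none) (P1 := 0) (W1 := 536870912) (P2 := 0) (W2 := 536870912) (P3 := 966367641) (W3 := 24778659) (N0 := 3) (En := eng) (mo := mog) (C1 := cd1q0) (C2 := cd1q2a) (C3 := pd2)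
    rfl s8_pp_022_a

noncomputable def cut_pp_022_b : Cut := Cut.of [[⟨0, 0, 0, 67108864⟩, ⟨1, 1, 0, 67108864⟩, ⟨2, 1, 0, 67108864⟩]]

noncomputable def f_pp_022_b : ℕ → ℕ → ℕ → ℕ → Bool := onCell 0 536870912 1073741824 536870912 966367641 24778659
    (rowB 3 eng mog cd1q0 cd1q2b pd2 1 true true true .pp 0 2 2 (qsf 0 536870912 1239849684 370763052 2) ndB1q0 ndB1q2b pcB2 cut_pp_022_b Ext.none)

def k0_pp_022_b : ∃ t, chk3 f_pp_022_b t 1 1 1 = true :=
  ⟨(b (b (l 1) (a (a (b (a (b (b (l 1) (a (a (b (l 1) (l 213169977815)) (l 1)) (l 1))) (a (c (b (a (l 16174864) (l 16313224)) (a (l 16209344) (l 16283080))) (b (a (l 16289432) (l 16350696)) (l 16211888))) (b (l 1) (a (l 16256376) (l 1))))) (l 1)) (a (b (a (c (b (l 16110544) (l 16120272)) (c (l 16187528) (l 16311248))) (c (b (l 16288288) (l 16274104)) (l 16229816))) (a (c (b (l 16128800) (l 16115368)) (c (l 16185784) (l 16258688))) (c (l 16114760) (l 16306152)))) (b (a (b (l 1) (l 16310808)) (l 1)) (a (b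 (l 16293360) (l 16295592)) (a (l 253972619799) (l 1)))))) (l 1)) (l 1))) (b (a (a (b (a (b (c (a (l 15957632) (l 16123464)) (a (l 16159912) (l 16290640))) (c (b (l 15953936) (l 15958592)) (a (l 16080048) (l 16205616)))) (b (a (c (l 16361672) (l 16443824)) (c (l 16515216) (l 16505336))) (a (c (l 16218856) (l 16354232)) (c (l 16432096) (l 16488120))))) (a (b (c (l 15775528) (a (l 15972032) (l 16093064))) (c (l 15800736) (l 15768880))) (b (c (l 16275192) (l 16332352)) (c (l 16191680) (a (l 16114768) (l 16305672)))))) (b (a (b (a (l 333429531015) (l 1)) (b (l 321081543159) (a (l 16553760) (l 16512144)))) (l 1)) (a (c (b (a (l 16494832) (l 16600488)) (l 16486680)) (b (a (l 16516888) (l 16541064)) (l 30298918951))) (l 4)))) (l 1)) (a (a (b (a (b (a (l 15670808) (l 15731392)) (a (l 15491904) (l 15559520))) (b (c (l 15901432) (l 16098888)) (l 4))) (a (b (c (l 15580296) (l 15434272)) (l 4)) (l 4))) (l 4)) (l 4)))), by decide +kernel⟩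

theorem c_pp_022_b : CertB 0 536870912 1239849684 370763052 966367641 24778659 3 eng mog cd1q0 cd1q2b pd2 true true true .pp 0 2 2
    ndB1q0 ndB1q2b pcB2 cut_pp_022_b Ext.none :=
  certB1 (fam := true) (s1 := true) (s2 := true) (a := 0) (b := 2) (c := 2) (cn := .pp) (n1 := ndB1q0) (n2 := ndB1q2b) (pc := pcB2) (cut := cut_pp_022_b) (xt := Ext.none) (P1 := 0) (W1 := 536870912) (P2 := 1239849684) (W2 := 370763052) (P3 := 966367641) (W3 := 24778659) (N0 := 3) (En := eng) (mo := mog) (C1 := cd1q0) (C2 := cd1q2b) (C3 := pd2)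
    rfl (fun _ => rfl) k0_pp_022_b

noncomputable def f_pp_023_a : ℕ → ℕ → ℕ → ℕ → Bool := onCell 1610612736 536870912 0 536870912 966367641 24778659
    (rowB 3 eng mog cd1q0 cd1q2a pd3 2 true true true .up 0 2 3 (qsf 0 536870912 0 536870912 3) ndB1q0 ndB1q2a pcB3 Cut.none Ext.none)

def k0_pp_023_a : ∃ t, chk3 f_pp_023_a t 1 1 1 = true :=
  ⟨(l 4), by decide +kernel⟩

theorem c_pp_023_a : CertB 0 536870912 0 536870912 966367641 24778659 3 eng mog cd1q0 cd1q2a pd3 true true true .up 0 2 3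
    ndB1q0 ndB1q2a pcB3 Cut.none Ext.none :=
  certB2 (fam := true) (s1 := true) (s2 := true) (a := 0) (b := 2) (c := 3) (cn := .up) (n1 := ndB1q0) (n2 := ndB1q2a) (pc := pcB3) (cut := Cut.none) (xt := Ext.none) (P1 := 0) (W1 := 536870912) (P2 := 0) (W2 := 536870912) (P3 := 966367641) (W3 := 24778659) (N0 := 3) (En := eng) (mo := mog) (C1 := cd1q0) (C2 := cd1q2a) (C3 := pd3)
    rfl (fun _ => rfl) k0_pp_023_a

noncomputable def f_pp_023_b : ℕ → ℕ → ℕ → ℕ → Bool := onCell 1610612736 536870912 1239849684 370763052 966367641 24778659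
    (rowB 3 eng mog cd1q0 cd1q2b pd3 2 true true true .up 0 2 3 (qsf 0 536870912 1239849684 370763052 3) ndB1q0 ndB1q2b pcB3 Cut.none Ext.none)

def k0_pp_023_b : ∃ t, chk3 f_pp_023_b t 1 1 1 = true :=
  ⟨(a (l 4) (l 4)), by decide +kernel⟩

theorem c_pp_023_b : CertB 0 536870912 1239849684 370763052 966367641 24778659 3 eng mog cd1q0 cd1q2b pd3 true true true .up 0 2 3
    ndB1q0 ndB1q2b pcB3 Cut.none Ext.none :=
  certB2 (fam := true) (s1 := true) (s2 := true) (a := 0) (b := 2) (c := 3) (cn := .up) (n1 := ndB1q0) (n2 := ndB1q2b) (pc := pcB3) (cut := Cut.none) (xt := Ext.none) (P1 := 0) (W1 := 536870912) (P2 := 1239849684) (W2 := 370763052) (P3 := 966367641) (W3 := 24778659) (N0 := 3) (En := eng) (mo := mog) (C1 := cd1q0) (C2 := cd1q2b) (C3 := pd3)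
    rfl (fun _ => rfl) k0_pp_023_b

noncomputable def f_pp_033 : ℕ → ℕ → ℕ → ℕ → Bool := onCell 0 536870912 1610612736 536870912 966367641 24778659
    (rowB 3 eng mog cd1q0 cd1q3 pd3 0 true true true .pnn 0 3 3 (qsf 0 536870912 1610612736 536870912 3) ndB1q0 ndB1q3 pcB3 Cut.none Ext.none)

def k0_pp_033 : ∃ t, chk3 f_pp_033 t 1 1 1 = true :=
  ⟨(a (b (l 4) (l 4)) (l 4)), by decide +kernel⟩

theorem c_pp_033 : CertB 0 536870912 1610612736 536870912 966367641 24778659 3 eng mog cd1q0 cd1q3 pd3 true true true .pnn 0 3 3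
    ndB1q0 ndB1q3 pcB3 Cut.none Ext.none :=
  certB0 (fam := true) (s1 := true) (s2 := true) (a := 0) (b := 3) (c := 3) (cn := .pnn) (n1 := ndB1q0) (n2 := ndB1q3) (pc := pcB3) (cut := Cut.none) (xt := Ext.none) (P1 := 0) (W1 := 536870912) (P2 := 1610612736) (W2 := 536870912) (P3 := 966367641) (W3 := 24778659) (N0 := 3) (En := eng) (mo := mog) (C1 := cd1q0) (C2 := cd1q3) (C3 := pd3)
    rfl k0_pp_033

noncomputable def f_pp_101 : ℕ → ℕ → ℕ → ℕ → Bool := onCell 536870912 536870912 0 536870912 966367641 24778659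
    (rowB 3 eng mog cd1q1 cd1q0 pd1 0 true true true .npn 1 0 1 (qsf 536870912 536870912 0 536870912 1) ndB1q1 ndB1q0 pcB1 Cut.none Ext.none)

def k0_pp_101 : ∃ t, chk3 f_pp_101 t 1 1 1 = true :=
  ⟨(l 4), by decide +kernel⟩

theorem c_pp_101 : CertB 536870912 536870912 0 536870912 966367641 24778659 3 eng mog cd1q1 cd1q0 pd1 true true true .npn 1 0 1
    ndB1q1 ndB1q0 pcB1 Cut.none Ext.none :=
  certB0 (fam := true) (s1 := true) (s2 := true) (a := 1) (b := 0) (c := 1) (cn := .npn) (n1 := ndB1q1) (n2 := ndB1q0) (pc := pcB1) (cut := Cut.none) (xt := Ext.none) (P1 := 536870912) (W1 := 536870912) (P2 := 0) (W2 := 536870912) (P3 := 966367641) (W3 := 24778659) (N0 := 3) (En := eng) (mo := mog) (C1 := cd1q1) (C2 := cd1q0) (C3 := pd1)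
    rfl k0_pp_101

noncomputable def f_pp_102 : ℕ → ℕ → ℕ → ℕ → Bool := onCell 536870912 536870912 0 536870912 966367641 24778659
    (rowB 3 eng mog cd1q1 cd1q0 pd2 0 true true true .npp 1 0 2 (qsf 536870912 536870912 0 536870912 2) ndB1q1 ndB1q0 pcB2 Cut.none Ext.none)

def k0_pp_102 : ∃ t, chk3 f_pp_102 t 1 1 1 = true :=
  ⟨(l 4), by decide +kernel⟩

theorem c_pp_102 : CertB 536870912 536870912 0 536870912 966367641 24778659 3 eng mog cd1q1 cd1q0 pd2 true true true .npp 1 0 2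
    ndB1q1 ndB1q0 pcB2 Cut.none Ext.none :=
  certB0 (fam := true) (s1 := true) (s2 := true) (a := 1) (b := 0) (c := 2) (cn := .npp) (n1 := ndB1q1) (n2 := ndB1q0) (pc := pcB2) (cut := Cut.none) (xt := Ext.none) (P1 := 536870912) (W1 := 536870912) (P2 := 0) (W2 := 536870912) (P3 := 966367641) (W3 := 24778659) (N0 := 3) (En := eng) (mo := mog) (C1 := cd1q1) (C2 := cd1q0) (C3 := pd2)
    rfl k0_pp_102

noncomputable def f_pp_112 : ℕ → ℕ → ℕ → ℕ → Bool := onCell 536870912 536870912 536870912 536870912 966367641 24778659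
    (rowB 3 eng mog cd1q1 cd1q1 pd2 0 true true true .dn 1 1 2 (qsf 536870912 536870912 536870912 536870912 2) ndB1q1 ndB1q1 pcB2 Cut.none Ext.none)

def k0_pp_112 : ∃ t, chk3 f_pp_112 t 1 1 1 = true :=
  ⟨(l 4), by decide +kernel⟩

theorem c_pp_112 : CertB 536870912 536870912 536870912 536870912 966367641 24778659 3 eng mog cd1q1 cd1q1 pd2 true true true .dn 1 1 2
    ndB1q1 ndB1q1 pcB2 Cut.none Ext.none :=
  certB0 (fam := true) (s1 := true) (s2 := true) (a := 1) (b := 1) (c := 2) (cn := .dn) (n1 := ndB1q1) (n2 := ndB1q1) (pc := pcB2) (cut := Cut.none) (xt := Ext.none) (P1 := 536870912) (W1 := 536870912) (P2 := 536870912) (W2 := 536870912) (P3 := 966367641) (W3 := 24778659) (N0 := 3) (En := eng) (mo := mog) (C1 := cd1q1) (C2 := cd1q1) (C3 := pd2)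
    rfl k0_pp_112

noncomputable def f_pp_113 : ℕ → ℕ → ℕ → ℕ → Bool := onCell 536870912 536870912 536870912 536870912 966367641 24778659
    (rowB 3 eng mog cd1q1 cd1q1 pd3 0 true true true .nn 1 1 3 (qsf 536870912 536870912 536870912 536870912 3) ndB1q1 ndB1q1 pcB3 Cut.none Ext.none)

def k0_pp_113 : ∃ t, chk3 f_pp_113 t 1 1 1 = true :=
  ⟨(l 4), by decide +kernel⟩

theorem c_pp_113 : CertB 536870912 536870912 536870912 536870912 966367641 24778659 3 eng mog cd1q1 cd1q1 pd3 true true true .nn 1 1 3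
    ndB1q1 ndB1q1 pcB3 Cut.none Ext.none :=
  certB0 (fam := true) (s1 := true) (s2 := true) (a := 1) (b := 1) (c := 3) (cn := .nn) (n1 := ndB1q1) (n2 := ndB1q1) (pc := pcB3) (cut := Cut.none) (xt := Ext.none) (P1 := 536870912) (W1 := 536870912) (P2 := 536870912) (W2 := 536870912) (P3 := 966367641) (W3 := 24778659) (N0 := 3) (En := eng) (mo := mog) (C1 := cd1q1) (C2 := cd1q1) (C3 := pd3)
    rfl k0_pp_113

noncomputable def f_pp_123_a : ℕ → ℕ → ℕ → ℕ → Bool := onCell 536870912 536870912 0 536870912 966367641 24778659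
    (rowB 3 eng mog cd1q1 cd1q2a pd3 0 true true true .npn 1 2 3 (qsf 536870912 536870912 0 536870912 3) ndB1q1 ndB1q2a pcB3 Cut.none Ext.none)

def k0_pp_123_a : ∃ t, chk3 f_pp_123_a t 1 1 1 = true :=
  ⟨(l 4), by decide +kernel⟩

theorem c_pp_123_a : CertB 536870912 536870912 0 536870912 966367641 24778659 3 eng mog cd1q1 cd1q2a pd3 true true true .npn 1 2 3
    ndB1q1 ndB1q2a pcB3 Cut.none Ext.none :=
  certB0 (fam := true) (s1 := true) (s2 := true) (a := 1) (b := 2) (c := 3) (cn := .npn) (n1 := ndB1q1) (n2 := ndB1q2a) (pc := pcB3) (cut := Cut.none) (xt := Ext.none) (P1 := 536870912) (W1 := 536870912) (P2 := 0) (W2 := 536870912) (P3 := 966367641) (W3 := 24778659) (N0 := 3) (En := eng) (mo := mog) (C1 := cd1q1) (C2 := cd1q2a) (C3 := pd3)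
    rfl k0_pp_123_a

noncomputable def f_pp_123_b : ℕ → ℕ → ℕ → ℕ → Bool := onCell 536870912 536870912 1239849684 370763052 966367641 24778659
    (rowB 3 eng mog cd1q1 cd1q2b pd3 0 true true true .npn 1 2 3 (qsf 536870912 536870912 1239849684 370763052 3) ndB1q1 ndB1q2b pcB3 Cut.none Ext.none)

def k0_pp_123_b : ∃ t, chk3 f_pp_123_b t 1 1 1 = true :=
  ⟨(l 4), by decide +kernel⟩

theorem c_pp_123_b : CertB 536870912 536870912 1239849684 370763052 966367641 24778659 3 eng mog cd1q1 cd1q2b pd3 true true true .npn 1 2 3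
    ndB1q1 ndB1q2b pcB3 Cut.none Ext.none :=
  certB0 (fam := true) (s1 := true) (s2 := true) (a := 1) (b := 2) (c := 3) (cn := .npn) (n1 := ndB1q1) (n2 := ndB1q2b) (pc := pcB3) (cut := Cut.none) (xt := Ext.none) (P1 := 536870912) (W1 := 536870912) (P2 := 1239849684) (W2 := 370763052) (P3 := 966367641) (W3 := 24778659) (N0 := 3) (En := eng) (mo := mog) (C1 := cd1q1) (C2 := cd1q2b) (C3 := pd3)
    rfl k0_pp_123_b

noncomputable def f_pp_133 : ℕ → ℕ → ℕ → ℕ → Bool := onCell 536870912 536870912 1610612736 536870912 966367641 24778659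
    (rowB 3 eng mog cd1q1 cd1q3 pd3 0 true true true .dn 1 3 3 (qsf 536870912 536870912 1610612736 536870912 3) ndB1q1 ndB1q3 pcB3 Cut.none Ext.none)

def k0_pp_133 : ∃ t, chk3 f_pp_133 t 1 1 1 = true :=
  ⟨(l 4), by decide +kernel⟩

theorem c_pp_133 : CertB 536870912 536870912 1610612736 536870912 966367641 24778659 3 eng mog cd1q1 cd1q3 pd3 true true true .dn 1 3 3
    ndB1q1 ndB1q3 pcB3 Cut.none Ext.none :=
  certB0 (fam := true) (s1 := true) (s2 := true) (a := 1) (b := 3) (c := 3) (cn := .dn) (n1 := ndB1q1) (n2 := ndB1q3) (pc := pcB3) (cut := Cut.none) (xt := Ext.none) (P1 := 536870912) (W1 := 536870912) (P2 := 1610612736) (W2 := 536870912) (P3 := 966367641) (W3 := 24778659) (N0 := 3) (En := eng) (mo := mog) (C1 := cd1q1) (C2 := cd1q3) (C3 := pd3)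
    rfl k0_pp_133

noncomputable def f_pp_202_a : ℕ → ℕ → ℕ → ℕ → Bool := onCell 0 536870912 0 536870912 966367641 24778659
    (rowB 3 eng mog cd1q2a cd1q0 pd2 0 true true true .pp 2 0 2 (qsf 0 536870912 0 536870912 2) ndB1q2a ndB1q0 pcB2 Cut.none Ext.none)

def k0_pp_202_a : ∃ t, chk3 f_pp_202_a t 1 1 1 = true :=
  ⟨(l 5), by decide +kernel⟩

theorem c_pp_202_a : CertB 0 536870912 0 536870912 966367641 24778659 3 eng mog cd1q2a cd1q0 pd2 true true true .pp 2 0 2
    ndB1q2a ndB1q0 pcB2 Cut.none Ext.none :=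
  certB0 (fam := true) (s1 := true) (s2 := true) (a := 2) (b := 0) (c := 2) (cn := .pp) (n1 := ndB1q2a) (n2 := ndB1q0) (pc := pcB2) (cut := Cut.none) (xt := Ext.none) (P1 := 0) (W1 := 536870912) (P2 := 0) (W2 := 536870912) (P3 := 966367641) (W3 := 24778659) (N0 := 3) (En := eng) (mo := mog) (C1 := cd1q2a) (C2 := cd1q0) (C3 := pd2)
    rfl k0_pp_202_a

noncomputable def f_pp_202_b : ℕ → ℕ → ℕ → ℕ → Bool := onCell 1239849684 370763052 0 536870912 966367641 24778659
    (rowB 3 eng mog cd1q2b cd1q0 pd2 0 true true true .pp 2 0 2 (qsf 1239849684 370763052 0 536870912 2) ndB1q2b ndB1q0 pcB2 Cut.none Ext.none)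

def k0_pp_202_b : ∃ t, chk3 f_pp_202_b t 1 1 1 = true :=
  ⟨(l 5), by decide +kernel⟩

theorem c_pp_202_b : CertB 1239849684 370763052 0 536870912 966367641 24778659 3 eng mog cd1q2b cd1q0 pd2 true true true .pp 2 0 2
    ndB1q2b ndB1q0 pcB2 Cut.none Ext.none :=
  certB0 (fam := true) (s1 := true) (s2 := true) (a := 2) (b := 0) (c := 2) (cn := .pp) (n1 := ndB1q2b) (n2 := ndB1q0) (pc := pcB2) (cut := Cut.none) (xt := Ext.none) (P1 := 1239849684) (W1 := 370763052) (P2 := 0) (W2 := 536870912) (P3 := 966367641) (W3 := 24778659) (N0 := 3) (En := eng) (mo := mog) (C1 := cd1q2b) (C2 := cd1q0) (C3 := pd2)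
    rfl k0_pp_202_b

noncomputable def f_pp_203_a : ℕ → ℕ → ℕ → ℕ → Bool := onCell 0 536870912 0 536870912 966367641 24778659
    (rowB 3 eng mog cd1q2a cd1q0 pd3 0 true true true .up 2 0 3 (qsf 0 536870912 0 536870912 3) ndB1q2a ndB1q0 pcB3 Cut.none Ext.none)

def k0_pp_203_a : ∃ t, chk3 f_pp_203_a t 1 1 1 = true :=
  ⟨(l 5), by decide +kernel⟩

theorem c_pp_203_a : CertB 0 536870912 0 536870912 966367641 24778659 3 eng mog cd1q2a cd1q0 pd3 true true true .up 2 0 3
    ndB1q2a ndB1q0 pcB3 Cut.none Ext.none :=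
  certB0 (fam := true) (s1 := true) (s2 := true) (a := 2) (b := 0) (c := 3) (cn := .up) (n1 := ndB1q2a) (n2 := ndB1q0) (pc := pcB3) (cut := Cut.none) (xt := Ext.none) (P1 := 0) (W1 := 536870912) (P2 := 0) (W2 := 536870912) (P3 := 966367641) (W3 := 24778659) (N0 := 3) (En := eng) (mo := mog) (C1 := cd1q2a) (C2 := cd1q0) (C3 := pd3)
    rfl k0_pp_203_a

noncomputable def f_pp_203_b : ℕ → ℕ → ℕ → ℕ → Bool := onCell 1239849684 370763052 0 536870912 966367641 24778659
    (rowB 3 eng mog cd1q2b cd1q0 pd3 0 true true true .up 2 0 3 (qsf 1239849684 370763052 0 536870912 3) ndB1q2b ndB1q0 pcB3 Cut.none Ext.none)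

def k0_pp_203_b : ∃ t, chk3 f_pp_203_b t 1 1 1 = true :=
  ⟨(l 5), by decide +kernel⟩

theorem c_pp_203_b : CertB 1239849684 370763052 0 536870912 966367641 24778659 3 eng mog cd1q2b cd1q0 pd3 true true true .up 2 0 3
    ndB1q2b ndB1q0 pcB3 Cut.none Ext.none :=
  certB0 (fam := true) (s1 := true) (s2 := true) (a := 2) (b := 0) (c := 3) (cn := .up) (n1 := ndB1q2b) (n2 := ndB1q0) (pc := pcB3) (cut := Cut.none) (xt := Ext.none) (P1 := 1239849684) (W1 := 370763052) (P2 := 0) (W2 := 536870912) (P3 := 966367641) (W3 := 24778659) (N0 := 3) (En := eng) (mo := mog) (C1 := cd1q2b) (C2 := cd1q0) (C3 := pd3)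
    rfl k0_pp_203_b

noncomputable def f_pp_213_a : ℕ → ℕ → ℕ → ℕ → Bool := onCell 0 536870912 536870912 536870912 966367641 24778659
    (rowB 3 eng mog cd1q2a cd1q1 pd3 0 true true true .pnn 2 1 3 (qsf 0 536870912 536870912 536870912 3) ndB1q2a ndB1q1 pcB3 Cut.none Ext.none)

def k0_pp_213_a : ∃ t, chk3 f_pp_213_a t 1 1 1 = true :=
  ⟨(l 4), by decide +kernel⟩

theorem c_pp_213_a : CertB 0 536870912 536870912 536870912 966367641 24778659 3 eng mog cd1q2a cd1q1 pd3 true true true .pnn 2 1 3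
    ndB1q2a ndB1q1 pcB3 Cut.none Ext.none :=
  certB0 (fam := true) (s1 := true) (s2 := true) (a := 2) (b := 1) (c := 3) (cn := .pnn) (n1 := ndB1q2a) (n2 := ndB1q1) (pc := pcB3) (cut := Cut.none) (xt := Ext.none) (P1 := 0) (W1 := 536870912) (P2 := 536870912) (W2 := 536870912) (P3 := 966367641) (W3 := 24778659) (N0 := 3) (En := eng) (mo := mog) (C1 := cd1q2a) (C2 := cd1q1) (C3 := pd3)
    rfl k0_pp_213_a

noncomputable def f_pp_213_b : ℕ → ℕ → ℕ → ℕ → Bool := onCell 1239849684 370763052 536870912 536870912 966367641 24778659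
    (rowB 3 eng mog cd1q2b cd1q1 pd3 0 true true true .pnn 2 1 3 (qsf 1239849684 370763052 536870912 536870912 3) ndB1q2b ndB1q1 pcB3 Cut.none Ext.none)

def k0_pp_213_b : ∃ t, chk3 f_pp_213_b t 1 1 1 = true :=
  ⟨(l 4), by decide +kernel⟩

theorem c_pp_213_b : CertB 1239849684 370763052 536870912 536870912 966367641 24778659 3 eng mog cd1q2b cd1q1 pd3 true true true .pnn 2 1 3
    ndB1q2b ndB1q1 pcB3 Cut.none Ext.none :=
  certB0 (fam := true) (s1 := true) (s2 := true) (a := 2) (b := 1) (c := 3) (cn := .pnn) (n1 := ndB1q2b) (n2 := ndB1q1) (pc := pcB3) (cut := Cut.none) (xt := Ext.none) (P1 := 1239849684) (W1 := 370763052) (P2 := 536870912) (W2 := 536870912) (P3 := 966367641) (W3 := 24778659) (N0 := 3) (En := eng) (mo := mog) (C1 := cd1q2b) (C2 := cd1q1) (C3 := pd3)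
    rfl k0_pp_213_b

noncomputable def f_pp_303 : ℕ → ℕ → ℕ → ℕ → Bool := onCell 1610612736 536870912 0 536870912 966367641 24778659
    (rowB 3 eng mog cd1q3 cd1q0 pd3 0 true true true .npn 3 0 3 (qsf 1610612736 536870912 0 536870912 3) ndB1q3 ndB1q0 pcB3 Cut.none Ext.none)

def k0_pp_303 : ∃ t, chk3 f_pp_303 t 1 1 1 = true :=
  ⟨(l 5), by decide +kernel⟩

theorem c_pp_303 : CertB 1610612736 536870912 0 536870912 966367641 24778659 3 eng mog cd1q3 cd1q0 pd3 true true true .npn 3 0 3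
    ndB1q3 ndB1q0 pcB3 Cut.none Ext.none :=
  certB0 (fam := true) (s1 := true) (s2 := true) (a := 3) (b := 0) (c := 3) (cn := .npn) (n1 := ndB1q3) (n2 := ndB1q0) (pc := pcB3) (cut := Cut.none) (xt := Ext.none) (P1 := 1610612736) (W1 := 536870912) (P2 := 0) (W2 := 536870912) (P3 := 966367641) (W3 := 24778659) (N0 := 3) (En := eng) (mo := mog) (C1 := cd1q3) (C2 := cd1q0) (C3 := pd3)
    rfl k0_pp_303

noncomputable def f_pp_313 : ℕ → ℕ → ℕ → ℕ → Bool := onCell 1610612736 536870912 536870912 536870912 966367641 24778659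
    (rowB 3 eng mog cd1q3 cd1q1 pd3 0 true true true .dn 3 1 3 (qsf 1610612736 536870912 536870912 536870912 3) ndB1q3 ndB1q1 pcB3 Cut.none Ext.none)

def k0_pp_313 : ∃ t, chk3 f_pp_313 t 1 1 1 = true :=
  ⟨(l 4), by decide +kernel⟩

theorem c_pp_313 : CertB 1610612736 536870912 536870912 536870912 966367641 24778659 3 eng mog cd1q3 cd1q1 pd3 true true true .dn 3 1 3
    ndB1q3 ndB1q1 pcB3 Cut.none Ext.none :=
  certB0 (fam := true) (s1 := true) (s2 := true) (a := 3) (b := 1) (c := 3) (cn := .dn) (n1 := ndB1q3) (n2 := ndB1q1) (pc := pcB3) (cut := Cut.none) (xt := Ext.none) (P1 := 1610612736) (W1 := 536870912) (P2 := 536870912) (W2 := 536870912) (P3 := 966367641) (W3 := 24778659) (N0 := 3) (En := eng) (mo := mog) (C1 := cd1q3) (C2 := cd1q1) (C3 := pd3)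
    rfl k0_pp_313

noncomputable def f_pm_001 : ℕ → ℕ → ℕ → ℕ → Bool := onCell 0 536870912 0 536870912 966367641 24778659
    (rowB 3 eng mog cd1q0 cd1q0 pd1 0 true true false .up 0 0 1 (qsf 0 536870912 0 536870912 1) ndB1q0 ndB1q0 pcB1 Cut.none Ext.none)

def k0_pm_001 : ∃ t, chk3 f_pm_001 t 1 1 1 = true :=
  ⟨(l 3), by decide +kernel⟩

theorem c_pm_001 : CertB 0 536870912 0 536870912 966367641 24778659 3 eng mog cd1q0 cd1q0 pd1 true true false .up 0 0 1
    ndB1q0 ndB1q0 pcB1 Cut.none Ext.none :=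
  certB0 (fam := true) (s1 := true) (s2 := false) (a := 0) (b := 0) (c := 1) (cn := .up) (n1 := ndB1q0) (n2 := ndB1q0) (pc := pcB1) (cut := Cut.none) (xt := Ext.none) (P1 := 0) (W1 := 536870912) (P2 := 0) (W2 := 536870912) (P3 := 966367641) (W3 := 24778659) (N0 := 3) (En := eng) (mo := mog) (C1 := cd1q0) (C2 := cd1q0) (C3 := pd1)
    rfl k0_pm_001

noncomputable def f_pm_011 : ℕ → ℕ → ℕ → ℕ → Bool := onCell 0 536870912 536870912 536870912 966367641 24778659
    (rowB 3 eng mog cd1q0 cd1q1 pd1 1 true true false .pnn 0 1 1 (qsf 0 536870912 536870912 536870912 1) ndB1q0 ndB1q1 pcB1 Cut.none Ext.none)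

def k0_pm_011 : ∃ t, chk3 f_pm_011 t 1 1 1 = true :=
  ⟨(l 3), by decide +kernel⟩

theorem c_pm_011 : CertB 0 536870912 536870912 536870912 966367641 24778659 3 eng mog cd1q0 cd1q1 pd1 true true false .pnn 0 1 1
    ndB1q0 ndB1q1 pcB1 Cut.none Ext.none :=
  certB1 (fam := true) (s1 := true) (s2 := false) (a := 0) (b := 1) (c := 1) (cn := .pnn) (n1 := ndB1q0) (n2 := ndB1q1) (pc := pcB1) (cut := Cut.none) (xt := Ext.none) (P1 := 0) (W1 := 536870912) (P2 := 536870912) (W2 := 536870912) (P3 := 966367641) (W3 := 24778659) (N0 := 3) (En := eng) (mo := mog) (C1 := cd1q0) (C2 := cd1q1) (C3 := pd1)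
    rfl (fun _ => rfl) k0_pm_011

noncomputable def f_pm_012 : ℕ → ℕ → ℕ → ℕ → Bool := onCell 1073741824 536870912 536870912 536870912 966367641 24778659
    (rowB 3 eng mog cd1q0 cd1q1 pd2 2 true true false .pnp 0 1 2 (qsf 0 536870912 536870912 536870912 2) ndB1q0 ndB1q1 pcB2 Cut.none Ext.none)

def k0_pm_012 : ∃ t, chk3 f_pm_012 t 1 1 1 = true :=
  ⟨(a (a (l 3) (b (a (a (a (l 3) (a (l 3) (b (l 2) (a (l 3) (b (l 15940448) (l 15974216)))))) (b (l 2) (b (l 15909144) (l 15932296)))) (b (l 2) (b (l 15841960) (l 15836800)))) (a (a (a (l 3) (b (a (l 3) (a (b (l 3) (l 16143912)) (b (l 16037856) (l 16129784)))) (a (b (l 3) (b (l 16396376) (l 16477160))) (a (b (l 16075184) (b (l 16370440) (l 16450144))) (b (l 16247944) (b (l 16353224) (l 16432208))))))) (b (b (l 15985776) (l 16068280)) (b (b (l 16147880) (l 16209392)) (b (l 16277720) (l 16269504))))) (b (b (l 15863136) (a (l 15966960) (l 15876120))) (b (b (l 15982584) (l 16033488)) (b (l 15861312) (a (l 16221056)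 (l 16098728)))))))) (b (a (b (l 2) (a (b (l 2) (l 15746448)) (l 2))) (l 2)) (b (a (b (a (l 15736440) (l 15652144)) (a (l 15759624) (l 15640848))) (b (l 2) (a (l 15564088) (l 2)))) (a (b (a (b (l 15798336) (l 15834760)) (l 15665616)) (a (b (l 15879792) (l 15934032)) (l 15833040))) (b (a (l 15556680) (l 15489096)) (a (l 15590560) (l 15493424))))))), by decide +kernel⟩

theorem c_pm_012 : CertB 0 536870912 536870912 536870912 966367641 24778659 3 eng mog cd1q0 cd1q1 pd2 true true false .pnp 0 1 2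
    ndB1q0 ndB1q1 pcB2 Cut.none Ext.none :=
  certB2 (fam := true) (s1 := true) (s2 := false) (a := 0) (b := 1) (c := 2) (cn := .pnp) (n1 := ndB1q0) (n2 := ndB1q1) (pc := pcB2) (cut := Cut.none) (xt := Ext.none) (P1 := 0) (W1 := 536870912) (P2 := 536870912) (W2 := 536870912) (P3 := 966367641) (W3 := 24778659) (N0 := 3) (En := eng) (mo := mog) (C1 := cd1q0) (C2 := cd1q1) (C3 := pd2)
    rfl (fun _ => rfl) k0_pm_012

noncomputable def cut_pm_022_a : Cut := Cut.of [[⟨0, 0, 0, 67108864⟩, ⟨1, 1, 0, 67108864⟩, ⟨2, 1, 0, 67108864⟩]]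

noncomputable def f_pm_022_a : ℕ → ℕ → ℕ → ℕ → Bool := onCell 1073741824 536870912 0 536870912 966367641 24778659
    (rowB 3 eng mog cd1q0 cd1q2a pd2 2 true true false .pp 0 2 2 (qsf 0 536870912 0 536870912 2) ndB1q0 ndB1q2a pcB2 cut_pm_022_a Ext.none)

def k0_pm_022_a : ∃ t, chk3 f_pm_022_a t 2 2 1 = true :=
  ⟨(a (a (l 1) (b (l 1) (a (l 1) (b (l 1) (b (l 1) (a (l 1) (a (l 1) (a (l 304974948023) (l 191158334407))))))))) (a (b (a (a (l 1) (b (c (a (l 1) (l 16088696)) (l 16028048)) (c (l 278668083463) (l 16025744)))) (b (a (b (l 16076184) (l 16071544)) (c (l 16182128) (l 16163960))) (a (c (l 16141512) (l 16077096)) (c (l 16194752) (l 16158280))))) (a (a (b (a (l 1) (b (l 16036384) (l 352219513159))) (c (b (l 389800581607) (l 286184589623)) (b (l 16062464) (l 16104840)))) (b (c (b (l 16099784) (l 16149032)) (c (l 16067312) (l 16034896))) (c (b (l 16184280) (l 16227912)) (b (l 16109112) (l 16147256))))) (b (a (c (l 16182592) (l 16122080)) (c (l 16236400)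 (l 16187064))) (a (c (l 16255296) (l 16185816)) (l 16155856))))) (b (a (b (a (l 16243184) (l 16317712)) (a (l 16245312) (l 16316488))) (b (l 16282624) (l 16360376))) (a (b (a (l 16278688) (l 16345936)) (a (l 16280920) (l 16406360))) (b (l 16425792) (l 16499808)))))), by decide +kernel⟩

def k1_pm_022_a : ∃ t, chk3 f_pm_022_a t 8 3 1 = true :=
  ⟨(b (l 1) (b (a (l 1) (b (b (l 1) (a (l 1) (a (l 1) (a (b (l 1) (l 6)) (b (c (l 255046461687) (a (l 191158700231) (l 203506736311))) (c (l 16414800) (b (l 16341088) (l 16374440)))))))) (a (l 6) (a (l 6) (a (l 6) (a (l 6) (a (l 6) (b (b (l 16405176) (l 16451584)) (l 16428000))))))))) (a (l 6) (a (l 6) (a (l 6) (a (l 6) (b (b (l 16419328) (l 16546320)) (l 16553192)))))))), by decide +kernel⟩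

def k2_pm_022_a : ∃ t, chk3 f_pm_022_a t 18 3 1 = true :=
  ⟨(b (b (l 1) (a (b (l 1) (a (l 1) (b (a (l 1) (c (l 164851947239) (l 158409364983))) (c (c (l 285111138727) (l 281889847335)) (b (l 234108212439) (a (l 16262680) (l 16287312))))))) (b (b (a (l 1) (a (l 1) (c (l 16239120) (l 16156064)))) (a (c (l 183642368519) (l 178810393783)) (c (a (l 136934618215) (l 16297736)) (a (a (l 16185920) (l 16188328)) (l 16192136))))) (a (b (c (a (l 133713447015) (l 16301760)) (a (l 158946244455) (l 16232344))) (c (b (l 16350240) (l 16371648)) (a (l 16280424) (l 16284464)))) (c (b (a (l 16329888) (l 16337096)) (l 16374816)) (b (a (l 16247232) (l 16251784)) (l 16290768))))))) (a (b (b (a (a (b (b (l 1) (c (l 265783841239) (l 253972557223))) (c (b (l 16390848) (l 16435936)) (b (l 16335920) (l 16370728)))) (b (c (b (l 16350248) (l 16373152)) (b (l 259341222999) (l 16304680))) (c (l 16408632) (l 16352208)))) (b (c (b (l 16359608) (l 16403296)) (c (l 16316768) (l 16279376)))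 (c (l 16417488) (l 16365960)))) (c (a (b (l 16413000) (l 16506544)) (b (l 16487240) (l 16540408))) (b (a (b (l 16396896) (l 16422312)) (l 16415536)) (a (l 16441432) (l 16473032))))) (b (b (c (l 16507152) (l 16426744)) (l 16501136)) (b (l 16567864) (l 16511024)))) (b (b (c (a (b (l 16404840) (l 16450928)) (l 16337720)) (a (b (l 16326432) (l 16373056)) (b (l 16334648) (l 16385600)))) (b (c (l 16467624) (l 16373200)) (l 16406112))) (b (c (l 16567168) (l 16473280)) (a (l 16476216) (l 16468456)))))), by decide +kernel⟩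

def k3_pm_022_a : ∃ t, chk3 f_pm_022_a t 19 3 1 = true :=
  ⟨(b (b (a (a (b (l 1) (b (l 1) (c (l 311417566327) (l 317859858615)))) (c (b (l 252898534983) (b (l 16198112) (l 16251968))) (b (l 256656467767) (b (l 16113568) (l 16144272))))) (c (b (a (l 157335551607) (l 16209336)) (a (l 16252312) (l 16269448))) (b (a (l 16097576) (l 16124176)) (a (l 16164112) (l 16179008))))) (a (b (a (c (b (l 178273647815) (l 16308648)) (b (l 188474044199) (l 16221320))) (c (c (l 16326976) (l 16283408)) (b (l 16198064) (l 16233016)))) (a (c (b (l 16347936) (l 16389144)) (b (l 16259192) (l 16300136))) (c (l 16342712) (b (l 16270888) (l 16315696))))) (b (c (a (l 16321400) (l 16339672)) (a (l 16229400) (l 16248248))) (c (l 16307688) (a (l 16313920) (l 16337872)))))) (b (b (b (a (a (l 16266016) (l 16348040)) (l 16253088)) (a (l 16328176) (l 16366976))) (a (a (l 16403496) (l 16421504)) (l 16385752))) (a (b (l 16510200) (l 16362152)) (b (l 16495440) (a (l 16444552) (l 16436712)))))),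 by decide +kernel⟩

def k4_pm_022_a : ∃ t, chk3 f_pm_022_a t 5 3 1 = true :=
  ⟨(b (a (a (b (b (a (c (l 16195624) (a (l 16141072) (l 16159616))) (c (l 16281048) (l 16198864))) (a (c (l 16298944) (l 16189048)) (l 16179136))) (b (a (c (l 16350128) (l 16285912)) (l 16273800)) (c (l 16326496) (l 16253920)))) (b (c (a (l 16340552) (l 16410720)) (l 16136176)) (a (l 16238536) (l 16371736)))) (a (b (c (l 16484760) (l 16410592)) (c (l 16510120) (l 16532840))) (b (l 16491568) (l 16270880)))) (a (a (b (a (b (l 16340952) (l 16485256)) (b (l 16488152) (l 16534584))) (a (b (l 16397216) (l 16351936)) (a (b (l 16460248) (l 16393712)) (b (b (l 16497688) (l 16365952)) (a (l 16372808) (l 16359256)))))) (c (b (l 16293144) (a (l 16196352) (l 16268408))) (b (l 16343104) (b (l 16355632) (l 16219688))))) (b (a (b (l 16406416) (l 16249808)) (c (l 16293240) (l 16285128))) (a (b (l 16119776) (a (l 16210240) (l 16154056))) (c (l 16044432) (l 15994520)))))), by decide +kernel⟩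

def k5_pm_022_a : ∃ t, chk3 f_pm_022_a t 3 1 1 = true :=
  ⟨(a (b (a (b (a (c (l 16445992) (l 16388000)) (c (l 16348608) (l 16215520))) (a (b (l 16432832) (l 16418760)) (b (l 16321976) (l 16309216)))) (b (a (c (l 16256448) (l 16131784)) (c (l 16170312) (l 16012256))) (a (c (l 16248168) (l 16170760)) (c (l 16163264) (l 16056000))))) (b (a (a (b (l 16379368) (l 16222560)) (b (l 16270960) (l 16199344))) (b (a (l 16167568) (l 16070336)) (a (l 16097640) (l 16002512)))) (a (b (a (c (l 16193808) (l 16185600)) (c (l 16099560) (l 16069240))) (a (c (l 16030408) (l 16003496)) (c (l 15938392) (l 15891568)))) (b (a (l 15754832) (l 15725784)) (a (c (l 15853296) (l 15786048)) (c (l 15776064) (l 15688304))))))) (b (a (b (c (a (l 16090936) (l 16019048)) (a (l 15900160) (l 15796752))) (c (a (l 16085152) (l 16014608)) (a (l 15948328) (l 15848968)))) (b (a (b (c (l 15961888) (l 15702456)) (l 15847000)) (b (c (l 15950536) (l 15694216)) (l 15767640))) (c (a (l 15952352)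 (l 15899104)) (b (l 15714176) (l 15722680))))) (b (a (b (a (l 15980344) (l 15898592)) (a (l 15915056) (l 15836304))) (b (c (l 15878200) (l 15705352)) (c (l 15814184) (l 15656008)))) (a (a (b (l 15809856) (c (l 15707576) (l 15599640))) (b (l 15735464) (c (l 15648656) (l 15521304)))) (b (c (l 15717600) (l 15566632)) (a (c (l 15600072) (l 15454456)) (c (l 15562520) (l 15400216)))))))), by decide +kernel⟩

theorem s6_pm_022_a : ∃ t, chk3 f_pm_022_a t 9 3 1 = true := ex3_a k2_pm_022_a k3_pm_022_a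

theorem s7_pm_022_a : ∃ t, chk3 f_pm_022_a t 4 3 1 = true := ex3_a k1_pm_022_a s6_pm_022_a

theorem s8_pm_022_a : ∃ t, chk3 f_pm_022_a t 2 3 1 = true := ex3_a s7_pm_022_a k4_pm_022_a

theorem s9_pm_022_a : ∃ t, chk3 f_pm_022_a t 2 1 1 = true := ex3_b k0_pm_022_a s8_pm_022_a

theorem s10_pm_022_a : ∃ t, chk3 f_pm_022_a t 1 1 1 = true := ex3_a s9_pm_022_a k5_pm_022_a

theorem c_pm_022_a : CertB 0 536870912 0 536870912 966367641 24778659 3 eng mog cd1q0 cd1q2a pd2 true true false .pp 0 2 2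
    ndB1q0 ndB1q2a pcB2 cut_pm_022_a Ext.none :=
  certB2 (fam := true) (s1 := true) (s2 := false) (a := 0) (b := 2) (c := 2) (cn := .pp) (n1 := ndB1q0) (n2 := ndB1q2a) (pc := pcB2) (cut := cut_pm_022_a) (xt := Ext.none) (P1 := 0) (W1 := 536870912) (P2 := 0) (W2 := 536870912) (P3 := 966367641) (W3 := 24778659) (N0 := 3) (En := eng) (mo := mog) (C1 := cd1q0) (C2 := cd1q2a) (C3 := pd2)
    rfl (fun _ => rfl) s10_pm_022_a

noncomputable def cut_pm_022_b : Cut := Cut.of [[⟨0, 0, 0, 67108864⟩, ⟨1, 1, 0, 67108864⟩, ⟨2, 1, 0, 67108864⟩]]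

noncomputable def f_pm_022_b : ℕ → ℕ → ℕ → ℕ → Bool := onCell 0 536870912 1073741824 536870912 966367641 24778659
    (rowB 3 eng mog cd1q0 cd1q2b pd2 1 true true false .pp 0 2 2 (qsf 0 536870912 1239849684 370763052 2) ndB1q0 ndB1q2b pcB2 cut_pm_022_b Ext.none)

def k0_pm_022_b : ∃ t, chk3 f_pm_022_b t 1 2 1 = true :=
  ⟨(a (a (b (l 1) (a (b (a (a (b (c (l 253972089735) (l 270615041847)) (c (c (l 16107280) (l 16101176)) (l 16092024))) (b (l 1) (c (l 16191376) (l 16181384)))) (b (l 1) (c (l 16227720) (l 16237304)))) (a (b (c (a (l 16042176) (l 16129624)) (a (l 16036232) (l 16126344))) (c (a (l 15985064) (l 16072648)) (l 15948840))) (b (c (l 16208352) (l 16225280)) (c (l 16214504) (l 16198520))))) (b (l 1) (a (b (l 16252920) (l 16222104)) (b (l 1) (l 16361824)))))) (l 1)) (l 1)), by decide +kernel⟩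

def k1_pm_022_b : ∃ t, chk3 f_pm_022_b t 1 3 1 = true :=
  ⟨(b (a (a (a (b (a (b (c (l 15892840) (l 15969712)) (b (l 15762744) (l 15785072))) (c (b (l 16162240) (l 16114320)) (b (l 16198856) (l 16163096)))) (a (c (b (l 15885824) (l 15846464)) (b (l 15925080) (l 15879392))) (b (c (l 16070464) (l 16132712)) (l 15899936)))) (b (c (a (l 16263848) (l 16414824)) (a (l 16353400) (l 16327888))) (c (a (l 16237944) (l 16312552)) (a (l 16246432) (l 16203872))))) (b (a (c (a (l 16358176) (l 16098888)) (b (l 275446708967) (l 16073888))) (l 1)) (a (c (l 151429712903) (b (l 16135624) (l 16088120))) (c (b (l 15932064) (l 16127288)) (b (l 275983043687) (l 15926528)))))) (l 1)) (a (a (a (b (a (c (a (l 15645984) (l 15752752)) (l 15640880)) (c (l 15976024) (l 16075936))) (c (a (b (l 15746024) (l 15715824)) (l 15910312)) (a (l 15735912) (l 15880776)))) (b (c (l 15988088) (l 16052504)) (b (l 15921944) (c (l 16035904) (l 15879400))))) (b (a (c (l 16177088) (l 15820240))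 (c (l 113311460039) (b (l 15900496) (l 15871408)))) (a (b (c (l 16111984) (l 15925864)) (l 15757480)) (b (c (l 16079064) (l 15857288)) (l 15822664))))) (a (b (a (b (c (l 284036624327) (l 280278087079)) (c (l 15973552) (l 190083212887))) (l 1)) (a (b (c (l 15998216) (l 15595032)) (c (l 16058576) (l 15839336))) (b (c (l 335575566615) (l 325374435831)) (c (l 15956488) (l 15704960))))) (l 1)))), by decide +kernel⟩

theorem s2_pm_022_b : ∃ t, chk3 f_pm_022_b t 1 1 1 = true := ex3_b k0_pm_022_b k1_pm_022_b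

theorem c_pm_022_b : CertB 0 536870912 1239849684 370763052 966367641 24778659 3 eng mog cd1q0 cd1q2b pd2 true true false .pp 0 2 2
    ndB1q0 ndB1q2b pcB2 cut_pm_022_b Ext.none :=
  certB1 (fam := true) (s1 := true) (s2 := false) (a := 0) (b := 2) (c := 2) (cn := .pp) (n1 := ndB1q0) (n2 := ndB1q2b) (pc := pcB2) (cut := cut_pm_022_b) (xt := Ext.none) (P1 := 0) (W1 := 536870912) (P2 := 1239849684) (W2 := 370763052) (P3 := 966367641) (W3 := 24778659) (N0 := 3) (En := eng) (mo := mog) (C1 := cd1q0) (C2 := cd1q2b) (C3 := pd2)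
    rfl (fun _ => rfl) s2_pm_022_b

noncomputable def f_pm_023_a : ℕ → ℕ → ℕ → ℕ → Bool := onCell 1610612736 536870912 0 536870912 966367641 24778659
    (rowB 3 eng mog cd1q0 cd1q2a pd3 2 true true false .up 0 2 3 (qsf 0 536870912 0 536870912 3) ndB1q0 ndB1q2a pcB3 Cut.none Ext.none)

def k0_pm_023_a : ∃ t, chk3 f_pm_023_a t 1 1 1 = true :=
  ⟨(a (a (b (a (c (b (a (l 16315488) (l 16291648)) (a (l 16220032) (l 16193968))) (b (a (l 15883568) (l 16010168)) (a (l 15881920) (l 15821576)))) (a (b (c (l 16285048) (l 16052480)) (c (l 16180952) (b (l 15922024) (l 15827344)))) (b (l 16017424) (c (l 16184096) (l 15775480))))) (b (a (c (b (l 16087872) (l 15977248)) (b (l 15770992) (l 15673744))) (c (a (l 16011776) (l 16013912)) (a (l 15703432) (l 15468736)))) (b (a (c (l 15835504) (l 15540952)) (c (l 15824776) (l 15604248))) (a (c (a (l 15663472) (l 15650328)) (a (l 15370520) (l 15361064))) (l 2))))) (b (a (a (b (l 16190656) (c (l 16204824) (l 15996424))) (b (l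 16312920) (l 2))) (l 2)) (b (l 2) (l 2)))) (l 2)), by decide +kernel⟩

theorem c_pm_023_a : CertB 0 536870912 0 536870912 966367641 24778659 3 eng mog cd1q0 cd1q2a pd3 true true false .up 0 2 3
    ndB1q0 ndB1q2a pcB3 Cut.none Ext.none :=
  certB2 (fam := true) (s1 := true) (s2 := false) (a := 0) (b := 2) (c := 3) (cn := .up) (n1 := ndB1q0) (n2 := ndB1q2a) (pc := pcB3) (cut := Cut.none) (xt := Ext.none) (P1 := 0) (W1 := 536870912) (P2 := 0) (W2 := 536870912) (P3 := 966367641) (W3 := 24778659) (N0 := 3) (En := eng) (mo := mog) (C1 := cd1q0) (C2 := cd1q2a) (C3 := pd3)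
    rfl (fun _ => rfl) k0_pm_023_a

noncomputable def f_pm_023_b : ℕ → ℕ → ℕ → ℕ → Bool := onCell 1610612736 536870912 1239849684 370763052 966367641 24778659
    (rowB 3 eng mog cd1q0 cd1q2b pd3 2 true true false .up 0 2 3 (qsf 0 536870912 1239849684 370763052 3) ndB1q0 ndB1q2b pcB3 Cut.none Ext.none)

def k0_pm_023_b : ∃ t, chk3 f_pm_023_b t 1 1 1 = true :=
  ⟨(a (a (b (a (b (c (a (l 16414272) (l 16397912)) (a (l 16088032) (l 16180816))) (a (c (l 16386120) (l 16253920)) (c (l 16458968) (l 16294592)))) (b (a (c (l 16397336) (l 16228352)) (c (l 16411664) (l 16289552))) (a (l 16248824) (l 16464008)))) (a (b (a (c (b (l 16134896) (l 15919616)) (l 16109784)) (c (l 16150144) (l 16264456))) (a (c (b (a (l 15657472) (l 15729000)) (a (l 15242680) (l 15352728))) (b (l 15713696) (a (b (l 15701656) (l 15582520)) (l 15661376)))) (c (b (l 15787440) (l 15478416)) (b (l 16019592) (l 15776688))))) (b (a (c (l 16254696) (l 16332704)) (l 16246256)) (a (c (b (l 15950360)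 (l 15732936)) (l 15987864)) (c (l 15956208) (l 16066304)))))) (a (b (b (a (c (l 16440016) (l 16360096)) (l 16313928)) (a (l 16523640) (l 16592936))) (b (a (l 16478192) (l 16535592)) (a (l 16097408) (l 16177600)))) (a (b (b (c (l 16530624) (l 16480392)) (l 16534224)) (b (l 16592248) (l 16257264))) (l 4)))) (a (l 4) (l 4))), by decide +kernel⟩

theorem c_pm_023_b : CertB 0 536870912 1239849684 370763052 966367641 24778659 3 eng mog cd1q0 cd1q2b pd3 true true false .up 0 2 3
    ndB1q0 ndB1q2b pcB3 Cut.none Ext.none :=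
  certB2 (fam := true) (s1 := true) (s2 := false) (a := 0) (b := 2) (c := 3) (cn := .up) (n1 := ndB1q0) (n2 := ndB1q2b) (pc := pcB3) (cut := Cut.none) (xt := Ext.none) (P1 := 0) (W1 := 536870912) (P2 := 1239849684) (W2 := 370763052) (P3 := 966367641) (W3 := 24778659) (N0 := 3) (En := eng) (mo := mog) (C1 := cd1q0) (C2 := cd1q2b) (C3 := pd3)
    rfl (fun _ => rfl) k0_pm_023_b

noncomputable def f_pm_033 : ℕ → ℕ → ℕ → ℕ → Bool := onCell 0 536870912 1610612736 536870912 966367641 24778659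
    (rowB 3 eng mog cd1q0 cd1q3 pd3 1 true true false .pnn 0 3 3 (qsf 0 536870912 1610612736 536870912 3) ndB1q0 ndB1q3 pcB3 Cut.none Ext.none)

def k0_pm_033 : ∃ t, chk3 f_pm_033 t 1 1 1 = true :=
  ⟨(a (b (b (a (b (b (a (c (a (c (l 15534600) (l 15601848)) (l 15694080)) (a (l 15713040) (l 15846872))) (l 1)) (a (c (a (l 15530480) (l 15658000)) (a (l 15646672) (l 15777576))) (c (l 15860880) (l 15936368)))) (a (c (b (a (l 15420712) (l 15610896)) (l 15491984)) (b (a (l 15555736) (l 15686696)) (l 15525112))) (b (c (l 15813352) (l 15915696)) (c (l 15757320) (l 15820064))))) (a (b (l 1) (b (l 1) (l 16063680))) (l 1))) (b (a (a (b (a (l 15363240) (l 15493016)) (a (l 15075304) (l 15414848))) (b (l 15709624) (l 15631520))) (c (b (l 16077888) (l 16013368)) (b (l 16084208) (l 16077704)))) (a (b (a (a (l 15023368) (l 15341656)) (b (l 15575528) (l 15542384))) (a (b (l 15233960) (l 4)) (l 4))) (b (a (l 15840336) (l 16104960)) (l 4))))) (l 4)) (b (b (l 1) (b (l 1)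 (b (l 1) (l 4)))) (l 4))), by decide +kernel⟩

theorem c_pm_033 : CertB 0 536870912 1610612736 536870912 966367641 24778659 3 eng mog cd1q0 cd1q3 pd3 true true false .pnn 0 3 3
    ndB1q0 ndB1q3 pcB3 Cut.none Ext.none :=
  certB1 (fam := true) (s1 := true) (s2 := false) (a := 0) (b := 3) (c := 3) (cn := .pnn) (n1 := ndB1q0) (n2 := ndB1q3) (pc := pcB3) (cut := Cut.none) (xt := Ext.none) (P1 := 0) (W1 := 536870912) (P2 := 1610612736) (W2 := 536870912) (P3 := 966367641) (W3 := 24778659) (N0 := 3) (En := eng) (mo := mog) (C1 := cd1q0) (C2 := cd1q3) (C3 := pd3)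
    rfl (fun _ => rfl) k0_pm_033

noncomputable def f_pm_101 : ℕ → ℕ → ℕ → ℕ → Bool := onCell 536870912 536870912 0 536870912 966367641 24778659
    (rowB 3 eng mog cd1q1 cd1q0 pd1 2 true true false .npn 1 0 1 (qsf 536870912 536870912 0 536870912 1) ndB1q1 ndB1q0 pcB1 Cut.none Ext.none)

def k0_pm_101 : ∃ t, chk3 f_pm_101 t 1 1 1 = true :=
  ⟨(l 3), by decide +kernel⟩

theorem c_pm_101 : CertB 536870912 536870912 0 536870912 966367641 24778659 3 eng mog cd1q1 cd1q0 pd1 true true false .npn 1 0 1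
    ndB1q1 ndB1q0 pcB1 Cut.none Ext.none :=
  certB2 (fam := true) (s1 := true) (s2 := false) (a := 1) (b := 0) (c := 1) (cn := .npn) (n1 := ndB1q1) (n2 := ndB1q0) (pc := pcB1) (cut := Cut.none) (xt := Ext.none) (P1 := 536870912) (W1 := 536870912) (P2 := 0) (W2 := 536870912) (P3 := 966367641) (W3 := 24778659) (N0 := 3) (En := eng) (mo := mog) (C1 := cd1q1) (C2 := cd1q0) (C3 := pd1)
    rfl (fun _ => rfl) k0_pm_101

noncomputable def f_pm_102 : ℕ → ℕ → ℕ → ℕ → Bool := onCell 536870912 536870912 1073741824 536870912 966367641 24778659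
    (rowB 3 eng mog cd1q1 cd1q0 pd2 1 true true false .npp 1 0 2 (qsf 536870912 536870912 0 536870912 2) ndB1q1 ndB1q0 pcB2 Cut.none Ext.none)

def k0_pm_102 : ∃ t, chk3 f_pm_102 t 1 1 1 = true :=
  ⟨(b (b (l 3) (a (b (b (b (l 3) (b (l 3) (a (l 2) (b (l 3) (a (l 15940448) (l 15974216)))))) (a (l 2) (a (l 15909144) (l 15932296)))) (a (l 2) (a (l 15841960) (l 15836800)))) (b (b (b (l 3) (a (b (l 3) (b (a (l 3) (l 16143912)) (a (l 16037856) (l 16129784)))) (b (a (l 3) (a (l 16396376) (l 16477160))) (b (a (l 16138096) (a (l 16370440) (l 16450144))) (a (l 16247944) (a (l 16353224) (l 16432208))))))) (a (a (l 15985776) (l 16068280)) (a (a (l 16147880) (l 16209392)) (a (l 16277720) (l 16290472))))) (a (a (l 15863136) (b (l 15966960) (l 15876120))) (a (b (l 16061664) (l 15955592)) (a (l 15903256) (b (l 16221056) (l 16098728)))))))) (a (b (a (l 2) (b (a (l 2) (l 15746448)) (l 2))) (l 2)) (a (b (a (b (l 15736440) (l 15652144)) (b (l 15759624) (l 15640848))) (a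 (l 2) (b (l 15564088) (l 2)))) (b (a (b (l 15941720) (l 15665616)) (b (a (l 15879792) (l 15934032)) (l 15728176))) (a (b (l 15556680) (l 15489096)) (b (l 15590560) (l 15493424))))))), by decide +kernel⟩

theorem c_pm_102 : CertB 536870912 536870912 0 536870912 966367641 24778659 3 eng mog cd1q1 cd1q0 pd2 true true false .npp 1 0 2
    ndB1q1 ndB1q0 pcB2 Cut.none Ext.none :=
  certB1 (fam := true) (s1 := true) (s2 := false) (a := 1) (b := 0) (c := 2) (cn := .npp) (n1 := ndB1q1) (n2 := ndB1q0) (pc := pcB2) (cut := Cut.none) (xt := Ext.none) (P1 := 536870912) (W1 := 536870912) (P2 := 0) (W2 := 536870912) (P3 := 966367641) (W3 := 24778659) (N0 := 3) (En := eng) (mo := mog) (C1 := cd1q1) (C2 := cd1q0) (C3 := pd2)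
    rfl (fun _ => rfl) k0_pm_102

noncomputable def f_pm_112 : ℕ → ℕ → ℕ → ℕ → Bool := onCell 536870912 536870912 1073741824 536870912 966367641 24778659
    (rowB 3 eng mog cd1q1 cd1q1 pd2 1 true true false .dn 1 1 2 (qsf 536870912 536870912 536870912 536870912 2) ndB1q1 ndB1q1 pcB2 Cut.none Ext.none)

def k0_pm_112 : ∃ t, chk3 f_pm_112 t 1 1 1 = true :=
  ⟨(b (b (l 3) (b (a (b (b (l 3) (b (l 3) (b (l 3) (a (l 15850488) (l 15823736))))) (a (l 15846200) (l 80025834935))) (l 1)) (a (a (l 15735240) (l 15727168)) (a (l 328058980967) (l 1))))) (a (b (a (a (l 15584072) (l 15623544)) (b (l 15669160) (l 15587528))) (a (b (l 15487496) (l 15419760)) (b (l 15506936) (l 15432560)))) (b (a (b (l 268467202423) (l 15559240)) (b (l 1) (l 286720566375))) (a (a (l 15464576) (l 15454064)) (a (l 15440040) (l 15427752)))))), by decide +kernel⟩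

theorem c_pm_112 : CertB 536870912 536870912 536870912 536870912 966367641 24778659 3 eng mog cd1q1 cd1q1 pd2 true true false .dn 1 1 2
    ndB1q1 ndB1q1 pcB2 Cut.none Ext.none :=
  certB1 (fam := true) (s1 := true) (s2 := false) (a := 1) (b := 1) (c := 2) (cn := .dn) (n1 := ndB1q1) (n2 := ndB1q1) (pc := pcB2) (cut := Cut.none) (xt := Ext.none) (P1 := 536870912) (W1 := 536870912) (P2 := 536870912) (W2 := 536870912) (P3 := 966367641) (W3 := 24778659) (N0 := 3) (En := eng) (mo := mog) (C1 := cd1q1) (C2 := cd1q1) (C3 := pd2)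
    rfl (fun _ => rfl) k0_pm_112

noncomputable def f_pm_113 : ℕ → ℕ → ℕ → ℕ → Bool := onCell 536870912 536870912 536870912 536870912 966367641 24778659
    (rowB 3 eng mog cd1q1 cd1q1 pd3 0 true true false .nn 1 1 3 (qsf 536870912 536870912 536870912 536870912 3) ndB1q1 ndB1q1 pcB3 Cut.none Ext.none)

def k0_pm_113 : ∃ t, chk3 f_pm_113 t 1 1 1 = true :=
  ⟨(a (b (b (l 1) (a (l 1) (l 257192478935))) (b (a (b (l 1) (l 263634622135)) (b (l 15425144) (l 15390720))) (b (a (l 269002438023) (l 105794654535)) (a (b (l 15421232) (a (l 15208640) (l 15190824))) (a (l 15468392) (l 15256496)))))) (b (a (b (a (l 1) (l 263634622135)) (a (l 15425144) (l 15369752))) (a (b (l 269002500935) (l 15469032)) (b (a (l 15358320) (b (l 15208640) (l 15190824))) (b (l 15363528) (l 15256496))))) (a (b (b (l 15326592) (l 15313448)) (b (l 15341704) (a (l 15362048) (l 15596424)))) (b (a (l 15341704) (b (l 15362048) (l 15596424))) (a (b (l 15610792) (b (l 15960688) (b (l 16269624)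 (l 16567136)))) (b (a (l 15960688) (a (l 16269624) (l 16567136))) (a (b (l 16751144) (b (l 16870016) (l 16846232))) (b (a (l 16870016) (l 16846232)) (a (a (l 16831752) (l 16824856)) (b (l 16816008) (b (l 16803056) (a (l 16795816) (b (l 16790232) (a (l 16786400) (a (l 16783520) (l 16780984)))))))))))))))), by decide +kernel⟩

theorem c_pm_113 : CertB 536870912 536870912 536870912 536870912 966367641 24778659 3 eng mog cd1q1 cd1q1 pd3 true true false .nn 1 1 3
    ndB1q1 ndB1q1 pcB3 Cut.none Ext.none :=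
  certB0 (fam := true) (s1 := true) (s2 := false) (a := 1) (b := 1) (c := 3) (cn := .nn) (n1 := ndB1q1) (n2 := ndB1q1) (pc := pcB3) (cut := Cut.none) (xt := Ext.none) (P1 := 536870912) (W1 := 536870912) (P2 := 536870912) (W2 := 536870912) (P3 := 966367641) (W3 := 24778659) (N0 := 3) (En := eng) (mo := mog) (C1 := cd1q1) (C2 := cd1q1) (C3 := pd3)
    rfl k0_pm_113

noncomputable def f_pm_123_a : ℕ → ℕ → ℕ → ℕ → Bool := onCell 1610612736 536870912 0 536870912 966367641 24778659
    (rowB 3 eng mog cd1q1 cd1q2a pd3 2 true true false .npn 1 2 3 (qsf 536870912 536870912 0 536870912 3) ndB1q1 ndB1q2a pcB3 Cut.none Ext.none)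

def k0_pm_123_a : ∃ t, chk3 f_pm_123_a t 1 1 1 = true :=
  ⟨(a (a (b (a (l 1) (a (l 1) (a (l 1) (b (l 1) (l 16008512))))) (b (a (l 1) (a (c (l 15912296) (l 15672680)) (b (l 15863728) (l 15768144)))) (a (c (b (l 15715200) (l 15646144)) (b (l 15502296) (a (l 15340624) (l 15343552)))) (b (c (l 15734720) (l 15527424)) (a (l 15560464) (l 15473008)))))) (b (a (a (b (l 16196120) (l 9158305495)) (b (l 16264680) (l 16121304))) (a (b (l 16335208) (l 16194536)) (b (c (l 16388328) (l 16401656)) (l 16272304)))) (a (b (a (b (l 15654112) (l 15797216)) (b (l 15970256) (l 15590536))) (b (a (l 15669952) (l 15705800)) (c (l 15604264) (l 15422688)))) (b (a (b (l 16042840) (l 15910280)) (b (l 16122104) (l 15990000))) (b (a (l 15736080) (l 15954152)) (a (l 15583664) (l 15649560))))))) (b (a (b (a (a (l 74321878103) (l 4)) (l 4)) (a (a (l 16222944) (a (l 16399488) (l 16425048))) (l 4))) (l 4)) (a (a (b (a (l 15932656) (b (l 16297488) (l 16172568))) (b (a (l 15919536) (l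 16021360)) (a (l 15905000) (l 15852792)))) (b (a (a (l 16305336) (l 16348720)) (b (l 4) (l 16370200))) (a (b (l 16136608) (l 15995712)) (b (l 16266456) (l 16176960))))) (a (b (l 4) (a (b (a (l 16370112) (l 4)) (l 16418792)) (b (l 4) (a (l 16665776) (l 4))))) (l 4))))), by decide +kernel⟩

theorem c_pm_123_a : CertB 536870912 536870912 0 536870912 966367641 24778659 3 eng mog cd1q1 cd1q2a pd3 true true false .npn 1 2 3
    ndB1q1 ndB1q2a pcB3 Cut.none Ext.none :=
  certB2 (fam := true) (s1 := true) (s2 := false) (a := 1) (b := 2) (c := 3) (cn := .npn) (n1 := ndB1q1) (n2 := ndB1q2a) (pc := pcB3) (cut := Cut.none) (xt := Ext.none) (P1 := 536870912) (W1 := 536870912) (P2 := 0) (W2 := 536870912) (P3 := 966367641) (W3 := 24778659) (N0 := 3) (En := eng) (mo := mog) (C1 := cd1q1) (C2 := cd1q2a) (C3 := pd3)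
    rfl (fun _ => rfl) k0_pm_123_a

noncomputable def f_pm_123_b : ℕ → ℕ → ℕ → ℕ → Bool := onCell 1610612736 536870912 1239849684 370763052 966367641 24778659
    (rowB 3 eng mog cd1q1 cd1q2b pd3 2 true true false .npn 1 2 3 (qsf 536870912 536870912 1239849684 370763052 3) ndB1q1 ndB1q2b pcB3 Cut.none Ext.none)

def k0_pm_123_b : ∃ t, chk3 f_pm_123_b t 1 1 1 = true :=
  ⟨(b (a (a (l 1) (a (b (a (l 16332536) (l 16403144)) (l 1)) (a (b (l 16256856) (l 1)) (l 4)))) (l 4)) (a (l 1) (l 4))), by decide +kernel⟩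

theorem c_pm_123_b : CertB 536870912 536870912 1239849684 370763052 966367641 24778659 3 eng mog cd1q1 cd1q2b pd3 true true false .npn 1 2 3
    ndB1q1 ndB1q2b pcB3 Cut.none Ext.none :=
  certB2 (fam := true) (s1 := true) (s2 := false) (a := 1) (b := 2) (c := 3) (cn := .npn) (n1 := ndB1q1) (n2 := ndB1q2b) (pc := pcB3) (cut := Cut.none) (xt := Ext.none) (P1 := 536870912) (W1 := 536870912) (P2 := 1239849684) (W2 := 370763052) (P3 := 966367641) (W3 := 24778659) (N0 := 3) (En := eng) (mo := mog) (C1 := cd1q1) (C2 := cd1q2b) (C3 := pd3)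
    rfl (fun _ => rfl) k0_pm_123_b

noncomputable def f_pm_133 : ℕ → ℕ → ℕ → ℕ → Bool := onCell 536870912 536870912 1610612736 536870912 966367641 24778659
    (rowB 3 eng mog cd1q1 cd1q3 pd3 0 true true false .dn 1 3 3 (qsf 536870912 536870912 1610612736 536870912 3) ndB1q1 ndB1q3 pcB3 Cut.none Ext.none)

def k0_pm_133 : ∃ t, chk3 f_pm_133 t 1 1 1 = true :=
  ⟨(l 4), by decide +kernel⟩

theorem c_pm_133 : CertB 536870912 536870912 1610612736 536870912 966367641 24778659 3 eng mog cd1q1 cd1q3 pd3 true true false .dn 1 3 3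
    ndB1q1 ndB1q3 pcB3 Cut.none Ext.none :=
  certB0 (fam := true) (s1 := true) (s2 := false) (a := 1) (b := 3) (c := 3) (cn := .dn) (n1 := ndB1q1) (n2 := ndB1q3) (pc := pcB3) (cut := Cut.none) (xt := Ext.none) (P1 := 536870912) (W1 := 536870912) (P2 := 1610612736) (W2 := 536870912) (P3 := 966367641) (W3 := 24778659) (N0 := 3) (En := eng) (mo := mog) (C1 := cd1q1) (C2 := cd1q3) (C3 := pd3)
    rfl k0_pm_133

noncomputable def cut_pm_202_a : Cut := Cut.of [[⟨0, 1, 0, 67108864⟩, ⟨1, 0, 0, 67108864⟩, ⟨2, 1, 0, 67108864⟩]]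

noncomputable def f_pm_202_a : ℕ → ℕ → ℕ → ℕ → Bool := onCell 0 536870912 1073741824 536870912 966367641 24778659
    (rowB 3 eng mog cd1q2a cd1q0 pd2 1 true true false .pp 2 0 2 (qsf 0 536870912 0 536870912 2) ndB1q2a ndB1q0 pcB2 cut_pm_202_a Ext.none)

def k0_pm_202_a : ∃ t, chk3 f_pm_202_a t 2 1 1 = true :=
  ⟨(b (a (b (l 1) (b (b (b (l 1) (a (c (b (l 1) (l 16088696)) (l 16028048)) (c (l 280278738471) (l 322691478135)))) (a (c (c (l 16139128) (l 16128808)) (b (l 16083352) (l 16163960))) (b (c (l 16141512) (l 16077096)) (c (l 16194752) (l 16158280))))) (b (a (b (l 16243184) (l 16317712)) (b (l 16245312) (l 16316488))) (a (l 16282624) (l 16360376))))) (b (b (l 1) (b (l 1) (a (l 1) (a (l 1) (b (l 1) (b (l 1) (a (l 299069346183) (l 386042480087)))))))) (b (b (b (a (b (l 1) (a (l 16046872) (l 353293254983))) (c (a (l 389263710695) (l 285110847799)) (a (l 384968577351) (l 16104840)))) (a (c (a (l 16099784) (l 16149032)) (c (l 16067312) (l 16034896)))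 (c (a (l 16184280) (l 16227912)) (a (l 16109112) (l 16147256))))) (a (b (c (l 16182592) (l 16122080)) (c (l 16236400) (l 16187064))) (b (c (l 16255296) (l 16185816)) (l 16155856)))) (b (a (b (l 16278688) (l 16345936)) (b (l 16280920) (l 16406360))) (a (l 16425792) (l 16499808)))))) (b (b (a (b (c (l 16445992) (l 16388000)) (c (l 16348608) (l 16215520))) (b (a (l 16432832) (l 16418760)) (a (l 16321976) (l 16309216)))) (a (b (c (l 16256448) (l 16131784)) (c (l 16170312) (l 16012256))) (b (c (l 16248168) (l 16170760)) (c (l 16163264) (l 16056000))))) (b (a (c (b (l 16090936) (l 16019048)) (b (l 15900160) (l 15796752))) (c (b (l 16085152) (l 16014608)) (b (l 15948328) (l 15848968)))) (a (b (a (c (l 15961888) (l 15702456)) (l 15847000)) (a (c (l 15950536) (l 15694216)) (l 15788608))) (c (b (l 15952352) (l 15899104)) (a (l 15714176) (l 15722680))))))), by decide +kernel⟩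

def k1_pm_202_a : ∃ t, chk3 f_pm_202_a t 3 8 1 = true :=
  ⟨(a (l 1) (a (b (l 1) (a (a (l 1) (b (l 1) (b (l 1) (b (a (l 1) (l 6)) (a (c (l 256120203511) (b (l 192769312967) (l 203506736311))) (c (l 16414800) (a (l 16341088) (l 16374440)))))))) (b (l 6) (b (l 6) (b (l 6) (a (b (l 6) (c (l 16469320) (l 16406720))) (c (l 16519816) (l 16458672)))))))) (b (l 6) (b (l 6) (b (l 6) (b (l 6) (a (a (l 16419328) (l 16546320)) (l 16553192)))))))), by decide +kernel⟩

def k2_pm_202_a : ∃ t, chk3 f_pm_202_a t 3 18 1 = true :=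
  ⟨(a (a (l 1) (b (a (l 1) (b (l 1) (a (a (l 1) (c (l 171831280759) (l 161630589335))) (c (c (l 285111138727) (l 281889847335)) (b (a (l 151966972263) (l 16265304)) (a (l 16244720) (l 16287312))))))) (a (a (a (l 1) (b (l 1) (c (l 290479647495) (l 296921941879)))) (b (a (l 1) (c (l 193306059751) (l 187937195959))) (c (b (l 136934618215) (l 16297736)) (b (b (l 16185920) (l 16188328)) (l 16192136))))) (b (a (c (b (l 133713447015) (l 16301760)) (b (l 158946244455) (l 242698113639))) (c (a (l 16350240) (l 16371648)) (b (l 16280424) (l 16284464)))) (c (a (b (l 16329888) (l 16337096)) (l 16374816)) (a (b (l 16247232) (l 16251784)) (l 16290768))))))) (a (b (a (b (a (a (b (l 1) (c (l 16350248) (l 259341222999))) (c (b (l 266857583063) (l 16373152)) (b (l 255046299047) (l 16304680)))) (c (a (b (l 16390848) (l 16417568)) (l 16438728)) (a (b (l 16335920) (l 16349256)) (l 16351088)))) (a (c (a (l 16360920) (l 16403296)) (c (l 16316768) (l 16279376))) (c (l 16417488)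 (l 16365960)))) (c (b (a (l 16413000) (l 16506544)) (a (l 16487240) (l 16540408))) (a (b (a (l 16396896) (l 16422312)) (l 16415536)) (b (l 16441432) (l 16473032))))) (a (c (b (a (l 16404840) (l 16450928)) (l 16337720)) (b (a (l 16326432) (l 16373056)) (a (l 16334648) (l 16385600)))) (a (c (l 16467624) (l 16373200)) (l 16406112)))) (a (a (b (c (l 16507152) (l 16426744)) (l 16488544)) (b (l 16501136) (l 16594136))) (b (c (l 16501104) (l 16536816)) (b (l 16497192) (l 16468456)))))), by decide +kernel⟩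

def k3_pm_202_a : ∃ t, chk3 f_pm_202_a t 3 19 1 = true :=
  ⟨(a (a (b (b (a (l 1) (a (l 1) (c (l 313565049975) (l 320007342263)))) (c (a (l 257193502279) (a (l 16198112) (l 16251968))) (a (l 260414564151) (a (l 16113568) (l 16144272))))) (c (a (b (l 157335551607) (l 16209336)) (b (l 16252312) (l 16269448))) (a (b (l 137471165655) (l 16124176)) (b (l 16164112) (l 16179008))))) (b (a (b (c (a (l 178273647815) (l 16308648)) (a (l 187937173287) (l 16221320))) (c (a (l 16286808) (l 16323616)) (a (l 16198064) (l 16233016)))) (b (c (a (l 16347936) (l 16389144)) (a (l 16259192) (l 16300136))) (c (l 16342712) (a (l 16270888) (l 16315696))))) (a (c (b (l 16321400) (l 16339672)) (b (l 16229400) (l 16248248))) (c (l 16307688) (b (l 16313920) (l 16337872)))))) (a (a (a (b (b (l 16266016) (l 16348040)) (l 16274064)) (b (l 16328176) (l 16366976))) (b (b (l 16403496) (l 16421504)) (l 16385752))) (a (a (l 16454480) (l 16415344)) (b (l 16383120) (a (l 16501104) (l 16463584)))))),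 by decide +kernel⟩

def k4_pm_202_a : ∃ t, chk3 f_pm_202_a t 3 5 1 = true :=
  ⟨(a (a (b (c (b (b (a (l 16174656) (l 16298944)) (l 16145440)) (b (l 16340552) (l 16410720))) (b (b (a (b (l 16141072) (l 16159616)) (l 16189048)) (a (l 16198864) (l 16264696))) (l 16136176))) (b (c (l 16484760) (l 16410592)) (l 16491568))) (b (a (b (b (c (l 16350128) (l 16285912)) (l 16273800)) (l 16224064)) (b (c (l 16326496) (l 16253920)) (l 16342712))) (b (c (l 16510120) (l 16532840)) (l 16270880)))) (b (b (a (b (a (l 16340952) (l 16485256)) (a (l 16488152) (l 16534584))) (b (a (l 16397216) (l 16351936)) (b (a (l 16460248) (l 16393712)) (a (a (l 16497688) (l 16365952)) (b (l 16372808) (l 16359256)))))) (c (a (l 16293144) (b (l 16217328) (l 16268408))) (a (l 16343104) (a (l 16355632) (l 16240664))))) (a (b (a (l 16406416) (l 16249808)) (c (l 16293240) (l 16285128))) (b (c (l 15979352) (a (l 16296144) (l 16183232))) (c (l 16065408) (l 16015496)))))), by decide +kernel⟩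

def k5_pm_202_a : ∃ t, chk3 f_pm_202_a t 3 3 1 = true :=
  ⟨(b (a (b (a (b (l 16379368) (l 16270960)) (b (l 16222560) (l 16199344))) (a (b (l 16167568) (l 16070336)) (b (l 16097640) (l 16002512)))) (b (a (b (c (l 16193808) (l 16185600)) (c (l 16099560) (l 16069240))) (b (c (l 16030408) (l 16003496)) (c (l 15938392) (l 15891568)))) (a (b (l 15775808) (l 15746752)) (b (c (l 15853296) (l 15786048)) (c (l 15776064) (l 15688304)))))) (a (b (a (b (l 15980344) (l 15898592)) (b (l 15915056) (l 15836304))) (a (c (l 15878200) (l 15705352)) (c (l 15814184) (l 15656008)))) (b (a (c (l 15825384) (l 15464352)) (b (c (l 15707576) (l 15599640)) (c (l 15648656) (l 15521304)))) (a (c (l 15717600) (l 15566632)) (c (b (l 15600072) (l 15562520)) (b (l 15454448) (l 15400216))))))), by decide +kernel⟩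

theorem s6_pm_202_a : ∃ t, chk3 f_pm_202_a t 3 9 1 = true := ex3_b k2_pm_202_a k3_pm_202_a

theorem s7_pm_202_a : ∃ t, chk3 f_pm_202_a t 3 4 1 = true := ex3_b k1_pm_202_a s6_pm_202_a

theorem s8_pm_202_a : ∃ t, chk3 f_pm_202_a t 3 2 1 = true := ex3_b s7_pm_202_a k4_pm_202_a

theorem s9_pm_202_a : ∃ t, chk3 f_pm_202_a t 3 1 1 = true := ex3_b s8_pm_202_a k5_pm_202_a

theorem s10_pm_202_a : ∃ t, chk3 f_pm_202_a t 1 1 1 = true := ex3_a k0_pm_202_a s9_pm_202_a

theorem c_pm_202_a : CertB 0 536870912 0 536870912 966367641 24778659 3 eng mog cd1q2a cd1q0 pd2 true true false .pp 2 0 2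
    ndB1q2a ndB1q0 pcB2 cut_pm_202_a Ext.none :=
  certB1 (fam := true) (s1 := true) (s2 := false) (a := 2) (b := 0) (c := 2) (cn := .pp) (n1 := ndB1q2a) (n2 := ndB1q0) (pc := pcB2) (cut := cut_pm_202_a) (xt := Ext.none) (P1 := 0) (W1 := 536870912) (P2 := 0) (W2 := 536870912) (P3 := 966367641) (W3 := 24778659) (N0 := 3) (En := eng) (mo := mog) (C1 := cd1q2a) (C2 := cd1q0) (C3 := pd2)
    rfl (fun _ => rfl) s10_pm_202_a

noncomputable def cut_pm_202_b : Cut := Cut.of [[⟨0, 1, 0, 67108864⟩, ⟨1, 0, 0, 67108864⟩, ⟨2, 1, 0, 67108864⟩]]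

noncomputable def f_pm_202_b : ℕ → ℕ → ℕ → ℕ → Bool := onCell 1073741824 536870912 0 536870912 966367641 24778659
    (rowB 3 eng mog cd1q2b cd1q0 pd2 2 true true false .pp 2 0 2 (qsf 1239849684 370763052 0 536870912 2) ndB1q2b ndB1q0 pcB2 cut_pm_202_b Ext.none)

def k0_pm_202_b : ∃ t, chk3 f_pm_202_b t 2 1 1 = true :=
  ⟨(b (b (a (l 1) (b (a (b (b (a (c (l 253972089735) (l 270615041847)) (c (c (l 16107280) (l 16101176)) (l 16092024))) (a (l 1) (c (l 16191376) (l 16181384)))) (a (l 1) (c (l 16227720) (l 16237304)))) (b (a (c (b (l 16042176) (l 16129624)) (b (l 16036232) (l 16126344))) (c (b (l 15985064) (l 16072648)) (l 15948840))) (a (c (l 16208352) (l 16225280)) (c (l 16214504) (l 16198520))))) (a (l 1) (b (a (l 16252920) (l 16222104)) (a (l 1) (l 16361824)))))) (l 1)) (l 1)), by decide +kernel⟩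

def k1_pm_202_b : ∃ t, chk3 f_pm_202_b t 3 1 1 = true :=
  ⟨(a (b (b (b (a (b (a (c (l 15892840) (l 15969712)) (a (l 15762744) (l 15785072))) (c (a (l 16162240) (l 16114320)) (a (l 16198856) (l 16163096)))) (b (c (a (l 15885824) (l 15846464)) (a (l 15925080) (l 15879392))) (a (c (l 16070464) (l 16132712)) (l 15899936)))) (a (c (b (l 16263848) (l 16414824)) (b (l 16353400) (l 16327888))) (c (b (l 16237944) (l 16312552)) (b (l 16246432) (l 16203872))))) (a (b (c (b (l 16358176) (l 16098888)) (a (l 275446708967) (l 16073888))) (l 1)) (b (c (l 151429712903) (a (l 16135624) (l 16088120))) (c (a (l 15932064) (l 16127288)) (a (l 275983043687) (l 15926528)))))) (l 1)) (b (b (a (c (b (b (b (l 15645984) (l 15752752)) (l 15976024)) (l 15988088)) (b (b (l 15640880) (l 16075936)) (l 16052504))) (b (c (b (a (l 15746024) (l 15715824)) (l 15910312)) (b (l 15735912) (l 15880776))) (a (l 15921944) (c (l 16035904) (l 15879400))))) (a (b (c (l 16177088) (l 15820240))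 (c (l 113311460039) (a (l 15900496) (l 15871408)))) (b (a (l 15770264) (l 15757480)) (a (c (l 16079064) (l 15857288)) (l 15822664))))) (b (a (b (a (c (l 284036624327) (l 280278087079)) (c (l 15973552) (l 190083212887))) (l 1)) (b (a (c (l 15998216) (l 15616000)) (c (l 16058576) (l 15839336))) (a (c (l 335575566615) (l 325374435831)) (c (l 15956488) (l 15704960))))) (l 1)))), by decide +kernel⟩

theorem s2_pm_202_b : ∃ t, chk3 f_pm_202_b t 1 1 1 = true := ex3_a k0_pm_202_b k1_pm_202_b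

theorem c_pm_202_b : CertB 1239849684 370763052 0 536870912 966367641 24778659 3 eng mog cd1q2b cd1q0 pd2 true true false .pp 2 0 2
    ndB1q2b ndB1q0 pcB2 cut_pm_202_b Ext.none :=
  certB2 (fam := true) (s1 := true) (s2 := false) (a := 2) (b := 0) (c := 2) (cn := .pp) (n1 := ndB1q2b) (n2 := ndB1q0) (pc := pcB2) (cut := cut_pm_202_b) (xt := Ext.none) (P1 := 1239849684) (W1 := 370763052) (P2 := 0) (W2 := 536870912) (P3 := 966367641) (W3 := 24778659) (N0 := 3) (En := eng) (mo := mog) (C1 := cd1q2b) (C2 := cd1q0) (C3 := pd2)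
    rfl (fun _ => rfl) s2_pm_202_b

noncomputable def f_pm_203_a : ℕ → ℕ → ℕ → ℕ → Bool := onCell 0 536870912 1610612736 536870912 966367641 24778659
    (rowB 3 eng mog cd1q2a cd1q0 pd3 1 true true false .up 2 0 3 (qsf 0 536870912 0 536870912 3) ndB1q2a ndB1q0 pcB3 Cut.none Ext.none)

def k0_pm_203_a : ∃ t, chk3 f_pm_203_a t 1 1 1 = true :=
  ⟨(b (b (a (b (c (a (b (l 16315488) (l 16291648)) (b (l 16220032) (l 16193968))) (a (b (l 15904536) (l 16010168)) (b (l 15881920) (l 15821576)))) (a (c (l 16057312) (b (l 16052480) (l 16110848))) (c (b (l 16180952) (l 16184096)) (b (a (l 15922024) (l 15827344)) (l 15796448))))) (a (a (b (c (l 16087872) (l 15770992)) (b (l 15912432) (l 15668848))) (b (c (l 15977248) (l 15673744)) (c (l 15958152) (l 15661368)))) (a (b (c (l 15835504) (l 15540952)) (c (l 15824776) (l 15583280))) (b (c (b (l 15663472) (l 15650328)) (b (l 15370520) (l 15361064))) (l 2))))) (a (b (b (a (l 16232600) (c (l 16204824) (l 15996424))) (a (l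 16312920) (l 2))) (l 2)) (a (l 2) (l 2)))) (l 2)), by decide +kernel⟩

theorem c_pm_203_a : CertB 0 536870912 0 536870912 966367641 24778659 3 eng mog cd1q2a cd1q0 pd3 true true false .up 2 0 3
    ndB1q2a ndB1q0 pcB3 Cut.none Ext.none :=
  certB1 (fam := true) (s1 := true) (s2 := false) (a := 2) (b := 0) (c := 3) (cn := .up) (n1 := ndB1q2a) (n2 := ndB1q0) (pc := pcB3) (cut := Cut.none) (xt := Ext.none) (P1 := 0) (W1 := 536870912) (P2 := 0) (W2 := 536870912) (P3 := 966367641) (W3 := 24778659) (N0 := 3) (En := eng) (mo := mog) (C1 := cd1q2a) (C2 := cd1q0) (C3 := pd3)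
    rfl (fun _ => rfl) k0_pm_203_a

noncomputable def f_pm_203_b : ℕ → ℕ → ℕ → ℕ → Bool := onCell 1239849684 370763052 1610612736 536870912 966367641 24778659
    (rowB 3 eng mog cd1q2b cd1q0 pd3 1 true true false .up 2 0 3 (qsf 1239849684 370763052 0 536870912 3) ndB1q2b ndB1q0 pcB3 Cut.none Ext.none)

def k0_pm_203_b : ∃ t, chk3 f_pm_203_b t 1 1 1 = true :=
  ⟨(b (b (a (b (a (c (b (l 16414272) (l 16397912)) (b (l 16088032) (l 16180816))) (b (c (l 16386120) (l 16253920)) (c (l 16458968) (l 16294592)))) (a (b (c (l 16397336) (l 16228352)) (c (l 16411664) (l 16289552))) (b (l 16248824) (l 16464008)))) (b (a (b (c (a (l 16134896) (l 15919616)) (l 16109784)) (c (l 16150144) (l 16264456))) (b (c (a (b (l 15657472) (l 15729000)) (b (l 15242680) (l 15352728))) (a (l 15713696) (b (a (l 15701656) (l 15582520)) (l 15661376)))) (c (a (l 15787440) (l 15478416)) (a (l 16019592) (l 15776688))))) (a (b (c (l 16254696) (l 16332704)) (l 16246256)) (b (c (a (l 15950360)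 (l 15732936)) (l 15987864)) (c (l 15956208) (l 16066304)))))) (b (a (a (b (l 16255600) (l 16334896)) (b (l 16523640) (l 16592936))) (a (b (l 16478192) (l 16535592)) (b (l 16097408) (l 16177600)))) (b (a (a (c (l 16530624) (l 16480392)) (l 16576160)) (a (l 16592248) (l 16236296))) (l 4)))) (b (l 4) (l 4))), by decide +kernel⟩

theorem c_pm_203_b : CertB 1239849684 370763052 0 536870912 966367641 24778659 3 eng mog cd1q2b cd1q0 pd3 true true false .up 2 0 3
    ndB1q2b ndB1q0 pcB3 Cut.none Ext.none :=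
  certB1 (fam := true) (s1 := true) (s2 := false) (a := 2) (b := 0) (c := 3) (cn := .up) (n1 := ndB1q2b) (n2 := ndB1q0) (pc := pcB3) (cut := Cut.none) (xt := Ext.none) (P1 := 1239849684) (W1 := 370763052) (P2 := 0) (W2 := 536870912) (P3 := 966367641) (W3 := 24778659) (N0 := 3) (En := eng) (mo := mog) (C1 := cd1q2b) (C2 := cd1q0) (C3 := pd3)
    rfl (fun _ => rfl) k0_pm_203_b

noncomputable def f_pm_213_a : ℕ → ℕ → ℕ → ℕ → Bool := onCell 0 536870912 1610612736 536870912 966367641 24778659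
    (rowB 3 eng mog cd1q2a cd1q1 pd3 1 true true false .pnn 2 1 3 (qsf 0 536870912 536870912 536870912 3) ndB1q2a ndB1q1 pcB3 Cut.none Ext.none)

def k0_pm_213_a : ∃ t, chk3 f_pm_213_a t 1 1 1 = true :=
  ⟨(a (b (b (a (l 1) (a (l 1) (b (l 1) (b (l 1) (l 15742376))))) (b (b (a (l 16196120) (l 7010863799)) (a (l 16264680) (l 16121304))) (b (a (l 16335208) (l 16194536)) (a (l 16184888) (l 16272304))))) (b (a (b (b (l 16329624) (l 4)) (l 4)) (b (b (l 16306832) (l 16221864)) (l 4))) (l 4))) (b (b (a (b (l 1) (b (c (l 15912296) (l 15672680)) (a (l 15863728) (l 15768144)))) (b (c (a (l 15715200) (l 15646144)) (a (l 15502296) (b (l 15340624) (l 15343544)))) (a (c (l 15734720) (l 15527424)) (b (l 15560464) (l 15473008))))) (a (b (b (a (l 15696056) (l 15797216)) (a (l 15970256) (l 15653448))) (b (a (l 16042840) (l 15910280)) (a (l 16122104) (l 15990000)))) (b (a (b (l 15669952) (l 15705800)) (c (l 15604256) (l 15422672))) (a (b (l 15736080) (l 15891240)) (b (l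 15583648) (l 15649544)))))) (a (b (b (b (l 16079464) (l 16046280)) (b (b (l 16305336) (l 16348720)) (a (l 4) (l 16370200)))) (l 4)) (b (b (a (b (l 15919536) (l 16021360)) (b (l 15863040) (l 15852768))) (b (a (l 16136608) (l 15995664)) (a (l 16266456) (l 16176888)))) (b (b (a (b (l 16370112) (l 4)) (l 16418688)) (a (l 4) (b (l 16665720) (l 4)))) (l 4)))))), by decide +kernel⟩

theorem c_pm_213_a : CertB 0 536870912 536870912 536870912 966367641 24778659 3 eng mog cd1q2a cd1q1 pd3 true true false .pnn 2 1 3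
    ndB1q2a ndB1q1 pcB3 Cut.none Ext.none :=
  certB1 (fam := true) (s1 := true) (s2 := false) (a := 2) (b := 1) (c := 3) (cn := .pnn) (n1 := ndB1q2a) (n2 := ndB1q1) (pc := pcB3) (cut := Cut.none) (xt := Ext.none) (P1 := 0) (W1 := 536870912) (P2 := 536870912) (W2 := 536870912) (P3 := 966367641) (W3 := 24778659) (N0 := 3) (En := eng) (mo := mog) (C1 := cd1q2a) (C2 := cd1q1) (C3 := pd3)
    rfl (fun _ => rfl) k0_pm_213_a

noncomputable def f_pm_213_b : ℕ → ℕ → ℕ → ℕ → Bool := onCell 1239849684 370763052 1610612736 536870912 966367641 24778659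
    (rowB 3 eng mog cd1q2b cd1q1 pd3 1 true true false .pnn 2 1 3 (qsf 1239849684 370763052 536870912 536870912 3) ndB1q2b ndB1q1 pcB3 Cut.none Ext.none)

def k0_pm_213_b : ∃ t, chk3 f_pm_213_b t 1 1 1 = true :=
  ⟨(a (b (b (l 1) (b (a (b (l 16332536) (l 16403144)) (l 1)) (b (a (l 16319776) (l 1)) (l 4)))) (l 4)) (b (l 1) (l 4))), by decide +kernel⟩

theorem c_pm_213_b : CertB 1239849684 370763052 536870912 536870912 966367641 24778659 3 eng mog cd1q2b cd1q1 pd3 true true false .pnn 2 1 3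
    ndB1q2b ndB1q1 pcB3 Cut.none Ext.none :=
  certB1 (fam := true) (s1 := true) (s2 := false) (a := 2) (b := 1) (c := 3) (cn := .pnn) (n1 := ndB1q2b) (n2 := ndB1q1) (pc := pcB3) (cut := Cut.none) (xt := Ext.none) (P1 := 1239849684) (W1 := 370763052) (P2 := 536870912) (W2 := 536870912) (P3 := 966367641) (W3 := 24778659) (N0 := 3) (En := eng) (mo := mog) (C1 := cd1q2b) (C2 := cd1q1) (C3 := pd3)
    rfl (fun _ => rfl) k0_pm_213_b

noncomputable def f_pm_303 : ℕ → ℕ → ℕ → ℕ → Bool := onCell 1610612736 536870912 0 536870912 966367641 24778659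
    (rowB 3 eng mog cd1q3 cd1q0 pd3 2 true true false .npn 3 0 3 (qsf 1610612736 536870912 0 536870912 3) ndB1q3 ndB1q0 pcB3 Cut.none Ext.none)

def k0_pm_303 : ∃ t, chk3 f_pm_303 t 1 1 1 = true :=
  ⟨(a (b (a (b (a (a (b (c (b (c (l 15534600) (l 15601848)) (l 15694080)) (b (l 15713040) (l 15846872))) (l 1)) (b (c (b (l 15530480) (l 15658000)) (b (l 15646672) (l 15777576))) (c (l 15860880) (l 15936368)))) (b (c (a (b (l 15420712) (l 15610896)) (l 15491984)) (a (b (l 15555736) (l 15686696)) (l 15525112))) (a (c (l 15813352) (l 15915696)) (c (l 15757320) (l 15820064))))) (a (l 1) (a (l 1) (b (l 16063680) (l 1))))) (a (b (b (a (b (l 15363240) (l 15493016)) (b (l 15075304) (l 15414848))) (a (l 15709624) (l 15631520))) (c (a (l 16077888) (l 16013368)) (a (l 16105184) (l 16077704)))) (b (a (b (b (l 15023368) (l 15341656)) (a (l 15575528) (l 15542384))) (b (a (l 15233960) (l 4)) (l 4))) (a (b (l 15840336) (l 16104960)) (l 4))))) (a (l 1) (a (l 1) (a (l 1)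 (l 4))))) (a (l 4) (l 4))), by decide +kernel⟩

theorem c_pm_303 : CertB 1610612736 536870912 0 536870912 966367641 24778659 3 eng mog cd1q3 cd1q0 pd3 true true false .npn 3 0 3
    ndB1q3 ndB1q0 pcB3 Cut.none Ext.none :=
  certB2 (fam := true) (s1 := true) (s2 := false) (a := 3) (b := 0) (c := 3) (cn := .npn) (n1 := ndB1q3) (n2 := ndB1q0) (pc := pcB3) (cut := Cut.none) (xt := Ext.none) (P1 := 1610612736) (W1 := 536870912) (P2 := 0) (W2 := 536870912) (P3 := 966367641) (W3 := 24778659) (N0 := 3) (En := eng) (mo := mog) (C1 := cd1q3) (C2 := cd1q0) (C3 := pd3)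
    rfl (fun _ => rfl) k0_pm_303

noncomputable def f_pm_313 : ℕ → ℕ → ℕ → ℕ → Bool := onCell 1610612736 536870912 536870912 536870912 966367641 24778659
    (rowB 3 eng mog cd1q3 cd1q1 pd3 0 true true false .dn 3 1 3 (qsf 1610612736 536870912 536870912 536870912 3) ndB1q3 ndB1q1 pcB3 Cut.none Ext.none)

def k0_pm_313 : ∃ t, chk3 f_pm_313 t 1 1 1 = true :=
  ⟨(l 4), by decide +kernel⟩

theorem c_pm_313 : CertB 1610612736 536870912 536870912 536870912 966367641 24778659 3 eng mog cd1q3 cd1q1 pd3 true true false .dn 3 1 3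
    ndB1q3 ndB1q1 pcB3 Cut.none Ext.none :=
  certB0 (fam := true) (s1 := true) (s2 := false) (a := 3) (b := 1) (c := 3) (cn := .dn) (n1 := ndB1q3) (n2 := ndB1q1) (pc := pcB3) (cut := Cut.none) (xt := Ext.none) (P1 := 1610612736) (W1 := 536870912) (P2 := 536870912) (W2 := 536870912) (P3 := 966367641) (W3 := 24778659) (N0 := 3) (En := eng) (mo := mog) (C1 := cd1q3) (C2 := cd1q1) (C3 := pd3)
    rfl k0_pm_313

noncomputable def f_mm_001 : ℕ → ℕ → ℕ → ℕ → Bool := onCell 0 536870912 0 536870912 966367641 24778659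
    (rowB 3 eng mog cd1q0 cd1q0 pd1 0 true false false .up 0 0 1 (qsf 0 536870912 0 536870912 1) ndB1q0 ndB1q0 pcB1 Cut.none Ext.none)

def k0_mm_001 : ∃ t, chk3 f_mm_001 t 1 1 1 = true :=
  ⟨(l 4), by decide +kernel⟩

theorem c_mm_001 : CertB 0 536870912 0 536870912 966367641 24778659 3 eng mog cd1q0 cd1q0 pd1 true false false .up 0 0 1
    ndB1q0 ndB1q0 pcB1 Cut.none Ext.none :=
  certB0 (fam := true) (s1 := false) (s2 := false) (a := 0) (b := 0) (c := 1) (cn := .up) (n1 := ndB1q0) (n2 := ndB1q0) (pc := pcB1) (cut := Cut.none) (xt := Ext.none) (P1 := 0) (W1 := 536870912) (P2 := 0) (W2 := 536870912) (P3 := 966367641) (W3 := 24778659) (N0 := 3) (En := eng) (mo := mog) (C1 := cd1q0) (C2 := cd1q0) (C3 := pd1)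
    rfl k0_mm_001

noncomputable def f_mm_011 : ℕ → ℕ → ℕ → ℕ → Bool := onCell 0 536870912 536870912 536870912 966367641 24778659
    (rowB 3 eng mog cd1q0 cd1q1 pd1 0 true false false .pnn 0 1 1 (qsf 0 536870912 536870912 536870912 1) ndB1q0 ndB1q1 pcB1 Cut.none Ext.none)

def k0_mm_011 : ∃ t, chk3 f_mm_011 t 1 1 1 = true :=
  ⟨(l 4), by decide +kernel⟩

theorem c_mm_011 : CertB 0 536870912 536870912 536870912 966367641 24778659 3 eng mog cd1q0 cd1q1 pd1 true false false .pnn 0 1 1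
    ndB1q0 ndB1q1 pcB1 Cut.none Ext.none :=
  certB0 (fam := true) (s1 := false) (s2 := false) (a := 0) (b := 1) (c := 1) (cn := .pnn) (n1 := ndB1q0) (n2 := ndB1q1) (pc := pcB1) (cut := Cut.none) (xt := Ext.none) (P1 := 0) (W1 := 536870912) (P2 := 536870912) (W2 := 536870912) (P3 := 966367641) (W3 := 24778659) (N0 := 3) (En := eng) (mo := mog) (C1 := cd1q0) (C2 := cd1q1) (C3 := pd1)
    rfl k0_mm_011

noncomputable def f_mm_012 : ℕ → ℕ → ℕ → ℕ → Bool := onCell 0 536870912 536870912 536870912 966367641 24778659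
    (rowB 3 eng mog cd1q0 cd1q1 pd2 0 true false false .pnp 0 1 2 (qsf 0 536870912 536870912 536870912 2) ndB1q0 ndB1q1 pcB2 Cut.none Ext.none)

def k0_mm_012 : ∃ t, chk3 f_mm_012 t 1 1 1 = true :=
  ⟨(l 4), by decide +kernel⟩

theorem c_mm_012 : CertB 0 536870912 536870912 536870912 966367641 24778659 3 eng mog cd1q0 cd1q1 pd2 true false false .pnp 0 1 2
    ndB1q0 ndB1q1 pcB2 Cut.none Ext.none :=
  certB0 (fam := true) (s1 := false) (s2 := false) (a := 0) (b := 1) (c := 2) (cn := .pnp) (n1 := ndB1q0) (n2 := ndB1q1) (pc := pcB2) (cut := Cut.none) (xt := Ext.none) (P1 := 0) (W1 := 536870912) (P2 := 536870912) (W2 := 536870912) (P3 := 966367641) (W3 := 24778659) (N0 := 3) (En := eng) (mo := mog) (C1 := cd1q0) (C2 := cd1q1) (C3 := pd2)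
    rfl k0_mm_012

noncomputable def f_mm_022_a : ℕ → ℕ → ℕ → ℕ → Bool := onCell 0 536870912 0 536870912 966367641 24778659
    (rowB 3 eng mog cd1q0 cd1q2a pd2 0 true false false .pp 0 2 2 (qsf 0 536870912 0 536870912 2) ndB1q0 ndB1q2a pcB2 Cut.none Ext.none)

def k0_mm_022_a : ∃ t, chk3 f_mm_022_a t 1 1 1 = true :=
  ⟨(l 5), by decide +kernel⟩

theorem c_mm_022_a : CertB 0 536870912 0 536870912 966367641 24778659 3 eng mog cd1q0 cd1q2a pd2 true false false .pp 0 2 2
    ndB1q0 ndB1q2a pcB2 Cut.none Ext.none :=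
  certB0 (fam := true) (s1 := false) (s2 := false) (a := 0) (b := 2) (c := 2) (cn := .pp) (n1 := ndB1q0) (n2 := ndB1q2a) (pc := pcB2) (cut := Cut.none) (xt := Ext.none) (P1 := 0) (W1 := 536870912) (P2 := 0) (W2 := 536870912) (P3 := 966367641) (W3 := 24778659) (N0 := 3) (En := eng) (mo := mog) (C1 := cd1q0) (C2 := cd1q2a) (C3 := pd2)
    rfl k0_mm_022_a

noncomputable def f_mm_022_b : ℕ → ℕ → ℕ → ℕ → Bool := onCell 0 536870912 1239849684 370763052 966367641 24778659
    (rowB 3 eng mog cd1q0 cd1q2b pd2 0 true false false .pp 0 2 2 (qsf 0 536870912 1239849684 370763052 2) ndB1q0 ndB1q2b pcB2 Cut.none Ext.none)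

def k0_mm_022_b : ∃ t, chk3 f_mm_022_b t 1 1 1 = true :=
  ⟨(l 5), by decide +kernel⟩

theorem c_mm_022_b : CertB 0 536870912 1239849684 370763052 966367641 24778659 3 eng mog cd1q0 cd1q2b pd2 true false false .pp 0 2 2
    ndB1q0 ndB1q2b pcB2 Cut.none Ext.none :=
  certB0 (fam := true) (s1 := false) (s2 := false) (a := 0) (b := 2) (c := 2) (cn := .pp) (n1 := ndB1q0) (n2 := ndB1q2b) (pc := pcB2) (cut := Cut.none) (xt := Ext.none) (P1 := 0) (W1 := 536870912) (P2 := 1239849684) (W2 := 370763052) (P3 := 966367641) (W3 := 24778659) (N0 := 3) (En := eng) (mo := mog) (C1 := cd1q0) (C2 := cd1q2b) (C3 := pd2)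
    rfl k0_mm_022_b

noncomputable def f_mm_023_a : ℕ → ℕ → ℕ → ℕ → Bool := onCell 0 536870912 0 536870912 966367641 24778659
    (rowB 3 eng mog cd1q0 cd1q2a pd3 0 true false false .up 0 2 3 (qsf 0 536870912 0 536870912 3) ndB1q0 ndB1q2a pcB3 Cut.none Ext.none)

def k0_mm_023_a : ∃ t, chk3 f_mm_023_a t 1 1 1 = true :=
  ⟨(l 5), by decide +kernel⟩

theorem c_mm_023_a : CertB 0 536870912 0 536870912 966367641 24778659 3 eng mog cd1q0 cd1q2a pd3 true false false .up 0 2 3
    ndB1q0 ndB1q2a pcB3 Cut.none Ext.none :=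
  certB0 (fam := true) (s1 := false) (s2 := false) (a := 0) (b := 2) (c := 3) (cn := .up) (n1 := ndB1q0) (n2 := ndB1q2a) (pc := pcB3) (cut := Cut.none) (xt := Ext.none) (P1 := 0) (W1 := 536870912) (P2 := 0) (W2 := 536870912) (P3 := 966367641) (W3 := 24778659) (N0 := 3) (En := eng) (mo := mog) (C1 := cd1q0) (C2 := cd1q2a) (C3 := pd3)
    rfl k0_mm_023_a

noncomputable def f_mm_023_b : ℕ → ℕ → ℕ → ℕ → Bool := onCell 0 536870912 1239849684 370763052 966367641 24778659
    (rowB 3 eng mog cd1q0 cd1q2b pd3 0 true false false .up 0 2 3 (qsf 0 536870912 1239849684 370763052 3) ndB1q0 ndB1q2b pcB3 Cut.none Ext.none)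

def k0_mm_023_b : ∃ t, chk3 f_mm_023_b t 1 1 1 = true :=
  ⟨(l 5), by decide +kernel⟩

theorem c_mm_023_b : CertB 0 536870912 1239849684 370763052 966367641 24778659 3 eng mog cd1q0 cd1q2b pd3 true false false .up 0 2 3
    ndB1q0 ndB1q2b pcB3 Cut.none Ext.none :=
  certB0 (fam := true) (s1 := false) (s2 := false) (a := 0) (b := 2) (c := 3) (cn := .up) (n1 := ndB1q0) (n2 := ndB1q2b) (pc := pcB3) (cut := Cut.none) (xt := Ext.none) (P1 := 0) (W1 := 536870912) (P2 := 1239849684) (W2 := 370763052) (P3 := 966367641) (W3 := 24778659) (N0 := 3) (En := eng) (mo := mog) (C1 := cd1q0) (C2 := cd1q2b) (C3 := pd3)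
    rfl k0_mm_023_b

noncomputable def f_mm_033 : ℕ → ℕ → ℕ → ℕ → Bool := onCell 0 536870912 1610612736 536870912 966367641 24778659
    (rowB 3 eng mog cd1q0 cd1q3 pd3 0 true false false .pnn 0 3 3 (qsf 0 536870912 1610612736 536870912 3) ndB1q0 ndB1q3 pcB3 Cut.none Ext.none)

def k0_mm_033 : ∃ t, chk3 f_mm_033 t 1 1 1 = true :=
  ⟨(l 5), by decide +kernel⟩

theorem c_mm_033 : CertB 0 536870912 1610612736 536870912 966367641 24778659 3 eng mog cd1q0 cd1q3 pd3 true false false .pnn 0 3 3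
    ndB1q0 ndB1q3 pcB3 Cut.none Ext.none :=
  certB0 (fam := true) (s1 := false) (s2 := false) (a := 0) (b := 3) (c := 3) (cn := .pnn) (n1 := ndB1q0) (n2 := ndB1q3) (pc := pcB3) (cut := Cut.none) (xt := Ext.none) (P1 := 0) (W1 := 536870912) (P2 := 1610612736) (W2 := 536870912) (P3 := 966367641) (W3 := 24778659) (N0 := 3) (En := eng) (mo := mog) (C1 := cd1q0) (C2 := cd1q3) (C3 := pd3)
    rfl k0_mm_033

noncomputable def f_mm_101 : ℕ → ℕ → ℕ → ℕ → Bool := onCell 536870912 536870912 0 536870912 966367641 24778659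
    (rowB 3 eng mog cd1q1 cd1q0 pd1 0 true false false .npn 1 0 1 (qsf 536870912 536870912 0 536870912 1) ndB1q1 ndB1q0 pcB1 Cut.none Ext.none)

def k0_mm_101 : ∃ t, chk3 f_mm_101 t 1 1 1 = true :=
  ⟨(l 4), by decide +kernel⟩

theorem c_mm_101 : CertB 536870912 536870912 0 536870912 966367641 24778659 3 eng mog cd1q1 cd1q0 pd1 true false false .npn 1 0 1
    ndB1q1 ndB1q0 pcB1 Cut.none Ext.none :=
  certB0 (fam := true) (s1 := false) (s2 := false) (a := 1) (b := 0) (c := 1) (cn := .npn) (n1 := ndB1q1) (n2 := ndB1q0) (pc := pcB1) (cut := Cut.none) (xt := Ext.none) (P1 := 536870912) (W1 := 536870912) (P2 := 0) (W2 := 536870912) (P3 := 966367641) (W3 := 24778659) (N0 := 3) (En := eng) (mo := mog) (C1 := cd1q1) (C2 := cd1q0) (C3 := pd1)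
    rfl k0_mm_101

noncomputable def f_mm_102 : ℕ → ℕ → ℕ → ℕ → Bool := onCell 536870912 536870912 0 536870912 966367641 24778659
    (rowB 3 eng mog cd1q1 cd1q0 pd2 0 true false false .npp 1 0 2 (qsf 536870912 536870912 0 536870912 2) ndB1q1 ndB1q0 pcB2 Cut.none Ext.none)

def k0_mm_102 : ∃ t, chk3 f_mm_102 t 1 1 1 = true :=
  ⟨(l 4), by decide +kernel⟩

theorem c_mm_102 : CertB 536870912 536870912 0 536870912 966367641 24778659 3 eng mog cd1q1 cd1q0 pd2 true false false .npp 1 0 2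
    ndB1q1 ndB1q0 pcB2 Cut.none Ext.none :=
  certB0 (fam := true) (s1 := false) (s2 := false) (a := 1) (b := 0) (c := 2) (cn := .npp) (n1 := ndB1q1) (n2 := ndB1q0) (pc := pcB2) (cut := Cut.none) (xt := Ext.none) (P1 := 536870912) (W1 := 536870912) (P2 := 0) (W2 := 536870912) (P3 := 966367641) (W3 := 24778659) (N0 := 3) (En := eng) (mo := mog) (C1 := cd1q1) (C2 := cd1q0) (C3 := pd2)
    rfl k0_mm_102

noncomputable def f_mm_112 : ℕ → ℕ → ℕ → ℕ → Bool := onCell 536870912 536870912 536870912 536870912 966367641 24778659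
    (rowB 3 eng mog cd1q1 cd1q1 pd2 0 true false false .dn 1 1 2 (qsf 536870912 536870912 536870912 536870912 2) ndB1q1 ndB1q1 pcB2 Cut.none Ext.none)

def k0_mm_112 : ∃ t, chk3 f_mm_112 t 1 1 1 = true :=
  ⟨(l 4), by decide +kernel⟩

theorem c_mm_112 : CertB 536870912 536870912 536870912 536870912 966367641 24778659 3 eng mog cd1q1 cd1q1 pd2 true false false .dn 1 1 2
    ndB1q1 ndB1q1 pcB2 Cut.none Ext.none :=
  certB0 (fam := true) (s1 := false) (s2 := false) (a := 1) (b := 1) (c := 2) (cn := .dn) (n1 := ndB1q1) (n2 := ndB1q1) (pc := pcB2) (cut := Cut.none) (xt := Ext.none) (P1 := 536870912) (W1 := 536870912) (P2 := 536870912) (W2 := 536870912) (P3 := 966367641) (W3 := 24778659) (N0 := 3) (En := eng) (mo := mog) (C1 := cd1q1) (C2 := cd1q1) (C3 := pd2)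
    rfl k0_mm_112

noncomputable def f_mm_113 : ℕ → ℕ → ℕ → ℕ → Bool := onCell 536870912 536870912 536870912 536870912 966367641 24778659
    (rowB 3 eng mog cd1q1 cd1q1 pd3 0 true false false .nn 1 1 3 (qsf 536870912 536870912 536870912 536870912 3) ndB1q1 ndB1q1 pcB3 Cut.none Ext.none)

def k0_mm_113 : ∃ t, chk3 f_mm_113 t 1 1 1 = true :=
  ⟨(l 4), by decide +kernel⟩

theorem c_mm_113 : CertB 536870912 536870912 536870912 536870912 966367641 24778659 3 eng mog cd1q1 cd1q1 pd3 true false false .nn 1 1 3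
    ndB1q1 ndB1q1 pcB3 Cut.none Ext.none :=
  certB0 (fam := true) (s1 := false) (s2 := false) (a := 1) (b := 1) (c := 3) (cn := .nn) (n1 := ndB1q1) (n2 := ndB1q1) (pc := pcB3) (cut := Cut.none) (xt := Ext.none) (P1 := 536870912) (W1 := 536870912) (P2 := 536870912) (W2 := 536870912) (P3 := 966367641) (W3 := 24778659) (N0 := 3) (En := eng) (mo := mog) (C1 := cd1q1) (C2 := cd1q1) (C3 := pd3)
    rfl k0_mm_113

noncomputable def f_mm_123_a : ℕ → ℕ → ℕ → ℕ → Bool := onCell 536870912 536870912 0 536870912 966367641 24778659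
    (rowB 3 eng mog cd1q1 cd1q2a pd3 0 true false false .npn 1 2 3 (qsf 536870912 536870912 0 536870912 3) ndB1q1 ndB1q2a pcB3 Cut.none Ext.none)

def k0_mm_123_a : ∃ t, chk3 f_mm_123_a t 1 1 1 = true :=
  ⟨(l 4), by decide +kernel⟩

theorem c_mm_123_a : CertB 536870912 536870912 0 536870912 966367641 24778659 3 eng mog cd1q1 cd1q2a pd3 true false false .npn 1 2 3
    ndB1q1 ndB1q2a pcB3 Cut.none Ext.none :=
  certB0 (fam := true) (s1 := false) (s2 := false) (a := 1) (b := 2) (c := 3) (cn := .npn) (n1 := ndB1q1) (n2 := ndB1q2a) (pc := pcB3) (cut := Cut.none) (xt := Ext.none) (P1 := 536870912) (W1 := 536870912) (P2 := 0) (W2 := 536870912) (P3 := 966367641) (W3 := 24778659) (N0 := 3) (En := eng) (mo := mog) (C1 := cd1q1) (C2 := cd1q2a) (C3 := pd3)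
    rfl k0_mm_123_a

noncomputable def f_mm_123_b : ℕ → ℕ → ℕ → ℕ → Bool := onCell 536870912 536870912 1239849684 370763052 966367641 24778659
    (rowB 3 eng mog cd1q1 cd1q2b pd3 0 true false false .npn 1 2 3 (qsf 536870912 536870912 1239849684 370763052 3) ndB1q1 ndB1q2b pcB3 Cut.none Ext.none)

def k0_mm_123_b : ∃ t, chk3 f_mm_123_b t 1 1 1 = true :=
  ⟨(l 4), by decide +kernel⟩

theorem c_mm_123_b : CertB 536870912 536870912 1239849684 370763052 966367641 24778659 3 eng mog cd1q1 cd1q2b pd3 true false false .npn 1 2 3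
    ndB1q1 ndB1q2b pcB3 Cut.none Ext.none :=
  certB0 (fam := true) (s1 := false) (s2 := false) (a := 1) (b := 2) (c := 3) (cn := .npn) (n1 := ndB1q1) (n2 := ndB1q2b) (pc := pcB3) (cut := Cut.none) (xt := Ext.none) (P1 := 536870912) (W1 := 536870912) (P2 := 1239849684) (W2 := 370763052) (P3 := 966367641) (W3 := 24778659) (N0 := 3) (En := eng) (mo := mog) (C1 := cd1q1) (C2 := cd1q2b) (C3 := pd3)
    rfl k0_mm_123_b

noncomputable def f_mm_133 : ℕ → ℕ → ℕ → ℕ → Bool := onCell 536870912 536870912 1610612736 536870912 966367641 24778659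
    (rowB 3 eng mog cd1q1 cd1q3 pd3 0 true false false .dn 1 3 3 (qsf 536870912 536870912 1610612736 536870912 3) ndB1q1 ndB1q3 pcB3 Cut.none Ext.none)

def k0_mm_133 : ∃ t, chk3 f_mm_133 t 1 1 1 = true :=
  ⟨(l 4), by decide +kernel⟩

theorem c_mm_133 : CertB 536870912 536870912 1610612736 536870912 966367641 24778659 3 eng mog cd1q1 cd1q3 pd3 true false false .dn 1 3 3
    ndB1q1 ndB1q3 pcB3 Cut.none Ext.none :=
  certB0 (fam := true) (s1 := false) (s2 := false) (a := 1) (b := 3) (c := 3) (cn := .dn) (n1 := ndB1q1) (n2 := ndB1q3) (pc := pcB3) (cut := Cut.none) (xt := Ext.none) (P1 := 536870912) (W1 := 536870912) (P2 := 1610612736) (W2 := 536870912) (P3 := 966367641) (W3 := 24778659) (N0 := 3) (En := eng) (mo := mog) (C1 := cd1q1) (C2 := cd1q3) (C3 := pd3)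
    rfl k0_mm_133

noncomputable def cut_mm_202_a : Cut := Cut.of [[⟨0, 1, 0, 67108864⟩, ⟨1, 0, 0, 67108864⟩, ⟨2, 1, 0, 67108864⟩]]

noncomputable def f_mm_202_a : ℕ → ℕ → ℕ → ℕ → Bool := onCell 0 536870912 0 536870912 966367641 24778659
    (rowB 3 eng mog cd1q2a cd1q0 pd2 0 true false false .pp 2 0 2 (qsf 0 536870912 0 536870912 2) ndB1q2a ndB1q0 pcB2 cut_mm_202_a Ext.none)

def k0_mm_202_a : ∃ t, chk3 f_mm_202_a t 2 2 1 = true :=
  ⟨(b (b (a (b (b (c (a (b (l 16212240) (l 16256072)) (a (l 16170696) (b (l 16254520) (l 16275256)))) (a (l 16249272) (a (l 16314360) (l 16298456)))) (a (b (l 16170624) (l 16210328)) (c (b (l 16290320) (l 16309704)) (l 16283752)))) (a (b (c (l 16334608) (l 16411856)) (l 16229984)) (c (b (l 16301120) (l 16364296)) (b (l 16408408) (l 16451776))))) (b (a (c (b (a (b (l 16268576) (l 16288568)) (b (l 16286344) (l 16305680))) (a (l 16295960) (l 16291224))) (b (a (l 16285552) (l 16276168)) (a (l 16375560) (l 16364680)))) (b (c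 (a (b (l 16266424) (l 16327064)) (b (c (l 16322064) (l 16348496)) (l 16353160))) (a (b (l 16369104) (l 16381920)) (b (l 16369048) (l 16401856)))) (c (a (b (l 16344768) (l 16362080)) (b (l 16370328) (l 16386984))) (a (l 16336768) (b (l 16412864) (l 16423864)))))) (a (c (b (a (l 16357736) (l 16372824)) (l 16363096)) (b (c (l 16404744) (l 16411328)) (l 16458824))) (b (c (a (l 16392304) (l 16395368)) (a (l 16414824) (l 16411168))) (c (a (l 16430312) (l 16453704)) (a (l 16453544) (l 16470456))))))) (a (c (b (a (l 16352344) (b (l 16424064) (l 16459880))) (a (l 16513144) (l 16424928))) (b (a (l 16520824) (l 16403448)) (a (l 16528032) (l 16444024)))) (b (a (b (c (l 16420344) (l 16494608)) (c (l 16474120) (l 16526208))) (b (c (a (l 16464616) (l 16483736)) (a (l 16508496) (l 16523088))) (a (l 65732282135) (l 4)))) (a (b (c (l 16502984) (l 16555672)) (l 4)) (l 4))))) (b (a (b (a (c (l 16576728) (l 16542696)) (b (c (l 16553896) (l 16581656)) (l 4))) (a (b (l 16544384)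 (l 4)) (l 4))) (l 4)) (l 4))), by decide +kernel⟩

def k1_mm_202_a : ∃ t, chk3 f_mm_202_a t 6 4 1 = true :=
  ⟨(b (b (a (b (c (a (b (a (l 16358480) (l 16375888)) (l 16342792)) (b (a (l 16394760) (l 16394160)) (a (l 16412064) (l 16432360)))) (a (b (l 16353376) (l 16406488)) (b (a (l 16439632) (l 16457224)) (l 16396280)))) (c (a (b (l 16401232) (l 16417288)) (b (l 16417344) (l 16453824))) (a (b (l 16437488) (l 16447656)) (b (l 16447648) (l 16478000))))) (b (a (c (b (a (l 16395104) (c (l 16451824) (l 16469456))) (a (l 16454272) (l 16477840))) (b (a (l 16476416) (l 16476120)) (a (l 16487096) (l 16507992)))) (c (b (a (c (l 16477640) (l 16493856)) (c (l 16505136) (l 16519816))) (a (l 16503112) (l 16509120))) (b (a (l 16477336) (c (l 16535024) (l 16550760))) (a (l 16530512) (l 16533672))))) (a (c (b (a (l 16470208) (l 16493768)) (l 16455256)) (b (l 16443792) (l 16473648))) (c (b (a (l 16519104) (l 16546240)) (a (l 16534232) (l 16560048))) (b (a (l 16539856)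 (l 16564344)) (a (l 16548600) (l 16572072))))))) (a (b (c (a (l 16404160) (b (l 16472224) (l 16490424))) (a (l 16413448) (b (l 16495624) (l 16514408)))) (a (c (l 16438656) (l 16449552)) (b (a (l 16468152) (l 16481896)) (l 4)))) (b (b (a (c (l 16472432) (l 16489952)) (c (a (l 16547304) (l 16567704)) (a (l 16561280) (l 16579936)))) (a (c (l 16505624) (l 16503536)) (l 4))) (l 4)))) (a (b (a (b (c (l 16482960) (l 16540312)) (l 4)) (l 4)) (l 4)) (l 4))), by decide +kernel⟩

def k2_mm_202_a : ∃ t, chk3 f_mm_202_a t 7 4 1 = true :=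
  ⟨(b (b (b (a (a (b (c (a (a (l 16512464) (l 16527016)) (a (l 16520976) (l 16525792))) (a (c (l 16560824) (l 16574784)) (a (l 16566312) (l 16558832)))) (c (a (l 16516848) (c (l 16584848) (l 16593568))) (a (l 16559256) (c (l 16602616) (l 16611976))))) (a (a (b (a (b (l 6) (l 16583632)) (l 6)) (c (l 16591968) (l 16607440))) (b (l 6) (c (l 16608352) (l 16622040)))) (a (b (l 6) (c (l 16603880) (l 16615776))) (l 6)))) (l 6)) (a (a (c (b (a (l 16575200) (b (l 16601912) (l 16607664))) (a (l 16563816) (l 16608176))) (b (a (l 16590552) (l 16574920)) (a (l 16573704) (l 16594976)))) (b (b (a (c (l 16611248) (l 16621800)) (c (l 16638400) (l 16645680))) (a (c (l 16633352) (l 16641440)) (l 4))) (l 4))) (l 4))) (l 4)) (l 4)), by decide +kernel⟩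

def k3_mm_202_a : ∃ t, chk3 f_mm_202_a t 3 5 1 = true :=
  ⟨(l 4), by decide +kernel⟩

def k4_mm_202_a : ∃ t, chk3 f_mm_202_a t 1 3 1 = true :=
  ⟨(l 4), by decide +kernel⟩

theorem s5_mm_202_a : ∃ t, chk3 f_mm_202_a t 3 4 1 = true := ex3_a k1_mm_202_a k2_mm_202_a

theorem s6_mm_202_a : ∃ t, chk3 f_mm_202_a t 3 2 1 = true := ex3_b s5_mm_202_a k3_mm_202_a

theorem s7_mm_202_a : ∃ t, chk3 f_mm_202_a t 1 2 1 = true := ex3_a k0_mm_202_a s6_mm_202_a

theorem s8_mm_202_a : ∃ t, chk3 f_mm_202_a t 1 1 1 = true := ex3_b s7_mm_202_a k4_mm_202_a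

theorem c_mm_202_a : CertB 0 536870912 0 536870912 966367641 24778659 3 eng mog cd1q2a cd1q0 pd2 true false false .pp 2 0 2
    ndB1q2a ndB1q0 pcB2 cut_mm_202_a Ext.none :=
  certB0 (fam := true) (s1 := false) (s2 := false) (a := 2) (b := 0) (c := 2) (cn := .pp) (n1 := ndB1q2a) (n2 := ndB1q0) (pc := pcB2) (cut := cut_mm_202_a) (xt := Ext.none) (P1 := 0) (W1 := 536870912) (P2 := 0) (W2 := 536870912) (P3 := 966367641) (W3 := 24778659) (N0 := 3) (En := eng) (mo := mog) (C1 := cd1q2a) (C2 := cd1q0) (C3 := pd2)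
    rfl s8_mm_202_a

noncomputable def cut_mm_202_b : Cut := Cut.of [[⟨0, 1, 0, 67108864⟩, ⟨1, 0, 0, 67108864⟩, ⟨2, 1, 0, 67108864⟩]]

noncomputable def f_mm_202_b : ℕ → ℕ → ℕ → ℕ → Bool := onCell 1073741824 536870912 0 536870912 966367641 24778659
    (rowB 3 eng mog cd1q2b cd1q0 pd2 2 true false false .pp 2 0 2 (qsf 1239849684 370763052 0 536870912 2) ndB1q2b ndB1q0 pcB2 cut_mm_202_b Ext.none)

def k0_mm_202_b : ∃ t, chk3 f_mm_202_b t 1 1 1 = true :=
  ⟨(a (a (l 1) (b (b (a (b (a (a (l 1) (a (l 1) (b (b (l 213169977815) (l 1)) (l 1)))) (b (c (a (b (l 16174864) (l 16313224)) (b (l 16209344) (l 16283080))) (a (b (l 16289432) (l 16350696)) (l 16211888))) (a (l 1) (b (l 16256376) (l 1))))) (l 1)) (b (a (b (c (a (l 16110544) (l 16120272)) (c (l 16187528) (l 16308624))) (c (a (l 16288288) (l 16274104)) (l 16250792))) (b (c (a (l 16128800) (l 16115368)) (c (l 16185784) (l 16258688))) (c (l 16114760) (l 16306152)))) (a (b (a (l 1) (l 16310808)) (l 1)) (a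 (b (l 16293360) (l 1)) (b (l 16295592) (l 16483152)))))) (l 1)) (l 1))) (a (b (b (a (b (a (c (b (l 15957632) (l 16123464)) (b (l 16159912) (l 16290640))) (c (a (l 15953936) (l 15958592)) (b (l 16080048) (l 16205616)))) (a (b (c (l 16361672) (l 16443824)) (c (l 16515216) (l 16505336))) (b (c (l 16218856) (l 16354232)) (c (l 16432096) (l 16488120))))) (b (a (c (l 15775528) (b (l 15972032) (l 16093064))) (c (l 15800736) (l 15768880))) (a (c (l 16275192) (l 16332352)) (c (l 16191680) (b (l 16114768) (l 16305672)))))) (a (b (a (b (l 333429531015) (l 1)) (a (l 321081543159) (a (l 309270379431) (l 295848541351)))) (l 1)) (b (c (a (b (l 16494832) (l 16600488)) (l 16465704)) (a (b (l 16516888) (l 16541064)) (l 30298918951))) (l 4)))) (l 1)) (b (b (a (b (a (b (l 15670808) (l 15731392)) (b (l 15512880) (l 15601464))) (a (c (l 15901432) (l 16098888)) (l 4))) (a (b (c (l 15580296) (l 15455248)) (l 4)) (l 4))) (l 4)) (l 4)))), by decide +kernel⟩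

theorem c_mm_202_b : CertB 1239849684 370763052 0 536870912 966367641 24778659 3 eng mog cd1q2b cd1q0 pd2 true false false .pp 2 0 2
    ndB1q2b ndB1q0 pcB2 cut_mm_202_b Ext.none :=
  certB2 (fam := true) (s1 := false) (s2 := false) (a := 2) (b := 0) (c := 2) (cn := .pp) (n1 := ndB1q2b) (n2 := ndB1q0) (pc := pcB2) (cut := cut_mm_202_b) (xt := Ext.none) (P1 := 1239849684) (W1 := 370763052) (P2 := 0) (W2 := 536870912) (P3 := 966367641) (W3 := 24778659) (N0 := 3) (En := eng) (mo := mog) (C1 := cd1q2b) (C2 := cd1q0) (C3 := pd2)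
    rfl (fun _ => rfl) k0_mm_202_b

noncomputable def f_mm_203_a : ℕ → ℕ → ℕ → ℕ → Bool := onCell 0 536870912 1610612736 536870912 966367641 24778659
    (rowB 3 eng mog cd1q2a cd1q0 pd3 1 true false false .up 2 0 3 (qsf 0 536870912 0 536870912 3) ndB1q2a ndB1q0 pcB3 Cut.none Ext.none)

def k0_mm_203_a : ∃ t, chk3 f_mm_203_a t 1 1 1 = true :=
  ⟨(l 4), by decide +kernel⟩

theorem c_mm_203_a : CertB 0 536870912 0 536870912 966367641 24778659 3 eng mog cd1q2a cd1q0 pd3 true false false .up 2 0 3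
    ndB1q2a ndB1q0 pcB3 Cut.none Ext.none :=
  certB1 (fam := true) (s1 := false) (s2 := false) (a := 2) (b := 0) (c := 3) (cn := .up) (n1 := ndB1q2a) (n2 := ndB1q0) (pc := pcB3) (cut := Cut.none) (xt := Ext.none) (P1 := 0) (W1 := 536870912) (P2 := 0) (W2 := 536870912) (P3 := 966367641) (W3 := 24778659) (N0 := 3) (En := eng) (mo := mog) (C1 := cd1q2a) (C2 := cd1q0) (C3 := pd3)
    rfl (fun _ => rfl) k0_mm_203_a

noncomputable def f_mm_203_b : ℕ → ℕ → ℕ → ℕ → Bool := onCell 1239849684 370763052 1610612736 536870912 966367641 24778659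
    (rowB 3 eng mog cd1q2b cd1q0 pd3 1 true false false .up 2 0 3 (qsf 1239849684 370763052 0 536870912 3) ndB1q2b ndB1q0 pcB3 Cut.none Ext.none)

def k0_mm_203_b : ∃ t, chk3 f_mm_203_b t 1 1 1 = true :=
  ⟨(b (l 4) (l 4)), by decide +kernel⟩

theorem c_mm_203_b : CertB 1239849684 370763052 0 536870912 966367641 24778659 3 eng mog cd1q2b cd1q0 pd3 true false false .up 2 0 3
    ndB1q2b ndB1q0 pcB3 Cut.none Ext.none :=
  certB1 (fam := true) (s1 := false) (s2 := false) (a := 2) (b := 0) (c := 3) (cn := .up) (n1 := ndB1q2b) (n2 := ndB1q0) (pc := pcB3) (cut := Cut.none) (xt := Ext.none) (P1 := 1239849684) (W1 := 370763052) (P2 := 0) (W2 := 536870912) (P3 := 966367641) (W3 := 24778659) (N0 := 3) (En := eng) (mo := mog) (C1 := cd1q2b) (C2 := cd1q0) (C3 := pd3)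
    rfl (fun _ => rfl) k0_mm_203_b

noncomputable def f_mm_213_a : ℕ → ℕ → ℕ → ℕ → Bool := onCell 0 536870912 536870912 536870912 966367641 24778659
    (rowB 3 eng mog cd1q2a cd1q1 pd3 0 true false false .pnn 2 1 3 (qsf 0 536870912 536870912 536870912 3) ndB1q2a ndB1q1 pcB3 Cut.none Ext.none)

def k0_mm_213_a : ∃ t, chk3 f_mm_213_a t 1 1 1 = true :=
  ⟨(l 4), by decide +kernel⟩

theorem c_mm_213_a : CertB 0 536870912 536870912 536870912 966367641 24778659 3 eng mog cd1q2a cd1q1 pd3 true false false .pnn 2 1 3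
    ndB1q2a ndB1q1 pcB3 Cut.none Ext.none :=
  certB0 (fam := true) (s1 := false) (s2 := false) (a := 2) (b := 1) (c := 3) (cn := .pnn) (n1 := ndB1q2a) (n2 := ndB1q1) (pc := pcB3) (cut := Cut.none) (xt := Ext.none) (P1 := 0) (W1 := 536870912) (P2 := 536870912) (W2 := 536870912) (P3 := 966367641) (W3 := 24778659) (N0 := 3) (En := eng) (mo := mog) (C1 := cd1q2a) (C2 := cd1q1) (C3 := pd3)
    rfl k0_mm_213_a

noncomputable def f_mm_213_b : ℕ → ℕ → ℕ → ℕ → Bool := onCell 1239849684 370763052 536870912 536870912 966367641 24778659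
    (rowB 3 eng mog cd1q2b cd1q1 pd3 0 true false false .pnn 2 1 3 (qsf 1239849684 370763052 536870912 536870912 3) ndB1q2b ndB1q1 pcB3 Cut.none Ext.none)

def k0_mm_213_b : ∃ t, chk3 f_mm_213_b t 1 1 1 = true :=
  ⟨(l 4), by decide +kernel⟩

theorem c_mm_213_b : CertB 1239849684 370763052 536870912 536870912 966367641 24778659 3 eng mog cd1q2b cd1q1 pd3 true false false .pnn 2 1 3
    ndB1q2b ndB1q1 pcB3 Cut.none Ext.none :=
  certB0 (fam := true) (s1 := false) (s2 := false) (a := 2) (b := 1) (c := 3) (cn := .pnn) (n1 := ndB1q2b) (n2 := ndB1q1) (pc := pcB3) (cut := Cut.none) (xt := Ext.none) (P1 := 1239849684) (W1 := 370763052) (P2 := 536870912) (W2 := 536870912) (P3 := 966367641) (W3 := 24778659) (N0 := 3) (En := eng) (mo := mog) (C1 := cd1q2b) (C2 := cd1q1) (C3 := pd3)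
    rfl k0_mm_213_b

noncomputable def f_mm_303 : ℕ → ℕ → ℕ → ℕ → Bool := onCell 1610612736 536870912 0 536870912 966367641 24778659
    (rowB 3 eng mog cd1q3 cd1q0 pd3 0 true false false .npn 3 0 3 (qsf 1610612736 536870912 0 536870912 3) ndB1q3 ndB1q0 pcB3 Cut.none Ext.none)

def k0_mm_303 : ∃ t, chk3 f_mm_303 t 1 1 1 = true :=
  ⟨(a (b (l 4) (l 4)) (l 4)), by decide +kernel⟩

theorem c_mm_303 : CertB 1610612736 536870912 0 536870912 966367641 24778659 3 eng mog cd1q3 cd1q0 pd3 true false false .npn 3 0 3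
    ndB1q3 ndB1q0 pcB3 Cut.none Ext.none :=
  certB0 (fam := true) (s1 := false) (s2 := false) (a := 3) (b := 0) (c := 3) (cn := .npn) (n1 := ndB1q3) (n2 := ndB1q0) (pc := pcB3) (cut := Cut.none) (xt := Ext.none) (P1 := 1610612736) (W1 := 536870912) (P2 := 0) (W2 := 536870912) (P3 := 966367641) (W3 := 24778659) (N0 := 3) (En := eng) (mo := mog) (C1 := cd1q3) (C2 := cd1q0) (C3 := pd3)
    rfl k0_mm_303

noncomputable def f_mm_313 : ℕ → ℕ → ℕ → ℕ → Bool := onCell 1610612736 536870912 536870912 536870912 966367641 24778659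
    (rowB 3 eng mog cd1q3 cd1q1 pd3 0 true false false .dn 3 1 3 (qsf 1610612736 536870912 536870912 536870912 3) ndB1q3 ndB1q1 pcB3 Cut.none Ext.none)

def k0_mm_313 : ∃ t, chk3 f_mm_313 t 1 1 1 = true :=
  ⟨(l 4), by decide +kernel⟩

theorem c_mm_313 : CertB 1610612736 536870912 536870912 536870912 966367641 24778659 3 eng mog cd1q3 cd1q1 pd3 true false false .dn 3 1 3
    ndB1q3 ndB1q1 pcB3 Cut.none Ext.none :=
  certB0 (fam := true) (s1 := false) (s2 := false) (a := 3) (b := 1) (c := 3) (cn := .dn) (n1 := ndB1q3) (n2 := ndB1q1) (pc := pcB3) (cut := Cut.none) (xt := Ext.none) (P1 := 1610612736) (W1 := 536870912) (P2 := 536870912) (W2 := 536870912) (P3 := 966367641) (W3 := 24778659) (N0 := 3) (En := eng) (mo := mog) (C1 := cd1q3) (C2 := cd1q1) (C3 := pd3)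
    rfl k0_mm_313

end Pool.Agent.Strip051.G.I9000_9231.Tab.C.BA11

namespace Pool.Agent.Strip051.G.I9000_9231.Tab.C.BA12

open Pool.Agent.Strip051.PB Pool.Agent.Strip051.PB.T
open Pool.Agent.Strip051.G.I9000_9231.Tab

noncomputable def f_pp_001 : ℕ → ℕ → ℕ → ℕ → Bool := onCell 0 536870912 0 536870912 966367641 24778659
    (rowB 3 eng mog cd1q0 cd2q0 pd1 0 true true true .up 0 0 1 (qsf 0 536870912 0 536870912 1) ndB1q0 ndB2q0 pcB1 Cut.none Ext.none)

def k0_pp_001 : ∃ t, chk3 f_pp_001 t 1 1 1 = true :=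
  ⟨(l 4), by decide +kernel⟩

theorem c_pp_001 : CertB 0 536870912 0 536870912 966367641 24778659 3 eng mog cd1q0 cd2q0 pd1 true true true .up 0 0 1
    ndB1q0 ndB2q0 pcB1 Cut.none Ext.none :=
  certB0 (fam := true) (s1 := true) (s2 := true) (a := 0) (b := 0) (c := 1) (cn := .up) (n1 := ndB1q0) (n2 := ndB2q0) (pc := pcB1) (cut := Cut.none) (xt := Ext.none) (P1 := 0) (W1 := 536870912) (P2 := 0) (W2 := 536870912) (P3 := 966367641) (W3 := 24778659) (N0 := 3) (En := eng) (mo := mog) (C1 := cd1q0) (C2 := cd2q0) (C3 := pd1)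
    rfl k0_pp_001

noncomputable def f_pp_011 : ℕ → ℕ → ℕ → ℕ → Bool := onCell 0 536870912 536870912 536870912 966367641 24778659
    (rowB 3 eng mog cd1q0 cd2q1 pd1 0 true true true .pnn 0 1 1 (qsf 0 536870912 536870912 536870912 1) ndB1q0 ndB2q1 pcB1 Cut.none Ext.none)

def k0_pp_011 : ∃ t, chk3 f_pp_011 t 1 1 1 = true :=
  ⟨(l 4), by decide +kernel⟩

theorem c_pp_011 : CertB 0 536870912 536870912 536870912 966367641 24778659 3 eng mog cd1q0 cd2q1 pd1 true true true .pnn 0 1 1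
    ndB1q0 ndB2q1 pcB1 Cut.none Ext.none :=
  certB0 (fam := true) (s1 := true) (s2 := true) (a := 0) (b := 1) (c := 1) (cn := .pnn) (n1 := ndB1q0) (n2 := ndB2q1) (pc := pcB1) (cut := Cut.none) (xt := Ext.none) (P1 := 0) (W1 := 536870912) (P2 := 536870912) (W2 := 536870912) (P3 := 966367641) (W3 := 24778659) (N0 := 3) (En := eng) (mo := mog) (C1 := cd1q0) (C2 := cd2q1) (C3 := pd1)
    rfl k0_pp_011

noncomputable def f_pp_012 : ℕ → ℕ → ℕ → ℕ → Bool := onCell 0 536870912 536870912 536870912 966367641 24778659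
    (rowB 3 eng mog cd1q0 cd2q1 pd2 0 true true true .pnp 0 1 2 (qsf 0 536870912 536870912 536870912 2) ndB1q0 ndB2q1 pcB2 Cut.none Ext.none)

def k0_pp_012 : ∃ t, chk3 f_pp_012 t 1 1 1 = true :=
  ⟨(l 4), by decide +kernel⟩

theorem c_pp_012 : CertB 0 536870912 536870912 536870912 966367641 24778659 3 eng mog cd1q0 cd2q1 pd2 true true true .pnp 0 1 2
    ndB1q0 ndB2q1 pcB2 Cut.none Ext.none :=
  certB0 (fam := true) (s1 := true) (s2 := true) (a := 0) (b := 1) (c := 2) (cn := .pnp) (n1 := ndB1q0) (n2 := ndB2q1) (pc := pcB2) (cut := Cut.none) (xt := Ext.none) (P1 := 0) (W1 := 536870912) (P2 := 536870912) (W2 := 536870912) (P3 := 966367641) (W3 := 24778659) (N0 := 3) (En := eng) (mo := mog) (C1 := cd1q0) (C2 := cd2q1) (C3 := pd2)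
    rfl k0_pp_012

noncomputable def f_pp_022 : ℕ → ℕ → ℕ → ℕ → Bool := onCell 0 536870912 1073741824 536870912 966367641 24778659
    (rowB 3 eng mog cd1q0 cd2q2 pd2 0 true true true .pp 0 2 2 (qsf 0 536870912 1073741824 536870912 2) ndB1q0 ndB2q2 pcB2 Cut.none Ext.none)

def k0_pp_022 : ∃ t, chk3 f_pp_022 t 1 1 1 = true :=
  ⟨(l 4), by decide +kernel⟩

theorem c_pp_022 : CertB 0 536870912 1073741824 536870912 966367641 24778659 3 eng mog cd1q0 cd2q2 pd2 true true true .pp 0 2 2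
    ndB1q0 ndB2q2 pcB2 Cut.none Ext.none :=
  certB0 (fam := true) (s1 := true) (s2 := true) (a := 0) (b := 2) (c := 2) (cn := .pp) (n1 := ndB1q0) (n2 := ndB2q2) (pc := pcB2) (cut := Cut.none) (xt := Ext.none) (P1 := 0) (W1 := 536870912) (P2 := 1073741824) (W2 := 536870912) (P3 := 966367641) (W3 := 24778659) (N0 := 3) (En := eng) (mo := mog) (C1 := cd1q0) (C2 := cd2q2) (C3 := pd2)
    rfl k0_pp_022

noncomputable def f_pp_023 : ℕ → ℕ → ℕ → ℕ → Bool := onCell 0 536870912 1073741824 536870912 966367641 24778659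
    (rowB 3 eng mog cd1q0 cd2q2 pd3 0 true true true .up 0 2 3 (qsf 0 536870912 1073741824 536870912 3) ndB1q0 ndB2q2 pcB3 Cut.none Ext.none)

def k0_pp_023 : ∃ t, chk3 f_pp_023 t 1 1 1 = true :=
  ⟨(l 4), by decide +kernel⟩

theorem c_pp_023 : CertB 0 536870912 1073741824 536870912 966367641 24778659 3 eng mog cd1q0 cd2q2 pd3 true true true .up 0 2 3
    ndB1q0 ndB2q2 pcB3 Cut.none Ext.none :=
  certB0 (fam := true) (s1 := true) (s2 := true) (a := 0) (b := 2) (c := 3) (cn := .up) (n1 := ndB1q0) (n2 := ndB2q2) (pc := pcB3) (cut := Cut.none) (xt := Ext.none) (P1 := 0) (W1 := 536870912) (P2 := 1073741824) (W2 := 536870912) (P3 := 966367641) (W3 := 24778659) (N0 := 3) (En := eng) (mo := mog) (C1 := cd1q0) (C2 := cd2q2) (C3 := pd3)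
    rfl k0_pp_023

noncomputable def f_pp_033 : ℕ → ℕ → ℕ → ℕ → Bool := onCell 0 536870912 0 1230186008 966367641 24778659
    (rowB 3 eng mog cd1q0 cd2q3 pd3 0 true true true .pnn 0 3 3 (qsf 0 536870912 0 1230186008 3) ndB1q0 ndB2q3 pcB3 Cut.none Ext.none)

def k0_pp_033 : ∃ t, chk3 f_pp_033 t 1 1 1 = true :=
  ⟨(b (l 4) (l 4)), by decide +kernel⟩

theorem c_pp_033 : CertB 0 536870912 0 1230186008 966367641 24778659 3 eng mog cd1q0 cd2q3 pd3 true true true .pnn 0 3 3
    ndB1q0 ndB2q3 pcB3 Cut.none Ext.none :=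
  certB0 (fam := true) (s1 := true) (s2 := true) (a := 0) (b := 3) (c := 3) (cn := .pnn) (n1 := ndB1q0) (n2 := ndB2q3) (pc := pcB3) (cut := Cut.none) (xt := Ext.none) (P1 := 0) (W1 := 536870912) (P2 := 0) (W2 := 1230186008) (P3 := 966367641) (W3 := 24778659) (N0 := 3) (En := eng) (mo := mog) (C1 := cd1q0) (C2 := cd2q3) (C3 := pd3)
    rfl k0_pp_033

noncomputable def f_pp_101 : ℕ → ℕ → ℕ → ℕ → Bool := onCell 536870912 536870912 0 536870912 966367641 24778659
    (rowB 3 eng mog cd1q1 cd2q0 pd1 0 true true true .npn 1 0 1 (qsf 536870912 536870912 0 536870912 1) ndB1q1 ndB2q0 pcB1 Cut.none Ext.none)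

def k0_pp_101 : ∃ t, chk3 f_pp_101 t 1 1 1 = true :=
  ⟨(l 4), by decide +kernel⟩

theorem c_pp_101 : CertB 536870912 536870912 0 536870912 966367641 24778659 3 eng mog cd1q1 cd2q0 pd1 true true true .npn 1 0 1
    ndB1q1 ndB2q0 pcB1 Cut.none Ext.none :=
  certB0 (fam := true) (s1 := true) (s2 := true) (a := 1) (b := 0) (c := 1) (cn := .npn) (n1 := ndB1q1) (n2 := ndB2q0) (pc := pcB1) (cut := Cut.none) (xt := Ext.none) (P1 := 536870912) (W1 := 536870912) (P2 := 0) (W2 := 536870912) (P3 := 966367641) (W3 := 24778659) (N0 := 3) (En := eng) (mo := mog) (C1 := cd1q1) (C2 := cd2q0) (C3 := pd1)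
    rfl k0_pp_101

noncomputable def f_pp_102 : ℕ → ℕ → ℕ → ℕ → Bool := onCell 536870912 536870912 0 536870912 966367641 24778659
    (rowB 3 eng mog cd1q1 cd2q0 pd2 0 true true true .npp 1 0 2 (qsf 536870912 536870912 0 536870912 2) ndB1q1 ndB2q0 pcB2 Cut.none Ext.none)

def k0_pp_102 : ∃ t, chk3 f_pp_102 t 1 1 1 = true :=
  ⟨(l 4), by decide +kernel⟩

theorem c_pp_102 : CertB 536870912 536870912 0 536870912 966367641 24778659 3 eng mog cd1q1 cd2q0 pd2 true true true .npp 1 0 2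
    ndB1q1 ndB2q0 pcB2 Cut.none Ext.none :=
  certB0 (fam := true) (s1 := true) (s2 := true) (a := 1) (b := 0) (c := 2) (cn := .npp) (n1 := ndB1q1) (n2 := ndB2q0) (pc := pcB2) (cut := Cut.none) (xt := Ext.none) (P1 := 536870912) (W1 := 536870912) (P2 := 0) (W2 := 536870912) (P3 := 966367641) (W3 := 24778659) (N0 := 3) (En := eng) (mo := mog) (C1 := cd1q1) (C2 := cd2q0) (C3 := pd2)
    rfl k0_pp_102

noncomputable def f_pp_112 : ℕ → ℕ → ℕ → ℕ → Bool := onCell 536870912 536870912 536870912 536870912 966367641 24778659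
    (rowB 3 eng mog cd1q1 cd2q1 pd2 0 true true true .dn 1 1 2 (qsf 536870912 536870912 536870912 536870912 2) ndB1q1 ndB2q1 pcB2 Cut.none Ext.none)

def k0_pp_112 : ∃ t, chk3 f_pp_112 t 1 1 1 = true :=
  ⟨(l 4), by decide +kernel⟩

theorem c_pp_112 : CertB 536870912 536870912 536870912 536870912 966367641 24778659 3 eng mog cd1q1 cd2q1 pd2 true true true .dn 1 1 2
    ndB1q1 ndB2q1 pcB2 Cut.none Ext.none :=
  certB0 (fam := true) (s1 := true) (s2 := true) (a := 1) (b := 1) (c := 2) (cn := .dn) (n1 := ndB1q1) (n2 := ndB2q1) (pc := pcB2) (cut := Cut.none) (xt := Ext.none) (P1 := 536870912) (W1 := 536870912) (P2 := 536870912) (W2 := 536870912) (P3 := 966367641) (W3 := 24778659) (N0 := 3) (En := eng) (mo := mog) (C1 := cd1q1) (C2 := cd2q1) (C3 := pd2)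
    rfl k0_pp_112

noncomputable def f_pp_113 : ℕ → ℕ → ℕ → ℕ → Bool := onCell 536870912 536870912 536870912 536870912 966367641 24778659
    (rowB 3 eng mog cd1q1 cd2q1 pd3 0 true true true .nn 1 1 3 (qsf 536870912 536870912 536870912 536870912 3) ndB1q1 ndB2q1 pcB3 Cut.none Ext.none)

def k0_pp_113 : ∃ t, chk3 f_pp_113 t 1 1 1 = true :=
  ⟨(l 4), by decide +kernel⟩

theorem c_pp_113 : CertB 536870912 536870912 536870912 536870912 966367641 24778659 3 eng mog cd1q1 cd2q1 pd3 true true true .nn 1 1 3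
    ndB1q1 ndB2q1 pcB3 Cut.none Ext.none :=
  certB0 (fam := true) (s1 := true) (s2 := true) (a := 1) (b := 1) (c := 3) (cn := .nn) (n1 := ndB1q1) (n2 := ndB2q1) (pc := pcB3) (cut := Cut.none) (xt := Ext.none) (P1 := 536870912) (W1 := 536870912) (P2 := 536870912) (W2 := 536870912) (P3 := 966367641) (W3 := 24778659) (N0 := 3) (En := eng) (mo := mog) (C1 := cd1q1) (C2 := cd2q1) (C3 := pd3)
    rfl k0_pp_113

noncomputable def f_pp_123 : ℕ → ℕ → ℕ → ℕ → Bool := onCell 536870912 536870912 1073741824 536870912 966367641 24778659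
    (rowB 3 eng mog cd1q1 cd2q2 pd3 0 true true true .npn 1 2 3 (qsf 536870912 536870912 1073741824 536870912 3) ndB1q1 ndB2q2 pcB3 Cut.none Ext.none)

def k0_pp_123 : ∃ t, chk3 f_pp_123 t 1 1 1 = true :=
  ⟨(l 4), by decide +kernel⟩

theorem c_pp_123 : CertB 536870912 536870912 1073741824 536870912 966367641 24778659 3 eng mog cd1q1 cd2q2 pd3 true true true .npn 1 2 3
    ndB1q1 ndB2q2 pcB3 Cut.none Ext.none :=
  certB0 (fam := true) (s1 := true) (s2 := true) (a := 1) (b := 2) (c := 3) (cn := .npn) (n1 := ndB1q1) (n2 := ndB2q2) (pc := pcB3) (cut := Cut.none) (xt := Ext.none) (P1 := 536870912) (W1 := 536870912) (P2 := 1073741824) (W2 := 536870912) (P3 := 966367641) (W3 := 24778659) (N0 := 3) (En := eng) (mo := mog) (C1 := cd1q1) (C2 := cd2q2) (C3 := pd3)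
    rfl k0_pp_123

noncomputable def f_pp_133 : ℕ → ℕ → ℕ → ℕ → Bool := onCell 536870912 536870912 0 1230186008 966367641 24778659
    (rowB 3 eng mog cd1q1 cd2q3 pd3 0 true true true .dn 1 3 3 (qsf 536870912 536870912 0 1230186008 3) ndB1q1 ndB2q3 pcB3 Cut.none Ext.none)

def k0_pp_133 : ∃ t, chk3 f_pp_133 t 1 1 1 = true :=
  ⟨(l 4), by decide +kernel⟩

theorem c_pp_133 : CertB 536870912 536870912 0 1230186008 966367641 24778659 3 eng mog cd1q1 cd2q3 pd3 true true true .dn 1 3 3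
    ndB1q1 ndB2q3 pcB3 Cut.none Ext.none :=
  certB0 (fam := true) (s1 := true) (s2 := true) (a := 1) (b := 3) (c := 3) (cn := .dn) (n1 := ndB1q1) (n2 := ndB2q3) (pc := pcB3) (cut := Cut.none) (xt := Ext.none) (P1 := 536870912) (W1 := 536870912) (P2 := 0) (W2 := 1230186008) (P3 := 966367641) (W3 := 24778659) (N0 := 3) (En := eng) (mo := mog) (C1 := cd1q1) (C2 := cd2q3) (C3 := pd3)
    rfl k0_pp_133

noncomputable def f_pp_202_a : ℕ → ℕ → ℕ → ℕ → Bool := onCell 0 536870912 0 536870912 966367641 24778659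
    (rowB 3 eng mog cd1q2a cd2q0 pd2 0 true true true .pp 2 0 2 (qsf 0 536870912 0 536870912 2) ndB1q2a ndB2q0 pcB2 Cut.none Ext.none)

def k0_pp_202_a : ∃ t, chk3 f_pp_202_a t 1 1 1 = true :=
  ⟨(l 5), by decide +kernel⟩

theorem c_pp_202_a : CertB 0 536870912 0 536870912 966367641 24778659 3 eng mog cd1q2a cd2q0 pd2 true true true .pp 2 0 2
    ndB1q2a ndB2q0 pcB2 Cut.none Ext.none :=
  certB0 (fam := true) (s1 := true) (s2 := true) (a := 2) (b := 0) (c := 2) (cn := .pp) (n1 := ndB1q2a) (n2 := ndB2q0) (pc := pcB2) (cut := Cut.none) (xt := Ext.none) (P1 := 0) (W1 := 536870912) (P2 := 0) (W2 := 536870912) (P3 := 966367641) (W3 := 24778659) (N0 := 3) (En := eng) (mo := mog) (C1 := cd1q2a) (C2 := cd2q0) (C3 := pd2)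
    rfl k0_pp_202_a

noncomputable def f_pp_202_b : ℕ → ℕ → ℕ → ℕ → Bool := onCell 1239849684 370763052 0 536870912 966367641 24778659
    (rowB 3 eng mog cd1q2b cd2q0 pd2 0 true true true .pp 2 0 2 (qsf 1239849684 370763052 0 536870912 2) ndB1q2b ndB2q0 pcB2 Cut.none Ext.none)

def k0_pp_202_b : ∃ t, chk3 f_pp_202_b t 1 1 1 = true :=
  ⟨(l 5), by decide +kernel⟩

theorem c_pp_202_b : CertB 1239849684 370763052 0 536870912 966367641 24778659 3 eng mog cd1q2b cd2q0 pd2 true true true .pp 2 0 2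
    ndB1q2b ndB2q0 pcB2 Cut.none Ext.none :=
  certB0 (fam := true) (s1 := true) (s2 := true) (a := 2) (b := 0) (c := 2) (cn := .pp) (n1 := ndB1q2b) (n2 := ndB2q0) (pc := pcB2) (cut := Cut.none) (xt := Ext.none) (P1 := 1239849684) (W1 := 370763052) (P2 := 0) (W2 := 536870912) (P3 := 966367641) (W3 := 24778659) (N0 := 3) (En := eng) (mo := mog) (C1 := cd1q2b) (C2 := cd2q0) (C3 := pd2)
    rfl k0_pp_202_b

noncomputable def f_pp_203_a : ℕ → ℕ → ℕ → ℕ → Bool := onCell 0 536870912 0 536870912 966367641 24778659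
    (rowB 3 eng mog cd1q2a cd2q0 pd3 0 true true true .up 2 0 3 (qsf 0 536870912 0 536870912 3) ndB1q2a ndB2q0 pcB3 Cut.none Ext.none)

def k0_pp_203_a : ∃ t, chk3 f_pp_203_a t 1 1 1 = true :=
  ⟨(l 5), by decide +kernel⟩

theorem c_pp_203_a : CertB 0 536870912 0 536870912 966367641 24778659 3 eng mog cd1q2a cd2q0 pd3 true true true .up 2 0 3
    ndB1q2a ndB2q0 pcB3 Cut.none Ext.none :=
  certB0 (fam := true) (s1 := true) (s2 := true) (a := 2) (b := 0) (c := 3) (cn := .up) (n1 := ndB1q2a) (n2 := ndB2q0) (pc := pcB3) (cut := Cut.none) (xt := Ext.none) (P1 := 0) (W1 := 536870912) (P2 := 0) (W2 := 536870912) (P3 := 966367641) (W3 := 24778659) (N0 := 3) (En := eng) (mo := mog) (C1 := cd1q2a) (C2 := cd2q0) (C3 := pd3)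
    rfl k0_pp_203_a

noncomputable def f_pp_203_b : ℕ → ℕ → ℕ → ℕ → Bool := onCell 1239849684 370763052 0 536870912 966367641 24778659
    (rowB 3 eng mog cd1q2b cd2q0 pd3 0 true true true .up 2 0 3 (qsf 1239849684 370763052 0 536870912 3) ndB1q2b ndB2q0 pcB3 Cut.none Ext.none)

def k0_pp_203_b : ∃ t, chk3 f_pp_203_b t 1 1 1 = true :=
  ⟨(l 5), by decide +kernel⟩

theorem c_pp_203_b : CertB 1239849684 370763052 0 536870912 966367641 24778659 3 eng mog cd1q2b cd2q0 pd3 true true true .up 2 0 3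
    ndB1q2b ndB2q0 pcB3 Cut.none Ext.none :=
  certB0 (fam := true) (s1 := true) (s2 := true) (a := 2) (b := 0) (c := 3) (cn := .up) (n1 := ndB1q2b) (n2 := ndB2q0) (pc := pcB3) (cut := Cut.none) (xt := Ext.none) (P1 := 1239849684) (W1 := 370763052) (P2 := 0) (W2 := 536870912) (P3 := 966367641) (W3 := 24778659) (N0 := 3) (En := eng) (mo := mog) (C1 := cd1q2b) (C2 := cd2q0) (C3 := pd3)
    rfl k0_pp_203_b

noncomputable def f_pp_213_a : ℕ → ℕ → ℕ → ℕ → Bool := onCell 0 536870912 536870912 536870912 966367641 24778659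
    (rowB 3 eng mog cd1q2a cd2q1 pd3 0 true true true .pnn 2 1 3 (qsf 0 536870912 536870912 536870912 3) ndB1q2a ndB2q1 pcB3 Cut.none Ext.none)

def k0_pp_213_a : ∃ t, chk3 f_pp_213_a t 1 1 1 = true :=
  ⟨(l 4), by decide +kernel⟩

theorem c_pp_213_a : CertB 0 536870912 536870912 536870912 966367641 24778659 3 eng mog cd1q2a cd2q1 pd3 true true true .pnn 2 1 3
    ndB1q2a ndB2q1 pcB3 Cut.none Ext.none :=
  certB0 (fam := true) (s1 := true) (s2 := true) (a := 2) (b := 1) (c := 3) (cn := .pnn) (n1 := ndB1q2a) (n2 := ndB2q1) (pc := pcB3) (cut := Cut.none) (xt := Ext.none) (P1 := 0) (W1 := 536870912) (P2 := 536870912) (W2 := 536870912) (P3 := 966367641) (W3 := 24778659) (N0 := 3) (En := eng) (mo := mog) (C1 := cd1q2a) (C2 := cd2q1) (C3 := pd3)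
    rfl k0_pp_213_a

noncomputable def f_pp_213_b : ℕ → ℕ → ℕ → ℕ → Bool := onCell 1239849684 370763052 536870912 536870912 966367641 24778659
    (rowB 3 eng mog cd1q2b cd2q1 pd3 0 true true true .pnn 2 1 3 (qsf 1239849684 370763052 536870912 536870912 3) ndB1q2b ndB2q1 pcB3 Cut.none Ext.none)

def k0_pp_213_b : ∃ t, chk3 f_pp_213_b t 1 1 1 = true :=
  ⟨(l 4), by decide +kernel⟩

theorem c_pp_213_b : CertB 1239849684 370763052 536870912 536870912 966367641 24778659 3 eng mog cd1q2b cd2q1 pd3 true true true .pnn 2 1 3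
    ndB1q2b ndB2q1 pcB3 Cut.none Ext.none :=
  certB0 (fam := true) (s1 := true) (s2 := true) (a := 2) (b := 1) (c := 3) (cn := .pnn) (n1 := ndB1q2b) (n2 := ndB2q1) (pc := pcB3) (cut := Cut.none) (xt := Ext.none) (P1 := 1239849684) (W1 := 370763052) (P2 := 536870912) (W2 := 536870912) (P3 := 966367641) (W3 := 24778659) (N0 := 3) (En := eng) (mo := mog) (C1 := cd1q2b) (C2 := cd2q1) (C3 := pd3)
    rfl k0_pp_213_b

noncomputable def f_pp_303 : ℕ → ℕ → ℕ → ℕ → Bool := onCell 1610612736 536870912 0 536870912 966367641 24778659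
    (rowB 3 eng mog cd1q3 cd2q0 pd3 0 true true true .npn 3 0 3 (qsf 1610612736 536870912 0 536870912 3) ndB1q3 ndB2q0 pcB3 Cut.none Ext.none)

def k0_pp_303 : ∃ t, chk3 f_pp_303 t 1 1 1 = true :=
  ⟨(l 5), by decide +kernel⟩

theorem c_pp_303 : CertB 1610612736 536870912 0 536870912 966367641 24778659 3 eng mog cd1q3 cd2q0 pd3 true true true .npn 3 0 3
    ndB1q3 ndB2q0 pcB3 Cut.none Ext.none :=
  certB0 (fam := true) (s1 := true) (s2 := true) (a := 3) (b := 0) (c := 3) (cn := .npn) (n1 := ndB1q3) (n2 := ndB2q0) (pc := pcB3) (cut := Cut.none) (xt := Ext.none) (P1 := 1610612736) (W1 := 536870912) (P2 := 0) (W2 := 536870912) (P3 := 966367641) (W3 := 24778659) (N0 := 3) (En := eng) (mo := mog) (C1 := cd1q3) (C2 := cd2q0) (C3 := pd3)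
    rfl k0_pp_303

noncomputable def f_pp_313 : ℕ → ℕ → ℕ → ℕ → Bool := onCell 1610612736 536870912 536870912 536870912 966367641 24778659
    (rowB 3 eng mog cd1q3 cd2q1 pd3 0 true true true .dn 3 1 3 (qsf 1610612736 536870912 536870912 536870912 3) ndB1q3 ndB2q1 pcB3 Cut.none Ext.none)

def k0_pp_313 : ∃ t, chk3 f_pp_313 t 1 1 1 = true :=
  ⟨(l 4), by decide +kernel⟩

theorem c_pp_313 : CertB 1610612736 536870912 536870912 536870912 966367641 24778659 3 eng mog cd1q3 cd2q1 pd3 true true true .dn 3 1 3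
    ndB1q3 ndB2q1 pcB3 Cut.none Ext.none :=
  certB0 (fam := true) (s1 := true) (s2 := true) (a := 3) (b := 1) (c := 3) (cn := .dn) (n1 := ndB1q3) (n2 := ndB2q1) (pc := pcB3) (cut := Cut.none) (xt := Ext.none) (P1 := 1610612736) (W1 := 536870912) (P2 := 536870912) (W2 := 536870912) (P3 := 966367641) (W3 := 24778659) (N0 := 3) (En := eng) (mo := mog) (C1 := cd1q3) (C2 := cd2q1) (C3 := pd3)
    rfl k0_pp_313

noncomputable def f_pm_001 : ℕ → ℕ → ℕ → ℕ → Bool := onCell 0 536870912 0 536870912 966367641 24778659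
    (rowB 3 eng mog cd1q0 cd2q0 pd1 0 true true false .up 0 0 1 (qsf 0 536870912 0 536870912 1) ndB1q0 ndB2q0 pcB1 Cut.none Ext.none)

def k0_pm_001 : ∃ t, chk3 f_pm_001 t 1 1 1 = true :=
  ⟨(a (l 3) (l 3)), by decide +kernel⟩

theorem c_pm_001 : CertB 0 536870912 0 536870912 966367641 24778659 3 eng mog cd1q0 cd2q0 pd1 true true false .up 0 0 1
    ndB1q0 ndB2q0 pcB1 Cut.none Ext.none :=
  certB0 (fam := true) (s1 := true) (s2 := false) (a := 0) (b := 0) (c := 1) (cn := .up) (n1 := ndB1q0) (n2 := ndB2q0) (pc := pcB1) (cut := Cut.none) (xt := Ext.none) (P1 := 0) (W1 := 536870912) (P2 := 0) (W2 := 536870912) (P3 := 966367641) (W3 := 24778659) (N0 := 3) (En := eng) (mo := mog) (C1 := cd1q0) (C2 := cd2q0) (C3 := pd1)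
    rfl k0_pm_001

noncomputable def cut_pm_011 : Cut := Cut.of [[⟨0, 0, 0, 67108864⟩, ⟨1, 1, 0, 67108864⟩, ⟨2, 1, 0, 67108864⟩]]

noncomputable def f_pm_011 : ℕ → ℕ → ℕ → ℕ → Bool := onCell 0 536870912 536870912 536870912 966367641 24778659
    (rowB 3 eng mog cd1q0 cd2q1 pd1 1 true true false .pnn 0 1 1 (qsf 0 536870912 536870912 536870912 1) ndB1q0 ndB2q1 pcB1 cut_pm_011 Ext.none)

def k0_pm_011 : ∃ t, chk3 f_pm_011 t 1 1 1 = true :=
  ⟨(b (l 3) (b (l 3) (a (b (l 3) (a (a (b (l 3) (a (b (l 3) (l 6)) (l 3))) (l 3)) (l 3))) (l 3)))), by decide +kernel⟩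

theorem c_pm_011 : CertB 0 536870912 536870912 536870912 966367641 24778659 3 eng mog cd1q0 cd2q1 pd1 true true false .pnn 0 1 1
    ndB1q0 ndB2q1 pcB1 cut_pm_011 Ext.none :=
  certB1 (fam := true) (s1 := true) (s2 := false) (a := 0) (b := 1) (c := 1) (cn := .pnn) (n1 := ndB1q0) (n2 := ndB2q1) (pc := pcB1) (cut := cut_pm_011) (xt := Ext.none) (P1 := 0) (W1 := 536870912) (P2 := 536870912) (W2 := 536870912) (P3 := 966367641) (W3 := 24778659) (N0 := 3) (En := eng) (mo := mog) (C1 := cd1q0) (C2 := cd2q1) (C3 := pd1)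
    rfl (fun _ => rfl) k0_pm_011

noncomputable def cut_pm_012 : Cut := Cut.of [[⟨0, 0, 0, 67108864⟩, ⟨1, 1, 0, 67108864⟩, ⟨2, 1, 0, 67108864⟩]]

noncomputable def f_pm_012 : ℕ → ℕ → ℕ → ℕ → Bool := onCell 1073741824 536870912 536870912 536870912 966367641 24778659
    (rowB 3 eng mog cd1q0 cd2q1 pd2 2 true true false .pnp 0 1 2 (qsf 0 536870912 536870912 536870912 2) ndB1q0 ndB2q1 pcB2 cut_pm_012 Ext.none)

def k0_pm_012 : ∃ t, chk3 f_pm_012 t 8 1 1 = true :=
  ⟨(b (l 3) (b (a (l 3) (a (l 3) (b (a (l 3) (l 16026752)) (a (b (l 3) (l 16147464)) (l 15933464))))) (a (b (a (l 3) (b (l 3) (a (l 3) (c (l 472613269191) (l 16410008))))) (a (b (l 3) (l 6)) (b (a (b (l 3) (a (b (l 3) (l 6)) (l 16532832))) (b (a (l 16470432) (l 16435704)) (a (l 16497320) (l 16462672)))) (b (a (l 6) (b (l 16500856) (l 6))) (l 6))))) (b (a (b (a (l 3) (l 16241896)) (a (b (l 16336616) (l 16360376)) (a (l 16300752) (l 16270512)))) (b (a (l 16184648) (l 16130352)) (a (l 16226264) (l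 16168176)))) (a (b (a (b (l 16385568) (l 16412008)) (b (l 16321536) (l 16346400))) (b (a (a (l 16455912) (l 16421552)) (c (l 16381600) (l 16357976))) (a (l 6) (c (l 16400400) (l 16379032))))) (b (a (b (l 16259432) (l 16281760)) (b (l 16198128) (l 16216856))) (b (a (l 16301664) (l 16234176)) (a (l 16340808) (l 16251240))))))))), by decide +kernel⟩

def k1_pm_012 : ∃ t, chk3 f_pm_012 t 9 1 1 = true :=
  ⟨(b (a (a (b (l 3) (b (l 3) (l 15874040))) (b (b (l 2) (l 15860192)) (b (l 15845872) (l 15868256)))) (b (a (c (l 15901056) (l 15825024)) (l 15772752)) (a (c (l 15828880) (l 15768616)) (b (l 15769464) (l 15744032))))) (b (a (b (a (b (l 15954768) (l 15973240)) (l 15884752)) (a (b (l 15995520) (l 16021392)) (b (l 15906064) (l 15924024)))) (a (b (l 15807424) (l 15822808)) (b (l 15732736) (l 15734528)))) (a (b (a (b (l 16050376) (a (l 16110712) (l 16053040))) (b (l 15944792) (l 15967472))) (b (a (b (l 16105376) (l 16120464)) (l 16032792)) (b (a (l 16135656)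 (l 16009448)) (a (a (l 16184040) (l 16118240)) (l 16022160))))) (b (b (l 15791872) (a (l 15857072) (l 15752848))) (b (a (l 15874712) (l 15764424)) (a (b (l 15889024) (l 15899000)) (l 15809360))))))), by decide +kernel⟩

def k2_pm_012 : ∃ t, chk3 f_pm_012 t 5 1 1 = true :=
  ⟨(b (a (a (a (b (l 15664208) (b (l 15725368) (l 15687008))) (b (l 2) (c (l 15683816) (l 15612376)))) (b (l 2) (b (l 15631648) (l 15563104)))) (b (l 2) (b (l 15544096) (l 15438304)))) (b (a (a (b (a (l 15662848) (l 15578208)) (a (l 15651904) (l 15576072))) (b (l 15508304) (l 15466624))) (b (l 15345680) (a (l 15329256) (l 15205728)))) (a (b (a (a (l 15652816) (b (l 15545528) (l 15563648))) (b (l 15443160) (l 15431176))) (a (a (b (l 15660056) (l 15667656)) (b (a (l 15585840) (l 15539624)) (a (l 15589056) (b (l 15539664) (l 15540344))))) (b (l 15421776) (l 15414736)))) (b (a (l 15274472) (l 15125760)) (b (a (l 15240592) (l 15073168)) (a (l 15221400) (l 15041672))))))), by decide +kernel⟩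

def k3_pm_012 : ∃ t, chk3 f_pm_012 t 3 1 1 = true :=
  ⟨(b (a (b (l 2) (a (b (l 2) (l 15318280)) (l 2))) (l 2)) (b (a (a (b (l 15176480) (l 15046896)) (b (l 15061872) (l 14883992))) (a (b (l 2) (l 14776912)) (l 2))) (a (b (a (b (l 14957344) (l 14901568)) (l 14717512)) (a (b (l 14848704) (l 14798656)) (b (l 14599800) (l 14525136)))) (b (a (l 14563208) (l 14465872)) (a (l 14360224) (l 14216936)))))), by decide +kernel⟩

theorem s4_pm_012 : ∃ t, chk3 f_pm_012 t 4 1 1 = true := ex3_a k0_pm_012 k1_pm_012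

theorem s5_pm_012 : ∃ t, chk3 f_pm_012 t 2 1 1 = true := ex3_a s4_pm_012 k2_pm_012

theorem s6_pm_012 : ∃ t, chk3 f_pm_012 t 1 1 1 = true := ex3_a s5_pm_012 k3_pm_012

theorem c_pm_012 : CertB 0 536870912 536870912 536870912 966367641 24778659 3 eng mog cd1q0 cd2q1 pd2 true true false .pnp 0 1 2
    ndB1q0 ndB2q1 pcB2 cut_pm_012 Ext.none :=
  certB2 (fam := true) (s1 := true) (s2 := false) (a := 0) (b := 1) (c := 2) (cn := .pnp) (n1 := ndB1q0) (n2 := ndB2q1) (pc := pcB2) (cut := cut_pm_012) (xt := Ext.none) (P1 := 0) (W1 := 536870912) (P2 := 536870912) (W2 := 536870912) (P3 := 966367641) (W3 := 24778659) (N0 := 3) (En := eng) (mo := mog) (C1 := cd1q0) (C2 := cd2q1) (C3 := pd2)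
    rfl (fun _ => rfl) s6_pm_012

noncomputable def f_pm_022 : ℕ → ℕ → ℕ → ℕ → Bool := onCell 0 536870912 1073741824 536870912 966367641 24778659
    (rowB 3 eng mog cd1q0 cd2q2 pd2 1 true true false .pp 0 2 2 (qsf 0 536870912 1073741824 536870912 2) ndB1q0 ndB2q2 pcB2 Cut.none Ext.none)

def k0_pm_022 : ∃ t, chk3 f_pm_022 t 2 8 1 = true :=
  ⟨(a (b (a (l 3) (l 1)) (a (a (b (l 3) (a (b (b (l 3) (a (a (l 3) (c (l 804936546663) (l 785072265335))) (c (a (l 126868637655) (l 16455104)) (a (l 16410216) (l 16423160))))) (b (b (a (a (b (a (l 3) (c (l 16407304) (l 16375032))) (c (a (c (l 97340639527) (l 97340610951)) (l 16403824)) (a (c (l 16368344) (l 16351520)) (l 16370440)))) (a (c (l 16416472) (l 16383200)) (c (l 16427480) (l 16393672)))) (c (l 16434136) (l 16398856))) (a (a (c (c (a (l 16396784) (l 16408000)) (c (l 16389472) (l 16380736))) (c (c (l 16371896) (l 16362960)) (a (l 16354688) (l 16354512)))) (a (c (l 16410408) (l 16374152)) (l 16392760))) (c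 (l 16428032) (l 16389720)))) (a (a (c (b (a (c (l 16391584) (l 16372968)) (l 16393384)) (c (l 16391984) (l 16371728))) (b (a (c (l 16353912) (l 16334408)) (l 16354664)) (c (l 16350976) (l 16329728)))) (c (l 16388576) (c (l 16376248) (l 16355176)))) (c (l 16439864) (l 16386472))))) (b (a (b (c (l 16523952) (l 16494400)) (c (l 16508584) (l 16475384))) (b (c (l 16566416) (l 16536856)) (l 16451704))) (c (c (l 16438296) (a (l 16479456) (l 16523024))) (a (b (l 16456888) (l 16438368)) (l 16490000)))))) (a (b (b (l 3) (b (l 3) (c (l 16568800) (l 16571800)))) (b (c (a (l 16564904) (l 16613104)) (b (l 16573248) (l 16575304))) (c (l 16542184) (l 16504872)))) (b (b (l 1) (b (l 1) (l 557305289223))) (b (c (l 448857350727) (l 323229507223)) (a (l 16609304) (l 16648208)))))) (a (b (l 1) (a (b (l 1) (b (l 1) (l 542272729927))) (l 1))) (l 1)))) (l 1)), by decide +kernel⟩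

def k1_pm_022 : ∃ t, chk3 f_pm_022 t 2 18 1 = true :=
  ⟨(a (a (a (c (b (a (b (a (b (a (c (b (l 16386792) (l 16381592)) (b (l 16365032) (l 16358320))) (l 16373944)) (a (c (l 16373776) (l 16348232)) (l 16361888))) (b (l 16427672) (l 16415416))) (c (a (b (l 16353248) (l 16363456)) (l 16412440)) (a (b (l 16324408) (l 16331624)) (l 16381032)))) (b (a (l 16464896) (l 16508384)) (a (l 16439632) (l 16482552)))) (a (b (b (a (a (l 16303536) (l 16345848)) (l 16377768)) (a (b (l 16325648) (l 16319216)) (l 16364064))) (a (c (l 16299648) (l 16259176)) (l 16340840))) (b (a (l 16411952) (l 16452744)) (l 16379888)))) (b (a (b (a (b (a (c (b (l 16342728) (l 16334456)) (b (l 16319880) (l 16310008))) (l 16326600)) (c (c (l 16339176) (l 16325760)) (c (l 16312176) (l 16298424)))) (b (l 16378584) (l 16360136))) (a (c (b (l 16294800) (l 16277960)) (b (l 16264424) (l 16244400))) (c (l 16348752) (l 16315616)))) (a (b (l 16410456) (l 16372944)) (b (l 16452400) (l 16414336))))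 (a (b (a (b (a (l 16232616) (l 16273856)) (a (l 16234984) (l 16255096))) (b (l 16304200) (l 16285336))) (a (c (l 16217560) (l 16180048)) (l 16257488))) (b (a (l 16334984) (l 16376136)) (l 16255304))))) (a (b (b (a (l 16445760) (l 16516680)) (c (l 16487736) (l 16448808))) (c (l 16439696) (l 16370200))) (b (b (c (l 16650880) (l 16591464)) (l 16512304)) (b (l 16476120) (l 16462544))))) (a (a (b (b (l 448857185623) (l 16590976)) (l 16552032)) (b (b (l 1) (l 562673709351)) (l 462815700503))) (b (l 1) (a (l 566431654791) (l 1))))) (l 1)), by decide +kernel⟩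

def k2_pm_022 : ∃ t, chk3 f_pm_022 t 2 19 1 = true :=
  ⟨(a (a (c (a (a (a (b (b (l 16249184) (l 16240808)) (b (l 16212688) (l 16185728))) (b (b (l 16310184) (l 16280816)) (l 16239000))) (b (a (l 16335232) (l 16375384)) (l 16194008))) (b (b (l 16395448) (l 16386952)) (l 16281928))) (a (a (b (b (c (l 16224304) (l 16178832)) (a (l 16147504) (l 16187704))) (a (b (l 16114944) (l 16083792)) (l 16139288))) (b (a (l 16244688) (l 16285688)) (a (l 16179216) (l 16220056)))) (a (b (l 16361568) (l 16295720)) (l 16262832)))) (a (b (b (l 16526800) (l 16515864)) (l 16386296)) (b (a (l 16453272) (l 578779579575)) (b (l 16406608) (l 16413600))))) (a (a (b (l 1) (l 597032874471)) (l 1)) (l 1))), by decide +kernel⟩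

def k3_pm_022 : ∃ t, chk3 f_pm_022 t 4 10 1 = true :=
  ⟨(b (b (a (c (a (a (a (b (l 16159872) (l 16135136)) (l 16187184)) (l 16204848)) (l 16250400)) (a (a (a (b (l 16054024) (l 16025656)) (l 16079576)) (a (l 16119248) (l 16159840))) (l 16139592))) (a (l 16308224) (l 16422168))) (a (a (a (b (c (a (l 16111632) (l 16151192)) (a (l 15977912) (l 16038400))) (c (b (a (l 16094992) (l 16134432)) (b (a (l 16066448) (l 16126792)) (a (a (l 16030792) (l 16092416)) (l 16121904)))) (b (a (l 15980112) (l 16019472)) (b (a (l 15940360) (l 16011072)) (a (a (b (b (c (l 15988944) (b (l 15929368) (l 15929256))) (l 15958352)) (l 15955720)) (l 15934424)) (l 16005752)))))) (b (c (l 16210544) (l 16098032)) (b (c (l 16193632) (l 16078880)) (c (b (l 16185888) (l 16180920)) (b (l 16070336) (l 16064912)))))) (b (b (l 16068192) (l 16055608)) (b (l 16022600) (a (l 16027192) (l 16288872))))) (a (b (l 16352120) (l 16223024)) (b (l 16554312) (l 16493368))))) (a (a (a (c (b (a (a (b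 (l 16037352) (l 16013816)) (l 16066128)) (l 16095520)) (a (b (l 15979408) (l 15977480)) (l 16048848))) (b (a (a (b (c (l 15970272) (l 15909336)) (l 15881016)) (c (l 15976504) (l 15914464))) (l 15974976)) (a (a (b (l 15848680) (l 15816800)) (l 15870416)) (l 15920440)))) (c (b (l 16133392) (l 16107392)) (b (a (l 16013912) (l 16053800)) (l 15978976)))) (a (b (l 16016632) (l 16007304)) (c (l 16301544) (l 16200792)))) (a (c (l 16365680) (l 16243728)) (l 16438760)))), by decide +kernel⟩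

def k4_pm_022 : ∃ t, chk3 f_pm_022 t 4 11 1 = true :=
  ⟨(a (a (a (b (c (b (a (b (l 15954920) (l 15932688)) (l 16003504)) (c (l 15953432) (l 15884552))) (a (b (a (c (l 15854304) (l 15784464)) (l 15817920)) (b (l 15749216) (l 15724384))) (b (l 15867744) (l 15816872)))) (c (b (c (l 15933328) (l 15819496)) (a (l 15816408) (l 15875512))) (b (c (l 15745112) (l 15668216)) (a (c (l 15722608) (l 15642768)) (l 15720640))))) (b (c (c (l 16072864) (l 16005456)) (a (l 15880360) (l 15919632))) (c (a (l 15934208) (l 15972744)) (a (l 15781760) (l 15820512))))) (b (c (l 15998416) (a (l 15993096) (l 16092816))) (c (l 15995304) (l 15796120)))) (a (c (a (l 16164960) (l 16331520)) (b (l 16197624) (l 16137776))) (b (l 16379424) (l 16325664)))), by decide +kernel⟩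

def k5_pm_022 : ∃ t, chk3 f_pm_022 t 5 5 1 = true :=
  ⟨(b (a (b (b (a (l 539587708119) (l 1)) (a (b (l 16410496) (l 16332208)) (b (l 1) (l 532071260743)))) (a (l 16307384) (l 164314652887))) (b (l 1) (a (l 563209420423) (l 1)))) (a (a (b (l 16458360) (l 16477416)) (b (l 16304296) (l 16358408))) (b (a (l 16135840) (l 554619226215)) (a (l 16224128) (l 16076320))))), by decide +kernel⟩

def k6_pm_022 : ∃ t, chk3 f_pm_022 t 3 2 1 = true :=
  ⟨(b (l 1) (a (b (l 1) (a (b (l 1) (a (l 551934669815) (l 1))) (l 1))) (l 1))), by decide +kernel⟩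

def k7_pm_022 : ∃ t, chk3 f_pm_022 t 2 6 1 = true :=
  ⟨(c (a (a (b (a (a (b (a (b (l 15776624) (l 15738184)) (l 15816032)) (a (b (l 15701064) (l 15686240)) (l 15741368))) (b (l 15851952) (l 15797656))) (b (l 15955576) (l 15921160))) (a (a (b (a (c (l 15677152) (l 15591992)) (l 15671968)) (b (l 15557840) (l 15553328))) (b (l 15727656) (l 15662840))) (b (l 15850072) (l 15784184)))) (b (a (l 15998912) (l 16284608)) (a (l 15938192) (l 16138184)))) (a (b (l 16358208) (l 16360176)) (b (l 16030352) (l 16251192)))) (a (a (b (a (b (a (a (b (c (l 15678912) (l 15596264)) (l 15552744)) (l 15653288)) (a (l 15690480) (l 15728712))) (a (a (b (l 15511320) (c (l 15558032) (l 15468448))) (l 15548896)) (l 15625408))) (b (l 15766064) (l 15764256))) (a (a (a (b (b (l 15454880) (l 15439840)) (b (l 15405616) (l 15373152))) (b (l 15472720) (l 15424664))) (b (l 15548416) (l 15478584))) (b (l 15685800) (l 15614496)))) (b (a (l 15872904) (l 16100616)) (a (l 15838520) (l 16021784))))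 (a (b (l 16256448) (l 16280736)) (b (l 15994440) (l 16340584))))), by decide +kernel⟩

def k8_pm_022 : ∃ t, chk3 f_pm_022 t 2 7 1 = true :=
  ⟨(a (b (a (b (a (c (a (b (l 15523864) (l 15495640)) (l 15603112)) (a (a (b (l 15342440) (l 15313448)) (l 15362672)) (l 15415776))) (c (l 15723392) (l 15550224))) (a (a (c (b (l 15447664) (l 15421864)) (a (b (l 15286160) (l 15260552)) (l 15307536))) (c (a (l 15530176) (l 15566520)) (b (l 15373168) (l 15347176)))) (c (b (l 15681040) (l 15655728)) (a (l 15447288) (l 15541768))))) (a (b (l 15750032) (b (l 15769064) (l 15620776))) (c (l 16015344) (l 15704616)))) (a (b (a (c (b (a (b (a (l 15427768) (l 15463664)) (a (l 15418936) (l 15455960))) (l 15493992)) (a (b (l 15410432) (l 15425704)) (l 15502376))) (b (a (b (a (b (l 15245376) (l 15240152)) (l 15277944)) (a (l 15237960) (l 15275200))) (b (l 15332528) (l 15331496))) (a (b (l 15277920) (l 15257856)) (l 15331752)))) (c (l 15484032) (b (l 15472064) (l 15470968))))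 (a (c (a (b (a (l 15399544) (l 15436128)) (l 15408520)) (l 15465336)) (a (b (a (l 15241960) (l 15278552)) (l 15265120)) (b (l 15333920) (l 15338048)))) (c (l 15607216) (l 15473768)))) (c (a (l 15572096) (l 15939264)) (b (l 15569272) (l 15651576))))) (b (a (b (l 16095400) (l 15940808)) (b (l 16312072) (l 16337072))) (a (c (l 16161096) (l 16108952)) (l 16103792)))), by decide +kernel⟩

def k9_pm_022 : ∃ t, chk3 f_pm_022 t 3 3 1 = true :=
  ⟨(b (a (b (a (b (a (l 15982656) (l 544418291831)) (a (l 16044112) (l 15897184))) (b (l 1) (a (l 15719304) (l 1)))) (a (c (l 16046216) (l 15979856)) (a (l 15649208) (l 301215496983)))) (b (l 1) (a (b (l 1) (l 540659546855)) (l 1)))) (a (b (a (b (c (l 16109304) (l 16178776)) (l 16173088)) (b (c (l 15892368) (l 15905896)) (l 15953168))) (a (c (l 16157784) (l 16232856)) (b (l 15997896) (l 16034824)))) (b (a (b (c (l 15640408) (l 15504000)) (l 130490511863)) (b (l 1) (c (l 480530793703) (l 487508982775)))) (a (b (l 15761600)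 (l 15824192)) (b (c (l 15537160) (l 15451264)) (l 15517744)))))), by decide +kernel⟩

theorem s10_pm_022 : ∃ t, chk3 f_pm_022 t 2 3 1 = true := ex3_b k7_pm_022 k8_pm_022

theorem s11_pm_022 : ∃ t, chk3 f_pm_022 t 1 3 1 = true := ex3_a s10_pm_022 k9_pm_022

theorem s12_pm_022 : ∃ t, chk3 f_pm_022 t 4 5 1 = true := ex3_b k3_pm_022 k4_pm_022

theorem s13_pm_022 : ∃ t, chk3 f_pm_022 t 2 5 1 = true := ex3_a s12_pm_022 k5_pm_022

theorem s14_pm_022 : ∃ t, chk3 f_pm_022 t 2 9 1 = true := ex3_b k1_pm_022 k2_pm_022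

theorem s15_pm_022 : ∃ t, chk3 f_pm_022 t 2 4 1 = true := ex3_b k0_pm_022 s14_pm_022

theorem s16_pm_022 : ∃ t, chk3 f_pm_022 t 2 2 1 = true := ex3_b s15_pm_022 s13_pm_022

theorem s17_pm_022 : ∃ t, chk3 f_pm_022 t 1 2 1 = true := ex3_a s16_pm_022 k6_pm_022

theorem s18_pm_022 : ∃ t, chk3 f_pm_022 t 1 1 1 = true := ex3_b s17_pm_022 s11_pm_022

theorem c_pm_022 : CertB 0 536870912 1073741824 536870912 966367641 24778659 3 eng mog cd1q0 cd2q2 pd2 true true false .pp 0 2 2
    ndB1q0 ndB2q2 pcB2 Cut.none Ext.none :=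
  certB1 (fam := true) (s1 := true) (s2 := false) (a := 0) (b := 2) (c := 2) (cn := .pp) (n1 := ndB1q0) (n2 := ndB2q2) (pc := pcB2) (cut := Cut.none) (xt := Ext.none) (P1 := 0) (W1 := 536870912) (P2 := 1073741824) (W2 := 536870912) (P3 := 966367641) (W3 := 24778659) (N0 := 3) (En := eng) (mo := mog) (C1 := cd1q0) (C2 := cd2q2) (C3 := pd2)
    rfl (fun _ => rfl) s18_pm_022

end Pool.Agent.Strip051.G.I9000_9231.Tab.C.BA12

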