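import Pool.Agent.Strip051.G.I9000_9231.Gn
import Pool.Agent.Strip051.PB.Corns
import Pool.Agent.Strip051.PB.CornW

/-! # Certificates of the aligned corners (generated) -/

set_option linter.all false

namespace Pool.Agent.Strip051.G.I9000_9231.Tab.CG

open Pool.Agent.Strip051.PB

def B022R_003 :
    ∃ t, chk3 (onCell 0 67108864 0 1073741824 966367641 24778659 (corT true 1 c0B cB022R gB0q0 gB0q2 gB3q2 gB4q2 false true)) t 1 1 1 = true :=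
  ⟨(T.b (T.b (T.a (T.a (T.l 204) (T.a (T.a (T.l 204) (T.l 204)) (T.l 204))) (T.a (T.a (T.l 204) (T.l 204)) (T.a (T.l 204) (T.b (T.l 204) (T.l 204))))) (T.a (T.a (T.l 0) (T.a (T.l 0) (T.l 0))) (T.a (T.l 0) (T.l 0)))) (T.a (T.a (T.l 0) (T.a (T.l 0) (T.l 0))) (T.a (T.b (T.l 0) (T.b (T.l 816) (T.l 816))) (T.b (T.b (T.l 0) (T.l 816)) (T.l 0))))), by decide +kernel⟩

def B022R_013 :
    ∃ t, chk3 (onCell 0 67108864 0 1073741824 966367641 24778659 (corT true 1 c0B cB022R gB0q0 gB1q2 gB3q2 gB4q2 false true)) t 1 1 1 = true :=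
  ⟨(T.a (T.l 0) (T.b (T.a (T.l 0) (T.b (T.l 0) (T.l 0))) (T.b (T.b (T.l 816) (T.l 0)) (T.a (T.l 0) (T.l 816))))), by decide +kernel⟩

def B022R_103 :
    ∃ t, chk3 (onCell 0 67108864 0 1073741824 966367641 24778659 (corT true 1 c0B cB022R gB1q0 gB0q2 gB3q2 gB4q2 false true)) t 1 1 1 = true :=
  ⟨(T.a (T.a (T.b (T.b (T.l 204) (T.l 0)) (T.l 0)) (T.a (T.b (T.a (T.l 0) (T.l 0)) (T.l 0)) (T.b (T.l 0) (T.b (T.l 816) (T.l 0))))) (T.b (T.a (T.a (T.l 0) (T.l 0)) (T.b (T.a (T.l 204) (T.b (T.l 204) (T.l 204))) (T.b (T.l 0) (T.l 0)))) (T.a (T.b (T.b (T.l 0) (T.l 0)) (T.l 0)) (T.b (T.l 0) (T.l 816))))), by decide +kernel⟩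

def B022R_113 :
    ∃ t, chk3 (onCell 0 67108864 0 1073741824 966367641 24778659 (corT true 1 c0B cB022R gB1q0 gB1q2 gB3q2 gB4q2 false true)) t 1 1 1 = true :=
  ⟨(T.b (T.a (T.l 0) (T.a (T.l 0) (T.b (T.l 0) (T.l 68)))) (T.a (T.b (T.l 816) (T.b (T.l 816) (T.a (T.l 816) (T.l 816)))) (T.a (T.b (T.l 0) (T.l 816)) (T.b (T.l 0) (T.l 816))))), by decide +kernel⟩

def B101E_000 :
    ∃ t, chk3 (onCell 0 26843545 0 1073741824 966367641 24778659 (corT true 1 c0B cB101E gB0q1 gB0q1 gB0q0 gB1q0 true true)) t 1 1 1 = true :=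
  ⟨(T.l 2), by decide +kernel⟩

def B101E_001_2_1_1 :
    ∃ t, chk3 (onCell 0 26843545 0 1073741824 966367641 24778659 (corT true 1 c0B cB101E gB0q1 gB0q1 gB1q0 gB2q0 true false)) t 2 1 1 = true :=
  ⟨(T.b (T.b (T.b (T.c (T.b (T.l 816) (T.l 816)) (T.a (T.a (T.l 816) (T.l 824)) (T.b (T.b (T.l 816) (T.l 816)) (T.l 816)))) (T.c (T.l 816) (T.a (T.b (T.l 816) (T.l 816)) (T.b (T.l 816) (T.l 816))))) (T.a (T.c (T.l 0) (T.c (T.l 824) (T.b (T.l 816) (T.l 816)))) (T.c (T.l 0) (T.b (T.l 816) (T.l 816))))) (T.b (T.a (T.c (T.l 0) (T.c (T.l 0) (T.b (T.l 816) (T.l 0)))) (T.c (T.l 0) (T.b (T.l 0) (T.l 0)))) (T.b (T.a (T.c (T.l 204) (T.b (T.l 0) (T.l 0))) (T.c (T.l 204) (T.b (T.l 0) (T.l 0)))) (T.a (T.c (T.b (T.l 204) (T.b (T.b (T.l 204) (T.l 204)) (T.a (T.c (T.l 204) (T.l 204)) (T.b (T.l 204) (T.l 204))))) (T.b (T.a (T.l 0) (T.l 204)) (T.c (T.a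 (T.b (T.l 204) (T.l 204)) (T.l 204)) (T.b (T.b (T.l 204) (T.l 204)) (T.a (T.c (T.l 204) (T.b (T.l 204) (T.l 204))) (T.l 204)))))) (T.c (T.b (T.l 204) (T.a (T.b (T.l 204) (T.l 204)) (T.l 204))) (T.b (T.b (T.l 204) (T.l 204)) (T.c (T.b (T.l 204) (T.l 204)) (T.a (T.l 204) (T.l 204))))))))), by decide +kernel⟩

def B101E_001_3_1_1 :
    ∃ t, chk3 (onCell 0 26843545 0 1073741824 966367641 24778659 (corT true 1 c0B cB101E gB0q1 gB0q1 gB1q0 gB2q0 true false)) t 3 1 1 = true :=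
  ⟨(T.b (T.a (T.b (T.c (T.b (T.l 816) (T.l 816)) (T.b (T.b (T.b (T.l 816) (T.l 816)) (T.l 816)) (T.l 824))) (T.c (T.l 0) (T.b (T.l 816) (T.l 816)))) (T.b (T.b (T.a (T.b (T.c (T.b (T.l 816) (T.l 816)) (T.b (T.l 816) (T.l 816))) (T.c (T.l 816) (T.l 816))) (T.b (T.c (T.a (T.l 816) (T.l 816)) (T.a (T.l 816) (T.l 816))) (T.c (T.b (T.l 816) (T.l 816)) (T.b (T.l 816) (T.l 816))))) (T.a (T.b (T.l 816) (T.l 816)) (T.b (T.c (T.l 816) (T.l 816)) (T.l 816)))) (T.a (T.b (T.l 816) (T.l 0)) (T.b (T.l 944) (T.l 0))))) (T.a (T.b (T.b (T.l 0) (T.b (T.l 0) (T.l 0))) (T.b (T.c (T.l 204) (T.l 0)) (T.c (T.b (T.l 204) (T.b (T.l 204) (T.l 204))) (T.b (T.l 204) (T.c (T.l 204) (T.b (T.l 204) (T.l 204))))))) (T.b (T.a (T.b (T.l 0) (T.l 0)) (T.b (T.l 0) (T.l 0))) (T.b (T.a (T.b (T.l 204) (T.l 204)) (T.b (T.l 204) (T.l 204))) (T.a (T.c (T.b (T.l 204) (T.l 204))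 (T.b (T.l 204) (T.c (T.l 204) (T.l 204)))) (T.c (T.b (T.l 204) (T.l 204)) (T.b (T.l 204) (T.b (T.l 204) (T.l 204))))))))), by decide +kernel⟩

theorem B101E_001 :
    ∃ t, chk3 (onCell 0 26843545 0 1073741824 966367641 24778659 (corT true 1 c0B cB101E gB0q1 gB0q1 gB1q0 gB2q0 true false)) t 1 1 1 = true :=
  ex3_a B101E_001_2_1_1 B101E_001_3_1_1

def B101L_200 :
    ∃ t, chk3 (onCell 0 67108864 0 1073741824 966367641 24778659 (corT true 1 c0B cB101L gB2q1 gB0q1 gB0q0 gB1q0 true true)) t 1 1 1 = true :=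
  ⟨(T.b (T.l 1) (T.b (T.l 1) (T.b (T.l 1) (T.b (T.l 1) (T.b (T.b (T.l 1) (T.b (T.l 1) (T.b (T.l 1) (T.b (T.a (T.a (T.l 816) (T.l 1)) (T.l 1)) (T.a (T.a (T.l 816) (T.l 0)) (T.a (T.l 0) (T.l 0))))))) (T.b (T.b (T.b (T.b (T.a (T.a (T.l 816) (T.l 0)) (T.a (T.l 0) (T.l 0))) (T.a (T.a (T.l 816) (T.l 0)) (T.a (T.l 0) (T.l 0)))) (T.b (T.a (T.a (T.l 816) (T.l 0)) (T.a (T.l 0) (T.l 0))) (T.a (T.a (T.l 816) (T.l 0)) (T.a (T.l 0) (T.l 0))))) (T.b (T.b (T.a (T.a (T.l 816) (T.l 0)) (T.a (T.l 0) (T.l 0))) (T.a (T.a (T.l 816) (T.l 0)) (T.a (T.l 0) (T.l 0)))) (T.b (T.a (T.a (T.l 816) (T.l 0)) (T.a (T.l 0) (T.l 0))) (T.b (T.a (T.a (T.l 816) (T.l 0)) (T.a (T.l 0) (T.l 0))) (T.a (T.a (T.l 816) (T.l 0)) (T.a (T.l 0) (T.l 0))))))) (T.b (T.b (T.b (T.b (T.a (T.a (T.l 816) (T.l 0)) (T.a (T.l 0) (T.l 0))) (T.a (T.a (T.l 816) (T.l 0)) (T.a (T.l 0) (T.l 0))))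 (T.b (T.a (T.a (T.l 816) (T.l 0)) (T.a (T.l 0) (T.l 0))) (T.a (T.a (T.l 816) (T.l 0)) (T.a (T.l 0) (T.l 0))))) (T.b (T.b (T.a (T.a (T.l 816) (T.l 0)) (T.a (T.l 0) (T.l 0))) (T.a (T.a (T.l 816) (T.l 0)) (T.a (T.l 0) (T.l 0)))) (T.b (T.a (T.a (T.l 816) (T.l 0)) (T.a (T.l 0) (T.l 0))) (T.a (T.a (T.l 816) (T.l 0)) (T.a (T.l 0) (T.l 0)))))) (T.b (T.b (T.a (T.a (T.l 816) (T.l 0)) (T.a (T.l 0) (T.l 0))) (T.a (T.a (T.l 816) (T.l 0)) (T.a (T.l 0) (T.l 0)))) (T.a (T.a (T.l 816) (T.l 0)) (T.a (T.l 0) (T.l 0))))))))))), by decide +kernel⟩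

def B101L_201 :
    ∃ t, chk3 (onCell 0 67108864 0 1073741824 966367641 24778659 (corT true 1 c0B cB101L gB2q1 gB0q1 gB1q0 gB2q0 true false)) t 1 1 1 = true :=
  ⟨(T.l 1), by decide +kernel⟩

def B101L_300 :
    ∃ t, chk3 (onCell 0 67108864 0 1073741824 966367641 24778659 (corT true 1 c0B cB101L gB3q1 gB0q1 gB0q0 gB1q0 true true)) t 1 1 1 = true :=
  ⟨(T.b (T.l 1) (T.b (T.l 1) (T.b (T.b (T.b (T.l 1) (T.b (T.l 1) (T.a (T.l 0) (T.a (T.l 204) (T.a (T.l 204) (T.l 204)))))) (T.a (T.l 0) (T.a (T.b (T.l 204) (T.l 0)) (T.a (T.l 204) (T.l 204))))) (T.b (T.b (T.b (T.a (T.l 0) (T.a (T.l 0) (T.l 204))) (T.a (T.a (T.l 0) (T.l 0)) (T.a (T.l 0) (T.l 0)))) (T.b (T.a (T.a (T.l 0) (T.l 0)) (T.a (T.l 0) (T.l 0))) (T.a (T.a (T.l 0) (T.l 0)) (T.a (T.l 0) (T.l 0))))) (T.b (T.a (T.a (T.l 0) (T.l 0)) (T.a (T.l 0) (T.l 0))) (T.a (T.a (T.l 0) (T.l 0)) (T.a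 (T.l 0) (T.l 0)))))))), by decide +kernel⟩

def B101L_301 :
    ∃ t, chk3 (onCell 0 67108864 0 1073741824 966367641 24778659 (corT true 1 c0B cB101L gB3q1 gB0q1 gB1q0 gB2q0 true false)) t 1 1 1 = true :=
  ⟨(T.l 1), by decide +kernel⟩

def B101L_400 :
    ∃ t, chk3 (onCell 0 53687091 0 1073741824 966367641 24778659 (corX 1 c0B cB101L tB101L gB4q1 gB0q1 gB0q0 gB1q0 gB0q0 true true)) t 1 1 1 = true :=
  ⟨(T.b (T.l 1) (T.a (T.l 3) (T.b (T.b (T.l 1) (T.b (T.l 3) (T.l 3))) (T.a (T.l 3) (T.b (T.b (T.l 0) (T.l 0)) (T.l 0)))))), by decide +kernel⟩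

def B101L_401 :
    ∃ t, chk3 (onCell 0 53687091 0 1073741824 966367641 24778659 (corT true 1 c0B cB101L gB4q1 gB0q1 gB1q0 gB2q0 true false)) t 1 1 1 = true :=
  ⟨(T.l 1), by decide +kernel⟩

def B101R_020 :
    ∃ t, chk3 (onCell 0 67108864 0 1073741824 966367641 24778659 (corT true 1 c0B cB101R gB0q1 gB2q1 gB0q0 gB1q0 true true)) t 1 1 1 = true :=
  ⟨(T.l 1), by decide +kernel⟩

def B101R_021 :
    ∃ t, chk3 (onCell 0 67108864 0 1073741824 966367641 24778659 (corT true 1 c0B cB101R gB0q1 gB2q1 gB1q0 gB2q0 true false)) t 1 1 1 = true :=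
  ⟨(T.l 1), by decide +kernel⟩

def B101R_030 :
    ∃ t, chk3 (onCell 0 67108864 0 1073741824 966367641 24778659 (corT true 1 c0B cB101R gB0q1 gB3q1 gB0q0 gB1q0 true true)) t 1 1 1 = true :=
  ⟨(T.l 1), by decide +kernel⟩

def B101R_031 :
    ∃ t, chk3 (onCell 0 67108864 0 1073741824 966367641 24778659 (corT true 1 c0B cB101R gB0q1 gB3q1 gB1q0 gB2q0 true false)) t 1 1 1 = true :=
  ⟨(T.l 1), by decide +kernel⟩

def B101R_040 :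
    ∃ t, chk3 (onCell 0 67108864 0 1073741824 966367641 24778659 (corT true 1 c0B cB101R gB0q1 gB4q1 gB0q0 gB1q0 true true)) t 1 1 1 = true :=
  ⟨(T.l 1), by decide +kernel⟩

def B101R_041 :
    ∃ t, chk3 (onCell 0 67108864 0 1073741824 966367641 24778659 (corT true 1 c0B cB101R gB0q1 gB4q1 gB1q0 gB2q0 true false)) t 1 1 1 = true :=
  ⟨(T.l 1), by decide +kernel⟩

def B102E_000_1_2_1 :
    ∃ t, chk3 (onCell 0 33554432 0 1073741824 966367641 24778659 (corX 1 c0B cB102E tB102E gB0q1 gB0q2 gB0q0 gB1q0 gB0q0 true true)) t 1 2 1 = true :=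
  ⟨(T.b (T.l 1) (T.b (T.l 1) (T.b (T.l 1) (T.a (T.b (T.l 1) (T.a (T.b (T.l 1) (T.a (T.c (T.l 3) (T.b (T.l 1) (T.c (T.l 819) (T.a (T.l 819) (T.l 1))))) (T.l 1))) (T.l 1))) (T.l 1))))), by decide +kernel⟩

def B102E_000_1_12_1 :
    ∃ t, chk3 (onCell 0 33554432 0 1073741824 966367641 24778659 (corX 1 c0B cB102E tB102E gB0q1 gB0q2 gB0q0 gB1q0 gB0q0 true true)) t 1 12 1 = true :=
  ⟨(T.a (T.c (T.a (T.l 3) (T.l 3)) (T.a (T.c (T.l 819) (T.a (T.c (T.l 819) (T.c (T.l 819) (T.b (T.a (T.l 819) (T.l 819)) (T.a (T.l 819) (T.l 827))))) (T.c (T.l 819) (T.c (T.l 827) (T.a (T.b (T.l 827) (T.l 827)) (T.l 827)))))) (T.c (T.l 947) (T.a (T.c (T.l 819) (T.a (T.l 827) (T.l 827))) (T.a (T.l 827) (T.l 827)))))) (T.a (T.c (T.b (T.l 3) (T.l 3)) (T.a (T.c (T.l 819) (T.b (T.l 827) (T.l 955))) (T.c (T.l 819) (T.b (T.l 827) (T.l 955))))) (T.a (T.c (T.l 3) (T.c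 (T.l 947) (T.l 955))) (T.c (T.b (T.l 3) (T.l 131)) (T.a (T.c (T.l 947) (T.l 955)) (T.b (T.l 955) (T.l 955))))))), by decide +kernel⟩

def B102E_000_2_13_1 :
    ∃ t, chk3 (onCell 0 33554432 0 1073741824 966367641 24778659 (corX 1 c0B cB102E tB102E gB0q1 gB0q2 gB0q0 gB1q0 gB0q0 true true)) t 2 13 1 = true :=
  ⟨(T.c (T.a (T.l 3) (T.b (T.l 3) (T.l 3))) (T.a (T.c (T.l 819) (T.a (T.c (T.l 819) (T.c (T.l 827) (T.b (T.a (T.l 827) (T.l 827)) (T.a (T.l 827) (T.l 827))))) (T.c (T.l 819) (T.c (T.l 827) (T.b (T.b (T.l 827) (T.l 827)) (T.b (T.l 827) (T.l 827))))))) (T.c (T.b (T.l 819) (T.l 947)) (T.a (T.c (T.l 819) (T.a (T.b (T.l 827) (T.l 827)) (T.l 827))) (T.c (T.l 955) (T.b (T.l 955) (T.l 955))))))), by decide +kernel⟩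

def B102E_000_3_13_1 :
    ∃ t, chk3 (onCell 0 33554432 0 1073741824 966367641 24778659 (corX 1 c0B cB102E tB102E gB0q1 gB0q2 gB0q0 gB1q0 gB0q0 true true)) t 3 13 1 = true :=
  ⟨(T.a (T.c (T.a (T.l 3) (T.l 131)) (T.a (T.c (T.l 947) (T.b (T.l 955) (T.b (T.l 955) (T.l 955)))) (T.c (T.b (T.l 947) (T.l 947)) (T.b (T.l 955) (T.b (T.l 955) (T.b (T.l 952) (T.l 2))))))) (T.a (T.b (T.c (T.l 3) (T.c (T.l 947) (T.b (T.l 955) (T.l 955)))) (T.b (T.c (T.l 3) (T.c (T.l 947) (T.a (T.l 955) (T.l 955)))) (T.b (T.c (T.l 819) (T.c (T.l 947) (T.c (T.l 947) (T.b (T.l 955) (T.l 952))))) (T.l 2)))) (T.b (T.a (T.c (T.l 131) (T.c (T.l 947) (T.a (T.l 955) (T.l 955)))) (T.c (T.b (T.b (T.l 3) (T.l 128)) (T.b (T.l 128) (T.l 128))) (T.b (T.a (T.l 947) (T.c (T.l 944) (T.l 944))) (T.c (T.b (T.l 944) (T.l 944)) (T.a (T.b (T.l 947) (T.l 944)) (T.l 944)))))) (T.c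 (T.a (T.c (T.l 128) (T.b (T.l 944) (T.l 944))) (T.c (T.l 128) (T.b (T.l 944) (T.l 944)))) (T.a (T.c (T.b (T.b (T.l 944) (T.l 944)) (T.a (T.l 944) (T.l 944))) (T.b (T.a (T.c (T.l 947) (T.l 955)) (T.b (T.l 952) (T.c (T.l 944) (T.l 952)))) (T.b (T.a (T.c (T.l 944) (T.a (T.l 952) (T.b (T.l 952) (T.l 952)))) (T.c (T.l 944) (T.a (T.l 952) (T.l 944)))) (T.l 2)))) (T.b (T.c (T.b (T.l 944) (T.l 944)) (T.a (T.b (T.l 944) (T.b (T.l 944) (T.l 944))) (T.b (T.l 944) (T.l 944)))) (T.b (T.c (T.l 944) (T.a (T.c (T.l 944) (T.b (T.l 944) (T.l 944))) (T.c (T.l 944) (T.l 944)))) (T.l 2)))))))), by decide +kernel⟩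

def B102E_000_1_7_1 :
    ∃ t, chk3 (onCell 0 33554432 0 1073741824 966367641 24778659 (corX 1 c0B cB102E tB102E gB0q1 gB0q2 gB0q0 gB1q0 gB0q0 true true)) t 1 7 1 = true :=
  ⟨(T.l 2), by decide +kernel⟩

theorem B102E_000_1_13_1 :
    ∃ t, chk3 (onCell 0 33554432 0 1073741824 966367641 24778659 (corX 1 c0B cB102E tB102E gB0q1 gB0q2 gB0q0 gB1q0 gB0q0 true true)) t 1 13 1 = true :=
  ex3_a B102E_000_2_13_1 B102E_000_3_13_1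
theorem B102E_000_1_6_1 :
    ∃ t, chk3 (onCell 0 33554432 0 1073741824 966367641 24778659 (corX 1 c0B cB102E tB102E gB0q1 gB0q2 gB0q0 gB1q0 gB0q0 true true)) t 1 6 1 = true :=
  ex3_b B102E_000_1_12_1 B102E_000_1_13_1
theorem B102E_000_1_3_1 :
    ∃ t, chk3 (onCell 0 33554432 0 1073741824 966367641 24778659 (corX 1 c0B cB102E tB102E gB0q1 gB0q2 gB0q0 gB1q0 gB0q0 true true)) t 1 3 1 = true :=
  ex3_b B102E_000_1_6_1 B102E_000_1_7_1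
theorem B102E_000 :
    ∃ t, chk3 (onCell 0 33554432 0 1073741824 966367641 24778659 (corX 1 c0B cB102E tB102E gB0q1 gB0q2 gB0q0 gB1q0 gB0q0 true true)) t 1 1 1 = true :=
  ex3_b B102E_000_1_2_1 B102E_000_1_3_1

def B102E_001_1_2_1 :
    ∃ t, chk3 (onCell 0 33554432 0 1073741824 966367641 24778659 (corT true 1 c0B cB102E gB0q1 gB0q2 gB1q0 gB2q0 true false)) t 1 2 1 = true :=
  ⟨(T.l 1), by decide +kernel⟩

def B102E_001_1_6_1 :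
    ∃ t, chk3 (onCell 0 33554432 0 1073741824 966367641 24778659 (corT true 1 c0B cB102E gB0q1 gB0q2 gB1q0 gB2q0 true false)) t 1 6 1 = true :=
  ⟨(T.b (T.l 1) (T.b (T.l 1) (T.b (T.l 1) (T.a (T.c (T.a (T.l 0) (T.l 0)) (T.c (T.a (T.l 816) (T.l 944)) (T.a (T.c (T.l 816) (T.c (T.l 816) (T.b (T.a (T.l 824) (T.l 824)) (T.l 824)))) (T.b (T.a (T.b (T.l 952) (T.l 824)) (T.l 952)) (T.l 824))))) (T.a (T.c (T.l 128) (T.c (T.a (T.l 944) (T.l 944)) (T.b (T.b (T.a (T.b (T.l 1) (T.l 952)) (T.l 1)) (T.a (T.l 952) (T.l 952))) (T.l 952)))) (T.a (T.c (T.b (T.l 128) (T.l 128)) (T.b (T.b (T.l 1) (T.c (T.l 944) (T.c (T.l 944) (T.l 952)))) (T.a (T.l 952) (T.b (T.l 952) (T.l 952))))) (T.c (T.a (T.c (T.l 0) (T.b (T.l 944) (T.l 816))) (T.c (T.l 0) (T.b (T.l 944) (T.l 816)))) (T.a (T.c (T.b (T.b (T.l 1) (T.l 944)) (T.l 944)) (T.b (T.b (T.l 1) (T.a (T.c (T.l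 944) (T.a (T.l 952) (T.l 952))) (T.c (T.l 944) (T.b (T.l 952) (T.l 944))))) (T.a (T.l 952) (T.l 944)))) (T.c (T.b (T.b (T.l 1) (T.l 944)) (T.l 944)) (T.b (T.b (T.l 1) (T.c (T.l 944) (T.a (T.l 944) (T.l 944)))) (T.l 944))))))))))), by decide +kernel⟩

def B102E_001_1_7_1 :
    ∃ t, chk3 (onCell 0 33554432 0 1073741824 966367641 24778659 (corT true 1 c0B cB102E gB0q1 gB0q2 gB1q0 gB2q0 true false)) t 1 7 1 = true :=
  ⟨(T.a (T.b (T.c (T.b (T.l 0) (T.l 0)) (T.b (T.c (T.l 0) (T.a (T.b (T.a (T.l 816) (T.l 816)) (T.l 816)) (T.b (T.l 824) (T.l 816)))) (T.c (T.l 0) (T.a (T.b (T.l 816) (T.l 0)) (T.l 0))))) (T.c (T.a (T.b (T.l 204) (T.a (T.c (T.b (T.l 204) (T.l 204)) (T.l 204)) (T.c (T.l 204) (T.l 204)))) (T.b (T.l 204) (T.a (T.l 204) (T.l 204)))) (T.a (T.b (T.b (T.l 0) (T.l 0)) (T.b (T.a (T.l 0) (T.l 204)) (T.c (T.a (T.l 204) (T.l 204)) (T.a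 (T.c (T.l 204) (T.l 204)) (T.l 204))))) (T.b (T.l 0) (T.c (T.l 204) (T.b (T.l 204) (T.l 204))))))) (T.a (T.a (T.c (T.b (T.l 0) (T.b (T.l 204) (T.l 204))) (T.b (T.b (T.b (T.l 824) (T.l 0)) (T.l 0)) (T.b (T.l 0) (T.l 204)))) (T.b (T.b (T.c (T.l 0) (T.l 136)) (T.c (T.l 512) (T.b (T.l 0) (T.l 0)))) (T.b (T.a (T.l 32) (T.b (T.l 0) (T.l 204))) (T.c (T.a (T.l 236) (T.l 204)) (T.b (T.l 204) (T.a (T.l 204) (T.l 204))))))) (T.b (T.a (T.b (T.c (T.b (T.l 128) (T.l 0)) (T.b (T.a (T.l 952) (T.l 952)) (T.l 136))) (T.c (T.b (T.l 0) (T.l 204)) (T.b (T.l 0) (T.l 0)))) (T.b (T.c (T.a (T.l 128) (T.l 128)) (T.a (T.b (T.b (T.l 952) (T.l 952)) (T.l 8)) (T.b (T.b (T.l 944) (T.l 816)) (T.l 0)))) (T.c (T.b (T.l 512) (T.l 716)) (T.b (T.l 8) (T.l 0))))) (T.a (T.b (T.c (T.b (T.l 204) (T.l 204)) (T.b (T.l 0) (T.l 204))) (T.c (T.a (T.b (T.l 204) (T.l 204)) (T.l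 236)) (T.b (T.l 204) (T.a (T.l 204) (T.l 204))))) (T.b (T.c (T.b (T.l 716) (T.l 716)) (T.b (T.l 0) (T.l 236))) (T.c (T.a (T.b (T.l 204) (T.l 204)) (T.b (T.l 204) (T.l 204))) (T.a (T.b (T.l 204) (T.l 236)) (T.b (T.l 204) (T.l 204))))))))), by decide +kernel⟩

theorem B102E_001_1_3_1 :
    ∃ t, chk3 (onCell 0 33554432 0 1073741824 966367641 24778659 (corT true 1 c0B cB102E gB0q1 gB0q2 gB1q0 gB2q0 true false)) t 1 3 1 = true :=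
  ex3_b B102E_001_1_6_1 B102E_001_1_7_1
theorem B102E_001 :
    ∃ t, chk3 (onCell 0 33554432 0 1073741824 966367641 24778659 (corT true 1 c0B cB102E gB0q1 gB0q2 gB1q0 gB2q0 true false)) t 1 1 1 = true :=
  ex3_b B102E_001_1_2_1 B102E_001_1_3_1

def B102E_010 :
    ∃ t, chk3 (onCell 0 33554432 0 1073741824 966367641 24778659 (corT true 1 c0B cB102E gB0q1 gB1q2 gB0q0 gB1q0 true true)) t 1 1 1 = true :=
  ⟨(T.b (T.b (T.l 1) (T.b (T.b (T.l 1) (T.b (T.l 1) (T.a (T.l 0) (T.b (T.l 1) (T.a (T.l 0) (T.l 0)))))) (T.a (T.l 0) (T.a (T.l 0) (T.b (T.b (T.l 0) (T.l 0)) (T.l 0)))))) (T.b (T.a (T.c (T.l 0) (T.l 0)) (T.b (T.a (T.l 0) (T.l 0)) (T.b (T.a (T.l 0) (T.b (T.l 8) (T.l 2))) (T.l 2)))) (T.l 2))), by decide +kernel⟩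

def B102E_011 :
    ∃ t, chk3 (onCell 0 33554432 0 1073741824 966367641 24778659 (corT true 1 c0B cB102E gB0q1 gB1q2 gB1q0 gB2q0 true false)) t 1 1 1 = true :=
  ⟨(T.b (T.l 1) (T.a (T.b (T.b (T.l 1) (T.l 0)) (T.b (T.b (T.l 0) (T.l 0)) (T.c (T.b (T.l 204) (T.a (T.b (T.l 204) (T.b (T.l 204) (T.c (T.a (T.l 204) (T.l 204)) (T.l 204)))) (T.a (T.l 204) (T.l 204)))) (T.b (T.l 0) (T.a (T.b (T.l 0) (T.c (T.a (T.l 204) (T.l 204)) (T.a (T.c (T.l 204) (T.l 204)) (T.l 204)))) (T.c (T.l 204) (T.b (T.l 204) (T.l 204)))))))) (T.b (T.b (T.l 1) (T.a (T.l 0) (T.a (T.l 0) (T.l 0)))) (T.a (T.a (T.b (T.l 0) (T.b (T.l 0) (T.c (T.l 204) (T.l 204)))) (T.b (T.b (T.l 0) (T.l 0)) (T.b (T.b (T.l 204) (T.l 204)) (T.c (T.a (T.l 204) (T.l 204)) (T.b (T.l 204) (T.a (T.l 204) (T.l 204))))))) (T.b (T.a (T.b (T.l 0) (T.l 0)) (T.b (T.l 0) (T.b (T.l 0) (T.l 0)))) (T.a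 (T.b (T.b (T.l 204) (T.l 204)) (T.c (T.a (T.b (T.l 204) (T.l 204)) (T.l 236)) (T.b (T.l 204) (T.c (T.l 204) (T.l 236))))) (T.b (T.c (T.l 204) (T.l 0)) (T.c (T.b (T.l 204) (T.a (T.l 204) (T.l 204))) (T.b (T.l 204) (T.a (T.l 236) (T.l 204))))))))))), by decide +kernel⟩

def B102L_200 :
    ∃ t, chk3 (onCell 0 67108864 0 1073741824 966367641 24778659 (corT true 1 c0B cB102L gB2q1 gB0q2 gB0q0 gB1q0 true true)) t 1 1 1 = true :=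
  ⟨(T.b (T.b (T.l 2) (T.l 2)) (T.b (T.b (T.b (T.a (T.l 2) (T.l 2)) (T.a (T.a (T.l 204) (T.l 0)) (T.a (T.l 204) (T.l 204)))) (T.b (T.a (T.a (T.l 204) (T.l 0)) (T.a (T.l 204) (T.l 204))) (T.a (T.a (T.l 204) (T.l 0)) (T.a (T.l 0) (T.l 204))))) (T.b (T.a (T.a (T.l 0) (T.l 0)) (T.a (T.l 0) (T.l 204))) (T.b (T.a (T.a (T.l 0) (T.l 0)) (T.a (T.l 0) (T.l 0))) (T.a (T.a (T.l 0) (T.l 0)) (T.a (T.l 0) (T.l 0))))))), by decide +kernel⟩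

def B102L_201 :
    ∃ t, chk3 (onCell 0 67108864 0 1073741824 966367641 24778659 (corT true 1 c0B cB102L gB2q1 gB0q2 gB1q0 gB2q0 true false)) t 1 1 1 = true :=
  ⟨(T.b (T.b (T.b (T.a (T.a (T.l 204) (T.a (T.l 204) (T.l 204))) (T.a (T.l 204) (T.l 204))) (T.a (T.a (T.l 204) (T.b (T.l 204) (T.l 204))) (T.a (T.l 204) (T.l 204)))) (T.b (T.b (T.a (T.a (T.l 204) (T.l 204)) (T.a (T.l 204) (T.l 204))) (T.a (T.a (T.l 204) (T.l 204)) (T.a (T.l 204) (T.l 204)))) (T.b (T.a (T.a (T.l 204) (T.l 204)) (T.a (T.l 204) (T.l 204))) (T.a (T.a (T.l 204) (T.l 204)) (T.a (T.l 204) (T.l 204)))))) (T.b (T.b (T.b (T.a (T.a (T.l 204) (T.l 0)) (T.a (T.l 204) (T.l 204))) (T.a (T.a (T.l 204) (T.l 0)) (T.a (T.l 204) (T.l 204)))) (T.a (T.l 1) (T.a (T.l 1) (T.l 0)))) (T.l 1))), by decide +kernel⟩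

def B102L_210 :
    ∃ t, chk3 (onCell 0 67108864 0 1073741824 966367641 24778659 (corT true 1 c0B cB102L gB2q1 gB1q2 gB0q0 gB1q0 true true)) t 1 1 1 = true :=
  ⟨(T.b (T.b (T.a (T.a (T.l 204) (T.l 204)) (T.l 2)) (T.b (T.a (T.a (T.l 204) (T.l 204)) (T.a (T.l 204) (T.l 204))) (T.a (T.a (T.l 204) (T.l 204)) (T.a (T.l 204) (T.l 204))))) (T.b (T.a (T.a (T.l 204) (T.l 0)) (T.a (T.l 204) (T.l 204))) (T.b (T.a (T.a (T.l 204) (T.l 0)) (T.a (T.l 0) (T.l 204))) (T.b (T.a (T.a (T.l 0) (T.l 0)) (T.a (T.l 0) (T.l 204))) (T.a (T.a (T.l 0) (T.l 0)) (T.a (T.l 0) (T.l 0))))))), by decide +kernel⟩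

def B102L_211 :
    ∃ t, chk3 (onCell 0 67108864 0 1073741824 966367641 24778659 (corT true 1 c0B cB102L gB2q1 gB1q2 gB1q0 gB2q0 true false)) t 1 1 1 = true :=
  ⟨(T.b (T.b (T.b (T.a (T.a (T.l 204) (T.l 204)) (T.a (T.l 204) (T.l 204))) (T.a (T.a (T.l 204) (T.l 204)) (T.l 204))) (T.a (T.a (T.l 1) (T.l 0)) (T.b (T.l 204) (T.l 1)))) (T.l 1)), by decide +kernel⟩

def B102L_300 :
    ∃ t, chk3 (onCell 0 67108864 0 1073741824 966367641 24778659 (corT true 1 c0B cB102L gB3q1 gB0q2 gB0q0 gB1q0 true true)) t 1 1 1 = true :=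
  ⟨(T.b (T.l 2) (T.b (T.b (T.l 2) (T.b (T.a (T.a (T.l 204) (T.l 2)) (T.l 2)) (T.a (T.a (T.l 204) (T.l 0)) (T.a (T.l 0) (T.l 204))))) (T.b (T.b (T.a (T.a (T.l 204) (T.l 0)) (T.a (T.l 0) (T.l 204))) (T.a (T.a (T.l 204) (T.l 0)) (T.a (T.l 0) (T.l 204)))) (T.a (T.a (T.l 0) (T.l 0)) (T.a (T.l 0) (T.l 0)))))), by decide +kernel⟩

def B102L_301 :
    ∃ t, chk3 (onCell 0 67108864 0 1073741824 966367641 24778659 (corT true 1 c0B cB102L gB3q1 gB0q2 gB1q0 gB2q0 true false)) t 1 1 1 = true :=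
  ⟨(T.b (T.b (T.b (T.a (T.a (T.l 204) (T.a (T.l 204) (T.l 204))) (T.a (T.l 204) (T.l 204))) (T.a (T.a (T.l 204) (T.b (T.l 204) (T.l 204))) (T.a (T.l 204) (T.l 204)))) (T.b (T.a (T.a (T.l 204) (T.b (T.l 204) (T.l 204))) (T.a (T.l 204) (T.l 204))) (T.b (T.a (T.a (T.l 204) (T.l 204)) (T.a (T.l 204) (T.l 204))) (T.a (T.a (T.l 204) (T.l 204)) (T.a (T.l 204) (T.l 204)))))) (T.b (T.b (T.b (T.a (T.a (T.l 204) (T.l 204)) (T.a (T.l 204) (T.l 204))) (T.a (T.a (T.l 204) (T.l 204)) (T.a (T.l 204) (T.l 204)))) (T.b (T.a (T.a (T.l 204) (T.l 0)) (T.a (T.l 204) (T.l 204))) (T.a (T.a (T.l 204) (T.l 0)) (T.a (T.l 204) (T.l 204))))) (T.b (T.a (T.l 1) (T.l 16)) (T.l 1)))), by decide +kernel⟩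

def B102L_310 :
    ∃ t, chk3 (onCell 0 67108864 0 1073741824 966367641 24778659 (corT true 1 c0B cB102L gB3q1 gB1q2 gB0q0 gB1q0 true true)) t 1 1 1 = true :=
  ⟨(T.b (T.b (T.a (T.l 2) (T.l 2)) (T.b (T.a (T.a (T.l 204) (T.l 204)) (T.l 2)) (T.a (T.a (T.l 204) (T.l 204)) (T.a (T.l 204) (T.l 204))))) (T.b (T.a (T.a (T.l 204) (T.l 0)) (T.a (T.l 204) (T.l 204))) (T.a (T.a (T.l 0) (T.l 0)) (T.a (T.l 0) (T.l 0))))), by decide +kernel⟩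

def B102L_311 :
    ∃ t, chk3 (onCell 0 67108864 0 1073741824 966367641 24778659 (corT true 1 c0B cB102L gB3q1 gB1q2 gB1q0 gB2q0 true false)) t 1 1 1 = true :=
  ⟨(T.b (T.b (T.a (T.a (T.l 204) (T.l 204)) (T.a (T.l 204) (T.l 204))) (T.a (T.a (T.l 204) (T.l 204)) (T.l 0))) (T.b (T.a (T.l 1) (T.l 1)) (T.l 1))), by decide +kernel⟩

def B102L_400 :
    ∃ t, chk3 (onCell 0 67108864 0 1073741824 966367641 24778659 (corT true 1 c0B cB102L gB4q1 gB0q2 gB0q0 gB1q0 true true)) t 1 1 1 = true :=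
  ⟨(T.b (T.l 2) (T.b (T.l 2) (T.b (T.b (T.l 2) (T.a (T.a (T.l 0) (T.l 0)) (T.a (T.l 0) (T.l 2)))) (T.b (T.a (T.a (T.l 0) (T.l 0)) (T.a (T.l 0) (T.l 0))) (T.a (T.a (T.l 0) (T.l 0)) (T.a (T.l 0) (T.l 0))))))), by decide +kernel⟩

def B102L_401 :
    ∃ t, chk3 (onCell 0 67108864 0 1073741824 966367641 24778659 (corT true 1 c0B cB102L gB4q1 gB0q2 gB1q0 gB2q0 true false)) t 1 1 1 = true :=
  ⟨(T.b (T.b (T.b (T.a (T.a (T.l 204) (T.a (T.l 204) (T.l 204))) (T.a (T.l 204) (T.l 204))) (T.a (T.a (T.l 204) (T.b (T.l 204) (T.l 204))) (T.a (T.l 204) (T.l 204)))) (T.b (T.a (T.a (T.l 204) (T.b (T.l 204) (T.l 204))) (T.a (T.l 204) (T.l 204))) (T.a (T.a (T.l 204) (T.b (T.l 204) (T.l 204))) (T.a (T.l 204) (T.l 204))))) (T.b (T.b (T.b (T.a (T.a (T.l 204) (T.l 204)) (T.a (T.l 204) (T.l 204))) (T.a (T.a (T.l 204) (T.l 204)) (T.a (T.l 204) (T.l 204))))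 (T.b (T.a (T.a (T.l 204) (T.l 0)) (T.a (T.l 204) (T.l 204))) (T.a (T.a (T.l 204) (T.l 0)) (T.a (T.l 204) (T.l 204))))) (T.b (T.a (T.a (T.l 0) (T.l 0)) (T.l 0)) (T.a (T.l 1) (T.b (T.l 0) (T.l 1)))))), by decide +kernel⟩

def B102L_410 :
    ∃ t, chk3 (onCell 0 67108864 0 1073741824 966367641 24778659 (corT true 1 c0B cB102L gB4q1 gB1q2 gB0q0 gB1q0 true true)) t 1 1 1 = true :=
  ⟨(T.b (T.b (T.l 2) (T.b (T.l 2) (T.a (T.a (T.l 204) (T.l 2)) (T.l 2)))) (T.b (T.b (T.a (T.a (T.l 204) (T.l 0)) (T.a (T.l 204) (T.l 2))) (T.a (T.a (T.l 204) (T.l 0)) (T.b (T.l 16) (T.l 16)))) (T.b (T.a (T.a (T.l 0) (T.l 0)) (T.b (T.l 0) (T.l 0))) (T.a (T.a (T.l 0) (T.l 0)) (T.a (T.l 0) (T.l 0)))))), by decide +kernel⟩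

def B102L_411 :
    ∃ t, chk3 (onCell 0 67108864 0 1073741824 966367641 24778659 (corT true 1 c0B cB102L gB4q1 gB1q2 gB1q0 gB2q0 true false)) t 1 1 1 = true :=
  ⟨(T.b (T.b (T.a (T.a (T.l 204) (T.l 204)) (T.a (T.l 204) (T.l 204))) (T.a (T.a (T.l 204) (T.l 204)) (T.l 204))) (T.b (T.a (T.a (T.l 204) (T.l 0)) (T.l 0)) (T.l 1))), by decide +kernel⟩

def B102R_040 :
    ∃ t, chk3 (onCell 0 67108864 0 1073741824 966367641 24778659 (corT true 1 c0B cB102R gB0q1 gB4q2 gB0q0 gB1q0 true true)) t 1 1 1 = true :=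
  ⟨(T.l 1), by decide +kernel⟩

def B102R_041 :
    ∃ t, chk3 (onCell 0 67108864 0 1073741824 966367641 24778659 (corT true 1 c0B cB102R gB0q1 gB4q2 gB1q0 gB2q0 true false)) t 1 1 1 = true :=
  ⟨(T.l 1), by decide +kernel⟩

def B202E_000 :
    ∃ t, chk3 (onCell 0 67108864 0 1073741824 966367641 24778659 (corT true 1 c0B cB202E gB0q2 gB0q2 gB0q0 gB1q0 true true)) t 1 1 1 = true :=
  ⟨(T.l 1), by decide +kernel⟩

def B202E_001 :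
    ∃ t, chk3 (onCell 0 67108864 0 1073741824 966367641 24778659 (corT true 1 c0B cB202E gB0q2 gB0q2 gB1q0 gB2q0 true false)) t 1 1 1 = true :=
  ⟨(T.l 1), by decide +kernel⟩

def B202E_010 :
    ∃ t, chk3 (onCell 0 67108864 0 1073741824 966367641 24778659 (corT true 1 c0B cB202E gB0q2 gB1q2 gB0q0 gB1q0 true true)) t 1 1 1 = true :=
  ⟨(T.l 1), by decide +kernel⟩

def B202E_011 :
    ∃ t, chk3 (onCell 0 67108864 0 1073741824 966367641 24778659 (corT true 1 c0B cB202E gB0q2 gB1q2 gB1q0 gB2q0 true false)) t 1 1 1 = true :=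
  ⟨(T.l 1), by decide +kernel⟩

def B202E_100 :
    ∃ t, chk3 (onCell 0 67108864 0 1073741824 966367641 24778659 (corT true 1 c0B cB202E gB1q2 gB0q2 gB0q0 gB1q0 true true)) t 1 1 1 = true :=
  ⟨(T.l 1), by decide +kernel⟩

def B202E_101 :
    ∃ t, chk3 (onCell 0 67108864 0 1073741824 966367641 24778659 (corT true 1 c0B cB202E gB1q2 gB0q2 gB1q0 gB2q0 true false)) t 1 1 1 = true :=
  ⟨(T.l 1), by decide +kernel⟩

def B202E_110 :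
    ∃ t, chk3 (onCell 0 67108864 0 1073741824 966367641 24778659 (corT true 1 c0B cB202E gB1q2 gB1q2 gB0q0 gB1q0 true true)) t 1 1 1 = true :=
  ⟨(T.l 1), by decide +kernel⟩

def B202E_111 :
    ∃ t, chk3 (onCell 0 67108864 0 1073741824 966367641 24778659 (corT true 1 c0B cB202E gB1q2 gB1q2 gB1q0 gB2q0 true false)) t 1 1 1 = true :=
  ⟨(T.l 1), by decide +kernel⟩

def B202L_400 :
    ∃ t, chk3 (onCell 0 53687091 0 1073741824 966367641 24778659 (corT true 1 c0B cB202L gB4q2 gB0q2 gB0q0 gB1q0 true true)) t 1 1 1 = true :=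
  ⟨(T.l 2), by decide +kernel⟩

def B202L_401 :
    ∃ t, chk3 (onCell 0 53687091 0 1073741824 966367641 24778659 (corT true 1 c0B cB202L gB4q2 gB0q2 gB1q0 gB2q0 true false)) t 1 1 1 = true :=
  ⟨(T.a (T.a (T.l 0) (T.l 0)) (T.b (T.a (T.b (T.l 204) (T.l 204)) (T.b (T.l 204) (T.l 204))) (T.b (T.l 204) (T.l 0)))), by decide +kernel⟩

def B202L_410 :
    ∃ t, chk3 (onCell 0 67108864 0 1073741824 966367641 24778659 (corT true 1 c0B cB202L gB4q2 gB1q2 gB0q0 gB1q0 true true)) t 1 1 1 = true :=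
  ⟨(T.l 2), by decide +kernel⟩

def B202L_411 :
    ∃ t, chk3 (onCell 0 67108864 0 1073741824 966367641 24778659 (corT true 1 c0B cB202L gB4q2 gB1q2 gB1q0 gB2q0 true false)) t 1 1 1 = true :=
  ⟨(T.b (T.a (T.b (T.b (T.a (T.l 204) (T.l 204)) (T.l 204)) (T.l 204)) (T.a (T.b (T.l 204) (T.l 0)) (T.b (T.b (T.l 204) (T.l 204)) (T.l 204)))) (T.a (T.l 0) (T.b (T.b (T.l 16) (T.l 204)) (T.l 0)))), by decide +kernel⟩

def B202R_040 :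
    ∃ t, chk3 (onCell 0 53687091 0 1073741824 966367641 24778659 (corX 1 c0B cB202R tB202R gB0q2 gB4q2 gB0q0 gB1q0 gB0q0 true true)) t 1 1 1 = true :=
  ⟨(T.b (T.b (T.l 1) (T.a (T.l 3) (T.b (T.b (T.l 1) (T.b (T.l 3) (T.a (T.l 3) (T.l 3)))) (T.a (T.l 0) (T.b (T.b (T.l 0) (T.l 0)) (T.l 0)))))) (T.b (T.b (T.a (T.l 3) (T.a (T.b (T.l 0) (T.l 2)) (T.l 0))) (T.l 2)) (T.l 2))), by decide +kernel⟩

def B202R_041 :
    ∃ t, chk3 (onCell 0 53687091 0 1073741824 966367641 24778659 (corT true 1 c0B cB202R gB0q2 gB4q2 gB1q0 gB2q0 true false)) t 1 1 1 = true :=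
  ⟨(T.b (T.b (T.l 1) (T.l 1)) (T.b (T.b (T.a (T.l 0) (T.a (T.b (T.l 0) (T.l 0)) (T.l 0))) (T.b (T.a (T.l 0) (T.b (T.l 0) (T.l 0))) (T.a (T.l 0) (T.b (T.l 0) (T.l 0))))) (T.b (T.a (T.a (T.l 204) (T.l 204)) (T.a (T.l 0) (T.l 0))) (T.a (T.a (T.l 204) (T.l 0)) (T.a (T.l 0) (T.l 204)))))), by decide +kernel⟩

def B202R_140 :
    ∃ t, chk3 (onCell 0 67108864 0 1073741824 966367641 24778659 (corT true 1 c0B cB202R gB1q2 gB4q2 gB0q0 gB1q0 true true)) t 1 1 1 = true :=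
  ⟨(T.b (T.l 1) (T.b (T.a (T.b (T.l 0) (T.l 0)) (T.b (T.b (T.l 1) (T.l 0)) (T.l 0))) (T.a (T.l 0) (T.b (T.l 816) (T.l 2))))), by decide +kernel⟩

def B202R_141 :
    ∃ t, chk3 (onCell 0 67108864 0 1073741824 966367641 24778659 (corT true 1 c0B cB202R gB1q2 gB4q2 gB1q0 gB2q0 true false)) t 1 1 1 = true :=
  ⟨(T.b (T.l 1) (T.b (T.b (T.l 1) (T.a (T.l 1) (T.l 816))) (T.a (T.l 0) (T.b (T.l 0) (T.l 0))))), by decide +kernel⟩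

end Pool.Agent.Strip051.G.I9000_9231.Tab.CG
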