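import Pool.Agent.Strip051.G.I9000_9231.Tab
import Pool.Agent.Strip051.PB.ExtD2

/-! # Certificates B11 (generated) -/

set_option linter.all false
set_option maxRecDepth 100000

namespace Pool.Agent.Strip051.G.I9000_9231.Tab.C.BB01

open Pool.Agent.Strip051.PB Pool.Agent.Strip051.PB.T
open Pool.Agent.Strip051.G.I9000_9231.Tab

noncomputable def cut_pm_102_b : Cut := Cut.of [[⟨0, 1, 0, 33554432⟩, ⟨1, 0, 0, 33554432⟩, ⟨2, 1, 0, 33554432⟩], [⟨0, 0, 1, 46137344⟩, ⟨1, 1, 2, 46137344⟩, ⟨2, 1, 0, 2097152⟩, ⟨0, 0, 0, 1013612281⟩, ⟨0, 1, 0, 128849018⟩, ⟨1, 0, 0, 128849018⟩, ⟨1, 1, 0, 1013612281⟩]]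

noncomputable def f_pm_102_b : ℕ → ℕ → ℕ → ℕ → Bool := onCell 536870912 536870912 0 536870912 966367641 24778659
    (rowB 3 eng mog cd0q1 cd1q2b pd0 1 false true false .npp 1 0 2 (qsf 536870912 536870912 1239849684 370763052 0) ndB0q1 ndB1q2b pcB0 cut_pm_102_b Ext.none)

def k0_pm_102_b : ∃ t, chk3 f_pm_102_b t 2 1 1 = true :=
  ⟨(b (l 1) (b (l 1) (a (l 1) (b (a (l 1) (b (a (l 1) (b (l 1) (a (l 1) (l 338798804215)))) (a (b (l 1) (a (l 1) (l 324303139559))) (b (a (l 338261842167) (b (l 219613398519) (l 16623000))) (a (l 204580888935) (l 16599688)))))) (a (b (a (l 1) (b (l 1) (a (l 1) (l 336650989463)))) (a (b (l 1) (a (l 1) (l 260415379191))) (b (a (l 269005345111) (l 218539355175)) (a (l 213170585063) (l 16496560))))) (b (a (b (a (l 301754529687) (l 210486409095)) (a (l 214781320487) (l 16544792))) (b (a (l 16571624) (l 16568944)) (a (l 16541992) (l 16538824)))) (a (b (a (l 16519640) (l 16516352)) (l 16490584)) (b (l 16511320) (l 16482928))))))))), by decide +kernel⟩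

def k1_pm_102_b : ∃ t, chk3 f_pm_102_b t 6 2 1 = true :=
  ⟨(l 1), by decide +kernel⟩

def k2_pm_102_b : ∃ t, chk3 f_pm_102_b t 6 6 1 = true :=
  ⟨(a (b (l 1) (a (b (l 1) (a (l 1) (b (l 1) (b (l 1) (c (l 135324872215) (l 177200783095)))))) (a (b (l 1) (a (b (l 1) (b (b (l 1) (a (l 1) (l 16702136))) (c (a (l 16712192) (l 16710352)) (a (l 16711880) (l 16710720))))) (b (a (l 1) (l 3)) (b (a (c (b (l 16706080) (l 16719800)) (b (l 16709360) (l 16711760))) (l 3)) (c (a (l 16708336) (l 266455561975)) (a (l 61907752791) (l 246054464503))))))) (l 3)))) (l 3)), by decide +kernel⟩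

def k3_pm_102_b : ∃ t, chk3 f_pm_102_b t 6 7 1 = true :=
  ⟨(a (b (b (a (b (a (b (l 1) (l 239477778455)) (b (a (l 170221434199) (a (l 16697848) (l 16696640))) (a (l 16682800) (l 16680632)))) (a (b (a (l 16669064) (l 16668024)) (l 16652536)) (c (l 16661272) (l 16652864)))) (a (b (b (a (b (l 16677768) (l 16669448)) (c (c (l 16670520) (l 16691168)) (b (l 16674176) (l 16665832)))) (a (l 16657024) (c (l 16655208) (l 16673960)))) (c (b (l 16641576) (l 16626136)) (b (l 16636872) (l 16619760)))) (a (b (b (l 3) (c (l 249812485943) (l 234780090023))) (b (c (l 58149559591) (l 60297015927)) (c (l 16619680) (l 73718765015)))) (l 3)))) (a (b (a (l 16586496) (c (l 16630368) (l 16618808))) (a (l 16596704) (l 16592784))) (a (b (c (l 16624128) (a (l 16616304) (l 16614416))) (b (l 16574960) (l 16559272))) (b (a (b (b (l 16606328) (l 16598560)) (l 16586680)) (b (l 224042558471) (c (l 16604304) (l 16576968)))) (a (b (l 16570936) (l 16576296)) (b (a (l 16568800) (l 16564672)) (l 94656595415)))))))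 (b (a (b (a (l 16565608) (l 16561624)) (l 16491400)) (b (a (l 16515064) (c (l 16536088) (a (l 16547648) (l 16524968)))) (a (l 16505608) (c (l 16527296) (l 16494944))))) (a (b (l 16503672) (l 16453824)) (b (a (l 16496824) (l 16470840)) (a (l 16467776) (l 16483648)))))) (a (b (l 3) (b (a (a (b (b (l 195588304823) (l 91435316247)) (b (l 16503664) (l 16510536))) (b (l 3) (l 229411051719))) (l 3)) (a (b (a (l 16467496) (c (l 16487800) (l 16458712))) (c (l 16462256) (l 16433080))) (b (l 3) (b (l 3) (l 227263449431)))))) (l 3))), by decide +kernel⟩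

def k4_pm_102_b : ∃ t, chk3 f_pm_102_b t 7 1 1 = true :=
  ⟨(l 3), by decide +kernel⟩

theorem s5_pm_102_b : ∃ t, chk3 f_pm_102_b t 6 3 1 = true := ex3_b k2_pm_102_b k3_pm_102_b

theorem s6_pm_102_b : ∃ t, chk3 f_pm_102_b t 6 1 1 = true := ex3_b k1_pm_102_b s5_pm_102_b

theorem s7_pm_102_b : ∃ t, chk3 f_pm_102_b t 3 1 1 = true := ex3_a s6_pm_102_b k4_pm_102_b

theorem s8_pm_102_b : ∃ t, chk3 f_pm_102_b t 1 1 1 = true := ex3_a k0_pm_102_b s7_pm_102_b

theorem c_pm_102_b : CertB 536870912 536870912 1239849684 370763052 966367641 24778659 3 eng mog cd0q1 cd1q2b pd0 false true false .npp 1 0 2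
    ndB0q1 ndB1q2b pcB0 cut_pm_102_b Ext.none :=
  certB1 (fam := false) (s1 := true) (s2 := false) (a := 1) (b := 0) (c := 2) (cn := .npp) (n1 := ndB0q1) (n2 := ndB1q2b) (pc := pcB0) (cut := cut_pm_102_b) (xt := Ext.none) (P1 := 536870912) (W1 := 536870912) (P2 := 1239849684) (W2 := 370763052) (P3 := 966367641) (W3 := 24778659) (N0 := 3) (En := eng) (mo := mog) (C1 := cd0q1) (C2 := cd1q2b) (C3 := pd0)
    rfl (fun _ => rfl) s8_pm_102_b

noncomputable def f_pm_112_a : ℕ → ℕ → ℕ → ℕ → Bool := onCell 536870912 536870912 0 536870912 966367641 24778659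
    (rowB 3 eng mog cd0q1 cd1q2a pd1 0 false true false .dn 1 1 2 (qsf 536870912 536870912 0 536870912 1) ndB0q1 ndB1q2a pcB1 Cut.none Ext.none)

def k0_pm_112_a : ∃ t, chk3 f_pm_112_a t 1 1 1 = true :=
  ⟨(a (a (b (b (a (a (b (l 16317968) (l 16298480)) (b (b (l 16241696) (l 16309360)) (l 16296256))) (a (b (a (b (l 16336440) (l 16307888)) (l 16329640)) (a (l 16291216) (l 16289320))) (b (a (l 16340496) (l 16351952)) (b (a (l 16291672) (l 16299432)) (a (l 16277400) (l 16273264)))))) (a (a (l 16269416) (b (l 16287272) (l 16286232))) (a (b (l 16279760) (l 16276944)) (b (l 16266608) (l 16262136))))) (b (a (b (a (l 16300568) (l 16292464)) (a (l 16317928) (l 16300856))) (b (a (l 16279456) (l 16219216)) (a (c (l 16264840) (l 16304512)) (c (l 16237160) (l 16284552))))) (a (b (a (b (l 16332248) (l 16319776)) (b (l 16311168) (l 16262224))) (a (b (b (l 16268848) (l 16188816)) (c (a (l 16139736) (l 16109696)) (a (l 16119664) (l 16087040)))) (b (c (l 16237416) (l 16227744)) (l 1))))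 (b (a (b (l 16285912) (l 1)) (l 1)) (l 1))))) (b (a (a (b (b (a (l 16322912) (b (l 16399032) (l 16359600))) (a (b (l 16309448) (l 16252264)) (l 33318338279))) (b (b (a (l 16256320) (b (l 16254336) (l 16244584))) (l 16224456)) (l 62309235863))) (b (b (l 1) (l 1)) (l 1))) (l 1)) (b (l 1) (l 1)))) (l 1)), by decide +kernel⟩

theorem c_pm_112_a : CertB 536870912 536870912 0 536870912 966367641 24778659 3 eng mog cd0q1 cd1q2a pd1 false true false .dn 1 1 2
    ndB0q1 ndB1q2a pcB1 Cut.none Ext.none :=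
  certB0 (fam := false) (s1 := true) (s2 := false) (a := 1) (b := 1) (c := 2) (cn := .dn) (n1 := ndB0q1) (n2 := ndB1q2a) (pc := pcB1) (cut := Cut.none) (xt := Ext.none) (P1 := 536870912) (W1 := 536870912) (P2 := 0) (W2 := 536870912) (P3 := 966367641) (W3 := 24778659) (N0 := 3) (En := eng) (mo := mog) (C1 := cd0q1) (C2 := cd1q2a) (C3 := pd1)
    rfl k0_pm_112_a

noncomputable def f_pm_112_b : ℕ → ℕ → ℕ → ℕ → Bool := onCell 536870912 536870912 536870912 536870912 966367641 24778659
    (rowB 3 eng mog cd0q1 cd1q2b pd1 1 false true false .dn 1 1 2 (qsf 536870912 536870912 1239849684 370763052 1) ndB0q1 ndB1q2b pcB1 Cut.none Ext.none)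

def k0_pm_112_b : ∃ t, chk3 f_pm_112_b t 2 2 1 = true :=
  ⟨(b (a (a (b (l 1) (a (b (l 1) (l 331281864359)) (b (l 274910739063) (l 119754931047)))) (b (b (a (l 1) (b (l 1) (l 317860228327))) (a (l 318933902615) (a (l 274910516807) (l 157872633703)))) (a (b (a (l 241087785719) (l 16349616)) (l 16308888)) (b (l 16272528) (l 16287952))))) (a (b (a (b (a (l 281352998055) (b (l 205654253367) (l 16396712))) (a (l 16369216) (l 16364408))) (b (a (l 16383776) (l 16403512)) (a (l 16360768) (l 16358128)))) (a (b (l 16321376) (l 16272720)) (b (l 16312168) (l 16262312)))) (b (a (b (a (l 16403128) (l 16403416)) (l 16355792)) (b (l 16362872) (l 16354448))) (a (b (l 16306600) (l 16255592)) (b (l 16303408) (l 16251352)))))) (a (a (b (a (b (l 52109186455) (l 16273920)) (b (l 16286360) (l 16232104))) (a (l 16185448) (l 16146696))) (b (b (a (l 16258448) (l 16236840)) (a (l 16204248) (l 16182312))) (a (l 16116552) (l 16094520)))) (a (b (a (b (l 16220928) (l 16166112)) (b (l 16209880) (l 16154872)))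 (a (l 16078392) (l 16067456))) (b (a (b (l 16202624) (l 16147592)) (b (l 16198032) (l 16143216))) (a (l 16060848) (l 16057672)))))), by decide +kernel⟩

def k1_pm_112_b : ∃ t, chk3 f_pm_112_b t 3 2 1 = true :=
  ⟨(a (b (a (b (a (b (l 16407152) (l 16354072)) (b (b (l 16401920) (l 16373664)) (a (l 16353408) (l 16352664)))) (a (b (l 16301304) (l 16248376)) (b (l 16298696) (l 16245048)))) (b (b (a (a (b (l 16403976) (l 16395560)) (b (a (l 16403544) (l 3)) (l 133310962327))) (l 3)) (a (b (a (l 16366816) (l 152638414519)) (l 16317992)) (a (b (l 199882999479) (l 145659019975)) (l 3)))) (a (b (a (l 16297072) (l 16276152)) (l 16221816)) (b (a (b (l 159617636199) (l 16282624)) (l 3)) (a (l 16221536) (l 289540086311)))))) (b (a (b (a (l 16194920) (l 16191696)) (a (l 16140656) (l 16138328))) (b (a (l 16189640) (a (l 16189448) (l 197198430871))) (a (l 16137376) (l 16159216)))) (a (a (l 16036048) (l 16036440)) (b (a (l 16085824) (l 2)) (l 2))))) (a (b (l 3) (b (a (b (a (l 261622900215)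 (l 2)) (l 2)) (l 2)) (l 2))) (l 3))), by decide +kernel⟩

def k2_pm_112_b : ∃ t, chk3 f_pm_112_b t 1 3 1 = true :=
  ⟨(a (b (a (a (b (a (l 16047560) (l 16016176)) (a (l 15885736) (l 15863120))) (b (a (l 15989232) (l 15968648)) (a (l 15849344) (l 15834784)))) (a (b (a (l 15953312) (l 15943648)) (a (l 15823448) (l 15816272))) (b (a (l 15939040) (l 15938952)) (a (l 15815232) (l 2))))) (a (b (a (a (l 15698816) (l 15686952)) (a (l 15684240) (l 15689680))) (a (l 15463976) (l 15589688))) (b (a (a (l 15690536) (l 2)) (l 2)) (l 2)))) (b (a (b (a (a (l 15942856) (l 2)) (l 2)) (l 2)) (l 2)) (l 2))), by decide +kernel⟩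

theorem s3_pm_112_b : ∃ t, chk3 f_pm_112_b t 1 2 1 = true := ex3_a k0_pm_112_b k1_pm_112_b

theorem s4_pm_112_b : ∃ t, chk3 f_pm_112_b t 1 1 1 = true := ex3_b s3_pm_112_b k2_pm_112_b

theorem c_pm_112_b : CertB 536870912 536870912 1239849684 370763052 966367641 24778659 3 eng mog cd0q1 cd1q2b pd1 false true false .dn 1 1 2
    ndB0q1 ndB1q2b pcB1 Cut.none Ext.none :=
  certB1 (fam := false) (s1 := true) (s2 := false) (a := 1) (b := 1) (c := 2) (cn := .dn) (n1 := ndB0q1) (n2 := ndB1q2b) (pc := pcB1) (cut := Cut.none) (xt := Ext.none) (P1 := 536870912) (W1 := 536870912) (P2 := 1239849684) (W2 := 370763052) (P3 := 966367641) (W3 := 24778659) (N0 := 3) (En := eng) (mo := mog) (C1 := cd0q1) (C2 := cd1q2b) (C3 := pd1)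
    rfl (fun _ => rfl) s4_pm_112_b

noncomputable def cut_pm_113 : Cut := Cut.of [[⟨0, 1, 0, 47710208⟩, ⟨1, 1, 0, 47710208⟩, ⟨2, 2, 0, 8388608⟩]]

noncomputable def xt_pm_113 : Ext := extD2 3 ⟨4, 1, 1, 5, 37, 10, 843, 1000, 41, 100, 1, 8⟩ eng cd0q1 cd1q3 pd1 false true false .nn 1 1 3 rfl ndB0q1 ndB1q3 pcB1

noncomputable def f_pm_113 : ℕ → ℕ → ℕ → ℕ → Bool := onCell 536870912 536870912 536870912 536870912 966367641 24778659
    (rowB 3 eng mog cd0q1 cd1q3 pd1 1 false true false .nn 1 1 3 (qsf 536870912 536870912 1610612736 536870912 1) ndB0q1 ndB1q3 pcB1 cut_pm_113 xt_pm_113)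

def k0_pm_113 : ∃ t, chk3 f_pm_113 t 1 2 1 = true :=
  ⟨(a (b (l 1) (a (l 1) (a (l 1) (b (l 1) (a (l 1) (b (l 1) (l 16002960))))))) (a (b (a (l 1) (a (l 1) (a (l 1) (a (l 1) (a (l 1) (l 3)))))) (b (b (a (l 1) (a (l 263635391575) (a (b (l 16122576) (l 16099664)) (c (l 198808875751) (l 207935769127))))) (a (a (l 1) (l 16059056)) (a (c (l 16050320) (l 16091160)) (c (l 16132864) (l 16081408))))) (a (a (b (l 16042072) (l 15993688)) (b (l 16033120) (l 15987424))) (a (b (l 16090408) (l 16006528)) (b (c (l 16013680) (l 16036328)) (c (l 15983400) (l 15992304))))))) (a (b (l 3) (b (a (a (b (b (l 3) (l 286855680855)) (b (l 209546250119) (l 16090264))) (l 3)) (l 3)) (a (b (a (b (l 16031048) (l 16013704)) (b (l 292761115079) (l 16026296))) (c (a (l 15988904) (l 15987984)) (l 119888720807))) (b (l 3) (b (l 3) (l 264306906359)))))) (l 3)))), by decide +kernel⟩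

def k1_pm_113 : ∃ t, chk3 f_pm_113 t 2 3 1 = true :=
  ⟨(b (a (b (l 1) (a (l 1) (a (l 1) (l 201894750119)))) (a (b (a (l 1) (l 163777076007)) (a (l 144986391223) (b (l 15879608) (l 15831360)))) (b (a (b (l 15964888) (l 15914400)) (b (l 15953264) (l 15903984))) (a (b (l 15865208) (l 15817880)) (b (l 15856240) (l 15810704)))))) (a (b (a (c (l 15668344) (l 15654560)) (c (l 50497011831) (l 15545136))) (a (c (l 15506784) (l 15483616)) (a (l 15441472) (l 15510984)))) (b (a (a (b (l 15802520) (l 15754272)) (l 15593344)) (b (a (l 15771624) (l 15766200)) (a (l 15725856) (l 15721496)))) (a (b (a (l 15702256) (l 15695312)) (a (l 15639080) (l 15651144))) (b (a (l 15681968) (l 15677752)) (l 15764424)))))), by decide +kernel⟩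

def k2_pm_113 : ∃ t, chk3 f_pm_113 t 3 6 1 = true :=
  ⟨(a (a (b (c (b (l 16122376) (l 16000408)) (a (l 15927576) (l 15922456))) (c (a (l 15838368) (l 15849840)) (a (l 15823656) (l 15826968)))) (b (b (a (l 15945544) (c (l 15957368) (l 15950424))) (a (l 15907464) (c (l 15935200) (l 15911616)))) (a (b (l 15873288) (l 15844440)) (b (l 15899416) (l 15883040))))) (a (b (a (b (c (l 15971840) (l 15953360)) (c (l 15960840) (l 15924232))) (b (a (c (l 15971832) (l 15946520)) (l 3)) (a (c (l 15973280) (l 15928376)) (b (l 195587347511) (l 15950440))))) (a (b (a (l 15923952) (l 15940128)) (a (l 15920936) (l 15948632))) (a (b (b (l 15951616) (l 15957880)) (l 16102368)) (b (c (l 15999632) (l 15929712)) (b (l 15991144) (l 16017880)))))) (b (l 3) (a (a (b (c (b (l 3) (l 136531611799)) (l 133847140663)) (c (b (l 16054960) (l 16099576)) (b (l 15963872) (l 15996968)))) (b (l 3) (a (b (l 3) (l 137068669031)) (l 3)))) (l 3))))), by decide +kernel⟩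

def k3_pm_113 : ∃ t, chk3 f_pm_113 t 6 7 1 = true :=
  ⟨(b (a (b (a (l 15770208) (l 15786224)) (a (l 15728416) (l 15750488))) (b (a (l 15819048) (l 15873360)) (a (l 15794424) (l 15868216)))) (a (b (a (l 15686952) (l 15715104)) (a (l 15648984) (l 15683640))) (b (a (l 15771664) (l 15869792)) (a (l 15755080) (l 15884360))))), by decide +kernel⟩

def k4_pm_113 : ∃ t, chk3 f_pm_113 t 7 14 1 = true :=
  ⟨(a (a (b (a (l 15929136) (l 15973112)) (a (l 15948088) (l 16015584))) (a (b (b (l 16008320) (l 16037448)) (l 16096392)) (b (b (l 16053376) (l 16099016)) (b (l 16157440) (l 16232656))))) (a (b (a (c (b (l 16156800) (l 16230272)) (b (l 16041640) (l 16100928))) (a (b (c (l 16212952) (l 16070496)) (c (l 16285304) (l 16147768))) (b (l 3) (b (a (l 131163412695) (l 3)) (c (l 131163566759) (l 130089598263)))))) (a (b (a (l 16227736) (l 16278144)) (a (l 16331264) (l 16404904))) (b (a (c (l 16409336) (l 16251648)) (c (a (l 16452848) (b (l 16481632) (l 16528696))) (b (l 16330288) (l 16339768))))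 (a (c (l 16576800) (l 16392768)) (b (c (l 16612360) (l 16425112)) (c (l 16731208) (l 16526224))))))) (a (b (l 3) (a (b (a (b (l 3) (c (l 123647765559) (l 125794908295))) (l 3)) (b (b (a (c (l 123110922919) (l 120426399527)) (l 3)) (a (c (l 16667688) (l 16551888)) (c (l 114521216391) (a (l 114520976167) (l 3))))) (a (c (b (l 16778240) (l 16791872)) (b (l 16568616) (l 16632968))) (c (b (a (l 75866405975) (l 119889961095)) (c (l 118816215783) (l 113984391927))) (b (c (l 115594790311) (l 115594685287)) (a (l 16674568) (c (l 115594825623) (l 112373581479)))))))) (b (l 3) (l 3)))) (l 3)))), by decide +kernel⟩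

def k5_pm_113 : ∃ t, chk3 f_pm_113 t 14 15 1 = true :=
  ⟨(b (a (a (l 15982528) (l 16084600)) (b (a (l 16181352) (l 16329928)) (a (l 16256600) (l 16455320)))) (a (a (l 16042776) (l 16196648)) (a (b (l 16352760) (l 16479664)) (b (l 16614448) (l 16576848))))), by decide +kernel⟩

def k6_pm_113 : ∃ t, chk3 f_pm_113 t 30 15 1 = true :=
  ⟨(b (a (b (a (l 16467936) (l 16575376)) (a (l 16649552) (l 16709504))) (b (c (a (l 16785856) (b (l 16817416) (l 16822744))) (a (l 16587184) (b (l 16646720) (l 16791480)))) (a (b (l 16754472) (l 16749600)) (b (l 16767376) (l 16739992))))) (a (b (a (l 16654768) (l 16682576)) (a (l 16613904) (l 16638760))) (b (a (b (l 16724184) (l 16699760)) (b (l 16713032) (l 16707176))) (a (l 16601192) (b (l 16702584) (l 16679168)))))), by decide +kernel⟩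

def k7_pm_113 : ∃ t, chk3 f_pm_113 t 62 60 1 = true :=
  ⟨(a (a (b (c (l 16801688) (l 16720704)) (b (l 16797832) (l 16804960))) (c (b (b (c (l 16770920) (l 16777720)) (l 16781112)) (l 16770688)) (c (b (b (l 100562599895) (l 16791448)) (l 16801920)) (b (b (a (l 16691024) (l 16722736)) (l 16790304)) (l 16809000))))) (a (b (b (a (c (b (l 112910624135) (l 115594986231)) (c (l 115058147047) (b (l 104857513623) (l 109689304359)))) (l 3)) (a (c (b (l 100025737271) (l 16765208)) (c (l 105931346663) (b (l 98415102695) (l 16782320)))) (a (c (b (l 109689401927) (l 115594989719)) (c (l 107005076039) (b (l 104320756167) (l 104320744263)))) (l 3)))) (c (b (a (l 16770544) (c (l 96267633303) (l 97878259031))) (c (l 16769000) (l 16775456))) (c (b (a (l 16801536) (b (l 110763175591) (l 16770664))) (l 16782104)) (a (b (l 16787488) (l 16815840)) (b (b (l 105931351367) (l 104320746599)) (l 16783080)))))) (b (l 3) (a (b (b (l 3) (c (c (l 127943028599) (l 122037461079)) (c (l 116668764855)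 (l 111300048055)))) (c (c (b (l 117742463143) (l 122574309735)) (b (l 113984379223) (l 118279354887))) (c (b (l 1975384789394838688858226975) (l 113984400423)) (a (b (l 96267678583) (l 16797208)) (b (l 109152587223) (l 107005092119)))))) (l 3))))), by decide +kernel⟩

def k8_pm_113 : ∃ t, chk3 f_pm_113 t 62 61 1 = true :=
  ⟨(a (b (c (l 16797160) (l 16772960)) (c (l 16779832) (l 16764496))) (a (b (c (b (l 16779888) (l 16787720)) (b (a (l 16799160) (l 16787504)) (l 16801368))) (c (l 16784688) (a (l 16805552) (l 16787192)))) (b (a (b (b (c (c (l 16757992) (l 16764232)) (c (l 16781144) (a (l 16801152) (l 96804553575)))) (c (l 16765056) (c (l 16795632) (l 16781304)))) (c (l 16771056) (c (l 16780760) (l 16787464)))) (a (b (c (b (c (l 118279340935) (l 113447514087)) (c (l 90898933255) (l 90898944487))) (c (b (l 109152559015) (l 91435827991)) (b (b (l 112373814999) (l 106468222199)) (b (l 111836935863) (l 16784160))))) (b (c (b (l 16770296) (l 16782808)) (c (l 16791216) (l 16776760)))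 (c (l 16764888) (l 16788104)))) (b (b (l 3) (a (b (l 3) (c (c (l 137069841831) (l 137606728583)) (c (l 110763180519) (l 106468225063)))) (l 3))) (c (b (c (a (l 16769464) (b (l 132238001063) (l 104857589335))) (c (l 86067104519) (l 85530239399))) (b (c (l 16776432) (l 16782480)) (a (l 16782920) (l 16769904)))) (c (b (a (l 91972701975) (b (l 108078824375) (l 87677734391))) (b (l 16778232) (l 16790888))) (c (b (a (l 16791808) (l 82309032903)) (l 16784104)) (b (b (l 108078843303) (l 90362107831)) (l 16787344)))))))) (b (c (a (l 16779520) (c (l 16766408) (l 16772288))) (a (l 16792512) (b (c (l 16776040) (l 16782376)) (l 16783664)))) (c (l 16783952) (l 16790528)))))), by decide +kernel⟩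

def k9_pm_113 : ∃ t, chk3 f_pm_113 t 63 60 1 = true :=
  ⟨(l 3), by decide +kernel⟩

def k10_pm_113 : ∃ t, chk3 f_pm_113 t 504 61 1 = true :=
  ⟨(b (a (b (l 3) (a (b (b (l 3) (a (c (c (l 129553645767) (l 130627403287)) (c (l 131164289447) (c (l 104320743799) (l 101099523927)))) (l 3))) (c (b (c (b (l 130090518599) (l 130090521703)) (b (l 131701147047) (l 132774891703))) (c (l 16775032) (l 16780864))) (c (b (b (l 109689454503) (l 111836927687)) (l 16786880)) (b (c (l 108078840535) (l 105931362935)) (c (l 16791504) (l 16794640)))))) (b (l 3) (b (l 3) (c (c (l 145659778023) (l 144049180135)) (c (a (l 145122937447) (l 134922387127)) (c (l 103783872215) (l 100562652487)))))))) (l 3)) (c (c (b (b (a (c (l 16765776) (l 16768536)) (c (l 153712841223) (l 146733524631))) (c (l 119353097463) (l 118279360679))) (l 16771920)) (c (b (b (a (l 16771336) (l 140291084279)) (l 117205623959)) (l 16770408)) (b (b (a (l 16774184) (a (l 116131884599) (l 129553663511))) (l 116131887495)) (l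 16772944)))) (b (a (b (c (c (l 16782312) (l 114521287895)) (b (c (l 16787104) (l 111836945767)) (l 16785576))) (c (l 16793624) (l 16778376))) (b (a (c (c (l 112373793623) (l 108615702583)) (c (b (l 100025774695) (l 110226327047)) (b (l 111836949495) (l 109152590663)))) (b (l 3) (c (c (l 106468215431) (l 101099510631)) (c (l 114521297015) (l 109689464455))))) (c (c (l 113984409959) (l 112910673511)) (b (a (l 16788848) (c (l 109152584151) (l 106468234791))) (c (l 16793536) (l 16785792)))))) (b (c (l 16785048) (a (l 16803712) (l 16787688))) (l 16786872))))), by decide +kernel⟩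

def k11_pm_113 : ∃ t, chk3 f_pm_113 t 505 61 1 = true :=
  ⟨(b (l 3) (b (a (a (b (l 3) (c (c (b (l 147270393623) (l 160155301287)) (b (l 227264172135) (l 157470958999))) (c (c (l 130090544247) (l 124721840311)) (b (c (l 195051932663) (l 108078850311)) (c (l 105394486663) (a (l 108615720919) (l 98415170599))))))) (l 3)) (l 3)) (a (c (c (b (a (l 16779264) (l 125795551719)) (l 16782944)) (b (b (l 111836916055) (l 119889985271)) (l 16787480))) (b (c (c (l 112373795991) (a (l 16784984) (l 110226317847))) (a (c (l 117205650599) (b (l 115595043959) (l 16796408))) (b (c (l 102173260087) (a (l 104320752295) (l 110226335831))) (c (l 113984425143) (l 112373817207))))) (c (l 16781664) (c (l 16785256) (l 16787696))))) (a (b (b (l 3) (c (l 167134633639) (c (l 102173252135) (c (l 118816265719) (l 115058174167))))) (c (c (l 121500589815) (l 118279372055)) (c (b (l 112373801847) (l 16789352)) (c (l 114521294151) (b (a (l 117205657831) (l 105931365607)) (l 16795080)))))) (b (l 3) (b (c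 (l 167134633735) (c (l 122574354103) (c (l 116131909943) (l 112910689079)))) (c (l 159618446295) (c (l 111300059335) (c (l 108078842791) (a (l 112373818231) (l 101099525943))))))))))), by decide +kernel⟩

def k12_pm_113 : ∃ t, chk3 f_pm_113 t 253 61 1 = true :=
  ⟨(l 3), by decide +kernel⟩

def k13_pm_113 : ∃ t, chk3 f_pm_113 t 127 61 1 = true :=
  ⟨(l 3), by decide +kernel⟩

def k14_pm_113 : ∃ t, chk3 f_pm_113 t 62 31 1 = true :=
  ⟨(b (b (a (c (l 16750000) (l 16735264)) (b (c (l 16782320) (l 16780824)) (a (l 16777536) (l 16770128)))) (a (l 16714088) (a (l 16734240) (b (l 16775856) (l 16761184))))) (a (b (l 16708032) (l 16704976)) (b (a (l 16727592) (l 16719448)) (a (l 16724080) (l 16736600))))), by decide +kernel⟩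

def k15_pm_113 : ∃ t, chk3 f_pm_113 t 252 31 1 = true :=
  ⟨(b (b (b (c (a (l 16778504) (b (c (l 16774872) (l 124184954615)) (l 16771064))) (a (l 16787976) (b (a (l 16788320) (b (c (l 122574352391) (c (l 16788280) (l 119890011479))) (c (l 16792400) (l 16786208)))) (c (l 16777208) (l 16781456))))) (c (l 16779928) (b (l 16789976) (l 16792544)))) (b (c (l 16790944) (l 16785248)) (a (l 16770840) (l 16777168)))) (b (b (l 16759808) (l 16746376)) (b (l 16754792) (l 16743224)))), by decide +kernel⟩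

def k16_pm_113 : ∃ t, chk3 f_pm_113 t 253 124 1 = true :=
  ⟨(a (b (a (b (b (a (c (l 176261443831) (c (l 107005091303) (c (l 104857616231) (a (l 107541978551) (l 116131916167))))) (l 3)) (c (c (l 117205622839) (l 113447532743)) (a (c (l 119353127207) (c (l 118279393799) (a (l 16794352) (l 113447560327)))) (a (b (l 3) (c (l 16787048) (l 144586078071))) (l 3))))) (c (c (l 125795560743) (l 123111213143)) (c (c (l 121500608983) (l 120426870967)) (c (a (l 16794656) (l 117742520535)) (a (l 16796648) (b (b (l 110763204103) (l 118816269879)) (l 16794896))))))) (a (b (l 3) (c (c (l 117742493287) (l 111300048295)) (b (c (l 125795581511) (c (l 120963748887) (l 118279398119))) (c (l 112910674455) (c (l 111300069111) (a (l 115058172983) (l 125795593831))))))) (l 3))) (b (a (c (l 16778808) (c (l 16794568) (l 16787728))) (c (c (l 123648076823) (l 122037470487)) (a (c (l 127406192871) (b (c (l 16792320) (l 122574366343)) (l 16795144))) (c (b (l 109689448215) (l 123648096551)) (b (c (l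 108078842359) (a (b (l 133311787559) (l 143512337031)) (l 121500624807))) (c (l 122037490775) (b (l 118816269479) (l 16793768)))))))) (c (c (l 16768720) (l 16771832)) (c (l 16785520) (c (l 16787984) (l 16790968)))))) (b (l 3) (a (b (a (b (l 3) (a (b (l 3) (c (l 16783136) (c (l 16787704) (l 150491657111)))) (l 3))) (l 3)) (c (c (l 120963721735) (a (l 125795572071) (l 113447535527))) (c (c (l 117205637735) (a (l 121500614199) (l 136533004503))) (a (b (c (l 116668779831) (a (l 124721850391) (b (l 135996141479) (l 146196690967)))) (c (l 16792816) (l 16794304))) (b (c (l 126332457943) (a (l 124721849735) (l 3))) (c (l 114521294615) (c (l 113984426823) (a (l 118279399015) (l 132238044391))))))))) (l 3)))), by decide +kernel⟩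

def k17_pm_113 : ∃ t, chk3 f_pm_113 t 253 125 1 = true :=
  ⟨(c (a (b (l 16781736) (l 16784224)) (c (b (a (l 16778648) (b (l 118816237575) (l 16776080))) (l 16773752)) (b (b (a (l 16779120) (a (l 118279377671) (l 108615695863))) (l 130090540183)) (l 16786248)))) (a (b (c (l 16780792) (l 16789008)) (l 16780816)) (b (a (b (c (c (l 16781088) (l 16787672)) (b (c (l 16788112) (c (l 16789160) (l 126869334007))) (l 16785368))) (c (l 16795984) (l 16788016))) (b (b (a (c (l 112910675047) (c (l 136533007895) (a (b (l 140291108039) (l 148881044695)) (b (l 3) (l 130627430071))))) (l 3)) (a (c (l 125258710487) (c (l 123111231863) (b (c (l 123648105959) (l 122574365335)) (l 16790344)))) (a (c (l 113447548679) (c (l 111300069671) (c (l 110226330151) (l 135459269575)))) (l 3)))) (c (c (l 126869320903) (l 126332452247)) (b (a (l 16788424) (c (l 118279391975) (a (b (l 130627430327) (l 16792712)) (c (l 113984427655) (b (l 112910687767) (l 124184978919)))))) (c (l 16788288) (l 16789424))))))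 (b (c (l 16786576) (l 16788792)) (l 16780552))))), by decide +kernel⟩

def k18_pm_113 : ∃ t, chk3 f_pm_113 t 253 63 1 = true :=
  ⟨(b (c (b (l 16774056) (l 16760240)) (b (a (l 16766768) (l 16773216)) (l 16756648))) (b (l 16745768) (l 16755072))), by decide +kernel⟩

def k19_pm_113 : ∃ t, chk3 f_pm_113 t 127 62 1 = true :=
  ⟨(a (b (l 3) (a (b (a (a (b (l 3) (c (c (l 120426855751) (l 117205634215)) (c (b (l 134385517543) (l 119353127671)) (b (c (l 131701166183) (a (b (l 3) (l 133848654615)) (l 3))) (c (a (l 124721844839) (l 113447552695)) (a (b (a (l 151028526167) (l 139217364679)) (l 16791776)) (b (l 3) (c (l 124184975863) (l 123648107127))))))))) (l 3)) (l 3)) (a (b (c (c (l 119889988151) (l 122574346551)) (a (c (l 135459258663) (b (c (l 16786136) (c (l 16789504) (l 129016815975))) (l 16793560))) (b (c (l 115058159031) (c (a (l 122574359335) (l 136533005207)) (a (c (l 123648103079) (b (l 119353137479) (l 125795590359))) (b (l 3) (l 138680491719))))) (c (l 131701161639)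 (c (l 128479940119) (a (l 16792064) (b (c (l 123648104775) (l 121500621943)) (l 16791160)))))))) (c (l 16780032) (c (l 16782512) (b (l 16788656) (l 16785016))))) (b (b (l 3) (a (c (l 116668763159) (a (b (l 3) (c (l 16787688) (a (l 166060909895) (l 152102264647)))) (l 3))) (l 3))) (c (c (l 131164275863) (a (l 129016801447) (l 120963732103))) (a (c (b (l 127406192759) (l 16790112)) (b (c (l 124184970631) (a (l 132238039543) (b (c (l 121500618983) (l 122037490695)) (l 127943071799)))) (l 16789000))) (b (c (l 139754226023) (a (c (l 139217358823) (b (l 3) (l 141901715879))) (l 3))) (c (l 123111223783) (c (l 120426872295) (a (b (l 123648103431) (l 16790440)) (b (l 3) (l 127406198391))))))))))) (l 3))) (l 3)), by decide +kernel⟩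

def k20_pm_113 : ∃ t, chk3 f_pm_113 t 254 63 1 = true :=
  ⟨(a (b (b (b (c (c (l 16780488) (l 16781872)) (a (l 16786560) (b (c (l 16785264) (c (l 16786296) (l 135459262871))) (l 16787512)))) (c (l 16773928) (l 16786568))) (c (l 16768384) (b (l 16769320) (l 16762768)))) (b (c (l 16755480) (l 16753352)) (l 16763664))) (b (b (a (b (a (c (c (l 119353119991) (l 123111218855)) (b (c (l 119353125767) (a (c (l 128479937351) (b (l 122574359063) (l 130090553895))) (c (l 141901712183) (l 140827971559)))) (c (l 135996128039) (a (l 16790208) (c (l 131164292903) (l 129016810407)))))) (b (l 3) (c (l 119889990119) (c (l 148881031719) (a (b (l 139217358039) (c (l 129553679623) (l 130627422519))) (l 3)))))) (b (c (l 132238024791) (a (l 16786560) (c (l 132238029767) (a (l 138680486215) (b (c (l 124184969399) (l 124721840983)) (l 133311776391)))))) (c (l 16778280) (c (l 16779720) (l 16785968))))) (a (b (l 3) (b (a (c (l 117205637527) (c (l 112373803687) (c (l 144049194343) (l 143512324359))))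 (l 3)) (c (l 133311765847) (c (l 128479931383) (a (b (l 128479937047) (l 16788384)) (b (l 141901710871) (l 131701161335))))))) (l 3))) (a (b (c (l 16780504) (l 16784944)) (l 16781288)) (b (b (c (a (l 16781592) (l 128479926263)) (a (c (l 16782744) (l 142438580759)) (c (l 123648091047) (a (b (l 126332450999) (l 136533000215)) (b (l 3) (l 120963740791)))))) (c (l 140291089847) (c (l 144049189255) (c (l 141901707335) (l 139754224391))))) (c (l 16778672) (b (l 16784568) (l 16779176)))))) (c (b (a (l 16759416) (l 16772488)) (l 16748936)) (b (b (l 16772936) (l 16756312)) (l 16758072))))), by decide +kernel⟩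

def k21_pm_113 : ∃ t, chk3 f_pm_113 t 255 63 1 = true :=
  ⟨(b (a (b (l 3) (a (a (b (a (b (l 3) (c (l 127943056855) (c (l 123111221463) (b (l 115595030535) (l 126332450407))))) (l 3)) (c (b (l 131701154039) (l 16775904)) (b (c (l 138143607495) (a (l 16784384) (b (l 128479932743) (l 139754223687)))) (l 16784744)))) (b (l 3) (b (a (c (l 120963733319) (c (l 116131897383) (b (l 3) (l 123111222295)))) (l 3)) (c (l 138143602951) (c (l 133311766887) (a (l 139217351111) (b (l 117205640887) (l 129553673703)))))))) (l 3))) (l 3)) (a (b (a (b (c (b (l 16781240) (l 16776600)) (b (c (l 16781872) (l 149417897847)) (l 16781016))) (b (l 16778344) (l 16770088))) (a (b (b (c (c (l 135459246903) (l 132238021959)) (c (a (l 134922380471) (l 118816250023)) (a (b (l 131164285063) (l 16783400)) (b (l 3) (l 124721832679))))) (c (l 140827959255) (c (l 148344153319) (b (l 143512315927) (l 16779968))))) (b (c (l 16774840) (l 16780096)) (l 16777352))) (b (a (b (l 3) (c (l 133311763815) (c (l 129016797783)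 (b (l 153175992823) (l 133311767543))))) (l 3)) (b (c (l 134385505879) (c (l 141901699511) (a (l 16781520) (b (l 132774895143) (l 6))))) (l 6))))) (a (b (l 16770936) (l 6)) (l 6))) (b (b (l 3) (b (b (l 3) (l 6)) (l 6))) (l 6)))), by decide +kernel⟩

theorem s22_pm_113 : ∃ t, chk3 f_pm_113 t 127 63 1 = true := ex3_a k20_pm_113 k21_pm_113

theorem s23_pm_113 : ∃ t, chk3 f_pm_113 t 127 31 1 = true := ex3_b k19_pm_113 s22_pm_113

theorem s24_pm_113 : ∃ t, chk3 f_pm_113 t 253 62 1 = true := ex3_b k16_pm_113 k17_pm_113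

theorem s25_pm_113 : ∃ t, chk3 f_pm_113 t 253 31 1 = true := ex3_b s24_pm_113 k18_pm_113

theorem s26_pm_113 : ∃ t, chk3 f_pm_113 t 126 31 1 = true := ex3_a k15_pm_113 s25_pm_113

theorem s27_pm_113 : ∃ t, chk3 f_pm_113 t 63 31 1 = true := ex3_a s26_pm_113 s23_pm_113

theorem s28_pm_113 : ∃ t, chk3 f_pm_113 t 31 31 1 = true := ex3_a k14_pm_113 s27_pm_113

theorem s29_pm_113 : ∃ t, chk3 f_pm_113 t 252 61 1 = true := ex3_a k10_pm_113 k11_pm_113

theorem s30_pm_113 : ∃ t, chk3 f_pm_113 t 126 61 1 = true := ex3_a s29_pm_113 k12_pm_113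

theorem s31_pm_113 : ∃ t, chk3 f_pm_113 t 63 61 1 = true := ex3_a s30_pm_113 k13_pm_113

theorem s32_pm_113 : ∃ t, chk3 f_pm_113 t 63 30 1 = true := ex3_b k9_pm_113 s31_pm_113

theorem s33_pm_113 : ∃ t, chk3 f_pm_113 t 62 30 1 = true := ex3_b k7_pm_113 k8_pm_113

theorem s34_pm_113 : ∃ t, chk3 f_pm_113 t 31 30 1 = true := ex3_a s33_pm_113 s32_pm_113

theorem s35_pm_113 : ∃ t, chk3 f_pm_113 t 31 15 1 = true := ex3_b s34_pm_113 s28_pm_113

theorem s36_pm_113 : ∃ t, chk3 f_pm_113 t 15 15 1 = true := ex3_a k6_pm_113 s35_pm_113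

theorem s37_pm_113 : ∃ t, chk3 f_pm_113 t 7 15 1 = true := ex3_a k5_pm_113 s36_pm_113

theorem s38_pm_113 : ∃ t, chk3 f_pm_113 t 7 7 1 = true := ex3_b k4_pm_113 s37_pm_113

theorem s39_pm_113 : ∃ t, chk3 f_pm_113 t 3 7 1 = true := ex3_a k3_pm_113 s38_pm_113

theorem s40_pm_113 : ∃ t, chk3 f_pm_113 t 3 3 1 = true := ex3_b k2_pm_113 s39_pm_113

theorem s41_pm_113 : ∃ t, chk3 f_pm_113 t 1 3 1 = true := ex3_a k1_pm_113 s40_pm_113

theorem s42_pm_113 : ∃ t, chk3 f_pm_113 t 1 1 1 = true := ex3_b k0_pm_113 s41_pm_113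

theorem c_pm_113 : CertB 536870912 536870912 1610612736 536870912 966367641 24778659 3 eng mog cd0q1 cd1q3 pd1 false true false .nn 1 1 3
    ndB0q1 ndB1q3 pcB1 cut_pm_113 xt_pm_113 :=
  certB1 (fam := false) (s1 := true) (s2 := false) (a := 1) (b := 1) (c := 3) (cn := .nn) (n1 := ndB0q1) (n2 := ndB1q3) (pc := pcB1) (cut := cut_pm_113) (xt := xt_pm_113) (P1 := 536870912) (W1 := 536870912) (P2 := 1610612736) (W2 := 536870912) (P3 := 966367641) (W3 := 24778659) (N0 := 3) (En := eng) (mo := mog) (C1 := cd0q1) (C2 := cd1q3) (C3 := pd1)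
    rfl (fun _ => rfl) s42_pm_113

noncomputable def cut_pm_123 : Cut := Cut.of [[⟨0, 1, 0, 47710208⟩, ⟨1, 1, 0, 47710208⟩, ⟨2, 2, 0, 8388608⟩]]

noncomputable def f_pm_123 : ℕ → ℕ → ℕ → ℕ → Bool := onCell 536870912 536870912 1073741824 536870912 966367641 24778659
    (rowB 3 eng mog cd0q1 cd1q3 pd2 1 false true false .npn 1 2 3 (qsf 536870912 536870912 1610612736 536870912 2) ndB0q1 ndB1q3 pcB2 cut_pm_123 Ext.none)

def k0_pm_123 : ∃ t, chk3 f_pm_123 t 2 1 1 = true :=
  ⟨(b (a (b (a (b (c (b (a (l 15784424) (l 15781280)) (a (l 15805224) (l 15768952))) (b (a (l 15686184) (l 15657976)) (a (l 15643192) (l 15625512)))) (c (b (l 15665576) (l 15713360)) (b (l 15578912) (l 15569456)))) (b (c (b (a (l 15740720) (l 15705688)) (a (l 15738584) (l 15715408))) (b (a (l 15634224) (l 15615200)) (a (l 15613376) (l 15607336)))) (c (b (l 15731128) (l 15737864)) (b (l 15578128) (l 15592152))))) (a (b (c (l 15733656) (a (l 15521520) (l 15541104))) (c (l 15717080) (l 15497104))) (b (b (l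 15439072) (l 15675632)) (c (l 15781680) (l 15598688))))) (b (a (b (c (a (b (l 15677576) (l 15701144)) (b (l 15658696) (l 15698392))) (b (a (l 15601616) (l 15594192)) (a (l 15608440) (l 15618000)))) (c (a (l 15740280) (l 15762440)) (a (l 15626056) (l 15661280)))) (a (b (b (c (l 15652208) (l 15594376)) (l 15696104)) (b (l 15729416) (l 15787136))) (b (b (c (l 15662024) (l 15605752)) (l 15708272)) (b (l 15785504) (l 15866328))))) (a (b (c (l 15639168) (l 15465880)) (c (l 15921520) (l 15767280))) (b (a (l 15881384) (l 15995680)) (a (l 16022720) (b (l 16133992) (l 16190376))))))) (a (b (a (b (c (l 15717688) (l 15488704)) (l 15541408)) (b (l 15727864) (a (l 15728384) (l 15846528)))) (a (b (a (l 15658792) (l 15693112)) (a (l 15768960) (l 15800752))) (b (a (l 15812912) (l 15946192)) (a (l 15924640) (l 2))))) (b (a (b (a (l 15880448) (l 15756784)) (a (l 15954672) (l 16109176))) (b (a (l 15906648) (l 16145608)) (a (l 16250272) (l 2)))) (a (b (a (l 16085552) (l 2)) (l 2)) (l 2))))),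 by decide +kernel⟩

def k1_pm_123 : ∃ t, chk3 f_pm_123 t 6 2 1 = true :=
  ⟨(b (a (b (b (a (b (l 15639720) (l 15689208)) (c (l 15757248) (l 15689560))) (a (l 15765112) (l 15855224))) (b (a (l 15869096) (l 15989728)) (a (l 15976576) (l 16126952)))) (b (b (a (c (l 16014456) (l 15785856)) (b (b (l 16090816) (l 15972840)) (l 16047448))) (a (l 15992152) (l 16320960))) (b (a (l 16158576) (l 16386896)) (a (l 16324880) (a (l 16445216) (l 16498248)))))) (a (b (a (b (l 16087856) (l 16203032)) (b (l 16266720) (l 16342896))) (a (b (l 16267680) (l 16321840)) (b (l 16398264) (l 16458680)))) (b (a (b (l 16286776) (l 16468664)) (b (l 16488104) (l 16596328))) (a (b (l 16531824) (l 2)) (l 2))))), by decide +kernel⟩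

def k2_pm_123 : ∃ t, chk3 f_pm_123 t 7 2 1 = true :=
  ⟨(b (b (a (b (a (a (c (l 16265128) (l 16134880)) (b (l 16358664) (l 16442768))) (b (a (l 16482992) (a (l 16562560) (l 16587544))) (c (l 16567512) (l 16562984)))) (a (b (l 16444800) (l 16500464)) (b (b (l 16577312) (l 16586096)) (c (l 16550032) (l 16547648))))) (a (b (a (b (a (l 16590528) (l 16616040)) (l 16620912)) (b (a (l 16661392) (l 16687440)) (c (l 16694328) (l 16702416)))) (a (b (a (l 16649856) (l 16679456)) (l 16695024)) (b (l 16687008) (l 16739416)))) (b (a (b (a (c (l 16714104) (l 16713736)) (b (l 16689888) (l 16706728))) (b (a (l 16736816) (l 16767520)) (l 16666264))) (b (a (a (b (l 16729032) (l 16727440)) (b (b (l 16735792) (l 16766792)) (l 16725672))) (a (b (b (a (l 16744032) (l 6)) (l 6)) (l 791985102871)) (b (b (l 6) (l 1266042231687)) (l 2)))) (b (l 1325634828183) (l 2)))) (a (b (l 569720325607) (l 2)) (l 2))))) (a (a (b (b (l 16518568) (l 16540864)) (a (l 16556856) (l 16618472))) (b (b (a (l 16599328)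 (l 16662920)) (l 352824203351)) (a (l 16683288) (l 2)))) (b (a (a (l 16640560) (l 2)) (l 2)) (l 2)))) (a (b (b (a (b (l 16638888) (l 2)) (l 2)) (l 2)) (l 2)) (l 2))), by decide +kernel⟩

def k3_pm_123 : ∃ t, chk3 f_pm_123 t 3 3 1 = true :=
  ⟨(a (b (a (b (a (l 16413888) (l 2)) (l 2)) (l 2)) (l 2)) (l 2)), by decide +kernel⟩

theorem s4_pm_123 : ∃ t, chk3 f_pm_123 t 3 2 1 = true := ex3_a k1_pm_123 k2_pm_123

theorem s5_pm_123 : ∃ t, chk3 f_pm_123 t 3 1 1 = true := ex3_b s4_pm_123 k3_pm_123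

theorem s6_pm_123 : ∃ t, chk3 f_pm_123 t 1 1 1 = true := ex3_a k0_pm_123 s5_pm_123

theorem c_pm_123 : CertB 536870912 536870912 1610612736 536870912 966367641 24778659 3 eng mog cd0q1 cd1q3 pd2 false true false .npn 1 2 3
    ndB0q1 ndB1q3 pcB2 cut_pm_123 Ext.none :=
  certB1 (fam := false) (s1 := true) (s2 := false) (a := 1) (b := 2) (c := 3) (cn := .npn) (n1 := ndB0q1) (n2 := ndB1q3) (pc := pcB2) (cut := cut_pm_123) (xt := Ext.none) (P1 := 536870912) (W1 := 536870912) (P2 := 1610612736) (W2 := 536870912) (P3 := 966367641) (W3 := 24778659) (N0 := 3) (En := eng) (mo := mog) (C1 := cd0q1) (C2 := cd1q3) (C3 := pd2)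
    rfl (fun _ => rfl) s6_pm_123

noncomputable def f_pm_133 : ℕ → ℕ → ℕ → ℕ → Bool := onCell 536870912 536870912 1610612736 536870912 966367641 24778659
    (rowB 3 eng mog cd0q1 cd1q3 pd3 1 false true false .dn 1 3 3 (qsf 536870912 536870912 1610612736 536870912 3) ndB0q1 ndB1q3 pcB3 Cut.none Ext.none)

def k0_pm_133 : ∃ t, chk3 f_pm_133 t 1 1 1 = true :=
  ⟨(a (b (a (b (a (b (c (l 16404304) (l 15958368)) (l 2)) (l 2)) (l 2)) (l 2)) (l 2)) (l 2)), by decide +kernel⟩

theorem c_pm_133 : CertB 536870912 536870912 1610612736 536870912 966367641 24778659 3 eng mog cd0q1 cd1q3 pd3 false true false .dn 1 3 3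
    ndB0q1 ndB1q3 pcB3 Cut.none Ext.none :=
  certB1 (fam := false) (s1 := true) (s2 := false) (a := 1) (b := 3) (c := 3) (cn := .dn) (n1 := ndB0q1) (n2 := ndB1q3) (pc := pcB3) (cut := Cut.none) (xt := Ext.none) (P1 := 536870912) (W1 := 536870912) (P2 := 1610612736) (W2 := 536870912) (P3 := 966367641) (W3 := 24778659) (N0 := 3) (En := eng) (mo := mog) (C1 := cd0q1) (C2 := cd1q3) (C3 := pd3)
    rfl (fun _ => rfl) k0_pm_133

noncomputable def cut_pm_202_a : Cut := Cut.of [[⟨0, 1, 0, 67108864⟩, ⟨1, 0, 0, 67108864⟩, ⟨2, 1, 0, 67108864⟩]]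

noncomputable def f_pm_202_a : ℕ → ℕ → ℕ → ℕ → Bool := onCell 0 536870912 0 536870912 966367641 24778659
    (rowB 3 eng mog cd0q2 cd1q2a pd0 0 false true false .pp 2 0 2 (qsf 0 536870912 0 536870912 0) ndB0q2 ndB1q2a pcB0 cut_pm_202_a Ext.none)

def k0_pm_202_a : ∃ t, chk3 f_pm_202_a t 1 1 1 = true :=
  ⟨(a (l 3) (b (l 3) (a (l 3) (b (l 3) (a (l 3) (b (l 3) (l 6))))))), by decide +kernel⟩

theorem c_pm_202_a : CertB 0 536870912 0 536870912 966367641 24778659 3 eng mog cd0q2 cd1q2a pd0 false true false .pp 2 0 2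
    ndB0q2 ndB1q2a pcB0 cut_pm_202_a Ext.none :=
  certB0 (fam := false) (s1 := true) (s2 := false) (a := 2) (b := 0) (c := 2) (cn := .pp) (n1 := ndB0q2) (n2 := ndB1q2a) (pc := pcB0) (cut := cut_pm_202_a) (xt := Ext.none) (P1 := 0) (W1 := 536870912) (P2 := 0) (W2 := 536870912) (P3 := 966367641) (W3 := 24778659) (N0 := 3) (En := eng) (mo := mog) (C1 := cd0q2) (C2 := cd1q2a) (C3 := pd0)
    rfl k0_pm_202_a

noncomputable def cut_pm_202_b : Cut := Cut.of [[⟨0, 1, 0, 67108864⟩, ⟨1, 0, 0, 67108864⟩, ⟨2, 1, 0, 67108864⟩]]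

noncomputable def f_pm_202_b : ℕ → ℕ → ℕ → ℕ → Bool := onCell 0 536870912 1239849684 370763052 966367641 24778659
    (rowB 3 eng mog cd0q2 cd1q2b pd0 0 false true false .pp 2 0 2 (qsf 0 536870912 1239849684 370763052 0) ndB0q2 ndB1q2b pcB0 cut_pm_202_b Ext.none)

def k0_pm_202_b : ∃ t, chk3 f_pm_202_b t 1 1 1 = true :=
  ⟨(l 3), by decide +kernel⟩

theorem c_pm_202_b : CertB 0 536870912 1239849684 370763052 966367641 24778659 3 eng mog cd0q2 cd1q2b pd0 false true false .pp 2 0 2
    ndB0q2 ndB1q2b pcB0 cut_pm_202_b Ext.none :=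
  certB0 (fam := false) (s1 := true) (s2 := false) (a := 2) (b := 0) (c := 2) (cn := .pp) (n1 := ndB0q2) (n2 := ndB1q2b) (pc := pcB0) (cut := cut_pm_202_b) (xt := Ext.none) (P1 := 0) (W1 := 536870912) (P2 := 1239849684) (W2 := 370763052) (P3 := 966367641) (W3 := 24778659) (N0 := 3) (En := eng) (mo := mog) (C1 := cd0q2) (C2 := cd1q2b) (C3 := pd0)
    rfl k0_pm_202_b

noncomputable def f_pm_203 : ℕ → ℕ → ℕ → ℕ → Bool := onCell 0 536870912 0 536870912 966367641 24778659
    (rowB 3 eng mog cd0q2 cd1q3 pd0 1 false true false .up 2 0 3 (qsf 0 536870912 1610612736 536870912 0) ndB0q2 ndB1q3 pcB0 Cut.none Ext.none)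

def k0_pm_203 : ∃ t, chk3 f_pm_203 t 1 1 1 = true :=
  ⟨(l 3), by decide +kernel⟩

theorem c_pm_203 : CertB 0 536870912 1610612736 536870912 966367641 24778659 3 eng mog cd0q2 cd1q3 pd0 false true false .up 2 0 3
    ndB0q2 ndB1q3 pcB0 Cut.none Ext.none :=
  certB1 (fam := false) (s1 := true) (s2 := false) (a := 2) (b := 0) (c := 3) (cn := .up) (n1 := ndB0q2) (n2 := ndB1q3) (pc := pcB0) (cut := Cut.none) (xt := Ext.none) (P1 := 0) (W1 := 536870912) (P2 := 1610612736) (W2 := 536870912) (P3 := 966367641) (W3 := 24778659) (N0 := 3) (En := eng) (mo := mog) (C1 := cd0q2) (C2 := cd1q3) (C3 := pd0)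
    rfl (fun _ => rfl) k0_pm_203

noncomputable def cut_pm_213 : Cut := Cut.of [[⟨0, 1, 0, 47710208⟩, ⟨1, 1, 0, 47710208⟩, ⟨2, 2, 0, 8388608⟩]]

noncomputable def f_pm_213 : ℕ → ℕ → ℕ → ℕ → Bool := onCell 0 536870912 1610612736 536870912 966367641 24778659
    (rowB 3 eng mog cd0q2 cd1q3 pd1 0 false true false .pnn 2 1 3 (qsf 0 536870912 1610612736 536870912 1) ndB0q2 ndB1q3 pcB1 cut_pm_213 Ext.none)

def k0_pm_213 : ∃ t, chk3 f_pm_213 t 1 1 1 = true :=
  ⟨(b (l 3) (a (l 3) (b (l 3) (a (l 3) (b (l 3) (a (l 3) (b (l 3) (b (l 3) (b (l 3) (b (l 3) (l 6))))))))))), by decide +kernel⟩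

theorem c_pm_213 : CertB 0 536870912 1610612736 536870912 966367641 24778659 3 eng mog cd0q2 cd1q3 pd1 false true false .pnn 2 1 3
    ndB0q2 ndB1q3 pcB1 cut_pm_213 Ext.none :=
  certB0 (fam := false) (s1 := true) (s2 := false) (a := 2) (b := 1) (c := 3) (cn := .pnn) (n1 := ndB0q2) (n2 := ndB1q3) (pc := pcB1) (cut := cut_pm_213) (xt := Ext.none) (P1 := 0) (W1 := 536870912) (P2 := 1610612736) (W2 := 536870912) (P3 := 966367641) (W3 := 24778659) (N0 := 3) (En := eng) (mo := mog) (C1 := cd0q2) (C2 := cd1q3) (C3 := pd1)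
    rfl k0_pm_213

noncomputable def f_mm_001 : ℕ → ℕ → ℕ → ℕ → Bool := onCell 0 536870912 536870912 536870912 966367641 24778659
    (rowB 3 eng mog cd0q0 cd1q1 pd0 0 false false false .up 0 0 1 (qsf 0 536870912 536870912 536870912 0) ndB0q0 ndB1q1 pcB0 Cut.none Ext.none)

def k0_mm_001 : ∃ t, chk3 f_mm_001 t 1 1 1 = true :=
  ⟨(l 3), by decide +kernel⟩

theorem c_mm_001 : CertB 0 536870912 536870912 536870912 966367641 24778659 3 eng mog cd0q0 cd1q1 pd0 false false false .up 0 0 1
    ndB0q0 ndB1q1 pcB0 Cut.none Ext.none :=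
  certB0 (fam := false) (s1 := false) (s2 := false) (a := 0) (b := 0) (c := 1) (cn := .up) (n1 := ndB0q0) (n2 := ndB1q1) (pc := pcB0) (cut := Cut.none) (xt := Ext.none) (P1 := 0) (W1 := 536870912) (P2 := 536870912) (W2 := 536870912) (P3 := 966367641) (W3 := 24778659) (N0 := 3) (En := eng) (mo := mog) (C1 := cd0q0) (C2 := cd1q1) (C3 := pd0)
    rfl k0_mm_001

noncomputable def f_mm_011 : ℕ → ℕ → ℕ → ℕ → Bool := onCell 0 536870912 536870912 536870912 966367641 24778659
    (rowB 3 eng mog cd0q0 cd1q1 pd1 0 false false false .pnn 0 1 1 (qsf 0 536870912 536870912 536870912 1) ndB0q0 ndB1q1 pcB1 Cut.none Ext.none)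

def k0_mm_011 : ∃ t, chk3 f_mm_011 t 1 1 1 = true :=
  ⟨(l 3), by decide +kernel⟩

theorem c_mm_011 : CertB 0 536870912 536870912 536870912 966367641 24778659 3 eng mog cd0q0 cd1q1 pd1 false false false .pnn 0 1 1
    ndB0q0 ndB1q1 pcB1 Cut.none Ext.none :=
  certB0 (fam := false) (s1 := false) (s2 := false) (a := 0) (b := 1) (c := 1) (cn := .pnn) (n1 := ndB0q0) (n2 := ndB1q1) (pc := pcB1) (cut := Cut.none) (xt := Ext.none) (P1 := 0) (W1 := 536870912) (P2 := 536870912) (W2 := 536870912) (P3 := 966367641) (W3 := 24778659) (N0 := 3) (En := eng) (mo := mog) (C1 := cd0q0) (C2 := cd1q1) (C3 := pd1)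
    rfl k0_mm_011

noncomputable def f_mm_012_a : ℕ → ℕ → ℕ → ℕ → Bool := onCell 0 536870912 0 536870912 966367641 24778659
    (rowB 3 eng mog cd0q0 cd1q2a pd1 0 false false false .pnp 0 1 2 (qsf 0 536870912 0 536870912 1) ndB0q0 ndB1q2a pcB1 Cut.none Ext.none)

def k0_mm_012_a : ∃ t, chk3 f_mm_012_a t 1 1 1 = true :=
  ⟨(l 5), by decide +kernel⟩

theorem c_mm_012_a : CertB 0 536870912 0 536870912 966367641 24778659 3 eng mog cd0q0 cd1q2a pd1 false false false .pnp 0 1 2
    ndB0q0 ndB1q2a pcB1 Cut.none Ext.none :=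
  certB0 (fam := false) (s1 := false) (s2 := false) (a := 0) (b := 1) (c := 2) (cn := .pnp) (n1 := ndB0q0) (n2 := ndB1q2a) (pc := pcB1) (cut := Cut.none) (xt := Ext.none) (P1 := 0) (W1 := 536870912) (P2 := 0) (W2 := 536870912) (P3 := 966367641) (W3 := 24778659) (N0 := 3) (En := eng) (mo := mog) (C1 := cd0q0) (C2 := cd1q2a) (C3 := pd1)
    rfl k0_mm_012_a

noncomputable def f_mm_012_b : ℕ → ℕ → ℕ → ℕ → Bool := onCell 0 536870912 1239849684 370763052 966367641 24778659
    (rowB 3 eng mog cd0q0 cd1q2b pd1 0 false false false .pnp 0 1 2 (qsf 0 536870912 1239849684 370763052 1) ndB0q0 ndB1q2b pcB1 Cut.none Ext.none)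

def k0_mm_012_b : ∃ t, chk3 f_mm_012_b t 1 1 1 = true :=
  ⟨(l 5), by decide +kernel⟩

theorem c_mm_012_b : CertB 0 536870912 1239849684 370763052 966367641 24778659 3 eng mog cd0q0 cd1q2b pd1 false false false .pnp 0 1 2
    ndB0q0 ndB1q2b pcB1 Cut.none Ext.none :=
  certB0 (fam := false) (s1 := false) (s2 := false) (a := 0) (b := 1) (c := 2) (cn := .pnp) (n1 := ndB0q0) (n2 := ndB1q2b) (pc := pcB1) (cut := Cut.none) (xt := Ext.none) (P1 := 0) (W1 := 536870912) (P2 := 1239849684) (W2 := 370763052) (P3 := 966367641) (W3 := 24778659) (N0 := 3) (En := eng) (mo := mog) (C1 := cd0q0) (C2 := cd1q2b) (C3 := pd1)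
    rfl k0_mm_012_b

noncomputable def f_mm_022_a : ℕ → ℕ → ℕ → ℕ → Bool := onCell 0 536870912 0 536870912 966367641 24778659
    (rowB 3 eng mog cd0q0 cd1q2a pd2 0 false false false .pp 0 2 2 (qsf 0 536870912 0 536870912 2) ndB0q0 ndB1q2a pcB2 Cut.none Ext.none)

def k0_mm_022_a : ∃ t, chk3 f_mm_022_a t 1 1 1 = true :=
  ⟨(l 5), by decide +kernel⟩

theorem c_mm_022_a : CertB 0 536870912 0 536870912 966367641 24778659 3 eng mog cd0q0 cd1q2a pd2 false false false .pp 0 2 2
    ndB0q0 ndB1q2a pcB2 Cut.none Ext.none :=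
  certB0 (fam := false) (s1 := false) (s2 := false) (a := 0) (b := 2) (c := 2) (cn := .pp) (n1 := ndB0q0) (n2 := ndB1q2a) (pc := pcB2) (cut := Cut.none) (xt := Ext.none) (P1 := 0) (W1 := 536870912) (P2 := 0) (W2 := 536870912) (P3 := 966367641) (W3 := 24778659) (N0 := 3) (En := eng) (mo := mog) (C1 := cd0q0) (C2 := cd1q2a) (C3 := pd2)
    rfl k0_mm_022_a

noncomputable def f_mm_022_b : ℕ → ℕ → ℕ → ℕ → Bool := onCell 0 536870912 1239849684 370763052 966367641 24778659
    (rowB 3 eng mog cd0q0 cd1q2b pd2 0 false false false .pp 0 2 2 (qsf 0 536870912 1239849684 370763052 2) ndB0q0 ndB1q2b pcB2 Cut.none Ext.none)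

def k0_mm_022_b : ∃ t, chk3 f_mm_022_b t 1 1 1 = true :=
  ⟨(l 5), by decide +kernel⟩

theorem c_mm_022_b : CertB 0 536870912 1239849684 370763052 966367641 24778659 3 eng mog cd0q0 cd1q2b pd2 false false false .pp 0 2 2
    ndB0q0 ndB1q2b pcB2 Cut.none Ext.none :=
  certB0 (fam := false) (s1 := false) (s2 := false) (a := 0) (b := 2) (c := 2) (cn := .pp) (n1 := ndB0q0) (n2 := ndB1q2b) (pc := pcB2) (cut := Cut.none) (xt := Ext.none) (P1 := 0) (W1 := 536870912) (P2 := 1239849684) (W2 := 370763052) (P3 := 966367641) (W3 := 24778659) (N0 := 3) (En := eng) (mo := mog) (C1 := cd0q0) (C2 := cd1q2b) (C3 := pd2)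
    rfl k0_mm_022_b

noncomputable def f_mm_023 : ℕ → ℕ → ℕ → ℕ → Bool := onCell 0 536870912 1610612736 536870912 966367641 24778659
    (rowB 3 eng mog cd0q0 cd1q3 pd2 0 false false false .up 0 2 3 (qsf 0 536870912 1610612736 536870912 2) ndB0q0 ndB1q3 pcB2 Cut.none Ext.none)

def k0_mm_023 : ∃ t, chk3 f_mm_023 t 1 1 1 = true :=
  ⟨(l 5), by decide +kernel⟩

theorem c_mm_023 : CertB 0 536870912 1610612736 536870912 966367641 24778659 3 eng mog cd0q0 cd1q3 pd2 false false false .up 0 2 3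
    ndB0q0 ndB1q3 pcB2 Cut.none Ext.none :=
  certB0 (fam := false) (s1 := false) (s2 := false) (a := 0) (b := 2) (c := 3) (cn := .up) (n1 := ndB0q0) (n2 := ndB1q3) (pc := pcB2) (cut := Cut.none) (xt := Ext.none) (P1 := 0) (W1 := 536870912) (P2 := 1610612736) (W2 := 536870912) (P3 := 966367641) (W3 := 24778659) (N0 := 3) (En := eng) (mo := mog) (C1 := cd0q0) (C2 := cd1q3) (C3 := pd2)
    rfl k0_mm_023

noncomputable def f_mm_033 : ℕ → ℕ → ℕ → ℕ → Bool := onCell 0 536870912 1610612736 536870912 966367641 24778659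
    (rowB 3 eng mog cd0q0 cd1q3 pd3 0 false false false .pnn 0 3 3 (qsf 0 536870912 1610612736 536870912 3) ndB0q0 ndB1q3 pcB3 Cut.none Ext.none)

def k0_mm_033 : ∃ t, chk3 f_mm_033 t 1 1 1 = true :=
  ⟨(l 5), by decide +kernel⟩

theorem c_mm_033 : CertB 0 536870912 1610612736 536870912 966367641 24778659 3 eng mog cd0q0 cd1q3 pd3 false false false .pnn 0 3 3
    ndB0q0 ndB1q3 pcB3 Cut.none Ext.none :=
  certB0 (fam := false) (s1 := false) (s2 := false) (a := 0) (b := 3) (c := 3) (cn := .pnn) (n1 := ndB0q0) (n2 := ndB1q3) (pc := pcB3) (cut := Cut.none) (xt := Ext.none) (P1 := 0) (W1 := 536870912) (P2 := 1610612736) (W2 := 536870912) (P3 := 966367641) (W3 := 24778659) (N0 := 3) (En := eng) (mo := mog) (C1 := cd0q0) (C2 := cd1q3) (C3 := pd3)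
    rfl k0_mm_033

noncomputable def f_mm_101 : ℕ → ℕ → ℕ → ℕ → Bool := onCell 536870912 536870912 536870912 536870912 966367641 24778659
    (rowB 3 eng mog cd0q1 cd1q1 pd0 0 false false false .npn 1 0 1 (qsf 536870912 536870912 536870912 536870912 0) ndB0q1 ndB1q1 pcB0 Cut.none Ext.none)

def k0_mm_101 : ∃ t, chk3 f_mm_101 t 1 1 1 = true :=
  ⟨(l 3), by decide +kernel⟩

theorem c_mm_101 : CertB 536870912 536870912 536870912 536870912 966367641 24778659 3 eng mog cd0q1 cd1q1 pd0 false false false .npn 1 0 1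
    ndB0q1 ndB1q1 pcB0 Cut.none Ext.none :=
  certB0 (fam := false) (s1 := false) (s2 := false) (a := 1) (b := 0) (c := 1) (cn := .npn) (n1 := ndB0q1) (n2 := ndB1q1) (pc := pcB0) (cut := Cut.none) (xt := Ext.none) (P1 := 536870912) (W1 := 536870912) (P2 := 536870912) (W2 := 536870912) (P3 := 966367641) (W3 := 24778659) (N0 := 3) (En := eng) (mo := mog) (C1 := cd0q1) (C2 := cd1q1) (C3 := pd0)
    rfl k0_mm_101

noncomputable def f_mm_102_a : ℕ → ℕ → ℕ → ℕ → Bool := onCell 536870912 536870912 0 536870912 966367641 24778659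
    (rowB 3 eng mog cd0q1 cd1q2a pd0 0 false false false .npp 1 0 2 (qsf 536870912 536870912 0 536870912 0) ndB0q1 ndB1q2a pcB0 Cut.none Ext.none)

def k0_mm_102_a : ∃ t, chk3 f_mm_102_a t 1 1 1 = true :=
  ⟨(l 3), by decide +kernel⟩

theorem c_mm_102_a : CertB 536870912 536870912 0 536870912 966367641 24778659 3 eng mog cd0q1 cd1q2a pd0 false false false .npp 1 0 2
    ndB0q1 ndB1q2a pcB0 Cut.none Ext.none :=
  certB0 (fam := false) (s1 := false) (s2 := false) (a := 1) (b := 0) (c := 2) (cn := .npp) (n1 := ndB0q1) (n2 := ndB1q2a) (pc := pcB0) (cut := Cut.none) (xt := Ext.none) (P1 := 536870912) (W1 := 536870912) (P2 := 0) (W2 := 536870912) (P3 := 966367641) (W3 := 24778659) (N0 := 3) (En := eng) (mo := mog) (C1 := cd0q1) (C2 := cd1q2a) (C3 := pd0)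
    rfl k0_mm_102_a

noncomputable def f_mm_102_b : ℕ → ℕ → ℕ → ℕ → Bool := onCell 536870912 536870912 1239849684 370763052 966367641 24778659
    (rowB 3 eng mog cd0q1 cd1q2b pd0 0 false false false .npp 1 0 2 (qsf 536870912 536870912 1239849684 370763052 0) ndB0q1 ndB1q2b pcB0 Cut.none Ext.none)

def k0_mm_102_b : ∃ t, chk3 f_mm_102_b t 1 1 1 = true :=
  ⟨(l 5), by decide +kernel⟩

theorem c_mm_102_b : CertB 536870912 536870912 1239849684 370763052 966367641 24778659 3 eng mog cd0q1 cd1q2b pd0 false false false .npp 1 0 2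
    ndB0q1 ndB1q2b pcB0 Cut.none Ext.none :=
  certB0 (fam := false) (s1 := false) (s2 := false) (a := 1) (b := 0) (c := 2) (cn := .npp) (n1 := ndB0q1) (n2 := ndB1q2b) (pc := pcB0) (cut := Cut.none) (xt := Ext.none) (P1 := 536870912) (W1 := 536870912) (P2 := 1239849684) (W2 := 370763052) (P3 := 966367641) (W3 := 24778659) (N0 := 3) (En := eng) (mo := mog) (C1 := cd0q1) (C2 := cd1q2b) (C3 := pd0)
    rfl k0_mm_102_b

noncomputable def f_mm_112_a : ℕ → ℕ → ℕ → ℕ → Bool := onCell 536870912 536870912 0 536870912 966367641 24778659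
    (rowB 3 eng mog cd0q1 cd1q2a pd1 0 false false false .dn 1 1 2 (qsf 536870912 536870912 0 536870912 1) ndB0q1 ndB1q2a pcB1 Cut.none Ext.none)

def k0_mm_112_a : ∃ t, chk3 f_mm_112_a t 1 1 1 = true :=
  ⟨(l 3), by decide +kernel⟩

theorem c_mm_112_a : CertB 536870912 536870912 0 536870912 966367641 24778659 3 eng mog cd0q1 cd1q2a pd1 false false false .dn 1 1 2
    ndB0q1 ndB1q2a pcB1 Cut.none Ext.none :=
  certB0 (fam := false) (s1 := false) (s2 := false) (a := 1) (b := 1) (c := 2) (cn := .dn) (n1 := ndB0q1) (n2 := ndB1q2a) (pc := pcB1) (cut := Cut.none) (xt := Ext.none) (P1 := 536870912) (W1 := 536870912) (P2 := 0) (W2 := 536870912) (P3 := 966367641) (W3 := 24778659) (N0 := 3) (En := eng) (mo := mog) (C1 := cd0q1) (C2 := cd1q2a) (C3 := pd1)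
    rfl k0_mm_112_a

noncomputable def f_mm_112_b : ℕ → ℕ → ℕ → ℕ → Bool := onCell 536870912 536870912 1239849684 370763052 966367641 24778659
    (rowB 3 eng mog cd0q1 cd1q2b pd1 0 false false false .dn 1 1 2 (qsf 536870912 536870912 1239849684 370763052 1) ndB0q1 ndB1q2b pcB1 Cut.none Ext.none)

def k0_mm_112_b : ∃ t, chk3 f_mm_112_b t 1 1 1 = true :=
  ⟨(l 5), by decide +kernel⟩

theorem c_mm_112_b : CertB 536870912 536870912 1239849684 370763052 966367641 24778659 3 eng mog cd0q1 cd1q2b pd1 false false false .dn 1 1 2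
    ndB0q1 ndB1q2b pcB1 Cut.none Ext.none :=
  certB0 (fam := false) (s1 := false) (s2 := false) (a := 1) (b := 1) (c := 2) (cn := .dn) (n1 := ndB0q1) (n2 := ndB1q2b) (pc := pcB1) (cut := Cut.none) (xt := Ext.none) (P1 := 536870912) (W1 := 536870912) (P2 := 1239849684) (W2 := 370763052) (P3 := 966367641) (W3 := 24778659) (N0 := 3) (En := eng) (mo := mog) (C1 := cd0q1) (C2 := cd1q2b) (C3 := pd1)
    rfl k0_mm_112_b

noncomputable def f_mm_113 : ℕ → ℕ → ℕ → ℕ → Bool := onCell 536870912 536870912 1610612736 536870912 966367641 24778659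
    (rowB 3 eng mog cd0q1 cd1q3 pd1 0 false false false .nn 1 1 3 (qsf 536870912 536870912 1610612736 536870912 1) ndB0q1 ndB1q3 pcB1 Cut.none Ext.none)

def k0_mm_113 : ∃ t, chk3 f_mm_113 t 1 1 1 = true :=
  ⟨(l 5), by decide +kernel⟩

theorem c_mm_113 : CertB 536870912 536870912 1610612736 536870912 966367641 24778659 3 eng mog cd0q1 cd1q3 pd1 false false false .nn 1 1 3
    ndB0q1 ndB1q3 pcB1 Cut.none Ext.none :=
  certB0 (fam := false) (s1 := false) (s2 := false) (a := 1) (b := 1) (c := 3) (cn := .nn) (n1 := ndB0q1) (n2 := ndB1q3) (pc := pcB1) (cut := Cut.none) (xt := Ext.none) (P1 := 536870912) (W1 := 536870912) (P2 := 1610612736) (W2 := 536870912) (P3 := 966367641) (W3 := 24778659) (N0 := 3) (En := eng) (mo := mog) (C1 := cd0q1) (C2 := cd1q3) (C3 := pd1)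
    rfl k0_mm_113

noncomputable def f_mm_123 : ℕ → ℕ → ℕ → ℕ → Bool := onCell 536870912 536870912 1610612736 536870912 966367641 24778659
    (rowB 3 eng mog cd0q1 cd1q3 pd2 0 false false false .npn 1 2 3 (qsf 536870912 536870912 1610612736 536870912 2) ndB0q1 ndB1q3 pcB2 Cut.none Ext.none)

def k0_mm_123 : ∃ t, chk3 f_mm_123 t 1 1 1 = true :=
  ⟨(l 5), by decide +kernel⟩

theorem c_mm_123 : CertB 536870912 536870912 1610612736 536870912 966367641 24778659 3 eng mog cd0q1 cd1q3 pd2 false false false .npn 1 2 3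
    ndB0q1 ndB1q3 pcB2 Cut.none Ext.none :=
  certB0 (fam := false) (s1 := false) (s2 := false) (a := 1) (b := 2) (c := 3) (cn := .npn) (n1 := ndB0q1) (n2 := ndB1q3) (pc := pcB2) (cut := Cut.none) (xt := Ext.none) (P1 := 536870912) (W1 := 536870912) (P2 := 1610612736) (W2 := 536870912) (P3 := 966367641) (W3 := 24778659) (N0 := 3) (En := eng) (mo := mog) (C1 := cd0q1) (C2 := cd1q3) (C3 := pd2)
    rfl k0_mm_123

noncomputable def f_mm_133 : ℕ → ℕ → ℕ → ℕ → Bool := onCell 536870912 536870912 1610612736 536870912 966367641 24778659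
    (rowB 3 eng mog cd0q1 cd1q3 pd3 0 false false false .dn 1 3 3 (qsf 536870912 536870912 1610612736 536870912 3) ndB0q1 ndB1q3 pcB3 Cut.none Ext.none)

def k0_mm_133 : ∃ t, chk3 f_mm_133 t 1 1 1 = true :=
  ⟨(l 5), by decide +kernel⟩

theorem c_mm_133 : CertB 536870912 536870912 1610612736 536870912 966367641 24778659 3 eng mog cd0q1 cd1q3 pd3 false false false .dn 1 3 3
    ndB0q1 ndB1q3 pcB3 Cut.none Ext.none :=
  certB0 (fam := false) (s1 := false) (s2 := false) (a := 1) (b := 3) (c := 3) (cn := .dn) (n1 := ndB0q1) (n2 := ndB1q3) (pc := pcB3) (cut := Cut.none) (xt := Ext.none) (P1 := 536870912) (W1 := 536870912) (P2 := 1610612736) (W2 := 536870912) (P3 := 966367641) (W3 := 24778659) (N0 := 3) (En := eng) (mo := mog) (C1 := cd0q1) (C2 := cd1q3) (C3 := pd3)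
    rfl k0_mm_133

noncomputable def f_mm_202_a : ℕ → ℕ → ℕ → ℕ → Bool := onCell 0 536870912 0 536870912 966367641 24778659
    (rowB 3 eng mog cd0q2 cd1q2a pd0 0 false false false .pp 2 0 2 (qsf 0 536870912 0 536870912 0) ndB0q2 ndB1q2a pcB0 Cut.none Ext.none)

def k0_mm_202_a : ∃ t, chk3 f_mm_202_a t 1 1 1 = true :=
  ⟨(l 3), by decide +kernel⟩

theorem c_mm_202_a : CertB 0 536870912 0 536870912 966367641 24778659 3 eng mog cd0q2 cd1q2a pd0 false false false .pp 2 0 2
    ndB0q2 ndB1q2a pcB0 Cut.none Ext.none :=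
  certB0 (fam := false) (s1 := false) (s2 := false) (a := 2) (b := 0) (c := 2) (cn := .pp) (n1 := ndB0q2) (n2 := ndB1q2a) (pc := pcB0) (cut := Cut.none) (xt := Ext.none) (P1 := 0) (W1 := 536870912) (P2 := 0) (W2 := 536870912) (P3 := 966367641) (W3 := 24778659) (N0 := 3) (En := eng) (mo := mog) (C1 := cd0q2) (C2 := cd1q2a) (C3 := pd0)
    rfl k0_mm_202_a

noncomputable def f_mm_202_b : ℕ → ℕ → ℕ → ℕ → Bool := onCell 0 536870912 1239849684 370763052 966367641 24778659
    (rowB 3 eng mog cd0q2 cd1q2b pd0 0 false false false .pp 2 0 2 (qsf 0 536870912 1239849684 370763052 0) ndB0q2 ndB1q2b pcB0 Cut.none Ext.none)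

def k0_mm_202_b : ∃ t, chk3 f_mm_202_b t 1 1 1 = true :=
  ⟨(l 3), by decide +kernel⟩

theorem c_mm_202_b : CertB 0 536870912 1239849684 370763052 966367641 24778659 3 eng mog cd0q2 cd1q2b pd0 false false false .pp 2 0 2
    ndB0q2 ndB1q2b pcB0 Cut.none Ext.none :=
  certB0 (fam := false) (s1 := false) (s2 := false) (a := 2) (b := 0) (c := 2) (cn := .pp) (n1 := ndB0q2) (n2 := ndB1q2b) (pc := pcB0) (cut := Cut.none) (xt := Ext.none) (P1 := 0) (W1 := 536870912) (P2 := 1239849684) (W2 := 370763052) (P3 := 966367641) (W3 := 24778659) (N0 := 3) (En := eng) (mo := mog) (C1 := cd0q2) (C2 := cd1q2b) (C3 := pd0)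
    rfl k0_mm_202_b

noncomputable def f_mm_203 : ℕ → ℕ → ℕ → ℕ → Bool := onCell 0 536870912 0 536870912 966367641 24778659
    (rowB 3 eng mog cd0q2 cd1q3 pd0 1 false false false .up 2 0 3 (qsf 0 536870912 1610612736 536870912 0) ndB0q2 ndB1q3 pcB0 Cut.none Ext.none)

def k0_mm_203 : ∃ t, chk3 f_mm_203 t 1 1 1 = true :=
  ⟨(l 3), by decide +kernel⟩

theorem c_mm_203 : CertB 0 536870912 1610612736 536870912 966367641 24778659 3 eng mog cd0q2 cd1q3 pd0 false false false .up 2 0 3
    ndB0q2 ndB1q3 pcB0 Cut.none Ext.none :=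
  certB1 (fam := false) (s1 := false) (s2 := false) (a := 2) (b := 0) (c := 3) (cn := .up) (n1 := ndB0q2) (n2 := ndB1q3) (pc := pcB0) (cut := Cut.none) (xt := Ext.none) (P1 := 0) (W1 := 536870912) (P2 := 1610612736) (W2 := 536870912) (P3 := 966367641) (W3 := 24778659) (N0 := 3) (En := eng) (mo := mog) (C1 := cd0q2) (C2 := cd1q3) (C3 := pd0)
    rfl (fun _ => rfl) k0_mm_203

noncomputable def f_mm_213 : ℕ → ℕ → ℕ → ℕ → Bool := onCell 0 536870912 1610612736 536870912 966367641 24778659
    (rowB 3 eng mog cd0q2 cd1q3 pd1 0 false false false .pnn 2 1 3 (qsf 0 536870912 1610612736 536870912 1) ndB0q2 ndB1q3 pcB1 Cut.none Ext.none)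

def k0_mm_213 : ∃ t, chk3 f_mm_213 t 1 1 1 = true :=
  ⟨(a (l 3) (l 5)), by decide +kernel⟩

theorem c_mm_213 : CertB 0 536870912 1610612736 536870912 966367641 24778659 3 eng mog cd0q2 cd1q3 pd1 false false false .pnn 2 1 3
    ndB0q2 ndB1q3 pcB1 Cut.none Ext.none :=
  certB0 (fam := false) (s1 := false) (s2 := false) (a := 2) (b := 1) (c := 3) (cn := .pnn) (n1 := ndB0q2) (n2 := ndB1q3) (pc := pcB1) (cut := Cut.none) (xt := Ext.none) (P1 := 0) (W1 := 536870912) (P2 := 1610612736) (W2 := 536870912) (P3 := 966367641) (W3 := 24778659) (N0 := 3) (En := eng) (mo := mog) (C1 := cd0q2) (C2 := cd1q3) (C3 := pd1)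
    rfl k0_mm_213

end Pool.Agent.Strip051.G.I9000_9231.Tab.C.BB01

namespace Pool.Agent.Strip051.G.I9000_9231.Tab.C.BB02

open Pool.Agent.Strip051.PB Pool.Agent.Strip051.PB.T
open Pool.Agent.Strip051.G.I9000_9231.Tab

noncomputable def f_pp_001 : ℕ → ℕ → ℕ → ℕ → Bool := onCell 0 536870912 0 536870912 966367641 24778659
    (rowB 3 eng mog cd0q0 cd2q1 pd0 1 false true true .up 0 0 1 (qsf 0 536870912 536870912 536870912 0) ndB0q0 ndB2q1 pcB0 Cut.none Ext.none)

def k0_pp_001 : ∃ t, chk3 f_pp_001 t 1 1 1 = true :=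
  ⟨(l 3), by decide +kernel⟩

theorem c_pp_001 : CertB 0 536870912 536870912 536870912 966367641 24778659 3 eng mog cd0q0 cd2q1 pd0 false true true .up 0 0 1
    ndB0q0 ndB2q1 pcB0 Cut.none Ext.none :=
  certB1 (fam := false) (s1 := true) (s2 := true) (a := 0) (b := 0) (c := 1) (cn := .up) (n1 := ndB0q0) (n2 := ndB2q1) (pc := pcB0) (cut := Cut.none) (xt := Ext.none) (P1 := 0) (W1 := 536870912) (P2 := 536870912) (W2 := 536870912) (P3 := 966367641) (W3 := 24778659) (N0 := 3) (En := eng) (mo := mog) (C1 := cd0q0) (C2 := cd2q1) (C3 := pd0)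
    rfl (fun _ => rfl) k0_pp_001

noncomputable def cut_pp_011 : Cut := Cut.of [[⟨0, 0, 0, 67108864⟩, ⟨1, 1, 0, 67108864⟩, ⟨2, 1, 0, 67108864⟩]]

noncomputable def f_pp_011 : ℕ → ℕ → ℕ → ℕ → Bool := onCell 0 536870912 536870912 536870912 966367641 24778659
    (rowB 3 eng mog cd0q0 cd2q1 pd1 1 false true true .pnn 0 1 1 (qsf 0 536870912 536870912 536870912 1) ndB0q0 ndB2q1 pcB1 cut_pp_011 Ext.none)

def k0_pp_011 : ∃ t, chk3 f_pp_011 t 1 1 1 = true :=
  ⟨(b (l 3) (b (l 3) (a (a (b (l 3) (a (b (l 3) (a (l 6) (l 3))) (l 3))) (l 3)) (l 2)))), by decide +kernel⟩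

theorem c_pp_011 : CertB 0 536870912 536870912 536870912 966367641 24778659 3 eng mog cd0q0 cd2q1 pd1 false true true .pnn 0 1 1
    ndB0q0 ndB2q1 pcB1 cut_pp_011 Ext.none :=
  certB1 (fam := false) (s1 := true) (s2 := true) (a := 0) (b := 1) (c := 1) (cn := .pnn) (n1 := ndB0q0) (n2 := ndB2q1) (pc := pcB1) (cut := cut_pp_011) (xt := Ext.none) (P1 := 0) (W1 := 536870912) (P2 := 536870912) (W2 := 536870912) (P3 := 966367641) (W3 := 24778659) (N0 := 3) (En := eng) (mo := mog) (C1 := cd0q0) (C2 := cd2q1) (C3 := pd1)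
    rfl (fun _ => rfl) k0_pp_011

noncomputable def f_pp_012 : ℕ → ℕ → ℕ → ℕ → Bool := onCell 0 536870912 536870912 536870912 966367641 24778659
    (rowB 3 eng mog cd0q0 cd2q2 pd1 1 false true true .pnp 0 1 2 (qsf 0 536870912 1073741824 536870912 1) ndB0q0 ndB2q2 pcB1 Cut.none Ext.none)

def k0_pp_012 : ∃ t, chk3 f_pp_012 t 1 1 1 = true :=
  ⟨(b (l 3) (l 3)), by decide +kernel⟩

theorem c_pp_012 : CertB 0 536870912 1073741824 536870912 966367641 24778659 3 eng mog cd0q0 cd2q2 pd1 false true true .pnp 0 1 2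
    ndB0q0 ndB2q2 pcB1 Cut.none Ext.none :=
  certB1 (fam := false) (s1 := true) (s2 := true) (a := 0) (b := 1) (c := 2) (cn := .pnp) (n1 := ndB0q0) (n2 := ndB2q2) (pc := pcB1) (cut := Cut.none) (xt := Ext.none) (P1 := 0) (W1 := 536870912) (P2 := 1073741824) (W2 := 536870912) (P3 := 966367641) (W3 := 24778659) (N0 := 3) (En := eng) (mo := mog) (C1 := cd0q0) (C2 := cd2q2) (C3 := pd1)
    rfl (fun _ => rfl) k0_pp_012

noncomputable def f_pp_022 : ℕ → ℕ → ℕ → ℕ → Bool := onCell 0 536870912 1073741824 536870912 966367641 24778659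
    (rowB 3 eng mog cd0q0 cd2q2 pd2 1 false true true .pp 0 2 2 (qsf 0 536870912 1073741824 536870912 2) ndB0q0 ndB2q2 pcB2 Cut.none Ext.none)

def k0_pp_022 : ∃ t, chk3 f_pp_022 t 1 16 1 = true :=
  ⟨(a (l 3) (l 3)), by decide +kernel⟩

def k1_pp_022 : ∃ t, chk3 f_pp_022 t 1 34 1 = true :=
  ⟨(b (a (l 3) (a (l 3) (a (a (l 3) (l 16207472)) (a (l 16177904) (l 16045104))))) (a (a (l 3) (a (l 3) (a (l 16322216) (c (l 16393224) (l 16469544))))) (a (a (a (c (l 16358120) (l 16432256)) (l 16274512)) (c (l 16147304) (l 16252256))) (a (a (l 16251696) (l 16219696)) (a (l 16189424) (l 2)))))), by decide +kernel⟩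

def k2_pp_022 : ∃ t, chk3 f_pp_022 t 1 35 1 = true :=
  ⟨(a (a (a (a (b (l 3) (a (b (a (b (b (l 3) (c (a (c (l 105393702759) (l 108614895559)) (l 100024980663)) (a (c (l 104856780039) (l 16349008)) (l 16363408)))) (a (c (c (a (l 16392928) (l 16396504)) (a (l 16375800) (l 16379112))) (c (a (l 16358288) (l 16361312)) (a (l 16340368) (l 16343104)))) (c (c (l 16402024) (l 16384224)) (c (l 16365992) (l 16347344))))) (c (b (a (l 110762428823) (l 16414344)) (a (l 16400520) (l 16408128))) (c (b (l 16384072) (l 16375832)) (b (l 16365848) (l 16356288))))) (c (a (c (a (b (l 16389536) (l 16384376)) (l 16394304)) (a (b (l 16370800) (l 16364144)) (l 16374296))) (c (l 16405864) (l 16385064))) (a (c (a (b (l 16351616) (l 16343424)) (l 16353800)) (a (b (l 16331976) (l 16322216)) (l 16343288))) (c (l 16363736) (a (l 16338792) (l 16345032)))))) (c (b (a (l 16402024) (l 16439264)) (a (l 16390288) (l 16427712))) (b (a (l 16368120) (l 16397824)) (a (l 16345408) (l 16380584)))))) (b (b (l 3)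 (a (c (l 16478336) (l 16436816)) (l 191829927303))) (a (c (b (l 16464536) (l 16453168)) (b (l 16419480) (l 16402560))) (b (l 16390104) (l 16376328))))) (b (a (a (b (l 3) (l 16455944)) (l 186461285607)) (b (l 3) (l 138142910743))) (a (a (c (l 16525648) (l 16469640)) (l 16421360)) (a (l 16486552) (l 16526200))))) (a (b (a (a (l 16531520) (l 16501456)) (l 16334960)) (a (l 16435560) (l 16380536))) (a (b (l 134384549991) (l 16334888)) (b (l 16312880) (l 16338072))))) (a (a (a (c (l 16319704) (l 16448720)) (c (l 16326704) (l 16411040))) (a (c (l 16291912) (l 16371960)) (b (l 16292000) (l 16277208)))) (a (a (c (l 16227296) (l 16298664)) (b (l 16226520) (l 16235712))) (a (b (l 16196696) (l 16208136)) (l 2))))), by decide +kernel⟩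

def k3_pp_022 : ∃ t, chk3 f_pp_022 t 4 18 1 = true :=
  ⟨(a (b (a (a (b (c (a (b (b (a (a (l 16356208) (l 16370176)) (l 16375544)) (c (l 16377712) (l 16354240))) (c (a (l 16366312) (l 16373712)) (a (l 16340816) (l 16347752)))) (b (l 16365496) (l 16351152))) (a (b (b (a (b (l 16326144) (l 16321640)) (l 16329960)) (c (l 16330160) (l 16305488))) (c (a (l 16314664) (l 16321112)) (a (l 16287848) (l 16293792)))) (b (c (l 16347560) (l 16322592)) (l 16296392)))) (c (a (b (c (l 16359552) (l 16330824)) (l 16312256)) (b (l 16339336) (l 16348336))) (a (b (c (l 16301336) (l 16271072)) (c (l 16284712) (l 16251288))) (b (l 16278512) (l 16281504))))) (b (c (a (c (l 16385912) (l 16359736)) (l 16410480)) (a (c (l 16332840) (l 16305232)) (l 16354616))) (c (a (l 16370416) (l 16387184)) (a (l 16304760) (l 16319712))))) (a (b (c (c (l 16450384) (l 16421696)) (a (l 16369576) (l 16384712))) (c (l 16413136) (l 16342832))) (b (c (l 16470616) (l 16407432)) (c (l 16447976) (l 16374072))))) (a (a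 (b (c (a (b (l 16299992) (l 16287440)) (b (l 16336160) (l 16323696))) (a (b (l 16228824) (l 16210384)) (a (l 16229816) (l 16236944)))) (c (a (b (l 16274216) (l 16280072)) (l 16302680)) (a (b (l 16191840) (l 16194664)) (l 16217992)))) (b (c (a (l 16346208) (l 16363160)) (a (l 16269008) (l 16284408))) (c (a (l 16318864) (l 16335784)) (a (l 16233208) (l 16249128))))) (a (b (c (l 16368384) (l 16308120)) (c (l 16361968) (l 16273736))) (b (c (l 16424448) (l 16340304)) (l 16226848))))) (a (b (c (c (l 16410544) (l 16385688)) (b (l 16367272) (l 16356248))) (a (c (l 16318328) (l 16230104)) (b (l 16340936) (l 16353904)))) (c (b (a (l 16549296) (l 16571200)) (l 16387816)) (b (b (l 16432560) (l 16423408)) (l 16273312))))), by decide +kernel⟩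

def k4_pp_022 : ∃ t, chk3 f_pp_022 t 4 19 1 = true :=
  ⟨(a (a (c (b (a (b (a (l 16236392) (l 16272840)) (a (l 16228224) (l 16244080))) (b (l 16297856) (l 16269656))) (a (b (a (l 16200304) (l 16216512)) (l 16181656)) (b (l 16242616) (l 16216688)))) (b (a (b (a (l 16147336) (l 16183072)) (a (l 16113560) (l 16149784))) (b (l 16206928) (l 16174368))) (a (b (a (l 16102248) (l 16117952)) (a (l 16071376) (l 16087512))) (b (l 16143232) (l 16113440))))) (a (b (c (l 16298424) (l 16214152)) (c (l 16266736) (l 16164216))) (b (c (l 16355696) (l 16259376)) (c (l 16304464) (l 16200800))))) (a (b (c (l 16302464) (l 16204904)) (c (l 16274336) (l 16212024))) (c (b (l 16442864) (l 16396640)) (b (l 16342120) (l 16311016))))), by decide +kernel⟩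

def k5_pp_022 : ∃ t, chk3 f_pp_022 t 5 9 1 = true :=
  ⟨(b (b (b (a (a (l 16440832) (l 16405144)) (a (l 16339168) (l 16321896))) (a (a (l 16416640) (l 16388856)) (a (l 16345312) (l 16392448)))) (a (a (c (l 16543312) (l 16432024)) (l 16381640)) (a (l 16357840) (l 16384784)))) (a (a (b (l 16286280) (l 16219536)) (c (l 16500344) (l 16362848))) (a (c (l 16459000) (l 16424816)) (l 16254560)))), by decide +kernel⟩

def k6_pp_022 : ∃ t, chk3 f_pp_022 t 3 9 1 = true :=
  ⟨(a (b (a (b (a (c (l 16344488) (l 16470304)) (c (l 16333264) (l 16433928))) (a (l 16371928) (l 16401584))) (b (c (l 16098120) (l 16378672)) (a (l 16367992) (l 16335728)))) (a (a (l 16263400) (l 16272904)) (a (l 16324296) (l 16356144)))) (b (a (c (l 16136224) (l 16323816)) (a (l 16157688) (l 2))) (a (a (l 16327400) (l 16300784)) (l 2)))), by decide +kernel⟩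

def k7_pp_022 : ∃ t, chk3 f_pp_022 t 8 10 1 = true :=
  ⟨(c (b (a (b (a (b (l 16156160) (l 16131768)) (b (l 16191808) (l 16167992))) (b (a (l 16087608) (l 16145328)) (b (a (l 16071192) (l 16129248)) (a (b (a (l 16076040) (l 16093664)) (a (b (l 16030792) (l 16070232)) (l 16088904))) (b (l 16121904) (l 16117208)))))) (b (a (l 16218280) (l 16257248)) (b (l 16141544) (b (l 16167928) (a (l 16117288) (l 16199544)))))) (a (a (b (a (b (l 16035968) (l 16012600)) (c (l 16092024) (l 16033856))) (a (c (l 16029848) (l 15967928)) (l 15996696))) (b (a (l 16082160) (l 16101896)) (a (l 16037216) (l 16057520)))) (a (b (l 16132344) (l 16088816)) (b (l 16173312) (l 16130920))))) (b (b (a (a (b (l 16029032) (l 16001120)) (b (l 16084968) (l 16057824))) (a (l 16108992) (l 16147224))) (a (b (a (a (l 15987272) (l 16004544)) (l 16032184)) (b (a (a (l 15968704) (l 15986200)) (l 16014184)) (a (b (a (l 15918552) (l 15978080)) (a (b (b (b (l 15957904) (c (l 15987296) (l 15906816))) (l 15956888)) (l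 15933312)) (l 15938864))) (b (l 16006192) (a (l 15991552) (l 16010872)))))) (b (a (l 16070904) (l 16110224)) (b (l 16052256) (a (b (l 16045544) (l 16040584)) (l 16082960)))))) (a (a (b (c (a (b (l 15968952) (l 15942648)) (l 15973800)) (a (b (l 15908040) (l 15879680)) (l 15911864))) (a (b (c (l 15916776) (l 15851816)) (l 15824064)) (c (l 15922792) (l 15856984)))) (b (a (l 15941128) (l 15981856)) (a (l 15889000) (l 15930528)))) (a (b (l 16012216) (l 15962088)) (b (l 16053152) (l 16004624)))))), by decide +kernel⟩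

def k8_pp_022 : ∃ t, chk3 f_pp_022 t 8 11 1 = true :=
  ⟨(a (b (c (a (b (a (c (l 15986792) (l 15921464)) (l 15952512)) (a (c (l 15944944) (l 15876456)) (l 15930632))) (b (a (l 15993592) (l 16014456)) (l 15961904))) (a (b (a (b (l 15790256) (l 15764768)) (c (l 15873480) (l 15804048))) (a (b (l 15739736) (l 15757112)) (l 15768792))) (b (a (l 15838696) (l 15881008)) (a (l 15811176) (l 15833304))))) (c (a (b (a (l 15847952) (l 15889104)) (a (l 15807216) (l 15848912))) (b (l 15921200) (l 15881816))) (a (b (a (c (l 15759008) (l 15682608)) (l 15700376)) (a (c (l 15714096) (l 15634704)) (l 15654752))) (b (a (l 15764504) (l 15787408)) (l 15710432))))) (b (a (c (b (l 16046600) (l 16005680)) (b (l 15913760) (l 15867224))) (c (l 16069768) (l 15935192))) (c (a (b (l 15966072) (l 15927768)) (l 15992736)) (a (b (l 15822496) (l 15779560)) (l 15848840))))), by decide +kernel⟩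

def k9_pp_022 : ∃ t, chk3 f_pp_022 t 9 5 1 = true :=
  ⟨(a (c (b (b (b (l 16249976) (b (l 16281232) (b (l 16266376) (l 16194304)))) (a (l 16192264) (l 16229864))) (b (a (l 16112328) (l 16152184)) (a (l 16037488) (l 16079528)))) (b (b (b (l 16181904) (b (l 16167528) (b (l 16151168) (a (l 16122712) (l 16159744))))) (a (l 16070144) (l 16108912))) (b (a (l 15979848) (l 16021792)) (a (l 15896600) (l 15941648))))) (b (b (b (a (l 16222704) (l 16248616)) (b (l 16141856) (b (l 16148080) (a (l 16208536) (l 16236056))))) (c (l 16173744) (l 16031312))) (b (c (l 16120416) (l 16032840)) (c (l 16092984) (l 15999280))))), by decide +kernel⟩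

def k10_pp_022 : ∃ t, chk3 f_pp_022 t 5 5 1 = true :=
  ⟨(b (a (a (b (b (c (l 16422032) (l 16307224)) (b (l 16231552) (a (l 16160424) (l 16182160)))) (a (l 16112456) (l 16135800))) (b (b (l 16316808) (b (l 16331128) (l 16146368))) (l 16081456))) (b (b (a (l 16381712) (l 16437600)) (a (b (l 16397976) (l 16214272)) (b (l 16413848) (l 16336056)))) (a (l 16152560) (l 16298472)))) (a (c (a (b (l 16261304) (l 16196256)) (l 16211712)) (a (b (l 16132232) (l 16062856)) (l 16021864))) (a (c (l 16306808) (l 16105192)) (c (l 16327512) (l 16181544))))), by decide +kernel⟩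

def k11_pp_022 : ∃ t, chk3 f_pp_022 t 3 5 1 = true :=
  ⟨(a (b (a (b (b (a (l 16448008) (l 16427424)) (b (l 16284592) (a (l 16412360) (l 16424288)))) (a (l 16377904) (l 16392944))) (b (b (l 16276824) (a (l 16165688) (l 16305168))) (a (l 16396128) (l 16369816)))) (a (a (c (l 16343192) (l 16255432)) (l 16261440)) (a (l 16346272) (l 2)))) (b (a (b (b (l 16326688) (l 2)) (l 2)) (l 2)) (l 2))), by decide +kernel⟩

def k12_pp_022 : ∃ t, chk3 f_pp_022 t 4 6 1 = true :=
  ⟨(a (b (a (b (c (a (b (a (l 15746840) (l 15810040)) (b (l 15749800) (l 15731224))) (b (l 15843744) (l 15806976))) (a (b (a (l 15588232) (l 15652896)) (b (l 15567504) (l 15546776))) (b (l 15667768) (l 15626912)))) (c (a (b (c (l 15764592) (l 15684528)) (c (l 15730208) (l 15648512))) (b (l 15771520) (l 15737344))) (a (b (c (l 15601296) (l 15514904)) (c (l 15563512) (l 15475184))) (b (l 15566880) (l 15571544))))) (b (c (a (b (l 15890760) (l 15855040)) (l 15920840)) (a (a (l 15705856) (l 15731328)) (l 15769584)))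 (c (a (l 15803872) (l 15854008)) (a (l 15643360) (l 15697360))))) (a (c (b (a (b (c (l 15696992) (l 15613928)) (l 15581360)) (b (l 15704456) (l 15672832))) (a (b (l 15550048) (l 15520000)) (c (l 15668504) (l 15586048)))) (b (a (b (c (l 15527392) (l 15437392)) (c (l 15492944) (l 15401496))) (b (l 15536040) (l 15502304))) (a (b (a (l 15400904) (l 15427960)) (a (l 15368928) (l 15396672))) (b (l 15470304) (l 15440024))))) (c (b (a (l 15740056) (l 15792152)) (a (l 15681200) (l 15735160))) (b (a (l 15554240) (l 15632056)) (a (l 15492992) (l 15573544)))))) (b (a (b (c (a (l 15967704) (l 16011856)) (a (l 15820368) (l 15868432))) (c (l 15779624) (a (l 15751072) (l 15802056)))) (c (b (l 16070400) (l 16010632)) (b (l 15930568) (l 15868528)))) (a (b (c (l 15825544) (l 15715640)) (c (l 15813248) (l 15661208))) (c (b (l 15955512) (l 15904872)) (b (l 15813048) (l 15763944)))))), by decide +kernel⟩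

def k13_pp_022 : ∃ t, chk3 f_pp_022 t 4 7 1 = true :=
  ⟨(a (b (b (a (c (a (b (l 15491192) (l 15463616)) (c (l 15612824) (l 15530008))) (a (b (a (l 15338688) (l 15367104)) (c (l 15371392) (l 15276664))) (b (l 15411456) (l 15384568)))) (c (a (l 15627160) (l 15682872)) (a (l 15459464) (l 15521664)))) (a (c (a (b (l 15416272) (l 15401568)) (b (l 15533200) (b (l 15514808) (l 15462128)))) (a (b (a (l 15283344) (l 15313048)) (a (l 15258192) (l 15288512))) (b (l 15359336) (b (l 15341472) (a (l 15315064) (l 15349120)))))) (c (b (a (l 15589672) (l 15647432)) (a (l 15547840) (l 15629816))) (b (a (l 15422872) (l 15488584)) (a (b (l 15408096) (l 15404152)) (l 15478400)))))) (a (b (c (b (a (b (a (l 15423192) (l 15450920)) (a (l 15414776) (l 15444224))) (c (l 15531168) (l 15453704))) (a (c (l 15459016) (l 15381192)) (l 15481040))) (b (a (b (a (b (l 15243288) (l 15238792)) (b (l 15275216) (l 15273416))) (a (l 15258144) (l 15273456))) (b (l 15329024) (l 15328872))) (a (c (l 15298992)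 (l 15212424)) (l 15371624)))) (c (b (a (c (l 15445296) (l 15374000)) (l 15470392)) (a (l 15442848) (l 15460776))) (b (a (c (l 15298568) (l 15219016)) (l 15332224)) (a (l 15306088) (l 15336272))))) (b (c (a (b (l 15554936) (l 15542960)) (l 15589488)) (b (a (l 15403312) (l 15476640)) (a (l 15403672) (l 15476472)))) (b (c (l 15562784) (l 15420896)) (l 2))))) (b (c (a (b (a (l 15737296) (l 15789488)) (b (a (l 15704368) (l 15759640)) (l 15717848))) (b (b (l 15870112) (l 15850104)) (l 15805952))) (b (a (a (l 15583528) (l 15643688)) (b (l 15731968) (l 15716872))) (a (b (a (l 15555200) (l 15621424)) (l 15584200)) (l 15707928)))) (a (a (b (b (l 15614096) (l 2)) (l 2)) (l 2)) (l 2)))), by decide +kernel⟩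

def k14_pp_022 : ∃ t, chk3 f_pp_022 t 5 3 1 = true :=
  ⟨(b (b (a (a (c (l 15960616) (a (l 15953984) (l 15987784))) (c (l 16161968) (l 16012736))) (c (a (l 16202056) (l 16230376)) (a (l 16086456) (l 16131904)))) (a (b (a (l 15711840) (c (l 16088688) (l 15964320))) (a (c (l 15981672) (l 15850184)) (c (l 16045688) (l 15927520)))) (b (a (c (l 16134024) (l 16024824)) (l 2)) (l 2)))) (b (a (a (b (c (l 15879072) (l 15694592)) (l 2)) (l 2)) (l 2)) (l 2))), by decide +kernel⟩

def k15_pp_022 : ∃ t, chk3 f_pp_022 t 3 3 1 = true :=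
  ⟨(b (a (b (a (a (l 16112032) (l 2)) (l 2)) (l 2)) (l 2)) (l 2)), by decide +kernel⟩

theorem s16_pp_022 : ∃ t, chk3 f_pp_022 t 4 3 1 = true := ex3_b k12_pp_022 k13_pp_022

theorem s17_pp_022 : ∃ t, chk3 f_pp_022 t 2 3 1 = true := ex3_a s16_pp_022 k14_pp_022

theorem s18_pp_022 : ∃ t, chk3 f_pp_022 t 1 3 1 = true := ex3_a s17_pp_022 k15_pp_022

theorem s19_pp_022 : ∃ t, chk3 f_pp_022 t 8 5 1 = true := ex3_b k7_pp_022 k8_pp_022

theorem s20_pp_022 : ∃ t, chk3 f_pp_022 t 4 5 1 = true := ex3_a s19_pp_022 k9_pp_022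

theorem s21_pp_022 : ∃ t, chk3 f_pp_022 t 2 5 1 = true := ex3_a s20_pp_022 k10_pp_022

theorem s22_pp_022 : ∃ t, chk3 f_pp_022 t 1 5 1 = true := ex3_a s21_pp_022 k11_pp_022

theorem s23_pp_022 : ∃ t, chk3 f_pp_022 t 4 9 1 = true := ex3_b k3_pp_022 k4_pp_022

theorem s24_pp_022 : ∃ t, chk3 f_pp_022 t 2 9 1 = true := ex3_a s23_pp_022 k5_pp_022

theorem s25_pp_022 : ∃ t, chk3 f_pp_022 t 1 9 1 = true := ex3_a s24_pp_022 k6_pp_022

theorem s26_pp_022 : ∃ t, chk3 f_pp_022 t 1 17 1 = true := ex3_b k1_pp_022 k2_pp_022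

theorem s27_pp_022 : ∃ t, chk3 f_pp_022 t 1 8 1 = true := ex3_b k0_pp_022 s26_pp_022

theorem s28_pp_022 : ∃ t, chk3 f_pp_022 t 1 4 1 = true := ex3_b s27_pp_022 s25_pp_022

theorem s29_pp_022 : ∃ t, chk3 f_pp_022 t 1 2 1 = true := ex3_b s28_pp_022 s22_pp_022

theorem s30_pp_022 : ∃ t, chk3 f_pp_022 t 1 1 1 = true := ex3_b s29_pp_022 s18_pp_022

theorem c_pp_022 : CertB 0 536870912 1073741824 536870912 966367641 24778659 3 eng mog cd0q0 cd2q2 pd2 false true true .pp 0 2 2
    ndB0q0 ndB2q2 pcB2 Cut.none Ext.none :=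
  certB1 (fam := false) (s1 := true) (s2 := true) (a := 0) (b := 2) (c := 2) (cn := .pp) (n1 := ndB0q0) (n2 := ndB2q2) (pc := pcB2) (cut := Cut.none) (xt := Ext.none) (P1 := 0) (W1 := 536870912) (P2 := 1073741824) (W2 := 536870912) (P3 := 966367641) (W3 := 24778659) (N0 := 3) (En := eng) (mo := mog) (C1 := cd0q0) (C2 := cd2q2) (C3 := pd2)
    rfl (fun _ => rfl) s30_pp_022

noncomputable def f_pp_023 : ℕ → ℕ → ℕ → ℕ → Bool := onCell 1073741824 536870912 0 1230186008 966367641 24778659
    (rowB 3 eng mog cd0q0 cd2q3 pd2 2 false true true .up 0 2 3 (qsf 0 536870912 0 1230186008 2) ndB0q0 ndB2q3 pcB2 Cut.none Ext.none)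

def k0_pp_023 : ∃ t, chk3 f_pp_023 t 2 1 1 = true :=
  ⟨(b (l 2) (b (a (l 2) (b (l 2) (a (l 2) (b (l 2) (a (l 2) (l 16233888)))))) (b (a (l 2) (a (b (a (l 2) (l 16179080)) (a (a (l 16129632) (a (l 16142056) (l 16148928))) (b (l 16169312) (l 16167680)))) (b (a (l 16205280) (l 16222544)) (b (l 16207392) (l 16206064))))) (a (a (b (l 2) (a (l 3) (a (b (a (c (l 16020600) (l 424227041703)) (c (l 16032144) (l 15943336))) (a (b (l 180554366679) (l 174648818023)) (b (l 16008488) (l 16024816)))) (b (a (c (l 16042152) (l 15962608)) (l 16023560)) (a (l 15799560) (l 16048288)))))) (b (a (b (l 2) (a (l 16037440) (l 16070744))) (b (l 16101904) (l 16111176))) (a (b (a (l 16053248) (l 16087064)) (a (l 16078512) (l 16113048))) (b (l 16128224) (l 16134088))))) (a (b (a (a (l 16136864) (b (l 16148272) (l 16157912))) (b (l 16171080) (l 16180816))) (a (a (b (l 16159800) (l 16187136)) (b (l 16175480) (l 16035088))) (b (l 16198416) (l 16226184)))) (b (b (l 16209632) (l 16219848)) (b (a (l 16225968)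 (l 16245456)) (a (l 16252880) (l 16271600))))))))), by decide +kernel⟩

def k1_pp_023 : ∃ t, chk3 f_pp_023 t 6 1 1 = true :=
  ⟨(b (l 2) (a (b (b (l 2) (b (l 16217952) (l 16215216))) (b (b (a (l 16224752) (l 16207088)) (a (l 16225648) (l 16220264))) (b (b (a (l 16231536) (l 16233776)) (l 16243760)) (b (a (l 16256840) (l 16259616)) (a (l 16281672) (l 16283136)))))) (b (b (b (l 16128824) (l 16137008)) (b (l 16143320) (l 16150320))) (b (b (a (l 16178552) (l 16138928)) (a (l 16195176) (l 16159352))) (b (a (b (l 16216712) (l 16234992)) (b (l 16183536) (l 16205944))) (b (a (l 16253224) (c (l 16162696) (l 16198520))) (a (l 16214608) (a (l 16141328) (l 16087088))))))))), by decide +kernel⟩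

def k2_pp_023 : ∃ t, chk3 f_pp_023 t 7 1 1 = true :=
  ⟨(b (b (a (l 2) (b (l 15787704) (l 15656272))) (b (b (a (l 2) (l 15780208)) (a (l 15954032) (l 15789752))) (a (b (l 15964928) (l 15981288)) (b (l 15807296) (l 15830720))))) (b (b (b (a (l 16002904) (l 15858528)) (a (l 16020536) (l 15878024))) (a (b (l 16034928) (a (l 16076744) (l 16017384))) (b (l 15899424) (a (l 15952600) (l 15883272))))) (b (a (b (a (l 16091064) (l 16035696)) (a (l 16114144) (b (l 16053920) (l 16069880)))) (b (a (l 15973600) (l 15907720)) (a (b (l 15994192) (l 16009072)) (b (l 15926464) (l 15939008))))) (b (a (a (b (l 16140528) (l 16144360)) (b (l 16087800) (l 16055912))) (b (a (l 16015144) (a (l 15943704) (l 15895048))) (a (a (l 15981792) (l 15931192)) (c (l 15826176) (l 15865400))))) (a (b (a (c (l 16072752) (l 16103128)) (b (l 16004184) (a (l 15988384) (l 15931704)))) (a (b (l 15920448) (a (l 16004680) (l 15942696))) (b (l 15697960) (a (l 15878248) (l 15809664))))) (b (a (c (l 15703624) (b (l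 15889544) (l 15854920))) (c (b (l 15749424) (l 15666552)) (b (l 15786064) (l 15699344)))) (a (c (b (l 15762008) (l 15523784)) (b (l 15788328) (l 15648128))) (c (b (l 15430056) (a (l 15581624) (l 15510224))) (b (l 15583232) (a (l 15600456) (l 15529712))))))))))), by decide +kernel⟩

theorem s3_pp_023 : ∃ t, chk3 f_pp_023 t 3 1 1 = true := ex3_a k1_pp_023 k2_pp_023

theorem s4_pp_023 : ∃ t, chk3 f_pp_023 t 1 1 1 = true := ex3_a k0_pp_023 s3_pp_023

theorem c_pp_023 : CertB 0 536870912 0 1230186008 966367641 24778659 3 eng mog cd0q0 cd2q3 pd2 false true true .up 0 2 3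
    ndB0q0 ndB2q3 pcB2 Cut.none Ext.none :=
  certB2 (fam := false) (s1 := true) (s2 := true) (a := 0) (b := 2) (c := 3) (cn := .up) (n1 := ndB0q0) (n2 := ndB2q3) (pc := pcB2) (cut := Cut.none) (xt := Ext.none) (P1 := 0) (W1 := 536870912) (P2 := 0) (W2 := 1230186008) (P3 := 966367641) (W3 := 24778659) (N0 := 3) (En := eng) (mo := mog) (C1 := cd0q0) (C2 := cd2q3) (C3 := pd2)
    rfl (fun _ => rfl) s4_pp_023

noncomputable def f_pp_033 : ℕ → ℕ → ℕ → ℕ → Bool := onCell 1610612736 536870912 0 1230186008 966367641 24778659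
    (rowB 3 eng mog cd0q0 cd2q3 pd3 2 false true true .pnn 0 3 3 (qsf 0 536870912 0 1230186008 3) ndB0q0 ndB2q3 pcB3 Cut.none Ext.none)

def k0_pp_033 : ∃ t, chk3 f_pp_033 t 1 2 1 = true :=
  ⟨(b (a (a (a (a (b (l 16150424) (l 16118112)) (l 16019128)) (a (l 16124688) (l 16131064))) (a (a (l 16138224) (l 15994504)) (a (l 6138610695) (l 4)))) (l 4)) (a (b (a (a (b (a (l 16073488) (l 16050584)) (c (l 16174720) (l 15864368))) (b (l 16037720) (a (l 15986944) (l 15978152)))) (a (b (l 16036392) (a (l 15974992) (l 15975352))) (b (a (l 16035904) (l 4)) (a (l 15977648) (l 15960200))))) (a (a (b (a (l 16009448) (l 15955104)) (a (l 15991608) (l 15931064))) (b (a (l 15918944) (l 15903704)) (a (l 15877784) (l 15842368)))) (a (b (a (l 15896888) (l 15895824)) (a (l 15833576) (l 15830640))) (b (a (l 15896472) (l 15886400)) (a (l 15818528) (l 15791776)))))) (a (b (l 4) (a (a (b (l 4) (l 15733048)) (l 4)) (l 4))) (l 4)))), by decide +kernel⟩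

def k1_pp_033 : ∃ t, chk3 f_pp_033 t 1 6 1 = true :=
  ⟨(a (a (b (a (b (c (l 16065912) (l 15817920)) (l 15803112)) (b (a (l 15852728) (l 15658168)) (a (l 15838952) (l 15783224)))) (a (b (a (l 15941256) (l 15882024)) (a (l 15816664) (l 15842200))) (b (a (l 15824248) (l 15760888)) (a (l 15694616) (l 15686488))))) (b (a (b (a (l 15787904) (l 15765120)) (a (l 15734296) (l 15689672))) (b (a (l 15729200) (l 15673816)) (a (l 15631416) (l 15540472)))) (a (b (a (l 15669160) (b (l 15630392) (l 15590176))) (a (b (l 15649824) (l 15614936)) (b (l 15545824) (c (l 15494224) (l 15471880))))) (b (a (b (l 15544784) (l 15484240)) (b (l 15429696) (l 15352016))) (a (b (l 15421568) (a (l 15391808) (l 15316640))) (b (l 15272456) (a (l 15237856) (l 15154616)))))))) (a (b (a (b (a (l 15596376) (b (l 4) (l 15435216))) (a (l 15425056) (a (l 15321576) (l 15243224)))) (l 4)) (a (a (b (b (l 15288112) (l 15195200)) (b (l 15106512) (l 418252908887))) (b (a (l 15116712) (l 15035240)) (a (l 337184314983)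 (l 1)))) (a (b (a (l 14961280) (l 1)) (l 1)) (l 1)))) (l 4))), by decide +kernel⟩

def k2_pp_033 : ∃ t, chk3 f_pp_033 t 4 7 1 = true :=
  ⟨(b (a (b (a (b (l 15906512) (l 15895360)) (c (l 15871512) (l 15733120))) (a (b (l 15883928) (c (l 15848584) (l 15777880))) (b (c (l 15797632) (l 15718984)) (c (l 15726880) (l 15706896))))) (b (a (b (l 15775032) (l 15498264)) (b (l 15683488) (c (l 15618080) (l 15585896)))) (a (b (c (l 15674768) (l 15644400)) (c (a (l 15626640) (l 15554568)) (l 15628672))) (b (c (l 15536712) (l 15564320)) (c (a (l 15480088) (l 15279224)) (l 15417320)))))) (b (a (a (b (c (l 15773896) (l 15771368)) (c (c (l 15487392) (l 15707344)) (l 15537680))) (b (c (a (l 15674688) (l 15603232)) (l 15654232)) (c (c (b (l 15534448) (l 15434448)) (l 15354608)) (b (l 15686784) (l 15559624))))) (a (b (c (c (l 15213992) (l 15372752)) (a (l 15634728) (l 15580008))) (c (a (b (l 15450472) (l 15291624)) (b (l 15335048) (l 15173384))) (b (l 15469840) (l 24189738263)))) (a (b (c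 (l 30631898583) (l 15513424)) (c (b (l 15216584) (l 1)) (l 15205728))) (b (c (b (l 15331984) (l 15278672)) (l 15440072)) (l 1))))) (a (b (a (c (a (b (l 15634096) (l 15511616)) (b (l 15539376) (l 15375552))) (b (l 15625672) (l 15429280))) (c (b (a (l 15402904) (l 15245936)) (c (a (l 15394416) (l 15318600)) (l 15235376))) (a (l 7010008551) (b (l 15564824) (l 15464440))))) (b (a (c (a (l 15303592) (c (l 15405928) (l 15476520))) (c (l 15482032) (l 15668856))) (a (a (c (l 15216776) (l 15539968)) (l 1)) (l 1))) (a (c (a (c (l 179345693991) (l 15485632)) (c (l 90761627351) (l 15410128))) (c (l 15354976) (l 15564024))) (l 1)))) (b (b (a (a (c (l 89687614231) (l 15489656)) (l 1)) (l 1)) (l 1)) (l 1))))), by decide +kernel⟩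

def k3_pp_033 : ∃ t, chk3 f_pp_033 t 5 7 1 = true :=
  ⟨(b (a (b (a (b (l 15418776) (c (l 15477640) (l 15501672))) (b (c (l 15414608) (l 15439168)) (c (l 15327216) (l 15406208)))) (a (b (c (b (l 15410696) (l 15364240)) (l 15475024)) (c (a (l 15162224) (l 15064440)) (l 45664345607))) (b (c (a (l 15190232) (l 15113216)) (l 15338512)) (a (c (l 14967168) (l 15296144)) (l 1))))) (b (a (b (a (l 15325216) (c (l 15224536) (l 15285448))) (c (a (l 15213512) (l 15136328)) (l 179881765943))) (b (c (l 315172926487) (l 15144840)) (l 1))) (l 1))) (a (b (a (a (a (b (b (l 154112126167) (l 1)) (l 1)) (l 1)) (l 1)) (l 1)) (l 1)) (l 1))), by decide +kernel⟩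

def k4_pp_033 : ∃ t, chk3 f_pp_033 t 3 7 1 = true :=
  ⟨(l 1), by decide +kernel⟩

theorem s5_pp_033 : ∃ t, chk3 f_pp_033 t 2 7 1 = true := ex3_a k2_pp_033 k3_pp_033

theorem s6_pp_033 : ∃ t, chk3 f_pp_033 t 1 7 1 = true := ex3_a s5_pp_033 k4_pp_033

theorem s7_pp_033 : ∃ t, chk3 f_pp_033 t 1 3 1 = true := ex3_b k1_pp_033 s6_pp_033

theorem s8_pp_033 : ∃ t, chk3 f_pp_033 t 1 1 1 = true := ex3_b k0_pp_033 s7_pp_033

theorem c_pp_033 : CertB 0 536870912 0 1230186008 966367641 24778659 3 eng mog cd0q0 cd2q3 pd3 false true true .pnn 0 3 3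
    ndB0q0 ndB2q3 pcB3 Cut.none Ext.none :=
  certB2 (fam := false) (s1 := true) (s2 := true) (a := 0) (b := 3) (c := 3) (cn := .pnn) (n1 := ndB0q0) (n2 := ndB2q3) (pc := pcB3) (cut := Cut.none) (xt := Ext.none) (P1 := 0) (W1 := 536870912) (P2 := 0) (W2 := 1230186008) (P3 := 966367641) (W3 := 24778659) (N0 := 3) (En := eng) (mo := mog) (C1 := cd0q0) (C2 := cd2q3) (C3 := pd3)
    rfl (fun _ => rfl) s8_pp_033

noncomputable def f_pp_101 : ℕ → ℕ → ℕ → ℕ → Bool := onCell 536870912 536870912 536870912 536870912 966367641 24778659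
    (rowB 3 eng mog cd0q1 cd2q1 pd0 0 false true true .npn 1 0 1 (qsf 536870912 536870912 536870912 536870912 0) ndB0q1 ndB2q1 pcB0 Cut.none Ext.none)

def k0_pp_101 : ∃ t, chk3 f_pp_101 t 1 1 1 = true :=
  ⟨(a (l 3) (l 5)), by decide +kernel⟩

theorem c_pp_101 : CertB 536870912 536870912 536870912 536870912 966367641 24778659 3 eng mog cd0q1 cd2q1 pd0 false true true .npn 1 0 1
    ndB0q1 ndB2q1 pcB0 Cut.none Ext.none :=
  certB0 (fam := false) (s1 := true) (s2 := true) (a := 1) (b := 0) (c := 1) (cn := .npn) (n1 := ndB0q1) (n2 := ndB2q1) (pc := pcB0) (cut := Cut.none) (xt := Ext.none) (P1 := 536870912) (W1 := 536870912) (P2 := 536870912) (W2 := 536870912) (P3 := 966367641) (W3 := 24778659) (N0 := 3) (En := eng) (mo := mog) (C1 := cd0q1) (C2 := cd2q1) (C3 := pd0)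
    rfl k0_pp_101

noncomputable def f_pp_102 : ℕ → ℕ → ℕ → ℕ → Bool := onCell 536870912 536870912 0 536870912 966367641 24778659
    (rowB 3 eng mog cd0q1 cd2q2 pd0 1 false true true .npp 1 0 2 (qsf 536870912 536870912 1073741824 536870912 0) ndB0q1 ndB2q2 pcB0 Cut.none Ext.none)

def k0_pp_102 : ∃ t, chk3 f_pp_102 t 1 1 1 = true :=
  ⟨(l 3), by decide +kernel⟩

theorem c_pp_102 : CertB 536870912 536870912 1073741824 536870912 966367641 24778659 3 eng mog cd0q1 cd2q2 pd0 false true true .npp 1 0 2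
    ndB0q1 ndB2q2 pcB0 Cut.none Ext.none :=
  certB1 (fam := false) (s1 := true) (s2 := true) (a := 1) (b := 0) (c := 2) (cn := .npp) (n1 := ndB0q1) (n2 := ndB2q2) (pc := pcB0) (cut := Cut.none) (xt := Ext.none) (P1 := 536870912) (W1 := 536870912) (P2 := 1073741824) (W2 := 536870912) (P3 := 966367641) (W3 := 24778659) (N0 := 3) (En := eng) (mo := mog) (C1 := cd0q1) (C2 := cd2q2) (C3 := pd0)
    rfl (fun _ => rfl) k0_pp_102

noncomputable def f_pp_112 : ℕ → ℕ → ℕ → ℕ → Bool := onCell 536870912 536870912 1073741824 536870912 966367641 24778659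
    (rowB 3 eng mog cd0q1 cd2q2 pd1 0 false true true .dn 1 1 2 (qsf 536870912 536870912 1073741824 536870912 1) ndB0q1 ndB2q2 pcB1 Cut.none Ext.none)

def k0_pp_112 : ∃ t, chk3 f_pp_112 t 1 1 1 = true :=
  ⟨(a (l 3) (l 3)), by decide +kernel⟩

theorem c_pp_112 : CertB 536870912 536870912 1073741824 536870912 966367641 24778659 3 eng mog cd0q1 cd2q2 pd1 false true true .dn 1 1 2
    ndB0q1 ndB2q2 pcB1 Cut.none Ext.none :=
  certB0 (fam := false) (s1 := true) (s2 := true) (a := 1) (b := 1) (c := 2) (cn := .dn) (n1 := ndB0q1) (n2 := ndB2q2) (pc := pcB1) (cut := Cut.none) (xt := Ext.none) (P1 := 536870912) (W1 := 536870912) (P2 := 1073741824) (W2 := 536870912) (P3 := 966367641) (W3 := 24778659) (N0 := 3) (En := eng) (mo := mog) (C1 := cd0q1) (C2 := cd2q2) (C3 := pd1)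
    rfl k0_pp_112

noncomputable def cut_pp_113 : Cut := Cut.of [[⟨0, 1, 0, 47710208⟩, ⟨1, 1, 0, 47710208⟩, ⟨2, 2, 0, 8388608⟩]]

noncomputable def f_pp_113 : ℕ → ℕ → ℕ → ℕ → Bool := onCell 536870912 536870912 0 1230186008 966367641 24778659
    (rowB 3 eng mog cd0q1 cd2q3 pd1 2 false true true .nn 1 1 3 (qsf 536870912 536870912 0 1230186008 1) ndB0q1 ndB2q3 pcB1 cut_pp_113 Ext.none)

def k0_pp_113 : ∃ t, chk3 f_pp_113 t 1 1 1 = true :=
  ⟨(a (b (l 2) (b (l 3) (b (l 3) (l 3)))) (a (b (l 2) (b (l 3) (l 3))) (b (a (l 3) (a (l 3) (b (b (l 6) (l 3)) (l 3)))) (b (l 3) (l 3))))), by decide +kernel⟩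

theorem c_pp_113 : CertB 536870912 536870912 0 1230186008 966367641 24778659 3 eng mog cd0q1 cd2q3 pd1 false true true .nn 1 1 3
    ndB0q1 ndB2q3 pcB1 cut_pp_113 Ext.none :=
  certB2 (fam := false) (s1 := true) (s2 := true) (a := 1) (b := 1) (c := 3) (cn := .nn) (n1 := ndB0q1) (n2 := ndB2q3) (pc := pcB1) (cut := cut_pp_113) (xt := Ext.none) (P1 := 536870912) (W1 := 536870912) (P2 := 0) (W2 := 1230186008) (P3 := 966367641) (W3 := 24778659) (N0 := 3) (En := eng) (mo := mog) (C1 := cd0q1) (C2 := cd2q3) (C3 := pd1)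
    rfl (fun _ => rfl) k0_pp_113

end Pool.Agent.Strip051.G.I9000_9231.Tab.C.BB02

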