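import Pool.Agent.Strip051.G.I9000_9231.Tab
import Pool.Agent.Strip051.PB.ExtD2

/-! # Certificates B12 (generated) -/

set_option linter.all false
set_option maxRecDepth 100000

namespace Pool.Agent.Strip051.G.I9000_9231.Tab.C.BB02

open Pool.Agent.Strip051.PB Pool.Agent.Strip051.PB.T
open Pool.Agent.Strip051.G.I9000_9231.Tab

noncomputable def cut_pp_123 : Cut := Cut.of [[⟨0, 1, 0, 47710208⟩, ⟨1, 1, 0, 47710208⟩, ⟨2, 2, 0, 8388608⟩]]

noncomputable def xt_pp_123 : Ext := extD2 3 ⟨4, 1, 1, 5, 37, 10, 843, 1000, 41, 100, 1, 8⟩ eng cd0q1 cd2q3 pd2 false true true .npn 1 2 3 rfl ndB0q1 ndB2q3 pcB2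

noncomputable def f_pp_123 : ℕ → ℕ → ℕ → ℕ → Bool := onCell 1073741824 536870912 0 1230186008 966367641 24778659
    (rowB 3 eng mog cd0q1 cd2q3 pd2 2 false true true .npn 1 2 3 (qsf 536870912 536870912 0 1230186008 2) ndB0q1 ndB2q3 pcB2 cut_pp_123 xt_pp_123)

def k0_pp_123 : ∃ t, chk3 f_pp_123 t 32 8 1 = true :=
  ⟨(l 6), by decide +kernel⟩

def k1_pp_123 : ∃ t, chk3 f_pp_123 t 128 18 1 = true :=
  ⟨(l 3), by decide +kernel⟩

def k2_pp_123 : ∃ t, chk3 f_pp_123 t 129 36 1 = true :=
  ⟨(b (b (l 6) (a (a (b (a (l 3) (a (l 3) (a (c (l 417853336103) (l 424295789527)) (c (b (l 317995344039) (l 380809240823)) (b (c (l 332490860087) (l 350744472919)) (l 389936050039)))))) (l 3)) (c (a (a (b (a (l 16773088) (l 16773400)) (a (a (l 386714820647) (l 323364052759)) (l 270750703047))) (b (l 16772888) (l 16767888))) (l 16771960)) (a (a (b (c (l 16773448) (l 16774600)) (a (b (a (l 378124889495) (l 16773952)) (l 396915371943)) (a (l 300278607367) (l 16775192)))) (c (l 16774504) (l 16770304))) (l 16774720)))) (a (a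 (a (l 16772608) (l 16772200)) (l 16771768)) (l 16771544)))) (a (a (l 3) (a (a (a (l 3) (b (b (c (l 364166242247) (c (l 376514275303) (l 381346115719))) (l 3)) (l 3))) (b (b (c (c (l 16771648) (l 16772512)) (c (l 16773904) (l 304036703911))) (c (c (l 335712081575) (l 344302018327)) (a (c (l 382419855175) (l 386714824983)) (b (l 16775216) (l 314774122087))))) (a (l 3) (b (c (l 375440531063) (c (l 387788564327) (l 387788565495))) (l 3))))) (b (c (c (l 16770560) (l 16770448)) (c (l 16772992) (b (l 16775536) (l 16773000)))) (a (b (c (a (l 289541184455) (l 16773040)) (c (l 299204863527) (l 311552896903))) (c (a (l 381346110935) (l 295446764327)) (a (b (l 377588019479) (l 421611434951)) (b (l 16775288) (l 328732766327))))) (c (b (l 16772512) (l 16770160)) (c (l 16769224) (l 16773104))))))) (a (a (b (c (l 16771024) (l 16774488)) (c (l 16771560) (l 16774760))) (b (b (l 16771776) (l 16761416)) (l 16761656))) (c (l 16758160) (l 16763192))))), by decide +kernel⟩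

def k3_pp_123 : ∃ t, chk3 f_pp_123 t 129 37 1 = true :=
  ⟨(b (a (a (l 3) (a (l 3) (a (b (b (c (c (l 389399175495) (l 395304757495)) (c (l 401210339575) (l 406579048167))) (l 3)) (l 3)) (b (b (c (c (l 284172472263) (l 295446764279)) (c (l 306721056375) (c (l 317458475719) (l 322827186359)))) (c (c (l 351818207591) (l 358260661543)) (c (l 365776857255) (c (l 367924339047) (l 372219310151))))) (b (c (l 399599720919) (c (l 407652790743) (l 412484626135))) (l 3)))))) (a (c (b (a (c (b (l 16771256) (l 16766328)) (l 16771536)) (l 16770640)) (a (a (b (c (l 292762406279) (l 303499827671)) (c (l 359334399799) (l 365776854071))) (c (l 16766376) (l 16767840))) (l 16771240))) (b (a (a (b (l 16775112) (l 16775296)) (l 16774968)) (l 16774600)) (a (a (b (c (l 313700378407) (c (l 323900927239) (l 329806508791))) (c (l 367387469255) (c (l 373829919575) (l 378124888247)))) (c (l 16771968) (l 16773528))) (l 16775000)))) (a (b (l 16761120) (l 16761576)) (b (l 16770800) (l 16760608))))) (a (l 3) (a (a (a (b (b (c (l 406579039943)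 (c (l 413558371095) (l 418390212119))) (l 3)) (l 3)) (b (b (c (a (l 323364051447) (l 16772640)) (c (l 321216571463) (b (l 16775112) (l 347523249959)))) (c (a (l 407115915671) (l 329269631399)) (c (l 373829917943) (c (l 379735505511) (l 383493598215))))) (b (c (l 413021495991) (l 423222049575)) (l 3)))) (a (b (c (c (l 16768816) (l 16770440)) (c (l 16772120) (l 16773848))) (b (c (c (l 311016016247) (l 320679696839)) (c (l 329269635559) (l 337322703639))) (c (c (l 362555627879) (l 370608694839)) (c (l 378661756663) (c (l 384567344551) (l 388325437447)))))) (c (b (l 16771496) (c (l 16768648) (l 16770464))) (b (l 16775352) (c (l 16772336) (l 16776224)))))) (c (a (a (b (l 16770736) (l 16771416)) (l 16770280)) (l 16769112)) (b (l 16769440) (c (l 16773976) (l 16776552))))))), by decide +kernel⟩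

def k4_pp_123 : ∃ t, chk3 f_pp_123 t 64 19 1 = true :=
  ⟨(a (l 3) (a (l 3) (b (b (b (a (a (l 3) (a (b (l 3) (l 3)) (b (c (c (l 322290305127) (l 331417115223)) (c (l 340007054695) (l 350207606519))) (c (c (l 371145562247) (l 376514275079)) (c (l 383493595527) (l 391009797495)))))) (c (a (a (c (l 16769504) (l 16771848)) (l 16771384)) (l 16770216)) (a (a (c (l 16774592) (l 306184192551)) (l 16776048)) (l 16775632)))) (a (l 3) (c (a (a (b (c (l 328195884807) (l 335712082951)) (c (l 381882980327) (l 386714822743))) (c (l 274508792935) (l 286319958791))) (c (l 16769720) (l 16772328))) (a (a (b (c (l 344838893623) (l 353428833927)) (c (l 392083536183) (l 399599733415))) (c (l 299741737207) (b (l 16777808) (l 16776896)))) (c (l 16775016) (l 16777784)))))) (a (l 3) (a (a (l 3) (b (b (c (c (l 331953981255) (l 340007050791)) (c (l 348596991223) (l 356113190231))) (c (c (l 392620398535) (l 397452241447)) (c (l 402820955415) (l 410337153191)))) (l 3))) (a (b (b (c (l 16772040) (l 16777160)) (c (c (l 16769288)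 (l 16771120)) (c (l 16774992) (l 318532226695)))) (b (c (c (l 336785819495) (l 344302018791)) (c (l 351818218087) (c (l 361481897543) (l 364703126391)))) (c (c (l 403894687783) (l 408189660311)) (c (l 413558374823) (l 422148314967))))) (b (c (l 16771480) (l 16777104)) (b (c (l 16772184) (c (l 16776368) (l 16779264))) (c (c (l 286856824087) (l 298667990935)) (c (l 309942287047) (l 321753454247))))))))) (b (b (a (l 3) (a (l 3) (a (l 3) (b (c (c (l 341080787143) (l 348060116055)) (c (l 356113186631) (c (l 363629383335) (l 367924354135)))) (c (c (l 415168977191) (l 419463950263)) (c (l 424832665335) (l 434496347879))))))) (l 3)) (l 3))))), by decide +kernel⟩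

def k5_pp_123 : ∃ t, chk3 f_pp_123 t 65 18 1 = true :=
  ⟨(a (b (b (l 16749568) (l 16754216)) (a (a (b (l 16749320) (a (b (l 16749640) (l 16750120)) (l 16749144))) (l 16748688)) (l 16747744))) (b (l 16767152) (l 16745328))), by decide +kernel⟩

def k6_pp_123 : ∃ t, chk3 f_pp_123 t 65 38 1 = true :=
  ⟨(a (a (a (a (c (b (l 16758520) (b (l 16770304) (c (l 16764472) (l 16772800)))) (b (l 16775400) (b (l 16776664) (c (l 16775992) (l 16779272))))) (b (b (l 16749760) (l 16750472)) (c (l 16761272) (l 16766008)))) (b (c (l 16765840) (l 16774096)) (a (b (l 16771144) (l 16751136)) (a (l 16755080) (l 16749344))))) (b (l 16768872) (b (l 16769200) (l 16748472)))) (l 16745584)), by decide +kernel⟩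

def k7_pp_123 : ∃ t, chk3 f_pp_123 t 65 78 1 = true :=
  ⟨(a (a (a (c (b (a (b (c (l 16767848) (l 16768328)) (a (c (l 291688662567) (l 301889217527)) (l 16772152))) (l 16770688)) (a (c (b (a (a (l 410337138839) (l 310479144647)) (l 16771104)) (a (l 426443261559) (b (l 16768920) (l 302962952327)))) (b (a (c (l 346449504471) (l 351281345783)) (l 16774352)) (a (l 431275111335) (c (l 307257923543) (l 312089765879))))) (c (l 16769376) (l 16773632)))) (b (a (b (c (l 16776768) (l 16780064)) (a (c (l 314237255671) (c (l 324974677687) (l 329806519783))) (l 16778816))) (l 16778064)) (a (c (b (a (c (l 356113187143) (l 360945025927)) (l 16777688)) (a (l 437717568791) (b (l 16775520) (l 322827192455)))) (b (a (a (l 431811994007) (l 338396455847)) (l 16781128)) (a (c (l 441475670183) (l 445770640871)) (c (l 327659034695) (l 333027747831))))) (c (l 16777344) (l 16781168))))) (c (b (l 16768232) (a (l 16770208) (l 16768560))) (b (l 16777072) (l 16767776)))) (a (c (b (l 16765368) (l 16766224)) (l 16765912)) (l 16769848)))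 (l 16746880)), by decide +kernel⟩

def k8_pp_123 : ∃ t, chk3 f_pp_123 t 130 158 1 = true :=
  ⟨(a (a (a (a (l 3) (b (c (c (a (l 424295777863) (a (l 374366783879) (l 16770072))) (c (l 350744468807) (l 355576310391))) (c (c (l 359871282423) (b (l 356113189783) (l 379735512647))) (a (l 447381254023) (b (l 16782200) (l 357723811255))))) (c (c (c (l 437180684039) (l 439328171063)) (l 443086270007)) (c (l 450602473127) (c (l 454360569047) (l 459729287111)))))) (a (c (c (b (l 16768776) (a (b (l 16770136) (l 340007046007)) (l 16769200))) (b (l 16772280) (c (l 310479150359) (l 315847863799)))) (b (c (l 16778512) (l 16782232)) (c (c (l 320679706455) (b (l 16779936) (l 332490870903))) (a (b (l 319605976935) (c (l 362555646359) (l 366850617895))) (l 16782872))))) (c (c (l 16768192) (l 16774552)) (c (l 16778408) (l 16782376))))) (c (c (a (l 16769440) (l 16767584)) (l 16772840)) (c (l 16777288) (l 16781872)))) (a (c (l 16767336) (l 16778184)) (l 16749864))), by decide +kernel⟩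

def k9_pp_123 : ∃ t, chk3 f_pp_123 t 130 159 1 = true :=
  ⟨(a (a (a (l 3) (a (a (b (b (c (c (l 431275105495) (l 437717563511)) (c (l 444696892647) (l 455971190599))) (l 3)) (l 3)) (b (c (b (c (l 289541180167) (l 300278607479)) (c (a (l 430201361447) (l 307257920567)) (l 350207603079))) (b (c (l 311016034663) (c (l 322290328199) (l 327659041831))) (c (c (l 353428836423) (l 363092513991)) (c (l 365776873223) (c (l 370071842775) (l 371682457799)))))) (b (c (c (l 439865036647) (l 445770627959)) (c (l 452749957383) (c (l 458655543223) (l 462950511847)))) (l 3)))) (b (c (c (c (l 16770896) (l 16772752)) (c (l 16774632) (l 16776544))) (c (c (l 16778480) (l 16780448)) (c (l 16782440) (l 16781848)))) (b (c (c (a (b (l 16770512) (c (l 291151794871) (l 298667991143))) (l 16772120)) (c (l 284709351447) (l 292225547911))) (c (c (l 303499838551) (l 308868552359)) (a (c (l 325511555095) (c (l 330880266551) (l 333564623463))) (l 16783976)))) (a (a (c (c (l 435033198535) (l 448454980871)) (c (l 450065603047) (c (l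 455434318263) (l 8388132858066276168312247823)))) (c (c (c (l 304573567799) (l 311016022455)) (l 322290316215)) (c (b (l 16779704) (l 346986387527)) (c (l 341617683191) (a (l 420000841079) (l 317458499591)))))) (c (c (l 16770520) (l 16775024)) (c (l 16780296) (l 16785112)))))))) (c (a (c (c (b (l 16769456) (l 16770160)) (l 16769208)) (c (l 16771264) (l 16773360))) (l 16771248)) (a (c (c (l 16775480) (l 16780256)) (c (l 16782440) (l 16784656))) (l 16780688)))) (a (c (l 16768768) (l 16779640)) (l 16751008))), by decide +kernel⟩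

def k10_pp_123 : ∃ t, chk3 f_pp_123 t 131 79 1 = true :=
  ⟨(l 16748384), by decide +kernel⟩

def k11_pp_123 : ∃ t, chk3 f_pp_123 t 33 4 1 = true :=
  ⟨(b (l 6) (a (b (a (l 16720072) (l 16756792)) (b (l 16718120) (l 16720624))) (b (l 16747464) (b (l 16748888) (l 16732008))))), by decide +kernel⟩

def k12_pp_123 : ∃ t, chk3 f_pp_123 t 17 4 1 = true :=
  ⟨(b (a (a (l 16694520) (l 16718752)) (l 16694760)) (a (b (c (l 16716176) (l 16736712)) (a (l 16738640) (l 16704472))) (b (l 16695456) (l 16684712)))), by decide +kernel⟩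

def k13_pp_123 : ∃ t, chk3 f_pp_123 t 9 4 1 = true :=
  ⟨(a (b (a (l 16643248) (l 16634376)) (a (l 16669696) (l 16642736))) (b (l 16510040) (c (l 16499056) (l 16625024)))), by decide +kernel⟩

def k14_pp_123 : ∃ t, chk3 f_pp_123 t 5 4 1 = true :=
  ⟨(a (b (a (l 16539752) (l 16479264)) (a (l 16512208) (l 16494280))) (b (l 16248368) (a (l 16427288) (l 16354176)))), by decide +kernel⟩

def k15_pp_123 : ∃ t, chk3 f_pp_123 t 3 4 1 = true :=
  ⟨(a (a (b (l 16216648) (l 16095592)) (b (l 16054368) (l 16042800))) (a (b (l 15890528) (l 15922952)) (b (l 15766744) (l 15593208)))), by decide +kernel⟩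

def k16_pp_123 : ∃ t, chk3 f_pp_123 t 64 20 1 = true :=
  ⟨(l 3), by decide +kernel⟩

def k17_pp_123 : ∃ t, chk3 f_pp_123 t 520 160 1 = true :=
  ⟨(a (l 3) (a (l 3) (a (a (l 3) (b (b (b (c (c (l 438254425607) (l 440401918823)) (c (l 448454990487) (c (l 442549418439) (l 439865068631)))) (l 3)) (l 3)) (l 3))) (a (b (b (c (c (b (l 279340633623) (c (l 328732758935) (l 334101471767))) (b (l 16775552) (l 6183051256748814258270430927))) (c (c (l 329806517783) (l 339470195511)) (c (b (l 16783680) (l 354502589095)) (b (l 319069112903) (a (l 431275134343) (l 328732789895)))))) (a (l 3) (b (c (c (c (l 370608689719) (l 374366789799)) (b (l 366850602295) (l 414632114983))) (c (c (l 381346125639) (l 389936061287)) (b (c (l 380809260455) (c (l 384567359367) (c (l 380272396823) (l 387251716375)))) (c (l 422148324071) (l 431275133847))))) (l 3)))) (l 3)) (b (c (b (c (l 16770776) (l 16776632)) (c (b (c (c (l 16771456) (l 16772400)) (l 257328930855)) (c (l 333564596087) (l 338933308855))) (b (c (l 16775768) (l 16777728))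 (c (l 342691409687) (l 346449510871))))) (b (c (l 16779984) (b (l 16784656) (l 16785360))) (c (b (c (l 295446779351) (l 284709362439)) (c (l 350207611927) (l 359871289191))) (b (b (c (l 16783896) (l 16785496)) (a (c (l 16783704) (l 340543949767)) (l 16784704))) (c (l 363092519495) (c (l 367387489191) (c (l 369534973975) (l 370608717063)))))))) (b (b (b (c (c (l 387251688007) (l 390472922999)) (c (l 396915381223) (c (l 402284099047) (l 412484650567)))) (l 3)) (l 3)) (l 3))))))), by decide +kernel⟩

def k18_pp_123 : ∃ t, chk3 f_pp_123 t 521 160 1 = true :=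
  ⟨(b (c (a (c (a (b (l 16769560) (a (b (l 16769920) (l 16770376)) (l 16771992))) (l 16766056)) (a (b (l 16773592) (c (l 16772560) (l 16775232))) (l 16770288))) (c (l 16769928) (l 16774504))) (a (a (b (c (l 16780368) (l 16784648)) (c (c (l 16777928) (l 16780656)) (a (b (l 16785576) (c (l 16783256) (l 16785336))) (l 16784432)))) (c (l 16779888) (l 16784376))) (b (l 16781704) (l 16781576)))) (c (a (c (a (b (a (a (c (b (l 16771336) (l 337859562183)) (l 279877507447)) (l 16769632)) (l 16771592)) (a (b (a (l 396915363191) (l 235317215831)) (c (l 368998075511) (l 374903657799))) (l 16768888))) (l 16765472)) (a (a (b (a (b (l 257328934375) (l 351818214055)) (l 16774376)) (c (l 358260664007) (l 361481894023))) (b (l 16775440) (l 16773536))) (l 16769400))) (c (l 16769352) (l 16773624))) (a (a (b (c (a (a (c (l 318532226791) (l 302962971431)) (l 16779560)) (l 16779400)) (a (b (c (l 273435075911) (c (l 270213852903) (l 275582564391))) (a (c (l 367387484535) (c (l 371145583287) (l 373293069175))) (l 16783800)))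 (l 16783480))) (a (a (b (c (l 401210348871) (c (l 406042193111) (l 410337162311))) (l 3)) (c (c (l 322290321783) (l 302426098359)) (b (c (l 283098750087) (l 297594269431)) (c (l 371145578615) (c (l 374903677351) (l 376514292343)))))) (c (l 16778456) (c (l 16781520) (l 16782184))))) (c (l 16778688) (l 16782856))) (c (l 16778032) (l 16782576))))), by decide +kernel⟩

def k19_pp_123 : ∃ t, chk3 f_pp_123 t 261 160 1 = true :=
  ⟨(a (c (a (l 16759728) (l 16768560)) (a (l 16759328) (l 16779600))) (c (l 16766160) (l 16778640))), by decide +kernel⟩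

def k20_pp_123 : ∃ t, chk3 f_pp_123 t 130 161 1 = true :=
  ⟨(a (a (l 3) (a (a (a (b (b (b (c (c (l 403894686055) (l 408726531207)) (c (l 413021508295) (c (l 416242736663) (l 418390224039)))) (l 3)) (l 3)) (l 3)) (b (b (c (c (a (b (l 237464697863) (l 355039426903)) (l 16770640)) (c (l 252497087911) (l 289004318887))) (c (c (l 272898191591) (c (l 271287581095) (l 275045679639))) (c (c (l 281488132935) (l 287393715239)) (a (b (l 295983654247) (a (l 407652806119) (l 311016038551))) (l 16782440))))) (c (c (a (l 412484613831) (a (l 292762400119) (l 241222792359))) (c (l 362018757799) (l 364703116727))) (c (c (l 375440533975) (l 377588022087)) (a (c (l 417316475847) (l 419463963079)) (c (l 312626645767) (b (l 294373039015) (l 381882996583))))))) (b (c (c (l 409800263191) (l 414095236855)) (c (l 417853338487) (c (l 421074570343) (l 423222057415)))) (l 3)))) (b (c (c (b (l 16767464) (c (l 16768800) (l 16770504))) (c (l 16769904) (l 16771712))) (c (c (l 16773544) (l 16776720)) (b (l 16781376) (c (l 16776816)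 (l 16780648))))) (b (c (c (a (c (l 257328921031) (l 266455729543)) (l 16768984)) (c (l 4248769743315859814148499151) (l 244980895815))) (c (a (c (l 271287574711) (l 287393706343)) (l 16775752)) (a (a (c (l 311016030631) (b (l 292762423735) (l 385641090503))) (b (l 16779624) (l 16778448))) (l 16779296)))) (a (c (c (c (l 358797522503) (l 362555621991)) (a (l 414095236199) (l 290614921351))) (c (c (l 379198626231) (l 382419855735)) (c (c (l 380809248711) (l 382419863095)) (c (l 6995450215007204338997433871) (b (l 381346122135) (l 402820960535)))))) (c (c (l 16768528) (l 16771672)) (c (l 16773600) (c (l 16777408) (l 16779096)))))))) (c (c (b (l 16758024) (l 16765008)) (c (l 16765608) (l 16767496))) (c (b (l 16776448) (l 16774800)) (c (l 16773336) (b (l 16781656) (l 16779504))))))) (a (c (a (l 16757832) (l 16766680)) (a (l 16766464) (l 16776280))) (c (l 16764176) (l 16775216)))), by decide +kernel⟩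

def k21_pp_123 : ∃ t, chk3 f_pp_123 t 131 80 1 = true :=
  ⟨(a (c (l 16741424) (l 16754592)) (l 16746496)), by decide +kernel⟩

def k22_pp_123 : ∃ t, chk3 f_pp_123 t 260 81 1 = true :=
  ⟨(a (l 3) (b (b (a (a (l 3) (a (b (l 3) (l 3)) (c (b (c (c (l 306721042407) (l 313163496103)) (c (l 317995338455) (l 322290309943))) (c (l 365239966935) (l 377051134535))) (b (c (c (l 335712079895) (l 339470180359)) (c (l 344302022535) (b (l 332490866343) (l 358260668967)))) (a (l 3) (c (l 362018756247) (c (l 369534952807) (l 372756182119)))))))) (c (c (c (l 187535691687) (l 16764864)) (c (l 16766432) (l 16768680))) (c (a (c (l 16767264) (l 16771472)) (l 16772872)) (a (c (l 16774392) (b (l 16777896) (l 16774144))) (l 16776336))))) (a (l 3) (c (c (a (c (b (l 285246203703) (l 318532199383)) (b (l 292762398903) (l 324974652551))) (l 16765304)) (a (a (b (l 330880233751) (l 381346097767)) (l 16766032)) (l 16768152))) (c (a (c (b (l 317995335671) (l 346449492087)) (b (l 323364048391) (l 350744462887))) (l 16771104)) (a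 (a (b (c (l 348060114039) (c (l 352355083175) (l 354502568615))) (c (l 392083526487) (l 392083530023))) (c (l 16770928) (l 16773696))) (l 16774144)))))) (a (l 3) (a (a (l 3) (b (c (b (c (l 316921586119) (l 334101455111)) (c (l 370071806663) (l 375977392679))) (b (c (l 343228267351) (c (l 350744463607) (l 355576305047))) (c (l 389936034583) (c (l 395304746983) (l 394231011415))))) (l 3))) (c (b (c (l 16761352) (l 225116659591)) (b (c (l 301889190103) (l 312089743687)) (c (l 334638314311) (l 342691383863)))) (b (c (c (l 16768632) (l 16764680)) (c (l 16768608) (l 269140088119))) (a (b (c (l 346449488007) (c (l 353965683959) (l 358260654343))) (c (l 393157255191) (l 397989099287))) (c (l 252497077991) (c (l 16763712) (l 16767464)))))))))), by decide +kernel⟩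

def k23_pp_123 : ∃ t, chk3 f_pp_123 t 261 81 1 = true :=
  ⟨(c (a (a (b (c (l 16753936) (l 16767832)) (a (c (l 16757648) (l 16760120)) (l 16763336))) (c (l 16761608) (l 16765080))) (b (l 16762032) (l 16759712))) (a (b (c (l 16770912) (l 16769544)) (a (c (b (l 16768648) (l 16761528)) (b (l 16771632) (l 16769312))) (l 16768480))) (b (l 16771488) (l 16767512)))), by decide +kernel⟩

def k24_pp_123 : ∃ t, chk3 f_pp_123 t 131 81 1 = true :=
  ⟨(a (a (c (l 16736872) (l 16747336)) (l 16740680)) (l 16760696)), by decide +kernel⟩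

def k25_pp_123 : ∃ t, chk3 f_pp_123 t 65 82 1 = true :=
  ⟨(a (b (a (b (a (l 3) (a (l 3) (a (l 3) (a (l 3) (c (c (l 354502535815) (l 360944992279)) (b (c (l 349670708567) (c (l 356650033287) (l 360945003335))) (c (l 396378475767) (l 401210318983)))))))) (l 3)) (a (c (a (a (b (c (l 16757376) (l 16760520)) (c (c (l 323900887655) (l 328195857335)) (c (l 332490827031) (l 336248926023)))) (c (l 16754624) (l 16756480))) (b (l 16739296) (l 16748480))) (a (a (b (c (c (l 16764560) (l 16760288)) (c (l 16763888) (l 275582528327))) (c (c (l 340543895783) (l 344838865575)) (c (b (l 334638320743) (l 360944992983)) (b (l 339470161431) (l 364703091479))))) (c (l 16758400) (b (l 16766856) (l 16753928)))) (c (l 16763024) (l 16765400)))) (c (l 16757232) (l 16763296)))) (a (l 3) (a (a (a (b (c (c (l 370071784855) (l 377587981031)) (a (l 3) (c (l 371682406167) (b (l 363092475703) (l 402820924743))))) (l 3)) (c (b (c (l 16752944) (l 16755448)) (c (b (l 309942238903) (l 342691362887)) (c (l 334638302519) (l 338933271591))))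 (b (c (l 258939514295) (c (l 16758968) (l 278803742279))) (c (c (l 342691369927) (l 347523209783)) (c (b (l 337322664135) (l 363629336455)) (b (l 342154504471) (l 367387434583))))))) (c (c (l 16751040) (l 16755648)) (c (c (l 16748152) (l 16748856)) (c (l 16749576) (l 16760800))))) (c (a (l 16755392) (l 16753816)) (a (l 16759152) (l 16758568)))))) (a (a (c (l 16752680) (l 16759840)) (b (l 16756048) (l 16731424))) (l 16753144))), by decide +kernel⟩

def k26_pp_123 : ∃ t, chk3 f_pp_123 t 65 83 1 = true :=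
  ⟨(a (a (l 3) (a (a (a (l 3) (b (b (c (c (l 372756131623) (l 379735454231)) (a (l 3) (c (l 375977362967) (b (l 368998044039) (l 408189623223))))) (l 3)) (l 3))) (a (b (c (b (c (l 16749720) (l 16751544)) (c (l 330343325863) (l 338396391687))) (b (c (l 265918825991) (c (l 16753848) (l 286319923447))) (c (c (l 345375714679) (l 349133812167)) (c (b (l 340007007847) (l 366313679911)) (b (l 344301976215) (l 367387420439)))))) (b (c (c (l 375977360903) (l 382419800727)) (c (c (l 387251648967) (l 393157228711)) (c (l 397452185239) (l 401747157495)))) (l 3))) (b (c (c (l 16743000) (l 16748768)) (c (l 16749328) (c (l 16744536) (l 16744840)))) (c (b (c (l 16745088) (l 249812686215)) (c (l 333564543303) (l 341080737111))) (b (c (c (l 16746096) (l 16747336)) (c (l 281488072119) (l 294372975191))) (c (c (l 346986317543) (l 351281285207)) (c (b (l 342154480183) (l 365776804823)) (b (l 346986318711) (l 370071763527))))))))) (b (c (c (l 16740792) (l 16741928)) (c (l 16753608) (l 16754856))) (a (c (c (l 16744480) (b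 (l 16750536) (l 16738328))) (c (c (l 16739168) (l 16739160)) (c (l 16744400) (l 16744408)))) (c (l 16737712) (l 16749168)))))) (c (a (a (c (l 16746496) (l 16748168)) (l 16744176)) (l 16741392)) (a (a (c (l 16749912) (l 16751728)) (l 16749752)) (l 16748696)))), by decide +kernel⟩

def k27_pp_123 : ∃ t, chk3 f_pp_123 t 33 20 1 = true :=
  ⟨(a (b (b (l 16721200) (l 16715080)) (a (c (l 16742136) (l 16752992)) (l 16723624))) (b (l 16710216) (l 16739648))), by decide +kernel⟩

def k28_pp_123 : ∃ t, chk3 f_pp_123 t 64 42 1 = true :=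
  ⟨(l 3), by decide +kernel⟩

def k29_pp_123 : ∃ t, chk3 f_pp_123 t 260 42 1 = true :=
  ⟨(l 3), by decide +kernel⟩

def k30_pp_123 : ∃ t, chk3 f_pp_123 t 261 84 1 = true :=
  ⟨(b (b (a (a (l 3) (a (l 3) (c (c (l 378661708631) (l 388325372519)) (c (c (l 397989057863) (l 403357765959)) (c (l 407652721735) (l 411947693239)))))) (c (a (a (c (l 16742352) (l 258939482535)) (l 16736600)) (l 16745976)) (a (c (c (l 267529417351) (l 278803706727)) (a (b (l 16741024) (c (l 318532151303) (l 323900860391))) (l 16745496))) (l 16724512)))) (a (l 3) (c (a (c (a (l 335175149159) (l 16746112)) (c (l 310479086359) (l 315847795063))) (l 16733968)) (a (c (a (c (l 349133791447) (l 353428758695)) (l 16733352)) (a (c (b (l 344838823527) (l 368461137943)) (b (l 349133790727) (l 6743993267233799087988642831))) (l 16737456))) (l 16737712))))) (a (l 3) (a (a (a (l 3) (b (a (l 3) (b (c (l 348060047175) (c (l 358797462871) (l 366313654407))) (l 3))) (l 3))) (c (b (c (l 243907089863) (l 264845054455)) (c (l 338396367863) (c (l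 344301945799) (l 348060041127)))) (b (c (b (l 16736840) (l 313700303943)) (c (l 299204790311) (b (l 16740160) (l 327122074199)))) (c (c (l 351818136679) (l 353428747095)) (a (c (l 404968350023) (l 409263320327)) (b (l 285246140935) (a (l 372756097015) (l 294372943751)))))))) (c (c (l 16738576) (c (l 16731208) (l 16730440))) (c (c (l 16729672) (l 16734152)) (b (l 16729216) (a (l 16731536) (l 16736704)))))))), by decide +kernel⟩

def k31_pp_123 : ∃ t, chk3 f_pp_123 t 261 85 1 = true :=
  ⟨(a (l 3) (b (b (c (a (c (l 391546586359) (l 401210257639)) (a (c (l 248202050247) (l 271287497207)) (l 16728744))) (a (b (c (l 411410803559) (c (l 417853248087) (l 421611347159))) (l 3)) (c (a (c (l 284172396375) (l 293836071287)) (l 16735904)) (a (a (b (l 289541102439) (c (l 348060029175) (l 352354994727))) (l 16728464)) (l 16733656))))) (a (l 3) (c (c (a (l 340543845079) (l 16738880)) (c (l 313163424679) (l 317995261175))) (c (a (c (l 351818123559) (b (l 346986286599) (l 371682353415))) (l 16728104)) (a (c (b (l 351281251975)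 (l 375440436151)) (b (a (l 406042088695) (l 16725392)) (a (l 3) (l 355039343511)))) (c (l 16731232) (l 16719320))))))) (a (l 3) (a (b (b (c (c (l 386177880407) (l 396378421111)) (c (l 407115822151) (c (l 413021407543) (l 416779490007)))) (l 3)) (l 3)) (c (b (c (l 256791978775) (b (l 16724112) (l 309405321639))) (c (l 343228192935) (c (l 350207509047) (l 350207514343)))) (b (c (c (l 290077966471) (l 299741640487)) (c (b (l 16723688) (l 328732664759)) (b (l 296520410807) (a (l 357723691431) (l 16725568))))) (c (c (l 355039338167) (b (l 350744371927) (l 375440437943))) (c (b (a (l 406578949943) (l 16720520)) (l 379198524967)) (b (a (l 410337031943) (l 307794693399)) (a (l 3) (l 360944910583))))))))))), by decide +kernel⟩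

def k32_pp_123 : ∃ t, chk3 f_pp_123 t 131 42 1 = true :=
  ⟨(a (b (c (a (b (l 16732480) (b (l 16719688) (l 16728576))) (l 16738352)) (a (b (l 16743512) (b (l 16718704) (l 16726520))) (l 16739960))) (b (c (a (c (l 16726992) (l 16730392)) (l 16733552)) (a (a (c (l 16713152) (l 16731984)) (l 16732616)) (l 16731896))) (c (a (a (c (c (l 16725704) (l 16724096)) (c (l 16722480) (l 16720856))) (l 16721840)) (l 16709136)) (a (b (a (c (l 16719728) (l 16716704)) (l 16728280)) (a (a (c (l 16722440) (c (l 16714376) (l 16712472))) (l 16720360)) (l 16704320))) (l 16726112))))) (a (b (c (l 16735376) (l 16739016)) (c (l 16728752) (l 16728000))) (b (l 16735856) (c (l 16726000) (l 16727096))))), by decide +kernel⟩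

def k33_pp_123 : ∃ t, chk3 f_pp_123 t 64 43 1 = true :=
  ⟨(l 3), by decide +kernel⟩

def k34_pp_123 : ∃ t, chk3 f_pp_123 t 130 43 1 = true :=
  ⟨(b (a (l 3) (b (b (b (a (l 3) (a (l 3) (a (l 3) (c (c (l 390472839879) (l 399599636935)) (c (l 409800165175) (c (l 415168878215) (l 418390088791))))))) (l 3)) (l 3)) (l 3))) (l 3)), by decide +kernel⟩

def k35_pp_123 : ∃ t, chk3 f_pp_123 t 262 172 1 = true :=
  ⟨(c (a (c (a (a (b (l 262697551799) (l 346449411399)) (l 16726624)) (l 16709640)) (a (b (c (l 258939449095) (l 271287477223)) (a (c (l 352891854823) (l 353965600327)) (l 16715960))) (l 16705704))) (l 16726464)) (a (a (c (b (a (c (l 295446665111) (b (l 16719312) (l 326585172183))) (l 16724584)) (a (c (l 358260552247) (b (l 352354968743) (l 379198511383))) (c (l 16722928) (l 16710064)))) (b (a (a (b (c (l 298131012935) (l 311552783031)) (c (l 359871165415) (c (l 363092387575) (l 364702998631)))) (c (l 16721584) (l 16708912))) (l 16709960)) (a (c (b (a (l 411410774855) (l 306184070855)) (l 382956607863))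 (b (a (l 414095114007) (l 311015904535)) (a (l 3) (c (l 365776735415) (l 367924216951))))) (c (l 16707672) (l 16710496))))) (c (l 16722672) (l 16708120))) (a (l 16720216) (l 16719760)))), by decide +kernel⟩

def k36_pp_123 : ∃ t, chk3 f_pp_123 t 262 173 1 = true :=
  ⟨(a (a (a (b (b (c (c (l 395304669991) (l 403357723239)) (c (l 412484507623) (c (l 417316348215) (l 419463815911)))) (l 3)) (l 3)) (b (c (b (c (l 16719360) (l 16719512)) (c (l 305110345895) (c (l 314774013239) (l 319605847303)))) (b (c (c (l 16715624) (l 285246102615)) (c (l 298667871767) (c (l 302425964151) (l 307794671255)))) (b (c (c (l 315310875527) (l 320679580151)) (c (l 326585155959) (a (l 359871148263) (l 16711512)))) (c (c (l 330880130599) (a (l 378661637607) (l 16716240))) (c (a (l 381882858647) (l 16702936)) (a (c (l 384567208551) (l 385640948455)) (l 16705328))))))) (c (c (c (l 349133758535) (l 352354980103)) (c (l 356113071879) (b (l 349670616135) (l 386714716199)))) (c (c (b (l 353428708151) (l 379735367639)) (b (a (l 410337026167)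 (l 314773997543)) (l 387788436023))) (a (b (c (l 409263268055) (c (l 409263274151) (l 410337013031))) (l 3)) (b (c (l 319605831319) (c (l 320142697543) (l 322290178935))) (b (c (l 359334277495) (l 363629240551)) (c (l 385640951879) (l 387251552807))))))))) (c (b (c (l 16722960) (c (l 16714056) (l 16711592))) (c (b (l 16706272) (l 16716360)) (c (l 16712600) (l 16715176)))) (b (c (c (l 16709104) (l 16706592)) (c (l 16709304) (a (l 16711992) (l 16711992)))) (c (a (b (l 16706336) (b (l 16705888) (l 16710824))) (l 16695232)) (a (b (b (l 16700952) (l 16700592)) (c (l 16706736) (l 16706488))) (l 16689872)))))) (c (b (c (l 16704704) (l 16700560)) (c (l 16703576) (l 16699024))) (b (b (l 16716000) (l 16714376)) (c (l 16694392) (l 16710656))))), by decide +kernel⟩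

def k37_pp_123 : ∃ t, chk3 f_pp_123 t 263 86 1 = true :=
  ⟨(b (c (l 16721864) (l 16718520)) (b (c (l 16719112) (l 16713744)) (c (l 16717824) (l 16711616)))), by decide +kernel⟩

def k38_pp_123 : ∃ t, chk3 f_pp_123 t 131 174 1 = true :=
  ⟨(a (a (b (b (c (a (c (l 416242630071) (l 415705726791)) (c (l 263234410311) (c (l 16717128) (l 281488007671)))) (a (b (c (l 414095113239) (c (l 411410739351) (l 413558232775))) (l 3)) (c (a (c (l 300278485079) (l 302425964311)) (l 16715296)) (a (a (c (b (l 16706248) (l 336785697607)) (c (l 323363920743) (l 325511402087))) (l 16704576)) (l 16709776))))) (a (l 3) (c (c (c (l 278803666039) (l 285246112471)) (c (l 291688558871) (l 298131005191))) (c (a (c (l 328732642583) (a (l 368461085559) (l 16713472))) (l 16693712)) (a (c (a (l 371682306583) (l 16700072)) (a (c (l 374366656343) (l 375440393863)) (l 16702376))) (l 16698568)))))) (a (l 3) (c (c (a (c (l 354502464151) (l 357186813991)) (c (l 16726416) (l 16713160))) (b (c (l 308331556311) (l 314237131479)) (a (l 391009670631)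 (l 16713944)))) (c (a (c (b (l 355039311863) (l 391009651303)) (b (a (l 415705729687) (l 324974540247)) (l 390472784935))) (b (l 16703576) (b (l 16703112) (l 16710664)))) (a (a (b (c (l 414095090007) (l 415168836295)) (l 3)) (b (c (b (l 16707416) (l 340543791735)) (c (l 327122014807) (l 334638204903))) (c (l 374903528807) (c (l 376514130455) (l 378124745383))))) (b (b (l 16698024) (l 16697656)) (c (l 16703824) (a (l 16703496) (l 16706120))))))))) (c (c (b (l 16702800) (l 16717736)) (b (l 16698040) (a (l 16697616) (l 16717424)))) (b (c (l 16703688) (l 16709248)) (a (c (l 16702792) (l 16707872)) (l 16710184))))) (c (a (l 16718064) (l 16715056)) (a (l 16710184) (l 16709200)))), by decide +kernel⟩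

def k39_pp_123 : ∃ t, chk3 f_pp_123 t 131 175 1 = true :=
  ⟨(a (b (a (a (l 3) (a (l 3) (c (c (b (l 280951146295) (l 313700271031)) (c (l 311015908263) (b (l 297594130519) (l 327122029895)))) (c (c (b (l 304036576615) (l 331953863655)) (b (l 309942152711) (a (l 374366661015) (l 16700128)))) (c (b (b (l 304573438647) (l 319068952567)) (a (l 377587880407) (l 16702368))) (b (a (c (l 338396301287) (l 341080653447)) (l 16705360)) (a (c (l 379198471511) (l 381345962567)) (l 290614786375)))))))) (a (c (c (l 16712496) (a (l 16707352) (l 16717272))) (c (c (l 16692448) (l 16700152)) (c (l 16697336) (l 16704992)))) (c (l 16718880) (l 16708840)))) (a (a (l 3) (a (l 3) (a (l 3) (c (b (c (l 308331560679) (l 319605838727)) (c (l 371145456743) (l 371682316103))) (b (c (c (l 327122024023) (l 332490728583)) (c (c (l 336248820391) (l 338933172231)) (c (l 341080653783) (l 343765004919)))) (c (c (l 374366663239) (l 377587883911)) (c (l 380809102887) (c (l 382419693911) (l 384030303527))))))))) (c (a (c (c (l 16713040)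 (l 16715488)) (a (b (l 16706560) (l 268066229287)) (l 16695240))) (l 16715320)) (c (a (a (b (l 16705992) (c (l 16701592) (l 16703848))) (l 16689632)) (l 16710128)) (a (a (b (c (l 16706808) (l 16682856)) (c (l 286319822071) (a (l 293299137511) (l 16703048)))) (l 16704896)) (l 16704800)))))) (c (c (l 16716736) (l 16712912)) (c (l 16709040) (l 16705120)))), by decide +kernel⟩

def k40_pp_123 : ∃ t, chk3 f_pp_123 t 33 21 1 = true :=
  ⟨(b (a (a (b (l 16734776) (a (l 16725432) (l 16724528))) (l 16727728)) (l 16723256)) (a (a (b (b (a (l 16717384) (l 16716608)) (a (c (l 16713640) (l 16711048)) (l 16711472))) (a (c (b (l 16711280) (l 16709232)) (b (l 16707952) (l 16705296))) (c (l 16708120) (l 16706280)))) (b (l 16712576) (l 16705952))) (b (l 16708696) (l 16702544)))), by decide +kernel⟩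

def k41_pp_123 : ∃ t, chk3 f_pp_123 t 17 10 1 = true :=
  ⟨(b (a (a (l 16674168) (l 16726296)) (l 16708496)) (b (a (l 16711224) (l 16691008)) (a (c (l 16689904) (l 16643832)) (l 16609648)))), by decide +kernel⟩

def k42_pp_123 : ∃ t, chk3 f_pp_123 t 9 10 1 = true :=
  ⟨(b (a (c (l 16650208) (l 16655208)) (a (l 16626216) (l 16598816))) (a (b (l 16601880) (a (l 16559424) (l 16529856))) (b (l 16547272) (l 16502968)))), by decide +kernel⟩

def k43_pp_123 : ∃ t, chk3 f_pp_123 t 64 44 1 = true :=
  ⟨(l 3), by decide +kernel⟩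

def k44_pp_123 : ∃ t, chk3 f_pp_123 t 130 44 1 = true :=
  ⟨(l 3), by decide +kernel⟩

def k45_pp_123 : ∃ t, chk3 f_pp_123 t 131 176 1 = true :=
  ⟨(a (a (l 3) (a (b (c (c (a (b (l 285246109175) (l 317458363607)) (l 16710368)) (b (c (l 277729907287) (l 284172353703)) (c (l 294372904839) (l 300278480247)))) (c (a (c (b (l 306720927143) (l 335175084567)) (b (l 313163372359) (a (l 380809106103) (l 16702432)))) (c (l 16689808) (l 16686864))) (a (c (b (b (l 308331528375) (l 322827042279)) (a (l 385640931511) (l 297594108231))) (b (a (c (l 344301875847) (l 346449356359)) (l 16702264)) (a (c (l 385104045383) (l 386714654951)) (l 301889068967)))) (c (l 16683904) (l 16701888))))) (a (a (l 3) (c (b (c (l 316384619863) (l 327122025367)) (c (l 375977290071) (l 377587889943))) (b (c (c (l 333564470695) (l 338933173287)) (c (c (l 342154395703) (l 344838746791)) (c (l 346986227287) (l 349670578663)))) (c (c (l 382956593351) (l 388325278823)) (c (l 387788401591) (c (l 388325267703) (l 389399027303))))))) (c (c (c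 (l 16710936) (l 16713240)) (c (l 16711592) (l 272898062167))) (c (b (c (l 16709832) (l 16706808)) (c (l 16703952) (l 289004176695))) (b (c (l 16703768) (l 16700696)) (c (l 293299137479) (a (l 305110291271) (l 16699904)))))))) (b (c (c (l 16719648) (l 16693320)) (c (l 16708840) (l 16703304))) (c (c (l 16697792) (l 16702712)) (c (l 16707536) (l 16701776)))))) (c (a (c (l 16695792) (l 16712032)) (l 16711528)) (a (c (l 16707224) (l 16702344)) (l 16703912)))), by decide +kernel⟩

def k46_pp_123 : ∃ t, chk3 f_pp_123 t 131 177 1 = true :=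
  ⟨(a (a (l 3) (a (a (l 3) (b (c (c (b (l 289541071255) (l 322290195879)) (c (b (l 298667868327) (l 329806380103)) (b (l 304573443863) (l 334101343159)))) (c (c (b (l 310479018039) (l 338933175095)) (b (a (l 342154395751) (l 16705368)) (a (l 391009630359) (l 299204721111)))) (c (b (b (l 312089618615) (l 326585132503)) (a (l 389935903095) (l 303499681735))) (b (a (c (l 350207449511) (l 352354929863)) (l 16699096)) (a (l 391546509351) (c (l 307794645799) (l 304036533815))))))) (a (l 3) (c (b (c (l 324974549127) (a (l 372756047367) (l 300278473991))) (c (l 385104090199) (l 385104076359))) (b (c (c (l 341080657239) (l 345375617511)) (c (c (l 348596840135) (l 350744320471)) (c (l 352891800951) (l 355576137703)))) (c (c (l 394767751079) (l 393693981847)) (c (l 392620254503) (l 394767730247)))))))) (c (b (c (a (l 16707760) (l 16717448)) (c (l 16692560) (l 16689648))) (c (c (l 247128268135) (l 255181326871)) (a (b (l 16701008) (c (l 16701968) (l 16704112))) (l 16689688)))) (b (c (b (l 16706536) (l 16705864))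 (c (l 16701728) (l 16698720))) (c (a (b (c (l 16706888) (l 16703776)) (c (l 286319822343) (l 292225395735))) (l 16704696)) (a (b (c (l 16700648) (l 16697488)) (a (c (l 306720903719) (l 306184015911)) (l 16698264))) (l 16698632))))))) (c (a (b (a (l 16713616) (l 16712224)) (c (l 16693552) (l 16709264))) (l 16709608)) (a (b (b (l 16703024) (l 16706240)) (c (l 16703928) (l 16698496))) (l 16701120)))), by decide +kernel⟩

def k47_pp_123 : ∃ t, chk3 f_pp_123 t 262 89 1 = true :=
  ⟨(a (l 3) (a (l 3) (a (b (b (c (c (c (l 309405292167) (b (l 297057256183) (l 329269509815))) (c (b (l 302425960711) (l 333564472759)) (b (l 308331535431) (l 338396304599)))) (c (c (b (l 314237108455) (l 343765006631)) (b (a (l 349133711127) (l 16702288)) (a (l 396378354263) (l 307257778279)))) (c (b (a (l 352891800663) (l 16699080)) (a (l 395304605863) (l 303499661287))) (b (a (c (l 356649878919) (l 359334211063)) (l 16680384)) (a (l 399599516071) (l 309942110439)))))) (a (l 3) (c (b (c (l 334101348503) (c (l 339470051367) (l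 343765012231))) (c (l 394230889511) (l 393694005079))) (b (c (c (l 349133714199) (l 352354933127)) (c (l 356649878583) (c (l 360407953079) (l 363629128055)))) (c (c (l 401210195911) (l 399062705671)) (c (l 398525824503) (l 403894432519))))))) (l 3)) (b (c (b (c (l 16710312) (c (l 16690048) (l 16686984))) (c (b (l 16704328) (l 266455611495)) (b (l 16703352) (c (l 16704336) (l 283098597207))))) (b (c (c (l 16683896) (l 16701760)) (c (l 16698616) (l 16671928))) (c (b (c (l 16703856) (l 16700664)) (c (l 290077912135) (l 296520356439))) (b (c (l 16697440) (l 16654000)) (a (c (l 307794626935) (l 290077836631)) (l 16666528)))))) (c (b (c (c (b (l 295983515063) (l 329806381447)) (b (l 301352219143) (l 333564473383))) (c (b (l 306720923175) (l 337859434199)) (b (l 313163366343) (l 341617506999)))) (c (c (l 386714691815) (l 386714690551)) (b (b (l 365776710855) (l 382956589863)) (l 410336994919)))) (b (c (c (b (l 318532068951) (l 345912488663)) (b (a (l 355576155431) (l 16699128)) (a (l 402283927943) (l 306184014039))))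 (c (b (a (l 359871102535) (l 16679608)) (a (l 403894482183) (l 311552721415))) (b (a (l 365776612023) (l 16629856)) (a (l 408189350487) (l 270213563191))))) (b (c (c (l 379735354743) (l 379198477111)) (c (l 382419662503) (l 388325102647))) (b (c (l 406578895927) (l 410873754663)) (l 3))))))))), by decide +kernel⟩

def k48_pp_123 : ∃ t, chk3 f_pp_123 t 263 89 1 = true :=
  ⟨(b (a (b (c (c (l 16703096) (l 16708120)) (c (l 16702560) (a (l 16692584) (l 16686096)))) (c (a (c (l 16702920) (l 16707488)) (l 16709120)) (c (c (l 16702624) (l 16699720)) (c (l 16690336) (l 16640872))))) (c (a (l 16708288) (l 16706888)) (a (l 16698432) (l 16698016)))) (a (a (c (b (b (c (l 16691680) (l 16706584)) (c (l 16701656) (l 16700728))) (c (a (b (l 16701520) (c (l 16702584) (l 16707232))) (l 16690008)) (b (c (l 16685952) (l 16703760)) (c (l 267529340631) (l 274508655063))))) (b (c (c (l 16701616) (l 16698480)) (c (l 16685472) (l 16620712))) (c (a (b (c (l 16700744) (l 16697464)) (c (l 293836001927) (l 295446597399))) (l 16698456))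 (a (b (c (l 16653688) (l 16605072)) (c (l 284709146775) (l 235316904983))) (l 16620936))))) (b (c (l 16708032) (a (l 16689528) (l 16686328))) (c (b (l 16707192) (l 16706624)) (c (l 16698024) (l 16616960))))) (b (c (l 16706000) (l 16678472)) (c (l 16704904) (l 16655712))))), by decide +kernel⟩

def k49_pp_123 : ∃ t, chk3 f_pp_123 t 64 45 1 = true :=
  ⟨(l 3), by decide +kernel⟩

def k50_pp_123 : ∃ t, chk3 f_pp_123 t 130 45 1 = true :=
  ⟨(l 3), by decide +kernel⟩

def k51_pp_123 : ∃ t, chk3 f_pp_123 t 262 45 1 = true :=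
  ⟨(b (l 3) (l 3)), by decide +kernel⟩

def k52_pp_123 : ∃ t, chk3 f_pp_123 t 1052 45 1 = true :=
  ⟨(b (a (b (b (b (c (c (c (l 300278478023) (l 306184052199)) (c (l 311552754087) (l 316921456567))) (c (c (l 322290158679) (a (l 363092326295) (l 16678032))) (c (a (l 368997835751) (l 16629984)) (l 342691066023)))) (a (l 3) (c (c (l 297057244263) (c (l 305110301639) (l 310479004071))) (c (c (l 316384558999) (l 321753264743)) (b (l 316384472839) (l 342154265287)))))) (b (c (c (c (l 387251568023) (l 386714690471)) (c (l 385640920967) (l 384030322439))) (c (c (l 382956573799) (l 383493360071)) (c (l 388861974583) (l 393693718855)))) (l 3))) (l 3)) (b (c (b (c (c (l 16690536) (l 16687352)) (c (l 16684152) (l 16701888))) (c (b (l 243370150871) (c (l 271824316295) (l 278803630887))) (b (c (l 16683216) (l 16700880)) (c (l 285246074439) (l 291688518423))))) (b (c (c (l 16698624) (l 16669864)) (c (l 16622288) (l 16575064))) (c (b (c (l 16697536) (l 16652592)) (c (l 298130949799) (l 306183959047))) (c (c (l 228337583383)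 (l 208473313703)) (l 190756527031))))) (b (c (b (c (c (l 305647181943) (l 311015883735)) (c (l 316384585783) (l 321216414903))) (c (c (l 339470048199) (l 342691249879)) (c (l 346449360439) (l 350207449959)))) (c (c (b (l 326585104967) (l 356112962519)) (b (l 333564353127) (l 362555321223))) (c (b (l 341617324103) (l 367387105879)) (l 359870822631)))) (b (c (c (c (l 393157142071) (l 391546522535)) (c (l 389399032023) (l 388325283287))) (c (c (l 385103969063) (l 389935715847)) (l 396914901799))) (l 3))))) (l 3)), by decide +kernel⟩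

def k53_pp_123 : ∃ t, chk3 f_pp_123 t 1053 45 1 = true :=
  ⟨(b (b (c (b (c (l 16708776) (l 16702720)) (c (l 16707696) (a (l 16701696) (l 16701176)))) (c (b (l 16688944) (a (l 16688336) (l 16664352))) (b (l 16594928) (l 16594368)))) (c (b (b (c (l 16706864) (l 16700448)) (a (c (l 16706672) (l 16700040)) (l 16697504))) (c (a (b (c (l 16686792) (l 16704424)) (c (l 277729889031) (l 283635461975))) (l 16705080)) (a (b (c (l 16701064) (l 16696528)) (c (l 290077906087) (l 296520334775))) (l 16688040)))) (b (b (c (l 16669856) (l 16557576)) (c (c (l 16660568) (l 16614960)) (l 16547168))) (c (a (b (c (l 16650784) (l 16605376)) (c (l 304036470583) (l 313163186039))) (l 16640856)) (c (l 178945369623) (l 16509648)))))) (b (b (c (c (a (c (b (l 311015884359) (l 343764992343)) (b (l 315847715399) (l 348059973703))) (c (l 16705576) (l 16702224))) (a (c (b (l 321216408119) (l 351281192215)) (b (l 326048231815) (l 357186698903))) (c (l 16698848) (l 16664968)))) (c (c (a (b (l 333027477655) (l 363092189767)) (l 16620504))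 (b (l 312089423191) (l 327121787479))) (c (l 329806095991) (l 337322159911)))) (a (b (b (c (c (l 395841487335) (l 383493401415)) (c (l 392620029735) (l 398525520407))) (l 3)) (l 3)) (c (b (c (c (l 16704704) (l 16701280)) (c (l 264308080967) (l 16669328))) (c (c (l 283098591639) (l 288467293495)) (c (l 295446590455) (l 302962723495)))) (c (c (c (l 222431998663) (l 204178344919)) (l 186998432487)) (l 153712351879))))) (a (l 3) (b (c (b (c (c (l 316921457639) (l 321753270999)) (c (l 326048229415) (l 333027472807))) (c (c (l 350207457927) (l 353428676343)) (c (l 358797305095) (l 364702798887)))) (c (c (b (l 340006707671) (l 370071422407)) (l 357723342599)) (l 365239451847))) (b (b (c (c (l 402820802727) (l 392083242295)) (c (l 399599264999) (l 16481592))) (l 3)) (l 3)))))), by decide +kernel⟩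

def k54_pp_123 : ∃ t, chk3 f_pp_123 t 527 45 1 = true :=
  ⟨(c (b (b (c (l 16705944) (l 16700480)) (c (c (l 16705232) (l 16702320)) (c (l 16699384) (l 16691000)))) (b (b (a (c (l 16702808) (l 16682624)) (l 16698352)) (c (c (l 16702464) (l 16699296)) (c (l 16679152) (l 16635912)))) (a (b (a (c (c (l 16702456) (l 16688536)) (c (b (l 16667144) (l 16656192)) (l 16618632))) (c (l 16700032) (l 16637320))) (c (a (c (b (l 254644428023) (a (l 328732604887) (l 16700736))) (b (l 262160594359) (l 294372845783))) (c (l 16700480) (l 16679528))) (c (a (b (l 249275647351) (l 302425845879)) (l 16637216)) (b (l 202567792183) (l 286856505383))))) (c (c (l 16699936) (l 16685832)) (b (l 16633200) (l 16612288)))))) (c (b (b (l 16668144) (b (l 16634920) (l 16613352))) (a (c (b (b (l 16616560) (l 16595432)) (b (l 16574792) (l 169818562711))) (b (l 16562632) (c (l 131163774551) (l 16512360)))) (b (l 16579544) (l 16539552)))) (b (b (l 16577088) (a (l 16537944) (l 16534000))) (b (b (l 16506352) (l 16487160)) (a (b (l 16469896)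 (l 16451472)) (l 16457760)))))), by decide +kernel⟩

def k55_pp_123 : ∃ t, chk3 f_pp_123 t 33 22 1 = true :=
  ⟨(a (b (a (b (a (c (b (a (l 16708544) (l 16705776)) (l 16699968)) (b (l 16702592) (l 16699760))) (c (l 16702960) (l 16700192))) (a (c (b (l 16703296) (l 16701272)) (b (l 16693856) (l 16649560))) (c (a (l 16698376) (l 16697224)) (l 16648936)))) (b (l 16700632) (c (l 16695848) (l 16620840)))) (c (a (a (b (b (a (l 16700520) (l 16697728)) (c (l 16699128) (l 16694024))) (b (c (l 16686472) (l 16650944)) (a (c (l 16696144) (l 16614808)) (l 16644608)))) (b (b (l 16694000) (l 16691552)) (b (l 16668632) (l 16628352)))) (b (l 16690280) (a (l 16628472) (l 16612160)))) (a (a (b (b (a (l 16612080) (l 16602160)) (a (l 16570752) (l 16562048))) (b (c (l 16568224) (l 16486896)) (c (l 16529640) (l 16450936)))) (b (c (l 16609104) (l 16528800)) (c (l 16532720) (l 16457576)))) (b (l 16546984) (l 16478288))))) (b (b (l 16697736) (l 16644440)) (b (l 16577512) (c (l 16576960) (l 16453784))))), by decide +kernel⟩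

def k56_pp_123 : ∃ t, chk3 f_pp_123 t 32 23 1 = true :=
  ⟨(b (a (l 3) (a (l 3) (a (l 3) (a (l 3) (b (b (c (a (c (b (b (a (c (a (l 405505156983) (l 278266716263)) (l 328195698199)) (l 16684224)) (a (c (l 374366638023) (l 361481652087)) (c (l 16694248) (l 16652488)))) (a (c (l 391009603063) (l 394230787511)) (c (b (l 261086849351) (a (l 343228093223) (l 16671720))) (b (l 269139862471) (l 302425837687))))) (b (a (c (b (l 334101207847) (l 366850277783)) (l 351280993831)) (c (l 16616208) (l 16574904))) (a (c (l 397988759639) (l 401746774311)) (c (b (l 16600768) (l 309941948615)) (l 183777203335))))) (c (b (l 16674192) (b (l 16658160) (l 16668592))) (b (l 16591848) (a (l 16573016) (l 16570728))))) (c (c (a (b (l 321216119847) (l 350207109975)) (l 16521352)) (b (l 305646782791) (l 320679130663))) (c (a (l 348596339735) (l 16441904)) (l 330879521447)))) (b (c (a (a (l 3) (c (c (b (a (l 3) (l 289540993447)) (l 365239739991)) (b (l 336785521511) (l 370071497479))) (c (l 352354729095) (l 357186469431)))) (b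 (c (a (l 16659552) (l 16635816)) (l 16557200)) (c (c (l 220284622199) (l 16606944)) (l 154786211511)))) (c (a (l 381345519623) (l 16473920)) (l 343764466615))) (a (l 3) (c (c (a (c (b (l 268602983031) (a (l 353965436119) (l 16627008))) (b (l 277729707991) (l 310478813687))) (c (l 16630072) (l 16590728))) (a (b (l 289003919223) (l 320142412551)) (l 16532280))) (c (l 16456152) (l 16380240)))))) (a (l 3) (b (c (b (c (b (a (c (l 339469868999) (l 343764789863)) (l 16616424)) (c (a (l 373829587175) (l 16604952)) (l 315847448967))) (c (l 314236794391) (l 321216038839))) (a (l 3) (c (c (b (l 277192829799) (l 312089419863)) (l 305110021943)) (l 314236754039)))) (c (b (l 329805898903) (l 357723152167)) (l 16356304))) (b (c (c (b (b (l 367387104823) (l 377587579735)) (l 387251241991)) (l 379198038903)) (l 386714150455)) (l 3))))))))) (l 3)), by decide +kernel⟩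

def k57_pp_123 : ∃ t, chk3 f_pp_123 t 33 23 2 = true :=
  ⟨(a (b (a (a (b (c (b (a (b (l 16665232) (l 16644360)) (l 16643408)) (a (a (b (l 16626616) (l 16606528)) (l 16611304)) (l 16603688))) (c (b (l 16589800) (a (l 16555760) (l 16547192))) (b (l 16550736) (l 16513640)))) (b (a (c (a (b (l 16607864) (b (l 16572472) (l 16562992))) (l 16593536)) (b (l 16509032) (l 16491208))) (b (l 16538240) (l 16520280))) (a (a (c (b (b (l 16574592) (a (l 153175587303) (l 16543296))) (c (b (l 260012878967) (l 279340213031)) (l 282024495031))) (b (l 16475440) (l 292761842055))) (c (b (l 16544680) (l 16526616)) (l 16463664))) (c (l 16529432) (l 16459024))))) (b (b (l 16589768) (l 16552808)) (c (b (l 16552464) (l 16517536)) (l 16466112)))) (b (a (a (l 16557928) (l 16550584)) (l 16541304)) (a (a (l 16489640) (l 16483168)) (l 16475752)))) (a (c (a (b (a (b (c (a (b (a (l 362018296535) (l 16529728)) (l 343227756119)) (l 16517856)) (b (a (l 314773585079) (l 16491328)) (l 298130552711))) (a (b (l 378661166727) (l 3)) (b (l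 16474920) (l 284708775399)))) (b (l 16494800) (a (l 16463400) (l 16460184)))) (a (b (b (l 351280723335) (l 369534260663)) (l 387250954375)) (b (l 16472232) (a (l 16443360) (l 16398944))))) (b (b (l 16484176) (l 16452312)) (b (l 16421856) (l 16392752)))) (a (b (b (a (c (b (l 287929968951) (l 305109804807)) (l 306183478775)) (l 16426672)) (c (a (l 329268933015) (l 16412232)) (l 298667226327))) (b (a (l 362017998855) (l 16366488)) (a (l 391545852087) (l 16338504)))) (b (a (l 16406096) (l 16401336)) (a (l 16348672) (l 16345160))))) (b (a (a (l 16427336) (l 16421920)) (l 16415544)) (a (a (l 16370392) (l 16366208)) (l 16360640))))) (b (b (l 16514344) (l 16455888)) (b (l 16401560) (l 16351176)))), by decide +kernel⟩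

def k58_pp_123 : ∃ t, chk3 f_pp_123 t 33 23 3 = true :=
  ⟨(c (b (a (a (a (b (a (b (l 16496152) (l 16460456)) (l 16471712)) (a (b (l 16426416) (a (l 16395056) (l 16392936))) (l 16405360))) (b (l 16462736) (l 16398824))) (b (l 16447704) (l 16387712))) (l 16399856)) (a (a (a (b (b (a (l 315847089447) (l 16359704)) (a (l 341616835911) (l 16331032))) (b (l 323363225335) (l 339469295431))) (b (l 16340656) (l 16287872))) (b (l 16332920) (l 16283072))) (l 16302096))) (b (a (a (b (a (b (l 16416592) (l 16383832)) (l 16392296)) (a (b (l 16352608) (l 16322888)) (l 16332832))) (b (l 16382848) (l 16327160))) (l 16345496)) (a (a (a (b (b (l 16294656) (l 16288848)) (c (l 339469227335) (l 344837873047))) (b (l 16278816) (l 16229936))) (b (l 16276424) (l 16230352))) (l 16254856)))), by decide +kernel⟩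

def k59_pp_123 : ∃ t, chk3 f_pp_123 t 17 11 1 = true :=
  ⟨(b (b (a (c (l 16648160) (l 16540456)) (l 16529544)) (a (c (l 16541504) (l 16444816)) (l 16453160))) (b (a (b (l 16464736) (l 16379504)) (l 16382352)) (a (b (l 16338808) (l 16384768)) (l 16318368)))), by decide +kernel⟩

def k60_pp_123 : ∃ t, chk3 f_pp_123 t 9 11 1 = true :=
  ⟨(b (a (b (l 16484088) (l 16427080)) (b (l 16457664) (l 16413624))) (a (b (l 16373584) (l 16324776)) (b (l 16372400) (l 16335224)))), by decide +kernel⟩

def k61_pp_123 : ∃ t, chk3 f_pp_123 t 5 5 1 = true :=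
  ⟨(b (b (a (a (l 16563072) (l 16511632)) (l 16347384)) (a (a (b (l 16510440) (l 16475072)) (l 16454856)) (a (l 16407648) (l 16352840)))) (a (b (a (a (l 16424424) (l 16415160)) (l 16397112)) (a (a (l 16355440) (a (l 16356024) (l 16354680))) (l 16348208))) (b (a (l 16363856) (l 16320840)) (a (l 16327528) (l 16295912))))), by decide +kernel⟩

def k62_pp_123 : ∃ t, chk3 f_pp_123 t 3 5 1 = true :=
  ⟨(b (a (b (a (l 16264184) (l 16109088)) (a (l 16153568) (l 16112736))) (b (a (l 15947440) (l 15779920)) (a (l 15954032) (l 15789216)))) (a (a (b (l 16241800) (l 16189528)) (b (l 16112232) (l 16117368))) (a (b (l 15964808) (l 15980928)) (b (l 15806328) (l 1))))), by decide +kernel⟩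

def k63_pp_123 : ∃ t, chk3 f_pp_123 t 8 12 1 = true :=
  ⟨(a (a (l 3) (b (b (c (a (a (a (a (l 3) (b (b (c (l 294909194711) (l 16311840)) (b (l 327658261383) (l 345911842663))) (b (l 366312891751) (l 3)))) (b (c (b (l 16364968) (l 16338488)) (l 16295336)) (b (c (l 16314120) (l 16260600)) (l 16265536)))) (b (a (a (l 16318488) (l 16315352)) (l 16310784)) (b (l 16279808) (l 16259224)))) (a (b (l 16306104) (l 16263336)) (l 16345592))) (a (b (b (a (a (l 359870344583) (l 16223976)) (l 16223576)) (a (a (l 374902677255) (l 16202232)) (l 16202968))) (a (a (b (l 388861272535) (l 3)) (a (l 16192792) (l 16172576))) (l 16174440))) (b (l 16217552) (l 16181784)))) (a (a (a (l 3) (c (b (c (l 16259840) (l 16209680)) (l 320678705623)) (b (l 16135856) (l 16102872)))) (c (b (l 16230008) (l 16194128)) (l 16123232))) (a (a (a (l 16208888) (l 16230096)) (l 16168600)) (l 16173256)))) (a (b (a (a (l 3) (b (c (l 352354008503) (l 16073008)) (l 388324299175))) (c (b (l 16161456) (l 16131696)) (l 16065480))) (a (l 3) (c (c (l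 275044496615) (l 16073168)) (l 16018112)))) (a (b (c (c (l 16162672) (l 16126616)) (l 16074120)) (c (l 16093240) (l 16028512))) (b (l 16115080) (c (l 16095800) (l 16039104))))))) (b (b (a (a (b (l 16263696) (l 16229472)) (l 16252192)) (l 16262200)) (a (a (l 16182704) (l 16194736)) (l 16211592))) (a (b (a (l 16128352) (l 16144736)) (a (l 16082328) (l 16101984))) (b (l 16166848) (l 16128128))))), by decide +kernel⟩

def k64_pp_123 : ∃ t, chk3 f_pp_123 t 8 13 1 = true :=
  ⟨(a (a (l 3) (a (a (l 3) (b (b (c (l 308330406359) (l 15979936)) (l 343226961799)) (b (b (l 3) (l 3)) (l 3)))) (b (b (a (c (l 16051672) (l 15991672)) (l 16028264)) (a (l 15990088) (l 15997696))) (b (a (l 15965352) (l 15973872)) (a (l 15946192) (l 15955552)))))) (a (b (a (b (l 16043680) (l 16012464)) (l 16217616)) (a (b (l 15987616) (c (l 15986736) (l 15950376))) (b (l 16011104) (l 15991072)))) (b (b (l 16095032) (l 16067064)) (b (l 16043728) (l 16024632))))), by decide +kernel⟩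

def k65_pp_123 : ∃ t, chk3 f_pp_123 t 9 6 1 = true :=
  ⟨(b (b (a (b (l 16323600) (l 16240576)) (b (l 16302208) (l 16269176))) (a (a (l 16173760) (l 16196536)) (l 16224008))) (a (b (a (l 16113840) (l 16141560)) (a (l 16070376) (l 16100768))) (b (l 16174832) (l 16284120)))), by decide +kernel⟩

def k66_pp_123 : ∃ t, chk3 f_pp_123 t 5 6 1 = true :=
  ⟨(b (b (a (a (a (l 16214432) (a (l 16304016) (l 16307784))) (l 16246488)) (a (l 16301064) (l 16279752))) (a (a (a (l 16244848) (l 16236968)) (l 16270128)) (a (l 16273920) (l 16261896)))) (a (a (b (a (l 16200304) (l 16152376)) (a (l 16165464) (l 16160296))) (b (l 16233792) (l 16202168))) (b (a (l 16249184) (l 16246224)) (a (l 16225360) (l 16233872))))), by decide +kernel⟩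

def k67_pp_123 : ∃ t, chk3 f_pp_123 t 3 6 1 = true :=
  ⟨(b (a (b (a (l 16228680) (l 16128768)) (a (l 16223168) (l 16136696))) (b (a (l 16002088) (l 1)) (l 1))) (a (a (b (l 16217872) (a (l 16224264) (l 16202232))) (b (l 16142560) (l 1))) (l 1))), by decide +kernel⟩

def k68_pp_123 : ∃ t, chk3 f_pp_123 t 1 7 1 = true :=
  ⟨(a (a (a (a (a (l 3) (b (a (l 3) (b (b (a (l 15931880) (l 15942064)) (c (l 134920828951) (l 125793892839))) (a (l 3) (b (c (l 15956352) (l 15897904)) (c (l 15959480) (l 15892384)))))) (a (l 3) (b (a (l 3) (b (b (l 15929168) (l 3)) (l 3))) (l 3))))) (b (b (a (a (b (c (l 15973232) (l 15935392)) (c (l 15966040) (l 15923424))) (b (l 15975112) (l 15963976))) (b (l 16009448) (l 15998104))) (a (a (b (c (l 15965416) (l 15915024)) (c (l 15970008) (l 15909608))) (b (c (l 15977584) (l 15936272)) (c (l 15980272) (l 15930016)))) (b (l 15990704) (l 15987656)))) (b (a (b (a (c (l 15980256) (b (l 15908288) (l 15908880))) (c (l 15989736) (l 15928352))) (a (c (l 15996752) (b (l 15910840) (l 15914352)))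 (c (l 16007064) (l 15932384)))) (b (a (l 15978480) (l 16000144)) (a (c (l 16019448) (l 15952560)) (l 16008176)))) (a (b (a (c (l 224578406359) (a (l 15917400) (l 15928672))) (b (l 15983696) (l 15994896))) (a (b (l 180554366727) (l 1)) (l 1))) (b (a (b (l 15998408) (l 16008984)) (l 16023600)) (l 1)))))) (b (b (a (b (l 16085112) (l 16053496)) (l 16237328)) (a (b (l 16130520) (a (l 16026872) (l 16059464))) (b (l 16100872) (l 16098880)))) (b (a (b (a (l 16029136) (l 16062056)) (a (l 16037456) (l 16070784))) (b (l 16101944) (l 16111304))) (a (b (a (l 16053336) (l 1)) (l 1)) (l 1))))) (b (a (b (a (a (l 16141032) (a (l 16153288) (l 16160288))) (l 16179080)) (a (a (l 16129648) (b (l 16146824) (l 16145024))) (l 16147160))) (b (a (l 16205280) (l 16180544)) (l 1))) (a (b (a (a (l 16137064) (l 1)) (l 1)) (l 1)) (l 1)))) (l 1)), by decide +kernel⟩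

theorem s69_pp_123 : ∃ t, chk3 f_pp_123 t 8 6 1 = true := ex3_b k63_pp_123 k64_pp_123

theorem s70_pp_123 : ∃ t, chk3 f_pp_123 t 4 6 1 = true := ex3_a s69_pp_123 k65_pp_123

theorem s71_pp_123 : ∃ t, chk3 f_pp_123 t 2 6 1 = true := ex3_a s70_pp_123 k66_pp_123

theorem s72_pp_123 : ∃ t, chk3 f_pp_123 t 1 6 1 = true := ex3_a s71_pp_123 k67_pp_123

theorem s73_pp_123 : ∃ t, chk3 f_pp_123 t 1 3 1 = true := ex3_b s72_pp_123 k68_pp_123

theorem s74_pp_123 : ∃ t, chk3 f_pp_123 t 33 23 1 = true := ex3_c k57_pp_123 k58_pp_123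

theorem s75_pp_123 : ∃ t, chk3 f_pp_123 t 16 23 1 = true := ex3_a k56_pp_123 s74_pp_123

theorem s76_pp_123 : ∃ t, chk3 f_pp_123 t 526 45 1 = true := ex3_a k52_pp_123 k53_pp_123

theorem s77_pp_123 : ∃ t, chk3 f_pp_123 t 263 45 1 = true := ex3_a s76_pp_123 k54_pp_123

theorem s78_pp_123 : ∃ t, chk3 f_pp_123 t 131 45 1 = true := ex3_a k51_pp_123 s77_pp_123

theorem s79_pp_123 : ∃ t, chk3 f_pp_123 t 65 45 1 = true := ex3_a k50_pp_123 s78_pp_123

theorem s80_pp_123 : ∃ t, chk3 f_pp_123 t 32 45 1 = true := ex3_a k49_pp_123 s79_pp_123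

theorem s81_pp_123 : ∃ t, chk3 f_pp_123 t 131 89 1 = true := ex3_a k47_pp_123 k48_pp_123

theorem s82_pp_123 : ∃ t, chk3 f_pp_123 t 131 88 1 = true := ex3_b k45_pp_123 k46_pp_123

theorem s83_pp_123 : ∃ t, chk3 f_pp_123 t 131 44 1 = true := ex3_b s82_pp_123 s81_pp_123

theorem s84_pp_123 : ∃ t, chk3 f_pp_123 t 65 44 1 = true := ex3_a k44_pp_123 s83_pp_123

theorem s85_pp_123 : ∃ t, chk3 f_pp_123 t 32 44 1 = true := ex3_a k43_pp_123 s84_pp_123

theorem s86_pp_123 : ∃ t, chk3 f_pp_123 t 32 22 1 = true := ex3_b s85_pp_123 s80_pp_123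

theorem s87_pp_123 : ∃ t, chk3 f_pp_123 t 16 22 1 = true := ex3_a s86_pp_123 k55_pp_123

theorem s88_pp_123 : ∃ t, chk3 f_pp_123 t 16 11 1 = true := ex3_b s87_pp_123 s75_pp_123

theorem s89_pp_123 : ∃ t, chk3 f_pp_123 t 8 11 1 = true := ex3_a s88_pp_123 k59_pp_123

theorem s90_pp_123 : ∃ t, chk3 f_pp_123 t 4 11 1 = true := ex3_a s89_pp_123 k60_pp_123

theorem s91_pp_123 : ∃ t, chk3 f_pp_123 t 131 87 1 = true := ex3_b k38_pp_123 k39_pp_123

theorem s92_pp_123 : ∃ t, chk3 f_pp_123 t 262 86 1 = true := ex3_b k35_pp_123 k36_pp_123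

theorem s93_pp_123 : ∃ t, chk3 f_pp_123 t 131 86 1 = true := ex3_a s92_pp_123 k37_pp_123

theorem s94_pp_123 : ∃ t, chk3 f_pp_123 t 131 43 1 = true := ex3_b s93_pp_123 s91_pp_123

theorem s95_pp_123 : ∃ t, chk3 f_pp_123 t 65 43 1 = true := ex3_a k34_pp_123 s94_pp_123

theorem s96_pp_123 : ∃ t, chk3 f_pp_123 t 32 43 1 = true := ex3_a k33_pp_123 s95_pp_123

theorem s97_pp_123 : ∃ t, chk3 f_pp_123 t 261 42 1 = true := ex3_b k30_pp_123 k31_pp_123

theorem s98_pp_123 : ∃ t, chk3 f_pp_123 t 130 42 1 = true := ex3_a k29_pp_123 s97_pp_123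

theorem s99_pp_123 : ∃ t, chk3 f_pp_123 t 65 42 1 = true := ex3_a s98_pp_123 k32_pp_123

theorem s100_pp_123 : ∃ t, chk3 f_pp_123 t 32 42 1 = true := ex3_a k28_pp_123 s99_pp_123

theorem s101_pp_123 : ∃ t, chk3 f_pp_123 t 32 21 1 = true := ex3_b s100_pp_123 s96_pp_123

theorem s102_pp_123 : ∃ t, chk3 f_pp_123 t 16 21 1 = true := ex3_a s101_pp_123 k40_pp_123

theorem s103_pp_123 : ∃ t, chk3 f_pp_123 t 65 41 1 = true := ex3_b k25_pp_123 k26_pp_123

theorem s104_pp_123 : ∃ t, chk3 f_pp_123 t 130 81 1 = true := ex3_a k22_pp_123 k23_pp_123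

theorem s105_pp_123 : ∃ t, chk3 f_pp_123 t 65 81 1 = true := ex3_a s104_pp_123 k24_pp_123

theorem s106_pp_123 : ∃ t, chk3 f_pp_123 t 260 160 1 = true := ex3_a k17_pp_123 k18_pp_123

theorem s107_pp_123 : ∃ t, chk3 f_pp_123 t 130 160 1 = true := ex3_a s106_pp_123 k19_pp_123

theorem s108_pp_123 : ∃ t, chk3 f_pp_123 t 130 80 1 = true := ex3_b s107_pp_123 k20_pp_123

theorem s109_pp_123 : ∃ t, chk3 f_pp_123 t 65 80 1 = true := ex3_a s108_pp_123 k21_pp_123

theorem s110_pp_123 : ∃ t, chk3 f_pp_123 t 65 40 1 = true := ex3_b s109_pp_123 s105_pp_123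

theorem s111_pp_123 : ∃ t, chk3 f_pp_123 t 65 20 1 = true := ex3_b s110_pp_123 s103_pp_123

theorem s112_pp_123 : ∃ t, chk3 f_pp_123 t 32 20 1 = true := ex3_a k16_pp_123 s111_pp_123

theorem s113_pp_123 : ∃ t, chk3 f_pp_123 t 16 20 1 = true := ex3_a s112_pp_123 k27_pp_123

theorem s114_pp_123 : ∃ t, chk3 f_pp_123 t 16 10 1 = true := ex3_b s113_pp_123 s102_pp_123

theorem s115_pp_123 : ∃ t, chk3 f_pp_123 t 8 10 1 = true := ex3_a s114_pp_123 k41_pp_123

theorem s116_pp_123 : ∃ t, chk3 f_pp_123 t 4 10 1 = true := ex3_a s115_pp_123 k42_pp_123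

theorem s117_pp_123 : ∃ t, chk3 f_pp_123 t 4 5 1 = true := ex3_b s116_pp_123 s90_pp_123

theorem s118_pp_123 : ∃ t, chk3 f_pp_123 t 2 5 1 = true := ex3_a s117_pp_123 k61_pp_123

theorem s119_pp_123 : ∃ t, chk3 f_pp_123 t 1 5 1 = true := ex3_a s118_pp_123 k62_pp_123

theorem s120_pp_123 : ∃ t, chk3 f_pp_123 t 130 79 1 = true := ex3_b k8_pp_123 k9_pp_123

theorem s121_pp_123 : ∃ t, chk3 f_pp_123 t 65 79 1 = true := ex3_a s120_pp_123 k10_pp_123

theorem s122_pp_123 : ∃ t, chk3 f_pp_123 t 65 39 1 = true := ex3_b k7_pp_123 s121_pp_123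

theorem s123_pp_123 : ∃ t, chk3 f_pp_123 t 65 19 1 = true := ex3_b k6_pp_123 s122_pp_123

theorem s124_pp_123 : ∃ t, chk3 f_pp_123 t 65 9 1 = true := ex3_b k5_pp_123 s123_pp_123

theorem s125_pp_123 : ∃ t, chk3 f_pp_123 t 129 18 1 = true := ex3_b k2_pp_123 k3_pp_123

theorem s126_pp_123 : ∃ t, chk3 f_pp_123 t 64 18 1 = true := ex3_a k1_pp_123 s125_pp_123

theorem s127_pp_123 : ∃ t, chk3 f_pp_123 t 64 9 1 = true := ex3_b s126_pp_123 k4_pp_123

theorem s128_pp_123 : ∃ t, chk3 f_pp_123 t 32 9 1 = true := ex3_a s127_pp_123 s124_pp_123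

theorem s129_pp_123 : ∃ t, chk3 f_pp_123 t 32 4 1 = true := ex3_b k0_pp_123 s128_pp_123

theorem s130_pp_123 : ∃ t, chk3 f_pp_123 t 16 4 1 = true := ex3_a s129_pp_123 k11_pp_123

theorem s131_pp_123 : ∃ t, chk3 f_pp_123 t 8 4 1 = true := ex3_a s130_pp_123 k12_pp_123

theorem s132_pp_123 : ∃ t, chk3 f_pp_123 t 4 4 1 = true := ex3_a s131_pp_123 k13_pp_123

theorem s133_pp_123 : ∃ t, chk3 f_pp_123 t 2 4 1 = true := ex3_a s132_pp_123 k14_pp_123

theorem s134_pp_123 : ∃ t, chk3 f_pp_123 t 1 4 1 = true := ex3_a s133_pp_123 k15_pp_123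

theorem s135_pp_123 : ∃ t, chk3 f_pp_123 t 1 2 1 = true := ex3_b s134_pp_123 s119_pp_123

theorem s136_pp_123 : ∃ t, chk3 f_pp_123 t 1 1 1 = true := ex3_b s135_pp_123 s73_pp_123

theorem c_pp_123 : CertB 536870912 536870912 0 1230186008 966367641 24778659 3 eng mog cd0q1 cd2q3 pd2 false true true .npn 1 2 3
    ndB0q1 ndB2q3 pcB2 cut_pp_123 xt_pp_123 :=
  certB2 (fam := false) (s1 := true) (s2 := true) (a := 1) (b := 2) (c := 3) (cn := .npn) (n1 := ndB0q1) (n2 := ndB2q3) (pc := pcB2) (cut := cut_pp_123) (xt := xt_pp_123) (P1 := 536870912) (W1 := 536870912) (P2 := 0) (W2 := 1230186008) (P3 := 966367641) (W3 := 24778659) (N0 := 3) (En := eng) (mo := mog) (C1 := cd0q1) (C2 := cd2q3) (C3 := pd2)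
    rfl (fun _ => rfl) s136_pp_123

noncomputable def f_pp_133 : ℕ → ℕ → ℕ → ℕ → Bool := onCell 536870912 536870912 0 1230186008 966367641 24778659
    (rowB 3 eng mog cd0q1 cd2q3 pd3 0 false true true .dn 1 3 3 (qsf 536870912 536870912 0 1230186008 3) ndB0q1 ndB2q3 pcB3 Cut.none Ext.none)

def k0_pp_133 : ∃ t, chk3 f_pp_133 t 1 1 1 = true :=
  ⟨(b (b (a (a (a (b (l 568041181847) (l 1)) (l 1)) (l 1)) (l 1)) (l 1)) (l 1)), by decide +kernel⟩

theorem c_pp_133 : CertB 536870912 536870912 0 1230186008 966367641 24778659 3 eng mog cd0q1 cd2q3 pd3 false true true .dn 1 3 3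
    ndB0q1 ndB2q3 pcB3 Cut.none Ext.none :=
  certB0 (fam := false) (s1 := true) (s2 := true) (a := 1) (b := 3) (c := 3) (cn := .dn) (n1 := ndB0q1) (n2 := ndB2q3) (pc := pcB3) (cut := Cut.none) (xt := Ext.none) (P1 := 536870912) (W1 := 536870912) (P2 := 0) (W2 := 1230186008) (P3 := 966367641) (W3 := 24778659) (N0 := 3) (En := eng) (mo := mog) (C1 := cd0q1) (C2 := cd2q3) (C3 := pd3)
    rfl k0_pp_133

noncomputable def f_pp_202 : ℕ → ℕ → ℕ → ℕ → Bool := onCell 0 536870912 1073741824 536870912 966367641 24778659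
    (rowB 3 eng mog cd0q2 cd2q2 pd0 0 false true true .pp 2 0 2 (qsf 0 536870912 1073741824 536870912 0) ndB0q2 ndB2q2 pcB0 Cut.none Ext.none)

def k0_pp_202 : ∃ t, chk3 f_pp_202 t 1 1 1 = true :=
  ⟨(l 3), by decide +kernel⟩

theorem c_pp_202 : CertB 0 536870912 1073741824 536870912 966367641 24778659 3 eng mog cd0q2 cd2q2 pd0 false true true .pp 2 0 2
    ndB0q2 ndB2q2 pcB0 Cut.none Ext.none :=
  certB0 (fam := false) (s1 := true) (s2 := true) (a := 2) (b := 0) (c := 2) (cn := .pp) (n1 := ndB0q2) (n2 := ndB2q2) (pc := pcB0) (cut := Cut.none) (xt := Ext.none) (P1 := 0) (W1 := 536870912) (P2 := 1073741824) (W2 := 536870912) (P3 := 966367641) (W3 := 24778659) (N0 := 3) (En := eng) (mo := mog) (C1 := cd0q2) (C2 := cd2q2) (C3 := pd0)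
    rfl k0_pp_202

noncomputable def f_pp_203 : ℕ → ℕ → ℕ → ℕ → Bool := onCell 0 536870912 0 1230186008 966367641 24778659
    (rowB 3 eng mog cd0q2 cd2q3 pd0 0 false true true .up 2 0 3 (qsf 0 536870912 0 1230186008 0) ndB0q2 ndB2q3 pcB0 Cut.none Ext.none)

def k0_pp_203 : ∃ t, chk3 f_pp_203 t 1 1 1 = true :=
  ⟨(b (l 2) (l 3)), by decide +kernel⟩

theorem c_pp_203 : CertB 0 536870912 0 1230186008 966367641 24778659 3 eng mog cd0q2 cd2q3 pd0 false true true .up 2 0 3
    ndB0q2 ndB2q3 pcB0 Cut.none Ext.none :=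
  certB0 (fam := false) (s1 := true) (s2 := true) (a := 2) (b := 0) (c := 3) (cn := .up) (n1 := ndB0q2) (n2 := ndB2q3) (pc := pcB0) (cut := Cut.none) (xt := Ext.none) (P1 := 0) (W1 := 536870912) (P2 := 0) (W2 := 1230186008) (P3 := 966367641) (W3 := 24778659) (N0 := 3) (En := eng) (mo := mog) (C1 := cd0q2) (C2 := cd2q3) (C3 := pd0)
    rfl k0_pp_203

noncomputable def cut_pp_213 : Cut := Cut.of [[⟨0, 1, 0, 47710208⟩, ⟨1, 1, 0, 47710208⟩, ⟨2, 2, 0, 8388608⟩]]

noncomputable def f_pp_213 : ℕ → ℕ → ℕ → ℕ → Bool := onCell 0 536870912 0 1230186008 966367641 24778659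
    (rowB 3 eng mog cd0q2 cd2q3 pd1 0 false true true .pnn 2 1 3 (qsf 0 536870912 0 1230186008 1) ndB0q2 ndB2q3 pcB1 cut_pp_213 Ext.none)

def k0_pp_213 : ∃ t, chk3 f_pp_213 t 1 1 1 = true :=
  ⟨(b (b (a (l 3) (a (l 3) (a (l 3) (b (b (l 6) (l 3)) (l 3))))) (l 3)) (l 3)), by decide +kernel⟩

theorem c_pp_213 : CertB 0 536870912 0 1230186008 966367641 24778659 3 eng mog cd0q2 cd2q3 pd1 false true true .pnn 2 1 3
    ndB0q2 ndB2q3 pcB1 cut_pp_213 Ext.none :=
  certB0 (fam := false) (s1 := true) (s2 := true) (a := 2) (b := 1) (c := 3) (cn := .pnn) (n1 := ndB0q2) (n2 := ndB2q3) (pc := pcB1) (cut := cut_pp_213) (xt := Ext.none) (P1 := 0) (W1 := 536870912) (P2 := 0) (W2 := 1230186008) (P3 := 966367641) (W3 := 24778659) (N0 := 3) (En := eng) (mo := mog) (C1 := cd0q2) (C2 := cd2q3) (C3 := pd1)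
    rfl k0_pp_213

noncomputable def f_pm_001 : ℕ → ℕ → ℕ → ℕ → Bool := onCell 0 536870912 536870912 536870912 966367641 24778659
    (rowB 3 eng mog cd0q0 cd2q1 pd0 0 false true false .up 0 0 1 (qsf 0 536870912 536870912 536870912 0) ndB0q0 ndB2q1 pcB0 Cut.none Ext.none)

def k0_pm_001 : ∃ t, chk3 f_pm_001 t 1 1 1 = true :=
  ⟨(l 4), by decide +kernel⟩

theorem c_pm_001 : CertB 0 536870912 536870912 536870912 966367641 24778659 3 eng mog cd0q0 cd2q1 pd0 false true false .up 0 0 1
    ndB0q0 ndB2q1 pcB0 Cut.none Ext.none :=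
  certB0 (fam := false) (s1 := true) (s2 := false) (a := 0) (b := 0) (c := 1) (cn := .up) (n1 := ndB0q0) (n2 := ndB2q1) (pc := pcB0) (cut := Cut.none) (xt := Ext.none) (P1 := 0) (W1 := 536870912) (P2 := 536870912) (W2 := 536870912) (P3 := 966367641) (W3 := 24778659) (N0 := 3) (En := eng) (mo := mog) (C1 := cd0q0) (C2 := cd2q1) (C3 := pd0)
    rfl k0_pm_001

noncomputable def f_pm_011 : ℕ → ℕ → ℕ → ℕ → Bool := onCell 0 536870912 536870912 536870912 966367641 24778659
    (rowB 3 eng mog cd0q0 cd2q1 pd1 0 false true false .pnn 0 1 1 (qsf 0 536870912 536870912 536870912 1) ndB0q0 ndB2q1 pcB1 Cut.none Ext.none)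

def k0_pm_011 : ∃ t, chk3 f_pm_011 t 1 1 1 = true :=
  ⟨(l 4), by decide +kernel⟩

theorem c_pm_011 : CertB 0 536870912 536870912 536870912 966367641 24778659 3 eng mog cd0q0 cd2q1 pd1 false true false .pnn 0 1 1
    ndB0q0 ndB2q1 pcB1 Cut.none Ext.none :=
  certB0 (fam := false) (s1 := true) (s2 := false) (a := 0) (b := 1) (c := 1) (cn := .pnn) (n1 := ndB0q0) (n2 := ndB2q1) (pc := pcB1) (cut := Cut.none) (xt := Ext.none) (P1 := 0) (W1 := 536870912) (P2 := 536870912) (W2 := 536870912) (P3 := 966367641) (W3 := 24778659) (N0 := 3) (En := eng) (mo := mog) (C1 := cd0q0) (C2 := cd2q1) (C3 := pd1)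
    rfl k0_pm_011

noncomputable def f_pm_012 : ℕ → ℕ → ℕ → ℕ → Bool := onCell 0 536870912 536870912 536870912 966367641 24778659
    (rowB 3 eng mog cd0q0 cd2q2 pd1 1 false true false .pnp 0 1 2 (qsf 0 536870912 1073741824 536870912 1) ndB0q0 ndB2q2 pcB1 Cut.none Ext.none)

def k0_pm_012 : ∃ t, chk3 f_pm_012 t 2 1 1 = true :=
  ⟨(b (a (l 1) (b (l 1) (a (l 1) (b (l 1) (a (l 1) (b (l 1) (l 944388791047))))))) (b (a (b (l 1) (l 4)) (b (a (b (l 1) (b (l 1) (b (l 1) (l 4)))) (a (b (a (l 1) (l 959958151879)) (a (b (l 991096736167) (l 610992065527)) (b (l 16469208) (l 16493096)))) (b (a (l 525629405831) (l 16433376)) (a (l 16447848) (l 16373656))))) (a (l 4) (b (a (b (a (l 4) (l 16407256)) (l 4)) (b (l 16230040) (l 16077840))) (a (l 4) (b (l 16025760) (l 4))))))) (b (l 4) (l 4)))), by decide +kernel⟩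

def k1_pm_012 : ∃ t, chk3 f_pm_012 t 3 2 1 = true :=
  ⟨(a (b (a (l 1) (b (l 1) (a (l 1) (b (l 1) (l 388726675111))))) (a (b (a (l 1) (b (l 1) (l 755410022999))) (a (b (l 929893176391) (a (l 508986326551) (l 16463408))) (b (l 279205407623) (l 16377104)))) (b (a (b (l 604549147175) (l 255046103543)) (b (l 169683530151) (l 16362152))) (a (b (l 16367472) (l 16253352)) (b (l 16260024) (l 16146208)))))) (b (a (b (a (l 1) (b (l 1) (l 315712024535))) (a (b (l 351682480471) (l 154651037367)) (a (b (l 16181448) (l 16280680)) (l 111701270279)))) (b (a (b (l 292089623079) (a (l 16160640) (l 16181656))) (b (l 119754168215) (l 16189776))) (a (b (l 16247224) (l 16260720)) (b (l 16252472) (l 16188328))))) (a (b (a (b (l 16332384) (l 16264200)) (b (l 16264536) (l 16175416))) (a (c (l 16015328) (l 15990032)) (b (l 16075168) (l 15964912)))) (b (a (b (l 16184072) (l 16095872)) (c (l 15965296) (l 15965288))) (a (b (l 15997384) (l 15890144)) (b (l 15929296) (l 15823312))))))), by decide +kernel⟩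

def k2_pm_012 : ∃ t, chk3 f_pm_012 t 3 3 1 = true :=
  ⟨(a (b (b (b (a (a (l 16349368) (l 16245488)) (a (l 16044488) (l 16021976))) (a (a (a (l 16301112) (l 16230000)) (l 16041592)) (a (l 15930704) (l 15888224)))) (a (b (a (b (l 16165568) (l 16096696)) (l 15818888)) (a (b (l 16025296) (l 15948856)) (l 15839016))) (a (b (l 15891824) (a (l 15728960) (l 15665920))) (b (l 15745664) (l 15594928))))) (b (a (b (a (b (l 15866880) (l 15821744)) (b (l 15721088) (l 15637920))) (a (l 4) (c (l 15539288) (l 15456976)))) (a (b (a (l 15568448) (l 15504864)) (a (l 15398704) (l 15336320))) (b (c (l 15477056) (l 15394480)) (c (l 15298656) (l 15223784))))) (a (b (a (l 4) (b (l 15361960) (l 15268912))) (l 4)) (a (b (c (b (l 15286800) (l 15199104)) (l 15094096)) (a (l 15032288) (b (l 15025880) (l 14933040)))) (b (c (l 15155624) (l 15021368)) (a (l 14920392) (l 14909888))))))) (b (a (b (a (b (l 15928408) (l 15797432)) (b (l 15845504) (c (l 15740704) (l 15694840)))) (a (b (l 15658152) (c (l 15546176) (l 15476440))) (b (c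 (l 15610496) (l 15552400)) (a (l 15456904) (l 15426040))))) (b (a (b (l 15773176) (l 15648984)) (c (l 15670424) (l 15635512))) (a (b (l 15520248) (l 15384872)) (c (l 15435784) (l 15373352))))) (a (a (b (b (a (l 15375984) (l 15340344)) (c (l 15247712) (l 15123504))) (b (l 15036712) (l 14847472))) (b (b (l 15294960) (l 15122008)) (b (l 14965160) (c (l 14893368) (l 14753480))))) (b (a (c (l 15219680) (l 15122816)) (b (l 15205680) (l 15067176))) (a (b (l 14948880) (l 14816024)) (b (l 14924808) (l 14778968))))))), by decide +kernel⟩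

theorem s3_pm_012 : ∃ t, chk3 f_pm_012 t 3 1 1 = true := ex3_b k1_pm_012 k2_pm_012

theorem s4_pm_012 : ∃ t, chk3 f_pm_012 t 1 1 1 = true := ex3_a k0_pm_012 s3_pm_012

theorem c_pm_012 : CertB 0 536870912 1073741824 536870912 966367641 24778659 3 eng mog cd0q0 cd2q2 pd1 false true false .pnp 0 1 2
    ndB0q0 ndB2q2 pcB1 Cut.none Ext.none :=
  certB1 (fam := false) (s1 := true) (s2 := false) (a := 0) (b := 1) (c := 2) (cn := .pnp) (n1 := ndB0q0) (n2 := ndB2q2) (pc := pcB1) (cut := Cut.none) (xt := Ext.none) (P1 := 0) (W1 := 536870912) (P2 := 1073741824) (W2 := 536870912) (P3 := 966367641) (W3 := 24778659) (N0 := 3) (En := eng) (mo := mog) (C1 := cd0q0) (C2 := cd2q2) (C3 := pd1)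
    rfl (fun _ => rfl) s4_pm_012

noncomputable def f_pm_022 : ℕ → ℕ → ℕ → ℕ → Bool := onCell 1073741824 536870912 1073741824 536870912 966367641 24778659
    (rowB 3 eng mog cd0q0 cd2q2 pd2 2 false true false .pp 0 2 2 (qsf 0 536870912 1073741824 536870912 2) ndB0q0 ndB2q2 pcB2 Cut.none Ext.none)

def k0_pm_022 : ∃ t, chk3 f_pm_022 t 1 1 1 = true :=
  ⟨(a (b (l 4) (a (b (a (b (l 4) (a (b (a (a (b (l 4) (l 14912224)) (l 14971208)) (l 4)) (a (c (l 14950576) (l 14813832)) (b (l 14968320) (l 14945464)))) (b (l 4) (a (b (l 4) (l 15043720)) (l 4))))) (l 4)) (a (b (a (b (a (c (l 14907920) (l 14765816)) (c (l 14973360) (l 14835768))) (a (c (l 14880000) (l 14735432)) (c (l 14939712) (l 14797800)))) (b (a (c (l 15048688) (l 14916672)) (b (l 4) (l 15053600))) (a (c (l 15004816) (l 14867032)) (l 15010104)))) (a (b (a (c (l 14865328) (l 14722048)) (c (l 14919248) (l 14776232))) (a (c (l 14863472) (l 14726128)) (c (l 14911720) (l 14771176)))) (b (a (c (l 14978504) (l 14837392)) (l 15017040)) (a (c (l 14964976)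 (l 14823728)) (l 14954440))))) (b (a (b (l 4) (a (l 15094800) (l 15191264))) (l 4)) (a (b (a (l 15045376) (l 15121488)) (a (l 15017736) (l 15085240))) (b (a (l 15208216) (l 15302064)) (a (l 15156312) (l 15233144))))))) (b (l 4) (a (b (l 4) (a (a (b (l 4) (l 15316248)) (l 4)) (l 4))) (l 4))))) (l 4)), by decide +kernel⟩

theorem c_pm_022 : CertB 0 536870912 1073741824 536870912 966367641 24778659 3 eng mog cd0q0 cd2q2 pd2 false true false .pp 0 2 2
    ndB0q0 ndB2q2 pcB2 Cut.none Ext.none :=
  certB2 (fam := false) (s1 := true) (s2 := false) (a := 0) (b := 2) (c := 2) (cn := .pp) (n1 := ndB0q0) (n2 := ndB2q2) (pc := pcB2) (cut := Cut.none) (xt := Ext.none) (P1 := 0) (W1 := 536870912) (P2 := 1073741824) (W2 := 536870912) (P3 := 966367641) (W3 := 24778659) (N0 := 3) (En := eng) (mo := mog) (C1 := cd0q0) (C2 := cd2q2) (C3 := pd2)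
    rfl (fun _ => rfl) k0_pm_022

noncomputable def f_pm_023 : ℕ → ℕ → ℕ → ℕ → Bool := onCell 0 536870912 0 1230186008 966367641 24778659
    (rowB 3 eng mog cd0q0 cd2q3 pd2 0 false true false .up 0 2 3 (qsf 0 536870912 0 1230186008 2) ndB0q0 ndB2q3 pcB2 Cut.none Ext.none)

def k0_pm_023 : ∃ t, chk3 f_pm_023 t 1 1 1 = true :=
  ⟨(b (a (l 2) (a (l 2) (b (a (l 2) (b (l 15902816) (l 15907352))) (b (a (b (l 2) (l 15965424)) (b (l 15893824) (l 15871448))) (a (b (l 15955624) (l 15879256)) (b (l 15853576) (l 15600632))))))) (b (a (l 4) (b (a (a (l 2) (a (l 4) (b (l 16004344) (l 15977528)))) (a (b (a (l 15970056) (l 15900296)) (a (l 15938200) (l 15866392))) (b (a (l 15830288) (l 15764512)) (a (l 15794312) (l 15727672))))) (b (a (l 4) (a (a (l 15902656) (l 15827512)) (a (l 15753952) (l 15685328)))) (a (l 4) (a (a (l 15860624) (l 15782312)) (a (l 15705224) (l 15441944))))))) (a (l 4) (a (a (l 4) (a (b (l 4) (l 4)) (b (b (l 4) (l 4)) (b (b (l 15768248) (l 15709704)) (a (l 4) (b (l 15577312) (l 15329784)))))))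 (b (a (b (a (b (l 15825216) (l 15796464)) (l 15724360)) (a (b (l 15760688) (l 15715976)) (b (l 15665320) (l 15612704)))) (b (a (b (l 15658224) (l 15618880)) (b (l 15578160) (l 15533632))) (a (b (l 15570488) (l 15512184)) (b (l 15480768) (l 15355856))))) (b (a (a (b (l 15595792) (l 15461488)) (b (l 15527312) (c (l 15467776) (l 15475568)))) (a (b (l 15296336) (c (l 15359720) (l 15356480))) (b (c (l 15353792) (l 15332624)) (c (l 15257520) (l 15247280))))) (a (b (a (c (l 15487232) (l 15515640)) (c (l 15367648) (l 15382544))) (a (b (l 15380024) (l 15193800)) (c (l 14996936) (l 15079432)))) (b (a (c (l 15252976) (l 15257672)) (c (a (l 15172104) (l 15121952)) (a (l 15173064) (l 15122792)))) (a (c (b (l 15162184) (l 15097152)) (b (l 15172128) (l 15110120))) (c (b (l 15056104) (a (l 15017816) (l 14970560))) (b (l 15064960) (l 15007496)))))))))))), by decide +kernel⟩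

theorem c_pm_023 : CertB 0 536870912 0 1230186008 966367641 24778659 3 eng mog cd0q0 cd2q3 pd2 false true false .up 0 2 3
    ndB0q0 ndB2q3 pcB2 Cut.none Ext.none :=
  certB0 (fam := false) (s1 := true) (s2 := false) (a := 0) (b := 2) (c := 3) (cn := .up) (n1 := ndB0q0) (n2 := ndB2q3) (pc := pcB2) (cut := Cut.none) (xt := Ext.none) (P1 := 0) (W1 := 536870912) (P2 := 0) (W2 := 1230186008) (P3 := 966367641) (W3 := 24778659) (N0 := 3) (En := eng) (mo := mog) (C1 := cd0q0) (C2 := cd2q3) (C3 := pd2)
    rfl k0_pm_023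

noncomputable def f_pm_033 : ℕ → ℕ → ℕ → ℕ → Bool := onCell 1610612736 536870912 0 1230186008 966367641 24778659
    (rowB 3 eng mog cd0q0 cd2q3 pd3 2 false true false .pnn 0 3 3 (qsf 0 536870912 0 1230186008 3) ndB0q0 ndB2q3 pcB3 Cut.none Ext.none)

def k0_pm_033 : ∃ t, chk3 f_pm_033 t 1 1 1 = true :=
  ⟨(a (b (b (a (a (c (l 16064872) (l 15907384)) (a (l 16152536) (l 16163392))) (a (a (b (l 16180528) (l 16162688)) (b (l 16173848) (l 4))) (l 4))) (b (a (a (b (l 16114784) (l 15834304)) (b (a (l 16132528) (l 16141520)) (a (l 16102656) (l 16098592)))) (l 4)) (a (a (b (a (l 16043864) (l 16053240)) (a (l 16027704) (l 16018384))) (b (a (l 16055440) (l 4)) (l 4))) (l 4)))) (b (a (b (a (b (a (l 16004224) (l 4)) (l 4)) (l 4)) (l 4)) (l 4)) (l 4))) (b (l 4) (l 4))), by decide +kernel⟩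

theorem c_pm_033 : CertB 0 536870912 0 1230186008 966367641 24778659 3 eng mog cd0q0 cd2q3 pd3 false true false .pnn 0 3 3
    ndB0q0 ndB2q3 pcB3 Cut.none Ext.none :=
  certB2 (fam := false) (s1 := true) (s2 := false) (a := 0) (b := 3) (c := 3) (cn := .pnn) (n1 := ndB0q0) (n2 := ndB2q3) (pc := pcB3) (cut := Cut.none) (xt := Ext.none) (P1 := 0) (W1 := 536870912) (P2 := 0) (W2 := 1230186008) (P3 := 966367641) (W3 := 24778659) (N0 := 3) (En := eng) (mo := mog) (C1 := cd0q0) (C2 := cd2q3) (C3 := pd3)
    rfl (fun _ => rfl) k0_pm_033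

noncomputable def f_pm_101 : ℕ → ℕ → ℕ → ℕ → Bool := onCell 536870912 536870912 536870912 536870912 966367641 24778659
    (rowB 3 eng mog cd0q1 cd2q1 pd0 0 false true false .npn 1 0 1 (qsf 536870912 536870912 536870912 536870912 0) ndB0q1 ndB2q1 pcB0 Cut.none Ext.none)

def k0_pm_101 : ∃ t, chk3 f_pm_101 t 1 1 1 = true :=
  ⟨(l 4), by decide +kernel⟩

theorem c_pm_101 : CertB 536870912 536870912 536870912 536870912 966367641 24778659 3 eng mog cd0q1 cd2q1 pd0 false true false .npn 1 0 1
    ndB0q1 ndB2q1 pcB0 Cut.none Ext.none :=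
  certB0 (fam := false) (s1 := true) (s2 := false) (a := 1) (b := 0) (c := 1) (cn := .npn) (n1 := ndB0q1) (n2 := ndB2q1) (pc := pcB0) (cut := Cut.none) (xt := Ext.none) (P1 := 536870912) (W1 := 536870912) (P2 := 536870912) (W2 := 536870912) (P3 := 966367641) (W3 := 24778659) (N0 := 3) (En := eng) (mo := mog) (C1 := cd0q1) (C2 := cd2q1) (C3 := pd0)
    rfl k0_pm_101

noncomputable def f_pm_102 : ℕ → ℕ → ℕ → ℕ → Bool := onCell 536870912 536870912 0 536870912 966367641 24778659
    (rowB 3 eng mog cd0q1 cd2q2 pd0 1 false true false .npp 1 0 2 (qsf 536870912 536870912 1073741824 536870912 0) ndB0q1 ndB2q2 pcB0 Cut.none Ext.none)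

def k0_pm_102 : ∃ t, chk3 f_pm_102 t 2 1 1 = true :=
  ⟨(b (a (l 1) (b (l 1) (b (l 1) (a (l 1) (b (l 1) (a (l 1) (a (l 1) (l 339871201943)))))))) (a (b (b (l 1) (a (l 1) (b (l 1) (a (l 1) (a (l 1) (l 15911344)))))) (b (a (a (l 1) (b (l 1) (a (l 1) (l 16103568)))) (b (a (c (l 15960840) (l 121901450535)) (a (l 16071256) (l 16048632))) (a (a (l 16098200) (l 16069576)) (c (l 16028928) (l 16015840))))) (a (b (a (a (l 1) (l 16130424)) (a (l 16137672) (l 16103712))) (a (a (l 16191488) (l 16152728)) (c (l 16102536) (l 16076000)))) (b (a (c (l 16058344) (l 16037752)) (c (l 15985216) (l 15962352))) (a (a (l 16026168) (l 15983992)) (b (l 15934616) (l 15907184))))))) (b (b (a (b (l 1) (a (l 1) (b (l 1) (l 238402352119)))) (b (a (b (l 1) (l 179346153527)) (b (l 250750394519) (l 15950192))) (a (b (l 15932648) (l 15998104)) (l 15989608)))) (a (b (a (a (l 1) (l 185789007431)) (a (l 15981536) (l 16033336))) (a (a (l 16053736) (l 16038192)) (l 16011136))) (b (a (l 16019952) (a (l 16004832) (l 15995840))) (a (b (l 15987688)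 (l 15960048)) (c (l 15948416) (l 15943448)))))) (b (a (b (a (a (l 16023800) (l 15998152)) (b (l 15974216) (l 15924496))) (a (a (l 15975392) (l 15944304)) (a (l 15911976) (l 15867488)))) (a (b (c (l 15922408) (l 15912880)) (a (l 15872648) (l 15864904))) (b (c (l 15904584) (l 15889720)) (l 15898896)))) (b (a (a (a (l 15919472) (l 15884280)) (a (b (l 15869584) (l 15849056)) (l 15846384))) (a (l 15876456) (l 15823992))) (a (a (a (l 15864480) (l 15967928)) (l 16013184)) (a (l 15808768) (l 15799448)))))))), by decide +kernel⟩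

def k1_pm_102 : ∃ t, chk3 f_pm_102 t 6 2 1 = true :=
  ⟨(b (a (l 1) (b (l 1) (b (l 1) (b (l 1) (a (l 1) (a (l 1) (l 602938643207))))))) (b (a (b (l 1) (a (l 1) (l 676489418103))) (b (a (b (l 1) (l 678100073319)) (b (l 636224483927) (l 16055792))) (a (b (l 396242948247) (l 15947312)) (b (l 16067272) (a (l 16075816) (l 16176576)))))) (a (b (a (l 379062862583) (b (l 15882040) (l 15650376))) (a (a (l 324838814103) (l 15909344)) (b (l 15972400) (l 16036768)))) (b (a (b (l 15994328) (l 16061304)) (b (l 16171384) (l 16202104))) (a (b (l 16111296) (l 16129864)) (l 16183312)))))), by decide +kernel⟩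

def k2_pm_102 : ∃ t, chk3 f_pm_102 t 7 4 1 = true :=
  ⟨(a (b (b (l 1) (b (l 1) (a (l 1) (b (l 1) (a (l 1) (l 554083591223)))))) (b (a (b (l 1) (a (l 1) (l 573410898567))) (b (b (l 508986410919) (l 485900952039)) (b (l 427918926951) (l 404296579383)))) (a (b (a (l 581463929463) (l 558378487831)) (b (l 500933292423) (l 482142806215))) (b (a (l 16376888) (b (l 16427584) (l 16428096))) (a (b (l 16378144) (l 16386200)) (l 16383416)))))) (b (b (a (a (l 1) (b (l 1) (a (l 1) (b (l 1) (l 16547024))))) (a (b (a (l 1) (b (l 1) (a (l 1) (l 401075735607)))) (b (a (b (l 1) (l 16564824)) (l 364568470487)) (l 16541944))) (b (a (b (l 466037169447) (l 384432745239)) (b (l 16599704) (l 16597592))) (a (b (l 16566816) (l 16549232)) (b (l 16575392) (l 16542232)))))) (b (a (a (b (l 1) (l 449393945767)) (b (l 16516856) (l 16481592))) (a (a (l 16492504) (b (l 16511872) (l 16491888))) (a (b (l 16516936) (l 16490216)) (l 16503656)))) (a (b (a (l 16454112) (l 16445256)) (a (l 446172515799) (a (l 16422984) (c (l 16427200) (l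 16430296))))) (b (a (a (l 16462168) (l 16462568)) (l 16465408)) (a (l 16426128) (l 16450088)))))) (b (a (b (a (b (l 16425344) (l 16426816)) (b (l 16387736) (l 16454560))) (a (b (l 16429256) (l 16431168)) (l 16461384))) (b (a (a (l 16453560) (l 16449880)) (b (l 16448856) (l 16444728))) (a (l 16446576) (l 16433904)))) (a (b (a (l 16439552) (l 16455168)) (a (l 16462472) (l 16439536))) (b (a (l 16432456) (l 16413032)) (a (l 16410768) (l 16385464))))))), by decide +kernel⟩

def k3_pm_102 : ∃ t, chk3 f_pm_102 t 7 5 1 = true :=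
  ⟨(a (b (a (b (a (b (l 16149136) (l 16195040)) (b (l 16283416) (l 16302064))) (a (l 16160304) (l 16326568))) (b (b (a (l 16377192) (l 16435728)) (l 16400536)) (l 16343656))) (a (b (l 16268920) (l 16197624)) (b (l 16263264) (l 16187536)))) (b (a (b (a (l 16405544) (l 16380480)) (a (l 16320888) (l 16297600))) (b (a (l 16330816) (b (l 16346984) (l 16306816))) (a (l 16271384) (b (l 16269616) (l 16231808))))) (a (b (a (l 16241384) (l 16220344)) (c (l 16205344) (l 16154824))) (b (a (l 16196584) (b (l 16192328) (l 16155200))) (a (c (l 16112488) (l 16127496)) (b (l 16124320) (l 16095376))))))), by decide +kernel⟩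

def k4_pm_102 : ∃ t, chk3 f_pm_102 t 3 3 1 = true :=
  ⟨(a (b (b (a (b (a (l 16013992) (a (l 16070928) (l 16085656))) (a (a (l 16034528) (l 16036608)) (l 16038160))) (a (b (l 16104392) (l 16132072)) (a (l 16085976) (l 15985736)))) (a (b (a (l 15986368) (l 16070872)) (a (l 16021112) (l 15934976))) (a (c (l 16060864) (l 15928520)) (b (l 15998400) (l 15946752))))) (a (b (a (b (l 15890856) (l 15851120)) (b (l 15888752) (l 15849992))) (a (b (l 15819288) (l 15795976)) (b (l 15819432) (l 15797424)))) (b (c (a (l 15894816) (l 15909952)) (a (l 15850480) (l 15857976))) (a (b (l 15826008) (l 15805376)) (b (l 15839792) (l 15820600)))))) (b (a (b (a (c (l 16105992) (l 16082200)) (c (l 16077632) (l 16074600))) (a (a (l 15957304) (l 15959424)) (b (l 16127912) (l 16018272)))) (a (b (b (a (l 16101928) (b (l 16100696) (l 16072296))) (a (l 16042840) (b (l 16044280) (l 16015984)))) (b (a (l 16014944) (b (l 15990168) (l 15969280))) (a (l 16137280) (l 15942344)))) (b (b (a (c (l 16216536) (l 16039064)) (l 16034424)) (a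 (l 16058248) (c (l 16005720) (l 16012832)))) (b (a (l 15972848) (l 16115200)) (a (l 15935904) (l 15933232)))))) (a (b (a (b (l 15914160) (l 15880528)) (b (a (l 15916712) (l 15917248)) (a (l 15884752) (l 15885456)))) (a (b (l 15854880) (l 15837136)) (b (a (l 15862584) (l 15861016)) (a (l 15845328) (l 15849080))))) (b (a (b (a (l 15952512) (l 15910344)) (c (l 15904264) (l 15867376))) (b (a (l 15905080) (l 15903432)) (a (l 15879712) (l 15878312)))) (a (b (l 16096328) (l 15934744)) (b (a (l 15859248) (l 15857352)) (c (l 15847312) (l 15835952)))))))), by decide +kernel⟩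

theorem s5_pm_102 : ∃ t, chk3 f_pm_102 t 7 2 1 = true := ex3_b k2_pm_102 k3_pm_102

theorem s6_pm_102 : ∃ t, chk3 f_pm_102 t 3 2 1 = true := ex3_a k1_pm_102 s5_pm_102

theorem s7_pm_102 : ∃ t, chk3 f_pm_102 t 3 1 1 = true := ex3_b s6_pm_102 k4_pm_102

theorem s8_pm_102 : ∃ t, chk3 f_pm_102 t 1 1 1 = true := ex3_a k0_pm_102 s7_pm_102

theorem c_pm_102 : CertB 536870912 536870912 1073741824 536870912 966367641 24778659 3 eng mog cd0q1 cd2q2 pd0 false true false .npp 1 0 2
    ndB0q1 ndB2q2 pcB0 Cut.none Ext.none :=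
  certB1 (fam := false) (s1 := true) (s2 := false) (a := 1) (b := 0) (c := 2) (cn := .npp) (n1 := ndB0q1) (n2 := ndB2q2) (pc := pcB0) (cut := Cut.none) (xt := Ext.none) (P1 := 536870912) (W1 := 536870912) (P2 := 1073741824) (W2 := 536870912) (P3 := 966367641) (W3 := 24778659) (N0 := 3) (En := eng) (mo := mog) (C1 := cd0q1) (C2 := cd2q2) (C3 := pd0)
    rfl (fun _ => rfl) s8_pm_102

noncomputable def f_pm_112 : ℕ → ℕ → ℕ → ℕ → Bool := onCell 536870912 536870912 536870912 536870912 966367641 24778659
    (rowB 3 eng mog cd0q1 cd2q2 pd1 1 false true false .dn 1 1 2 (qsf 536870912 536870912 1073741824 536870912 1) ndB0q1 ndB2q2 pcB1 Cut.none Ext.none)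

def k0_pm_112 : ∃ t, chk3 f_pm_112 t 1 2 1 = true :=
  ⟨(a (a (b (a (b (a (b (l 16178728) (l 16239472)) (b (l 16218088) (l 16181944))) (a (b (l 16187760) (l 16102664)) (b (l 16066896) (l 16044672)))) (b (a (b (l 16170816) (l 16130056)) (b (l 16123808) (l 16079840))) (a (b (l 16076008) (l 16012024)) (l 15870032)))) (a (b (a (b (l 16027936) (l 15962768)) (b (l 15990456) (l 15907768))) (a (b (l 15868936) (l 15768064)) (c (l 15769104) (l 15770488)))) (b (a (l 15732856) (l 15857824)) (a (l 15729256) (l 15696400))))) (b (a (b (a (b (l 16076736) (l 16032368)) (l 15968736)) (a (l 15909704) (l 15912464))) (b (a (l 15968480) (l 15928632)) (a (l 15877664) (l 15846704)))) (a (b (a (l 15821752) (l 15791944)) (a (l 15671400) (l 15653912))) (b (a (l 15767856) (l 15749056)) (a (l 15643568) (l 15640128)))))) (a (b (a (b (a (l 15890696) (l 15854016)) (a (l 15819160) (l 15794352))) (b (a (l 15820744) (l 15792472)) (a (l 15774280) (l 15760344)))) (a (b (a (l 15735224) (l 15725768)) (a (l 15643504) (l 15653288))) (b (a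 (l 15722584) (l 15770728)) (a (l 15671344) (l 2))))) (b (a (b (a (b (l 15769344) (l 15764328)) (b (a (l 15753632) (l 15768872)) (l 15770352))) (a (b (l 15758080) (l 15751736)) (b (l 15774368) (l 15775136)))) (b (a (b (l 15806568) (l 15788296)) (b (c (l 15778272) (l 15812960)) (l 15936744))) (a (b (l 15788016) (l 2)) (l 2)))) (a (b (a (b (l 15746192) (l 2)) (l 2)) (l 2)) (l 2))))), by decide +kernel⟩

def k1_pm_112 : ∃ t, chk3 f_pm_112 t 1 3 1 = true :=
  ⟨(a (a (b (a (b (a (c (l 15618760) (l 15589936)) (l 15566088)) (a (b (l 15429256) (l 15306248)) (b (l 15399632) (l 15283568)))) (b (a (b (l 15586224) (l 15485248)) (b (l 15562520) (l 15468440))) (a (b (l 15380240) (l 15271688)) (b (l 15370944) (l 15270528))))) (a (b (a (b (l 15179024) (l 15048016)) (b (l 15163840) (l 15040896))) (a (b (l 14913672) (l 14776360)) (b (l 14915152) (l 14787000)))) (b (a (b (l 15160048) (l 15045784)) (b (l 15167656) (l 15062792))) (a (b (l 14929312) (l 2)) (l 2))))) (b (a (b (a (b (l 15547568) (l 15461024)) (l 15502656))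 (a (b (l 15371728) (l 15280184)) (l 15342288))) (b (a (l 15509088) (l 15524384)) (a (l 15368704) (l 2)))) (a (b (a (l 15224064) (l 2)) (l 2)) (l 2)))) (b (a (a (b (a (l 15548840) (l 2)) (l 2)) (l 2)) (l 2)) (l 2))), by decide +kernel⟩

theorem s2_pm_112 : ∃ t, chk3 f_pm_112 t 1 1 1 = true := ex3_b k0_pm_112 k1_pm_112

theorem c_pm_112 : CertB 536870912 536870912 1073741824 536870912 966367641 24778659 3 eng mog cd0q1 cd2q2 pd1 false true false .dn 1 1 2
    ndB0q1 ndB2q2 pcB1 Cut.none Ext.none :=
  certB1 (fam := false) (s1 := true) (s2 := false) (a := 1) (b := 1) (c := 2) (cn := .dn) (n1 := ndB0q1) (n2 := ndB2q2) (pc := pcB1) (cut := Cut.none) (xt := Ext.none) (P1 := 536870912) (W1 := 536870912) (P2 := 1073741824) (W2 := 536870912) (P3 := 966367641) (W3 := 24778659) (N0 := 3) (En := eng) (mo := mog) (C1 := cd0q1) (C2 := cd2q2) (C3 := pd1)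
    rfl (fun _ => rfl) s2_pm_112

noncomputable def cut_pm_113 : Cut := Cut.of [[⟨0, 1, 0, 47710208⟩, ⟨1, 1, 0, 47710208⟩, ⟨2, 2, 0, 8388608⟩]]

noncomputable def f_pm_113 : ℕ → ℕ → ℕ → ℕ → Bool := onCell 536870912 536870912 0 1230186008 966367641 24778659
    (rowB 3 eng mog cd0q1 cd2q3 pd1 0 false true false .nn 1 1 3 (qsf 536870912 536870912 0 1230186008 1) ndB0q1 ndB2q3 pcB1 cut_pm_113 Ext.none)

def k0_pm_113 : ∃ t, chk3 f_pm_113 t 2 1 1 = true :=
  ⟨(b (l 2) (b (b (l 2) (a (l 2) (a (l 2) (b (l 2) (a (l 2) (l 15122072)))))) (b (a (l 2) (a (b (a (l 2) (l 14880496)) (a (b (l 2) (l 14932992)) (l 15118712))) (b (a (l 15051880) (l 15205600)) (a (l 15167400) (l 15284864))))) (a (a (b (l 2) (b (a (l 2) (l 14831856)) (a (c (l 14829120) (l 14837624)) (l 14963392)))) (b (a (b (l 2) (l 14848600)) (b (l 14882376) (l 14986440))) (b (a (l 14966976) (l 15081504)) (a (l 15075448) (l 15179072))))) (b (a (a (b (l 15021784) (l 15103200)) (b (l 15140576) (l 15210408))) (a (b (l 15249656) (l 15308152)) (l 15372520)))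 (a (a (b (l 15186944) (l 15274040)) (b (l 15283304) (l 15359888))) (a (b (l 15370064) (l 15436016)) (b (l 15446656) (l 15501760))))))))), by decide +kernel⟩

def k1_pm_113 : ∃ t, chk3 f_pm_113 t 6 1 1 = true :=
  ⟨(b (l 2) (b (a (b (l 2) (b (l 117136298551) (a (l 15296272) (l 15454752)))) (b (b (a (l 2) (b (l 15907544) (l 15852680))) (a (l 15661904) (l 15789120))) (b (a (l 15620904) (l 15729472)) (a (l 15593728) (l 15686456))))) (a (a (b (b (l 15341624) (l 15392456)) (b (l 15455432) (l 15555152))) (b (b (l 15465592) (l 15488696)) (b (l 15526200) (l 15581432)))) (a (b (b (l 15577824) (l 15572504)) (b (l 15584480) (l 15637320))) (b (b (l 15656464) (l 15720504)) (b (b (l 15630736) (l 15631168)) (b (l 15635344) (l 15644976)))))))), by decide +kernel⟩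

def k2_pm_113 : ∃ t, chk3 f_pm_113 t 7 2 1 = true :=
  ⟨(b (a (l 2) (a (l 2) (b (l 6) (a (b (l 2) (a (l 16657048) (l 16678976))) (b (a (c (l 16697056) (l 16690928)) (b (a (l 16765480) (l 16763792)) (a (l 16772120) (l 16765040)))) (a (b (l 16722448) (l 16728040)) (b (a (l 16779312) (l 16767496)) (a (l 16786768) (l 16771520))))))))) (b (a (b (l 2) (a (l 2) (b (l 2) (a (l 2) (l 16513960))))) (b (a (a (l 2) (b (l 16600272) (l 16617512))) (a (b (a (l 16664024) (l 16711624)) (l 16627368)) (b (a (l 16699464) (c (l 16758056) (l 16744480))) (a (l 16790392) (b (l 16751680) (l 16743584)))))) (a (b (a (l 16560336) (l 16642032)) (a (l 16582816) (b (l 16664992) (l 16678136)))) (a (b (a (l 16715688) (l 16769000)) (b (l 16748184) (l 16784752))) (b (a (l 16782768) (a (l 16764176) (l 16737144))) (b (a (l 16790344) (a (l 16748760) (l 16721976))) (a (l 16783632) (l 16686968)))))))) (a (b (a (l 2) (b (a (l 2) (l 16526704)) (l 16446776))) (a (b (l 16256824) (l 16165584)) (b (a (l 16467368) (l 16570968)) (l 16380928))))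 (a (b (a (b (l 16603032) (l 16628232)) (b (l 16613824) (b (l 16719712) (l 16735576)))) (b (a (l 16658664) (l 16718864)) (a (l 16541448) (l 16577976)))) (b (a (b (a (l 16779008) (l 16773160)) (a (l 16810976) (l 16759032))) (a (b (b (l 16778640) (l 16752552)) (b (l 16768344) (l 16762568))) (b (b (a (l 16758400) (l 16731792)) (l 16697992)) (b (l 16692424) (l 16707384))))) (b (b (a (l 16773128) (a (l 16777216) (l 16700864))) (a (l 16724760) (a (l 16662128) (l 16601816)))) (b (a (l 16606536) (a (l 16546376) (l 16491080))) (a (l 16501088) (a (l 16443728) (l 16435080)))))))))), by decide +kernel⟩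

def k3_pm_113 : ∃ t, chk3 f_pm_113 t 7 3 1 = true :=
  ⟨(b (b (a (b (a (b (l 16086896) (l 16013760)) (b (a (l 16235392) (l 16321384)) (l 16172832))) (a (a (l 15888840) (l 15955400)) (a (l 16016016) (l 16060920)))) (b (b (a (a (l 16380144) (l 16396744)) (c (a (l 16455896) (b (l 16419280) (l 16335984))) (a (l 16273048) (b (l 16242192) (l 16172296))))) (a (a (l 16245488) (l 16252032)) (a (l 16219680) (c (l 16273224) (l 16083624))))) (a (a (l 16086112) (b (l 16135336) (l 16040408))) (a (b (l 16104672) (l 16011768)) (b (a (l 16066280) (l 16036400)) (a (l 15978632) (l 15953672))))))) (a (b (a (a (l 15807424) (l 15853912)) (a (l 15894224) (l 15922648))) (a (l 15847424) (b (l 15838624) (l 15800936)))) (a (b (a (b (l 15968760) (l 15906472)) (l 16033464)) (a (l 15832976) (l 16055568))) (b (a (b (l 15936288) (l 15875024)) (b (l 15918088) (l 15841184))) (a (b (l 15825320) (l 15785168)) (b (l 15796080) (l 15759480))))))) (b (a (b (a (l 15737072) (b (l 15769648) (l 15744192))) (a (b (l 15691648) (l 15679424)) (b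 (l 15723784) (l 15706824)))) (b (a (a (l 15764800) (b (l 15771448) (l 15743440))) (b (a (l 15752392) (l 15729768)) (a (l 15725672) (l 15705696)))) (a (b (l 15788272) (l 15706712)) (b (a (l 15704024) (l 15686392)) (a (l 15686744) (l 15671328)))))) (a (b (a (b (l 15669616) (l 15662096)) (b (l 15693176) (l 15682472))) (a (b (l 15656288) (l 15906248)) (b (l 15674568) (l 15669248)))) (b (a (b (l 15712864) (l 15911384)) (b (a (l 15673512) (l 15660368)) (a (l 15664272) (l 15653664)))) (a (b (l 15798872) (a (l 15671472) (l 15666448))) (b (a (l 15659184) (l 15651544)) (a (l 15658464) (l 15654480)))))))), by decide +kernel⟩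

theorem s4_pm_113 : ∃ t, chk3 f_pm_113 t 7 1 1 = true := ex3_b k2_pm_113 k3_pm_113

theorem s5_pm_113 : ∃ t, chk3 f_pm_113 t 3 1 1 = true := ex3_a k1_pm_113 s4_pm_113

theorem s6_pm_113 : ∃ t, chk3 f_pm_113 t 1 1 1 = true := ex3_a k0_pm_113 s5_pm_113

theorem c_pm_113 : CertB 536870912 536870912 0 1230186008 966367641 24778659 3 eng mog cd0q1 cd2q3 pd1 false true false .nn 1 1 3
    ndB0q1 ndB2q3 pcB1 cut_pm_113 Ext.none :=
  certB0 (fam := false) (s1 := true) (s2 := false) (a := 1) (b := 1) (c := 3) (cn := .nn) (n1 := ndB0q1) (n2 := ndB2q3) (pc := pcB1) (cut := cut_pm_113) (xt := Ext.none) (P1 := 536870912) (W1 := 536870912) (P2 := 0) (W2 := 1230186008) (P3 := 966367641) (W3 := 24778659) (N0 := 3) (En := eng) (mo := mog) (C1 := cd0q1) (C2 := cd2q3) (C3 := pd1)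
    rfl s6_pm_113

noncomputable def cut_pm_123 : Cut := Cut.of [[⟨0, 1, 0, 47710208⟩, ⟨1, 1, 0, 47710208⟩, ⟨2, 2, 0, 8388608⟩]]

noncomputable def f_pm_123 : ℕ → ℕ → ℕ → ℕ → Bool := onCell 1073741824 536870912 0 1230186008 966367641 24778659
    (rowB 3 eng mog cd0q1 cd2q3 pd2 2 false true false .npn 1 2 3 (qsf 536870912 536870912 0 1230186008 2) ndB0q1 ndB2q3 pcB2 cut_pm_123 Ext.none)

def k0_pm_123 : ∃ t, chk3 f_pm_123 t 1 4 1 = true :=
  ⟨(b (a (a (a (a (l 6) (a (a (l 16726680) (l 16708832)) (b (l 16693784) (l 16672904)))) (a (a (l 16650896) (l 16620120)) (a (l 16590056) (l 16561216)))) (a (a (l 16518008) (l 16453928)) (l 16134296))) (a (a (l 16139064) (l 16014512)) (a (l 15845960) (l 15651592)))) (a (a (b (a (a (a (a (b (l 16729800) (l 16731976)) (l 16730032)) (a (l 16714320) (l 16697056))) (a (l 16667808) (l 16631688))) (a (l 16541264) (l 16521440))) (a (a (a (b (c (l 16658920) (l 16655944)) (c (l 16646104) (l 16639784))) (b (l 16661040) (l 16624728))) (a (l 16604832) (l 16569200))) (a (l 16477496)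 (l 16455456)))) (a (a (l 16426864) (l 16356560)) (a (l 16279992) (l 16198272)))) (a (a (a (l 16115824) (l 16032312)) (l 15676920)) (a (a (l 15790400) (l 15760840)) (l 15793392))))), by decide +kernel⟩

def k1_pm_123 : ∃ t, chk3 f_pm_123 t 1 5 1 = true :=
  ⟨(a (b (a (a (b (a (a (b (l 16609064) (l 16602960)) (b (l 16588480) (l 16561056))) (a (l 16535760) (l 16498384))) (a (b (a (l 16555200) (l 16535192)) (a (b (l 16515080) (l 16540840)) (l 16486232))) (b (l 16476232) (a (l 16466696) (l 16428496))))) (b (a (a (l 16463592) (l 16429816)) (l 16380664)) (a (b (l 16403960) (l 16369080)) (b (l 16333928) (l 16282792))))) (b (a (a (l 16310992) (l 16235216)) (a (l 16153816) (l 16071240))) (a (a (b (l 16257504) (l 16205208)) (l 16070848)) (a (l 16067512) (l 15981056))))) (a (a (b (a (b (a (a (l 16523496) (l 16501936)) (l 16470304)) (a (a (l 16486440) (l 16464600)) (l 16372296))) (b (b (l 16412008) (l 16345392)) (b (l 16280432) (l 16217368)))) (a (b (a (a (l 16354256) (l 16282160)) (l 16209008)) (a (b (l 16173928)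 (l 16089848)) (l 16065832))) (b (a (l 16147880) (l 16107824)) (l 16159520)))) (b (a (b (l 16266504) (l 16163912)) (b (l 16192200) (l 16100320))) (a (b (l 16063400) (l 15965664)) (b (l 16009160) (l 15919464))))) (a (b (a (l 16014848) (l 16005208)) (a (b (l 15950248) (l 15865784)) (l 15844768))) (b (a (l 15928936) (l 15849216)) (a (l 15776248) (l 15683432)))))) (b (a (b (a (l 15925984) (a (l 15819656) (l 15744488))) (a (a (l 15894208) (l 15807440)) (a (l 15731800) (l 15703872)))) (b (a (l 15703136) (l 15836864)) (a (l 15725480) (l 15850992)))) (a (a (b (a (l 15767272) (l 15701824)) (a (l 15657264) (l 15646440))) (b (a (l 15679792) (l 15700616)) (a (l 15667952) (l 15704024)))) (a (b (l 15656056) (l 15548440)) (b (l 15874288) (l 1)))))), by decide +kernel⟩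

def k2_pm_123 : ∃ t, chk3 f_pm_123 t 1 6 1 = true :=
  ⟨(a (b (a (b (a (a (a (b (b (l 16013416) (l 16088512)) (l 15843432)) (b (l 15939640) (l 15826440))) (b (a (l 15916136) (l 15897920)) (l 15809520))) (a (b (l 15872056) (l 15785056)) (b (l 15831704) (l 15750328)))) (c (a (a (b (l 15866320) (l 15692448)) (l 15735368)) (a (l 15729936) (l 15714736))) (a (a (a (l 15636152) (l 15637488)) (l 15632912)) (a (l 15608736) (l 15565768))))) (b (a (b (a (l 15782672) (l 15725312)) (a (l 15705080) (l 15647712))) (a (b (l 15659408) (l 15603280)) (b (l 15618056) (l 15585816)))) (a (a (b (l 15633256) (l 15568584)) (b (l 15587608) (l 15545248))) (a (l 15548136) (l 15557784))))) (a (a (b (a (a (b (l 15572696) (l 15518456)) (b (l 15581176) (l 15528600))) (a (l 15557432) (l 15556856))) (a (b (a (l 15479424) (l 15488944)) (a (b (l 15458904) (l 15482216)) (b (l 15460360) (l 15427880)))) (b (a (l 15486992) (l 15480624)) (a (l 15427720) (l 15407216))))) (b (a (b (l 15574728) (a (l 15523112) (l 15511992))) (b (l 15544992)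 (l 15494144))) (a (b (a (l 15465552) (l 15446800)) (l 15389840)) (b (l 15432736) (l 15386336))))) (a (b (a (a (l 15497472) (l 15488808)) (l 15425704)) (a (b (l 15433208) (l 15403544)) (l 15444568))) (b (a (l 15505432) (l 15539280)) (a (l 15487712) (l 15544256)))))) (b (a (a (b (a (l 15603464) (l 15626168)) (a (l 15584800) (l 15625352))) (b (a (l 15662872) (l 15711488)) (a (l 15676680) (l 15737080)))) (a (b (a (l 15769704) (l 1)) (l 1)) (l 1))) (a (a (b (a (l 15586728) (l 15643992)) (a (l 15610648) (l 15682992))) (b (a (l 15708568) (l 1)) (l 1))) (l 1)))), by decide +kernel⟩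

def k3_pm_123 : ∃ t, chk3 f_pm_123 t 1 7 1 = true :=
  ⟨(a (a (b (a (b (a (b (a (c (l 15395136) (l 15369224)) (l 15360672)) (a (c (l 15300384) (l 15285736)) (l 15281296))) (b (a (l 15346192) (l 15337008)) (a (l 15276008) (l 15276040)))) (a (b (a (c (l 15217264) (l 15212040)) (c (l 15222112) (l 15203408))) (a (c (l 15144576) (l 15146928)) (c (l 15157368) (l 15147312)))) (b (a (l 15215192) (l 15224152)) (a (l 15163504) (l 15181240))))) (b (a (b (a (l 15333312) (l 15335152)) (l 15349264)) (b (l 15348120) (l 15318136))) (a (b (a (l 15238464) (l 15257984)) (a (l 15204240) (l 15232288))) (b (l 15296432) (l 15304016))))) (a (b (a (b (a (c (l 15082008) (l 15090096)) (c (l 15102288) (l 15099896))) (a (c (l 15029120) (l 15041896)) (c (l 15056864) (l 15061000)))) (b (a (l 15120872) (l 15147240)) (a (l 15192144) (l 15122192)))) (a (b (a (c (l 15028040) (l 15002200)) (c (l 15021256) (l 15030672))) (a (b (c (l 14960040) (l 14977696)) (c (l 14946208) (l 14964392))) (b (l 15006080) (l 14996800)))) (b (a (b (l 15067752)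 (l 15057832)) (c (l 15106264) (l 15107784))) (a (b (l 15050328) (l 1)) (l 1))))) (b (a (b (a (l 15178792) (l 15215216)) (a (l 15162168) (l 15206880))) (b (l 15131256) (a (l 15255856) (l 1)))) (a (b (a (l 15154664) (l 1)) (l 1)) (l 1))))) (b (a (b (a (b (l 15381536) (l 15367288)) (l 15282144)) (a (b (l 15360896) (l 15362464)) (b (l 15436200) (l 15450736)))) (b (a (l 15328984) (l 15511416)) (l 1))) (a (b (a (b (l 15372168) (l 1)) (l 1)) (l 1)) (l 1)))) (l 1)), by decide +kernel⟩

theorem s4_pm_123 : ∃ t, chk3 f_pm_123 t 1 3 1 = true := ex3_b k2_pm_123 k3_pm_123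

theorem s5_pm_123 : ∃ t, chk3 f_pm_123 t 1 2 1 = true := ex3_b k0_pm_123 k1_pm_123

theorem s6_pm_123 : ∃ t, chk3 f_pm_123 t 1 1 1 = true := ex3_b s5_pm_123 s4_pm_123

theorem c_pm_123 : CertB 536870912 536870912 0 1230186008 966367641 24778659 3 eng mog cd0q1 cd2q3 pd2 false true false .npn 1 2 3
    ndB0q1 ndB2q3 pcB2 cut_pm_123 Ext.none :=
  certB2 (fam := false) (s1 := true) (s2 := false) (a := 1) (b := 2) (c := 3) (cn := .npn) (n1 := ndB0q1) (n2 := ndB2q3) (pc := pcB2) (cut := cut_pm_123) (xt := Ext.none) (P1 := 536870912) (W1 := 536870912) (P2 := 0) (W2 := 1230186008) (P3 := 966367641) (W3 := 24778659) (N0 := 3) (En := eng) (mo := mog) (C1 := cd0q1) (C2 := cd2q3) (C3 := pd2)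
    rfl (fun _ => rfl) s6_pm_123

noncomputable def f_pm_133 : ℕ → ℕ → ℕ → ℕ → Bool := onCell 1610612736 536870912 0 1230186008 966367641 24778659
    (rowB 3 eng mog cd0q1 cd2q3 pd3 2 false true false .dn 1 3 3 (qsf 536870912 536870912 0 1230186008 3) ndB0q1 ndB2q3 pcB3 Cut.none Ext.none)

def k0_pm_133 : ∃ t, chk3 f_pm_133 t 1 1 1 = true :=
  ⟨(b (b (a (a (a (c (l 15978960) (l 15904832)) (l 1)) (l 1)) (l 1)) (l 1)) (l 1)), by decide +kernel⟩

theorem c_pm_133 : CertB 536870912 536870912 0 1230186008 966367641 24778659 3 eng mog cd0q1 cd2q3 pd3 false true false .dn 1 3 3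
    ndB0q1 ndB2q3 pcB3 Cut.none Ext.none :=
  certB2 (fam := false) (s1 := true) (s2 := false) (a := 1) (b := 3) (c := 3) (cn := .dn) (n1 := ndB0q1) (n2 := ndB2q3) (pc := pcB3) (cut := Cut.none) (xt := Ext.none) (P1 := 536870912) (W1 := 536870912) (P2 := 0) (W2 := 1230186008) (P3 := 966367641) (W3 := 24778659) (N0 := 3) (En := eng) (mo := mog) (C1 := cd0q1) (C2 := cd2q3) (C3 := pd3)
    rfl (fun _ => rfl) k0_pm_133

noncomputable def f_pm_202 : ℕ → ℕ → ℕ → ℕ → Bool := onCell 0 536870912 0 536870912 966367641 24778659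
    (rowB 3 eng mog cd0q2 cd2q2 pd0 1 false true false .pp 2 0 2 (qsf 0 536870912 1073741824 536870912 0) ndB0q2 ndB2q2 pcB0 Cut.none Ext.none)

def k0_pm_202 : ∃ t, chk3 f_pm_202 t 2 1 1 = true :=
  ⟨(l 3), by decide +kernel⟩

def k1_pm_202 : ∃ t, chk3 f_pm_202 t 6 1 1 = true :=
  ⟨(b (l 3) (l 3)), by decide +kernel⟩

def k2_pm_202 : ∃ t, chk3 f_pm_202 t 28 16 1 = true :=
  ⟨(a (l 3) (a (l 3) (a (l 3) (b (a (a (l 3) (a (l 3) (b (b (b (c (b (b (l 16387576) (l 16388328)) (l 16389456)) (b (b (l 16354760) (l 16355288)) (l 16356384))) (c (b (l 16391104) (l 16392792)) (l 109151739831))) (l 3)) (l 3)))) (b (b (a (c (b (b (b (l 16390288) (b (l 16390424) (l 16382776))) (c (b (l 16399296) (l 16400176)) (b (l 16382984) (l 16383704)))) (b (b (l 16392536) (l 16393352)) (l 16394584))) (c (b (b (l 16365920) (l 16366664)) (l 16368616)) (b (b (l 16349128) (l 16349520)) (b (l 16350544) (l 16352048))))) (b (b (l 16378536) (c (c (l 16403048) (l 16386744)) (l 16361584))) (b (a (c (l 16395080) (l 16360896)) (b (l 16379664)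 (l 16379816))) (c (l 16397296) (l 16362696))))) (b (c (b (l 16397544) (l 16399216)) (c (l 16372680) (l 16355040))) (c (l 16401792) (l 16366960)))) (b (b (c (l 16405264) (l 16370096)) (c (l 16408824) (l 16373296))) (b (l 16373752) (l 16377280))))) (b (c (l 104856857447) (l 97340588519)) (b (l 16395712) (l 3))))))), by decide +kernel⟩

def k3_pm_202 : ∃ t, chk3 f_pm_202 t 29 16 1 = true :=
  ⟨(b (a (a (a (b (b (b (c (l 16405736) (l 16373112)) (a (b (l 16385248) (a (c (l 16400384) (l 16365456)) (l 16387488))) (l 16394272))) (b (b (a (a (c (l 16401672) (l 16366200)) (l 16378368)) (l 16394288)) (a (c (l 16404768) (l 16368768)) (l 16394192))) (a (c (l 16406888) (l 16370624)) (b (l 16373232) (l 16373992))))) (b (b (a (l 16373840) (l 16383808)) (c (l 16416256) (l 16378592))) (b (c (l 16419760) (l 16381768)) (l 16383432)))) (b (b (l 16386784) (l 16387216)) (b (b (a (l 16382240) (l 16412736)) (a (l 16383896) (l 16412248))) (c (l 16411624) (l 16370560))))) (b (b (l 16435320) (l 16436640)) (b (l 16437032) (a (b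 (l 16426752) (l 16426152)) (l 16446768))))) (b (a (l 16474656) (l 16514880)) (a (l 16477648) (l 16520040)))) (a (a (b (b (c (l 16412712) (l 16372368)) (c (l 16420104) (l 16379080))) (c (a (l 16427152) (l 16436288)) (b (l 16406968) (l 16393528)))) (b (b (a (b (l 16427064) (l 16429080)) (l 16445816)) (a (l 16433256) (l 16445432))) (b (c (l 16468680) (l 16399928)) (l 16430952)))) (a (b (l 16477224) (b (l 16474608) (l 16413248))) (a (l 16447144) (l 16491096))))), by decide +kernel⟩

def k4_pm_202 : ∃ t, chk3 f_pm_202 t 14 17 1 = true :=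
  ⟨(a (l 3) (b (a (b (a (c (l 16469216) (l 16426616)) (l 16381896)) (c (l 16495520) (l 16450832))) (b (a (c (l 16511968) (l 16462960)) (l 16501736)) (a (l 16503152) (l 16488760)))) (a (c (l 16436360) (b (l 16466424) (l 16481448))) (b (l 16470368) (l 16526808))))), by decide +kernel⟩

def k5_pm_202 : ∃ t, chk3 f_pm_202 t 15 8 1 = true :=
  ⟨(b (b (a (a (b (l 16557312) (l 16565672)) (c (l 16599520) (l 16580448))) (b (a (a (l 16737152) (l 16689912)) (l 16616848)) (a (l 16696288) (a (l 16649568) (l 16618640))))) (a (a (b (l 16549040) (l 16529648)) (l 16585640)) (a (l 16533320) (b (l 16518056) (l 16578904))))) (b (a (b (l 16458504) (l 16463008)) (b (l 16464704) (l 16442736))) (a (a (b (l 16497032) (l 16461128)) (l 16531440)) (b (l 16443240) (l 16365976))))), by decide +kernel⟩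

def k6_pm_202 : ∃ t, chk3 f_pm_202 t 7 9 1 = true :=
  ⟨(a (a (l 3) (b (a (b (b (l 16457360) (l 16471848)) (l 105930634919)) (b (l 16487016) (l 16535712))) (b (c (l 16515240) (l 107541272983)) (b (l 85529588087) (l 84455830551))))) (b (a (a (b (l 16498136) (l 16642896)) (b (l 16592184) (l 16538016))) (b (c (l 16382384) (l 16454536)) (c (l 16443952) (l 16454304)))) (a (b (b (l 16442408) (l 16462840)) (a (l 16535656) (l 16493896))) (b (a (l 16464136) (l 16439696)) (a (l 16320232) (l 16407320)))))), by decide +kernel⟩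

def k7_pm_202 : ∃ t, chk3 f_pm_202 t 7 5 1 = true :=
  ⟨(a (a (l 3) (b (c (b (a (l 16484408) (l 16494792)) (a (l 56538557959) (l 16393952))) (b (a (l 16496768) (l 16575984)) (a (l 16545624) (l 16524472)))) (a (b (c (l 16386528) (l 16527040)) (l 122036444599)) (b (c (l 16369328) (l 16483072)) (c (l 16376216) (l 16448656)))))) (b (a (b (c (c (l 16382696) (l 16383176)) (a (l 16527064) (l 16452712))) (c (b (l 16403528) (l 16372624)) (a (l 16468280) (l 16407200)))) (b (b (a (l 16423248) (l 16370360)) (a (l 16383504) (l 16328744))) (b (a (l 16345096) (l 16286472)) (l 16154024)))) (b (a (c (a (l 16360200) (l 16304904)) (a (l 16399760) (l 16352984))) (b (l 16120584) (l 16090464))) (a (c (a (l 16320024) (l 16258872)) (l 16177840)) (a (l 16128672) (l 16140304)))))), by decide +kernel⟩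

def k8_pm_202 : ∃ t, chk3 f_pm_202 t 7 3 1 = true :=
  ⟨(a (a (l 3) (a (b (l 3) (l 3)) (b (b (b (c (l 16345784) (l 16416752)) (c (l 16317392) (l 16363984))) (b (l 114519942039) (l 16143400))) (b (b (l 16116184) (l 408725079639)) (l 3))))) (c (b (b (a (b (l 16106784) (l 16158632)) (b (l 16115608) (l 16076024))) (a (b (l 16191760) (l 16164824)) (b (l 16040928) (l 16010264)))) (b (a (b (l 16141144) (l 16119824)) (b (l 15984064) (l 15961464))) (a (b (l 16141904) (l 580993671463)) (b (l 15941576) (l 15923704))))) (b (b (a (b (l 16162048) (l 16190672)) (b (l 16145968) (l 16105248))) (a (b (l 16198936) (l 16209344)) (b (l 16067488) (l 16033336)))) (b (a (b (l 16181088) (l 16050736)) (b (l 16003472) (l 15977456))) (a (b (a (l 16173856) (l 16090696)) (l 829027582519)) (b (l 15955280) (l 15936864))))))), by decide +kernel⟩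

theorem s9_pm_202 : ∃ t, chk3 f_pm_202 t 14 16 1 = true := ex3_a k2_pm_202 k3_pm_202

theorem s10_pm_202 : ∃ t, chk3 f_pm_202 t 14 8 1 = true := ex3_b s9_pm_202 k4_pm_202

theorem s11_pm_202 : ∃ t, chk3 f_pm_202 t 7 8 1 = true := ex3_a s10_pm_202 k5_pm_202

theorem s12_pm_202 : ∃ t, chk3 f_pm_202 t 7 4 1 = true := ex3_b s11_pm_202 k6_pm_202

theorem s13_pm_202 : ∃ t, chk3 f_pm_202 t 7 2 1 = true := ex3_b s12_pm_202 k7_pm_202

theorem s14_pm_202 : ∃ t, chk3 f_pm_202 t 7 1 1 = true := ex3_b s13_pm_202 k8_pm_202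

theorem s15_pm_202 : ∃ t, chk3 f_pm_202 t 3 1 1 = true := ex3_a k1_pm_202 s14_pm_202

theorem s16_pm_202 : ∃ t, chk3 f_pm_202 t 1 1 1 = true := ex3_a k0_pm_202 s15_pm_202

theorem c_pm_202 : CertB 0 536870912 1073741824 536870912 966367641 24778659 3 eng mog cd0q2 cd2q2 pd0 false true false .pp 2 0 2
    ndB0q2 ndB2q2 pcB0 Cut.none Ext.none :=
  certB1 (fam := false) (s1 := true) (s2 := false) (a := 2) (b := 0) (c := 2) (cn := .pp) (n1 := ndB0q2) (n2 := ndB2q2) (pc := pcB0) (cut := Cut.none) (xt := Ext.none) (P1 := 0) (W1 := 536870912) (P2 := 1073741824) (W2 := 536870912) (P3 := 966367641) (W3 := 24778659) (N0 := 3) (En := eng) (mo := mog) (C1 := cd0q2) (C2 := cd2q2) (C3 := pd0)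
    rfl (fun _ => rfl) s16_pm_202

noncomputable def f_pm_203 : ℕ → ℕ → ℕ → ℕ → Bool := onCell 0 536870912 0 1230186008 966367641 24778659
    (rowB 3 eng mog cd0q2 cd2q3 pd0 0 false true false .up 2 0 3 (qsf 0 536870912 0 1230186008 0) ndB0q2 ndB2q3 pcB0 Cut.none Ext.none)

def k0_pm_203 : ∃ t, chk3 f_pm_203 t 1 1 1 = true :=
  ⟨(b (l 2) (b (l 2) (a (l 3) (b (l 2) (a (l 3) (a (b (l 3) (l 3)) (b (l 2) (a (b (a (b (l 2) (c (l 16019424) (l 142973865511))) (l 2)) (a (b (c (l 16031344) (l 138142049143)) (a (l 15840456) (l 15969200))) (b (l 15875360) (l 15906216)))) (b (l 2) (a (a (l 15815200) (l 15812816)) (l 15703376))))))))))), by decide +kernel⟩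

theorem c_pm_203 : CertB 0 536870912 0 1230186008 966367641 24778659 3 eng mog cd0q2 cd2q3 pd0 false true false .up 2 0 3
    ndB0q2 ndB2q3 pcB0 Cut.none Ext.none :=
  certB0 (fam := false) (s1 := true) (s2 := false) (a := 2) (b := 0) (c := 3) (cn := .up) (n1 := ndB0q2) (n2 := ndB2q3) (pc := pcB0) (cut := Cut.none) (xt := Ext.none) (P1 := 0) (W1 := 536870912) (P2 := 0) (W2 := 1230186008) (P3 := 966367641) (W3 := 24778659) (N0 := 3) (En := eng) (mo := mog) (C1 := cd0q2) (C2 := cd2q3) (C3 := pd0)
    rfl k0_pm_203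

end Pool.Agent.Strip051.G.I9000_9231.Tab.C.BB02

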