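import Pool.Agent.Strip051.G.I9000_9231.Tab
import Pool.Agent.Strip051.PB.ExtD2

/-! # Certificates B13 (generated) -/

set_option linter.all false
set_option maxRecDepth 100000

namespace Pool.Agent.Strip051.G.I9000_9231.Tab.C.BB02

open Pool.Agent.Strip051.PB Pool.Agent.Strip051.PB.T
open Pool.Agent.Strip051.G.I9000_9231.Tab

noncomputable def cut_pm_213 : Cut := Cut.of [[⟨0, 1, 0, 47710208⟩, ⟨1, 1, 0, 47710208⟩, ⟨2, 2, 0, 8388608⟩]]

noncomputable def xt_pm_213 : Ext := extD2 3 ⟨4, 1, 1, 5, 37, 10, 843, 1000, 41, 100, 1, 8⟩ eng cd0q2 cd2q3 pd1 false true false .pnn 2 1 3 rfl ndB0q2 ndB2q3 pcB1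

noncomputable def f_pm_213 : ℕ → ℕ → ℕ → ℕ → Bool := onCell 0 536870912 0 1230186008 966367641 24778659
    (rowB 3 eng mog cd0q2 cd2q3 pd1 0 false true false .pnn 2 1 3 (qsf 0 536870912 0 1230186008 1) ndB0q2 ndB2q3 pcB1 cut_pm_213 xt_pm_213)

def k0_pm_213 : ∃ t, chk3 f_pm_213 t 2 4 1 = true :=
  ⟨(l 3), by decide +kernel⟩

def k1_pm_213 : ∃ t, chk3 f_pm_213 t 6 4 1 = true :=
  ⟨(l 3), by decide +kernel⟩

def k2_pm_213 : ∃ t, chk3 f_pm_213 t 14 4 1 = true :=
  ⟨(l 3), by decide +kernel⟩

def k3_pm_213 : ∃ t, chk3 f_pm_213 t 30 4 1 = true :=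
  ⟨(l 3), by decide +kernel⟩

def k4_pm_213 : ∃ t, chk3 f_pm_213 t 31 8 1 = true :=
  ⟨(a (l 3) (l 6)), by decide +kernel⟩

def k5_pm_213 : ∃ t, chk3 f_pm_213 t 62 9 1 = true :=
  ⟨(l 3), by decide +kernel⟩

def k6_pm_213 : ∃ t, chk3 f_pm_213 t 63 18 1 = true :=
  ⟨(a (a (l 3) (b (a (l 3) (b (l 3) (a (l 3) (b (a (l 3) (b (c (l 330343375687) (l 255181450935)) (c (l 177872034775) (l 172503330151)))) (b (a (l 3) (c (l 174113938199) (l 170355846743))) (c (l 171429583447) (a (l 167671491975) (l 16774872)))))))) (a (b (l 3) (a (l 3) (b (l 3) (b (c (l 220284836599) (l 213305520999)) (c (l 159081551879) (l 153712850423)))))) (b (a (a (l 3) (b (b (l 3) (c (l 166060872663) (l 162839654199))) (c (b (l 163913390119) (l 172503324727)) (b (l 160155300087) (l 168745235047))))) (b (c (b (l 176261421591) (l 181093259687)) (a (b (l 164987137751) (l 173577072615)) (l 16772816))) (c (l 16771864) (b (l 16775576) (l 16775680))))) (a (b (b (c (l 169282099303) (a (l 166597751911) (l 16774488))) (c (l 174113937543)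 (l 169818978199))) (c (b (l 178408904663) (l 16772952)) (b (l 174113945815) (l 16776288)))) (b (c (l 16773064) (l 16775872)) (l 16775904))))))) (a (b (b (b (l 6) (a (b (a (c (a (l 260550157735) (l 184851357367)) (a (c (l 257865804999) (l 222969196999)) (l 181093264439))) (l 16774528)) (a (c (l 178408906583) (a (l 166060878935) (l 16775240))) (l 16774456))) (l 16774264))) (a (a (b (c (b (l 183777615207) (l 16773656)) (b (a (l 175724555479) (l 16775224)) (l 16773952))) (c (l 16773488) (l 16772672))) (b (l 16774360) (l 16774296))) (c (l 16773328) (l 16775016)))) (b (a (c (b (l 16773280) (l 16773160)) (b (l 16775384) (l 16775592))) (l 16774240)) (c (l 16773104) (l 16776088)))) (b (b (l 16768536) (l 16773824)) (b (l 16774096) (l 16774648))))), by decide +kernel⟩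

def k7_pm_213 : ∃ t, chk3 f_pm_213 t 252 19 1 = true :=
  ⟨(b (b (l 3) (l 3)) (a (l 3) (b (b (a (l 3) (a (l 3) (c (c (l 158007805271) (l 156397200119)) (c (l 154249723575) (b (l 147807279159) (l 155323473383)))))) (a (l 3) (b (c (c (l 159618418279) (l 157470942615)) (c (l 155860337415) (l 154786604039))) (c (c (l 163376515111) (l 161765910647)) (c (l 159618434807) (l 158544701815)))))) (b (a (b (l 3) (a (l 3) (c (c (l 151028484503) (l 149954751575)) (c (l 148881018647) (l 2662659439078090200821798431))))) (c (b (c (l 167134611959) (l 164987136855)) (c (l 130090519335) (l 127943044695))) (c (b (l 163376532215) (l 126869311591)) (a (b (l 157470960983) (l 129016804055)) (l 16782848))))) (a (b (a (l 3) (c (c (a (l 150491614055) (l 121500584951)) (a (l 148881010407) (l 119353110567))) (c (a (l 147807277943) (l 117742506807)) (c (l 152639120903) (l 151565383575))))) (b (a (l 3) (c (c (l 163913387351) (l 161765913015)) (c (l 160155309639) (b (l 158007834983) (l 159618448119))))) (c (a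 (c (l 149417872647) (l 146733529495)) (c (l 118816231079) (l 116668756887))) (a (b (l 3) (c (l 144586053735) (l 2585288025501973664836605471))) (c (l 115595024583) (c (l 16782696) (l 107005099623))))))) (c (a (c (l 16770872) (l 16775168)) (l 16774768)) (c (b (l 16780016) (l 16780600)) (b (l 16783808) (l 16784544))))))))), by decide +kernel⟩

def k8_pm_213 : ∃ t, chk3 f_pm_213 t 253 19 1 = true :=
  ⟨(a (b (b (a (b (l 3) (b (l 3) (c (l 154249709015) (l 147807271943)))) (c (b (b (l 164450261191) (l 167671486839)) (b (l 171966454295) (l 16772264))) (b (c (l 161765912151) (l 160155304535)) (b (l 168208368695) (l 170355852999))))) (b (a (c (b (l 157470939447) (l 161765906935)) (c (l 156397204759) (l 155323469591))) (c (l 16772360) (b (l 16777536) (l 16777888)))) (c (a (c (l 167134610903) (l 165524005207)) (l 16773224)) (a (c (l 163376528119) (a (l 156934084135) (l 16779696))) (l 16778456))))) (b (c (a (b (b (l 151565360807) (l 16773440)) (l 16773752)) (l 16773720)) (b (a (c (l 145659789559)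 (l 149417893911)) (l 16779336)) (b (l 16781288) (l 16780504)))) (c (b (l 16774400) (l 16775080)) (b (l 16776120) (l 16782632))))) (c (b (b (b (l 16770368) (l 16773064)) (l 16773328)) (b (l 16774032) (l 16775200))) (b (b (b (l 16777304) (l 16777208)) (l 16773008)) (b (l 16780104) (l 16782480))))), by decide +kernel⟩

def k9_pm_213 : ∃ t, chk3 f_pm_213 t 127 19 1 = true :=
  ⟨(b (b (a (c (l 16773296) (l 16777144)) (l 16775512)) (c (l 16763632) (l 16768456))) (a (b (l 16756648) (l 16758592)) (l 16758432))), by decide +kernel⟩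

def k10_pm_213 : ∃ t, chk3 f_pm_213 t 2 5 1 = true :=
  ⟨(l 3), by decide +kernel⟩

def k11_pm_213 : ∃ t, chk3 f_pm_213 t 6 10 1 = true :=
  ⟨(l 3), by decide +kernel⟩

def k12_pm_213 : ∃ t, chk3 f_pm_213 t 14 10 1 = true :=
  ⟨(l 3), by decide +kernel⟩

def k13_pm_213 : ∃ t, chk3 f_pm_213 t 30 20 1 = true :=
  ⟨(l 3), by decide +kernel⟩

def k14_pm_213 : ∃ t, chk3 f_pm_213 t 62 20 1 = true :=
  ⟨(a (l 3) (b (l 3) (a (l 3) (a (l 3) (a (l 3) (b (l 3) (b (a (l 3) (c (c (l 191830634199) (b (l 185925056887) (l 148344088519))) (b (c (l 176261383191) (l 162302742663)) (c (l 146196607271) (l 144049125751))))) (b (c (b (l 147807213335) (l 148880952903)) (c (l 145122860263) (a (l 156397150631) (l 148344087175)))) (c (c (l 154249672775) (l 149954692343)) (c (l 147270338567) (a (l 140827888311) (l 16743248)))))))))))), by decide +kernel⟩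

def k15_pm_213 : ∃ t, chk3 f_pm_213 t 504 40 1 = true :=
  ⟨(b (b (l 3) (a (l 3) (a (l 3) (c (b (b (c (l 182166992983) (l 173577070519)) (c (l 149417866663) (l 147807262727))) (b (c (l 152639090599) (l 151028486359)) (c (l 157470925991) (l 154249709815)))) (c (c (b (l 170892717815) (l 150491619479)) (b (l 3204258468266855992983524895) (l 149954752983))) (b (b (c (l 161765922999) (l 2991487966160078274970162719)) (c (l 144586051927) (l 2565946072467582034740368927))) (b (c (l 146733531671) (l 145659794103)) (c (l 149954754823) (l 148881016951))))))))) (b (a (l 3) (c (c (b (a (l 185388212231) (b (l 161229026903) (l 16767528))) (c (l 156397176839) (l 157470930199))) (b (b (l 150491611703) (l 151565351623)) (a (l 147807252775) (l 16766448)))) (c (c (b (l 2691673356971637470147253791) (l 151565353175)) (b (a (l 169282103191) (l 154786586727)) (l 151028486103))) (b (c (a (l 166597751671) (l 153712848759)) (a (l 3078530535532684592356234271) (b (l 153712857543) (l 154249726215)))) (b (c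 (l 148344134871) (l 147807267799)) (c (l 150491616215) (l 149417877911))))))) (b (a (l 3) (c (c (l 159618402375) (a (l 153712828711) (l 16767376))) (c (b (l 154249706823) (l 155860317063)) (a (b (l 147807262039) (l 151028485063)) (l 16772168))))) (c (a (c (l 180556370263) (l 171429563495)) (c (l 16759648) (l 16763184))) (a (c (l 164450248375) (b (l 158544671127) (l 139754189543))) (c (l 157470927559) (b (l 154786578919) (l 16769136)))))))), by decide +kernel⟩

def k16_pm_213 : ∃ t, chk3 f_pm_213 t 504 41 1 = true :=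
  ⟨(c (b (b (c (a (b (l 148344105559) (l 151565327495)) (l 16757432)) (a (b (l 146196627559) (l 148880977639)) (l 16760912))) (c (b (l 157470904583) (l 158544642503)) (b (l 155323425287) (l 156397162375)))) (b (a (b (b (l 158544640935) (l 16750128)) (l 16749448)) (l 16744744)) (c (l 16741264) (l 16740704)))) (c (b (a (b (b (a (l 3) (l 147807245767)) (l 146733499111)) (b (l 149417848727) (l 152102198215))) (b (b (l 16765520) (l 16763368)) (l 16760064))) (b (b (l 154249676615) (l 16743712)) (l 16745400))) (b (a (b (c (b (l 142975407943) (l 145122888583)) (b (l 141901667959) (l 144586017527))) (a (b (l 142438530759) (l 147270363079)) (c (l 16757944) (l 16760720)))) (b (b (l 16762072) (l 16764832)) (l 16761000))) (b (b (b (l 152102196103) (l 16751016)) (l 16748992)) (a (l 16747392) (l 16750216)))))), by decide +kernel⟩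

def k17_pm_213 : ∃ t, chk3 f_pm_213 t 505 40 1 = true :=
  ⟨(b (b (a (a (b (a (l 3) (c (b (c (c (l 155860324647) (l 154786586407)) (l 152639108343)) (b (c (c (l 161229034183) (l 160155296135)) (c (l 159081558471) (l 158007821447))) (c (c (l 164987129943) (l 16772968)) (l 161765913063)))) (c (b (c (l 152639116839) (l 149417892567)) (c (l 156934080647) (b (l 154786601815) (l 160155313687)))) (b (c (l 148344155607) (b (l 147807291847) (l 151028517783))) (b (c (l 153712864871) (b (c (l 151028512647) (l 150491644151)) (l 155860356023))) (c (l 159081576535) (l 158544710007))))))) (c (b (c (a (c (l 190220062007) (l 185388227591)) (c (l 16771336) (l 16773152))) (a (l 185388232167) (l 165524008599))) (b (c (l 161229030279) (l 159618426791)) (c (l 163376513079) (l 162302783239)))) (c (b (c (l 154249724247) (l 153175987095)) (b (l 157470952359) (l 159618434983))) (c (b (a (l 174650828023) (l 155860349815)) (l 155860344279)) (c (b (l 151028510503) (l 154786604743)) (b (a (l 146196677927) (l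 16786448)) (l 154249736103))))))) (c (b (b (c (l 16773112) (l 16776928)) (c (l 16770320) (l 16775440))) (c (l 16772024) (l 16775656))) (b (b (c (l 16780864) (a (l 16785528) (l 16784944))) (c (l 16780680) (b (l 16785616) (l 16784480)))) (c (l 16779400) (l 16784568))))) (c (b (c (l 16767968) (l 16771792)) (l 16774024)) (b (c (l 16780976) (l 16786344)) (l 16784152)))) (a (c (b (a (c (a (b (l 163376512071) (l 16770280)) (l 16770672)) (c (l 163913387783) (l 162839650375))) (l 16772448)) (c (l 16766784) (l 16771224))) (c (b (b (c (l 163913402103) (l 161765917879)) (l 16776632)) (l 16775424)) (a (b (b (c (l 159081567399) (l 158007830103)) (b (l 16780832) (l 16780320))) (a (l 16779704) (l 16779040))) (l 16782576)))) (c (l 16771952) (c (l 16776960) (l 16780424))))) (b (a (c (b (l 16769496) (l 16762752)) (c (l 16773568) (b (l 16776912) (l 16774688)))) (c (l 16769040) (l 16774648))) (b (c (l 16766600) (l 16771312)) (c (l 16765024) (l 16769112))))), by decide +kernel⟩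

def k18_pm_213 : ∃ t, chk3 f_pm_213 t 505 41 1 = true :=
  ⟨(b (c (b (l 16752096) (l 16759216)) (b (l 16765696) (l 16760952))) (c (l 16753912) (b (l 16756000) (l 16750864)))), by decide +kernel⟩

def k19_pm_213 : ∃ t, chk3 f_pm_213 t 253 20 1 = true :=
  ⟨(b (b (b (a (c (l 16776280) (b (l 16783424) (l 16781976))) (l 16763624)) (c (l 16772680) (l 16779456))) (c (b (l 16769816) (l 16766784)) (b (l 16775448) (l 16771184)))) (b (c (l 16761928) (l 16764304)) (c (l 16754960) (l 16754344)))), by decide +kernel⟩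

def k20_pm_213 : ∃ t, chk3 f_pm_213 t 127 20 1 = true :=
  ⟨(b (c (b (l 16775816) (l 16770416)) (b (l 16762192) (l 16775552))) (c (b (l 16764248) (l 16757424)) (b (l 16766600) (l 16756616)))), by decide +kernel⟩

def k21_pm_213 : ∃ t, chk3 f_pm_213 t 30 21 1 = true :=
  ⟨(l 3), by decide +kernel⟩

def k22_pm_213 : ∃ t, chk3 f_pm_213 t 124 21 1 = true :=
  ⟨(l 3), by decide +kernel⟩

def k23_pm_213 : ∃ t, chk3 f_pm_213 t 125 42 1 = true :=
  ⟨(a (l 3) (a (a (l 3) (b (l 3) (b (l 3) (a (l 3) (c (c (l 167134537207) (b (l 161228952055) (l 142975336903))) (b (c (l 148880916791) (b (l 141364719431) (l 135459136487))) (c (c (l 140827847687) (l 139754103207)) (c (l 138143488103) (l 137069743559))))))))) (c (c (b (b (b (l 148880946263) (l 149954684807)) (b (l 150491552375) (l 151028419847))) (b (b (l 151565288055) (l 152102155687)) (b (l 16727600) (l 16736208)))) (b (b (a (b (l 3) (l 142438500023)) (b (l 152102171495) (l 16745696))) (b (l 147807196551) (l 148344063559))) (b (b (l 148880930439)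 (l 148880926455)) (b (l 16729368) (l 16721784))))) (b (b (a (b (l 3) (c (l 139754132247) (b (l 136532905415) (l 137606644455)))) (c (b (l 149417817143) (l 16740336)) (c (b (l 147807204151) (l 16743192)) (b (l 146733462583) (l 16737232))))) (c (a (b (l 141901611031) (l 142438480839)) (b (l 16741784) (l 16739232))) (c (b (l 144049097479) (l 143512221031)) (a (b (l 138143510183) (l 139754122071)) (l 16735328))))) (b (c (b (b (l 146196572599) (l 146196570279)) (b (l 146196567607) (l 146196565207))) (c (b (l 144049086247) (l 144049080215)) (a (b (l 140827858919) (l 141901594583)) (l 16731624)))) (c (b (b (l 16726528) (l 16719888)) (l 16723008)) (a (b (c (l 16723056) (l 16723880)) (l 16718848)) (l 16725912)))))))), by decide +kernel⟩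

def k24_pm_213 : ∃ t, chk3 f_pm_213 t 125 86 1 = true :=
  ⟨(c (a (l 3) (b (a (a (l 3) (b (c (l 144049080775) (l 141364720167)) (c (l 145659690311) (l 142438457447)))) (c (l 16722848) (l 16718168))) (a (c (b (b (l 142975340519) (l 142438460087)) (a (l 138680361287) (l 16717840))) (b (b (l 139754083671) (a (l 140290962183) (l 144049063943))) (b (l 140290960871) (l 139754093319)))) (b (c (l 16709416) (l 16703968)) (l 16715544))))) (a (l 3) (b (a (c (b (c (l 137606612503) (l 136532871479)) (c (l 137606606887) (l 136532865351))) (a (l 3) (c (b (l 137069738295) (l 137606604487)) (b (a (l 131701024519) (l 139217220503)) (b (l 136532859431) (l 136532855783)))))) (a (c (l 16723776) (b (l 16699720) (l 16717200))) (l 16721576))) (a (b (a (b (l 3) (b (l 3) (c (l 137069724903) (c (l 133311619975) (l 131701006711))))) (c (b (l 140827831975) (c (l 16714416) (l 140290954199))) (c (b (l 138680340215) (b (l 16714416) (l 16708312))) (b (l 137069722983) (b (l 137606590743) (l 137606588887)))))) (c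 (b (c (l 137606587271) (l 136532850199)) (c (l 138143456903) (l 136532848871))) (c (b (a (l 131164134999) (l 16707640)) (a (l 131701004551) (l 16712184))) (a (a (l 3) (b (l 132237876391) (l 131701006039))) (b (l 16707312) (l 16698728)))))) (b (c (l 16708896) (l 16713720)) (c (l 16717296) (l 16690360))))))), by decide +kernel⟩

def k25_pm_213 : ∃ t, chk3 f_pm_213 t 125 87 1 = true :=
  ⟨(a (b (l 3) (b (l 3) (b (l 3) (a (l 3) (c (c (l 135995982103) (l 133311626263)) (b (l 3) (c (l 131164130263) (c (l 131701002487) (l 134385350871))))))))) (c (c (a (b (a (b (l 139754101191) (l 140827840711)) (b (l 16716696) (l 16726016))) (b (b (l 142975322999) (l 142975321815)) (b (l 16718512) (l 16712664)))) (b (l 16706216) (l 16703880))) (a (b (b (b (l 139754092103) (l 139754090215)) (b (l 139754088967) (l 139754087703))) (c (b (l 140290959031) (l 132774764391)) (a (b (l 138143470439) (l 135459113255)) (l 16706288)))) (b (l 16700336) (l 16697808)))) (c (a (c (b (b (a (l 135459113207) (l 16717064))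 (a (l 135995984135) (l 16715744))) (c (b (l 137606595015) (l 134385367175)) (b (l 137069721415) (l 133848494183)))) (b (b (b (l 136532847527) (l 136532846183)) (b (l 136532850711) (l 136532849335))) (b (b (l 136532847959) (l 135995976295)) (b (l 135995974903) (l 16706848))))) (b (l 16715312) (l 16712600))) (a (b (b (a (a (l 3) (b (c (l 133848493207) (l 132774747079)) (c (l 135459104871) (l 133848487783)))) (b (l 16704744) (l 16688304))) (c (a (b (l 133311613127) (l 133311618919)) (l 16709712)) (b (c (l 133848479719) (l 2401532080583717520497381407)) (b (l 133848483655) (l 133311612007))))) (a (c (b (b (l 133848489047) (l 134385358519)) (b (l 134385357079) (l 16703624))) (b (b (a (l 130627256711) (l 16705416)) (l 132774738311)) (b (l 133311607735) (l 133311606215)))) (b (l 16706736) (l 16705256)))) (b (b (l 16709920) (l 16708480)) (l 16706304)))))), by decide +kernel⟩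

def k26_pm_213 : ∃ t, chk3 f_pm_213 t 63 21 1 = true :=
  ⟨(b (a (b (a (a (c (b (l 16743848) (l 16733496)) (b (c (l 16724840) (l 16734008)) (a (l 16729160) (l 16739840)))) (c (l 16746504) (l 16742880))) (c (l 16747576) (l 16743696))) (a (c (b (l 16719408) (l 16715320)) (b (a (l 16734104) (l 16734504)) (l 16728376))) (c (l 16739704) (l 16732224)))) (b (l 16747880) (l 16717240))) (b (a (b (a (c (l 16732040) (l 16722136)) (l 16728368)) (b (a (c (l 16728744) (l 16717248)) (l 16724336)) (c (l 16727904) (l 16715552)))) (b (l 16730528) (l 16704624))) (a (a (b (c (l 16725376) (l 16713000)) (c (l 16722984) (l 16710224))) (c (l 16725856) (l 16712736))) (c (l 16728656) (l 16714744))))), by decide +kernel⟩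

def k27_pm_213 : ∃ t, chk3 f_pm_213 t 6 11 1 = true :=
  ⟨(l 3), by decide +kernel⟩

def k28_pm_213 : ∃ t, chk3 f_pm_213 t 14 11 1 = true :=
  ⟨(l 3), by decide +kernel⟩

def k29_pm_213 : ∃ t, chk3 f_pm_213 t 30 22 1 = true :=
  ⟨(l 3), by decide +kernel⟩

def k30_pm_213 : ∃ t, chk3 f_pm_213 t 124 22 1 = true :=
  ⟨(b (l 3) (l 3)), by decide +kernel⟩

def k31_pm_213 : ∃ t, chk3 f_pm_213 t 500 22 1 = true :=
  ⟨(b (l 3) (b (a (l 3) (b (a (l 3) (a (l 3) (b (l 3) (c (b (c (l 130627261127) (l 128479763751)) (c (l 131164130279) (l 129016632983))) (c (b (c (l 132774705287) (l 134385309591)) (c (l 132774704103) (l 125258481415))) (c (l 169818695911) (l 204715211495))))))) (c (b (a (l 3) (c (b (l 131164128743) (l 131164127287)) (c (l 129553508071) (b (l 128479760487) (l 127942879159))))) (b (c (l 130627254279) (b (l 128479765335) (l 128479764551))) (c (l 130627252631) (b (l 127942864663) (l 127405992967))))) (c (c (b (b (l 126332230775) (l 125258466023)) (b (l 124721572407) (l 125258471335)))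 (b (b (l 123110912727) (l 122574019671)) (l 123110920615))) (b (b (l 118815849767) (l 120426496583)) (b (l 119352734007) (l 118815841943))))))) (b (a (l 3) (c (c (b (c (l 130627257751) (a (l 129016637463) (l 16702960))) (c (l 130090383351) (a (l 129016634199) (l 16701432)))) (b (b (b (l 127405992823) (l 127405991959)) (b (l 127405991543) (l 126869119943))) (b (b (l 126869119335) (l 126869118935)) (b (l 126332247367) (l 126332246935))))) (b (c (c (a (l 124184707671) (l 16625232)) (l 121500263799)) (b (l 118278950087) (l 16528968))) (c (c (l 122574051255) (l 119889608151)) (l 116668297143))))) (c (c (b (b (c (l 129553514615) (l 128479765751)) (c (l 129016642151) (l 127942893255))) (b (c (l 128479764759) (l 126869116375)) (c (l 128479762855) (l 126332244567)))) (b (c (b (l 125795351351) (l 125258458167)) (b (l 123110909783) (l 122037146423))) (c (b (l 125258478743) (l 124184714791)) (a (l 121500259319) (l 16602600))))) (b (c (c (l 119889629447) (l 118278944471)) (l 115594507015)) (c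 (b (l 119352730311) (l 118278968183)) (l 113983856119))))))), by decide +kernel⟩

def k32_pm_213 : ∃ t, chk3 f_pm_213 t 501 44 2 = true :=
  ⟨(c (c (b (b (b (l 137069725095) (l 137069722695)) (b (l 137069720263) (l 137069717767))) (b (b (l 136532844311) (l 135995985895)) (b (l 135459113335) (l 134922240055)))) (b (b (b (l 135459106439) (l 135459103959)) (b (l 135459101431) (l 135459098855))) (b (b (l 135459096215) (l 134922233127)) (b (l 134385366695) (l 133848493671))))) (b (a (l 3) (b (b (b (l 133311614871) (l 133848484471)) (b (l 133848497575) (l 134385367159))) (b (b (l 134385365815) (l 134922235383)) (b (l 134922234007) (l 134922231975))))) (b (c (b (l 133848487655) (a (l 132237861303) (l 16699960))) (a (b (l 130627255479) (l 130627252615)) (b (l 126332297335) (l 16696704)))) (b (a (a (l 3) (b (l 132237869543) (l 132774738999))) (l 16702152)) (a (c (l 131701002407) (a (l 129553510999) (l 16704016))) (l 16705936)))))), by decide +kernel⟩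

def k33_pm_213 : ∃ t, chk3 f_pm_213 t 501 44 3 = true :=
  ⟨(c (b (a (l 3) (b (c (a (l 3) (b (l 132774752055) (l 134385362663))) (b (b (l 130627245079) (l 130627243671)) (b (l 131164113143) (l 131164111703)))) (c (b (a (l 131164134711) (l 130090393191)) (b (l 133311615703) (l 133311613607))) (c (b (l 131701001015) (l 132237869655)) (b (l 131164127575) (l 131164124599)))))) (c (c (b (b (l 131700992791) (l 131164118951)) (b (l 130627245063) (l 130090378663))) (b (b (l 131164118647) (l 130627244759)) (b (l 130090381303) (l 129553504055)))) (b (b (b (l 130090383175) (l 130090381655)) (b (l 130090380135) (l 129553507687))) (b (b (l 129553506151) (l 129016633687)) (b (l 127942864071) (l 127942862823)))))) (b (a (l 3) (c (c (b (b (l 130090379303) (l 130627247287)) (b (l 130627253463) (l 130627250103))) (b (b (l 129553510503) (l 2353174178784548256092295199)) (b (l 130090380647) (l 130090374871)))) (b (b (b (l 129016640903) (l 129553510295)) (b (l 130090379687) (l 129016636311))) (b (b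 (l 129016634759) (l 129016628615)) (b (l 128479740071) (l 129016609559)))))) (b (b (b (a (l 3) (c (l 130627243527) (l 129016608183))) (c (l 129016633255) (a (l 152102016055) (l 16673072)))) (b (c (l 128479760775) (l 2285471094041392205480841759)) (c (l 128479757319) (l 124721559607)))) (b (b (c (l 127405991095) (l 123647794263)) (c (l 126869096055) (l 124184690423))) (c (b (l 126869118887) (l 126332224871)) (b (l 123647795847) (l 122574031943))))))), by decide +kernel⟩

def k34_pm_213 : ∃ t, chk3 f_pm_213 t 501 45 1 = true :=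
  ⟨(b (c (c (b (b (c (l 134385367735) (l 133311618631)) (a (c (l 16705800) (l 122037326215)) (l 16709776))) (a (b (c (l 16688656) (l 16685264)) (l 16706480)) (l 16707624))) (b (c (a (b (l 131700998839) (l 123111060631)) (l 16705432)) (c (b (l 131164125847) (l 120426702951)) (b (l 130090378999) (l 120963570103)))) (b (c (l 16703000) (l 16699536)) (b (l 16700112) (l 16699336))))) (c (b (c (c (b (l 129553504359) (l 121500437575)) (b (l 129016630023) (l 127405992119))) (b (b (l 127405990775) (l 127405989447)) (b (l 126869117495) (l 16649512)))) (b (c (l 16679512) (l 16632200)) (b (l 16638504) (l 16627112)))) (b (b (a (c (b (l 125258458711) (l 124721564983)) (l 122037138183)) (l 16609392)) (a (c (l 123647800519) (l 16557360)) (l 16586744))) (b (b (l 16567296) (l 16556472)) (l 16540464))))) (c (b (b (c (l 16705192) (l 16698160)) (c (l 16703680) (l 16678720))) (b (b (l 16698952) (l 16694712)) (a (l 16679040) (l 16680744)))) (b (b (c (l 16610264) (l 16519552)) (c (l 16588256) (l 16499120)))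 (c (b (l 16566744) (l 16545720)) (l 16469320))))), by decide +kernel⟩

def k35_pm_213 : ∃ t, chk3 f_pm_213 t 251 22 1 = true :=
  ⟨(c (c (b (b (b (a (b (a (l 16716800) (l 16722432)) (l 16710520)) (l 16722440)) (b (l 16709680) (l 16697928))) (b (b (l 16696640) (l 16695328)) (l 16709056))) (b (b (l 16711544) (l 16708680)) (b (l 16705712) (l 16702616)))) (b (b (b (a (a (b (b (l 16705840) (l 16694688)) (l 16709424)) (l 16715672)) (l 16716192)) (a (b (l 16703008) (l 16691160)) (l 16713520))) (b (b (l 16711104) (l 16709704)) (a (l 16707208) (l 16707936)))) (b (b (l 16704640) (l 16701608)) (b (l 16698480) (l 16664832))))) (c (b (b (b (a (b (a (b (a (l 16704880) (l 16710256)) (l 16698992)) (l 16710104)) (b (l 16698424) (l 16708192))) (l 16709816)) (a (b (l 16701872) (l 16705656)) (l 16706968))) (b (b (l 16704480) (l 16702984)) (a (l 16689928) (l 16701016)))) (b (b (l 16697608) (l 16666064)) (b (l 16617984) (l 16572144)))) (b (b (b (a (c (b (b (l 16695136) (l 16683912)) (l 16703760)) (b (b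 (l 16702448) (l 16701688)) (l 16700536))) (l 16703336)) (a (b (b (l 16701000) (l 16700232)) (l 16699072)) (l 16700288))) (b (b (l 16697728) (l 16696144)) (b (l 16676392) (l 16651264)))) (b (b (l 16614640) (l 16567848)) (b (l 16523272) (l 16480824)))))), by decide +kernel⟩

def k36_pm_213 : ∃ t, chk3 f_pm_213 t 63 22 1 = true :=
  ⟨(b (b (a (c (b (l 16721368) (l 16718840)) (b (a (l 16707384) (l 16708544)) (l 16684096))) (c (l 16723984) (l 16709280))) (c (a (b (l 16716232) (l 16713520)) (l 16718944)) (a (b (l 16702096) (l 16699040)) (l 16703512)))) (b (c (a (b (l 16710712) (l 16707800)) (l 16713480)) (a (b (l 16695904) (l 16663928)) (l 16697424))) (a (c (b (l 16704776) (l 16701624)) (b (l 16610816) (l 16560464))) (c (l 16707536) (l 16653040))))), by decide +kernel⟩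

def k37_pm_213 : ∃ t, chk3 f_pm_213 t 30 23 1 = true :=
  ⟨(l 3), by decide +kernel⟩

def k38_pm_213 : ∃ t, chk3 f_pm_213 t 62 46 1 = true :=
  ⟨(a (a (l 3) (a (l 3) (b (a (l 3) (a (l 3) (b (l 3) (a (l 3) (c (b (b (l 3) (c (l 127405972807) (l 191830321431))) (c (b (l 124721596807) (l 123110962887)) (c (l 16554208) (l 16515144)))) (c (b (l 16496160) (l 16457120)) (l 16389104))))))) (b (a (l 3) (c (b (c (c (b (l 122574017415) (l 122574042343)) (l 120963371991)) (l 118278941527)) (c (b (a (l 169281791111) (l 16619528)) (l 120426518759)) (l 116668291271))) (c (c (l 113983822743) (l 16411376)) (l 16356040)))) (b (c (a (l 3) (c (b (l 119352757639) (l 118278995431)) (l 16498920))) (l 111836268663)) (c (c (b (l 117742041191) (l 118278949303)) (l 114520728119)) (l 110762493655))))))) (b (a (c (b (a (b (c (b (c (l 127406002407) (l 125795372663)) (c (l 126332241943) (l 125258496759))) (c (b (l 123110950919) (l 122574058855)) (l 120426513895))) (c (b (c (l 125795369799) (l 124184733127)) (c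 (l 125258497991) (l 123647840487))) (a (c (l 122037166951) (l 119352730759)) (l 16581696)))) (b (l 16675384) (l 16632096))) (b (a (b (c (c (l 124721626103) (l 122574077511)) (l 118815901159)) (c (c (l 16676592) (l 16614728)) (l 118279009895))) (l 16610272)) (a (c (b (b (l 16648144) (l 16621904)) (l 16655992)) (b (l 16544072) (l 16534280))) (l 16588944)))) (b (c (a (b (a (l 118278949143) (l 16518864)) (l 115594554631)) (l 16515048)) (b (l 111299465111) (l 16419528))) (c (b (l 112910162103) (l 16463240)) (l 108078169671)))) (c (b (l 16663048) (l 16616640)) (b (l 16484272) (l 16444264)))) (c (b (a (c (a (b (b (l 16603680) (l 16593424)) (l 16599216)) (l 16598224)) (a (b (l 16519784) (l 16500856)) (l 16517728))) (l 16572392)) (a (b (c (l 16562712) (l 16485504)) (c (l 16542952) (l 16467096))) (l 16530224))) (c (a (b (a (l 16433376) (l 16438456)) (l 16400864)) (l 16428096)) (b (l 16361984) (l 16328496)))))), by decide +kernel⟩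

def k39_pm_213 : ∃ t, chk3 f_pm_213 t 63 46 1 = true :=
  ⟨(b (c (a (b (l 16698336) (l 16657816)) (l 16701024)) (a (b (l 16512728) (l 16467488)) (l 16538264))) (b (c (l 16636808) (l 16441072)) (c (l 16584984) (l 16397032)))), by decide +kernel⟩

def k40_pm_213 : ∃ t, chk3 f_pm_213 t 31 47 1 = true :=
  ⟨(a (a (a (l 3) (b (a (l 3) (c (b (b (c (b (l 117205189847) (l 116131429271)) (l 112910080615)) (c (a (l 117205152695) (l 16496976)) (l 16425432))) (c (b (l 113447021191) (l 16461000)) (l 109151919351))) (b (c (l 16364080) (l 16295600)) (c (l 16333896) (l 16267736))))) (c (c (b (b (l 112910073863) (l 111299428631)) (a (l 111836269271) (l 16404112))) (b (l 109151851031) (l 105393694903))) (b (c (l 16305200) (l 16242184)) (l 101098610935))))) (b (c (b (a (c (a (l 16552664) (l 16517680)) (l 16440256)) (l 16490056)) (a (c (l 16477280) (l 16405984)) (l 16451816))) (b (b (l 16341568) (l 16325392)) (c (l 16337584) (l 16266424)))) (c (b (c (l 16446816) (l 16376056)) (a (l 16375256) (l 16380840)))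 (b (l 16271912) (l 16243456))))) (b (b (c (l 16535928) (l 16355456)) (c (l 16489496) (l 16316200))) (c (a (l 16453800) (l 16439576)) (a (l 16258264) (l 16266392))))), by decide +kernel⟩

def k41_pm_213 : ∃ t, chk3 f_pm_213 t 2 3 1 = true :=
  ⟨(l 3), by decide +kernel⟩

def k42_pm_213 : ∃ t, chk3 f_pm_213 t 6 3 1 = true :=
  ⟨(b (l 3) (l 3)), by decide +kernel⟩

def k43_pm_213 : ∃ t, chk3 f_pm_213 t 14 3 1 = true :=
  ⟨(b (l 3) (b (l 3) (b (l 3) (l 3)))), by decide +kernel⟩

def k44_pm_213 : ∃ t, chk3 f_pm_213 t 15 6 1 = true :=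
  ⟨(a (a (b (l 3) (l 3)) (a (b (l 3) (b (l 3) (b (l 289539678535) (l 190218542567)))) (b (b (l 3) (b (b (l 3) (l 628842517095)) (b (l 89824062007) (l 83918429735)))) (b (b (b (l 16029016) (l 16008392)) (l 15980704)) (b (l 15949456) (l 15923536)))))) (b (b (b (a (b (c (a (a (l 3) (b (c (l 104856886807) (l 16312152)) (c (l 16343976) (l 16285552)))) (b (l 16345976) (l 16315592))) (a (b (l 102709181815) (l 99487908775)) (b (l 16216464) (l 16190856)))) (c (a (b (a (l 368997266919) (l 16289040)) (l 100024891079)) (b (l 16287600) (l 16261856))) (a (b (l 95729766999) (l 16161400)) (l 16155680)))) (b (c (a (l 16338736) (l 16354880)) (l 16279360)) (c (a (l 16275296) (l 16282176)) (l 16138192)))) (a (c (a (b (a (l 102172330151) (l 16231672)) (l 88213610279)) (b (l 16225336) (l 16180456))) (b (l 80697325399) (l 16085704))) (c (a (l 16194184) (l 16190640)) (l 16064736)))) (b (a (c (b (a (l 16156416) (l 16139480)) (l 16111968)) (b (l 16051872) (l 16020968))) (c (l 16096016) (l 15983056))) (a (c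 (b (l 16079264) (l 16049384)) (l 15979440)) (c (l 16017360) (l 15916304))))) (b (b (a (c (l 16009304) (l 15932696)) (l 16012024)) (a (l 15991968) (l 15858736))) (b (a (l 15894576) (l 15819432)) (a (l 15866136) (l 15787304)))))), by decide +kernel⟩

def k45_pm_213 : ∃ t, chk3 f_pm_213 t 15 7 1 = true :=
  ⟨(b (b (a (a (l 3) (b (a (l 192365991639) (l 15902096)) (b (l 15907952) (l 15900512)))) (b (a (l 15842760) (l 15761120)) (a (l 15823744) (l 15739920)))) (a (b (a (b (l 3) (l 182702334439)) (b (l 15893960) (l 15888304))) (a (b (l 158543147447) (l 155321928855)) (b (l 15883560) (l 15879808)))) (b (a (l 15808656) (l 15723024)) (a (l 15797424) (l 15710176))))) (b (a (b (a (c (l 141900330935) (b (l 158543070343) (l 155858718119))) (b (l 15877112) (l 15875576))) (a (c (b (l 15995688) (l 16001304)) (b (l 153174368967) (l 150490023863))) (b (l 15875272) (l 15876320)))) (b (a (l 15790312) (l 15701424)) (a (l 15787784) (l 15697112)))) (a (b (a (b (c (l 16008648) (l 146731939367)) (a (l 132236484375)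 (l 15948720))) (b (l 15878864) (l 15883040))) (b (a (a (l 140289484487) (l 15955904)) (l 15889008)) (l 1))) (b (a (l 15916408) (l 15697792)) (b (l 15749096) (l 321080369911)))))), by decide +kernel⟩

theorem s46_pm_213 : ∃ t, chk3 f_pm_213 t 15 3 1 = true := ex3_b k44_pm_213 k45_pm_213

theorem s47_pm_213 : ∃ t, chk3 f_pm_213 t 7 3 1 = true := ex3_a k43_pm_213 s46_pm_213

theorem s48_pm_213 : ∃ t, chk3 f_pm_213 t 3 3 1 = true := ex3_a k42_pm_213 s47_pm_213

theorem s49_pm_213 : ∃ t, chk3 f_pm_213 t 1 3 1 = true := ex3_a k41_pm_213 s48_pm_213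

theorem s50_pm_213 : ∃ t, chk3 f_pm_213 t 31 46 1 = true := ex3_a k38_pm_213 k39_pm_213

theorem s51_pm_213 : ∃ t, chk3 f_pm_213 t 31 23 1 = true := ex3_b s50_pm_213 k40_pm_213

theorem s52_pm_213 : ∃ t, chk3 f_pm_213 t 15 23 1 = true := ex3_a k37_pm_213 s51_pm_213

theorem s53_pm_213 : ∃ t, chk3 f_pm_213 t 501 44 1 = true := ex3_c k32_pm_213 k33_pm_213

theorem s54_pm_213 : ∃ t, chk3 f_pm_213 t 501 22 1 = true := ex3_b s53_pm_213 k34_pm_213

theorem s55_pm_213 : ∃ t, chk3 f_pm_213 t 250 22 1 = true := ex3_a k31_pm_213 s54_pm_213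

theorem s56_pm_213 : ∃ t, chk3 f_pm_213 t 125 22 1 = true := ex3_a s55_pm_213 k35_pm_213

theorem s57_pm_213 : ∃ t, chk3 f_pm_213 t 62 22 1 = true := ex3_a k30_pm_213 s56_pm_213

theorem s58_pm_213 : ∃ t, chk3 f_pm_213 t 31 22 1 = true := ex3_a s57_pm_213 k36_pm_213

theorem s59_pm_213 : ∃ t, chk3 f_pm_213 t 15 22 1 = true := ex3_a k29_pm_213 s58_pm_213

theorem s60_pm_213 : ∃ t, chk3 f_pm_213 t 15 11 1 = true := ex3_b s59_pm_213 s52_pm_213

theorem s61_pm_213 : ∃ t, chk3 f_pm_213 t 7 11 1 = true := ex3_a k28_pm_213 s60_pm_213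

theorem s62_pm_213 : ∃ t, chk3 f_pm_213 t 3 11 1 = true := ex3_a k27_pm_213 s61_pm_213

theorem s63_pm_213 : ∃ t, chk3 f_pm_213 t 125 43 1 = true := ex3_b k24_pm_213 k25_pm_213

theorem s64_pm_213 : ∃ t, chk3 f_pm_213 t 125 21 1 = true := ex3_b k23_pm_213 s63_pm_213

theorem s65_pm_213 : ∃ t, chk3 f_pm_213 t 62 21 1 = true := ex3_a k22_pm_213 s64_pm_213

theorem s66_pm_213 : ∃ t, chk3 f_pm_213 t 31 21 1 = true := ex3_a s65_pm_213 k26_pm_213

theorem s67_pm_213 : ∃ t, chk3 f_pm_213 t 15 21 1 = true := ex3_a k21_pm_213 s66_pm_213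

theorem s68_pm_213 : ∃ t, chk3 f_pm_213 t 505 20 1 = true := ex3_b k17_pm_213 k18_pm_213

theorem s69_pm_213 : ∃ t, chk3 f_pm_213 t 504 20 1 = true := ex3_b k15_pm_213 k16_pm_213

theorem s70_pm_213 : ∃ t, chk3 f_pm_213 t 252 20 1 = true := ex3_a s69_pm_213 s68_pm_213

theorem s71_pm_213 : ∃ t, chk3 f_pm_213 t 126 20 1 = true := ex3_a s70_pm_213 k19_pm_213

theorem s72_pm_213 : ∃ t, chk3 f_pm_213 t 63 20 1 = true := ex3_a s71_pm_213 k20_pm_213

theorem s73_pm_213 : ∃ t, chk3 f_pm_213 t 31 20 1 = true := ex3_a k14_pm_213 s72_pm_213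

theorem s74_pm_213 : ∃ t, chk3 f_pm_213 t 15 20 1 = true := ex3_a k13_pm_213 s73_pm_213

theorem s75_pm_213 : ∃ t, chk3 f_pm_213 t 15 10 1 = true := ex3_b s74_pm_213 s67_pm_213

theorem s76_pm_213 : ∃ t, chk3 f_pm_213 t 7 10 1 = true := ex3_a k12_pm_213 s75_pm_213

theorem s77_pm_213 : ∃ t, chk3 f_pm_213 t 3 10 1 = true := ex3_a k11_pm_213 s76_pm_213

theorem s78_pm_213 : ∃ t, chk3 f_pm_213 t 3 5 1 = true := ex3_b s77_pm_213 s62_pm_213

theorem s79_pm_213 : ∃ t, chk3 f_pm_213 t 1 5 1 = true := ex3_a k10_pm_213 s78_pm_213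

theorem s80_pm_213 : ∃ t, chk3 f_pm_213 t 126 19 1 = true := ex3_a k7_pm_213 k8_pm_213

theorem s81_pm_213 : ∃ t, chk3 f_pm_213 t 63 19 1 = true := ex3_a s80_pm_213 k9_pm_213

theorem s82_pm_213 : ∃ t, chk3 f_pm_213 t 63 9 1 = true := ex3_b k6_pm_213 s81_pm_213

theorem s83_pm_213 : ∃ t, chk3 f_pm_213 t 31 9 1 = true := ex3_a k5_pm_213 s82_pm_213

theorem s84_pm_213 : ∃ t, chk3 f_pm_213 t 31 4 1 = true := ex3_b k4_pm_213 s83_pm_213

theorem s85_pm_213 : ∃ t, chk3 f_pm_213 t 15 4 1 = true := ex3_a k3_pm_213 s84_pm_213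

theorem s86_pm_213 : ∃ t, chk3 f_pm_213 t 7 4 1 = true := ex3_a k2_pm_213 s85_pm_213

theorem s87_pm_213 : ∃ t, chk3 f_pm_213 t 3 4 1 = true := ex3_a k1_pm_213 s86_pm_213

theorem s88_pm_213 : ∃ t, chk3 f_pm_213 t 1 4 1 = true := ex3_a k0_pm_213 s87_pm_213

theorem s89_pm_213 : ∃ t, chk3 f_pm_213 t 1 2 1 = true := ex3_b s88_pm_213 s79_pm_213

theorem s90_pm_213 : ∃ t, chk3 f_pm_213 t 1 1 1 = true := ex3_b s89_pm_213 s49_pm_213

theorem c_pm_213 : CertB 0 536870912 0 1230186008 966367641 24778659 3 eng mog cd0q2 cd2q3 pd1 false true false .pnn 2 1 3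
    ndB0q2 ndB2q3 pcB1 cut_pm_213 xt_pm_213 :=
  certB0 (fam := false) (s1 := true) (s2 := false) (a := 2) (b := 1) (c := 3) (cn := .pnn) (n1 := ndB0q2) (n2 := ndB2q3) (pc := pcB1) (cut := cut_pm_213) (xt := xt_pm_213) (P1 := 0) (W1 := 536870912) (P2 := 0) (W2 := 1230186008) (P3 := 966367641) (W3 := 24778659) (N0 := 3) (En := eng) (mo := mog) (C1 := cd0q2) (C2 := cd2q3) (C3 := pd1)
    rfl s90_pm_213

noncomputable def f_mm_001 : ℕ → ℕ → ℕ → ℕ → Bool := onCell 0 536870912 0 536870912 966367641 24778659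
    (rowB 3 eng mog cd0q0 cd2q1 pd0 1 false false false .up 0 0 1 (qsf 0 536870912 536870912 536870912 0) ndB0q0 ndB2q1 pcB0 Cut.none Ext.none)

def k0_mm_001 : ∃ t, chk3 f_mm_001 t 1 1 1 = true :=
  ⟨(l 3), by decide +kernel⟩

theorem c_mm_001 : CertB 0 536870912 536870912 536870912 966367641 24778659 3 eng mog cd0q0 cd2q1 pd0 false false false .up 0 0 1
    ndB0q0 ndB2q1 pcB0 Cut.none Ext.none :=
  certB1 (fam := false) (s1 := false) (s2 := false) (a := 0) (b := 0) (c := 1) (cn := .up) (n1 := ndB0q0) (n2 := ndB2q1) (pc := pcB0) (cut := Cut.none) (xt := Ext.none) (P1 := 0) (W1 := 536870912) (P2 := 536870912) (W2 := 536870912) (P3 := 966367641) (W3 := 24778659) (N0 := 3) (En := eng) (mo := mog) (C1 := cd0q0) (C2 := cd2q1) (C3 := pd0)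
    rfl (fun _ => rfl) k0_mm_001

noncomputable def f_mm_011 : ℕ → ℕ → ℕ → ℕ → Bool := onCell 0 536870912 536870912 536870912 966367641 24778659
    (rowB 3 eng mog cd0q0 cd2q1 pd1 1 false false false .pnn 0 1 1 (qsf 0 536870912 536870912 536870912 1) ndB0q0 ndB2q1 pcB1 Cut.none Ext.none)

def k0_mm_011 : ∃ t, chk3 f_mm_011 t 1 1 1 = true :=
  ⟨(l 5), by decide +kernel⟩

theorem c_mm_011 : CertB 0 536870912 536870912 536870912 966367641 24778659 3 eng mog cd0q0 cd2q1 pd1 false false false .pnn 0 1 1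
    ndB0q0 ndB2q1 pcB1 Cut.none Ext.none :=
  certB1 (fam := false) (s1 := false) (s2 := false) (a := 0) (b := 1) (c := 1) (cn := .pnn) (n1 := ndB0q0) (n2 := ndB2q1) (pc := pcB1) (cut := Cut.none) (xt := Ext.none) (P1 := 0) (W1 := 536870912) (P2 := 536870912) (W2 := 536870912) (P3 := 966367641) (W3 := 24778659) (N0 := 3) (En := eng) (mo := mog) (C1 := cd0q0) (C2 := cd2q1) (C3 := pd1)
    rfl (fun _ => rfl) k0_mm_011

noncomputable def f_mm_012 : ℕ → ℕ → ℕ → ℕ → Bool := onCell 0 536870912 1073741824 536870912 966367641 24778659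
    (rowB 3 eng mog cd0q0 cd2q2 pd1 0 false false false .pnp 0 1 2 (qsf 0 536870912 1073741824 536870912 1) ndB0q0 ndB2q2 pcB1 Cut.none Ext.none)

def k0_mm_012 : ∃ t, chk3 f_mm_012 t 1 1 1 = true :=
  ⟨(l 5), by decide +kernel⟩

theorem c_mm_012 : CertB 0 536870912 1073741824 536870912 966367641 24778659 3 eng mog cd0q0 cd2q2 pd1 false false false .pnp 0 1 2
    ndB0q0 ndB2q2 pcB1 Cut.none Ext.none :=
  certB0 (fam := false) (s1 := false) (s2 := false) (a := 0) (b := 1) (c := 2) (cn := .pnp) (n1 := ndB0q0) (n2 := ndB2q2) (pc := pcB1) (cut := Cut.none) (xt := Ext.none) (P1 := 0) (W1 := 536870912) (P2 := 1073741824) (W2 := 536870912) (P3 := 966367641) (W3 := 24778659) (N0 := 3) (En := eng) (mo := mog) (C1 := cd0q0) (C2 := cd2q2) (C3 := pd1)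
    rfl k0_mm_012

noncomputable def f_mm_022 : ℕ → ℕ → ℕ → ℕ → Bool := onCell 0 536870912 1073741824 536870912 966367641 24778659
    (rowB 3 eng mog cd0q0 cd2q2 pd2 0 false false false .pp 0 2 2 (qsf 0 536870912 1073741824 536870912 2) ndB0q0 ndB2q2 pcB2 Cut.none Ext.none)

def k0_mm_022 : ∃ t, chk3 f_mm_022 t 1 1 1 = true :=
  ⟨(l 5), by decide +kernel⟩

theorem c_mm_022 : CertB 0 536870912 1073741824 536870912 966367641 24778659 3 eng mog cd0q0 cd2q2 pd2 false false false .pp 0 2 2
    ndB0q0 ndB2q2 pcB2 Cut.none Ext.none :=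
  certB0 (fam := false) (s1 := false) (s2 := false) (a := 0) (b := 2) (c := 2) (cn := .pp) (n1 := ndB0q0) (n2 := ndB2q2) (pc := pcB2) (cut := Cut.none) (xt := Ext.none) (P1 := 0) (W1 := 536870912) (P2 := 1073741824) (W2 := 536870912) (P3 := 966367641) (W3 := 24778659) (N0 := 3) (En := eng) (mo := mog) (C1 := cd0q0) (C2 := cd2q2) (C3 := pd2)
    rfl k0_mm_022

noncomputable def f_mm_023 : ℕ → ℕ → ℕ → ℕ → Bool := onCell 0 536870912 0 1230186008 966367641 24778659
    (rowB 3 eng mog cd0q0 cd2q3 pd2 0 false false false .up 0 2 3 (qsf 0 536870912 0 1230186008 2) ndB0q0 ndB2q3 pcB2 Cut.none Ext.none)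

def k0_mm_023 : ∃ t, chk3 f_mm_023 t 1 1 1 = true :=
  ⟨(l 5), by decide +kernel⟩

theorem c_mm_023 : CertB 0 536870912 0 1230186008 966367641 24778659 3 eng mog cd0q0 cd2q3 pd2 false false false .up 0 2 3
    ndB0q0 ndB2q3 pcB2 Cut.none Ext.none :=
  certB0 (fam := false) (s1 := false) (s2 := false) (a := 0) (b := 2) (c := 3) (cn := .up) (n1 := ndB0q0) (n2 := ndB2q3) (pc := pcB2) (cut := Cut.none) (xt := Ext.none) (P1 := 0) (W1 := 536870912) (P2 := 0) (W2 := 1230186008) (P3 := 966367641) (W3 := 24778659) (N0 := 3) (En := eng) (mo := mog) (C1 := cd0q0) (C2 := cd2q3) (C3 := pd2)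
    rfl k0_mm_023

noncomputable def f_mm_033 : ℕ → ℕ → ℕ → ℕ → Bool := onCell 0 536870912 0 1230186008 966367641 24778659
    (rowB 3 eng mog cd0q0 cd2q3 pd3 0 false false false .pnn 0 3 3 (qsf 0 536870912 0 1230186008 3) ndB0q0 ndB2q3 pcB3 Cut.none Ext.none)

def k0_mm_033 : ∃ t, chk3 f_mm_033 t 1 1 1 = true :=
  ⟨(l 5), by decide +kernel⟩

theorem c_mm_033 : CertB 0 536870912 0 1230186008 966367641 24778659 3 eng mog cd0q0 cd2q3 pd3 false false false .pnn 0 3 3
    ndB0q0 ndB2q3 pcB3 Cut.none Ext.none :=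
  certB0 (fam := false) (s1 := false) (s2 := false) (a := 0) (b := 3) (c := 3) (cn := .pnn) (n1 := ndB0q0) (n2 := ndB2q3) (pc := pcB3) (cut := Cut.none) (xt := Ext.none) (P1 := 0) (W1 := 536870912) (P2 := 0) (W2 := 1230186008) (P3 := 966367641) (W3 := 24778659) (N0 := 3) (En := eng) (mo := mog) (C1 := cd0q0) (C2 := cd2q3) (C3 := pd3)
    rfl k0_mm_033

noncomputable def cut_mm_101 : Cut := Cut.of [[⟨0, 1, 0, 67108864⟩, ⟨1, 0, 0, 67108864⟩, ⟨2, 1, 0, 67108864⟩]]

noncomputable def f_mm_101 : ℕ → ℕ → ℕ → ℕ → Bool := onCell 536870912 536870912 0 536870912 966367641 24778659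
    (rowB 3 eng mog cd0q1 cd2q1 pd0 1 false false false .npn 1 0 1 (qsf 536870912 536870912 536870912 536870912 0) ndB0q1 ndB2q1 pcB0 cut_mm_101 Ext.none)

def k0_mm_101 : ∃ t, chk3 f_mm_101 t 1 1 1 = true :=
  ⟨(a (l 3) (a (l 3) (b (b (a (l 3) (b (b (a (l 3) (l 6)) (l 3)) (l 3))) (l 3)) (l 2)))), by decide +kernel⟩

theorem c_mm_101 : CertB 536870912 536870912 536870912 536870912 966367641 24778659 3 eng mog cd0q1 cd2q1 pd0 false false false .npn 1 0 1
    ndB0q1 ndB2q1 pcB0 cut_mm_101 Ext.none :=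
  certB1 (fam := false) (s1 := false) (s2 := false) (a := 1) (b := 0) (c := 1) (cn := .npn) (n1 := ndB0q1) (n2 := ndB2q1) (pc := pcB0) (cut := cut_mm_101) (xt := Ext.none) (P1 := 536870912) (W1 := 536870912) (P2 := 536870912) (W2 := 536870912) (P3 := 966367641) (W3 := 24778659) (N0 := 3) (En := eng) (mo := mog) (C1 := cd0q1) (C2 := cd2q1) (C3 := pd0)
    rfl (fun _ => rfl) k0_mm_101

noncomputable def f_mm_102 : ℕ → ℕ → ℕ → ℕ → Bool := onCell 536870912 536870912 0 536870912 966367641 24778659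
    (rowB 3 eng mog cd0q1 cd2q2 pd0 1 false false false .npp 1 0 2 (qsf 536870912 536870912 1073741824 536870912 0) ndB0q1 ndB2q2 pcB0 Cut.none Ext.none)

def k0_mm_102 : ∃ t, chk3 f_mm_102 t 1 1 1 = true :=
  ⟨(l 3), by decide +kernel⟩

theorem c_mm_102 : CertB 536870912 536870912 1073741824 536870912 966367641 24778659 3 eng mog cd0q1 cd2q2 pd0 false false false .npp 1 0 2
    ndB0q1 ndB2q2 pcB0 Cut.none Ext.none :=
  certB1 (fam := false) (s1 := false) (s2 := false) (a := 1) (b := 0) (c := 2) (cn := .npp) (n1 := ndB0q1) (n2 := ndB2q2) (pc := pcB0) (cut := Cut.none) (xt := Ext.none) (P1 := 536870912) (W1 := 536870912) (P2 := 1073741824) (W2 := 536870912) (P3 := 966367641) (W3 := 24778659) (N0 := 3) (En := eng) (mo := mog) (C1 := cd0q1) (C2 := cd2q2) (C3 := pd0)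
    rfl (fun _ => rfl) k0_mm_102

noncomputable def f_mm_112 : ℕ → ℕ → ℕ → ℕ → Bool := onCell 536870912 536870912 1073741824 536870912 966367641 24778659
    (rowB 3 eng mog cd0q1 cd2q2 pd1 2 false false false .dn 1 1 2 (qsf 536870912 536870912 1073741824 536870912 1) ndB0q1 ndB2q2 pcB1 Cut.none Ext.none)

def k0_mm_112 : ∃ t, chk3 f_mm_112 t 1 1 1 = true :=
  ⟨(l 5), by decide +kernel⟩

theorem c_mm_112 : CertB 536870912 536870912 1073741824 536870912 966367641 24778659 3 eng mog cd0q1 cd2q2 pd1 false false false .dn 1 1 2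
    ndB0q1 ndB2q2 pcB1 Cut.none Ext.none :=
  certB2 (fam := false) (s1 := false) (s2 := false) (a := 1) (b := 1) (c := 2) (cn := .dn) (n1 := ndB0q1) (n2 := ndB2q2) (pc := pcB1) (cut := Cut.none) (xt := Ext.none) (P1 := 536870912) (W1 := 536870912) (P2 := 1073741824) (W2 := 536870912) (P3 := 966367641) (W3 := 24778659) (N0 := 3) (En := eng) (mo := mog) (C1 := cd0q1) (C2 := cd2q2) (C3 := pd1)
    rfl (fun _ => rfl) k0_mm_112

noncomputable def f_mm_113 : ℕ → ℕ → ℕ → ℕ → Bool := onCell 536870912 536870912 0 1230186008 966367641 24778659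
    (rowB 3 eng mog cd0q1 cd2q3 pd1 0 false false false .nn 1 1 3 (qsf 536870912 536870912 0 1230186008 1) ndB0q1 ndB2q3 pcB1 Cut.none Ext.none)

def k0_mm_113 : ∃ t, chk3 f_mm_113 t 1 1 1 = true :=
  ⟨(b (l 5) (l 5)), by decide +kernel⟩

theorem c_mm_113 : CertB 536870912 536870912 0 1230186008 966367641 24778659 3 eng mog cd0q1 cd2q3 pd1 false false false .nn 1 1 3
    ndB0q1 ndB2q3 pcB1 Cut.none Ext.none :=
  certB0 (fam := false) (s1 := false) (s2 := false) (a := 1) (b := 1) (c := 3) (cn := .nn) (n1 := ndB0q1) (n2 := ndB2q3) (pc := pcB1) (cut := Cut.none) (xt := Ext.none) (P1 := 536870912) (W1 := 536870912) (P2 := 0) (W2 := 1230186008) (P3 := 966367641) (W3 := 24778659) (N0 := 3) (En := eng) (mo := mog) (C1 := cd0q1) (C2 := cd2q3) (C3 := pd1)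
    rfl k0_mm_113

noncomputable def f_mm_123 : ℕ → ℕ → ℕ → ℕ → Bool := onCell 536870912 536870912 0 1230186008 966367641 24778659
    (rowB 3 eng mog cd0q1 cd2q3 pd2 0 false false false .npn 1 2 3 (qsf 536870912 536870912 0 1230186008 2) ndB0q1 ndB2q3 pcB2 Cut.none Ext.none)

def k0_mm_123 : ∃ t, chk3 f_mm_123 t 1 1 1 = true :=
  ⟨(b (l 5) (l 5)), by decide +kernel⟩

theorem c_mm_123 : CertB 536870912 536870912 0 1230186008 966367641 24778659 3 eng mog cd0q1 cd2q3 pd2 false false false .npn 1 2 3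
    ndB0q1 ndB2q3 pcB2 Cut.none Ext.none :=
  certB0 (fam := false) (s1 := false) (s2 := false) (a := 1) (b := 2) (c := 3) (cn := .npn) (n1 := ndB0q1) (n2 := ndB2q3) (pc := pcB2) (cut := Cut.none) (xt := Ext.none) (P1 := 536870912) (W1 := 536870912) (P2 := 0) (W2 := 1230186008) (P3 := 966367641) (W3 := 24778659) (N0 := 3) (En := eng) (mo := mog) (C1 := cd0q1) (C2 := cd2q3) (C3 := pd2)
    rfl k0_mm_123

noncomputable def f_mm_133 : ℕ → ℕ → ℕ → ℕ → Bool := onCell 1610612736 536870912 0 1230186008 966367641 24778659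
    (rowB 3 eng mog cd0q1 cd2q3 pd3 2 false false false .dn 1 3 3 (qsf 536870912 536870912 0 1230186008 3) ndB0q1 ndB2q3 pcB3 Cut.none Ext.none)

def k0_mm_133 : ∃ t, chk3 f_mm_133 t 1 1 1 = true :=
  ⟨(l 5), by decide +kernel⟩

theorem c_mm_133 : CertB 536870912 536870912 0 1230186008 966367641 24778659 3 eng mog cd0q1 cd2q3 pd3 false false false .dn 1 3 3
    ndB0q1 ndB2q3 pcB3 Cut.none Ext.none :=
  certB2 (fam := false) (s1 := false) (s2 := false) (a := 1) (b := 3) (c := 3) (cn := .dn) (n1 := ndB0q1) (n2 := ndB2q3) (pc := pcB3) (cut := Cut.none) (xt := Ext.none) (P1 := 536870912) (W1 := 536870912) (P2 := 0) (W2 := 1230186008) (P3 := 966367641) (W3 := 24778659) (N0 := 3) (En := eng) (mo := mog) (C1 := cd0q1) (C2 := cd2q3) (C3 := pd3)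
    rfl (fun _ => rfl) k0_mm_133

noncomputable def f_mm_202 : ℕ → ℕ → ℕ → ℕ → Bool := onCell 0 536870912 1073741824 536870912 966367641 24778659
    (rowB 3 eng mog cd0q2 cd2q2 pd0 0 false false false .pp 2 0 2 (qsf 0 536870912 1073741824 536870912 0) ndB0q2 ndB2q2 pcB0 Cut.none Ext.none)

def k0_mm_202 : ∃ t, chk3 f_mm_202 t 1 1 1 = true :=
  ⟨(l 3), by decide +kernel⟩

theorem c_mm_202 : CertB 0 536870912 1073741824 536870912 966367641 24778659 3 eng mog cd0q2 cd2q2 pd0 false false false .pp 2 0 2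
    ndB0q2 ndB2q2 pcB0 Cut.none Ext.none :=
  certB0 (fam := false) (s1 := false) (s2 := false) (a := 2) (b := 0) (c := 2) (cn := .pp) (n1 := ndB0q2) (n2 := ndB2q2) (pc := pcB0) (cut := Cut.none) (xt := Ext.none) (P1 := 0) (W1 := 536870912) (P2 := 1073741824) (W2 := 536870912) (P3 := 966367641) (W3 := 24778659) (N0 := 3) (En := eng) (mo := mog) (C1 := cd0q2) (C2 := cd2q2) (C3 := pd0)
    rfl k0_mm_202

noncomputable def f_mm_203 : ℕ → ℕ → ℕ → ℕ → Bool := onCell 0 536870912 0 1230186008 966367641 24778659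
    (rowB 3 eng mog cd0q2 cd2q3 pd0 0 false false false .up 2 0 3 (qsf 0 536870912 0 1230186008 0) ndB0q2 ndB2q3 pcB0 Cut.none Ext.none)

def k0_mm_203 : ∃ t, chk3 f_mm_203 t 1 1 1 = true :=
  ⟨(b (l 2) (l 3)), by decide +kernel⟩

theorem c_mm_203 : CertB 0 536870912 0 1230186008 966367641 24778659 3 eng mog cd0q2 cd2q3 pd0 false false false .up 2 0 3
    ndB0q2 ndB2q3 pcB0 Cut.none Ext.none :=
  certB0 (fam := false) (s1 := false) (s2 := false) (a := 2) (b := 0) (c := 3) (cn := .up) (n1 := ndB0q2) (n2 := ndB2q3) (pc := pcB0) (cut := Cut.none) (xt := Ext.none) (P1 := 0) (W1 := 536870912) (P2 := 0) (W2 := 1230186008) (P3 := 966367641) (W3 := 24778659) (N0 := 3) (En := eng) (mo := mog) (C1 := cd0q2) (C2 := cd2q3) (C3 := pd0)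
    rfl k0_mm_203

noncomputable def f_mm_213 : ℕ → ℕ → ℕ → ℕ → Bool := onCell 0 536870912 0 1230186008 966367641 24778659
    (rowB 3 eng mog cd0q2 cd2q3 pd1 0 false false false .pnn 2 1 3 (qsf 0 536870912 0 1230186008 1) ndB0q2 ndB2q3 pcB1 Cut.none Ext.none)

def k0_mm_213 : ∃ t, chk3 f_mm_213 t 1 1 1 = true :=
  ⟨(b (a (l 3) (l 5)) (l 3)), by decide +kernel⟩

theorem c_mm_213 : CertB 0 536870912 0 1230186008 966367641 24778659 3 eng mog cd0q2 cd2q3 pd1 false false false .pnn 2 1 3
    ndB0q2 ndB2q3 pcB1 Cut.none Ext.none :=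
  certB0 (fam := false) (s1 := false) (s2 := false) (a := 2) (b := 1) (c := 3) (cn := .pnn) (n1 := ndB0q2) (n2 := ndB2q3) (pc := pcB1) (cut := Cut.none) (xt := Ext.none) (P1 := 0) (W1 := 536870912) (P2 := 0) (W2 := 1230186008) (P3 := 966367641) (W3 := 24778659) (N0 := 3) (En := eng) (mo := mog) (C1 := cd0q2) (C2 := cd2q3) (C3 := pd1)
    rfl k0_mm_213

end Pool.Agent.Strip051.G.I9000_9231.Tab.C.BB02

namespace Pool.Agent.Strip051.G.I9000_9231.Tab.C.BB03

open Pool.Agent.Strip051.PB Pool.Agent.Strip051.PB.T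
open Pool.Agent.Strip051.G.I9000_9231.Tab

noncomputable def f_pp_001 : ℕ → ℕ → ℕ → ℕ → Bool := onCell 0 536870912 0 536870912 966367641 24778659
    (rowB 3 eng mog cd0q0 cd3q1 pd0 1 false true true .up 0 0 1 (qsf 0 536870912 536870912 536870912 0) ndB0q0 ndB3q1 pcB0 Cut.none Ext.none)

def k0_pp_001 : ∃ t, chk3 f_pp_001 t 1 1 1 = true :=
  ⟨(l 3), by decide +kernel⟩

theorem c_pp_001 : CertB 0 536870912 536870912 536870912 966367641 24778659 3 eng mog cd0q0 cd3q1 pd0 false true true .up 0 0 1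
    ndB0q0 ndB3q1 pcB0 Cut.none Ext.none :=
  certB1 (fam := false) (s1 := true) (s2 := true) (a := 0) (b := 0) (c := 1) (cn := .up) (n1 := ndB0q0) (n2 := ndB3q1) (pc := pcB0) (cut := Cut.none) (xt := Ext.none) (P1 := 0) (W1 := 536870912) (P2 := 536870912) (W2 := 536870912) (P3 := 966367641) (W3 := 24778659) (N0 := 3) (En := eng) (mo := mog) (C1 := cd0q0) (C2 := cd3q1) (C3 := pd0)
    rfl (fun _ => rfl) k0_pp_001

noncomputable def cut_pp_011 : Cut := Cut.of [[⟨0, 0, 0, 67108864⟩, ⟨1, 1, 0, 67108864⟩, ⟨2, 1, 0, 67108864⟩]]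

noncomputable def f_pp_011 : ℕ → ℕ → ℕ → ℕ → Bool := onCell 0 536870912 536870912 536870912 966367641 24778659
    (rowB 3 eng mog cd0q0 cd3q1 pd1 1 false true true .pnn 0 1 1 (qsf 0 536870912 536870912 536870912 1) ndB0q0 ndB3q1 pcB1 cut_pp_011 Ext.none)

def k0_pp_011 : ∃ t, chk3 f_pp_011 t 1 1 1 = true :=
  ⟨(b (l 3) (a (b (l 3) (a (b (l 3) (a (b (l 3) (a (l 6) (l 3))) (l 3))) (l 3))) (l 3))), by decide +kernel⟩

theorem c_pp_011 : CertB 0 536870912 536870912 536870912 966367641 24778659 3 eng mog cd0q0 cd3q1 pd1 false true true .pnn 0 1 1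
    ndB0q0 ndB3q1 pcB1 cut_pp_011 Ext.none :=
  certB1 (fam := false) (s1 := true) (s2 := true) (a := 0) (b := 1) (c := 1) (cn := .pnn) (n1 := ndB0q0) (n2 := ndB3q1) (pc := pcB1) (cut := cut_pp_011) (xt := Ext.none) (P1 := 0) (W1 := 536870912) (P2 := 536870912) (W2 := 536870912) (P3 := 966367641) (W3 := 24778659) (N0 := 3) (En := eng) (mo := mog) (C1 := cd0q0) (C2 := cd3q1) (C3 := pd1)
    rfl (fun _ => rfl) k0_pp_011

noncomputable def f_pp_012 : ℕ → ℕ → ℕ → ℕ → Bool := onCell 0 536870912 536870912 536870912 966367641 24778659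
    (rowB 3 eng mog cd0q0 cd3q2 pd1 1 false true true .pnp 0 1 2 (qsf 0 536870912 1073741824 536870912 1) ndB0q0 ndB3q2 pcB1 Cut.none Ext.none)

def k0_pp_012 : ∃ t, chk3 f_pp_012 t 1 1 1 = true :=
  ⟨(l 3), by decide +kernel⟩

theorem c_pp_012 : CertB 0 536870912 1073741824 536870912 966367641 24778659 3 eng mog cd0q0 cd3q2 pd1 false true true .pnp 0 1 2
    ndB0q0 ndB3q2 pcB1 Cut.none Ext.none :=
  certB1 (fam := false) (s1 := true) (s2 := true) (a := 0) (b := 1) (c := 2) (cn := .pnp) (n1 := ndB0q0) (n2 := ndB3q2) (pc := pcB1) (cut := Cut.none) (xt := Ext.none) (P1 := 0) (W1 := 536870912) (P2 := 1073741824) (W2 := 536870912) (P3 := 966367641) (W3 := 24778659) (N0 := 3) (En := eng) (mo := mog) (C1 := cd0q0) (C2 := cd3q2) (C3 := pd1)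
    rfl (fun _ => rfl) k0_pp_012

noncomputable def f_pp_022 : ℕ → ℕ → ℕ → ℕ → Bool := onCell 0 536870912 1073741824 536870912 966367641 24778659
    (rowB 3 eng mog cd0q0 cd3q2 pd2 1 false true true .pp 0 2 2 (qsf 0 536870912 1073741824 536870912 2) ndB0q0 ndB3q2 pcB2 Cut.none Ext.none)

def k0_pp_022 : ∃ t, chk3 f_pp_022 t 1 4 1 = true :=
  ⟨(a (l 3) (l 3)), by decide +kernel⟩

def k1_pp_022 : ∃ t, chk3 f_pp_022 t 2 20 1 = true :=
  ⟨(b (l 3) (b (l 3) (a (b (l 3) (a (a (c (a (l 16107168) (l 16200904)) (l 16189864)) (c (a (l 16253360) (l 16304424)) (l 16216208))) (a (c (c (l 16381488) (l 16375488)) (a (l 16297920) (l 16266464))) (a (c (l 16327824) (l 16219816)) (c (l 103782737015) (l 16178488)))))) (b (l 3) (a (c (a (c (a (l 16408736) (l 16381040)) (a (l 16305248) (l 16275208))) (a (c (l 16356416) (l 16248480)) (c (l 16334872) (l 16225032)))) (a (a (l 16141072) (l 16107440)) (a (l 16108936) (a (l 16057344) (l 16045032))))) (a (c (a (c (l 16305968) (l 108077705687)) (c (l 122036492791)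 (a (l 16191856) (l 16184112)))) (a (a (l 16033576) (l 102708615895)) (a (c (l 16073928) (l 15951376)) (c (l 16065352) (l 15941936))))) (c (a (c (a (l 16291208) (l 16285120)) (a (l 16176896) (l 16170176))) (c (a (l 16279424) (l 16274104)) (a (l 16142952) (l 127941766631)))) (a (a (c (l 16057384) (l 15933176)) (c (l 16049984) (l 15925056))) (a (c (c (l 16073792) (l 16012160)) (l 113982715687)) (c (c (l 16067592) (l 16005688)) (c (l 15942616) (l 15878416)))))))))))), by decide +kernel⟩

def k2_pp_022 : ∃ t, chk3 f_pp_022 t 4 21 1 = true :=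
  ⟨(a (a (a (c (b (c (l 16170176) (l 16243328)) (l 16070208)) (l 16148424)) (c (b (l 16110456) (l 16140544)) (l 16259992))) (c (a (b (l 16203912) (l 16190600)) (b (l 16254064) (l 16281240))) (b (b (l 16174208) (l 16146744)) (b (l 16140920) (l 16135760))))) (a (a (c (c (l 16351760) (l 16412320)) (c (l 16272576) (l 16212344))) (b (c (l 16334408) (l 16154160)) (c (l 16338376) (l 16194688)))) (a (c (c (l 16371144) (l 16270728)) (c (l 16228200) (l 16118184))) (c (c (b (l 16377288) (l 16388016)) (l 16363352)) (c (l 16192320) (l 16079608)))))), by decide +kernel⟩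

def k3_pp_022 : ∃ t, chk3 f_pp_022 t 5 21 1 = true :=
  ⟨(a (c (a (a (c (b (l 16390184) (l 16361592)) (l 16322872)) (c (b (l 16364072) (l 16338000)) (b (l 16257376) (l 16230312)))) (c (a (b (l 16361912) (l 16317264)) (b (l 16331296) (l 16299392))) (a (b (l 16232368) (l 16208064)) (b (l 16189608) (l 16188896))))) (a (c (a (l 16160048) (l 16141760)) (a (l 16045032) (l 16014280))) (c (b (a (l 16118752) (l 16116232)) (l 16072584)) (b (a (l 16000560) (l 15975336)) (l 15942272))))) (c (a (c (b (a (b (l 16308744) (l 16298760)) (b (l 16273184) (l 16285144))) (a (l 16284400) (l 16272232))) (a (b (b (l 16197048) (l 16187008)) (l 16172792)) (b (a (l 16180080) (l 16162568)) (l 16159680)))) (c (b (a (b (l 16260872) (l 16273744)) (b (l 16239656) (l 16263912))) (a (l 16262208) (l 16253704))) (b (a (b (a (l 16170608) (l 16164304)) (l 16159696)) (b (a (l 16158472) (l 16153080)) (l 16149128))) (a (l 16148944) (l 16140032))))) (c (a (a (b (b (l 16080240) (l 16070072)) (l 16055896)) (b (a (l 16062096)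 (l 16054384)) (l 16041768))) (b (a (b (a (l 16051200) (l 16044304)) (l 16040296)) (b (a (l 16037952) (l 16032112)) (l 16028912))) (a (l 16030240) (l 16020848)))) (a (a (b (a (l 15958672) (l 15948632)) (l 15934248)) (b (a (l 15939432) (l 15930992)) (l 15919048))) (a (b (b (a (l 15927072) (l 15919544)) (l 15916112)) (l 15906680)) (b (b (a (l 15912632) (l 15906312)) (l 15903848)) (l 15896752))))))), by decide +kernel⟩

def k4_pp_022 : ∃ t, chk3 f_pp_022 t 2 11 1 = true :=
  ⟨(b (a (a (a (c (a (b (l 16100104) (l 16086416)) (l 16056752)) (c (l 16217752) (l 16145176))) (c (a (l 16125640) (l 16214176)) (c (l 16186672) (l 16063872)))) (a (a (c (l 16275480) (l 16027600)) (c (l 16242464) (l 16008720))) (c (c (a (l 16368840) (l 16301744)) (a (l 16265328) (l 16238248))) (c (a (l 16156256) (l 16127240)) (l 16047120))))) (a (c (a (b (c (l 16281568) (l 16216000)) (c (l 16298800) (l 16191072))) (c (b (l 16286800) (l 16266840)) (b (l 16176968) (l 16157496)))) (a (c (l 16090160) (l 15972032)) (c (l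 16054552) (l 15910944)))) (c (a (c (b (l 16261056) (l 16245256)) (b (l 16128800) (l 16135224))) (b (a (l 16192768) (l 16186056)) (a (l 16180680) (l 16175944)))) (a (a (b (l 15978848) (l 15964472)) (b (l 15967184) (l 15955776))) (b (a (l 15958152) (l 15930392)) (a (l 15949640) (l 15945688))))))) (a (a (a (c (b (l 15957040) (l 15981424)) (b (l 16152096) (l 16142728))) (c (c (l 16158112) (l 16304048)) (c (l 16202400) (l 16095568)))) (c (a (c (l 16343736) (l 16242184)) (c (l 16298592) (l 16193208))) (a (c (l 16134608) (l 16021712)) (c (l 16081784) (l 15965032))))) (a (c (a (c (l 16264088) (l 16156928)) (c (l 16239208) (l 16131480))) (a (c (l 16043848) (l 15925560)) (a (l 15964464) (l 15954456)))) (a (c (a (l 16173736) (l 16168520)) (a (l 15947376) (l 15943088))) (c (b (l 16168504) (l 16160176)) (a (l 15920272) (l 15920544))))))), by decide +kernel⟩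

def k5_pp_022 : ∃ t, chk3 f_pp_022 t 6 40 1 = true :=
  ⟨(l 3), by decide +kernel⟩

def k6_pp_022 : ∃ t, chk3 f_pp_022 t 6 82 1 = true :=
  ⟨(b (l 3) (b (l 3) (a (l 3) (a (l 3) (a (c (c (a (l 16233480) (l 16231736)) (a (l 16115640) (l 16114416))) (c (a (l 15984040) (l 15991176)) (a (l 15878776) (l 15862800)))) (l 2)))))), by decide +kernel⟩

def k7_pp_022 : ∃ t, chk3 f_pp_022 t 12 166 1 = true :=
  ⟨(a (b (l 3) (b (l 3) (c (a (c (l 222968108007) (a (l 16154744) (l 16149592))) (c (a (l 16262072) (l 16257896)) (a (l 16144824) (l 16140416)))) (a (c (a (l 16032784) (l 16027216)) (a (l 15906000) (l 15899976))) (c (a (l 16022096) (l 16017416)) (a (l 15894480) (l 15889496))))))) (b (a (l 3) (a (l 3) (a (l 3) (c (c (l 16244408) (l 16126176)) (c (l 16002248) (l 15894248)))))) (c (a (c (a (l 137068746167) (l 16250632)) (a (b (l 16136904) (l 16136352)) (l 112909322855))) (c (a (l 16247200) (l 16243984)) (c (l 16157800) (a (l 16099024) (l 16095856))))) (a (c (a (b (l 16013576) (l 16013152))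 (b (l 16009624) (l 16009280))) (a (b (l 15885296) (l 15884992)) (b (l 15881168) (l 15880960)))) (c (a (b (l 16006048) (l 16005784)) (b (l 16002832) (l 16002648))) (a (b (l 15877488) (l 15877376)) (b (l 15874240) (l 15874224)))))))), by decide +kernel⟩

def k8_pp_022 : ∃ t, chk3 f_pp_022 t 13 166 1 = true :=
  ⟨(a (c (b (a (c (a (l 16242096) (l 16239200)) (a (l 104856240855) (l 108077460519))) (c (a (l 16236600) (l 16234336)) (a (l 111298681111) (l 16095952)))) (a (c (a (l 16240976) (l 16238192)) (a (l 16097104) (l 16099744))) (c (a (l 16235696) (l 16233536)) (a (l 16118488) (l 16116704))))) (a (b (b (l 3) (c (a (l 16000024) (l 15997440)) (a (l 15871224) (l 15868736)))) (c (a (b (l 15999960) (l 15999864)) (b (l 15997456) (l 15997440))) (a (b (l 15871408) (l 15871488)) (b (l 15869008) (l 15869192))))) (b (c (a (b (l 15995184) (l 15995328)) (l 113982819719)) (a (b (l 15866320) (l 15866832)) (l 112908868663))) (c (a (l 15995464) (l 15994016)) (a (l 15888320) (l 15866224)))))) (a (a (c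 (b (c (l 16232376) (l 16115424)) (c (l 16231688) (l 16115328))) (b (c (l 15982088) (l 15885576)) (c (l 15993088) (l 15865720)))) (b (c (c (l 16230728) (l 16114328)) (c (l 15992000) (l 15864544))) (l 2))) (l 2))), by decide +kernel⟩

def k9_pp_022 : ∃ t, chk3 f_pp_022 t 6 167 1 = true :=
  ⟨(a (c (a (a (c (a (l 16269128) (l 16264488)) (c (l 16169408) (a (l 16122768) (l 16117696)))) (c (a (l 16260152) (l 16256104)) (a (l 16122184) (l 16138920)))) (a (c (a (l 16252336) (l 16248816)) (a (l 16135024) (l 16131456))) (c (a (l 16245536) (l 16242480)) (a (l 16128192) (l 16125216))))) (a (a (c (a (c (l 16061864) (l 15999728)) (c (l 16056600) (l 15994264))) (a (c (l 15936408) (l 15871960)) (c (l 15930736) (l 15866064)))) (c (a (c (l 16051776) (l 15989264)) (l 16016192)) (a (c (l 15925568) (l 15860728)) (l 15888536)))) (a (c (a (l 16012128) (l 16008464)) (a (l 15884280) (l 15880488))) (c (a (l 16005168) (l 16002240)) (a (l 15877144) (l 15874224)))))) (a (c (a (c (a (l 16239632) (l 16237008))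 (a (l 16122520) (l 16120112))) (c (l 16233640) (a (l 16118088) (l 16116496)))) (a (c (a (l 15999648) (l 15997432)) (a (l 15871728) (l 15869664))) (c (a (l 15995680) (l 15994472)) (a (l 15868184) (l 15867336))))) (a (c (c (l 16230248) (l 16114896)) (c (l 15993640) (l 15888224))) (l 2)))), by decide +kernel⟩

def k10_pp_022 : ∃ t, chk3 f_pp_022 t 7 20 1 = true :=
  ⟨(b (a (l 3) (l 2)) (l 2)), by decide +kernel⟩

def k11_pp_022 : ∃ t, chk3 f_pp_022 t 3 21 1 = true :=
  ⟨(a (a (c (a (b (a (c (b (l 16219880) (l 16255488)) (b (a (l 16148104) (l 16143528)) (l 16140264))) (c (b (l 16211848) (l 16248304)) (b (a (l 16139336) (l 16135504)) (l 16132944)))) (a (c (l 16246584) (l 16132800)) (c (l 16240680) (l 16127080)))) (b (a (a (c (l 16246024) (l 16130128)) (c (l 16243032) (l 16127224))) (a (c (l 16240280) (l 16124624)) (c (l 16237752) (l 16122312)))) (a (c (l 16235872) (l 16122744)) (b (l 16177840) (l 16175520))))) (a (b (a (b (c (a (l 16026768) (l 16021896)) (a (l 15900568) (l 15895360)))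 (c (l 16019536) (l 15893888))) (c (b (a (l 16017472) (l 16013480)) (l 16011984)) (b (a (l 15890688) (l 15886512)) (l 15886064)))) (a (b (l 15936464) (l 15929344)) (c (l 16007816) (l 15883568)))) (b (a (c (c (l 16038008) (l 15975960)) (c (l 15912704) (l 15848280))) (c (a (l 15992760) (l 15990640)) (c (l 15907872) (l 15843536)))) (a (c (l 16003880) (l 15879984)) (c (l 16001472) (l 15878232)))))) (a (a (b (a (c (c (l 16235432) (l 16120280)) (c (l 15999344) (l 15873344))) (c (c (l 16233328) (l 16118544)) (c (l 15997928) (l 15872232)))) (c (c (l 16229080) (l 16117712)) (c (l 16000480) (l 15878176)))) (a (b (c (c (l 16231520) (l 16117184)) (c (l 15996984) (l 15871696))) (c (l 16173096) (l 15940672))) (b (c (b (l 16153472) (l 16173520)) (c (l 15996560) (l 15871784))) (l 2)))) (a (a (a (b (b (c (l 16173592) (l 15933328)) (l 2)) (l 2)) (l 2)) (l 2)) (l 2)))) (l 2)), by decide +kernel⟩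

def k12_pp_022 : ∃ t, chk3 f_pp_022 t 3 11 1 = true :=
  ⟨(a (a (b (a (c (b (a (l 16180824) (l 16176936)) (a (l 16172640) (l 16170656))) (b (a (l 15925688) (l 15901944)) (a (l 15943792) (l 15943800)))) (c (b (a (l 16174272) (l 16172704)) (a (l 16169864) (l 16170176))) (a (b (l 15900976) (l 15945584)) (b (l 15901672) (l 15949032))))) (b (a (c (l 16165704) (l 15923472)) (c (l 16167824) (l 15932480))) (a (c (l 16161176) (l 15926416)) (l 2)))) (b (b (a (a (c (l 16172160) (l 15903928)) (l 2)) (l 2)) (l 2)) (l 2))) (l 2)), by decide +kernel⟩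

def k13_pp_022 : ∃ t, chk3 f_pp_022 t 1 3 1 = true :=
  ⟨(a (a (b (a (b (c (a (b (a (l 16005024) (l 16109800)) (l 15866376)) (b (l 16037136) (l 16058384))) (a (b (l 15986632) (l 15982536)) (c (b (l 16122184) (l 16050440)) (l 15807184)))) (c (a (b (l 15921984) (l 15993688)) (c (l 16090064) (l 16060352))) (a (b (l 15966600) (l 15896328)) (c (l 15957968) (l 15848880))))) (b (a (c (b (l 16146056) (l 16171632)) (b (l 15887280) (l 15956656))) (c (c (l 16179776) (l 16013768)) (c (l 16008832) (l 15893272)))) (a (c (b (l 16118416) (l 16069824)) (b (l 15908904) (l 15869224))) (c (b (l 16106792) (l 16069728)) (b (l 15898464) (l 15873096)))))) (a (a (b (c (c (l 15860440) (l 15949360)) (l 15806016)) (c (l 15710792) (l 15708328))) (b (c (l 15911256) (l 15809360)) (c (l 15756832) (l 15738360)))) (b (a (c (l 16004624) (l 15718960)) (c (l 16021904) (l 15723288))) (a (c (l 15900616) (l 15754184)) (l 2))))) (b (a (b (c (a (b (l 16023552) (l 16113696)) (c (l 16191760) (l 16090272))) (b (a (l 15948320)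 (l 15935120)) (a (l 15920152) (l 15919632)))) (c (a (c (l 16135016) (l 16043576)) (b (l 16108376) (l 16091464))) (a (b (l 15900232) (l 15887872)) (b (l 15912152) (l 15911952))))) (a (b (c (b (l 16128000) (l 16132000)) (b (l 15932968) (l 15929280))) (a (c (l 16110608) (l 15930752)) (l 2))) (b (b (c (l 16150160) (l 15940456)) (c (l 16141000) (l 15947800))) (l 2)))) (a (a (b (b (l 43048389783) (l 2)) (l 2)) (l 2)) (l 2)))) (b (a (a (a (b (b (c (l 16156792) (l 15955840)) (l 2)) (l 2)) (l 2)) (l 2)) (l 2)) (l 2))), by decide +kernel⟩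

theorem s14_pp_022 : ∃ t, chk3 f_pp_022 t 6 166 1 = true := ex3_a k7_pp_022 k8_pp_022

theorem s15_pp_022 : ∃ t, chk3 f_pp_022 t 6 83 1 = true := ex3_b s14_pp_022 k9_pp_022

theorem s16_pp_022 : ∃ t, chk3 f_pp_022 t 6 41 1 = true := ex3_b k6_pp_022 s15_pp_022

theorem s17_pp_022 : ∃ t, chk3 f_pp_022 t 6 20 1 = true := ex3_b k5_pp_022 s16_pp_022

theorem s18_pp_022 : ∃ t, chk3 f_pp_022 t 3 20 1 = true := ex3_a s17_pp_022 k10_pp_022

theorem s19_pp_022 : ∃ t, chk3 f_pp_022 t 3 10 1 = true := ex3_b s18_pp_022 k11_pp_022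

theorem s20_pp_022 : ∃ t, chk3 f_pp_022 t 3 5 1 = true := ex3_b s19_pp_022 k12_pp_022

theorem s21_pp_022 : ∃ t, chk3 f_pp_022 t 2 21 1 = true := ex3_a k2_pp_022 k3_pp_022

theorem s22_pp_022 : ∃ t, chk3 f_pp_022 t 2 10 1 = true := ex3_b k1_pp_022 s21_pp_022

theorem s23_pp_022 : ∃ t, chk3 f_pp_022 t 2 5 1 = true := ex3_b s22_pp_022 k4_pp_022

theorem s24_pp_022 : ∃ t, chk3 f_pp_022 t 1 5 1 = true := ex3_a s23_pp_022 s20_pp_022

theorem s25_pp_022 : ∃ t, chk3 f_pp_022 t 1 2 1 = true := ex3_b k0_pp_022 s24_pp_022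

theorem s26_pp_022 : ∃ t, chk3 f_pp_022 t 1 1 1 = true := ex3_b s25_pp_022 k13_pp_022

theorem c_pp_022 : CertB 0 536870912 1073741824 536870912 966367641 24778659 3 eng mog cd0q0 cd3q2 pd2 false true true .pp 0 2 2
    ndB0q0 ndB3q2 pcB2 Cut.none Ext.none :=
  certB1 (fam := false) (s1 := true) (s2 := true) (a := 0) (b := 2) (c := 2) (cn := .pp) (n1 := ndB0q0) (n2 := ndB3q2) (pc := pcB2) (cut := Cut.none) (xt := Ext.none) (P1 := 0) (W1 := 536870912) (P2 := 1073741824) (W2 := 536870912) (P3 := 966367641) (W3 := 24778659) (N0 := 3) (En := eng) (mo := mog) (C1 := cd0q0) (C2 := cd3q2) (C3 := pd2)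
    rfl (fun _ => rfl) s26_pp_022

noncomputable def f_pp_023 : ℕ → ℕ → ℕ → ℕ → Bool := onCell 1073741824 536870912 0 1230186008 966367641 24778659
    (rowB 3 eng mog cd0q0 cd3q3 pd2 2 false true true .up 0 2 3 (qsf 0 536870912 0 1230186008 2) ndB0q0 ndB3q3 pcB2 Cut.none Ext.none)

def k0_pp_023 : ∃ t, chk3 f_pp_023 t 2 2 1 = true :=
  ⟨(l 2), by decide +kernel⟩

def k1_pp_023 : ∃ t, chk3 f_pp_023 t 4 3 1 = true :=
  ⟨(b (l 2) (b (l 2) (l 3))), by decide +kernel⟩

def k2_pp_023 : ∃ t, chk3 f_pp_023 t 5 6 1 = true :=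
  ⟨(a (l 2) (b (l 2) (b (l 2) (a (l 2) (b (l 2) (l 16445160)))))), by decide +kernel⟩

def k3_pp_023 : ∃ t, chk3 f_pp_023 t 5 14 1 = true :=
  ⟨(b (a (a (l 2) (b (l 2) (c (l 16472352) (l 16322224)))) (a (b (l 16320880) (c (l 16478120) (l 16338568))) (b (l 16431376) (l 16419408)))) (b (a (a (l 2) (c (l 16412776) (l 228806689975))) (a (c (l 16481600) (l 16313952)) (c (l 16479296) (l 16325472)))) (a (a (a (a (l 3) (b (l 2) (c (l 75328988071) (l 16241384)))) (a (c (c (l 16519696) (l 16424776)) (b (l 16259896) (l 16228936))) (a (c (c (l 16519752) (l 16426984)) (l 16238408)) (c (l 16477152) (l 16261800))))) (c (l 16324744) (b (l 16278032) (l 16267432)))) (a (c (l 16486304) (l 16289944)) (c (l 16483920) (l 16302840)))))), by decide +kernel⟩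

def k4_pp_023 : ∃ t, chk3 f_pp_023 t 10 15 1 = true :=
  ⟨(a (a (a (l 3) (b (b (b (c (l 68886478103) (l 16233032)) (c (l 16372816) (l 16205544))) (l 3)) (l 3))) (a (b (c (b (c (l 16497344) (l 16410560)) (c (b (l 16557096) (l 16570632)) (a (l 16444128) (l 16444704)))) (b (b (a (l 16239336) (l 16243120)) (a (l 16232696) (l 16236512))) (b (a (l 16228256) (l 16232064)) (a (l 16226328) (l 16230096))))) (a (b (b (c (l 16400696) (l 382955563031)) (l 3)) (l 3)) (c (b (c (l 16508816) (l 16360016)) (b (l 16368008) (l 61370254503))) (c (b (l 69423113479) (b (l 16327344) (l 16340736))) (b (b (l 16148584) (l 16149584)) (b (l 16154320) (l 16163232))))))) (b (a (c (b (c (l 16538512) (l 16433200)) (c (l 16562144) (l 16445496))) (b (b (l 16246040) (l 16239408)) (b (l 16234928) (a (l 16232320) (l 16233456))))) (c (b (l 16426816) (l 16340000)) (b (l 16244744) (b (l 16237064) (l 16234968))))) (a (c (c (b (l 16444448) (a (l 16390816) (l 16386824))) (b (b (l 16459456) (l 16471488)) (c (l 16509656) (l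 16456416)))) (b (b (c (l 16312592) (l 16152080)) (c (l 16319328) (l 16153032))) (c (b (l 16329136) (l 16342368)) (b (l 16136704) (a (l 16165832) (l 16166992)))))) (c (b (c (l 16546552) (l 16465864)) (c (l 16380800) (l 16421096))) (b (b (l 16235656) (l 16239400)) (c (l 16336584) (b (l 16159728) (l 16168360))))))))) (b (c (b (c (l 16539440) (l 16439752)) (c (l 16476624) (l 16345264))) (b (b (l 16258456) (l 16251320)) (c (l 16277512) (b (l 16173352) (l 16167320))))) (b (c (b (l 16336608) (a (l 16434248) (l 16474416))) (a (c (l 16320600) (l 16117856)) (c (l 16325256) (l 16146752)))) (c (b (a (l 16407912) (l 16426200)) (a (l 16320896) (l 16324728))) (b (c (l 16335192) (l 16147224)) (c (l 16347664) (l 16134400))))))), by decide +kernel⟩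

def k5_pp_023 : ∃ t, chk3 f_pp_023 t 11 15 1 = true :=
  ⟨(a (b (c (b (l 16431216) (c (l 16530960) (l 16452600))) (b (b (l 16274440) (l 16266256)) (b (l 16260072) (l 16256208)))) (b (c (c (l 16303432) (l 16446440)) (b (l 16254880) (c (l 16332776) (l 16177536)))) (c (b (c (l 16413744) (l 16483640)) (b (l 16319272) (l 16263584))) (b (c (l 16339896) (l 16179568)) (c (l 16350136) (l 16185336)))))) (b (b (c (l 16489440) (l 16281480)) (c (l 16331232) (b (l 16269272) (l 16264008)))) (b (c (c (l 16361624) (l 16460624)) (c (l 16331800) (l 16185960))) (b (c (l 16264688) (l 16200288)) (c (c (l 16309752) (l 16485888)) (l 16122024)))))), by decide +kernel⟩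

def k6_pp_023 : ∃ t, chk3 f_pp_023 t 3 2 1 = true :=
  ⟨(a (l 2) (b (a (l 2) (b (a (l 2) (l 15804584)) (l 15816216))) (b (a (b (l 2) (l 16285784)) (b (l 16070856) (l 16132920))) (a (b (l 16265864) (a (l 16434328) (l 16374816))) (b (l 16192704) (l 16212808)))))), by decide +kernel⟩

def k7_pp_023 : ∃ t, chk3 f_pp_023 t 3 6 1 = true :=
  ⟨(a (b (a (l 2) (b (l 16447832) (l 16391960))) (a (b (a (l 16482480) (l 16475192)) (a (l 16368032) (l 16444600))) (b (a (l 16460720) (l 16438256)) (b (l 16427704) (l 16390384))))) (b (a (b (a (l 16439512) (l 16398040)) (l 16388880)) (b (a (l 16341864) (l 16264752)) (a (l 16338024) (l 16274304)))) (b (a (a (l 16406936) (l 16365752)) (a (l 16310232) (l 16244448))) (a (b (l 16363696) (l 16323960)) (b (l 16251496) (l 16167992)))))), by decide +kernel⟩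

def k8_pp_023 : ∃ t, chk3 f_pp_023 t 3 14 1 = true :=
  ⟨(a (b (a (b (a (l 16430424) (l 16422264)) (c (l 16458624) (l 16353736))) (b (l 16185328) (c (l 16405656) (l 16331184)))) (a (b (a (l 16323536) (l 16397048)) (a (l 16169536) (l 16241592))) (b (c (l 16385696) (l 16303464)) (c (l 16273048) (l 16257800))))) (b (a (b (l 16200880) (a (l 16329800) (l 16285792))) (b (l 16100936) (a (l 16219624) (l 16133520)))) (a (b (c (l 16242312) (l 16242536)) (a (l 16196096) (l 16008496))) (b (c (l 16077392) (l 16146464)) (a (l 15954384) (l 15949792)))))), by decide +kernel⟩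

def k9_pp_023 : ∃ t, chk3 f_pp_023 t 3 15 1 = true :=
  ⟨(a (b (a (b (c (a (l 16477544) (l 16429192)) (a (l 16287032) (l 16283576))) (c (a (l 16356544) (l 16367528)) (a (l 16205728) (l 16263592)))) (b (c (a (l 16356504) (l 16279368)) (a (l 16269744) (l 16245192))) (a (c (l 16310960) (l 16250288)) (c (l 16228200) (l 16227656))))) (a (b (c (a (c (l 16351736) (l 16447192)) (l 16128520)) (a (l 16090944) (l 16144688))) (c (a (c (l 16164512) (l 16427920)) (c (l 16103712) (l 16341936))) (a (c (l 16332584) (l 16182272)) (c (l 16316288) (l 16171744))))) (c (b (a (c (l 16173744) (l 16314264)) (l 15991928)) (a (c (l 16072344) (l 16243712)) (c (l 16005800) (l 16131640)))) (b (a (l 16170128) (l 16208616)) (a (l 16100064) (l 16197480)))))) (b (a (b (c (a (l 16197416) (l 16104672)) (a (l 16212008) (l 16169264))) (c (a (l 16134352) (l 16027080)) (a (l 16194376) (l 16148752)))) (b (a (c (l 15998400) (l 16115568)) (c (l 15878552) (l 16047128))) (c (a (b (l 15929664) (l 15877400)) (l 15596536)) (a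 (l 16092120) (l 15955248))))) (a (b (a (c (l 15966640) (l 16174768)) (c (b (l 15952232) (l 15875592)) (l 16066824))) (c (a (b (l 15950144) (l 15805336)) (b (l 15832296) (l 15739824))) (a (l 15928848) (l 15917704)))) (b (c (a (b (l 15815632) (l 15748416)) (b (l 15662576) (l 15585208))) (a (l 16002592) (l 15772080))) (c (a (b (l 15675752) (l 15595688)) (b (l 15504792) (l 15422744))) (a (l 15750624) (l 15482104))))))), by decide +kernel⟩

theorem s10_pp_023 : ∃ t, chk3 f_pp_023 t 3 7 1 = true := ex3_b k8_pp_023 k9_pp_023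

theorem s11_pp_023 : ∃ t, chk3 f_pp_023 t 3 3 1 = true := ex3_b k7_pp_023 s10_pp_023

theorem s12_pp_023 : ∃ t, chk3 f_pp_023 t 3 1 1 = true := ex3_b k6_pp_023 s11_pp_023

theorem s13_pp_023 : ∃ t, chk3 f_pp_023 t 5 15 1 = true := ex3_a k4_pp_023 k5_pp_023

theorem s14_pp_023 : ∃ t, chk3 f_pp_023 t 5 7 1 = true := ex3_b k3_pp_023 s13_pp_023

theorem s15_pp_023 : ∃ t, chk3 f_pp_023 t 5 3 1 = true := ex3_b k2_pp_023 s14_pp_023

theorem s16_pp_023 : ∃ t, chk3 f_pp_023 t 2 3 1 = true := ex3_a k1_pp_023 s15_pp_023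

theorem s17_pp_023 : ∃ t, chk3 f_pp_023 t 2 1 1 = true := ex3_b k0_pp_023 s16_pp_023

theorem s18_pp_023 : ∃ t, chk3 f_pp_023 t 1 1 1 = true := ex3_a s17_pp_023 s12_pp_023

theorem c_pp_023 : CertB 0 536870912 0 1230186008 966367641 24778659 3 eng mog cd0q0 cd3q3 pd2 false true true .up 0 2 3
    ndB0q0 ndB3q3 pcB2 Cut.none Ext.none :=
  certB2 (fam := false) (s1 := true) (s2 := true) (a := 0) (b := 2) (c := 3) (cn := .up) (n1 := ndB0q0) (n2 := ndB3q3) (pc := pcB2) (cut := Cut.none) (xt := Ext.none) (P1 := 0) (W1 := 536870912) (P2 := 0) (W2 := 1230186008) (P3 := 966367641) (W3 := 24778659) (N0 := 3) (En := eng) (mo := mog) (C1 := cd0q0) (C2 := cd3q3) (C3 := pd2)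
    rfl (fun _ => rfl) s18_pp_023

noncomputable def f_pp_033 : ℕ → ℕ → ℕ → ℕ → Bool := onCell 1610612736 536870912 0 1230186008 966367641 24778659
    (rowB 3 eng mog cd0q0 cd3q3 pd3 2 false true true .pnn 0 3 3 (qsf 0 536870912 0 1230186008 3) ndB0q0 ndB3q3 pcB3 Cut.none Ext.none)

def k0_pp_033 : ∃ t, chk3 f_pp_033 t 1 2 1 = true :=
  ⟨(b (a (a (a (b (a (l 16146160) (l 16134368)) (c (l 16271304) (l 15979816))) (a (b (l 16135336) (l 15928776)) (b (l 16142616) (l 15916520)))) (a (a (b (l 16152840) (l 16067000)) (b (l 16159152) (l 16073544))) (b (a (l 16149816) (l 16122824)) (a (l 16081144) (l 16081496))))) (a (a (a (b (l 4) (l 16060728)) (l 4)) (l 4)) (l 4))) (a (a (b (a (c (l 16227976) (l 15989184)) (b (a (l 16044168) (l 16000968)) (l 15973696))) (a (b (l 16038456) (l 15831136)) (b (l 15921248) (l 15706840)))) (a (b (a (b (l 15972592) (l 15922016)) (b (l 15971024) (l 15889088))) (b (a (l 15878552) (l 15827200)) (a (l 15847280) (l 15789192)))) (b (a (b (l 15976312) (l 15884304))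 (b (l 15982200) (l 15886544))) (a (b (l 15789304) (l 15727264)) (b (l 15769560) (l 15667320)))))) (b (a (a (a (b (l 15981568) (l 15881568)) (b (l 15950360) (l 15861408))) (a (b (l 4) (l 15804808)) (l 4))) (l 4)) (a (a (a (b (l 15755936) (l 15610712)) (b (l 15731896) (l 15558304))) (a (b (l 15686168) (l 15483472)) (b (l 15597904) (l 15390504)))) (a (a (a (l 15416760) (l 4)) (l 4)) (l 4)))))), by decide +kernel⟩

def k1_pp_033 : ∃ t, chk3 f_pp_033 t 1 6 1 = true :=
  ⟨(a (a (b (a (b (a (l 16076264) (l 16011368)) (a (l 16062536) (l 15996208))) (b (a (l 15947216) (l 15882568)) (a (l 15928344) (l 15777624)))) (a (b (a (l 15927960) (b (l 15980720) (l 15962744))) (c (a (l 16018944) (l 15950096)) (a (l 15936752) (l 15873104)))) (b (a (c (l 15930784) (l 15857952)) (b (l 15842920) (l 15826048))) (a (b (l 15877080) (l 15848768)) (b (l 15802160) (l 15769416)))))) (b (a (b (a (l 15819464) (l 15751744)) (a (l 15788864) (l 15707384))) (b (a (l 15676096) (l 15588384)) (a (b (l 15630760) (l 15597976))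 (l 15505640)))) (a (b (a (c (l 15766376) (l 15710320)) (b (l 15663632) (l 15628296))) (a (b (l 15699384) (c (l 15638168) (l 15631344))) (b (l 15581768) (c (l 15502992) (l 15527824))))) (b (a (b (l 15554544) (l 15503512)) (b (l 15425632) (l 15363088))) (a (b (l 15339664) (c (l 15353352) (l 15403928))) (b (c (l 15283760) (l 15310512)) (c (l 15198176) (l 15248464)))))))) (b (a (a (b (a (l 15493816) (b (l 15430528) (l 15349280))) (a (b (l 15409176) (l 15348912)) (b (l 15275376) (l 15202632)))) (a (b (l 15278304) (b (l 15136560) (l 15054384))) (b (l 15158552) (l 420936990375)))) (a (a (b (a (l 15077256) (l 1)) (l 1)) (l 1)) (l 1))) (a (a (b (a (b (l 15281896) (l 15210984)) (b (l 15130280) (l 15056112))) (a (b (c (l 15129256) (l 15154624)) (c (l 14983872) (l 15088312))) (b (l 125657794887) (l 1)))) (b (a (b (l 14979840) (l 1)) (l 1)) (l 1))) (l 1)))), by decide +kernel⟩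

def k2_pp_033 : ∃ t, chk3 f_pp_033 t 1 7 1 = true :=
  ⟨(a (b (a (a (b (b (a (l 15953128) (l 15889232)) (a (l 15905848) (l 15858568))) (b (a (l 15815984) (c (l 15818472) (l 15761720))) (a (c (l 15875104) (l 15807088)) (c (l 15754104) (l 15725600))))) (b (b (a (l 15815944) (l 15542088)) (a (c (l 15759448) (l 15718312)) (c (l 15633248) (l 15628840)))) (b (a (c (l 15695384) (l 15675504)) (c (l 15556192) (l 15581736))) (a (c (l 15618216) (l 15634760)) (c (l 15468912) (l 15534712)))))) (a (b (a (b (c (l 15568904) (l 15581904)) (c (l 15490376) (l 15529872))) (b (c (l 15421800) (l 15476344)) (c (l 15336096) (l 15420344)))) (b (a (c (l 15404496) (l 15477008)) (c (l 15247800) (l 15363200))) (a (c (l 15314536) (l 15430304)) (c (l 39221881895) (l 15290720))))) (b (a (b (c (l 15266392) (l 15339856)) (c (l 71434081431) (l 15270760))) (b (c (l 14859304) (l 15179128)) (l 1))) (l 1)))) (a (b (a (b (a (c (l 15808656) (l 15777640)) (c (l 15675184) (l 15690984))) (c (a (l 15725608) (l 15423392)) (a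 (l 15752296) (l 15660856)))) (b (a (c (l 15528232) (l 15595112)) (c (l 15334120) (l 15494440))) (a (c (b (l 15458120) (l 15407472)) (l 15564064)) (c (c (l 15247336) (l 15251744)) (l 15431672))))) (a (b (a (c (b (l 15651208) (l 15598496)) (l 15692088)) (c (c (l 15399440) (l 15512680)) (l 15632160))) (a (c (c (l 15226608) (l 15387272)) (l 15661368)) (c (b (l 15287552) (l 1)) (l 15515168)))) (a (a (b (b (l 15467696) (l 1)) (l 1)) (l 1)) (l 1)))) (b (a (b (a (c (c (l 15193992) (l 15214232)) (l 15367144)) (l 1)) (l 1)) (l 1)) (l 1)))) (l 1)), by decide +kernel⟩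

theorem s3_pp_033 : ∃ t, chk3 f_pp_033 t 1 3 1 = true := ex3_b k1_pp_033 k2_pp_033

theorem s4_pp_033 : ∃ t, chk3 f_pp_033 t 1 1 1 = true := ex3_b k0_pp_033 s3_pp_033

theorem c_pp_033 : CertB 0 536870912 0 1230186008 966367641 24778659 3 eng mog cd0q0 cd3q3 pd3 false true true .pnn 0 3 3
    ndB0q0 ndB3q3 pcB3 Cut.none Ext.none :=
  certB2 (fam := false) (s1 := true) (s2 := true) (a := 0) (b := 3) (c := 3) (cn := .pnn) (n1 := ndB0q0) (n2 := ndB3q3) (pc := pcB3) (cut := Cut.none) (xt := Ext.none) (P1 := 0) (W1 := 536870912) (P2 := 0) (W2 := 1230186008) (P3 := 966367641) (W3 := 24778659) (N0 := 3) (En := eng) (mo := mog) (C1 := cd0q0) (C2 := cd3q3) (C3 := pd3)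
    rfl (fun _ => rfl) s4_pp_033

noncomputable def f_pp_101 : ℕ → ℕ → ℕ → ℕ → Bool := onCell 536870912 536870912 536870912 536870912 966367641 24778659
    (rowB 3 eng mog cd0q1 cd3q1 pd0 0 false true true .npn 1 0 1 (qsf 536870912 536870912 536870912 536870912 0) ndB0q1 ndB3q1 pcB0 Cut.none Ext.none)

def k0_pp_101 : ∃ t, chk3 f_pp_101 t 1 1 1 = true :=
  ⟨(a (l 3) (l 5)), by decide +kernel⟩

theorem c_pp_101 : CertB 536870912 536870912 536870912 536870912 966367641 24778659 3 eng mog cd0q1 cd3q1 pd0 false true true .npn 1 0 1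
    ndB0q1 ndB3q1 pcB0 Cut.none Ext.none :=
  certB0 (fam := false) (s1 := true) (s2 := true) (a := 1) (b := 0) (c := 1) (cn := .npn) (n1 := ndB0q1) (n2 := ndB3q1) (pc := pcB0) (cut := Cut.none) (xt := Ext.none) (P1 := 536870912) (W1 := 536870912) (P2 := 536870912) (W2 := 536870912) (P3 := 966367641) (W3 := 24778659) (N0 := 3) (En := eng) (mo := mog) (C1 := cd0q1) (C2 := cd3q1) (C3 := pd0)
    rfl k0_pp_101

noncomputable def f_pp_102 : ℕ → ℕ → ℕ → ℕ → Bool := onCell 536870912 536870912 1073741824 536870912 966367641 24778659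
    (rowB 3 eng mog cd0q1 cd3q2 pd0 0 false true true .npp 1 0 2 (qsf 536870912 536870912 1073741824 536870912 0) ndB0q1 ndB3q2 pcB0 Cut.none Ext.none)

def k0_pp_102 : ∃ t, chk3 f_pp_102 t 1 1 1 = true :=
  ⟨(l 3), by decide +kernel⟩

theorem c_pp_102 : CertB 536870912 536870912 1073741824 536870912 966367641 24778659 3 eng mog cd0q1 cd3q2 pd0 false true true .npp 1 0 2
    ndB0q1 ndB3q2 pcB0 Cut.none Ext.none :=
  certB0 (fam := false) (s1 := true) (s2 := true) (a := 1) (b := 0) (c := 2) (cn := .npp) (n1 := ndB0q1) (n2 := ndB3q2) (pc := pcB0) (cut := Cut.none) (xt := Ext.none) (P1 := 536870912) (W1 := 536870912) (P2 := 1073741824) (W2 := 536870912) (P3 := 966367641) (W3 := 24778659) (N0 := 3) (En := eng) (mo := mog) (C1 := cd0q1) (C2 := cd3q2) (C3 := pd0)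
    rfl k0_pp_102

noncomputable def f_pp_112 : ℕ → ℕ → ℕ → ℕ → Bool := onCell 536870912 536870912 1073741824 536870912 966367641 24778659
    (rowB 3 eng mog cd0q1 cd3q2 pd1 0 false true true .dn 1 1 2 (qsf 536870912 536870912 1073741824 536870912 1) ndB0q1 ndB3q2 pcB1 Cut.none Ext.none)

def k0_pp_112 : ∃ t, chk3 f_pp_112 t 1 1 1 = true :=
  ⟨(l 3), by decide +kernel⟩

theorem c_pp_112 : CertB 536870912 536870912 1073741824 536870912 966367641 24778659 3 eng mog cd0q1 cd3q2 pd1 false true true .dn 1 1 2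
    ndB0q1 ndB3q2 pcB1 Cut.none Ext.none :=
  certB0 (fam := false) (s1 := true) (s2 := true) (a := 1) (b := 1) (c := 2) (cn := .dn) (n1 := ndB0q1) (n2 := ndB3q2) (pc := pcB1) (cut := Cut.none) (xt := Ext.none) (P1 := 536870912) (W1 := 536870912) (P2 := 1073741824) (W2 := 536870912) (P3 := 966367641) (W3 := 24778659) (N0 := 3) (En := eng) (mo := mog) (C1 := cd0q1) (C2 := cd3q2) (C3 := pd1)
    rfl k0_pp_112

noncomputable def cut_pp_113 : Cut := Cut.of [[⟨0, 1, 0, 47710208⟩, ⟨1, 1, 0, 47710208⟩, ⟨2, 2, 0, 8388608⟩]]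

noncomputable def f_pp_113 : ℕ → ℕ → ℕ → ℕ → Bool := onCell 536870912 536870912 0 1230186008 966367641 24778659
    (rowB 3 eng mog cd0q1 cd3q3 pd1 2 false true true .nn 1 1 3 (qsf 536870912 536870912 0 1230186008 1) ndB0q1 ndB3q3 pcB1 cut_pp_113 Ext.none)

def k0_pp_113 : ∃ t, chk3 f_pp_113 t 1 1 1 = true :=
  ⟨(b (a (l 2) (a (l 2) (b (a (l 2) (a (l 2) (b (l 6) (l 3)))) (l 3)))) (b (a (b (l 2) (l 3)) (l 3)) (a (b (a (l 2) (l 3)) (l 3)) (l 3)))), by decide +kernel⟩

theorem c_pp_113 : CertB 536870912 536870912 0 1230186008 966367641 24778659 3 eng mog cd0q1 cd3q3 pd1 false true true .nn 1 1 3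
    ndB0q1 ndB3q3 pcB1 cut_pp_113 Ext.none :=
  certB2 (fam := false) (s1 := true) (s2 := true) (a := 1) (b := 1) (c := 3) (cn := .nn) (n1 := ndB0q1) (n2 := ndB3q3) (pc := pcB1) (cut := cut_pp_113) (xt := Ext.none) (P1 := 536870912) (W1 := 536870912) (P2 := 0) (W2 := 1230186008) (P3 := 966367641) (W3 := 24778659) (N0 := 3) (En := eng) (mo := mog) (C1 := cd0q1) (C2 := cd3q3) (C3 := pd1)
    rfl (fun _ => rfl) k0_pp_113

end Pool.Agent.Strip051.G.I9000_9231.Tab.C.BB03

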