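import Pool.Agent.Strip051.G.I9000_9231.Tab
import Pool.Agent.Strip051.PB.ExtD2

/-! # Certificates B14 (generated) -/

set_option linter.all false
set_option maxRecDepth 100000

namespace Pool.Agent.Strip051.G.I9000_9231.Tab.C.BB03

open Pool.Agent.Strip051.PB Pool.Agent.Strip051.PB.T
open Pool.Agent.Strip051.G.I9000_9231.Tab

noncomputable def cut_pp_123 : Cut := Cut.of [[⟨0, 1, 0, 47710208⟩, ⟨1, 1, 0, 47710208⟩, ⟨2, 2, 0, 8388608⟩]]

noncomputable def xt_pp_123 : Ext := extD2 3 ⟨4, 1, 1, 5, 37, 10, 843, 1000, 41, 100, 1, 8⟩ eng cd0q1 cd3q3 pd2 false true true .npn 1 2 3 rfl ndB0q1 ndB3q3 pcB2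

noncomputable def f_pp_123 : ℕ → ℕ → ℕ → ℕ → Bool := onCell 1073741824 536870912 0 1230186008 966367641 24778659
    (rowB 3 eng mog cd0q1 cd3q3 pd2 2 false true true .npn 1 2 3 (qsf 536870912 536870912 0 1230186008 2) ndB0q1 ndB3q3 pcB2 cut_pp_123 xt_pp_123)

def k0_pp_123 : ∃ t, chk3 f_pp_123 t 16 8 1 = true :=
  ⟨(l 6), by decide +kernel⟩

def k1_pp_123 : ∃ t, chk3 f_pp_123 t 32 9 1 = true :=
  ⟨(l 3), by decide +kernel⟩

def k2_pp_123 : ∃ t, chk3 f_pp_123 t 66 18 1 = true :=
  ⟨(l 3), by decide +kernel⟩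

def k3_pp_123 : ∃ t, chk3 f_pp_123 t 67 144 1 = true :=
  ⟨(l 6), by decide +kernel⟩

def k4_pp_123 : ∃ t, chk3 f_pp_123 t 134 145 1 = true :=
  ⟨(l 3), by decide +kernel⟩

def k5_pp_123 : ∃ t, chk3 f_pp_123 t 270 145 1 = true :=
  ⟨(a (l 3) (a (b (b (b (b (l 6) (a (c (c (c (l 390472918855) (l 394767889543)) (l 401747212567)) (l 411947762295)) (c (c (l 264845127719) (l 16775528)) (l 326048411623)))) (a (l 3) (a (c (b (c (l 352355086855) (l 376514278007)) (l 428590757447)) (l 400136602071)) (c (b (l 16775216) (c (l 335175217463) (l 362018763047))) (l 355576312519))))) (c (c (a (l 3) (l 423758919271)) (l 430201372359)) (l 435033207767))) (l 3)) (b (b (c (a (b (l 16773776) (c (l 16774112) (l 16775136))) (l 16773112)) (c (l 16772920) (l 16776848))) (a (a (b (c (b (c (l 312626639031) (l 341617668215)) (l 395841628887)) (l 384030471207)) (l 3)) (b (c (c (l 279340642439) (l 16774328)) (l 336248959127)) (c (c (l 391009792583) (l 399062857879)) (l 409800278615)))) (a (b (c (l 16774656) (l 16776752)) (c (b (l 308868539431)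 (c (l 352891957607) (l 376514277863))) (l 364703118151))) (c (c (l 16774672) (l 16775064)) (l 16774072))))) (a (l 3) (b (b (c (c (c (a (l 424295789095) (l 362555633479)) (l 386714825671)) (l 393694148759)) (l 404431564311)) (l 3)) (l 3)))))), by decide +kernel⟩

def k6_pp_123 : ∃ t, chk3 f_pp_123 t 271 145 1 = true :=
  ⟨(a (b (c (a (a (b (l 16772024) (a (l 16768744) (l 16773448))) (l 16766536)) (l 16759648)) (a (c (l 16769432) (l 16776296)) (l 16774280))) (a (a (b (b (c (c (c (l 278266899671) (l 286319964295)) (l 323364054583)) (c (l 333564604215) (l 16777480))) (a (c (l 407115918183) (l 419463955159)) (c (b (c (l 293836156791) (l 16775800)) (l 390472919191)) (l 373829923463)))) (l 3)) (c (b (a (b (l 16774176) (b (l 16774816) (l 308331668103))) (l 16771440)) (b (a (c (l 378661760007) (l 387788568519)) (b (l 16775120) (a (l 375440533703) (l 16774096)))) (l 422148301447))) (b (b (l 16776376) (l 315847863447)) (c (l 392620405975) (l 394767894103))))) (b (c (c (l 16771960) (l 16773432)) (l 16770488)) (a (b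 (c (c (l 16773984) (l 16775064)) (l 16776744)) (a (c (b (c (l 310479155127) (l 16775864)) (l 393694147687)) (l 382419858215)) (c (b (l 16774888) (l 322290311943)) (l 16774456)))) (c (b (l 16773424) (l 16771656)) (l 16771152)))))) (a (b (l 16759976) (c (b (l 16770504) (l 16766968)) (l 16769776))) (c (l 16756944) (l 16751848)))), by decide +kernel⟩

def k7_pp_123 : ∃ t, chk3 f_pp_123 t 67 73 1 = true :=
  ⟨(a (l 3) (a (l 3) (b (a (a (l 3) (b (b (a (a (l 3) (c (c (l 406042175719) (l 412484631015)) (l 421074568311))) (b (c (c (c (a (l 318532218071) (l 16774096)) (l 303499833639)) (l 337322698551)) (c (l 346449506407) (l 323900930423))) (c (c (c (a (l 422148305175) (l 360408146935)) (l 385104212711)) (l 392620406823)) (l 403357822583)))) (l 3)) (l 3))) (a (a (b (b (b (c (l 16774040) (l 16776536)) (c (c (c (l 277730028375) (l 285783093079)) (l 321753441719)) (l 336785829015))) (b (c (a (l 404431560839) (b (l 320142828199) (l 386714822311))) (l 389399178679)) (l 3))) (l 3)) (b (c (b (l 16768128) (b (c (l 16774112)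 (l 16775208)) (c (a (l 375440535591) (l 300815478807)) (l 6685359782612815272072495311)))) (b (l 16776184) (c (l 355576311095) (l 325511542551)))) (c (c (l 425906398055) (l 430201372471)) (l 435570074007)))) (b (b (c (l 16771720) (l 16775288)) (c (c (a (l 16773360) (l 16772144)) (l 16771512)) (c (l 16775552) (l 16777008)))) (b (c (a (b (c (c (a (l 340543925495) (l 16774216)) (l 318532219383)) (l 350207600695)) (c (l 398525985175) (l 406042179831))) (b (l 16768928) (c (c (l 293299285015) (l 300815478839)) (l 334638343735)))) (c (a (l 375440534007) (l 334638344695)) (a (l 383493605047) (l 283635611159)))) (a (l 3) (b (c (a (l 423758919047) (b (l 345912632215) (l 402284082199))) (l 401210339143)) (l 3))))))) (l 3)))), by decide +kernel⟩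

def k8_pp_123 : ∃ t, chk3 f_pp_123 t 67 37 1 = true :=
  ⟨(l 3), by decide +kernel⟩

def k9_pp_123 : ∃ t, chk3 f_pp_123 t 33 19 1 = true :=
  ⟨(l 3), by decide +kernel⟩

def k10_pp_123 : ∃ t, chk3 f_pp_123 t 17 8 1 = true :=
  ⟨(a (b (a (l 6) (l 16726632)) (a (a (l 6) (a (l 6) (l 16718536))) (c (l 16701224) (l 16720728)))) (b (l 16703920) (a (l 16719480) (l 16707288)))), by decide +kernel⟩

def k11_pp_123 : ∃ t, chk3 f_pp_123 t 136 72 1 = true :=
  ⟨(a (b (l 6) (a (c (l 16743136) (l 16749992)) (l 16742992))) (c (l 16728480) (l 16741488))), by decide +kernel⟩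

def k12_pp_123 : ∃ t, chk3 f_pp_123 t 272 73 1 = true :=
  ⟨(b (b (a (c (a (l 16759888) (l 16768160)) (l 16763480)) (l 16747136)) (a (c (a (b (c (l 16772200) (l 16773720)) (c (a (a (b (l 284709351127) (l 395304759447)) (b (l 16773928) (l 321216573639))) (b (l 16773008) (l 16773960))) (a (b (l 318532215991) (l 373293053623)) (l 16774776)))) (b (l 16770744) (l 16767552))) (a (b (l 16770832) (c (a (l 353965697079) (l 16776104)) (a (l 317995348279) (l 16777472)))) (l 16770128))) (c (l 16757792) (l 16752568)))) (a (b (a (b (a (a (l 3) (l 437180689127)) (b (c (c (a (l 370608697127) (l 294373027655)) (l 368461211975)) (l 380809244807)) (c (l 416779592023) (l 428053890599)))) (l 3)) (a (b (b (c (l 16771696) (l 16776944)) (c (a (b (l 325511536935) (l 393157272855)) (l 305647311719)) (l 359334408167))) (b (c (c (l 395304759447) (l 403357825223)) (l 413021504919)) (l 3))) (b (c (b (l 16773208) (l 16774072)) (l 16776592)) (b (c (c (c (l 289004317383) (l 297057382215)) (l 330343376375)) (l 344838893047)) (c (c (c (l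 373293051175) (l 378661761367)) (l 386177955767)) (l 398525979655)))))) (l 3)) (b (c (a (b (l 16761496) (a (a (b (l 16774112) (l 314237246455)) (l 16768752)) (l 16773160))) (l 16760144)) (a (c (b (l 16774744) (l 295983636743)) (l 220284839895)) (l 16774984))) (c (a (b (a (b (a (l 394231013207) (a (l 356113179063) (l 322827181879))) (l 429127628391)) (b (c (l 16773808) (l 16775128)) (c (c (l 323900927143) (l 329269637527)) (l 358260664455)))) (c (l 420000817271) (l 425906404807))) (b (c (l 16768504) (l 16774048)) (c (a (b (c (l 304036702999) (l 308868542599)) (l 389399179191)) (b (l 16773256) (l 314774116951))) (a (b (l 342154536439) (l 397989116119)) (l 319069084935))))) (a (b (a (l 401747210679) (a (l 352891957015) (l 316384734087))) (l 432348848775)) (a (b (l 16776848) (a (l 388862303559) (l 367387471831))) (c (l 293299281335) (l 16774976)))))))), by decide +kernel⟩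

def k13_pp_123 : ∃ t, chk3 f_pp_123 t 273 73 1 = true :=
  ⟨(b (c (l 16738872) (l 16747752)) (a (b (c (l 16746320) (l 16773136)) (c (a (c (l 16765688) (l 16772856)) (l 16769664)) (c (l 16768856) (l 16765920)))) (c (l 16743584) (l 16750712)))), by decide +kernel⟩

def k14_pp_123 : ∃ t, chk3 f_pp_123 t 137 36 1 = true :=
  ⟨(b (a (b (l 16725968) (l 16730504)) (l 16702312)) (a (b (l 16736128) (a (l 16743568) (l 16740032))) (b (l 16729000) (l 16734720)))), by decide +kernel⟩

def k15_pp_123 : ∃ t, chk3 f_pp_123 t 136 37 1 = true :=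
  ⟨(b (a (b (a (l 3) (a (l 3) (a (l 3) (b (b (b (c (c (c (l 367387470839) (l 372756181159)) (l 381346117575)) (l 393694152327)) (l 3)) (l 3)) (l 3))))) (l 3)) (b (a (a (b (c (a (b (a (b (l 16772272) (l 386177949447)) (b (l 16774344) (l 337322695847))) (l 426980145111)) (b (b (l 16773512) (l 16769144)) (b (a (l 367924338599) (l 313700375143)) (l 405505302679)))) (b (c (a (l 357723795079) (l 16776320)) (l 275045676487)) (c (l 400136597431) (l 400136605399)))) (l 3)) (b (b (c (l 16767040) (l 16776224)) (c (a (a (b (l 16774424) (l 344302017767)) (l 16771688)) (l 16768232)) (c (l 314237248583) (l 254644581703)))) (b (c (c (a (b (l 382956728039) (l 3)) (b (l 307794794663) (l 6782073848181878197504016591))) (a (l 406042180343) (l 6424231805575928789057847503))) (c (l 384030469751) (l 351281347047))) (c (l 433959467735) (l 442012536887))))) (b (c (a (l 16765688) (l 16768704)) (l 16767056)) (c (a (b (b (l 16767880) (c (l 16773176) (l 16774840))) (c (a (b (l 358797532631) (l 411947757767)) (b (l 16773520) (l 336248953575)))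 (a (l 381882983559) (l 333027729207)))) (b (l 16771336) (c (l 16772152) (l 16774056)))) (a (a (b (l 16772216) (l 393694142743)) (b (l 16776848) (l 319605959687))) (b (l 16775936) (l 16766544)))))) (a (l 3) (b (b (c (a (c (a (l 3) (l 405505306983)) (l 419463954055)) (c (a (b (l 317995341927) (l 374366793287)) (l 16770840)) (a (l 351281341031) (l 16775168)))) (a (l 426980140711) (c (l 348060117655) (l 324437801623)))) (a (l 3) (a (l 3) (c (a (l 406579044823) (b (l 339470179191) (l 421074564631))) (l 399599723543))))) (l 3))))) (l 3)), by decide +kernel⟩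

def k16_pp_123 : ∃ t, chk3 f_pp_123 t 137 74 1 = true :=
  ⟨(a (b (a (b (l 16753104) (c (l 16759696) (l 16753664))) (b (l 16744352) (l 16747240))) (a (a (b (c (b (l 16767392) (a (b (l 16774520) (a (l 370071821879) (l 16772504))) (l 16768608))) (c (b (l 16775824) (l 339470182551)) (l 252497096807))) (b (c (a (l 415705850759) (c (b (l 327122147543) (l 383493599015)) (l 357723792439))) (c (l 392620400391) (l 394231026983))) (l 3))) (b (c (l 16763432) (l 16755272)) (b (c (c (a (l 304036695415) (l 16772384)) (l 312089760583)) (c (l 16776920) (l 16778968))) (c (c (a (b (l 364166245831) (l 430738240039)) (b (l 16773832) (l 357723790407))) (a (l 394231020679) (l 344838890087))) (c (l 375977401895) (l 348596989015)))))) (b (c (l 16746976) (l 16753432)) (c (a (c (b (l 16770528) (l 16772464)) (l 16768520)) (l 16770392)) (c (l 16770112) (l 16767536)))))) (a (b (l 16742272) (c (l 16744288) (l 16752096))) (b (l 16738752) (l 16744640)))), by decide +kernel⟩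

def k17_pp_123 : ∃ t, chk3 f_pp_123 t 137 75 1 = true :=
  ⟨(a (b (a (a (l 3) (a (l 3) (b (c (l 426980135927) (l 436106937863)) (l 3)))) (a (b (c (b (c (a (b (l 335175211527) (l 392083533863)) (l 309405404695)) (a (l 363629378247) (l 16773080))) (c (a (l 3) (l 391009786967)) (l 410337149111))) (b (c (l 353428823351) (l 326585287079)) (l 418390207751))) (l 3)) (b (b (c (l 16767832) (l 16767312)) (c (a (b (l 16769728) (c (l 365239983319) (l 373293050823))) (l 16769064)) (c (l 346986376759) (l 322827190631)))) (b (c (a (l 426980145911) (b (a (l 366313725191) (l 16775376)) (l 403357814647))) (c (l 400136605271) (l 407115931079))) (l 3))))) (l 3)) (b (b (a (c (c (l 16763968) (l 16772080)) (a (l 16756192) (l 16775952))) (l 16754360)) (a (c (a (b (c (a (l 314237243271) (l 16772744)) (l 319069083303)) (c (a (l 395841630727) (b (l 16774200) (l 370608692791))) (a (l 403894698231) (l 354502567479)))) (c (b (l 16770896) (l 16772848)) (l 16769144))) (a (b (b (l 16768144) (l 338933313447)) (c (l 381882983671) (l 385104223847)))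 (b (l 16777720) (l 16773664)))) (c (a (l 16749928) (l 16768680)) (l 16755536)))) (a (b (c (a (l 432348846455) (b (c (a (b (l 349133855543) (l 405505307287)) (l 318532210647)) (a (l 373829926823) (l 329269633783))) (c (l 409263399191) (l 415705859511)))) (a (l 440401907783) (b (c (l 359871276167) (l 343765163831)) (l 422685166807)))) (l 3)) (a (b (b (c (l 16768376) (l 16768424)) (a (c (b (l 316384727927) (l 379735497543)) (l 371682441767)) (c (l 16769632) (l 16769336)))) (b (c (c (a (l 432348853911) (b (l 355576306823) (l 410874016791))) (l 395841625047)) (l 404968437367)) (l 3))) (c (a (b (l 16762376) (b (c (l 322827178231) (l 333027730791)) (l 405505302295))) (b (l 16771752) (b (l 16764000) (b (l 321753437527) (l 383493594551))))) (b (l 16757352) (c (a (l 371682437911) (l 350207603447)) (l 341080803031)))))))), by decide +kernel⟩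

def k18_pp_123 : ∃ t, chk3 f_pp_123 t 69 18 1 = true :=
  ⟨(b (a (b (l 16718256) (a (a (l 16705608) (l 16723560)) (l 16720160))) (l 16692968)) (a (b (a (b (l 16733504) (l 16728936)) (l 16708560)) (a (b (c (a (l 16742568) (l 16759128)) (l 16750704)) (a (b (c (l 16748016) (l 16755560)) (c (a (c (b (l 16771352) (l 16768080)) (l 16769936)) (l 16750568)) (a (c (l 16767616) (l 16760144)) (l 16757448)))) (c (l 16755904) (l 16754408)))) (c (b (l 16752536) (l 16738816)) (l 16748280)))) (b (a (l 16702096) (l 16718120)) (c (l 16701128) (l 16741096))))), by decide +kernel⟩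

def k19_pp_123 : ∃ t, chk3 f_pp_123 t 68 19 1 = true :=
  ⟨(b (a (l 3) (b (l 3) (l 3))) (l 3)), by decide +kernel⟩

def k20_pp_123 : ∃ t, chk3 f_pp_123 t 138 76 1 = true :=
  ⟨(a (b (a (a (b (c (b (c (a (l 6917473539978695224593678607) (l 325511533143)) (a (l 382419863015) (l 335175214983))) (c (l 413021501703) (l 418927086615))) (b (c (l 365776848071) (l 374903658855)) (l 424832653255))) (l 3)) (b (b (c (c (l 16772848) (l 16775760)) (l 16769816)) (c (a (b (l 324974663399) (l 376514270471)) (b (l 16775120) (l 16770800))) (c (l 356113186119) (l 364703127031)))) (a (l 3) (b (c (c (l 375977402551) (l 384567347591)) (l 393694140199)) (l 3))))) (b (c (c (l 16762288) (l 16763192)) (a (l 16758784) (l 16757600))) (c (a (a (b (c (l 327122146087) (l 336785828503)) (l 410337139287)) (b (l 16764736) (b (l 327659018039) (l 379198625751)))) (c (b (l 16771896) (l 296520500055)) (l 306184179287))) (a (c (a (l 375440536903) (l 353428830887)) (l 6820759474409475137730920719)) (b (l 16759504) (l 16776512)))))) (a (l 3) (a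 (l 3) (b (c (b (c (a (l 378124886727) (l 328732759047)) (a (l 386177961255) (l 338396442007))) (c (l 416779599127) (l 422148313943))) (b (c (l 367387463479) (l 383493612055)) (l 392620412167))) (l 3))))) (b (c (a (c (l 16756728) (l 16750472)) (l 16743912)) (c (l 16763856) (l 16758400))) (a (b (c (a (a (b (l 16765104) (b (l 329269631191) (l 381882981047))) (c (b (l 16772784) (l 16769520)) (l 16771816))) (b (l 16772816) (l 16764184))) (a (c (l 343765153799) (l 352891967079)) (l 16760312))) (a (a (l 3) (b (c (c (l 380272370903) (l 387788574935)) (l 358260663159)) (l 3))) (b (c (c (a (l 329269630503) (l 16774288)) (l 328195893031)) (c (l 337859576839) (l 16779720))) (c (a (l 413558366231) (b (l 330343373271) (l 383493594519))) (l 7255972769470703982349926671))))) (b (c (l 16749440) (l 16758504)) (c (a (b (l 16753328) (c (l 296520500503) (l 16772656))) (l 16752024)) (a (b (l 16761048) (l 323900932503)) (l 16760480))))))), by decide +kernel⟩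

def k21_pp_123 : ∃ t, chk3 f_pp_123 t 138 77 1 = true :=
  ⟨(a (l 3) (b (a (l 3) (a (b (c (b (c (a (l 381346113271) (b (l 16775304) (l 346449502167))) (a (l 388862317703) (l 338933314167))) (c (l 418390212935) (l 423758928583))) (b (c (l 367387466215) (l 342154540343)) (l 393694146695))) (l 3)) (b (b (c (b (l 16754344) (l 16771000)) (l 16762432)) (c (c (a (b (l 324974665319) (l 382419860615)) (l 16770072)) (a (l 370608699911) (l 16778872))) (c (l 356650061479) (l 365240003783)))) (a (l 3) (b (c (c (l 381882984743) (l 389399189591)) (l 358797537255)) (l 3)))))) (l 3))), by decide +kernel⟩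

def k22_pp_123 : ∃ t, chk3 f_pp_123 t 139 38 1 = true :=
  ⟨(a (a (b (b (l 16745752) (c (l 16757320) (l 16757352))) (a (b (b (c (c (l 16772472) (l 16776520)) (l 16761864)) (c (a (b (b (l 16766880) (c (l 346449502711) (l 355039444631))) (l 414632109559)) (b (l 16766224) (b (a (l 344302019191) (l 16767344)) (l 384030466951)))) (c (b (l 336785837415) (l 386714821719)) (l 6907802133421694971930951887)))) (l 3)) (b (b (c (l 16772248) (l 16760640)) (c (b (l 16754064) (c (a (l 16770344) (l 16774360)) (l 16773608))) (b (l 16762608) (l 322290321623)))) (b (c (b (c (a (l 381882985303) (b (l 16775856) (l 345375761111))) (a (l 389399190551) (l 337322703351))) (c (l 418927084983) (l 423758930535))) (b (c (l 364703114439) (l 359871284103)) (l 404431568183))) (l 3))))) (b (b (l 16742312) (l 16748544)) (b (c (c (l 16757792) (l 16752296)) (a (l 16760712) (l 16759480))) (a (b (b (c (b (l 16755088) (l 16771752)) (l 16764016)) (c (c (a (b (l 323364053031) (l 381882990823)) (l 16770624)) (a (l 358797527367) (l 16779832))) (c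 (l 343765148919) (l 363092523783)))) (a (l 3) (b (c (c (l 7043201825218712522435559695) (l 388325449719)) (l 365239991447)) (l 3)))) (b (c (c (l 16773016) (l 16777464)) (l 16763440)) (c (a (b (b (l 16767632) (c (l 343228277703) (l 351818220439))) (l 413558369287)) (b (l 16766976) (b (c (l 320679698711) (l 16775616)) (l 7091558858003260512187515151)))) (c (a (l 372756190631) (l 337859580071)) (l 6907802133421678135662231759)))))))) (b (b (l 16737184) (l 16732880)) (b (c (a (l 16745328) (l 16761872)) (l 16756384)) (a (b (c (l 16750896) (l 16761576)) (c (a (b (l 16754808) (c (a (l 16770904) (l 16774904)) (l 16769328))) (l 16753504)) (a (b (l 16764192) (l 318532227783)) (l 16763608)))) (c (l 16748280) (l 16760392)))))), by decide +kernel⟩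

def k23_pp_123 : ∃ t, chk3 f_pp_123 t 69 39 1 = true :=
  ⟨(a (l 3) (b (a (l 3) (a (b (a (b (c (b (c (a (b (l 363092502343) (l 425369536247)) (b (l 16776408) (l 340543923383))) (a (l 387251687911) (l 333564608263))) (c (l 417316462951) (l 422685169751))) (b (c (l 360408160439) (l 381346123239)) (l 415705860631))) (l 3)) (b (b (c (b (l 16755840) (l 16769888)) (l 16765616)) (c (c (a (b (l 317458473799) (l 377588014215)) (l 16771184)) (a (l 355576314359) (l 16780800))) (c (l 338933313511) (l 359871300903)))) (a (l 3) (c (b (b (c (l 359871277127) (l 367387479015)) (l 422685165511)) (l 3)) (l 7681514657974973118785519695))))) (l 3)) (a (b (b (c (c (l 16773560) (l 16778416)) (l 16765024)) (c (b (c (a (b (l 16776688) (l 336785827591)) (l 16775952)) (l 320142833495)) (c (a (l 409263399351) (b (l 313700377671) (l 374366789351))) (a (l 415168998455) (l 353428831703)))) (b (c (l 329806520471) (l 339470206647)) (c (l 7168930110458481468104261839) (l 423222053751))))) (l 3)) (b (b (c (l 16752760) (l 16763768)) (c (c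 (c (l 282561855095) (l 16771032)) (l 296520509175)) (c (l 16774400) (l 16769040)))) (b (c (b (c (a (b (l 355576310423) (l 418927086551)) (b (l 16776976) (l 331953989639))) (a (l 382956722631) (l 327122158967))) (c (l 414095241335) (l 419463946327))) (b (c (l 6617659936714210701877297359) (l 398525992199)) (l 423758927623))) (l 3)))))) (l 3))), by decide +kernel⟩

def k24_pp_123 : ∃ t, chk3 f_pp_123 t 35 18 1 = true :=
  ⟨(a (b (l 16705752) (a (b (l 16713248) (a (l 16700672) (l 16716680))) (l 16709792))) (c (l 16703544) (l 16713176))), by decide +kernel⟩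

def k25_pp_123 : ∃ t, chk3 f_pp_123 t 70 38 1 = true :=
  ⟨(a (b (a (l 16712496) (l 16726888)) (a (c (b (l 16755280) (l 16741624)) (l 16754032)) (b (l 16736016) (l 16742200)))) (b (a (l 16699672) (l 16715760)) (b (l 16705400) (l 16711448)))), by decide +kernel⟩

def k26_pp_123 : ∃ t, chk3 f_pp_123 t 140 78 1 = true :=
  ⟨(a (b (c (a (c (l 16758880) (l 16754168)) (l 16746808)) (c (l 16769128) (l 16765320))) (a (a (b (b (c (c (l 16775608) (l 16780528)) (l 16767216)) (c (c (a (b (l 308331669127) (l 370071822679)) (l 16771752)) (a (l 350744478151) (l 16771296))) (c (l 345912650327) (l 354502591607)))) (a (l 3) (b (c (b (a (l 375977407511) (l 320679701383)) (l 414632113991)) (l 382419875047)) (l 3)))) (b (c (c (l 16763640) (l 16779384)) (l 16766624)) (b (c (a (b (l 16769176) (c (l 326585281127) (l 336248967319))) (l 16768520)) (c (l 324437813511) (l 334101497063))) (c (c (a (l 403357820599) (b (l 302962960279) (l 365239990343))) (a (l 409263399527) (l 346986382791))) (c (l 7110901671116969646994571471) (l 431275127783))))))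 (b (c (l 16752408) (l 16764736)) (c (a (b (l 16756352) (c (l 16771432) (l 16771296))) (l 16755056)) (a (c (l 16775808) (l 16769392)) (l 16766824)))))) (a (b (l 16750192) (c (l 16749840) (l 16763608))) (b (l 16746808) (l 16747936)))), by decide +kernel⟩

def k27_pp_123 : ∃ t, chk3 f_pp_123 t 280 79 1 = true :=
  ⟨(b (b (b (a (c (a (l 3) (l 433959468791)) (l 455971181655)) (c (b (a (a (a (l 6869116507194176234467147983) (l 313163508775)) (l 16769584)) (l 16757416)) (a (a (l 409263405751) (c (l 320679701415) (l 330343387991))) (l 16768848))) (a (c (a (l 331954008519) (l 328732783687)) (l 6666016969498712099829039183)) (l 16768880)))) (a (l 3) (a (a (l 3) (c (b (c (l 384567338855) (l 391546659959)) (l 3)) (l 417853348791))) (c (c (a (b (l 16774408) (c (l 351281344887) (l 356650064119))) (l 16767128)) (a (l 6240475080994523090298241231) (l 16761840))) (c (l 339470201975) (l 6279160707222028290021982287)))))) (b (a (l 3) (a (l 3) (c (a (l 430201362327) (c (b (c (l 335175217447) (l 339470189783)) (l 403357821671))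 (l 372219320679))) (c (l 7420386680938304339081297999) (a (l 500531463879) (l 445770631751)))))) (l 3))) (l 3)), by decide +kernel⟩

def k28_pp_123 : ∃ t, chk3 f_pp_123 t 281 158 1 = true :=
  ⟨(a (b (c (c (l 16765664) (l 16758464)) (a (l 16768312) (l 16767072))) (c (a (a (b (b (l 16770016) (c (l 313163508999) (l 322827196007))) (b (c (c (l 377051154807) (l 381882998007)) (l 385641081063)) (l 3))) (b (l 16769368) (b (c (l 16773440) (l 16773432)) (c (c (l 6337189146563824815906799887) (l 348597001287)) (l 352891955367))))) (b (l 16757216) (c (l 16772104) (l 16772384)))) (c (a (b (l 316921623079) (a (l 358260688727) (l 349670752263))) (l 16777328)) (a (b (l 326585303751) (a (l 471540434999) (l 396915389623))) (l 16769256))))) (c (c (l 16760160) (l 16756272)) (b (l 16765240) (l 16767984)))), by decide +kernel⟩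

def k29_pp_123 : ∃ t, chk3 f_pp_123 t 281 159 1 = true :=
  ⟨(a (b (b (c (a (c (l 428590756471) (l 432348852679)) (c (a (b (c (l 326585283415) (l 331417126775)) (l 395841629703)) (c (l 293836154887) (l 299204869639))) (a (b (l 338396453751) (l 402820951479)) (l 307257938519)))) (a (l 455434317031) (c (a (l 7014187605547784813212500047) (l 317458497639)) (a (l 7188272923572212868006641807) (l 327122174695))))) (b (a (l 3) (c (c (a (l 3) (c (l 369534957479) (l 374903677047))) (l 400673481463)) (c (l 7575129185848967733755740239) (l 435570083639)))) (l 3))) (l 3)) (a (b (b (c (c (l 16766424) (l 16761696)) (l 16770672)) (a (b (c (c (l 16773808) (l 16774016)) (l 16781512)) (c (c (a (l 373829922423) (l 309405414983)) (l 344302032471)) (a (l 406579069223) (l 333564625063)))) (c (c (l 16767840) (l 16762984)) (l 16781880)))) (b (c (c (a (l 420537693111) (a (b (l 337859574359) (l 435033217975)) (b (l 16779544) (l 368461218951)))) (a (l 425369531575) (b (l 330343390951) (l 394767889047)))) (c (a (l 401747222519) (b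 (l 338933337127) (l 362555645511))) (a (l 457044919655) (b (l 354502576711) (l 429664503671))))) (l 3))) (c (a (b (l 16768568) (b (c (c (l 286856833687) (l 292225548503)) (l 300278617863)) (b (c (c (a (l 397989122279) (l 328732769191)) (l 356113190823)) (l 359871290247)) (l 430201375447)))) (b (l 16756984) (b (l 16770328) (b (c (l 16768952) (l 16764136)) (c (c (a (l 360945023911) (l 16776144)) (l 337859579799)) (l 334638359927)))))) (b (l 16770136) (b (c (l 307257949591) (a (l 321216594119) (l 16768736))) (a (b (c (l 6782073848181766184787312719) (l 389936056343)) (l 471003568759)) (c (b (l 16769992) (l 352891982455)) (c (l 350207612167) (l 351281348375))))))))), by decide +kernel⟩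

def k30_pp_123 : ∃ t, chk3 f_pp_123 t 141 39 1 = true :=
  ⟨(b (c (a (l 16735288) (l 16747872)) (l 16731744)) (a (b (c (l 16746416) (l 16763016)) (a (b (c (l 16754240) (l 16768320)) (c (a (b (l 16758184) (c (l 16772872) (l 16773592))) (l 16756944)) (a (c (l 16778984) (l 16779520)) (l 16770504)))) (c (l 16751776) (l 16767320)))) (c (b (l 16758864) (l 16745344)) (l 16761088)))), by decide +kernel⟩

def k31_pp_123 : ∃ t, chk3 f_pp_123 t 71 19 1 = true :=
  ⟨(b (a (b (l 16710840) (l 16676104)) (l 16707984)) (a (b (l 16687224) (c (l 16708216) (l 16754544))) (b (l 16676360) (l 16708704)))), by decide +kernel⟩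

def k32_pp_123 : ∃ t, chk3 f_pp_123 t 16 10 1 = true :=
  ⟨(l 3), by decide +kernel⟩

def k33_pp_123 : ∃ t, chk3 f_pp_123 t 34 10 1 = true :=
  ⟨(l 3), by decide +kernel⟩

def k34_pp_123 : ∃ t, chk3 f_pp_123 t 140 40 1 = true :=
  ⟨(b (a (l 3) (b (a (l 3) (a (l 3) (a (l 3) (b (b (b (c (c (c (l 404968439575) (l 409263417591)) (l 411410888615)) (c (l 389936063607) (l 444160017895))) (l 3)) (l 3)) (l 3))))) (l 3))) (l 3)), by decide +kernel⟩

def k35_pp_123 : ∃ t, chk3 f_pp_123 t 564 160 1 = true :=
  ⟨(b (a (b (c (c (c (a (b (a (l 322290318535) (l 16778544)) (a (l 422148314279) (l 354502573367))) (l 278803770391)) (a (b (l 312626646439) (l 383493608471)) (l 16775736))) (a (b (l 320142844551) (l 386177968887)) (l 292762425703))) (c (a (b (l 329806533335) (l 7343015428482947799660429391)) (l 303499856663)) (b (c (l 331954001463) (l 330343394103)) (a (c (l 419463958871) (l 421611436951)) (l 316921616695))))) (a (l 3) (b (c (c (c (a (l 374366797943) (l 304036707719)) (a (l 378124905079) (l 311016035303))) (c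 (l 350207617559) (l 353428843527))) (c (c (l 353965709751) (l 389399204215)) (c (l 377588038631) (a (l 406579051607) (l 348596997479))))) (c (c (l 411410889687) (l 415705857351)) (c (l 410337159431) (l 438254438327)))))) (b (c (c (l 16767232) (l 16762936)) (l 16771928)) (c (c (a (b (l 16774696) (c (a (l 329806512935) (l 16779528)) (l 315847873591))) (l 16768864)) (a (b (l 16775280) (c (l 322827201127) (l 329269658023))) (l 16764280))) (c (a (c (l 5824604599047000356823597135) (l 327659056167)) (l 16770376)) (a (b (l 16768184) (c (l 349670741447) (l 354502568839))) (l 16768592)))))) (a (l 3) (a (b (b (c (c (c (l 384030476215) (l 387788583063)) (l 389936064215)) (c (l 7284986989141442713058082959) (c (l 413558379799) (l 413021517159)))) (l 3)) (l 3)) (b (b (c (c (b (l 16770440) (l 293299291063)) (l 301352364167)) (c (l 315847890983) (c (l 325511568215) (l 330880250023)))) (c (a (b (l 385104220967) (l 3)) (c (l 326048418375) (l 338933330647))) (c (c (l 368461225319) (l 399599741911)) (c (l 391009802231) (a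 (l 423758931671) (l 366850613911)))))) (c (b (l 426443272167) (l 3)) (c (l 428053900631) (l 447381242647))))))), by decide +kernel⟩

def k36_pp_123 : ∃ t, chk3 f_pp_123 t 565 160 1 = true :=
  ⟨(b (c (a (b (l 16757624) (l 16770152)) (l 16756464)) (c (l 16767848) (l 16769584))) (c (a (a (b (c (l 16775416) (l 16775680)) (b (a (c (l 359334412823) (l 366313734199)) (b (l 16774016) (l 308331678855))) (c (l 400136603511) (l 404968440903)))) (b (l 16771808) (b (l 16776096) (c (b (l 16771816) (l 324437807159)) (l 315311010279))))) (b (l 16759680) (c (l 16769680) (l 16764648)))) (c (a (b (a (l 16781360) (l 16770144)) (a (b (c (l 343765163255) (l 348060134999)) (l 394231032631)) (b (l 16771064) (l 329269664855)))) (l 16769664)) (a (b (c (l 16770584) (l 16780800)) (a (a (c (l 413021510071) (l 413021508135)) (b (l 329806501047) (l 415169005079))) (b (l 16786416) (c (l 338396463559) (l 343228270807))))) (l 16785312))))), by decide +kernel⟩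

def k37_pp_123 : ∃ t, chk3 f_pp_123 t 282 161 1 = true :=
  ⟨(b (a (l 3) (a (a (l 3) (b (b (c (c (l 372756192647) (l 378661766359)) (c (l 7101230264560017635394977935) (c (l 403894705463) (l 403894696855)))) (l 3)) (l 3))) (b (c (c (a (b (l 16777440) (c (l 344838908599) (l 349133880407))) (l 16771624)) (a (b (l 16777040) (l 352891973191)) (l 16766064))) (c (a (b (l 305110473607) (c (l 357723807943) (l 373829939655))) (l 16771144)) (a (b (c (l 16769872) (l 320679688343)) (c (l 375977435687) (l 380809222487))) (l 16781656)))) (c (b (a (l 414632114599) (c (l 315847874215) (l 330880269143))) (c (l 401210348983) (l 405505324695))) (c (a (l 414632128423) (b (c (l 339470213879) (l 346449540391)) (l 7333344021926024237916717071))) (a (l 440401905751) (b (c (l 352355111239) (l 356650048311)) (c (l 412484651239) (l 416779588327))))))))) (l 3)), by decide +kernel⟩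

def k38_pp_123 : ∃ t, chk3 f_pp_123 t 283 80 1 = true :=
  ⟨(b (c (b (l 16751080) (c (l 16759792) (l 16758888))) (a (b (l 16769040) (l 16770944)) (l 16767672))) (a (a (b (b (c (l 16772432) (l 16772848)) (a (c (c (l 280951262439) (l 295983657655)) (b (l 16772872) (c (l 318532247831) (c (l 327122159031) (l 332490838103))))) (c (l 16774128) (l 16771480)))) (a (b (b (c (c (l 359871288663) (l 366850608167)) (c (l 6898130726864758284778176527) (c (l 388862326823) (l 393694135031)))) (l 3)) (l 3)) (b (c (b (l 271287589095) (c (l 341080810391) (l 349670753527))) (c (c (l 319069102535) (l 340007084839)) (b (l 16754928) (c (l 365240002455) (l 370608681767))))) (b (c (l 402284096711) (c (l 386714841175) (l 427517011207))) (l 3))))) (b (c (l 16771376) (l 16770984)) (b (c (c (l 16772552) (l 16766496)) (c (l 16771064) (l 16773888))) (c (c (a (b (l 304036717799) (l 373829945671)) (l 16779784)) (a (b (l 317995369815) (l 380272382775)) (l 16783664))) (c (a (b (l 331417145895) (l 7120573077673847579014987791)) (l 301352370743))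 (a (b (c (l 339470180055) (l 344301988311)) (c (l 401747218103) (l 406042155799))) (b (l 16771808) (l 316921568455)))))))) (c (b (l 16757664) (c (l 16770248) (l 16775056))) (b (l 16767920) (c (l 16769536) (a (l 16770904) (l 16769048))))))), by decide +kernel⟩

def k39_pp_123 : ∃ t, chk3 f_pp_123 t 141 81 1 = true :=
  ⟨(a (l 3) (b (b (b (a (a (l 3) (a (l 3) (c (b (c (l 353965715831) (l 362555657911)) (l 415705861335)) (c (c (l 379198646903) (l 392620436647)) (b (c (l 377588022887) (l 382419831703)) (l 439865031831)))))) (c (a (a (b (l 16777088) (c (l 317458494199) (l 330880274231))) (l 16776576)) (l 16764472)) (a (b (c (l 16771776) (l 16768248)) (a (c (l 343228295607) (c (l 353428827703) (l 356650023975))) (l 16781240))) (l 16780336)))) (a (l 3) (c (a (c (a (l 397452248551) (b (l 16781944) (l 366850621655))) (a (l 402820963559) (b (l 305110470551) (l 366850612023)))) (c (l 16775584) (l 16768440))) (b (a (c (a (l 7352686835039853837927284751) (l 317995357975)) (a (l 416242686679) (c (l 326585263591) (l 331953943703))))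 (l 16778688)) (a (a (l 3) (c (l 6907802133421670713947455503) (c (l 389936043447) (l 394767852679)))) (c (l 16770984) (a (l 16763648) (l 16762760)))))))) (a (l 3) (a (l 3) (b (c (c (a (l 357186941719) (l 290614949751)) (a (b (l 348597016919) (l 406579082167)) (l 305110470903))) (c (a (b (l 357186935895) (l 419463980423)) (b (l 16790320) (l 329806508535))) (a (b (c (l 365239977415) (l 370608657767)) (l 428053857559)) (c (l 326048382839) (l 331417063335))))) (a (l 3) (b (c (c (l 372219339383) (l 379198644919)) (c (l 394231043255) (c (l 401747193207) (l 406042131959)))) (l 3))))))) (l 3))), by decide +kernel⟩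

def k40_pp_123 : ∃ t, chk3 f_pp_123 t 70 41 1 = true :=
  ⟨(l 3), by decide +kernel⟩

def k41_pp_123 : ∃ t, chk3 f_pp_123 t 142 80 1 = true :=
  ⟨(c (a (b (l 16744760) (a (l 16755624) (l 16751408))) (l 16719848)) (a (b (l 16764304) (a (l 16761904) (l 16779224))) (l 16757200))), by decide +kernel⟩

def k42_pp_123 : ∃ t, chk3 f_pp_123 t 284 81 1 = true :=
  ⟨(b (b (c (c (l 16768328) (l 16762728)) (c (l 16767768) (l 16760480))) (a (c (a (b (l 16777384) (a (b (l 284709372839) (a (l 391009817847) (l 319605985143))) (l 16779160))) (l 16776392)) (b (c (l 16787312) (l 16758984)) (a (c (a (b (l 304036699847) (l 368998106119)) (l 16785512)) (a (b (l 315310932519) (c (l 377051127255) (l 381882937127))) (l 16757256))) (l 16770040)))) (c (l 16762720) (l 16768520)))) (a (a (b (b (c (a (l 415705867399) (b (c (l 316921631191) (l 330343408711)) (l 385641106551))) (c (a (l 433959483111) (b (l 340543916023) (l 406042192567))) (a (l 441475619239) (b (c (l 348596951191) (l 354502516839)) (l 415168941783))))) (l 3)) (l 3)) (b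 (b (c (c (l 273971952855) (l 288467473159)) (a (b (l 16768816) (c (l 315310978967) (l 326048341223))) (l 16767376))) (c (c (a (l 373293064823) (l 308331697255)) (a (l 380272389655) (l 322290345479))) (a (b (c (l 380809255495) (c (l 388325406311) (l 393157216615))) (l 3)) (b (c (l 16779632) (l 16751816)) (c (l 356113162503) (c (l 363092469559) (l 368461150967))))))) (a (l 3) (b (b (c (l 397989129639) (c (l 417316471079) (l 425906350199))) (l 3)) (l 3))))) (b (b (c (l 16766184) (l 16765232)) (c (c (l 16767432) (l 16769616)) (a (c (l 16777696) (l 16750080)) (l 16762192)))) (c (a (b (c (a (l 336248988135) (l 16770728)) (a (b (l 315847894999) (l 374903681911)) (l 16772056))) (a (l 3) (c (l 358797554119) (l 367387490119)))) (b (l 16769800) (c (l 285783120951) (a (l 310479175911) (l 16793136))))) (a (a (b (b (c (l 325511516391) (l 336248879463)) (c (l 392083534071) (l 401210284487))) (l 3)) (b (c (l 295446741719) (b (l 16748064) (l 311015945639))) (c (b (l 365776855287) (l 428590749719)) (c (l 394767842359) (l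 399599653303))))) (b (l 16749488) (b (c (l 16771920) (l 16744752)) (a (c (l 336248924183) (l 345912547079)) (l 16756784))))))))), by decide +kernel⟩

def k43_pp_123 : ∃ t, chk3 f_pp_123 t 285 81 1 = true :=
  ⟨(c (b (l 16754152) (a (c (l 16764072) (l 16766848)) (l 16761272))) (b (l 16765736) (a (c (l 16772192) (b (l 16747368) (l 16743104))) (l 16755608)))), by decide +kernel⟩

def k44_pp_123 : ∃ t, chk3 f_pp_123 t 143 40 1 = true :=
  ⟨(b (c (l 16707936) (l 16748000)) (c (c (l 16732304) (l 16750320)) (a (l 16755520) (l 16750240)))), by decide +kernel⟩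

def k45_pp_123 : ∃ t, chk3 f_pp_123 t 284 82 1 = true :=
  ⟨(b (a (l 3) (a (l 3) (b (b (a (b (c (l 380272392759) (c (l 402820941863) (l 411947693111))) (l 3)) (c (c (l 325511574839) (b (l 16773648) (l 366850614855))) (b (c (l 309942246119) (l 321216483911)) (c (l 376514263143) (l 386714756583))))) (l 3)) (l 3)))) (l 3)), by decide +kernel⟩

def k46_pp_123 : ∃ t, chk3 f_pp_123 t 285 82 1 = true :=
  ⟨(b (a (a (b (b (c (c (l 16772072) (l 16772752)) (c (l 16767344) (a (l 16740928) (l 16740216)))) (c (a (c (l 356650091255) (l 365776872775)) (c (l 16795200) (l 298131129399))) (a (b (c (l 351281299895) (l 361481820087)) (c (l 413021478871) (l 422148230951))) (b (l 16751856) (c (l 319605912599) (l 330343280487)))))) (a (l 3) (b (b (c (c (l 367924383287) (l 376514306503)) (c (l 386714800199) (l 396378423575))) (l 3)) (l 3)))) (b (c (c (l 16771096) (l 16770408)) (c (l 16764552) (l 16738088))) (b (c (c (l 297057417863) (a (l 324437798087) (l 16787288))) (b (c (l 16761688) (l 301352256839)) (a (c (l 360408121575)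 (l 371145487143)) (l 16736512)))) (c (a (l 429664520935) (c (l 343228321047) (l 353428826615))) (c (a (l 427516982151) (b (l 329269579207) (l 396915337383))) (a (l 436106864199) (b (l 340006947783) (l 406042090695)))))))) (b (c (l 16768344) (l 16749064)) (a (b (c (l 16772984) (l 16746464)) (c (c (l 16775720) (l 280414375335)) (a (c (l 295983579287) (l 308331569431)) (l 16743872)))) (c (l 16793064) (l 16743928))))) (a (l 3) (a (b (b (c (c (a (l 461339924519) (l 300815516263)) (a (l 379735515687) (l 311016010615))) (a (b (c (l 370071787911) (l 380272283431)) (l 437180602695)) (b (c (l 16755128) (l 16729360)) (c (l 338396375015) (l 348596873223))))) (c (c (l 415169002999) (l 413021506631)) (c (l 422148259879) (a (l 3) (l 424295691447))))) (l 3)) (b (b (c (l 16771608) (c (l 16753416) (l 16727880))) (c (c (a (l 329269667415) (l 16776576)) (a (l 336785808167) (l 16776560))) (c (a (b (l 311015955015) (l 379198583447)) (l 16750752)) (a (b (l 322827069607) (l 389399079831)) (l 16725392))))) (a (l 3) (b (c (c (l 371145588151)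 (l 366313728023)) (b (c (l 352355009159) (l 363629249559)) (c (l 415168928471) (l 424295683527)))) (l 3))))))), by decide +kernel⟩

def k47_pp_123 : ∃ t, chk3 f_pp_123 t 142 83 1 = true :=
  ⟨(l 3), by decide +kernel⟩

def k48_pp_123 : ∃ t, chk3 f_pp_123 t 143 82 1 = true :=
  ⟨(a (b (c (a (l 16766576) (l 16762480)) (a (l 16744064) (l 16741440))) (a (b (c (c (l 16795112) (l 16775728)) (c (l 16750080) (l 16725000))) (c (c (a (b (l 277730052055) (a (l 393694185639) (l 313163525095))) (l 16774936)) (a (b (l 288467418375) (a (l 392620396231) (l 322827150407))) (l 16770080))) (a (b (a (c (l 307794720199) (b (l 16723160) (l 330880124007))) (l 16734456)) (c (a (l 402284021687) (b (l 16745288) (l 360944934631))) (a (l 411947648087) (b (l 16720400) (l 371145456535))))) (c (l 16734320) (b (l 16721192) (l 16719016)))))) (c (b (l 16785448) (l 16780496)) (b (l 16734928) (l 16741024))))) (c (b (l 16756464) (l 16757256)) (b (l 16737768) (l 16729224)))), by decide +kernel⟩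

def k49_pp_123 : ∃ t, chk3 f_pp_123 t 286 83 1 = true :=
  ⟨(b (a (b (a (b (c (c (l 420537729079) (l 421611419895)) (c (l 430738174711) (l 438791188711))) (l 3)) (b (c (c (a (l 342154547399) (l 16791576)) (a (l 350744456951) (l 16766040))) (c (c (l 336248903831) (l 338933233575)) (a (b (l 339470049431) (l 406042060327)) (l 306720929479)))) (a (l 3) (c (c (l 368461241463) (l 378661737959)) (c (l 388862235495) (l 398525842215)))))) (l 3)) (b (c (a (b (l 16777536) (a (c (l 298131124311) (l 308331621991)) (l 16774624))) (l 16774704)) (a (b (l 16727816) (c (a (l 318532119767) (l 16737400)) (c (l 315847740679) (l 322290176951)))) (b (l 16726632) (l 16724416)))) (a (b (c (c (a (l 395304780263) (l 324974663751)) (a (l 404431535351) (l 334101419383))) (c (c (l 372219242823) (l 377051056711)) (a (l 422685048807) (b (l 320142687639) (l 386714695591))))) (l 3)) (b (c (c (l 16783512) (l 16758520)) (c (l 16734144) (l 16710408))) (c (c (a (l 352891969607) (l 16780504)) (a (l 363629338103) (l 292762351303))) (c (a (l 373829815863)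 (l 304036592775)) (a (b (l 359871125591) (l 421611299511)) (l 316384587447)))))))) (a (l 3) (a (l 3) (b (b (c (c (l 391009798535) (l 400673425495)) (c (l 410337053639) (a (l 3) (l 408726393383)))) (l 3)) (l 3))))), by decide +kernel⟩

def k50_pp_123 : ∃ t, chk3 f_pp_123 t 287 83 1 = true :=
  ⟨(a (b (c (b (l 16772392) (c (l 16779864) (l 16755136))) (b (l 16723824) (a (c (l 16731752) (l 16708360)) (l 16718888)))) (a (b (b (c (c (l 292225523719) (a (l 318532149431) (l 16751848))) (c (a (l 328732649239) (l 16728032)) (c (l 322290174855) (l 328732609287)))) (c (a (l 410337119127) (c (l 336785802791) (l 344301946935))) (c (a (l 424295690919) (l 355576192007)) (c (l 388862175335) (l 394230861671))))) (l 3)) (b (b (c (l 16762904) (l 16715584)) (c (c (l 16772568) (l 16748376)) (c (l 284172357463) (l 298130973911)))) (b (c (c (a (l 363092494999) (l 292225508759)) (a (l 373292994183) (l 302426008807))) (c (a (l 383493494647) (l 313163380759)) (a (l 393693996439) (l 325511374679)))) (c (c (l 397452227543) (l 407115856135))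 (c (l 416242615127) (l 425369375479))))))) (c (b (l 16766928) (b (l 16749000) (a (b (l 16756432) (c (l 299741695399) (a (l 327658935783) (l 16741832)))) (b (l 16755032) (l 16752528))))) (b (l 16719488) (b (a (l 16713456) (l 16712464)) (a (a (b (l 16710400) (c (l 337859437351) (l 349133685063))) (c (l 16720024) (l 16697768))) (b (l 16709184) (l 16706992))))))), by decide +kernel⟩

def k51_pp_123 : ∃ t, chk3 f_pp_123 t 35 21 1 = true :=
  ⟨(a (l 3) (b (a (l 3) (b (a (l 3) (b (a (l 3) (b (a (b (c (c (l 367387448119) (a (l 424832589319) (l 356649982119))) (c (a (l 433959348967) (l 367387354791)) (a (l 442012368183) (l 374903503383)))) (l 3)) (b (c (c (l 16761768) (l 278266804551)) (c (l 289541049383) (l 302962793783))) (c (c (a (l 372219278855) (l 300815422775)) (a (l 381882908839) (l 310479053287))) (c (a (l 392083411111) (l 321216427719)) (a (l 402283914807) (l 333027548727)))))) (b (c (c (l 407652754855) (l 416779513991)) (c (l 426443145431) (l 435033015543))) (l 3)))) (l 3))) (l 3))) (l 3))), by decide +kernel⟩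

def k52_pp_123 : ∃ t, chk3 f_pp_123 t 8 11 1 = true :=
  ⟨(l 3), by decide +kernel⟩

def k53_pp_123 : ∃ t, chk3 f_pp_123 t 9 4 1 = true :=
  ⟨(a (b (a (b (l 16674808) (l 16688528)) (b (l 16645944) (l 16662632))) (b (a (c (l 16684152) (l 16719616)) (l 16679016)) (a (a (b (l 16720920) (a (b (l 16732056) (l 16698368)) (l 16688112))) (c (l 16694664) (l 16737624))) (c (l 16678280) (l 16723840))))) (b (c (l 16491224) (l 16635200)) (b (a (l 16658384) (l 16639640)) (c (l 16584248) (l 16695656))))), by decide +kernel⟩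

def k54_pp_123 : ∃ t, chk3 f_pp_123 t 36 20 1 = true :=
  ⟨(a (b (b (a (l 16688736) (l 16679008)) (a (a (l 16724416) (l 16718856)) (l 16711000))) (a (b (c (b (l 16744856) (l 16748376)) (l 16727152)) (c (a (b (l 16762632) (c (l 16764736) (l 16741224))) (l 16752376)) (a (b (l 16716528) (c (l 16718776) (l 16697392))) (l 16708744)))) (b (l 16719856) (c (l 16744864) (l 16704304))))) (b (b (l 16690840) (b (l 16696704) (l 16678408))) (a (b (l 16733008) (l 16716592)) (b (l 16726352) (l 16710544))))), by decide +kernel⟩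

def k55_pp_123 : ∃ t, chk3 f_pp_123 t 144 84 1 = true :=
  ⟨(a (b (a (b (c (a (c (l 16759048) (l 16735936)) (l 16746072)) (a (c (l 16713624) (l 16692136)) (l 16701904))) (b (c (a (c (a (l 328195832967) (l 16754760)) (a (l 336248851623) (l 16732000))) (l 16742312)) (a (c (a (l 348059989703) (l 16709992)) (a (l 358797365175) (l 16688760))) (l 16698640))) (c (a (c (l 372756135751) (l 382419766887)) (c (l 273971863111) (l 284172366215))) (a (a (l 3) (c (l 375440400679) (l 385640905799))) (c (l 295446612999) (a (l 317458283895) (l 16685952))))))) (c (c (l 16753032) (l 16730464)) (c (l 16708880) (b (l 16690416) (l 16686208))))) (b (a (a (l 3) (c (a (c (l 393694091415) (l 402283981527)) (b (c (l 309942207639) (l 319068969735)) (l 410337063431))) (b (c (a (l 400136457127) (l 329806345399)) (a (l 409800091895) (l 341080594183))) (c (l 426979997719) (l 435569891079))))) (c (a (a (b (l 16736320) (c (l 335712005159) (l 346986251143))) (c (l 16745496) (l 270750581239))) (b (l 16734760) (l 16732256))) (a (b (c (l 16703792)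 (l 16683352)) (c (a (l 356113035943) (l 16701320)) (a (l 366850413399) (l 16681080)))) (b (l 16692688) (l 16690528))))) (a (l 3) (a (b (c (c (l 378661694551) (l 386714714855)) (c (l 396915220279) (a (l 3) (l 392620212343)))) (l 3)) (b (c (c (l 279340552119) (l 289541057335)) (a (c (l 312626465287) (l 324974458487)) (l 16688176))) (c (c (a (l 388325363703) (l 317458380663)) (a (l 396378384727) (l 326585144231))) (c (a (l 406042019959) (l 336785651143)) (a (l 415705656759) (l 348596773191))))))))) (a (b (c (l 16739112) (l 16696896)) (b (c (l 16731688) (l 16690496)) (c (a (c (l 16737992) (l 16716776)) (l 16726104)) (a (b (l 16687632) (c (l 16695304) (l 16675888))) (l 16685864))))) (c (b (l 16736672) (l 16747816)) (c (l 16700832) (l 16681800))))), by decide +kernel⟩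

def k56_pp_123 : ∃ t, chk3 f_pp_123 t 144 85 1 = true :=
  ⟨(a (b (a (l 3) (a (l 3) (b (b (c (l 417853215767) (c (l 430738076967) (l 439327972391))) (l 3)) (l 3)))) (l 3)) (b (b (c (b (a (a (c (a (l 342691306999) (l 16733720)) (a (l 352891813159) (l 16712904))) (l 16722352)) (l 16720648)) (a (a (c (l 382956640871) (l 391009663191)) (c (l 282561758023) (l 294909748487))) (l 16718144))) (c (a (a (b (a (l 363629211735) (l 294909714503)) (l 400673299751)) (c (l 293835986967) (l 299741547991))) (l 16689936)) (a (a (b (a (l 374366591239) (l 307794581239)) (l 410336937895)) (c (l 306720854711) (l 313163291479))) (l 16671552)))) (a (a (l 3) (b (c (c (a (l 394767793767) (l 323900811463)) (a (l 402820816855) (l 333564448183))) (c (a (l 411410712343) (l 344838699479)) (a (l 421074351223) (l 356112952375)))) (l 3))) (c (b (c (l 16725744) (l 16705760)) (a (c (a (l 350744371223) (l 16723376)) (a (l 357723634039) (l 289541027207))) (l 16712592))) (c (a (b (l 16687040) (a (l 368997904311) (l 300815279399))) (l 16685176))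 (a (b (l 16668672) (a (l 379735285927) (l 313700145623))) (l 16667216)))))) (a (l 3) (b (a (b (c (c (l 387251587415) (l 394767740983)) (c (l 403894508775) (l 413558149047))) (l 3)) (a (b (c (c (l 301352220007) (l 314237083703)) (c (l 324974465447) (l 337322461543))) (b (c (l 394767718935) (l 415168754631)) (l 3))) (c (b (l 16709808) (c (l 329269500983) (l 338396269319))) (b (b (l 16673288) (l 16672232)) (c (l 348596780631) (l 361481665463)))))) (l 3))))), by decide +kernel⟩

def k57_pp_123 : ∃ t, chk3 f_pp_123 t 145 42 1 = true :=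
  ⟨(b (b (c (l 16730848) (l 16692144)) (a (c (l 16723448) (l 16685080)) (l 16700136))) (a (a (b (c (b (l 16717192) (l 16712232)) (b (l 16679416) (l 16675216))) (b (c (a (c (l 251960099959) (b (l 16699512) (l 16697136))) (l 16706720)) (a (b (l 16672344) (c (l 16678992) (l 292225306615))) (l 16670752))) (c (a (b (c (a (l 355576188903) (l 279877370167)) (a (l 364166086023) (l 292225364535))) (c (l 390472792343) (l 397988948215))) (a (b (l 16703224) (c (l 304036555287) (l 315847679623))) (c (l 16710728) (l 16692392)))) (a (b (c (a (l 373829726439) (l 305110231335)) (a (l 384567110215) (l 317458229159))) (c (l 407115718231) (l 416779360695))) (a (b (l 16667744) (c (l 329269418007) (l 341080545223))) (c (l 16674880) (l 16658232))))))) (b (c (l 16712584) (l 16676208)) (c (b (l 16705184) (c (l 16709400) (l 16691256))) (b (l 16669992) (c (l 16674072) (l 16657872)))))) (b (c (l 16709504) (l 16674712)) (c (a (l 16700712) (l 16698792)) (a (l 16666984) (l 16666136)))))), by decide +kernel⟩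

def k58_pp_123 : ∃ t, chk3 f_pp_123 t 144 43 1 = true :=
  ⟨(l 3), by decide +kernel⟩

def k59_pp_123 : ∃ t, chk3 f_pp_123 t 290 86 1 = true :=
  ⟨(b (a (a (l 3) (b (b (c (c (a (l 404431429063) (l 333564449047)) (a (l 411947585767) (l 342691219543))) (c (a (l 420537485703) (l 353965492007)) (c (l 385103980295) (l 390472673303)))) (l 3)) (l 3))) (a (b (b (c (c (l 16705936) (l 16688160)) (c (l 280414167607) (l 293299031239))) (c (c (a (l 359334264951) (l 282024844359)) (a (l 367924164455) (l 294372834887))) (c (a (l 377587807159) (l 306720830135)) (a (l 387788322279) (l 319605700615))))) (b (c (c (l 392083384743) (l 399599543031)) (c (l 408726315399) (l 418389960119))) (l 3))) (b (c (c (l 16703568) (l 16686096)) (c (l 16669464) (l 16653720))) (b (c (c (a (l 305647158615) (l 16699312)) (a (l 317995148103) (l 16682344))) (c (a (l 331416887175) (l 16666104)) (c (l 321753194887) (l 328195630935)))) (c (c (a (l 406042021543) (l 336248795719)) (a (l 413021309799) (l 343764945463))) (c (a (l 421611212103) (l 354502347575))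 (c (l 384567095719) (l 389398918951)))))))) (l 3)), by decide +kernel⟩

def k60_pp_123 : ∃ t, chk3 f_pp_123 t 291 86 1 = true :=
  ⟨(b (b (c (c (l 16701032) (l 16683976)) (c (l 16668008) (l 16653168))) (c (a (c (c (l 247665117399) (l 253570680407)) (c (l 260013114743) (l 266992420391))) (l 16686504)) (a (a (b (l 16657976) (c (l 282024771239) (l 294372760759))) (a (l 16656656) (l 16656472))) (l 16656016)))) (b (a (a (b (c (c (a (l 359871115735) (l 283098585783)) (a (l 367387275911) (l 295983443751))) (c (a (l 376514050119) (l 308331430663)) (a (l 387251438439) (l 319605688919)))) (a (l 3) (c (c (l 381345945879) (l 388325235943)) (c (l 398525752695) (l 409800012615))))) (c (b (c (l 16692248) (l 16676192)) (c (a (b (l 16690488) (l 331416960711)) (l 16689344)) (c (l 297057195367) (l 304036498679)))) (b (c (l 16660872) (l 16646352)) (c (b (l 16659288) (l 324437554375)) (c (l 317995085911) (l 323900652263)))))) (c (c (a (l 16689960) (l 16689016)) (l 16673832)) (c (l 16659040) (l 16645144)))) (a (a (l 3) (b (c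 (a (l 404431373607) (c (l 321753283751) (l 327658821367))) (c (a (l 421611197111) (l 335711850743)) (a (l 432348586519) (l 343764885863)))) (l 3))) (c (c (a (b (l 248201968039) (a (l 352354904807) (l 275045508103))) (l 16684304)) (a (b (l 16670872) (a (l 364702904919) (l 282024798823))) (l 16669080))) (c (a (b (l 16656136) (a (l 377050906215) (l 288467215943))) (l 16654592)) (a (b (l 16642120) (a (l 389398908823) (l 293835880119))) (l 16640896))))))), by decide +kernel⟩

def k61_pp_123 : ∃ t, chk3 f_pp_123 t 145 87 1 = true :=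
  ⟨(a (l 3) (b (a (l 3) (b (a (c (c (l 389935861831) (l 401746991127)) (c (l 413558121559) (l 425369253271))) (b (c (a (c (l 297057210535) (l 302962759511)) (l 16694256)) (c (l 291151570007) (l 297593987991))) (c (c (a (l 397988922055) (l 319068912503)) (l 364166023863)) (c (l 376514025703) (l 389398899719))))) (l 3))) (l 3))), by decide +kernel⟩

def k62_pp_123 : ∃ t, chk3 f_pp_123 t 73 21 1 = true :=
  ⟨(a (b (b (b (l 16704032) (l 16695528)) (c (a (l 16700768) (l 16697136)) (a (l 16668952) (l 16667584)))) (b (c (b (a (l 16686304) (l 16682920)) (a (a (b (l 16679832) (l 16675336)) (l 16675912)) (l 16673512))) (b (a (l 16657024) (l 16655904)) (a (b (l 16672040) (a (l 16647216) (l 16646696))) (l 16648040)))) (a (b (a (b (c (a (c (b (l 16680240) (l 16678152)) (l 249275663127)) (l 16670824)) (a (c (l 16660440) (l 16636400)) (l 16642824))) (c (a (b (c (a (l 351281146775) (l 271824266327)) (l 331416908487)) (c (l 382419655079) (l 395304527111))) (c (c (l 261086842775) (l 263771182311)) (a (l 277192941015) (l 16659296))))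 (a (b (c (l 345375507783) (l 358797266935)) (l 414094966343)) (c (l 275045428359) (l 280414109511))))) (c (c (b (l 16677000) (l 16672904)) (l 16660448)) (c (l 16646824) (l 16634096)))) (a (a (l 3) (b (b (c (c (l 349670544615) (l 363092267031)) (c (l 375977140599) (l 389398886279))) (l 3)) (l 3))) (b (c (b (c (l 238001388503) (l 16655440)) (a (c (a (l 349133647431) (l 266992412167)) (l 330343151191)) (l 16660200))) (a (c (l 293299030295) (l 298130840791)) (b (l 16634976) (l 16632864)))) (c (c (a (l 386177733815) (b (l 270213632887) (l 346986153719))) (a (l 399599477575) (b (l 275045442007) (l 360944768823)))) (a (l 418926809767) (c (l 310478877575) (l 315310701095))))))) (c (b (a (l 16666048) (l 16664552)) (a (b (l 16660088) (a (c (l 16663632) (l 16649520)) (l 16655792))) (l 16656672))) (b (a (l 16639944) (l 16639592)) (a (a (c (l 16638064) (l 16625384)) (l 16631472)) (l 16631272))))))) (b (b (l 16694320) (a (l 16678912) (l 16676720))) (b (c (a (l 16675048) (l 16672072)) (l 16650816)) (b (c (l 16660976) (l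 16638968)) (a (c (l 16654600) (l 16630952)) (l 16640552)))))), by decide +kernel⟩

def k63_pp_123 : ∃ t, chk3 f_pp_123 t 37 10 1 = true :=
  ⟨(b (b (a (l 16726984) (l 16717344)) (a (a (l 16671248) (l 16709080)) (l 16704360))) (b (a (a (a (l 16682656) (l 16680744)) (a (l 16679016) (l 16677568))) (b (l 16682632) (l 16667536))) (b (a (c (l 16665288) (l 16650008)) (b (l 16656032) (l 16648432))) (a (a (b (l 16646024) (l 16638464)) (l 16639888)) (l 16637648))))), by decide +kernel⟩

def k64_pp_123 : ∃ t, chk3 f_pp_123 t 72 22 1 = true :=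
  ⟨(l 3), by decide +kernel⟩

def k65_pp_123 : ∃ t, chk3 f_pp_123 t 73 44 1 = true :=
  ⟨(a (b (a (l 3) (b (b (a (c (c (a (b (l 313163296311) (l 377050915287)) (c (l 253033748135) (l 255181217271))) (a (l 352354827079) (l 258402429511))) (c (a (l 366850314471) (l 16631648)) (l 352891644711))) (c (a (l 16651200) (l 16650520)) (l 16625032))) (a (a (l 3) (b (c (c (l 343228042439) (l 357723543607)) (l 379198353239)) (l 3))) (c (a (c (b (l 16655248) (l 309405184759)) (l 277192902823)) (b (l 16647648) (l 16645744))) (c (l 265918587287) (l 268602915623))))) (a (l 3) (b (c (a (b (l 379735241351) (l 3)) (c (a (l 311015775575) (l 268602985799)) (l 295446504695))) (c (l 367387167751) (l 382419527911))) (l 3))))) (l 3)) (b (c (c (a (b (l 16653592) (a (b (l 16648664) (a (a (l 356649794103) (l 293299038983)) (l 243906914727))) (l 16645384))) (l 16646944)) (a (b (l 16640544) (a (b (l 16635368) (a (l 346449232647) (l 16631336))) (l 16632456))) (l 16634704))) (a (b (a (l 16622776) (l 16622656)) (a (c (b (l 16622680) (l 334638046695))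 (l 273434738839)) (l 16635416))) (b (l 16622576) (l 16614448)))) (a (b (a (a (l 3) (b (c (c (l 351281075847) (l 366850305607)) (l 390472613559)) (l 3))) (c (c (b (c (l 248738743655) (l 249275600967)) (a (l 370608420007) (l 280414119447))) (b (l 250349330871) (l 346449202119))) (b (a (l 265918562295) (l 16608296)) (l 370608383559)))) (a (l 3) (b (c (l 399599427847) (l 431811631143)) (l 3)))) (b (c (a (a (c (l 16637096) (l 16624320)) (l 16630072)) (l 16629240)) (c (l 16611904) (l 16600920))) (a (c (c (b (a (l 298130851111) (l 16631152)) (l 356112887991)) (b (l 273971634455) (l 373292731239))) (b (l 274508482279) (l 398525626631))) (c (c (c (l 232632590871) (l 16625296)) (l 231558825207)) (b (l 16600296) (l 16596248)))))))), by decide +kernel⟩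

def k66_pp_123 : ∃ t, chk3 f_pp_123 t 73 45 1 = true :=
  ⟨(a (l 3) (b (a (l 3) (b (a (l 3) (c (b (c (a (l 359334104871) (l 263234224103)) (l 338932998711)) (l 391009468087)) (b (l 364165908007) (l 424295414551)))) (l 3))) (l 3))), by decide +kernel⟩

def k67_pp_123 : ∃ t, chk3 f_pp_123 t 37 22 1 = true :=
  ⟨(a (b (a (c (b (a (l 16638352) (l 16636136)) (a (c (b (l 16633536) (l 16626624)) (l 16618328)) (l 16622040))) (b (l 16618696) (c (a (l 16607544) (l 16607280)) (l 16598344)))) (c (c (l 16630664) (l 16621624)) (b (l 16619576) (l 16603968)))) (a (b (a (c (c (b (a (b (l 16622160) (c (l 256791765287) (l 256254881255))) (l 16619312)) (a (b (l 348596670295) (l 3)) (b (l 16614408) (l 313700067943)))) (b (a (l 243369969815) (l 16607384)) (a (l 377050799655) (l 255181114535)))) (b (c (l 232095657703) (l 16585088)) (a (l 401746824679) (l 254644222903)))) (c (c (b (l 16617584) (l 16611128)) (l 16602872)) (b (l 16591112) (l 16583192)))) (a (b (c (c (l 381882648599) (l 398525621143)) (l 422684774615)) (l 3)) (c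 (c (b (a (b (l 238001260679) (l 338932970535)) (l 16604336)) (a (l 3) (b (l 304036368711) (l 363092147191)))) (b (a (l 265918518167) (l 16592456)) (l 362555254839))) (b (b (l 16577264) (l 338932941975)) (l 385640667415))))) (c (b (a (l 16606736) (l 16605072)) (a (b (l 16597104) (c (a (l 16597248) (l 16596256)) (l 16585048))) (b (l 16595528) (l 16589328)))) (b (l 16588328) (c (a (l 16577416) (l 16577704)) (l 16568064)))))) (a (b (b (l 16623928) (l 16609752)) (c (c (l 16600600) (l 16592304)) (b (l 16590408) (l 16575024)))) (b (l 16616088) (b (l 16595560) (l 16581992))))), by decide +kernel⟩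

def k68_pp_123 : ∃ t, chk3 f_pp_123 t 18 23 1 = true :=
  ⟨(a (l 3) (a (b (a (l 3) (b (a (c (b (c (a (l 344838525399) (l 218673874807)) (l 326048034903)) (a (l 3) (l 368460819415))) (b (l 348059722935) (l 406578603815))) (c (b (l 16583288) (c (l 210620800983) (l 16571368))) (a (l 212231373703) (l 16558048)))) (a (l 3) (c (b (a (l 384030062695) (l 235853723223)) (l 3)) (l 382956298343))))) (l 3)) (b (a (c (b (c (l 16583368) (l 16573296)) (a (c (c (l 202567714791) (l 202567701255)) (l 203641433815)) (l 16566256))) (b (l 16559672) (c (l 191830254663) (l 16539104)))) (b (a (l 16568592) (l 16568800)) (c (l 16564600) (l 16547552)))) (a (b (a (c (b (l 358797104567) (l 3)) (l 394767431527)) (c (c (l 199346472503) (l 16559440)) (l 203104523063))) (a (l 3) (c (l 379735041031) (l 407652307479)))) (c (b (a (l 16554424) (l 16553440)) (a (b (l 16546776) (l 338396015719)) (l 16543392))) (b (l 16532496) (l 184314029575))))))), by decide +kernel⟩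

def k69_pp_123 : ∃ t, chk3 f_pp_123 t 19 5 1 = true :=
  ⟨(b (a (b (c (l 16690584) (l 16705608)) (b (l 16671584) (a (l 16664784) (l 16644040)))) (b (l 16637600) (b (l 16668352) (l 16644368)))) (a (b (a (b (a (l 16616112) (l 16616728)) (c (l 16590992) (l 16590328))) (b (l 16618176) (a (l 16591552) (l 16593360)))) (a (b (c (a (l 16568312) (l 16567136)) (a (l 16558552) (l 16562592))) (c (a (a (l 16547368) (l 16546672)) (l 16545888)) (a (l 16528680) (l 16532952)))) (b (c (l 16566384) (l 16569320)) (c (l 16545264) (l 16540072))))) (a (b (l 16754208) (b (l 16571672) (l 16589664))) (b (l 16609456) (b (l 16575736) (l 16553352)))))), by decide +kernel⟩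

def k70_pp_123 : ∃ t, chk3 f_pp_123 t 5 2 1 = true :=
  ⟨(b (a (a (a (b (l 16518736) (l 16631232)) (b (a (l 16563248) (l 16550040)) (a (l 16596544) (l 16608624)))) (b (l 16494504) (c (l 16561624) (l 16606552)))) (b (a (l 16451408) (l 16380896)) (a (l 16761264) (l 16485880)))) (a (b (a (a (b (l 16668488) (l 16589656)) (a (b (l 16651864) (l 16647456)) (b (l 16640040) (l 16641712)))) (b (l 16616344) (l 16587936))) (a (a (b (l 16610952) (b (l 16579792) (l 16558992))) (b (a (l 16609824) (l 16606680)) (a (l 16570728) (a (l 16570168) (l 16568576))))) (b (l 16602424) (b (l 16578864) (l 16561920))))) (b (b (a (l 16583984) (l 16530944)) (l 16584072)) (b (a (l 16592224) (l 16574624)) (a (l 16569712) (l 16563048)))))), by decide +kernel⟩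

def k71_pp_123 : ∃ t, chk3 f_pp_123 t 3 2 1 = true :=
  ⟨(a (b (a (b (a (l 16307528) (l 16231832)) (a (l 16425088) (l 16362232))) (b (l 15906680) (a (l 16295544) (l 16225032)))) (b (a (c (b (l 16468040) (l 16503704)) (b (l 16491816) (l 16541240))) (a (l 16422872) (l 16232424))) (a (b (l 16747296) (l 16562496)) (b (a (l 16493520) (l 16451008)) (l 16457560))))) (b (a (b (l 15937224) (l 15968792)) (b (a (l 15844776) (l 15804608)) (l 15753152))) (b (a (b (l 16222248) (l 16285776)) (b (l 16070568) (l 16132392))) (a (b (l 16223808) (a (l 16434248) (l 16374576))) (b (l 16191776) (l 1)))))), by decide +kernel⟩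

def k72_pp_123 : ∃ t, chk3 f_pp_123 t 4 3 1 = true :=
  ⟨(a (l 3) (b (b (a (a (l 3) (b (a (l 3) (b (a (l 3) (b (c (a (l 3) (l 317458042311)) (l 364165755719)) (l 3))) (l 3))) (l 3))) (a (b (a (b (c (a (b (l 16532712) (l 289540751223)) (b (l 16531544) (l 16522640))) (a (b (l 16506664) (l 16492192)) (l 16503552))) (a (c (b (l 338932855655) (l 3)) (l 363091980823)) (c (b (l 16514288) (l 286856370103)) (l 155322954423)))) (b (c (a (l 16526272) (l 16526224)) (l 16510880)) (c (a (l 16509496) (l 16509288)) (a (l 16479272) (l 16484472))))) (a (b (a (l 3) (b (l 338932862775) (l 3))) (l 3)) (b (c (a (b (l 16498456) (l 16491360)) (l 16494624)) (a (l 140827410935) (l 16455584))) (a (b (l 327121677543) (l 3)) (b (l 16523144) (l 273971464503)))))) (b (a (b (c (l 16527152) (l 16521656)) (c (l 16510056) (l 16492856))) (b (l 16530800) (l 16508480))) (a (b (c (l 16495072) (l 16464008)) (c (l 16524264) (l 16435080))) (b (c (l 16497656) (l 16475976)) (c (l 16484528) (l 16447184))))))) (a (l 3) (b (a (l 3) (c (a (b (a (l 16471464)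 (l 16472112)) (l 239074894727)) (b (l 16473616) (l 16465096))) (a (b (l 221894904535) (l 242832716887)) (b (l 16418056) (l 16388560))))) (a (l 3) (a (l 3) (b (c (l 16458976) (l 194514299591)) (c (l 16476280) (l 305109630231)))))))) (b (a (l 3) (b (l 3) (l 3))) (l 3)))), by decide +kernel⟩

def k73_pp_123 : ∃ t, chk3 f_pp_123 t 5 6 1 = true :=
  ⟨(a (a (a (b (b (a (b (l 16536704) (l 16515664)) (l 16613944)) (a (b (l 16494648) (l 16474112)) (b (l 16501248) (l 16481504)))) (b (a (b (l 16517352) (c (l 16467920) (l 16400448))) (b (l 16461856) (l 16484880))) (a (b (c (l 16461392) (l 16370584)) (c (l 16457584) (l 16340672))) (b (c (l 16464432) (l 16381160)) (c (l 16459880) (l 16351264)))))) (b (a (b (l 16532040) (b (l 16504496) (l 16486408))) (b (b (l 16541016) (l 16522208)) (b (l 16503744) (l 16485728)))) (a (b (b (l 16468056) (l 16470688)) (b (l 16431744) (c (l 16463200) (l 16360320)))) (b (b (l 16489248) (a (l 16452888) (l 16451112))) (a (b (l 16435944) (l 16419360)) (b (l 16435304) (a (l 16420536) (l 16419544))))))))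 (b (b (b (l 16544560) (l 16526992)) (b (l 16509400) (l 16491920))) (b (b (a (l 16470880) (l 16477992)) (l 16458016)) (c (b (l 16475640) (l 16471968)) (b (l 16403016) (l 16375480)))))) (b (b (a (l 16541464) (l 16541352)) (a (l 16510120) (l 16513824))) (b (a (b (l 16485992) (l 16469816)) (l 16483200)) (a (b (l 16454080) (l 16439216)) (b (l 16460080) (l 16445152)))))), by decide +kernel⟩

def k74_pp_123 : ∃ t, chk3 f_pp_123 t 5 7 1 = true :=
  ⟨(b (b (a (a (a (c (a (b (l 16456576) (l 126331772823)) (b (l 16458200) (l 16459776))) (a (b (l 16311552) (l 16273520)) (b (l 16321936) (l 16293896)))) (a (c (b (l 16460776) (l 16461536)) (b (l 16330904) (l 16302800))) (a (b (c (l 16463600) (l 16336224)) (c (l 16463872) (l 16307888))) (c (b (l 16465104) (l 16465632)) (b (l 16338520) (l 16310648)))))) (b (c (l 16470888) (l 16348480)) (c (l 16472360) (l 16322232)))) (a (b (l 16299904) (c (l 16478120) (l 16338592))) (b (l 16431368) (l 1)))) (a (b (c (a (a (a (b (l 16462568) (l 3)) (c (l 16506232) (l 16420008))) (a (c (l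 16504784) (l 16423088)) (a (l 16467768) (l 16469344)))) (l 16349880)) (a (a (a (l 147269336151) (b (l 16274368) (l 16262304))) (a (a (l 16274904) (l 16278736)) (a (l 16281856) (l 16284504)))) (b (l 16302880) (l 16289904)))) (a (a (a (l 3) (b (c (l 16450784) (l 16251248)) (c (l 75328985127) (l 16241392)))) (a (c (c (l 16519704) (l 16424792)) (b (l 16259904) (l 16226320))) (a (c (l 38150595207) (l 62846373607)) (c (l 16477168) (l 16261824))))) (a (c (l 16459088) (l 16267880)) (l 1)))) (l 1))) (a (a (a (a (l 3) (b (l 1) (l 1))) (l 1)) (l 1)) (l 1))), by decide +kernel⟩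

def k75_pp_123 : ∃ t, chk3 f_pp_123 t 3 3 1 = true :=
  ⟨(b (a (b (a (b (l 16509216) (l 16403248)) (b (l 16426792) (a (l 16486496) (l 16462624)))) (a (b (a (l 16482472) (l 16475128)) (a (b (l 16459720) (l 16444624)) (l 16360520))) (b (a (l 16460496) (l 1)) (l 1)))) (a (a (b (l 291016398807) (l 1)) (l 1)) (l 1))) (l 1)), by decide +kernel⟩

theorem s76_pp_123 : ∃ t, chk3 f_pp_123 t 5 3 1 = true := ex3_b k73_pp_123 k74_pp_123

theorem s77_pp_123 : ∃ t, chk3 f_pp_123 t 2 3 1 = true := ex3_a k72_pp_123 s76_pp_123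

theorem s78_pp_123 : ∃ t, chk3 f_pp_123 t 1 3 1 = true := ex3_a s77_pp_123 k75_pp_123

theorem s79_pp_123 : ∃ t, chk3 f_pp_123 t 73 22 1 = true := ex3_b k65_pp_123 k66_pp_123

theorem s80_pp_123 : ∃ t, chk3 f_pp_123 t 36 22 1 = true := ex3_a k64_pp_123 s79_pp_123

theorem s81_pp_123 : ∃ t, chk3 f_pp_123 t 18 22 1 = true := ex3_a s80_pp_123 k67_pp_123

theorem s82_pp_123 : ∃ t, chk3 f_pp_123 t 18 11 1 = true := ex3_b s81_pp_123 k68_pp_123

theorem s83_pp_123 : ∃ t, chk3 f_pp_123 t 145 86 1 = true := ex3_a k59_pp_123 k60_pp_123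

theorem s84_pp_123 : ∃ t, chk3 f_pp_123 t 145 43 1 = true := ex3_b s83_pp_123 k61_pp_123

theorem s85_pp_123 : ∃ t, chk3 f_pp_123 t 72 43 1 = true := ex3_a k58_pp_123 s84_pp_123

theorem s86_pp_123 : ∃ t, chk3 f_pp_123 t 144 42 1 = true := ex3_b k55_pp_123 k56_pp_123

theorem s87_pp_123 : ∃ t, chk3 f_pp_123 t 72 42 1 = true := ex3_a s86_pp_123 k57_pp_123

theorem s88_pp_123 : ∃ t, chk3 f_pp_123 t 72 21 1 = true := ex3_b s87_pp_123 s85_pp_123

theorem s89_pp_123 : ∃ t, chk3 f_pp_123 t 36 21 1 = true := ex3_a s88_pp_123 k62_pp_123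

theorem s90_pp_123 : ∃ t, chk3 f_pp_123 t 36 10 1 = true := ex3_b k54_pp_123 s89_pp_123

theorem s91_pp_123 : ∃ t, chk3 f_pp_123 t 18 10 1 = true := ex3_a s90_pp_123 k63_pp_123

theorem s92_pp_123 : ∃ t, chk3 f_pp_123 t 18 5 1 = true := ex3_b s91_pp_123 s82_pp_123

theorem s93_pp_123 : ∃ t, chk3 f_pp_123 t 9 5 1 = true := ex3_a s92_pp_123 k69_pp_123

theorem s94_pp_123 : ∃ t, chk3 f_pp_123 t 9 2 1 = true := ex3_b k53_pp_123 s93_pp_123

theorem s95_pp_123 : ∃ t, chk3 f_pp_123 t 143 83 1 = true := ex3_a k49_pp_123 k50_pp_123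

theorem s96_pp_123 : ∃ t, chk3 f_pp_123 t 143 41 1 = true := ex3_b k48_pp_123 s95_pp_123

theorem s97_pp_123 : ∃ t, chk3 f_pp_123 t 142 82 1 = true := ex3_a k45_pp_123 k46_pp_123

theorem s98_pp_123 : ∃ t, chk3 f_pp_123 t 142 41 1 = true := ex3_b s97_pp_123 k47_pp_123

theorem s99_pp_123 : ∃ t, chk3 f_pp_123 t 71 41 1 = true := ex3_a s98_pp_123 s96_pp_123

theorem s100_pp_123 : ∃ t, chk3 f_pp_123 t 142 81 1 = true := ex3_a k42_pp_123 k43_pp_123

theorem s101_pp_123 : ∃ t, chk3 f_pp_123 t 142 40 1 = true := ex3_b k41_pp_123 s100_pp_123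

theorem s102_pp_123 : ∃ t, chk3 f_pp_123 t 71 40 1 = true := ex3_a s101_pp_123 k44_pp_123

theorem s103_pp_123 : ∃ t, chk3 f_pp_123 t 71 20 1 = true := ex3_b s102_pp_123 s99_pp_123

theorem s104_pp_123 : ∃ t, chk3 f_pp_123 t 282 160 1 = true := ex3_a k35_pp_123 k36_pp_123

theorem s105_pp_123 : ∃ t, chk3 f_pp_123 t 282 80 1 = true := ex3_b s104_pp_123 k37_pp_123

theorem s106_pp_123 : ∃ t, chk3 f_pp_123 t 141 80 1 = true := ex3_a s105_pp_123 k38_pp_123

theorem s107_pp_123 : ∃ t, chk3 f_pp_123 t 141 40 1 = true := ex3_b s106_pp_123 k39_pp_123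

theorem s108_pp_123 : ∃ t, chk3 f_pp_123 t 70 40 1 = true := ex3_a k34_pp_123 s107_pp_123

theorem s109_pp_123 : ∃ t, chk3 f_pp_123 t 70 20 1 = true := ex3_b s108_pp_123 k40_pp_123

theorem s110_pp_123 : ∃ t, chk3 f_pp_123 t 35 20 1 = true := ex3_a s109_pp_123 s103_pp_123

theorem s111_pp_123 : ∃ t, chk3 f_pp_123 t 35 10 1 = true := ex3_b s110_pp_123 k51_pp_123

theorem s112_pp_123 : ∃ t, chk3 f_pp_123 t 17 10 1 = true := ex3_a k33_pp_123 s111_pp_123

theorem s113_pp_123 : ∃ t, chk3 f_pp_123 t 8 10 1 = true := ex3_a k32_pp_123 s112_pp_123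

theorem s114_pp_123 : ∃ t, chk3 f_pp_123 t 8 5 1 = true := ex3_b s113_pp_123 k52_pp_123

theorem s115_pp_123 : ∃ t, chk3 f_pp_123 t 281 79 1 = true := ex3_b k28_pp_123 k29_pp_123

theorem s116_pp_123 : ∃ t, chk3 f_pp_123 t 140 79 1 = true := ex3_a k27_pp_123 s115_pp_123

theorem s117_pp_123 : ∃ t, chk3 f_pp_123 t 140 39 1 = true := ex3_b k26_pp_123 s116_pp_123

theorem s118_pp_123 : ∃ t, chk3 f_pp_123 t 70 39 1 = true := ex3_a s117_pp_123 k30_pp_123

theorem s119_pp_123 : ∃ t, chk3 f_pp_123 t 70 19 1 = true := ex3_b k25_pp_123 s118_pp_123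

theorem s120_pp_123 : ∃ t, chk3 f_pp_123 t 35 19 1 = true := ex3_a s119_pp_123 k31_pp_123

theorem s121_pp_123 : ∃ t, chk3 f_pp_123 t 35 9 1 = true := ex3_b k24_pp_123 s120_pp_123

theorem s122_pp_123 : ∃ t, chk3 f_pp_123 t 138 38 1 = true := ex3_b k20_pp_123 k21_pp_123

theorem s123_pp_123 : ∃ t, chk3 f_pp_123 t 69 38 1 = true := ex3_a s122_pp_123 k22_pp_123

theorem s124_pp_123 : ∃ t, chk3 f_pp_123 t 69 19 1 = true := ex3_b s123_pp_123 k23_pp_123

theorem s125_pp_123 : ∃ t, chk3 f_pp_123 t 34 19 1 = true := ex3_a k19_pp_123 s124_pp_123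

theorem s126_pp_123 : ∃ t, chk3 f_pp_123 t 137 37 1 = true := ex3_b k16_pp_123 k17_pp_123

theorem s127_pp_123 : ∃ t, chk3 f_pp_123 t 68 37 1 = true := ex3_a k15_pp_123 s126_pp_123

theorem s128_pp_123 : ∃ t, chk3 f_pp_123 t 136 73 1 = true := ex3_a k12_pp_123 k13_pp_123

theorem s129_pp_123 : ∃ t, chk3 f_pp_123 t 136 36 1 = true := ex3_b k11_pp_123 s128_pp_123

theorem s130_pp_123 : ∃ t, chk3 f_pp_123 t 68 36 1 = true := ex3_a s129_pp_123 k14_pp_123

theorem s131_pp_123 : ∃ t, chk3 f_pp_123 t 68 18 1 = true := ex3_b s130_pp_123 s127_pp_123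

theorem s132_pp_123 : ∃ t, chk3 f_pp_123 t 34 18 1 = true := ex3_a s131_pp_123 k18_pp_123

theorem s133_pp_123 : ∃ t, chk3 f_pp_123 t 34 9 1 = true := ex3_b s132_pp_123 s125_pp_123

theorem s134_pp_123 : ∃ t, chk3 f_pp_123 t 17 9 1 = true := ex3_a s133_pp_123 s121_pp_123

theorem s135_pp_123 : ∃ t, chk3 f_pp_123 t 17 4 1 = true := ex3_b k10_pp_123 s134_pp_123

theorem s136_pp_123 : ∃ t, chk3 f_pp_123 t 135 145 1 = true := ex3_a k5_pp_123 k6_pp_123

theorem s137_pp_123 : ∃ t, chk3 f_pp_123 t 67 145 1 = true := ex3_a k4_pp_123 s136_pp_123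

theorem s138_pp_123 : ∃ t, chk3 f_pp_123 t 67 72 1 = true := ex3_b k3_pp_123 s137_pp_123

theorem s139_pp_123 : ∃ t, chk3 f_pp_123 t 67 36 1 = true := ex3_b s138_pp_123 k7_pp_123

theorem s140_pp_123 : ∃ t, chk3 f_pp_123 t 67 18 1 = true := ex3_b s139_pp_123 k8_pp_123

theorem s141_pp_123 : ∃ t, chk3 f_pp_123 t 33 18 1 = true := ex3_a k2_pp_123 s140_pp_123

theorem s142_pp_123 : ∃ t, chk3 f_pp_123 t 33 9 1 = true := ex3_b s141_pp_123 k9_pp_123

theorem s143_pp_123 : ∃ t, chk3 f_pp_123 t 16 9 1 = true := ex3_a k1_pp_123 s142_pp_123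

theorem s144_pp_123 : ∃ t, chk3 f_pp_123 t 16 4 1 = true := ex3_b k0_pp_123 s143_pp_123

theorem s145_pp_123 : ∃ t, chk3 f_pp_123 t 8 4 1 = true := ex3_a s144_pp_123 s135_pp_123

theorem s146_pp_123 : ∃ t, chk3 f_pp_123 t 8 2 1 = true := ex3_b s145_pp_123 s114_pp_123

theorem s147_pp_123 : ∃ t, chk3 f_pp_123 t 4 2 1 = true := ex3_a s146_pp_123 s94_pp_123

theorem s148_pp_123 : ∃ t, chk3 f_pp_123 t 2 2 1 = true := ex3_a s147_pp_123 k70_pp_123

theorem s149_pp_123 : ∃ t, chk3 f_pp_123 t 1 2 1 = true := ex3_a s148_pp_123 k71_pp_123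

theorem s150_pp_123 : ∃ t, chk3 f_pp_123 t 1 1 1 = true := ex3_b s149_pp_123 s78_pp_123

theorem c_pp_123 : CertB 536870912 536870912 0 1230186008 966367641 24778659 3 eng mog cd0q1 cd3q3 pd2 false true true .npn 1 2 3
    ndB0q1 ndB3q3 pcB2 cut_pp_123 xt_pp_123 :=
  certB2 (fam := false) (s1 := true) (s2 := true) (a := 1) (b := 2) (c := 3) (cn := .npn) (n1 := ndB0q1) (n2 := ndB3q3) (pc := pcB2) (cut := cut_pp_123) (xt := xt_pp_123) (P1 := 536870912) (W1 := 536870912) (P2 := 0) (W2 := 1230186008) (P3 := 966367641) (W3 := 24778659) (N0 := 3) (En := eng) (mo := mog) (C1 := cd0q1) (C2 := cd3q3) (C3 := pd2)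
    rfl (fun _ => rfl) s150_pp_123

noncomputable def f_pp_133 : ℕ → ℕ → ℕ → ℕ → Bool := onCell 536870912 536870912 0 1230186008 966367641 24778659
    (rowB 3 eng mog cd0q1 cd3q3 pd3 0 false true true .dn 1 3 3 (qsf 536870912 536870912 0 1230186008 3) ndB0q1 ndB3q3 pcB3 Cut.none Ext.none)

def k0_pp_133 : ∃ t, chk3 f_pp_133 t 1 1 1 = true :=
  ⟨(b (b (a (a (b (a (c (l 16372592) (l 16035256)) (l 1)) (l 1)) (l 1)) (l 1)) (l 1)) (l 1)), by decide +kernel⟩

theorem c_pp_133 : CertB 536870912 536870912 0 1230186008 966367641 24778659 3 eng mog cd0q1 cd3q3 pd3 false true true .dn 1 3 3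
    ndB0q1 ndB3q3 pcB3 Cut.none Ext.none :=
  certB0 (fam := false) (s1 := true) (s2 := true) (a := 1) (b := 3) (c := 3) (cn := .dn) (n1 := ndB0q1) (n2 := ndB3q3) (pc := pcB3) (cut := Cut.none) (xt := Ext.none) (P1 := 536870912) (W1 := 536870912) (P2 := 0) (W2 := 1230186008) (P3 := 966367641) (W3 := 24778659) (N0 := 3) (En := eng) (mo := mog) (C1 := cd0q1) (C2 := cd3q3) (C3 := pd3)
    rfl k0_pp_133

noncomputable def f_pp_202 : ℕ → ℕ → ℕ → ℕ → Bool := onCell 0 536870912 1073741824 536870912 966367641 24778659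
    (rowB 3 eng mog cd0q2 cd3q2 pd0 0 false true true .pp 2 0 2 (qsf 0 536870912 1073741824 536870912 0) ndB0q2 ndB3q2 pcB0 Cut.none Ext.none)

def k0_pp_202 : ∃ t, chk3 f_pp_202 t 1 1 1 = true :=
  ⟨(l 5), by decide +kernel⟩

theorem c_pp_202 : CertB 0 536870912 1073741824 536870912 966367641 24778659 3 eng mog cd0q2 cd3q2 pd0 false true true .pp 2 0 2
    ndB0q2 ndB3q2 pcB0 Cut.none Ext.none :=
  certB0 (fam := false) (s1 := true) (s2 := true) (a := 2) (b := 0) (c := 2) (cn := .pp) (n1 := ndB0q2) (n2 := ndB3q2) (pc := pcB0) (cut := Cut.none) (xt := Ext.none) (P1 := 0) (W1 := 536870912) (P2 := 1073741824) (W2 := 536870912) (P3 := 966367641) (W3 := 24778659) (N0 := 3) (En := eng) (mo := mog) (C1 := cd0q2) (C2 := cd3q2) (C3 := pd0)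
    rfl k0_pp_202

noncomputable def f_pp_203 : ℕ → ℕ → ℕ → ℕ → Bool := onCell 0 536870912 0 1230186008 966367641 24778659
    (rowB 3 eng mog cd0q2 cd3q3 pd0 0 false true true .up 2 0 3 (qsf 0 536870912 0 1230186008 0) ndB0q2 ndB3q3 pcB0 Cut.none Ext.none)

def k0_pp_203 : ∃ t, chk3 f_pp_203 t 1 1 1 = true :=
  ⟨(b (l 2) (b (l 2) (l 3))), by decide +kernel⟩

theorem c_pp_203 : CertB 0 536870912 0 1230186008 966367641 24778659 3 eng mog cd0q2 cd3q3 pd0 false true true .up 2 0 3
    ndB0q2 ndB3q3 pcB0 Cut.none Ext.none :=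
  certB0 (fam := false) (s1 := true) (s2 := true) (a := 2) (b := 0) (c := 3) (cn := .up) (n1 := ndB0q2) (n2 := ndB3q3) (pc := pcB0) (cut := Cut.none) (xt := Ext.none) (P1 := 0) (W1 := 536870912) (P2 := 0) (W2 := 1230186008) (P3 := 966367641) (W3 := 24778659) (N0 := 3) (En := eng) (mo := mog) (C1 := cd0q2) (C2 := cd3q3) (C3 := pd0)
    rfl k0_pp_203

noncomputable def cut_pp_213 : Cut := Cut.of [[⟨0, 1, 0, 47710208⟩, ⟨1, 1, 0, 47710208⟩, ⟨2, 2, 0, 8388608⟩]]

noncomputable def f_pp_213 : ℕ → ℕ → ℕ → ℕ → Bool := onCell 0 536870912 0 1230186008 966367641 24778659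
    (rowB 3 eng mog cd0q2 cd3q3 pd1 0 false true true .pnn 2 1 3 (qsf 0 536870912 0 1230186008 1) ndB0q2 ndB3q3 pcB1 cut_pp_213 Ext.none)

def k0_pp_213 : ∃ t, chk3 f_pp_213 t 1 1 1 = true :=
  ⟨(b (a (l 3) (b (a (l 3) (a (l 3) (b (b (l 6) (l 3)) (l 3)))) (l 3))) (b (l 3) (l 3))), by decide +kernel⟩

theorem c_pp_213 : CertB 0 536870912 0 1230186008 966367641 24778659 3 eng mog cd0q2 cd3q3 pd1 false true true .pnn 2 1 3
    ndB0q2 ndB3q3 pcB1 cut_pp_213 Ext.none :=
  certB0 (fam := false) (s1 := true) (s2 := true) (a := 2) (b := 1) (c := 3) (cn := .pnn) (n1 := ndB0q2) (n2 := ndB3q3) (pc := pcB1) (cut := cut_pp_213) (xt := Ext.none) (P1 := 0) (W1 := 536870912) (P2 := 0) (W2 := 1230186008) (P3 := 966367641) (W3 := 24778659) (N0 := 3) (En := eng) (mo := mog) (C1 := cd0q2) (C2 := cd3q3) (C3 := pd1)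
    rfl k0_pp_213

noncomputable def f_pm_001 : ℕ → ℕ → ℕ → ℕ → Bool := onCell 0 536870912 536870912 536870912 966367641 24778659
    (rowB 3 eng mog cd0q0 cd3q1 pd0 0 false true false .up 0 0 1 (qsf 0 536870912 536870912 536870912 0) ndB0q0 ndB3q1 pcB0 Cut.none Ext.none)

def k0_pm_001 : ∃ t, chk3 f_pm_001 t 1 1 1 = true :=
  ⟨(l 4), by decide +kernel⟩

theorem c_pm_001 : CertB 0 536870912 536870912 536870912 966367641 24778659 3 eng mog cd0q0 cd3q1 pd0 false true false .up 0 0 1
    ndB0q0 ndB3q1 pcB0 Cut.none Ext.none :=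
  certB0 (fam := false) (s1 := true) (s2 := false) (a := 0) (b := 0) (c := 1) (cn := .up) (n1 := ndB0q0) (n2 := ndB3q1) (pc := pcB0) (cut := Cut.none) (xt := Ext.none) (P1 := 0) (W1 := 536870912) (P2 := 536870912) (W2 := 536870912) (P3 := 966367641) (W3 := 24778659) (N0 := 3) (En := eng) (mo := mog) (C1 := cd0q0) (C2 := cd3q1) (C3 := pd0)
    rfl k0_pm_001

noncomputable def f_pm_011 : ℕ → ℕ → ℕ → ℕ → Bool := onCell 0 536870912 536870912 536870912 966367641 24778659
    (rowB 3 eng mog cd0q0 cd3q1 pd1 0 false true false .pnn 0 1 1 (qsf 0 536870912 536870912 536870912 1) ndB0q0 ndB3q1 pcB1 Cut.none Ext.none)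

def k0_pm_011 : ∃ t, chk3 f_pm_011 t 1 1 1 = true :=
  ⟨(l 4), by decide +kernel⟩

theorem c_pm_011 : CertB 0 536870912 536870912 536870912 966367641 24778659 3 eng mog cd0q0 cd3q1 pd1 false true false .pnn 0 1 1
    ndB0q0 ndB3q1 pcB1 Cut.none Ext.none :=
  certB0 (fam := false) (s1 := true) (s2 := false) (a := 0) (b := 1) (c := 1) (cn := .pnn) (n1 := ndB0q0) (n2 := ndB3q1) (pc := pcB1) (cut := Cut.none) (xt := Ext.none) (P1 := 0) (W1 := 536870912) (P2 := 536870912) (W2 := 536870912) (P3 := 966367641) (W3 := 24778659) (N0 := 3) (En := eng) (mo := mog) (C1 := cd0q0) (C2 := cd3q1) (C3 := pd1)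
    rfl k0_pm_011

noncomputable def f_pm_012 : ℕ → ℕ → ℕ → ℕ → Bool := onCell 0 536870912 1073741824 536870912 966367641 24778659
    (rowB 3 eng mog cd0q0 cd3q2 pd1 0 false true false .pnp 0 1 2 (qsf 0 536870912 1073741824 536870912 1) ndB0q0 ndB3q2 pcB1 Cut.none Ext.none)

def k0_pm_012 : ∃ t, chk3 f_pm_012 t 1 1 1 = true :=
  ⟨(l 4), by decide +kernel⟩

theorem c_pm_012 : CertB 0 536870912 1073741824 536870912 966367641 24778659 3 eng mog cd0q0 cd3q2 pd1 false true false .pnp 0 1 2
    ndB0q0 ndB3q2 pcB1 Cut.none Ext.none :=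
  certB0 (fam := false) (s1 := true) (s2 := false) (a := 0) (b := 1) (c := 2) (cn := .pnp) (n1 := ndB0q0) (n2 := ndB3q2) (pc := pcB1) (cut := Cut.none) (xt := Ext.none) (P1 := 0) (W1 := 536870912) (P2 := 1073741824) (W2 := 536870912) (P3 := 966367641) (W3 := 24778659) (N0 := 3) (En := eng) (mo := mog) (C1 := cd0q0) (C2 := cd3q2) (C3 := pd1)
    rfl k0_pm_012

noncomputable def f_pm_022 : ℕ → ℕ → ℕ → ℕ → Bool := onCell 0 536870912 1073741824 536870912 966367641 24778659
    (rowB 3 eng mog cd0q0 cd3q2 pd2 0 false true false .pp 0 2 2 (qsf 0 536870912 1073741824 536870912 2) ndB0q0 ndB3q2 pcB2 Cut.none Ext.none)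

def k0_pm_022 : ∃ t, chk3 f_pm_022 t 1 1 1 = true :=
  ⟨(l 4), by decide +kernel⟩

theorem c_pm_022 : CertB 0 536870912 1073741824 536870912 966367641 24778659 3 eng mog cd0q0 cd3q2 pd2 false true false .pp 0 2 2
    ndB0q0 ndB3q2 pcB2 Cut.none Ext.none :=
  certB0 (fam := false) (s1 := true) (s2 := false) (a := 0) (b := 2) (c := 2) (cn := .pp) (n1 := ndB0q0) (n2 := ndB3q2) (pc := pcB2) (cut := Cut.none) (xt := Ext.none) (P1 := 0) (W1 := 536870912) (P2 := 1073741824) (W2 := 536870912) (P3 := 966367641) (W3 := 24778659) (N0 := 3) (En := eng) (mo := mog) (C1 := cd0q0) (C2 := cd3q2) (C3 := pd2)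
    rfl k0_pm_022

noncomputable def f_pm_023 : ℕ → ℕ → ℕ → ℕ → Bool := onCell 0 536870912 0 1230186008 966367641 24778659
    (rowB 3 eng mog cd0q0 cd3q3 pd2 0 false true false .up 0 2 3 (qsf 0 536870912 0 1230186008 2) ndB0q0 ndB3q3 pcB2 Cut.none Ext.none)

def k0_pm_023 : ∃ t, chk3 f_pm_023 t 1 1 1 = true :=
  ⟨(b (a (l 2) (a (l 2) (b (a (l 2) (b (l 15810392) (a (l 2) (l 16025440)))) (a (b (b (l 2) (l 4)) (l 4)) (b (a (b (l 16122328) (l 16096184)) (b (l 16062776) (l 16055520))) (a (l 4) (b (l 16019944) (l 4)))))))) (b (l 4) (l 4))), by decide +kernel⟩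

theorem c_pm_023 : CertB 0 536870912 0 1230186008 966367641 24778659 3 eng mog cd0q0 cd3q3 pd2 false true false .up 0 2 3
    ndB0q0 ndB3q3 pcB2 Cut.none Ext.none :=
  certB0 (fam := false) (s1 := true) (s2 := false) (a := 0) (b := 2) (c := 3) (cn := .up) (n1 := ndB0q0) (n2 := ndB3q3) (pc := pcB2) (cut := Cut.none) (xt := Ext.none) (P1 := 0) (W1 := 536870912) (P2 := 0) (W2 := 1230186008) (P3 := 966367641) (W3 := 24778659) (N0 := 3) (En := eng) (mo := mog) (C1 := cd0q0) (C2 := cd3q3) (C3 := pd2)
    rfl k0_pm_023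

noncomputable def f_pm_033 : ℕ → ℕ → ℕ → ℕ → Bool := onCell 1610612736 536870912 0 1230186008 966367641 24778659
    (rowB 3 eng mog cd0q0 cd3q3 pd3 2 false true false .pnn 0 3 3 (qsf 0 536870912 0 1230186008 3) ndB0q0 ndB3q3 pcB3 Cut.none Ext.none)

def k0_pm_033 : ∃ t, chk3 f_pm_033 t 1 1 1 = true :=
  ⟨(b (a (a (b (a (b (a (l 16164608) (l 16165416)) (a (l 16166056) (l 16175256))) (a (b (l 16173696) (l 16012472)) (b (l 16184000) (l 16026784)))) (a (b (b (a (l 16137784) (l 16144992)) (l 4)) (l 4)) (l 4))) (b (a (b (a (l 16183736) (l 16166120)) (l 4)) (l 4)) (l 4))) (l 4)) (l 4)), by decide +kernel⟩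

theorem c_pm_033 : CertB 0 536870912 0 1230186008 966367641 24778659 3 eng mog cd0q0 cd3q3 pd3 false true false .pnn 0 3 3
    ndB0q0 ndB3q3 pcB3 Cut.none Ext.none :=
  certB2 (fam := false) (s1 := true) (s2 := false) (a := 0) (b := 3) (c := 3) (cn := .pnn) (n1 := ndB0q0) (n2 := ndB3q3) (pc := pcB3) (cut := Cut.none) (xt := Ext.none) (P1 := 0) (W1 := 536870912) (P2 := 0) (W2 := 1230186008) (P3 := 966367641) (W3 := 24778659) (N0 := 3) (En := eng) (mo := mog) (C1 := cd0q0) (C2 := cd3q3) (C3 := pd3)
    rfl (fun _ => rfl) k0_pm_033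

noncomputable def f_pm_101 : ℕ → ℕ → ℕ → ℕ → Bool := onCell 536870912 536870912 536870912 536870912 966367641 24778659
    (rowB 3 eng mog cd0q1 cd3q1 pd0 0 false true false .npn 1 0 1 (qsf 536870912 536870912 536870912 536870912 0) ndB0q1 ndB3q1 pcB0 Cut.none Ext.none)

def k0_pm_101 : ∃ t, chk3 f_pm_101 t 1 1 1 = true :=
  ⟨(l 4), by decide +kernel⟩

theorem c_pm_101 : CertB 536870912 536870912 536870912 536870912 966367641 24778659 3 eng mog cd0q1 cd3q1 pd0 false true false .npn 1 0 1
    ndB0q1 ndB3q1 pcB0 Cut.none Ext.none :=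
  certB0 (fam := false) (s1 := true) (s2 := false) (a := 1) (b := 0) (c := 1) (cn := .npn) (n1 := ndB0q1) (n2 := ndB3q1) (pc := pcB0) (cut := Cut.none) (xt := Ext.none) (P1 := 536870912) (W1 := 536870912) (P2 := 536870912) (W2 := 536870912) (P3 := 966367641) (W3 := 24778659) (N0 := 3) (En := eng) (mo := mog) (C1 := cd0q1) (C2 := cd3q1) (C3 := pd0)
    rfl k0_pm_101

noncomputable def f_pm_102 : ℕ → ℕ → ℕ → ℕ → Bool := onCell 536870912 536870912 1073741824 536870912 966367641 24778659
    (rowB 3 eng mog cd0q1 cd3q2 pd0 0 false true false .npp 1 0 2 (qsf 536870912 536870912 1073741824 536870912 0) ndB0q1 ndB3q2 pcB0 Cut.none Ext.none)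

def k0_pm_102 : ∃ t, chk3 f_pm_102 t 2 1 1 = true :=
  ⟨(b (l 4) (b (l 4) (l 2))), by decide +kernel⟩

def k1_pm_102 : ∃ t, chk3 f_pm_102 t 3 2 1 = true :=
  ⟨(a (a (l 4) (b (b (l 4) (a (l 4) (b (l 15300640) (l 15154280)))) (b (a (l 4) (b (l 15134920) (l 15115960))) (a (l 15146176) (l 15086192))))) (b (a (b (a (b (a (l 15317056) (b (l 15113144) (l 15109456))) (a (l 15132136) (l 15104392))) (b (a (l 15093608) (b (l 15082568) (l 15080952))) (a (l 15088184) (l 15074936)))) (a (b (a (l 15118208) (l 15096136)) (l 15093696)) (b (l 15174520) (l 15054592)))) (b (a (b (a (b (l 15074016) (l 15072288)) (b (l 15067608) (l 15065312))) (a (l 15064992) (b (l 15060072) (l 15052752)))) (b (a (b (a (l 15065344) (l 15066464)) (l 15061696)) (b (a (b (l 15072536) (l 15069136)) (b (l 15078040) (l 15074464))) (b (l 15068184) (l 15064032)))) (a (b (l 15054576) (l 15045360)) (b (l 15056560) (l 15045344))))) (a (b (a (l 15050480) (l 15038280)) (a (l 15030984) (l 15015208))) (b (a (l 15028016) (b (l 15032512) (l 15018216))) (a (l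 15000992) (l 14994016)))))) (a (b (a (l 15069112) (l 15003024)) (a (l 15033160) (l 14959016))) (b (a (b (l 14996872) (l 14969080)) (b (a (l 14969840) (l 14958600)) (l 14926640))) (a (b (l 14940048) (l 14911632)) (b (a (l 14900568) (l 14882272)) (a (l 14867112) (l 14840040)))))))), by decide +kernel⟩

def k2_pm_102 : ∃ t, chk3 f_pm_102 t 3 3 1 = true :=
  ⟨(a (b (a (b (l 4) (a (l 2) (b (l 15115280) (l 2)))) (b (a (l 15101336) (l 15054512)) (a (l 15080248) (l 15051872)))) (a (l 2) (b (a (l 2) (b (l 15091024) (l 2))) (l 2)))) (b (a (b (a (l 15002904) (l 14919992)) (a (l 15004720) (b (l 14931488) (l 14928840)))) (b (a (b (l 14888992) (l 14866528)) (b (l 14822520) (l 14795720))) (a (l 14840392) (b (l 14769632) (l 14743800))))) (a (b (a (b (l 15027928) (l 15030912)) (b (l 14915976) (l 14900824))) (a (l 2) (b (l 14880320) (l 2)))) (b (a (b (l 14811344) (l 14788776)) (b (l 14717312) (l 14815016))) (a (b (a (l 14791104) (l 14739000)) (l 14805888)) (b (l 14693848) (l 14737864))))))), by decide +kernel⟩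

theorem s3_pm_102 : ∃ t, chk3 f_pm_102 t 3 1 1 = true := ex3_b k1_pm_102 k2_pm_102

theorem s4_pm_102 : ∃ t, chk3 f_pm_102 t 1 1 1 = true := ex3_a k0_pm_102 s3_pm_102

theorem c_pm_102 : CertB 536870912 536870912 1073741824 536870912 966367641 24778659 3 eng mog cd0q1 cd3q2 pd0 false true false .npp 1 0 2
    ndB0q1 ndB3q2 pcB0 Cut.none Ext.none :=
  certB0 (fam := false) (s1 := true) (s2 := false) (a := 1) (b := 0) (c := 2) (cn := .npp) (n1 := ndB0q1) (n2 := ndB3q2) (pc := pcB0) (cut := Cut.none) (xt := Ext.none) (P1 := 536870912) (W1 := 536870912) (P2 := 1073741824) (W2 := 536870912) (P3 := 966367641) (W3 := 24778659) (N0 := 3) (En := eng) (mo := mog) (C1 := cd0q1) (C2 := cd3q2) (C3 := pd0)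
    rfl s4_pm_102

noncomputable def f_pm_112 : ℕ → ℕ → ℕ → ℕ → Bool := onCell 536870912 536870912 1073741824 536870912 966367641 24778659
    (rowB 3 eng mog cd0q1 cd3q2 pd1 0 false true false .dn 1 1 2 (qsf 536870912 536870912 1073741824 536870912 1) ndB0q1 ndB3q2 pcB1 Cut.none Ext.none)

def k0_pm_112 : ∃ t, chk3 f_pm_112 t 1 1 1 = true :=
  ⟨(a (b (l 4) (a (l 4) (b (l 4) (a (l 4) (l 4))))) (a (a (b (l 4) (a (b (l 4) (b (b (l 4) (l 15077032)) (c (l 15091280) (l 14971472)))) (b (b (l 4) (l 15107608)) (b (l 15064480) (b (l 15026752) (l 14996160)))))) (b (l 1) (b (b (a (l 15113184) (l 1)) (a (l 15085152) (l 15082624))) (b (a (l 15062080) (l 15072208)) (a (b (l 15038040) (l 15006344)) (b (l 15048304) (l 15031784))))))) (b (l 1) (b (a (b (l 1) (a (l 15077792) (l 1))) (l 1)) (a (b (a (l 15066832) (l 15042776)) (a (l 15053368) (l 15045480))) (b (a (l 14981816) (l 1)) (a (l 15002672) (l 14920696)))))))), by decide +kernel⟩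

theorem c_pm_112 : CertB 536870912 536870912 1073741824 536870912 966367641 24778659 3 eng mog cd0q1 cd3q2 pd1 false true false .dn 1 1 2
    ndB0q1 ndB3q2 pcB1 Cut.none Ext.none :=
  certB0 (fam := false) (s1 := true) (s2 := false) (a := 1) (b := 1) (c := 2) (cn := .dn) (n1 := ndB0q1) (n2 := ndB3q2) (pc := pcB1) (cut := Cut.none) (xt := Ext.none) (P1 := 536870912) (W1 := 536870912) (P2 := 1073741824) (W2 := 536870912) (P3 := 966367641) (W3 := 24778659) (N0 := 3) (En := eng) (mo := mog) (C1 := cd0q1) (C2 := cd3q2) (C3 := pd1)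
    rfl k0_pm_112

noncomputable def cut_pm_113 : Cut := Cut.of [[⟨0, 1, 0, 47710208⟩, ⟨1, 1, 0, 47710208⟩, ⟨2, 2, 0, 8388608⟩]]

noncomputable def f_pm_113 : ℕ → ℕ → ℕ → ℕ → Bool := onCell 536870912 536870912 0 1230186008 966367641 24778659
    (rowB 3 eng mog cd0q1 cd3q3 pd1 0 false true false .nn 1 1 3 (qsf 536870912 536870912 0 1230186008 1) ndB0q1 ndB3q3 pcB1 cut_pm_113 Ext.none)

def k0_pm_113 : ∃ t, chk3 f_pm_113 t 2 1 1 = true :=
  ⟨(b (l 2) (a (b (l 2) (l 4)) (a (b (l 2) (b (a (b (l 2) (l 4)) (b (b (l 2) (a (l 2) (l 14176864))) (b (c (l 200348905415) (l 55929749911)) (c (l 14356240) (l 14425632))))) (l 4))) (a (b (l 2) (b (b (b (l 14245872) (l 14323168)) (b (b (l 14377256) (l 14410464)) (b (l 14561080) (l 14504528)))) (b (b (b (l 14563728) (l 14631072)) (b (l 14695632) (l 14759856))) (l 4)))) (b (b (l 2) (b (l 2) (l 222897762279))) (b (b (b (l 14444152) (l 14494048)) (b (l 14545784) (c (l 14611040) (l 14600944)))) (b (b (c (l 14745120) (l 14681936)) (b (l 14761512) (l 14819000))) (b (b (l 14878904)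 (l 14935080)) (l 14998656))))))))), by decide +kernel⟩

def k1_pm_113 : ∃ t, chk3 f_pm_113 t 6 1 1 = true :=
  ⟨(b (l 2) (b (b (a (l 2) (b (l 15244728) (l 15146464))) (a (b (a (l 14513536) (l 14746136)) (a (l 14569656) (l 14763248))) (b (a (l 14971968) (l 15192744)) (a (l 14948840) (l 15133360))))) (b (a (b (a (l 14865376) (l 14793888)) (a (b (l 14692016) (l 14739192)) (l 15080696))) (b (a (l 14950064) (l 15102640)) (a (l 14979208) (l 15102616)))) (b (a (a (b (l 14898392) (b (l 14843912) (l 14888760))) (b (l 14904584) (l 15068464))) (b (l 15074392) (a (l 15054416) (l 15151392)))) (a (b (c (a (l 15012504) (l 15099552)) (a (l 14911800) (l 14955768))) (a (l 15057192) (b (l 15080552) (l 15123096)))) (b (a (l 15112320) (l 15187840)) (a (l 15168520) (l 15234320)))))))), by decide +kernel⟩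

def k2_pm_113 : ∃ t, chk3 f_pm_113 t 7 1 1 = true :=
  ⟨(b (b (a (l 2) (a (l 2) (b (l 6) (a (b (l 2) (l 16699280)) (b (l 16727752) (l 16781800)))))) (a (b (a (l 2) (b (l 2) (l 16475184))) (a (b (l 2) (l 15964720)) (b (l 16453616) (l 16349352)))) (b (a (b (a (l 2) (l 16626792)) (a (l 16554296) (l 16624632))) (b (a (l 16704784) (l 16793272)) (a (l 16709056) (l 16758936)))) (a (b (l 16521848) (l 16528256)) (b (a (l 16711080) (l 16805664)) (a (l 16701512) (l 16716136))))))) (b (b (a (b (a (l 15723936) (l 16034056)) (l 15673560)) (a (b (l 16252368) (l 15973896)) (b (l 16320296) (l 16027992)))) (a (b (a (l 15410128) (l 15608152)) (a (l 15311288) (l 15467776))) (a (b (l 15752008) (l 15577200)) (b (l 15801520) (l 15614760))))) (b (a (b (a (l 15245744) (l 15365704)) (a (l 15214160) (l 15301072))) (b (a (l 15443160) (l 15462152)) (a (l 15348456) (l 15346576)))) (a (a (b (l 15219752) (b (l 15251048) (l 15285040))) (b (l 15276280) (b (l 15286320) (l 15307928)))) (b (a (l 15316320) (b (l 15286080) (l 15259536))) (a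 (b (l 15285496) (l 15294952)) (b (l 15245104) (l 15243800)))))))), by decide +kernel⟩

theorem s3_pm_113 : ∃ t, chk3 f_pm_113 t 3 1 1 = true := ex3_a k1_pm_113 k2_pm_113

theorem s4_pm_113 : ∃ t, chk3 f_pm_113 t 1 1 1 = true := ex3_a k0_pm_113 s3_pm_113

theorem c_pm_113 : CertB 536870912 536870912 0 1230186008 966367641 24778659 3 eng mog cd0q1 cd3q3 pd1 false true false .nn 1 1 3
    ndB0q1 ndB3q3 pcB1 cut_pm_113 Ext.none :=
  certB0 (fam := false) (s1 := true) (s2 := false) (a := 1) (b := 1) (c := 3) (cn := .nn) (n1 := ndB0q1) (n2 := ndB3q3) (pc := pcB1) (cut := cut_pm_113) (xt := Ext.none) (P1 := 536870912) (W1 := 536870912) (P2 := 0) (W2 := 1230186008) (P3 := 966367641) (W3 := 24778659) (N0 := 3) (En := eng) (mo := mog) (C1 := cd0q1) (C2 := cd3q3) (C3 := pd1)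
    rfl s4_pm_113

noncomputable def cut_pm_123 : Cut := Cut.of [[⟨0, 1, 0, 47710208⟩, ⟨1, 1, 0, 47710208⟩, ⟨2, 2, 0, 8388608⟩]]

noncomputable def f_pm_123 : ℕ → ℕ → ℕ → ℕ → Bool := onCell 1073741824 536870912 0 1230186008 966367641 24778659
    (rowB 3 eng mog cd0q1 cd3q3 pd2 2 false true false .npn 1 2 3 (qsf 536870912 536870912 0 1230186008 2) ndB0q1 ndB3q3 pcB2 cut_pm_123 Ext.none)

def k0_pm_123 : ∃ t, chk3 f_pm_123 t 2 2 1 = true :=
  ⟨(a (a (b (a (b (l 6) (b (a (l 16742040) (l 16698592)) (a (l 16686360) (l 16636504)))) (b (a (b (l 16726088) (l 16697696)) (b (l 16689112) (l 16658824))) (b (a (l 16652808) (l 16608632)) (a (l 16586544) (l 16540080))))) (b (a (b (a (c (l 16609800) (l 16610896)) (l 16513200)) (a (b (l 16541624) (l 16491872)) (l 16460608))) (b (a (l 16503584) (l 16452944)) (b (l 16404696) (l 16352328)))) (a (b (c (l 16375256) (l 16386184)) (b (l 16133432) (l 15943656))) (b (b (l 16271648) (l 16111376)) (a (l 15917016) (l 15856760)))))) (a (b (a (b (l 16638248) (l 16531864)) (b (l 16604160)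 (l 16490344))) (b (b (l 16297656) (a (l 16300512) (l 16250136))) (b (l 16046160) (b (l 15851080) (l 15723032))))) (b (b (l 16554832) (b (l 16469464) (l 16387840))) (b (b (l 16225952) (l 16174800)) (b (l 15932600) (b (l 15761552) (l 15637544))))))) (b (a (b (a (l 16469112) (l 16419712)) (a (l 16201952) (l 16176936))) (b (a (l 16340680) (l 16256432)) (a (l 16125784) (l 16070728)))) (b (a (b (a (l 16193576) (l 16093320)) (a (l 16059224) (l 15947352))) (b (a (l 15988912) (l 15890264)) (a (l 15856920) (l 15798392)))) (a (a (b (l 15733392) (l 15635856)) (b (l 15763112) (l 15607136))) (a (b (l 15717800) (l 15606232)) (b (l 15705008) (l 15628824))))))), by decide +kernel⟩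

def k1_pm_123 : ∃ t, chk3 f_pm_123 t 3 2 1 = true :=
  ⟨(a (b (a (b (a (l 16170584) (l 16083688)) (a (l 15743392) (l 15659040))) (b (a (l 15996552) (l 15909904)) (a (l 15771792) (l 15812344)))) (a (b (a (b (l 15826296) (l 15777184)) (b (l 15803056) (l 15781312))) (a (b (l 15716112) (l 15670152)) (b (l 15745912) (l 15725424)))) (b (a (b (l 15814024) (l 15804488)) (l 15781328)) (a (l 15788656) (b (l 15849528) (l 15862656)))))) (b (a (b (a (l 15841016) (l 15807728)) (a (l 15827784) (l 15871432))) (b (a (l 15815144) (l 15865376)) (a (l 15927256) (l 15991992)))) (a (b (a (l 15889416) (l 15947656)) (a (b (l 15918728) (l 15924712)) (b (l 15983624) (l 4)))) (b (a (l 15803504) (b (l 16070560) (l 1))) (a (b (l 16031512) (l 1)) (l 1)))))), by decide +kernel⟩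

def k2_pm_123 : ∃ t, chk3 f_pm_123 t 1 3 1 = true :=
  ⟨(b (a (a (b (a (b (b (a (c (l 15841768) (l 15700696)) (l 15732376)) (a (a (l 15630856) (l 15564760)) (l 15492936))) (a (a (l 15307024) (l 15277344)) (b (l 15329136) (l 15178232)))) (b (a (a (l 15517880) (l 15490280)) (l 15465432)) (a (b (l 15305600) (l 15186640)) (c (l 15320768) (l 15212824))))) (a (b (a (b (l 15028264) (l 14936624)) (b (l 15040592) (l 14916280))) (a (b (a (l 14720800) (l 14750064)) (a (l 14589952) (l 14631848))) (b (l 14804752) (l 14831272)))) (a (b (b (l 15078792) (l 14982160)) (c (l 14927224) (l 14648944))) (b (b (l 15140680) (l 15069528)) (b (l 15008368) (a (l 14929248) (l 15013576))))))) (a (b (a (b (l 15458384) (c (l 15360984) (l 15260736))) (b (l 15475832) (l 15518232))) (b (a (c (l 15217192) (l 15177168)) (b (l 15313184) (l 15289808))) (a (a (b (l 15104680) (l 15102784)) (l 15183200)) (b (l 15290528) (l 4))))) (b (a (b (l 15515008) (l 15679520)) (b (l 15572168) (l 15539344))) (b (a (c (l 15426728) (l 15415776)) (a (l 15508776)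 (l 4))) (l 4))))) (a (b (a (a (b (l 15642920) (l 15634128)) (b (l 15720784) (l 15720016))) (b (a (l 15795312) (l 15858600)) (l 4))) (l 4)) (l 4))) (a (a (b (a (b (a (b (c (l 14493816) (l 14512672)) (a (l 14367472) (l 14462408))) (b (a (l 14585736) (l 14653448)) (a (l 14302672) (l 14639184)))) (a (b (a (c (l 14295352) (l 14371544)) (l 4)) (l 4)) (l 4))) (b (a (b (a (l 14736400) (l 14831376)) (l 4)) (l 4)) (l 4))) (l 4)) (l 4)) (l 1))), by decide +kernel⟩

theorem s3_pm_123 : ∃ t, chk3 f_pm_123 t 1 2 1 = true := ex3_a k0_pm_123 k1_pm_123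

theorem s4_pm_123 : ∃ t, chk3 f_pm_123 t 1 1 1 = true := ex3_b s3_pm_123 k2_pm_123

theorem c_pm_123 : CertB 536870912 536870912 0 1230186008 966367641 24778659 3 eng mog cd0q1 cd3q3 pd2 false true false .npn 1 2 3
    ndB0q1 ndB3q3 pcB2 cut_pm_123 Ext.none :=
  certB2 (fam := false) (s1 := true) (s2 := false) (a := 1) (b := 2) (c := 3) (cn := .npn) (n1 := ndB0q1) (n2 := ndB3q3) (pc := pcB2) (cut := cut_pm_123) (xt := Ext.none) (P1 := 536870912) (W1 := 536870912) (P2 := 0) (W2 := 1230186008) (P3 := 966367641) (W3 := 24778659) (N0 := 3) (En := eng) (mo := mog) (C1 := cd0q1) (C2 := cd3q3) (C3 := pd2)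
    rfl (fun _ => rfl) s4_pm_123

noncomputable def f_pm_133 : ℕ → ℕ → ℕ → ℕ → Bool := onCell 536870912 536870912 0 1230186008 966367641 24778659
    (rowB 3 eng mog cd0q1 cd3q3 pd3 0 false true false .dn 1 3 3 (qsf 536870912 536870912 0 1230186008 3) ndB0q1 ndB3q3 pcB3 Cut.none Ext.none)

def k0_pm_133 : ∃ t, chk3 f_pm_133 t 1 1 1 = true :=
  ⟨(b (b (a (a (a (b (c (l 16337640) (l 15865104)) (l 1)) (l 1)) (l 1)) (l 1)) (l 1)) (l 1)), by decide +kernel⟩

theorem c_pm_133 : CertB 536870912 536870912 0 1230186008 966367641 24778659 3 eng mog cd0q1 cd3q3 pd3 false true false .dn 1 3 3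
    ndB0q1 ndB3q3 pcB3 Cut.none Ext.none :=
  certB0 (fam := false) (s1 := true) (s2 := false) (a := 1) (b := 3) (c := 3) (cn := .dn) (n1 := ndB0q1) (n2 := ndB3q3) (pc := pcB3) (cut := Cut.none) (xt := Ext.none) (P1 := 536870912) (W1 := 536870912) (P2 := 0) (W2 := 1230186008) (P3 := 966367641) (W3 := 24778659) (N0 := 3) (En := eng) (mo := mog) (C1 := cd0q1) (C2 := cd3q3) (C3 := pd3)
    rfl k0_pm_133

noncomputable def f_pm_202 : ℕ → ℕ → ℕ → ℕ → Bool := onCell 0 536870912 0 536870912 966367641 24778659
    (rowB 3 eng mog cd0q2 cd3q2 pd0 1 false true false .pp 2 0 2 (qsf 0 536870912 1073741824 536870912 0) ndB0q2 ndB3q2 pcB0 Cut.none Ext.none)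

def k0_pm_202 : ∃ t, chk3 f_pm_202 t 4 4 1 = true :=
  ⟨(a (b (b (b (a (b (l 16231088) (l 16284632)) (c (l 16326016) (l 16422520))) (a (c (l 16297392) (l 16438872)) (l 16204864))) (b (b (l 16227128) (c (l 16197808) (l 16233648))) (a (b (c (l 16240592) (l 16263376)) (a (c (l 16361248) (l 16300592)) (l 16340808))) (l 16152416)))) (b (b (a (a (c (l 16473976) (l 16309504)) (l 16164248)) (c (l 16430608) (l 16187016))) (a (c (l 16386928) (l 16232464)) (a (l 16119560) (l 16215544)))) (b (a (c (c (l 16419144) (l 16363000)) (b (l 16217960) (l 16196792))) (c (l 16329408) (l 16186664))) (c (a (c (a (l 234779464887) (l 16425216)) (l 233168905559)) (c (l 16409928) (l 16307432))) (a (b (l 16223112) (l 220283709303)) (l 16144640)))))) (a (b (b (b (l 16454568) (l 16201936)) (b (l 16165360) (l 16151288))) (b (b (l 16280120) (l 16218024)) (b (c (l 16354600) (l 16154136)) (c (l 16310248) (l 16118112))))) (b (b (l 16373656) (b (l 16202288) (b (l 16264032) (l 16245856)))) (b (b (l 16241864) (l 16228216)) (b (l 16208864) (l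 16185064)))))), by decide +kernel⟩

def k1_pm_202 : ∃ t, chk3 f_pm_202 t 16 5 1 = true :=
  ⟨(b (b (c (c (b (a (l 214378566727) (l 16398168)) (b (l 217599707879) (l 214915331479))) (a (b (l 217062717495) (l 310478161303)) (b (l 16293872) (l 223505082807)))) (b (c (l 227799900183) (l 232094609607)) (a (l 301887910007) (b (l 16106768) (l 226189137015))))) (a (l 3) (b (c (c (a (l 308867739319) (l 214915321767)) (a (l 302961901735) (l 220820642839))) (b (l 221357264423) (l 217599133095))) (a (l 3) (c (c (l 267528622679) (l 283634479591)) (b (l 217062216103) (l 321215138887))))))) (l 3)), by decide +kernel⟩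

def k2_pm_202 : ∃ t, chk3 f_pm_202 t 17 10 1 = true :=
  ⟨(b (b (c (l 16202584) (l 16107120)) (c (b (l 16308224) (l 16317168)) (l 16117728))) (b (c (a (b (l 16292744) (l 16325344)) (l 16272592)) (b (l 16056072) (l 16065640))) (a (c (b (b (l 16298112) (l 16315256)) (c (l 211694007303) (l 214378188311))) (b (l 16065480) (a (l 222430885623) (l 16030992)))) (c (l 16296488) (l 16019848))))), by decide +kernel⟩

def k3_pm_202 : ∃ t, chk3 f_pm_202 t 17 11 1 = true :=
  ⟨(a (b (b (c (c (b (l 210083373799) (l 209546483255)) (a (b (l 211693808087) (l 277192013591)) (b (l 16200976) (l 16206104)))) (a (b (b (l 219209630007) (l 217062133367)) (a (l 3) (l 311014527943))) (b (l 16023720) (b (l 16019064) (l 221357064599))))) (a (l 3) (b (c (c (l 209546448007) (a (l 273433901975) (l 16188960))) (b (a (l 217598957031) (l 16011008)) (a (l 302961420055) (l 221357035895)))) (a (l 3) (c (c (l 247127407863) (l 270212647575)) (c (l 293834761335) (l 317456878247))))))) (l 3)) (b (b (c (b (l 16243984) (l 16259344)) (b (l 16007432)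 (l 16000736))) (b (c (c (l 16290320) (l 16176112)) (a (l 16001120) (l 15989376))) (c (a (c (l 16292008) (l 16177808)) (l 16225312)) (a (c (l 16079400) (l 15934376)) (l 15984832))))) (b (a (c (c (b (l 207935783671) (l 207398900247)) (b (b (l 211693693847) (l 211693683527)) (a (l 249811538471) (b (l 16170800) (l 211693663863))))) (c (b (a (b (l 16065608) (l 214377830455)) (l 16052464)) (a (l 263769941319) (b (l 214914686327) (l 214377805431)))) (b (b (l 218672602199) (l 217598847095)) (a (l 277191463815) (b (l 15946536) (l 217061951271)))))) (c (b (c (l 16279560) (l 16164120)) (c (l 16277696) (l 16161984))) (b (l 15974088) (c (l 16040992) (l 15936216))))) (b (a (b (c (c (l 231021279303) (l 242295337127)) (c (l 253569384391) (l 264306551255))) (l 3)) (c (c (l 206862008567) (a (b (l 16163744) (l 211156773143)) (l 16157664))) (c (a (b (l 16042792) (l 213840913271)) (l 16036208)) (a (b (l 15938048) (l 216525057623)) (l 15909960))))) (a (l 3) (b (c (c (l 209009480871) (a (l 228336635895) (l 16157040))) (a (c (l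 236926355287) (l 246052949559)) (c (l 16035448) (l 15909064)))) (a (l 3) (c (c (l 208472594807) (l 209546143735)) (c (a (l 214914639335) (l 16033560)) (a (l 235315522407) (l 15906984))))))))))), by decide +kernel⟩

def k4_pm_202 : ∃ t, chk3 f_pm_202 t 9 5 1 = true :=
  ⟨(c (b (b (a (b (l 16301448) (l 16273656)) (l 16127704)) (a (b (l 16249784) (l 16229128)) (b (l 16216424) (l 16192928)))) (b (a (b (l 16255024) (a (l 16232776) (l 16191368))) (b (l 16175576) (l 16160496))) (a (b (a (b (l 16206464) (l 16203944)) (l 16183112)) (a (b (c (l 16260128) (l 16142840)) (a (c (l 16264800) (l 16147840)) (l 16195288))) (l 16178256))) (b (l 16149720) (l 16142664))))) (b (b (a (b (l 16077312) (l 16041952)) (l 15839296)) (a (b (l 16013424) (l 15989200)) (b (l 15974800) (l 15944624)))) (b (a (b (l 15970432) (a (l 15968952) (l 15944536))) (b (l 15923984) (l 15906536))) (a (b (a (b (l 15962376) (l 15938272)) (l 15934704)) (a (b (b (l 15957496) (l 15946120)) (a (c (l 16025512) (l 15898352)) (l 15948832))) (l 15907936))) (b (l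 15894104) (l 15886096)))))), by decide +kernel⟩

def k5_pm_202 : ∃ t, chk3 f_pm_202 t 5 2 1 = true :=
  ⟨(b (a (b (b (l 16034552) (b (l 16217104) (b (l 16179600) (b (l 16162392) (l 16159904))))) (b (b (a (l 16119944) (l 16123672)) (a (l 16172320) (l 16118120))) (b (l 15922384) (l 15993592)))) (b (b (b (l 16139776) (l 16140008)) (b (l 16095504) (l 15819880))) (b (b (l 16030656) (l 16020056)) (b (l 15889216) (a (l 16043440) (l 15975120)))))) (b (a (b (c (l 16180008) (l 15961824)) (b (l 15861256) (a (l 16030872) (l 15977456)))) (b (a (l 15953592) (l 15773720)) (c (l 16021712) (l 15784176)))) (a (b (a (b (c (l 16134984) (l 15876040)) (c (l 16116112) (l 15851008))) (l 15692184)) (a (c (l 16097128) (b (l 15835072) (l 15824960))) (c (l 16047920) (l 15769880)))) (b (c (l 15982616) (l 15721264)) (c (l 15952112) (l 15671416)))))), by decide +kernel⟩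

def k6_pm_202 : ∃ t, chk3 f_pm_202 t 4 24 1 = true :=
  ⟨(b (a (b (a (l 3) (a (l 3) (a (l 3) (a (l 3) (c (c (l 211693818119) (b (l 217062332423) (l 216525504471))) (c (c (l 220283419623) (l 222430778743)) (b (a (l 229946807463) (l 215988162263)) (l 224578069815)))))))) (l 3)) (a (b (a (a (c (c (l 204714486919) (a (b (l 16150664) (l 207935517415)) (l 16144464))) (a (b (c (l 16028496) (l 15901496)) (c (l 210619656183) (l 212766927943))) (c (l 16021808) (l 15894296)))) (c (l 16194784) (l 15927184))) (c (l 16176560) (l 15926912))) (a (a (c (c (a (b (l 208472604823) (l 212230698103)) (l 194513952215)) (a (b (l 210619869015) (l 212767397687)) (b (l 16144640) (l 16123920)))) (c (a (b (a (l 215451492391) (l 209009038839)) (l 215451507127)) (b (l 16021952) (l 202566579559))) (a (b (a (l 218672505463) (l 212766923047)) (l 218672477751)) (b (l 15894400) (l 207935076135))))) (c (c (l 16253152) (l 16135216)) (c (l 16011808) (l 15883512)))) (c (l 16176296) (l 15905640)))) (c (l 16138920) (l 15882024)))) (a (l 3) (b (a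 (a (a (a (l 3) (c (b (c (l 206325109655) (l 208472373303)) (c (l 211693816295) (l 212767338039))) (c (b (a (l 213840867847) (l 16020960)) (l 214914604887)) (b (a (l 215988139095) (l 15893288)) (l 217061875703))))) (b (c (c (l 16253600) (l 16135712)) (c (l 16012336) (l 15884048))) (c (c (l 16254056) (l 16136224)) (c (l 16012880) (l 15905592))))) (c (a (l 16183000) (l 16170280)) (a (l 15934472) (l 15919648)))) (c (l 16138008) (l 15881248))) (a (a (a (l 3) (c (c (b (l 200956385511) (l 204177613879)) (a (b (l 206324878775) (l 211156715319)) (l 16133952))) (c (a (b (l 208472145703) (l 213303981911)) (l 16010456)) (a (b (l 210082545959) (l 214914381511)) (l 15882032))))) (c (c (l 16236424) (l 16117248)) (c (l 15992496) (l 15862784)))) (c (l 16138240) (l 15881744)))))), by decide +kernel⟩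

def k7_pm_202 : ∃ t, chk3 f_pm_202 t 5 24 1 = true :=
  ⟨(a (a (c (l 16085472) (l 15816312)) (c (l 16026664) (b (l 15746288) (l 15742960)))) (a (c (l 15970704) (l 15677336)) (l 15751912))), by decide +kernel⟩

def k8_pm_202 : ∃ t, chk3 f_pm_202 t 2 25 1 = true :=
  ⟨(a (a (l 3) (b (a (a (a (l 3) (c (c (b (b (l 207398837207) (l 208472641495)) (l 222968155559)) (b (a (l 216525473495) (b (l 16114080) (l 209009222151))) (l 225652274007))) (a (b (c (l 219209581207) (l 221356808135)) (l 3)) (c (b (b (l 175723010231) (l 210619618023)) (l 225115152951)) (b (b (l 178944022263) (l 212230018087)) (l 227799250407)))))) (c (b (a (c (l 16244064) (l 16125600)) (l 16172440)) (a (b (c (l 16245384) (l 16127104)) (c (l 202566982263) (l 204177369783))) (l 16174288))) (a (c (b (l 16001552) (a (b (l 16006848) (l 210619609367)) (l 16000240))) (b (l 15872528) (a (b (l 15878216) (l 212230009511)) (l 15871184)))) (c (l 15987936) (l 15878936))))) (b (c (l 16139064) (l 15862000)) (c (a (l 16154104) (l 16126712)) (l 15879632)))) (a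 (a (l 3) (a (c (c (b (a (l 233168622183) (l 202030105831)) (l 224578712103)) (b (a (l 235852810791) (b (l 16126152) (l 205787979255))) (b (l 222431034199) (l 230484098071)))) (b (a (b (c (l 239073766855) (l 241221037575)) (l 3)) (b (c (l 16002304) (l 15873448)) (c (l 207398375943) (l 208471905799)))) (c (b (l 220283282039) (l 232094463159)) (b (l 221893679143) (l 234241689111))))) (b (c (c (l 16235248) (l 16116376)) (c (l 15991832) (l 15862264))) (c (b (c (l 16237072) (l 16118488)) (c (l 196661383223) (l 198271772935))) (b (c (l 15994208) (l 15864888)) (a (c (l 203103401607) (l 203640060439)) (l 15928016))))))) (a (c (b (l 16156160) (a (l 16144592) (l 16151720))) (b (l 15924768) (b (l 15906168) (l 15907920)))) (c (l 16129504) (l 15872256)))))) (a (b (c (l 16075632) (l 15800136)) (a (c (l 16086248) (l 15819608)) (l 15866320))) (a (c (l 15957336) (l 15658488)) (c (l 15890360) (l 15583240))))), by decide +kernel⟩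

def k9_pm_202 : ∃ t, chk3 f_pm_202 t 8 13 1 = true :=
  ⟨(l 3), by decide +kernel⟩

def k10_pm_202 : ∃ t, chk3 f_pm_202 t 9 26 1 = true :=
  ⟨(b (a (a (l 3) (a (l 3) (a (b (c (c (l 215451869511) (b (l 210619810519) (l 222431024839))) (c (b (l 212230207975) (l 224041390071)) (b (l 213303738039) (l 225651745191)))) (l 3)) (b (c (c (l 195587636551) (a (l 198271773415) (l 16117160))) (b (c (l 15993944) (l 15864744)) (c (l 198271556775) (l 198808216199)))) (c (c (l 210083155911) (b (l 207398578551) (l 217599126567))) (b (c (l 208472105863) (l 209545636151)) (c (l 218672675031) (l 220819901095)))))))) (a (c (c (b (l 16220608) (a (l 189145184999) (l 16216872))) (b (l 16100912) (c (l 16134784) (l 186997444103)))) (b (c (l 15975448) (l 15844904)) (a (b (c (l 15986264) (l 15856656)) (c (l 15988384) (l 15859032))) (l 15906784)))) (c (l 16134784) (b (l 15877344) (l 15881432))))) (a (l 3) (a (a (a (b (c (c (l 207398796711) (b (l 203103605319) (l 214377896087))) (b (c (l 204177133495) (l 204713793207)) (c (l 215451424423)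 (l 216524955671)))) (l 3)) (b (c (c (l 16230400) (l 16112096)) (c (l 15987976) (l 15858760))) (c (c (l 204177567143) (b (l 198808632903) (l 210619795319))) (b (c (l 199345290679) (l 199345080615)) (c (l 211693324647) (l 212229985607)))))) (c (b (c (l 16220232) (l 16101048)) (c (l 16224008) (l 16105520))) (b (c (l 15976040) (l 15845920)) (c (l 15981168) (l 15851688))))) (c (b (l 16139888) (l 16122944)) (c (l 15954072) (l 15822288)))))), by decide +kernel⟩

def k11_pm_202 : ∃ t, chk3 f_pm_202 t 9 27 1 = true :=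
  ⟨(b (a (l 3) (b (b (a (a (b (c (l 222431091431) (a (l 3) (l 224578120567))) (l 3)) (c (c (l 16227024) (l 177870656007)) (c (l 177333572855) (l 176796492215)))) (c (l 16147232) (l 15895960))) (a (a (l 3) (c (c (l 197735110183) (l 198808625671)) (a (c (l 208472096535) (l 209008758903)) (l 15920496)))) (c (l 16128616) (l 15899112)))) (b (a (b (a (l 2) (c (a (l 219209842231) (l 16169592)) (c (l 204713997287) (l 204713788727)))) (l 2)) (c (l 16131072) (l 153644005687))) (l 2)))) (l 2)), by decide +kernel⟩

def k12_pm_202 : ∃ t, chk3 f_pm_202 t 5 13 1 = true :=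
  ⟨(a (a (b (c (b (l 16090704) (l 16097200)) (b (l 15825984) (l 15813992))) (a (b (c (l 16121080) (l 15865232)) (l 2)) (c (l 159013055463) (l 162233766679)))) (b (c (l 16031064) (l 15752664)) (c (l 16046696) (l 15774888)))) (b (a (c (l 15962952) (l 15667344)) (c (l 15888184) (l 15576816))) (a (c (l 15976744) (l 15688000)) (c (l 15897440) (l 15589712))))), by decide +kernel⟩

def k13_pm_202 : ∃ t, chk3 f_pm_202 t 2 7 1 = true :=
  ⟨(b (a (l 2) (a (l 2) (b (c (l 1208058566055) (l 1218795360439)) (l 2)))) (l 2)), by decide +kernel⟩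

def k14_pm_202 : ∃ t, chk3 f_pm_202 t 6 2 1 = true :=
  ⟨(b (a (b (b (a (l 15975440) (b (l 16008152) (l 15968496))) (b (l 15941112) (b (l 15928872) (l 15910184)))) (b (b (l 15873992) (l 15878552)) (b (l 15866600) (l 15858648)))) (b (b (a (b (l 15932584) (l 15893608)) (b (a (l 15870696) (l 15799560)) (l 15810216))) (b (a (l 15853048) (l 15770728)) (a (l 15811840) (l 15730560)))) (b (b (l 15532528) (l 15676480)) (b (l 15699088) (l 15683992))))) (b (a (b (l 15826184) (a (l 15770408) (l 15735504))) (b (l 15565216) (l 15599672))) (a (b (a (l 15755592) (l 15681488)) (l 15565592)) (b (a (l 15599656) (l 15501400)) (a (l 15547304) (l 15457152)))))), by decide +kernel⟩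

def k15_pm_202 : ∃ t, chk3 f_pm_202 t 7 2 1 = true :=
  ⟨(b (a (b (b (a (b (a (b (l 15764432) (l 15756400)) (l 15684888)) (b (l 15691096) (l 15676312))) (b (a (l 15605720) (b (l 15524904) (l 15517104))) (a (l 15587728) (l 15504392)))) (a (b (b (l 15657856) (l 15638360)) (l 15630760)) (b (c (l 15574688) (l 15479128)) (l 15489400)))) (b (a (b (l 15601136) (l 15570640)) (b (l 15482648) (l 15426648))) (a (l 15533352) (a (l 15420640) (l 15350216))))) (b (b (a (b (a (b (l 15433264) (l 15426144)) (b (l 15336304) (l 15329896))) (a (l 15414504) (l 15319424))) (a (b (b (a (l 15261192) (l 15210248)) (l 15230136)) (b (l 15224160) (l 15217792))) (b (a (b (b (l 15160176) (l 15157792)) (l 15154088)) (b (c (l 15123240) (l 15092632)) (l 15103608))) (a (l 15146120) (l 15096624))))) (a (b (a (l 15397440) (l 15304024)) (a (l 15378632) (l 15286944))) (a (b (l 15207440) (l 15192264)) (b (l 15109920) (l 15096824))))) (b (a (l 15177512) (b (a (l 15175520) (l 15082120)) (l 15111408))) (a (a (l 15279168) (l 15213264)) (c (l 15151784)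 (l 15013064)))))) (a (b (a (b (l 15485712) (l 15436240)) (b (l 15356880) (l 15307376))) (a (l 15303320) (l 15197336))) (b (a (b (l 15202592) (l 15158792)) (b (b (l 15052360) (l 15034088)) (l 14977864))) (b (c (l 15131872) (l 14919696)) (l 14846752))))), by decide +kernel⟩

def k16_pm_202 : ∃ t, chk3 f_pm_202 t 3 3 1 = true :=
  ⟨(a (b (b (a (b (c (l 15780784) (l 15483672)) (c (l 15765976) (l 15455024))) (b (a (l 15505472) (l 15406504)) (l 15362528))) (a (b (c (l 15762912) (l 15442480)) (a (c (l 15818624) (l 15476120)) (l 15564736))) (c (l 15568856) (l 15240712)))) (b (a (b (a (c (l 15833360) (l 15515912)) (l 196592928471)) (l 2)) (c (l 178339304039) (b (l 15250712) (l 15277888)))) (l 2))) (b (b (a (b (a (l 15300400) (l 15174784)) (a (l 15255688) (l 15133504))) (a (l 15013968) (l 14862088))) (a (a (b (l 15229384) (l 15222320)) (b (l 15095888) (l 15075552))) (a (b (l 14956672) (l 14925336)) (l 14796400)))) (b (a (c (l 15335008) (b (l 14987984) (l 15008624))) (a (b (l 14911280) (l 14929880)) (b (l 14752704)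 (l 14744576)))) (a (c (l 364096592199) (l 424762315895)) (c (l 15039080) (l 136999150231)))))), by decide +kernel⟩

theorem s17_pm_202 : ∃ t, chk3 f_pm_202 t 3 2 1 = true := ex3_a k14_pm_202 k15_pm_202

theorem s18_pm_202 : ∃ t, chk3 f_pm_202 t 3 1 1 = true := ex3_b s17_pm_202 k16_pm_202

theorem s19_pm_202 : ∃ t, chk3 f_pm_202 t 9 13 1 = true := ex3_b k10_pm_202 k11_pm_202

theorem s20_pm_202 : ∃ t, chk3 f_pm_202 t 4 13 1 = true := ex3_a k9_pm_202 s19_pm_202

theorem s21_pm_202 : ∃ t, chk3 f_pm_202 t 2 13 1 = true := ex3_a s20_pm_202 k12_pm_202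

theorem s22_pm_202 : ∃ t, chk3 f_pm_202 t 2 24 1 = true := ex3_a k6_pm_202 k7_pm_202

theorem s23_pm_202 : ∃ t, chk3 f_pm_202 t 2 12 1 = true := ex3_b s22_pm_202 k8_pm_202

theorem s24_pm_202 : ∃ t, chk3 f_pm_202 t 2 6 1 = true := ex3_b s23_pm_202 s21_pm_202

theorem s25_pm_202 : ∃ t, chk3 f_pm_202 t 2 3 1 = true := ex3_b s24_pm_202 k13_pm_202

theorem s26_pm_202 : ∃ t, chk3 f_pm_202 t 17 5 1 = true := ex3_b k2_pm_202 k3_pm_202

theorem s27_pm_202 : ∃ t, chk3 f_pm_202 t 8 5 1 = true := ex3_a k1_pm_202 s26_pm_202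

theorem s28_pm_202 : ∃ t, chk3 f_pm_202 t 4 5 1 = true := ex3_a s27_pm_202 k4_pm_202

theorem s29_pm_202 : ∃ t, chk3 f_pm_202 t 4 2 1 = true := ex3_b k0_pm_202 s28_pm_202

theorem s30_pm_202 : ∃ t, chk3 f_pm_202 t 2 2 1 = true := ex3_a s29_pm_202 k5_pm_202

theorem s31_pm_202 : ∃ t, chk3 f_pm_202 t 2 1 1 = true := ex3_b s30_pm_202 s25_pm_202

theorem s32_pm_202 : ∃ t, chk3 f_pm_202 t 1 1 1 = true := ex3_a s31_pm_202 s18_pm_202

theorem c_pm_202 : CertB 0 536870912 1073741824 536870912 966367641 24778659 3 eng mog cd0q2 cd3q2 pd0 false true false .pp 2 0 2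
    ndB0q2 ndB3q2 pcB0 Cut.none Ext.none :=
  certB1 (fam := false) (s1 := true) (s2 := false) (a := 2) (b := 0) (c := 2) (cn := .pp) (n1 := ndB0q2) (n2 := ndB3q2) (pc := pcB0) (cut := Cut.none) (xt := Ext.none) (P1 := 0) (W1 := 536870912) (P2 := 1073741824) (W2 := 536870912) (P3 := 966367641) (W3 := 24778659) (N0 := 3) (En := eng) (mo := mog) (C1 := cd0q2) (C2 := cd3q2) (C3 := pd0)
    rfl (fun _ => rfl) s32_pm_202

noncomputable def f_pm_203 : ℕ → ℕ → ℕ → ℕ → Bool := onCell 0 536870912 0 1230186008 966367641 24778659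
    (rowB 3 eng mog cd0q2 cd3q3 pd0 0 false true false .up 2 0 3 (qsf 0 536870912 0 1230186008 0) ndB0q2 ndB3q3 pcB0 Cut.none Ext.none)

def k0_pm_203 : ∃ t, chk3 f_pm_203 t 1 2 1 = true :=
  ⟨(l 2), by decide +kernel⟩

def k1_pm_203 : ∃ t, chk3 f_pm_203 t 1 6 1 = true :=
  ⟨(l 2), by decide +kernel⟩

def k2_pm_203 : ∃ t, chk3 f_pm_203 t 2 14 1 = true :=
  ⟨(a (l 3) (b (l 2) (b (l 2) (a (a (l 3) (b (l 2) (c (a (l 239611483655) (l 16381008)) (a (l 252495999431) (l 16225184))))) (a (a (c (l 16253416) (l 154718298071)) (l 2)) (l 2)))))), by decide +kernel⟩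

def k3_pm_203 : ∃ t, chk3 f_pm_203 t 2 15 1 = true :=
  ⟨(b (a (l 3) (a (b (a (a (l 3) (b (l 3) (c (l 247127573719) (l 253569708535)))) (c (b (c (l 196661875383) (l 195588102759)) (c (l 16524808) (l 16406216))) (b (a (l 224041801943) (l 16202808)) (a (l 159617250407) (l 16181240))))) (a (b (a (l 3) (c (l 223505200935) (b (l 234779203255) (l 219746801927)))) (c (a (l 244443159831) (l 170891814871)) (c (l 224578781015) (a (l 243369056935) (l 16130504))))) (c (c (l 16504976) (l 16375104)) (b (a (l 16195544) (l 16161152)) (l 16139688))))) (c (b (a (c (l 16475520) (l 16351680)) (l 16354704)) (a (l 16288808) (l 16342584))) (b (a (b (l 16150776) (l 16127808)) (l 16062832)) (a (b (l 16106368) (l 16086864)) (l 16016176)))))) (a (a (l 3) (a (l 3) (a (b (l 3) (b (l 3) (c (b (l 235316467735) (l 227263341799)) (c (l 228873844615) (l 229410350375))))) (b (b (l 3) (b (l 3) (c (l 233705797127) (l 236389825399)))) (c (b (c (l 223505362791) (l 225115808519)) (c (l 16417304) (l 16383984))) (b (c (l 217599506647) (l 217599150487))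 (c (l 16324976) (l 182165662919)))))))) (a (b (b (c (a (a (c (l 16501296) (l 222968498711)) (l 16376152)) (l 16378184)) (a (b (a (l 230484227015) (l 16200568)) (c (l 205251407639) (l 198271821159))) (l 16145080))) (c (a (c (l 16496520) (l 163375548935)) (l 16420944)) (a (a (c (l 16301608) (l 16110728)) (l 16185272)) (l 16132216)))) (c (a (b (a (l 16364536) (l 16464864)) (l 16294784)) (c (l 16542920) (l 16387120))) (c (a (b (l 16280848) (l 16278480)) (l 16211736)) (a (b (l 16103096) (l 16095032)) (l 16023664))))) (c (b (c (l 16446824) (l 16287712)) (c (l 16456632) (l 16284672))) (b (a (l 16062224) (l 15978536)) (a (l 16040416) (l 15953736))))))), by decide +kernel⟩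

def k4_pm_203 : ∃ t, chk3 f_pm_203 t 3 7 1 = true :=
  ⟨(b (l 2) (a (b (a (c (b (l 16104400) (l 16086936)) (b (a (l 15980576) (l 15893480)) (a (l 15929640) (l 15837832)))) (b (l 2) (a (c (l 16109248) (l 15737072)) (c (l 16017592) (l 15638336))))) (a (b (c (a (l 16262576) (l 16180448)) (a (l 15887968) (l 15789360))) (c (a (l 16239856) (l 16180968)) (a (l 15857512) (l 15764528)))) (b (a (c (l 16095784) (l 15693816)) (l 15671296)) (c (l 16037248) (l 15611680))))) (b (a (b (l 2) (a (l 15720784) (l 2))) (l 2)) (a (c (b (l 15811360) (l 15793536)) (b (l 15409280) (l 15370200))) (b (a (l 15395440) (l 2)) (a (l 15356392) (l 15180088))))))), by decide +kernel⟩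

theorem s5_pm_203 : ∃ t, chk3 f_pm_203 t 2 7 1 = true := ex3_b k2_pm_203 k3_pm_203

theorem s6_pm_203 : ∃ t, chk3 f_pm_203 t 1 7 1 = true := ex3_a s5_pm_203 k4_pm_203

theorem s7_pm_203 : ∃ t, chk3 f_pm_203 t 1 3 1 = true := ex3_b k1_pm_203 s6_pm_203

theorem s8_pm_203 : ∃ t, chk3 f_pm_203 t 1 1 1 = true := ex3_b k0_pm_203 s7_pm_203

theorem c_pm_203 : CertB 0 536870912 0 1230186008 966367641 24778659 3 eng mog cd0q2 cd3q3 pd0 false true false .up 2 0 3
    ndB0q2 ndB3q3 pcB0 Cut.none Ext.none :=
  certB0 (fam := false) (s1 := true) (s2 := false) (a := 2) (b := 0) (c := 3) (cn := .up) (n1 := ndB0q2) (n2 := ndB3q3) (pc := pcB0) (cut := Cut.none) (xt := Ext.none) (P1 := 0) (W1 := 536870912) (P2 := 0) (W2 := 1230186008) (P3 := 966367641) (W3 := 24778659) (N0 := 3) (En := eng) (mo := mog) (C1 := cd0q2) (C2 := cd3q3) (C3 := pd0)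
    rfl s8_pm_203

end Pool.Agent.Strip051.G.I9000_9231.Tab.C.BB03

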