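import Pool.Agent.Strip051.G.I9000_9231.Tab
import Pool.Agent.Strip051.PB.ExtD2

/-! # Certificates B15 (generated) -/

set_option linter.all false
set_option maxRecDepth 100000

namespace Pool.Agent.Strip051.G.I9000_9231.Tab.C.BB03

open Pool.Agent.Strip051.PB Pool.Agent.Strip051.PB.T
open Pool.Agent.Strip051.G.I9000_9231.Tab

noncomputable def cut_pm_213 : Cut := Cut.of [[⟨0, 1, 0, 47710208⟩, ⟨1, 1, 0, 47710208⟩, ⟨2, 2, 0, 8388608⟩]]

noncomputable def xt_pm_213 : Ext := extD2 3 ⟨4, 1, 1, 5, 37, 10, 843, 1000, 41, 100, 1, 8⟩ eng cd0q2 cd3q3 pd1 false true false .pnn 2 1 3 rfl ndB0q2 ndB3q3 pcB1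

noncomputable def f_pm_213 : ℕ → ℕ → ℕ → ℕ → Bool := onCell 0 536870912 0 1230186008 966367641 24778659
    (rowB 3 eng mog cd0q2 cd3q3 pd1 0 false true false .pnn 2 1 3 (qsf 0 536870912 0 1230186008 1) ndB0q2 ndB3q3 pcB1 cut_pm_213 xt_pm_213)

def k0_pm_213 : ∃ t, chk3 f_pm_213 t 2 2 1 = true :=
  ⟨(l 3), by decide +kernel⟩

def k1_pm_213 : ∃ t, chk3 f_pm_213 t 6 4 1 = true :=
  ⟨(l 3), by decide +kernel⟩

def k2_pm_213 : ∃ t, chk3 f_pm_213 t 14 8 1 = true :=
  ⟨(l 3), by decide +kernel⟩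

def k3_pm_213 : ∃ t, chk3 f_pm_213 t 28 9 1 = true :=
  ⟨(l 3), by decide +kernel⟩

def k4_pm_213 : ∃ t, chk3 f_pm_213 t 29 18 1 = true :=
  ⟨(a (l 3) (b (l 3) (a (l 3) (b (l 3) (a (l 3) (b (l 3) (a (l 3) (b (l 3) (a (c (l 226190423959) (l 299741727175)) (c (l 188609460727) (l 184314481559))))))))))), by decide +kernel⟩

def k5_pm_213 : ∃ t, chk3 f_pm_213 t 29 38 1 = true :=
  ⟨(a (l 3) (b (b (a (l 3) (b (a (l 3) (a (a (l 3) (c (l 184314493687) (l 245517766695))) (c (l 190220067111) (l 183240755063)))) (a (a (l 3) (c (l 295446761783) (l 298667987751))) (a (c (l 188609451559) (l 184851365927)) (l 16758952))))) (a (l 3) (a (a (a (l 3) (b (l 3) (c (l 185388216663) (l 201494356551)))) (b (c (l 186461968295) (l 223506075495)) (c (l 188609455271) (l 181630145783)))) (a (c (l 16772696) (l 16762848)) (l 16759952))))) (a (b (a (l 3) (a (l 3) (b (c (l 223506061735) (l 273435059527)) (c (l 186998841479) (l 188609457927))))) (a (a (l 3) (b (l 3) (c (l 183777616615) (l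 234780358679)))) (c (a (b (l 185388229079) (l 187535714455)) (b (l 187535714599) (l 16779920))) (a (b (l 200957500615) (l 190220074375)) (l 179482664311))))) (a (b (a (c (b (l 189146324727) (l 16778904)) (l 188609468103)) (l 16761208)) (l 16762792)) (l 16762216))))), by decide +kernel⟩

def k6_pm_213 : ∃ t, chk3 f_pm_213 t 29 39 1 = true :=
  ⟨(a (a (l 3) (b (a (l 3) (b (l 3) (a (l 3) (c (c (a (l 186998840775) (l 185388228855)) (l 185925108423)) (b (l 197736270727) (l 188609468119)))))) (a (b (a (l 3) (a (l 3) (b (l 3) (b (l 3) (c (l 186998838247) (l 190220082839)))))) (a (b (l 3) (c (c (a (l 187535715799) (l 183777620231)) (l 186998845639)) (c (a (l 200957500103) (l 201494371879)) (a (l 171966466567) (l 166597757063))))) (b (c (c (l 190220070279) (l 187535715671)) (a (l 3242339048349988887292608607) (l 172503351543))) (a (c (l 182167010391) (b (l 172503351447) (l 16770280))) (l 16768536))))) (b (a (c (c (b (l 188072584247) (l 185925102535)) (l 182167014999))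 (b (c (l 202031237079) (l 172503338103)) (l 172503351607))) (b (c (l 183777620647) (l 174650834455)) (l 16767200))) (a (c (l 16762992) (l 16770184)) (l 16769088)))))) (a (b (a (a (b (b (l 3) (c (a (l 183777607975) (l 187535705191)) (l 199346882375))) (b (c (l 186461972743) (l 175187702247)) (l 16774984))) (b (c (b (l 188072585799) (l 185925103255)) (b (l 189683204759) (l 177335185511))) (l 16765472))) (b (c (l 16773000) (l 16768352)) (l 16766128))) (a (b (l 16767504) (l 16769984)) (l 16769584))) (b (l 16765824) (l 16791256)))), by decide +kernel⟩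

def k7_pm_213 : ∃ t, chk3 f_pm_213 t 15 8 1 = true :=
  ⟨(a (a (l 3) (l 6)) (b (l 6) (l 6))), by decide +kernel⟩

def k8_pm_213 : ∃ t, chk3 f_pm_213 t 60 36 1 = true :=
  ⟨(a (l 3) (b (a (l 3) (b (l 3) (a (l 3) (b (l 3) (a (c (l 331953988775) (l 362018765831)) (b (a (l 3) (c (l 229948516471) (l 246591518071))) (c (l 189683195559) (a (l 226190426215) (l 16777360))))))))) (a (b (l 3) (a (b (l 3) (a (l 3) (b (l 3) (c (l 227801029783) (l 301889220375))))) (a (c (b (l 304573569527) (b (l 190220071399) (l 193441293863))) (b (l 329806511911) (b (l 248739002711) (l 16777888)))) (b (b (a (l 3) (c (l 188609458679) (l 247665263159))) (c (l 188609455543) (l 189146330471))) (l 16774064))))) (b (a (b (a (l 3) (a (l 3) (b (l 3) (c (l 187535716919) (l 247128391847))))) (a (b (c (l 305110446055) (l 329806511863)) (c (a (l 227264164231) (l 189146326839)) (a (l 302962966823) (l 188609459751)))) (b (c (l 190220071607) (a (l 225653555591) (l 16777488))) (l 16773920)))) (b (c (a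 (b (a (l 227264164311) (l 192367552647)) (l 193978165335)) (l 16775584)) (a (b (a (l 304573579191) (l 188072588839)) (l 188609459911)) (l 16777416))) (l 16771280))) (a (a (b (c (l 194515035687) (l 189146330791)) (l 16776688)) (l 16776624)) (l 16776608)))))), by decide +kernel⟩

def k9_pm_213 : ∃ t, chk3 f_pm_213 t 60 37 1 = true :=
  ⟨(a (a (a (b (l 3) (b (a (l 3) (b (l 3) (c (l 227264159767) (l 300278611559)))) (c (b (l 187535707879) (l 16776632)) (b (a (l 224042938135) (l 16775200)) (l 16781096))))) (b (l 3) (b (c (b (a (l 247128382887) (l 189683201223)) (l 189146324999)) (b (a (l 301889228295) (l 225116677991)) (l 185925106823))) (l 16768152)))) (b (b (a (l 3) (b (l 3) (c (a (l 302426086103) (b (l 228337906055) (l 189146325895))) (a (l 328732771559) (b (l 246054646279) (l 188072589399)))))) (a (b (a (l 3) (b (l 3) (c (l 186461975159) (l 245517781591)))) (b (a (c (l 225653551591) (l 301889227495)) (l 185925099623)) (c (l 188609454279) (l 186461976983))))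 (b (c (l 189683196039) (c (l 189683202247) (l 188609461319))) (l 16766928)))) (a (b (a (c (l 16773432) (l 16769176)) (l 16756888)) (l 16778672)) (l 16757264)))) (b (a (b (c (a (b (a (b (l 247665258519) (l 185925104183)) (l 190756938631)) (l 194515035047)) (l 16775632)) (a (b (a (b (l 303499838327) (l 225116685895)) (l 190220072391)) (l 16773096)) (l 16778192))) (l 16766832)) (l 16756040)) (l 16757176))), by decide +kernel⟩

def k10_pm_213 : ∃ t, chk3 f_pm_213 t 61 18 1 = true :=
  ⟨(b (a (b (b (l 6) (a (a (b (a (b (l 3) (c (a (l 248739000919) (l 192367555511)) (a (l 306184191719) (l 228337909863)))) (c (c (l 192904423031) (l 194515039959)) (a (b (l 248202130855) (l 16777328)) (l 191293814583)))) (c (c (l 196662519959) (l 194515038311)) (l 190220071991))) (c (l 16775576) (l 16777320))) (l 16776304))) (a (b (l 16771200) (l 16776528)) (l 16776240))) (b (l 16765320) (l 16775672))) (a (l 16766528) (l 16776200))), by decide +kernel⟩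

def k11_pm_213 : ∃ t, chk3 f_pm_213 t 30 19 1 = true :=
  ⟨(a (b (a (b (a (b (l 16758712) (l 16780960)) (l 16780200)) (l 16783112)) (l 16780928)) (a (l 16767584) (l 16787648))) (b (l 16779568) (l 16785560))), by decide +kernel⟩

def k12_pm_213 : ∃ t, chk3 f_pm_213 t 31 9 1 = true :=
  ⟨(b (a (b (a (l 16774216) (l 16772216)) (l 16773992)) (b (l 16768400) (l 16769624))) (a (l 16778704) (l 16774920))), by decide +kernel⟩

def k13_pm_213 : ∃ t, chk3 f_pm_213 t 12 5 1 = true :=
  ⟨(l 3), by decide +kernel⟩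

def k14_pm_213 : ∃ t, chk3 f_pm_213 t 13 10 1 = true :=
  ⟨(b (l 3) (a (l 3) (b (l 3) (a (l 3) (b (l 3) (a (l 3) (a (b (l 3) (a (l 3) (a (l 3) (b (l 3) (c (l 210620929543) (l 209547134023)))))) (b (b (l 3) (c (a (l 3) (c (l 205252255287) (l 203641613207))) (c (l 204715327335) (l 204178429991)))) (c (c (a (b (l 208473470007) (l 195588558839)) (b (l 193441107159) (l 16665128))) (b (a (l 207399699799) (l 186998626743)) (l 186461746935))) (c (b (l 184314222503) (l 180019268503)) (a (l 203641544455) (l 173039929287)))))))))))), by decide +kernel⟩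

def k15_pm_213 : ∃ t, chk3 f_pm_213 t 13 22 1 = true :=
  ⟨(a (l 3) (b (b (a (l 3) (a (a (l 3) (b (l 3) (c (c (b (l 214915881895) (l 200957229079)) (l 212768367671)) (b (l 216526431815) (l 182703553975))))) (a (b (a (b (l 3) (c (b (l 212231525655) (l 196125393559)) (l 210620858071))) (c (c (b (l 197736032215) (l 192367334727)) (l 188609225255)) (b (l 181629836759) (l 174650542055)))) (c (b (c (l 192367325975) (l 185387976855)) (l 16637888)) (b (l 174650535079) (l 16610152)))) (b (a (b (c (l 16652448) (l 16624192)) (l 16632920)) (l 16655880)) (l 16624760))))) (a (l 3) (a (b (c (c (a (l 217600214231) (b (l 196125381623) (l 191830426567))) (a (l 218673931367) (l 186998544391))) (a (l 221358250263) (a (l 209010259031) (l 16604392)))) (c (a (c (a (l 214915841959) (l 194514773303)) (l 190219753767)) (l 16621616)) (c (l 178408565655) (l 170355516807)))) (a (c (l 16625424) (l 16596552)) (l 16608720))))) (b (a (a (l 3) (b (a (l 3) (c (c (a (l 222432018823) (l 214378953863))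 (l 219210767943)) (l 222431957543))) (c (c (a (l 224042615895) (l 191830387031)) (l 190756613751)) (a (l 228874395415) (l 171966119223))))) (a (c (a (b (b (l 185924822983) (l 16611000)) (l 16603656)) (l 16606680)) (b (l 166597427783) (l 16574568))) (l 16588080))) (a (a (a (l 3) (c (b (l 232095653911) (a (l 229948153399) (l 189682875671))) (l 230484985191))) (c (a (b (b (l 192904115159) (l 186998526071)) (l 16589192)) (l 16591280)) (c (l 173039853671) (l 165523638887)))) (a (l 16593464) (l 16565856)))))), by decide +kernel⟩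

def k16_pm_213 : ∃ t, chk3 f_pm_213 t 13 23 1 = true :=
  ⟨(b (a (a (l 3) (a (l 3) (c (c (b (l 242296181623) (a (l 240148667143) (l 189145970039))) (b (l 243369901079) (l 190219643847))) (b (l 246054222695) (l 180019140695))))) (c (a (a (b (a (b (l 232095623095) (l 186461624807)) (b (l 183240410919) (l 16573232))) (l 16560712)) (b (l 16573168) (l 16553392))) (l 16553328)) (a (b (a (a (l 225116312711) (l 16551960)) (l 16544744)) (l 16527544)) (l 16518040)))) (a (a (b (l 3) (a (l 3) (c (l 255717868759) (l 257328428487)))) (c (b (a (a (l 254107278215) (l 236390598647)) (b (l 16554400) (l 16545216))) (a (l 179482262471) (l 16531312))) (b (a (l 240685533367) (l 16521640)) (l 162302356823)))) (a (b (l 16521176) (l 16499784)) (l 16489520)))), by decide +kernel⟩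

def k17_pm_213 : ∃ t, chk3 f_pm_213 t 56 20 1 = true :=
  ⟨(l 3), by decide +kernel⟩

def k18_pm_213 : ∃ t, chk3 f_pm_213 t 57 40 1 = true :=
  ⟨(a (l 3) (b (l 3) (a (l 3) (b (l 3) (b (a (l 3) (c (b (l 198810017047) (l 191293826455)) (c (l 184314478999) (b (l 180556350519) (l 180556346183))))) (c (c (l 194515053687) (a (l 195588796359) (l 190756959831))) (c (c (l 185388242839) (l 182166979575)) (a (a (l 3) (l 181093205911)) (b (l 178408858135) (l 177871955863)))))))))), by decide +kernel⟩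

def k19_pm_213 : ∃ t, chk3 f_pm_213 t 57 41 1 = true :=
  ⟨(a (b (l 3) (a (a (l 3) (b (l 3) (c (c (b (l 195588774711) (l 193978152583)) (b (l 191293760023) (l 189683137751))) (c (b (l 186998746519) (l 185388124199)) (b (l 183240605111) (a (l 182166853335) (l 180556241559))))))) (c (c (b (b (l 194515062791) (l 193441311959)) (b (l 192367560791) (l 16773448))) (b (a (b (l 3) (l 190220033447)) (b (l 189683178327) (l 186998793431))) (a (b (l 188609411255) (l 16746824)) (l 16752336)))) (c (b (a (b (l 3) (l 186461889175)) (b (l 185388161463) (l 181630035927))) (a (b (l 182703783239) (l 16722816)) (l 16727416))) (b (b (c (l 183240639511) (l 181093132295)) (a (l 182166875095) (a (l 177871909911) (l 16710904)))) (a (b (a (l 181093123159) (l 176798140215)) (l 16699488)) (l 16703176))))))) (b (b (a (a (l 3) (b (l 3) (c (c (l 224042962343) (l 189146349607)) (c (l 185388200647) (a (l 181630051111) (l 181093182583)))))) (b (c (a (b (l 192367573447) (l 3416424366374511568795992095))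 (l 16775616)) (c (c (l 184314492311) (l 181630099799)) (a (b (l 178408843271) (l 178408838743)) (l 16743120)))) (a (c (b (l 189683205367) (l 16797400)) (a (c (l 182703828951) (l 177871938151)) (l 16749880))) (l 16780488)))) (b (c (a (c (l 190756963319) (a (l 189683203639) (l 186998832919))) (l 16796480)) (a (c (c (l 184314459479) (l 182166950055)) (a (a (l 3) (l 181630039783)) (a (l 178408816471) (l 16729112)))) (l 16745936))) (a (a (c (b (l 190756943735) (l 189146298023)) (c (l 182703800663) (a (l 181093157623) (l 177335043511)))) (c (l 16789920) (l 16736784))) (l 16768888)))) (b (a (b (a (c (b (l 189146293143) (l 16779776)) (a (c (l 16741504) (l 176798161879)) (l 16730104))) (l 16758336)) (c (l 16778320) (l 16725776))) (l 16761432)) (c (l 16775208) (l 16720440))))), by decide +kernel⟩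

def k20_pm_213 : ∃ t, chk3 f_pm_213 t 116 40 1 = true :=
  ⟨(b (a (b (l 3) (b (l 3) (a (l 3) (c (c (l 201494359719) (l 195588787255)) (c (b (l 203104987319) (l 195051924631)) (b (l 179482648647) (l 180019515495))))))) (b (b (a (l 3) (a (l 3) (b (l 3) (c (c (l 200420622663) (l 194515040519)) (c (l 205789351527) (a (l 180019530167) (l 182167013623))))))) (c (c (a (l 200420621143) (b (l 190220074407) (l 191830678775))) (c (l 188072603767) (l 186998861847))) (c (a (l 203641867095) (b (l 193441323655) (l 3319710300805468434590777503))) (c (a (l 182703889383) (l 180556404999)) (a (l 178408914487) (a (l 178945792423) (l 180019525463))))))) (a (c (c (b (l 190756949095) (l 190756955895)) (b (l 196125669703) (l 187535739031))) (c (b (a (l 203641858071) (l 3310038894248544941562462239)) (a (l 3319710300805463486790385695) (l 16773264))) (c (b (l 181093291383) (l 181630154263)) (b (l 179482648471) (l 178945769351))))) (b (c (c (l 16774360) (l 16778824)) (b (c (l 16772696)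 (l 16765592)) (l 16771952))) (l 16771912))))) (a (c (b (c (b (a (l 200957512855) (l 192367558903)) (l 192904444407)) (a (b (l 194515047111) (l 189146341463)) (b (l 189683210599) (l 16771736)))) (a (b (b (l 189683226967) (l 16772408)) (l 16795104)) (l 16794808))) (b (a (c (b (l 197736277127) (a (l 183777643991) (l 184314519607))) (c (b (l 181093257383) (l 181630119943)) (b (l 179482616279) (l 177871995079)))) (c (b (c (l 187535731751) (l 183240778791)) (l 16793240)) (b (b (l 179482619479) (l 179482615255)) (l 16763696)))) (a (b (b (c (l 183240739639) (l 178408845543)) (l 16747736)) (l 16765344)) (l 16771792)))) (b (b (c (l 16769656) (l 16769200)) (l 16774248)) (l 16776216)))), by decide +kernel⟩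

def k21_pm_213 : ∃ t, chk3 f_pm_213 t 117 40 1 = true :=
  ⟨(c (b (a (b (a (b (a (b (l 3377738740146945964659081311) (c (l 16776464) (l 16776736))) (b (l 16763144) (l 16763856))) (l 16765008)) (l 16764896)) (l 16768200)) (l 16767712)) (l 16775064)) (b (a (b (a (b (b (c (l 193441320535) (l 180556400327)) (c (l 185388260711) (c (l 16769048) (l 16776800)))) (l 16770880)) (l 16770392)) (l 16771744)) (l 16770784)) (l 16773536))), by decide +kernel⟩

def k22_pm_213 : ∃ t, chk3 f_pm_213 t 59 40 1 = true :=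
  ⟨(b (c (l 16770208) (l 16771304)) (l 16776552)), by decide +kernel⟩

def k23_pm_213 : ∃ t, chk3 f_pm_213 t 29 41 1 = true :=
  ⟨(a (b (a (b (c (l 16776192) (l 16764496)) (l 16785416)) (l 16796544)) (a (l 16769336) (l 16792528))) (l 16776832)), by decide +kernel⟩

def k24_pm_213 : ∃ t, chk3 f_pm_213 t 56 42 1 = true :=
  ⟨(a (b (l 3) (b (l 3) (a (l 3) (a (l 3) (b (l 3) (c (c (l 198809876983) (l 193441131687)) (c (l 188609258695) (a (l 3) (l 182703645111))))))))) (a (b (l 3) (b (a (l 3) (c (c (b (l 197736175431) (l 195051810343)) (b (l 192367425911) (l 189146190151))) (c (b (l 187535548759) (a (l 185924925703) (l 182703689063))) (b (l 183240544023) (a (l 181093050775) (l 177871814023)))))) (c (a (c (b (l 196662408039) (l 190219933383)) (b (l 191293660727) (l 185924929591))) (b (c (l 16720360) (l 16700432)) (l 16704840))) (c (b (c (l 185388053639) (l 182703670215)) (c (l 181093073367) (l 178945572535))) (b (a (a (l 183777396167) (l 180019299463)) (l 175724321623))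 (c (l 176261201191) (l 174113700855))))))) (b (a (b (l 3) (b (l 3) (c (c (l 195588707095) (l 190219955719)) (c (l 185924947623) (a (l 183240553703) (l 180556199303)))))) (b (b (l 3) (b (l 3) (b (l 3) (c (l 193441223239) (l 184851203223))))) (c (b (c (l 194514980983) (l 189146227799)) (c (l 191293727495) (l 185924976375))) (c (b (l 184851217863) (l 181093097687)) (b (a (l 181629951079) (l 177871841319)) (l 176261219591)))))) (b (c (a (b (c (l 191830584567) (l 187535576487)) (l 16717560)) (l 16722344)) (c (a (b (l 182703712119) (l 16687048)) (l 16690472)) (b (c (l 177871844807) (l 175187470791)) (l 16667728)))) (c (l 16710328) (l 16669728)))))), by decide +kernel⟩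

def k25_pm_213 : ∃ t, chk3 f_pm_213 t 57 42 1 = true :=
  ⟨(a (b (a (b (c (c (b (l 193978139399) (l 191293774871)) (a (b (l 190219993863) (l 188072500327)) (b (l 186461884103) (l 16734080)))) (c (a (b (l 186461852967) (l 182703746759)) (b (l 181093130055) (l 16710992))) (b (a (l 182166842551) (a (l 177334990087) (l 16693824))) (c (l 177871877031) (l 175724371879))))) (c (b (a (l 16737976) (l 16740720)) (l 16734056)) (b (c (l 16705144) (l 16683352)) (l 16689040)))) (b (c (l 16753184) (l 16704264)) (l 16717768))) (b (c (l 16728592) (l 16682040)) (l 16693680))) (b (b (l 16736736) (l 16725544)) (l 16707864))), by decide +kernel⟩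

def k26_pm_213 : ∃ t, chk3 f_pm_213 t 28 43 1 = true :=
  ⟨(a (b (b (a (a (l 3) (c (c (b (c (l 199346744087) (l 196125500823)) (a (a (l 198809850759) (l 190756778295)) (l 16699744))) (a (b (l 195588603015) (a (l 193441108423) (l 187535519783))) (b (a (l 191293637031) (l 184851176503)) (l 16682136)))) (a (c (b (l 190756731991) (a (l 188072367367) (l 182703658231))) (b (a (l 3) (l 185387991159)) (b (l 182703629751) (l 180019270375)))) (c (b (a (l 183777410295) (l 180556175463)) (l 16665224)) (b (b (l 180556154471) (l 176798042743)) (l 16649064)))))) (a (c (b (l 16698488) (l 16692848)) (c (l 16668048) (l 16650648))) (l 16678632))) (a (b (a (a (l 3) (c (c (b (l 200420452935) (l 198272963655)) (b (l 195051712215) (l 192367352311))) (c (b (l 189682972695) (l 186998613079)) (c (l 185924851959) (l 183777354183))))) (b (a (c (c (l 189683023767) (l 185924895495)) (c (l 182166768519) (l 176798030231))) (l 16669584)) (a (c (l 16682744) (a (l 16651296) (l 16651048))) (l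 16666896)))) (c (a (c (a (l 206326017511) (l 194514859847)) (a (l 204178503991) (l 188609239687))) (l 16679400)) (a (c (a (l 202030991575) (l 182703638119)) (a (l 200957222215) (a (l 178945513319) (l 16640464)))) (l 16646976)))) (c (l 16685800) (l 16648512)))) (a (a (c (b (b (a (c (l 196125460951) (l 190219850567)) (l 16673184)) (c (l 190756743479) (l 16660144))) (l 16660496)) (b (b (a (c (l 184314241319) (l 178945504231)) (l 16642568)) (c (l 16644976) (l 16630472))) (l 16629576))) (b (b (l 16657632) (l 16652376)) (l 16644360))) (b (l 16655744) (l 16644552)))) (b (c (l 16704416) (l 16655248)) (l 16654568))), by decide +kernel⟩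

def k27_pm_213 : ∃ t, chk3 f_pm_213 t 29 21 1 = true :=
  ⟨(b (a (b (l 16755496) (l 16728816)) (l 16795760)) (a (b (l 16700424) (l 16670936)) (l 16724464))), by decide +kernel⟩

def k28_pm_213 : ∃ t, chk3 f_pm_213 t 15 10 1 = true :=
  ⟨(b (b (a (a (l 16776912) (l 16794128)) (l 16767400)) (a (a (l 16804464) (l 16805248)) (l 16798384))) (a (b (l 16767216) (l 16766016)) (b (l 16812744) (l 16809400)))), by decide +kernel⟩

def k29_pm_213 : ∃ t, chk3 f_pm_213 t 7 11 1 = true :=
  ⟨(a (b (b (a (a (b (a (b (l 16633800) (l 16622888)) (l 16627288)) (l 16604712)) (b (l 16629056) (l 16602704))) (a (l 16624784) (l 16648824))) (a (a (b (l 16581096) (l 16556896)) (l 16561752)) (l 16565040))) (a (b (a (l 16519512) (l 16505872)) (l 16458512)) (b (l 16494808) (l 16424960)))) (b (a (b (l 16736424) (l 16623560)) (l 16837992)) (a (l 16464080) (l 16561864)))), by decide +kernel⟩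

def k30_pm_213 : ∃ t, chk3 f_pm_213 t 1 6 1 = true :=
  ⟨(a (b (l 3) (a (l 3) (a (l 3) (b (l 3) (a (l 3) (b (a (l 3) (b (l 282024276519) (l 210620442983))) (b (a (l 243906495639) (l 16386440)) (a (l 216526083287) (l 16367768))))))))) (a (b (a (b (a (l 3) (b (l 3) (a (l 3) (b (a (l 3) (l 248738593767)) (a (l 257328523799) (l 177871610679)))))) (a (b (l 3) (a (l 3) (b (l 3) (l 266455333143)))) (b (a (b (l 283635040135) (a (l 3) (l 195051468919))) (b (a (l 186998414919) (l 16462168)) (l 16449016))) (a (b (a (l 203641403687) (l 16448776)) (l 16436184)) (b (l 16429496) (l 16409600)))))) (b (b (c (a (a (b (a (l 265918399735) (l 185924697511)) (l 183240342903)) (b (l 16517440) (l 16499000))) (l 16476704)) (a (a (b (l 189145904759) (l 174650353303)) (l 16472128)) (l 16432432))) (a (a (b (c (l 16501928) (l 16463960)) (l 16463456)) (l 16448776)) (l 16408376))) (a (b (a (l 16454120) (l 16406064)) (l 16523872)) (b (l 16361232) (l 16313112))))) (a (b (c (a (b (a (l 304036131639)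 (l 192367163639)) (a (l 203104537591) (l 16438488))) (b (l 16429344) (l 16397168))) (a (b (a (l 298130419031) (l 191293314967)) (a (l 202030705703) (l 16350936))) (b (l 16355056) (l 16304616)))) (b (a (c (l 16528120) (a (l 16331192) (l 16300328))) (l 16309672)) (a (c (l 16395104) (l 16263160)) (l 16265688)))) (b (b (a (l 16333088) (l 16264048)) (a (l 16287784) (l 16213984))) (b (a (l 16241112) (l 16162864)) (a (l 16193088) (l 16110600)))))) (b (a (b (a (b (l 16404064) (l 16349328)) (l 16321312)) (a (b (l 16294400) (l 16239416)) (l 16189224))) (b (a (l 16275240) (l 16268312)) (a (l 16107360) (l 16037272)))) (a (b (a (l 16218624) (l 16061808)) (a (l 16106048) (l 15936416))) (b (a (l 15955088) (l 15845856)) (a (l 15810400) (l 15678592))))))), by decide +kernel⟩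

def k31_pm_213 : ∃ t, chk3 f_pm_213 t 1 7 1 = true :=
  ⟨(a (a (b (l 3) (l 1)) (b (a (a (l 3) (b (l 3) (b (b (l 3) (c (l 250885860887) (l 257327939639))) (b (a (l 3) (c (l 219747315495) (l 219210001831))) (c (a (l 238000862935) (l 16358048)) (a (l 251959128711) (l 16224576))))))) (c (b (a (b (a (l 3) (l 260012693815)) (a (l 256254555943) (l 189145748471))) (b (b (l 16433184) (l 16421280)) (l 16403024))) (b (a (b (l 198272440311) (l 16436176)) (l 16378584)) (a (c (l 16473216) (l 16366392)) (l 16353760)))) (b (a (b (l 261086138151) (a (l 245516848983) (l 189145349191))) (b (b (l 16288000) (l 16262080)) (l 16221840))) (b (a (b (l 190219073527) (l 16223744)) (l 16167080)) (a (b (l 16198216) (l 16172576)) (l 16111360)))))) (b (a (l 1) (b (b (a (a (l 1651447021687) (l 16158832)) (l 16059264)) (l 1)) (l 1))) (l 1)))) (b (a (b (a (b (a (c (l 16366696) (l 16208048)) (l 16220312)) (a (c (l 16337976) (l 16150880)) (l 16173640))) (b (a (l 16143736) (l 16057160)) (a (l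 16093056) (l 16002456)))) (a (b (a (c (l 16308800) (l 16092064)) (l 16125664)) (c (l 16070728) (l 15990104))) (b (a (l 16040968) (l 15946344)) (a (l 15987200) (l 15888440))))) (a (b (a (b (l 15957176) (l 15898288)) (b (l 15842728) (l 15778896))) (a (b (l 15838112) (l 15779192)) (b (l 15720256) (l 15668488)))) (b (a (b (l 15709968) (l 15647288)) (l 15534200)) (b (l 15516016) (l 15465968))))) (a (b (a (b (c (l 15973544) (a (l 15970704) (l 15882304))) (a (l 1) (l 15719040))) (b (a (l 15931168) (l 15724208)) (a (b (l 15887064) (l 15856496)) (l 15699600)))) (l 1)) (b (a (b (a (l 15731872) (l 15626392)) (a (l 15695064) (l 15592952))) (b (l 15424448) (l 15392544))) (a (b (a (l 15669536) (l 15568992)) (l 1)) (b (l 15371416) (l 15362312))))))), by decide +kernel⟩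

theorem s32_pm_213 : ∃ t, chk3 f_pm_213 t 1 3 1 = true := ex3_b k30_pm_213 k31_pm_213

theorem s33_pm_213 : ∃ t, chk3 f_pm_213 t 28 42 1 = true := ex3_a k24_pm_213 k25_pm_213

theorem s34_pm_213 : ∃ t, chk3 f_pm_213 t 28 21 1 = true := ex3_b s33_pm_213 k26_pm_213

theorem s35_pm_213 : ∃ t, chk3 f_pm_213 t 14 21 1 = true := ex3_a s34_pm_213 k27_pm_213

theorem s36_pm_213 : ∃ t, chk3 f_pm_213 t 58 40 1 = true := ex3_a k20_pm_213 k21_pm_213

theorem s37_pm_213 : ∃ t, chk3 f_pm_213 t 29 40 1 = true := ex3_a s36_pm_213 k22_pm_213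

theorem s38_pm_213 : ∃ t, chk3 f_pm_213 t 29 20 1 = true := ex3_b s37_pm_213 k23_pm_213

theorem s39_pm_213 : ∃ t, chk3 f_pm_213 t 57 20 1 = true := ex3_b k18_pm_213 k19_pm_213

theorem s40_pm_213 : ∃ t, chk3 f_pm_213 t 28 20 1 = true := ex3_a k17_pm_213 s39_pm_213

theorem s41_pm_213 : ∃ t, chk3 f_pm_213 t 14 20 1 = true := ex3_a s40_pm_213 s38_pm_213

theorem s42_pm_213 : ∃ t, chk3 f_pm_213 t 14 10 1 = true := ex3_b s41_pm_213 s35_pm_213

theorem s43_pm_213 : ∃ t, chk3 f_pm_213 t 7 10 1 = true := ex3_a s42_pm_213 k28_pm_213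

theorem s44_pm_213 : ∃ t, chk3 f_pm_213 t 7 5 1 = true := ex3_b s43_pm_213 k29_pm_213

theorem s45_pm_213 : ∃ t, chk3 f_pm_213 t 13 11 1 = true := ex3_b k15_pm_213 k16_pm_213

theorem s46_pm_213 : ∃ t, chk3 f_pm_213 t 13 5 1 = true := ex3_b k14_pm_213 s45_pm_213

theorem s47_pm_213 : ∃ t, chk3 f_pm_213 t 6 5 1 = true := ex3_a k13_pm_213 s46_pm_213

theorem s48_pm_213 : ∃ t, chk3 f_pm_213 t 3 5 1 = true := ex3_a s47_pm_213 s44_pm_213

theorem s49_pm_213 : ∃ t, chk3 f_pm_213 t 60 18 1 = true := ex3_b k8_pm_213 k9_pm_213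

theorem s50_pm_213 : ∃ t, chk3 f_pm_213 t 30 18 1 = true := ex3_a s49_pm_213 k10_pm_213

theorem s51_pm_213 : ∃ t, chk3 f_pm_213 t 30 9 1 = true := ex3_b s50_pm_213 k11_pm_213

theorem s52_pm_213 : ∃ t, chk3 f_pm_213 t 15 9 1 = true := ex3_a s51_pm_213 k12_pm_213

theorem s53_pm_213 : ∃ t, chk3 f_pm_213 t 15 4 1 = true := ex3_b k7_pm_213 s52_pm_213

theorem s54_pm_213 : ∃ t, chk3 f_pm_213 t 29 19 1 = true := ex3_b k5_pm_213 k6_pm_213

theorem s55_pm_213 : ∃ t, chk3 f_pm_213 t 29 9 1 = true := ex3_b k4_pm_213 s54_pm_213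

theorem s56_pm_213 : ∃ t, chk3 f_pm_213 t 14 9 1 = true := ex3_a k3_pm_213 s55_pm_213

theorem s57_pm_213 : ∃ t, chk3 f_pm_213 t 14 4 1 = true := ex3_b k2_pm_213 s56_pm_213

theorem s58_pm_213 : ∃ t, chk3 f_pm_213 t 7 4 1 = true := ex3_a s57_pm_213 s53_pm_213

theorem s59_pm_213 : ∃ t, chk3 f_pm_213 t 3 4 1 = true := ex3_a k1_pm_213 s58_pm_213

theorem s60_pm_213 : ∃ t, chk3 f_pm_213 t 3 2 1 = true := ex3_b s59_pm_213 s48_pm_213

theorem s61_pm_213 : ∃ t, chk3 f_pm_213 t 1 2 1 = true := ex3_a k0_pm_213 s60_pm_213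

theorem s62_pm_213 : ∃ t, chk3 f_pm_213 t 1 1 1 = true := ex3_b s61_pm_213 s32_pm_213

theorem c_pm_213 : CertB 0 536870912 0 1230186008 966367641 24778659 3 eng mog cd0q2 cd3q3 pd1 false true false .pnn 2 1 3
    ndB0q2 ndB3q3 pcB1 cut_pm_213 xt_pm_213 :=
  certB0 (fam := false) (s1 := true) (s2 := false) (a := 2) (b := 1) (c := 3) (cn := .pnn) (n1 := ndB0q2) (n2 := ndB3q3) (pc := pcB1) (cut := cut_pm_213) (xt := xt_pm_213) (P1 := 0) (W1 := 536870912) (P2 := 0) (W2 := 1230186008) (P3 := 966367641) (W3 := 24778659) (N0 := 3) (En := eng) (mo := mog) (C1 := cd0q2) (C2 := cd3q3) (C3 := pd1)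
    rfl s62_pm_213

noncomputable def f_mm_001 : ℕ → ℕ → ℕ → ℕ → Bool := onCell 0 536870912 0 536870912 966367641 24778659
    (rowB 3 eng mog cd0q0 cd3q1 pd0 1 false false false .up 0 0 1 (qsf 0 536870912 536870912 536870912 0) ndB0q0 ndB3q1 pcB0 Cut.none Ext.none)

def k0_mm_001 : ∃ t, chk3 f_mm_001 t 1 1 1 = true :=
  ⟨(l 3), by decide +kernel⟩

theorem c_mm_001 : CertB 0 536870912 536870912 536870912 966367641 24778659 3 eng mog cd0q0 cd3q1 pd0 false false false .up 0 0 1
    ndB0q0 ndB3q1 pcB0 Cut.none Ext.none :=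
  certB1 (fam := false) (s1 := false) (s2 := false) (a := 0) (b := 0) (c := 1) (cn := .up) (n1 := ndB0q0) (n2 := ndB3q1) (pc := pcB0) (cut := Cut.none) (xt := Ext.none) (P1 := 0) (W1 := 536870912) (P2 := 536870912) (W2 := 536870912) (P3 := 966367641) (W3 := 24778659) (N0 := 3) (En := eng) (mo := mog) (C1 := cd0q0) (C2 := cd3q1) (C3 := pd0)
    rfl (fun _ => rfl) k0_mm_001

noncomputable def f_mm_011 : ℕ → ℕ → ℕ → ℕ → Bool := onCell 0 536870912 536870912 536870912 966367641 24778659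
    (rowB 3 eng mog cd0q0 cd3q1 pd1 1 false false false .pnn 0 1 1 (qsf 0 536870912 536870912 536870912 1) ndB0q0 ndB3q1 pcB1 Cut.none Ext.none)

def k0_mm_011 : ∃ t, chk3 f_mm_011 t 1 1 1 = true :=
  ⟨(l 5), by decide +kernel⟩

theorem c_mm_011 : CertB 0 536870912 536870912 536870912 966367641 24778659 3 eng mog cd0q0 cd3q1 pd1 false false false .pnn 0 1 1
    ndB0q0 ndB3q1 pcB1 Cut.none Ext.none :=
  certB1 (fam := false) (s1 := false) (s2 := false) (a := 0) (b := 1) (c := 1) (cn := .pnn) (n1 := ndB0q0) (n2 := ndB3q1) (pc := pcB1) (cut := Cut.none) (xt := Ext.none) (P1 := 0) (W1 := 536870912) (P2 := 536870912) (W2 := 536870912) (P3 := 966367641) (W3 := 24778659) (N0 := 3) (En := eng) (mo := mog) (C1 := cd0q0) (C2 := cd3q1) (C3 := pd1)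
    rfl (fun _ => rfl) k0_mm_011

noncomputable def f_mm_012 : ℕ → ℕ → ℕ → ℕ → Bool := onCell 0 536870912 1073741824 536870912 966367641 24778659
    (rowB 3 eng mog cd0q0 cd3q2 pd1 0 false false false .pnp 0 1 2 (qsf 0 536870912 1073741824 536870912 1) ndB0q0 ndB3q2 pcB1 Cut.none Ext.none)

def k0_mm_012 : ∃ t, chk3 f_mm_012 t 1 1 1 = true :=
  ⟨(l 5), by decide +kernel⟩

theorem c_mm_012 : CertB 0 536870912 1073741824 536870912 966367641 24778659 3 eng mog cd0q0 cd3q2 pd1 false false false .pnp 0 1 2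
    ndB0q0 ndB3q2 pcB1 Cut.none Ext.none :=
  certB0 (fam := false) (s1 := false) (s2 := false) (a := 0) (b := 1) (c := 2) (cn := .pnp) (n1 := ndB0q0) (n2 := ndB3q2) (pc := pcB1) (cut := Cut.none) (xt := Ext.none) (P1 := 0) (W1 := 536870912) (P2 := 1073741824) (W2 := 536870912) (P3 := 966367641) (W3 := 24778659) (N0 := 3) (En := eng) (mo := mog) (C1 := cd0q0) (C2 := cd3q2) (C3 := pd1)
    rfl k0_mm_012

noncomputable def f_mm_022 : ℕ → ℕ → ℕ → ℕ → Bool := onCell 0 536870912 1073741824 536870912 966367641 24778659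
    (rowB 3 eng mog cd0q0 cd3q2 pd2 0 false false false .pp 0 2 2 (qsf 0 536870912 1073741824 536870912 2) ndB0q0 ndB3q2 pcB2 Cut.none Ext.none)

def k0_mm_022 : ∃ t, chk3 f_mm_022 t 1 1 1 = true :=
  ⟨(l 5), by decide +kernel⟩

theorem c_mm_022 : CertB 0 536870912 1073741824 536870912 966367641 24778659 3 eng mog cd0q0 cd3q2 pd2 false false false .pp 0 2 2
    ndB0q0 ndB3q2 pcB2 Cut.none Ext.none :=
  certB0 (fam := false) (s1 := false) (s2 := false) (a := 0) (b := 2) (c := 2) (cn := .pp) (n1 := ndB0q0) (n2 := ndB3q2) (pc := pcB2) (cut := Cut.none) (xt := Ext.none) (P1 := 0) (W1 := 536870912) (P2 := 1073741824) (W2 := 536870912) (P3 := 966367641) (W3 := 24778659) (N0 := 3) (En := eng) (mo := mog) (C1 := cd0q0) (C2 := cd3q2) (C3 := pd2)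
    rfl k0_mm_022

noncomputable def f_mm_023 : ℕ → ℕ → ℕ → ℕ → Bool := onCell 0 536870912 0 1230186008 966367641 24778659
    (rowB 3 eng mog cd0q0 cd3q3 pd2 0 false false false .up 0 2 3 (qsf 0 536870912 0 1230186008 2) ndB0q0 ndB3q3 pcB2 Cut.none Ext.none)

def k0_mm_023 : ∃ t, chk3 f_mm_023 t 1 1 1 = true :=
  ⟨(l 5), by decide +kernel⟩

theorem c_mm_023 : CertB 0 536870912 0 1230186008 966367641 24778659 3 eng mog cd0q0 cd3q3 pd2 false false false .up 0 2 3
    ndB0q0 ndB3q3 pcB2 Cut.none Ext.none :=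
  certB0 (fam := false) (s1 := false) (s2 := false) (a := 0) (b := 2) (c := 3) (cn := .up) (n1 := ndB0q0) (n2 := ndB3q3) (pc := pcB2) (cut := Cut.none) (xt := Ext.none) (P1 := 0) (W1 := 536870912) (P2 := 0) (W2 := 1230186008) (P3 := 966367641) (W3 := 24778659) (N0 := 3) (En := eng) (mo := mog) (C1 := cd0q0) (C2 := cd3q3) (C3 := pd2)
    rfl k0_mm_023

noncomputable def f_mm_033 : ℕ → ℕ → ℕ → ℕ → Bool := onCell 0 536870912 0 1230186008 966367641 24778659
    (rowB 3 eng mog cd0q0 cd3q3 pd3 0 false false false .pnn 0 3 3 (qsf 0 536870912 0 1230186008 3) ndB0q0 ndB3q3 pcB3 Cut.none Ext.none)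

def k0_mm_033 : ∃ t, chk3 f_mm_033 t 1 1 1 = true :=
  ⟨(l 5), by decide +kernel⟩

theorem c_mm_033 : CertB 0 536870912 0 1230186008 966367641 24778659 3 eng mog cd0q0 cd3q3 pd3 false false false .pnn 0 3 3
    ndB0q0 ndB3q3 pcB3 Cut.none Ext.none :=
  certB0 (fam := false) (s1 := false) (s2 := false) (a := 0) (b := 3) (c := 3) (cn := .pnn) (n1 := ndB0q0) (n2 := ndB3q3) (pc := pcB3) (cut := Cut.none) (xt := Ext.none) (P1 := 0) (W1 := 536870912) (P2 := 0) (W2 := 1230186008) (P3 := 966367641) (W3 := 24778659) (N0 := 3) (En := eng) (mo := mog) (C1 := cd0q0) (C2 := cd3q3) (C3 := pd3)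
    rfl k0_mm_033

noncomputable def cut_mm_101 : Cut := Cut.of [[⟨0, 1, 0, 67108864⟩, ⟨1, 0, 0, 67108864⟩, ⟨2, 1, 0, 67108864⟩]]

noncomputable def f_mm_101 : ℕ → ℕ → ℕ → ℕ → Bool := onCell 536870912 536870912 0 536870912 966367641 24778659
    (rowB 3 eng mog cd0q1 cd3q1 pd0 1 false false false .npn 1 0 1 (qsf 536870912 536870912 536870912 536870912 0) ndB0q1 ndB3q1 pcB0 cut_mm_101 Ext.none)

def k0_mm_101 : ∃ t, chk3 f_mm_101 t 1 1 1 = true :=
  ⟨(a (l 3) (b (a (l 3) (b (a (l 3) (b (b (a (l 3) (l 6)) (l 3)) (l 3))) (l 3))) (l 3))), by decide +kernel⟩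

theorem c_mm_101 : CertB 536870912 536870912 536870912 536870912 966367641 24778659 3 eng mog cd0q1 cd3q1 pd0 false false false .npn 1 0 1
    ndB0q1 ndB3q1 pcB0 cut_mm_101 Ext.none :=
  certB1 (fam := false) (s1 := false) (s2 := false) (a := 1) (b := 0) (c := 1) (cn := .npn) (n1 := ndB0q1) (n2 := ndB3q1) (pc := pcB0) (cut := cut_mm_101) (xt := Ext.none) (P1 := 536870912) (W1 := 536870912) (P2 := 536870912) (W2 := 536870912) (P3 := 966367641) (W3 := 24778659) (N0 := 3) (En := eng) (mo := mog) (C1 := cd0q1) (C2 := cd3q1) (C3 := pd0)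
    rfl (fun _ => rfl) k0_mm_101

noncomputable def f_mm_102 : ℕ → ℕ → ℕ → ℕ → Bool := onCell 536870912 536870912 1073741824 536870912 966367641 24778659
    (rowB 3 eng mog cd0q1 cd3q2 pd0 0 false false false .npp 1 0 2 (qsf 536870912 536870912 1073741824 536870912 0) ndB0q1 ndB3q2 pcB0 Cut.none Ext.none)

def k0_mm_102 : ∃ t, chk3 f_mm_102 t 1 1 1 = true :=
  ⟨(l 3), by decide +kernel⟩

theorem c_mm_102 : CertB 536870912 536870912 1073741824 536870912 966367641 24778659 3 eng mog cd0q1 cd3q2 pd0 false false false .npp 1 0 2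
    ndB0q1 ndB3q2 pcB0 Cut.none Ext.none :=
  certB0 (fam := false) (s1 := false) (s2 := false) (a := 1) (b := 0) (c := 2) (cn := .npp) (n1 := ndB0q1) (n2 := ndB3q2) (pc := pcB0) (cut := Cut.none) (xt := Ext.none) (P1 := 536870912) (W1 := 536870912) (P2 := 1073741824) (W2 := 536870912) (P3 := 966367641) (W3 := 24778659) (N0 := 3) (En := eng) (mo := mog) (C1 := cd0q1) (C2 := cd3q2) (C3 := pd0)
    rfl k0_mm_102

noncomputable def f_mm_112 : ℕ → ℕ → ℕ → ℕ → Bool := onCell 536870912 536870912 1073741824 536870912 966367641 24778659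
    (rowB 3 eng mog cd0q1 cd3q2 pd1 0 false false false .dn 1 1 2 (qsf 536870912 536870912 1073741824 536870912 1) ndB0q1 ndB3q2 pcB1 Cut.none Ext.none)

def k0_mm_112 : ∃ t, chk3 f_mm_112 t 1 1 1 = true :=
  ⟨(l 3), by decide +kernel⟩

theorem c_mm_112 : CertB 536870912 536870912 1073741824 536870912 966367641 24778659 3 eng mog cd0q1 cd3q2 pd1 false false false .dn 1 1 2
    ndB0q1 ndB3q2 pcB1 Cut.none Ext.none :=
  certB0 (fam := false) (s1 := false) (s2 := false) (a := 1) (b := 1) (c := 2) (cn := .dn) (n1 := ndB0q1) (n2 := ndB3q2) (pc := pcB1) (cut := Cut.none) (xt := Ext.none) (P1 := 536870912) (W1 := 536870912) (P2 := 1073741824) (W2 := 536870912) (P3 := 966367641) (W3 := 24778659) (N0 := 3) (En := eng) (mo := mog) (C1 := cd0q1) (C2 := cd3q2) (C3 := pd1)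
    rfl k0_mm_112

noncomputable def f_mm_113 : ℕ → ℕ → ℕ → ℕ → Bool := onCell 536870912 536870912 0 1230186008 966367641 24778659
    (rowB 3 eng mog cd0q1 cd3q3 pd1 0 false false false .nn 1 1 3 (qsf 536870912 536870912 0 1230186008 1) ndB0q1 ndB3q3 pcB1 Cut.none Ext.none)

def k0_mm_113 : ∃ t, chk3 f_mm_113 t 1 1 1 = true :=
  ⟨(b (l 5) (b (l 5) (a (l 5) (l 3)))), by decide +kernel⟩

theorem c_mm_113 : CertB 536870912 536870912 0 1230186008 966367641 24778659 3 eng mog cd0q1 cd3q3 pd1 false false false .nn 1 1 3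
    ndB0q1 ndB3q3 pcB1 Cut.none Ext.none :=
  certB0 (fam := false) (s1 := false) (s2 := false) (a := 1) (b := 1) (c := 3) (cn := .nn) (n1 := ndB0q1) (n2 := ndB3q3) (pc := pcB1) (cut := Cut.none) (xt := Ext.none) (P1 := 536870912) (W1 := 536870912) (P2 := 0) (W2 := 1230186008) (P3 := 966367641) (W3 := 24778659) (N0 := 3) (En := eng) (mo := mog) (C1 := cd0q1) (C2 := cd3q3) (C3 := pd1)
    rfl k0_mm_113

noncomputable def f_mm_123 : ℕ → ℕ → ℕ → ℕ → Bool := onCell 1073741824 536870912 0 1230186008 966367641 24778659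
    (rowB 3 eng mog cd0q1 cd3q3 pd2 2 false false false .npn 1 2 3 (qsf 536870912 536870912 0 1230186008 2) ndB0q1 ndB3q3 pcB2 Cut.none Ext.none)

def k0_mm_123 : ∃ t, chk3 f_mm_123 t 1 1 1 = true :=
  ⟨(b (l 5) (l 5)), by decide +kernel⟩

theorem c_mm_123 : CertB 536870912 536870912 0 1230186008 966367641 24778659 3 eng mog cd0q1 cd3q3 pd2 false false false .npn 1 2 3
    ndB0q1 ndB3q3 pcB2 Cut.none Ext.none :=
  certB2 (fam := false) (s1 := false) (s2 := false) (a := 1) (b := 2) (c := 3) (cn := .npn) (n1 := ndB0q1) (n2 := ndB3q3) (pc := pcB2) (cut := Cut.none) (xt := Ext.none) (P1 := 536870912) (W1 := 536870912) (P2 := 0) (W2 := 1230186008) (P3 := 966367641) (W3 := 24778659) (N0 := 3) (En := eng) (mo := mog) (C1 := cd0q1) (C2 := cd3q3) (C3 := pd2)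
    rfl (fun _ => rfl) k0_mm_123

noncomputable def f_mm_133 : ℕ → ℕ → ℕ → ℕ → Bool := onCell 1610612736 536870912 0 1230186008 966367641 24778659
    (rowB 3 eng mog cd0q1 cd3q3 pd3 2 false false false .dn 1 3 3 (qsf 536870912 536870912 0 1230186008 3) ndB0q1 ndB3q3 pcB3 Cut.none Ext.none)

def k0_mm_133 : ∃ t, chk3 f_mm_133 t 1 1 1 = true :=
  ⟨(l 5), by decide +kernel⟩

theorem c_mm_133 : CertB 536870912 536870912 0 1230186008 966367641 24778659 3 eng mog cd0q1 cd3q3 pd3 false false false .dn 1 3 3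
    ndB0q1 ndB3q3 pcB3 Cut.none Ext.none :=
  certB2 (fam := false) (s1 := false) (s2 := false) (a := 1) (b := 3) (c := 3) (cn := .dn) (n1 := ndB0q1) (n2 := ndB3q3) (pc := pcB3) (cut := Cut.none) (xt := Ext.none) (P1 := 536870912) (W1 := 536870912) (P2 := 0) (W2 := 1230186008) (P3 := 966367641) (W3 := 24778659) (N0 := 3) (En := eng) (mo := mog) (C1 := cd0q1) (C2 := cd3q3) (C3 := pd3)
    rfl (fun _ => rfl) k0_mm_133

noncomputable def f_mm_202 : ℕ → ℕ → ℕ → ℕ → Bool := onCell 0 536870912 0 536870912 966367641 24778659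
    (rowB 3 eng mog cd0q2 cd3q2 pd0 1 false false false .pp 2 0 2 (qsf 0 536870912 1073741824 536870912 0) ndB0q2 ndB3q2 pcB0 Cut.none Ext.none)

def k0_mm_202 : ∃ t, chk3 f_mm_202 t 1 1 1 = true :=
  ⟨(a (a (a (b (b (a (b (b (b (a (l 16100128) (b (l 16122752) (c (l 16138912) (l 16344168)))) (c (a (b (l 16297336) (l 16208488)) (b (a (l 16207552) (l 16140680)) (a (l 16258616) (l 16258848)))) (a (l 16280912) (b (l 16331224) (l 16346640))))) (a (b (b (a (l 16249624) (l 16181480)) (l 16203208)) (b (l 16285720) (l 16301192))) (c (b (b (l 16192840) (l 16271312)) (l 218673176423)) (b (l 16309392) (l 222968049287))))) (b (b (c (l 221357638279) (l 226189137479)) (a (c (l 221357743975) (l 231020891255)) (l 3))) (b (c (c (l 464023596503) (l 324437003655)) (b (l 214378174039) (l 313162380327))) (l 3)))) (b (a (b (b (c (c (b (a (l 16168080) (l 189145105655)) (l 182165688599)) (b (l 209009279767) (l 16270672))) (b (a (l 16299704) (l 16275896)) (l 16274112))) (b (c (l 179481339959)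 (l 16314960)) (c (l 181628881111) (l 16316720)))) (b (c (b (l 220820538775) (l 3)) (l 190219034631)) (l 3))) (l 3)) (l 3))) (l 3)) (l 3)) (b (l 3) (l 3))) (l 3)) (l 3)), by decide +kernel⟩

theorem c_mm_202 : CertB 0 536870912 1073741824 536870912 966367641 24778659 3 eng mog cd0q2 cd3q2 pd0 false false false .pp 2 0 2
    ndB0q2 ndB3q2 pcB0 Cut.none Ext.none :=
  certB1 (fam := false) (s1 := false) (s2 := false) (a := 2) (b := 0) (c := 2) (cn := .pp) (n1 := ndB0q2) (n2 := ndB3q2) (pc := pcB0) (cut := Cut.none) (xt := Ext.none) (P1 := 0) (W1 := 536870912) (P2 := 1073741824) (W2 := 536870912) (P3 := 966367641) (W3 := 24778659) (N0 := 3) (En := eng) (mo := mog) (C1 := cd0q2) (C2 := cd3q2) (C3 := pd0)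
    rfl (fun _ => rfl) k0_mm_202

noncomputable def f_mm_203 : ℕ → ℕ → ℕ → ℕ → Bool := onCell 0 536870912 0 1230186008 966367641 24778659
    (rowB 3 eng mog cd0q2 cd3q3 pd0 0 false false false .up 2 0 3 (qsf 0 536870912 0 1230186008 0) ndB0q2 ndB3q3 pcB0 Cut.none Ext.none)

def k0_mm_203 : ∃ t, chk3 f_mm_203 t 1 1 1 = true :=
  ⟨(b (l 2) (b (l 2) (l 3))), by decide +kernel⟩

theorem c_mm_203 : CertB 0 536870912 0 1230186008 966367641 24778659 3 eng mog cd0q2 cd3q3 pd0 false false false .up 2 0 3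
    ndB0q2 ndB3q3 pcB0 Cut.none Ext.none :=
  certB0 (fam := false) (s1 := false) (s2 := false) (a := 2) (b := 0) (c := 3) (cn := .up) (n1 := ndB0q2) (n2 := ndB3q3) (pc := pcB0) (cut := Cut.none) (xt := Ext.none) (P1 := 0) (W1 := 536870912) (P2 := 0) (W2 := 1230186008) (P3 := 966367641) (W3 := 24778659) (N0 := 3) (En := eng) (mo := mog) (C1 := cd0q2) (C2 := cd3q3) (C3 := pd0)
    rfl k0_mm_203

noncomputable def f_mm_213 : ℕ → ℕ → ℕ → ℕ → Bool := onCell 0 536870912 0 1230186008 966367641 24778659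
    (rowB 3 eng mog cd0q2 cd3q3 pd1 0 false false false .pnn 2 1 3 (qsf 0 536870912 0 1230186008 1) ndB0q2 ndB3q3 pcB1 Cut.none Ext.none)

def k0_mm_213 : ∃ t, chk3 f_mm_213 t 1 1 1 = true :=
  ⟨(b (a (l 3) (b (l 5) (l 3))) (b (l 3) (l 3))), by decide +kernel⟩

theorem c_mm_213 : CertB 0 536870912 0 1230186008 966367641 24778659 3 eng mog cd0q2 cd3q3 pd1 false false false .pnn 2 1 3
    ndB0q2 ndB3q3 pcB1 Cut.none Ext.none :=
  certB0 (fam := false) (s1 := false) (s2 := false) (a := 2) (b := 1) (c := 3) (cn := .pnn) (n1 := ndB0q2) (n2 := ndB3q3) (pc := pcB1) (cut := Cut.none) (xt := Ext.none) (P1 := 0) (W1 := 536870912) (P2 := 0) (W2 := 1230186008) (P3 := 966367641) (W3 := 24778659) (N0 := 3) (En := eng) (mo := mog) (C1 := cd0q2) (C2 := cd3q3) (C3 := pd1)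
    rfl k0_mm_213

end Pool.Agent.Strip051.G.I9000_9231.Tab.C.BB03

namespace Pool.Agent.Strip051.G.I9000_9231.Tab.C.BB04

open Pool.Agent.Strip051.PB Pool.Agent.Strip051.PB.T
open Pool.Agent.Strip051.G.I9000_9231.Tab

noncomputable def cut_pp_001 : Cut := Cut.of [[⟨3, 0, 0, 1449551462⟩]]

noncomputable def f_pp_001 : ℕ → ℕ → ℕ → ℕ → Bool := onCell 0 536870912 536870912 536870912 966367641 24778659
    (rowB 3 eng mog cd0q0 cd4q1 pd0 0 false true true .up 0 0 1 (qsf 0 536870912 536870912 536870912 0) ndB0q0 ndB4q1 pcB0 cut_pp_001 Ext.none)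

def k0_pp_001 : ∃ t, chk3 f_pp_001 t 1 1 1 = true :=
  ⟨(l 6), by decide +kernel⟩

theorem c_pp_001 : CertB 0 536870912 536870912 536870912 966367641 24778659 3 eng mog cd0q0 cd4q1 pd0 false true true .up 0 0 1
    ndB0q0 ndB4q1 pcB0 cut_pp_001 Ext.none :=
  certB0 (fam := false) (s1 := true) (s2 := true) (a := 0) (b := 0) (c := 1) (cn := .up) (n1 := ndB0q0) (n2 := ndB4q1) (pc := pcB0) (cut := cut_pp_001) (xt := Ext.none) (P1 := 0) (W1 := 536870912) (P2 := 536870912) (W2 := 536870912) (P3 := 966367641) (W3 := 24778659) (N0 := 3) (En := eng) (mo := mog) (C1 := cd0q0) (C2 := cd4q1) (C3 := pd0)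
    rfl k0_pp_001

noncomputable def cut_pp_011 : Cut := Cut.of [[⟨3, 0, 0, 1449551462⟩], [⟨0, 0, 0, 67108864⟩, ⟨1, 1, 0, 67108864⟩, ⟨2, 1, 0, 67108864⟩]]

noncomputable def f_pp_011 : ℕ → ℕ → ℕ → ℕ → Bool := onCell 0 536870912 536870912 536870912 966367641 24778659
    (rowB 3 eng mog cd0q0 cd4q1 pd1 0 false true true .pnn 0 1 1 (qsf 0 536870912 536870912 536870912 1) ndB0q0 ndB4q1 pcB1 cut_pp_011 Ext.none)

def k0_pp_011 : ∃ t, chk3 f_pp_011 t 1 1 1 = true :=
  ⟨(l 6), by decide +kernel⟩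

theorem c_pp_011 : CertB 0 536870912 536870912 536870912 966367641 24778659 3 eng mog cd0q0 cd4q1 pd1 false true true .pnn 0 1 1
    ndB0q0 ndB4q1 pcB1 cut_pp_011 Ext.none :=
  certB0 (fam := false) (s1 := true) (s2 := true) (a := 0) (b := 1) (c := 1) (cn := .pnn) (n1 := ndB0q0) (n2 := ndB4q1) (pc := pcB1) (cut := cut_pp_011) (xt := Ext.none) (P1 := 0) (W1 := 536870912) (P2 := 536870912) (W2 := 536870912) (P3 := 966367641) (W3 := 24778659) (N0 := 3) (En := eng) (mo := mog) (C1 := cd0q0) (C2 := cd4q1) (C3 := pd1)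
    rfl k0_pp_011

noncomputable def cut_pp_012 : Cut := Cut.of [[⟨3, 0, 0, 1449551462⟩], [⟨0, 0, 0, 67108864⟩, ⟨1, 1, 0, 67108864⟩, ⟨2, 1, 0, 67108864⟩]]

noncomputable def f_pp_012 : ℕ → ℕ → ℕ → ℕ → Bool := onCell 0 536870912 536870912 536870912 966367641 24778659
    (rowB 3 eng mog cd0q0 cd4q2 pd1 1 false true true .pnp 0 1 2 (qsf 0 536870912 1073741824 536870912 1) ndB0q0 ndB4q2 pcB1 cut_pp_012 Ext.none)

def k0_pp_012 : ∃ t, chk3 f_pp_012 t 1 1 1 = true :=
  ⟨(l 6), by decide +kernel⟩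

theorem c_pp_012 : CertB 0 536870912 1073741824 536870912 966367641 24778659 3 eng mog cd0q0 cd4q2 pd1 false true true .pnp 0 1 2
    ndB0q0 ndB4q2 pcB1 cut_pp_012 Ext.none :=
  certB1 (fam := false) (s1 := true) (s2 := true) (a := 0) (b := 1) (c := 2) (cn := .pnp) (n1 := ndB0q0) (n2 := ndB4q2) (pc := pcB1) (cut := cut_pp_012) (xt := Ext.none) (P1 := 0) (W1 := 536870912) (P2 := 1073741824) (W2 := 536870912) (P3 := 966367641) (W3 := 24778659) (N0 := 3) (En := eng) (mo := mog) (C1 := cd0q0) (C2 := cd4q2) (C3 := pd1)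
    rfl (fun _ => rfl) k0_pp_012

noncomputable def cut_pp_022 : Cut := Cut.of [[⟨3, 0, 0, 1449551462⟩], [⟨0, 0, 0, 53687091⟩, ⟨1, 1, 0, 53687091⟩, ⟨2, 1, 0, 53687091⟩]]

noncomputable def f_pp_022 : ℕ → ℕ → ℕ → ℕ → Bool := onCell 0 536870912 1073741824 536870912 966367641 24778659
    (rowB 3 eng mog cd0q0 cd4q2 pd2 0 false true true .pp 0 2 2 (qsf 0 536870912 1073741824 536870912 2) ndB0q0 ndB4q2 pcB2 cut_pp_022 Ext.none)

def k0_pp_022 : ∃ t, chk3 f_pp_022 t 1 1 1 = true :=
  ⟨(a (b (l 6) (a (b (a (b (b (l 6) (a (l 15787544) (l 6))) (b (a (l 15866664) (l 15986728)) (a (l 15800968) (l 15962736)))) (b (l 6) (a (b (l 6) (l 16059688)) (l 6)))) (a (b (b (a (l 15736248) (l 15897760)) (l 15520688)) (b (l 15578888) (l 15610760))) (b (a (b (l 16057304) (l 15992088)) (b (l 6) (l 16136192))) (a (l 15720112) (b (l 16067256) (l 15995952)))))) (b (l 6) (a (b (l 6) (b (a (l 16194752) (l 6)) (l 16099752))) (l 6))))) (l 6)), by decide +kernel⟩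

theorem c_pp_022 : CertB 0 536870912 1073741824 536870912 966367641 24778659 3 eng mog cd0q0 cd4q2 pd2 false true true .pp 0 2 2
    ndB0q0 ndB4q2 pcB2 cut_pp_022 Ext.none :=
  certB0 (fam := false) (s1 := true) (s2 := true) (a := 0) (b := 2) (c := 2) (cn := .pp) (n1 := ndB0q0) (n2 := ndB4q2) (pc := pcB2) (cut := cut_pp_022) (xt := Ext.none) (P1 := 0) (W1 := 536870912) (P2 := 1073741824) (W2 := 536870912) (P3 := 966367641) (W3 := 24778659) (N0 := 3) (En := eng) (mo := mog) (C1 := cd0q0) (C2 := cd4q2) (C3 := pd2)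
    rfl k0_pp_022

noncomputable def cut_pp_023 : Cut := Cut.of [[⟨3, 0, 0, 1449551462⟩]]

noncomputable def f_pp_023 : ℕ → ℕ → ℕ → ℕ → Bool := onCell 1073741824 536870912 0 1230186008 966367641 24778659
    (rowB 3 eng mog cd0q0 cd4q3 pd2 2 false true true .up 0 2 3 (qsf 0 536870912 0 1230186008 2) ndB0q0 ndB4q3 pcB2 cut_pp_023 Ext.none)

def k0_pp_023 : ∃ t, chk3 f_pp_023 t 1 1 1 = true :=
  ⟨(a (b (l 2) (l 6)) (a (b (l 2) (a (b (b (l 2) (l 6)) (l 6)) (b (b (b (l 140223296071) (a (l 16521528) (l 16474008))) (b (a (l 16501440) (l 16448800)) (a (l 16469640) (l 16407432)))) (b (b (a (l 16386160) (l 16353352)) (b (l 16349016) (l 16297440))) (b (b (l 16180744) (a (l 16298096) (l 16209080))) (b (a (l 16266736) (l 16169304)) (a (l 16228432) (l 16119736)))))))) (b (b (a (l 2) (a (l 2) (b (l 15766432) (l 16088200)))) (b (a (b (l 2) (l 16409848)) (b (l 16246344) (a (l 16348520) (l 16289416)))) (a (b (l 16418496) (l 16417792)) (b (l 16190496) (l 16329008))))) (b (b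 (a (b (l 16390024) (l 16331784)) (b (l 16308080) (l 16187264))) (a (b (l 16130112) (l 16072248)) (b (l 16078296) (l 15945232)))) (b (b (a (b (l 16255568) (l 16220864)) (a (l 16114032) (l 16028808))) (a (b (l 16183352) (l 16000816)) (b (l 16004664) (l 15950720)))) (b (a (b (l 16043672) (l 15953448)) (b (a (l 15949720) (l 15832168)) (a (l 15887632) (l 15748632)))) (a (b (a (l 16061456) (l 15943872)) (a (l 16000704) (l 15860360))) (b (a (l 15805160) (l 15653016)) (a (l 15709168) (l 15546272)))))))))), by decide +kernel⟩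

theorem c_pp_023 : CertB 0 536870912 0 1230186008 966367641 24778659 3 eng mog cd0q0 cd4q3 pd2 false true true .up 0 2 3
    ndB0q0 ndB4q3 pcB2 cut_pp_023 Ext.none :=
  certB2 (fam := false) (s1 := true) (s2 := true) (a := 0) (b := 2) (c := 3) (cn := .up) (n1 := ndB0q0) (n2 := ndB4q3) (pc := pcB2) (cut := cut_pp_023) (xt := Ext.none) (P1 := 0) (W1 := 536870912) (P2 := 0) (W2 := 1230186008) (P3 := 966367641) (W3 := 24778659) (N0 := 3) (En := eng) (mo := mog) (C1 := cd0q0) (C2 := cd4q3) (C3 := pd2)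
    rfl (fun _ => rfl) k0_pp_023

noncomputable def cut_pp_033 : Cut := Cut.of [[⟨3, 0, 0, 1449551462⟩]]

noncomputable def f_pp_033 : ℕ → ℕ → ℕ → ℕ → Bool := onCell 1610612736 536870912 0 1230186008 966367641 24778659
    (rowB 3 eng mog cd0q0 cd4q3 pd3 2 false true true .pnn 0 3 3 (qsf 0 536870912 0 1230186008 3) ndB0q0 ndB4q3 pcB3 cut_pp_033 Ext.none)

def k0_pp_033 : ∃ t, chk3 f_pp_033 t 1 2 1 = true :=
  ⟨(b (a (a (a (b (c (l 16281520) (a (l 16003056) (l 15998576))) (c (l 16268680) (l 16045736))) (b (a (c (l 16227024) (l 16018784)) (l 16131264)) (a (l 15860760) (b (l 16075144) (l 16076136))))) (a (b (a (l 16140712) (l 16147944)) (a (b (l 16067888) (l 16039360)) (b (l 16075480) (l 16016264)))) (b (a (l 15976184) (l 15937984)) (a (l 15924656) (l 16060536))))) (a (a (b (a (l 16029496) (l 4)) (a (b (l 16092056) (l 16035952)) (b (l 16058264) (l 16027216)))) (a (b (l 4) (b (l 4) (l 15979648))) (l 4))) (l 4))) (a (a (b (a (b (l 16142552) (l 16130800)) (b (l 16049128)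 (l 16043232))) (a (b (a (l 16141064) (l 16092616)) (l 16093256)) (b (l 15976040) (c (l 16018136) (l 15953008))))) (b (a (b (l 15801504) (l 15944752)) (a (b (l 15964920) (l 15914992)) (b (l 15950792) (l 15889216)))) (a (b (l 15922472) (a (l 15905144) (l 15852008))) (b (l 15708728) (a (l 15794312) (l 15729568)))))) (b (a (a (a (b (l 15955344) (l 15869288)) (b (l 15950000) (l 15844976))) (a (b (l 15925136) (l 15823944)) (b (l 15860232) (l 15777176)))) (a (a (b (l 4) (l 15686264)) (l 4)) (l 4))) (a (a (a (l 15704840) (b (l 15711744) (l 15570856))) (a (b (l 15662968) (l 15476008)) (b (l 15634456) (l 15383368)))) (a (a (b (l 15573048) (l 15322392)) (a (l 413957999719) (l 400536339047))) (b (l 4) (l 1))))))), by decide +kernel⟩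

def k1_pp_033 : ∃ t, chk3 f_pp_033 t 1 3 1 = true :=
  ⟨(b (a (a (b (a (b (l 16058168) (l 16020800)) (b (l 15941856) (a (l 15922776) (l 15858064)))) (a (b (b (l 15990592) (l 15967632)) (a (l 15979064) (l 15897960))) (b (c (l 15833048) (l 15812488)) (a (l 15809688) (l 15712824))))) (b (a (b (a (l 15855464) (l 15791608)) (l 15748128)) (b (a (l 15718320) (l 15633088)) (a (l 15497464) (l 15513040)))) (a (b (a (l 15706744) (l 15505072)) (a (l 15605104) (l 15477328))) (b (a (l 15448304) (l 15357952)) (a (l 15316848) (l 15187064)))))) (b (a (a (b (a (l 15535848) (l 15421336)) (a (l 15303920) (l 15250360))) (a (b (l 15296208) (l 15108680)) (b (l 15170632) (l 14980216)))) (b (a (a (l 15090160) (l 1)) (l 1)) (l 1))) (a (a (b (a (l 15213808) (l 15064352)) (a (l 15035584) (l 14900912))) (b (a (l 14928704) (l 1)) (l 1))) (l 1)))) (a (b (a (a (b (a (l 15925552) (l 15827400)) (b (a (l 15851000) (l 15734944)) (a (l 15780328) (l 15642224)))) (b (b (l 15694832) (l 15618936))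 (b (l 15315848) (l 15345872)))) (b (a (a (l 15453728) (l 15304776)) (b (l 15127440) (l 15026736))) (a (b (l 15085216) (l 15088600)) (l 1)))) (a (b (a (b (a (l 15680744) (l 15525224)) (a (l 15556480) (l 15383064))) (b (l 15020576) (l 15029032))) (a (b (a (l 15406160) (l 15230808)) (a (l 15249128) (l 15098968))) (b (a (l 15079720) (l 1)) (l 1)))) (b (a (b (l 14980192) (l 1)) (l 1)) (l 1)))) (l 1))), by decide +kernel⟩

theorem s2_pp_033 : ∃ t, chk3 f_pp_033 t 1 1 1 = true := ex3_b k0_pp_033 k1_pp_033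

theorem c_pp_033 : CertB 0 536870912 0 1230186008 966367641 24778659 3 eng mog cd0q0 cd4q3 pd3 false true true .pnn 0 3 3
    ndB0q0 ndB4q3 pcB3 cut_pp_033 Ext.none :=
  certB2 (fam := false) (s1 := true) (s2 := true) (a := 0) (b := 3) (c := 3) (cn := .pnn) (n1 := ndB0q0) (n2 := ndB4q3) (pc := pcB3) (cut := cut_pp_033) (xt := Ext.none) (P1 := 0) (W1 := 536870912) (P2 := 0) (W2 := 1230186008) (P3 := 966367641) (W3 := 24778659) (N0 := 3) (En := eng) (mo := mog) (C1 := cd0q0) (C2 := cd4q3) (C3 := pd3)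
    rfl (fun _ => rfl) s2_pp_033

noncomputable def cut_pp_101 : Cut := Cut.of [[⟨3, 0, 0, 1449551462⟩]]

noncomputable def f_pp_101 : ℕ → ℕ → ℕ → ℕ → Bool := onCell 536870912 536870912 0 536870912 966367641 24778659
    (rowB 3 eng mog cd0q1 cd4q1 pd0 1 false true true .npn 1 0 1 (qsf 536870912 536870912 536870912 536870912 0) ndB0q1 ndB4q1 pcB0 cut_pp_101 Ext.none)

def k0_pp_101 : ∃ t, chk3 f_pp_101 t 1 1 1 = true :=
  ⟨(l 6), by decide +kernel⟩

theorem c_pp_101 : CertB 536870912 536870912 536870912 536870912 966367641 24778659 3 eng mog cd0q1 cd4q1 pd0 false true true .npn 1 0 1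
    ndB0q1 ndB4q1 pcB0 cut_pp_101 Ext.none :=
  certB1 (fam := false) (s1 := true) (s2 := true) (a := 1) (b := 0) (c := 1) (cn := .npn) (n1 := ndB0q1) (n2 := ndB4q1) (pc := pcB0) (cut := cut_pp_101) (xt := Ext.none) (P1 := 536870912) (W1 := 536870912) (P2 := 536870912) (W2 := 536870912) (P3 := 966367641) (W3 := 24778659) (N0 := 3) (En := eng) (mo := mog) (C1 := cd0q1) (C2 := cd4q1) (C3 := pd0)
    rfl (fun _ => rfl) k0_pp_101

noncomputable def cut_pp_102 : Cut := Cut.of [[⟨3, 0, 0, 1449551462⟩]]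

noncomputable def f_pp_102 : ℕ → ℕ → ℕ → ℕ → Bool := onCell 536870912 536870912 1073741824 536870912 966367641 24778659
    (rowB 3 eng mog cd0q1 cd4q2 pd0 0 false true true .npp 1 0 2 (qsf 536870912 536870912 1073741824 536870912 0) ndB0q1 ndB4q2 pcB0 cut_pp_102 Ext.none)

def k0_pp_102 : ∃ t, chk3 f_pp_102 t 1 1 1 = true :=
  ⟨(l 6), by decide +kernel⟩

theorem c_pp_102 : CertB 536870912 536870912 1073741824 536870912 966367641 24778659 3 eng mog cd0q1 cd4q2 pd0 false true true .npp 1 0 2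
    ndB0q1 ndB4q2 pcB0 cut_pp_102 Ext.none :=
  certB0 (fam := false) (s1 := true) (s2 := true) (a := 1) (b := 0) (c := 2) (cn := .npp) (n1 := ndB0q1) (n2 := ndB4q2) (pc := pcB0) (cut := cut_pp_102) (xt := Ext.none) (P1 := 536870912) (W1 := 536870912) (P2 := 1073741824) (W2 := 536870912) (P3 := 966367641) (W3 := 24778659) (N0 := 3) (En := eng) (mo := mog) (C1 := cd0q1) (C2 := cd4q2) (C3 := pd0)
    rfl k0_pp_102

noncomputable def cut_pp_112 : Cut := Cut.of [[⟨3, 0, 0, 1449551462⟩]]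

noncomputable def f_pp_112 : ℕ → ℕ → ℕ → ℕ → Bool := onCell 536870912 536870912 1073741824 536870912 966367641 24778659
    (rowB 3 eng mog cd0q1 cd4q2 pd1 0 false true true .dn 1 1 2 (qsf 536870912 536870912 1073741824 536870912 1) ndB0q1 ndB4q2 pcB1 cut_pp_112 Ext.none)

def k0_pp_112 : ∃ t, chk3 f_pp_112 t 1 1 1 = true :=
  ⟨(l 6), by decide +kernel⟩

theorem c_pp_112 : CertB 536870912 536870912 1073741824 536870912 966367641 24778659 3 eng mog cd0q1 cd4q2 pd1 false true true .dn 1 1 2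
    ndB0q1 ndB4q2 pcB1 cut_pp_112 Ext.none :=
  certB0 (fam := false) (s1 := true) (s2 := true) (a := 1) (b := 1) (c := 2) (cn := .dn) (n1 := ndB0q1) (n2 := ndB4q2) (pc := pcB1) (cut := cut_pp_112) (xt := Ext.none) (P1 := 536870912) (W1 := 536870912) (P2 := 1073741824) (W2 := 536870912) (P3 := 966367641) (W3 := 24778659) (N0 := 3) (En := eng) (mo := mog) (C1 := cd0q1) (C2 := cd4q2) (C3 := pd1)
    rfl k0_pp_112

noncomputable def cut_pp_113 : Cut := Cut.of [[⟨3, 0, 0, 1449551462⟩], [⟨0, 1, 0, 47710208⟩, ⟨1, 1, 0, 47710208⟩, ⟨2, 2, 0, 8388608⟩]]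

noncomputable def f_pp_113 : ℕ → ℕ → ℕ → ℕ → Bool := onCell 536870912 536870912 0 1230186008 966367641 24778659
    (rowB 3 eng mog cd0q1 cd4q3 pd1 0 false true true .nn 1 1 3 (qsf 536870912 536870912 0 1230186008 1) ndB0q1 ndB4q3 pcB1 cut_pp_113 Ext.none)

def k0_pp_113 : ∃ t, chk3 f_pp_113 t 1 1 1 = true :=
  ⟨(b (a (l 2) (a (l 2) (b (a (l 2) (l 6)) (l 6)))) (b (a (a (l 2) (l 6)) (l 6)) (l 6))), by decide +kernel⟩

theorem c_pp_113 : CertB 536870912 536870912 0 1230186008 966367641 24778659 3 eng mog cd0q1 cd4q3 pd1 false true true .nn 1 1 3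
    ndB0q1 ndB4q3 pcB1 cut_pp_113 Ext.none :=
  certB0 (fam := false) (s1 := true) (s2 := true) (a := 1) (b := 1) (c := 3) (cn := .nn) (n1 := ndB0q1) (n2 := ndB4q3) (pc := pcB1) (cut := cut_pp_113) (xt := Ext.none) (P1 := 536870912) (W1 := 536870912) (P2 := 0) (W2 := 1230186008) (P3 := 966367641) (W3 := 24778659) (N0 := 3) (En := eng) (mo := mog) (C1 := cd0q1) (C2 := cd4q3) (C3 := pd1)
    rfl k0_pp_113

noncomputable def cut_pp_123 : Cut := Cut.of [[⟨3, 0, 0, 1449551462⟩], [⟨0, 1, 0, 47710208⟩, ⟨1, 1, 0, 47710208⟩, ⟨2, 2, 0, 8388608⟩]]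

noncomputable def f_pp_123 : ℕ → ℕ → ℕ → ℕ → Bool := onCell 536870912 536870912 0 1230186008 966367641 24778659
    (rowB 3 eng mog cd0q1 cd4q3 pd2 0 false true true .npn 1 2 3 (qsf 536870912 536870912 0 1230186008 2) ndB0q1 ndB4q3 pcB2 cut_pp_123 Ext.none)

def k0_pp_123 : ∃ t, chk3 f_pp_123 t 1 1 1 = true :=
  ⟨(b (a (b (a (a (b (b (l 15678648) (l 15940440)) (a (l 15972600) (l 15991824))) (b (c (l 16098432) (l 15938016)) (b (l 16217544) (l 16264136)))) (b (a (c (l 16229128) (l 16010144)) (a (l 16220896) (l 16251064))) (a (b (l 16213888) (a (l 16395064) (l 16465888))) (b (a (l 16428464) (l 16485304)) (a (l 16483472) (l 16539440)))))) (a (b (a (b (a (l 16285816) (l 16348480)) (c (l 16366984) (l 16423744))) (b (a (l 16404536) (l 16425856)) (l 16469008))) (a (b (l 16431272) (l 16464632)) (b (l 16500504) (l 16541184)))) (b (a (b (a (l 16481664) (l 16513096)) (l 16488296)) (b (l 16559320) (a (l 16579232) (l 6)))) (a (b (l 16569176) (a (l 16597312) (l 6))) (l 6)))))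 (a (b (a (b (a (b (l 16374864) (l 16458528)) (b (l 16446656) (l 16518032))) (b (a (l 16530520) (l 16570456)) (a (l 16572856) (l 16609840)))) (b (a (b (l 16511888) (c (l 16547800) (l 16588512))) (a (b (l 16553048) (b (l 16589248) (l 6))) (b (l 16578280) (l 6)))) (a (b (a (l 16599224) (l 6)) (l 6)) (l 6)))) (a (b (b (l 6) (l 6)) (l 6)) (l 6))) (b (a (a (b (b (c (l 16595288) (l 16632776)) (l 6)) (l 6)) (l 6)) (l 6)) (l 6)))) (b (a (a (b (a (b (l 16505424) (a (l 16527600) (l 16571464))) (b (a (l 16567496) (l 6)) (l 6))) (b (l 6) (l 6))) (l 6)) (l 6)) (l 6))), by decide +kernel⟩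

theorem c_pp_123 : CertB 536870912 536870912 0 1230186008 966367641 24778659 3 eng mog cd0q1 cd4q3 pd2 false true true .npn 1 2 3
    ndB0q1 ndB4q3 pcB2 cut_pp_123 Ext.none :=
  certB0 (fam := false) (s1 := true) (s2 := true) (a := 1) (b := 2) (c := 3) (cn := .npn) (n1 := ndB0q1) (n2 := ndB4q3) (pc := pcB2) (cut := cut_pp_123) (xt := Ext.none) (P1 := 536870912) (W1 := 536870912) (P2 := 0) (W2 := 1230186008) (P3 := 966367641) (W3 := 24778659) (N0 := 3) (En := eng) (mo := mog) (C1 := cd0q1) (C2 := cd4q3) (C3 := pd2)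
    rfl k0_pp_123

noncomputable def cut_pp_133 : Cut := Cut.of [[⟨3, 0, 0, 1449551462⟩]]

noncomputable def f_pp_133 : ℕ → ℕ → ℕ → ℕ → Bool := onCell 536870912 536870912 0 1230186008 966367641 24778659
    (rowB 3 eng mog cd0q1 cd4q3 pd3 0 false true true .dn 1 3 3 (qsf 536870912 536870912 0 1230186008 3) ndB0q1 ndB4q3 pcB3 cut_pp_133 Ext.none)

def k0_pp_133 : ∃ t, chk3 f_pp_133 t 1 1 1 = true :=
  ⟨(b (b (a (a (a (b (c (l 16378120) (l 15868808)) (l 1)) (l 1)) (l 1)) (l 1)) (l 1)) (l 1)), by decide +kernel⟩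

theorem c_pp_133 : CertB 536870912 536870912 0 1230186008 966367641 24778659 3 eng mog cd0q1 cd4q3 pd3 false true true .dn 1 3 3
    ndB0q1 ndB4q3 pcB3 cut_pp_133 Ext.none :=
  certB0 (fam := false) (s1 := true) (s2 := true) (a := 1) (b := 3) (c := 3) (cn := .dn) (n1 := ndB0q1) (n2 := ndB4q3) (pc := pcB3) (cut := cut_pp_133) (xt := Ext.none) (P1 := 536870912) (W1 := 536870912) (P2 := 0) (W2 := 1230186008) (P3 := 966367641) (W3 := 24778659) (N0 := 3) (En := eng) (mo := mog) (C1 := cd0q1) (C2 := cd4q3) (C3 := pd3)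
    rfl k0_pp_133

noncomputable def cut_pp_202 : Cut := Cut.of [[⟨3, 0, 0, 1449551462⟩]]

noncomputable def f_pp_202 : ℕ → ℕ → ℕ → ℕ → Bool := onCell 0 536870912 1073741824 536870912 966367641 24778659
    (rowB 3 eng mog cd0q2 cd4q2 pd0 0 false true true .pp 2 0 2 (qsf 0 536870912 1073741824 536870912 0) ndB0q2 ndB4q2 pcB0 cut_pp_202 Ext.none)

def k0_pp_202 : ∃ t, chk3 f_pp_202 t 1 1 1 = true :=
  ⟨(l 5), by decide +kernel⟩

theorem c_pp_202 : CertB 0 536870912 1073741824 536870912 966367641 24778659 3 eng mog cd0q2 cd4q2 pd0 false true true .pp 2 0 2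
    ndB0q2 ndB4q2 pcB0 cut_pp_202 Ext.none :=
  certB0 (fam := false) (s1 := true) (s2 := true) (a := 2) (b := 0) (c := 2) (cn := .pp) (n1 := ndB0q2) (n2 := ndB4q2) (pc := pcB0) (cut := cut_pp_202) (xt := Ext.none) (P1 := 0) (W1 := 536870912) (P2 := 1073741824) (W2 := 536870912) (P3 := 966367641) (W3 := 24778659) (N0 := 3) (En := eng) (mo := mog) (C1 := cd0q2) (C2 := cd4q2) (C3 := pd0)
    rfl k0_pp_202

noncomputable def cut_pp_203 : Cut := Cut.of [[⟨3, 0, 0, 1449551462⟩]]

noncomputable def f_pp_203 : ℕ → ℕ → ℕ → ℕ → Bool := onCell 0 536870912 0 1230186008 966367641 24778659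
    (rowB 3 eng mog cd0q2 cd4q3 pd0 0 false true true .up 2 0 3 (qsf 0 536870912 0 1230186008 0) ndB0q2 ndB4q3 pcB0 cut_pp_203 Ext.none)

def k0_pp_203 : ∃ t, chk3 f_pp_203 t 1 1 1 = true :=
  ⟨(b (l 2) (a (l 5) (l 6))), by decide +kernel⟩

theorem c_pp_203 : CertB 0 536870912 0 1230186008 966367641 24778659 3 eng mog cd0q2 cd4q3 pd0 false true true .up 2 0 3
    ndB0q2 ndB4q3 pcB0 cut_pp_203 Ext.none :=
  certB0 (fam := false) (s1 := true) (s2 := true) (a := 2) (b := 0) (c := 3) (cn := .up) (n1 := ndB0q2) (n2 := ndB4q3) (pc := pcB0) (cut := cut_pp_203) (xt := Ext.none) (P1 := 0) (W1 := 536870912) (P2 := 0) (W2 := 1230186008) (P3 := 966367641) (W3 := 24778659) (N0 := 3) (En := eng) (mo := mog) (C1 := cd0q2) (C2 := cd4q3) (C3 := pd0)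
    rfl k0_pp_203

noncomputable def cut_pp_213 : Cut := Cut.of [[⟨3, 0, 0, 1449551462⟩], [⟨0, 1, 0, 47710208⟩, ⟨1, 1, 0, 47710208⟩, ⟨2, 2, 0, 8388608⟩]]

noncomputable def f_pp_213 : ℕ → ℕ → ℕ → ℕ → Bool := onCell 0 536870912 0 1230186008 966367641 24778659
    (rowB 3 eng mog cd0q2 cd4q3 pd1 0 false true true .pnn 2 1 3 (qsf 0 536870912 0 1230186008 1) ndB0q2 ndB4q3 pcB1 cut_pp_213 Ext.none)

def k0_pp_213 : ∃ t, chk3 f_pp_213 t 1 1 1 = true :=
  ⟨(b (l 6) (a (l 5) (l 6))), by decide +kernel⟩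

theorem c_pp_213 : CertB 0 536870912 0 1230186008 966367641 24778659 3 eng mog cd0q2 cd4q3 pd1 false true true .pnn 2 1 3
    ndB0q2 ndB4q3 pcB1 cut_pp_213 Ext.none :=
  certB0 (fam := false) (s1 := true) (s2 := true) (a := 2) (b := 1) (c := 3) (cn := .pnn) (n1 := ndB0q2) (n2 := ndB4q3) (pc := pcB1) (cut := cut_pp_213) (xt := Ext.none) (P1 := 0) (W1 := 536870912) (P2 := 0) (W2 := 1230186008) (P3 := 966367641) (W3 := 24778659) (N0 := 3) (En := eng) (mo := mog) (C1 := cd0q2) (C2 := cd4q3) (C3 := pd1)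
    rfl k0_pp_213

noncomputable def cut_pm_001 : Cut := Cut.of [[⟨3, 0, 0, 1449551462⟩]]

noncomputable def f_pm_001 : ℕ → ℕ → ℕ → ℕ → Bool := onCell 0 536870912 536870912 536870912 966367641 24778659
    (rowB 3 eng mog cd0q0 cd4q1 pd0 0 false true false .up 0 0 1 (qsf 0 536870912 536870912 536870912 0) ndB0q0 ndB4q1 pcB0 cut_pm_001 Ext.none)

def k0_pm_001 : ∃ t, chk3 f_pm_001 t 1 1 1 = true :=
  ⟨(l 4), by decide +kernel⟩

theorem c_pm_001 : CertB 0 536870912 536870912 536870912 966367641 24778659 3 eng mog cd0q0 cd4q1 pd0 false true false .up 0 0 1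
    ndB0q0 ndB4q1 pcB0 cut_pm_001 Ext.none :=
  certB0 (fam := false) (s1 := true) (s2 := false) (a := 0) (b := 0) (c := 1) (cn := .up) (n1 := ndB0q0) (n2 := ndB4q1) (pc := pcB0) (cut := cut_pm_001) (xt := Ext.none) (P1 := 0) (W1 := 536870912) (P2 := 536870912) (W2 := 536870912) (P3 := 966367641) (W3 := 24778659) (N0 := 3) (En := eng) (mo := mog) (C1 := cd0q0) (C2 := cd4q1) (C3 := pd0)
    rfl k0_pm_001

noncomputable def cut_pm_011 : Cut := Cut.of [[⟨3, 0, 0, 1449551462⟩]]

noncomputable def f_pm_011 : ℕ → ℕ → ℕ → ℕ → Bool := onCell 0 536870912 536870912 536870912 966367641 24778659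
    (rowB 3 eng mog cd0q0 cd4q1 pd1 0 false true false .pnn 0 1 1 (qsf 0 536870912 536870912 536870912 1) ndB0q0 ndB4q1 pcB1 cut_pm_011 Ext.none)

def k0_pm_011 : ∃ t, chk3 f_pm_011 t 1 1 1 = true :=
  ⟨(l 4), by decide +kernel⟩

theorem c_pm_011 : CertB 0 536870912 536870912 536870912 966367641 24778659 3 eng mog cd0q0 cd4q1 pd1 false true false .pnn 0 1 1
    ndB0q0 ndB4q1 pcB1 cut_pm_011 Ext.none :=
  certB0 (fam := false) (s1 := true) (s2 := false) (a := 0) (b := 1) (c := 1) (cn := .pnn) (n1 := ndB0q0) (n2 := ndB4q1) (pc := pcB1) (cut := cut_pm_011) (xt := Ext.none) (P1 := 0) (W1 := 536870912) (P2 := 536870912) (W2 := 536870912) (P3 := 966367641) (W3 := 24778659) (N0 := 3) (En := eng) (mo := mog) (C1 := cd0q0) (C2 := cd4q1) (C3 := pd1)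
    rfl k0_pm_011

noncomputable def cut_pm_012 : Cut := Cut.of [[⟨3, 0, 0, 1449551462⟩]]

noncomputable def f_pm_012 : ℕ → ℕ → ℕ → ℕ → Bool := onCell 0 536870912 1073741824 536870912 966367641 24778659
    (rowB 3 eng mog cd0q0 cd4q2 pd1 0 false true false .pnp 0 1 2 (qsf 0 536870912 1073741824 536870912 1) ndB0q0 ndB4q2 pcB1 cut_pm_012 Ext.none)

def k0_pm_012 : ∃ t, chk3 f_pm_012 t 1 1 1 = true :=
  ⟨(l 4), by decide +kernel⟩

theorem c_pm_012 : CertB 0 536870912 1073741824 536870912 966367641 24778659 3 eng mog cd0q0 cd4q2 pd1 false true false .pnp 0 1 2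
    ndB0q0 ndB4q2 pcB1 cut_pm_012 Ext.none :=
  certB0 (fam := false) (s1 := true) (s2 := false) (a := 0) (b := 1) (c := 2) (cn := .pnp) (n1 := ndB0q0) (n2 := ndB4q2) (pc := pcB1) (cut := cut_pm_012) (xt := Ext.none) (P1 := 0) (W1 := 536870912) (P2 := 1073741824) (W2 := 536870912) (P3 := 966367641) (W3 := 24778659) (N0 := 3) (En := eng) (mo := mog) (C1 := cd0q0) (C2 := cd4q2) (C3 := pd1)
    rfl k0_pm_012

noncomputable def cut_pm_022 : Cut := Cut.of [[⟨3, 0, 0, 1449551462⟩]]

noncomputable def f_pm_022 : ℕ → ℕ → ℕ → ℕ → Bool := onCell 0 536870912 1073741824 536870912 966367641 24778659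
    (rowB 3 eng mog cd0q0 cd4q2 pd2 0 false true false .pp 0 2 2 (qsf 0 536870912 1073741824 536870912 2) ndB0q0 ndB4q2 pcB2 cut_pm_022 Ext.none)

def k0_pm_022 : ∃ t, chk3 f_pm_022 t 1 1 1 = true :=
  ⟨(l 4), by decide +kernel⟩

theorem c_pm_022 : CertB 0 536870912 1073741824 536870912 966367641 24778659 3 eng mog cd0q0 cd4q2 pd2 false true false .pp 0 2 2
    ndB0q0 ndB4q2 pcB2 cut_pm_022 Ext.none :=
  certB0 (fam := false) (s1 := true) (s2 := false) (a := 0) (b := 2) (c := 2) (cn := .pp) (n1 := ndB0q0) (n2 := ndB4q2) (pc := pcB2) (cut := cut_pm_022) (xt := Ext.none) (P1 := 0) (W1 := 536870912) (P2 := 1073741824) (W2 := 536870912) (P3 := 966367641) (W3 := 24778659) (N0 := 3) (En := eng) (mo := mog) (C1 := cd0q0) (C2 := cd4q2) (C3 := pd2)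
    rfl k0_pm_022

noncomputable def cut_pm_023 : Cut := Cut.of [[⟨3, 0, 0, 1449551462⟩]]

noncomputable def f_pm_023 : ℕ → ℕ → ℕ → ℕ → Bool := onCell 0 536870912 0 1230186008 966367641 24778659
    (rowB 3 eng mog cd0q0 cd4q3 pd2 0 false true false .up 0 2 3 (qsf 0 536870912 0 1230186008 2) ndB0q0 ndB4q3 pcB2 cut_pm_023 Ext.none)

def k0_pm_023 : ∃ t, chk3 f_pm_023 t 1 1 1 = true :=
  ⟨(b (a (l 2) (a (l 2) (b (a (l 2) (a (l 2) (b (l 15967344) (b (l 16103640) (l 16109600))))) (a (l 4) (l 4))))) (l 4)), by decide +kernel⟩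

theorem c_pm_023 : CertB 0 536870912 0 1230186008 966367641 24778659 3 eng mog cd0q0 cd4q3 pd2 false true false .up 0 2 3
    ndB0q0 ndB4q3 pcB2 cut_pm_023 Ext.none :=
  certB0 (fam := false) (s1 := true) (s2 := false) (a := 0) (b := 2) (c := 3) (cn := .up) (n1 := ndB0q0) (n2 := ndB4q3) (pc := pcB2) (cut := cut_pm_023) (xt := Ext.none) (P1 := 0) (W1 := 536870912) (P2 := 0) (W2 := 1230186008) (P3 := 966367641) (W3 := 24778659) (N0 := 3) (En := eng) (mo := mog) (C1 := cd0q0) (C2 := cd4q3) (C3 := pd2)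
    rfl k0_pm_023

noncomputable def cut_pm_033 : Cut := Cut.of [[⟨3, 0, 0, 1449551462⟩]]

noncomputable def f_pm_033 : ℕ → ℕ → ℕ → ℕ → Bool := onCell 1610612736 536870912 0 1230186008 966367641 24778659
    (rowB 3 eng mog cd0q0 cd4q3 pd3 2 false true false .pnn 0 3 3 (qsf 0 536870912 0 1230186008 3) ndB0q0 ndB4q3 pcB3 cut_pm_033 Ext.none)

def k0_pm_033 : ∃ t, chk3 f_pm_033 t 1 1 1 = true :=
  ⟨(b (a (b (b (a (a (a (l 16172800) (l 16176488)) (a (l 16143128) (l 15937384))) (a (a (b (l 16188016) (l 4)) (l 21707917575)) (l 4))) (a (a (c (a (l 16154144) (l 16145288)) (a (l 16140152) (l 16158144))) (a (b (l 16172592) (l 4)) (l 4))) (l 4))) (l 4)) (l 4)) (l 4)), by decide +kernel⟩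

theorem c_pm_033 : CertB 0 536870912 0 1230186008 966367641 24778659 3 eng mog cd0q0 cd4q3 pd3 false true false .pnn 0 3 3
    ndB0q0 ndB4q3 pcB3 cut_pm_033 Ext.none :=
  certB2 (fam := false) (s1 := true) (s2 := false) (a := 0) (b := 3) (c := 3) (cn := .pnn) (n1 := ndB0q0) (n2 := ndB4q3) (pc := pcB3) (cut := cut_pm_033) (xt := Ext.none) (P1 := 0) (W1 := 536870912) (P2 := 0) (W2 := 1230186008) (P3 := 966367641) (W3 := 24778659) (N0 := 3) (En := eng) (mo := mog) (C1 := cd0q0) (C2 := cd4q3) (C3 := pd3)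
    rfl (fun _ => rfl) k0_pm_033

noncomputable def cut_pm_101 : Cut := Cut.of [[⟨3, 0, 0, 1449551462⟩]]

noncomputable def f_pm_101 : ℕ → ℕ → ℕ → ℕ → Bool := onCell 536870912 536870912 536870912 536870912 966367641 24778659
    (rowB 3 eng mog cd0q1 cd4q1 pd0 0 false true false .npn 1 0 1 (qsf 536870912 536870912 536870912 536870912 0) ndB0q1 ndB4q1 pcB0 cut_pm_101 Ext.none)

def k0_pm_101 : ∃ t, chk3 f_pm_101 t 1 1 1 = true :=
  ⟨(l 4), by decide +kernel⟩

theorem c_pm_101 : CertB 536870912 536870912 536870912 536870912 966367641 24778659 3 eng mog cd0q1 cd4q1 pd0 false true false .npn 1 0 1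
    ndB0q1 ndB4q1 pcB0 cut_pm_101 Ext.none :=
  certB0 (fam := false) (s1 := true) (s2 := false) (a := 1) (b := 0) (c := 1) (cn := .npn) (n1 := ndB0q1) (n2 := ndB4q1) (pc := pcB0) (cut := cut_pm_101) (xt := Ext.none) (P1 := 536870912) (W1 := 536870912) (P2 := 536870912) (W2 := 536870912) (P3 := 966367641) (W3 := 24778659) (N0 := 3) (En := eng) (mo := mog) (C1 := cd0q1) (C2 := cd4q1) (C3 := pd0)
    rfl k0_pm_101

noncomputable def cut_pm_102 : Cut := Cut.of [[⟨3, 0, 0, 1449551462⟩]]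

noncomputable def f_pm_102 : ℕ → ℕ → ℕ → ℕ → Bool := onCell 536870912 536870912 1073741824 536870912 966367641 24778659
    (rowB 3 eng mog cd0q1 cd4q2 pd0 0 false true false .npp 1 0 2 (qsf 536870912 536870912 1073741824 536870912 0) ndB0q1 ndB4q2 pcB0 cut_pm_102 Ext.none)

def k0_pm_102 : ∃ t, chk3 f_pm_102 t 1 1 1 = true :=
  ⟨(a (l 4) (b (l 4) (a (l 4) (b (l 4) (a (l 4) (b (l 4) (a (l 4) (b (l 15040880) (l 15078152))))))))), by decide +kernel⟩

theorem c_pm_102 : CertB 536870912 536870912 1073741824 536870912 966367641 24778659 3 eng mog cd0q1 cd4q2 pd0 false true false .npp 1 0 2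
    ndB0q1 ndB4q2 pcB0 cut_pm_102 Ext.none :=
  certB0 (fam := false) (s1 := true) (s2 := false) (a := 1) (b := 0) (c := 2) (cn := .npp) (n1 := ndB0q1) (n2 := ndB4q2) (pc := pcB0) (cut := cut_pm_102) (xt := Ext.none) (P1 := 536870912) (W1 := 536870912) (P2 := 1073741824) (W2 := 536870912) (P3 := 966367641) (W3 := 24778659) (N0 := 3) (En := eng) (mo := mog) (C1 := cd0q1) (C2 := cd4q2) (C3 := pd0)
    rfl k0_pm_102

noncomputable def cut_pm_112 : Cut := Cut.of [[⟨3, 0, 0, 1449551462⟩]]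

noncomputable def f_pm_112 : ℕ → ℕ → ℕ → ℕ → Bool := onCell 536870912 536870912 1073741824 536870912 966367641 24778659
    (rowB 3 eng mog cd0q1 cd4q2 pd1 0 false true false .dn 1 1 2 (qsf 536870912 536870912 1073741824 536870912 1) ndB0q1 ndB4q2 pcB1 cut_pm_112 Ext.none)

def k0_pm_112 : ∃ t, chk3 f_pm_112 t 1 1 1 = true :=
  ⟨(a (l 4) (b (l 4) (a (l 4) (b (l 4) (a (l 4) (b (l 4) (a (l 4) (l 519721675319)))))))), by decide +kernel⟩

theorem c_pm_112 : CertB 536870912 536870912 1073741824 536870912 966367641 24778659 3 eng mog cd0q1 cd4q2 pd1 false true false .dn 1 1 2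
    ndB0q1 ndB4q2 pcB1 cut_pm_112 Ext.none :=
  certB0 (fam := false) (s1 := true) (s2 := false) (a := 1) (b := 1) (c := 2) (cn := .dn) (n1 := ndB0q1) (n2 := ndB4q2) (pc := pcB1) (cut := cut_pm_112) (xt := Ext.none) (P1 := 536870912) (W1 := 536870912) (P2 := 1073741824) (W2 := 536870912) (P3 := 966367641) (W3 := 24778659) (N0 := 3) (En := eng) (mo := mog) (C1 := cd0q1) (C2 := cd4q2) (C3 := pd1)
    rfl k0_pm_112

noncomputable def cut_pm_113 : Cut := Cut.of [[⟨3, 0, 0, 1449551462⟩], [⟨0, 1, 0, 47710208⟩, ⟨1, 1, 0, 47710208⟩, ⟨2, 2, 0, 8388608⟩]]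

noncomputable def f_pm_113 : ℕ → ℕ → ℕ → ℕ → Bool := onCell 536870912 536870912 0 1230186008 966367641 24778659
    (rowB 3 eng mog cd0q1 cd4q3 pd1 0 false true false .nn 1 1 3 (qsf 536870912 536870912 0 1230186008 1) ndB0q1 ndB4q3 pcB1 cut_pm_113 Ext.none)

def k0_pm_113 : ∃ t, chk3 f_pm_113 t 1 1 1 = true :=
  ⟨(a (b (l 2) (b (b (l 2) (l 4)) (l 4))) (a (b (l 2) (b (b (a (l 2) (b (l 14793096) (l 14669584))) (a (b (a (b (l 2) (l 13952672)) (l 14172600)) (a (l 4) (l 14290752))) (b (l 14605416) (a (l 14498232) (l 14728984))))) (b (a (l 4) (b (a (l 14649696) (l 14798984)) (b (l 14840752) (l 4)))) (l 4)))) (b (b (a (l 2) (a (l 2) (b (l 6) (b (a (l 2) (l 6)) (l 16651120))))) (a (b (b (l 2) (l 16165368)) (a (l 15810008) (l 16212480))) (b (a (b (l 16633160) (l 16595400)) (b (l 16765304) (l 16774088))) (a (b (l 16503792) (l 16393600)) (b (l 16730536) (l 16645368)))))) (b (a (b (b (l 15568056) (l 15348504)) (b (l 15195840) (l 15092072))) (b (a (l 15952240) (l 16145816))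 (a (l 15483904) (l 15622184)))) (b (a (b (a (b (l 14959240) (l 14978136)) (l 15163856)) (a (l 15039840) (l 15139744))) (b (a (l 15291848) (l 15390528)) (a (b (l 15248256) (l 15222480)) (l 15296536)))) (a (b (b (l 15135992) (l 15166968)) (l 4)) (b (a (b (l 15217144) (l 15202224)) (b (l 15235984) (l 15214480))) (a (b (l 15168192) (l 15146928)) (b (l 15174504) (l 15126192)))))))))), by decide +kernel⟩

theorem c_pm_113 : CertB 536870912 536870912 0 1230186008 966367641 24778659 3 eng mog cd0q1 cd4q3 pd1 false true false .nn 1 1 3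
    ndB0q1 ndB4q3 pcB1 cut_pm_113 Ext.none :=
  certB0 (fam := false) (s1 := true) (s2 := false) (a := 1) (b := 1) (c := 3) (cn := .nn) (n1 := ndB0q1) (n2 := ndB4q3) (pc := pcB1) (cut := cut_pm_113) (xt := Ext.none) (P1 := 536870912) (W1 := 536870912) (P2 := 0) (W2 := 1230186008) (P3 := 966367641) (W3 := 24778659) (N0 := 3) (En := eng) (mo := mog) (C1 := cd0q1) (C2 := cd4q3) (C3 := pd1)
    rfl k0_pm_113

noncomputable def cut_pm_123 : Cut := Cut.of [[⟨3, 0, 0, 1449551462⟩], [⟨0, 1, 0, 47710208⟩, ⟨1, 1, 0, 47710208⟩, ⟨2, 2, 0, 8388608⟩]]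

noncomputable def f_pm_123 : ℕ → ℕ → ℕ → ℕ → Bool := onCell 1073741824 536870912 0 1230186008 966367641 24778659
    (rowB 3 eng mog cd0q1 cd4q3 pd2 2 false true false .npn 1 2 3 (qsf 536870912 536870912 0 1230186008 2) ndB0q1 ndB4q3 pcB2 cut_pm_123 Ext.none)

def k0_pm_123 : ∃ t, chk3 f_pm_123 t 2 2 1 = true :=
  ⟨(a (b (a (b (a (l 6) (b (l 6) (c (l 16667152) (l 16676712)))) (a (b (a (l 6) (l 16694384)) (a (l 16691664) (l 16633752))) (b (a (l 16642384) (l 16591824)) (c (l 16554832) (l 16475344))))) (b (a (b (c (l 16622536) (l 16645960)) (l 16524272)) (a (l 16513360) (l 16457392))) (a (b (l 16521104) (l 16441048)) (b (l 16430144) (l 16337840))))) (a (b (a (b (a (l 16623680) (l 16558512)) (b (l 16529640) (l 16483288))) (b (l 16466160) (l 16329792))) (b (a (b (l 16433504) (l 16335552)) (a (l 16164248) (l 16027368))) (a (l 15815760) (l 15594768)))) (b (b (a (l 16347528) (l 16233272)) (a (a (l 16266936) (l 16184624)) (b (l 16132232) (l 15983808)))) (a (b (l 15874032)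 (l 15486776)) (b (l 15746584) (l 15439208)))))) (b (b (a (a (b (l 16505272) (l 16431624)) (l 16204104)) (a (l 16162344) (l 16115712))) (a (b (a (l 16341184) (l 16245968)) (a (l 16236192) (l 16128056))) (b (a (l 16145272) (l 16041296)) (a (l 16016576) (l 15933424))))) (a (b (b (a (l 16113928) (l 16015192)) (a (l 15927096) (l 15838656))) (a (b (l 15673584) (l 15431352)) (b (l 15638480) (l 15452872)))) (b (a (b (l 15939016) (l 15787872)) (b (l 15890960) (l 15769144))) (a (b (l 15635816) (l 15499464)) (b (l 15658856) (l 15566192))))))), by decide +kernel⟩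

def k1_pm_123 : ∃ t, chk3 f_pm_123 t 3 2 1 = true :=
  ⟨(b (a (b (a (a (l 16067856) (l 16040304)) (b (l 15954696) (a (l 15886552) (l 15829896)))) (a (b (a (l 15941008) (l 15872232)) (a (l 15884440) (l 15874464))) (a (b (l 15842896) (l 15888536)) (l 15887304)))) (a (b (a (l 15738224) (l 15642400)) (a (l 15927368) (l 15980664))) (b (a (l 15705752) (l 15907480)) (a (l 16029072) (l 15888312))))) (b (a (a (a (l 15751488) (l 15741744)) (a (l 15728912) (b (l 15905880) (l 15893984)))) (a (a (b (l 15953584) (l 15940800)) (b (l 16004688) (l 4))) (a (b (l 16046880) (l 4)) (l 4)))) (a (a (a (b (l 15701920) (l 15722992)) (b (l 15755840) (l 4))) (a (b (l 15810008) (l 4)) (l 15831760))) (l 4)))), by decide +kernel⟩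

def k2_pm_123 : ∃ t, chk3 f_pm_123 t 1 3 1 = true :=
  ⟨(b (a (b (a (a (a (b (l 15206936) (l 14696000)) (b (l 15135632) (l 14729896))) (b (a (l 15124488) (l 15153448)) (a (l 14835960) (l 15150872)))) (a (a (b (l 15214416) (l 15146944)) (b (l 15301192) (l 4))) (a (b (l 15400776) (l 4)) (l 4)))) (b (a (a (a (b (l 14369480) (l 14238256)) (b (l 14502384) (l 4))) (a (l 4) (l 4))) (l 4)) (l 4))) (l 4)) (l 4)), by decide +kernel⟩

theorem s3_pm_123 : ∃ t, chk3 f_pm_123 t 1 2 1 = true := ex3_a k0_pm_123 k1_pm_123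

theorem s4_pm_123 : ∃ t, chk3 f_pm_123 t 1 1 1 = true := ex3_b s3_pm_123 k2_pm_123

theorem c_pm_123 : CertB 536870912 536870912 0 1230186008 966367641 24778659 3 eng mog cd0q1 cd4q3 pd2 false true false .npn 1 2 3
    ndB0q1 ndB4q3 pcB2 cut_pm_123 Ext.none :=
  certB2 (fam := false) (s1 := true) (s2 := false) (a := 1) (b := 2) (c := 3) (cn := .npn) (n1 := ndB0q1) (n2 := ndB4q3) (pc := pcB2) (cut := cut_pm_123) (xt := Ext.none) (P1 := 536870912) (W1 := 536870912) (P2 := 0) (W2 := 1230186008) (P3 := 966367641) (W3 := 24778659) (N0 := 3) (En := eng) (mo := mog) (C1 := cd0q1) (C2 := cd4q3) (C3 := pd2)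
    rfl (fun _ => rfl) s4_pm_123

noncomputable def cut_pm_133 : Cut := Cut.of [[⟨3, 0, 0, 1449551462⟩]]

noncomputable def f_pm_133 : ℕ → ℕ → ℕ → ℕ → Bool := onCell 536870912 536870912 0 1230186008 966367641 24778659
    (rowB 3 eng mog cd0q1 cd4q3 pd3 0 false true false .dn 1 3 3 (qsf 536870912 536870912 0 1230186008 3) ndB0q1 ndB4q3 pcB3 cut_pm_133 Ext.none)

def k0_pm_133 : ∃ t, chk3 f_pm_133 t 1 1 1 = true :=
  ⟨(b (b (a (a (a (b (a (l 16012792) (l 1)) (l 1)) (l 1)) (l 1)) (l 1)) (l 1)) (l 1)), by decide +kernel⟩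

theorem c_pm_133 : CertB 536870912 536870912 0 1230186008 966367641 24778659 3 eng mog cd0q1 cd4q3 pd3 false true false .dn 1 3 3
    ndB0q1 ndB4q3 pcB3 cut_pm_133 Ext.none :=
  certB0 (fam := false) (s1 := true) (s2 := false) (a := 1) (b := 3) (c := 3) (cn := .dn) (n1 := ndB0q1) (n2 := ndB4q3) (pc := pcB3) (cut := cut_pm_133) (xt := Ext.none) (P1 := 536870912) (W1 := 536870912) (P2 := 0) (W2 := 1230186008) (P3 := 966367641) (W3 := 24778659) (N0 := 3) (En := eng) (mo := mog) (C1 := cd0q1) (C2 := cd4q3) (C3 := pd3)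
    rfl k0_pm_133

noncomputable def cut_pm_202 : Cut := Cut.of [[⟨3, 0, 0, 1449551462⟩]]

noncomputable def f_pm_202 : ℕ → ℕ → ℕ → ℕ → Bool := onCell 0 536870912 1073741824 536870912 966367641 24778659
    (rowB 3 eng mog cd0q2 cd4q2 pd0 0 false true false .pp 2 0 2 (qsf 0 536870912 1073741824 536870912 0) ndB0q2 ndB4q2 pcB0 cut_pm_202 Ext.none)

def k0_pm_202 : ∃ t, chk3 f_pm_202 t 1 1 1 = true :=
  ⟨(a (b (a (b (l 1) (a (b (b (b (l 1) (l 15713608)) (l 15792560)) (b (b (l 15872712) (l 15912336)) (l 15976240))) (b (b (l 15468776) (l 15632296)) (b (b (l 15732616) (l 15780096)) (l 15839904))))) (b (b (l 1) (b (l 1) (a (l 1) (b (l 1) (l 14879512))))) (a (b (b (l 15258856) (l 15428128)) (b (l 15570080) (l 15695224))) (b (a (l 15162336) (l 15069264)) (l 15431736))))) (b (b (a (b (a (l 16062832) (l 15930320)) (l 16064696)) (b (a (l 15779408) (l 15600624)) (a (l 15846304) (l 15691112)))) (a (b (l 16116120) (a (l 16222400) (l 16098064))) (a (l 15937760) (b (l 15749288)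 (l 15806760))))) (b (a (b (a (l 16241976) (l 16139400)) (a (l 16274896) (l 16162784))) (a (l 16017568) (l 15880216))) (a (a (l 16327824) (l 16214888)) (a (b (l 16071248) (l 16102776)) (l 15948328)))))) (b (b (a (b (l 1) (a (b (l 1) (a (l 14785536) (b (l 14485240) (l 14587768)))) (l 4))) (l 4)) (a (b (a (b (a (l 14856720) (l 14738640)) (l 14983440)) (a (b (l 14654224) (l 14820176)) (l 4))) (a (a (l 15274032) (l 15144264)) (a (l 15034440) (l 14935608)))) (b (l 4) (a (l 4) (l 4))))) (b (a (b (a (l 15452896) (b (l 15198104) (l 15302936))) (a (b (l 15575592) (l 15643496)) (l 15424664))) (b (a (b (a (l 15041064) (l 4)) (a (l 15141672) (l 15037080))) (l 4)) (a (a (l 15269608) (l 15156008)) (a (l 15033424) (l 4))))) (a (b (a (l 15545208) (l 15549992)) (a (l 15803456) (b (l 15631896) (l 15672584)))) (b (a (l 15348408) (a (l 15158112) (l 15014584))) (a (b (l 15440192) (l 15496088)) (b (l 15169200) (l 15227504)))))))), by decide +kernel⟩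

theorem c_pm_202 : CertB 0 536870912 1073741824 536870912 966367641 24778659 3 eng mog cd0q2 cd4q2 pd0 false true false .pp 2 0 2
    ndB0q2 ndB4q2 pcB0 cut_pm_202 Ext.none :=
  certB0 (fam := false) (s1 := true) (s2 := false) (a := 2) (b := 0) (c := 2) (cn := .pp) (n1 := ndB0q2) (n2 := ndB4q2) (pc := pcB0) (cut := cut_pm_202) (xt := Ext.none) (P1 := 0) (W1 := 536870912) (P2 := 1073741824) (W2 := 536870912) (P3 := 966367641) (W3 := 24778659) (N0 := 3) (En := eng) (mo := mog) (C1 := cd0q2) (C2 := cd4q2) (C3 := pd0)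
    rfl k0_pm_202

noncomputable def cut_pm_203 : Cut := Cut.of [[⟨3, 0, 0, 1449551462⟩]]

noncomputable def f_pm_203 : ℕ → ℕ → ℕ → ℕ → Bool := onCell 0 536870912 0 1230186008 966367641 24778659
    (rowB 3 eng mog cd0q2 cd4q3 pd0 0 false true false .up 2 0 3 (qsf 0 536870912 0 1230186008 0) ndB0q2 ndB4q3 pcB0 cut_pm_203 Ext.none)

def k0_pm_203 : ∃ t, chk3 f_pm_203 t 1 1 1 = true :=
  ⟨(b (l 2) (b (l 2) (a (b (b (l 2) (a (b (l 2) (a (l 6) (l 16493360))) (a (b (l 2) (l 16379544)) (l 364097691207)))) (b (a (a (b (l 16551800) (a (l 16526736) (l 16467744))) (b (l 16331888) (l 16389280))) (a (b (l 16318880) (l 16262096)) (l 16150096))) (a (a (b (b (l 16455832) (l 16433600)) (l 16398888)) (b (l 16332632) (l 16281704))) (b (l 16129800) (a (l 16151984) (l 15996904)))))) (b (l 2) (a (b (a (l 15987944) (b (l 2) (l 15767136))) (a (b (l 15884464) (l 15844568)) (b (l 15722376) (l 15700544)))) (b (a (b (l 2) (l 15563768)) (l 2)) (a (b (l 15569328) (l 15546456)) (b (a (l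 15432800) (l 2)) (l 15292880))))))))), by decide +kernel⟩

theorem c_pm_203 : CertB 0 536870912 0 1230186008 966367641 24778659 3 eng mog cd0q2 cd4q3 pd0 false true false .up 2 0 3
    ndB0q2 ndB4q3 pcB0 cut_pm_203 Ext.none :=
  certB0 (fam := false) (s1 := true) (s2 := false) (a := 2) (b := 0) (c := 3) (cn := .up) (n1 := ndB0q2) (n2 := ndB4q3) (pc := pcB0) (cut := cut_pm_203) (xt := Ext.none) (P1 := 0) (W1 := 536870912) (P2 := 0) (W2 := 1230186008) (P3 := 966367641) (W3 := 24778659) (N0 := 3) (En := eng) (mo := mog) (C1 := cd0q2) (C2 := cd4q3) (C3 := pd0)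
    rfl k0_pm_203

noncomputable def cut_pm_213 : Cut := Cut.of [[⟨3, 0, 0, 1449551462⟩], [⟨0, 1, 0, 47710208⟩, ⟨1, 1, 0, 47710208⟩, ⟨2, 2, 0, 8388608⟩]]

noncomputable def f_pm_213 : ℕ → ℕ → ℕ → ℕ → Bool := onCell 0 536870912 0 1230186008 966367641 24778659
    (rowB 3 eng mog cd0q2 cd4q3 pd1 0 false true false .pnn 2 1 3 (qsf 0 536870912 0 1230186008 1) ndB0q2 ndB4q3 pcB1 cut_pm_213 Ext.none)

def k0_pm_213 : ∃ t, chk3 f_pm_213 t 1 1 1 = true :=
  ⟨(b (a (l 6) (b (a (l 6) (l 6)) (a (b (l 6) (a (l 6) (b (l 6) (a (l 6) (l 16565152))))) (b (a (b (l 6) (a (l 6) (l 16738432))) (b (a (l 6) (l 16795672)) (a (l 16778024) (l 16822352)))) (a (b (a (l 16621064) (l 16622992)) (a (l 16521592) (l 16490520))) (b (l 16631496) (a (l 16493816) (l 16601800)))))))) (b (a (b (l 6) (a (l 6) (b (a (l 6) (b (l 16579424) (l 16536312))) (a (b (l 6) (l 16556928)) (l 16463800))))) (a (b (a (b (b (l 6) (l 6)) (l 16424368)) (b (a (l 16529808) (l 16471720)) (l 16402736))) (b (a (l 16438040)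 (l 16297384)) (a (l 16336000) (l 16193520)))) (b (a (b (a (l 16410896) (l 16350424)) (l 16313944)) (b (l 16294032) (l 16079600))) (a (b (l 16120688) (l 16001776)) (b (l 15888736) (l 15727704)))))) (a (b (b (a (l 6) (a (b (l 16505904) (l 16447784)) (b (l 16380824) (l 16332376)))) (a (a (l 6) (b (l 16508496) (l 16439136))) (a (b (l 16383888) (l 16332096)) (l 16251704)))) (b (a (l 1) (b (l 1828077445223) (l 1))) (l 1))) (b (a (b (a (l 16243152) (l 16101312)) (a (l 16161040) (l 16018904))) (a (b (l 15898512) (l 15812904)) (b (l 15599696) (b (l 15525152) (l 15481096))))) (a (b (a (l 16082504) (l 15771976)) (l 1)) (b (a (b (l 15757936) (l 15722216)) (b (l 15450464) (a (l 15502128) (l 15319952)))) (a (b (l 15679328) (l 1)) (b (a (l 15461064) (l 15282352)) (l 15323824))))))))), by decide +kernel⟩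

theorem c_pm_213 : CertB 0 536870912 0 1230186008 966367641 24778659 3 eng mog cd0q2 cd4q3 pd1 false true false .pnn 2 1 3
    ndB0q2 ndB4q3 pcB1 cut_pm_213 Ext.none :=
  certB0 (fam := false) (s1 := true) (s2 := false) (a := 2) (b := 1) (c := 3) (cn := .pnn) (n1 := ndB0q2) (n2 := ndB4q3) (pc := pcB1) (cut := cut_pm_213) (xt := Ext.none) (P1 := 0) (W1 := 536870912) (P2 := 0) (W2 := 1230186008) (P3 := 966367641) (W3 := 24778659) (N0 := 3) (En := eng) (mo := mog) (C1 := cd0q2) (C2 := cd4q3) (C3 := pd1)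
    rfl k0_pm_213

noncomputable def cut_mm_001 : Cut := Cut.of [[⟨3, 0, 0, 1449551462⟩]]

noncomputable def f_mm_001 : ℕ → ℕ → ℕ → ℕ → Bool := onCell 0 536870912 536870912 536870912 966367641 24778659
    (rowB 3 eng mog cd0q0 cd4q1 pd0 0 false false false .up 0 0 1 (qsf 0 536870912 536870912 536870912 0) ndB0q0 ndB4q1 pcB0 cut_mm_001 Ext.none)

def k0_mm_001 : ∃ t, chk3 f_mm_001 t 1 1 1 = true :=
  ⟨(l 6), by decide +kernel⟩

theorem c_mm_001 : CertB 0 536870912 536870912 536870912 966367641 24778659 3 eng mog cd0q0 cd4q1 pd0 false false false .up 0 0 1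
    ndB0q0 ndB4q1 pcB0 cut_mm_001 Ext.none :=
  certB0 (fam := false) (s1 := false) (s2 := false) (a := 0) (b := 0) (c := 1) (cn := .up) (n1 := ndB0q0) (n2 := ndB4q1) (pc := pcB0) (cut := cut_mm_001) (xt := Ext.none) (P1 := 0) (W1 := 536870912) (P2 := 536870912) (W2 := 536870912) (P3 := 966367641) (W3 := 24778659) (N0 := 3) (En := eng) (mo := mog) (C1 := cd0q0) (C2 := cd4q1) (C3 := pd0)
    rfl k0_mm_001

noncomputable def cut_mm_011 : Cut := Cut.of [[⟨3, 0, 0, 1449551462⟩]]

noncomputable def f_mm_011 : ℕ → ℕ → ℕ → ℕ → Bool := onCell 0 536870912 536870912 536870912 966367641 24778659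
    (rowB 3 eng mog cd0q0 cd4q1 pd1 0 false false false .pnn 0 1 1 (qsf 0 536870912 536870912 536870912 1) ndB0q0 ndB4q1 pcB1 cut_mm_011 Ext.none)

def k0_mm_011 : ∃ t, chk3 f_mm_011 t 1 1 1 = true :=
  ⟨(l 6), by decide +kernel⟩

theorem c_mm_011 : CertB 0 536870912 536870912 536870912 966367641 24778659 3 eng mog cd0q0 cd4q1 pd1 false false false .pnn 0 1 1
    ndB0q0 ndB4q1 pcB1 cut_mm_011 Ext.none :=
  certB0 (fam := false) (s1 := false) (s2 := false) (a := 0) (b := 1) (c := 1) (cn := .pnn) (n1 := ndB0q0) (n2 := ndB4q1) (pc := pcB1) (cut := cut_mm_011) (xt := Ext.none) (P1 := 0) (W1 := 536870912) (P2 := 536870912) (W2 := 536870912) (P3 := 966367641) (W3 := 24778659) (N0 := 3) (En := eng) (mo := mog) (C1 := cd0q0) (C2 := cd4q1) (C3 := pd1)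
    rfl k0_mm_011

noncomputable def cut_mm_012 : Cut := Cut.of [[⟨3, 0, 0, 1449551462⟩]]

noncomputable def f_mm_012 : ℕ → ℕ → ℕ → ℕ → Bool := onCell 0 536870912 1073741824 536870912 966367641 24778659
    (rowB 3 eng mog cd0q0 cd4q2 pd1 0 false false false .pnp 0 1 2 (qsf 0 536870912 1073741824 536870912 1) ndB0q0 ndB4q2 pcB1 cut_mm_012 Ext.none)

def k0_mm_012 : ∃ t, chk3 f_mm_012 t 1 1 1 = true :=
  ⟨(l 5), by decide +kernel⟩

theorem c_mm_012 : CertB 0 536870912 1073741824 536870912 966367641 24778659 3 eng mog cd0q0 cd4q2 pd1 false false false .pnp 0 1 2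
    ndB0q0 ndB4q2 pcB1 cut_mm_012 Ext.none :=
  certB0 (fam := false) (s1 := false) (s2 := false) (a := 0) (b := 1) (c := 2) (cn := .pnp) (n1 := ndB0q0) (n2 := ndB4q2) (pc := pcB1) (cut := cut_mm_012) (xt := Ext.none) (P1 := 0) (W1 := 536870912) (P2 := 1073741824) (W2 := 536870912) (P3 := 966367641) (W3 := 24778659) (N0 := 3) (En := eng) (mo := mog) (C1 := cd0q0) (C2 := cd4q2) (C3 := pd1)
    rfl k0_mm_012

noncomputable def cut_mm_022 : Cut := Cut.of [[⟨3, 0, 0, 1449551462⟩]]

noncomputable def f_mm_022 : ℕ → ℕ → ℕ → ℕ → Bool := onCell 0 536870912 1073741824 536870912 966367641 24778659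
    (rowB 3 eng mog cd0q0 cd4q2 pd2 0 false false false .pp 0 2 2 (qsf 0 536870912 1073741824 536870912 2) ndB0q0 ndB4q2 pcB2 cut_mm_022 Ext.none)

def k0_mm_022 : ∃ t, chk3 f_mm_022 t 1 1 1 = true :=
  ⟨(l 5), by decide +kernel⟩

theorem c_mm_022 : CertB 0 536870912 1073741824 536870912 966367641 24778659 3 eng mog cd0q0 cd4q2 pd2 false false false .pp 0 2 2
    ndB0q0 ndB4q2 pcB2 cut_mm_022 Ext.none :=
  certB0 (fam := false) (s1 := false) (s2 := false) (a := 0) (b := 2) (c := 2) (cn := .pp) (n1 := ndB0q0) (n2 := ndB4q2) (pc := pcB2) (cut := cut_mm_022) (xt := Ext.none) (P1 := 0) (W1 := 536870912) (P2 := 1073741824) (W2 := 536870912) (P3 := 966367641) (W3 := 24778659) (N0 := 3) (En := eng) (mo := mog) (C1 := cd0q0) (C2 := cd4q2) (C3 := pd2)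
    rfl k0_mm_022

noncomputable def cut_mm_023 : Cut := Cut.of [[⟨3, 0, 0, 1449551462⟩]]

noncomputable def f_mm_023 : ℕ → ℕ → ℕ → ℕ → Bool := onCell 0 536870912 0 1230186008 966367641 24778659
    (rowB 3 eng mog cd0q0 cd4q3 pd2 0 false false false .up 0 2 3 (qsf 0 536870912 0 1230186008 2) ndB0q0 ndB4q3 pcB2 cut_mm_023 Ext.none)

def k0_mm_023 : ∃ t, chk3 f_mm_023 t 1 1 1 = true :=
  ⟨(l 5), by decide +kernel⟩

theorem c_mm_023 : CertB 0 536870912 0 1230186008 966367641 24778659 3 eng mog cd0q0 cd4q3 pd2 false false false .up 0 2 3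
    ndB0q0 ndB4q3 pcB2 cut_mm_023 Ext.none :=
  certB0 (fam := false) (s1 := false) (s2 := false) (a := 0) (b := 2) (c := 3) (cn := .up) (n1 := ndB0q0) (n2 := ndB4q3) (pc := pcB2) (cut := cut_mm_023) (xt := Ext.none) (P1 := 0) (W1 := 536870912) (P2 := 0) (W2 := 1230186008) (P3 := 966367641) (W3 := 24778659) (N0 := 3) (En := eng) (mo := mog) (C1 := cd0q0) (C2 := cd4q3) (C3 := pd2)
    rfl k0_mm_023

noncomputable def cut_mm_033 : Cut := Cut.of [[⟨3, 0, 0, 1449551462⟩]]

noncomputable def f_mm_033 : ℕ → ℕ → ℕ → ℕ → Bool := onCell 0 536870912 0 1230186008 966367641 24778659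
    (rowB 3 eng mog cd0q0 cd4q3 pd3 0 false false false .pnn 0 3 3 (qsf 0 536870912 0 1230186008 3) ndB0q0 ndB4q3 pcB3 cut_mm_033 Ext.none)

def k0_mm_033 : ∃ t, chk3 f_mm_033 t 1 1 1 = true :=
  ⟨(l 5), by decide +kernel⟩

theorem c_mm_033 : CertB 0 536870912 0 1230186008 966367641 24778659 3 eng mog cd0q0 cd4q3 pd3 false false false .pnn 0 3 3
    ndB0q0 ndB4q3 pcB3 cut_mm_033 Ext.none :=
  certB0 (fam := false) (s1 := false) (s2 := false) (a := 0) (b := 3) (c := 3) (cn := .pnn) (n1 := ndB0q0) (n2 := ndB4q3) (pc := pcB3) (cut := cut_mm_033) (xt := Ext.none) (P1 := 0) (W1 := 536870912) (P2 := 0) (W2 := 1230186008) (P3 := 966367641) (W3 := 24778659) (N0 := 3) (En := eng) (mo := mog) (C1 := cd0q0) (C2 := cd4q3) (C3 := pd3)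
    rfl k0_mm_033

noncomputable def cut_mm_101 : Cut := Cut.of [[⟨3, 0, 0, 1449551462⟩], [⟨0, 1, 0, 67108864⟩, ⟨1, 0, 0, 67108864⟩, ⟨2, 1, 0, 67108864⟩]]

noncomputable def f_mm_101 : ℕ → ℕ → ℕ → ℕ → Bool := onCell 536870912 536870912 0 536870912 966367641 24778659
    (rowB 3 eng mog cd0q1 cd4q1 pd0 1 false false false .npn 1 0 1 (qsf 536870912 536870912 536870912 536870912 0) ndB0q1 ndB4q1 pcB0 cut_mm_101 Ext.none)

def k0_mm_101 : ∃ t, chk3 f_mm_101 t 1 1 1 = true :=
  ⟨(l 6), by decide +kernel⟩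

theorem c_mm_101 : CertB 536870912 536870912 536870912 536870912 966367641 24778659 3 eng mog cd0q1 cd4q1 pd0 false false false .npn 1 0 1
    ndB0q1 ndB4q1 pcB0 cut_mm_101 Ext.none :=
  certB1 (fam := false) (s1 := false) (s2 := false) (a := 1) (b := 0) (c := 1) (cn := .npn) (n1 := ndB0q1) (n2 := ndB4q1) (pc := pcB0) (cut := cut_mm_101) (xt := Ext.none) (P1 := 536870912) (W1 := 536870912) (P2 := 536870912) (W2 := 536870912) (P3 := 966367641) (W3 := 24778659) (N0 := 3) (En := eng) (mo := mog) (C1 := cd0q1) (C2 := cd4q1) (C3 := pd0)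
    rfl (fun _ => rfl) k0_mm_101

noncomputable def cut_mm_102 : Cut := Cut.of [[⟨3, 0, 0, 1449551462⟩], [⟨0, 1, 0, 67108864⟩, ⟨1, 0, 0, 67108864⟩, ⟨2, 1, 0, 67108864⟩]]

noncomputable def f_mm_102 : ℕ → ℕ → ℕ → ℕ → Bool := onCell 536870912 536870912 1073741824 536870912 966367641 24778659
    (rowB 3 eng mog cd0q1 cd4q2 pd0 0 false false false .npp 1 0 2 (qsf 536870912 536870912 1073741824 536870912 0) ndB0q1 ndB4q2 pcB0 cut_mm_102 Ext.none)

def k0_mm_102 : ∃ t, chk3 f_mm_102 t 1 1 1 = true :=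
  ⟨(l 6), by decide +kernel⟩

theorem c_mm_102 : CertB 536870912 536870912 1073741824 536870912 966367641 24778659 3 eng mog cd0q1 cd4q2 pd0 false false false .npp 1 0 2
    ndB0q1 ndB4q2 pcB0 cut_mm_102 Ext.none :=
  certB0 (fam := false) (s1 := false) (s2 := false) (a := 1) (b := 0) (c := 2) (cn := .npp) (n1 := ndB0q1) (n2 := ndB4q2) (pc := pcB0) (cut := cut_mm_102) (xt := Ext.none) (P1 := 536870912) (W1 := 536870912) (P2 := 1073741824) (W2 := 536870912) (P3 := 966367641) (W3 := 24778659) (N0 := 3) (En := eng) (mo := mog) (C1 := cd0q1) (C2 := cd4q2) (C3 := pd0)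
    rfl k0_mm_102

noncomputable def cut_mm_112 : Cut := Cut.of [[⟨3, 0, 0, 1449551462⟩]]

noncomputable def f_mm_112 : ℕ → ℕ → ℕ → ℕ → Bool := onCell 536870912 536870912 1073741824 536870912 966367641 24778659
    (rowB 3 eng mog cd0q1 cd4q2 pd1 0 false false false .dn 1 1 2 (qsf 536870912 536870912 1073741824 536870912 1) ndB0q1 ndB4q2 pcB1 cut_mm_112 Ext.none)

def k0_mm_112 : ∃ t, chk3 f_mm_112 t 1 1 1 = true :=
  ⟨(l 6), by decide +kernel⟩

theorem c_mm_112 : CertB 536870912 536870912 1073741824 536870912 966367641 24778659 3 eng mog cd0q1 cd4q2 pd1 false false false .dn 1 1 2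
    ndB0q1 ndB4q2 pcB1 cut_mm_112 Ext.none :=
  certB0 (fam := false) (s1 := false) (s2 := false) (a := 1) (b := 1) (c := 2) (cn := .dn) (n1 := ndB0q1) (n2 := ndB4q2) (pc := pcB1) (cut := cut_mm_112) (xt := Ext.none) (P1 := 536870912) (W1 := 536870912) (P2 := 1073741824) (W2 := 536870912) (P3 := 966367641) (W3 := 24778659) (N0 := 3) (En := eng) (mo := mog) (C1 := cd0q1) (C2 := cd4q2) (C3 := pd1)
    rfl k0_mm_112

noncomputable def cut_mm_113 : Cut := Cut.of [[⟨3, 0, 0, 1449551462⟩]]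

noncomputable def f_mm_113 : ℕ → ℕ → ℕ → ℕ → Bool := onCell 536870912 536870912 0 1230186008 966367641 24778659
    (rowB 3 eng mog cd0q1 cd4q3 pd1 0 false false false .nn 1 1 3 (qsf 536870912 536870912 0 1230186008 1) ndB0q1 ndB4q3 pcB1 cut_mm_113 Ext.none)

def k0_mm_113 : ∃ t, chk3 f_mm_113 t 1 1 1 = true :=
  ⟨(a (l 5) (b (l 5) (l 6))), by decide +kernel⟩

theorem c_mm_113 : CertB 536870912 536870912 0 1230186008 966367641 24778659 3 eng mog cd0q1 cd4q3 pd1 false false false .nn 1 1 3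
    ndB0q1 ndB4q3 pcB1 cut_mm_113 Ext.none :=
  certB0 (fam := false) (s1 := false) (s2 := false) (a := 1) (b := 1) (c := 3) (cn := .nn) (n1 := ndB0q1) (n2 := ndB4q3) (pc := pcB1) (cut := cut_mm_113) (xt := Ext.none) (P1 := 536870912) (W1 := 536870912) (P2 := 0) (W2 := 1230186008) (P3 := 966367641) (W3 := 24778659) (N0 := 3) (En := eng) (mo := mog) (C1 := cd0q1) (C2 := cd4q3) (C3 := pd1)
    rfl k0_mm_113

noncomputable def cut_mm_123 : Cut := Cut.of [[⟨3, 0, 0, 1449551462⟩]]

noncomputable def f_mm_123 : ℕ → ℕ → ℕ → ℕ → Bool := onCell 1073741824 536870912 0 1230186008 966367641 24778659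
    (rowB 3 eng mog cd0q1 cd4q3 pd2 2 false false false .npn 1 2 3 (qsf 536870912 536870912 0 1230186008 2) ndB0q1 ndB4q3 pcB2 cut_mm_123 Ext.none)

def k0_mm_123 : ∃ t, chk3 f_mm_123 t 1 1 1 = true :=
  ⟨(b (l 5) (l 5)), by decide +kernel⟩

theorem c_mm_123 : CertB 536870912 536870912 0 1230186008 966367641 24778659 3 eng mog cd0q1 cd4q3 pd2 false false false .npn 1 2 3
    ndB0q1 ndB4q3 pcB2 cut_mm_123 Ext.none :=
  certB2 (fam := false) (s1 := false) (s2 := false) (a := 1) (b := 2) (c := 3) (cn := .npn) (n1 := ndB0q1) (n2 := ndB4q3) (pc := pcB2) (cut := cut_mm_123) (xt := Ext.none) (P1 := 536870912) (W1 := 536870912) (P2 := 0) (W2 := 1230186008) (P3 := 966367641) (W3 := 24778659) (N0 := 3) (En := eng) (mo := mog) (C1 := cd0q1) (C2 := cd4q3) (C3 := pd2)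
    rfl (fun _ => rfl) k0_mm_123

noncomputable def cut_mm_133 : Cut := Cut.of [[⟨3, 0, 0, 1449551462⟩]]

noncomputable def f_mm_133 : ℕ → ℕ → ℕ → ℕ → Bool := onCell 1610612736 536870912 0 1230186008 966367641 24778659
    (rowB 3 eng mog cd0q1 cd4q3 pd3 2 false false false .dn 1 3 3 (qsf 536870912 536870912 0 1230186008 3) ndB0q1 ndB4q3 pcB3 cut_mm_133 Ext.none)

def k0_mm_133 : ∃ t, chk3 f_mm_133 t 1 1 1 = true :=
  ⟨(l 5), by decide +kernel⟩

theorem c_mm_133 : CertB 536870912 536870912 0 1230186008 966367641 24778659 3 eng mog cd0q1 cd4q3 pd3 false false false .dn 1 3 3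
    ndB0q1 ndB4q3 pcB3 cut_mm_133 Ext.none :=
  certB2 (fam := false) (s1 := false) (s2 := false) (a := 1) (b := 3) (c := 3) (cn := .dn) (n1 := ndB0q1) (n2 := ndB4q3) (pc := pcB3) (cut := cut_mm_133) (xt := Ext.none) (P1 := 536870912) (W1 := 536870912) (P2 := 0) (W2 := 1230186008) (P3 := 966367641) (W3 := 24778659) (N0 := 3) (En := eng) (mo := mog) (C1 := cd0q1) (C2 := cd4q3) (C3 := pd3)
    rfl (fun _ => rfl) k0_mm_133

noncomputable def cut_mm_202 : Cut := Cut.of [[⟨3, 0, 0, 1449551462⟩], [⟨0, 1, 0, 53687091⟩, ⟨1, 0, 0, 53687091⟩, ⟨2, 1, 0, 53687091⟩]]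

noncomputable def f_mm_202 : ℕ → ℕ → ℕ → ℕ → Bool := onCell 0 536870912 0 536870912 966367641 24778659
    (rowB 3 eng mog cd0q2 cd4q2 pd0 1 false false false .pp 2 0 2 (qsf 0 536870912 1073741824 536870912 0) ndB0q2 ndB4q2 pcB0 cut_mm_202 Ext.none)

def k0_mm_202 : ∃ t, chk3 f_mm_202 t 1 1 1 = true :=
  ⟨(a (a (b (b (b (b (a (l 15927152) (l 16044872)) (b (l 16043288) (l 15928984))) (b (a (l 16089864) (l 16073272)) (b (l 16215368) (l 16199544)))) (b (b (a (l 16249848) (a (l 16339768) (l 16383720))) (a (l 16294600) (l 16381744))) (b (a (l 16312872) (l 16407800)) (a (l 16342816) (l 16433488))))) (b (a (b (b (l 16372728) (l 16410248)) (b (a (l 16426840) (l 16473656)) (a (l 16466512) (l 6)))) (b (b (a (l 16442248) (l 16405944)) (a (l 16480672) (l 6))) (l 6))) (l 2))) (b (b (a (b (b (l 16155336) (b (l 16205408) (l 16231704))) (b (b (l 16279304) (l 16332640)) (b (l 16385304) (l 16340056)))) (b (b (l 16265648) (b (l 16312440) (b (l 16327144) (b (l 16335480) (l 16349776)))))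 (b (b (a (l 16362080) (l 16413048)) (a (l 16413408) (l 16467984))) (b (l 16486024) (l 16519640))))) (b (a (b (l 16324440) (l 16369296)) (b (b (l 16536920) (l 6)) (l 6))) (b (a (b (l 16490976) (l 16422384)) (l 6)) (l 6)))) (l 6))) (b (a (b (a (b (a (b (l 16349104) (b (l 16393024) (l 6))) (l 6)) (l 6)) (l 6)) (l 6)) (l 6)) (l 6))), by decide +kernel⟩

theorem c_mm_202 : CertB 0 536870912 1073741824 536870912 966367641 24778659 3 eng mog cd0q2 cd4q2 pd0 false false false .pp 2 0 2
    ndB0q2 ndB4q2 pcB0 cut_mm_202 Ext.none :=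
  certB1 (fam := false) (s1 := false) (s2 := false) (a := 2) (b := 0) (c := 2) (cn := .pp) (n1 := ndB0q2) (n2 := ndB4q2) (pc := pcB0) (cut := cut_mm_202) (xt := Ext.none) (P1 := 0) (W1 := 536870912) (P2 := 1073741824) (W2 := 536870912) (P3 := 966367641) (W3 := 24778659) (N0 := 3) (En := eng) (mo := mog) (C1 := cd0q2) (C2 := cd4q2) (C3 := pd0)
    rfl (fun _ => rfl) k0_mm_202

noncomputable def cut_mm_203 : Cut := Cut.of [[⟨3, 0, 0, 1449551462⟩]]

noncomputable def f_mm_203 : ℕ → ℕ → ℕ → ℕ → Bool := onCell 0 536870912 0 1230186008 966367641 24778659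
    (rowB 3 eng mog cd0q2 cd4q3 pd0 0 false false false .up 2 0 3 (qsf 0 536870912 0 1230186008 0) ndB0q2 ndB4q3 pcB0 cut_mm_203 Ext.none)

def k0_mm_203 : ∃ t, chk3 f_mm_203 t 1 1 1 = true :=
  ⟨(b (l 2) (b (l 2) (a (b (l 6) (b (l 6) (a (a (b (l 6) (a (l 16471624) (l 6))) (l 6)) (l 6)))) (l 3)))), by decide +kernel⟩

theorem c_mm_203 : CertB 0 536870912 0 1230186008 966367641 24778659 3 eng mog cd0q2 cd4q3 pd0 false false false .up 2 0 3
    ndB0q2 ndB4q3 pcB0 cut_mm_203 Ext.none :=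
  certB0 (fam := false) (s1 := false) (s2 := false) (a := 2) (b := 0) (c := 3) (cn := .up) (n1 := ndB0q2) (n2 := ndB4q3) (pc := pcB0) (cut := cut_mm_203) (xt := Ext.none) (P1 := 0) (W1 := 536870912) (P2 := 0) (W2 := 1230186008) (P3 := 966367641) (W3 := 24778659) (N0 := 3) (En := eng) (mo := mog) (C1 := cd0q2) (C2 := cd4q3) (C3 := pd0)
    rfl k0_mm_203

noncomputable def cut_mm_213 : Cut := Cut.of [[⟨3, 0, 0, 1449551462⟩]]

noncomputable def f_mm_213 : ℕ → ℕ → ℕ → ℕ → Bool := onCell 0 536870912 0 1230186008 966367641 24778659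
    (rowB 3 eng mog cd0q2 cd4q3 pd1 0 false false false .pnn 2 1 3 (qsf 0 536870912 0 1230186008 1) ndB0q2 ndB4q3 pcB1 cut_mm_213 Ext.none)

def k0_mm_213 : ∃ t, chk3 f_mm_213 t 1 1 1 = true :=
  ⟨(b (l 6) (b (l 6) (a (b (l 6) (b (l 6) (l 1))) (l 3)))), by decide +kernel⟩

theorem c_mm_213 : CertB 0 536870912 0 1230186008 966367641 24778659 3 eng mog cd0q2 cd4q3 pd1 false false false .pnn 2 1 3
    ndB0q2 ndB4q3 pcB1 cut_mm_213 Ext.none :=
  certB0 (fam := false) (s1 := false) (s2 := false) (a := 2) (b := 1) (c := 3) (cn := .pnn) (n1 := ndB0q2) (n2 := ndB4q3) (pc := pcB1) (cut := cut_mm_213) (xt := Ext.none) (P1 := 0) (W1 := 536870912) (P2 := 0) (W2 := 1230186008) (P3 := 966367641) (W3 := 24778659) (N0 := 3) (En := eng) (mo := mog) (C1 := cd0q2) (C2 := cd4q3) (C3 := pd1)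
    rfl k0_mm_213

end Pool.Agent.Strip051.G.I9000_9231.Tab.C.BB04

namespace Pool.Agent.Strip051.G.I9000_9231.Tab.C.BB10

open Pool.Agent.Strip051.PB Pool.Agent.Strip051.PB.T
open Pool.Agent.Strip051.G.I9000_9231.Tab

noncomputable def f_pp_001 : ℕ → ℕ → ℕ → ℕ → Bool := onCell 0 536870912 0 536870912 966367641 24778659
    (rowB 3 eng mog cd1q0 cd0q1 pd0 1 false true true .up 0 0 1 (qsf 0 536870912 536870912 536870912 0) ndB1q0 ndB0q1 pcB0 Cut.none Ext.none)

def k0_pp_001 : ∃ t, chk3 f_pp_001 t 1 1 1 = true :=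
  ⟨(l 3), by decide +kernel⟩

theorem c_pp_001 : CertB 0 536870912 536870912 536870912 966367641 24778659 3 eng mog cd1q0 cd0q1 pd0 false true true .up 0 0 1
    ndB1q0 ndB0q1 pcB0 Cut.none Ext.none :=
  certB1 (fam := false) (s1 := true) (s2 := true) (a := 0) (b := 0) (c := 1) (cn := .up) (n1 := ndB1q0) (n2 := ndB0q1) (pc := pcB0) (cut := Cut.none) (xt := Ext.none) (P1 := 0) (W1 := 536870912) (P2 := 536870912) (W2 := 536870912) (P3 := 966367641) (W3 := 24778659) (N0 := 3) (En := eng) (mo := mog) (C1 := cd1q0) (C2 := cd0q1) (C3 := pd0)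
    rfl (fun _ => rfl) k0_pp_001

noncomputable def cut_pp_011 : Cut := Cut.of [[⟨0, 0, 0, 67108864⟩, ⟨1, 1, 0, 67108864⟩, ⟨2, 1, 0, 67108864⟩]]

noncomputable def f_pp_011 : ℕ → ℕ → ℕ → ℕ → Bool := onCell 0 536870912 536870912 536870912 966367641 24778659
    (rowB 3 eng mog cd1q0 cd0q1 pd1 0 false true true .pnn 0 1 1 (qsf 0 536870912 536870912 536870912 1) ndB1q0 ndB0q1 pcB1 cut_pp_011 Ext.none)

def k0_pp_011 : ∃ t, chk3 f_pp_011 t 1 1 1 = true :=
  ⟨(a (b (l 3) (b (l 3) (a (b (l 3) (a (b (l 3) (a (b (l 3) (l 6)) (l 3))) (l 3))) (l 3)))) (l 3)), by decide +kernel⟩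

theorem c_pp_011 : CertB 0 536870912 536870912 536870912 966367641 24778659 3 eng mog cd1q0 cd0q1 pd1 false true true .pnn 0 1 1
    ndB1q0 ndB0q1 pcB1 cut_pp_011 Ext.none :=
  certB0 (fam := false) (s1 := true) (s2 := true) (a := 0) (b := 1) (c := 1) (cn := .pnn) (n1 := ndB1q0) (n2 := ndB0q1) (pc := pcB1) (cut := cut_pp_011) (xt := Ext.none) (P1 := 0) (W1 := 536870912) (P2 := 536870912) (W2 := 536870912) (P3 := 966367641) (W3 := 24778659) (N0 := 3) (En := eng) (mo := mog) (C1 := cd1q0) (C2 := cd0q1) (C3 := pd1)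
    rfl k0_pp_011

noncomputable def cut_pp_012 : Cut := Cut.of [[⟨0, 0, 0, 67108864⟩, ⟨1, 1, 0, 67108864⟩, ⟨2, 1, 0, 67108864⟩]]

noncomputable def xt_pp_012 : Ext := extD2 3 ⟨4, 1, 1, 5, 37, 10, 843, 1000, 41, 100, 1, 8⟩ eng cd1q0 cd0q2 pd1 false true true .pnp 0 1 2 rfl ndB1q0 ndB0q2 pcB1

noncomputable def f_pp_012 : ℕ → ℕ → ℕ → ℕ → Bool := onCell 536870912 536870912 0 536870912 966367641 24778659
    (rowB 3 eng mog cd1q0 cd0q2 pd1 2 false true true .pnp 0 1 2 (qsf 0 536870912 0 536870912 1) ndB1q0 ndB0q2 pcB1 cut_pp_012 xt_pp_012)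

def k0_pp_012 : ∃ t, chk3 f_pp_012 t 2 1 1 = true :=
  ⟨(b (a (b (l 2) (a (l 2) (b (l 2) (a (l 2) (b (l 2) (a (l 2) (l 16325312))))))) (b (a (b (a (l 15961448) (l 15960024)) (a (l 16062504) (l 16052512))) (b (l 15975024) (a (l 16052312) (l 16061488)))) (a (b (a (l 16168360) (l 16153352)) (a (b (l 16249368) (a (l 16310272) (l 16298104))) (b (l 16231616) (l 16284880)))) (b (a (l 16148344) (l 16152712)) (a (b (l 16223968) (l 16276064)) (c (l 16291920) (l 16209880))))))) (b (a (a (l 2) (b (a (l 2) (b (c (a (l 108614926871) (l 16383304)) (a (l 134384425639) (l 16331216))) (c (l 119352254327) (a (l 3) (l 119352119111))))) (l 3))) (a (b (a (b (a (b (l 16350728) (l 16335328)) (l 16288880)) (c (a (l 120426054967) (l 124184154391)) (a (l 131700121879) (b (l 16347528) (l 130089638503))))) (b (a (l 16342120) (l 16335016)) (c (a (l 108614926231) (l 16425488)) (a (b (l 16339608) (l 16364616)) (l 16347344))))) (a (l 3) (b (b (a (l 120962888231) (c (l 16453168) (l 153175064855)))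 (l 3)) (l 3)))) (b (b (a (l 16307888) (l 16328736)) (a (a (b (l 16369720) (l 16395048)) (l 16359632)) (c (l 16419040) (l 16342984)))) (a (b (a (b (c (l 16452008) (l 16381560)) (l 138679604135)) (b (l 16395824) (b (l 142974629399) (l 142437738087)))) (l 3)) (b (a (b (l 16417512) (c (l 16468096) (l 16404600))) (b (l 16420376) (l 16441400))) (b (a (l 148880195223) (l 158007026663)) (l 3))))))) (l 3))), by decide +kernel⟩

def k1_pp_012 : ∃ t, chk3 f_pp_012 t 3 2 1 = true :=
  ⟨(a (a (b (b (l 16060576) (a (l 16079776) (l 16106888))) (b (a (l 16165992) (l 16187704)) (a (l 16303032) (l 16278752)))) (b (b (a (l 16064080) (l 16100024)) (a (l 16141168) (l 16184352))) (b (a (l 16218248) (l 16257568)) (a (l 16305056) (l 16340048))))) (a (b (b (a (l 16140464) (l 16184384)) (a (l 16234672) (l 16101648))) (b (a (l 16304224) (l 16357152)) (a (l 16276336) (l 16342008)))) (b (b (a (l 16231480) (l 16281448)) (a (b (l 16322464) (l 16376824)) (b (l 16377544) (l 16444528)))) (a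 (b (l 16354648) (a (l 16462448) (l 16488248))) (b (l 16467264) (b (l 16518800) (l 16543824))))))), by decide +kernel⟩

def k2_pp_012 : ∃ t, chk3 f_pp_012 t 6 3 1 = true :=
  ⟨(b (a (b (a (b (l 16337088) (a (l 16387336) (l 16393584))) (b (l 16352984) (l 16343152))) (a (b (c (l 16474848) (l 16404512)) (b (a (l 16417952) (l 16469408)) (a (a (l 157470051831) (l 164449378183)) (c (l 144048333047) (l 16417784))))) (b (c (l 16493808) (l 16421784)) (a (c (l 16455200) (l 16435368)) (b (l 16494672) (l 16487296)))))) (b (a (b (l 16377280) (l 16430168)) (b (l 16409992) (l 16462312))) (a (b (c (l 16519640) (l 16448048)) (c (l 16468656) (l 16453800))) (b (c (l 16550944) (l 16483408)) (c (l 16578224) (l 16537456)))))) (b (a (b (b (c (a (a (l 3) (l 219747232407)) (a (l 250885911735) (l 213841844983))) (a (l 243369545703) (a (l 217062754839) (l 180018679543)))) (a (l 3) (a (l 3) (a (l 3) (l 239611423991))))) (l 3)) (b (b (a (a (c (l 16481240) (l 16455904)) (l 16500144)) (a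 (l 16536840) (l 16576912))) (a (c (a (l 256791439879) (b (l 16476928) (l 200419996183))) (a (l 266991992807) (l 236390396951))) (a (c (l 16505328) (l 16473048)) (l 16535864)))) (a (b (a (l 3) (b (a (l 256254476567) (l 264307589943)) (l 3))) (l 3)) (b (c (a (b (l 205251860759) (a (l 262160065239) (l 268602585687))) (b (l 16514880) (a (l 216526162071) (l 16501936)))) (a (b (l 16427768) (l 265918132071)) (b (l 16477232) (l 221357953959)))) (a (l 3) (b (c (a (l 271823787239) (l 274508202407)) (l 273434359607)) (l 3))))))) (l 3))), by decide +kernel⟩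

def k3_pp_012 : ∃ t, chk3 f_pp_012 t 7 6 1 = true :=
  ⟨(a (b (a (b (l 16447680) (l 16435416)) (b (l 16486560) (l 16470720))) (a (b (a (l 16544616) (l 16561624)) (a (l 16578656) (l 16595848))) (b (c (l 16608328) (l 16560840)) (c (l 16659168) (l 16552768))))) (b (b (a (l 16443280) (l 16510040)) (a (a (l 16560408) (l 16578000)) (a (l 16596760) (l 16619632)))) (a (b (a (l 16565904) (l 16622120)) (a (c (l 16672648) (l 16640008)) (l 16604400))) (b (a (l 16637136) (l 16656328)) (a (l 16657360) (l 16626072)))))), by decide +kernel⟩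

def k4_pp_012 : ∃ t, chk3 f_pp_012 t 14 7 1 = true :=
  ⟨(b (a (b (a (c (l 16625616) (l 16588240)) (l 16548816)) (b (a (c (l 16560968) (l 16520600)) (b (l 16616984) (l 16594432))) (a (a (c (c (a (l 278266348231) (l 278266382951)) (l 277729439447)) (a (l 276118733607) (l 279340028791))) (b (l 16536896) (c (a (l 282024462999) (l 266992159527)) (l 242832815415)))) (a (b (l 16552032) (c (b (l 16561408) (l 16551464)) (l 16498872))) (b (l 16589688) (l 16567384)))))) (b (a (l 16598488) (c (l 16710424) (l 16677472))) (a (b (l 16631680) (b (l 16647488) (l 16630312))) (b (l 16678440) (a (l 16697232) (l 16731528)))))) (b (a (b (a (b (a (l 3) (c (b (l 286319415415) (l 3)) (l 286856141479))) (l 3)) (a (b (c (b (l 279340176119) (l 287930093287)) (l 287929965031)) (l 3)) (c (b (b (l 16585168) (l 285782700375)) (l 307794392791)) (b (l 272360832151) (l 290077486679))))) (l 3)) (a (b (b (a (c (l 16627264) (l 16559224)) (l 16639432)) (c (a (b (l 261623650999) (l 308868237351))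 (b (l 16673704) (l 229411511591))) (a (l 243906690087) (l 197199084647)))) (b (a (l 3) (c (a (l 362018555911) (l 334101330807)) (l 345375446631))) (l 3))) (b (b (l 16707736) (a (b (l 16685464) (l 16730288)) (l 16737776))) (b (c (a (b (a (l 257328933831) (l 16757192)) (a (l 333564537095) (b (l 267529496903) (l 328732784967)))) (a (b (l 16785864) (c (l 272361354631) (l 270213854023))) (l 16772448))) (a (a (a (l 341080495399) (l 338933043767)) (b (l 16662424) (l 338933139655))) (a (c (l 256792008775) (l 241222645479)) (l 16728448)))) (b (a (l 3) (a (c (b (a (l 343228309575) (l 319069118103)) (l 3)) (a (l 369534813207) (l 341080713383))) (a (c (c (l 315847901767) (l 321753467863)) (a (l 337322624183) (l 334638330311))) (c (b (l 16778376) (c (l 316384773671) (l 321753491527))) (c (l 324437827367) (l 334101387719)))))) (l 3)))))) (l 3))), by decide +kernel⟩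

def k5_pp_012 : ∃ t, chk3 f_pp_012 t 15 14 1 = true :=
  ⟨(a (b (a (b (l 16691704) (l 16714536)) (b (l 16699520) (l 16720280))) (a (b (l 16736880) (l 16706744)) (b (l 16740448) (l 16738192)))) (b (a (c (l 16723384) (l 16709920)) (c (l 16648536) (l 16656096))) (a (b (l 16694448) (a (l 16749656) (l 16734344))) (a (b (l 16710824) (l 16696960)) (b (l 16691912) (l 6)))))), by decide +kernel⟩

def k6_pp_012 : ∃ t, chk3 f_pp_012 t 30 30 1 = true :=
  ⟨(a (b (a (l 16750480) (l 16774776)) (b (a (a (l 16765992) (l 16787928)) (l 16788704)) (a (b (c (a (a (b (l 16799096) (c (l 286320012967) (l 285246260919))) (l 16778976)) (l 16778424)) (a (a (c (l 280951275719) (l 279340649687)) (l 16768896)) (l 16791360))) (b (c (a (c (a (l 320142883911) (b (l 290078113159) (l 317995399655))) (a (l 326048443191) (b (l 290078104743) (l 323364100023)))) (a (a (c (l 290078113079) (l 290078105159)) (l 16792344)) (l 16781496))) (a (c (a (l 330880291863) (b (l 289004352983) (l 328195939735)))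 (a (l 340543908071) (l 331954014631))) (a (c (l 290078096823) (l 289541217143)) (l 16796040)))) (a (l 3) (c (c (a (b (a (l 320679744711) (l 314237303255)) (l 3)) (a (b (l 293836213239) (l 318532277143)) (c (l 301889278087) (l 294373082695)))) (a (c (l 323364110567) (l 326048456375)) (a (b (l 293836207271) (l 323900975191)) (c (l 307257981911) (l 308868586711))))) (c (a (c (l 328195936455) (l 330343426967)) (b (l 293836200567) (a (l 328732817911) (l 312626685575)))) (a (b (l 330880280167) (l 3)) (b (l 293836193975) (a (l 333027779095) (l 314237287655))))))))) (a (b (l 16795760) (b (l 16791520) (a (a (b (l 16790752) (c (c (l 16803280) (l 16803632)) (c (l 16801312) (l 16798928)))) (c (l 16782936) (l 16799736))) (c (l 16782392) (l 16800104))))) (c (l 16799112) (l 16796616)))))) (b (a (l 16775536) (l 16771632)) (a (b (l 16788112) (l 16805272)) (b (l 16777632) (l 16781864))))), by decide +kernel⟩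

def k7_pp_012 : ∃ t, chk3 f_pp_012 t 120 124 1 = true :=
  ⟨(b (a (l 3) (a (l 3) (a (l 3) (b (c (c (l 341080858103) (l 348060175239)) (c (l 352355132471) (l 356113213399))) (l 3))))) (l 3)), by decide +kernel⟩

def k8_pp_012 : ∃ t, chk3 f_pp_012 t 242 248 1 = true :=
  ⟨(b (c (a (b (c (a (b (l 5515724184001257921497324607) (l 322290374279)) (a (l 5718823721696515622848044095) (l 302426150487))) (a (b (l 305110502199) (l 327659079239)) (a (l 315847920727) (l 302963017943)))) (a (l 3) (a (l 3) (c (l 320679764439) (l 326048467783))))) (b (c (l 16800376) (l 16799016)) (c (c (a (b (l 301889279015) (l 319069149319)) (l 298668055367)) (a (l 315847924599) (l 302963021607))) (c (a (l 318532277799) (l 306184243399)) (a (l 321216630983) (l 308331725959)))))) (c (b (a (a (b (l 307794854983) (l 332490918439)) (b (l 16802432) (l 309405466647))) (l 16802864)) (c (a (l 331417177303) (a (l 323364113239) (l 310479213767))) (a (l 333564659079) (a (l 325511592871) (l 312089825399)))))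 (b (a (a (b (l 309405463191) (l 336249010471)) (b (l 16800496) (l 311552943959))) (l 16801432)) (c (a (l 335712138199) (a (l 327659075095) (l 313700437015))) (a (l 337322749015) (a (l 329269681159) (l 315311048615))))))) (a (l 3) (a (l 3) (b (b (c (a (c (l 323364116151) (l 328732828471)) (c (l 316384796199) (l 321216630023))) (a (c (l 353428888327) (l 356650111639)) (c (l 326048471671) (l 330343437111)))) (l 3)) (l 3))))), by decide +kernel⟩

def k9_pp_012 : ∃ t, chk3 f_pp_012 t 243 248 1 = true :=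
  ⟨(a (b (b (l 16792792) (a (c (l 16800104) (l 16798504)) (l 16799120))) (b (a (c (b (a (c (l 313163570711) (l 314774182295)) (c (l 16806312) (l 16805712))) (a (c (l 320679761351) (l 326585340055)) (c (l 313700441383) (l 319069149447)))) (b (a (c (l 316384793511) (l 318532275607)) (c (l 16805096) (l 16804464))) (a (c (l 330880311239) (l 335175277143)) (c (l 323364115671) (l 327659079239))))) (c (a (c (l 312626699047) (l 314237310935)) (l 16803168)) (a (c (l 316384793703) (l 317995405223)) (l 16803880)))) (b (a (l 3) (c (a (c (l 316921667303) (l 323364117607)) (c (l 5796195232982729674268630591) (l 314237311623))) (a (c (l 329269694375) (l 333564660999)) (c (l 319069149463) (l 322827245463))))) (l 3)))) (b (l 16803448) (b (c (l 16805152) (l 16805216)) (a (a (b (c (c (l 312089829287) (l 315847925575)) (c (l 319606021527) (l 321753505239))) (b (c (c (l 311552957511) (l 297057445527)) (c (l 317995411095) (l 326048469543))) (l 3))) (c (b (l 16806048) (c (l 319069151175)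 (l 321753506071))) (b (l 16806208) (c (l 326048472759) (l 329806568615))))) (c (b (l 16805424) (c (l 16804544) (l 16804176))) (b (l 16804824) (c (l 16803800) (l 16803408)))))))), by decide +kernel⟩

def k10_pp_012 : ∃ t, chk3 f_pp_012 t 121 249 1 = true :=
  ⟨(a (l 3) (b (a (l 3) (b (b (a (a (l 3) (c (c (b (a (l 3) (l 278803832071)) (l 3)) (l 344838946231)) (c (l 344302074807) (l 344302074279)))) (c (a (c (l 5834880641884694189468098111) (l 322290374375)) (c (l 316921665783) (l 320679760823))) (a (c (b (l 305647375319) (l 338396498343)) (b (l 311016083687) (l 342691459575))) (c (l 324437856183) (l 327659080583))))) (a (l 3) (a (l 3) (c (c (l 322827245191) (l 334101530567)) (c (l 338933367591) (l 342691462759)))))) (l 3))) (l 3))), by decide +kernel⟩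

def k11_pp_012 : ∃ t, chk3 f_pp_012 t 60 125 1 = true :=
  ⟨(l 3), by decide +kernel⟩

def k12_pp_012 : ∃ t, chk3 f_pp_012 t 61 62 1 = true :=
  ⟨(b (a (b (a (a (b (l 16801792) (c (l 16803160) (l 16801888))) (l 16793632)) (l 16794096)) (a (b (a (a (b (c (c (b (l 16804840) (a (l 5834880639002390427948523071) (l 314774179815))) (b (l 16798912) (a (l 324974726295) (l 318532274551)))) (c (b (l 16798208) (c (l 5883238160770003830906137855) (l 5912252472386218535215262975))) (a (c (l 328195949175) (l 330343432119)) (c (l 323364110039) (l 324974721927))))) (a (l 3) (b (c (c (l 320679759591) (l 332490917863)) (c (l 337322754231) (b (l 338933365143) (l 3)))) (l 3)))) (b (c (a (l 16800952) (l 16802880)) (c (l 16801760) (l 16800744))) (a (b (c (c (l 5796195011045340037445312063) (b (l 319069144279) (l 328732820167))) (c (b (l 322827238455) (l 333564656263)) (b (l 326585332583) (l 337859621383)))) (l 3)) (l 6)))) (l 6)) (a (l 3) (l 6))) (l 6))) (l 6)) (l 6)), by decide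 +kernel⟩

def k13_pp_012 : ∃ t, chk3 f_pp_012 t 30 63 1 = true :=
  ⟨(l 3), by decide +kernel⟩

def k14_pp_012 : ∃ t, chk3 f_pp_012 t 31 15 1 = true :=
  ⟨(b (a (b (a (l 16757968) (l 6)) (l 6)) (l 6)) (l 6)), by decide +kernel⟩

theorem s15_pp_012 : ∃ t, chk3 f_pp_012 t 121 248 1 = true := ex3_a k8_pp_012 k9_pp_012

theorem s16_pp_012 : ∃ t, chk3 f_pp_012 t 121 124 1 = true := ex3_b s15_pp_012 k10_pp_012

theorem s17_pp_012 : ∃ t, chk3 f_pp_012 t 60 124 1 = true := ex3_a k7_pp_012 s16_pp_012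

theorem s18_pp_012 : ∃ t, chk3 f_pp_012 t 60 62 1 = true := ex3_b s17_pp_012 k11_pp_012

theorem s19_pp_012 : ∃ t, chk3 f_pp_012 t 30 62 1 = true := ex3_a s18_pp_012 k12_pp_012

theorem s20_pp_012 : ∃ t, chk3 f_pp_012 t 30 31 1 = true := ex3_b s19_pp_012 k13_pp_012

theorem s21_pp_012 : ∃ t, chk3 f_pp_012 t 30 15 1 = true := ex3_b k6_pp_012 s20_pp_012

theorem s22_pp_012 : ∃ t, chk3 f_pp_012 t 15 15 1 = true := ex3_a s21_pp_012 k14_pp_012

theorem s23_pp_012 : ∃ t, chk3 f_pp_012 t 15 7 1 = true := ex3_b k5_pp_012 s22_pp_012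

theorem s24_pp_012 : ∃ t, chk3 f_pp_012 t 7 7 1 = true := ex3_a k4_pp_012 s23_pp_012

theorem s25_pp_012 : ∃ t, chk3 f_pp_012 t 7 3 1 = true := ex3_b k3_pp_012 s24_pp_012

theorem s26_pp_012 : ∃ t, chk3 f_pp_012 t 3 3 1 = true := ex3_a k2_pp_012 s25_pp_012

theorem s27_pp_012 : ∃ t, chk3 f_pp_012 t 3 1 1 = true := ex3_b k1_pp_012 s26_pp_012

theorem s28_pp_012 : ∃ t, chk3 f_pp_012 t 1 1 1 = true := ex3_a k0_pp_012 s27_pp_012

theorem c_pp_012 : CertB 0 536870912 0 536870912 966367641 24778659 3 eng mog cd1q0 cd0q2 pd1 false true true .pnp 0 1 2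
    ndB1q0 ndB0q2 pcB1 cut_pp_012 xt_pp_012 :=
  certB2 (fam := false) (s1 := true) (s2 := true) (a := 0) (b := 1) (c := 2) (cn := .pnp) (n1 := ndB1q0) (n2 := ndB0q2) (pc := pcB1) (cut := cut_pp_012) (xt := xt_pp_012) (P1 := 0) (W1 := 536870912) (P2 := 0) (W2 := 536870912) (P3 := 966367641) (W3 := 24778659) (N0 := 3) (En := eng) (mo := mog) (C1 := cd1q0) (C2 := cd0q2) (C3 := pd1)
    rfl (fun _ => rfl) s28_pp_012

noncomputable def cut_pp_022 : Cut := Cut.of [[⟨0, 0, 0, 44739242⟩, ⟨1, 1, 0, 44739242⟩, ⟨2, 1, 0, 44739242⟩]]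

noncomputable def f_pp_022 : ℕ → ℕ → ℕ → ℕ → Bool := onCell 0 536870912 0 536870912 966367641 24778659
    (rowB 3 eng mog cd1q0 cd0q2 pd2 0 false true true .pp 0 2 2 (qsf 0 536870912 0 536870912 2) ndB1q0 ndB0q2 pcB2 cut_pp_022 Ext.none)

def k0_pp_022 : ∃ t, chk3 f_pp_022 t 1 2 1 = true :=
  ⟨(a (a (a (b (a (c (b (a (c (l 16134936) (l 16196736)) (l 16219376)) (a (b (l 16167920) (l 16144304)) (l 16215560))) (b (a (l 16177144) (l 16286016)) (a (b (l 16225456) (l 16205296)) (l 16249336)))) (b (c (l 16294712) (l 16308480)) (c (l 16299136) (l 16285016)))) (b (a (c (a (b (l 16144232) (l 16147688)) (l 16221592)) (a (b (l 16190040) (l 16159760)) (l 16228408))) (c (l 16250520) (l 16235360))) (a (c (b (c (l 16165592) (l 16205848)) (a (l 16170232) (l 16232216))) (a (b (l 16157168) (l 16162480)) (b (l 16228512) (l 16238392)))) (c (b (l 16334016) (l 16292360)) (b (l 16329200) (l 16261696)))))) (a (b (b (l 16313912) (c (l 16410528) (l 16435488))) (b (c (l 16372144) (a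 (l 16413584) (l 16474112))) (a (b (l 16432096) (l 16413944)) (b (l 16475712) (a (l 16506832) (l 16519136)))))) (b (b (l 16510784) (l 16421960)) (b (a (l 16527224) (l 16486104)) (b (a (l 16559192) (l 16556592)) (c (a (l 16585096) (l 16541744)) (a (l 16592936) (l 16510440)))))))) (a (a (b (b (l 16490328) (a (l 16515728) (l 16475592))) (b (a (b (l 16523008) (l 16526616)) (l 844530700087)) (a (b (l 331282375287) (c (l 639446176103) (l 653941659031))) (l 1)))) (b (b (l 1) (l 1)) (l 1))) (l 1))) (l 1)), by decide +kernel⟩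

def k1_pp_022 : ∃ t, chk3 f_pp_022 t 8 6 1 = true :=
  ⟨(b (a (c (b (a (c (l 16215416) (l 16207904)) (l 16276496)) (a (c (l 16222576) (l 16212112)) (b (l 16297712) (l 16314360)))) (b (a (l 16175560) (l 16255992)) (a (b (l 16189952) (l 16202536)) (b (l 16273720) (l 16288504))))) (a (b (c (l 16346576) (l 16329728)) (c (l 16378704) (l 16337992))) (b (c (l 16418088) (l 16408736)) (c (l 16452768) (b (l 16432704) (l 16451584)))))) (a (b (a (c (b (a (l 16267000) (l 16281160)) (c (l 16269536) (l 16256504))) (b (l 16217904) (c (l 16243224) (l 16250664)))) (c (b (l 16333344) (l 16292136)) (c (l 16260264) (b (l 16299032) (l 16319504))))) (a (a (c (b (c (l 16296792) (l 16283080)) (c (a (l 16316616) (l 16335304)) (a (l 16302056) (l 16320776)))) (b (l 16241040) (c (a (l 16287200) (l 16305944)) (l 16260480)))) (c (b (l 16326488) (l 16334960)) (b (l 16298112) (l 16305248)))) (c (b (c (l 16387744) (l 16373512)) (a (l 16392664) (l 16429368))) (b (c (l 16358960) (l 16344096))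 (a (l 16362680) (l 16399536)))))) (b (a (c (b (l 16408064) (l 16431056)) (b (l 16387128) (l 16409896))) (c (b (l 16483984) (l 16508200)) (b (l 16473144) (l 16497840)))) (b (a (c (l 16457936) (l 16436696)) (c (l 16515296) (l 16484592))) (a (c (l 16447656) (l 16426360)) (c (a (l 16549424) (l 16588608)) (a (l 16537352) (l 16582384)))))))), by decide +kernel⟩

def k2_pp_022 : ∃ t, chk3 f_pp_022 t 9 6 1 = true :=
  ⟨(b (a (a (b (c (l 16487704) (l 16485184)) (c (b (l 16514664) (l 16535088)) (b (l 16512040) (l 16532808)))) (b (c (l 16513352) (l 16559008)) (c (a (l 16556424) (l 16611760)) (a (l 16538704) (l 16618640))))) (b (c (a (l 16599736) (b (l 16540952) (l 508986657687))) (a (l 16564288) (b (l 16507736) (l 515965944359)))) (a (c (b (l 16593336) (l 256657435543)) (b (l 16559784) (l 254509917943))) (l 1)))) (a (b (b (a (c (l 16557784) (l 16514288)) (c (l 16608320) (l 16594360))) (a (c (l 16520224) (l 16519832)) (a (c (l 16637800) (l 16644360)) (c (l 16628904) (l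 16618808))))) (b (a (a (l 16529768) (c (l 16609992) (l 16634376))) (c (l 274374256503) (l 279742929783))) (a (a (c (l 16627184) (l 16626592)) (a (l 16641688) (l 277595507159))) (l 1)))) (a (b (b (c (l 368326570807) (l 341482985351)) (l 1)) (l 1)) (l 1)))), by decide +kernel⟩

def k3_pp_022 : ∃ t, chk3 f_pp_022 t 16 28 1 = true :=
  ⟨(a (a (b (c (c (a (b (l 16341544) (l 16359752)) (l 16369536)) (a (b (l 16326408) (l 16344312)) (l 16354368))) (c (c (b (l 16324408) (l 16342184)) (l 16304368)) (c (l 16296424) (l 16288392)))) (a (a (b (c (c (l 16384888) (l 16373088)) (c (l 16363560) (l 16347136))) (b (c (c (l 16389784) (l 16373928)) (c (l 16357712) (l 16341144))) (c (b (c (l 16397768) (l 16379248)) (a (c (l 16400512) (l 16384648)) (l 16392336))) (b (c (l 16369544) (l 16349000)) (b (c (l 16369592) (l 16352992)) (l 16364072)))))) (b (c (c (l 16384024) (l 16368392)) (c (l 16352416) (l 16336096))) (b (c (l 16391632) (c (l 16367624) (l 16351176))) (c (c (l 16410192)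 (l 16394424)) (c (l 16378296) (l 16361800)))))) (c (b (c (l 16398408) (l 16382920)) (c (l 16419328) (a (l 16398856) (l 16408552)))) (b (l 16338056) (c (a (l 16382872) (l 16392664)) (a (l 16366520) (l 16376416))))))) (b (c (a (l 16359944) (l 16399720)) (a (l 16329112) (l 16369000))) (c (c (l 16437456) (l 16422160)) (a (c (l 16375848) (l 16359776)) (l 16408240))))) (a (c (b (l 16427712) (l 16467848)) (b (l 16397040) (b (l 16426392) (l 16447848)))) (c (b (l 16465040) (l 16505784)) (b (l 16434872) (l 16475800))))), by decide +kernel⟩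

def k4_pp_022 : ∃ t, chk3 f_pp_022 t 16 58 1 = true :=
  ⟨(c (a (a (a (a (b (c (b (l 16410768) (l 16421416)) (b (l 16395128) (l 16406072))) (b (c (l 16432440) (l 16417384)) (a (c (l 16441288) (l 16426536)) (l 16439040)))) (b (c (l 16426048) (l 16410600)) (b (l 16435048) (l 16446656)))) (b (a (c (l 16435888) (l 16420504)) (l 16417136)) (l 16440176))) (b (a (b (l 16426504) (l 16458576)) (l 16451584)) (l 16464872))) (a (b (l 16501544) (l 16503904)) (b (l 16539672) (l 16564056)))) (a (a (a (b (c (a (b (l 16379136) (l 16390368)) (l 16394800)) (a (b (l 16362784) (l 16374320)) (l 16378648))) (a (a (b (c (l 16399448) (l 16383704)) (c (l 16411448) (l 16399304))) (b (l 16396720) (c (l 16416576) (l 16401184)))) (b (l 16404360) (c (l 16424248) (l 16408888))))) (b (b (c (l 16404120) (l 16387912)) (l 16407632)) (b (l 16419568) (l 16410952)))) (b (a (a (l 16395776) (l 16405768)) (l 16420696)) (a (l 16445872) (l 16465880)))) (a (b (l 16471120) (a (l 16485632) (l 16505128)))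 (b (l 16510336) (l 16514560))))), by decide +kernel⟩

def k5_pp_022 : ∃ t, chk3 f_pp_022 t 16 59 1 = true :=
  ⟨(b (b (a (a (a (a (c (b (c (l 16452632) (l 16438144)) (c (l 16458656) (l 16444352))) (c (c (l 16430224) (l 16422784)) (c (l 16415256) (l 16410264)))) (c (l 16458696) (c (l 16436816) (l 16421816)))) (c (l 16473960) (l 16423808))) (a (l 16479840) (l 16499976))) (a (l 16529816) (l 16569592))) (a (a (a (a (c (c (a (l 16465360) (l 16470504)) (a (c (l 16454880) (l 16447800)) (l 16456520))) (c (a (b (l 16433680) (l 16440384)) (l 16442216)) (a (b (l 16418928) (l 16425848)) (l 16427592)))) (c (c (l 16478200) (l 16464256)) (c (l 16450000) (l 16435416)))) (c (l 16486632) (l 16437312))) (a (l 16482600) (l 16513368))) (a (l 16522480) (l 16583568)))) (b (b (a (a (a (a (c (a (c (l 16474896) (l 16461216)) (l 16473280)) (a (c (l 16447232) (l 16432936)) (l 16445368))) (c (l 16481032) (l 16453216))) (c (l 16496488) (l 16468840))) (a (l 16503408) (l 16523816))) (a (l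 16554088) (l 16594472))) (l 6)) (l 6))), by decide +kernel⟩

def k6_pp_022 : ∃ t, chk3 f_pp_022 t 16 15 1 = true :=
  ⟨(l 6), by decide +kernel⟩

def k7_pp_022 : ∃ t, chk3 f_pp_022 t 17 7 1 = true :=
  ⟨(b (b (a (c (b (a (l 16505632) (l 16546536)) (b (l 16535864) (l 16536984))) (b (a (l 16481160) (l 16528728)) (a (l 16523016) (l 16571480)))) (a (b (c (l 16586864) (l 16575472)) (b (l 16591952) (l 16593848))) (b (c (l 16626584) (l 16621368)) (b (l 16614264) (l 16658432))))) (b (a (a (c (l 16530936) (l 16529264)) (b (l 16573408) (l 16577776))) (a (b (l 16597144) (a (l 16653568) (l 16696856))) (b (l 75732164151) (l 1)))) (a (b (a (c (l 16631896) (l 16611144)) (a (l 16635464) (l 16637544))) (a (l 16609968) (l 16666904))) (b (c (l 306586613703) (l 335577631927)) (l 1))))) (a (a (l 6) (b (l 1) (l 1))) (l 1))), by decide +kernel⟩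

def k8_pp_022 : ∃ t, chk3 f_pp_022 t 9 7 1 = true :=
  ⟨(b (a (b (a (c (b (a (l 16655200) (l 237867130871)) (l 325913896375)) (b (a (l 16645432) (l 321082098727)) (l 328598221383))) (l 1)) (l 1)) (l 1)) (l 1)), by decide +kernel⟩

def k9_pp_022 : ∃ t, chk3 f_pp_022 t 5 3 1 = true :=
  ⟨(b (l 1) (l 1)), by decide +kernel⟩

def k10_pp_022 : ∃ t, chk3 f_pp_022 t 3 3 1 = true :=
  ⟨(l 1), by decide +kernel⟩

theorem s11_pp_022 : ∃ t, chk3 f_pp_022 t 16 29 1 = true := ex3_b k4_pp_022 k5_pp_022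

theorem s12_pp_022 : ∃ t, chk3 f_pp_022 t 16 14 1 = true := ex3_b k3_pp_022 s11_pp_022

theorem s13_pp_022 : ∃ t, chk3 f_pp_022 t 16 7 1 = true := ex3_b s12_pp_022 k6_pp_022

theorem s14_pp_022 : ∃ t, chk3 f_pp_022 t 8 7 1 = true := ex3_a s13_pp_022 k7_pp_022

theorem s15_pp_022 : ∃ t, chk3 f_pp_022 t 4 7 1 = true := ex3_a s14_pp_022 k8_pp_022

theorem s16_pp_022 : ∃ t, chk3 f_pp_022 t 4 6 1 = true := ex3_a k1_pp_022 k2_pp_022

theorem s17_pp_022 : ∃ t, chk3 f_pp_022 t 4 3 1 = true := ex3_b s16_pp_022 s15_pp_022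

theorem s18_pp_022 : ∃ t, chk3 f_pp_022 t 2 3 1 = true := ex3_a s17_pp_022 k9_pp_022

theorem s19_pp_022 : ∃ t, chk3 f_pp_022 t 1 3 1 = true := ex3_a s18_pp_022 k10_pp_022

theorem s20_pp_022 : ∃ t, chk3 f_pp_022 t 1 1 1 = true := ex3_b k0_pp_022 s19_pp_022

theorem c_pp_022 : CertB 0 536870912 0 536870912 966367641 24778659 3 eng mog cd1q0 cd0q2 pd2 false true true .pp 0 2 2
    ndB1q0 ndB0q2 pcB2 cut_pp_022 Ext.none :=
  certB0 (fam := false) (s1 := true) (s2 := true) (a := 0) (b := 2) (c := 2) (cn := .pp) (n1 := ndB1q0) (n2 := ndB0q2) (pc := pcB2) (cut := cut_pp_022) (xt := Ext.none) (P1 := 0) (W1 := 536870912) (P2 := 0) (W2 := 536870912) (P3 := 966367641) (W3 := 24778659) (N0 := 3) (En := eng) (mo := mog) (C1 := cd1q0) (C2 := cd0q2) (C3 := pd2)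
    rfl s20_pp_022

noncomputable def f_pp_101 : ℕ → ℕ → ℕ → ℕ → Bool := onCell 536870912 536870912 536870912 536870912 966367641 24778659
    (rowB 3 eng mog cd1q1 cd0q1 pd0 0 false true true .npn 1 0 1 (qsf 536870912 536870912 536870912 536870912 0) ndB1q1 ndB0q1 pcB0 Cut.none Ext.none)

def k0_pp_101 : ∃ t, chk3 f_pp_101 t 1 1 1 = true :=
  ⟨(l 3), by decide +kernel⟩

theorem c_pp_101 : CertB 536870912 536870912 536870912 536870912 966367641 24778659 3 eng mog cd1q1 cd0q1 pd0 false true true .npn 1 0 1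
    ndB1q1 ndB0q1 pcB0 Cut.none Ext.none :=
  certB0 (fam := false) (s1 := true) (s2 := true) (a := 1) (b := 0) (c := 1) (cn := .npn) (n1 := ndB1q1) (n2 := ndB0q1) (pc := pcB0) (cut := Cut.none) (xt := Ext.none) (P1 := 536870912) (W1 := 536870912) (P2 := 536870912) (W2 := 536870912) (P3 := 966367641) (W3 := 24778659) (N0 := 3) (En := eng) (mo := mog) (C1 := cd1q1) (C2 := cd0q1) (C3 := pd0)
    rfl k0_pp_101

noncomputable def f_pp_102 : ℕ → ℕ → ℕ → ℕ → Bool := onCell 0 536870912 0 536870912 966367641 24778659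
    (rowB 3 eng mog cd1q1 cd0q2 pd0 2 false true true .npp 1 0 2 (qsf 536870912 536870912 0 536870912 0) ndB1q1 ndB0q2 pcB0 Cut.none Ext.none)

def k0_pp_102 : ∃ t, chk3 f_pp_102 t 1 1 1 = true :=
  ⟨(a (b (b (a (l 2) (b (a (l 3) (a (b (b (a (a (l 3) (l 189682633559)) (a (b (l 173576465991) (l 188072024183)) (b (l 16493632) (l 171428979559)))) (l 3)) (l 3)) (b (a (b (a (b (l 16476904) (l 16490160)) (l 16466856)) (a (l 197735646903) (b (l 16487136) (l 202567493063)))) (b (l 16378616) (a (b (l 16471184) (l 168744586119)) (l 16461984)))) (a (l 3) (b (a (l 209009944487) (l 167670830999)) (l 3)))))) (l 3))) (l 3)) (l 3)) (b (a (a (b (b (a (b (a (c (l 16431016) (l 16371424)) (l 16304488)) (a (b (a (l 165523302263) (l 16459280)) (l 226189739815)) (b (l 16372152) (a (l 162838963319) (l 16457456))))) (a (b (l 16354288) (b (l 16402216) (l 16434448))) (b (l 16320264) (l 16385560)))) (b (a (a (l 3) (l 231021668999)) (a (a (l 166597046103) (l 162838899975)) (b (l 16371656)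 (l 254643826935)))) (l 3))) (l 3)) (b (b (a (a (a (l 16348952) (l 16311368)) (l 16203072)) (b (l 16206632) (l 16273520))) (a (b (a (b (l 16402464) (l 16371240)) (l 16387208)) (a (l 268602469655) (l 159080707671))) (b (a (l 16356072) (l 16325928)) (a (l 145658856983) (l 16393304))))) (b (a (l 3) (b (l 278802906023) (l 3))) (l 3)))) (b (a (b (a (l 16266392) (l 16130784)) (a (b (l 16282864) (l 16224824)) (c (l 16284528) (l 16240824)))) (b (a (l 16085888) (l 16048512)) (a (l 16214184) (l 16171072)))) (a (b (a (b (a (l 163912504327) (l 16399632)) (l 3)) (b (l 124720680247) (l 264307277767))) (l 3)) (b (a (b (l 16311472) (l 115593926087)) (b (l 16264176) (l 16326584))) (a (l 170354908807) (b (a (l 16388464) (l 16370504)) (l 3))))))) (l 3))), by decide +kernel⟩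

theorem c_pp_102 : CertB 536870912 536870912 0 536870912 966367641 24778659 3 eng mog cd1q1 cd0q2 pd0 false true true .npp 1 0 2
    ndB1q1 ndB0q2 pcB0 Cut.none Ext.none :=
  certB2 (fam := false) (s1 := true) (s2 := true) (a := 1) (b := 0) (c := 2) (cn := .npp) (n1 := ndB1q1) (n2 := ndB0q2) (pc := pcB0) (cut := Cut.none) (xt := Ext.none) (P1 := 536870912) (W1 := 536870912) (P2 := 0) (W2 := 536870912) (P3 := 966367641) (W3 := 24778659) (N0 := 3) (En := eng) (mo := mog) (C1 := cd1q1) (C2 := cd0q2) (C3 := pd0)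
    rfl (fun _ => rfl) k0_pp_102

noncomputable def f_pp_112 : ℕ → ℕ → ℕ → ℕ → Bool := onCell 536870912 536870912 0 536870912 966367641 24778659
    (rowB 3 eng mog cd1q1 cd0q2 pd1 2 false true true .dn 1 1 2 (qsf 536870912 536870912 0 536870912 1) ndB1q1 ndB0q2 pcB1 Cut.none Ext.none)

def k0_pp_112 : ∃ t, chk3 f_pp_112 t 1 1 1 = true :=
  ⟨(a (b (a (b (a (b (l 15934944) (a (l 16084568) (l 16053904))) (b (a (l 15905464) (l 15885760)) (a (l 16024344) (l 15994672)))) (a (b (a (b (l 16191008) (l 16262112)) (l 16184072)) (a (b (a (l 16344712) (l 16319032)) (l 102172233351)) (b (l 16280800) (a (l 116667725879) (l 16265360))))) (b (a (l 16143632) (l 16104080)) (a (b (l 16232352) (a (l 16303408) (l 16277240))) (b (l 16185400) (a (l 16251392) (l 16225696))))))) (a (a (b (b (l 15865592) (l 15963984)) (b (l 16064240) (b (l 16138600) (l 642666942535)))) (b (b (l 1) (l 1)) (l 1))) (l 1))) (b (a (a (l 3) (b (a (b (b (a (l 16339096) (l 16317024)) (l 105393411271)) (l 3))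 (a (b (b (l 16290816) (l 126331344839)) (l 3)) (b (b (l 16263456) (l 647498933031)) (l 1)))) (l 3))) (l 1)) (l 3))) (l 1)), by decide +kernel⟩

theorem c_pp_112 : CertB 536870912 536870912 0 536870912 966367641 24778659 3 eng mog cd1q1 cd0q2 pd1 false true true .dn 1 1 2
    ndB1q1 ndB0q2 pcB1 Cut.none Ext.none :=
  certB2 (fam := false) (s1 := true) (s2 := true) (a := 1) (b := 1) (c := 2) (cn := .dn) (n1 := ndB1q1) (n2 := ndB0q2) (pc := pcB1) (cut := Cut.none) (xt := Ext.none) (P1 := 536870912) (W1 := 536870912) (P2 := 0) (W2 := 536870912) (P3 := 966367641) (W3 := 24778659) (N0 := 3) (En := eng) (mo := mog) (C1 := cd1q1) (C2 := cd0q2) (C3 := pd1)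
    rfl (fun _ => rfl) k0_pp_112

noncomputable def f_pp_202_a : ℕ → ℕ → ℕ → ℕ → Bool := onCell 0 536870912 0 536870912 966367641 24778659
    (rowB 3 eng mog cd1q2a cd0q2 pd0 0 false true true .pp 2 0 2 (qsf 0 536870912 0 536870912 0) ndB1q2a ndB0q2 pcB0 Cut.none Ext.none)

def k0_pp_202_a : ∃ t, chk3 f_pp_202_a t 1 1 1 = true :=
  ⟨(l 3), by decide +kernel⟩

theorem c_pp_202_a : CertB 0 536870912 0 536870912 966367641 24778659 3 eng mog cd1q2a cd0q2 pd0 false true true .pp 2 0 2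
    ndB1q2a ndB0q2 pcB0 Cut.none Ext.none :=
  certB0 (fam := false) (s1 := true) (s2 := true) (a := 2) (b := 0) (c := 2) (cn := .pp) (n1 := ndB1q2a) (n2 := ndB0q2) (pc := pcB0) (cut := Cut.none) (xt := Ext.none) (P1 := 0) (W1 := 536870912) (P2 := 0) (W2 := 536870912) (P3 := 966367641) (W3 := 24778659) (N0 := 3) (En := eng) (mo := mog) (C1 := cd1q2a) (C2 := cd0q2) (C3 := pd0)
    rfl k0_pp_202_a

noncomputable def f_pp_202_b : ℕ → ℕ → ℕ → ℕ → Bool := onCell 1239849684 370763052 0 536870912 966367641 24778659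
    (rowB 3 eng mog cd1q2b cd0q2 pd0 0 false true true .pp 2 0 2 (qsf 1239849684 370763052 0 536870912 0) ndB1q2b ndB0q2 pcB0 Cut.none Ext.none)

def k0_pp_202_b : ∃ t, chk3 f_pp_202_b t 1 1 1 = true :=
  ⟨(l 3), by decide +kernel⟩

theorem c_pp_202_b : CertB 1239849684 370763052 0 536870912 966367641 24778659 3 eng mog cd1q2b cd0q2 pd0 false true true .pp 2 0 2
    ndB1q2b ndB0q2 pcB0 Cut.none Ext.none :=
  certB0 (fam := false) (s1 := true) (s2 := true) (a := 2) (b := 0) (c := 2) (cn := .pp) (n1 := ndB1q2b) (n2 := ndB0q2) (pc := pcB0) (cut := Cut.none) (xt := Ext.none) (P1 := 1239849684) (W1 := 370763052) (P2 := 0) (W2 := 536870912) (P3 := 966367641) (W3 := 24778659) (N0 := 3) (En := eng) (mo := mog) (C1 := cd1q2b) (C2 := cd0q2) (C3 := pd0)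
    rfl k0_pp_202_b

noncomputable def f_pm_001 : ℕ → ℕ → ℕ → ℕ → Bool := onCell 0 536870912 536870912 536870912 966367641 24778659
    (rowB 3 eng mog cd1q0 cd0q1 pd0 0 false true false .up 0 0 1 (qsf 0 536870912 536870912 536870912 0) ndB1q0 ndB0q1 pcB0 Cut.none Ext.none)

def k0_pm_001 : ∃ t, chk3 f_pm_001 t 1 1 1 = true :=
  ⟨(b (l 4) (b (l 4) (a (l 2) (b (l 4) (a (l 2) (a (b (l 4) (l 2)) (b (b (l 4) (a (l 15967440) (l 15923352))) (a (b (l 15955152) (l 2)) (l 15907240))))))))), by decide +kernel⟩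

theorem c_pm_001 : CertB 0 536870912 536870912 536870912 966367641 24778659 3 eng mog cd1q0 cd0q1 pd0 false true false .up 0 0 1
    ndB1q0 ndB0q1 pcB0 Cut.none Ext.none :=
  certB0 (fam := false) (s1 := true) (s2 := false) (a := 0) (b := 0) (c := 1) (cn := .up) (n1 := ndB1q0) (n2 := ndB0q1) (pc := pcB0) (cut := Cut.none) (xt := Ext.none) (P1 := 0) (W1 := 536870912) (P2 := 536870912) (W2 := 536870912) (P3 := 966367641) (W3 := 24778659) (N0 := 3) (En := eng) (mo := mog) (C1 := cd1q0) (C2 := cd0q1) (C3 := pd0)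
    rfl k0_pm_001

noncomputable def cut_pm_011 : Cut := Cut.of [[⟨0, 0, 0, 67108864⟩, ⟨1, 1, 0, 67108864⟩, ⟨2, 1, 0, 67108864⟩]]

noncomputable def f_pm_011 : ℕ → ℕ → ℕ → ℕ → Bool := onCell 0 536870912 536870912 536870912 966367641 24778659
    (rowB 3 eng mog cd1q0 cd0q1 pd1 0 false true false .pnn 0 1 1 (qsf 0 536870912 536870912 536870912 1) ndB1q0 ndB0q1 pcB1 cut_pm_011 Ext.none)

def k0_pm_011 : ∃ t, chk3 f_pm_011 t 1 1 1 = true :=
  ⟨(b (l 4) (b (l 4) (b (a (l 4) (l 4)) (b (a (l 4) (a (l 4) (a (l 4) (b (l 4) (a (l 15968888) (l 15926480)))))) (b (a (l 4) (a (a (l 4) (a (l 4) (l 16124224))) (a (a (l 16059000) (l 16002288)) (l 15935816)))) (a (a (a (a (l 6) (l 4)) (l 4)) (a (l 4) (a (l 4) (b (l 4) (l 16346952))))) (a (a (a (b (l 4) (l 16315008)) (c (l 16293280) (l 16201560))) (a (l 16007864) (l 16108264))) (a (l 15916992) (l 15932424))))))))), by decide +kernel⟩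

theorem c_pm_011 : CertB 0 536870912 536870912 536870912 966367641 24778659 3 eng mog cd1q0 cd0q1 pd1 false true false .pnn 0 1 1
    ndB1q0 ndB0q1 pcB1 cut_pm_011 Ext.none :=
  certB0 (fam := false) (s1 := true) (s2 := false) (a := 0) (b := 1) (c := 1) (cn := .pnn) (n1 := ndB1q0) (n2 := ndB0q1) (pc := pcB1) (cut := cut_pm_011) (xt := Ext.none) (P1 := 0) (W1 := 536870912) (P2 := 536870912) (W2 := 536870912) (P3 := 966367641) (W3 := 24778659) (N0 := 3) (En := eng) (mo := mog) (C1 := cd1q0) (C2 := cd0q1) (C3 := pd1)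
    rfl k0_pm_011

noncomputable def cut_pm_012 : Cut := Cut.of [[⟨0, 0, 0, 67108864⟩, ⟨1, 1, 0, 67108864⟩, ⟨2, 1, 0, 67108864⟩]]

noncomputable def f_pm_012 : ℕ → ℕ → ℕ → ℕ → Bool := onCell 536870912 536870912 0 536870912 966367641 24778659
    (rowB 3 eng mog cd1q0 cd0q2 pd1 2 false true false .pnp 0 1 2 (qsf 0 536870912 0 536870912 1) ndB1q0 ndB0q2 pcB1 cut_pm_012 Ext.none)

def k0_pm_012 : ∃ t, chk3 f_pm_012 t 2 1 1 = true :=
  ⟨(b (a (b (l 2) (a (l 2) (l 15861640))) (b (a (l 15908216) (a (l 15889696) (l 15898408))) (a (b (l 15843560) (l 15833256)) (b (l 15841480) (l 15831856))))) (b (a (a (l 2) (b (l 15857832) (l 15876152))) (b (a (l 15841712) (l 15824832)) (a (a (l 15872408) (l 15875032)) (b (l 15873752) (l 15904560))))) (a (b (a (l 15902544) (b (l 15898752) (l 15925216))) (a (b (l 15918920) (l 15924200)) (b (l 15958976) (l 15912032)))) (b (a (b (l 15915672) (l 15957888)) (b (l 15948392) (l 16005816))) (a (b (a (l 16000544) (l 16034176)) (a (l 16065584)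 (l 16119520))) (a (b (l 16071464) (l 16177824)) (b (l 16111600) (l 16113016)))))))), by decide +kernel⟩

def k1_pm_012 : ∃ t, chk3 f_pm_012 t 3 2 1 = true :=
  ⟨(a (b (a (b (l 15947344) (l 15893992)) (b (l 15999152) (l 15936832))) (a (b (l 15860216) (l 15829896)) (b (l 15898400) (l 15889336)))) (b (a (b (a (l 16049096) (l 16087128)) (a (l 15980272) (l 16014232))) (a (b (l 16128536) (l 16051776)) (b (l 16173000) (l 16092568)))) (a (b (a (l 15938536) (l 15970552)) (a (l 15929856) (l 15962344))) (b (a (l 16006336) (l 16045576)) (a (l 15998784) (l 16059856)))))), by decide +kernel⟩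

def k2_pm_012 : ∃ t, chk3 f_pm_012 t 3 6 1 = true :=
  ⟨(a (a (b (l 15869968) (a (b (l 15894880) (l 15930624)) (l 15935080))) (b (b (l 15902784) (l 15923648)) (b (l 15954960) (l 15999992)))) (a (b (a (l 15958048) (l 15993352)) (a (l 16029520) (b (l 16043288) (l 16096752)))) (b (a (b (l 16018512) (l 16046056)) (b (l 16060632) (l 16090224))) (a (b (l 16086168) (l 16143048)) (b (c (l 16124624) (l 16120064)) (a (l 16180208) (l 16206216))))))), by decide +kernel⟩

def k3_pm_012 : ∃ t, chk3 f_pm_012 t 3 7 1 = true :=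
  ⟨(a (b (a (b (a (l 15983936) (l 16011728)) (a (l 16051392) (l 16086584))) (b (a (l 16043072) (a (l 16070896) (l 16091576))) (a (l 16125392) (b (l 16143504) (l 16192992))))) (a (b (a (l 16154008) (l 16093392)) (a (l 122639994519) (b (l 16321088) (l 16387648)))) (b (a (b (l 16203656) (l 16284000)) (b (l 16250688) (l 16330032))) (a (b (l 16379288) (c (l 16498152) (l 16410624))) (b (l 16434072) (a (l 16523520) (l 16552432))))))) (b (a (b (a (l 16123808) (l 16170464)) (a (c (a (l 16217400) (l 16238648)) (b (l 16168048) (l 16120824))) (b (l 16239376) (b (l 16279176) (a (l 16293752) (l 16322384)))))) (b (a (l 16263232) (a (l 16261832) (a (l 16282896) (l 16297248)))) (a (b (l 16294280) (l 16351656)) (a (b (l 16337912) (l 16397632)) (b (l 16368208) (a (l 16421400) (l 6))))))) (b (a (a (b (l 16301440) (a (l 16364264) (l 16388752))) (b (a (l 16342736) (a (l 16363720) (l 16377832))) (a (l 16414960) (b (l 16423736) (l 16461896))))) (a (a (b (b (l 16384016) (l 16373760))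 (b (b (l 16444936) (l 16463952)) (l 16492616))) (b (l 16432784) (c (b (l 16485952) (l 16524104)) (a (l 16496056) (l 16513336))))) (b (a (l 16465496) (l 6)) (l 6)))) (a (b (a (l 16335384) (a (l 16515224) (b (l 16508576) (l 16565072)))) (b (a (l 16560472) (a (l 16600352) (l 16622064))) (l 4))) (a (b (a (b (a (l 16527008) (l 16541360)) (l 16586424)) (b (a (l 16557128) (l 6)) (l 6))) (a (b (l 16601448) (l 4)) (l 6))) (l 6)))))), by decide +kernel⟩

theorem s4_pm_012 : ∃ t, chk3 f_pm_012 t 3 3 1 = true := ex3_b k2_pm_012 k3_pm_012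

theorem s5_pm_012 : ∃ t, chk3 f_pm_012 t 3 1 1 = true := ex3_b k1_pm_012 s4_pm_012

theorem s6_pm_012 : ∃ t, chk3 f_pm_012 t 1 1 1 = true := ex3_a k0_pm_012 s5_pm_012

theorem c_pm_012 : CertB 0 536870912 0 536870912 966367641 24778659 3 eng mog cd1q0 cd0q2 pd1 false true false .pnp 0 1 2
    ndB1q0 ndB0q2 pcB1 cut_pm_012 Ext.none :=
  certB2 (fam := false) (s1 := true) (s2 := false) (a := 0) (b := 1) (c := 2) (cn := .pnp) (n1 := ndB1q0) (n2 := ndB0q2) (pc := pcB1) (cut := cut_pm_012) (xt := Ext.none) (P1 := 0) (W1 := 536870912) (P2 := 0) (W2 := 536870912) (P3 := 966367641) (W3 := 24778659) (N0 := 3) (En := eng) (mo := mog) (C1 := cd1q0) (C2 := cd0q2) (C3 := pd1)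
    rfl (fun _ => rfl) s6_pm_012

noncomputable def cut_pm_022 : Cut := Cut.of [[⟨0, 0, 0, 67108864⟩, ⟨1, 1, 0, 67108864⟩, ⟨2, 1, 0, 67108864⟩]]

noncomputable def f_pm_022 : ℕ → ℕ → ℕ → ℕ → Bool := onCell 0 536870912 0 536870912 966367641 24778659
    (rowB 3 eng mog cd1q0 cd0q2 pd2 0 false true false .pp 0 2 2 (qsf 0 536870912 0 536870912 2) ndB1q0 ndB0q2 pcB2 cut_pm_022 Ext.none)

def k0_pm_022 : ∃ t, chk3 f_pm_022 t 4 2 1 = true :=
  ⟨(b (b (b (a (a (a (c (l 16103408) (l 16298584)) (l 16123800)) (c (l 16295472) (l 16371216))) (a (l 16399608) (l 16504528))) (a (a (c (a (b (a (l 16184768) (l 16203184)) (l 16156264)) (l 16211960)) (a (l 16213312) (l 16311336))) (b (l 16129312) (l 16180048))) (a (l 16348488) (l 16517312)))) (a (c (a (a (b (c (l 16178400) (l 16234744)) (a (l 16166048) (l 16230296))) (b (l 16247832) (l 16264448))) (a (l 16306752) (l 16360616))) (a (a (b (l 16302320) (l 16284784)) (l 16283008)) (l 16283112))) (a (l 16219744) (l 16261552)))) (a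 (a (b (c (c (a (b (l 16191552) (a (l 16200760) (l 16250320))) (l 16216792)) (a (b (l 16258616) (l 16275464)) (l 16292208))) (a (b (l 16268128) (a (l 16308168) (l 16345728))) (b (l 16360192) (l 16351040)))) (b (a (a (c (b (l 16259624) (l 16209712)) (l 16274600)) (c (l 16294344) (l 16356952))) (a (l 16202440) (l 16311376))) (a (a (c (b (a (l 16279464) (l 16294360)) (c (l 16269224) (l 16294304))) (b (l 16346776) (l 16312776))) (c (b (l 16316752) (l 16333480)) (l 16351904))) (c (l 16265848) (l 16344520))))) (b (a (b (l 16268440) (l 16269928)) (l 16254456)) (b (a (l 16296352) (l 16486984)) (c (l 16304504) (l 16357296))))) (a (b (c (l 16503248) (l 16452528)) (b (l 16360968) (a (l 16456432) (l 16380096)))) (b (c (l 16350080) (l 16297616)) (c (b (l 16324248) (l 16278272)) (l 16075536)))))), by decide +kernel⟩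

def k1_pm_022 : ∃ t, chk3 f_pm_022 t 4 12 1 = true :=
  ⟨(a (a (a (b (a (c (b (a (b (l 16286712) (l 16295968)) (l 16328216)) (a (a (b (l 16301712) (l 16312040)) (l 16315072)) (l 16348392))) (b (a (l 16337784) (l 16370928)) (a (b (l 16367792) (l 16374680)) (l 16384088)))) (c (b (l 16352136) (l 16373072)) (b (l 16389328) (l 16403568)))) (a (c (a (b (b (a (l 16322928) (l 16352328)) (a (c (l 16347808) (l 16363040)) (l 16363912))) (b (a (b (l 16343312) (l 16349448)) (l 16376032)) (c (l 16357472) (l 16369304)))) (b (l 16370824) (a (l 16370112) (l 16399816)))) (b (a (b (l 16382232) (a (l 16366040) (l 16393912))) (l 16399944)) (c (a (b (l 16392248) (l 16381624)) (l 16412520)) (a (b (l 16406624) (l 16394432)) (l 16424464))))) (c (b (l 16396248) (l 16421616)) (b (l 16420432) (l 16439904))))) (a (b (c (l 16394720) (l 16421536)) (c (l 16401008) (l 16415832))) (b (l 16332448) (c (l 16456216) (l 16465352))))) (b (c (a (l 16481408) (l 16525352)) (l 16359952)) (a (a (l 16477152)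 (l 16556480)) (l 16470112)))) (a (b (a (l 16431296) (l 16346808)) (a (l 16338160) (l 16308632))) (b (a (l 16260280) (l 16172496)) (a (l 16214632) (l 1))))), by decide +kernel⟩

def k2_pm_022 : ∃ t, chk3 f_pm_022 t 4 13 1 = true :=
  ⟨(b (a (a (a (a (c (b (a (c (b (l 16371312) (l 16385648)) (b (l 16381736) (l 16394720))) (a (l 16417736) (l 16426720))) (c (a (b (l 16405736) (l 16415688)) (l 16448224)) (a (b (l 16413488) (l 16432696)) (l 16453952)))) (c (a (b (b (l 16392592) (l 16404168)) (b (l 16426824) (l 16439512))) (b (l 16435056) (l 16459944))) (a (b (b (l 16403872) (l 16424488)) (b (l 16437872) (l 16446608))) (b (l 16444048) (l 16466200))))) (b (c (l 16449112) (l 16440896)) (c (l 16436664) (l 16444328)))) (c (a (l 16415920) (l 16514640)) (a (l 16420160) (l 16513832)))) (a (a (l 16490464) (l 16536384)) (b (l 16471552) (l 16415472)))) (a (a (c (l 16371064) (l 16361704)) (c (l 16272872) (l 16259840))) (a (c (l 16173920) (l 16156872)) (l 1)))) (a (a (a (a (b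 (c (a (b (c (l 16430992) (l 16446888)) (c (l 16456848) (l 16450792))) (b (l 16473456) (l 16488560))) (c (a (b (l 16452552) (l 16455440)) (l 16486584)) (a (b (l 16458456) (l 16460288)) (l 16490512)))) (c (a (b (c (l 16472320) (l 16465400)) (c (l 16477408) (l 16480240))) (b (l 16503808) (l 16519224))) (c (a (b (l 16469152) (l 16483216)) (l 16514536)) (a (b (l 16473080) (l 16486344)) (l 16516688))))) (b (c (l 16467272) (l 16470648)) (c (l 16498368) (l 16498568)))) (c (b (l 16480936) (l 16492032)) (b (l 16476720) (l 16485152)))) (a (c (l 16496152) (l 16499840)) (c (l 16373728) (l 16394032)))) (a (a (c (l 16333256) (l 16327712)) (c (l 16228944) (l 16218056))) (l 1)))), by decide +kernel⟩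

def k3_pm_022 : ∃ t, chk3 f_pm_022 t 4 7 1 = true :=
  ⟨(a (b (a (b (b (a (a (c (a (b (c (l 16493120) (l 16495320)) (c (l 16508992) (l 16531632))) (b (l 16534816) (l 16550600))) (c (a (b (l 16497640) (l 16533408)) (l 16543912)) (a (b (l 16521064) (l 16535296)) (l 16544792)))) (c (l 16530072) (l 16528112))) (c (l 16519456) (a (l 16603792) (l 16609240)))) (b (b (a (a (a (c (a (l 16516640) (l 16547624)) (l 16524536)) (l 16562816)) (l 16548768)) (a (l 16627216) (l 16601160))) (l 6)) (l 6))) (l 6)) (b (a (a (b (l 16552768) (l 16502976)) (b (l 16498600) (l 16488808))) (c (b (l 16416096) (l 16403864)) (b (l 16416472) (l 16403672)))) (a (l 6) (a (l 6) (a (l 6) (l 1)))))) (a (l 6) (a (l 6) (l 1)))) (b (a (b (a (c (b (l 16308064) (l 16293064)) (b (l 16302280) (l 16285832))) (l 1)) (l 1)) (l 1)) (l 1))), by decide +kernel⟩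

def k4_pm_022 : ∃ t, chk3 f_pm_022 t 5 1 1 = true :=
  ⟨(b (a (a (a (b (b (l 16486816) (l 16380304)) (b (l 16188872) (b (l 16192896) (l 16139584)))) (b (b (l 16453216) (l 16268592)) (b (l 16124928) (l 1)))) (b (b (l 1) (l 1)) (l 1))) (l 1)) (b (l 1) (l 1))), by decide +kernel⟩

def k5_pm_022 : ∃ t, chk3 f_pm_022 t 3 1 1 = true :=
  ⟨(l 1), by decide +kernel⟩

theorem s6_pm_022 : ∃ t, chk3 f_pm_022 t 4 6 1 = true := ex3_b k1_pm_022 k2_pm_022

theorem s7_pm_022 : ∃ t, chk3 f_pm_022 t 4 3 1 = true := ex3_b s6_pm_022 k3_pm_022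

theorem s8_pm_022 : ∃ t, chk3 f_pm_022 t 4 1 1 = true := ex3_b k0_pm_022 s7_pm_022

theorem s9_pm_022 : ∃ t, chk3 f_pm_022 t 2 1 1 = true := ex3_a s8_pm_022 k4_pm_022

theorem s10_pm_022 : ∃ t, chk3 f_pm_022 t 1 1 1 = true := ex3_a s9_pm_022 k5_pm_022

theorem c_pm_022 : CertB 0 536870912 0 536870912 966367641 24778659 3 eng mog cd1q0 cd0q2 pd2 false true false .pp 0 2 2
    ndB1q0 ndB0q2 pcB2 cut_pm_022 Ext.none :=
  certB0 (fam := false) (s1 := true) (s2 := false) (a := 0) (b := 2) (c := 2) (cn := .pp) (n1 := ndB1q0) (n2 := ndB0q2) (pc := pcB2) (cut := cut_pm_022) (xt := Ext.none) (P1 := 0) (W1 := 536870912) (P2 := 0) (W2 := 536870912) (P3 := 966367641) (W3 := 24778659) (N0 := 3) (En := eng) (mo := mog) (C1 := cd1q0) (C2 := cd0q2) (C3 := pd2)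
    rfl s10_pm_022

noncomputable def f_pm_101 : ℕ → ℕ → ℕ → ℕ → Bool := onCell 0 536870912 536870912 536870912 966367641 24778659
    (rowB 3 eng mog cd1q1 cd0q1 pd0 2 false true false .npn 1 0 1 (qsf 536870912 536870912 536870912 536870912 0) ndB1q1 ndB0q1 pcB0 Cut.none Ext.none)

def k0_pm_101 : ∃ t, chk3 f_pm_101 t 1 1 1 = true :=
  ⟨(b (l 4) (a (a (b (b (l 4) (a (b (a (l 15491792) (l 4)) (a (l 15426816) (l 15473992))) (b (l 4) (a (l 15537184) (l 15600992))))) (b (a (a (b (l 15437352) (l 15474944)) (b (l 15443760) (l 15425552))) (b (a (l 15502448) (l 15543736)) (a (l 15498096) (l 15529360)))) (a (a (b (b (l 15514856) (l 15547752)) (b (l 15588968) (l 15630240))) (b (l 15452112) (l 15483592))) (b (a (l 15505880) (l 15520808)) (b (l 15523432) (l 15539584)))))) (b (l 4) (b (a (b (a (l 15589024) (l 15638392)) (a (l 15558232) (l 15589776))) (b (b (l 4) (l 15691928)) (l 15643032))) (a (b (a (l 15534376) (l 15552376)) (a (l 15516600) (l 15517392))) (b (l 15567272)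 (a (l 15526096) (l 15541952))))))) (b (l 4) (a (b (b (l 4) (a (a (l 15702968) (l 15743344)) (a (l 15781496) (l 15815808)))) (a (b (l 15649752) (l 15576704)) (b (l 15612928) (l 15638424)))) (b (l 4) (a (b (c (l 15744376) (l 15796800)) (l 15707784)) (b (a (l 15796032) (l 252897551223)) (b (l 15782800) (l 15760136))))))))), by decide +kernel⟩

theorem c_pm_101 : CertB 536870912 536870912 536870912 536870912 966367641 24778659 3 eng mog cd1q1 cd0q1 pd0 false true false .npn 1 0 1
    ndB1q1 ndB0q1 pcB0 Cut.none Ext.none :=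
  certB2 (fam := false) (s1 := true) (s2 := false) (a := 1) (b := 0) (c := 1) (cn := .npn) (n1 := ndB1q1) (n2 := ndB0q1) (pc := pcB0) (cut := Cut.none) (xt := Ext.none) (P1 := 536870912) (W1 := 536870912) (P2 := 536870912) (W2 := 536870912) (P3 := 966367641) (W3 := 24778659) (N0 := 3) (En := eng) (mo := mog) (C1 := cd1q1) (C2 := cd0q1) (C3 := pd0)
    rfl (fun _ => rfl) k0_pm_101

noncomputable def f_pm_102 : ℕ → ℕ → ℕ → ℕ → Bool := onCell 0 536870912 0 536870912 966367641 24778659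
    (rowB 3 eng mog cd1q1 cd0q2 pd0 2 false true false .npp 1 0 2 (qsf 536870912 536870912 0 536870912 0) ndB1q1 ndB0q2 pcB0 Cut.none Ext.none)

def k0_pm_102 : ∃ t, chk3 f_pm_102 t 2 2 1 = true :=
  ⟨(a (b (l 2) (a (l 2) (a (l 2) (b (l 2) (a (l 2) (l 16440528)))))) (a (a (b (a (l 2) (b (a (l 2) (b (l 3) (b (c (l 169818486375) (l 174650309351)) (l 206258592199)))) (b (b (l 120359208055) (l 16542288)) (l 16515936)))) (b (b (a (l 16533920) (l 16474608)) (l 16446616)) (l 16278072))) (b (b (b (a (a (l 3) (a (l 167671053207) (c (l 161228589447) (l 165523560071)))) (b (a (l 3) (b (l 3) (l 191293270759))) (a (b (a (l 187535222903) (l 175724038631)) (l 45801367463)) (c (l 16491152) (l 186998259159))))) (c (a (b (a (l 168744770775) (l 16541168)) (l 16535296)) (l 16547576)) (a (b (a (l 178945298151) (l 16539696)) (l 16528784)) (l 16558888)))) (b (a (l 16547096) (l 16376656)) (a (l 16466280) (l 16355656)))) (b (b (l 16371896) (l 16337920)) (l 16255352)))) (b (b (a (a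 (a (b (b (c (l 170892148535) (l 177334593511)) (l 16461904)) (l 16428808)) (b (b (c (l 172502730871) (l 181629521479)) (l 16485488)) (l 16450896))) (b (b (a (b (l 16497808) (l 16485536)) (l 16474456)) (a (l 16467272) (l 16449096))) (l 16316560))) (b (a (b (l 16385456) (l 16421688)) (l 16294144)) (a (l 16382144) (l 16342944)))) (a (b (a (l 16416456) (l 16372976)) (b (l 16275488) (l 16333240))) (b (b (l 16322168) (l 16293400)) (l 16256984)))) (b (a (l 16223760) (l 16173704)) (a (l 16156392) (l 16064488)))))), by decide +kernel⟩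

def k1_pm_102 : ∃ t, chk3 f_pm_102 t 2 3 1 = true :=
  ⟨(a (b (a (l 2) (a (b (l 2) (a (l 16170984) (l 16146704))) (b (a (l 16227496) (b (l 16338416) (l 16244392))) (a (l 16125640) (l 16106600))))) (a (a (b (l 2) (b (l 15924592) (b (l 15815648) (b (l 15759272) (l 15720672))))) (b (a (b (l 2) (l 15990904)) (b (l 16053088) (l 15945728))) (a (b (l 15864984) (l 15724120)) (b (l 15828984) (b (l 15733176) (l 15656992)))))) (b (a (b (l 16010904) (l 15905608)) (b (l 15968480) (l 15861088))) (a (b (l 15788984) (l 15635512)) (b (l 15742128) (b (l 15645224) (l 15574832))))))) (b (b (a (a (l 16001176) (l 16136784)) (b (l 16027512) (l 15965560))) (a (a (l 16052208) (l 15975536)) (l 15872192))) (b (a (b (l 15880312) (l 15783296)) (a (l 15756608) (l 15695176))) (a (b (l 15673296) (l 15551616)) (a (l 15442504) (l 15559568)))))), by decide +kernel⟩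

def k2_pm_102 : ∃ t, chk3 f_pm_102 t 3 1 1 = true :=
  ⟨(b (a (b (a (b (a (b (a (l 16362816) (l 16326720)) (l 16243032)) (a (l 16259696) (l 16223744))) (a (b (c (l 16255304) (l 16193304)) (l 16170448)) (b (l 16151304) (l 16093520)))) (b (a (b (l 16204288) (l 16136296)) (b (l 16140352) (l 16072576))) (a (l 16055656) (l 15990312)))) (a (b (a (l 16089152) (l 16012152)) (l 15941096)) (b (l 15912384) (l 15805568)))) (b (a (b (b (a (l 16083048) (l 16033136)) (a (l 16019704) (l 15975048))) (l 15956232)) (b (a (l 15963808) (l 15935504)) (l 15844136))) (a (b (l 15810200) (l 15709160)) (b (l 15747288) (l 15655280))))) (b (a (b (a (b (l 15858080) (l 15816016)) (b (l 15725768) (l 15695416))) (a (l 15756840) (b (l 15678024) (l 15664512)))) (b (a (b (l 15636296) (l 15604176)) (a (l 15579832) (l 15568936))) (a (b (l 15609720) (l 15624928)) (b (l 15571160) (l 15616408))))) (a (b (a (l 15672512) (b (l 15650232) (l 15635568))) (a (b (l 15726016) (l 15560520)) (b (l 15619488)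 (l 15605120)))) (b (a (l 15628760) (b (l 15663288) (l 15712016))) (a (b (l 15668968) (l 15670344)) (b (l 15743864) (l 15746704))))))), by decide +kernel⟩

theorem s3_pm_102 : ∃ t, chk3 f_pm_102 t 2 1 1 = true := ex3_b k0_pm_102 k1_pm_102

theorem s4_pm_102 : ∃ t, chk3 f_pm_102 t 1 1 1 = true := ex3_a s3_pm_102 k2_pm_102

theorem c_pm_102 : CertB 536870912 536870912 0 536870912 966367641 24778659 3 eng mog cd1q1 cd0q2 pd0 false true false .npp 1 0 2
    ndB1q1 ndB0q2 pcB0 Cut.none Ext.none :=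
  certB2 (fam := false) (s1 := true) (s2 := false) (a := 1) (b := 0) (c := 2) (cn := .npp) (n1 := ndB1q1) (n2 := ndB0q2) (pc := pcB0) (cut := Cut.none) (xt := Ext.none) (P1 := 536870912) (W1 := 536870912) (P2 := 0) (W2 := 536870912) (P3 := 966367641) (W3 := 24778659) (N0 := 3) (En := eng) (mo := mog) (C1 := cd1q1) (C2 := cd0q2) (C3 := pd0)
    rfl (fun _ => rfl) s4_pm_102

noncomputable def f_pm_112 : ℕ → ℕ → ℕ → ℕ → Bool := onCell 536870912 536870912 0 536870912 966367641 24778659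
    (rowB 3 eng mog cd1q1 cd0q2 pd1 2 false true false .dn 1 1 2 (qsf 536870912 536870912 0 536870912 1) ndB1q1 ndB0q2 pcB1 Cut.none Ext.none)

def k0_pm_112 : ∃ t, chk3 f_pm_112 t 1 1 1 = true :=
  ⟨(a (b (a (b (b (a (l 15698840) (l 15832624)) (l 15793424)) (b (l 15797520) (l 15788312))) (a (b (l 15781512) (l 15719576)) (l 1))) (b (a (b (a (l 15803840) (l 15763832)) (a (l 15788496) (l 15768336))) (l 1)) (a (b (b (l 15796424) (l 86467315783)) (a (b (l 15818096) (l 15809584)) (l 1))) (l 1)))) (l 1)), by decide +kernel⟩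

theorem c_pm_112 : CertB 536870912 536870912 0 536870912 966367641 24778659 3 eng mog cd1q1 cd0q2 pd1 false true false .dn 1 1 2
    ndB1q1 ndB0q2 pcB1 Cut.none Ext.none :=
  certB2 (fam := false) (s1 := true) (s2 := false) (a := 1) (b := 1) (c := 2) (cn := .dn) (n1 := ndB1q1) (n2 := ndB0q2) (pc := pcB1) (cut := Cut.none) (xt := Ext.none) (P1 := 536870912) (W1 := 536870912) (P2 := 0) (W2 := 536870912) (P3 := 966367641) (W3 := 24778659) (N0 := 3) (En := eng) (mo := mog) (C1 := cd1q1) (C2 := cd0q2) (C3 := pd1)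
    rfl (fun _ => rfl) k0_pm_112

noncomputable def cut_pm_202_a : Cut := Cut.of [[⟨0, 1, 0, 67108864⟩, ⟨1, 0, 0, 67108864⟩, ⟨2, 1, 0, 67108864⟩]]

noncomputable def f_pm_202_a : ℕ → ℕ → ℕ → ℕ → Bool := onCell 0 536870912 0 536870912 966367641 24778659
    (rowB 3 eng mog cd1q2a cd0q2 pd0 0 false true false .pp 2 0 2 (qsf 0 536870912 0 536870912 0) ndB1q2a ndB0q2 pcB0 cut_pm_202_a Ext.none)

def k0_pm_202_a : ∃ t, chk3 f_pm_202_a t 1 1 1 = true :=
  ⟨(a (l 3) (b (l 3) (a (l 3) (b (l 3) (b (l 3) (a (l 3) (l 6))))))), by decide +kernel⟩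

theorem c_pm_202_a : CertB 0 536870912 0 536870912 966367641 24778659 3 eng mog cd1q2a cd0q2 pd0 false true false .pp 2 0 2
    ndB1q2a ndB0q2 pcB0 cut_pm_202_a Ext.none :=
  certB0 (fam := false) (s1 := true) (s2 := false) (a := 2) (b := 0) (c := 2) (cn := .pp) (n1 := ndB1q2a) (n2 := ndB0q2) (pc := pcB0) (cut := cut_pm_202_a) (xt := Ext.none) (P1 := 0) (W1 := 536870912) (P2 := 0) (W2 := 536870912) (P3 := 966367641) (W3 := 24778659) (N0 := 3) (En := eng) (mo := mog) (C1 := cd1q2a) (C2 := cd0q2) (C3 := pd0)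
    rfl k0_pm_202_a

noncomputable def cut_pm_202_b : Cut := Cut.of [[⟨0, 1, 0, 67108864⟩, ⟨1, 0, 0, 67108864⟩, ⟨2, 1, 0, 67108864⟩]]

noncomputable def f_pm_202_b : ℕ → ℕ → ℕ → ℕ → Bool := onCell 1239849684 370763052 0 536870912 966367641 24778659
    (rowB 3 eng mog cd1q2b cd0q2 pd0 0 false true false .pp 2 0 2 (qsf 1239849684 370763052 0 536870912 0) ndB1q2b ndB0q2 pcB0 cut_pm_202_b Ext.none)

def k0_pm_202_b : ∃ t, chk3 f_pm_202_b t 1 1 1 = true :=
  ⟨(l 3), by decide +kernel⟩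

theorem c_pm_202_b : CertB 1239849684 370763052 0 536870912 966367641 24778659 3 eng mog cd1q2b cd0q2 pd0 false true false .pp 2 0 2
    ndB1q2b ndB0q2 pcB0 cut_pm_202_b Ext.none :=
  certB0 (fam := false) (s1 := true) (s2 := false) (a := 2) (b := 0) (c := 2) (cn := .pp) (n1 := ndB1q2b) (n2 := ndB0q2) (pc := pcB0) (cut := cut_pm_202_b) (xt := Ext.none) (P1 := 1239849684) (W1 := 370763052) (P2 := 0) (W2 := 536870912) (P3 := 966367641) (W3 := 24778659) (N0 := 3) (En := eng) (mo := mog) (C1 := cd1q2b) (C2 := cd0q2) (C3 := pd0)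
    rfl k0_pm_202_b

noncomputable def f_mm_001 : ℕ → ℕ → ℕ → ℕ → Bool := onCell 0 536870912 536870912 536870912 966367641 24778659
    (rowB 3 eng mog cd1q0 cd0q1 pd0 0 false false false .up 0 0 1 (qsf 0 536870912 536870912 536870912 0) ndB1q0 ndB0q1 pcB0 Cut.none Ext.none)

def k0_mm_001 : ∃ t, chk3 f_mm_001 t 1 1 1 = true :=
  ⟨(l 5), by decide +kernel⟩

theorem c_mm_001 : CertB 0 536870912 536870912 536870912 966367641 24778659 3 eng mog cd1q0 cd0q1 pd0 false false false .up 0 0 1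
    ndB1q0 ndB0q1 pcB0 Cut.none Ext.none :=
  certB0 (fam := false) (s1 := false) (s2 := false) (a := 0) (b := 0) (c := 1) (cn := .up) (n1 := ndB1q0) (n2 := ndB0q1) (pc := pcB0) (cut := Cut.none) (xt := Ext.none) (P1 := 0) (W1 := 536870912) (P2 := 536870912) (W2 := 536870912) (P3 := 966367641) (W3 := 24778659) (N0 := 3) (En := eng) (mo := mog) (C1 := cd1q0) (C2 := cd0q1) (C3 := pd0)
    rfl k0_mm_001

noncomputable def f_mm_011 : ℕ → ℕ → ℕ → ℕ → Bool := onCell 0 536870912 536870912 536870912 966367641 24778659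
    (rowB 3 eng mog cd1q0 cd0q1 pd1 0 false false false .pnn 0 1 1 (qsf 0 536870912 536870912 536870912 1) ndB1q0 ndB0q1 pcB1 Cut.none Ext.none)

def k0_mm_011 : ∃ t, chk3 f_mm_011 t 1 1 1 = true :=
  ⟨(l 5), by decide +kernel⟩

theorem c_mm_011 : CertB 0 536870912 536870912 536870912 966367641 24778659 3 eng mog cd1q0 cd0q1 pd1 false false false .pnn 0 1 1
    ndB1q0 ndB0q1 pcB1 Cut.none Ext.none :=
  certB0 (fam := false) (s1 := false) (s2 := false) (a := 0) (b := 1) (c := 1) (cn := .pnn) (n1 := ndB1q0) (n2 := ndB0q1) (pc := pcB1) (cut := Cut.none) (xt := Ext.none) (P1 := 0) (W1 := 536870912) (P2 := 536870912) (W2 := 536870912) (P3 := 966367641) (W3 := 24778659) (N0 := 3) (En := eng) (mo := mog) (C1 := cd1q0) (C2 := cd0q1) (C3 := pd1)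
    rfl k0_mm_011

noncomputable def f_mm_012 : ℕ → ℕ → ℕ → ℕ → Bool := onCell 0 536870912 0 536870912 966367641 24778659
    (rowB 3 eng mog cd1q0 cd0q2 pd1 0 false false false .pnp 0 1 2 (qsf 0 536870912 0 536870912 1) ndB1q0 ndB0q2 pcB1 Cut.none Ext.none)

def k0_mm_012 : ∃ t, chk3 f_mm_012 t 1 1 1 = true :=
  ⟨(l 5), by decide +kernel⟩

theorem c_mm_012 : CertB 0 536870912 0 536870912 966367641 24778659 3 eng mog cd1q0 cd0q2 pd1 false false false .pnp 0 1 2
    ndB1q0 ndB0q2 pcB1 Cut.none Ext.none :=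
  certB0 (fam := false) (s1 := false) (s2 := false) (a := 0) (b := 1) (c := 2) (cn := .pnp) (n1 := ndB1q0) (n2 := ndB0q2) (pc := pcB1) (cut := Cut.none) (xt := Ext.none) (P1 := 0) (W1 := 536870912) (P2 := 0) (W2 := 536870912) (P3 := 966367641) (W3 := 24778659) (N0 := 3) (En := eng) (mo := mog) (C1 := cd1q0) (C2 := cd0q2) (C3 := pd1)
    rfl k0_mm_012

noncomputable def f_mm_022 : ℕ → ℕ → ℕ → ℕ → Bool := onCell 0 536870912 0 536870912 966367641 24778659
    (rowB 3 eng mog cd1q0 cd0q2 pd2 0 false false false .pp 0 2 2 (qsf 0 536870912 0 536870912 2) ndB1q0 ndB0q2 pcB2 Cut.none Ext.none)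

def k0_mm_022 : ∃ t, chk3 f_mm_022 t 1 1 1 = true :=
  ⟨(l 5), by decide +kernel⟩

theorem c_mm_022 : CertB 0 536870912 0 536870912 966367641 24778659 3 eng mog cd1q0 cd0q2 pd2 false false false .pp 0 2 2
    ndB1q0 ndB0q2 pcB2 Cut.none Ext.none :=
  certB0 (fam := false) (s1 := false) (s2 := false) (a := 0) (b := 2) (c := 2) (cn := .pp) (n1 := ndB1q0) (n2 := ndB0q2) (pc := pcB2) (cut := Cut.none) (xt := Ext.none) (P1 := 0) (W1 := 536870912) (P2 := 0) (W2 := 536870912) (P3 := 966367641) (W3 := 24778659) (N0 := 3) (En := eng) (mo := mog) (C1 := cd1q0) (C2 := cd0q2) (C3 := pd2)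
    rfl k0_mm_022

noncomputable def f_mm_101 : ℕ → ℕ → ℕ → ℕ → Bool := onCell 536870912 536870912 536870912 536870912 966367641 24778659
    (rowB 3 eng mog cd1q1 cd0q1 pd0 0 false false false .npn 1 0 1 (qsf 536870912 536870912 536870912 536870912 0) ndB1q1 ndB0q1 pcB0 Cut.none Ext.none)

def k0_mm_101 : ∃ t, chk3 f_mm_101 t 1 1 1 = true :=
  ⟨(l 3), by decide +kernel⟩

theorem c_mm_101 : CertB 536870912 536870912 536870912 536870912 966367641 24778659 3 eng mog cd1q1 cd0q1 pd0 false false false .npn 1 0 1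
    ndB1q1 ndB0q1 pcB0 Cut.none Ext.none :=
  certB0 (fam := false) (s1 := false) (s2 := false) (a := 1) (b := 0) (c := 1) (cn := .npn) (n1 := ndB1q1) (n2 := ndB0q1) (pc := pcB0) (cut := Cut.none) (xt := Ext.none) (P1 := 536870912) (W1 := 536870912) (P2 := 536870912) (W2 := 536870912) (P3 := 966367641) (W3 := 24778659) (N0 := 3) (En := eng) (mo := mog) (C1 := cd1q1) (C2 := cd0q1) (C3 := pd0)
    rfl k0_mm_101

noncomputable def f_mm_102 : ℕ → ℕ → ℕ → ℕ → Bool := onCell 536870912 536870912 0 536870912 966367641 24778659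
    (rowB 3 eng mog cd1q1 cd0q2 pd0 0 false false false .npp 1 0 2 (qsf 536870912 536870912 0 536870912 0) ndB1q1 ndB0q2 pcB0 Cut.none Ext.none)

def k0_mm_102 : ∃ t, chk3 f_mm_102 t 1 1 1 = true :=
  ⟨(l 5), by decide +kernel⟩

theorem c_mm_102 : CertB 536870912 536870912 0 536870912 966367641 24778659 3 eng mog cd1q1 cd0q2 pd0 false false false .npp 1 0 2
    ndB1q1 ndB0q2 pcB0 Cut.none Ext.none :=
  certB0 (fam := false) (s1 := false) (s2 := false) (a := 1) (b := 0) (c := 2) (cn := .npp) (n1 := ndB1q1) (n2 := ndB0q2) (pc := pcB0) (cut := Cut.none) (xt := Ext.none) (P1 := 536870912) (W1 := 536870912) (P2 := 0) (W2 := 536870912) (P3 := 966367641) (W3 := 24778659) (N0 := 3) (En := eng) (mo := mog) (C1 := cd1q1) (C2 := cd0q2) (C3 := pd0)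
    rfl k0_mm_102

noncomputable def f_mm_112 : ℕ → ℕ → ℕ → ℕ → Bool := onCell 536870912 536870912 0 536870912 966367641 24778659
    (rowB 3 eng mog cd1q1 cd0q2 pd1 0 false false false .dn 1 1 2 (qsf 536870912 536870912 0 536870912 1) ndB1q1 ndB0q2 pcB1 Cut.none Ext.none)

def k0_mm_112 : ∃ t, chk3 f_mm_112 t 1 1 1 = true :=
  ⟨(l 5), by decide +kernel⟩

theorem c_mm_112 : CertB 536870912 536870912 0 536870912 966367641 24778659 3 eng mog cd1q1 cd0q2 pd1 false false false .dn 1 1 2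
    ndB1q1 ndB0q2 pcB1 Cut.none Ext.none :=
  certB0 (fam := false) (s1 := false) (s2 := false) (a := 1) (b := 1) (c := 2) (cn := .dn) (n1 := ndB1q1) (n2 := ndB0q2) (pc := pcB1) (cut := Cut.none) (xt := Ext.none) (P1 := 536870912) (W1 := 536870912) (P2 := 0) (W2 := 536870912) (P3 := 966367641) (W3 := 24778659) (N0 := 3) (En := eng) (mo := mog) (C1 := cd1q1) (C2 := cd0q2) (C3 := pd1)
    rfl k0_mm_112

noncomputable def f_mm_202_a : ℕ → ℕ → ℕ → ℕ → Bool := onCell 0 536870912 0 536870912 966367641 24778659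
    (rowB 3 eng mog cd1q2a cd0q2 pd0 0 false false false .pp 2 0 2 (qsf 0 536870912 0 536870912 0) ndB1q2a ndB0q2 pcB0 Cut.none Ext.none)

def k0_mm_202_a : ∃ t, chk3 f_mm_202_a t 1 1 1 = true :=
  ⟨(l 3), by decide +kernel⟩

theorem c_mm_202_a : CertB 0 536870912 0 536870912 966367641 24778659 3 eng mog cd1q2a cd0q2 pd0 false false false .pp 2 0 2
    ndB1q2a ndB0q2 pcB0 Cut.none Ext.none :=
  certB0 (fam := false) (s1 := false) (s2 := false) (a := 2) (b := 0) (c := 2) (cn := .pp) (n1 := ndB1q2a) (n2 := ndB0q2) (pc := pcB0) (cut := Cut.none) (xt := Ext.none) (P1 := 0) (W1 := 536870912) (P2 := 0) (W2 := 536870912) (P3 := 966367641) (W3 := 24778659) (N0 := 3) (En := eng) (mo := mog) (C1 := cd1q2a) (C2 := cd0q2) (C3 := pd0)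
    rfl k0_mm_202_a

noncomputable def f_mm_202_b : ℕ → ℕ → ℕ → ℕ → Bool := onCell 1239849684 370763052 0 536870912 966367641 24778659
    (rowB 3 eng mog cd1q2b cd0q2 pd0 0 false false false .pp 2 0 2 (qsf 1239849684 370763052 0 536870912 0) ndB1q2b ndB0q2 pcB0 Cut.none Ext.none)

def k0_mm_202_b : ∃ t, chk3 f_mm_202_b t 1 1 1 = true :=
  ⟨(l 3), by decide +kernel⟩

theorem c_mm_202_b : CertB 1239849684 370763052 0 536870912 966367641 24778659 3 eng mog cd1q2b cd0q2 pd0 false false false .pp 2 0 2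
    ndB1q2b ndB0q2 pcB0 Cut.none Ext.none :=
  certB0 (fam := false) (s1 := false) (s2 := false) (a := 2) (b := 0) (c := 2) (cn := .pp) (n1 := ndB1q2b) (n2 := ndB0q2) (pc := pcB0) (cut := Cut.none) (xt := Ext.none) (P1 := 1239849684) (W1 := 370763052) (P2 := 0) (W2 := 536870912) (P3 := 966367641) (W3 := 24778659) (N0 := 3) (En := eng) (mo := mog) (C1 := cd1q2b) (C2 := cd0q2) (C3 := pd0)
    rfl k0_mm_202_b

end Pool.Agent.Strip051.G.I9000_9231.Tab.C.BB10

namespace Pool.Agent.Strip051.G.I9000_9231.Tab.C.BB11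

open Pool.Agent.Strip051.PB Pool.Agent.Strip051.PB.T
open Pool.Agent.Strip051.G.I9000_9231.Tab

noncomputable def f_pp_001 : ℕ → ℕ → ℕ → ℕ → Bool := onCell 0 536870912 536870912 536870912 966367641 24778659
    (rowB 3 eng mog cd1q0 cd1q1 pd0 0 false true true .up 0 0 1 (qsf 0 536870912 536870912 536870912 0) ndB1q0 ndB1q1 pcB0 Cut.none Ext.none)

def k0_pp_001 : ∃ t, chk3 f_pp_001 t 1 1 1 = true :=
  ⟨(l 3), by decide +kernel⟩

theorem c_pp_001 : CertB 0 536870912 536870912 536870912 966367641 24778659 3 eng mog cd1q0 cd1q1 pd0 false true true .up 0 0 1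
    ndB1q0 ndB1q1 pcB0 Cut.none Ext.none :=
  certB0 (fam := false) (s1 := true) (s2 := true) (a := 0) (b := 0) (c := 1) (cn := .up) (n1 := ndB1q0) (n2 := ndB1q1) (pc := pcB0) (cut := Cut.none) (xt := Ext.none) (P1 := 0) (W1 := 536870912) (P2 := 536870912) (W2 := 536870912) (P3 := 966367641) (W3 := 24778659) (N0 := 3) (En := eng) (mo := mog) (C1 := cd1q0) (C2 := cd1q1) (C3 := pd0)
    rfl k0_pp_001

noncomputable def f_pp_011 : ℕ → ℕ → ℕ → ℕ → Bool := onCell 0 536870912 536870912 536870912 966367641 24778659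
    (rowB 3 eng mog cd1q0 cd1q1 pd1 0 false true true .pnn 0 1 1 (qsf 0 536870912 536870912 536870912 1) ndB1q0 ndB1q1 pcB1 Cut.none Ext.none)

def k0_pp_011 : ∃ t, chk3 f_pp_011 t 1 1 1 = true :=
  ⟨(l 3), by decide +kernel⟩

theorem c_pp_011 : CertB 0 536870912 536870912 536870912 966367641 24778659 3 eng mog cd1q0 cd1q1 pd1 false true true .pnn 0 1 1
    ndB1q0 ndB1q1 pcB1 Cut.none Ext.none :=
  certB0 (fam := false) (s1 := true) (s2 := true) (a := 0) (b := 1) (c := 1) (cn := .pnn) (n1 := ndB1q0) (n2 := ndB1q1) (pc := pcB1) (cut := Cut.none) (xt := Ext.none) (P1 := 0) (W1 := 536870912) (P2 := 536870912) (W2 := 536870912) (P3 := 966367641) (W3 := 24778659) (N0 := 3) (En := eng) (mo := mog) (C1 := cd1q0) (C2 := cd1q1) (C3 := pd1)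
    rfl k0_pp_011

noncomputable def cut_pp_012_a : Cut := Cut.of [[⟨0, 0, 0, 67108864⟩, ⟨1, 1, 0, 67108864⟩, ⟨2, 1, 0, 67108864⟩]]

noncomputable def f_pp_012_a : ℕ → ℕ → ℕ → ℕ → Bool := onCell 536870912 536870912 0 536870912 966367641 24778659
    (rowB 3 eng mog cd1q0 cd1q2a pd1 2 false true true .pnp 0 1 2 (qsf 0 536870912 0 536870912 1) ndB1q0 ndB1q2a pcB1 cut_pp_012_a Ext.none)

def k0_pp_012_a : ∃ t, chk3 f_pp_012_a t 2 1 1 = true :=
  ⟨(a (b (b (l 2) (l 3)) (l 3)) (b (a (b (a (b (l 16264624) (a (l 2) (l 16308064))) (b (l 16235680) (l 16180944))) (b (a (c (l 111299158407) (l 128478753239)) (a (l 139216163687) (l 146195482327))) (l 3))) (c (b (a (l 16279768) (l 16268576)) (a (b (l 16352336) (l 140290138055)) (b (l 16339864) (l 132773972871)))) (b (a (l 16203008) (l 16193760)) (a (b (l 16284008) (l 155322344007)) (b (l 16272968) (b (l 16318704) (l 152638099559))))))) (b (a (l 3) (b (a (l 3) (b (l 156396225607) (l 3))) (l 3))) (l 3)))), by decide +kernel⟩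

def k1_pp_012_a : ∃ t, chk3 f_pp_012_a t 6 1 1 = true :=
  ⟨(b (a (b (a (l 16230112) (l 16236592)) (a (b (l 16303432) (b (l 16347072) (l 16272864))) (b (l 16307360) (c (l 16396584) (l 16338048))))) (b (a (l 16252048) (l 16276696)) (a (b (l 16319928) (c (l 16408464) (l 16352304))) (b (l 16341432) (l 16381104))))) (b (a (b (a (b (a (l 16403664) (l 16408600)) (l 172502440343)) (b (l 16394536) (a (l 16438744) (l 16448712)))) (a (l 3) (b (a (l 3) (l 211694044391)) (l 3)))) (c (b (a (l 16472464) (l 16495336)) (a (b (l 149953991783) (l 302962301063)) (b (l 16542704) (a (l 288466862151) (l 16540568))))) (b (a (l 16424384) (l 16450808)) (a (b (l 160691373095) (l 264844333671)) (b (l 16508392) (a (l 16500184) (l 16539344))))))) (a (l 3) (b (a (l 3) (b (b (a (l 3) (l 348596477111)) (l 3)) (l 3))) (l 3))))), by decide +kernel⟩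

def k2_pp_012_a : ∃ t, chk3 f_pp_012_a t 14 1 1 = true :=
  ⟨(b (b (a (l 16307624) (l 16341568)) (a (b (l 16368056) (l 16343336)) (b (l 16395296) (l 16408904)))) (b (b (a (a (l 16493280) (l 16505072)) (a (l 16515216) (l 16524344))) (a (a (b (l 16552224) (l 16560000)) (b (l 16565224) (l 16605864))) (b (a (l 16574936) (l 16582544)) (a (l 16618296) (l 16625536))))) (b (a (b (a (b (l 210620681575) (l 351817792503)) (b (l 16602320) (c (l 16589176) (l 16574440)))) (a (l 3) (b (l 349133529143) (l 3)))) (b (a (b (l 16647080) (l 16641888)) (b (l 16658976) (l 16680040))) (a (b (l 319605693575) (l 360407916151)) (b (l 16688832) (a (l 16663848) (l 16703336)))))) (b (a (l 3) (b (a (l 3) (b (l 341080671127) (l 3))) (l 3))) (l 3))))), by decide +kernel⟩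

def k3_pp_012_a : ∃ t, chk3 f_pp_012_a t 15 1 1 = true :=
  ⟨(b (a (b (b (l 16367848) (l 16387992)) (b (l 16423488) (a (l 16468256) (l 16479168)))) (b (b (l 16416512) (l 16428680)) (b (l 16435472) (a (l 16491112) (l 16507576))))) (b (a (b (a (l 16533072) (l 16498408)) (a (b (l 16589056) (l 16630576)) (b (l 16593400) (l 16611840)))) (b (a (b (l 16531896) (l 16563416)) (b (l 16545288) (l 16574632))) (a (b (l 16597760) (l 16592720)) (b (l 16564680) (c (l 16631536) (l 16650736)))))) (a (b (a (b (l 16606568) (b (l 16708688) (a (l 16721568) (l 16725312)))) (b (b (l 16663816) (l 16685336)) (b (l 16686400) (a (l 16731064) (l 16707688))))) (b (a (b (a (l 345912527383) (b (l 16743360) (l 16756888))) (b (a (l 3) (l 452213018919)) (l 3))) (b (a (l 16728552) (l 16751008)) (a (b (l 16747888) (l 458118610967)) (b (l 16765808) (l 268066292551))))) (a (l 3) (a (l 3) (l 6))))) (b (a (b (c (l 16645640) (l 16681296)) (b (l 16662296) (c (l 16695848) (l 16733672)))) (b (a (l 16612928)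 (l 16616584)) (b (b (l 16658608) (l 16647160)) (a (l 16703096) (l 6))))) (b (a (b (a (l 16726816) (l 6)) (l 6)) (l 6)) (l 6)))))), by decide +kernel⟩

theorem s4_pp_012_a : ∃ t, chk3 f_pp_012_a t 7 1 1 = true := ex3_a k2_pp_012_a k3_pp_012_a

theorem s5_pp_012_a : ∃ t, chk3 f_pp_012_a t 3 1 1 = true := ex3_a k1_pp_012_a s4_pp_012_a

theorem s6_pp_012_a : ∃ t, chk3 f_pp_012_a t 1 1 1 = true := ex3_a k0_pp_012_a s5_pp_012_a

theorem c_pp_012_a : CertB 0 536870912 0 536870912 966367641 24778659 3 eng mog cd1q0 cd1q2a pd1 false true true .pnp 0 1 2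
    ndB1q0 ndB1q2a pcB1 cut_pp_012_a Ext.none :=
  certB2 (fam := false) (s1 := true) (s2 := true) (a := 0) (b := 1) (c := 2) (cn := .pnp) (n1 := ndB1q0) (n2 := ndB1q2a) (pc := pcB1) (cut := cut_pp_012_a) (xt := Ext.none) (P1 := 0) (W1 := 536870912) (P2 := 0) (W2 := 536870912) (P3 := 966367641) (W3 := 24778659) (N0 := 3) (En := eng) (mo := mog) (C1 := cd1q0) (C2 := cd1q2a) (C3 := pd1)
    rfl (fun _ => rfl) s6_pp_012_a

noncomputable def cut_pp_012_b : Cut := Cut.of [[⟨0, 0, 0, 67108864⟩, ⟨1, 1, 0, 67108864⟩, ⟨2, 1, 0, 67108864⟩]]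

noncomputable def f_pp_012_b : ℕ → ℕ → ℕ → ℕ → Bool := onCell 536870912 536870912 1239849684 370763052 966367641 24778659
    (rowB 3 eng mog cd1q0 cd1q2b pd1 2 false true true .pnp 0 1 2 (qsf 0 536870912 1239849684 370763052 1) ndB1q0 ndB1q2b pcB1 cut_pp_012_b Ext.none)

def k0_pp_012_b : ∃ t, chk3 f_pp_012_b t 1 1 1 = true :=
  ⟨(a (a (l 2) (b (a (b (b (a (l 16212584) (l 16178520)) (l 2)) (l 2)) (b (b (a (l 16154848) (l 16140800)) (a (l 16086576) (l 16059512))) (a (l 2) (l 15972312)))) (l 2))) (a (b (a (b (b (a (l 16135824) (l 16139352)) (a (l 16041856) (l 16033144))) (a (l 15935208) (l 15907576))) (b (b (a (l 16152224) (l 16174640)) (a (l 16034296) (l 16045576))) (b (l 15932176) (l 15843264)))) (a (l 2) (b (a (l 15761608) (l 15730680)) (l 2)))) (b (a (b (b (a (l 16204344) (l 16239064)) (a (l 16064920) (l 16090368))) (b (a (l 15941552) (l 15956920)) (l 15836200))) (b (a (b (l 16153912) (l 16123064)) (b (l 16140888) (l 16166336))) (a (b (l 15980632) (l 15853728))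 (b (l 16016080) (l 15880384))))) (a (b (a (l 15709552) (l 15697112)) (l 15587488)) (b (a (l 15695120) (l 15707112)) (a (l 15545928) (l 15536744))))))), by decide +kernel⟩

theorem c_pp_012_b : CertB 0 536870912 1239849684 370763052 966367641 24778659 3 eng mog cd1q0 cd1q2b pd1 false true true .pnp 0 1 2
    ndB1q0 ndB1q2b pcB1 cut_pp_012_b Ext.none :=
  certB2 (fam := false) (s1 := true) (s2 := true) (a := 0) (b := 1) (c := 2) (cn := .pnp) (n1 := ndB1q0) (n2 := ndB1q2b) (pc := pcB1) (cut := cut_pp_012_b) (xt := Ext.none) (P1 := 0) (W1 := 536870912) (P2 := 1239849684) (W2 := 370763052) (P3 := 966367641) (W3 := 24778659) (N0 := 3) (En := eng) (mo := mog) (C1 := cd1q0) (C2 := cd1q2b) (C3 := pd1)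
    rfl (fun _ => rfl) k0_pp_012_b

noncomputable def cut_pp_022_a : Cut := Cut.of [[⟨0, 0, 0, 67108864⟩, ⟨1, 1, 0, 67108864⟩, ⟨2, 1, 0, 67108864⟩]]

noncomputable def f_pp_022_a : ℕ → ℕ → ℕ → ℕ → Bool := onCell 0 536870912 0 536870912 966367641 24778659
    (rowB 3 eng mog cd1q0 cd1q2a pd2 0 false true true .pp 0 2 2 (qsf 0 536870912 0 536870912 2) ndB1q0 ndB1q2a pcB2 cut_pp_022_a Ext.none)

def k0_pp_022_a : ∃ t, chk3 f_pp_022_a t 8 2 1 = true :=
  ⟨(b (b (a (a (b (l 16092800) (l 16107416)) (l 16169496)) (l 16127800)) (a (c (a (l 16107160) (l 16193472)) (a (l 16059336) (l 16140728))) (c (l 16300448) (l 16255880)))) (a (a (b (c (b (l 16139536) (l 16153160)) (b (l 16078816) (l 16084872))) (c (b (l 16172048) (a (l 16178544) (l 16215168))) (b (l 16097336) (a (l 16077992) (l 16135320))))) (b (c (l 16214936) (l 16147352)) (c (b (l 16243064) (l 16269544)) (b (l 16166752) (l 16189192))))) (c (b (l 16242632) (b (l 16316136) (l 16302944))) (b (l 16164984) (b (l 16252760)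 (l 16215872)))))), by decide +kernel⟩

def k1_pp_022_a : ∃ t, chk3 f_pp_022_a t 16 3 1 = true :=
  ⟨(b (b (a (b (c (a (l 16209816) (l 16247248)) (a (l 16132080) (l 16164464))) (c (b (a (l 16238080) (l 16276104)) (a (l 16259680) (l 16298104))) (c (b (l 16194720) (l 16216624)) (b (l 16130664) (l 16173616))))) (c (b (l 16302808) (c (l 16363704) (l 16323528))) (b (l 16178256) (a (l 16241704) (l 16280248))))) (a (b (c (b (a (a (l 16252800) (l 16293288)) (l 16322352)) (a (c (l 16308432) (a (l 16279736) (l 16299704))) (a (l 16339344) (l 16358720)))) (b (a (a (l 16179624) (l 16189208)) (l 16239952)) (b (a (a (l 16189488) (l 16230736)) (l 16260832)) (a (a (l 16204432) (l 16245640)) (l 16275896))))) (a (c (b (a (l 16327400) (l 16347568)) (c (l 16385256) (l 16328936))) (b (a (l 16239216) (l 16270016)) (c (l 16303088) (l 16271024)))) (b (c (b (l 16370240) (l 16384952)) (b (l 16291832) (l 16308800))) (c (l 16408264) (l 16335912))))) (b (c (c (l 16370816) (l 16310896)) (a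 (b (l 16278992) (l 16307920)) (l 16333016))) (a (b (c (l 16417048) (l 16340296)) (c (l 16448320) (l 16376296))) (c (b (l 16456408) (l 16488144)) (b (l 16380888) (l 16417104))))))) (b (b (b (c (a (a (a (b (l 16360936) (l 16378264)) (l 16411192)) (a (l 16431728) (l 16452152))) (a (l 16482544) (l 16522992))) (a (a (a (c (l 16319472) (l 16292816)) (a (l 16338920) (l 16349304))) (a (l 16364824) (l 16385432))) (a (l 16416088) (l 16457528)))) (b (b (a (a (c (a (l 16412768) (l 16433608)) (a (l 16328264) (l 16370256))) (c (l 16464664) (l 16401600))) (c (l 16484192) (l 16401072))) (l 6)) (l 6))) (l 6)) (l 6))), by decide +kernel⟩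

def k2_pp_022_a : ∃ t, chk3 f_pp_022_a t 17 3 1 = true :=
  ⟨(a (b (b (c (b (l 16381904) (l 16424312)) (b (l 16308368) (l 16351536))) (b (c (l 16412456) (l 16322056)) (c (b (l 16498792) (l 16468944)) (b (l 16433800) (l 16408192))))) (b (b (b (a (l 16474488) (l 16521792)) (c (l 16543984) (l 16495048))) (l 6)) (l 6))) (b (b (c (l 16316008) (b (l 16401240) (l 16446568))) (b (c (a (l 16537696) (l 16578488)) (l 16440104)) (b (b (l 16465376) (l 16482504)) (a (l 16508288) (l 16595080))))) (b (a (b (b (l 16525968) (l 16632712)) (l 6)) (b (b (l 16613656) (l 16639912)) (b (l 582538128055) (l 1)))) (l 1)))), by decide +kernel⟩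

def k3_pp_022_a : ∃ t, chk3 f_pp_022_a t 9 1 1 = true :=
  ⟨(b (c (a (b (a (l 16399368) (l 16445312)) (b (l 16430680) (a (l 16444992) (l 16560480)))) (b (l 16478872) (b (l 16489352) (c (l 201359464903) (l 199211997095))))) (b (a (a (l 16371688) (l 16444552)) (b (l 16541824) (l 16555768))) (a (b (l 16350128) (a (l 16417424) (l 16521880))) (b (l 16502960) (c (l 196527654039) (l 194380193271)))))) (b (b (b (a (a (c (l 16539912) (l 16490952)) (l 16512792)) (c (a (l 16587896) (l 360810131991)) (a (l 16617424) (l 340409062055)))) (a (a (b (l 16475952) (l 16490880)) (c (l 16636752) (l 16626616))) (a (c (l 16483368) (l 16518904)) (l 1)))) (a (a (b (b (l 16518800) (l 16528424)) (c (l 16564320) (l 16583632))) (b (c (l 16519888) (l 16550488)) (c (l 331819230967) (l 311418152119)))) (a (b (c (l 362420797399) (l 340945972711)) (l 1)) (l 1)))) (b (a (b (a (b (c (l 289943415511) (l 16574648)) (c (l 551399522151) (l 544420216279))) (l 1)) (l 1)) (l 1)) (l 1)))), by decide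 +kernel⟩

def k4_pp_022_a : ∃ t, chk3 f_pp_022_a t 5 1 1 = true :=
  ⟨(b (a (b (a (a (b (l 16501328) (l 16502344)) (b (l 16449216) (l 16404632))) (b (l 1) (l 1))) (a (b (a (c (l 16492944) (l 16486744)) (c (l 16373200) (l 16402184))) (a (c (l 398927843751) (l 379063637095)) (l 1))) (l 1))) (l 1)) (b (l 1) (l 1))), by decide +kernel⟩

def k5_pp_022_a : ∃ t, chk3 f_pp_022_a t 3 1 1 = true :=
  ⟨(l 1), by decide +kernel⟩

theorem s6_pp_022_a : ∃ t, chk3 f_pp_022_a t 8 3 1 = true := ex3_a k1_pp_022_a k2_pp_022_a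

theorem s7_pp_022_a : ∃ t, chk3 f_pp_022_a t 8 1 1 = true := ex3_b k0_pp_022_a s6_pp_022_a

theorem s8_pp_022_a : ∃ t, chk3 f_pp_022_a t 4 1 1 = true := ex3_a s7_pp_022_a k3_pp_022_a

theorem s9_pp_022_a : ∃ t, chk3 f_pp_022_a t 2 1 1 = true := ex3_a s8_pp_022_a k4_pp_022_a

theorem s10_pp_022_a : ∃ t, chk3 f_pp_022_a t 1 1 1 = true := ex3_a s9_pp_022_a k5_pp_022_a

theorem c_pp_022_a : CertB 0 536870912 0 536870912 966367641 24778659 3 eng mog cd1q0 cd1q2a pd2 false true true .pp 0 2 2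
    ndB1q0 ndB1q2a pcB2 cut_pp_022_a Ext.none :=
  certB0 (fam := false) (s1 := true) (s2 := true) (a := 0) (b := 2) (c := 2) (cn := .pp) (n1 := ndB1q0) (n2 := ndB1q2a) (pc := pcB2) (cut := cut_pp_022_a) (xt := Ext.none) (P1 := 0) (W1 := 536870912) (P2 := 0) (W2 := 536870912) (P3 := 966367641) (W3 := 24778659) (N0 := 3) (En := eng) (mo := mog) (C1 := cd1q0) (C2 := cd1q2a) (C3 := pd2)
    rfl s10_pp_022_a

noncomputable def cut_pp_022_b : Cut := Cut.of [[⟨0, 0, 0, 67108864⟩, ⟨1, 1, 0, 67108864⟩, ⟨2, 1, 0, 67108864⟩]]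

noncomputable def f_pp_022_b : ℕ → ℕ → ℕ → ℕ → Bool := onCell 0 536870912 1239849684 370763052 966367641 24778659
    (rowB 3 eng mog cd1q0 cd1q2b pd2 0 false true true .pp 0 2 2 (qsf 0 536870912 1239849684 370763052 2) ndB1q0 ndB1q2b pcB2 cut_pp_022_b Ext.none)

def k0_pp_022_b : ∃ t, chk3 f_pp_022_b t 2 1 1 = true :=
  ⟨(a (b (a (b (b (a (a (c (c (l 16086024) (l 16077912)) (a (l 16052408) (l 16078688))) (c (l 16142120) (l 16117856))) (c (l 16136872) (l 16137488))) (a (c (c (l 15925544) (l 15982624)) (a (l 15990392) (l 16040952))) (c (l 16154832) (l 16142248)))) (c (a (b (a (l 15922840) (l 15980216)) (a (l 15856832) (l 15912192))) (b (l 16076128) (l 16005336))) (b (a (a (l 15928024) (l 15976168)) (l 16074184)) (a (l 15837720) (l 16016664))))) (c (b (b (a (l 16310264) (l 16497360)) (l 16168864)) (b (l 16222936) (l 16189464))) (b (b (a (l 16278336) (l 16494160)) (l 16147608)) (a (l 16009056) (l 16301600))))) (b (a (a (b (c (l 15699800) (l 15838536)) (c (l 15710368)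 (l 15827008))) (b (c (l 15941784) (l 15968552)) (l 15716600))) (b (a (l 16076448) (l 16192536)) (c (l 16056456) (l 16100720)))) (a (b (a (c (l 15642128) (l 15800432)) (l 15818824)) (a (c (l 15681728) (l 15776392)) (l 15818256))) (b (a (l 15970400) (l 16030656)) (c (l 15938376) (l 15842432)))))) (b (b (a (c (b (a (l 16436192) (l 508449184391)) (l 16310344)) (b (a (l 16411856) (l 493416774983)) (l 16212016))) (b (a (b (l 1) (l 524018181879)) (l 1)) (c (a (l 16235312) (l 16131944)) (a (l 16217440) (l 16112776))))) (a (b (a (l 16350808) (l 16278768)) (l 16256464)) (b (c (l 16146784) (l 16117440)) (a (l 16159192) (l 16082848))))) (b (a (b (l 16186736) (l 16107128)) (b (l 16082064) (l 16031952))) (a (b (l 16018192) (l 15920856)) (b (l 15971984) (l 15902536)))))), by decide +kernel⟩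

def k1_pp_022_b : ∃ t, chk3 f_pp_022_b t 3 1 1 = true :=
  ⟨(b (a (b (l 1) (a (b (c (l 479457160999) (l 463350974311)) (c (l 15972488) (l 15931200))) (b (l 1) (c (l 15622240) (l 15709368))))) (l 1)) (a (b (a (b (l 15857040) (l 15920712)) (b (l 122437597159) (l 15775104))) (a (c (l 15923096) (l 15818744)) (b (l 15775272) (l 15766032)))) (b (a (b (l 1) (l 459592195335)) (l 1)) (a (b (l 15627784) (l 15648328)) (b (l 15264432) (l 15501600)))))), by decide +kernel⟩

theorem s2_pp_022_b : ∃ t, chk3 f_pp_022_b t 1 1 1 = true := ex3_a k0_pp_022_b k1_pp_022_b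

theorem c_pp_022_b : CertB 0 536870912 1239849684 370763052 966367641 24778659 3 eng mog cd1q0 cd1q2b pd2 false true true .pp 0 2 2
    ndB1q0 ndB1q2b pcB2 cut_pp_022_b Ext.none :=
  certB0 (fam := false) (s1 := true) (s2 := true) (a := 0) (b := 2) (c := 2) (cn := .pp) (n1 := ndB1q0) (n2 := ndB1q2b) (pc := pcB2) (cut := cut_pp_022_b) (xt := Ext.none) (P1 := 0) (W1 := 536870912) (P2 := 1239849684) (W2 := 370763052) (P3 := 966367641) (W3 := 24778659) (N0 := 3) (En := eng) (mo := mog) (C1 := cd1q0) (C2 := cd1q2b) (C3 := pd2)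
    rfl s2_pp_022_b

noncomputable def f_pp_023 : ℕ → ℕ → ℕ → ℕ → Bool := onCell 1073741824 536870912 1610612736 536870912 966367641 24778659
    (rowB 3 eng mog cd1q0 cd1q3 pd2 2 false true true .up 0 2 3 (qsf 0 536870912 1610612736 536870912 2) ndB1q0 ndB1q3 pcB2 Cut.none Ext.none)

def k0_pp_023 : ∃ t, chk3 f_pp_023 t 1 1 1 = true :=
  ⟨(a (b (a (b (a (b (l 15276480) (l 15253128)) (b (l 15387272) (l 15342752))) (a (l 2) (b (l 15351816) (l 2)))) (b (a (b (l 15476720) (l 15414856)) (b (l 15539048) (l 15462688))) (a (l 7613577575) (b (l 15437128) (l 15458944))))) (a (l 2) (b (a (l 2) (l 15603560)) (l 2)))) (b (a (b (a (b (l 15571944) (l 15483080)) (b (c (l 15626944) (l 15524232)) (l 15316192))) (a (b (l 15449776) (l 15489416)) (b (l 15478560) (l 15544152)))) (b (a (b (b (l 15525008) (l 15500944)) (b (l 15488616) (l 15488576))) (b (b (a (l 15558536) (l 15536280)) (a (l 15497040) (l 15421248))) (b (l 15406752) (l 15510128)))) (a (b (l 15523456) (l 15606248))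 (b (l 15557928) (l 15657792))))) (a (b (a (l 15646784) (l 15722248)) (a (l 2) (b (l 15980760) (l 2)))) (b (a (b (l 15728504) (l 15887496)) (b (l 15796680) (l 15971648))) (a (b (l 16079224) (l 16297048)) (b (l 16178312) (l 16409016))))))), by decide +kernel⟩

theorem c_pp_023 : CertB 0 536870912 1610612736 536870912 966367641 24778659 3 eng mog cd1q0 cd1q3 pd2 false true true .up 0 2 3
    ndB1q0 ndB1q3 pcB2 Cut.none Ext.none :=
  certB2 (fam := false) (s1 := true) (s2 := true) (a := 0) (b := 2) (c := 3) (cn := .up) (n1 := ndB1q0) (n2 := ndB1q3) (pc := pcB2) (cut := Cut.none) (xt := Ext.none) (P1 := 0) (W1 := 536870912) (P2 := 1610612736) (W2 := 536870912) (P3 := 966367641) (W3 := 24778659) (N0 := 3) (En := eng) (mo := mog) (C1 := cd1q0) (C2 := cd1q3) (C3 := pd2)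
    rfl (fun _ => rfl) k0_pp_023

noncomputable def f_pp_033 : ℕ → ℕ → ℕ → ℕ → Bool := onCell 0 536870912 1610612736 536870912 966367641 24778659
    (rowB 3 eng mog cd1q0 cd1q3 pd3 1 false true true .pnn 0 3 3 (qsf 0 536870912 1610612736 536870912 3) ndB1q0 ndB1q3 pcB3 Cut.none Ext.none)

def k0_pp_033 : ∃ t, chk3 f_pp_033 t 1 1 1 = true :=
  ⟨(a (b (b (a (b (b (a (a (c (a (l 15530456) (l 15569656)) (l 15499592)) (c (l 15639560) (l 15691776))) (c (l 15778904) (l 15704480))) (a (a (c (l 15510728) (l 15597600)) (l 15613960)) (l 15730784))) (a (b (a (b (l 15501704) (l 15466104)) (l 15548296)) (c (l 15447936) (l 15444856))) (b (l 15672032) (l 15617448)))) (b (a (b (l 15825032) (l 15816808)) (b (l 15911800) (l 15932976))) (a (b (l 15815664) (l 15805368)) (b (l 15961520) (l 15988640))))) (a (b (a (b (a (l 15335752) (l 15416224)) (a (l 15263920) (l 15358688))) (b (l 15571464) (c (l 15546552) (l 15528464)))) (b (a (a (l 15200528) (l 15315056)) (b (l 15522608) (l 4)))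 (a (b (l 15230000) (l 4)) (l 4)))) (b (b (a (l 15789824) (l 15999440)) (a (l 15783600) (l 4))) (l 4)))) (a (b (l 4) (l 4)) (b (l 4) (a (b (l 4) (l 2)) (l 2))))) (b (a (b (b (a (l 15891032) (l 16226784)) (a (b (l 16141488) (l 16187472)) (b (l 16339632) (l 4)))) (b (l 4) (l 4))) (b (b (b (a (l 16369048) (l 16567192)) (a (l 16462512) (l 16654512))) (a (b (l 4) (l 4)) (l 4))) (a (b (l 4) (l 2)) (l 2)))) (a (b (a (b (l 4) (l 2)) (l 2)) (l 2)) (l 2)))), by decide +kernel⟩

theorem c_pp_033 : CertB 0 536870912 1610612736 536870912 966367641 24778659 3 eng mog cd1q0 cd1q3 pd3 false true true .pnn 0 3 3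
    ndB1q0 ndB1q3 pcB3 Cut.none Ext.none :=
  certB1 (fam := false) (s1 := true) (s2 := true) (a := 0) (b := 3) (c := 3) (cn := .pnn) (n1 := ndB1q0) (n2 := ndB1q3) (pc := pcB3) (cut := Cut.none) (xt := Ext.none) (P1 := 0) (W1 := 536870912) (P2 := 1610612736) (W2 := 536870912) (P3 := 966367641) (W3 := 24778659) (N0 := 3) (En := eng) (mo := mog) (C1 := cd1q0) (C2 := cd1q3) (C3 := pd3)
    rfl (fun _ => rfl) k0_pp_033

noncomputable def f_pp_101 : ℕ → ℕ → ℕ → ℕ → Bool := onCell 536870912 536870912 536870912 536870912 966367641 24778659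
    (rowB 3 eng mog cd1q1 cd1q1 pd0 0 false true true .npn 1 0 1 (qsf 536870912 536870912 536870912 536870912 0) ndB1q1 ndB1q1 pcB0 Cut.none Ext.none)

def k0_pp_101 : ∃ t, chk3 f_pp_101 t 1 1 1 = true :=
  ⟨(l 3), by decide +kernel⟩

theorem c_pp_101 : CertB 536870912 536870912 536870912 536870912 966367641 24778659 3 eng mog cd1q1 cd1q1 pd0 false true true .npn 1 0 1
    ndB1q1 ndB1q1 pcB0 Cut.none Ext.none :=
  certB0 (fam := false) (s1 := true) (s2 := true) (a := 1) (b := 0) (c := 1) (cn := .npn) (n1 := ndB1q1) (n2 := ndB1q1) (pc := pcB0) (cut := Cut.none) (xt := Ext.none) (P1 := 536870912) (W1 := 536870912) (P2 := 536870912) (W2 := 536870912) (P3 := 966367641) (W3 := 24778659) (N0 := 3) (En := eng) (mo := mog) (C1 := cd1q1) (C2 := cd1q1) (C3 := pd0)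
    rfl k0_pp_101

noncomputable def f_pp_102_a : ℕ → ℕ → ℕ → ℕ → Bool := onCell 0 536870912 0 536870912 966367641 24778659
    (rowB 3 eng mog cd1q1 cd1q2a pd0 2 false true true .npp 1 0 2 (qsf 536870912 536870912 0 536870912 0) ndB1q1 ndB1q2a pcB0 Cut.none Ext.none)

def k0_pp_102_a : ∃ t, chk3 f_pp_102_a t 1 1 1 = true :=
  ⟨(b (a (l 3) (l 3)) (l 3)), by decide +kernel⟩

theorem c_pp_102_a : CertB 536870912 536870912 0 536870912 966367641 24778659 3 eng mog cd1q1 cd1q2a pd0 false true true .npp 1 0 2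
    ndB1q1 ndB1q2a pcB0 Cut.none Ext.none :=
  certB2 (fam := false) (s1 := true) (s2 := true) (a := 1) (b := 0) (c := 2) (cn := .npp) (n1 := ndB1q1) (n2 := ndB1q2a) (pc := pcB0) (cut := Cut.none) (xt := Ext.none) (P1 := 536870912) (W1 := 536870912) (P2 := 0) (W2 := 536870912) (P3 := 966367641) (W3 := 24778659) (N0 := 3) (En := eng) (mo := mog) (C1 := cd1q1) (C2 := cd1q2a) (C3 := pd0)
    rfl (fun _ => rfl) k0_pp_102_a

noncomputable def f_pp_102_b : ℕ → ℕ → ℕ → ℕ → Bool := onCell 536870912 536870912 0 536870912 966367641 24778659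
    (rowB 3 eng mog cd1q1 cd1q2b pd0 1 false true true .npp 1 0 2 (qsf 536870912 536870912 1239849684 370763052 0) ndB1q1 ndB1q2b pcB0 Cut.none Ext.none)

def k0_pp_102_b : ∃ t, chk3 f_pp_102_b t 1 1 1 = true :=
  ⟨(a (a (l 1) (b (l 1) (l 3))) (b (l 3) (l 3))), by decide +kernel⟩

theorem c_pp_102_b : CertB 536870912 536870912 1239849684 370763052 966367641 24778659 3 eng mog cd1q1 cd1q2b pd0 false true true .npp 1 0 2
    ndB1q1 ndB1q2b pcB0 Cut.none Ext.none :=
  certB1 (fam := false) (s1 := true) (s2 := true) (a := 1) (b := 0) (c := 2) (cn := .npp) (n1 := ndB1q1) (n2 := ndB1q2b) (pc := pcB0) (cut := Cut.none) (xt := Ext.none) (P1 := 536870912) (W1 := 536870912) (P2 := 1239849684) (W2 := 370763052) (P3 := 966367641) (W3 := 24778659) (N0 := 3) (En := eng) (mo := mog) (C1 := cd1q1) (C2 := cd1q2b) (C3 := pd0)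
    rfl (fun _ => rfl) k0_pp_102_b

noncomputable def f_pp_112_a : ℕ → ℕ → ℕ → ℕ → Bool := onCell 536870912 536870912 0 536870912 966367641 24778659
    (rowB 3 eng mog cd1q1 cd1q2a pd1 2 false true true .dn 1 1 2 (qsf 536870912 536870912 0 536870912 1) ndB1q1 ndB1q2a pcB1 Cut.none Ext.none)

def k0_pp_112_a : ∃ t, chk3 f_pp_112_a t 1 1 1 = true :=
  ⟨(a (a (b (b (a (a (l 89824121847) (b (l 96803342615) (l 3))) (a (b (a (l 16278752) (l 16255080)) (l 102172065703)) (b (l 16217720) (a (l 113983203479) (l 124720555655))))) (l 3)) (l 3)) (b (a (b (a (b (l 16168368) (a (l 16231960) (l 16205632))) (l 1334156081239)) (a (b (a (l 118278143255) (l 129552350327)) (l 3)) (l 1))) (l 1)) (b (l 1) (l 1)))) (l 1)), by decide +kernel⟩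

theorem c_pp_112_a : CertB 536870912 536870912 0 536870912 966367641 24778659 3 eng mog cd1q1 cd1q2a pd1 false true true .dn 1 1 2
    ndB1q1 ndB1q2a pcB1 Cut.none Ext.none :=
  certB2 (fam := false) (s1 := true) (s2 := true) (a := 1) (b := 1) (c := 2) (cn := .dn) (n1 := ndB1q1) (n2 := ndB1q2a) (pc := pcB1) (cut := Cut.none) (xt := Ext.none) (P1 := 536870912) (W1 := 536870912) (P2 := 0) (W2 := 536870912) (P3 := 966367641) (W3 := 24778659) (N0 := 3) (En := eng) (mo := mog) (C1 := cd1q1) (C2 := cd1q2a) (C3 := pd1)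
    rfl (fun _ => rfl) k0_pp_112_a

noncomputable def f_pp_112_b : ℕ → ℕ → ℕ → ℕ → Bool := onCell 536870912 536870912 1239849684 370763052 966367641 24778659
    (rowB 3 eng mog cd1q1 cd1q2b pd1 2 false true true .dn 1 1 2 (qsf 536870912 536870912 1239849684 370763052 1) ndB1q1 ndB1q2b pcB1 Cut.none Ext.none)

def k0_pp_112_b : ∃ t, chk3 f_pp_112_b t 1 1 1 = true :=
  ⟨(b (b (a (a (a (a (b (l 16302016) (l 3)) (b (l 16264088) (l 16209448))) (a (b (l 16215592) (l 16165112)) (b (l 16169240) (l 16121496)))) (c (a (b (l 16079376) (l 16038352)) (l 211559113191)) (a (a (l 16122296) (l 16080824)) (l 237865398039)))) (l 1)) (a (a (a (a (l 3) (a (l 16120864) (l 16110312))) (a (l 16083816) (l 16043688))) (a (a (l 16005152) (l 15966800)) (a (l 15927472) (l 15886464)))) (a (a (b (l 15838616) (l 15800640)) (l 243233945319)) (l 1)))) (a (a (a (b (a (l 3) (l 15971016)) (l 3)) (b (a (l 15958408) (l 15929832)) (a (l 15798104) (l 15808456)))) (a (b (c (l 15852608) (l 15886688))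 (a (l 15782888) (l 15754016))) (b (c (l 15800632) (l 15824248)) (l 15690384)))) (a (a (b (l 15738088) (l 15647784)) (b (l 15660856) (l 15581032))) (a (b (l 15560064) (l 15512448)) (b (l 1) (l 15446376)))))), by decide +kernel⟩

theorem c_pp_112_b : CertB 536870912 536870912 1239849684 370763052 966367641 24778659 3 eng mog cd1q1 cd1q2b pd1 false true true .dn 1 1 2
    ndB1q1 ndB1q2b pcB1 Cut.none Ext.none :=
  certB2 (fam := false) (s1 := true) (s2 := true) (a := 1) (b := 1) (c := 2) (cn := .dn) (n1 := ndB1q1) (n2 := ndB1q2b) (pc := pcB1) (cut := Cut.none) (xt := Ext.none) (P1 := 536870912) (W1 := 536870912) (P2 := 1239849684) (W2 := 370763052) (P3 := 966367641) (W3 := 24778659) (N0 := 3) (En := eng) (mo := mog) (C1 := cd1q1) (C2 := cd1q2b) (C3 := pd1)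
    rfl (fun _ => rfl) k0_pp_112_b

noncomputable def f_pp_113 : ℕ → ℕ → ℕ → ℕ → Bool := onCell 536870912 536870912 1610612736 536870912 966367641 24778659
    (rowB 3 eng mog cd1q1 cd1q3 pd1 2 false true true .nn 1 1 3 (qsf 536870912 536870912 1610612736 536870912 1) ndB1q1 ndB1q3 pcB1 Cut.none Ext.none)

def k0_pp_113 : ∃ t, chk3 f_pp_113 t 1 1 1 = true :=
  ⟨(a (b (a (b (a (l 3) (b (a (l 3) (l 15598016)) (l 3))) (a (l 2) (b (l 3) (l 2)))) (b (a (b (a (l 15766024) (l 15714896)) (a (l 15493704) (l 15678352))) (b (l 15538112) (a (l 15629320) (l 15584024)))) (a (b (a (l 181090559175) (l 15477968)) (a (l 2) (l 557906682375))) (b (a (l 15605072) (l 15562944)) (a (l 15576992) (l 15552792)))))) (a (l 2) (b (a (l 2) (b (a (l 2) (l 15539808)) (l 2))) (l 2)))) (a (b (b (a (b (l 15545064) (l 15517360)) (b (l 15442456) (l 15423024))) (a (b (l 15507128) (l 15518848)) (b (l 15428256) (l 15468784)))) (b (a (b (l 15546464) (a (l 2) (l 15627216))) (b (l 15563240) (l 15712000)))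 (a (l 2) (b (l 737760145991) (l 2))))) (b (a (b (b (l 15333464) (l 15319416)) (l 15592264)) (b (b (l 15226752) (l 15213064)) (b (l 15231784) (l 15302056)))) (a (b (l 15665896) (b (l 16552008) (l 887547784599))) (b (l 15611360) (b (l 16767944) (l 16765656))))))), by decide +kernel⟩

theorem c_pp_113 : CertB 536870912 536870912 1610612736 536870912 966367641 24778659 3 eng mog cd1q1 cd1q3 pd1 false true true .nn 1 1 3
    ndB1q1 ndB1q3 pcB1 Cut.none Ext.none :=
  certB2 (fam := false) (s1 := true) (s2 := true) (a := 1) (b := 1) (c := 3) (cn := .nn) (n1 := ndB1q1) (n2 := ndB1q3) (pc := pcB1) (cut := Cut.none) (xt := Ext.none) (P1 := 536870912) (W1 := 536870912) (P2 := 1610612736) (W2 := 536870912) (P3 := 966367641) (W3 := 24778659) (N0 := 3) (En := eng) (mo := mog) (C1 := cd1q1) (C2 := cd1q3) (C3 := pd1)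
    rfl (fun _ => rfl) k0_pp_113

noncomputable def f_pp_123 : ℕ → ℕ → ℕ → ℕ → Bool := onCell 1073741824 536870912 1610612736 536870912 966367641 24778659
    (rowB 3 eng mog cd1q1 cd1q3 pd2 2 false true true .npn 1 2 3 (qsf 536870912 536870912 1610612736 536870912 2) ndB1q1 ndB1q3 pcB2 Cut.none Ext.none)

def k0_pp_123 : ∃ t, chk3 f_pp_123 t 1 1 1 = true :=
  ⟨(a (b (a (b (a (b (l 15205792) (l 15199272)) (l 303899021463)) (a (b (l 15222000) (l 15288720)) (l 15428472))) (b (a (l 326984603527) (l 1)) (a (l 15529288) (l 357586394391)))) (a (b (a (l 15558056) (b (l 15493840) (l 15692784))) (b (a (l 16404616) (l 16031056)) (a (l 16727720) (l 16444344)))) (b (a (b (l 15533168) (l 15695904)) (b (l 15550320) (l 15703952))) (a (b (l 15965864) (l 16390024)) (b (l 15941144) (l 16282400)))))) (b (a (b (l 1) (a (l 395167441735) (l 1))) (l 1)) (a (b (a (l 15421552) (l 15770520)) (a (b (l 15962984) (l 16259032)) (b (l 16035976) (l 16289672)))) (b (a (l 15794736) (l 1)) (a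 (b (l 16148456) (l 16371488)) (b (l 16296600) (l 16497096))))))), by decide +kernel⟩

theorem c_pp_123 : CertB 536870912 536870912 1610612736 536870912 966367641 24778659 3 eng mog cd1q1 cd1q3 pd2 false true true .npn 1 2 3
    ndB1q1 ndB1q3 pcB2 Cut.none Ext.none :=
  certB2 (fam := false) (s1 := true) (s2 := true) (a := 1) (b := 2) (c := 3) (cn := .npn) (n1 := ndB1q1) (n2 := ndB1q3) (pc := pcB2) (cut := Cut.none) (xt := Ext.none) (P1 := 536870912) (W1 := 536870912) (P2 := 1610612736) (W2 := 536870912) (P3 := 966367641) (W3 := 24778659) (N0 := 3) (En := eng) (mo := mog) (C1 := cd1q1) (C2 := cd1q3) (C3 := pd2)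
    rfl (fun _ => rfl) k0_pp_123

noncomputable def f_pp_133 : ℕ → ℕ → ℕ → ℕ → Bool := onCell 1610612736 536870912 1610612736 536870912 966367641 24778659
    (rowB 3 eng mog cd1q1 cd1q3 pd3 2 false true true .dn 1 3 3 (qsf 536870912 536870912 1610612736 536870912 3) ndB1q1 ndB1q3 pcB3 Cut.none Ext.none)

def k0_pp_133 : ∃ t, chk3 f_pp_133 t 1 1 1 = true :=
  ⟨(a (b (l 1) (a (b (l 1) (a (b (l 1) (l 16652632)) (l 1))) (l 1))) (l 1)), by decide +kernel⟩

theorem c_pp_133 : CertB 536870912 536870912 1610612736 536870912 966367641 24778659 3 eng mog cd1q1 cd1q3 pd3 false true true .dn 1 3 3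
    ndB1q1 ndB1q3 pcB3 Cut.none Ext.none :=
  certB2 (fam := false) (s1 := true) (s2 := true) (a := 1) (b := 3) (c := 3) (cn := .dn) (n1 := ndB1q1) (n2 := ndB1q3) (pc := pcB3) (cut := Cut.none) (xt := Ext.none) (P1 := 536870912) (W1 := 536870912) (P2 := 1610612736) (W2 := 536870912) (P3 := 966367641) (W3 := 24778659) (N0 := 3) (En := eng) (mo := mog) (C1 := cd1q1) (C2 := cd1q3) (C3 := pd3)
    rfl (fun _ => rfl) k0_pp_133

noncomputable def f_pp_202_aa : ℕ → ℕ → ℕ → ℕ → Bool := onCell 0 536870912 0 536870912 966367641 24778659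
    (rowB 3 eng mog cd1q2a cd1q2a pd0 0 false true true .pp 2 0 2 (qsf 0 536870912 0 536870912 0) ndB1q2a ndB1q2a pcB0 Cut.none Ext.none)

def k0_pp_202_aa : ∃ t, chk3 f_pp_202_aa t 1 1 1 = true :=
  ⟨(l 3), by decide +kernel⟩

theorem c_pp_202_aa : CertB 0 536870912 0 536870912 966367641 24778659 3 eng mog cd1q2a cd1q2a pd0 false true true .pp 2 0 2
    ndB1q2a ndB1q2a pcB0 Cut.none Ext.none :=
  certB0 (fam := false) (s1 := true) (s2 := true) (a := 2) (b := 0) (c := 2) (cn := .pp) (n1 := ndB1q2a) (n2 := ndB1q2a) (pc := pcB0) (cut := Cut.none) (xt := Ext.none) (P1 := 0) (W1 := 536870912) (P2 := 0) (W2 := 536870912) (P3 := 966367641) (W3 := 24778659) (N0 := 3) (En := eng) (mo := mog) (C1 := cd1q2a) (C2 := cd1q2a) (C3 := pd0)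
    rfl k0_pp_202_aa

noncomputable def f_pp_202_ab : ℕ → ℕ → ℕ → ℕ → Bool := onCell 0 536870912 1239849684 370763052 966367641 24778659
    (rowB 3 eng mog cd1q2a cd1q2b pd0 0 false true true .pp 2 0 2 (qsf 0 536870912 1239849684 370763052 0) ndB1q2a ndB1q2b pcB0 Cut.none Ext.none)

def k0_pp_202_ab : ∃ t, chk3 f_pp_202_ab t 1 1 1 = true :=
  ⟨(l 3), by decide +kernel⟩

theorem c_pp_202_ab : CertB 0 536870912 1239849684 370763052 966367641 24778659 3 eng mog cd1q2a cd1q2b pd0 false true true .pp 2 0 2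
    ndB1q2a ndB1q2b pcB0 Cut.none Ext.none :=
  certB0 (fam := false) (s1 := true) (s2 := true) (a := 2) (b := 0) (c := 2) (cn := .pp) (n1 := ndB1q2a) (n2 := ndB1q2b) (pc := pcB0) (cut := Cut.none) (xt := Ext.none) (P1 := 0) (W1 := 536870912) (P2 := 1239849684) (W2 := 370763052) (P3 := 966367641) (W3 := 24778659) (N0 := 3) (En := eng) (mo := mog) (C1 := cd1q2a) (C2 := cd1q2b) (C3 := pd0)
    rfl k0_pp_202_ab

noncomputable def f_pp_202_ba : ℕ → ℕ → ℕ → ℕ → Bool := onCell 1239849684 370763052 0 536870912 966367641 24778659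
    (rowB 3 eng mog cd1q2b cd1q2a pd0 0 false true true .pp 2 0 2 (qsf 1239849684 370763052 0 536870912 0) ndB1q2b ndB1q2a pcB0 Cut.none Ext.none)

def k0_pp_202_ba : ∃ t, chk3 f_pp_202_ba t 1 1 1 = true :=
  ⟨(l 3), by decide +kernel⟩

theorem c_pp_202_ba : CertB 1239849684 370763052 0 536870912 966367641 24778659 3 eng mog cd1q2b cd1q2a pd0 false true true .pp 2 0 2
    ndB1q2b ndB1q2a pcB0 Cut.none Ext.none :=
  certB0 (fam := false) (s1 := true) (s2 := true) (a := 2) (b := 0) (c := 2) (cn := .pp) (n1 := ndB1q2b) (n2 := ndB1q2a) (pc := pcB0) (cut := Cut.none) (xt := Ext.none) (P1 := 1239849684) (W1 := 370763052) (P2 := 0) (W2 := 536870912) (P3 := 966367641) (W3 := 24778659) (N0 := 3) (En := eng) (mo := mog) (C1 := cd1q2b) (C2 := cd1q2a) (C3 := pd0)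
    rfl k0_pp_202_ba

noncomputable def f_pp_202_bb : ℕ → ℕ → ℕ → ℕ → Bool := onCell 1239849684 370763052 1239849684 370763052 966367641 24778659
    (rowB 3 eng mog cd1q2b cd1q2b pd0 0 false true true .pp 2 0 2 (qsf 1239849684 370763052 1239849684 370763052 0) ndB1q2b ndB1q2b pcB0 Cut.none Ext.none)

def k0_pp_202_bb : ∃ t, chk3 f_pp_202_bb t 1 1 1 = true :=
  ⟨(l 3), by decide +kernel⟩

theorem c_pp_202_bb : CertB 1239849684 370763052 1239849684 370763052 966367641 24778659 3 eng mog cd1q2b cd1q2b pd0 false true true .pp 2 0 2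
    ndB1q2b ndB1q2b pcB0 Cut.none Ext.none :=
  certB0 (fam := false) (s1 := true) (s2 := true) (a := 2) (b := 0) (c := 2) (cn := .pp) (n1 := ndB1q2b) (n2 := ndB1q2b) (pc := pcB0) (cut := Cut.none) (xt := Ext.none) (P1 := 1239849684) (W1 := 370763052) (P2 := 1239849684) (W2 := 370763052) (P3 := 966367641) (W3 := 24778659) (N0 := 3) (En := eng) (mo := mog) (C1 := cd1q2b) (C2 := cd1q2b) (C3 := pd0)
    rfl k0_pp_202_bb

noncomputable def f_pp_203_a : ℕ → ℕ → ℕ → ℕ → Bool := onCell 0 536870912 0 536870912 966367641 24778659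
    (rowB 3 eng mog cd1q2a cd1q3 pd0 1 false true true .up 2 0 3 (qsf 0 536870912 1610612736 536870912 0) ndB1q2a ndB1q3 pcB0 Cut.none Ext.none)

def k0_pp_203_a : ∃ t, chk3 f_pp_203_a t 1 1 1 = true :=
  ⟨(l 3), by decide +kernel⟩

theorem c_pp_203_a : CertB 0 536870912 1610612736 536870912 966367641 24778659 3 eng mog cd1q2a cd1q3 pd0 false true true .up 2 0 3
    ndB1q2a ndB1q3 pcB0 Cut.none Ext.none :=
  certB1 (fam := false) (s1 := true) (s2 := true) (a := 2) (b := 0) (c := 3) (cn := .up) (n1 := ndB1q2a) (n2 := ndB1q3) (pc := pcB0) (cut := Cut.none) (xt := Ext.none) (P1 := 0) (W1 := 536870912) (P2 := 1610612736) (W2 := 536870912) (P3 := 966367641) (W3 := 24778659) (N0 := 3) (En := eng) (mo := mog) (C1 := cd1q2a) (C2 := cd1q3) (C3 := pd0)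
    rfl (fun _ => rfl) k0_pp_203_a

noncomputable def f_pp_203_b : ℕ → ℕ → ℕ → ℕ → Bool := onCell 1239849684 370763052 1610612736 536870912 966367641 24778659
    (rowB 3 eng mog cd1q2b cd1q3 pd0 0 false true true .up 2 0 3 (qsf 1239849684 370763052 1610612736 536870912 0) ndB1q2b ndB1q3 pcB0 Cut.none Ext.none)

def k0_pp_203_b : ∃ t, chk3 f_pp_203_b t 1 1 1 = true :=
  ⟨(l 3), by decide +kernel⟩

theorem c_pp_203_b : CertB 1239849684 370763052 1610612736 536870912 966367641 24778659 3 eng mog cd1q2b cd1q3 pd0 false true true .up 2 0 3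
    ndB1q2b ndB1q3 pcB0 Cut.none Ext.none :=
  certB0 (fam := false) (s1 := true) (s2 := true) (a := 2) (b := 0) (c := 3) (cn := .up) (n1 := ndB1q2b) (n2 := ndB1q3) (pc := pcB0) (cut := Cut.none) (xt := Ext.none) (P1 := 1239849684) (W1 := 370763052) (P2 := 1610612736) (W2 := 536870912) (P3 := 966367641) (W3 := 24778659) (N0 := 3) (En := eng) (mo := mog) (C1 := cd1q2b) (C2 := cd1q3) (C3 := pd0)
    rfl k0_pp_203_b

end Pool.Agent.Strip051.G.I9000_9231.Tab.C.BB11

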