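import Pool.Agent.Strip051.G.I9000_9231.Tab
import Pool.Agent.Strip051.PB.ExtD2

/-! # Certificates B8 (generated) -/

set_option linter.all false
set_option maxRecDepth 100000

namespace Pool.Agent.Strip051.G.I9000_9231.Tab.C.BB00

open Pool.Agent.Strip051.PB Pool.Agent.Strip051.PB.T
open Pool.Agent.Strip051.G.I9000_9231.Tab

noncomputable def cut_pm_101 : Cut := Cut.of [[⟨3, 0, 0, 1449551462⟩], [⟨4, 0, 0, 2845415833⟩], [⟨0, 1, 0, 26843545⟩, ⟨1, 0, 0, 26843545⟩, ⟨2, 1, 0, 26843545⟩], [⟨0, 0, 1, 46137344⟩, ⟨1, 1, 2, 46137344⟩, ⟨2, 1, 0, 1572864⟩, ⟨0, 0, 0, 1013612281⟩, ⟨0, 1, 0, 128849018⟩, ⟨1, 0, 0, 128849018⟩, ⟨1, 1, 0, 1013612281⟩]]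

noncomputable def xt_pm_101 : Ext := extD2 3 ⟨4, 1, 1, 5, 37, 10, 843, 1000, 41, 100, 1, 8⟩ eng cd0q1 cd0q1 pd0 false true false .npn 1 0 1 rfl ndB0q1 ndB0q1 pcB0

noncomputable def f_pm_101 : ℕ → ℕ → ℕ → ℕ → Bool := onCell 0 536870912 536870912 536870912 966367641 24778659
    (rowB 3 eng mog cd0q1 cd0q1 pd0 2 false true false .npn 1 0 1 (qsf 536870912 536870912 536870912 536870912 0) ndB0q1 ndB0q1 pcB0 cut_pm_101 xt_pm_101)

def k0_pm_101 : ∃ t, chk3 f_pm_101 t 2 2 1 = true :=
  ⟨(b (l 14) (a (a (b (b (l 14) (a (b (a (a (a (l 16403312) (l 14)) (l 14)) (l 14)) (a (c (l 16248768) (l 16226280)) (c (b (l 16322296) (l 16283968)) (l 16328448)))) (b (l 14) (a (b (l 14) (c (l 16336320) (l 16323320))) (l 14))))) (a (b (b (a (c (l 16172376) (l 16140008)) (c (l 16227528) (l 16203136))) (a (l 16076144) (l 16221072))) (b (a (l 16000048) (l 16062280)) (a (l 15928008) (l 15990752)))) (b (b (a (c (l 16280888) (l 16262656)) (b (l 16406936) (l 16348664))) (a (c (l 16209600) (l 16182672)) (c (l 16262008)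 (l 16241256)))) (b (a (l 16164096) (c (l 16194744) (l 16164680))) (a (l 16051528) (l 16109912)))))) (b (l 14) (b (a (b (a (b (l 14) (l 16400120)) (l 14)) (a (b (l 16322200) (l 16286624)) (c (l 16402104) (l 16369328)))) (a (b (l 14) (b (l 14) (l 16447696))) (l 14))) (a (b (a (c (l 16245992) (l 16222088)) (b (l 16302776) (l 16268888))) (a (l 16270560) (c (l 16232488) (l 16205008)))) (b (a (c (l 16341872) (l 16327032)) (c (l 16428280) (l 16416824))) (a (b (l 16285504) (l 16253264)) (c (l 16325768) (l 16307456)))))))) (b (l 14) (a (b (l 14) (a (b (a (a (a (l 16429304) (l 16440040)) (l 14)) (l 14)) (a (b (l 16377536) (l 16346648)) (c (l 16452088) (l 16460984)))) (a (a (b (l 14) (a (l 16450728) (l 16460592))) (l 14)) (l 14)))) (l 14))))), by decide +kernel⟩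

def k1_pm_101 : ∃ t, chk3 f_pm_101 t 16 6 1 = true :=
  ⟨(b (b (b (a (c (l 15908904) (l 15815400)) (l 15923680)) (a (c (l 15858912) (l 15745880)) (l 15862408))) (b (a (b (a (l 15832640) (l 15777656)) (a (c (l 15800176) (l 15655016)) (l 15754632))) (b (l 15821528) (l 15796920))) (a (b (b (a (c (l 15790520) (l 15636576)) (l 15739424)) (c (a (b (a (b (l 15782432) (l 15782112)) (l 15790848)) (l 15829512)) (l 15804656)) (a (b (a (l 15683384) (l 15635408)) (l 15626680)) (l 15656480)))) (a (c (a (l 15789824) (l 15796480)) (a (l 15620016) (l 15632848))) (c (l 15807536) (l 15652656)))) (b (a (l 15844120) (l 15788640)) (a (l 15752904) (l 15776824)))))) (c (b (a (b (a (a (b (l 15804776) (l 15825720)) (l 15838528)) (l 15823904)) (a (b (l 15852752) (l 15865576)) (l 15865336))) (b (l 15841192) (l 15868712))) (b (a (a (a (b (l 15933880) (l 15989320)) (l 15906560)) (l 15934960)) (l 15919056)) (a (a (a (b (l 16057400) (l 16140608)) (l 15999240)) (l 16042312)) (l 16145832)))) (b (a (b (a (a (b (l 15625224)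 (l 15635984)) (l 15660784)) (l 15655888)) (a (a (b (l 15653032) (l 15677248)) (l 15753008)) (l 15678408))) (b (l 15690744) (l 15702024))) (b (a (a (b (a (l 15709744) (l 15709664)) (b (l 15738560) (l 15740128))) (b (l 15712072) (l 15744088))) (l 15755448)) (a (a (b (a (c (l 15868712) (l 15741864)) (l 15795688)) (a (c (l 15939872) (l 15804696)) (l 15856200))) (b (l 15785272) (l 15837192))) (a (l 15797624) (l 15792304))))))), by decide +kernel⟩

def k2_pm_101 : ∃ t, chk3 f_pm_101 t 17 6 1 = true :=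
  ⟨(b (b (b (a (l 15984608) (l 16043544)) (a (l 15922504) (l 15981176))) (b (a (l 15866592) (l 15923928)) (a (b (l 15830032) (a (l 15800584) (l 15824552))) (b (l 15885408) (l 15861880))))) (a (b (b (l 15806080) (l 15812768)) (b (l 15836400) (c (l 15967800) (l 15793968)))) (b (b (l 15849520) (l 15846528)) (a (b (l 15851352) (l 15881808)) (b (l 15862080) (l 15883960)))))), by decide +kernel⟩

def k3_pm_101 : ∃ t, chk3 f_pm_101 t 9 6 1 = true :=
  ⟨(b (a (b (b (a (l 16100152) (l 16175208)) (a (l 16037936) (l 16092480))) (b (a (l 15979960) (l 16034232)) (a (l 15925928) (l 15980480)))) (b (b (a (c (l 16221072) (l 16189904)) (b (l 16270128) (l 16239464))) (a (l 16144632) (c (l 16211320) (l 16176488)))) (b (a (l 16086448) (l 16136472)) (a (l 16031992) (l 16081696))))) (a (b (b (a (l 15895592) (b (l 15946784) (l 15931792))) (a (l 15879520) (l 15915216))) (a (b (l 15876408) (c (l 15950520) (l 15820008))) (b (l 15900920) (l 16085488)))) (b (b (a (b (l 15993928) (l 15976152)) (b (l 16043192) (l 16022824)))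 (a (l 15953496) (l 15993560))) (a (b (l 15929904) (l 15998592)) (b (l 16088008) (a (l 15931504) (l 15944560))))))), by decide +kernel⟩

def k4_pm_101 : ∃ t, chk3 f_pm_101 t 16 28 1 = true :=
  ⟨(b (a (c (b (a (a (l 16242056) (l 16204320)) (l 16156216)) (a (c (l 16414576) (l 16266312)) (l 16294752))) (a (b (a (c (l 16027792) (l 15883288)) (l 15931408)) (a (c (l 16136432) (l 15981208)) (l 16024464))) (b (l 15901808) (l 15981632)))) (b (c (l 16084504) (l 15862208)) (c (a (l 16184800) (l 16131976)) (l 15921240)))) (a (c (b (a (a (l 16603456) (l 16517032)) (b (l 16338952) (l 16403992))) (a (b (l 16658632) (l 16758312)) (b (l 16517800) (l 16702312)))) (a (a (b (c (l 16270968) (l 16103136)) (c (l 16438184) (l 16255240))) (b (l 16139616) (l 16324264))) (b (l 16080016) (b (l 16168504) (l 16235688))))) (c (a (b (b (l 16255352) (l 16308304)) (b (l 16366640) (l 16535824))) (b (l 16211152) (b (l 16281056) (l 16333352)))) (a (b (l 16018312) (l 16137440)) (b (l 15972464) (l 16052360)))))), by decide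 +kernel⟩

def k5_pm_101 : ∃ t, chk3 f_pm_101 t 16 58 1 = true :=
  ⟨(a (b (c (a (b (l 16827496) (a (l 16856760) (l 16871240))) (b (l 16832536) (a (l 16789040) (l 16697376)))) (a (b (a (l 16492344) (l 16411664)) (a (l 16604008) (l 16510552))) (b (l 16331304) (l 16624024)))) (a (c (b (a (l 16850680) (l 16865184)) (c (l 16831744) (l 16830160))) (a (c (l 16824104) (l 16706808)) (b (l 16621184) (l 16745184)))) (c (b (a (l 16880336) (l 16799976)) (a (l 16874432) (l 16869304))) (b (c (l 16577464) (l 16393616)) (a (l 16679064) (l 16606464)))))) (b (a (c (b (l 16690576) (a (l 16616760) (l 16545616))) (b (l 16204256) (l 16270632))) (c (b (l 16411760) (a (l 16482632) (l 16426744))) (l 16317328))) (a (c (b (a (l 16708224) (l 16627360)) (a (l 16809456) (l 16717592))) (b (l 16574800) (c (l 16510136) (l 16340584)))) (c (b (a (l 16555856) (l 16492440)) (a (l 16636472) (l 16564608))) (b (l 16235960) (l 16405848)))))), by decide +kernel⟩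

def k6_pm_101 : ∃ t, chk3 f_pm_101 t 16 59 1 = true :=
  ⟨(a (a (b (c (b (c (l 16826016) (l 16824144)) (a (l 16811992) (l 16826656))) (b (a (l 16813480) (l 16829144)) (a (l 16812184) (l 16822728)))) (c (b (a (c (l 16828520) (l 16825696)) (l 16820904)) (a (c (l 16822824) (l 16819640)) (c (l 16837400) (l 16834800)))) (b (a (c (l 16822808) (l 16819864)) (c (l 16838432) (l 16836088))) (a (b (l 16795440) (l 16802608)) (b (l 16811464) (l 16808216)))))) (b (c (b (a (l 16868640) (l 16863560)) (a (l 16841960) (l 16857912))) (b (a (l 16780496) (l 16735488)) (a (l 16839128) (l 16814144)))) (c (b (a (l 16836288) (l 16852328)) (a (c (l 16852600) (l 16850592)) (l 16846768))) (a (b (c (l 16854688) (l 16852920)) (c (l 16848536) (l 16825464))) (b (c (l 16871560) (l 16798384)) (c (l 16844576) (l 16843080))))))) (b (a (c (b (a (l 16880112) (l 16817256)) (a (l 16874528) (l 16891184))) (b (a (l 16662808) (l 16539264)) (a (l 16811216) (l 16738448)))) (c (b (a (l 16725264) (l 16643896)) (a (l 16823136) (l 16731032)))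 (b (c (l 16450768) (l 16294360)) (a (l 16593688) (l 16417112))))) (c (a (b (a (l 16869024) (l 16886392)) (a (l 16863560) (l 16881032))) (b (a (l 16872000) (l 16826848)) (a (l 16867808) (l 16852136)))) (a (b (a (c (l 16883704) (l 16681960)) (c (l 16769208) (l 16581168))) (a (c (l 16862232) (l 16808832)) (b (l 16761312) (l 16822560)))) (b (a (l 16812192) (l 16625256)) (a (c (l 16775912) (l 16591968)) (c (l 16676008) (l 16504184)))))))), by decide +kernel⟩

def k7_pm_101 : ∃ t, chk3 f_pm_101 t 17 14 1 = true :=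
  ⟨(a (b (b (c (b (l 16025560) (l 16074520)) (l 15856864)) (b (c (l 16133456) (l 15925872)) (c (a (l 16234376) (l 16177216)) (l 15984640)))) (b (c (b (a (b (l 16303016) (l 16354176)) (l 16253496)) (a (b (l 16452128) (a (l 16500736) (l 16443832))) (b (l 16320136) (l 16369608)))) (b (a (l 16082936) (l 16032040)) (a (c (l 16244112) (l 16112144)) (l 16109112)))) (b (a (c (b (a (l 16571664) (l 16507352)) (a (l 16649408) (l 16576832))) (b (l 16262440) (l 16514200))) (c (b (l 16444528) (l 16671112)) (b (l 16176824) (l 16227272)))) (a (c (b (a (l 16734656) (l 16652808)) (a (l 16828144) (l 16735904))) (b (a (l 16427360) (l 16363912)) (a (l 16633744) (l 16435544)))) (c (b (a (l 16579904) (l 16514784)) (a (l 16653880) (l 16580704))) (b (l 16282400) (l 16510400))))))) (b (a (b (l 16080504) (c (l 16104856) (l 15919152))) (b (c (l 16001904) (l 15845696)) (c (l 16134992) (l 15901288)))) (a (b (b (l 16282960) (c (l 16267480) (l 16055696))) (b (c (b (l 16331272) (l 16378408)) (l 16129888)) (c (b (l 16429576)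 (l 16548000)) (b (l 16194560) (l 16242448))))) (b (c (a (l 16270440) (l 16159104)) (a (l 15995080) (l 15974928))) (a (b (c (l 16292904) (l 16085632)) (c (a (l 16391848) (l 16367520)) (l 16160120))) (c (b (l 16254952) (l 16333048)) (l 16151504))))))), by decide +kernel⟩

def k8_pm_101 : ∃ t, chk3 f_pm_101 t 16 120 1 = true :=
  ⟨(a (a (a (b (c (c (l 16817056) (l 16792552)) (c (l 16788952) (l 16795760))) (a (l 6) (b (c (l 16814504) (l 16807096)) (l 6)))) (c (b (b (l 16810792) (l 16807872)) (c (l 16805040) (l 16812264))) (b (c (l 16804848) (l 16801784)) (c (b (l 16821048) (l 16817840)) (b (l 16817728) (l 16814352)))))) (a (c (b (c (l 16847080) (l 16823768)) (c (l 16820504) (l 16817848))) (b (c (l 16821376) (l 16818936)) (c (l 16820368) (b (l 16835008) (l 16810736))))) (c (b (b (l 16842608) (l 16839816)) (c (l 16836600) (l 16834552))) (b (c (l 16838552) (l 16836728)) (c (l 16832456) (b (l 16831960) (l 16828752))))))) (a (a (b (c (l 16858112) (c (l 16856360) (l 16855160))) (c (c (l 16853344)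 (l 16851912)) (c (l 16850440) (l 16854176)))) (b (c (l 16875696) (c (l 16874832) (l 16816864))) (c (c (l 16870760) (l 16869928)) (c (l 16869080) (l 16868208))))) (c (b (a (l 16863288) (l 16847768)) (a (c (l 16858184) (l 16858784)) (c (l 16864064) (l 16864080)))) (b (a (c (l 16864024) (l 16701080)) (c (l 16780088) (l 16600432))) (a (c (l 16859392) (l 16822160)) (c (l 16843120) (l 16727752))))))), by decide +kernel⟩

def k9_pm_101 : ∃ t, chk3 f_pm_101 t 16 121 1 = true :=
  ⟨(b (a (a (l 6) (a (a (l 6) (b (c (l 16839896) (l 16823856)) (l 6))) (c (c (l 16831128) (l 16828816)) (c (l 16826456) (b (l 16825592) (l 16822560)))))) (a (a (c (c (l 16848016) (l 16846336)) (c (l 16844616) (b (l 16844352) (l 16841424)))) (c (c (l 16865568) (l 16864520)) (c (l 16863440) (l 16867576)))) (c (a (c (l 16852968) (l 16853664)) (c (l 16859000) (l 16838096))) (a (c (l 16854376) (l 16860352)) (c (l 16838168) (l 16824456)))))) (a (l 6) (a (a (a (l 6) (b (c (l 16868624) (l 16844320)) (l 6))) (c (c (l 16860520) (l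 16859360)) (c (l 16858168) (b (l 16858256) (l 16855680))))) (c (a (c (l 16847304) (l 16848000)) (c (l 16853464) (l 16832528))) (a (c (l 16848712) (b (l 16850920) (l 16847912))) (c (l 16832576) (b (l 16834096) (l 16831104)))))))), by decide +kernel⟩

def k10_pm_101 : ∃ t, chk3 f_pm_101 t 16 61 1 = true :=
  ⟨(a (l 6) (b (b (a (l 6) (a (a (l 6) (b (c (l 16860368) (l 16840360)) (l 6))) (c (c (l 16847528) (l 16826480)) (c (l 16826400) (b (l 16827952) (l 16824656)))))) (l 6)) (l 6))), by decide +kernel⟩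

def k11_pm_101 : ∃ t, chk3 f_pm_101 t 16 31 1 = true :=
  ⟨(l 6), by decide +kernel⟩

def k12_pm_101 : ∃ t, chk3 f_pm_101 t 34 30 1 = true :=
  ⟨(b (b (c (a (b (a (l 16831584) (l 16826776)) (a (c (l 16848304) (l 16847752)) (l 16810344))) (b (a (l 16734544) (l 16652408)) (a (l 16813936) (l 16730360)))) (a (b (a (c (l 16680288) (l 16512552)) (l 16618936)) (a (c (l 16781464) (l 16606288)) (c (l 16681848) (l 16518384)))) (b (a (l 16441448) (l 16377280)) (a (l 16643512) (l 16444880))))) (c (a (b (a (c (l 16843384) (l 16842848)) (l 16805560)) (a (c (l 16837984) (l 16837376)) (c (l 16821832) (l 16820600)))) (b (a (l 16809280) (l 16791368)) (a (l 16783112) (l 16786288)))) (a (b (a (c (l 16842304) (l 16709552)) (c (l 16779784) (l 16609288))) (a (c (l 16815800) (l 16823416)) (c (l 16819360) (l 16709056)))) (b (a (c (l 16680432) (l 16521432)) (l 16581408)) (a (c (l 16774736) (l 16609096)) (l 16703424)))))) (b (a (a (b (c (c (l 16832168) (l 16831416)) (c (l 16809680) (a (l 16834304) (l 16825440))))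 (a (l 6) (b (c (l 16823112) (l 16820920)) (l 6)))) (c (b (c (l 16816136) (l 16814720)) (c (l 16810104) (l 16808432))) (b (c (l 16813288) (l 16790872)) (c (l 16785776) (a (l 16809608) (l 16800432)))))) (c (b (a (l 16782680) (l 16780712)) (a (c (l 16793504) (l 16791160)) (l 16753760))) (b (a (c (l 16795288) (l 16704856)) (c (l 16765928) (l 16605312))) (a (c (l 16788784) (l 16765400)) (c (l 16770184) (l 16696552)))))) (b (b (a (l 6) (a (l 6) (c (l 16770040) (l 16742416)))) (l 6)) (l 6)))), by decide +kernel⟩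

def k13_pm_101 : ∃ t, chk3 f_pm_101 t 35 30 1 = true :=
  ⟨(a (b (b (c (b (l 16608176) (l 16736264)) (b (l 16294504) (l 16476864))) (c (b (a (l 16723120) (l 16641032)) (a (l 16767824) (l 16712592))) (b (a (l 16445592) (l 16381000)) (a (l 16537160) (l 16443288))))) (a (b (c (b (l 16762344) (l 16756464)) (b (l 16634568) (l 16696288))) (b (c (l 16750264) (c (l 16744120) (l 16683840))) (l 6))) (b (c (b (l 16743312) (l 16737520)) (b (l 16510480) (l 16582872))) (c (b (l 16731400) (l 16725048)) (b (l 16660752) (b (l 16716360) (l 6))))))) (b (c (a (b (a (l 16600832) (l 16466232)) (a (b (l 16585184) (l 16650384)) (l 16581048))) (b (b (l 16400248) (l 16449528)) (b (l 16502632) (l 16559696)))) (a (b (a (l 16259824) (l 16236272)) (a (b (l 16337328) (l 16394072)) (l 16336168))) (b (l 16202920) (c (l 16354448) (l 16236520))))) (a (b (c (a (b (l 16720456) (l 16723312)) (l 16713632)) (a (b (l 16455120) (l 16604624)) (b (l 16421352) (l 16483440)))) (c (a (a (l 16716160) (b (l 16715272) (l 16708992)))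 (b (l 16714104) (l 16708008))) (a (a (b (l 16602160) (l 16678752)) (b (l 16580240) (l 16654336))) (b (l 16549992) (l 16621184))))) (b (c (c (l 16715640) (l 16611568)) (c (l 16507304) (l 16339944))) (c (c (b (l 16713592) (l 16708128)) (b (l 16690816) (l 16704672))) (c (b (l 16559296) (l 16627344)) (b (l 16427728) (l 16491464)))))))), by decide +kernel⟩

def k14_pm_101 : ∃ t, chk3 f_pm_101 t 17 31 1 = true :=
  ⟨(a (l 6) (b (a (l 6) (b (b (b (a (l 6) (c (a (l 16702480) (l 16701584)) (a (l 16633072) (l 16591032)))) (l 6)) (l 6)) (l 6))) (l 6))), by decide +kernel⟩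

def k15_pm_101 : ∃ t, chk3 f_pm_101 t 9 14 1 = true :=
  ⟨(a (b (a (b (c (l 16169608) (l 15838752)) (a (c (l 16042048) (l 15882424)) (c (l 16018480) (l 15869088)))) (b (c (l 15966608) (l 15840992)) (a (l 16140816) (l 15984848)))) (a (b (a (c (b (l 16099904) (l 16147904)) (l 15948704)) (c (l 16082624) (l 15920760))) (a (c (b (l 16204752) (a (l 16291088) (l 16253232))) (b (l 16018216) (l 16075856))) (c (b (l 16148784) (l 16224168)) (b (l 15976544) (l 16023368))))) (b (a (c (l 16050304) (l 15899448)) (c (l 16024472) (l 15883536))) (a (c (b (l 16103176) (l 16147192)) (l 16003424)) (c (b (l 16066048) (l 16101312)) (l 15931816)))))) (b (a (b (c (l 15964096) (l 15852704)) (a (l 15916192) (l 15913320))) (b (a (l 15917712) (l 15926000)) (a (l 15912856) (l 15978288)))) (c (a (b (a (l 16004048) (l 15988152)) (a (l 16049032) (l 16021560))) (b (a (l 15976008) (l 15967904)) (a (l 15999320) (l 16024184)))) (a (b (a (l 15872072) (l 15864304)) (a (l 15908416) (l 15890176))) (b (a (l 15859560) (l 15858608))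 (a (l 15876208) (l 15867032))))))), by decide +kernel⟩

def k16_pm_101 : ∃ t, chk3 f_pm_101 t 36 30 1 = true :=
  ⟨(b (a (c (b (a (b (l 16351744) (l 16396256)) (l 16327760)) (a (b (l 16444200) (l 16495704)) (c (l 16466952) (l 16361736)))) (b (a (l 16162592) (l 16126472)) (a (c (l 16302400) (l 16190264)) (l 16349208)))) (b (c (a (l 16286368) (l 16248952)) (l 16225968)) (c (a (b (l 16344088) (l 16386216)) (l 16382808)) (a (l 16162904) (l 16127376))))) (a (c (b (a (c (l 16638856) (l 16541960)) (c (l 16569904) (l 16479520))) (a (c (b (l 16709864) (l 16704920)) (b (l 16611368) (l 16676696))) (c (b (l 16656592) (l 16701512)) (b (l 16540280) (l 16599368))))) (b (a (c (l 16402664) (l 16283880)) (c (l 16346504) (l 16233760))) (a (c (b (l 16487528) (l 16549008)) (b (l 16363328) (l 16421032))) (c (b (l 16423352) (l 16479056)) (b (l 16305800) (l 16358168)))))) (c (b (a (b (l 16452368) (l 16605616)) (c (l 16451664) (l 16351688))) (a (c (b (l 16586264) (l 16642880)) (b (l 16476456) (l 16530040))) (c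 (b (l 16522880) (l 16574296)) (b (l 16418960) (l 16467672))))) (b (a (c (l 16296024) (l 16188800)) (c (l 16250592) (l 16148400))) (a (c (b (l 16365776) (l 16416368)) (c (l 16305960) (l 16249232))) (c (a (l 16349576) (l 16323920)) (l 16250144))))))), by decide +kernel⟩

def k17_pm_101 : ∃ t, chk3 f_pm_101 t 37 30 1 = true :=
  ⟨(b (a (c (b (a (l 16215072) (l 16184376)) (a (l 16279272) (l 16242464))) (b (l 16026816) (a (l 16095376) (l 16066520)))) (c (b (l 16143600) (a (l 16209072) (l 16178736))) (b (l 15984480) (l 16028408)))) (a (c (b (a (b (l 16333968) (l 16415744)) (b (l 16292048) (l 16328200))) (a (b (c (l 16465568) (l 16367008)) (c (l 16512384) (l 16411392))) (c (b (l 16413664) (l 16456304)) (b (l 16320000) (l 16360440))))) (b (a (c (l 16209584) (l 16112008)) (l 16126008)) (a (c (a (l 16299536) (l 16276344)) (l 16185496)) (c (l 16243672) (l 16146056))))) (c (b (a (l 16374984) (l 16234088)) (a (b (l 16322144) (c (l 16405456) (l 16314248))) (b (l 16281392) (l 16420816)))) (b (a (l 16094408)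 (l 16065792)) (a (c (l 16203696) (l 16110352)) (b (l 16107776) (l 16138656))))))), by decide +kernel⟩

def k18_pm_101 : ∃ t, chk3 f_pm_101 t 18 248 1 = true :=
  ⟨(a (a (a (c (a (l 16699232) (l 16698256)) (c (l 16609328) (b (l 16466960) (l 16498872)))) (c (a (l 16697224) (l 16675168)) (c (l 16601432) (l 16498176)))) (c (a (a (l 16643072) (l 16626752)) (c (l 16628904) (l 16540576))) (a (c (l 16533344) (l 16352968)) (c (l 16430232) (l 16297888))))) (a (c (a (c (l 16562144) (l 16458752)) (c (l 16501776) (l 16403736))) (a (a (l 16397824) (l 16331008)) (a (l 16265408) (l 16242896)))) (c (a (c (l 16447000) (l 16353824)) (c (l 16397256) (l 16308496))) (a (a (l 16221456) (l 16201024)) (c (l 16218024) (l 16125864)))))), by decide +kernel⟩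

def k19_pm_101 : ∃ t, chk3 f_pm_101 t 18 249 1 = true :=
  ⟨(b (a (a (a (l 6) (a (c (l 16693408) (l 16582680)) (c (l 16692520) (l 16567352)))) (c (c (a (l 16690648) (l 16671960)) (a (l 16632192) (l 16560696))) (a (a (l 16553976) (l 16521440)) (a (l 16490600) (l 16440360))))) (a (c (c (a (l 16601424) (l 16537704)) (a (l 16496296) (l 16438096))) (a (a (l 16391600) (l 16323248)) (a (l 16298128) (l 16274224)))) (c (c (a (l 16479968) (l 16427480)) (a (l 16385352) (l 16337408))) (a (a (l 16251464) (l 16229768)) (b (l 16215472) (l 16308608)))))) (a (a (l 6) (a (b (a (b (c (l 16690152) (l 16488512)) (l 6)) (c (b (l 16689256) (l 16646808)) (c (l 16518176) (l 16399136)))) (l 6)) (c (a (b (c (l 16687272) (l 16599648)) (l 16671968)) (b (c (l 16675416) (l 16564792)) (l 16634728))) (b (a (c (l 16484784) (l 16368968)) (c (l 16453096) (l 16340344))) (a (l 16482744) (l 16451952)))))) (a (c (a (b (a (a (l 16552152) (l 16556248)) (c (l 16604808) (l 16500256))) (a (l 16599392) (l 16565832))) (a (b (c (l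 16572104) (l 16470360)) (l 16533936)) (b (c (l 16540992) (l 16441912)) (l 16503600)))) (a (b (c (c (l 16435464) (l 16381536)) (c (l 16327312) (l 16272784))) (a (l 16401760) (l 16353024))) (b (c (c (l 16379736) (l 16328480)) (l 16250936)) (c (l 16365592) (l 16261888))))) (c (c (a (b (l 16518048) (l 16508504)) (b (l 16443232) (l 16453696))) (a (b (l 16422728) (l 16412688)) (b (l 16352496) (l 16362520)))) (c (a (b (l 16304856) (l 16315328)) (a (l 16296680) (l 16254152))) (a (c (l 16257128) (l 16186440)) (c (l 16194224) (l 16146648)))))))), by decide +kernel⟩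

def k20_pm_101 : ∃ t, chk3 f_pm_101 t 18 125 1 = true :=
  ⟨(b (a (b (a (l 6) (a (l 6) (a (l 6) (b (c (l 16649512) (l 16486320)) (l 6))))) (l 6)) (a (c (a (c (a (l 16682520) (l 16652960)) (a (l 16579880) (l 16546160))) (c (a (l 16618000) (l 16584760)) (a (l 16514120) (l 16483664)))) (a (a (c (l 16468944) (l 16356952)) (c (l 16438216) (l 16329128))) (a (c (l 16409016) (l 16302688)) (c (l 16381256) (l 16277544))))) (c (a (c (c (l 16582928) (l 16534696)) (b (l 16429376) (l 16515088))) (c (b (l 16469656) (l 16512416)) (b (l 16377744) (l 16398536)))) (c (a (b (l 16331272) (l 16353064)) (c (l 16317752) (l 16270392))) (a (l 16242080) (l 16198640)))))) (a (l 6) (a (b (a (l 6) (a (l 6) (a (l 6) (c (l 16564536) (l 16399688))))) (l 6)) (c (a (a (b (a (l 16548504) (l 16532864)) (l 6)) (c (b (l 16558752) (l 16583360)) (b (l 16461160) (l 16484648)))) (c (a (b (l 16528448) (l 16551952)) (b (l 16499568) (l 16522024))) (a (l 16507384) (l 16438408)))) (a (a (c (l 16442616) (l 16297552)) (c (l 16373448)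 (l 16272832))) (c (c (l 16359080) (l 16310864)) (l 16258912))))))), by decide +kernel⟩

def k21_pm_101 : ∃ t, chk3 f_pm_101 t 18 63 1 = true :=
  ⟨(a (l 6) (a (l 6) (a (l 6) (a (l 6) (a (l 6) (b (b (a (l 6) (b (c (l 16570840) (l 16296696)) (l 6))) (l 6)) (l 6))))))), by decide +kernel⟩

def k22_pm_101 : ∃ t, chk3 f_pm_101 t 38 30 1 = true :=
  ⟨(b (a (c (b (l 16097688) (c (l 16175304) (l 16100856))) (b (l 15950232) (l 15985816))) (c (b (l 16059832) (l 16092552)) (b (l 15922592) (l 15951000)))) (a (b (c (a (l 16201304) (l 16171440)) (b (l 16016648) (l 16039384))) (c (a (b (l 16244328) (l 16275856)) (b (l 16210560) (l 16239328))) (a (l 16133656) (l 16063352)))) (c (b (c (l 16166928) (l 16095576)) (a (b (l 16179752) (l 16205992)) (l 16184280))) (b (l 16026872) (a (l 16037504) (l 16013936)))))), by decide +kernel⟩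

def k23_pm_101 : ∃ t, chk3 f_pm_101 t 38 62 1 = true :=
  ⟨(b (a (c (c (a (b (l 16351960) (b (l 16379712) (b (l 16394176) (l 16403792)))) (b (l 16310704) (b (l 16336160) (a (l 16385696) (l 16343208))))) (a (b (l 16267216) (b (l 16293760) (b (l 16307624) (l 16316832)))) (b (l 16229616) (b (l 16253952) (c (l 16291808) (l 16249864)))))) (b (a (l 16136704) (l 16104416)) (a (b (l 16224344) (b (c (l 16219248) (l 16129072)) (l 16204024))) (c (b (l 16169840) (l 16186064)) (l 16154488))))) (c (b (a (l 16255392) (l 16201536)) (a (b (l 16257272) (c (c (l 16332272) (l 16293016)) (l 16233208))) (b (l 16222512) (c (l 16296088) (l 16198736))))) (c (b (l 16101032) (a (a (l 16152440) (l 16136352)) (l 16113496))) (b (l 16020848) (a (l 16061192) (l 16033408)))))) (a (c (a (b (c (b (l 16418352) (l 16438272)) (b (l 16330736) (l 16349744))) (a (c (l 16545600) (l 16391656)) (c (l 16476904) (l 16367056)))) (b (c (a (l 16392136) (l 16369392)) (l 16296512)) (a (c (l 16430384) (l 16343568)) (c (l 16405960) (l 16321120)))))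 (a (c (b (l 16250456) (a (l 16299248) (l 16276768))) (b (l 16159120) (l 16195152))) (b (a (l 16197224) (l 16158152)) (c (l 16244928) (l 16156184))))) (c (a (b (c (l 16337168) (l 16256640)) (c (c (l 16391640) (l 16351000)) (l 16331264))) (b (a (l 16268272) (l 16250072)) (c (l 16370664) (l 16250104)))) (a (c (c (l 16210720) (l 16168832)) (l 16105240)) (c (l 16155312) (l 16073984)))))), by decide +kernel⟩

def k24_pm_101 : ∃ t, chk3 f_pm_101 t 38 63 1 = true :=
  ⟨(b (b (a (a (b (c (a (c (l 16515496) (l 16422960)) (c (l 16487312) (l 16397000))) (c (l 16317216) (l 16223416))) (l 6)) (c (a (c (a (l 16540312) (l 16505968)) (c (l 16404280) (l 16359656))) (c (b (l 16434712) (l 16454480)) (l 16357920))) (c (b (l 16271816) (l 16290296)) (l 16191000)))) (c (a (c (a (b (l 16410160) (l 16429088)) (b (l 16386680) (l 16404824))) (b (l 16314992) (l 16353640))) (c (c (l 16423592) (l 16341904)) (b (l 16273640) (l 16289856)))) (a (c (l 16238824) (l 16152656)) (a (l 16209968) (l 16150456))))) (a (l 6) (a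 (b (a (c (c (l 140718418027298863) (l 16362472)) (l 139070799451832367)) (c (c (l 16465352) (l 16339320)) (l 16232280))) (l 6)) (c (a (c (b (l 16399432) (l 140366299365425199)) (l 139377357187596335)) (c (b (l 16376480) (l 140112174691958831)) (l 16367208))) (c (c (l 16252984) (l 16211400)) (l 16148576)))))) (l 6)), by decide +kernel⟩

def k25_pm_101 : ∃ t, chk3 f_pm_101 t 78 15 1 = true :=
  ⟨(b (b (c (b (l 16028608) (l 16054560)) (b (l 15900376) (l 15922536))) (c (b (b (l 16077608) (l 16094872)) (a (l 16136504) (l 16111944))) (b (l 15949520) (b (l 15973544) (l 16033624))))) (b (b (b (a (c (l 16171424) (l 16023392)) (c (l 16143808) (l 16000816))) (c (a (c (a (l 16242040) (l 16225840)) (l 16181544)) (c (l 16244752) (l 16132096))) (a (c (l 16085272) (l 16007960)) (a (l 16028200) (l 16016408))))) (c (c (a (b (l 16261176) (l 16289744)) (b (l 16227896) (l 16254056))) (a (a (l 16208712) (l 16192160)) (l 16168632))) (c (b (l 16096392) (l 16121808)) (c (l 16051384) (l 16012480))))) (b (c (a (b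 (c (c (l 16339040) (l 16300944)) (l 16243192)) (b (c (b (l 16339856) (l 16368944)) (l 16265952)) (c (a (l 16413264) (l 16349624)) (l 16302592)))) (c (b (l 16281800) (a (l 16342040) (l 16301520))) (b (l 16207944) (l 16235992)))) (a (c (b (l 16165064) (l 16194440)) (l 16099752)) (b (l 16094744) (c (l 16159840) (l 16082712))))) (b (b (c (a (a (c (l 140033765757829167) (l 16308136)) (c (l 139794415774482479) (l 16287432))) (c (c (a (l 16363872) (l 16342952)) (l 16315328)) (l 16258032))) (c (a (l 16217408) (l 16181024)) (l 16119528))) (b (a (l 6) (a (l 6) (c (a (l 139995557553242159) (l 138998987681349679)) (l 16144536)))) (l 6))) (l 6))))), by decide +kernel⟩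

def k26_pm_101 : ∃ t, chk3 f_pm_101 t 79 15 1 = true :=
  ⟨(a (b (b (c (l 16060888) (l 15895144)) (b (a (l 15997008) (l 16051960)) (c (l 16110360) (l 15954808)))) (b (c (b (b (l 16118384) (b (l 16134544) (b (l 16143064) (c (l 16182912) (l 16114216))))) (a (a (l 16269528) (l 16220152)) (c (l 16201400) (l 16132408)))) (b (b (l 15980128) (a (l 16005104) (b (l 15989288) (l 16062248)))) (b (l 16020816) (l 16085000)))) (b (c (a (b (l 16219504) (a (l 138666866364039215) (l 138586533277696047))) (b (c (l 16238160) (l 16167728)) (a (l 138508536653938735) (l 16224392)))) (c (a (l 16122928) (l 16108064)) (l 16041488))) (b (a (c (c (l 139246721433944111) (l 16237568)) (l 16124824)) (c (a (b (l 16316848) (l 138758332022915119)) (l 138790286545305647)) (l 16109128))) (a (l 6) (b (c (a (a (l 6) (l 138844437552169007)) (l 138765959893991471)) (l 16128960)) (l 6))))))) (b (b (c (l 16006872) (l 15887952)) (b (l 15978456) (a (l 16072088) (l 16063448)))) (b (b (b (l 16175624) (b (l 16105352) (c (l 16118912)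 (l 15983528)))) (c (b (l 16134104) (l 16155320)) (l 16007896))) (b (c (b (l 16177880) (c (l 16236296) (l 16167160))) (l 16155272)) (c (b (c (l 138752628294697007) (l 16192032)) (c (b (l 138903192710496303) (l 139010326403956783)) (l 138152775892041775))) (c (l 137793097977200687) (l 16061784))))))), by decide +kernel⟩

def k27_pm_101 : ∃ t, chk3 f_pm_101 t 5 12 1 = true :=
  ⟨(a (b (a (b (a (c (l 16311440) (l 16289560)) (b (l 16359608) (l 16330072))) (a (b (l 16256336) (l 16227144)) (b (l 16300896) (l 16272128)))) (b (a (b (l 16421624) (l 16371704)) (b (a (l 16429880) (l 16448672)) (l 16431992))) (a (b (l 16343072) (l 16314768)) (c (l 16377792) (l 16379888))))) (a (b (a (l 16289072) (b (l 16243792) (l 16215936))) (a (l 16129432) (l 16279984))) (b (a (b (l 16286824) (l 16259272)) (b (l 16327640) (l 16300464))) (a (b (l 16232152) (l 16205744)) (b (l 16273632) (l 16247424)))))) (b (a (b (a (b (l 14) (a (l 16439032) (l 16457056))) (l 14)) (a (b (a (l 16411384) (l 16429688)) (l 16414312)) (b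 (a (l 16447480) (l 16464768)) (c (l 16436760) (l 16421088))))) (b (l 14) (a (b (l 14) (a (l 16455240) (l 16471840))) (l 14)))) (a (b (a (c (l 16363216) (l 16341064)) (c (l 16377864) (b (l 16393208) (l 16365472)))) (a (b (l 16313072) (l 16287160)) (b (l 16350552) (l 16324984)))) (b (a (b (a (l 16429096) (l 16445952)) (a (l 16403144) (l 16420240))) (c (b (l 16477256) (l 16452960)) (a (l 16419912) (l 16452136)))) (a (b (l 16370400) (l 16339984)) (b (c (l 16428888) (l 16409616)) (c (l 16405264) (l 16383616)))))))), by decide +kernel⟩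

def k28_pm_101 : ∃ t, chk3 f_pm_101 t 5 13 1 = true :=
  ⟨(a (b (a (b (b (a (l 16091080) (l 16136608)) (a (l 16067232) (l 16111128))) (a (l 16036040) (l 16121640))) (b (a (l 16251680) (b (l 16222080) (l 16197592))) (b (a (l 16175008) (b (l 16179568) (l 16168432))) (a (l 16110136) (l 16151008))))) (a (b (a (l 15999688) (l 16039040)) (a (l 15969240) (l 16004176))) (b (a (l 16078624) (b (l 16128888) (l 16107624))) (a (l 16040376) (b (l 16087240) (l 16067744)))))) (b (a (b (a (b (l 16262032) (l 16237672)) (c (l 16302456) (l 16271528))) (a (b (l 16213424) (a (l 16181416) (l 16201400))) (b (l 16252576) (b (l 16235000) (l 16224376))))) (b (a (b (l 16336472) (l 16312640)) (b (c (l 16382272) (l 16358280)) (l 16342328))) (a (b (l 16289448) (a (l 16257200) (l 16275432))) (c (l 16316784) (l 16283176))))) (a (b (a (b (l 16168184) (l 16146168)) (b (l 16206624) (l 16184136))) (a (b (l 16124896) (l 16104344)) (b (l 16162272) (l 16141024)))) (b (a (b (a (l 16234792) (l 16253416)) (l 16221296)) (b (b (a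 (l 16277184) (l 16294408)) (l 16274480)) (c (l 16273152) (l 16239720)))) (a (b (l 16199120) (c (l 16195792) (l 16157024))) (b (c (l 16251288) (l 16217080)) (c (l 16229840) (l 16194896)))))))), by decide +kernel⟩

def k29_pm_101 : ∃ t, chk3 f_pm_101 t 5 14 1 = true :=
  ⟨(a (b (a (b (a (l 16050200) (b (l 15981648) (l 15968112))) (a (b (l 15931720) (l 15924680)) (b (l 15955648) (l 15944440)))) (b (a (b (l 16014664) (l 15998624)) (b (l 16049152) (l 16031208))) (a (b (l 15983304) (l 15968856)) (b (l 16013696) (l 15996752))))) (a (b (a (b (l 15919664) (l 15916976)) (b (l 15934696) (l 15926664))) (a (b (l 15937880) (a (l 15922552) (l 15918024))) (b (l 15920584) (c (l 15959800) (l 15871792))))) (b (a (b (l 15955448) (l 15943264)) (c (l 16002976) (b (l 15948296) (l 15932608)))) (a (b (l 15932512) (c (l 15960008) (l 15884968))) (b (c (l 15981616) (l 15918032)) (c (l 15968728) (l 15904704))))))) (b (a (b (a (b (l 16084536) (l 16065176)) (b (l 16120368) (l 16100008))) (a (b (l 16046032) (l 16027208))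 (b (l 16079688) (l 16059496)))) (a (b (b (c (l 16175128) (l 16135352)) (c (l 16154528) (l 16113952))) (c (b (l 16133648) (l 16112600)) (b (l 16092648) (l 16071472)))) (b (b (c (l 16208760) (l 16173120)) (c (l 16187656) (l 16151528))) (c (b (l 16166168) (l 16144384)) (b (l 16129912) (l 16108312)))))) (a (b (a (b (l 16029800) (c (l 16017248) (l 15962808))) (b (c (l 16062088) (l 16014992)) (c (l 16042472) (l 15995424)))) (a (c (b (l 16000256) (l 15984080)) (b (l 15945672) (l 15929456))) (b (c (l 16023256) (l 15976408)) (c (l 16004584) (l 15958032))))) (b (a (b (c (l 16091488) (l 16050496)) (c (l 16070432) (l 16029792))) (c (b (l 16122400) (l 16100344)) (b (l 16086768) (l 16065344)))) (a (b (c (l 16049568) (l 16009432)) (c (l 16029048) (l 15989496))) (b (c (l 16078328) (a (l 16035312) (l 16052960))) (c (l 16056488) (a (l 16014544) (l 16031784))))))))), by decide +kernel⟩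

def k30_pm_101 : ∃ t, chk3 f_pm_101 t 5 30 2 = true :=
  ⟨(a (a (b (a (a (l 15991760) (l 16017872)) (b (l 15959312) (l 15961496))) (a (a (b (l 16017384) (l 16040384)) (b (l 15992984) (l 16009392))) (a (b (l 15973992) (l 15984696)) (b (l 15959704) (l 15965448))))) (b (a (b (l 15953360) (l 15948640)) (b (l 15957320) (l 15947280))) (a (a (b (l 15949480) (l 15950928)) (b (l 15942800) (l 15940504))) (b (a (l 15939208) (l 15938360)) (a (l 15933656) (l 15929944)))))) (a (b (a (b (l 15969000) (l 15954880)) (b (l 15986712) (a (l 15965264) (l 15974032)))) (a (b (a (l 15939920) (l 15943616)) (a (l 15928992) (l 15930496))) (b (a (l 15949208) (l 15956472)) (a (l 15934168) (l 15939760))))) (b (a (b (a (l 16003128) (l 16015288)) (a (l 15984080) (l 15995240))) (b (a (l 16028272) (l 16041960)) (a (l 16007376) (l 16020344)))) (a (b (a (l 15965208) (l 15975248)) (a (l 15947040) (b (l 15960608) (l 15951160)))) (b (a (l 15986424) (l 15998592)) (a (b (l 15970984) (l 15960968)) (b (l 15982480) (l 15971976)))))))),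 by decide +kernel⟩

def k31_pm_101 : ∃ t, chk3 f_pm_101 t 5 30 3 = true :=
  ⟨(a (a (b (a (b (l 15872568) (l 15881224)) (b (l 15869848) (l 15870256))) (a (b (b (l 15889704) (l 15896448)) (b (l 15904248) (l 15955216))) (a (b (l 15876136) (l 15883520)) (b (l 15869936) (l 15872728))))) (b (a (b (l 15877456) (l 15871568)) (b (l 15892904) (l 15882184))) (a (b (a (l 15867088) (l 15867168)) (a (l 15865912) (l 15862528))) (b (a (l 15869800) (l 15874680)) (a (l 15862128) (l 15864368)))))) (a (b (a (b (l 15914384) (a (l 15894960) (l 15905360))) (b (a (l 15933608) (l 15947632)) (a (l 15917064) (l 15929896)))) (a (b (a (l 15881536) (l 15890136)) (a (l 15868912) (b (l 15879072) (l 15872104)))) (b (a (l 15900280) (l 15911768)) (a (b (l 15887920) (l 15880032)) (b (l 15898296) (l 15889608)))))) (b (a (b (a (l 15962480) (l 15978056)) (a (l 15943728) (l 15958440))) (b (a (l 15994256) (l 16011000)) (a (l 15973920) (l 15990072)))) (a (b (a (l 15924448) (l 15938176)) (a (b (l 15910024) (l 15900648)) (b (l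 15922928) (l 15912976)))) (b (a (l 15952832) (l 15968288)) (a (b (l 15936888) (l 15926424)) (b (l 15951760) (l 15940880)))))))), by decide +kernel⟩

def k32_pm_101 : ∃ t, chk3 f_pm_101 t 20 31 2 = true :=
  ⟨(b (b (b (a (a (l 16061504) (l 16025056)) (a (l 15995656) (l 15972328))) (a (a (b (l 16073464) (c (l 16112568) (l 16051104))) (a (l 16046728) (l 16028520))) (a (b (l 16002216) (l 16007048)) (l 15978344)))) (b (a (a (l 16094864) (l 16050720)) (a (l 16014656) (c (l 16009008) (l 15961720)))) (a (a (c (l 16143992) (l 16081360)) (c (l 16093368) (l 16036192))) (a (l 16067576) (l 15993712))))) (b (c (b (a (a (l 16163712) (l 16109192)) (a (l 16064072) (l 16027000))) (a (a (c (l 16200856) (l 16168840)) (c (l 16140984) (l 16111800))) (a (l 16098864) (l 16037864)))) (a (a (b (l 16100248) (l 16120432)) (b (l 16051312) (l 16067704))) (a (b (l 16011256) (l 16024368)) (c (l 15995944) (l 15971528))))) (b (a (a (c (a (l 138367386831568943) (l 138018016941916207)) (l 137455066888421423)) (c (a (l 16159696)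 (l 16131232)) (l 16085464))) (a (c (b (l 16089208) (l 16118216)) (l 16038832)) (c (l 16092104) (l 16000648)))) (a (b (c (a (a (l 138499465704570927) (l 138133122100871215)) (c (l 137815638094004271) (l 16145120))) (a (l 16180152) (l 16099760))) (a (c (a (l 138594504767782959) (l 138216891167703087)) (l 137647687641235503)) (c (a (l 137874393226690607) (l 137564193445658671)) (l 16109776)))) (c (a (c (a (l 16137136) (l 16111240)) (l 16138176)) (a (l 16074736) (l 16053832))) (a (l 16075744) (l 16013704))))))), by decide +kernel⟩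

def k33_pm_101 : ∃ t, chk3 f_pm_101 t 21 31 2 = true :=
  ⟨(b (b (a (a (b (l 15954256) (l 15957760)) (b (l 15940768) (l 15942080))) (a (b (l 15931248) (l 15930664)) (b (l 15925200) (l 15922960)))) (a (a (b (c (l 15983904) (l 15940664)) (l 15968152)) (b (b (c (l 15963432) (l 15923912)) (l 15945344)) (l 15948112))) (a (b (b (a (l 15933776) (l 15928352)) (l 15931512)) (l 15932848)) (b (b (c (l 15938352) (l 15905264)) (l 15921680)) (l 15921752))))) (a (c (a (b (b (l 15996864) (l 16005144)) (b (l 16014824) (l 16067992))) (b (l 15975560) (b (l 15986112) (l 15995008)))) (a (b (l 15956568) (c (l 15986144) (l 15963400))) (b (l 15935168) (l 15969920)))) (b (a (b (l 15935520) (l 15939336)) (b (l 15922720) (l 15924792))) (a (b (l 15965408) (c (l 15969968) (l 15932000))) (b (l 15928120) (l 15953824)))))), by decide +kernel⟩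

def k34_pm_101 : ∃ t, chk3 f_pm_101 t 11 31 2 = true :=
  ⟨(a (b (b (a (a (b (l 15922208) (l 15918520)) (b (l 15921912) (l 15916952))) (a (b (l 15924008) (l 15917936)) (b (l 15928224) (l 15921184)))) (a (b (b (a (b (l 15916600) (l 15916048)) (b (l 15914240) (l 15913336))) (a (l 15915336) (l 15912088))) (a (l 15914288) (l 15910024))) (b (b (a (b (l 15914496) (l 15913280)) (b (l 15917112) (c (l 15926944) (l 15904016)))) (a (l 15911576) (l 15913488))) (a (l 15908592) (l 15909680))))) (a (b (a (b (l 15913728) (l 15914248)) (b (l 15908088) (l 15907208))) (a (b (l 15915992) (l 15919120)) (c (l 15922416) (l 15893920)))) (b (a (b (l 15905408) (l 15903248)) (b (l 15905360) (l 15902040))) (a (b (l 15902264) (l 15902616)) (b (l 15899864) (l 15898984)))))) (b (b (a (a (b (l 15934320) (l 15926424)) (b (l 15942064) (l 15933432))) (a (b (l 15951272) (l 15942008)) (b (l 15961768) (l 15951952)))) (a (b (b (a (a (l 15919496) (l 15922256)) (c (l 15936552) (l 15917760))) (a (l 15917560) (l 15923544))) (a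 (l 15912992) (l 15918280))) (b (b (a (l 15935368) (l 15944920)) (a (l 15931280) (c (l 15948024) (l 15932840)))) (a (l 15925320) (l 15933912))))) (a (b (a (b (l 15907632) (l 15903248)) (b (l 15911976) (l 15906616))) (a (b (l 15899984) (l 15897984)) (l 15921624))) (b (a (b (l 15918144) (l 15911888)) (b (l 15925936) (l 15918848))) (a (l 15904520) (l 15910184)))))), by decide +kernel⟩

def k35_pm_101 : ∃ t, chk3 f_pm_101 t 10 31 3 = true :=
  ⟨(a (b (b (a (a (b (l 15937576) (a (l 15960248) (l 15943640))) (b (l 15911704) (c (l 15951576) (l 15892304)))) (a (b (l 15891904) (a (l 15904368) (l 15894384))) (b (l 15877312) (l 15881904)))) (a (a (c (l 16008584) (l 15943272)) (c (l 15970808) (l 15911168))) (b (a (l 15908392) (c (l 15913136) (l 15863256))) (a (l 15918888) (l 15896160))))) (c (a (a (b (l 16045272) (b (l 16076008) (l 16098168))) (b (l 16000216) (b (l 16025424) (l 16043920)))) (a (b (l 15963736) (l 16033600)) (b (l 15934576) (l 15956968)))) (a (a (b (l 15979424) (l 16020160)) (b (l 15940240)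 (l 15973864))) (a (b (l 15909080) (l 15936560)) (b (l 15884728) (l 15906872)))))) (b (b (a (a (b (l 15867216) (l 15869472)) (b (l 15860984) (l 15861216))) (a (b (l 15858104) (l 15860680)) (b (l 15858160) (c (l 15872496) (l 15837424))))) (a (a (b (c (l 15896208) (l 15850552)) (l 15878976)) (b (b (a (l 15864488) (l 15860560)) (l 15863864)) (l 15866560))) (a (b (b (c (l 15875432) (l 15837016)) (l 15856912)) (l 15858256)) (b (b (b (a (l 15853976) (l 15853472)) (l 15853456)) (l 15853368)) (l 15874480))))) (c (a (a (b (l 15911696) (l 15929256)) (b (l 15894208) (l 15907504))) (a (b (l 15881376) (l 15890912)) (b (l 15872560) (l 15878744)))) (a (a (b (l 15866216) (l 15883672)) (b (l 15852688) (l 15866024))) (b (a (l 15843464) (l 15837920)) (a (l 15853144) (l 15844352))))))), by decide +kernel⟩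

def k36_pm_101 : ∃ t, chk3 f_pm_101 t 11 31 3 = true :=
  ⟨(a (b (b (a (a (b (l 15860816) (c (l 15872336) (l 15840200))) (b (l 15865752) (c (l 15874752) (l 15845328)))) (a (b (l 15872704) (c (l 15879424) (l 15852528))) (b (l 15881448) (c (l 15886104) (l 15861568))))) (a (b (b (a (b (a (l 15853688) (l 15854576)) (l 15853480)) (b (l 15857088) (c (l 15870792) (l 15841256)))) (a (l 15852832) (l 15854952))) (a (l 15851880) (l 15853008))) (b (b (a (b (l 15862360) (c (l 15874464) (l 15847472))) (b (l 15869632) (c (l 15880240) (l 15855624)))) (a (l 15859432) (l 15866000))) (a (l 15856584) (l 15862320))))) (a (b (a (b (l 15851376) (l 15851856)) (b (l 15851152) (l 15850280))) (a (b (l 15853472) (l 15856392)) (b (l 15850544) (l 15852080)))) (b (a (b (l 15853504) (l 15851384)) (b (l 15858120) (l 15854864))) (a (c (l 15863320) (l 15837320)) (b (l 15852688) (l 15851752)))))) (b (b (a (a (b (l 15891760) (c (l 15894560) (l 15872224))) (b (l 15903464) (c (l 15904576) (l 15884320)))) (a (b (l 15916384)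 (c (l 15915968) (l 15897672))) (b (l 15930392) (c (l 15928584) (l 15912128))))) (a (b (b (a (b (l 15878680) (c (l 15887896) (l 15865512))) (c (l 15898224) (l 15877936))) (a (l 15874424) (l 15884496))) (a (l 15869984) (l 15879360))) (b (b (a (a (l 15897056) (l 15903376)) (l 15913352)) (a (c (l 15905128) (l 15886896)) (c (l 15917064) (l 15900712)))) (a (l 15890240) (l 15902464))))) (a (b (a (b (l 15864760) (l 15860440)) (b (l 15873176) (l 15867880))) (a (l 15876968) (l 15861936))) (b (a (b (l 15883176) (l 15876984)) (b (l 15894584) (l 15887552))) (a (l 15869632) (l 15878896)))))), by decide +kernel⟩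

def k37_pm_101 : ∃ t, chk3 f_pm_101 t 3 2 1 = true :=
  ⟨(l 14), by decide +kernel⟩

def k38_pm_101 : ∃ t, chk3 f_pm_101 t 6 12 1 = true :=
  ⟨(a (b (l 14) (a (b (b (l 14) (a (c (l 16483816) (l 16468368)) (a (l 14) (l 14)))) (a (b (c (l 16460120) (l 16432040)) (c (l 16436840) (l 16417072))) (b (a (c (l 16482520) (l 16465992)) (c (l 16497000) (l 16481104))) (a (l 16456048) (c (l 16474176) (l 16456320)))))) (b (l 14) (b (a (a (c (l 16511104) (l 16495792)) (l 14)) (l 14)) (a (a (c (l 16488464) (l 16471272)) (c (l 16502384) (l 16485800))) (a (b (l 14) (l 16460712)) (l 14))))))) (l 14)), by decide +kernel⟩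

def k39_pm_101 : ∃ t, chk3 f_pm_101 t 12 26 1 = true :=
  ⟨(a (b (a (c (b (l 16414168) (l 16392056)) (b (l 16392264) (l 16368056))) (b (a (l 16427448) (l 16455088)) (c (l 16422784) (l 16400704)))) (a (c (b (l 16370480) (l 16349400)) (b (l 16344432) (l 16321336))) (b (c (l 16401504) (l 16377544)) (c (l 16380696) (l 16354896))))) (b (a (c (b (a (l 16466392) (l 16480488)) (a (l 16444864) (l 16459120))) (b (a (l 16447352) (l 16462120)) (a (l 16424008) (l 16439008)))) (c (b (a (l 16494208) (l 16486576)) (b (l 16443120) (l 16432680))) (b (a (l 16476472) (l 16490424)) (a (l 16453592) (l 16467752))))) (a (c (b (a (l 16423824) (l 16438240)) (a (l 16403240) (l 16417808))) (b (l 16419368) (l 16397160))) (c (b (b (l 16422352) (l 16412144)) (b (l 16402048) (l 16392048))) (b (a (l 16431224) (l 16445592)) (a (l 16409352) (l 16423920))))))), by decide +kernel⟩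

def k40_pm_101 : ∃ t, chk3 f_pm_101 t 12 27 1 = true :=
  ⟨(a (b (a (b (b (l 16319920) (a (l 16300960) (l 16317648))) (c (l 16306824) (l 16276048))) (a (b (c (l 16352264) (l 16324064)) (c (l 16331528) (l 16302408))) (b (l 16355328) (c (l 16347600) (l 16298488))))) (a (b (c (l 16284928) (l 16253664)) (c (l 16263384) (l 16231680))) (c (b (l 16317632) (l 16296168)) (b (l 16288768) (l 16267160))))) (b (a (b (c (l 16411448) (l 16364928)) (b (a (c (l 16367992) (l 16340792)) (l 16391576)) (a (l 16344712) (c (l 16373008) (l 16346328))))) (c (b (b (l 16382144) (l 16372328)) (b (l 16362600) (a (l 16387608) (l 16401752)))) (b (a (l 16387912) (l 16402672)) (b (l 16379616) (a (l 16361640) (l 16376528)))))) (a (b (c (a (l 16341416) (l 16356848)) (a (l 16314008) (l 16330264))) (c (a (l 16320104) (l 16335688)) (a (l 16292792) (l 16309352)))) (a (b (c (l 16371920) (l 16346048)) (c (l 16350944) (l 16325472))) (b (c (b (l 16391944) (l 16381400)) (b (l 16366536) (l 16356256))) (c (l 16344856) (l 16341120))))))),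 by decide +kernel⟩

def k41_pm_101 : ∃ t, chk3 f_pm_101 t 26 13 1 = true :=
  ⟨(b (b (b (a (a (b (l 14) (l 58014990279)) (l 14)) (l 1)) (a (c (a (l 16478664) (l 16512384)) (a (l 16481504) (l 16460776))) (a (c (l 16524752) (l 77342360103)) (l 1)))) (a (c (b (a (l 16458248) (l 16492112)) (c (l 16470360) (l 16419048))) (b (a (l 16459544) (l 16452104)) (a (l 16438056) (l 16451760)))) (b (a (c (l 16504616) (l 61773057799)) (c (l 16516728) (l 74657987735))) (c (a (l 16484904) (l 16497128)) (a (l 16444064) (l 54793718039)))))) (b (a (c (b (c (l 16451120) (l 16399208)) (c (l 16432216) (l 16379712))) (b (a (l 16416992) (l 16430864)) (a (l 16396312) (l 16410352)))) (b (c (a (l 16465568) (l 16477904)) (a (l 16423328) (l 16425832))) (c (a (l 16446568) (l 16459016)) (a (l 16381992) (a (l 16433816) (l 16440264)))))) (a (b (c (b (a (l 16406008) (l 16419408)) (l 16407944)) (b (a (l 16381144) (l 16416096)) (a (l 16371096) (l 16385376)))) (c (a (l 16338376) (l 16394376)) (a (l 16356256) (c (l 16377192)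 (l 16364248))))) (b (c (b (a (l 16432480) (l 16445040)) (a (l 16423040) (l 16409464))) (b (a (l 16408856) (l 16422104)) (a (b (l 16401520) (l 16396712)) (b (l 16414640) (l 16388960))))) (c (a (l 16407976) (l 16400104)) (a (c (l 16391104) (l 16378448)) (a (l 16374088) (l 16359688)))))))), by decide +kernel⟩

def k42_pm_101 : ∃ t, chk3 f_pm_101 t 27 13 1 = true :=
  ⟨(b (b (l 1) (a (b (l 1) (a (b (l 1) (l 73584221431)) (l 1))) (l 1))) (a (c (b (b (a (l 16489816) (l 16501304)) (a (l 16471016) (l 16461608))) (b (a (b (l 16457112) (l 16447824)) (l 16443096)) (a (b (l 16438560) (l 16428840)) (b (b (l 16451752) (l 16446856)) (l 16439800))))) (a (b (b (l 48351250983) (a (l 16425624) (l 16431840))) (b (b (l 16413872) (b (l 16427456) (l 16401560))) (b (a (l 16412536) (l 16397816)) (l 16385784)))) (b (b (l 68752371831) (l 42445653799)) (b (b (l 16426136) (l 16416336)) (b (b (l 16409056) (l 16404584)) (l 16387592)))))) (b (b (l 1) (a (c (l 16471680) (c (l 16457960) (l 16447248))) (l 1))) (b (a (c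 (l 16451624) (c (l 16438648) (l 16427192))) (c (l 16460424) (c (l 16470736) (l 16438728)))) (a (b (a (c (l 16455544) (l 16410336)) (c (l 16459800) (l 16421304))) (c (l 16447808) (c (l 16436432) (l 16424696)))) (b (c (l 16466312) (l 16429768)) (b (c (l 16458776) (l 59625505255)) (c (l 16453792) (l 16439544))))))))), by decide +kernel⟩

def k43_pm_101 : ∃ t, chk3 f_pm_101 t 7 6 1 = true :=
  ⟨(b (l 1) (a (b (l 1) (a (b (l 1) (a (a (b (l 1) (b (l 1) (c (l 73584234023) (l 115996960983)))) (l 1)) (l 1))) (l 1))) (l 1))), by decide +kernel⟩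

def k44_pm_101 : ∃ t, chk3 f_pm_101 t 12 28 1 = true :=
  ⟨(a (b (a (b (c (l 16242144) (l 16210040)) (c (l 16220792) (l 16188504))) (c (b (l 16264464) (l 16243080)) (b (l 16224880) (a (l 16215680) (l 16233456))))) (a (b (c (l 16198968) (l 16166872)) (c (l 16197720) (a (l 16135960) (l 16154320)))) (b (c (a (l 16223512) (l 16239752)) (a (l 16194184) (l 16212120))) (c (a (l 16201144) (l 16217360)) (a (l 16172552) (l 16190624)))))) (b (a (b (c (a (l 16299016) (l 16314736)) (a (l 16271848) (l 16288704))) (c (a (l 16277728) (l 16293560)) (a (l 16250928) (l 16268056)))) (a (b (c (l 16330152) (l 16305152)) (c (l 16309120) (l 16284816))) (b (c (l 16345232) (l 16321160)) (c (l 16324384) (l 16301176))))) (a (b (c (a (l 16255856) (l 16271776)) (a (l 16229800) (l 16247192))) (c (a (l 16233480) (l 16249472)) (a (l 16208488) (l 16226120)))) (b (c (a (l 16287480) (l 16302912)) (a (l 16264256) (l 16280952))) (c (a (l 16265280) (l 16280872)) (a (l 16243464) (l 16260496))))))), by decide +kernel⟩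

def k45_pm_101 : ∃ t, chk3 f_pm_101 t 12 29 1 = true :=
  ⟨(a (b (a (c (b (a (l 16146232) (l 16162288)) (a (l 16123664) (l 16139480))) (b (a (l 16114216) (l 16132536)) (a (l 16092496) (l 16110720)))) (b (c (a (l 16178424) (l 16194568)) (a (l 16150808) (l 16168984))) (c (a (l 16155448) (l 16171488)) (a (l 16128984) (l 16147232))))) (a (c (b (a (l 16101048) (l 16116576)) (a (l 16078504) (l 16093688))) (b (a (l 16070856) (l 16088928)) (a (l 16049360) (l 16067216)))) (c (b (a (l 16132320) (l 16148224)) (a (l 16109176) (l 16124888))) (b (a (l 16107128) (l 16125384)) (a (l 16085288) (l 16103512)))))) (b (a (c (b (a (l 16210688) (l 16226720)) (a (l 16187560) (l 16203608))) (b (a (l 16187008) (l 16204856)) (a (l 16165384) (l 16183416)))) (b (c (a (l 16242616) (l 16258336)) (a (l 16222464) (l 16239808))) (c (a (l 16219568) (l 16235400)) (a (l 16201272) (l 16218904))))) (a (b (c (a (l 16164216) (l 16180232)) (a (l 16143648) (l 16161840))) (c (a (l 16140760) (l 16156720)) (a (b (l 16127296) (l 16116368))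 (l 16140144)))) (b (c (a (l 16196232) (l 16212144)) (a (l 16179912) (l 16182088))) (c (a (l 16172712) (l 16188688)) (a (b (l 16163808) (l 16153024)) (l 16159528))))))), by decide +kernel⟩

def k46_pm_101 : ∃ t, chk3 f_pm_101 t 13 14 2 = true :=
  ⟨(b (a (b (a (b (a (l 16318000) (l 16374256)) (a (l 16297368) (l 16311928))) (b (a (l 16388128) (l 16391048)) (a (l 16368016) (l 16360736)))) (a (b (a (l 16276096) (l 16290888)) (a (l 16296192) (l 16269256))) (b (a (l 16347240) (l 16361232)) (a (c (l 16308608) (l 16321976)) (l 16340144))))) (b (a (b (a (c (l 16417408) (l 16409528)) (b (l 16430360) (l 16420920))) (a (c (l 16399072) (l 16390432)) (b (l 16411416) (l 16401824)))) (b (a (a (l 16410360) (l 16414280)) (a (l 16418304) (l 16422456))) (a (b (l 16418672) (l 16408832)) (b (l 16426320) (l 16416208))))) (a (b (a (l 16364280) (b (l 16392144) (l 16382376))) (a (l 16333024) (l 16356888))) (b (a (b (l 16398904) (l 16388896)) (b (l 16406016) (l 16395744))) (a (b (l 16378808) (l 16368632)) (b (l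 16385392) (l 16374960))))))) (a (b (a (b (a (l 16273832) (b (l 16294648) (l 16283456))) (a (l 16251048) (b (l 16272160) (l 16260776)))) (b (a (b (l 16309496) (l 16298432)) (l 16318520)) (a (b (l 16287248) (l 16275976)) (a (l 16292760) (l 16279112))))) (a (b (a (l 16227928) (l 16248768)) (a (l 16204576) (l 16220328))) (b (a (b (l 16264608) (l 16253168)) (b (l 16279624) (l 16268312))) (a (b (l 16241672) (l 16230120)) (b (l 16256936) (l 16245504)))))) (b (a (b (a (l 16332680) (l 16325432)) (a (l 16310896) (l 16324952))) (b (a (l 16332256) (l 16348680)) (a (l 16311448) (l 16327368)))) (a (b (a (l 16288720) (l 16303104)) (a (c (l 16245832) (l 16244712)) (l 16280944))) (b (a (l 16311328) (l 16311008)) (a (l 16269008) (c (l 16295960) (l 16271800)))))))), by decide +kernel⟩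

def k47_pm_101 : ∃ t, chk3 f_pm_101 t 13 28 3 = true :=
  ⟨(a (b (a (b (a (l 16336688) (b (l 16356504) (l 16346960))) (a (l 16317104) (b (l 16337384) (l 16327728)))) (b (a (c (l 16372088) (l 16360112)) (a (l 16355760) (l 16341608))) (a (b (l 16352216) (l 16342792)) (a (l 16337400) (l 16344464))))) (a (b (a (l 16297256) (c (l 16318376) (l 16307648))) (a (l 16277160) (b (l 16298392) (l 16288480)))) (b (a (b (l 16333304) (l 16323744)) (a (l 16318768) (l 16326080))) (a (b (l 16314120) (l 16304432)) (a (l 16320848) (l 16307440)))))) (b (a (b (a (c (l 16378088) (l 16366736)) (b (l 16389504) (l 16380952))) (c (a (l 16359872) (l 16393928)) (a (l 16349520) (l 16362936)))) (b (a (b (l 16390912) (l 16382640)) (c (l 16424376) (c (l 16405872) (l 16400312)))) (a (c (l 16406384) (l 16396664)) (b (l 16386112) (l 16388512))))) (a (b (a (c (l 16341296) (l 16332136)) (c (l 16375832) (l 16346144))) (a (c (l 16322360) (l 16314576)) (c (l 16357384) (l 16350144)))) (b (a (c (l 16388808) (l 16380480)) (c (l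 16379352) (l 16393184))) (a (b (l 16371872) (l 16363232)) (a (l 16356080) (l 16358664))))))), by decide +kernel⟩

def k48_pm_101 : ∃ t, chk3 f_pm_101 t 13 29 3 = true :=
  ⟨(a (b (a (b (a (l 16256832) (b (l 16278512) (l 16268488))) (a (l 16231032) (c (l 16256816) (l 16249704)))) (b (a (b (l 16294680) (l 16284872)) (a (l 16301696) (l 16288528))) (a (b (l 16274992) (l 16265064)) (b (l 16291184) (l 16281488))))) (a (b (a (l 16210264) (b (l 16238064) (l 16227816))) (a (l 16186696) (b (l 16217520) (l 16207176)))) (b (a (b (l 16255080) (l 16245032)) (b (l 16271728) (l 16261912))) (a (b (l 16234944) (l 16224800)) (b (l 16252048) (l 16242128)))))) (b (a (b (a (c (l 16303088) (l 16296824)) (b (l 16340360) (l 16331304))) (a (b (l 16285952) (l 16276504)) (l 16307104))) (b (a (b (l 16354520) (l 16345744)) (b (l 16361680) (l 16350488))) (a (l 16319608) (b (l 16339224) (l 16306920))))) (a (b (a (b (l 16267000) (l 16257432)) (l 16278136)) (a (l 16263944) (l 16259424))) (b (a (l 16297544) (b (l 16295504)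 (l 16284008))) (a (l 16277144) (c (l 16268392) (l 16264768))))))), by decide +kernel⟩

def k49_pm_101 : ∃ t, chk3 f_pm_101 t 24 30 1 = true :=
  ⟨(b (a (b (c (a (l 16056240) (l 16071008)) (a (l 16028192) (l 16045760))) (c (a (l 16034040) (l 16048328)) (a (l 16006792) (l 16024008)))) (b (c (a (l 16086184) (l 16101664)) (a (l 16063640) (b (l 16087128) (l 16076240)))) (c (a (l 16063128) (l 16078328)) (a (l 16041632) (b (l 16065240) (l 16053888)))))) (a (b (c (a (l 16011608) (l 16025352)) (a (l 15984464) (l 16001240))) (c (a (b (l 15994928) (l 15984016)) (b (l 16008200) (l 15996944))) (a (b (l 15967456) (l 15956224)) (b (l 15983848) (l 15972336))))) (b (c (a (l 16039704) (l 16054560)) (a (b (l 16024408) (l 16012664)) (b (l 16042208) (l 16030336)))) (c (a (l 16016368) (b (l 16036728) (l 16024976))) (a (b (l 16000856) (l 15989120)) (b (l 16018384) (l 16006480))))))), by decide +kernel⟩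

def k50_pm_101 : ∃ t, chk3 f_pm_101 t 25 30 1 = true :=
  ⟨(b (a (b (c (a (l 16117368) (b (l 16139064) (l 16127328))) (a (b (l 16105440) (l 16094528)) (b (l 16123824) (l 16112944)))) (c (a (l 16093832) (b (l 16115536) (l 16103576))) (a (b (l 16083496) (l 16072088)) (b (l 16101928) (l 16090512))))) (b (c (a (l 16170168) (b (l 16171040) (l 16159272))) (a (b (l 16142216) (l 16131408)) (b (l 16160544) (l 16149840)))) (c (a (b (l 16131448) (l 16119440)) (b (l 16147440) (l 16135416))) (a (b (l 16120448) (l 16109080)) (b (l 16138984) (l 16127704)))))) (a (b (c (a (l 16080304) (b (l 16091472) (l 16079312))) (a (b (l 16060352) (l 16048392)) (b (l 16078752) (l 16066760)))) (c (a (b (l 16051760) (l 16039840)) (b (l 16067160) (l 16055120))) (a (b (l 16036344) (l 16024336)) (b (l 16054664) (l 16042592))))) (b (c (a (b (l 16107288) (l 16095064)) (b (l 16123240) (l 16110992))) (a (b (l 16097352) (l 16085376)) (b (l 16116056) (l 16104144)))) (c (a (b (l 16082856) (l 16070736)) (b (l 16098736) (l 16086576)))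 (a (b (l 16073264) (l 16061176)) (b (l 16092088) (l 16080024))))))), by decide +kernel⟩

def k51_pm_101 : ∃ t, chk3 f_pm_101 t 24 31 1 = true :=
  ⟨(b (b (a (c (a (b (l 15973376) (l 15963096)) (b (l 15985944) (l 15975280))) (a (b (l 15945360) (c (l 15942264) (l 15927584))) (b (l 15961168) (l 15950488)))) (c (a (b (l 15999336) (l 15988360)) (b (l 16013432) (l 16002192))) (a (b (l 15977712) (l 15966768)) (b (l 15994888) (l 15983744))))) (a (b (c (b (a (l 15955704) (l 15967576)) (a (b (l 15952128) (l 15949712)) (b (l 15963800) (l 15961280)))) (b (a (l 15927600) (l 15942816)) (a (a (l 15919336) (l 15926584)) (a (l 15934072) (l 15941792))))) (c (a (l 15943880) (l 15955040)) (a (l 15915880) (l 15930352)))) (b (c (b (a (l 15980400) (l 15994024)) (a (b (l 15976456) (l 15973856)) (b (l 15989992) (l 15987344)))) (a (b (l 15958880) (b (l 15954968) (l 15952392))) (b (l 15975696) (b (l 15971712) (l 15969080))))) (c (a (l 15967232) (l 15980328)) (a (l 15945776) (l 15962040)))))) (a (b (c (a (b (l 15935160)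 (l 15927304)) (b (l 15945632) (l 15937072))) (a (b (l 15907232) (l 15899416)) (b (l 15920992) (l 15912432)))) (c (a (l 15917440) (l 15926088)) (a (l 15889536) (l 15901400)))) (b (c (a (b (l 15957200) (l 15947984)) (l 15985648)) (a (b (l 15935736) (l 15926480)) (b (l 15951368) (l 15941448)))) (c (a (l 15935968) (l 15946904)) (a (l 15914360) (l 15928288)))))), by decide +kernel⟩

def k52_pm_101 : ∃ t, chk3 f_pm_101 t 25 31 1 = true :=
  ⟨(b (b (a (c (a (b (l 16028112) (l 16016664)) (b (l 16043256) (l 16031664))) (a (b (l 16012608) (l 16001312)) (b (l 16030784) (l 16019400)))) (c (a (b (l 16058776) (l 16047072)) (b (l 16074568) (l 16062800))) (a (b (l 16049336) (l 16037904)) (b (l 16068192) (l 16056752))))) (a (b (c (a (b (l 16008336) (b (l 16004264) (l 16001544))) (b (l 16023208) (b (l 16019072) (l 16016304)))) (a (b (l 15993144) (b (l 15989152) (l 15986456))) (b (l 16011144) (b (l 16007104) (l 16004376))))) (c (a (l 15994184) (l 16008688)) (a (l 15979048) (l 15996688)))) (b (c (a (b (l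 16038528) (l 16032824)) (b (l 16054208) (l 16048480))) (a (a (l 16022032) (l 16031384)) (c (l 16046952) (l 16044216)))) (c (a (l 16023728) (l 16039200)) (a (l 16014888) (l 16033552)))))) (a (b (c (a (l 15977704) (l 15991440)) (a (b (l 15967776) (l 15957232)) (l 16000152))) (c (a (l 15958752) (l 15971384)) (a (l 15943088) (l 15958656)))) (b (c (a (l 16005760) (l 16041528)) (a (l 16017544) (l 16045936))) (c (a (l 15984664) (l 15998488)) (a (l 15974896) (l 15991712)))))), by decide +kernel⟩

def k53_pm_101 : ∃ t, chk3 f_pm_101 t 26 30 1 = true :=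
  ⟨(b (a (b (c (a (b (l 16186992) (l 16175256)) (b (l 16202840) (l 16191168))) (a (b (l 16178752) (l 16168192)) (b (l 16196800) (l 16186400)))) (c (a (b (l 16163448) (l 16151448)) (b (l 16179416) (l 16167456))) (a (b (l 16157464) (l 16146312)) (b (l 16175824) (l 16164832))))) (b (c (a (b (l 16218544) (l 16206952)) (b (l 16234032) (l 16222544))) (a (b (l 16214616) (l 16204408)) (b (l 16232160) (l 16222168)))) (c (a (b (l 16195280) (l 16183384)) (b (l 16210976) (l 16199184))) (a (b (l 16194024) (l 16183208)) (b (l 16212000) (l 16201392)))))) (a (b (a (c (b (l 16139272) (l 16127016)) (b (l 16134776) (l 16122976))) (c (b (l 16155320) (l 16143096)) (b (l 16153448) (l 16141792)))) (c (a (b (l 16114760) (l 16102584)) (b (l 16130856) (l 16118688))) (a (b (l 16111016) (l 16099032)) (b (l 16129968) (l 16118112))))) (c (b (a (b (l 16171320) (l 16159152)) (b (l 16187208) (l 16175120))) (a (b (l 16146960) (l 16134832)) (b (l 16163016) (l 16150952)))) (b (a (b (l 16172008) (l 16160520)) (c (l 16162808)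 (l 16164872))) (a (b (l 16148872) (l 16137176)) (b (l 16146688) (l 16135192))))))), by decide +kernel⟩

def k54_pm_101 : ∃ t, chk3 f_pm_101 t 27 30 1 = true :=
  ⟨(b (a (b (c (a (a (l 16218864) (l 16226440)) (l 16237664)) (a (b (l 16249376) (l 16239624)) (l 16245856))) (c (a (b (l 16205488) (l 16193816)) (l 16225448)) (a (b (l 16229696) (l 16219328)) (b (l 16245200) (l 16233728))))) (b (c (a (l 16257952) (c (l 16274136) (l 16249456))) (a (b (l 16268680) (l 16257264)) (c (l 16245352) (l 16240880)))) (a (c (b (l 16252072) (l 16241000)) (c (l 16241664) (l 16216848))) (c (b (l 16255576) (l 16244248)) (c (l 16221800) (l 16216344)))))) (a (b (c (a (b (l 16181952) (l 16169984)) (b (l 16218424) (l 16206584))) (a (b (l 16208568) (l 16197512)) (b (l 16221976) (l 16210008)))) (c (a (c (l 16139864) (l 16132744)) (c (l 16186528) (l 16191144))) (a (b (l 16186280) (l 16175000)) (b (l 16197872) (l 16185632))))) (b (c (a (b (l 16229776) (l 16218456)) (b (l 16232776) (l 16221192))) (a (c (l 16217960) (l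 16192080)) (c (l 16197384) (l 16206464)))) (c (a (c (l 16201528) (l 16198976)) (a (l 16182152) (l 16183320))) (a (c (l 16193584) (l 16166432)) (c (l 16172296) (l 16185216))))))), by decide +kernel⟩

def k55_pm_101 : ∃ t, chk3 f_pm_101 t 13 62 1 = true :=
  ⟨(a (a (b (a (c (b (l 16090552) (l 16078760)) (b (l 16087272) (l 16075880))) (c (b (l 16106656) (l 16094864)) (b (l 16106472) (l 16095168)))) (b (a (c (c (l 16067968) (l 16066544)) (c (l 16065328) (l 16064320))) (c (c (l 16083400) (l 16083488)) (l 16073760))) (c (a (a (l 16051024) (l 16059040)) (b (l 16074576) (l 16067648))) (a (a (l 16047816) (l 16057472)) (b (l 16075600) (l 16068512)))))) (b (b (c (a (l 16122840) (l 16139024)) (a (l 16125688) (l 16123888))) (c (a (l 16111064) (c (l 16125976) (l 16128760))) (a (l 16114544) (l 16112920)))) (a (b (c (l 16094376) (l 16093272)) (a (c (l 16104304) (l 16086800)) (c (l 16112464) (l 16096648)))) (b (c (c (l 16114416) (l 16117536)) (l 16081336)) (c (b (b (l 16108864) (l 16105432)) (l 16100032))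 (a (l 16075048) (l 16084904))))))) (b (a (c (a (b (l 16113200) (l 16112056)) (b (l 16171144) (l 16138648))) (a (c (l 16155992) (l 16161192)) (a (l 16146800) (l 16145920)))) (c (a (c (l 16156976) (l 16175656)) (b (l 16186192) (l 16153600))) (a (c (l 16169072) (l 16140560)) (c (l 16136560) (l 16158472))))) (a (b (a (c (c (l 16129976) (l 16113608)) (l 16121784)) (c (l 16127432) (l 16149232))) (c (a (b (b (l 16104248) (l 16121880)) (l 16095392)) (b (c (l 16136864) (l 16143216)) (l 16132688))) (a (b (l 16113720) (l 16127336)) (b (l 16140688) (l 16137352))))) (b (c (a (l 16140712) (l 16142072)) (a (l 16104752) (c (l 16149208) (l 16138504)))) (c (b (a (l 16132688) (l 16133776)) (a (l 16148960) (l 16151160))) (b (a (c (l 16142192) (l 16133056)) (l 16139888)) (a (l 16134360) (l 16131080)))))))), by decide +kernel⟩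

def k56_pm_101 : ∃ t, chk3 f_pm_101 t 13 63 1 = true :=
  ⟨(a (a (b (c (a (b (l 16042000) (l 16029680)) (b (l 16057664) (l 16044928))) (a (b (l 16039280) (l 16026584)) (b (l 16058216) (l 16045056)))) (c (a (l 16012752) (l 16027352)) (a (l 16009024) (l 16026752)))) (c (b (a (b (l 16073504) (l 16060384)) (b (l 16089480) (l 16075984))) (a (l 16042192) (l 16057192))) (a (b (b (l 16077432) (l 16063832)) (l 16044816)) (b (b (l 16075824) (l 16082800)) (l 16063160))))) (b (a (c (a (b (l 16063592) (l 16091664)) (a (l 16110424) (l 16118376))) (a (b (l 16116216) (l 16101880)) (l 16086256))) (a (c (a (l 16126312) (l 16134224)) (l 16106760)) (c (b (l 16147048) (l 16138712)) (b (l 16127344) (l 16122520))))) (a (c (a (l 16030360) (l 16045520)) (a (l 16081640) (l 16100200))) (c (a (l 16102632) (l 16117744)) (l 16072304))))), by decide +kernel⟩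

def k57_pm_101 : ∃ t, chk3 f_pm_101 t 14 28 1 = true :=
  ⟨(a (b (a (b (a (c (c (l 16449856) (l 16429112)) (b (l 49424957495) (l 38150654983))) (b (l 1) (c (l 16453784) (l 63383609751)))) (a (c (c (l 16408600) (l 16429064)) (b (l 16402408) (l 16399880))) (c (c (l 60162372055) (l 16426896)) (b (l 45666861783) (l 16409720))))) (a (a (b (l 1) (c (l 26876418183) (l 55867415015))) (l 1)) (l 1))) (a (b (a (c (c (l 16387984) (l 16407752)) (c (l 16385856) (l 16384208))) (c (b (l 16400720) (l 16389864)) (b (l 16398096) (l 16407376)))) (c (a (b (l 16371424) (l 16360712)) (b (l 16378936) (l 16388896))) (a (a (l 16361368) (l 16364200)) (b (l 16395608) (l 16362792))))) (b (b (a (c (l 16409432) (l 16416192)) (l 1)) (c (a (l 16398264) (l 16407312)) (a (l 16414584) (l 16422520)))) (c (a (b (l 16387024) (l 16375704)) (b (l 16395752) (l 16384112))) (a (b (l 16381432) (l 16369176)) (b (l 50498649511) (l 21507595559))))))) (b (l 1) (a (a (a (b (l 1) (c (l 114923161575) (l 111165050071))) (l 1)) (l 1)) (l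 1)))), by decide +kernel⟩

def k58_pm_101 : ∃ t, chk3 f_pm_101 t 28 29 1 = true :=
  ⟨(b (a (b (a (c (c (l 16345760) (l 16343272)) (b (l 16366504) (l 16333944))) (c (c (l 16352912) (l 16349648)) (b (l 16350872) (l 16338880)))) (b (c (a (l 16349096) (l 16355424)) (a (l 16322280) (l 16347776))) (c (a (l 16338088) (l 16344120)) (a (l 16331512) (l 16335616))))) (b (b (c (a (l 16385280) (l 16372392)) (a (l 16356840) (c (l 16386688) (l 16382248)))) (c (a (l 16373816) (l 16381576)) (a (l 16344416) (c (l 16374128) (l 16369088))))) (b (c (a (l 16362272) (l 16369712)) (a (l 16331912) (c (l 16361480) (l 16355840)))) (c (a (l 16350656) (l 16357776)) (a (l 16340296) (a (l 16344240) (l 16347096))))))) (a (b (b (c (a (l 16327008) (l 16332744)) (a (l 16319696) (l 16323376))) (c (a (l 16315864) (l 16321304)) (a (l 16307792) (l 16311048)))) (c (a (c (l 16280192) (l 16275848)) (c (l 16285728) (l 16280272))) (a (c (l 16271224) (l 16266304)) (b (l 16298632) (l 16286128))))) (c (b (a (b (l 16338968) (l 16327216))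 (b (l 16345760) (l 16333680))) (a (b (l 16315392) (l 16303504)) (b (l 16321528) (l 16309312)))) (b (a (b (l 16327624) (l 16314856)) (b (a (l 16331232) (l 16333864)) (l 16320376))) (a (b (l 16302008) (l 16289056)) (b (l 16306008) (l 16292600))))))), by decide +kernel⟩

def k59_pm_101 : ∃ t, chk3 f_pm_101 t 29 29 1 = true :=
  ⟨(a (a (b (b (c (b (l 16381152) (l 16369024)) (b (c (l 16394448) (l 16389296)) (c (l 16381480) (l 16375680)))) (c (b (l 16356824) (l 16344552)) (b (c (l 16368416) (l 16361952)) (c (l 16355272) (l 16348120))))) (b (c (b (l 16332208) (l 16319784)) (b (b (l 16320584) (l 16313768)) (b (l 16306936) (l 16300080)))) (c (b (l 16307296) (l 16305224)) (b (b (l 16293192) (l 16286280)) (b (l 16279344) (l 16272384)))))) (b (b (b (l 1) (c (l 16378144) (l 106870046887))) (c (b (l 16365616) (l 16352992)) (b (c (l 16376120) (l 16368872)) (c (l 16362544) (l 16354568))))) (b (c (b (l 16340304) (l 16327536)) (b (a (l 16342880) (l 16346288)) (b (l 16312992) (l 16305896)))) (c (b (l 16314696)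 (l 16312264)) (b (b (l 16298776) (l 16291632)) (b (l 16284456) (l 16277256))))))) (a (b (b (l 1) (b (l 1) (c (l 16362152) (l 82710830455)))) (b (c (b (l 16349120) (l 16335992)) (b (c (l 16356528) (l 16346952)) (a (l 16335408) (l 16339008)))) (c (b (l 16322792) (l 16320008)) (b (a (l 16320808) (l 16324168)) (a (l 16306104) (l 16309208)))))) (b (l 1) (b (b (l 1) (c (l 16345192) (l 59088476199))) (c (b (l 16331640) (l 16317992)) (b (a (l 16327736) (l 16331528)) (a (l 16312536) (l 16316088)))))))), by decide +kernel⟩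

def k60_pm_101 : ∃ t, chk3 f_pm_101 t 15 14 1 = true :=
  ⟨(b (l 1) (a (b (l 1) (b (l 1) (b (l 1) (a (a (c (l 16327232) (l 16321840)) (l 1)) (l 1))))) (l 1))), by decide +kernel⟩

def k61_pm_101 : ∃ t, chk3 f_pm_101 t 28 30 1 = true :=
  ⟨(b (a (b (b (a (c (l 16261088) (l 16271568)) (c (l 16286600) (l 16273528))) (a (c (l 16249712) (l 16259320)) (c (l 16274920) (l 16260848)))) (c (a (b (l 16238256) (l 16226640)) (b (l 16242184) (l 16230264))) (a (b (l 16246928) (l 16234264)) (b (l 16248016) (l 16234928))))) (c (b (a (b (l 16291560) (l 16279560)) (b (l 16297032) (l 16274208))) (a (b (l 16246496) (l 16246056)) (b (a (l 16271016) (l 16273544)) (a (l 16258528) (l 16260880))))) (b (b (a (l 16265528) (l 16273856)) (a (l 16257632) (l 16264184))) (a (b (l 16244352) (l 16230808)) (b (l 16246504) (l 16232504)))))) (a (b (c (a (c (l 16233200) (l 16205488)) (b (l 16218208) (l 16200800))) (a (b (l 16221360) (l 16208232)) (b (l 16221592) (l 16208040)))) (c (a (b (l 16191096) (l 16168640)) (c (a (l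 16212416) (l 16214152)) (l 16203720))) (a (b (l 16194944) (l 16181528)) (b (l 16194320) (l 16180488))))) (c (c (b (b (a (l 16247416) (l 16252216)) (c (l 16218984) (l 16213880))) (b (c (l 16206776) (l 16201328)) (c (l 16194544) (l 16188736)))) (b (a (l 16231640) (l 16234880)) (a (l 16205784) (l 16208288)))) (b (a (b (l 16217032) (l 16203048)) (b (l 16218272) (l 16203832))) (a (b (l 16188888) (l 16174600)) (b (l 16189216) (l 16174472))))))), by decide +kernel⟩

def k62_pm_101 : ∃ t, chk3 f_pm_101 t 29 30 1 = true :=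
  ⟨(b (a (b (c (a (b (l 16292592) (a (l 16288912) (l 16291912))) (b (l 16299280) (b (l 16299984) (l 16293440)))) (b (a (l 16282864) (b (l 16270032) (l 16262776))) (a (a (l 16246928) (l 16248752)) (a (l 16250768) (l 16252976))))) (c (a (b (a (l 16276216) (l 16279040)) (a (l 16263384) (l 16266032))) (b (a (l 16282024) (l 16285168)) (a (l 16268832) (l 16271792)))) (a (b (b (l 16237168) (l 16230000)) (l 16234848)) (b (b (l 16240832) (l 16233424)) (l 16240536))))) (b (c (a (b (l 16306656) (a (l 16301904) (l 16305584))) (b (l 16304272) (c (l 16317888) (l 16304768)))) (b (a (b (l 16275464) (l 16267968)) (l 16298848)) (a (b (l 16260432) (l 16252880)) (l 16283296)))) (c (c (b (a (l 16296536) (l 16304392)) (a (l 16283264) (l 16290768))) (a (c (l 16259064) (l 16252152)) (l 16285848))) (a (b (l 16262424) (l 16244368)) (b (l 16267584) (l 16251640)))))) (c (c (a (b (a (c (l 16254056) (l 16227152)) (c (l 16260072) (l 16232536))) (a (a (l 16224248) (l 16226616)) (a (l 16229128) (l 16231784)))) (a (b (a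 (l 16261504) (l 16264824)) (l 16236056)) (b (l 16272744) (l 16242312)))) (b (a (a (l 16238672) (l 16244392)) (a (l 16248152) (l 16253952))) (a (a (l 16206072) (l 16209680)) (a (l 16219192) (l 16224160))))) (b (b (a (a (l 16220152) (l 16222728)) (a (l 16226072) (l 16230232))) (a (a (l 16205240) (l 16207344)) (a (l 16210200) (l 16213864)))) (a (a (b (l 16190160) (l 16174944)) (b (l 16191784) (l 16176088))) (a (b (l 16194152) (l 16177960)) (b (l 16197320) (l 16180624))))))), by decide +kernel⟩

def k63_pm_101 : ∃ t, chk3 f_pm_101 t 28 62 1 = true :=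
  ⟨(b (a (c (a (b (l 16156664) (c (l 16180784) (l 16171272))) (b (c (l 16195344) (l 16184744)) (c (l 16183408) (l 16172120)))) (c (a (l 16167008) (l 16166224)) (a (l 16155528) (l 16152864)))) (a (c (c (c (l 16195320) (l 16189360)) (l 16179760)) (b (l 16165520) (l 16151208))) (c (c (c (l 16199088) (l 16171352)) (l 16181496)) (b (l 16159680) (l 16144888))))) (a (c (b (a (c (l 16169248) (l 16159088)) (c (l 16171568) (l 16159560))) (b (a (b (l 16136040) (l 16122832)) (c (l 16162904) (l 16150320))) (a (l 16151976) (l 16131824)))) (b (a (l 16141360) (l 16138952)) (b (a (l 16131568) (l 16123464)) (c (l 16112216) (l 16097704))))) (c (a (b (a (l 16166960) (l 16167864)) (b (a (l 16157728) (l 16158448)) (l 16153728))) (b (a (l 16168864) (l 16169976)) (b (l 16159768) (b (l 16155608) (l 16154448))))) (b (a (l 16136904) (l 16133040)) (b (a (l 16115728) (l 16113752)) (a (l 16111056) (l 16108512))))))), by decide +kernel⟩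

def k64_pm_101 : ∃ t, chk3 f_pm_101 t 29 62 1 = true :=
  ⟨(c (a (b (c (a (c (l 16182304) (l 16174776)) (c (l 16187000) (l 16178720))) (a (l 16178480) (l 16181280))) (b (a (a (l 16171200) (l 16172544)) (a (l 16174032) (l 16175656))) (a (b (l 16161920) (a (l 16145704) (l 16146672))) (b (l 16164584) (b (l 16149232) (l 16158136)))))) (b (c (a (l 16207464) (l 16214296)) (a (l 16184712) (l 16183576))) (b (a (a (l 16177440) (l 16179368)) (a (l 16181472) (l 16183736))) (a (b (l 16167824) (b (l 16152176) (l 16160696))) (b (l 16171696) (a (l 16153680) (l 16155568))))))) (b (a (a (b (l 16159672) (l 16145696)) (b (l 16160320) (l 16144528))) (a (b (l 16161696) (l 16144072)) (b (l 16158600) (l 16144384)))) (a (b (a (a (l 16113552) (l 16113200)) (b (l 16116944) (l 16109024))) (b (a (l 16112352) (l 16106344)) (a (b (l 16101920) (l 16116384)) (a (l 16094912) (l 16094392))))) (b (a (b (l 16117400) (l 16109216)) (l 16127496)) (a (b (l 16101024) (b (l 16094976) (l 16113872))) (b (l 16101696) (a (l 16093936)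 (l 16094176)))))))), by decide +kernel⟩

def k65_pm_101 : ∃ t, chk3 f_pm_101 t 14 63 1 = true :=
  ⟨(a (b (b (a (c (a (l 16148120) (l 16128184)) (a (l 16124248) (l 16100280))) (c (a (l 16108376) (l 16151728)) (a (l 16097520) (l 16095112)))) (a (c (l 16122840) (a (l 16119760) (l 16117056))) (c (l 16115224) (l 16113408)))) (a (c (c (l 16134896) (l 16131616)) (a (l 16113520) (l 16111240))) (c (l 16119792) (c (l 16095992) (l 16077952))))) (a (c (b (b (a (l 16153472) (l 16155640)) (a (l 16149472) (l 16151808))) (l 16113760)) (b (b (a (l 16093144) (l 16091712)) (l 16099440)) (b (l 16106736) (l 16103816)))) (c (b (c (a (l 16145808) (l 16149896)) (a (l 16124640) (l 16127088))) (c (l 16161624) (l 16119336))) (b (b (a (l 16090864) (l 16111648)) (l 16098104)) (l 16104400))))), by decide +kernel⟩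

def k66_pm_101 : ∃ t, chk3 f_pm_101 t 30 30 1 = true :=
  ⟨(a (a (b (b (c (b (l 16302656) (c (l 16326824) (l 16312784))) (b (l 16305888) (l 16289840))) (c (b (l 16300416) (l 16288616)) (b (l 16273616) (l 16257168)))) (b (c (b (l 16276672) (l 16261984)) (b (l 16240496) (l 16223624))) (c (c (l 16249256) (l 16229880)) (c (l 16198472) (l 16176144))))) (b (b (b (l 1) (c (l 16297752) (l 16297304))) (c (b (l 16307992) (l 16299728)) (b (l 16280552) (l 16263600)))) (b (c (c (l 16286224) (l 16267880)) (b (l 16246416) (l 16229024))) (c (c (l 16256928) (l 16236376)) (b (l 16211456) (l 16193728)))))) (a (b (b (l 1) (b (l 1) (c (l 82710671639) (l 16270968)))) (b (c (c (b (l 16302872) (l 16287928)) (l 16276080)) (b (l 16253256) (l 16235352))) (c (c (l 16265352) (l 16243704)) (c (l 16220376) (l 16174560))))) (b (l 1) (b (b (l 1) (c (l 78415669175) (l 16242648))) (c (c (l 16274576) (l 16251880)) (b (l 16224016) (l 16205232))))))), by decide +kernel⟩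

def k67_pm_101 : ∃ t, chk3 f_pm_101 t 30 31 1 = true :=
  ⟨(b (c (a (a (b (c (l 16220480) (l 16188416)) (b (l 16190088) (b (l 16176248) (l 16171880)))) (b (c (l 16227376) (l 16204520)) (b (l 16193080) (c (l 16169600) (l 16143688))))) (b (c (a (l 16235016) (l 16243432)) (a (l 16210936) (l 16218192))) (c (b (a (l 16212168) (l 16219960)) (a (l 16176096) (l 16204344))) (b (l 16178904) (a (l 16148808) (l 16175760)))))) (b (a (a (b (l 16161568) (l 16144200)) (b (l 16165408) (l 16147496))) (a (b (l 16180632) (l 16151688)) (b (l 16186312) (l 16167296)))) (a (b (a (l 16126768) (l 16129504)) (a (b (l 16124136) (b (l 16117568) (l 16114240))) (b (l 16126456) (l 16104616)))) (b (a (l 16133136) (l 16148168)) (a (b (l 16129648) (l 16109952)) (a (l 16117360) (l 16119576))))))) (a (c (b (a (b (l 16165320) (l 16161864)) (b (l 16169784) (l 16166408))) (c (l 16171312) (l 16125904))) (b (b (a (l 16112160) (l 16113424)) (l 16088912)) (l 16095568))) (b (c (b (a (l 16174920) (l 16180784)) (a (l 16171624) (l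 16177544))) (b (a (l 16115472) (l 16097400)) (l 16093232))) (c (c (l 16183376) (l 16135072)) (l 16110632))))), by decide +kernel⟩

def k68_pm_101 : ∃ t, chk3 f_pm_101 t 31 15 1 = true :=
  ⟨(a (b (a (b (l 1) (b (l 1) (b (l 1) (c (l 54793354279) (l 16212440))))) (l 1)) (b (a (b (c (c (l 16252656) (l 16226328)) (b (l 16192960) (l 16173376))) (c (c (l 16220496) (l 16191400)) (b (l 16153680) (l 16133864)))) (b (c (c (l 16262656) (l 16235336)) (c (l 16205952) (l 16153752))) (c (c (l 16219208) (l 16199448)) (b (l 16160168) (l 16139760))))) (b (c (a (b (l 16187416) (l 16184208)) (c (l 16187696) (l 16156288))) (b (a (l 16101224) (l 16116480)) (l 16100864))) (c (c (l 16198128) (l 16147144)) (l 16118448))))) (b (l 1) (a (b (b (l 1) (c (c (l 16239680) (l 16208384)) (c (l 16174784) (l 16118136)))) (b (c (c (l 16217568) (l 16163968)) (a (l 16124640) (l 269541457879))) (c (l 16195496) (l 16126552)))) (b (l 1) (b (c (l 291553198199) (l 266857116375)) (c (l 16183560) (l 16133104))))))), by decide +kernel⟩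

theorem s69_pm_101 : ∃ t, chk3 f_pm_101 t 30 15 1 = true := ex3_b k66_pm_101 k67_pm_101

theorem s70_pm_101 : ∃ t, chk3 f_pm_101 t 15 15 1 = true := ex3_a s69_pm_101 k68_pm_101

theorem s71_pm_101 : ∃ t, chk3 f_pm_101 t 14 62 1 = true := ex3_a k63_pm_101 k64_pm_101

theorem s72_pm_101 : ∃ t, chk3 f_pm_101 t 14 31 1 = true := ex3_b s71_pm_101 k65_pm_101

theorem s73_pm_101 : ∃ t, chk3 f_pm_101 t 14 30 1 = true := ex3_a k61_pm_101 k62_pm_101

theorem s74_pm_101 : ∃ t, chk3 f_pm_101 t 14 15 1 = true := ex3_b s73_pm_101 s72_pm_101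

theorem s75_pm_101 : ∃ t, chk3 f_pm_101 t 7 15 1 = true := ex3_a s74_pm_101 s70_pm_101

theorem s76_pm_101 : ∃ t, chk3 f_pm_101 t 14 29 1 = true := ex3_a k58_pm_101 k59_pm_101

theorem s77_pm_101 : ∃ t, chk3 f_pm_101 t 14 14 1 = true := ex3_b k57_pm_101 s76_pm_101

theorem s78_pm_101 : ∃ t, chk3 f_pm_101 t 7 14 1 = true := ex3_a s77_pm_101 k60_pm_101

theorem s79_pm_101 : ∃ t, chk3 f_pm_101 t 7 7 1 = true := ex3_b s78_pm_101 s75_pm_101

theorem s80_pm_101 : ∃ t, chk3 f_pm_101 t 13 31 1 = true := ex3_b k55_pm_101 k56_pm_101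

theorem s81_pm_101 : ∃ t, chk3 f_pm_101 t 13 30 1 = true := ex3_a k53_pm_101 k54_pm_101

theorem s82_pm_101 : ∃ t, chk3 f_pm_101 t 13 15 1 = true := ex3_b s81_pm_101 s80_pm_101

theorem s83_pm_101 : ∃ t, chk3 f_pm_101 t 12 31 1 = true := ex3_a k51_pm_101 k52_pm_101

theorem s84_pm_101 : ∃ t, chk3 f_pm_101 t 12 30 1 = true := ex3_a k49_pm_101 k50_pm_101

theorem s85_pm_101 : ∃ t, chk3 f_pm_101 t 12 15 1 = true := ex3_b s84_pm_101 s83_pm_101

theorem s86_pm_101 : ∃ t, chk3 f_pm_101 t 6 15 1 = true := ex3_a s85_pm_101 s82_pm_101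

theorem s87_pm_101 : ∃ t, chk3 f_pm_101 t 13 14 3 = true := ex3_b k47_pm_101 k48_pm_101

theorem s88_pm_101 : ∃ t, chk3 f_pm_101 t 13 14 1 = true := ex3_c k46_pm_101 s87_pm_101

theorem s89_pm_101 : ∃ t, chk3 f_pm_101 t 12 14 1 = true := ex3_b k44_pm_101 k45_pm_101

theorem s90_pm_101 : ∃ t, chk3 f_pm_101 t 6 14 1 = true := ex3_a s89_pm_101 s88_pm_101

theorem s91_pm_101 : ∃ t, chk3 f_pm_101 t 6 7 1 = true := ex3_b s90_pm_101 s86_pm_101

theorem s92_pm_101 : ∃ t, chk3 f_pm_101 t 3 7 1 = true := ex3_a s91_pm_101 s79_pm_101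

theorem s93_pm_101 : ∃ t, chk3 f_pm_101 t 13 13 1 = true := ex3_a k41_pm_101 k42_pm_101

theorem s94_pm_101 : ∃ t, chk3 f_pm_101 t 12 13 1 = true := ex3_b k39_pm_101 k40_pm_101

theorem s95_pm_101 : ∃ t, chk3 f_pm_101 t 6 13 1 = true := ex3_a s94_pm_101 s93_pm_101

theorem s96_pm_101 : ∃ t, chk3 f_pm_101 t 6 6 1 = true := ex3_b k38_pm_101 s95_pm_101

theorem s97_pm_101 : ∃ t, chk3 f_pm_101 t 3 6 1 = true := ex3_a s96_pm_101 k43_pm_101

theorem s98_pm_101 : ∃ t, chk3 f_pm_101 t 3 3 1 = true := ex3_b s97_pm_101 s92_pm_101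

theorem s99_pm_101 : ∃ t, chk3 f_pm_101 t 3 1 1 = true := ex3_b k37_pm_101 s98_pm_101

theorem s100_pm_101 : ∃ t, chk3 f_pm_101 t 5 31 3 = true := ex3_a k35_pm_101 k36_pm_101

theorem s101_pm_101 : ∃ t, chk3 f_pm_101 t 10 31 2 = true := ex3_a k32_pm_101 k33_pm_101

theorem s102_pm_101 : ∃ t, chk3 f_pm_101 t 5 31 2 = true := ex3_a s101_pm_101 k34_pm_101

theorem s103_pm_101 : ∃ t, chk3 f_pm_101 t 5 31 1 = true := ex3_c s102_pm_101 s100_pm_101

theorem s104_pm_101 : ∃ t, chk3 f_pm_101 t 5 30 1 = true := ex3_c k30_pm_101 k31_pm_101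

theorem s105_pm_101 : ∃ t, chk3 f_pm_101 t 5 15 1 = true := ex3_b s104_pm_101 s103_pm_101

theorem s106_pm_101 : ∃ t, chk3 f_pm_101 t 5 7 1 = true := ex3_b k29_pm_101 s105_pm_101

theorem s107_pm_101 : ∃ t, chk3 f_pm_101 t 5 6 1 = true := ex3_b k27_pm_101 k28_pm_101

theorem s108_pm_101 : ∃ t, chk3 f_pm_101 t 5 3 1 = true := ex3_b s107_pm_101 s106_pm_101

theorem s109_pm_101 : ∃ t, chk3 f_pm_101 t 39 15 1 = true := ex3_a k25_pm_101 k26_pm_101

theorem s110_pm_101 : ∃ t, chk3 f_pm_101 t 38 31 1 = true := ex3_b k23_pm_101 k24_pm_101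

theorem s111_pm_101 : ∃ t, chk3 f_pm_101 t 38 15 1 = true := ex3_b k22_pm_101 s110_pm_101

theorem s112_pm_101 : ∃ t, chk3 f_pm_101 t 19 15 1 = true := ex3_a s111_pm_101 s109_pm_101

theorem s113_pm_101 : ∃ t, chk3 f_pm_101 t 18 124 1 = true := ex3_b k18_pm_101 k19_pm_101

theorem s114_pm_101 : ∃ t, chk3 f_pm_101 t 18 62 1 = true := ex3_b s113_pm_101 k20_pm_101

theorem s115_pm_101 : ∃ t, chk3 f_pm_101 t 18 31 1 = true := ex3_b s114_pm_101 k21_pm_101

theorem s116_pm_101 : ∃ t, chk3 f_pm_101 t 18 30 1 = true := ex3_a k16_pm_101 k17_pm_101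

theorem s117_pm_101 : ∃ t, chk3 f_pm_101 t 18 15 1 = true := ex3_b s116_pm_101 s115_pm_101

theorem s118_pm_101 : ∃ t, chk3 f_pm_101 t 9 15 1 = true := ex3_a s117_pm_101 s112_pm_101

theorem s119_pm_101 : ∃ t, chk3 f_pm_101 t 9 7 1 = true := ex3_b k15_pm_101 s118_pm_101

theorem s120_pm_101 : ∃ t, chk3 f_pm_101 t 17 30 1 = true := ex3_a k12_pm_101 k13_pm_101

theorem s121_pm_101 : ∃ t, chk3 f_pm_101 t 17 15 1 = true := ex3_b s120_pm_101 k14_pm_101

theorem s122_pm_101 : ∃ t, chk3 f_pm_101 t 16 60 1 = true := ex3_b k8_pm_101 k9_pm_101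

theorem s123_pm_101 : ∃ t, chk3 f_pm_101 t 16 30 1 = true := ex3_b s122_pm_101 k10_pm_101

theorem s124_pm_101 : ∃ t, chk3 f_pm_101 t 16 15 1 = true := ex3_b s123_pm_101 k11_pm_101

theorem s125_pm_101 : ∃ t, chk3 f_pm_101 t 8 15 1 = true := ex3_a s124_pm_101 s121_pm_101

theorem s126_pm_101 : ∃ t, chk3 f_pm_101 t 16 29 1 = true := ex3_b k5_pm_101 k6_pm_101

theorem s127_pm_101 : ∃ t, chk3 f_pm_101 t 16 14 1 = true := ex3_b k4_pm_101 s126_pm_101

theorem s128_pm_101 : ∃ t, chk3 f_pm_101 t 8 14 1 = true := ex3_a s127_pm_101 k7_pm_101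

theorem s129_pm_101 : ∃ t, chk3 f_pm_101 t 8 7 1 = true := ex3_b s128_pm_101 s125_pm_101

theorem s130_pm_101 : ∃ t, chk3 f_pm_101 t 4 7 1 = true := ex3_a s129_pm_101 s119_pm_101

theorem s131_pm_101 : ∃ t, chk3 f_pm_101 t 8 6 1 = true := ex3_a k1_pm_101 k2_pm_101

theorem s132_pm_101 : ∃ t, chk3 f_pm_101 t 4 6 1 = true := ex3_a s131_pm_101 k3_pm_101

theorem s133_pm_101 : ∃ t, chk3 f_pm_101 t 4 3 1 = true := ex3_b s132_pm_101 s130_pm_101

theorem s134_pm_101 : ∃ t, chk3 f_pm_101 t 2 3 1 = true := ex3_a s133_pm_101 s108_pm_101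

theorem s135_pm_101 : ∃ t, chk3 f_pm_101 t 2 1 1 = true := ex3_b k0_pm_101 s134_pm_101

theorem s136_pm_101 : ∃ t, chk3 f_pm_101 t 1 1 1 = true := ex3_a s135_pm_101 s99_pm_101

theorem c_pm_101 : CertB 536870912 536870912 536870912 536870912 966367641 24778659 3 eng mog cd0q1 cd0q1 pd0 false true false .npn 1 0 1
    ndB0q1 ndB0q1 pcB0 cut_pm_101 xt_pm_101 :=
  certB2 (fam := false) (s1 := true) (s2 := false) (a := 1) (b := 0) (c := 1) (cn := .npn) (n1 := ndB0q1) (n2 := ndB0q1) (pc := pcB0) (cut := cut_pm_101) (xt := xt_pm_101) (P1 := 536870912) (W1 := 536870912) (P2 := 536870912) (W2 := 536870912) (P3 := 966367641) (W3 := 24778659) (N0 := 3) (En := eng) (mo := mog) (C1 := cd0q1) (C2 := cd0q1) (C3 := pd0)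
    rfl (fun _ => rfl) s136_pm_101

noncomputable def cut_pm_102 : Cut := Cut.of [[⟨3, 0, 0, 1449551462⟩], [⟨4, 0, 0, 2845415833⟩], [⟨0, 1, 0, 33554432⟩, ⟨1, 0, 0, 33554432⟩, ⟨2, 1, 0, 33554432⟩], [⟨0, 0, 1, 46137344⟩, ⟨1, 1, 2, 46137344⟩, ⟨2, 1, 0, 1572864⟩, ⟨0, 0, 0, 1013612281⟩, ⟨0, 1, 0, 128849018⟩, ⟨1, 0, 0, 128849018⟩, ⟨1, 1, 0, 1013612281⟩]]

noncomputable def xt_pm_102 : Ext := extD2 3 ⟨4, 1, 1, 5, 37, 10, 843, 1000, 41, 100, 1, 8⟩ eng cd0q1 cd0q2 pd0 false true false .npp 1 0 2 rfl ndB0q1 ndB0q2 pcB0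

noncomputable def f_pm_102 : ℕ → ℕ → ℕ → ℕ → Bool := onCell 536870912 536870912 0 536870912 966367641 24778659
    (rowB 3 eng mog cd0q1 cd0q2 pd0 0 false true false .npp 1 0 2 (qsf 536870912 536870912 0 536870912 0) ndB0q1 ndB0q2 pcB0 cut_pm_102 xt_pm_102)

def k0_pm_102 : ∃ t, chk3 f_pm_102 t 2 2 1 = true :=
  ⟨(a (a (l 2) (b (l 2) (b (l 2) (b (l 2) (a (l 2) (a (l 2) (b (l 16382960) (l 16359464)))))))) (a (b (l 6) (b (l 6) (a (a (b (l 6) (b (l 6) (a (l 16433352) (l 16441568)))) (l 6)) (l 6)))) (l 6))), by decide +kernel⟩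

def k1_pm_102 : ∃ t, chk3 f_pm_102 t 4 6 1 = true :=
  ⟨(a (l 2) (b (a (l 2) (a (b (b (l 2) (a (l 2) (l 16304824))) (c (l 16423824) (l 16331584))) (b (b (l 16336104) (a (l 16287984) (l 16379008))) (b (a (l 16331584) (l 16274576)) (l 16293600))))) (a (b (c (l 16338400) (l 16267160)) (a (l 16193912) (l 16153592))) (b (c (a (l 16384312) (l 16390400)) (a (l 16296968) (l 16306552))) (c (l 16231496) (a (l 16263360) (l 16272816))))))), by decide +kernel⟩

def k2_pm_102 : ∃ t, chk3 f_pm_102 t 5 6 1 = true :=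
  ⟨(a (b (a (b (c (a (l 16460616) (l 16452792)) (a (l 16361256) (b (l 16437528) (l 16410424)))) (c (a (b (l 16407680) (l 16429448)) (b (l 16440304) (l 16379512))) (a (b (b (l 16369192) (l 16359520)) (l 16344880)) (b (l 16382656) (b (l 16365648) (l 16355544)))))) (a (b (c (l 16447600) (b (l 6) (l 16433584))) (b (c (l 16477200) (l 16406432)) (c (l 16370352) (b (l 16385896) (l 16374072))))) (b (l 6) (c (l 16473048) (b (l 16431232) (l 16404088)))))) (a (b (c (a (l 16378128) (l 16347312)) (a (l 16318904) (b (l 16342416) (l 16325224)))) (c (a (l 16336960) (l 16326280)) (a (l 16284984) (l 16299680)))) (a (b (c (b (l 16413720) (l 16413144)) (b (l 16360368) (l 16342368))) (c (l 16380696) (l 16295544))) (b (b (c (b (l 16455232) (l 16445680)) (b (l 16384312) (l 16375368))) (c (l 16428736) (l 16361232))) (c (l 16395240) (l 16292976)))))) (b (a (b (l 6) (a (c (l 16503064) (b (l 6) (l 16430264))) (l 6))) (l 6)) (a (c (b (a (b (l 16446344) (l 16447720)) (b (l 16489176) (b (l 16470568) (l 16460568))))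 (a (l 16411448) (l 16428592))) (b (a (b (b (l 16409856) (l 16375112)) (l 16320360)) (b (l 16430376) (a (l 16357472) (l 16347336)))) (a (l 16354600) (b (l 16363776) (l 16365536))))) (b (a (b (l 6) (a (b (l 16460384) (l 16425936)) (l 16445264))) (l 6)) (b (a (a (l 16346688) (b (l 16446872) (l 16434376))) (b (a (l 16457248) (l 6)) (a (l 16445144) (l 16453720)))) (a (c (l 16424256) (l 16386312)) (c (l 16429872) (l 16407184)))))))), by decide +kernel⟩

def k3_pm_102 : ∃ t, chk3 f_pm_102 t 4 7 1 = true :=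
  ⟨(b (a (a (l 2) (b (c (l 16245752) (l 16200440)) (c (a (l 16272616) (l 16243912)) (a (l 16190864) (l 16187400))))) (b (a (c (l 16238072) (a (l 16220288) (l 16223600))) (c (a (l 16302864) (l 16286384)) (a (l 16229952) (l 16239136)))) (a (c (a (l 16239192) (l 16237304)) (a (l 16187288) (l 16190328))) (c (a (l 16259000) (l 16262096)) (b (l 16166872) (l 16107512)))))) (a (b (a (a (l 2) (b (l 16151368) (a (l 16156504) (l 16150712)))) (c (a (l 16167752) (b (l 16232808) (l 16210712))) (b (l 16163424) (l 16104344)))) (a (c (a (c (l 16203368) (l 16157480)) (c (l 16153408) (l 16142536))) (b (a (l 16151016) (l 16139752)) (a (l 16135224) (l 16123880)))) (c (b (a (l 16198344) (l 16188520)) (a (l 16166864) (l 16145928))) (b (a (l 16132048) (l 16127680)) (a (l 16116024) (l 16111400)))))) (b (a (b (a (l 16111576) (l 16090352)) (c (l 16118208) (a (l 16143784) (l 16145824)))) (c (a (l 16127544) (l 16149456)) (b (a (l 16169288) (l 16177024)) (a (l 16150464) (l 16157320))))) (a (b (c (a (l 16181368) (l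 16176592)) (a (l 16126384) (l 16127864))) (a (c (l 16158968) (l 16109704)) (c (l 16153192) (l 16110592)))) (c (b (a (l 16173816) (l 16172520)) (a (l 16128120) (l 16104080))) (b (a (l 16131736) (l 16137520)) (a (l 16092608) (l 16118064)))))))), by decide +kernel⟩

def k4_pm_102 : ∃ t, chk3 f_pm_102 t 5 14 1 = true :=
  ⟨(a (a (b (c (a (l 16314200) (l 16323128)) (a (l 16250904) (l 16244064))) (a (b (l 16169232) (l 16147832)) (b (l 16179624) (l 16167624)))) (b (a (c (l 16333888) (l 16239104)) (c (l 16346160) (l 16298272))) (c (a (l 16261000) (l 16248384)) (a (l 16180312) (l 16216096))))) (b (a (a (c (l 16359184) (l 16316248)) (b (l 16325696) (l 16299080))) (a (b (l 16297264) (l 16296280)) (c (b (l 16388232) (l 16342264)) (l 16331112)))) (a (a (b (l 16258656) (l 16238408)) (b (l 16255528) (a (l 16249896) (l 16244440)))) (c (a (b (l 16292968) (l 16239712)) (b (l 16291832) (l 16235984))) (a (b (l 16290184) (l 16237096)) (b (l 16285400) (l 16229488))))))), by decide +kernel⟩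

def k5_pm_102 : ∃ t, chk3 f_pm_102 t 5 15 1 = true :=
  ⟨(a (b (a (a (c (l 16130904) (b (l 16186792) (l 16165880))) (b (l 16132576) (c (l 16202776) (l 16175472)))) (a (b (l 16161816) (c (l 16182760) (l 16184888))) (b (l 16138744) (c (l 16162960) (l 16169632))))) (a (a (b (c (l 16171992) (l 16144544)) (b (l 16056368) (c (l 16110328) (l 16117856)))) (b (c (l 16150264) (l 16151872)) (c (a (l 16102296) (l 16046528)) (l 16024040)))) (b (a (a (l 16053456) (l 16040208)) (c (l 16040320) (l 16086224))) (a (c (a (l 16032784) (l 16040144)) (b (l 16089776) (l 16016224))) (c (b (l 16056848) (l 16025488)) (b (l 16057920) (l 16024160))))))) (b (a (b (a (c (l 16203560) (l 16207664)) (c (l 16190472) (l 16190184))) (a (c (l 16123640) (l 16146288)) (c (l 16128392) (l 16104424)))) (b (a (c (l 16180256) (l 16154832)) (c (l 16173728) (l 16165088))) (a (c (l 16115064) (l 16107560)) (c (l 16105520) (l 16093424))))) (a (b (a (c (l 16039536) (l 16017208)) (c (l 16082808) (l 15992512))) (a (c (b (l 16032328) (l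 15998992)) (b (l 16027776) (l 15991816))) (c (b (l 16009896) (l 15974584)) (b (l 15999952) (l 15961760))))) (b (a (c (b (l 16063072) (l 16027136)) (a (l 16038832) (l 16028888))) (c (b (l 16051104) (l 16013456)) (b (l 16035896) (l 15995664)))) (a (c (b (l 15990432) (l 15953184)) (b (l 15975160) (l 15934720))) (c (b (l 15974976) (a (l 15939728) (l 15932320))) (b (l 15954144) (l 15911504)))))))), by decide +kernel⟩

def k6_pm_102 : ∃ t, chk3 f_pm_102 t 3 2 1 = true :=
  ⟨(l 6), by decide +kernel⟩

def k7_pm_102 : ∃ t, chk3 f_pm_102 t 6 6 1 = true :=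
  ⟨(a (b (l 6) (a (b (l 6) (b (l 6) (a (b (c (l 16449952) (l 16435032)) (l 16421536)) (l 6)))) (l 6))) (l 6)), by decide +kernel⟩

def k8_pm_102 : ∃ t, chk3 f_pm_102 t 6 14 1 = true :=
  ⟨(a (b (a (a (c (b (l 16395944) (l 16347800)) (b (l 16383472) (l 16336656))) (b (a (l 16396464) (l 6)) (c (l 16358280) (l 16343408)))) (b (l 6) (a (c (l 16374432) (l 16355704)) (l 6)))) (b (a (a (c (l 16295048) (l 16284816)) (c (l 16303360) (l 16289136))) (a (c (l 16317568) (l 16299144)) (a (b (l 6) (l 16305360)) (l 6)))) (a (a (c (l 16236704) (l 16226136)) (c (l 16242720) (l 16227800))) (a (c (l 16254936) (l 16235344)) (c (b (l 16291040) (l 16257304)) (l 16249648)))))) (b (l 6) (a (a (a (b (l 6) (b (l 6) (l 16261080))) (l 6)) (l 6)) (l 6)))), by decide +kernel⟩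

def k9_pm_102 : ∃ t, chk3 f_pm_102 t 12 15 1 = true :=
  ⟨(b (a (b (a (c (l 16171792) (l 16158696)) (c (l 16175384) (l 16157464))) (a (c (l 16100736) (l 16083696)) (c (l 16122752) (l 16079312)))) (a (b (c (l 16206528) (l 16162352)) (c (b (l 16129440) (l 16090184)) (b (l 16102336) (l 16060192)))) (b (c (b (l 16221856) (l 16184808)) (b (l 16194208) (l 16154360))) (c (b (l 16146280) (l 16106400)) (b (l 16112640) (l 16069320)))))) (a (b (a (c (b (l 16044056) (l 16004832)) (b (l 16023464) (l 15981312))) (c (b (l 16043120) (l 16002544)) (b (l 16016552) (l 15972632)))) (a (c (b (l 15964728) (a (l 15926336) (l 15921960))) (b (l 15937784) (a (l 15897120) (l 15889288)))) (c (b (l 15961064) (a (l 15919408) (l 15918904))) (b (l 15927256) (a (l 15883040) (l 15878592)))))) (b (a (c (b (l 16049672) (l 16008088)) (b (l 16016376) (l 15970920))) (b (c (l 16065328) (l 16024352)) (c (a (l 16018456) (l 16028808)) (l 15977752)))) (a (c (a (b (l 15963608) (l 15920688)) (b (l 15968288) (l 15925064))) (b (l 15923984)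 (a (l 15876144) (l 15875944)))) (c (b (a (l 15975664) (l 15986040)) (a (b (l 15943232) (l 15921480)) (b (l 15953712) (l 15932072)))) (a (b (l 15927344) (l 15878280)) (b (l 15932784) (l 15883400)))))))), by decide +kernel⟩

def k10_pm_102 : ∃ t, chk3 f_pm_102 t 13 30 1 = true :=
  ⟨(a (b (a (c (b (l 16248720) (l 16211440)) (c (l 16202784) (l 16186640))) (a (c (l 16256960) (l 16215768)) (l 6))) (a (a (c (l 16145216) (l 16104096)) (c (l 16161288) (l 16115912))) (c (b (c (l 16224352) (l 16197816)) (c (l 16186576) (l 16157656))) (c (l 16151600) (l 16127008))))) (a (l 6) (l 6))), by decide +kernel⟩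

def k11_pm_102 : ∃ t, chk3 f_pm_102 t 13 31 1 = true :=
  ⟨(b (a (b (c (a (c (l 16105208) (l 16079040)) (a (l 16120752) (l 16144864))) (a (l 16041984) (l 16113640))) (a (c (c (l 16064728) (l 16036072)) (l 16036832)) (a (c (l 16080144) (l 16016144)) (c (l 16105504) (l 16035152))))) (a (a (c (b (l 16173424) (c (l 16155856) (l 16116128))) (b (l 16103808) (l 16058624))) (b (l 6) (c (c (l 16193688) (l 16150216)) (l 16087160)))) (l 6))) (b (a (a (c (a (l 15999808) (l 16017416)) (c (l 15961656) (l 15931576))) (a (c (c (l 16057640) (l 16021336)) (l 15968304)) (c (c (l 16086368) (l 16046496)) (l 15988168)))) (a (a (c (c (l 16141864) (l 16077136)) (l 16013032)) (c (c (b (l 16169760) (l 16154416)) (l 16114024)) (l 16043624))) (a (c (c (a (l 16197704) (l 16224072)) (l 16158056)) (l 16143696)) (l 6)))) (a (a (a (c (b (l 15967808) (l 15946464)) (l 15891688)) (c (b (l 15986048) (l 15986176)) (l 15903624))) (c (c (a (b (l 16028608) (l 16009512)) (b (l 16058936) (l 16041064))) (a (l 15979000) (l 16005968)))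 (a (c (l 15939424) (l 15900280)) (c (l 15962448) (l 15919368))))) (a (c (a (b (a (l 16062752) (l 16081768)) (c (c (l 16091888) (l 16067056)) (l 16029952))) (c (b (c (l 16152720) (l 16126736)) (a (l 16113392) (l 16180680))) (b (l 16088000) (l 16071384)))) (a (c (l 15991328) (l 15943912)) (c (l 16026984) (l 15974808)))) (a (b (c (c (c (l 16206504) (l 16177992)) (l 16135480)) (l 16051320)) (c (c (c (a (l 16181112) (l 138152913318248495)) (l 137658614028271663)) (l 137155381208383535)) (l 137044880150200367))) (a (c (c (b (l 16237984) (c (l 138495823576465455) (l 16213824))) (l 137678542686617647)) (c (l 16109128) (l 16047392))) (l 6))))))), by decide +kernel⟩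

def k12_pm_102 : ∃ t, chk3 f_pm_102 t 7 3 1 = true :=
  ⟨(b (l 6) (a (l 6) (l 6))), by decide +kernel⟩

theorem s13_pm_102 : ∃ t, chk3 f_pm_102 t 13 15 1 = true := ex3_b k10_pm_102 k11_pm_102

theorem s14_pm_102 : ∃ t, chk3 f_pm_102 t 6 15 1 = true := ex3_a k9_pm_102 s13_pm_102

theorem s15_pm_102 : ∃ t, chk3 f_pm_102 t 6 7 1 = true := ex3_b k8_pm_102 s14_pm_102

theorem s16_pm_102 : ∃ t, chk3 f_pm_102 t 6 3 1 = true := ex3_b k7_pm_102 s15_pm_102

theorem s17_pm_102 : ∃ t, chk3 f_pm_102 t 3 3 1 = true := ex3_a s16_pm_102 k12_pm_102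

theorem s18_pm_102 : ∃ t, chk3 f_pm_102 t 3 1 1 = true := ex3_b k6_pm_102 s17_pm_102

theorem s19_pm_102 : ∃ t, chk3 f_pm_102 t 5 7 1 = true := ex3_b k4_pm_102 k5_pm_102

theorem s20_pm_102 : ∃ t, chk3 f_pm_102 t 2 7 1 = true := ex3_a k3_pm_102 s19_pm_102

theorem s21_pm_102 : ∃ t, chk3 f_pm_102 t 2 6 1 = true := ex3_a k1_pm_102 k2_pm_102

theorem s22_pm_102 : ∃ t, chk3 f_pm_102 t 2 3 1 = true := ex3_b s21_pm_102 s20_pm_102

theorem s23_pm_102 : ∃ t, chk3 f_pm_102 t 2 1 1 = true := ex3_b k0_pm_102 s22_pm_102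

theorem s24_pm_102 : ∃ t, chk3 f_pm_102 t 1 1 1 = true := ex3_a s23_pm_102 s18_pm_102

theorem c_pm_102 : CertB 536870912 536870912 0 536870912 966367641 24778659 3 eng mog cd0q1 cd0q2 pd0 false true false .npp 1 0 2
    ndB0q1 ndB0q2 pcB0 cut_pm_102 xt_pm_102 :=
  certB0 (fam := false) (s1 := true) (s2 := false) (a := 1) (b := 0) (c := 2) (cn := .npp) (n1 := ndB0q1) (n2 := ndB0q2) (pc := pcB0) (cut := cut_pm_102) (xt := xt_pm_102) (P1 := 536870912) (W1 := 536870912) (P2 := 0) (W2 := 536870912) (P3 := 966367641) (W3 := 24778659) (N0 := 3) (En := eng) (mo := mog) (C1 := cd0q1) (C2 := cd0q2) (C3 := pd0)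
    rfl s24_pm_102

noncomputable def cut_pm_112 : Cut := Cut.of [[⟨3, 0, 0, 1449551462⟩], [⟨4, 0, 0, 2845415833⟩]]

noncomputable def f_pm_112 : ℕ → ℕ → ℕ → ℕ → Bool := onCell 536870912 536870912 0 536870912 966367641 24778659
    (rowB 3 eng mog cd0q1 cd0q2 pd1 0 false true false .dn 1 1 2 (qsf 536870912 536870912 0 536870912 1) ndB0q1 ndB0q2 pcB1 cut_pm_112 Ext.none)

def k0_pm_112 : ∃ t, chk3 f_pm_112 t 1 1 1 = true :=
  ⟨(a (b (b (a (a (a (b (l 6) (a (b (l 6) (l 16508464)) (l 6))) (l 6)) (l 6)) (l 6)) (b (a (a (a (b (a (l 16468120) (l 16479992)) (a (l 16428904) (l 16438144))) (b (a (l 16493120) (l 6)) (a (l 16448560) (l 16460208)))) (a (b (l 6) (a (b (l 6) (l 16460576)) (l 6))) (l 6))) (l 6)) (a (a (a (b (a (l 16368624) (l 16396784)) (a (l 16370600) (l 16347032))) (b (a (l 16404296) (l 16412952)) (a (b (l 16370360) (l 16358640)) (b (l 16377104) (l 16334392))))) (a (b (a (l 16422848) (b (l 16447504) (l 16420512))) (a (b (l 16384512) (l 16358016)) (b (l 16393184) (l 16365408)))) (b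 (a (b (l 6) (l 16432416)) (l 6)) (a (b (l 16403272) (l 16373592)) (b (l 16414960) (l 16383288)))))) (b (l 6) (b (l 6) (l 1)))))) (b (a (a (b (a (b (l 16340368) (l 16358120)) (b (l 16349008) (l 16344944))) (a (b (l 16357712) (l 16359464)) (b (l 16343136) (l 16342608)))) (b (a (b (b (a (l 16320104) (b (l 16344264) (l 16311328))) (a (l 16335320) (l 16326448))) (a (l 16332096) (l 16322008))) (b (b (a (l 16343360) (l 16350984)) (a (b (a (l 16321200) (l 16321344)) (l 16294072)) (c (l 78952589271) (l 16312576)))) (a (l 16310624) (l 1)))) (a (b (l 16261152) (l 16279448)) (b (c (l 16263384) (l 16316416)) (l 1))))) (l 1)) (a (b (a (b (a (l 16361928) (l 16341552)) (a (l 16321176) (l 16253880))) (b (a (l 16233144) (l 1)) (l 1))) (a (b (a (b (l 16311720) (l 16239080)) (b (l 16297064) (l 1))) (a (a (c (l 20433267703) (l 16085072)) (c (l 153577231143) (l 142302878887))) (l 1))) (l 1))) (l 1)))) (l 1)), by decide +kernel⟩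

theorem c_pm_112 : CertB 536870912 536870912 0 536870912 966367641 24778659 3 eng mog cd0q1 cd0q2 pd1 false true false .dn 1 1 2
    ndB0q1 ndB0q2 pcB1 cut_pm_112 Ext.none :=
  certB0 (fam := false) (s1 := true) (s2 := false) (a := 1) (b := 1) (c := 2) (cn := .dn) (n1 := ndB0q1) (n2 := ndB0q2) (pc := pcB1) (cut := cut_pm_112) (xt := Ext.none) (P1 := 536870912) (W1 := 536870912) (P2 := 0) (W2 := 536870912) (P3 := 966367641) (W3 := 24778659) (N0 := 3) (En := eng) (mo := mog) (C1 := cd0q1) (C2 := cd0q2) (C3 := pd1)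
    rfl k0_pm_112

noncomputable def cut_pm_202 : Cut := Cut.of [[⟨3, 0, 0, 1449551462⟩], [⟨4, 0, 0, 2845415833⟩], [⟨0, 1, 0, 67108864⟩, ⟨1, 0, 0, 67108864⟩, ⟨2, 1, 0, 67108864⟩]]

noncomputable def f_pm_202 : ℕ → ℕ → ℕ → ℕ → Bool := onCell 0 536870912 0 536870912 966367641 24778659
    (rowB 3 eng mog cd0q2 cd0q2 pd0 0 false true false .pp 2 0 2 (qsf 0 536870912 0 536870912 0) ndB0q2 ndB0q2 pcB0 cut_pm_202 Ext.none)

def k0_pm_202 : ∃ t, chk3 f_pm_202 t 1 1 1 = true :=
  ⟨(l 6), by decide +kernel⟩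

theorem c_pm_202 : CertB 0 536870912 0 536870912 966367641 24778659 3 eng mog cd0q2 cd0q2 pd0 false true false .pp 2 0 2
    ndB0q2 ndB0q2 pcB0 cut_pm_202 Ext.none :=
  certB0 (fam := false) (s1 := true) (s2 := false) (a := 2) (b := 0) (c := 2) (cn := .pp) (n1 := ndB0q2) (n2 := ndB0q2) (pc := pcB0) (cut := cut_pm_202) (xt := Ext.none) (P1 := 0) (W1 := 536870912) (P2 := 0) (W2 := 536870912) (P3 := 966367641) (W3 := 24778659) (N0 := 3) (En := eng) (mo := mog) (C1 := cd0q2) (C2 := cd0q2) (C3 := pd0)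
    rfl k0_pm_202

noncomputable def cut_mm_001 : Cut := Cut.of [[⟨3, 0, 0, 1449551462⟩], [⟨4, 0, 0, 2845415833⟩]]

noncomputable def f_mm_001 : ℕ → ℕ → ℕ → ℕ → Bool := onCell 0 536870912 536870912 536870912 966367641 24778659
    (rowB 3 eng mog cd0q0 cd0q1 pd0 0 false false false .up 0 0 1 (qsf 0 536870912 536870912 536870912 0) ndB0q0 ndB0q1 pcB0 cut_mm_001 Ext.none)

def k0_mm_001 : ∃ t, chk3 f_mm_001 t 1 1 1 = true :=
  ⟨(l 6), by decide +kernel⟩

theorem c_mm_001 : CertB 0 536870912 536870912 536870912 966367641 24778659 3 eng mog cd0q0 cd0q1 pd0 false false false .up 0 0 1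
    ndB0q0 ndB0q1 pcB0 cut_mm_001 Ext.none :=
  certB0 (fam := false) (s1 := false) (s2 := false) (a := 0) (b := 0) (c := 1) (cn := .up) (n1 := ndB0q0) (n2 := ndB0q1) (pc := pcB0) (cut := cut_mm_001) (xt := Ext.none) (P1 := 0) (W1 := 536870912) (P2 := 536870912) (W2 := 536870912) (P3 := 966367641) (W3 := 24778659) (N0 := 3) (En := eng) (mo := mog) (C1 := cd0q0) (C2 := cd0q1) (C3 := pd0)
    rfl k0_mm_001

noncomputable def cut_mm_011 : Cut := Cut.of [[⟨3, 0, 0, 1449551462⟩], [⟨4, 0, 0, 2845415833⟩]]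

noncomputable def f_mm_011 : ℕ → ℕ → ℕ → ℕ → Bool := onCell 0 536870912 536870912 536870912 966367641 24778659
    (rowB 3 eng mog cd0q0 cd0q1 pd1 0 false false false .pnn 0 1 1 (qsf 0 536870912 536870912 536870912 1) ndB0q0 ndB0q1 pcB1 cut_mm_011 Ext.none)

def k0_mm_011 : ∃ t, chk3 f_mm_011 t 1 1 1 = true :=
  ⟨(l 6), by decide +kernel⟩

theorem c_mm_011 : CertB 0 536870912 536870912 536870912 966367641 24778659 3 eng mog cd0q0 cd0q1 pd1 false false false .pnn 0 1 1
    ndB0q0 ndB0q1 pcB1 cut_mm_011 Ext.none :=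
  certB0 (fam := false) (s1 := false) (s2 := false) (a := 0) (b := 1) (c := 1) (cn := .pnn) (n1 := ndB0q0) (n2 := ndB0q1) (pc := pcB1) (cut := cut_mm_011) (xt := Ext.none) (P1 := 0) (W1 := 536870912) (P2 := 536870912) (W2 := 536870912) (P3 := 966367641) (W3 := 24778659) (N0 := 3) (En := eng) (mo := mog) (C1 := cd0q0) (C2 := cd0q1) (C3 := pd1)
    rfl k0_mm_011

noncomputable def cut_mm_012 : Cut := Cut.of [[⟨3, 0, 0, 1449551462⟩], [⟨4, 0, 0, 2845415833⟩]]

noncomputable def f_mm_012 : ℕ → ℕ → ℕ → ℕ → Bool := onCell 0 536870912 0 536870912 966367641 24778659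
    (rowB 3 eng mog cd0q0 cd0q2 pd1 0 false false false .pnp 0 1 2 (qsf 0 536870912 0 536870912 1) ndB0q0 ndB0q2 pcB1 cut_mm_012 Ext.none)

def k0_mm_012 : ∃ t, chk3 f_mm_012 t 1 1 1 = true :=
  ⟨(l 5), by decide +kernel⟩

theorem c_mm_012 : CertB 0 536870912 0 536870912 966367641 24778659 3 eng mog cd0q0 cd0q2 pd1 false false false .pnp 0 1 2
    ndB0q0 ndB0q2 pcB1 cut_mm_012 Ext.none :=
  certB0 (fam := false) (s1 := false) (s2 := false) (a := 0) (b := 1) (c := 2) (cn := .pnp) (n1 := ndB0q0) (n2 := ndB0q2) (pc := pcB1) (cut := cut_mm_012) (xt := Ext.none) (P1 := 0) (W1 := 536870912) (P2 := 0) (W2 := 536870912) (P3 := 966367641) (W3 := 24778659) (N0 := 3) (En := eng) (mo := mog) (C1 := cd0q0) (C2 := cd0q2) (C3 := pd1)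
    rfl k0_mm_012

noncomputable def cut_mm_022 : Cut := Cut.of [[⟨3, 0, 0, 1449551462⟩], [⟨4, 0, 0, 2845415833⟩]]

noncomputable def f_mm_022 : ℕ → ℕ → ℕ → ℕ → Bool := onCell 0 536870912 0 536870912 966367641 24778659
    (rowB 3 eng mog cd0q0 cd0q2 pd2 0 false false false .pp 0 2 2 (qsf 0 536870912 0 536870912 2) ndB0q0 ndB0q2 pcB2 cut_mm_022 Ext.none)

def k0_mm_022 : ∃ t, chk3 f_mm_022 t 1 1 1 = true :=
  ⟨(l 5), by decide +kernel⟩

theorem c_mm_022 : CertB 0 536870912 0 536870912 966367641 24778659 3 eng mog cd0q0 cd0q2 pd2 false false false .pp 0 2 2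
    ndB0q0 ndB0q2 pcB2 cut_mm_022 Ext.none :=
  certB0 (fam := false) (s1 := false) (s2 := false) (a := 0) (b := 2) (c := 2) (cn := .pp) (n1 := ndB0q0) (n2 := ndB0q2) (pc := pcB2) (cut := cut_mm_022) (xt := Ext.none) (P1 := 0) (W1 := 536870912) (P2 := 0) (W2 := 536870912) (P3 := 966367641) (W3 := 24778659) (N0 := 3) (En := eng) (mo := mog) (C1 := cd0q0) (C2 := cd0q2) (C3 := pd2)
    rfl k0_mm_022

noncomputable def cut_mm_101 : Cut := Cut.of [[⟨3, 0, 0, 1449551462⟩], [⟨4, 0, 0, 2845415833⟩]]

noncomputable def f_mm_101 : ℕ → ℕ → ℕ → ℕ → Bool := onCell 536870912 536870912 536870912 536870912 966367641 24778659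
    (rowB 3 eng mog cd0q1 cd0q1 pd0 0 false false false .npn 1 0 1 (qsf 536870912 536870912 536870912 536870912 0) ndB0q1 ndB0q1 pcB0 cut_mm_101 Ext.none)

def k0_mm_101 : ∃ t, chk3 f_mm_101 t 1 1 1 = true :=
  ⟨(l 3), by decide +kernel⟩

theorem c_mm_101 : CertB 536870912 536870912 536870912 536870912 966367641 24778659 3 eng mog cd0q1 cd0q1 pd0 false false false .npn 1 0 1
    ndB0q1 ndB0q1 pcB0 cut_mm_101 Ext.none :=
  certB0 (fam := false) (s1 := false) (s2 := false) (a := 1) (b := 0) (c := 1) (cn := .npn) (n1 := ndB0q1) (n2 := ndB0q1) (pc := pcB0) (cut := cut_mm_101) (xt := Ext.none) (P1 := 536870912) (W1 := 536870912) (P2 := 536870912) (W2 := 536870912) (P3 := 966367641) (W3 := 24778659) (N0 := 3) (En := eng) (mo := mog) (C1 := cd0q1) (C2 := cd0q1) (C3 := pd0)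
    rfl k0_mm_101

noncomputable def cut_mm_102 : Cut := Cut.of [[⟨3, 0, 0, 1449551462⟩], [⟨4, 0, 0, 2845415833⟩]]

noncomputable def f_mm_102 : ℕ → ℕ → ℕ → ℕ → Bool := onCell 536870912 536870912 0 536870912 966367641 24778659
    (rowB 3 eng mog cd0q1 cd0q2 pd0 0 false false false .npp 1 0 2 (qsf 536870912 536870912 0 536870912 0) ndB0q1 ndB0q2 pcB0 cut_mm_102 Ext.none)

def k0_mm_102 : ∃ t, chk3 f_mm_102 t 1 1 1 = true :=
  ⟨(a (l 5) (l 3)), by decide +kernel⟩

theorem c_mm_102 : CertB 536870912 536870912 0 536870912 966367641 24778659 3 eng mog cd0q1 cd0q2 pd0 false false false .npp 1 0 2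
    ndB0q1 ndB0q2 pcB0 cut_mm_102 Ext.none :=
  certB0 (fam := false) (s1 := false) (s2 := false) (a := 1) (b := 0) (c := 2) (cn := .npp) (n1 := ndB0q1) (n2 := ndB0q2) (pc := pcB0) (cut := cut_mm_102) (xt := Ext.none) (P1 := 536870912) (W1 := 536870912) (P2 := 0) (W2 := 536870912) (P3 := 966367641) (W3 := 24778659) (N0 := 3) (En := eng) (mo := mog) (C1 := cd0q1) (C2 := cd0q2) (C3 := pd0)
    rfl k0_mm_102

noncomputable def cut_mm_112 : Cut := Cut.of [[⟨3, 0, 0, 1449551462⟩], [⟨4, 0, 0, 2845415833⟩]]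

noncomputable def f_mm_112 : ℕ → ℕ → ℕ → ℕ → Bool := onCell 536870912 536870912 0 536870912 966367641 24778659
    (rowB 3 eng mog cd0q1 cd0q2 pd1 2 false false false .dn 1 1 2 (qsf 536870912 536870912 0 536870912 1) ndB0q1 ndB0q2 pcB1 cut_mm_112 Ext.none)

def k0_mm_112 : ∃ t, chk3 f_mm_112 t 1 1 1 = true :=
  ⟨(l 5), by decide +kernel⟩

theorem c_mm_112 : CertB 536870912 536870912 0 536870912 966367641 24778659 3 eng mog cd0q1 cd0q2 pd1 false false false .dn 1 1 2
    ndB0q1 ndB0q2 pcB1 cut_mm_112 Ext.none :=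
  certB2 (fam := false) (s1 := false) (s2 := false) (a := 1) (b := 1) (c := 2) (cn := .dn) (n1 := ndB0q1) (n2 := ndB0q2) (pc := pcB1) (cut := cut_mm_112) (xt := Ext.none) (P1 := 536870912) (W1 := 536870912) (P2 := 0) (W2 := 536870912) (P3 := 966367641) (W3 := 24778659) (N0 := 3) (En := eng) (mo := mog) (C1 := cd0q1) (C2 := cd0q2) (C3 := pd1)
    rfl (fun _ => rfl) k0_mm_112

noncomputable def cut_mm_202 : Cut := Cut.of [[⟨3, 0, 0, 1449551462⟩], [⟨4, 0, 0, 2845415833⟩]]

noncomputable def f_mm_202 : ℕ → ℕ → ℕ → ℕ → Bool := onCell 0 536870912 0 536870912 966367641 24778659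
    (rowB 3 eng mog cd0q2 cd0q2 pd0 0 false false false .pp 2 0 2 (qsf 0 536870912 0 536870912 0) ndB0q2 ndB0q2 pcB0 cut_mm_202 Ext.none)

def k0_mm_202 : ∃ t, chk3 f_mm_202 t 1 1 1 = true :=
  ⟨(l 3), by decide +kernel⟩

theorem c_mm_202 : CertB 0 536870912 0 536870912 966367641 24778659 3 eng mog cd0q2 cd0q2 pd0 false false false .pp 2 0 2
    ndB0q2 ndB0q2 pcB0 cut_mm_202 Ext.none :=
  certB0 (fam := false) (s1 := false) (s2 := false) (a := 2) (b := 0) (c := 2) (cn := .pp) (n1 := ndB0q2) (n2 := ndB0q2) (pc := pcB0) (cut := cut_mm_202) (xt := Ext.none) (P1 := 0) (W1 := 536870912) (P2 := 0) (W2 := 536870912) (P3 := 966367641) (W3 := 24778659) (N0 := 3) (En := eng) (mo := mog) (C1 := cd0q2) (C2 := cd0q2) (C3 := pd0)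
    rfl k0_mm_202

end Pool.Agent.Strip051.G.I9000_9231.Tab.C.BB00

namespace Pool.Agent.Strip051.G.I9000_9231.Tab.C.BB01

open Pool.Agent.Strip051.PB Pool.Agent.Strip051.PB.T
open Pool.Agent.Strip051.G.I9000_9231.Tab

noncomputable def f_pp_001 : ℕ → ℕ → ℕ → ℕ → Bool := onCell 0 536870912 536870912 536870912 966367641 24778659
    (rowB 3 eng mog cd0q0 cd1q1 pd0 0 false true true .up 0 0 1 (qsf 0 536870912 536870912 536870912 0) ndB0q0 ndB1q1 pcB0 Cut.none Ext.none)

def k0_pp_001 : ∃ t, chk3 f_pp_001 t 1 1 1 = true :=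
  ⟨(l 3), by decide +kernel⟩

theorem c_pp_001 : CertB 0 536870912 536870912 536870912 966367641 24778659 3 eng mog cd0q0 cd1q1 pd0 false true true .up 0 0 1
    ndB0q0 ndB1q1 pcB0 Cut.none Ext.none :=
  certB0 (fam := false) (s1 := true) (s2 := true) (a := 0) (b := 0) (c := 1) (cn := .up) (n1 := ndB0q0) (n2 := ndB1q1) (pc := pcB0) (cut := Cut.none) (xt := Ext.none) (P1 := 0) (W1 := 536870912) (P2 := 536870912) (W2 := 536870912) (P3 := 966367641) (W3 := 24778659) (N0 := 3) (En := eng) (mo := mog) (C1 := cd0q0) (C2 := cd1q1) (C3 := pd0)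
    rfl k0_pp_001

noncomputable def f_pp_011 : ℕ → ℕ → ℕ → ℕ → Bool := onCell 0 536870912 536870912 536870912 966367641 24778659
    (rowB 3 eng mog cd0q0 cd1q1 pd1 0 false true true .pnn 0 1 1 (qsf 0 536870912 536870912 536870912 1) ndB0q0 ndB1q1 pcB1 Cut.none Ext.none)

def k0_pp_011 : ∃ t, chk3 f_pp_011 t 1 1 1 = true :=
  ⟨(l 3), by decide +kernel⟩

theorem c_pp_011 : CertB 0 536870912 536870912 536870912 966367641 24778659 3 eng mog cd0q0 cd1q1 pd1 false true true .pnn 0 1 1
    ndB0q0 ndB1q1 pcB1 Cut.none Ext.none :=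
  certB0 (fam := false) (s1 := true) (s2 := true) (a := 0) (b := 1) (c := 1) (cn := .pnn) (n1 := ndB0q0) (n2 := ndB1q1) (pc := pcB1) (cut := Cut.none) (xt := Ext.none) (P1 := 0) (W1 := 536870912) (P2 := 536870912) (W2 := 536870912) (P3 := 966367641) (W3 := 24778659) (N0 := 3) (En := eng) (mo := mog) (C1 := cd0q0) (C2 := cd1q1) (C3 := pd1)
    rfl k0_pp_011

end Pool.Agent.Strip051.G.I9000_9231.Tab.C.BB01

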