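import Pool.Agent.Strip051.G.I9000_9231.Tab
import Pool.Agent.Strip051.PB.ExtD2

/-! # Certificates B9 (generated) -/

set_option linter.all false
set_option maxRecDepth 100000

namespace Pool.Agent.Strip051.G.I9000_9231.Tab.C.BB01

open Pool.Agent.Strip051.PB Pool.Agent.Strip051.PB.T
open Pool.Agent.Strip051.G.I9000_9231.Tab

noncomputable def cut_pp_012_a : Cut := Cut.of [[⟨0, 0, 0, 67108864⟩, ⟨1, 1, 0, 67108864⟩, ⟨2, 1, 0, 67108864⟩]]

noncomputable def xt_pp_012_a : Ext := extD2 3 ⟨4, 1, 1, 5, 37, 10, 843, 1000, 41, 100, 1, 8⟩ eng cd0q0 cd1q2a pd1 false true true .pnp 0 1 2 rfl ndB0q0 ndB1q2a pcB1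

noncomputable def f_pp_012_a : ℕ → ℕ → ℕ → ℕ → Bool := onCell 536870912 536870912 0 536870912 966367641 24778659
    (rowB 3 eng mog cd0q0 cd1q2a pd1 2 false true true .pnp 0 1 2 (qsf 0 536870912 0 536870912 1) ndB0q0 ndB1q2a pcB1 cut_pp_012_a xt_pp_012_a)

def k0_pp_012_a : ∃ t, chk3 f_pp_012_a t 2 1 1 = true :=
  ⟨(l 3), by decide +kernel⟩

def k1_pp_012_a : ∃ t, chk3 f_pp_012_a t 6 1 1 = true :=
  ⟨(b (a (b (a (l 3) (b (a (b (a (l 3) (b (a (l 118279251799) (b (l 100025616823) (l 126332299031))) (l 3))) (l 3)) (b (a (b (a (b (l 16715584) (l 100562482199)) (l 16711576)) (a (l 127406032599) (b (l 100562476791) (l 123647933223)))) (b (l 16676736) (a (b (l 16711536) (l 100562471831)) (l 16707784)))) (a (l 3) (b (a (l 125258538375) (b (l 98414982887) (l 121500439047))) (l 3))))) (l 3))) (l 3)) (b (a (b (a (b (a (b (l 16692104) (l 16673288)) (l 16664568)) (a (b (c (l 75866438519) (l 94120007991)) (a (l 123647915303) (b (l 16689584) (l 120426687271)))) (b (l 16675640) (a (l 92509378551) (l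 16701936))))) (b (a (l 16675880) (l 16666688)) (a (b (l 16686552) (l 16673280)) (l 16659712)))) (a (b (a (l 3) (b (a (l 122574163687) (l 97878089495)) (l 3))) (l 3)) (b (a (b (a (l 16683952) (l 16699784)) (a (l 121500411863) (l 94119984055))) (b (l 16671192) (a (l 16681968) (l 16676784)))) (a (l 3) (b (a (l 120963535015) (l 90361880679)) (l 126332242375)))))) (b (a (b (l 16632264) (a (l 16671128) (l 16661728))) (b (l 16635832) (l 16626872))) (b (a (a (a (l 16667712) (l 16662688)) (l 16655224)) (c (l 16654744) (l 16647600))) (a (c (a (b (l 16692512) (l 91972496727)) (l 16664560)) (a (b (l 16683384) (l 93046261255)) (l 16677984))) (a (b (l 16656680) (l 16664656)) (l 16629464)))))) (a (l 3) (b (a (b (a (b (l 119889782535) (l 3)) (b (a (l 89825003127) (l 16660016)) (l 113447322039))) (l 3)) (c (b (a (b (l 16686160) (l 16673088)) (l 16657840)) (a (l 105394258807) (b (l 16669720) (l 96804321143)))) (b (a (l 84456296167) (l 16696368)) (a (l 94656903447) (l 58149628215))))) (l 3))))) (l 3)), by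 decide +kernel⟩

def k2_pp_012_a : ∃ t, chk3 f_pp_012_a t 14 2 1 = true :=
  ⟨(b (a (b (a (l 16582392) (l 16564064)) (a (b (l 16600152) (a (l 16640240) (l 16629872))) (a (l 16591816) (l 16581112)))) (a (b (l 16566120) (c (l 16594160) (l 16598968))) (b (l 16547544) (c (l 16570000) (l 16579672))))) (a (b (a (a (c (b (l 16667400) (b (l 16679024) (l 16666104))) (b (l 16686344) (l 16661608))) (b (l 16623784) (c (l 16628960) (l 16692928)))) (b (a (l 16612448) (l 16600824)) (c (a (l 16658064) (l 16644784)) (a (l 16682024) (l 16649968))))) (a (b (c (a (b (l 89288116167) (l 3)) (b (l 16661864) (l 83919394535))) (a (l 101636186071) (l 54928390519))) (l 3)) (b (c (a (b (l 16669632) (l 16635744)) (b (l 16655952) (l 16663752))) (a (l 36137898055) (l 16645440))) (a (c (b (a (l 16657600) (l 16661424)) (l 80698171943)) (l 79624461671)) (b (c (c (l 16665032) (l 16678664)) (l 16679120)) (c (a (l 81771901431) (l 51707114967)) (l 16666784))))))) (b (a (a (b (l 16609992) (l 16582272)) (b (l 16598120) (l 16569800)))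 (a (b (l 16586296) (l 16557336)) (b (l 16574648) (l 16545208)))) (b (a (c (a (b (l 16641960) (l 16649512)) (b (l 16627768) (l 16635104))) (a (l 16654680) (l 16642880))) (a (b (l 16588752) (l 16575176)) (b (l 16576328) (l 16562680)))) (a (c (a (b (c (l 16649920) (l 16664696)) (b (l 16621320) (c (l 16659904) (l 16674952)))) (b (l 16621744) (c (l 16642688) (l 16658808)))) (a (b (l 16666960) (l 16675464)) (b (l 16654864) (l 16663168)))) (c (a (b (l 16628472) (c (l 16627984) (l 16645160))) (b (l 16614896) (l 16601960))) (a (l 16626168) (l 16614608)))))))), by decide +kernel⟩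

def k3_pp_012_a : ∃ t, chk3 f_pp_012_a t 15 2 1 = true :=
  ⟨(a (b (a (b (l 16509232) (c (l 16547768) (l 16561600))) (b (l 16514472) (c (l 16527880) (l 16564592)))) (b (a (c (b (l 16560736) (l 16550976)) (b (l 16598240) (l 16589856))) (c (b (l 16539200) (l 16549600)) (l 16510952))) (b (a (c (a (l 16591136) (l 16579120)) (l 16561856)) (a (l 16524712) (l 16513920))) (a (c (a (b (l 16602136) (l 16610168)) (b (l 16590016) (l 16598016))) (a (l 16603576) (l 16613600))) (a (b (l 16556440) (l 16543280)) (b (l 16545368) (l 16553032))))))) (b (b (a (l 16503112) (l 16520472)) (a (c (l 16512984) (l 16549896)) (l 16461296))) (b (a (c (l 16464400) (l 16524928)) (c (l 16497456) (l 16515160))) (b (a (c (l 16543464) (l 16562696)) (c (l 16533344) (l 16572392))) (a (a (b (l 16556520) (l 16543048)) (b (l 16548552) (l 16555888))) (a (b (l 16542864) (l 16550048)) (l 16501712))))))), by decide +kernel⟩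

def k4_pp_012_a : ∃ t, chk3 f_pp_012_a t 28 6 1 = true :=
  ⟨(b (a (l 3) (b (b (a (l 3) (c (b (a (l 3) (l 16661536)) (l 3)) (l 81235086103))) (l 3)) (l 3))) (l 3)), by decide +kernel⟩

def k5_pp_012_a : ∃ t, chk3 f_pp_012_a t 29 12 1 = true :=
  ⟨(a (b (c (c (a (b (a (l 22716136615) (l 16651848)) (a (l 72108277751) (b (l 16668784) (l 51707165751)))) (b (b (l 16648880) (l 16653192)) (a (b (l 16661336) (l 16655400)) (b (l 16653968) (l 16658568))))) (b (a (l 46338428663) (l 16667264)) (a (l 72645120839) (a (l 16679600) (l 16672720))))) (a (b (l 16663136) (l 75329495687)) (b (l 16650768) (l 36674763527)))) (a (l 3) (b (c (c (a (b (l 46875322263) (l 3)) (b (l 16659712) (l 42580350311))) (a (l 64055197911) (l 65665796775))) (a (l 16671760) (l 16665632))) (l 3)))) (b (c (c (b (a (l 16639088) (l 16622536)) (a (a (l 16646440) (l 16621016)) (b (l 16629296) (l 16613048)))) (a (b (l 16653656) (a (l 16665944) (l 16659288))) (b (l 16640584) (l 16649560)))) (a (b (l 16659680) (l 16647472)) (b (l 16647976)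 (l 16635704)))) (b (a (c (c (a (b (l 16635184) (c (l 16657032) (l 16665200))) (b (l 16649144) (l 16643632))) (a (l 16675328) (l 16668712))) (b (l 16654200) (l 16658792))) (c (a (b (l 16629976) (c (l 16647296) (l 16664640))) (b (l 16644424) (l 16617928))) (c (l 16656304) (l 16675200)))) (a (c (c (a (b (a (l 39359119815) (l 16657912)) (l 60297076839)) (a (b (l 16650496) (l 36674761943)) (b (l 16657552) (l 25400464567)))) (a (l 57612737927) (b (l 16676072) (l 16681216)))) (b (l 29158585111) (l 26474240903))) (a (c (b (c (l 16641992) (l 16669624)) (c (b (l 16656464) (l 16651312)) (l 16674736))) (l 16667408)) (c (c (b (l 16645848) (l 16646000)) (l 16665888)) (l 16651096))))))), by decide +kernel⟩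

def k6_pp_012_a : ∃ t, chk3 f_pp_012_a t 29 13 1 = true :=
  ⟨(b (a (l 3) (a (a (l 3) (b (c (b (c (c (l 33990397511) (l 16674280)) (l 16686600)) (l 3)) (l 54391539911)) (l 3))) (b (c (c (a (b (c (a (l 23789866423) (l 16657616)) (l 16667496)) (a (l 3) (b (l 16655528) (l 16658560)))) (b (b (l 16644904) (l 16650352)) (a (a (l 33990402407) (l 25400464199)) (c (l 16656880) (l 16665056))))) (a (b (l 16680024) (l 16685600)) (b (l 16673712) (l 16679144)))) (c (a (l 16678928) (l 16672800)) (l 21642430423))) (a (l 3) (b (c (c (a (a (l 3) (l 21105510807)) (b (l 16654912) (l 16660672))) (l 16687512)) (l 16678792)) (l 3)))))) (l 3)), by decide +kernel⟩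

def k7_pp_012_a : ∃ t, chk3 f_pp_012_a t 14 7 1 = true :=
  ⟨(l 3), by decide +kernel⟩

def k8_pp_012_a : ∃ t, chk3 f_pp_012_a t 30 12 1 = true :=
  ⟨(b (a (c (a (a (b (l 16621808) (l 16609936)) (b (l 16615616) (l 16624736))) (b (l 16606568) (a (l 16618704) (l 16612696)))) (a (b (l 16636792) (l 16624448)) (b (l 16625656) (l 16634184)))) (c (a (b (l 16594728) (l 16582856)) (b (l 16583640) (l 16592680))) (a (b (l 16634960) (l 16622384)) (b (l 16623336) (l 16610600))))) (a (c (a (c (b (b (l 16604960) (l 16629720)) (a (b (l 16639408) (l 16644832)) (b (l 16633160) (l 16638616)))) (b (a (l 16649696) (l 16643688)) (a (l 16659728) (l 16653744)))) (b (a (l 16596960) (l 16601448)) (a (b (l 16636080) (l 16620432)) (b (l 16630088) (l 16635432))))) (a (b (a (l 16657072) (l 16651504)) (a (l 16645376) (l 16639776))) (b (l 16622072) (b (l 16649880) (l 16633600))))) (c (c (a (b (l 16583368) (b (l 16612216) (l 16596760))) (b (l 16593320) (l 16602664))) (a (b (l 16622920) (l 16638232)) (b (l 16611552) (l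 16621568)))) (a (b (l 16610160) (b (l 16637896) (l 16621576))) (b (l 16598232) (b (l 16625880) (l 16609504))))))), by decide +kernel⟩

def k9_pp_012_a : ∃ t, chk3 f_pp_012_a t 60 26 1 = true :=
  ⟨(c (c (a (a (b (b (l 16645184) (b (l 16644256) (l 16651128))) (a (b (b (l 16662224) (l 16654776)) (b (l 23252990391) (l 3))) (b (c (l 16656616) (l 16664704)) (b (l 16654760) (l 17347410391))))) (b (b (l 16623280) (a (l 16651584) (l 16648552))) (b (a (l 16649720) (l 16644088)) (a (b (l 16662200) (l 16654856)) (c (l 16656824) (l 16664784)))))) (b (a (b (l 16638216) (l 16633576)) (b (l 16632224) (l 16638096))) (a (b (a (l 16651592) (l 16648616)) (a (l 16649960) (l 16644376))) (b (l 16633680) (b (l 16648832) (l 16652008)))))) (a (b (a (b (l 16667576) (l 16673016)) (b (l 16661624) (l 16667080))) (a (b (l 16678608) (b (l 16682952) (l 16686008))) (b (l 16672688) (l 16679760)))) (b (a (l 16663744) (l 16652568)) (a (b (l 16666840) (l 16672624)) (b (l 16660928) (l 16666720)))))) (b (a (a (b (l 16673480)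 (l 16678360)) (b (l 16667880) (l 16672752))) (a (b (l 16662264) (l 16667136)) (b (l 16656400) (l 16661264)))) (a (a (b (l 16672848) (l 18958056775)) (b (l 16667240) (a (l 16684160) (l 16681376)))) (a (b (l 16672104) (b (l 16675880) (l 16678432))) (b (l 16666224) (b (l 16670000) (l 16672552))))))), by decide +kernel⟩

def k10_pp_012_a : ∃ t, chk3 f_pp_012_a t 61 26 1 = true :=
  ⟨(c (a (b (a (b (l 16614040) (c (l 16632216) (l 16649336))) (b (l 16629200) (l 16621784))) (b (a (c (l 16638296) (l 16654976)) (c (l 16632576) (l 16649088))) (a (c (l 16634096) (l 16660776)) (c (l 16638872) (l 16654896))))) (b (a (b (l 16623576) (l 16629264)) (b (l 16618216) (l 16623904))) (b (a (b (l 16633640) (l 16636624)) (l 16624528)) (a (c (l 16633376) (l 16649152)) (b (l 16634288) (l 16637360)))))) (c (b (a (a (l 16664560) (l 16658520)) (a (l 16652552) (l 16646784))) (b (a (l 16663968) (l 16657264)) (a (a (l 16677560) (l 16671488)) (a (l 16665496) (l 16659688))))) (a (a (b (l 16683144) (l 16671584)) (b (l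 16676944) (l 16665336))) (b (a (l 16670744) (l 16664688)) (a (l 16659088) (b (l 16671576) (l 16676296))))))), by decide +kernel⟩

def k11_pp_012_a : ∃ t, chk3 f_pp_012_a t 60 27 1 = true :=
  ⟨(a (b (a (b (a (l 3) (a (l 3) (c (c (l 9294358775) (l 16688344)) (l 16691752)))) (l 3)) (a (b (c (c (b (l 16661872) (l 16664152)) (l 16685968)) (l 16678984)) (l 3)) (c (b (c (b (l 16665568) (l 16660976)) (l 16682920)) (c (b (l 16664440) (l 3)) (l 16689328))) (b (l 16676056) (l 35064197479))))) (l 3)) (a (b (c (b (c (c (a (l 16660392) (l 16657440)) (l 16656192)) (l 16678568)) (c (a (b (l 16658712) (l 16664824)) (b (l 16666264) (l 16669640))) (a (l 16686208) (l 16683216)))) (b (b (l 16681008) (l 16673120)) (c (l 16690032) (l 16695856)))) (b (c (c (c (a (l 16664240) (l 14126184199)) (l 5536277527)) (a (l 16692976) (l 16689720))) (c (l 16696072) (l 16701264))) (l 3))) (c (b (b (c (b (l 16644760) (l 16648040)) (l 16672680)) (c (c (b (l 16658104) (l 16661560)) (l 16656832)) (l 16680768))) (b (c (a (b (l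 16670152) (l 16663192)) (a (l 16661856) (l 16657784))) (b (l 16683488) (l 16686704))) (c (a (c (l 16665520) (l 16682904)) (b (l 16663816) (l 16667584))) (b (l 16690080) (l 16693616))))) (c (b (b (l 16689024) (l 16694568)) (b (l 9294413287) (b (l 16704744) (l 16707944)))) (b (a (l 16688960) (l 16685944)) (b (l 16694968) (l 16700400))))))), by decide +kernel⟩

def k12_pp_012_a : ∃ t, chk3 f_pp_012_a t 61 27 1 = true :=
  ⟨(b (a (c (b (a (c (b (l 16649408) (l 16652704)) (l 16666744)) (c (l 16640128) (l 16660864))) (a (c (b (l 16645568) (l 16648968)) (l 16672880)) (c (b (l 16650368) (l 16653776)) (l 16667000)))) (c (b (a (l 16682984) (l 16676912)) (a (l 16688536) (l 16682456))) (c (a (l 16698112) (l 16691880)) (a (l 16685528) (l 16679200))))) (c (c (a (b (l 16629400) (l 16641360)) (b (l 16634664) (l 16630904))) (a (b (l 16655120) (l 16661264)) (b (l 16649608) (l 16655744)))) (c (a (b (l 16670904) (l 16676448)) (b (l 16665088) (l 16670616))) (a (b (l 16687240) (l 16692160)) (b (l 16681104)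 (l 16686016)))))) (c (a (b (a (b (c (l 16655040) (l 16677584)) (c (l 16661168) (l 16680776))) (c (b (l 16646752) (l 16650264)) (l 16673320))) (a (c (c (a (l 16669808) (l 16666976)) (l 16668656)) (b (l 16684016) (l 16687296))) (c (b (l 16656456) (l 16662704)) (c (l 16676344) (l 16683296))))) (b (a (c (a (l 16644392) (l 16652208)) (l 16667576)) (c (l 16643408) (l 16662056))) (a (c (b (l 16648376) (l 16654624)) (a (l 16675488) (l 16672664))) (c (a (l 16646264) (l 16643720)) (c (l 16659968) (l 16661376)))))) (c (a (b (a (l 16694216) (l 16688136)) (a (b (l 16698552) (l 16701496)) (b (l 16692472) (l 16695416)))) (b (a (l 16682120) (l 16676288)) (a (b (l 16686456) (l 16689400)) (b (l 16680624) (l 16683536))))) (a (b (a (l 16688792) (l 16682504)) (a (l 16693912) (b (l 16707288) (l 16709872)))) (a (b (b (l 16695896) (l 16698432)) (c (l 16698648) (l 16705936))) (b (l 16692320) (b (l 16694816) (l 16697368)))))))), by decide +kernel⟩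

def k13_pp_012_a : ∃ t, chk3 f_pp_012_a t 62 12 1 = true :=
  ⟨(b (a (b (c (l 16573824) (l 16612888)) (a (l 16541000) (l 16536312))) (b (l 16521808) (b (l 16548984) (l 16532352)))) (c (a (b (l 16581904) (a (l 16605040) (l 16600432))) (b (l 16584216) (a (l 16596304) (l 16592744)))) (a (b (l 16608448) (a (l 16619848) (l 16635848))) (b (l 16620568) (b (l 16627064) (l 16631552)))))), by decide +kernel⟩

def k14_pp_012_a : ∃ t, chk3 f_pp_012_a t 62 13 1 = true :=
  ⟨(b (c (c (a (b (b (l 16602600) (l 16587528)) (a (l 16614856) (l 16605064))) (b (l 16586976) (b (l 16606456) (l 16607464)))) (a (b (a (l 16624344) (l 16619616)) (a (l 16635592) (l 16630840))) (b (l 16613456) (a (l 16626576) (l 16622824))))) (c (b (a (a (l 16641384) (l 16636464)) (l 16630024)) (a (a (l 16651640) (l 16646688)) (a (l 16642240) (l 16638272)))) (b (a (a (l 16659040) (l 16653912)) (a (l 16649304) (l 16645208))) (a (a (l 16647288) (l 16663096)) (a (l 16658456) (l 16654256)))))) (c (a (b (a (b (b (l 16635424) (l 16638592))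 (b (l 16641808) (l 16645072))) (b (b (l 16630768) (l 16633928)) (b (l 16637144) (l 16640392)))) (a (b (c (l 16638136) (l 16656840)) (c (b (l 16648720) (l 16652376)) (l 16663368))) (b (c (l 16628352) (l 16646872)) (c (l 16640824) (l 16653480))))) (b (a (b (l 16628152) (b (l 16632960) (l 16636256))) (b (l 16624576) (l 16631104))) (a (b (b (l 16639608) (l 16643056)) (b (l 16646584) (l 16650192))) (b (l 16643208) (b (l 16643296) (l 16646960)))))) (c (a (b (a (b (l 16659640) (l 16665160)) (a (l 16658640) (l 16656232))) (a (b (l 16670784) (l 16679264)) (b (l 16665864) (l 16671824)))) (b (a (b (l 16650184) (l 16655752)) (b (l 16646328) (l 16652024))) (a (b (l 16661576) (l 16667760)) (b (l 16658064) (l 16664432))))) (a (b (a (b (l 16675384) (l 16680272)) (b (l 16670200) (l 16675040))) (a (b (b (l 16684000) (l 16686496)) (a (l 16691744) (l 16689064))) (b (l 16685336) (b (l 16684016) (l 16686760))))) (b (a (b (l 16665512) (l 16670464)) (b (l 16661464) (l 16666568))) (a (b (l 16675656) (l 16686472))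 (b (l 16672040) (l 16677848)))))))), by decide +kernel⟩

def k15_pp_012_a : ∃ t, chk3 f_pp_012_a t 63 6 1 = true :=
  ⟨(c (b (b (a (l 16564688) (l 16562096)) (a (b (l 16578456) (l 16588624)) (b (l 16575768) (l 16585872)))) (b (a (b (a (l 16600720) (l 16598496)) (a (b (l 16609336) (l 16615416)) (l 16610336))) (b (a (l 16597184) (l 16596848)) (a (l 16609136) (l 16609048)))) (a (b (a (b (l 16621744) (l 16628408)) (b (l 16619816) (l 16626576))) (a (b (l 16635368) (l 16642632)) (b (l 16633624) (l 16640960)))) (b (a (l 16622264) (l 16622344)) (a (b (l 16632800) (l 16640200)) (l 16647200)))))) (b (b (a (l 16559992) (l 16577360)) (a (b (l 16613952) (l 16580680)) (b (l 16610224) (l 16597832)))) (b (a (a (b (l 16612240) (b (l 16640336) (l 16645384))) (b (l 16609504) (b (l 16637784) (l 16642952)))) (b (a (l 16628696) (l 16627928)) (a (l 16617928) (l 16617592)))) (a (c (b (a (l 16646208) (l 16644176)) (a (b (l 16655376) (l 16661896)) (l 16656920))) (a (b (b (l 16658208) (l 16663584)) (b (l 16669280)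 (l 16675296))) (b (l 16658760) (b (l 16667440) (l 16673632))))) (b (a (a (l 16629528) (l 16629256)) (l 16618872)) (a (b (l 16659608) (l 16645192)) (a (l 16642016) (l 16642400)))))))), by decide +kernel⟩

def k16_pp_012_a : ∃ t, chk3 f_pp_012_a t 60 14 1 = true :=
  ⟨(l 3), by decide +kernel⟩

def k17_pp_012_a : ∃ t, chk3 f_pp_012_a t 61 56 1 = true :=
  ⟨(c (a (b (a (c (a (c (l 16667136) (l 16673640)) (c (l 16664696) (l 16680992))) (b (l 16690704) (l 16689048))) (c (b (l 16666376) (b (l 16663928) (l 16665808))) (c (l 16677944) (l 16679304)))) (a (a (l 3) (c (a (l 3) (l 16674512)) (l 16698288))) (c (a (c (l 16670448) (l 16675184)) (a (l 16675144) (l 16673760))) (a (l 16692328) (l 16691856))))) (b (a (c (b (l 16658304) (l 16664648)) (c (l 16672248) (l 16678704))) (c (a (l 16658880) (l 16656360)) (c (l 16666856) (l 16673160)))) (a (c (b (l 16668456) (l 16672328)) (b (l 16680608) (l 16684112))) (c (a (l 16666520) (l 16664056)) (b (l 16675168) (l 16678752)))))) (c (a (a (b (b (l 16704544) (l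 16707768)) (b (l 16711160) (l 3))) (a (b (l 16701424) (l 16707688)) (b (l 16698392) (l 16704464)))) (b (a (b (l 16692376) (l 16695360)) (b (l 16686536) (l 16689584))) (a (b (l 16698432) (l 16701552)) (c (l 16691240) (l 16697392))))) (a (a (b (b (l 16718848) (l 16700720)) (l 16705320)) (b (c (l 16710280) (l 16717344)) (b (l 16707288) (c (l 16717296) (l 16723848))))) (b (a (c (l 16703984) (l 16710888)) (a (l 16702824) (l 16699864))) (a (a (l 16714360) (l 16712576)) (a (l 16708256) (l 16705424))))))), by decide +kernel⟩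

def k18_pp_012_a : ∃ t, chk3 f_pp_012_a t 61 57 1 = true :=
  ⟨(b (a (a (l 3) (a (l 3) (c (c (b (l 16680432) (l 16684824)) (c (l 16692512) (l 16697008))) (c (a (l 16711984) (l 32379890999)) (b (l 16721728) (l 16724920)))))) (b (c (a (c (a (l 16682824) (l 16680216)) (l 16690304)) (c (l 16671568) (l 16685040))) (a (c (l 16704736) (b (l 16716240) (l 16717664))) (c (l 16699232) (b (l 16710448) (l 16711944))))) (c (a (c (a (b (l 16685840) (l 16680104)) (c (l 16681584) (l 16686984))) (a (l 16692800) (l 16695264))) (a (c (l 16681792) (l 16692672)) (c (l 16679400) (l 16690200)))) (a (a (c (l 16709536) (l 16721416)) (c (l 16706640) (l 16718408))) (a (c (l 16703936) (l 16715584)) (c (l 16701368) (l 16712928))))))) (a (l 3) (a (a (b (a (l 3) (c (c (l 17347455591) (l 16701272)) (c (l 16712368) (l 16723824)))) (l 3)) (c (c (b (b (l 16687360) (c (l 16686912) (l 16692104))) (b (b (l 16683288) (l 16685088)) (l 22716172439))) (b (l 16696464) (b (l 16699504) (l 16701680)))) (b (c (l 16710096) (b (l 16720672)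 (l 16722264))) (c (c (l 16705952) (l 16711368)) (c (l 16722112) (l 16727704)))))) (c (b (c (a (c (l 16683376) (l 16688560)) (c (l 16681032) (l 16686176))) (a (l 16693880) (l 16694064))) (c (a (b (c (l 16686616) (l 16691672)) (c (l 16688808) (l 16693784))) (c (l 16685384) (l 16690368))) (a (a (l 16698424) (l 16699808)) (l 16696048)))) (b (c (c (l 16700768) (l 16708912)) (a (l 16720008) (l 16716096))) (c (a (b (l 16710080) (l 16711888)) (l 16708512)) (a (a (l 16723632) (l 16721248)) (a (l 16719984) (l 16718760))))))))), by decide +kernel⟩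

def k19_pp_012_a : ∃ t, chk3 f_pp_012_a t 61 29 1 = true :=
  ⟨(b (a (l 3) (a (l 3) (b (a (b (b (c (c (a (a (l 16694528) (l 16693792)) (l 16692864)) (b (l 16699016) (l 16700080))) (a (c (l 16714472) (l 16725144)) (c (l 16713088) (l 16723720)))) (a (l 3) (c (c (c (l 16692744) (l 16697544)) (l 16700976)) (c (l 16715024) (l 16726792))))) (b (a (l 3) (c (a (l 3) (c (l 7146928695) (l 16706776))) (c (l 16717128) (l 16728720)))) (l 3))) (c (b (c (b (c (l 16688704) (l 16693568)) (c (l 16690944) (l 16695728))) (a (l 16700176) (l 16698848))) (a (b (c (a (b (l 16695848) (l 16697032)) (l 16693208)) (c (l 16703312) (l 16708192))) (a (l 3) (c (b (l 16697552) (l 16698792)) (l 16706296)))) (c (b (c (l 16692640) (l 16697344)) (b (l 16696656) (a (l 16695464) (l 16697504)))) (b (l 16704560) (c (l 16704264) (l 16709056)))))) (c (b (c (l 16709640) (l 16714808)) (a (b (l 16715664) (l 16717760)) (b (l 16714464) (l 16715736)))) (b (c (l 16720056) (l 16725400)) (c (a (l 16724328) (l 16721704)) (a (c (l 16725576)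 (l 16730800)) (l 16728176))))))) (b (a (l 3) (a (l 3) (b (c (c (b (a (l 16696696) (l 16696024)) (c (l 16697984) (l 16702512))) (c (l 16706544) (l 16711256))) (c (c (l 16716048) (l 16720912)) (c (l 16725864) (l 16730896)))) (l 3)))) (l 3))))) (l 3)), by decide +kernel⟩

def k20_pp_012_a : ∃ t, chk3 f_pp_012_a t 30 15 1 = true :=
  ⟨(l 3), by decide +kernel⟩

def k21_pp_012_a : ∃ t, chk3 f_pp_012_a t 62 28 2 = true :=
  ⟨(a (b (b (a (c (c (l 16644544) (l 16650512)) (l 16670160)) (c (l 16648384) (l 16665680))) (a (c (b (l 16663800) (l 16667776)) (c (l 16669144) (l 16675000))) (c (l 16656272) (l 16672968)))) (b (a (c (a (a (l 16670360) (l 16669232)) (l 16668240)) (b (l 16677632) (l 16684088))) (c (b (l 16667624) (l 16666568)) (a (l 16678968) (l 16679632)))) (c (a (b (a (l 16681312) (l 16679136)) (a (c (l 16683136) (l 16688104)) (b (l 16682360) (l 16684536)))) (b (a (l 16677064) (l 16675112)) (a (l 16681392) (l 16679456)))) (a (b (b (l 16684392) (l 16688992)) (a (l 16693104) (l 16693560)))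 (b (l 16685192) (b (l 16686912) (l 16688952))))))) (b (a (b (a (l 16661912) (l 16654912)) (b (l 16661496) (l 16665424))) (b (b (l 16650696) (l 16654512)) (c (l 16654672) (l 16666192)))) (b (a (b (l 16670736) (a (l 16674352) (l 16672688))) (b (l 16666392) (l 16673120))) (a (b (a (l 16678496) (l 16676848)) (c (l 16671552) (l 16684424))) (b (a (l 16675360) (l 16674032)) (a (l 16679592) (l 16678272))))))), by decide +kernel⟩

def k22_pp_012_a : ∃ t, chk3 f_pp_012_a t 62 28 3 = true :=
  ⟨(c (b (a (a (b (c (l 16679560) (l 16685960)) (c (l 16680960) (l 16692264))) (b (l 16680776) (l 16687456))) (a (b (l 16674280) (l 16681128)) (b (l 16671112) (l 16678104)))) (a (b (a (a (l 16699840) (l 16697568)) (c (l 143576873873506431) (l 16694720))) (a (a (b (l 16702528) (l 16706184)) (b (l 16700320) (l 16704016))) (b (l 16698616) (c (l 16695776) (l 16702424))))) (b (a (b (l 16686456) (l 16690112)) (l 16685392)) (a (a (l 16699176) (l 16697616)) (a (l 16693592) (l 16692352)))))) (b (a (a (b (b (l 16694376)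 (l 16697168)) (a (l 16702792) (l 16700368))) (b (b (l 16689600) (l 16692528)) (a (l 16698136) (l 16696104)))) (a (b (l 16690424) (a (l 16694264) (l 16692592))) (b (l 16683976) (l 16690424)))) (a (b (a (b (l 16711368) (b (l 16708488) (l 16710096))) (a (a (l 16704976) (l 16703960)) (l 16707784))) (a (a (b (l 16713688) (b (l 16716168) (l 16717848))) (b (l 16711464) (l 16717456))) (b (b (l 16707624) (l 16711944)) (a (l 16715456) (l 16711024))))) (b (a (a (l 16706032) (l 16699208)) (b (l 16695432) (l 16698872))) (b (a (a (l 16705888) (l 16704360)) (l 16702376)) (a (a (l 16709384) (l 16707888)) (l 16708568))))))), by decide +kernel⟩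

def k23_pp_012_a : ∃ t, chk3 f_pp_012_a t 248 58 2 = true :=
  ⟨(b (c (b (a (c (b (l 16686464) (l 16688712)) (l 16692408)) (b (l 16686728) (l 16688944))) (a (b (c (l 16690976) (l 16695680)) (a (c (l 16693808) (l 16698432)) (l 16692400))) (b (c (l 16688840) (l 16693544)) (c (l 16691128) (l 16695760))))) (b (a (a (l 16697720) (l 16699240)) (l 16695680)) (a (a (b (l 16703440) (l 16705528)) (b (l 16702344) (l 16704440))) (a (b (l 16701280) (l 16703384)) (l 16698688))))) (b (a (c (a (b (c (l 16696112) (l 16700664)) (c (b (c (l 16696768) (l 16699000)) (b (l 16696176) (l 16696816))) (a (l 16703304) (l 16702656)))) (b (c (l 16695024) (l 16699576)) (c (l 16697352) (l 16701824)))) (b (c (a (l 16705288) (l 16704208)) (l 16709456)) (a (c (c (l 16706400) (l 16708696)) (c (l 16711016) (l 16713344))) (c (l 16706384) (l 16711016))))) (c (c (b (l 16693440) (a (l 16696288) (l 16695248))) (a (a (l 16699912) (l 16699384)) (l 16698616))) (b (c (l 16702640) (l 16707360)) (c (l 16704816) (l 16709464))))) (b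 (a (c (a (b (c (l 16697808) (l 16704848)) (l 3)) (a (b (b (l 16701288) (l 16699256)) (c (l 16700640) (l 16705016))) (c (l 15200001639) (l 16703832)))) (a (c (l 16709984) (l 16714536)) (c (c (l 16707488) (l 16709752)) (c (l 16712024) (l 16714320))))) (a (c (c (c (l 16697544) (l 16699728)) (l 16703040)) (c (l 16707528) (l 16712088))) (b (c (l 16699216) (l 16708248)) (c (l 16700376) (l 16709328))))) (a (a (l 3) (a (l 3) (b (c (c (l 16698624) (l 16705592)) (l 16710944)) (c (a (l 3) (l 16701408)) (l 16713480))))) (c (a (c (a (b (l 16700664) (l 3925716407)) (l 16700736)) (b (l 16704760) (l 7683821527))) (c (a (l 16700216) (l 16699704)) (l 16704304))) (a (b (l 16710120) (c (l 16710312) (l 16714784))) (b (l 16710416) (l 16711512)))))))), by decide +kernel⟩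

def k24_pp_012_a : ∃ t, chk3 f_pp_012_a t 248 59 2 = true :=
  ⟨(a (l 3) (b (a (b (b (c (c (a (c (l 16700192) (l 16704928)) (b (l 16702528) (a (l 16703968) (l 16703624)))) (a (l 16705504) (b (l 16706808) (l 16708048)))) (b (a (l 16712696) (l 16712064)) (c (l 16712744) (l 16717128)))) (l 3)) (l 3)) (b (b (c (c (c (b (l 16700680) (l 16701888)) (l 16703400)) (c (l 16705536) (l 16707696))) (c (l 16710960) (l 16715384))) (a (b (c (c (a (l 16704600) (l 16704280)) (l 16708664)) (a (l 16715272) (l 16714960))) (b (c (l 16704744) (l 16716048)) (l 3))) (c (b (c (l 16703880) (l 16708104)) (c (a (l 16705256) (l 16704960)) (l 16709296))) (c (l 7683836631) (l 16717336))))) (b (b (a (l 3) (a (l 3) (c (b (l 16705352) (l 16708648)) (l 16716760)))) (l 3)) (l 3)))) (l 3))), by decide +kernel⟩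

def k25_pp_012_a : ∃ t, chk3 f_pp_012_a t 498 29 2 = true :=
  ⟨(b (b (c (b (b (l 16684688) (l 16686904)) (b (l 16689144) (l 16691408))) (b (l 16693016) (b (l 16698768) (l 16700880)))) (c (b (a (b (l 16694184) (l 16696472)) (b (l 16693192) (l 16695488))) (a (b (c (l 16696576) (l 16701008)) (c (l 16698944) (l 16703304))) (c (b (l 16695592) (l 16697952)) (l 16701184)))) (b (b (l 16700384) (c (l 16702832) (l 16707504))) (b (c (l 16705040) (l 16709632)) (c (l 16707256) (l 16711776)))))) (a (b (b (c (b (c (l 16701328) (l 16705616)) (c (c (l 16702688) (l 16704776)) (c (l 16706880) (l 16709008)))) (b (c (l 16709976) (l 16714416)) (c (l 16712232) (l 16716592)))) (a (b (c (c (b (l 11441917015) (c (l 16706080) (l 16708120))) (b (l 16709952) (l 16711216))) (c (c (l 16713752) (l 16715872)) (l 16719088))) (l 3)) (c (b (c (c (l 16704872) (l 16706928)) (l 16710040)) (b (c (a (l 16707920) (l 16707608)) (l 16711864)) (b (l 16708184) (l 3)))) (b (c (l 16714256) (l 16718552)) (c (c (l 16715640) (l 16717728))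 (l 16720240)))))) (l 3)) (b (b (b (c (c (l 16700336) (l 16704640)) (l 16708696)) (c (c (l 16702736) (l 16706968)) (c (l 16711272) (l 16715656)))) (c (b (c (c (l 16704120) (l 16706184)) (l 16709312)) (c (a (c (c (l 16707648) (l 16707344)) (l 16708864)) (l 16707344)) (a (c (l 16710904) (l 16712968)) (l 16711432)))) (b (c (l 16713544) (l 16717848)) (b (c (l 16715256) (l 16719504)) (c (l 16716424) (l 16720632)))))) (b (b (a (b (c (c (l 16709808) (l 16713840)) (l 16717392)) (l 3)) (b (c (c (l 16709184) (l 16713224)) (l 9294459767)) (c (c (l 16707880) (l 16714504)) (l 16718096)))) (l 3)) (l 3))))), by decide +kernel⟩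

def k26_pp_012_a : ∃ t, chk3 f_pp_012_a t 499 29 2 = true :=
  ⟨(b (b (b (c (l 16683872) (l 16693760)) (c (b (l 16687224) (l 16689488)) (l 16696000))) (c (c (b (l 16690640) (a (l 16695808) (l 16694872))) (b (l 16695216) (c (l 16698656) (l 16700896)))) (b (a (l 16700064) (l 16701800)) (b (l 16702864) (a (l 16708120) (l 16707232)))))) (b (b (b (c (c (l 16698904) (l 16703232)) (a (l 16710320) (l 16709440))) (c (a (c (l 16701776) (l 16706024)) (l 16702960)) (a (l 16709920) (l 16711656)))) (a (b (b (c (l 16705672) (l 16714216)) (c (l 16705552) (l 16715336))) (c (c (a (l 16706856) (l 16706384)) (l 16710728)) (c (l 16714912) (l 16719160)))) (c (c (c (l 16703432) (l 16705504)) (a (l 16708864) (l 16708408))) (b (l 16713896) (l 143629787922825343))))) (b (a (c (b (c (c (l 16708064) (l 16710072)) (c (l 16712088) (l 16714120))) (b (a (c (l 16711208) (l 16715184)) (l 16710032)) (a (c (l 16712592) (l 16716536)) (b (l 16713576) (l 16711592))))) (b (c (l 16717208) (l 16721384)) (a (b (l 16718824) (l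 16722568)) (c (l 16719320) (l 16723424))))) (b (c (c (l 16708120) (l 16712184)) (c (l 16716312) (l 16720512))) (c (c (c (l 16709600) (l 16711576)) (l 16714576)) (c (l 16718632) (l 16722752))))) (b (a (b (c (c (l 16711048) (l 16717576)) (l 16721600)) (l 3)) (b (c (c (l 16712448) (l 16716384)) (l 16720272)) (c (a (a (l 16716112) (l 16713160)) (l 16715400)) (l 6073241383)))) (a (l 3) (a (l 3) (c (c (c (l 16714536) (l 16716432)) (l 16719320)) (l 16724056)))))))), by decide +kernel⟩

def k27_pp_012_a : ∃ t, chk3 f_pp_012_a t 248 29 3 = true :=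
  ⟨(a (b (b (c (b (b (l 16708984) (l 16710872)) (b (l 16712784) (l 16715048))) (b (b (l 16719552) (l 16723896)) (c (l 16721336) (b (l 16725632) (l 16727352))))) (b (c (b (b (l 16715520) (l 16716832)) (a (b (l 16717408) (l 16719128)) (l 16717784))) (c (b (l 16724064) (b (l 16724152) (l 16725624))) (a (b (l 16729632) (l 16731480)) (l 16730104)))) (b (c (a (c (l 16719160) (l 16723864)) (b (l 16718952) (l 16720336))) (a (c (l 16728648) (l 16733504)) (c (l 16725992) (l 16732488)))) (a (l 3) (a (l 3) (c (a (l 16721824) (l 16721648)) (c (l 16729024) (l 16733800)))))))) (l 3)) (b (b (c (b (l 16709104) (c (l 16706544) (l 16712848))) (b (a (l 16721424) (l 16720400)) (c (l 16719248) (l 16725720)))) (c (b (b (l 16714920) (b (l 16715424) (l 16716744))) (b (a (l 16718920) (l 16718088)) (a (c (l 16718800) (l 16723440)) (l 16720112)))) (b (c (b (l 16722000) (l 16723864)) (a (l 16729088) (l 16727456))) (c (a (b (l 16726240) (l 16727168)) (b (l 16725272) (l 16727168))) (b (l 16731120) (a (l 16733104) (l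 16731976))))))) (b (b (a (b (c (b (b (l 16721768) (l 16722488)) (b (l 16723056) (l 16723488))) (c (c (l 16726432) (l 16729424)) (c (l 16732432) (l 16735456)))) (l 3)) (c (b (b (l 16721640) (l 16722176)) (a (b (l 16723336) (l 16725160)) (b (l 16723456) (l 16723864)))) (b (c (l 16729096) (l 16733816)) (c (c (l 16727688) (l 16730312)) (b (l 16734912) (l 16736256)))))) (b (a (l 3) (c (c (l 16721832) (l 16727552)) (c (l 16733016) (c (l 16736752) (l 16736432))))) (l 3))) (l 3)))), by decide +kernel⟩

def k28_pp_012_a : ∃ t, chk3 f_pp_012_a t 498 29 3 = true :=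
  ⟨(b (b (c (b (l 16705816) (b (l 16708720) (l 16710680))) (b (a (l 16719424) (l 16715872)) (b (l 16721624) (l 16723424)))) (c (b (b (l 16712656) (l 16714656)) (b (c (l 16714304) (l 16719056)) (c (l 16716376) (l 16721048)))) (b (c (l 16721048) (b (l 16725168) (l 16726968))) (a (c (l 16725288) (l 16731128)) (c (l 16724400) (l 16729928)))))) (a (b (b (c (b (l 16721368) (c (l 16721024) (l 16725528))) (b (c (l 16728168) (l 16732904)) (c (l 16730112) (l 16734768)))) (a (b (c (b (l 16724408) (l 16725864)) (c (l 16731376) (l 16737336))) (l 3)) (c (b (a (l 16725232) (l 16725000)) (c (l 16725184) (l 143732867165356159))) (b (c (l 16731848) (l 16736424)) (c (l 16732648) (b (l 16737896) (l 16738992))))))) (l 3)) (b (c (b (b (l 16720296) (l 16722688)) (b (c (l 16722224) (l 16726672)) (b (l 16725680) (b (l 16726144) (l 16727016))))) (b (c (l 16728544) (c (l 16734408) (l 16734160))) (b (c (l 16731192) (l 16735784)) (c (l 16732776) (c (l 16736560) (l 16738184)))))) (b (b (c (b (c (l 16726064) (l 16730376))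 (c (l 16727272) (l 16731544))) (c (c (l 16731616) (l 16735128)) (a (l 16740696) (l 16740112)))) (l 3)) (l 3))))), by decide +kernel⟩

def k29_pp_012_a : ∃ t, chk3 f_pp_012_a t 499 29 3 = true :=
  ⟨(b (b (c (b (l 16703984) (l 16709208)) (b (l 16717176) (a (l 16721200) (l 16720376)))) (c (b (c (l 16709440) (l 16714336)) (c (l 16711592) (l 16717648))) (b (c (l 16719320) (l 16725688)) (c (l 16723624) (c (l 16729424) (l 16729272)))))) (b (c (b (a (b (l 16719416) (l 16721488)) (b (l 16718576) (l 16720648))) (a (b (l 16723896) (c (l 16723480) (l 16727872))) (b (l 16722736) (l 16724832)))) (b (a (c (l 16727416) (l 16733464)) (c (l 16726616) (l 16732680))) (c (a (b (l 16730360) (l 16732336)) (l 16730552)) (b (l 16735400) (c (l 16734024) (l 16736968)))))) (a (b (c (b (c (l 16725632) (l 16729944)) (c (l 16725768) (l 16730824))) (b (c (l 16734328) (l 16738784)) (c (l 16736600) (b (l 16740264) (l 16741320))))) (b (b (c (l 16731952) (c (l 16738128) (l 16742432))) (l 3)) (l 3))) (b (c (c (b (l 16724784)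 (l 16726944)) (l 16730000)) (b (c (l 16733528) (l 16738008)) (c (l 16735536) (l 16739928)))) (c (b (c (l 16726872) (l 16732032)) (c (l 16728944) (l 16733040))) (c (b (l 16737592) (l 16739824)) (b (b (l 16741376) (l 16742392)) (b (l 16743472) (l 16744600))))))))), by decide +kernel⟩

def k30_pp_012_a : ∃ t, chk3 f_pp_012_a t 500 29 1 = true :=
  ⟨(c (b (c (b (b (l 16682072) (l 16686568)) (b (l 16686864) (b (l 16694592) (l 16696920)))) (b (b (l 16692016) (l 16696240)) (b (l 16699216) (b (l 16703776) (l 16705968))))) (b (b (c (b (a (l 16699704) (l 16698840)) (a (l 16702064) (l 16701200))) (b (l 16705552) (l 16708424))) (c (a (b (l 16704440) (l 16705528)) (b (l 16703576) (l 16705968))) (b (l 16711152) (a (l 16715288) (l 16714472))))) (b (c (b (c (a (l 16707208) (l 16706328)) (l 16710864)) (a (c (l 16709672) (l 16713680)) (l 16710800))) (b (b (l 16714600) (l 16715736)) (b (l 16716872) (l 16718176)))) (b (c (a (b (l 16713496) (l 16714728)) (c (l 16711280) (l 16715232))) (a (c (l 16720088) (l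 16724152)) (l 16721280))) (a (a (b (c (l 16716176) (l 16724048)) (l 6)) (l 6)) (l 6)))))) (b (b (b (c (l 16702312) (l 16715568)) (c (l 16706240) (b (l 16715664) (l 16717496)))) (c (b (l 16711552) (c (l 16711912) (l 16716704))) (b (b (l 16719352) (l 16723832)) (c (l 16721576) (l 16727832))))) (b (c (b (c (l 16714144) (l 16720096)) (c (a (l 16720752) (l 16719968)) (l 16724928))) (b (c (l 16726120) (a (l 16730624) (l 16729904))) (c (a (l 16729784) (l 16729048)) (a (l 16735720) (l 16733696))))) (b (c (a (b (l 16726144) (l 16728256)) (b (l 16725360) (l 16727472))) (b (c (l 16732392) (l 16737560)) (c (l 16734384) (l 16739472)))) (c (b (a (l 16730376) (l 16729584)) (c (l 14126318615) (l 16733856))) (b (c (l 16736368) (l 16742024)) (a (c (l 16738768) (l 16743016)) (l 6)))))))), by decide +kernel⟩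

def k31_pp_012_a : ∃ t, chk3 f_pp_012_a t 501 29 1 = true :=
  ⟨(b (b (c (b (b (l 16684288) (l 16686456)) (b (l 16688640) (l 16690832))) (c (a (l 16705752) (l 16705024)) (c (l 16711960) (l 16719288)))) (b (c (c (l 16689472) (l 16698944)) (c (l 16708744) (a (l 16721824) (l 16718536)))) (c (c (l 16690168) (l 16701992)) (c (l 16714120) (a (l 16725600) (l 16724936)))))) (b (c (c (b (b (l 16697600) (l 16699960)) (a (a (l 16704144) (l 16703736)) (l 16703144))) (b (l 16707056) (a (l 16711248) (l 16711800)))) (c (b (c (l 16714600) (l 16719288)) (c (l 16718840) (l 16723376))) (b (c (l 16724056) (l 16728896)) (c (l 16727992) (l 16734312))))) (b (c (a (c (b (l 16707544) (l 16709968)) (l 16716416)) (c (l 143615837850943615) (l 16716304))) (c (b (l 16724240) (l 16726344)) (c (l 16733248) (a (l 16736800) (l 16736112))))) (l 6)))), by decide +kernel⟩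

def k32_pp_012_a : ∃ t, chk3 f_pp_012_a t 251 29 1 = true :=
  ⟨(b (b (b (c (a (l 16686520) (l 16682584)) (c (l 16698776) (a (l 16710176) (l 16709032)))) (c (c (l 16678768) (l 16691240)) (c (l 16705368) (b (l 16714960) (l 16716488))))) (a (b (c (b (l 16691576) (l 16693808)) (c (l 16707392) (l 16720216))) (c (c (l 16692584) (l 16701864)) (c (l 16711464) (a (l 16721688) (l 16721088))))) (c (c (l 16687608) (l 16700712)) (b (c (l 16706192) (l 16716480)) (c (l 16710264) (l 16722880)))))) (b (a (c (b (c (l 143628069893226623) (l 16703648)) (c (l 16699392) (l 16710728))) (c (b (l 16715584) (l 16722352)) (b (a (l 16728128) (l 16724904)) (b (l 16728064) (l 16732600))))) (b (c (b (l 16699264) (l 16701544)) (c (l 16714360) (l 16726672))) (l 6))) (l 6))), by decide +kernel⟩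

def k33_pp_012_a : ∃ t, chk3 f_pp_012_a t 63 14 1 = true :=
  ⟨(b (b (a (c (a (b (l 16650184) (l 16663264)) (b (l 16648576) (l 16656456))) (c (a (b (l 16668720) (l 16675832)) (b (l 16667168) (l 16674368))) (a (b (l 16681600) (l 16688200)) (a (l 16662776) (l 16683248))))) (a (b (c (l 16647856) (l 16652000)) (c (l 16655760) (l 16659040))) (c (b (l 16648096) (l 16656016)) (b (l 16652368) (l 16659472))))) (a (b (c (a (b (l 16664064) (l 16668184)) (l 16669840)) (a (c (l 16683208) (a (l 16695520) (l 16694664))) (b (l 16664936) (l 16668600)))) (a (c (b (l 16672376) (l 16679240)) (c (l 16693456) (a (l 16702608) (l 16701792)))) (c (b (l 16670840) (l 16675088)) (c (l 16689488) (l 16690472))))) (a (c (b (l 16663904) (l 16672280)) (b (l 16666304) (b (l 16671832) (l 16675560)))) (b (c (l 16664160) (l 16666704)) (c (l 16672504) (l 16674024)))))) (a (a (b (b (c (c (l 16677440) (a (l 16688720) (l 16687784))) (c (a (l 16699152) (l 16698288)) (a (b (l 16708056) (l 16711768)) (l 16698648)))) (c (c (a (l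 16685112) (l 16686728)) (b (l 16694624) (l 16698960))) (c (a (l 16712264) (l 16706296)) (a (b (l 16715512) (l 16719264)) (b (l 16714688) (l 16718400)))))) (a (a (b (b (c (l 16699520) (c (l 16713536) (l 16723264))) (l 6)) (l 6)) (l 6)) (l 6))) (b (b (c (c (l 16666016) (l 16686736)) (c (l 16702560) (a (l 16708504) (l 16708048)))) (a (b (c (l 16688472) (l 16693016)) (l 6)) (l 6))) (l 6))) (b (b (a (a (c (l 16680952) (l 16681256)) (l 6)) (l 6)) (l 6)) (l 6)))), by decide +kernel⟩

def k34_pp_012_a : ∃ t, chk3 f_pp_012_a t 31 15 1 = true :=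
  ⟨(a (a (l 3) (b (l 6) (l 3))) (l 6)), by decide +kernel⟩

theorem s35_pp_012_a : ∃ t, chk3 f_pp_012_a t 250 29 1 = true := ex3_a k30_pp_012_a k31_pp_012_a

theorem s36_pp_012_a : ∃ t, chk3 f_pp_012_a t 125 29 1 = true := ex3_a s35_pp_012_a k32_pp_012_a

theorem s37_pp_012_a : ∃ t, chk3 f_pp_012_a t 249 29 3 = true := ex3_a k28_pp_012_a k29_pp_012_a

theorem s38_pp_012_a : ∃ t, chk3 f_pp_012_a t 124 29 3 = true := ex3_a k27_pp_012_a s37_pp_012_a

theorem s39_pp_012_a : ∃ t, chk3 f_pp_012_a t 249 29 2 = true := ex3_a k25_pp_012_a k26_pp_012_a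

theorem s40_pp_012_a : ∃ t, chk3 f_pp_012_a t 248 29 2 = true := ex3_b k23_pp_012_a k24_pp_012_a

theorem s41_pp_012_a : ∃ t, chk3 f_pp_012_a t 124 29 2 = true := ex3_a s40_pp_012_a s39_pp_012_a

theorem s42_pp_012_a : ∃ t, chk3 f_pp_012_a t 124 29 1 = true := ex3_c s41_pp_012_a s38_pp_012_a

theorem s43_pp_012_a : ∃ t, chk3 f_pp_012_a t 62 29 1 = true := ex3_a s42_pp_012_a s36_pp_012_a

theorem s44_pp_012_a : ∃ t, chk3 f_pp_012_a t 62 28 1 = true := ex3_c k21_pp_012_a k22_pp_012_a

theorem s45_pp_012_a : ∃ t, chk3 f_pp_012_a t 62 14 1 = true := ex3_b s44_pp_012_a s43_pp_012_a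

theorem s46_pp_012_a : ∃ t, chk3 f_pp_012_a t 31 14 1 = true := ex3_a s45_pp_012_a k33_pp_012_a

theorem s47_pp_012_a : ∃ t, chk3 f_pp_012_a t 31 7 1 = true := ex3_b s46_pp_012_a k34_pp_012_a

theorem s48_pp_012_a : ∃ t, chk3 f_pp_012_a t 61 28 1 = true := ex3_b k17_pp_012_a k18_pp_012_a

theorem s49_pp_012_a : ∃ t, chk3 f_pp_012_a t 61 14 1 = true := ex3_b s48_pp_012_a k19_pp_012_a

theorem s50_pp_012_a : ∃ t, chk3 f_pp_012_a t 30 14 1 = true := ex3_a k16_pp_012_a s49_pp_012_a

theorem s51_pp_012_a : ∃ t, chk3 f_pp_012_a t 30 7 1 = true := ex3_b s50_pp_012_a k20_pp_012_a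

theorem s52_pp_012_a : ∃ t, chk3 f_pp_012_a t 15 7 1 = true := ex3_a s51_pp_012_a s47_pp_012_a

theorem s53_pp_012_a : ∃ t, chk3 f_pp_012_a t 62 6 1 = true := ex3_b k13_pp_012_a k14_pp_012_a

theorem s54_pp_012_a : ∃ t, chk3 f_pp_012_a t 31 6 1 = true := ex3_a s53_pp_012_a k15_pp_012_a

theorem s55_pp_012_a : ∃ t, chk3 f_pp_012_a t 30 27 1 = true := ex3_a k11_pp_012_a k12_pp_012_a

theorem s56_pp_012_a : ∃ t, chk3 f_pp_012_a t 30 26 1 = true := ex3_a k9_pp_012_a k10_pp_012_a

theorem s57_pp_012_a : ∃ t, chk3 f_pp_012_a t 30 13 1 = true := ex3_b s56_pp_012_a s55_pp_012_a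

theorem s58_pp_012_a : ∃ t, chk3 f_pp_012_a t 30 6 1 = true := ex3_b k8_pp_012_a s57_pp_012_a

theorem s59_pp_012_a : ∃ t, chk3 f_pp_012_a t 15 6 1 = true := ex3_a s58_pp_012_a s54_pp_012_a

theorem s60_pp_012_a : ∃ t, chk3 f_pp_012_a t 15 3 1 = true := ex3_b s59_pp_012_a s52_pp_012_a

theorem s61_pp_012_a : ∃ t, chk3 f_pp_012_a t 29 6 1 = true := ex3_b k5_pp_012_a k6_pp_012_a

theorem s62_pp_012_a : ∃ t, chk3 f_pp_012_a t 14 6 1 = true := ex3_a k4_pp_012_a s61_pp_012_a

theorem s63_pp_012_a : ∃ t, chk3 f_pp_012_a t 14 3 1 = true := ex3_b s62_pp_012_a k7_pp_012_a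

theorem s64_pp_012_a : ∃ t, chk3 f_pp_012_a t 7 3 1 = true := ex3_a s63_pp_012_a s60_pp_012_a

theorem s65_pp_012_a : ∃ t, chk3 f_pp_012_a t 7 2 1 = true := ex3_a k2_pp_012_a k3_pp_012_a

theorem s66_pp_012_a : ∃ t, chk3 f_pp_012_a t 7 1 1 = true := ex3_b s65_pp_012_a s64_pp_012_a

theorem s67_pp_012_a : ∃ t, chk3 f_pp_012_a t 3 1 1 = true := ex3_a k1_pp_012_a s66_pp_012_a

theorem s68_pp_012_a : ∃ t, chk3 f_pp_012_a t 1 1 1 = true := ex3_a k0_pp_012_a s67_pp_012_a

theorem c_pp_012_a : CertB 0 536870912 0 536870912 966367641 24778659 3 eng mog cd0q0 cd1q2a pd1 false true true .pnp 0 1 2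
    ndB0q0 ndB1q2a pcB1 cut_pp_012_a xt_pp_012_a :=
  certB2 (fam := false) (s1 := true) (s2 := true) (a := 0) (b := 1) (c := 2) (cn := .pnp) (n1 := ndB0q0) (n2 := ndB1q2a) (pc := pcB1) (cut := cut_pp_012_a) (xt := xt_pp_012_a) (P1 := 0) (W1 := 536870912) (P2 := 0) (W2 := 536870912) (P3 := 966367641) (W3 := 24778659) (N0 := 3) (En := eng) (mo := mog) (C1 := cd0q0) (C2 := cd1q2a) (C3 := pd1)
    rfl (fun _ => rfl) s68_pp_012_a

noncomputable def cut_pp_012_b : Cut := Cut.of [[⟨0, 0, 0, 67108864⟩, ⟨1, 1, 0, 67108864⟩, ⟨2, 1, 0, 67108864⟩]]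

noncomputable def f_pp_012_b : ℕ → ℕ → ℕ → ℕ → Bool := onCell 536870912 536870912 1239849684 370763052 966367641 24778659
    (rowB 3 eng mog cd0q0 cd1q2b pd1 2 false true true .pnp 0 1 2 (qsf 0 536870912 1239849684 370763052 1) ndB0q0 ndB1q2b pcB1 cut_pp_012_b Ext.none)

def k0_pp_012_b : ∃ t, chk3 f_pp_012_b t 2 1 1 = true :=
  ⟨(b (l 3) (l 2)), by decide +kernel⟩

def k1_pp_012_b : ∃ t, chk3 f_pp_012_b t 12 2 1 = true :=
  ⟨(a (l 3) (b (b (a (a (l 3) (b (b (a (b (c (l 16719904) (l 16722520)) (l 130627238135)) (b (l 16694752) (l 16686912))) (a (l 3) (c (l 16695768) (l 16696368)))) (b (c (l 115057962663) (l 130627172135)) (l 3)))) (b (a (b (c (a (l 16704656) (l 16698632)) (l 16677656)) (c (l 16686776) (l 16666360))) (b (c (l 16689888) (l 16692320)) (c (l 16674648) (l 16675320)))) (a (b (c (l 16672264) (a (l 16674472) (l 16668120))) (c (l 16657864) (l 96267424551))) (b (c (l 16659840) (l 16658848)) (c (l 16645432) (l 16642896)))))) (a (l 3) (b (a (b (a (l 121500323303) (l 16618072)) (c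 (l 16608184) (l 118815922759))) (b (c (l 16631408) (l 16627464)) (c (l 16617736) (l 16612504)))) (a (l 3) (b (b (l 16583536) (l 16576520)) (a (l 16568976) (l 16584152))))))) (b (a (l 3) (b (a (l 3) (b (l 108078397543) (l 113983939159))) (l 3))) (l 3)))), by decide +kernel⟩

def k2_pp_012_b : ∃ t, chk3 f_pp_012_b t 13 2 1 = true :=
  ⟨(b (b (a (b (a (a (b (l 16680112) (l 16663568)) (b (l 16669880) (l 16652896))) (a (l 16609872) (l 16621408))) (a (a (b (l 16647512) (l 16631936)) (b (l 16636424) (l 16620440))) (a (l 16617744) (l 16607616)))) (b (a (b (l 16638016) (l 16620056)) (l 16549416)) (a (l 16530816) (l 16575848)))) (a (b (a (a (b (l 16616824) (l 16581176)) (c (l 16599672) (l 16595264))) (a (l 16585904) (l 16574952))) (a (a (b (l 16566920) (l 16553088)) (c (l 16571768) (l 16564600))) (a (l 16555872) (l 16544152)))) (a (b (l 16559448) (l 16527456)) (b (l 16540208) (l 16506584))))) (a (c (b (a (b (a (l 16558296) (l 16545120)) (a (l 16531976) (l 16519392))) (b (l 16525920) (l 16478568)))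 (a (b (l 94119613495) (l 96267033463)) (b (l 16474016) (l 16449096)))) (b (a (b (a (l 16549832) (l 16536072)) (a (l 16502672) (l 16509896))) (b (l 16516728) (l 16489000))) (a (b (a (l 16477648) (l 16485608)) (l 84455889495)) (b (l 16442648) (l 16419592))))) (b (a (b (c (l 16501512) (l 16493136)) (c (l 16474104) (l 16463536))) (b (l 16474840) (l 16444840))) (a (b (l 16399928) (a (l 16423424) (l 16409712))) (b (l 16416520) (l 16389776)))))), by decide +kernel⟩

def k3_pp_012_b : ∃ t, chk3 f_pp_012_b t 6 3 1 = true :=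
  ⟨(a (l 2) (b (a (b (a (l 3) (b (c (l 16424592) (l 16397872)) (l 2))) (l 2)) (b (a (b (c (l 16397336) (l 16388192)) (l 140760019975)) (b (l 16364568) (l 16319792))) (a (l 2) (b (l 16297232) (l 2))))) (l 2))), by decide +kernel⟩

def k4_pp_012_b : ∃ t, chk3 f_pp_012_b t 7 1 1 = true :=
  ⟨(b (a (a (a (b (b (b (l 16553680) (l 16558608)) (b (l 16522384) (l 16486928))) (b (b (l 16453560) (l 16422032)) (b (l 16392208) (l 16364024)))) (b (b (b (l 16536248) (l 16541080)) (b (l 16503976) (l 16467576))) (b (l 16415696) (b (l 16367720) (l 16338040))))) (b (b (a (b (l 16518208) (l 16522232)) (b (l 16500464) (l 16503344))) (b (a (l 16484944) (l 16465360)) (a (l 16447600) (l 16427800)))) (b (a (l 16331720) (l 16330256)) (b (l 16330752) (l 16277672))))) (b (a (a (b (b (c (l 16511712) (l 16540008)) (l 16485288)) (b (l 16446280) (l 16408128))) (b (b (l 16426384) (l 16404480)) (b (l 16427320) (l 16388264)))) (b (a (b (l 16435648) (l 16410696)) (c (b (l 16479176) (l 16428528)) (l 16486344))) (a (b (l 16410592)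 (l 16370312)) (b (l 16399424) (l 16357792))))) (a (a (b (l 16309392) (l 16278400)) (b (l 16288440) (l 16256016))) (b (a (l 16291008) (l 16256080)) (a (l 16234712) (l 16219456)))))) (a (b (a (b (a (b (l 16337432) (l 16312344)) (l 16275744)) (a (b (l 16288600) (l 2)) (b (l 16258400) (l 16234680)))) (b (a (l 16268120) (l 16239808)) (a (l 16215048) (l 16183688)))) (a (l 2) (b (a (l 198204516615) (l 16133360)) (l 2)))) (b (a (b (a (l 16212608) (l 16185824)) (a (l 16153328) (l 16123288))) (b (a (l 16161600) (l 16143416)) (a (l 16095648) (l 16074128)))) (a (b (a (l 16100056) (l 16066848)) (a (l 2) (l 16015896))) (b (l 15896824) (a (l 15981992) (l 15954208))))))), by decide +kernel⟩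

theorem s5_pp_012_b : ∃ t, chk3 f_pp_012_b t 6 2 1 = true := ex3_a k1_pp_012_b k2_pp_012_b

theorem s6_pp_012_b : ∃ t, chk3 f_pp_012_b t 6 1 1 = true := ex3_b s5_pp_012_b k3_pp_012_b

theorem s7_pp_012_b : ∃ t, chk3 f_pp_012_b t 3 1 1 = true := ex3_a s6_pp_012_b k4_pp_012_b

theorem s8_pp_012_b : ∃ t, chk3 f_pp_012_b t 1 1 1 = true := ex3_a k0_pp_012_b s7_pp_012_b

theorem c_pp_012_b : CertB 0 536870912 1239849684 370763052 966367641 24778659 3 eng mog cd0q0 cd1q2b pd1 false true true .pnp 0 1 2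
    ndB0q0 ndB1q2b pcB1 cut_pp_012_b Ext.none :=
  certB2 (fam := false) (s1 := true) (s2 := true) (a := 0) (b := 1) (c := 2) (cn := .pnp) (n1 := ndB0q0) (n2 := ndB1q2b) (pc := pcB1) (cut := cut_pp_012_b) (xt := Ext.none) (P1 := 0) (W1 := 536870912) (P2 := 1239849684) (W2 := 370763052) (P3 := 966367641) (W3 := 24778659) (N0 := 3) (En := eng) (mo := mog) (C1 := cd0q0) (C2 := cd1q2b) (C3 := pd1)
    rfl (fun _ => rfl) s8_pp_012_b

noncomputable def cut_pp_022_a : Cut := Cut.of [[⟨0, 0, 0, 67108864⟩, ⟨1, 1, 0, 67108864⟩, ⟨2, 1, 0, 67108864⟩]]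

noncomputable def f_pp_022_a : ℕ → ℕ → ℕ → ℕ → Bool := onCell 1073741824 536870912 0 536870912 966367641 24778659
    (rowB 3 eng mog cd0q0 cd1q2a pd2 2 false true true .pp 0 2 2 (qsf 0 536870912 0 536870912 2) ndB0q0 ndB1q2a pcB2 cut_pp_022_a Ext.none)

def k0_pp_022_a : ∃ t, chk3 f_pp_022_a t 8 2 1 = true :=
  ⟨(c (b (a (b (a (b (l 16471848) (l 16451096)) (l 16552592)) (a (a (b (l 16506936) (l 16491472)) (l 16488672)) (l 16498456))) (b (l 16508704) (a (l 16563440) (l 16504968)))) (a (b (a (a (b (l 16457680) (c (l 16520168) (l 16542696))) (b (l 16521448) (l 16533048))) (l 16487168)) (a (c (a (b (l 16533600) (l 16528872)) (l 16523736)) (b (l 16505072) (l 16521312))) (a (l 16516808) (l 16594288)))) (a (b (l 16566696) (l 16480984)) (b (l 16492480) (a (l 16491704) (l 16476136)))))) (b (a (b (a (l 16492432) (l 16568736)) (a (b (l 16498400) (l 16505760)) (l 16574336))) (b (l 16437064) (a (l 16521200) (l 16463104)))) (a (b (a (b (l 16494360) (a (l 16536056) (l 16601632))) (l 16537368)) (a (a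 (b (l 16549008) (l 16542888)) (l 16540504)) (c (l 16575072) (l 16529632)))) (b (a (l 16488168) (l 16433192)) (a (b (l 16495280) (l 16491856)) (b (l 16443472) (l 16434472))))))), by decide +kernel⟩

def k1_pp_022_a : ∃ t, chk3 f_pp_022_a t 8 6 1 = true :=
  ⟨(a (b (a (b (a (c (b (l 16532304) (l 16542272)) (l 16559376)) (a (l 16536704) (l 16571064))) (a (c (b (l 16553096) (l 16564880)) (l 16578552)) (b (l 16559520) (l 16571624)))) (b (a (l 16564296) (l 16528352)) (a (l 16564712) (l 16504648)))) (a (a (b (b (b (l 16551128) (l 16577664)) (a (l 16578392) (l 16594616))) (b (b (l 16574896) (l 16581464)) (a (l 16603840) (l 16621632)))) (b (c (l 16592152) (l 16604280)) (b (l 16604952) (l 16605136)))) (b (a (a (l 16552128) (l 16531432)) (b (l 16501568) (l 16520008))) (a (b (l 16561400) (l 16539032)) (b (l 16538320) (l 16514704)))))) (b (a (c (a (l 16492600) (l 16475208)) (b (l 16465024) (l 16416032))) (b (c (l 16462976) (l 16424160)) (c (l 16411824) (l 16328824)))) (a (a (b (b (l 16480592) (l 16518776))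 (b (l 16494008) (l 16448304))) (b (b (l 16438000) (l 16475216)) (b (l 16428544) (c (l 16513584) (l 16459336))))) (b (b (c (l 16383448) (a (l 16426872) (l 16381608))) (a (l 16431440) (c (l 16440568) (l 16375560)))) (b (c (a (l 16476400) (l 16434256)) (a (l 16416592) (l 16370016))) (c (a (l 16470672) (l 16407336)) (a (l 16411952) (b (l 16366200) (l 16363880))))))))), by decide +kernel⟩

def k2_pp_022_a : ∃ t, chk3 f_pp_022_a t 8 7 1 = true :=
  ⟨(a (b (b (b (a (a (c (l 16617160) (l 16657240)) (a (l 16637856) (l 16593616))) (a (b (l 16559032) (l 16558416)) (c (l 16596672) (l 16552800)))) (b (a (a (a (l 16628912) (l 16662184)) (l 16584472)) (a (l 16536872) (l 16510448))) (l 6))) (l 6)) (l 6)) (b (a (b (b (a (c (l 16552456) (l 16504200)) (c (l 16508624) (l 16434864))) (b (c (a (l 16549440) (l 16505296)) (a (l 16502552) (l 16453720))) (l 6))) (l 6)) (b (b (a (c (b (l 16466688) (l 16464240)) (b (l 16408904) (l 16407136))) (c (b (l 16424312) (a (l 16432408) (l 16411520))) (b (l 16361792) (a (l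 16371696) (l 16327392))))) (b (a (c (l 16446288) (a (l 16417584) (l 16393768))) (c (a (l 16430256) (l 16388504)) (a (l 16349232) (l 16331208)))) (a (l 6) (a (l 6) (a (l 6) (l 1)))))) (a (l 6) (a (l 6) (l 1))))) (a (l 6) (l 1)))), by decide +kernel⟩

def k3_pp_022_a : ∃ t, chk3 f_pp_022_a t 9 2 1 = true :=
  ⟨(b (a (a (b (l 16426872) (l 16337200)) (b (l 16363600) (l 16269208))) (a (b (l 16297688) (l 16220016)) (b (l 16231008) (a (l 16229912) (l 16194672))))) (c (a (b (a (l 16434400) (l 16362472)) (a (l 16335928) (b (l 16348960) (l 16337672)))) (b (a (l 16288856) (l 16215336)) (a (b (l 16272656) (l 16260008)) (b (l 16197584) (l 104185339863))))) (a (b (a (l 16382400) (l 16307720)) (a (b (l 16365896) (l 16352936)) (b (l 16286248) (l 16270176)))) (b (a (l 16231456) (l 16155728)) (a (b (l 16206176) (l 16187576)) (b (l 16127096) (l 117070113863))))))), by decide +kernel⟩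

def k4_pp_022_a : ∃ t, chk3 f_pp_022_a t 9 3 1 = true :=
  ⟨(b (b (a (a (b (c (l 16404976) (l 16338952)) (c (a (l 16413784) (l 16373072)) (a (l 16346568) (l 16302280)))) (b (c (l 16241392) (a (l 16274752) (l 16231984))) (a (c (l 16332624) (l 16258144)) (c (b (l 16295944) (l 16289712)) (b (l 16218848) (l 16189312)))))) (b (c (a (a (l 16266272) (l 16206784)) (a (l 16169264) (l 16133024))) (a (a (l 16189584) (l 16126856)) (a (l 16086024) (l 16046400)))) (a (c (a (b (l 16256720) (l 16229712)) (l 203506485639)) (a (b (l 16175944) (l 16146232)) (b (l 16133928) (l 16104232)))) (l 1)))) (a (b (a (a (b (c (l 16405232) (l 16336216)) (c (l 16399032) (l 16329624))) (c (b (l 16364160) (l 16337040)) (b (l 16291016) (b (l 16285688) (l 16282544))))) (c (b (a (l 16323616) (l 16262912)) (a (b (l 16319384) (l 16316304)) (b (l 16258968) (l 16277192)))) (b (a (l 16246240) (b (l 16204168) (l 16179288))) (a (b (l 16219736) (l 16237584)) (b (l 16186072) (l 16193536)))))) (b (a (c (a (l 16392624) (l 16330784))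 (a (l 16323800) (b (l 16279608) (l 16255912)))) (a (a (c (l 16321760) (l 16223584)) (c (l 16302128) (l 16222448))) (l 1))) (a (c (a (b (l 16388168) (l 16385424)) (b (l 16326560) (l 16324056))) (a (b (l 16319896) (l 16307096)) (b (l 16253448) (l 16261784)))) (l 1)))) (a (a (b (b (c (l 16224248) (l 16148592)) (l 1)) (l 1)) (l 1)) (l 1)))) (a (b (b (a (a (a (b (c (b (l 16393184) (l 16390936)) (b (l 16327032) (l 16304344))) (b (c (l 16389040) (l 16303016)) (l 1))) (b (c (l 75731520327) (b (l 16304184) (l 16302568))) (l 1))) (a (b (c (l 16330744) (l 16262480)) (l 1)) (l 1))) (l 1)) (l 1)) (l 1)) (l 1))), by decide +kernel⟩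

def k5_pp_022_a : ∃ t, chk3 f_pp_022_a t 5 1 1 = true :=
  ⟨(b (a (b (b (a (a (l 16060160) (b (l 16086456) (l 16075376))) (l 1)) (a (c (a (l 16164904) (l 16077656)) (a (l 16119736) (l 16053160))) (l 1))) (a (b (c (a (b (l 16150120) (l 16138360)) (l 192768817415)) (a (b (l 16092288) (l 16072104)) (l 209411646407))) (a (c (b (l 16125904) (l 16113584)) (b (l 16051192) (l 16030368))) (l 1))) (l 1))) (l 1)) (b (l 1) (l 1))), by decide +kernel⟩

def k6_pp_022_a : ∃ t, chk3 f_pp_022_a t 3 1 1 = true :=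
  ⟨(l 1), by decide +kernel⟩

theorem s7_pp_022_a : ∃ t, chk3 f_pp_022_a t 9 1 1 = true := ex3_b k3_pp_022_a k4_pp_022_a

theorem s8_pp_022_a : ∃ t, chk3 f_pp_022_a t 8 3 1 = true := ex3_b k1_pp_022_a k2_pp_022_a

theorem s9_pp_022_a : ∃ t, chk3 f_pp_022_a t 8 1 1 = true := ex3_b k0_pp_022_a s8_pp_022_a

theorem s10_pp_022_a : ∃ t, chk3 f_pp_022_a t 4 1 1 = true := ex3_a s9_pp_022_a s7_pp_022_a

theorem s11_pp_022_a : ∃ t, chk3 f_pp_022_a t 2 1 1 = true := ex3_a s10_pp_022_a k5_pp_022_a

theorem s12_pp_022_a : ∃ t, chk3 f_pp_022_a t 1 1 1 = true := ex3_a s11_pp_022_a k6_pp_022_a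

theorem c_pp_022_a : CertB 0 536870912 0 536870912 966367641 24778659 3 eng mog cd0q0 cd1q2a pd2 false true true .pp 0 2 2
    ndB0q0 ndB1q2a pcB2 cut_pp_022_a Ext.none :=
  certB2 (fam := false) (s1 := true) (s2 := true) (a := 0) (b := 2) (c := 2) (cn := .pp) (n1 := ndB0q0) (n2 := ndB1q2a) (pc := pcB2) (cut := cut_pp_022_a) (xt := Ext.none) (P1 := 0) (W1 := 536870912) (P2 := 0) (W2 := 536870912) (P3 := 966367641) (W3 := 24778659) (N0 := 3) (En := eng) (mo := mog) (C1 := cd0q0) (C2 := cd1q2a) (C3 := pd2)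
    rfl (fun _ => rfl) s12_pp_022_a

noncomputable def cut_pp_022_b : Cut := Cut.of [[⟨0, 0, 0, 67108864⟩, ⟨1, 1, 0, 67108864⟩, ⟨2, 1, 0, 67108864⟩]]

noncomputable def f_pp_022_b : ℕ → ℕ → ℕ → ℕ → Bool := onCell 0 536870912 1073741824 536870912 966367641 24778659
    (rowB 3 eng mog cd0q0 cd1q2b pd2 1 false true true .pp 0 2 2 (qsf 0 536870912 1239849684 370763052 2) ndB0q0 ndB1q2b pcB2 cut_pp_022_b Ext.none)

def k0_pp_022_b : ∃ t, chk3 f_pp_022_b t 2 2 1 = true :=
  ⟨(a (b (a (b (l 1) (a (b (l 1) (b (l 1) (l 323765374679))) (b (b (l 1) (l 286184624855)) (c (l 223370627879) (l 233034270023))))) (b (b (a (l 1) (b (l 1) (l 287795711223))) (a (c (l 294774857431) (l 278668685111)) (c (l 164852233431) (l 201359485719)))) (a (b (c (l 159483241127) (l 157872584439)) (c (l 16342920) (l 16316408))) (b (c (l 16455464) (l 16423424)) (l 16372200))))) (a (b (a (b (c (a (l 184178975767) (l 16148352)) (b (l 344703426951) (l 16099016))) (c (c (l 16070960) (l 16084848)) (l 16032216))) (b (c (l 16216376)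 (l 16194944)) (c (l 16152520) (l 16135088)))) (a (b (c (l 16027208) (l 16018920)) (c (l 15970904) (l 15970464))) (b (c (l 16093304) (l 16081624)) (l 15952560)))) (b (a (b (l 16139040) (l 16163144)) (b (l 16309584) (l 16209912))) (a (b (l 16150440) (l 16100744)) (c (l 16140800) (l 16165648)))))) (b (b (b (a (a (b (a (l 294238207927) (c (l 16447320) (l 16549520))) (b (l 122439412471) (l 16499248))) (c (b (a (l 16425776) (l 16428616)) (l 16421280)) (a (l 16422912) (l 16470064)))) (a (c (b (l 16313832) (l 16373104)) (b (l 16400472) (l 16417344))) (b (l 16232696) (l 16314256)))) (a (a (c (l 16510816) (l 16513336)) (c (l 16431808) (l 16473392))) (a (c (l 16365512) (l 16408144)) (l 16329064)))) (b (a (a (l 16463528) (l 16432392)) (a (l 16370016) (l 16315568))) (a (a (l 16398616) (l 16406464)) (l 16404736)))) (a (b (b (l 16348152) (l 16293376)) (b (l 16242648) (l 16195504))) (b (a (l 16300920) (l 16253056)) (a (l 16215936) (l 16172936)))))), by decide +kernel⟩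

def k1_pp_022_b : ∃ t, chk3 f_pp_022_b t 3 2 1 = true :=
  ⟨(a (b (a (b (b (a (c (l 16261088) (l 16299872)) (l 16099280)) (c (l 16211856) (l 16225624))) (b (l 16240512) (l 16224688))) (b (b (a (l 16086616) (l 16118392)) (a (l 16172784) (l 16124528))) (c (l 16112976) (l 16152056)))) (a (b (l 16187792) (l 16114968)) (b (l 16110064) (l 16049432)))) (b (a (b (b (a (l 16070184) (l 16025488)) (l 15933872)) (c (l 16060424) (l 16070024))) (b (b (a (l 15984192) (l 15946192)) (l 15901976)) (b (l 15999904) (l 2)))) (b (a (l 16047248) (l 2)) (l 2)))), by decide +kernel⟩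

def k2_pp_022_b : ∃ t, chk3 f_pp_022_b t 1 3 1 = true :=
  ⟨(a (a (b (a (b (a (b (c (l 15919376) (l 15928592)) (c (l 15872416) (l 15892928))) (b (l 15948640) (l 15907528))) (c (a (b (l 15829672) (l 15790696)) (l 15796208)) (a (l 15703480) (l 15912752)))) (a (b (b (l 16055632) (l 16014616)) (b (l 15977032) (l 15942048))) (b (l 16210816) (l 16007600)))) (c (a (b (a (b (l 15754904) (l 15721592)) (l 15806320)) (a (l 15611816) (l 15737384))) (b (l 15646576) (l 15819456))) (a (b (a (l 15807776) (l 15863744)) (a (l 15773728) (l 15757128))) (b (l 15878416) (l 15693016))))) (b (a (b (b (l 16151344) (l 16109360)) (b (l 16068488) (l 15993528))) (b (l 16085960) (l 15956104))) (b (a (c (l 15930936) (l 15812888)) (l 2)) (l 2)))) (b (a (b (a (l 16016296) (l 2)) (l 2)) (l 2)) (l 2))), by decide +kernel⟩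

theorem s3_pp_022_b : ∃ t, chk3 f_pp_022_b t 1 2 1 = true := ex3_a k0_pp_022_b k1_pp_022_b

theorem s4_pp_022_b : ∃ t, chk3 f_pp_022_b t 1 1 1 = true := ex3_b s3_pp_022_b k2_pp_022_b

theorem c_pp_022_b : CertB 0 536870912 1239849684 370763052 966367641 24778659 3 eng mog cd0q0 cd1q2b pd2 false true true .pp 0 2 2
    ndB0q0 ndB1q2b pcB2 cut_pp_022_b Ext.none :=
  certB1 (fam := false) (s1 := true) (s2 := true) (a := 0) (b := 2) (c := 2) (cn := .pp) (n1 := ndB0q0) (n2 := ndB1q2b) (pc := pcB2) (cut := cut_pp_022_b) (xt := Ext.none) (P1 := 0) (W1 := 536870912) (P2 := 1239849684) (W2 := 370763052) (P3 := 966367641) (W3 := 24778659) (N0 := 3) (En := eng) (mo := mog) (C1 := cd0q0) (C2 := cd1q2b) (C3 := pd2)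
    rfl (fun _ => rfl) s4_pp_022_b

noncomputable def f_pp_023 : ℕ → ℕ → ℕ → ℕ → Bool := onCell 0 536870912 1073741824 536870912 966367641 24778659
    (rowB 3 eng mog cd0q0 cd1q3 pd2 1 false true true .up 0 2 3 (qsf 0 536870912 1610612736 536870912 2) ndB0q0 ndB1q3 pcB2 Cut.none Ext.none)

def k0_pp_023 : ∃ t, chk3 f_pp_023 t 1 1 1 = true :=
  ⟨(b (a (a (l 1) (b (l 1) (a (l 1) (b (l 1) (c (l 383894087335) (l 16019656)))))) (a (b (a (l 1) (b (l 1) (c (l 418253700151) (l 408053354023)))) (a (b (c (l 15676880) (l 15834128)) (c (l 15869296) (l 15881560))) (b (c (l 15855880) (l 15928192)) (c (l 15825872) (l 15855304))))) (b (a (b (c (b (l 1) (l 408589868295)) (l 401073856039)) (c (l 84319851351) (l 15741936))) (b (c (b (a (l 418254127095) (b (l 15697744) (l 15711064))) (a (l 15754248) (l 15730776))) (b (a (l 15815928) (l 15776008)) (l 15813088))) (c (b (l 15762880) (l 15782544)) (l 15788488)))) (b (a (c (l 15815992) (l 15864312)) (c (l 15808048) (l 15834200))) (a (l 15584752) (l 15780352))))))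 (a (a (b (a (l 1) (a (l 1) (a (l 1) (b (l 1) (l 15872552))))) (a (a (b (l 1) (b (l 15707336) (l 15598720))) (b (b (l 1) (l 15654616)) (c (l 15492632) (l 15425880)))) (b (c (a (l 15708088) (l 15734816)) (a (l 15660208) (l 15691984))) (c (a (l 15613456) (l 15595600)) (a (l 15527352) (l 15489312)))))) (c (b (a (b (l 228738380871) (l 15648520)) (b (l 15770360) (l 15763000))) (b (a (l 15654984) (l 15670984)) (a (l 15391848) (l 15539768)))) (b (a (b (l 15985544) (l 15663928)) (b (l 15775912) (l 15728736))) (b (a (l 15586176) (l 15567048)) (a (l 15211072) (l 15321488)))))) (b (a (b (a (c (l 15806648) (l 15807216)) (l 15566080)) (a (c (l 15739728) (l 15675592)) (l 15531112))) (b (a (l 15712512) (l 15804176)) (a (l 15613984) (l 15764896)))) (a (b (a (c (l 15668480) (l 15532240)) (l 15379976)) (a (b (l 15518216) (l 15437584)) (b (l 15539648) (l 15524648)))) (b (a (l 15646632) (l 15704320)) (a (b (l 15584200) (l 15598800)) (b (l 15651264) (l 15700840)))))))), by decide +kernel⟩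

theorem c_pp_023 : CertB 0 536870912 1610612736 536870912 966367641 24778659 3 eng mog cd0q0 cd1q3 pd2 false true true .up 0 2 3
    ndB0q0 ndB1q3 pcB2 Cut.none Ext.none :=
  certB1 (fam := false) (s1 := true) (s2 := true) (a := 0) (b := 2) (c := 3) (cn := .up) (n1 := ndB0q0) (n2 := ndB1q3) (pc := pcB2) (cut := Cut.none) (xt := Ext.none) (P1 := 0) (W1 := 536870912) (P2 := 1610612736) (W2 := 536870912) (P3 := 966367641) (W3 := 24778659) (N0 := 3) (En := eng) (mo := mog) (C1 := cd0q0) (C2 := cd1q3) (C3 := pd2)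
    rfl (fun _ => rfl) k0_pp_023

noncomputable def f_pp_033 : ℕ → ℕ → ℕ → ℕ → Bool := onCell 0 536870912 1610612736 536870912 966367641 24778659
    (rowB 3 eng mog cd0q0 cd1q3 pd3 1 false true true .pnn 0 3 3 (qsf 0 536870912 1610612736 536870912 3) ndB0q0 ndB1q3 pcB3 Cut.none Ext.none)

def k0_pp_033 : ∃ t, chk3 f_pp_033 t 1 1 1 = true :=
  ⟨(a (b (b (a (c (b (a (b (a (l 15559808) (l 15663480)) (a (l 15520560) (l 15621200))) (b (l 15804184) (l 15757896))) (a (b (a (l 15472792) (l 15571984)) (l 15466888)) (b (l 15708056) (l 15658144)))) (b (a (b (a (l 15688624) (l 15692160)) (a (l 15625216) (l 15646424))) (b (l 15673648) (l 15650992))) (a (b (l 15570976) (l 15484064)) (b (l 15645200) (l 15635192))))) (b (a (b (c (l 15908888) (l 15667408)) (l 15771280)) (b (l 15819024) (l 15813000))) (a (b (l 15760680) (l 15755208)) (b (l 15817800) (l 15827768))))) (a (b (a (b (a (l 15355272) (l 15455160)) (a (l 15283224) (l 15396416))) (b (l 15596712) (l 15560224))) (a (b (a (l 15218784) (l 15349392))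 (b (l 15252768) (l 4))) (b (a (l 15481184) (l 15600512)) (l 4)))) (b (a (b (l 15739064) (l 15737008)) (b (l 15837824) (l 15875832))) (b (a (l 15753016) (l 15919408)) (l 4))))) (b (l 4) (a (l 4) (a (b (l 4) (l 2)) (l 2))))) (b (a (b (b (a (b (l 15858112) (l 15864432)) (b (l 15921352) (l 15939168))) (a (b (l 15881352) (l 15902840)) (b (l 15967760) (l 16039472)))) (b (b (a (l 15940696) (l 16138344)) (a (l 15852376) (l 16016512))) (a (l 4) (l 4)))) (b (b (c (a (l 15963504) (l 16041728)) (a (l 15799824) (l 15816120))) (a (b (l 16125760) (l 16221792)) (b (l 16299704) (l 2)))) (a (b (b (l 16323056) (l 2)) (l 2)) (l 2)))) (a (b (a (b (l 4) (l 2)) (l 2)) (l 2)) (l 2)))), by decide +kernel⟩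

theorem c_pp_033 : CertB 0 536870912 1610612736 536870912 966367641 24778659 3 eng mog cd0q0 cd1q3 pd3 false true true .pnn 0 3 3
    ndB0q0 ndB1q3 pcB3 Cut.none Ext.none :=
  certB1 (fam := false) (s1 := true) (s2 := true) (a := 0) (b := 3) (c := 3) (cn := .pnn) (n1 := ndB0q0) (n2 := ndB1q3) (pc := pcB3) (cut := Cut.none) (xt := Ext.none) (P1 := 0) (W1 := 536870912) (P2 := 1610612736) (W2 := 536870912) (P3 := 966367641) (W3 := 24778659) (N0 := 3) (En := eng) (mo := mog) (C1 := cd0q0) (C2 := cd1q3) (C3 := pd3)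
    rfl (fun _ => rfl) k0_pp_033

noncomputable def f_pp_101 : ℕ → ℕ → ℕ → ℕ → Bool := onCell 536870912 536870912 536870912 536870912 966367641 24778659
    (rowB 3 eng mog cd0q1 cd1q1 pd0 0 false true true .npn 1 0 1 (qsf 536870912 536870912 536870912 536870912 0) ndB0q1 ndB1q1 pcB0 Cut.none Ext.none)

def k0_pp_101 : ∃ t, chk3 f_pp_101 t 1 1 1 = true :=
  ⟨(l 3), by decide +kernel⟩

theorem c_pp_101 : CertB 536870912 536870912 536870912 536870912 966367641 24778659 3 eng mog cd0q1 cd1q1 pd0 false true true .npn 1 0 1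
    ndB0q1 ndB1q1 pcB0 Cut.none Ext.none :=
  certB0 (fam := false) (s1 := true) (s2 := true) (a := 1) (b := 0) (c := 1) (cn := .npn) (n1 := ndB0q1) (n2 := ndB1q1) (pc := pcB0) (cut := Cut.none) (xt := Ext.none) (P1 := 536870912) (W1 := 536870912) (P2 := 536870912) (W2 := 536870912) (P3 := 966367641) (W3 := 24778659) (N0 := 3) (En := eng) (mo := mog) (C1 := cd0q1) (C2 := cd1q1) (C3 := pd0)
    rfl k0_pp_101

noncomputable def f_pp_102_a : ℕ → ℕ → ℕ → ℕ → Bool := onCell 536870912 536870912 0 536870912 966367641 24778659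
    (rowB 3 eng mog cd0q1 cd1q2a pd0 0 false true true .npp 1 0 2 (qsf 536870912 536870912 0 536870912 0) ndB0q1 ndB1q2a pcB0 Cut.none Ext.none)

def k0_pp_102_a : ∃ t, chk3 f_pp_102_a t 1 1 1 = true :=
  ⟨(l 3), by decide +kernel⟩

theorem c_pp_102_a : CertB 536870912 536870912 0 536870912 966367641 24778659 3 eng mog cd0q1 cd1q2a pd0 false true true .npp 1 0 2
    ndB0q1 ndB1q2a pcB0 Cut.none Ext.none :=
  certB0 (fam := false) (s1 := true) (s2 := true) (a := 1) (b := 0) (c := 2) (cn := .npp) (n1 := ndB0q1) (n2 := ndB1q2a) (pc := pcB0) (cut := Cut.none) (xt := Ext.none) (P1 := 536870912) (W1 := 536870912) (P2 := 0) (W2 := 536870912) (P3 := 966367641) (W3 := 24778659) (N0 := 3) (En := eng) (mo := mog) (C1 := cd0q1) (C2 := cd1q2a) (C3 := pd0)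
    rfl k0_pp_102_a

noncomputable def f_pp_102_b : ℕ → ℕ → ℕ → ℕ → Bool := onCell 536870912 536870912 0 536870912 966367641 24778659
    (rowB 3 eng mog cd0q1 cd1q2b pd0 1 false true true .npp 1 0 2 (qsf 536870912 536870912 1239849684 370763052 0) ndB0q1 ndB1q2b pcB0 Cut.none Ext.none)

def k0_pp_102_b : ∃ t, chk3 f_pp_102_b t 1 1 1 = true :=
  ⟨(l 3), by decide +kernel⟩

theorem c_pp_102_b : CertB 536870912 536870912 1239849684 370763052 966367641 24778659 3 eng mog cd0q1 cd1q2b pd0 false true true .npp 1 0 2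
    ndB0q1 ndB1q2b pcB0 Cut.none Ext.none :=
  certB1 (fam := false) (s1 := true) (s2 := true) (a := 1) (b := 0) (c := 2) (cn := .npp) (n1 := ndB0q1) (n2 := ndB1q2b) (pc := pcB0) (cut := Cut.none) (xt := Ext.none) (P1 := 536870912) (W1 := 536870912) (P2 := 1239849684) (W2 := 370763052) (P3 := 966367641) (W3 := 24778659) (N0 := 3) (En := eng) (mo := mog) (C1 := cd0q1) (C2 := cd1q2b) (C3 := pd0)
    rfl (fun _ => rfl) k0_pp_102_b

noncomputable def f_pp_112_a : ℕ → ℕ → ℕ → ℕ → Bool := onCell 536870912 536870912 0 536870912 966367641 24778659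
    (rowB 3 eng mog cd0q1 cd1q2a pd1 0 false true true .dn 1 1 2 (qsf 536870912 536870912 0 536870912 1) ndB0q1 ndB1q2a pcB1 Cut.none Ext.none)

def k0_pp_112_a : ∃ t, chk3 f_pp_112_a t 1 1 1 = true :=
  ⟨(l 3), by decide +kernel⟩

theorem c_pp_112_a : CertB 536870912 536870912 0 536870912 966367641 24778659 3 eng mog cd0q1 cd1q2a pd1 false true true .dn 1 1 2
    ndB0q1 ndB1q2a pcB1 Cut.none Ext.none :=
  certB0 (fam := false) (s1 := true) (s2 := true) (a := 1) (b := 1) (c := 2) (cn := .dn) (n1 := ndB0q1) (n2 := ndB1q2a) (pc := pcB1) (cut := Cut.none) (xt := Ext.none) (P1 := 536870912) (W1 := 536870912) (P2 := 0) (W2 := 536870912) (P3 := 966367641) (W3 := 24778659) (N0 := 3) (En := eng) (mo := mog) (C1 := cd0q1) (C2 := cd1q2a) (C3 := pd1)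
    rfl k0_pp_112_a

noncomputable def f_pp_112_b : ℕ → ℕ → ℕ → ℕ → Bool := onCell 536870912 536870912 536870912 536870912 966367641 24778659
    (rowB 3 eng mog cd0q1 cd1q2b pd1 1 false true true .dn 1 1 2 (qsf 536870912 536870912 1239849684 370763052 1) ndB0q1 ndB1q2b pcB1 Cut.none Ext.none)

def k0_pp_112_b : ∃ t, chk3 f_pp_112_b t 1 1 1 = true :=
  ⟨(b (a (l 3) (l 3)) (a (b (b (l 3) (a (a (b (b (l 3) (a (a (l 16394856) (l 16378584)) (c (l 16375040) (l 16375856)))) (a (b (c (l 16365144) (l 16360064)) (l 16316624)) (b (a (l 16339504) (l 16324712)) (l 16286056)))) (b (l 3) (a (b (l 16302528) (l 16257664)) (b (l 16273688) (l 16230904))))) (a (b (l 3) (a (c (l 16223128) (l 16228552)) (l 3))) (l 3)))) (b (a (a (b (a (b (l 16270584) (l 16222824)) (b (l 16239648) (l 16191456))) (a (l 16147536) (l 16115344))) (b (a (b (l 16210976) (l 16162432)) (b (l 16184552) (l 16135784))) (a (l 16085616) (l 16058456)))) (a (b (a (b (l 16160424) (l 2)) (l 2)) (l 2)) (l 2))) (a (a (b (a (l 16043712) (l 16010200))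 (a (l 15941064) (l 15906008))) (b (a (l 15979272) (l 2)) (l 2))) (l 2)))) (b (l 3) (l 2)))), by decide +kernel⟩

theorem c_pp_112_b : CertB 536870912 536870912 1239849684 370763052 966367641 24778659 3 eng mog cd0q1 cd1q2b pd1 false true true .dn 1 1 2
    ndB0q1 ndB1q2b pcB1 Cut.none Ext.none :=
  certB1 (fam := false) (s1 := true) (s2 := true) (a := 1) (b := 1) (c := 2) (cn := .dn) (n1 := ndB0q1) (n2 := ndB1q2b) (pc := pcB1) (cut := Cut.none) (xt := Ext.none) (P1 := 536870912) (W1 := 536870912) (P2 := 1239849684) (W2 := 370763052) (P3 := 966367641) (W3 := 24778659) (N0 := 3) (En := eng) (mo := mog) (C1 := cd0q1) (C2 := cd1q2b) (C3 := pd1)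
    rfl (fun _ => rfl) k0_pp_112_b

noncomputable def cut_pp_113 : Cut := Cut.of [[⟨0, 1, 0, 47710208⟩, ⟨1, 1, 0, 47710208⟩, ⟨2, 2, 0, 8388608⟩]]

noncomputable def xt_pp_113 : Ext := extD2 3 ⟨4, 1, 1, 5, 37, 10, 843, 1000, 41, 100, 1, 8⟩ eng cd0q1 cd1q3 pd1 false true true .nn 1 1 3 rfl ndB0q1 ndB1q3 pcB1

noncomputable def f_pp_113 : ℕ → ℕ → ℕ → ℕ → Bool := onCell 536870912 536870912 536870912 536870912 966367641 24778659
    (rowB 3 eng mog cd0q1 cd1q3 pd1 1 false true true .nn 1 1 3 (qsf 536870912 536870912 1610612736 536870912 1) ndB0q1 ndB1q3 pcB1 cut_pp_113 xt_pp_113)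

def k0_pp_113 : ∃ t, chk3 f_pp_113 t 1 2 1 = true :=
  ⟨(a (l 3) (l 3)), by decide +kernel⟩

def k1_pp_113 : ∃ t, chk3 f_pp_113 t 2 3 1 = true :=
  ⟨(b (b (l 3) (b (a (l 1) (l 3)) (b (a (l 1) (l 3)) (a (a (l 1) (a (l 1) (c (l 16121880) (l 16160832)))) (a (a (c (l 16105040) (l 16141224)) (l 3)) (l 3)))))) (a (b (a (b (l 1) (a (l 1) (c (l 81636716951) (l 16005704)))) (c (b (a (b (l 1) (l 16030216)) (b (l 16069288) (l 16013320))) (a (l 16064160) (l 16007624))) (b (a (l 129955006807) (b (l 16106040) (l 16049080))) (a (l 15980184) (l 15959752))))) (a (b (c (a (l 15939912) (l 15872096)) (a (l 15910424) (l 15879664))) (c (a (l 15726368) (l 15702592)) (a (l 15782640) (l 15751960)))) (b (c (a (l 15811456) (l 15799744)) (a (l 15854528) (l 15834816))) (c (a (l 15686296) (l 15677400)) (a (l 15727104) (l 15707976)))))) (c (b (a (b (a (b (l 16056000) (l 16002096)) (b (l 16047384) (l 15996712))) (a (l 15978272) (l 15913552))) (b (a (l 38284470919) (l 159617305127)) (a (l 15919104) (l 15932400)))) (a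 (b (a (l 15815896) (l 15797616)) (a (l 15676016) (l 15683056))) (a (b (l 15809000) (l 15700096)) (b (l 15830128) (l 15728960))))) (b (a (b (a (b (l 16088720) (l 16032592)) (b (l 16074104) (l 16019864))) (a (l 15944328) (l 15933272))) (b (a (l 16055944) (l 109151419431)) (a (l 15925848) (l 15922712)))) (a (b (a (l 15820608) (l 15811576)) (a (l 15694824) (l 15687656))) (b (a (l 15807536) (l 15809960)) (a (l 15686864) (l 15694840)))))))), by decide +kernel⟩

def k2_pp_113 : ∃ t, chk3 f_pp_113 t 3 6 1 = true :=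
  ⟨(l 3), by decide +kernel⟩

def k3_pp_113 : ∃ t, chk3 f_pp_113 t 6 7 1 = true :=
  ⟨(b (a (b (l 3) (a (b (l 176260169463) (l 15915504)) (b (l 431273918791) (a (l 15933256) (l 15991008))))) (b (l 3) (a (b (l 3) (a (l 204714288423) (l 432884487383))) (l 3)))) (a (b (a (b (l 15867072) (l 15816464)) (b (l 16088600) (l 15857288))) (a (b (l 15766352) (l 15721992)) (c (l 15837040) (l 15757832)))) (b (a (b (a (l 15936672) (l 208472426599)) (a (l 15903120) (l 15943616))) (b (a (b (l 418925870935) (l 16005512)) (b (l 3) (l 401746122423))) (a (l 15993976) (b (l 16056864) (l 16056856))))) (a (b (l 15894016) (l 15872992)) (b (a (l 15981800) (l 16059960)) (c (l 16088640) (l 15957704))))))), by decide +kernel⟩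

def k4_pp_113 : ∃ t, chk3 f_pp_113 t 7 14 1 = true :=
  ⟨(l 3), by decide +kernel⟩

def k5_pp_113 : ∃ t, chk3 f_pp_113 t 14 15 1 = true :=
  ⟨(b (a (b (a (l 3) (l 3)) (c (a (b (l 251959307719) (l 16204760)) (b (l 443085304007) (a (l 16287752) (l 272360682007)))) (a (b (l 254643416359) (l 16075928)) (b (l 465096740295) (b (l 270212909623) (l 16180632)))))) (b (l 3) (a (b (l 3) (c (b (l 439327537831) (a (l 287393270967) (l 417852847831))) (b (l 468855115495) (a (l 285245465095) (l 451675369159))))) (l 3)))) (a (b (a (l 16264984) (c (l 16369336) (l 16212680))) (a (l 16199432) (c (l 16454816) (l 16281888)))) (b (b (c (a (b (a (l 16464640) (b (l 297593935239) (l 16571120))) (l 16542416)) (b (a (a (l 312626383127) (l 382419727191)) (l 3)) (a (b (a (l 16678952) (l 309405204199)) (l 16735472)) (b (a (b (l 356650085351) (l 344838892375)) (l 3)) (a (l 316921572951) (a (l 322290306231) (l 331417097191))))))) (a (a (l 16309072) (b (b (l 299204341607) (l 16390584)) (l 16412800))) (a (b (a (b (l 440401262887)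 (l 311015642951)) (l 430200946199)) (b (a (l 16483664) (l 315847613863)) (l 16532328))) (b (l 3) (a (a (b (l 324437468471) (l 16612864)) (b (l 403894388199) (l 320142623623))) (b (l 3) (a (b (l 382419661847) (l 321216378295)) (c (l 347523260247) (l 341617446007))))))))) (a (c (l 16592280) (l 16406392)) (a (b (l 16669032) (l 16718136)) (b (b (a (l 16746728) (c (l 16750856) (a (l 16713056) (l 16732456)))) (a (l 16762736) (l 16768280))) (l 16750224))))) (a (b (l 16569448) (l 16650176)) (b (c (l 16709360) (l 16722568)) (l 16638528)))))), by decide +kernel⟩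

def k6_pp_113 : ∃ t, chk3 f_pp_113 t 15 30 1 = true :=
  ⟨(l 3), by decide +kernel⟩

def k7_pp_113 : ∃ t, chk3 f_pp_113 t 60 62 1 = true :=
  ⟨(a (b (b (l 3) (a (b (l 3) (a (c (l 363092508823) (c (l 359871325207) (l 391546518551))) (l 3))) (l 3))) (b (b (a (c (c (l 323364055895) (l 329269628391)) (c (b (l 348597000583) (l 334638345847)) (a (l 336248877271) (b (l 367924329911) (l 338396364599))))) (b (l 3) (a (c (l 357186913031) (c (l 355576341623) (l 352891980167))) (l 3)))) (a (c (l 16767288) (l 16780968)) (a (c (l 327658984551) (c (l 16781856) (l 338933317911))) (b (c (l 6211460861324465438313103631) (c (l 344302047623) (l 350207620535))) (c (l 16772296) (l 16764648)))))) (a (l 16758656) (c (l 16758064) (l 16771120))))) (b (l 3) (b (b (l 3) (a (b (a (c (l 370608688535) (c (l 370608729351) (l 368461259431))) (l 3)) (c (c (l 361481889943) (l 360945010823)) (c (a (l 341617688487) (l 371145595799)) (a (l 346986390215) (l 370071846503))))) (l 3))) (a (b (b (c (c (l 300278607159) (l 338396422583))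 (a (l 16783376) (c (l 346449504807) (l 350744485463)))) (c (l 16766864) (l 16779720))) (l 16744600)) (b (b (a (c (a (l 6356531959678143080111259855) (l 376514262503)) (c (l 371145591703) (b (l 379735542519) (l 366850613735)))) (l 3)) (a (c (b (l 316384737095) (l 16770616)) (c (l 16781368) (l 347523255991))) (c (c (l 336248953607) (l 342691416903)) (c (b (l 378124912583) (l 323364082119)) (b (l 378661775687) (l 357723810295)))))) (c (c (l 16763080) (l 16769120)) (a (l 16776840) (c (l 16777088) (l 16783504))))))))), by decide +kernel⟩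

def k8_pp_113 : ∃ t, chk3 f_pp_113 t 61 62 1 = true :=
  ⟨(b (l 3) (a (b (l 3) (a (b (a (a (c (c (l 387251702119) (l 388862327319)) (c (l 389399190103) (l 389399203335))) (l 3)) (l 3)) (a (c (b (c (l 331953983271) (b (l 374366800119) (l 16775688))) (l 16768896)) (b (c (b (l 375977425463) (l 321753464471)) (a (l 355039452455) (b (l 385104245895) (l 355576327959)))) (l 16781248))) (b (b (l 3) (c (c (l 382956725063) (l 385641091783)) (c (a (l 353965718359) (l 397989137415)) (c (l 387788597639) (l 387788593703))))) (c (a (c (l 16768648) (l 16774640)) (c (l 319069084615) (l 319605970327))) (c (c (l 340007065479) (l 343765168135)) (b (c (l 350744499015) (l 5940661477731012391297450191)) (l 16786816))))))) (b (l 3) (b (l 3) (a (c (c (b (l 393157275239) (a (l 326048404567) (l 385641078903))) (b (l 396378512823) (a (l 326585290247) (l 389936058215)))) (c (a (b (l 395304781239) (l 334101495703)) (c (l 396378521399) (l 397452269543))) (c (b (l 400136631303) (a (l 336248988775) (l 394231047415)))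 (b (l 400673508743) (a (l 354502602231) (l 395304795703)))))) (l 3)))))) (l 3))), by decide +kernel⟩

def k9_pp_113 : ∃ t, chk3 f_pp_113 t 60 63 1 = true :=
  ⟨(b (a (b (l 16741680) (l 16722800)) (b (c (l 16748056) (l 16759984)) (l 16713976))) (a (l 16654448) (c (l 16705200) (l 16713600)))), by decide +kernel⟩

def k10_pp_113 : ∃ t, chk3 f_pp_113 t 122 126 1 = true :=
  ⟨(a (b (b (a (l 16746480) (c (l 16765168) (l 16777192))) (l 16759472)) (l 16745664)) (b (c (b (a (b (b (a (l 16771608) (c (l 322827177399) (l 323900933911))) (l 16770096)) (l 16766568)) (c (b (b (a (c (l 6414560399019627757042008271) (l 352891952551)) (l 372219310279)) (a (l 16770288) (b (l 357186915607) (l 320679695495)))) (l 16768240)) (b (b (a (b (l 372756189127) (l 351281350135)) (l 377588031063)) (a (l 16776104) (b (l 363092512359) (l 324974676919)))) (l 16773808)))) (l 16762144)) (b (a (b (b (a (l 16783840) (c (l 331954009847) (c (l 333027761447) (l 333027768823)))) (l 16771728)) (l 16778424)) (c (b (b (a (c (l 367387487863)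 (l 372219332263)) (l 381883010391)) (a (l 16782104) (b (l 367924365015) (l 331954012263)))) (l 16779544)) (c (b (b (a (b (l 385104241831) (l 360945047943)) (l 384567374199)) (a (l 16786720) (l 365240015607))) (l 16783960)) (b (b (a (b (l 388325473719) (l 371145601639)) (l 386714864119)) (a (l 16789856) (b (l 372756215879) (l 345912670439)))) (l 16786960))))) (l 16773056))) (l 16732976))), by decide +kernel⟩

def k11_pp_113 : ∃ t, chk3 f_pp_113 t 246 126 1 = true :=
  ⟨(b (b (b (b (l 3) (a (a (a (c (c (l 364166245431) (l 370608707607)) (c (l 375440557415) (b (l 3) (l 6395217585906060321865662671)))) (l 3)) (l 3)) (l 3))) (b (a (a (c (c (l 319605956775) (l 324437808455)) (c (l 327659047559) (c (l 356113209079) (l 6201789454767716836413440207)))) (c (c (l 362555634263) (l 367924354103)) (c (b (l 381883010263) (l 359871300039)) (c (l 375440566423) (a (l 374366829207) (l 384030507927)))))) (l 3)) (a (c (c (l 308331667735) (l 313700389639)) (a (c (l 16781552) (l 16787224)) (c (l 324974691831)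 (c (l 338396470967) (l 340007090327))))) (a (c (c (l 357723796263) (l 363092515655)) (c (b (l 374903687639) (l 336248983015)) (c (l 370071856247) (a (l 368461247879) (l 378124926535))))) (l 3))))) (c (b (a (l 16771192) (a (c (l 16772184) (l 16777128)) (c (l 340543927943) (l 6066389762970688428189499599)))) (l 16769088)) (a (c (l 16776616) (l 16781888)) (b (c (b (a (l 16783432) (l 6201789454767613825906933967)) (l 16782088)) (b (a (l 16791368) (c (l 365240016999) (b (l 373293087335) (l 347523283063)))) (l 16787216))) (l 16780928))))) (c (l 16758312) (l 16766768))), by decide +kernel⟩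

def k12_pp_113 : ∃ t, chk3 f_pp_113 t 247 126 1 = true :=
  ⟨(b (b (l 3) (b (a (c (c (b (l 371682448023) (l 336248962775)) (a (a (l 360408162039) (l 366313744503)) (l 373293070151))) (b (a (a (c (l 375977430967) (c (l 378661793207) (l 381346152999))) (l 3)) (l 3)) (a (c (l 329806532951) (a (l 333027767303) (c (l 362555662503) (l 365240022103)))) (b (l 3) (c (l 368461237239) (a (l 6288832113779922926710931663) (l 381883024807))))))) (l 3)) (a (c (c (l 16775800) (l 307257942551)) (a (b (l 16790528) (l 16782816)) (c (l 317458500871) (c (l 313163543879) (l 329806542983))))) (a (c (c (l 352355090391) (l 6085732576084341281728970959)) (b (c (b (l 375977431975) (l 316921638103)) (c (l 371145599415) (b (l 381346152887) (l 366850635367)))) (c (l 16784688) (l 16791848)))) (b (l 3) (c (c (l 351281351351) (l 358260681143)) (c (l 363092531911) (c (l 365776889159) (a (l 362555667095) (a (l 369534990503) (l 375977442535))))))))))) (b (a (c (l 16769288) (l 16777728)) (b (c (l 16781168) (c (l 16782120)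 (l 16791656))) (l 16754416))) (l 16745480))), by decide +kernel⟩

def k13_pp_113 : ∃ t, chk3 f_pp_113 t 61 127 1 = true :=
  ⟨(a (b (l 16732568) (l 16716352)) (b (c (l 16746136) (l 16752152)) (l 16732392))), by decide +kernel⟩

def k14_pp_113 : ∃ t, chk3 f_pp_113 t 31 62 1 = true :=
  ⟨(l 3), by decide +kernel⟩

def k15_pp_113 : ∃ t, chk3 f_pp_113 t 124 252 1 = true :=
  ⟨(a (a (a (a (b (l 3) (b (l 3) (b (l 3) (c (l 372219324295) (c (l 377051175111) (c (l 379735536183) (l 382956766071))))))) (l 3)) (l 3)) (l 3)) (l 3)), by decide +kernel⟩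

def k16_pp_113 : ∃ t, chk3 f_pp_113 t 124 253 1 = true :=
  ⟨(a (a (b (b (c (c (l 336785841895) (b (l 351818237511) (l 292762439175))) (b (a (c (l 309942317127) (b (c (l 362555663831) (l 6385546179349022891944083663)) (l 316384772903))) (b (l 3) (c (l 369534981159) (c (l 371682470887) (a (l 367924377527) (l 384030507047)))))) (a (l 16791280) (c (l 308868573751) (c (l 320142866871) (l 340543960967)))))) (c (l 16775904) (b (l 16784568) (l 16782120)))) (l 16751688)) (b (b (a (b (l 3) (c (l 6076061169527465136423436367) (c (l 368998110727) (c (l 371682471063) (b (l 383493636455) (l 6424231805576476414608425039)))))) (l 3)) (c (c (l 309405425447) (l 312626659367)) (a (c (l 16784448) (c (l 16787192) (l 16794304))) (b (c (l 364166271543) (c (l 366850631511) (c (l 367924376103) (a (l 362018796887) (l 372756217127))))) (c (l 16785232) (l 16788736)))))) (c (l 16773632) (l 16769424)))) (a (b (b (l 3) (c (c (l 365240004439) (a (l 364703137527) (l 375440560423))) (b (a (b (l 3) (c (l 377051176423)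 (c (l 380272407111) (l 385104248855)))) (l 3)) (a (c (l 311552930503) (b (c (l 365240018727) (a (l 353428861495) (l 375440570487))) (l 334101507847))) (b (l 3) (c (l 370071853431) (c (l 373293083751) (a (l 367387505959) (l 386714860855))))))))) (c (c (l 268603245399) (l 296520530471)) (b (b (a (l 16791656) (c (l 309942316279) (b (a (l 16790056) (c (l 334101509799) (l 357723829207))) (l 16789248)))) (l 16784904)) (l 16781256)))) (b (l 3) (b (c (c (l 360408165719) (a (l 358260685303) (l 368998107927))) (b (a (c (l 370071853687) (c (b (l 381883019703) (l 366850631319)) (b (a (l 381883021751) (l 3)) (a (l 354502602663) (l 377051182647))))) (l 3)) (a (c (l 16786224) (c (l 16788408) (l 314774158183))) (c (l 364703143383) (c (b (l 375440567159) (l 350207632375)) (b (a (l 367924376247) (l 388862343815)) (a (l 16790560) (l 362555666231)))))))) (c (l 16790192) (c (l 16783584) (l 16790200))))))), by decide +kernel⟩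

def k17_pp_113 : ∃ t, chk3 f_pp_113 t 125 126 1 = true :=
  ⟨(b (l 3) (a (b (l 3) (b (b (l 3) (a (a (c (l 375440558039) (c (l 382419887719) (b (l 3) (a (c (l 378661792791) (l 384030504663)) (l 3))))) (l 3)) (l 3))) (b (a (c (a (l 294373056695) (l 370608719111)) (a (c (l 309942312407) (c (b (l 368998114615) (l 16788856)) (b (a (l 354502601911) (b (l 386177988071) (l 371682470679))) (l 319605995431)))) (c (l 378661789959) (b (l 3) (c (l 377588050359) (a (b (l 379198665255) (l 335175252327)) (l 391009826615))))))) (l 3)) (a (c (l 310479176279) (a (l 16791616) (c (l 307794832135) (a (l 16794144) (b (c (l 331417154087) (a (l 331417155271) (l 365240020359))) (l 16789120)))))) (a (c (l 365240009223) (c (b (l 382419886295) (l 366850627079)) (c (b (l 386714857031) (l 371145597719)) (c (b (l 388862342423) (l 372756212167)) (b (a (l 385104246183) (l 3)) (a (l 332490897063) (l 380272406951))))))) (l 3)))))) (l 3))), by decide +kernel⟩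

def k18_pp_113 : ∃ t, chk3 f_pp_113 t 62 127 1 = true :=
  ⟨(a (b (a (b (l 16765672) (l 16756880)) (b (c (l 16771184) (l 16775864)) (l 16764560))) (c (l 16746656) (l 16749272))) (b (a (b (b (a (c (l 16779280) (l 16791472)) (c (c (l 317458497031) (l 313700405479)) (b (a (c (l 16786360) (c (l 16787968) (c (l 16791408) (l 314237285079)))) (c (b (l 373829950231) (l 313700411655)) (c (b (l 375977436999) (l 321216606151)) (c (b (l 377588051319) (l 358260695703)) (b (a (b (l 377588052087) (l 343765185655)) (l 388862342471)) (a (l 16789920) (l 359871310295))))))) (a (l 16784992) (c (l 16785728) (l 16787672)))))) (c (l 16776840) (a (l 16778792) (l 16782216)))) (b (l 16774112) (l 16769640))) (b (a (a (b (c (b (l 382419881879) (l 296520540663)) (b (c (l 384030500311) (b (l 3) (a (c (l 379735533415) (b (l 3) (l 378124921895))) (l 3)))) (c (l 360945045623) (c (l 6085732576084321078215131215) (b (a (l 351281374647) (a (l 372756212023) (l 384030502119))) (l 319069122023)))))) (c (l 16781472) (l 16789968)))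 (b (b (l 3) (c (l 377588042631) (c (l 378661789575) (b (l 3) (c (l 377051177991) (a (b (l 378124921303) (l 336248991527)) (l 390472953479))))))) (c (l 309405435495) (b (c (l 330343404951) (b (a (l 16788640) (c (l 359334436215) (l 6404888992462639392869531727))) (l 16787792))) (l 16785152))))) (b (l 3) (b (a (c (l 373293074231) (c (b (l 382419885655) (l 366850626439)) (c (b (l 385641113527) (l 366850628743)) (b (a (l 385104243271) (l 3)) (a (l 350207631639) (l 379198662151)))))) (l 3)) (a (c (l 16783920) (c (l 16786032) (c (l 16789752) (l 305110476903)))) (c (l 359871300279) (c (l 5892304444945981441052901455) (c (b (l 378124918727) (l 313700410967)) (b (a (l 373829951943) (l 391546693879)) (a (l 16788392) (l 368461241735)))))))))) (b (a (l 16768856) (c (l 16786720) (a (l 16783136) (c (l 16784088) (l 16790560))))) (a (l 16774816) (l 16778112))))) (a (b (l 16763048) (l 16754480)) (b (l 16759296) (l 16761080))))), by decide +kernel⟩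

def k19_pp_113 : ∃ t, chk3 f_pp_113 t 63 126 1 = true :=
  ⟨(l 3), by decide +kernel⟩

def k20_pp_113 : ∃ t, chk3 f_pp_113 t 126 254 1 = true :=
  ⟨(b (a (a (b (l 3) (b (l 3) (a (c (l 386177978919) (c (l 385641111847) (b (l 3) (a (c (l 381883014967) (l 386177983607)) (l 3))))) (l 3)))) (l 3)) (l 3)) (b (a (a (c (b (a (l 286856863559) (l 381883010199)) (l 301889243255)) (b (a (c (l 5834276005604469963535548495) (c (l 5843947412161382255291007055) (b (a (l 321216603687) (l 380272402423)) (l 337322727271)))) (a (b (l 3) (c (l 328732794935) (c (l 371145594615) (l 374903692151)))) (l 3))) (a (l 16785024) (c (l 321216598103) (b (a (l 16787304) (c (l 319069118359) (l 368998110983))) (l 16786432)))))) (b (l 3) (a (c (c (l 377051169559) (l 377051171431)) (c (b (l 386177980215) (l 370608720983)) (b (a (l 386177981335) (l 3)) (a (l 340007081399) (c (l 378124915991) (l 381346142439)))))) (l 3)))) (l 3)) (a (a (c (l 16780400) (b (l 16783368) (l 16780976))) (c (b (a (l 16783840) (c (l 318532241671)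 (l 362555655079))) (l 16782392)) (c (b (a (l 16787744) (b (l 379735527191) (l 294909925095))) (l 16783488)) (b (a (a (l 16785656) (l 293299313159)) (b (a (c (l 372756205735) (l 375977432103)) (l 3)) (a (l 16786432) (l 6027704136742765482791190607)))) (l 16786864))))) (a (b (a (c (l 391009805687) (c (l 388325453447) (b (l 3) (a (l 386714850359) (l 3))))) (l 3)) (a (c (c (l 314774143527) (l 308331694455)) (c (b (l 373293074119) (l 16784992)) (b (a (l 332490886903) (c (l 380272397799) (l 382419882167))) (a (l 16785328) (l 329806530999))))) (a (c (l 385104233351) (c (l 382956751623) (b (l 3) (c (l 375440558359) (l 376514300839))))) (l 3)))) (l 3))))), by decide +kernel⟩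

def k21_pp_113 : ∃ t, chk3 f_pp_113 t 126 255 1 = true :=
  ⟨(a (b (a (l 16764000) (c (l 16776960) (l 16767416))) (l 16756632)) (a (b (b (c (b (a (l 16782376) (l 269140118775)) (l 16780880)) (b (a (l 16783520) (c (l 270750729655) (b (a (l 16785408) (l 5901975851502818278815776847)) (l 16784496)))) (l 16781784))) (l 16772672)) (l 16771200)) (b (b (b (a (c (c (l 385641102695) (l 383493609543)) (c (b (l 391009815191) (l 375977426855)) (b (a (l 387251719063) (l 3)) (a (l 326048433735) (c (l 383493621079) (l 382419879751)))))) (l 3)) (c (a (l 16785496) (c (l 358260684215) (l 361481905191))) (a (a (l 16783384) (c (l 16786424) (l 299741757703))) (c (b (l 385104227399) (l 269676987991)) (b (a (c (l 378661781543) (l 377588040167)) (l 3)) (a (l 16784208) (c (l 368998103799) (l 372756200567)))))))) (b (a (l 16780984) (c (l 16781920) (c (l 16782360) (l 16782664)))) (l 16779320))) (b (l 16775928) (l 16771464))))), by decide +kernel⟩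

def k22_pp_113 : ∃ t, chk3 f_pp_113 t 127 127 1 = true :=
  ⟨(b (l 3) (a (b (a (b (a (c (l 429664511303) (c (l 503752698423) (a (l 448454994551) (l 3)))) (l 3)) (a (c (b (c (l 391546673127) (l 355576322887)) (l 16780904)) (b (c (b (l 379198644823) (l 270213855975)) (b (a (c (l 315847883575) (l 313700400343)) (l 385641099671)) (a (l 16782920) (l 309405431511)))) (l 16781280))) (b (a (b (l 3) (c (l 333564624391) (c (l 384567358503) (c (l 382419875239) (l 380272389239))))) (l 3)) (b (c (l 391546673559) (a (l 272898209239) (c (l 365240004311) (c (l 367924359191) (l 369534969511))))) (c (l 16781464) (l 16783096)))))) (a (b (l 3) (b (l 3) (b (b (l 3) (a (c (l 401747226407) (l 394231031783)) (l 3))) (a (c (l 392083545127) (c (l 396915384055) (c (l 395841642631) (l 364166258903)))) (l 6))))) (l 3))) (a (b (c (l 16772936) (b (l 16779456) (l 16777096))) (l 16773712)) (a (a (b (c (l 16779496) (b (l 16780776) (l 6))) (l 6)) (l 6)) (l 6)))) (b (l 3) (l 6)))), by decide +kernel⟩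

theorem s23_pp_113 : ∃ t, chk3 f_pp_113 t 126 127 1 = true := ex3_b k20_pp_113 k21_pp_113

theorem s24_pp_113 : ∃ t, chk3 f_pp_113 t 63 127 1 = true := ex3_a s23_pp_113 k22_pp_113

theorem s25_pp_113 : ∃ t, chk3 f_pp_113 t 63 63 1 = true := ex3_b k19_pp_113 s24_pp_113

theorem s26_pp_113 : ∃ t, chk3 f_pp_113 t 124 126 1 = true := ex3_b k15_pp_113 k16_pp_113

theorem s27_pp_113 : ∃ t, chk3 f_pp_113 t 62 126 1 = true := ex3_a s26_pp_113 k17_pp_113

theorem s28_pp_113 : ∃ t, chk3 f_pp_113 t 62 63 1 = true := ex3_b s27_pp_113 k18_pp_113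

theorem s29_pp_113 : ∃ t, chk3 f_pp_113 t 31 63 1 = true := ex3_a s28_pp_113 s25_pp_113

theorem s30_pp_113 : ∃ t, chk3 f_pp_113 t 31 31 1 = true := ex3_b k14_pp_113 s29_pp_113

theorem s31_pp_113 : ∃ t, chk3 f_pp_113 t 123 126 1 = true := ex3_a k11_pp_113 k12_pp_113

theorem s32_pp_113 : ∃ t, chk3 f_pp_113 t 61 126 1 = true := ex3_a k10_pp_113 s31_pp_113

theorem s33_pp_113 : ∃ t, chk3 f_pp_113 t 61 63 1 = true := ex3_b s32_pp_113 k13_pp_113

theorem s34_pp_113 : ∃ t, chk3 f_pp_113 t 30 63 1 = true := ex3_a k9_pp_113 s33_pp_113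

theorem s35_pp_113 : ∃ t, chk3 f_pp_113 t 30 62 1 = true := ex3_a k7_pp_113 k8_pp_113

theorem s36_pp_113 : ∃ t, chk3 f_pp_113 t 30 31 1 = true := ex3_b s35_pp_113 s34_pp_113

theorem s37_pp_113 : ∃ t, chk3 f_pp_113 t 15 31 1 = true := ex3_a s36_pp_113 s30_pp_113

theorem s38_pp_113 : ∃ t, chk3 f_pp_113 t 15 15 1 = true := ex3_b k6_pp_113 s37_pp_113

theorem s39_pp_113 : ∃ t, chk3 f_pp_113 t 7 15 1 = true := ex3_a k5_pp_113 s38_pp_113

theorem s40_pp_113 : ∃ t, chk3 f_pp_113 t 7 7 1 = true := ex3_b k4_pp_113 s39_pp_113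

theorem s41_pp_113 : ∃ t, chk3 f_pp_113 t 3 7 1 = true := ex3_a k3_pp_113 s40_pp_113

theorem s42_pp_113 : ∃ t, chk3 f_pp_113 t 3 3 1 = true := ex3_b k2_pp_113 s41_pp_113

theorem s43_pp_113 : ∃ t, chk3 f_pp_113 t 1 3 1 = true := ex3_a k1_pp_113 s42_pp_113

theorem s44_pp_113 : ∃ t, chk3 f_pp_113 t 1 1 1 = true := ex3_b k0_pp_113 s43_pp_113

theorem c_pp_113 : CertB 536870912 536870912 1610612736 536870912 966367641 24778659 3 eng mog cd0q1 cd1q3 pd1 false true true .nn 1 1 3
    ndB0q1 ndB1q3 pcB1 cut_pp_113 xt_pp_113 :=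
  certB1 (fam := false) (s1 := true) (s2 := true) (a := 1) (b := 1) (c := 3) (cn := .nn) (n1 := ndB0q1) (n2 := ndB1q3) (pc := pcB1) (cut := cut_pp_113) (xt := xt_pp_113) (P1 := 536870912) (W1 := 536870912) (P2 := 1610612736) (W2 := 536870912) (P3 := 966367641) (W3 := 24778659) (N0 := 3) (En := eng) (mo := mog) (C1 := cd0q1) (C2 := cd1q3) (C3 := pd1)
    rfl (fun _ => rfl) s44_pp_113

noncomputable def cut_pp_123 : Cut := Cut.of [[⟨0, 1, 0, 47710208⟩, ⟨1, 1, 0, 47710208⟩, ⟨2, 2, 0, 8388608⟩]]

noncomputable def f_pp_123 : ℕ → ℕ → ℕ → ℕ → Bool := onCell 536870912 536870912 1073741824 536870912 966367641 24778659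
    (rowB 3 eng mog cd0q1 cd1q3 pd2 1 false true true .npn 1 2 3 (qsf 536870912 536870912 1610612736 536870912 2) ndB0q1 ndB1q3 pcB2 cut_pp_123 Ext.none)

def k0_pp_123 : ∃ t, chk3 f_pp_123 t 2 1 1 = true :=
  ⟨(b (a (b (b (a (c (b (a (b (l 15670792) (l 15688552)) (b (l 15651584) (l 15673840))) (a (l 15714768) (l 15706648))) (b (a (l 15744064) (l 15718656)) (l 15743560))) (a (b (c (b (l 15640136) (l 15666984)) (l 15699496)) (l 15934584)) (b (c (l 15652344) (l 15686640)) (l 15832056)))) (a (c (b (l 15747784) (l 15783376)) (l 15741784)) (c (b (l 15764792) (l 15816864)) (l 15766952)))) (b (a (c (l 15831024) (l 15836232)) (b (l 15861120) (l 15894816))) (a (l 15797144) (l 15931816)))) (b (b (a (b (a (c (l 15659224) (l 15680528)) (c (l 15675376) (l 15681552))) (a (l 15821560) (l 15757336))) (c (b (a (l 15702624) (l 15743288)) (l 15820480)) (b (a (l 15690728) (l 15711144)) (l 15798688)))) (a (c (b (l 15817376) (l 15887416)) (l 16077736)) (b (l 16132848) (l 15989152)))) (a (b (b (l 15937896) (l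 15987976)) (l 16046704)) (b (b (l 16068504) (l 16139376)) (b (l 16200328) (l 16041264)))))) (a (b (b (a (l 15862456) (l 15954728)) (a (l 15837776) (b (l 15950616) (l 15933832)))) (b (a (b (l 15801752) (l 15768680)) (b (l 15893240) (l 15847152))) (a (b (l 15751624) (l 15841056)) (b (l 15733792) (l 2))))) (b (b (a (b (l 16086080) (l 16095344)) (b (l 16069232) (l 16171256))) (a (b (l 16056072) (l 16008368)) (b (l 16113616) (l 2)))) (a (b (b (l 15951016) (l 2)) (l 2)) (l 2))))), by decide +kernel⟩

def k1_pp_123 : ∃ t, chk3 f_pp_123 t 6 2 1 = true :=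
  ⟨(b (b (c (a (b (a (l 15801288) (l 15883952)) (l 15964048)) (b (a (l 16004440) (l 16394448)) (l 16234376))) (a (b (a (l 15748320) (l 15810576)) (l 15911408)) (b (a (l 15911632) (l 16072040)) (l 16158048)))) (b (a (l 16187024) (a (l 16261816) (l 16453648))) (a (l 16177832) (a (l 16402592) (a (l 16539944) (l 16559512)))))) (a (b (b (a (l 16220544) (l 16359552)) (a (l 16311728) (l 16422272))) (b (a (l 16349464) (l 16394816)) (l 16163736))) (b (b (a (l 16426304) (l 16526776)) (a (l 16465304) (l 16482304))) (a (l 16178288) (l 2))))), by decide +kernel⟩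

def k2_pp_123 : ∃ t, chk3 f_pp_123 t 7 2 1 = true :=
  ⟨(b (b (a (b (a (b (a (l 16280320) (l 16467120)) (l 16447824)) (b (a (l 16653400) (b (l 16671312) (l 16673816))) (a (l 16652448) (l 16676464)))) (a (b (l 16523552) (l 16596072)) (b (l 16599896) (c (l 16644688) (l 16673472))))) (b (a (b (a (b (a (l 16687928) (l 16700952)) (l 16699296)) (b (a (l 16715792) (b (l 16729296) (l 16732808))) (l 16708176))) (a (l 16703104) (b (l 16732200) (l 16733216)))) (b (a (b (a (c (l 16743904) (l 16748112)) (b (a (l 16754232) (l 16760464)) (l 16761120))) (a (l 16751704) (l 16723400))) (b (a (b (b (c (l 16756872) (l 16747016)) (l 16748784)) (b (l 16771616) (l 16773312))) (b (a (b (c (l 16767432) (l 16769080)) (l 6)) (l 6)) (a (l 6) (l 259409249911)))) (b (a (l 16775128) (l 16728168)) (l 246524277575)))) (a (b (l 16719216) (l 16760600)) (b (l 340476682695) (l 2))))) (a (a (b (l 16681224) (l 16694320)) (b (l 16728232) (l 16714552))) (b (a (l 16754544) (l 2)) (l 2))))) (a (b (a (b (l 16606480) (l 16600272))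 (c (l 16595544) (l 16650432))) (a (l 16499072) (l 16585448))) (a (a (b (l 16660792) (l 2)) (l 2)) (l 2)))) (a (b (b (a (l 16540856) (l 2)) (l 2)) (l 2)) (l 2))), by decide +kernel⟩

def k3_pp_123 : ∃ t, chk3 f_pp_123 t 3 3 1 = true :=
  ⟨(a (b (a (b (b (l 16258000) (l 2)) (l 2)) (l 2)) (l 2)) (l 2)), by decide +kernel⟩

theorem s4_pp_123 : ∃ t, chk3 f_pp_123 t 3 2 1 = true := ex3_a k1_pp_123 k2_pp_123

theorem s5_pp_123 : ∃ t, chk3 f_pp_123 t 3 1 1 = true := ex3_b s4_pp_123 k3_pp_123

theorem s6_pp_123 : ∃ t, chk3 f_pp_123 t 1 1 1 = true := ex3_a k0_pp_123 s5_pp_123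

theorem c_pp_123 : CertB 536870912 536870912 1610612736 536870912 966367641 24778659 3 eng mog cd0q1 cd1q3 pd2 false true true .npn 1 2 3
    ndB0q1 ndB1q3 pcB2 cut_pp_123 Ext.none :=
  certB1 (fam := false) (s1 := true) (s2 := true) (a := 1) (b := 2) (c := 3) (cn := .npn) (n1 := ndB0q1) (n2 := ndB1q3) (pc := pcB2) (cut := cut_pp_123) (xt := Ext.none) (P1 := 536870912) (W1 := 536870912) (P2 := 1610612736) (W2 := 536870912) (P3 := 966367641) (W3 := 24778659) (N0 := 3) (En := eng) (mo := mog) (C1 := cd0q1) (C2 := cd1q3) (C3 := pd2)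
    rfl (fun _ => rfl) s6_pp_123

noncomputable def f_pp_133 : ℕ → ℕ → ℕ → ℕ → Bool := onCell 536870912 536870912 1610612736 536870912 966367641 24778659
    (rowB 3 eng mog cd0q1 cd1q3 pd3 1 false true true .dn 1 3 3 (qsf 536870912 536870912 1610612736 536870912 3) ndB0q1 ndB1q3 pcB3 Cut.none Ext.none)

def k0_pp_133 : ∃ t, chk3 f_pp_133 t 1 1 1 = true :=
  ⟨(a (b (a (b (a (b (b (l 16243192) (l 2)) (l 2)) (l 2)) (l 2)) (l 2)) (l 2)) (l 2)), by decide +kernel⟩

theorem c_pp_133 : CertB 536870912 536870912 1610612736 536870912 966367641 24778659 3 eng mog cd0q1 cd1q3 pd3 false true true .dn 1 3 3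
    ndB0q1 ndB1q3 pcB3 Cut.none Ext.none :=
  certB1 (fam := false) (s1 := true) (s2 := true) (a := 1) (b := 3) (c := 3) (cn := .dn) (n1 := ndB0q1) (n2 := ndB1q3) (pc := pcB3) (cut := Cut.none) (xt := Ext.none) (P1 := 536870912) (W1 := 536870912) (P2 := 1610612736) (W2 := 536870912) (P3 := 966367641) (W3 := 24778659) (N0 := 3) (En := eng) (mo := mog) (C1 := cd0q1) (C2 := cd1q3) (C3 := pd3)
    rfl (fun _ => rfl) k0_pp_133

noncomputable def f_pp_202_a : ℕ → ℕ → ℕ → ℕ → Bool := onCell 0 536870912 0 536870912 966367641 24778659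
    (rowB 3 eng mog cd0q2 cd1q2a pd0 0 false true true .pp 2 0 2 (qsf 0 536870912 0 536870912 0) ndB0q2 ndB1q2a pcB0 Cut.none Ext.none)

def k0_pp_202_a : ∃ t, chk3 f_pp_202_a t 1 1 1 = true :=
  ⟨(l 3), by decide +kernel⟩

theorem c_pp_202_a : CertB 0 536870912 0 536870912 966367641 24778659 3 eng mog cd0q2 cd1q2a pd0 false true true .pp 2 0 2
    ndB0q2 ndB1q2a pcB0 Cut.none Ext.none :=
  certB0 (fam := false) (s1 := true) (s2 := true) (a := 2) (b := 0) (c := 2) (cn := .pp) (n1 := ndB0q2) (n2 := ndB1q2a) (pc := pcB0) (cut := Cut.none) (xt := Ext.none) (P1 := 0) (W1 := 536870912) (P2 := 0) (W2 := 536870912) (P3 := 966367641) (W3 := 24778659) (N0 := 3) (En := eng) (mo := mog) (C1 := cd0q2) (C2 := cd1q2a) (C3 := pd0)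
    rfl k0_pp_202_a

noncomputable def f_pp_202_b : ℕ → ℕ → ℕ → ℕ → Bool := onCell 0 536870912 1239849684 370763052 966367641 24778659
    (rowB 3 eng mog cd0q2 cd1q2b pd0 0 false true true .pp 2 0 2 (qsf 0 536870912 1239849684 370763052 0) ndB0q2 ndB1q2b pcB0 Cut.none Ext.none)

def k0_pp_202_b : ∃ t, chk3 f_pp_202_b t 1 1 1 = true :=
  ⟨(l 3), by decide +kernel⟩

theorem c_pp_202_b : CertB 0 536870912 1239849684 370763052 966367641 24778659 3 eng mog cd0q2 cd1q2b pd0 false true true .pp 2 0 2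
    ndB0q2 ndB1q2b pcB0 Cut.none Ext.none :=
  certB0 (fam := false) (s1 := true) (s2 := true) (a := 2) (b := 0) (c := 2) (cn := .pp) (n1 := ndB0q2) (n2 := ndB1q2b) (pc := pcB0) (cut := Cut.none) (xt := Ext.none) (P1 := 0) (W1 := 536870912) (P2 := 1239849684) (W2 := 370763052) (P3 := 966367641) (W3 := 24778659) (N0 := 3) (En := eng) (mo := mog) (C1 := cd0q2) (C2 := cd1q2b) (C3 := pd0)
    rfl k0_pp_202_b

noncomputable def f_pp_203 : ℕ → ℕ → ℕ → ℕ → Bool := onCell 0 536870912 0 536870912 966367641 24778659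
    (rowB 3 eng mog cd0q2 cd1q3 pd0 1 false true true .up 2 0 3 (qsf 0 536870912 1610612736 536870912 0) ndB0q2 ndB1q3 pcB0 Cut.none Ext.none)

def k0_pp_203 : ∃ t, chk3 f_pp_203 t 1 1 1 = true :=
  ⟨(l 3), by decide +kernel⟩

theorem c_pp_203 : CertB 0 536870912 1610612736 536870912 966367641 24778659 3 eng mog cd0q2 cd1q3 pd0 false true true .up 2 0 3
    ndB0q2 ndB1q3 pcB0 Cut.none Ext.none :=
  certB1 (fam := false) (s1 := true) (s2 := true) (a := 2) (b := 0) (c := 3) (cn := .up) (n1 := ndB0q2) (n2 := ndB1q3) (pc := pcB0) (cut := Cut.none) (xt := Ext.none) (P1 := 0) (W1 := 536870912) (P2 := 1610612736) (W2 := 536870912) (P3 := 966367641) (W3 := 24778659) (N0 := 3) (En := eng) (mo := mog) (C1 := cd0q2) (C2 := cd1q3) (C3 := pd0)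
    rfl (fun _ => rfl) k0_pp_203

noncomputable def cut_pp_213 : Cut := Cut.of [[⟨0, 1, 0, 47710208⟩, ⟨1, 1, 0, 47710208⟩, ⟨2, 2, 0, 8388608⟩]]

noncomputable def f_pp_213 : ℕ → ℕ → ℕ → ℕ → Bool := onCell 0 536870912 1610612736 536870912 966367641 24778659
    (rowB 3 eng mog cd0q2 cd1q3 pd1 0 false true true .pnn 2 1 3 (qsf 0 536870912 1610612736 536870912 1) ndB0q2 ndB1q3 pcB1 cut_pp_213 Ext.none)

def k0_pp_213 : ∃ t, chk3 f_pp_213 t 1 1 1 = true :=
  ⟨(b (l 3) (a (l 3) (b (l 3) (a (l 3) (b (l 3) (a (l 3) (b (l 3) (b (l 3) (b (l 3) (b (l 3) (l 6))))))))))), by decide +kernel⟩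

theorem c_pp_213 : CertB 0 536870912 1610612736 536870912 966367641 24778659 3 eng mog cd0q2 cd1q3 pd1 false true true .pnn 2 1 3
    ndB0q2 ndB1q3 pcB1 cut_pp_213 Ext.none :=
  certB0 (fam := false) (s1 := true) (s2 := true) (a := 2) (b := 1) (c := 3) (cn := .pnn) (n1 := ndB0q2) (n2 := ndB1q3) (pc := pcB1) (cut := cut_pp_213) (xt := Ext.none) (P1 := 0) (W1 := 536870912) (P2 := 1610612736) (W2 := 536870912) (P3 := 966367641) (W3 := 24778659) (N0 := 3) (En := eng) (mo := mog) (C1 := cd0q2) (C2 := cd1q3) (C3 := pd1)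
    rfl k0_pp_213

noncomputable def f_pm_001 : ℕ → ℕ → ℕ → ℕ → Bool := onCell 0 536870912 536870912 536870912 966367641 24778659
    (rowB 3 eng mog cd0q0 cd1q1 pd0 0 false true false .up 0 0 1 (qsf 0 536870912 536870912 536870912 0) ndB0q0 ndB1q1 pcB0 Cut.none Ext.none)

def k0_pm_001 : ∃ t, chk3 f_pm_001 t 1 1 1 = true :=
  ⟨(l 4), by decide +kernel⟩

theorem c_pm_001 : CertB 0 536870912 536870912 536870912 966367641 24778659 3 eng mog cd0q0 cd1q1 pd0 false true false .up 0 0 1
    ndB0q0 ndB1q1 pcB0 Cut.none Ext.none :=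
  certB0 (fam := false) (s1 := true) (s2 := false) (a := 0) (b := 0) (c := 1) (cn := .up) (n1 := ndB0q0) (n2 := ndB1q1) (pc := pcB0) (cut := Cut.none) (xt := Ext.none) (P1 := 0) (W1 := 536870912) (P2 := 536870912) (W2 := 536870912) (P3 := 966367641) (W3 := 24778659) (N0 := 3) (En := eng) (mo := mog) (C1 := cd0q0) (C2 := cd1q1) (C3 := pd0)
    rfl k0_pm_001

noncomputable def f_pm_011 : ℕ → ℕ → ℕ → ℕ → Bool := onCell 0 536870912 536870912 536870912 966367641 24778659
    (rowB 3 eng mog cd0q0 cd1q1 pd1 0 false true false .pnn 0 1 1 (qsf 0 536870912 536870912 536870912 1) ndB0q0 ndB1q1 pcB1 Cut.none Ext.none)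

def k0_pm_011 : ∃ t, chk3 f_pm_011 t 1 1 1 = true :=
  ⟨(l 4), by decide +kernel⟩

theorem c_pm_011 : CertB 0 536870912 536870912 536870912 966367641 24778659 3 eng mog cd0q0 cd1q1 pd1 false true false .pnn 0 1 1
    ndB0q0 ndB1q1 pcB1 Cut.none Ext.none :=
  certB0 (fam := false) (s1 := true) (s2 := false) (a := 0) (b := 1) (c := 1) (cn := .pnn) (n1 := ndB0q0) (n2 := ndB1q1) (pc := pcB1) (cut := Cut.none) (xt := Ext.none) (P1 := 0) (W1 := 536870912) (P2 := 536870912) (W2 := 536870912) (P3 := 966367641) (W3 := 24778659) (N0 := 3) (En := eng) (mo := mog) (C1 := cd0q0) (C2 := cd1q1) (C3 := pd1)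
    rfl k0_pm_011

noncomputable def cut_pm_012_a : Cut := Cut.of [[⟨0, 0, 0, 67108864⟩, ⟨1, 1, 0, 67108864⟩, ⟨2, 1, 0, 67108864⟩]]

noncomputable def f_pm_012_a : ℕ → ℕ → ℕ → ℕ → Bool := onCell 0 536870912 0 536870912 966367641 24778659
    (rowB 3 eng mog cd0q0 cd1q2a pd1 0 false true false .pnp 0 1 2 (qsf 0 536870912 0 536870912 1) ndB0q0 ndB1q2a pcB1 cut_pm_012_a Ext.none)

def k0_pm_012_a : ∃ t, chk3 f_pm_012_a t 4 1 1 = true :=
  ⟨(b (a (l 2) (b (l 2) (a (l 2) (b (l 2) (a (l 2) (b (l 2) (l 16025280))))))) (b (a (l 2) (a (b (l 2) (a (a (l 2) (b (l 2) (b (l 16222352) (l 16259880)))) (b (b (l 16133736) (l 16164944)) (b (l 16198824) (l 16256376))))) (b (a (b (l 16071736) (a (l 16115408) (l 16118104))) (b (l 16058880) (l 16102120))) (b (a (a (l 16171008) (l 16172688)) (l 16176184)) (a (a (l 16237024) (l 16237544)) (l 16239328)))))) (a (b (a (l 2) (b (a (l 2) (b (l 2) (a (l 2) (l 16362848)))) (a (l 6) (a (l 6) (b (l 16399768) (l 16450056)))))) (a (l 6) (a (l 6) (a (l 6) (b (b (l 16503232)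 (l 16569776)) (b (b (l 16603080) (l 16633248)) (b (l 16664128) (l 16685216)))))))) (b (a (b (a (b (a (l 16303896) (l 16300176)) (a (l 16347696) (l 16343256))) (b (l 16295656) (l 16337664))) (a (b (a (l 16394336) (l 16389128)) (a (l 16443808) (l 16437792))) (b (l 16382400) (l 16429864)))) (b (a (c (l 16327056) (l 16298872)) (l 16312632)) (a (b (l 16376568) (l 16422448)) (l 16417136)))) (a (b (a (b (a (l 16496128) (l 16489256)) (a (l 16551280) (l 16543504))) (b (l 16480056) (l 16532960))) (b (a (b (l 16590104) (l 16619544)) (l 16546600)) (a (b (l 16628688) (a (l 16685456) (l 16675464))) (c (l 16600472) (l 16630280))))) (b (a (b (l 16470952) (l 16522072)) (b (l 16465032) (l 16514368))) (b (a (l 16554792) (l 16545192)) (a (b (l 16596584) (l 16646272)) (l 16578400))))))))), by decide +kernel⟩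

def k1_pm_012_a : ∃ t, chk3 f_pm_012_a t 5 1 1 = true :=
  ⟨(b (a (b (a (a (l 2) (b (l 16071776) (l 16015712))) (b (c (l 16113472) (l 16076672)) (c (l 16080512) (l 16019984)))) (a (b (a (b (l 16013960) (l 16019688)) (b (l 16028440) (l 16033632))) (a (b (l 16033952) (l 16057056)) (l 16037400))) (b (b (l 16031456) (l 16035920)) (a (l 16051296) (l 16066528))))) (b (a (b (a (l 16121360) (l 16140200)) (a (l 16087952) (l 16107456))) (b (l 16168512) (l 16136824))) (a (b (b (l 16067928) (l 16071536)) (c (l 16105488) (l 16078232))) (b (l 16108560) (l 16149136))))) (b (a (b (a (b (a (l 16089272) (l 16100024)) (a (l 16130848) (l 16139984))) (b (l 16097776) (l 16156368))) (a (b (c (l 16179176) (l 16149480)) (a (l 16242880) (l 16247888))) (b (l 16202816) (l 16258216)))) (b (a (b (l 16127696) (l 16183264)) (l 16197616)) (a (b (l 16226096) (l 16277224)) (l 16171408)))) (a (b (a (b (a (l 16313608) (l 16316064)) (a (l 16394200) (l 16393736))) (b (l 16322616) (l 16312072))) (a (b (a (l 16421632) (l 16438824))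 (b (c (l 16524848) (l 16563888)) (a (l 16589272) (l 16580680)))) (b (a (l 16436560) (l 16435808)) (a (l 16455352) (l 16482232))))) (b (a (b (l 16336640) (l 16341304)) (b (l 16353936) (l 16394768))) (a (a (b (l 16478504) (l 16479120)) (b (l 16480680) (l 16481280))) (b (l 16484400) (b (l 16518576) (l 16483560)))))))), by decide +kernel⟩

def k2_pm_012_a : ∃ t, chk3 f_pm_012_a t 3 1 1 = true :=
  ⟨(b (a (a (b (a (b (l 16203096) (l 16172912)) (b (l 16232384) (l 16203768))) (a (b (l 16144304) (l 16182528)) (b (l 16195880) (l 16210904)))) (b (a (l 16158336) (l 16261184)) (a (b (l 16219880) (l 16232752)) (l 16203576)))) (a (b (a (l 16277416) (l 16290432)) (a (l 16261416) (l 16274104))) (b (a (l 16300032) (l 16305968)) (a (l 16283368) (l 16288944))))) (a (b (a (b (a (l 16226480) (l 16250424)) (a (l 16298136) (l 16315152))) (b (a (l 16267920) (l 16281248)) (a (l 16325768) (l 16332248)))) (a (b (a (b (l 16368776) (l 16424768)) (l 16404240)) (b (a (l 16486584) (l 16465280)) (a (b (l 16464776) (l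 16428432)) (b (l 16415848) (l 16357224))))) (b (a (l 16404896) (l 16401392)) (b (a (l 16424592) (l 16387968)) (a (b (l 16373272) (l 16334344)) (c (l 16302072) (l 16306544))))))) (b (a (b (l 16338288) (a (l 16336112) (l 16336824))) (b (a (l 16303584) (l 16304096)) (a (l 16334200) (l 16328016)))) (a (b (a (l 16353256) (b (l 16372184) (l 16387176))) (a (b (l 16353936) (c (l 16264208) (l 16250736))) (b (a (l 16309496) (l 16294800)) (c (l 16167256) (l 16176456))))) (a (b (b (l 16362456) (l 16361448)) (b (a (l 16280912) (l 16267864)) (b (l 16216112) (a (l 16200840) (l 16186520))))) (b (b (l 16349232) (l 16338928)) (b (a (l 16255664) (l 16223376)) (a (b (l 16217416) (l 16173112)) (c (l 16149704) (l 16153392)))))))))), by decide +kernel⟩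

theorem s3_pm_012_a : ∃ t, chk3 f_pm_012_a t 2 1 1 = true := ex3_a k0_pm_012_a k1_pm_012_a

theorem s4_pm_012_a : ∃ t, chk3 f_pm_012_a t 1 1 1 = true := ex3_a s3_pm_012_a k2_pm_012_a

theorem c_pm_012_a : CertB 0 536870912 0 536870912 966367641 24778659 3 eng mog cd0q0 cd1q2a pd1 false true false .pnp 0 1 2
    ndB0q0 ndB1q2a pcB1 cut_pm_012_a Ext.none :=
  certB0 (fam := false) (s1 := true) (s2 := false) (a := 0) (b := 1) (c := 2) (cn := .pnp) (n1 := ndB0q0) (n2 := ndB1q2a) (pc := pcB1) (cut := cut_pm_012_a) (xt := Ext.none) (P1 := 0) (W1 := 536870912) (P2 := 0) (W2 := 536870912) (P3 := 966367641) (W3 := 24778659) (N0 := 3) (En := eng) (mo := mog) (C1 := cd0q0) (C2 := cd1q2a) (C3 := pd1)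
    rfl s4_pm_012_a

noncomputable def cut_pm_012_b : Cut := Cut.of [[⟨0, 0, 0, 67108864⟩, ⟨1, 1, 0, 67108864⟩, ⟨2, 1, 0, 67108864⟩]]

noncomputable def f_pm_012_b : ℕ → ℕ → ℕ → ℕ → Bool := onCell 0 536870912 536870912 536870912 966367641 24778659
    (rowB 3 eng mog cd0q0 cd1q2b pd1 1 false true false .pnp 0 1 2 (qsf 0 536870912 1239849684 370763052 1) ndB0q0 ndB1q2b pcB1 cut_pm_012_b Ext.none)

def k0_pm_012_b : ∃ t, chk3 f_pm_012_b t 1 1 1 = true :=
  ⟨(b (a (l 1) (a (l 1) (b (l 1) (a (b (l 1) (a (c (l 16278160) (l 16288408)) (l 282426410071))) (b (a (b (l 1) (l 16383400)) (b (l 325376317799) (l 16325088))) (a (l 138544912279) (l 16232336))))))) (a (a (l 1) (b (l 1) (a (b (l 1) (a (b (l 1) (b (l 1) (l 322154629575))) (b (c (l 301753668295) (l 272762576631)) (a (b (l 16186472) (l 16104584)) (b (l 16120832) (l 16039504)))))) (b (a (b (l 1) (l 302827424391)) (b (l 281352638407) (l 296384766679))) (a (b (b (l 300679808087) (l 169146700823)) (c (l 16012976) (l 15970288))) (b (a (l 16066456)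 (l 16016312)) (l 15888128))))))) (a (b (a (b (l 1) (a (b (l 1) (l 299069449703)) (b (l 313028159991) (l 285110633687)))) (b (a (b (l 1) (l 311954445863)) (l 255582778839)) (a (b (l 16247808) (l 16159600)) (b (l 16187624) (l 16081232))))) (a (b (a (b (l 295847952967) (l 16086928)) (b (l 16126824) (l 15997952))) (a (b (l 15946168) (l 15795960)) (b (l 15860184) (l 15713248)))) (b (a (b (l 16042176) (l 15916352)) (l 15906568)) (a (l 15711112) (l 15644936))))) (b (a (b (a (l 284036787239) (l 16149912)) (a (l 16065968) (l 16006576))) (b (a (l 16135152) (l 16087216)) (a (l 15956960) (l 15916824)))) (a (b (a (l 15844128) (l 15792360)) (a (l 15590600) (l 15547648))) (b (a (l 15751072) (l 15720024)) (a (l 15515904) (l 15495160)))))))), by decide +kernel⟩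

theorem c_pm_012_b : CertB 0 536870912 1239849684 370763052 966367641 24778659 3 eng mog cd0q0 cd1q2b pd1 false true false .pnp 0 1 2
    ndB0q0 ndB1q2b pcB1 cut_pm_012_b Ext.none :=
  certB1 (fam := false) (s1 := true) (s2 := false) (a := 0) (b := 1) (c := 2) (cn := .pnp) (n1 := ndB0q0) (n2 := ndB1q2b) (pc := pcB1) (cut := cut_pm_012_b) (xt := Ext.none) (P1 := 0) (W1 := 536870912) (P2 := 1239849684) (W2 := 370763052) (P3 := 966367641) (W3 := 24778659) (N0 := 3) (En := eng) (mo := mog) (C1 := cd0q0) (C2 := cd1q2b) (C3 := pd1)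
    rfl (fun _ => rfl) k0_pm_012_b

noncomputable def cut_pm_022_a : Cut := Cut.of [[⟨0, 0, 0, 67108864⟩, ⟨1, 1, 0, 67108864⟩, ⟨2, 1, 0, 67108864⟩]]

noncomputable def f_pm_022_a : ℕ → ℕ → ℕ → ℕ → Bool := onCell 1073741824 536870912 0 536870912 966367641 24778659
    (rowB 3 eng mog cd0q0 cd1q2a pd2 2 false true false .pp 0 2 2 (qsf 0 536870912 0 536870912 2) ndB0q0 ndB1q2a pcB2 cut_pm_022_a Ext.none)

def k0_pm_022_a : ∃ t, chk3 f_pm_022_a t 4 2 1 = true :=
  ⟨(a (b (a (a (b (l 16263760) (l 16206232)) (b (l 16290568) (l 16242272))) (a (b (l 16322216) (l 16282920)) (c (l 16378856) (l 16267920)))) (a (b (a (l 16174240) (l 16220304)) (a (b (l 16168984) (l 16177536)) (c (l 16257256) (l 16202456)))) (a (b (l 16229312) (b (l 16282888) (l 16261432))) (b (l 16222856) (c (l 16392520) (l 16287816)))))) (b (a (a (b (l 16399408) (l 16337584)) (a (l 16302280) (l 16306880))) (a (b (l 16352040) (l 16320112)) (b (l 16233864) (b (l 16260096) (l 16259872))))) (a (b (a (c (l 16423928) (l 16352936)) (b (l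 16401576) (l 16397896))) (a (b (l 16333000) (l 16322528)) (b (l 16382000) (l 16351000)))) (a (b (b (l 16363048) (l 16317840)) (c (b (l 16363520) (l 16335760)) (b (l 16470656) (l 16396128)))) (c (b (l 16260440) (b (l 16273552) (a (l 16366824) (l 16268856)))) (b (l 16332144) (b (l 16338200) (l 198674804215)))))))), by decide +kernel⟩

def k1_pm_022_a : ∃ t, chk3 f_pm_022_a t 8 3 1 = true :=
  ⟨(b (a (b (a (b (l 16112360) (c (l 16251008) (l 16203296))) (b (l 16200240) (a (l 16281848) (l 16320256)))) (c (a (b (l 16295032) (a (l 16333256) (l 16375496))) (b (l 16355112) (a (l 16418656) (l 16462448)))) (b (a (l 16249616) (l 16308824)) (a (a (l 16292656) (l 16334752)) (a (l 16377944) (l 16421928)))))) (b (b (a (l 16188776) (c (l 16440352) (l 16383192))) (a (b (l 16283312) (l 16266784)) (c (l 16466136) (l 16372128)))) (a (b (c (a (l 16439136) (l 16460752)) (l 16287840)) (c (a (l 16464688) (l 16529904)) (c (l 16394080) (l 16373456)))) (b (a (c (l 16524456) (l 16457224)) (l 16418592)) (a (b (l 16492432)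 (l 16532768)) (a (l 16520312) (l 16481368))))))) (b (b (b (a (a (c (l 16345800) (l 16309536)) (c (l 16414240) (l 16357592))) (a (a (c (l 16565952) (l 16531104)) (l 16510368)) (a (l 16514960) (a (l 16529856) (l 16511632))))) (b (a (a (a (l 16400544) (l 16445536)) (a (l 16491120) (l 16495112))) (a (a (l 16520160) (l 16565952)) (a (l 16530016) (c (l 16522152) (l 16549640))))) (a (l 6) (a (l 6) (a (l 6) (a (l 6) (l 607770881959))))))) (a (l 6) (a (l 6) (a (l 6) (a (l 6) (l 1)))))) (a (l 6) (a (l 6) (l 1))))), by decide +kernel⟩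

def k2_pm_022_a : ∃ t, chk3 f_pm_022_a t 9 3 1 = true :=
  ⟨(b (a (b (c (a (b (l 16518592) (l 16480384)) (b (l 16397912) (a (l 16448440) (l 16412496)))) (a (b (l 16440040) (l 16474968)) (b (l 16474952) (l 16396528)))) (a (b (a (l 16447840) (b (l 16457440) (l 16450144))) (a (c (a (l 16507776) (l 16489784)) (l 16493816)) (c (b (l 16486656) (l 296385614967)) (b (l 16503592) (l 280279549239))))) (b (a (c (l 205117480039) (l 16459728)) (c (b (l 16446392) (l 491269627127)) (l 428455781527))) (a (b (c (l 479458530887) (l 456373148855)) (l 1)) (l 1))))) (b (b (a (c (b (l 16350368) (l 16303528)) (l 16339248)) (c (a (l 440803557655) (l 511670450423)) (a (l 16346536) (l 483753253607)))) (a (c (a (l 228739672823) (b (l 16364240) (l 526166109271))) (a (l 16403224) (l 452077983607))) (l 1))) (a (b (a (b (c (l 507375689479) (l 16388768)) (l 1)) (l 1)) (l 1)) (l 1)))) (a (b (b (a (a (b (c (a (l 16541392) (l 506302223207)) (l 280816478855)) (c (l 639446247511) (l 628172027591))) (b (c (l 600254672727)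 (l 587369826359)) (l 1))) (l 1)) (l 1)) (l 1)) (l 1))), by decide +kernel⟩

def k3_pm_022_a : ∃ t, chk3 f_pm_022_a t 5 1 1 = true :=
  ⟨(b (a (b (b (a (c (a (l 16279912) (l 170757165511)) (a (l 16346832) (l 16270232))) (l 1)) (a (a (c (l 16220584) (l 16301632)) (c (a (l 16257152) (l 379599973863)) (l 182031610743))) (l 1))) (a (a (b (c (b (l 16259328) (l 197600838615)) (b (l 16313048) (l 16281664))) (b (c (a (l 16305808) (l 475699991319)) (l 219075786391)) (a (c (l 488584947463) (l 16291256)) (l 1)))) (a (b (c (b (l 16252480) (l 473015583239)) (l 419328594647)) (l 1)) (l 1))) (l 1))) (l 1)) (b (l 1) (l 1))), by decide +kernel⟩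

def k4_pm_022_a : ∃ t, chk3 f_pm_022_a t 3 1 1 = true :=
  ⟨(l 1), by decide +kernel⟩

theorem s5_pm_022_a : ∃ t, chk3 f_pm_022_a t 4 3 1 = true := ex3_a k1_pm_022_a k2_pm_022_a

theorem s6_pm_022_a : ∃ t, chk3 f_pm_022_a t 4 1 1 = true := ex3_b k0_pm_022_a s5_pm_022_a

theorem s7_pm_022_a : ∃ t, chk3 f_pm_022_a t 2 1 1 = true := ex3_a s6_pm_022_a k3_pm_022_a

theorem s8_pm_022_a : ∃ t, chk3 f_pm_022_a t 1 1 1 = true := ex3_a s7_pm_022_a k4_pm_022_a

theorem c_pm_022_a : CertB 0 536870912 0 536870912 966367641 24778659 3 eng mog cd0q0 cd1q2a pd2 false true false .pp 0 2 2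
    ndB0q0 ndB1q2a pcB2 cut_pm_022_a Ext.none :=
  certB2 (fam := false) (s1 := true) (s2 := false) (a := 0) (b := 2) (c := 2) (cn := .pp) (n1 := ndB0q0) (n2 := ndB1q2a) (pc := pcB2) (cut := cut_pm_022_a) (xt := Ext.none) (P1 := 0) (W1 := 536870912) (P2 := 0) (W2 := 536870912) (P3 := 966367641) (W3 := 24778659) (N0 := 3) (En := eng) (mo := mog) (C1 := cd0q0) (C2 := cd1q2a) (C3 := pd2)
    rfl (fun _ => rfl) s8_pm_022_a

noncomputable def cut_pm_022_b : Cut := Cut.of [[⟨0, 0, 0, 67108864⟩, ⟨1, 1, 0, 67108864⟩, ⟨2, 1, 0, 67108864⟩]]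

noncomputable def f_pm_022_b : ℕ → ℕ → ℕ → ℕ → Bool := onCell 0 536870912 1073741824 536870912 966367641 24778659
    (rowB 3 eng mog cd0q0 cd1q2b pd2 1 false true false .pp 0 2 2 (qsf 0 536870912 1239849684 370763052 2) ndB0q0 ndB1q2b pcB2 cut_pm_022_b Ext.none)

def k0_pm_022_b : ∃ t, chk3 f_pm_022_b t 2 2 1 = true :=
  ⟨(a (b (a (b (l 1) (b (a (l 1) (b (l 1) (l 370473408775))) (a (c (a (l 1) (l 364030861303)) (l 362957195079)) (b (l 394095678055) (l 251287959351))))) (b (a (b (l 1) (b (l 1) (l 16308592))) (b (b (l 1) (l 218002283879)) (c (l 16367008) (l 280278804039)))) (a (b (b (l 16252112) (l 16220184)) (a (l 16181168) (l 16207792))) (c (b (l 16317680) (l 16258264)) (b (l 16145776) (l 16150896)))))) (b (a (b (a (b (a (l 359735752535) (l 240013597943)) (a (b (l 382821191719) (l 16136360)) (l 16155264))) (b (l 16166544) (l 16166104))) (b (a (a (b (l 16145984) (l 16134048)) (l 16132368)) (l 16184936)) (a (b (l 16054408) (l 16041352)) (l 16201744)))) (b (a (c (l 16340080) (l 16225128))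 (c (l 16207144) (l 16084744))) (a (l 16014184) (l 16075552)))) (a (b (a (b (b (l 16048752) (l 16013720)) (l 15949808)) (c (l 16231056) (l 16241632))) (a (b (l 15939928) (l 15907464)) (l 15974128))) (c (a (l 16195656) (l 16107160)) (a (l 16080384) (l 15858160)))))) (b (a (a (b (b (b (l 284037023047) (l 16174616)) (c (l 16246976) (l 16179792))) (b (l 15929872) (l 15952800))) (b (b (b (l 16194304) (l 16149232)) (c (l 16124560) (l 16052624))) (b (l 15916984) (l 15967688)))) (b (b (a (c (l 16083080) (l 16034360)) (b (l 15984416) (l 15945088))) (a (c (l 16021840) (l 15943040)) (l 15893192))) (b (a (l 15921480) (l 15836296)) (a (l 15872864) (l 15792088))))) (b (a (b (a (l 15944152) (l 15923832)) (a (l 15922520) (l 15888008))) (b (a (l 15834488) (l 15758096)) (a (l 15804200) (l 15732272)))) (a (c (l 15967808) (l 15604400)) (b (l 15601024) (l 15631704)))))), by decide +kernel⟩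

def k1_pm_022_b : ∃ t, chk3 f_pm_022_b t 3 2 1 = true :=
  ⟨(b (a (b (a (b (a (l 15881680) (l 15809280)) (a (l 15814968) (l 15746520))) (a (b (l 15745840) (l 15686808)) (b (l 15693600) (l 15637808)))) (a (b (a (l 15762064) (l 15697184)) (a (l 15721624) (l 15660080))) (b (a (l 15640768) (l 15594568)) (l 15563680)))) (a (b (b (a (l 15675000) (c (l 15675848) (l 15575520))) (a (l 15600824) (l 15575480))) (b (a (l 15559688) (l 15535800)) (l 15413160))) (b (a (b (b (l 15625680) (l 15597984)) (l 15561680)) (b (b (l 15601672) (l 15580312)) (l 15467192))) (b (a (l 15522816) (l 2)) (l 2))))) (a (b (a (b (l 15619784) (l 15641416)) (c (l 15644504) (l 15460112))) (a (c (l 15717960) (l 15533104)) (c (l 15641696) (l 15441272)))) (b (a (b (l 15499096) (l 2)) (l 2)) (l 2)))), by decide +kernel⟩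

def k2_pm_022_b : ∃ t, chk3 f_pm_022_b t 1 3 1 = true :=
  ⟨(a (b (b (a (a (a (b (c (l 15947232) (l 16145296)) (c (l 15941456) (l 16069432))) (b (l 15992056) (l 16048032))) (b (a (l 16092808) (l 15993424)) (a (l 16061016) (l 15971216)))) (a (c (l 15933928) (l 15657288)) (c (l 15771600) (l 15646784)))) (c (a (a (b (l 15783800) (l 15857944)) (l 16036880)) (a (l 15912792) (l 15817256))) (a (a (b (l 16025696) (l 15938216)) (l 15759800)) (a (l 15785224) (l 15672008))))) (a (b (a (b (a (l 15768568) (l 15857096)) (a (l 15677128) (l 15772784))) (b (l 15966184) (l 15897488))) (a (b (a (l 15584280) (l 15687048)) (l 1151283611367)) (b (l 15824528) (l 2)))) (b (a (l 15718024) (l 2)) (l 2)))) (b (a (b (a (b (l 15630352) (l 2)) (l 2)) (l 2)) (l 2)) (l 2))), by decide +kernel⟩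

theorem s3_pm_022_b : ∃ t, chk3 f_pm_022_b t 1 2 1 = true := ex3_a k0_pm_022_b k1_pm_022_b

theorem s4_pm_022_b : ∃ t, chk3 f_pm_022_b t 1 1 1 = true := ex3_b s3_pm_022_b k2_pm_022_b

theorem c_pm_022_b : CertB 0 536870912 1239849684 370763052 966367641 24778659 3 eng mog cd0q0 cd1q2b pd2 false true false .pp 0 2 2
    ndB0q0 ndB1q2b pcB2 cut_pm_022_b Ext.none :=
  certB1 (fam := false) (s1 := true) (s2 := false) (a := 0) (b := 2) (c := 2) (cn := .pp) (n1 := ndB0q0) (n2 := ndB1q2b) (pc := pcB2) (cut := cut_pm_022_b) (xt := Ext.none) (P1 := 0) (W1 := 536870912) (P2 := 1239849684) (W2 := 370763052) (P3 := 966367641) (W3 := 24778659) (N0 := 3) (En := eng) (mo := mog) (C1 := cd0q0) (C2 := cd1q2b) (C3 := pd2)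
    rfl (fun _ => rfl) s4_pm_022_b

noncomputable def f_pm_023 : ℕ → ℕ → ℕ → ℕ → Bool := onCell 0 536870912 1073741824 536870912 966367641 24778659
    (rowB 3 eng mog cd0q0 cd1q3 pd2 1 false true false .up 0 2 3 (qsf 0 536870912 1610612736 536870912 2) ndB0q0 ndB1q3 pcB2 Cut.none Ext.none)

def k0_pm_023 : ∃ t, chk3 f_pm_023 t 1 1 1 = true :=
  ⟨(b (a (a (l 1) (b (l 1) (b (l 1) (a (l 1) (c (l 16074832) (l 15725344)))))) (b (a (b (l 1) (a (l 1) (c (l 296921001063) (l 305510432535)))) (a (a (b (l 1) (c (l 15870944) (l 15642040))) (b (c (l 333965320455) (l 316784758999)) (c (l 15842320) (l 15575912)))) (b (c (a (b (l 15839728) (l 15865552)) (b (l 15767824) (l 15800808))) (a (b (l 15733680) (l 15673176)) (b (l 15653504) (l 15662952)))) (c (a (l 15818784) (l 15799584)) (b (l 15389648) (l 15578432)))))) (a (b (a (c (l 15963936) (l 371008774743)) (c (l 15892904) (l 15457416))) (a (c (l 15967072) (l 15721160)) (c (l 15870592) (l 15564184)))) (b (a (c (l 15816624) (l 15407504)) (c (l 15762240)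 (b (l 15544432) (l 15519120)))) (a (c (l 15790264) (l 15552216)) (c (l 15731848) (l 15498624))))))) (a (b (a (b (l 1) (a (l 1) (c (l 458518889431) (l 427917528615)))) (b (a (c (l 15802800) (l 15830616)) (c (l 15995216) (l 15834488))) (a (c (l 15880064) (l 15967552)) (c (l 15912040) (l 15855032))))) (a (b (a (a (l 1) (b (l 1) (l 15457496))) (c (b (l 15677416) (l 15639368)) (l 312489941991))) (a (b (c (l 15258536) (l 15367648)) (a (l 4) (l 15409888))) (b (c (l 15585608) (l 15666704)) (a (l 15519112) (l 15615232))))) (b (a (c (l 15788664) (l 15879384)) (c (l 15850808) (l 15889488))) (a (b (l 15764208) (l 15729232)) (l 15765840))))) (b (a (b (a (c (l 15950080) (l 15727384)) (c (l 15854520) (l 15634328))) (a (c (l 15907016) (l 15752616)) (l 15757832))) (b (a (l 15566624) (l 15613808)) (a (l 15685328) (l 15631848)))) (a (b (a (l 15859320) (l 15781456)) (a (l 15853112) (l 15819024))) (b (a (l 15718888) (l 15673904)) (a (l 15772712) (a (l 15747560) (l 15752800)))))))), by decide +kernel⟩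

theorem c_pm_023 : CertB 0 536870912 1610612736 536870912 966367641 24778659 3 eng mog cd0q0 cd1q3 pd2 false true false .up 0 2 3
    ndB0q0 ndB1q3 pcB2 Cut.none Ext.none :=
  certB1 (fam := false) (s1 := true) (s2 := false) (a := 0) (b := 2) (c := 3) (cn := .up) (n1 := ndB0q0) (n2 := ndB1q3) (pc := pcB2) (cut := Cut.none) (xt := Ext.none) (P1 := 0) (W1 := 536870912) (P2 := 1610612736) (W2 := 536870912) (P3 := 966367641) (W3 := 24778659) (N0 := 3) (En := eng) (mo := mog) (C1 := cd0q0) (C2 := cd1q3) (C3 := pd2)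
    rfl (fun _ => rfl) k0_pm_023

noncomputable def f_pm_033 : ℕ → ℕ → ℕ → ℕ → Bool := onCell 1610612736 536870912 1610612736 536870912 966367641 24778659
    (rowB 3 eng mog cd0q0 cd1q3 pd3 2 false true false .pnn 0 3 3 (qsf 0 536870912 1610612736 536870912 3) ndB0q0 ndB1q3 pcB3 Cut.none Ext.none)

def k0_pm_033 : ∃ t, chk3 f_pm_033 t 1 1 1 = true :=
  ⟨(a (b (a (a (b (l 4) (b (a (b (l 15626160) (l 15704432)) (l 4)) (a (l 15800144) (l 15728920)))) (l 4)) (l 4)) (a (b (a (b (a (l 15891560) (l 15857048)) (a (l 15959112) (l 15945232))) (b (a (l 15805816) (l 4)) (a (l 15924648) (l 15892464)))) (a (b (a (l 15990528) (l 15996144)) (a (l 16062088) (l 16101712))) (b (a (l 16005584) (l 16006928)) (a (l 16106728) (l 16113016))))) (b (l 4) (a (b (a (l 15988152) (l 4)) (a (l 16056640) (l 15876448))) (l 4))))) (l 4)), by decide +kernel⟩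

theorem c_pm_033 : CertB 0 536870912 1610612736 536870912 966367641 24778659 3 eng mog cd0q0 cd1q3 pd3 false true false .pnn 0 3 3
    ndB0q0 ndB1q3 pcB3 Cut.none Ext.none :=
  certB2 (fam := false) (s1 := true) (s2 := false) (a := 0) (b := 3) (c := 3) (cn := .pnn) (n1 := ndB0q0) (n2 := ndB1q3) (pc := pcB3) (cut := Cut.none) (xt := Ext.none) (P1 := 0) (W1 := 536870912) (P2 := 1610612736) (W2 := 536870912) (P3 := 966367641) (W3 := 24778659) (N0 := 3) (En := eng) (mo := mog) (C1 := cd0q0) (C2 := cd1q3) (C3 := pd3)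
    rfl (fun _ => rfl) k0_pm_033

noncomputable def f_pm_101 : ℕ → ℕ → ℕ → ℕ → Bool := onCell 0 536870912 536870912 536870912 966367641 24778659
    (rowB 3 eng mog cd0q1 cd1q1 pd0 2 false true false .npn 1 0 1 (qsf 536870912 536870912 536870912 536870912 0) ndB0q1 ndB1q1 pcB0 Cut.none Ext.none)

def k0_pm_101 : ∃ t, chk3 f_pm_101 t 1 1 1 = true :=
  ⟨(b (l 4) (a (a (b (b (l 4) (a (a (b (l 15494360) (a (l 15417896) (l 15417552))) (b (l 4) (l 15434152))) (l 4))) (a (b (a (b (a (l 15435912) (l 15414168)) (a (l 15483096) (l 15452528))) (b (l 15383128) (l 15404936))) (b (a (a (b (l 15531800) (l 15569600)) (l 15495472)) (l 15451960)) (a (b (a (l 15618200) (l 15569760)) (a (l 15663384) (l 15609184))) (b (l 15501968) (l 15533064))))) (b (a (b (l 15442240) (l 15390560)) (b (l 15530448) (l 15471144))) (b (a (l 15365464) (l 15458288)) (a (l 15430912) (l 15490552)))))) (b (l 4) (a (b (a (b (l 4) (l 15543352)) (l 4)) (a (b (l 15504392) (l 15511208)) (b (l 15559840) (l 15538888)))) (b (l 4) (a (b (l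 15629688) (l 15579336)) (b (l 4) (l 15637120))))))) (a (b (l 4) (a (b (l 4) (a (l 17949158023) (l 4))) (l 4))) (l 4)))), by decide +kernel⟩

theorem c_pm_101 : CertB 536870912 536870912 536870912 536870912 966367641 24778659 3 eng mog cd0q1 cd1q1 pd0 false true false .npn 1 0 1
    ndB0q1 ndB1q1 pcB0 Cut.none Ext.none :=
  certB2 (fam := false) (s1 := true) (s2 := false) (a := 1) (b := 0) (c := 1) (cn := .npn) (n1 := ndB0q1) (n2 := ndB1q1) (pc := pcB0) (cut := Cut.none) (xt := Ext.none) (P1 := 536870912) (W1 := 536870912) (P2 := 536870912) (W2 := 536870912) (P3 := 966367641) (W3 := 24778659) (N0 := 3) (En := eng) (mo := mog) (C1 := cd0q1) (C2 := cd1q1) (C3 := pd0)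
    rfl (fun _ => rfl) k0_pm_101

end Pool.Agent.Strip051.G.I9000_9231.Tab.C.BB01

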