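import Pool.Agent.Strip051.G.I9000_9231.Tab

/-! # Certificates B17 (generated) -/

set_option linter.all false
set_option maxRecDepth 100000

namespace Pool.Agent.Strip051.G.I9000_9231.Tab.C.BB14

open Pool.Agent.Strip051.PB Pool.Agent.Strip051.PB.T
open Pool.Agent.Strip051.G.I9000_9231.Tab

noncomputable def cut_pm_213_a : Cut := Cut.of [[⟨0, 1, 0, 47710208⟩, ⟨1, 1, 0, 47710208⟩, ⟨2, 2, 0, 8388608⟩]]

noncomputable def f_pm_213_a : ℕ → ℕ → ℕ → ℕ → Bool := onCell 0 536870912 0 1230186008 966367641 24778659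
    (rowB 3 eng mog cd1q2a cd4q3 pd1 0 false true false .pnn 2 1 3 (qsf 0 536870912 0 1230186008 1) ndB1q2a ndB4q3 pcB1 cut_pm_213_a Ext.none)

def k0_pm_213_a : ∃ t, chk3 f_pm_213_a t 1 2 1 = true :=
  ⟨(a (b (l 3) (b (a (l 3) (b (a (l 3) (b (l 329269510903) (l 271824166119))) (a (b (l 300815382471) (l 280951000199)) (b (l 250886218903) (l 16768624))))) (a (b (a (b (l 3) (l 328732677527)) (b (l 306184099655) (l 256254969959))) (a (b (l 301352153879) (l 256255020983)) (b (l 16769568) (l 16754648)))) (b (a (b (l 259476185239) (l 16772056)) (l 16720288)) (a (l 16728576) (l 16676592)))))) (b (a (b (l 3) (a (b (l 3) (a (l 361481690455) (b (l 363092389447) (l 273971664887)))) (b (a (b (l 3) (l 373292874359)) (b (a (l 3) (l 376514166695)) (a (l 316384491687) (l 249275646903)))) (a (b (l 279877241015) (l 16678576)) (b (l 16675968) (l 16750104)))))) (b (a (b (l 3) (a (b (l 3) (c (l 375440338215) (l 398525906375))) (b (a (l 3) (a (l 374366691367) (l 333564472343)))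 (a (b (l 326048264599) (l 232095829703)) (b (l 16700392) (l 16743320)))))) (b (l 6) (a (b (l 6) (a (l 16749464) (l 6))) (l 6)))) (a (a (b (b (a (l 287393547191) (l 231022062663)) (l 16676080)) (l 16670224)) (b (b (a (l 16698216) (l 16745472)) (l 16748776)) (b (l 16757784) (l 16770792)))) (a (b (b (l 16754648) (l 16758592)) (l 16769944)) (b (a (l 16760904) (l 16760120)) (l 16770112)))))) (a (b (b (a (b (a (l 274508555175) (l 16725400)) (a (l 16751136) (l 16762552))) (a (l 16634928) (l 16752480))) (a (b (l 16758456) (l 16733576)) (a (l 16711752) (l 16693656)))) (b (a (l 16686568) (l 16625960)) (a (l 16611024) (l 16534056)))) (b (a (b (a (l 16763656) (l 16794856)) (l 16705800)) (b (a (l 16795816) (l 16791368)) (a (l 16800264) (l 16827072)))) (a (b (l 16593960) (l 16465144)) (b (l 16790456) (l 16520056))))))), by decide +kernel⟩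

def k1_pm_213_a : ∃ t, chk3 f_pm_213_a t 1 3 1 = true :=
  ⟨(b (a (b (a (b (a (b (l 16758672) (l 16728144)) (l 16707224)) (l 16654648)) (b (a (l 16659992) (l 16599680)) (l 16544920))) (b (a (l 16571400) (a (l 16482776) (l 16411296))) (a (l 16387736) (l 16357424)))) (b (b (a (a (l 16523440) (l 16428176)) (a (l 16326888) (l 16277208))) (a (a (l 16422240) (l 16317176)) (l 16239928))) (a (b (a (l 16322992) (l 16201648)) (l 16160880)) (b (a (l 16045696) (l 15861832)) (a (l 15921448) (l 15698400)))))) (b (a (b (a (l 16381768) (l 16270688)) (a (l 16298232) (l 16192016))) (a (b (l 16068920) (l 15987168)) (b (a (l 15815424) (l 15569432)) (a (l 15724928) (b (l 15494952) (l 15455016)))))) (a (b (a (l 1) (l 16109912)) (l 1)) (a (b (b (l 15929880) (l 15889264)) (l 1)) (b (a (l 15655536) (b (l 15417760) (l 15379352))) (a (b (l 15587992) (l 1)) (b (l 15340080) (l 15282128)))))))), by decide +kernel⟩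

theorem s2_pm_213_a : ∃ t, chk3 f_pm_213_a t 1 1 1 = true := ex3_b k0_pm_213_a k1_pm_213_a

theorem c_pm_213_a : CertB 0 536870912 0 1230186008 966367641 24778659 3 eng mog cd1q2a cd4q3 pd1 false true false .pnn 2 1 3
    ndB1q2a ndB4q3 pcB1 cut_pm_213_a Ext.none :=
  certB0 (fam := false) (s1 := true) (s2 := false) (a := 2) (b := 1) (c := 3) (cn := .pnn) (n1 := ndB1q2a) (n2 := ndB4q3) (pc := pcB1) (cut := cut_pm_213_a) (xt := Ext.none) (P1 := 0) (W1 := 536870912) (P2 := 0) (W2 := 1230186008) (P3 := 966367641) (W3 := 24778659) (N0 := 3) (En := eng) (mo := mog) (C1 := cd1q2a) (C2 := cd4q3) (C3 := pd1)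
    rfl s2_pm_213_a

noncomputable def cut_pm_213_b : Cut := Cut.of [[⟨0, 1, 0, 47710208⟩, ⟨1, 1, 0, 47710208⟩, ⟨2, 2, 0, 8388608⟩]]

noncomputable def f_pm_213_b : ℕ → ℕ → ℕ → ℕ → Bool := onCell 1239849684 370763052 0 1230186008 966367641 24778659
    (rowB 3 eng mog cd1q2b cd4q3 pd1 0 false true false .pnn 2 1 3 (qsf 1239849684 370763052 0 1230186008 1) ndB1q2b ndB4q3 pcB1 cut_pm_213_b Ext.none)

def k0_pm_213_b : ∃ t, chk3 f_pm_213_b t 1 1 1 = true :=
  ⟨(b (a (b (l 3) (b (l 3) (a (b (l 3) (a (b (l 3) (a (b (l 260013162791) (l 16736464)) (l 240148771047))) (l 3))) (l 3)))) (l 3)) (b (a (b (a (b (a (b (a (l 16756984) (l 16716520)) (l 16768016)) (b (l 277193084183) (l 16687192))) (a (b (l 16750984) (l 16717664)) (b (l 16721400) (l 16760832)))) (b (a (l 282561603207) (l 3)) (a (b (l 16637336) (l 16676152)) (c (l 16532560) (l 16598808))))) (a (b (a (l 16660728) (l 16734576)) (a (l 16569768) (l 16649656))) (b (a (l 16746176) (l 16614440)) (a (l 16714864)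 (l 1))))) (b (a (b (l 3) (a (b (l 3) (l 16475624)) (l 1))) (l 1)) (l 1))) (a (b (a (b (b (l 16507280) (l 16452208)) (l 16417744)) (l 1)) (l 1)) (l 1)))), by decide +kernel⟩

theorem c_pm_213_b : CertB 1239849684 370763052 0 1230186008 966367641 24778659 3 eng mog cd1q2b cd4q3 pd1 false true false .pnn 2 1 3
    ndB1q2b ndB4q3 pcB1 cut_pm_213_b Ext.none :=
  certB0 (fam := false) (s1 := true) (s2 := false) (a := 2) (b := 1) (c := 3) (cn := .pnn) (n1 := ndB1q2b) (n2 := ndB4q3) (pc := pcB1) (cut := cut_pm_213_b) (xt := Ext.none) (P1 := 1239849684) (W1 := 370763052) (P2 := 0) (W2 := 1230186008) (P3 := 966367641) (W3 := 24778659) (N0 := 3) (En := eng) (mo := mog) (C1 := cd1q2b) (C2 := cd4q3) (C3 := pd1)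
    rfl k0_pm_213_b

noncomputable def f_pm_303 : ℕ → ℕ → ℕ → ℕ → Bool := onCell 0 536870912 0 1230186008 966367641 24778659
    (rowB 3 eng mog cd1q3 cd4q3 pd0 2 false true false .npn 3 0 3 (qsf 1610612736 536870912 0 1230186008 0) ndB1q3 ndB4q3 pcB0 Cut.none Ext.none)

def k0_pm_303 : ∃ t, chk3 f_pm_303 t 1 1 1 = true :=
  ⟨(b (l 3) (a (b (b (l 3) (b (l 3) (a (a (a (l 3) (l 184848045975)) (a (l 183774567815) (l 175185635703))) (a (a (l 178406931143) (b (l 15789824) (l 15805248))) (a (l 197197417367) (l 15977240)))))) (b (a (b (a (a (b (l 15149640) (l 15253288)) (a (l 15319552) (l 227798617367))) (a (l 15492632) (b (l 15600368) (l 15643520)))) (a (a (b (b (l 15326552) (l 15371792)) (l 15475760)) (a (b (l 15489648) (l 15599888)) (l 15634192))) (a (l 15700000) (l 15780360)))) (b (a (b (l 15794272) (l 15848072)) (a (l 16016216) (l 16134832))) (a (l 15977208) (l 1)))) (a (b (a (a (l 15682400) (a (l 15803328) (l 15886304))) (a (l 15942680) (l 15999784))) (a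 (a (l 15989336) (l 15876112)) (a (l 16113544) (l 1)))) (b (a (l 16014112) (l 1)) (l 1))))) (b (a (b (l 3) (a (b (a (l 3) (l 186460439783)) (a (l 16067424) (l 16161840))) (b (a (l 174649009511) (l 1)) (l 1)))) (b (b (l 3) (l 1)) (l 1))) (l 1)))), by decide +kernel⟩

theorem c_pm_303 : CertB 1610612736 536870912 0 1230186008 966367641 24778659 3 eng mog cd1q3 cd4q3 pd0 false true false .npn 3 0 3
    ndB1q3 ndB4q3 pcB0 Cut.none Ext.none :=
  certB2 (fam := false) (s1 := true) (s2 := false) (a := 3) (b := 0) (c := 3) (cn := .npn) (n1 := ndB1q3) (n2 := ndB4q3) (pc := pcB0) (cut := Cut.none) (xt := Ext.none) (P1 := 1610612736) (W1 := 536870912) (P2 := 0) (W2 := 1230186008) (P3 := 966367641) (W3 := 24778659) (N0 := 3) (En := eng) (mo := mog) (C1 := cd1q3) (C2 := cd4q3) (C3 := pd0)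
    rfl (fun _ => rfl) k0_pm_303

noncomputable def f_pm_313 : ℕ → ℕ → ℕ → ℕ → Bool := onCell 1610612736 536870912 0 1230186008 966367641 24778659
    (rowB 3 eng mog cd1q3 cd4q3 pd1 0 false true false .dn 3 1 3 (qsf 1610612736 536870912 0 1230186008 1) ndB1q3 ndB4q3 pcB1 Cut.none Ext.none)

def k0_pm_313 : ∃ t, chk3 f_pm_313 t 1 1 1 = true :=
  ⟨(b (l 3) (l 1)), by decide +kernel⟩

theorem c_pm_313 : CertB 1610612736 536870912 0 1230186008 966367641 24778659 3 eng mog cd1q3 cd4q3 pd1 false true false .dn 3 1 3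
    ndB1q3 ndB4q3 pcB1 Cut.none Ext.none :=
  certB0 (fam := false) (s1 := true) (s2 := false) (a := 3) (b := 1) (c := 3) (cn := .dn) (n1 := ndB1q3) (n2 := ndB4q3) (pc := pcB1) (cut := Cut.none) (xt := Ext.none) (P1 := 1610612736) (W1 := 536870912) (P2 := 0) (W2 := 1230186008) (P3 := 966367641) (W3 := 24778659) (N0 := 3) (En := eng) (mo := mog) (C1 := cd1q3) (C2 := cd4q3) (C3 := pd1)
    rfl k0_pm_313

noncomputable def f_mm_001 : ℕ → ℕ → ℕ → ℕ → Bool := onCell 0 536870912 0 536870912 966367641 24778659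
    (rowB 3 eng mog cd1q0 cd4q1 pd0 1 false false false .up 0 0 1 (qsf 0 536870912 536870912 536870912 0) ndB1q0 ndB4q1 pcB0 Cut.none Ext.none)

def k0_mm_001 : ∃ t, chk3 f_mm_001 t 1 1 1 = true :=
  ⟨(l 3), by decide +kernel⟩

theorem c_mm_001 : CertB 0 536870912 536870912 536870912 966367641 24778659 3 eng mog cd1q0 cd4q1 pd0 false false false .up 0 0 1
    ndB1q0 ndB4q1 pcB0 Cut.none Ext.none :=
  certB1 (fam := false) (s1 := false) (s2 := false) (a := 0) (b := 0) (c := 1) (cn := .up) (n1 := ndB1q0) (n2 := ndB4q1) (pc := pcB0) (cut := Cut.none) (xt := Ext.none) (P1 := 0) (W1 := 536870912) (P2 := 536870912) (W2 := 536870912) (P3 := 966367641) (W3 := 24778659) (N0 := 3) (En := eng) (mo := mog) (C1 := cd1q0) (C2 := cd4q1) (C3 := pd0)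
    rfl (fun _ => rfl) k0_mm_001

noncomputable def f_mm_011 : ℕ → ℕ → ℕ → ℕ → Bool := onCell 0 536870912 536870912 536870912 966367641 24778659
    (rowB 3 eng mog cd1q0 cd4q1 pd1 1 false false false .pnn 0 1 1 (qsf 0 536870912 536870912 536870912 1) ndB1q0 ndB4q1 pcB1 Cut.none Ext.none)

def k0_mm_011 : ∃ t, chk3 f_mm_011 t 1 1 1 = true :=
  ⟨(l 5), by decide +kernel⟩

theorem c_mm_011 : CertB 0 536870912 536870912 536870912 966367641 24778659 3 eng mog cd1q0 cd4q1 pd1 false false false .pnn 0 1 1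
    ndB1q0 ndB4q1 pcB1 Cut.none Ext.none :=
  certB1 (fam := false) (s1 := false) (s2 := false) (a := 0) (b := 1) (c := 1) (cn := .pnn) (n1 := ndB1q0) (n2 := ndB4q1) (pc := pcB1) (cut := Cut.none) (xt := Ext.none) (P1 := 0) (W1 := 536870912) (P2 := 536870912) (W2 := 536870912) (P3 := 966367641) (W3 := 24778659) (N0 := 3) (En := eng) (mo := mog) (C1 := cd1q0) (C2 := cd4q1) (C3 := pd1)
    rfl (fun _ => rfl) k0_mm_011

noncomputable def f_mm_012 : ℕ → ℕ → ℕ → ℕ → Bool := onCell 0 536870912 1073741824 536870912 966367641 24778659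
    (rowB 3 eng mog cd1q0 cd4q2 pd1 0 false false false .pnp 0 1 2 (qsf 0 536870912 1073741824 536870912 1) ndB1q0 ndB4q2 pcB1 Cut.none Ext.none)

def k0_mm_012 : ∃ t, chk3 f_mm_012 t 1 1 1 = true :=
  ⟨(l 5), by decide +kernel⟩

theorem c_mm_012 : CertB 0 536870912 1073741824 536870912 966367641 24778659 3 eng mog cd1q0 cd4q2 pd1 false false false .pnp 0 1 2
    ndB1q0 ndB4q2 pcB1 Cut.none Ext.none :=
  certB0 (fam := false) (s1 := false) (s2 := false) (a := 0) (b := 1) (c := 2) (cn := .pnp) (n1 := ndB1q0) (n2 := ndB4q2) (pc := pcB1) (cut := Cut.none) (xt := Ext.none) (P1 := 0) (W1 := 536870912) (P2 := 1073741824) (W2 := 536870912) (P3 := 966367641) (W3 := 24778659) (N0 := 3) (En := eng) (mo := mog) (C1 := cd1q0) (C2 := cd4q2) (C3 := pd1)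
    rfl k0_mm_012

noncomputable def f_mm_022 : ℕ → ℕ → ℕ → ℕ → Bool := onCell 0 536870912 1073741824 536870912 966367641 24778659
    (rowB 3 eng mog cd1q0 cd4q2 pd2 0 false false false .pp 0 2 2 (qsf 0 536870912 1073741824 536870912 2) ndB1q0 ndB4q2 pcB2 Cut.none Ext.none)

def k0_mm_022 : ∃ t, chk3 f_mm_022 t 1 1 1 = true :=
  ⟨(l 5), by decide +kernel⟩

theorem c_mm_022 : CertB 0 536870912 1073741824 536870912 966367641 24778659 3 eng mog cd1q0 cd4q2 pd2 false false false .pp 0 2 2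
    ndB1q0 ndB4q2 pcB2 Cut.none Ext.none :=
  certB0 (fam := false) (s1 := false) (s2 := false) (a := 0) (b := 2) (c := 2) (cn := .pp) (n1 := ndB1q0) (n2 := ndB4q2) (pc := pcB2) (cut := Cut.none) (xt := Ext.none) (P1 := 0) (W1 := 536870912) (P2 := 1073741824) (W2 := 536870912) (P3 := 966367641) (W3 := 24778659) (N0 := 3) (En := eng) (mo := mog) (C1 := cd1q0) (C2 := cd4q2) (C3 := pd2)
    rfl k0_mm_022

noncomputable def f_mm_023 : ℕ → ℕ → ℕ → ℕ → Bool := onCell 0 536870912 0 1230186008 966367641 24778659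
    (rowB 3 eng mog cd1q0 cd4q3 pd2 0 false false false .up 0 2 3 (qsf 0 536870912 0 1230186008 2) ndB1q0 ndB4q3 pcB2 Cut.none Ext.none)

def k0_mm_023 : ∃ t, chk3 f_mm_023 t 1 1 1 = true :=
  ⟨(l 5), by decide +kernel⟩

theorem c_mm_023 : CertB 0 536870912 0 1230186008 966367641 24778659 3 eng mog cd1q0 cd4q3 pd2 false false false .up 0 2 3
    ndB1q0 ndB4q3 pcB2 Cut.none Ext.none :=
  certB0 (fam := false) (s1 := false) (s2 := false) (a := 0) (b := 2) (c := 3) (cn := .up) (n1 := ndB1q0) (n2 := ndB4q3) (pc := pcB2) (cut := Cut.none) (xt := Ext.none) (P1 := 0) (W1 := 536870912) (P2 := 0) (W2 := 1230186008) (P3 := 966367641) (W3 := 24778659) (N0 := 3) (En := eng) (mo := mog) (C1 := cd1q0) (C2 := cd4q3) (C3 := pd2)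
    rfl k0_mm_023

noncomputable def f_mm_033 : ℕ → ℕ → ℕ → ℕ → Bool := onCell 0 536870912 0 1230186008 966367641 24778659
    (rowB 3 eng mog cd1q0 cd4q3 pd3 0 false false false .pnn 0 3 3 (qsf 0 536870912 0 1230186008 3) ndB1q0 ndB4q3 pcB3 Cut.none Ext.none)

def k0_mm_033 : ∃ t, chk3 f_mm_033 t 1 1 1 = true :=
  ⟨(l 5), by decide +kernel⟩

theorem c_mm_033 : CertB 0 536870912 0 1230186008 966367641 24778659 3 eng mog cd1q0 cd4q3 pd3 false false false .pnn 0 3 3
    ndB1q0 ndB4q3 pcB3 Cut.none Ext.none :=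
  certB0 (fam := false) (s1 := false) (s2 := false) (a := 0) (b := 3) (c := 3) (cn := .pnn) (n1 := ndB1q0) (n2 := ndB4q3) (pc := pcB3) (cut := Cut.none) (xt := Ext.none) (P1 := 0) (W1 := 536870912) (P2 := 0) (W2 := 1230186008) (P3 := 966367641) (W3 := 24778659) (N0 := 3) (En := eng) (mo := mog) (C1 := cd1q0) (C2 := cd4q3) (C3 := pd3)
    rfl k0_mm_033

noncomputable def f_mm_101 : ℕ → ℕ → ℕ → ℕ → Bool := onCell 536870912 536870912 536870912 536870912 966367641 24778659
    (rowB 3 eng mog cd1q1 cd4q1 pd0 0 false false false .npn 1 0 1 (qsf 536870912 536870912 536870912 536870912 0) ndB1q1 ndB4q1 pcB0 Cut.none Ext.none)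

def k0_mm_101 : ∃ t, chk3 f_mm_101 t 1 1 1 = true :=
  ⟨(l 3), by decide +kernel⟩

theorem c_mm_101 : CertB 536870912 536870912 536870912 536870912 966367641 24778659 3 eng mog cd1q1 cd4q1 pd0 false false false .npn 1 0 1
    ndB1q1 ndB4q1 pcB0 Cut.none Ext.none :=
  certB0 (fam := false) (s1 := false) (s2 := false) (a := 1) (b := 0) (c := 1) (cn := .npn) (n1 := ndB1q1) (n2 := ndB4q1) (pc := pcB0) (cut := Cut.none) (xt := Ext.none) (P1 := 536870912) (W1 := 536870912) (P2 := 536870912) (W2 := 536870912) (P3 := 966367641) (W3 := 24778659) (N0 := 3) (En := eng) (mo := mog) (C1 := cd1q1) (C2 := cd4q1) (C3 := pd0)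
    rfl k0_mm_101

noncomputable def f_mm_102 : ℕ → ℕ → ℕ → ℕ → Bool := onCell 536870912 536870912 1073741824 536870912 966367641 24778659
    (rowB 3 eng mog cd1q1 cd4q2 pd0 0 false false false .npp 1 0 2 (qsf 536870912 536870912 1073741824 536870912 0) ndB1q1 ndB4q2 pcB0 Cut.none Ext.none)

def k0_mm_102 : ∃ t, chk3 f_mm_102 t 1 1 1 = true :=
  ⟨(l 3), by decide +kernel⟩

theorem c_mm_102 : CertB 536870912 536870912 1073741824 536870912 966367641 24778659 3 eng mog cd1q1 cd4q2 pd0 false false false .npp 1 0 2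
    ndB1q1 ndB4q2 pcB0 Cut.none Ext.none :=
  certB0 (fam := false) (s1 := false) (s2 := false) (a := 1) (b := 0) (c := 2) (cn := .npp) (n1 := ndB1q1) (n2 := ndB4q2) (pc := pcB0) (cut := Cut.none) (xt := Ext.none) (P1 := 536870912) (W1 := 536870912) (P2 := 1073741824) (W2 := 536870912) (P3 := 966367641) (W3 := 24778659) (N0 := 3) (En := eng) (mo := mog) (C1 := cd1q1) (C2 := cd4q2) (C3 := pd0)
    rfl k0_mm_102

noncomputable def f_mm_112 : ℕ → ℕ → ℕ → ℕ → Bool := onCell 536870912 536870912 1073741824 536870912 966367641 24778659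
    (rowB 3 eng mog cd1q1 cd4q2 pd1 0 false false false .dn 1 1 2 (qsf 536870912 536870912 1073741824 536870912 1) ndB1q1 ndB4q2 pcB1 Cut.none Ext.none)

def k0_mm_112 : ∃ t, chk3 f_mm_112 t 1 1 1 = true :=
  ⟨(l 3), by decide +kernel⟩

theorem c_mm_112 : CertB 536870912 536870912 1073741824 536870912 966367641 24778659 3 eng mog cd1q1 cd4q2 pd1 false false false .dn 1 1 2
    ndB1q1 ndB4q2 pcB1 Cut.none Ext.none :=
  certB0 (fam := false) (s1 := false) (s2 := false) (a := 1) (b := 1) (c := 2) (cn := .dn) (n1 := ndB1q1) (n2 := ndB4q2) (pc := pcB1) (cut := Cut.none) (xt := Ext.none) (P1 := 536870912) (W1 := 536870912) (P2 := 1073741824) (W2 := 536870912) (P3 := 966367641) (W3 := 24778659) (N0 := 3) (En := eng) (mo := mog) (C1 := cd1q1) (C2 := cd4q2) (C3 := pd1)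
    rfl k0_mm_112

noncomputable def f_mm_113 : ℕ → ℕ → ℕ → ℕ → Bool := onCell 536870912 536870912 0 1230186008 966367641 24778659
    (rowB 3 eng mog cd1q1 cd4q3 pd1 0 false false false .nn 1 1 3 (qsf 536870912 536870912 0 1230186008 1) ndB1q1 ndB4q3 pcB1 Cut.none Ext.none)

def k0_mm_113 : ∃ t, chk3 f_mm_113 t 1 1 1 = true :=
  ⟨(l 5), by decide +kernel⟩

theorem c_mm_113 : CertB 536870912 536870912 0 1230186008 966367641 24778659 3 eng mog cd1q1 cd4q3 pd1 false false false .nn 1 1 3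
    ndB1q1 ndB4q3 pcB1 Cut.none Ext.none :=
  certB0 (fam := false) (s1 := false) (s2 := false) (a := 1) (b := 1) (c := 3) (cn := .nn) (n1 := ndB1q1) (n2 := ndB4q3) (pc := pcB1) (cut := Cut.none) (xt := Ext.none) (P1 := 536870912) (W1 := 536870912) (P2 := 0) (W2 := 1230186008) (P3 := 966367641) (W3 := 24778659) (N0 := 3) (En := eng) (mo := mog) (C1 := cd1q1) (C2 := cd4q3) (C3 := pd1)
    rfl k0_mm_113

noncomputable def f_mm_123 : ℕ → ℕ → ℕ → ℕ → Bool := onCell 536870912 536870912 0 1230186008 966367641 24778659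
    (rowB 3 eng mog cd1q1 cd4q3 pd2 0 false false false .npn 1 2 3 (qsf 536870912 536870912 0 1230186008 2) ndB1q1 ndB4q3 pcB2 Cut.none Ext.none)

def k0_mm_123 : ∃ t, chk3 f_mm_123 t 1 1 1 = true :=
  ⟨(l 5), by decide +kernel⟩

theorem c_mm_123 : CertB 536870912 536870912 0 1230186008 966367641 24778659 3 eng mog cd1q1 cd4q3 pd2 false false false .npn 1 2 3
    ndB1q1 ndB4q3 pcB2 Cut.none Ext.none :=
  certB0 (fam := false) (s1 := false) (s2 := false) (a := 1) (b := 2) (c := 3) (cn := .npn) (n1 := ndB1q1) (n2 := ndB4q3) (pc := pcB2) (cut := Cut.none) (xt := Ext.none) (P1 := 536870912) (W1 := 536870912) (P2 := 0) (W2 := 1230186008) (P3 := 966367641) (W3 := 24778659) (N0 := 3) (En := eng) (mo := mog) (C1 := cd1q1) (C2 := cd4q3) (C3 := pd2)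
    rfl k0_mm_123

noncomputable def f_mm_133 : ℕ → ℕ → ℕ → ℕ → Bool := onCell 536870912 536870912 0 1230186008 966367641 24778659
    (rowB 3 eng mog cd1q1 cd4q3 pd3 0 false false false .dn 1 3 3 (qsf 536870912 536870912 0 1230186008 3) ndB1q1 ndB4q3 pcB3 Cut.none Ext.none)

def k0_mm_133 : ∃ t, chk3 f_mm_133 t 1 1 1 = true :=
  ⟨(l 5), by decide +kernel⟩

theorem c_mm_133 : CertB 536870912 536870912 0 1230186008 966367641 24778659 3 eng mog cd1q1 cd4q3 pd3 false false false .dn 1 3 3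
    ndB1q1 ndB4q3 pcB3 Cut.none Ext.none :=
  certB0 (fam := false) (s1 := false) (s2 := false) (a := 1) (b := 3) (c := 3) (cn := .dn) (n1 := ndB1q1) (n2 := ndB4q3) (pc := pcB3) (cut := Cut.none) (xt := Ext.none) (P1 := 536870912) (W1 := 536870912) (P2 := 0) (W2 := 1230186008) (P3 := 966367641) (W3 := 24778659) (N0 := 3) (En := eng) (mo := mog) (C1 := cd1q1) (C2 := cd4q3) (C3 := pd3)
    rfl k0_mm_133

noncomputable def cut_mm_202_a : Cut := Cut.of [[⟨0, 1, 0, 67108864⟩, ⟨1, 0, 0, 67108864⟩, ⟨2, 1, 0, 67108864⟩]]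

noncomputable def f_mm_202_a : ℕ → ℕ → ℕ → ℕ → Bool := onCell 0 536870912 0 536870912 966367641 24778659
    (rowB 3 eng mog cd1q2a cd4q2 pd0 1 false false false .pp 2 0 2 (qsf 0 536870912 1073741824 536870912 0) ndB1q2a ndB4q2 pcB0 cut_mm_202_a Ext.none)

def k0_mm_202_a : ∃ t, chk3 f_mm_202_a t 2 2 1 = true :=
  ⟨(b (a (b (b (a (l 16351544) (b (l 16401776) (l 16434080))) (b (a (l 16391472) (l 16451440)) (a (b (l 16405128) (l 16416824)) (l 16476744)))) (b (b (a (l 16455768) (l 16522000)) (l 16445968)) (a (b (l 16533624) (l 16557072)) (b (l 16549448) (a (l 16563176) (l 16556832)))))) (a (b (b (b (l 16468064) (b (l 16489048) (l 16495032))) (b (l 16516280) (l 16441512))) (b (b (l 16532936) (a (l 16527048) (l 16516424))) (b (a (l 16531912) (l 16535152)) (l 16456976)))) (b (b (b (a (l 16516456) (l 16534792)) (l 16538320)) (b (l 16534136) (b (l 16527880) (l 16519304)))) (b (b (b (l 16469448) (l 16409232)) (a (l 16520880) (l 16518856))) (b (c (l 16455016) (l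 16582416)) (a (l 16514360) (c (l 16552232) (l 16610968)))))))) (b (b (a (a (b (l 16572864) (l 16581288)) (b (l 16502512) (l 16608304))) (a (b (c (l 16566448) (l 16609640)) (a (l 16607040) (l 16526368))) (b (a (c (l 16581120) (l 16617296)) (c (l 258402177095) (l 253033540999))) (a (b (l 16570208) (l 256791602919)) (c (l 290614487639) (l 298130739303)))))) (b (a (a (l 16587832) (l 16629504)) (a (a (l 16625008) (c (l 16614072) (l 16638704))) (a (c (l 282024570599) (l 287930201895)) (l 3)))) (a (a (l 16599752) (l 16557960)) (a (a (l 16574856) (b (l 16573480) (l 271824068247))) (l 3))))) (a (a (b (b (l 16612520) (l 16628304)) (b (l 16625640) (c (l 16682784) (l 16650016)))) (c (b (b (l 16644992) (l 223505688519)) (b (l 249812449031) (l 231558988263))) (b (b (l 16636152) (l 191293469815)) (b (l 236927513127) (l 244443751735))))) (b (a (b (a (c (l 16641552) (l 16654784)) (l 271287209463)) (a (l 271287219735) (l 3))) (l 3)) (l 3))))), by decide +kernel⟩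

def k1_mm_202_a : ∃ t, chk3 f_mm_202_a t 2 3 1 = true :=
  ⟨(b (b (a (b (a (b (a (l 16675760) (l 232095686519)) (a (l 16630480) (l 298130897047))) (b (l 253570595783) (l 3))) (a (a (b (b (l 16668840) (l 237464465751)) (l 287393525783)) (l 3)) (l 3))) (l 3)) (l 3)) (l 3)), by decide +kernel⟩

def k2_mm_202_a : ∃ t, chk3 f_mm_202_a t 6 2 1 = true :=
  ⟨(b (a (a (b (b (b (l 16539944) (l 16537504)) (b (l 16525984) (b (l 16513824) (a (l 16508376) (l 16494872))))) (b (b (c (l 16512912) (l 16505760)) (c (l 16544136) (l 16583200))) (b (c (l 16507608) (l 16608368)) (c (l 253570328743) (l 245517339175))))) (b (b (b (l 16555712) (l 16545104)) (b (b (l 16531592) (l 16480432)) (b (l 16442304) (l 16516680)))) (c (b (b (l 16524112) (b (l 16565832) (l 16578832))) (b (b (l 16549392) (l 317994884823)) (l 272897823143))) (b (b (l 16536688) (a (l 16580248) (l 16572368))) (b (c (l 329269217063) (l 278266585511)) (l 258402372775)))))) (b (b (b (a (l 16534832) (b (l 16605560)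 (l 16598624))) (b (a (l 16564752) (l 16565216)) (a (l 16551600) (a (l 16564416) (b (l 16579080) (l 16574544)))))) (b (a (b (a (l 16537672) (l 16544728)) (a (l 16535120) (l 16552344))) (b (a (l 16519808) (l 16540992)) (a (l 16573720) (l 16555072)))) (a (b (l 16494464) (a (l 16563088) (l 16560456))) (b (a (l 16566632) (c (l 16598592) (l 16621056))) (a (l 16558928) (c (l 16610304) (l 16612736))))))) (b (a (b (b (a (l 16578128) (l 16553592)) (a (l 16571336) (l 16546240))) (c (b (l 336785355959) (l 326584835095)) (b (l 344301613591) (l 333564221895)))) (b (a (b (b (l 16589744) (l 16575352)) (b (l 16561200) (l 16568304))) (b (c (l 340006665607) (l 16604984)) (l 3))) (l 3))) (l 3)))) (b (a (b (a (b (c (l 300278156903) (l 272897859735)) (l 3)) (l 3)) (l 3)) (l 3)) (l 3))), by decide +kernel⟩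

def k3_mm_202_a : ∃ t, chk3 f_mm_202_a t 7 2 1 = true :=
  ⟨(b (b (b (a (b (b (a (l 16575040) (a (l 16664496) (l 6))) (a (l 16554816) (a (l 16611016) (b (l 6) (a (l 16641280) (l 6)))))) (a (a (b (b (l 16609600) (l 16601184)) (b (l 16574360) (l 16576664))) (b (b (l 16624624) (l 16576904)) (b (l 16599272) (l 16583936)))) (b (c (a (b (l 16637632) (l 16638712)) (b (l 16643360) (l 16646568))) (a (b (l 16628256) (l 16650576)) (b (l 16654024) (l 16659088)))) (b (a (a (l 16641632) (l 16635360)) (a (l 16629240) (c (l 16679104) (l 16672520)))) (c (a (l 16626048) (a (l 16668824) (l 254644343239))) (a (l 16641768) (a (l 16663976) (l 16678776)))))))) (b (l 6) (a (b (l 6) (a (a (b (c (l 257328724023) (l 16687528)) (c (l 408726328583) (l 404968262087))) (b (l 6) (l 3))) (l 3))) (l 3)))) (a (b (a (c (a (b (l 16600392) (l 16611480)) (b (l 16584968) (a (l 16630592) (l 16622944)))) (b (a (l 16617792) (l 16603136)) (a (l 16631888) (l 248738678823)))) (a (b (c (b (l 16631120)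 (l 254644271479)) (a (l 16644968) (l 16638048))) (c (a (l 234780056375) (l 382956459063)) (l 388862043223))) (b (a (c (l 238001320407) (l 235853873015)) (c (l 400136369575) (l 396915179079))) (l 3)))) (a (a (b (b (l 16588136) (l 238538065351)) (c (l 343764786647) (l 346986056087))) (b (b (l 385103865511) (l 371682106823)) (l 3))) (l 3))) (l 3))) (l 3)) (l 3)), by decide +kernel⟩

def k4_mm_202_a : ∃ t, chk3 f_mm_202_a t 3 3 1 = true :=
  ⟨(l 3), by decide +kernel⟩

theorem s5_mm_202_a : ∃ t, chk3 f_mm_202_a t 3 2 1 = true := ex3_a k2_mm_202_a k3_mm_202_a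

theorem s6_mm_202_a : ∃ t, chk3 f_mm_202_a t 3 1 1 = true := ex3_b s5_mm_202_a k4_mm_202_a

theorem s7_mm_202_a : ∃ t, chk3 f_mm_202_a t 2 1 1 = true := ex3_b k0_mm_202_a k1_mm_202_a

theorem s8_mm_202_a : ∃ t, chk3 f_mm_202_a t 1 1 1 = true := ex3_a s7_mm_202_a s6_mm_202_a

theorem c_mm_202_a : CertB 0 536870912 1073741824 536870912 966367641 24778659 3 eng mog cd1q2a cd4q2 pd0 false false false .pp 2 0 2
    ndB1q2a ndB4q2 pcB0 cut_mm_202_a Ext.none :=
  certB1 (fam := false) (s1 := false) (s2 := false) (a := 2) (b := 0) (c := 2) (cn := .pp) (n1 := ndB1q2a) (n2 := ndB4q2) (pc := pcB0) (cut := cut_mm_202_a) (xt := Ext.none) (P1 := 0) (W1 := 536870912) (P2 := 1073741824) (W2 := 536870912) (P3 := 966367641) (W3 := 24778659) (N0 := 3) (En := eng) (mo := mog) (C1 := cd1q2a) (C2 := cd4q2) (C3 := pd0)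
    rfl (fun _ => rfl) s8_mm_202_a

noncomputable def cut_mm_202_b : Cut := Cut.of [[⟨0, 1, 0, 67108864⟩, ⟨1, 0, 0, 67108864⟩, ⟨2, 1, 0, 67108864⟩]]

noncomputable def f_mm_202_b : ℕ → ℕ → ℕ → ℕ → Bool := onCell 1239849684 370763052 0 536870912 966367641 24778659
    (rowB 3 eng mog cd1q2b cd4q2 pd0 1 false false false .pp 2 0 2 (qsf 1239849684 370763052 1073741824 536870912 0) ndB1q2b ndB4q2 pcB0 cut_mm_202_b Ext.none)

def k0_mm_202_b : ∃ t, chk3 f_mm_202_b t 1 2 1 = true :=
  ⟨(a (b (a (b (b (a (l 16343352) (l 16373632)) (b (a (l 16379088) (l 16404144)) (a (b (l 16393864) (l 16405120)) (b (l 16411032) (l 16422456))))) (b (a (b (l 16438048) (l 16481040)) (b (l 16397504) (l 16380384))) (a (b (l 16510312) (l 16531744)) (b (l 16378432) (l 16390760))))) (b (b (a (b (l 16197176) (l 16203648)) (b (l 16011592) (l 16047248))) (b (a (l 16235712) (l 16058696)) (a (l 16239512) (l 15999528)))) (b (a (b (l 16223928) (l 16212360)) (b (l 15976888) (l 15948120))) (a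 (b (l 16240000) (a (l 16301504) (l 16246016))) (b (l 16134768) (l 16150432)))))) (b (a (b (a (a (l 16365848) (b (l 16513120) (l 16538400))) (b (l 16421456) (l 16446536))) (a (b (l 16478720) (l 16574896)) (b (l 16469976) (l 16486816)))) (b (a (b (l 16305416) (l 16331280)) (a (l 16157264) (l 16157624))) (a (a (l 16471864) (l 189145147591)) (l 289002929767)))) (a (a (b (b (l 16567240) (l 16541440)) (b (a (l 16623376) (l 16605408)) (a (l 16643216) (l 16603416)))) (b (b (l 16391712) (a (l 16534792) (l 16471072))) (a (b (l 16535832) (l 16539856)) (l 262697056439)))) (a (b (b (l 170355270583) (l 3)) (l 3)) (l 3))))) (b (a (b (b (a (b (l 15825744) (l 15884072)) (b (l 15723216) (l 15734024))) (b (a (l 15886880) (l 15777256)) (a (a (l 15932584) (l 15877480)) (l 15831240)))) (b (a (b (l 15961312) (l 16015760)) (b (l 15896096) (l 3))) (a (b (l 16050984) (l 16092848)) (l 3)))) (b (b (a (b (l 15602944) (l 15650296)) (l 3)) (a (l 239072763863) (l 3))) (l 3))) (b (a (l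 3) (l 2)) (l 2)))), by decide +kernel⟩

def k1_mm_202_b : ∃ t, chk3 f_mm_202_b t 1 3 1 = true :=
  ⟨(a (b (a (b (b (a (a (b (l 16664744) (b (l 16669008) (l 16666032))) (b (l 16518064) (l 258939125623))) (a (l 258939027863) (l 3))) (a (a (b (a (l 52780797927) (l 297057020455)) (b (l 295983303879) (l 3))) (l 3)) (l 3))) (l 3)) (l 3)) (l 2)) (l 2)), by decide +kernel⟩

theorem s2_mm_202_b : ∃ t, chk3 f_mm_202_b t 1 1 1 = true := ex3_b k0_mm_202_b k1_mm_202_b

theorem c_mm_202_b : CertB 1239849684 370763052 1073741824 536870912 966367641 24778659 3 eng mog cd1q2b cd4q2 pd0 false false false .pp 2 0 2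
    ndB1q2b ndB4q2 pcB0 cut_mm_202_b Ext.none :=
  certB1 (fam := false) (s1 := false) (s2 := false) (a := 2) (b := 0) (c := 2) (cn := .pp) (n1 := ndB1q2b) (n2 := ndB4q2) (pc := pcB0) (cut := cut_mm_202_b) (xt := Ext.none) (P1 := 1239849684) (W1 := 370763052) (P2 := 1073741824) (W2 := 536870912) (P3 := 966367641) (W3 := 24778659) (N0 := 3) (En := eng) (mo := mog) (C1 := cd1q2b) (C2 := cd4q2) (C3 := pd0)
    rfl (fun _ => rfl) s2_mm_202_b

noncomputable def f_mm_203_a : ℕ → ℕ → ℕ → ℕ → Bool := onCell 0 536870912 0 1230186008 966367641 24778659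
    (rowB 3 eng mog cd1q2a cd4q3 pd0 0 false false false .up 2 0 3 (qsf 0 536870912 0 1230186008 0) ndB1q2a ndB4q3 pcB0 Cut.none Ext.none)

def k0_mm_203_a : ∃ t, chk3 f_mm_203_a t 1 1 1 = true :=
  ⟨(b (l 2) (b (l 2) (a (l 3) (l 3)))), by decide +kernel⟩

theorem c_mm_203_a : CertB 0 536870912 0 1230186008 966367641 24778659 3 eng mog cd1q2a cd4q3 pd0 false false false .up 2 0 3
    ndB1q2a ndB4q3 pcB0 Cut.none Ext.none :=
  certB0 (fam := false) (s1 := false) (s2 := false) (a := 2) (b := 0) (c := 3) (cn := .up) (n1 := ndB1q2a) (n2 := ndB4q3) (pc := pcB0) (cut := Cut.none) (xt := Ext.none) (P1 := 0) (W1 := 536870912) (P2 := 0) (W2 := 1230186008) (P3 := 966367641) (W3 := 24778659) (N0 := 3) (En := eng) (mo := mog) (C1 := cd1q2a) (C2 := cd4q3) (C3 := pd0)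
    rfl k0_mm_203_a

noncomputable def f_mm_203_b : ℕ → ℕ → ℕ → ℕ → Bool := onCell 1239849684 370763052 0 1230186008 966367641 24778659
    (rowB 3 eng mog cd1q2b cd4q3 pd0 0 false false false .up 2 0 3 (qsf 1239849684 370763052 0 1230186008 0) ndB1q2b ndB4q3 pcB0 Cut.none Ext.none)

def k0_mm_203_b : ∃ t, chk3 f_mm_203_b t 1 1 1 = true :=
  ⟨(b (l 3) (b (l 3) (a (b (l 3) (l 3)) (l 3)))), by decide +kernel⟩

theorem c_mm_203_b : CertB 1239849684 370763052 0 1230186008 966367641 24778659 3 eng mog cd1q2b cd4q3 pd0 false false false .up 2 0 3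
    ndB1q2b ndB4q3 pcB0 Cut.none Ext.none :=
  certB0 (fam := false) (s1 := false) (s2 := false) (a := 2) (b := 0) (c := 3) (cn := .up) (n1 := ndB1q2b) (n2 := ndB4q3) (pc := pcB0) (cut := Cut.none) (xt := Ext.none) (P1 := 1239849684) (W1 := 370763052) (P2 := 0) (W2 := 1230186008) (P3 := 966367641) (W3 := 24778659) (N0 := 3) (En := eng) (mo := mog) (C1 := cd1q2b) (C2 := cd4q3) (C3 := pd0)
    rfl k0_mm_203_b

noncomputable def f_mm_213_a : ℕ → ℕ → ℕ → ℕ → Bool := onCell 0 536870912 0 1230186008 966367641 24778659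
    (rowB 3 eng mog cd1q2a cd4q3 pd1 0 false false false .pnn 2 1 3 (qsf 0 536870912 0 1230186008 1) ndB1q2a ndB4q3 pcB1 Cut.none Ext.none)

def k0_mm_213_a : ∃ t, chk3 f_mm_213_a t 1 1 1 = true :=
  ⟨(b (a (l 3) (l 5)) (b (l 3) (b (l 3) (l 3)))), by decide +kernel⟩

theorem c_mm_213_a : CertB 0 536870912 0 1230186008 966367641 24778659 3 eng mog cd1q2a cd4q3 pd1 false false false .pnn 2 1 3
    ndB1q2a ndB4q3 pcB1 Cut.none Ext.none :=
  certB0 (fam := false) (s1 := false) (s2 := false) (a := 2) (b := 1) (c := 3) (cn := .pnn) (n1 := ndB1q2a) (n2 := ndB4q3) (pc := pcB1) (cut := Cut.none) (xt := Ext.none) (P1 := 0) (W1 := 536870912) (P2 := 0) (W2 := 1230186008) (P3 := 966367641) (W3 := 24778659) (N0 := 3) (En := eng) (mo := mog) (C1 := cd1q2a) (C2 := cd4q3) (C3 := pd1)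
    rfl k0_mm_213_a

noncomputable def f_mm_213_b : ℕ → ℕ → ℕ → ℕ → Bool := onCell 1239849684 370763052 0 1230186008 966367641 24778659
    (rowB 3 eng mog cd1q2b cd4q3 pd1 0 false false false .pnn 2 1 3 (qsf 1239849684 370763052 0 1230186008 1) ndB1q2b ndB4q3 pcB1 Cut.none Ext.none)

def k0_mm_213_b : ∃ t, chk3 f_mm_213_b t 1 1 1 = true :=
  ⟨(b (l 3) (b (l 3) (b (l 3) (l 1)))), by decide +kernel⟩

theorem c_mm_213_b : CertB 1239849684 370763052 0 1230186008 966367641 24778659 3 eng mog cd1q2b cd4q3 pd1 false false false .pnn 2 1 3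
    ndB1q2b ndB4q3 pcB1 Cut.none Ext.none :=
  certB0 (fam := false) (s1 := false) (s2 := false) (a := 2) (b := 1) (c := 3) (cn := .pnn) (n1 := ndB1q2b) (n2 := ndB4q3) (pc := pcB1) (cut := Cut.none) (xt := Ext.none) (P1 := 1239849684) (W1 := 370763052) (P2 := 0) (W2 := 1230186008) (P3 := 966367641) (W3 := 24778659) (N0 := 3) (En := eng) (mo := mog) (C1 := cd1q2b) (C2 := cd4q3) (C3 := pd1)
    rfl k0_mm_213_b

noncomputable def f_mm_303 : ℕ → ℕ → ℕ → ℕ → Bool := onCell 0 536870912 0 1230186008 966367641 24778659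
    (rowB 3 eng mog cd1q3 cd4q3 pd0 2 false false false .npn 3 0 3 (qsf 1610612736 536870912 0 1230186008 0) ndB1q3 ndB4q3 pcB0 Cut.none Ext.none)

def k0_mm_303 : ∃ t, chk3 f_mm_303 t 1 1 1 = true :=
  ⟨(b (l 3) (b (l 3) (a (l 3) (l 1)))), by decide +kernel⟩

theorem c_mm_303 : CertB 1610612736 536870912 0 1230186008 966367641 24778659 3 eng mog cd1q3 cd4q3 pd0 false false false .npn 3 0 3
    ndB1q3 ndB4q3 pcB0 Cut.none Ext.none :=
  certB2 (fam := false) (s1 := false) (s2 := false) (a := 3) (b := 0) (c := 3) (cn := .npn) (n1 := ndB1q3) (n2 := ndB4q3) (pc := pcB0) (cut := Cut.none) (xt := Ext.none) (P1 := 1610612736) (W1 := 536870912) (P2 := 0) (W2 := 1230186008) (P3 := 966367641) (W3 := 24778659) (N0 := 3) (En := eng) (mo := mog) (C1 := cd1q3) (C2 := cd4q3) (C3 := pd0)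
    rfl (fun _ => rfl) k0_mm_303

noncomputable def f_mm_313 : ℕ → ℕ → ℕ → ℕ → Bool := onCell 1610612736 536870912 0 1230186008 966367641 24778659
    (rowB 3 eng mog cd1q3 cd4q3 pd1 0 false false false .dn 3 1 3 (qsf 1610612736 536870912 0 1230186008 1) ndB1q3 ndB4q3 pcB1 Cut.none Ext.none)

def k0_mm_313 : ∃ t, chk3 f_mm_313 t 1 1 1 = true :=
  ⟨(b (l 3) (l 1)), by decide +kernel⟩

theorem c_mm_313 : CertB 1610612736 536870912 0 1230186008 966367641 24778659 3 eng mog cd1q3 cd4q3 pd1 false false false .dn 3 1 3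
    ndB1q3 ndB4q3 pcB1 Cut.none Ext.none :=
  certB0 (fam := false) (s1 := false) (s2 := false) (a := 3) (b := 1) (c := 3) (cn := .dn) (n1 := ndB1q3) (n2 := ndB4q3) (pc := pcB1) (cut := Cut.none) (xt := Ext.none) (P1 := 1610612736) (W1 := 536870912) (P2 := 0) (W2 := 1230186008) (P3 := 966367641) (W3 := 24778659) (N0 := 3) (En := eng) (mo := mog) (C1 := cd1q3) (C2 := cd4q3) (C3 := pd1)
    rfl k0_mm_313

end Pool.Agent.Strip051.G.I9000_9231.Tab.C.BB14

namespace Pool.Agent.Strip051.G.I9000_9231.Tab.C.BB20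

open Pool.Agent.Strip051.PB Pool.Agent.Strip051.PB.T
open Pool.Agent.Strip051.G.I9000_9231.Tab

noncomputable def f_pp_001 : ℕ → ℕ → ℕ → ℕ → Bool := onCell 0 536870912 536870912 536870912 966367641 24778659
    (rowB 3 eng mog cd2q0 cd0q1 pd0 2 false true true .up 0 0 1 (qsf 0 536870912 536870912 536870912 0) ndB2q0 ndB0q1 pcB0 Cut.none Ext.none)

def k0_pp_001 : ∃ t, chk3 f_pp_001 t 1 1 1 = true :=
  ⟨(b (l 3) (b (l 3) (b (l 3) (a (l 2) (b (l 3) (a (l 2) (a (l 2) (b (l 3) (a (l 2) (a (a (l 2) (b (a (l 2) (b (c (l 257864680407) (l 16140576)) (l 2))) (l 2))) (c (b (a (c (l 243369211719) (l 16182200)) (c (l 16221480) (l 16172392))) (l 16162112)) (b (b (a (l 256253910983) (l 256790767815)) (l 16109888)) (l 16079912))))))))))))), by decide +kernel⟩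

theorem c_pp_001 : CertB 0 536870912 536870912 536870912 966367641 24778659 3 eng mog cd2q0 cd0q1 pd0 false true true .up 0 0 1
    ndB2q0 ndB0q1 pcB0 Cut.none Ext.none :=
  certB2 (fam := false) (s1 := true) (s2 := true) (a := 0) (b := 0) (c := 1) (cn := .up) (n1 := ndB2q0) (n2 := ndB0q1) (pc := pcB0) (cut := Cut.none) (xt := Ext.none) (P1 := 0) (W1 := 536870912) (P2 := 536870912) (W2 := 536870912) (P3 := 966367641) (W3 := 24778659) (N0 := 3) (En := eng) (mo := mog) (C1 := cd2q0) (C2 := cd0q1) (C3 := pd0)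
    rfl (fun _ => rfl) k0_pp_001

noncomputable def f_pp_011 : ℕ → ℕ → ℕ → ℕ → Bool := onCell 0 536870912 536870912 536870912 966367641 24778659
    (rowB 3 eng mog cd2q0 cd0q1 pd1 0 false true true .pnn 0 1 1 (qsf 0 536870912 536870912 536870912 1) ndB2q0 ndB0q1 pcB1 Cut.none Ext.none)

def k0_pp_011 : ∃ t, chk3 f_pp_011 t 2 2 1 = true :=
  ⟨(l 3), by decide +kernel⟩

def k1_pp_011 : ∃ t, chk3 f_pp_011 t 2 6 1 = true :=
  ⟨(l 3), by decide +kernel⟩

def k2_pp_011 : ∃ t, chk3 f_pp_011 t 2 14 1 = true :=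
  ⟨(l 3), by decide +kernel⟩

def k3_pp_011 : ∃ t, chk3 f_pp_011 t 2 30 1 = true :=
  ⟨(a (a (l 3) (l 3)) (l 3)), by decide +kernel⟩

def k4_pp_011 : ∃ t, chk3 f_pp_011 t 4 248 1 = true :=
  ⟨(a (l 3) (l 3)), by decide +kernel⟩

def k5_pp_011 : ∃ t, chk3 f_pp_011 t 8 249 1 = true :=
  ⟨(b (a (a (b (l 3) (b (l 3) (a (a (b (l 3) (a (c (c (l 16759816) (l 16747792)) (c (l 16746240) (l 16749912))) (c (l 16756552) (l 405505271047)))) (c (l 402820932343) (c (l 409800259895) (l 414632098311)))) (a (c (l 394767903399) (l 403357832983)) (c (l 392620452887) (l 401210383943)))))) (b (l 3) (b (l 3) (a (a (c (l 16817120) (l 434496423415)) (c (l 16833672) (l 394231132199))) (a (c (l 379735589847) (l 353965786871)) (c (l 372756238471) (c (l 377588072519) (l 360408205303)))))))) (a (a (a (a (b (l 3) (l 3)) (l 3)) (l 3)) (l 3)) (l 3))) (a (a (a (a (c (a (l 16754536) (l 16773096)) (a (c (l 16762880) (l 16740464)) (l 16749600))) (c (l 16764432) (l 16762368))) (a (c (l 16781248)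 (l 16779680)) (c (l 16798608) (l 16797496)))) (b (a (c (l 16811872) (a (l 16813072) (l 16815736))) (a (c (l 16802704) (l 16801384)) (c (l 16788496) (a (l 16810864) (l 16792344))))) (a (l 16807704) (c (l 16786360) (l 16784280))))) (a (a (b (c (a (l 16773456) (b (l 347523234295) (l 16776448))) (a (c (l 16770400) (l 109152559847)) (c (l 16758800) (a (l 16765656) (l 16756672))))) (c (l 16756600) (l 16751808))) (c (a (a (l 341080737383) (l 338933236423)) (a (l 336785735143) (l 334638233207))) (b (a (c (l 346986311431) (a (l 351281289223) (l 349133786439))) (b (c (l 344301929975) (l 347523143575)) (l 16734344))) (l 16736872)))) (a (c (b (a (l 333027602615) (l 328732596359)) (l 16709608)) (a (c (l 335175055319) (l 338396269127)) (a (l 333027537895) (l 330880033303)))) (a (a (c (a (l 16693128) (l 16668376)) (a (l 16659240) (l 327658790087))) (c (l 321753236359) (l 325511229831))) (c (a (l 321216366823) (l 320142626567)) (a (l 323900602855) (l 322826847111)))))))),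 by decide +kernel⟩

def k6_pp_011 : ∃ t, chk3 f_pp_011 t 9 249 1 = true :=
  ⟨(a (b (l 3) (a (a (a (a (c (l 318532014631) (l 321216220967)) (c (l 317458271879) (l 320142464951))) (c (a (l 316384527047) (l 313700097639)) (c (l 316384343911) (l 315847392055)))) (c (a (a (l 311015667495) (l 308331255303)) (a (l 307257502183) (l 305646876471))) (a (c (l 313163076247) (l 312626037271)) (c (l 308331105719) (l 308867875863))))) (a (c (c (a (l 301888764423) (l 298667513831)) (a (l 304573097991) (l 300278036471))) (a (c (l 305109847783) (l 304572790039)) (c (l 301351665703) (l 300277714727)))) (c (c (a (l 295446253351) (l 292224979511)) (a (l 297593660263) (l 292761713991))) (a (c (l 297056590167) (l 296519520871)) (c (l 292761526295) (l 292224464935))))))) (b (l 3) (c (a (a (a (c (l 288466826039) (l 288466650039)) (c (l 285245503623) (l 286319077639))) (a (c (l 282561059975) (l 284171512343)) (l 282024115591))) (a (a (l 279876559607) (l 277729008999)) (a (a (l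 275581454423) (l 274507658071)) (l 271823241111)))) (a (a (a (c (l 288466470407) (l 16133240)) (l 288466397095)) (a (l 287392580967) (l 286318771639))) (a (a (l 284708098967) (l 283634299047)) (a (l 282560493927) (l 15983688))))))), by decide +kernel⟩

def k7_pp_011 : ∃ t, chk3 f_pp_011 t 4 125 1 = true :=
  ⟨(a (a (a (a (b (c (l 16751120) (l 16754664)) (l 16770816)) (b (c (l 16785536) (l 16785024)) (l 16755872))) (b (a (c (l 16768776) (l 16768128)) (b (l 16771520) (l 16774056))) (a (l 16752464) (l 16746656)))) (a (c (b (a (l 16733840) (l 16722264)) (l 16682248)) (b (a (l 16707984) (l 16714288)) (l 16654760))) (a (b (a (l 16670136) (l 16672128)) (l 16646336)) (a (a (b (c (l 16664448) (l 16651544)) (l 16622856)) (c (l 16644400) (l 16632936))) (b (c (l 16661584) (l 16653088)) (l 16622144)))))) (a (a (a (a (b (c (l 16660784) (l 16655928)) (l 16623128)) (c (l 16600176) (l 16591248))) (c (a (l 16599064) (l 16597824)) (b (a (l 16514456) (l 16447688)) (l 16519696))))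 (a (c (b (a (l 16600744) (l 16535488)) (l 16597488)) (b (a (l 16387632) (l 16333424)) (l 16393320))) (c (b (a (l 16476464) (l 16422920)) (l 16474304)) (a (l 16362456) (l 16295832))))) (c (a (a (b (a (l 16374184) (l 16329776)) (l 16372928)) (b (a (l 16289208) (l 16252144)) (l 16288776))) (a (a (l 16226704) (l 16195008)) (a (b (l 16158376) (l 16172888)) (l 16136800)))) (a (a (a (l 16275240) (l 16174448)) (a (l 16139832) (l 16108136))) (a (a (l 16079096) (l 16052440)) (a (l 16027880) (l 16004608))))))), by decide +kernel⟩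

def k8_pp_011 : ∃ t, chk3 f_pp_011 t 5 62 1 = true :=
  ⟨(b (b (l 3) (a (a (a (c (a (l 266454348983) (l 263769913079)) (a (l 275044028487) (l 271822743159))) (a (c (l 260548621335) (l 269138341847)) (c (l 280412791783) (l 581060306215)))) (a (l 3) (l 3))) (l 3))) (b (a (a (a (c (a (l 16091568) (l 16048216)) (a (l 15966552) (l 15933880))) (c (a (l 16012856) (l 15984336)) (a (l 15908208) (l 15888504)))) (a (c (a (l 15919792) (l 277728295655)) (a (l 289002605399) (b (l 286318171159) (l 15864992)))) (c (b (a (l 273970180471) (l 271285817159)) (l 15926376)) (b (a (l 283633788727) (l 280949411495)) (l 15856360))))) (a (a (c (b (a (l 268601459879) (l 265917109671)) (l 15914336)) (b (a (l 277728169511) (l 274506933719)) (a (l 15854768) (l 15857024)))) (a (a (c (l 273970174567) (l 283633757575)) (c (l 273433307975) (l 282560015127))) (a (c (l 272896442839) (l 282023149303)) (c (l 272359577783) (l 280949418727))))) (a (b (a (c (l 255179724407) (l 262158940455))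 (c (l 250884775367) (l 257327158759))) (c (a (l 15919056) (l 15925024)) (a (l 15876496) (l 15886448)))) (a (a (c (l 268064665495) (l 276117656983)) (c (l 267527803031) (l 275043927303))) (b (l 3) (c (l 285781426871) (b (l 289002589207) (l 15910256)))))))) (a (a (a (l 16021088) (l 15955464)) (a (l 15957064) (c (l 15927024) (l 15858952)))) (a (a (c (l 15914032) (l 15857080)) (c (l 15912680) (l 15865280))) (a (c (l 15920416) (l 15881336)) (c (l 15935256) (l 15903544))))))), by decide +kernel⟩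

def k9_pp_011 : ∃ t, chk3 f_pp_011 t 2 63 1 = true :=
  ⟨(a (a (a (a (a (b (a (l 16753464) (l 16720872)) (l 16705256)) (b (l 16681984) (l 16679592))) (b (a (l 16657064) (l 16630176)) (a (l 16653232) (l 16625608)))) (a (b (a (l 16663696) (b (l 16648008) (l 16613848))) (c (l 16584856) (l 16575384))) (a (b (b (l 16611680) (l 16578008)) (l 16528472)) (a (b (c (l 16576560) (l 16564112)) (c (l 16510944) (l 16497920))) (b (l 16570432) (l 16504144)))))) (c (a (a (a (b (l 16573336) (l 16507168)) (b (l 16571208) (l 16504848))) (a (b (l 16568744) (l 16502312)) (b (l 16504640) (l 16499672)))) (a (a (b (l 16399416) (l 16420480)) (b (l 16312120) (l 16332904))) (a (b (l 16239200) (l 16259472)) (b (l 16175888) (l 16194952))))) (a (a (a (b (l 16569680) (l 16502816)) (b (l 16570160) (l 16506208))) (a (l 16459744) (l 16349448))) (a (a (l 16258568) (l 16182800)) (a (l 16119224) (l 16064040)))))) (b (a (a (a (l 16036784) (l 15965696)) (a (l 15921632) (l 15897504))) (a (a (l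 15888272) (l 15890368)) (a (l 15901320) (l 15919152)))) (a (a (a (l 16055792) (l 15979408)) (l 15958080)) (a (l 15914496) (l 15913224))))), by decide +kernel⟩

def k10_pp_011 : ∃ t, chk3 f_pp_011 t 3 2 1 = true :=
  ⟨(l 3), by decide +kernel⟩

def k11_pp_011 : ∃ t, chk3 f_pp_011 t 3 6 1 = true :=
  ⟨(l 3), by decide +kernel⟩

def k12_pp_011 : ∃ t, chk3 f_pp_011 t 3 14 1 = true :=
  ⟨(l 3), by decide +kernel⟩

def k13_pp_011 : ∃ t, chk3 f_pp_011 t 3 30 1 = true :=
  ⟨(l 3), by decide +kernel⟩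

def k14_pp_011 : ∃ t, chk3 f_pp_011 t 6 62 1 = true :=
  ⟨(b (l 3) (a (a (b (b (l 3) (a (c (a (l 282560227255) (l 278802157943)) (a (b (l 280949557511) (l 15923904)) (l 286855174423))) (c (a (l 275044088583) (l 270749151271)) (a (l 282560242215) (l 277191568103))))) (b (a (c (l 15956184) (l 15930720)) (c (l 15980744) (l 15961560))) (a (l 15942992) (l 15970504)))) (a (b (b (l 3) (c (a (l 266454215047) (l 261085538503)) (a (l 271822896663) (l 265917361079)))) (b (c (l 16008336) (l 16016264)) (l 16021976))) (b (a (c (l 250348130167) (l 254106209015)) (c (l 246590064615) (l 249811279063))) (a (c (l 16029848) (l 16021640)) (c (l 16045080) (l 16039984)))))) (a (a (b (a (c (l 241758257831) (l 244442608007)) (l 3)) (a (c (l 16060600) (l 16058672)) (b (c (l 16076872) (l 16078088)) (l 16076360)))) (b (l 3) (b (a (c (l 16103200) (l 16097280)) (c (l 272896901111) (l 288466067015))) (a (l 16051840) (l 16069344))))) (b (l 3) (a (c (b (a (l 276118050903) (l 270212504103))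 (l 16131448)) (a (l 294371683239) (l 261622580999))) (a (b (c (l 260548863383) (l 268065013335)) (c (l 16143208) (l 16126736))) (c (b (l 236389685367) (l 16144560)) (b (l 221894190887) (l 16123992))))))))), by decide +kernel⟩

def k15_pp_011 : ∃ t, chk3 f_pp_011 t 7 62 1 = true :=
  ⟨(b (l 3) (a (b (l 3) (b (b (l 3) (a (a (c (a (l 262159470167) (l 208472457111)) (a (l 16129560) (l 228873473543))) (a (c (l 312625410535) (l 272896876295)) (l 3))) (l 3))) (a (a (c (a (l 16145904) (l 16147392)) (a (l 16121320) (l 16097904))) (c (a (l 16154368) (l 241221569079)) (a (l 16111520) (l 263770053831)))) (a (c (a (l 238000345719) (c (l 16155784) (l 16127952))) (a (l 258401338471) (l 253032624823))) (c (a (l 227799811127) (l 222431111047)) (a (l 247127042295) (l 241221461367))))))) (b (l 3) (b (l 3) (a (c (a (a (l 217062412807) (l 211693716151)) (a (l 206325021287) (l 200956328279))) (a (a (l 235315882471) (l 228873436391)) (a (l 222430992503) (l 215988550519)))) (a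 (a (l 3) (l 3)) (l 3))))))), by decide +kernel⟩

def k16_pp_011 : ∃ t, chk3 f_pp_011 t 3 63 1 = true :=
  ⟨(a (a (a (b (a (l 15984280) (l 16011560)) (a (l 15945352) (l 15972336))) (b (a (b (l 16000160) (l 16000056)) (b (l 16032760) (l 16032600))) (l 16018568))) (a (c (b (a (l 16066432) (l 16098272)) (l 16074848)) (b (a (l 16066976) (l 16105104)) (l 16071112))) (b (a (c (l 16115264) (l 16103544)) (b (c (l 16127544) (l 16087464)) (l 16096232))) (a (l 16067328) (l 16062800))))) (a (a (a (b (b (c (a (l 16128960) (l 16130112)) (l 16102664)) (l 16030712)) (l 16059152)) (b (b (c (a (l 16131568) (l 16133408)) (l 16100784)) (l 16113320)) (l 16057080))) (b (a (b (c (a (l 16135704) (l 16138520)) (c (l 16085576) (l 16063416))) (l 16116608)) (a (b (c (l 16141920) (l 16095384)) (l 16095080)) (b (c (l 16145936) (l 16096080)) (l 16097280)))) (a (l 16057096) (l 16059584)))) (a (a (b (b (c (a (l 16150616) (l 16155992)) (a (l 16097520) (l 16078784))) (c (l 16128056) (l 16074136)))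 (l 16106800)) (b (b (c (a (l 16172600) (l 16184720)) (a (l 16092336) (l 16101496))) (c (l 16139824) (l 16079984))) (c (l 16101632) (l 16043144)))) (b (a (c (b (b (a (l 16183168) (l 16191624)) (l 16174288)) (l 16154696)) (b (a (l 16111544) (l 249274561927)) (l 16089320))) (b (a (c (b (l 238537298663) (l 16187880)) (l 247127090007)) (l 1)) (c (l 16172880) (l 16102336)))) (c (a (l 16115776) (l 16133208)) (a (l 16052000) (l 16064456))))))), by decide +kernel⟩

theorem s17_pp_011 : ∃ t, chk3 f_pp_011 t 3 62 1 = true := ex3_a k14_pp_011 k15_pp_011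

theorem s18_pp_011 : ∃ t, chk3 f_pp_011 t 3 31 1 = true := ex3_b s17_pp_011 k16_pp_011

theorem s19_pp_011 : ∃ t, chk3 f_pp_011 t 3 15 1 = true := ex3_b k13_pp_011 s18_pp_011

theorem s20_pp_011 : ∃ t, chk3 f_pp_011 t 3 7 1 = true := ex3_b k12_pp_011 s19_pp_011

theorem s21_pp_011 : ∃ t, chk3 f_pp_011 t 3 3 1 = true := ex3_b k11_pp_011 s20_pp_011

theorem s22_pp_011 : ∃ t, chk3 f_pp_011 t 3 1 1 = true := ex3_b k10_pp_011 s21_pp_011

theorem s23_pp_011 : ∃ t, chk3 f_pp_011 t 4 249 1 = true := ex3_a k5_pp_011 k6_pp_011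

theorem s24_pp_011 : ∃ t, chk3 f_pp_011 t 4 124 1 = true := ex3_b k4_pp_011 s23_pp_011

theorem s25_pp_011 : ∃ t, chk3 f_pp_011 t 4 62 1 = true := ex3_b s24_pp_011 k7_pp_011

theorem s26_pp_011 : ∃ t, chk3 f_pp_011 t 2 62 1 = true := ex3_a s25_pp_011 k8_pp_011

theorem s27_pp_011 : ∃ t, chk3 f_pp_011 t 2 31 1 = true := ex3_b s26_pp_011 k9_pp_011

theorem s28_pp_011 : ∃ t, chk3 f_pp_011 t 2 15 1 = true := ex3_b k3_pp_011 s27_pp_011

theorem s29_pp_011 : ∃ t, chk3 f_pp_011 t 2 7 1 = true := ex3_b k2_pp_011 s28_pp_011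

theorem s30_pp_011 : ∃ t, chk3 f_pp_011 t 2 3 1 = true := ex3_b k1_pp_011 s29_pp_011

theorem s31_pp_011 : ∃ t, chk3 f_pp_011 t 2 1 1 = true := ex3_b k0_pp_011 s30_pp_011

theorem s32_pp_011 : ∃ t, chk3 f_pp_011 t 1 1 1 = true := ex3_a s31_pp_011 s22_pp_011

theorem c_pp_011 : CertB 0 536870912 536870912 536870912 966367641 24778659 3 eng mog cd2q0 cd0q1 pd1 false true true .pnn 0 1 1
    ndB2q0 ndB0q1 pcB1 Cut.none Ext.none :=
  certB0 (fam := false) (s1 := true) (s2 := true) (a := 0) (b := 1) (c := 1) (cn := .pnn) (n1 := ndB2q0) (n2 := ndB0q1) (pc := pcB1) (cut := Cut.none) (xt := Ext.none) (P1 := 0) (W1 := 536870912) (P2 := 536870912) (W2 := 536870912) (P3 := 966367641) (W3 := 24778659) (N0 := 3) (En := eng) (mo := mog) (C1 := cd2q0) (C2 := cd0q1) (C3 := pd1)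
    rfl s32_pp_011

noncomputable def f_pp_012 : ℕ → ℕ → ℕ → ℕ → Bool := onCell 0 536870912 0 536870912 966367641 24778659
    (rowB 3 eng mog cd2q0 cd0q2 pd1 0 false true true .pnp 0 1 2 (qsf 0 536870912 0 536870912 1) ndB2q0 ndB0q2 pcB1 Cut.none Ext.none)

def k0_pp_012 : ∃ t, chk3 f_pp_012 t 2 2 1 = true :=
  ⟨(a (b (l 2) (a (l 2) (a (l 2) (b (l 2) (a (l 2) (l 16287144)))))) (b (a (a (l 15739768) (l 15748496)) (b (l 15556752) (l 15674024))) (a (b (a (l 16055800) (l 15949688)) (a (l 16207576) (l 16093888))) (b (l 15802288) (l 15934384))))), by decide +kernel⟩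

def k1_pp_012 : ∃ t, chk3 f_pp_012 t 4 3 1 = true :=
  ⟨(b (a (l 2) (a (b (l 2) (a (b (l 2) (l 16437712)) (b (l 16418832) (l 16427576)))) (b (a (l 16333520) (l 16273632)) (a (b (l 16406824) (l 16422928)) (b (l 16398008) (l 16419896)))))) (a (b (a (l 2) (a (b (l 2) (b (l 2) (l 16531016))) (b (a (l 2) (l 16448328)) (a (l 16476968) (l 16391360))))) (a (b (a (l 2) (b (a (l 2) (l 16581280)) (a (l 16611080) (l 16579056)))) (a (a (b (l 2) (b (l 16671344) (l 16674480))) (b (b (l 16641112) (l 16641096)) (b (l 16643656) (l 16645792)))) (b (b (a (l 16610560) (l 16581736)) (l 16599088)) (b (l 16596480) (l 16603192))))) (a (b (b (l 16530376) (l 16533648)) (b (b (l 16538256) (l 16528648)) (b (l 16533544) (l 16542416)))) (b (a (l 16485736) (c (l 16451584) (l 16440776))) (a (b (l 16474328) (l 16486312)) (b (l 16450120) (c (l 16467808) (l 16456808)))))))) (b (a (a (b (b (l 16419944) (l 16424512)) (a (l 16434896) (l 16437456))) (b (l 16441840) (a (l 16461192) (l 16463648))))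 (b (a (l 16443776) (l 16444736)) (a (l 16404336) (a (l 16470208) (l 16466384))))) (a (a (b (b (l 16469112) (a (l 16467704) (l 16447176))) (b (a (l 16450080) (l 16449520)) (a (b (l 16458816) (l 16467592)) (l 16462888)))) (a (b (l 16405096) (b (l 16447928) (l 16462280))) (b (l 16379248) (b (l 16446216) (l 16461216))))) (b (a (b (l 16461520) (l 16435392)) (c (l 16417520) (l 16412608))) (a (b (l 16411776) (c (l 16402584) (l 16294344))) (b (a (l 16339584) (l 16294176)) (a (l 16254056) (l 16198464))))))))), by decide +kernel⟩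

def k2_pp_012 : ∃ t, chk3 f_pp_012 t 5 3 1 = true :=
  ⟨(b (a (b (a (b (l 16297808) (l 16314944)) (l 16199048)) (a (b (l 16337592) (l 16365296)) (l 16258464))) (b (a (l 16094072) (l 15992936)) (a (l 16163352) (l 16069568)))) (b (a (a (b (l 16247736) (l 16412336)) (b (l 16303264) (l 16318632))) (b (a (l 16211016) (l 16122304)) (a (l 16229304) (l 16148952)))) (a (b (a (b (l 16346920) (l 16277384)) (b (l 16256936) (l 16178544))) (a (b (l 16267008) (a (l 16118888) (l 16042544))) (b (l 16082616) (l 16018880)))) (b (a (l 16177800) (l 16144640)) (a (b (l 16047976) (l 15949360)) (b (l 16054696) (l 15964072))))))), by decide +kernel⟩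

def k3_pp_012 : ∃ t, chk3 f_pp_012 t 3 1 1 = true :=
  ⟨(b (a (b (a (l 15468672) (l 15524640)) (a (b (l 15631560) (l 15747152)) (b (l 15497336) (l 15597328)))) (b (a (l 15287232) (l 15263704)) (b (a (l 15406392) (l 15363288)) (a (l 15492376) (l 15436920))))) (b (a (a (b (b (l 15832456) (l 15876208)) (b (l 15918400) (l 15962024))) (b (b (l 15672464) (l 15718424)) (b (l 15770440) (l 15823480)))) (b (a (l 15561240) (b (l 15492376) (l 15533224))) (a (c (l 15713784) (l 15666520)) (b (l 15589280) (l 15661448))))) (a (b (a (b (l 16004256) (a (l 16076824) (l 16012920))) (b (l 15877120) (b (l 15917592) (l 15943976)))) (a (b (a (l 16095984) (l 16046632)) (a (b (l 16083232) (l 16004816)) (b (l 16060816) (l 16060288)))) (b (a (l 16001640) (l 15963520)) (a (b (l 16030928) (l 16047352)) (b (l 16003672) (l 16030128)))))) (b (a (b (l 15786392) (b (l 15815872) (l 15871112))) (b (l 15717088) (a (l 15824232) (l 15819016)))) (a (b (a (l 15934112) (l 15914840)) (a (b (l 15983352)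 (l 16048160)) (b (l 15972536) (a (l 16013288) (l 16013704))))) (b (a (l 15906920) (l 15911280)) (a (b (l 15972912) (a (l 16016960) (l 16023264))) (b (l 15985776) (a (l 16032792) (l 16045704)))))))))), by decide +kernel⟩

theorem s4_pp_012 : ∃ t, chk3 f_pp_012 t 2 3 1 = true := ex3_a k1_pp_012 k2_pp_012

theorem s5_pp_012 : ∃ t, chk3 f_pp_012 t 2 1 1 = true := ex3_b k0_pp_012 s4_pp_012

theorem s6_pp_012 : ∃ t, chk3 f_pp_012 t 1 1 1 = true := ex3_a s5_pp_012 k3_pp_012

theorem c_pp_012 : CertB 0 536870912 0 536870912 966367641 24778659 3 eng mog cd2q0 cd0q2 pd1 false true true .pnp 0 1 2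
    ndB2q0 ndB0q2 pcB1 Cut.none Ext.none :=
  certB0 (fam := false) (s1 := true) (s2 := true) (a := 0) (b := 1) (c := 2) (cn := .pnp) (n1 := ndB2q0) (n2 := ndB0q2) (pc := pcB1) (cut := Cut.none) (xt := Ext.none) (P1 := 0) (W1 := 536870912) (P2 := 0) (W2 := 536870912) (P3 := 966367641) (W3 := 24778659) (N0 := 3) (En := eng) (mo := mog) (C1 := cd2q0) (C2 := cd0q2) (C3 := pd1)
    rfl s6_pp_012

noncomputable def f_pp_022 : ℕ → ℕ → ℕ → ℕ → Bool := onCell 0 536870912 0 536870912 966367641 24778659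
    (rowB 3 eng mog cd2q0 cd0q2 pd2 0 false true true .pp 0 2 2 (qsf 0 536870912 0 536870912 2) ndB2q0 ndB0q2 pcB2 Cut.none Ext.none)

def k0_pp_022 : ∃ t, chk3 f_pp_022 t 2 2 1 = true :=
  ⟨(a (b (a (a (b (a (l 16205576) (l 16446664)) (c (l 16380496) (l 16467272))) (a (b (l 16414992) (l 16456576)) (b (l 16248096) (a (l 16399832) (l 16369952))))) (a (b (a (l 16283752) (l 16240008)) (a (l 16225112) (l 16243256))) (b (a (l 16192896) (l 16141760)) (a (l 16196944) (b (l 16236328) (l 16299496)))))) (b (a (a (b (l 16243288) (l 16198624)) (a (l 16503616) (a (l 16443808) (l 16391328)))) (a (a (l 16329376) (l 16368272)) (a (l 16346944) (l 16285264)))) (a (a (b (l 16201200) (l 16168328)) (a (l 16460976) (a (l 16479816) (l 16361256)))) (c (a (a (l 16431664) (l 16394896)) (a (l 16361360) (l 16288168))) (a (a (l 16411168) (l 16390328)) (a (l 16371400) (l 16332056))))))) (a (a (b (b (l 16012120) (a (l 16207112) (l 16120920))) (b (b (l 16243232) (l 16253776)) (b (l 16193472)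 (l 735008349623)))) (b (b (l 1) (l 1)) (l 1))) (l 1))), by decide +kernel⟩

def k1_pp_022 : ∃ t, chk3 f_pp_022 t 4 6 1 = true :=
  ⟨(a (a (b (a (b (l 16351784) (l 16329952)) (b (l 16497424) (l 16499744))) (b (a (c (l 16420560) (l 16423136)) (c (l 16548432) (l 16557048))) (a (c (l 16466248) (l 16462488)) (c (l 16596376) (l 16599832))))) (a (b (b (l 16570320) (l 16563696)) (b (l 16489720) (l 16469496))) (b (a (b (l 16500728) (l 16511712)) (b (l 16463384) (l 16451440))) (a (b (l 16517984) (l 16493856)) (b (c (l 16483216) (l 16469848)) (c (l 16476144) (l 16466240))))))) (a (b (a (b (a (l 16445792) (l 16428800)) (a (l 16453472) (l 16435136))) (b (a (l 16412216) (l 16396240)) (a (l 16417192) (l 16399856)))) (a (b (a (l 16414320) (b (l 16436720) (l 16435600))) (a (c (l 16450760) (l 16448216)) (c (l 16405336) (l 16430464)))) (b (c (b (l 16403312) (l 16316656)) (a (l 16421184) (l 16384552))) (a (c (l 357051822615) (l 299069797463)) (l 1))))) (b (a (b (c (l 16365616)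 (l 16382232)) (c (l 16323600) (l 16364528))) (b (a (l 16353208) (l 16315368)) (l 1))) (a (a (a (b (l 380137212983) (l 1)) (l 1)) (l 1)) (l 1))))), by decide +kernel⟩

def k2_pp_022 : ∃ t, chk3 f_pp_022 t 4 7 1 = true :=
  ⟨(a (a (a (b (b (a (l 16428408) (l 16497344)) (b (a (l 16550384) (l 16620240)) (l 16486304))) (b (b (a (l 16631888) (l 16717680)) (a (l 16693560) (l 16649616))) (b (a (b (l 16726328) (l 16690936)) (b (l 16669632) (l 307123326871))) (a (b (l 16674280) (l 16635664)) (b (c (l 328598151735) (l 325376912439)) (l 1)))))) (b (b (a (l 16607456) (l 16663208)) (b (l 16589440) (l 16530496))) (b (b (c (l 16569032) (l 16550320)) (a (l 16571104) (b (l 16582624) (l 16525160)))) (a (b (b (l 16589992) (l 1)) (l 1)) (l 1))))) (a (b (b (c (l 16500056) (l 16516640)) (b (c (l 16541496) (l 16538920)) (c (l 193306385735) (l 16455872)))) (b (b (a (l 260415312023) (l 1)) (l 1)) (l 1))) (b (b (a (b (l 16503064) (l 16490224)) (c (b (l 16440504) (l 190085074791))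 (b (l 16433008) (l 16419568)))) (a (b (l 242161575895) (l 333429620759)) (b (c (l 345777632743) (l 314102201783)) (l 1)))) (l 1)))) (a (b (a (b (a (c (b (l 16414120) (l 361346858311)) (b (l 16434776) (l 16399584))) (b (c (l 16388696) (l 16394864)) (l 1))) (l 1)) (l 1)) (l 1)) (l 1))), by decide +kernel⟩

def k3_pp_022 : ∃ t, chk3 f_pp_022 t 5 3 1 = true :=
  ⟨(b (l 1) (l 1)), by decide +kernel⟩

def k4_pp_022 : ∃ t, chk3 f_pp_022 t 3 1 1 = true :=
  ⟨(l 1), by decide +kernel⟩

theorem s5_pp_022 : ∃ t, chk3 f_pp_022 t 4 3 1 = true := ex3_b k1_pp_022 k2_pp_022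

theorem s6_pp_022 : ∃ t, chk3 f_pp_022 t 2 3 1 = true := ex3_a s5_pp_022 k3_pp_022

theorem s7_pp_022 : ∃ t, chk3 f_pp_022 t 2 1 1 = true := ex3_b k0_pp_022 s6_pp_022

theorem s8_pp_022 : ∃ t, chk3 f_pp_022 t 1 1 1 = true := ex3_a s7_pp_022 k4_pp_022

theorem c_pp_022 : CertB 0 536870912 0 536870912 966367641 24778659 3 eng mog cd2q0 cd0q2 pd2 false true true .pp 0 2 2
    ndB2q0 ndB0q2 pcB2 Cut.none Ext.none :=
  certB0 (fam := false) (s1 := true) (s2 := true) (a := 0) (b := 2) (c := 2) (cn := .pp) (n1 := ndB2q0) (n2 := ndB0q2) (pc := pcB2) (cut := Cut.none) (xt := Ext.none) (P1 := 0) (W1 := 536870912) (P2 := 0) (W2 := 536870912) (P3 := 966367641) (W3 := 24778659) (N0 := 3) (En := eng) (mo := mog) (C1 := cd2q0) (C2 := cd0q2) (C3 := pd2)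
    rfl s8_pp_022

noncomputable def cut_pp_101 : Cut := Cut.of [[⟨0, 1, 0, 67108864⟩, ⟨1, 0, 0, 67108864⟩, ⟨2, 1, 0, 67108864⟩]]

noncomputable def f_pp_101 : ℕ → ℕ → ℕ → ℕ → Bool := onCell 0 536870912 536870912 536870912 966367641 24778659
    (rowB 3 eng mog cd2q1 cd0q1 pd0 2 false true true .npn 1 0 1 (qsf 536870912 536870912 536870912 536870912 0) ndB2q1 ndB0q1 pcB0 cut_pp_101 Ext.none)

def k0_pp_101 : ∃ t, chk3 f_pp_101 t 1 1 1 = true :=
  ⟨(b (l 3) (b (l 3) (b (l 3) (b (a (l 3) (l 3)) (b (a (l 3) (a (l 3) (a (l 3) (l 3)))) (b (a (a (l 3) (a (l 3) (a (l 3) (a (l 3) (l 789904115319))))) (c (a (a (a (l 260012484439) (l 257328034423)) (a (l 257327955943) (a (l 16304072) (l 260012334759)))) (a (a (a (l 263233514183) (l 266991566359)) (a (l 270749620647) (b (l 251422338311) (l 16232856)))) (a (a (a (l 277192113383) (l 279876451463)) (b (a (l 265917779943) (l 270212733831)) (l 16203496))) (a (b (a (l 273970817415) (l 277728901255)) (l 16190408)) (a (c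 (l 287929431447) (l 292761252423)) (l 950830792743)))))) (a (a (a (l 258401803911) (l 256254235959)) (a (l 257327896887) (l 260549053783))) (a (a (a (l 16240400) (l 270749622295)) (a (l 275044551783) (l 279339482007))) (a (a (b (l 265917778055) (l 16197680)) (a (l 290613822663) (l 292761290839))) (a (b (a (l 282023833863) (l 286318790471)) (l 16168264)) (b (a (l 291150615703) (l 1)) (l 16154224)))))))) (a (a (a (a (l 6) (a (l 6) (b (l 3) (a (l 6) (l 276119231479))))) (a (b (l 3) (a (a (l 271287368087) (l 266455506119)) (a (l 16637472) (l 16627976)))) (a (a (l 270213527991) (l 265918538839)) (a (l 261086680583) (l 257328564759))))) (a (a (a (a (l 256254803527) (l 255181044295)) (a (l 254644153399) (l 16559240))) (a (a (l 16573120) (l 16561040)) (l 256254692071))) (a (a (l 259475904567) (l 16509792)) (a (l 16503128) (l 16476112))))) (a (a (a (a (l 16449960) (l 16403880)) (a (l 16400968) (l 16378504))) (a (a (l 16357624) (l 16337832)) (c (l 16319240) (l 16298360))))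 (a (a (a (l 16281616) (l 16264072)) (a (l 16247192) (l 16230960))) (a (a (l 16215400) (l 16200528)) (a (l 16186368) (l 16172936)))))))))))), by decide +kernel⟩

theorem c_pp_101 : CertB 536870912 536870912 536870912 536870912 966367641 24778659 3 eng mog cd2q1 cd0q1 pd0 false true true .npn 1 0 1
    ndB2q1 ndB0q1 pcB0 cut_pp_101 Ext.none :=
  certB2 (fam := false) (s1 := true) (s2 := true) (a := 1) (b := 0) (c := 1) (cn := .npn) (n1 := ndB2q1) (n2 := ndB0q1) (pc := pcB0) (cut := cut_pp_101) (xt := Ext.none) (P1 := 536870912) (W1 := 536870912) (P2 := 536870912) (W2 := 536870912) (P3 := 966367641) (W3 := 24778659) (N0 := 3) (En := eng) (mo := mog) (C1 := cd2q1) (C2 := cd0q1) (C3 := pd0)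
    rfl (fun _ => rfl) k0_pp_101

noncomputable def cut_pp_102 : Cut := Cut.of [[⟨0, 1, 0, 67108864⟩, ⟨1, 0, 0, 67108864⟩, ⟨2, 1, 0, 67108864⟩]]

noncomputable def f_pp_102 : ℕ → ℕ → ℕ → ℕ → Bool := onCell 0 536870912 0 536870912 966367641 24778659
    (rowB 3 eng mog cd2q1 cd0q2 pd0 2 false true true .npp 1 0 2 (qsf 536870912 536870912 0 536870912 0) ndB2q1 ndB0q2 pcB0 cut_pp_102 Ext.none)

def k0_pp_102 : ∃ t, chk3 f_pp_102 t 2 2 1 = true :=
  ⟨(a (b (l 2) (a (l 2) (a (l 2) (b (l 2) (a (l 2) (l 15212936)))))) (b (a (a (l 169747639191) (b (l 14655560) (l 14837080))) (c (l 14843400) (l 14836472))) (a (a (b (l 14994616) (l 15255984)) (b (l 15049352) (l 15280512))) (a (b (l 15095480) (a (l 15320616) (l 15327288))) (b (l 15133168) (l 15459968)))))), by decide +kernel⟩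

def k1_pp_102 : ∃ t, chk3 f_pp_102 t 4 3 1 = true :=
  ⟨(b (a (l 2) (a (b (l 2) (a (b (l 2) (a (l 2) (l 15796688))) (b (a (l 15725048) (l 15642592)) (l 15826536)))) (b (a (b (l 15381824) (l 15521240)) (b (l 15435880) (l 15589152))) (a (b (l 15695760) (l 15859408)) (b (l 15713536) (l 15884480)))))) (a (b (a (l 2) (a (b (l 2) (l 6)) (b (a (l 2) (l 15990488)) (a (l 6) (b (l 16127040) (l 16244456)))))) (a (l 6) (a (l 6) (a (l 6) (b (b (l 16366688) (a (l 6) (l 16491336))) (b (l 16547000) (b (l 16648808) (l 16646248)))))))) (a (a (b (b (a (l 15977976) (l 15994192)) (b (l 16145616) (l 16257200))) (b (b (l 16373440) (b (l 16461480) (l 16510592))) (a (b (l 16577720) (b (l 16637576) (l 16666472))) (b (l 16566896) (c (l 16579688) (l 16650616)))))) (b (b (a (l 16008000) (l 16019768)) (b (l 16162944) (l 16267224))) (b (b (l 16375896) (a (l 16475312) (l 16466624))) (b (b (l 16531400) (l 16571472)) (b (l 16569320) (a (l 16655504) (l 16645720))))))) (b (b (a (l 16034216)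 (l 16047656)) (a (c (l 16227200) (l 16217024)) (a (l 16223672) (l 16223688)))) (b (b (a (l 16368672) (b (l 16335472) (l 16376984))) (a (l 16453168) (l 16437320))) (b (a (b (l 16513312) (l 16553496)) (l 16476232)) (a (c (b (l 16588944) (l 16605400)) (l 16597960)) (b (l 16557352) (l 16554992))))))))), by decide +kernel⟩

def k2_pp_102 : ∃ t, chk3 f_pp_102 t 5 3 1 = true :=
  ⟨(b (a (b (a (a (a (l 15535624) (l 15537776)) (l 15560112)) (b (l 15482736) (l 15613280))) (a (b (l 15743560) (l 15867400)) (c (l 15826752) (l 15805016)))) (b (c (l 15578040) (l 15545392)) (b (l 15726856) (c (l 15880120) (l 15864328))))) (a (b (b (a (l 16045624) (l 16038040)) (a (b (l 16170560) (a (l 16261832) (l 16250048))) (b (l 16159256) (l 16234792)))) (b (a (b (l 16273680) (a (l 16423408) (l 16411264))) (b (l 16315432) (l 16333344))) (a (b (c (l 16431400) (l 16439696)) (a (b (l 16543848) (l 16604504)) (c (l 16562768) (l 16583384)))) (a (b (l 16482048) (l 16499472)) (b (l 16473160)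 (l 16511376)))))) (b (b (a (l 16034360) (l 16027472)) (a (b (l 16142832) (l 16221744)) (l 16174600))) (b (a (b (l 16301032) (l 16360896)) (b (l 16291904) (l 16372152))) (a (a (b (l 16465784) (l 16524712)) (b (l 16438896) (l 16518424))) (b (l 16452176) (a (l 16533592) (l 16521136)))))))), by decide +kernel⟩

def k3_pp_102 : ∃ t, chk3 f_pp_102 t 3 1 1 = true :=
  ⟨(b (a (a (b (b (l 14904144) (l 15026248)) (b (a (l 15168176) (l 15188776)) (l 15336992))) (b (b (l 15018816) (l 15102448)) (b (a (l 15207112) (l 15233824)) (l 15405384)))) (b (a (b (l 15111288) (l 15285408)) (b (l 15225992) (l 15237248))) (a (b (l 15288504) (l 15462152)) (b (l 15374528) (l 15533928))))) (a (b (b (a (l 15581440) (l 15611480)) (a (a (l 15819440) (l 15827064)) (b (l 15776312) (a (l 15894248) (l 15899584))))) (b (a (b (a (l 16019960) (l 16017064)) (a (l 16169344) (l 16165968))) (b (l 15835896) (a (l 16162888) (l 16160176)))) (a (b (a (l 16177808) (l 16232472)) (a (b (l 16441304) (l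 16358680)) (b (l 16428168) (l 16397032)))) (b (a (l 16306184) (l 16294960)) (a (b (l 16411384) (l 16377232)) (b (l 16392424) (l 16360352))))))) (b (b (a (l 15653384) (l 15707576)) (a (b (l 15807512) (l 15765472)) (b (l 15847776) (l 15943808)))) (b (a (b (l 16035272) (a (l 16158056) (l 16156080))) (b (l 16049712) (l 16006184))) (a (b (a (l 16283352) (l 16270920)) (a (b (l 16372272) (l 16303216)) (b (l 16350520) (l 16232456)))) (b (a (l 16257408) (l 16242560)) (a (b (l 16326976) (l 16237352)) (b (l 16301480) (l 16176496))))))))), by decide +kernel⟩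

theorem s4_pp_102 : ∃ t, chk3 f_pp_102 t 2 3 1 = true := ex3_a k1_pp_102 k2_pp_102

theorem s5_pp_102 : ∃ t, chk3 f_pp_102 t 2 1 1 = true := ex3_b k0_pp_102 s4_pp_102

theorem s6_pp_102 : ∃ t, chk3 f_pp_102 t 1 1 1 = true := ex3_a s5_pp_102 k3_pp_102

theorem c_pp_102 : CertB 536870912 536870912 0 536870912 966367641 24778659 3 eng mog cd2q1 cd0q2 pd0 false true true .npp 1 0 2
    ndB2q1 ndB0q2 pcB0 cut_pp_102 Ext.none :=
  certB2 (fam := false) (s1 := true) (s2 := true) (a := 1) (b := 0) (c := 2) (cn := .npp) (n1 := ndB2q1) (n2 := ndB0q2) (pc := pcB0) (cut := cut_pp_102) (xt := Ext.none) (P1 := 536870912) (W1 := 536870912) (P2 := 0) (W2 := 536870912) (P3 := 966367641) (W3 := 24778659) (N0 := 3) (En := eng) (mo := mog) (C1 := cd2q1) (C2 := cd0q2) (C3 := pd0)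
    rfl (fun _ => rfl) s6_pp_102

noncomputable def f_pp_112 : ℕ → ℕ → ℕ → ℕ → Bool := onCell 536870912 536870912 0 536870912 966367641 24778659
    (rowB 3 eng mog cd2q1 cd0q2 pd1 2 false true true .dn 1 1 2 (qsf 536870912 536870912 0 536870912 1) ndB2q1 ndB0q2 pcB1 Cut.none Ext.none)

def k0_pp_112 : ∃ t, chk3 f_pp_112 t 1 1 1 = true :=
  ⟨(a (b (a (b (b (l 15285104) (l 15566968)) (a (l 15631304) (l 15675088))) (b (l 147133213143) (a (l 15685696) (l 1)))) (a (b (b (a (l 15739064) (l 15785872)) (a (b (l 15813704) (l 15907448)) (l 15795264))) (b (a (b (l 16006616) (l 16081128)) (b (l 16017128) (l 1))) (a (a (b (l 16195024) (b (l 16254960) (l 16214328))) (l 845066739399)) (l 1)))) (b (l 1) (l 1)))) (l 1)), by decide +kernel⟩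

theorem c_pp_112 : CertB 536870912 536870912 0 536870912 966367641 24778659 3 eng mog cd2q1 cd0q2 pd1 false true true .dn 1 1 2
    ndB2q1 ndB0q2 pcB1 Cut.none Ext.none :=
  certB2 (fam := false) (s1 := true) (s2 := true) (a := 1) (b := 1) (c := 2) (cn := .dn) (n1 := ndB2q1) (n2 := ndB0q2) (pc := pcB1) (cut := Cut.none) (xt := Ext.none) (P1 := 536870912) (W1 := 536870912) (P2 := 0) (W2 := 536870912) (P3 := 966367641) (W3 := 24778659) (N0 := 3) (En := eng) (mo := mog) (C1 := cd2q1) (C2 := cd0q2) (C3 := pd1)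
    rfl (fun _ => rfl) k0_pp_112

noncomputable def f_pp_202 : ℕ → ℕ → ℕ → ℕ → Bool := onCell 1073741824 536870912 0 536870912 966367641 24778659
    (rowB 3 eng mog cd2q2 cd0q2 pd0 0 false true true .pp 2 0 2 (qsf 1073741824 536870912 0 536870912 0) ndB2q2 ndB0q2 pcB0 Cut.none Ext.none)

def k0_pp_202 : ∃ t, chk3 f_pp_202 t 1 1 1 = true :=
  ⟨(l 3), by decide +kernel⟩

theorem c_pp_202 : CertB 1073741824 536870912 0 536870912 966367641 24778659 3 eng mog cd2q2 cd0q2 pd0 false true true .pp 2 0 2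
    ndB2q2 ndB0q2 pcB0 Cut.none Ext.none :=
  certB0 (fam := false) (s1 := true) (s2 := true) (a := 2) (b := 0) (c := 2) (cn := .pp) (n1 := ndB2q2) (n2 := ndB0q2) (pc := pcB0) (cut := Cut.none) (xt := Ext.none) (P1 := 1073741824) (W1 := 536870912) (P2 := 0) (W2 := 536870912) (P3 := 966367641) (W3 := 24778659) (N0 := 3) (En := eng) (mo := mog) (C1 := cd2q2) (C2 := cd0q2) (C3 := pd0)
    rfl k0_pp_202

noncomputable def f_pm_001 : ℕ → ℕ → ℕ → ℕ → Bool := onCell 0 536870912 0 536870912 966367641 24778659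
    (rowB 3 eng mog cd2q0 cd0q1 pd0 1 false true false .up 0 0 1 (qsf 0 536870912 536870912 536870912 0) ndB2q0 ndB0q1 pcB0 Cut.none Ext.none)

def k0_pm_001 : ∃ t, chk3 f_pm_001 t 1 1 1 = true :=
  ⟨(l 4), by decide +kernel⟩

theorem c_pm_001 : CertB 0 536870912 536870912 536870912 966367641 24778659 3 eng mog cd2q0 cd0q1 pd0 false true false .up 0 0 1
    ndB2q0 ndB0q1 pcB0 Cut.none Ext.none :=
  certB1 (fam := false) (s1 := true) (s2 := false) (a := 0) (b := 0) (c := 1) (cn := .up) (n1 := ndB2q0) (n2 := ndB0q1) (pc := pcB0) (cut := Cut.none) (xt := Ext.none) (P1 := 0) (W1 := 536870912) (P2 := 536870912) (W2 := 536870912) (P3 := 966367641) (W3 := 24778659) (N0 := 3) (En := eng) (mo := mog) (C1 := cd2q0) (C2 := cd0q1) (C3 := pd0)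
    rfl (fun _ => rfl) k0_pm_001

noncomputable def f_pm_011 : ℕ → ℕ → ℕ → ℕ → Bool := onCell 0 536870912 536870912 536870912 966367641 24778659
    (rowB 3 eng mog cd2q0 cd0q1 pd1 0 false true false .pnn 0 1 1 (qsf 0 536870912 536870912 536870912 1) ndB2q0 ndB0q1 pcB1 Cut.none Ext.none)

def k0_pm_011 : ∃ t, chk3 f_pm_011 t 1 1 1 = true :=
  ⟨(a (b (l 4) (l 4)) (l 4)), by decide +kernel⟩

theorem c_pm_011 : CertB 0 536870912 536870912 536870912 966367641 24778659 3 eng mog cd2q0 cd0q1 pd1 false true false .pnn 0 1 1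
    ndB2q0 ndB0q1 pcB1 Cut.none Ext.none :=
  certB0 (fam := false) (s1 := true) (s2 := false) (a := 0) (b := 1) (c := 1) (cn := .pnn) (n1 := ndB2q0) (n2 := ndB0q1) (pc := pcB1) (cut := Cut.none) (xt := Ext.none) (P1 := 0) (W1 := 536870912) (P2 := 536870912) (W2 := 536870912) (P3 := 966367641) (W3 := 24778659) (N0 := 3) (En := eng) (mo := mog) (C1 := cd2q0) (C2 := cd0q1) (C3 := pd1)
    rfl k0_pm_011

noncomputable def f_pm_012 : ℕ → ℕ → ℕ → ℕ → Bool := onCell 536870912 536870912 0 536870912 966367641 24778659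
    (rowB 3 eng mog cd2q0 cd0q2 pd1 2 false true false .pnp 0 1 2 (qsf 0 536870912 0 536870912 1) ndB2q0 ndB0q2 pcB1 Cut.none Ext.none)

def k0_pm_012 : ∃ t, chk3 f_pm_012 t 1 1 1 = true :=
  ⟨(a (b (a (a (l 2) (b (l 2) (b (l 2) (l 15141056)))) (b (a (c (l 15212440) (l 15146352)) (c (l 15188880) (l 15187168))) (a (b (b (l 15137688) (l 15133544)) (a (l 15141184) (l 15152536))) (c (b (l 15171024) (l 15227888)) (l 15102272))))) (b (l 4) (l 4))) (b (a (a (b (b (l 15208248) (l 15176824)) (a (b (l 15137576) (l 15204312)) (b (l 15225816) (l 15223408)))) (b (l 15339352) (b (a (l 15186032) (l 15221504)) (a (l 15244760) (b (l 15248264) (l 15296248)))))) (a (b (l 15343160) (b (a (l 15276288) (l 15336424)) (a (b (l 15284272) (l 15326024)) (b (l 15340208) (l 15371752))))) (a (b (l 15468320) (b (l 15405296) (l 15422920))) (b (l 15527072) (b (l 15482352) (a (l 15483544) (b (l 15511672) (l 15661904)))))))) (a (b (a (l 4) (b (a (l 4) (l 15421952)) (l 4))) (l 4)) (b (a (b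 (a (l 15452864) (l 15460800)) (l 4)) (b (a (a (l 15494080) (l 15516952)) (a (b (l 15530840) (a (l 15590376) (b (l 15578912) (l 15615600)))) (b (a (l 15562688) (l 15575416)) (a (b (l 15591232) (l 15613160)) (l 15602968))))) (a (l 4) (b (a (l 4) (b (a (l 15650216) (l 15642184)) (l 4))) (l 4))))) (l 4))))), by decide +kernel⟩

theorem c_pm_012 : CertB 0 536870912 0 536870912 966367641 24778659 3 eng mog cd2q0 cd0q2 pd1 false true false .pnp 0 1 2
    ndB2q0 ndB0q2 pcB1 Cut.none Ext.none :=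
  certB2 (fam := false) (s1 := true) (s2 := false) (a := 0) (b := 1) (c := 2) (cn := .pnp) (n1 := ndB2q0) (n2 := ndB0q2) (pc := pcB1) (cut := Cut.none) (xt := Ext.none) (P1 := 0) (W1 := 536870912) (P2 := 0) (W2 := 536870912) (P3 := 966367641) (W3 := 24778659) (N0 := 3) (En := eng) (mo := mog) (C1 := cd2q0) (C2 := cd0q2) (C3 := pd1)
    rfl (fun _ => rfl) k0_pm_012

noncomputable def f_pm_022 : ℕ → ℕ → ℕ → ℕ → Bool := onCell 0 536870912 0 536870912 966367641 24778659
    (rowB 3 eng mog cd2q0 cd0q2 pd2 0 false true false .pp 0 2 2 (qsf 0 536870912 0 536870912 2) ndB2q0 ndB0q2 pcB2 Cut.none Ext.none)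

def k0_pm_022 : ∃ t, chk3 f_pm_022 t 2 2 1 = true :=
  ⟨(a (b (a (a (b (a (l 16409320) (l 16459536)) (a (l 16406488) (l 16443192))) (a (b (l 16372416) (l 16340448)) (b (a (l 16299104) (l 16255920)) (l 15977448)))) (a (a (b (l 16214056) (l 16150040)) (b (l 16155048) (l 16075096))) (a (b (l 16092488) (l 15996552)) (b (l 16025848) (l 15914000))))) (a (a (b (a (l 16352976) (l 16430048)) (a (l 16255528) (l 16350336))) (a (b (l 16309368) (l 16104456)) (b (a (l 16210256) (l 16150104)) (a (l 16157872) (l 16088032))))) (a (b (a (l 16041920) (l 15992240)) (a (c (l 16022920) (l 15993760)) (c (l 15908832) (l 15890088)))) (b (a (l 15897160) (l 15798456)) (a (c (l 15793968) (l 15781416)) (c (l 15678512) (l 15667680))))))) (a (a (b (b (l 15873136) (l 15737312)) (b (a (l 15668688) (l 15524968)) (a (l 15527208) (l 1)))) (b (b (l 1) (l 1)) (l 1))) (l 1))), by decide +kernel⟩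

def k1_pm_022 : ∃ t, chk3 f_pm_022 t 2 3 1 = true :=
  ⟨(a (b (a (a (b (a (b (l 16534816) (l 16524096)) (b (l 16391136) (l 16305472))) (b (a (l 16402072) (l 16212808)) (a (a (l 16528736) (l 16420672)) (b (l 16313184) (l 16194616))))) (a (b (b (l 16233440) (l 16198888)) (b (l 16052104) (b (l 16124736) (l 16119384)))) (b (a (l 15897232) (b (l 16029152) (l 15980568))) (b (a (l 16012712) (l 15925080)) (a (l 15962832) (a (l 94722842327) (l 4))))))) (b (a (a (b (l 15939320) (c (l 15890128) (l 15877792))) (b (l 15817224) (l 15669448))) (a (b (l 15693192) (c (l 15624128) (l 15620176))) (b (l 15567344) (l 1)))) (b (a (a (a (l 15838208) (l 15773744)) (c (l 15683552) (l 15700296))) (a (b (l 15561744) (l 1)) (l 1))) (l 4)))) (a (b (a (b (a (b (a (l 16515072) (l 16427760)) (a (l 16518688) (l 4))) (b (l 86132932919) (l 4))) (l 4)) (l 4)) (l 4)) (l 4))) (b (l 1) (l 1))), by decide +kernel⟩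

def k2_pm_022 : ∃ t, chk3 f_pm_022 t 3 1 1 = true :=
  ⟨(l 1), by decide +kernel⟩

theorem s3_pm_022 : ∃ t, chk3 f_pm_022 t 2 1 1 = true := ex3_b k0_pm_022 k1_pm_022

theorem s4_pm_022 : ∃ t, chk3 f_pm_022 t 1 1 1 = true := ex3_a s3_pm_022 k2_pm_022

theorem c_pm_022 : CertB 0 536870912 0 536870912 966367641 24778659 3 eng mog cd2q0 cd0q2 pd2 false true false .pp 0 2 2
    ndB2q0 ndB0q2 pcB2 Cut.none Ext.none :=
  certB0 (fam := false) (s1 := true) (s2 := false) (a := 0) (b := 2) (c := 2) (cn := .pp) (n1 := ndB2q0) (n2 := ndB0q2) (pc := pcB2) (cut := Cut.none) (xt := Ext.none) (P1 := 0) (W1 := 536870912) (P2 := 0) (W2 := 536870912) (P3 := 966367641) (W3 := 24778659) (N0 := 3) (En := eng) (mo := mog) (C1 := cd2q0) (C2 := cd0q2) (C3 := pd2)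
    rfl s4_pm_022

noncomputable def f_pm_101 : ℕ → ℕ → ℕ → ℕ → Bool := onCell 536870912 536870912 536870912 536870912 966367641 24778659
    (rowB 3 eng mog cd2q1 cd0q1 pd0 0 false true false .npn 1 0 1 (qsf 536870912 536870912 536870912 536870912 0) ndB2q1 ndB0q1 pcB0 Cut.none Ext.none)

def k0_pm_101 : ∃ t, chk3 f_pm_101 t 1 1 1 = true :=
  ⟨(l 4), by decide +kernel⟩

theorem c_pm_101 : CertB 536870912 536870912 536870912 536870912 966367641 24778659 3 eng mog cd2q1 cd0q1 pd0 false true false .npn 1 0 1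
    ndB2q1 ndB0q1 pcB0 Cut.none Ext.none :=
  certB0 (fam := false) (s1 := true) (s2 := false) (a := 1) (b := 0) (c := 1) (cn := .npn) (n1 := ndB2q1) (n2 := ndB0q1) (pc := pcB0) (cut := Cut.none) (xt := Ext.none) (P1 := 536870912) (W1 := 536870912) (P2 := 536870912) (W2 := 536870912) (P3 := 966367641) (W3 := 24778659) (N0 := 3) (En := eng) (mo := mog) (C1 := cd2q1) (C2 := cd0q1) (C3 := pd0)
    rfl k0_pm_101

noncomputable def f_pm_102 : ℕ → ℕ → ℕ → ℕ → Bool := onCell 0 536870912 0 536870912 966367641 24778659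
    (rowB 3 eng mog cd2q1 cd0q2 pd0 2 false true false .npp 1 0 2 (qsf 536870912 536870912 0 536870912 0) ndB2q1 ndB0q2 pcB0 Cut.none Ext.none)

def k0_pm_102 : ∃ t, chk3 f_pm_102 t 1 1 1 = true :=
  ⟨(a (b (a (b (l 2) (a (l 2) (b (l 2) (a (l 2) (l 13855184))))) (b (a (b (a (l 14409816) (l 14507792)) (l 14313408)) (b (a (l 14597640) (l 14682624)) (l 14539136))) (a (b (l 244372268407) (a (l 14025824) (l 14188088))) (b (l 14462080) (a (l 14341672) (l 14486200)))))) (b (l 4) (l 4))) (b (a (b (a (b (l 14805208) (l 14741464)) (l 14924784)) (a (b (l 14699488) (l 14684440)) (l 14891104))) (b (b (a (l 15101648) (l 15222040)) (a (l 15096872) (l 15258920))) (a (l 15096752) (b (l 15245808) (l 15246632))))) (l 4))), by decide +kernel⟩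

theorem c_pm_102 : CertB 536870912 536870912 0 536870912 966367641 24778659 3 eng mog cd2q1 cd0q2 pd0 false true false .npp 1 0 2
    ndB2q1 ndB0q2 pcB0 Cut.none Ext.none :=
  certB2 (fam := false) (s1 := true) (s2 := false) (a := 1) (b := 0) (c := 2) (cn := .npp) (n1 := ndB2q1) (n2 := ndB0q2) (pc := pcB0) (cut := Cut.none) (xt := Ext.none) (P1 := 536870912) (W1 := 536870912) (P2 := 0) (W2 := 536870912) (P3 := 966367641) (W3 := 24778659) (N0 := 3) (En := eng) (mo := mog) (C1 := cd2q1) (C2 := cd0q2) (C3 := pd0)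
    rfl (fun _ => rfl) k0_pm_102

noncomputable def f_pm_112 : ℕ → ℕ → ℕ → ℕ → Bool := onCell 536870912 536870912 0 536870912 966367641 24778659
    (rowB 3 eng mog cd2q1 cd0q2 pd1 2 false true false .dn 1 1 2 (qsf 536870912 536870912 0 536870912 1) ndB2q1 ndB0q2 pcB1 Cut.none Ext.none)

def k0_pm_112 : ∃ t, chk3 f_pm_112 t 1 1 1 = true :=
  ⟨(a (b (a (b (b (l 15484752) (a (l 15420672) (l 15432816))) (a (l 15395880) (b (l 15427424) (l 15411160)))) (a (b (l 15466472) (b (l 15422744) (l 15406168))) (l 1))) (b (l 4) (l 4))) (l 1)), by decide +kernel⟩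

theorem c_pm_112 : CertB 536870912 536870912 0 536870912 966367641 24778659 3 eng mog cd2q1 cd0q2 pd1 false true false .dn 1 1 2
    ndB2q1 ndB0q2 pcB1 Cut.none Ext.none :=
  certB2 (fam := false) (s1 := true) (s2 := false) (a := 1) (b := 1) (c := 2) (cn := .dn) (n1 := ndB2q1) (n2 := ndB0q2) (pc := pcB1) (cut := Cut.none) (xt := Ext.none) (P1 := 536870912) (W1 := 536870912) (P2 := 0) (W2 := 536870912) (P3 := 966367641) (W3 := 24778659) (N0 := 3) (En := eng) (mo := mog) (C1 := cd2q1) (C2 := cd0q2) (C3 := pd1)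
    rfl (fun _ => rfl) k0_pm_112

noncomputable def f_pm_202 : ℕ → ℕ → ℕ → ℕ → Bool := onCell 0 536870912 0 536870912 966367641 24778659
    (rowB 3 eng mog cd2q2 cd0q2 pd0 2 false true false .pp 2 0 2 (qsf 1073741824 536870912 0 536870912 0) ndB2q2 ndB0q2 pcB0 Cut.none Ext.none)

def k0_pm_202 : ∃ t, chk3 f_pm_202 t 2 2 1 = true :=
  ⟨(l 3), by decide +kernel⟩

def k1_pm_202 : ∃ t, chk3 f_pm_202 t 4 6 1 = true :=
  ⟨(l 3), by decide +kernel⟩

def k2_pm_202 : ∃ t, chk3 f_pm_202 t 16 28 1 = true :=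
  ⟨(b (l 3) (b (l 3) (a (b (l 3) (a (a (b (b (l 3) (a (b (l 3) (c (a (c (l 110225535927) (l 16381616)) (l 16394344)) (a (a (l 16355776) (l 16358328)) (l 16362432)))) (c (a (l 16393464) (l 16403616)) (a (l 16367416) (l 16372912))))) (a (a (c (a (l 16393368) (c (l 16403096) (l 16387312))) (c (l 16370152) (l 16353632))) (b (c (a (c (l 16403208) (l 16387416)) (b (l 16396888) (l 16398424))) (c (l 16372552) (l 16356072))) (l 16384648))) (b (c (a (a (l 16400136) (l 16402480)) (l 16406184)) (a (a (l 16368072) (l 16370704)) (l 16374816))) (a (b (c (l 16403552) (l 16371352)) (l 16389808)) (c (l 16409112) (l 16377120)))))) (a (b (b (l 3) (c (l 16400552) (l 16381168))) (c (a (l 16412528) (l 16417408)) (a (l 16381304) (l 16386736)))) (b (c (l 122036736871) (l 118278608375)) (c (l 16424864) (l 16394992))))) (c (a (a (b (l 16429856) (l 16434840)) (b (l 16439872) (l 16444864))) (l 16436528)) (a (c (l 134921641623) (b (l 16400944) (l 16404296))) (l 16412320))))) (a (a (b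 (l 774871843367) (a (l 16447744) (l 16450552))) (c (l 116131293767) (l 111836298279))) (c (a (l 16493224) (l 16513792)) (a (l 16474528) (l 16497256))))))), by decide +kernel⟩

def k3_pm_202 : ∃ t, chk3 f_pm_202 t 16 29 1 = true :=
  ⟨(a (b (b (b (b (a (a (c (l 16409152) (l 16377216)) (b (a (c (a (l 16417016) (l 16421624)) (a (l 16385112) (l 16389912))) (l 16392536)) (a (l 16407768) (l 16399296)))) (a (a (l 16404096) (l 16414592)) (l 16440888))) (a (a (l 16381368) (a (l 16414696) (l 16401648))) (a (a (l 16410008) (l 16419576)) (l 16434832)))) (a (a (l 16394960) (l 16411872)) (a (a (l 16445016) (l 16431784)) (a (l 16460800) (l 16469760))))) (a (c (l 16467144) (l 16437872)) (c (l 16501176) (l 16472376)))) (a (b (l 16491416) (l 16531864)) (l 16444800))) (b (b (c (a (b (l 16497880) (l 16467320)) (l 16501752)) (a (a (b (l 16461384) (l 16448872)) (l 16466248)) (a (l 16509456) (l 16532752)))) (a (b (a (l 16499968) (l 16516616)) (l 16529176)) (a (b (l 16535632)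 (l 16551344)) (b (l 16556936) (l 16569248))))) (a (c (l 16575528) (l 16551392)) (c (l 16566168) (l 16542632))))), by decide +kernel⟩

def k4_pm_202 : ∃ t, chk3 f_pm_202 t 17 14 1 = true :=
  ⟨(b (b (l 3) (a (b (l 3) (a (c (l 16544944) (l 16531800)) (c (l 16607344) (l 16598648)))) (a (b (l 3) (c (l 16627528) (l 16644136))) (b (c (a (l 3) (l 74255714439)) (l 85529950151)) (a (l 16657560) (l 386580390759)))))) (a (b (a (b (c (l 16586160) (l 16569920)) (a (l 16545064) (l 16609952))) (c (b (l 16628504) (l 16650888)) (l 16565576))) (b (a (b (l 16555920) (l 16641824)) (b (l 16621248) (a (l 16668816) (l 16667736)))) (a (l 16657520) (l 16694576)))) (b (a (b (a (l 16656952) (l 16679048)) (l 345241268023)) (c (l 390875350119) (l 366179286663))) (a (b (l 408592075239) (l 1)) (l 1))))), by decide +kernel⟩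

def k5_pm_202 : ∃ t, chk3 f_pm_202 t 8 15 1 = true :=
  ⟨(a (b (b (a (a (l 16553680) (l 16576000)) (a (l 16594568) (l 16610496))) (a (c (l 16589728) (l 16556920)) (a (l 16650904) (l 316250149495)))) (a (a (b (b (l 16735392) (l 16644416)) (l 16590600)) (b (a (l 16650888) (l 16633032)) (b (a (l 16627080) (l 1)) (l 1)))) (a (b (b (l 16664888) (l 1)) (l 1)) (l 1)))) (a (b (b (a (l 16621944) (l 1)) (l 1)) (l 1)) (l 1))), by decide +kernel⟩

def k6_pm_202 : ∃ t, chk3 f_pm_202 t 9 7 1 = true :=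
  ⟨(a (b (b (b (l 3) (b (b (l 3) (l 1)) (l 1))) (l 1)) (l 1)) (l 1)), by decide +kernel⟩

def k7_pm_202 : ∃ t, chk3 f_pm_202 t 5 3 1 = true :=
  ⟨(b (l 1) (l 1)), by decide +kernel⟩

def k8_pm_202 : ∃ t, chk3 f_pm_202 t 3 1 1 = true :=
  ⟨(l 1), by decide +kernel⟩

theorem s9_pm_202 : ∃ t, chk3 f_pm_202 t 16 14 1 = true := ex3_b k2_pm_202 k3_pm_202

theorem s10_pm_202 : ∃ t, chk3 f_pm_202 t 8 14 1 = true := ex3_a s9_pm_202 k4_pm_202

theorem s11_pm_202 : ∃ t, chk3 f_pm_202 t 8 7 1 = true := ex3_b s10_pm_202 k5_pm_202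

theorem s12_pm_202 : ∃ t, chk3 f_pm_202 t 4 7 1 = true := ex3_a s11_pm_202 k6_pm_202

theorem s13_pm_202 : ∃ t, chk3 f_pm_202 t 4 3 1 = true := ex3_b k1_pm_202 s12_pm_202

theorem s14_pm_202 : ∃ t, chk3 f_pm_202 t 2 3 1 = true := ex3_a s13_pm_202 k7_pm_202

theorem s15_pm_202 : ∃ t, chk3 f_pm_202 t 2 1 1 = true := ex3_b k0_pm_202 s14_pm_202

theorem s16_pm_202 : ∃ t, chk3 f_pm_202 t 1 1 1 = true := ex3_a s15_pm_202 k8_pm_202

theorem c_pm_202 : CertB 1073741824 536870912 0 536870912 966367641 24778659 3 eng mog cd2q2 cd0q2 pd0 false true false .pp 2 0 2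
    ndB2q2 ndB0q2 pcB0 Cut.none Ext.none :=
  certB2 (fam := false) (s1 := true) (s2 := false) (a := 2) (b := 0) (c := 2) (cn := .pp) (n1 := ndB2q2) (n2 := ndB0q2) (pc := pcB0) (cut := Cut.none) (xt := Ext.none) (P1 := 1073741824) (W1 := 536870912) (P2 := 0) (W2 := 536870912) (P3 := 966367641) (W3 := 24778659) (N0 := 3) (En := eng) (mo := mog) (C1 := cd2q2) (C2 := cd0q2) (C3 := pd0)
    rfl (fun _ => rfl) s16_pm_202

noncomputable def f_mm_001 : ℕ → ℕ → ℕ → ℕ → Bool := onCell 0 536870912 536870912 536870912 966367641 24778659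
    (rowB 3 eng mog cd2q0 cd0q1 pd0 0 false false false .up 0 0 1 (qsf 0 536870912 536870912 536870912 0) ndB2q0 ndB0q1 pcB0 Cut.none Ext.none)

def k0_mm_001 : ∃ t, chk3 f_mm_001 t 1 1 1 = true :=
  ⟨(l 5), by decide +kernel⟩

theorem c_mm_001 : CertB 0 536870912 536870912 536870912 966367641 24778659 3 eng mog cd2q0 cd0q1 pd0 false false false .up 0 0 1
    ndB2q0 ndB0q1 pcB0 Cut.none Ext.none :=
  certB0 (fam := false) (s1 := false) (s2 := false) (a := 0) (b := 0) (c := 1) (cn := .up) (n1 := ndB2q0) (n2 := ndB0q1) (pc := pcB0) (cut := Cut.none) (xt := Ext.none) (P1 := 0) (W1 := 536870912) (P2 := 536870912) (W2 := 536870912) (P3 := 966367641) (W3 := 24778659) (N0 := 3) (En := eng) (mo := mog) (C1 := cd2q0) (C2 := cd0q1) (C3 := pd0)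
    rfl k0_mm_001

noncomputable def f_mm_011 : ℕ → ℕ → ℕ → ℕ → Bool := onCell 0 536870912 536870912 536870912 966367641 24778659
    (rowB 3 eng mog cd2q0 cd0q1 pd1 0 false false false .pnn 0 1 1 (qsf 0 536870912 536870912 536870912 1) ndB2q0 ndB0q1 pcB1 Cut.none Ext.none)

def k0_mm_011 : ∃ t, chk3 f_mm_011 t 1 1 1 = true :=
  ⟨(l 5), by decide +kernel⟩

theorem c_mm_011 : CertB 0 536870912 536870912 536870912 966367641 24778659 3 eng mog cd2q0 cd0q1 pd1 false false false .pnn 0 1 1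
    ndB2q0 ndB0q1 pcB1 Cut.none Ext.none :=
  certB0 (fam := false) (s1 := false) (s2 := false) (a := 0) (b := 1) (c := 1) (cn := .pnn) (n1 := ndB2q0) (n2 := ndB0q1) (pc := pcB1) (cut := Cut.none) (xt := Ext.none) (P1 := 0) (W1 := 536870912) (P2 := 536870912) (W2 := 536870912) (P3 := 966367641) (W3 := 24778659) (N0 := 3) (En := eng) (mo := mog) (C1 := cd2q0) (C2 := cd0q1) (C3 := pd1)
    rfl k0_mm_011

noncomputable def f_mm_012 : ℕ → ℕ → ℕ → ℕ → Bool := onCell 0 536870912 0 536870912 966367641 24778659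
    (rowB 3 eng mog cd2q0 cd0q2 pd1 0 false false false .pnp 0 1 2 (qsf 0 536870912 0 536870912 1) ndB2q0 ndB0q2 pcB1 Cut.none Ext.none)

def k0_mm_012 : ∃ t, chk3 f_mm_012 t 1 1 1 = true :=
  ⟨(l 5), by decide +kernel⟩

theorem c_mm_012 : CertB 0 536870912 0 536870912 966367641 24778659 3 eng mog cd2q0 cd0q2 pd1 false false false .pnp 0 1 2
    ndB2q0 ndB0q2 pcB1 Cut.none Ext.none :=
  certB0 (fam := false) (s1 := false) (s2 := false) (a := 0) (b := 1) (c := 2) (cn := .pnp) (n1 := ndB2q0) (n2 := ndB0q2) (pc := pcB1) (cut := Cut.none) (xt := Ext.none) (P1 := 0) (W1 := 536870912) (P2 := 0) (W2 := 536870912) (P3 := 966367641) (W3 := 24778659) (N0 := 3) (En := eng) (mo := mog) (C1 := cd2q0) (C2 := cd0q2) (C3 := pd1)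
    rfl k0_mm_012

noncomputable def f_mm_022 : ℕ → ℕ → ℕ → ℕ → Bool := onCell 0 536870912 0 536870912 966367641 24778659
    (rowB 3 eng mog cd2q0 cd0q2 pd2 0 false false false .pp 0 2 2 (qsf 0 536870912 0 536870912 2) ndB2q0 ndB0q2 pcB2 Cut.none Ext.none)

def k0_mm_022 : ∃ t, chk3 f_mm_022 t 1 1 1 = true :=
  ⟨(l 5), by decide +kernel⟩

theorem c_mm_022 : CertB 0 536870912 0 536870912 966367641 24778659 3 eng mog cd2q0 cd0q2 pd2 false false false .pp 0 2 2
    ndB2q0 ndB0q2 pcB2 Cut.none Ext.none :=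
  certB0 (fam := false) (s1 := false) (s2 := false) (a := 0) (b := 2) (c := 2) (cn := .pp) (n1 := ndB2q0) (n2 := ndB0q2) (pc := pcB2) (cut := Cut.none) (xt := Ext.none) (P1 := 0) (W1 := 536870912) (P2 := 0) (W2 := 536870912) (P3 := 966367641) (W3 := 24778659) (N0 := 3) (En := eng) (mo := mog) (C1 := cd2q0) (C2 := cd0q2) (C3 := pd2)
    rfl k0_mm_022

noncomputable def f_mm_101 : ℕ → ℕ → ℕ → ℕ → Bool := onCell 536870912 536870912 0 536870912 966367641 24778659
    (rowB 3 eng mog cd2q1 cd0q1 pd0 1 false false false .npn 1 0 1 (qsf 536870912 536870912 536870912 536870912 0) ndB2q1 ndB0q1 pcB0 Cut.none Ext.none)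

def k0_mm_101 : ∃ t, chk3 f_mm_101 t 1 1 1 = true :=
  ⟨(a (l 5) (l 5)), by decide +kernel⟩

theorem c_mm_101 : CertB 536870912 536870912 536870912 536870912 966367641 24778659 3 eng mog cd2q1 cd0q1 pd0 false false false .npn 1 0 1
    ndB2q1 ndB0q1 pcB0 Cut.none Ext.none :=
  certB1 (fam := false) (s1 := false) (s2 := false) (a := 1) (b := 0) (c := 1) (cn := .npn) (n1 := ndB2q1) (n2 := ndB0q1) (pc := pcB0) (cut := Cut.none) (xt := Ext.none) (P1 := 536870912) (W1 := 536870912) (P2 := 536870912) (W2 := 536870912) (P3 := 966367641) (W3 := 24778659) (N0 := 3) (En := eng) (mo := mog) (C1 := cd2q1) (C2 := cd0q1) (C3 := pd0)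
    rfl (fun _ => rfl) k0_mm_101

noncomputable def f_mm_102 : ℕ → ℕ → ℕ → ℕ → Bool := onCell 536870912 536870912 0 536870912 966367641 24778659
    (rowB 3 eng mog cd2q1 cd0q2 pd0 0 false false false .npp 1 0 2 (qsf 536870912 536870912 0 536870912 0) ndB2q1 ndB0q2 pcB0 Cut.none Ext.none)

def k0_mm_102 : ∃ t, chk3 f_mm_102 t 1 1 1 = true :=
  ⟨(l 5), by decide +kernel⟩

theorem c_mm_102 : CertB 536870912 536870912 0 536870912 966367641 24778659 3 eng mog cd2q1 cd0q2 pd0 false false false .npp 1 0 2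
    ndB2q1 ndB0q2 pcB0 Cut.none Ext.none :=
  certB0 (fam := false) (s1 := false) (s2 := false) (a := 1) (b := 0) (c := 2) (cn := .npp) (n1 := ndB2q1) (n2 := ndB0q2) (pc := pcB0) (cut := Cut.none) (xt := Ext.none) (P1 := 536870912) (W1 := 536870912) (P2 := 0) (W2 := 536870912) (P3 := 966367641) (W3 := 24778659) (N0 := 3) (En := eng) (mo := mog) (C1 := cd2q1) (C2 := cd0q2) (C3 := pd0)
    rfl k0_mm_102

noncomputable def f_mm_112 : ℕ → ℕ → ℕ → ℕ → Bool := onCell 536870912 536870912 0 536870912 966367641 24778659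
    (rowB 3 eng mog cd2q1 cd0q2 pd1 0 false false false .dn 1 1 2 (qsf 536870912 536870912 0 536870912 1) ndB2q1 ndB0q2 pcB1 Cut.none Ext.none)

def k0_mm_112 : ∃ t, chk3 f_mm_112 t 1 1 1 = true :=
  ⟨(l 5), by decide +kernel⟩

theorem c_mm_112 : CertB 536870912 536870912 0 536870912 966367641 24778659 3 eng mog cd2q1 cd0q2 pd1 false false false .dn 1 1 2
    ndB2q1 ndB0q2 pcB1 Cut.none Ext.none :=
  certB0 (fam := false) (s1 := false) (s2 := false) (a := 1) (b := 1) (c := 2) (cn := .dn) (n1 := ndB2q1) (n2 := ndB0q2) (pc := pcB1) (cut := Cut.none) (xt := Ext.none) (P1 := 536870912) (W1 := 536870912) (P2 := 0) (W2 := 536870912) (P3 := 966367641) (W3 := 24778659) (N0 := 3) (En := eng) (mo := mog) (C1 := cd2q1) (C2 := cd0q2) (C3 := pd1)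
    rfl k0_mm_112

noncomputable def f_mm_202 : ℕ → ℕ → ℕ → ℕ → Bool := onCell 1073741824 536870912 0 536870912 966367641 24778659
    (rowB 3 eng mog cd2q2 cd0q2 pd0 0 false false false .pp 2 0 2 (qsf 1073741824 536870912 0 536870912 0) ndB2q2 ndB0q2 pcB0 Cut.none Ext.none)

def k0_mm_202 : ∃ t, chk3 f_mm_202 t 1 1 1 = true :=
  ⟨(l 3), by decide +kernel⟩

theorem c_mm_202 : CertB 1073741824 536870912 0 536870912 966367641 24778659 3 eng mog cd2q2 cd0q2 pd0 false false false .pp 2 0 2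
    ndB2q2 ndB0q2 pcB0 Cut.none Ext.none :=
  certB0 (fam := false) (s1 := false) (s2 := false) (a := 2) (b := 0) (c := 2) (cn := .pp) (n1 := ndB2q2) (n2 := ndB0q2) (pc := pcB0) (cut := Cut.none) (xt := Ext.none) (P1 := 1073741824) (W1 := 536870912) (P2 := 0) (W2 := 536870912) (P3 := 966367641) (W3 := 24778659) (N0 := 3) (En := eng) (mo := mog) (C1 := cd2q2) (C2 := cd0q2) (C3 := pd0)
    rfl k0_mm_202

end Pool.Agent.Strip051.G.I9000_9231.Tab.C.BB20

namespace Pool.Agent.Strip051.G.I9000_9231.Tab.C.BB21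

open Pool.Agent.Strip051.PB Pool.Agent.Strip051.PB.T
open Pool.Agent.Strip051.G.I9000_9231.Tab

noncomputable def f_pp_001 : ℕ → ℕ → ℕ → ℕ → Bool := onCell 0 536870912 536870912 536870912 966367641 24778659
    (rowB 3 eng mog cd2q0 cd1q1 pd0 0 false true true .up 0 0 1 (qsf 0 536870912 536870912 536870912 0) ndB2q0 ndB1q1 pcB0 Cut.none Ext.none)

def k0_pp_001 : ∃ t, chk3 f_pp_001 t 1 1 1 = true :=
  ⟨(l 3), by decide +kernel⟩

theorem c_pp_001 : CertB 0 536870912 536870912 536870912 966367641 24778659 3 eng mog cd2q0 cd1q1 pd0 false true true .up 0 0 1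
    ndB2q0 ndB1q1 pcB0 Cut.none Ext.none :=
  certB0 (fam := false) (s1 := true) (s2 := true) (a := 0) (b := 0) (c := 1) (cn := .up) (n1 := ndB2q0) (n2 := ndB1q1) (pc := pcB0) (cut := Cut.none) (xt := Ext.none) (P1 := 0) (W1 := 536870912) (P2 := 536870912) (W2 := 536870912) (P3 := 966367641) (W3 := 24778659) (N0 := 3) (En := eng) (mo := mog) (C1 := cd2q0) (C2 := cd1q1) (C3 := pd0)
    rfl k0_pp_001

noncomputable def f_pp_011 : ℕ → ℕ → ℕ → ℕ → Bool := onCell 0 536870912 536870912 536870912 966367641 24778659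
    (rowB 3 eng mog cd2q0 cd1q1 pd1 0 false true true .pnn 0 1 1 (qsf 0 536870912 536870912 536870912 1) ndB2q0 ndB1q1 pcB1 Cut.none Ext.none)

def k0_pp_011 : ∃ t, chk3 f_pp_011 t 1 1 1 = true :=
  ⟨(l 3), by decide +kernel⟩

theorem c_pp_011 : CertB 0 536870912 536870912 536870912 966367641 24778659 3 eng mog cd2q0 cd1q1 pd1 false true true .pnn 0 1 1
    ndB2q0 ndB1q1 pcB1 Cut.none Ext.none :=
  certB0 (fam := false) (s1 := true) (s2 := true) (a := 0) (b := 1) (c := 1) (cn := .pnn) (n1 := ndB2q0) (n2 := ndB1q1) (pc := pcB1) (cut := Cut.none) (xt := Ext.none) (P1 := 0) (W1 := 536870912) (P2 := 536870912) (W2 := 536870912) (P3 := 966367641) (W3 := 24778659) (N0 := 3) (En := eng) (mo := mog) (C1 := cd2q0) (C2 := cd1q1) (C3 := pd1)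
    rfl k0_pp_011

noncomputable def f_pp_012_a : ℕ → ℕ → ℕ → ℕ → Bool := onCell 0 536870912 0 536870912 966367641 24778659
    (rowB 3 eng mog cd2q0 cd1q2a pd1 0 false true true .pnp 0 1 2 (qsf 0 536870912 0 536870912 1) ndB2q0 ndB1q2a pcB1 Cut.none Ext.none)

def k0_pp_012_a : ∃ t, chk3 f_pp_012_a t 2 2 1 = true :=
  ⟨(a (b (l 2) (a (l 2) (a (l 2) (a (l 2) (b (l 2) (l 16322448)))))) (a (b (a (l 16125232) (l 16077232)) (a (b (l 16246504) (l 16256848)) (b (l 16141728) (l 16164144)))) (b (a (l 15971840) (l 15871928)) (a (b (l 16042232) (l 16073680)) (l 15964768))))), by decide +kernel⟩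

def k1_pp_012_a : ∃ t, chk3 f_pp_012_a t 4 3 1 = true :=
  ⟨(b (a (l 2) (a (b (l 2) (a (b (l 2) (l 16293864)) (b (l 16361840) (l 16375232)))) (b (a (l 16301176) (l 16272992)) (a (b (l 16358912) (l 16379352)) (b (l 16360432) (l 16385216)))))) (a (b (a (l 2) (a (b (l 2) (b (l 2) (l 16488600))) (b (a (l 2) (l 16393120)) (a (l 16433328) (l 16350216))))) (a (b (a (l 2) (b (a (l 2) (l 16547776)) (a (l 16589024) (l 16558072)))) (a (a (b (l 2) (b (l 16666880) (l 16673368))) (b (b (l 16627176) (l 16632496)) (b (l 16639472) (l 16644760)))) (b (a (b (l 16597352) (l 16604864)) (l 16573600)) (b (l 16592624) (l 16602304))))) (a (b (b (l 16499296) (l 16472528)) (b (b (l 16526736) (l 16521544)) (b (l 16530320) (l 16541736)))) (b (a (l 16462872) (b (l 16415792) (l 16431304))) (a (b (l 16465856) (l 16484872)) (b (l 16442320) (c (l 16465408) (l 16456792)))))))) (a (b (a (b (a (l 16392504) (l 16394008)) (c (l 16410608) (l 16428536))) (b (l 16356472) (a (l 16427832) (l 16432632))))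 (a (b (b (l 16360920) (a (l 16447424) (l 16431136))) (b (a (l 16442928) (l 16443000)) (a (b (l 16456728) (l 16467288)) (l 16462064)))) (a (b (l 16398024) (b (l 16442008) (l 16461656))) (b (l 16381072) (b (l 16440896) (l 16460792)))))) (b (a (b (l 16407520) (l 16334416)) (b (l 16414968) (a (l 16444216) (l 16440696)))) (b (a (c (l 16403920) (l 16432328)) (c (l 16395304) (l 16395296))) (a (b (l 16405184) (c (l 16400744) (l 16293592))) (a (b (l 16330648) (l 16251992)) (b (l 16283888) (l 16216936))))))))), by decide +kernel⟩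

def k2_pp_012_a : ∃ t, chk3 f_pp_012_a t 5 3 1 = true :=
  ⟨(b (a (b (a (b (l 16274408) (l 16292208)) (l 16201040)) (a (b (l 16314920) (l 16342408)) (l 16250048))) (b (a (l 16114744) (l 16028840)) (a (l 16165896) (l 16081224)))) (a (b (a (b (a (l 16390416) (l 16351024)) (l 16385472)) (b (l 16288104) (l 16292192))) (b (a (a (l 16324040) (l 16256896)) (b (l 16218176) (l 16149608))) (a (b (l 16253992) (a (l 16115816) (l 16038824))) (b (l 16066352) (l 15993392))))) (b (a (b (l 16201840) (l 16209608)) (l 16130744)) (b (a (l 16138280) (l 16123448)) (a (b (l 16029240) (l 15943992)) (b (l 16033936) (l 15853144))))))), by decide +kernel⟩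

def k3_pp_012_a : ∃ t, chk3 f_pp_012_a t 3 1 1 = true :=
  ⟨(b (a (a (b (l 15734784) (b (l 15810216) (l 15854624))) (b (l 15580400) (b (l 15655080) (l 15709040)))) (b (a (l 15470672) (l 15409856)) (a (b (l 15539952) (l 15601536)) (b (l 15471344) (l 15535856))))) (b (a (a (b (l 15906400) (a (l 16002864) (l 15932648))) (b (l 15770760) (c (l 15852544) (l 15835584)))) (a (b (l 15863192) (c (l 15753712) (l 15744040))) (b (l 15871384) (c (l 15720152) (l 15694592))))) (a (a (b (a (l 16061424) (b (l 15984288) (l 16017888))) (b (a (l 16087936) (l 16046552)) (a (b (l 16065016) (l 15998136)) (b (l 16059552) (l 16054024))))) (b (a (c (l 15954296) (l 15943960)) (l 15758848)) (b (a (l 16007696) (l 15974904)) (a (b (l 16033984) (l 16048432)) (b (l 16009864) (l 16032424)))))) (a (b (b (l 15831984) (a (l 15897040) (l 15876232))) (b (a (l 15950480) (l 15936112)) (a (b (l 15992224) (l 16020592)) (b (l 15983920) (l 16038128))))) (b (b (l 15782224) (c (l 15871152) (l 15819424)))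 (b (a (l 15933216) (l 15942864)) (a (b (l 15986816) (a (l 16021648) (l 16028360))) (b (l 16002320) (a (l 16038312) (l 16051672)))))))))), by decide +kernel⟩

theorem s4_pp_012_a : ∃ t, chk3 f_pp_012_a t 2 3 1 = true := ex3_a k1_pp_012_a k2_pp_012_a

theorem s5_pp_012_a : ∃ t, chk3 f_pp_012_a t 2 1 1 = true := ex3_b k0_pp_012_a s4_pp_012_a

theorem s6_pp_012_a : ∃ t, chk3 f_pp_012_a t 1 1 1 = true := ex3_a s5_pp_012_a k3_pp_012_a

theorem c_pp_012_a : CertB 0 536870912 0 536870912 966367641 24778659 3 eng mog cd2q0 cd1q2a pd1 false true true .pnp 0 1 2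
    ndB2q0 ndB1q2a pcB1 Cut.none Ext.none :=
  certB0 (fam := false) (s1 := true) (s2 := true) (a := 0) (b := 1) (c := 2) (cn := .pnp) (n1 := ndB2q0) (n2 := ndB1q2a) (pc := pcB1) (cut := Cut.none) (xt := Ext.none) (P1 := 0) (W1 := 536870912) (P2 := 0) (W2 := 536870912) (P3 := 966367641) (W3 := 24778659) (N0 := 3) (En := eng) (mo := mog) (C1 := cd2q0) (C2 := cd1q2a) (C3 := pd1)
    rfl s6_pp_012_a

noncomputable def f_pp_012_b : ℕ → ℕ → ℕ → ℕ → Bool := onCell 0 536870912 1239849684 370763052 966367641 24778659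
    (rowB 3 eng mog cd2q0 cd1q2b pd1 0 false true true .pnp 0 1 2 (qsf 0 536870912 1239849684 370763052 1) ndB2q0 ndB1q2b pcB1 Cut.none Ext.none)

def k0_pp_012_b : ∃ t, chk3 f_pp_012_b t 1 1 1 = true :=
  ⟨(a (b (a (l 2) (b (a (b (a (l 16032888) (l 15930048)) (l 2)) (b (l 15784672) (l 15629432))) (a (l 2) (b (l 15451088) (l 2))))) (l 2)) (b (a (b (a (b (l 15614144) (l 15477952)) (l 15415152)) (a (a (l 15263688) (l 15211464)) (l 15142176))) (b (a (l 15448280) (l 15274864)) (a (l 15077616) (l 15050168)))) (a (b (a (l 2) (l 14795472)) (l 2)) (b (a (l 14778096) (l 14784480)) (a (l 14397952) (l 14462168)))))), by decide +kernel⟩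

theorem c_pp_012_b : CertB 0 536870912 1239849684 370763052 966367641 24778659 3 eng mog cd2q0 cd1q2b pd1 false true true .pnp 0 1 2
    ndB2q0 ndB1q2b pcB1 Cut.none Ext.none :=
  certB0 (fam := false) (s1 := true) (s2 := true) (a := 0) (b := 1) (c := 2) (cn := .pnp) (n1 := ndB2q0) (n2 := ndB1q2b) (pc := pcB1) (cut := Cut.none) (xt := Ext.none) (P1 := 0) (W1 := 536870912) (P2 := 1239849684) (W2 := 370763052) (P3 := 966367641) (W3 := 24778659) (N0 := 3) (En := eng) (mo := mog) (C1 := cd2q0) (C2 := cd1q2b) (C3 := pd1)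
    rfl k0_pp_012_b

noncomputable def f_pp_022_a : ℕ → ℕ → ℕ → ℕ → Bool := onCell 0 536870912 0 536870912 966367641 24778659
    (rowB 3 eng mog cd2q0 cd1q2a pd2 0 false true true .pp 0 2 2 (qsf 0 536870912 0 536870912 2) ndB2q0 ndB1q2a pcB2 Cut.none Ext.none)

def k0_pp_022_a : ∃ t, chk3 f_pp_022_a t 2 2 1 = true :=
  ⟨(a (a (a (b (c (l 16285960) (l 16185712)) (a (b (l 16291656) (l 16235328)) (b (l 16422296) (l 16453512)))) (a (b (l 16518296) (b (l 16549656) (l 16567648))) (b (a (l 16455016) (l 16420720)) (a (l 16490368) (b (l 16445000) (l 16435520)))))) (a (b (a (l 16353416) (l 16342872)) (a (b (l 16374584) (l 16299832)) (b (l 16380776) (l 16260968)))) (b (a (l 16313664) (l 16222824)) (a (b (l 16347264) (c (l 16325992) (l 16375280))) (b (l 16252000) (c (l 16287488) (l 16342904))))))) (a (b (a (l 16052520) (l 853656419063)) (a (b (l 16052440) (c (l 492342554903) (l 16159544))) (l 1))) (l 1))), by decide +kernel⟩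

def k1_pp_022_a : ∃ t, chk3 f_pp_022_a t 2 3 1 = true :=
  ⟨(a (b (a (b (a (a (c (l 16357208) (l 16326792)) (l 16348888)) (a (l 16512504) (a (l 16498544) (l 16351536)))) (c (a (b (l 16363136) (l 16376576)) (a (l 16463904) (a (l 16467568) (l 16338280)))) (a (a (l 16290328) (l 16519808)) (a (l 16499256) (a (l 16497664) (l 16389384)))))) (a (a (b (c (l 16361952) (l 16421832)) (c (b (l 16389400) (a (l 16387064) (l 16360792))) (b (l 16428904) (l 116533555047)))) (b (c (l 16315256) (l 16384240)) (b (c (l 16298288) (l 16388560)) (c (a (l 16335192) (l 1)) (l 368862792887))))) (b (a (c (b (l 16318048) (l 16308448)) (l 16285120)) (c (b (l 16277496) (l 1)) (l 408591104679))) (a (b (c (l 428992180231) (l 401611887127)) (l 1)) (l 1))))) (a (a (b (a (b (b (l 16452832) (l 16474560)) (b (l 16515672) (l 16560688))) (b (l 16526288) (b (l 16551912) (l 16495976)))) (b (b (a (l 16567928) (c (l 16554392) (l 16551216))) (a (b (l 16601240) (l 16549816)) (a (l 16573216) (l 355441460423))))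 (a (b (a (b (l 16715672) (l 16703632)) (b (l 16636552) (l 233571979543))) (a (c (l 16619456) (l 16622120)) (a (l 479458892183) (l 1)))) (a (b (b (l 16598824) (l 1)) (l 1)) (l 1))))) (a (b (b (c (l 16505376) (l 16491536)) (b (l 16415504) (a (l 16534000) (l 16431704)))) (b (a (b (l 355978243783) (l 1)) (l 1)) (l 1))) (b (a (b (l 16389472) (b (l 16430016) (l 448319833495))) (b (c (l 170757542935) (l 16394800)) (b (a (l 447782956135) (l 1)) (l 1)))) (l 1)))) (a (b (a (b (a (c (l 380674026359) (l 16372408)) (b (l 405906896759) (l 1))) (l 1)) (l 1)) (l 1)) (l 1)))) (b (l 1) (l 1))), by decide +kernel⟩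

def k2_pp_022_a : ∃ t, chk3 f_pp_022_a t 3 1 1 = true :=
  ⟨(l 1), by decide +kernel⟩

theorem s3_pp_022_a : ∃ t, chk3 f_pp_022_a t 2 1 1 = true := ex3_b k0_pp_022_a k1_pp_022_a

theorem s4_pp_022_a : ∃ t, chk3 f_pp_022_a t 1 1 1 = true := ex3_a s3_pp_022_a k2_pp_022_a

theorem c_pp_022_a : CertB 0 536870912 0 536870912 966367641 24778659 3 eng mog cd2q0 cd1q2a pd2 false true true .pp 0 2 2
    ndB2q0 ndB1q2a pcB2 Cut.none Ext.none :=
  certB0 (fam := false) (s1 := true) (s2 := true) (a := 0) (b := 2) (c := 2) (cn := .pp) (n1 := ndB2q0) (n2 := ndB1q2a) (pc := pcB2) (cut := Cut.none) (xt := Ext.none) (P1 := 0) (W1 := 536870912) (P2 := 0) (W2 := 536870912) (P3 := 966367641) (W3 := 24778659) (N0 := 3) (En := eng) (mo := mog) (C1 := cd2q0) (C2 := cd1q2a) (C3 := pd2)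
    rfl s4_pp_022_a

noncomputable def f_pp_022_b : ℕ → ℕ → ℕ → ℕ → Bool := onCell 0 536870912 1239849684 370763052 966367641 24778659
    (rowB 3 eng mog cd2q0 cd1q2b pd2 0 false true true .pp 0 2 2 (qsf 0 536870912 1239849684 370763052 2) ndB2q0 ndB1q2b pcB2 Cut.none Ext.none)

def k0_pp_022_b : ∃ t, chk3 f_pp_022_b t 1 1 1 = true :=
  ⟨(a (b (a (b (a (a (b (c (l 16285744) (l 16295528)) (c (l 16228672) (l 16275664))) (a (b (l 16458896) (l 16373936)) (b (a (l 16401168) (l 16327920)) (l 16308712)))) (a (a (c (l 16331616) (l 16163528)) (b (l 16297424) (l 16245816))) (b (a (l 16292232) (l 16225432)) (a (l 16220568) (l 16196528))))) (a (a (b (c (l 16157776) (l 16223128)) (l 15925624)) (a (l 16147088) (b (l 16224520) (l 16132616)))) (a (a (l 15980312) (l 16123256)) (c (l 15984752) (l 15857184))))) (b (a (b (a (l 16084144) (l 15836016)) (a (l 16124992) (l 16013408))) (b (a (l 613674822919) (l 1)) (a (l 15894288) (l 15768232)))) (a (b (l 15880624) (l 15790600))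 (b (l 15726280) (l 15654976))))) (a (b (a (a (b (l 15961536) (l 15997152)) (a (l 16014880) (b (l 16033472) (l 15928704)))) (a (b (l 15995912) (l 15907240)) (b (l 15954096) (l 15888128)))) (a (a (b (c (l 15919736) (l 15799760)) (l 15832424)) (a (b (l 15874176) (l 15856728)) (b (l 15872648) (l 15865680)))) (a (b (l 15869232) (l 15865960)) (b (l 15861264) (l 15857600))))) (b (a (b (a (l 15901992) (l 15833248)) (l 15764944)) (b (l 15696440) (l 15678152))) (a (b (l 15814464) (l 15822072)) (b (l 15683952) (l 15712520)))))) (b (a (b (l 1) (a (b (a (l 15600656) (l 15448448)) (l 15477120)) (b (l 1) (l 585755962295)))) (l 1)) (a (b (a (b (l 15451520) (l 15452808)) (b (l 15141880) (l 15160288))) (a (b (l 15480552) (l 15533536)) (b (l 15207040) (l 15279312)))) (b (a (b (l 1) (l 14820120)) (l 1)) (a (b (l 14878024) (l 14966816)) (b (l 14521536) (l 14614144))))))), by decide +kernel⟩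

theorem c_pp_022_b : CertB 0 536870912 1239849684 370763052 966367641 24778659 3 eng mog cd2q0 cd1q2b pd2 false true true .pp 0 2 2
    ndB2q0 ndB1q2b pcB2 Cut.none Ext.none :=
  certB0 (fam := false) (s1 := true) (s2 := true) (a := 0) (b := 2) (c := 2) (cn := .pp) (n1 := ndB2q0) (n2 := ndB1q2b) (pc := pcB2) (cut := Cut.none) (xt := Ext.none) (P1 := 0) (W1 := 536870912) (P2 := 1239849684) (W2 := 370763052) (P3 := 966367641) (W3 := 24778659) (N0 := 3) (En := eng) (mo := mog) (C1 := cd2q0) (C2 := cd1q2b) (C3 := pd2)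
    rfl k0_pp_022_b

noncomputable def f_pp_023 : ℕ → ℕ → ℕ → ℕ → Bool := onCell 0 536870912 1610612736 536870912 966367641 24778659
    (rowB 3 eng mog cd2q0 cd1q3 pd2 0 false true true .up 0 2 3 (qsf 0 536870912 1610612736 536870912 2) ndB2q0 ndB1q3 pcB2 Cut.none Ext.none)

def k0_pp_023 : ∃ t, chk3 f_pp_023 t 1 1 1 = true :=
  ⟨(b (a (a (b (a (a (b (b (l 15606272) (l 15611416)) (l 2)) (b (a (l 15643616) (l 15658808)) (a (l 2) (l 15720144)))) (b (a (b (l 15649240) (l 15674208)) (l 15651744)) (a (b (l 15709608) (l 15751080)) (l 15725064)))) (a (l 2) (b (a (l 2) (l 15764288)) (l 2)))) (b (b (a (l 15623880) (l 15326280)) (a (b (l 15689512) (l 15748552)) (l 15658432))) (b (a (b (l 15816496) (l 15893352)) (l 15750880)) (a (b (l 15951136) (l 2)) (b (l 15988192) (l 4)))))) (a (b (b (a (l 15379664) (l 15077584)) (a (l 15431776) (l 15348328))) (b (a (l 15741912) (l 15506112)) (a (b (l 15930840) (l 16048640)) (l 15870736)))) (b (b (a (l 14878064) (l 14551816))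 (a (l 15062320) (l 14800304))) (b (a (l 15375832) (l 14861280)) (a (b (l 15614112) (l 15783312)) (l 15442504)))))) (b (a (l 4) (b (a (a (l 4) (b (l 4) (l 4))) (a (l 16254856) (l 16037328))) (l 4))) (l 4))), by decide +kernel⟩

theorem c_pp_023 : CertB 0 536870912 1610612736 536870912 966367641 24778659 3 eng mog cd2q0 cd1q3 pd2 false true true .up 0 2 3
    ndB2q0 ndB1q3 pcB2 Cut.none Ext.none :=
  certB0 (fam := false) (s1 := true) (s2 := true) (a := 0) (b := 2) (c := 3) (cn := .up) (n1 := ndB2q0) (n2 := ndB1q3) (pc := pcB2) (cut := Cut.none) (xt := Ext.none) (P1 := 0) (W1 := 536870912) (P2 := 1610612736) (W2 := 536870912) (P3 := 966367641) (W3 := 24778659) (N0 := 3) (En := eng) (mo := mog) (C1 := cd2q0) (C2 := cd1q3) (C3 := pd2)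
    rfl k0_pp_023

noncomputable def f_pp_033 : ℕ → ℕ → ℕ → ℕ → Bool := onCell 0 536870912 1610612736 536870912 966367641 24778659
    (rowB 3 eng mog cd2q0 cd1q3 pd3 1 false true true .pnn 0 3 3 (qsf 0 536870912 1610612736 536870912 3) ndB2q0 ndB1q3 pcB3 Cut.none Ext.none)

def k0_pp_033 : ∃ t, chk3 f_pp_033 t 1 1 1 = true :=
  ⟨(a (b (a (b (a (b (a (b (l 15697960) (l 15631616)) (a (l 15790184) (l 15856112))) (a (b (l 15558528) (l 15482408)) (a (l 15650120) (b (l 15769800) (l 15704512))))) (b (a (b (l 15872336) (l 15859352)) (l 15832504)) (a (b (l 15813184) (l 15757968)) (b (l 15852440) (l 15809368))))) (a (b (a (b (l 15407296) (l 15343080)) (b (a (l 15551152) (l 15649216)) (l 4))) (l 4)) (b (a (l 4) (l 4)) (l 4)))) (b (b (a (b (l 15934368) (l 15955784)) (b (l 16063976) (l 4))) (a (b (l 15969040) (l 4)) (l 4))) (l 4))) (a (l 4) (b (l 4) (a (b (l 4) (l 2)) (l 2))))) (b (a (b (l 4) (l 4)) (b (l 4) (a (b (l 4) (l 2)) (l 2)))) (a (b (a (b (l 4) (l 2)) (l 2))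 (l 2)) (l 2)))), by decide +kernel⟩

theorem c_pp_033 : CertB 0 536870912 1610612736 536870912 966367641 24778659 3 eng mog cd2q0 cd1q3 pd3 false true true .pnn 0 3 3
    ndB2q0 ndB1q3 pcB3 Cut.none Ext.none :=
  certB1 (fam := false) (s1 := true) (s2 := true) (a := 0) (b := 3) (c := 3) (cn := .pnn) (n1 := ndB2q0) (n2 := ndB1q3) (pc := pcB3) (cut := Cut.none) (xt := Ext.none) (P1 := 0) (W1 := 536870912) (P2 := 1610612736) (W2 := 536870912) (P3 := 966367641) (W3 := 24778659) (N0 := 3) (En := eng) (mo := mog) (C1 := cd2q0) (C2 := cd1q3) (C3 := pd3)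
    rfl (fun _ => rfl) k0_pp_033

noncomputable def f_pp_101 : ℕ → ℕ → ℕ → ℕ → Bool := onCell 536870912 536870912 536870912 536870912 966367641 24778659
    (rowB 3 eng mog cd2q1 cd1q1 pd0 0 false true true .npn 1 0 1 (qsf 536870912 536870912 536870912 536870912 0) ndB2q1 ndB1q1 pcB0 Cut.none Ext.none)

def k0_pp_101 : ∃ t, chk3 f_pp_101 t 1 1 1 = true :=
  ⟨(l 3), by decide +kernel⟩

theorem c_pp_101 : CertB 536870912 536870912 536870912 536870912 966367641 24778659 3 eng mog cd2q1 cd1q1 pd0 false true true .npn 1 0 1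
    ndB2q1 ndB1q1 pcB0 Cut.none Ext.none :=
  certB0 (fam := false) (s1 := true) (s2 := true) (a := 1) (b := 0) (c := 1) (cn := .npn) (n1 := ndB2q1) (n2 := ndB1q1) (pc := pcB0) (cut := Cut.none) (xt := Ext.none) (P1 := 536870912) (W1 := 536870912) (P2 := 536870912) (W2 := 536870912) (P3 := 966367641) (W3 := 24778659) (N0 := 3) (En := eng) (mo := mog) (C1 := cd2q1) (C2 := cd1q1) (C3 := pd0)
    rfl k0_pp_101

noncomputable def cut_pp_102_a : Cut := Cut.of [[⟨0, 1, 0, 67108864⟩, ⟨1, 0, 0, 67108864⟩, ⟨2, 1, 0, 67108864⟩]]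

noncomputable def f_pp_102_a : ℕ → ℕ → ℕ → ℕ → Bool := onCell 0 536870912 0 536870912 966367641 24778659
    (rowB 3 eng mog cd2q1 cd1q2a pd0 2 false true true .npp 1 0 2 (qsf 536870912 536870912 0 536870912 0) ndB2q1 ndB1q2a pcB0 cut_pp_102_a Ext.none)

def k0_pp_102_a : ∃ t, chk3 f_pp_102_a t 2 2 1 = true :=
  ⟨(a (b (l 2) (a (l 2) (a (l 2) (b (l 2) (a (l 2) (l 15521616)))))) (a (b (a (b (l 15121440) (a (l 2) (l 15246736))) (b (l 15166624) (l 15259760))) (a (b (l 15374976) (l 15537056)) (b (l 15390376) (l 15548416)))) (b (a (b (l 15185472) (l 15283000)) (l 15258328)) (b (l 15414392) (a (l 15560160) (l 15573048)))))), by decide +kernel⟩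

def k1_pp_102_a : ∃ t, chk3 f_pp_102_a t 4 3 1 = true :=
  ⟨(b (a (l 2) (a (b (l 2) (a (b (l 2) (a (l 2) (l 15999248))) (b (l 15867784) (l 16011488)))) (b (a (c (l 15731864) (l 15671352)) (c (l 15755248) (l 15694280))) (a (b (l 15886600) (l 16022440)) (b (l 15899424) (l 16027936)))))) (a (a (b (l 2) (l 6)) (a (b (b (l 2) (l 6)) (l 6)) (a (b (b (l 2) (l 6)) (l 6)) (a (b (b (l 16142144) (l 6)) (l 6)) (b (b (l 16146616) (l 16386640)) (b (b (l 16448568) (l 16519368)) (b (l 16592128) (c (l 16622192) (l 16659208))))))))) (a (b (b (a (b (l 16113880) (l 16197104)) (l 16227424)) (a (b (l 16282920) (a (l 16367472) (l 16362664))) (b (l 16281304) (l 16351288)))) (b (a (b (l 16436632) (a (l 16511784) (l 16502000))) (b (l 16418776) (c (l 16493272) (l 16483168)))) (b (a (a (l 16542304) (l 16574016)) (b (l 16541504) (l 16577656))) (b (a (b (l 16604088) (l 16601768)) (l 16572304)) (a (c (l 16625968) (l 16676096)) (b (l 16599976) (l 16618576))))))) (b (b (a (a (l 16167264)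 (l 16166600)) (b (l 16129896) (l 16193992))) (a (b (l 16270792) (l 16336240)) (l 16354280))) (b (a (b (l 16403344) (l 16472336)) (b (l 16390416) (l 16459040))) (b (a (b (l 16525128) (l 16560944)) (l 16466424)) (a (c (l 16547648) (l 16599760)) (c (l 16552400) (l 16608208))))))))), by decide +kernel⟩

def k2_pp_102_a : ∃ t, chk3 f_pp_102_a t 5 3 1 = true :=
  ⟨(b (a (b (a (a (l 15732304) (l 15735096)) (l 15739232)) (a (b (l 15901968) (a (l 16027712) (l 16025744))) (b (l 15901816) (a (l 16020632) (l 16015512))))) (b (a (l 15745152) (l 15754176)) (a (b (l 15903536) (l 16012232)) (b (l 15901376) (l 16012848))))) (a (b (a (b (a (l 16152744) (l 16146576)) (a (l 16280696) (l 16271776))) (b (l 16205328) (a (l 16264520) (l 16258872)))) (a (b (a (b (l 16379256) (l 16447416)) (b (l 16369752) (l 16437384))) (b (a (l 16496160) (l 16485472)) (a (c (l 16579624) (l 16597112)) (l 16492840)))) (b (c (l 16288712) (l 16307064)) (a (b (l 16497248) (l 16545696)) (b (l 16468552)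 (l 16537048)))))) (b (a (b (l 16130296) (a (l 16254776) (l 16252192))) (b (l 16128672) (l 16250032))) (a (b (b (l 16348968) (l 16372488)) (a (b (l 16462280) (l 16550776)) (b (l 16478368) (l 16544872)))) (b (b (l 16343648) (l 16407488)) (b (l 16471936) (l 16399120))))))), by decide +kernel⟩

def k3_pp_102_a : ∃ t, chk3 f_pp_102_a t 3 1 1 = true :=
  ⟨(a (b (b (a (l 15292192) (l 15346952)) (a (b (l 15452128) (l 15595672)) (b (l 15499088) (l 15633120)))) (b (a (b (a (l 15764856) (l 15773768)) (a (l 16025696) (l 15969216))) (b (a (l 15783896) (l 15797512)) (a (l 15976712) (l 15985104)))) (a (b (a (b (l 16129576) (l 16247920)) (b (l 16131144) (l 16245184))) (a (b (l 16369832) (b (l 16461992) (l 16433240))) (b (l 16361736) (b (l 16448976) (l 16429160))))) (b (a (b (l 16131944) (l 16240424)) (l 15954024)) (a (b (l 16350304) (b (l 16431592) (l 16388136))) (b (l 16336912) (l 16215120))))))) (b (a (b (l 15414352) (b (l 15556744) (l 15684984))) (b (l 15495160) (b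 (l 15625608) (l 15739264)))) (b (a (b (a (l 15816176) (l 15839152)) (a (l 15994472) (l 16004432))) (b (l 15872120) (a (l 16014704) (l 16024992)))) (a (b (a (l 16035184) (l 16178744)) (a (b (l 16322528) (b (l 16379568) (l 16314008))) (b (l 16306728) (b (l 16345648) (l 16280040))))) (b (a (l 16174736) (l 16169712)) (a (b (l 16289320) (b (l 16313744) (l 16248424))) (b (l 16270096) (b (l 16284016) (l 16219296))))))))), by decide +kernel⟩

theorem s4_pp_102_a : ∃ t, chk3 f_pp_102_a t 2 3 1 = true := ex3_a k1_pp_102_a k2_pp_102_a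

theorem s5_pp_102_a : ∃ t, chk3 f_pp_102_a t 2 1 1 = true := ex3_b k0_pp_102_a s4_pp_102_a

theorem s6_pp_102_a : ∃ t, chk3 f_pp_102_a t 1 1 1 = true := ex3_a s5_pp_102_a k3_pp_102_a

theorem c_pp_102_a : CertB 536870912 536870912 0 536870912 966367641 24778659 3 eng mog cd2q1 cd1q2a pd0 false true true .npp 1 0 2
    ndB2q1 ndB1q2a pcB0 cut_pp_102_a Ext.none :=
  certB2 (fam := false) (s1 := true) (s2 := true) (a := 1) (b := 0) (c := 2) (cn := .npp) (n1 := ndB2q1) (n2 := ndB1q2a) (pc := pcB0) (cut := cut_pp_102_a) (xt := Ext.none) (P1 := 536870912) (W1 := 536870912) (P2 := 0) (W2 := 536870912) (P3 := 966367641) (W3 := 24778659) (N0 := 3) (En := eng) (mo := mog) (C1 := cd2q1) (C2 := cd1q2a) (C3 := pd0)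
    rfl (fun _ => rfl) s6_pp_102_a

noncomputable def cut_pp_102_b : Cut := Cut.of [[⟨0, 1, 0, 67108864⟩, ⟨1, 0, 0, 67108864⟩, ⟨2, 1, 0, 67108864⟩]]

noncomputable def f_pp_102_b : ℕ → ℕ → ℕ → ℕ → Bool := onCell 0 536870912 1239849684 370763052 966367641 24778659
    (rowB 3 eng mog cd2q1 cd1q2b pd0 2 false true true .npp 1 0 2 (qsf 536870912 536870912 1239849684 370763052 0) ndB2q1 ndB1q2b pcB0 cut_pp_102_b Ext.none)

def k0_pp_102_b : ∃ t, chk3 f_pp_102_b t 1 1 1 = true :=
  ⟨(a (b (a (l 2) (a (b (a (b (l 14919096) (l 2)) (l 14820936)) (l 2)) (b (a (l 14868544) (l 14902168)) (a (l 2) (l 14317944))))) (l 2)) (a (b (a (b (a (l 14936560) (l 14973488)) (l 14531320)) (b (l 15035336) (l 14530920))) (a (l 2) (b (l 13980800) (l 2)))) (b (b (a (l 15128936) (l 15237352)) (a (l 14669016) (l 14821440))) (b (a (l 14163384) (l 14359328)) (a (l 13620368) (l 13860232)))))), by decide +kernel⟩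

theorem c_pp_102_b : CertB 536870912 536870912 1239849684 370763052 966367641 24778659 3 eng mog cd2q1 cd1q2b pd0 false true true .npp 1 0 2
    ndB2q1 ndB1q2b pcB0 cut_pp_102_b Ext.none :=
  certB2 (fam := false) (s1 := true) (s2 := true) (a := 1) (b := 0) (c := 2) (cn := .npp) (n1 := ndB2q1) (n2 := ndB1q2b) (pc := pcB0) (cut := cut_pp_102_b) (xt := Ext.none) (P1 := 536870912) (W1 := 536870912) (P2 := 1239849684) (W2 := 370763052) (P3 := 966367641) (W3 := 24778659) (N0 := 3) (En := eng) (mo := mog) (C1 := cd2q1) (C2 := cd1q2b) (C3 := pd0)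
    rfl (fun _ => rfl) k0_pp_102_b

noncomputable def f_pp_112_a : ℕ → ℕ → ℕ → ℕ → Bool := onCell 536870912 536870912 0 536870912 966367641 24778659
    (rowB 3 eng mog cd2q1 cd1q2a pd1 2 false true true .dn 1 1 2 (qsf 536870912 536870912 0 536870912 1) ndB2q1 ndB1q2a pcB1 Cut.none Ext.none)

def k0_pp_112_a : ∃ t, chk3 f_pp_112_a t 1 1 1 = true :=
  ⟨(a (a (b (b (l 15632904) (a (b (l 15651128) (l 15723200)) (l 15734632))) (b (a (b (l 15849936) (l 15987664)) (b (l 15893568) (l 16001024))) (a (a (b (l 16126008) (b (l 16226360) (l 16049144))) (b (l 16121624) (l 629781575271))) (b (l 438655620759) (l 1))))) (b (b (l 15693856) (a (l 15785144) (l 1))) (b (l 1) (l 1)))) (l 1)), by decide +kernel⟩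

theorem c_pp_112_a : CertB 536870912 536870912 0 536870912 966367641 24778659 3 eng mog cd2q1 cd1q2a pd1 false true true .dn 1 1 2
    ndB2q1 ndB1q2a pcB1 Cut.none Ext.none :=
  certB2 (fam := false) (s1 := true) (s2 := true) (a := 1) (b := 1) (c := 2) (cn := .dn) (n1 := ndB2q1) (n2 := ndB1q2a) (pc := pcB1) (cut := Cut.none) (xt := Ext.none) (P1 := 536870912) (W1 := 536870912) (P2 := 0) (W2 := 536870912) (P3 := 966367641) (W3 := 24778659) (N0 := 3) (En := eng) (mo := mog) (C1 := cd2q1) (C2 := cd1q2a) (C3 := pd1)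
    rfl (fun _ => rfl) k0_pp_112_a

noncomputable def f_pp_112_b : ℕ → ℕ → ℕ → ℕ → Bool := onCell 536870912 536870912 1239849684 370763052 966367641 24778659
    (rowB 3 eng mog cd2q1 cd1q2b pd1 0 false true true .dn 1 1 2 (qsf 536870912 536870912 1239849684 370763052 1) ndB2q1 ndB1q2b pcB1 Cut.none Ext.none)

def k0_pp_112_b : ∃ t, chk3 f_pp_112_b t 1 1 1 = true :=
  ⟨(a (b (a (b (l 15304392) (l 15326304)) (b (a (l 15436368) (l 15325960)) (l 15200008))) (a (b (l 15086184) (l 14801280)) (b (l 15002200) (l 14787216)))) (b (a (b (l 1) (l 382281424295)) (l 1)) (a (b (l 14745760) (l 14573640)) (b (l 401607594103) (l 14175704))))), by decide +kernel⟩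

theorem c_pp_112_b : CertB 536870912 536870912 1239849684 370763052 966367641 24778659 3 eng mog cd2q1 cd1q2b pd1 false true true .dn 1 1 2
    ndB2q1 ndB1q2b pcB1 Cut.none Ext.none :=
  certB0 (fam := false) (s1 := true) (s2 := true) (a := 1) (b := 1) (c := 2) (cn := .dn) (n1 := ndB2q1) (n2 := ndB1q2b) (pc := pcB1) (cut := Cut.none) (xt := Ext.none) (P1 := 536870912) (W1 := 536870912) (P2 := 1239849684) (W2 := 370763052) (P3 := 966367641) (W3 := 24778659) (N0 := 3) (En := eng) (mo := mog) (C1 := cd2q1) (C2 := cd1q2b) (C3 := pd1)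
    rfl k0_pp_112_b

noncomputable def f_pp_113 : ℕ → ℕ → ℕ → ℕ → Bool := onCell 536870912 536870912 1610612736 536870912 966367641 24778659
    (rowB 3 eng mog cd2q1 cd1q3 pd1 2 false true true .nn 1 1 3 (qsf 536870912 536870912 1610612736 536870912 1) ndB2q1 ndB1q3 pcB1 Cut.none Ext.none)

def k0_pp_113 : ∃ t, chk3 f_pp_113 t 1 1 1 = true :=
  ⟨(a (b (b (a (b (l 14092800) (l 13755016)) (b (l 14409640) (l 14165008))) (a (b (l 13387408) (l 2)) (b (l 13906704) (l 13633480)))) (b (a (l 2) (l 325974617607)) (l 2))) (b (b (a (b (l 14528440) (l 14351136)) (b (l 14412944) (l 14265672))) (a (l 14138720) (l 14269272))) (a (b (l 14047832) (l 15026144)) (b (l 14529864) (b (l 16617032) (l 16497056)))))), by decide +kernel⟩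

theorem c_pp_113 : CertB 536870912 536870912 1610612736 536870912 966367641 24778659 3 eng mog cd2q1 cd1q3 pd1 false true true .nn 1 1 3
    ndB2q1 ndB1q3 pcB1 Cut.none Ext.none :=
  certB2 (fam := false) (s1 := true) (s2 := true) (a := 1) (b := 1) (c := 3) (cn := .nn) (n1 := ndB2q1) (n2 := ndB1q3) (pc := pcB1) (cut := Cut.none) (xt := Ext.none) (P1 := 536870912) (W1 := 536870912) (P2 := 1610612736) (W2 := 536870912) (P3 := 966367641) (W3 := 24778659) (N0 := 3) (En := eng) (mo := mog) (C1 := cd2q1) (C2 := cd1q3) (C3 := pd1)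
    rfl (fun _ => rfl) k0_pp_113

noncomputable def f_pp_123 : ℕ → ℕ → ℕ → ℕ → Bool := onCell 1073741824 536870912 1610612736 536870912 966367641 24778659
    (rowB 3 eng mog cd2q1 cd1q3 pd2 2 false true true .npn 1 2 3 (qsf 536870912 536870912 1610612736 536870912 2) ndB2q1 ndB1q3 pcB2 Cut.none Ext.none)

def k0_pp_123 : ∃ t, chk3 f_pp_123 t 1 1 1 = true :=
  ⟨(a (b (a (b (a (b (l 14582600) (l 14441408)) (l 576091620743)) (a (b (l 14339408) (l 14308640)) (l 14717368))) (b (a (l 14962048) (l 1)) (a (l 15049224) (l 15314728)))) (a (b (a (b (l 14412096) (l 14787640)) (b (l 14821720) (l 15074080))) (a (l 16957248) (b (l 15598328) (l 16136616)))) (b (a (b (l 15178488) (l 15398400)) (l 15556552)) (a (b (l 15802904) (l 4)) (l 4))))) (b (a (b (l 1) (a (l 15534096) (l 1))) (l 1)) (b (a (a (l 15781784) (l 15956648)) (a (l 16103552) (l 1))) (l 4)))), by decide +kernel⟩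

theorem c_pp_123 : CertB 536870912 536870912 1610612736 536870912 966367641 24778659 3 eng mog cd2q1 cd1q3 pd2 false true true .npn 1 2 3
    ndB2q1 ndB1q3 pcB2 Cut.none Ext.none :=
  certB2 (fam := false) (s1 := true) (s2 := true) (a := 1) (b := 2) (c := 3) (cn := .npn) (n1 := ndB2q1) (n2 := ndB1q3) (pc := pcB2) (cut := Cut.none) (xt := Ext.none) (P1 := 536870912) (W1 := 536870912) (P2 := 1610612736) (W2 := 536870912) (P3 := 966367641) (W3 := 24778659) (N0 := 3) (En := eng) (mo := mog) (C1 := cd2q1) (C2 := cd1q3) (C3 := pd2)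
    rfl (fun _ => rfl) k0_pp_123

noncomputable def f_pp_133 : ℕ → ℕ → ℕ → ℕ → Bool := onCell 1610612736 536870912 1610612736 536870912 966367641 24778659
    (rowB 3 eng mog cd2q1 cd1q3 pd3 2 false true true .dn 1 3 3 (qsf 536870912 536870912 1610612736 536870912 3) ndB2q1 ndB1q3 pcB3 Cut.none Ext.none)

def k0_pp_133 : ∃ t, chk3 f_pp_133 t 1 1 1 = true :=
  ⟨(a (b (l 1) (b (l 1) (l 4))) (l 1)), by decide +kernel⟩

theorem c_pp_133 : CertB 536870912 536870912 1610612736 536870912 966367641 24778659 3 eng mog cd2q1 cd1q3 pd3 false true true .dn 1 3 3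
    ndB2q1 ndB1q3 pcB3 Cut.none Ext.none :=
  certB2 (fam := false) (s1 := true) (s2 := true) (a := 1) (b := 3) (c := 3) (cn := .dn) (n1 := ndB2q1) (n2 := ndB1q3) (pc := pcB3) (cut := Cut.none) (xt := Ext.none) (P1 := 536870912) (W1 := 536870912) (P2 := 1610612736) (W2 := 536870912) (P3 := 966367641) (W3 := 24778659) (N0 := 3) (En := eng) (mo := mog) (C1 := cd2q1) (C2 := cd1q3) (C3 := pd3)
    rfl (fun _ => rfl) k0_pp_133

noncomputable def f_pp_202_a : ℕ → ℕ → ℕ → ℕ → Bool := onCell 1073741824 536870912 0 536870912 966367641 24778659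
    (rowB 3 eng mog cd2q2 cd1q2a pd0 0 false true true .pp 2 0 2 (qsf 1073741824 536870912 0 536870912 0) ndB2q2 ndB1q2a pcB0 Cut.none Ext.none)

def k0_pp_202_a : ∃ t, chk3 f_pp_202_a t 1 1 1 = true :=
  ⟨(l 3), by decide +kernel⟩

theorem c_pp_202_a : CertB 1073741824 536870912 0 536870912 966367641 24778659 3 eng mog cd2q2 cd1q2a pd0 false true true .pp 2 0 2
    ndB2q2 ndB1q2a pcB0 Cut.none Ext.none :=
  certB0 (fam := false) (s1 := true) (s2 := true) (a := 2) (b := 0) (c := 2) (cn := .pp) (n1 := ndB2q2) (n2 := ndB1q2a) (pc := pcB0) (cut := Cut.none) (xt := Ext.none) (P1 := 1073741824) (W1 := 536870912) (P2 := 0) (W2 := 536870912) (P3 := 966367641) (W3 := 24778659) (N0 := 3) (En := eng) (mo := mog) (C1 := cd2q2) (C2 := cd1q2a) (C3 := pd0)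
    rfl k0_pp_202_a

noncomputable def f_pp_202_b : ℕ → ℕ → ℕ → ℕ → Bool := onCell 1073741824 536870912 1239849684 370763052 966367641 24778659
    (rowB 3 eng mog cd2q2 cd1q2b pd0 0 false true true .pp 2 0 2 (qsf 1073741824 536870912 1239849684 370763052 0) ndB2q2 ndB1q2b pcB0 Cut.none Ext.none)

def k0_pp_202_b : ∃ t, chk3 f_pp_202_b t 1 1 1 = true :=
  ⟨(l 3), by decide +kernel⟩

theorem c_pp_202_b : CertB 1073741824 536870912 1239849684 370763052 966367641 24778659 3 eng mog cd2q2 cd1q2b pd0 false true true .pp 2 0 2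
    ndB2q2 ndB1q2b pcB0 Cut.none Ext.none :=
  certB0 (fam := false) (s1 := true) (s2 := true) (a := 2) (b := 0) (c := 2) (cn := .pp) (n1 := ndB2q2) (n2 := ndB1q2b) (pc := pcB0) (cut := Cut.none) (xt := Ext.none) (P1 := 1073741824) (W1 := 536870912) (P2 := 1239849684) (W2 := 370763052) (P3 := 966367641) (W3 := 24778659) (N0 := 3) (En := eng) (mo := mog) (C1 := cd2q2) (C2 := cd1q2b) (C3 := pd0)
    rfl k0_pp_202_b

noncomputable def f_pp_203 : ℕ → ℕ → ℕ → ℕ → Bool := onCell 1073741824 536870912 0 536870912 966367641 24778659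
    (rowB 3 eng mog cd2q2 cd1q3 pd0 1 false true true .up 2 0 3 (qsf 1073741824 536870912 1610612736 536870912 0) ndB2q2 ndB1q3 pcB0 Cut.none Ext.none)

def k0_pp_203 : ∃ t, chk3 f_pp_203 t 1 1 1 = true :=
  ⟨(l 3), by decide +kernel⟩

theorem c_pp_203 : CertB 1073741824 536870912 1610612736 536870912 966367641 24778659 3 eng mog cd2q2 cd1q3 pd0 false true true .up 2 0 3
    ndB2q2 ndB1q3 pcB0 Cut.none Ext.none :=
  certB1 (fam := false) (s1 := true) (s2 := true) (a := 2) (b := 0) (c := 3) (cn := .up) (n1 := ndB2q2) (n2 := ndB1q3) (pc := pcB0) (cut := Cut.none) (xt := Ext.none) (P1 := 1073741824) (W1 := 536870912) (P2 := 1610612736) (W2 := 536870912) (P3 := 966367641) (W3 := 24778659) (N0 := 3) (En := eng) (mo := mog) (C1 := cd2q2) (C2 := cd1q3) (C3 := pd0)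
    rfl (fun _ => rfl) k0_pp_203

noncomputable def f_pp_213 : ℕ → ℕ → ℕ → ℕ → Bool := onCell 1073741824 536870912 1610612736 536870912 966367641 24778659
    (rowB 3 eng mog cd2q2 cd1q3 pd1 0 false true true .pnn 2 1 3 (qsf 1073741824 536870912 1610612736 536870912 1) ndB2q2 ndB1q3 pcB1 Cut.none Ext.none)

def k0_pp_213 : ∃ t, chk3 f_pp_213 t 1 1 1 = true :=
  ⟨(a (b (l 3) (b (l 3) (a (b (l 3) (a (b (a (b (a (b (l 3) (l 400136137367)) (l 3)) (a (b (l 16637680) (l 16666640)) (l 392083013255))) (l 3)) (a (b (a (l 16708248) (l 16650528)) (a (l 16757776) (l 16726704))) (b (a (l 16591928) (l 16601800)) (a (l 16693696) (l 16660520))))) (b (l 3) (a (b (l 3) (l 484961884951)) (l 3))))) (l 3)))) (l 3)), by decide +kernel⟩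

theorem c_pp_213 : CertB 1073741824 536870912 1610612736 536870912 966367641 24778659 3 eng mog cd2q2 cd1q3 pd1 false true true .pnn 2 1 3
    ndB2q2 ndB1q3 pcB1 Cut.none Ext.none :=
  certB0 (fam := false) (s1 := true) (s2 := true) (a := 2) (b := 1) (c := 3) (cn := .pnn) (n1 := ndB2q2) (n2 := ndB1q3) (pc := pcB1) (cut := Cut.none) (xt := Ext.none) (P1 := 1073741824) (W1 := 536870912) (P2 := 1610612736) (W2 := 536870912) (P3 := 966367641) (W3 := 24778659) (N0 := 3) (En := eng) (mo := mog) (C1 := cd2q2) (C2 := cd1q3) (C3 := pd1)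
    rfl k0_pp_213

noncomputable def f_pp_303 : ℕ → ℕ → ℕ → ℕ → Bool := onCell 0 1230186008 1610612736 536870912 966367641 24778659
    (rowB 3 eng mog cd2q3 cd1q3 pd0 0 false true true .npn 3 0 3 (qsf 0 1230186008 1610612736 536870912 0) ndB2q3 ndB1q3 pcB0 Cut.none Ext.none)

def k0_pp_303 : ∃ t, chk3 f_pp_303 t 1 1 1 = true :=
  ⟨(a (l 3) (l 3)), by decide +kernel⟩

theorem c_pp_303 : CertB 0 1230186008 1610612736 536870912 966367641 24778659 3 eng mog cd2q3 cd1q3 pd0 false true true .npn 3 0 3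
    ndB2q3 ndB1q3 pcB0 Cut.none Ext.none :=
  certB0 (fam := false) (s1 := true) (s2 := true) (a := 3) (b := 0) (c := 3) (cn := .npn) (n1 := ndB2q3) (n2 := ndB1q3) (pc := pcB0) (cut := Cut.none) (xt := Ext.none) (P1 := 0) (W1 := 1230186008) (P2 := 1610612736) (W2 := 536870912) (P3 := 966367641) (W3 := 24778659) (N0 := 3) (En := eng) (mo := mog) (C1 := cd2q3) (C2 := cd1q3) (C3 := pd0)
    rfl k0_pp_303

noncomputable def f_pp_313 : ℕ → ℕ → ℕ → ℕ → Bool := onCell 0 1230186008 1610612736 536870912 966367641 24778659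
    (rowB 3 eng mog cd2q3 cd1q3 pd1 0 false true true .dn 3 1 3 (qsf 0 1230186008 1610612736 536870912 1) ndB2q3 ndB1q3 pcB1 Cut.none Ext.none)

def k0_pp_313 : ∃ t, chk3 f_pp_313 t 1 1 1 = true :=
  ⟨(a (l 1) (l 3)), by decide +kernel⟩

theorem c_pp_313 : CertB 0 1230186008 1610612736 536870912 966367641 24778659 3 eng mog cd2q3 cd1q3 pd1 false true true .dn 3 1 3
    ndB2q3 ndB1q3 pcB1 Cut.none Ext.none :=
  certB0 (fam := false) (s1 := true) (s2 := true) (a := 3) (b := 1) (c := 3) (cn := .dn) (n1 := ndB2q3) (n2 := ndB1q3) (pc := pcB1) (cut := Cut.none) (xt := Ext.none) (P1 := 0) (W1 := 1230186008) (P2 := 1610612736) (W2 := 536870912) (P3 := 966367641) (W3 := 24778659) (N0 := 3) (En := eng) (mo := mog) (C1 := cd2q3) (C2 := cd1q3) (C3 := pd1)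
    rfl k0_pp_313

noncomputable def f_pm_001 : ℕ → ℕ → ℕ → ℕ → Bool := onCell 0 536870912 536870912 536870912 966367641 24778659
    (rowB 3 eng mog cd2q0 cd1q1 pd0 0 false true false .up 0 0 1 (qsf 0 536870912 536870912 536870912 0) ndB2q0 ndB1q1 pcB0 Cut.none Ext.none)

def k0_pm_001 : ∃ t, chk3 f_pm_001 t 1 1 1 = true :=
  ⟨(l 4), by decide +kernel⟩

theorem c_pm_001 : CertB 0 536870912 536870912 536870912 966367641 24778659 3 eng mog cd2q0 cd1q1 pd0 false true false .up 0 0 1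
    ndB2q0 ndB1q1 pcB0 Cut.none Ext.none :=
  certB0 (fam := false) (s1 := true) (s2 := false) (a := 0) (b := 0) (c := 1) (cn := .up) (n1 := ndB2q0) (n2 := ndB1q1) (pc := pcB0) (cut := Cut.none) (xt := Ext.none) (P1 := 0) (W1 := 536870912) (P2 := 536870912) (W2 := 536870912) (P3 := 966367641) (W3 := 24778659) (N0 := 3) (En := eng) (mo := mog) (C1 := cd2q0) (C2 := cd1q1) (C3 := pd0)
    rfl k0_pm_001

noncomputable def f_pm_011 : ℕ → ℕ → ℕ → ℕ → Bool := onCell 0 536870912 536870912 536870912 966367641 24778659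
    (rowB 3 eng mog cd2q0 cd1q1 pd1 0 false true false .pnn 0 1 1 (qsf 0 536870912 536870912 536870912 1) ndB2q0 ndB1q1 pcB1 Cut.none Ext.none)

def k0_pm_011 : ∃ t, chk3 f_pm_011 t 1 1 1 = true :=
  ⟨(l 4), by decide +kernel⟩

theorem c_pm_011 : CertB 0 536870912 536870912 536870912 966367641 24778659 3 eng mog cd2q0 cd1q1 pd1 false true false .pnn 0 1 1
    ndB2q0 ndB1q1 pcB1 Cut.none Ext.none :=
  certB0 (fam := false) (s1 := true) (s2 := false) (a := 0) (b := 1) (c := 1) (cn := .pnn) (n1 := ndB2q0) (n2 := ndB1q1) (pc := pcB1) (cut := Cut.none) (xt := Ext.none) (P1 := 0) (W1 := 536870912) (P2 := 536870912) (W2 := 536870912) (P3 := 966367641) (W3 := 24778659) (N0 := 3) (En := eng) (mo := mog) (C1 := cd2q0) (C2 := cd1q1) (C3 := pd1)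
    rfl k0_pm_011

noncomputable def f_pm_012_a : ℕ → ℕ → ℕ → ℕ → Bool := onCell 536870912 536870912 0 536870912 966367641 24778659
    (rowB 3 eng mog cd2q0 cd1q2a pd1 2 false true false .pnp 0 1 2 (qsf 0 536870912 0 536870912 1) ndB2q0 ndB1q2a pcB1 Cut.none Ext.none)

def k0_pm_012_a : ∃ t, chk3 f_pm_012_a t 1 1 1 = true :=
  ⟨(b (b (a (a (l 2) (l 4)) (a (a (l 15108984) (a (l 15128744) (l 15143944))) (a (a (l 15158048) (l 15171696)) (a (b (l 15177392) (l 15214816)) (b (l 15223856) (l 15242368)))))) (a (l 4) (a (l 4) (l 4)))) (a (l 4) (a (l 4) (l 4)))), by decide +kernel⟩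

theorem c_pm_012_a : CertB 0 536870912 0 536870912 966367641 24778659 3 eng mog cd2q0 cd1q2a pd1 false true false .pnp 0 1 2
    ndB2q0 ndB1q2a pcB1 Cut.none Ext.none :=
  certB2 (fam := false) (s1 := true) (s2 := false) (a := 0) (b := 1) (c := 2) (cn := .pnp) (n1 := ndB2q0) (n2 := ndB1q2a) (pc := pcB1) (cut := Cut.none) (xt := Ext.none) (P1 := 0) (W1 := 536870912) (P2 := 0) (W2 := 536870912) (P3 := 966367641) (W3 := 24778659) (N0 := 3) (En := eng) (mo := mog) (C1 := cd2q0) (C2 := cd1q2a) (C3 := pd1)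
    rfl (fun _ => rfl) k0_pm_012_a

noncomputable def f_pm_012_b : ℕ → ℕ → ℕ → ℕ → Bool := onCell 536870912 536870912 1239849684 370763052 966367641 24778659
    (rowB 3 eng mog cd2q0 cd1q2b pd1 2 false true false .pnp 0 1 2 (qsf 0 536870912 1239849684 370763052 1) ndB2q0 ndB1q2b pcB1 Cut.none Ext.none)

def k0_pm_012_b : ∃ t, chk3 f_pm_012_b t 1 1 1 = true :=
  ⟨(a (a (l 2) (b (l 4) (l 2))) (b (b (b (a (a (l 14994544) (l 14966184)) (a (a (l 14991464) (l 14995696)) (a (l 15021600) (l 15061640)))) (a (l 4) (a (l 4) (a (l 14740280) (l 14744840))))) (l 4)) (l 4))), by decide +kernel⟩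

theorem c_pm_012_b : CertB 0 536870912 1239849684 370763052 966367641 24778659 3 eng mog cd2q0 cd1q2b pd1 false true false .pnp 0 1 2
    ndB2q0 ndB1q2b pcB1 Cut.none Ext.none :=
  certB2 (fam := false) (s1 := true) (s2 := false) (a := 0) (b := 1) (c := 2) (cn := .pnp) (n1 := ndB2q0) (n2 := ndB1q2b) (pc := pcB1) (cut := Cut.none) (xt := Ext.none) (P1 := 0) (W1 := 536870912) (P2 := 1239849684) (W2 := 370763052) (P3 := 966367641) (W3 := 24778659) (N0 := 3) (En := eng) (mo := mog) (C1 := cd2q0) (C2 := cd1q2b) (C3 := pd1)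
    rfl (fun _ => rfl) k0_pm_012_b

noncomputable def f_pm_022_a : ℕ → ℕ → ℕ → ℕ → Bool := onCell 0 536870912 0 536870912 966367641 24778659
    (rowB 3 eng mog cd2q0 cd1q2a pd2 0 false true false .pp 0 2 2 (qsf 0 536870912 0 536870912 2) ndB2q0 ndB1q2a pcB2 Cut.none Ext.none)

def k0_pm_022_a : ∃ t, chk3 f_pm_022_a t 1 1 1 = true :=
  ⟨(a (b (a (b (a (a (a (b (l 16448264) (l 16467608)) (l 16220152)) (a (b (l 16239288) (l 16217240)) (a (l 16115368) (l 15982200)))) (a (a (b (l 15982968) (l 15941376)) (b (l 15873456) (l 15822528))) (a (b (l 15759808) (l 15700624)) (b (l 15641888) (l 15577648))))) (b (a (a (a (l 16444944) (l 16346792)) (a (l 16128304) (a (l 16066368) (l 15990440)))) (a (a (c (l 15928568) (l 15878720)) (l 35665921079)) (a (l 15673408) (l 4)))) (a (a (a (c (l 16505416) (l 16462800)) (c (l 16359168) (l 16228640))) (a (b (l 16176880) (l 4)) (l 4))) (l 4)))) (b (a (a (b (l 15412936) (c (l 15375616) (l 15323120))) (b (l 1) (l 1))) (l 1)) (l 4)))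 (a (b (a (a (b (a (b (l 16490064) (l 4)) (l 4)) (l 4)) (l 4)) (l 4)) (l 4)) (l 4))) (l 1)), by decide +kernel⟩

theorem c_pm_022_a : CertB 0 536870912 0 536870912 966367641 24778659 3 eng mog cd2q0 cd1q2a pd2 false true false .pp 0 2 2
    ndB2q0 ndB1q2a pcB2 Cut.none Ext.none :=
  certB0 (fam := false) (s1 := true) (s2 := false) (a := 0) (b := 2) (c := 2) (cn := .pp) (n1 := ndB2q0) (n2 := ndB1q2a) (pc := pcB2) (cut := Cut.none) (xt := Ext.none) (P1 := 0) (W1 := 536870912) (P2 := 0) (W2 := 536870912) (P3 := 966367641) (W3 := 24778659) (N0 := 3) (En := eng) (mo := mog) (C1 := cd2q0) (C2 := cd1q2a) (C3 := pd2)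
    rfl k0_pm_022_a

noncomputable def f_pm_022_b : ℕ → ℕ → ℕ → ℕ → Bool := onCell 0 536870912 1073741824 536870912 966367641 24778659
    (rowB 3 eng mog cd2q0 cd1q2b pd2 1 false true false .pp 0 2 2 (qsf 0 536870912 1239849684 370763052 2) ndB2q0 ndB1q2b pcB2 Cut.none Ext.none)

def k0_pm_022_b : ∃ t, chk3 f_pm_022_b t 1 1 1 = true :=
  ⟨(a (b (a (b (b (a (l 1) (a (b (l 1) (a (l 1) (l 15724280))) (b (a (l 1) (l 472477734663)) (a (l 15784776) (l 15680952))))) (a (a (b (l 1) (l 432750405607)) (a (b (l 1) (l 16169208)) (b (l 662530431447) (a (l 16142800) (l 16079016))))) (a (b (a (l 15896480) (l 15901152)) (a (l 16009728) (l 15920944))) (b (a (l 15805152) (l 15712280)) (a (l 15835896) (l 15753664)))))) (a (a (b (b (l 292090143847) (c (l 16389024) (l 16358856))) (b (l 16109832) (l 16125728))) (b (a (b (l 16237600) (l 16224232)) (b (l 15859784) (l 16113856))) (a (b (l 16214928) (l 16208736)) (b (l 16119736) (l 16128192))))) (b (a (b (a (l 16022912) (l 15944904))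 (a (l 16036600) (l 15968592))) (b (a (l 15870224) (l 15799552)) (a (l 15905480) (l 15848984)))) (a (b (a (l 16053152) (l 15996248)) (a (l 16072256) (l 4))) (b (l 15752432) (l 4)))))) (b (b (a (b (a (l 15453400) (l 15172136)) (a (l 15489656) (l 15238600))) (b (a (l 14918056) (l 4)) (l 14941016))) (a (b (a (l 15540944) (l 15329608)) (a (l 15607544) (l 4))) (l 4))) (b (b (a (a (l 15680304) (l 4)) (l 4)) (l 4)) (l 4)))) (a (b (a (b (a (b (l 16160224) (l 15879776)) (a (b (l 16203856) (l 16186528)) (b (l 16136192) (l 4)))) (a (b (c (l 15956256) (l 16003632)) (l 15831680)) (l 4))) (l 4)) (l 4)) (l 4))) (b (l 4) (l 4))), by decide +kernel⟩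

theorem c_pm_022_b : CertB 0 536870912 1239849684 370763052 966367641 24778659 3 eng mog cd2q0 cd1q2b pd2 false true false .pp 0 2 2
    ndB2q0 ndB1q2b pcB2 Cut.none Ext.none :=
  certB1 (fam := false) (s1 := true) (s2 := false) (a := 0) (b := 2) (c := 2) (cn := .pp) (n1 := ndB2q0) (n2 := ndB1q2b) (pc := pcB2) (cut := Cut.none) (xt := Ext.none) (P1 := 0) (W1 := 536870912) (P2 := 1239849684) (W2 := 370763052) (P3 := 966367641) (W3 := 24778659) (N0 := 3) (En := eng) (mo := mog) (C1 := cd2q0) (C2 := cd1q2b) (C3 := pd2)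
    rfl (fun _ => rfl) k0_pm_022_b

noncomputable def f_pm_023 : ℕ → ℕ → ℕ → ℕ → Bool := onCell 0 536870912 1610612736 536870912 966367641 24778659
    (rowB 3 eng mog cd2q0 cd1q3 pd2 0 false true false .up 0 2 3 (qsf 0 536870912 1610612736 536870912 2) ndB2q0 ndB1q3 pcB2 Cut.none Ext.none)

def k0_pm_023 : ∃ t, chk3 f_pm_023 t 1 1 1 = true :=
  ⟨(a (l 4) (l 4)), by decide +kernel⟩

theorem c_pm_023 : CertB 0 536870912 1610612736 536870912 966367641 24778659 3 eng mog cd2q0 cd1q3 pd2 false true false .up 0 2 3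
    ndB2q0 ndB1q3 pcB2 Cut.none Ext.none :=
  certB0 (fam := false) (s1 := true) (s2 := false) (a := 0) (b := 2) (c := 3) (cn := .up) (n1 := ndB2q0) (n2 := ndB1q3) (pc := pcB2) (cut := Cut.none) (xt := Ext.none) (P1 := 0) (W1 := 536870912) (P2 := 1610612736) (W2 := 536870912) (P3 := 966367641) (W3 := 24778659) (N0 := 3) (En := eng) (mo := mog) (C1 := cd2q0) (C2 := cd1q3) (C3 := pd2)
    rfl k0_pm_023

noncomputable def f_pm_033 : ℕ → ℕ → ℕ → ℕ → Bool := onCell 0 536870912 1610612736 536870912 966367641 24778659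
    (rowB 3 eng mog cd2q0 cd1q3 pd3 0 false true false .pnn 0 3 3 (qsf 0 536870912 1610612736 536870912 3) ndB2q0 ndB1q3 pcB3 Cut.none Ext.none)

def k0_pm_033 : ∃ t, chk3 f_pm_033 t 1 1 1 = true :=
  ⟨(a (l 4) (l 4)), by decide +kernel⟩

theorem c_pm_033 : CertB 0 536870912 1610612736 536870912 966367641 24778659 3 eng mog cd2q0 cd1q3 pd3 false true false .pnn 0 3 3
    ndB2q0 ndB1q3 pcB3 Cut.none Ext.none :=
  certB0 (fam := false) (s1 := true) (s2 := false) (a := 0) (b := 3) (c := 3) (cn := .pnn) (n1 := ndB2q0) (n2 := ndB1q3) (pc := pcB3) (cut := Cut.none) (xt := Ext.none) (P1 := 0) (W1 := 536870912) (P2 := 1610612736) (W2 := 536870912) (P3 := 966367641) (W3 := 24778659) (N0 := 3) (En := eng) (mo := mog) (C1 := cd2q0) (C2 := cd1q3) (C3 := pd3)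
    rfl k0_pm_033

noncomputable def f_pm_101 : ℕ → ℕ → ℕ → ℕ → Bool := onCell 536870912 536870912 536870912 536870912 966367641 24778659
    (rowB 3 eng mog cd2q1 cd1q1 pd0 0 false true false .npn 1 0 1 (qsf 536870912 536870912 536870912 536870912 0) ndB2q1 ndB1q1 pcB0 Cut.none Ext.none)

def k0_pm_101 : ∃ t, chk3 f_pm_101 t 1 1 1 = true :=
  ⟨(l 4), by decide +kernel⟩

theorem c_pm_101 : CertB 536870912 536870912 536870912 536870912 966367641 24778659 3 eng mog cd2q1 cd1q1 pd0 false true false .npn 1 0 1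
    ndB2q1 ndB1q1 pcB0 Cut.none Ext.none :=
  certB0 (fam := false) (s1 := true) (s2 := false) (a := 1) (b := 0) (c := 1) (cn := .npn) (n1 := ndB2q1) (n2 := ndB1q1) (pc := pcB0) (cut := Cut.none) (xt := Ext.none) (P1 := 536870912) (W1 := 536870912) (P2 := 536870912) (W2 := 536870912) (P3 := 966367641) (W3 := 24778659) (N0 := 3) (En := eng) (mo := mog) (C1 := cd2q1) (C2 := cd1q1) (C3 := pd0)
    rfl k0_pm_101

noncomputable def f_pm_102_a : ℕ → ℕ → ℕ → ℕ → Bool := onCell 536870912 536870912 0 536870912 966367641 24778659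
    (rowB 3 eng mog cd2q1 cd1q2a pd0 0 false true false .npp 1 0 2 (qsf 536870912 536870912 0 536870912 0) ndB2q1 ndB1q2a pcB0 Cut.none Ext.none)

def k0_pm_102_a : ∃ t, chk3 f_pm_102_a t 1 1 1 = true :=
  ⟨(b (a (l 4) (a (l 4) (b (b (a (l 4) (l 14082264)) (l 4)) (l 4)))) (l 4)), by decide +kernel⟩

theorem c_pm_102_a : CertB 536870912 536870912 0 536870912 966367641 24778659 3 eng mog cd2q1 cd1q2a pd0 false true false .npp 1 0 2
    ndB2q1 ndB1q2a pcB0 Cut.none Ext.none :=
  certB0 (fam := false) (s1 := true) (s2 := false) (a := 1) (b := 0) (c := 2) (cn := .npp) (n1 := ndB2q1) (n2 := ndB1q2a) (pc := pcB0) (cut := Cut.none) (xt := Ext.none) (P1 := 536870912) (W1 := 536870912) (P2 := 0) (W2 := 536870912) (P3 := 966367641) (W3 := 24778659) (N0 := 3) (En := eng) (mo := mog) (C1 := cd2q1) (C2 := cd1q2a) (C3 := pd0)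
    rfl k0_pm_102_a

noncomputable def f_pm_102_b : ℕ → ℕ → ℕ → ℕ → Bool := onCell 536870912 536870912 1239849684 370763052 966367641 24778659
    (rowB 3 eng mog cd2q1 cd1q2b pd0 0 false true false .npp 1 0 2 (qsf 536870912 536870912 1239849684 370763052 0) ndB2q1 ndB1q2b pcB0 Cut.none Ext.none)

def k0_pm_102_b : ∃ t, chk3 f_pm_102_b t 1 1 1 = true :=
  ⟨(a (b (l 4) (l 2)) (b (a (b (l 4) (l 4)) (b (a (b (l 4) (l 4)) (b (l 14283408) (l 14085048))) (a (l 4) (b (l 14065040) (l 14035376))))) (a (l 4) (a (l 4) (a (l 4) (b (l 13910136) (l 13812384))))))), by decide +kernel⟩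

theorem c_pm_102_b : CertB 536870912 536870912 1239849684 370763052 966367641 24778659 3 eng mog cd2q1 cd1q2b pd0 false true false .npp 1 0 2
    ndB2q1 ndB1q2b pcB0 Cut.none Ext.none :=
  certB0 (fam := false) (s1 := true) (s2 := false) (a := 1) (b := 0) (c := 2) (cn := .npp) (n1 := ndB2q1) (n2 := ndB1q2b) (pc := pcB0) (cut := Cut.none) (xt := Ext.none) (P1 := 536870912) (W1 := 536870912) (P2 := 1239849684) (W2 := 370763052) (P3 := 966367641) (W3 := 24778659) (N0 := 3) (En := eng) (mo := mog) (C1 := cd2q1) (C2 := cd1q2b) (C3 := pd0)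
    rfl k0_pm_102_b

noncomputable def f_pm_112_a : ℕ → ℕ → ℕ → ℕ → Bool := onCell 536870912 536870912 0 536870912 966367641 24778659
    (rowB 3 eng mog cd2q1 cd1q2a pd1 0 false true false .dn 1 1 2 (qsf 536870912 536870912 0 536870912 1) ndB2q1 ndB1q2a pcB1 Cut.none Ext.none)

def k0_pm_112_a : ∃ t, chk3 f_pm_112_a t 1 1 1 = true :=
  ⟨(a (b (l 4) (l 4)) (l 1)), by decide +kernel⟩

theorem c_pm_112_a : CertB 536870912 536870912 0 536870912 966367641 24778659 3 eng mog cd2q1 cd1q2a pd1 false true false .dn 1 1 2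
    ndB2q1 ndB1q2a pcB1 Cut.none Ext.none :=
  certB0 (fam := false) (s1 := true) (s2 := false) (a := 1) (b := 1) (c := 2) (cn := .dn) (n1 := ndB2q1) (n2 := ndB1q2a) (pc := pcB1) (cut := Cut.none) (xt := Ext.none) (P1 := 536870912) (W1 := 536870912) (P2 := 0) (W2 := 536870912) (P3 := 966367641) (W3 := 24778659) (N0 := 3) (En := eng) (mo := mog) (C1 := cd2q1) (C2 := cd1q2a) (C3 := pd1)
    rfl k0_pm_112_a

noncomputable def f_pm_112_b : ℕ → ℕ → ℕ → ℕ → Bool := onCell 536870912 536870912 1239849684 370763052 966367641 24778659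
    (rowB 3 eng mog cd2q1 cd1q2b pd1 2 false true false .dn 1 1 2 (qsf 536870912 536870912 1239849684 370763052 1) ndB2q1 ndB1q2b pcB1 Cut.none Ext.none)

def k0_pm_112_b : ∃ t, chk3 f_pm_112_b t 1 1 1 = true :=
  ⟨(b (a (a (l 4) (l 4)) (b (l 1) (l 4))) (a (a (l 4) (l 4)) (l 4))), by decide +kernel⟩

theorem c_pm_112_b : CertB 536870912 536870912 1239849684 370763052 966367641 24778659 3 eng mog cd2q1 cd1q2b pd1 false true false .dn 1 1 2
    ndB2q1 ndB1q2b pcB1 Cut.none Ext.none :=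
  certB2 (fam := false) (s1 := true) (s2 := false) (a := 1) (b := 1) (c := 2) (cn := .dn) (n1 := ndB2q1) (n2 := ndB1q2b) (pc := pcB1) (cut := Cut.none) (xt := Ext.none) (P1 := 536870912) (W1 := 536870912) (P2 := 1239849684) (W2 := 370763052) (P3 := 966367641) (W3 := 24778659) (N0 := 3) (En := eng) (mo := mog) (C1 := cd2q1) (C2 := cd1q2b) (C3 := pd1)
    rfl (fun _ => rfl) k0_pm_112_b

noncomputable def f_pm_113 : ℕ → ℕ → ℕ → ℕ → Bool := onCell 536870912 536870912 1610612736 536870912 966367641 24778659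
    (rowB 3 eng mog cd2q1 cd1q3 pd1 0 false true false .nn 1 1 3 (qsf 536870912 536870912 1610612736 536870912 1) ndB2q1 ndB1q3 pcB1 Cut.none Ext.none)

def k0_pm_113 : ∃ t, chk3 f_pm_113 t 1 1 1 = true :=
  ⟨(b (a (l 4) (a (l 4) (a (l 4) (b (l 4) (l 4))))) (a (l 4) (a (l 4) (a (l 4) (a (l 4) (b (l 4) (l 16899288))))))), by decide +kernel⟩

theorem c_pm_113 : CertB 536870912 536870912 1610612736 536870912 966367641 24778659 3 eng mog cd2q1 cd1q3 pd1 false true false .nn 1 1 3
    ndB2q1 ndB1q3 pcB1 Cut.none Ext.none :=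
  certB0 (fam := false) (s1 := true) (s2 := false) (a := 1) (b := 1) (c := 3) (cn := .nn) (n1 := ndB2q1) (n2 := ndB1q3) (pc := pcB1) (cut := Cut.none) (xt := Ext.none) (P1 := 536870912) (W1 := 536870912) (P2 := 1610612736) (W2 := 536870912) (P3 := 966367641) (W3 := 24778659) (N0 := 3) (En := eng) (mo := mog) (C1 := cd2q1) (C2 := cd1q3) (C3 := pd1)
    rfl k0_pm_113

noncomputable def f_pm_123 : ℕ → ℕ → ℕ → ℕ → Bool := onCell 1073741824 536870912 1610612736 536870912 966367641 24778659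
    (rowB 3 eng mog cd2q1 cd1q3 pd2 2 false true false .npn 1 2 3 (qsf 536870912 536870912 1610612736 536870912 2) ndB2q1 ndB1q3 pcB2 Cut.none Ext.none)

def k0_pm_123 : ∃ t, chk3 f_pm_123 t 1 1 1 = true :=
  ⟨(a (b (l 4) (a (b (l 4) (a (l 553212258983) (l 4))) (l 4))) (b (l 4) (l 4))), by decide +kernel⟩

theorem c_pm_123 : CertB 536870912 536870912 1610612736 536870912 966367641 24778659 3 eng mog cd2q1 cd1q3 pd2 false true false .npn 1 2 3
    ndB2q1 ndB1q3 pcB2 Cut.none Ext.none :=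
  certB2 (fam := false) (s1 := true) (s2 := false) (a := 1) (b := 2) (c := 3) (cn := .npn) (n1 := ndB2q1) (n2 := ndB1q3) (pc := pcB2) (cut := Cut.none) (xt := Ext.none) (P1 := 536870912) (W1 := 536870912) (P2 := 1610612736) (W2 := 536870912) (P3 := 966367641) (W3 := 24778659) (N0 := 3) (En := eng) (mo := mog) (C1 := cd2q1) (C2 := cd1q3) (C3 := pd2)
    rfl (fun _ => rfl) k0_pm_123

noncomputable def f_pm_133 : ℕ → ℕ → ℕ → ℕ → Bool := onCell 536870912 536870912 1610612736 536870912 966367641 24778659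
    (rowB 3 eng mog cd2q1 cd1q3 pd3 0 false true false .dn 1 3 3 (qsf 536870912 536870912 1610612736 536870912 3) ndB2q1 ndB1q3 pcB3 Cut.none Ext.none)

def k0_pm_133 : ∃ t, chk3 f_pm_133 t 1 1 1 = true :=
  ⟨(a (b (l 1) (l 4)) (l 1)), by decide +kernel⟩

theorem c_pm_133 : CertB 536870912 536870912 1610612736 536870912 966367641 24778659 3 eng mog cd2q1 cd1q3 pd3 false true false .dn 1 3 3
    ndB2q1 ndB1q3 pcB3 Cut.none Ext.none :=
  certB0 (fam := false) (s1 := true) (s2 := false) (a := 1) (b := 3) (c := 3) (cn := .dn) (n1 := ndB2q1) (n2 := ndB1q3) (pc := pcB3) (cut := Cut.none) (xt := Ext.none) (P1 := 536870912) (W1 := 536870912) (P2 := 1610612736) (W2 := 536870912) (P3 := 966367641) (W3 := 24778659) (N0 := 3) (En := eng) (mo := mog) (C1 := cd2q1) (C2 := cd1q3) (C3 := pd3)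
    rfl k0_pm_133

noncomputable def f_pm_202_a : ℕ → ℕ → ℕ → ℕ → Bool := onCell 0 536870912 0 536870912 966367641 24778659
    (rowB 3 eng mog cd2q2 cd1q2a pd0 2 false true false .pp 2 0 2 (qsf 1073741824 536870912 0 536870912 0) ndB2q2 ndB1q2a pcB0 Cut.none Ext.none)

def k0_pm_202_a : ∃ t, chk3 f_pm_202_a t 2 2 1 = true :=
  ⟨(l 3), by decide +kernel⟩

def k1_pm_202_a : ∃ t, chk3 f_pm_202_a t 2 6 1 = true :=
  ⟨(a (b (b (l 3) (b (l 3) (a (l 3) (a (l 3) (a (a (l 3) (a (l 3) (l 1))) (l 1)))))) (a (a (a (b (b (l 3) (a (c (a (b (l 72107462727) (l 16289640)) (c (l 76939389191) (l 79623670487))) (b (a (l 77476024311) (l 16212120)) (a (l 16208968) (a (l 16222160) (l 16231728))))) (c (c (a (l 16340536) (l 16358392)) (a (l 16301456) (l 16341560))) (a (c (l 16261272) (l 16219984)) (b (l 16277584) (l 16289048)))))) (b (a (c (l 16353416) (l 16276528)) (b (c (a (l 16365320) (l 16382864)) (a (l 16288512) (l 16305208))) (l 16340928))) (c (l 16356416) (l 16222928))))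 (a (b (b (l 3) (c (c (l 16407968) (l 16372160)) (c (l 16335312) (l 16297440)))) (b (b (c (l 16411560) (l 16335448)) (a (l 16385696) (l 16401240))) (l 16372800))) (c (b (b (l 16387160) (l 16409992)) (b (l 16417704) (l 16480048))) (b (b (l 189682177943) (a (l 16349952) (l 16372744))) (b (a (l 16375032) (l 16397176)) (l 16410816)))))) (a (b (a (c (l 77476339959) (a (l 78549972663) (l 16386200))) (b (l 61370179159) (l 16401448))) (b (c (l 16459296) (l 16397576)) (a (b (l 16451408) (l 16497472)) (l 16445184)))) (b (c (a (l 16501360) (l 16541928)) (a (l 16445112) (l 16511160))) (a (a (l 16482168) (l 16504328)) (l 16517024))))) (a (a (b (c (l 35600738487) (a (l 16534784) (l 16557552))) (c (l 16585016) (l 16544064))) (a (b (b (l 16582512) (l 16593672)) (b (l 16559488) (l 1))) (b (c (b (l 16577328) (l 16567264)) (l 16565056)) (l 1)))) (a (b (a (b (c (l 343630446231) (l 329134989767)) (l 1)) (l 1)) (l 1)) (l 1))))) (l 1)), by decide +kernel⟩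

def k2_pm_202_a : ∃ t, chk3 f_pm_202_a t 2 7 1 = true :=
  ⟨(a (a (a (b (a (b (b (a (l 16418944) (l 16437336)) (l 16349784)) (a (b (l 16533736) (l 16553840)) (l 16485616))) (b (b (c (l 16500552) (l 16438392)) (l 16427776)) (a (l 16549328) (l 16568144)))) (a (b (a (b (l 16661168) (l 16666824)) (l 16606752)) (a (b (l 16606880) (l 16600224)) (b (a (l 16580728) (l 257194307415)) (a (l 367789693623) (l 1))))) (b (b (l 16556104) (a (l 16616248) (l 16562024))) (a (b (b (l 16627168) (l 1)) (l 1)) (l 1))))) (a (b (a (b (l 16451832) (l 16593240)) (b (l 16489888) (l 138545751511))) (b (b (a (l 16593864) (l 1)) (l 1)) (l 1))) (b (b (b (a (l 16556024) (l 16554336)) (a (l 16683608) (l 16617360))) (a (b (l 16600144) (l 16556128)) (b (l 16553880) (l 1)))) (l 1)))) (a (b (b (a (b (a (l 16620648) (l 16586096)) (a (l 16572352) (l 1))) (l 1)) (l 1)) (l 1)) (l 1))) (l 1)), by decide +kernel⟩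

def k3_pm_202_a : ∃ t, chk3 f_pm_202_a t 3 1 1 = true :=
  ⟨(l 1), by decide +kernel⟩

theorem s4_pm_202_a : ∃ t, chk3 f_pm_202_a t 2 3 1 = true := ex3_b k1_pm_202_a k2_pm_202_a

theorem s5_pm_202_a : ∃ t, chk3 f_pm_202_a t 2 1 1 = true := ex3_b k0_pm_202_a s4_pm_202_a

theorem s6_pm_202_a : ∃ t, chk3 f_pm_202_a t 1 1 1 = true := ex3_a s5_pm_202_a k3_pm_202_a

theorem c_pm_202_a : CertB 1073741824 536870912 0 536870912 966367641 24778659 3 eng mog cd2q2 cd1q2a pd0 false true false .pp 2 0 2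
    ndB2q2 ndB1q2a pcB0 Cut.none Ext.none :=
  certB2 (fam := false) (s1 := true) (s2 := false) (a := 2) (b := 0) (c := 2) (cn := .pp) (n1 := ndB2q2) (n2 := ndB1q2a) (pc := pcB0) (cut := Cut.none) (xt := Ext.none) (P1 := 1073741824) (W1 := 536870912) (P2 := 0) (W2 := 536870912) (P3 := 966367641) (W3 := 24778659) (N0 := 3) (En := eng) (mo := mog) (C1 := cd2q2) (C2 := cd1q2a) (C3 := pd0)
    rfl (fun _ => rfl) s6_pm_202_a

noncomputable def f_pm_202_b : ℕ → ℕ → ℕ → ℕ → Bool := onCell 1073741824 536870912 1239849684 370763052 966367641 24778659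
    (rowB 3 eng mog cd2q2 cd1q2b pd0 0 false true false .pp 2 0 2 (qsf 1073741824 536870912 1239849684 370763052 0) ndB2q2 ndB1q2b pcB0 Cut.none Ext.none)

def k0_pm_202_b : ∃ t, chk3 f_pm_202_b t 1 1 1 = true :=
  ⟨(l 3), by decide +kernel⟩

theorem c_pm_202_b : CertB 1073741824 536870912 1239849684 370763052 966367641 24778659 3 eng mog cd2q2 cd1q2b pd0 false true false .pp 2 0 2
    ndB2q2 ndB1q2b pcB0 Cut.none Ext.none :=
  certB0 (fam := false) (s1 := true) (s2 := false) (a := 2) (b := 0) (c := 2) (cn := .pp) (n1 := ndB2q2) (n2 := ndB1q2b) (pc := pcB0) (cut := Cut.none) (xt := Ext.none) (P1 := 1073741824) (W1 := 536870912) (P2 := 1239849684) (W2 := 370763052) (P3 := 966367641) (W3 := 24778659) (N0 := 3) (En := eng) (mo := mog) (C1 := cd2q2) (C2 := cd1q2b) (C3 := pd0)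
    rfl k0_pm_202_b

noncomputable def f_pm_203 : ℕ → ℕ → ℕ → ℕ → Bool := onCell 1073741824 536870912 0 536870912 966367641 24778659
    (rowB 3 eng mog cd2q2 cd1q3 pd0 1 false true false .up 2 0 3 (qsf 1073741824 536870912 1610612736 536870912 0) ndB2q2 ndB1q3 pcB0 Cut.none Ext.none)

def k0_pm_203 : ∃ t, chk3 f_pm_203 t 1 1 1 = true :=
  ⟨(l 3), by decide +kernel⟩

theorem c_pm_203 : CertB 1073741824 536870912 1610612736 536870912 966367641 24778659 3 eng mog cd2q2 cd1q3 pd0 false true false .up 2 0 3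
    ndB2q2 ndB1q3 pcB0 Cut.none Ext.none :=
  certB1 (fam := false) (s1 := true) (s2 := false) (a := 2) (b := 0) (c := 3) (cn := .up) (n1 := ndB2q2) (n2 := ndB1q3) (pc := pcB0) (cut := Cut.none) (xt := Ext.none) (P1 := 1073741824) (W1 := 536870912) (P2 := 1610612736) (W2 := 536870912) (P3 := 966367641) (W3 := 24778659) (N0 := 3) (En := eng) (mo := mog) (C1 := cd2q2) (C2 := cd1q3) (C3 := pd0)
    rfl (fun _ => rfl) k0_pm_203

noncomputable def f_pm_213 : ℕ → ℕ → ℕ → ℕ → Bool := onCell 1073741824 536870912 1610612736 536870912 966367641 24778659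
    (rowB 3 eng mog cd2q2 cd1q3 pd1 0 false true false .pnn 2 1 3 (qsf 1073741824 536870912 1610612736 536870912 1) ndB2q2 ndB1q3 pcB1 Cut.none Ext.none)

def k0_pm_213 : ∃ t, chk3 f_pm_213 t 1 1 1 = true :=
  ⟨(a (b (l 3) (a (b (a (b (l 3) (a (b (l 3) (a (l 16036936) (l 16044488))) (l 3))) (l 3)) (a (b (a (b (b (a (l 16205920) (l 16173856)) (l 16365776)) (a (l 16674504) (l 16544136))) (b (l 3) (a (l 16445960) (l 3)))) (b (a (a (b (l 16704624) (l 16730680)) (b (l 16672432) (l 16696288))) (b (l 16626976) (l 16649272))) (a (b (a (l 16754856) (l 16721936)) (l 16760784)) (b (a (l 16687888) (l 16657176)) (a (l 16712408) (l 16680088)))))) (b (l 3) (b (l 3) (a (b (l 16617152) (l 16617592)) (l 3)))))) (l 3))) (l 3)), by decide +kernel⟩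

theorem c_pm_213 : CertB 1073741824 536870912 1610612736 536870912 966367641 24778659 3 eng mog cd2q2 cd1q3 pd1 false true false .pnn 2 1 3
    ndB2q2 ndB1q3 pcB1 Cut.none Ext.none :=
  certB0 (fam := false) (s1 := true) (s2 := false) (a := 2) (b := 1) (c := 3) (cn := .pnn) (n1 := ndB2q2) (n2 := ndB1q3) (pc := pcB1) (cut := Cut.none) (xt := Ext.none) (P1 := 1073741824) (W1 := 536870912) (P2 := 1610612736) (W2 := 536870912) (P3 := 966367641) (W3 := 24778659) (N0 := 3) (En := eng) (mo := mog) (C1 := cd2q2) (C2 := cd1q3) (C3 := pd1)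
    rfl k0_pm_213

noncomputable def f_pm_303 : ℕ → ℕ → ℕ → ℕ → Bool := onCell 0 1230186008 1610612736 536870912 966367641 24778659
    (rowB 3 eng mog cd2q3 cd1q3 pd0 0 false true false .npn 3 0 3 (qsf 0 1230186008 1610612736 536870912 0) ndB2q3 ndB1q3 pcB0 Cut.none Ext.none)

def k0_pm_303 : ∃ t, chk3 f_pm_303 t 1 1 1 = true :=
  ⟨(a (l 3) (l 3)), by decide +kernel⟩

theorem c_pm_303 : CertB 0 1230186008 1610612736 536870912 966367641 24778659 3 eng mog cd2q3 cd1q3 pd0 false true false .npn 3 0 3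
    ndB2q3 ndB1q3 pcB0 Cut.none Ext.none :=
  certB0 (fam := false) (s1 := true) (s2 := false) (a := 3) (b := 0) (c := 3) (cn := .npn) (n1 := ndB2q3) (n2 := ndB1q3) (pc := pcB0) (cut := Cut.none) (xt := Ext.none) (P1 := 0) (W1 := 1230186008) (P2 := 1610612736) (W2 := 536870912) (P3 := 966367641) (W3 := 24778659) (N0 := 3) (En := eng) (mo := mog) (C1 := cd2q3) (C2 := cd1q3) (C3 := pd0)
    rfl k0_pm_303

noncomputable def f_pm_313 : ℕ → ℕ → ℕ → ℕ → Bool := onCell 0 1230186008 1610612736 536870912 966367641 24778659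
    (rowB 3 eng mog cd2q3 cd1q3 pd1 0 false true false .dn 3 1 3 (qsf 0 1230186008 1610612736 536870912 1) ndB2q3 ndB1q3 pcB1 Cut.none Ext.none)

def k0_pm_313 : ∃ t, chk3 f_pm_313 t 1 1 1 = true :=
  ⟨(a (l 1) (l 3)), by decide +kernel⟩

theorem c_pm_313 : CertB 0 1230186008 1610612736 536870912 966367641 24778659 3 eng mog cd2q3 cd1q3 pd1 false true false .dn 3 1 3
    ndB2q3 ndB1q3 pcB1 Cut.none Ext.none :=
  certB0 (fam := false) (s1 := true) (s2 := false) (a := 3) (b := 1) (c := 3) (cn := .dn) (n1 := ndB2q3) (n2 := ndB1q3) (pc := pcB1) (cut := Cut.none) (xt := Ext.none) (P1 := 0) (W1 := 1230186008) (P2 := 1610612736) (W2 := 536870912) (P3 := 966367641) (W3 := 24778659) (N0 := 3) (En := eng) (mo := mog) (C1 := cd2q3) (C2 := cd1q3) (C3 := pd1)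
    rfl k0_pm_313

noncomputable def f_mm_001 : ℕ → ℕ → ℕ → ℕ → Bool := onCell 0 536870912 536870912 536870912 966367641 24778659
    (rowB 3 eng mog cd2q0 cd1q1 pd0 0 false false false .up 0 0 1 (qsf 0 536870912 536870912 536870912 0) ndB2q0 ndB1q1 pcB0 Cut.none Ext.none)

def k0_mm_001 : ∃ t, chk3 f_mm_001 t 1 1 1 = true :=
  ⟨(l 3), by decide +kernel⟩

theorem c_mm_001 : CertB 0 536870912 536870912 536870912 966367641 24778659 3 eng mog cd2q0 cd1q1 pd0 false false false .up 0 0 1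
    ndB2q0 ndB1q1 pcB0 Cut.none Ext.none :=
  certB0 (fam := false) (s1 := false) (s2 := false) (a := 0) (b := 0) (c := 1) (cn := .up) (n1 := ndB2q0) (n2 := ndB1q1) (pc := pcB0) (cut := Cut.none) (xt := Ext.none) (P1 := 0) (W1 := 536870912) (P2 := 536870912) (W2 := 536870912) (P3 := 966367641) (W3 := 24778659) (N0 := 3) (En := eng) (mo := mog) (C1 := cd2q0) (C2 := cd1q1) (C3 := pd0)
    rfl k0_mm_001

noncomputable def f_mm_011 : ℕ → ℕ → ℕ → ℕ → Bool := onCell 0 536870912 536870912 536870912 966367641 24778659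
    (rowB 3 eng mog cd2q0 cd1q1 pd1 0 false false false .pnn 0 1 1 (qsf 0 536870912 536870912 536870912 1) ndB2q0 ndB1q1 pcB1 Cut.none Ext.none)

def k0_mm_011 : ∃ t, chk3 f_mm_011 t 1 1 1 = true :=
  ⟨(l 3), by decide +kernel⟩

theorem c_mm_011 : CertB 0 536870912 536870912 536870912 966367641 24778659 3 eng mog cd2q0 cd1q1 pd1 false false false .pnn 0 1 1
    ndB2q0 ndB1q1 pcB1 Cut.none Ext.none :=
  certB0 (fam := false) (s1 := false) (s2 := false) (a := 0) (b := 1) (c := 1) (cn := .pnn) (n1 := ndB2q0) (n2 := ndB1q1) (pc := pcB1) (cut := Cut.none) (xt := Ext.none) (P1 := 0) (W1 := 536870912) (P2 := 536870912) (W2 := 536870912) (P3 := 966367641) (W3 := 24778659) (N0 := 3) (En := eng) (mo := mog) (C1 := cd2q0) (C2 := cd1q1) (C3 := pd1)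
    rfl k0_mm_011

noncomputable def f_mm_012_a : ℕ → ℕ → ℕ → ℕ → Bool := onCell 0 536870912 0 536870912 966367641 24778659
    (rowB 3 eng mog cd2q0 cd1q2a pd1 0 false false false .pnp 0 1 2 (qsf 0 536870912 0 536870912 1) ndB2q0 ndB1q2a pcB1 Cut.none Ext.none)

def k0_mm_012_a : ∃ t, chk3 f_mm_012_a t 1 1 1 = true :=
  ⟨(l 5), by decide +kernel⟩

theorem c_mm_012_a : CertB 0 536870912 0 536870912 966367641 24778659 3 eng mog cd2q0 cd1q2a pd1 false false false .pnp 0 1 2
    ndB2q0 ndB1q2a pcB1 Cut.none Ext.none :=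
  certB0 (fam := false) (s1 := false) (s2 := false) (a := 0) (b := 1) (c := 2) (cn := .pnp) (n1 := ndB2q0) (n2 := ndB1q2a) (pc := pcB1) (cut := Cut.none) (xt := Ext.none) (P1 := 0) (W1 := 536870912) (P2 := 0) (W2 := 536870912) (P3 := 966367641) (W3 := 24778659) (N0 := 3) (En := eng) (mo := mog) (C1 := cd2q0) (C2 := cd1q2a) (C3 := pd1)
    rfl k0_mm_012_a

noncomputable def f_mm_012_b : ℕ → ℕ → ℕ → ℕ → Bool := onCell 0 536870912 1239849684 370763052 966367641 24778659
    (rowB 3 eng mog cd2q0 cd1q2b pd1 0 false false false .pnp 0 1 2 (qsf 0 536870912 1239849684 370763052 1) ndB2q0 ndB1q2b pcB1 Cut.none Ext.none)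

def k0_mm_012_b : ∃ t, chk3 f_mm_012_b t 1 1 1 = true :=
  ⟨(l 5), by decide +kernel⟩

theorem c_mm_012_b : CertB 0 536870912 1239849684 370763052 966367641 24778659 3 eng mog cd2q0 cd1q2b pd1 false false false .pnp 0 1 2
    ndB2q0 ndB1q2b pcB1 Cut.none Ext.none :=
  certB0 (fam := false) (s1 := false) (s2 := false) (a := 0) (b := 1) (c := 2) (cn := .pnp) (n1 := ndB2q0) (n2 := ndB1q2b) (pc := pcB1) (cut := Cut.none) (xt := Ext.none) (P1 := 0) (W1 := 536870912) (P2 := 1239849684) (W2 := 370763052) (P3 := 966367641) (W3 := 24778659) (N0 := 3) (En := eng) (mo := mog) (C1 := cd2q0) (C2 := cd1q2b) (C3 := pd1)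
    rfl k0_mm_012_b

noncomputable def f_mm_022_a : ℕ → ℕ → ℕ → ℕ → Bool := onCell 0 536870912 0 536870912 966367641 24778659
    (rowB 3 eng mog cd2q0 cd1q2a pd2 0 false false false .pp 0 2 2 (qsf 0 536870912 0 536870912 2) ndB2q0 ndB1q2a pcB2 Cut.none Ext.none)

def k0_mm_022_a : ∃ t, chk3 f_mm_022_a t 1 1 1 = true :=
  ⟨(l 5), by decide +kernel⟩

theorem c_mm_022_a : CertB 0 536870912 0 536870912 966367641 24778659 3 eng mog cd2q0 cd1q2a pd2 false false false .pp 0 2 2
    ndB2q0 ndB1q2a pcB2 Cut.none Ext.none :=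
  certB0 (fam := false) (s1 := false) (s2 := false) (a := 0) (b := 2) (c := 2) (cn := .pp) (n1 := ndB2q0) (n2 := ndB1q2a) (pc := pcB2) (cut := Cut.none) (xt := Ext.none) (P1 := 0) (W1 := 536870912) (P2 := 0) (W2 := 536870912) (P3 := 966367641) (W3 := 24778659) (N0 := 3) (En := eng) (mo := mog) (C1 := cd2q0) (C2 := cd1q2a) (C3 := pd2)
    rfl k0_mm_022_a

noncomputable def f_mm_022_b : ℕ → ℕ → ℕ → ℕ → Bool := onCell 0 536870912 1239849684 370763052 966367641 24778659
    (rowB 3 eng mog cd2q0 cd1q2b pd2 0 false false false .pp 0 2 2 (qsf 0 536870912 1239849684 370763052 2) ndB2q0 ndB1q2b pcB2 Cut.none Ext.none)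

def k0_mm_022_b : ∃ t, chk3 f_mm_022_b t 1 1 1 = true :=
  ⟨(l 5), by decide +kernel⟩

theorem c_mm_022_b : CertB 0 536870912 1239849684 370763052 966367641 24778659 3 eng mog cd2q0 cd1q2b pd2 false false false .pp 0 2 2
    ndB2q0 ndB1q2b pcB2 Cut.none Ext.none :=
  certB0 (fam := false) (s1 := false) (s2 := false) (a := 0) (b := 2) (c := 2) (cn := .pp) (n1 := ndB2q0) (n2 := ndB1q2b) (pc := pcB2) (cut := Cut.none) (xt := Ext.none) (P1 := 0) (W1 := 536870912) (P2 := 1239849684) (W2 := 370763052) (P3 := 966367641) (W3 := 24778659) (N0 := 3) (En := eng) (mo := mog) (C1 := cd2q0) (C2 := cd1q2b) (C3 := pd2)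
    rfl k0_mm_022_b

noncomputable def f_mm_023 : ℕ → ℕ → ℕ → ℕ → Bool := onCell 0 536870912 1610612736 536870912 966367641 24778659
    (rowB 3 eng mog cd2q0 cd1q3 pd2 0 false false false .up 0 2 3 (qsf 0 536870912 1610612736 536870912 2) ndB2q0 ndB1q3 pcB2 Cut.none Ext.none)

def k0_mm_023 : ∃ t, chk3 f_mm_023 t 1 1 1 = true :=
  ⟨(l 5), by decide +kernel⟩

theorem c_mm_023 : CertB 0 536870912 1610612736 536870912 966367641 24778659 3 eng mog cd2q0 cd1q3 pd2 false false false .up 0 2 3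
    ndB2q0 ndB1q3 pcB2 Cut.none Ext.none :=
  certB0 (fam := false) (s1 := false) (s2 := false) (a := 0) (b := 2) (c := 3) (cn := .up) (n1 := ndB2q0) (n2 := ndB1q3) (pc := pcB2) (cut := Cut.none) (xt := Ext.none) (P1 := 0) (W1 := 536870912) (P2 := 1610612736) (W2 := 536870912) (P3 := 966367641) (W3 := 24778659) (N0 := 3) (En := eng) (mo := mog) (C1 := cd2q0) (C2 := cd1q3) (C3 := pd2)
    rfl k0_mm_023

noncomputable def f_mm_033 : ℕ → ℕ → ℕ → ℕ → Bool := onCell 0 536870912 1610612736 536870912 966367641 24778659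
    (rowB 3 eng mog cd2q0 cd1q3 pd3 0 false false false .pnn 0 3 3 (qsf 0 536870912 1610612736 536870912 3) ndB2q0 ndB1q3 pcB3 Cut.none Ext.none)

def k0_mm_033 : ∃ t, chk3 f_mm_033 t 1 1 1 = true :=
  ⟨(l 5), by decide +kernel⟩

theorem c_mm_033 : CertB 0 536870912 1610612736 536870912 966367641 24778659 3 eng mog cd2q0 cd1q3 pd3 false false false .pnn 0 3 3
    ndB2q0 ndB1q3 pcB3 Cut.none Ext.none :=
  certB0 (fam := false) (s1 := false) (s2 := false) (a := 0) (b := 3) (c := 3) (cn := .pnn) (n1 := ndB2q0) (n2 := ndB1q3) (pc := pcB3) (cut := Cut.none) (xt := Ext.none) (P1 := 0) (W1 := 536870912) (P2 := 1610612736) (W2 := 536870912) (P3 := 966367641) (W3 := 24778659) (N0 := 3) (En := eng) (mo := mog) (C1 := cd2q0) (C2 := cd1q3) (C3 := pd3)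
    rfl k0_mm_033

noncomputable def f_mm_101 : ℕ → ℕ → ℕ → ℕ → Bool := onCell 536870912 536870912 536870912 536870912 966367641 24778659
    (rowB 3 eng mog cd2q1 cd1q1 pd0 0 false false false .npn 1 0 1 (qsf 536870912 536870912 536870912 536870912 0) ndB2q1 ndB1q1 pcB0 Cut.none Ext.none)

def k0_mm_101 : ∃ t, chk3 f_mm_101 t 1 1 1 = true :=
  ⟨(l 3), by decide +kernel⟩

theorem c_mm_101 : CertB 536870912 536870912 536870912 536870912 966367641 24778659 3 eng mog cd2q1 cd1q1 pd0 false false false .npn 1 0 1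
    ndB2q1 ndB1q1 pcB0 Cut.none Ext.none :=
  certB0 (fam := false) (s1 := false) (s2 := false) (a := 1) (b := 0) (c := 1) (cn := .npn) (n1 := ndB2q1) (n2 := ndB1q1) (pc := pcB0) (cut := Cut.none) (xt := Ext.none) (P1 := 536870912) (W1 := 536870912) (P2 := 536870912) (W2 := 536870912) (P3 := 966367641) (W3 := 24778659) (N0 := 3) (En := eng) (mo := mog) (C1 := cd2q1) (C2 := cd1q1) (C3 := pd0)
    rfl k0_mm_101

noncomputable def f_mm_102_a : ℕ → ℕ → ℕ → ℕ → Bool := onCell 536870912 536870912 0 536870912 966367641 24778659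
    (rowB 3 eng mog cd2q1 cd1q2a pd0 0 false false false .npp 1 0 2 (qsf 536870912 536870912 0 536870912 0) ndB2q1 ndB1q2a pcB0 Cut.none Ext.none)

def k0_mm_102_a : ∃ t, chk3 f_mm_102_a t 1 1 1 = true :=
  ⟨(l 5), by decide +kernel⟩

theorem c_mm_102_a : CertB 536870912 536870912 0 536870912 966367641 24778659 3 eng mog cd2q1 cd1q2a pd0 false false false .npp 1 0 2
    ndB2q1 ndB1q2a pcB0 Cut.none Ext.none :=
  certB0 (fam := false) (s1 := false) (s2 := false) (a := 1) (b := 0) (c := 2) (cn := .npp) (n1 := ndB2q1) (n2 := ndB1q2a) (pc := pcB0) (cut := Cut.none) (xt := Ext.none) (P1 := 536870912) (W1 := 536870912) (P2 := 0) (W2 := 536870912) (P3 := 966367641) (W3 := 24778659) (N0 := 3) (En := eng) (mo := mog) (C1 := cd2q1) (C2 := cd1q2a) (C3 := pd0)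
    rfl k0_mm_102_a

noncomputable def f_mm_102_b : ℕ → ℕ → ℕ → ℕ → Bool := onCell 536870912 536870912 1239849684 370763052 966367641 24778659
    (rowB 3 eng mog cd2q1 cd1q2b pd0 0 false false false .npp 1 0 2 (qsf 536870912 536870912 1239849684 370763052 0) ndB2q1 ndB1q2b pcB0 Cut.none Ext.none)

def k0_mm_102_b : ∃ t, chk3 f_mm_102_b t 1 1 1 = true :=
  ⟨(l 5), by decide +kernel⟩

theorem c_mm_102_b : CertB 536870912 536870912 1239849684 370763052 966367641 24778659 3 eng mog cd2q1 cd1q2b pd0 false false false .npp 1 0 2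
    ndB2q1 ndB1q2b pcB0 Cut.none Ext.none :=
  certB0 (fam := false) (s1 := false) (s2 := false) (a := 1) (b := 0) (c := 2) (cn := .npp) (n1 := ndB2q1) (n2 := ndB1q2b) (pc := pcB0) (cut := Cut.none) (xt := Ext.none) (P1 := 536870912) (W1 := 536870912) (P2 := 1239849684) (W2 := 370763052) (P3 := 966367641) (W3 := 24778659) (N0 := 3) (En := eng) (mo := mog) (C1 := cd2q1) (C2 := cd1q2b) (C3 := pd0)
    rfl k0_mm_102_b

noncomputable def f_mm_112_a : ℕ → ℕ → ℕ → ℕ → Bool := onCell 536870912 536870912 0 536870912 966367641 24778659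
    (rowB 3 eng mog cd2q1 cd1q2a pd1 0 false false false .dn 1 1 2 (qsf 536870912 536870912 0 536870912 1) ndB2q1 ndB1q2a pcB1 Cut.none Ext.none)

def k0_mm_112_a : ∃ t, chk3 f_mm_112_a t 1 1 1 = true :=
  ⟨(l 5), by decide +kernel⟩

theorem c_mm_112_a : CertB 536870912 536870912 0 536870912 966367641 24778659 3 eng mog cd2q1 cd1q2a pd1 false false false .dn 1 1 2
    ndB2q1 ndB1q2a pcB1 Cut.none Ext.none :=
  certB0 (fam := false) (s1 := false) (s2 := false) (a := 1) (b := 1) (c := 2) (cn := .dn) (n1 := ndB2q1) (n2 := ndB1q2a) (pc := pcB1) (cut := Cut.none) (xt := Ext.none) (P1 := 536870912) (W1 := 536870912) (P2 := 0) (W2 := 536870912) (P3 := 966367641) (W3 := 24778659) (N0 := 3) (En := eng) (mo := mog) (C1 := cd2q1) (C2 := cd1q2a) (C3 := pd1)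
    rfl k0_mm_112_a

noncomputable def f_mm_112_b : ℕ → ℕ → ℕ → ℕ → Bool := onCell 536870912 536870912 1239849684 370763052 966367641 24778659
    (rowB 3 eng mog cd2q1 cd1q2b pd1 0 false false false .dn 1 1 2 (qsf 536870912 536870912 1239849684 370763052 1) ndB2q1 ndB1q2b pcB1 Cut.none Ext.none)

def k0_mm_112_b : ∃ t, chk3 f_mm_112_b t 1 1 1 = true :=
  ⟨(l 5), by decide +kernel⟩

theorem c_mm_112_b : CertB 536870912 536870912 1239849684 370763052 966367641 24778659 3 eng mog cd2q1 cd1q2b pd1 false false false .dn 1 1 2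
    ndB2q1 ndB1q2b pcB1 Cut.none Ext.none :=
  certB0 (fam := false) (s1 := false) (s2 := false) (a := 1) (b := 1) (c := 2) (cn := .dn) (n1 := ndB2q1) (n2 := ndB1q2b) (pc := pcB1) (cut := Cut.none) (xt := Ext.none) (P1 := 536870912) (W1 := 536870912) (P2 := 1239849684) (W2 := 370763052) (P3 := 966367641) (W3 := 24778659) (N0 := 3) (En := eng) (mo := mog) (C1 := cd2q1) (C2 := cd1q2b) (C3 := pd1)
    rfl k0_mm_112_b

noncomputable def f_mm_113 : ℕ → ℕ → ℕ → ℕ → Bool := onCell 536870912 536870912 1610612736 536870912 966367641 24778659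
    (rowB 3 eng mog cd2q1 cd1q3 pd1 0 false false false .nn 1 1 3 (qsf 536870912 536870912 1610612736 536870912 1) ndB2q1 ndB1q3 pcB1 Cut.none Ext.none)

def k0_mm_113 : ∃ t, chk3 f_mm_113 t 1 1 1 = true :=
  ⟨(l 5), by decide +kernel⟩

theorem c_mm_113 : CertB 536870912 536870912 1610612736 536870912 966367641 24778659 3 eng mog cd2q1 cd1q3 pd1 false false false .nn 1 1 3
    ndB2q1 ndB1q3 pcB1 Cut.none Ext.none :=
  certB0 (fam := false) (s1 := false) (s2 := false) (a := 1) (b := 1) (c := 3) (cn := .nn) (n1 := ndB2q1) (n2 := ndB1q3) (pc := pcB1) (cut := Cut.none) (xt := Ext.none) (P1 := 536870912) (W1 := 536870912) (P2 := 1610612736) (W2 := 536870912) (P3 := 966367641) (W3 := 24778659) (N0 := 3) (En := eng) (mo := mog) (C1 := cd2q1) (C2 := cd1q3) (C3 := pd1)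
    rfl k0_mm_113

noncomputable def f_mm_123 : ℕ → ℕ → ℕ → ℕ → Bool := onCell 536870912 536870912 1610612736 536870912 966367641 24778659
    (rowB 3 eng mog cd2q1 cd1q3 pd2 0 false false false .npn 1 2 3 (qsf 536870912 536870912 1610612736 536870912 2) ndB2q1 ndB1q3 pcB2 Cut.none Ext.none)

def k0_mm_123 : ∃ t, chk3 f_mm_123 t 1 1 1 = true :=
  ⟨(l 5), by decide +kernel⟩

theorem c_mm_123 : CertB 536870912 536870912 1610612736 536870912 966367641 24778659 3 eng mog cd2q1 cd1q3 pd2 false false false .npn 1 2 3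
    ndB2q1 ndB1q3 pcB2 Cut.none Ext.none :=
  certB0 (fam := false) (s1 := false) (s2 := false) (a := 1) (b := 2) (c := 3) (cn := .npn) (n1 := ndB2q1) (n2 := ndB1q3) (pc := pcB2) (cut := Cut.none) (xt := Ext.none) (P1 := 536870912) (W1 := 536870912) (P2 := 1610612736) (W2 := 536870912) (P3 := 966367641) (W3 := 24778659) (N0 := 3) (En := eng) (mo := mog) (C1 := cd2q1) (C2 := cd1q3) (C3 := pd2)
    rfl k0_mm_123

noncomputable def f_mm_133 : ℕ → ℕ → ℕ → ℕ → Bool := onCell 536870912 536870912 1610612736 536870912 966367641 24778659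
    (rowB 3 eng mog cd2q1 cd1q3 pd3 0 false false false .dn 1 3 3 (qsf 536870912 536870912 1610612736 536870912 3) ndB2q1 ndB1q3 pcB3 Cut.none Ext.none)

def k0_mm_133 : ∃ t, chk3 f_mm_133 t 1 1 1 = true :=
  ⟨(l 5), by decide +kernel⟩

theorem c_mm_133 : CertB 536870912 536870912 1610612736 536870912 966367641 24778659 3 eng mog cd2q1 cd1q3 pd3 false false false .dn 1 3 3
    ndB2q1 ndB1q3 pcB3 Cut.none Ext.none :=
  certB0 (fam := false) (s1 := false) (s2 := false) (a := 1) (b := 3) (c := 3) (cn := .dn) (n1 := ndB2q1) (n2 := ndB1q3) (pc := pcB3) (cut := Cut.none) (xt := Ext.none) (P1 := 536870912) (W1 := 536870912) (P2 := 1610612736) (W2 := 536870912) (P3 := 966367641) (W3 := 24778659) (N0 := 3) (En := eng) (mo := mog) (C1 := cd2q1) (C2 := cd1q3) (C3 := pd3)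
    rfl k0_mm_133

noncomputable def f_mm_202_a : ℕ → ℕ → ℕ → ℕ → Bool := onCell 1073741824 536870912 0 536870912 966367641 24778659
    (rowB 3 eng mog cd2q2 cd1q2a pd0 0 false false false .pp 2 0 2 (qsf 1073741824 536870912 0 536870912 0) ndB2q2 ndB1q2a pcB0 Cut.none Ext.none)

def k0_mm_202_a : ∃ t, chk3 f_mm_202_a t 1 1 1 = true :=
  ⟨(l 3), by decide +kernel⟩

theorem c_mm_202_a : CertB 1073741824 536870912 0 536870912 966367641 24778659 3 eng mog cd2q2 cd1q2a pd0 false false false .pp 2 0 2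
    ndB2q2 ndB1q2a pcB0 Cut.none Ext.none :=
  certB0 (fam := false) (s1 := false) (s2 := false) (a := 2) (b := 0) (c := 2) (cn := .pp) (n1 := ndB2q2) (n2 := ndB1q2a) (pc := pcB0) (cut := Cut.none) (xt := Ext.none) (P1 := 1073741824) (W1 := 536870912) (P2 := 0) (W2 := 536870912) (P3 := 966367641) (W3 := 24778659) (N0 := 3) (En := eng) (mo := mog) (C1 := cd2q2) (C2 := cd1q2a) (C3 := pd0)
    rfl k0_mm_202_a

noncomputable def f_mm_202_b : ℕ → ℕ → ℕ → ℕ → Bool := onCell 1073741824 536870912 1239849684 370763052 966367641 24778659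
    (rowB 3 eng mog cd2q2 cd1q2b pd0 0 false false false .pp 2 0 2 (qsf 1073741824 536870912 1239849684 370763052 0) ndB2q2 ndB1q2b pcB0 Cut.none Ext.none)

def k0_mm_202_b : ∃ t, chk3 f_mm_202_b t 1 1 1 = true :=
  ⟨(l 3), by decide +kernel⟩

theorem c_mm_202_b : CertB 1073741824 536870912 1239849684 370763052 966367641 24778659 3 eng mog cd2q2 cd1q2b pd0 false false false .pp 2 0 2
    ndB2q2 ndB1q2b pcB0 Cut.none Ext.none :=
  certB0 (fam := false) (s1 := false) (s2 := false) (a := 2) (b := 0) (c := 2) (cn := .pp) (n1 := ndB2q2) (n2 := ndB1q2b) (pc := pcB0) (cut := Cut.none) (xt := Ext.none) (P1 := 1073741824) (W1 := 536870912) (P2 := 1239849684) (W2 := 370763052) (P3 := 966367641) (W3 := 24778659) (N0 := 3) (En := eng) (mo := mog) (C1 := cd2q2) (C2 := cd1q2b) (C3 := pd0)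
    rfl k0_mm_202_b

noncomputable def f_mm_203 : ℕ → ℕ → ℕ → ℕ → Bool := onCell 1073741824 536870912 1610612736 536870912 966367641 24778659
    (rowB 3 eng mog cd2q2 cd1q3 pd0 0 false false false .up 2 0 3 (qsf 1073741824 536870912 1610612736 536870912 0) ndB2q2 ndB1q3 pcB0 Cut.none Ext.none)

def k0_mm_203 : ∃ t, chk3 f_mm_203 t 1 1 1 = true :=
  ⟨(l 5), by decide +kernel⟩

theorem c_mm_203 : CertB 1073741824 536870912 1610612736 536870912 966367641 24778659 3 eng mog cd2q2 cd1q3 pd0 false false false .up 2 0 3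
    ndB2q2 ndB1q3 pcB0 Cut.none Ext.none :=
  certB0 (fam := false) (s1 := false) (s2 := false) (a := 2) (b := 0) (c := 3) (cn := .up) (n1 := ndB2q2) (n2 := ndB1q3) (pc := pcB0) (cut := Cut.none) (xt := Ext.none) (P1 := 1073741824) (W1 := 536870912) (P2 := 1610612736) (W2 := 536870912) (P3 := 966367641) (W3 := 24778659) (N0 := 3) (En := eng) (mo := mog) (C1 := cd2q2) (C2 := cd1q3) (C3 := pd0)
    rfl k0_mm_203

noncomputable def f_mm_213 : ℕ → ℕ → ℕ → ℕ → Bool := onCell 1073741824 536870912 1610612736 536870912 966367641 24778659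
    (rowB 3 eng mog cd2q2 cd1q3 pd1 0 false false false .pnn 2 1 3 (qsf 1073741824 536870912 1610612736 536870912 1) ndB2q2 ndB1q3 pcB1 Cut.none Ext.none)

def k0_mm_213 : ∃ t, chk3 f_mm_213 t 1 1 1 = true :=
  ⟨(l 5), by decide +kernel⟩

theorem c_mm_213 : CertB 1073741824 536870912 1610612736 536870912 966367641 24778659 3 eng mog cd2q2 cd1q3 pd1 false false false .pnn 2 1 3
    ndB2q2 ndB1q3 pcB1 Cut.none Ext.none :=
  certB0 (fam := false) (s1 := false) (s2 := false) (a := 2) (b := 1) (c := 3) (cn := .pnn) (n1 := ndB2q2) (n2 := ndB1q3) (pc := pcB1) (cut := Cut.none) (xt := Ext.none) (P1 := 1073741824) (W1 := 536870912) (P2 := 1610612736) (W2 := 536870912) (P3 := 966367641) (W3 := 24778659) (N0 := 3) (En := eng) (mo := mog) (C1 := cd2q2) (C2 := cd1q3) (C3 := pd1)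
    rfl k0_mm_213

noncomputable def f_mm_303 : ℕ → ℕ → ℕ → ℕ → Bool := onCell 0 1230186008 1610612736 536870912 966367641 24778659
    (rowB 3 eng mog cd2q3 cd1q3 pd0 0 false false false .npn 3 0 3 (qsf 0 1230186008 1610612736 536870912 0) ndB2q3 ndB1q3 pcB0 Cut.none Ext.none)

def k0_mm_303 : ∃ t, chk3 f_mm_303 t 1 1 1 = true :=
  ⟨(a (l 3) (l 3)), by decide +kernel⟩

theorem c_mm_303 : CertB 0 1230186008 1610612736 536870912 966367641 24778659 3 eng mog cd2q3 cd1q3 pd0 false false false .npn 3 0 3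
    ndB2q3 ndB1q3 pcB0 Cut.none Ext.none :=
  certB0 (fam := false) (s1 := false) (s2 := false) (a := 3) (b := 0) (c := 3) (cn := .npn) (n1 := ndB2q3) (n2 := ndB1q3) (pc := pcB0) (cut := Cut.none) (xt := Ext.none) (P1 := 0) (W1 := 1230186008) (P2 := 1610612736) (W2 := 536870912) (P3 := 966367641) (W3 := 24778659) (N0 := 3) (En := eng) (mo := mog) (C1 := cd2q3) (C2 := cd1q3) (C3 := pd0)
    rfl k0_mm_303

noncomputable def f_mm_313 : ℕ → ℕ → ℕ → ℕ → Bool := onCell 0 1230186008 1610612736 536870912 966367641 24778659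
    (rowB 3 eng mog cd2q3 cd1q3 pd1 0 false false false .dn 3 1 3 (qsf 0 1230186008 1610612736 536870912 1) ndB2q3 ndB1q3 pcB1 Cut.none Ext.none)

def k0_mm_313 : ∃ t, chk3 f_mm_313 t 1 1 1 = true :=
  ⟨(a (l 1) (l 3)), by decide +kernel⟩

theorem c_mm_313 : CertB 0 1230186008 1610612736 536870912 966367641 24778659 3 eng mog cd2q3 cd1q3 pd1 false false false .dn 3 1 3
    ndB2q3 ndB1q3 pcB1 Cut.none Ext.none :=
  certB0 (fam := false) (s1 := false) (s2 := false) (a := 3) (b := 1) (c := 3) (cn := .dn) (n1 := ndB2q3) (n2 := ndB1q3) (pc := pcB1) (cut := Cut.none) (xt := Ext.none) (P1 := 0) (W1 := 1230186008) (P2 := 1610612736) (W2 := 536870912) (P3 := 966367641) (W3 := 24778659) (N0 := 3) (En := eng) (mo := mog) (C1 := cd2q3) (C2 := cd1q3) (C3 := pd1)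
    rfl k0_mm_313

end Pool.Agent.Strip051.G.I9000_9231.Tab.C.BB21

namespace Pool.Agent.Strip051.G.I9000_9231.Tab.C.BB22

open Pool.Agent.Strip051.PB Pool.Agent.Strip051.PB.T
open Pool.Agent.Strip051.G.I9000_9231.Tab

noncomputable def f_pp_001 : ℕ → ℕ → ℕ → ℕ → Bool := onCell 0 536870912 0 536870912 966367641 24778659
    (rowB 3 eng mog cd2q0 cd2q1 pd0 1 false true true .up 0 0 1 (qsf 0 536870912 536870912 536870912 0) ndB2q0 ndB2q1 pcB0 Cut.none Ext.none)

def k0_pp_001 : ∃ t, chk3 f_pp_001 t 1 1 1 = true :=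
  ⟨(l 3), by decide +kernel⟩

theorem c_pp_001 : CertB 0 536870912 536870912 536870912 966367641 24778659 3 eng mog cd2q0 cd2q1 pd0 false true true .up 0 0 1
    ndB2q0 ndB2q1 pcB0 Cut.none Ext.none :=
  certB1 (fam := false) (s1 := true) (s2 := true) (a := 0) (b := 0) (c := 1) (cn := .up) (n1 := ndB2q0) (n2 := ndB2q1) (pc := pcB0) (cut := Cut.none) (xt := Ext.none) (P1 := 0) (W1 := 536870912) (P2 := 536870912) (W2 := 536870912) (P3 := 966367641) (W3 := 24778659) (N0 := 3) (En := eng) (mo := mog) (C1 := cd2q0) (C2 := cd2q1) (C3 := pd0)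
    rfl (fun _ => rfl) k0_pp_001

noncomputable def f_pp_011 : ℕ → ℕ → ℕ → ℕ → Bool := onCell 0 536870912 536870912 536870912 966367641 24778659
    (rowB 3 eng mog cd2q0 cd2q1 pd1 1 false true true .pnn 0 1 1 (qsf 0 536870912 536870912 536870912 1) ndB2q0 ndB2q1 pcB1 Cut.none Ext.none)

def k0_pp_011 : ∃ t, chk3 f_pp_011 t 1 1 1 = true :=
  ⟨(a (l 3) (l 3)), by decide +kernel⟩

theorem c_pp_011 : CertB 0 536870912 536870912 536870912 966367641 24778659 3 eng mog cd2q0 cd2q1 pd1 false true true .pnn 0 1 1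
    ndB2q0 ndB2q1 pcB1 Cut.none Ext.none :=
  certB1 (fam := false) (s1 := true) (s2 := true) (a := 0) (b := 1) (c := 1) (cn := .pnn) (n1 := ndB2q0) (n2 := ndB2q1) (pc := pcB1) (cut := Cut.none) (xt := Ext.none) (P1 := 0) (W1 := 536870912) (P2 := 536870912) (W2 := 536870912) (P3 := 966367641) (W3 := 24778659) (N0 := 3) (En := eng) (mo := mog) (C1 := cd2q0) (C2 := cd2q1) (C3 := pd1)
    rfl (fun _ => rfl) k0_pp_011

noncomputable def f_pp_012 : ℕ → ℕ → ℕ → ℕ → Bool := onCell 0 536870912 536870912 536870912 966367641 24778659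
    (rowB 3 eng mog cd2q0 cd2q2 pd1 1 false true true .pnp 0 1 2 (qsf 0 536870912 1073741824 536870912 1) ndB2q0 ndB2q2 pcB1 Cut.none Ext.none)

def k0_pp_012 : ∃ t, chk3 f_pp_012 t 2 1 1 = true :=
  ⟨(b (l 3) (a (b (l 3) (a (b (l 3) (a (b (l 3) (b (l 3) (a (l 3) (b (l 521468888327) (l 311015394119))))) (a (b (l 3) (b (b (l 3) (l 16519840)) (b (l 16487504) (l 16457288)))) (b (b (l 3) (a (l 3) (l 442011684167))) (a (b (l 16453968) (l 16391928)) (b (l 16411864) (l 16350856))))))) (b (a (l 3) (b (l 3) (a (b (l 3) (l 513952320343)) (b (l 606831137847) (l 16401632))))) (a (b (a (b (a (l 3) (l 16462328)) (a (l 16429520) (l 16434248))) (b (a (l 16439560) (l 16420904)) (l 16410896))) (a (b (a (l 16393560) (l 16375576)) (a (l 16333016) (l 16315592))) (b (l 16348792) (l 16289752)))) (b (a (b (l 16428104) (l 16377176)) (b (l 16400968) (l 16343040))) (a (b (l 16315128) (l 16257400)) (b (l 16281904) (l 16225488)))))))) (b (b (a (l 3) (b (l 3) (a (l 3) (l 475833873143))))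 (a (a (l 3) (b (l 3) (l 546701141287))) (b (a (l 566565209351) (l 333562842039)) (a (l 329804860599) (l 16105544))))) (b (a (b (a (b (l 597167302007) (l 541869416759)) (b (l 16235912) (l 16282640))) (a (b (l 16329736) (l 16351392)) (l 16230904))) (b (a (l 16172472) (l 16035080)) (a (l 16086624) (l 15946144)))) (b (a (a (b (l 16301128) (l 16243264)) (l 16126448)) (a (l 15984704) (l 15848248))) (a (a (l 16135088) (l 16016512)) (l 15815072))))))), by decide +kernel⟩

def k1_pp_012 : ∃ t, chk3 f_pp_012 t 3 1 1 = true :=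
  ⟨(b (b (a (l 3) (b (l 3) (a (l 3) (b (l 3) (a (l 3) (l 270749073543)))))) (a (b (l 3) (a (l 3) (b (a (l 3) (l 255716813911)) (a (l 299203196247) (l 337320605479))))) (b (a (b (l 3) (a (l 3) (l 304035028391))) (b (a (l 281486467031) (b (l 15833936) (l 15813448))) (a (l 264306385175) (l 15725224)))) (a (b (a (l 305645659735) (l 15819960)) (a (l 15830168) (l 15735648))) (b (c (l 15709304) (l 15681040)) (l 15609648)))))) (b (a (b (a (b (a (l 3) (l 326046592759)) (a (l 340005162615) (l 15994488))) (b (a (l 15956064) (l 15851192)) (c (l 15831504) (l 15820072)))) (a (b (a (l 16044008) (l 15924296)) (a (l 15977432) (l 15849240))) (b (l 15746552) (l 15669120)))) (b (a (b (l 15698944) (l 15616064)) (c (l 15501112) (l 15464656))) (a (c (l 15511408) (l 15482256)) (b (l 15366552) (l 15294432))))) (b (a (a (b (l 15834104) (l 15747448)) (b (l 15591432) (l 15510808))) (a (b (l 15386736) (l 15313416)) (l 15191944))) (a (a (b (l 15656456) (l 15568248)) (b (l 15429880)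 (l 15354912))) (a (b (l 15243288) (l 15182400)) (b (l 15102416) (l 15055968))))))), by decide +kernel⟩

theorem s2_pp_012 : ∃ t, chk3 f_pp_012 t 1 1 1 = true := ex3_a k0_pp_012 k1_pp_012

theorem c_pp_012 : CertB 0 536870912 1073741824 536870912 966367641 24778659 3 eng mog cd2q0 cd2q2 pd1 false true true .pnp 0 1 2
    ndB2q0 ndB2q2 pcB1 Cut.none Ext.none :=
  certB1 (fam := false) (s1 := true) (s2 := true) (a := 0) (b := 1) (c := 2) (cn := .pnp) (n1 := ndB2q0) (n2 := ndB2q2) (pc := pcB1) (cut := Cut.none) (xt := Ext.none) (P1 := 0) (W1 := 536870912) (P2 := 1073741824) (W2 := 536870912) (P3 := 966367641) (W3 := 24778659) (N0 := 3) (En := eng) (mo := mog) (C1 := cd2q0) (C2 := cd2q2) (C3 := pd1)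
    rfl (fun _ => rfl) s2_pp_012

noncomputable def f_pp_022 : ℕ → ℕ → ℕ → ℕ → Bool := onCell 0 536870912 1073741824 536870912 966367641 24778659
    (rowB 3 eng mog cd2q0 cd2q2 pd2 1 false true true .pp 0 2 2 (qsf 0 536870912 1073741824 536870912 2) ndB2q0 ndB2q2 pcB2 Cut.none Ext.none)

def k0_pp_022 : ∃ t, chk3 f_pp_022 t 2 2 1 = true :=
  ⟨(a (b (a (b (a (a (b (b (b (l 226726849991) (b (l 157470525271) (l 16563608))) (b (a (l 16642808) (l 16672152)) (b (l 16605048) (l 16580224)))) (b (l 16549112) (l 16510904))) (b (b (b (a (l 16584832) (l 16533472)) (l 16578040)) (l 16560584)) (l 16418808))) (a (b (b (l 16423664) (l 16498344)) (l 16430672)) (b (a (l 16299472) (b (l 16346960) (l 16378432))) (a (l 16457440) (l 16416184))))) (a (b (b (l 16292896) (l 16246080)) (b (l 16203376) (a (l 16305280) (l 16400616)))) (a (b (l 16567512) (l 16524304)) (b (l 16220152) (l 16494384))))) (b (a (b (a (b (l 16299328) (l 16349384)) (l 16132424)) (a (l 16280080) (l 16261672)))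 (a (b (l 16098336) (l 16265360)) (b (l 16148352) (l 16250328)))) (a (a (b (l 16420000) (l 16443944)) (b (l 16378872) (l 16402624))) (c (a (l 16298472) (l 16260312)) (l 16198384))))) (a (a (b (b (b (a (l 16248048) (l 16344248)) (a (b (l 16207304) (l 16181800)) (b (l 16303832) (l 16278152)))) (a (l 16116368) (l 16213360))) (c (l 15878152) (l 15733040))) (a (b (b (b (l 16440200) (l 16344736)) (l 16310432)) (c (l 16235552) (l 16013488))) (b (b (c (l 16457896) (l 16187264)) (l 16402048)) (c (l 16331744) (l 16202304))))) (a (b (a (b (b (l 16455912) (l 16461952)) (l 16440616)) (l 16417400)) (a (l 16316032) (l 16348984))) (b (c (l 16293824) (l 16413128)) (c (l 16272680) (l 16329240)))))) (b (b (a (b (a (l 16135496) (l 15996560)) (a (l 16175672) (l 16039744))) (b (l 15796744) (l 15845096))) (a (c (l 15983800) (l 16197992)) (b (l 15885144) (l 15915952)))) (a (b (c (l 16134728) (l 16224024)) (l 16161112)) (b (l 15817280) (l 15901680))))), by decide +kernel⟩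

def k1_pp_022 : ∃ t, chk3 f_pp_022 t 2 3 1 = true :=
  ⟨(a (b (a (a (b (c (b (l 15921112) (l 15825776)) (b (l 15803224) (l 15598624))) (c (a (l 15486952) (l 15854472)) (b (l 15409144) (l 15556168)))) (a (b (b (l 16045992) (l 15984432)) (l 15910840)) (b (c (l 16189208) (l 16064848)) (l 16028336)))) (a (b (a (l 16183736) (l 16221584)) (a (l 16085896) (l 16125160))) (b (l 16152792) (l 16147320)))) (a (a (a (b (b (l 15595256) (l 15568784)) (b (l 15549776) (l 15536560))) (b (l 15609056) (l 15672256))) (a (b (l 15841496) (l 15795448)) (b (l 15958256) (l 15906600)))) (a (b (l 16034864) (l 15932952)) (b (l 16003184) (l 2))))) (b (b (a (l 16101056) (l 15882224)) (a (l 16001760) (l 15782952))) (b (a (l 15869120) (l 2)) (l 2)))), by decide +kernel⟩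

def k2_pp_022 : ∃ t, chk3 f_pp_022 t 3 1 1 = true :=
  ⟨(b (b (a (b (a (b (l 15553072) (l 15609032)) (l 15376456)) (a (l 15677360) (l 15488192))) (b (a (l 15212440) (l 15095416)) (a (l 15340200) (l 15238472)))) (a (b (a (l 15736152) (l 15564568)) (a (l 15755280) (l 15602824))) (b (a (l 15434168) (l 2)) (l 2)))) (b (a (b (a (l 15735024) (l 2)) (l 2)) (l 2)) (l 2))), by decide +kernel⟩

theorem s3_pp_022 : ∃ t, chk3 f_pp_022 t 2 1 1 = true := ex3_b k0_pp_022 k1_pp_022

theorem s4_pp_022 : ∃ t, chk3 f_pp_022 t 1 1 1 = true := ex3_a s3_pp_022 k2_pp_022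

theorem c_pp_022 : CertB 0 536870912 1073741824 536870912 966367641 24778659 3 eng mog cd2q0 cd2q2 pd2 false true true .pp 0 2 2
    ndB2q0 ndB2q2 pcB2 Cut.none Ext.none :=
  certB1 (fam := false) (s1 := true) (s2 := true) (a := 0) (b := 2) (c := 2) (cn := .pp) (n1 := ndB2q0) (n2 := ndB2q2) (pc := pcB2) (cut := Cut.none) (xt := Ext.none) (P1 := 0) (W1 := 536870912) (P2 := 1073741824) (W2 := 536870912) (P3 := 966367641) (W3 := 24778659) (N0 := 3) (En := eng) (mo := mog) (C1 := cd2q0) (C2 := cd2q2) (C3 := pd2)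
    rfl (fun _ => rfl) s4_pp_022

noncomputable def f_pp_023 : ℕ → ℕ → ℕ → ℕ → Bool := onCell 0 536870912 0 1230186008 966367641 24778659
    (rowB 3 eng mog cd2q0 cd2q3 pd2 0 false true true .up 0 2 3 (qsf 0 536870912 0 1230186008 2) ndB2q0 ndB2q3 pcB2 Cut.none Ext.none)

def k0_pp_023 : ∃ t, chk3 f_pp_023 t 1 1 1 = true :=
  ⟨(b (b (l 4) (a (l 2) (b (l 4) (a (l 2) (a (l 4) (b (l 4) (l 16549320))))))) (b (a (b (l 2) (a (l 2) (b (l 2) (a (l 2) (l 15921616))))) (b (a (a (l 2) (b (l 16521624) (l 16365552))) (b (a (l 16494008) (l 16397864)) (a (l 16292832) (l 16171168)))) (a (b (a (l 16164080) (l 16133280)) (a (l 15935400) (l 15893024))) (b (a (l 16050232) (l 15926680)) (a (l 15804560) (l 15679680)))))) (a (b (a (l 2) (b (a (l 15649728) (l 15718296)) (a (b (l 15543680) (l 15518272)) (l 15471848)))) (a (b (a (l 2) (a (l 15476688) (l 15614280))) (a (a (b (l 2) (l 15699160)) (a (l 15808624) (l 15818624))) (a (b (l 15761456) (l 15860472)) (l 15791848)))) (b (a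 (l 15615576) (l 15552608)) (a (l 15594720) (l 15457472))))) (b (a (b (a (l 15714848) (l 15663960)) (a (l 15432608) (l 15480392))) (b (a (l 15573248) (l 15447400)) (a (l 15386872) (l 15264512)))) (a (b (a (l 15534576) (l 15436272)) (a (l 15570112) (l 15412184))) (b (a (l 15303656) (l 15145168)) (a (l 15222104) (l 15013136)))))))), by decide +kernel⟩

theorem c_pp_023 : CertB 0 536870912 0 1230186008 966367641 24778659 3 eng mog cd2q0 cd2q3 pd2 false true true .up 0 2 3
    ndB2q0 ndB2q3 pcB2 Cut.none Ext.none :=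
  certB0 (fam := false) (s1 := true) (s2 := true) (a := 0) (b := 2) (c := 3) (cn := .up) (n1 := ndB2q0) (n2 := ndB2q3) (pc := pcB2) (cut := Cut.none) (xt := Ext.none) (P1 := 0) (W1 := 536870912) (P2 := 0) (W2 := 1230186008) (P3 := 966367641) (W3 := 24778659) (N0 := 3) (En := eng) (mo := mog) (C1 := cd2q0) (C2 := cd2q3) (C3 := pd2)
    rfl k0_pp_023

noncomputable def f_pp_033 : ℕ → ℕ → ℕ → ℕ → Bool := onCell 0 536870912 0 1230186008 966367641 24778659
    (rowB 3 eng mog cd2q0 cd2q3 pd3 0 false true true .pnn 0 3 3 (qsf 0 536870912 0 1230186008 3) ndB2q0 ndB2q3 pcB3 Cut.none Ext.none)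

def k0_pp_033 : ∃ t, chk3 f_pp_033 t 1 1 1 = true :=
  ⟨(b (b (l 4) (a (l 4) (b (l 4) (a (l 4) (a (l 4) (b (l 4) (l 1))))))) (b (a (b (a (l 4) (a (l 4) (b (l 4) (b (l 4) (l 16208376))))) (a (b (a (a (b (l 4) (l 15220672)) (a (l 15412200) (l 15535488))) (a (b (l 4) (l 15633112)) (b (l 15722408) (l 15725528)))) (a (a (b (l 15237536) (l 15272376)) (a (l 15444440) (l 15565712))) (a (b (l 15645576) (l 15670648)) (l 15745376)))) (a (b (b (l 15933592) (l 15932920)) (a (l 15873376) (l 15979392))) (b (l 16165512) (l 16080800))))) (b (a (b (a (l 4) (l 296587619879)) (a (a (l 16347024) (l 16389408)) (l 16404400))) (b (a (l 16502952) (l 1)) (l 1))) (a (a (b (l 16259040) (l 16148392)) (b (l 16272600) (l 1))) (l 1)))) (a (b (a (b (a (a (b (l 15321752) (l 15383672)) (a (l 15532472) (l 15647616))) (a (b (l 15707904) (l 15744632)) (l 15642832))) (a (a (b (c (l 15395592) (l 15450264)) (l 15510744)) (a (b (l 15626728) (l 15674656)) (b (l 15701792) (l 15730984)))) (a (b (l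 15744456) (l 15768400)) (b (l 15784344) (l 15804464))))) (b (a (b (l 15904952) (l 15887400)) (c (l 16149768) (l 15860552))) (a (b (l 15877928) (l 15890776)) (l 1)))) (a (b (a (a (c (b (l 15479600) (l 15522120)) (l 15572160)) (a (l 15590680) (l 15617216))) (a (c (l 15884096) (l 15680312)) (l 197062869607))) (a (a (c (b (l 15564032) (l 15603896)) (b (l 15683960) (l 15775184))) (a (c (l 15759408) (l 15771472)) (c (l 15872808) (l 15795376)))) (a (c (l 15964864) (l 15811912)) (l 1)))) (b (a (c (l 16127608) (l 15752136)) (l 1)) (l 1)))) (l 1)))), by decide +kernel⟩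

theorem c_pp_033 : CertB 0 536870912 0 1230186008 966367641 24778659 3 eng mog cd2q0 cd2q3 pd3 false true true .pnn 0 3 3
    ndB2q0 ndB2q3 pcB3 Cut.none Ext.none :=
  certB0 (fam := false) (s1 := true) (s2 := true) (a := 0) (b := 3) (c := 3) (cn := .pnn) (n1 := ndB2q0) (n2 := ndB2q3) (pc := pcB3) (cut := Cut.none) (xt := Ext.none) (P1 := 0) (W1 := 536870912) (P2 := 0) (W2 := 1230186008) (P3 := 966367641) (W3 := 24778659) (N0 := 3) (En := eng) (mo := mog) (C1 := cd2q0) (C2 := cd2q3) (C3 := pd3)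
    rfl k0_pp_033

noncomputable def f_pp_101 : ℕ → ℕ → ℕ → ℕ → Bool := onCell 536870912 536870912 536870912 536870912 966367641 24778659
    (rowB 3 eng mog cd2q1 cd2q1 pd0 0 false true true .npn 1 0 1 (qsf 536870912 536870912 536870912 536870912 0) ndB2q1 ndB2q1 pcB0 Cut.none Ext.none)

def k0_pp_101 : ∃ t, chk3 f_pp_101 t 1 1 1 = true :=
  ⟨(l 3), by decide +kernel⟩

theorem c_pp_101 : CertB 536870912 536870912 536870912 536870912 966367641 24778659 3 eng mog cd2q1 cd2q1 pd0 false true true .npn 1 0 1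
    ndB2q1 ndB2q1 pcB0 Cut.none Ext.none :=
  certB0 (fam := false) (s1 := true) (s2 := true) (a := 1) (b := 0) (c := 1) (cn := .npn) (n1 := ndB2q1) (n2 := ndB2q1) (pc := pcB0) (cut := Cut.none) (xt := Ext.none) (P1 := 536870912) (W1 := 536870912) (P2 := 536870912) (W2 := 536870912) (P3 := 966367641) (W3 := 24778659) (N0 := 3) (En := eng) (mo := mog) (C1 := cd2q1) (C2 := cd2q1) (C3 := pd0)
    rfl k0_pp_101

noncomputable def f_pp_102 : ℕ → ℕ → ℕ → ℕ → Bool := onCell 536870912 536870912 0 536870912 966367641 24778659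
    (rowB 3 eng mog cd2q1 cd2q2 pd0 1 false true true .npp 1 0 2 (qsf 536870912 536870912 1073741824 536870912 0) ndB2q1 ndB2q2 pcB0 Cut.none Ext.none)

def k0_pp_102 : ∃ t, chk3 f_pp_102 t 1 1 1 = true :=
  ⟨(b (l 3) (b (a (l 3) (a (l 3) (b (l 3) (a (b (l 3) (a (l 3) (b (l 3) (l 15247632)))) (b (a (l 3) (c (l 153709445463) (l 132234419031))) (a (b (l 15136568) (l 15048168)) (b (l 14907920) (l 14836488)))))))) (a (a (l 3) (b (l 3) (a (b (l 3) (a (l 3) (l 313698559271))) (b (a (l 3) (l 300813355959)) (a (l 259474329015) (b (l 15827832) (l 15772344))))))) (a (b (a (b (l 3) (a (l 3) (b (l 3) (l 15701096)))) (b (a (l 3) (b (l 3) (l 15489824))) (a (b (l 15599456) (l 15539808)) (b (l 15427824) (l 15363136))))) (a (b (a (b (l 15794448) (l 15740152)) (b (l 15644024) (l 15583448))) (a (l 15652848) (l 15495080))) (b (a (l 15446080) (l 15269248)) (a (l 15327832) (l 15151624))))) (b (a (b (a (b (l 15372456) (l 15308384)) (b (l 15181736) (l 15113528))) (a (b (l 15241872)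 (l 15177152)) (l 15077272))) (b (a (b (l 14978312) (l 14910208)) (b (l 14766784) (l 14698992))) (a (l 14811496) (l 14601016)))) (a (b (a (l 15083600) (l 14889656)) (c (l 14931960) (l 14808240))) (b (c (l 14662992) (l 14502072)) (l 14555896)))))))), by decide +kernel⟩

theorem c_pp_102 : CertB 536870912 536870912 1073741824 536870912 966367641 24778659 3 eng mog cd2q1 cd2q2 pd0 false true true .npp 1 0 2
    ndB2q1 ndB2q2 pcB0 Cut.none Ext.none :=
  certB1 (fam := false) (s1 := true) (s2 := true) (a := 1) (b := 0) (c := 2) (cn := .npp) (n1 := ndB2q1) (n2 := ndB2q2) (pc := pcB0) (cut := Cut.none) (xt := Ext.none) (P1 := 536870912) (W1 := 536870912) (P2 := 1073741824) (W2 := 536870912) (P3 := 966367641) (W3 := 24778659) (N0 := 3) (En := eng) (mo := mog) (C1 := cd2q1) (C2 := cd2q2) (C3 := pd0)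
    rfl (fun _ => rfl) k0_pp_102

noncomputable def f_pp_112 : ℕ → ℕ → ℕ → ℕ → Bool := onCell 536870912 536870912 1073741824 536870912 966367641 24778659
    (rowB 3 eng mog cd2q1 cd2q2 pd1 2 false true true .dn 1 1 2 (qsf 536870912 536870912 1073741824 536870912 1) ndB2q1 ndB2q2 pcB1 Cut.none Ext.none)

def k0_pp_112 : ∃ t, chk3 f_pp_112 t 1 1 1 = true :=
  ⟨(a (a (b (b (b (l 3) (a (l 3) (a (l 3) (l 382418225415)))) (a (b (a (b (l 3) (l 16007856)) (c (l 320677850119) (l 322825375239))) (a (b (l 15888704) (l 15752128)) (b (l 15904840) (l 15779272)))) (b (a (b (l 16063552) (l 16020248)) (b (l 16053576) (l 16017368))) (a (l 15714768) (l 15874576))))) (b (a (b (a (b (l 15604984) (l 15447992)) (l 15571456)) (a (l 15195704) (l 15260472))) (b (a (l 15610672) (l 15644744)) (a (l 15320800) (l 15375776)))) (a (b (a (l 14829792) (l 14915472)) (a (l 14434984) (l 14541112))) (b (l 15035648) (l 14692120))))) (b (b (a (b (l 1) (a (l 425770455815) (l 1))) (l 1)) (a (b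 (a (b (l 16078544) (l 16009384)) (l 15838520)) (a (l 15881992) (l 15882952))) (b (c (l 426306899031) (l 15772504)) (a (l 15876536) (l 15861952))))) (b (a (b (a (l 15672840) (l 15694104)) (l 15446648)) (b (l 15711440) (l 15514376))) (a (b (l 15174312) (l 14872192)) (b (l 15283456) (l 15023440)))))) (a (b (b (l 1) (a (b (l 1) (l 15571136)) (l 1))) (b (a (b (l 15703272) (l 15546848)) (b (l 15661656) (l 15544992))) (a (b (l 15357536) (l 15140280)) (b (l 15396296) (l 15220792))))) (b (l 1) (a (b (b (l 1) (l 15507632)) (b (l 15399000) (l 15263952))) (b (l 1) (b (l 15363480) (l 15272080))))))), by decide +kernel⟩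

theorem c_pp_112 : CertB 536870912 536870912 1073741824 536870912 966367641 24778659 3 eng mog cd2q1 cd2q2 pd1 false true true .dn 1 1 2
    ndB2q1 ndB2q2 pcB1 Cut.none Ext.none :=
  certB2 (fam := false) (s1 := true) (s2 := true) (a := 1) (b := 1) (c := 2) (cn := .dn) (n1 := ndB2q1) (n2 := ndB2q2) (pc := pcB1) (cut := Cut.none) (xt := Ext.none) (P1 := 536870912) (W1 := 536870912) (P2 := 1073741824) (W2 := 536870912) (P3 := 966367641) (W3 := 24778659) (N0 := 3) (En := eng) (mo := mog) (C1 := cd2q1) (C2 := cd2q2) (C3 := pd1)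
    rfl (fun _ => rfl) k0_pp_112

noncomputable def f_pp_113 : ℕ → ℕ → ℕ → ℕ → Bool := onCell 536870912 536870912 0 1230186008 966367641 24778659
    (rowB 3 eng mog cd2q1 cd2q3 pd1 2 false true true .nn 1 1 3 (qsf 536870912 536870912 0 1230186008 1) ndB2q1 ndB2q3 pcB1 Cut.none Ext.none)

def k0_pp_113 : ∃ t, chk3 f_pp_113 t 1 1 1 = true :=
  ⟨(a (b (l 2) (b (b (l 2) (a (l 2) (a (l 2) (l 13591456)))) (a (b (l 2) (b (a (l 2) (l 14004928)) (a (b (l 14068680) (l 14297480)) (l 14399368)))) (b (b (l 13763192) (a (l 13915488) (l 14172192))) (b (a (l 14242184) (l 14438136)) (a (l 14577080) (l 14731696))))))) (a (b (l 2) (b (b (b (l 14204528) (l 14110808)) (l 14118056)) (b (b (l 14310312) (l 14478872)) (b (a (l 14611096) (l 14744168)) (a (l 14858392) (l 14950168)))))) (b (b (l 16368656) (b (b (l 16359024) (l 16400304)) (l 16468272))) (b (b (b (l 15491568) (l 14992320)) (l 14641056)) (b (b (l 14597584) (l 14678816)) (b (l 14823256) (a (l 15000232) (l 14994608)))))))),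 by decide +kernel⟩

theorem c_pp_113 : CertB 536870912 536870912 0 1230186008 966367641 24778659 3 eng mog cd2q1 cd2q3 pd1 false true true .nn 1 1 3
    ndB2q1 ndB2q3 pcB1 Cut.none Ext.none :=
  certB2 (fam := false) (s1 := true) (s2 := true) (a := 1) (b := 1) (c := 3) (cn := .nn) (n1 := ndB2q1) (n2 := ndB2q3) (pc := pcB1) (cut := Cut.none) (xt := Ext.none) (P1 := 536870912) (W1 := 536870912) (P2 := 0) (W2 := 1230186008) (P3 := 966367641) (W3 := 24778659) (N0 := 3) (En := eng) (mo := mog) (C1 := cd2q1) (C2 := cd2q3) (C3 := pd1)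
    rfl (fun _ => rfl) k0_pp_113

noncomputable def f_pp_123 : ℕ → ℕ → ℕ → ℕ → Bool := onCell 1073741824 536870912 0 1230186008 966367641 24778659
    (rowB 3 eng mog cd2q1 cd2q3 pd2 2 false true true .npn 1 2 3 (qsf 536870912 536870912 0 1230186008 2) ndB2q1 ndB2q3 pcB2 Cut.none Ext.none)

def k0_pp_123 : ∃ t, chk3 f_pp_123 t 1 1 1 = true :=
  ⟨(b (b (a (a (a (l 16780712) (l 16680320)) (a (l 4) (l 4))) (l 4)) (a (b (a (b (l 16612784) (l 16307352)) (a (b (l 16375720) (l 16209888)) (l 16380152))) (a (a (l 16124600) (l 15797992)) (a (l 15931352) (l 16081744)))) (b (a (l 4) (l 4)) (a (a (l 16210744) (l 16311960)) (a (l 16396800) (l 4)))))) (b (a (b (a (b (l 15539816) (l 15211272)) (b (l 15789512) (l 15645192))) (a (a (l 14924200) (l 15162776)) (a (l 15378008) (l 15545136)))) (b (a (b (l 16083928) (l 15944200)) (a (l 16198296) (l 1))) (a (a (l 15681360) (l 15801432)) (l 1)))) (a (a (a (b (b (l 14914104) (l 14970848)) (b (l 15019928) (l 15096824))) (b (l 14945072)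 (l 446169661127))) (b (a (l 15111048) (l 15198448)) (b (l 15230432) (l 1)))) (l 1)))), by decide +kernel⟩

theorem c_pp_123 : CertB 536870912 536870912 0 1230186008 966367641 24778659 3 eng mog cd2q1 cd2q3 pd2 false true true .npn 1 2 3
    ndB2q1 ndB2q3 pcB2 Cut.none Ext.none :=
  certB2 (fam := false) (s1 := true) (s2 := true) (a := 1) (b := 2) (c := 3) (cn := .npn) (n1 := ndB2q1) (n2 := ndB2q3) (pc := pcB2) (cut := Cut.none) (xt := Ext.none) (P1 := 536870912) (W1 := 536870912) (P2 := 0) (W2 := 1230186008) (P3 := 966367641) (W3 := 24778659) (N0 := 3) (En := eng) (mo := mog) (C1 := cd2q1) (C2 := cd2q3) (C3 := pd2)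
    rfl (fun _ => rfl) k0_pp_123

noncomputable def f_pp_133 : ℕ → ℕ → ℕ → ℕ → Bool := onCell 1610612736 536870912 0 1230186008 966367641 24778659
    (rowB 3 eng mog cd2q1 cd2q3 pd3 2 false true true .dn 1 3 3 (qsf 536870912 536870912 0 1230186008 3) ndB2q1 ndB2q3 pcB3 Cut.none Ext.none)

def k0_pp_133 : ∃ t, chk3 f_pp_133 t 1 1 1 = true :=
  ⟨(b (b (l 4) (l 1)) (l 1)), by decide +kernel⟩

theorem c_pp_133 : CertB 536870912 536870912 0 1230186008 966367641 24778659 3 eng mog cd2q1 cd2q3 pd3 false true true .dn 1 3 3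
    ndB2q1 ndB2q3 pcB3 Cut.none Ext.none :=
  certB2 (fam := false) (s1 := true) (s2 := true) (a := 1) (b := 3) (c := 3) (cn := .dn) (n1 := ndB2q1) (n2 := ndB2q3) (pc := pcB3) (cut := Cut.none) (xt := Ext.none) (P1 := 536870912) (W1 := 536870912) (P2 := 0) (W2 := 1230186008) (P3 := 966367641) (W3 := 24778659) (N0 := 3) (En := eng) (mo := mog) (C1 := cd2q1) (C2 := cd2q3) (C3 := pd3)
    rfl (fun _ => rfl) k0_pp_133

noncomputable def f_pp_202 : ℕ → ℕ → ℕ → ℕ → Bool := onCell 1073741824 536870912 1073741824 536870912 966367641 24778659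
    (rowB 3 eng mog cd2q2 cd2q2 pd0 0 false true true .pp 2 0 2 (qsf 1073741824 536870912 1073741824 536870912 0) ndB2q2 ndB2q2 pcB0 Cut.none Ext.none)

def k0_pp_202 : ∃ t, chk3 f_pp_202 t 1 1 1 = true :=
  ⟨(l 3), by decide +kernel⟩

theorem c_pp_202 : CertB 1073741824 536870912 1073741824 536870912 966367641 24778659 3 eng mog cd2q2 cd2q2 pd0 false true true .pp 2 0 2
    ndB2q2 ndB2q2 pcB0 Cut.none Ext.none :=
  certB0 (fam := false) (s1 := true) (s2 := true) (a := 2) (b := 0) (c := 2) (cn := .pp) (n1 := ndB2q2) (n2 := ndB2q2) (pc := pcB0) (cut := Cut.none) (xt := Ext.none) (P1 := 1073741824) (W1 := 536870912) (P2 := 1073741824) (W2 := 536870912) (P3 := 966367641) (W3 := 24778659) (N0 := 3) (En := eng) (mo := mog) (C1 := cd2q2) (C2 := cd2q2) (C3 := pd0)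
    rfl k0_pp_202

noncomputable def f_pp_203 : ℕ → ℕ → ℕ → ℕ → Bool := onCell 0 536870912 0 1230186008 966367641 24778659
    (rowB 3 eng mog cd2q2 cd2q3 pd0 2 false true true .up 2 0 3 (qsf 1073741824 536870912 0 1230186008 0) ndB2q2 ndB2q3 pcB0 Cut.none Ext.none)

def k0_pp_203 : ∃ t, chk3 f_pp_203 t 1 1 1 = true :=
  ⟨(b (l 3) (l 3)), by decide +kernel⟩

theorem c_pp_203 : CertB 1073741824 536870912 0 1230186008 966367641 24778659 3 eng mog cd2q2 cd2q3 pd0 false true true .up 2 0 3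
    ndB2q2 ndB2q3 pcB0 Cut.none Ext.none :=
  certB2 (fam := false) (s1 := true) (s2 := true) (a := 2) (b := 0) (c := 3) (cn := .up) (n1 := ndB2q2) (n2 := ndB2q3) (pc := pcB0) (cut := Cut.none) (xt := Ext.none) (P1 := 1073741824) (W1 := 536870912) (P2 := 0) (W2 := 1230186008) (P3 := 966367641) (W3 := 24778659) (N0 := 3) (En := eng) (mo := mog) (C1 := cd2q2) (C2 := cd2q3) (C3 := pd0)
    rfl (fun _ => rfl) k0_pp_203

noncomputable def f_pp_213 : ℕ → ℕ → ℕ → ℕ → Bool := onCell 536870912 536870912 0 1230186008 966367641 24778659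
    (rowB 3 eng mog cd2q2 cd2q3 pd1 2 false true true .pnn 2 1 3 (qsf 1073741824 536870912 0 1230186008 1) ndB2q2 ndB2q3 pcB1 Cut.none Ext.none)

def k0_pp_213 : ∃ t, chk3 f_pp_213 t 1 1 1 = true :=
  ⟨(b (a (l 3) (a (l 3) (b (a (b (a (l 3) (l 16579720)) (l 3)) (a (b (l 16555944) (a (l 589114641735) (b (l 16693336) (l 623474501031)))) (b (l 16766136) (a (b (l 16730032) (l 16634704)) (l 1175243714423))))) (b (a (l 3) (a (l 3) (b (a (b (a (l 662666148103) (l 1)) (l 1)) (l 1)) (l 1)))) (l 3))))) (b (l 3) (l 3))), by decide +kernel⟩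

theorem c_pp_213 : CertB 1073741824 536870912 0 1230186008 966367641 24778659 3 eng mog cd2q2 cd2q3 pd1 false true true .pnn 2 1 3
    ndB2q2 ndB2q3 pcB1 Cut.none Ext.none :=
  certB2 (fam := false) (s1 := true) (s2 := true) (a := 2) (b := 1) (c := 3) (cn := .pnn) (n1 := ndB2q2) (n2 := ndB2q3) (pc := pcB1) (cut := Cut.none) (xt := Ext.none) (P1 := 1073741824) (W1 := 536870912) (P2 := 0) (W2 := 1230186008) (P3 := 966367641) (W3 := 24778659) (N0 := 3) (En := eng) (mo := mog) (C1 := cd2q2) (C2 := cd2q3) (C3 := pd1)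
    rfl (fun _ => rfl) k0_pp_213

noncomputable def f_pp_303 : ℕ → ℕ → ℕ → ℕ → Bool := onCell 0 1230186008 0 1230186008 966367641 24778659
    (rowB 3 eng mog cd2q3 cd2q3 pd0 0 false true true .npn 3 0 3 (qsf 0 1230186008 0 1230186008 0) ndB2q3 ndB2q3 pcB0 Cut.none Ext.none)

def k0_pp_303 : ∃ t, chk3 f_pp_303 t 1 1 1 = true :=
  ⟨(a (b (l 3) (l 3)) (b (l 3) (l 3))), by decide +kernel⟩

theorem c_pp_303 : CertB 0 1230186008 0 1230186008 966367641 24778659 3 eng mog cd2q3 cd2q3 pd0 false true true .npn 3 0 3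
    ndB2q3 ndB2q3 pcB0 Cut.none Ext.none :=
  certB0 (fam := false) (s1 := true) (s2 := true) (a := 3) (b := 0) (c := 3) (cn := .npn) (n1 := ndB2q3) (n2 := ndB2q3) (pc := pcB0) (cut := Cut.none) (xt := Ext.none) (P1 := 0) (W1 := 1230186008) (P2 := 0) (W2 := 1230186008) (P3 := 966367641) (W3 := 24778659) (N0 := 3) (En := eng) (mo := mog) (C1 := cd2q3) (C2 := cd2q3) (C3 := pd0)
    rfl k0_pp_303

noncomputable def f_pp_313 : ℕ → ℕ → ℕ → ℕ → Bool := onCell 0 1230186008 0 1230186008 966367641 24778659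
    (rowB 3 eng mog cd2q3 cd2q3 pd1 0 false true true .dn 3 1 3 (qsf 0 1230186008 0 1230186008 1) ndB2q3 ndB2q3 pcB1 Cut.none Ext.none)

def k0_pp_313 : ∃ t, chk3 f_pp_313 t 1 1 1 = true :=
  ⟨(a (l 1) (b (l 3) (l 1))), by decide +kernel⟩

theorem c_pp_313 : CertB 0 1230186008 0 1230186008 966367641 24778659 3 eng mog cd2q3 cd2q3 pd1 false true true .dn 3 1 3
    ndB2q3 ndB2q3 pcB1 Cut.none Ext.none :=
  certB0 (fam := false) (s1 := true) (s2 := true) (a := 3) (b := 1) (c := 3) (cn := .dn) (n1 := ndB2q3) (n2 := ndB2q3) (pc := pcB1) (cut := Cut.none) (xt := Ext.none) (P1 := 0) (W1 := 1230186008) (P2 := 0) (W2 := 1230186008) (P3 := 966367641) (W3 := 24778659) (N0 := 3) (En := eng) (mo := mog) (C1 := cd2q3) (C2 := cd2q3) (C3 := pd1)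
    rfl k0_pp_313

noncomputable def f_pm_001 : ℕ → ℕ → ℕ → ℕ → Bool := onCell 0 536870912 536870912 536870912 966367641 24778659
    (rowB 3 eng mog cd2q0 cd2q1 pd0 0 false true false .up 0 0 1 (qsf 0 536870912 536870912 536870912 0) ndB2q0 ndB2q1 pcB0 Cut.none Ext.none)

def k0_pm_001 : ∃ t, chk3 f_pm_001 t 1 1 1 = true :=
  ⟨(l 4), by decide +kernel⟩

theorem c_pm_001 : CertB 0 536870912 536870912 536870912 966367641 24778659 3 eng mog cd2q0 cd2q1 pd0 false true false .up 0 0 1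
    ndB2q0 ndB2q1 pcB0 Cut.none Ext.none :=
  certB0 (fam := false) (s1 := true) (s2 := false) (a := 0) (b := 0) (c := 1) (cn := .up) (n1 := ndB2q0) (n2 := ndB2q1) (pc := pcB0) (cut := Cut.none) (xt := Ext.none) (P1 := 0) (W1 := 536870912) (P2 := 536870912) (W2 := 536870912) (P3 := 966367641) (W3 := 24778659) (N0 := 3) (En := eng) (mo := mog) (C1 := cd2q0) (C2 := cd2q1) (C3 := pd0)
    rfl k0_pm_001

noncomputable def f_pm_011 : ℕ → ℕ → ℕ → ℕ → Bool := onCell 0 536870912 536870912 536870912 966367641 24778659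
    (rowB 3 eng mog cd2q0 cd2q1 pd1 0 false true false .pnn 0 1 1 (qsf 0 536870912 536870912 536870912 1) ndB2q0 ndB2q1 pcB1 Cut.none Ext.none)

def k0_pm_011 : ∃ t, chk3 f_pm_011 t 1 1 1 = true :=
  ⟨(l 4), by decide +kernel⟩

theorem c_pm_011 : CertB 0 536870912 536870912 536870912 966367641 24778659 3 eng mog cd2q0 cd2q1 pd1 false true false .pnn 0 1 1
    ndB2q0 ndB2q1 pcB1 Cut.none Ext.none :=
  certB0 (fam := false) (s1 := true) (s2 := false) (a := 0) (b := 1) (c := 1) (cn := .pnn) (n1 := ndB2q0) (n2 := ndB2q1) (pc := pcB1) (cut := Cut.none) (xt := Ext.none) (P1 := 0) (W1 := 536870912) (P2 := 536870912) (W2 := 536870912) (P3 := 966367641) (W3 := 24778659) (N0 := 3) (En := eng) (mo := mog) (C1 := cd2q0) (C2 := cd2q1) (C3 := pd1)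
    rfl k0_pm_011

noncomputable def f_pm_012 : ℕ → ℕ → ℕ → ℕ → Bool := onCell 0 536870912 1073741824 536870912 966367641 24778659
    (rowB 3 eng mog cd2q0 cd2q2 pd1 0 false true false .pnp 0 1 2 (qsf 0 536870912 1073741824 536870912 1) ndB2q0 ndB2q2 pcB1 Cut.none Ext.none)

def k0_pm_012 : ∃ t, chk3 f_pm_012 t 1 1 1 = true :=
  ⟨(l 4), by decide +kernel⟩

theorem c_pm_012 : CertB 0 536870912 1073741824 536870912 966367641 24778659 3 eng mog cd2q0 cd2q2 pd1 false true false .pnp 0 1 2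
    ndB2q0 ndB2q2 pcB1 Cut.none Ext.none :=
  certB0 (fam := false) (s1 := true) (s2 := false) (a := 0) (b := 1) (c := 2) (cn := .pnp) (n1 := ndB2q0) (n2 := ndB2q2) (pc := pcB1) (cut := Cut.none) (xt := Ext.none) (P1 := 0) (W1 := 536870912) (P2 := 1073741824) (W2 := 536870912) (P3 := 966367641) (W3 := 24778659) (N0 := 3) (En := eng) (mo := mog) (C1 := cd2q0) (C2 := cd2q2) (C3 := pd1)
    rfl k0_pm_012

noncomputable def f_pm_022 : ℕ → ℕ → ℕ → ℕ → Bool := onCell 0 536870912 1073741824 536870912 966367641 24778659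
    (rowB 3 eng mog cd2q0 cd2q2 pd2 0 false true false .pp 0 2 2 (qsf 0 536870912 1073741824 536870912 2) ndB2q0 ndB2q2 pcB2 Cut.none Ext.none)

def k0_pm_022 : ∃ t, chk3 f_pm_022 t 1 1 1 = true :=
  ⟨(l 4), by decide +kernel⟩

theorem c_pm_022 : CertB 0 536870912 1073741824 536870912 966367641 24778659 3 eng mog cd2q0 cd2q2 pd2 false true false .pp 0 2 2
    ndB2q0 ndB2q2 pcB2 Cut.none Ext.none :=
  certB0 (fam := false) (s1 := true) (s2 := false) (a := 0) (b := 2) (c := 2) (cn := .pp) (n1 := ndB2q0) (n2 := ndB2q2) (pc := pcB2) (cut := Cut.none) (xt := Ext.none) (P1 := 0) (W1 := 536870912) (P2 := 1073741824) (W2 := 536870912) (P3 := 966367641) (W3 := 24778659) (N0 := 3) (En := eng) (mo := mog) (C1 := cd2q0) (C2 := cd2q2) (C3 := pd2)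
    rfl k0_pm_022

noncomputable def f_pm_023 : ℕ → ℕ → ℕ → ℕ → Bool := onCell 0 536870912 0 1230186008 966367641 24778659
    (rowB 3 eng mog cd2q0 cd2q3 pd2 0 false true false .up 0 2 3 (qsf 0 536870912 0 1230186008 2) ndB2q0 ndB2q3 pcB2 Cut.none Ext.none)

def k0_pm_023 : ∃ t, chk3 f_pm_023 t 1 1 1 = true :=
  ⟨(b (l 4) (l 4)), by decide +kernel⟩

theorem c_pm_023 : CertB 0 536870912 0 1230186008 966367641 24778659 3 eng mog cd2q0 cd2q3 pd2 false true false .up 0 2 3
    ndB2q0 ndB2q3 pcB2 Cut.none Ext.none :=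
  certB0 (fam := false) (s1 := true) (s2 := false) (a := 0) (b := 2) (c := 3) (cn := .up) (n1 := ndB2q0) (n2 := ndB2q3) (pc := pcB2) (cut := Cut.none) (xt := Ext.none) (P1 := 0) (W1 := 536870912) (P2 := 0) (W2 := 1230186008) (P3 := 966367641) (W3 := 24778659) (N0 := 3) (En := eng) (mo := mog) (C1 := cd2q0) (C2 := cd2q3) (C3 := pd2)
    rfl k0_pm_023

noncomputable def f_pm_033 : ℕ → ℕ → ℕ → ℕ → Bool := onCell 0 536870912 0 1230186008 966367641 24778659
    (rowB 3 eng mog cd2q0 cd2q3 pd3 0 false true false .pnn 0 3 3 (qsf 0 536870912 0 1230186008 3) ndB2q0 ndB2q3 pcB3 Cut.none Ext.none)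

def k0_pm_033 : ∃ t, chk3 f_pm_033 t 1 1 1 = true :=
  ⟨(b (l 4) (l 4)), by decide +kernel⟩

theorem c_pm_033 : CertB 0 536870912 0 1230186008 966367641 24778659 3 eng mog cd2q0 cd2q3 pd3 false true false .pnn 0 3 3
    ndB2q0 ndB2q3 pcB3 Cut.none Ext.none :=
  certB0 (fam := false) (s1 := true) (s2 := false) (a := 0) (b := 3) (c := 3) (cn := .pnn) (n1 := ndB2q0) (n2 := ndB2q3) (pc := pcB3) (cut := Cut.none) (xt := Ext.none) (P1 := 0) (W1 := 536870912) (P2 := 0) (W2 := 1230186008) (P3 := 966367641) (W3 := 24778659) (N0 := 3) (En := eng) (mo := mog) (C1 := cd2q0) (C2 := cd2q3) (C3 := pd3)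
    rfl k0_pm_033

noncomputable def f_pm_101 : ℕ → ℕ → ℕ → ℕ → Bool := onCell 536870912 536870912 536870912 536870912 966367641 24778659
    (rowB 3 eng mog cd2q1 cd2q1 pd0 0 false true false .npn 1 0 1 (qsf 536870912 536870912 536870912 536870912 0) ndB2q1 ndB2q1 pcB0 Cut.none Ext.none)

def k0_pm_101 : ∃ t, chk3 f_pm_101 t 1 1 1 = true :=
  ⟨(l 4), by decide +kernel⟩

theorem c_pm_101 : CertB 536870912 536870912 536870912 536870912 966367641 24778659 3 eng mog cd2q1 cd2q1 pd0 false true false .npn 1 0 1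
    ndB2q1 ndB2q1 pcB0 Cut.none Ext.none :=
  certB0 (fam := false) (s1 := true) (s2 := false) (a := 1) (b := 0) (c := 1) (cn := .npn) (n1 := ndB2q1) (n2 := ndB2q1) (pc := pcB0) (cut := Cut.none) (xt := Ext.none) (P1 := 536870912) (W1 := 536870912) (P2 := 536870912) (W2 := 536870912) (P3 := 966367641) (W3 := 24778659) (N0 := 3) (En := eng) (mo := mog) (C1 := cd2q1) (C2 := cd2q1) (C3 := pd0)
    rfl k0_pm_101

noncomputable def f_pm_102 : ℕ → ℕ → ℕ → ℕ → Bool := onCell 536870912 536870912 1073741824 536870912 966367641 24778659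
    (rowB 3 eng mog cd2q1 cd2q2 pd0 0 false true false .npp 1 0 2 (qsf 536870912 536870912 1073741824 536870912 0) ndB2q1 ndB2q2 pcB0 Cut.none Ext.none)

def k0_pm_102 : ∃ t, chk3 f_pm_102 t 1 1 1 = true :=
  ⟨(l 4), by decide +kernel⟩

theorem c_pm_102 : CertB 536870912 536870912 1073741824 536870912 966367641 24778659 3 eng mog cd2q1 cd2q2 pd0 false true false .npp 1 0 2
    ndB2q1 ndB2q2 pcB0 Cut.none Ext.none :=
  certB0 (fam := false) (s1 := true) (s2 := false) (a := 1) (b := 0) (c := 2) (cn := .npp) (n1 := ndB2q1) (n2 := ndB2q2) (pc := pcB0) (cut := Cut.none) (xt := Ext.none) (P1 := 536870912) (W1 := 536870912) (P2 := 1073741824) (W2 := 536870912) (P3 := 966367641) (W3 := 24778659) (N0 := 3) (En := eng) (mo := mog) (C1 := cd2q1) (C2 := cd2q2) (C3 := pd0)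
    rfl k0_pm_102

noncomputable def f_pm_112 : ℕ → ℕ → ℕ → ℕ → Bool := onCell 536870912 536870912 1073741824 536870912 966367641 24778659
    (rowB 3 eng mog cd2q1 cd2q2 pd1 0 false true false .dn 1 1 2 (qsf 536870912 536870912 1073741824 536870912 1) ndB2q1 ndB2q2 pcB1 Cut.none Ext.none)

def k0_pm_112 : ∃ t, chk3 f_pm_112 t 1 1 1 = true :=
  ⟨(l 4), by decide +kernel⟩

theorem c_pm_112 : CertB 536870912 536870912 1073741824 536870912 966367641 24778659 3 eng mog cd2q1 cd2q2 pd1 false true false .dn 1 1 2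
    ndB2q1 ndB2q2 pcB1 Cut.none Ext.none :=
  certB0 (fam := false) (s1 := true) (s2 := false) (a := 1) (b := 1) (c := 2) (cn := .dn) (n1 := ndB2q1) (n2 := ndB2q2) (pc := pcB1) (cut := Cut.none) (xt := Ext.none) (P1 := 536870912) (W1 := 536870912) (P2 := 1073741824) (W2 := 536870912) (P3 := 966367641) (W3 := 24778659) (N0 := 3) (En := eng) (mo := mog) (C1 := cd2q1) (C2 := cd2q2) (C3 := pd1)
    rfl k0_pm_112

noncomputable def f_pm_113 : ℕ → ℕ → ℕ → ℕ → Bool := onCell 536870912 536870912 0 1230186008 966367641 24778659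
    (rowB 3 eng mog cd2q1 cd2q3 pd1 0 false true false .nn 1 1 3 (qsf 536870912 536870912 0 1230186008 1) ndB2q1 ndB2q3 pcB1 Cut.none Ext.none)

def k0_pm_113 : ∃ t, chk3 f_pm_113 t 1 1 1 = true :=
  ⟨(b (b (a (l 2) (a (l 2) (a (l 2) (l 16647304)))) (l 4)) (l 4)), by decide +kernel⟩

theorem c_pm_113 : CertB 536870912 536870912 0 1230186008 966367641 24778659 3 eng mog cd2q1 cd2q3 pd1 false true false .nn 1 1 3
    ndB2q1 ndB2q3 pcB1 Cut.none Ext.none :=
  certB0 (fam := false) (s1 := true) (s2 := false) (a := 1) (b := 1) (c := 3) (cn := .nn) (n1 := ndB2q1) (n2 := ndB2q3) (pc := pcB1) (cut := Cut.none) (xt := Ext.none) (P1 := 536870912) (W1 := 536870912) (P2 := 0) (W2 := 1230186008) (P3 := 966367641) (W3 := 24778659) (N0 := 3) (En := eng) (mo := mog) (C1 := cd2q1) (C2 := cd2q3) (C3 := pd1)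
    rfl k0_pm_113

noncomputable def f_pm_123 : ℕ → ℕ → ℕ → ℕ → Bool := onCell 536870912 536870912 0 1230186008 966367641 24778659
    (rowB 3 eng mog cd2q1 cd2q3 pd2 0 false true false .npn 1 2 3 (qsf 536870912 536870912 0 1230186008 2) ndB2q1 ndB2q3 pcB2 Cut.none Ext.none)

def k0_pm_123 : ∃ t, chk3 f_pm_123 t 1 1 1 = true :=
  ⟨(b (b (a (l 4) (a (l 4) (a (l 4) (l 16787632)))) (l 4)) (l 4)), by decide +kernel⟩

theorem c_pm_123 : CertB 536870912 536870912 0 1230186008 966367641 24778659 3 eng mog cd2q1 cd2q3 pd2 false true false .npn 1 2 3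
    ndB2q1 ndB2q3 pcB2 Cut.none Ext.none :=
  certB0 (fam := false) (s1 := true) (s2 := false) (a := 1) (b := 2) (c := 3) (cn := .npn) (n1 := ndB2q1) (n2 := ndB2q3) (pc := pcB2) (cut := Cut.none) (xt := Ext.none) (P1 := 536870912) (W1 := 536870912) (P2 := 0) (W2 := 1230186008) (P3 := 966367641) (W3 := 24778659) (N0 := 3) (En := eng) (mo := mog) (C1 := cd2q1) (C2 := cd2q3) (C3 := pd2)
    rfl k0_pm_123

noncomputable def f_pm_133 : ℕ → ℕ → ℕ → ℕ → Bool := onCell 1610612736 536870912 0 1230186008 966367641 24778659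
    (rowB 3 eng mog cd2q1 cd2q3 pd3 2 false true false .dn 1 3 3 (qsf 536870912 536870912 0 1230186008 3) ndB2q1 ndB2q3 pcB3 Cut.none Ext.none)

def k0_pm_133 : ∃ t, chk3 f_pm_133 t 1 1 1 = true :=
  ⟨(b (b (l 4) (l 1)) (l 1)), by decide +kernel⟩

theorem c_pm_133 : CertB 536870912 536870912 0 1230186008 966367641 24778659 3 eng mog cd2q1 cd2q3 pd3 false true false .dn 1 3 3
    ndB2q1 ndB2q3 pcB3 Cut.none Ext.none :=
  certB2 (fam := false) (s1 := true) (s2 := false) (a := 1) (b := 3) (c := 3) (cn := .dn) (n1 := ndB2q1) (n2 := ndB2q3) (pc := pcB3) (cut := Cut.none) (xt := Ext.none) (P1 := 536870912) (W1 := 536870912) (P2 := 0) (W2 := 1230186008) (P3 := 966367641) (W3 := 24778659) (N0 := 3) (En := eng) (mo := mog) (C1 := cd2q1) (C2 := cd2q3) (C3 := pd3)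
    rfl (fun _ => rfl) k0_pm_133

noncomputable def f_pm_202 : ℕ → ℕ → ℕ → ℕ → Bool := onCell 1073741824 536870912 0 536870912 966367641 24778659
    (rowB 3 eng mog cd2q2 cd2q2 pd0 1 false true false .pp 2 0 2 (qsf 1073741824 536870912 1073741824 536870912 0) ndB2q2 ndB2q2 pcB0 Cut.none Ext.none)

def k0_pm_202 : ∃ t, chk3 f_pm_202 t 2 1 1 = true :=
  ⟨(b (a (b (a (b (b (a (b (l 16356960) (l 16275288)) (l 16261416)) (b (a (l 16312672) (l 16367064)) (b (l 16114632) (a (l 16255480) (l 16313872))))) (b (b (a (l 16256352) (l 16314984)) (a (l 16260328) (l 16320896))) (b (a (l 16265536) (l 16320456)) (a (l 16261544) (l 16315416))))) (b (b (a (l 16474672) (l 16514528)) (b (l 16440472) (b (l 16407808) (l 16392920)))) (b (b (l 16208568) (l 16228928)) (b (l 16395704) (l 16386264))))) (b (a (b (a (l 16206352) (l 16264528)) (l 15908480)) (b (l 16257896) (l 16174712))) (a (c (l 15806080) (l 15826000)) (c (l 16095272) (l 16153728))))) (b (a (b (b (l 16328736) (b (l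 16455192) (b (l 16483504) (l 16435456)))) (b (b (l 16410352) (l 16449608)) (b (l 16437296) (l 16434496)))) (b (b (c (l 16209184) (l 16060288)) (b (a (l 16255888) (l 16125048)) (a (l 16292648) (l 16162384)))) (b (b (l 16215256) (l 16206792)) (c (l 16277576) (l 16147072))))) (b (a (b (l 16418568) (l 16370184)) (b (l 16258416) (a (l 16355008) (l 16266768)))) (a (b (l 16265984) (l 16038512)) (b (a (l 16379264) (l 16318896)) (l 16324192)))))) (b (a (b (a (c (l 15806440) (l 15807200)) (b (l 15921648) (a (l 16051992) (l 16128808)))) (a (b (a (l 15825128) (l 15925856)) (a (l 15789024) (l 15892040))) (b (l 15829920) (l 16020336)))) (b (a (b (a (l 16227856) (l 16284576)) (l 16234616)) (b (l 16346752) (l 16331640))) (a (b (l 16216168) (l 16202248)) (b (l 16319608) (l 2))))) (a (b (a (b (a (l 15757632) (l 15871400)) (l 15778024)) (b (l 16025368) (l 16014416))) (a (b (l 15786712) (l 15779560)) (b (l 16007872) (l 2)))) (b (a (b (l 16192392) (l 2)) (l 2)) (l 2))))), by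 decide +kernel⟩

def k1_pm_202 : ∃ t, chk3 f_pm_202 t 6 2 1 = true :=
  ⟨(b (a (b (b (b (a (l 15922976) (l 15790584)) (c (l 15809264) (l 15665256))) (b (a (l 16005872) (l 15879160)) (c (l 16047144) (l 15890520)))) (b (a (l 15929496) (l 15690808)) (a (l 16061608) (b (l 15950128) (l 15984576))))) (b (b (b (a (l 15529808) (l 15401360)) (a (l 15722992) (l 15613336))) (b (a (l 15760184) (l 15645176)) (a (l 15788800) (a (l 15700608) (l 15642808))))) (b (a (b (l 15802872) (l 15827840)) (b (a (l 15724832) (l 15688144)) (l 15759880))) (a (b (l 15869992) (l 15916600)) (b (l 15813648) (l 15861848)))))) (b (c (b (a (l 16138304) (a (l 16037952) (l 15984840))) (a (l 16199296) (l 294304324807))) (a (b (l 15820144) (l 16105560)) (b (a (l 15920464) (l 15860184)) (l 245448541639)))) (a (b (a (l 16241528) (l 16168776)) (l 228806095047)) (b (a (l 15953976) (l 2)) (l 2))))), by decide +kernel⟩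

def k2_pm_202 : ∃ t, chk3 f_pm_202 t 7 2 1 = true :=
  ⟨(b (a (a (b (b (a (b (l 15500696) (l 15534352)) (b (l 15454800) (c (l 15568472) (l 15385248)))) (b (c (a (l 15643160) (l 15608216)) (a (l 15464928) (l 15430200))) (a (b (l 15591208) (l 15617304)) (l 15583376)))) (b (b (c (l 15731392) (l 15577064)) (c (l 15786448) (l 15641184))) (c (l 170353559079) (b (l 15698448) (l 15749712))))) (a (b (b (b (c (l 15501096) (l 15315048)) (c (b (l 15519320) (l 15541176)) (b (l 15334472) (l 15357032)))) (c (b (l 15585016) (l 15645560)) (b (l 15411840) (l 15484952)))) (b (b (l 173574795671) (l 15694072)) (l 3))) (b (b (c (b (b (l 15449608) (a (l 15473456) (l 15461336))) (b (a (l 15497592) (l 15489504)) (l 15481992))) (b (b (l 15264624) (a (l 15289192) (l 15277760))) (b (a (l 15313984) (l 15309056)) (a (l 15348840) (l 15347448))))) (b (b (c (l 15553792) (l 15385576)) (l 166058331671)) (c (l 15633424) (l 15476232)))) (l 3)))) (b (b (a (a (b (c (b (a (b (l 15418352) (l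 15431336)) (l 162836852071)) (l 148878237527)) (b (a (b (l 15234072) (l 15247504)) (l 159078494183)) (a (l 15271816) (l 3)))) (b (c (l 151025845527) (l 147804331895)) (l 3))) (l 3)) (l 3)) (l 3)) (l 3))) (b (b (a (a (a (l 262091395415) (l 2)) (l 2)) (l 2)) (l 2)) (l 2))), by decide +kernel⟩

def k3_pm_202 : ∃ t, chk3 f_pm_202 t 3 3 1 = true :=
  ⟨(b (a (b (a (b (l 16055928) (l 2)) (l 2)) (l 2)) (l 2)) (l 2)), by decide +kernel⟩

theorem s4_pm_202 : ∃ t, chk3 f_pm_202 t 3 2 1 = true := ex3_a k1_pm_202 k2_pm_202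

theorem s5_pm_202 : ∃ t, chk3 f_pm_202 t 3 1 1 = true := ex3_b s4_pm_202 k3_pm_202

theorem s6_pm_202 : ∃ t, chk3 f_pm_202 t 1 1 1 = true := ex3_a k0_pm_202 s5_pm_202

theorem c_pm_202 : CertB 1073741824 536870912 1073741824 536870912 966367641 24778659 3 eng mog cd2q2 cd2q2 pd0 false true false .pp 2 0 2
    ndB2q2 ndB2q2 pcB0 Cut.none Ext.none :=
  certB1 (fam := false) (s1 := true) (s2 := false) (a := 2) (b := 0) (c := 2) (cn := .pp) (n1 := ndB2q2) (n2 := ndB2q2) (pc := pcB0) (cut := Cut.none) (xt := Ext.none) (P1 := 1073741824) (W1 := 536870912) (P2 := 1073741824) (W2 := 536870912) (P3 := 966367641) (W3 := 24778659) (N0 := 3) (En := eng) (mo := mog) (C1 := cd2q2) (C2 := cd2q2) (C3 := pd0)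
    rfl (fun _ => rfl) s6_pm_202

noncomputable def f_pm_203 : ℕ → ℕ → ℕ → ℕ → Bool := onCell 0 536870912 0 1230186008 966367641 24778659
    (rowB 3 eng mog cd2q2 cd2q3 pd0 2 false true false .up 2 0 3 (qsf 1073741824 536870912 0 1230186008 0) ndB2q2 ndB2q3 pcB0 Cut.none Ext.none)

def k0_pm_203 : ∃ t, chk3 f_pm_203 t 1 1 1 = true :=
  ⟨(b (l 3) (b (a (l 3) (b (l 3) (a (l 3) (b (l 3) (l 3))))) (b (a (l 3) (a (a (l 3) (b (l 3) (a (l 260012047543) (l 16247208)))) (a (b (l 249811325815) (a (l 16228272) (l 16197560))) (b (a (l 16246424) (l 16214688)) (a (l 16153616) (l 16096184)))))) (a (a (a (l 3) (b (l 3) (a (l 3) (b (l 3) (a (l 239073304903) (l 161227126759)))))) (a (b (l 3) (b (a (l 3) (l 314235865831)) (a (b (l 15940312) (l 15980888)) (a (l 16141936) (l 16199168))))) (b (a (l 3) (b (l 3) (l 16240568))) (a (b (l 155322049815) (l 16259672)) (b (l 16246440) (l 16246464)))))) (a (a (b (a (b (l 3) (l 16240752)) (b (l 16241336) (l 16229784))) (a (b (l 16234648)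 (l 16217896)) (l 16192512))) (b (a (l 16156144) (l 16187040)) (a (l 16141752) (l 16076448)))) (a (b (a (l 16140352) (l 16079864)) (a (l 15893056) (l 15718632))) (b (a (l 16006656) (l 15921944)) (b (l 15601032) (a (l 15748704) (l 15632504)))))))))), by decide +kernel⟩

theorem c_pm_203 : CertB 1073741824 536870912 0 1230186008 966367641 24778659 3 eng mog cd2q2 cd2q3 pd0 false true false .up 2 0 3
    ndB2q2 ndB2q3 pcB0 Cut.none Ext.none :=
  certB2 (fam := false) (s1 := true) (s2 := false) (a := 2) (b := 0) (c := 3) (cn := .up) (n1 := ndB2q2) (n2 := ndB2q3) (pc := pcB0) (cut := Cut.none) (xt := Ext.none) (P1 := 1073741824) (W1 := 536870912) (P2 := 0) (W2 := 1230186008) (P3 := 966367641) (W3 := 24778659) (N0 := 3) (En := eng) (mo := mog) (C1 := cd2q2) (C2 := cd2q3) (C3 := pd0)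
    rfl (fun _ => rfl) k0_pm_203

noncomputable def f_pm_213 : ℕ → ℕ → ℕ → ℕ → Bool := onCell 1073741824 536870912 0 1230186008 966367641 24778659
    (rowB 3 eng mog cd2q2 cd2q3 pd1 0 false true false .pnn 2 1 3 (qsf 1073741824 536870912 0 1230186008 1) ndB2q2 ndB2q3 pcB1 Cut.none Ext.none)

def k0_pm_213 : ∃ t, chk3 f_pm_213 t 2 2 1 = true :=
  ⟨(b (a (a (b (a (l 16764488) (a (l 16719304) (l 16689496))) (a (b (l 16766424) (l 16776440)) (b (l 16705472) (l 16715840)))) (a (b (l 16649384) (b (l 16650880) (l 16663624))) (b (l 3) (b (l 3) (l 16619960))))) (l 3)) (a (b (a (b (a (a (l 16793168) (l 16765056)) (l 16724680)) (a (b (l 16764216) (l 16752416)) (b (l 16711888) (l 16641968)))) (b (a (l 16672512) (l 16613864)) (a (b (l 16593192) (l 16529808)) (b (l 16547016) (l 16500312))))) (a (b (a (l 16751664) (l 16489576)) (a (b (l 16486256) (l 16331448)) (b (l 16351336) (l 16267536)))) (b (a (l 16432136) (l 16426624)) (a (l 16352240) (l 16398160))))) (a (a (b (l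 3) (b (l 16432048) (l 16358856))) (b (l 3) (l 3))) (l 3)))), by decide +kernel⟩

def k1_pm_213 : ∃ t, chk3 f_pm_213 t 2 3 1 = true :=
  ⟨(b (b (a (a (b (b (a (l 16201496) (l 16192136)) (l 16270528)) (a (l 15963208) (l 16030160))) (b (a (b (l 16230888) (l 16179088)) (l 16484600)) (a (l 16106112) (l 16174784)))) (b (a (b (l 16329504) (l 16299432)) (l 3)) (a (a (l 16230880) (l 16274024)) (l 3)))) (a (a (b (a (l 15829064) (l 15927624)) (a (l 15729496) (l 15843832))) (b (a (l 16020984) (l 16102360)) (a (l 15947104) (l 16036752)))) (a (b (a (l 16169784) (l 16222656)) (a (l 16112376) (l 16173848))) (b (l 16282056) (a (l 16221096) (l 16256936)))))) (b (a (a (b (a (l 15653584) (l 15774568)) (a (l 15594728) (l 15779976))) (b (a (l 15882744) (l 15977464)) (a (l 15827024) (l 15924704)))) (a (b (b (l 16107256) (l 16083096)) (a (l 16157224) (l 16084280))) (b (a (l 16181856) (l 16222224)) (l 1)))) (a (b (a (a (l 15737928) (l 15774816)) (b (l 15820832) (l 15757336))) (a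 (b (a (l 15522448) (l 15640744)) (a (l 15507224) (l 15623048))) (b (l 78951121111) (l 1)))) (b (a (b (l 16018200) (l 1)) (l 1)) (l 1))))), by decide +kernel⟩

def k2_pm_213 : ∃ t, chk3 f_pm_213 t 3 1 1 = true :=
  ⟨(b (l 3) (b (b (l 3) (a (l 3) (l 1))) (l 1))), by decide +kernel⟩

theorem s3_pm_213 : ∃ t, chk3 f_pm_213 t 2 1 1 = true := ex3_b k0_pm_213 k1_pm_213

theorem s4_pm_213 : ∃ t, chk3 f_pm_213 t 1 1 1 = true := ex3_a s3_pm_213 k2_pm_213

theorem c_pm_213 : CertB 1073741824 536870912 0 1230186008 966367641 24778659 3 eng mog cd2q2 cd2q3 pd1 false true false .pnn 2 1 3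
    ndB2q2 ndB2q3 pcB1 Cut.none Ext.none :=
  certB0 (fam := false) (s1 := true) (s2 := false) (a := 2) (b := 1) (c := 3) (cn := .pnn) (n1 := ndB2q2) (n2 := ndB2q3) (pc := pcB1) (cut := Cut.none) (xt := Ext.none) (P1 := 1073741824) (W1 := 536870912) (P2 := 0) (W2 := 1230186008) (P3 := 966367641) (W3 := 24778659) (N0 := 3) (En := eng) (mo := mog) (C1 := cd2q2) (C2 := cd2q3) (C3 := pd1)
    rfl s4_pm_213

noncomputable def f_pm_303 : ℕ → ℕ → ℕ → ℕ → Bool := onCell 0 1230186008 0 1230186008 966367641 24778659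
    (rowB 3 eng mog cd2q3 cd2q3 pd0 0 false true false .npn 3 0 3 (qsf 0 1230186008 0 1230186008 0) ndB2q3 ndB2q3 pcB0 Cut.none Ext.none)

def k0_pm_303 : ∃ t, chk3 f_pm_303 t 1 1 1 = true :=
  ⟨(a (b (l 3) (l 3)) (b (l 3) (a (l 3) (b (l 3) (a (l 3) (l 3)))))), by decide +kernel⟩

theorem c_pm_303 : CertB 0 1230186008 0 1230186008 966367641 24778659 3 eng mog cd2q3 cd2q3 pd0 false true false .npn 3 0 3
    ndB2q3 ndB2q3 pcB0 Cut.none Ext.none :=
  certB0 (fam := false) (s1 := true) (s2 := false) (a := 3) (b := 0) (c := 3) (cn := .npn) (n1 := ndB2q3) (n2 := ndB2q3) (pc := pcB0) (cut := Cut.none) (xt := Ext.none) (P1 := 0) (W1 := 1230186008) (P2 := 0) (W2 := 1230186008) (P3 := 966367641) (W3 := 24778659) (N0 := 3) (En := eng) (mo := mog) (C1 := cd2q3) (C2 := cd2q3) (C3 := pd0)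
    rfl k0_pm_303

noncomputable def f_pm_313 : ℕ → ℕ → ℕ → ℕ → Bool := onCell 0 1230186008 0 1230186008 966367641 24778659
    (rowB 3 eng mog cd2q3 cd2q3 pd1 0 false true false .dn 3 1 3 (qsf 0 1230186008 0 1230186008 1) ndB2q3 ndB2q3 pcB1 Cut.none Ext.none)

def k0_pm_313 : ∃ t, chk3 f_pm_313 t 1 1 1 = true :=
  ⟨(a (l 1) (b (l 3) (l 1))), by decide +kernel⟩

theorem c_pm_313 : CertB 0 1230186008 0 1230186008 966367641 24778659 3 eng mog cd2q3 cd2q3 pd1 false true false .dn 3 1 3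
    ndB2q3 ndB2q3 pcB1 Cut.none Ext.none :=
  certB0 (fam := false) (s1 := true) (s2 := false) (a := 3) (b := 1) (c := 3) (cn := .dn) (n1 := ndB2q3) (n2 := ndB2q3) (pc := pcB1) (cut := Cut.none) (xt := Ext.none) (P1 := 0) (W1 := 1230186008) (P2 := 0) (W2 := 1230186008) (P3 := 966367641) (W3 := 24778659) (N0 := 3) (En := eng) (mo := mog) (C1 := cd2q3) (C2 := cd2q3) (C3 := pd1)
    rfl k0_pm_313

noncomputable def f_mm_001 : ℕ → ℕ → ℕ → ℕ → Bool := onCell 0 536870912 0 536870912 966367641 24778659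
    (rowB 3 eng mog cd2q0 cd2q1 pd0 1 false false false .up 0 0 1 (qsf 0 536870912 536870912 536870912 0) ndB2q0 ndB2q1 pcB0 Cut.none Ext.none)

def k0_mm_001 : ∃ t, chk3 f_mm_001 t 1 1 1 = true :=
  ⟨(l 3), by decide +kernel⟩

theorem c_mm_001 : CertB 0 536870912 536870912 536870912 966367641 24778659 3 eng mog cd2q0 cd2q1 pd0 false false false .up 0 0 1
    ndB2q0 ndB2q1 pcB0 Cut.none Ext.none :=
  certB1 (fam := false) (s1 := false) (s2 := false) (a := 0) (b := 0) (c := 1) (cn := .up) (n1 := ndB2q0) (n2 := ndB2q1) (pc := pcB0) (cut := Cut.none) (xt := Ext.none) (P1 := 0) (W1 := 536870912) (P2 := 536870912) (W2 := 536870912) (P3 := 966367641) (W3 := 24778659) (N0 := 3) (En := eng) (mo := mog) (C1 := cd2q0) (C2 := cd2q1) (C3 := pd0)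
    rfl (fun _ => rfl) k0_mm_001

noncomputable def f_mm_011 : ℕ → ℕ → ℕ → ℕ → Bool := onCell 0 536870912 536870912 536870912 966367641 24778659
    (rowB 3 eng mog cd2q0 cd2q1 pd1 1 false false false .pnn 0 1 1 (qsf 0 536870912 536870912 536870912 1) ndB2q0 ndB2q1 pcB1 Cut.none Ext.none)

def k0_mm_011 : ∃ t, chk3 f_mm_011 t 1 1 1 = true :=
  ⟨(l 5), by decide +kernel⟩

theorem c_mm_011 : CertB 0 536870912 536870912 536870912 966367641 24778659 3 eng mog cd2q0 cd2q1 pd1 false false false .pnn 0 1 1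
    ndB2q0 ndB2q1 pcB1 Cut.none Ext.none :=
  certB1 (fam := false) (s1 := false) (s2 := false) (a := 0) (b := 1) (c := 1) (cn := .pnn) (n1 := ndB2q0) (n2 := ndB2q1) (pc := pcB1) (cut := Cut.none) (xt := Ext.none) (P1 := 0) (W1 := 536870912) (P2 := 536870912) (W2 := 536870912) (P3 := 966367641) (W3 := 24778659) (N0 := 3) (En := eng) (mo := mog) (C1 := cd2q0) (C2 := cd2q1) (C3 := pd1)
    rfl (fun _ => rfl) k0_mm_011

noncomputable def f_mm_012 : ℕ → ℕ → ℕ → ℕ → Bool := onCell 0 536870912 1073741824 536870912 966367641 24778659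
    (rowB 3 eng mog cd2q0 cd2q2 pd1 0 false false false .pnp 0 1 2 (qsf 0 536870912 1073741824 536870912 1) ndB2q0 ndB2q2 pcB1 Cut.none Ext.none)

def k0_mm_012 : ∃ t, chk3 f_mm_012 t 1 1 1 = true :=
  ⟨(l 5), by decide +kernel⟩

theorem c_mm_012 : CertB 0 536870912 1073741824 536870912 966367641 24778659 3 eng mog cd2q0 cd2q2 pd1 false false false .pnp 0 1 2
    ndB2q0 ndB2q2 pcB1 Cut.none Ext.none :=
  certB0 (fam := false) (s1 := false) (s2 := false) (a := 0) (b := 1) (c := 2) (cn := .pnp) (n1 := ndB2q0) (n2 := ndB2q2) (pc := pcB1) (cut := Cut.none) (xt := Ext.none) (P1 := 0) (W1 := 536870912) (P2 := 1073741824) (W2 := 536870912) (P3 := 966367641) (W3 := 24778659) (N0 := 3) (En := eng) (mo := mog) (C1 := cd2q0) (C2 := cd2q2) (C3 := pd1)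
    rfl k0_mm_012

noncomputable def f_mm_022 : ℕ → ℕ → ℕ → ℕ → Bool := onCell 0 536870912 1073741824 536870912 966367641 24778659
    (rowB 3 eng mog cd2q0 cd2q2 pd2 0 false false false .pp 0 2 2 (qsf 0 536870912 1073741824 536870912 2) ndB2q0 ndB2q2 pcB2 Cut.none Ext.none)

def k0_mm_022 : ∃ t, chk3 f_mm_022 t 1 1 1 = true :=
  ⟨(l 5), by decide +kernel⟩

theorem c_mm_022 : CertB 0 536870912 1073741824 536870912 966367641 24778659 3 eng mog cd2q0 cd2q2 pd2 false false false .pp 0 2 2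
    ndB2q0 ndB2q2 pcB2 Cut.none Ext.none :=
  certB0 (fam := false) (s1 := false) (s2 := false) (a := 0) (b := 2) (c := 2) (cn := .pp) (n1 := ndB2q0) (n2 := ndB2q2) (pc := pcB2) (cut := Cut.none) (xt := Ext.none) (P1 := 0) (W1 := 536870912) (P2 := 1073741824) (W2 := 536870912) (P3 := 966367641) (W3 := 24778659) (N0 := 3) (En := eng) (mo := mog) (C1 := cd2q0) (C2 := cd2q2) (C3 := pd2)
    rfl k0_mm_022

noncomputable def f_mm_023 : ℕ → ℕ → ℕ → ℕ → Bool := onCell 0 536870912 0 1230186008 966367641 24778659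
    (rowB 3 eng mog cd2q0 cd2q3 pd2 0 false false false .up 0 2 3 (qsf 0 536870912 0 1230186008 2) ndB2q0 ndB2q3 pcB2 Cut.none Ext.none)

def k0_mm_023 : ∃ t, chk3 f_mm_023 t 1 1 1 = true :=
  ⟨(l 5), by decide +kernel⟩

theorem c_mm_023 : CertB 0 536870912 0 1230186008 966367641 24778659 3 eng mog cd2q0 cd2q3 pd2 false false false .up 0 2 3
    ndB2q0 ndB2q3 pcB2 Cut.none Ext.none :=
  certB0 (fam := false) (s1 := false) (s2 := false) (a := 0) (b := 2) (c := 3) (cn := .up) (n1 := ndB2q0) (n2 := ndB2q3) (pc := pcB2) (cut := Cut.none) (xt := Ext.none) (P1 := 0) (W1 := 536870912) (P2 := 0) (W2 := 1230186008) (P3 := 966367641) (W3 := 24778659) (N0 := 3) (En := eng) (mo := mog) (C1 := cd2q0) (C2 := cd2q3) (C3 := pd2)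
    rfl k0_mm_023

noncomputable def f_mm_033 : ℕ → ℕ → ℕ → ℕ → Bool := onCell 0 536870912 0 1230186008 966367641 24778659
    (rowB 3 eng mog cd2q0 cd2q3 pd3 0 false false false .pnn 0 3 3 (qsf 0 536870912 0 1230186008 3) ndB2q0 ndB2q3 pcB3 Cut.none Ext.none)

def k0_mm_033 : ∃ t, chk3 f_mm_033 t 1 1 1 = true :=
  ⟨(l 5), by decide +kernel⟩

theorem c_mm_033 : CertB 0 536870912 0 1230186008 966367641 24778659 3 eng mog cd2q0 cd2q3 pd3 false false false .pnn 0 3 3
    ndB2q0 ndB2q3 pcB3 Cut.none Ext.none :=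
  certB0 (fam := false) (s1 := false) (s2 := false) (a := 0) (b := 3) (c := 3) (cn := .pnn) (n1 := ndB2q0) (n2 := ndB2q3) (pc := pcB3) (cut := Cut.none) (xt := Ext.none) (P1 := 0) (W1 := 536870912) (P2 := 0) (W2 := 1230186008) (P3 := 966367641) (W3 := 24778659) (N0 := 3) (En := eng) (mo := mog) (C1 := cd2q0) (C2 := cd2q3) (C3 := pd3)
    rfl k0_mm_033

noncomputable def f_mm_101 : ℕ → ℕ → ℕ → ℕ → Bool := onCell 536870912 536870912 536870912 536870912 966367641 24778659
    (rowB 3 eng mog cd2q1 cd2q1 pd0 0 false false false .npn 1 0 1 (qsf 536870912 536870912 536870912 536870912 0) ndB2q1 ndB2q1 pcB0 Cut.none Ext.none)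

def k0_mm_101 : ∃ t, chk3 f_mm_101 t 1 1 1 = true :=
  ⟨(l 3), by decide +kernel⟩

theorem c_mm_101 : CertB 536870912 536870912 536870912 536870912 966367641 24778659 3 eng mog cd2q1 cd2q1 pd0 false false false .npn 1 0 1
    ndB2q1 ndB2q1 pcB0 Cut.none Ext.none :=
  certB0 (fam := false) (s1 := false) (s2 := false) (a := 1) (b := 0) (c := 1) (cn := .npn) (n1 := ndB2q1) (n2 := ndB2q1) (pc := pcB0) (cut := Cut.none) (xt := Ext.none) (P1 := 536870912) (W1 := 536870912) (P2 := 536870912) (W2 := 536870912) (P3 := 966367641) (W3 := 24778659) (N0 := 3) (En := eng) (mo := mog) (C1 := cd2q1) (C2 := cd2q1) (C3 := pd0)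
    rfl k0_mm_101

noncomputable def f_mm_102 : ℕ → ℕ → ℕ → ℕ → Bool := onCell 536870912 536870912 1073741824 536870912 966367641 24778659
    (rowB 3 eng mog cd2q1 cd2q2 pd0 0 false false false .npp 1 0 2 (qsf 536870912 536870912 1073741824 536870912 0) ndB2q1 ndB2q2 pcB0 Cut.none Ext.none)

def k0_mm_102 : ∃ t, chk3 f_mm_102 t 1 1 1 = true :=
  ⟨(l 5), by decide +kernel⟩

theorem c_mm_102 : CertB 536870912 536870912 1073741824 536870912 966367641 24778659 3 eng mog cd2q1 cd2q2 pd0 false false false .npp 1 0 2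
    ndB2q1 ndB2q2 pcB0 Cut.none Ext.none :=
  certB0 (fam := false) (s1 := false) (s2 := false) (a := 1) (b := 0) (c := 2) (cn := .npp) (n1 := ndB2q1) (n2 := ndB2q2) (pc := pcB0) (cut := Cut.none) (xt := Ext.none) (P1 := 536870912) (W1 := 536870912) (P2 := 1073741824) (W2 := 536870912) (P3 := 966367641) (W3 := 24778659) (N0 := 3) (En := eng) (mo := mog) (C1 := cd2q1) (C2 := cd2q2) (C3 := pd0)
    rfl k0_mm_102

noncomputable def f_mm_112 : ℕ → ℕ → ℕ → ℕ → Bool := onCell 536870912 536870912 1073741824 536870912 966367641 24778659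
    (rowB 3 eng mog cd2q1 cd2q2 pd1 0 false false false .dn 1 1 2 (qsf 536870912 536870912 1073741824 536870912 1) ndB2q1 ndB2q2 pcB1 Cut.none Ext.none)

def k0_mm_112 : ∃ t, chk3 f_mm_112 t 1 1 1 = true :=
  ⟨(l 5), by decide +kernel⟩

theorem c_mm_112 : CertB 536870912 536870912 1073741824 536870912 966367641 24778659 3 eng mog cd2q1 cd2q2 pd1 false false false .dn 1 1 2
    ndB2q1 ndB2q2 pcB1 Cut.none Ext.none :=
  certB0 (fam := false) (s1 := false) (s2 := false) (a := 1) (b := 1) (c := 2) (cn := .dn) (n1 := ndB2q1) (n2 := ndB2q2) (pc := pcB1) (cut := Cut.none) (xt := Ext.none) (P1 := 536870912) (W1 := 536870912) (P2 := 1073741824) (W2 := 536870912) (P3 := 966367641) (W3 := 24778659) (N0 := 3) (En := eng) (mo := mog) (C1 := cd2q1) (C2 := cd2q2) (C3 := pd1)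
    rfl k0_mm_112

noncomputable def f_mm_113 : ℕ → ℕ → ℕ → ℕ → Bool := onCell 536870912 536870912 0 1230186008 966367641 24778659
    (rowB 3 eng mog cd2q1 cd2q3 pd1 0 false false false .nn 1 1 3 (qsf 536870912 536870912 0 1230186008 1) ndB2q1 ndB2q3 pcB1 Cut.none Ext.none)

def k0_mm_113 : ∃ t, chk3 f_mm_113 t 1 1 1 = true :=
  ⟨(l 5), by decide +kernel⟩

theorem c_mm_113 : CertB 536870912 536870912 0 1230186008 966367641 24778659 3 eng mog cd2q1 cd2q3 pd1 false false false .nn 1 1 3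
    ndB2q1 ndB2q3 pcB1 Cut.none Ext.none :=
  certB0 (fam := false) (s1 := false) (s2 := false) (a := 1) (b := 1) (c := 3) (cn := .nn) (n1 := ndB2q1) (n2 := ndB2q3) (pc := pcB1) (cut := Cut.none) (xt := Ext.none) (P1 := 536870912) (W1 := 536870912) (P2 := 0) (W2 := 1230186008) (P3 := 966367641) (W3 := 24778659) (N0 := 3) (En := eng) (mo := mog) (C1 := cd2q1) (C2 := cd2q3) (C3 := pd1)
    rfl k0_mm_113

noncomputable def f_mm_123 : ℕ → ℕ → ℕ → ℕ → Bool := onCell 536870912 536870912 0 1230186008 966367641 24778659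
    (rowB 3 eng mog cd2q1 cd2q3 pd2 0 false false false .npn 1 2 3 (qsf 536870912 536870912 0 1230186008 2) ndB2q1 ndB2q3 pcB2 Cut.none Ext.none)

def k0_mm_123 : ∃ t, chk3 f_mm_123 t 1 1 1 = true :=
  ⟨(l 5), by decide +kernel⟩

theorem c_mm_123 : CertB 536870912 536870912 0 1230186008 966367641 24778659 3 eng mog cd2q1 cd2q3 pd2 false false false .npn 1 2 3
    ndB2q1 ndB2q3 pcB2 Cut.none Ext.none :=
  certB0 (fam := false) (s1 := false) (s2 := false) (a := 1) (b := 2) (c := 3) (cn := .npn) (n1 := ndB2q1) (n2 := ndB2q3) (pc := pcB2) (cut := Cut.none) (xt := Ext.none) (P1 := 536870912) (W1 := 536870912) (P2 := 0) (W2 := 1230186008) (P3 := 966367641) (W3 := 24778659) (N0 := 3) (En := eng) (mo := mog) (C1 := cd2q1) (C2 := cd2q3) (C3 := pd2)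
    rfl k0_mm_123

noncomputable def f_mm_133 : ℕ → ℕ → ℕ → ℕ → Bool := onCell 536870912 536870912 0 1230186008 966367641 24778659
    (rowB 3 eng mog cd2q1 cd2q3 pd3 0 false false false .dn 1 3 3 (qsf 536870912 536870912 0 1230186008 3) ndB2q1 ndB2q3 pcB3 Cut.none Ext.none)

def k0_mm_133 : ∃ t, chk3 f_mm_133 t 1 1 1 = true :=
  ⟨(l 5), by decide +kernel⟩

theorem c_mm_133 : CertB 536870912 536870912 0 1230186008 966367641 24778659 3 eng mog cd2q1 cd2q3 pd3 false false false .dn 1 3 3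
    ndB2q1 ndB2q3 pcB3 Cut.none Ext.none :=
  certB0 (fam := false) (s1 := false) (s2 := false) (a := 1) (b := 3) (c := 3) (cn := .dn) (n1 := ndB2q1) (n2 := ndB2q3) (pc := pcB3) (cut := Cut.none) (xt := Ext.none) (P1 := 536870912) (W1 := 536870912) (P2 := 0) (W2 := 1230186008) (P3 := 966367641) (W3 := 24778659) (N0 := 3) (En := eng) (mo := mog) (C1 := cd2q1) (C2 := cd2q3) (C3 := pd3)
    rfl k0_mm_133

noncomputable def f_mm_202 : ℕ → ℕ → ℕ → ℕ → Bool := onCell 1073741824 536870912 1073741824 536870912 966367641 24778659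
    (rowB 3 eng mog cd2q2 cd2q2 pd0 0 false false false .pp 2 0 2 (qsf 1073741824 536870912 1073741824 536870912 0) ndB2q2 ndB2q2 pcB0 Cut.none Ext.none)

def k0_mm_202 : ∃ t, chk3 f_mm_202 t 1 1 1 = true :=
  ⟨(l 3), by decide +kernel⟩

theorem c_mm_202 : CertB 1073741824 536870912 1073741824 536870912 966367641 24778659 3 eng mog cd2q2 cd2q2 pd0 false false false .pp 2 0 2
    ndB2q2 ndB2q2 pcB0 Cut.none Ext.none :=
  certB0 (fam := false) (s1 := false) (s2 := false) (a := 2) (b := 0) (c := 2) (cn := .pp) (n1 := ndB2q2) (n2 := ndB2q2) (pc := pcB0) (cut := Cut.none) (xt := Ext.none) (P1 := 1073741824) (W1 := 536870912) (P2 := 1073741824) (W2 := 536870912) (P3 := 966367641) (W3 := 24778659) (N0 := 3) (En := eng) (mo := mog) (C1 := cd2q2) (C2 := cd2q2) (C3 := pd0)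
    rfl k0_mm_202

noncomputable def f_mm_203 : ℕ → ℕ → ℕ → ℕ → Bool := onCell 0 536870912 0 1230186008 966367641 24778659
    (rowB 3 eng mog cd2q2 cd2q3 pd0 2 false false false .up 2 0 3 (qsf 1073741824 536870912 0 1230186008 0) ndB2q2 ndB2q3 pcB0 Cut.none Ext.none)

def k0_mm_203 : ∃ t, chk3 f_mm_203 t 1 1 1 = true :=
  ⟨(b (l 3) (l 3)), by decide +kernel⟩

theorem c_mm_203 : CertB 1073741824 536870912 0 1230186008 966367641 24778659 3 eng mog cd2q2 cd2q3 pd0 false false false .up 2 0 3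
    ndB2q2 ndB2q3 pcB0 Cut.none Ext.none :=
  certB2 (fam := false) (s1 := false) (s2 := false) (a := 2) (b := 0) (c := 3) (cn := .up) (n1 := ndB2q2) (n2 := ndB2q3) (pc := pcB0) (cut := Cut.none) (xt := Ext.none) (P1 := 1073741824) (W1 := 536870912) (P2 := 0) (W2 := 1230186008) (P3 := 966367641) (W3 := 24778659) (N0 := 3) (En := eng) (mo := mog) (C1 := cd2q2) (C2 := cd2q3) (C3 := pd0)
    rfl (fun _ => rfl) k0_mm_203

noncomputable def f_mm_213 : ℕ → ℕ → ℕ → ℕ → Bool := onCell 536870912 536870912 0 1230186008 966367641 24778659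
    (rowB 3 eng mog cd2q2 cd2q3 pd1 2 false false false .pnn 2 1 3 (qsf 1073741824 536870912 0 1230186008 1) ndB2q2 ndB2q3 pcB1 Cut.none Ext.none)

def k0_mm_213 : ∃ t, chk3 f_mm_213 t 1 1 1 = true :=
  ⟨(b (l 5) (l 5)), by decide +kernel⟩

theorem c_mm_213 : CertB 1073741824 536870912 0 1230186008 966367641 24778659 3 eng mog cd2q2 cd2q3 pd1 false false false .pnn 2 1 3
    ndB2q2 ndB2q3 pcB1 Cut.none Ext.none :=
  certB2 (fam := false) (s1 := false) (s2 := false) (a := 2) (b := 1) (c := 3) (cn := .pnn) (n1 := ndB2q2) (n2 := ndB2q3) (pc := pcB1) (cut := Cut.none) (xt := Ext.none) (P1 := 1073741824) (W1 := 536870912) (P2 := 0) (W2 := 1230186008) (P3 := 966367641) (W3 := 24778659) (N0 := 3) (En := eng) (mo := mog) (C1 := cd2q2) (C2 := cd2q3) (C3 := pd1)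
    rfl (fun _ => rfl) k0_mm_213

noncomputable def f_mm_303 : ℕ → ℕ → ℕ → ℕ → Bool := onCell 0 1230186008 0 1230186008 966367641 24778659
    (rowB 3 eng mog cd2q3 cd2q3 pd0 0 false false false .npn 3 0 3 (qsf 0 1230186008 0 1230186008 0) ndB2q3 ndB2q3 pcB0 Cut.none Ext.none)

def k0_mm_303 : ∃ t, chk3 f_mm_303 t 1 1 1 = true :=
  ⟨(a (b (l 3) (l 3)) (b (l 3) (l 3))), by decide +kernel⟩

theorem c_mm_303 : CertB 0 1230186008 0 1230186008 966367641 24778659 3 eng mog cd2q3 cd2q3 pd0 false false false .npn 3 0 3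
    ndB2q3 ndB2q3 pcB0 Cut.none Ext.none :=
  certB0 (fam := false) (s1 := false) (s2 := false) (a := 3) (b := 0) (c := 3) (cn := .npn) (n1 := ndB2q3) (n2 := ndB2q3) (pc := pcB0) (cut := Cut.none) (xt := Ext.none) (P1 := 0) (W1 := 1230186008) (P2 := 0) (W2 := 1230186008) (P3 := 966367641) (W3 := 24778659) (N0 := 3) (En := eng) (mo := mog) (C1 := cd2q3) (C2 := cd2q3) (C3 := pd0)
    rfl k0_mm_303

noncomputable def f_mm_313 : ℕ → ℕ → ℕ → ℕ → Bool := onCell 0 1230186008 0 1230186008 966367641 24778659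
    (rowB 3 eng mog cd2q3 cd2q3 pd1 0 false false false .dn 3 1 3 (qsf 0 1230186008 0 1230186008 1) ndB2q3 ndB2q3 pcB1 Cut.none Ext.none)

def k0_mm_313 : ∃ t, chk3 f_mm_313 t 1 1 1 = true :=
  ⟨(a (l 1) (b (l 3) (l 1))), by decide +kernel⟩

theorem c_mm_313 : CertB 0 1230186008 0 1230186008 966367641 24778659 3 eng mog cd2q3 cd2q3 pd1 false false false .dn 3 1 3
    ndB2q3 ndB2q3 pcB1 Cut.none Ext.none :=
  certB0 (fam := false) (s1 := false) (s2 := false) (a := 3) (b := 1) (c := 3) (cn := .dn) (n1 := ndB2q3) (n2 := ndB2q3) (pc := pcB1) (cut := Cut.none) (xt := Ext.none) (P1 := 0) (W1 := 1230186008) (P2 := 0) (W2 := 1230186008) (P3 := 966367641) (W3 := 24778659) (N0 := 3) (En := eng) (mo := mog) (C1 := cd2q3) (C2 := cd2q3) (C3 := pd1)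
    rfl k0_mm_313

end Pool.Agent.Strip051.G.I9000_9231.Tab.C.BB22

namespace Pool.Agent.Strip051.G.I9000_9231.Tab.C.BB23

open Pool.Agent.Strip051.PB Pool.Agent.Strip051.PB.T
open Pool.Agent.Strip051.G.I9000_9231.Tab

noncomputable def f_pp_001 : ℕ → ℕ → ℕ → ℕ → Bool := onCell 0 536870912 0 536870912 966367641 24778659
    (rowB 3 eng mog cd2q0 cd3q1 pd0 1 false true true .up 0 0 1 (qsf 0 536870912 536870912 536870912 0) ndB2q0 ndB3q1 pcB0 Cut.none Ext.none)

def k0_pp_001 : ∃ t, chk3 f_pp_001 t 1 1 1 = true :=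
  ⟨(l 3), by decide +kernel⟩

theorem c_pp_001 : CertB 0 536870912 536870912 536870912 966367641 24778659 3 eng mog cd2q0 cd3q1 pd0 false true true .up 0 0 1
    ndB2q0 ndB3q1 pcB0 Cut.none Ext.none :=
  certB1 (fam := false) (s1 := true) (s2 := true) (a := 0) (b := 0) (c := 1) (cn := .up) (n1 := ndB2q0) (n2 := ndB3q1) (pc := pcB0) (cut := Cut.none) (xt := Ext.none) (P1 := 0) (W1 := 536870912) (P2 := 536870912) (W2 := 536870912) (P3 := 966367641) (W3 := 24778659) (N0 := 3) (En := eng) (mo := mog) (C1 := cd2q0) (C2 := cd3q1) (C3 := pd0)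
    rfl (fun _ => rfl) k0_pp_001

noncomputable def f_pp_011 : ℕ → ℕ → ℕ → ℕ → Bool := onCell 0 536870912 536870912 536870912 966367641 24778659
    (rowB 3 eng mog cd2q0 cd3q1 pd1 0 false true true .pnn 0 1 1 (qsf 0 536870912 536870912 536870912 1) ndB2q0 ndB3q1 pcB1 Cut.none Ext.none)

def k0_pp_011 : ∃ t, chk3 f_pp_011 t 1 1 1 = true :=
  ⟨(a (b (l 3) (l 3)) (l 3)), by decide +kernel⟩

theorem c_pp_011 : CertB 0 536870912 536870912 536870912 966367641 24778659 3 eng mog cd2q0 cd3q1 pd1 false true true .pnn 0 1 1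
    ndB2q0 ndB3q1 pcB1 Cut.none Ext.none :=
  certB0 (fam := false) (s1 := true) (s2 := true) (a := 0) (b := 1) (c := 1) (cn := .pnn) (n1 := ndB2q0) (n2 := ndB3q1) (pc := pcB1) (cut := Cut.none) (xt := Ext.none) (P1 := 0) (W1 := 536870912) (P2 := 536870912) (W2 := 536870912) (P3 := 966367641) (W3 := 24778659) (N0 := 3) (En := eng) (mo := mog) (C1 := cd2q0) (C2 := cd3q1) (C3 := pd1)
    rfl k0_pp_011

noncomputable def f_pp_012 : ℕ → ℕ → ℕ → ℕ → Bool := onCell 0 536870912 536870912 536870912 966367641 24778659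
    (rowB 3 eng mog cd2q0 cd3q2 pd1 1 false true true .pnp 0 1 2 (qsf 0 536870912 1073741824 536870912 1) ndB2q0 ndB3q2 pcB1 Cut.none Ext.none)

def k0_pp_012 : ∃ t, chk3 f_pp_012 t 1 1 1 = true :=
  ⟨(a (l 3) (b (l 3) (b (l 3) (b (l 3) (a (l 3) (b (a (l 3) (l 190753088167)) (a (l 208469856887) (l 148340426119)))))))), by decide +kernel⟩

theorem c_pp_012 : CertB 0 536870912 1073741824 536870912 966367641 24778659 3 eng mog cd2q0 cd3q2 pd1 false true true .pnp 0 1 2
    ndB2q0 ndB3q2 pcB1 Cut.none Ext.none :=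
  certB1 (fam := false) (s1 := true) (s2 := true) (a := 0) (b := 1) (c := 2) (cn := .pnp) (n1 := ndB2q0) (n2 := ndB3q2) (pc := pcB1) (cut := Cut.none) (xt := Ext.none) (P1 := 0) (W1 := 536870912) (P2 := 1073741824) (W2 := 536870912) (P3 := 966367641) (W3 := 24778659) (N0 := 3) (En := eng) (mo := mog) (C1 := cd2q0) (C2 := cd3q2) (C3 := pd1)
    rfl (fun _ => rfl) k0_pp_012

end Pool.Agent.Strip051.G.I9000_9231.Tab.C.BB23

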