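import Pool.Agent.Strip051.G.I9000_9231.Tab
import Pool.Agent.Strip051.PB.StripB

/-! # Strips, near vertex: certificates 5 (generated) -/

set_option linter.all false
set_option maxRecDepth 100000

namespace Pool.Agent.Strip051.G.I9000_9231.Tab.CS.BB40

open Pool.Agent.Strip051.PB Pool.Agent.Strip051.PB.T
open Pool.Agent.Strip051.G.I9000_9231.Tab

noncomputable def cut_pp_101_s : Cut := Cut.of [[⟨4, 0, 0, 1449551462⟩], [⟨0, 1, 0, 53687091⟩, ⟨1, 0, 0, 53687091⟩, ⟨2, 1, 0, 53687091⟩]]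

noncomputable def f_pp_101_s : ℕ → ℕ → ℕ → ℕ → Bool := onCell 0 536870912 536870912 536870912 966367641 24778659
    (rowNE 3 eng mog cd4q1 cd0q1 pd0 2 false true true .npn 1 0 1 (qsf 536870912 536870912 536870912 536870912 0) ndB4q1 ndB0q1 pcB0 cut_pp_101_s Ext.none)

def k0_pp_101_s : ∃ t, chk3 f_pp_101_s t 2 2 1 = true :=
  ⟨(l 3), by decide +kernel⟩

def k1_pp_101_s : ∃ t, chk3 f_pp_101_s t 4 6 1 = true :=
  ⟨(l 3), by decide +kernel⟩

def k2_pp_101_s : ∃ t, chk3 f_pp_101_s t 8 14 1 = true :=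
  ⟨(l 3), by decide +kernel⟩

def k3_pp_101_s : ∃ t, chk3 f_pp_101_s t 16 15 1 = true :=
  ⟨(b (l 3) (b (b (l 3) (b (l 3) (b (l 3) (l 14)))) (l 14))), by decide +kernel⟩

def k4_pp_101_s : ∃ t, chk3 f_pp_101_s t 17 30 1 = true :=
  ⟨(b (l 3) (a (l 3) (b (l 3) (a (l 3) (b (l 3) (a (l 3) (b (l 3) (a (b (l 3) (a (l 3) (c (l 411410891671) (l 516100716839)))) (b (a (l 3) (c (l 387251700359) (l 267529490215))) (c (c (l 90362088151) (l 16776312)) (c (l 16776320) (l 16776328)))))))))))), by decide +kernel⟩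

def k5_pp_101_s : ∃ t, chk3 f_pp_101_s t 34 124 1 = true :=
  ⟨(a (l 3) (b (l 3) (a (l 3) (b (l 3) (a (l 3) (b (l 3) (b (a (l 3) (c (l 384030474647) (a (l 407652796503) (l 16777248)))) (c (a (l 397989118455) (l 16776536)) (a (a (l 532206846823) (l 243907167927)) (l 16776456)))))))))), by decide +kernel⟩

def k6_pp_101_s : ∃ t, chk3 f_pp_101_s t 68 125 1 = true :=
  ⟨(b (a (l 3) (b (l 3) (a (l 3) (b (l 3) (b (a (l 3) (c (l 506437041975) (l 516100719671))) (a (c (l 518785074327) (l 527911879815)) (c (c (a (l 235854104167) (l 16776800)) (l 173577078567)) (c (l 180556400231) (l 185388238375))))))))) (a (b (a (l 3) (b (l 3) (b (l 3) (a (l 3) (c (a (c (l 411410891159) (l 313163515511)) (c (l 125795566807) (l 16777008))) (a (l 410337149367) (c (l 16776976) (l 16776936)))))))) (a (b (b (l 3) (a (l 3) (a (l 14) (b (c (l 277193164087) (l 282561873159)) (c (l 16776840) (l 16776736)))))) (l 14)) (c (b (a (b (a (c (l 424832664039) (l 425906405863)) (b (l 249812747591) (l 16776784)))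 (l 16777872)) (c (l 16775712) (l 16775536))) (l 16776592)) (b (a (b (a (l 424832664055) (c (l 16777032) (l 180019528807))) (l 16775992)) (c (l 16775352) (l 16775160))) (l 16777128))))) (a (a (b (b (a (l 3) (c (l 548849845847) (l 560124134951))) (b (a (b (l 3) (c (l 217600492791) (l 228337910887))) (c (a (l 135459243239) (l 16776808)) (l 122037470503))) (c (l 16776128) (l 16775896)))) (c (l 16773360) (l 16772512))) (b (b (c (b (l 530059363559) (a (c (l 382419861767) (l 275045680727)) (l 99488892311))) (b (l 540259910855) (c (l 206326204119) (a (l 290078066103) (l 16776800))))) (c (l 16775528) (l 16775176))) (c (l 16772232) (l 16771184)))) (b (a (b (b (c (c (a (l 255181457015) (l 16776864)) (l 188609464119)) (c (l 189683205863) (a (l 272898196855) (l 16776736)))) (c (l 16776024) (l 16775792))) (c (l 16774384) (l 16773824))) (c (l 16777608) (l 16776424))) (c (l 16770560) (l 16769264)))))), by decide +kernel⟩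

def k7_pp_101_s : ∃ t, chk3 f_pp_101_s t 69 125 1 = true :=
  ⟨(b (a (b (a (l 3) (b (l 3) (b (a (l 3) (c (a (l 3) (l 305110452087)) (l 441475662599))) (a (c (a (l 3) (l 426980147719)) (l 476909142871)) (c (c (l 103783859687) (l 16776808)) (l 120963729223)))))) (a (a (a (b (l 3) (c (c (b (l 219747976727) (l 16776240)) (l 110226310839)) (c (l 115595019815) (l 117205632471)))) (b (c (b (l 3) (l 461339886247)) (l 495162754327)) (c (l 16776168) (l 16775992)))) (b (c (b (a (l 3) (l 444696887895)) (c (c (l 148881016343) (l 16777928)) (l 16777600))) (b (l 490330915751) (c (l 16776912) (l 156934079911)))) (c (l 16775312) (l 16775000)))) (a (b (c (a (b (l 183240754791) (l 16776080)) (l 16776048)) (c (l 16776240) (l 83919635927))) (c (l 16774184) (l 16773720))) (c (l 16774136) (l 16773688))))) (a (b (b (b (a (l 3) (c (l 410874020439) (l 413558375015))) (a (c (a (l 3) (l 277730035639)) (l 427517018807)) (c (l 16778112) (l 16776608)))) (c (c (c (l 46338672215) (l 16775680))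 (l 16778224)) (c (l 16775496) (l 16778008)))) (c (l 16772464) (l 16771832))) (a (b (b (c (l 16778208) (l 16775944)) (l 16773776)) (l 16770440)) (c (l 16777056) (l 16776448))))) (a (a (b (c (l 16772648) (l 16771864)) (l 16762360)) (c (l 16768320) (l 16766936))) (c (l 16765112) (l 16763536)))), by decide +kernel⟩

def k8_pp_101_s : ∃ t, chk3 f_pp_101_s t 35 62 1 = true :=
  ⟨(b (a (b (a (l 3) (b (l 3) (a (b (l 3) (a (l 3) (c (l 525227525959) (l 534891202343)))) (a (b (l 3) (c (b (l 497310237767) (l 162839660551)) (b (l 505900172343) (l 16777032)))) (b (c (l 503215818343) (l 511805752919)) (c (l 16778264) (l 16776416))))))) (a (b (a (l 3) (b (l 3) (b (a (l 3) (c (c (l 212768655383) (l 16777200)) (l 210621171959))) (c (c (a (l 226190428311) (l 16776264)) (l 146196662839)) (c (l 143512308279) (l 144586050055)))))) (a (b (b (a (l 3) (c (c (l 240685943047) (l 241222813895)) (l 240149072343))) (c (a (c (l 258402683175) (l 260550166743)) (l 16776392)) (a (l 262697650583)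 (l 16776312)))) (c (c (l 16775424) (l 16775336)) (l 16775200))) (c (c (l 16774272) (l 16774152)) (l 16776584)))) (b (a (b (a (c (b (l 530059363607) (l 192904431879)) (l 381882991159)) (c (c (l 96804538391) (l 16776624)) (l 98952022311))) (c (l 16775104) (l 16774952))) (c (l 16773936) (l 16773744))) (c (l 16770936) (l 16770544))))) (a (b (a (a (b (l 3) (c (b (b (l 443623146343) (l 16776872)) (l 16775352)) (b (c (l 225116687143) (l 222969203559)) (l 16775256)))) (b (b (l 3) (c (l 458655532423) (l 516100718647))) (c (l 16777896) (l 16775192)))) (b (a (b (l 3) (c (c (l 195051913511) (l 194515045159)) (l 192367559159))) (b (c (l 435033212055) (l 528448748423)) (c (l 16776120) (l 16776088)))) (c (l 16773640) (l 16773512)))) (c (l 16773912) (l 16773584))) (b (a (b (a (b (c (a (l 209547430439) (l 16776752)) (l 168208370519)) (l 16775000)) (c (l 16774944) (l 16774896))) (l 16771416)) (c (l 16771336) (l 16771240))) (l 16772848)))) (a (b (b (a (c (l 16776408) (l 16775856))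 (l 16774080)) (c (l 16774096) (l 16773768))) (c (l 16758872) (l 16757328))) (a (a (l 16767736) (l 16755296)) (l 16752416)))), by decide +kernel⟩

def k9_pp_101_s : ∃ t, chk3 f_pp_101_s t 17 63 1 = true :=
  ⟨(a (b (b (a (a (a (l 14) (a (l 14) (c (l 16767872) (l 16765632)))) (b (c (l 16767336) (l 16765272)) (l 16756328))) (a (a (l 16760688) (l 16758608)) (l 16755584))) (a (a (l 14) (l 16744064)) (a (l 16750744) (l 16747096)))) (a (l 14) (b (l 16740568) (l 16732688)))) (a (b (c (l 16747168) (l 16744400)) (l 16730640)) (b (l 16738848) (l 16722336)))), by decide +kernel⟩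

def k10_pp_101_s : ∃ t, chk3 f_pp_101_s t 9 14 1 = true :=
  ⟨(a (l 3) (b (l 3) (b (l 3) (a (l 3) (b (l 3) (a (b (l 3) (a (l 3) (b (l 3) (c (l 493552126743) (l 491404641063))))) (a (b (l 3) (c (b (l 445233750167) (l 16774080)) (b (a (l 540796760855) (l 301889177255)) (l 16773680)))) (c (b (a (l 513953208135) (l 440938782343)) (l 16771176)) (b (b (l 561197837895) (l 303499766055)) (l 16770392)))))))))), by decide +kernel⟩

def k11_pp_101_s : ∃ t, chk3 f_pp_101_s t 9 60 1 = true :=
  ⟨(b (a (l 3) (a (a (l 3) (b (a (l 3) (c (l 561734728023) (l 559587237431))) (c (b (a (l 569250910535) (a (a (l 246591527895) (l 16776768)) (l 16775072))) (a (a (l 486035940759) (l 16775712)) (l 16772176))) (c (a (l 485499061559) (l 353965678135)) (a (b (l 565492807175) (l 429664487799)) (l 293836094247)))))) (c (a (b (a (a (l 487646547911) (b (l 495162743175) (l 16774384))) (b (l 326585271511) (l 16770688))) (c (l 16767176) (l 16766600))) (c (l 16777192) (l 16770936))) (a (b (a (b (l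 532206824055) (l 298131076887)) (l 292225502855)) (c (l 16766016) (l 16765408))) (b (a (l 16766608) (l 16760784)) (l 16754160)))))) (a (a (l 3) (a (l 3) (a (b (l 3) (a (l 3) (b (l 3) (c (l 493552134135) (l 498920841223))))) (b (l 3) (c (c (b (l 503752677879) (a (l 16775832) (l 16773648))) (b (l 502142063591) (l 16774640))) (b (c (l 502142062055) (l 504289544167)) (l 294372988487))))))) (a (a (a (b (b (l 3) (c (c (l 449528719127) (l 459192394663)) (a (l 532206826951) (l 307257932775)))) (c (c (l 16780088) (l 16772032)) (b (l 298131096423) (l 16769624)))) (c (b (b (a (l 511268869255) (c (l 117742507495) (l 16776272))) (l 16773528)) (l 16767520)) (b (b (a (l 509658253943) (l 304036662727)) (l 16773224)) (l 16766744)))) (a (b (c (l 16770856) (l 16770280)) (l 16772736)) (c (l 16762032) (l 16760568)))) (a (c (l 16775584) (c (l 16752792) (l 16751528))) (c (l 16744240) (l 16740088)))))), by decide +kernel⟩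

def k12_pp_101_s : ∃ t, chk3 f_pp_101_s t 36 61 1 = true :=
  ⟨(a (b (l 3) (a (b (l 3) (a (c (a (b (l 582672713063) (l 40433093271)) (b (a (l 509658268103) (l 447381241943)) (l 16774608))) (b (l 561197867111) (a (l 16775688) (l 16774584)))) (c (b (b (a (l 579451485799) (l 217063624055)) (l 16778576)) (l 16773000)) (b (b (l 490330911351) (l 16775960)) (l 16773000))))) (b (b (l 3) (a (c (b (l 3) (a (l 552071068359) (l 184314498343))) (l 538649288375)) (a (c (b (l 530596231415) (l 16776104)) (b (l 546702355415) (l 16776096))) (c (l 79087799639) (l 16775952))))) (a (b (c (l 16774792) (l 16774792)) (l 16770896)) (b (l 16776576) (l 16768744)))))) (b (b (l 3) (c (a (b (l 3) (l 623474896903)) (b (l 602536929303) (a (c (l 415705855799) (l 436106949399)) (c (l 75866574487) (l 16775608))))) (a (l 625085507143) (b (l 600926295143) (a (l 456508042487) (c (l 16775584) (l 16775552))))))) (a (c (b (b (c (a (l 458655528647) (b (l 180556402743) (l 16775160))) (a (l 497847103239)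 (l 98952024503))) (l 16778552)) (l 16767488)) (b (b (a (l 517174453095) (c (l 96267670071) (b (l 176261435559) (l 16775088)))) (l 16773232)) (l 16767296))) (b (c (l 16776144) (l 16770712)) (l 16762904))))), by decide +kernel⟩

def k13_pp_101_s : ∃ t, chk3 f_pp_101_s t 37 61 1 = true :=
  ⟨(c (a (a (b (b (c (l 595557609607) (l 596094452599)) (b (a (b (l 539723032551) (l 16778992)) (l 16775168)) (l 16772368))) (l 16773080)) (b (b (a (b (l 3) (b (l 499994587111) (l 16775912))) (b (l 521469418727) (l 16774680))) (l 16769888)) (l 16758128))) (b (b (b (a (a (b (l 203641853239) (l 16775416)) (l 16774152)) (l 16770744)) (l 16776920)) (l 16763136)) (l 16751352))) (a (b (b (a (b (l 3) (l 581598965431)) (b (l 562271605287) (a (b (l 252497106823) (l 16775840)) (l 16774544)))) (a (a (b (b (l 538112416359) (l 16776328)) (l 16773328)) (l 289541171783)) (l 16769528))) (b (l 16774208) (l 16755576))) (b (b (a (a (a (l 353428815735) (l 16773640)) (l 16771856)) (l 16768208)) (l 16762304))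 (l 16749912)))), by decide +kernel⟩

def k14_pp_101_s : ∃ t, chk3 f_pp_101_s t 19 61 1 = true :=
  ⟨(b (a (a (b (a (l 16774224) (l 16758920)) (l 16771544)) (a (l 16749952) (l 16744864))) (c (l 16754400) (l 16765392))) (a (a (l 16761984) (l 16731072)) (a (l 16720384) (l 16708712)))), by decide +kernel⟩

def k15_pp_101_s : ∃ t, chk3 f_pp_101_s t 9 31 1 = true :=
  ⟨(a (b (a (a (b (b (a (c (l 16768144) (l 16768136)) (l 16769224)) (a (l 16760288) (l 16756080))) (l 16762112)) (b (c (l 16753584) (l 16752776)) (l 16736760))) (a (b (l 16764808) (l 16726976)) (a (l 16759728) (l 16723336)))) (a (b (l 16756000) (l 16706008)) (b (l 16703904) (l 16684160)))) (a (b (c (l 16755192) (a (l 16713552) (l 16702584))) (b (l 16682848) (l 16662008))) (b (c (l 16693064) (l 16684504)) (l 16649720)))), by decide +kernel⟩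

def k16_pp_101_s : ∃ t, chk3 f_pp_101_s t 5 6 1 = true :=
  ⟨(a (l 3) (b (l 3) (b (l 3) (a (b (l 3) (a (l 3) (a (l 3) (a (l 3) (b (l 3) (c (l 452749924951) (l 459192373479))))))) (b (a (l 3) (a (b (l 3) (c (l 476372237703) (l 494625845479))) (b (a (l 3) (l 493552117479)) (c (l 284709274631) (l 277193074583))))) (a (b (a (l 3) (a (c (l 449528701335) (l 462950471895)) (c (l 289004245927) (l 283635530631)))) (a (c (a (l 289004240711) (l 268066302791)) (b (l 293299203863) (l 16747040))) (c (l 16761400) (l 16758456)))) (b (a (c (l 265381934823) (b (l 16749920) (l 16759960))) (c (l 16753984) (l 16749768))) (c (l 16741208) (c (l 16736288) (l 16732888)))))))))), by decide +kernel⟩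

def k17_pp_101_s : ∃ t, chk3 f_pp_101_s t 10 28 1 = true :=
  ⟨(a (l 3) (b (l 3) (b (a (l 3) (a (a (l 3) (c (l 520395628967) (l 524153720535))) (c (b (l 498383944343) (a (l 295983577495) (l 16771856))) (b (a (l 3) (l 392620351255)) (c (l 293299216407) (l 295983568935)))))) (a (a (l 3) (a (c (l 524153747927) (l 526301226871)) (b (l 3) (c (l 297057320791) (l 298131058983))))) (a (b (c (a (l 465097965911) (l 286319921287)) (a (l 471003544743) (l 285783047911))) (c (l 16768224) (a (l 16770032) (l 16763200)))) (c (l 16771584) (c (l 16758896) (l 16757360)))))))), by decide +kernel⟩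

def k18_pp_101_s : ∃ t, chk3 f_pp_101_s t 10 29 1 = true :=
  ⟨(b (a (a (l 3) (a (b (l 3) (a (b (l 3) (c (l 477445996471) (l 479056607703))) (b (c (l 535964904055) (l 536501771287)) (c (l 287930526791) (l 287930524711))))) (b (a (l 3) (b (l 3) (c (l 484962181143) (l 486572791735)))) (b (a (c (b (l 511268862759) (l 16754464)) (b (l 332490788471) (l 16754112))) (c (l 16772280) (l 16760968))) (c (l 16766184) (l 16764392)))))) (b (a (a (b (a (l 3) (c (l 431275103639) (b (l 333564527095) (l 299204820951)))) (c (a (l 284709293831) (l 16770136)) (a (l 284172420407) (l 16768944)))) (c (b (a (l 16757632) (l 16767800)) (l 16761608)) (c (l 262160707559) (b (l 16753320) (l 16737200))))) (c (a (l 16754560) (l 16742736)) (a (l 16771440) (l 16715320)))) (a (c (a (l 16780440) (l 16748032)) (a (c (l 16757232) (l 16755672)) (l 16742856))) (c (l 16730360) (l 16753064))))) (c (a (a (b (a (b (l 3) (a (l 552607898583) (b (l 526838115927) (l 299204822311)))) (a (b (l 500531432727) (l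 292762376935)) (b (c (l 300815409671) (l 300815409335)) (l 16767568)))) (a (a (b (a (l 375977392407) (l 16773296)) (l 16766048)) (l 16775616)) (l 16778144))) (b (a (b (a (l 16770968) (l 16765560)) (l 16759472)) (l 16752848)) (c (l 16742144) (l 16739272)))) (a (c (l 16770832) (l 16766496)) (l 16702808))) (a (a (b (a (b (l 3) (a (l 550460409799) (b (l 527911855335) (l 298131078951)))) (b (a (l 526301233319) (c (l 299204794951) (l 301889148823))) (a (l 292762374295) (l 16766128)))) (a (a (b (c (l 295983582087) (l 298131065271)) (l 16764536)) (l 16776536)) (c (l 16754960) (l 16753416)))) (b (a (b (a (l 16770008) (l 16763720)) (l 16756688)) (l 16748832)) (a (l 16741376) (l 16707064)))) (a (c (l 16767240) (a (l 16680792) (l 16687000))) (c (l 16650304) (l 16642960)))))), by decide +kernel⟩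

def k19_pp_101_s : ∃ t, chk3 f_pp_101_s t 10 15 1 = true :=
  ⟨(b (b (a (c (a (b (a (l 16750544) (l 16739784)) (l 16728120)) (a (l 16719976) (l 16708464))) (a (b (c (l 16762688) (l 16772064)) (l 16721008)) (b (l 16714064) (l 16672672)))) (a (c (l 16690616) (l 16674904)) (a (l 16662288) (l 16648104)))) (a (a (a (a (l 16708040) (l 16701648)) (l 16692104)) (a (l 16679032) (l 16665560))) (a (a (l 16651704) (l 16637480)) (l 16615472)))) (b (a (a (a (l 16670216) (l 16656912)) (l 16615248)) (a (l 16606296) (l 16575456))) (a (a (l 16624152) (l 16595472)) (a (l 16564808) (l 16531744))))), by decide +kernel⟩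

def k20_pp_101_s : ∃ t, chk3 f_pp_101_s t 11 7 1 = true :=
  ⟨(a (a (b (b (b (b (l 3) (a (a (c (l 513953178343) (l 519858753383)) (b (l 3) (c (l 294372966055) (l 295446704103)))) (c (b (a (l 459729252295) (l 16754256)) (l 214379228759)) (b (a (l 322827105031) (l 287930528855)) (a (l 16771432) (l 16764368)))))) (b (a (c (c (l 262160716423) (l 261086971799)) (c (l 260550095895) (b (l 286319910359) (l 16759656)))) (c (l 16755560) (l 16751400))) (c (a (l 16749160) (l 16736992)) (a (l 16743832) (l 16708168))))) (b (a (c (l 16721392) (l 16668600)) (b (l 16712640) (l 16692024))) (c (l 16677792) (l 16615872)))) (b (b (a (l 16633584) (l 16618736)) (l 16584968)) (b (l 16543272) (l 16497864)))) (b (b (a (c (b (b (b (l 485499042823) (c (l 290614868599) (l 290077995799))) (l 16765856)) (l 16754920)) (b (b (b (l 496236457799) (c (l 289541121655) (l 290614861543))) (c (l 16759704) (l 16758168))) (c (l 16706568) (l 16681144)))) (b (b (c (b (l 287393653159) (l 16763456)) (c (l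 262160708263) (l 279877443479))) (c (l 16749400) (l 16743936))) (c (l 16721264) (l 16668008)))) (b (c (l 16689920) (l 16598592)) (c (l 16651688) (l 16604544)))) (b (b (c (l 16591808) (l 16578280)) (l 16553168)) (b (l 16509800) (l 16441728))))) (a (b (b (b (c (b (a (l 16755320) (l 16742088)) (l 16729688)) (b (a (l 16751168) (l 16714528)) (c (l 16701872) (l 16697136)))) (c (l 16721952) (c (l 16647736) (l 16639896)))) (c (b (l 16662720) (l 16602784)) (b (l 16597128) (l 16591440)))) (b (b (l 16563800) (l 16519776)) (b (l 16453904) (l 16426240)))) (b (b (b (c (l 16753488) (c (l 16660512) (l 16654232))) (c (l 16630384) (l 16610064))) (b (a (l 16585104) (l 16568464)) (l 16574808))) (b (b (l 16466896) (l 16463672)) (b (l 16438424) (l 16387360)))))), by decide +kernel⟩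

def k21_pp_101_s : ∃ t, chk3 f_pp_101_s t 3 2 1 = true :=
  ⟨(a (l 3) (l 1)), by decide +kernel⟩

def k22_pp_101_s : ∃ t, chk3 f_pp_101_s t 3 6 1 = true :=
  ⟨(a (a (a (b (l 3) (b (b (l 3) (a (a (l 3) (b (l 3) (c (l 451676183943) (l 320679583271)))) (c (b (a (l 479593453831) (l 276119336263)) (a (l 273434996455) (l 16757280))) (b (a (l 497847060247) (l 273434974615)) (a (l 273434992023) (l 16753856)))))) (c (b (a (b (a (l 283635515143) (l 16765568)) (a (l 16759888) (l 16745880))) (a (l 16741544) (l 16726904))) (a (l 16764880) (l 16651440))) (a (b (b (a (l 276656185367) (l 16763496)) (a (l 16756800) (l 16719368))) (c (l 16715696) (l 16647784))) (b (a (l 16735312) (l 16697248)) (l 16636760)))))) (b (b (l 3) (b (l 3) (a (l 3) (b (l 3) (a (l 501068285527) (c (l 281488046839) (l 16734000))))))) (a (c (b (b (b (l 482277799751) (a (l 312089673607) (l 16767928))) (a (l 16752704) (l 16737864))) (b (l 16704296) (l 16641520))) (b (b (b (l 503752630487) (a (l 317458375127)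 (l 16766328))) (b (l 16751824) (l 16728088))) (b (l 16628992) (l 16642856)))) (b (b (a (b (c (l 277193089991) (l 16729800)) (l 16751528)) (c (l 16748464) (l 16743768))) (c (l 16714896) (l 16704616))) (c (l 16735544) (b (l 16634744) (l 16605856))))))) (b (a (b (l 1) (a (a (b (l 1) (b (l 1) (l 188475197047))) (l 1)) (l 1))) (l 1)) (a (b (a (b (c (l 16725096) (l 16716728)) (c (l 16662200) (l 16647024))) (b (c (l 16651496) (l 16659416)) (l 16557168))) (a (b (l 16545760) (l 16561832)) (b (l 16552488) (l 16547024)))) (b (b (l 1) (a (l 16564800) (l 1))) (a (b (l 16559552) (l 16511624)) (l 320007777095)))))) (a (b (l 1) (a (b (l 1) (l 379600246071)) (l 1))) (l 1))), by decide +kernel⟩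

def k23_pp_101_s : ∃ t, chk3 f_pp_101_s t 3 7 1 = true :=
  ⟨(a (b (a (b (b (a (a (c (l 16640432) (l 16623232)) (c (l 16630832) (l 16629600))) (c (l 16519760) (l 16469160))) (a (a (b (l 16598568) (l 16597240)) (l 16532272)) (a (l 16538968) (l 16523784)))) (b (a (a (c (l 16601560) (l 16567480)) (l 16528344)) (a (l 16513008) (l 16475920))) (a (a (l 16476808) (l 16461376)) (l 16299888)))) (b (a (b (a (l 16535144) (l 16498800)) (l 16300656)) (c (l 16361480) (l 16331296))) (a (b (l 16335520) (l 16348904)) (b (l 16345080) (l 16294128))))) (a (b (a (c (b (l 16460448) (l 16460352)) (b (l 16447176) (l 16396272))) (b (a (l 16418096) (l 16378808)) (l 16245288))) (a (b (l 16276272) (l 16160368)) (b (l 16237872) (l 16143808)))) (b (a (b (l 16319744) (l 16269400)) (b (l 16242488) (l 16190416))) (a (b (l 16218720) (l 16167968)) (b (l 16135872) (l 16087160)))))) (b (a (b (a (b (l 16375856) (l 16325104)) (l 415033362887)) (a (l 16079632) (l 16158704))) (b (l 1) (a (l 16116120)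 (l 1)))) (a (b (a (b (l 16168496) (l 16114856)) (l 16029240)) (a (b (l 16060208) (l 6)) (l 6))) (b (b (l 15941776) (l 6)) (l 6))))), by decide +kernel⟩

theorem s24_pp_101_s : ∃ t, chk3 f_pp_101_s t 3 3 1 = true := ex3_b k22_pp_101_s k23_pp_101_s

theorem s25_pp_101_s : ∃ t, chk3 f_pp_101_s t 3 1 1 = true := ex3_b k21_pp_101_s s24_pp_101_s

theorem s26_pp_101_s : ∃ t, chk3 f_pp_101_s t 10 14 1 = true := ex3_b k17_pp_101_s k18_pp_101_s

theorem s27_pp_101_s : ∃ t, chk3 f_pp_101_s t 10 7 1 = true := ex3_b s26_pp_101_s k19_pp_101_s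

theorem s28_pp_101_s : ∃ t, chk3 f_pp_101_s t 5 7 1 = true := ex3_a s27_pp_101_s k20_pp_101_s

theorem s29_pp_101_s : ∃ t, chk3 f_pp_101_s t 5 3 1 = true := ex3_b k16_pp_101_s s28_pp_101_s

theorem s30_pp_101_s : ∃ t, chk3 f_pp_101_s t 18 61 1 = true := ex3_a k12_pp_101_s k13_pp_101_s

theorem s31_pp_101_s : ∃ t, chk3 f_pp_101_s t 9 61 1 = true := ex3_a s30_pp_101_s k14_pp_101_s

theorem s32_pp_101_s : ∃ t, chk3 f_pp_101_s t 9 30 1 = true := ex3_b k11_pp_101_s s31_pp_101_s

theorem s33_pp_101_s : ∃ t, chk3 f_pp_101_s t 9 15 1 = true := ex3_b s32_pp_101_s k15_pp_101_s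

theorem s34_pp_101_s : ∃ t, chk3 f_pp_101_s t 9 7 1 = true := ex3_b k10_pp_101_s s33_pp_101_s

theorem s35_pp_101_s : ∃ t, chk3 f_pp_101_s t 34 125 1 = true := ex3_a k6_pp_101_s k7_pp_101_s

theorem s36_pp_101_s : ∃ t, chk3 f_pp_101_s t 34 62 1 = true := ex3_b k5_pp_101_s s35_pp_101_s

theorem s37_pp_101_s : ∃ t, chk3 f_pp_101_s t 17 62 1 = true := ex3_a s36_pp_101_s k8_pp_101_s

theorem s38_pp_101_s : ∃ t, chk3 f_pp_101_s t 17 31 1 = true := ex3_b s37_pp_101_s k9_pp_101_s

theorem s39_pp_101_s : ∃ t, chk3 f_pp_101_s t 17 15 1 = true := ex3_b k4_pp_101_s s38_pp_101_s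

theorem s40_pp_101_s : ∃ t, chk3 f_pp_101_s t 8 15 1 = true := ex3_a k3_pp_101_s s39_pp_101_s

theorem s41_pp_101_s : ∃ t, chk3 f_pp_101_s t 8 7 1 = true := ex3_b k2_pp_101_s s40_pp_101_s

theorem s42_pp_101_s : ∃ t, chk3 f_pp_101_s t 4 7 1 = true := ex3_a s41_pp_101_s s34_pp_101_s

theorem s43_pp_101_s : ∃ t, chk3 f_pp_101_s t 4 3 1 = true := ex3_b k1_pp_101_s s42_pp_101_s

theorem s44_pp_101_s : ∃ t, chk3 f_pp_101_s t 2 3 1 = true := ex3_a s43_pp_101_s s29_pp_101_s

theorem s45_pp_101_s : ∃ t, chk3 f_pp_101_s t 2 1 1 = true := ex3_b k0_pp_101_s s44_pp_101_s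

theorem s46_pp_101_s : ∃ t, chk3 f_pp_101_s t 1 1 1 = true := ex3_a s45_pp_101_s s25_pp_101_s

theorem c_pp_101_s : CertNE 536870912 536870912 536870912 536870912 966367641 24778659 3 eng mog cd4q1 cd0q1 pd0 false true true .npn 1 0 1
    ndB4q1 ndB0q1 pcB0 cut_pp_101_s Ext.none :=
  certNE2 (fam := false) (s1 := true) (s2 := true) (a := 1) (b := 0) (c := 1) (cn := .npn) (n1 := ndB4q1) (n2 := ndB0q1) (pc := pcB0) (cut := cut_pp_101_s) (xt := Ext.none) (P1 := 536870912) (W1 := 536870912) (P2 := 536870912) (W2 := 536870912) (P3 := 966367641) (W3 := 24778659) (N0 := 3) (En := eng) (mo := mog) (C1 := cd4q1) (C2 := cd0q1) (C3 := pd0)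
    rfl (fun _ => rfl) s46_pp_101_s

noncomputable def cut_pp_102_s : Cut := Cut.of [[⟨4, 0, 0, 1449551462⟩], [⟨0, 1, 0, 67108864⟩, ⟨1, 0, 0, 67108864⟩, ⟨2, 1, 0, 67108864⟩]]

noncomputable def f_pp_102_s : ℕ → ℕ → ℕ → ℕ → Bool := onCell 0 536870912 0 536870912 966367641 24778659
    (rowNE 3 eng mog cd4q1 cd0q2 pd0 2 false true true .npp 1 0 2 (qsf 536870912 536870912 0 536870912 0) ndB4q1 ndB0q2 pcB0 cut_pp_102_s Ext.none)

def k0_pp_102_s : ∃ t, chk3 f_pp_102_s t 1 1 1 = true :=
  ⟨(a (b (a (l 6) (l 6)) (a (b (a (l 2) (b (l 6) (b (a (a (l 2) (a (l 15653424) (l 15664976))) (l 6)) (a (a (a (l 2) (l 15801616)) (l 15815240)) (a (l 15833616) (l 15850728)))))) (a (b (a (l 2) (a (b (l 2) (l 14)) (b (a (l 2) (l 15966320)) (a (l 14) (a (l 14) (l 16167864)))))) (a (l 14) (a (l 14) (a (l 14) (a (l 14) (b (l 16407784) (b (l 16558528) (l 16667024)))))))) (a (a (b (b (a (l 15972416) (l 15978184)) (b (l 16097936) (l 16199584))) (b (b (l 16327256) (l 16437384)) (b (l 16548960)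 (b (l 16631480) (l 16675696))))) (b (b (l 15986096) (l 16224456)) (b (b (l 16322200) (l 16426888)) (b (l 16532768) (l 16632040))))) (b (b (a (l 15996544) (l 16005672)) (a (l 16173432) (l 16173552))) (b (a (l 16302920) (l 16355696)) (b (a (l 16515376) (l 16496856)) (a (l 16609992) (l 16586656)))))))) (b (a (b (l 6) (a (a (l 15777960) (l 6)) (l 6))) (l 6)) (b (a (b (a (l 15992912) (l 15967424)) (a (l 16154912) (l 16121792))) (b (l 6) (a (l 16080000) (l 16030448)))) (a (b (a (a (l 16338928) (l 16319016)) (l 16200320)) (a (b (l 16441768) (l 16547768)) (b (l 16407888) (l 16487568)))) (b (a (l 16168256) (l 16171184)) (a (b (l 16344624) (l 16420040)) (b (l 16277488) (l 16306040))))))))) (b (l 6) (a (b (l 6) (b (l 6) (a (b (a (l 16108872) (l 6)) (c (l 16014360) (l 15990096))) (b (l 6) (a (l 16088184) (l 6)))))) (l 6)))), by decide +kernel⟩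

theorem c_pp_102_s : CertNE 536870912 536870912 0 536870912 966367641 24778659 3 eng mog cd4q1 cd0q2 pd0 false true true .npp 1 0 2
    ndB4q1 ndB0q2 pcB0 cut_pp_102_s Ext.none :=
  certNE2 (fam := false) (s1 := true) (s2 := true) (a := 1) (b := 0) (c := 2) (cn := .npp) (n1 := ndB4q1) (n2 := ndB0q2) (pc := pcB0) (cut := cut_pp_102_s) (xt := Ext.none) (P1 := 536870912) (W1 := 536870912) (P2 := 0) (W2 := 536870912) (P3 := 966367641) (W3 := 24778659) (N0 := 3) (En := eng) (mo := mog) (C1 := cd4q1) (C2 := cd0q2) (C3 := pd0)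
    rfl (fun _ => rfl) k0_pp_102_s

noncomputable def cut_pp_112_s : Cut := Cut.of [[⟨4, 0, 0, 1449551462⟩]]

noncomputable def f_pp_112_s : ℕ → ℕ → ℕ → ℕ → Bool := onCell 536870912 536870912 0 536870912 966367641 24778659
    (rowNE 3 eng mog cd4q1 cd0q2 pd1 2 false true true .dn 1 1 2 (qsf 536870912 536870912 0 536870912 1) ndB4q1 ndB0q2 pcB1 cut_pp_112_s Ext.none)

def k0_pp_112_s : ∃ t, chk3 f_pp_112_s t 1 1 1 = true :=
  ⟨(a (l 6) (l 1)), by decide +kernel⟩

theorem c_pp_112_s : CertNE 536870912 536870912 0 536870912 966367641 24778659 3 eng mog cd4q1 cd0q2 pd1 false true true .dn 1 1 2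
    ndB4q1 ndB0q2 pcB1 cut_pp_112_s Ext.none :=
  certNE2 (fam := false) (s1 := true) (s2 := true) (a := 1) (b := 1) (c := 2) (cn := .dn) (n1 := ndB4q1) (n2 := ndB0q2) (pc := pcB1) (cut := cut_pp_112_s) (xt := Ext.none) (P1 := 536870912) (W1 := 536870912) (P2 := 0) (W2 := 536870912) (P3 := 966367641) (W3 := 24778659) (N0 := 3) (En := eng) (mo := mog) (C1 := cd4q1) (C2 := cd0q2) (C3 := pd1)
    rfl (fun _ => rfl) k0_pp_112_s

noncomputable def cut_pp_202_s : Cut := Cut.of [[⟨4, 0, 0, 1449551462⟩], [⟨0, 1, 0, 53687091⟩, ⟨1, 0, 0, 53687091⟩, ⟨2, 1, 0, 53687091⟩]]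

noncomputable def f_pp_202_s : ℕ → ℕ → ℕ → ℕ → Bool := onCell 0 536870912 0 536870912 966367641 24778659
    (rowNE 3 eng mog cd4q2 cd0q2 pd0 2 false true true .pp 2 0 2 (qsf 1073741824 536870912 0 536870912 0) ndB4q2 ndB0q2 pcB0 cut_pp_202_s Ext.none)

def k0_pp_202_s : ∃ t, chk3 f_pp_202_s t 1 1 1 = true :=
  ⟨(a (b (a (l 6) (l 6)) (a (b (b (a (a (b (l 16183168) (l 16233456)) (a (l 15999000) (a (l 15885608) (l 6)))) (l 6)) (b (a (a (l 16158208) (a (l 16066536) (a (l 15948464) (b (l 15867408) (a (l 15902768) (l 15876272)))))) (a (a (b (l 15789560) (l 15791064)) (a (l 15724064) (l 15671832))) (l 6))) (a (a (a (l 16408272) (b (l 16253832) (l 16284216))) (a (b (l 16105592) (l 16128248)) (a (l 15974528) (l 15992216)))) (a (a (l 15852912) (l 15726520)) (l 1))))) (a (b (a (b (a (b (l 16394680) (l 16442592)) (b (l 16309024) (l 16342288))) (b (a (l 16492536) (l 16375712)) (l 14))) (a (b (l 16179120) (b (l 16234224) (l 14))) (b (a (l 16066576) (b (l 15980568) (l 16018136)))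 (a (l 16147264) (l 281889402167))))) (a (l 14) (a (l 14) (l 1)))) (a (b (b (a (c (l 15903488) (l 15911080)) (l 1)) (l 1)) (l 1)) (l 1)))) (b (l 1) (l 1)))) (l 1)), by decide +kernel⟩

theorem c_pp_202_s : CertNE 1073741824 536870912 0 536870912 966367641 24778659 3 eng mog cd4q2 cd0q2 pd0 false true true .pp 2 0 2
    ndB4q2 ndB0q2 pcB0 cut_pp_202_s Ext.none :=
  certNE2 (fam := false) (s1 := true) (s2 := true) (a := 2) (b := 0) (c := 2) (cn := .pp) (n1 := ndB4q2) (n2 := ndB0q2) (pc := pcB0) (cut := cut_pp_202_s) (xt := Ext.none) (P1 := 1073741824) (W1 := 536870912) (P2 := 0) (W2 := 536870912) (P3 := 966367641) (W3 := 24778659) (N0 := 3) (En := eng) (mo := mog) (C1 := cd4q2) (C2 := cd0q2) (C3 := pd0)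
    rfl (fun _ => rfl) k0_pp_202_s

noncomputable def cut_pm_001_s : Cut := Cut.of [[⟨4, 0, 0, 1449551462⟩]]

noncomputable def f_pm_001_s : ℕ → ℕ → ℕ → ℕ → Bool := onCell 0 536870912 536870912 536870912 966367641 24778659
    (rowNE 3 eng mog cd4q0 cd0q1 pd0 0 false true false .up 0 0 1 (qsf 0 536870912 536870912 536870912 0) ndB4q0 ndB0q1 pcB0 cut_pm_001_s Ext.none)

def k0_pm_001_s : ∃ t, chk3 f_pm_001_s t 1 1 1 = true :=
  ⟨(l 4), by decide +kernel⟩

theorem c_pm_001_s : CertNE 0 536870912 536870912 536870912 966367641 24778659 3 eng mog cd4q0 cd0q1 pd0 false true false .up 0 0 1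
    ndB4q0 ndB0q1 pcB0 cut_pm_001_s Ext.none :=
  certNE0 (fam := false) (s1 := true) (s2 := false) (a := 0) (b := 0) (c := 1) (cn := .up) (n1 := ndB4q0) (n2 := ndB0q1) (pc := pcB0) (cut := cut_pm_001_s) (xt := Ext.none) (P1 := 0) (W1 := 536870912) (P2 := 536870912) (W2 := 536870912) (P3 := 966367641) (W3 := 24778659) (N0 := 3) (En := eng) (mo := mog) (C1 := cd4q0) (C2 := cd0q1) (C3 := pd0)
    rfl k0_pm_001_s

noncomputable def cut_pm_011_s : Cut := Cut.of [[⟨4, 0, 0, 1449551462⟩]]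

noncomputable def f_pm_011_s : ℕ → ℕ → ℕ → ℕ → Bool := onCell 0 536870912 536870912 536870912 966367641 24778659
    (rowNE 3 eng mog cd4q0 cd0q1 pd1 0 false true false .pnn 0 1 1 (qsf 0 536870912 536870912 536870912 1) ndB4q0 ndB0q1 pcB1 cut_pm_011_s Ext.none)

def k0_pm_011_s : ∃ t, chk3 f_pm_011_s t 1 1 1 = true :=
  ⟨(l 4), by decide +kernel⟩

theorem c_pm_011_s : CertNE 0 536870912 536870912 536870912 966367641 24778659 3 eng mog cd4q0 cd0q1 pd1 false true false .pnn 0 1 1
    ndB4q0 ndB0q1 pcB1 cut_pm_011_s Ext.none :=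
  certNE0 (fam := false) (s1 := true) (s2 := false) (a := 0) (b := 1) (c := 1) (cn := .pnn) (n1 := ndB4q0) (n2 := ndB0q1) (pc := pcB1) (cut := cut_pm_011_s) (xt := Ext.none) (P1 := 0) (W1 := 536870912) (P2 := 536870912) (W2 := 536870912) (P3 := 966367641) (W3 := 24778659) (N0 := 3) (En := eng) (mo := mog) (C1 := cd4q0) (C2 := cd0q1) (C3 := pd1)
    rfl k0_pm_011_s

noncomputable def cut_pm_012_s : Cut := Cut.of [[⟨4, 0, 0, 1449551462⟩]]

noncomputable def f_pm_012_s : ℕ → ℕ → ℕ → ℕ → Bool := onCell 0 536870912 0 536870912 966367641 24778659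
    (rowNE 3 eng mog cd4q0 cd0q2 pd1 0 false true false .pnp 0 1 2 (qsf 0 536870912 0 536870912 1) ndB4q0 ndB0q2 pcB1 cut_pm_012_s Ext.none)

def k0_pm_012_s : ∃ t, chk3 f_pm_012_s t 1 1 1 = true :=
  ⟨(l 6), by decide +kernel⟩

theorem c_pm_012_s : CertNE 0 536870912 0 536870912 966367641 24778659 3 eng mog cd4q0 cd0q2 pd1 false true false .pnp 0 1 2
    ndB4q0 ndB0q2 pcB1 cut_pm_012_s Ext.none :=
  certNE0 (fam := false) (s1 := true) (s2 := false) (a := 0) (b := 1) (c := 2) (cn := .pnp) (n1 := ndB4q0) (n2 := ndB0q2) (pc := pcB1) (cut := cut_pm_012_s) (xt := Ext.none) (P1 := 0) (W1 := 536870912) (P2 := 0) (W2 := 536870912) (P3 := 966367641) (W3 := 24778659) (N0 := 3) (En := eng) (mo := mog) (C1 := cd4q0) (C2 := cd0q2) (C3 := pd1)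
    rfl k0_pm_012_s

noncomputable def cut_pm_022_s : Cut := Cut.of [[⟨4, 0, 0, 1449551462⟩]]

noncomputable def f_pm_022_s : ℕ → ℕ → ℕ → ℕ → Bool := onCell 0 536870912 0 536870912 966367641 24778659
    (rowNE 3 eng mog cd4q0 cd0q2 pd2 0 false true false .pp 0 2 2 (qsf 0 536870912 0 536870912 2) ndB4q0 ndB0q2 pcB2 cut_pm_022_s Ext.none)

def k0_pm_022_s : ∃ t, chk3 f_pm_022_s t 1 1 1 = true :=
  ⟨(l 6), by decide +kernel⟩

theorem c_pm_022_s : CertNE 0 536870912 0 536870912 966367641 24778659 3 eng mog cd4q0 cd0q2 pd2 false true false .pp 0 2 2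
    ndB4q0 ndB0q2 pcB2 cut_pm_022_s Ext.none :=
  certNE0 (fam := false) (s1 := true) (s2 := false) (a := 0) (b := 2) (c := 2) (cn := .pp) (n1 := ndB4q0) (n2 := ndB0q2) (pc := pcB2) (cut := cut_pm_022_s) (xt := Ext.none) (P1 := 0) (W1 := 536870912) (P2 := 0) (W2 := 536870912) (P3 := 966367641) (W3 := 24778659) (N0 := 3) (En := eng) (mo := mog) (C1 := cd4q0) (C2 := cd0q2) (C3 := pd2)
    rfl k0_pm_022_s

noncomputable def cut_pm_101_s : Cut := Cut.of [[⟨4, 0, 0, 1449551462⟩]]

noncomputable def f_pm_101_s : ℕ → ℕ → ℕ → ℕ → Bool := onCell 536870912 536870912 536870912 536870912 966367641 24778659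
    (rowNE 3 eng mog cd4q1 cd0q1 pd0 0 false true false .npn 1 0 1 (qsf 536870912 536870912 536870912 536870912 0) ndB4q1 ndB0q1 pcB0 cut_pm_101_s Ext.none)

def k0_pm_101_s : ∃ t, chk3 f_pm_101_s t 1 1 1 = true :=
  ⟨(l 4), by decide +kernel⟩

theorem c_pm_101_s : CertNE 536870912 536870912 536870912 536870912 966367641 24778659 3 eng mog cd4q1 cd0q1 pd0 false true false .npn 1 0 1
    ndB4q1 ndB0q1 pcB0 cut_pm_101_s Ext.none :=
  certNE0 (fam := false) (s1 := true) (s2 := false) (a := 1) (b := 0) (c := 1) (cn := .npn) (n1 := ndB4q1) (n2 := ndB0q1) (pc := pcB0) (cut := cut_pm_101_s) (xt := Ext.none) (P1 := 536870912) (W1 := 536870912) (P2 := 536870912) (W2 := 536870912) (P3 := 966367641) (W3 := 24778659) (N0 := 3) (En := eng) (mo := mog) (C1 := cd4q1) (C2 := cd0q1) (C3 := pd0)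
    rfl k0_pm_101_s

noncomputable def cut_pm_102_s : Cut := Cut.of [[⟨4, 0, 0, 1449551462⟩]]

noncomputable def f_pm_102_s : ℕ → ℕ → ℕ → ℕ → Bool := onCell 536870912 536870912 0 536870912 966367641 24778659
    (rowNE 3 eng mog cd4q1 cd0q2 pd0 0 false true false .npp 1 0 2 (qsf 536870912 536870912 0 536870912 0) ndB4q1 ndB0q2 pcB0 cut_pm_102_s Ext.none)

def k0_pm_102_s : ∃ t, chk3 f_pm_102_s t 1 1 1 = true :=
  ⟨(l 6), by decide +kernel⟩

theorem c_pm_102_s : CertNE 536870912 536870912 0 536870912 966367641 24778659 3 eng mog cd4q1 cd0q2 pd0 false true false .npp 1 0 2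
    ndB4q1 ndB0q2 pcB0 cut_pm_102_s Ext.none :=
  certNE0 (fam := false) (s1 := true) (s2 := false) (a := 1) (b := 0) (c := 2) (cn := .npp) (n1 := ndB4q1) (n2 := ndB0q2) (pc := pcB0) (cut := cut_pm_102_s) (xt := Ext.none) (P1 := 536870912) (W1 := 536870912) (P2 := 0) (W2 := 536870912) (P3 := 966367641) (W3 := 24778659) (N0 := 3) (En := eng) (mo := mog) (C1 := cd4q1) (C2 := cd0q2) (C3 := pd0)
    rfl k0_pm_102_s

noncomputable def cut_pm_112_s : Cut := Cut.of [[⟨4, 0, 0, 1449551462⟩]]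

noncomputable def f_pm_112_s : ℕ → ℕ → ℕ → ℕ → Bool := onCell 536870912 536870912 0 536870912 966367641 24778659
    (rowNE 3 eng mog cd4q1 cd0q2 pd1 0 false true false .dn 1 1 2 (qsf 536870912 536870912 0 536870912 1) ndB4q1 ndB0q2 pcB1 cut_pm_112_s Ext.none)

def k0_pm_112_s : ∃ t, chk3 f_pm_112_s t 1 1 1 = true :=
  ⟨(l 6), by decide +kernel⟩

theorem c_pm_112_s : CertNE 536870912 536870912 0 536870912 966367641 24778659 3 eng mog cd4q1 cd0q2 pd1 false true false .dn 1 1 2
    ndB4q1 ndB0q2 pcB1 cut_pm_112_s Ext.none :=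
  certNE0 (fam := false) (s1 := true) (s2 := false) (a := 1) (b := 1) (c := 2) (cn := .dn) (n1 := ndB4q1) (n2 := ndB0q2) (pc := pcB1) (cut := cut_pm_112_s) (xt := Ext.none) (P1 := 536870912) (W1 := 536870912) (P2 := 0) (W2 := 536870912) (P3 := 966367641) (W3 := 24778659) (N0 := 3) (En := eng) (mo := mog) (C1 := cd4q1) (C2 := cd0q2) (C3 := pd1)
    rfl k0_pm_112_s

noncomputable def cut_pm_202_s : Cut := Cut.of [[⟨4, 0, 0, 1449551462⟩]]

noncomputable def f_pm_202_s : ℕ → ℕ → ℕ → ℕ → Bool := onCell 0 536870912 0 536870912 966367641 24778659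
    (rowNE 3 eng mog cd4q2 cd0q2 pd0 2 false true false .pp 2 0 2 (qsf 1073741824 536870912 0 536870912 0) ndB4q2 ndB0q2 pcB0 cut_pm_202_s Ext.none)

def k0_pm_202_s : ∃ t, chk3 f_pm_202_s t 1 1 1 = true :=
  ⟨(l 6), by decide +kernel⟩

theorem c_pm_202_s : CertNE 1073741824 536870912 0 536870912 966367641 24778659 3 eng mog cd4q2 cd0q2 pd0 false true false .pp 2 0 2
    ndB4q2 ndB0q2 pcB0 cut_pm_202_s Ext.none :=
  certNE2 (fam := false) (s1 := true) (s2 := false) (a := 2) (b := 0) (c := 2) (cn := .pp) (n1 := ndB4q2) (n2 := ndB0q2) (pc := pcB0) (cut := cut_pm_202_s) (xt := Ext.none) (P1 := 1073741824) (W1 := 536870912) (P2 := 0) (W2 := 536870912) (P3 := 966367641) (W3 := 24778659) (N0 := 3) (En := eng) (mo := mog) (C1 := cd4q2) (C2 := cd0q2) (C3 := pd0)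
    rfl (fun _ => rfl) k0_pm_202_s

noncomputable def cut_mm_001_s : Cut := Cut.of [[⟨4, 0, 0, 1449551462⟩]]

noncomputable def f_mm_001_s : ℕ → ℕ → ℕ → ℕ → Bool := onCell 0 536870912 536870912 536870912 966367641 24778659
    (rowNE 3 eng mog cd4q0 cd0q1 pd0 0 false false false .up 0 0 1 (qsf 0 536870912 536870912 536870912 0) ndB4q0 ndB0q1 pcB0 cut_mm_001_s Ext.none)

def k0_mm_001_s : ∃ t, chk3 f_mm_001_s t 1 1 1 = true :=
  ⟨(l 5), by decide +kernel⟩

theorem c_mm_001_s : CertNE 0 536870912 536870912 536870912 966367641 24778659 3 eng mog cd4q0 cd0q1 pd0 false false false .up 0 0 1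
    ndB4q0 ndB0q1 pcB0 cut_mm_001_s Ext.none :=
  certNE0 (fam := false) (s1 := false) (s2 := false) (a := 0) (b := 0) (c := 1) (cn := .up) (n1 := ndB4q0) (n2 := ndB0q1) (pc := pcB0) (cut := cut_mm_001_s) (xt := Ext.none) (P1 := 0) (W1 := 536870912) (P2 := 536870912) (W2 := 536870912) (P3 := 966367641) (W3 := 24778659) (N0 := 3) (En := eng) (mo := mog) (C1 := cd4q0) (C2 := cd0q1) (C3 := pd0)
    rfl k0_mm_001_s

noncomputable def cut_mm_011_s : Cut := Cut.of [[⟨4, 0, 0, 1449551462⟩]]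

noncomputable def f_mm_011_s : ℕ → ℕ → ℕ → ℕ → Bool := onCell 0 536870912 536870912 536870912 966367641 24778659
    (rowNE 3 eng mog cd4q0 cd0q1 pd1 0 false false false .pnn 0 1 1 (qsf 0 536870912 536870912 536870912 1) ndB4q0 ndB0q1 pcB1 cut_mm_011_s Ext.none)

def k0_mm_011_s : ∃ t, chk3 f_mm_011_s t 1 1 1 = true :=
  ⟨(l 5), by decide +kernel⟩

theorem c_mm_011_s : CertNE 0 536870912 536870912 536870912 966367641 24778659 3 eng mog cd4q0 cd0q1 pd1 false false false .pnn 0 1 1
    ndB4q0 ndB0q1 pcB1 cut_mm_011_s Ext.none :=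
  certNE0 (fam := false) (s1 := false) (s2 := false) (a := 0) (b := 1) (c := 1) (cn := .pnn) (n1 := ndB4q0) (n2 := ndB0q1) (pc := pcB1) (cut := cut_mm_011_s) (xt := Ext.none) (P1 := 0) (W1 := 536870912) (P2 := 536870912) (W2 := 536870912) (P3 := 966367641) (W3 := 24778659) (N0 := 3) (En := eng) (mo := mog) (C1 := cd4q0) (C2 := cd0q1) (C3 := pd1)
    rfl k0_mm_011_s

noncomputable def cut_mm_012_s : Cut := Cut.of [[⟨4, 0, 0, 1449551462⟩]]

noncomputable def f_mm_012_s : ℕ → ℕ → ℕ → ℕ → Bool := onCell 0 536870912 0 536870912 966367641 24778659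
    (rowNE 3 eng mog cd4q0 cd0q2 pd1 0 false false false .pnp 0 1 2 (qsf 0 536870912 0 536870912 1) ndB4q0 ndB0q2 pcB1 cut_mm_012_s Ext.none)

def k0_mm_012_s : ∃ t, chk3 f_mm_012_s t 1 1 1 = true :=
  ⟨(l 5), by decide +kernel⟩

theorem c_mm_012_s : CertNE 0 536870912 0 536870912 966367641 24778659 3 eng mog cd4q0 cd0q2 pd1 false false false .pnp 0 1 2
    ndB4q0 ndB0q2 pcB1 cut_mm_012_s Ext.none :=
  certNE0 (fam := false) (s1 := false) (s2 := false) (a := 0) (b := 1) (c := 2) (cn := .pnp) (n1 := ndB4q0) (n2 := ndB0q2) (pc := pcB1) (cut := cut_mm_012_s) (xt := Ext.none) (P1 := 0) (W1 := 536870912) (P2 := 0) (W2 := 536870912) (P3 := 966367641) (W3 := 24778659) (N0 := 3) (En := eng) (mo := mog) (C1 := cd4q0) (C2 := cd0q2) (C3 := pd1)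
    rfl k0_mm_012_s

noncomputable def cut_mm_022_s : Cut := Cut.of [[⟨4, 0, 0, 1449551462⟩]]

noncomputable def f_mm_022_s : ℕ → ℕ → ℕ → ℕ → Bool := onCell 0 536870912 0 536870912 966367641 24778659
    (rowNE 3 eng mog cd4q0 cd0q2 pd2 0 false false false .pp 0 2 2 (qsf 0 536870912 0 536870912 2) ndB4q0 ndB0q2 pcB2 cut_mm_022_s Ext.none)

def k0_mm_022_s : ∃ t, chk3 f_mm_022_s t 1 1 1 = true :=
  ⟨(l 5), by decide +kernel⟩

theorem c_mm_022_s : CertNE 0 536870912 0 536870912 966367641 24778659 3 eng mog cd4q0 cd0q2 pd2 false false false .pp 0 2 2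
    ndB4q0 ndB0q2 pcB2 cut_mm_022_s Ext.none :=
  certNE0 (fam := false) (s1 := false) (s2 := false) (a := 0) (b := 2) (c := 2) (cn := .pp) (n1 := ndB4q0) (n2 := ndB0q2) (pc := pcB2) (cut := cut_mm_022_s) (xt := Ext.none) (P1 := 0) (W1 := 536870912) (P2 := 0) (W2 := 536870912) (P3 := 966367641) (W3 := 24778659) (N0 := 3) (En := eng) (mo := mog) (C1 := cd4q0) (C2 := cd0q2) (C3 := pd2)
    rfl k0_mm_022_s

noncomputable def cut_mm_101_s : Cut := Cut.of [[⟨4, 0, 0, 1449551462⟩]]

noncomputable def f_mm_101_s : ℕ → ℕ → ℕ → ℕ → Bool := onCell 0 536870912 536870912 536870912 966367641 24778659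
    (rowNE 3 eng mog cd4q1 cd0q1 pd0 2 false false false .npn 1 0 1 (qsf 536870912 536870912 536870912 536870912 0) ndB4q1 ndB0q1 pcB0 cut_mm_101_s Ext.none)

def k0_mm_101_s : ∃ t, chk3 f_mm_101_s t 1 1 1 = true :=
  ⟨(l 5), by decide +kernel⟩

theorem c_mm_101_s : CertNE 536870912 536870912 536870912 536870912 966367641 24778659 3 eng mog cd4q1 cd0q1 pd0 false false false .npn 1 0 1
    ndB4q1 ndB0q1 pcB0 cut_mm_101_s Ext.none :=
  certNE2 (fam := false) (s1 := false) (s2 := false) (a := 1) (b := 0) (c := 1) (cn := .npn) (n1 := ndB4q1) (n2 := ndB0q1) (pc := pcB0) (cut := cut_mm_101_s) (xt := Ext.none) (P1 := 536870912) (W1 := 536870912) (P2 := 536870912) (W2 := 536870912) (P3 := 966367641) (W3 := 24778659) (N0 := 3) (En := eng) (mo := mog) (C1 := cd4q1) (C2 := cd0q1) (C3 := pd0)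
    rfl (fun _ => rfl) k0_mm_101_s

noncomputable def cut_mm_102_s : Cut := Cut.of [[⟨4, 0, 0, 1449551462⟩]]

noncomputable def f_mm_102_s : ℕ → ℕ → ℕ → ℕ → Bool := onCell 536870912 536870912 0 536870912 966367641 24778659
    (rowNE 3 eng mog cd4q1 cd0q2 pd0 0 false false false .npp 1 0 2 (qsf 536870912 536870912 0 536870912 0) ndB4q1 ndB0q2 pcB0 cut_mm_102_s Ext.none)

def k0_mm_102_s : ∃ t, chk3 f_mm_102_s t 1 1 1 = true :=
  ⟨(l 5), by decide +kernel⟩

theorem c_mm_102_s : CertNE 536870912 536870912 0 536870912 966367641 24778659 3 eng mog cd4q1 cd0q2 pd0 false false false .npp 1 0 2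
    ndB4q1 ndB0q2 pcB0 cut_mm_102_s Ext.none :=
  certNE0 (fam := false) (s1 := false) (s2 := false) (a := 1) (b := 0) (c := 2) (cn := .npp) (n1 := ndB4q1) (n2 := ndB0q2) (pc := pcB0) (cut := cut_mm_102_s) (xt := Ext.none) (P1 := 536870912) (W1 := 536870912) (P2 := 0) (W2 := 536870912) (P3 := 966367641) (W3 := 24778659) (N0 := 3) (En := eng) (mo := mog) (C1 := cd4q1) (C2 := cd0q2) (C3 := pd0)
    rfl k0_mm_102_s

noncomputable def cut_mm_112_s : Cut := Cut.of [[⟨4, 0, 0, 1449551462⟩]]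

noncomputable def f_mm_112_s : ℕ → ℕ → ℕ → ℕ → Bool := onCell 536870912 536870912 0 536870912 966367641 24778659
    (rowNE 3 eng mog cd4q1 cd0q2 pd1 0 false false false .dn 1 1 2 (qsf 536870912 536870912 0 536870912 1) ndB4q1 ndB0q2 pcB1 cut_mm_112_s Ext.none)

def k0_mm_112_s : ∃ t, chk3 f_mm_112_s t 1 1 1 = true :=
  ⟨(l 5), by decide +kernel⟩

theorem c_mm_112_s : CertNE 536870912 536870912 0 536870912 966367641 24778659 3 eng mog cd4q1 cd0q2 pd1 false false false .dn 1 1 2
    ndB4q1 ndB0q2 pcB1 cut_mm_112_s Ext.none :=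
  certNE0 (fam := false) (s1 := false) (s2 := false) (a := 1) (b := 1) (c := 2) (cn := .dn) (n1 := ndB4q1) (n2 := ndB0q2) (pc := pcB1) (cut := cut_mm_112_s) (xt := Ext.none) (P1 := 536870912) (W1 := 536870912) (P2 := 0) (W2 := 536870912) (P3 := 966367641) (W3 := 24778659) (N0 := 3) (En := eng) (mo := mog) (C1 := cd4q1) (C2 := cd0q2) (C3 := pd1)
    rfl k0_mm_112_s

noncomputable def cut_mm_202_s : Cut := Cut.of [[⟨4, 0, 0, 1449551462⟩]]

noncomputable def f_mm_202_s : ℕ → ℕ → ℕ → ℕ → Bool := onCell 1073741824 536870912 0 536870912 966367641 24778659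
    (rowNE 3 eng mog cd4q2 cd0q2 pd0 0 false false false .pp 2 0 2 (qsf 1073741824 536870912 0 536870912 0) ndB4q2 ndB0q2 pcB0 cut_mm_202_s Ext.none)

def k0_mm_202_s : ∃ t, chk3 f_mm_202_s t 1 1 1 = true :=
  ⟨(l 5), by decide +kernel⟩

theorem c_mm_202_s : CertNE 1073741824 536870912 0 536870912 966367641 24778659 3 eng mog cd4q2 cd0q2 pd0 false false false .pp 2 0 2
    ndB4q2 ndB0q2 pcB0 cut_mm_202_s Ext.none :=
  certNE0 (fam := false) (s1 := false) (s2 := false) (a := 2) (b := 0) (c := 2) (cn := .pp) (n1 := ndB4q2) (n2 := ndB0q2) (pc := pcB0) (cut := cut_mm_202_s) (xt := Ext.none) (P1 := 1073741824) (W1 := 536870912) (P2 := 0) (W2 := 536870912) (P3 := 966367641) (W3 := 24778659) (N0 := 3) (En := eng) (mo := mog) (C1 := cd4q2) (C2 := cd0q2) (C3 := pd0)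
    rfl k0_mm_202_s

end Pool.Agent.Strip051.G.I9000_9231.Tab.CS.BB40

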