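import Pool.Agent.Strip051.PB.DgE
import Pool.Agent.Strip051.PB.DgJ
import Pool.Agent.Strip051.G.I9000_9231.Fact

/-! # The corner (1, 1, 2): parameters of the degenerate charts (generated) -/

set_option linter.all false

namespace Pool.Agent.Strip051.G.I9000_9231.Tab.DG

open Pool.Agent.Strip051.PB Pool.Agent.Strip051.PB.Dg Pool.Agent.StripNear Pool.Agent.Strip051.LC

noncomputable def pFma : Fn1 := ⟨_, _, fun h1 => (enc_norm (enc_sub (enc_rat _ 5309 20000) (enc_scaleT 15309 10000 (enc_subr 237 260 h1))))⟩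
noncomputable def pFmb : Fn1 := ⟨_, _, fun h1 => (enc_norm (enc_subr 18383 25000 (enc_scaleT 149 2500 (enc_subr 237 260 h1))))⟩
noncomputable def pFmu : Fn1 := ⟨_, _, fun h1 => (mug3.enc h1)⟩
noncomputable def pFnx : Fn1 := ⟨_, _, fun h1 => (enc_norm (enc_add h1 (enc_pnc _ 3)))⟩
noncomputable def pFc0 : Fn1 := ⟨_, _, fun h1 => (enc_pnc _ 1)⟩
noncomputable def pFkc : Fn1 := ⟨_, _, fun h1 => (enc_norm (enc_add (enc_scaleT 10816309 2500000 (enc_subr 237 260 h1)) (enc_rat _ 203751899 200000000)))⟩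
noncomputable def pFjc : Fn1 := ⟨_, _, fun h1 => (enc_norm (enc_sub (enc_rat _ 132832783 14000000) (enc_scaleT 541460433 7000000 (enc_subr 237 260 h1))))⟩
noncomputable def pFca : Fn1 := ⟨_, _, fun h1 => (enc_norm (enc_add (enc_scaleT 9111 200 (enc_subr 237 260 h1)) (enc_rat _ 1449 500)))⟩
noncomputable def pFcb : Fn1 := ⟨_, _, fun h1 => (enc_norm (enc_subr 399 500 (enc_neg (enc_scaleT 5967 200 (enc_subr 237 260 h1)))))⟩
noncomputable def pFcc : Fn1 := ⟨_, _, fun h1 => (enc_norm (enc_subr 34641 400 (enc_scaleT 3 200 (enc_subr 237 260 h1))))⟩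
noncomputable def pFsv : Fn1 := ⟨_, _, fun h1 => (enc_norm (enc_subr 91 2048 h1))⟩
noncomputable def pFx11 : Fn1 := ⟨_, _, fun h1 => (cv1m.enc h1)⟩
noncomputable def pFx01 : Fn1 := ⟨_, _, fun h1 => (c1g.enc h1)⟩
noncomputable def pFK11 : Fn2 := ⟨_, _, fun h1 h2 => (kf1q1.enc h1 h2)⟩
noncomputable def pFK01 : Fn2 := ⟨_, _, fun h1 h2 => (kf0q1.enc h1 h2)⟩
noncomputable def pFL11 : Fn2 := ⟨_, _, fun h1 h2 => (l1q1.enc h1 h2)⟩
noncomputable def pFL01 : Fn2 := ⟨_, _, fun h1 h2 => (l0q1.enc h1 h2)⟩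
noncomputable def kFc0 : Fn1 := ⟨_, _, fun h1 => (enc_norm (enc_subr 1 35000000 (enc_scaleT 1 10500000 (enc_subr 237 260 h1))))⟩
noncomputable def kFc0g : Fn1 := ⟨_, _, fun h1 => (enc_norm (enc_add (enc_scaleT 93819 25 (enc_subr 237 260 h1)) (enc_rat _ 27347 1000)))⟩
noncomputable def kFc1 : Fn1 := ⟨_, _, fun h1 => (enc_norm (enc_subr 3817 231775000000 (enc_neg (enc_scaleT 12563 69532500000 (enc_subr 237 260 h1)))))⟩
noncomputable def kFc1g : Fn1 := ⟨_, _, fun h1 => (enc_norm (enc_subr 27347 1000 (enc_neg (enc_scaleT 1265303 200 (enc_subr 237 260 h1)))))⟩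
noncomputable def kFa0 : Fn1 := ⟨_, _, fun h1 => (enc_pnc _ 0)⟩
noncomputable def kFa0g : Fn1 := ⟨_, _, fun h1 => (enc_norm (enc_subr 437 200 (enc_neg (enc_scaleT 236 5 (enc_subr 237 260 h1)))))⟩
noncomputable def kFa1 : Fn1 := ⟨_, _, fun h1 => (enc_pnc _ 0)⟩
noncomputable def kFa1g : Fn1 := ⟨_, _, fun h1 => (enc_norm (enc_subr 651 250 (enc_neg (enc_scaleT 2183 50 (enc_subr 237 260 h1)))))⟩
noncomputable def kFb0 : Fn1 := ⟨_, _, fun h1 => (enc_norm (enc_sub (enc_rat _ 1 6000000) (enc_scaleT 1 600000 (enc_subr 237 260 h1))))⟩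
noncomputable def kFb0g : Fn1 := ⟨_, _, fun h1 => (enc_norm (enc_add (enc_scaleT 211 10 (enc_subr 237 260 h1)) (enc_rat _ 83 80)))⟩
noncomputable def kFb1 : Fn1 := ⟨_, _, fun h1 => (enc_norm (enc_subr 1 2000000 (enc_scaleT 1 600000 (enc_subr 237 260 h1))))⟩
noncomputable def kFb1g : Fn1 := ⟨_, _, fun h1 => (enc_norm (enc_add (enc_scaleT 177 200 (enc_subr 237 260 h1)) (enc_rat _ 89 2000)))⟩
noncomputable def kFb2_2 : Fn1 := ⟨_, _, fun h1 => (enc_subr 237 260 h1)⟩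
noncomputable def kFb2 : Fn1 := ⟨_, _, fun h1 => (enc_norm (enc_add (enc_mul (enc_norm (enc_subr 107759 56134000000 (enc_neg (enc_scaleT 103429 1511300000 (kFb2_2.enc h1))))) (enc_norm (kFb2_2.enc h1))) (enc_rat _ 73391 336804000000)))⟩
noncomputable def kFb2g_2 : Fn1 := ⟨_, _, fun h1 => (enc_subr 237 260 h1)⟩
noncomputable def kFb2g : Fn1 := ⟨_, _, fun h1 => (enc_norm (enc_add (enc_mul (enc_norm (enc_sub (enc_rat _ 30819 1000) (enc_scaleT 5113 100 (kFb2g_2.enc h1)))) (enc_norm (kFb2g_2.enc h1))) (enc_rat _ 19499 10000)))⟩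
noncomputable def kFd0 : Fn1 := ⟨_, _, fun h1 => (enc_norm (enc_sub (enc_rat _ 1 3000000) (enc_scaleT 1 300000 (enc_subr 237 260 h1))))⟩
noncomputable def kFd0g : Fn1 := ⟨_, _, fun h1 => (enc_norm (enc_subr 11 100 (enc_neg (enc_nat 5 (enc_subr 237 260 h1)))))⟩
noncomputable def kFd1 : Fn1 := ⟨_, _, fun h1 => (enc_norm (enc_subr 1 1000000 (enc_scaleT 1 300000 (enc_subr 237 260 h1))))⟩
noncomputable def kFd1g : Fn1 := ⟨_, _, fun h1 => (enc_norm (enc_add (enc_scaleT 177 100 (enc_subr 237 260 h1)) (enc_rat _ 89 1000)))⟩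
noncomputable def kFd2 : Fn1 := ⟨_, _, fun h1 => (enc_pnc _ 0)⟩
noncomputable def kFd2g : Fn1 := ⟨_, _, fun h1 => (enc_norm (enc_subr 651 250 (enc_neg (enc_scaleT 2183 50 (enc_subr 237 260 h1)))))⟩
noncomputable def kFd3_2 : Fn1 := ⟨_, _, fun h1 => (enc_subr 237 260 h1)⟩
noncomputable def kFd3 : Fn1 := ⟨_, _, fun h1 => (enc_norm (enc_add (enc_mul (enc_norm (enc_subr 107759 28067000000 (enc_neg (enc_scaleT 103429 755650000 (kFd3_2.enc h1))))) (enc_norm (kFd3_2.enc h1))) (enc_rat _ 73391 168402000000)))⟩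
noncomputable def kFd3g_2 : Fn1 := ⟨_, _, fun h1 => (enc_subr 237 260 h1)⟩
noncomputable def kFd3g : Fn1 := ⟨_, _, fun h1 => (enc_norm (enc_add (enc_mul (enc_norm (enc_sub (enc_rat _ 30819 500) (enc_scaleT 5113 50 (kFd3g_2.enc h1)))) (enc_norm (kFd3g_2.enc h1))) (enc_rat _ 19499 5000)))⟩
noncomputable def kFe0 : Fn1 := ⟨_, _, fun h1 => (enc_norm (enc_sub (enc_rat _ 1 6000000) (enc_scaleT 1 600000 (enc_subr 237 260 h1))))⟩
noncomputable def kFe0g : Fn1 := ⟨_, _, fun h1 => (enc_norm (enc_subr 459 400 (enc_neg (enc_scaleT 261 10 (enc_subr 237 260 h1)))))⟩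
noncomputable def kFe1 : Fn1 := ⟨_, _, fun h1 => (enc_norm (enc_subr 1 2000000 (enc_scaleT 1 600000 (enc_subr 237 260 h1))))⟩
noncomputable def kFe1g : Fn1 := ⟨_, _, fun h1 => (enc_norm (enc_add (enc_scaleT 177 200 (enc_subr 237 260 h1)) (enc_rat _ 89 2000)))⟩
noncomputable def kFe2 : Fn1 := ⟨_, _, fun h1 => (enc_pnc _ 0)⟩
noncomputable def kFe2g : Fn1 := ⟨_, _, fun h1 => (enc_norm (enc_subr 651 250 (enc_neg (enc_scaleT 2183 50 (enc_subr 237 260 h1)))))⟩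
noncomputable def kFe3_2 : Fn1 := ⟨_, _, fun h1 => (enc_subr 237 260 h1)⟩
noncomputable def kFe3 : Fn1 := ⟨_, _, fun h1 => (enc_norm (enc_add (enc_mul (enc_norm (enc_subr 107759 56134000000 (enc_neg (enc_scaleT 103429 1511300000 (kFe3_2.enc h1))))) (enc_norm (kFe3_2.enc h1))) (enc_rat _ 73391 336804000000)))⟩
noncomputable def kFe3g_2 : Fn1 := ⟨_, _, fun h1 => (enc_subr 237 260 h1)⟩
noncomputable def kFe3g : Fn1 := ⟨_, _, fun h1 => (enc_norm (enc_add (enc_mul (enc_norm (enc_sub (enc_rat _ 30819 1000) (enc_scaleT 5113 100 (kFe3g_2.enc h1)))) (enc_norm (kFe3g_2.enc h1))) (enc_rat _ 19499 10000)))⟩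
noncomputable def cFxs1 : Fn1 := ⟨_, _, fun h1 => (enc_norm (enc_add (enc_scaleT 11 20 (dgxi.enc h1)) (enc_scaleT 9 20 (dgws.enc h1))))⟩
noncomputable def cFsB1 : Fn2 := ⟨_, _, fun h1 h2 => (enc_norm (enc_subr 49883 20000 (enc_neg (enc_scaleT 549793 10000 (enc_subr 237 260 h2)))))⟩
noncomputable def cFBs1 : Fn2 := ⟨_, _, fun h1 h2 => (cFsB1.enc h1 h2)⟩
noncomputable def cFsX1 : Fn2 := ⟨_, _, fun h1 h2 => (enc_norm (enc_subr 2044 3125 (enc_neg (enc_scaleT 5636 625 (enc_subr 237 260 h2)))))⟩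
noncomputable def cFsD1 : Fn2 := ⟨_, _, fun h1 h2 => (enc_pnc _ 0)⟩
noncomputable def cFsDD1 : Fn2 := ⟨_, _, fun h1 h2 => (cFsD1.enc h1 h2)⟩
noncomputable def nFsc1 : Fn1 := ⟨_, _, fun h1 => (enc_scaleT 9 20 h1)⟩
noncomputable def nFB1_3 : Fn2 := ⟨_, _, fun h1 h2 => (enc_subr 237 260 h2)⟩
noncomputable def nFB1 : Fn2 := ⟨_, _, fun h1 h2 => (enc_norm (enc_add (enc_subr 14739 25000 (enc_scaleT 3897 2500 (nFB1_3.enc h1 h2))) (enc_mul h1 (enc_norm (enc_sub (enc_rat _ 96290000 135666257) (enc_scaleT 21006700000 406998771 (nFB1_3.enc h1 h2)))))))⟩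
noncomputable def nFX1_3 : Fn2 := ⟨_, _, fun h1 h2 => (enc_subr 237 260 h2)⟩
noncomputable def nFX1 : Fn2 := ⟨_, _, fun h1 h2 => (enc_norm (enc_add (enc_add (enc_scaleT 5473 2500 (nFX1_3.enc h1 h2)) (enc_rat _ 42807 50000)) (enc_mul h1 (enc_norm (enc_add (enc_scaleT 1673400000 288811357 (nFX1_3.enc h1 h2)) (enc_rat _ 91710000 288811357))))))⟩
noncomputable def nFD1_3 : Fn2 := ⟨_, _, fun h1 h2 => (enc_subr 237 260 h2)⟩
noncomputable def nFD1 : Fn2 := ⟨_, _, fun h1 h2 => (enc_norm (enc_add (enc_subr 39 1250 (enc_scaleT 298 125 (nFD1_3.enc h1 h2))) (enc_mul h1 (enc_norm (enc_sub (enc_rat _ 2319800000 135666257) (enc_scaleT 235076000000 406998771 (nFD1_3.enc h1 h2)))))))⟩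
noncomputable def nFsc2 : Fn1 := ⟨_, _, fun h1 => (enc_norm (enc_add (enc_scaleT 9 10 h1) (enc_rat _ 1 10)))⟩
noncomputable def nFB2 : Fn2 := ⟨_, _, fun h1 h2 => (enc_norm (enc_subr 704700000 288811357 (enc_neg (enc_scaleT 6732000000 288811357 (enc_subr 237 260 h2)))))⟩
noncomputable def nFX2 : Fn2 := ⟨_, _, fun h1 h2 => (enc_norm (enc_add (enc_scaleT 610550000 288811357 (enc_subr 237 260 h2)) (enc_rat _ 157025000 288811357)))⟩
noncomputable def nFD2 : Fn2 := ⟨_, _, fun h1 h2 => (enc_norm (enc_add (enc_scaleT 9318062021243 67968794757 (enc_subr 237 260 h2)) (enc_rat _ 4587218624431 339843973785)))⟩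
noncomputable def nFsc3 : Fn1 := ⟨_, _, fun h1 => (enc_norm (enc_add (enc_scaleT 2 5 h1) (enc_rat _ 3 5)))⟩
noncomputable def nFB3 : Fn2 := ⟨_, _, fun h1 h2 => (enc_norm (enc_subr 271550000 288811357 (enc_neg (enc_scaleT 1876000000 288811357 (enc_subr 237 260 h2)))))⟩
noncomputable def nFX3 : Fn2 := ⟨_, _, fun h1 h2 => (enc_norm (enc_subr 495000 288811357 (enc_scaleT 517050000 288811357 (enc_subr 237 260 h2))))⟩
noncomputable def nFD3 : Fn2 := ⟨_, _, fun h1 h2 => (enc_norm (enc_subr 341535100000 67968794757 (enc_neg (enc_scaleT 18338215000000 67968794757 (enc_subr 237 260 h2)))))⟩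
noncomputable def l12F : List Knk := [⟨7, 200, kFc0, kFc0g⟩, ⟨1, 20, kFc1, kFc1g⟩]
noncomputable def laF : List Knk := [⟨3, 100, kFa0, kFa0g⟩, ⟨1, 20, kFa1, kFa1g⟩]
noncomputable def lbF : List Knk := [⟨3, 100, kFb0, kFb0g⟩, ⟨9, 200, kFb1, kFb1g⟩, ⟨3, 50, kFb2, kFb2g⟩]
noncomputable def l1F : List Knk := [⟨3, 100, kFe0, kFe0g⟩, ⟨9, 200, kFe1, kFe1g⟩, ⟨1, 20, kFe2, kFe2g⟩, ⟨3, 50, kFe3, kFe3g⟩]
noncomputable def l2F : List Knk := [⟨3, 100, kFd0, kFd0g⟩, ⟨9, 200, kFd1, kFd1g⟩, ⟨1, 20, kFd2, kFd2g⟩, ⟨3, 50, kFd3, kFd3g⟩]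
noncomputable def cvF1 : CvP := ⟨cFxs1, cFBs1, cFsX1⟩
noncomputable def ndF1 : NdU := ⟨nFsc1, nFB1, nFX1, nFD1⟩
noncomputable def ndF2 : NdU := ⟨nFsc2, nFB2, nFX2, nFD2⟩
noncomputable def ndF3 : NdU := ⟨nFsc3, nFB3, nFX3, nFD3⟩
noncomputable def pF : Pm := ⟨pFma, pFmb, pFmu, pFnx, pFc0, pFkc, pFjc, pFkc, pFjc, pFkc, pFjc, pFca, pFcb, pFcc, pFcc, pFcc, pFsv, l12F, l12F, l12F, laF, lbF, l1F, l2F, cvF1, pFx11, pFx01, pFK11, pFK01, pFL11, pFL01⟩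
noncomputable def pNc0 : Fn1 := ⟨_, _, fun h1 => (eng.enc h1)⟩
noncomputable def pNkc : Fn1 := ⟨_, _, fun h1 => (enc_norm (enc_mul (pNc0.enc h1) (enc_norm (enc_add (enc_scaleT 10816309 2500000 (enc_subr 237 260 h1)) (enc_rat _ 203751899 200000000)))))⟩
noncomputable def pNjc : Fn1 := ⟨_, _, fun h1 => (enc_norm (enc_mul (pNc0.enc h1) (enc_norm (enc_sub (enc_rat _ 132832783 14000000) (enc_scaleT 541460433 7000000 (enc_subr 237 260 h1))))))⟩
noncomputable def pNcc : Fn1 := ⟨_, _, fun h1 => (enc_norm (enc_mul (pNc0.enc h1) (enc_norm (enc_subr 34641 400 (enc_scaleT 3 200 (enc_subr 237 260 h1))))))⟩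
noncomputable def pNK11 : Fn2 := ⟨_, _, fun h1 h2 => (enc_norm (enc_mul (pNc0.enc h2) (kf1q1.enc h1 h2)))⟩
noncomputable def pNK01 : Fn2 := ⟨_, _, fun h1 h2 => (enc_norm (enc_mul (pNc0.enc h2) (kf0q1.enc h1 h2)))⟩
noncomputable def kNc0 : Fn1 := ⟨_, _, fun h1 => (enc_norm (enc_mul (pNc0.enc h1) (enc_norm (enc_subr 1 35000000 (enc_scaleT 1 10500000 (enc_subr 237 260 h1))))))⟩
noncomputable def kNc0g : Fn1 := ⟨_, _, fun h1 => (enc_norm (enc_mul (pNc0.enc h1) (enc_norm (enc_add (enc_scaleT 93819 25 (enc_subr 237 260 h1)) (enc_rat _ 27347 1000)))))⟩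
noncomputable def kNc1 : Fn1 := ⟨_, _, fun h1 => (enc_norm (enc_mul (pNc0.enc h1) (enc_norm (enc_subr 3817 231775000000 (enc_neg (enc_scaleT 12563 69532500000 (enc_subr 237 260 h1)))))))⟩
noncomputable def kNc1g : Fn1 := ⟨_, _, fun h1 => (enc_norm (enc_mul (pNc0.enc h1) (enc_norm (enc_subr 27347 1000 (enc_neg (enc_scaleT 1265303 200 (enc_subr 237 260 h1)))))))⟩
noncomputable def cNBs1 : Fn2 := ⟨_, _, fun h1 h2 => (enc_norm (enc_mul (pNc0.enc h2) (cFsB1.enc h1 h2)))⟩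
noncomputable def nNB1_4 : Fn2 := ⟨_, _, fun h1 h2 => (enc_subr 237 260 h2)⟩
noncomputable def nNB1 : Fn2 := ⟨_, _, fun h1 h2 => (enc_norm (enc_mul (pNc0.enc h2) (enc_norm (enc_add (enc_subr 14739 25000 (enc_scaleT 3897 2500 (nNB1_4.enc h1 h2))) (enc_mul h1 (enc_norm (enc_sub (enc_rat _ 96290000 135666257) (enc_scaleT 21006700000 406998771 (nNB1_4.enc h1 h2)))))))))⟩
noncomputable def nNB2 : Fn2 := ⟨_, _, fun h1 h2 => (enc_norm (enc_mul (pNc0.enc h2) (enc_norm (enc_subr 704700000 288811357 (enc_neg (enc_scaleT 6732000000 288811357 (enc_subr 237 260 h2)))))))⟩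
noncomputable def nNB3 : Fn2 := ⟨_, _, fun h1 h2 => (enc_norm (enc_mul (pNc0.enc h2) (enc_norm (enc_subr 271550000 288811357 (enc_neg (enc_scaleT 1876000000 288811357 (enc_subr 237 260 h2)))))))⟩
noncomputable def umo : Fn1 := ⟨_, _, fun h1 => (mog.enc h1)⟩
noncomputable def us1 : Fn1 := ⟨_, _, fun h1 => (enc_norm (enc_sub (enc_rat _ 870812229797 100000000000) (enc_scaleT 602469436537 100000000000 (enc_subr 237 260 h1))))⟩
noncomputable def us2 : Fn1 := ⟨_, _, fun h1 => (enc_pnc _ 0)⟩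
noncomputable def us3 : Fn1 := ⟨_, _, fun h1 => (enc_norm (enc_add (enc_scaleT 222 167 (enc_subr 237 260 h1)) (enc_rat _ 5661 835)))⟩
noncomputable def uC11 : Fn2 := ⟨_, _, fun h1 h2 => (kc1q1.enc h1 h2)⟩
noncomputable def uC01 : Fn2 := ⟨_, _, fun h1 h2 => (kc0q1.enc h1 h2)⟩
noncomputable def l12N : List Knk := [⟨7, 200, kNc0, kNc0g⟩, ⟨1, 20, kNc1, kNc1g⟩]
noncomputable def cvN1 : CvP := ⟨cFxs1, cNBs1, cFsX1⟩
noncomputable def ndN1 : NdU := ⟨nFsc1, nNB1, nFX1, nFD1⟩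
noncomputable def ndN2 : NdU := ⟨nFsc2, nNB2, nFX2, nFD2⟩
noncomputable def ndN3 : NdU := ⟨nFsc3, nNB3, nFX3, nFD3⟩
noncomputable def pN : Pm := ⟨pFma, pFmb, pFmu, pFnx, pNc0, pNkc, pNjc, pNkc, pNjc, pNkc, pNjc, pFca, pFcb, pNcc, pNcc, pNcc, pFsv, l12N, l12N, l12N, laF, lbF, l1F, l2F, cvN1, pFx11, pFx01, pNK11, pNK01, pFL11, pFL01⟩
noncomputable def ul1 : List Knk := []
noncomputable def ul2 : List Knk := []
noncomputable def ul3 : List Knk := []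
noncomputable def qN : Pu := ⟨umo, us1, us2, us3, ul1, ul2, ul3, cFsDD1, uC11, uC01⟩

end Pool.Agent.Strip051.G.I9000_9231.Tab.DG
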