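import Pool.Agent.Strip051.G.I9000_9231.Rows
import Pool.Agent.Strip051.PB.CGood
import Pool.Agent.Strip051.PB.FinS
import Pool.Agent.Strip051.G.I9000_9231.Fl
import Pool.Agent.Strip051.G.I9000_9231.Cost
import Pool.Agent.Strip051.G.I8600_9000.Fin

/-! # Rows from certificates (generated) -/

set_option linter.all false
set_option maxRecDepth 100000

namespace Pool.Agent.Strip051.G.I9000_9231.Tab

open Pool.Agent.Strip051.PB Pool.Agent.StripNear Pool.Agent.Strip051.LC

theorem done {x : ℝ} (hx : ((966367641 : ℕ) : ℝ) / S ≤ x) (hx' : x ≤ (((966367641 : ℕ) : ℝ) + (24778659 : ℕ)) / S) [xlo : Fact ((9 / 10 : ℝ) ≤ x)] : Good (h0 * x) := by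
  have e : (((1 : ℕ) : ℝ) / ((5 : ℕ) : ℝ)) = 1 / 5 := by norm_num
  have c := (rowsE hx hx').certE
  have h := flRow (o := h0 * (1 / 20)) ⟨hx, hx'⟩ (by rw [e]; exact c) (kE_eq (hx1 hx) (hx2 hx'))
  rw [e] at h
  exact good hx hx' (ken_h0 x) c h


end Pool.Agent.Strip051.G.I9000_9231.Tab

namespace Pool.Agent.Strip051.G.I9000_9231

open Pool.Agent.Strip051.PB Pool.Agent.StripNear Pool.Agent.Strip051.LC

theorem good_on {x : ℝ} (hx : ((966367641 : ℕ) : ℝ) / S ≤ x) (hx' : x ≤ (((966367641 : ℕ) : ℝ) + (24778659 : ℕ)) / S) : Good (h0 * x) := by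
  rcases lt_or_ge x (9 / 10) with h | h
  · refine Pool.Agent.Strip051.G.I8600_9000.good_on (x := x) ?_ ?_
    · rw [S_num] at hx ⊢
      norm_num at hx ⊢
      linarith
    · rw [S_num]
      norm_num
      linarith
  · haveI : Fact ((9 / 10 : ℝ) ≤ x) := ⟨h⟩
    exact Tab.done hx hx'

end Pool.Agent.Strip051.G.I9000_9231
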