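import Pool.Agent.Strip051.PB.FlAsmG
import Pool.Agent.Strip051.PB.PairT
import Pool.Agent.Strip051.G.I9000_9231.Tab

/-! # Slopes (generated) -/

set_option linter.all false

namespace Pool.Agent.Strip051.G.I9000_9231.Tab

open Pool.Agent.Strip051.PB

attribute [local irreducible] padd psub pneg pmul psq pinv psqrt psqrtg pabs pps pmax pmin pphi
  plam pcase phf pnat prat pscale pnorm pdc pnc pone ppos pnn pscaleT pwT
  pwB0 pwB3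

noncomputable def c1g_sf : Sl1 c1g := ⟨_, fun h1 => (pr_sqrtg (pr_csub (enc_pnc _ 1) (pr_scaleT 3 4 (pr_sq h1))))⟩
noncomputable def kcg_6_sf : Sl2 kcg_6 := ⟨_, fun h1 h2 => (pr_addc h1 (enc_rat _ 31 100))⟩
noncomputable def kcg_9_sf : Sl2 kcg_9 := ⟨_, fun h1 h2 => (pr_addc h1 (enc_rat _ 9 20))⟩
noncomputable def kcg_12_sf : Sl2 kcg_12 := ⟨_, fun h1 h2 => (pr_addc h1 (enc_rat _ 93 200))⟩
noncomputable def kcg_13_sf : Sl2 kcg_13 := ⟨_, fun h1 h2 => (pr_scaleT 45198779 7000000 h1)⟩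
noncomputable def kcg_18_sf : Sl2 kcg_18 := ⟨_, fun h1 h2 => (pr_scaleT 270728379 3500000 h1)⟩
noncomputable def kcg_35_sf : Sl2 kcg_35 := ⟨_, fun h1 h2 => (pr_scaleT 6342621 2500000 h1)⟩
noncomputable def kcg_40_sf : Sl2 kcg_40 := ⟨_, fun h1 h2 => (pr_scaleT 31588223 1500000 h1)⟩
noncomputable def kcg_57_sf : Sl2 kcg_57 := ⟨_, fun h1 h2 => (pr_addc h1 (enc_rat _ 107 254))⟩
noncomputable def kcg_58_sf : Sl2 kcg_58 := ⟨_, fun h1 h2 => (pr_scaleT 3068750657 3650000000 h1)⟩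
noncomputable def kcg_62_sf : Sl2 kcg_62 := ⟨_, fun h1 h2 => (pr_scaleT 14138962451 365000000 h1)⟩
noncomputable def kcg_78_sf : Sl2 kcg_78 := ⟨_, fun h1 h2 => (pr_addc h1 (enc_rat _ 61 182))⟩
noncomputable def kcg_79_sf : Sl2 kcg_79 := ⟨_, fun h1 h2 => (pr_scaleT 3902874748591 995000000000 h1)⟩
noncomputable def kcg_82_sf : Sl2 kcg_82 := ⟨_, fun h1 h2 => (pr_scaleT 2860641813757 99500000000 h1)⟩
noncomputable def kcg_96_sf : Sl2 kcg_96 := ⟨_, fun h1 h2 => (pr_scaleT 75842039 17890625 h1)⟩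
noncomputable def kcg_99_sf : Sl2 kcg_99 := ⟨_, fun h1 h2 => (pr_scaleT 6321215173 114500000 h1)⟩
noncomputable def kcg_119_sf : Sl2 kcg_119 := ⟨_, fun h1 h2 => (pr_addc h1 (enc_rat _ 6 25))⟩
noncomputable def kcg_122_sf : Sl2 kcg_122 := ⟨_, fun h1 h2 => (pr_addc h1 (enc_rat _ 7 25))⟩
noncomputable def kcg_123_sf : Sl2 kcg_123 := ⟨_, fun h1 h2 => (pr_scaleT 145363 40000 h1)⟩
noncomputable def kcg_126_sf : Sl2 kcg_126 := ⟨_, fun h1 h2 => (pr_scaleT 44167 800 h1)⟩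
noncomputable def kcg_140_sf : Sl2 kcg_140 := ⟨_, fun h1 h2 => (pr_scaleT 286621 100000 h1)⟩
noncomputable def kcg_143_sf : Sl2 kcg_143 := ⟨_, fun h1 h2 => (pr_scaleT 110419 2000 h1)⟩
noncomputable def kcg_157_sf : Sl2 kcg_157 := ⟨_, fun h1 h2 => (pr_addc h1 (enc_rat _ 4 25))⟩
noncomputable def kcg_158_sf : Sl2 kcg_158 := ⟨_, fun h1 h2 => (pr_scaleT 242743 100000 h1)⟩
noncomputable def kcg_162_sf : Sl2 kcg_162 := ⟨_, fun h1 h2 => (pr_scaleT 364823 10000 h1)⟩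
noncomputable def kcg_181_sf : Sl2 kcg_181 := ⟨_, fun h1 h2 => (pr_scaleT 246079 100000 h1)⟩
noncomputable def kcg_185_sf : Sl2 kcg_185 := ⟨_, fun h1 h2 => (pr_scaleT 186121 10000 h1)⟩
noncomputable def kcg_202_sf : Sl2 kcg_202 := ⟨_, fun h1 h2 => (pr_scaleT 49883 20000 h1)⟩
noncomputable def kcg_205_sf : Sl2 kcg_205 := ⟨_, fun h1 h2 => (pr_cmul (enc_norm (kcg_3.enc h1.l h2)) (pr_nd (pr_scaleT 549793 10000 h1)))⟩
noncomputable def kcg_212_sf : Sl2 kcg_212 := ⟨_, fun h1 h2 => (pr_csub (enc_rat _ 31 100) h1)⟩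
noncomputable def kcg_213_sf : Sl2 kcg_213 := ⟨_, fun h1 h2 => (pr_csub (enc_rat _ 9 20) h1)⟩
noncomputable def kcg_214_sf : Sl2 kcg_214 := ⟨_, fun h1 h2 => (pr_csub (enc_rat _ 93 200) h1)⟩
noncomputable def kcg_235_sf : Sl2 kcg_235 := ⟨_, fun h1 h2 => (pr_csub (enc_rat _ 107 254) h1)⟩
noncomputable def kcg_246_sf : Sl2 kcg_246 := ⟨_, fun h1 h2 => (pr_csub (enc_rat _ 61 182) h1)⟩
noncomputable def kcg_269_sf : Sl2 kcg_269 := ⟨_, fun h1 h2 => (pr_csub (enc_rat _ 6 25) h1)⟩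
noncomputable def kcg_270_sf : Sl2 kcg_270 := ⟨_, fun h1 h2 => (pr_csub (enc_rat _ 7 25) h1)⟩
noncomputable def kcg_290_sf : Sl2 kcg_290 := ⟨_, fun h1 h2 => (pr_csub (enc_rat _ 4 25) h1)⟩
noncomputable def kcg_sf : Sl2 kcg := ⟨_, fun h1 h2 => (pr_norm (pr_case h1 (pr_case (kcg_6_sf.snd h1 h2) (pr_case (kcg_9_sf.snd h1 h2) (pr_case (kcg_12_sf.snd h1 h2) (pr_add (pr_add (pr_subr 5946141193 1400000000 (pr_neg (kcg_13_sf.snd h1 h2))) (pr_cmul (enc_norm (kcg_3.enc h1.l h2)) (pr_norm (pr_addc (kcg_18_sf.snd h1 h2) (enc_rat _ 1202213569 35000000))))) (pr_cmul (enc_norm (kcg_27.enc h1.l h2)) (pr_norm (pr_mul (pr_norm (pr_addc h1 (enc_rat _ 1 2))) (pr_norm (pr_csub (enc_neg (enc_rat _ 93 200)) h1)))))) (pr_add (pr_add (pr_subr 18941257 7812500 (pr_neg (kcg_35_sf.snd h1 h2))) (pr_cmul (enc_norm (kcg_3.enc h1.l h2)) (pr_norm (pr_addc (kcg_40_sf.snd h1 h2) (enc_rat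 _ 204327733 25000000))))) (pr_cmul (enc_norm (kcg_49.enc h1.l h2)) (pr_norm (pr_mul (pr_norm (kcg_12_sf.snd h1 h2)) (pr_norm (pr_csub (enc_neg (enc_rat _ 9 20)) h1))))))) (pr_case (kcg_57_sf.snd h1 h2) (pr_add (pr_add (pr_subr 13205261911 14600000000 (kcg_58_sf.snd h1 h2)) (pr_cmul (enc_norm (kcg_3.enc h1.l h2)) (pr_norm (pr_addc (kcg_62_sf.snd h1 h2) (enc_rat _ 4709446069 292000000))))) (pr_cmul (enc_norm (kcg_71.enc h1.l h2)) (pr_norm (pr_mul (pr_norm (kcg_9_sf.snd h1 h2)) (pr_norm (pr_csub (enc_neg (enc_rat _ 107 254)) h1)))))) (pr_case (kcg_78_sf.snd h1 h2) (pr_add (pr_add (pr_addc (kcg_79_sf.snd h1 h2) (enc_rat _ 783543811181 1990000000000)) (pr_cmul (enc_norm (kcg_3.enc h1.l h2)) (pr_norm (pr_addc (kcg_82_sf.snd h1 h2) (enc_rat _ 2372326403387 199000000000))))) (pr_cmul (enc_norm (kcg_91.enc h1.l h2)) (pr_norm (pr_mul (pr_norm (kcg_57_sf.snd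 h1 h2)) (pr_norm (pr_csub (enc_neg (enc_rat _ 61 182)) h1)))))) (pr_add (pr_add (pr_addc (kcg_96_sf.snd h1 h2) (enc_rat _ 57237806751 114500000000)) (pr_cmul (enc_norm (kcg_3.enc h1.l h2)) (pr_norm (pr_subr 92849724669 5725000000 (pr_neg (kcg_99_sf.snd h1 h2)))))) (pr_cmul (enc_norm (kcg_109.enc h1.l h2)) (pr_norm (pr_mul (pr_norm (kcg_78_sf.snd h1 h2)) (pr_norm (pr_csub (enc_neg (enc_rat _ 31 100)) h1))))))))) (pr_case (kcg_119_sf.snd h1 h2) (pr_case (kcg_122_sf.snd h1 h2) (pr_add (pr_add (pr_addc (kcg_123_sf.snd h1 h2) (enc_rat _ 312303 1000000)) (pr_cmul (enc_norm (kcg_3.enc h1.l h2)) (pr_norm (pr_subr 8109399 500000 (pr_neg (kcg_126_sf.snd h1 h2)))))) (pr_cmul (enc_norm (kcg_135.enc h1.l h2)) (pr_norm (pr_mul (pr_norm (kcg_6_sf.snd h1 h2)) (pr_norm (pr_csub (enc_neg (enc_rat _ 7 25)) h1)))))) (pr_add (pr_add (pr_addc (kcg_140_sf.snd h1 h2) (enc_rat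 _ 60813 625000)) (pr_cmul (enc_norm (kcg_3.enc h1.l h2)) (pr_norm (pr_subr 253422 15625 (pr_neg (kcg_143_sf.snd h1 h2)))))) (pr_scaleT 21939 2000 (pr_mul (pr_norm (kcg_122_sf.snd h1 h2)) (pr_norm (pr_csub (enc_neg (enc_rat _ 6 25)) h1)))))) (pr_case (kcg_157_sf.snd h1 h2) (pr_sub (pr_add (pr_subr 1251 156250 (kcg_158_sf.snd h1 h2)) (pr_cmul (enc_norm (kcg_3.enc h1.l h2)) (pr_norm (pr_subr 36639 3125 (pr_neg (kcg_162_sf.snd h1 h2)))))) (pr_cmul (enc_norm (kcg_171.enc h1.l h2)) (pr_norm (pr_mul (pr_norm (kcg_119_sf.snd h1 h2)) (pr_norm (pr_csub (enc_neg (enc_rat _ 4 25)) h1)))))) (pr_case (pr_addc h1 (enc_rat _ 2 25)) (pr_add (pr_add (pr_subr 417 156250 (kcg_181_sf.snd h1 h2)) (pr_cmul (enc_norm (kcg_3.enc h1.l h2)) (pr_norm (pr_subr 45459 15625 (kcg_185_sf.snd h1 h2))))) (pr_cmul (enc_norm (kcg_197.enc h1.l h2)) (pr_norm (pr_mul (pr_norm (kcg_157_sf.snd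 h1 h2)) (pr_norm (pr_csub (enc_neg (enc_rat _ 2 25)) h1)))))) (pr_add (kcg_202_sf.snd h1 h2) (kcg_205_sf.snd h1 h2)))))) (pr_neg (pr_case (kcg_212_sf.snd h1 h2) (pr_case (kcg_213_sf.snd h1 h2) (pr_case (kcg_214_sf.snd h1 h2) (pr_add (pr_add (pr_subr 5946141193 1400000000 (kcg_13_sf.snd h1 h2)) (pr_cmul (enc_norm (kcg_3.enc h1.l h2)) (pr_norm (pr_csub (enc_rat _ 1202213569 35000000) (kcg_18_sf.snd h1 h2))))) (pr_cmul (enc_norm (kcg_27.enc h1.l h2)) (pr_norm (pr_mul (pr_norm (pr_csub (enc_rat _ 1 2) h1)) (pr_norm (pr_subr 93 200 h1)))))) (pr_add (pr_add (pr_subr 18941257 7812500 (kcg_35_sf.snd h1 h2)) (pr_cmul (enc_norm (kcg_3.enc h1.l h2)) (pr_norm (pr_csub (enc_rat _ 204327733 25000000) (kcg_40_sf.snd h1 h2))))) (pr_cmul (enc_norm (kcg_49.enc h1.l h2)) (pr_norm (pr_mul (pr_norm (kcg_214_sf.snd h1 h2)) (pr_norm (pr_subr 9 20 h1))))))) (pr_case (kcg_235_sf.snd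 h1 h2) (pr_add (pr_add (pr_subr 13205261911 14600000000 (pr_neg (kcg_58_sf.snd h1 h2))) (pr_cmul (enc_norm (kcg_3.enc h1.l h2)) (pr_norm (pr_csub (enc_rat _ 4709446069 292000000) (kcg_62_sf.snd h1 h2))))) (pr_cmul (enc_norm (kcg_71.enc h1.l h2)) (pr_norm (pr_mul (pr_norm (kcg_213_sf.snd h1 h2)) (pr_norm (pr_subr 107 254 h1)))))) (pr_case (kcg_246_sf.snd h1 h2) (pr_add (pr_add (pr_csub (enc_rat _ 783543811181 1990000000000) (kcg_79_sf.snd h1 h2)) (pr_cmul (enc_norm (kcg_3.enc h1.l h2)) (pr_norm (pr_csub (enc_rat _ 2372326403387 199000000000) (kcg_82_sf.snd h1 h2))))) (pr_cmul (enc_norm (kcg_91.enc h1.l h2)) (pr_norm (pr_mul (pr_norm (kcg_235_sf.snd h1 h2)) (pr_norm (pr_subr 61 182 h1)))))) (pr_add (pr_add (pr_csub (enc_rat _ 57237806751 114500000000) (kcg_96_sf.snd h1 h2)) (pr_cmul (enc_norm (kcg_3.enc h1.l h2)) (pr_norm (pr_subr 92849724669 5725000000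 (kcg_99_sf.snd h1 h2))))) (pr_cmul (enc_norm (kcg_109.enc h1.l h2)) (pr_norm (pr_mul (pr_norm (kcg_246_sf.snd h1 h2)) (pr_norm (pr_subr 31 100 h1))))))))) (pr_case (kcg_269_sf.snd h1 h2) (pr_case (kcg_270_sf.snd h1 h2) (pr_add (pr_add (pr_csub (enc_rat _ 312303 1000000) (kcg_123_sf.snd h1 h2)) (pr_cmul (enc_norm (kcg_3.enc h1.l h2)) (pr_norm (pr_subr 8109399 500000 (kcg_126_sf.snd h1 h2))))) (pr_cmul (enc_norm (kcg_135.enc h1.l h2)) (pr_norm (pr_mul (pr_norm (kcg_212_sf.snd h1 h2)) (pr_norm (pr_subr 7 25 h1)))))) (pr_add (pr_add (pr_csub (enc_rat _ 60813 625000) (kcg_140_sf.snd h1 h2)) (pr_cmul (enc_norm (kcg_3.enc h1.l h2)) (pr_norm (pr_subr 253422 15625 (kcg_143_sf.snd h1 h2))))) (pr_scaleT 21939 2000 (pr_mul (pr_norm (kcg_270_sf.snd h1 h2)) (pr_norm (pr_subr 6 25 h1)))))) (pr_case (kcg_290_sf.snd h1 h2) (pr_sub (pr_add (pr_subr 1251 156250 (pr_neg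 (kcg_158_sf.snd h1 h2))) (pr_cmul (enc_norm (kcg_3.enc h1.l h2)) (pr_norm (pr_subr 36639 3125 (kcg_162_sf.snd h1 h2))))) (pr_cmul (enc_norm (kcg_171.enc h1.l h2)) (pr_norm (pr_mul (pr_norm (kcg_269_sf.snd h1 h2)) (pr_norm (pr_subr 4 25 h1)))))) (pr_case (pr_csub (enc_rat _ 2 25) h1) (pr_add (pr_add (pr_subr 417 156250 (pr_neg (kcg_181_sf.snd h1 h2))) (pr_cmul (enc_norm (kcg_3.enc h1.l h2)) (pr_norm (pr_subr 45459 15625 (pr_neg (kcg_185_sf.snd h1 h2)))))) (pr_cmul (enc_norm (kcg_197.enc h1.l h2)) (pr_norm (pr_mul (pr_norm (kcg_290_sf.snd h1 h2)) (pr_norm (pr_subr 2 25 h1)))))) (pr_sub (pr_neg (kcg_202_sf.snd h1 h2)) (kcg_205_sf.snd h1 h2)))))))))⟩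
noncomputable def kf0q0_9_sf : Sl2 kf0q0_9 := ⟨_, fun h1 h2 => (pr_scaleT 3 2 h1)⟩
noncomputable def kf0q0_12_sf : Sl2 kf0q0_12 := ⟨_, fun h1 h2 => (pr_cadd (enc_pnc _ 1) (c1g_sf.snd h1))⟩
noncomputable def kf0q0_sf : Sl2 kf0q0 := ⟨_, fun h1 h2 => (pr_norm (pr_add (pr_mul (pr_norm (pr_mul (pr_norm (pr_sub (c1g_sf.snd h1) (kf0q0_9_sf.snd h1 h2))) (pr_norm (kf0q0_12_sf.snd h1 h2)))) (pr_nd (pr_inv (pr_sub (kf0q0_12_sf.snd h1 h2) (kf0q0_9_sf.snd h1 h2))))) (pr_mul h1 (kcg_sf.snd (pr_norm (pr_sub (pr_scaleT 3 4 h1) (pr_half (c1g_sf.snd h1)))) h2))))⟩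
noncomputable def txg_6_sf : Sl3 txg_6 := ⟨_, fun h1 h2 h3 => (pr_add h1 (pr_half h2))⟩
noncomputable def txg_26_sf : Sl3 txg_26 := ⟨_, fun h1 h2 h3 => (pr_addc h1 (enc_rat _ 1 4))⟩
noncomputable def txg_29_sf : Sl3 txg_29 := ⟨_, fun h1 h2 h3 => (pr_addc h1 (enc_rat _ 39 100))⟩
noncomputable def txg_32_sf : Sl3 txg_32 := ⟨_, fun h1 h2 h3 => (pr_addc h1 (enc_rat _ 9 20))⟩
noncomputable def txg_35_sf : Sl3 txg_35 := ⟨_, fun h1 h2 h3 => (pr_addc h1 (enc_rat _ 47 100))⟩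
noncomputable def txg_80_sf : Sl3 txg_80 := ⟨_, fun h1 h2 h3 => (pr_addc h1 (enc_rat _ 21 50))⟩
noncomputable def txg_121_sf : Sl3 txg_121 := ⟨_, fun h1 h2 h3 => (pr_addc h1 (enc_rat _ 33 100))⟩
noncomputable def txg_124_sf : Sl3 txg_124 := ⟨_, fun h1 h2 h3 => (pr_addc h1 (enc_rat _ 9 25))⟩
noncomputable def txg_165_sf : Sl3 txg_165 := ⟨_, fun h1 h2 h3 => (pr_addc h1 (enc_rat _ 3 10))⟩
noncomputable def txg_206_sf : Sl3 txg_206 := ⟨_, fun h1 h2 h3 => (pr_subr 1 10 h1)⟩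
noncomputable def txg_209_sf : Sl3 txg_209 := ⟨_, fun h1 h2 h3 => (pr_addc h1 (enc_rat _ 3 20))⟩
noncomputable def txg_212_sf : Sl3 txg_212 := ⟨_, fun h1 h2 h3 => (pr_addc h1 (enc_rat _ 1 5))⟩
noncomputable def txg_247_sf : Sl3 txg_247 := ⟨_, fun h1 h2 h3 => (pr_addc h1 (enc_rat _ 1 10))⟩
noncomputable def txg_282_sf : Sl3 txg_282 := ⟨_, fun h1 h2 h3 => (pr_subr 1 5 h1)⟩
noncomputable def txg_283_sf : Sl3 txg_283 := ⟨_, fun h1 h2 h3 => (pr_subr 3 20 h1)⟩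
noncomputable def txg_320_sf : Sl3 txg_320 := ⟨_, fun h1 h2 h3 => (pr_subr 1 4 h1)⟩
noncomputable def txg_339_sf : Sl3 txg_339 := ⟨_, fun h1 h2 h3 => (pr_subr 3 10 h1)⟩
noncomputable def txg_391_sf : Sl3 txg_391 := ⟨_, fun h1 h2 h3 => (pr_subr 107 254 h1)⟩
noncomputable def txg_393_sf : Sl3 txg_393 := ⟨_, fun h1 h2 h3 => (pr_subr 91 200 h1)⟩
noncomputable def txg_395_sf : Sl3 txg_395 := ⟨_, fun h1 h2 h3 => (pr_subr 11 25 h1)⟩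
noncomputable def txg_446_sf : Sl3 txg_446 := ⟨_, fun h1 h2 h3 => (pr_subr 47 100 h1)⟩
noncomputable def txg_sf : Sl3 txg := ⟨_, fun h1 h2 h3 => (pr_case (pr_subr 61 182 h1) (pr_case (txg_26_sf.snd h1 h2 h3) (pr_case (txg_29_sf.snd h1 h2 h3) (pr_case (txg_32_sf.snd h1 h2 h3) (pr_case (txg_35_sf.snd h1 h2 h3) (pr_add (pr_add (pr_addc (pr_scaleT 35239 100000 h1) (enc_rat _ 35239 200000)) (pr_cmul (enc_norm (txg_4.enc h1.l h2.l h3)) (pr_norm (pr_subr 657 8000 (pr_neg (pr_scaleT 657 4000 h1)))))) (pr_cmul (enc_norm (enc_subr 1449 500 (enc_neg (enc_scaleT 9111 200 (txg_4.enc h1.l h2.l h3))))) (pr_norm (pr_mul (pr_norm (pr_addc h1 (enc_rat _ 1 2))) (pr_norm (pr_csub (enc_neg (enc_rat _ 47 100)) h1)))))) (pr_add (pr_add (pr_addc (pr_scaleT 45359 100000 h1) (enc_rat _ 223759 1000000)) (pr_cmul (enc_norm (txg_4.enc h1.l h2.l h3)) (pr_norm (pr_addc (pr_scaleT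 2339 2000 h1) (enc_rat _ 43579 80000))))) (pr_cmul (enc_norm (enc_subr 713 1000 (enc_scaleT 329 200 (txg_4.enc h1.l h2.l h3)))) (pr_norm (pr_mul (pr_norm (txg_35_sf.snd h1 h2 h3)) (pr_norm (pr_csub (enc_neg (enc_rat _ 9 20)) h1))))))) (pr_case (txg_80_sf.snd h1 h2 h3) (pr_add (pr_add (pr_addc (pr_scaleT 5139 12500 h1) (enc_rat _ 81859 400000)) (pr_cmul (enc_norm (txg_4.enc h1.l h2.l h3)) (pr_norm (pr_subr 16337 200000 (pr_neg (pr_scaleT 4451 20000 h1)))))) (pr_cmul (enc_norm (enc_add (enc_scaleT 9061 200 (txg_4.enc h1.l h2.l h3)) (enc_rat _ 1891 1000))) (pr_norm (pr_mul (pr_norm (txg_32_sf.snd h1 h2 h3)) (pr_norm (pr_csub (enc_neg (enc_rat _ 21 50)) h1)))))) (pr_add (pr_add (pr_addc (pr_scaleT 68937 200000 h1) (enc_rat _ 220931 1250000)) (pr_cmul (enc_norm (txg_4.enc h1.l h2.l h3)) (pr_norm (pr_subr 1217071 1000000 (pr_neg (pr_scaleT 58517 20000 h1))))))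 (pr_cmul (enc_norm (enc_add (enc_scaleT 8961 200 (txg_4.enc h1.l h2.l h3)) (enc_rat _ 647 2000))) (pr_norm (pr_mul (pr_norm (txg_80_sf.snd h1 h2 h3)) (pr_norm (pr_csub (enc_neg (enc_rat _ 39 100)) h1)))))))) (pr_case (txg_121_sf.snd h1 h2 h3) (pr_case (txg_124_sf.snd h1 h2 h3) (pr_add (pr_add (pr_addc (pr_scaleT 65613 200000 h1) (enc_rat _ 170263 1000000)) (pr_cmul (enc_norm (txg_4.enc h1.l h2.l h3)) (pr_norm (pr_subr 2134819 1000000 (pr_neg (pr_scaleT 105581 20000 h1)))))) (pr_cmul (enc_norm (enc_add (enc_scaleT 6727 200 (txg_4.enc h1.l h2.l h3)) (enc_rat _ 461 2000))) (pr_norm (pr_mul (pr_norm (txg_29_sf.snd h1 h2 h3)) (pr_norm (pr_csub (enc_neg (enc_rat _ 9 25)) h1)))))) (pr_add (pr_add (pr_addc (pr_scaleT 62847 200000 h1) (enc_rat _ 826421 5000000)) (pr_cmul (enc_norm (txg_4.enc h1.l h2.l h3)) (pr_norm (pr_subr 1955053 1000000 (pr_neg (pr_scaleT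 47797 10000 h1)))))) (pr_cmul (enc_norm (enc_sub (enc_rat _ 461 2000) (enc_scaleT 1257 25 (txg_4.enc h1.l h2.l h3)))) (pr_norm (pr_mul (pr_norm (txg_124_sf.snd h1 h2 h3)) (pr_norm (pr_csub (enc_neg (enc_rat _ 33 100)) h1))))))) (pr_case (txg_165_sf.snd h1 h2 h3) (pr_add (pr_add (pr_addc (pr_scaleT 77379 200000 h1) (enc_rat _ 94631 500000)) (pr_cmul (enc_norm (txg_4.enc h1.l h2.l h3)) (pr_norm (pr_addc (pr_scaleT 33823 20000 h1) (enc_rat _ 72131 400000))))) (pr_cmul (enc_norm (enc_subr 1061 400 (enc_neg (enc_scaleT 33083 200 (txg_4.enc h1.l h2.l h3))))) (pr_norm (pr_mul (pr_norm (txg_121_sf.snd h1 h2 h3)) (pr_norm (pr_csub (enc_neg (enc_rat _ 3 10)) h1)))))) (pr_add (pr_add (pr_addc (pr_scaleT 110889 200000 h1) (enc_rat _ 239527 1000000)) (pr_cmul (enc_norm (txg_4.enc h1.l h2.l h3)) (pr_norm (pr_addc (pr_scaleT 133037 20000 h1) (enc_rat _ 133483 80000)))))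 (pr_cmul (enc_norm (enc_subr 3519 2000 (enc_scaleT 7 200 (txg_4.enc h1.l h2.l h3)))) (pr_norm (pr_mul (pr_norm (txg_165_sf.snd h1 h2 h3)) (pr_norm (pr_csub (enc_neg (enc_rat _ 1 4)) h1))))))))) (pr_case (txg_206_sf.snd h1 h2 h3) (pr_case (txg_209_sf.snd h1 h2 h3) (pr_case (txg_212_sf.snd h1 h2 h3) (pr_add (pr_add (pr_addc (pr_scaleT 128479 200000 h1) (enc_rat _ 523029 2000000)) (pr_cmul (enc_norm (txg_4.enc h1.l h2.l h3)) (pr_norm (pr_addc (pr_scaleT 7557 1250 h1) (enc_rat _ 60679 40000))))) (pr_cmul (enc_norm (enc_add (enc_scaleT 1209 100 (txg_4.enc h1.l h2.l h3)) (enc_rat _ 1 2000))) (pr_norm (pr_mul (pr_norm (txg_26_sf.snd h1 h2 h3)) (pr_norm (pr_csub (enc_neg (enc_rat _ 1 5)) h1)))))) (pr_add (pr_add (pr_addc (pr_scaleT 123579 200000 h1) (enc_rat _ 513229 2000000)) (pr_cmul (enc_norm (txg_4.enc h1.l h2.l h3)) (pr_norm (pr_addc (pr_scaleT 95517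 20000 h1) (enc_rat _ 50521 40000))))) (pr_cmul (enc_norm (enc_add (enc_scaleT 2661 200 (txg_4.enc h1.l h2.l h3)) (enc_rat _ 979 2000))) (pr_norm (pr_mul (pr_norm (txg_212_sf.snd h1 h2 h3)) (pr_norm (pr_csub (enc_neg (enc_rat _ 3 20)) h1))))))) (pr_case (txg_247_sf.snd h1 h2 h3) (pr_add (pr_add (pr_addc (pr_scaleT 101239 200000 h1) (enc_rat _ 479719 2000000)) (pr_cmul (enc_norm (txg_4.enc h1.l h2.l h3)) (pr_norm (pr_addc (pr_scaleT 32731 10000 h1) (enc_rat _ 83009 80000))))) (pr_cmul (enc_norm (enc_add (enc_scaleT 67 4 (txg_4.enc h1.l h2.l h3)) (enc_rat _ 3489 2000))) (pr_norm (pr_mul (pr_norm (txg_209_sf.snd h1 h2 h3)) (pr_norm (pr_csub (enc_neg (enc_rat _ 1 10)) h1)))))) (pr_add (pr_add (pr_addc (pr_scaleT 7187 100000 h1) (enc_rat _ 196427 1000000)) (pr_cmul (enc_norm (txg_4.enc h1.l h2.l h3)) (pr_norm (pr_addc (pr_scaleT 867 1250 h1) (enc_rat _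 62373 80000))))) (pr_cmul (enc_norm (enc_add (enc_scaleT 871 100 (txg_4.enc h1.l h2.l h3)) (enc_rat _ 3471 2000))) (pr_norm (pr_mul (pr_norm (txg_247_sf.snd h1 h2 h3)) (pr_norm (pr_csub (enc_rat _ 1 10) h1)))))))) (pr_case (txg_282_sf.snd h1 h2 h3) (pr_case (txg_283_sf.snd h1 h2 h3) (pr_add (pr_add (pr_csub (enc_rat _ 468589 2000000) (pr_scaleT 61361 200000 h1)) (pr_cmul (enc_norm (txg_4.enc h1.l h2.l h3)) (pr_norm (pr_csub (enc_rat _ 79791 80000) (pr_scaleT 29673 20000 h1))))) (pr_cmul (enc_norm (enc_add (enc_scaleT 1741 200 (txg_4.enc h1.l h2.l h3)) (enc_rat _ 1263 2000))) (pr_norm (pr_mul (pr_norm (txg_206_sf.snd h1 h2 h3)) (pr_norm (pr_csub (enc_rat _ 3 20) h1)))))) (pr_add (pr_add (pr_csub (enc_rat _ 243767 1000000) (pr_scaleT 73991 200000 h1)) (pr_cmul (enc_norm (txg_4.enc h1.l h2.l h3)) (pr_norm (pr_csub (enc_rat _ 91641 80000) (pr_scaleT 49423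 20000 h1))))) (pr_cmul (enc_norm (enc_add (enc_scaleT 2209 200 (txg_4.enc h1.l h2.l h3)) (enc_rat _ 1263 2000))) (pr_norm (pr_mul (pr_norm (txg_283_sf.snd h1 h2 h3)) (pr_norm (pr_csub (enc_rat _ 1 5) h1))))))) (pr_case (txg_320_sf.snd h1 h2 h3) (pr_add (pr_add (pr_csub (enc_rat _ 255427 1000000) (pr_scaleT 85651 200000 h1)) (pr_cmul (enc_norm (txg_4.enc h1.l h2.l h3)) (pr_norm (pr_csub (enc_rat _ 109309 80000) (pr_scaleT 17877 5000 h1))))) (pr_cmul (enc_norm (enc_add (enc_scaleT 276 25 (txg_4.enc h1.l h2.l h3)) (enc_rat _ 1069 2000))) (pr_norm (pr_mul (pr_norm (txg_282_sf.snd h1 h2 h3)) (pr_norm (pr_csub (enc_rat _ 1 4) h1)))))) (pr_case (txg_339_sf.snd h1 h2 h3) (pr_add (pr_add (pr_csub (enc_rat _ 1048433 4000000) (pr_scaleT 22749 50000 h1)) (pr_cmul (enc_norm (txg_4.enc h1.l h2.l h3)) (pr_norm (pr_csub (enc_rat _ 65687 40000) (pr_scaleT 93573 20000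 h1))))) (pr_cmul (enc_norm (enc_scaleT 441 40 (txg_4.enc h1.l h2.l h3))) (pr_norm (pr_mul (pr_norm (txg_320_sf.snd h1 h2 h3)) (pr_norm (pr_csub (enc_rat _ 3 10) h1)))))) (pr_add (pr_add (pr_add (pr_csub (enc_rat _ 272863758361 1040000000000) (pr_scaleT 47408312787 104000000000 h1)) (pr_cmul (enc_norm (txg_4.enc h1.l h2.l h3)) (pr_norm (pr_csub (enc_rat _ 652390381 650000000) (pr_scaleT 165771127 65000000 h1))))) (pr_cmul (txg_370.enc h1.l h2.l h3) (pr_norm (pr_csub (enc_rat _ 85694721 25000000) (pr_scaleT 28564907 2500000 h1))))) (pr_cmul (enc_norm (enc_add (enc_mul (enc_norm (enc_subr 381 5 (enc_scaleT 32493 100 (txg_4.enc h1.l h2.l h3)))) (enc_norm (txg_4.enc h1.l h2.l h3))) (enc_rat _ 247 10000))) (pr_norm (pr_mul (pr_norm (txg_339_sf.snd h1 h2 h3)) (pr_norm (pr_csub (enc_rat _ 61 182) h1))))))))))) (pr_case (txg_391_sf.snd h1 h2 h3) (pr_sub (pr_mul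 (pr_norm (pr_csub (enc_pnc _ 1) h2)) (pr_norm (pr_subn 1 (pr_nat 2 h2)))) (pr_mul (pr_norm (pr_nat 2 (pr_subc (pr_scaleT 4 3 (txg_6_sf.snd h1 h2 h3)) h3))) (pr_norm (pr_mul (pr_norm (pr_subn 1 (pr_add (pr_scaleT 2 3 (txg_6_sf.snd h1 h2 h3)) h2))) (kcg_sf.snd h1 h3))))) (pr_case (txg_393_sf.snd h1 h2 h3) (pr_case (txg_395_sf.snd h1 h2 h3) (pr_add (pr_add (pr_add (pr_csub (enc_rat _ 1025360737249 2806700000000) (pr_scaleT 81465194731 112268000000 h1)) (pr_cmul (enc_norm (txg_4.enc h1.l h2.l h3)) (pr_norm (pr_csub (enc_rat _ 153594722053 175418750000) (pr_scaleT 100906997219 56134000000 h1))))) (pr_cmul (txg_370.enc h1.l h2.l h3) (pr_norm (pr_csub (enc_rat _ 125435277 297500000) (pr_scaleT 11403207 11900000 h1))))) (pr_cmul (enc_norm (enc_add (enc_mul (enc_norm (enc_sub (enc_rat _ 22969 1000) (enc_scaleT 5113 100 (txg_4.enc h1.l h2.l h3)))) (enc_norm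 (txg_4.enc h1.l h2.l h3))) (enc_rat _ 22339 10000))) (pr_norm (pr_mul (pr_norm (txg_391_sf.snd h1 h2 h3)) (pr_norm (pr_csub (enc_rat _ 11 25) h1)))))) (pr_add (pr_add (pr_csub (enc_rat _ 3615193 9375000) (pr_scaleT 1157633 1500000 h1)) (pr_cmul (enc_norm (txg_4.enc h1.l h2.l h3)) (pr_norm (pr_csub (enc_rat _ 10131729 10000000) (pr_scaleT 21103 10000 h1))))) (pr_cmul (enc_norm (enc_sub (enc_rat _ 71 250) (enc_scaleT 157 20 (txg_4.enc h1.l h2.l h3)))) (pr_norm (pr_mul (pr_norm (txg_395_sf.snd h1 h2 h3)) (pr_norm (pr_csub (enc_rat _ 91 200) h1))))))) (pr_case (txg_446_sf.snd h1 h2 h3) (pr_add (pr_add (pr_csub (enc_rat _ 58378987 150000000) (pr_scaleT 1169411 1500000 h1)) (pr_cmul (enc_norm (txg_4.enc h1.l h2.l h3)) (pr_norm (pr_csub (enc_rat _ 26999431 30000000) (pr_scaleT 279229 150000 h1))))) (pr_cmul (enc_norm (enc_sub (enc_rat _ 479 2000) (enc_scaleT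 1747 200 (txg_4.enc h1.l h2.l h3)))) (pr_norm (pr_mul (pr_norm (txg_393_sf.snd h1 h2 h3)) (pr_norm (pr_csub (enc_rat _ 47 100) h1)))))) (pr_add (pr_add (pr_csub (enc_rat _ 37963 100000) (pr_scaleT 37963 50000 h1)) (pr_cmul (enc_norm (txg_4.enc h1.l h2.l h3)) (pr_norm (pr_csub (enc_rat _ 16709 40000) (pr_scaleT 16709 20000 h1))))) (pr_cmul (enc_norm (enc_subr 399 500 (enc_neg (enc_scaleT 5967 200 (txg_4.enc h1.l h2.l h3))))) (pr_norm (pr_mul (pr_norm (txg_446_sf.snd h1 h2 h3)) (pr_norm (pr_csub (enc_rat _ 1 2) h1))))))))))⟩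
noncomputable def l0q0_sf : Sl2 l0q0 := ⟨_, fun h1 h2 => (pr_norm (txg_sf.snd (pr_norm (pr_sub (pr_scaleT 3 4 h1) (pr_half (c1g_sf.snd h1)))) (pr_nd (c1g_sf.snd h1)) h2))⟩
noncomputable def swg_sf : Sl1 swg := ⟨_, fun h1 => (pr_sqrt (pr_csub (enc_pnc _ 1) (pr_scaleT 3 4 (pr_sq (pr_norm (pr_subn 1 h1))))))⟩
noncomputable def cv1m_sf : Sl1 cv1m := ⟨_, fun h1 => (pr_norm (pr_add (pr_scaleT 11 20 (c1g_sf.snd h1)) (pr_scaleT 9 20 (pr_addc (swg_sf.snd h1) (enc_rat _ 1 2)))))⟩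
noncomputable def bf1q0_sf : Sl2 bf1q0 := ⟨_, fun h1 h2 => (pr_norm (pr_case (pr_subr 7 250 h1) (pr_add (pr_csub (enc_pnc _ 1) (pr_scaleT 533 280 h1)) (pr_cmul (enc_norm (bf1q0_3.enc h1.l h2)) (pr_nd (pr_scaleT 507 20 h1)))) (pr_add (pr_csub (enc_rat _ 2403241 2360000) (pr_scaleT 24147 9440 h1)) (pr_cmul (enc_norm (bf1q0_3.enc h1.l h2)) (pr_norm (pr_csub (enc_rat _ 1518923 1180000) (pr_scaleT 97337 4720 h1)))))))⟩
noncomputable def kf1q0_sf : Sl2 kf1q0 := ⟨_, fun h1 h2 => (pr_norm (pr_mul (cv1m_sf.snd h1) (bf1q0_sf.snd h1 h2)))⟩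
noncomputable def bx1q0_36_sf : Sl2 bx1q0_36 := ⟨_, fun h1 h2 => (pr_scaleT 311 2800 h1)⟩
noncomputable def bx1q0_51_sf : Sl2 bx1q0_51 := ⟨_, fun h1 h2 => (pr_scaleT 621 5600 h1)⟩
noncomputable def bx1q0_54_sf : Sl2 bx1q0_54 := ⟨_, fun h1 h2 => (pr_scaleT 11 28 h1)⟩
noncomputable def bx1q0_58_sf : Sl2 bx1q0_58 := ⟨_, fun h1 h2 => (pr_cmul (enc_norm (bx1q0_3.enc h1.l h2)) (pr_norm (pr_csub (enc_rat _ 823 2800) (bx1q0_54_sf.snd h1 h2))))⟩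
noncomputable def bx1q0_sf : Sl2 bx1q0 := ⟨_, fun h1 h2 => (pr_norm (pr_case (pr_subr 11 50 h1) (pr_case (pr_subr 3 25 h1) (pr_case (pr_subr 7 250 h1) (pr_add (pr_scaleT 209 350 h1) (pr_cmul (enc_norm (bx1q0_3.enc h1.l h2)) (pr_nd (pr_scaleT 183 140 h1)))) (pr_add (pr_addc (pr_scaleT 607 1150 h1) (enc_rat _ 279 143750)) (pr_cmul (enc_norm (bx1q0_3.enc h1.l h2)) (pr_norm (pr_subr 1567 57500 (pr_scaleT 1049 460 h1)))))) (pr_case (pr_subr 41 250 h1) (pr_add (pr_addc (pr_scaleT 489 4400 h1) (enc_rat _ 28569 550000)) (pr_cmul (enc_norm (bx1q0_3.enc h1.l h2)) (pr_norm (pr_csub (enc_rat _ 16117 55000) (pr_scaleT 171 440 h1))))) (pr_add (pr_addc (bx1q0_36_sf.snd h1 h2) (enc_rat _ 2273 43750)) (pr_cmul (enc_norm (bx1q0_3.enc h1.l h2)) (pr_norm (pr_csub (enc_rat _ 513 1750) (pr_scaleT 109 280 h1))))))) (pr_case (pr_subr 97 250 h1) (pr_case (pr_subr 69 250 h1)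 (pr_add (pr_addc (bx1q0_51_sf.snd h1 h2) (enc_rat _ 72791 1400000)) (bx1q0_58_sf.snd h1 h2)) (pr_add (pr_addc (bx1q0_36_sf.snd h1 h2) (enc_rat _ 36361 700000)) (bx1q0_58_sf.snd h1 h2))) (pr_case (pr_subr 111 250 h1) (pr_add (pr_addc (bx1q0_51_sf.snd h1 h2) (enc_rat _ 72819 1400000)) (pr_cmul (enc_norm (bx1q0_3.enc h1.l h2)) (pr_norm (pr_csub (enc_rat _ 41247 140000) (pr_scaleT 221 560 h1))))) (pr_add (pr_addc (bx1q0_36_sf.snd h1 h2) (enc_rat _ 18177 350000)) (pr_cmul (enc_norm (bx1q0_3.enc h1.l h2)) (pr_norm (pr_csub (enc_rat _ 2571 8750) (bx1q0_54_sf.snd h1 h2)))))))))⟩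
noncomputable def l1q0_sf : Sl2 l1q0 := ⟨_, fun h1 h2 => (pr_norm (pr_mul (cv1m_sf.snd h1) (bx1q0_sf.snd h1 h2)))⟩
noncomputable def kf0q1_10_sf : Sl2 kf0q1_10 := ⟨_, fun h1 h2 => (pr_scaleT 3 2 h1)⟩
noncomputable def kf0q1_sf : Sl2 kf0q1 := ⟨_, fun h1 h2 => (pr_norm (pr_add (pr_mul (pr_norm (pr_mul (pr_norm (pr_cadd (enc_pnc _ 1) (pr_nat 2 (c1g_sf.snd h1)))) (pr_norm (pr_sub (kf0q1_10_sf.snd h1 h2) (c1g_sf.snd h1))))) (pr_nd (pr_inv (pr_nat 2 (pr_sub (pr_cadd (enc_pnc _ 1) (kf0q1_10_sf.snd h1 h2)) (c1g_sf.snd h1)))))) (pr_mul (pr_norm (pr_subn 1 h1)) (kcg_sf.snd (pr_norm (pr_sub (pr_scaleT 3 4 h1) (pr_half (c1g_sf.snd h1)))) h2))))⟩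
noncomputable def l0q1_sf : Sl2 l0q1 := ⟨_, fun h1 h2 => (pr_norm (txg_sf.snd (pr_norm (pr_sub (pr_scaleT 3 4 h1) (pr_half (c1g_sf.snd h1)))) (pr_nd (c1g_sf.snd h1)) h2))⟩
noncomputable def cv1p_sf : Sl1 cv1p := ⟨_, fun h1 => (pr_norm (pr_add (pr_scaleT 11 20 (c1g_sf.snd h1)) (pr_scaleT 9 20 (pr_subr 1 2 (swg_sf.snd h1)))))⟩
noncomputable def bf1q2_15_sf : Sl2 bf1q2_15 := ⟨_, fun h1 h2 => (pr_add (pr_csub (enc_rat _ 69883 20000) (pr_scaleT 49883 20000 h1)) (pr_cmul (enc_norm (bf1q2_3.enc h1.l h2)) (pr_norm (pr_csub (enc_rat _ 549793 10000) (pr_scaleT 549793 10000 h1)))))⟩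
noncomputable def bf1q2_sf : Sl2 bf1q2 := ⟨_, fun h1 h2 => (pr_norm (pr_case (pr_subr 577 500 h1) (bf1q2_15_sf.snd h1 h2) (pr_case (pr_subr 231 200 h1) (bf1q2_15_sf.snd h1 h2) (pr_add (pr_csub (enc_rat _ 16073013 4600000) (pr_scaleT 3441907 1380000 h1)) (pr_cmul (enc_norm (bf1q2_3.enc h1.l h2)) (pr_norm (pr_csub (enc_rat _ 5058111 92000) (pr_scaleT 37935817 690000 h1))))))))⟩
noncomputable def kf1q2_sf : Sl2 kf1q2 := ⟨_, fun h1 h2 => (pr_norm (pr_mul (cv1p_sf.snd h1) (bf1q2_sf.snd h1 h2)))⟩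
noncomputable def bx1q2_sf : Sl2 bx1q2 := ⟨_, fun h1 h2 => (pr_norm (pr_case (pr_subr 577 500 h1) (pr_case (pr_subr 17 16 h1) (pr_add (pr_csub (enc_rat _ 2044 3125) (pr_scaleT 2044 3125 h1)) (pr_cmul (enc_norm (bx1q2_3.enc h1.l h2)) (pr_norm (pr_csub (enc_rat _ 5636 625) (pr_scaleT 5636 625 h1))))) (pr_add (pr_csub (enc_rat _ 10554823 9150000) (pr_scaleT 5143 4575 h1)) (pr_cmul (enc_norm (bx1q2_3.enc h1.l h2)) (pr_norm (pr_csub (enc_rat _ 1029382 114375) (pr_scaleT 8236 915 h1)))))) (pr_casec1 (pr_subr 231 200 h1) (enc_sub (enc_neg (enc_rat _ 7187 50000)) (enc_scaleT 867 625 (bx1q2_3.enc h1.l h2))) (pr_add (pr_subr 1033177 575000 (pr_scaleT 24689 17250 h1)) (pr_cmul (enc_norm (bx1q2_3.enc h1.l h2)) (pr_norm (pr_subr 798089 115000 (pr_scaleT 8293 1725 h1))))))))⟩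
noncomputable def l1q2_sf : Sl2 l1q2 := ⟨_, fun h1 h2 => (pr_norm (pr_mul (cv1p_sf.snd h1) (bx1q2_sf.snd h1 h2)))⟩
noncomputable def dlg : Fn2 := ⟨_, _, fun h1 h2 => (kcg.enc (enc_norm (enc_sub (enc_scaleT 3 4 h1) (enc_half (c1g.enc h1)))) h2)⟩
noncomputable def kq02_6 : Fn2 := ⟨_, _, fun h1 h2 => (enc_scaleT 549793 10000 h2)⟩
noncomputable def kq02 : Fn2 := ⟨_, _, fun h1 h2 => (enc_norm (enc_add (enc_subr 121216151 2600000 (kq02_6.enc h1 h2)) (enc_mul (enc_norm (enc_sub (enc_rat _ 123816151 2600000) (kq02_6.enc h1 h2))) (yag.enc h1))))⟩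
noncomputable def lq02 : Fn2 := ⟨_, _, fun h1 h2 => (enc_norm (enc_sub (enc_rat _ 145697 130000) (enc_scaleT 867 625 h2)))⟩
noncomputable def cq02 : Fn2 := ⟨_, _, fun h1 h2 => (enc_pnc _ 0)⟩
noncomputable def pcE0 : Piece := ⟨Fn3.sc eng rsbq0, rlq0⟩
noncomputable def pcE1 : Piece := ⟨Fn3.sc eng rsbq1, rlq1⟩
noncomputable def pcE2 : Piece := ⟨Fn3.sc eng rsbq2, rlq2⟩
noncomputable def pcE3 : Piece := ⟨Fn3.sc eng rsbq3, rlq3⟩

end Pool.Agent.Strip051.G.I9000_9231.Tab
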