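import Pool.Agent.Strip051.G.I9000_9231.Tab
import Pool.Agent.Strip051.PB.C12G
import Pool.Agent.Strip051.PB.PairT
import Pool.Agent.Strip051.PB.PairB

/-! # Slopes of the tables near the lattice heights (generated) -/

set_option linter.all false

namespace Pool.Agent.Strip051.G.I9000_9231.Tab

open Pool.Agent.Strip051.PB

attribute [local irreducible] padd psub pneg pmul psq pinv psqrt psqrtg pabs pps pmax pmin pphi plam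
  pcase phf pnat prat pscale pnorm pdc pnc pone ppos pnn Enc pbad pzero

noncomputable def idf_s : Sl1 idf := ⟨fun _ _ D => D, fun h => h⟩

theorem cv1r_two {b : ℝ} (h : b = 2) : cv1r.v b = 0 := by
  have e : swg.v = swn := by funext y; simp [swg, swn]
  subst h
  simp only [cv1r, e, swn_two]
  push_cast
  ring
noncomputable def c1g_s : Sl1 c1g := ⟨_, fun h1 => (pr_sqrtgz (pr_csub (enc_pnc _ 1) (pr_scaleT 3 4 (pr_sq h1))))⟩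
noncomputable def kcg_6_s : Sl2 kcg_6 := ⟨_, fun h1 h2 => (pr_addc h1 (enc_rat _ 31 100))⟩
noncomputable def kcg_9_s : Sl2 kcg_9 := ⟨_, fun h1 h2 => (pr_addc h1 (enc_rat _ 9 20))⟩
noncomputable def kcg_12_s : Sl2 kcg_12 := ⟨_, fun h1 h2 => (pr_addc h1 (enc_rat _ 93 200))⟩
noncomputable def kcg_13_s : Sl2 kcg_13 := ⟨_, fun h1 h2 => (pr_scaleT 45198779 7000000 h1)⟩
noncomputable def kcg_18_s : Sl2 kcg_18 := ⟨_, fun h1 h2 => (pr_scaleT 270728379 3500000 h1)⟩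
noncomputable def kcg_35_s : Sl2 kcg_35 := ⟨_, fun h1 h2 => (pr_scaleT 6342621 2500000 h1)⟩
noncomputable def kcg_40_s : Sl2 kcg_40 := ⟨_, fun h1 h2 => (pr_scaleT 31588223 1500000 h1)⟩
noncomputable def kcg_57_s : Sl2 kcg_57 := ⟨_, fun h1 h2 => (pr_addc h1 (enc_rat _ 107 254))⟩
noncomputable def kcg_58_s : Sl2 kcg_58 := ⟨_, fun h1 h2 => (pr_scaleT 3068750657 3650000000 h1)⟩
noncomputable def kcg_62_s : Sl2 kcg_62 := ⟨_, fun h1 h2 => (pr_scaleT 14138962451 365000000 h1)⟩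
noncomputable def kcg_78_s : Sl2 kcg_78 := ⟨_, fun h1 h2 => (pr_addc h1 (enc_rat _ 61 182))⟩
noncomputable def kcg_79_s : Sl2 kcg_79 := ⟨_, fun h1 h2 => (pr_scaleT 3902874748591 995000000000 h1)⟩
noncomputable def kcg_82_s : Sl2 kcg_82 := ⟨_, fun h1 h2 => (pr_scaleT 2860641813757 99500000000 h1)⟩
noncomputable def kcg_96_s : Sl2 kcg_96 := ⟨_, fun h1 h2 => (pr_scaleT 75842039 17890625 h1)⟩
noncomputable def kcg_99_s : Sl2 kcg_99 := ⟨_, fun h1 h2 => (pr_scaleT 6321215173 114500000 h1)⟩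
noncomputable def kcg_119_s : Sl2 kcg_119 := ⟨_, fun h1 h2 => (pr_addc h1 (enc_rat _ 6 25))⟩
noncomputable def kcg_122_s : Sl2 kcg_122 := ⟨_, fun h1 h2 => (pr_addc h1 (enc_rat _ 7 25))⟩
noncomputable def kcg_123_s : Sl2 kcg_123 := ⟨_, fun h1 h2 => (pr_scaleT 145363 40000 h1)⟩
noncomputable def kcg_126_s : Sl2 kcg_126 := ⟨_, fun h1 h2 => (pr_scaleT 44167 800 h1)⟩
noncomputable def kcg_140_s : Sl2 kcg_140 := ⟨_, fun h1 h2 => (pr_scaleT 286621 100000 h1)⟩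
noncomputable def kcg_143_s : Sl2 kcg_143 := ⟨_, fun h1 h2 => (pr_scaleT 110419 2000 h1)⟩
noncomputable def kcg_157_s : Sl2 kcg_157 := ⟨_, fun h1 h2 => (pr_addc h1 (enc_rat _ 4 25))⟩
noncomputable def kcg_158_s : Sl2 kcg_158 := ⟨_, fun h1 h2 => (pr_scaleT 242743 100000 h1)⟩
noncomputable def kcg_162_s : Sl2 kcg_162 := ⟨_, fun h1 h2 => (pr_scaleT 364823 10000 h1)⟩
noncomputable def kcg_181_s : Sl2 kcg_181 := ⟨_, fun h1 h2 => (pr_scaleT 246079 100000 h1)⟩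
noncomputable def kcg_185_s : Sl2 kcg_185 := ⟨_, fun h1 h2 => (pr_scaleT 186121 10000 h1)⟩
noncomputable def kcg_202_s : Sl2 kcg_202 := ⟨_, fun h1 h2 => (pr_scaleT 49883 20000 h1)⟩
noncomputable def kcg_205_s : Sl2 kcg_205 := ⟨_, fun h1 h2 => (pr_cmul (enc_norm (kcg_3.enc h1.l h2)) (pr_nd (pr_scaleT 549793 10000 h1)))⟩
noncomputable def kcg_212_s : Sl2 kcg_212 := ⟨_, fun h1 h2 => (pr_csub (enc_rat _ 31 100) h1)⟩
noncomputable def kcg_213_s : Sl2 kcg_213 := ⟨_, fun h1 h2 => (pr_csub (enc_rat _ 9 20) h1)⟩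
noncomputable def kcg_214_s : Sl2 kcg_214 := ⟨_, fun h1 h2 => (pr_csub (enc_rat _ 93 200) h1)⟩
noncomputable def kcg_235_s : Sl2 kcg_235 := ⟨_, fun h1 h2 => (pr_csub (enc_rat _ 107 254) h1)⟩
noncomputable def kcg_246_s : Sl2 kcg_246 := ⟨_, fun h1 h2 => (pr_csub (enc_rat _ 61 182) h1)⟩
noncomputable def kcg_269_s : Sl2 kcg_269 := ⟨_, fun h1 h2 => (pr_csub (enc_rat _ 6 25) h1)⟩
noncomputable def kcg_270_s : Sl2 kcg_270 := ⟨_, fun h1 h2 => (pr_csub (enc_rat _ 7 25) h1)⟩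
noncomputable def kcg_290_s : Sl2 kcg_290 := ⟨_, fun h1 h2 => (pr_csub (enc_rat _ 4 25) h1)⟩
noncomputable def kcg_s : Sl2 kcg := ⟨_, fun h1 h2 => (pr_norm (pr_case h1 (pr_case (kcg_6_s.snd h1 h2) (pr_case (kcg_9_s.snd h1 h2) (pr_case (kcg_12_s.snd h1 h2) (pr_add (pr_add (pr_subr 5946141193 1400000000 (pr_neg (kcg_13_s.snd h1 h2))) (pr_cmul (enc_norm (kcg_3.enc h1.l h2)) (pr_norm (pr_addc (kcg_18_s.snd h1 h2) (enc_rat _ 1202213569 35000000))))) (pr_cmul (enc_norm (kcg_27.enc h1.l h2)) (pr_norm (pr_mul (pr_norm (pr_addc h1 (enc_rat _ 1 2))) (pr_norm (pr_csub (enc_neg (enc_rat _ 93 200)) h1)))))) (pr_add (pr_add (pr_subr 18941257 7812500 (pr_neg (kcg_35_s.snd h1 h2))) (pr_cmul (enc_norm (kcg_3.enc h1.l h2)) (pr_norm (pr_addc (kcg_40_s.snd h1 h2) (enc_rat _ 204327733 25000000))))) (pr_cmul (enc_norm (kcg_49.enc h1.l h2)) (pr_norm (pr_mul (pr_norm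 (kcg_12_s.snd h1 h2)) (pr_norm (pr_csub (enc_neg (enc_rat _ 9 20)) h1))))))) (pr_case (kcg_57_s.snd h1 h2) (pr_add (pr_add (pr_subr 13205261911 14600000000 (kcg_58_s.snd h1 h2)) (pr_cmul (enc_norm (kcg_3.enc h1.l h2)) (pr_norm (pr_addc (kcg_62_s.snd h1 h2) (enc_rat _ 4709446069 292000000))))) (pr_cmul (enc_norm (kcg_71.enc h1.l h2)) (pr_norm (pr_mul (pr_norm (kcg_9_s.snd h1 h2)) (pr_norm (pr_csub (enc_neg (enc_rat _ 107 254)) h1)))))) (pr_case (kcg_78_s.snd h1 h2) (pr_add (pr_add (pr_addc (kcg_79_s.snd h1 h2) (enc_rat _ 783543811181 1990000000000)) (pr_cmul (enc_norm (kcg_3.enc h1.l h2)) (pr_norm (pr_addc (kcg_82_s.snd h1 h2) (enc_rat _ 2372326403387 199000000000))))) (pr_cmul (enc_norm (kcg_91.enc h1.l h2)) (pr_norm (pr_mul (pr_norm (kcg_57_s.snd h1 h2)) (pr_norm (pr_csub (enc_neg (enc_rat _ 61 182)) h1)))))) (pr_add (pr_add (pr_addc (kcg_96_s.snd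 h1 h2) (enc_rat _ 57237806751 114500000000)) (pr_cmul (enc_norm (kcg_3.enc h1.l h2)) (pr_norm (pr_subr 92849724669 5725000000 (pr_neg (kcg_99_s.snd h1 h2)))))) (pr_cmul (enc_norm (kcg_109.enc h1.l h2)) (pr_norm (pr_mul (pr_norm (kcg_78_s.snd h1 h2)) (pr_norm (pr_csub (enc_neg (enc_rat _ 31 100)) h1))))))))) (pr_case (kcg_119_s.snd h1 h2) (pr_case (kcg_122_s.snd h1 h2) (pr_add (pr_add (pr_addc (kcg_123_s.snd h1 h2) (enc_rat _ 312303 1000000)) (pr_cmul (enc_norm (kcg_3.enc h1.l h2)) (pr_norm (pr_subr 8109399 500000 (pr_neg (kcg_126_s.snd h1 h2)))))) (pr_cmul (enc_norm (kcg_135.enc h1.l h2)) (pr_norm (pr_mul (pr_norm (kcg_6_s.snd h1 h2)) (pr_norm (pr_csub (enc_neg (enc_rat _ 7 25)) h1)))))) (pr_add (pr_add (pr_addc (kcg_140_s.snd h1 h2) (enc_rat _ 60813 625000)) (pr_cmul (enc_norm (kcg_3.enc h1.l h2)) (pr_norm (pr_subr 253422 15625 (pr_neg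 (kcg_143_s.snd h1 h2)))))) (pr_scaleT 21939 2000 (pr_mul (pr_norm (kcg_122_s.snd h1 h2)) (pr_norm (pr_csub (enc_neg (enc_rat _ 6 25)) h1)))))) (pr_case (kcg_157_s.snd h1 h2) (pr_sub (pr_add (pr_subr 1251 156250 (kcg_158_s.snd h1 h2)) (pr_cmul (enc_norm (kcg_3.enc h1.l h2)) (pr_norm (pr_subr 36639 3125 (pr_neg (kcg_162_s.snd h1 h2)))))) (pr_cmul (enc_norm (kcg_171.enc h1.l h2)) (pr_norm (pr_mul (pr_norm (kcg_119_s.snd h1 h2)) (pr_norm (pr_csub (enc_neg (enc_rat _ 4 25)) h1)))))) (pr_case (pr_addc h1 (enc_rat _ 2 25)) (pr_add (pr_add (pr_subr 417 156250 (kcg_181_s.snd h1 h2)) (pr_cmul (enc_norm (kcg_3.enc h1.l h2)) (pr_norm (pr_subr 45459 15625 (kcg_185_s.snd h1 h2))))) (pr_cmul (enc_norm (kcg_197.enc h1.l h2)) (pr_norm (pr_mul (pr_norm (kcg_157_s.snd h1 h2)) (pr_norm (pr_csub (enc_neg (enc_rat _ 2 25)) h1)))))) (pr_add (kcg_202_s.snd h1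 h2) (kcg_205_s.snd h1 h2)))))) (pr_neg (pr_case (kcg_212_s.snd h1 h2) (pr_case (kcg_213_s.snd h1 h2) (pr_case (kcg_214_s.snd h1 h2) (pr_add (pr_add (pr_subr 5946141193 1400000000 (kcg_13_s.snd h1 h2)) (pr_cmul (enc_norm (kcg_3.enc h1.l h2)) (pr_norm (pr_csub (enc_rat _ 1202213569 35000000) (kcg_18_s.snd h1 h2))))) (pr_cmul (enc_norm (kcg_27.enc h1.l h2)) (pr_norm (pr_mul (pr_norm (pr_csub (enc_rat _ 1 2) h1)) (pr_norm (pr_subr 93 200 h1)))))) (pr_add (pr_add (pr_subr 18941257 7812500 (kcg_35_s.snd h1 h2)) (pr_cmul (enc_norm (kcg_3.enc h1.l h2)) (pr_norm (pr_csub (enc_rat _ 204327733 25000000) (kcg_40_s.snd h1 h2))))) (pr_cmul (enc_norm (kcg_49.enc h1.l h2)) (pr_norm (pr_mul (pr_norm (kcg_214_s.snd h1 h2)) (pr_norm (pr_subr 9 20 h1))))))) (pr_case (kcg_235_s.snd h1 h2) (pr_add (pr_add (pr_subr 13205261911 14600000000 (pr_neg (kcg_58_s.snd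 h1 h2))) (pr_cmul (enc_norm (kcg_3.enc h1.l h2)) (pr_norm (pr_csub (enc_rat _ 4709446069 292000000) (kcg_62_s.snd h1 h2))))) (pr_cmul (enc_norm (kcg_71.enc h1.l h2)) (pr_norm (pr_mul (pr_norm (kcg_213_s.snd h1 h2)) (pr_norm (pr_subr 107 254 h1)))))) (pr_case (kcg_246_s.snd h1 h2) (pr_add (pr_add (pr_csub (enc_rat _ 783543811181 1990000000000) (kcg_79_s.snd h1 h2)) (pr_cmul (enc_norm (kcg_3.enc h1.l h2)) (pr_norm (pr_csub (enc_rat _ 2372326403387 199000000000) (kcg_82_s.snd h1 h2))))) (pr_cmul (enc_norm (kcg_91.enc h1.l h2)) (pr_norm (pr_mul (pr_norm (kcg_235_s.snd h1 h2)) (pr_norm (pr_subr 61 182 h1)))))) (pr_add (pr_add (pr_csub (enc_rat _ 57237806751 114500000000) (kcg_96_s.snd h1 h2)) (pr_cmul (enc_norm (kcg_3.enc h1.l h2)) (pr_norm (pr_subr 92849724669 5725000000 (kcg_99_s.snd h1 h2))))) (pr_cmul (enc_norm (kcg_109.enc h1.l h2)) (pr_norm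 (pr_mul (pr_norm (kcg_246_s.snd h1 h2)) (pr_norm (pr_subr 31 100 h1))))))))) (pr_case (kcg_269_s.snd h1 h2) (pr_case (kcg_270_s.snd h1 h2) (pr_add (pr_add (pr_csub (enc_rat _ 312303 1000000) (kcg_123_s.snd h1 h2)) (pr_cmul (enc_norm (kcg_3.enc h1.l h2)) (pr_norm (pr_subr 8109399 500000 (kcg_126_s.snd h1 h2))))) (pr_cmul (enc_norm (kcg_135.enc h1.l h2)) (pr_norm (pr_mul (pr_norm (kcg_212_s.snd h1 h2)) (pr_norm (pr_subr 7 25 h1)))))) (pr_add (pr_add (pr_csub (enc_rat _ 60813 625000) (kcg_140_s.snd h1 h2)) (pr_cmul (enc_norm (kcg_3.enc h1.l h2)) (pr_norm (pr_subr 253422 15625 (kcg_143_s.snd h1 h2))))) (pr_scaleT 21939 2000 (pr_mul (pr_norm (kcg_270_s.snd h1 h2)) (pr_norm (pr_subr 6 25 h1)))))) (pr_case (kcg_290_s.snd h1 h2) (pr_sub (pr_add (pr_subr 1251 156250 (pr_neg (kcg_158_s.snd h1 h2))) (pr_cmul (enc_norm (kcg_3.enc h1.l h2)) (pr_norm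 (pr_subr 36639 3125 (kcg_162_s.snd h1 h2))))) (pr_cmul (enc_norm (kcg_171.enc h1.l h2)) (pr_norm (pr_mul (pr_norm (kcg_269_s.snd h1 h2)) (pr_norm (pr_subr 4 25 h1)))))) (pr_case (pr_csub (enc_rat _ 2 25) h1) (pr_add (pr_add (pr_subr 417 156250 (pr_neg (kcg_181_s.snd h1 h2))) (pr_cmul (enc_norm (kcg_3.enc h1.l h2)) (pr_norm (pr_subr 45459 15625 (pr_neg (kcg_185_s.snd h1 h2)))))) (pr_cmul (enc_norm (kcg_197.enc h1.l h2)) (pr_norm (pr_mul (pr_norm (kcg_290_s.snd h1 h2)) (pr_norm (pr_subr 2 25 h1)))))) (pr_sub (pr_neg (kcg_202_s.snd h1 h2)) (kcg_205_s.snd h1 h2)))))))))⟩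
noncomputable def kf0q0_9_s : Sl2 kf0q0_9 := ⟨_, fun h1 h2 => (pr_scaleT 3 2 h1)⟩
noncomputable def kf0q0_12_s : Sl2 kf0q0_12 := ⟨_, fun h1 h2 => (pr_cadd (enc_pnc _ 1) (c1g_s.snd h1))⟩
noncomputable def kf0q0_s : Sl2 kf0q0 := ⟨_, fun h1 h2 => (pr_norm (pr_add (pr_mul (pr_norm (pr_mul (pr_norm (pr_sub (c1g_s.snd h1) (kf0q0_9_s.snd h1 h2))) (pr_norm (kf0q0_12_s.snd h1 h2)))) (pr_nd (pr_inv (pr_sub (kf0q0_12_s.snd h1 h2) (kf0q0_9_s.snd h1 h2))))) (pr_mul h1 (kcg_s.snd (pr_norm (pr_sub (pr_scaleT 3 4 h1) (pr_half (c1g_s.snd h1)))) h2))))⟩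
noncomputable def txg_6_s : Sl3 txg_6 := ⟨_, fun h1 h2 h3 => (pr_add h1 (pr_half h2))⟩
noncomputable def txg_26_s : Sl3 txg_26 := ⟨_, fun h1 h2 h3 => (pr_addc h1 (enc_rat _ 1 4))⟩
noncomputable def txg_29_s : Sl3 txg_29 := ⟨_, fun h1 h2 h3 => (pr_addc h1 (enc_rat _ 39 100))⟩
noncomputable def txg_32_s : Sl3 txg_32 := ⟨_, fun h1 h2 h3 => (pr_addc h1 (enc_rat _ 9 20))⟩
noncomputable def txg_35_s : Sl3 txg_35 := ⟨_, fun h1 h2 h3 => (pr_addc h1 (enc_rat _ 47 100))⟩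
noncomputable def txg_80_s : Sl3 txg_80 := ⟨_, fun h1 h2 h3 => (pr_addc h1 (enc_rat _ 21 50))⟩
noncomputable def txg_121_s : Sl3 txg_121 := ⟨_, fun h1 h2 h3 => (pr_addc h1 (enc_rat _ 33 100))⟩
noncomputable def txg_124_s : Sl3 txg_124 := ⟨_, fun h1 h2 h3 => (pr_addc h1 (enc_rat _ 9 25))⟩
noncomputable def txg_165_s : Sl3 txg_165 := ⟨_, fun h1 h2 h3 => (pr_addc h1 (enc_rat _ 3 10))⟩
noncomputable def txg_206_s : Sl3 txg_206 := ⟨_, fun h1 h2 h3 => (pr_subr 1 10 h1)⟩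
noncomputable def txg_209_s : Sl3 txg_209 := ⟨_, fun h1 h2 h3 => (pr_addc h1 (enc_rat _ 3 20))⟩
noncomputable def txg_212_s : Sl3 txg_212 := ⟨_, fun h1 h2 h3 => (pr_addc h1 (enc_rat _ 1 5))⟩
noncomputable def txg_247_s : Sl3 txg_247 := ⟨_, fun h1 h2 h3 => (pr_addc h1 (enc_rat _ 1 10))⟩
noncomputable def txg_282_s : Sl3 txg_282 := ⟨_, fun h1 h2 h3 => (pr_subr 1 5 h1)⟩
noncomputable def txg_283_s : Sl3 txg_283 := ⟨_, fun h1 h2 h3 => (pr_subr 3 20 h1)⟩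
noncomputable def txg_320_s : Sl3 txg_320 := ⟨_, fun h1 h2 h3 => (pr_subr 1 4 h1)⟩
noncomputable def txg_339_s : Sl3 txg_339 := ⟨_, fun h1 h2 h3 => (pr_subr 3 10 h1)⟩
noncomputable def txg_391_s : Sl3 txg_391 := ⟨_, fun h1 h2 h3 => (pr_subr 107 254 h1)⟩
noncomputable def txg_393_s : Sl3 txg_393 := ⟨_, fun h1 h2 h3 => (pr_subr 91 200 h1)⟩
noncomputable def txg_395_s : Sl3 txg_395 := ⟨_, fun h1 h2 h3 => (pr_subr 11 25 h1)⟩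
noncomputable def txg_446_s : Sl3 txg_446 := ⟨_, fun h1 h2 h3 => (pr_subr 47 100 h1)⟩
noncomputable def txg_s : Sl3 txg := ⟨_, fun h1 h2 h3 => (pr_case (pr_subr 61 182 h1) (pr_case (txg_26_s.snd h1 h2 h3) (pr_case (txg_29_s.snd h1 h2 h3) (pr_case (txg_32_s.snd h1 h2 h3) (pr_case (txg_35_s.snd h1 h2 h3) (pr_add (pr_add (pr_addc (pr_scaleT 35239 100000 h1) (enc_rat _ 35239 200000)) (pr_cmul (enc_norm (txg_4.enc h1.l h2.l h3)) (pr_norm (pr_subr 657 8000 (pr_neg (pr_scaleT 657 4000 h1)))))) (pr_cmul (enc_norm (enc_subr 1449 500 (enc_neg (enc_scaleT 9111 200 (txg_4.enc h1.l h2.l h3))))) (pr_norm (pr_mul (pr_norm (pr_addc h1 (enc_rat _ 1 2))) (pr_norm (pr_csub (enc_neg (enc_rat _ 47 100)) h1)))))) (pr_add (pr_add (pr_addc (pr_scaleT 45359 100000 h1) (enc_rat _ 223759 1000000)) (pr_cmul (enc_norm (txg_4.enc h1.l h2.l h3)) (pr_norm (pr_addc (pr_scaleT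 2339 2000 h1) (enc_rat _ 43579 80000))))) (pr_cmul (enc_norm (enc_subr 713 1000 (enc_scaleT 329 200 (txg_4.enc h1.l h2.l h3)))) (pr_norm (pr_mul (pr_norm (txg_35_s.snd h1 h2 h3)) (pr_norm (pr_csub (enc_neg (enc_rat _ 9 20)) h1))))))) (pr_case (txg_80_s.snd h1 h2 h3) (pr_add (pr_add (pr_addc (pr_scaleT 5139 12500 h1) (enc_rat _ 81859 400000)) (pr_cmul (enc_norm (txg_4.enc h1.l h2.l h3)) (pr_norm (pr_subr 16337 200000 (pr_neg (pr_scaleT 4451 20000 h1)))))) (pr_cmul (enc_norm (enc_add (enc_scaleT 9061 200 (txg_4.enc h1.l h2.l h3)) (enc_rat _ 1891 1000))) (pr_norm (pr_mul (pr_norm (txg_32_s.snd h1 h2 h3)) (pr_norm (pr_csub (enc_neg (enc_rat _ 21 50)) h1)))))) (pr_add (pr_add (pr_addc (pr_scaleT 68937 200000 h1) (enc_rat _ 220931 1250000)) (pr_cmul (enc_norm (txg_4.enc h1.l h2.l h3)) (pr_norm (pr_subr 1217071 1000000 (pr_neg (pr_scaleT 58517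 20000 h1)))))) (pr_cmul (enc_norm (enc_add (enc_scaleT 8961 200 (txg_4.enc h1.l h2.l h3)) (enc_rat _ 647 2000))) (pr_norm (pr_mul (pr_norm (txg_80_s.snd h1 h2 h3)) (pr_norm (pr_csub (enc_neg (enc_rat _ 39 100)) h1)))))))) (pr_case (txg_121_s.snd h1 h2 h3) (pr_case (txg_124_s.snd h1 h2 h3) (pr_add (pr_add (pr_addc (pr_scaleT 65613 200000 h1) (enc_rat _ 170263 1000000)) (pr_cmul (enc_norm (txg_4.enc h1.l h2.l h3)) (pr_norm (pr_subr 2134819 1000000 (pr_neg (pr_scaleT 105581 20000 h1)))))) (pr_cmul (enc_norm (enc_add (enc_scaleT 6727 200 (txg_4.enc h1.l h2.l h3)) (enc_rat _ 461 2000))) (pr_norm (pr_mul (pr_norm (txg_29_s.snd h1 h2 h3)) (pr_norm (pr_csub (enc_neg (enc_rat _ 9 25)) h1)))))) (pr_add (pr_add (pr_addc (pr_scaleT 62847 200000 h1) (enc_rat _ 826421 5000000)) (pr_cmul (enc_norm (txg_4.enc h1.l h2.l h3)) (pr_norm (pr_subr 1955053 1000000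 (pr_neg (pr_scaleT 47797 10000 h1)))))) (pr_cmul (enc_norm (enc_sub (enc_rat _ 461 2000) (enc_scaleT 1257 25 (txg_4.enc h1.l h2.l h3)))) (pr_norm (pr_mul (pr_norm (txg_124_s.snd h1 h2 h3)) (pr_norm (pr_csub (enc_neg (enc_rat _ 33 100)) h1))))))) (pr_case (txg_165_s.snd h1 h2 h3) (pr_add (pr_add (pr_addc (pr_scaleT 77379 200000 h1) (enc_rat _ 94631 500000)) (pr_cmul (enc_norm (txg_4.enc h1.l h2.l h3)) (pr_norm (pr_addc (pr_scaleT 33823 20000 h1) (enc_rat _ 72131 400000))))) (pr_cmul (enc_norm (enc_subr 1061 400 (enc_neg (enc_scaleT 33083 200 (txg_4.enc h1.l h2.l h3))))) (pr_norm (pr_mul (pr_norm (txg_121_s.snd h1 h2 h3)) (pr_norm (pr_csub (enc_neg (enc_rat _ 3 10)) h1)))))) (pr_add (pr_add (pr_addc (pr_scaleT 110889 200000 h1) (enc_rat _ 239527 1000000)) (pr_cmul (enc_norm (txg_4.enc h1.l h2.l h3)) (pr_norm (pr_addc (pr_scaleT 133037 20000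 h1) (enc_rat _ 133483 80000))))) (pr_cmul (enc_norm (enc_subr 3519 2000 (enc_scaleT 7 200 (txg_4.enc h1.l h2.l h3)))) (pr_norm (pr_mul (pr_norm (txg_165_s.snd h1 h2 h3)) (pr_norm (pr_csub (enc_neg (enc_rat _ 1 4)) h1))))))))) (pr_case (txg_206_s.snd h1 h2 h3) (pr_case (txg_209_s.snd h1 h2 h3) (pr_case (txg_212_s.snd h1 h2 h3) (pr_add (pr_add (pr_addc (pr_scaleT 128479 200000 h1) (enc_rat _ 523029 2000000)) (pr_cmul (enc_norm (txg_4.enc h1.l h2.l h3)) (pr_norm (pr_addc (pr_scaleT 7557 1250 h1) (enc_rat _ 60679 40000))))) (pr_cmul (enc_norm (enc_add (enc_scaleT 1209 100 (txg_4.enc h1.l h2.l h3)) (enc_rat _ 1 2000))) (pr_norm (pr_mul (pr_norm (txg_26_s.snd h1 h2 h3)) (pr_norm (pr_csub (enc_neg (enc_rat _ 1 5)) h1)))))) (pr_add (pr_add (pr_addc (pr_scaleT 123579 200000 h1) (enc_rat _ 513229 2000000)) (pr_cmul (enc_norm (txg_4.enc h1.l h2.l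 h3)) (pr_norm (pr_addc (pr_scaleT 95517 20000 h1) (enc_rat _ 50521 40000))))) (pr_cmul (enc_norm (enc_add (enc_scaleT 2661 200 (txg_4.enc h1.l h2.l h3)) (enc_rat _ 979 2000))) (pr_norm (pr_mul (pr_norm (txg_212_s.snd h1 h2 h3)) (pr_norm (pr_csub (enc_neg (enc_rat _ 3 20)) h1))))))) (pr_case (txg_247_s.snd h1 h2 h3) (pr_add (pr_add (pr_addc (pr_scaleT 101239 200000 h1) (enc_rat _ 479719 2000000)) (pr_cmul (enc_norm (txg_4.enc h1.l h2.l h3)) (pr_norm (pr_addc (pr_scaleT 32731 10000 h1) (enc_rat _ 83009 80000))))) (pr_cmul (enc_norm (enc_add (enc_scaleT 67 4 (txg_4.enc h1.l h2.l h3)) (enc_rat _ 3489 2000))) (pr_norm (pr_mul (pr_norm (txg_209_s.snd h1 h2 h3)) (pr_norm (pr_csub (enc_neg (enc_rat _ 1 10)) h1)))))) (pr_add (pr_add (pr_addc (pr_scaleT 7187 100000 h1) (enc_rat _ 196427 1000000)) (pr_cmul (enc_norm (txg_4.enc h1.l h2.l h3)) (pr_norm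 (pr_addc (pr_scaleT 867 1250 h1) (enc_rat _ 62373 80000))))) (pr_cmul (enc_norm (enc_add (enc_scaleT 871 100 (txg_4.enc h1.l h2.l h3)) (enc_rat _ 3471 2000))) (pr_norm (pr_mul (pr_norm (txg_247_s.snd h1 h2 h3)) (pr_norm (pr_csub (enc_rat _ 1 10) h1)))))))) (pr_case (txg_282_s.snd h1 h2 h3) (pr_case (txg_283_s.snd h1 h2 h3) (pr_add (pr_add (pr_csub (enc_rat _ 468589 2000000) (pr_scaleT 61361 200000 h1)) (pr_cmul (enc_norm (txg_4.enc h1.l h2.l h3)) (pr_norm (pr_csub (enc_rat _ 79791 80000) (pr_scaleT 29673 20000 h1))))) (pr_cmul (enc_norm (enc_add (enc_scaleT 1741 200 (txg_4.enc h1.l h2.l h3)) (enc_rat _ 1263 2000))) (pr_norm (pr_mul (pr_norm (txg_206_s.snd h1 h2 h3)) (pr_norm (pr_csub (enc_rat _ 3 20) h1)))))) (pr_add (pr_add (pr_csub (enc_rat _ 243767 1000000) (pr_scaleT 73991 200000 h1)) (pr_cmul (enc_norm (txg_4.enc h1.l h2.l h3)) (pr_norm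 (pr_csub (enc_rat _ 91641 80000) (pr_scaleT 49423 20000 h1))))) (pr_cmul (enc_norm (enc_add (enc_scaleT 2209 200 (txg_4.enc h1.l h2.l h3)) (enc_rat _ 1263 2000))) (pr_norm (pr_mul (pr_norm (txg_283_s.snd h1 h2 h3)) (pr_norm (pr_csub (enc_rat _ 1 5) h1))))))) (pr_case (txg_320_s.snd h1 h2 h3) (pr_add (pr_add (pr_csub (enc_rat _ 255427 1000000) (pr_scaleT 85651 200000 h1)) (pr_cmul (enc_norm (txg_4.enc h1.l h2.l h3)) (pr_norm (pr_csub (enc_rat _ 109309 80000) (pr_scaleT 17877 5000 h1))))) (pr_cmul (enc_norm (enc_add (enc_scaleT 276 25 (txg_4.enc h1.l h2.l h3)) (enc_rat _ 1069 2000))) (pr_norm (pr_mul (pr_norm (txg_282_s.snd h1 h2 h3)) (pr_norm (pr_csub (enc_rat _ 1 4) h1)))))) (pr_case (txg_339_s.snd h1 h2 h3) (pr_add (pr_add (pr_csub (enc_rat _ 1048433 4000000) (pr_scaleT 22749 50000 h1)) (pr_cmul (enc_norm (txg_4.enc h1.l h2.l h3)) (pr_norm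 (pr_csub (enc_rat _ 65687 40000) (pr_scaleT 93573 20000 h1))))) (pr_cmul (enc_norm (enc_scaleT 441 40 (txg_4.enc h1.l h2.l h3))) (pr_norm (pr_mul (pr_norm (txg_320_s.snd h1 h2 h3)) (pr_norm (pr_csub (enc_rat _ 3 10) h1)))))) (pr_add (pr_add (pr_add (pr_csub (enc_rat _ 272863758361 1040000000000) (pr_scaleT 47408312787 104000000000 h1)) (pr_cmul (enc_norm (txg_4.enc h1.l h2.l h3)) (pr_norm (pr_csub (enc_rat _ 652390381 650000000) (pr_scaleT 165771127 65000000 h1))))) (pr_cmul (txg_370.enc h1.l h2.l h3) (pr_norm (pr_csub (enc_rat _ 85694721 25000000) (pr_scaleT 28564907 2500000 h1))))) (pr_cmul (enc_norm (enc_add (enc_mul (enc_norm (enc_subr 381 5 (enc_scaleT 32493 100 (txg_4.enc h1.l h2.l h3)))) (enc_norm (txg_4.enc h1.l h2.l h3))) (enc_rat _ 247 10000))) (pr_norm (pr_mul (pr_norm (txg_339_s.snd h1 h2 h3)) (pr_norm (pr_csub (enc_rat _ 61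 182) h1))))))))))) (pr_case (txg_391_s.snd h1 h2 h3) (pr_sub (pr_mul (pr_norm (pr_csub (enc_pnc _ 1) h2)) (pr_norm (pr_subn 1 (pr_nat 2 h2)))) (pr_mul (pr_norm (pr_nat 2 (pr_subc (pr_scaleT 4 3 (txg_6_s.snd h1 h2 h3)) h3))) (pr_norm (pr_mul (pr_norm (pr_subn 1 (pr_add (pr_scaleT 2 3 (txg_6_s.snd h1 h2 h3)) h2))) (kcg_s.snd h1 h3))))) (pr_case (txg_393_s.snd h1 h2 h3) (pr_case (txg_395_s.snd h1 h2 h3) (pr_add (pr_add (pr_add (pr_csub (enc_rat _ 1025360737249 2806700000000) (pr_scaleT 81465194731 112268000000 h1)) (pr_cmul (enc_norm (txg_4.enc h1.l h2.l h3)) (pr_norm (pr_csub (enc_rat _ 153594722053 175418750000) (pr_scaleT 100906997219 56134000000 h1))))) (pr_cmul (txg_370.enc h1.l h2.l h3) (pr_norm (pr_csub (enc_rat _ 125435277 297500000) (pr_scaleT 11403207 11900000 h1))))) (pr_cmul (enc_norm (enc_add (enc_mul (enc_norm (enc_sub (enc_rat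 _ 22969 1000) (enc_scaleT 5113 100 (txg_4.enc h1.l h2.l h3)))) (enc_norm (txg_4.enc h1.l h2.l h3))) (enc_rat _ 22339 10000))) (pr_norm (pr_mul (pr_norm (txg_391_s.snd h1 h2 h3)) (pr_norm (pr_csub (enc_rat _ 11 25) h1)))))) (pr_add (pr_add (pr_csub (enc_rat _ 3615193 9375000) (pr_scaleT 1157633 1500000 h1)) (pr_cmul (enc_norm (txg_4.enc h1.l h2.l h3)) (pr_norm (pr_csub (enc_rat _ 10131729 10000000) (pr_scaleT 21103 10000 h1))))) (pr_cmul (enc_norm (enc_sub (enc_rat _ 71 250) (enc_scaleT 157 20 (txg_4.enc h1.l h2.l h3)))) (pr_norm (pr_mul (pr_norm (txg_395_s.snd h1 h2 h3)) (pr_norm (pr_csub (enc_rat _ 91 200) h1))))))) (pr_case (txg_446_s.snd h1 h2 h3) (pr_add (pr_add (pr_csub (enc_rat _ 58378987 150000000) (pr_scaleT 1169411 1500000 h1)) (pr_cmul (enc_norm (txg_4.enc h1.l h2.l h3)) (pr_norm (pr_csub (enc_rat _ 26999431 30000000) (pr_scaleT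 279229 150000 h1))))) (pr_cmul (enc_norm (enc_sub (enc_rat _ 479 2000) (enc_scaleT 1747 200 (txg_4.enc h1.l h2.l h3)))) (pr_norm (pr_mul (pr_norm (txg_393_s.snd h1 h2 h3)) (pr_norm (pr_csub (enc_rat _ 47 100) h1)))))) (pr_add (pr_add (pr_csub (enc_rat _ 37963 100000) (pr_scaleT 37963 50000 h1)) (pr_cmul (enc_norm (txg_4.enc h1.l h2.l h3)) (pr_norm (pr_csub (enc_rat _ 16709 40000) (pr_scaleT 16709 20000 h1))))) (pr_cmul (enc_norm (enc_subr 399 500 (enc_neg (enc_scaleT 5967 200 (txg_4.enc h1.l h2.l h3))))) (pr_norm (pr_mul (pr_norm (txg_446_s.snd h1 h2 h3)) (pr_norm (pr_csub (enc_rat _ 1 2) h1))))))))))⟩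
noncomputable def l0q0_s : Sl2 l0q0 := ⟨_, fun h1 h2 => (pr_norm (txg_s.snd (pr_norm (pr_sub (pr_scaleT 3 4 h1) (pr_half (c1g_s.snd h1)))) (pr_nd (c1g_s.snd h1)) h2))⟩
noncomputable def kc0q0_8_s : Sl2 kc0q0_8 := ⟨_, fun h1 h2 => (pr_sub (pr_scaleT 3 4 h1) (pr_half (c1g_s.snd h1)))⟩
noncomputable def kc0q0_20_s : Sl2 kc0q0_20 := ⟨_, fun h1 h2 => (pr_scaleT 1135 167 (kc0q0_8_s.snd h1 h2))⟩
noncomputable def kc0q0_38_s : Sl2 kc0q0_38 := ⟨_, fun h1 h2 => (pr_subr 573 10000 (pr_scaleT 521 167 (kc0q0_8_s.snd h1 h2)))⟩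
noncomputable def kc0q0_s : Sl2 kc0q0 := ⟨_, fun h1 h2 => (pr_norm (pr_case (pr_addc (kc0q0_8_s.snd h1 h2) (enc_rat _ 167 1000)) (pr_case (pr_addc (kc0q0_8_s.snd h1 h2) (enc_rat _ 333 1000)) (pr_add (pr_subr 10963 3340 (pr_neg (pr_scaleT 10963 1670 (kc0q0_8_s.snd h1 h2)))) (pr_cmul (enc_norm (kc0q0_3.enc h1.l h2)) (pr_norm (pr_addc (kc0q0_20_s.snd h1 h2) (enc_rat _ 1135 334))))) (pr_add (pr_subr 47459 830000 (pr_scaleT 259 83 (kc0q0_8_s.snd h1 h2))) (pr_cmul (enc_norm (kc0q0_3.enc h1.l h2)) (pr_norm (pr_addc (pr_scaleT 564 83 (kc0q0_8_s.snd h1 h2)) (enc_rat _ 282017 83000)))))) (pr_case (kc0q0_8_s.snd h1 h2) (pr_add (kc0q0_38_s.snd h1 h2) (pr_cmul (enc_norm (kc0q0_3.enc h1.l h2)) (pr_norm (pr_addc (pr_scaleT 1134 167 (kc0q0_8_s.snd h1 h2)) (enc_rat _ 3397 1000))))) (pr_case (pr_subr 167 1000 (kc0q0_8_s.snd h1 h2)) (pr_add (kc0q0_38_s.snd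 h1 h2) (pr_cmul (enc_norm (kc0q0_3.enc h1.l h2)) (pr_norm (pr_addc (kc0q0_20_s.snd h1 h2) (enc_rat _ 3397 1000))))) (pr_add (pr_subr 8785090631377 153030000000000 (pr_scaleT 477515578631 153030000000 (kc0q0_8_s.snd h1 h2))) (pr_cmul (enc_norm (kc0q0_3.enc h1.l h2)) (pr_norm (pr_addc (pr_scaleT 86701265469 12752500000 (kc0q0_8_s.snd h1 h2)) (enc_rat _ 43315218666677 12752500000000)))))))))⟩
noncomputable def kf0q1_10_s : Sl2 kf0q1_10 := ⟨_, fun h1 h2 => (pr_scaleT 3 2 h1)⟩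
noncomputable def kf0q1_s : Sl2 kf0q1 := ⟨_, fun h1 h2 => (pr_norm (pr_add (pr_mul (pr_norm (pr_mul (pr_norm (pr_cadd (enc_pnc _ 1) (pr_nat 2 (c1g_s.snd h1)))) (pr_norm (pr_sub (kf0q1_10_s.snd h1 h2) (c1g_s.snd h1))))) (pr_nd (pr_inv (pr_nat 2 (pr_sub (pr_cadd (enc_pnc _ 1) (kf0q1_10_s.snd h1 h2)) (c1g_s.snd h1)))))) (pr_mul (pr_norm (pr_subn 1 h1)) (kcg_s.snd (pr_norm (pr_sub (pr_scaleT 3 4 h1) (pr_half (c1g_s.snd h1)))) h2))))⟩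
noncomputable def l0q1_s : Sl2 l0q1 := ⟨_, fun h1 h2 => (pr_norm (txg_s.snd (pr_norm (pr_sub (pr_scaleT 3 4 h1) (pr_half (c1g_s.snd h1)))) (pr_nd (c1g_s.snd h1)) h2))⟩
noncomputable def gsg_s : Sl1 gsg := ⟨_, fun h1 => (pr_sqrt (pr_csub (enc_pnc _ 1) (pr_scaleT 3 4 (pr_sq h1))))⟩
noncomputable def gug_s : Sl1 gug := ⟨_, fun h1 => (pr_norm (pr_add (pr_scaleT 3 4 h1) (pr_scaleT 3 2 (pr_csub (enc_pnc _ 1) (gsg_s.snd h1)))))⟩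
noncomputable def kc0q1_9_s : Sl2 kc0q1_9 := ⟨_, fun h1 h2 => (pr_sub (pr_scaleT 3 4 h1) (pr_half (c1g_s.snd h1)))⟩
noncomputable def kc0q1_50_s : Sl2 kc0q1_50 := ⟨_, fun h1 h2 => (pr_scaleT 1135 167 (kc0q1_9_s.snd h1 h2))⟩
noncomputable def kc0q1_69_s : Sl2 kc0q1_69 := ⟨_, fun h1 h2 => (pr_subr 573 10000 (pr_scaleT 521 167 (kc0q1_9_s.snd h1 h2)))⟩
noncomputable def kc0q1_s : Sl2 kc0q1 := ⟨_, fun h1 h2 => (pr_norm (pr_case (pr_subr 61 182 (kc0q1_9_s.snd h1 h2)) (pr_case (pr_addc (kc0q1_9_s.snd h1 h2) (enc_rat _ 167 1000)) (pr_case (pr_addc (kc0q1_9_s.snd h1 h2) (enc_rat _ 333 1000)) (pr_add (pr_subr 10963 3340 (pr_neg (pr_scaleT 10963 1670 (kc0q1_9_s.snd h1 h2)))) (pr_cmul (enc_norm (kc0q1_3.enc h1.l h2)) (pr_norm (pr_addc (kc0q1_50_s.snd h1 h2) (enc_rat _ 1135 334))))) (pr_add (pr_subr 47459 830000 (pr_scaleT 259 83 (kc0q1_9_s.snd h1 h2)))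 (pr_cmul (enc_norm (kc0q1_3.enc h1.l h2)) (pr_norm (pr_addc (pr_scaleT 564 83 (kc0q1_9_s.snd h1 h2)) (enc_rat _ 282017 83000)))))) (pr_case (kc0q1_9_s.snd h1 h2) (pr_add (kc0q1_69_s.snd h1 h2) (pr_cmul (enc_norm (kc0q1_3.enc h1.l h2)) (pr_norm (pr_addc (pr_scaleT 1134 167 (kc0q1_9_s.snd h1 h2)) (enc_rat _ 3397 1000))))) (pr_case (pr_subr 167 1000 (kc0q1_9_s.snd h1 h2)) (pr_add (kc0q1_69_s.snd h1 h2) (pr_cmul (enc_norm (kc0q1_3.enc h1.l h2)) (pr_norm (pr_addc (kc0q1_50_s.snd h1 h2) (enc_rat _ 3397 1000))))) (pr_add (pr_subr 8785090631377 153030000000000 (pr_scaleT 477515578631 153030000000 (kc0q1_9_s.snd h1 h2))) (pr_cmul (enc_norm (kc0q1_3.enc h1.l h2)) (pr_norm (pr_addc (pr_scaleT 86701265469 12752500000 (kc0q1_9_s.snd h1 h2)) (enc_rat _ 43315218666677 12752500000000)))))))) (pr_case (pr_subr 107 254 (kc0q1_9_s.snd h1 h2)) (pr_sub (pr_add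 (pr_cadd (enc_rat _ 3 4) (pr_scaleT 3 2 h1)) (pr_scaleT 3 4 (pr_mul (pr_norm (pr_mul h1 (pr_nd (pr_inv (c1g_s.snd h1))))) (gug_s.snd h1)))) (pr_mul (kcg_s.snd (pr_norm (kc0q1_9_s.snd h1 h2)) h2) (pr_norm (pr_add (gug_s.snd h1) (pr_nat 2 (c1g_s.snd h1)))))) (pr_add (pr_csub (enc_rat _ 870812229797 200000000000) (pr_scaleT 870812229797 100000000000 (kc0q1_9_s.snd h1 h2))) (pr_cmul (enc_norm (kc0q1_3.enc h1.l h2)) (pr_norm (pr_subr 602469436537 200000000000 (pr_scaleT 602469436537 100000000000 (kc0q1_9_s.snd h1 h2)))))))))⟩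
noncomputable def yag_s : Sl1 yag := ⟨_, fun h1 => (pr_sqrt (pr_scaleT 4 3 (pr_csub (enc_pnc _ 1) (pr_sq h1))))⟩
noncomputable def kfc02_s : Sl2 kfc02 := ⟨_, fun h1 h2 => (pr_norm (pr_add h1 (pr_mul (pr_norm (pr_subn 1 (yag_s.snd h1))) (kcg_s.snd (pr_nd (pr_neg h1)) h2))))⟩
noncomputable def lc02_7_s : Sl2 lc02_7 := ⟨_, fun h1 h2 => (pr_scaleT 3 4 (yag_s.snd h1))⟩
noncomputable def lc02_8_s : Sl2 lc02_8 := ⟨_, fun h1 h2 => (pr_half h1)⟩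
noncomputable def lc02_s : Sl2 lc02 := ⟨_, fun h1 h2 => (pr_norm (pr_sub (txg_s.snd (pr_nd (pr_neg h1)) (pr_norm (pr_add (lc02_7_s.snd h1 h2) (lc02_8_s.snd h1 h2))) h2) (txg_s.snd h1 (pr_norm (pr_sub (lc02_7_s.snd h1 h2) (lc02_8_s.snd h1 h2))) h2)))⟩
noncomputable def kcc02_s : Sl2 kcc02 := ⟨_, fun h1 h2 => (pr_const (enc_pnc _ 0))⟩
noncomputable def swg_s : Sl1 swg := ⟨_, fun h1 => (pr_sqrt (pr_csub (enc_pnc _ 1) (pr_scaleT 3 4 (pr_sq (pr_norm (pr_subn 1 h1))))))⟩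
noncomputable def cv1m_s : Sl1 cv1m := ⟨_, fun h1 => (pr_norm (pr_add (pr_scaleT 11 20 (c1g_s.snd h1)) (pr_scaleT 9 20 (pr_addc (swg_s.snd h1) (enc_rat _ 1 2)))))⟩
noncomputable def bf1q0_s : Sl2 bf1q0 := ⟨_, fun h1 h2 => (pr_norm (pr_case (pr_subr 7 250 h1) (pr_add (pr_csub (enc_pnc _ 1) (pr_scaleT 533 280 h1)) (pr_cmul (enc_norm (bf1q0_3.enc h1.l h2)) (pr_nd (pr_scaleT 507 20 h1)))) (pr_add (pr_csub (enc_rat _ 2403241 2360000) (pr_scaleT 24147 9440 h1)) (pr_cmul (enc_norm (bf1q0_3.enc h1.l h2)) (pr_norm (pr_csub (enc_rat _ 1518923 1180000) (pr_scaleT 97337 4720 h1)))))))⟩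
noncomputable def kf1q0_s : Sl2 kf1q0 := ⟨_, fun h1 h2 => (pr_norm (pr_mul (cv1m_s.snd h1) (bf1q0_s.snd h1 h2)))⟩
noncomputable def bx1q0_36_s : Sl2 bx1q0_36 := ⟨_, fun h1 h2 => (pr_scaleT 311 2800 h1)⟩
noncomputable def bx1q0_51_s : Sl2 bx1q0_51 := ⟨_, fun h1 h2 => (pr_scaleT 621 5600 h1)⟩
noncomputable def bx1q0_54_s : Sl2 bx1q0_54 := ⟨_, fun h1 h2 => (pr_scaleT 11 28 h1)⟩
noncomputable def bx1q0_58_s : Sl2 bx1q0_58 := ⟨_, fun h1 h2 => (pr_cmul (enc_norm (bx1q0_3.enc h1.l h2)) (pr_norm (pr_csub (enc_rat _ 823 2800) (bx1q0_54_s.snd h1 h2))))⟩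
noncomputable def bx1q0_s : Sl2 bx1q0 := ⟨_, fun h1 h2 => (pr_norm (pr_case (pr_subr 11 50 h1) (pr_case (pr_subr 3 25 h1) (pr_case (pr_subr 7 250 h1) (pr_add (pr_scaleT 209 350 h1) (pr_cmul (enc_norm (bx1q0_3.enc h1.l h2)) (pr_nd (pr_scaleT 183 140 h1)))) (pr_add (pr_addc (pr_scaleT 607 1150 h1) (enc_rat _ 279 143750)) (pr_cmul (enc_norm (bx1q0_3.enc h1.l h2)) (pr_norm (pr_subr 1567 57500 (pr_scaleT 1049 460 h1)))))) (pr_case (pr_subr 41 250 h1) (pr_add (pr_addc (pr_scaleT 489 4400 h1) (enc_rat _ 28569 550000)) (pr_cmul (enc_norm (bx1q0_3.enc h1.l h2)) (pr_norm (pr_csub (enc_rat _ 16117 55000) (pr_scaleT 171 440 h1))))) (pr_add (pr_addc (bx1q0_36_s.snd h1 h2) (enc_rat _ 2273 43750)) (pr_cmul (enc_norm (bx1q0_3.enc h1.l h2)) (pr_norm (pr_csub (enc_rat _ 513 1750) (pr_scaleT 109 280 h1))))))) (pr_case (pr_subr 97 250 h1) (pr_case (pr_subr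 69 250 h1) (pr_add (pr_addc (bx1q0_51_s.snd h1 h2) (enc_rat _ 72791 1400000)) (bx1q0_58_s.snd h1 h2)) (pr_add (pr_addc (bx1q0_36_s.snd h1 h2) (enc_rat _ 36361 700000)) (bx1q0_58_s.snd h1 h2))) (pr_case (pr_subr 111 250 h1) (pr_add (pr_addc (bx1q0_51_s.snd h1 h2) (enc_rat _ 72819 1400000)) (pr_cmul (enc_norm (bx1q0_3.enc h1.l h2)) (pr_norm (pr_csub (enc_rat _ 41247 140000) (pr_scaleT 221 560 h1))))) (pr_add (pr_addc (bx1q0_36_s.snd h1 h2) (enc_rat _ 18177 350000)) (pr_cmul (enc_norm (bx1q0_3.enc h1.l h2)) (pr_norm (pr_csub (enc_rat _ 2571 8750) (bx1q0_54_s.snd h1 h2)))))))))⟩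
noncomputable def l1q0_s : Sl2 l1q0 := ⟨_, fun h1 h2 => (pr_norm (pr_mul (cv1m_s.snd h1) (bx1q0_s.snd h1 h2)))⟩
noncomputable def bd1q0_s : Sl2 bd1q0 := ⟨_, fun h1 h2 => (pr_norm (pr_sub (pr_neg (pr_scaleT 42347 5000 h1)) (pr_cmul (enc_norm (enc_subr 237 260 h2)) (pr_nd (pr_scaleT 41743 500 h1)))))⟩
noncomputable def kc1q0_s : Sl2 kc1q0 := ⟨_, fun h1 h2 => (pr_norm (pr_mul (cv1m_s.snd h1) (bd1q0_s.snd h1 h2)))⟩
noncomputable def bf1q1_s : Sl2 bf1q1 := ⟨_, fun h1 h2 => (pr_norm (pr_add (pr_addc (pr_scaleT 32477 50000 h1) (enc_rat _ 2137 50000)) (pr_cmul (enc_norm (enc_subr 237 260 h2)) (pr_norm (pr_subr 65721 10000 (pr_scaleT 35577 5000 h1))))))⟩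
noncomputable def kf1q1_s : Sl2 kf1q1 := ⟨_, fun h1 h2 => (pr_norm (pr_mul (cv1m_s.snd h1) (bf1q1_s.snd h1 h2)))⟩
noncomputable def bx1q1_s : Sl2 bx1q1 := ⟨_, fun h1 h2 => (pr_norm (pr_case (pr_subr 15 16 h1) (pr_add (pr_addc (pr_scaleT 4857 43750 h1) (enc_rat _ 36373 700000)) (pr_cmul (enc_norm (bx1q1_3.enc h1.l h2)) (pr_norm (pr_csub (enc_rat _ 10309 35000) (pr_scaleT 69 175 h1))))) (pr_add (pr_addc (pr_scaleT 693 6250 h1) (enc_rat _ 5209 100000)) (pr_cmul (enc_norm (bx1q1_3.enc h1.l h2)) (pr_norm (pr_csub (enc_rat _ 1477 5000) (pr_scaleT 247 625 h1)))))))⟩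
noncomputable def l1q1_s : Sl2 l1q1 := ⟨_, fun h1 h2 => (pr_norm (pr_mul (cv1m_s.snd h1) (bx1q1_s.snd h1 h2)))⟩
noncomputable def bd1q1_s : Sl2 bd1q1 := ⟨_, fun h1 h2 => (pr_norm (pr_add (pr_subr 3611 625 (pr_scaleT 15429 5000 h1)) (pr_cmul (enc_norm (enc_subr 237 260 h2)) (pr_norm (pr_subr 191851 500 (pr_scaleT 341959 500 h1))))))⟩
noncomputable def kc1q1_s : Sl2 kc1q1 := ⟨_, fun h1 h2 => (pr_norm (pr_mul (cv1m_s.snd h1) (bd1q1_s.snd h1 h2)))⟩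
noncomputable def cv1p_s : Sl1 cv1p := ⟨_, fun h1 => (pr_norm (pr_add (pr_scaleT 11 20 (c1g_s.snd h1)) (pr_scaleT 9 20 (pr_subr 1 2 (swg_s.snd h1)))))⟩
noncomputable def bf1q2_15_s : Sl2 bf1q2_15 := ⟨_, fun h1 h2 => (pr_add (pr_csub (enc_rat _ 69883 20000) (pr_scaleT 49883 20000 h1)) (pr_cmul (enc_norm (bf1q2_3.enc h1.l h2)) (pr_norm (pr_csub (enc_rat _ 549793 10000) (pr_scaleT 549793 10000 h1)))))⟩
noncomputable def bf1q2_s : Sl2 bf1q2 := ⟨_, fun h1 h2 => (pr_norm (pr_case (pr_subr 577 500 h1) (bf1q2_15_s.snd h1 h2) (pr_case (pr_subr 231 200 h1) (bf1q2_15_s.snd h1 h2) (pr_add (pr_csub (enc_rat _ 16073013 4600000) (pr_scaleT 3441907 1380000 h1)) (pr_cmul (enc_norm (bf1q2_3.enc h1.l h2)) (pr_norm (pr_csub (enc_rat _ 5058111 92000) (pr_scaleT 37935817 690000 h1))))))))⟩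
noncomputable def kf1q2_s : Sl2 kf1q2 := ⟨_, fun h1 h2 => (pr_norm (pr_mul (cv1p_s.snd h1) (bf1q2_s.snd h1 h2)))⟩
noncomputable def bx1q2_s : Sl2 bx1q2 := ⟨_, fun h1 h2 => (pr_norm (pr_case (pr_subr 577 500 h1) (pr_case (pr_subr 17 16 h1) (pr_add (pr_csub (enc_rat _ 2044 3125) (pr_scaleT 2044 3125 h1)) (pr_cmul (enc_norm (bx1q2_3.enc h1.l h2)) (pr_norm (pr_csub (enc_rat _ 5636 625) (pr_scaleT 5636 625 h1))))) (pr_add (pr_csub (enc_rat _ 10554823 9150000) (pr_scaleT 5143 4575 h1)) (pr_cmul (enc_norm (bx1q2_3.enc h1.l h2)) (pr_norm (pr_csub (enc_rat _ 1029382 114375) (pr_scaleT 8236 915 h1)))))) (pr_casec1 (pr_subr 231 200 h1) (enc_sub (enc_neg (enc_rat _ 7187 50000)) (enc_scaleT 867 625 (bx1q2_3.enc h1.l h2))) (pr_add (pr_subr 1033177 575000 (pr_scaleT 24689 17250 h1)) (pr_cmul (enc_norm (bx1q2_3.enc h1.l h2)) (pr_norm (pr_subr 798089 115000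 (pr_scaleT 8293 1725 h1))))))))⟩
noncomputable def l1q2_s : Sl2 l1q2 := ⟨_, fun h1 h2 => (pr_norm (pr_mul (cv1p_s.snd h1) (bx1q2_s.snd h1 h2)))⟩
noncomputable def bd1q2_s : Sl2 bd1q2 := ⟨_, fun h1 h2 => (pr_norm (pr_casec1 (pr_subr 577 500 h1) (enc_pnc _ 0) (pr_casec1 (pr_subr 231 200 h1) (enc_pnc _ 0) (pr_add (pr_subr 1166319 115000 (pr_scaleT 5049 575 h1)) (pr_cmul (enc_norm (enc_subr 237 260 h2)) (pr_norm (pr_csub (enc_rat _ 7834519 23000) (pr_scaleT 101747 345 h1))))))))⟩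
noncomputable def kc1q2_s : Sl2 kc1q2 := ⟨_, fun h1 h2 => (pr_norm (pr_mul (cv1p_s.snd h1) (bd1q2_s.snd h1 h2)))⟩
noncomputable def cv1r_s : Sl1 cv1r := ⟨_, fun h1 => (pr_norm (pr_scaleT 9 20 (pr_subr 1 2 (swg_s.snd h1))))⟩
noncomputable def c3g_s : Sl1 c3g := ⟨_, fun h1 => (pr_sqrtg (pr_csub (enc_pnc _ 3) (pr_scaleT 3 4 (pr_sq h1))))⟩
noncomputable def kf1q3_s : Sl2 kf1q3 := ⟨_, fun h1 h2 => (pr_norm (pr_mulz (fun ht => cv1r_two (enc_two h1.r ht)) (cv1r_s.snd h1) (pr_norm (pr_case (pr_subr 31 16 h1) (pr_add (pr_subr 457393 87500 (pr_scaleT 887 350 h1)) (pr_cmul (enc_norm (kf1q3_4.enc h1.l h2)) (pr_norm (pr_csub (enc_rat _ 29302209 70000) (pr_scaleT 197168 875 h1))))) (pr_case (pr_subr 243 125 h1) (pr_add (pr_subr 6798321 1300000 (pr_scaleT 824 325 h1)) (pr_cmul (enc_norm (kf1q3_4.enc h1.l h2)) (pr_norm (pr_csub (enc_rat _ 54415421 130000)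 (pr_scaleT 14646 65 h1))))) (pr_add (pr_subr 14739 25000 (pr_scaleT 96290000 135666257 (c3g_s.snd h1))) (pr_cmul (enc_norm (kf1q3_4.enc h1.l h2)) (pr_norm (pr_csub (enc_rat _ 3897 2500) (pr_scaleT 21006700000 406998771 (c3g_s.snd h1)))))))))))⟩
noncomputable def l1q3_s : Sl2 l1q3 := ⟨_, fun h1 h2 => (pr_norm (pr_mulz (fun ht => cv1r_two (enc_two h1.r ht)) (cv1r_s.snd h1) (pr_norm (pr_case (pr_subr 31 16 h1) (pr_case (pr_subr 47 25 h1) (pr_add (pr_subr 853281 475000 (pr_scaleT 6797 4750 h1)) (pr_cmul (enc_norm (l1q3_4.enc h1.l h2)) (pr_norm (pr_subr 329971 47500 (pr_scaleT 9143 1900 h1))))) (pr_add (pr_subr 1032929 575000 (pr_scaleT 4114 2875 h1)) (pr_cmul (enc_norm (l1q3_4.enc h1.l h2)) (pr_norm (pr_csub (enc_rat _ 576999 28750) (pr_scaleT 5496 575 h1)))))) (pr_case (pr_subr 243 125 h1) (pr_add (pr_subr 2338721 1300000 (pr_scaleT 931 650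 h1)) (pr_cmul (enc_norm (l1q3_4.enc h1.l h2)) (pr_norm (pr_csub (enc_rat _ 1860013 32500) (pr_scaleT 1868 65 h1))))) (pr_case (pr_csub (enc_rat _ 288811357 1000000000) (c3g_s.snd h1)) (pr_add (pr_addc (pr_scaleT 18770000 59093707 (c3g_s.snd h1)) (enc_rat _ 2529549050453 2954685350000)) (pr_cmul (enc_norm (l1q3_4.enc h1.l h2)) (pr_norm (pr_csub (enc_rat _ 5891251432297 590937070000) (pr_scaleT 1249500000 59093707 (c3g_s.snd h1)))))) (pr_add (pr_addc (pr_scaleT 91710000 288811357 (c3g_s.snd h1)) (enc_rat _ 42807 50000)) (pr_cmul (enc_norm (l1q3_4.enc h1.l h2)) (pr_norm (pr_addc (pr_scaleT 1673400000 288811357 (c3g_s.snd h1)) (enc_rat _ 5473 2500)))))))))))⟩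
noncomputable def kc1q3_s : Sl2 kc1q3 := ⟨_, fun h1 h2 => (pr_norm (pr_mulz (fun ht => cv1r_two (enc_two h1.r ht)) (cv1r_s.snd h1) (pr_norm (pr_case (pr_subr 243 125 h1) (pr_add (pr_subr 1876311 185000 (pr_scaleT 3249 370 h1)) (pr_cmul (enc_norm (kc1q3_4.enc h1.l h2)) (pr_norm (pr_csub (enc_rat _ 6301743 18500) (pr_scaleT 130945 444 h1))))) (pr_add (pr_subr 39 1250 (pr_scaleT 2319800000 135666257 (c3g_s.snd h1))) (pr_cmul (enc_norm (kc1q3_4.enc h1.l h2)) (pr_norm (pr_csub (enc_rat _ 298 125) (pr_scaleT 235076000000 406998771 (c3g_s.snd h1))))))))))⟩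
noncomputable def cv2m_s : Sl1 cv2m := ⟨_, fun h1 => (pr_norm (pr_add (pr_scaleT 9 10 (pr_addc (swg_s.snd h1) (enc_rat _ 1 2))) (pr_scaleT 1 10 (c3g_s.snd h1))))⟩
noncomputable def esg_s : Sl1 esg := ⟨_, fun h1 => (pr_norm (pr_subn 1 (pr_add (pr_half h1) (gsg_s.snd h1))))⟩
noncomputable def kf2q0_44_s : Sl2 kf2q0_44 := ⟨_, fun h1 h2 => (pr_csub (enc_pnc _ 1) h1)⟩
noncomputable def kf2q0_45_s : Sl2 kf2q0_45 := ⟨_, fun h1 h2 => (gsg_s.snd (pr_norm (kf2q0_44_s.snd h1 h2)))⟩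
noncomputable def kf2q0_48_s : Sl2 kf2q0_48 := ⟨_, fun h1 h2 => (pr_sub (pr_scaleT 3 4 (kf2q0_44_s.snd h1 h2)) (pr_half (kf2q0_45_s.snd h1 h2)))⟩
noncomputable def kf2q0_49_s : Sl2 kf2q0_49 := ⟨_, fun h1 h2 => (esg_s.snd (pr_norm (kf2q0_44_s.snd h1 h2)))⟩
noncomputable def kf2q0_50_s : Sl2 kf2q0_50 := ⟨_, fun h1 h2 => (kcg_s.snd (pr_norm (kf2q0_48_s.snd h1 h2)) h2)⟩
noncomputable def kf2q0_58_s : Sl2 kf2q0_58 := ⟨_, fun h1 h2 => (pr_sub (kf2q0_48_s.snd h1 h2) (pr_csub (enc_rat _ 1 4) (pr_scaleT 3 8 (pr_mul (pr_norm (kf2q0_44_s.snd h1 h2)) (pr_nd (pr_inv (kf2q0_45_s.snd h1 h2)))))))⟩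
noncomputable def kf2q0_67_s : Sl2 kf2q0_67 := ⟨_, fun h1 h2 => (pr_mul (cv1m_s.snd h1) (bf1q0_s.snd h1 h2))⟩
noncomputable def kf2q0_s : Sl2 kf2q0 := ⟨_, fun h1 h2 => (pr_norm (pr_case (pr_subr 7 125 h1) (pr_mul (cv2m_s.snd h1) (pr_norm (pr_case (pr_subr 7 250 h1) (pr_add (pr_csub (enc_rat _ 4543 5000) (pr_scaleT 1217 280 h1)) (pr_cmul (enc_norm (kf2q0_4.enc h1.l h2)) (pr_norm (pr_subr 147 10000 (pr_neg (pr_scaleT 111 35 h1)))))) (pr_add (pr_csub (enc_rat _ 4542931283 5000000000) (pr_scaleT 608431283 140000000 h1)) (pr_cmul (enc_norm (kf2q0_4.enc h1.l h2)) (pr_norm (pr_subr 1834859 125000000 (pr_neg (pr_scaleT 11102641 3500000 h1))))))))) (pr_case (pr_subr 3 25 h1) (pr_add (kf2q0_67_s.snd h1 h2) (pr_mul (pr_norm (pr_mul (pr_norm (pr_sub (pr_wB0 (pr_mul h1 (pr_norm (pr_sub (pr_mul (pr_norm (kf2q0_58_s.snd h1 h2)) (pr_nd (pr_inv (kf2q0_49_s.snd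 h1 h2)))) (kf2q0_50_s.snd h1 h2)))) (kf2q0_44_s.snd h1 h2) (kf2q0_45_s.snd h1 h2) (kf2q0_49_s.snd h1 h2) h1 (kf2q0_58_s.snd h1 h2) (kf2q0_50_s.snd h1 h2) rfl rfl rfl rfl rfl rfl rfl rfl) (kf2q0_67_s.snd h1 h2))) (pr_norm (pr_sub (cv2m_s.snd h1) (cv1m_s.snd h1))))) (pr_nd (pr_inv (pr_sub (pr_addc (swg_s.snd h1) (enc_rat _ 1 2)) (cv1m_s.snd h1)))))) (pr_mul (cv2m_s.snd h1) (pr_norm (pr_add (pr_csub (enc_rat _ 3473642207 3800000000) (pr_scaleT 5646254207 1900000000 h1)) (pr_cmul (enc_norm (kf2q0_4.enc h1.l h2)) (pr_norm (pr_csub (enc_rat _ 402895693 152000000) (pr_scaleT 969916493 76000000 h1))))))))))⟩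
noncomputable def qsg_s : Sl1 qsg := ⟨_, fun h1 => (pr_norm (pr_mul (pr_norm (pr_csub (enc_pnc _ 1) (gsg_s.snd h1))) (pr_norm (pr_subn 1 (pr_nat 2 (gsg_s.snd h1))))))⟩
noncomputable def l2q0_78_s : Sl2 l2q0_78 := ⟨_, fun h1 h2 => (pr_csub (enc_pnc _ 1) h1)⟩
noncomputable def l2q0_93_s : Sl2 l2q0_93 := ⟨_, fun h1 h2 => (pr_mul (cv1m_s.snd h1) (bx1q0_s.snd h1 h2))⟩
noncomputable def l2q0_s : Sl2 l2q0 := ⟨_, fun h1 h2 => (pr_norm (pr_case (pr_subr 7 125 h1) (pr_mul (cv2m_s.snd h1) (pr_norm (pr_case (pr_subr 7 250 h1) (pr_add (pr_addc (pr_scaleT 1899 2800 h1) (enc_rat _ 5281 100000)) (pr_cmul (enc_norm (l2q0_4.enc h1.l h2)) (pr_norm (pr_addc (pr_scaleT 247 140 h1) (enc_rat _ 307 2500))))) (pr_add (pr_add (pr_addc (pr_scaleT 47494451 70000000 h1) (enc_rat _ 132005549 2500000000)) (pr_cmul (enc_norm (l2q0_4.enc h1.l h2)) (pr_norm (pr_csub (enc_rat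 _ 108681431 500000000) (pr_scaleT 22581431 14000000 h1))))) (pr_cmul (l2q0_28.enc h1.l h2) (pr_norm (pr_subr 1191 100000 (pr_scaleT 1191 2800 h1)))))))) (pr_case (pr_subr 3 25 h1) (pr_add (l2q0_93_s.snd h1 h2) (pr_mul (pr_norm (pr_mul (pr_norm (pr_sub (pr_sub (qsg_s.snd (pr_norm (l2q0_78_s.snd h1 h2))) (pr_mul (pr_norm (pr_nat 2 (pr_subc (l2q0_78_s.snd h1 h2) h2))) (pr_norm (pr_mul (esg_s.snd (pr_norm (l2q0_78_s.snd h1 h2))) (kcg_s.snd (pr_norm (pr_sub (pr_scaleT 3 4 (l2q0_78_s.snd h1 h2)) (pr_half (gsg_s.snd (pr_norm (l2q0_78_s.snd h1 h2)))))) h2))))) (l2q0_93_s.snd h1 h2))) (pr_norm (pr_sub (cv2m_s.snd h1) (cv1m_s.snd h1))))) (pr_nd (pr_inv (pr_sub (pr_addc (swg_s.snd h1) (enc_rat _ 1 2)) (cv1m_s.snd h1)))))) (pr_mul (cv2m_s.snd h1) (pr_norm (pr_case (pr_subr 41 250 h1) (pr_add (pr_add (pr_csub (enc_rat _ 150825939 1250000000) (pr_scaleT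 309779 5000000 h1)) (pr_cmul (enc_norm (l2q0_4.enc h1.l h2)) (pr_norm (pr_csub (enc_rat _ 4444298283 11000000000) (pr_scaleT 126587763 44000000 h1))))) (pr_cmul (l2q0_28.enc h1.l h2) (pr_norm (pr_subr 1474811 687500 (pr_scaleT 35971 2750 h1))))) (pr_case (pr_subr 111 250 h1) (pr_add (pr_csub (enc_rat _ 422297 3500000) (pr_scaleT 867 14000 h1)) (pr_cmul (enc_norm (l2q0_4.enc h1.l h2)) (pr_norm (pr_subr 77547 175000 (pr_scaleT 801 350 h1))))) (pr_add (pr_csub (enc_rat _ 16753 100000) (pr_scaleT 67 400 h1)) (pr_cmul (enc_norm (l2q0_4.enc h1.l h2)) (pr_norm (pr_csub (enc_rat _ 36039 35000) (pr_scaleT 36 35 h1))))))))))))⟩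
noncomputable def kc2q0_30_s : Sl2 kc2q0_30 := ⟨_, fun h1 h2 => (pr_csub (enc_pnc _ 1) h1)⟩
noncomputable def kc2q0_31_s : Sl2 kc2q0_31 := ⟨_, fun h1 h2 => (gsg_s.snd (pr_norm (kc2q0_30_s.snd h1 h2)))⟩
noncomputable def kc2q0_35_s : Sl2 kc2q0_35 := ⟨_, fun h1 h2 => (esg_s.snd (pr_norm (kc2q0_30_s.snd h1 h2)))⟩
noncomputable def kc2q0_39_s : Sl2 kc2q0_39 := ⟨_, fun h1 h2 => (gug_s.snd (pr_norm (kc2q0_30_s.snd h1 h2)))⟩
noncomputable def kc2q0_41_s : Sl2 kc2q0_41 := ⟨_, fun h1 h2 => (pr_mul (pr_norm (kc2q0_30_s.snd h1 h2)) (pr_nd (pr_inv (kc2q0_31_s.snd h1 h2))))⟩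
noncomputable def kc2q0_42_s : Sl2 kc2q0_42 := ⟨_, fun h1 h2 => (pr_scaleT 3 4 (kc2q0_41_s.snd h1 h2))⟩
noncomputable def kc2q0_72_s : Sl2 kc2q0_72 := ⟨_, fun h1 h2 => (pr_mul (cv1m_s.snd h1) (bd1q0_s.snd h1 h2))⟩
noncomputable def kc2q0_s : Sl2 kc2q0 := ⟨_, fun h1 h2 => (pr_norm (pr_case (pr_subr 7 125 h1) (pr_mul (cv2m_s.snd h1) (pr_norm (pr_add (pr_subr 2731 10000 (pr_neg (pr_scaleT 6901934743 560000000 h1))) (pr_cmul (enc_norm (kc2q0_4.enc h1.l h2)) (pr_norm (pr_subr 293 200 (pr_scaleT 527878773 3500000 h1))))))) (pr_case (pr_subr 3 25 h1) (pr_add (kc2q0_72_s.snd h1 h2) (pr_mul (pr_norm (pr_mul (pr_norm (pr_sub (pr_add (pr_sub (pr_neg (pr_add (pr_cadd (enc_rat _ 3 4) (pr_scaleT 3 2 (kc2q0_30_s.snd h1 h2))) (pr_scaleT 3 4 (pr_mul (pr_norm (kc2q0_41_s.snd h1 h2)) (kc2q0_39_s.snd h1 h2))))) (pr_wT (pr_mul (pr_norm (pr_sub (pr_mul (pr_norm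 (pr_mul (pr_norm (kc2q0_42_s.snd h1 h2)) (pr_norm (pr_subn 3 (pr_nat 4 (kc2q0_31_s.snd h1 h2)))))) (kc2q0_35_s.snd h1 h2)) (pr_mul (qsg_s.snd (pr_norm (kc2q0_30_s.snd h1 h2))) (pr_norm (pr_csub (enc_rat _ 1 2) (kc2q0_42_s.snd h1 h2)))))) (pr_nd (pr_inv (pr_mul (pr_nd (pr_nat 2 (kc2q0_35_s.snd h1 h2))) (kc2q0_35_s.snd h1 h2))))) (kc2q0_30_s.snd h1 h2) (kc2q0_31_s.snd h1 h2) (kc2q0_35_s.snd h1 h2) rfl rfl rfl rfl rfl rfl rfl rfl)) (pr_mul (kcg_s.snd (pr_norm (pr_sub (pr_scaleT 3 4 (kc2q0_30_s.snd h1 h2)) (pr_half (kc2q0_31_s.snd h1 h2)))) h2) (pr_norm (pr_cadd (enc_pnc _ 1) (pr_add (kc2q0_39_s.snd h1 h2) (pr_nat 2 (kc2q0_31_s.snd h1 h2))))))) (kc2q0_72_s.snd h1 h2))) (pr_norm (pr_sub (cv2m_s.snd h1) (cv1m_s.snd h1))))) (pr_nd (pr_inv (pr_sub (pr_addc (swg_s.snd h1) (enc_rat _ 1 2)) (cv1m_s.snd h1)))))) (pr_mul (cv2m_s.snd h1) (pr_norm (pr_add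 (pr_subr 2283701101 1900000000 (pr_scaleT 1141801101 950000000 h1)) (pr_cmul (enc_norm (kc2q0_4.enc h1.l h2)) (pr_norm (pr_subr 924389937 152000000 (pr_scaleT 462157937 76000000 h1))))))))))⟩
noncomputable def bf2q1_s : Sl2 bf2q1 := ⟨_, fun h1 h2 => (pr_norm (pr_add (pr_subr 16303 50000 (pr_scaleT 66303 50000 h1)) (pr_cmul (enc_norm (enc_subr 237 260 h2)) (pr_norm (pr_subr 32533 5000 (pr_scaleT 32533 5000 h1))))))⟩
noncomputable def kf2q1_s : Sl2 kf2q1 := ⟨_, fun h1 h2 => (pr_norm (pr_mul (cv2m_s.snd h1) (bf2q1_s.snd h1 h2)))⟩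
noncomputable def bx2q1_s : Sl2 bx2q1 := ⟨_, fun h1 h2 => (pr_norm (pr_add (pr_csub (enc_rat _ 4189 25000) (pr_scaleT 4189 25000 h1)) (pr_cmul (enc_norm (enc_subr 237 260 h2)) (pr_norm (pr_csub (enc_rat _ 2577 2500) (pr_scaleT 2577 2500 h1))))))⟩
noncomputable def l2q1_s : Sl2 l2q1 := ⟨_, fun h1 h2 => (pr_norm (pr_mul (cv2m_s.snd h1) (bx2q1_s.snd h1 h2)))⟩
noncomputable def bd2q1_s : Sl2 bd2q1 := ⟨_, fun h1 h2 => (pr_norm (pr_add (pr_subr 601 500 (pr_scaleT 601 500 h1)) (pr_cmul (enc_norm (enc_subr 237 260 h2)) (pr_norm (pr_subr 3041 500 (pr_scaleT 3041 500 h1))))))⟩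
noncomputable def kc2q1_s : Sl2 kc2q1 := ⟨_, fun h1 h2 => (pr_norm (pr_mul (cv2m_s.snd h1) (bd2q1_s.snd h1 h2)))⟩
noncomputable def cv2p_s : Sl1 cv2p := ⟨_, fun h1 => (pr_norm (pr_add (pr_scaleT 9 10 (pr_subr 1 2 (swg_s.snd h1))) (pr_scaleT 1 10 (c3g_s.snd h1))))⟩
noncomputable def bf2q2_s : Sl2 bf2q2 := ⟨_, fun h1 h2 => (pr_norm (pr_add (pr_csub (enc_rat _ 105803 50000) (pr_scaleT 30861 25000 h1)) (pr_cmul (enc_norm (enc_subr 237 260 h2)) (pr_norm (pr_csub (enc_rat _ 365007 10000) (pr_scaleT 183699 5000 h1))))))⟩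
noncomputable def kf2q2_s : Sl2 kf2q2 := ⟨_, fun h1 h2 => (pr_norm (pr_mul (cv2p_s.snd h1) (bf2q2_s.snd h1 h2)))⟩
noncomputable def bx2q2_s : Sl2 bx2q2 := ⟨_, fun h1 h2 => (pr_norm (pr_case (pr_subr 127 100 h1) (pr_case (pr_subr 231 200 h1) (pr_add (pr_subr 322251 1550000 (pr_scaleT 4301 15500 h1)) (pr_cmul (enc_norm (bx2q2_3.enc h1.l h2)) (pr_norm (pr_csub (enc_rat _ 616941 155000) (pr_scaleT 4957 1550 h1))))) (pr_case (pr_subr 1213 1000 h1) (pr_add (pr_subr 695487 1450000 (pr_scaleT 1487 2900 h1)) (pr_cmul (enc_norm (bx2q2_3.enc h1.l h2)) (pr_norm (pr_csub (enc_rat _ 3603 2320) (pr_scaleT 159 145 h1))))) (pr_add (pr_subr 1146357 1900000 (pr_scaleT 292 475 h1)) (pr_cmul (enc_norm (bx2q2_3.enc h1.l h2)) (pr_norm (pr_csub (enc_rat _ 881539 570000) (pr_scaleT 311 285 h1))))))) (pr_case (pr_subr 277 200 h1) (pr_case (pr_subr 166 125 h1) (pr_add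 (pr_subr 16997 25000 (pr_scaleT 27 40 h1)) (pr_cmul (enc_norm (bx2q2_3.enc h1.l h2)) (pr_norm (pr_csub (enc_rat _ 447923 290000) (pr_scaleT 158 145 h1))))) (pr_add (pr_subr 1089179 1425000 (pr_scaleT 421 570 h1)) (pr_cmul (enc_norm (bx2q2_3.enc h1.l h2)) (pr_norm (pr_csub (enc_rat _ 175787 114000) (pr_scaleT 62 57 h1)))))) (pr_case (pr_subr 1443 1000 h1) (pr_add (pr_subr 5553809 5800000 (pr_scaleT 5093 5800 h1)) (pr_cmul (enc_norm (bx2q2_3.enc h1.l h2)) (pr_norm (pr_csub (enc_rat _ 44657 29000) (pr_scaleT 63 58 h1))))) (pr_add (pr_subr 963983 950000 (pr_scaleT 5231 5700 h1)) (pr_cmul (enc_norm (bx2q2_3.enc h1.l h2)) (pr_norm (pr_csub (enc_rat _ 292033 190000) (pr_scaleT 103 95 h1)))))))))⟩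
noncomputable def l2q2_s : Sl2 l2q2 := ⟨_, fun h1 h2 => (pr_norm (pr_mul (cv2p_s.snd h1) (bx2q2_s.snd h1 h2)))⟩
noncomputable def bd2q2_s : Sl2 bd2q2 := ⟨_, fun h1 h2 => (pr_norm (pr_add (pr_subr 7451 1250 (pr_scaleT 29133 5000 h1)) (pr_cmul (enc_norm (enc_subr 237 260 h2)) (pr_norm (pr_subr 101631 1000 (pr_scaleT 181 2 h1))))))⟩
noncomputable def kc2q2_s : Sl2 kc2q2 := ⟨_, fun h1 h2 => (pr_norm (pr_mul (cv2p_s.snd h1) (bd2q2_s.snd h1 h2)))⟩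
noncomputable def ycg_s : Sl1 ycg := ⟨_, fun h1 => (pr_sqrtg (pr_scaleT 4 3 (pr_csub (enc_pnc _ 3) (pr_sq h1))))⟩
noncomputable def xc23_s : Sl1 xc23 := ⟨_, fun h1 => (pr_norm (pr_add (pr_scaleT 9 10 (pr_subr 1 2 (swg_s.snd (pr_nd (ycg_s.snd h1))))) (pr_scaleT 1 10 h1)))⟩
noncomputable def kfc23_6_s : Sl2 kfc23_6 := ⟨_, fun h1 h2 => (pr_subr 1 2 (swg_s.snd (pr_nd (ycg_s.snd h1))))⟩
noncomputable def kfc23_9_s : Sl2 kfc23_9 := ⟨_, fun h1 h2 => (pr_add (pr_scaleT 9 10 (kfc23_6_s.snd h1 h2)) (pr_scaleT 1 10 h1))⟩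
noncomputable def kfc23_47_s : Sl2 kfc23_47 := ⟨_, fun h1 h2 => (pr_subn 1 (ycg_s.snd h1))⟩
noncomputable def kfc23_48_s : Sl2 kfc23_48 := ⟨_, fun h1 h2 => (gsg_s.snd (pr_norm (kfc23_47_s.snd h1 h2)))⟩
noncomputable def kfc23_49_s : Sl2 kfc23_49 := ⟨_, fun h1 h2 => (pr_scaleT 3 4 (kfc23_47_s.snd h1 h2))⟩
noncomputable def kfc23_50_s : Sl2 kfc23_50 := ⟨_, fun h1 h2 => (pr_half (kfc23_48_s.snd h1 h2))⟩
noncomputable def kfc23_52_s : Sl2 kfc23_52 := ⟨_, fun h1 h2 => (esg_s.snd (pr_norm (kfc23_47_s.snd h1 h2)))⟩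
noncomputable def kfc23_53_s : Sl2 kfc23_53 := ⟨_, fun h1 h2 => (kcg_s.snd (pr_norm (pr_sub (kfc23_49_s.snd h1 h2) (kfc23_50_s.snd h1 h2))) h2)⟩
noncomputable def kfc23_55_s : Sl2 kfc23_55 := ⟨_, fun h1 h2 => (pr_subn 2 (ycg_s.snd h1))⟩
noncomputable def kfc23_62_s : Sl2 kfc23_62 := ⟨_, fun h1 h2 => (pr_sub (pr_sub (kfc23_50_s.snd h1 h2) (kfc23_49_s.snd h1 h2)) (pr_csub (enc_rat _ 1 4) (pr_scaleT 3 8 (pr_mul (pr_norm (kfc23_47_s.snd h1 h2)) (pr_nd (pr_inv (kfc23_48_s.snd h1 h2)))))))⟩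
noncomputable def kfc23_68_s : Sl2 kfc23_68 := ⟨_, fun h1 h2 => (cv1r_s.snd (pr_nd (ycg_s.snd h1)))⟩
noncomputable def kfc23_82_s : Sl2 kfc23_82 := ⟨_, fun h1 h2 => (pr_subr 243 125 (ycg_s.snd h1))⟩
noncomputable def kfc23_105_s : Sl2 kfc23_105 := ⟨_, fun h1 h2 => (pr_mul (kfc23_68_s.snd h1 h2) (pr_norm (pr_case (pr_subr 31 16 (ycg_s.snd h1)) (pr_add (pr_subr 457393 87500 (pr_scaleT 887 350 (ycg_s.snd h1))) (pr_cmul (enc_norm (kfc23_11.enc h1.l h2)) (pr_norm (pr_csub (enc_rat _ 29302209 70000) (pr_scaleT 197168 875 (ycg_s.snd h1)))))) (pr_case (kfc23_82_s.snd h1 h2) (pr_add (pr_subr 6798321 1300000 (pr_scaleT 824 325 (ycg_s.snd h1))) (pr_cmul (enc_norm (kfc23_11.enc h1.l h2)) (pr_norm (pr_csub (enc_rat _ 54415421 130000) (pr_scaleT 14646 65 (ycg_s.snd h1)))))) (pr_add (pr_subr 14739 25000 (pr_scaleT 96290000 135666257 h1)) (pr_cmul (enc_norm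 (kfc23_11.enc h1.l h2)) (pr_norm (pr_csub (enc_rat _ 3897 2500) (pr_scaleT 21006700000 406998771 h1)))))))))⟩
noncomputable def kfc23_s : Sl2 kfc23 := ⟨_, fun h1 h2 => (pr_norm (pr_case (pr_subr 47 25 (ycg_s.snd h1)) (pr_mul (pr_norm (kfc23_9_s.snd h1 h2)) (pr_norm (pr_add (pr_subr 28087110831 7600000000 (pr_scaleT 7548706277 3800000000 (ycg_s.snd h1))) (pr_cmul (enc_norm (kfc23_11.enc h1.l h2)) (pr_norm (pr_subr 5111681959 47500000 (pr_scaleT 1400172653 23750000 (ycg_s.snd h1)))))))) (pr_case (kfc23_82_s.snd h1 h2) (pr_add (kfc23_105_s.snd h1 h2) (pr_mul (pr_norm (pr_mul (pr_norm (pr_sub (pr_wB3 (pr_mul (pr_norm (kfc23_55_s.snd h1 h2)) (pr_norm (pr_add (pr_mul (pr_norm (kfc23_62_s.snd h1 h2)) (pr_nd (pr_inv (kfc23_52_s.snd h1 h2)))) (kfc23_53_s.snd h1 h2)))) (kfc23_47_s.snd h1 h2) (kfc23_48_s.snd h1 h2) (kfc23_52_s.snd h1 h2) (kfc23_55_s.snd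 h1 h2) (kfc23_62_s.snd h1 h2) (kfc23_53_s.snd h1 h2) (ycg_s.snd h1) rfl rfl rfl rfl rfl rfl rfl rfl rfl rfl) (kfc23_105_s.snd h1 h2))) (pr_norm (pr_sub (kfc23_9_s.snd h1 h2) (kfc23_68_s.snd h1 h2))))) (pr_nd (pr_inv (pr_sub (kfc23_6_s.snd h1 h2) (kfc23_68_s.snd h1 h2)))))) (pr_mul (pr_norm (kfc23_9_s.snd h1 h2)) (pr_norm (pr_case (pr_csub (enc_rat _ 288811357 1000000000) h1) (pr_add (pr_subr 98275611296553509 147734267500000000 (pr_scaleT 471133874 295468535 h1)) (pr_cmul (enc_norm (kfc23_11.enc h1.l h2)) (pr_norm (pr_subr 64391826020685103 1846678343750000 (pr_scaleT 5757112928 59093707 h1))))) (pr_sub (pr_csub (enc_rat _ 1 2) (pr_scaleT 704700000 288811357 h1)) (pr_cmul (enc_norm (kfc23_11.enc h1.l h2)) (pr_nd (pr_scaleT 6732000000 288811357 h1))))))))))⟩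
noncomputable def lc23_6_s : Sl2 lc23_6 := ⟨_, fun h1 h2 => (pr_subr 1 2 (swg_s.snd (pr_nd (ycg_s.snd h1))))⟩
noncomputable def lc23_9_s : Sl2 lc23_9 := ⟨_, fun h1 h2 => (pr_add (pr_scaleT 9 10 (lc23_6_s.snd h1 h2)) (pr_scaleT 1 10 h1))⟩
noncomputable def lc23_44_s : Sl2 lc23_44 := ⟨_, fun h1 h2 => (pr_csub (enc_rat _ 288811357 1000000000) h1)⟩
noncomputable def lc23_71_s : Sl2 lc23_71 := ⟨_, fun h1 h2 => (pr_subn 1 (ycg_s.snd h1))⟩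
noncomputable def lc23_84_s : Sl2 lc23_84 := ⟨_, fun h1 h2 => (cv1r_s.snd (pr_nd (ycg_s.snd h1)))⟩
noncomputable def lc23_88_s : Sl2 lc23_88 := ⟨_, fun h1 h2 => (pr_subr 47 25 (ycg_s.snd h1))⟩
noncomputable def lc23_111_s : Sl2 lc23_111 := ⟨_, fun h1 h2 => (pr_subr 243 125 (ycg_s.snd h1))⟩
noncomputable def lc23_142_s : Sl2 lc23_142 := ⟨_, fun h1 h2 => (pr_mul (lc23_84_s.snd h1 h2) (pr_norm (pr_case (pr_subr 31 16 (ycg_s.snd h1)) (pr_case (lc23_88_s.snd h1 h2) (pr_add (pr_subr 853281 475000 (pr_scaleT 6797 4750 (ycg_s.snd h1))) (pr_cmul (enc_norm (lc23_11.enc h1.l h2)) (pr_norm (pr_subr 329971 47500 (pr_scaleT 9143 1900 (ycg_s.snd h1)))))) (pr_add (pr_subr 1032929 575000 (pr_scaleT 4114 2875 (ycg_s.snd h1))) (pr_cmul (enc_norm (lc23_11.enc h1.l h2)) (pr_norm (pr_csub (enc_rat _ 576999 28750) (pr_scaleT 5496 575 (ycg_s.snd h1))))))) (pr_case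 (lc23_111_s.snd h1 h2) (pr_add (pr_subr 2338721 1300000 (pr_scaleT 931 650 (ycg_s.snd h1))) (pr_cmul (enc_norm (lc23_11.enc h1.l h2)) (pr_norm (pr_csub (enc_rat _ 1860013 32500) (pr_scaleT 1868 65 (ycg_s.snd h1)))))) (pr_case (lc23_44_s.snd h1 h2) (pr_add (pr_addc (pr_scaleT 18770000 59093707 h1) (enc_rat _ 2529549050453 2954685350000)) (pr_cmul (enc_norm (lc23_11.enc h1.l h2)) (pr_norm (pr_csub (enc_rat _ 5891251432297 590937070000) (pr_scaleT 1249500000 59093707 h1))))) (pr_add (pr_addc (pr_scaleT 91710000 288811357 h1) (enc_rat _ 42807 50000)) (pr_cmul (enc_norm (lc23_11.enc h1.l h2)) (pr_norm (pr_addc (pr_scaleT 1673400000 288811357 h1) (enc_rat _ 5473 2500))))))))))⟩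
noncomputable def lc23_s : Sl2 lc23 := ⟨_, fun h1 h2 => (pr_norm (pr_case (lc23_88_s.snd h1 h2) (pr_mul (pr_norm (lc23_9_s.snd h1 h2)) (pr_norm (pr_case (pr_subr 913 500 (ycg_s.snd h1)) (pr_add (pr_subr 8269341 8150000 (pr_scaleT 7479 8150 (ycg_s.snd h1))) (pr_cmul (enc_norm (lc23_11.enc h1.l h2)) (pr_norm (pr_csub (enc_rat _ 2507191 1630000) (pr_scaleT 3537 3260 (ycg_s.snd h1)))))) (pr_add (pr_add (pr_subr 137004241409 135000000000 (pr_scaleT 247800593 270000000 (ycg_s.snd h1))) (pr_cmul (enc_norm (lc23_11.enc h1.l h2)) (pr_norm (pr_subr 1150946530837 27000000000 (pr_scaleT 1247519749 54000000 (ycg_s.snd h1)))))) (pr_cmul (lc23_38.enc h1.l h2) (pr_norm (pr_csub (enc_rat _ 3020206739 27000000) (pr_scaleT 3308003 54000 (ycg_s.snd h1))))))))) (pr_case (lc23_111_s.snd h1 h2) (pr_add (lc23_142_s.snd h1 h2) (pr_mul (pr_norm (pr_mul (pr_norm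 (pr_sub (pr_sub (qsg_s.snd (pr_norm (lc23_71_s.snd h1 h2))) (pr_mul (pr_norm (pr_nat 2 (pr_subc (lc23_71_s.snd h1 h2) h2))) (pr_norm (pr_mul (esg_s.snd (pr_norm (lc23_71_s.snd h1 h2))) (kcg_s.snd (pr_norm (pr_sub (pr_scaleT 3 4 (lc23_71_s.snd h1 h2)) (pr_half (gsg_s.snd (pr_norm (lc23_71_s.snd h1 h2)))))) h2))))) (lc23_142_s.snd h1 h2))) (pr_norm (pr_sub (lc23_9_s.snd h1 h2) (lc23_84_s.snd h1 h2))))) (pr_nd (pr_inv (pr_sub (lc23_6_s.snd h1 h2) (lc23_84_s.snd h1 h2)))))) (pr_mul (pr_norm (lc23_9_s.snd h1 h2)) (pr_norm (pr_case (lc23_44_s.snd h1 h2) (pr_add (pr_add (pr_csub (enc_rat _ 462844931071488393 590937070000000000) (pr_scaleT 48326749 590937070 h1)) (pr_cmul (enc_norm (lc23_11.enc h1.l h2)) (pr_norm (pr_addc (pr_scaleT 159412007 59093707 h1) (enc_rat _ 31750957831036501 59093707000000000))))) (pr_cmul (lc23_38.enc h1.l h2) (pr_norm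 (pr_subr 6341430965649 29546853500000 (pr_scaleT 43914000 59093707 h1))))) (pr_add (pr_addc (pr_scaleT 157025000 288811357 h1) (enc_rat _ 120519 200000)) (pr_cmul (enc_norm (lc23_11.enc h1.l h2)) (pr_norm (pr_addc (pr_scaleT 610550000 288811357 h1) (enc_rat _ 14117 20000)))))))))))⟩
noncomputable def kcc23_6_s : Sl2 kcc23_6 := ⟨_, fun h1 h2 => (pr_subr 1 2 (swg_s.snd (pr_nd (ycg_s.snd h1))))⟩
noncomputable def kcc23_9_s : Sl2 kcc23_9 := ⟨_, fun h1 h2 => (pr_add (pr_scaleT 9 10 (kcc23_6_s.snd h1 h2)) (pr_scaleT 1 10 h1))⟩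
noncomputable def kcc23_33_s : Sl2 kcc23_33 := ⟨_, fun h1 h2 => (pr_subn 1 (ycg_s.snd h1))⟩
noncomputable def kcc23_34_s : Sl2 kcc23_34 := ⟨_, fun h1 h2 => (gsg_s.snd (pr_norm (kcc23_33_s.snd h1 h2)))⟩
noncomputable def kcc23_38_s : Sl2 kcc23_38 := ⟨_, fun h1 h2 => (esg_s.snd (pr_norm (kcc23_33_s.snd h1 h2)))⟩
noncomputable def kcc23_43_s : Sl2 kcc23_43 := ⟨_, fun h1 h2 => (gug_s.snd (pr_norm (kcc23_33_s.snd h1 h2)))⟩
noncomputable def kcc23_45_s : Sl2 kcc23_45 := ⟨_, fun h1 h2 => (pr_mul (pr_norm (kcc23_33_s.snd h1 h2)) (pr_nd (pr_inv (kcc23_34_s.snd h1 h2))))⟩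
noncomputable def kcc23_46_s : Sl2 kcc23_46 := ⟨_, fun h1 h2 => (pr_scaleT 3 4 (kcc23_45_s.snd h1 h2))⟩
noncomputable def kcc23_72_s : Sl2 kcc23_72 := ⟨_, fun h1 h2 => (cv1r_s.snd (pr_nd (ycg_s.snd h1)))⟩
noncomputable def kcc23_74_s : Sl2 kcc23_74 := ⟨_, fun h1 h2 => (pr_subr 243 125 (ycg_s.snd h1))⟩
noncomputable def kcc23_96_s : Sl2 kcc23_96 := ⟨_, fun h1 h2 => (pr_mul (kcc23_72_s.snd h1 h2) (pr_norm (pr_case (kcc23_74_s.snd h1 h2) (pr_add (pr_subr 1876311 185000 (pr_scaleT 3249 370 (ycg_s.snd h1))) (pr_cmul (enc_norm (kcc23_11.enc h1.l h2)) (pr_norm (pr_csub (enc_rat _ 6301743 18500) (pr_scaleT 130945 444 (ycg_s.snd h1)))))) (pr_add (pr_subr 39 1250 (pr_scaleT 2319800000 135666257 h1)) (pr_cmul (enc_norm (kcc23_11.enc h1.l h2)) (pr_norm (pr_csub (enc_rat _ 298 125) (pr_scaleT 235076000000 406998771 h1))))))))⟩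
noncomputable def kcc23_s : Sl2 kcc23 := ⟨_, fun h1 h2 => (pr_norm (pr_case (pr_subr 47 25 (ycg_s.snd h1)) (pr_mul (pr_norm (kcc23_9_s.snd h1 h2)) (pr_norm (pr_add (pr_subr 9060498839 1520000000 (pr_scaleT 4428243613 760000000 (ycg_s.snd h1))) (pr_cmul (enc_norm (kcc23_11.enc h1.l h2)) (pr_norm (pr_subr 4065279651 40000000 (pr_scaleT 1810013217 20000000 (ycg_s.snd h1)))))))) (pr_case (kcc23_74_s.snd h1 h2) (pr_add (kcc23_96_s.snd h1 h2) (pr_mul (pr_norm (pr_mul (pr_norm (pr_sub (pr_add (pr_sub (pr_add (pr_cadd (enc_rat _ 3 4) (pr_scaleT 3 2 (kcc23_33_s.snd h1 h2))) (pr_scaleT 3 4 (pr_mul (pr_norm (kcc23_45_s.snd h1 h2)) (kcc23_43_s.snd h1 h2)))) (pr_wT (pr_mul (pr_norm (pr_sub (pr_mul (pr_norm (pr_mul (pr_norm (kcc23_46_s.snd h1 h2)) (pr_norm (pr_subn 3 (pr_nat 4 (kcc23_34_s.snd h1 h2)))))) (kcc23_38_s.snd h1 h2)) (pr_mul (qsg_s.snd (pr_norm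 (kcc23_33_s.snd h1 h2))) (pr_norm (pr_csub (enc_rat _ 1 2) (kcc23_46_s.snd h1 h2)))))) (pr_nd (pr_inv (pr_mul (pr_nd (pr_nat 2 (kcc23_38_s.snd h1 h2))) (kcc23_38_s.snd h1 h2))))) (kcc23_33_s.snd h1 h2) (kcc23_34_s.snd h1 h2) (kcc23_38_s.snd h1 h2) rfl rfl rfl rfl rfl rfl rfl rfl)) (pr_mul (kcg_s.snd (pr_norm (pr_sub (pr_scaleT 3 4 (kcc23_33_s.snd h1 h2)) (pr_half (kcc23_34_s.snd h1 h2)))) h2) (pr_norm (pr_csub (enc_pnc _ 1) (pr_add (kcc23_43_s.snd h1 h2) (pr_nat 2 (kcc23_34_s.snd h1 h2))))))) (kcc23_96_s.snd h1 h2))) (pr_norm (pr_sub (kcc23_9_s.snd h1 h2) (kcc23_72_s.snd h1 h2))))) (pr_nd (pr_inv (pr_sub (kcc23_6_s.snd h1 h2) (kcc23_72_s.snd h1 h2)))))) (pr_mul (pr_norm (kcc23_9_s.snd h1 h2)) (pr_norm (pr_add (pr_addc (pr_scaleT 4587218624431 339843973785 h1) (enc_rat _ 5661 1670)) (pr_cmul (enc_norm (kcc23_11.enc h1.l h2)) (pr_norm (pr_addc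 (pr_scaleT 9318062021243 67968794757 h1) (enc_rat _ 111 167))))))))))⟩
noncomputable def cv3m_s : Sl1 cv3m := ⟨_, fun h1 => (pr_norm (pr_add (pr_scaleT 2 5 (pr_addc (swg_s.snd h1) (enc_rat _ 1 2))) (pr_scaleT 3 5 (c3g_s.snd h1))))⟩
noncomputable def bf3q0_s : Sl2 bf3q0 := ⟨_, fun h1 h2 => (pr_norm (pr_add (pr_csub (enc_rat _ 39521 100000) (pr_scaleT 78321 50000 h1)) (pr_cmul (enc_norm (enc_subr 237 260 h2)) (pr_norm (pr_addc (pr_scaleT 8797 5000 h1) (enc_rat _ 10487 10000))))))⟩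
noncomputable def kf3q0_s : Sl2 kf3q0 := ⟨_, fun h1 h2 => (pr_norm (pr_mul (cv3m_s.snd h1) (bf3q0_s.snd h1 h2)))⟩
noncomputable def bx3q0_s : Sl2 bx3q0 := ⟨_, fun h1 h2 => (pr_norm (pr_case (pr_subr 83 250 h1) (pr_add (pr_csub (enc_rat _ 23219 100000) (pr_scaleT 7591 33200 h1)) (pr_cmul (enc_norm (bx3q0_3.enc h1.l h2)) (pr_norm (pr_csub (enc_rat _ 9333 10000) (pr_scaleT 1089 830 h1))))) (pr_add (pr_csub (enc_rat _ 975179 4200000) (pr_scaleT 3841 16800 h1)) (pr_cmul (enc_norm (bx3q0_3.enc h1.l h2)) (pr_norm (pr_csub (enc_rat _ 195983 210000) (pr_scaleT 551 420 h1)))))))⟩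
noncomputable def l3q0_s : Sl2 l3q0 := ⟨_, fun h1 h2 => (pr_norm (pr_mul (cv3m_s.snd h1) (bx3q0_s.snd h1 h2)))⟩
noncomputable def bd3q0_s : Sl2 bd3q0 := ⟨_, fun h1 h2 => (pr_norm (pr_add (pr_csub (enc_rat _ 26989 10000) (pr_scaleT 2699 1000 h1)) (pr_cmul (enc_norm (enc_subr 237 260 h2)) (pr_norm (pr_subr 183 40 (pr_scaleT 572 125 h1))))))⟩
noncomputable def kc3q0_s : Sl2 kc3q0 := ⟨_, fun h1 h2 => (pr_norm (pr_mul (cv3m_s.snd h1) (bd3q0_s.snd h1 h2)))⟩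
noncomputable def bf3q1_s : Sl2 bf3q1 := ⟨_, fun h1 h2 => (pr_norm (pr_add (pr_subr 1671 6250 (pr_scaleT 7921 6250 h1)) (pr_cmul (enc_norm (enc_subr 237 260 h2)) (pr_norm (pr_subr 297 250 (pr_scaleT 297 250 h1))))))⟩
noncomputable def kf3q1_s : Sl2 kf3q1 := ⟨_, fun h1 h2 => (pr_norm (pr_mul (cv3m_s.snd h1) (bf3q1_s.snd h1 h2)))⟩
noncomputable def bx3q1_s : Sl2 bx3q1 := ⟨_, fun h1 h2 => (pr_norm (pr_add (pr_csub (enc_rat _ 11787 50000) (pr_scaleT 11787 50000 h1)) (pr_cmul (enc_norm (enc_subr 237 260 h2)) (pr_norm (pr_csub (enc_rat _ 2773 5000) (pr_scaleT 2773 5000 h1))))))⟩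
noncomputable def l3q1_s : Sl2 l3q1 := ⟨_, fun h1 h2 => (pr_norm (pr_mul (cv3m_s.snd h1) (bx3q1_s.snd h1 h2)))⟩
noncomputable def bd3q1_s : Sl2 bd3q1 := ⟨_, fun h1 h2 => (pr_norm (pr_add (pr_csub (enc_rat _ 6747 2500) (pr_scaleT 6747 2500 h1)) (pr_cmul (enc_norm (enc_subr 237 260 h2)) (pr_norm (pr_subr 2287 500 (pr_scaleT 2287 500 h1))))))⟩
noncomputable def kc3q1_s : Sl2 kc3q1 := ⟨_, fun h1 h2 => (pr_norm (pr_mul (cv3m_s.snd h1) (bd3q1_s.snd h1 h2)))⟩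
noncomputable def cv3p_s : Sl1 cv3p := ⟨_, fun h1 => (pr_norm (pr_add (pr_scaleT 2 5 (pr_subr 1 2 (swg_s.snd h1))) (pr_scaleT 3 5 (c3g_s.snd h1))))⟩
noncomputable def bf3q2_s : Sl2 bf3q2 := ⟨_, fun h1 h2 => (pr_norm (pr_add (pr_subr 21751 50000 (pr_scaleT 55267 50000 h1)) (pr_cmul (enc_norm (enc_subr 237 260 h2)) (pr_norm (pr_subr 284723 5000 (pr_scaleT 282477 5000 h1))))))⟩
noncomputable def kf3q2_s : Sl2 kf3q2 := ⟨_, fun h1 h2 => (pr_norm (pr_mul (cv3p_s.snd h1) (bf3q2_s.snd h1 h2)))⟩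
noncomputable def bx3q2_s : Sl2 bx3q2 := ⟨_, fun h1 h2 => (pr_norm (pr_case (pr_subr 166 125 h1) (pr_add (pr_subr 1067131 2050000 (pr_scaleT 813 1640 h1)) (pr_cmul (enc_norm (bx3q2_3.enc h1.l h2)) (pr_norm (pr_csub (enc_rat _ 359871 51250) (pr_scaleT 5467 820 h1))))) (pr_case (pr_subr 1443 1000 h1) (pr_add (pr_subr 3052989 5750000 (pr_scaleT 5791 11500 h1)) (pr_cmul (enc_norm (bx3q2_3.enc h1.l h2)) (pr_norm (pr_subr 795011 71875 (pr_scaleT 3996 575 h1))))) (pr_add (pr_subr 1746513 1900000 (pr_scaleT 367 475 h1)) (pr_cmul (enc_norm (bx3q2_3.enc h1.l h2)) (pr_norm (pr_subr 525729 47500 (pr_scaleT 1982 285 h1))))))))⟩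
noncomputable def l3q2_s : Sl2 l3q2 := ⟨_, fun h1 h2 => (pr_norm (pr_mul (cv3p_s.snd h1) (bx3q2_s.snd h1 h2)))⟩
noncomputable def bd3q2_s : Sl2 bd3q2 := ⟨_, fun h1 h2 => (pr_norm (pr_add (pr_csub (enc_rat _ 97727 10000) (pr_scaleT 21677 5000 h1)) (pr_cmul (enc_norm (enc_subr 237 260 h2)) (pr_norm (pr_csub (enc_rat _ 192859 1000) (pr_scaleT 19419 125 h1))))))⟩
noncomputable def kc3q2_s : Sl2 kc3q2 := ⟨_, fun h1 h2 => (pr_norm (pr_mul (cv3p_s.snd h1) (bd3q2_s.snd h1 h2)))⟩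
noncomputable def xc33_s : Sl1 xc33 := ⟨_, fun h1 => (pr_norm (pr_add (pr_scaleT 2 5 (pr_subr 1 2 (swg_s.snd (pr_nd (ycg_s.snd h1))))) (pr_scaleT 3 5 h1)))⟩
noncomputable def kfc33_s : Sl2 kfc33 := ⟨_, fun h1 h2 => (pr_norm (pr_mul (pr_norm (pr_add (pr_scaleT 2 5 (pr_subr 1 2 (swg_s.snd (pr_nd (ycg_s.snd h1))))) (pr_scaleT 3 5 h1))) (pr_norm (pr_case (pr_subr 243 125 (ycg_s.snd h1)) (pr_case (pr_subr 31 16 (ycg_s.snd h1)) (pr_add (pr_subr 472263 140000 (pr_scaleT 39461 21875 (ycg_s.snd h1))) (pr_cmul (enc_norm (kfc33_11.enc h1.l h2)) (pr_norm (pr_subr 14786157 70000 (pr_scaleT 98246 875 (ycg_s.snd h1)))))) (pr_add (pr_subr 4383147 1300000 (pr_scaleT 586 325 (ycg_s.snd h1))) (pr_cmul (enc_norm (kfc33_11.enc h1.l h2)) (pr_norm (pr_subr 27458943 130000 (pr_scaleT 7298 65 (ycg_s.snd h1))))))) (pr_case (pr_csub (enc_rat _ 288811357 1000000000)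 h1) (pr_add (pr_csub (enc_rat _ 2720694436737 5909370700000) (pr_scaleT 47460000 59093707 h1)) (pr_cmul (enc_norm (kfc33_11.enc h1.l h2)) (pr_norm (pr_subr 27978302496969 1181874140000 (pr_scaleT 4459850000 59093707 h1))))) (pr_sub (pr_csub (enc_rat _ 1 2) (pr_scaleT 271550000 288811357 h1)) (pr_cmul (enc_norm (kfc33_11.enc h1.l h2)) (pr_nd (pr_scaleT 1876000000 288811357 h1)))))))))⟩
noncomputable def lc33_s : Sl2 lc33 := ⟨_, fun h1 h2 => (pr_norm (pr_mul (pr_norm (pr_add (pr_scaleT 2 5 (pr_subr 1 2 (swg_s.snd (pr_nd (ycg_s.snd h1))))) (pr_scaleT 3 5 h1))) (pr_norm (pr_case (pr_subr 243 125 (ycg_s.snd h1)) (pr_case (pr_subr 31 16 (ycg_s.snd h1)) (pr_add (pr_subr 643437 700000 (pr_scaleT 16901 21875 (ycg_s.snd h1))) (pr_cmul (enc_norm (lc33_11.enc h1.l h2)) (pr_norm (pr_subr 38741 3500 (pr_scaleT 30428 4375 (ycg_s.snd h1)))))) (pr_add (pr_subr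 47767 52000 (pr_scaleT 251 325 (ycg_s.snd h1))) (pr_cmul (enc_norm (lc33_11.enc h1.l h2)) (pr_norm (pr_subr 359667 32500 (pr_scaleT 452 65 (ycg_s.snd h1))))))) (pr_case (pr_csub (enc_rat _ 288811357 1000000000) h1) (pr_add (pr_csub (enc_rat _ 7674336550021 11818741400000) (pr_scaleT 9665000 59093707 h1)) (pr_cmul (enc_norm (lc33_11.enc h1.l h2)) (pr_norm (pr_subr 2103311257653 1181874140000 (pr_scaleT 614350000 59093707 h1))))) (pr_add (pr_csub (enc_rat _ 120519 200000) (pr_scaleT 495000 288811357 h1)) (pr_cmul (enc_norm (lc33_11.enc h1.l h2)) (pr_norm (pr_addc (pr_scaleT 517050000 288811357 h1) (enc_rat _ 14117 20000))))))))))⟩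
noncomputable def kcc33_s : Sl2 kcc33 := ⟨_, fun h1 h2 => (pr_norm (pr_mul (pr_norm (pr_add (pr_scaleT 2 5 (pr_subr 1 2 (swg_s.snd (pr_nd (ycg_s.snd h1))))) (pr_scaleT 3 5 h1))) (pr_norm (pr_case (pr_subr 47 25 (ycg_s.snd h1)) (pr_add (pr_csub (enc_rat _ 928387 95000) (pr_scaleT 8237 1900 (ycg_s.snd h1))) (pr_cmul (enc_norm (kcc33_11.enc h1.l h2)) (pr_norm (pr_csub (enc_rat _ 3664339 19000) (pr_scaleT 29517 190 (ycg_s.snd h1)))))) (pr_case (pr_subr 243 125 (ycg_s.snd h1)) (pr_add (pr_csub (enc_rat _ 781901 80000) (pr_scaleT 555 128 (ycg_s.snd h1))) (pr_cmul (enc_norm (kcc33_11.enc h1.l h2)) (pr_norm (pr_csub (enc_rat _ 771373 4000) (pr_scaleT 4971 32 (ycg_s.snd h1)))))) (pr_add (pr_csub (enc_rat _ 5661 1670) (pr_scaleT 341535100000 67968794757 h1)) (pr_cmul (enc_norm (kcc33_11.enc h1.l h2)) (pr_norm (pr_csub (enc_rat _ 111 167) (pr_scaleT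 18338215000000 67968794757 h1))))))))))⟩
noncomputable def kf4q0_s : Sl2 kf4q0 := ⟨_, fun h1 h2 => (pr_norm (pr_sub (pr_mul h1 (kcg_s.snd (pr_nd (pr_half h1)) h2)) (pr_mul (pr_norm (pr_mul (pr_nd (pr_sq h1)) (pr_norm (pr_addc (c3g_s.snd h1) (enc_rat _ 3 2))))) (pr_nd (pr_inv (pr_mul (pr_norm (pr_csub (enc_pnc _ 1) h1)) (pr_norm (pr_cadd (enc_pnc _ 1) h1))))))))⟩
noncomputable def l4q0_6_s : Sl2 l4q0_6 := ⟨_, fun h1 h2 => (pr_half h1)⟩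
noncomputable def l4q0_7_s : Sl2 l4q0_7 := ⟨_, fun h1 h2 => (pr_half (c3g_s.snd h1))⟩
noncomputable def l4q0_8_s : Sl2 l4q0_8 := ⟨_, fun h1 h2 => (pr_scaleT 1 4 h1)⟩
noncomputable def l4q0_s : Sl2 l4q0 := ⟨_, fun h1 h2 => (pr_norm (pr_add (txg_s.snd (pr_nd (l4q0_6_s.snd h1 h2)) (pr_norm (pr_sub (l4q0_7_s.snd h1 h2) (l4q0_8_s.snd h1 h2))) h2) (txg_s.snd (pr_nd (pr_neg (l4q0_6_s.snd h1 h2))) (pr_norm (pr_add (l4q0_7_s.snd h1 h2) (l4q0_8_s.snd h1 h2))) h2)))⟩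
noncomputable def kc4q0_6_s : Sl2 kc4q0_6 := ⟨_, fun h1 h2 => (pr_half h1)⟩
noncomputable def kc4q0_s : Sl2 kc4q0 := ⟨_, fun h1 h2 => (pr_norm (pr_case (pr_subr 167 1000 (kc4q0_6_s.snd h1 h2)) (pr_add (pr_csub (enc_rat _ 2201 400) (pr_scaleT 20017 3340 h1)) (pr_cmul (enc_norm (kc4q0_3.enc h1.l h2)) (pr_norm (pr_subr 216533 1000 (pr_neg (pr_scaleT 18185 334 h1)))))) (pr_case (pr_subr 333 1000 (kc4q0_6_s.snd h1 h2)) (pr_add (pr_csub (enc_rat _ 9134127 1660000) (pr_scaleT 19897 3320 h1)) (pr_cmul (enc_norm (kc4q0_3.enc h1.l h2)) (pr_norm (pr_subr 35944329 166000 (pr_neg (pr_scaleT 18077 332 h1)))))) (pr_add (pr_csub (enc_rat _ 15111 3340) (pr_scaleT 15111 3340 h1)) (pr_cmul (enc_norm (kc4q0_3.enc h1.l h2)) (pr_norm (pr_subr 252795 334 (pr_scaleT 252795 334 h1))))))))⟩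
noncomputable def kf4q1_s : Sl2 kf4q1 := ⟨_, fun h1 h2 => (pr_norm (pr_add (pr_mul (pr_norm (pr_mul h1 (pr_norm (pr_addc (c3g_s.snd h1) (enc_rat _ 3 2))))) (pr_nd (pr_inv (pr_cadd (enc_pnc _ 1) h1)))) (pr_mul (pr_norm (pr_subn 1 h1)) (kcg_s.snd (pr_nd (pr_half h1)) h2))))⟩
noncomputable def l4q1_7_s : Sl2 l4q1_7 := ⟨_, fun h1 h2 => (pr_half h1)⟩
noncomputable def l4q1_8_s : Sl2 l4q1_8 := ⟨_, fun h1 h2 => (pr_half (c3g_s.snd h1))⟩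
noncomputable def l4q1_9_s : Sl2 l4q1_9 := ⟨_, fun h1 h2 => (pr_scaleT 1 4 h1)⟩
noncomputable def l4q1_s : Sl2 l4q1 := ⟨_, fun h1 h2 => (pr_norm (pr_add (txg_s.snd (pr_nd (l4q1_7_s.snd h1 h2)) (pr_norm (pr_sub (l4q1_8_s.snd h1 h2) (l4q1_9_s.snd h1 h2))) h2) (txg_s.snd (pr_nd (pr_neg (l4q1_7_s.snd h1 h2))) (pr_norm (pr_add (l4q1_8_s.snd h1 h2) (l4q1_9_s.snd h1 h2))) h2)))⟩
noncomputable def kc4q1_7_s : Sl2 kc4q1_7 := ⟨_, fun h1 h2 => (pr_half h1)⟩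
noncomputable def kc4q1_s : Sl2 kc4q1 := ⟨_, fun h1 h2 => (pr_norm (pr_case (pr_subr 167 1000 (kc4q1_7_s.snd h1 h2)) (pr_add (pr_csub (enc_rat _ 2201 400) (pr_scaleT 20017 3340 h1)) (pr_cmul (enc_norm (kc4q1_3.enc h1.l h2)) (pr_norm (pr_subr 216533 1000 (pr_neg (pr_scaleT 18185 334 h1)))))) (pr_case (pr_subr 333 1000 (kc4q1_7_s.snd h1 h2)) (pr_add (pr_csub (enc_rat _ 9134127 1660000) (pr_scaleT 19897 3320 h1)) (pr_cmul (enc_norm (kc4q1_3.enc h1.l h2)) (pr_norm (pr_subr 35944329 166000 (pr_neg (pr_scaleT 18077 332 h1)))))) (pr_add (pr_csub (enc_rat _ 15111 3340) (pr_scaleT 15111 3340 h1)) (pr_cmul (enc_norm (kc4q1_3.enc h1.l h2)) (pr_norm (pr_subr 252795 334 (pr_scaleT 252795 334 h1))))))))⟩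
noncomputable def kf4q2_s : Sl2 kf4q2 := ⟨_, fun h1 h2 => (pr_norm (pr_add (pr_mul (pr_norm (pr_mul (pr_norm (pr_sub (pr_nat 2 (c3g_s.snd h1)) h1)) (pr_norm (pr_sub (pr_addc (c3g_s.snd h1) (enc_pnc _ 3)) (pr_scaleT 3 2 h1))))) (pr_nd (pr_inv (pr_nat 4 (pr_csub (enc_pnc _ 2) h1))))) (pr_mul (pr_norm (pr_subn 1 h1)) (kcg_s.snd (pr_norm (pr_sub (pr_scaleT 1 4 h1) (pr_half (c3g_s.snd h1)))) h2))))⟩
noncomputable def l4q2_7_s : Sl2 l4q2_7 := ⟨_, fun h1 h2 => (pr_half (c3g_s.snd h1))⟩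
noncomputable def l4q2_8_s : Sl2 l4q2_8 := ⟨_, fun h1 h2 => (pr_scaleT 1 4 h1)⟩
noncomputable def l4q2_9_s : Sl2 l4q2_9 := ⟨_, fun h1 h2 => (pr_sub (l4q2_7_s.snd h1 h2) (l4q2_8_s.snd h1 h2))⟩
noncomputable def l4q2_12_s : Sl2 l4q2_12 := ⟨_, fun h1 h2 => (pr_add (pr_scaleT 1 4 (c3g_s.snd h1)) (pr_scaleT 3 8 h1))⟩
noncomputable def l4q2_14_s : Sl2 l4q2_14 := ⟨_, fun h1 h2 => (pr_half (l4q2_9_s.snd h1 h2))⟩
noncomputable def l4q2_s : Sl2 l4q2 := ⟨_, fun h1 h2 => (pr_norm (pr_sub (pr_nat 2 (txg_s.snd (pr_norm (pr_sub (l4q2_8_s.snd h1 h2) (l4q2_7_s.snd h1 h2))) (pr_norm (pr_add (l4q2_12_s.snd h1 h2) (l4q2_14_s.snd h1 h2))) h2)) (txg_s.snd (pr_norm (l4q2_9_s.snd h1 h2)) (pr_norm (pr_sub (l4q2_12_s.snd h1 h2) (l4q2_14_s.snd h1 h2))) h2)))⟩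
noncomputable def kc4q2_9_s : Sl2 kc4q2_9 := ⟨_, fun h1 h2 => (pr_sub (pr_half (c3g_s.snd h1)) (pr_scaleT 1 4 h1))⟩
noncomputable def kc4q2_26_s : Sl2 kc4q2_26 := ⟨_, fun h1 h2 => (pr_neg (pr_scaleT 2268 415 (kc4q2_9_s.snd h1 h2)))⟩
noncomputable def kc4q2_43_s : Sl2 kc4q2_43 := ⟨_, fun h1 h2 => (pr_cmul (enc_norm (kc4q2_3.enc h1.l h2)) (pr_norm (pr_addc (pr_scaleT 47831 167 (kc4q2_9_s.snd h1 h2)) (enc_rat _ 47799 500))))⟩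
noncomputable def kc4q2_s : Sl2 kc4q2 := ⟨_, fun h1 h2 => (pr_norm (pr_case (kc4q2_9_s.snd h1 h2) (pr_case (pr_addc (kc4q2_9_s.snd h1 h2) (enc_rat _ 333 1000)) (pr_add (pr_addc (pr_scaleT 5661 835 (kc4q2_9_s.snd h1 h2)) (enc_rat _ 5661 1670)) (pr_cmul (enc_norm (kc4q2_3.enc h1.l h2)) (pr_norm (pr_addc (pr_scaleT 222 167 (kc4q2_9_s.snd h1 h2)) (enc_rat _ 111 167))))) (pr_case (pr_addc (kc4q2_9_s.snd h1 h2) (enc_rat _ 167 1000)) (pr_add (pr_subr 285381 415000 (kc4q2_26_s.snd h1 h2)) (pr_cmul (enc_norm (kc4q2_3.enc h1.l h2)) (pr_norm (pr_addc (pr_scaleT 47545 166 (kc4q2_9_s.snd h1 h2)) (enc_rat _ 15869337 166000))))) (pr_add (pr_subr 6877 10000 (pr_neg (pr_scaleT 9127 1670 (kc4q2_9_s.snd h1 h2)))) (kc4q2_43_s.snd h1 h2)))) (pr_case (pr_subr 167 1000 (kc4q2_9_s.snd h1 h2)) (pr_add (pr_subr 6877 10000 (pr_neg (pr_scaleT 4564 835 (kc4q2_9_s.snd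 h1 h2)))) (kc4q2_43_s.snd h1 h2)) (pr_case (pr_subr 333 1000 (kc4q2_9_s.snd h1 h2)) (pr_add (pr_subr 570903 830000 (kc4q2_26_s.snd h1 h2)) (pr_cmul (enc_norm (kc4q2_3.enc h1.l h2)) (pr_norm (pr_addc (pr_scaleT 23772 83 (kc4q2_9_s.snd h1 h2)) (enc_rat _ 7934683 83000))))) (pr_add (pr_subr 25077 3340 (pr_scaleT 25077 1670 (kc4q2_9_s.snd h1 h2))) (pr_cmul (enc_norm (kc4q2_3.enc h1.l h2)) (pr_norm (pr_csub (enc_rat _ 190973 334) (pr_scaleT 190973 167 (kc4q2_9_s.snd h1 h2))))))))))⟩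
noncomputable def kfc43_s : Sl2 kfc43 := ⟨_, fun h1 h2 => (pr_norm (pr_sub (pr_mul (pr_norm (pr_subn 2 (ycg_s.snd h1))) (kcg_s.snd (pr_norm (pr_sub (pr_scaleT 1 4 (ycg_s.snd h1)) (pr_half h1))) h2)) (pr_mul (pr_norm (pr_mul (pr_norm (pr_sub (pr_nat 2 h1) (ycg_s.snd h1))) (pr_norm (pr_sub (pr_addc h1 (enc_pnc _ 3)) (pr_scaleT 3 2 (ycg_s.snd h1)))))) (pr_nd (pr_inv (pr_nat 4 (pr_subn 1 (ycg_s.snd h1))))))))⟩
noncomputable def lc43_7_s : Sl2 lc43_7 := ⟨_, fun h1 h2 => (pr_half h1)⟩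
noncomputable def lc43_8_s : Sl2 lc43_8 := ⟨_, fun h1 h2 => (pr_scaleT 1 4 (ycg_s.snd h1))⟩
noncomputable def lc43_9_s : Sl2 lc43_9 := ⟨_, fun h1 h2 => (pr_sub (lc43_7_s.snd h1 h2) (lc43_8_s.snd h1 h2))⟩
noncomputable def lc43_12_s : Sl2 lc43_12 := ⟨_, fun h1 h2 => (pr_add (pr_scaleT 1 4 h1) (pr_scaleT 3 8 (ycg_s.snd h1)))⟩
noncomputable def lc43_14_s : Sl2 lc43_14 := ⟨_, fun h1 h2 => (pr_half (lc43_9_s.snd h1 h2))⟩
noncomputable def lc43_s : Sl2 lc43 := ⟨_, fun h1 h2 => (pr_norm (pr_sub (pr_nat 2 (txg_s.snd (pr_norm (pr_sub (lc43_8_s.snd h1 h2) (lc43_7_s.snd h1 h2))) (pr_norm (pr_add (lc43_12_s.snd h1 h2) (lc43_14_s.snd h1 h2))) h2)) (txg_s.snd (pr_norm (lc43_9_s.snd h1 h2)) (pr_norm (pr_sub (lc43_12_s.snd h1 h2) (lc43_14_s.snd h1 h2))) h2)))⟩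
noncomputable def kcc43_9_s : Sl2 kcc43_9 := ⟨_, fun h1 h2 => (pr_sub (pr_half h1) (pr_scaleT 1 4 (ycg_s.snd h1)))⟩
noncomputable def kcc43_26_s : Sl2 kcc43_26 := ⟨_, fun h1 h2 => (pr_neg (pr_scaleT 2268 415 (kcc43_9_s.snd h1 h2)))⟩
noncomputable def kcc43_43_s : Sl2 kcc43_43 := ⟨_, fun h1 h2 => (pr_cmul (enc_norm (kcc43_4.enc h1.l h2)) (pr_norm (pr_addc (pr_scaleT 47831 167 (kcc43_9_s.snd h1 h2)) (enc_rat _ 47799 500))))⟩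
noncomputable def kcc43_s : Sl2 kcc43 := ⟨_, fun h1 h2 => (pr_norm (pr_case (kcc43_9_s.snd h1 h2) (pr_case (pr_addc (kcc43_9_s.snd h1 h2) (enc_rat _ 333 1000)) (pr_add (pr_addc (pr_scaleT 5661 835 (kcc43_9_s.snd h1 h2)) (enc_rat _ 5661 1670)) (pr_cmul (enc_norm (kcc43_4.enc h1.l h2)) (pr_norm (pr_addc (pr_scaleT 222 167 (kcc43_9_s.snd h1 h2)) (enc_rat _ 111 167))))) (pr_case (pr_addc (kcc43_9_s.snd h1 h2) (enc_rat _ 167 1000)) (pr_add (pr_subr 285381 415000 (kcc43_26_s.snd h1 h2)) (pr_cmul (enc_norm (kcc43_4.enc h1.l h2)) (pr_norm (pr_addc (pr_scaleT 47545 166 (kcc43_9_s.snd h1 h2)) (enc_rat _ 15869337 166000))))) (pr_add (pr_subr 6877 10000 (pr_neg (pr_scaleT 9127 1670 (kcc43_9_s.snd h1 h2)))) (kcc43_43_s.snd h1 h2)))) (pr_case (pr_subr 167 1000 (kcc43_9_s.snd h1 h2)) (pr_add (pr_subr 6877 10000 (pr_neg (pr_scaleT 4564 835 (kcc43_9_s.snd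 h1 h2)))) (kcc43_43_s.snd h1 h2)) (pr_case (pr_subr 333 1000 (kcc43_9_s.snd h1 h2)) (pr_add (pr_subr 570903 830000 (kcc43_26_s.snd h1 h2)) (pr_cmul (enc_norm (kcc43_4.enc h1.l h2)) (pr_norm (pr_addc (pr_scaleT 23772 83 (kcc43_9_s.snd h1 h2)) (enc_rat _ 7934683 83000))))) (pr_add (pr_subr 25077 3340 (pr_scaleT 25077 1670 (kcc43_9_s.snd h1 h2))) (pr_cmul (enc_norm (kcc43_4.enc h1.l h2)) (pr_norm (pr_csub (enc_rat _ 190973 334) (pr_scaleT 190973 167 (kcc43_9_s.snd h1 h2))))))))))⟩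
noncomputable def gB0q0 : Gn := ⟨ndB0q0, c1g_s, kf0q0_s, l0q0_s, false⟩
noncomputable def dB0q0 : CnW := ⟨cd0q0, kc0q0_s⟩
noncomputable def gB0q1 : Gn := ⟨ndB0q1, c1g_s, kf0q1_s, l0q1_s, false⟩
noncomputable def dB0q1 : CnW := ⟨cd0q1, kc0q1_s⟩
noncomputable def gB0q2 : Gn := ⟨ndB0q2, idf_s, kfc02_s, lc02_s, true⟩
noncomputable def dB0q2 : CnW := ⟨cd0q2, kcc02_s⟩
noncomputable def gB1q0 : Gn := ⟨ndB1q0, cv1m_s, kf1q0_s, l1q0_s, false⟩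
noncomputable def dB1q0 : CnW := ⟨cd1q0, kc1q0_s⟩
noncomputable def gB1q1 : Gn := ⟨ndB1q1, cv1m_s, kf1q1_s, l1q1_s, false⟩
noncomputable def dB1q1 : CnW := ⟨cd1q1, kc1q1_s⟩
noncomputable def gB1q2 : Gn := ⟨ndB1q2, cv1p_s, kf1q2_s, l1q2_s, false⟩
noncomputable def dB1q2 : CnW := ⟨cd1q2, kc1q2_s⟩
noncomputable def gB1q3 : Gn := ⟨ndB1q3, cv1r_s, kf1q3_s, l1q3_s, false⟩
noncomputable def dB1q3 : CnW := ⟨cd1q3, kc1q3_s⟩
noncomputable def gB2q0 : Gn := ⟨ndB2q0, cv2m_s, kf2q0_s, l2q0_s, false⟩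
noncomputable def dB2q0 : CnW := ⟨cd2q0, kc2q0_s⟩
noncomputable def gB2q1 : Gn := ⟨ndB2q1, cv2m_s, kf2q1_s, l2q1_s, false⟩
noncomputable def dB2q1 : CnW := ⟨cd2q1, kc2q1_s⟩
noncomputable def gB2q2 : Gn := ⟨ndB2q2, cv2p_s, kf2q2_s, l2q2_s, false⟩
noncomputable def dB2q2 : CnW := ⟨cd2q2, kc2q2_s⟩
noncomputable def gB2q3 : Gn := ⟨ndB2q3, xc23_s, kfc23_s, lc23_s, false⟩
noncomputable def dB2q3 : CnW := ⟨cd2q3, kcc23_s⟩
noncomputable def gB3q0 : Gn := ⟨ndB3q0, cv3m_s, kf3q0_s, l3q0_s, false⟩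
noncomputable def dB3q0 : CnW := ⟨cd3q0, kc3q0_s⟩
noncomputable def gB3q1 : Gn := ⟨ndB3q1, cv3m_s, kf3q1_s, l3q1_s, false⟩
noncomputable def dB3q1 : CnW := ⟨cd3q1, kc3q1_s⟩
noncomputable def gB3q2 : Gn := ⟨ndB3q2, cv3p_s, kf3q2_s, l3q2_s, false⟩
noncomputable def dB3q2 : CnW := ⟨cd3q2, kc3q2_s⟩
noncomputable def gB3q3 : Gn := ⟨ndB3q3, xc33_s, kfc33_s, lc33_s, false⟩
noncomputable def dB3q3 : CnW := ⟨cd3q3, kcc33_s⟩
noncomputable def gB4q0 : Gn := ⟨ndB4q0, c3g_s, kf4q0_s, l4q0_s, false⟩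
noncomputable def dB4q0 : CnW := ⟨cd4q0, kc4q0_s⟩
noncomputable def gB4q1 : Gn := ⟨ndB4q1, c3g_s, kf4q1_s, l4q1_s, false⟩
noncomputable def dB4q1 : CnW := ⟨cd4q1, kc4q1_s⟩
noncomputable def gB4q2 : Gn := ⟨ndB4q2, c3g_s, kf4q2_s, l4q2_s, false⟩
noncomputable def dB4q2 : CnW := ⟨cd4q2, kc4q2_s⟩
noncomputable def gB4q3 : Gn := ⟨ndB4q3, idf_s, kfc43_s, lc43_s, false⟩
noncomputable def dB4q3 : CnW := ⟨cd4q3, kcc43_s⟩
noncomputable def gB0q3 : Gn := gz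
noncomputable def dB0q3 : CnW := ⟨fz2, fz2_s⟩
noncomputable def gB (j : Fin 5) (q : ℕ) : Gn :=
  match j, q with
  | 0, 0 => gB0q0
  | 0, 1 => gB0q1
  | 0, 2 => gB0q2
  | 0, 3 => gB0q3
  | 1, 0 => gB1q0
  | 1, 1 => gB1q1
  | 1, 2 => gB1q2
  | 1, 3 => gB1q3
  | 2, 0 => gB2q0
  | 2, 1 => gB2q1
  | 2, 2 => gB2q2
  | 2, 3 => gB2q3
  | 3, 0 => gB3q0
  | 3, 1 => gB3q1
  | 3, 2 => gB3q2
  | 3, 3 => gB3q3
  | 4, 0 => gB4q0
  | 4, 1 => gB4q1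
  | 4, 2 => gB4q2
  | 4, 3 => gB4q3
  | _, _ => gB0q0

noncomputable def dB (j : Fin 5) (q : ℕ) : CnW :=
  match j, q with
  | 0, 0 => dB0q0
  | 0, 1 => dB0q1
  | 0, 2 => dB0q2
  | 0, 3 => dB0q3
  | 1, 0 => dB1q0
  | 1, 1 => dB1q1
  | 1, 2 => dB1q2
  | 1, 3 => dB1q3
  | 2, 0 => dB2q0
  | 2, 1 => dB2q1
  | 2, 2 => dB2q2
  | 2, 3 => dB2q3
  | 3, 0 => dB3q0
  | 3, 1 => dB3q1
  | 3, 2 => dB3q2
  | 3, 3 => dB3q3
  | 4, 0 => dB4q0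
  | 4, 1 => dB4q1
  | 4, 2 => dB4q2
  | 4, 3 => dB4q3
  | _, _ => dB0q0

noncomputable def c0B : Fn1 := ⟨fun _ => pone, fun _ => 1, fun _ => enc_one _⟩

end Pool.Agent.Strip051.G.I9000_9231.Tab
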