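import Pool.Agent.Strip051.G.I9000_9231.StH
import Pool.Agent.Strip051.G.I9000_9231.StF

/-! # Unit strips 11 (generated) -/

set_option linter.all false
set_option maxRecDepth 100000

namespace Pool.Agent.Strip051.G.I9000_9231.Tab.St.C

open Pool.Agent.Strip051.PB Pool.Agent.Strip051.PB.T Pool.Agent.StripNear Pool.Agent.Strip051.LC
open Pool.Agent.Strip051.G.I9000_9231.Tab Pool.Agent.Strip051.G.I9000_9231.Tab.St

noncomputable def cut_A00pm_213_s3 : Cut := Cut.of [[⟨3, 0, 0, 2845415833⟩], [⟨0, 1, 0, 47710208⟩, ⟨1, 1, 0, 47710208⟩, ⟨2, 2, 0, 8388608⟩], [⟨0, 1, 0, 1572864⟩, ⟨1, 0, 1, 46137344⟩, ⟨2, 1, 1, 46137344⟩, ⟨1, 0, 0, 1013612281⟩, ⟨1, 1, 0, 128849018⟩, ⟨2, 1, 0, 1013612281⟩, ⟨2, 2, 0, 128849018⟩]]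

noncomputable def xt_A00pm_213_s3 : Ext := strExt dd true true false .u2 .u0m .s2m .pnn 2 1 3 rfl rfl gl3 vv ndB0q2 ndB0q1

noncomputable def f_A00pm_213_s3 : ℕ → ℕ → ℕ → ℕ → Bool := onCell 0 536870912 1610612736 536870912 966367641 24778659
    (rowF 1 true true false .pnn 2 1 3 (qsf 0 536870912 536870912 536870912 3) ndB0q2 ndB0q1 pcB3 cut_A00pm_213_s3 xt_A00pm_213_s3)

end Pool.Agent.Strip051.G.I9000_9231.Tab.St.C
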