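import Pool.Agent.Strip051.G.I9000_9231.StH
import Pool.Agent.Strip051.G.I9000_9231.StF

/-! # Unit strips 18 (generated) -/

set_option linter.all false
set_option maxRecDepth 100000

namespace Pool.Agent.Strip051.G.I9000_9231.Tab.St.C

open Pool.Agent.Strip051.PB Pool.Agent.Strip051.PB.T Pool.Agent.StripNear Pool.Agent.Strip051.LC
open Pool.Agent.Strip051.G.I9000_9231.Tab Pool.Agent.Strip051.G.I9000_9231.Tab.St

noncomputable def cut_B00pm_102_s1 : Cut := Cut.of [[⟨4, 0, 0, 1449551462⟩], [⟨0, 1, 0, 33554432⟩, ⟨1, 0, 0, 33554432⟩, ⟨2, 1, 0, 33554432⟩], [⟨0, 0, 1, 46137344⟩, ⟨1, 1, 2, 46137344⟩, ⟨2, 1, 0, 1572864⟩, ⟨0, 0, 0, 1013612281⟩, ⟨0, 1, 0, 128849018⟩, ⟨1, 0, 0, 128849018⟩, ⟨1, 1, 0, 1013612281⟩]]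

noncomputable def xt_B00pm_102_s1 : Ext := strExt dd false true false .u0 .u2 .u0m .npp 1 0 2 rfl rfl gf0 vv ndB0q1 ndB0q2

noncomputable def f_B00pm_102_s1 : ℕ → ℕ → ℕ → ℕ → Bool := onCell 536870912 536870912 0 536870912 966367641 24778659
    (rowF 0 false true false .npp 1 0 2 (qsf 536870912 536870912 0 536870912 0) ndB0q1 ndB0q2 pcB0 cut_B00pm_102_s1 xt_B00pm_102_s1)

end Pool.Agent.Strip051.G.I9000_9231.Tab.St.C
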